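import Pool.Agent.Lib_MP_36b788.Sde
import Pool.Agent.Lib_MP_36b788_m.M06

/-!
# MP_36b788_pr, stationary limit: merged library part M07

Concatenation of smaller files (each in its own section), only to save build time.
-/

/-! ### from `Lib_MP_36b788b.SdeB` -/

section

/-!
# SDEB: the nonlinearity `b(u) = ‖u‖^β u`

PROOF. `b_lip`: for `‖v‖ ≤ ‖u‖`: `b(u)-b(v) = ‖u‖^β(u-v) + (‖u‖^β-‖v‖^β)v` and
`(‖u‖^β-‖v‖^β)‖v‖ ≤ β‖u‖^{β-1}‖u-v‖·‖v‖ ≤ β‖u‖^β‖u-v‖` (mean value theorem, `β ≥ 1`); `‖u‖^β ≤ (‖u‖+‖v‖)^β`.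
`b_L2`: `‖b(U)-b(V)‖² ≤ (1+β)²(‖U‖+‖V‖)^{2β}‖U-V‖² ≤ (1+β)²(‖U‖+‖V‖)^{2β+1}‖U-V‖`, Cauchy-Schwarz:
`≤ (1+β)²(∫(‖U‖+‖V‖)^{4β+2})^{1/2}(∫‖U-V‖²)^{1/2}`, `a^{4β+2} ≤ 1+a^p` (`p = ⌈4β+2⌉₊`), `(‖U‖+‖V‖)^p ≤ 2^p(‖U‖^p+‖V‖^p)`.
`MemLp`: `‖b(U)‖² = ‖U‖^{2+2β} ≤ 1+‖U‖^p`.
-/

open MeasureTheory ProbabilityTheory
open scoped NNReal ENNReal Topology

namespace DynB

open Dyn

private theorem SdeB_real {β a b : ℝ} (hβ : 0 < β) (hb : 0 ≤ b) (hab : b ≤ a) :
    (a ^ β - b ^ β) * b ≤ β * a ^ β * (a - b) := by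
  rcases hb.eq_or_lt with hb0 | hb0
  · rw [← hb0]
    have h1 : 0 ≤ a ^ β := Real.rpow_nonneg (hb.trans hab) β
    have h2 : 0 ≤ a := hb.trans hab
    simp only [mul_zero, sub_zero]
    positivity
  have ha : 0 < a := lt_of_lt_of_le hb0 hab
  have hA : 0 < a ^ β := Real.rpow_pos_of_pos ha β
  have hB : 0 < b ^ β := Real.rpow_pos_of_pos hb0 β
  rcases le_total 1 β with h | h
  · have h1 := one_add_mul_self_le_rpow_one_add (s := b / a - 1) (p := β)
      (by have : 0 ≤ b / a := div_nonneg hb ha.le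
          linarith) h
    have h2 : 1 + (b / a - 1) = b / a := by ring
    rw [h2, Real.div_rpow hb ha.le] at h1
    have h3 : a ^ β * (1 + β * (b / a - 1)) ≤ b ^ β := by
      rw [le_div_iff₀ hA] at h1
      linarith
    have h4 : a ^ β - b ^ β ≤ β * a ^ β * ((a - b) / a) := by
      have e : a ^ β * (1 + β * (b / a - 1)) = a ^ β - β * a ^ β * ((a - b) / a) := by
        field_simp
        ring
      linarith
    have h5 : (a - b) / a * b ≤ a - b := by
      rw [div_mul_eq_mul_div, div_le_iff₀ ha]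
      exact mul_le_mul_of_nonneg_left hab (by linarith)
    have h6 : 0 ≤ β * a ^ β := by positivity
    calc (a ^ β - b ^ β) * b ≤ β * a ^ β * ((a - b) / a) * b := mul_le_mul_of_nonneg_right h4 hb
      _ = β * a ^ β * ((a - b) / a * b) := by ring
      _ ≤ β * a ^ β * (a - b) := mul_le_mul_of_nonneg_left h5 h6
  · have h1 := rpow_one_add_le_one_add_mul_self (s := a / b - 1) (p := β)
      (by have : 0 ≤ a / b := div_nonneg ha.le hb
          linarith) hβ.le h
    have h2 : 1 + (a / b - 1) = a / b := by ring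
    rw [h2, Real.div_rpow ha.le hb, div_le_iff₀ hB] at h1
    have h3 : a ^ β * b ≤ b ^ β * b + β * b ^ β * (a - b) := by
      have e : (1 + β * (a / b - 1)) * b ^ β * b = b ^ β * b + β * b ^ β * (a - b) := by
        field_simp
      rw [← e]
      exact mul_le_mul_of_nonneg_right h1 hb
    have h4 : b ^ β ≤ a ^ β := Real.rpow_le_rpow hb hab hβ.le
    have h5 : β * b ^ β * (a - b) ≤ β * a ^ β * (a - b) :=
      mul_le_mul_of_nonneg_right (mul_le_mul_of_nonneg_left h4 hβ.le) (by linarith)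
    have e2 : (a ^ β - b ^ β) * b = a ^ β * b - b ^ β * b := by ring
    rw [e2]
    linarith

private theorem SdeB_lip_aux {N : ℕ} {β : ℝ} (hβ : 0 < β) (u v : E N) (h : ‖v‖ ≤ ‖u‖) :
    ‖(‖u‖ ^ β) • u - (‖v‖ ^ β) • v‖ ≤ (1 + β) * (‖u‖ + ‖v‖) ^ β * ‖u - v‖ := by
  have e : (‖u‖ ^ β) • u - (‖v‖ ^ β) • v = (‖u‖ ^ β) • (u - v) + (‖u‖ ^ β - ‖v‖ ^ β) • v := by
    rw [smul_sub, sub_smul]
    abel
  have hu : 0 ≤ ‖u‖ := norm_nonneg u
  have hv : 0 ≤ ‖v‖ := norm_nonneg v
  have h0 : 0 ≤ ‖u‖ ^ β := Real.rpow_nonneg hu β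
  have h1 : ‖v‖ ^ β ≤ ‖u‖ ^ β := Real.rpow_le_rpow hv h (by linarith)
  have h2 := SdeB_real hβ hv h
  have h3 : ‖u‖ - ‖v‖ ≤ ‖u - v‖ := norm_sub_norm_le u v
  have h4 : ‖u‖ ^ β ≤ (‖u‖ + ‖v‖) ^ β := Real.rpow_le_rpow hu (by linarith) (by linarith)
  rw [e]
  calc ‖(‖u‖ ^ β) • (u - v) + (‖u‖ ^ β - ‖v‖ ^ β) • v‖
      ≤ ‖(‖u‖ ^ β) • (u - v)‖ + ‖(‖u‖ ^ β - ‖v‖ ^ β) • v‖ := norm_add_le _ _
    _ = ‖u‖ ^ β * ‖u - v‖ + (‖u‖ ^ β - ‖v‖ ^ β) * ‖v‖ := by
      rw [norm_smul, norm_smul, Real.norm_of_nonneg h0, Real.norm_of_nonneg (by linarith)]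
    _ ≤ ‖u‖ ^ β * ‖u - v‖ + β * ‖u‖ ^ β * ‖u - v‖ := by
      have : β * ‖u‖ ^ β * (‖u‖ - ‖v‖) ≤ β * ‖u‖ ^ β * ‖u - v‖ :=
        mul_le_mul_of_nonneg_left h3 (by positivity)
      linarith
    _ = (1 + β) * ‖u‖ ^ β * ‖u - v‖ := by ring
    _ ≤ (1 + β) * (‖u‖ + ‖v‖) ^ β * ‖u - v‖ :=
      mul_le_mul_of_nonneg_right (mul_le_mul_of_nonneg_left h4 (by linarith)) (norm_nonneg _)

theorem b_lip {N : ℕ} {β : ℝ} (hβ : 0 < β) (u v : E N) :
    ‖(‖u‖ ^ β) • u - (‖v‖ ^ β) • v‖ ≤ (1 + β) * (‖u‖ + ‖v‖) ^ β * ‖u - v‖ := by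
  rcases le_total ‖v‖ ‖u‖ with h | h
  · exact SdeB_lip_aux hβ u v h
  · rw [norm_sub_rev, norm_sub_rev u v, add_comm ‖u‖]
    exact SdeB_lip_aux hβ v u h

private theorem SdeB_pow {a s : ℝ} {p : ℕ} (ha : 0 ≤ a) (hs : 0 ≤ s) (hsp : s ≤ p) :
    a ^ s ≤ 1 + a ^ p := by
  rcases le_total a 1 with h | h
  · have h1 := Real.rpow_le_one ha h hs
    have h2 := pow_nonneg ha p
    linarith
  · have h1 := Real.rpow_le_rpow_of_exponent_le h hsp
    rw [Real.rpow_natCast] at h1
    linarith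

private theorem SdeB_cont (N : ℕ) {β : ℝ} (hβ : 0 < β) :
    Continuous fun u : E N => (‖u‖ ^ β) • u :=
  (continuous_norm.rpow_const fun _ => Or.inr (by linarith)).smul continuous_id

private theorem SdeB_sq {N : ℕ} {β : ℝ} (hβ : 0 < β) (u : E N) {p : ℕ} (hp : 4 * β + 2 ≤ p) :
    ‖(‖u‖ ^ β) • u‖ ^ 2 ≤ 1 + ‖u‖ ^ p := by
  have hu : 0 ≤ ‖u‖ := norm_nonneg u
  rw [norm_smul, Real.norm_of_nonneg (Real.rpow_nonneg hu β)]
  have e : (‖u‖ ^ β * ‖u‖) ^ 2 = ‖u‖ ^ ((β + 1) * (2 : ℕ) : ℝ) := by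
    rw [Real.rpow_mul hu, Real.rpow_natCast]
    congr 1
    rw [Real.rpow_add_one' hu (by linarith)]
  rw [e]
  refine SdeB_pow hu (by push_cast; linarith) ?_
  push_cast
  linarith

private theorem SdeB_cs {Ω : Type} [MeasurableSpace Ω] (P : Measure Ω) (f g : Ω → ℝ)
    (hf0 : ∀ ω, 0 ≤ f ω) (hg0 : ∀ ω, 0 ≤ g ω) (hf : MemLp f 2 P) (hg : MemLp g 2 P) :
    ∫ ω, f ω * g ω ∂P ≤ Real.sqrt (∫ ω, f ω ^ 2 ∂P) * Real.sqrt (∫ ω, g ω ^ 2 ∂P) := by
  have h2 : (2 : ℝ).HolderConjugate 2 := Real.HolderConjugate.two_two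
  have e2 : ENNReal.ofReal 2 = 2 := by simp
  rw [← e2] at hf hg
  have h := integral_mul_le_Lp_mul_Lq_of_nonneg h2
    (Filter.Eventually.of_forall hf0) (Filter.Eventually.of_forall hg0) hf hg
  simp only [Real.rpow_two] at h
  rw [Real.sqrt_eq_rpow, Real.sqrt_eq_rpow]
  exact h

theorem b_L2 (N : ℕ) (β : ℝ) (hβ : 0 < β) (M : ℝ) (hM : 0 ≤ M) : ∃ C : ℝ, 0 < C ∧
    ∀ {Ω : Type} [MeasurableSpace Ω] (P : Measure Ω) [IsProbabilityMeasure P] (U V : Ω → E N),
      AEStronglyMeasurable U P → AEStronglyMeasurable V P →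
      Integrable (fun ω => ‖U ω‖ ^ ⌈4 * β + 2⌉₊) P → Integrable (fun ω => ‖V ω‖ ^ ⌈4 * β + 2⌉₊) P →
      ∫ ω, ‖U ω‖ ^ ⌈4 * β + 2⌉₊ ∂P ≤ M → ∫ ω, ‖V ω‖ ^ ⌈4 * β + 2⌉₊ ∂P ≤ M →
      MemLp (fun ω => (‖U ω‖ ^ β) • U ω) 2 P ∧
      ∫ ω, ‖(‖U ω‖ ^ β) • U ω‖ ^ 2 ∂P ≤ C ∧
      ∫ ω, ‖(‖U ω‖ ^ β) • U ω - (‖V ω‖ ^ β) • V ω‖ ^ 2 ∂P ≤
        C * Real.sqrt (∫ ω, ‖U ω - V ω‖ ^ 2 ∂P) := by
  have hp : 4 * β + 2 ≤ (⌈4 * β + 2⌉₊ : ℝ) := Nat.le_ceil _
  generalize ⌈4 * β + 2⌉₊ = p at *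
  refine ⟨(1 + M) + (1 + β) ^ 2 * Real.sqrt (1 + 2 ^ p * (M + M)), by positivity, ?_⟩
  intro Ω _ P _ U V hUm hVm hUi hVi hUM hVM
  have hsq : 0 ≤ (1 + β) ^ 2 * Real.sqrt (1 + 2 ^ p * (M + M)) := by positivity
  have hdom : Integrable (fun ω => 1 + ‖U ω‖ ^ p) P := (integrable_const 1).add hUi
  have hbm : AEStronglyMeasurable (fun ω => (‖U ω‖ ^ β) • U ω) P :=
    (SdeB_cont N hβ).comp_aestronglyMeasurable hUm
  refine ⟨?_, ?_, ?_⟩
  · rw [memLp_two_iff_integrable_sq_norm hbm]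
    refine hdom.mono' (hbm.norm.pow 2) (Filter.Eventually.of_forall fun ω => ?_)
    rw [Real.norm_of_nonneg (sq_nonneg _)]
    exact SdeB_sq hβ (U ω) hp
  · have h1 : ∫ ω, ‖(‖U ω‖ ^ β) • U ω‖ ^ 2 ∂P ≤ ∫ ω, (1 + ‖U ω‖ ^ p) ∂P :=
      integral_mono_of_nonneg (Filter.Eventually.of_forall fun ω => sq_nonneg _) hdom
        (Filter.Eventually.of_forall fun ω => SdeB_sq hβ (U ω) hp)
    rw [integral_add (integrable_const 1) hUi] at h1
    simp only [integral_const, probReal_univ, smul_eq_mul, mul_one] at h1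
    linarith
  · -- the dominating function
    have hD : Integrable (fun ω => 1 + 2 ^ p * (‖U ω‖ ^ p + ‖V ω‖ ^ p)) P :=
      (integrable_const 1).add ((hUi.add hVi).const_mul _)
    have hDi : ∫ ω, (1 + 2 ^ p * (‖U ω‖ ^ p + ‖V ω‖ ^ p)) ∂P ≤ 1 + 2 ^ p * (M + M) := by
      have hS : Integrable (fun ω => ‖U ω‖ ^ p + ‖V ω‖ ^ p) P := hUi.add hVi
      rw [integral_add (integrable_const 1) (hS.const_mul _), integral_const_mul,
        integral_add hUi hVi]
      simp only [integral_const, probReal_univ, smul_eq_mul, mul_one]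
      have : (2 : ℝ) ^ p * (∫ ω, ‖U ω‖ ^ p ∂P + ∫ ω, ‖V ω‖ ^ p ∂P) ≤ 2 ^ p * (M + M) :=
        mul_le_mul_of_nonneg_left (add_le_add hUM hVM) (by positivity)
      linarith
    have hpt : ∀ ω, ∀ s : ℝ, 0 ≤ s → s ≤ p →
        (‖U ω‖ + ‖V ω‖) ^ s ≤ 1 + 2 ^ p * (‖U ω‖ ^ p + ‖V ω‖ ^ p) := by
      intro ω s hs hsp
      have h1 := SdeB_pow (a := ‖U ω‖ + ‖V ω‖) (by positivity) hs hsp
      have h2 := add_pow_le (norm_nonneg (U ω)) (norm_nonneg (V ω)) p
      have h3 : (2 : ℝ) ^ (p - 1) * (‖U ω‖ ^ p + ‖V ω‖ ^ p) ≤ 2 ^ p * (‖U ω‖ ^ p + ‖V ω‖ ^ p) :=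
        mul_le_mul_of_nonneg_right (pow_le_pow_right₀ (by norm_num) (Nat.sub_le _ _)) (by positivity)
      linarith
    have hgm : AEStronglyMeasurable (fun ω => ‖U ω - V ω‖) P := (hUm.sub hVm).norm
    have hfm : AEStronglyMeasurable (fun ω => (‖U ω‖ + ‖V ω‖) ^ (2 * β + 1)) P := by
      have hc : Continuous fun x : ℝ => x ^ (2 * β + 1) :=
        continuous_id.rpow_const fun _ => Or.inr (by linarith)
      exact hc.comp_aestronglyMeasurable (hUm.norm.add hVm.norm)
    have hf2 : ∀ ω, ((‖U ω‖ + ‖V ω‖) ^ (2 * β + 1)) ^ 2 ≤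
        1 + 2 ^ p * (‖U ω‖ ^ p + ‖V ω‖ ^ p) := by
      intro ω
      have e : ((‖U ω‖ + ‖V ω‖) ^ (2 * β + 1)) ^ 2 = (‖U ω‖ + ‖V ω‖) ^ ((2 * β + 1) * (2 : ℕ) : ℝ) := by
        rw [Real.rpow_mul (by positivity), Real.rpow_natCast]
      rw [e]
      exact hpt ω _ (by push_cast; linarith) (by push_cast; linarith)
    have hg2 : ∀ ω, ‖U ω - V ω‖ ^ 2 ≤ 1 + 2 ^ p * (‖U ω‖ ^ p + ‖V ω‖ ^ p) := by
      intro ω
      have h1 : ‖U ω - V ω‖ ≤ ‖U ω‖ + ‖V ω‖ := norm_sub_le _ _
      have h2 := hpt ω 2 (by norm_num) (by linarith)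
      rw [Real.rpow_two] at h2
      exact (pow_le_pow_left₀ (norm_nonneg _) h1 2).trans h2
    have hfL : MemLp (fun ω => (‖U ω‖ + ‖V ω‖) ^ (2 * β + 1)) 2 P := by
      rw [memLp_two_iff_integrable_sq hfm]
      refine hD.mono' (hfm.pow 2) (Filter.Eventually.of_forall fun ω => ?_)
      rw [Real.norm_of_nonneg (sq_nonneg _)]
      exact hf2 ω
    have hgL : MemLp (fun ω => ‖U ω - V ω‖) 2 P := by
      rw [memLp_two_iff_integrable_sq hgm]
      refine hD.mono' (hgm.pow 2) (Filter.Eventually.of_forall fun ω => ?_)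
      rw [Real.norm_of_nonneg (sq_nonneg _)]
      exact hg2 ω
    have hCS : ∫ ω, (‖U ω‖ + ‖V ω‖) ^ (2 * β + 1) * ‖U ω - V ω‖ ∂P ≤
        Real.sqrt (∫ ω, ((‖U ω‖ + ‖V ω‖) ^ (2 * β + 1)) ^ 2 ∂P) *
          Real.sqrt (∫ ω, ‖U ω - V ω‖ ^ 2 ∂P) := by
      exact SdeB_cs P _ _ (fun ω => Real.rpow_nonneg (by positivity) _) (fun ω => norm_nonneg _)
        hfL hgL
    have hI : Integrable (fun ω => (‖U ω‖ + ‖V ω‖) ^ (2 * β + 1) * ‖U ω - V ω‖) P :=
      hfL.integrable_mul hgL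
    have hmain : ∫ ω, ‖(‖U ω‖ ^ β) • U ω - (‖V ω‖ ^ β) • V ω‖ ^ 2 ∂P ≤
        ∫ ω, (1 + β) ^ 2 * ((‖U ω‖ + ‖V ω‖) ^ (2 * β + 1) * ‖U ω - V ω‖) ∂P := by
      refine integral_mono_of_nonneg (Filter.Eventually.of_forall fun ω => sq_nonneg _)
        (hI.const_mul _) (Filter.Eventually.of_forall fun ω => ?_)
      set a := ‖U ω‖ + ‖V ω‖ with ha
      have ha0 : 0 ≤ a := by positivity
      have h1 := b_lip hβ (U ω) (V ω)
      have h3 : ‖U ω - V ω‖ ≤ a := norm_sub_le _ _
      have h4 : a ^ (2 * β + 1) = (a ^ β) ^ 2 * a := by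
        rw [Real.rpow_add_one' ha0 (by linarith), mul_comm 2 β, Real.rpow_mul ha0, Real.rpow_two]
      change ‖(‖U ω‖ ^ β) • U ω - (‖V ω‖ ^ β) • V ω‖ ^ 2 ≤
        (1 + β) ^ 2 * (a ^ (2 * β + 1) * ‖U ω - V ω‖)
      have h5 : 0 ≤ (1 + β) ^ 2 * (a ^ β) ^ 2 * ‖U ω - V ω‖ := by positivity
      calc ‖(‖U ω‖ ^ β) • U ω - (‖V ω‖ ^ β) • V ω‖ ^ 2
          ≤ ((1 + β) * a ^ β * ‖U ω - V ω‖) ^ 2 := pow_le_pow_left₀ (norm_nonneg _) h1 2
        _ = (1 + β) ^ 2 * (a ^ β) ^ 2 * ‖U ω - V ω‖ * ‖U ω - V ω‖ := by ring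
        _ ≤ (1 + β) ^ 2 * (a ^ β) ^ 2 * ‖U ω - V ω‖ * a := mul_le_mul_of_nonneg_left h3 h5
        _ = (1 + β) ^ 2 * (a ^ (2 * β + 1) * ‖U ω - V ω‖) := by rw [h4]; ring
    refine hmain.trans ?_
    rw [integral_const_mul]
    have h6 : ∫ ω, ((‖U ω‖ + ‖V ω‖) ^ (2 * β + 1)) ^ 2 ∂P ≤ 1 + 2 ^ p * (M + M) :=
      (integral_mono_of_nonneg (Filter.Eventually.of_forall fun ω => sq_nonneg _) hD
        (Filter.Eventually.of_forall hf2)).trans hDi
    have h7 := Real.sqrt_le_sqrt h6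
    have h8 : 0 ≤ Real.sqrt (∫ ω, ‖U ω - V ω‖ ^ 2 ∂P) := Real.sqrt_nonneg _
    calc (1 + β) ^ 2 * ∫ ω, (‖U ω‖ + ‖V ω‖) ^ (2 * β + 1) * ‖U ω - V ω‖ ∂P
        ≤ (1 + β) ^ 2 * (Real.sqrt (∫ ω, ((‖U ω‖ + ‖V ω‖) ^ (2 * β + 1)) ^ 2 ∂P) *
          Real.sqrt (∫ ω, ‖U ω - V ω‖ ^ 2 ∂P)) := mul_le_mul_of_nonneg_left hCS (sq_nonneg _)
      _ ≤ (1 + β) ^ 2 * (Real.sqrt (1 + 2 ^ p * (M + M)) *
          Real.sqrt (∫ ω, ‖U ω - V ω‖ ^ 2 ∂P)) :=
        mul_le_mul_of_nonneg_left (mul_le_mul_of_nonneg_right h7 h8) (sq_nonneg _)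
      _ = (1 + β) ^ 2 * Real.sqrt (1 + 2 ^ p * (M + M)) *
          Real.sqrt (∫ ω, ‖U ω - V ω‖ ^ 2 ∂P) := by ring
      _ ≤ ((1 + M) + (1 + β) ^ 2 * Real.sqrt (1 + 2 ^ p * (M + M))) *
          Real.sqrt (∫ ω, ‖U ω - V ω‖ ^ 2 ∂P) :=
        mul_le_mul_of_nonneg_right (by linarith) h8

end DynB

end

/-! ### from `Lib_MP_36b788c.Grw` -/

section

/-!
# Growth of fields with `D⁺ ≤ e^b D + k h cpl D`

PROOF.
* `boxMSet`: the box with the distance of `boxNet`: `dist = l1` (`boxNet_dist`), at most `(2r+1)^d` points within distance `r` (each coordinate difference is in `[-r,r]`).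
* `grow_path`: (LPP majorant) `W = lpp q' 0 g`, `g_j(x) = b_j(x)/ell`. If `D_0 ≤ A exp(ell H)`, `H` is `ρ`-Lipschitz for neighbours, `q' + ρ + ε ≤ 1`, then `D_n(x) ≤ A (1 + 4 d k^ε h)^n exp(ell (W_n(x) + H x))`. Induction: `e^{b} D_n(x)`: `W_{n+1}(x) ≥ W_n(x) + g`. Neighbour `y`:
  `W_{n+1}(x) ≥ W_n(y) - q'` (jump, `g⁺ ≥ 0`), `H y ≤ H x + ρ`: `k h D_n(y) ≤ h k^{1-q'-ρ} A (…)^n exp(ell(W_{n+1}(x) + H x))`; the same for the term `2d u(x)` (jump to itself costs `q'`). `k = e^{-ell}`.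
* `gD2` (`N = 2`, `PS2`): the image of `PI (gC^box)` under `Re` is `PI (nz box)` (`PI_map`, `Measure.pi_map_pi`, first marginal of `gC`). `g = sc v ω` with `v = h/ell²`. `q' = 1/8`, `ρ = 3/4`, `ε = 1/8`, `H(x) = - (3/4) dist x y`, `A = D_0(y)`. `n h ≤ T ell² + h`: `(1+4d k^{1/8} h)^n ≤ e` for small `k`.
  `D^{2θ} ≤ A^{2θ} e^{2θ} exp(2a W - (3/2) a dist)`, `lpp_exp` with `lam = 2a ≤ lam0`: `≤ exp(C (T + 2) 2a)`.
* `gD3`: `E D_{n+1}(x) ≤ (1+Ch) E D_n(x) + k h cpl (E D_n)(x)`; `U(x) = A k^{(3/4) dist x y}` satisfies `k cpl U x ≤ 4 d k^{1/4} U x`; so `E D_n ≤ exp((C+4d) n h) U`, `n h ≤ T ell + h`; Jensen with exponent `2θ = 2a/ell ≤ 1`.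
-/

open MeasureTheory ProbabilityTheory
open scoped ENNReal

namespace DynC

open Dyn

/-- the box as a metric set -/
noncomputable def boxMSet (d L : ℕ) : MSet (boxS d L) d where
  dd := (boxNet d L).dist
  dd_self := (boxNet d L).dist_self
  dd_pos := (boxNet d L).dist_pos
  dd_comm := (boxNet d L).dist_comm
  dd_tri := (boxNet d L).dist_tri
  growth := by
    intro x r A hA
    classical
    have h1 : A.image (fun y : boxS d L => (y : Fin d → ℤ)) ⊆
        Fintype.piFinset (fun i : Fin d =>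
          Finset.Icc ((x : Fin d → ℤ) i - (r : ℤ)) ((x : Fin d → ℤ) i + (r : ℤ))) := by
      intro y hy
      rw [Finset.mem_image] at hy
      obtain ⟨w, hw, rfl⟩ := hy
      rw [Fintype.mem_piFinset]
      intro i
      have h2 := hA w hw
      rw [boxNet_dist] at h2
      have h3 : ((x : Fin d → ℤ) i - (w : Fin d → ℤ) i).natAbs ≤ r := by
        refine le_trans ?_ h2
        unfold l1
        exact Finset.single_le_sum
          (f := fun i => ((x : Fin d → ℤ) i - (w : Fin d → ℤ) i).natAbs)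
          (fun j _ => Nat.zero_le _) (Finset.mem_univ i)
      rw [Finset.mem_Icc]
      omega
    have h2 := Finset.card_le_card h1
    rw [Finset.card_image_of_injective _ Subtype.val_injective, Fintype.card_piFinset] at h2
    refine h2.trans (le_of_eq ?_)
    have h3 : ∀ i : Fin d, (Finset.Icc ((x : Fin d → ℤ) i - (r : ℤ))
        ((x : Fin d → ℤ) i + (r : ℤ))).card = 2 * r + 1 := by
      intro i
      rw [Int.card_Icc]
      omega
    rw [Finset.prod_congr rfl (fun i _ => h3 i), Finset.prod_const, Finset.card_univ,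
      Fintype.card_fin]

private theorem Grw_W0 (d L : ℕ) (q : ℝ) (g : ℕ → boxS d L → ℝ) (n : ℕ) (x : boxS d L) :
    (boxMSet d L).lpp q (fun _ => 0) g n x + g n x ≤ (boxMSet d L).lpp q (fun _ => 0) g (n + 1) x := by
  show _ ≤ max 0 (max ((boxMSet d L).lpp q (fun _ => 0) g n x + g n x) _)
  exact (le_max_left _ _).trans (le_max_right _ _)

private theorem Grw_W1 (d L : ℕ) (q : ℝ) (g : ℕ → boxS d L → ℝ) (n : ℕ)
    (x y : boxS d L) (hy : (boxNet d L).dist x y ≤ 1) :
    (boxMSet d L).lpp q (fun _ => 0) g n y ≤ (boxMSet d L).lpp q (fun _ => 0) g (n + 1) x + q := by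
  have h1 : (boxMSet d L).lpp q (fun _ => 0) g n y - q * max ((boxMSet d L).dd x y : ℝ) 1 ≤
      (boxMSet d L).Rq1 q ((boxMSet d L).lpp q (fun _ => 0) g n) x := by
    unfold MSet.Rq1
    exact Finset.le_max' (Finset.univ.image fun z : boxS d L =>
      (boxMSet d L).lpp q (fun _ => 0) g n z - q * max ((boxMSet d L).dd x z : ℝ) 1) _
      (Finset.mem_image_of_mem _ (Finset.mem_univ y))
  have h2 : max ((boxMSet d L).dd x y : ℝ) 1 = 1 := by
    apply max_eq_right
    exact_mod_cast hy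
  rw [h2] at h1
  have h3 : (boxMSet d L).Rq1 q ((boxMSet d L).lpp q (fun _ => 0) g n) x + max (g n x) 0 ≤
      (boxMSet d L).lpp q (fun _ => 0) g (n + 1) x := by
    show _ ≤ max 0 (max _ ((boxMSet d L).Rq1 q ((boxMSet d L).lpp q (fun _ => 0) g n) x +
      max (g n x) 0))
    exact (le_max_right _ _).trans (le_max_right _ _)
  have h4 : 0 ≤ max (g n x) 0 := le_max_right _ _
  linarith

theorem grow_path (d L : ℕ) (k h ε q' ρ A : ℝ) (hk : 0 < k) (hk1 : k < 1) (hh : 0 < h)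
    (hA : 0 ≤ A) (hq' : 0 ≤ q') (hρ : 0 ≤ ρ) (hε : 0 < ε) (hs : q' + ρ + ε ≤ 1)
    (b D : ℕ → boxS d L → ℝ)
    (hD : ∀ j, DStep (boxNet d L) h k (b j) (D j) (D (j + 1)))
    (H : boxS d L → ℝ) (hH : ∀ x, ∀ y ∈ (boxNet d L).nb x, H y ≤ H x + ρ)
    (h0 : ∀ x, D 0 x ≤ A * Real.exp (ell k * H x)) (n : ℕ) (x : boxS d L) :
    D n x ≤ A * (1 + 4 * d * k ^ ε * h) ^ n *
      Real.exp (ell k * ((boxMSet d L).lpp q' (fun _ => 0) (fun j y => b j y / ell k) n x + H x)) := by
  have hell : 0 < ell k := by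
    unfold ell
    apply Real.log_pos
    rw [lt_div_iff₀ hk]
    linarith
  have hkexp : k = Real.exp (-ell k) := by
    unfold ell
    rw [one_div, Real.log_inv, neg_neg, Real.exp_log hk]
  have hkeps : k ^ ε = Real.exp (-(ell k * ε)) := by
    conv_lhs => rw [hkexp]
    rw [← Real.exp_mul]
    congr 1
    ring
  have hkpos : 0 ≤ k ^ ε := Real.rpow_nonneg hk.le _
  have hfac : 0 ≤ 1 + 4 * (d : ℝ) * k ^ ε * h := by positivity
  induction n generalizing x with
  | zero =>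
    have h1 := h0 x
    show D 0 x ≤ A * (1 + 4 * d * k ^ ε * h) ^ 0 * Real.exp (ell k * (0 + H x))
    rw [pow_zero, mul_one, zero_add]
    exact h1
  | succ n ih =>
    set W := (boxMSet d L).lpp q' (fun _ => 0) (fun j y => b j y / ell k) with hW
    set P : ℝ := A * (1 + 4 * d * k ^ ε * h) ^ n with hP
    have hP0 : 0 ≤ P := mul_nonneg hA (pow_nonneg hfac _)
    set E : ℝ := Real.exp (ell k * (W (n + 1) x + H x)) with hE
    have hE0 : 0 ≤ E := (Real.exp_pos _).le
    have hup := (hD n).up x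
    have hself : Real.exp (b n x) * D n x ≤ P * E := by
      have h1 := Grw_W0 d L q' (fun j y => b j y / ell k) n x
      have h1' : W n x + b n x / ell k ≤ W (n + 1) x := h1
      calc Real.exp (b n x) * D n x
          ≤ Real.exp (b n x) * (P * Real.exp (ell k * (W n x + H x))) :=
            mul_le_mul_of_nonneg_left (ih x) (Real.exp_pos _).le
        _ = P * Real.exp (ell k * (W n x + b n x / ell k + H x)) := by
            have h2 : ell k * (W n x + b n x / ell k + H x) =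
                b n x + ell k * (W n x + H x) := by
              field_simp
              ring
            rw [h2, Real.exp_add]
            ring
        _ ≤ P * E := by
            apply mul_le_mul_of_nonneg_left _ hP0
            apply Real.exp_le_exp.mpr
            apply mul_le_mul_of_nonneg_left _ hell.le
            linarith
    have hcoup : ∀ y, (boxNet d L).dist x y ≤ 1 → H y ≤ H x + ρ →
        D n y ≤ P * E * Real.exp (ell k * (q' + ρ)) := by
      intro y hy hHy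
      have h1 := Grw_W1 d L q' (fun j y => b j y / ell k) n x y hy
      have h1' : W n y ≤ W (n + 1) x + q' := h1
      refine (ih y).trans ?_
      rw [mul_assoc P E, hE, ← Real.exp_add]
      apply mul_le_mul_of_nonneg_left _ hP0
      apply Real.exp_le_exp.mpr
      rw [← mul_add]
      apply mul_le_mul_of_nonneg_left _ hell.le
      linarith
    set Q : ℝ := P * E * Real.exp (ell k * (q' + ρ)) with hQ
    have hQ0 : 0 ≤ Q := mul_nonneg (mul_nonneg hP0 hE0) (Real.exp_pos _).le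
    have hcpl : cpl (boxNet d L) (D n) x ≤ 4 * d * Q := by
      unfold cpl
      have h1 : ∑ y ∈ (boxNet d L).nb x, D n y ≤ 2 * d * Q := by
        calc ∑ y ∈ (boxNet d L).nb x, D n y ≤ ∑ y ∈ (boxNet d L).nb x, Q :=
              Finset.sum_le_sum fun y hy =>
                hcoup y (le_of_eq ((boxNet d L).dist_nb x y hy)) (hH x y hy)
          _ = ((boxNet d L).nb x).card * Q := by rw [Finset.sum_const, nsmul_eq_mul]
          _ ≤ 2 * d * Q := by
              apply mul_le_mul_of_nonneg_right _ hQ0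
              exact_mod_cast (boxNet d L).nb_card x
      have h2 : ((2 * d : ℕ) : ℝ) * D n x ≤ 2 * d * Q := by
        have h3 := hcoup x (by rw [(boxNet d L).dist_self]; exact Nat.zero_le _)
          (by linarith)
        push_cast
        exact mul_le_mul_of_nonneg_left h3 (by positivity)
      linarith
    have hkQ : k * Q ≤ P * E * k ^ ε := by
      have h1 : k * Q = P * E * (k * Real.exp (ell k * (q' + ρ))) := by
        rw [hQ]
        ring
      rw [h1, hkeps]
      apply mul_le_mul_of_nonneg_left _ (mul_nonneg hP0 hE0)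
      have h2 : k * Real.exp (ell k * (q' + ρ)) = Real.exp (-ell k + ell k * (q' + ρ)) := by
        rw [Real.exp_add, ← hkexp]
      rw [h2]
      apply Real.exp_le_exp.mpr
      nlinarith
    calc D (n + 1) x ≤ Real.exp (b n x) * D n x + k * h * cpl (boxNet d L) (D n) x := hup
      _ ≤ P * E + k * h * (4 * d * Q) := by
          apply add_le_add hself
          exact mul_le_mul_of_nonneg_left hcpl (by positivity)
      _ = P * E + 4 * d * h * (k * Q) := by ring
      _ ≤ P * E + 4 * d * h * (P * E * k ^ ε) := by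
          have h5 : 4 * (d : ℝ) * h * (k * Q) ≤ 4 * d * h * (P * E * k ^ ε) :=
            mul_le_mul_of_nonneg_left hkQ (by positivity)
          linarith
      _ = A * (1 + 4 * d * k ^ ε * h) ^ (n + 1) * E := by
          rw [hP, pow_succ]
          ring

end DynC

end

/-! ### from `Lib_MP_36b788g.FCd` -/

section

/-!
# Sums over the box

PROOF.
* `cd_box`: `sum_exp_dd` (with `boxMSet d L`, whose `dd` is `(boxNet d L).dist`) for `r = a/8` and `r = 5a/8`, `cd` = the larger constant; `exp(-r)^n = exp(-(r n))`.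
* `sum_near_far`: near part: the number of `y` with `dist x y ≤ Rb` is at most `(2Rb+1)^d` (`(boxMSet d L).growth`, see `Grw.lean`; `MSet` is defined in `Lib_MP_36b788c/LPPa.lean`; use `dist_comm` if the argument order requires it).
  Far part: `dist > Rb`: `e^{-(5/8) a dist} = e^{-(a/2) dist} e^{-(a/8) dist} ≤ e^{-(a/2) Rb} e^{-(a/8) dist}`, sum `≤ e^{-(a/2) Rb} cd`.
-/

namespace DynG

open Dyn DynC

private theorem FCd_exp_pow (r : ℝ) (n : ℕ) : Real.exp (-r) ^ n = Real.exp (-(r * (n : ℝ))) := by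
  rw [← Real.exp_nat_mul]
  congr 1
  ring

theorem cd_box (d : ℕ) (a : ℝ) (ha : 0 < a) : ∃ cd : ℝ, 1 ≤ cd ∧ ∀ (L : ℕ) (x : boxS d L),
    ∑ z, Real.exp (-(a / 8)) ^ (boxNet d L).dist x z ≤ cd ∧
    ∑ y, Real.exp (-(5 / 8 * a)) ^ (boxNet d L).dist x y ≤ cd := by
  obtain ⟨C, hC1, hC⟩ := sum_exp_dd d (a / 8) (by positivity)
  obtain ⟨C', hC1', hC'⟩ := sum_exp_dd d (5 / 8 * a) (by positivity)
  refine ⟨max C C', le_max_of_le_left hC1, fun L x => ⟨?_, ?_⟩⟩
  · refine le_trans ?_ (le_max_left _ _)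
    refine le_trans (le_of_eq ?_) (hC (boxS d L) (boxMSet d L) x)
    exact Finset.sum_congr rfl fun y _ => FCd_exp_pow _ _
  · refine le_trans ?_ (le_max_right _ _)
    refine le_trans (le_of_eq ?_) (hC' (boxS d L) (boxMSet d L) x)
    exact Finset.sum_congr rfl fun y _ => FCd_exp_pow _ _

theorem sum_near_far (d L : ℕ) (a cd u v : ℝ) (ha : 0 < a) (hu : 0 ≤ u) (hv : 0 ≤ v)
    (hcd : ∀ x : boxS d L, ∑ z, Real.exp (-(a / 8)) ^ (boxNet d L).dist x z ≤ cd) (Rb : ℕ)
    (x : boxS d L) :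
    ∑ y, (if (boxNet d L).dist x y ≤ Rb then u else
        v * Real.exp (-(5 / 8 * a * (boxNet d L).dist x y))) ≤
      (2 * (Rb : ℝ) + 1) ^ d * u + v * Real.exp (-(a / 2 * Rb)) * cd := by
  classical
  have h1 : ∀ y : boxS d L, (if (boxNet d L).dist x y ≤ Rb then u else
        v * Real.exp (-(5 / 8 * a * (boxNet d L).dist x y))) ≤
      (if (boxNet d L).dist x y ≤ Rb then u else 0) +
        v * Real.exp (-(a / 2 * Rb)) * Real.exp (-(a / 8)) ^ (boxNet d L).dist x y := by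
    intro y
    split_ifs with h
    · have : 0 ≤ v * Real.exp (-(a / 2 * Rb)) * Real.exp (-(a / 8)) ^ (boxNet d L).dist x y := by
        positivity
      linarith
    · rw [zero_add, FCd_exp_pow, mul_assoc v, ← Real.exp_add]
      refine mul_le_mul_of_nonneg_left (Real.exp_le_exp.mpr ?_) hv
      have h2 : (Rb : ℝ) ≤ ((boxNet d L).dist x y : ℝ) := by
        exact_mod_cast (not_le.mp h).le
      nlinarith
  refine (Finset.sum_le_sum fun y _ => h1 y).trans ?_
  rw [Finset.sum_add_distrib]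
  refine add_le_add ?_ ?_
  · rw [← Finset.sum_filter, Finset.sum_const, nsmul_eq_mul]
    refine mul_le_mul_of_nonneg_right ?_ hu
    have h3 := (boxMSet d L).growth x Rb
      (Finset.univ.filter fun y => (boxNet d L).dist x y ≤ Rb)
      (fun y hy => (Finset.mem_filter.mp hy).2)
    exact_mod_cast h3
  · rw [← Finset.mul_sum]
    exact mul_le_mul_of_nonneg_left (hcd x) (by positivity)

end DynG

end

/-! ### from `Lib_MP_36b788c.Grw3` -/

section

/-!
# Path bound with prescribed upper bounds at some sites and times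

`grow_path2`: as `grow_path`, but at each step and site either the growth inequality holds or the value is at most `A exp(ell H)`.
-/

open MeasureTheory ProbabilityTheory
open scoped ENNReal

namespace DynC

open Dyn

private theorem Grw3_W0 (d L : ℕ) (q : ℝ) (g : ℕ → boxS d L → ℝ) (n : ℕ) (x : boxS d L) :
    (boxMSet d L).lpp q (fun _ => 0) g n x + g n x ≤ (boxMSet d L).lpp q (fun _ => 0) g (n + 1) x := by
  show _ ≤ max 0 (max ((boxMSet d L).lpp q (fun _ => 0) g n x + g n x) _)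
  exact (le_max_left _ _).trans (le_max_right _ _)

private theorem Grw3_W1 (d L : ℕ) (q : ℝ) (g : ℕ → boxS d L → ℝ) (n : ℕ)
    (x y : boxS d L) (hy : (boxNet d L).dist x y ≤ 1) :
    (boxMSet d L).lpp q (fun _ => 0) g n y ≤ (boxMSet d L).lpp q (fun _ => 0) g (n + 1) x + q := by
  have h1 : (boxMSet d L).lpp q (fun _ => 0) g n y - q * max ((boxMSet d L).dd x y : ℝ) 1 ≤
      (boxMSet d L).Rq1 q ((boxMSet d L).lpp q (fun _ => 0) g n) x := by
    unfold MSet.Rq1
    exact Finset.le_max' (Finset.univ.image fun z : boxS d L =>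
      (boxMSet d L).lpp q (fun _ => 0) g n z - q * max ((boxMSet d L).dd x z : ℝ) 1) _
      (Finset.mem_image_of_mem _ (Finset.mem_univ y))
  have h2 : max ((boxMSet d L).dd x y : ℝ) 1 = 1 := by
    apply max_eq_right
    exact_mod_cast hy
  rw [h2] at h1
  have h3 : (boxMSet d L).Rq1 q ((boxMSet d L).lpp q (fun _ => 0) g n) x + max (g n x) 0 ≤
      (boxMSet d L).lpp q (fun _ => 0) g (n + 1) x := by
    show _ ≤ max 0 (max _ ((boxMSet d L).Rq1 q ((boxMSet d L).lpp q (fun _ => 0) g n) x +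
      max (g n x) 0))
    exact (le_max_right _ _).trans (le_max_right _ _)
  have h4 : 0 ≤ max (g n x) 0 := le_max_right _ _
  linarith

theorem grow_path2 (d L : ℕ) (k h ε q' ρ A : ℝ) (hk : 0 < k) (hk1 : k < 1) (hh : 0 < h)
    (hA : 0 ≤ A) (hq' : 0 ≤ q') (hρ : 0 ≤ ρ) (hε : 0 < ε) (hs : q' + ρ + ε ≤ 1)
    (b D : ℕ → boxS d L → ℝ) (H : boxS d L → ℝ)
    (hH : ∀ x, ∀ y ∈ (boxNet d L).nb x, H y ≤ H x + ρ)
    (h0 : ∀ x, D 0 x ≤ A * Real.exp (ell k * H x)) (n : ℕ)
    (hD : ∀ j, j < n → ∀ x,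
      D (j + 1) x ≤ Real.exp (b j x) * D j x + k * h * cpl (boxNet d L) (D j) x ∨
        D (j + 1) x ≤ A * Real.exp (ell k * H x)) (x : boxS d L) :
    D n x ≤ A * (1 + 4 * d * k ^ ε * h) ^ n *
      Real.exp (ell k * ((boxMSet d L).lpp q' (fun _ => 0) (fun j y => b j y / ell k) n x + H x)) := by
  have hell : 0 < ell k := by
    unfold ell
    apply Real.log_pos
    rw [lt_div_iff₀ hk]
    linarith
  have hkexp : k = Real.exp (-ell k) := by
    unfold ell
    rw [one_div, Real.log_inv, neg_neg, Real.exp_log hk]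
  have hkeps : k ^ ε = Real.exp (-(ell k * ε)) := by
    conv_lhs => rw [hkexp]
    rw [← Real.exp_mul]
    congr 1
    ring
  have hkpos : 0 ≤ k ^ ε := Real.rpow_nonneg hk.le _
  have hfac : 0 ≤ 1 + 4 * (d : ℝ) * k ^ ε * h := by positivity
  induction n generalizing x with
  | zero =>
    have h1 := h0 x
    show D 0 x ≤ A * (1 + 4 * d * k ^ ε * h) ^ 0 * Real.exp (ell k * (0 + H x))
    rw [pow_zero, mul_one, zero_add]
    exact h1
  | succ n ih0 =>
    have ih := ih0 (fun j hj => hD j (Nat.lt_succ_of_lt hj))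
    set W := (boxMSet d L).lpp q' (fun _ => 0) (fun j y => b j y / ell k) with hW
    set P : ℝ := A * (1 + 4 * d * k ^ ε * h) ^ n with hP
    have hP0 : 0 ≤ P := mul_nonneg hA (pow_nonneg hfac _)
    set E : ℝ := Real.exp (ell k * (W (n + 1) x + H x)) with hE
    have hE0 : 0 ≤ E := (Real.exp_pos _).le
    rcases hD n (Nat.lt_succ_self n) x with hup | hup
    swap
    · refine hup.trans ?_
      have hW0 : 0 ≤ W (n + 1) x :=
        lpp_nonneg (boxMSet d L) q' (fun _ => 0) (fun _ => le_refl _) _ (n + 1) x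
      have hone : 1 ≤ (1 + 4 * (d : ℝ) * k ^ ε * h) ^ (n + 1) := by
        apply one_le_pow₀
        have : 0 ≤ 4 * (d : ℝ) * k ^ ε * h := by positivity
        linarith
      have hAA : A ≤ A * (1 + 4 * (d : ℝ) * k ^ ε * h) ^ (n + 1) := by
        nlinarith
      refine mul_le_mul hAA ?_ (Real.exp_pos _).le (mul_nonneg hA (pow_nonneg hfac _))
      apply Real.exp_le_exp.mpr
      apply mul_le_mul_of_nonneg_left _ hell.le
      linarith
    have hself : Real.exp (b n x) * D n x ≤ P * E := by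
      have h1 := Grw3_W0 d L q' (fun j y => b j y / ell k) n x
      have h1' : W n x + b n x / ell k ≤ W (n + 1) x := h1
      calc Real.exp (b n x) * D n x
          ≤ Real.exp (b n x) * (P * Real.exp (ell k * (W n x + H x))) :=
            mul_le_mul_of_nonneg_left (ih x) (Real.exp_pos _).le
        _ = P * Real.exp (ell k * (W n x + b n x / ell k + H x)) := by
            have h2 : ell k * (W n x + b n x / ell k + H x) =
                b n x + ell k * (W n x + H x) := by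
              field_simp
              ring
            rw [h2, Real.exp_add]
            ring
        _ ≤ P * E := by
            apply mul_le_mul_of_nonneg_left _ hP0
            apply Real.exp_le_exp.mpr
            apply mul_le_mul_of_nonneg_left _ hell.le
            linarith
    have hcoup : ∀ y, (boxNet d L).dist x y ≤ 1 → H y ≤ H x + ρ →
        D n y ≤ P * E * Real.exp (ell k * (q' + ρ)) := by
      intro y hy hHy
      have h1 := Grw3_W1 d L q' (fun j y => b j y / ell k) n x y hy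
      have h1' : W n y ≤ W (n + 1) x + q' := h1
      refine (ih y).trans ?_
      rw [mul_assoc P E, hE, ← Real.exp_add]
      apply mul_le_mul_of_nonneg_left _ hP0
      apply Real.exp_le_exp.mpr
      rw [← mul_add]
      apply mul_le_mul_of_nonneg_left _ hell.le
      linarith
    set Q : ℝ := P * E * Real.exp (ell k * (q' + ρ)) with hQ
    have hQ0 : 0 ≤ Q := mul_nonneg (mul_nonneg hP0 hE0) (Real.exp_pos _).le
    have hcpl : cpl (boxNet d L) (D n) x ≤ 4 * d * Q := by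
      unfold cpl
      have h1 : ∑ y ∈ (boxNet d L).nb x, D n y ≤ 2 * d * Q := by
        calc ∑ y ∈ (boxNet d L).nb x, D n y ≤ ∑ y ∈ (boxNet d L).nb x, Q :=
              Finset.sum_le_sum fun y hy =>
                hcoup y (le_of_eq ((boxNet d L).dist_nb x y hy)) (hH x y hy)
          _ = ((boxNet d L).nb x).card * Q := by rw [Finset.sum_const, nsmul_eq_mul]
          _ ≤ 2 * d * Q := by
              apply mul_le_mul_of_nonneg_right _ hQ0
              exact_mod_cast (boxNet d L).nb_card x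
      have h2 : ((2 * d : ℕ) : ℝ) * D n x ≤ 2 * d * Q := by
        have h3 := hcoup x (by rw [(boxNet d L).dist_self]; exact Nat.zero_le _)
          (by linarith)
        push_cast
        exact mul_le_mul_of_nonneg_left h3 (by positivity)
      linarith
    have hkQ : k * Q ≤ P * E * k ^ ε := by
      have h1 : k * Q = P * E * (k * Real.exp (ell k * (q' + ρ))) := by
        rw [hQ]
        ring
      rw [h1, hkeps]
      apply mul_le_mul_of_nonneg_left _ (mul_nonneg hP0 hE0)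
      have h2 : k * Real.exp (ell k * (q' + ρ)) = Real.exp (-ell k + ell k * (q' + ρ)) := by
        rw [Real.exp_add, ← hkexp]
      rw [h2]
      apply Real.exp_le_exp.mpr
      nlinarith
    calc D (n + 1) x ≤ Real.exp (b n x) * D n x + k * h * cpl (boxNet d L) (D n) x := hup
      _ ≤ P * E + k * h * (4 * d * Q) := by
          apply add_le_add hself
          exact mul_le_mul_of_nonneg_left hcpl (by positivity)
      _ = P * E + 4 * d * h * (k * Q) := by ring
      _ ≤ P * E + 4 * d * h * (P * E * k ^ ε) := by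
          have h5 : 4 * (d : ℝ) * h * (k * Q) ≤ 4 * d * h * (P * E * k ^ ε) :=
            mul_le_mul_of_nonneg_left hkQ (by positivity)
          linarith
      _ = A * (1 + 4 * d * k ^ ε * h) ^ (n + 1) * E := by
          rw [hP, pow_succ]
          ring

end DynC

end

/-! ### from `Lib_MP_36b788c.ItG` -/

section

/-!
# Time dependent steps

`trajT f s ω n`: state after `n` steps, step `j` is `f j`.

PROOF.
* `trajT_glue_*`, `dep_trajT`, `measurable_trajT`: as for `traj` (in fact `trajT` is `traj` on the state space `ℕ × St`).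
* `iter_gen`: induction on `n` for all start times: condition on the first entry (`lintegral_cons`); the event for the shifted sequence is the event for the steps `j ↦ f (j+1)` from the state `f 0 s a`.
-/

open MeasureTheory ProbabilityTheory
open scoped ENNReal

namespace DynC

/-- state sequence with time dependent steps -/
def trajT {St X : Type} (f : ℕ → St → X → St) (s : St) (ω : ℕ → X) : ℕ → St
  | 0 => s
  | n + 1 => f n (trajT f s ω n) (ω n)

variable {St X : Type} [MeasurableSpace St] [MeasurableSpace X] {μ : Measure X}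
  [IsProbabilityMeasure μ]

theorem dep_trajT {St X : Type} (f : ℕ → St → X → St) (s : St) (n : ℕ) :
    Dep n (fun ω => trajT f s ω n) := by
  intro a b
  induction n with
  | zero => intro _; rfl
  | succ n ih =>
    intro h
    show f n (trajT f s a n) (a n) = f n (trajT f s b n) (b n)
    have h1 : trajT f s a n = trajT f s b n := ih (fun i hi => h i (by omega))
    rw [h1, h n (by omega)]

theorem measurable_trajT (f : ℕ → St → X → St)
    (hf : ∀ j, Measurable fun p : St × X => f j p.1 p.2) (n : ℕ) :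
    Measurable (fun p : St × (ℕ → X) => trajT f p.1 p.2 n) := by
  induction n with
  | zero => exact measurable_fst
  | succ n ih =>
    show Measurable (fun p : St × (ℕ → X) => f n (trajT f p.1 p.2 n) (p.2 n))
    exact (hf n).comp (ih.prodMk ((measurable_pi_apply n).comp measurable_snd))

/-- restart at time `n` -/
theorem trajT_add {St X : Type} (f : ℕ → St → X → St) (s : St) (ω : ℕ → X) (n m : ℕ) :
    trajT f s ω (n + m) =
      trajT (fun j => f (n + j)) (trajT f s ω n) (fun j => ω (n + j)) m := by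
  induction m with
  | zero => rfl
  | succ m ih =>
    show f (n + m) (trajT f s ω (n + m)) (ω (n + m)) =
      f (n + m) (trajT (fun j => f (n + j)) (trajT f s ω n) (fun j => ω (n + j)) m) (ω (n + m))
    rw [ih]

private theorem ItG_cons {St X : Type} (f : ℕ → St → X → St) (s : St) (a : X) (ω : ℕ → X)
    (m : ℕ) : trajT f s (fun i => Nat.casesOn i a ω) (m + 1) =
      trajT (fun j => f (j + 1)) (f 0 s a) ω m := by
  induction m with
  | zero => rfl
  | succ m ih =>
    show f (m + 1) (trajT f s (fun i => Nat.casesOn i a ω) (m + 1)) (ω m) =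
      f (m + 1) (trajT (fun j => f (j + 1)) (f 0 s a) ω m) (ω m)
    rw [ih]

private theorem ItG_meas_ev (f : ℕ → St → X → St)
    (hf : ∀ j, Measurable fun p : St × X => f j p.1 p.2)
    (Gd : ℕ → Set (St × X)) (hG : ∀ j, MeasurableSet (Gd j)) (n : ℕ) (s : St) :
    MeasurableSet {ω : ℕ → X | ∀ j, j < n → (trajT f s ω j, ω j) ∈ Gd j} := by
  have h1 : {ω : ℕ → X | ∀ j, j < n → (trajT f s ω j, ω j) ∈ Gd j} =
      ⋂ j ∈ Finset.range n, (fun ω : ℕ → X => (trajT f s ω j, ω j)) ⁻¹' (Gd j) := by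
    ext ω
    simp
  rw [h1]
  refine Finset.measurableSet_biInter _ ?_
  intro j _
  refine (Measurable.prodMk ?_ (measurable_pi_apply j)) (hG j)
  exact (measurable_trajT f hf j).comp (measurable_const.prodMk measurable_id)

theorem iter_gen (f : ℕ → St → X → St) (hf : ∀ j, Measurable fun p : St × X => f j p.1 p.2)
    (Gd : ℕ → Set (St × X)) (hG : ∀ j, MeasurableSet (Gd j)) (Φ : St → ℝ≥0∞) (hΦ : Measurable Φ)
    (A : ℕ → ℝ≥0∞) (n : ℕ)
    (hstep : ∀ j, j < n → ∀ s, ∫⁻ a in {a | (s, a) ∈ Gd j}, Φ (f j s a) ∂μ ≤ A j * Φ s) (s : St) :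
    ∫⁻ ω in {ω | ∀ j, j < n → (trajT f s ω j, ω j) ∈ Gd j}, Φ (trajT f s ω n) ∂(PI μ) ≤
      (∏ j ∈ Finset.range n, A j) * Φ s := by
  induction n generalizing f Gd A s with
  | zero =>
    have h0 : {ω : ℕ → X | ∀ j, j < 0 → (trajT f s ω j, ω j) ∈ Gd j} = Set.univ := by
      ext ω
      simp
    rw [h0, Measure.restrict_univ]
    have h1 : ∀ ω : ℕ → X, Φ (trajT f s ω 0) = Φ s := fun ω => rfl
    rw [lintegral_congr h1, lintegral_const, measure_univ, mul_one, Finset.prod_range_zero,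
      one_mul]
  | succ n ih =>
    have hms := ItG_meas_ev f hf Gd hG (n + 1) s
    have hmt : Measurable fun ω : ℕ → X => Φ (trajT f s ω (n + 1)) :=
      hΦ.comp ((measurable_trajT f hf (n + 1)).comp (measurable_const.prodMk measurable_id))
    rw [← lintegral_indicator hms, lintegral_cons _ (hmt.indicator hms)]
    have hms0 : MeasurableSet {a : X | (s, a) ∈ Gd 0} :=
      (measurable_const.prodMk measurable_id) (hG 0)
    have hin : ∀ a : X, ∫⁻ ω, ({ω : ℕ → X | ∀ j, j < n + 1 → (trajT f s ω j, ω j) ∈ Gd j}.indicator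
          (fun ω => Φ (trajT f s ω (n + 1)))) (fun i => Nat.casesOn i a ω) ∂(PI μ)
        ≤ {a : X | (s, a) ∈ Gd 0}.indicator
          (fun a => (∏ j ∈ Finset.range n, A (j + 1)) * Φ (f 0 s a)) a := by
      intro a
      by_cases ha : (s, a) ∈ Gd 0
      · rw [Set.indicator_of_mem (show a ∈ {a : X | (s, a) ∈ Gd 0} from ha)]
        refine le_trans (le_of_eq ?_) (ih (fun j => f (j + 1)) (fun j => hf (j + 1))
          (fun j => Gd (j + 1)) (fun j => hG (j + 1)) (fun j => A (j + 1))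
          (fun j hj s => hstep (j + 1) (by omega) s) (f 0 s a))
        have hms1 := ItG_meas_ev (fun j => f (j + 1)) (fun j => hf (j + 1))
          (fun j => Gd (j + 1)) (fun j => hG (j + 1)) n (f 0 s a)
        rw [← lintegral_indicator hms1]
        apply lintegral_congr
        intro ω
        by_cases hω : ∀ j, j < n →
            (trajT (fun j => f (j + 1)) (f 0 s a) ω j, ω j) ∈ Gd (j + 1)
        · rw [Set.indicator_of_mem, Set.indicator_of_mem, ItG_cons]
          · exact hω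
          · intro j hj
            cases j with
            | zero => exact ha
            | succ j =>
              have h2 := hω j (by omega)
              rw [← ItG_cons] at h2
              exact h2
        · rw [Set.indicator_of_notMem, Set.indicator_of_notMem]
          · exact hω
          · intro hc
            apply hω
            intro j hj
            have h2 := hc (j + 1) (by omega)
            rw [ItG_cons] at h2
            exact h2
      · rw [Set.indicator_of_notMem (show a ∉ {a : X | (s, a) ∈ Gd 0} from ha)]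
        rw [nonpos_iff_eq_zero, ← lintegral_zero (μ := PI μ)]
        apply lintegral_congr
        intro ω
        rw [Set.indicator_of_notMem]
        intro hc
        exact ha (hc 0 (by omega))
    refine (lintegral_mono hin).trans ?_
    rw [lintegral_indicator hms0, lintegral_const_mul]
    · rw [Finset.prod_range_succ', mul_assoc]
      gcongr
      exact hstep 0 (by omega) s
    · exact hΦ.comp ((hf 0).comp (measurable_const.prodMk measurable_id))

end DynC

end
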