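import Pool.Agent.Lib_MP_36b788_m.M01
import Pool.Agent.Lib_MP_36b788_m.M06
import Pool.Agent.Lib_MP_36b788_m.M08

/-!
# MP_36b788_pr, stationary limit: merged library part M09

Concatenation of smaller files (each in its own section), only to save build time.
-/

/-! ### from `Lib_MP_36b788c.Obe1` -/

section

/-!
# From the block inequalities to mixing

`n_B = ⌈TB/h⌉`. (contr): a function of class `A` is mapped by `P^{n_B}` to class `A'` with `ΣA' ≤ ½ΣA`; (grow): for `n ≤ n_B`, `ΣA' ≤ Cg ΣA`; (init): integrals over two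
independent initial configurations.

PROOF of `mix_of_obe`. Given `ρ1, ρ2, R, J, CF, δ`. For a test function `f_i` (`i ∈ I`) and two configurations which differ only at `y`:
`‖f_i G - f_i G'‖ ≤ CF 1{|y| ≤ R} min 1 ‖D‖ ≤ A_R(y) ‖D‖^θ w`, `A_R(y) = CF 1{|y|₁ ≤ R}` (`θ ≤ 1`, `1 ≤ w` is `one_le`), `ΣA_R ≤ CF (2R+1)^d =: B`. Product rule (`Cls_mul`): if `‖f‖,‖g‖ ≤ 1`, `f ∈ Cls A1 ε1`, `g ∈ Cls A2 ε2` then `f g ∈ Cls (A1+A2) (ε1+ε2)`.
`g_j(G) = pathE [f_j,…,f_{M-1}] G`. Let `i_1 < … < i_r` be the elements of `I` below `M` (`r ≤ J`). `g_{i_r} = f_{i_r}·1`; `g_{i_l} = f_{i_l} · P^{n} g_{i_{l+1}}` with `n = i_{l+1} - i_l` (for indices not in `I`, `f = 1`: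
`pathE` over them is `P^n`, `pathE_Pn`). Write `n = m n_B + n'`, `n' < n_B`: `m` times (contr), once (grow): the sum of the weights is multiplied by at most
`Cg 2^{-m} ≤ Cg`. So `ΣA_{i_1} ≤ B (1 + Cg + … + Cg^{J-1}) =: B'`, and `ΣA_0 ≤ Cg 2^{-m_1} B'` with `m_1 = ⌊i_1/n_B⌋ ≥ T0/(TB+h) - 1` (`i_1 h ≥ T0`). (If `I` has no element below `M`, `g_0` is constant `1`, nothing to prove.)
Choose `T0` so that `Ci Cg 2^{-m_1} B' ≤ δ/4`. The number of applications of (contr), (grow) is at most `Q = J (Sm/TB + 2)`; each changes `ε` into `CL ε + ε0`, so the final additive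
constant is `≤ CL^Q Q ε0`; then (init) gives total `≤ Ci ΣA_0 + CL·CL^Q Q ε0 + ε0 + η ≤ δ` for `η = δ/4` (`L0 = max R Ls L1(η)`) and `ε0` small; `h0` = minimum of the two `h0(ε0)`.
-/

open MeasureTheory ProbabilityTheory
open scoped ENNReal

namespace DynC

open Dyn

variable {d : ℕ}

/-- two independent initial configurations, arbitrary times -/
def ObeInit (F : Fam d) (k q s α θ : ℝ) : Prop :=
  ∀ (ρ1 ρ2 : Measure F.V) [IsProbabilityMeasure ρ1] [IsProbabilityMeasure ρ2],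
      ρ1 {0} = 0 → ρ2 {0} = 0 → Integrable (fun x : F.V => ‖x‖ ^ 2) ρ1 →
      Integrable (fun x : F.V => ‖x‖ ^ 2) ρ2 → ∃ Ci : ℝ, 0 ≤ Ci ∧
    ∀ η : ℝ, 0 < η → ∃ L1 : ℕ, ∀ L, L1 ≤ L →
    ∀ Sm : ℝ, 0 ≤ Sm → ∃ CL : ℝ, 1 ≤ CL ∧ ∀ ε0 : ℝ, 0 < ε0 → ∃ h0 : ℝ, 0 < h0 ∧
    ∀ h, 0 < h → h < h0 → ∀ n1 n2 : ℕ, n1 * h ≤ Sm → n2 * h ≤ Sm →
    ∀ (A : boxS d L → ℝ) (ε : ℝ) (f : (boxS d L → F.V) → ℂ),
      (∀ x, 0 ≤ A x) → 0 ≤ ε → Measurable f → (∀ G, ‖f G‖ ≤ 1) →
      Cls (boxNet d L) k q s α θ A ε f →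
      ∫ G, ∫ G', ‖f G - f G'‖ ∂(F.law h L (Measure.pi (fun _ => ρ2)) n2)
        ∂(F.law h L (Measure.pi (fun _ => ρ1)) n1) ≤ Ci * ∑ x, A x + CL * ε + ε0 + η

/-- block inequalities -/
structure Obe (F : Fam d) (k q s α θ TB Cg : ℝ) (Ls : ℕ) : Prop where
  hk : 0 < k
  hk1 : k < 1
  hθ : 0 < θ
  hθ1 : θ ≤ 1
  hTB : 0 < TB
  hCg : 1 ≤ Cg
  one_le : ∀ (L : ℕ) (G G' : boxS d L → F.V) (x : boxS d L),
    1 ≤ wpr (boxNet d L) k q s α G G' x
  contr : ∀ L, Ls ≤ L → ∃ CL : ℝ, 1 ≤ CL ∧ ∀ ε0 : ℝ, 0 < ε0 → ∃ h0 : ℝ, 0 < h0 ∧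
    ∀ h, 0 < h → h < h0 → ∀ (A : boxS d L → ℝ) (ε : ℝ) (f : (boxS d L → F.V) → ℂ),
      (∀ x, 0 ≤ A x) → 0 ≤ ε → Measurable f → (∀ G, ‖f G‖ ≤ 1) →
      Cls (boxNet d L) k q s α θ A ε f →
      ∃ A' : boxS d L → ℝ, (∀ x, 0 ≤ A' x) ∧ ∑ x, A' x ≤ 1 / 2 * ∑ x, A x ∧
        Cls (boxNet d L) k q s α θ A' (CL * ε + ε0) (F.Pn h L ⌈TB / h⌉₊ f)
  grow : ∀ L, Ls ≤ L → ∃ CL : ℝ, 1 ≤ CL ∧ ∀ ε0 : ℝ, 0 < ε0 → ∃ h0 : ℝ, 0 < h0 ∧
    ∀ h, 0 < h → h < h0 → ∀ (A : boxS d L → ℝ) (ε : ℝ) (f : (boxS d L → F.V) → ℂ),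
      (∀ x, 0 ≤ A x) → 0 ≤ ε → Measurable f → (∀ G, ‖f G‖ ≤ 1) →
      Cls (boxNet d L) k q s α θ A ε f → ∀ n, n ≤ ⌈TB / h⌉₊ →
      ∃ A' : boxS d L → ℝ, (∀ x, 0 ≤ A' x) ∧ ∑ x, A' x ≤ Cg * ∑ x, A x ∧
        Cls (boxNet d L) k q s α θ A' (CL * ε + ε0) (F.Pn h L n f)
  init : ObeInit F k q s α θ

theorem Cls_mul {V : Type} [NormedAddCommGroup V] {L : ℕ} (k q s α θ : ℝ)
    (A1 A2 : boxS d L → ℝ) (h1 : ∀ x, 0 ≤ A1 x) (h2 : ∀ x, 0 ≤ A2 x) (ε1 ε2 : ℝ)
    (he1 : 0 ≤ ε1) (he2 : 0 ≤ ε2) (f g : (boxS d L → V) → ℂ)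
    (hf : ∀ G, ‖f G‖ ≤ 1) (hg : ∀ G, ‖g G‖ ≤ 1)
    (hf1 : Cls (boxNet d L) k q s α θ A1 ε1 f) (hg1 : Cls (boxNet d L) k q s α θ A2 ε2 g) :
    Cls (boxNet d L) k q s α θ (A1 + A2) (ε1 + ε2) (fun G => f G * g G) := by
  intro G G' y hy
  have hN : ‖f G * g G - f G' * g G'‖ ≤ ‖f G - f G'‖ + ‖g G - g G'‖ := by
    have e1 : f G * g G - f G' * g G' = (f G - f G') * g G + f G' * (g G - g G') := by ring
    rw [e1]
    refine (norm_add_le _ _).trans ?_
    rw [norm_mul, norm_mul]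
    have a1 : ‖f G - f G'‖ * ‖g G‖ ≤ ‖f G - f G'‖ * 1 :=
      mul_le_mul_of_nonneg_left (hg G) (norm_nonneg _)
    have a2 : ‖f G'‖ * ‖g G - g G'‖ ≤ 1 * ‖g G - g G'‖ :=
      mul_le_mul_of_nonneg_right (hf G') (norm_nonneg _)
    linarith
  have hp : 0 ≤ ‖G y - G' y‖ ^ θ := Real.rpow_nonneg (norm_nonneg _) _
  have hS : 0 ≤ 1 + ∑ x, (‖G x‖ + ‖G' x‖) :=
    add_nonneg zero_le_one (Finset.sum_nonneg fun x _ => add_nonneg (norm_nonneg _) (norm_nonneg _))
  have e2 : ENNReal.ofReal ((A1 + A2) y * ‖G y - G' y‖ ^ θ) =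
      ENNReal.ofReal (A1 y * ‖G y - G' y‖ ^ θ) + ENNReal.ofReal (A2 y * ‖G y - G' y‖ ^ θ) := by
    rw [Pi.add_apply, add_mul, ENNReal.ofReal_add (mul_nonneg (h1 y) hp) (mul_nonneg (h2 y) hp)]
  have e3 : ENNReal.ofReal ((ε1 + ε2) * (1 + ∑ x, (‖G x‖ + ‖G' x‖))) =
      ENNReal.ofReal (ε1 * (1 + ∑ x, (‖G x‖ + ‖G' x‖))) +
        ENNReal.ofReal (ε2 * (1 + ∑ x, (‖G x‖ + ‖G' x‖))) := by
    rw [add_mul, ENNReal.ofReal_add (mul_nonneg he1 hS) (mul_nonneg he2 hS)]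
  rw [e2, e3]
  show ENNReal.ofReal ‖f G * g G - f G' * g G'‖ ≤ _
  refine (ENNReal.ofReal_le_ofReal hN).trans ?_
  rw [ENNReal.ofReal_add (norm_nonneg _) (norm_nonneg _)]
  refine (add_le_add (hf1 G G' y hy) (hg1 G G' y hy)).trans (le_of_eq ?_)
  rw [add_mul]
  abel

private theorem Obe1_step_meas (F : Fam d) (h : ℝ) (L : ℕ) (g : (boxS d L → F.V) → ℂ)
    (hg : Measurable g) :
    Measurable fun G : boxS d L → F.V => ∫ ξ, g (F.st h L G ξ) ∂(F.mu L) := by
  have h0 : StronglyMeasurable (fun p : (boxS d L → F.V) × (boxS d L → F.Ω0) =>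
      g (F.st h L p.1 p.2)) := (hg.comp (F.mst h L)).stronglyMeasurable
  exact h0.integral_prod_right'.measurable

/-- path expectations facts -/
theorem Fam_pathE_facts (F : Fam d) (h : ℝ) (L : ℕ) (fs : List ((boxS d L → F.V) → ℂ))
    (hm : ∀ f ∈ fs, Measurable f) (hb : ∀ f ∈ fs, ∀ G, ‖f G‖ ≤ 1) :
    Measurable (F.pathE h L fs) ∧ ∀ G, ‖F.pathE h L fs G‖ ≤ 1 := by
  induction fs with
  | nil =>
    refine ⟨?_, fun G => ?_⟩
    · show Measurable fun _ : boxS d L → F.V => (1 : ℂ)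
      exact measurable_const
    · show ‖(1 : ℂ)‖ ≤ 1
      rw [norm_one]
  | cons f fs ih =>
    obtain ⟨i1, i2⟩ := ih (fun g hg => hm g (List.mem_cons_of_mem _ hg))
      (fun g hg => hb g (List.mem_cons_of_mem _ hg))
    refine ⟨?_, fun G => ?_⟩
    · show Measurable fun G : boxS d L → F.V =>
        f G * ∫ ξ, F.pathE h L fs (F.st h L G ξ) ∂(F.mu L)
      exact (hm f List.mem_cons_self).mul (Obe1_step_meas F h L _ i1)
    · show ‖f G * ∫ ξ, F.pathE h L fs (F.st h L G ξ) ∂(F.mu L)‖ ≤ 1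
      rw [norm_mul]
      have a1 : ‖∫ ξ, F.pathE h L fs (F.st h L G ξ) ∂(F.mu L)‖ ≤ 1 := by
        have a2 := norm_integral_le_of_norm_le_const (μ := F.mu L) (C := 1)
          (f := fun ξ => F.pathE h L fs (F.st h L G ξ))
          (Filter.Eventually.of_forall fun ξ => i2 _)
        rw [probReal_univ, mul_one] at a2
        exact a2
      exact mul_le_one₀ (hb f List.mem_cons_self G) (norm_nonneg _) a1

theorem Fam_Pn_facts (F : Fam d) (h : ℝ) (L n : ℕ) (f : (boxS d L → F.V) → ℂ)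
    (hm : Measurable f) (hb : ∀ G, ‖f G‖ ≤ 1) :
    Measurable (F.Pn h L n f) ∧ ∀ G, ‖F.Pn h L n f G‖ ≤ 1 := by
  refine ⟨?_, fun G => ?_⟩
  · show Measurable fun G : boxS d L → F.V =>
      ∫ ω, f (traj (F.st h L) G ω n) ∂(PI (F.mu L))
    have h0 : StronglyMeasurable (fun p : (boxS d L → F.V) × (ℕ → boxS d L → F.Ω0) =>
        f (traj (F.st h L) p.1 p.2 n)) :=
      (hm.comp (measurable_traj (F.st h L) (F.mst h L) n)).stronglyMeasurable
    exact h0.integral_prod_right'.measurable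
  · show ‖∫ ω, f (traj (F.st h L) G ω n) ∂(PI (F.mu L))‖ ≤ 1
    have a2 := norm_integral_le_of_norm_le_const (μ := PI (F.mu L)) (C := 1)
      (f := fun ω => f (traj (F.st h L) G ω n)) (Filter.Eventually.of_forall fun ω => hb _)
    rw [probReal_univ, mul_one] at a2
    exact a2

theorem Fam_Pn_add (F : Fam d) (h : ℝ) (L n m : ℕ) (f : (boxS d L → F.V) → ℂ)
    (hm : Measurable f) (hb : ∀ G, ‖f G‖ ≤ 1) :
    F.Pn h L (n + m) f = F.Pn h L n (F.Pn h L m f) := by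
  funext G
  show ∫ ω, f (traj (F.st h L) G ω (n + m)) ∂(PI (F.mu L)) =
    ∫ a, ∫ b, f (traj (F.st h L) (traj (F.st h L) G a n) b m) ∂(PI (F.mu L)) ∂(PI (F.mu L))
  have hM : Measurable fun ω : ℕ → boxS d L → F.Ω0 => f (traj (F.st h L) G ω (n + m)) :=
    hm.comp ((measurable_traj (F.st h L) (F.mst h L) (n + m)).comp
      (measurable_const.prodMk measurable_id))
  rw [integral_glue (μ := F.mu L) n _ hM 1 fun ω => hb _]
  simp only [traj_glue_add]

private theorem Obe1_Pn_zero (F : Fam d) (h : ℝ) (L : ℕ) (f : (boxS d L → F.V) → ℂ) :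
    F.Pn h L 0 f = f := by
  funext G
  show ∫ _, f G ∂(PI (F.mu L)) = f G
  rw [integral_const, probReal_univ, one_smul]

private theorem Obe1_Pn_one (F : Fam d) (h : ℝ) (L : ℕ) (f : (boxS d L → F.V) → ℂ)
    (hm : Measurable f) (G : boxS d L → F.V) :
    F.Pn h L 1 f G = ∫ ξ, f (F.st h L G ξ) ∂(F.mu L) := by
  show ∫ ω, f (F.st h L G (ω 0)) ∂(PI (F.mu L)) = _
  have hM : Measurable fun ξ : boxS d L → F.Ω0 => f (F.st h L G ξ) :=
    hm.comp ((F.mst h L).comp (measurable_const.prodMk measurable_id))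
  have h1 := integral_map (μ := PI (F.mu L)) (φ := fun ω : ℕ → boxS d L → F.Ω0 => ω 0)
    (measurable_pi_apply 0).aemeasurable
    (f := fun ξ => f (F.st h L G ξ)) hM.aestronglyMeasurable
  rw [map_coord] at h1
  exact h1.symm

/-- `n` trivial test functions followed by the list `fs` -/
theorem pathE_Pn (F : Fam d) (h : ℝ) (L n : ℕ) (fs : List ((boxS d L → F.V) → ℂ))
    (hm : ∀ f ∈ fs, Measurable f) (hb : ∀ f ∈ fs, ∀ G, ‖f G‖ ≤ 1) :
    F.pathE h L (List.replicate n (fun _ => 1) ++ fs) = F.Pn h L n (F.pathE h L fs) := by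
  obtain ⟨m1, m2⟩ := Fam_pathE_facts F h L fs hm hb
  induction n with
  | zero =>
    rw [Obe1_Pn_zero]
    rfl
  | succ n ih =>
    obtain ⟨p1, p2⟩ := Fam_Pn_facts F h L n _ m1 m2
    rw [Nat.add_comm n 1, Fam_Pn_add F h L 1 n _ m1 m2, Nat.add_comm 1 n, List.replicate_succ]
    funext G
    rw [Obe1_Pn_one F h L _ p1]
    show (1 : ℂ) * ∫ ξ, F.pathE h L (List.replicate n (fun _ => 1) ++ fs) (F.st h L G ξ)
      ∂(F.mu L) = _
    rw [ih, one_mul]

end DynC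

end

/-! ### from `Lib_MP_36b788c.Obe2` -/

section

/-!
# From pair estimates to the block inequalities

`Blk`: all estimates for one fixed `k` (constants as parameters). `n_B = ⌈TB/h⌉`.

PROOF.
* `tele`: `f ∈ Cls A ε`, arbitrary `G, G'`: `‖f G - f G'‖ ≤ Σ_x 4 A(x) ‖D(x)‖^θ wpr G G' x + 2|box| ε (1 + 2Σ(‖G‖+‖G'‖))`. Path from `G` to `G'` through the sitewise larger
  configuration `M` (`M x = G x` if `‖G' x‖ ≤ ‖G x‖`, else `G' x`): first change, one after the other, the sites with `‖G x‖ < ‖G' x‖` from `G x` to `G' x`, then the others. Every site is changed once.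
  On the first leg the intermediate configurations `H` satisfy `‖H z‖ ≥ ‖G z‖`, `‖H z‖ ≤ max(‖G z‖,‖G' z‖)`, so for two consecutive ones `t = ‖H‖+‖H'‖ ≤ 2(‖G‖+‖G'‖)`, `SSt(t) ≤ 2 SSt(‖G‖+‖G'‖)`, `fpot` is
  monotone, hence `Tz(H,t) ≥ 2^{-q} Tz(G)`, `Vp(H,t)(z) ≤ 2^{qs} Vp_G(z)` and `wpr(H,H') ≤ 2^{1+qs} wpr(G,G') ≤ 4 wpr(G,G')` (`qs ≤ 1`). Second leg: the same with `G'`. Sums of norms of intermediate configurations are `≤ Σ(‖G‖+‖G'‖)`.
* `blk_pair`: pair `(G,G')` differing only at `y`, `n ≤ n_B`: `‖P^n f G - P^n f G'‖ ≤ E‖f G_n - f G'_n‖` (marginals `marg1, marg2`: the law of the first component of `tr n` is the law of the chain, by induction) `≤ E[tele; alv] + 2P(alv^c)`;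
  `E[D^θ w; alv] ≤ (E[D^{2θ}; alv])^{1/2} (E[w²; alv])^{1/2}`, Minkowski for `w = Σ α^{|x-z|}(V1+V2)(z)`.
  With `gV`: `(E w_n(x)²)^{1/2} ≤ √BV w_0(x)`. With `ly` at `n = n_B`: `≤ κ' w_0(x) + 2 CV Σ_z α^{|x-z|}`. `w_0(x) ≤ α^{-|x-y|} w_0(y)`.
* `contr`: if `wpr G G' y < K`: `good`. Otherwise `κ' w_0(x) + 2 CV Cα ≤ (κ' α^{-|x-y|} + 2 CV Cα/K) w_0(y)`. So `P^{n_B} f ∈ Cls A' …` with `A'(y) = Σ_x A(x) max(c_good(x,y), c_bad(x,y))`, bounded by the sum of both,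
  `c_bad(x,y) = 4 √BD e^{-(3/4)a|x-y|} (κ' α^{-|x-y|} + 2 CV Cα/K)`, `Σ_y (c_good + c_bad)(x,y) ≤ 1/2` by `num`.
* `grow`: `c(x,y) = 4 √BD e^{-(3/4)a|x-y|} √BV α^{-|x-y|}`.
* additive terms: `2P(alv^c) ≤ 2ε0 (1+Σ)` (exit), `E(1+Σ(‖G_n‖+‖G'_n‖)) ≤ C(1+Σ)` (sum).
-/

open MeasureTheory ProbabilityTheory
open scoped ENNReal

namespace DynC

open Dyn

variable {d : ℕ}

/-- estimates of one block for fixed `k` -/
structure Blk {F : Fam d} {β k : ℝ} (S : PSys F β k) (q s a θ TB BD BV κ' CV K cd : ℝ) (Ls : ℕ) :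
    Prop where
  hk : 0 < k
  hk1 : k < 1
  hβ : 0 < β
  hq : 1 ≤ q
  hs : 0 < s
  hqs : 4 * q * s ≤ 1
  ha : 0 < a
  hθ : 0 < θ
  hθ1 : θ ≤ 1 / 2
  hTB : 0 < TB
  hBD : 1 ≤ BD
  hBV : 1 ≤ BV
  hκ : 0 ≤ κ'
  hCV : 0 ≤ CV
  hK : 0 < K
  vone : ∀ (L : ℕ) (G : (boxS d L → F.V) × (boxS d L → F.V)) (x : boxS d L),
    1 ≤ V1 k q s G x ∧ 1 ≤ V2 k q s G x
  exit : ∀ (L : ℕ) (Sm ε0 : ℝ), 0 ≤ Sm → 0 < ε0 → ∃ h0 : ℝ, 0 < h0 ∧ ∀ h, 0 < h → h < h0 →
    ∀ (G : (boxS d L → F.V) × (boxS d L → F.V)) (n : ℕ), n * h ≤ Sm →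
      PI (S.mu L) (S.alv h L G n)ᶜ ≤ ENNReal.ofReal (ε0 * (1 + ∑ x, (‖G.1 x‖ + ‖G.2 x‖)))
  sum : ∀ (L : ℕ) (Sm : ℝ), 0 ≤ Sm → ∃ C h0 : ℝ, 1 ≤ C ∧ 0 < h0 ∧ ∀ h, 0 < h → h < h0 →
    ∀ (G : (boxS d L → F.V) × (boxS d L → F.V)) (n : ℕ), n * h ≤ Sm →
      ∫⁻ ω, ENNReal.ofReal (∑ x, (‖(S.tr h L G ω n).1 x‖ + ‖(S.tr h L G ω n).2 x‖)) ∂(PI (S.mu L))
        ≤ ENNReal.ofReal (C * ∑ x, (‖G.1 x‖ + ‖G.2 x‖))
  gD : ∀ L, Ls ≤ L → ∃ h0 : ℝ, 0 < h0 ∧ ∀ h, 0 < h → h < h0 →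
    ∀ (G : (boxS d L → F.V) × (boxS d L → F.V)) (y : boxS d L),
      (∀ x, x ≠ y → G.1 x = G.2 x) → ∀ n, n ≤ ⌈TB / h⌉₊ → ∀ x,
      ∫⁻ ω in S.alv h L G n, ENNReal.ofReal
          (‖(S.tr h L G ω n).1 x - (S.tr h L G ω n).2 x‖ ^ (2 * θ)) ∂(PI (S.mu L))
        ≤ ENNReal.ofReal (BD * Real.exp (-(3 / 2 * a * (boxNet d L).dist x y)) *
            ‖G.1 y - G.2 y‖ ^ (2 * θ))
  gV : ∀ L, Ls ≤ L → ∃ h0 : ℝ, 0 < h0 ∧ ∀ h, 0 < h → h < h0 →
    ∀ (G : (boxS d L → F.V) × (boxS d L → F.V)) (n : ℕ), n ≤ ⌈TB / h⌉₊ → ∀ x,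
      ∫⁻ ω in S.alv h L G n, V1 k q s (S.tr h L G ω n) x ^ 2 ∂(PI (S.mu L))
          ≤ ENNReal.ofReal BV * V1 k q s G x ^ 2 ∧
      ∫⁻ ω in S.alv h L G n, V2 k q s (S.tr h L G ω n) x ^ 2 ∂(PI (S.mu L))
          ≤ ENNReal.ofReal BV * V2 k q s G x ^ 2
  ly : ∀ L, Ls ≤ L → ∃ h0 : ℝ, 0 < h0 ∧ ∀ h, 0 < h → h < h0 →
    ∀ (G : (boxS d L → F.V) × (boxS d L → F.V)) (x : boxS d L),
      ∫⁻ ω in S.alv h L G ⌈TB / h⌉₊, V1 k q s (S.tr h L G ω ⌈TB / h⌉₊) x ^ 2 ∂(PI (S.mu L))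
          ≤ (ENNReal.ofReal κ' * V1 k q s G x + ENNReal.ofReal CV) ^ 2 ∧
      ∫⁻ ω in S.alv h L G ⌈TB / h⌉₊, V2 k q s (S.tr h L G ω ⌈TB / h⌉₊) x ^ 2 ∂(PI (S.mu L))
          ≤ (ENNReal.ofReal κ' * V2 k q s G x + ENNReal.ofReal CV) ^ 2
  good : ∀ L, Ls ≤ L → ∃ (CL : ℝ) (c : boxS d L → boxS d L → ℝ), 1 ≤ CL ∧ (∀ x y, 0 ≤ c x y) ∧
    (∀ x, ∑ y, c x y ≤ 1 / 4) ∧ ∀ ε0 : ℝ, 0 < ε0 → ∃ h0 : ℝ, 0 < h0 ∧
    ∀ h, 0 < h → h < h0 → ∀ (A : boxS d L → ℝ) (ε : ℝ) (f : (boxS d L → F.V) → ℂ),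
      (∀ x, 0 ≤ A x) → 0 ≤ ε → Measurable f → (∀ G, ‖f G‖ ≤ 1) →
      Cls (boxNet d L) k q s (Real.exp (-(a / 8))) θ A ε f →
      ∀ (G G' : boxS d L → F.V) (y : boxS d L), (∀ x, x ≠ y → G x = G' x) →
      wpr (boxNet d L) k q s (Real.exp (-(a / 8))) G G' y < ENNReal.ofReal K →
      ‖F.Pn h L ⌈TB / h⌉₊ f G - F.Pn h L ⌈TB / h⌉₊ f G'‖ ≤
        (∑ x, A x * c x y) * ‖G y - G' y‖ ^ θ +
          (CL * ε + ε0) * (1 + ∑ x, (‖G x‖ + ‖G' x‖))
  hcd : ∀ (L : ℕ) (x : boxS d L),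
    ∑ z, Real.exp (-(a / 8)) ^ (boxNet d L).dist x z ≤ cd ∧
    ∑ y, Real.exp (-(5 / 8 * a)) ^ (boxNet d L).dist x y ≤ cd
  num : 4 * Real.sqrt BD * (κ' + 2 * CV * cd / K) * cd ≤ 1 / 4

private theorem Obe2_gX_mono : Monotone gX := by
  intro a b hab
  unfold gX
  split_ifs <;> nlinarith

private theorem Obe2_fpot_nonneg (k v : ℝ) : 0 ≤ fpot k v := by
  unfold fpot
  split_ifs
  · exact le_rfl
  · exact (Real.exp_pos _).le

private theorem Obe2_fpot_mono {k : ℝ} (hk : 0 < k) (hk1 : k < 1) {u v : ℝ} (h : u ≤ v) :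
    fpot k u ≤ fpot k v := by
  have hl : 0 < ell k := by
    unfold ell
    exact Real.log_pos (one_lt_one_div hk hk1)
  unfold fpot
  split_ifs with h1 h2
  · exact le_rfl
  · exact (Real.exp_pos _).le
  · exfalso; linarith
  · refine Real.exp_le_exp.2 (mul_le_mul_of_nonneg_left (Obe2_gX_mono ?_) hl.le)
    exact div_le_div_of_nonneg_right (Real.log_le_log (by linarith) h) hl.le

/-- comparison of potentials -/
private theorem Obe2_Vp {ι : Type} [Fintype ι] (net : Net ι d) {k q s : ℝ} (hk : 0 < k)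
    (hk1 : k < 1) (hq : 1 ≤ q) (hs : 0 < s) (hqs : q * s ≤ 1) {u v t t' : ι → ℝ}
    (huv : ∀ x, u x ≤ v x) (ht' : ∀ x, 0 ≤ t' x) (htt : ∀ x, t' x ≤ 2 * t x) (x : ι) :
    Vp net k q s v t' x ≤ 2 * Vp net k q s u t x := by
  classical
  have hS : ∀ z, 1 ≤ SSt net k t' z ∧ SSt net k t' z ≤ 2 * SSt net k t z := by
    intro z
    unfold SSt
    have h1 : 0 ≤ k ^ (1 / 16 : ℝ) := Real.rpow_nonneg hk.le _
    have h2 : 0 ≤ ∑ w, (1 / 2 : ℝ) ^ net.dist z w * t' w :=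
      Finset.sum_nonneg fun w _ => mul_nonneg (by positivity) (ht' w)
    have h3 : ∑ w, (1 / 2 : ℝ) ^ net.dist z w * t' w ≤
        2 * ∑ w, (1 / 2 : ℝ) ^ net.dist z w * t w := by
      rw [Finset.mul_sum]
      refine Finset.sum_le_sum fun w _ => ?_
      have := mul_le_mul_of_nonneg_left (htt w) (by positivity : (0:ℝ) ≤ (1 / 2) ^ net.dist z w)
      linarith
    have h4 := mul_nonneg h1 h2
    have h5 := mul_le_mul_of_nonneg_left h3 h1
    constructor
    · linarith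
    · linarith
  have hT : ∀ z, ENNReal.ofReal (2 ^ (-q)) * ENNReal.ofReal (Tz net k q u t x z) ≤
      ENNReal.ofReal (Tz net k q v t' x z) := by
    intro z
    rw [← ENNReal.ofReal_mul (Real.rpow_nonneg (by norm_num) _)]
    refine ENNReal.ofReal_le_ofReal ?_
    unfold Tz
    obtain ⟨h1, h2⟩ := hS z
    have hSt : 0 < SSt net k t z := by linarith
    have h3 : (2 : ℝ) ^ (-q) * SSt net k t z ^ (-q) ≤ SSt net k t' z ^ (-q) := by
      rw [← Real.mul_rpow (by norm_num) hSt.le]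
      exact Real.rpow_le_rpow_of_nonpos (by linarith) h2 (by linarith)
    have h4 : 0 ≤ (k ^ (1 / 4 : ℝ)) ^ net.dist x z := pow_nonneg (Real.rpow_nonneg hk.le _) _
    have h5 : 0 ≤ (2 : ℝ) ^ (-q) * SSt net k t z ^ (-q) :=
      mul_nonneg (Real.rpow_nonneg (by norm_num) _) (Real.rpow_nonneg hSt.le _)
    calc (2 : ℝ) ^ (-q) * ((k ^ (1 / 4 : ℝ)) ^ net.dist x z * fpot k (u z) *
          SSt net k t z ^ (-q))
        = (k ^ (1 / 4 : ℝ)) ^ net.dist x z * fpot k (u z) *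
          (2 ^ (-q) * SSt net k t z ^ (-q)) := by ring
      _ ≤ (k ^ (1 / 4 : ℝ)) ^ net.dist x z * fpot k (v z) * SSt net k t' z ^ (-q) := by
          refine mul_le_mul (mul_le_mul_of_nonneg_left (Obe2_fpot_mono hk hk1 (huv z)) h4) h3 h5
            (mul_nonneg h4 (Obe2_fpot_nonneg k _))
  unfold Vp
  have hsup : ENNReal.ofReal (2 ^ (-q)) *
      (Finset.univ.sup fun z => ENNReal.ofReal (Tz net k q u t x z)) ≤
      Finset.univ.sup fun z => ENNReal.ofReal (Tz net k q v t' x z) := by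
    obtain ⟨z, _, hz⟩ := Finset.exists_mem_eq_sup Finset.univ ⟨x, Finset.mem_univ x⟩
      (fun z => ENNReal.ofReal (Tz net k q u t x z))
    rw [hz]
    exact (hT z).trans (Finset.le_sup (f := fun z => ENNReal.ofReal (Tz net k q v t' x z))
      (Finset.mem_univ z))
  have htop : (Finset.univ.sup fun z => ENNReal.ofReal (Tz net k q u t x z)) ≠ ⊤ := by
    obtain ⟨z, _, hz⟩ := Finset.exists_mem_eq_sup Finset.univ ⟨x, Finset.mem_univ x⟩
      (fun z => ENNReal.ofReal (Tz net k q u t x z))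
    rw [hz]
    exact ENNReal.ofReal_ne_top
  have h1 : (Finset.univ.sup fun z => ENNReal.ofReal (Tz net k q v t' x z)) ^ (-s) ≤
      (ENNReal.ofReal (2 ^ (-q)) *
        (Finset.univ.sup fun z => ENNReal.ofReal (Tz net k q u t x z))) ^ (-s) := by
    rw [ENNReal.rpow_neg, ENNReal.rpow_neg, ENNReal.inv_le_inv]
    exact ENNReal.rpow_le_rpow hsup hs.le
  refine h1.trans ?_
  rw [ENNReal.mul_rpow_of_ne_top ENNReal.ofReal_ne_top htop]
  refine mul_le_mul_left ?_ _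
  rw [ENNReal.ofReal_rpow_of_pos (Real.rpow_pos_of_pos (by norm_num) _), ← Real.rpow_mul (by norm_num)]
  have h2 : (2 : ℝ) ^ (-q * -s) ≤ 2 := by
    calc (2 : ℝ) ^ (-q * -s) ≤ 2 ^ (1 : ℝ) :=
          Real.rpow_le_rpow_of_exponent_le (by norm_num) (by linarith)
      _ = 2 := Real.rpow_one _
  calc ENNReal.ofReal ((2 : ℝ) ^ (-q * -s)) ≤ ENNReal.ofReal 2 := ENNReal.ofReal_le_ofReal h2
    _ = 2 := by norm_num

/-- comparison of weights -/
private theorem Obe2_wpr {V : Type} [NormedAddCommGroup V] {L : ℕ} {k q s α : ℝ} (hk : 0 < k)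
    (hk1 : k < 1) (hq : 1 ≤ q) (hs : 0 < s) (hqs : q * s ≤ 1) {G G' U H H' : boxS d L → V}
    (hU : U = G ∨ U = G') (hH : ∀ z, ‖U z‖ ≤ ‖H z‖) (hH' : ∀ z, ‖U z‖ ≤ ‖H' z‖)
    (ht : ∀ z, ‖H z‖ ≤ ‖G z‖ + ‖G' z‖) (ht' : ∀ z, ‖H' z‖ ≤ ‖G z‖ + ‖G' z‖) (x : boxS d L) :
    wpr (boxNet d L) k q s α H H' x ≤ 4 * wpr (boxNet d L) k q s α G G' x := by
  unfold wpr
  rw [Finset.mul_sum]
  refine Finset.sum_le_sum fun z _ => ?_
  have hn : ∀ y, (0 : ℝ) ≤ ‖H y‖ + ‖H' y‖ := fun y => by positivity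
  have hb : ∀ y, ‖H y‖ + ‖H' y‖ ≤ 2 * (‖G y‖ + ‖G' y‖) := fun y => by
    have h1 := ht y
    have h2 := ht' y
    linarith
  have h1 := Obe2_Vp (boxNet d L) hk hk1 hq hs hqs (u := fun y => ‖U y‖) (v := fun y => ‖H y‖)
    (t := fun y => ‖G y‖ + ‖G' y‖) (t' := fun y => ‖H y‖ + ‖H' y‖) hH hn hb z
  have h2 := Obe2_Vp (boxNet d L) hk hk1 hq hs hqs (u := fun y => ‖U y‖) (v := fun y => ‖H' y‖)
    (t := fun y => ‖G y‖ + ‖G' y‖) (t' := fun y => ‖H y‖ + ‖H' y‖) hH' hn hb z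
  have h3 : Vp (boxNet d L) k q s (fun y => ‖U y‖) (fun y => ‖G y‖ + ‖G' y‖) z ≤
      Vp (boxNet d L) k q s (fun y => ‖G y‖) (fun y => ‖G y‖ + ‖G' y‖) z +
        Vp (boxNet d L) k q s (fun y => ‖G' y‖) (fun y => ‖G y‖ + ‖G' y‖) z := by
    rcases hU with rfl | rfl
    · exact le_self_add
    · exact le_add_self
  calc _ ≤ ENNReal.ofReal (α ^ (boxNet d L).dist x z) *
        (2 * Vp (boxNet d L) k q s (fun y => ‖U y‖) (fun y => ‖G y‖ + ‖G' y‖) z +
          2 * Vp (boxNet d L) k q s (fun y => ‖U y‖) (fun y => ‖G y‖ + ‖G' y‖) z) :=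
        mul_le_mul_right (add_le_add h1 h2) _
    _ = 4 * (ENNReal.ofReal (α ^ (boxNet d L).dist x z) *
        Vp (boxNet d L) k q s (fun y => ‖U y‖) (fun y => ‖G y‖ + ‖G' y‖) z) := by ring
    _ ≤ _ := mul_le_mul_right (mul_le_mul_right h3 _) _

/-- one leg of the path -/
private theorem Obe2_leg {V : Type} [NormedAddCommGroup V] {L : ℕ} {k q s α θ : ℝ} (hk : 0 < k)
    (hk1 : k < 1) (hq : 1 ≤ q) (hs : 0 < s) (hqs : q * s ≤ 1)
    {A : boxS d L → ℝ} (hA : ∀ x, 0 ≤ A x) {ε : ℝ} (he : 0 ≤ ε) {f : (boxS d L → V) → ℂ}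
    (hf : Cls (boxNet d L) k q s α θ A ε f) {G G' U M : boxS d L → V}
    (hU : U = G ∨ U = G') (hUM : ∀ z, ‖U z‖ ≤ ‖M z‖) (hM : ∀ z, ‖M z‖ ≤ ‖G z‖ + ‖G' z‖) :
    ENNReal.ofReal ‖f U - f M‖ ≤
      ∑ x, ENNReal.ofReal (4 * A x * ‖U x - M x‖ ^ θ) * wpr (boxNet d L) k q s α G G' x +
        ENNReal.ofReal ((Fintype.card (boxS d L)) * (ε * (1 + 2 * ∑ x, (‖G x‖ + ‖G' x‖)))) := by
  classical
  have hUG : ∀ z, ‖U z‖ ≤ ‖G z‖ + ‖G' z‖ := fun z => (hUM z).trans (hM z)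
  have hE : 0 ≤ ε * (1 + 2 * ∑ x, (‖G x‖ + ‖G' x‖)) := by
    have : 0 ≤ ∑ x, (‖G x‖ + ‖G' x‖) := Finset.sum_nonneg fun x _ => by positivity
    positivity
  have key : ∀ T : Finset (boxS d L),
      ENNReal.ofReal ‖f U - f (fun x => if x ∈ T then M x else U x)‖ ≤
      ∑ x ∈ T, ENNReal.ofReal (4 * A x * ‖U x - M x‖ ^ θ) * wpr (boxNet d L) k q s α G G' x +
        ENNReal.ofReal (T.card * (ε * (1 + 2 * ∑ x, (‖G x‖ + ‖G' x‖)))) := by
    intro T
    induction T using Finset.induction_on with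
    | empty => simp
    | insert y T hy ih =>
      set H : boxS d L → V := fun x => if x ∈ T then M x else U x with hHdef
      set H' : boxS d L → V := fun x => if x ∈ insert y T then M x else U x with hH'def
      have hd : ∀ x, x ≠ y → H x = H' x := by
        intro x hx
        simp only [hHdef, hH'def, Finset.mem_insert, hx, false_or]
      have hHy : H y = U y := by simp only [hHdef, hy, if_false]
      have hH'y : H' y = M y := by
        simp only [hH'def, Finset.mem_insert_self, if_true]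
      have b1 : ∀ z, ‖U z‖ ≤ ‖H z‖ := by
        intro z
        simp only [hHdef]
        split_ifs
        · exact hUM z
        · exact le_rfl
      have b2 : ∀ z, ‖U z‖ ≤ ‖H' z‖ := by
        intro z
        simp only [hH'def]
        split_ifs
        · exact hUM z
        · exact le_rfl
      have c1 : ∀ z, ‖H z‖ ≤ ‖G z‖ + ‖G' z‖ := by
        intro z
        simp only [hHdef]
        split_ifs
        · exact hM z
        · exact hUG z
      have c2 : ∀ z, ‖H' z‖ ≤ ‖G z‖ + ‖G' z‖ := by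
        intro z
        simp only [hH'def]
        split_ifs
        · exact hM z
        · exact hUG z
      have h1 := hf H H' y hd
      rw [hHy, hH'y] at h1
      have h2 := Obe2_wpr (α := α) hk hk1 hq hs hqs hU b1 b2 c1 c2 y
      have h3 : ENNReal.ofReal (ε * (1 + ∑ x, (‖H x‖ + ‖H' x‖))) ≤
          ENNReal.ofReal (ε * (1 + 2 * ∑ x, (‖G x‖ + ‖G' x‖))) := by
        refine ENNReal.ofReal_le_ofReal (mul_le_mul_of_nonneg_left ?_ he)
        rw [Finset.mul_sum]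
        refine add_le_add le_rfl (Finset.sum_le_sum fun x _ => ?_)
        have e1 := c1 x
        have e2 := c2 x
        linarith
      have h4 : ENNReal.ofReal (A y * ‖U y - M y‖ ^ θ) * wpr (boxNet d L) k q s α H H' y ≤
          ENNReal.ofReal (4 * A y * ‖U y - M y‖ ^ θ) * wpr (boxNet d L) k q s α G G' y := by
        calc _ ≤ ENNReal.ofReal (A y * ‖U y - M y‖ ^ θ) *
              (4 * wpr (boxNet d L) k q s α G G' y) := mul_le_mul_right h2 _
          _ = _ := by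
            rw [mul_assoc 4 (A y) _, ENNReal.ofReal_mul (by norm_num : (0 : ℝ) ≤ 4)]
            rw [ENNReal.ofReal_ofNat]
            ring
      have h5 : ENNReal.ofReal ‖f U - f H'‖ ≤
          ENNReal.ofReal ‖f U - f H‖ + ENNReal.ofReal ‖f H - f H'‖ := by
        rw [← ENNReal.ofReal_add (norm_nonneg _) (norm_nonneg _)]
        exact ENNReal.ofReal_le_ofReal (norm_sub_le_norm_sub_add_norm_sub _ _ _)
      rw [Finset.sum_insert hy, Finset.card_insert_of_notMem hy]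
      have h6 : ENNReal.ofReal (((T.card + 1 : ℕ) : ℝ) *
          (ε * (1 + 2 * ∑ x, (‖G x‖ + ‖G' x‖)))) =
          ENNReal.ofReal (T.card * (ε * (1 + 2 * ∑ x, (‖G x‖ + ‖G' x‖)))) +
            ENNReal.ofReal (ε * (1 + 2 * ∑ x, (‖G x‖ + ‖G' x‖))) := by
        rw [← ENNReal.ofReal_add (mul_nonneg (Nat.cast_nonneg _) hE) hE]
        congr 1
        push_cast
        ring
      rw [h6]
      refine h5.trans ((add_le_add ih (h1.trans (add_le_add h4 h3))).trans (le_of_eq ?_))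
      ring
  have hu := key Finset.univ
  have hM' : (fun x => if x ∈ (Finset.univ : Finset (boxS d L)) then M x else U x) = M := by
    funext x
    rw [if_pos (Finset.mem_univ x)]
  rw [hM', Finset.card_univ] at hu
  exact hu

theorem tele {V : Type} [NormedAddCommGroup V] {L : ℕ} (k q s α θ : ℝ) (hk : 0 < k) (hk1 : k < 1)
    (hq : 1 ≤ q) (hs : 0 < s) (hqs : q * s ≤ 1) (hα : 0 ≤ α) (hθ : 0 < θ)
    (A : boxS d L → ℝ) (hA : ∀ x, 0 ≤ A x) (ε : ℝ) (he : 0 ≤ ε) (f : (boxS d L → V) → ℂ)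
    (hf : Cls (boxNet d L) k q s α θ A ε f) (G G' : boxS d L → V) :
    ENNReal.ofReal ‖f G - f G'‖ ≤
      ∑ x, ENNReal.ofReal (4 * A x * ‖G x - G' x‖ ^ θ) * wpr (boxNet d L) k q s α G G' x +
        ENNReal.ofReal (2 * (Fintype.card (boxS d L)) * ε * (1 + 2 * ∑ x, (‖G x‖ + ‖G' x‖))) := by
  classical
  set M : boxS d L → V := fun x => if ‖G x‖ < ‖G' x‖ then G' x else G x with hMdef
  have h1 : ∀ z, ‖G z‖ ≤ ‖M z‖ := by
    intro z
    simp only [hMdef]
    split_ifs with h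
    · exact h.le
    · exact le_rfl
  have h2 : ∀ z, ‖G' z‖ ≤ ‖M z‖ := by
    intro z
    simp only [hMdef]
    split_ifs with h
    · exact le_rfl
    · exact not_lt.1 h
  have h3 : ∀ z, ‖M z‖ ≤ ‖G z‖ + ‖G' z‖ := by
    intro z
    simp only [hMdef]
    split_ifs with h
    · linarith [norm_nonneg (G z)]
    · linarith [norm_nonneg (G' z)]
  have l1 := Obe2_leg hk hk1 hq hs hqs hA he hf (Or.inl rfl : G = G ∨ G = G') h1 h3
  have l2 := Obe2_leg hk hk1 hq hs hqs hA he hf (Or.inr rfl : G' = G ∨ G' = G') h2 h3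
  have h4 : ENNReal.ofReal ‖f G - f G'‖ ≤
      ENNReal.ofReal ‖f G - f M‖ + ENNReal.ofReal ‖f G' - f M‖ := by
    rw [← ENNReal.ofReal_add (norm_nonneg _) (norm_nonneg _)]
    refine ENNReal.ofReal_le_ofReal ?_
    rw [norm_sub_rev (f G') (f M)]
    exact norm_sub_le_norm_sub_add_norm_sub _ _ _
  have hE : 0 ≤ ε * (1 + 2 * ∑ x, (‖G x‖ + ‖G' x‖)) := by
    have : 0 ≤ ∑ x, (‖G x‖ + ‖G' x‖) := Finset.sum_nonneg fun x _ => by positivity
    positivity
  have h5 : ENNReal.ofReal (2 * (Fintype.card (boxS d L)) * ε *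
      (1 + 2 * ∑ x, (‖G x‖ + ‖G' x‖))) =
      ENNReal.ofReal ((Fintype.card (boxS d L)) * (ε * (1 + 2 * ∑ x, (‖G x‖ + ‖G' x‖)))) +
      ENNReal.ofReal ((Fintype.card (boxS d L)) * (ε * (1 + 2 * ∑ x, (‖G x‖ + ‖G' x‖)))) := by
    rw [← ENNReal.ofReal_add (by positivity) (by positivity)]
    congr 1
    ring
  have h6 : ∑ x, ENNReal.ofReal (4 * A x * ‖G x - G' x‖ ^ θ) * wpr (boxNet d L) k q s α G G' x =
      ∑ x, ENNReal.ofReal (4 * A x * ‖G x - M x‖ ^ θ) * wpr (boxNet d L) k q s α G G' x +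
      ∑ x, ENNReal.ofReal (4 * A x * ‖G' x - M x‖ ^ θ) * wpr (boxNet d L) k q s α G G' x := by
    rw [← Finset.sum_add_distrib]
    refine Finset.sum_congr rfl fun x _ => ?_
    by_cases h : ‖G x‖ < ‖G' x‖
    · have hM : M x = G' x := by simp only [hMdef, h, if_true]
      rw [hM, sub_self, norm_zero, Real.zero_rpow hθ.ne', mul_zero, ENNReal.ofReal_zero, zero_mul,
        add_zero]
    · have hM : M x = G x := by simp only [hMdef, h, if_false]
      rw [hM, sub_self, norm_zero, Real.zero_rpow hθ.ne', mul_zero, ENNReal.ofReal_zero, zero_mul,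
        zero_add, norm_sub_rev (G' x) (G x)]
  rw [h5, h6]
  refine h4.trans ((add_le_add l1 l2).trans (le_of_eq ?_))
  ring

/-- one step of the path integral -/
private theorem Obe2_succ {X St : Type} [MeasurableSpace X] [MeasurableSpace St] {μ : Measure X}
    [IsProbabilityMeasure μ] (f : St → X → St) (hf : Measurable fun p : St × X => f p.1 p.2)
    (s : St) (n : ℕ) (Φ : St → ℝ≥0∞) (hΦ : Measurable Φ) :
    ∫⁻ ω, Φ (traj f s ω (n + 1)) ∂(PI μ) =
      ∫⁻ ω, ∫⁻ ξ, Φ (f (traj f s ω n) ξ) ∂μ ∂(PI μ) := by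
  have hm : ∀ m, Measurable fun ω : ℕ → X => traj f s ω m := fun m =>
    (measurable_traj f hf m).comp (measurable_const.prodMk measurable_id)
  rw [lintegral_glue n (fun ω => Φ (traj f s ω (n + 1))) (hΦ.comp (hm (n + 1)))]
  refine lintegral_congr fun a => ?_
  have h1 : ∀ b : ℕ → X, traj f s (glue n a b) (n + 1) = f (traj f s a n) (b 0) := fun b =>
    traj_glue_add f s n a b 1
  simp_rw [h1]
  have h2 : Measurable fun ξ : X => Φ (f (traj f s a n) ξ) :=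
    hΦ.comp (hf.comp (measurable_const.prodMk measurable_id))
  have h3 := lintegral_map (μ := PI μ) h2 (measurable_pi_apply (0 : ℕ))
  rw [map_coord] at h3
  exact h3.symm

/-- laws of a component of a coupled chain -/
private theorem Obe2_marg {X Y St St' : Type} [MeasurableSpace X] [MeasurableSpace Y]
    [MeasurableSpace St] [MeasurableSpace St'] {μ : Measure X} [IsProbabilityMeasure μ]
    {ν : Measure Y} [IsProbabilityMeasure ν]
    (f : St → X → St) (hf : Measurable fun p : St × X => f p.1 p.2)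
    (g : St' → Y → St') (hg : Measurable fun p : St' × Y => g p.1 p.2)
    (π : St → St') (hπ : Measurable π)
    (hfg : ∀ s, μ.map (fun ξ => π (f s ξ)) = ν.map (fun ξ => g (π s) ξ)) (s : St) (n : ℕ) :
    (PI μ).map (fun ω => π (traj f s ω n)) = (PI ν).map (fun ω => traj g (π s) ω n) := by
  have hm : ∀ m, Measurable fun ω : ℕ → X => traj f s ω m := fun m =>
    (measurable_traj f hf m).comp (measurable_const.prodMk measurable_id)
  have hm' : ∀ m, Measurable fun ω : ℕ → Y => traj g (π s) ω m := fun m =>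
    (measurable_traj g hg m).comp (measurable_const.prodMk measurable_id)
  induction n with
  | zero =>
    show (PI μ).map (fun _ => π s) = (PI ν).map (fun _ => π s)
    rw [Measure.map_const, Measure.map_const, measure_univ, measure_univ]
  | succ n ih =>
    refine Measure.ext_of_lintegral _ fun Φ hΦ => ?_
    have hc : ∀ m, Measurable fun ω : ℕ → X => π (traj f s ω m) := fun m => hπ.comp (hm m)
    rw [lintegral_map hΦ (hc (n + 1)), lintegral_map hΦ (hm' (n + 1))]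
    rw [Obe2_succ f hf s n (fun x => Φ (π x)) (hΦ.comp hπ), Obe2_succ g hg (π s) n Φ hΦ]
    have h1 : ∀ x : St, ∫⁻ ξ, Φ (π (f x ξ)) ∂μ = ∫⁻ ξ, Φ (g (π x) ξ) ∂ν := by
      intro x
      have e1 : Measurable fun ξ : X => π (f x ξ) :=
        hπ.comp (hf.comp (measurable_const.prodMk measurable_id))
      have e2 : Measurable fun ξ : Y => g (π x) ξ :=
        hg.comp (measurable_const.prodMk measurable_id)
      rw [← lintegral_map (μ := μ) hΦ e1, ← lintegral_map (μ := ν) hΦ e2, hfg]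
    simp_rw [h1]
    have h2 : Measurable fun v : St' => ∫⁻ ξ, Φ (g v ξ) ∂ν :=
      Measurable.lintegral_prod_right' (f := fun p : St' × Y => Φ (g p.1 p.2)) (hΦ.comp hg)
    rw [← lintegral_map (μ := PI μ) h2 (hc n), ih, lintegral_map h2 (hm' n)]

/-- laws of the components of the pair -/
theorem tr_marg {F : Fam d} {β k : ℝ} (S : PSys F β k) (h : ℝ) (L : ℕ)
    (G : (boxS d L → F.V) × (boxS d L → F.V)) (n : ℕ) :
    (PI (S.mu L)).map (fun ω => (S.tr h L G ω n).1) =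
        (PI (F.mu L)).map (fun ω => traj (F.st h L) G.1 ω n) ∧
      (PI (S.mu L)).map (fun ω => (S.tr h L G ω n).2) =
        (PI (F.mu L)).map (fun ω => traj (F.st h L) G.2 ω n) := by
  refine ⟨?_, ?_⟩
  · exact Obe2_marg (μ := S.mu L) (ν := F.mu L) (S.st h L) (S.mst h L) (F.st h L) (F.mst h L)
      Prod.fst measurable_fst (fun s => S.marg1 h L s) G n
  · exact Obe2_marg (μ := S.mu L) (ν := F.mu L) (S.st h L) (S.mst h L) (F.st h L) (F.mst h L)
      Prod.snd measurable_snd (fun s => S.marg2 h L s) G n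

end DynC

end

/-! ### from `Lib_MP_36b788c.Obe3` -/

section

/-!
# Initial laws

PROOF.
* `V_start`: i.i.d. law `ρ` without atom at `0`: choose `δ0 ∈ (0,1]` with `ρ(‖v‖ ≥ δ0) ≥ 1/2`. The event `E_L`: for some site `x` of the box there is no site `z` with `‖G z‖ ≥ δ0` within distance `L`. There are at least
  `r + 1` sites within distance `r ≤ L` of `x` (move in one coordinate direction), so `P(no such site within r) ≤ 2^{-(r+1)}` and `P(E_L) ≤ |box| 2^{-L} → 0`. Off `E_L` let `r` = distance from `x` to the nearest such site `z`: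
  `V1(x)² ≤ (k^{r/4} fpot(δ0) SSt(z)^{-q})^{-2s} = k^{-rs/2} fpot(δ0)^{-2s} SSt(z)^{2qs}`. Sum over `z`: `E[V1(x)²; E_L^c] ≤ Σ_z k^{-s|x-z|/2} fpot(δ0)^{-2s} E[1{nearest at distance |x-z|} SSt(z)^{2qs}]`, Cauchy-Schwarz:
  `≤ Σ_z k^{-s|x-z|/2} C 2^{-|x-z|/2} (E SSt(z)^{4qs})^{1/2}`, `E SSt ≤ 1 + 3^d E‖v‖`, `4qs ≤ 1`; converges uniformly in `L` if `k^{-s/2} 2^{-1/2} ≤ 9/10`... (hypothesis `hks : k^{-s} ≤ 11/10`, and the number of `z` at distance `r` is at most `(2r+1)^d`).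
* `V_all`: pair system started at `(G, 0)`: the second component stays `0` on good noise (`q2`). `m_j = (E[V1(x)²(tr (j n_B)); alv, E_L^c])^{1/2} ≤ κ' m_{j-1} + CV` (`ly`, Minkowski in the initial configuration, Markov property by `lintegral_glue`), `κ' ≤ 1/2`, then `gV` for the remainder.
  So `E[V1(x)²(tr n); alv, E_L^c] ≤ CI` uniformly in `n, L, h, x`.
* `mom` gives `E[‖G_n x‖; alv] ≤ CM (1 + E Yl) ≤ C`.
* `init_of_blk`: `G = G_{n1}`, `G' = G'_{n2}` independent (two independent copies of the system started from `(G_0,0)`, `(G'_0,0)`). `tele` and `Cls`: `‖f G - f G'‖ ≤ Σ 4A(x) D(x)^θ w(x) + …`. `E[D(x)^θ w(x); good] ≤ (E D^{2θ})^{1/2} (E w²)^{1/2}`,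
  `D^{2θ} ≤ 1 + ‖G x‖ + ‖G' x‖`. For the joint `S`: `SSt(u+u') ≤ SSt(u) SSt(u')`, so with `z* = z*(G)` the maximizer for `G` alone, `V1(G,G')(x) ≤ V1(G,0)(x) SSt(u')(z*)^{qs}` and by independence `E[V1(G,G')(x)²; good] ≤ E[V1(G,0)(x)²; good] sup_z E[SSt(u')(z)^{2qs}; good] ≤ C`.
  Minkowski over `z` in `wpr`. The exceptional events: `E_L` (probability `≤ η/8` for `L ≥ L1`), `alv^c` (`exit`, `E Σ‖G_0‖ < ∞`), on which `‖f G - f G'‖ ≤ 2`. Additive term: `sum`.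
-/

open MeasureTheory ProbabilityTheory
open scoped ENNReal

namespace DynC

open Dyn

variable {d : ℕ}

/-- uniform first moment bound -/
def MomU {F : Fam d} {β k : ℝ} (S : PSys F β k) (CM : ℝ) : Prop :=
  ∀ L : ℕ, ∃ h0 : ℝ, 0 < h0 ∧ ∀ h, 0 < h → h < h0 →
    ∀ (G : (boxS d L → F.V) × (boxS d L → F.V)) (n : ℕ) (x : boxS d L),
      ∫⁻ ω in S.alv h L G n, ENNReal.ofReal (Yl (boxNet d L) (nrm (S.tr h L G ω n).1) x)
          ∂(PI (S.mu L))
        ≤ ENNReal.ofReal (CM * (1 + Yl (boxNet d L) (nrm G.1) x))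

/-- bad initial configurations: some site has no site with modulus `≥ δ0` within distance `L` -/
def EL {V : Type} [NormedAddCommGroup V] (d L : ℕ) (δ0 : ℝ) : Set (boxS d L → V) :=
  {G | ∃ x, ∀ z, (boxNet d L).dist x z ≤ L → ‖G z‖ < δ0}

end DynC

end

/-! ### from `Lib_MP_36b788c.Mom2` -/

section

/-!
# Uniform moments

`Yl u x = Σ_w 2^{-|x-w|} u w`.

PROOF.
* `site_mean`: `u ≤ rad`: on good noise `ψ(v) = v - h ψ(v)^{1+β} ≤ v - h (v/2)^{1+β}` (`psi_eq`, `psi_half`, `h v^β ≤ 1` since `v ≤ 2 rad`, `h rad^β ≤ h^{3/4}`), `v = e^b u`;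
  `E_{gd} e^b ≤ 1 + C h`, `E_{gd} e^{(1+β) b} ≥ 1/2`: `E_{gd} u⁺(w) ≤ (1+Ch) u(w) - h c u(w)^{1+β} + k h cpl u w`, `c = 2^{-(2+β)}`.
* `mom_step`: `Σ_w 2^{-|x-w|} Σ_{y~w} u y ≤ 4d Yl u x`, power mean `Σ p u^{1+β} ≥ (Σ p)^{-β} (Σ p u)^{1+β}`, `Σ p ≤ 3^d` (`sum_half`), `C Y - c'' Y^{1+β} ≤ A - (c''/2) Y^{1+β}`.
* `mom_cap`: `y_n = E[Yl(u_n)(x); alv n]`. `y_{n+1} ≤ y_n + h (A - c y_n^{1+β})` (Jensen for the sub-probability, `E[Y^{1+β};alv] ≥ y^{1+β}`). With `C* = (2A/c)^{1/(1+β)}`: while `y ≥ C*`: `y_{n+1} ≤ y_n - h (c/2) y_n^{1+β}`, so `y_{n+1}^{-β} ≥ y_n^{-β} + β h c/2`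
  (Bernoulli) and `y_n ≤ (2/(β c n h))^{1/β}`; after the first time below `C*` always `≤ C* + A h`. (`x ↦ x + h(A - c x^{1+β})` is increasing on `[0, 3^d rad]` for small `h`.)
* `mom_unif` (`MomU`): the same recursion: `y_n ≤ max (y_0) (C* + A)`.
* `mom_tail`: Markov: `u_n(x) ≤ Yl(u_n)(x)`.
-/

open MeasureTheory ProbabilityTheory
open scoped ENNReal

namespace DynC

open Dyn

variable {d : ℕ}

/-! ### elementary facts -/

private theorem Mom2_small (K e : ℝ) (he : 0 < e) : ∃ h0 : ℝ, 0 < h0 ∧ ∀ h, 0 < h → h < h0 →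
    K * h ^ e ≤ 1 := by
  refine ⟨(1 / (|K| + 1)) ^ (1 / e), by positivity, fun h hh hlt => ?_⟩
  have hK : 0 < |K| + 1 := by positivity
  have h1 : h ^ e ≤ 1 / (|K| + 1) := by
    have h2 := Real.rpow_le_rpow hh.le hlt.le he.le
    rwa [← Real.rpow_mul (by positivity), one_div_mul_cancel he.ne', Real.rpow_one] at h2
  have h3 : 0 ≤ h ^ e := Real.rpow_nonneg hh.le e
  calc K * h ^ e ≤ (|K| + 1) * h ^ e :=
        mul_le_mul_of_nonneg_right (by linarith [le_abs_self K]) h3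
    _ ≤ (|K| + 1) * (1 / (|K| + 1)) := mul_le_mul_of_nonneg_left h1 hK.le
    _ = 1 := mul_one_div_cancel hK.ne'

private theorem Mom2_tan {β Y t : ℝ} (hβ : 0 < β) (hY : 0 ≤ Y) (ht : 0 ≤ t) :
    (1 + β) * t ^ β * Y - β * t ^ (1 + β) ≤ Y ^ (1 + β) := by
  have hb : (0 : ℝ) < 1 + β := by linarith
  have h := Real.geom_mean_le_arith_mean2_weighted (w₁ := β / (1 + β)) (w₂ := 1 / (1 + β))
    (p₁ := t ^ (1 + β)) (p₂ := Y ^ (1 + β)) (by positivity) (by positivity)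
    (Real.rpow_nonneg ht _) (Real.rpow_nonneg hY _) (by field_simp; ring)
  rw [← Real.rpow_mul ht, ← Real.rpow_mul hY, mul_div_cancel₀ _ hb.ne', mul_one_div_cancel hb.ne',
    Real.rpow_one] at h
  have h2 := mul_le_mul_of_nonneg_left h hb.le
  have h3 : (1 + β) * (β / (1 + β) * t ^ (1 + β) + 1 / (1 + β) * Y ^ (1 + β)) =
      β * t ^ (1 + β) + Y ^ (1 + β) := by field_simp
  rw [h3] at h2
  nlinarith [h2]

private theorem Mom2_rad {β h : ℝ} (hβ : 0 < β) (hh : 0 < h) (h1 : h < 1) :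
    0 ≤ rad β h ∧ h * rad β h ^ β ≤ h ^ (3 / 4 : ℝ) := by
  have h0 : 0 ≤ rad β h := by
    unfold rad
    exact le_min (Real.rpow_nonneg hh.le _) (Real.rpow_nonneg hh.le _)
  refine ⟨h0, ?_⟩
  have h2 : rad β h ≤ h ^ (-(1 / (4 * β)) : ℝ) := min_le_right _ _
  have h3 := Real.rpow_le_rpow h0 h2 hβ.le
  rw [← Real.rpow_mul hh.le] at h3
  have h4 : -(1 / (4 * β)) * β = -(1 / 4 : ℝ) := by field_simp
  rw [h4] at h3
  calc h * rad β h ^ β ≤ h * h ^ (-(1 / 4) : ℝ) := mul_le_mul_of_nonneg_left h3 hh.le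
    _ = h ^ (1 : ℝ) * h ^ (-(1 / 4) : ℝ) := by rw [Real.rpow_one]
    _ = h ^ (3 / 4 : ℝ) := by rw [← Real.rpow_add hh]; norm_num

section nets

variable {ι : Type} [Fintype ι]

private theorem Mom2_Yl_nonneg (net : Net ι d) (u : ι → ℝ) (hu : ∀ w, 0 ≤ u w) (x : ι) :
    0 ≤ Yl net u x := by
  unfold Yl
  exact Finset.sum_nonneg fun w _ => mul_nonneg (by positivity) (hu w)

private theorem Mom2_Yl_le (net : Net ι d) (u : ι → ℝ) (R : ℝ) (hR : 0 ≤ R) (hu : ∀ w, u w ≤ R)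
    (x : ι) : Yl net u x ≤ 3 ^ d * R := by
  unfold Yl
  calc ∑ w, (1 / 2 : ℝ) ^ net.dist x w * u w ≤ ∑ w, (1 / 2 : ℝ) ^ net.dist x w * R :=
        Finset.sum_le_sum fun w _ => mul_le_mul_of_nonneg_left (hu w) (by positivity)
    _ = (∑ w, (1 / 2 : ℝ) ^ net.dist x w) * R := by rw [Finset.sum_mul]
    _ ≤ 3 ^ d * R := mul_le_mul_of_nonneg_right (net.sum_half x) hR

private theorem Mom2_cpl (net : Net ι d) (u : ι → ℝ) (hu : ∀ w, 0 ≤ u w) (x : ι) :
    ∑ w, (1 / 2 : ℝ) ^ net.dist x w * cpl net u w ≤ 6 * d * Yl net u x := by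
  classical
  have h1 : ∑ w, (1 / 2 : ℝ) ^ net.dist x w * ∑ y ∈ net.nb w, u y ≤ 4 * d * Yl net u x := by
    have h2 : ∀ w, (1 / 2 : ℝ) ^ net.dist x w * ∑ y ∈ net.nb w, u y ≤
        ∑ y ∈ net.nb w, 2 * ((1 / 2 : ℝ) ^ net.dist x y * u y) := by
      intro w
      rw [Finset.mul_sum]
      refine Finset.sum_le_sum fun y hy => ?_
      have h3 : net.dist x y ≤ net.dist x w + 1 := by
        have := net.dist_tri x w y
        rw [net.dist_nb w y hy] at this
        exact this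
      have h4 : (1 / 2 : ℝ) ^ (net.dist x w + 1) ≤ (1 / 2 : ℝ) ^ net.dist x y :=
        pow_le_pow_of_le_one (by norm_num) (by norm_num) h3
      have h5 : (1 / 2 : ℝ) ^ net.dist x w ≤ 2 * (1 / 2 : ℝ) ^ net.dist x y := by
        rw [pow_succ] at h4
        linarith
      calc (1 / 2 : ℝ) ^ net.dist x w * u y ≤ (2 * (1 / 2 : ℝ) ^ net.dist x y) * u y :=
            mul_le_mul_of_nonneg_right h5 (hu y)
        _ = _ := by ring
    calc ∑ w, (1 / 2 : ℝ) ^ net.dist x w * ∑ y ∈ net.nb w, u y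
        ≤ ∑ w, ∑ y ∈ net.nb w, 2 * ((1 / 2 : ℝ) ^ net.dist x y * u y) :=
          Finset.sum_le_sum fun w _ => h2 w
      _ = ∑ y, ∑ w ∈ net.nb y, 2 * ((1 / 2 : ℝ) ^ net.dist x y * u y) := by
          refine Finset.sum_comm' fun w y => ?_
          constructor
          · rintro ⟨_, h⟩
            exact ⟨net.nb_symm w y h, Finset.mem_univ _⟩
          · rintro ⟨h, _⟩
            exact ⟨Finset.mem_univ _, net.nb_symm y w h⟩
      _ ≤ ∑ y, (2 * d : ℝ) * (2 * ((1 / 2 : ℝ) ^ net.dist x y * u y)) := by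
          refine Finset.sum_le_sum fun y _ => ?_
          rw [Finset.sum_const, nsmul_eq_mul]
          refine mul_le_mul_of_nonneg_right ?_ (mul_nonneg (by norm_num)
            (mul_nonneg (by positivity) (hu y)))
          exact_mod_cast net.nb_card y
      _ = 4 * d * Yl net u x := by
          unfold Yl
          rw [Finset.mul_sum]
          exact Finset.sum_congr rfl fun y _ => by ring
  have h6 : ∑ w, (1 / 2 : ℝ) ^ net.dist x w * cpl net u w =
      ∑ w, (1 / 2 : ℝ) ^ net.dist x w * ∑ y ∈ net.nb w, u y + 2 * d * Yl net u x := by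
    unfold Yl cpl
    rw [Finset.mul_sum, ← Finset.sum_add_distrib]
    exact Finset.sum_congr rfl fun w _ => by push_cast; ring
  rw [h6]
  linarith

private theorem Mom2_pow (net : Net ι d) {β : ℝ} (hβ : 0 < β) (u : ι → ℝ) (hu : ∀ w, 0 ≤ u w)
    (x : ι) : Yl net u x ^ (1 + β) ≤
      ((3 : ℝ) ^ d) ^ β * ∑ w, (1 / 2 : ℝ) ^ net.dist x w * u w ^ (1 + β) := by
  have hP : 0 < ∑ w, (1 / 2 : ℝ) ^ net.dist x w := by
    refine Finset.sum_pos (fun w _ => by positivity) ⟨x, Finset.mem_univ x⟩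
  set P := ∑ w, (1 / 2 : ℝ) ^ net.dist x w with hPdef
  have h1 := Real.rpow_arith_mean_le_arith_mean_rpow Finset.univ
    (fun w => (1 / 2 : ℝ) ^ net.dist x w / P) u (fun w _ => by positivity)
    (by rw [← Finset.sum_div, ← hPdef, div_self hP.ne']) (fun w _ => hu w)
    (show (1 : ℝ) ≤ 1 + β by linarith)
  have h2 : ∑ w, (1 / 2 : ℝ) ^ net.dist x w / P * u w = Yl net u x / P := by
    unfold Yl
    rw [Finset.sum_div]
    exact Finset.sum_congr rfl fun w _ => by ring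
  have h3 : ∑ w, (1 / 2 : ℝ) ^ net.dist x w / P * u w ^ (1 + β) =
      (∑ w, (1 / 2 : ℝ) ^ net.dist x w * u w ^ (1 + β)) / P := by
    rw [Finset.sum_div]
    exact Finset.sum_congr rfl fun w _ => by ring
  rw [h2, h3, Real.div_rpow (Mom2_Yl_nonneg net u hu x) hP.le] at h1
  have h4 : P ^ (1 + β) = P * P ^ β := by rw [Real.rpow_add hP, Real.rpow_one]
  have hPb : 0 < P ^ β := Real.rpow_pos_of_pos hP β
  have hS : 0 ≤ ∑ w, (1 / 2 : ℝ) ^ net.dist x w * u w ^ (1 + β) :=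
    Finset.sum_nonneg fun w _ => mul_nonneg (by positivity) (Real.rpow_nonneg (hu w) _)
  rw [h4, div_le_div_iff₀ (by positivity) hP] at h1
  have h5 : Yl net u x ^ (1 + β) ≤ P ^ β * ∑ w, (1 / 2 : ℝ) ^ net.dist x w * u w ^ (1 + β) := by
    have h6 : Yl net u x ^ (1 + β) * P ≤
        (P ^ β * ∑ w, (1 / 2 : ℝ) ^ net.dist x w * u w ^ (1 + β)) * P := by
      refine h1.trans (le_of_eq (by ring))
    exact le_of_mul_le_mul_right h6 hP
  refine h5.trans (mul_le_mul_of_nonneg_right ?_ hS)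
  exact Real.rpow_le_rpow hP.le (net.sum_half x) hβ.le

end nets

/-! ### one site -/

private theorem Mom2_site (N : ℕ) {β : ℝ} (hβ : 0 < β) {Ω0 : Type} [MeasurableSpace Ω0]
    (ν : Measure Ω0) [IsProbabilityMeasure ν] (b : ℝ → Ω0 → ℝ) (gd : ℝ → Set Ω0)
    (hmb : ∀ h, Measurable (b h)) (hmg : ∀ h, MeasurableSet (gd h)) (hB : BNoise N ν b gd) :
    ∃ h0 : ℝ, 0 < h0 ∧ ∀ h, 0 < h → h < h0 → ∀ u : ℝ, 0 ≤ u → u ≤ rad β h →
      0 ≤ (1 + (|lamN N| + 2) * h) * u - h * (2 : ℝ) ^ (-(2 + β)) * u ^ (1 + β) ∧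
      ∫⁻ a in gd h, ENNReal.ofReal (psi β h (Real.exp (b h a) * u)) ∂ν ≤
        ENNReal.ofReal ((1 + (|lamN N| + 2) * h) * u
          - h * (2 : ℝ) ^ (-(2 + β)) * u ^ (1 + β)) := by
  obtain ⟨h1, hh1, H1⟩ := hB.mgf (1 + β) 1 (by linarith) one_pos
  obtain ⟨h2, hh2, H2⟩ := Mom2_small (2 / Real.log 2) (3 / 8) (by norm_num)
  obtain ⟨h3, hh3, H3⟩ := Mom2_small ((2 : ℝ) ^ β) (3 / 4) (by norm_num)
  obtain ⟨h4, hh4, H4⟩ := Mom2_small (2 * |lamN N * (1 + β) + (1 + β) ^ 2 / 2 - 1|) 1 one_pos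
  refine ⟨min (min h1 h2) (min (min h3 h4) 1), by positivity, fun h hh hlt u hu hur => ?_⟩
  have hl1 : h < h1 := hlt.trans_le ((min_le_left _ _).trans (min_le_left _ _))
  have hl2 : h < h2 := hlt.trans_le ((min_le_left _ _).trans (min_le_right _ _))
  have hl3 : h < h3 := hlt.trans_le
    ((min_le_right _ _).trans ((min_le_left _ _).trans (min_le_left _ _)))
  have hl4 : h < h4 := hlt.trans_le
    ((min_le_right _ _).trans ((min_le_left _ _).trans (min_le_right _ _)))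
  have hl5 : h < 1 := hlt.trans_le ((min_le_right _ _).trans (min_le_right _ _))
  obtain ⟨hr0, hr1⟩ := Mom2_rad hβ hh hl5
  have hlog : 0 < Real.log 2 := Real.log_pos (by norm_num)
  have hexp : ∀ a ∈ gd h, Real.exp (b h a) ≤ 2 := by
    intro a ha
    have e1 := hB.bdd h hh hl5 a ha
    have e2 := H2 h hh hl2
    have e3 : 2 * h ^ (3 / 8 : ℝ) ≤ Real.log 2 := by
      have e4 := mul_le_mul_of_nonneg_left e2 hlog.le
      rw [mul_one, ← mul_assoc, mul_div_cancel₀ _ hlog.ne'] at e4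
      exact e4
    have e5 : b h a ≤ Real.log 2 := (le_abs_self _).trans (e1.trans e3)
    calc Real.exp (b h a) ≤ Real.exp (Real.log 2) := Real.exp_le_exp.mpr e5
      _ = 2 := Real.exp_log (by norm_num)
  have hub : h * u ^ β ≤ h ^ (3 / 4 : ℝ) :=
    (mul_le_mul_of_nonneg_left (Real.rpow_le_rpow hu hur hβ.le) hh.le).trans hr1
  have h34 : h ^ (3 / 4 : ℝ) ≤ 1 := Real.rpow_le_one hh.le hl5.le (by norm_num)
  have hc0 : (0 : ℝ) < (2 : ℝ) ^ (-(2 + β)) := by positivity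
  have hc1 : (2 : ℝ) ^ (-(2 + β)) ≤ 1 := by
    refine Real.rpow_le_one_of_one_le_of_nonpos (by norm_num) (by linarith)
  have hu1 : u ^ (1 + β) = u * u ^ β := by
    rcases hu.lt_or_eq with h0 | h0
    · rw [Real.rpow_add h0, Real.rpow_one]
    · rw [← h0, Real.zero_rpow (by linarith), zero_mul]
  have hnn : 0 ≤ (1 + (|lamN N| + 2) * h) * u - h * (2 : ℝ) ^ (-(2 + β)) * u ^ (1 + β) := by
    have e1 : h * (2 : ℝ) ^ (-(2 + β)) * u ^ (1 + β) ≤ u := by
      rw [hu1]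
      calc h * (2 : ℝ) ^ (-(2 + β)) * (u * u ^ β) = (2 : ℝ) ^ (-(2 + β)) * (h * u ^ β) * u := by ring
        _ ≤ 1 * 1 * u := by
            refine mul_le_mul_of_nonneg_right ?_ hu
            exact mul_le_mul hc1 (hub.trans h34) (by positivity) zero_le_one
        _ = u := by ring
    have e2 : 0 ≤ (|lamN N| + 2) * h * u := by positivity
    nlinarith
  refine ⟨hnn, ?_⟩
  have hpt : ∀ a ∈ gd h, ENNReal.ofReal (psi β h (Real.exp (b h a) * u)) +
      ENNReal.ofReal (h * (u / 2) ^ (1 + β)) * ENNReal.ofReal (Real.exp ((1 + β) * b h a)) ≤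
      ENNReal.ofReal u * ENNReal.ofReal (Real.exp (1 * b h a)) := by
    intro a ha
    have hv0 : 0 ≤ Real.exp (b h a) * u := mul_nonneg (Real.exp_pos _).le hu
    have hv1 : h * (Real.exp (b h a) * u) ^ β ≤ 1 := by
      rw [Real.mul_rpow (Real.exp_pos _).le hu]
      have e1 : Real.exp (b h a) ^ β ≤ (2 : ℝ) ^ β :=
        Real.rpow_le_rpow (Real.exp_pos _).le (hexp a ha) hβ.le
      calc h * (Real.exp (b h a) ^ β * u ^ β) = Real.exp (b h a) ^ β * (h * u ^ β) := by ring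
        _ ≤ (2 : ℝ) ^ β * h ^ (3 / 4 : ℝ) := by
            exact mul_le_mul e1 hub (by positivity) (by positivity)
        _ ≤ 1 := H3 h hh hl3
    have e2 := psi_eq (h := h) hβ hh.le hv0
    have e3 := psi_half (h := h) hβ hh.le hv0 hv1
    have e4 : (Real.exp (b h a) * u / 2) ^ (1 + β) ≤ psi β h (Real.exp (b h a) * u) ^ (1 + β) :=
      Real.rpow_le_rpow (by positivity) e3 (by linarith)
    rw [← ENNReal.ofReal_mul (by positivity), ← ENNReal.ofReal_mul hu,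
      ← ENNReal.ofReal_add (psi_nonneg _ _ _) (by positivity)]
    refine ENNReal.ofReal_le_ofReal ?_
    have e5 : (Real.exp (b h a) * u / 2) ^ (1 + β) =
        (u / 2) ^ (1 + β) * Real.exp ((1 + β) * b h a) := by
      rw [mul_div_assoc, Real.mul_rpow (Real.exp_pos _).le (by positivity), ← Real.exp_mul,
        mul_comm (b h a) (1 + β), mul_comm]
    rw [one_mul]
    rw [e5] at e4
    have e6 := mul_le_mul_of_nonneg_left e4 hh.le
    nlinarith
  have hm1 : Measurable fun a => ENNReal.ofReal (psi β h (Real.exp (b h a) * u)) :=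
    (((psi_continuous hβ hh.le).measurable.comp
      ((Real.measurable_exp.comp (hmb h)).mul_const u))).ennreal_ofReal
  have hm2 : ∀ r : ℝ, Measurable fun a => ENNReal.ofReal (Real.exp (r * b h a)) := fun r =>
    (Real.measurable_exp.comp ((hmb h).const_mul r)).ennreal_ofReal
  have hint : ∫⁻ a in gd h, ENNReal.ofReal (psi β h (Real.exp (b h a) * u)) ∂ν +
      ENNReal.ofReal (h * (u / 2) ^ (1 + β)) *
        ∫⁻ a in gd h, ENNReal.ofReal (Real.exp ((1 + β) * b h a)) ∂ν ≤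
      ENNReal.ofReal u * ∫⁻ a in gd h, ENNReal.ofReal (Real.exp (1 * b h a)) ∂ν := by
    rw [← lintegral_const_mul _ (hm2 _), ← lintegral_const_mul _ (hm2 _),
      ← lintegral_add_left hm1]
    exact setLIntegral_mono' (hmg h) fun a ha => hpt a ha
  have hup := (H1 h hh hl1 1 (by rw [abs_one]; linarith)).1
  have hlo := (H1 h hh hl1 (1 + β) (by rw [abs_of_pos (by linarith)])).2
  have hlo2 : ENNReal.ofReal (1 / 2) ≤
      ∫⁻ a in gd h, ENNReal.ofReal (Real.exp ((1 + β) * b h a)) ∂ν := by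
    refine le_trans (ENNReal.ofReal_le_ofReal ?_) hlo
    have e1 := H4 h hh hl4
    rw [Real.rpow_one] at e1
    have e2 := neg_abs_le ((lamN N * (1 + β) + (1 + β) ^ 2 / 2 - 1))
    nlinarith
  have hup2 : ∫⁻ a in gd h, ENNReal.ofReal (Real.exp (1 * b h a)) ∂ν ≤
      ENNReal.ofReal (1 + (|lamN N| + 2) * h) := by
    refine hup.trans (ENNReal.ofReal_le_ofReal ?_)
    have e2 := le_abs_self (lamN N)
    nlinarith
  have hfin : ∫⁻ a in gd h, ENNReal.ofReal (psi β h (Real.exp (b h a) * u)) ∂ν +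
      ENNReal.ofReal (h * (2 : ℝ) ^ (-(2 + β)) * u ^ (1 + β)) ≤
      ENNReal.ofReal ((1 + (|lamN N| + 2) * h) * u) := by
    have e1 : ENNReal.ofReal (h * (2 : ℝ) ^ (-(2 + β)) * u ^ (1 + β)) ≤
        ENNReal.ofReal (h * (u / 2) ^ (1 + β)) *
        ∫⁻ a in gd h, ENNReal.ofReal (Real.exp ((1 + β) * b h a)) ∂ν := by
      calc ENNReal.ofReal (h * (2 : ℝ) ^ (-(2 + β)) * u ^ (1 + β))
          = ENNReal.ofReal (h * (u / 2) ^ (1 + β)) * ENNReal.ofReal (1 / 2) := by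
            rw [← ENNReal.ofReal_mul (by positivity)]
            congr 1
            rw [Real.div_rpow hu (by norm_num), show -(2 + β) = -(1 + β) + (-1) by ring,
              Real.rpow_add (by norm_num), Real.rpow_neg (by norm_num) (1 + β), Real.rpow_neg_one]
            ring
        _ ≤ _ := by gcongr
    calc _ ≤ ∫⁻ a in gd h, ENNReal.ofReal (psi β h (Real.exp (b h a) * u)) ∂ν +
          ENNReal.ofReal (h * (u / 2) ^ (1 + β)) *
          ∫⁻ a in gd h, ENNReal.ofReal (Real.exp ((1 + β) * b h a)) ∂ν := by gcongr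
      _ ≤ _ := hint
      _ ≤ ENNReal.ofReal u * ENNReal.ofReal (1 + (|lamN N| + 2) * h) := by gcongr
      _ = _ := by rw [← ENNReal.ofReal_mul hu, mul_comm]
  rw [ENNReal.ofReal_sub _ (by positivity)]
  exact ENNReal.le_sub_of_add_le_right ENNReal.ofReal_ne_top hfin

private theorem Mom2_lconst {Ω0 : Type} [MeasurableSpace Ω0] (μ : Measure Ω0)
    [IsProbabilityMeasure μ] (s : Set Ω0) (c : ℝ≥0∞) : ∫⁻ _ in s, c ∂μ ≤ c := by
  rw [setLIntegral_const]
  exact (mul_le_mul_right prob_le_one _).trans (le_of_eq (mul_one _))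

/-! ### one component of one step -/

private theorem Mom2_comp (N d : ℕ) (β : ℝ) (hβ : 0 < β) : ∃ A c : ℝ, 0 < A ∧ 0 < c ∧
    ∀ (F : Fam d) (k : ℝ) (S : PSys F β k), 0 ≤ k → k ≤ 1 → BNoise N S.ν S.b S.gd →
    ∃ h0 : ℝ, 0 < h0 ∧ ∀ h, 0 < h → h < h0 → h < 1 ∧ h * c * (1 + β) * (3 ^ d * rad β h) ^ β ≤ 1 ∧
    ∀ (L : ℕ) (u : boxS d L → ℝ)
      (u' : (boxS d L → S.Ωp) → boxS d L → ℝ), (∀ w, 0 ≤ u w) → (∀ w, u w ≤ rad β h) →
      (∀ ω, (∀ w, ω w ∈ S.gd h) → ∀ w, u' ω w ≤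
        psi β h (Real.exp (S.b h (ω w)) * u w) + k * h * cpl (boxNet d L) u w) → ∀ x,
      (0 ≤ Yl (boxNet d L) u x + h * (A - c * Yl (boxNet d L) u x ^ (1 + β))) ∧
      ∫⁻ ω in {ω | ∀ x, ω x ∈ S.gd h}, ENNReal.ofReal (Yl (boxNet d L) (u' ω) x) ∂(S.mu L) ≤
        ENNReal.ofReal (Yl (boxNet d L) u x + h * (A - c * Yl (boxNet d L) u x ^ (1 + β))) := by
  classical
  set C2 : ℝ := |lamN N| + 2 + 6 * d with hC2
  set c2 : ℝ := (2 : ℝ) ^ (-(2 + β)) / ((3 : ℝ) ^ d) ^ β with hc2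
  have hC2p : 0 < C2 := by positivity
  have hc2p : 0 < c2 := by positivity
  set M : ℝ := (2 * C2 / c2) ^ (1 / β) with hM
  have hMp : 0 < M := by positivity
  refine ⟨C2 * M, c2 / 2, by positivity, by positivity, fun F k S hk0 hk1 hB => ?_⟩
  obtain ⟨h1, hh1, H1⟩ := Mom2_site N hβ S.ν S.b S.gd S.mb S.mgd hB
  obtain ⟨h2, hh2, H2⟩ := Mom2_small (c2 / 2 * (1 + β) * ((3 : ℝ) ^ d) ^ β) (3 / 4) (by norm_num)
  refine ⟨min (min h1 h2) 1, by positivity, fun h hh hlt => ?_⟩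
  have hl1 : h < h1 := hlt.trans_le ((min_le_left _ _).trans (min_le_left _ _))
  have hl2 : h < h2 := hlt.trans_le ((min_le_left _ _).trans (min_le_right _ _))
  have hl5 : h < 1 := hlt.trans_le (min_le_right _ _)
  obtain ⟨hr0, hr1⟩ := Mom2_rad hβ hh hl5
  have hsm : h * (c2 / 2) * (1 + β) * (3 ^ d * rad β h) ^ β ≤ 1 := by
    rw [Real.mul_rpow (by positivity) hr0]
    calc h * (c2 / 2) * (1 + β) * (((3 : ℝ) ^ d) ^ β * rad β h ^ β)
        = (c2 / 2 * (1 + β) * ((3 : ℝ) ^ d) ^ β) * (h * rad β h ^ β) := by ring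
      _ ≤ (c2 / 2 * (1 + β) * ((3 : ℝ) ^ d) ^ β) * h ^ (3 / 4 : ℝ) :=
          mul_le_mul_of_nonneg_left hr1 (by positivity)
      _ ≤ 1 := H2 h hh hl2
  refine ⟨hl5, hsm, fun L u u' hu0 hur hu' x => ?_⟩
  set net := boxNet d L with hnet
  set Y : ℝ := Yl net u x with hY
  have hY0 : 0 ≤ Y := Mom2_Yl_nonneg net u hu0 x
  have hYR : Y ≤ 3 ^ d * rad β h := Mom2_Yl_le net u _ hr0 hur x
  have hYb : Y ^ (1 + β) = Y * Y ^ β := by
    rcases hY0.lt_or_eq with h0 | h0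
    · rw [Real.rpow_add h0, Real.rpow_one]
    · rw [← h0, Real.zero_rpow (by linarith), zero_mul]
  have hnn : 0 ≤ Y + h * (C2 * M - c2 / 2 * Y ^ (1 + β)) := by
    have e1 : Y ^ β ≤ (3 ^ d * rad β h) ^ β := Real.rpow_le_rpow hY0 hYR hβ.le
    have e2 : h * (c2 / 2) * Y ^ β ≤ 1 := by
      have e3 : 0 ≤ (3 ^ d * rad β h) ^ β := by positivity
      have e4 : h * (c2 / 2) * Y ^ β ≤ h * (c2 / 2) * (3 ^ d * rad β h) ^ β :=
        mul_le_mul_of_nonneg_left e1 (by positivity)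
      have e5 : 0 ≤ h * (c2 / 2) * (3 ^ d * rad β h) ^ β * β := by positivity
      nlinarith
    have e6 : h * (c2 / 2) * Y ^ (1 + β) ≤ Y := by
      rw [hYb]
      calc h * (c2 / 2) * (Y * Y ^ β) = (h * (c2 / 2) * Y ^ β) * Y := by ring
        _ ≤ 1 * Y := mul_le_mul_of_nonneg_right e2 hY0
        _ = Y := one_mul Y
    have e7 : 0 ≤ h * (C2 * M) := by positivity
    nlinarith
  refine ⟨hnn, ?_⟩
  have hcplnn : ∀ w, 0 ≤ cpl net u w := by
    intro w
    unfold cpl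
    exact add_nonneg (Finset.sum_nonneg fun y _ => hu0 y) (mul_nonneg (by positivity) (hu0 w))
  have hmp : ∀ w : boxS d L, Measurable fun ω : boxS d L → S.Ωp =>
      ENNReal.ofReal (psi β h (Real.exp (S.b h (ω w)) * u w)) := by
    intro w
    exact ((psi_continuous hβ hh.le).measurable.comp
      ((Real.measurable_exp.comp ((S.mb h).comp (measurable_pi_apply w))).mul_const
        (u w))).ennreal_ofReal
  have hmgood : MeasurableSet {ω : boxS d L → S.Ωp | ∀ x, ω x ∈ S.gd h} := by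
    have : {ω : boxS d L → S.Ωp | ∀ x, ω x ∈ S.gd h} =
        ⋂ x, (fun ω : boxS d L → S.Ωp => ω x) ⁻¹' (S.gd h) := by
      ext ω; simp
    rw [this]
    exact MeasurableSet.iInter fun x => measurable_pi_apply x (S.mgd h)
  have hsite : ∀ w : boxS d L,
      ∫⁻ ω in {ω : boxS d L → S.Ωp | ∀ x, ω x ∈ S.gd h},
        ENNReal.ofReal (psi β h (Real.exp (S.b h (ω w)) * u w)) ∂(S.mu L) ≤
      ENNReal.ofReal ((1 + (|lamN N| + 2) * h) * u w
          - h * (2 : ℝ) ^ (-(2 + β)) * u w ^ (1 + β)) := by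
    intro w
    have e1 : MeasurePreserving (fun ω : boxS d L → S.Ωp => ω w) (S.mu L) S.ν :=
      measurePreserving_eval (fun _ : boxS d L => S.ν) w
    have hm0 : Measurable fun a => ENNReal.ofReal (psi β h (Real.exp (S.b h a) * u w)) :=
      ((psi_continuous hβ hh.le).measurable.comp
        ((Real.measurable_exp.comp (S.mb h)).mul_const (u w))).ennreal_ofReal
    calc _ ≤ ∫⁻ ω in (fun ω : boxS d L → S.Ωp => ω w) ⁻¹' (S.gd h),
          ENNReal.ofReal (psi β h (Real.exp (S.b h (ω w)) * u w)) ∂(S.mu L) :=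
          lintegral_mono_set (fun ω (hω : ∀ x, ω x ∈ S.gd h) => hω w)
      _ = ∫⁻ a in S.gd h, ENNReal.ofReal (psi β h (Real.exp (S.b h a) * u w)) ∂S.ν :=
          e1.setLIntegral_comp_preimage (S.mgd h) hm0
      _ ≤ _ := (H1 h hh hl1 (u w) (hu0 w) (hur w)).2
  have hp0 : ∀ w, (0 : ℝ) ≤ (1 / 2 : ℝ) ^ net.dist x w := fun w => by positivity
  have hb0 : ∀ w, 0 ≤ (1 + (|lamN N| + 2) * h) * u w
          - h * (2 : ℝ) ^ (-(2 + β)) * u w ^ (1 + β) := fun w =>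
    (H1 h hh hl1 (u w) (hu0 w) (hur w)).1
  calc ∫⁻ ω in {ω | ∀ x, ω x ∈ S.gd h}, ENNReal.ofReal (Yl net (u' ω) x) ∂(S.mu L)
      ≤ ∫⁻ ω in {ω | ∀ x, ω x ∈ S.gd h}, ∑ w, (ENNReal.ofReal ((1 / 2 : ℝ) ^ net.dist x w) *
          ENNReal.ofReal (psi β h (Real.exp (S.b h (ω w)) * u w)) +
          ENNReal.ofReal ((1 / 2 : ℝ) ^ net.dist x w * (k * h * cpl net u w))) ∂(S.mu L) := by
        refine setLIntegral_mono' hmgood fun ω hω => ?_
        have e1 : Yl net (u' ω) x ≤ ∑ w, ((1 / 2 : ℝ) ^ net.dist x w *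
            psi β h (Real.exp (S.b h (ω w)) * u w) +
            (1 / 2 : ℝ) ^ net.dist x w * (k * h * cpl net u w)) := by
          unfold Yl
          refine Finset.sum_le_sum fun w _ => ?_
          rw [← mul_add]
          exact mul_le_mul_of_nonneg_left (hu' ω hω w) (hp0 w)
        refine (ENNReal.ofReal_le_ofReal e1).trans ?_
        rw [ENNReal.ofReal_sum_of_nonneg fun w _ => add_nonneg
          (mul_nonneg (hp0 w) (psi_nonneg _ _ _))
          (mul_nonneg (hp0 w) (mul_nonneg (mul_nonneg hk0 hh.le) (hcplnn w)))]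
        refine Finset.sum_le_sum fun w _ => ?_
        rw [ENNReal.ofReal_add (mul_nonneg (hp0 w) (psi_nonneg _ _ _))
          (mul_nonneg (hp0 w) (mul_nonneg (mul_nonneg hk0 hh.le) (hcplnn w))),
          ENNReal.ofReal_mul (hp0 w)]
    _ = ∑ w, ∫⁻ ω in {ω | ∀ x, ω x ∈ S.gd h}, (ENNReal.ofReal ((1 / 2 : ℝ) ^ net.dist x w) *
          ENNReal.ofReal (psi β h (Real.exp (S.b h (ω w)) * u w)) +
          ENNReal.ofReal ((1 / 2 : ℝ) ^ net.dist x w * (k * h * cpl net u w))) ∂(S.mu L) := by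
        refine lintegral_finsetSum _ fun w _ => ?_
        exact ((hmp w).const_mul _).add_const _
    _ ≤ ∑ w, (ENNReal.ofReal ((1 / 2 : ℝ) ^ net.dist x w) *
          ENNReal.ofReal ((1 + (|lamN N| + 2) * h) * u w
          - h * (2 : ℝ) ^ (-(2 + β)) * u w ^ (1 + β)) +
          ENNReal.ofReal ((1 / 2 : ℝ) ^ net.dist x w * (k * h * cpl net u w))) := by
        refine Finset.sum_le_sum fun w _ => ?_
        rw [lintegral_add_left ((hmp w).const_mul _), lintegral_const_mul _ (hmp w)]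
        exact add_le_add (mul_le_mul_right (hsite w) _) (Mom2_lconst _ _ _)
    _ = ENNReal.ofReal (∑ w, ((1 / 2 : ℝ) ^ net.dist x w * ((1 + (|lamN N| + 2) * h) * u w
          - h * (2 : ℝ) ^ (-(2 + β)) * u w ^ (1 + β)) +
          (1 / 2 : ℝ) ^ net.dist x w * (k * h * cpl net u w))) := by
        rw [ENNReal.ofReal_sum_of_nonneg fun w _ => add_nonneg
          (mul_nonneg (hp0 w) (hb0 w))
          (mul_nonneg (hp0 w) (mul_nonneg (mul_nonneg hk0 hh.le) (hcplnn w)))]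
        refine Finset.sum_congr rfl fun w _ => ?_
        rw [ENNReal.ofReal_add (mul_nonneg (hp0 w) (hb0 w))
          (mul_nonneg (hp0 w) (mul_nonneg (mul_nonneg hk0 hh.le) (hcplnn w))),
          ENNReal.ofReal_mul (hp0 w) (q := (1 + (|lamN N| + 2) * h) * u w
          - h * (2 : ℝ) ^ (-(2 + β)) * u w ^ (1 + β))]
    _ ≤ ENNReal.ofReal (Y + h * (C2 * M - c2 / 2 * Y ^ (1 + β))) := by
        refine ENNReal.ofReal_le_ofReal ?_
        have e1 : ∑ w, ((1 / 2 : ℝ) ^ net.dist x w * ((1 + (|lamN N| + 2) * h) * u w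
            - h * (2 : ℝ) ^ (-(2 + β)) * u w ^ (1 + β)) +
            (1 / 2 : ℝ) ^ net.dist x w * (k * h * cpl net u w)) =
            (1 + (|lamN N| + 2) * h) * Y - h * (2 : ℝ) ^ (-(2 + β)) *
              (∑ w, (1 / 2 : ℝ) ^ net.dist x w * u w ^ (1 + β)) +
            k * h * ∑ w, (1 / 2 : ℝ) ^ net.dist x w * cpl net u w := by
          rw [hY]
          unfold Yl
          rw [Finset.mul_sum, Finset.mul_sum, Finset.mul_sum, ← Finset.sum_sub_distrib,
            ← Finset.sum_add_distrib]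
          exact Finset.sum_congr rfl fun w _ => by ring
        rw [e1]
        have e2 := Mom2_cpl net u hu0 x
        rw [← hY] at e2
        have e3 := Mom2_pow net hβ u hu0 x
        rw [← hY] at e3
        set Q := ∑ w, (1 / 2 : ℝ) ^ net.dist x w * u w ^ (1 + β) with hQ
        set P := ∑ w, (1 / 2 : ℝ) ^ net.dist x w * cpl net u w with hP
        have hP0 : 0 ≤ P := Finset.sum_nonneg fun w _ => mul_nonneg (hp0 w) (hcplnn w)
        have e4 : k * h * P ≤ h * (6 * d * Y) := by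
          calc k * h * P ≤ 1 * h * P := by
                refine mul_le_mul_of_nonneg_right (mul_le_mul_of_nonneg_right hk1 hh.le) hP0
            _ = h * P := by ring
            _ ≤ h * (6 * d * Y) := mul_le_mul_of_nonneg_left e2 hh.le
        have e5 : c2 * Y ^ (1 + β) ≤ (2 : ℝ) ^ (-(2 + β)) * Q := by
          have h3d : (0 : ℝ) < ((3 : ℝ) ^ d) ^ β := by positivity
          calc c2 * Y ^ (1 + β) ≤ c2 * (((3 : ℝ) ^ d) ^ β * Q) :=
                mul_le_mul_of_nonneg_left e3 hc2p.le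
            _ = (2 : ℝ) ^ (-(2 + β)) * Q := by
                rw [hc2]; field_simp
        have e6 : C2 * Y ≤ C2 * M + c2 / 2 * Y ^ (1 + β) := by
          rcases le_or_gt Y M with hle | hgt
          · have : C2 * Y ≤ C2 * M := mul_le_mul_of_nonneg_left hle hC2p.le
            have : 0 ≤ c2 / 2 * Y ^ (1 + β) := by positivity
            linarith
          · have f1 : 2 * C2 / c2 ≤ Y ^ β := by
              have f2 := Real.rpow_le_rpow hMp.le hgt.le hβ.le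
              rw [hM, ← Real.rpow_mul (by positivity), one_div_mul_cancel hβ.ne',
                Real.rpow_one] at f2
              exact f2
            rw [div_le_iff₀ hc2p] at f1
            rw [hYb]
            have f3 := mul_le_mul_of_nonneg_right f1 hY0
            have f4 : 0 ≤ C2 * M := by positivity
            nlinarith
        have e7 := mul_le_mul_of_nonneg_left e5 hh.le
        have e8 := mul_le_mul_of_nonneg_left e6 hh.le
        have e9 : (1 + (|lamN N| + 2) * h) * Y + h * (6 * d * Y) = Y + h * (C2 * Y) := by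
          rw [hC2]; ring
        have e10 : h * (2 : ℝ) ^ (-(2 + β)) * Q = h * ((2 : ℝ) ^ (-(2 + β)) * Q) := by ring
        rw [e10]
        linarith

/-! ### recursion for the mean on the alive event -/

private theorem Mom2_rec {F : Fam d} {β k : ℝ} (hβ : 0 < β) (S : PSys F β k) (h : ℝ) (hh : 0 < h)
    (L : ℕ) (Ψ : (boxS d L → F.V) × (boxS d L → F.V) → ℝ) (hΨ : Measurable Ψ)
    (R A c : ℝ) (hA : 0 ≤ A) (hc : 0 ≤ c) (h0 : ∀ G, 0 ≤ Ψ G)
    (hR : ∀ G : (boxS d L → F.V) × (boxS d L → F.V),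
      (∀ x, ‖G.1 x‖ ≤ rad β h ∧ ‖G.2 x‖ ≤ rad β h) → Ψ G ≤ R)
    (hR0 : 0 ≤ R)
    (hsm : h * c * (1 + β) * R ^ β ≤ 1)
    (hstep : ∀ G : (boxS d L → F.V) × (boxS d L → F.V),
      (∀ x, ‖G.1 x‖ ≤ rad β h ∧ ‖G.2 x‖ ≤ rad β h) →
      ∫⁻ ω in {ω | ∀ x, ω x ∈ S.gd h}, ENNReal.ofReal (Ψ (S.st h L G ω)) ∂(S.mu L) ≤
        ENNReal.ofReal (Ψ G + h * (A - c * Ψ G ^ (1 + β))))
    (G : (boxS d L → F.V) × (boxS d L → F.V)) (n : ℕ) :
    ∃ y : ℕ → ℝ, (∀ n, 0 ≤ y n) ∧ (∀ n, y n ≤ R) ∧ y 0 ≤ Ψ G ∧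
      (∀ n, y (n + 1) ≤ y n + h * (A - c * y n ^ (1 + β))) ∧
      ∀ n, ∫⁻ ω in S.alv h L G n, ENNReal.ofReal (Ψ (S.tr h L G ω n)) ∂(PI (S.mu L)) =
        ENNReal.ofReal (y n) := by
  classical
  set I : ℕ → ℝ≥0∞ := fun n =>
    ∫⁻ ω in S.alv h L G n, ENNReal.ofReal (Ψ (S.tr h L G ω n)) ∂(PI (S.mu L)) with hI
  have hIR : ∀ n, I n ≤ ENNReal.ofReal R := by
    intro n
    calc I n ≤ ∫⁻ ω in S.alv h L G n, ENNReal.ofReal R ∂(PI (S.mu L)) := by
          refine setLIntegral_mono' (measurableSet_alv S h L G n) fun ω hω => ?_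
          exact ENNReal.ofReal_le_ofReal (hR _ (hω.2 n le_rfl))
      _ ≤ ENNReal.ofReal R := by
          exact Mom2_lconst _ _ _
  have hItop : ∀ n, I n ≠ ∞ := fun n => ne_top_of_le_ne_top ENNReal.ofReal_ne_top (hIR n)
  have hIy : ∀ n, I n = ENNReal.ofReal (I n).toReal := fun n =>
    (ENNReal.ofReal_toReal (hItop n)).symm
  have hyR : ∀ n, (I n).toReal ≤ R := fun n => by
    have := ENNReal.toReal_mono ENNReal.ofReal_ne_top (hIR n)
    rwa [ENNReal.toReal_ofReal hR0] at this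
  refine ⟨fun n => (I n).toReal, fun n => ENNReal.toReal_nonneg, hyR, ?_, fun n => ?_, hIy⟩
  · have e1 : I 0 ≤ ENNReal.ofReal (Ψ G) := by
      calc I 0 ≤ ∫⁻ ω in S.alv h L G 0, ENNReal.ofReal (Ψ G) ∂(PI (S.mu L)) := le_of_eq rfl
        _ ≤ ENNReal.ofReal (Ψ G) := by
          exact Mom2_lconst _ _ _
    have := ENNReal.toReal_mono ENNReal.ofReal_ne_top e1
    rwa [ENNReal.toReal_ofReal (h0 G)] at this
  · set t : ℝ := (I n).toReal with ht
    have ht0 : 0 ≤ t := ENNReal.toReal_nonneg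
    have htR : t ≤ R := hyR n
    have hΦ : Measurable fun G' : (boxS d L → F.V) × (boxS d L → F.V) =>
        ENNReal.ofReal (Ψ G') := hΨ.ennreal_ofReal
    have hα : 0 ≤ 1 - h * c * (1 + β) * t ^ β := by
      have e1 : t ^ β ≤ R ^ β := Real.rpow_le_rpow ht0 htR hβ.le
      have e2 : h * c * (1 + β) * t ^ β ≤ h * c * (1 + β) * R ^ β :=
        mul_le_mul_of_nonneg_left e1 (by positivity)
      linarith
    have hγ : 0 ≤ h * A + h * c * β * t ^ (1 + β) := by positivity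
    have hmk := alv_markov S h L (fun G' => ENNReal.ofReal (Ψ G')) hΦ G n 1
    have hinner : ∀ G' : (boxS d L → F.V) × (boxS d L → F.V),
        (∀ x, ‖G'.1 x‖ ≤ rad β h ∧ ‖G'.2 x‖ ≤ rad β h) →
        ∫⁻ ω' in S.alv h L G' 1, ENNReal.ofReal (Ψ (S.tr h L G' ω' 1)) ∂(PI (S.mu L)) ≤
          ENNReal.ofReal (1 - h * c * (1 + β) * t ^ β) * ENNReal.ofReal (Ψ G') +
            ENNReal.ofReal (h * A + h * c * β * t ^ (1 + β)) := by
      intro G' hG'
      have hmgood : MeasurableSet {ω : boxS d L → S.Ωp | ∀ x, ω x ∈ S.gd h} := by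
        have : {ω : boxS d L → S.Ωp | ∀ x, ω x ∈ S.gd h} =
            ⋂ x, (fun ω : boxS d L → S.Ωp => ω x) ⁻¹' (S.gd h) := by
          ext ω; simp
        rw [this]
        exact MeasurableSet.iInter fun x => measurable_pi_apply x (S.mgd h)
      have e1 : MeasurePreserving (fun ω : ℕ → boxS d L → S.Ωp => ω 0) (PI (S.mu L)) (S.mu L) :=
        ⟨measurable_pi_apply 0, map_coord 0⟩
      have hm0 : Measurable fun ω : boxS d L → S.Ωp => ENNReal.ofReal (Ψ (S.st h L G' ω)) :=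
        hΦ.comp ((S.mst h L).comp (measurable_const.prodMk measurable_id))
      calc ∫⁻ ω' in S.alv h L G' 1, ENNReal.ofReal (Ψ (S.tr h L G' ω' 1)) ∂(PI (S.mu L))
          ≤ ∫⁻ ω' in (fun ω : ℕ → boxS d L → S.Ωp => ω 0) ⁻¹' {ω | ∀ x, ω x ∈ S.gd h},
              ENNReal.ofReal (Ψ (S.st h L G' (ω' 0))) ∂(PI (S.mu L)) := by
            refine lintegral_mono_set fun ω hω => ?_
            exact hω.1 0 one_pos
        _ = ∫⁻ ω in {ω | ∀ x, ω x ∈ S.gd h}, ENNReal.ofReal (Ψ (S.st h L G' ω)) ∂(S.mu L) :=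
            e1.setLIntegral_comp_preimage hmgood hm0
        _ ≤ ENNReal.ofReal (Ψ G' + h * (A - c * Ψ G' ^ (1 + β))) := hstep G' hG'
        _ ≤ ENNReal.ofReal ((1 - h * c * (1 + β) * t ^ β) * Ψ G' +
              (h * A + h * c * β * t ^ (1 + β))) := by
            refine ENNReal.ofReal_le_ofReal ?_
            have e2 := Mom2_tan hβ (h0 G') ht0
            have e3 := mul_le_mul_of_nonneg_left e2 (mul_nonneg hh.le hc)
            nlinarith
        _ = _ := by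
            rw [ENNReal.ofReal_add (mul_nonneg hα (h0 G')) hγ, ENNReal.ofReal_mul hα]
    have e5 : I (n + 1) ≤ ENNReal.ofReal (t + h * (A - c * t ^ (1 + β))) := by
      calc I (n + 1) = ∫⁻ ω in S.alv h L G n, (∫⁻ ω' in S.alv h L (S.tr h L G ω n) 1,
              ENNReal.ofReal (Ψ (S.tr h L (S.tr h L G ω n) ω' 1)) ∂(PI (S.mu L)))
                ∂(PI (S.mu L)) := hmk
        _ ≤ ∫⁻ ω in S.alv h L G n, (ENNReal.ofReal (1 - h * c * (1 + β) * t ^ β) *
              ENNReal.ofReal (Ψ (S.tr h L G ω n)) +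
              ENNReal.ofReal (h * A + h * c * β * t ^ (1 + β))) ∂(PI (S.mu L)) := by
            refine setLIntegral_mono' (measurableSet_alv S h L G n) fun ω hω => ?_
            exact hinner _ (hω.2 n le_rfl)
        _ ≤ ENNReal.ofReal (1 - h * c * (1 + β) * t ^ β) * I n +
              ENNReal.ofReal (h * A + h * c * β * t ^ (1 + β)) := by
            have hmt : Measurable fun ω : ℕ → boxS d L → S.Ωp =>
                ENNReal.ofReal (Ψ (S.tr h L G ω n)) :=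
              hΦ.comp ((measurable_tr S h L n).comp (measurable_const.prodMk measurable_id))
            rw [lintegral_add_left (hmt.const_mul _), lintegral_const_mul _ hmt]
            exact add_le_add le_rfl (Mom2_lconst _ _ _)
        _ = ENNReal.ofReal ((1 - h * c * (1 + β) * t ^ β) * t +
              (h * A + h * c * β * t ^ (1 + β))) := by
            rw [hIy n, ← ht, ← ENNReal.ofReal_mul hα, ← ENNReal.ofReal_add
              (mul_nonneg hα ht0) hγ]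
        _ = _ := by
            congr 1
            have e6 : t ^ (1 + β) = t * t ^ β := by
              rcases ht0.lt_or_eq with h0 | h0
              · rw [Real.rpow_add h0, Real.rpow_one]
              · rw [← h0, Real.zero_rpow (by linarith), zero_mul]
            rw [e6]; ring
    have e7 : 0 ≤ t + h * (A - c * t ^ (1 + β)) := by
      have e6 : t ^ (1 + β) = t * t ^ β := by
        rcases ht0.lt_or_eq with h0 | h0
        · rw [Real.rpow_add h0, Real.rpow_one]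
        · rw [← h0, Real.zero_rpow (by linarith), zero_mul]
      have e8 : 0 ≤ (1 - h * c * (1 + β) * t ^ β) * t := mul_nonneg hα ht0
      have e9 : 0 ≤ h * c * β * (t * t ^ β) := by positivity
      have e10 : 0 ≤ h * A := by positivity
      rw [e6]
      nlinarith
    have e11 := ENNReal.toReal_mono ENNReal.ofReal_ne_top e5
    rwa [ENNReal.toReal_ofReal e7] at e11

/-! ### the recursion in real numbers -/

private theorem Mom2_detb {β A c h : ℝ} (hβ : 0 < β) (hA : 0 < A) (hc : 0 < c) (hh : 0 < h)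
    {y y' : ℝ} (hrec : y' ≤ y + h * (A - c * y ^ (1 + β)))
    (hy : (2 * A / c) ^ (1 / (1 + β)) ≤ y) : y' ≤ y - h * (c / 2) * y ^ (1 + β) := by
  have hb : (0 : ℝ) < 1 + β := by linarith
  have h1 := Real.rpow_le_rpow (by positivity) hy hb.le
  rw [← Real.rpow_mul (by positivity), one_div_mul_cancel hb.ne', Real.rpow_one,
    div_le_iff₀ hc] at h1
  have h2 : h * A ≤ h * (c / 2 * y ^ (1 + β)) := mul_le_mul_of_nonneg_left (by linarith) hh.le
  nlinarith

private theorem Mom2_deta {β A c h : ℝ} (hβ : 0 < β) (hA : 0 < A) (hc : 0 < c) (hh : 0 < h)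
    (y : ℕ → ℝ) (hy0 : ∀ n, 0 ≤ y n)
    (hrec : ∀ n, y (n + 1) ≤ y n + h * (A - c * y n ^ (1 + β))) (B : ℝ)
    (hB : (2 * A / c) ^ (1 / (1 + β)) + A * h ≤ B) (j : ℕ) (hj : y j ≤ B) (m : ℕ) :
    y (j + m) ≤ B := by
  induction m with
  | zero => exact hj
  | succ m ih =>
    rcases le_or_gt ((2 * A / c) ^ (1 / (1 + β))) (y (j + m)) with h1 | h1
    · have h2 := Mom2_detb hβ hA hc hh (hrec (j + m)) h1
      have h3 : 0 ≤ h * (c / 2) * y (j + m) ^ (1 + β) := by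
        have := Real.rpow_nonneg (hy0 (j + m)) (1 + β)
        positivity
      show y (j + m + 1) ≤ B
      linarith
    · have h2 := hrec (j + m)
      have h3 : 0 ≤ c * y (j + m) ^ (1 + β) := by
        have := Real.rpow_nonneg (hy0 (j + m)) (1 + β)
        positivity
      show y (j + m + 1) ≤ B
      nlinarith

private theorem Mom2_detc {β A c h R : ℝ} (hβ : 0 < β) (hA : 0 < A) (hc : 0 < c) (hh : 0 < h)
    (hh1 : h < 1)
    (y : ℕ → ℝ) (hy0 : ∀ n, 0 ≤ y n) (hyR : ∀ n, y n ≤ R) (hsm : h * c * (1 + β) * R ^ β ≤ 1)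
    (hrec : ∀ n, y (n + 1) ≤ y n + h * (A - c * y n ^ (1 + β))) (n : ℕ) (hn : 1 ≤ n * h) :
    y n ≤ (2 / (β * c)) ^ (1 / β) + ((2 * A / c) ^ (1 / (1 + β)) + A) := by
  have hK : 0 < (2 / (β * c)) ^ (1 / β) := by positivity
  have hCs : 0 < (2 * A / c) ^ (1 / (1 + β)) := by positivity
  have hAh : A * h ≤ A := by nlinarith
  by_cases hex : ∃ j, j ≤ n ∧ y j ≤ (2 * A / c) ^ (1 / (1 + β)) + A
  · obtain ⟨j, hjn, hj⟩ := hex
    have h1 := Mom2_deta hβ hA hc hh y hy0 hrec ((2 * A / c) ^ (1 / (1 + β)) + A)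
      (by linarith) j hj (n - j)
    rw [Nat.add_sub_cancel' hjn] at h1
    linarith
  · push Not at hex
    have hbig : ∀ j, j ≤ n → (2 * A / c) ^ (1 / (1 + β)) ≤ y j := fun j hj => by
      have := hex j hj
      linarith
    have hW : ∀ m, m ≤ n → (m : ℝ) * (β * h * c / 2) * y m ^ β ≤ 1 := by
      intro m
      induction m with
      | zero => intro _; simp
      | succ m ih =>
        intro hm
        have ih' := ih (by omega)
        have hym : 0 < y m := hCs.trans_le (hbig m (by omega))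
        have h1 := Mom2_detb hβ hA hc hh (hrec m) (hbig m (by omega))
        have hyb : y m ^ (1 + β) = y m * y m ^ β := by rw [Real.rpow_add hym, Real.rpow_one]
        set W := y m ^ β with hWdef
        have hW0 : 0 < W := Real.rpow_pos_of_pos hym β
        set s := h * (c / 2) * W with hs
        have hs0 : 0 < s := by positivity
        have hs1 : s ≤ 1 := by
          have e1 : W ≤ R ^ β := Real.rpow_le_rpow hym.le (hyR m) hβ.le
          have e2 : h * c * (1 + β) * W ≤ 1 :=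
            (mul_le_mul_of_nonneg_left e1 (by positivity)).trans hsm
          have e3 : 0 < h * c * β * W := by positivity
          rw [hs]
          nlinarith
        have h2 : y (m + 1) ≤ y m * (1 - s) := by
          rw [hyb] at h1
          refine h1.trans (le_of_eq ?_)
          rw [hs]; ring
        have h3 : (1 - s) ^ β ≤ 1 / (1 + β * s) := by
          have e1 : 1 - s ≤ Real.exp (-s) := by
            have := Real.add_one_le_exp (-s)
            linarith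
          have e2 : (1 - s) ^ β ≤ Real.exp (-s) ^ β :=
            Real.rpow_le_rpow (by linarith) e1 hβ.le
          rw [← Real.exp_mul] at e2
          have e3 : Real.exp (-s * β) ≤ 1 / (1 + β * s) := by
            rw [show -s * β = -(β * s) by ring, Real.exp_neg, ← one_div]
            refine one_div_le_one_div_of_le (by positivity) ?_
            have := Real.add_one_le_exp (β * s)
            linarith
          exact e2.trans e3
        have h4 : y (m + 1) ^ β ≤ W * (1 / (1 + β * s)) := by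
          have e1 := Real.rpow_le_rpow (hy0 (m + 1)) h2 hβ.le
          rw [Real.mul_rpow hym.le (by linarith)] at e1
          exact e1.trans (mul_le_mul_of_nonneg_left h3 hW0.le)
        have h5 : ((m + 1 : ℕ) : ℝ) * (β * h * c / 2) * y (m + 1) ^ β ≤
            ((m + 1 : ℕ) : ℝ) * (β * h * c / 2) * (W * (1 / (1 + β * s))) :=
          mul_le_mul_of_nonneg_left h4 (by positivity)
        refine h5.trans ?_
        have h6 : ((m + 1 : ℕ) : ℝ) * (β * h * c / 2) * (W * (1 / (1 + β * s))) =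
            (((m : ℝ) + 1) * (β * h * c / 2) * W) / (1 + β * s) := by
          push_cast
          ring
        rw [h6, div_le_one (by positivity)]
        have h7 : β * s = β * h * c / 2 * W := by rw [hs]; ring
        rw [h7]
        nlinarith
    have h1 := hW n le_rfl
    have hyn : 0 < y n := hCs.trans_le (hbig n le_rfl)
    have h2 : β * c / 2 * y n ^ β ≤ 1 := by
      have e1 : 0 ≤ β * c / 2 * y n ^ β := by positivity
      calc β * c / 2 * y n ^ β = 1 * (β * c / 2 * y n ^ β) := (one_mul _).symm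
        _ ≤ (n * h) * (β * c / 2 * y n ^ β) := mul_le_mul_of_nonneg_right hn e1
        _ = (n : ℝ) * (β * h * c / 2) * y n ^ β := by ring
        _ ≤ 1 := h1
    have h3 : y n ^ β ≤ 2 / (β * c) := by
      rw [le_div_iff₀ (by positivity)]
      nlinarith
    have h4 := Real.rpow_le_rpow (by positivity) h3 (show (0 : ℝ) ≤ 1 / β by positivity)
    rw [← Real.rpow_mul hyn.le, mul_one_div_cancel hβ.ne', Real.rpow_one] at h4
    linarith

/-! ### the statements -/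

private theorem Mom2_alv_empty {F : Fam d} {β k : ℝ} (S : PSys F β k) (h : ℝ) (L : ℕ)
    (G : (boxS d L → F.V) × (boxS d L → F.V))
    (hG : ¬ ∀ x, ‖G.1 x‖ ≤ rad β h ∧ ‖G.2 x‖ ≤ rad β h) (n : ℕ) : S.alv h L G n = ∅ := by
  rw [Set.eq_empty_iff_forall_notMem]
  intro ω hω
  exact hG (hω.2 0 (Nat.zero_le n))

private theorem Mom2_meas1 (F : Fam d) (L : ℕ) (x : boxS d L) :
    Measurable fun G : (boxS d L → F.V) × (boxS d L → F.V) => Yl (boxNet d L) (nrm G.1) x := by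
  unfold Yl nrm
  refine Finset.measurable_sum _ fun w _ => ?_
  exact (((measurable_pi_apply w).comp measurable_fst).norm).const_mul _

private theorem Mom2_meas2 (F : Fam d) (L : ℕ) (x : boxS d L) :
    Measurable fun G : (boxS d L → F.V) × (boxS d L → F.V) => Yl (boxNet d L) (nrm G.2) x := by
  unfold Yl nrm
  refine Finset.measurable_sum _ fun w _ => ?_
  exact (((measurable_pi_apply w).comp measurable_snd).norm).const_mul _

private theorem Mom2_both (N d : ℕ) (β : ℝ) (hβ : 0 < β) : ∃ A c : ℝ, 0 < A ∧ 0 < c ∧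
    ∀ (F : Fam d) (k : ℝ) (S : PSys F β k), 0 ≤ k → k ≤ 1 → BNoise N S.ν S.b S.gd →
    ∃ h0 : ℝ, 0 < h0 ∧ ∀ h, 0 < h → h < h0 → h < 1 ∧
    0 ≤ 3 ^ d * rad β h ∧ h * c * (1 + β) * (3 ^ d * rad β h) ^ β ≤ 1 ∧
    ∀ (L : ℕ) (G : (boxS d L → F.V) × (boxS d L → F.V)),
      (∀ x, ‖G.1 x‖ ≤ rad β h ∧ ‖G.2 x‖ ≤ rad β h) → ∀ x,
      (0 ≤ Yl (boxNet d L) (nrm G.1) x + h * (A - c * Yl (boxNet d L) (nrm G.1) x ^ (1 + β))) ∧
      ∫⁻ ω in {ω | ∀ x, ω x ∈ S.gd h}, ENNReal.ofReal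
          (Yl (boxNet d L) (nrm (S.st h L G ω).1) x) ∂(S.mu L) ≤
        ENNReal.ofReal (Yl (boxNet d L) (nrm G.1) x +
          h * (A - c * Yl (boxNet d L) (nrm G.1) x ^ (1 + β))) ∧
      ∫⁻ ω in {ω | ∀ x, ω x ∈ S.gd h}, ENNReal.ofReal
          (Yl (boxNet d L) (nrm (S.st h L G ω).2) x) ∂(S.mu L) ≤
        ENNReal.ofReal (Yl (boxNet d L) (nrm G.2) x +
          h * (A - c * Yl (boxNet d L) (nrm G.2) x ^ (1 + β))) := by
  obtain ⟨A, c, hA, hc, H⟩ := Mom2_comp N d β hβ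
  refine ⟨A, c, hA, hc, fun F k S hk0 hk1 hB => ?_⟩
  obtain ⟨h0, hh0, H0⟩ := H F k S hk0 hk1 hB
  refine ⟨h0, hh0, fun h hh hlt => ?_⟩
  obtain ⟨hl1, hsm, H1⟩ := H0 h hh hlt
  refine ⟨hl1, mul_nonneg (by positivity) (Mom2_rad hβ hh hl1).1, hsm, fun L G hG x => ?_⟩
  have h1 := H1 L (nrm G.1) (fun ω => nrm (S.st h L G ω).1) (fun w => norm_nonneg _)
    (fun w => (hG w).1) (fun ω hω w => (S.q1 h L G ω hh hω).up w) x
  have h2 := H1 L (nrm G.2) (fun ω => nrm (S.st h L G ω).2) (fun w => norm_nonneg _)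
    (fun w => (hG w).2) (fun ω hω w => (S.q2 h L G ω hh hω).up w) x
  exact ⟨h1.1, h1.2, h2.2⟩


theorem mom_step (N d : ℕ) (β : ℝ) (hβ : 0 < β) : ∃ A c : ℝ, 0 < A ∧ 0 < c ∧
    ∀ (F : Fam d) (k : ℝ) (S : PSys F β k), 0 ≤ k → k ≤ 1 → BNoise N S.ν S.b S.gd →
    ∃ h0 : ℝ, 0 < h0 ∧ ∀ h, 0 < h → h < h0 → ∀ (L : ℕ) (G : (boxS d L → F.V) × (boxS d L → F.V)),
      (∀ x, ‖G.1 x‖ ≤ rad β h ∧ ‖G.2 x‖ ≤ rad β h) → ∀ x,
      (0 ≤ Yl (boxNet d L) (nrm G.1) x + h * (A - c * Yl (boxNet d L) (nrm G.1) x ^ (1 + β))) ∧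
      ∫⁻ ω in {ω | ∀ x, ω x ∈ S.gd h}, ENNReal.ofReal
          (Yl (boxNet d L) (nrm (S.st h L G ω).1) x) ∂(S.mu L) ≤
        ENNReal.ofReal (Yl (boxNet d L) (nrm G.1) x +
          h * (A - c * Yl (boxNet d L) (nrm G.1) x ^ (1 + β))) ∧
      ∫⁻ ω in {ω | ∀ x, ω x ∈ S.gd h}, ENNReal.ofReal
          (Yl (boxNet d L) (nrm (S.st h L G ω).2) x) ∂(S.mu L) ≤
        ENNReal.ofReal (Yl (boxNet d L) (nrm G.2) x +
          h * (A - c * Yl (boxNet d L) (nrm G.2) x ^ (1 + β))) := by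
  obtain ⟨A, c, hA, hc, H⟩ := Mom2_both N d β hβ
  refine ⟨A, c, hA, hc, fun F k S hk0 hk1 hB => ?_⟩
  obtain ⟨h0, hh0, H0⟩ := H F k S hk0 hk1 hB
  exact ⟨h0, hh0, fun h hh hlt => (H0 h hh hlt).2.2.2⟩

/-- after real time one the local sums have bounded mean, whatever the start -/
theorem mom_cap (N d : ℕ) (β : ℝ) (hβ : 0 < β) : ∃ C : ℝ, 0 < C ∧
    ∀ (F : Fam d) (k : ℝ) (S : PSys F β k), 0 ≤ k → k ≤ 1 → BNoise N S.ν S.b S.gd →
    ∀ L : ℕ, ∃ h0 : ℝ, 0 < h0 ∧ ∀ h, 0 < h → h < h0 →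
    ∀ (G : (boxS d L → F.V) × (boxS d L → F.V)) (n : ℕ), 1 ≤ n * h → ∀ x,
      ∫⁻ ω in S.alv h L G n, ENNReal.ofReal (Yl (boxNet d L) (nrm (S.tr h L G ω n).1) x +
          Yl (boxNet d L) (nrm (S.tr h L G ω n).2) x) ∂(PI (S.mu L)) ≤ ENNReal.ofReal C := by
  obtain ⟨A, c, hA, hc, H⟩ := Mom2_both N d β hβ
  refine ⟨2 * ((2 / (β * c)) ^ (1 / β) + ((2 * A / c) ^ (1 / (1 + β)) + A)), by positivity,
    fun F k S hk0 hk1 hB L => ?_⟩
  obtain ⟨h0, hh0, H0⟩ := H F k S hk0 hk1 hB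
  refine ⟨h0, hh0, fun h hh hlt G n hn x => ?_⟩
  obtain ⟨hl1, hR0, hsm, H1⟩ := H0 h hh hlt
  by_cases hG : ∀ x, ‖G.1 x‖ ≤ rad β h ∧ ‖G.2 x‖ ≤ rad β h
  swap
  · rw [Mom2_alv_empty S h L G hG n, Measure.restrict_empty, lintegral_zero_measure]
    exact bot_le
  have hr0 : 0 ≤ rad β h := (Mom2_rad hβ hh hl1).1
  obtain ⟨y1, hy10, hy1R, -, hrec1, hI1⟩ := Mom2_rec hβ S h hh L
    (fun G => Yl (boxNet d L) (nrm G.1) x) (Mom2_meas1 F L x) (3 ^ d * rad β h) A c hA.le hc.le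
    (fun G => Mom2_Yl_nonneg _ _ (fun w => norm_nonneg _) x)
    (fun G hG => Mom2_Yl_le _ _ _ hr0 (fun w => (hG w).1) x) hR0 hsm
    (fun G hG => (H1 L G hG x).2.1) G n
  obtain ⟨y2, hy20, hy2R, -, hrec2, hI2⟩ := Mom2_rec hβ S h hh L
    (fun G => Yl (boxNet d L) (nrm G.2) x) (Mom2_meas2 F L x) (3 ^ d * rad β h) A c hA.le hc.le
    (fun G => Mom2_Yl_nonneg _ _ (fun w => norm_nonneg _) x)
    (fun G hG => Mom2_Yl_le _ _ _ hr0 (fun w => (hG w).2) x) hR0 hsm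
    (fun G hG => (H1 L G hG x).2.2) G n
  have e1 := Mom2_detc hβ hA hc hh hl1 y1 hy10 hy1R hsm hrec1 n hn
  have e2 := Mom2_detc hβ hA hc hh hl1 y2 hy20 hy2R hsm hrec2 n hn
  have hm1 : Measurable fun ω : ℕ → boxS d L → S.Ωp =>
      ENNReal.ofReal (Yl (boxNet d L) (nrm (S.tr h L G ω n).1) x) :=
    ((Mom2_meas1 F L x).comp
      ((measurable_tr S h L n).comp (measurable_const.prodMk measurable_id))).ennreal_ofReal
  calc ∫⁻ ω in S.alv h L G n, ENNReal.ofReal (Yl (boxNet d L) (nrm (S.tr h L G ω n).1) x +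
          Yl (boxNet d L) (nrm (S.tr h L G ω n).2) x) ∂(PI (S.mu L))
      = ∫⁻ ω in S.alv h L G n, (ENNReal.ofReal (Yl (boxNet d L) (nrm (S.tr h L G ω n).1) x) +
          ENNReal.ofReal (Yl (boxNet d L) (nrm (S.tr h L G ω n).2) x)) ∂(PI (S.mu L)) := by
        refine lintegral_congr fun ω => ?_
        exact ENNReal.ofReal_add (Mom2_Yl_nonneg _ _ (fun w => norm_nonneg _) x)
          (Mom2_Yl_nonneg _ _ (fun w => norm_nonneg _) x)
    _ = ENNReal.ofReal (y1 n) + ENNReal.ofReal (y2 n) := by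
        rw [lintegral_add_left hm1, hI1 n, hI2 n]
    _ = ENNReal.ofReal (y1 n + y2 n) := (ENNReal.ofReal_add (hy10 n) (hy20 n)).symm
    _ ≤ _ := ENNReal.ofReal_le_ofReal (by linarith)

theorem mom_unif (N d : ℕ) (β : ℝ) (hβ : 0 < β) : ∃ C : ℝ, 0 < C ∧
    ∀ (F : Fam d) (k : ℝ) (S : PSys F β k), 0 ≤ k → k ≤ 1 → BNoise N S.ν S.b S.gd → MomU S C := by
  obtain ⟨A, c, hA, hc, H⟩ := Mom2_both N d β hβ
  refine ⟨1 + ((2 * A / c) ^ (1 / (1 + β)) + A), by positivity,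
    fun F k S hk0 hk1 hB L => ?_⟩
  obtain ⟨h0, hh0, H0⟩ := H F k S hk0 hk1 hB
  refine ⟨h0, hh0, fun h hh hlt G n x => ?_⟩
  obtain ⟨hl1, hR0, hsm, H1⟩ := H0 h hh hlt
  by_cases hG : ∀ x, ‖G.1 x‖ ≤ rad β h ∧ ‖G.2 x‖ ≤ rad β h
  swap
  · rw [Mom2_alv_empty S h L G hG n, Measure.restrict_empty, lintegral_zero_measure]
    exact bot_le
  have hr0 : 0 ≤ rad β h := (Mom2_rad hβ hh hl1).1
  obtain ⟨y1, hy10, hy1R, hy1i, hrec1, hI1⟩ := Mom2_rec hβ S h hh L
    (fun G => Yl (boxNet d L) (nrm G.1) x) (Mom2_meas1 F L x) (3 ^ d * rad β h) A c hA.le hc.le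
    (fun G => Mom2_Yl_nonneg _ _ (fun w => norm_nonneg _) x)
    (fun G hG => Mom2_Yl_le _ _ _ hr0 (fun w => (hG w).1) x) hR0 hsm
    (fun G hG => (H1 L G hG x).2.1) G n
  rw [hI1 n]
  refine ENNReal.ofReal_le_ofReal ?_
  have hY0 : 0 ≤ Yl (boxNet d L) (nrm G.1) x := Mom2_Yl_nonneg _ _ (fun w => norm_nonneg _) x
  have hCs : 0 < (2 * A / c) ^ (1 / (1 + β)) := by positivity
  have hAh : A * h ≤ A := by nlinarith
  have e1 := Mom2_deta hβ hA hc hh y1 hy10 hrec1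
    (Yl (boxNet d L) (nrm G.1) x + ((2 * A / c) ^ (1 / (1 + β)) + A)) (by linarith) 0
    (by linarith) n
  rw [Nat.zero_add] at e1
  have e2 : 0 ≤ ((2 * A / c) ^ (1 / (1 + β)) + A) * Yl (boxNet d L) (nrm G.1) x := by positivity
  nlinarith

end DynC

end

/-! ### from `Lib_MP_36b788c.Sm2` -/

section

/-!
# The potential: one step

`untame G x`: every maximizer `z` of `Tz` has `SSt(z) ≥ 2`.

PROOF of `sm_step` (first component; the second is symmetric). `u = ‖G.1‖`, `t = ‖G.1‖ + ‖G.2‖`, `z` a maximizer for `x` (in the untame case with `SSt(z) ≥ 2`), `v = u z`. If `v = 0` then all `u = 0`, `V1 = ∞`, nothing to prove (the factor is positive). Otherwise, on good noise `|b| ≤ 2h^{3/8}`: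
(1) `u⁺(z) ≥ ψ(e^b v) - k h cpl u z ≥ v e^b (1 - h (e^b v)^β) - h v (2d k^{1/2} 2^q + 2d k)` (`psi_lower`, `nb_small`), so `u⁺(z) ≥ v e^{b - r}`, `r = h (Cr v^β + k^{1/4})`, `Cr = 4·2^β` (`h(2 rad)^β` is small, `k` small).
(2) `fpot_inc`: `T⁺/T ≥ exp(g'(b-r) - 4(b-r)²/ell) (S⁺/S)^{-q}`, `g' = gX'(log v/ell)`, `S = SSt(z)`. So `V⁺ ≤ V exp(-s g'(b-r) + 4 s (b-r)²/ell) (S⁺/S)^{qs}`; Cauchy-Schwarz over the good noise.
(3) `E exp(-2s g' b + 2s g' r + 8s(b-r)²/ell) ≤ exp((4 s² + C s/ell) h + 3 s g' r)`: `(b-r)² ≤ 2b²+2r²`, `b² ≤ e^b + e^{-b} - 2`, `BNoise.mgf` with `rm = 2` (and for `N ≥ 3` the term `-2 s g' lamN ≤ 0`), the error `ε` of `mgf` is taken `≤ s/ell`.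
    `g' r ≤ h/ell` if `log v/ell ≤ -1/8` (`v^β ≤ k^{β/8}`), `g' = 0` on `(-1/8,1/16]`, and for `v > k^{-1/16}`: `g' r = r ≤ 2 Cr h v^β`.
(4) `E SSt⁺(z)`: `E_{gd} t⁺(w) ≤ t(w)(1+Ch) - h c (u^{1+β} + u'^{1+β}) + k h cpl t w`, `u^{1+β}+u'^{1+β} ≥ 2^{-β} t^{1+β}`; with `Σt = Σ_w 2^{-|z-w|} t(w)`: `E S⁺ ≤ S + h k^{1/16}(A - c' Σt^{1+β})`. If `v ≥ k^{-1/16}` or `S ≥ 2`: `Σt ≥ max(v, k^{-1/16})`, `S ≤ 2 k^{1/16} Σt`, so
    `E S⁺/S ≤ 1 + h k^{1/16} A - h (c'/2) Σt^β`. Jensen (`2qs ≤ 1`): `E (S⁺/S)^{2qs} ≤ exp(2qs(h k^{1/16} A - h (c'/2) Σt^β))`.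
(5) Product of the square roots; `q c' ≥ 16 Cr` gives `3 s Cr h v^β ≤ (1/2) q s h (c'/2) Σt^β`, and in the untame case the remaining half `q s h (c'/4) k^{-β/16}` gives the strong decay, which dominates all other terms for small `k`.
-/

open MeasureTheory ProbabilityTheory
open scoped ENNReal

namespace DynC

open Dyn

variable {d : ℕ}

/-- every maximizer for `x` has `SSt ≥ 2` -/
def untame {V : Type} [NormedAddCommGroup V] {L : ℕ} (k q : ℝ) (u t : boxS d L → ℝ)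
    (x : boxS d L) : Prop :=
  ∀ z, (∀ y, Tz (boxNet d L) k q u t x y ≤ Tz (boxNet d L) k q u t x z) →
    2 ≤ SSt (boxNet d L) k t z


private theorem Sm2_exp2 {y : ℝ} (h0 : 0 ≤ y) (h1 : y ≤ 1 / 2) : Real.exp (-(2 * y)) ≤ 1 - y := by
  have h2 : 1 + 2 * y ≤ Real.exp (2 * y) := by
    have := Real.add_one_le_exp (2 * y)
    linarith
  rw [Real.exp_neg]
  have h3 : 0 < 1 - y := by linarith
  rw [inv_le_comm₀ (Real.exp_pos _) h3]
  refine le_trans ?_ h2
  rw [inv_le_iff_one_le_mul₀ h3]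
  nlinarith

private theorem Sm2_log2 {b : ℝ} (hb : |b| ≤ Real.log 2) :
    Real.exp b ≤ 2 ∧ 1 ≤ 2 * Real.exp b := by
  have h1 := abs_le.1 hb
  constructor
  · calc Real.exp b ≤ Real.exp (Real.log 2) := Real.exp_le_exp.2 h1.2
      _ = 2 := Real.exp_log two_pos
  · have h2 : Real.exp (-Real.log 2) ≤ Real.exp b := Real.exp_le_exp.2 h1.1
    rw [Real.exp_neg, Real.exp_log two_pos] at h2
    linarith

private theorem Sm2_low {ι : Type} [Fintype ι] {d : ℕ} (net : Net ι d) {β h k q : ℝ} (hβ : 0 < β)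
    (hh : 0 < h) (hh1 : h < 1) (hk : 0 < k) (hk1 : k < 1) (hq : 0 ≤ q)
    (hkq : 4 * d * (2 ^ q * k ^ (1 / 4 : ℝ) + k ^ (3 / 4 : ℝ)) ≤ 1 / 2)
    (hhs : 2 ^ β * h ^ (3 / 4 : ℝ) + h / 2 ≤ 1 / 2)
    (b u u' t : ι → ℝ) (Q : QStep net β h k b u u')
    (hu : ∀ x, u x ≤ rad β h) (ht : ∀ x, 0 ≤ t x) (x z : ι)
    (hz : ∀ y, Tz net k q u t x y ≤ Tz net k q u t x z) (hb : |b z| ≤ Real.log 2) :
    u z * Real.exp (b z - h * (2 * 2 ^ β * u z ^ β + k ^ (1 / 4 : ℝ))) ≤ u' z := by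
  obtain ⟨he1, he2⟩ := Sm2_log2 hb
  have he0 := Real.exp_pos (b z)
  have hv : 0 ≤ u z := Q.n0 z
  have h2β : (0 : ℝ) < 2 ^ β := Real.rpow_pos_of_pos two_pos _
  have h2q : (0 : ℝ) < 2 ^ q := Real.rpow_pos_of_pos two_pos _
  have hk4 : (0 : ℝ) < k ^ (1 / 4 : ℝ) := Real.rpow_pos_of_pos hk _
  have hk34 : (0 : ℝ) < k ^ (3 / 4 : ℝ) := Real.rpow_pos_of_pos hk _
  have hk41 : k ^ (1 / 4 : ℝ) ≤ 1 := Real.rpow_le_one hk.le hk1.le (by norm_num)
  have e1 : k ^ (1 / 2 : ℝ) = k ^ (1 / 4 : ℝ) * k ^ (1 / 4 : ℝ) := by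
    rw [← Real.rpow_add hk]; norm_num
  have e2 : k = k ^ (1 / 4 : ℝ) * k ^ (3 / 4 : ℝ) := by
    rw [← Real.rpow_add hk]; norm_num
  -- interaction
  have hcpl : k * cpl net u z ≤ u z * k ^ (1 / 4 : ℝ) / 4 := by
    have h1 : ∑ y ∈ net.nb z, k * u y ≤ ∑ _y ∈ net.nb z, k ^ (1 / 2 : ℝ) * 2 ^ q * u z :=
      Finset.sum_le_sum fun y hy => nb_small net hk hk1 hq u t Q.n0 ht x z hz y hy
    rw [Finset.sum_const, nsmul_eq_mul] at h1
    have h2 : ((net.nb z).card : ℝ) ≤ 2 * d := by exact_mod_cast net.nb_card z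
    have h3 : ((net.nb z).card : ℝ) * (k ^ (1 / 2 : ℝ) * 2 ^ q * u z) ≤
        2 * d * (k ^ (1 / 2 : ℝ) * 2 ^ q * u z) := by
      refine mul_le_mul_of_nonneg_right h2 ?_
      rw [e1]
      positivity
    have h4 : k * cpl net u z = ∑ y ∈ net.nb z, k * u y + k * (2 * d * u z) := by
      unfold cpl
      rw [mul_add, Finset.mul_sum]
      push_cast
      ring
    rw [h4]
    have h5 : k * (2 * d * u z) = k ^ (1 / 4 : ℝ) * k ^ (3 / 4 : ℝ) * (2 * d * u z) := by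
      rw [← e2]
    rw [h5]
    rw [e1] at h1 h3
    have h6 : u z * k ^ (1 / 4 : ℝ) * (4 * d * (2 ^ q * k ^ (1 / 4 : ℝ) + k ^ (3 / 4 : ℝ))) ≤
        u z * k ^ (1 / 4 : ℝ) * (1 / 2) := mul_le_mul_of_nonneg_left hkq (by positivity)
    nlinarith
  have hrf := rad_facts hβ hh hh1 hv (hu z)
  -- damping
  have hpsi := psi_lower hβ hh.le (v := Real.exp (b z) * u z) (by positivity)
  have h7 : (Real.exp (b z) * u z) ^ β ≤ 2 ^ β * u z ^ β := by
    rw [Real.mul_rpow he0.le hv]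
    exact mul_le_mul_of_nonneg_right (Real.rpow_le_rpow he0.le he1 hβ.le)
      (Real.rpow_nonneg hv _)
  have hub : 0 ≤ u z ^ β := Real.rpow_nonneg hv _
  have hlo := Q.lo z
  set y : ℝ := h * (2 ^ β * u z ^ β + k ^ (1 / 4 : ℝ) / 2) with hy
  have hy0 : 0 ≤ y := by positivity
  have hy1 : y ≤ 1 / 2 := by
    have h8 : 2 ^ β * (h * u z ^ β) ≤ 2 ^ β * h ^ (3 / 4 : ℝ) :=
      mul_le_mul_of_nonneg_left hrf.2.2.1 h2β.le
    have h9 : h * k ^ (1 / 4 : ℝ) ≤ h := by nlinarith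
    rw [hy]
    nlinarith
  have h10 : Real.exp (b z) * u z * (1 - y) ≤ u' z := by
    have h11 : Real.exp (b z) * u z * (1 - h * (Real.exp (b z) * u z) ^ β) ≥
        Real.exp (b z) * u z * (1 - h * (2 ^ β * u z ^ β)) := by
      refine mul_le_mul_of_nonneg_left ?_ (by positivity)
      have := mul_le_mul_of_nonneg_left h7 hh.le
      linarith
    have h12 : k * h * cpl net u z ≤ h * (u z * k ^ (1 / 4 : ℝ) / 4) := by
      have := mul_le_mul_of_nonneg_left hcpl hh.le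
      linarith
    have h13 : h * (u z * k ^ (1 / 4 : ℝ) / 4) * 1 ≤
        h * (u z * k ^ (1 / 4 : ℝ) / 4) * (2 * Real.exp (b z)) :=
      mul_le_mul_of_nonneg_left he2 (by positivity)
    rw [hy]
    nlinarith
  refine le_trans ?_ h10
  have h14 : b z - h * (2 * 2 ^ β * u z ^ β + k ^ (1 / 4 : ℝ)) = b z + -(2 * y) := by
    rw [hy]; ring
  rw [h14, Real.exp_add]
  have h15 := mul_le_mul_of_nonneg_left (Sm2_exp2 hy0 hy1)
    (by positivity : 0 ≤ Real.exp (b z) * u z)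
  linarith

private theorem Sm2_up {β h u b : ℝ} (hβ : 0 < β) (hh : 0 < h) (hh1 : h < 1)
    (hhs : 2 ^ β * h ^ (3 / 4 : ℝ) + h / 2 ≤ 1 / 2) (hu0 : 0 ≤ u) (hu : u ≤ rad β h)
    (hb : |b| ≤ Real.log 2) :
    psi β h (Real.exp b * u) ≤
      Real.exp b * (u - h * (1 / 2 * (1 / 4) ^ (1 + β) * u ^ (1 + β))) := by
  obtain ⟨he1, he2⟩ := Sm2_log2 hb
  have he0 := Real.exp_pos b
  have hrf := rad_facts hβ hh hh1 hu0 hu
  have h2β : (0 : ℝ) < 2 ^ β := Real.rpow_pos_of_pos two_pos _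
  have hy : 0 ≤ Real.exp b * u := by positivity
  have h7 : (Real.exp b * u) ^ β ≤ 2 ^ β * u ^ β := by
    rw [Real.mul_rpow he0.le hu0]
    exact mul_le_mul_of_nonneg_right (Real.rpow_le_rpow he0.le he1 hβ.le)
      (Real.rpow_nonneg hu0 _)
  have h8 : h * (Real.exp b * u) ^ β ≤ 1 := by
    have h9 := mul_le_mul_of_nonneg_left h7 hh.le
    have h10 := mul_le_mul_of_nonneg_left hrf.2.2.1 h2β.le
    nlinarith
  have h9 := psi_half hβ hh.le hy h8
  have h10 := psi_eq hβ hh.le hy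
  have h11 : 1 / 4 * u ≤ psi β h (Real.exp b * u) := by
    have : 1 / 2 * u ≤ Real.exp b * u := mul_le_mul_of_nonneg_right (by linarith) hu0
    linarith
  have h12 : (1 / 4 * u) ^ (1 + β) ≤ psi β h (Real.exp b * u) ^ (1 + β) :=
    Real.rpow_le_rpow (by positivity) h11 (by linarith)
  rw [Real.mul_rpow (by norm_num) hu0] at h12
  have h13 : 0 ≤ (1 / 4 : ℝ) ^ (1 + β) * u ^ (1 + β) := by positivity
  have h14 := mul_le_mul_of_nonneg_left h12 hh.le
  have h15 : Real.exp b * (h * ((1 / 4 : ℝ) ^ (1 + β) * u ^ (1 + β))) ≤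
      2 * (h * ((1 / 4 : ℝ) ^ (1 + β) * u ^ (1 + β))) :=
    mul_le_mul_of_nonneg_right he1 (by positivity)
  nlinarith


private theorem Sm2_exp1 {x : ℝ} (h0 : 0 ≤ x) (h1 : x ≤ 1 / 2) : Real.exp x ≤ 1 + 2 * x := by
  have h2 : 1 - x ≤ Real.exp (-x) := by
    have := Real.add_one_le_exp (-x)
    linarith
  have h3 : Real.exp x * Real.exp (-x) = 1 := by
    rw [← Real.exp_add]; simp
  have h4 := Real.exp_pos x
  have h5 : Real.exp x * (1 - x) ≤ 1 := (mul_le_mul_of_nonneg_left h2 h4.le).trans h3.le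
  by_contra hc
  push Not at hc
  have h6 : (1 + 2 * x) * (1 - x) < Real.exp x * (1 - x) :=
    mul_lt_mul_of_pos_right hc (by linarith)
  nlinarith

private theorem Sm2_sq (b : ℝ) : b ^ 2 ≤ Real.exp b + Real.exp (-b) - 2 := by
  have h1 : Real.exp b + Real.exp (-b) - 2 = (2 * Real.sinh (b / 2)) ^ 2 := by
    rw [Real.sinh_eq]
    have e1 : Real.exp b = Real.exp (b / 2) * Real.exp (b / 2) := by
      rw [← Real.exp_add]; ring_nf
    have e2 : Real.exp (-b) = Real.exp (-(b / 2)) * Real.exp (-(b / 2)) := by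
      rw [← Real.exp_add]; ring_nf
    have e3 : Real.exp (b / 2) * Real.exp (-(b / 2)) = 1 := by
      rw [← Real.exp_add]; simp
    rw [e1, e2]
    nlinarith
  rw [h1]
  have h2 : |b / 2| ≤ |Real.sinh (b / 2)| := by
    rcases le_total 0 (b / 2) with hb | hb
    · rw [abs_of_nonneg hb, abs_of_nonneg (Real.sinh_nonneg_iff.2 hb)]
      exact Real.self_le_sinh_iff.2 hb
    · rw [abs_of_nonpos hb, abs_of_nonpos (Real.sinh_nonpos_iff.2 hb)]
      exact neg_le_neg (Real.sinh_le_self_iff.2 hb)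
  have h3 := sq_le_sq' (by have := abs_nonneg (Real.sinh (b / 2)); have := abs_nonneg (b / 2); linarith) h2
  rw [sq_abs, sq_abs] at h3
  nlinarith

private theorem Sm2_E1 {N : ℕ} (hN : 2 ≤ N) {Ω0 : Type} [MeasurableSpace Ω0] (ν : Measure Ω0)
    (b : Ω0 → ℝ) (hb : Measurable b) (gd : Set Ω0) (hgd : MeasurableSet gd)
    {h ε s' g' el r : ℝ} (hh : 0 < h) (hNh : N * h ≤ 1) (hel : 0 < el) (hs' : 0 < s')
    (hs1 : s' ≤ 1) (hg0 : 0 ≤ g') (hg1 : g' ≤ 1) (hκ : 32 * s' ≤ el) (hε : 0 ≤ ε)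
    (hbd : ∀ a ∈ gd, 16 * s' * b a ^ 2 ≤ el)
    (mgf : ∀ r, |r| ≤ 2 → ∫⁻ a in gd, ENNReal.ofReal (Real.exp (r * b a)) ∂ν ≤
      ENNReal.ofReal (1 + (lamN N * r + r ^ 2 / 2 + ε) * h)) :
    ∫⁻ a in gd, ENNReal.ofReal (Real.exp (-(s' * g' * (b a - r)) + 4 * s' * (b a - r) ^ 2 / el)) ∂ν
      ≤ ENNReal.ofReal (Real.exp ((s' ^ 2 / 2 + 16 * s' / el + ε) * h + s' * g' * r +
        8 * s' * r ^ 2 / el)) := by
  set K : ℝ := Real.exp (s' * g' * r + 8 * s' * r ^ 2 / el) with hK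
  have hK0 : 0 < K := Real.exp_pos _
  set κ : ℝ := 16 * s' / el with hκd
  have hκ0 : 0 ≤ κ := by positivity
  have hκ1 : 2 * κ ≤ 1 := by
    rw [hκd, ← mul_div_assoc, div_le_one hel]
    linarith
  set ρ : ℝ := -(s' * g') with hρ
  have hsg : s' * g' ≤ s' := by nlinarith
  have hsg0 : 0 ≤ s' * g' := by positivity
  have hmE : ∀ c : ℝ, Measurable (fun a => ENNReal.ofReal (Real.exp (c * b a))) := fun c =>
    (Real.measurable_exp.comp (hb.const_mul c)).ennreal_ofReal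
  have hpt : ∀ a ∈ gd,
      ENNReal.ofReal (Real.exp (-(s' * g' * (b a - r)) + 4 * s' * (b a - r) ^ 2 / el)) ≤
      ENNReal.ofReal (K * (1 - 2 * κ)) * ENNReal.ofReal (Real.exp (ρ * b a)) +
        (ENNReal.ofReal (K * κ) * ENNReal.ofReal (Real.exp ((ρ + 1) * b a)) +
        ENNReal.ofReal (K * κ) * ENNReal.ofReal (Real.exp ((ρ - 1) * b a))) := by
    intro a ha
    have hKk : 0 ≤ K * (1 - 2 * κ) := mul_nonneg hK0.le (by linarith)
    rw [← ENNReal.ofReal_mul hKk, ← ENNReal.ofReal_mul (by positivity),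
      ← ENNReal.ofReal_mul (by positivity), ← ENNReal.ofReal_add (by positivity) (by positivity),
      ← ENNReal.ofReal_add (by positivity) (by positivity)]
    refine ENNReal.ofReal_le_ofReal ?_
    have h1 : -(s' * g' * (b a - r)) + 4 * s' * (b a - r) ^ 2 / el ≤
        (s' * g' * r + 8 * s' * r ^ 2 / el) + (ρ * b a + 8 * s' * b a ^ 2 / el) := by
      have h2 : (b a - r) ^ 2 ≤ 2 * b a ^ 2 + 2 * r ^ 2 := by nlinarith [sq_nonneg (b a + r)]
      have h3 : 4 * s' * (b a - r) ^ 2 / el ≤ 4 * s' * (2 * b a ^ 2 + 2 * r ^ 2) / el := by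
        gcongr
      have h4 : 4 * s' * (2 * b a ^ 2 + 2 * r ^ 2) / el =
          8 * s' * b a ^ 2 / el + 8 * s' * r ^ 2 / el := by ring
      rw [hρ]
      linarith
    refine (Real.exp_le_exp.2 h1).trans ?_
    rw [Real.exp_add, Real.exp_add (ρ * b a), ← hK]
    have h5 : Real.exp (8 * s' * b a ^ 2 / el) ≤ 1 + 2 * (8 * s' * b a ^ 2 / el) := by
      refine Sm2_exp1 (by positivity) ?_
      rw [div_le_iff₀ hel]
      have := hbd a ha
      linarith
    have h6 : 1 + 2 * (8 * s' * b a ^ 2 / el) = 1 + κ * b a ^ 2 := by rw [hκd]; ring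
    have h7 : Real.exp (8 * s' * b a ^ 2 / el) ≤ 1 + κ * (Real.exp (b a) + Real.exp (-b a) - 2) := by
      have := mul_le_mul_of_nonneg_left (Sm2_sq (b a)) hκ0
      linarith
    have h8 : Real.exp ((ρ + 1) * b a) = Real.exp (ρ * b a) * Real.exp (b a) := by
      rw [← Real.exp_add]; ring_nf
    have h9 : Real.exp ((ρ - 1) * b a) = Real.exp (ρ * b a) * Real.exp (-b a) := by
      rw [← Real.exp_add]; ring_nf
    rw [h8, h9]
    have h10 : K * (Real.exp (ρ * b a) * Real.exp (8 * s' * b a ^ 2 / el)) ≤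
        K * (Real.exp (ρ * b a) * (1 + κ * (Real.exp (b a) + Real.exp (-b a) - 2))) := by
      gcongr
    refine h10.trans (le_of_eq ?_)
    ring
  calc ∫⁻ a in gd, ENNReal.ofReal
        (Real.exp (-(s' * g' * (b a - r)) + 4 * s' * (b a - r) ^ 2 / el)) ∂ν
      ≤ ∫⁻ a in gd, (ENNReal.ofReal (K * (1 - 2 * κ)) * ENNReal.ofReal (Real.exp (ρ * b a)) +
        (ENNReal.ofReal (K * κ) * ENNReal.ofReal (Real.exp ((ρ + 1) * b a)) +
        ENNReal.ofReal (K * κ) * ENNReal.ofReal (Real.exp ((ρ - 1) * b a)))) ∂ν :=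
        setLIntegral_mono' hgd hpt
    _ = ENNReal.ofReal (K * (1 - 2 * κ)) * ∫⁻ a in gd, ENNReal.ofReal (Real.exp (ρ * b a)) ∂ν +
        (ENNReal.ofReal (K * κ) * ∫⁻ a in gd, ENNReal.ofReal (Real.exp ((ρ + 1) * b a)) ∂ν +
        ENNReal.ofReal (K * κ) * ∫⁻ a in gd, ENNReal.ofReal (Real.exp ((ρ - 1) * b a)) ∂ν) := by
        rw [lintegral_add_left ((hmE ρ).const_mul _), lintegral_add_left ((hmE (ρ + 1)).const_mul _),
          lintegral_const_mul _ (hmE ρ), lintegral_const_mul _ (hmE (ρ + 1)),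
          lintegral_const_mul _ (hmE (ρ - 1))]
    _ ≤ ENNReal.ofReal (K * (1 - 2 * κ)) *
          ENNReal.ofReal (1 + (lamN N * ρ + ρ ^ 2 / 2 + ε) * h) +
        (ENNReal.ofReal (K * κ) *
          ENNReal.ofReal (1 + (lamN N * (ρ + 1) + (ρ + 1) ^ 2 / 2 + ε) * h) +
        ENNReal.ofReal (K * κ) *
          ENNReal.ofReal (1 + (lamN N * (ρ - 1) + (ρ - 1) ^ 2 / 2 + ε) * h)) := by
        gcongr
        · exact mgf ρ (by rw [hρ, abs_le]; constructor <;> linarith)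
        · exact mgf (ρ + 1) (by rw [hρ, abs_le]; constructor <;> linarith)
        · exact mgf (ρ - 1) (by rw [hρ, abs_le]; constructor <;> linarith)
    _ ≤ _ := by
        have hl0 : 0 ≤ lamN N := by
          unfold lamN
          have : (2 : ℝ) ≤ N := by exact_mod_cast hN
          linarith
        have hl1 : 2 * lamN N * h ≤ 1 := by
          unfold lamN
          nlinarith
        have hnn : ∀ p : ℝ, -2 ≤ p → 0 ≤ 1 + (lamN N * p + p ^ 2 / 2 + ε) * h := by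
          intro p hp
          have h1 : lamN N * (-2) ≤ lamN N * p := mul_le_mul_of_nonneg_left hp hl0
          have h2 : 0 ≤ (p ^ 2 / 2 + ε) * h := by positivity
          nlinarith
        have hKk : 0 ≤ K * (1 - 2 * κ) := mul_nonneg hK0.le (by linarith)
        have n1 := hnn ρ (by rw [hρ]; linarith)
        have n2 := hnn (ρ + 1) (by rw [hρ]; linarith)
        have n3 := hnn (ρ - 1) (by rw [hρ]; linarith)
        rw [← ENNReal.ofReal_mul hKk, ← ENNReal.ofReal_mul (by positivity),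
          ← ENNReal.ofReal_mul (by positivity), ← ENNReal.ofReal_add (by positivity) (by positivity),
          ← ENNReal.ofReal_add (mul_nonneg hKk n1) (by positivity)]
        refine ENNReal.ofReal_le_ofReal ?_
        have e1 : (s' ^ 2 / 2 + 16 * s' / el + ε) * h + s' * g' * r + 8 * s' * r ^ 2 / el =
            (s' * g' * r + 8 * s' * r ^ 2 / el) + (s' ^ 2 / 2 + κ + ε) * h := by
          rw [hκd]; ring
        rw [e1, Real.exp_add, ← hK]
        have e2 : K * (1 - 2 * κ) * (1 + (lamN N * ρ + ρ ^ 2 / 2 + ε) * h) +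
            (K * κ * (1 + (lamN N * (ρ + 1) + (ρ + 1) ^ 2 / 2 + ε) * h) +
            K * κ * (1 + (lamN N * (ρ - 1) + (ρ - 1) ^ 2 / 2 + ε) * h)) =
            K * (1 + (lamN N * ρ + ρ ^ 2 / 2 + κ + ε) * h) := by ring
        rw [e2]
        refine mul_le_mul_of_nonneg_left ?_ hK0.le
        refine le_trans ?_ (Real.add_one_le_exp _)
        have h1 : lamN N * ρ ≤ 0 := by
          rw [hρ]
          have := mul_nonneg hl0 hsg0
          linarith
        have h2 : ρ ^ 2 ≤ s' ^ 2 := by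
          rw [hρ]
          nlinarith
        nlinarith

/-- good noise everywhere -/
private def Sm2_G {ι Ωp : Type} (gd : Set Ωp) : Set (ι → Ωp) := {ω | ∀ x, ω x ∈ gd}

private theorem Sm2_Gm {ι Ωp : Type} [Fintype ι] [MeasurableSpace Ωp] (gd : Set Ωp)
    (hgd : MeasurableSet gd) : MeasurableSet (Sm2_G (ι := ι) gd) := by
  have : Sm2_G (ι := ι) gd = ⋂ x : ι, (fun ω : ι → Ωp => ω x) ⁻¹' gd := by
    ext ω
    simp [Sm2_G]
  rw [this]
  exact MeasurableSet.iInter fun x => (measurable_pi_apply x) hgd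

private theorem Sm2_one {ι Ωp : Type} [Fintype ι] [MeasurableSpace Ωp] (ν : Measure Ωp)
    [IsProbabilityMeasure ν] (gd : Set Ωp) (hgd : MeasurableSet gd) (f : Ωp → ℝ≥0∞)
    (hf : Measurable f) (w : ι) :
    ∫⁻ ω in Sm2_G (ι := ι) gd, f (ω w) ∂(Measure.pi fun _ : ι => ν) ≤ ∫⁻ a in gd, f a ∂ν := by
  have h1 : ∫⁻ ω in Sm2_G (ι := ι) gd, f (ω w) ∂(Measure.pi fun _ : ι => ν) ≤
      ∫⁻ ω in (Function.eval w) ⁻¹' gd, f (ω w) ∂(Measure.pi fun _ : ι => ν) :=
    lintegral_mono_set (fun ω hω => hω w)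
  exact h1.trans (le_of_eq ((measurePreserving_eval (fun _ : ι => ν) w).setLIntegral_comp_preimage
    hgd hf))

private theorem Sm2_site {ι : Type} [Fintype ι] {d : ℕ} (net : Net ι d) {Ωp : Type}
    [MeasurableSpace Ωp] (ν : Measure Ωp) [IsProbabilityMeasure ν]
    (b : Ωp → ℝ) (hb : Measurable b) (gd : Set Ωp) (hgd : MeasurableSet gd) {β h k C1 : ℝ}
    (hβ : 0 < β) (hh : 0 < h) (hh1 : h < 1) (hk : 0 < k) (hC1 : 0 ≤ C1)
    (hhs : 2 ^ β * h ^ (3 / 4 : ℝ) + h / 2 ≤ 1 / 2)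
    (hbd : ∀ a ∈ gd, |b a| ≤ Real.log 2)
    (hm : ∫⁻ a in gd, ENNReal.ofReal (Real.exp (b a)) ∂ν ≤ ENNReal.ofReal (1 + C1 * h))
    (u : ι → ℝ) (hu0 : ∀ x, 0 ≤ u x) (hu : ∀ x, u x ≤ rad β h) (up : (ι → Ωp) → ι → ℝ)
    (Q : ∀ ω, (∀ x, ω x ∈ gd) → QStep net β h k (fun x => b (ω x)) u (up ω)) (w : ι) :
    0 ≤ u w - h * (1 / 2 * (1 / 4) ^ (1 + β) * u w ^ (1 + β)) ∧
    ∫⁻ ω in Sm2_G gd, ENNReal.ofReal (up ω w) ∂(Measure.pi fun _ : ι => ν) ≤
      ENNReal.ofReal ((1 + C1 * h) * (u w - h * (1 / 2 * (1 / 4) ^ (1 + β) * u w ^ (1 + β))) +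
        k * h * cpl net u w) := by
  have hrf := rad_facts hβ hh hh1 (hu0 w) (hu w)
  have hA : 0 ≤ u w - h * (1 / 2 * (1 / 4) ^ (1 + β) * u w ^ (1 + β)) := by
    rcases (hu0 w).lt_or_eq with h0 | h0
    · have h1 : u w ^ (1 + β) = u w * u w ^ β := by rw [Real.rpow_add h0, Real.rpow_one]
      have h2 : (1 / 4 : ℝ) ^ (1 + β) ≤ 1 :=
        Real.rpow_le_one (by norm_num) (by norm_num) (by linarith)
      have h3 : h ^ (3 / 4 : ℝ) ≤ 1 := Real.rpow_le_one hh.le hh1.le (by norm_num)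
      have h4 : (0 : ℝ) < (1 / 4 : ℝ) ^ (1 + β) := Real.rpow_pos_of_pos (by norm_num) _
      have h5 : 0 ≤ h * u w ^ β := by positivity
      have h6 : (1 / 4 : ℝ) ^ (1 + β) * (h * u w ^ β) ≤ 1 := by nlinarith
      rw [h1]
      nlinarith
    · rw [← h0, Real.zero_rpow (by linarith)]
      simp
  refine ⟨hA, ?_⟩
  set A : ℝ := u w - h * (1 / 2 * (1 / 4) ^ (1 + β) * u w ^ (1 + β)) with hAd
  set B : ℝ := k * h * cpl net u w with hB
  have hB0 : 0 ≤ B := by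
    rw [hB]
    unfold cpl
    have : 0 ≤ ∑ y ∈ net.nb w, u y := Finset.sum_nonneg fun y _ => hu0 y
    have := hu0 w
    positivity
  have hpt : ∀ ω ∈ Sm2_G (ι := ι) gd, ENNReal.ofReal (up ω w) ≤
      ENNReal.ofReal A * ENNReal.ofReal (Real.exp (b (ω w))) + ENNReal.ofReal B := by
    intro ω hω
    rw [← ENNReal.ofReal_mul hA, ← ENNReal.ofReal_add (by positivity) hB0]
    refine ENNReal.ofReal_le_ofReal ?_
    have h1 := (Q ω hω).up w
    have h2 := Sm2_up hβ hh hh1 hhs (hu0 w) (hu w) (hbd _ (hω w))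
    rw [← hAd] at h2
    rw [← hB] at h1
    rw [mul_comm A]
    exact h1.trans (add_le_add_left h2 B)
  have hmE : Measurable (fun a => ENNReal.ofReal (Real.exp (b a))) :=
    (Real.measurable_exp.comp hb).ennreal_ofReal
  have hmE' : Measurable (fun ω : ι → Ωp => ENNReal.ofReal (Real.exp (b (ω w)))) :=
    hmE.comp (measurable_pi_apply w)
  calc ∫⁻ ω in Sm2_G gd, ENNReal.ofReal (up ω w) ∂(Measure.pi fun _ : ι => ν)
      ≤ ∫⁻ ω in Sm2_G gd, (ENNReal.ofReal A * ENNReal.ofReal (Real.exp (b (ω w))) +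
          ENNReal.ofReal B) ∂(Measure.pi fun _ : ι => ν) :=
        setLIntegral_mono' (Sm2_Gm gd hgd) hpt
    _ = ENNReal.ofReal A * ∫⁻ ω in Sm2_G (ι := ι) gd, ENNReal.ofReal (Real.exp (b (ω w)))
            ∂(Measure.pi fun _ : ι => ν) +
          ENNReal.ofReal B * (Measure.pi fun _ : ι => ν) (Sm2_G gd) := by
        rw [lintegral_add_right _ measurable_const, lintegral_const_mul _ hmE',
          setLIntegral_const]
    _ ≤ ENNReal.ofReal A * ENNReal.ofReal (1 + C1 * h) + ENNReal.ofReal B * 1 := by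
        gcongr
        · exact (Sm2_one ν gd hgd _ hmE w).trans hm
        · exact prob_le_one
    _ = _ := by
        rw [mul_one, ← ENNReal.ofReal_mul hA, ← ENNReal.ofReal_add (by positivity) hB0]
        congr 1
        ring


private theorem Sm2_pm2 {p a b : ℝ} (hp : 1 ≤ p) (ha : 0 ≤ a) (hb : 0 ≤ b) :
    (2 : ℝ) ^ (-(p - 1)) * (a + b) ^ p ≤ a ^ p + b ^ p := by
  have h1 := NNReal.rpow_add_le_mul_rpow_add_rpow ⟨a, ha⟩ ⟨b, hb⟩ hp
  have h2 : (a + b) ^ p ≤ 2 ^ (p - 1) * (a ^ p + b ^ p) := by exact_mod_cast h1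
  have h3 : (0 : ℝ) < 2 ^ (p - 1) := Real.rpow_pos_of_pos two_pos _
  rw [Real.rpow_neg two_pos.le, inv_mul_le_iff₀ h3]
  exact h2

private theorem Sm2_cpl {ι : Type} [Fintype ι] {d : ℕ} (net : Net ι d) (t : ι → ℝ)
    (ht : ∀ x, 0 ≤ t x) (z : ι) :
    ∑ w, (1 / 2 : ℝ) ^ net.dist z w * cpl net t w ≤
      6 * d * ∑ w, (1 / 2 : ℝ) ^ net.dist z w * t w := by
  classical
  have h1 : ∑ w, (1 / 2 : ℝ) ^ net.dist z w * ∑ y ∈ net.nb w, t y ≤
      4 * d * ∑ w, (1 / 2 : ℝ) ^ net.dist z w * t w := by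
    calc ∑ w, (1 / 2 : ℝ) ^ net.dist z w * ∑ y ∈ net.nb w, t y
        ≤ ∑ w, ∑ y ∈ net.nb w, 2 * ((1 / 2 : ℝ) ^ net.dist z y * t y) := by
          refine Finset.sum_le_sum fun w _ => ?_
          rw [Finset.mul_sum]
          refine Finset.sum_le_sum fun y hy => ?_
          have h2 : net.dist z y ≤ net.dist z w + 1 := by
            have h3 := net.dist_tri z w y
            rw [net.dist_nb w y hy] at h3
            exact h3
          have h3 : (1 / 2 : ℝ) ^ (net.dist z w + 1) ≤ (1 / 2 : ℝ) ^ net.dist z y :=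
            pow_le_pow_of_le_one (by norm_num) (by norm_num) h2
          rw [pow_succ] at h3
          have h4 := mul_le_mul_of_nonneg_right h3 (ht y)
          linarith
      _ = ∑ y, ∑ _w ∈ net.nb y, 2 * ((1 / 2 : ℝ) ^ net.dist z y * t y) := by
          refine Finset.sum_comm' ?_
          intro x y
          constructor
          · rintro ⟨_, h⟩
            exact ⟨net.nb_symm _ _ h, Finset.mem_univ _⟩
          · rintro ⟨h, _⟩
            exact ⟨Finset.mem_univ _, net.nb_symm _ _ h⟩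
      _ ≤ ∑ y, 2 * d * (2 * ((1 / 2 : ℝ) ^ net.dist z y * t y)) := by
          refine Finset.sum_le_sum fun y _ => ?_
          rw [Finset.sum_const, nsmul_eq_mul]
          have h2 : ((net.nb y).card : ℝ) ≤ 2 * d := by exact_mod_cast net.nb_card y
          refine mul_le_mul_of_nonneg_right h2 ?_
          have := ht y
          positivity
      _ = 4 * d * ∑ w, (1 / 2 : ℝ) ^ net.dist z w * t w := by
          rw [← Finset.mul_sum, ← Finset.mul_sum]
          ring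
  have h2 : ∑ w, (1 / 2 : ℝ) ^ net.dist z w * cpl net t w =
      ∑ w, (1 / 2 : ℝ) ^ net.dist z w * ∑ y ∈ net.nb w, t y +
        2 * d * ∑ w, (1 / 2 : ℝ) ^ net.dist z w * t w := by
    rw [Finset.mul_sum, ← Finset.sum_add_distrib]
    refine Finset.sum_congr rfl fun w _ => ?_
    unfold cpl
    push_cast
    ring
  rw [h2]
  linarith

private theorem Sm2_pmean {ι : Type} [Fintype ι] {d : ℕ} (net : Net ι d) {β : ℝ} (hβ : 0 < β)
    (t : ι → ℝ) (ht : ∀ x, 0 ≤ t x) (z : ι) :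
    ((3 : ℝ) ^ d) ^ (-β) * (∑ w, (1 / 2 : ℝ) ^ net.dist z w * t w) ^ (1 + β) ≤
      ∑ w, (1 / 2 : ℝ) ^ net.dist z w * t w ^ (1 + β) := by
  set P : ℝ := ∑ w, (1 / 2 : ℝ) ^ net.dist z w with hP
  have hP1 : P ≤ 3 ^ d := net.sum_half z
  have hP0 : 0 < P := by
    have h1 : (1 / 2 : ℝ) ^ net.dist z z ≤ P :=
      Finset.single_le_sum (f := fun w => (1 / 2 : ℝ) ^ net.dist z w)
        (fun w _ => by positivity) (Finset.mem_univ z)
    rw [net.dist_self, pow_zero] at h1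
    linarith
  set X : ℝ := ∑ w, (1 / 2 : ℝ) ^ net.dist z w * t w with hX
  have hX0 : 0 ≤ X := Finset.sum_nonneg fun w _ => mul_nonneg (by positivity) (ht w)
  set Y : ℝ := ∑ w, (1 / 2 : ℝ) ^ net.dist z w * t w ^ (1 + β) with hY
  have h1 := Real.rpow_arith_mean_le_arith_mean_rpow Finset.univ
    (fun w => (1 / 2 : ℝ) ^ net.dist z w / P) t (fun w _ => by positivity)
    (by rw [← Finset.sum_div, ← hP, div_self hP0.ne']) (fun w _ => ht w)
    (p := 1 + β) (by linarith)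
  have e1 : ∑ w, (1 / 2 : ℝ) ^ net.dist z w / P * t w = X / P := by
    rw [hX, Finset.sum_div]
    exact Finset.sum_congr rfl fun w _ => by ring
  have e2 : ∑ w, (1 / 2 : ℝ) ^ net.dist z w / P * t w ^ (1 + β) = Y / P := by
    rw [hY, Finset.sum_div]
    exact Finset.sum_congr rfl fun w _ => by ring
  rw [e1, e2, Real.div_rpow hX0 hP0.le, Real.rpow_add hP0, Real.rpow_one] at h1
  have h2 : 0 ≤ X ^ (1 + β) := Real.rpow_nonneg hX0 _
  have hPβ : 0 < P ^ β := Real.rpow_pos_of_pos hP0 _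
  have h3 : X ^ (1 + β) ≤ Y * P ^ β := by
    rw [div_le_div_iff₀ (by positivity) hP0] at h1
    have h4 : X ^ (1 + β) * P ≤ (Y * P ^ β) * P := by linarith
    exact le_of_mul_le_mul_right h4 hP0
  have h5 : ((3 : ℝ) ^ d) ^ (-β) ≤ (P ^ β)⁻¹ := by
    rw [Real.rpow_neg (by positivity)]
    exact inv_anti₀ hPβ (Real.rpow_le_rpow hP0.le hP1 hβ.le)
  calc ((3 : ℝ) ^ d) ^ (-β) * X ^ (1 + β) ≤ (P ^ β)⁻¹ * X ^ (1 + β) :=
        mul_le_mul_of_nonneg_right h5 h2
    _ ≤ Y := by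
        rw [inv_mul_le_iff₀ hPβ]
        linarith

private theorem Sm2_det (d : ℕ) {β C1 : ℝ} (hβ : 0 < β) (hC1 : 0 ≤ C1) :
    ∃ A c' : ℝ, 0 < A ∧ 0 < c' ∧ ∀ {ι : Type} [Fintype ι] (net : Net ι d) (h k : ℝ)
      (u u' t : ι → ℝ) (z : ι), 0 < h → 0 < k → k ≤ 1 → (∀ x, 0 ≤ u x) → (∀ x, 0 ≤ u' x) →
      (∀ x, t x = u x + u' x) →
      ∑ w, (1 / 2 : ℝ) ^ net.dist z w *
        (((1 + C1 * h) * (u w - h * (1 / 2 * (1 / 4) ^ (1 + β) * u w ^ (1 + β))) +
          k * h * cpl net u w) +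
        ((1 + C1 * h) * (u' w - h * (1 / 2 * (1 / 4) ^ (1 + β) * u' w ^ (1 + β))) +
          k * h * cpl net u' w)) ≤
      (∑ w, (1 / 2 : ℝ) ^ net.dist z w * t w) +
        h * (A - c' * (∑ w, (1 / 2 : ℝ) ^ net.dist z w * t w) ^ (1 + β)) := by
  set c0 : ℝ := 1 / 2 * (1 / 4) ^ (1 + β) with hc0
  have hc00 : 0 < c0 := by
    have : (0 : ℝ) < (1 / 4 : ℝ) ^ (1 + β) := Real.rpow_pos_of_pos (by norm_num) _
    positivity
  set c2 : ℝ := c0 * 2 ^ (-(1 + β - 1)) * ((3 : ℝ) ^ d) ^ (-β) with hc2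
  have h2p : (0 : ℝ) < 2 ^ (-(1 + β - 1)) := Real.rpow_pos_of_pos two_pos _
  have h3p : (0 : ℝ) < ((3 : ℝ) ^ d) ^ (-β) := Real.rpow_pos_of_pos (by positivity) _
  have hc20 : 0 < c2 := by positivity
  set C2 : ℝ := C1 + 6 * d + 1 with hC2
  have hC20 : 0 < C2 := by positivity
  refine ⟨C2 * (2 * C2 / c2) ^ (1 / β), c2 / 2, ?_, by positivity, ?_⟩
  · have : 0 < (2 * C2 / c2) ^ (1 / β) := Real.rpow_pos_of_pos (by positivity) _
    positivity
  intro ι _ net h k u u' t z hh hk hk1 hu hu' htu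
  have ht : ∀ x, 0 ≤ t x := fun x => by rw [htu]; have := hu x; have := hu' x; linarith
  set X : ℝ := ∑ w, (1 / 2 : ℝ) ^ net.dist z w * t w with hX
  have hX0 : 0 ≤ X := Finset.sum_nonneg fun w _ => mul_nonneg (by positivity) (ht w)
  -- pointwise
  have hp : ∀ w, (1 / 2 : ℝ) ^ net.dist z w *
        (((1 + C1 * h) * (u w - h * (c0 * u w ^ (1 + β))) + k * h * cpl net u w) +
        ((1 + C1 * h) * (u' w - h * (c0 * u' w ^ (1 + β))) + k * h * cpl net u' w)) ≤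
      (1 + C1 * h) * ((1 / 2 : ℝ) ^ net.dist z w * t w) -
        h * (c0 * 2 ^ (-(1 + β - 1))) * ((1 / 2 : ℝ) ^ net.dist z w * t w ^ (1 + β)) +
        k * h * ((1 / 2 : ℝ) ^ net.dist z w * cpl net t w) := by
    intro w
    have h1 : cpl net t w = cpl net u w + cpl net u' w := by
      unfold cpl
      rw [htu w, Finset.sum_congr rfl (fun y _ => htu y), Finset.sum_add_distrib]
      ring
    have h2 := Sm2_pm2 (p := 1 + β) (by linarith) (hu w) (hu' w)
    rw [← htu w] at h2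
    have hp0 : (0 : ℝ) < (1 / 2 : ℝ) ^ net.dist z w := by positivity
    have hur : 0 ≤ u w ^ (1 + β) := Real.rpow_nonneg (hu w) _
    have hur' : 0 ≤ u' w ^ (1 + β) := Real.rpow_nonneg (hu' w) _
    have h3 : 0 ≤ C1 * h * (h * (c0 * u w ^ (1 + β))) := by positivity
    have h4 : 0 ≤ C1 * h * (h * (c0 * u' w ^ (1 + β))) := by positivity
    have h5 := mul_le_mul_of_nonneg_left h2 (by positivity : 0 ≤ h * c0)
    have h6 : ((1 + C1 * h) * (u w - h * (c0 * u w ^ (1 + β))) + k * h * cpl net u w) +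
        ((1 + C1 * h) * (u' w - h * (c0 * u' w ^ (1 + β))) + k * h * cpl net u' w) ≤
        (1 + C1 * h) * t w - h * (c0 * 2 ^ (-(1 + β - 1))) * t w ^ (1 + β) +
          k * h * cpl net t w := by
      rw [h1, htu w] at *
      nlinarith
    have h7 := mul_le_mul_of_nonneg_left h6 hp0.le
    refine h7.trans (le_of_eq ?_)
    ring
  have hs := Finset.sum_le_sum (fun w (_ : w ∈ Finset.univ) => hp w)
  rw [Finset.sum_add_distrib, Finset.sum_sub_distrib, ← Finset.mul_sum, ← Finset.mul_sum,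
    ← Finset.mul_sum, ← hX] at hs
  have h8 := Sm2_cpl net t ht z
  rw [← hX] at h8
  have h9 := Sm2_pmean net hβ t ht z
  rw [← hX] at h9
  have h10 : k * h * ∑ w, (1 / 2 : ℝ) ^ net.dist z w * cpl net t w ≤ h * (6 * d * X) := by
    have h11 : k * h * ∑ w, (1 / 2 : ℝ) ^ net.dist z w * cpl net t w ≤ k * h * (6 * d * X) :=
      mul_le_mul_of_nonneg_left h8 (by positivity)
    have h12 : k * (h * (6 * d * X)) ≤ 1 * (h * (6 * d * X)) :=
      mul_le_mul_of_nonneg_right hk1 (by positivity)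
    linarith
  have h13 := mul_le_mul_of_nonneg_left h9 (by positivity : 0 ≤ h * (c0 * 2 ^ (-(1 + β - 1))))
  have h14 : C2 * X - c2 * X ^ (1 + β) ≤
      C2 * (2 * C2 / c2) ^ (1 / β) - c2 / 2 * X ^ (1 + β) := by
    rcases le_total X ((2 * C2 / c2) ^ (1 / β)) with hc | hc
    · have h15 := mul_le_mul_of_nonneg_left hc hC20.le
      have h16 : 0 ≤ X ^ (1 + β) := Real.rpow_nonneg hX0 _
      nlinarith
    · have hr0 : 0 < (2 * C2 / c2) ^ (1 / β) := Real.rpow_pos_of_pos (by positivity) _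
      have hXp : 0 < X := hr0.trans_le hc
      have h15 := Real.rpow_le_rpow hr0.le hc hβ.le
      rw [← Real.rpow_mul (by positivity), one_div, inv_mul_cancel₀ hβ.ne', Real.rpow_one,
        div_le_iff₀ hc20] at h15
      have h16 : X ^ (1 + β) = X * X ^ β := by rw [Real.rpow_add hXp, Real.rpow_one]
      have h17 := mul_le_mul_of_nonneg_left h15 hXp.le
      rw [h16]
      have h18 : 0 < C2 * (2 * C2 / c2) ^ (1 / β) := by positivity
      rw [one_div] at h18 ⊢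
      nlinarith
  have h19 := mul_le_mul_of_nonneg_left h14 hh.le
  refine hs.trans ?_
  have e : h * (c0 * 2 ^ (-(1 + β - 1))) * (((3 : ℝ) ^ d) ^ (-β) * X ^ (1 + β)) =
      h * (c2 * X ^ (1 + β)) := by rw [hc2]; ring
  rw [e] at h13
  have h20 : h * (C2 * X) = h * (C1 * X) + h * (6 * d * X) + h * X := by rw [hC2]; ring
  have h21 : 0 ≤ h * X := by positivity
  nlinarith

private theorem Sm2_cpl0 {ι : Type} [Fintype ι] {d : ℕ} (net : Net ι d) (u : ι → ℝ)
    (hu : ∀ x, 0 ≤ u x) (w : ι) : 0 ≤ cpl net u w := by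
  unfold cpl
  have h1 : 0 ≤ ∑ y ∈ net.nb w, u y := Finset.sum_nonneg fun y _ => hu y
  have h2 := hu w
  positivity

private theorem Sm2_ES (d : ℕ) {β C1 : ℝ} (hβ : 0 < β) (hC1 : 0 ≤ C1) :
    ∃ A c' : ℝ, 0 < A ∧ 0 < c' ∧ ∀ {ι : Type} [Fintype ι] (net : Net ι d) {Ωp : Type}
      [MeasurableSpace Ωp] (ν : Measure Ωp) [IsProbabilityMeasure ν]
      (b : Ωp → ℝ) (_ : Measurable b) (gd : Set Ωp) (_ : MeasurableSet gd) {h k : ℝ}
      (_ : 0 < h) (_ : h < 1) (_ : 0 < k) (_ : k ≤ 1)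
      (_ : 2 ^ β * h ^ (3 / 4 : ℝ) + h / 2 ≤ 1 / 2)
      (_ : ∀ a ∈ gd, |b a| ≤ Real.log 2)
      (_ : ∫⁻ a in gd, ENNReal.ofReal (Real.exp (b a)) ∂ν ≤ ENNReal.ofReal (1 + C1 * h))
      (u u' t : ι → ℝ) (_ : ∀ x, 0 ≤ u x) (_ : ∀ x, u x ≤ rad β h) (_ : ∀ x, 0 ≤ u' x)
      (_ : ∀ x, u' x ≤ rad β h) (_ : ∀ x, t x = u x + u' x)
      (up up' tp : (ι → Ωp) → ι → ℝ) (_ : ∀ ω x, tp ω x = up ω x + up' ω x)
      (_ : ∀ x, Measurable fun ω => up ω x) (_ : ∀ x, Measurable fun ω => up' ω x)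
      (_ : ∀ ω, (∀ x, ω x ∈ gd) → QStep net β h k (fun x => b (ω x)) u (up ω))
      (_ : ∀ ω, (∀ x, ω x ∈ gd) → QStep net β h k (fun x => b (ω x)) u' (up' ω)) (z : ι),
      ∫⁻ ω in Sm2_G gd, ENNReal.ofReal (SSt net k (tp ω) z / SSt net k t z)
          ∂(Measure.pi fun _ : ι => ν) ≤ ENNReal.ofReal (Real.exp (h * k ^ (1 / 16 : ℝ) * A)) ∧
      (1 ≤ k ^ (1 / 16 : ℝ) * ∑ w, (1 / 2 : ℝ) ^ net.dist z w * t w →
        ∫⁻ ω in Sm2_G gd, ENNReal.ofReal (SSt net k (tp ω) z / SSt net k t z)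
          ∂(Measure.pi fun _ : ι => ν) ≤
        ENNReal.ofReal (Real.exp (h * k ^ (1 / 16 : ℝ) * A -
          h * (c' / 2) * (∑ w, (1 / 2 : ℝ) ^ net.dist z w * t w) ^ β))) := by
  obtain ⟨A, c', hA, hc', hdet⟩ := Sm2_det d hβ hC1
  refine ⟨A, c', hA, hc', ?_⟩
  intro ι _ net Ωp _ ν _ b hb gd hgd h k hh hh1 hk hk1 hhs hbd hm u u' t hu0 hu hu0' hu' htu
    up up' tp htp mup mup' Q Q' z
  have ht : ∀ x, 0 ≤ t x := fun x => by rw [htu]; have := hu0 x; have := hu0' x; linarith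
  set k16 : ℝ := k ^ (1 / 16 : ℝ) with hk16
  have hk160 : 0 < k16 := Real.rpow_pos_of_pos hk _
  set X : ℝ := ∑ w, (1 / 2 : ℝ) ^ net.dist z w * t w with hX
  have hX0 : 0 ≤ X := Finset.sum_nonneg fun w _ => mul_nonneg (by positivity) (ht w)
  set S : ℝ := SSt net k t z with hS
  have hSX : S = 1 + k16 * X := rfl
  have hS1 : 1 ≤ S := by rw [hSX]; have := mul_nonneg hk160.le hX0; linarith
  have hS0 : 0 < S := by linarith
  set U : ι → ℝ := fun w => (1 + C1 * h) * (u w - h * (1 / 2 * (1 / 4) ^ (1 + β) * u w ^ (1 + β))) +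
          k * h * cpl net u w with hU
  set U' : ι → ℝ := fun w => (1 + C1 * h) *
    (u' w - h * (1 / 2 * (1 / 4) ^ (1 + β) * u' w ^ (1 + β))) + k * h * cpl net u' w with hU'
  have hs1 := fun w => Sm2_site net ν b hb gd hgd hβ hh hh1 hk hC1 hhs hbd hm u hu0 hu up Q w
  have hs2 := fun w => Sm2_site net ν b hb gd hgd hβ hh hh1 hk hC1 hhs hbd hm u' hu0' hu' up' Q' w
  have hU0 : ∀ w, 0 ≤ U w := fun w => by
    have h1 := (hs1 w).1
    have h2 := Sm2_cpl0 net u hu0 w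
    simp only [hU]
    positivity
  have hU0' : ∀ w, 0 ≤ U' w := fun w => by
    have h1 := (hs2 w).1
    have h2 := Sm2_cpl0 net u' hu0' w
    simp only [hU']
    positivity
  have hd := hdet net h k u u' t z hh hk hk1 hu0 hu0' htu
  rw [← hX] at hd
  -- integral of SSt
  have hI : ∫⁻ ω in Sm2_G gd, ENNReal.ofReal (SSt net k (tp ω) z) ∂(Measure.pi fun _ : ι => ν) ≤
      ENNReal.ofReal (S + h * k16 * (A - c' * X ^ (1 + β))) := by
    have hpt : ∀ ω ∈ Sm2_G (ι := ι) gd, ENNReal.ofReal (SSt net k (tp ω) z) ≤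
        1 + ∑ w, ENNReal.ofReal (k16 * (1 / 2 : ℝ) ^ net.dist z w) *
          (ENNReal.ofReal (up ω w) + ENNReal.ofReal (up' ω w)) := by
      intro ω hω
      have q1 := (Q ω hω).n1
      have q2 := (Q' ω hω).n1
      have e1 : SSt net k (tp ω) z = 1 + ∑ w, k16 * (1 / 2 : ℝ) ^ net.dist z w *
          (up ω w + up' ω w) := by
        unfold SSt
        rw [Finset.mul_sum]
        congr 1
        refine Finset.sum_congr rfl fun w _ => ?_
        rw [htp]
        ring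
      have hn : ∀ w ∈ Finset.univ, 0 ≤ k16 * (1 / 2 : ℝ) ^ net.dist z w * (up ω w + up' ω w) :=
        fun w _ => mul_nonneg (by positivity) (add_nonneg (q1 w) (q2 w))
      rw [e1, ENNReal.ofReal_add zero_le_one (Finset.sum_nonneg hn), ENNReal.ofReal_one,
        ENNReal.ofReal_sum_of_nonneg hn]
      refine add_le_add_right (Finset.sum_le_sum fun w _ => ?_) 1
      rw [ENNReal.ofReal_mul (by positivity), ENNReal.ofReal_add (q1 w) (q2 w)]
    have m1 : ∀ w, Measurable fun ω : ι → Ωp => ENNReal.ofReal (up ω w) :=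
      fun w => (mup w).ennreal_ofReal
    have m2 : ∀ w, Measurable fun ω : ι → Ωp => ENNReal.ofReal (up' ω w) :=
      fun w => (mup' w).ennreal_ofReal
    have m12 : ∀ w, Measurable fun ω : ι → Ωp => ENNReal.ofReal (up ω w) +
        ENNReal.ofReal (up' ω w) := fun w => (m1 w).add (m2 w)
    have m13 : ∀ w, Measurable fun ω : ι → Ωp => ENNReal.ofReal (k16 * (1 / 2 : ℝ) ^ net.dist z w) *
        (ENNReal.ofReal (up ω w) + ENNReal.ofReal (up' ω w)) := fun w => (m12 w).const_mul _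
    calc ∫⁻ ω in Sm2_G gd, ENNReal.ofReal (SSt net k (tp ω) z) ∂(Measure.pi fun _ : ι => ν)
        ≤ ∫⁻ ω in Sm2_G gd, (1 + ∑ w, ENNReal.ofReal (k16 * (1 / 2 : ℝ) ^ net.dist z w) *
          (ENNReal.ofReal (up ω w) + ENNReal.ofReal (up' ω w))) ∂(Measure.pi fun _ : ι => ν) :=
          setLIntegral_mono' (Sm2_Gm gd hgd) hpt
      _ = (Measure.pi fun _ : ι => ν) (Sm2_G gd) +
          ∑ w, ENNReal.ofReal (k16 * (1 / 2 : ℝ) ^ net.dist z w) *
            (∫⁻ ω in Sm2_G gd, ENNReal.ofReal (up ω w) ∂(Measure.pi fun _ : ι => ν) +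
            ∫⁻ ω in Sm2_G gd, ENNReal.ofReal (up' ω w) ∂(Measure.pi fun _ : ι => ν)) := by
          rw [lintegral_add_left measurable_const, lintegral_finsetSum _ (fun w _ => m13 w)]
          congr 1
          · rw [setLIntegral_const, one_mul]
          · refine Finset.sum_congr rfl fun w _ => ?_
            rw [lintegral_const_mul _ (m12 w), lintegral_add_left (m1 w)]
      _ ≤ 1 + ∑ w, ENNReal.ofReal (k16 * (1 / 2 : ℝ) ^ net.dist z w) *
            (ENNReal.ofReal (U w) + ENNReal.ofReal (U' w)) := by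
          gcongr with w _
          · exact prob_le_one
          · exact (hs1 w).2
          · exact (hs2 w).2
      _ = ENNReal.ofReal (1 + ∑ w, k16 * (1 / 2 : ℝ) ^ net.dist z w * (U w + U' w)) := by
          have hn : ∀ w ∈ Finset.univ, 0 ≤ k16 * (1 / 2 : ℝ) ^ net.dist z w * (U w + U' w) :=
            fun w _ => mul_nonneg (by positivity) (add_nonneg (hU0 w) (hU0' w))
          rw [ENNReal.ofReal_add zero_le_one (Finset.sum_nonneg hn), ENNReal.ofReal_one,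
            ENNReal.ofReal_sum_of_nonneg hn]
          congr 1
          refine Finset.sum_congr rfl fun w _ => ?_
          rw [← ENNReal.ofReal_add (hU0 w) (hU0' w), ← ENNReal.ofReal_mul (by positivity)]
      _ ≤ _ := by
          refine ENNReal.ofReal_le_ofReal ?_
          have e2 : ∑ w, k16 * (1 / 2 : ℝ) ^ net.dist z w * (U w + U' w) =
              k16 * ∑ w, (1 / 2 : ℝ) ^ net.dist z w * (U w + U' w) := by
            rw [Finset.mul_sum]
            exact Finset.sum_congr rfl fun w _ => by ring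
          rw [e2, hSX]
          have h3 := mul_le_mul_of_nonneg_left hd hk160.le
          simp only [hU, hU']
          linarith
  have hI2 : ∫⁻ ω in Sm2_G gd, ENNReal.ofReal (SSt net k (tp ω) z / S)
      ∂(Measure.pi fun _ : ι => ν) ≤
      ENNReal.ofReal ((S + h * k16 * (A - c' * X ^ (1 + β))) / S) := by
    have m3 : Measurable fun ω : ι → Ωp => ENNReal.ofReal (SSt net k (tp ω) z) := by
      refine Measurable.ennreal_ofReal ?_
      unfold SSt
      refine measurable_const.add (Measurable.const_mul (Finset.measurable_sum _ fun w _ => ?_) _)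
      refine Measurable.const_mul ?_ _
      have : (fun ω : ι → Ωp => tp ω w) = fun ω => up ω w + up' ω w := funext fun ω => htp ω w
      rw [this]
      exact (mup w).add (mup' w)
    have e3 : ∀ ω : ι → Ωp, ENNReal.ofReal (SSt net k (tp ω) z / S) =
        ENNReal.ofReal S⁻¹ * ENNReal.ofReal (SSt net k (tp ω) z) := by
      intro ω
      rw [← ENNReal.ofReal_mul (by positivity)]
      congr 1
      ring
    simp only [e3]
    rw [lintegral_const_mul _ m3]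
    refine (mul_le_mul_right hI _).trans (le_of_eq ?_)
    rw [← ENNReal.ofReal_mul (by positivity)]
    congr 1
    ring
  have hXβ : 0 ≤ X ^ (1 + β) := Real.rpow_nonneg hX0 _
  have e4 : (S + h * k16 * (A - c' * X ^ (1 + β))) / S =
      h * k16 * (A - c' * X ^ (1 + β)) / S + 1 := by
    field_simp
    ring
  rw [e4] at hI2
  constructor
  · refine hI2.trans (ENNReal.ofReal_le_ofReal ?_)
    refine le_trans ?_ (Real.add_one_le_exp _)
    have h1 : h * k16 * (A - c' * X ^ (1 + β)) / S ≤ h * k16 * A := by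
      rw [div_le_iff₀ hS0]
      have h2 : 0 ≤ h * k16 * (c' * X ^ (1 + β)) := by positivity
      have h3 : h * k16 * A * 1 ≤ h * k16 * A * S := mul_le_mul_of_nonneg_left hS1 (by positivity)
      linarith
    linarith
  · intro hX1
    refine hI2.trans (ENNReal.ofReal_le_ofReal ?_)
    refine le_trans ?_ (Real.add_one_le_exp _)
    have hXp : 0 < X := by
      by_contra hc
      have : X = 0 := le_antisymm (not_lt.1 hc) hX0
      rw [this] at hX1
      norm_num at hX1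
    have h1 : h * k16 * (A - c' * X ^ (1 + β)) / S ≤ h * k16 * A - h * (c' / 2) * X ^ β := by
      rw [div_le_iff₀ hS0]
      have h2 : X ^ (1 + β) = X * X ^ β := by rw [Real.rpow_add hXp, Real.rpow_one]
      have h3 : h * k16 * A * 1 ≤ h * k16 * A * S := mul_le_mul_of_nonneg_left hS1 (by positivity)
      have h4 : S ≤ 2 * (k16 * X) := by rw [hSX]; linarith
      have h5 : 0 ≤ h * (c' / 2) * X ^ β := by positivity
      have h6 := mul_le_mul_of_nonneg_left h4 h5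
      rw [h2]
      nlinarith
    linarith

private theorem Sm2_rneg {a b : ℝ≥0∞} {s : ℝ} (hs : 0 < s) (hab : a ≤ b) : b ^ (-s) ≤ a ^ (-s) := by
  rw [ENNReal.rpow_neg, ENNReal.rpow_neg, ENNReal.inv_le_inv]
  exact ENNReal.rpow_le_rpow hab hs.le

private theorem Sm2_comb {ι : Type} [Fintype ι] {d : ℕ} (net : Net ι d) {Ωp : Type}
    [MeasurableSpace Ωp] (ν : Measure Ωp) [IsProbabilityMeasure ν] (b : Ωp → ℝ)
    (hb : Measurable b) (gd : Set Ωp) (hgd : MeasurableSet gd) {k q s r E X2 : ℝ} (hk : 0 < k)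
    (hk1 : k < 1) (hq : 0 ≤ q) (hs : 0 < s) (hqs : q * s < 1)
    (u t : ι → ℝ) (up tp : (ι → Ωp) → ι → ℝ) (ht0 : ∀ x, 0 ≤ t x)
    (mtp : ∀ x, Measurable fun ω => tp ω x) (x z : ι)
    (hz : ∀ y, Tz net k q u t x y ≤ Tz net k q u t x z) (hv : 0 < u z)
    (htp0 : ∀ ω ∈ Sm2_G gd, ∀ x, 0 ≤ tp ω x)
    (hlow : ∀ ω ∈ Sm2_G gd, u z * Real.exp (b (ω z) - r) ≤ up ω z)
    (hE : ∫⁻ a in gd, ENNReal.ofReal (Real.exp (-(s / (1 - q * s) *
      gX' (Real.log (u z) / ell k) * (b a - r)) + 4 * (s / (1 - q * s)) * (b a - r) ^ 2 / ell k)) ∂ν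
      ≤ ENNReal.ofReal (Real.exp E))
    (hS : ∫⁻ ω in Sm2_G gd, ENNReal.ofReal (SSt net k (tp ω) z / SSt net k t z)
          ∂(Measure.pi fun _ : ι => ν) ≤ ENNReal.ofReal (Real.exp X2)) :
    ∫⁻ ω in Sm2_G gd, Vp net k q s (up ω) (tp ω) x ∂(Measure.pi fun _ : ι => ν) ≤
      ENNReal.ofReal (Real.exp ((1 - q * s) * E + q * s * X2)) * Vp net k q s u t x := by
  set g' : ℝ := gX' (Real.log (u z) / ell k) with hg'
  set s' : ℝ := s / (1 - q * s) with hs'
  have h1qs : 0 < 1 - q * s := by linarith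
  have hs's : s' * (1 - q * s) = s := by rw [hs', div_mul_cancel₀ _ h1qs.ne']
  have hell : 0 < ell k := ell_pos hk hk1
  have hqs0 : 0 ≤ q * s := by positivity
  set S : ℝ := SSt net k t z with hSd
  have hS1 : 1 ≤ S := SSt_one net hk t ht0 z
  have hS0 : 0 < S := by linarith
  have hk4 : (0 : ℝ) < (k ^ (1 / 4 : ℝ)) ^ net.dist x z := pow_pos (Real.rpow_pos_of_pos hk _) _
  have hf0 : 0 < fpot k (u z) := fpot_pos hv
  set T : ℝ := Tz net k q u t x z with hT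
  have hT0 : 0 < T := by
    rw [hT]
    unfold Tz
    rw [← hSd]
    have : 0 < S ^ (-q) := Real.rpow_pos_of_pos hS0 _
    positivity
  have hV : Vp net k q s u t x = ENNReal.ofReal (T ^ (-s)) := by
    rw [Vp_argmax net k q s u t x z hz, ← hT, ENNReal.ofReal_rpow_of_pos hT0]
  have hpt : ∀ ω ∈ Sm2_G (ι := ι) gd, Vp net k q s (up ω) (tp ω) x ≤
      ENNReal.ofReal (T ^ (-s)) *
      (ENNReal.ofReal (Real.exp (-(s' * g' * (b (ω z) - r)) +
        4 * s' * (b (ω z) - r) ^ 2 / ell k)) ^ (1 - q * s) *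
        ENNReal.ofReal (SSt net k (tp ω) z / S) ^ (q * s)) := by
    intro ω hω
    have h1 : 1 ≤ SSt net k (tp ω) z := SSt_one net hk (tp ω) (htp0 ω hω) z
    set S' : ℝ := SSt net k (tp ω) z with hS'
    have hS'0 : 0 < S' := by linarith
    set c : ℝ := b (ω z) - r with hc
    have h2 := fpot_inc hk hk1 hv (hlow ω hω)
    rw [← hg'] at h2
    set e : ℝ := g' * c - 4 * c ^ 2 / ell k with he
    have hR0 : 0 < S' / S := by positivity
    set L : ℝ := T * Real.exp e * (S' / S) ^ (-q) with hL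
    have hL0 : 0 < L := by
      have : 0 < (S' / S) ^ (-q) := Real.rpow_pos_of_pos hR0 _
      positivity
    have h3 : L ≤ Tz net k q (up ω) (tp ω) x z := by
      rw [hL, hT]
      unfold Tz
      rw [← hS', ← hSd]
      have h4 : S' ^ (-q) = S ^ (-q) * (S' / S) ^ (-q) := by
        rw [← Real.mul_rpow hS0.le hR0.le]
        congr 1
        field_simp
      rw [h4]
      have h5 : 0 < S ^ (-q) * (S' / S) ^ (-q) := by
        have := Real.rpow_pos_of_pos hS0 (-q)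
        have := Real.rpow_pos_of_pos hR0 (-q)
        positivity
      have h6 := mul_le_mul_of_nonneg_left h2 hk4.le
      have h7 := mul_le_mul_of_nonneg_right h6 h5.le
      refine le_trans (le_of_eq ?_) h7
      ring
    have h8 : ENNReal.ofReal L ≤
        Finset.univ.sup fun y => ENNReal.ofReal (Tz net k q (up ω) (tp ω) x y) :=
      (ENNReal.ofReal_le_ofReal h3).trans
        (Finset.le_sup (f := fun y => ENNReal.ofReal (Tz net k q (up ω) (tp ω) x y))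
          (Finset.mem_univ z))
    have h9 : Vp net k q s (up ω) (tp ω) x ≤ ENNReal.ofReal L ^ (-s) := by
      unfold Vp
      exact Sm2_rneg hs h8
    refine h9.trans (le_of_eq ?_)
    rw [ENNReal.ofReal_rpow_of_pos hL0, ENNReal.ofReal_rpow_of_pos (Real.exp_pos _),
      ENNReal.ofReal_rpow_of_pos hR0, ← ENNReal.ofReal_mul (by positivity),
      ← ENNReal.ofReal_mul (by positivity)]
    congr 1
    rw [hL, Real.mul_rpow (by positivity) (by positivity), Real.mul_rpow hT0.le (by positivity),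
      ← Real.exp_mul, ← Real.exp_mul, ← Real.rpow_mul hR0.le, mul_assoc]
    have e1 : e * -s = (-(s' * g' * c) + 4 * s' * c ^ 2 / ell k) * (1 - q * s) := by
      have : (-(s' * g' * c) + 4 * s' * c ^ 2 / ell k) * (1 - q * s) =
        (-(g' * c) + 4 * c ^ 2 / ell k) * (s' * (1 - q * s)) := by ring
      rw [this, hs's, he]
      ring
    have e2 : -q * -s = q * s := by ring
    rw [e1, e2]
  have mF : Measurable fun a : Ωp => ENNReal.ofReal (Real.exp (-(s' * g' * (b a - r)) +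
        4 * s' * (b a - r) ^ 2 / ell k)) := by
    refine Measurable.ennreal_ofReal (Real.measurable_exp.comp ?_)
    exact ((((hb.sub_const r).const_mul (s' * g')).neg).add
      ((((hb.sub_const r).pow_const 2).const_mul (4 * s')).div_const (ell k)))
  have mF' : Measurable fun ω : ι → Ωp => ENNReal.ofReal (Real.exp (-(s' * g' * (b (ω z) - r)) +
        4 * s' * (b (ω z) - r) ^ 2 / ell k)) := mF.comp (measurable_pi_apply z)
  have mR : Measurable fun ω : ι → Ωp => ENNReal.ofReal (SSt net k (tp ω) z / S) := by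
    refine Measurable.ennreal_ofReal (Measurable.div_const ?_ S)
    unfold SSt
    refine measurable_const.add (Measurable.const_mul (Finset.measurable_sum _ fun w _ => ?_) _)
    exact (mtp w).const_mul _
  have mP : Measurable fun ω : ι → Ωp =>
      (ENNReal.ofReal (Real.exp (-(s' * g' * (b (ω z) - r)) +
        4 * s' * (b (ω z) - r) ^ 2 / ell k)) ^ (1 - q * s) *
        ENNReal.ofReal (SSt net k (tp ω) z / S) ^ (q * s)) :=
    (mF'.pow_const _).mul (mR.pow_const _)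
  calc ∫⁻ ω in Sm2_G gd, Vp net k q s (up ω) (tp ω) x ∂(Measure.pi fun _ : ι => ν)
      ≤ ∫⁻ ω in Sm2_G gd, ENNReal.ofReal (T ^ (-s)) *
      (ENNReal.ofReal (Real.exp (-(s' * g' * (b (ω z) - r)) +
        4 * s' * (b (ω z) - r) ^ 2 / ell k)) ^ (1 - q * s) *
        ENNReal.ofReal (SSt net k (tp ω) z / S) ^ (q * s)) ∂(Measure.pi fun _ : ι => ν) :=
        setLIntegral_mono' (Sm2_Gm gd hgd) hpt
    _ = ENNReal.ofReal (T ^ (-s)) * ∫⁻ ω in Sm2_G gd,
      (ENNReal.ofReal (Real.exp (-(s' * g' * (b (ω z) - r)) +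
        4 * s' * (b (ω z) - r) ^ 2 / ell k)) ^ (1 - q * s) *
        ENNReal.ofReal (SSt net k (tp ω) z / S) ^ (q * s)) ∂(Measure.pi fun _ : ι => ν) :=
        lintegral_const_mul _ mP
    _ ≤ ENNReal.ofReal (T ^ (-s)) *
        ((∫⁻ ω in Sm2_G gd, ENNReal.ofReal (Real.exp (-(s' * g' * (b (ω z) - r)) +
        4 * s' * (b (ω z) - r) ^ 2 / ell k)) ∂(Measure.pi fun _ : ι => ν)) ^ (1 - q * s) *
        (∫⁻ ω in Sm2_G gd, ENNReal.ofReal (SSt net k (tp ω) z / S)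
          ∂(Measure.pi fun _ : ι => ν)) ^ (q * s)) := by
        gcongr
        exact ENNReal.lintegral_mul_norm_pow_le mF'.aemeasurable mR.aemeasurable h1qs.le hqs0
          (by ring)
    _ ≤ ENNReal.ofReal (T ^ (-s)) *
        (ENNReal.ofReal (Real.exp E) ^ (1 - q * s) *
        ENNReal.ofReal (Real.exp X2) ^ (q * s)) := by
        gcongr
        exact (Sm2_one ν gd hgd _ mF z).trans hE
    _ = _ := by
        rw [ENNReal.ofReal_rpow_of_pos (Real.exp_pos _), ENNReal.ofReal_rpow_of_pos (Real.exp_pos _),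
          ← ENNReal.ofReal_mul (by positivity), ← Real.exp_mul, ← Real.exp_mul, ← Real.exp_add,
          hV, mul_comm]
        congr 3
        ring


open Filter Topology in
private theorem Sm2_ev {P : ℝ → Prop} (h : ∀ᶠ x in 𝓝[>] (0 : ℝ), P x) :
    ∃ x0 : ℝ, 0 < x0 ∧ ∀ x, 0 < x → x < x0 → P x := by
  obtain ⟨u, hu, hs⟩ := mem_nhdsGT_iff_exists_Ioo_subset.1 h
  exact ⟨u, hu, fun x h1 h2 => hs ⟨h1, h2⟩⟩

open Filter Topology in
private theorem Sm2_pow (C : ℝ) {a δ : ℝ} (ha : 0 < a) (hδ : 0 < δ) :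
    ∀ᶠ x in 𝓝[>] (0 : ℝ), C * x ^ a ≤ δ := by
  have h1 : Tendsto (fun x : ℝ => C * x ^ a) (𝓝[>] 0) (𝓝 (C * 0)) := by
    refine Tendsto.const_mul C ?_
    have h2 : ContinuousAt (fun x : ℝ => x ^ a) 0 := Real.continuousAt_rpow_const 0 a (Or.inr ha.le)
    have h3 := h2.tendsto
    rw [Real.zero_rpow ha.ne'] at h3
    exact h3.mono_left nhdsWithin_le_nhds
  rw [mul_zero] at h1
  exact (h1.eventually (gt_mem_nhds hδ)).mono fun x hx => hx.le

open Filter Topology in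
private theorem Sm2_ell (C : ℝ) : ∀ᶠ k in 𝓝[>] (0 : ℝ), C ≤ ell k := by
  have h1 : Tendsto (fun k : ℝ => -Real.log k) (𝓝[>] 0) atTop :=
    tendsto_neg_atBot_atTop.comp Real.tendsto_log_nhdsGT_zero
  refine (h1.eventually_ge_atTop C).mono fun k hk => ?_
  unfold ell
  rw [one_div, Real.log_inv]
  exact hk

open Filter Topology in
private theorem Sm2_powell (C : ℝ) {a δ : ℝ} (ha : 0 < a) (hδ : 0 < δ) :
    ∀ᶠ k in 𝓝[>] (0 : ℝ), C * k ^ a * ell k ≤ δ := by
  have h1 : Tendsto (fun k : ℝ => -C * (Real.log k * k ^ a)) (𝓝[>] 0) (𝓝 (-C * 0)) :=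
    (tendsto_log_mul_rpow_nhdsGT_zero ha).const_mul (-C)
  rw [mul_zero] at h1
  refine (h1.eventually (gt_mem_nhds hδ)).mono fun k hk => ?_
  unfold ell
  rw [one_div, Real.log_inv]
  refine le_trans (le_of_eq ?_) hk.le
  ring

private theorem Sm2_elk (k : ℝ) : ell k = -Real.log k := by
  unfold ell; rw [one_div, Real.log_inv]

private theorem Sm2_drift {β k h v Cr : ℝ} (hβ : 0 < β) (hk : 0 < k) (hk1 : k < 1) (hh : 0 < h)
    (hel0 : 0 < ell k) (hCr1 : 1 ≤ Cr) (hv : 0 < v) (K4 : Cr * k ^ (β / 8) * ell k ≤ 1 / 2)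
    (K5 : 1 * k ^ (1 / 4 : ℝ) * ell k ≤ 1 / 2) :
    (gX' (Real.log v / ell k) * (h * (Cr * v ^ β + k ^ (1 / 4 : ℝ))) ≤ h / ell k) ∨
    (1 ≤ k ^ (1 / 16 : ℝ) * v ∧
      gX' (Real.log v / ell k) * (h * (Cr * v ^ β + k ^ (1 / 4 : ℝ))) ≤ 2 * Cr * h * v ^ β) := by
  have hk4 : (0 : ℝ) < k ^ (1 / 4 : ℝ) := Real.rpow_pos_of_pos hk _
  have hk41 : k ^ (1 / 4 : ℝ) ≤ 1 := Real.rpow_le_one hk.le hk1.le (by norm_num)
  have hvβ : 0 < v ^ β := Real.rpow_pos_of_pos hv _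
  obtain ⟨hg0, hg1⟩ := gX'_mem (Real.log v / ell k)
  set g' : ℝ := gX' (Real.log v / ell k) with hg'
  set r : ℝ := h * (Cr * v ^ β + k ^ (1 / 4 : ℝ)) with hr
  have hr0 : 0 ≤ r := by positivity
  have hlk := Sm2_elk k
  have hgle : g' * r ≤ r := mul_le_of_le_one_left hr0 hg1
  rcases le_or_gt (Real.log v / ell k) (-(1 / 8)) with hc | hc
  · left
    refine hgle.trans ?_
    rw [div_le_iff₀ hel0] at hc
    have g1 : v ≤ k ^ (1 / 8 : ℝ) := by
      rw [← Real.exp_log hv, Real.rpow_def_of_pos hk]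
      refine Real.exp_le_exp.2 ?_
      rw [hlk] at hc
      linarith
    have g2 : v ^ β ≤ k ^ (β / 8) := by
      have g3 := Real.rpow_le_rpow hv.le g1 hβ.le
      rw [← Real.rpow_mul hk.le] at g3
      have g4 : (1 / 8 : ℝ) * β = β / 8 := by ring
      rwa [g4] at g3
    rw [le_div_iff₀ hel0, hr]
    have g5 : Cr * v ^ β * ell k ≤ Cr * k ^ (β / 8) * ell k := by gcongr
    have g6 : Cr * v ^ β * ell k + 1 * k ^ (1 / 4 : ℝ) * ell k ≤ 1 := by linarith
    have g7 := mul_le_mul_of_nonneg_left g6 hh.le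
    linarith
  · rcases le_or_gt (Real.log v / ell k) (1 / 16) with hc2 | hc2
    · left
      have g1 : g' = 0 := by
        rw [hg']
        unfold gX'
        rw [if_neg (by linarith), if_neg (by linarith), if_pos hc2]
      rw [g1, zero_mul]
      positivity
    · right
      rw [lt_div_iff₀ hel0] at hc2
      have g1 : 1 ≤ k ^ (1 / 16 : ℝ) * v := by
        rw [Real.rpow_def_of_pos hk]
        nth_rw 1 [← Real.exp_log hv]
        rw [← Real.exp_add]
        refine Real.one_le_exp ?_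
        rw [hlk] at hc2
        linarith
      refine ⟨g1, hgle.trans ?_⟩
      have g2 : k ^ (1 / 16 : ℝ) ≤ 1 := Real.rpow_le_one hk.le hk1.le (by norm_num)
      have g3 : 1 ≤ v := by
        have := mul_le_mul_of_nonneg_right g2 hv.le
        linarith
      have g4 : 1 ≤ v ^ β := Real.one_le_rpow g3 hβ.le
      have g5 : k ^ (1 / 4 : ℝ) ≤ Cr * v ^ β := by
        have : 1 * 1 ≤ Cr * v ^ β := mul_le_mul hCr1 g4 zero_le_one (by linarith)
        linarith
      have g6 := mul_le_mul_of_nonneg_left g5 hh.le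
      rw [hr]
      linarith

private theorem Sm2_r2 {β k h v Cr : ℝ} (hβ : 0 < β) (hk : 0 < k) (hk1 : k < 1) (hh : 0 < h)
    (hh1 : h < 1) (hCr1 : 1 ≤ Cr) (hv : 0 < v) (hvr : v ≤ rad β h)
    (H4 : 8 * (Cr + 1) ^ 2 * h ^ (1 / 2 : ℝ) ≤ 1) :
    8 * (h * (Cr * v ^ β + k ^ (1 / 4 : ℝ))) ^ 2 ≤ h := by
  have hk4 : (0 : ℝ) < k ^ (1 / 4 : ℝ) := Real.rpow_pos_of_pos hk _
  have hk41 : k ^ (1 / 4 : ℝ) ≤ 1 := Real.rpow_le_one hk.le hk1.le (by norm_num)
  have hvβ : 0 < v ^ β := Real.rpow_pos_of_pos hv _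
  have hrf := rad_facts hβ hh hh1 hv.le hvr
  have hr0 : 0 ≤ h * (Cr * v ^ β + k ^ (1 / 4 : ℝ)) := by positivity
  have g1 : h * (Cr * v ^ β + k ^ (1 / 4 : ℝ)) ≤ (Cr + 1) * h ^ (3 / 4 : ℝ) := by
    have g2 : Cr * (h * v ^ β) ≤ Cr * h ^ (3 / 4 : ℝ) :=
      mul_le_mul_of_nonneg_left hrf.2.2.1 (by linarith)
    have g3 : h ≤ h ^ (3 / 4 : ℝ) := by
      have := Real.rpow_le_rpow_of_exponent_ge hh hh1.le (show (3 / 4 : ℝ) ≤ 1 by norm_num)
      rwa [Real.rpow_one] at this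
    have g4 : h * k ^ (1 / 4 : ℝ) ≤ h * 1 := mul_le_mul_of_nonneg_left hk41 hh.le
    linarith
  have g5 := pow_le_pow_left₀ hr0 g1 2
  have g6 : ((Cr + 1) * h ^ (3 / 4 : ℝ)) ^ 2 = (Cr + 1) ^ 2 * h ^ (1 / 2 : ℝ) * h := by
    have g7 : h ^ (3 / 4 : ℝ) * h ^ (3 / 4 : ℝ) = h ^ (1 / 2 : ℝ) * h := by
      nth_rw 4 [← Real.rpow_one h]
      rw [← Real.rpow_add hh, ← Real.rpow_add hh]
      norm_num
    rw [mul_pow, sq (h ^ (3 / 4 : ℝ)), g7]
    ring
  have g8 : 8 * (Cr + 1) ^ 2 * h ^ (1 / 2 : ℝ) * h ≤ 1 * h := mul_le_mul_of_nonneg_right H4 hh.le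
  linarith

private theorem Sm2_hE1 {q s s' el ε h g' r : ℝ} (hh : 0 < h) (hel0 : 0 < el) (hs : 0 < s)
    (hqs0 : 0 ≤ q * s) (h1qs : 0 < 1 - q * s) (hs's : s' * (1 - q * s) = s) (hs'2 : s' ≤ 2 * s)
    (hε0 : 0 < ε) (hε2 : ε ≤ s / el) (hr2 : 8 * r ^ 2 ≤ h) :
    (1 - q * s) * ((s' ^ 2 / 2 + 16 * s' / el + ε) * h + s' * g' * r + 8 * s' * r ^ 2 / el) ≤
      (s ^ 2 + 18 * s / el) * h + s * (g' * r) := by
  have e1 : (1 - q * s) * ((s' ^ 2 / 2 + 16 * s' / el + ε) * h + s' * g' * r +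
      8 * s' * r ^ 2 / el) = (s' * (1 - q * s)) * (s' / 2) * h +
      16 * (s' * (1 - q * s)) / el * h + (1 - q * s) * ε * h + (s' * (1 - q * s)) * (g' * r) +
      (s' * (1 - q * s)) * (8 * r ^ 2) / el := by ring
  rw [e1, hs's]
  have g1 : s * (s' / 2) * h ≤ s ^ 2 * h := by
    have : s * (s' / 2) ≤ s ^ 2 := by nlinarith
    exact mul_le_mul_of_nonneg_right this hh.le
  have g2 : (1 - q * s) * ε * h ≤ s / el * h := by
    have : (1 - q * s) * ε ≤ 1 * (s / el) := by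
      refine mul_le_mul (by linarith) hε2 hε0.le (by norm_num)
    have := mul_le_mul_of_nonneg_right this hh.le
    linarith
  have g3 : s * (8 * r ^ 2) / el ≤ s * h / el := by gcongr
  have e2 : (s ^ 2 + 18 * s / el) * h = s ^ 2 * h + 16 * s / el * h + s / el * h + s * h / el := by
    ring
  linarith

private theorem Sm2_strong {β q s el h A c' X v E G Cr k16 : ℝ} (hβ : 0 < β) (hh : 0 < h)
    (hel0 : 0 < el) (hs : 0 < s) (hq0 : 0 < q) (hc' : 0 < c') (hXp : 0 < X) (hv : 0 < v)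
    (hvX : v ≤ X) (hCr1 : 1 ≤ Cr) (hq2 : 8 * Cr ≤ q * c')
    (hgr : G ≤ h / el ∨ G ≤ 2 * Cr * h * v ^ β)
    (hE1 : (1 - q * s) * E ≤ (s ^ 2 + 18 * s / el) * h + s * G)
    (hqA' : q * s * (h * k16 * A) ≤ s / el * h) :
    (1 - q * s) * E + q * s * (h * k16 * A - h * (c' / 2) * X ^ β) ≤
        (s ^ 2 + 20 * s / el) * h - s * h * (q * c' / 4 * X ^ β) := by
  have hXβ : 0 < X ^ β := Real.rpow_pos_of_pos hXp _
  have hvβ : 0 < v ^ β := Real.rpow_pos_of_pos hv _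
  have g1 : s * G ≤ s / el * h + s * h * (q * c' / 4 * X ^ β) := by
    rcases hgr with hc | hc
    · have g2 := mul_le_mul_of_nonneg_left hc hs.le
      have g3 : 0 ≤ s * h * (q * c' / 4 * X ^ β) := by positivity
      have e1 : s * (h / el) = s / el * h := by ring
      linarith
    · have g2 := mul_le_mul_of_nonneg_left hc hs.le
      have g3 : v ^ β ≤ X ^ β := Real.rpow_le_rpow hv.le hvX hβ.le
      have g4 : s * (2 * Cr * h * v ^ β) ≤ s * h * (q * c' / 4 * X ^ β) := by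
        have g5 : 2 * Cr * v ^ β ≤ q * c' / 4 * X ^ β :=
          mul_le_mul (by linarith) g3 hvβ.le (by positivity)
        have g6 := mul_le_mul_of_nonneg_left g5 (by positivity : 0 ≤ s * h)
        linarith
      have g5 : 0 ≤ s / el * h := by positivity
      linarith
  have e2 : q * s * (h * k16 * A - h * (c' / 2) * X ^ β) =
      q * s * (h * k16 * A) - 2 * (s * h * (q * c' / 4 * X ^ β)) := by ring
  have e3 : (s ^ 2 + 20 * s / el) * h = (s ^ 2 + 18 * s / el) * h + s / el * h + s / el * h := by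
    ring
  linarith

private theorem Sm2_fin {q c' κβ s h el X2 Y : ℝ} (hs : 0 < s) (hs1 : s ≤ 1 / 8) (hh : 0 < h)
    (hel5 : 5 ≤ el) (hq0 : 0 < q) (hc' : 0 < c') (hκ : 0 < κβ)
    (K7 : 5 ≤ q * c' / 8 * κβ) (hX : κβ ≤ X2)
    (hY : Y ≤ (s ^ 2 + 20 * s / el) * h - s * h * (q * c' / 4 * X2)) :
    Y ≤ -(2 * (s * (q * c' / 8 * κβ) * h / 2)) := by
  refine hY.trans ?_
  have g5 : s * h * (q * c' / 4 * κβ) ≤ s * h * (q * c' / 4 * X2) := by gcongr
  have g6 : s ^ 2 + 20 * s / el ≤ s * 5 := by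
    have g7 : 20 * s / el ≤ 4 * s := by
      rw [div_le_iff₀ (by linarith)]
      nlinarith
    nlinarith
  have g8 := mul_le_mul_of_nonneg_right g6 hh.le
  have g9 := mul_le_mul_of_nonneg_left K7 (by positivity : 0 ≤ s * h)
  have e1 : s * h * (q * c' / 4 * κβ) = 2 * (s * h * (q * c' / 8 * κβ)) := by ring
  linarith

open Filter Topology in
private theorem Sm2_core (N d : ℕ) (β : ℝ) (hN : 2 ≤ N) (hβ : 0 < β) : ∃ q0 : ℝ, 1 ≤ q0 ∧
    ∀ q, q0 ≤ q → ∃ C9 c k0 : ℝ, 0 < C9 ∧ 0 < c ∧ 0 < k0 ∧ k0 < 1 ∧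
    ∀ {Ωp : Type} [MeasurableSpace Ωp] (ν : Measure Ωp) [IsProbabilityMeasure ν]
      (b : ℝ → Ωp → ℝ) (_ : ∀ h, Measurable (b h)) (gd : ℝ → Set Ωp)
      (_ : ∀ h, MeasurableSet (gd h)) (k : ℝ), 0 < k → k < k0 → BNoise N ν b gd →
    ∀ s : ℝ, 0 < s → 8 * q * s ≤ 1 →
    ∃ h0 : ℝ, 0 < h0 ∧ ∀ h, 0 < h → h < h0 → ∀ {ι : Type} [Fintype ι] (net : Net ι d)
      (u u' t : ι → ℝ) (up up' tp : (ι → Ωp) → ι → ℝ),
      (∀ x, 0 ≤ u x) → (∀ x, u x ≤ rad β h) → (∀ x, 0 ≤ u' x) → (∀ x, u' x ≤ rad β h) →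
      (∀ x, t x = u x + u' x) → (∀ ω x, tp ω x = up ω x + up' ω x) →
      (∀ x, Measurable fun ω => up ω x) → (∀ x, Measurable fun ω => up' ω x) →
      (∀ ω, (∀ x, ω x ∈ gd h) → QStep net β h k (fun x => b h (ω x)) u (up ω)) →
      (∀ ω, (∀ x, ω x ∈ gd h) → QStep net β h k (fun x => b h (ω x)) u' (up' ω)) → ∀ x,
      (∫⁻ ω in Sm2_G (gd h), Vp net k q s (up ω) (tp ω) x ∂(Measure.pi fun _ : ι => ν) ≤
        ENNReal.ofReal (Real.exp (C9 * (s / ell k + s ^ 2) * h)) * Vp net k q s u t x) ∧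
      ((∀ z, (∀ y, Tz net k q u t x y ≤ Tz net k q u t x z) → 2 ≤ SSt net k t z) →
        ∫⁻ ω in Sm2_G (gd h), Vp net k q s (up ω) (tp ω) x ∂(Measure.pi fun _ : ι => ν) ≤
        ENNReal.ofReal (1 - c * s * k ^ (-(β / 16)) * h) * Vp net k q s u t x) := by
  have hC1 : (0 : ℝ) ≤ (N : ℝ) + 1 := by positivity
  obtain ⟨A, c', hA, hc', hES⟩ := Sm2_ES d hβ hC1
  have h2β : (0 : ℝ) < 2 ^ β := Real.rpow_pos_of_pos two_pos _
  have h2β1 : (1 : ℝ) ≤ 2 ^ β := Real.one_le_rpow one_le_two hβ.le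
  set Cr : ℝ := 2 * 2 ^ β with hCr
  have hCr1 : 1 ≤ Cr := by linarith
  refine ⟨max 1 (8 * Cr / c'), le_max_left _ _, ?_⟩
  intro q hq
  have hq1 : 1 ≤ q := (le_max_left _ _).trans hq
  have hq2 : 8 * Cr ≤ q * c' := by
    have h1 := (le_max_right _ _).trans hq
    rwa [div_le_iff₀ hc'] at h1
  have hq0 : 0 < q := by linarith
  have h2q : (0 : ℝ) < 2 ^ q := Real.rpow_pos_of_pos two_pos _
  have hβ16 : 0 < β / 16 := by positivity
  -- choice of k0
  obtain ⟨k1, hk1, hK⟩ := Sm2_ev ((Sm2_ell 5).and ((Sm2_pow (4 * d * 2 ^ q) (a := 1 / 4)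
    (δ := 1 / 4) (by norm_num) (by norm_num)).and ((Sm2_pow (4 * d) (a := 3 / 4)
    (δ := 1 / 4) (by norm_num) (by norm_num)).and ((Sm2_powell Cr (a := β / 8) (δ := 1 / 2)
    (by positivity) (by norm_num)).and ((Sm2_powell 1 (a := 1 / 4) (δ := 1 / 2)
    (by norm_num) (by norm_num)).and ((Sm2_powell (q * A) (a := 1 / 16) (δ := 1)
    (by norm_num) (by norm_num)).and ((tendsto_rpow_neg_nhdsGT_zero
    (show -(β / 16) < 0 by linarith)).eventually_ge_atTop (40 / (q * c')))))))))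
  refine ⟨20, q * c' / 16, min k1 (1 / 2), by norm_num, by positivity,
    lt_min hk1 (by norm_num), (min_le_right _ _).trans_lt (by norm_num), ?_⟩
  intro Ωp _ ν _ b hb gd hgd k hk hkk hB s hs hqs
  have hk11 : k < 1 := hkk.trans_le ((min_le_right _ _).trans (by norm_num))
  obtain ⟨K1, K2, K3, K4, K5, K6, K7⟩ := hK k hk (hkk.trans_le (min_le_left _ _))
  set el : ℝ := ell k with hel
  have hel0 : 0 < el := by linarith
  set k16 : ℝ := k ^ (1 / 16 : ℝ) with hk16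
  have hk160 : 0 < k16 := Real.rpow_pos_of_pos hk _
  set κβ : ℝ := k ^ (-(β / 16)) with hκβ
  have hκβ0 : 0 < κβ := Real.rpow_pos_of_pos hk _
  have hqs0 : 0 < q * s := by positivity
  have hqs1 : q * s ≤ 1 / 8 := by linarith
  have hs1 : s ≤ 1 / 8 := by nlinarith
  have h1qs : 0 < 1 - q * s := by linarith
  set s' : ℝ := s / (1 - q * s) with hs'
  have hs's : s' * (1 - q * s) = s := by rw [hs', div_mul_cancel₀ _ h1qs.ne']
  have hs'0 : 0 < s' := by positivity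
  have hs'2 : s' ≤ 2 * s := by
    rw [hs', div_le_iff₀ h1qs]
    nlinarith
  have hss' : s' ≤ 1 / 7 := by
    rw [hs', div_le_iff₀ h1qs]
    linarith
  have K7' : 5 ≤ q * c' / 8 * κβ := by
    rw [div_le_iff₀ (by positivity)] at K7
    linarith
  set ε : ℝ := min 1 (s / el) with hε
  have hε0 : 0 < ε := lt_min one_pos (by positivity)
  have hε1 : ε ≤ 1 := min_le_left _ _
  have hε2 : ε ≤ s / el := min_le_right _ _
  obtain ⟨hm, hm0, hmgf⟩ := hB.mgf 2 ε two_pos hε0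
  have hlog2 : 0 < Real.log 2 := Real.log_pos one_lt_two
  -- choice of h0
  obtain ⟨h1, hh1, hH⟩ := Sm2_ev ((Sm2_pow 2 (a := 3 / 8) (δ := Real.log 2) (by norm_num) hlog2).and
    ((Sm2_pow (2 ^ β) (a := 3 / 4) (δ := 1 / 4) (by norm_num) (by norm_num)).and
    ((Sm2_pow 64 (a := 3 / 4) (δ := 1) (by norm_num) (by norm_num)).and
    ((Sm2_pow (8 * (Cr + 1) ^ 2) (a := 1 / 2) (δ := 1) (by norm_num) (by norm_num)).and
    ((Sm2_pow (N : ℝ) (a := 1) (δ := 1) (by norm_num) (by norm_num)).and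
    (Sm2_pow (s * (q * c' / 8 * κβ)) (a := 1) (δ := 1) (by norm_num) (by norm_num)))))))
  refine ⟨min (min h1 hm) (1 / 2), lt_min (lt_min hh1 hm0) (by norm_num), ?_⟩
  intro h hh hhh ι _ net u u' t up up' tp hu0 hu hu0' hu' htu htp mup mup' Q Q' x
  have hh2 : h < 1 / 2 := hhh.trans_le (min_le_right _ _)
  have hh1' : h < 1 := by linarith
  obtain ⟨H1, H2, H3, H4, H5, H6⟩ := hH h hh (hhh.trans_le ((min_le_left _ _).trans (min_le_left _ _)))
  have hmgf' := hmgf h hh (hhh.trans_le ((min_le_left _ _).trans (min_le_right _ _)))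
  rw [Real.rpow_one] at H5 H6
  have hhs : 2 ^ β * h ^ (3 / 4 : ℝ) + h / 2 ≤ 1 / 2 := by linarith
  have hbd : ∀ a ∈ gd h, |b h a| ≤ Real.log 2 := fun a ha => (hB.bdd h hh hh1' a ha).trans H1
  have hbd2 : ∀ a ∈ gd h, 16 * s' * b h a ^ 2 ≤ el := by
    intro a ha
    have g1 := hB.bdd h hh hh1' a ha
    have g2 : b h a ^ 2 ≤ 4 * h ^ (3 / 4 : ℝ) := by
      have g3 : h ^ (3 / 4 : ℝ) = h ^ (3 / 8 : ℝ) * h ^ (3 / 8 : ℝ) := by
        rw [← Real.rpow_add hh]; norm_num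
      rw [g3, ← sq_abs]
      nlinarith [abs_nonneg (b h a)]
    have g4 : 16 * s' * b h a ^ 2 ≤ 16 * 1 * (4 * h ^ (3 / 4 : ℝ)) := by
      have := sq_nonneg (b h a)
      gcongr
      linarith
    linarith
  have hm1 : ∫⁻ a in gd h, ENNReal.ofReal (Real.exp (b h a)) ∂ν ≤
      ENNReal.ofReal (1 + ((N : ℝ) + 1) * h) := by
    have g1 := (hmgf' 1 (by norm_num)).1
    simp only [one_mul] at g1
    refine g1.trans (ENNReal.ofReal_le_ofReal ?_)
    have g2 : lamN N * 1 + 1 ^ 2 / 2 + ε ≤ (N : ℝ) + 1 := by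
      unfold lamN
      have : (0 : ℝ) ≤ N := by positivity
      linarith
    have := mul_le_mul_of_nonneg_right g2 hh.le
    linarith
  have ht : ∀ x, 0 ≤ t x := fun x => by rw [htu]; have := hu0 x; have := hu0' x; linarith
  obtain ⟨z, hz⟩ := exists_argmax net k q u t x
  have hES' := hES net ν (b h) (hb h) (gd h) (hgd h) hh hh1' hk hk11.le hhs hbd hm1 u u' t hu0 hu
    hu0' hu' htu up up' tp htp mup mup' Q Q' z
  set X : ℝ := ∑ w, (1 / 2 : ℝ) ^ net.dist z w * t w with hX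
  have hSX : SSt net k t z = 1 + k16 * X := rfl
  have hX0 : 0 ≤ X := Finset.sum_nonneg fun w _ => mul_nonneg (by positivity) (ht w)
  have hvX : u z ≤ X := by
    have g1 : (1 / 2 : ℝ) ^ net.dist z z * t z ≤ X :=
      Finset.single_le_sum (f := fun w => (1 / 2 : ℝ) ^ net.dist z w * t w)
        (fun w _ => mul_nonneg (by positivity) (ht w)) (Finset.mem_univ z)
    rw [net.dist_self, pow_zero, one_mul, htu] at g1
    have := hu0' z
    linarith
  have hy1 : s * (q * c' / 8 * κβ) * h ≤ 1 := H6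
  have hy0 : 0 ≤ s * (q * c' / 8 * κβ) * h := by positivity
  have hfac : 0 < 1 - q * c' / 16 * s * κβ * h := by
    have : q * c' / 16 * s * κβ * h = s * (q * c' / 8 * κβ) * h / 2 := by ring
    rw [this]
    linarith
  rcases (hu0 z).lt_or_eq with hv | hv
  swap
  · -- everything vanishes
    have g0 : Vp net k q s u t x = ⊤ := by
      rw [Vp_argmax net k q s u t x z hz]
      have g1 : Tz net k q u t x z = 0 := by
        unfold Tz fpot
        rw [if_pos (le_of_eq hv.symm)]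
        ring
      rw [g1, ENNReal.ofReal_zero, ENNReal.zero_rpow_of_neg (by linarith)]
    rw [g0]
    constructor
    · rw [ENNReal.mul_top (by simpa using Real.exp_pos _)]
      exact le_top
    · intro _
      rw [ENNReal.mul_top (by simpa using hfac)]
      exact le_top
  set r : ℝ := h * (Cr * u z ^ β + k ^ (1 / 4 : ℝ)) with hr
  have hk4 : (0 : ℝ) < k ^ (1 / 4 : ℝ) := Real.rpow_pos_of_pos hk _
  have hk41 : k ^ (1 / 4 : ℝ) ≤ 1 := Real.rpow_le_one hk.le hk11.le (by norm_num)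
  have hvβ : 0 < u z ^ β := Real.rpow_pos_of_pos hv _
  have hr0 : 0 ≤ r := by positivity
  have hrf := rad_facts hβ hh hh1' (hu0 z) (hu z)
  have hr2 : 8 * r ^ 2 ≤ h :=
    Sm2_r2 hβ hk hk11 hh hh1' hCr1 hv (hu z) H4
  set g' : ℝ := gX' (Real.log (u z) / el) with hg'
  obtain ⟨hg0, hg1⟩ := gX'_mem (Real.log (u z) / el)
  rw [← hg'] at hg0 hg1
  -- the drift term
  have hgr : (g' * r ≤ h / el) ∨ (1 ≤ k16 * u z ∧ g' * r ≤ 2 * Cr * h * u z ^ β) :=
    Sm2_drift hβ hk hk11 hh hel0 hCr1 hv K4 K5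
  -- first factor
  have hE := Sm2_E1 hN ν (b h) (hb h) (gd h) (hgd h) (r := r) (g' := g') (s' := s') (el := el)
    (ε := ε) hh H5 hel0 hs'0 (by linarith) hg0 hg1 (by linarith) hε0.le hbd2
    (fun p hp => (hmgf' p hp).1)
  have hlow : ∀ ω ∈ Sm2_G (ι := ι) (gd h), u z * Real.exp (b h (ω z) - r) ≤ up ω z := by
    intro ω hω
    exact Sm2_low net hβ hh hh1' hk hk11 hq0.le (by linarith) hhs (fun x => b h (ω x)) u (up ω) t
      (Q ω hω) hu ht x z hz (hbd _ (hω z))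
  have mtp : ∀ x, Measurable fun ω => tp ω x := by
    intro y
    have : (fun ω : ι → Ωp => tp ω y) = fun ω => up ω y + up' ω y := funext fun ω => htp ω y
    rw [this]
    exact (mup y).add (mup' y)
  have htp0 : ∀ ω ∈ Sm2_G (ι := ι) (gd h), ∀ x, 0 ≤ tp ω x := by
    intro ω hω y
    rw [htp]
    exact add_nonneg ((Q ω hω).n1 y) ((Q' ω hω).n1 y)
  set E : ℝ := (s' ^ 2 / 2 + 16 * s' / el + ε) * h + s' * g' * r + 8 * s' * r ^ 2 / el with hEd
  have hE1 : (1 - q * s) * E ≤ (s ^ 2 + 18 * s / el) * h + s * (g' * r) :=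
    Sm2_hE1 hh hel0 hs hqs0.le h1qs hs's hs'2 hε0 hε2 hr2
  have hqA : q * k16 * A ≤ 1 / el := by
    rw [le_div_iff₀ hel0]
    linarith
  have hqA' : q * s * (h * k16 * A) ≤ s / el * h := by
    have := mul_le_mul_of_nonneg_left hqA (by positivity : 0 ≤ s * h)
    calc q * s * (h * k16 * A) = s * h * (q * k16 * A) := by ring
      _ ≤ s * h * (1 / el) := this
      _ = s / el * h := by ring
  have hmono : ∀ p p' : ℝ, p ≤ p' → ENNReal.ofReal (Real.exp p) * Vp net k q s u t x ≤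
      ENNReal.ofReal (Real.exp p') * Vp net k q s u t x := by
    intro p p' hpp
    gcongr
  -- bound with the strong term
  have hstrong : 1 ≤ k16 * X →
      (1 - q * s) * E + q * s * (h * k16 * A - h * (c' / 2) * X ^ β) ≤
        (s ^ 2 + 20 * s / el) * h - s * h * (q * c' / 4 * X ^ β) := by
    intro hX1
    have hXp : 0 < X := by
      by_contra hc
      have : X = 0 := le_antisymm (not_lt.1 hc) hX0
      rw [this] at hX1
      norm_num at hX1
    exact Sm2_strong hβ hh hel0 hs hq0 hc' hXp hv hvX hCr1 hq2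
      (hgr.imp id (fun hc => hc.2)) hE1 hqA'
  constructor
  · rcases hgr with hc | ⟨hc1, hc2⟩
    · have hcomb := Sm2_comb net ν (b h) (hb h) (gd h) (hgd h) hk hk11 hq0.le hs (by linarith) u t
        up tp ht mtp x z hz hv htp0 hlow hE hES'.1
      refine hcomb.trans (hmono _ _ ?_)
      have g2 := mul_le_mul_of_nonneg_left hc hs.le
      have e1 : s * (h / el) = s / el * h := by ring
      have e2 : 20 * (s / el + s ^ 2) * h = (s ^ 2 + 18 * s / el) * h + s / el * h + s / el * h +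
        19 * s ^ 2 * h := by ring
      have g3 : 0 ≤ 19 * s ^ 2 * h := by positivity
      linarith
    · have hX1 : 1 ≤ k16 * X := hc1.trans (mul_le_mul_of_nonneg_left hvX hk160.le)
      have hcomb := Sm2_comb net ν (b h) (hb h) (gd h) (hgd h) hk hk11 hq0.le hs (by linarith) u t
        up tp ht mtp x z hz hv htp0 hlow hE (hES'.2 hX1)
      refine hcomb.trans (hmono _ _ ?_)
      refine (hstrong hX1).trans ?_
      have hXβ : 0 ≤ X ^ β := Real.rpow_nonneg hX0 _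
      have g3 : 0 ≤ s * h * (q * c' / 4 * X ^ β) := by positivity
      have e2 : 20 * (s / el + s ^ 2) * h = (s ^ 2 + 20 * s / el) * h + 19 * s ^ 2 * h := by ring
      have g4 : 0 ≤ 19 * s ^ 2 * h := by positivity
      linarith
  · intro hun
    have hS2 := hun z hz
    rw [hSX] at hS2
    have hX1 : 1 ≤ k16 * X := by linarith
    have hcomb := Sm2_comb net ν (b h) (hb h) (gd h) (hgd h) hk hk11 hq0.le hs (by linarith) u t
      up tp ht mtp x z hz hv htp0 hlow hE (hES'.2 hX1)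
    refine hcomb.trans ?_
    refine mul_le_mul_left (ENNReal.ofReal_le_ofReal ?_) _
    have hXk : κβ ≤ X ^ β := by
      have g1 : k ^ (-(1 / 16) : ℝ) ≤ X := by
        rw [Real.rpow_neg hk.le, inv_le_iff_one_le_mul₀ hk160]
        linarith
      have g2 := Real.rpow_le_rpow (Real.rpow_nonneg hk.le _) g1 hβ.le
      rw [← Real.rpow_mul hk.le] at g2
      have g3 : (-(1 / 16) : ℝ) * β = -(β / 16) := by ring
      rwa [g3] at g2
    have g4 : (1 - q * s) * E + q * s * (h * k16 * A - h * (c' / 2) * X ^ β) ≤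
        -(2 * (s * (q * c' / 8 * κβ) * h / 2)) :=
      Sm2_fin hs hs1 hh K1 hq0 hc' hκβ0 K7' hXk (hstrong hX1)
    refine (Real.exp_le_exp.2 g4).trans ((Sm2_exp2 (by positivity) (by linarith)).trans
      (le_of_eq ?_))
    ring

theorem sm_step (N d : ℕ) (β : ℝ) (hN : 2 ≤ N) (hβ : 0 < β) : ∃ q0 : ℝ, 1 ≤ q0 ∧
    ∀ q, q0 ≤ q → ∃ C9 c k0 : ℝ, 0 < C9 ∧ 0 < c ∧ 0 < k0 ∧ k0 < 1 ∧
    ∀ (F : Fam d) (k : ℝ) (S : PSys F β k), 0 < k → k < k0 → BNoise N S.ν S.b S.gd →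
    ∀ s : ℝ, 0 < s → 8 * q * s ≤ 1 →
    ∃ h0 : ℝ, 0 < h0 ∧ ∀ h, 0 < h → h < h0 → ∀ (L : ℕ) (G : (boxS d L → F.V) × (boxS d L → F.V)),
      (∀ x, ‖G.1 x‖ ≤ rad β h ∧ ‖G.2 x‖ ≤ rad β h) → ∀ x,
      (∫⁻ ω in {ω | ∀ x, ω x ∈ S.gd h}, V1 k q s (S.st h L G ω) x ∂(S.mu L) ≤
          ENNReal.ofReal (Real.exp (C9 * (s / ell k + s ^ 2) * h)) * V1 k q s G x) ∧
      (∫⁻ ω in {ω | ∀ x, ω x ∈ S.gd h}, V2 k q s (S.st h L G ω) x ∂(S.mu L) ≤
          ENNReal.ofReal (Real.exp (C9 * (s / ell k + s ^ 2) * h)) * V2 k q s G x) ∧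
      (untame (V := F.V) k q (nrm G.1) (fun y => nrm G.1 y + nrm G.2 y) x →
        ∫⁻ ω in {ω | ∀ x, ω x ∈ S.gd h}, V1 k q s (S.st h L G ω) x ∂(S.mu L) ≤
          ENNReal.ofReal (1 - c * s * k ^ (-(β / 16)) * h) * V1 k q s G x) ∧
      (untame (V := F.V) k q (nrm G.2) (fun y => nrm G.1 y + nrm G.2 y) x →
        ∫⁻ ω in {ω | ∀ x, ω x ∈ S.gd h}, V2 k q s (S.st h L G ω) x ∂(S.mu L) ≤
          ENNReal.ofReal (1 - c * s * k ^ (-(β / 16)) * h) * V2 k q s G x) := by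
  obtain ⟨q0, hq0, H⟩ := Sm2_core N d β hN hβ
  refine ⟨q0, hq0, fun q hq => ?_⟩
  obtain ⟨C9, c, k0, hC9, hc, hk0, hk01, H⟩ := H q hq
  refine ⟨C9, c, k0, hC9, hc, hk0, hk01, ?_⟩
  intro F k S hk hkk hB s hs hqs
  obtain ⟨h0, hh0, H⟩ := H S.ν S.b S.mb S.gd S.mgd k hk hkk hB s hs hqs
  refine ⟨h0, hh0, ?_⟩
  intro h hh hhh L G hG x
  have mst : Measurable fun ω : boxS d L → S.Ωp => S.st h L G ω :=
    (S.mst h L).comp (measurable_const.prodMk measurable_id)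
  have m1 : ∀ y, Measurable fun ω : boxS d L → S.Ωp => nrm (S.st h L G ω).1 y := fun y =>
    ((measurable_pi_apply y).comp (measurable_fst.comp mst)).norm
  have m2 : ∀ y, Measurable fun ω : boxS d L → S.Ωp => nrm (S.st h L G ω).2 y := fun y =>
    ((measurable_pi_apply y).comp (measurable_snd.comp mst)).norm
  have A1 := H h hh hhh (boxNet d L) (nrm G.1) (nrm G.2) (fun y => nrm G.1 y + nrm G.2 y)
    (fun ω => nrm (S.st h L G ω).1) (fun ω => nrm (S.st h L G ω).2)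
    (fun ω y => nrm (S.st h L G ω).1 y + nrm (S.st h L G ω).2 y)
    (fun y => norm_nonneg _) (fun y => (hG y).1) (fun y => norm_nonneg _) (fun y => (hG y).2)
    (fun y => rfl) (fun ω y => rfl) m1 m2 (fun ω hω => S.q1 h L G ω hh hω)
    (fun ω hω => S.q2 h L G ω hh hω) x
  have A2 := H h hh hhh (boxNet d L) (nrm G.2) (nrm G.1) (fun y => nrm G.1 y + nrm G.2 y)
    (fun ω => nrm (S.st h L G ω).2) (fun ω => nrm (S.st h L G ω).1)
    (fun ω y => nrm (S.st h L G ω).1 y + nrm (S.st h L G ω).2 y)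
    (fun y => norm_nonneg _) (fun y => (hG y).2) (fun y => norm_nonneg _) (fun y => (hG y).1)
    (fun y => add_comm _ _) (fun ω y => add_comm _ _) m2 m1 (fun ω hω => S.q2 h L G ω hh hω)
    (fun ω hω => S.q1 h L G ω hh hω) x
  exact ⟨A1.1, A2.1, A1.2, A2.2⟩

end DynC

end

/-! ### from `Lib_MP_36b788c.Sm3` -/

section

/-!
# The potential: many steps

PROOF.
* `V_sq`: `V1 k q s G x ^ 2 = V1 k q (2s) G x` (`ENNReal.rpow_mul`).
* `sm_multi`: `iter_step` with `Φ = V1 … x`, `A = exp(C9 (s/ell + s²) h)`, `B = 0`.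
* `untame_time`: `E_j = ∫⁻_{alv j} V1(tr j) x`, `U_j` = the part where the state is untame for `x`. One step (`alv_markov` with `m = 1`, `sm_step`): `E_{j+1} ≤ e^{κ h}(E_j - U_j) + (1 - c s k^{-β/16} h) U_j ≤ e^{κh} E_j - c s k^{-β/16} h U_j`, `κ = C9 (s/ell+s²)`
  (work with `E_j < ∞`, otherwise `V1 G x = ∞` and the claim is trivial, or write the inequality additively). Sum over `j ∈ [n1, n2)`, `n1 = ⌈1/h⌉`, `n2 = ⌈2/h⌉`: `c s k^{-β/16} h Σ U_j ≤ e^{3κ} V1(G) x`, so the smallest `U_j` is `≤ e^{3κ} V1(G) x k^{β/16}/(c s · (1/2))`.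
* `V_one_pair`: from `V_one`.
-/

open MeasureTheory ProbabilityTheory
open scoped ENNReal

namespace DynC

open Dyn

variable {d : ℕ}

private theorem Sm3_meas_gX : Measurable gX := by
  unfold gX
  refine Measurable.ite measurableSet_Iic measurable_id ?_
  refine Measurable.ite measurableSet_Iic ?_ ?_
  · exact measurable_id.sub (((measurable_id.add_const _).pow_const 2).const_mul 4)
  refine Measurable.ite measurableSet_Iic measurable_const ?_
  exact (measurable_id.sub_const _).const_add _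

private theorem Sm3_meas_fpot (k : ℝ) : Measurable (fpot k) := by
  unfold fpot
  refine Measurable.ite measurableSet_Iic measurable_const ?_
  exact Real.measurable_exp.comp ((Sm3_meas_gX.comp (Real.measurable_log.div_const _)).const_mul _)

private theorem Sm3_meas_SSt {A : Type} [MeasurableSpace A] {ι : Type} [Fintype ι] {d : ℕ}
    (net : Net ι d) (k : ℝ) (t : A → ι → ℝ) (ht : ∀ y, Measurable (fun a => t a y)) (z : ι) :
    Measurable (fun a => SSt net k (t a) z) := by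
  unfold SSt
  refine ((Finset.measurable_fun_sum _ ?_).const_mul _).const_add _
  intro w _
  exact (ht w).const_mul _

private theorem Sm3_meas_Tz {A : Type} [MeasurableSpace A] {ι : Type} [Fintype ι] {d : ℕ}
    (net : Net ι d) (k q : ℝ) (u t : A → ι → ℝ) (hu : ∀ y, Measurable (fun a => u a y))
    (ht : ∀ y, Measurable (fun a => t a y)) (x z : ι) :
    Measurable (fun a => Tz net k q (u a) (t a) x z) := by
  unfold Tz
  exact (((Sm3_meas_fpot k).comp (hu z)).const_mul _).mul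
    ((Sm3_meas_SSt net k t ht z).pow_const _)

private theorem Sm3_meas_Vp {A : Type} [MeasurableSpace A] {ι : Type} [Fintype ι] {d : ℕ}
    (net : Net ι d) (k q s : ℝ) (u t : A → ι → ℝ) (hu : ∀ y, Measurable (fun a => u a y))
    (ht : ∀ y, Measurable (fun a => t a y)) (x : ι) :
    Measurable (fun a => Vp net k q s (u a) (t a) x) := by
  unfold Vp
  have h1 : Measurable (fun a => Finset.univ.sup fun z =>
      ENNReal.ofReal (Tz net k q (u a) (t a) x z)) := by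
    have h2 : (fun a => Finset.univ.sup fun z => ENNReal.ofReal (Tz net k q (u a) (t a) x z))
        = fun a => ⨆ z, ENNReal.ofReal (Tz net k q (u a) (t a) x z) := by
      funext a
      rw [Finset.sup_univ_eq_iSup]
    rw [h2]
    refine Measurable.iSup ?_
    intro z
    exact (Sm3_meas_Tz net k q u t hu ht x z).ennreal_ofReal
  exact h1.pow_const _

private theorem Sm3_meas_untame {A : Type} [MeasurableSpace A] {L : ℕ} (V : Type)
    [NormedAddCommGroup V] {d : ℕ} (k q : ℝ) (u t : A → boxS d L → ℝ)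
    (hu : ∀ y, Measurable (fun a => u a y))
    (ht : ∀ y, Measurable (fun a => t a y)) (x : boxS d L) :
    MeasurableSet {a | untame (V := V) k q (u a) (t a) x} := by
  unfold untame
  have h1 : {a | ∀ z, (∀ y, Tz (boxNet d L) k q (u a) (t a) x y ≤
      Tz (boxNet d L) k q (u a) (t a) x z) → 2 ≤ SSt (boxNet d L) k (t a) z} =
      ⋂ z, ((⋂ y, {a | Tz (boxNet d L) k q (u a) (t a) x y ≤
      Tz (boxNet d L) k q (u a) (t a) x z})ᶜ ∪ {a | 2 ≤ SSt (boxNet d L) k (t a) z}) := by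
    ext a
    simp only [Set.mem_ofPred_eq, Set.mem_iInter, Set.mem_union, Set.mem_compl_iff]
    refine forall_congr' ?_
    intro z
    exact imp_iff_not_or
  rw [h1]
  refine MeasurableSet.iInter ?_
  intro z
  refine MeasurableSet.union (MeasurableSet.compl (MeasurableSet.iInter ?_)) ?_
  · intro y
    exact measurableSet_le (Sm3_meas_Tz _ k q u t hu ht x y) (Sm3_meas_Tz _ k q u t hu ht x z)
  · exact measurableSet_le measurable_const (Sm3_meas_SSt _ k t ht z)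

private theorem Sm3_meas_u1 {V : Type} [NormedAddCommGroup V] [InnerProductSpace ℝ V]
    [MeasurableSpace V] [BorelSpace V] {L : ℕ} (y : boxS d L) :
    Measurable (fun G : (boxS d L → V) × (boxS d L → V) => ‖G.1 y‖) :=
  ((measurable_pi_apply y).comp measurable_fst).norm

private theorem Sm3_meas_u2 {V : Type} [NormedAddCommGroup V] [InnerProductSpace ℝ V]
    [MeasurableSpace V] [BorelSpace V] {L : ℕ} (y : boxS d L) :
    Measurable (fun G : (boxS d L → V) × (boxS d L → V) => ‖G.2 y‖) :=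
  ((measurable_pi_apply y).comp measurable_snd).norm

private theorem Sm3_meas_V {V : Type} [NormedAddCommGroup V] [InnerProductSpace ℝ V]
    [MeasurableSpace V] [BorelSpace V] {L : ℕ} (k q s : ℝ) (x : boxS d L) :
    Measurable (fun G : (boxS d L → V) × (boxS d L → V) => V1 k q s G x) ∧
      Measurable (fun G : (boxS d L → V) × (boxS d L → V) => V2 k q s G x) := by
  constructor
  · unfold V1
    exact Sm3_meas_Vp _ k q s (fun (G : (boxS d L → V) × (boxS d L → V)) y => ‖G.1 y‖)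
      (fun (G : (boxS d L → V) × (boxS d L → V)) y => ‖G.1 y‖ + ‖G.2 y‖)
      (fun y => Sm3_meas_u1 y) (fun y => (Sm3_meas_u1 y).add (Sm3_meas_u2 y)) x
  · unfold V2
    exact Sm3_meas_Vp _ k q s (fun (G : (boxS d L → V) × (boxS d L → V)) y => ‖G.2 y‖)
      (fun (G : (boxS d L → V) × (boxS d L → V)) y => ‖G.1 y‖ + ‖G.2 y‖)
      (fun y => Sm3_meas_u2 y) (fun y => (Sm3_meas_u1 y).add (Sm3_meas_u2 y)) x

private theorem Sm3_multi_gen {F : Fam d} {β k : ℝ} (S : PSys F β k) (h κ : ℝ) (L : ℕ)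
    (Φ : (boxS d L → F.V) × (boxS d L → F.V) → ℝ≥0∞) (hΦ : Measurable Φ)
    (hstep : ∀ G : (boxS d L → F.V) × (boxS d L → F.V),
      (∀ x, ‖G.1 x‖ ≤ rad β h ∧ ‖G.2 x‖ ≤ rad β h) →
      ∫⁻ ω in {ω | ∀ x, ω x ∈ S.gd h}, Φ (S.st h L G ω) ∂(S.mu L) ≤
        ENNReal.ofReal (Real.exp (κ * h)) * Φ G)
    (G : (boxS d L → F.V) × (boxS d L → F.V)) (n : ℕ) :
    ∫⁻ ω in S.alv h L G n, Φ (S.tr h L G ω n) ∂(PI (S.mu L)) ≤
      ENNReal.ofReal (Real.exp (κ * (n * h))) * Φ G := by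
  have h1 := iter_step S h L Φ hΦ (ENNReal.ofReal (Real.exp (κ * h))) 0 ?_ G n
  · refine le_trans h1 (le_of_eq ?_)
    rw [zero_mul, add_zero, ← ENNReal.ofReal_pow (Real.exp_pos _).le, ← Real.exp_nat_mul]
    congr 3
    ring
  · intro G hG
    rw [add_zero]
    refine le_trans ?_ (hstep G hG)
    refine lintegral_mono_set ?_
    intro ω hω
    exact hω.1

private theorem Sm3_one {F : Fam d} {β k : ℝ} (S : PSys F β k) (h : ℝ) (L : ℕ)
    (Φ : (boxS d L → F.V) × (boxS d L → F.V) → ℝ≥0∞) (hΦ : Measurable Φ)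
    (G : (boxS d L → F.V) × (boxS d L → F.V)) :
    ∫⁻ ω in S.alv h L G 1, Φ (S.tr h L G ω 1) ∂(PI (S.mu L)) ≤
      ∫⁻ ω in {ω | ∀ x, ω x ∈ S.gd h}, Φ (S.st h L G ω) ∂(S.mu L) := by
  have hm : MeasurableSet {ω : boxS d L → S.Ωp | ∀ x, ω x ∈ S.gd h} := by
    have : {ω : boxS d L → S.Ωp | ∀ x, ω x ∈ S.gd h} = ⋂ x, (fun ω => ω x) ⁻¹' (S.gd h) := by
      ext ω
      simp
    rw [this]
    exact MeasurableSet.iInter fun x => (measurable_pi_apply x) (S.mgd h)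
  have hst : Measurable (fun ω : boxS d L → S.Ωp => S.st h L G ω) :=
    (S.mst h L).comp (measurable_const.prodMk measurable_id)
  have hmap := map_coord (μ := S.mu L) 0
  calc ∫⁻ ω in S.alv h L G 1, Φ (S.tr h L G ω 1) ∂(PI (S.mu L))
      ≤ ∫⁻ ω in (fun ω : ℕ → boxS d L → S.Ωp => ω 0) ⁻¹' {ω | ∀ x, ω x ∈ S.gd h},
          Φ (S.st h L G (ω 0)) ∂(PI (S.mu L)) := by
        refine lintegral_mono_set ?_
        intro ω hω
        exact hω.1 0 (by norm_num)
    _ = ∫⁻ ω in {ω | ∀ x, ω x ∈ S.gd h}, Φ (S.st h L G ω) ∂((PI (S.mu L)).map (fun ω => ω 0)) := by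
        exact (setLIntegral_map hm (hΦ.comp hst) (measurable_pi_apply 0)).symm
    _ = _ := by rw [hmap]

private theorem Sm3_untame_gen {F : Fam d} {β k : ℝ} (S : PSys F β k) (h κ D : ℝ) (L : ℕ)
    (hh : 0 < h) (hh2 : h ≤ 1 / 2) (hκ : 0 ≤ κ) (hD : 0 < D) (hDh : D * h ≤ 1)
    (Φ : (boxS d L → F.V) × (boxS d L → F.V) → ℝ≥0∞) (hΦ : Measurable Φ)
    (T : Set ((boxS d L → F.V) × (boxS d L → F.V))) (hT : MeasurableSet T)
    (hstep : ∀ G : (boxS d L → F.V) × (boxS d L → F.V),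
      (∀ x, ‖G.1 x‖ ≤ rad β h ∧ ‖G.2 x‖ ≤ rad β h) →
      ∫⁻ ω in {ω | ∀ x, ω x ∈ S.gd h}, Φ (S.st h L G ω) ∂(S.mu L) ≤
        ENNReal.ofReal (Real.exp (κ * h)) * Φ G)
    (hstep2 : ∀ G : (boxS d L → F.V) × (boxS d L → F.V),
      (∀ x, ‖G.1 x‖ ≤ rad β h ∧ ‖G.2 x‖ ≤ rad β h) → G ∈ T →
      ∫⁻ ω in {ω | ∀ x, ω x ∈ S.gd h}, Φ (S.st h L G ω) ∂(S.mu L) ≤
        ENNReal.ofReal (1 - D * h) * Φ G)
    (G : (boxS d L → F.V) × (boxS d L → F.V)) :
    ∃ n : ℕ, 1 ≤ n * h ∧ n * h ≤ 3 ∧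
      ∫⁻ ω in S.alv h L G n ∩ {ω | S.tr h L G ω n ∈ T}, Φ (S.tr h L G ω n) ∂(PI (S.mu L)) ≤
        ENNReal.ofReal (2 * Real.exp (3 * κ) / D) * Φ G := by
  classical
  set E : ℕ → ℝ≥0∞ := fun n => ∫⁻ ω in S.alv h L G n, Φ (S.tr h L G ω n) ∂(PI (S.mu L)) with hE
  set U : ℕ → ℝ≥0∞ := fun n => ∫⁻ ω in S.alv h L G n ∩ {ω | S.tr h L G ω n ∈ T},
    Φ (S.tr h L G ω n) ∂(PI (S.mu L)) with hU
  have hmt : ∀ n, Measurable (fun ω : ℕ → boxS d L → S.Ωp => S.tr h L G ω n) := by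
    intro n
    exact (measurable_tr S h L n).comp (measurable_const.prodMk measurable_id)
  have hmT : ∀ n, MeasurableSet {ω : ℕ → boxS d L → S.Ωp | S.tr h L G ω n ∈ T} := fun n =>
    (hmt n) hT
  have hΦt : ∀ n, Measurable (fun ω : ℕ → boxS d L → S.Ωp => Φ (S.tr h L G ω n)) := fun n =>
    hΦ.comp (hmt n)
  -- one step
  have hone : ∀ n, E (n + 1) + ENNReal.ofReal (D * h) * U n ≤
      ENNReal.ofReal (Real.exp (κ * h)) * E n := by
    intro n
    have e1 : E (n + 1) = ∫⁻ ω in S.alv h L G n, (∫⁻ ω' in S.alv h L (S.tr h L G ω n) 1,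
        Φ (S.tr h L (S.tr h L G ω n) ω' 1) ∂(PI (S.mu L))) ∂(PI (S.mu L)) :=
      alv_markov S h L Φ hΦ G n 1
    have e2 : ENNReal.ofReal (D * h) * U n = ∫⁻ ω in S.alv h L G n,
        {ω | S.tr h L G ω n ∈ T}.indicator
          (fun ω => ENNReal.ofReal (D * h) * Φ (S.tr h L G ω n)) ω ∂(PI (S.mu L)) := by
      rw [setLIntegral_indicator (hmT n), Set.inter_comm, lintegral_const_mul _ (hΦt n)]
    rw [e1, e2]
    refine le_trans (le_lintegral_add _ _) ?_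
    have e3 : ENNReal.ofReal (Real.exp (κ * h)) * E n = ∫⁻ ω in S.alv h L G n,
        ENNReal.ofReal (Real.exp (κ * h)) * Φ (S.tr h L G ω n) ∂(PI (S.mu L)) := by
      rw [lintegral_const_mul _ (hΦt n)]
    rw [e3]
    refine setLIntegral_mono' (measurableSet_alv S h L G n) ?_
    intro ω hω
    have hr : ∀ x, ‖(S.tr h L G ω n).1 x‖ ≤ rad β h ∧ ‖(S.tr h L G ω n).2 x‖ ≤ rad β h :=
      hω.2 n le_rfl
    have h1 := Sm3_one S h L Φ hΦ (S.tr h L G ω n)
    by_cases hT1 : S.tr h L G ω n ∈ T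
    · rw [Set.indicator_of_mem (by exact hT1)]
      refine le_trans (add_le_add_left (le_trans h1 (hstep2 _ hr hT1)) _) ?_
      rw [← add_mul, ← ENNReal.ofReal_add (by linarith) (by positivity)]
      refine mul_le_mul_left ?_ _
      refine ENNReal.ofReal_le_ofReal ?_
      have : (1:ℝ) ≤ Real.exp (κ * h) := Real.one_le_exp (by positivity)
      linarith
    · rw [Set.indicator_of_notMem (by exact hT1), add_zero]
      exact le_trans h1 (hstep _ hr)
  -- summation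
  have hsum : ∀ n, E n + ENNReal.ofReal (D * h) * ∑ j ∈ Finset.range n, U j ≤
      ENNReal.ofReal (Real.exp (κ * (n * h))) * Φ G := by
    intro n
    induction n with
    | zero =>
      simp only [Finset.range_zero, Finset.sum_empty, mul_zero, add_zero, Nat.cast_zero, zero_mul,
        Real.exp_zero, ENNReal.ofReal_one, one_mul]
      show ∫⁻ ω in S.alv h L G 0, Φ G ∂(PI (S.mu L)) ≤ Φ G
      rw [setLIntegral_const]
      calc Φ G * PI (S.mu L) (S.alv h L G 0) ≤ Φ G * 1 := mul_le_mul_right prob_le_one _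
        _ = Φ G := mul_one _
    | succ n ih =>
      have hone1 : (1:ℝ≥0∞) ≤ ENNReal.ofReal (Real.exp (κ * h)) := by
        rw [← ENNReal.ofReal_one]
        exact ENNReal.ofReal_le_ofReal (Real.one_le_exp (by positivity))
      rw [Finset.sum_range_succ, mul_add]
      calc E (n + 1) + (ENNReal.ofReal (D * h) * ∑ j ∈ Finset.range n, U j +
              ENNReal.ofReal (D * h) * U n)
          = (E (n + 1) + ENNReal.ofReal (D * h) * U n) +
              ENNReal.ofReal (D * h) * ∑ j ∈ Finset.range n, U j := by ring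
        _ ≤ ENNReal.ofReal (Real.exp (κ * h)) * E n + ENNReal.ofReal (Real.exp (κ * h)) *
              (ENNReal.ofReal (D * h) * ∑ j ∈ Finset.range n, U j) := by
            refine add_le_add (hone n) ?_
            calc _ = 1 * (ENNReal.ofReal (D * h) * ∑ j ∈ Finset.range n, U j) := (one_mul _).symm
              _ ≤ _ := mul_le_mul_left hone1 _
        _ = ENNReal.ofReal (Real.exp (κ * h)) *
              (E n + ENNReal.ofReal (D * h) * ∑ j ∈ Finset.range n, U j) := by ring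
        _ ≤ ENNReal.ofReal (Real.exp (κ * h)) *
              (ENNReal.ofReal (Real.exp (κ * (n * h))) * Φ G) := mul_le_mul_right ih _
        _ = _ := by
            rw [← mul_assoc, ← ENNReal.ofReal_mul (Real.exp_pos _).le, ← Real.exp_add]
            congr 3
            push_cast
            ring
  -- choice of the range
  set n1 : ℕ := ⌈1 / h⌉₊ with hn1
  set n2 : ℕ := ⌈2 / h⌉₊ with hn2
  have hn1a : (1:ℝ) ≤ n1 * h := by
    have := Nat.le_ceil (1 / h)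
    rw [div_le_iff₀ hh] at this
    exact this
  have hn1b : (n1:ℝ) * h ≤ 1 + h := by
    have := (Nat.ceil_lt_add_one (by positivity : (0:ℝ) ≤ 1 / h)).le
    calc (n1:ℝ) * h ≤ (1 / h + 1) * h := by gcongr
      _ = 1 + h := by field_simp
  have hn2a : (2:ℝ) ≤ n2 * h := by
    have := Nat.le_ceil (2 / h)
    rw [div_le_iff₀ hh] at this
    exact this
  have hn2b : (n2:ℝ) * h ≤ 2 + h := by
    have := (Nat.ceil_lt_add_one (by positivity : (0:ℝ) ≤ 2 / h)).le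
    calc (n2:ℝ) * h ≤ (2 / h + 1) * h := by gcongr
      _ = 2 + h := by field_simp
  have hlt : n1 < n2 := by
    by_contra hcon
    push Not at hcon
    have : (n2:ℝ) ≤ n1 := by exact_mod_cast hcon
    have : (n2:ℝ) * h ≤ n1 * h := by gcongr
    linarith
  have hne : (Finset.Ico n1 n2).Nonempty := Finset.nonempty_Ico.2 hlt
  obtain ⟨m, hm, hmin⟩ := Finset.exists_min_image (Finset.Ico n1 n2) U hne
  rw [Finset.mem_Ico] at hm
  refine ⟨m, ?_, ?_, ?_⟩
  · have : (n1:ℝ) ≤ m := by exact_mod_cast hm.1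
    calc (1:ℝ) ≤ n1 * h := hn1a
      _ ≤ m * h := by gcongr
  · have : (m:ℝ) ≤ n2 := by exact_mod_cast hm.2.le
    calc (m:ℝ) * h ≤ n2 * h := by gcongr
      _ ≤ 3 := by linarith
  · show U m ≤ _
    have h1 : ((n2 - n1 : ℕ) : ℝ≥0∞) * U m ≤ ∑ j ∈ Finset.range n2, U j := by
      calc ((n2 - n1 : ℕ) : ℝ≥0∞) * U m = ∑ _j ∈ Finset.Ico n1 n2, U m := by
            rw [Finset.sum_const, Nat.card_Ico, nsmul_eq_mul]
        _ ≤ ∑ j ∈ Finset.Ico n1 n2, U j := Finset.sum_le_sum hmin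
        _ ≤ ∑ j ∈ Finset.range n2, U j := by
            refine Finset.sum_le_sum_of_subset ?_
            intro j hj
            rw [Finset.mem_Ico] at hj
            exact Finset.mem_range.2 hj.2
    have h2 : ENNReal.ofReal (D / 2) * U m ≤ ENNReal.ofReal (Real.exp (3 * κ)) * Φ G := by
      calc ENNReal.ofReal (D / 2) * U m
          ≤ ENNReal.ofReal (D * h) * (((n2 - n1 : ℕ) : ℝ≥0∞) * U m) := by
            rw [← mul_assoc]
            refine mul_le_mul_left ?_ _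
            rw [← ENNReal.ofReal_natCast, ← ENNReal.ofReal_mul (by positivity)]
            refine ENNReal.ofReal_le_ofReal ?_
            rw [Nat.cast_sub hlt.le]
            nlinarith
        _ ≤ ENNReal.ofReal (D * h) * ∑ j ∈ Finset.range n2, U j := mul_le_mul_right h1 _
        _ ≤ E n2 + ENNReal.ofReal (D * h) * ∑ j ∈ Finset.range n2, U j := le_add_self
        _ ≤ ENNReal.ofReal (Real.exp (κ * (n2 * h))) * Φ G := hsum n2
        _ ≤ ENNReal.ofReal (Real.exp (3 * κ)) * Φ G := by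
            refine mul_le_mul_left ?_ _
            refine ENNReal.ofReal_le_ofReal (Real.exp_le_exp.2 ?_)
            nlinarith
    have h3 : ENNReal.ofReal (2 / D) * ENNReal.ofReal (D / 2) = 1 := by
      rw [← ENNReal.ofReal_mul (by positivity)]
      rw [show 2 / D * (D / 2) = 1 by field_simp]
      exact ENNReal.ofReal_one
    calc U m = ENNReal.ofReal (2 / D) * (ENNReal.ofReal (D / 2) * U m) := by
          rw [← mul_assoc, h3, one_mul]
      _ ≤ ENNReal.ofReal (2 / D) * (ENNReal.ofReal (Real.exp (3 * κ)) * Φ G) :=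
          mul_le_mul_right h2 _
      _ = ENNReal.ofReal (2 * Real.exp (3 * κ) / D) * Φ G := by
          rw [← mul_assoc, ← ENNReal.ofReal_mul (by positivity)]
          congr 2
          ring

theorem V_sq {V : Type} [NormedAddCommGroup V] {L : ℕ} (k q s : ℝ)
    (G : (boxS d L → V) × (boxS d L → V)) (x : boxS d L) :
    V1 k q s G x ^ 2 = V1 k q (2 * s) G x ∧ V2 k q s G x ^ 2 = V2 k q (2 * s) G x := by
  constructor
  · unfold V1 Vp
    rw [← ENNReal.rpow_natCast, ← ENNReal.rpow_mul]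
    congr 1
    push_cast
    ring
  · unfold V2 Vp
    rw [← ENNReal.rpow_natCast, ← ENNReal.rpow_mul]
    congr 1
    push_cast
    ring

theorem measurable_V {V : Type} [NormedAddCommGroup V] [InnerProductSpace ℝ V] [MeasurableSpace V]
    [BorelSpace V] [SecondCountableTopology V] {L : ℕ} (k q s : ℝ) (x : boxS d L) :
    Measurable (fun G : (boxS d L → V) × (boxS d L → V) => V1 k q s G x) ∧
      Measurable (fun G : (boxS d L → V) × (boxS d L → V) => V2 k q s G x) := by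
  exact Sm3_meas_V k q s x

theorem V_one_pair {V : Type} [NormedAddCommGroup V] {L : ℕ} {k q s : ℝ}
    (hk : 0 < k) (hk1 : k < 1) (hq : 1 ≤ q) (hs : 0 < s)
    (hkq : k ^ (1 / 4 : ℝ) * 2 ^ (q - 1) ≤ 1)
    (G : (boxS d L → V) × (boxS d L → V)) (x : boxS d L) :
    1 ≤ V1 k q s G x ∧ 1 ≤ V2 k q s G x := by
  have hS : 1 ≤ SSt (boxNet d L) k (fun y => ‖G.1 y‖ + ‖G.2 y‖) x :=
    SSt_one _ hk _ (fun y => by positivity) x
  have hge : (1:ℝ≥0∞) ≤ ENNReal.ofReal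
      (SSt (boxNet d L) k (fun y => ‖G.1 y‖ + ‖G.2 y‖) x ^ ((q - 1) * s)) := by
    rw [← ENNReal.ofReal_one]
    refine ENNReal.ofReal_le_ofReal (Real.one_le_rpow hS ?_)
    exact mul_nonneg (by linarith) hs.le
  constructor
  · refine le_trans hge ?_
    unfold V1
    exact V_one _ hk hk1 hq hs hkq _ _ (fun y => norm_nonneg _)
      (fun y => le_add_of_nonneg_right (norm_nonneg _)) x
  · refine le_trans hge ?_
    unfold V2
    exact V_one _ hk hk1 hq hs hkq _ _ (fun y => norm_nonneg _)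
      (fun y => le_add_of_nonneg_left (norm_nonneg _)) x

theorem sm_multi (N d : ℕ) (β : ℝ) (hN : 2 ≤ N) (hβ : 0 < β) : ∃ q0 : ℝ, 1 ≤ q0 ∧
    ∀ q, q0 ≤ q → ∃ C9 k0 : ℝ, 0 < C9 ∧ 0 < k0 ∧ k0 < 1 ∧
    ∀ (F : Fam d) (k : ℝ) (S : PSys F β k), 0 < k → k < k0 → BNoise N S.ν S.b S.gd →
    ∀ s : ℝ, 0 < s → 8 * q * s ≤ 1 →
    ∃ h0 : ℝ, 0 < h0 ∧ ∀ h, 0 < h → h < h0 → ∀ (L : ℕ) (G : (boxS d L → F.V) × (boxS d L → F.V))
      (n : ℕ) (x : boxS d L),
      (∫⁻ ω in S.alv h L G n, V1 k q s (S.tr h L G ω n) x ∂(PI (S.mu L)) ≤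
          ENNReal.ofReal (Real.exp (C9 * (s / ell k + s ^ 2) * (n * h))) * V1 k q s G x) ∧
      (∫⁻ ω in S.alv h L G n, V2 k q s (S.tr h L G ω n) x ∂(PI (S.mu L)) ≤
          ENNReal.ofReal (Real.exp (C9 * (s / ell k + s ^ 2) * (n * h))) * V2 k q s G x) := by
  obtain ⟨q0, hq0, H⟩ := sm_step N d β hN hβ
  refine ⟨q0, hq0, ?_⟩
  intro q hq
  obtain ⟨C9, c, k0, hC9, hc, hk0, hk01, H1⟩ := H q hq
  refine ⟨C9, k0, hC9, hk0, hk01, ?_⟩
  intro F k S hk hkk hB s hs hqs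
  obtain ⟨h0, hh0, H2⟩ := H1 F k S hk hkk hB s hs hqs
  refine ⟨h0, hh0, ?_⟩
  intro h hh hhh L G n x
  constructor
  · exact Sm3_multi_gen S h _ L (fun G => V1 k q s G x) (Sm3_meas_V k q s x).1
      (fun G hG => (H2 h hh hhh L G hG x).1) G n
  · exact Sm3_multi_gen S h _ L (fun G => V2 k q s G x) (Sm3_meas_V k q s x).2
      (fun G hG => (H2 h hh hhh L G hG x).2.1) G n

/-- at some time in `[1,2]` the untame part of the potential is tiny -/
theorem untame_time (N d : ℕ) (β : ℝ) (hN : 2 ≤ N) (hβ : 0 < β) : ∃ q0 : ℝ, 1 ≤ q0 ∧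
    ∀ q, q0 ≤ q → ∃ C k0 : ℝ, 0 < C ∧ 0 < k0 ∧ k0 < 1 ∧
    ∀ (F : Fam d) (k : ℝ) (S : PSys F β k), 0 < k → k < k0 → BNoise N S.ν S.b S.gd →
    ∀ s : ℝ, 0 < s → 8 * q * s ≤ 1 →
    ∃ h0 : ℝ, 0 < h0 ∧ ∀ h, 0 < h → h < h0 → ∀ (L : ℕ) (G : (boxS d L → F.V) × (boxS d L → F.V))
      (x : boxS d L),
      (∃ n : ℕ, 1 ≤ n * h ∧ n * h ≤ 3 ∧
        ∫⁻ ω in S.alv h L G n ∩ {ω | untame (V := F.V) k q (nrm (S.tr h L G ω n).1)
            (fun y => nrm (S.tr h L G ω n).1 y + nrm (S.tr h L G ω n).2 y) x},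
          V1 k q s (S.tr h L G ω n) x ∂(PI (S.mu L)) ≤
          ENNReal.ofReal (C * k ^ (β / 16) / s) * V1 k q s G x) ∧
      (∃ n : ℕ, 1 ≤ n * h ∧ n * h ≤ 3 ∧
        ∫⁻ ω in S.alv h L G n ∩ {ω | untame (V := F.V) k q (nrm (S.tr h L G ω n).2)
            (fun y => nrm (S.tr h L G ω n).1 y + nrm (S.tr h L G ω n).2 y) x},
          V2 k q s (S.tr h L G ω n) x ∂(PI (S.mu L)) ≤
          ENNReal.ofReal (C * k ^ (β / 16) / s) * V2 k q s G x) := by
  obtain ⟨q0, hq0, H⟩ := sm_step N d β hN hβ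
  refine ⟨q0, hq0, ?_⟩
  intro q hq
  obtain ⟨C9, c, k0, hC9, hc, hk0, hk01, H1⟩ := H q hq
  refine ⟨2 * Real.exp (3 * C9) / c, min k0 (Real.exp (-1)), by positivity,
    lt_min hk0 (Real.exp_pos _), lt_of_le_of_lt (min_le_left _ _) hk01, ?_⟩
  intro F k S hk hkk hB s hs hqs
  have hkk0 : k < k0 := lt_of_lt_of_le hkk (min_le_left _ _)
  have hke : k < Real.exp (-1) := lt_of_lt_of_le hkk (min_le_right _ _)
  obtain ⟨h0, hh0, H2⟩ := H1 F k S hk hkk0 hB s hs hqs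
  have hell : 1 ≤ ell k := by
    unfold ell
    rw [one_div, Real.log_inv]
    have h1 : Real.log k < Real.log (Real.exp (-1)) := Real.log_lt_log hk hke
    rw [Real.log_exp] at h1
    linarith
  have hs8 : s ≤ 1 / 8 := by nlinarith
  set κ : ℝ := C9 * (s / ell k + s ^ 2) with hκ
  have hκ0 : 0 ≤ κ := by positivity
  have hκ1 : κ ≤ C9 := by
    have h1 : s / ell k ≤ s := div_le_self hs.le hell
    have h2 : s / ell k + s ^ 2 ≤ 1 := by nlinarith
    calc κ ≤ C9 * 1 := by rw [hκ]; gcongr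
      _ = C9 := mul_one _
  set D : ℝ := c * s * k ^ (-(β / 16)) with hD
  have hD0 : 0 < D := by positivity
  refine ⟨min h0 (min (1 / 2) (1 / D)), by positivity, ?_⟩
  intro h hh hhh L G x
  have hhh0 : h < h0 := lt_of_lt_of_le hhh (min_le_left _ _)
  have hhh2 : h ≤ 1 / 2 := (lt_of_lt_of_le hhh (le_trans (min_le_right _ _) (min_le_left _ _))).le
  have hhhD : h ≤ 1 / D := (lt_of_lt_of_le hhh (le_trans (min_le_right _ _) (min_le_right _ _))).le
  have hDh : D * h ≤ 1 := by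
    rw [le_div_iff₀ hD0] at hhhD
    linarith
  have hconst : 2 * Real.exp (3 * κ) / D ≤ 2 * Real.exp (3 * C9) / c * k ^ (β / 16) / s := by
    have h1 : 2 * Real.exp (3 * κ) / D = 2 * Real.exp (3 * κ) / c * k ^ (β / 16) / s := by
      rw [hD, Real.rpow_neg hk.le]
      field_simp
    rw [h1]
    gcongr
  have hm1 : MeasurableSet {G : (boxS d L → F.V) × (boxS d L → F.V) |
      untame (V := F.V) k q (nrm G.1) (fun y => nrm G.1 y + nrm G.2 y) x} :=
    Sm3_meas_untame F.V k q (fun G : (boxS d L → F.V) × (boxS d L → F.V) => nrm G.1)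
      (fun G : (boxS d L → F.V) × (boxS d L → F.V) => fun y => nrm G.1 y + nrm G.2 y)
      (fun y => Sm3_meas_u1 y) (fun y => (Sm3_meas_u1 y).add (Sm3_meas_u2 y)) x
  have hm2 : MeasurableSet {G : (boxS d L → F.V) × (boxS d L → F.V) |
      untame (V := F.V) k q (nrm G.2) (fun y => nrm G.1 y + nrm G.2 y) x} :=
    Sm3_meas_untame F.V k q (fun G : (boxS d L → F.V) × (boxS d L → F.V) => nrm G.2)
      (fun G : (boxS d L → F.V) × (boxS d L → F.V) => fun y => nrm G.1 y + nrm G.2 y)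
      (fun y => Sm3_meas_u2 y) (fun y => (Sm3_meas_u1 y).add (Sm3_meas_u2 y)) x
  constructor
  · obtain ⟨n, hn1, hn2, hn3⟩ := Sm3_untame_gen S h κ D L hh hhh2 hκ0 hD0 hDh
      (fun G => V1 k q s G x) (Sm3_meas_V k q s x).1 _ hm1
      (fun G hG => (H2 h hh hhh0 L G hG x).1)
      (fun G hG hGT => (H2 h hh hhh0 L G hG x).2.2.1 hGT) G
    refine ⟨n, hn1, hn2, le_trans hn3 ?_⟩
    exact mul_le_mul_left (ENNReal.ofReal_le_ofReal hconst) _
  · obtain ⟨n, hn1, hn2, hn3⟩ := Sm3_untame_gen S h κ D L hh hhh2 hκ0 hD0 hDh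
      (fun G => V2 k q s G x) (Sm3_meas_V k q s x).2 _ hm2
      (fun G hG => (H2 h hh hhh0 L G hG x).2.1)
      (fun G hG hGT => (H2 h hh hhh0 L G hG x).2.2.2 hGT) G
    refine ⟨n, hn1, hn2, le_trans hn3 ?_⟩
    exact mul_le_mul_left (ENNReal.ofReal_le_ofReal hconst) _

end DynC

end

/-! ### from `Lib_MP_36b788c.Unit` -/

section

/-!
# First unit of time: caps and lower bounds in terms of the potential

`PotGe k q u t M s0 y`: for every `v` some `z` has `Tz k q u t v z ≥ k^{M + s0 dist v y}`.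
`LowR k u M s0 y`: for every `v` some `z` has `u z k^{dist v z} ≥ k^{M + s0 dist v y}`.
`Caps k u ε0 y`: `u v ≤ k^{-ε0(1+dist v y)}` for all `v`.

PROOF.
* `potGe_of_V`: `Vp = (sup_z ofReal Tz)^{-s} ≤ ofReal (exp(a'(M + s0 dist)))`, `s = a'/ell` gives `sup_z Tz ≥ exp(-ell(M + s0 dist)) = k^{M+s0 dist}`.
* `V_of_potGe`: `Vp k q s0' ≤ k^{-s0'(M+s0 dist)}`.
* `caps_prob`: `mom_cap`: `E[Yl(u)(v) + Yl(u')(v); alv n] ≤ C` for `1 ≤ n h`, `u v ≤ Yl u v`, Markov and `Σ_v k^{ε0 dist v y} ≤ 3^d` (`sum_half`, `k^{ε0} ≤ 1/2`).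
* `pot_prob`: exponent `r = 1/(8q)`: `sm_multi` (`8 q r ≤ 1`, `n h ≤ 3`): `∫_{alv n} V1 k q r (tr n) v ≤ e^{C} V1 k q r G v ≤ e^C k^{-r(M + s0 dist v y)}`. Markov: `P(alv n, V1 > k^{-r(M + ε + (s0+ε) dist v y)}) ≤ e^C k^{rε(1+dist v y)}`, sum over `v`. `V1 ≤ k^{-r A}` iff `sup_z Tz ≥ k^A`.
* `low_of_pot`: `t = u + u'` with `Caps`, `Tz v z = k^{dist v z/4} fpot(u z) SSt(z)^{-q} ≥ k^{A}`, `A = M + s0 dist v y`, `SSt ≥ 1`: `k^{dist v z/4} fpot(u z) ≥ k^A`; `fpot(u z) ≤ max 1 (u z) ≤ k^{-ε0(1+dist z y)}` so `dist v z/4 ≤ A + ε0(1 + dist z y) ≤ A + ε0(1+dist v y+dist v z)`, with `ε0 ≤ 1/8`: `dist v z ≤ 8(A + ε0(1+dist v y))`, and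
  `u z k^{dist v z} ≥ fpot(u z) k^{dist v z} ≥ k^{A + (3/4) dist v z} ≥ k^{A + 6(A+ε0(1+dist v y))}`, exponent `≤ 7A + 1 + dist v y·6ε0`.
-/

open MeasureTheory ProbabilityTheory
open scoped ENNReal

namespace DynC

open Dyn

variable {d : ℕ}

/-- lower bound of the potential level -/
def PotGe {L : ℕ} (k q : ℝ) (u t : boxS d L → ℝ) (M s0 : ℝ) (y : boxS d L) : Prop :=
  ∀ v, ∃ z, k ^ (M + s0 * (boxNet d L).dist v y) ≤ Tz (boxNet d L) k q u t v z

/-- lower bound of the sup convolution of the heights -/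
def LowR {L : ℕ} (k : ℝ) (u : boxS d L → ℝ) (M s0 : ℝ) (y : boxS d L) : Prop :=
  ∀ v, ∃ z, k ^ (M + s0 * (boxNet d L).dist v y) ≤ u z * k ^ (boxNet d L).dist v z

/-- caps around `y` -/
def Caps {L : ℕ} (k : ℝ) (u : boxS d L → ℝ) (ε0 : ℝ) (y : boxS d L) : Prop :=
  ∀ v, u v ≤ k ^ (-(ε0 * (1 + (boxNet d L).dist v y)))

private theorem Unit_inv {a b : ℝ≥0∞} {s : ℝ} (hs : 0 < s) : a ^ (-s) ≤ b ^ (-s) ↔ b ≤ a := by
  rw [ENNReal.rpow_neg, ENNReal.rpow_neg, ENNReal.inv_le_inv, ENNReal.rpow_le_rpow_iff hs]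

private theorem Unit_ell {k : ℝ} : ell k = -Real.log k := by
  unfold ell
  rw [one_div, Real.log_inv]

private theorem Unit_small (K η : ℝ) (hK : 0 < K) (hη : 0 < η) : ∃ k0 : ℝ, 0 < k0 ∧ k0 < 1 ∧
    ∀ k, 0 < k → k < k0 → k ^ η ≤ 1 / 2 ∧ K * k ^ η ≤ k ^ (η / 2) ∧ 1 ≤ ell k := by
  refine ⟨min (Real.exp (-1)) (min ((1 / 2 : ℝ) ^ (1 / η)) ((1 / K) ^ (2 / η))), ?_, ?_, ?_⟩
  · exact lt_min (Real.exp_pos _) (lt_min (Real.rpow_pos_of_pos (by norm_num) _)
      (Real.rpow_pos_of_pos (by positivity) _))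
  · refine lt_of_le_of_lt (min_le_left _ _) ?_
    rw [Real.exp_lt_one_iff]
    norm_num
  · intro k hk hlt
    have h1 : k < Real.exp (-1) := hlt.trans_le (min_le_left _ _)
    have h2 : k < (1 / 2 : ℝ) ^ (1 / η) :=
      hlt.trans_le ((min_le_right _ _).trans (min_le_left _ _))
    have h3 : k < (1 / K) ^ (2 / η) :=
      hlt.trans_le ((min_le_right _ _).trans (min_le_right _ _))
    refine ⟨?_, ?_, ?_⟩
    · have e1 : k ^ η ≤ ((1 / 2 : ℝ) ^ (1 / η)) ^ η := Real.rpow_le_rpow hk.le h2.le hη.le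
      rw [← Real.rpow_mul (by norm_num), one_div_mul_cancel hη.ne', Real.rpow_one] at e1
      exact e1
    · have e1 : k ^ (η / 2) ≤ ((1 / K) ^ (2 / η)) ^ (η / 2) :=
        Real.rpow_le_rpow hk.le h3.le (by positivity)
      rw [← Real.rpow_mul (by positivity), show 2 / η * (η / 2) = 1 by field_simp,
        Real.rpow_one] at e1
      have e2 : k ^ η = k ^ (η / 2) * k ^ (η / 2) := by
        rw [← Real.rpow_add hk]
        congr 1
        ring
      have e3 : 0 < k ^ (η / 2) := Real.rpow_pos_of_pos hk _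
      calc K * k ^ η = K * k ^ (η / 2) * k ^ (η / 2) := by rw [e2]; ring
        _ ≤ K * (1 / K) * k ^ (η / 2) := by gcongr
        _ = k ^ (η / 2) := by rw [mul_one_div_cancel hK.ne', one_mul]
    · rw [Unit_ell]
      have e1 := Real.log_lt_log hk h1
      rw [Real.log_exp] at e1
      linarith

private theorem Unit_sum {L : ℕ} {Ω : Type} [MeasurableSpace Ω] (μ : Measure Ω) (A ev : Set Ω)
    (B : boxS d L → Set Ω) (y : boxS d L) {K ρ : ℝ} (hK : 0 ≤ K) (hρ : 0 ≤ ρ) (hρ2 : ρ ≤ 1 / 2)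
    (hsub : ∀ ω ∈ ev, ∃ v, ω ∈ B v)
    (hB : ∀ v, μ (A ∩ B v) ≤ ENNReal.ofReal (K * ρ * ρ ^ (boxNet d L).dist v y)) :
    μ (A ∩ ev) ≤ ENNReal.ofReal (K * 3 ^ d * ρ) := by
  have h1 : A ∩ ev ⊆ ⋃ v, A ∩ B v := by
    intro ω hω
    obtain ⟨v, hv⟩ := hsub ω hω.2
    exact Set.mem_iUnion.2 ⟨v, hω.1, hv⟩
  calc μ (A ∩ ev) ≤ μ (⋃ v, A ∩ B v) := measure_mono h1
    _ ≤ ∑ v, μ (A ∩ B v) := measure_iUnion_fintype_le _ _
    _ ≤ ∑ v, ENNReal.ofReal (K * ρ * ρ ^ (boxNet d L).dist v y) :=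
        Finset.sum_le_sum fun v _ => hB v
    _ = ENNReal.ofReal (∑ v, K * ρ * ρ ^ (boxNet d L).dist v y) := by
        rw [ENNReal.ofReal_sum_of_nonneg]
        intro v _
        positivity
    _ ≤ ENNReal.ofReal (K * 3 ^ d * ρ) := by
        refine ENNReal.ofReal_le_ofReal ?_
        rw [← Finset.mul_sum]
        have h2 : ∑ v, ρ ^ (boxNet d L).dist v y ≤ 3 ^ d := by
          refine le_trans (Finset.sum_le_sum fun v _ => ?_) ((boxNet d L).sum_half y)
          rw [(boxNet d L).dist_comm v y]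
          exact pow_le_pow_left₀ hρ hρ2 _
        calc K * ρ * ∑ v, ρ ^ (boxNet d L).dist v y ≤ K * ρ * 3 ^ d :=
              mul_le_mul_of_nonneg_left h2 (by positivity)
          _ = K * 3 ^ d * ρ := by ring

private theorem Unit_markov {Ω : Type} [MeasurableSpace Ω] (μ : Measure Ω) (A : Set Ω)
    (f : Ω → ℝ≥0∞) (hf : Measurable f) {a b : ℝ} (ha : 0 < a)
    (hI : ∫⁻ ω in A, f ω ∂μ ≤ ENNReal.ofReal b) :
    μ (A ∩ {ω | ENNReal.ofReal a ≤ f ω}) ≤ ENNReal.ofReal (b / a) := by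
  have h1 := mul_meas_ge_le_lintegral (μ := μ.restrict A) hf (ENNReal.ofReal a)
  have h2 : μ.restrict A {ω | ENNReal.ofReal a ≤ f ω} =
      μ (A ∩ {ω | ENNReal.ofReal a ≤ f ω}) := by
    rw [Measure.restrict_apply (measurableSet_le measurable_const hf), Set.inter_comm]
  rw [h2] at h1
  have h3 := h1.trans hI
  have ha0 : ENNReal.ofReal a ≠ 0 := (ENNReal.ofReal_pos.2 ha).ne'
  rw [mul_comm, ← ENNReal.le_div_iff_mul_le (Or.inl ha0) (Or.inl ENNReal.ofReal_ne_top)] at h3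
  refine h3.trans (le_of_eq ?_)
  rw [ENNReal.ofReal_div_of_pos ha]

theorem potGe_of_V {L : ℕ} {k q a' M s0 : ℝ} (hk : 0 < k) (hk1 : k < 1) (ha : 0 < a')
    (u t : boxS d L → ℝ) (y : boxS d L)
    (h : ∀ v, Vp (boxNet d L) k q (a' / ell k) u t v ≤
      ENNReal.ofReal (Real.exp (a' * (M + s0 * (boxNet d L).dist v y)))) :
    PotGe k q u t M s0 y := by
  intro v
  have hv := h v
  have hl : 0 < ell k := ell_pos hk hk1
  unfold Vp at hv
  have e1 : ENNReal.ofReal (Real.exp (a' * (M + s0 * (boxNet d L).dist v y))) =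
      (ENNReal.ofReal (k ^ (M + s0 * (boxNet d L).dist v y))) ^ (-(a' / ell k)) := by
    rw [ENNReal.ofReal_rpow_of_pos (Real.rpow_pos_of_pos hk _), ← Real.rpow_mul hk.le,
      Real.rpow_def_of_pos hk]
    congr 2
    have h2 : Real.log k = -ell k := by rw [Unit_ell, neg_neg]
    rw [h2]
    field_simp
  rw [e1, Unit_inv (div_pos ha hl)] at hv
  obtain ⟨z, -, hz⟩ := Finset.exists_mem_eq_sup Finset.univ ⟨v, Finset.mem_univ v⟩
    (fun z => ENNReal.ofReal (Tz (boxNet d L) k q u t v z))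
  rw [hz] at hv
  refine ⟨z, ?_⟩
  rcases ENNReal.ofReal_le_ofReal_iff'.1 hv with h3 | h3
  · exact h3
  · exact absurd h3 (not_le.2 (Real.rpow_pos_of_pos hk _))

theorem V_of_potGe {L : ℕ} {k q r M s0 : ℝ} (hk : 0 < k) (hk1 : k < 1) (hr : 0 < r)
    (u t : boxS d L → ℝ) (y : boxS d L) (h : PotGe k q u t M s0 y) (v : boxS d L) :
    Vp (boxNet d L) k q r u t v ≤
      ENNReal.ofReal (k ^ (-(r * (M + s0 * (boxNet d L).dist v y)))) := by
  obtain ⟨z, hz⟩ := h v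
  unfold Vp
  have e1 : ENNReal.ofReal (k ^ (-(r * (M + s0 * (boxNet d L).dist v y)))) =
      (ENNReal.ofReal (k ^ (M + s0 * (boxNet d L).dist v y))) ^ (-r) := by
    rw [ENNReal.ofReal_rpow_of_pos (Real.rpow_pos_of_pos hk _), ← Real.rpow_mul hk.le]
    congr 2
    ring
  rw [e1, Unit_inv hr]
  exact (ENNReal.ofReal_le_ofReal hz).trans
    (Finset.le_sup (f := fun z => ENNReal.ofReal (Tz (boxNet d L) k q u t v z))
      (Finset.mem_univ z))

theorem caps_prob (N d : ℕ) (β : ℝ) (hβ : 0 < β) (ε0 : ℝ) (hε : 0 < ε0) :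
    ∃ c k0 : ℝ, 0 < c ∧ 0 < k0 ∧ k0 < 1 ∧
    ∀ (F : Fam d) (k : ℝ) (S : PSys F β k), 0 < k → k < k0 → BNoise N S.ν S.b S.gd →
    ∀ L : ℕ, ∃ h0 : ℝ, 0 < h0 ∧ ∀ h, 0 < h → h < h0 →
    ∀ (G : (boxS d L → F.V) × (boxS d L → F.V)) (n : ℕ), 1 ≤ n * h → ∀ y : boxS d L,
      PI (S.mu L) (S.alv h L G n ∩ {ω | ¬ Caps k (fun v => ‖(S.tr h L G ω n).1 v‖ +
          ‖(S.tr h L G ω n).2 v‖) ε0 y}) ≤ ENNReal.ofReal (k ^ c) := by
  obtain ⟨C, hC, H⟩ := mom_cap N d β hβ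
  obtain ⟨k0, hk0, hk01, Hk⟩ := Unit_small (C * 3 ^ d) ε0 (by positivity) hε
  refine ⟨ε0 / 2, k0, by positivity, hk0, hk01, ?_⟩
  intro F k S hk hkk hB L
  obtain ⟨h0, hh0, H0⟩ := H F k S hk.le (hkk.trans hk01).le hB L
  refine ⟨h0, hh0, ?_⟩
  intro h hh hhh G n hn y
  obtain ⟨h1, h2, -⟩ := Hk k hk hkk
  have hρ : 0 ≤ k ^ ε0 := Real.rpow_nonneg hk.le _
  have htr : Measurable (fun ω : ℕ → boxS d L → S.Ωp => S.tr h L G ω n) :=
    (measurable_tr S h L n).comp (measurable_const.prodMk measurable_id)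
  have hm1 : ∀ w : boxS d L, Measurable
      (fun ω : ℕ → boxS d L → S.Ωp => ‖(S.tr h L G ω n).1 w‖) := fun w =>
    ((measurable_pi_apply w).comp (measurable_fst.comp htr)).norm
  have hm2 : ∀ w : boxS d L, Measurable
      (fun ω : ℕ → boxS d L → S.Ωp => ‖(S.tr h L G ω n).2 w‖) := fun w =>
    ((measurable_pi_apply w).comp (measurable_snd.comp htr)).norm
  have hY1 : ∀ v : boxS d L, Measurable
      (fun ω : ℕ → boxS d L → S.Ωp => Yl (boxNet d L) (nrm (S.tr h L G ω n).1) v) := by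
    intro v
    unfold Yl nrm
    exact Finset.measurable_fun_sum _ fun w _ => (hm1 w).const_mul _
  have hY2 : ∀ v : boxS d L, Measurable
      (fun ω : ℕ → boxS d L → S.Ωp => Yl (boxNet d L) (nrm (S.tr h L G ω n).2) v) := by
    intro v
    unfold Yl nrm
    exact Finset.measurable_fun_sum _ fun w _ => (hm2 w).const_mul _
  have hle : ∀ (u : boxS d L → ℝ) (v : boxS d L), (∀ w, 0 ≤ u w) → u v ≤ Yl (boxNet d L) u v := by
    intro u v hu
    have e := Finset.single_le_sum (f := fun w => (1 / 2 : ℝ) ^ (boxNet d L).dist v w * u w)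
      (fun w _ => mul_nonneg (by positivity) (hu w)) (Finset.mem_univ v)
    rw [(boxNet d L).dist_self, pow_zero, one_mul] at e
    exact e
  refine (Unit_sum (PI (S.mu L)) (S.alv h L G n) _
    (fun v => {ω | ENNReal.ofReal (k ^ (-(ε0 * (1 + (boxNet d L).dist v y)))) ≤
      ENNReal.ofReal (Yl (boxNet d L) (nrm (S.tr h L G ω n).1) v +
        Yl (boxNet d L) (nrm (S.tr h L G ω n).2) v)}) y hC.le hρ h1 ?_ ?_).trans
    (ENNReal.ofReal_le_ofReal h2)
  · intro ω hω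
    have hω' : ¬ Caps k (fun v => ‖(S.tr h L G ω n).1 v‖ + ‖(S.tr h L G ω n).2 v‖) ε0 y := hω
    unfold Caps at hω'
    push Not at hω'
    obtain ⟨v, hv⟩ := hω'
    refine ⟨v, ?_⟩
    refine ENNReal.ofReal_le_ofReal ?_
    have e1 := hle (nrm (S.tr h L G ω n).1) v (fun w => norm_nonneg _)
    have e2 := hle (nrm (S.tr h L G ω n).2) v (fun w => norm_nonneg _)
    have e3 : nrm (S.tr h L G ω n).1 v = ‖(S.tr h L G ω n).1 v‖ := rfl
    have e4 : nrm (S.tr h L G ω n).2 v = ‖(S.tr h L G ω n).2 v‖ := rfl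
    rw [e3] at e1
    rw [e4] at e2
    linarith
  · intro v
    have hY : Measurable (fun ω : ℕ → boxS d L → S.Ωp =>
        ENNReal.ofReal (Yl (boxNet d L) (nrm (S.tr h L G ω n).1) v +
        Yl (boxNet d L) (nrm (S.tr h L G ω n).2) v)) := ((hY1 v).add (hY2 v)).ennreal_ofReal
    refine (Unit_markov (PI (S.mu L)) (S.alv h L G n) _ hY (Real.rpow_pos_of_pos hk _)
      (H0 h hh hhh G n hn v)).trans (ENNReal.ofReal_le_ofReal (le_of_eq ?_))
    rw [Real.rpow_neg hk.le, div_inv_eq_mul, mul_assoc]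
    congr 1
    rw [← Real.rpow_natCast, ← Real.rpow_mul hk.le, ← Real.rpow_add hk]
    congr 1
    ring

theorem pot_prob (N d : ℕ) (β : ℝ) (hN : 2 ≤ N) (hβ : 0 < β) : ∃ q0 : ℝ, 1 ≤ q0 ∧
    ∀ q, q0 ≤ q → ∀ ε, 0 < ε → ∃ c k0 : ℝ, 0 < c ∧ 0 < k0 ∧ k0 < 1 ∧
    ∀ (F : Fam d) (k : ℝ) (S : PSys F β k), 0 < k → k < k0 → BNoise N S.ν S.b S.gd →
    ∃ h0 : ℝ, 0 < h0 ∧ ∀ h, 0 < h → h < h0 → ∀ L : ℕ,
    ∀ (G : (boxS d L → F.V) × (boxS d L → F.V)) (n : ℕ), n * h ≤ 3 → ∀ (y : boxS d L) (M s0 : ℝ),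
      0 ≤ M → 0 ≤ s0 →
      (PotGe k q (nrm G.1) (fun v => nrm G.1 v + nrm G.2 v) M s0 y →
        PI (S.mu L) (S.alv h L G n ∩ {ω | ¬ PotGe k q (nrm (S.tr h L G ω n).1)
          (fun v => nrm (S.tr h L G ω n).1 v + nrm (S.tr h L G ω n).2 v) (M + ε) (s0 + ε) y}) ≤
            ENNReal.ofReal (k ^ c)) ∧
      (PotGe k q (nrm G.2) (fun v => nrm G.1 v + nrm G.2 v) M s0 y →
        PI (S.mu L) (S.alv h L G n ∩ {ω | ¬ PotGe k q (nrm (S.tr h L G ω n).2)
          (fun v => nrm (S.tr h L G ω n).1 v + nrm (S.tr h L G ω n).2 v) (M + ε) (s0 + ε) y}) ≤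
            ENNReal.ofReal (k ^ c)) := by
  obtain ⟨q0, hq0, H⟩ := sm_multi N d β hN hβ
  refine ⟨q0, hq0, ?_⟩
  intro q hq ε hε
  have hq1 : 1 ≤ q := hq0.trans hq
  obtain ⟨C9, k1, hC9, hk1, hk11, H1⟩ := H q hq
  have hr : 0 < 1 / (8 * q) := by positivity
  obtain ⟨k2, hk2, hk21, Hk⟩ := Unit_small
    (Real.exp (C9 * (1 / (8 * q) + (1 / (8 * q)) ^ 2) * 3) * 3 ^ d) (1 / (8 * q) * ε)
    (by positivity) (by positivity)
  refine ⟨1 / (8 * q) * ε / 2, min k1 k2, by positivity, lt_min hk1 hk2,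
    lt_of_le_of_lt (min_le_left _ _) hk11, ?_⟩
  intro F k S hk hkk hB
  have hkk1 : k < k1 := hkk.trans_le (min_le_left _ _)
  have hkk2 : k < k2 := hkk.trans_le (min_le_right _ _)
  obtain ⟨e1, e2, e3⟩ := Hk k hk hkk2
  set r : ℝ := 1 / (8 * q) with hrd
  have hqr : 8 * q * r ≤ 1 := by
    rw [hrd, mul_one_div_cancel (by positivity)]
  obtain ⟨h0, hh0, H2⟩ := H1 F k S hk hkk1 hB r hr hqr
  refine ⟨h0, hh0, ?_⟩
  intro h hh hhh L G n hn y M s0 hM hs0
  have hk1' : k < 1 := hkk1.trans hk11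
  have hexp : Real.exp (C9 * (r / ell k + r ^ 2) * (n * h)) ≤
      Real.exp (C9 * (r + r ^ 2) * 3) := by
    refine Real.exp_le_exp.2 ?_
    have a1 : r / ell k ≤ r := div_le_self hr.le e3
    have a2 : 0 ≤ r / ell k := div_nonneg hr.le (by linarith)
    have a3 : 0 ≤ (n : ℝ) * h := by positivity
    calc C9 * (r / ell k + r ^ 2) * (n * h) ≤ C9 * (r + r ^ 2) * (n * h) := by gcongr
      _ ≤ C9 * (r + r ^ 2) * 3 := by gcongr
  have htr : Measurable (fun ω : ℕ → boxS d L → S.Ωp => S.tr h L G ω n) :=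
    (measurable_tr S h L n).comp (measurable_const.prodMk measurable_id)
  have hρ : 0 ≤ k ^ (r * ε) := Real.rpow_nonneg hk.le _
  have key : ∀ (u : (boxS d L → F.V) × (boxS d L → F.V) → boxS d L → ℝ)
      (W : (boxS d L → F.V) × (boxS d L → F.V) → boxS d L → ℝ≥0∞)
      (_ : ∀ P v, W P v = Vp (boxNet d L) k q r (u P) (fun v => nrm P.1 v + nrm P.2 v) v)
      (_ : ∀ v, Measurable (fun ω : ℕ → boxS d L → S.Ωp => W (S.tr h L G ω n) v))
      (_ : ∀ v, ∫⁻ ω in S.alv h L G n, W (S.tr h L G ω n) v ∂(PI (S.mu L)) ≤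
          ENNReal.ofReal (Real.exp (C9 * (r / ell k + r ^ 2) * (n * h))) * W G v),
      PotGe k q (u G) (fun v => nrm G.1 v + nrm G.2 v) M s0 y →
        PI (S.mu L) (S.alv h L G n ∩ {ω | ¬ PotGe k q (u (S.tr h L G ω n))
          (fun v => nrm (S.tr h L G ω n).1 v + nrm (S.tr h L G ω n).2 v) (M + ε) (s0 + ε) y}) ≤
            ENNReal.ofReal (k ^ (r * ε / 2)) := by
    intro u W hW hWm hWi hG
    refine (Unit_sum (PI (S.mu L)) (S.alv h L G n) _
      (fun v => {ω | ENNReal.ofReal (k ^ (-(r * (M + ε + (s0 + ε) * (boxNet d L).dist v y)))) ≤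
        W (S.tr h L G ω n) v}) y (Real.exp_pos _).le hρ e1 ?_ ?_).trans
      (ENNReal.ofReal_le_ofReal e2)
    · intro ω hω
      have hω' : ¬ PotGe k q (u (S.tr h L G ω n))
          (fun v => nrm (S.tr h L G ω n).1 v + nrm (S.tr h L G ω n).2 v) (M + ε) (s0 + ε) y := hω
      unfold PotGe at hω'
      push Not at hω'
      obtain ⟨v, hv⟩ := hω'
      refine ⟨v, ?_⟩
      show _ ≤ W (S.tr h L G ω n) v
      rw [hW]
      unfold Vp
      have a1 : ENNReal.ofReal (k ^ (-(r * (M + ε + (s0 + ε) * (boxNet d L).dist v y)))) =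
          (ENNReal.ofReal (k ^ (M + ε + (s0 + ε) * (boxNet d L).dist v y))) ^ (-r) := by
        rw [ENNReal.ofReal_rpow_of_pos (Real.rpow_pos_of_pos hk _), ← Real.rpow_mul hk.le]
        congr 2
        ring
      rw [a1, Unit_inv hr]
      refine Finset.sup_le fun z _ => ENNReal.ofReal_le_ofReal (hv z).le
    · intro v
      have a1 : ∫⁻ ω in S.alv h L G n, W (S.tr h L G ω n) v ∂(PI (S.mu L)) ≤
          ENNReal.ofReal (Real.exp (C9 * (r + r ^ 2) * 3) *
            k ^ (-(r * (M + s0 * (boxNet d L).dist v y)))) := by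
        refine (hWi v).trans ?_
        rw [ENNReal.ofReal_mul (Real.exp_pos _).le]
        refine mul_le_mul' (ENNReal.ofReal_le_ofReal hexp) ?_
        rw [hW]
        exact V_of_potGe hk hk1' hr _ _ y hG v
      refine (Unit_markov (PI (S.mu L)) (S.alv h L G n) _ (hWm v) (Real.rpow_pos_of_pos hk _)
        a1).trans (ENNReal.ofReal_le_ofReal (le_of_eq ?_))
      have b1 : k ^ (-(r * (M + s0 * (boxNet d L).dist v y))) *
          k ^ (r * (M + ε + (s0 + ε) * (boxNet d L).dist v y)) =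
          k ^ (r * ε) * (k ^ (r * ε)) ^ (boxNet d L).dist v y := by
        rw [← Real.rpow_natCast (k ^ (r * ε)) _, ← Real.rpow_mul hk.le, ← Real.rpow_add hk,
          ← Real.rpow_add hk]
        congr 1
        ring
      rw [Real.rpow_neg hk.le (r * (M + ε + (s0 + ε) * (boxNet d L).dist v y)), div_inv_eq_mul,
        mul_assoc (Real.exp (C9 * (r + r ^ 2) * 3)), b1, ← mul_assoc]
  constructor
  · intro hG
    exact key (fun P => nrm P.1) (fun P v => V1 k q r P v) (fun P v => rfl)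
      (fun v => ((measurable_V k q r v).1).comp htr)
      (fun v => (H2 h hh hhh L G n v).1) hG
  · intro hG
    exact key (fun P => nrm P.2) (fun P v => V2 k q r P v) (fun P v => rfl)
      (fun v => ((measurable_V k q r v).2).comp htr)
      (fun v => (H2 h hh hhh L G n v).2) hG

theorem low_of_pot {L : ℕ} {k q M s0 ε0 : ℝ} (hk : 0 < k) (hk1 : k < 1) (hq : 0 ≤ q)
    (hM : 0 ≤ M) (hs0 : 0 ≤ s0) (hε : 0 < ε0) (hε1 : ε0 ≤ 1 / 8)
    (u t : boxS d L → ℝ) (hu : ∀ v, 0 ≤ u v) (hut : ∀ v, u v ≤ t v) (y : boxS d L)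
    (h : PotGe k q u t M s0 y) (hc : Caps k t ε0 y) :
    LowR k u (7 * M + 1) (7 * s0 + 6 * ε0) y := by
  intro v
  obtain ⟨z, hz⟩ := h v
  refine ⟨z, ?_⟩
  have ht : ∀ w, 0 ≤ t w := fun w => (hu w).trans (hut w)
  set D : ℝ := (((boxNet d L).dist v z : ℕ) : ℝ) with hD
  set Y : ℝ := (((boxNet d L).dist v y : ℕ) : ℝ) with hY
  have hD0 : 0 ≤ D := Nat.cast_nonneg _
  have hY0 : 0 ≤ Y := Nat.cast_nonneg _
  have hf0 : 0 ≤ fpot k (u z) := fpot_nonneg k (u z)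
  have hS : SSt (boxNet d L) k t z ^ (-q) ≤ 1 :=
    Real.rpow_le_one_of_one_le_of_nonpos (SSt_one (boxNet d L) hk t ht z) (by linarith)
  have hpow : (k ^ (1 / 4 : ℝ)) ^ (boxNet d L).dist v z = k ^ (D / 4) := by
    rw [← Real.rpow_natCast, ← Real.rpow_mul hk.le]
    congr 1
    ring
  have hpow2 : k ^ (boxNet d L).dist v z = k ^ D := by
    rw [← Real.rpow_natCast]
  have h1 : k ^ (M + s0 * Y) ≤ k ^ (D / 4) * fpot k (u z) := by
    refine hz.trans ?_
    unfold Tz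
    rw [hpow]
    have a1 : 0 ≤ k ^ (D / 4) * fpot k (u z) := mul_nonneg (Real.rpow_nonneg hk.le _) hf0
    calc k ^ (D / 4) * fpot k (u z) * SSt (boxNet d L) k t z ^ (-q)
        ≤ k ^ (D / 4) * fpot k (u z) * 1 := mul_le_mul_of_nonneg_left hS a1
      _ = _ := mul_one _
  have hfu : fpot k (u z) ≤ u z := fpot_le hk hk1 (hu z)
  have htri : (((boxNet d L).dist z y : ℕ) : ℝ) ≤ Y + D := by
    have a1 := (boxNet d L).dist_tri z v y
    have a2 : (((boxNet d L).dist z y : ℕ) : ℝ) ≤ (((boxNet d L).dist z v : ℕ) : ℝ) + Y := by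
      rw [hY]
      exact_mod_cast a1
    rw [(boxNet d L).dist_comm z v] at a2
    linarith
  have hcap : u z ≤ k ^ (-(ε0 * (1 + Y + D))) := by
    refine (hut z).trans ((hc z).trans ?_)
    refine Real.rpow_le_rpow_of_exponent_ge hk hk1.le ?_
    have := mul_le_mul_of_nonneg_left htri hε.le
    nlinarith
  have h2 : k ^ (M + s0 * Y) ≤ k ^ (D / 4 + -(ε0 * (1 + Y + D))) := by
    rw [Real.rpow_add hk (D / 4)]
    refine h1.trans (mul_le_mul_of_nonneg_left (hfu.trans hcap) (Real.rpow_nonneg hk.le _))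
  have h3 : D / 4 + -(ε0 * (1 + Y + D)) ≤ M + s0 * Y := by
    exact (Real.rpow_le_rpow_left_iff_of_base_lt_one hk hk1).1 h2
  have h4 : D ≤ 8 * (M + s0 * Y + ε0 * (1 + Y)) := by nlinarith
  rw [hpow2]
  calc k ^ (7 * M + 1 + (7 * s0 + 6 * ε0) * Y)
      ≤ k ^ (M + s0 * Y + 3 / 4 * D) := by
        refine Real.rpow_le_rpow_of_exponent_ge hk hk1.le ?_
        nlinarith
    _ = k ^ (M + s0 * Y) * k ^ (3 / 4 * D) := Real.rpow_add hk _ _
    _ ≤ k ^ (D / 4) * fpot k (u z) * k ^ (3 / 4 * D) :=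
        mul_le_mul_of_nonneg_right h1 (Real.rpow_nonneg hk.le _)
    _ = fpot k (u z) * k ^ D := by
        rw [show D = D / 4 + 3 / 4 * D by ring, Real.rpow_add hk]
        ring_nf
    _ ≤ u z * k ^ D := mul_le_mul_of_nonneg_right hfu (Real.rpow_nonneg hk.le _)

end DynC

end

/-! ### from `Lib_MP_36b788c.LYr` -/

section

/-!
# Decay of the potential over a block: reduction to the main estimate

`MEst`: main estimate from a reference site `z` with height at least `X0`, potential level `PL = dist x z/4 - g(X0) ≥ M0`.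

PROOF of `ly_red`. `s = a/ell`, `K_a = e^{a M0*}` with `M0* = M0 + M0' + 10` (below). All bounds for `k` small, then `h` small. `C` depends on `a, T0` only.
1. `untame_time`: `n'` with `1 ≤ n' h ≤ 3` and untame part of `V1(tr n') x` at most `C k^{β/16} ell V1 G x`. By `alv_markov` and `sm_multi` (`(n-n') h ≤ T0 ts + 1`, growth `e^C`), the contribution of untame states at time `n'` to `∫_{alv n} V1(tr n)` is `≤ (a/100) V1 G x`.
2. A state `G'` at time `n'` (norms `≤ rad`), tame: maximizer `z` of `Tz … x ·` with `SSt(z) < 2`. If `V1 G' x ≤ K_a`: `sm_multi` gives a contribution `≤ e^C K_a`, into `Ca`. Otherwise (`V1 G' x < ∞`, `u z > 0`) put `X_z = log‖G'.1 z‖/ell < 1/16` (`k^{1/16} u z + 1 ≤ SSt z < 2`), `PL = dist x z/4 - g(X_z)`, `V1 G' x = e^{a PL} SSt(z)^{q s}`, so `e^{a PL} ≤ V1 G' x ≤ 2^{qs} e^{a PL}`.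
   Profile: for all `v`, `Tz v ≤ Tz z` gives `fpot(u v) ≤ k^{(dist x z - dist x v)/4} (SSt v/SSt z)^q fpot(u z) ≤ k^{-dist z v/4} 2^{q dist z v} fpot(u z)`, `u v ≤ k^{-1/4} fpot(u v)`, so `u v ≤ k^{-(X_z + 1/4 + (3/8) dist z v)}` (`2^q ≤ k^{-1/8}`).
3. Deep case `X_z ≤ -Md` (`Md`, `M0`, `ε0` from `HM` with `M = 1`): `MEst` from time `n'` with reference site `z`: contribution `≤ (1 - a/2) e^{a PL} + (a/100) V1 G' x ≤ (1 - a/2 + a/100) V1 G' x`.
4. Shallow case `-Md < X_z < 1/16`: `n'' = n' + ⌈1/h⌉`. `M0', Md', ε0'` from `HM` with `M = Md + 3`. `ε = 1/100`. From time `n'` (state `G'`): `PotGe k q … (ε - g(X_z)) (1/4) z` holds (`Tz z` at `v`: `k^{dist v z/4} fpot(u z) SSt(z)^{-q}`), `pot_prob` gives at time `n''`, outside probability `k^c` (on `alv`), `PotGe` with `(2ε - g(X_z), 1/4 + ε)`, in particular some `z'` with `k^{dist z z'/4} fpot(u'' z') ≥ k^{2ε - g(X_z)}`;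
   `caps_prob`: `Caps` with `ε1` around `z` outside `k^c`. Hence `fpot(u'' z') ≤ max 1 (u'' z') ≤ k^{-ε1(1+dist z z')}`, `dist z z' ≤ 5(Md+2)` (`g(X_z) ≥ -Md - 1/4`), `X0 := log(u'' z')/ell ≤ 1/8`, `g(X0) ≥ g(X_z) + dist z z'/4 - 2ε`, `X0 ≥ g(X0) ≥ -Md - 1`; caps around `z'` with `ε0' ` if `ε1(1 + 5(Md+2)) ≤ ε0'`; profile with `M = Md + 3` from the caps. `PL'' = dist x z'/4 - g(X0) ≤ PL + 2ε`.
   If `PL'' < M0'`: `V1(tr n'') x ≤ e^{a PL''} SSt(z')^{qs} ≤ 2 e^{a M0'}`, contribution into `Ca` (`sm_multi`). Otherwise `MEst` from time `n''`: `≤ (1 - a/2) e^{a PL + 2aε} + (a/100) V1(tr n'') x`, and `∫ V1(tr n'') x ≤ e^{small} V1 G' x` (`sm_multi`). Exceptional events of probability `p ≤ k^c` at time `n''`: contribution `≤ (∫_{alv n} V1² )^{1/2} p^{1/2} ≤ e^C V1 G' x k^{c/2}` (`V_sq`, `sm_multi` with `2s`, Markov).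
5. Sum: `≤ (1 - a/2 + 4a/100 + a/50 + …) ∫_{alv n'} V1(tr n') x + Ca + (a/100) V1 G x`, `∫_{alv n'} V1(tr n') x ≤ e^{3 C9 (s/ell + s²)} V1 G x ≤ (1 + a/100) V1 G x`. Total `≤ (1 - a/4) V1 G x + Ca`.
-/

open MeasureTheory ProbabilityTheory
open scoped ENNReal

namespace DynC

open Dyn

variable {d : ℕ}

/-- main estimate for the block, reference site `z` -/
def MEst (N : ℕ) {F : Fam d} {β k : ℝ} (S : PSys F β k) (q a T0 M M0 Md ε0 : ℝ) (L : ℕ) (h : ℝ) :
    Prop :=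
  ∀ m : ℕ, T0 * ts N k - 5 ≤ m * h → m * h ≤ T0 * ts N k + 5 →
  ∀ (G : (boxS d L → F.V) × (boxS d L → F.V)) (x z : boxS d L) (X0 : ℝ),
    X0 ≤ 1 / 8 → k ^ (-X0) ≤ ‖G.1 z‖ → M0 ≤ (boxNet d L).dist x z / 4 - gX X0 →
    (∀ v, ‖G.1 v‖ ≤ k ^ (-(X0 + M + (boxNet d L).dist z v / 2))) →
    (Caps k (nrm G.1) ε0 z ∨ X0 ≤ -Md) →
    ∫⁻ ω in S.alv h L G m, V1 k q (a / ell k) (S.tr h L G ω m) x ∂(PI (S.mu L)) ≤
      ENNReal.ofReal ((1 - a / 2) * Real.exp (a * ((boxNet d L).dist x z / 4 - gX X0))) +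
        ENNReal.ofReal (a / 100) * V1 k q (a / ell k) G x

/-! ### real functions -/

private theorem LYr_rp {k : ℝ} (hk : 0 < k) (x : ℝ) : k ^ x = Real.exp (-(ell k * x)) := by
  unfold ell
  rw [Real.rpow_def_of_pos hk, one_div, Real.log_inv]
  congr 1
  ring

private theorem LYr_rp_le {k : ℝ} (hk : 0 < k) (hk1 : k < 1) {x y : ℝ} : k ^ x ≤ k ^ y ↔ y ≤ x := by
  rw [LYr_rp hk, LYr_rp hk, Real.exp_le_exp]
  have := ell_pos hk hk1
  constructor
  · intro h
    by_contra hc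
    push Not at hc
    nlinarith
  · intro h
    nlinarith

private theorem LYr_log {k v : ℝ} (hk : 0 < k) (hk1 : k < 1) (hv : 0 < v) :
    v = k ^ (-(Real.log v / ell k)) := by
  have h1 := ell_pos hk hk1
  rw [LYr_rp hk]
  have h2 : -(ell k * -(Real.log v / ell k)) = Real.log v := by field_simp
  rw [h2, Real.exp_log hv]

private theorem LYr_fpot {k v : ℝ} (hk : 0 < k) (hv : 0 < v) :
    fpot k v = k ^ (-gX (Real.log v / ell k)) := by
  unfold fpot
  rw [if_neg (not_le.2 hv), LYr_rp hk]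
  congr 1
  ring

private theorem LYr_gX16 {X : ℝ} (h : X ≤ 1 / 16) : gX X ≤ -(3 / 16) := by
  have h1 := gX_mono h
  have h2 : gX (1 / 16) = -(3 / 16) := by
    unfold gX
    norm_num
  rw [h2] at h1
  exact h1

section nets
variable {ι : Type} [Fintype ι] (net : Net ι d)

private theorem LYr_Tz {k q : ℝ} (hk : 0 < k) (u t : ι → ℝ) (x z : ι) (hu : 0 < u z) :
    Tz net k q u t x z =
      k ^ ((net.dist x z : ℝ) / 4 - gX (Real.log (u z) / ell k)) * SSt net k t z ^ (-q) := by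
  unfold Tz
  rw [LYr_fpot hk hu, ← Real.rpow_natCast, ← Real.rpow_mul hk.le, ← Real.rpow_add hk]
  congr 2
  ring

private theorem LYr_Vp {k q a : ℝ} (hk : 0 < k) (hk1 : k < 1) (u t : ι → ℝ)
    (ht : ∀ y, 0 ≤ t y) (x z : ι)
    (hz : ∀ y, Tz net k q u t x y ≤ Tz net k q u t x z) (hu : 0 < u z) :
    Vp net k q (a / ell k) u t x =
      ENNReal.ofReal (Real.exp (a * ((net.dist x z : ℝ) / 4 - gX (Real.log (u z) / ell k))) *
        SSt net k t z ^ (q * (a / ell k))) := by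
  have hl := ell_pos hk hk1
  have hS := SSt_one net hk t ht z
  have hS0 : 0 < SSt net k t z := by linarith
  have hp : 0 < k ^ ((net.dist x z : ℝ) / 4 - gX (Real.log (u z) / ell k)) := Real.rpow_pos_of_pos hk _
  have hp2 : 0 < SSt net k t z ^ (-q) := Real.rpow_pos_of_pos hS0 _
  rw [Vp_argmax net k q _ u t x z hz, LYr_Tz net hk u t x z hu,
    ENNReal.ofReal_rpow_of_pos (mul_pos hp hp2)]
  congr 1
  rw [Real.mul_rpow hp.le hp2.le, ← Real.rpow_mul hk.le, ← Real.rpow_mul hS0.le, LYr_rp hk]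
  congr 2
  · field_simp
  · ring

private theorem LYr_Vtop {k q a : ℝ} (hk : 0 < k) (hk1 : k < 1) (ha : 0 < a) (u t : ι → ℝ)
    (x z : ι) (hz : ∀ y, Tz net k q u t x y ≤ Tz net k q u t x z) (hu : u z ≤ 0) :
    Vp net k q (a / ell k) u t x = ⊤ := by
  have hl := ell_pos hk hk1
  rw [Vp_argmax net k q _ u t x z hz]
  have h1 : Tz net k q u t x z = 0 := by
    unfold Tz fpot
    rw [if_pos hu]
    ring
  rw [h1, ENNReal.ofReal_zero, ENNReal.zero_rpow_of_neg]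
  have : 0 < a / ell k := by positivity
  linarith

/-- height of a tame maximizer -/
private theorem LYr_tame {k : ℝ} (hk : 0 < k) (hk1 : k < 1) (u t : ι → ℝ)
    (hut : ∀ y, u y ≤ t y) (ht : ∀ y, 0 ≤ t y) (z : ι) (hu : 0 < u z)
    (hS : SSt net k t z < 2) : Real.log (u z) / ell k < 1 / 16 := by
  have hl := ell_pos hk hk1
  have h1 := le_SSt net hk t ht z
  have h2 : k ^ (1 / 16 : ℝ) * u z < 1 := by
    have h3 : k ^ (1 / 16 : ℝ) * u z ≤ k ^ (1 / 16 : ℝ) * t z :=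
      mul_le_mul_of_nonneg_left (hut z) (Real.rpow_pos_of_pos hk _).le
    linarith
  by_contra hc
  push Not at hc
  have h4 : k ^ (1 / 16 : ℝ) * u z = k ^ (1 / 16 - Real.log (u z) / ell k) := by
    conv_lhs => rw [LYr_log hk hk1 hu]
    rw [← Real.rpow_add hk]
    congr 1
  rw [h4] at h2
  have h5 : (1 : ℝ) ≤ k ^ (1 / 16 - Real.log (u z) / ell k) := by
    calc (1 : ℝ) = k ^ (0 : ℝ) := (Real.rpow_zero k).symm
      _ ≤ _ := (LYr_rp_le hk hk1).2 (by linarith)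
  linarith

/-- profile around a maximizer -/
private theorem LYr_prof {k q : ℝ} (hk : 0 < k) (hk1 : k < 1) (hq : 0 ≤ q)
    (hkq : (2 : ℝ) ^ q ≤ k ^ (-(1 / 8 : ℝ))) (u t : ι → ℝ)
    (hu0 : ∀ y, 0 ≤ u y) (ht : ∀ y, 0 ≤ t y) (x z : ι)
    (hz : ∀ y, Tz net k q u t x y ≤ Tz net k q u t x z) (hu : 0 < u z) (v : ι) :
    u v ≤ k ^ (-(Real.log (u z) / ell k + 1 + (net.dist z v : ℝ) / 2)) := by
  have hl := ell_pos hk hk1
  rcases (hu0 v).lt_or_eq with hv | hv
  swap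
  · rw [← hv]
    exact (Real.rpow_pos_of_pos hk _).le
  have hSz := SSt_one net hk t ht z
  have hSv := SSt_one net hk t ht v
  have hSz0 : 0 < SSt net k t z := by linarith
  have hSv0 : 0 < SSt net k t v := by linarith
  have hd := SSt_dist net hk t ht v z
  have hT := hz v
  rw [LYr_Tz net hk u t x z hu, LYr_Tz net hk u t x v hv] at hT
  -- T v * S(v)^q
  have h1 : k ^ ((net.dist x v : ℝ) / 4 - gX (Real.log (u v) / ell k)) ≤
      k ^ ((net.dist x z : ℝ) / 4 - gX (Real.log (u z) / ell k)) *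
        (SSt net k t z ^ (-q) * SSt net k t v ^ q) := by
    have h2 : SSt net k t v ^ (-q) * SSt net k t v ^ q = 1 := by
      rw [← Real.rpow_add hSv0]
      simp
    calc k ^ ((net.dist x v : ℝ) / 4 - gX (Real.log (u v) / ell k))
        = k ^ ((net.dist x v : ℝ) / 4 - gX (Real.log (u v) / ell k)) *
          (SSt net k t v ^ (-q) * SSt net k t v ^ q) := by rw [h2, mul_one]
      _ = k ^ ((net.dist x v : ℝ) / 4 - gX (Real.log (u v) / ell k)) * SSt net k t v ^ (-q) *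
          SSt net k t v ^ q := by ring
      _ ≤ k ^ ((net.dist x z : ℝ) / 4 - gX (Real.log (u z) / ell k)) * SSt net k t z ^ (-q) *
          SSt net k t v ^ q := mul_le_mul_of_nonneg_right hT (Real.rpow_pos_of_pos hSv0 _).le
      _ = _ := by ring
  have h3 : SSt net k t z ^ (-q) * SSt net k t v ^ q ≤ k ^ (-((net.dist z v : ℝ) / 8)) := by
    have h4 : SSt net k t v ^ q ≤ ((2 : ℝ) ^ net.dist v z * SSt net k t z) ^ q :=
      Real.rpow_le_rpow hSv0.le hd hq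
    rw [Real.mul_rpow (by positivity) hSz0.le] at h4
    have h5 : ((2 : ℝ) ^ net.dist v z) ^ q = ((2 : ℝ) ^ q) ^ net.dist v z := by
      rw [← Real.rpow_natCast, ← Real.rpow_natCast, ← Real.rpow_mul (by norm_num),
        ← Real.rpow_mul (by norm_num), mul_comm]
    have h6 : ((2 : ℝ) ^ q) ^ net.dist v z ≤ (k ^ (-(1 / 8 : ℝ))) ^ net.dist v z :=
      pow_le_pow_left₀ (by positivity) hkq _
    have h7 : (k ^ (-(1 / 8 : ℝ))) ^ net.dist v z = k ^ (-((net.dist z v : ℝ) / 8)) := by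
      rw [← Real.rpow_natCast, ← Real.rpow_mul hk.le, net.dist_comm v z]
      congr 1
      ring
    calc SSt net k t z ^ (-q) * SSt net k t v ^ q
        ≤ SSt net k t z ^ (-q) * (((2 : ℝ) ^ net.dist v z) ^ q * SSt net k t z ^ q) :=
          mul_le_mul_of_nonneg_left h4 (Real.rpow_pos_of_pos hSz0 _).le
      _ = (SSt net k t z ^ (-q) * SSt net k t z ^ q) * ((2 : ℝ) ^ net.dist v z) ^ q := by ring
      _ = ((2 : ℝ) ^ net.dist v z) ^ q := by
          rw [← Real.rpow_add hSz0]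
          simp
      _ ≤ _ := by rw [h5]; exact h6.trans (le_of_eq h7)
  have h8 : k ^ ((net.dist x v : ℝ) / 4 - gX (Real.log (u v) / ell k)) ≤
      k ^ ((net.dist x z : ℝ) / 4 - gX (Real.log (u z) / ell k) - (net.dist z v : ℝ) / 8) := by
    refine h1.trans ((mul_le_mul_of_nonneg_left h3 (Real.rpow_pos_of_pos hk _).le).trans ?_)
    rw [← Real.rpow_add hk]
    exact le_of_eq (by congr 1)
  rw [LYr_rp_le hk hk1] at h8
  conv_lhs => rw [LYr_log hk hk1 hv]
  rw [LYr_rp_le hk hk1]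
  have g1 := gX_ge (Real.log (u v) / ell k)
  have g2 := gX_le (Real.log (u z) / ell k)
  have h9 : (net.dist x v : ℝ) ≤ net.dist x z + net.dist z v := by exact_mod_cast net.dist_tri x z v
  have h10 : (0 : ℝ) ≤ net.dist z v := Nat.cast_nonneg _
  linarith

end nets

/-- a new reference site after one unit of time -/
private theorem LYr_good {L : ℕ} {k q ε0 ε1 M1 X : ℝ} (hk : 0 < k) (hk1 : k < 1) (hq : 0 ≤ q)
    (u t : boxS d L → ℝ) (hu0 : ∀ y, 0 ≤ u y) (hut : ∀ y, u y ≤ t y) (x z : boxS d L)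
    (hM1 : 0 ≤ M1) (hX : -M1 < X) (hε1 : 0 < ε1) (hε2 : ε1 ≤ 1 / 20)
    (hε3 : ε1 * (1 + 5 * (M1 + 2)) ≤ 1 / 8) (hε4 : ε1 * (1 + 5 * (M1 + 2)) ≤ ε0)
    (hP : PotGe k q u t (1 / 100 - gX X + 1 / 100) (1 / 4 + 1 / 100) z) (hC : Caps k t ε1 z) :
    ∃ (z' : boxS d L) (X0 : ℝ), X0 ≤ 1 / 8 ∧ k ^ (-X0) ≤ u z' ∧
      ((boxNet d L).dist x z' : ℝ) / 4 - gX X0 ≤ (boxNet d L).dist x z / 4 - gX X + 1 / 50 ∧
      ((boxNet d L).dist x z : ℝ) / 4 - gX X - (9 / 4 * M1 + 3) ≤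
        (boxNet d L).dist x z' / 4 - gX X0 ∧
      (∀ v, u v ≤ k ^ (-(X0 + (M1 + 3) + ((boxNet d L).dist z' v : ℝ) / 2))) ∧
      Caps k u ε0 z' := by
  have ht : ∀ y, 0 ≤ t y := fun y => (hu0 y).trans (hut y)
  obtain ⟨z', hz'⟩ := hP z
  rw [(boxNet d L).dist_self] at hz'
  have hu : 0 < u z' := by
    by_contra hc
    push Not at hc
    have h1 : Tz (boxNet d L) k q u t z z' = 0 := by
      unfold Tz fpot
      rw [if_pos hc]
      ring
    rw [h1] at hz'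
    have h2 := Real.rpow_pos_of_pos hk (1 / 100 - gX X + 1 / 100 + (1 / 4 + 1 / 100) * ((0 : ℕ) : ℝ))
    linarith
  set X0 := Real.log (u z') / ell k with hX0
  have hS := SSt_one (boxNet d L) hk t ht z'
  have hT : Tz (boxNet d L) k q u t z z' ≤ k ^ (((boxNet d L).dist z z' : ℝ) / 4 - gX X0) := by
    rw [LYr_Tz (boxNet d L) hk u t z z' hu]
    refine mul_le_of_le_one_right (Real.rpow_pos_of_pos hk _).le ?_
    rw [Real.rpow_neg (by linarith)]
    exact inv_le_one_of_one_le₀ (Real.one_le_rpow hS hq)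
  have e1 := hz'.trans hT
  rw [LYr_rp_le hk hk1, Nat.cast_zero, mul_zero, add_zero] at e1
  have e2 : X0 ≤ ε1 * (1 + (boxNet d L).dist z' z) := by
    have h1 := (hut z').trans (hC z')
    rw [LYr_log hk hk1 hu, LYr_rp_le hk hk1] at h1
    linarith
  have hdc : ((boxNet d L).dist z' z : ℝ) = (boxNet d L).dist z z' := by
    rw [(boxNet d L).dist_comm]
  rw [hdc] at e2
  have hD0 : (0 : ℝ) ≤ (boxNet d L).dist z z' := Nat.cast_nonneg _
  have gl := gX_le X0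
  have gg := gX_ge X
  have hD : ((boxNet d L).dist z z' : ℝ) ≤ 5 * (M1 + 2) := by nlinarith
  have e3 : X0 ≤ ε1 * (1 + 5 * (M1 + 2)) := e2.trans (mul_le_mul_of_nonneg_left (by linarith) hε1.le)
  have e4 : X0 ≤ 1 / 8 := e3.trans hε3
  have hεε : ε1 ≤ ε0 := by nlinarith
  have hcap : ∀ v, u v ≤ k ^ (-(ε1 * (1 + 5 * (M1 + 2)) + ε1 * (boxNet d L).dist v z')) := by
    intro v
    refine ((hut v).trans (hC v)).trans ?_
    rw [LYr_rp_le hk hk1]
    have h1 : ((boxNet d L).dist v z : ℝ) ≤ (boxNet d L).dist v z' + (boxNet d L).dist z' z := by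
      exact_mod_cast (boxNet d L).dist_tri v z' z
    rw [hdc] at h1
    nlinarith
  refine ⟨z', X0, e4, ?_, ?_, ?_, ?_, ?_⟩
  · exact le_of_eq (LYr_log hk hk1 hu).symm
  · have h1 : ((boxNet d L).dist x z' : ℝ) ≤ (boxNet d L).dist x z + (boxNet d L).dist z z' := by
      exact_mod_cast (boxNet d L).dist_tri x z z'
    linarith
  · have h1 : ((boxNet d L).dist x z : ℝ) ≤ (boxNet d L).dist x z' + (boxNet d L).dist z' z := by
      exact_mod_cast (boxNet d L).dist_tri x z' z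
    rw [hdc] at h1
    linarith
  · intro v
    refine (hcap v).trans ?_
    rw [LYr_rp_le hk hk1]
    have h1 : ((boxNet d L).dist v z' : ℝ) = (boxNet d L).dist z' v := by
      rw [(boxNet d L).dist_comm]
    have h2 : (0 : ℝ) ≤ (boxNet d L).dist z' v := Nat.cast_nonneg _
    rw [h1]
    nlinarith
  · intro v
    refine (hcap v).trans ?_
    rw [LYr_rp_le hk hk1]
    have h2 : (0 : ℝ) ≤ (boxNet d L).dist v z' := Nat.cast_nonneg _
    nlinarith

/-- the potential is large around a tame maximizer -/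
private theorem LYr_pot {L : ℕ} {k q : ℝ} (hk : 0 < k) (hk1 : k < 1) (hq : 0 ≤ q)
    (hkq : (2 : ℝ) ^ q ≤ k ^ (-(1 / 100 : ℝ))) (u t : boxS d L → ℝ)
    (ht : ∀ y, 0 ≤ t y) (z : boxS d L) (hu : 0 < u z)
    (hS : SSt (boxNet d L) k t z < 2) :
    PotGe k q u t (1 / 100 - gX (Real.log (u z) / ell k)) (1 / 4) z := by
  intro v
  refine ⟨z, ?_⟩
  rw [LYr_Tz (boxNet d L) hk u t v z hu]
  have hS1 := SSt_one (boxNet d L) hk t ht z
  have hS0 : 0 < SSt (boxNet d L) k t z := by linarith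
  have h1 : k ^ (1 / 100 : ℝ) ≤ SSt (boxNet d L) k t z ^ (-q) := by
    have h2 : SSt (boxNet d L) k t z ^ q ≤ k ^ (-(1 / 100 : ℝ)) :=
      (Real.rpow_le_rpow hS0.le hS.le hq).trans hkq
    have h3 : 0 < SSt (boxNet d L) k t z ^ q := Real.rpow_pos_of_pos hS0 _
    rw [Real.rpow_neg hS0.le, le_inv_comm₀ (Real.rpow_pos_of_pos hk _) h3, ← Real.rpow_neg hk.le]
    exact h2
  calc k ^ (1 / 100 - gX (Real.log (u z) / ell k) + 1 / 4 * ((boxNet d L).dist v z : ℝ))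
      = k ^ (((boxNet d L).dist v z : ℝ) / 4 - gX (Real.log (u z) / ell k)) * k ^ (1 / 100 : ℝ) := by
        rw [← Real.rpow_add hk]
        congr 1
        ring
    _ ≤ _ := mul_le_mul_of_nonneg_left h1 (Real.rpow_pos_of_pos hk _).le


/-! ### integrals -/

private theorem LYr_split {Ω : Type} [MeasurableSpace Ω] (μ : Measure Ω) [IsFiniteMeasure μ]
    (A U : Set Ω) (hA : MeasurableSet A) (Φ Ψ : Ω → ℝ≥0∞) (h : ∀ ω ∈ A, ω ∉ U → Φ ω ≤ Ψ ω) :
    ∫⁻ ω in A, Φ ω ∂μ ≤ ∫⁻ ω in A ∩ U, Φ ω ∂μ + ∫⁻ ω in A, Ψ ω ∂μ := by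
  have hB : MeasurableSet (toMeasurable μ (A ∩ U)) := measurableSet_toMeasurable μ _
  rw [← lintegral_inter_add_sdiff Φ A hB]
  refine add_le_add ?_ ?_
  · calc ∫⁻ ω in A ∩ toMeasurable μ (A ∩ U), Φ ω ∂μ ≤ ∫⁻ ω in toMeasurable μ (A ∩ U), Φ ω ∂μ :=
          lintegral_mono_set Set.inter_subset_right
      _ = ∫⁻ ω in A ∩ U, Φ ω ∂μ := by
          rw [Measure.restrict_toMeasurable (measure_ne_top μ _)]
  · calc ∫⁻ ω in A \ toMeasurable μ (A ∩ U), Φ ω ∂μ ≤ ∫⁻ ω in A \ toMeasurable μ (A ∩ U), Ψ ω ∂μ := by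
          refine setLIntegral_mono' (hA.diff hB) ?_
          rintro ω ⟨h1, h2⟩
          exact h ω h1 fun h3 => h2 (subset_toMeasurable μ _ ⟨h1, h3⟩)
      _ ≤ ∫⁻ ω in A, Ψ ω ∂μ := lintegral_mono_set Set.sdiff_subset

private theorem LYr_cs {Ω : Type} [MeasurableSpace Ω] (μ : Measure Ω) (A B : Set Ω)
    (f : Ω → ℝ≥0∞) (hf : Measurable f) :
    ∫⁻ ω in A ∩ B, f ω ∂μ ≤
      (∫⁻ ω in A, f ω ^ 2 ∂μ) ^ (1 / 2 : ℝ) * μ (A ∩ B) ^ (1 / 2 : ℝ) := by
  have h1 := ENNReal.lintegral_mul_le_Lp_mul_Lq (μ.restrict (A ∩ B)) Real.HolderConjugate.two_two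
    (f := f) (g := fun _ => 1) hf.aemeasurable aemeasurable_const
  simp only [Pi.mul_apply, mul_one, ENNReal.one_rpow, lintegral_one, Measure.restrict_apply_univ]
    at h1
  refine h1.trans (mul_le_mul_left ?_ _)
  refine ENNReal.rpow_le_rpow ?_ (by norm_num)
  simp only [← ENNReal.rpow_natCast]
  exact lintegral_mono_set Set.inter_subset_left

/-- expectation of the potential -/
private noncomputable def LYr_I {F : Fam d} {β k : ℝ} (S : PSys F β k) (h : ℝ) (L : ℕ) (q s : ℝ) (m : ℕ)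
    (G : (boxS d L → F.V) × (boxS d L → F.V)) (x : boxS d L) : ℝ≥0∞ :=
  ∫⁻ ω in S.alv h L G m, V1 k q s (S.tr h L G ω m) x ∂(PI (S.mu L))

private theorem LYr_tr_meas {F : Fam d} {β k : ℝ} (S : PSys F β k) (h : ℝ) (L m : ℕ)
    (G : (boxS d L → F.V) × (boxS d L → F.V)) :
    Measurable fun ω : ℕ → boxS d L → S.Ωp => S.tr h L G ω m :=
  (measurable_tr S h L m).comp (measurable_const.prodMk measurable_id)

private theorem LYr_markov {F : Fam d} {β k : ℝ} (S : PSys F β k) (h : ℝ) (L : ℕ) (q s : ℝ)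
    (n m : ℕ) (G : (boxS d L → F.V) × (boxS d L → F.V)) (x : boxS d L) :
    LYr_I S h L q s (n + m) G x =
      ∫⁻ ω in S.alv h L G n, LYr_I S h L q s m (S.tr h L G ω n) x ∂(PI (S.mu L)) := by
  unfold LYr_I
  exact alv_markov S h L (fun G => V1 k q s G x) (measurable_V k q s x).1 G n m


/-- the main estimate for a tame state -/
private theorem LYr_state {F : Fam d} {β k : ℝ} (S : PSys F β k) (N L : ℕ)
    (h q a T0 E M1 ε1 M0 Md ε0 M0' Md' ε0' p Mst : ℝ)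
    (hk : 0 < k) (hk1 : k < 1) (hh : 0 < h) (hh1 : h < 1) (hq : 1 ≤ q) (ha : 0 < a)
    (ha8 : a ≤ 1 / 8) (hT : 10 ≤ T0 * ts N k) (hkq : (2 : ℝ) ^ q ≤ k ^ (-(1 / 100 : ℝ)))
    (hE0 : 0 ≤ E)
    (HE : ∀ G (m : ℕ) x, m * h ≤ T0 * ts N k + 5 →
      LYr_I S h L q (a / ell k) m G x ≤ ENNReal.ofReal E * V1 k q (a / ell k) G x)
    (H1 : ∀ G (m : ℕ) x, m * h ≤ 3 →
      LYr_I S h L q (a / ell k) m G x ≤ ENNReal.ofReal 2 * V1 k q (a / ell k) G x)
    (H2 : ∀ G (m : ℕ) x, m * h ≤ 3 →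
      LYr_I S h L q (2 * (a / ell k)) m G x ≤ ENNReal.ofReal 2 * V1 k q (2 * (a / ell k)) G x)
    (HC : ∀ (G : (boxS d L → F.V) × (boxS d L → F.V)) (n : ℕ), 1 ≤ n * h → ∀ y : boxS d L,
      PI (S.mu L) (S.alv h L G n ∩ {ω | ¬ Caps k (fun v => ‖(S.tr h L G ω n).1 v‖ +
          ‖(S.tr h L G ω n).2 v‖) ε1 y}) ≤ ENNReal.ofReal p)
    (HP : ∀ (G : (boxS d L → F.V) × (boxS d L → F.V)) (n : ℕ), n * h ≤ 3 →
      ∀ (y : boxS d L) (M s0 : ℝ), 0 ≤ M → 0 ≤ s0 →
      PotGe k q (nrm G.1) (fun v => nrm G.1 v + nrm G.2 v) M s0 y →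
        PI (S.mu L) (S.alv h L G n ∩ {ω | ¬ PotGe k q (nrm (S.tr h L G ω n).1)
          (fun v => nrm (S.tr h L G ω n).1 v + nrm (S.tr h L G ω n).2 v) (M + 1 / 100)
          (s0 + 1 / 100) y}) ≤ ENNReal.ofReal p)
    (HM1 : MEst N S q a T0 1 M0 Md ε0 L h)
    (HM2 : MEst N S q a T0 (M1 + 3) M0' Md' ε0' L h)
    (hM1 : 0 ≤ M1) (hMd : Md ≤ M1) (hp : 0 ≤ p)
    (hpE : E * (Real.sqrt 2 * Real.sqrt (2 * p)) ≤ a / 100)
    (hε1 : 0 < ε1) (hε2 : ε1 ≤ 1 / 20)
    (hε3 : ε1 * (1 + 5 * (M1 + 2)) ≤ 1 / 8) (hε4 : ε1 * (1 + 5 * (M1 + 2)) ≤ ε0')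
    (hMst1 : M0 + 1 ≤ Mst) (hMst2 : M0' + 9 / 4 * M1 + 4 ≤ Mst)
    (G : (boxS d L → F.V) × (boxS d L → F.V)) (x : boxS d L)
    (htame : ¬ untame (V := F.V) k q (nrm G.1) (fun y => nrm G.1 y + nrm G.2 y) x)
    (hV : ENNReal.ofReal (Real.exp (a * Mst)) < V1 k q (a / ell k) G x)
    (m : ℕ) (hm : T0 * ts N k - 3 ≤ m * h) (hm' : m * h ≤ T0 * ts N k + 1) :
    LYr_I S h L q (a / ell k) m G x ≤
      ENNReal.ofReal (1 - a / 2 + 11 * a / 200) * V1 k q (a / ell k) G x := by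
  have hl := ell_pos hk hk1
  have hq0 : 0 ≤ q := by linarith
  have hs : 0 < a / ell k := by positivity
  have hkq8 : (2 : ℝ) ^ q ≤ k ^ (-(1 / 8 : ℝ)) := hkq.trans ((LYr_rp_le hk hk1).2 (by norm_num))
  unfold untame at htame
  push Not at htame
  obtain ⟨z, hz, hS2⟩ := htame
  set u : boxS d L → ℝ := nrm G.1 with hu_def
  set t : boxS d L → ℝ := fun y => nrm G.1 y + nrm G.2 y with ht_def
  have hu0 : ∀ y, 0 ≤ u y := fun y => norm_nonneg _
  have hut : ∀ y, u y ≤ t y := fun y => by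
    have : 0 ≤ nrm G.2 y := norm_nonneg _
    simp only [ht_def, hu_def]
    linarith
  have ht0 : ∀ y, 0 ≤ t y := fun y => (hu0 y).trans (hut y)
  have hVdef : V1 k q (a / ell k) G x = Vp (boxNet d L) k q (a / ell k) u t x := rfl
  have hc0 : 0 < 1 - a / 2 + 11 * a / 200 := by linarith
  rcases le_or_gt (u z) 0 with huz | huz
  · rw [hVdef, LYr_Vtop (boxNet d L) hk hk1 ha u t x z hz huz, ENNReal.mul_top]
    · exact le_top
    · exact (ENNReal.ofReal_pos.2 hc0).ne'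
  set X := Real.log (u z) / ell k with hX_def
  have hX16 : X < 1 / 16 := LYr_tame (boxNet d L) hk hk1 u t hut ht0 z huz hS2
  set PL := ((boxNet d L).dist x z : ℝ) / 4 - gX X with hPL_def
  have hVeq : V1 k q (a / ell k) G x =
      ENNReal.ofReal (Real.exp (a * PL) * SSt (boxNet d L) k t z ^ (q * (a / ell k))) := by
    rw [hVdef, LYr_Vp (boxNet d L) hk hk1 u t ht0 x z hz huz]
  have hS1 := SSt_one (boxNet d L) hk t ht0 z
  have hS0 : 0 < SSt (boxNet d L) k t z := by linarith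
  have hSq1 : 1 ≤ SSt (boxNet d L) k t z ^ (q * (a / ell k)) := Real.one_le_rpow hS1 (by positivity)
  have hSq2 : SSt (boxNet d L) k t z ^ (q * (a / ell k)) ≤ Real.exp a := by
    rw [Real.rpow_mul hS0.le]
    calc (SSt (boxNet d L) k t z ^ q) ^ (a / ell k) ≤ (k ^ (-(1 / 100 : ℝ))) ^ (a / ell k) :=
          Real.rpow_le_rpow (Real.rpow_nonneg hS0.le _)
            ((Real.rpow_le_rpow hS0.le hS2.le hq0).trans hkq) hs.le
      _ = Real.exp (a / 100) := by
          rw [← Real.rpow_mul hk.le, LYr_rp hk]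
          congr 1
          field_simp
      _ ≤ Real.exp a := Real.exp_le_exp.2 (by linarith)
  have hlow : ENNReal.ofReal (Real.exp (a * PL)) ≤ V1 k q (a / ell k) G x := by
    rw [hVeq]
    exact ENNReal.ofReal_le_ofReal (le_mul_of_one_le_right (Real.exp_pos _).le hSq1)
  have hPL : Mst < PL + 1 := by
    rw [hVeq] at hV
    have h1 := (ENNReal.ofReal_lt_ofReal_iff_of_nonneg (Real.exp_pos _).le).1 hV
    have h2 : Real.exp (a * PL) * SSt (boxNet d L) k t z ^ (q * (a / ell k)) ≤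
        Real.exp (a * (PL + 1)) := by
      calc _ ≤ Real.exp (a * PL) * Real.exp a := mul_le_mul_of_nonneg_left hSq2 (Real.exp_pos _).le
        _ = Real.exp (a * (PL + 1)) := by rw [← Real.exp_add]; congr 1; ring
    have h3 := Real.exp_lt_exp.1 (lt_of_lt_of_le h1 h2)
    exact lt_of_mul_lt_mul_left h3 ha.le
  have hprof := LYr_prof (boxNet d L) hk hk1 hq0 hkq8 u t hu0 ht0 x z hz huz
  have hkX : k ^ (-X) ≤ u z := le_of_eq (LYr_log hk hk1 huz).symm
  rcases le_or_gt X (-M1) with hX | hX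
  · -- deep case
    have h1 := HM1 m (by linarith) (by linarith) G x z X (by linarith) hkX (by linarith)
      (fun v => hprof v) (Or.inr (by linarith))
    refine h1.trans ?_
    calc ENNReal.ofReal ((1 - a / 2) * Real.exp (a * PL)) +
          ENNReal.ofReal (a / 100) * V1 k q (a / ell k) G x
        ≤ ENNReal.ofReal (1 - a / 2) * V1 k q (a / ell k) G x +
          ENNReal.ofReal (a / 100) * V1 k q (a / ell k) G x := by
          refine add_le_add ?_ le_rfl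
          rw [ENNReal.ofReal_mul (by linarith)]
          exact mul_le_mul_right hlow _
      _ = ENNReal.ofReal (1 - a / 2 + a / 100) * V1 k q (a / ell k) G x := by
          rw [← add_mul, ← ENNReal.ofReal_add (by linarith) (by positivity)]
      _ ≤ _ := mul_le_mul_left (ENNReal.ofReal_le_ofReal (by linarith)) _
  · -- shallow case
    set j := ⌈1 / h⌉₊ with hj_def
    have hj1 : 1 ≤ (j : ℝ) * h := by
      have := Nat.le_ceil (1 / h)
      rw [div_le_iff₀ hh] at this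
      exact this
    have hj2 : (j : ℝ) * h ≤ 2 := by
      have h1 := Nat.ceil_lt_add_one (by positivity : 0 ≤ 1 / h)
      have h2 : (j : ℝ) * h ≤ (1 / h + 1) * h := mul_le_mul_of_nonneg_right h1.le hh.le
      have h3 : (1 / h + 1) * h = 1 + h := by field_simp
      linarith
    have hjm : j ≤ m := by
      have h1 : (j : ℝ) * h ≤ m * h := by linarith
      have h2 := le_of_mul_le_mul_right h1 hh
      exact_mod_cast h2
    obtain ⟨m2, rfl⟩ := Nat.exists_eq_add_of_le hjm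
    push_cast at hm hm'
    have hm2a : T0 * ts N k - 5 ≤ m2 * h := by nlinarith
    have hm2b : m2 * h ≤ T0 * ts N k + 5 := by nlinarith
    rw [LYr_markov]
    -- the bad event
    have hgX := LYr_gX16 hX16.le
    have hPot := LYr_pot hk hk1 hq0 hkq u t ht0 z huz hS2
    have B1 := HC G j hj1 z
    have B2 := HP G j (by linarith) z (1 / 100 - gX X) (1 / 4) (by linarith) (by norm_num) hPot
    set U : Set (ℕ → boxS d L → S.Ωp) :=
      {ω | ¬ Caps k (fun v => ‖(S.tr h L G ω j).1 v‖ + ‖(S.tr h L G ω j).2 v‖) ε1 z} ∪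
      {ω | ¬ PotGe k q (nrm (S.tr h L G ω j).1)
          (fun v => nrm (S.tr h L G ω j).1 v + nrm (S.tr h L G ω j).2 v)
          (1 / 100 - gX X + 1 / 100) (1 / 4 + 1 / 100) z} with hU_def
    have hPU : PI (S.mu L) (S.alv h L G j ∩ U) ≤ ENNReal.ofReal (2 * p) := by
      rw [hU_def, Set.inter_union_distrib_left]
      refine (measure_union_le _ _).trans ((add_le_add B1 B2).trans (le_of_eq ?_))
      rw [← ENNReal.ofReal_add hp hp]
      congr 1
      ring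
    have hsplit := LYr_split (PI (S.mu L)) (S.alv h L G j) U (measurableSet_alv S h L G j)
      (fun ω => LYr_I S h L q (a / ell k) m2 (S.tr h L G ω j) x)
      (fun ω => ENNReal.ofReal ((1 - a / 2) * Real.exp (a * (PL + 1 / 50))) +
        ENNReal.ofReal (a / 100) * V1 k q (a / ell k) (S.tr h L G ω j) x) ?_
    swap
    · intro ω _ hω
      rw [hU_def, Set.mem_union, not_or] at hω
      obtain ⟨h1, h2⟩ := hω
      have h1' : Caps k (fun v => nrm (S.tr h L G ω j).1 v + nrm (S.tr h L G ω j).2 v) ε1 z := by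
        by_contra hc
        exact h1 hc
      have h2' : PotGe k q (nrm (S.tr h L G ω j).1)
          (fun v => nrm (S.tr h L G ω j).1 v + nrm (S.tr h L G ω j).2 v)
          (1 / 100 - gX X + 1 / 100) (1 / 4 + 1 / 100) z := by
        by_contra hc
        exact h2 hc
      obtain ⟨z', X0, g1, g2, g3, g4, g5, g6⟩ := LYr_good hk hk1 hq0 (nrm (S.tr h L G ω j).1)
        (fun v => nrm (S.tr h L G ω j).1 v + nrm (S.tr h L G ω j).2 v) (fun y => norm_nonneg _)
        (fun y => le_add_of_nonneg_right (norm_nonneg _)) x z hM1 hX hε1 hε2 hε3 hε4 h2' h1'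
      have h3 := HM2 m2 hm2a hm2b (S.tr h L G ω j) x z' X0 g1 g2 (by linarith) g5 (Or.inl g6)
      refine h3.trans (add_le_add ?_ le_rfl)
      refine ENNReal.ofReal_le_ofReal (mul_le_mul_of_nonneg_left ?_ (by linarith))
      exact Real.exp_le_exp.2 (mul_le_mul_of_nonneg_left g3 ha.le)
    refine hsplit.trans ?_
    -- bad part
    have hbad : ∫⁻ ω in S.alv h L G j ∩ U, LYr_I S h L q (a / ell k) m2 (S.tr h L G ω j) x
        ∂(PI (S.mu L)) ≤ ENNReal.ofReal (a / 100) * V1 k q (a / ell k) G x := by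
      calc ∫⁻ ω in S.alv h L G j ∩ U, LYr_I S h L q (a / ell k) m2 (S.tr h L G ω j) x
            ∂(PI (S.mu L))
          ≤ ∫⁻ ω in S.alv h L G j ∩ U, ENNReal.ofReal E * V1 k q (a / ell k) (S.tr h L G ω j) x
            ∂(PI (S.mu L)) := lintegral_mono fun ω => HE _ m2 x hm2b
        _ = ENNReal.ofReal E * ∫⁻ ω in S.alv h L G j ∩ U, V1 k q (a / ell k) (S.tr h L G ω j) x
            ∂(PI (S.mu L)) := lintegral_const_mul' _ _ ENNReal.ofReal_ne_top
        _ ≤ ENNReal.ofReal E * (ENNReal.ofReal (Real.sqrt 2) * V1 k q (a / ell k) G x *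
            ENNReal.ofReal (Real.sqrt (2 * p))) := by
            refine mul_le_mul_right ?_ _
            refine (LYr_cs (PI (S.mu L)) (S.alv h L G j) U
              (fun ω => V1 k q (a / ell k) (S.tr h L G ω j) x)
              ((measurable_V k q (a / ell k) x).1.comp (LYr_tr_meas S h L j G))).trans ?_
            refine mul_le_mul' ?_ ?_
            · have h1 : ∫⁻ ω in S.alv h L G j, V1 k q (a / ell k) (S.tr h L G ω j) x ^ 2
                  ∂(PI (S.mu L)) ≤ ENNReal.ofReal 2 * V1 k q (a / ell k) G x ^ 2 := by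
                rw [(V_sq k q (a / ell k) G x).1]
                refine le_trans (le_of_eq ?_) (H2 G j x (by linarith))
                unfold LYr_I
                exact lintegral_congr fun ω => (V_sq k q (a / ell k) (S.tr h L G ω j) x).1
              refine (ENNReal.rpow_le_rpow h1 (by norm_num)).trans (le_of_eq ?_)
              rw [ENNReal.mul_rpow_of_nonneg _ _ (by norm_num), ← ENNReal.rpow_natCast,
                ← ENNReal.rpow_mul, ENNReal.ofReal_rpow_of_pos (by norm_num), Real.sqrt_eq_rpow]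
              norm_num
            · refine (ENNReal.rpow_le_rpow hPU (by norm_num)).trans (le_of_eq ?_)
              rw [ENNReal.ofReal_rpow_of_nonneg (by positivity) (by norm_num), Real.sqrt_eq_rpow]
        _ = ENNReal.ofReal (E * (Real.sqrt 2 * Real.sqrt (2 * p))) * V1 k q (a / ell k) G x := by
            rw [ENNReal.ofReal_mul hE0, ENNReal.ofReal_mul (Real.sqrt_nonneg _)]
            ring
        _ ≤ _ := mul_le_mul_left (ENNReal.ofReal_le_ofReal hpE) _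
    -- good part
    have hgood : ∫⁻ ω in S.alv h L G j,
        (ENNReal.ofReal ((1 - a / 2) * Real.exp (a * (PL + 1 / 50))) +
        ENNReal.ofReal (a / 100) * V1 k q (a / ell k) (S.tr h L G ω j) x) ∂(PI (S.mu L)) ≤
        ENNReal.ofReal (1 - a / 2 + a / 40) * V1 k q (a / ell k) G x +
          ENNReal.ofReal (a / 50) * V1 k q (a / ell k) G x := by
      rw [lintegral_add_left measurable_const, lintegral_const_mul' _ _ ENNReal.ofReal_ne_top]
      refine add_le_add ?_ ?_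
      · rw [setLIntegral_const]
        calc ENNReal.ofReal ((1 - a / 2) * Real.exp (a * (PL + 1 / 50))) *
              PI (S.mu L) (S.alv h L G j)
            ≤ ENNReal.ofReal ((1 - a / 2) * Real.exp (a * (PL + 1 / 50))) * 1 :=
              mul_le_mul_right prob_le_one _
          _ = ENNReal.ofReal ((1 - a / 2) * Real.exp (a * (PL + 1 / 50))) := mul_one _
          _ ≤ ENNReal.ofReal ((1 - a / 2 + a / 40) * Real.exp (a * PL)) := by
              refine ENNReal.ofReal_le_ofReal ?_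
              have h1 : Real.exp (a * (PL + 1 / 50)) = Real.exp (a / 50) * Real.exp (a * PL) := by
                rw [← Real.exp_add]
                congr 1
                ring
              rw [h1, ← mul_assoc]
              refine mul_le_mul_of_nonneg_right ?_ (Real.exp_pos _).le
              have h2 : Real.exp (a / 50) ≤ 1 + a / 40 := by
                have h3 := Real.exp_bound_div_one_sub_of_interval (x := a / 50) (by positivity)
                  (by linarith)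
                refine h3.trans ?_
                rw [div_le_iff₀ (by linarith)]
                nlinarith
              calc (1 - a / 2) * Real.exp (a / 50) ≤ (1 - a / 2) * (1 + a / 40) :=
                    mul_le_mul_of_nonneg_left h2 (by linarith)
                _ ≤ 1 - a / 2 + a / 40 := by nlinarith
          _ ≤ _ := by
              rw [ENNReal.ofReal_mul (by linarith)]
              exact mul_le_mul_right hlow _
      · have h1 := H1 G j x (by linarith)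
        calc ENNReal.ofReal (a / 100) * ∫⁻ ω in S.alv h L G j,
              V1 k q (a / ell k) (S.tr h L G ω j) x ∂(PI (S.mu L))
            ≤ ENNReal.ofReal (a / 100) * (ENNReal.ofReal 2 * V1 k q (a / ell k) G x) :=
              mul_le_mul_right h1 _
          _ = ENNReal.ofReal (a / 50) * V1 k q (a / ell k) G x := by
              rw [← mul_assoc, ← ENNReal.ofReal_mul (by positivity)]
              congr 2
              ring
    refine (add_le_add hbad hgood).trans (le_of_eq ?_)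
    rw [← add_mul, ← add_mul, ← ENNReal.ofReal_add (by linarith) (by positivity),
      ← ENNReal.ofReal_add (by positivity) (by linarith)]
    congr 2
    ring

/-- smallness of `k` -/
private theorem LYr_small (q a T0 C9 E Cu c β : ℝ) (ha : 0 < a) (hc : 0 < c) (hβ : 0 < β) :
    ∃ k0 : ℝ, 0 < k0 ∧ k0 < 1 ∧ ∀ k, 0 < k → k < k0 →
      1 ≤ ell k ∧ 10 / T0 ≤ ell k ∧ (2 : ℝ) ^ q ≤ k ^ (-(1 / 100 : ℝ)) ∧ 16 * q * a ≤ ell k ∧
      C9 * ((a / ell k / ell k + (a / ell k) ^ 2) * 3) ≤ Real.log (1 + a / 100) ∧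
      C9 * ((2 * (a / ell k) / ell k + (2 * (a / ell k)) ^ 2) * 3) ≤ Real.log 2 ∧
      E * (Real.sqrt 2 * Real.sqrt (2 * k ^ c)) ≤ a / 100 ∧
      E * (Cu * k ^ (β / 16) / (a / ell k)) ≤ a / 100 := by
  have t0 : Filter.Tendsto (fun y : ℝ => y⁻¹) Filter.atTop (nhds 0) := tendsto_inv_atTop_zero
  have t1 : Filter.Tendsto (fun y : ℝ => C9 * ((a * y⁻¹ * y⁻¹ + (a * y⁻¹) ^ 2) * 3)) Filter.atTop
      (nhds (C9 * ((a * 0 * 0 + (a * 0) ^ 2) * 3))) :=
    (((((t0.const_mul a).mul t0).add ((t0.const_mul a).pow 2)).mul_const 3).const_mul C9)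
  have t2 : Filter.Tendsto (fun y : ℝ => C9 * ((2 * (a * y⁻¹) * y⁻¹ + (2 * (a * y⁻¹)) ^ 2) * 3))
      Filter.atTop (nhds (C9 * ((2 * (a * 0) * 0 + (2 * (a * 0)) ^ 2) * 3))) :=
    ((((((t0.const_mul a).const_mul 2).mul t0).add (((t0.const_mul a).const_mul 2).pow 2)).mul_const
      3).const_mul C9)
  have t3 : Filter.Tendsto (fun y : ℝ => Real.exp (-(y * c))) Filter.atTop (nhds 0) := by
    refine Real.tendsto_exp_neg_atTop_nhds_zero.comp ?_
    exact Filter.tendsto_id.atTop_mul_const hc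
  have t4 : Filter.Tendsto (fun y : ℝ => E * (Real.sqrt 2 * Real.sqrt (2 * Real.exp (-(y * c)))))
      Filter.atTop (nhds (E * (Real.sqrt 2 * Real.sqrt (2 * 0)))) :=
    (((Real.continuous_sqrt.tendsto _).comp (t3.const_mul 2)).const_mul (Real.sqrt 2)).const_mul E
  have t5 : Filter.Tendsto (fun y : ℝ => y * Real.exp (-(y * (β / 16)))) Filter.atTop (nhds 0) := by
    have h1 := Real.tendsto_pow_mul_exp_neg_atTop_nhds_zero 1
    have h2 : Filter.Tendsto (fun y : ℝ => y * (β / 16)) Filter.atTop Filter.atTop :=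
      Filter.tendsto_id.atTop_mul_const (by positivity)
    have h3 := (h1.comp h2).const_mul (16 / β)
    rw [mul_zero] at h3
    refine h3.congr fun y => ?_
    simp only [Function.comp, pow_one]
    field_simp
  have t6 : Filter.Tendsto (fun y : ℝ => E * (Cu / a * (y * Real.exp (-(y * (β / 16))))))
      Filter.atTop (nhds (E * (Cu / a * 0))) := (t5.const_mul (Cu / a)).const_mul E
  simp only [mul_zero, Real.sqrt_zero, zero_pow (two_ne_zero), add_zero, zero_mul] at t1 t2 t4 t6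
  have hlog : 0 < Real.log (1 + a / 100) := Real.log_pos (by linarith [show 0 < a / 100 by positivity])
  have hlog2 : 0 < Real.log 2 := Real.log_pos (by norm_num)
  have ha100 : 0 < a / 100 := by positivity
  have t7 : ∀ᶠ y : ℝ in Filter.atTop, (2 : ℝ) ^ q ≤ Real.exp (y * (1 / 100)) := by
    have h1 : Filter.Tendsto (fun y : ℝ => Real.exp (y * (1 / 100))) Filter.atTop Filter.atTop :=
      Real.tendsto_exp_atTop.comp (Filter.tendsto_id.atTop_mul_const (by norm_num))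
    exact h1.eventually_ge_atTop _
  have hev := (Filter.eventually_ge_atTop (1 : ℝ)).and ((Filter.eventually_ge_atTop (10 / T0)).and
    (t7.and ((Filter.eventually_ge_atTop (16 * q * a)).and ((t1.eventually_le_const hlog).and
    ((t2.eventually_le_const hlog2).and ((t4.eventually_le_const ha100).and
    (t6.eventually_le_const ha100)))))))
  obtain ⟨Y, hY⟩ := Filter.eventually_atTop.1 hev
  refine ⟨min (Real.exp (-Y)) (1 / 2), by positivity, by
    exact lt_of_le_of_lt (min_le_right _ _) (by norm_num), ?_⟩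
  intro k hk hkk
  have hkY : k < Real.exp (-Y) := lt_of_lt_of_le hkk (min_le_left _ _)
  have hell : Y ≤ ell k := by
    unfold ell
    rw [one_div, Real.log_inv]
    have h1 := Real.log_lt_log hk hkY
    rw [Real.log_exp] at h1
    linarith
  obtain ⟨h1, h2, h3, h4, h5, h6, h7, h8⟩ := hY (ell k) hell
  have hl0 : 0 < ell k := by linarith
  refine ⟨h1, h2, ?_, h4, ?_, ?_, ?_, ?_⟩
  · rw [LYr_rp hk]
    refine h3.trans (le_of_eq ?_)
    congr 1
    ring
  · refine le_trans (le_of_eq ?_) h5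
    field_simp
  · refine le_trans (le_of_eq ?_) h6
    field_simp
  · rw [LYr_rp hk]
    exact h7
  · rw [LYr_rp hk]
    refine le_trans (le_of_eq ?_) h8
    field_simp

/-- numerical facts -/
private theorem LYr_n1 {a T0 y C9 mh ts' : ℝ} (ha : 0 < a) (hT0 : 0 < T0) (hy : 1 ≤ y)
    (hC9 : 0 < C9) (hts : ts' ≤ y ^ 2) (hm : mh ≤ T0 * ts' + 5) :
    C9 * (a / y / y + (a / y) ^ 2) * mh ≤ C9 * ((a + a ^ 2) * (T0 + 5)) := by
  have hy0 : 0 < y := by linarith
  have hsum : a / y / y + (a / y) ^ 2 = (a + a ^ 2) / y ^ 2 := by field_simp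
  rw [mul_assoc, hsum]
  refine mul_le_mul_of_nonneg_left ?_ hC9.le
  have h7 : 1 ≤ y ^ 2 := one_le_pow₀ hy
  have h8 : mh ≤ (T0 + 5) * y ^ 2 := by nlinarith
  calc (a + a ^ 2) / y ^ 2 * mh ≤ (a + a ^ 2) / y ^ 2 * ((T0 + 5) * y ^ 2) :=
        mul_le_mul_of_nonneg_left h8 (by positivity)
    _ = (a + a ^ 2) * (T0 + 5) := by field_simp

private theorem LYr_n2 {a : ℝ} (ha : 0 < a) :
    a / 100 + (1 - a / 2 + 11 * a / 200) * (1 + a / 100) ≤ 1 - a / 4 := by
  nlinarith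

private theorem LYr_n3 {T0 ts' : ℝ} (hT0 : 0 < T0) (h : 10 / T0 ≤ ts') : 10 ≤ T0 * ts' := by
  have h1 : T0 * (10 / T0) ≤ T0 * ts' := mul_le_mul_of_nonneg_left h hT0.le
  have h2 : T0 * (10 / T0) = 10 := by field_simp
  linarith

private theorem LYr_n4 (N : ℕ) {k : ℝ} (h : 1 ≤ ell k) : ell k ≤ ts N k ∧ ts N k ≤ ell k ^ 2 := by
  unfold ts
  split_ifs
  · exact ⟨by nlinarith, le_rfl⟩
  · exact ⟨le_rfl, by nlinarith⟩

/-- decay of the potential over one block -/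
theorem ly_red (N d : ℕ) (β : ℝ) (hN : 2 ≤ N) (hβ : 0 < β) : ∃ q0 : ℝ, 1 ≤ q0 ∧
    ∀ q, q0 ≤ q → ∀ (a T0 : ℝ) (Ls : ℕ), 0 < a → a ≤ 1 / 8 → 0 < T0 →
    ∀ (F : ℝ → Fam d) (S : ∀ k, 0 < k → PSys (F k) β k),
    (∀ k hk, BNoise N (S k hk).ν (S k hk).b (S k hk).gd) →
    (∀ M : ℝ, 1 ≤ M → ∃ M0 Md ε0 k0 : ℝ, 0 < ε0 ∧ 0 < k0 ∧ k0 < 1 ∧ ∀ (k : ℝ) (hk : 0 < k),
      k < k0 → ∀ L : ℕ, Ls ≤ L → ∃ h0 : ℝ, 0 < h0 ∧ ∀ h, 0 < h → h < h0 →
      MEst N (S k hk) q a T0 M M0 Md ε0 L h) →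
    ∃ Ca k0 : ℝ, 0 < Ca ∧ 0 < k0 ∧ k0 < 1 ∧ ∀ (k : ℝ) (hk : 0 < k), k < k0 →
    ∀ L : ℕ, Ls ≤ L → ∃ h0 : ℝ, 0 < h0 ∧ ∀ h, 0 < h → h < h0 →
    ∀ (G : (boxS d L → (F k).V) × (boxS d L → (F k).V)) (x : boxS d L) (n : ℕ),
      T0 * ts N k ≤ n * h → n * h ≤ T0 * ts N k + 1 →
      ∫⁻ ω in (S k hk).alv h L G n, V1 k q (a / ell k) ((S k hk).tr h L G ω n) x
          ∂(PI ((S k hk).mu L)) ≤
        ENNReal.ofReal (1 - a / 4) * V1 k q (a / ell k) G x + ENNReal.ofReal Ca := by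
  obtain ⟨q1, hq1, HU⟩ := untame_time N d β hN hβ
  obtain ⟨q2, hq2, HS⟩ := sm_multi N d β hN hβ
  obtain ⟨q3, hq3, HP⟩ := pot_prob N d β hN hβ
  refine ⟨max q1 (max q2 q3), le_max_of_le_left hq1, ?_⟩
  intro q hq a T0 Ls ha ha8 hT0 F S hB HM
  have hq1' : q1 ≤ q := (le_max_left _ _).trans hq
  have hq2' : q2 ≤ q := ((le_max_left _ _).trans (le_max_right _ _)).trans hq
  have hq3' : q3 ≤ q := ((le_max_right _ _).trans (le_max_right _ _)).trans hq
  have hq' : 1 ≤ q := hq1.trans hq1'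
  obtain ⟨M0, Md, ε0, k1, hε0, hk1, hk11, HM1⟩ := HM 1 le_rfl
  set M1 := max Md 0 with hM1_def
  have hM1 : 0 ≤ M1 := le_max_right _ _
  obtain ⟨M0', Md', ε0', k2, hε0', hk2, hk21, HM2⟩ := HM (M1 + 3) (by linarith)
  have hden : 0 < 1 + 5 * (M1 + 2) := by linarith
  set ε1 := min (1 / 20) ε0' / (1 + 5 * (M1 + 2)) with hε1_def
  have hmin : 0 < min (1 / 20) ε0' := lt_min (by norm_num) hε0'
  have hε1 : 0 < ε1 := div_pos hmin hden
  have hε1m : ε1 * (1 + 5 * (M1 + 2)) = min (1 / 20) ε0' := by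
    rw [hε1_def]
    field_simp
  have hε3 : ε1 * (1 + 5 * (M1 + 2)) ≤ 1 / 8 := by
    rw [hε1m]
    exact (min_le_left _ _).trans (by norm_num)
  have hε4 : ε1 * (1 + 5 * (M1 + 2)) ≤ ε0' := by
    rw [hε1m]
    exact min_le_right _ _
  have hε2 : ε1 ≤ 1 / 20 := by
    have h1 : ε1 * (1 + 5 * (M1 + 2)) ≤ 1 / 20 := by
      rw [hε1m]
      exact min_le_left _ _
    nlinarith
  obtain ⟨c1, k3, hc1, hk3, hk31, HC⟩ := caps_prob N d β hβ ε1 hε1
  obtain ⟨c2, k4, hc2, hk4, hk41, HP⟩ := HP q hq3' (1 / 100) (by norm_num)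
  obtain ⟨Cu, k5, hCu, hk5, hk51, HU⟩ := HU q hq1'
  obtain ⟨C9, k6, hC9, hk6, hk61, HS⟩ := HS q hq2'
  set Mst := max (M0 + 1) (M0' + 9 / 4 * M1 + 4) with hMst_def
  set E := Real.exp (C9 * ((a + a ^ 2) * (T0 + 5))) with hE_def
  have hE : 0 < E := Real.exp_pos _
  have hc : 0 < min c1 c2 := lt_min hc1 hc2
  obtain ⟨k7, hk7, hk71, HK⟩ := LYr_small q a T0 C9 E Cu (min c1 c2) β ha hc hβ
  refine ⟨E * Real.exp (a * Mst), min (min (min k1 k2) (min k3 k4)) (min (min k5 k6) k7),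
    by positivity, by positivity, ?_, ?_⟩
  · exact lt_of_le_of_lt ((min_le_left _ _).trans ((min_le_left _ _).trans (min_le_left _ _))) hk11
  intro k hk hkk L hL
  have hkk1 : k < k1 := lt_of_lt_of_le hkk
    ((min_le_left _ _).trans ((min_le_left _ _).trans (min_le_left _ _)))
  have hkk2 : k < k2 := lt_of_lt_of_le hkk
    ((min_le_left _ _).trans ((min_le_left _ _).trans (min_le_right _ _)))
  have hkk3 : k < k3 := lt_of_lt_of_le hkk
    ((min_le_left _ _).trans ((min_le_right _ _).trans (min_le_left _ _)))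
  have hkk4 : k < k4 := lt_of_lt_of_le hkk
    ((min_le_left _ _).trans ((min_le_right _ _).trans (min_le_right _ _)))
  have hkk5 : k < k5 := lt_of_lt_of_le hkk
    ((min_le_right _ _).trans ((min_le_left _ _).trans (min_le_left _ _)))
  have hkk6 : k < k6 := lt_of_lt_of_le hkk
    ((min_le_right _ _).trans ((min_le_left _ _).trans (min_le_right _ _)))
  have hkk7 : k < k7 := lt_of_lt_of_le hkk ((min_le_right _ _).trans (min_le_right _ _))
  have hk1' : k < 1 := hkk1.trans hk11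
  obtain ⟨e1, e2, e3, e4, e5, e6, e7, e8⟩ := HK k hk hkk7
  have hl := ell_pos hk hk1'
  have hs : 0 < a / ell k := by positivity
  have hqs2 : 8 * q * (2 * (a / ell k)) ≤ 1 := by
    have h1 : 8 * q * (2 * (a / ell k)) = 16 * q * a / ell k := by ring
    rw [h1, div_le_one hl]
    exact e4
  have hqs : 8 * q * (a / ell k) ≤ 1 := by
    have h1 : 0 ≤ 8 * q * (a / ell k) := by positivity
    linarith
  obtain ⟨hts1, hts2⟩ := LYr_n4 N e1
  have hT : 10 ≤ T0 * ts N k := LYr_n3 hT0 (e2.trans hts1)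
  obtain ⟨h1, hh1, HM1⟩ := HM1 k hk hkk1 L hL
  obtain ⟨h2, hh2, HM2⟩ := HM2 k hk hkk2 L hL
  obtain ⟨h3, hh3, HC⟩ := HC (F k) k (S k hk) hk hkk3 (hB k hk) L
  obtain ⟨h4, hh4, HP⟩ := HP (F k) k (S k hk) hk hkk4 (hB k hk)
  obtain ⟨h5, hh5, HU⟩ := HU (F k) k (S k hk) hk hkk5 (hB k hk) (a / ell k) hs hqs
  obtain ⟨h6, hh6, HS1⟩ := HS (F k) k (S k hk) hk hkk6 (hB k hk) (a / ell k) hs hqs
  obtain ⟨h7, hh7, HS2⟩ := HS (F k) k (S k hk) hk hkk6 (hB k hk) (2 * (a / ell k)) (by positivity)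
    hqs2
  refine ⟨min (min (min h1 h2) (min h3 h4)) (min (min h5 h6) (min h7 (1 / 2))),
    by positivity, ?_⟩
  intro h hh hhh G x n hn hn'
  have g1 : h < h1 := lt_of_lt_of_le hhh
    ((min_le_left _ _).trans ((min_le_left _ _).trans (min_le_left _ _)))
  have g2 : h < h2 := lt_of_lt_of_le hhh
    ((min_le_left _ _).trans ((min_le_left _ _).trans (min_le_right _ _)))
  have g3 : h < h3 := lt_of_lt_of_le hhh
    ((min_le_left _ _).trans ((min_le_right _ _).trans (min_le_left _ _)))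
  have g4 : h < h4 := lt_of_lt_of_le hhh
    ((min_le_left _ _).trans ((min_le_right _ _).trans (min_le_right _ _)))
  have g5 : h < h5 := lt_of_lt_of_le hhh
    ((min_le_right _ _).trans ((min_le_left _ _).trans (min_le_left _ _)))
  have g6 : h < h6 := lt_of_lt_of_le hhh
    ((min_le_right _ _).trans ((min_le_left _ _).trans (min_le_right _ _)))
  have g7 : h < h7 := lt_of_lt_of_le hhh
    ((min_le_right _ _).trans ((min_le_right _ _).trans (min_le_left _ _)))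
  have g8 : h < 1 / 2 := lt_of_lt_of_le hhh
    ((min_le_right _ _).trans ((min_le_right _ _).trans (min_le_right _ _)))
  have hhr : h < 1 := by linarith
  have hsum0 : 0 ≤ a / ell k / ell k + (a / ell k) ^ 2 := by positivity
  -- growth over the block
  have HE : ∀ G (m : ℕ) x, m * h ≤ T0 * ts N k + 5 →
      LYr_I (S k hk) h L q (a / ell k) m G x ≤ ENNReal.ofReal E * V1 k q (a / ell k) G x := by
    intro G m x hm
    refine (HS1 h hh g6 L G m x).1.trans (mul_le_mul_left (ENNReal.ofReal_le_ofReal ?_) _)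
    rw [hE_def]
    exact Real.exp_le_exp.2 (LYr_n1 ha hT0 e1 hC9 hts2 hm)
  have Hs : ∀ G (m : ℕ) x, m * h ≤ 3 →
      LYr_I (S k hk) h L q (a / ell k) m G x ≤
        ENNReal.ofReal (1 + a / 100) * V1 k q (a / ell k) G x := by
    intro G m x hm
    refine (HS1 h hh g6 L G m x).1.trans (mul_le_mul_left (ENNReal.ofReal_le_ofReal ?_) _)
    rw [← Real.le_log_iff_exp_le (by positivity)]
    refine le_trans ?_ e5
    rw [mul_assoc]
    exact mul_le_mul_of_nonneg_left (mul_le_mul_of_nonneg_left hm hsum0) hC9.le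
  have H1 : ∀ G (m : ℕ) x, m * h ≤ 3 →
      LYr_I (S k hk) h L q (a / ell k) m G x ≤ ENNReal.ofReal 2 * V1 k q (a / ell k) G x :=
    fun G m x hm => (Hs G m x hm).trans
      (mul_le_mul_left (ENNReal.ofReal_le_ofReal (by linarith)) _)
  have H2 : ∀ G (m : ℕ) x, m * h ≤ 3 →
      LYr_I (S k hk) h L q (2 * (a / ell k)) m G x ≤
        ENNReal.ofReal 2 * V1 k q (2 * (a / ell k)) G x := by
    intro G m x hm
    refine (HS2 h hh g7 L G m x).1.trans (mul_le_mul_left (ENNReal.ofReal_le_ofReal ?_) _)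
    rw [← Real.le_log_iff_exp_le (by norm_num)]
    refine le_trans ?_ e6
    rw [mul_assoc]
    exact mul_le_mul_of_nonneg_left (mul_le_mul_of_nonneg_left hm (by positivity)) hC9.le
  have hkc : ∀ c' : ℝ, min c1 c2 ≤ c' → k ^ c' ≤ k ^ (min c1 c2) := fun c' hc' =>
    (LYr_rp_le hk hk1').2 hc'
  obtain ⟨⟨n', hn1, hn2, hU⟩, -⟩ := HU h hh g5 L G x
  have hnn : n' ≤ n := by
    have h8 : (n' : ℝ) * h ≤ n * h := by linarith
    have h9 := le_of_mul_le_mul_right h8 hh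
    exact_mod_cast h9
  obtain ⟨m, rfl⟩ := Nat.exists_eq_add_of_le hnn
  push_cast at hn hn'
  rw [add_mul] at hn hn'
  have hm1 : T0 * ts N k - 3 ≤ m * h := by linarith
  have hm2 : (m : ℝ) * h ≤ T0 * ts N k + 1 := by linarith
  have hstate : ∀ G' : (boxS d L → (F k).V) × (boxS d L → (F k).V),
      ¬ untame (V := (F k).V) k q (nrm G'.1) (fun y => nrm G'.1 y + nrm G'.2 y) x →
      LYr_I (S k hk) h L q (a / ell k) m G' x ≤
        ENNReal.ofReal (1 - a / 2 + 11 * a / 200) * V1 k q (a / ell k) G' x +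
          ENNReal.ofReal (E * Real.exp (a * Mst)) := by
    intro G' hG'
    rcases le_or_gt (V1 k q (a / ell k) G' x) (ENNReal.ofReal (Real.exp (a * Mst))) with hV | hV
    · refine (HE G' m x (by linarith)).trans ?_
      rw [ENNReal.ofReal_mul hE.le]
      exact le_add_left (mul_le_mul_right hV _)
    · refine (LYr_state (S k hk) N L h q a T0 E M1 ε1 M0 Md ε0 M0' Md' ε0' (k ^ (min c1 c2)) Mst hk
        hk1' hh hhr hq' ha ha8 hT e3 hE.le HE H1 H2 ?_ ?_ (HM1 h hh g1) (HM2 h hh g2) hM1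
        (le_max_left _ _) (Real.rpow_pos_of_pos hk _).le e7 hε1 hε2 hε3 hε4 (le_max_left _ _)
        (le_max_right _ _) G' x hG' hV m hm1 hm2).trans le_self_add
      · intro G n hn y
        exact (HC h hh g3 G n hn y).trans
          (ENNReal.ofReal_le_ofReal (hkc _ (min_le_left _ _)))
      · intro G n hn y M s0 hM hs0 hpot
        exact ((HP h hh g4 L G n hn y M s0 hM hs0).1 hpot).trans
          (ENNReal.ofReal_le_ofReal (hkc _ (min_le_right _ _)))
  change LYr_I (S k hk) h L q (a / ell k) (n' + m) G x ≤ _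
  rw [LYr_markov]
  refine (LYr_split (PI ((S k hk).mu L)) ((S k hk).alv h L G n')
    {ω | untame (V := (F k).V) k q (nrm ((S k hk).tr h L G ω n').1)
            (fun y => nrm ((S k hk).tr h L G ω n').1 y + nrm ((S k hk).tr h L G ω n').2 y) x}
    (measurableSet_alv (S k hk) h L G n')
    (fun ω => LYr_I (S k hk) h L q (a / ell k) m ((S k hk).tr h L G ω n') x)
    (fun ω => ENNReal.ofReal (1 - a / 2 + 11 * a / 200) *
      V1 k q (a / ell k) ((S k hk).tr h L G ω n') x +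
          ENNReal.ofReal (E * Real.exp (a * Mst)))
    (fun ω _ hω => hstate _ hω)).trans ?_
  have hbad : ∫⁻ ω in (S k hk).alv h L G n' ∩
      {ω | untame (V := (F k).V) k q (nrm ((S k hk).tr h L G ω n').1)
            (fun y => nrm ((S k hk).tr h L G ω n').1 y + nrm ((S k hk).tr h L G ω n').2 y) x},
      LYr_I (S k hk) h L q (a / ell k) m ((S k hk).tr h L G ω n') x ∂(PI ((S k hk).mu L)) ≤
      ENNReal.ofReal (a / 100) * V1 k q (a / ell k) G x := by
    refine (lintegral_mono fun ω => HE _ m x (by linarith)).trans ?_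
    rw [lintegral_const_mul' _ _ ENNReal.ofReal_ne_top]
    refine (mul_le_mul_right hU _).trans ?_
    rw [← mul_assoc, ← ENNReal.ofReal_mul hE.le]
    exact mul_le_mul_left (ENNReal.ofReal_le_ofReal e8) _
  have hc0 : 0 ≤ 1 - a / 2 + 11 * a / 200 := by linarith
  have hgood : ∫⁻ ω in (S k hk).alv h L G n', (ENNReal.ofReal (1 - a / 2 + 11 * a / 200) *
      V1 k q (a / ell k) ((S k hk).tr h L G ω n') x +
          ENNReal.ofReal (E * Real.exp (a * Mst))) ∂(PI ((S k hk).mu L)) ≤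
      ENNReal.ofReal ((1 - a / 2 + 11 * a / 200) * (1 + a / 100)) * V1 k q (a / ell k) G x +
        ENNReal.ofReal (E * Real.exp (a * Mst)) := by
    rw [lintegral_add_right _ measurable_const, lintegral_const_mul' _ _ ENNReal.ofReal_ne_top,
      setLIntegral_const]
    refine add_le_add ?_ ?_
    · rw [ENNReal.ofReal_mul hc0, mul_assoc]
      exact mul_le_mul_right (Hs G n' x hn2) _
    · calc ENNReal.ofReal (E * Real.exp (a * Mst)) * PI ((S k hk).mu L) ((S k hk).alv h L G n')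
          ≤ ENNReal.ofReal (E * Real.exp (a * Mst)) * 1 := mul_le_mul_right prob_le_one _
        _ = _ := mul_one _
  refine (add_le_add hbad hgood).trans ?_
  rw [← add_assoc, ← add_mul, ← ENNReal.ofReal_add (by positivity) (by positivity)]
  exact add_le_add (mul_le_mul_left (ENNReal.ofReal_le_ofReal (LYr_n2 ha)) _) le_rfl

end DynC

end
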