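import Pool.Agent.Lib_MP_36b788_m.M02
import Pool.Agent.Lib_MP_36b788_m.M05
import Pool.Agent.Lib_MP_36b788_m.M09

/-!
# MP_36b788_pr, stationary limit: merged library part M10

Concatenation of smaller files (each in its own section), only to save build time.
-/

/-! ### from `Lib_MP_36b788s.Tr` -/

section

/-!
# TR: from the truncated to the Gaussian noise

PROOF. Given `ρ1, ρ2, R, J, CF, δ`: `T0, L0` of the hypothesis with `δ/2`. For `L, Sm`: `h0'` of the hypothesis and `C` of `tailG_le`; `V = card (boxS d L)`.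
`Φ_γ = pathE … stdGaussian …`, `Φ_τ = pathE … nuT …` (both measurable, norm `≤ 1`, `pathE_facts`; `nuT N h` is a probability measure: `Measure.map`
of a measurable map, or `nuT_noise`). `pathE_trunc`: `‖Φ_γ G - Φ_τ G‖ ≤ 2 M V tailG`.
(1) For `ψ : (ι → E N) → ℝ` measurable with `0 ≤ ψ ≤ 2`: `|∫ψ dchainLaw_γ n - ∫ψ dchainLaw_τ n| ≤ 4(n+1) V tailG` (same initial law): apply `chainLaw_integral` to
`f = (ψ/2 : ℂ)` for both noises; the difference is `∫(pathE_γ - pathE_τ)(replicate n 1 ++ [f]) dm0`, by `pathE_trunc` (`length = n+1`) at most `2(n+1)V tailG`;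
multiply by two and take real parts (`integral_ofReal`).
(2) Chain: `∫∫‖Φ_γ G-Φ_γ G'‖dγ2 dγ1 ≤ ∫∫‖Φ_τ G-Φ_τ G'‖dγ2 dγ1 + 4MV tailG`; inner change of law by (1) with `ψ = ‖Φ_τ G-Φ_τ ·‖`: `+ 4(n2+1)V tailG`; outer change
with `ψ G = ∫‖Φ_τ G-Φ_τ G'‖dτ2` (measurable: `StronglyMeasurable.integral_prod_right`): `+ 4(n1+1)V tailG`. Total error
`≤ (4M+4n1+4n2+8)V C h² ≤ (12Sm+8h)V C h ≤ δ/2` for `h < h0`, `h0 = min(h0', 1, δ/(2(12Sm+8)VC+1))`.
-/

open MeasureTheory ProbabilityTheory Dyn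
open scoped ENNReal

namespace DynS

private theorem Tr_prob (N : ℕ) (h : ℝ) : IsProbabilityMeasure (nuT N h) := by
  classical
  unfold nuT
  refine Measure.isProbabilityMeasure_map (Measurable.ite ?_ measurable_id measurable_const).aemeasurable
  exact measurableSet_le measurable_norm measurable_const

private theorem Tr_law {N d : ℕ} {ι : Type} [Fintype ι] {net : Net ι d} {β h k : ℝ} (hβ : 0 < β)
    (hh : 0 < h) (m0 : Measure (ι → E N)) [IsProbabilityMeasure m0] (n : ℕ) (ψ : (ι → E N) → ℝ)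
    (hψ : Measurable ψ) (h0 : ∀ G, 0 ≤ ψ G) (h2 : ∀ G, ψ G ≤ 2) :
    |(∫ G, ψ G ∂(chainLaw net β h k (stdGaussian (E N)) m0 n)) -
      ∫ G, ψ G ∂(chainLaw net β h k (nuT N h) m0 n)| ≤
      4 * (n + 1) * Fintype.card ι * tailG N h := by
  have hp := Tr_prob N h
  set f : (ι → E N) → ℂ := fun G => ((ψ G / 2 : ℝ) : ℂ) with hf
  have hfm : Measurable f := Complex.measurable_ofReal.comp (hψ.div_const 2)
  have hfb : ∀ G, ‖f G‖ ≤ 1 := by
    intro G
    show ‖((ψ G / 2 : ℝ) : ℂ)‖ ≤ 1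
    rw [Complex.norm_real, Real.norm_eq_abs, abs_of_nonneg (by linarith [h0 G])]
    linarith [h2 G]
  set fs : List ((ι → E N) → ℂ) := List.replicate n (fun _ => 1) ++ [f] with hfs
  have hm : ∀ g ∈ fs, Measurable g := by
    intro g hg
    rw [hfs, List.mem_append] at hg
    rcases hg with hg | hg
    · rw [List.eq_of_mem_replicate hg]
      exact measurable_const
    · rw [List.mem_singleton.1 hg]
      exact hfm
  have hb : ∀ g ∈ fs, ∀ G, ‖g G‖ ≤ 1 := by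
    intro g hg
    rw [hfs, List.mem_append] at hg
    rcases hg with hg | hg
    · rw [List.eq_of_mem_replicate hg]
      intro G
      simp
    · rw [List.mem_singleton.1 hg]
      exact hfb
  have hlen : (fs.length : ℝ) = n + 1 := by
    rw [hfs]
    simp
  have e1 := chainLaw_integral (net := net) (k := k) (ν := stdGaussian (E N)) hβ hh.le m0 n f hfm hfb
  have e2 := chainLaw_integral (net := net) (k := k) (ν := nuT N h) hβ hh.le m0 n f hfm hfb
  rw [← hfs] at e1 e2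
  obtain ⟨m1, b1⟩ := pathE_facts (net := net) (k := k) (ν := stdGaussian (E N)) hβ hh.le fs hm hb
  obtain ⟨m2, b2⟩ := pathE_facts (net := net) (k := k) (ν := nuT N h) hβ hh.le fs hm hb
  have i1 : Integrable (pathE net β h k (stdGaussian (E N)) fs) m0 :=
    Integrable.of_bound m1.aestronglyMeasurable 1 (Filter.Eventually.of_forall b1)
  have i2 : Integrable (pathE net β h k (nuT N h) fs) m0 :=
    Integrable.of_bound m2.aestronglyMeasurable 1 (Filter.Eventually.of_forall b2)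
  have e3 : ‖(∫ G, f G ∂(chainLaw net β h k (stdGaussian (E N)) m0 n)) -
      ∫ G, f G ∂(chainLaw net β h k (nuT N h) m0 n)‖ ≤
      2 * (n + 1) * Fintype.card ι * tailG N h := by
    rw [e1, e2, ← integral_sub i1 i2]
    have h3 := norm_integral_le_of_norm_le_const (μ := m0)
      (f := fun G => pathE net β h k (stdGaussian (E N)) fs G - pathE net β h k (nuT N h) fs G)
      (C := 2 * fs.length * Fintype.card ι * tailG N h)
      (Filter.Eventually.of_forall fun G => pathE_trunc hβ hh fs hm hb G)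
    rw [hlen] at h3
    simpa using h3
  have e4 : ∀ μ : Measure (ι → E N), ∫ G, f G ∂μ = (((∫ G, ψ G ∂μ) / 2 : ℝ) : ℂ) := by
    intro μ
    rw [hf, ← integral_div]
    exact integral_ofReal
  rw [e4, e4, ← Complex.ofReal_sub, Complex.norm_real, Real.norm_eq_abs, ← sub_div, abs_div,
    abs_of_pos (by norm_num : (0 : ℝ) < 2), div_le_iff₀ (by norm_num)] at e3
  linarith

private theorem Tr_add {X : Type} [MeasurableSpace X] (μ : Measure X) [IsProbabilityMeasure μ] {F G : X → ℝ}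
    (hF : Integrable F μ) (hG : Integrable G μ) (c : ℝ) (h : ∀ x, F x ≤ G x + c) :
    ∫ x, F x ∂μ ≤ (∫ x, G x ∂μ) + c := by
  calc ∫ x, F x ∂μ ≤ ∫ x, (G x + c) ∂μ := integral_mono hF (hG.add (integrable_const c)) h
    _ = (∫ x, G x ∂μ) + c := by
        rw [integral_add hG (integrable_const c)]
        simp

private theorem Tr_double {N d : ℕ} {ι : Type} [Fintype ι] {net : Net ι d} {β h k : ℝ} (hβ : 0 < β)
    (hh : 0 < h) (ρ1 ρ2 : Measure (ι → E N)) [IsProbabilityMeasure ρ1] [IsProbabilityMeasure ρ2]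
    (n1 n2 : ℕ) (fs : List ((ι → E N) → ℂ)) (hm : ∀ f ∈ fs, Measurable f)
    (hb : ∀ f ∈ fs, ∀ G, ‖f G‖ ≤ 1) :
    ∫ G, ∫ G', ‖pathE net β h k (stdGaussian (E N)) fs G - pathE net β h k (stdGaussian (E N)) fs G'‖
        ∂(chainLaw net β h k (stdGaussian (E N)) ρ2 n2) ∂(chainLaw net β h k (stdGaussian (E N)) ρ1 n1) ≤
      (∫ G, ∫ G', ‖pathE net β h k (nuT N h) fs G - pathE net β h k (nuT N h) fs G'‖
        ∂(chainLaw net β h k (nuT N h) ρ2 n2) ∂(chainLaw net β h k (nuT N h) ρ1 n1)) +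
      (4 * fs.length + 4 * (n1 + 1) + 4 * (n2 + 1)) * Fintype.card ι * tailG N h := by
  have hp := Tr_prob N h
  have pg1 := chainLaw_prob (net := net) (k := k) (ν := stdGaussian (E N)) hβ hh.le ρ1 n1
  have pg2 := chainLaw_prob (net := net) (k := k) (ν := stdGaussian (E N)) hβ hh.le ρ2 n2
  have pt1 := chainLaw_prob (net := net) (k := k) (ν := nuT N h) hβ hh.le ρ1 n1
  have pt2 := chainLaw_prob (net := net) (k := k) (ν := nuT N h) hβ hh.le ρ2 n2
  obtain ⟨m1, b1⟩ := pathE_facts (net := net) (k := k) (ν := stdGaussian (E N)) hβ hh.le fs hm hb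
  obtain ⟨m2, b2⟩ := pathE_facts (net := net) (k := k) (ν := nuT N h) hβ hh.le fs hm hb
  set Pg := pathE net β h k (stdGaussian (E N)) fs with hPg
  set Pt := pathE net β h k (nuT N h) fs with hPt
  set G1 := chainLaw net β h k (stdGaussian (E N)) ρ1 n1 with hG1
  set G2 := chainLaw net β h k (stdGaussian (E N)) ρ2 n2 with hG2
  set T1 := chainLaw net β h k (nuT N h) ρ1 n1 with hT1
  set T2 := chainLaw net β h k (nuT N h) ρ2 n2 with hT2
  set V : ℝ := (Fintype.card ι : ℝ) with hV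
  set t : ℝ := tailG N h with ht
  have hgt : ∀ G, ‖Pg G - Pt G‖ ≤ 2 * fs.length * V * t := fun G => pathE_trunc hβ hh fs hm hb G
  have dm : Measurable fun q : (ι → E N) × (ι → E N) => ‖Pg q.1 - Pg q.2‖ :=
    ((m1.comp measurable_fst).sub (m1.comp measurable_snd)).norm
  have dmt : Measurable fun q : (ι → E N) × (ι → E N) => ‖Pt q.1 - Pt q.2‖ :=
    ((m2.comp measurable_fst).sub (m2.comp measurable_snd)).norm
  have bg : ∀ G G', ‖Pg G - Pg G'‖ ≤ 2 := fun G G' =>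
    (norm_sub_le _ _).trans (by linarith [b1 G, b1 G'])
  have bt : ∀ G G', ‖Pt G - Pt G'‖ ≤ 2 := fun G G' =>
    (norm_sub_le _ _).trans (by linarith [b2 G, b2 G'])
  -- inner integrals
  have ig : ∀ (μ : Measure (ι → E N)) [IsProbabilityMeasure μ] (G : ι → E N),
      Integrable (fun G' => ‖Pg G - Pg G'‖) μ := by
    intro μ _ G
    refine Integrable.of_bound ((dm.comp (measurable_const.prodMk measurable_id)).aestronglyMeasurable) 2
      (Filter.Eventually.of_forall fun G' => ?_)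
    rw [Real.norm_of_nonneg (norm_nonneg _)]
    exact bg G G'
  have it : ∀ (μ : Measure (ι → E N)) [IsProbabilityMeasure μ] (G : ι → E N),
      Integrable (fun G' => ‖Pt G - Pt G'‖) μ := by
    intro μ _ G
    refine Integrable.of_bound ((dmt.comp (measurable_const.prodMk measurable_id)).aestronglyMeasurable) 2
      (Filter.Eventually.of_forall fun G' => ?_)
    rw [Real.norm_of_nonneg (norm_nonneg _)]
    exact bt G G'
  have mI : ∀ (μ : Measure (ι → E N)) [IsProbabilityMeasure μ],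
      Measurable (fun G => ∫ G', ‖Pt G - Pt G'‖ ∂μ) := by
    intro μ _
    exact (StronglyMeasurable.integral_prod_right' (ν := μ) dmt.stronglyMeasurable).measurable
  have mIg : ∀ (μ : Measure (ι → E N)) [IsProbabilityMeasure μ],
      Measurable (fun G => ∫ G', ‖Pg G - Pg G'‖ ∂μ) := by
    intro μ _
    exact (StronglyMeasurable.integral_prod_right' (ν := μ) dm.stronglyMeasurable).measurable
  have nI : ∀ (μ : Measure (ι → E N)) [IsProbabilityMeasure μ] (G : ι → E N),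
      0 ≤ ∫ G', ‖Pt G - Pt G'‖ ∂μ := fun μ _ G => integral_nonneg fun _ => norm_nonneg _
  have bI : ∀ (μ : Measure (ι → E N)) [IsProbabilityMeasure μ] (G : ι → E N),
      ∫ G', ‖Pt G - Pt G'‖ ∂μ ≤ 2 := by
    intro μ _ G
    have h3 := integral_mono (it μ G) (integrable_const (2 : ℝ)) fun G' => bt G G'
    simpa using h3
  have bIg : ∀ (μ : Measure (ι → E N)) [IsProbabilityMeasure μ] (G : ι → E N),
      ∫ G', ‖Pg G - Pg G'‖ ∂μ ≤ 2 := by
    intro μ _ G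
    have h3 := integral_mono (ig μ G) (integrable_const (2 : ℝ)) fun G' => bg G G'
    simpa using h3
  have iI : ∀ (μ μ' : Measure (ι → E N)) [IsProbabilityMeasure μ] [IsProbabilityMeasure μ'],
      Integrable (fun G => ∫ G', ‖Pt G - Pt G'‖ ∂μ) μ' := by
    intro μ μ' _ _
    refine Integrable.of_bound (mI μ).aestronglyMeasurable 2 (Filter.Eventually.of_forall fun G => ?_)
    rw [Real.norm_of_nonneg (nI μ G)]
    exact bI μ G
  have iIg : ∀ (μ μ' : Measure (ι → E N)) [IsProbabilityMeasure μ] [IsProbabilityMeasure μ'],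
      Integrable (fun G => ∫ G', ‖Pg G - Pg G'‖ ∂μ) μ' := by
    intro μ μ' _ _
    refine Integrable.of_bound (mIg μ).aestronglyMeasurable 2 (Filter.Eventually.of_forall fun G => ?_)
    rw [Real.norm_of_nonneg (integral_nonneg fun _ => norm_nonneg _)]
    exact bIg μ G
  -- step 1
  have s1 : ∫ G, ∫ G', ‖Pg G - Pg G'‖ ∂G2 ∂G1 ≤
      (∫ G, ∫ G', ‖Pt G - Pt G'‖ ∂G2 ∂G1) + 4 * fs.length * V * t := by
    have h3 : ∀ G, ∫ G', ‖Pg G - Pg G'‖ ∂G2 ≤ (∫ G', ‖Pt G - Pt G'‖ ∂G2) + 4 * fs.length * V * t := by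
      intro G
      have h4 : ∀ G', ‖Pg G - Pg G'‖ ≤ ‖Pt G - Pt G'‖ + 4 * fs.length * V * t := by
        intro G'
        have h5 : Pg G - Pg G' = (Pt G - Pt G') + ((Pg G - Pt G) - (Pg G' - Pt G')) := by ring
        rw [h5]
        refine (norm_add_le _ _).trans ?_
        have h6 := norm_sub_le (Pg G - Pt G) (Pg G' - Pt G')
        have h7 := hgt G
        have h8 := hgt G'
        linarith
      exact Tr_add G2 (ig G2 G) (it G2 G) _ h4
    exact Tr_add G1 (iIg G2 G1) (iI G2 G1) _ h3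
  -- step 2
  have s2 : ∫ G, ∫ G', ‖Pt G - Pt G'‖ ∂G2 ∂G1 ≤
      (∫ G, ∫ G', ‖Pt G - Pt G'‖ ∂T2 ∂G1) + 4 * (n2 + 1) * V * t := by
    have h3 : ∀ G, ∫ G', ‖Pt G - Pt G'‖ ∂G2 ≤ (∫ G', ‖Pt G - Pt G'‖ ∂T2) + 4 * (n2 + 1) * V * t := by
      intro G
      have h4 := Tr_law (net := net) (k := k) hβ hh ρ2 n2 (fun G' => ‖Pt G - Pt G'‖)
        (dmt.comp (measurable_const.prodMk measurable_id)) (fun _ => norm_nonneg _) (fun G' => bt G G')
      have h5 := (abs_le.1 h4).2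
      linarith
    exact Tr_add G1 (iI G2 G1) (iI T2 G1) _ h3
  -- step 3
  have s3 : ∫ G, ∫ G', ‖Pt G - Pt G'‖ ∂T2 ∂G1 ≤
      (∫ G, ∫ G', ‖Pt G - Pt G'‖ ∂T2 ∂T1) + 4 * (n1 + 1) * V * t := by
    have h4 := Tr_law (net := net) (k := k) hβ hh ρ1 n1 (fun G => ∫ G', ‖Pt G - Pt G'‖ ∂T2)
      (mI T2) (nI T2) (bI T2)
    have h5 := (abs_le.1 h4).2
    linarith
  linarith

theorem cmix_of_trunc (N d : ℕ) (β k : ℝ) (hN : 1 ≤ N) (hβ : 0 < β) (hk : 0 ≤ k)
    (H : CMix N d β k (fun h => nuT N h)) : CMix N d β k (fun _ => stdGaussian (E N)) := by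
  intro ρ1 ρ2 _ _ hz1 hz2 hi1 hi2 R J CF δ hCF hδ
  obtain ⟨T0, L0, hT0, hRL, hkL, H1⟩ := H ρ1 ρ2 hz1 hz2 hi1 hi2 R J CF (δ / 2) hCF (by positivity)
  refine ⟨T0, L0, hT0, hRL, hkL, fun L hL1 hL2 Sm hSm => ?_⟩
  obtain ⟨h0, hh0, H2⟩ := H1 L hL1 hL2 Sm hSm
  obtain ⟨C, hC, HC⟩ := tailG_le N
  set V : ℝ := (Fintype.card (boxS d L) : ℝ) with hV
  have hV0 : 0 ≤ V := Nat.cast_nonneg _
  set A : ℝ := (12 * Sm + 8) * V * C with hA
  have hA0 : 0 ≤ A := by positivity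
  refine ⟨min (min h0 1) (δ / (2 * (A + 1))), by positivity, fun h hh hlt => ?_⟩
  have l1' : h < h0 := hlt.trans_le ((min_le_left _ _).trans (min_le_left _ _))
  have l2 : h < 1 := hlt.trans_le ((min_le_left _ _).trans (min_le_right _ _))
  have l3 : h < δ / (2 * (A + 1)) := hlt.trans_le (min_le_right _ _)
  intro n1 n2 M hn1 hn2 hM F I hI hFm hFb hF1 hF2
  have H3 := H2 h hh l1' n1 n2 M hn1 hn2 hM F I hI hFm hFb hF1 hF2
  have hm : ∀ f ∈ (List.range M).map F, Measurable f := by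
    intro f hf
    obtain ⟨i, -, rfl⟩ := List.mem_map.1 hf
    exact hFm i
  have hb : ∀ f ∈ (List.range M).map F, ∀ G, ‖f G‖ ≤ 1 := by
    intro f hf
    obtain ⟨i, -, rfl⟩ := List.mem_map.1 hf
    exact hFb i
  have H4 := Tr_double (net := boxNet d L) (k := k) hβ hh (Measure.pi (fun _ : boxS d L => ρ1))
    (Measure.pi (fun _ : boxS d L => ρ2)) n1 n2 ((List.range M).map F) hm hb
  have hlen : (((List.range M).map F).length : ℝ) = M := by
    simp
  rw [hlen, ← hV] at H4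
  obtain ⟨t0, t1⟩ := HC h hh l2
  have H5 : (4 * (M : ℝ) + 4 * (n1 + 1) + 4 * (n2 + 1)) * V * tailG N h ≤ δ / 2 := by
    have a1 : (4 * (M : ℝ) + 4 * (n1 + 1) + 4 * (n2 + 1)) * V * tailG N h ≤
        (4 * (M : ℝ) + 4 * (n1 + 1) + 4 * (n2 + 1)) * V * (C * h ^ 2) :=
      mul_le_mul_of_nonneg_left t1 (by positivity)
    have a2 : (4 * (M : ℝ) + 4 * (n1 + 1) + 4 * (n2 + 1)) * V * (C * h ^ 2) =
        (4 * (M * h) + 4 * (n1 * h) + 4 * (n2 * h) + 8 * h) * (V * C) * h := by ring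
    have a3 : 4 * (M * h) + 4 * (n1 * h) + 4 * (n2 * h) + 8 * h ≤ 12 * Sm + 8 := by linarith
    have a4 : (4 * (M * h) + 4 * (n1 * h) + 4 * (n2 * h) + 8 * h) * (V * C) * h ≤
        (12 * Sm + 8) * (V * C) * h :=
      mul_le_mul_of_nonneg_right (mul_le_mul_of_nonneg_right a3 (by positivity)) hh.le
    have a5 : (12 * Sm + 8) * (V * C) * h = A * h := by
      rw [hA]
      ring
    have a6 : A * h ≤ δ / 2 := by
      have a7 : h * (2 * (A + 1)) < δ := (lt_div_iff₀ (by positivity)).1 l3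
      nlinarith
    linarith
  linarith

end DynS

end

/-! ### from `Lib_MP_36b788s.SMixA` -/

section

/-!
# SMIX, part A (`N ≥ 3`): tightness of one site, coupling from an annulus

PROOF.
* `site_tight`: given `ρ, ε`: choose `0 < r0 ≤ 1 ≤ R0` with `ρ{‖g‖ < r0} ≤ ε/4`, `ρ{‖g‖ > R0} ≤ ε/4` (`ρ{0} = 0`, continuity of measures). For `hR0^β ≤ 1` and `g` with
  `r0 ≤ ‖g‖ ≤ R0`: `ev ofReal‖·‖² n g ≤ ofReal(R0²+K)`, `ev W n g ≤ ofReal((1+r0^{-β})^γ+K')`. Markov: `P(‖g_n‖ > R) ≤ (R0²+K)/R² ≤ ε/4`,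
  `P(‖g_n‖ < r, g_n ≠ 0) ≤ ((1+r0^{-β})^γ+K')/(1+r^{-β})^γ ≤ ε/4` (`ev` of the indicator is at most `ev` of `W/W(r)`; write the bad set as
  `{‖g‖ < r ∨ R < ‖g‖}`; the point `0` has no mass: `ev 1_{g=0} n g = 0` for `g ≠ 0` by invariance, `ev_mono_on`). `law_ev`:
  `law n (bad) = ∫⁻ev 1_bad n dρ ≤ ε/4+ε/4+ε/4+ε/4`.
* `ann_couple`: `r ≤ ‖g‖,‖g'‖ ≤ R`. `D0 = log(R/r)`, `dL (g,g') ≤ D0`; `hR^β ≤ 1` puts `(g,g')` in `dlA`. `dist_le`: for nonzero `g,g'`,
  `‖g-g'‖ ≤ max(u,u')(dL+√(2sA))`: `‖g-g'‖ ≤ |u-u'|+min(u,u')‖e-e'‖`, `|u-u'| ≤ max·|log u-log u'|`, `‖e-e'‖² = 2sA`. With `√(2s) ≤ s/η+η/2` and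
  `min(1,Mx) ≤ R1x+1_{M>R1}` (`x ≥ 0`): `min 1 ‖g-g'‖ ≤ R1(dL+sA/η+η/2)+1_{‖q.1‖>R1}+1_{‖q.2‖>R1}` on `dlA`. Take `ev (hat2) n` (`ev_mono_on` with `dl_inv`):
  `ev dL n ≤ ev V n ≤ (1-ch)^nV(q) ≤ e^{-cnh}D0(1+Br^{-1/2})` (`dl_drift`, `ev_drift`); `ev sA n ≤ (1-h/2)^n·2 ≤ 2e^{-nh/2}` (`ang_drift`);
  `ev 1_{‖q.i‖>R1} n ≤ (R²+K)/R1²` (`hat2_ev_fst`, `hat2_ev_snd`, `mom_ev`). First `R1`, then `η`, then `T0`.
-/

open MeasureTheory ProbabilityTheory Dyn
open scoped ENNReal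

namespace DynS

private theorem SMixA_smul_uni {N : ℕ} {v : E N} (hv : v ≠ 0) : ‖v‖ • uni v = v := by
  have hv' : ‖v‖ ≠ 0 := norm_ne_zero_iff.mpr hv
  unfold uni
  rw [smul_smul, mul_one_div_cancel hv', one_smul]

private theorem SMixA_tail {N : ℕ} (ρ : Measure (E N)) [IsProbabilityMeasure ρ] {ε : ℝ≥0∞}
    (hε : 0 < ε) : ∃ R0 : ℝ, 1 ≤ R0 ∧ ρ {g | R0 < ‖g‖} ≤ ε := by
  have ht : Filter.Tendsto (ρ ∘ fun n : ℕ => {g : E N | (n : ℝ) < ‖g‖}) Filter.atTop
      (nhds (ρ (⋂ n : ℕ, {g : E N | (n : ℝ) < ‖g‖}))) := by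
    refine tendsto_measure_iInter_atTop ?_ ?_ ⟨0, measure_ne_top _ _⟩
    · intro n
      exact (measurableSet_lt measurable_const measurable_norm).nullMeasurableSet
    · intro a b hab x hx
      have h1 : ((a : ℕ) : ℝ) ≤ (b : ℝ) := by exact_mod_cast hab
      exact lt_of_le_of_lt h1 hx
  have hemp : (⋂ n : ℕ, {g : E N | (n : ℝ) < ‖g‖}) = ∅ := by
    ext g
    simp only [Set.mem_iInter, Set.mem_ofPred_eq, Set.mem_empty_iff_false, iff_false, not_forall,
      not_lt]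
    exact exists_nat_ge ‖g‖
  rw [hemp, measure_empty] at ht
  obtain ⟨n, hn⟩ := Filter.eventually_atTop.1 (ht.eventually (gt_mem_nhds hε))
  refine ⟨((max n 1 : ℕ) : ℝ), by exact_mod_cast le_max_right n 1, ?_⟩
  exact (hn (max n 1) (le_max_left n 1)).le

private theorem SMixA_near {N : ℕ} (ρ : Measure (E N)) [IsProbabilityMeasure ρ] (h0 : ρ {0} = 0)
    {ε : ℝ≥0∞} (hε : 0 < ε) : ∃ r0 : ℝ, 0 < r0 ∧ r0 ≤ 1 ∧ ρ {g | ‖g‖ < r0} ≤ ε := by
  have ht : Filter.Tendsto (ρ ∘ fun n : ℕ => {g : E N | ‖g‖ < 1 / ((n : ℝ) + 1)}) Filter.atTop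
      (nhds (ρ (⋂ n : ℕ, {g : E N | ‖g‖ < 1 / ((n : ℝ) + 1)}))) := by
    refine tendsto_measure_iInter_atTop ?_ ?_ ⟨0, measure_ne_top _ _⟩
    · intro n
      exact (measurableSet_lt measurable_norm measurable_const).nullMeasurableSet
    · intro a b hab x hx
      have h1 : ((a : ℕ) : ℝ) ≤ (b : ℝ) := by exact_mod_cast hab
      have h2 : (1 : ℝ) / ((b : ℝ) + 1) ≤ 1 / ((a : ℝ) + 1) :=
        one_div_le_one_div_of_le (by positivity) (by linarith)
      exact lt_of_lt_of_le hx h2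
  have hemp : (⋂ n : ℕ, {g : E N | ‖g‖ < 1 / ((n : ℝ) + 1)}) = {0} := by
    ext g
    simp only [Set.mem_iInter, Set.mem_ofPred_eq, Set.mem_singleton_iff]
    constructor
    · intro hg
      by_contra hne
      have hp : 0 < ‖g‖ := norm_pos_iff.mpr hne
      obtain ⟨n, hn⟩ := exists_nat_one_div_lt hp
      exact absurd (hg n) (not_lt.mpr hn.le)
    · intro hg n
      rw [hg, norm_zero]
      positivity
  rw [hemp, h0] at ht
  obtain ⟨n, hn⟩ := Filter.eventually_atTop.1 (ht.eventually (gt_mem_nhds hε))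
  refine ⟨1 / ((n : ℝ) + 1), by positivity, ?_, (hn n le_rfl).le⟩
  rw [div_le_one (by positivity)]
  have : (0 : ℝ) ≤ (n : ℝ) := Nat.cast_nonneg n
  linarith

private theorem SMixA_ne {N : ℕ} {β h : ℝ} (hβ : 0 < β) (hh : 0 < h) (hh1 : h < 1 / 1000)
    {ν : Measure (E N)} (hν : IsNoise h ν) :
    ∀ g ∈ {g : E N | g ≠ 0}, ∀ᵐ ξ ∂ν, hat β h g ξ ∈ {g : E N | g ≠ 0} := by
  intro g hg
  filter_upwards [noise_ae hh hh1 hν] with ξ hξ
  have hz := (hξ.2 (uni g) (uni_norm hg)).1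
  exact (hat_step hβ hh.le hg (lt_of_lt_of_le (by norm_num) hz)).1

private theorem SMixA_exp {c h A ε T0 : ℝ} {n : ℕ} (hc : 0 ≤ c) (h1 : c * h ≤ 1)
    (hε : 0 ≤ ε) (hA : A ≤ ε * (1 + c * T0)) (hn : T0 ≤ n * h) :
    (1 - c * h) ^ n * A ≤ ε := by
  have h2 : (1 - c * h) ^ n ≤ Real.exp (-(c * (n * h))) := by
    have h3 : 1 - c * h ≤ Real.exp (-(c * h)) := by
      have := Real.add_one_le_exp (-(c * h))
      linarith
    calc (1 - c * h) ^ n ≤ (Real.exp (-(c * h))) ^ n := pow_le_pow_left₀ (by linarith) h3 n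
      _ = Real.exp (-(c * (n * h))) := by
        rw [← Real.exp_nat_mul]
        congr 1
        ring
  have h4 : 1 + c * T0 ≤ Real.exp (c * (n * h)) := by
    have h5 := Real.add_one_le_exp (c * (n * h))
    have h6 : c * T0 ≤ c * (n * h) := mul_le_mul_of_nonneg_left hn hc
    linarith
  have h7 : 0 ≤ (1 - c * h) ^ n := pow_nonneg (by linarith) n
  calc (1 - c * h) ^ n * A ≤ (1 - c * h) ^ n * (ε * (1 + c * T0)) :=
        mul_le_mul_of_nonneg_left hA h7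
    _ ≤ (1 - c * h) ^ n * (ε * Real.exp (c * (n * h))) :=
        mul_le_mul_of_nonneg_left (mul_le_mul_of_nonneg_left h4 hε) h7
    _ ≤ Real.exp (-(c * (n * h))) * (ε * Real.exp (c * (n * h))) :=
        mul_le_mul_of_nonneg_right h2 (mul_nonneg hε (Real.exp_pos _).le)
    _ = ε * (Real.exp (-(c * (n * h))) * Real.exp (c * (n * h))) := by ring
    _ = ε := by
        rw [← Real.exp_add, neg_add_cancel, Real.exp_zero, mul_one]

theorem site_tight {N : ℕ} (hN : 3 ≤ N) {β : ℝ} (hβ : 0 < β) (ρ : Measure (E N))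
    [IsProbabilityMeasure ρ] (h0 : ρ {0} = 0) {ε : ℝ} (hε : 0 < ε) :
    ∃ r R h0 : ℝ, 0 < r ∧ r ≤ R ∧ 0 < h0 ∧ ∀ (h : ℝ) (ν : Measure (E N)), 0 < h → h < h0 →
      IsNoise h ν → ∀ n : ℕ,
        (law (hat β h) ν ρ n) {g | ‖g‖ < r ∨ R < ‖g‖} ≤ ENNReal.ofReal ε := by
  have hε4 : 0 < ENNReal.ofReal (ε / 4) := ENNReal.ofReal_pos.mpr (by positivity)
  obtain ⟨R0, hR0, hρR⟩ := SMixA_tail ρ hε4
  obtain ⟨r0, hr0, hr01, hρr⟩ := SMixA_near ρ h0 hε4
  obtain ⟨K, h1, hK, hh1, hh1', hM⟩ := mom_ev (N := N) (by omega) hβ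
  obtain ⟨γ, K', h2, hγ, hK', hh2, hh2', hW⟩ := w_ev hN hβ
  have hR0p : (0 : ℝ) < R0 := lt_of_lt_of_le one_pos hR0
  set W0 : ℝ := (1 + r0 ^ (-β)) ^ γ + K' with hW0
  have hW0p : 0 < W0 := by
    have : 0 ≤ (1 + r0 ^ (-β)) ^ γ := by positivity
    linarith
  set Q : ℝ := max 1 (4 * W0 / ε) with hQ
  have hQ1 : 1 ≤ Q := le_max_left _ _
  have hQp : 0 < Q := lt_of_lt_of_le one_pos hQ1
  have hQ2 : W0 / Q ≤ ε / 4 := by
    rw [div_le_iff₀ hQp]
    have h3 : 4 * W0 / ε ≤ Q := le_max_right _ _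
    rw [div_le_iff₀ hε] at h3
    linarith
  set X : ℝ := Q ^ (1 / γ) with hX
  have hX1 : 1 ≤ X := Real.one_le_rpow hQ1 (by positivity)
  have hXp : 0 < X := lt_of_lt_of_le one_pos hX1
  have hXγ : X ^ γ = Q := by
    rw [hX, ← Real.rpow_mul hQp.le, one_div_mul_cancel hγ.ne', Real.rpow_one]
  set r : ℝ := X ^ (-(1 / β)) with hr
  have hrp : 0 < r := Real.rpow_pos_of_pos hXp _
  have hr1 : r ≤ 1 := Real.rpow_le_one_of_one_le_of_nonpos hX1 (by
    have : 0 < 1 / β := by positivity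
    linarith)
  have hrX : r ^ (-β) = X := by
    rw [hr, ← Real.rpow_mul hXp.le]
    have : -(1 / β) * -β = 1 := by
      field_simp
    rw [this, Real.rpow_one]
  set R : ℝ := max 1 (4 * (R0 ^ 2 + K) / ε) with hR
  have hR1 : 1 ≤ R := le_max_left _ _
  have hRp : 0 < R := lt_of_lt_of_le one_pos hR1
  have hR2 : (R0 ^ 2 + K) / R ^ 2 ≤ ε / 4 := by
    rw [div_le_iff₀ (by positivity)]
    have h3 : 4 * (R0 ^ 2 + K) / ε ≤ R := le_max_right _ _
    rw [div_le_iff₀ hε] at h3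
    have h4 : R ≤ R ^ 2 := by nlinarith
    have h5 : R * ε ≤ R ^ 2 * ε := mul_le_mul_of_nonneg_right h4 hε.le
    linarith
  set h3 : ℝ := R0 ^ (-β) with hh3
  have hh3p : 0 < h3 := Real.rpow_pos_of_pos hR0p _
  refine ⟨r, R, min (min h1 h2) h3, hrp, le_trans hr1 hR1, lt_min (lt_min hh1 hh2) hh3p, ?_⟩
  intro h ν hh hlt hν n
  have := hν.prob
  have hlt1 : h < h1 := lt_of_lt_of_le hlt (le_trans (min_le_left _ _) (min_le_left _ _))
  have hlt2 : h < h2 := lt_of_lt_of_le hlt (le_trans (min_le_left _ _) (min_le_right _ _))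
  have hlt3 : h < h3 := lt_of_lt_of_le hlt (min_le_right _ _)
  have hlt4 : h < 1 / 1000 := lt_of_lt_of_le hlt1 hh1'
  have hmeas := measurable_hat (N := N) hβ hh.le
  set S : Set (E N) := {g | ‖g‖ < r ∨ R < ‖g‖} with hS
  have hSm : MeasurableSet S := by
    have e1 : MeasurableSet {g : E N | ‖g‖ < r} :=
      measurableSet_lt measurable_norm measurable_const
    have e2 : MeasurableSet {g : E N | R < ‖g‖} :=
      measurableSet_lt measurable_const measurable_norm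
    exact e1.union e2
  have hm1 : Measurable (fun g : E N => ENNReal.ofReal (‖g‖ ^ 2)) :=
    (measurable_norm.pow_const 2).ennreal_ofReal
  have hm2 : Measurable (fun g : E N => ENNReal.ofReal ((1 + ‖g‖ ^ (-β)) ^ γ)) :=
    (((measurable_norm.pow_const (-β)).const_add 1).pow_const γ).ennreal_ofReal
  have hind : Measurable (S.indicator (fun _ => (1 : ℝ≥0∞))) := measurable_const.indicator hSm
  -- the indicator on the set of nonzero vectors
  have hle : ∀ g ∈ {g : E N | g ≠ 0}, S.indicator (fun _ => (1 : ℝ≥0∞)) g ≤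
      ENNReal.ofReal (1 / R ^ 2) * ENNReal.ofReal (‖g‖ ^ 2) +
        ENNReal.ofReal (1 / Q) * ENNReal.ofReal ((1 + ‖g‖ ^ (-β)) ^ γ) := by
    intro g hg
    have hgp : 0 < ‖g‖ := norm_pos_iff.mpr hg
    by_cases hgS : g ∈ S
    · rw [Set.indicator_of_mem hgS]
      rcases hgS with hg1 | hg2
      · have e1 : X ≤ ‖g‖ ^ (-β) := by
          rw [← hrX]
          exact Real.rpow_le_rpow_of_nonpos hgp hg1.le (by linarith)
        have e2 : Q ≤ (1 + ‖g‖ ^ (-β)) ^ γ := by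
          rw [← hXγ]
          exact Real.rpow_le_rpow hXp.le (by linarith) hγ.le
        refine le_trans ?_ le_add_self
        rw [← ENNReal.ofReal_mul (by positivity), ← ENNReal.ofReal_one]
        apply ENNReal.ofReal_le_ofReal
        rw [one_div, inv_mul_eq_div, le_div_iff₀ hQp]
        linarith
      · refine le_trans ?_ le_self_add
        rw [← ENNReal.ofReal_mul (by positivity), ← ENNReal.ofReal_one]
        apply ENNReal.ofReal_le_ofReal
        rw [one_div, inv_mul_eq_div, le_div_iff₀ (by positivity), one_mul]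
        exact pow_le_pow_left₀ hRp.le hg2.le 2
    · rw [Set.indicator_of_notMem hgS]
      exact zero_le
  have hev : ∀ g : E N, ev (hat β h) ν (S.indicator (fun _ => (1 : ℝ≥0∞))) n g ≤
      {g : E N | ‖g‖ < r0}.indicator (fun _ => (1 : ℝ≥0∞)) g +
        {g : E N | R0 < ‖g‖}.indicator (fun _ => (1 : ℝ≥0∞)) g + ENNReal.ofReal (ε / 2) := by
    intro g
    have hev1 : ev (hat β h) ν (S.indicator (fun _ => (1 : ℝ≥0∞))) n g ≤ 1 := by
      calc ev (hat β h) ν (S.indicator (fun _ => (1 : ℝ≥0∞))) n g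
          ≤ ev (hat β h) ν (fun _ => (1 : ℝ≥0∞)) n g :=
            ev_mono (fun x => Set.indicator_le_self' (fun _ _ => zero_le) x) n g
        _ = 1 := ev_const 1 n g
    by_cases hg1 : ‖g‖ < r0
    · have e1 : {g : E N | ‖g‖ < r0}.indicator (fun _ => (1 : ℝ≥0∞)) g = 1 :=
        Set.indicator_of_mem (s := {g : E N | ‖g‖ < r0}) hg1 _
      rw [e1]
      exact le_trans hev1 (le_trans le_self_add le_self_add)
    by_cases hg2 : R0 < ‖g‖
    · have e1 : {g : E N | R0 < ‖g‖}.indicator (fun _ => (1 : ℝ≥0∞)) g = 1 :=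
        Set.indicator_of_mem (s := {g : E N | R0 < ‖g‖}) hg2 _
      rw [e1]
      exact le_trans hev1 (le_trans le_add_self le_self_add)
    push Not at hg1 hg2
    have hgp : 0 < ‖g‖ := lt_of_lt_of_le hr0 hg1
    have hg : g ≠ 0 := norm_pos_iff.mp hgp
    have hhg : h * ‖g‖ ^ β ≤ 1 := by
      have e1 : ‖g‖ ^ β ≤ R0 ^ β := Real.rpow_le_rpow hgp.le hg2 hβ.le
      have e2 : h * R0 ^ β ≤ h3 * R0 ^ β :=
        mul_le_mul_of_nonneg_right hlt3.le (by positivity)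
      have e3 : h3 * R0 ^ β = 1 := by
        rw [hh3, ← Real.rpow_add hR0p, neg_add_cancel, Real.rpow_zero]
      have e4 : h * ‖g‖ ^ β ≤ h * R0 ^ β := mul_le_mul_of_nonneg_left e1 hh.le
      linarith
    refine le_trans ?_ le_add_self
    calc ev (hat β h) ν (S.indicator (fun _ => (1 : ℝ≥0∞))) n g
        ≤ ev (hat β h) ν (fun g => ENNReal.ofReal (1 / R ^ 2) * ENNReal.ofReal (‖g‖ ^ 2) +
            ENNReal.ofReal (1 / Q) * ENNReal.ofReal ((1 + ‖g‖ ^ (-β)) ^ γ)) n g :=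
          ev_mono_on {g : E N | g ≠ 0} (SMixA_ne hβ hh hlt4 hν) hle n g hg
      _ = ENNReal.ofReal (1 / R ^ 2) *
            ev (hat β h) ν (fun g => ENNReal.ofReal (‖g‖ ^ 2)) n g +
          ENNReal.ofReal (1 / Q) *
            ev (hat β h) ν (fun g => ENNReal.ofReal ((1 + ‖g‖ ^ (-β)) ^ γ)) n g := by
          rw [ev_add hmeas (hm1.const_mul _) (hm2.const_mul _), ev_cmul hmeas hm1,
            ev_cmul hmeas hm2]
      _ ≤ ENNReal.ofReal (1 / R ^ 2) * ENNReal.ofReal (R0 ^ 2 + K) +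
          ENNReal.ofReal (1 / Q) * ENNReal.ofReal W0 := by
          gcongr
          · refine le_trans (hM h ν hh hlt1 hν n g) (ENNReal.ofReal_le_ofReal ?_)
            have := pow_le_pow_left₀ hgp.le hg2 2
            linarith
          · refine le_trans (hW h ν hh hlt2 hν n g hg hhg) (ENNReal.ofReal_le_ofReal ?_)
            have e1 : ‖g‖ ^ (-β) ≤ r0 ^ (-β) :=
              Real.rpow_le_rpow_of_nonpos hr0 hg1 (by linarith)
            have e2 : (1 + ‖g‖ ^ (-β)) ^ γ ≤ (1 + r0 ^ (-β)) ^ γ :=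
              Real.rpow_le_rpow (by positivity) (by linarith) hγ.le
            rw [hW0]
            linarith
      _ ≤ ENNReal.ofReal (ε / 2) := by
          rw [← ENNReal.ofReal_mul (by positivity), ← ENNReal.ofReal_mul (by positivity),
            ← ENNReal.ofReal_add (by positivity) (by positivity)]
          apply ENNReal.ofReal_le_ofReal
          have e1 : 1 / R ^ 2 * (R0 ^ 2 + K) = (R0 ^ 2 + K) / R ^ 2 := by ring
          have e2 : 1 / Q * W0 = W0 / Q := by ring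
          rw [e1, e2]
          linarith
  have hm3 : MeasurableSet {g : E N | ‖g‖ < r0} :=
    measurableSet_lt measurable_norm measurable_const
  have hm4 : MeasurableSet {g : E N | R0 < ‖g‖} :=
    measurableSet_lt measurable_const measurable_norm
  calc (law (hat β h) ν ρ n) S
      = ∫⁻ g, S.indicator (fun _ => (1 : ℝ≥0∞)) g ∂(law (hat β h) ν ρ n) := by
        rw [lintegral_indicator hSm, setLIntegral_const, one_mul]
    _ = ∫⁻ g, ev (hat β h) ν (S.indicator (fun _ => (1 : ℝ≥0∞))) n g ∂ρ :=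
        law_ev hmeas ρ hind n
    _ ≤ ∫⁻ g, ({g : E N | ‖g‖ < r0}.indicator (fun _ => (1 : ℝ≥0∞)) g +
        {g : E N | R0 < ‖g‖}.indicator (fun _ => (1 : ℝ≥0∞)) g + ENNReal.ofReal (ε / 2)) ∂ρ :=
        lintegral_mono hev
    _ = ρ {g : E N | ‖g‖ < r0} + ρ {g : E N | R0 < ‖g‖} + ENNReal.ofReal (ε / 2) := by
        rw [lintegral_add_right _ measurable_const,
          lintegral_add_right _ (measurable_const.indicator hm4),
          lintegral_indicator hm3, lintegral_indicator hm4, setLIntegral_const,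
          setLIntegral_const, one_mul, one_mul, lintegral_const, measure_univ, mul_one]
    _ ≤ ENNReal.ofReal (ε / 4) + ENNReal.ofReal (ε / 4) + ENNReal.ofReal (ε / 2) := by
        gcongr
    _ = ENNReal.ofReal ε := by
        rw [← ENNReal.ofReal_add (by positivity) (by positivity),
          ← ENNReal.ofReal_add (by positivity) (by positivity)]
        congr 1
        ring

private theorem SMixA_uni_sub {N : ℕ} {q : E N × E N} (h1 : q.1 ≠ 0) (h2 : q.2 ≠ 0) :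
    ‖uni q.1 - uni q.2‖ = Real.sqrt (2 * sA q) := by
  have e1 : ‖uni q.1‖ = 1 := uni_norm h1
  have e2 : ‖uni q.2‖ = 1 := uni_norm h2
  have e3 : ‖uni q.1 - uni q.2‖ ^ 2 = 2 * sA q := by
    rw [norm_sub_sq_real, e1, e2]
    unfold sA
    ring
  rw [← e3, Real.sqrt_sq (norm_nonneg _)]

private theorem SMixA_logd {a b : ℝ} (ha : 0 < a) (hb : 0 < b) :
    a - b ≤ a * |Real.log a - Real.log b| := by
  have h1 : Real.log (b / a) ≤ b / a - 1 := Real.log_le_sub_one_of_pos (by positivity)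
  rw [Real.log_div hb.ne' ha.ne'] at h1
  have h2 : 1 - b / a ≤ Real.log a - Real.log b := by linarith
  have h3 : a * (1 - b / a) = a - b := by
    field_simp
  calc a - b = a * (1 - b / a) := h3.symm
    _ ≤ a * (Real.log a - Real.log b) := mul_le_mul_of_nonneg_left h2 ha.le
    _ ≤ a * |Real.log a - Real.log b| := mul_le_mul_of_nonneg_left (le_abs_self _) ha.le

theorem dist_le {N : ℕ} {q : E N × E N} (h1 : q.1 ≠ 0) (h2 : q.2 ≠ 0) :
    ‖q.1 - q.2‖ ≤ max ‖q.1‖ ‖q.2‖ * (dL q + Real.sqrt (2 * sA q)) := by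
  have ha : 0 < ‖q.1‖ := norm_pos_iff.mpr h1
  have hb : 0 < ‖q.2‖ := norm_pos_iff.mpr h2
  have e1 : ‖uni q.1‖ = 1 := uni_norm h1
  have e2 : ‖uni q.2‖ = 1 := uni_norm h2
  have q1 : ‖q.1‖ • uni q.1 = q.1 := SMixA_smul_uni h1
  have q2 : ‖q.2‖ • uni q.2 = q.2 := SMixA_smul_uni h2
  rw [← SMixA_uni_sub h1 h2]
  rcases le_total ‖q.2‖ ‖q.1‖ with hle | hle
  · have e3 : q.1 - q.2 = (‖q.1‖ - ‖q.2‖) • uni q.1 + ‖q.2‖ • (uni q.1 - uni q.2) := by
      rw [sub_smul, smul_sub, q1, q2]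
      abel
    have e4 : ‖q.1‖ - ‖q.2‖ ≤ ‖q.1‖ * dL q := SMixA_logd ha hb
    calc ‖q.1 - q.2‖ = ‖(‖q.1‖ - ‖q.2‖) • uni q.1 + ‖q.2‖ • (uni q.1 - uni q.2)‖ := by rw [← e3]
      _ ≤ ‖(‖q.1‖ - ‖q.2‖) • uni q.1‖ + ‖‖q.2‖ • (uni q.1 - uni q.2)‖ := norm_add_le _ _
      _ = (‖q.1‖ - ‖q.2‖) + ‖q.2‖ * ‖uni q.1 - uni q.2‖ := by
          rw [norm_smul, norm_smul, e1, mul_one, Real.norm_eq_abs, Real.norm_eq_abs,
            abs_of_nonneg (sub_nonneg.mpr hle), abs_of_pos hb]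
      _ ≤ ‖q.1‖ * dL q + ‖q.1‖ * ‖uni q.1 - uni q.2‖ :=
          add_le_add e4 (mul_le_mul_of_nonneg_right hle (norm_nonneg _))
      _ = max ‖q.1‖ ‖q.2‖ * (dL q + ‖uni q.1 - uni q.2‖) := by
          rw [max_eq_left hle]
          ring
  · have e3 : q.1 - q.2 = (-(‖q.2‖ - ‖q.1‖)) • uni q.2 + ‖q.1‖ • (uni q.1 - uni q.2) := by
      rw [neg_smul, sub_smul, smul_sub, q1, q2]
      abel
    have e4 : ‖q.2‖ - ‖q.1‖ ≤ ‖q.2‖ * dL q := by
      have := SMixA_logd hb ha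
      unfold dL
      rw [abs_sub_comm]
      exact this
    calc ‖q.1 - q.2‖
        = ‖(-(‖q.2‖ - ‖q.1‖)) • uni q.2 + ‖q.1‖ • (uni q.1 - uni q.2)‖ := by rw [← e3]
      _ ≤ ‖(-(‖q.2‖ - ‖q.1‖)) • uni q.2‖ + ‖‖q.1‖ • (uni q.1 - uni q.2)‖ := norm_add_le _ _
      _ = (‖q.2‖ - ‖q.1‖) + ‖q.1‖ * ‖uni q.1 - uni q.2‖ := by
          rw [norm_smul, norm_smul, e2, mul_one, Real.norm_eq_abs, Real.norm_eq_abs, abs_neg,
            abs_of_nonneg (sub_nonneg.mpr hle), abs_of_pos ha]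
      _ ≤ ‖q.2‖ * dL q + ‖q.2‖ * ‖uni q.1 - uni q.2‖ :=
          add_le_add e4 (mul_le_mul_of_nonneg_right hle (norm_nonneg _))
      _ = max ‖q.1‖ ‖q.2‖ * (dL q + ‖uni q.1 - uni q.2‖) := by
          rw [max_eq_right hle]
          ring

private theorem SMixA_sqrt {s η : ℝ} (hs : 0 ≤ s) (hη : 0 < η) :
    Real.sqrt (2 * s) ≤ s / η + η / 2 := by
  apply Real.sqrt_le_iff.mpr
  constructor
  · positivity
  · have h1 : (s / η + η / 2) ^ 2 = (s / η - η / 2) ^ 2 + 2 * s := by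
      field_simp
      ring
    rw [h1]
    have := sq_nonneg (s / η - η / 2)
    linarith

private theorem SMixA_lin {X Ξ : Type} [MeasurableSpace X] [MeasurableSpace Ξ] {f : X → Ξ → X}
    {μ : Measure Ξ} [IsProbabilityMeasure μ] (hf : Measurable (fun q : X × Ξ => f q.1 q.2))
    {φ1 φ2 φ3 φ4 : X → ℝ≥0∞} (h1 : Measurable φ1) (h2 : Measurable φ2) (h3 : Measurable φ3)
    (h4 : Measurable φ4) (a b c d e : ℝ≥0∞) (n : ℕ) (x : X) :
    ev f μ (fun q => (((a * φ1 q + b * φ2 q) + c) + d * φ3 q) + e * φ4 q) n x =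
      (((a * ev f μ φ1 n x + b * ev f μ φ2 n x) + c) + d * ev f μ φ3 n x) +
        e * ev f μ φ4 n x := by
  have m1 : Measurable (fun q => a * φ1 q) := h1.const_mul a
  have m2 : Measurable (fun q => b * φ2 q) := h2.const_mul b
  have m3 : Measurable (fun q => d * φ3 q) := h3.const_mul d
  have m4 : Measurable (fun q => e * φ4 q) := h4.const_mul e
  have m5 : Measurable (fun q => a * φ1 q + b * φ2 q) := m1.add m2
  have m6 : Measurable (fun q => (a * φ1 q + b * φ2 q) + c) := m5.add measurable_const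
  have m7 : Measurable (fun q => ((a * φ1 q + b * φ2 q) + c) + d * φ3 q) := m6.add m3
  rw [ev_add hf m7 m4, ev_add hf m6 m3, ev_add hf m5 measurable_const, ev_add hf m1 m2,
    ev_cmul hf h1, ev_cmul hf h2, ev_cmul hf h3, ev_cmul hf h4, ev_const]

theorem ann_couple {N : ℕ} (hN : 3 ≤ N) {β : ℝ} (hβ : 0 < β) {r R : ℝ} (hr : 0 < r) (hrR : r ≤ R)
    {ε : ℝ} (hε : 0 < ε) : ∃ T0 h0 : ℝ, 0 ≤ T0 ∧ 0 < h0 ∧ ∀ (h : ℝ) (ν : Measure (E N)), 0 < h →
      h < h0 → IsNoise h ν → ∀ (n : ℕ) (g g' : E N), T0 ≤ n * h → r ≤ ‖g‖ → ‖g‖ ≤ R → r ≤ ‖g'‖ →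
        ‖g'‖ ≤ R →
        ev (hat2 β h) ν (fun q => ENNReal.ofReal (min 1 ‖q.1 - q.2‖)) n (g, g') ≤
          ENNReal.ofReal ε := by
  have hRp : 0 < R := lt_of_lt_of_le hr hrR
  set D0 : ℝ := Real.log R - Real.log r with hD0
  have hD0n : 0 ≤ D0 := sub_nonneg.mpr (Real.log_le_log hr hrR)
  obtain ⟨c, B, h1, hc, hB, hh1, hh1', hch1, hV⟩ := dl_drift hN hβ D0
  obtain ⟨K, h2, hK, hh2, hh2', hM⟩ := mom_ev (N := N) (by omega) hβ
  set V0 : ℝ := D0 * (1 + B * r ^ (-(1 / 2) : ℝ)) with hV0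
  have hV0n : 0 ≤ V0 := by positivity
  set R1 : ℝ := 1 + 8 * (R ^ 2 + K) / ε with hR1
  have hR1a : 1 ≤ R1 := by
    have : 0 ≤ 8 * (R ^ 2 + K) / ε := by positivity
    linarith
  have hR1p : 0 < R1 := lt_of_lt_of_le one_pos hR1a
  have hR1b : (R ^ 2 + K) / R1 ^ 2 ≤ ε / 8 := by
    rw [div_le_iff₀ (by positivity)]
    have h3 : 8 * (R ^ 2 + K) / ε ≤ R1 := by linarith
    rw [div_le_iff₀ hε] at h3
    have h4 : R1 ≤ R1 ^ 2 := by nlinarith
    have h5 : R1 * ε ≤ R1 ^ 2 * ε := mul_le_mul_of_nonneg_right h4 hε.le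
    linarith
  set η : ℝ := ε / (2 * R1) with hη
  have hηp : 0 < η := by positivity
  have hη1 : R1 * (η / 2) = ε / 4 := by
    rw [hη]
    field_simp
    ring
  set Ta : ℝ := 4 * (R1 * V0) / (ε * c) with hTa
  set Tb : ℝ := 16 * (R1 / η) / ε with hTb
  have hTan : 0 ≤ Ta := by positivity
  have hTbn : 0 ≤ Tb := by positivity
  set h3 : ℝ := R ^ (-β) with hh3
  have hh3p : 0 < h3 := Real.rpow_pos_of_pos hRp _
  refine ⟨Ta + Tb, min (min h1 h2) h3, add_nonneg hTan hTbn, lt_min (lt_min hh1 hh2) hh3p, ?_⟩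
  intro h ν hh hlt hν n g g' hT hg1 hg2 hg1' hg2'
  have := hν.prob
  have hlt1 : h < h1 := lt_of_lt_of_le hlt (le_trans (min_le_left _ _) (min_le_left _ _))
  have hlt2 : h < h2 := lt_of_lt_of_le hlt (le_trans (min_le_left _ _) (min_le_right _ _))
  have hlt3 : h < h3 := lt_of_lt_of_le hlt (min_le_right _ _)
  have hlt4 : h < 1 / 1000 := lt_of_lt_of_le hlt1 hh1'
  have hmeas2 := measurable_hat2 (N := N) hβ hh.le
  have hmeas := measurable_hat (N := N) hβ hh.le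
  have hgp : 0 < ‖g‖ := lt_of_lt_of_le hr hg1
  have hgp' : 0 < ‖g'‖ := lt_of_lt_of_le hr hg1'
  have hg : g ≠ 0 := norm_pos_iff.mp hgp
  have hg' : g' ≠ 0 := norm_pos_iff.mp hgp'
  have hinv : ∀ u : ℝ, 0 < u → u ≤ R → h * u ^ β ≤ 1 := by
    intro u hu huR
    have e1 : u ^ β ≤ R ^ β := Real.rpow_le_rpow hu.le huR hβ.le
    have e2 : h * R ^ β ≤ h3 * R ^ β :=
      mul_le_mul_of_nonneg_right hlt3.le (by positivity)
    have e3 : h3 * R ^ β = 1 := by
      rw [hh3, ← Real.rpow_add hRp, neg_add_cancel, Real.rpow_zero]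
    have e4 : h * u ^ β ≤ h * R ^ β := mul_le_mul_of_nonneg_left e1 hh.le
    linarith
  have hdL : dL (g, g') ≤ D0 := by
    unfold dL
    have a1 := Real.log_le_log hr hg1
    have a2 := Real.log_le_log hgp hg2
    have a3 := Real.log_le_log hr hg1'
    have a4 := Real.log_le_log hgp' hg2'
    rw [abs_le]
    constructor
    · simp only
      linarith
    · simp only
      linarith
  have hmem : ((g, g') : E N × E N) ∈ dlA N β h D0 :=
    ⟨hg, hg', hinv _ hgp hg2, hinv _ hgp' hg2', hdL⟩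
  -- the functions
  have hmV : Measurable (fun q : E N × E N =>
      ENNReal.ofReal (dL q * (1 + B * ‖q.1‖ ^ (-(1 / 2) : ℝ)))) := by
    apply Measurable.ennreal_ofReal
    exact measurable_dL.mul (((measurable_norm.comp measurable_fst).pow_const _).const_mul B
      |>.const_add 1)
  have hmS : Measurable (fun q : E N × E N => ENNReal.ofReal (sA q)) :=
    measurable_sA.ennreal_ofReal
  have hmN : Measurable (fun g : E N => ENNReal.ofReal (‖g‖ ^ 2)) :=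
    (measurable_norm.pow_const 2).ennreal_ofReal
  have hm1 : Measurable (fun q : E N × E N => ENNReal.ofReal (‖q.1‖ ^ 2)) :=
    hmN.comp measurable_fst
  have hm2 : Measurable (fun q : E N × E N => ENNReal.ofReal (‖q.2‖ ^ 2)) :=
    hmN.comp measurable_snd
  have hle : ∀ q ∈ dlA N β h D0, ENNReal.ofReal (min 1 ‖q.1 - q.2‖) ≤
      (((ENNReal.ofReal R1 * ENNReal.ofReal (dL q * (1 + B * ‖q.1‖ ^ (-(1 / 2) : ℝ))) +
        ENNReal.ofReal (R1 / η) * ENNReal.ofReal (sA q)) + ENNReal.ofReal (ε / 4)) +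
        ENNReal.ofReal (1 / R1 ^ 2) * ENNReal.ofReal (‖q.1‖ ^ 2)) +
        ENNReal.ofReal (1 / R1 ^ 2) * ENNReal.ofReal (‖q.2‖ ^ 2) := by
    intro q hq
    obtain ⟨hq1, hq2, -, -, -⟩ := hq
    have hdn : 0 ≤ dL q := abs_nonneg _
    have hVn : 0 ≤ dL q * (1 + B * ‖q.1‖ ^ (-(1 / 2) : ℝ)) := by positivity
    have hsn : 0 ≤ sA q := (sA_nonneg q).1
    rw [← ENNReal.ofReal_mul hR1p.le, ← ENNReal.ofReal_mul (by positivity),
      ← ENNReal.ofReal_mul (by positivity), ← ENNReal.ofReal_mul (by positivity),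
      ← ENNReal.ofReal_add (by positivity) (by positivity),
      ← ENNReal.ofReal_add (by positivity) (by positivity),
      ← ENNReal.ofReal_add (by positivity) (by positivity),
      ← ENNReal.ofReal_add (by positivity) (by positivity)]
    apply ENNReal.ofReal_le_ofReal
    have t1 : 0 ≤ R1 * (dL q * (1 + B * ‖q.1‖ ^ (-(1 / 2) : ℝ))) := by positivity
    have t2 : 0 ≤ R1 / η * sA q := by positivity
    have t3 : 0 ≤ 1 / R1 ^ 2 * ‖q.1‖ ^ 2 := by positivity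
    have t4 : 0 ≤ 1 / R1 ^ 2 * ‖q.2‖ ^ 2 := by positivity
    by_cases hc1 : R1 ≤ ‖q.1‖
    · have t5 : 1 ≤ 1 / R1 ^ 2 * ‖q.1‖ ^ 2 := by
        rw [one_div, inv_mul_eq_div, le_div_iff₀ (by positivity), one_mul]
        exact pow_le_pow_left₀ hR1p.le hc1 2
      have t6 : min 1 ‖q.1 - q.2‖ ≤ 1 := min_le_left _ _
      linarith
    by_cases hc2 : R1 ≤ ‖q.2‖
    · have t5 : 1 ≤ 1 / R1 ^ 2 * ‖q.2‖ ^ 2 := by
        rw [one_div, inv_mul_eq_div, le_div_iff₀ (by positivity), one_mul]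
        exact pow_le_pow_left₀ hR1p.le hc2 2
      have t6 : min 1 ‖q.1 - q.2‖ ≤ 1 := min_le_left _ _
      linarith
    push Not at hc1 hc2
    have t5 := dist_le hq1 hq2
    have t6 : max ‖q.1‖ ‖q.2‖ ≤ R1 := max_le hc1.le hc2.le
    have t7 : Real.sqrt (2 * sA q) ≤ sA q / η + η / 2 := SMixA_sqrt hsn hηp
    have t8 : dL q ≤ dL q * (1 + B * ‖q.1‖ ^ (-(1 / 2) : ℝ)) := by
      apply le_mul_of_one_le_right hdn
      have : 0 ≤ B * ‖q.1‖ ^ (-(1 / 2) : ℝ) := by positivity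
      linarith
    have t9 : ‖q.1 - q.2‖ ≤
        R1 * (dL q * (1 + B * ‖q.1‖ ^ (-(1 / 2) : ℝ)) + (sA q / η + η / 2)) := by
      refine le_trans t5 ?_
      apply mul_le_mul t6 (add_le_add t8 t7)
      · have := Real.sqrt_nonneg (2 * sA q)
        linarith
      · exact hR1p.le
    have t10 : min 1 ‖q.1 - q.2‖ ≤ ‖q.1 - q.2‖ := min_le_right _ _
    have t11 : R1 * (dL q * (1 + B * ‖q.1‖ ^ (-(1 / 2) : ℝ)) + (sA q / η + η / 2)) =
        R1 * (dL q * (1 + B * ‖q.1‖ ^ (-(1 / 2) : ℝ))) + R1 / η * sA q + R1 * (η / 2) := by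
      ring
    rw [t11, hη1] at t9
    linarith
  -- the four expectations
  have hEV : ev (hat2 β h) ν (fun q : E N × E N =>
      ENNReal.ofReal (dL q * (1 + B * ‖q.1‖ ^ (-(1 / 2) : ℝ)))) n (g, g') ≤
      ENNReal.ofReal ((1 - c * h) ^ n * V0) := by
    have hch : c * h ≤ 1 := le_trans (mul_le_mul_of_nonneg_left hlt1.le hc.le) hch1
    refine le_trans (ev_drift hmeas2 (dlA N β h D0) (dl_inv hβ hh hlt4 hν) hmV
      (ENNReal.ofReal (1 - c * h)) (fun q hq => hV h ν hh hlt1 hν q hq) n (g, g') hmem) ?_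
    rw [← ENNReal.ofReal_pow (by linarith), ← ENNReal.ofReal_mul (pow_nonneg (by linarith) _)]
    apply ENNReal.ofReal_le_ofReal
    apply mul_le_mul_of_nonneg_left _ (pow_nonneg (by linarith) _)
    rw [hV0]
    apply mul_le_mul hdL _ _ hD0n
    · have e1 : ‖g‖ ^ (-(1 / 2) : ℝ) ≤ r ^ (-(1 / 2) : ℝ) :=
        Real.rpow_le_rpow_of_nonpos hr hg1 (by norm_num)
      have e2 : B * ‖g‖ ^ (-(1 / 2) : ℝ) ≤ B * r ^ (-(1 / 2) : ℝ) :=
        mul_le_mul_of_nonneg_left e1 hB.le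
      simp only
      linarith
    · positivity
  have hES : ev (hat2 β h) ν (fun q : E N × E N => ENNReal.ofReal (sA q)) n (g, g') ≤
      ENNReal.ofReal ((1 - 1 / 2 * h) ^ n * 2) := by
    refine le_trans (ev_drift hmeas2 {q : E N × E N | q.1 ≠ 0 ∧ q.2 ≠ 0}
      (fun q hq => hat2_ne hβ hh hlt4 hν hq.1 hq.2) hmS
      (ENNReal.ofReal (1 - h / 2)) (fun q hq => ang_drift hN hβ hh hlt4 hν hq.1 hq.2) n
      (g, g') ⟨hg, hg'⟩) ?_
    have e0 : 1 - h / 2 = 1 - 1 / 2 * h := by ring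
    rw [e0, ← ENNReal.ofReal_pow (by linarith), ← ENNReal.ofReal_mul (pow_nonneg (by linarith) _)]
    apply ENNReal.ofReal_le_ofReal
    exact mul_le_mul_of_nonneg_left (sA_nonneg _).2 (pow_nonneg (by linarith) _)
  have hE1 : ev (hat2 β h) ν (fun q : E N × E N => ENNReal.ofReal (‖q.1‖ ^ 2)) n (g, g') ≤
      ENNReal.ofReal (R ^ 2 + K) := by
    have e1 := hat2_ev_fst (ν := ν) hβ hh.le hmN n (g, g')
    rw [e1]
    refine le_trans (hM h ν hh hlt2 hν n g) (ENNReal.ofReal_le_ofReal ?_)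
    have := pow_le_pow_left₀ hgp.le hg2 2
    linarith
  have hE2 : ev (hat2 β h) ν (fun q : E N × E N => ENNReal.ofReal (‖q.2‖ ^ 2)) n (g, g') ≤
      ENNReal.ofReal (R ^ 2 + K) := by
    have e1 := hat2_ev_snd (ν := ν) hβ hh.le hν.iso hmN n (g, g')
    rw [e1]
    refine le_trans (hM h ν hh hlt2 hν n g') (ENNReal.ofReal_le_ofReal ?_)
    have := pow_le_pow_left₀ hgp'.le hg2' 2
    linarith
  have hch : c * h ≤ 1 := le_trans (mul_le_mul_of_nonneg_left hlt1.le hc.le) hch1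
  have hTn1 : Ta ≤ n * h := by linarith
  have hTn2 : Tb ≤ n * h := by linarith
  have hfin1 : R1 * ((1 - c * h) ^ n * V0) ≤ ε / 4 := by
    have e1 : R1 * ((1 - c * h) ^ n * V0) = (1 - c * h) ^ n * (R1 * V0) := by ring
    rw [e1]
    refine SMixA_exp hc.le hch (by positivity) ?_ hTn1
    have e2 : ε / 4 * (1 + c * Ta) = ε / 4 + R1 * V0 := by
      rw [hTa]
      field_simp
    rw [e2]
    linarith
  have hfin2 : R1 / η * ((1 - 1 / 2 * h) ^ n * 2) ≤ ε / 4 := by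
    have e1 : R1 / η * ((1 - 1 / 2 * h) ^ n * 2) = (1 - 1 / 2 * h) ^ n * (2 * (R1 / η)) := by ring
    rw [e1]
    refine SMixA_exp (by norm_num) (by linarith) (by positivity) ?_ hTn2
    have e2 : ε / 4 * (1 + 1 / 2 * Tb) = ε / 4 + 2 * (R1 / η) := by
      rw [hTb]
      field_simp
      ring
    rw [e2]
    linarith
  calc ev (hat2 β h) ν (fun q => ENNReal.ofReal (min 1 ‖q.1 - q.2‖)) n (g, g')
      ≤ ev (hat2 β h) ν (fun q : E N × E N =>
        (((ENNReal.ofReal R1 * ENNReal.ofReal (dL q * (1 + B * ‖q.1‖ ^ (-(1 / 2) : ℝ))) +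
        ENNReal.ofReal (R1 / η) * ENNReal.ofReal (sA q)) + ENNReal.ofReal (ε / 4)) +
        ENNReal.ofReal (1 / R1 ^ 2) * ENNReal.ofReal (‖q.1‖ ^ 2)) +
        ENNReal.ofReal (1 / R1 ^ 2) * ENNReal.ofReal (‖q.2‖ ^ 2)) n (g, g') :=
        ev_mono_on (dlA N β h D0) (dl_inv hβ hh hlt4 hν) hle n (g, g') hmem
    _ = (((ENNReal.ofReal R1 * ev (hat2 β h) ν (fun q : E N × E N =>
          ENNReal.ofReal (dL q * (1 + B * ‖q.1‖ ^ (-(1 / 2) : ℝ)))) n (g, g') +
        ENNReal.ofReal (R1 / η) *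
          ev (hat2 β h) ν (fun q : E N × E N => ENNReal.ofReal (sA q)) n (g, g')) +
          ENNReal.ofReal (ε / 4)) +
        ENNReal.ofReal (1 / R1 ^ 2) *
          ev (hat2 β h) ν (fun q : E N × E N => ENNReal.ofReal (‖q.1‖ ^ 2)) n (g, g')) +
        ENNReal.ofReal (1 / R1 ^ 2) *
          ev (hat2 β h) ν (fun q : E N × E N => ENNReal.ofReal (‖q.2‖ ^ 2)) n (g, g') := by
        exact SMixA_lin hmeas2 hmV hmS hm1 hm2 _ _ _ _ _ n (g, g')
    _ ≤ (((ENNReal.ofReal R1 * ENNReal.ofReal ((1 - c * h) ^ n * V0) +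
        ENNReal.ofReal (R1 / η) * ENNReal.ofReal ((1 - 1 / 2 * h) ^ n * 2)) +
          ENNReal.ofReal (ε / 4)) +
        ENNReal.ofReal (1 / R1 ^ 2) * ENNReal.ofReal (R ^ 2 + K)) +
        ENNReal.ofReal (1 / R1 ^ 2) * ENNReal.ofReal (R ^ 2 + K) := by
        gcongr
    _ ≤ ENNReal.ofReal ε := by
        have p1 : 0 ≤ (1 - c * h) ^ n * V0 := mul_nonneg (pow_nonneg (by linarith) _) hV0n
        have p2 : 0 ≤ (1 - 1 / 2 * h) ^ n * 2 :=
          mul_nonneg (pow_nonneg (by linarith) _) (by norm_num)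
        rw [← ENNReal.ofReal_mul hR1p.le, ← ENNReal.ofReal_mul (by positivity),
          ← ENNReal.ofReal_mul (by positivity),
          ← ENNReal.ofReal_add (by positivity) (by positivity),
          ← ENNReal.ofReal_add (by positivity) (by positivity),
          ← ENNReal.ofReal_add (by positivity) (by positivity),
          ← ENNReal.ofReal_add (by positivity) (by positivity)]
        apply ENNReal.ofReal_le_ofReal
        have e1 : 1 / R1 ^ 2 * (R ^ 2 + K) = (R ^ 2 + K) / R1 ^ 2 := by ring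
        rw [e1]
        linarith

end DynS

end

/-! ### from `Lib_MP_36b788s.Three` -/

section

/-!
# THREE (`N ≥ 3`, `k = 0`)

PROOF.
* `site_mix`: `site_tight` for `ρ1, ρ2` with `ε/4` gives `r1,R1,r2,R2`; `r = min`, `R = max`; `ann_couple` with `ε/2`. Split the double integral: outside the annulus
  `{r ≤ ‖·‖ ≤ R}` for `g` or `g'` the integrand is `≤ 1` (`ev` of a function `≤ 1`), mass `≤ ε/4` each; inside it is `≤ ε/2`.
* `small_three`: given `ρ1, ρ2, R, J, CF, δ` (`k = 0`): `B = card (boxS d R)`, `ε = δ/(J·CF·B+1)`, `T0` of `site_mix`, `L0 = R`; `h0` of `site_mix` and of `nuT_noise`.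
  `pathE_pair`: `‖Φ G-Φ G'‖ₑ ≤ Σ_{i<M}ev (stp2 …) ‖F i p.1-F i p.2‖ₑ i (G,G')`, zero for `i ∉ I`, and for `i ∈ I` at most
  `Σ_{l1 x 0 ≤ R} ofReal CF·ev (hat2) (ofReal(min 1 ‖q.1-q.2‖)) i (G x,G' x)` (`ev_mono`, `ev_sum`, `ev_cmul`, `site_pair`). Integrate: for
  measurable `ψ : E N × E N → ℝ≥0∞`, `∫⁻∫⁻ψ(G x,G' x)dchainLaw₂ dchainLaw₁ = ∫⁻∫⁻ψ dlaw ρ2 dlaw ρ1` (`site_marg` twice), `T0 ≤ ih`. Total `≤ J·CF·B·ε ≤ δ`.
  The real double integral is bounded by the lower integrals (`integral_eq_lintegral_of_nonneg_ae`/`ofReal_integral_norm_eq_lintegral_enorm`, all bounded by `2`).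
-/

open MeasureTheory ProbabilityTheory Dyn
open scoped ENNReal

namespace DynS

private theorem Three_phi {N : ℕ} :
    Measurable (fun q : E N × E N => ENNReal.ofReal (min 1 ‖q.1 - q.2‖)) := by
  fun_prop

theorem site_mix {N : ℕ} (hN : 3 ≤ N) {β : ℝ} (hβ : 0 < β) (ρ1 ρ2 : Measure (E N))
    [IsProbabilityMeasure ρ1] [IsProbabilityMeasure ρ2] (h1 : ρ1 {0} = 0) (h2 : ρ2 {0} = 0)
    {ε : ℝ} (hε : 0 < ε) : ∃ T0 h0 : ℝ, 0 ≤ T0 ∧ 0 < h0 ∧ ∀ (h : ℝ) (ν : Measure (E N)), 0 < h →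
      h < h0 → IsNoise h ν → ∀ n1 n2 n : ℕ, T0 ≤ n * h →
        ∫⁻ g, ∫⁻ g', ev (hat2 β h) ν (fun q => ENNReal.ofReal (min 1 ‖q.1 - q.2‖)) n (g, g')
          ∂(law (hat β h) ν ρ2 n2) ∂(law (hat β h) ν ρ1 n1) ≤ ENNReal.ofReal ε := by
  obtain ⟨r1, R1, k1, hr1, hrR1, hk1, H1⟩ := site_tight hN hβ ρ1 h1 (ε := ε / 4) (by positivity)
  obtain ⟨r2, R2, k2, hr2, hrR2, hk2, H2⟩ := site_tight hN hβ ρ2 h2 (ε := ε / 4) (by positivity)
  obtain ⟨T0, k3, hT0, hk3, H3⟩ := ann_couple hN hβ (r := min r1 r2) (R := max R1 R2)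
    (lt_min hr1 hr2) ((min_le_left _ _).trans (hrR1.trans (le_max_left _ _))) (ε := ε / 2)
    (by positivity)
  refine ⟨T0, min k1 (min k2 k3), hT0, lt_min hk1 (lt_min hk2 hk3), ?_⟩
  intro h ν hh hlt hν n1 n2 n hn
  have hp := hν.prob
  have l1 : h < k1 := lt_of_lt_of_le hlt (min_le_left _ _)
  have l2 : h < k2 := lt_of_lt_of_le hlt ((min_le_right _ _).trans (min_le_left _ _))
  have l3 : h < k3 := lt_of_lt_of_le hlt ((min_le_right _ _).trans (min_le_right _ _))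
  have mh := measurable_hat (N := N) (β := β) (h := h) hβ hh.le
  have p1 : IsProbabilityMeasure (law (hat β h) ν ρ1 n1) := law_prob mh ρ1 n1
  have p2 : IsProbabilityMeasure (law (hat β h) ν ρ2 n2) := law_prob mh ρ2 n2
  set A : Set (E N) := {g | ‖g‖ < min r1 r2 ∨ max R1 R2 < ‖g‖} with hA
  have hAm : MeasurableSet A := by
    refine MeasurableSet.union ?_ ?_
    · exact measurableSet_lt measurable_norm measurable_const
    · exact measurableSet_lt measurable_const measurable_norm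
  have a1 : (law (hat β h) ν ρ1 n1) A ≤ ENNReal.ofReal (ε / 4) := by
    refine (measure_mono ?_).trans (H1 h ν hh l1 hν n1)
    rintro g (hg | hg)
    · exact Or.inl (lt_of_lt_of_le hg (min_le_left _ _))
    · exact Or.inr (lt_of_le_of_lt (le_max_left _ _) hg)
  have a2 : (law (hat β h) ν ρ2 n2) A ≤ ENNReal.ofReal (ε / 4) := by
    refine (measure_mono ?_).trans (H2 h ν hh l2 hν n2)
    rintro g (hg | hg)
    · exact Or.inl (lt_of_lt_of_le hg (min_le_right _ _))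
    · exact Or.inr (lt_of_le_of_lt (le_max_right _ _) hg)
  have key : ∀ g g' : E N,
      ev (hat2 β h) ν (fun q => ENNReal.ofReal (min 1 ‖q.1 - q.2‖)) n (g, g') ≤
        ENNReal.ofReal (ε / 2) + A.indicator 1 g + A.indicator 1 g' := by
    intro g g'
    have b1 : ev (hat2 β h) ν (fun q => ENNReal.ofReal (min 1 ‖q.1 - q.2‖)) n (g, g') ≤ 1 := by
      have e1 := ev_mono (f := hat2 β h) (μ := ν)
        (φ := fun q : E N × E N => ENNReal.ofReal (min 1 ‖q.1 - q.2‖)) (ψ := fun _ => 1)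
        (fun q => by
          rw [← ENNReal.ofReal_one]
          exact ENNReal.ofReal_le_ofReal (min_le_left _ _)) n (g, g')
      rw [ev_const] at e1
      exact e1
    by_cases hg : g ∈ A
    · refine b1.trans ?_
      rw [Set.indicator_of_mem hg]
      exact le_add_right (le_add_left le_rfl)
    · by_cases hg' : g' ∈ A
      · refine b1.trans ?_
        rw [Set.indicator_of_mem hg']
        exact le_add_left le_rfl
      · have c1 : min r1 r2 ≤ ‖g‖ := not_lt.1 fun hc => hg (Or.inl hc)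
        have c2 : ‖g‖ ≤ max R1 R2 := not_lt.1 fun hc => hg (Or.inr hc)
        have c3 : min r1 r2 ≤ ‖g'‖ := not_lt.1 fun hc => hg' (Or.inl hc)
        have c4 : ‖g'‖ ≤ max R1 R2 := not_lt.1 fun hc => hg' (Or.inr hc)
        refine (H3 h ν hh l3 hν n g g' hn c1 c2 c3 c4).trans ?_
        exact le_add_right (le_add_right le_rfl)
  have hi : Measurable (A.indicator (1 : E N → ℝ≥0∞)) := measurable_one.indicator hAm
  have inner : ∀ g : E N, ∫⁻ g', ev (hat2 β h) ν (fun q => ENNReal.ofReal (min 1 ‖q.1 - q.2‖)) n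
      (g, g') ∂(law (hat β h) ν ρ2 n2) ≤
        ENNReal.ofReal (ε / 2) + A.indicator 1 g + ENNReal.ofReal (ε / 4) := by
    intro g
    calc _ ≤ ∫⁻ g', (ENNReal.ofReal (ε / 2) + A.indicator 1 g + A.indicator 1 g')
          ∂(law (hat β h) ν ρ2 n2) := lintegral_mono fun g' => key g g'
      _ = ENNReal.ofReal (ε / 2) + A.indicator 1 g + (law (hat β h) ν ρ2 n2) A := by
          rw [lintegral_add_right _ hi, lintegral_const, measure_univ, mul_one,
            lintegral_indicator_one hAm]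
      _ ≤ _ := by gcongr
  calc _ ≤ ∫⁻ g, (ENNReal.ofReal (ε / 2) + A.indicator 1 g + ENNReal.ofReal (ε / 4))
        ∂(law (hat β h) ν ρ1 n1) := lintegral_mono inner
    _ = ENNReal.ofReal (ε / 2) + (law (hat β h) ν ρ1 n1) A + ENNReal.ofReal (ε / 4) := by
        rw [lintegral_add_right _ measurable_const, lintegral_add_right _ hi, lintegral_const,
          lintegral_const, measure_univ, mul_one, mul_one, lintegral_indicator_one hAm]
    _ ≤ ENNReal.ofReal (ε / 2) + ENNReal.ofReal (ε / 4) + ENNReal.ofReal (ε / 4) := by gcongr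
    _ = ENNReal.ofReal ε := by
        rw [← ENNReal.ofReal_add (by positivity) (by positivity),
          ← ENNReal.ofReal_add (by positivity) (by positivity)]
        congr 1
        ring

private theorem Three_one {N d R : ℕ} {β h : ℝ} (hβ : 0 < β) (hh : 0 ≤ h) {ν : Measure (E N)}
    [IsProbabilityMeasure ν] (ρ1 ρ2 : Measure (E N)) [IsProbabilityMeasure ρ1]
    [IsProbabilityMeasure ρ2] (n1 n2 n : ℕ) (x : boxS d R) :
    ∫⁻ G, ∫⁻ G', ev (hat2 β h) ν (fun q => ENNReal.ofReal (min 1 ‖q.1 - q.2‖)) n (G x, G' x)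
      ∂(chainLaw (boxNet d R) β h 0 ν (Measure.pi (fun _ => ρ2)) n2)
      ∂(chainLaw (boxNet d R) β h 0 ν (Measure.pi (fun _ => ρ1)) n1) =
    ∫⁻ g, ∫⁻ g', ev (hat2 β h) ν (fun q => ENNReal.ofReal (min 1 ‖q.1 - q.2‖)) n (g, g')
          ∂(law (hat β h) ν ρ2 n2) ∂(law (hat β h) ν ρ1 n1) := by
  have mh := measurable_hat (N := N) (β := β) (h := h) hβ hh
  have p2 : IsProbabilityMeasure (law (hat β h) ν ρ2 n2) := law_prob mh ρ2 n2
  have mD : Measurable (ev (hat2 β h) ν (fun q : E N × E N =>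
      ENNReal.ofReal (min 1 ‖q.1 - q.2‖)) n) :=
    ev_meas (measurable_hat2 hβ hh) Three_phi n
  have e1 : ∀ G : boxS d R → E N,
      ∫⁻ G', ev (hat2 β h) ν (fun q => ENNReal.ofReal (min 1 ‖q.1 - q.2‖)) n (G x, G' x)
        ∂(chainLaw (boxNet d R) β h 0 ν (Measure.pi (fun _ => ρ2)) n2) =
      ∫⁻ g', ev (hat2 β h) ν (fun q => ENNReal.ofReal (min 1 ‖q.1 - q.2‖)) n (G x, g')
        ∂(law (hat β h) ν ρ2 n2) := by
    intro G
    exact site_marg (boxNet d R) hβ hh ρ2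
      (φ := fun g' => ev (hat2 β h) ν (fun q => ENNReal.ofReal (min 1 ‖q.1 - q.2‖)) n (G x, g'))
      (mD.comp (measurable_const.prodMk measurable_id)) x n2
  simp only [e1]
  exact site_marg (boxNet d R) hβ hh ρ1
    (φ := fun g => ∫⁻ g', ev (hat2 β h) ν (fun q => ENNReal.ofReal (min 1 ‖q.1 - q.2‖)) n (g, g')
        ∂(law (hat β h) ν ρ2 n2)) (mD.lintegral_prod_right' ) x n1

private theorem Three_m1 {N d L : ℕ} (x : boxS d L) :
    Measurable (fun p : (boxS d L → E N) × (boxS d L → E N) => (p.1 x, p.2 x)) :=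
  ((measurable_pi_apply x).comp measurable_fst).prodMk ((measurable_pi_apply x).comp measurable_snd)

private theorem Three_m2 {N d L : ℕ} (x : boxS d L) :
    Measurable (fun p : (boxS d L → E N) × (boxS d L → E N) =>
      ENNReal.ofReal (min 1 ‖p.1 x - p.2 x‖)) := by
  have h1 : Measurable (fun p : (boxS d L → E N) × (boxS d L → E N) => p.1 x) :=
    (measurable_pi_apply x).comp measurable_fst
  have h2 : Measurable (fun p : (boxS d L → E N) × (boxS d L → E N) => p.2 x) :=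
    (measurable_pi_apply x).comp measurable_snd
  exact (measurable_const.min (h1.sub h2).norm).ennreal_ofReal

private theorem Three_term {N d L R : ℕ} {β h : ℝ} (hβ : 0 < β) (hh : 0 ≤ h) {ν : Measure (E N)}
    [IsProbabilityMeasure ν] {CF : ℝ} (hCF : 0 ≤ CF) (F : (boxS d L → E N) → ℂ)
    (hF : ∀ G G' : boxS d L → E N, ‖F G - F G'‖ ≤
        CF * ∑ x : boxS d L, (if l1 (x : Fin d → ℤ) 0 ≤ R then min 1 ‖G x - G' x‖ else 0))
    (i : ℕ) (G G' : boxS d L → E N) :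
    ev (stp2 (boxNet d L) β h 0) (pim (boxS d L) ν) (fun p => ‖F p.1 - F p.2‖ₑ) i (G, G') ≤
      ENNReal.ofReal CF * ∑ x : boxS d L,
        ev (hat2 β h) ν (fun q => ENNReal.ofReal (min 1 ‖q.1 - q.2‖)) i (G x, G' x) := by
  have hpp : IsProbabilityMeasure (pim (boxS d L) ν) := by
    unfold pim; infer_instance
  have ms := measurable_stp2 (N := N) (boxNet d L) hβ hh 0
  have pt : ∀ p : (boxS d L → E N) × (boxS d L → E N), ‖F p.1 - F p.2‖ₑ ≤
      ENNReal.ofReal CF * ∑ x : boxS d L, ENNReal.ofReal (min 1 ‖p.1 x - p.2 x‖) := by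
    intro p
    rw [← ofReal_norm]
    refine (ENNReal.ofReal_le_ofReal (hF p.1 p.2)).trans ?_
    rw [ENNReal.ofReal_mul hCF]
    refine mul_le_mul_right ?_ _
    rw [ENNReal.ofReal_sum_of_nonneg (fun x _ => by
      split_ifs
      · exact le_min zero_le_one (norm_nonneg _)
      · exact le_rfl)]
    refine Finset.sum_le_sum fun x _ => ENNReal.ofReal_le_ofReal ?_
    split_ifs
    · exact le_rfl
    · exact le_min zero_le_one (norm_nonneg _)
  refine (ev_mono pt i (G, G')).trans (le_of_eq ?_)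
  have e1 := ev_cmul (μ := pim (boxS d L) ν) ms (φ := fun p : (boxS d L → E N) × (boxS d L → E N) =>
    ∑ x : boxS d L, ENNReal.ofReal (min 1 ‖p.1 x - p.2 x‖))
    (Finset.measurable_sum _ fun x _ => Three_m2 x) (ENNReal.ofReal CF) i (G, G')
  have e2 := ev_sum (μ := pim (boxS d L) ν) ms (Finset.univ : Finset (boxS d L))
    (φ := fun (x : boxS d L) (p : (boxS d L → E N) × (boxS d L → E N)) =>
      ENNReal.ofReal (min 1 ‖p.1 x - p.2 x‖)) (fun x => Three_m2 x) i (G, G')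
  refine e1.trans ?_
  congr 1
  refine e2.trans ?_
  refine Finset.sum_congr rfl fun x _ => ?_
  exact site_pair (boxNet d L) hβ hh Three_phi x i G G'

private theorem Three_zero {N d L : ℕ} {β h : ℝ} {ν : Measure (E N)}
    [IsProbabilityMeasure ν] (F : (boxS d L → E N) → ℂ) (hF : F = fun _ => 1)
    (i : ℕ) (G G' : boxS d L → E N) :
    ev (stp2 (boxNet d L) β h 0) (pim (boxS d L) ν) (fun p => ‖F p.1 - F p.2‖ₑ) i (G, G') = 0 := by
  have hpp : IsProbabilityMeasure (pim (boxS d L) ν) := by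
    unfold pim; infer_instance
  subst hF
  have e1 : (fun p : (boxS d L → E N) × (boxS d L → E N) => ‖(1 : ℂ) - 1‖ₑ) = fun _ => 0 := by
    funext p
    simp
  show ev _ _ (fun p : (boxS d L → E N) × (boxS d L → E N) => ‖(1 : ℂ) - 1‖ₑ) i (G, G') = 0
  rw [e1]
  exact ev_const 0 i (G, G')

private theorem Three_sum {N d L : ℕ} (μ1 μ2 : Measure (boxS d L → E N)) [SFinite μ2]
    (S : Finset ℕ) (c : ℝ≥0∞) (D : ℕ → E N × E N → ℝ≥0∞) (mD : ∀ i, Measurable (D i)) :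
    ∫⁻ G, ∫⁻ G', (∑ i ∈ S, c * ∑ x : boxS d L, D i (G x, G' x)) ∂μ2 ∂μ1 =
      ∑ i ∈ S, c * ∑ x : boxS d L, ∫⁻ G, ∫⁻ G', D i (G x, G' x) ∂μ2 ∂μ1 := by
  have mx : ∀ i (x : boxS d L), Measurable (fun q : (boxS d L → E N) × (boxS d L → E N) =>
      D i (q.1 x, q.2 x)) := fun i x => (mD i).comp (Three_m1 x)
  have inner : ∀ G : boxS d L → E N,
      ∫⁻ G', (∑ i ∈ S, c * ∑ x : boxS d L, D i (G x, G' x)) ∂μ2 =
      ∑ i ∈ S, c * ∑ x : boxS d L, ∫⁻ G', D i (G x, G' x) ∂μ2 := by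
    intro G
    have mG : ∀ i (x : boxS d L), Measurable (fun G' : boxS d L → E N => D i (G x, G' x)) :=
      fun i x => (mx i x).comp (measurable_const.prodMk measurable_id)
    rw [lintegral_finsetSum _ (fun i _ => (Finset.measurable_sum _ fun x _ => mG i x).const_mul _)]
    refine Finset.sum_congr rfl fun i _ => ?_
    rw [lintegral_const_mul _ (Finset.measurable_sum _ fun x _ => mG i x),
      lintegral_finsetSum _ (fun x _ => mG i x)]
  have mi : ∀ i (x : boxS d L), Measurable (fun G : boxS d L → E N =>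
      ∫⁻ G', D i (G x, G' x) ∂μ2) := fun i x => (mx i x).lintegral_prod_right'
  simp only [inner]
  rw [lintegral_finsetSum _ (fun i _ => (Finset.measurable_sum _ fun x _ => mi i x).const_mul _)]
  refine Finset.sum_congr rfl fun i _ => ?_
  rw [lintegral_const_mul _ (Finset.measurable_sum _ fun x _ => mi i x),
    lintegral_finsetSum _ (fun x _ => mi i x)]

theorem small_three (N d : ℕ) (β : ℝ) (hN : 3 ≤ N) (hβ : 0 < β) :
    CMix N d β 0 (fun h => nuT N h) := by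
  intro ρ1 ρ2 _ _ hρ1 hρ2 _ _ R J CF δ hCF hδ
  set B : ℕ := (boxS d R).card with hB
  have hx0 : 0 ≤ (J : ℝ) * CF * B := by positivity
  set ε : ℝ := δ / ((J : ℝ) * CF * B + 1) with hεd
  have hε : 0 < ε := by positivity
  obtain ⟨T0, k1, hT0, hk1, H1⟩ := site_mix hN hβ ρ1 ρ2 hρ1 hρ2 hε
  obtain ⟨k2, hk2, H2⟩ := nuT_noise N (by omega)
  refine ⟨T0, R, hT0, le_rfl, fun _ => rfl, ?_⟩
  intro L hL _ Sm _
  obtain rfl : L = R := hL rfl
  refine ⟨min k1 k2, lt_min hk1 hk2, ?_⟩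
  intro h hh hlt n1 n2 M _ _ _ F I hI hFm hFb hFI hF
  have l1 : h < k1 := lt_of_lt_of_le hlt (min_le_left _ _)
  have l2 : h < k2 := lt_of_lt_of_le hlt (min_le_right _ _)
  have hν : IsNoise h (nuT N h) := H2 h hh l2
  have hp := hν.prob
  have q1 : IsProbabilityMeasure (chainLaw (boxNet d L) β h 0 (nuT N h)
    (Measure.pi (fun _ => ρ1)) n1) := chainLaw_prob hβ hh.le _ n1
  have q2 : IsProbabilityMeasure (chainLaw (boxNet d L) β h 0 (nuT N h)
    (Measure.pi (fun _ => ρ2)) n2) := chainLaw_prob hβ hh.le _ n2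
  obtain ⟨mP, bP⟩ := pathE_facts (net := boxNet d L) (k := 0) hβ hh.le (ν := nuT N h)
    ((List.range M).map F) (by
      intro f hf
      obtain ⟨i, _, rfl⟩ := List.mem_map.1 hf
      exact hFm i) (by
      intro f hf
      obtain ⟨i, _, rfl⟩ := List.mem_map.1 hf
      exact hFb i)
  set P := pathE (boxNet d L) β h 0 (nuT N h) ((List.range M).map F) with hP
  set μ1 := chainLaw (boxNet d L) β h 0 (nuT N h) (Measure.pi (fun _ => ρ1)) n1 with hμ1
  set μ2 := chainLaw (boxNet d L) β h 0 (nuT N h) (Measure.pi (fun _ => ρ2)) n2 with hμ2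
  -- reduction to lower integrals
  have mj : Measurable (fun q : (boxS d L → E N) × (boxS d L → E N) => ‖P q.1 - P q.2‖ₑ) := by
    fun_prop
  have b2 : ∀ G, ∫⁻ G', ‖P G - P G'‖ₑ ∂μ2 ≤ 2 := by
    intro G
    calc _ ≤ ∫⁻ _G', (2 : ℝ≥0∞) ∂μ2 := by
          refine lintegral_mono fun G' => ?_
          refine (enorm_sub_le).trans ?_
          have c1 : ‖P G‖ₑ ≤ 1 := by
            rw [← ofReal_norm, ← ENNReal.ofReal_one]
            exact ENNReal.ofReal_le_ofReal (bP G)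
          have c2 : ‖P G'‖ₑ ≤ 1 := by
            rw [← ofReal_norm, ← ENNReal.ofReal_one]
            exact ENNReal.ofReal_le_ofReal (bP G')
          calc _ ≤ (1 : ℝ≥0∞) + 1 := add_le_add c1 c2
            _ = 2 := one_add_one_eq_two
      _ = 2 := by simp
  have step : ∀ G G' : boxS d L → E N, ‖P G - P G'‖ₑ ≤
      ∑ i ∈ Finset.range M ∩ I, ENNReal.ofReal CF * ∑ x : boxS d L,
        ev (hat2 β h) (nuT N h) (fun q => ENNReal.ofReal (min 1 ‖q.1 - q.2‖)) i (G x, G' x) := by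
    intro G G'
    refine (pathE_pair (boxNet d L) hβ hh.le hν.iso M F hFm hFb G G').trans ?_
    rw [← Finset.sum_filter_add_sum_filter_not (Finset.range M) (fun i => i ∈ I),
      Finset.filter_mem_eq_inter]
    rw [Finset.sum_eq_zero (s := (Finset.range M).filter (fun i => ¬ i ∈ I)) fun i hi =>
      Three_zero (F i) (hFI i (Finset.mem_filter.1 hi).2) i G G', add_zero]
    exact Finset.sum_le_sum fun i hi =>
      Three_term hβ hh.le hCF (F i) (hF i (Finset.mem_inter.1 hi).2).2 i G G'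
  have main : ∫⁻ G, ∫⁻ G', ‖P G - P G'‖ₑ ∂μ2 ∂μ1 ≤ ENNReal.ofReal δ := by
    calc _ ≤ ∫⁻ G, ∫⁻ G', (∑ i ∈ Finset.range M ∩ I,
            ENNReal.ofReal CF * ∑ x : boxS d L,
              ev (hat2 β h) (nuT N h) (fun q => ENNReal.ofReal (min 1 ‖q.1 - q.2‖)) i
                (G x, G' x)) ∂μ2 ∂μ1 :=
          lintegral_mono fun G => lintegral_mono fun G' => step G G'
      _ = ∑ i ∈ Finset.range M ∩ I, ENNReal.ofReal CF * ∑ x : boxS d L,
          ∫⁻ G, ∫⁻ G', ev (hat2 β h) (nuT N h) (fun q => ENNReal.ofReal (min 1 ‖q.1 - q.2‖)) i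
                (G x, G' x) ∂μ2 ∂μ1 :=
          Three_sum μ1 μ2 _ _ (fun i => ev (hat2 β h) (nuT N h)
            (fun q => ENNReal.ofReal (min 1 ‖q.1 - q.2‖)) i)
            (fun i => ev_meas (measurable_hat2 hβ hh.le) Three_phi i)
      _ ≤ ∑ _i ∈ Finset.range M ∩ I, ENNReal.ofReal CF * ∑ _x : boxS d L, ENNReal.ofReal ε := by
          refine Finset.sum_le_sum fun i hi => mul_le_mul_right (Finset.sum_le_sum fun x _ => ?_) _
          rw [hμ1, hμ2, Three_one hβ hh.le ρ1 ρ2 n1 n2 i x]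
          exact H1 h (nuT N h) hh l1 hν n1 n2 i (hF i (Finset.mem_inter.1 hi).2).1
      _ = ((Finset.range M ∩ I).card : ℝ≥0∞) * (ENNReal.ofReal CF * (B * ENNReal.ofReal ε)) := by
          rw [Finset.sum_const, nsmul_eq_mul, Finset.sum_const, nsmul_eq_mul, Finset.card_univ,
            Fintype.card_coe]
      _ ≤ (J : ℝ≥0∞) * (ENNReal.ofReal CF * (B * ENNReal.ofReal ε)) := by
          refine mul_le_mul_left ?_ _
          exact_mod_cast (Finset.card_le_card Finset.inter_subset_right).trans hI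
      _ = ENNReal.ofReal ((J : ℝ) * CF * B * ε) := by
          rw [ENNReal.ofReal_mul (by positivity), ENNReal.ofReal_mul (by positivity),
            ENNReal.ofReal_mul (by positivity), ENNReal.ofReal_natCast, ENNReal.ofReal_natCast]
          ring
      _ ≤ ENNReal.ofReal δ := by
          refine ENNReal.ofReal_le_ofReal ?_
          rw [hεd, mul_div_assoc', div_le_iff₀ (by positivity)]
          nlinarith
  have e1 : ∀ G, ∫ G', ‖P G - P G'‖ ∂μ2 = (∫⁻ G', ‖P G - P G'‖ₑ ∂μ2).toReal := by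
    intro G
    refine integral_norm_eq_lintegral_enorm ?_
    exact (measurable_const.sub mP).aestronglyMeasurable
  show ∫ G, ∫ G', ‖P G - P G'‖ ∂μ2 ∂μ1 ≤ δ
  simp only [e1]
  rw [integral_toReal (mj.lintegral_prod_right').aemeasurable
    (Filter.Eventually.of_forall fun G => lt_of_le_of_lt (b2 G) (by norm_num))]
  exact ENNReal.toReal_le_of_le_ofReal hδ.le main

end DynS

end

/-! ### from `Lib_MP_36b788s.YchA` -/

section

/-!
# YCH, part A (`N = 2`): the chain `Y ↦ ζ^{-β}Y + h`, one step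

Notation `a = ζ^{-β}`, `ζ = ‖e+√hξ‖ ∈ [9/10, 11/10]` a.e., `|log ζ| ≤ 2h^{3/8}` (`zeta_ae`), `p = y/(1+y) ∈ [0,1)`, `f(y) = log(1+y)`.
`N = 2`: `E log ζ = O(h^{9/8})`, `E log²ζ = h+O(h^{9/8})` (`logz`), `E a = 1+β²h/2+O(h^{9/8})`, `E a² = 1+2β²h+O(h^{9/8})` (`zeta_pow` with `q = -β, -2β`).

PROOF of `ych_log`: `log(1+ay) = f(y)+log((1-p)+pa) ≥ f(y)+p log a` (concavity of `log`), `p E log a = -βp E log ζ ≥ -βC₁h^{9/8}`.
`log(1+ay+h)-log(1+ay) ≥ h/(1+ay+h)`; for small `h`, `a ≤ 3/2`, `h ≤ 1/2`: `1+ay+h ≤ 2(1+y)`; for `y < K` this is `≥ h/(2(1+K))`. So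
`f(y)+h/(2(1+K))1_{y<K} ≤ E f(ay+h)+βC₁h^{9/8}`. (`a ≤ 3/2`: `a = e^{-β log ζ} ≤ e^{2βh^{3/8}}`.) For `K < 0` the indicator is `0` (`y ≥ 0`).
Pass to `∫⁻` (`ofReal_integral_eq_lintegral_ofReal`, everything bounded a.e. for fixed `y`).

PROOF of `ych_sq`: `Δ = log(1+ay+h)-log(1+y) = log(1+p(a-1)+s)`, `s = h/(1+y)`.
`Δ ≤ log(1+p(a-1))+s/(1+p(a-1)) ≤ log(1+p(a-1))+2s` (`1+p(a-1) ≥ 1/2`), `log(1+x) ≤ x-x²/2+x³/3 ` (`x = p(a-1)`, `|x| ≤ 1/2`), so
`E Δ ≤ p E(a-1) - (p²/2)E(a-1)² + E|a-1|³+2s ≤ p(1-p)(β²/2)h+Ch^{9/8}+2h/(1+y) ≤ (β²/2+2)h/(1+y)+Ch^{9/8}` since `E(a-1)² = E a²-2E a+1 = β²h+O(h^{9/8})`,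
`E|a-1|³ ≤ Ch^{3/8}E(a-1)²` (`|a-1| ≤ C h^{3/8}`), `1-p = 1/(1+y)`.
`|Δ| ≤ |log a|+h` (`min(1,a) ≤ 1+p(a-1)+s ≤ max(1,a)(1+h)`), so `E Δ² ≤ 2β²E log²ζ+2h² ≤ Ch`.
`E f(ay+h)² = f²+2fEΔ+EΔ² ≤ f²+2f(C h/(1+y)+Ch^{9/8})+Ch ≤ (1+Ch^{9/8})f²+C'h` as `f ≥ 0`, `f/(1+y) ≤ 1`, `2f ≤ 1+f²`, `h^{9/8} ≤ h`.
(If `E Δ` is negative the upper bound is still valid because `f ≥ 0`.)
-/

open MeasureTheory ProbabilityTheory Dyn
open scoped ENNReal

namespace DynS

noncomputable section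

/-- chain `Y ↦ ζ^{-β} Y + h` -/
def ych (β h : ℝ) (e : E 2) (y : ℝ) (ξ : E 2) : ℝ := ‖e + Real.sqrt h • ξ‖ ^ (-β) * y + h

theorem measurable_ych (β h : ℝ) (e : E 2) :
    Measurable (fun q : ℝ × E 2 => ych β h e q.1 q.2) := by
  unfold ych
  have h1 : Measurable (fun q : ℝ × E 2 => ‖e + Real.sqrt h • q.2‖) := by fun_prop
  exact ((h1.pow_const (-β)).mul measurable_fst).add_const h

private theorem YchA_small (c : ℝ) (hc : 0 < c) : ∃ h0 : ℝ, 0 < h0 ∧ ∀ h : ℝ, 0 < h → h < h0 →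
    h ^ (3 / 8 : ℝ) ≤ c := by
  refine ⟨c ^ (8 / 3 : ℝ), Real.rpow_pos_of_pos hc _, fun h hh hlt => ?_⟩
  have h1 := Real.rpow_le_rpow hh.le hlt.le (show (0 : ℝ) ≤ 3 / 8 by norm_num)
  rw [← Real.rpow_mul hc.le] at h1
  norm_num at h1
  exact h1

/-- pointwise facts on `a = ζ^{-β}` -/
private theorem YchA_pt {β ℓ ζ : ℝ} (hβ : 0 < β) (hβℓ : 2 * β * ℓ ≤ 1 / 4)
    (hζ : 0 < ζ) (hL : |Real.log ζ| ≤ 2 * ℓ) :
    3 / 4 ≤ ζ ^ (-β) ∧ ζ ^ (-β) ≤ 3 / 2 ∧ |ζ ^ (-β) - 1| ≤ 4 * β * ℓ ∧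
      Real.log (ζ ^ (-β)) = -β * Real.log ζ := by
  have hlog : Real.log (ζ ^ (-β)) = -β * Real.log ζ := Real.log_rpow hζ _
  have ha : ζ ^ (-β) = Real.exp (-β * Real.log ζ) := by
    rw [Real.rpow_def_of_pos hζ]; ring_nf
  set t := -β * Real.log ζ with ht
  have htb : |t| ≤ 2 * β * ℓ := by
    rw [ht, abs_mul, abs_neg, abs_of_pos hβ]
    nlinarith [abs_nonneg (Real.log ζ)]
  have ht4 : |t| ≤ 1 / 4 := htb.trans hβℓ
  rw [abs_le] at ht4
  refine ⟨?_, ?_, ?_, hlog⟩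
  · rw [ha]
    have := Real.add_one_le_exp t
    linarith [ht4.1]
  · rw [ha]
    have h1 := Real.exp_bound_div_one_sub_of_interval (x := |t|) (abs_nonneg _)
      (by have := abs_le.mpr ht4; linarith)
    have h2 : Real.exp t ≤ Real.exp |t| := Real.exp_le_exp.mpr (le_abs_self t)
    have h3 : 1 / (1 - |t|) ≤ 3 / 2 := by
      have := abs_le.mpr ht4
      rw [div_le_iff₀ (by linarith)]
      linarith
    linarith
  · rw [ha]
    have h1 := Real.abs_exp_sub_one_le (x := t) (by rw [abs_le]; constructor <;> linarith [ht4.1, ht4.2])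
    calc |Real.exp t - 1| ≤ 2 * |t| := h1
      _ ≤ 4 * β * ℓ := by linarith

private theorem YchA_ae {β : ℝ} (hβ : 0 < β) : ∃ h0 : ℝ, 0 < h0 ∧ h0 ≤ 1 / 1000 ∧
    ∀ (h : ℝ) (ν : Measure (E 2)), 0 < h → h < h0 → IsNoise h ν → ∀ e : E 2, ‖e‖ = 1 →
      ∀ᵐ ξ ∂ν, 0 < ‖e + Real.sqrt h • ξ‖ ∧
        |Real.log ‖e + Real.sqrt h • ξ‖| ≤ 2 * h ^ (3 / 8 : ℝ) ∧
        3 / 4 ≤ ‖e + Real.sqrt h • ξ‖ ^ (-β) ∧ ‖e + Real.sqrt h • ξ‖ ^ (-β) ≤ 3 / 2 ∧
        |‖e + Real.sqrt h • ξ‖ ^ (-β) - 1| ≤ 4 * β * h ^ (3 / 8 : ℝ) ∧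
        Real.log (‖e + Real.sqrt h • ξ‖ ^ (-β)) = -β * Real.log ‖e + Real.sqrt h • ξ‖ := by
  obtain ⟨h1, hh1, hle, H⟩ := zeta_ae 2
  obtain ⟨h2, hh2, H2⟩ := YchA_small (1 / (8 * β)) (by positivity)
  refine ⟨min h1 h2, lt_min hh1 hh2, (min_le_left _ _).trans hle, ?_⟩
  intro h ν hh hlt hν e he
  filter_upwards [H h ν hh (lt_of_lt_of_le hlt (min_le_left _ _)) hν e he] with ξ hξ
  obtain ⟨ha, hb, hc⟩ := hξ
  rw [abs_le] at ha
  have hζ : 0 < ‖e + Real.sqrt h • ξ‖ := by linarith [ha.1]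
  have h3 := H2 h hh (lt_of_lt_of_le hlt (min_le_right _ _))
  have h4 : 2 * β * h ^ (3 / 8 : ℝ) ≤ 1 / 4 := by
    rw [le_div_iff₀ (by positivity)] at h3
    linarith
  obtain ⟨p1, p2, p3, p4⟩ := YchA_pt hβ h4 hζ hb
  exact ⟨hζ, hb, p1, p2, p3, p4⟩

private theorem YchA_meas (h : ℝ) (e : E 2) : Measurable (fun ξ : E 2 => ‖e + Real.sqrt h • ξ‖) := by
  fun_prop

open Classical in
theorem ych_log (β : ℝ) (hβ : 0 < β) : ∃ C h0 : ℝ, 0 < C ∧ 0 < h0 ∧
    ∀ (h : ℝ) (ν : Measure (E 2)), 0 < h → h < h0 → IsNoise h ν → ∀ e : E 2, ‖e‖ = 1 →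
      ∀ K y : ℝ, 0 ≤ y →
        ENNReal.ofReal (Real.log (1 + y)) +
            ENNReal.ofReal (h / (2 * (1 + K))) * (if y < K then 1 else 0) ≤
          ∫⁻ ξ, ENNReal.ofReal (Real.log (1 + ych β h e y ξ)) ∂ν +
            ENNReal.ofReal (C * h ^ (9 / 8 : ℝ)) := by
  obtain ⟨h1, hh1, hle1, H1⟩ := YchA_ae hβ
  obtain ⟨C2, h2, hC2, hh2, H2⟩ := logz 2 (by norm_num)
  refine ⟨β * C2, min h1 h2, by positivity, lt_min hh1 hh2, ?_⟩
  intro h ν hh hlt hν e he K y hy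
  have hlt1 := lt_of_lt_of_le hlt (min_le_left _ _)
  have hlt2 := lt_of_lt_of_le hlt (min_le_right _ _)
  have hprob := hν.prob
  have hae := H1 h ν hh hlt1 hν e he
  have hm := (H2 h ν hh hlt2 hν e he).1
  have hh3 : h < 1 / 1000 := lt_of_lt_of_le hlt1 hle1
  have hH0 : 0 ≤ h ^ (9 / 8 : ℝ) := (Real.rpow_pos_of_pos hh _).le
  set p : ℝ := y / (1 + y) with hp
  have hy1 : 0 < 1 + y := by linarith
  have hp0 : 0 ≤ p := by positivity
  have hp1 : p ≤ 1 := by rw [hp, div_le_one hy1]; linarith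
  set G : ℝ := if y < K then h / (2 * (1 + K)) else 0 with hG
  have hG0 : 0 ≤ G := by
    rw [hG]; split_ifs with hK
    · have : 0 < 1 + K := by linarith
      positivity
    · exact le_rfl
  have hfm : Measurable (fun ξ => Real.log (1 + ych β h e y ξ)) := by
    have h5 := (measurable_ych β h e).comp (measurable_const.prodMk measurable_id : Measurable (fun ξ : E 2 => (y, ξ)))
    exact Real.measurable_log.comp (h5.const_add 1)
  -- bounds
  have hbd : ∀ᵐ ξ ∂ν, 0 ≤ Real.log (1 + ych β h e y ξ) ∧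
      Real.log (1 + ych β h e y ξ) ≤ 2 + 2 * y := by
    filter_upwards [hae] with ξ hξ
    obtain ⟨_, _, p1, p2, _, _⟩ := hξ
    unfold ych
    have h6 : 0 ≤ ‖e + Real.sqrt h • ξ‖ ^ (-β) * y := mul_nonneg (by linarith) hy
    have h7 : ‖e + Real.sqrt h • ξ‖ ^ (-β) * y ≤ 3 / 2 * y := mul_le_mul_of_nonneg_right p2 hy
    constructor
    · exact Real.log_nonneg (by linarith)
    · refine (Real.log_le_sub_one_of_pos (by linarith)).trans ?_
      linarith
  have hint : Integrable (fun ξ => Real.log (1 + ych β h e y ξ)) ν := by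
    refine Integrable.of_bound (C := 2 + 2 * y) hfm.aestronglyMeasurable ?_
    filter_upwards [hbd] with ξ hξ
    rw [Real.norm_eq_abs, abs_of_nonneg hξ.1]
    exact hξ.2
  have hlint : Integrable (fun ξ : E 2 => Real.log ‖e + Real.sqrt h • ξ‖) ν := by
    refine Integrable.of_bound (C := 2 * h ^ (3 / 8 : ℝ))
      (Real.measurable_log.comp (YchA_meas h e)).aestronglyMeasurable ?_
    filter_upwards [hae] with ξ hξ
    exact hξ.2.1
  rw [← ofReal_integral_eq_lintegral_ofReal hint (hbd.mono fun ξ hξ => hξ.1)]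
  -- pointwise lower bound
  have hlow : ∀ᵐ ξ ∂ν, Real.log (1 + y) + p * (-β * Real.log ‖e + Real.sqrt h • ξ‖) + G ≤
      Real.log (1 + ych β h e y ξ) := by
    filter_upwards [hae] with ξ hξ
    obtain ⟨hζ, _, p1, p2, _, p4⟩ := hξ
    rw [← p4]
    unfold ych
    set a := ‖e + Real.sqrt h • ξ‖ ^ (-β) with ha
    have ha0 : 0 < a := by linarith
    have hay : 0 < 1 + a * y := by positivity
    -- concavity
    have hc1 : Real.log (1 + y) + p * Real.log a ≤ Real.log (1 + a * y) := by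
      have h8 : (1 + a * y) = (1 + y) * ((1 - p) * 1 + p * a) := by
        rw [hp]; field_simp; ring
      have h9 : 0 < (1 - p) * 1 + p * a := by
        by_contra hneg
        push Not at hneg
        have : (1 + y) * ((1 - p) * 1 + p * a) ≤ 0 := mul_nonpos_of_nonneg_of_nonpos hy1.le hneg
        linarith
      rw [h8, Real.log_mul hy1.ne' h9.ne']
      have h10 := strictConcaveOn_log_Ioi.concaveOn.2 (Set.mem_Ioi.mpr (zero_lt_one' ℝ))
        (Set.mem_Ioi.mpr ha0) (by linarith : (0 : ℝ) ≤ 1 - p) hp0 (by ring)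
      simp only [smul_eq_mul, Real.log_one, mul_zero, zero_add] at h10
      linarith
    -- gain
    have hc2 : G ≤ Real.log (1 + (a * y + h)) - Real.log (1 + a * y) := by
      have h11 : 0 < 1 + (a * y + h) := by linarith
      have h12 : h / (1 + (a * y + h)) ≤ Real.log (1 + (a * y + h)) - Real.log (1 + a * y) := by
        rw [← Real.log_div h11.ne' hay.ne']
        have h13 := Real.one_sub_inv_le_log_of_pos (x := (1 + (a * y + h)) / (1 + a * y)) (by positivity)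
        have h14 : 1 - ((1 + (a * y + h)) / (1 + a * y))⁻¹ = h / (1 + (a * y + h)) := by
          field_simp; ring
        linarith
      refine le_trans ?_ h12
      rw [hG]
      split_ifs with hK
      · have hay2 : a * y ≤ 3 / 2 * y := mul_le_mul_of_nonneg_right p2 hy
        apply div_le_div_of_nonneg_left hh.le h11
        linarith
      · positivity
    linarith
  have hlb : Real.log (1 + y) + p * (-β * ∫ ξ, Real.log ‖e + Real.sqrt h • ξ‖ ∂ν) + G ≤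
      ∫ ξ, Real.log (1 + ych β h e y ξ) ∂ν := by
    have h15 : ∫ ξ, (Real.log (1 + y) + p * (-β * Real.log ‖e + Real.sqrt h • ξ‖) + G) ∂ν =
        Real.log (1 + y) + p * (-β * ∫ ξ, Real.log ‖e + Real.sqrt h • ξ‖ ∂ν) + G := by
      have i1 : Integrable (fun ξ : E 2 => p * (-β * Real.log ‖e + Real.sqrt h • ξ‖)) ν :=
        (hlint.const_mul (-β)).const_mul p
      have i2 : Integrable (fun ξ : E 2 => Real.log (1 + y) + p * (-β * Real.log ‖e + Real.sqrt h • ξ‖)) ν :=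
        (integrable_const _).add i1
      rw [integral_add i2 (integrable_const _), integral_add (integrable_const _) i1,
        integral_const_mul, integral_const_mul]
      simp
    rw [← h15]
    refine integral_mono_ae ?_ hint hlow
    exact ((integrable_const _).add ((hlint.const_mul (-β)).const_mul p)).add (integrable_const _)
  have hm' : ∫ ξ, Real.log ‖e + Real.sqrt h • ξ‖ ∂ν ≤ C2 * h ^ (9 / 8 : ℝ) := by
    have := (abs_le.mp hm).2
    push_cast at this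
    linarith
  have hfin : Real.log (1 + y) + G ≤ ∫ ξ, Real.log (1 + ych β h e y ξ) ∂ν +
      β * C2 * h ^ (9 / 8 : ℝ) := by
    have h16 : -(β * C2 * h ^ (9 / 8 : ℝ)) ≤ p * (-β * ∫ ξ, Real.log ‖e + Real.sqrt h • ξ‖ ∂ν) := by
      have h17 : p * (β * ∫ ξ, Real.log ‖e + Real.sqrt h • ξ‖ ∂ν) ≤ β * C2 * h ^ (9 / 8 : ℝ) := by
        calc p * (β * ∫ ξ, Real.log ‖e + Real.sqrt h • ξ‖ ∂ν)
            ≤ p * (β * (C2 * h ^ (9 / 8 : ℝ))) := by gcongr
          _ ≤ 1 * (β * (C2 * h ^ (9 / 8 : ℝ))) := by gcongr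
          _ = _ := by ring
      linarith
    linarith
  have hleft : ENNReal.ofReal (Real.log (1 + y)) +
      ENNReal.ofReal (h / (2 * (1 + K))) * (if y < K then 1 else 0) =
      ENNReal.ofReal (Real.log (1 + y) + G) := by
    rw [ENNReal.ofReal_add (Real.log_nonneg (by linarith)) hG0]
    congr 1
    rw [hG]
    split_ifs <;> simp
  rw [hleft, ← ENNReal.ofReal_add (integral_nonneg_of_ae (hbd.mono fun ξ hξ => hξ.1)) (by positivity)]
  exact ENNReal.ofReal_le_ofReal hfin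

/-- pointwise upper bound for the square -/
private theorem YchA_up {β h ℓ y ζ a p s : ℝ} (hβ : 0 < β) (hh : 0 < h) (hβℓ : 4 * β * ℓ ≤ 1 / 2) (hy : 0 ≤ y) (ha0 : 3 / 4 ≤ a)
    (ha3 : |a - 1| ≤ 4 * β * ℓ) (hla : Real.log a = -β * Real.log ζ)
    (hp : p = y / (1 + y)) (hs : s = h / (1 + y)) :
    (Real.log (1 + (a * y + h))) ^ 2 ≤ (Real.log (1 + y)) ^ 2 +
      2 * Real.log (1 + y) * (p * (a - 1) - p ^ 2 / 2 * (a - 1) ^ 2 +
        8 * β * ℓ * (a - 1) ^ 2 + 2 * s) + (2 * β ^ 2 * (Real.log ζ) ^ 2 + 2 * h ^ 2) := by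
  have hy1 : 0 < 1 + y := by linarith
  have hp0 : 0 ≤ p := by rw [hp]; positivity
  have hp1 : p ≤ 1 := by rw [hp, div_le_one hy1]; linarith
  have hs0 : 0 ≤ s := by rw [hs]; positivity
  have hsh : s ≤ h := by rw [hs]; exact div_le_self hh.le (by linarith)
  have hf0 : 0 ≤ Real.log (1 + y) := Real.log_nonneg (by linarith)
  set x := p * (a - 1) with hx
  have hxa : |x| ≤ |a - 1| := by
    rw [hx, abs_mul, abs_of_nonneg hp0]
    exact mul_le_of_le_one_left (abs_nonneg _) hp1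
  have hx2 : |x| ≤ 1 / 2 := hxa.trans (ha3.trans hβℓ)
  have hx2' := abs_le.mp hx2
  have h1x : 0 < 1 + x := by linarith [hx2'.1]
  have hfac : 1 + (a * y + h) = (1 + y) * (1 + x + s) := by
    rw [hx, hp, hs]; field_simp; ring
  have hpos : 0 < 1 + x + s := by linarith
  have hΔ : Real.log (1 + (a * y + h)) = Real.log (1 + y) + Real.log (1 + x + s) := by
    rw [hfac, Real.log_mul hy1.ne' hpos.ne']
  set D := Real.log (1 + x + s) with hD
  -- upper bound of D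
  have hD1 : D ≤ x - x ^ 2 / 2 + 2 * |x| ^ 3 + 2 * s := by
    have h1 : D ≤ Real.log (1 + x) + 2 * s := by
      have h2 : Real.log (1 + x + s) - Real.log (1 + x) ≤ s / (1 + x) := by
        rw [← Real.log_div hpos.ne' h1x.ne']
        refine (Real.log_le_sub_one_of_pos (by positivity)).trans (le_of_eq ?_)
        field_simp; ring
      have h3 : s / (1 + x) ≤ 2 * s := by
        rw [div_le_iff₀ h1x]
        nlinarith [hx2'.1]
      linarith
    have h4 := (abs_le.mp (LogZ_r1 hx2)).2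
    linarith
  have hD2 : D ≤ x - p ^ 2 / 2 * (a - 1) ^ 2 + 8 * β * ℓ * (a - 1) ^ 2 + 2 * s := by
    have h5 : x ^ 2 / 2 = p ^ 2 / 2 * (a - 1) ^ 2 := by rw [hx]; ring
    have h6 : |x| ^ 3 ≤ 4 * β * ℓ * (a - 1) ^ 2 := by
      calc |x| ^ 3 ≤ |a - 1| ^ 3 := pow_le_pow_left₀ (abs_nonneg _) hxa 3
        _ = |a - 1| * (a - 1) ^ 2 := by rw [← sq_abs (a - 1)]; ring
        _ ≤ 4 * β * ℓ * (a - 1) ^ 2 := mul_le_mul_of_nonneg_right ha3 (sq_nonneg _)
    rw [h5] at hD1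
    linarith
  -- absolute value of D
  have ha00 : 0 < a := by linarith
  have hD3 : |D| ≤ β * |Real.log ζ| + h := by
    have hla' : |Real.log a| = β * |Real.log ζ| := by
      rw [hla, abs_mul, abs_neg, abs_of_pos hβ]
    rw [← hla', abs_le]
    constructor
    · have h7 : min 1 a ≤ 1 + x + s := by
        rcases le_total 1 a with h8 | h8
        · rw [min_eq_left h8]
          have : 0 ≤ x := mul_nonneg hp0 (by linarith)
          linarith
        · rw [min_eq_right h8]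
          have : a - 1 ≤ x := by
            rw [hx]; nlinarith
          linarith
      have h9 : Real.log (min 1 a) ≤ D := Real.log_le_log (lt_min one_pos ha00) h7
      have h10 : -|Real.log a| ≤ Real.log (min 1 a) := by
        rcases le_total 1 a with h8 | h8
        · rw [min_eq_left h8, Real.log_one]
          linarith [abs_nonneg (Real.log a)]
        · rw [min_eq_right h8]
          exact neg_abs_le _
      linarith
    · have h7 : 1 + x + s ≤ max 1 a * (1 + h) := by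
        have h11 : 1 + x ≤ max 1 a := by
          rcases le_total 1 a with h8 | h8
          · rw [max_eq_right h8, hx]; nlinarith
          · rw [max_eq_left h8, hx]; nlinarith
        have h12 : 1 ≤ max 1 a := le_max_left _ _
        nlinarith
      have h9 : D ≤ Real.log (max 1 a * (1 + h)) := Real.log_le_log hpos h7
      rw [Real.log_mul (by positivity) (by positivity)] at h9
      have h13 : Real.log (1 + h) ≤ h := by
        have := Real.log_le_sub_one_of_pos (x := 1 + h) (by linarith)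
        linarith
      have h14 : Real.log (max 1 a) ≤ |Real.log a| := by
        rcases le_total 1 a with h8 | h8
        · rw [max_eq_right h8]; exact le_abs_self _
        · rw [max_eq_left h8, Real.log_one]; exact abs_nonneg _
      linarith
  have hD4 : D ^ 2 ≤ 2 * β ^ 2 * (Real.log ζ) ^ 2 + 2 * h ^ 2 := by
    rw [← sq_abs D, ← sq_abs (Real.log ζ)]
    have h15 := pow_le_pow_left₀ (abs_nonneg D) hD3 2
    nlinarith [sq_nonneg (β * |Real.log ζ| - h)]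
  rw [hΔ]
  have h16 : 2 * Real.log (1 + y) * D ≤ 2 * Real.log (1 + y) *
      (x - p ^ 2 / 2 * (a - 1) ^ 2 + 8 * β * ℓ * (a - 1) ^ 2 + 2 * s) :=
    mul_le_mul_of_nonneg_left hD2 (by positivity)
  nlinarith

/-- the numerical inequality -/
private theorem YchA_num {β h H ℓ y f p s A1 A2 L2 C1 C2 C3 : ℝ} (hβ : 0 < β) (hh : 0 < h)
    (hh1 : h ≤ 1) (hℓ : 0 ≤ ℓ) (hH0 : 0 ≤ H) (hHh : H ≤ h) (hℓh : ℓ * h ≤ H) (hℓH : ℓ * H ≤ H)
    (hy : 0 ≤ y) (hf0 : 0 ≤ f) (hfy : f ≤ 1 + y) (hp : p = y / (1 + y)) (hs : s = h / (1 + y))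
    (hC1 : 0 < C1) (hC2 : 0 < C2) (hC3 : 0 < C3)
    (hA1 : |A1 - 1 - β ^ 2 / 2 * h| ≤ C2 * H) (hA2 : |A2 - 1 - 2 * β ^ 2 * h| ≤ C3 * H)
    (hL2 : |L2 - h| ≤ C1 * H) :
    f ^ 2 + 2 * f * (p * (A1 - 1) - p ^ 2 / 2 * (A2 - 2 * A1 + 1) +
        8 * β * ℓ * (A2 - 2 * A1 + 1) + 2 * s) + (2 * β ^ 2 * L2 + 2 * h ^ 2) ≤
      (1 + (C2 + (C3 + 2 * C2) / 2 + 8 * β * (β ^ 2 + C3 + 2 * C2) + (3 * β ^ 2 + 6 + 2 * β ^ 2 * C1)) * H) * f ^ 2 +
        (C2 + (C3 + 2 * C2) / 2 + 8 * β * (β ^ 2 + C3 + 2 * C2) + (3 * β ^ 2 + 6 + 2 * β ^ 2 * C1)) * h := by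
  have hy1 : 0 < 1 + y := by linarith
  have hp0 : 0 ≤ p := by rw [hp]; positivity
  have hp1 : p ≤ 1 := by rw [hp, div_le_one hy1]; linarith
  have h1p : 1 - p = 1 / (1 + y) := by rw [hp]; field_simp; ring
  rw [abs_le] at hA1 hA2 hL2
  set C4 := C2 + (C3 + 2 * C2) / 2 + 8 * β * (β ^ 2 + C3 + 2 * C2) with hC4
  have hC40 : 0 ≤ C4 := by positivity
  set v := A2 - 2 * A1 + 1 with hv
  have hv1 : v ≤ β ^ 2 * h + (C3 + 2 * C2) * H := by
    rw [hv]; nlinarith [hA1.1, hA2.2]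
  have hv2 : β ^ 2 * h - (C3 + 2 * C2) * H ≤ v := by
    rw [hv]; nlinarith [hA1.2, hA2.1]
  have t1 : p * (A1 - 1) ≤ p * (β ^ 2 / 2 * h) + C2 * H := by
    have := mul_le_mul_of_nonneg_left (show A1 - 1 ≤ β ^ 2 / 2 * h + C2 * H by linarith [hA1.2]) hp0
    have h2 : p * (C2 * H) ≤ C2 * H := mul_le_of_le_one_left (by positivity) hp1
    linarith
  have hpp : p ^ 2 ≤ 1 := pow_le_one₀ hp0 hp1
  have t2 : -(p ^ 2 / 2 * v) ≤ -(p ^ 2 / 2 * (β ^ 2 * h)) + (C3 + 2 * C2) / 2 * H := by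
    have h3 := mul_le_mul_of_nonneg_left hv2 (show 0 ≤ p ^ 2 / 2 by positivity)
    have h4 : p ^ 2 / 2 * ((C3 + 2 * C2) * H) ≤ 1 / 2 * ((C3 + 2 * C2) * H) :=
      mul_le_mul_of_nonneg_right (by linarith) (by positivity)
    linarith
  have t3 : 8 * β * ℓ * v ≤ 8 * β * (β ^ 2 + C3 + 2 * C2) * H := by
    have h5 := mul_le_mul_of_nonneg_left hv1 (show 0 ≤ 8 * β * ℓ by positivity)
    have h6 : 8 * β * ℓ * (β ^ 2 * h + (C3 + 2 * C2) * H) =
      8 * β * (β ^ 2 * (ℓ * h) + (C3 + 2 * C2) * (ℓ * H)) := by ring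
    have h7 : β ^ 2 * (ℓ * h) ≤ β ^ 2 * H := mul_le_mul_of_nonneg_left hℓh (sq_nonneg _)
    have h8 : (C3 + 2 * C2) * (ℓ * H) ≤ (C3 + 2 * C2) * H :=
      mul_le_mul_of_nonneg_left hℓH (by positivity)
    have h9 : 8 * β * (β ^ 2 * (ℓ * h) + (C3 + 2 * C2) * (ℓ * H)) ≤
        8 * β * (β ^ 2 * H + (C3 + 2 * C2) * H) :=
      mul_le_mul_of_nonneg_left (by linarith) (by positivity)
    calc 8 * β * ℓ * v ≤ 8 * β * (β ^ 2 * H + (C3 + 2 * C2) * H) := by linarith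
      _ = _ := by ring
  have t4 : p * (β ^ 2 / 2 * h) - p ^ 2 / 2 * (β ^ 2 * h) ≤ β ^ 2 / 2 * h * (1 / (1 + y)) := by
    rw [← h1p]
    have h10 : p * (β ^ 2 / 2 * h) - p ^ 2 / 2 * (β ^ 2 * h) = p * (β ^ 2 / 2 * h * (1 - p)) := by ring
    rw [h10]
    exact mul_le_of_le_one_left (by
      have : 0 ≤ 1 - p := by linarith
      positivity) hp1
  have t5 : p * (A1 - 1) - p ^ 2 / 2 * v + 8 * β * ℓ * v + 2 * s ≤
      (β ^ 2 / 2 + 2) * h * (1 / (1 + y)) + C4 * H := by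
    have : s = h * (1 / (1 + y)) := by rw [hs]; ring
    rw [hC4, this]
    nlinarith
  have t6 : 2 * f * (p * (A1 - 1) - p ^ 2 / 2 * v + 8 * β * ℓ * v + 2 * s) ≤
      2 * f * ((β ^ 2 / 2 + 2) * h * (1 / (1 + y)) + C4 * H) :=
    mul_le_mul_of_nonneg_left t5 (by positivity)
  have t7 : f * (1 / (1 + y)) ≤ 1 := by
    rw [mul_one_div, div_le_one hy1]; exact hfy
  have t8 : 2 * f * ((β ^ 2 / 2 + 2) * h * (1 / (1 + y))) ≤ (β ^ 2 + 4) * h := by
    calc 2 * f * ((β ^ 2 / 2 + 2) * h * (1 / (1 + y))) = (β ^ 2 + 4) * h * (f * (1 / (1 + y))) := by ring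
      _ ≤ (β ^ 2 + 4) * h * 1 := mul_le_mul_of_nonneg_left t7 (by positivity)
      _ = _ := by ring
  have t9 : 2 * f * (C4 * H) ≤ C4 * H * f ^ 2 + C4 * h := by
    have h11 : 2 * f ≤ 1 + f ^ 2 := by nlinarith [sq_nonneg (f - 1)]
    have h12 : 2 * f * (C4 * H) ≤ (1 + f ^ 2) * (C4 * H) :=
      mul_le_mul_of_nonneg_right h11 (by positivity)
    have h13 : C4 * H ≤ C4 * h := mul_le_mul_of_nonneg_left hHh hC40
    nlinarith
  have t10 : 2 * β ^ 2 * L2 ≤ 2 * β ^ 2 * (1 + C1) * h := by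
    have h14 : L2 ≤ (1 + C1) * h := by nlinarith [hL2.2]
    calc 2 * β ^ 2 * L2 ≤ 2 * β ^ 2 * ((1 + C1) * h) := mul_le_mul_of_nonneg_left h14 (by positivity)
      _ = _ := by ring
  have t11 : h ^ 2 ≤ h := by nlinarith
  have t12 : 0 ≤ (3 * β ^ 2 + 6 + 2 * β ^ 2 * C1) * H * f ^ 2 := by positivity
  nlinarith

theorem ych_sq (β : ℝ) (hβ : 0 < β) : ∃ C h0 : ℝ, 0 < C ∧ 0 < h0 ∧
    ∀ (h : ℝ) (ν : Measure (E 2)), 0 < h → h < h0 → IsNoise h ν → ∀ e : E 2, ‖e‖ = 1 →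
      ∀ y : ℝ, 0 ≤ y →
        ∫⁻ ξ, ENNReal.ofReal ((Real.log (1 + ych β h e y ξ)) ^ 2) ∂ν ≤
          ENNReal.ofReal (1 + C * h ^ (9 / 8 : ℝ)) * ENNReal.ofReal ((Real.log (1 + y)) ^ 2) +
            ENNReal.ofReal (C * h) := by
  obtain ⟨h1, hh1, hle1, H1⟩ := YchA_ae hβ
  obtain ⟨C1, h2, hC1, hh2, H2⟩ := logz 2 (by norm_num)
  obtain ⟨C2, h3, hC2, hh3, H3⟩ := zeta_pow 2 (by norm_num) (-β)
  obtain ⟨C3, h4, hC3, hh4, H4⟩ := zeta_pow 2 (by norm_num) (-(2 * β))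
  obtain ⟨h5, hh5, H5⟩ := YchA_small (1 / (8 * β)) (by positivity)
  refine ⟨C2 + (C3 + 2 * C2) / 2 + 8 * β * (β ^ 2 + C3 + 2 * C2) + (3 * β ^ 2 + 6 + 2 * β ^ 2 * C1),
    min h1 (min h2 (min h3 (min h4 h5))), by positivity,
    lt_min hh1 (lt_min hh2 (lt_min hh3 (lt_min hh4 hh5))), ?_⟩
  intro h ν hh hlt hν e he y hy
  have hprob := hν.prob
  obtain ⟨l1, l2⟩ := lt_min_iff.mp hlt
  obtain ⟨l2, l3⟩ := lt_min_iff.mp l2
  obtain ⟨l3, l4⟩ := lt_min_iff.mp l3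
  obtain ⟨l4, l5⟩ := lt_min_iff.mp l4
  have hae := H1 h ν hh l1 hν e he
  have hm1 := (H2 h ν hh l2 hν e he).2.1
  have hm2 := H3 h ν hh l3 hν e he
  have hm3 := H4 h ν hh l4 hν e he
  have hm5 := H5 h hh l5
  have hh0 : h < 1 / 1000 := lt_of_lt_of_le l1 hle1
  obtain ⟨e1, e2, e3, e4, e5⟩ := LogZ_ell hh hh0
  set ℓ := h ^ (3 / 8 : ℝ) with hℓ
  set H := h ^ (9 / 8 : ℝ) with hHd
  have hH0 : 0 ≤ H := (Real.rpow_pos_of_pos hh _).le
  have hHh : H ≤ h := by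
    rw [hHd]
    have := Real.rpow_le_rpow_of_exponent_ge hh (by linarith) (show (1 : ℝ) ≤ 9 / 8 by norm_num)
    rwa [Real.rpow_one] at this
  have hℓh : ℓ * h ≤ H := by
    have h6 : ℓ * h = h ^ (11 / 8 : ℝ) := by
      rw [hℓ, show (11 / 8 : ℝ) = 3 / 8 + 1 by norm_num, Real.rpow_add hh, Real.rpow_one]
    rw [h6, hHd]
    exact Real.rpow_le_rpow_of_exponent_ge hh (by linarith) (by norm_num)
  have hℓH : ℓ * H ≤ H := mul_le_of_le_one_left hH0 (by linarith)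
  have h4βℓ : 4 * β * ℓ ≤ 1 / 2 := by
    rw [le_div_iff₀ (by positivity)] at hm5
    linarith
  have hi1 := zeta_pow_int hh hh0 hν (-β) he
  have hi2 := zeta_pow_int hh hh0 hν (-(2 * β)) he
  have hi3 : Integrable (fun ξ : E 2 => (Real.log ‖e + Real.sqrt h • ξ‖) ^ 2) ν := by
    refine Integrable.of_bound (C := (2 * ℓ) ^ 2)
      ((Real.measurable_log.comp (YchA_meas h e)).pow_const 2).aestronglyMeasurable ?_
    filter_upwards [hae] with ξ hξ
    rw [Real.norm_eq_abs, abs_pow]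
    exact pow_le_pow_left₀ (abs_nonneg _) hξ.2.1 2
  have hsq : ∀ᵐ ξ ∂ν, ‖e + Real.sqrt h • ξ‖ ^ (-(2 * β)) = (‖e + Real.sqrt h • ξ‖ ^ (-β)) ^ 2 := by
    filter_upwards [hae] with ξ hξ
    rw [← Real.rpow_natCast, ← Real.rpow_mul hξ.1.le]
    congr 1
    push_cast; ring
  set f := Real.log (1 + y) with hf
  set p := y / (1 + y) with hp
  set s := h / (1 + y) with hs
  set A1 := ∫ ξ, ‖e + Real.sqrt h • ξ‖ ^ (-β) ∂ν with hA1
  set A2 := ∫ ξ, ‖e + Real.sqrt h • ξ‖ ^ (-(2 * β)) ∂ν with hA2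
  set L2 := ∫ ξ, (Real.log ‖e + Real.sqrt h • ξ‖) ^ 2 ∂ν with hL2
  -- majorant
  set U : E 2 → ℝ := fun ξ => f ^ 2 + 2 * f * (p * (‖e + Real.sqrt h • ξ‖ ^ (-β) - 1) -
      p ^ 2 / 2 * (‖e + Real.sqrt h • ξ‖ ^ (-(2 * β)) - 2 * ‖e + Real.sqrt h • ξ‖ ^ (-β) + 1) +
      8 * β * ℓ * (‖e + Real.sqrt h • ξ‖ ^ (-(2 * β)) - 2 * ‖e + Real.sqrt h • ξ‖ ^ (-β) + 1) +
      2 * s) + (2 * β ^ 2 * (Real.log ‖e + Real.sqrt h • ξ‖) ^ 2 + 2 * h ^ 2) with hU
  have hUae : ∀ᵐ ξ ∂ν, (Real.log (1 + ych β h e y ξ)) ^ 2 ≤ U ξ := by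
    filter_upwards [hae, hsq] with ξ hξ hξ2
    obtain ⟨_, _, p1, _, p3, p4⟩ := hξ
    have := YchA_up (y := y) (p := p) (s := s) hβ hh h4βℓ hy p1 p3 p4 rfl rfl
    unfold ych
    rw [hU]
    simp only [hξ2]
    refine this.trans (le_of_eq ?_)
    ring
  have j1 : Integrable (fun ξ : E 2 => ‖e + Real.sqrt h • ξ‖ ^ (-β) - 1) ν := hi1.sub (integrable_const _)
  have j2 : Integrable (fun ξ : E 2 => ‖e + Real.sqrt h • ξ‖ ^ (-(2 * β)) - 2 * ‖e + Real.sqrt h • ξ‖ ^ (-β) + 1) ν :=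
    (hi2.sub (hi1.const_mul 2)).add (integrable_const _)
  have hUeq : U = fun ξ => (f ^ 2 + 2 * f * (2 * s) + 2 * h ^ 2) +
      (2 * f * p * (‖e + Real.sqrt h • ξ‖ ^ (-β) - 1) +
      (2 * f * (8 * β * ℓ - p ^ 2 / 2) *
        (‖e + Real.sqrt h • ξ‖ ^ (-(2 * β)) - 2 * ‖e + Real.sqrt h • ξ‖ ^ (-β) + 1) +
      2 * β ^ 2 * (Real.log ‖e + Real.sqrt h • ξ‖) ^ 2)) := by
    rw [hU]; funext ξ; ring
  have j4 : Integrable (fun ξ : E 2 => 2 * f * (8 * β * ℓ - p ^ 2 / 2) *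
        (‖e + Real.sqrt h • ξ‖ ^ (-(2 * β)) - 2 * ‖e + Real.sqrt h • ξ‖ ^ (-β) + 1) +
      2 * β ^ 2 * (Real.log ‖e + Real.sqrt h • ξ‖) ^ 2) ν := (j2.const_mul _).add (hi3.const_mul _)
  have j5 : Integrable (fun ξ : E 2 => 2 * f * p * (‖e + Real.sqrt h • ξ‖ ^ (-β) - 1) +
      (2 * f * (8 * β * ℓ - p ^ 2 / 2) *
        (‖e + Real.sqrt h • ξ‖ ^ (-(2 * β)) - 2 * ‖e + Real.sqrt h • ξ‖ ^ (-β) + 1) +
      2 * β ^ 2 * (Real.log ‖e + Real.sqrt h • ξ‖) ^ 2)) ν := (j1.const_mul _).add j4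
  have hUi : Integrable U ν := by
    rw [hUeq]
    exact (integrable_const _).add j5
  have hv1 : ∫ ξ, (‖e + Real.sqrt h • ξ‖ ^ (-β) - 1) ∂ν = A1 - 1 := by
    rw [integral_sub hi1 (integrable_const _)]; simp [hA1]
  have hv2 : ∫ ξ, (‖e + Real.sqrt h • ξ‖ ^ (-(2 * β)) - 2 * ‖e + Real.sqrt h • ξ‖ ^ (-β) + 1) ∂ν =
      A2 - 2 * A1 + 1 := by
    have j0 : Integrable (fun ξ : E 2 => ‖e + Real.sqrt h • ξ‖ ^ (-(2 * β)) -
        2 * ‖e + Real.sqrt h • ξ‖ ^ (-β)) ν := hi2.sub (hi1.const_mul 2)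
    rw [integral_add j0 (integrable_const _),
      integral_sub hi2 (hi1.const_mul 2), integral_const_mul]
    simp [hA1, hA2]
  have hUint : ∫ ξ, U ξ ∂ν = f ^ 2 + 2 * f * (p * (A1 - 1) - p ^ 2 / 2 * (A2 - 2 * A1 + 1) +
        8 * β * ℓ * (A2 - 2 * A1 + 1) + 2 * s) + (2 * β ^ 2 * L2 + 2 * h ^ 2) := by
    rw [hUeq, integral_add (integrable_const _) j5, integral_add (j1.const_mul _) j4,
      integral_add (j2.const_mul _) (hi3.const_mul _), integral_const_mul, integral_const_mul,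
      integral_const_mul, hv1, hv2]
    simp only [integral_const, probReal_univ, smul_eq_mul, one_mul]
    ring
  have hnum := YchA_num (y := y) (f := f) (p := p) (s := s) (A1 := A1) (A2 := A2) (L2 := L2)
    hβ hh (by linarith : h ≤ 1) e1.le hH0 hHh hℓh hℓH hy (Real.log_nonneg (by linarith))
    (by have := Real.log_le_sub_one_of_pos (x := 1 + y) (by linarith); rw [hf]; linarith) rfl rfl
    hC1 hC2 hC3 (by
      have : A1 - 1 - β ^ 2 / 2 * h = A1 - 1 - -β / 2 * (((2 : ℕ) : ℝ) + -β - 2) * h := by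
        push_cast; ring
      rw [this]; exact hm2)
    (by
      have : A2 - 1 - 2 * β ^ 2 * h = A2 - 1 - -(2 * β) / 2 * (((2 : ℕ) : ℝ) + -(2 * β) - 2) * h := by
        push_cast; ring
      rw [this]; exact hm3) hm1
  calc ∫⁻ ξ, ENNReal.ofReal ((Real.log (1 + ych β h e y ξ)) ^ 2) ∂ν
      ≤ ∫⁻ ξ, ENNReal.ofReal (U ξ) ∂ν :=
        lintegral_mono_ae (hUae.mono fun ξ hξ => ENNReal.ofReal_le_ofReal hξ)
    _ = ENNReal.ofReal (∫ ξ, U ξ ∂ν) := by
        rw [ofReal_integral_eq_lintegral_ofReal hUi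
          (hUae.mono fun ξ hξ => le_trans (sq_nonneg _) hξ)]
    _ ≤ _ := by
        rw [hUint, ← ENNReal.ofReal_mul (by positivity), ← ENNReal.ofReal_add (by positivity) (by positivity)]
        exact ENNReal.ofReal_le_ofReal hnum

end

end DynS

end

/-! ### from `Lib_MP_36b788s.YchB` -/

section

/-!
# YCH, part B: the chain started at `0` is large at large times

PROOF. `q_n(y) = ev (ych β h e) ν 1_{y<K} n y`.
* `ych_anti`: `q_n` is antitone (induction: `y ↦ ych y ξ` is monotone since `ζ^{-β} ≥ 0`; `lintegral_mono`).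
* `q_{n+1}(0) = ∫⁻q_n(ych 0 ξ) = q_n(h) ≤ q_n(0)` (`h > 0`, probability measure): `q_n(0)` is antitone in `n`.
* `f(y) = ofReal log(1+y)`; `c = h/(2(1+K))` (WLOG `K ≥ 0`, else replace `K` by `max K 0`, `1_{y<K} ≤ 1_{y<max K 0}`). Let `A = {y ≥ 0}` (invariant). `ych_log`,
  `ev_mono_on`, `ev_add`, `ev_cmul`, `ev_const`, `ev_time`: `ev f n 0 + ofReal c q_n(0) ≤ ev f (n+1) 0 + ofReal(Ch^{9/8})`. Sum over `i < n`
  (`ev f 0 0 = 0`): `Σ_{i<n}ofReal c q_i(0) ≤ ev f n 0 + n ofReal(Ch^{9/8})`, and `q_i(0) ≥ q_n(0)`: `ofReal(n c) q_n(0) ≤ ev f n 0+ofReal(nCh^{9/8})`.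
  (All terms finite.)
* `g(y) = ofReal (log(1+y))²`: `ych_sq`: `ev g (n+1) x ≤ ofReal(1+Ch^{9/8}) ev g n x + ofReal(Ch)` on `A` (`ev g (n+1) = ev (P g) n` by `ev_time`), so
  `ev g n 0 ≤ ofReal((1+Ch^{9/8})^n n C h) ≤ ofReal(e^{Cnh^{9/8}}Cnh)`.
* `f ≤ g/(2λ)+λ/2` for every `λ > 0`: `ev f n 0 ≤ ofReal(1/(2λ)) ev g n 0+ofReal(λ/2)`.
* `n0 = ⌈T0/h⌉₊`, `T0 ≥ 1`: `T0 ≤ n0h ≤ T0+1 ≤ 2T0` (`h ≤ 1`), `Cn0h^{9/8} ≤ 2CT0h^{1/8} ≤ 1` for `h < h0(T0)`: `ev g n0 0 ≤ 6CT0`, `λ = √T0`: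
  `ev f n0 0 ≤ (3C+1/2)√T0`; `q_{n0}(0) ≤ 2(1+K)[(3C+1/2)√T0+2CT0h^{1/8}]/T0 ≤ ε` for `T0` large, then `h0` small. `q_n(0) ≤ q_{n0}(0)` for `n ≥ n0`, and `T0 ≤ nh`
  gives `n ≥ n0` (`Nat.ceil_le`).
-/

open MeasureTheory ProbabilityTheory Dyn
open scoped ENNReal

namespace DynS

open Classical in
theorem ych_anti (β h K : ℝ) (e : E 2) (ν : Measure (E 2)) (n : ℕ) {y y' : ℝ} (hyy : y ≤ y') :
    ev (ych β h e) ν (fun y => if y < K then 1 else 0) n y' ≤
      ev (ych β h e) ν (fun y => if y < K then 1 else 0) n y := by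
  induction n generalizing y y' with
  | zero =>
    simp only [ev]
    by_cases h1 : y' < K
    · have h2 : y < K := lt_of_le_of_lt hyy h1
      simp [h1, h2]
    · simp [h1]
  | succ n ih =>
    simp only [ev]
    refine lintegral_mono fun ξ => ih ?_
    unfold ych
    have h1 : 0 ≤ ‖e + Real.sqrt h • ξ‖ ^ (-β) := Real.rpow_nonneg (norm_nonneg _) _
    have := mul_le_mul_of_nonneg_left hyy h1
    linarith

private theorem YchB_inv (β h : ℝ) (hh : 0 ≤ h) (e : E 2) (ν : Measure (E 2)) :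
    ∀ x ∈ {y : ℝ | 0 ≤ y}, ∀ᵐ ξ ∂ν, ych β h e x ξ ∈ {y : ℝ | 0 ≤ y} := by
  intro x hx
  refine Filter.Eventually.of_forall fun ξ => ?_
  have h1 : 0 ≤ ‖e + Real.sqrt h • ξ‖ ^ (-β) := Real.rpow_nonneg (norm_nonneg _) _
  have : 0 ≤ ‖e + Real.sqrt h • ξ‖ ^ (-β) * x := mul_nonneg h1 hx
  show 0 ≤ ych β h e x ξ
  unfold ych
  linarith

open Classical in
private theorem YchB_q_anti (β h K : ℝ) (hh : 0 < h) (e : E 2) (ν : Measure (E 2))
    [IsProbabilityMeasure ν] :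
    Antitone fun n : ℕ => ev (ych β h e) ν (fun y => if y < K then 1 else 0) n 0 := by
  refine antitone_nat_of_succ_le fun n => ?_
  have h1 : ev (ych β h e) ν (fun y => if y < K then 1 else 0) (n + 1) 0 =
      ev (ych β h e) ν (fun y => if y < K then 1 else 0) n h := by
    simp only [ev]
    have : ∀ ξ : E 2, ych β h e 0 ξ = h := fun ξ => by simp [ych]
    simp only [this]
    rw [lintegral_const, measure_univ, mul_one]
  rw [h1]
  exact ych_anti β h K e ν n hh.le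

private theorem YchB_mf : Measurable fun y : ℝ => ENNReal.ofReal (Real.log (1 + y)) :=
  (Real.measurable_log.comp (measurable_const.add measurable_id)).ennreal_ofReal

private theorem YchB_mg : Measurable fun y : ℝ => ENNReal.ofReal ((Real.log (1 + y)) ^ 2) :=
  ((Real.measurable_log.comp (measurable_const.add measurable_id)).pow_const 2).ennreal_ofReal

open Classical in
private theorem YchB_mi (K : ℝ) : Measurable fun y : ℝ => if y < K then (1 : ℝ≥0∞) else 0 :=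
  Measurable.ite measurableSet_Iio measurable_const measurable_const

open Classical in
/-- linear drift, summed -/
private theorem YchB_sum (β h K : ℝ) (hh : 0 < h) (e : E 2) (ν : Measure (E 2))
    [IsProbabilityMeasure ν] (c η : ℝ≥0∞)
    (H : ∀ y : ℝ, 0 ≤ y → ENNReal.ofReal (Real.log (1 + y)) + c * (if y < K then 1 else 0) ≤
      ∫⁻ ξ, ENNReal.ofReal (Real.log (1 + ych β h e y ξ)) ∂ν + η) (n : ℕ) :
    n * (c * ev (ych β h e) ν (fun y => if y < K then 1 else 0) n 0) ≤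
      ev (ych β h e) ν (fun y => ENNReal.ofReal (Real.log (1 + y))) n 0 + n * η := by
  have hm := measurable_ych β h e
  set a : ℕ → ℝ≥0∞ := fun n => ev (ych β h e) ν (fun y => ENNReal.ofReal (Real.log (1 + y))) n 0 with ha
  set q : ℕ → ℝ≥0∞ := fun n => ev (ych β h e) ν (fun y => if y < K then 1 else 0) n 0 with hq
  have hst : ∀ n, a n + c * q n ≤ a (n + 1) + η := by
    intro n
    have h1 := ev_mono_on (f := ych β h e) (μ := ν) {y : ℝ | 0 ≤ y} (YchB_inv β h hh.le e ν)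
      (φ := fun y => ENNReal.ofReal (Real.log (1 + y)) + c * (if y < K then 1 else 0))
      (ψ := fun y => ev (ych β h e) ν (fun y => ENNReal.ofReal (Real.log (1 + y))) 1 y + η)
      (fun y hy => by simpa only [ev] using H y hy) n 0 (by simp)
    rw [ev_add hm YchB_mf ((YchB_mi K).const_mul c), ev_cmul hm (YchB_mi K),
      ev_add hm (ev_meas hm YchB_mf 1) measurable_const, ev_time, ev_const] at h1
    exact h1
  have hsum : ∀ n, ∑ i ∈ Finset.range n, c * q i ≤ a n + n * η := by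
    intro n
    induction n with
    | zero => simp
    | succ n ih =>
      rw [Finset.sum_range_succ]
      calc ∑ i ∈ Finset.range n, c * q i + c * q n ≤ (a n + n * η) + c * q n := by gcongr
        _ = (a n + c * q n) + n * η := by ring
        _ ≤ (a (n + 1) + η) + n * η := add_le_add (hst n) le_rfl
        _ = a (n + 1) + ((n + 1 : ℕ) : ℝ≥0∞) * η := by push_cast; ring
  have hanti : Antitone q := YchB_q_anti β h K hh e ν
  calc (n : ℝ≥0∞) * (c * q n) = ∑ i ∈ Finset.range n, c * q n := by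
        rw [Finset.sum_const, Finset.card_range, nsmul_eq_mul]
    _ ≤ ∑ i ∈ Finset.range n, c * q i := by
        refine Finset.sum_le_sum fun i hi => ?_
        gcongr
        exact hanti (Finset.mem_range.1 hi).le
    _ ≤ _ := hsum n

/-- quadratic drift, summed -/
private theorem YchB_sq (β h : ℝ) (hh : 0 < h) (e : E 2) (ν : Measure (E 2))
    [IsProbabilityMeasure ν] (ρ κ : ℝ≥0∞) (hρ : 1 ≤ ρ)
    (H : ∀ y : ℝ, 0 ≤ y → ∫⁻ ξ, ENNReal.ofReal ((Real.log (1 + ych β h e y ξ)) ^ 2) ∂ν ≤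
      ρ * ENNReal.ofReal ((Real.log (1 + y)) ^ 2) + κ) (n : ℕ) :
    ev (ych β h e) ν (fun y => ENNReal.ofReal ((Real.log (1 + y)) ^ 2)) n 0 ≤ ρ ^ n * (n * κ) := by
  have hm := measurable_ych β h e
  induction n with
  | zero => simp [ev]
  | succ n ih =>
    have h1 := ev_mono_on (f := ych β h e) (μ := ν) {y : ℝ | 0 ≤ y} (YchB_inv β h hh.le e ν)
      (φ := fun y => ev (ych β h e) ν (fun y => ENNReal.ofReal ((Real.log (1 + y)) ^ 2)) 1 y)
      (ψ := fun y => ρ * ENNReal.ofReal ((Real.log (1 + y)) ^ 2) + κ)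
      (fun y hy => by simpa only [ev] using H y hy) n 0 (by simp)
    rw [ev_add hm (YchB_mg.const_mul ρ) measurable_const, ev_cmul hm YchB_mg, ev_const] at h1
    have h2 : ev (ych β h e) ν (fun y => ENNReal.ofReal ((Real.log (1 + y)) ^ 2)) (n + 1) 0 =
        ev (ych β h e) ν (fun y => ev (ych β h e) ν
          (fun y => ENNReal.ofReal ((Real.log (1 + y)) ^ 2)) 1 y) n 0 := (ev_time _ n 1 0).symm
    rw [h2]
    refine h1.trans ?_
    have h3 : κ ≤ ρ ^ (n + 1) * κ := le_mul_of_one_le_left zero_le (one_le_pow₀ hρ)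
    calc ρ * ev (ych β h e) ν (fun y => ENNReal.ofReal ((Real.log (1 + y)) ^ 2)) n 0 + κ
        ≤ ρ * (ρ ^ n * (n * κ)) + ρ ^ (n + 1) * κ := by gcongr
      _ = ρ ^ (n + 1) * (((n + 1 : ℕ) : ℝ≥0∞) * κ) := by push_cast; ring

/-- `f ≤ g/(2λ) + λ/2` -/
private theorem YchB_fg (β h : ℝ) (e : E 2) (ν : Measure (E 2))
    [IsProbabilityMeasure ν] (l : ℝ) (hl : 0 < l) (n : ℕ) :
    ev (ych β h e) ν (fun y => ENNReal.ofReal (Real.log (1 + y))) n 0 ≤
      ENNReal.ofReal (1 / (2 * l)) *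
        ev (ych β h e) ν (fun y => ENNReal.ofReal ((Real.log (1 + y)) ^ 2)) n 0 +
      ENNReal.ofReal (l / 2) := by
  have hm := measurable_ych β h e
  have h1 := ev_mono (f := ych β h e) (μ := ν)
    (φ := fun y => ENNReal.ofReal (Real.log (1 + y)))
    (ψ := fun y => ENNReal.ofReal (1 / (2 * l)) * ENNReal.ofReal ((Real.log (1 + y)) ^ 2) +
      ENNReal.ofReal (l / 2)) (fun y => ?_) n 0
  · rw [ev_add hm (YchB_mg.const_mul _) measurable_const, ev_cmul hm YchB_mg, ev_const] at h1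
    exact h1
  · show ENNReal.ofReal (Real.log (1 + y)) ≤ ENNReal.ofReal (1 / (2 * l)) *
      ENNReal.ofReal ((Real.log (1 + y)) ^ 2) + ENNReal.ofReal (l / 2)
    rw [← ENNReal.ofReal_mul (by positivity), ← ENNReal.ofReal_add (by positivity) (by positivity)]
    refine ENNReal.ofReal_le_ofReal ?_
    set u := Real.log (1 + y)
    have h2 : 0 ≤ (u - l) ^ 2 / (2 * l) := by positivity
    have h3 : (u - l) ^ 2 / (2 * l) = 1 / (2 * l) * u ^ 2 + l / 2 - u := by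
      field_simp
      ring
    linarith

open Classical in
theorem ych_tail (β : ℝ) (hβ : 0 < β) (K ε : ℝ) (hε : 0 < ε) : ∃ T0 h0 : ℝ, 0 ≤ T0 ∧ 0 < h0 ∧
    ∀ (h : ℝ) (ν : Measure (E 2)), 0 < h → h < h0 → IsNoise h ν → ∀ e : E 2, ‖e‖ = 1 →
      ∀ n : ℕ, T0 ≤ n * h →
        ev (ych β h e) ν (fun y => if y < K then 1 else 0) n 0 ≤ ENNReal.ofReal ε := by
  obtain ⟨C₁, h₁, hC₁, hh₁, H₁⟩ := ych_log β hβ
  obtain ⟨C₂, h₂, hC₂, hh₂, H₂⟩ := ych_sq β hβ
  set K' : ℝ := max K 0 with hK'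
  have hK'0 : 0 ≤ K' := le_max_right _ _
  have hKK : K ≤ K' := le_max_left _ _
  set R : ℝ := max 1 ((3 * C₂ + 1 / 2) * (4 * (1 + K')) / ε) with hR
  have hR1 : 1 ≤ R := le_max_left _ _
  have hR2 : (3 * C₂ + 1 / 2) * (4 * (1 + K')) / ε ≤ R := le_max_right _ _
  set T : ℝ := R ^ 2 with hT
  have hT1 : 1 ≤ T := one_le_pow₀ hR1
  have hTpos : 0 < T := by linarith
  set δ₁ : ℝ := 1 / (2 * C₂ * T) with hδ₁
  set δ₂ : ℝ := ε / (8 * C₁ * (1 + K')) with hδ₂
  have hδ₁p : 0 < δ₁ := by positivity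
  have hδ₂p : 0 < δ₂ := by positivity
  refine ⟨T, min (min h₁ h₂) (min 1 (min (δ₁ ^ 8) (δ₂ ^ 8))), hTpos.le, by positivity, ?_⟩
  intro h ν hh hh0 hν e he n hn
  have := hν.prob
  have a1 : h < h₁ := lt_of_lt_of_le hh0 ((min_le_left _ _).trans (min_le_left _ _))
  have a2 : h < h₂ := lt_of_lt_of_le hh0 ((min_le_left _ _).trans (min_le_right _ _))
  have a3 : h < 1 := lt_of_lt_of_le hh0 ((min_le_right _ _).trans (min_le_left _ _))
  have a4 : h < δ₁ ^ 8 :=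
    lt_of_lt_of_le hh0 ((min_le_right _ _).trans ((min_le_right _ _).trans (min_le_left _ _)))
  have a5 : h < δ₂ ^ 8 :=
    lt_of_lt_of_le hh0 ((min_le_right _ _).trans ((min_le_right _ _).trans (min_le_right _ _)))
  set s : ℝ := h ^ (1 / 8 : ℝ) with hs
  have hs0 : 0 < s := Real.rpow_pos_of_pos hh _
  have hs8 : s ^ 8 = h := by
    rw [hs, ← Real.rpow_natCast, ← Real.rpow_mul hh.le]
    norm_num
  have hs1 : s < δ₁ := by
    refine lt_of_pow_lt_pow_left₀ 8 hδ₁p.le ?_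
    rw [hs8]; exact a4
  have hs2 : s < δ₂ := by
    refine lt_of_pow_lt_pow_left₀ 8 hδ₂p.le ?_
    rw [hs8]; exact a5
  have h98 : h ^ (9 / 8 : ℝ) = h * s := by
    rw [hs, show (9 / 8 : ℝ) = 1 + 1 / 8 by norm_num, Real.rpow_add hh, Real.rpow_one]
  set n0 : ℕ := ⌈T / h⌉₊ with hn0
  have hn0n : n0 ≤ n := by
    rw [hn0, Nat.ceil_le, div_le_iff₀ hh]
    exact hn
  have hn0T : T ≤ n0 * h := by
    have := Nat.le_ceil (T / h)
    rw [div_le_iff₀ hh] at this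
    exact this
  have hn0T2 : n0 * h ≤ 2 * T := by
    have := Nat.ceil_lt_add_one (a := T / h) (by positivity)
    have h1 : (n0 : ℝ) * h ≤ (T / h + 1) * h := mul_le_mul_of_nonneg_right this.le hh.le
    have h2 : (T / h + 1) * h = T + h := by field_simp
    linarith
  -- reduce to `n0` and `K'`
  have hred : ev (ych β h e) ν (fun y => if y < K then 1 else 0) n 0 ≤
      ev (ych β h e) ν (fun y => if y < K' then 1 else 0) n0 0 := by
    refine (YchB_q_anti β h K hh e ν hn0n).trans ?_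
    refine ev_mono (f := ych β h e) (μ := ν) (fun y => ?_) n0 0
    by_cases hy : y < K
    · simp [hy, lt_of_lt_of_le hy hKK]
    · simp [hy]
  refine hred.trans ?_
  set Q := ev (ych β h e) ν (fun y => if y < K' then 1 else 0) n0 0 with hQ
  have b1 := YchB_sum β h K' hh e ν (ENNReal.ofReal (h / (2 * (1 + K'))))
    (ENNReal.ofReal (C₁ * h ^ (9 / 8 : ℝ))) (fun y hy => H₁ h ν hh a1 hν e he K' y hy) n0
  rw [← hQ] at b1
  have b2 := YchB_sq β h hh e ν (ENNReal.ofReal (1 + C₂ * h ^ (9 / 8 : ℝ))) (ENNReal.ofReal (C₂ * h))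
    (by
      rw [ENNReal.one_le_ofReal]
      have : 0 ≤ C₂ * h ^ (9 / 8 : ℝ) := by positivity
      linarith) (fun y hy => H₂ h ν hh a2 hν e he y hy) n0
  have b3 := YchB_fg β h e ν R (by linarith) n0
  -- quadratic bound in reals
  have c1 : ENNReal.ofReal (1 + C₂ * h ^ (9 / 8 : ℝ)) ^ n0 * (n0 * ENNReal.ofReal (C₂ * h)) ≤
      ENNReal.ofReal (6 * C₂ * T) := by
    rw [← ENNReal.ofReal_natCast n0, ← ENNReal.ofReal_mul (by positivity),
      ← ENNReal.ofReal_pow (by positivity), ← ENNReal.ofReal_mul (by positivity)]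
    refine ENNReal.ofReal_le_ofReal ?_
    have d1 : (1 + C₂ * h ^ (9 / 8 : ℝ)) ^ n0 ≤ Real.exp 1 := by
      have e1 : 1 + C₂ * h ^ (9 / 8 : ℝ) ≤ Real.exp (C₂ * h ^ (9 / 8 : ℝ)) := by
        rw [add_comm]; exact Real.add_one_le_exp _
      calc (1 + C₂ * h ^ (9 / 8 : ℝ)) ^ n0 ≤ Real.exp (C₂ * h ^ (9 / 8 : ℝ)) ^ n0 :=
            pow_le_pow_left₀ (by positivity) e1 _
        _ = Real.exp (n0 * (C₂ * h ^ (9 / 8 : ℝ))) := by rw [← Real.exp_nat_mul]
        _ ≤ Real.exp 1 := by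
            refine Real.exp_le_exp.2 ?_
            rw [h98]
            have : (n0 : ℝ) * (C₂ * (h * s)) = (n0 * h) * (C₂ * s) := by ring
            rw [this]
            calc (n0 : ℝ) * h * (C₂ * s) ≤ (2 * T) * (C₂ * δ₁) := by
                  gcongr
              _ = 1 := by rw [hδ₁]; field_simp
    have d2 : Real.exp 1 ≤ 3 := by
      have := Real.exp_one_lt_d9
      linarith
    have d3 : (n0 : ℝ) * (C₂ * h) ≤ 2 * T * C₂ := by
      have : (n0 : ℝ) * (C₂ * h) = (n0 * h) * C₂ := by ring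
      rw [this]
      gcongr
    calc (1 + C₂ * h ^ (9 / 8 : ℝ)) ^ n0 * ((n0 : ℝ) * (C₂ * h)) ≤ 3 * (2 * T * C₂) := by
          refine mul_le_mul (d1.trans d2) d3 (by positivity) (by norm_num)
      _ = 6 * C₂ * T := by ring
  have c2 : ev (ych β h e) ν (fun y => ENNReal.ofReal (Real.log (1 + y))) n0 0 ≤
      ENNReal.ofReal ((3 * C₂ + 1 / 2) * R) := by
    refine b3.trans ?_
    calc _ ≤ ENNReal.ofReal (1 / (2 * R)) * ENNReal.ofReal (6 * C₂ * T) + ENNReal.ofReal (R / 2) := by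
          gcongr
          exact b2.trans c1
      _ = ENNReal.ofReal ((3 * C₂ + 1 / 2) * R) := by
          rw [← ENNReal.ofReal_mul (by positivity), ← ENNReal.ofReal_add (by positivity) (by positivity)]
          congr 1
          rw [hT]
          field_simp
          ring
  have c3 : (n0 : ℝ≥0∞) * ENNReal.ofReal (C₁ * h ^ (9 / 8 : ℝ)) ≤ ENNReal.ofReal (2 * T * (C₁ * s)) := by
    rw [← ENNReal.ofReal_natCast n0, ← ENNReal.ofReal_mul (by positivity)]
    refine ENNReal.ofReal_le_ofReal ?_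
    rw [h98]
    have : (n0 : ℝ) * (C₁ * (h * s)) = (n0 * h) * (C₁ * s) := by ring
    rw [this]
    gcongr
  have c4 : ENNReal.ofReal (T / (2 * (1 + K'))) * Q ≤
      (n0 : ℝ≥0∞) * (ENNReal.ofReal (h / (2 * (1 + K'))) * Q) := by
    rw [← mul_assoc, ← ENNReal.ofReal_natCast n0, ← ENNReal.ofReal_mul (by positivity)]
    gcongr
    rw [mul_div_assoc']
    gcongr
  have c5 : ENNReal.ofReal (T / (2 * (1 + K'))) * Q ≤ ENNReal.ofReal (T / (2 * (1 + K')) * ε) := by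
    refine (c4.trans (b1.trans (add_le_add c2 c3))).trans ?_
    rw [← ENNReal.ofReal_add (by positivity) (by positivity)]
    refine ENNReal.ofReal_le_ofReal ?_
    have d1 : (3 * C₂ + 1 / 2) * R ≤ T / (4 * (1 + K')) * ε := by
      have e1 : (3 * C₂ + 1 / 2) * (4 * (1 + K')) ≤ R * ε := by
        rwa [div_le_iff₀ hε] at hR2
      have e2 : (3 * C₂ + 1 / 2) ≤ R * ε / (4 * (1 + K')) := by
        rw [le_div_iff₀ (by positivity)]; exact e1
      calc (3 * C₂ + 1 / 2) * R ≤ R * ε / (4 * (1 + K')) * R := by gcongr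
        _ = _ := by rw [hT]; ring
    have d2 : 2 * T * (C₁ * s) ≤ T / (4 * (1 + K')) * ε := by
      calc 2 * T * (C₁ * s) ≤ 2 * T * (C₁ * δ₂) := by gcongr
        _ = _ := by rw [hδ₂]; field_simp; norm_num
    have d3 : T / (2 * (1 + K')) * ε = T / (4 * (1 + K')) * ε + T / (4 * (1 + K')) * ε := by
      field_simp
      norm_num
    linarith
  rw [ENNReal.ofReal_mul (by positivity)] at c5
  have hne : ENNReal.ofReal (T / (2 * (1 + K'))) ≠ 0 := by
    rw [Ne, ENNReal.ofReal_eq_zero, not_le]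
    positivity
  exact (ENNReal.mul_le_mul_iff_right hne ENNReal.ofReal_ne_top).1 c5

end DynS

end

/-! ### from `Lib_MP_36b788s.OneB` -/

section

/-!
# ONE, part B: expectation of `√S_x` after one step, `N = 1`

PROOF.
* `lin_mean`, `lin_sq` (any `N ≥ 1`): `X = Σ_y⟪b_y,ξ_y⟫` under `pim ι ν = Measure.pi`. Each term is bounded a.e. (`√h‖ξ_y‖ ≤ h^{3/8}`), so integrable;
  `E X = 0` (`noise_mean`, marginal `measurePreserving_eval`). `E X² = Σ_{y,z}E⟪b_y,ξ_y⟫⟪b_z,ξ_z⟫`; off-diagonal terms vanish by independence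
  (`iIndepFun_pi` / `integral_prod_mul` for two coordinates; or `MeasureTheory.integral_fintype_prod_eq_prod` for the product of two coordinate functions);
  diagonal terms `E⟪b,ξ⟫² = ‖b‖²E‖ξ‖²/N ≥ (1-h)‖b‖²` (`noise_sq`, `IsNoise.le_mom`).
* `one_site`: `S = S1 x`. If `S = 0` then by `one_det` all terms `κ^{|x-y|}‖G y‖` vanish and `S1 (stp) x ≤ 0`. If `S > 0`: `b_y = (κ^{|x-y|}‖G y‖/S) uni (G y)`,
  `‖b_y‖ = π_y`, `Σπ_y = 1`, `X = Σ⟪b_y,ξ_y⟫`, `|√hX| ≤ 1/10` a.e. (`h^{3/8} ≤ 1/10` for `h < 1/1000`: `LogZ_ell`), `t = √hX + h c`, `c = 4d/A ≤ 1/512`, `|t| ≤ 1/5`.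
  `√S1(stp) ≤ √S√(1+t) ≤ √S(1+t/2-(9/80)t²)`. `E t = hc`, `E t² = hE X² + h²c² ≥ h(1-h)Σπ_y²`. So `E√S1(stp) ≤ √S(1+h/1024-(9/80)h(1-h)Σπ²)`.
  First claim: drop the square. Second: `π_x = ‖G x‖/S ≥ 1/2` (`dist x x = 0`) so `Σπ² ≥ 1/4`, `(9/320)(1-h) - 1/1024 ≥ 1/40` for `h ≤ 1/1000`.
  Pass to `∫⁻` by `ofReal_integral_eq_lintegral_ofReal` for the bounded majorant `√S(1+t/2-(9/80)t²) ≥ 0`.
-/

open MeasureTheory ProbabilityTheory Dyn
open scoped ENNReal

namespace DynS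

variable {N d : ℕ} {ι : Type} [Fintype ι]

private theorem OneB_int {h : ℝ} (hh : 0 < h) {ν : Measure (E N)} (hν : IsNoise h ν) {f : E N → ℝ}
    (hf : Continuous f) : Integrable f ν := by
  have := hν.prob
  obtain ⟨C, hC⟩ := (isCompact_closedBall (0 : E N) (h ^ (3 / 8 : ℝ) / Real.sqrt h)).exists_bound_of_continuousOn
    hf.continuousOn
  refine Integrable.of_bound hf.aestronglyMeasurable C ?_
  filter_upwards [hν.bdd] with ξ hξ
  refine hC ξ ?_
  rw [mem_closedBall_zero_iff, le_div_iff₀ (Real.sqrt_pos.2 hh), mul_comm]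
  exact hξ

private theorem OneB_prob {h : ℝ} {ν : Measure (E N)} (hν : IsNoise h ν) :
    IsProbabilityMeasure (pim ι ν) := by
  have := hν.prob
  unfold pim
  infer_instance

private theorem OneB_mp {h : ℝ} {ν : Measure (E N)} (hν : IsNoise h ν) (y : ι) :
    MeasurePreserving (Function.eval y) (pim ι ν) ν := by
  have := hν.prob
  exact measurePreserving_eval (fun _ : ι => ν) y

private theorem OneB_one {h : ℝ} (hh : 0 < h) {ν : Measure (E N)} (hν : IsNoise h ν) (y : ι) {f : E N → ℝ}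
    (hf : Continuous f) : Integrable (fun ξ : ι → E N => f (ξ y)) (pim ι ν) ∧
      ∫ ξ, f (ξ y) ∂(pim ι ν) = ∫ ξ, f ξ ∂ν := by
  have hm := OneB_mp (ι := ι) hν y
  refine ⟨hm.integrable_comp_of_integrable (OneB_int hh hν hf), ?_⟩
  have h6 := integral_map (μ := pim ι ν) hm.measurable.aemeasurable (f := f)
    (Continuous.aestronglyMeasurable hf)
  rw [hm.map_eq] at h6
  exact h6.symm

private theorem OneB_bdd {h : ℝ} {ν : Measure (E N)} (hν : IsNoise h ν) :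
    ∀ᵐ ξ ∂(pim ι ν), ∀ y, Real.sqrt h * ‖ξ y‖ ≤ h ^ (3 / 8 : ℝ) := by
  rw [ae_all_iff]
  intro y
  exact (OneB_mp (ι := ι) hν y).quasiMeasurePreserving.ae hν.bdd

theorem lin_mean {h : ℝ} (hh : 0 < h) {ν : Measure (E N)} (hν : IsNoise h ν) (b : ι → E N) :
    Integrable (fun ξ : ι → E N => ∑ y, inner ℝ (b y) (ξ y)) (pim ι ν) ∧
      ∫ ξ, (∑ y, inner ℝ (b y) (ξ y)) ∂(pim ι ν) = 0 := by
  have h1 : ∀ y, Continuous fun ξ : E N => inner ℝ (b y) ξ := fun y => by fun_prop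
  refine ⟨integrable_finsetSum _ fun y _ => (OneB_one hh hν y (h1 y)).1, ?_⟩
  rw [integral_finsetSum _ fun y _ => (OneB_one hh hν y (h1 y)).1]
  refine Finset.sum_eq_zero fun y _ => ?_
  rw [(OneB_one hh hν y (h1 y)).2]
  exact noise_mean hh hν (b y)

private theorem OneB_prod {h : ℝ} (hh : 0 < h) {ν : Measure (E N)} (hν : IsNoise h ν)
    (b : ι → E N) (y z : ι) :
    Integrable (fun ξ : ι → E N => inner ℝ (b y) (ξ y) * inner ℝ (b z) (ξ z)) (pim ι ν) := by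
  have := OneB_prob (ι := ι) hν
  set C : ℝ := h ^ (3 / 8 : ℝ) / Real.sqrt h with hC
  have hC0 : 0 ≤ C := by positivity
  refine Integrable.of_bound (Continuous.aestronglyMeasurable (by fun_prop)) ((‖b y‖ * C) * (‖b z‖ * C)) ?_
  filter_upwards [OneB_bdd (ι := ι) hν] with ξ hξ
  have h1 : ∀ w, ‖(inner ℝ (b w) (ξ w) : ℝ)‖ ≤ ‖b w‖ * C := by
    intro w
    refine (norm_inner_le_norm _ _).trans (mul_le_mul_of_nonneg_left ?_ (norm_nonneg _))
    rw [hC, le_div_iff₀ (Real.sqrt_pos.2 hh), mul_comm]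
    exact hξ w
  rw [norm_mul]
  exact mul_le_mul (h1 y) (h1 z) (norm_nonneg _) (by positivity)

private theorem OneB_off {h : ℝ} (hh : 0 < h) {ν : Measure (E N)} (hν : IsNoise h ν)
    (b : ι → E N) {y z : ι} (hyz : y ≠ z) :
    ∫ ξ, inner ℝ (b y) (ξ y) * inner ℝ (b z) (ξ z) ∂(pim ι ν) = 0 := by
  classical
  have := hν.prob
  have h1 : ∀ ξ : ι → E N, (inner ℝ (b y) (ξ y) * inner ℝ (b z) (ξ z) : ℝ) =
      ∏ i, (fun (i : ι) (v : E N) => (if i = y then (inner ℝ (b y) v : ℝ) else 1) *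
        (if i = z then (inner ℝ (b z) v : ℝ) else 1)) i (ξ i) := by
    intro ξ
    simp only [Finset.prod_mul_distrib, Finset.prod_ite_eq', Finset.mem_univ, if_true]
  have h2 : ∫ ξ, inner ℝ (b y) (ξ y) * inner ℝ (b z) (ξ z) ∂(pim ι ν) =
      ∏ i, ∫ v, (fun (i : ι) (v : E N) => (if i = y then (inner ℝ (b y) v : ℝ) else 1) *
        (if i = z then (inner ℝ (b z) v : ℝ) else 1)) i v ∂ν := by
    rw [← integral_fintype_prod_eq_prod (μ := fun _ : ι => ν)]
    exact integral_congr_ae (Filter.Eventually.of_forall h1)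
  rw [h2]
  refine Finset.prod_eq_zero (Finset.mem_univ y) ?_
  simp only [if_true, if_neg hyz, mul_one]
  exact noise_mean hh hν (b y)

theorem lin_sq {h : ℝ} (hh : 0 < h) (hN : 1 ≤ N) {ν : Measure (E N)} (hν : IsNoise h ν)
    (b : ι → E N) :
    Integrable (fun ξ : ι → E N => (∑ y, inner ℝ (b y) (ξ y)) ^ 2) (pim ι ν) ∧
      (1 - h) * ∑ y, ‖b y‖ ^ 2 ≤ ∫ ξ, (∑ y, inner ℝ (b y) (ξ y)) ^ 2 ∂(pim ι ν) := by
  classical
  have h1 : (fun ξ : ι → E N => (∑ y, inner ℝ (b y) (ξ y)) ^ 2) =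
      fun ξ => ∑ y, ∑ z, inner ℝ (b y) (ξ y) * inner ℝ (b z) (ξ z) := by
    funext ξ
    rw [sq, Finset.sum_mul_sum]
  have hN0 : (0 : ℝ) < N := by exact_mod_cast hN
  rw [h1]
  refine ⟨integrable_finsetSum _ fun y _ => integrable_finsetSum _ fun z _ => OneB_prod hh hν b y z, ?_⟩
  rw [integral_finsetSum _ fun y _ => integrable_finsetSum _ fun z _ => OneB_prod hh hν b y z, Finset.mul_sum]
  refine Finset.sum_le_sum fun y _ => ?_
  rw [integral_finsetSum _ fun z _ => OneB_prod hh hν b y z]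
  have h2 : ∑ z, ∫ ξ, inner ℝ (b y) (ξ y) * inner ℝ (b z) (ξ z) ∂(pim ι ν) =
      ∫ ξ, inner ℝ (b y) (ξ y) * inner ℝ (b y) (ξ y) ∂(pim ι ν) := by
    refine Finset.sum_eq_single y (fun z _ hz => OneB_off hh hν b (Ne.symm hz)) ?_
    intro hy
    exact absurd (Finset.mem_univ y) hy
  rw [h2]
  have h3 : Continuous fun ξ : E N => (inner ℝ (b y) ξ * inner ℝ (b y) ξ : ℝ) := by fun_prop
  rw [(OneB_one hh hν y h3).2]
  have h4 := noise_sq hh hN hν (b y)
  have h5 : ∫ ξ, (inner ℝ (b y) ξ * inner ℝ (b y) ξ : ℝ) ∂ν = ∫ ξ, (inner ℝ (b y) ξ) ^ 2 ∂ν := by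
    refine integral_congr_ae (Filter.Eventually.of_forall fun ξ => ?_)
    show (inner ℝ (b y) ξ * inner ℝ (b y) ξ : ℝ) = (inner ℝ (b y) ξ) ^ 2
    rw [sq]
  rw [h5, h4]
  have h6 : 1 - h ≤ (∫ ξ, ‖ξ‖ ^ 2 ∂ν) / N := by
    rw [le_div_iff₀ hN0]
    have := hν.le_mom
    linarith
  rw [mul_comm]
  exact mul_le_mul_of_nonneg_left h6 (by positivity)

theorem one_site (net : Net ι d) {β h κ k A : ℝ} (hβ : 0 < β) (hh : 0 < h) (hh1 : h < 1 / 1000)
    (hA : 0 < A) (hdA : 4 * d / A ≤ 1 / 512) (hk : 0 ≤ k) (hκ : κ = A * k) (hκ1 : κ ≤ 1)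
    {ν : Measure (E 1)} (hν : IsNoise h ν) (G : ι → E 1) (x : ι) :
    ∫⁻ ξ, ENNReal.ofReal (Real.sqrt (S1 net κ (stp net β h k G ξ) x)) ∂(pim ι ν) ≤
        ENNReal.ofReal (Real.sqrt (S1 net κ G x) * (1 + h / 1024)) ∧
      (S1 net κ G x / 2 ≤ ‖G x‖ →
        ∫⁻ ξ, ENNReal.ofReal (Real.sqrt (S1 net κ (stp net β h k G ξ) x)) ∂(pim ι ν) ≤
          ENNReal.ofReal (Real.sqrt (S1 net κ G x) * (1 - h / 40))) := by
  have hprob := OneB_prob (ι := ι) hν
  have hκ0 : 0 ≤ κ := by rw [hκ]; positivity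
  obtain ⟨a, ha⟩ : ∃ a : ι → ℝ, a = fun y => κ ^ net.dist x y * ‖G y‖ := ⟨_, rfl⟩
  have ha0 : ∀ y, 0 ≤ a y := by
    intro y
    rw [ha]
    positivity
  obtain ⟨S, hS⟩ : ∃ S : ℝ, S = S1 net κ G x := ⟨_, rfl⟩
  have hSa : S = ∑ y, a y := by
    rw [hS, ha]
    rfl
  have hS0 : 0 ≤ S := by
    rw [hSa]
    exact Finset.sum_nonneg fun y _ => ha0 y
  obtain ⟨w, hw⟩ : ∃ w : ι → ℝ, w = fun y => a y / S := ⟨_, rfl⟩
  have hw0 : ∀ y, 0 ≤ w y := by
    intro y
    rw [hw]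
    exact div_nonneg (ha0 y) hS0
  have hSw : ∀ y, S * w y = a y := by
    intro y
    rw [hw]
    show S * (a y / S) = a y
    rcases eq_or_ne S 0 with h0 | h0
    · have h1 : a y = 0 := by
        have h2 : ∑ y, a y = 0 := by rw [← hSa, h0]
        exact (Finset.sum_eq_zero_iff_of_nonneg fun y _ => ha0 y).1 h2 y (Finset.mem_univ y)
      rw [h1, h0, zero_mul]
    · field_simp
  have hw1 : ∑ y, w y ≤ 1 := by
    rw [hw]
    show ∑ y, a y / S ≤ 1
    rw [← Finset.sum_div, ← hSa]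
    exact div_self_le_one S
  obtain ⟨b, hb⟩ : ∃ b : ι → E 1, b = fun y => w y • uni (G y) := ⟨_, rfl⟩
  have hbi : ∀ (ξ : ι → E 1) (y : ι), (inner ℝ (b y) (ξ y) : ℝ) = w y * inner ℝ (uni (G y)) (ξ y) := by
    intro ξ y
    rw [hb]
    show inner ℝ (w y • uni (G y)) (ξ y) = _
    rw [real_inner_smul_left]
  have hbn : ∀ y, ‖b y‖ = w y := by
    intro y
    rw [hb]
    show ‖w y • uni (G y)‖ = w y
    rw [norm_smul, Real.norm_eq_abs, abs_of_nonneg (hw0 y)]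
    rcases eq_or_ne (G y) 0 with h0 | h0
    · have h1 : w y = 0 := by
        rw [hw, ha]
        show κ ^ net.dist x y * ‖G y‖ / S = 0
        rw [h0, norm_zero, mul_zero, zero_div]
      rw [h1, zero_mul]
    · have h1 : ‖uni (G y)‖ = 1 := by
        unfold uni
        rw [norm_smul, Real.norm_eq_abs, abs_of_nonneg (by positivity)]
        have : ‖G y‖ ≠ 0 := norm_ne_zero_iff.2 h0
        field_simp
      rw [h1, mul_one]
  obtain ⟨X, hX⟩ : ∃ X : (ι → E 1) → ℝ, X = fun ξ => ∑ y, inner ℝ (b y) (ξ y) := ⟨_, rfl⟩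
  obtain ⟨c, hc⟩ : ∃ c : ℝ, c = 4 * d / A := ⟨_, rfl⟩
  have hc0 : 0 ≤ c := by rw [hc]; positivity
  have hc1 : c ≤ 1 / 512 := by rw [hc]; exact hdA
  obtain ⟨t, ht⟩ : ∃ t : (ι → E 1) → ℝ, t = fun ξ => Real.sqrt h * X ξ + h * c := ⟨_, rfl⟩
  obtain ⟨hl0, hl1, -, -, -⟩ := LogZ_ell hh hh1
  have hae : ∀ᵐ ξ ∂(pim ι ν), Real.sqrt (S1 net κ (stp net β h k G ξ) x) ≤
      Real.sqrt S * (1 + t ξ / 2 - 9 / 80 * t ξ ^ 2) := by
    filter_upwards [OneB_bdd (ι := ι) hν] with ξ hξ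
    have h1 : ∀ y, Real.sqrt h * ‖ξ y‖ ≤ 1 / 10 := fun y => (hξ y).trans hl1
    have h2 := one_det net hβ hh hA hk hκ hκ1 G ξ h1 x
    have h3 : Real.sqrt h * ∑ y, κ ^ net.dist x y * ‖G y‖ * inner ℝ (uni (G y)) (ξ y) =
        S * (Real.sqrt h * X ξ) := by
      rw [hX]
      show _ = S * (Real.sqrt h * ∑ y, inner ℝ (b y) (ξ y))
      have : ∑ y, κ ^ net.dist x y * ‖G y‖ * inner ℝ (uni (G y)) (ξ y) = S * ∑ y, inner ℝ (b y) (ξ y) := by
        rw [Finset.mul_sum]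
        refine Finset.sum_congr rfl fun y _ => ?_
        rw [hbi, ← mul_assoc, hSw, ha]
      rw [this]
      ring
    have h4 : S1 net κ (stp net β h k G ξ) x ≤ S * (1 + t ξ) := by
      rw [h3, ← hS, ← hc] at h2
      refine h2.trans (le_of_eq ?_)
      rw [ht]
      ring
    have h5 : |Real.sqrt h * X ξ| ≤ 1 / 10 := by
      rw [abs_mul, abs_of_nonneg (Real.sqrt_nonneg h), hX]
      show Real.sqrt h * |∑ y, (inner ℝ (b y) (ξ y) : ℝ)| ≤ 1 / 10
      calc Real.sqrt h * |∑ y, (inner ℝ (b y) (ξ y) : ℝ)|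
          ≤ Real.sqrt h * ∑ y, w y * ‖ξ y‖ := by
            refine mul_le_mul_of_nonneg_left ?_ (Real.sqrt_nonneg h)
            refine (Finset.abs_sum_le_sum_abs _ _).trans (Finset.sum_le_sum fun y _ => ?_)
            refine (abs_real_inner_le_norm _ _).trans ?_
            rw [hbn]
        _ = ∑ y, w y * (Real.sqrt h * ‖ξ y‖) := by
            rw [Finset.mul_sum]
            exact Finset.sum_congr rfl fun y _ => by ring
        _ ≤ ∑ y, w y * (1 / 10) := Finset.sum_le_sum fun y _ => mul_le_mul_of_nonneg_left (h1 y) (hw0 y)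
        _ = (∑ y, w y) * (1 / 10) := by rw [Finset.sum_mul]
        _ ≤ 1 / 10 := by linarith
    have h6 : |t ξ| ≤ 1 / 5 := by
      rw [ht]
      show |Real.sqrt h * X ξ + h * c| ≤ 1 / 5
      rw [abs_le] at h5 ⊢
      have h7 : 0 ≤ h * c := by positivity
      have h8 : h * c ≤ 1 / 10 := by nlinarith
      constructor <;> linarith [h5.1, h5.2]
    have h7 := one_sqrt h6
    calc Real.sqrt (S1 net κ (stp net β h k G ξ) x) ≤ Real.sqrt (S * (1 + t ξ)) := Real.sqrt_le_sqrt h4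
      _ = Real.sqrt S * Real.sqrt (1 + t ξ) := Real.sqrt_mul hS0 _
      _ ≤ _ := mul_le_mul_of_nonneg_left h7 (Real.sqrt_nonneg S)
  obtain ⟨hXi, hX0⟩ := lin_mean (ι := ι) hh hν b
  obtain ⟨hXi2, hX2⟩ := lin_sq (ι := ι) hh le_rfl hν b
  have hXi' : Integrable X (pim ι ν) := by rw [hX]; exact hXi
  have hXi2' : Integrable (fun ξ => X ξ ^ 2) (pim ι ν) := by rw [hX]; exact hXi2
  have hX0' : ∫ ξ, X ξ ∂(pim ι ν) = 0 := by rw [hX]; exact hX0
  have hX2' : (1 - h) * ∑ y, w y ^ 2 ≤ ∫ ξ, X ξ ^ 2 ∂(pim ι ν) := by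
    rw [hX]
    refine le_trans (le_of_eq ?_) hX2
    have : ∑ y, w y ^ 2 = ∑ y, ‖b y‖ ^ 2 := Finset.sum_congr rfl fun y _ => by rw [hbn y]
    rw [this]
  -- the majorant
  have hR : ∀ ξ, Real.sqrt S * (1 + t ξ / 2 - 9 / 80 * t ξ ^ 2) =
      Real.sqrt S * (1 + h * c / 2 - 9 / 80 * (h * c) ^ 2) +
        (Real.sqrt S * (Real.sqrt h / 2 - 9 / 80 * (2 * Real.sqrt h * (h * c)))) * X ξ -
        (Real.sqrt S * (9 / 80 * h)) * X ξ ^ 2 := by
    intro ξ
    rw [ht]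
    have : Real.sqrt h ^ 2 = h := Real.sq_sqrt hh.le
    show Real.sqrt S * (1 + (Real.sqrt h * X ξ + h * c) / 2 - 9 / 80 * (Real.sqrt h * X ξ + h * c) ^ 2) = _
    calc Real.sqrt S * (1 + (Real.sqrt h * X ξ + h * c) / 2 - 9 / 80 * (Real.sqrt h * X ξ + h * c) ^ 2)
        = Real.sqrt S * (1 + h * c / 2 - 9 / 80 * (h * c) ^ 2) +
        (Real.sqrt S * (Real.sqrt h / 2 - 9 / 80 * (2 * Real.sqrt h * (h * c)))) * X ξ -
        (Real.sqrt S * (9 / 80 * Real.sqrt h ^ 2)) * X ξ ^ 2 := by ring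
      _ = _ := by rw [this]
  have hi1 : Integrable (fun _ : ι → E 1 => Real.sqrt S * (1 + h * c / 2 - 9 / 80 * (h * c) ^ 2)) (pim ι ν) :=
    integrable_const _
  have hi2 : Integrable (fun ξ => (Real.sqrt S * (Real.sqrt h / 2 - 9 / 80 * (2 * Real.sqrt h * (h * c)))) * X ξ)
      (pim ι ν) := hXi'.const_mul _
  have hi3 : Integrable (fun ξ => (Real.sqrt S * (9 / 80 * h)) * X ξ ^ 2) (pim ι ν) := hXi2'.const_mul _
  have hRi : Integrable (fun ξ => Real.sqrt S * (1 + t ξ / 2 - 9 / 80 * t ξ ^ 2)) (pim ι ν) := by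
    have : (fun ξ => Real.sqrt S * (1 + t ξ / 2 - 9 / 80 * t ξ ^ 2)) = fun ξ =>
      Real.sqrt S * (1 + h * c / 2 - 9 / 80 * (h * c) ^ 2) +
        (Real.sqrt S * (Real.sqrt h / 2 - 9 / 80 * (2 * Real.sqrt h * (h * c)))) * X ξ -
        (Real.sqrt S * (9 / 80 * h)) * X ξ ^ 2 := funext hR
    rw [this]
    exact (hi1.add hi2).sub hi3
  have hRI : ∫ ξ, Real.sqrt S * (1 + t ξ / 2 - 9 / 80 * t ξ ^ 2) ∂(pim ι ν) =
      Real.sqrt S * (1 + h * c / 2 - 9 / 80 * (h * c) ^ 2) -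
        (Real.sqrt S * (9 / 80 * h)) * ∫ ξ, X ξ ^ 2 ∂(pim ι ν) := by
    rw [integral_congr_ae (Filter.Eventually.of_forall hR)]
    have e1 := integral_sub (hi1.add hi2) hi3
    have e2 := integral_add hi1 hi2
    have e3 : ∫ ξ, (Real.sqrt S * (1 + h * c / 2 - 9 / 80 * (h * c) ^ 2) +
        (Real.sqrt S * (Real.sqrt h / 2 - 9 / 80 * (2 * Real.sqrt h * (h * c)))) * X ξ -
        (Real.sqrt S * (9 / 80 * h)) * X ξ ^ 2) ∂(pim ι ν) =
        ∫ ξ, (Real.sqrt S * (1 + h * c / 2 - 9 / 80 * (h * c) ^ 2) +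
        (Real.sqrt S * (Real.sqrt h / 2 - 9 / 80 * (2 * Real.sqrt h * (h * c)))) * X ξ) ∂(pim ι ν) -
        ∫ ξ, (Real.sqrt S * (9 / 80 * h)) * X ξ ^ 2 ∂(pim ι ν) := e1
    have e4 := integral_const_mul (μ := pim ι ν)
      (Real.sqrt S * (Real.sqrt h / 2 - 9 / 80 * (2 * Real.sqrt h * (h * c)))) X
    have e5 := integral_const_mul (μ := pim ι ν) (Real.sqrt S * (9 / 80 * h)) fun ξ => X ξ ^ 2
    rw [e3, e2, e4, e5, hX0']
    simp only [integral_const, probReal_univ, one_smul, mul_zero, add_zero]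
  have hkey : ∫ ξ, Real.sqrt S * (1 + t ξ / 2 - 9 / 80 * t ξ ^ 2) ∂(pim ι ν) ≤
      Real.sqrt S * (1 + h / 1024 - 9 / 80 * h * ((1 - h) * ∑ y, w y ^ 2)) := by
    rw [hRI]
    have h1 : Real.sqrt S * (9 / 80 * h) * ((1 - h) * ∑ y, w y ^ 2) ≤
        Real.sqrt S * (9 / 80 * h) * ∫ ξ, X ξ ^ 2 ∂(pim ι ν) :=
      mul_le_mul_of_nonneg_left hX2' (by positivity)
    have h2 : Real.sqrt S * (1 + h * c / 2 - 9 / 80 * (h * c) ^ 2) ≤ Real.sqrt S * (1 + h / 1024) := by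
      refine mul_le_mul_of_nonneg_left ?_ (Real.sqrt_nonneg S)
      have h3 : h * c ≤ h * (1 / 512) := mul_le_mul_of_nonneg_left hc1 hh.le
      nlinarith [sq_nonneg (h * c)]
    linarith
  have hlin : ∫⁻ ξ, ENNReal.ofReal (Real.sqrt (S1 net κ (stp net β h k G ξ) x)) ∂(pim ι ν) ≤
      ENNReal.ofReal (Real.sqrt S * (1 + h / 1024 - 9 / 80 * h * ((1 - h) * ∑ y, w y ^ 2))) := by
    calc ∫⁻ ξ, ENNReal.ofReal (Real.sqrt (S1 net κ (stp net β h k G ξ) x)) ∂(pim ι ν)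
        ≤ ∫⁻ ξ, ENNReal.ofReal (Real.sqrt S * (1 + t ξ / 2 - 9 / 80 * t ξ ^ 2)) ∂(pim ι ν) := by
          refine lintegral_mono_ae ?_
          filter_upwards [hae] with ξ hξ
          exact ENNReal.ofReal_le_ofReal hξ
      _ = ENNReal.ofReal (∫ ξ, Real.sqrt S * (1 + t ξ / 2 - 9 / 80 * t ξ ^ 2) ∂(pim ι ν)) := by
          refine (ofReal_integral_eq_lintegral_ofReal hRi ?_).symm
          filter_upwards [hae] with ξ hξ
          exact (Real.sqrt_nonneg _).trans hξ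
      _ ≤ _ := ENNReal.ofReal_le_ofReal hkey
  have hsq : 0 ≤ ∑ y, w y ^ 2 := Finset.sum_nonneg fun y _ => sq_nonneg _
  rw [← hS]
  refine ⟨hlin.trans (ENNReal.ofReal_le_ofReal (mul_le_mul_of_nonneg_left ?_ (Real.sqrt_nonneg S))), ?_⟩
  · have h1 : 0 ≤ 9 / 80 * h * ((1 - h) * ∑ y, w y ^ 2) := by
      have : 0 ≤ 1 - h := by linarith
      positivity
    linarith
  · intro hx
    rcases hS0.eq_or_lt with h0 | h0
    · rw [← h0, Real.sqrt_zero, zero_mul]
      rw [← h0, Real.sqrt_zero, zero_mul] at hlin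
      exact hlin
    · refine hlin.trans (ENNReal.ofReal_le_ofReal (mul_le_mul_of_nonneg_left ?_ (Real.sqrt_nonneg S)))
      have h1 : 1 / 2 ≤ w x := by
        rw [hw, ha]
        show 1 / 2 ≤ κ ^ net.dist x x * ‖G x‖ / S
        rw [net.dist_self, pow_zero, one_mul, le_div_iff₀ h0]
        linarith
      have h2 : 1 / 4 ≤ ∑ y, w y ^ 2 := by
        have h3 : w x ^ 2 ≤ ∑ y, w y ^ 2 :=
          Finset.single_le_sum (f := fun y => w y ^ 2) (fun y _ => sq_nonneg (w y)) (Finset.mem_univ x)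
        nlinarith
      have h3 : (1 - h) * (1 / 4) ≤ (1 - h) * ∑ y, w y ^ 2 :=
        mul_le_mul_of_nonneg_left h2 (by linarith)
      have h4 : 9 / 80 * h * ((1 - h) * (1 / 4)) ≤ 9 / 80 * h * ((1 - h) * ∑ y, w y ^ 2) :=
        mul_le_mul_of_nonneg_left h3 (by positivity)
      nlinarith

end DynS

end

/-! ### from `Lib_MP_36b788s.OneC` -/

section

/-!
# ONE, part C: the field dies out for `N = 1` and small `k`

PROOF.
* `one_drift`: `w_x = 2^{-|x0-x|}`. `∫⁻ofReal(Ph1(stp)) = Σ_xw_x∫⁻ofReal√S1(stp) x ≤ Σ_{good}w_x√S_x(1-h/40)+Σ_{bad}w_x√S_x(1+h/1024)`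
  (good: `‖G x‖ ≥ S_x/2`, `one_site`) `= Ph1 - (h/40)Ph1 + h(1/40+1/1024)Φ_bad ≤ Ph1(1-h/80+h/2048) ≤ (1-h/512)Ph1` by `Φ_bad ≤ Ph1/2` (`one_bad`).
* `one_vanish`: `A = 2048(d+1)`, `k1 = 1/(A·128·9^d)`, `κ = A k`. `ev_drift` (`A = univ`): `ev (ofReal Ph1) n G ≤ ofReal(1-h/512)^n ofReal(Ph1 G)`.
  `min 1 ‖G x0‖ ≤ √‖G x0‖ ≤ √(S1 x0) ≤ Ph1` (term `x = x0`, `dist x0 x0 = 0`). Initial: `√S_x ≤ 1+S_x`, so
  `∫⁻ofReal(Ph1)d(pi ρ) ≤ Σ_xw_x(1+Σ_yκ^{|x-y|}m) ≤ 3^d(1+3^d m) =: Cρ`, `m = ∫‖x‖dρ` (`κ ≤ 1/2`, `sum_half`; marginals `measurePreserving_eval`; `‖x‖ ≤ 1+‖x‖²`).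
  `chainLaw_law`, `law_ev`: `∫⁻ofReal(min 1‖G x‖)dchainLaw n ≤ ofReal((1-h/512)^nCρ) ≤ ofReal(e^{-nh/512}Cρ) ≤ ofReal ε` for `nh ≥ T0 = 512 log(Cρ/ε+1)`
  (`e^{-T0/512} = 1/(Cρ/ε+1) ≤ ε/Cρ`). `h0` from `nuT_noise 1` and `1/1000`.
* `small_one`: `cmix_of_vanish`.
-/

open MeasureTheory ProbabilityTheory Dyn
open scoped ENNReal

namespace DynS

variable {N d : ℕ} {ι : Type} [Fintype ι]

private theorem OneC_S1_nonneg (net : Net ι d) {κ : ℝ} (hκ : 0 ≤ κ) (G : ι → E N) (x : ι) :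
    0 ≤ S1 net κ G x :=
  Finset.sum_nonneg fun _ _ => mul_nonneg (pow_nonneg hκ _) (norm_nonneg _)

private theorem OneC_Ph1_nonneg (net : Net ι d) (κ : ℝ) (x0 : ι) (G : ι → E N) :
    0 ≤ Ph1 net κ x0 G :=
  Finset.sum_nonneg fun _ _ => mul_nonneg (by positivity) (Real.sqrt_nonneg _)

private theorem OneC_S1_cont (net : Net ι d) (κ : ℝ) (x : ι) :
    Continuous (fun G : ι → E N => S1 net κ G x) := by
  unfold S1
  refine continuous_finsetSum _ fun y _ => ?_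
  exact continuous_const.mul (continuous_apply y).norm

private theorem OneC_Ph1_cont (net : Net ι d) (κ : ℝ) (x0 : ι) :
    Continuous (fun G : ι → E N => Ph1 net κ x0 G) := by
  unfold Ph1
  refine continuous_finsetSum _ fun x _ => ?_
  exact continuous_const.mul (OneC_S1_cont net κ x).sqrt

theorem one_drift (net : Net ι d) {β h κ k A : ℝ} (hβ : 0 < β) (hh : 0 < h) (hh1 : h < 1 / 1000)
    (hA : 0 < A) (hdA : 4 * d / A ≤ 1 / 512) (hk : 0 ≤ k) (hκ : κ = A * k)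
    (hκ1 : 128 * 9 ^ d * κ ≤ 1) {ν : Measure (E 1)} (hν : IsNoise h ν) (x0 : ι) (G : ι → E 1) :
    ∫⁻ ξ, ENNReal.ofReal (Ph1 net κ x0 (stp net β h k G ξ)) ∂(pim ι ν) ≤
      ENNReal.ofReal (1 - h / 512) * ENNReal.ofReal (Ph1 net κ x0 G) := by
  classical
  have hκ0 : 0 ≤ κ := by rw [hκ]; positivity
  have h9 : (1 : ℝ) ≤ 9 ^ d := one_le_pow₀ (by norm_num)
  have hκle : κ ≤ 1 := by nlinarith
  have hw0 : ∀ x, (0 : ℝ) ≤ (1 / 2 : ℝ) ^ net.dist x0 x := fun x => by positivity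
  have hstp : Measurable (fun ξ : ι → E 1 => stp net β h k G ξ) :=
    ((stp_continuous hβ hh.le k net).comp (continuous_const.prodMk continuous_id)).measurable
  let c : ι → ℝ := fun x => if ‖G x‖ < S1 net κ G x / 2 then 1 + h / 1024 else 1 - h / 40
  have hc0 : ∀ x, 0 ≤ c x := by
    intro x
    simp only [c]
    split_ifs <;> linarith
  have hsite : ∀ x, ∫⁻ ξ, ENNReal.ofReal (Real.sqrt (S1 net κ (stp net β h k G ξ) x)) ∂(pim ι ν) ≤
      ENNReal.ofReal (Real.sqrt (S1 net κ G x) * c x) := by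
    intro x
    have h1 := one_site net hβ hh hh1 hA hdA hk hκ hκle hν G x
    by_cases hx : ‖G x‖ < S1 net κ G x / 2
    · simp only [c, if_pos hx]
      exact h1.1
    · simp only [c, if_neg hx]
      exact h1.2 (not_lt.mp hx)
  have h1 : ∀ ξ : ι → E 1, ENNReal.ofReal (Ph1 net κ x0 (stp net β h k G ξ)) =
      ∑ x, ENNReal.ofReal ((1 / 2 : ℝ) ^ net.dist x0 x) *
        ENNReal.ofReal (Real.sqrt (S1 net κ (stp net β h k G ξ) x)) := by
    intro ξ
    unfold Ph1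
    rw [ENNReal.ofReal_sum_of_nonneg fun x _ => mul_nonneg (hw0 x) (Real.sqrt_nonneg _)]
    exact Finset.sum_congr rfl fun x _ => ENNReal.ofReal_mul (hw0 x)
  have hm : ∀ x, Measurable (fun ξ : ι → E 1 =>
      ENNReal.ofReal (Real.sqrt (S1 net κ (stp net β h k G ξ) x))) := fun x =>
    (((OneC_S1_cont net κ x).sqrt.measurable).comp hstp).ennreal_ofReal
  have h2 : ∫⁻ ξ, ENNReal.ofReal (Ph1 net κ x0 (stp net β h k G ξ)) ∂(pim ι ν) =
      ∑ x, ENNReal.ofReal ((1 / 2 : ℝ) ^ net.dist x0 x) *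
        ∫⁻ ξ, ENNReal.ofReal (Real.sqrt (S1 net κ (stp net β h k G ξ) x)) ∂(pim ι ν) := by
    simp only [h1]
    rw [lintegral_finsetSum _ fun x _ => (hm x).const_mul _]
    exact Finset.sum_congr rfl fun x _ => lintegral_const_mul _ (hm x)
  rw [h2, ← ENNReal.ofReal_mul (by linarith : (0 : ℝ) ≤ 1 - h / 512)]
  have h3 : ∑ x, ENNReal.ofReal ((1 / 2 : ℝ) ^ net.dist x0 x) *
        ∫⁻ ξ, ENNReal.ofReal (Real.sqrt (S1 net κ (stp net β h k G ξ) x)) ∂(pim ι ν) ≤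
      ENNReal.ofReal (∑ x, (1 / 2 : ℝ) ^ net.dist x0 x * (Real.sqrt (S1 net κ G x) * c x)) := by
    rw [ENNReal.ofReal_sum_of_nonneg fun x _ =>
      mul_nonneg (hw0 x) (mul_nonneg (Real.sqrt_nonneg _) (hc0 x))]
    refine Finset.sum_le_sum fun x _ => ?_
    rw [ENNReal.ofReal_mul (hw0 x)]
    gcongr
    exact hsite x
  refine h3.trans (ENNReal.ofReal_le_ofReal ?_)
  have h4 : ∑ x, (1 / 2 : ℝ) ^ net.dist x0 x * (Real.sqrt (S1 net κ G x) * c x) =
      (1 - h / 40) * Ph1 net κ x0 G + (h / 40 + h / 1024) *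
        ∑ x, (if ‖G x‖ < S1 net κ G x / 2 then
          (1 / 2 : ℝ) ^ net.dist x0 x * Real.sqrt (S1 net κ G x) else 0) := by
    unfold Ph1
    rw [Finset.mul_sum, Finset.mul_sum, ← Finset.sum_add_distrib]
    refine Finset.sum_congr rfl fun x _ => ?_
    by_cases hx : ‖G x‖ < S1 net κ G x / 2
    · simp only [c, if_pos hx]
      ring
    · simp only [c, if_neg hx]
      ring
  have h5 : ∑ x, (if ‖G x‖ < S1 net κ G x / 2 then
          (1 / 2 : ℝ) ^ net.dist x0 x * Real.sqrt (S1 net κ G x) else 0) ≤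
      1 / 2 * Ph1 net κ x0 G := by
    refine le_trans (le_of_eq ?_) (one_bad net hκ0 hκ1 x0 G)
    refine Finset.sum_congr rfl fun x _ => ?_
    congr
  have h6 := OneC_Ph1_nonneg net κ x0 G
  rw [h4]
  have h7 : (h / 40 + h / 1024) *
        ∑ x, (if ‖G x‖ < S1 net κ G x / 2 then
          (1 / 2 : ℝ) ^ net.dist x0 x * Real.sqrt (S1 net κ G x) else 0) ≤
      (h / 40 + h / 1024) * (1 / 2 * Ph1 net κ x0 G) :=
    mul_le_mul_of_nonneg_left h5 (by positivity)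
  have h8 : 0 ≤ h * Ph1 net κ x0 G := mul_nonneg hh.le h6
  nlinarith

/-- bound of the field by the potential -/
private theorem OneC_min (net : Net ι d) {κ : ℝ} (hκ : 0 ≤ κ) (x0 : ι) (G : ι → E N) :
    min 1 ‖G x0‖ ≤ Ph1 net κ x0 G := by
  have h1 : min 1 ‖G x0‖ ≤ Real.sqrt ‖G x0‖ := by
    refine Real.le_sqrt_of_sq_le ?_
    have h2 : 0 ≤ min 1 ‖G x0‖ := le_min zero_le_one (norm_nonneg _)
    calc (min 1 ‖G x0‖) ^ 2 = min 1 ‖G x0‖ * min 1 ‖G x0‖ := sq _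
      _ ≤ 1 * ‖G x0‖ := mul_le_mul (min_le_left _ _) (min_le_right _ _) h2 zero_le_one
      _ = ‖G x0‖ := one_mul _
  have h3 : ‖G x0‖ ≤ S1 net κ G x0 := by
    have h4 := Finset.single_le_sum (f := fun y => κ ^ net.dist x0 y * ‖G y‖)
      (fun y _ => mul_nonneg (pow_nonneg hκ _) (norm_nonneg _)) (Finset.mem_univ x0)
    simp only [net.dist_self, pow_zero, one_mul] at h4
    exact h4
  have h5 : Real.sqrt (S1 net κ G x0) ≤ Ph1 net κ x0 G := by
    have h6 := Finset.single_le_sum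
      (f := fun x => (1 / 2 : ℝ) ^ net.dist x0 x * Real.sqrt (S1 net κ G x))
      (fun y _ => mul_nonneg (by positivity) (Real.sqrt_nonneg _)) (Finset.mem_univ x0)
    simp only [net.dist_self, pow_zero, one_mul] at h6
    exact h6
  exact h1.trans ((Real.sqrt_le_sqrt h3).trans h5)

/-- the potential under the initial law -/
private theorem OneC_init (net : Net ι d) {κ : ℝ} (hκ : 0 ≤ κ) (hκ2 : κ ≤ 1 / 2) (x0 : ι)
    (ρ : Measure (E N)) [IsProbabilityMeasure ρ] (hρ : Integrable (fun x : E N => ‖x‖) ρ) :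
    ∫⁻ G, ENNReal.ofReal (Ph1 net κ x0 G) ∂(Measure.pi (fun _ : ι => ρ)) ≤
      ENNReal.ofReal (3 ^ d * (1 + 3 ^ d * ∫ x, ‖x‖ ∂ρ)) := by
  have hm0 : 0 ≤ ∫ x, ‖x‖ ∂ρ := integral_nonneg fun x => norm_nonneg x
  have hint : ∀ y : ι, Integrable (fun G : ι → E N => ‖G y‖) (Measure.pi (fun _ : ι => ρ)) :=
    fun y => integrable_comp_eval (μ := fun _ : ι => ρ) (i := y) (f := fun x : E N => ‖x‖) hρ
  have hval : ∀ y : ι, ∫ G : ι → E N, ‖G y‖ ∂(Measure.pi (fun _ : ι => ρ)) = ∫ x, ‖x‖ ∂ρ :=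
    fun y => integral_comp_eval (μ := fun _ : ι => ρ) (i := y) (f := fun x : E N => ‖x‖)
      hρ.aestronglyMeasurable
  have hS : ∀ x : ι, Integrable (fun G : ι → E N => S1 net κ G x)
      (Measure.pi (fun _ : ι => ρ)) := fun x =>
    integrable_finsetSum _ fun y _ => (hint y).const_mul _
  have hSv : ∀ x : ι, ∫ G : ι → E N, S1 net κ G x ∂(Measure.pi (fun _ : ι => ρ)) ≤
      3 ^ d * ∫ x, ‖x‖ ∂ρ := by
    intro x
    unfold S1
    rw [integral_finsetSum _ fun y _ => (hint y).const_mul _]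
    simp only [integral_const_mul, hval]
    rw [← Finset.sum_mul]
    refine mul_le_mul_of_nonneg_right ?_ hm0
    refine le_trans (Finset.sum_le_sum fun y _ => ?_) (net.sum_half x)
    exact pow_le_pow_left₀ hκ hκ2 _
  have hT : ∀ x : ι, Integrable (fun G : ι → E N =>
      (1 / 2 : ℝ) ^ net.dist x0 x * (1 + S1 net κ G x)) (Measure.pi (fun _ : ι => ρ)) :=
    fun x => ((integrable_const (1 : ℝ)).add (hS x)).const_mul _
  have hI : Integrable (fun G : ι → E N =>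
      ∑ x, (1 / 2 : ℝ) ^ net.dist x0 x * (1 + S1 net κ G x)) (Measure.pi (fun _ : ι => ρ)) :=
    integrable_finsetSum _ fun x _ => hT x
  have hle : ∀ G : ι → E N, Ph1 net κ x0 G ≤
      ∑ x, (1 / 2 : ℝ) ^ net.dist x0 x * (1 + S1 net κ G x) := by
    intro G
    refine Finset.sum_le_sum fun x _ => mul_le_mul_of_nonneg_left ?_ (by positivity)
    have h1 := OneC_S1_nonneg net hκ G x
    refine Real.sqrt_le_iff.mpr ⟨by linarith, by nlinarith⟩
  calc ∫⁻ G, ENNReal.ofReal (Ph1 net κ x0 G) ∂(Measure.pi (fun _ : ι => ρ))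
      ≤ ∫⁻ G, ENNReal.ofReal (∑ x, (1 / 2 : ℝ) ^ net.dist x0 x * (1 + S1 net κ G x))
          ∂(Measure.pi (fun _ : ι => ρ)) :=
        lintegral_mono fun G => ENNReal.ofReal_le_ofReal (hle G)
    _ = ENNReal.ofReal (∫ G, (∑ x, (1 / 2 : ℝ) ^ net.dist x0 x * (1 + S1 net κ G x))
          ∂(Measure.pi (fun _ : ι => ρ))) := by
        refine (ofReal_integral_eq_lintegral_ofReal hI ?_).symm
        exact Filter.Eventually.of_forall fun G => (OneC_Ph1_nonneg net κ x0 G).trans (hle G)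
    _ ≤ ENNReal.ofReal (3 ^ d * (1 + 3 ^ d * ∫ x, ‖x‖ ∂ρ)) := by
        refine ENNReal.ofReal_le_ofReal ?_
        rw [integral_finsetSum _ fun x _ => hT x]
        have h1 : ∀ x ∈ (Finset.univ : Finset ι),
            ∫ G, (1 / 2 : ℝ) ^ net.dist x0 x * (1 + S1 net κ G x)
              ∂(Measure.pi (fun _ : ι => ρ)) ≤
            (1 / 2 : ℝ) ^ net.dist x0 x * (1 + 3 ^ d * ∫ x, ‖x‖ ∂ρ) := by
          intro x _
          rw [integral_const_mul, integral_add (integrable_const _) (hS x)]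
          refine mul_le_mul_of_nonneg_left ?_ (by positivity)
          simp only [integral_const, probReal_univ, smul_eq_mul, mul_one]
          linarith [hSv x]
        refine (Finset.sum_le_sum h1).trans ?_
        rw [← Finset.sum_mul]
        exact mul_le_mul_of_nonneg_right (net.sum_half x0) (by positivity)

theorem small_one (d : ℕ) (β : ℝ) (hβ : 0 < β) : ∃ k1 : ℝ, 0 < k1 ∧ ∀ k : ℝ, 0 ≤ k → k ≤ k1 →
    CMix 1 d β k (fun h => nuT 1 h) := by
  have hd0 : (0 : ℝ) ≤ d := Nat.cast_nonneg d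
  have h9 : (1 : ℝ) ≤ 9 ^ d := one_le_pow₀ (by norm_num)
  set A : ℝ := 2048 * (d + 1) with hAdef
  have hA : 0 < A := by positivity
  have hdA : 4 * d / A ≤ 1 / 512 := by
    rw [div_le_div_iff₀ hA (by norm_num)]
    rw [hAdef]
    linarith
  refine ⟨1 / (A * 128 * 9 ^ d), by positivity, fun k hk hk1 => ?_⟩
  have hκ1 : 128 * 9 ^ d * (A * k) ≤ 1 := by
    have h1 : k * (A * 128 * 9 ^ d) ≤ 1 := (le_div_iff₀ (by positivity)).mp hk1
    linarith
  have hκ0 : 0 ≤ A * k := by positivity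
  have hκ2 : A * k ≤ 1 / 2 := by nlinarith
  refine cmix_of_vanish 1 d β k le_rfl hβ fun ρ _ _ hρ2 ε hε => ?_
  have hρ : Integrable (fun x : E 1 => ‖x‖) ρ := by
    refine ((integrable_const (1 : ℝ)).add hρ2).mono' continuous_norm.aestronglyMeasurable
      (Filter.Eventually.of_forall fun x => ?_)
    rw [Real.norm_eq_abs, abs_of_nonneg (norm_nonneg _)]
    show ‖x‖ ≤ 1 + ‖x‖ ^ 2
    nlinarith [sq_nonneg (‖x‖ - 1), norm_nonneg x]
  have hm0 : 0 ≤ ∫ x, ‖x‖ ∂ρ := integral_nonneg fun x => norm_nonneg x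
  set C : ℝ := 3 ^ d * (1 + 3 ^ d * ∫ x, ‖x‖ ∂ρ) with hC
  have hC0 : 0 < C := by positivity
  have hq : 0 ≤ C / ε := by positivity
  refine ⟨512 * Real.log (C / ε + 1), ?_, fun L Sm _ => ?_⟩
  · have := Real.log_nonneg (by linarith : (1 : ℝ) ≤ C / ε + 1)
    positivity
  obtain ⟨h1, h1pos, hnoise⟩ := nuT_noise 1 le_rfl
  refine ⟨min h1 (1 / 1000), lt_min h1pos (by norm_num), fun h hh hlt n hn _ x => ?_⟩
  have hν := hnoise h hh (hlt.trans_le (min_le_left _ _))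
  have hh1 : h < 1 / 1000 := hlt.trans_le (min_le_right _ _)
  have hp := hν.prob
  have hpm : IsProbabilityMeasure (pim (boxS d L) (nuT 1 h)) := by
    unfold pim
    infer_instance
  have hf := (stp_continuous (N := 1) hβ hh.le k (boxNet d L)).measurable
  have hφ : Measurable (fun G : boxS d L → E 1 =>
      ENNReal.ofReal (Ph1 (boxNet d L) (A * k) x G)) :=
    (OneC_Ph1_cont (boxNet d L) (A * k) x).measurable.ennreal_ofReal
  have hr : (0 : ℝ) ≤ 1 - h / 512 := by linarith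
  have hev : ∀ G : boxS d L → E 1, ev (stp (boxNet d L) β h k) (pim (boxS d L) (nuT 1 h))
      (fun G => ENNReal.ofReal (Ph1 (boxNet d L) (A * k) x G)) n G ≤
        (ENNReal.ofReal (1 - h / 512)) ^ n *
          ENNReal.ofReal (Ph1 (boxNet d L) (A * k) x G) := fun G =>
    ev_drift (f := stp (boxNet d L) β h k) hf Set.univ (fun _ _ => Filter.Eventually.of_forall
      fun _ => Set.mem_univ _) hφ _
      (fun G _ => one_drift (boxNet d L) hβ hh hh1 hA hdA hk rfl hκ1 hν x G) n G (Set.mem_univ G)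
  have hexp : (1 - h / 512) ^ n * C ≤ ε := by
    have h2 : (1 - h / 512) ^ n ≤ Real.exp (-(n * h) / 512) := by
      have h3 : 1 - h / 512 ≤ Real.exp (-(h / 512)) := by
        have := Real.add_one_le_exp (-(h / 512))
        linarith
      calc (1 - h / 512) ^ n ≤ (Real.exp (-(h / 512))) ^ n := pow_le_pow_left₀ hr h3 n
        _ = Real.exp (-(n * h) / 512) := by
          rw [← Real.exp_nat_mul]
          congr 1
          ring
    have h4 : Real.exp (-(n * h) / 512) ≤ Real.exp (-Real.log (C / ε + 1)) := by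
      refine Real.exp_le_exp.mpr ?_
      linarith
    have h5 : Real.exp (-Real.log (C / ε + 1)) = 1 / (C / ε + 1) := by
      rw [Real.exp_neg, Real.exp_log (by linarith), one_div]
    have h6 : (1 - h / 512) ^ n ≤ 1 / (C / ε + 1) := (h2.trans h4).trans (le_of_eq h5)
    calc (1 - h / 512) ^ n * C ≤ 1 / (C / ε + 1) * C := mul_le_mul_of_nonneg_right h6 hC0.le
      _ ≤ ε := by
        rw [one_div, inv_mul_le_iff₀ (by linarith), add_mul, div_mul_cancel₀ _ hε.ne']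
        linarith
  calc ∫⁻ G, ENNReal.ofReal (min 1 ‖G x‖)
        ∂(chainLaw (boxNet d L) β h k (nuT 1 h) (Measure.pi (fun _ => ρ)) n)
      ≤ ∫⁻ G, ENNReal.ofReal (Ph1 (boxNet d L) (A * k) x G)
        ∂(chainLaw (boxNet d L) β h k (nuT 1 h) (Measure.pi (fun _ => ρ)) n) :=
        lintegral_mono fun G => ENNReal.ofReal_le_ofReal (OneC_min (boxNet d L) hκ0 x G)
    _ = ∫⁻ G, ev (stp (boxNet d L) β h k) (pim (boxS d L) (nuT 1 h))
          (fun G => ENNReal.ofReal (Ph1 (boxNet d L) (A * k) x G)) n G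
          ∂(Measure.pi (fun _ => ρ)) := by
        rw [chainLaw_law]
        exact law_ev hf _ hφ n
    _ ≤ ∫⁻ G, (ENNReal.ofReal (1 - h / 512)) ^ n *
          ENNReal.ofReal (Ph1 (boxNet d L) (A * k) x G) ∂(Measure.pi (fun _ => ρ)) :=
        lintegral_mono fun G => hev G
    _ = (ENNReal.ofReal (1 - h / 512)) ^ n *
          ∫⁻ G, ENNReal.ofReal (Ph1 (boxNet d L) (A * k) x G) ∂(Measure.pi (fun _ => ρ)) :=
        lintegral_const_mul _ hφ
    _ ≤ (ENNReal.ofReal (1 - h / 512)) ^ n * ENNReal.ofReal C := by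
        gcongr
        exact OneC_init (boxNet d L) hκ0 hκ2 x ρ hρ
    _ = ENNReal.ofReal ((1 - h / 512) ^ n * C) := by
        rw [ENNReal.ofReal_mul (pow_nonneg hr n), ENNReal.ofReal_pow hr]
    _ ≤ ENNReal.ofReal ε := ENNReal.ofReal_le_ofReal hexp

end DynS

end

/-! ### from `Lib_MP_36b788c.BLink1` -/

section

/-!
# The two families of chains and the links to `ChainMix`

* `Fam1 N d β k`: the Gaussian chain `stp` with values in `E N`.
* `Fam2 d β k`: values in `ℂ`, `G⁺ = J(e^{√h η} G) + k h coup G`, `η` complex Gaussian with independent standard normal real and imaginary parts.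
* `PS2`: pair system for `Fam2` (same noise). `b = √h Re η`.

PROOF.
* `link1`: `F.pathE = pathE`, `F.law = chainLaw` by induction on the list / on `n` (`coupV = coup`, `JV = J` by definition), for `k > 0` the clause `k = 0 → …` is empty.
* `BNoise` for `PS2`: `Re η ~ N(0,1)`: `∫ e^{r √h Re η} = e^{r² h/2}` and the part outside `gd` is `≤ h²` (Gaussian tail `P(|η| > h^{-1/8}) ≤ 2e^{-h^{-1/4}/4}`, Cauchy-Schwarz).
* `PS2` facts: `‖JV v‖ = psi ‖v‖` (`norm_J`), `JV` nonexpansive (as `J_nonexp`; its proof uses only the inner product), `‖e^{√h η} G‖ = e^{b} ‖G‖`.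
* `link2`: (1) the chain `stp` for `N = 2` has the same transition kernel as `G⁺ = J(G (1+√h ζ)) + k h coup` on `ℂ` (identification `ℂ ≃ₗᵢ E 2`; `‖G‖ξ` and `G ζ` have the same law by isotropy). (2) Same noise `ζ = η` for this chain (values `G'`) and `Fam2` (values `G`) started
  at the same configuration: `D = G' - G`, `r = e^{√h η} - 1 - √h η`: `E r = 0`, `E[conj(1+√h η) r] = 0` (`E conj(η) η^j = 0` for `j ≥ 2`), `E|r|² ≤ C h²`, so `E|D(1+√hη) - G r|² = |D|²(1+2h) + |G|² E|r|²`, and with `(a+b)² ≤ (1+h)a² + (1+1/h)b²` for the coupling term: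
  `E Σ_x|D⁺|² ≤ (1+Ch) Σ|D|² + C h² Σ|G|²`; `E Σ|G_n|² ≤ e^{C n h} E Σ|G_0|²`. So `E Σ_x|D_n(x)|² ≤ C h` for `n h ≤ 2 Sm`. (3) In `ChainMix` replace both trajectories (times `n1 + i`, `n2 + i`) by those of `Fam2`: product of at most `J` Lipschitz functions:
  error `≤ 2 J CF Σ_x E min(1,|D|) ≤ C √h`. Then `Mix` with `δ/2`.
-/

open MeasureTheory ProbabilityTheory
open scoped ENNReal

namespace DynC

open Dyn

private theorem BLink1_pathE (N d : ℕ) (β k h : ℝ) (L : ℕ)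
    (fs : List ((boxS d L → E N) → ℂ)) (G : boxS d L → E N) :
    (Fam1 N d β k).pathE h L fs G = pathE (boxNet d L) β h k (stdGaussian (E N)) fs G := by
  induction fs generalizing G with
  | nil => rfl
  | cons f fs ih =>
    have ih' : (fun ξ : boxS d L → E N => (Fam1 N d β k).pathE h L fs
        (stp (boxNet d L) β h k G ξ)) =
        fun ξ => pathE (boxNet d L) β h k (stdGaussian (E N)) fs
          (stp (boxNet d L) β h k G ξ) := funext fun ξ => ih _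
    show f G * ∫ ξ, (Fam1 N d β k).pathE h L fs (stp (boxNet d L) β h k G ξ)
        ∂(Measure.pi fun _ : boxS d L => stdGaussian (E N)) = f G *
      ∫ ξ, pathE (boxNet d L) β h k (stdGaussian (E N)) fs (stp (boxNet d L) β h k G ξ)
        ∂(pim (boxS d L) (stdGaussian (E N)))
    rw [ih']
    rfl

private theorem BLink1_law (N d : ℕ) (β k h : ℝ) (L : ℕ) (m0 : Measure (boxS d L → E N)) (n : ℕ) :
    (Fam1 N d β k).law h L m0 n = chainLaw (boxNet d L) β h k (stdGaussian (E N)) m0 n := by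
  induction n with
  | zero => rfl
  | succ n ih =>
    show (((Fam1 N d β k).law h L m0 n).prod
        (Measure.pi fun _ : boxS d L => stdGaussian (E N))).map
        (fun q => stp (boxNet d L) β h k q.1 q.2) =
      ((chainLaw (boxNet d L) β h k (stdGaussian (E N)) m0 n).prod
        (pim (boxS d L) (stdGaussian (E N)))).map (fun q => stp (boxNet d L) β h k q.1 q.2)
    rw [ih]
    rfl

theorem link1 (N d : ℕ) (β k : ℝ) (hβ : 0 < β) (hk : 0 < k) (h : (Fam1 N d β k).Mix) :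
    DynB.ChainMix N d β k := by
  intro ρ1 ρ2 p1 p2 h1 h2 i1 i2 R J CF δ hCF hδ
  obtain ⟨T0, L0, hT0, hL0, H⟩ := @h ρ1 ρ2 p1 p2 h1 h2 i1 i2 R J CF δ hCF hδ
  refine ⟨T0, L0, hT0, hL0, fun h0 => absurd h0 hk.ne', ?_⟩
  intro L _ hL Sm hSm
  obtain ⟨h0, hh0, H2⟩ := H L hL Sm hSm
  refine ⟨h0, hh0, ?_⟩
  intro h hh hh1 n1 n2 M hn1 hn2 hM F I hI hFm hFb hFI hFL
  have := H2 h hh hh1 n1 n2 M hn1 hn2 hM F I hI hFm hFb hFI hFL
  have e1 := BLink1_law N d β k h L (Measure.pi (fun _ => ρ1)) n1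
  have e2 := BLink1_law N d β k h L (Measure.pi (fun _ => ρ2)) n2
  have e3 : ∀ G : boxS d L → E N, (Fam1 N d β k).pathE h L ((List.range M).map F) G =
      pathE (boxNet d L) β h k (stdGaussian (E N)) ((List.range M).map F) G :=
    fun G => BLink1_pathE N d β k h L _ G
  rw [← e1, ← e2]
  simp only [← e3]
  exact this

end DynC

end

/-! ### from `Lib_MP_36b788c.LYit` -/

section

/-!
# Iteration of the decay; exchange of the components

PROOF.
* `PSys.swap`: exchange the components before and after the step; all fields from those of `S` (`dif` is symmetric by `norm_sub_rev`).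
* `swap_tr`, `swap_alv`: induction; the conditions are symmetric. `swap_V`: `V1` of the exchanged pair is `V2` (`add_comm` in `t`).
* `ly_iter`: `s = a/ell`, `J = ⌊T/T0⌋ - 1 ≥ 1`, `n0 = ⌈T0 ts/h⌉`, `n_B = ⌈T ts/h⌉`. `J n0 ≤ n_B` for small `h`. `alv_markov`: `E_j = ∫_{alv (j n0)} V1(tr (j n0)) x`, `E_{j+1} ≤ (1-a/4) E_j + Ca` (one step property applied to the state at time `j n0`, total mass `≤ 1`), so `E_J ≤ (1-a/4)^J V1 + 4Ca/a`. Remainder `r = n_B - J n0`, `r h ≤ 2 T0 ts + 2`: `sm_multi`,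
  `≤ exp(C9(s/ell + s²)(2T0 ts + 2)) ≤ exp(C9(2T0+2)) =: B0` (`ts ≤ ell²`, `a ≤ 1/8`). `(1-a/4)^J ≤ exp(-(a/4)(T/T0 - 2))`.
-/

open MeasureTheory ProbabilityTheory
open scoped ENNReal

namespace DynC

open Dyn

variable {d : ℕ}

/-- exchange of the two components -/
def PSys.swap {F : Fam d} {β k : ℝ} (S : PSys F β k) : PSys F β k where
  Ωp := S.Ωp
  ν := S.ν
  b := S.b
  gd := S.gd
  st := fun h L G ω => (S.st h L G.swap ω).swap
  mst := by
    intro h L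
    have h1 : Measurable (fun p : ((boxS d L → F.V) × (boxS d L → F.V)) × (boxS d L → S.Ωp) =>
        (p.1.swap, p.2)) := (measurable_swap.comp measurable_fst).prodMk measurable_snd
    exact measurable_swap.comp ((S.mst h L).comp h1)
  mb := S.mb
  mgd := S.mgd
  marg1 := by
    intro h L G
    exact S.marg2 h L G.swap
  marg2 := by
    intro h L G
    exact S.marg1 h L G.swap
  q1 := by
    intro h L G ω hh hg
    exact S.q2 h L G.swap ω hh hg
  q2 := by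
    intro h L G ω hh hg
    exact S.q1 h L G.swap ω hh hg
  u1 := by
    intro h L G ω hh x
    exact S.u2 h L G.swap ω hh x
  u2 := by
    intro h L G ω hh x
    exact S.u1 h L G.swap ω hh x
  dd := by
    intro h L G ω hh
    have h1 := S.dd h L G.swap ω hh
    have e1 : dif G.swap.1 G.swap.2 = dif G.1 G.2 := by
      funext x
      exact norm_sub_rev _ _
    have e2 : dif (S.st h L G.swap ω).1 (S.st h L G.swap ω).2 =
        dif (S.st h L G.swap ω).swap.1 (S.st h L G.swap ω).swap.2 := by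
      funext x
      exact norm_sub_rev _ _
    rw [e1, e2] at h1
    exact h1

theorem swap_tr {F : Fam d} {β k : ℝ} (S : PSys F β k) (h : ℝ) (L : ℕ)
    (G : (boxS d L → F.V) × (boxS d L → F.V)) (ω : ℕ → boxS d L → S.Ωp) (n : ℕ) :
    S.swap.tr h L G ω n = (S.tr h L G.swap ω n).swap := by
  induction n with
  | zero => rfl
  | succ n ih =>
    show (S.st h L (S.swap.tr h L G ω n).swap (ω n)).swap =
      (S.st h L (S.tr h L G.swap ω n) (ω n)).swap
    rw [ih, Prod.swap_swap]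

theorem swap_alv {F : Fam d} {β k : ℝ} (S : PSys F β k) (h : ℝ) (L : ℕ)
    (G : (boxS d L → F.V) × (boxS d L → F.V)) (n : ℕ) :
    S.swap.alv h L G n = S.alv h L G.swap n := by
  ext ω
  show ((∀ j, j < n → ∀ x, ω j x ∈ S.gd h) ∧
      ∀ j, j ≤ n → ∀ x, ‖(S.swap.tr h L G ω j).1 x‖ ≤ rad β h ∧
        ‖(S.swap.tr h L G ω j).2 x‖ ≤ rad β h) ↔
    ((∀ j, j < n → ∀ x, ω j x ∈ S.gd h) ∧
      ∀ j, j ≤ n → ∀ x, ‖(S.tr h L G.swap ω j).1 x‖ ≤ rad β h ∧
        ‖(S.tr h L G.swap ω j).2 x‖ ≤ rad β h)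
  constructor
  · rintro ⟨h1, h2⟩
    refine ⟨h1, ?_⟩
    intro j hj x
    have h3 := h2 j hj x
    rw [swap_tr] at h3
    exact ⟨h3.2, h3.1⟩
  · rintro ⟨h1, h2⟩
    refine ⟨h1, ?_⟩
    intro j hj x
    have h3 := h2 j hj x
    rw [swap_tr]
    exact ⟨h3.2, h3.1⟩

theorem swap_V {V : Type} [NormedAddCommGroup V] {L : ℕ} (k q s : ℝ)
    (G : (boxS d L → V) × (boxS d L → V)) (x : boxS d L) :
    V1 k q s G.swap x = V2 k q s G x ∧ V2 k q s G.swap x = V1 k q s G x := by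
  have e : (fun y : boxS d L => ‖G.swap.1 y‖ + ‖G.swap.2 y‖) = fun y => ‖G.1 y‖ + ‖G.2 y‖ := by
    funext y
    exact add_comm _ _
  unfold V1 V2
  rw [e]
  exact ⟨rfl, rfl⟩

/-- iteration of a one-block estimate -/
private theorem LYit_iter {F : Fam d} {β k : ℝ} (S : PSys F β k) (h : ℝ) (L : ℕ)
    (Φ : (boxS d L → F.V) × (boxS d L → F.V) → ℝ≥0∞) (hΦ : Measurable Φ) (A B : ℝ≥0∞) (m : ℕ)
    (hstep : ∀ G : (boxS d L → F.V) × (boxS d L → F.V),
      ∫⁻ ω in S.alv h L G m, Φ (S.tr h L G ω m) ∂(PI (S.mu L)) ≤ A * Φ G + B)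
    (G : (boxS d L → F.V) × (boxS d L → F.V)) (j : ℕ) :
    ∫⁻ ω in S.alv h L G (j * m), Φ (S.tr h L G ω (j * m)) ∂(PI (S.mu L)) ≤
      A ^ j * Φ G + B * ∑ i ∈ Finset.range j, A ^ i := by
  induction j with
  | zero =>
    rw [Nat.zero_mul]
    have h1 : ∀ ω, Φ (S.tr h L G ω 0) = Φ G := fun _ => rfl
    simp_rw [h1]
    rw [setLIntegral_const]
    calc Φ G * PI (S.mu L) (S.alv h L G 0) ≤ Φ G * 1 := by gcongr; exact prob_le_one
      _ ≤ A ^ 0 * Φ G + B * ∑ i ∈ Finset.range 0, A ^ i := by simp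
  | succ j ih =>
    rw [Nat.succ_mul, alv_markov S h L Φ hΦ G (j * m) m]
    have hmtr : Measurable fun ω : ℕ → boxS d L → S.Ωp => Φ (S.tr h L G ω (j * m)) :=
      hΦ.comp ((measurable_tr S h L (j * m)).comp (measurable_const.prodMk measurable_id))
    calc ∫⁻ ω in S.alv h L G (j * m), (∫⁻ ω' in S.alv h L (S.tr h L G ω (j * m)) m,
          Φ (S.tr h L (S.tr h L G ω (j * m)) ω' m) ∂(PI (S.mu L))) ∂(PI (S.mu L))
        ≤ ∫⁻ ω in S.alv h L G (j * m), (A * Φ (S.tr h L G ω (j * m)) + B) ∂(PI (S.mu L)) :=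
          lintegral_mono fun ω => hstep _
      _ = A * ∫⁻ ω in S.alv h L G (j * m), Φ (S.tr h L G ω (j * m)) ∂(PI (S.mu L)) +
          B * PI (S.mu L) (S.alv h L G (j * m)) := by
          rw [lintegral_add_right _ measurable_const, lintegral_const_mul _ hmtr,
            setLIntegral_const]
      _ ≤ A * (A ^ j * Φ G + B * ∑ i ∈ Finset.range j, A ^ i) + B * 1 := by
          gcongr
          exact prob_le_one
      _ = A ^ (j + 1) * Φ G + B * ∑ i ∈ Finset.range (j + 1), A ^ i := by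
          rw [Finset.sum_range_succ']
          simp_rw [pow_succ]
          rw [← Finset.sum_mul, pow_zero, mul_add, mul_add]
          ring

/-- geometric sum with ratio `1 - a/4` -/
private theorem LYit_geom (a : ℝ) (ha : 0 < a) (ha8 : a ≤ 1 / 8) (j : ℕ) :
    ∑ i ∈ Finset.range j, ENNReal.ofReal (1 - a / 4) ^ i ≤ ENNReal.ofReal (4 / a) := by
  have h1 : (0 : ℝ) ≤ 1 - a / 4 := by linarith
  have h2 : ∀ i, ENNReal.ofReal (1 - a / 4) ^ i = ENNReal.ofReal ((1 - a / 4) ^ i) := fun i =>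
    (ENNReal.ofReal_pow h1 i).symm
  simp_rw [h2]
  rw [← ENNReal.ofReal_sum_of_nonneg (fun i _ => pow_nonneg h1 i)]
  refine ENNReal.ofReal_le_ofReal ?_
  have h3 : (∑ i ∈ Finset.range j, (1 - a / 4) ^ i) * (1 - (1 - a / 4)) =
      1 - (1 - a / 4) ^ j := by
    have := geom_sum_mul (1 - a / 4) j
    linarith
  have h4 : (0 : ℝ) ≤ (1 - a / 4) ^ j := pow_nonneg h1 j
  rw [le_div_iff₀ ha]
  nlinarith

/-- powers of `1 - a/4` -/
private theorem LYit_pow (a T T0 : ℝ) (ha : 0 < a) (ha8 : a ≤ 1 / 8) (hT0 : 0 < T0)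
    (J : ℕ) (hJ : T / T0 - 2 ≤ J) :
    (1 - a / 4) ^ J ≤ 4 * Real.exp (-(1 / (4 * T0) * a * T)) := by
  have h1 : (1 - a / 4) ^ J ≤ Real.exp (-(a / 4)) ^ J := by
    refine pow_le_pow_left₀ (by linarith) ?_ J
    have := Real.add_one_le_exp (-(a / 4))
    linarith
  rw [← Real.exp_nat_mul] at h1
  have h2 : (J : ℝ) * -(a / 4) ≤ a / 2 + -(1 / (4 * T0) * a * T) := by
    have e : 1 / (4 * T0) * a * T = a / 4 * (T / T0) := by
      field_simp
    rw [e]
    nlinarith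
  have h3 : Real.exp (a / 2) ≤ 4 := by
    have h4 : Real.exp (a / 2) ≤ Real.exp 1 := Real.exp_le_exp.2 (by linarith)
    have h5 := Real.exp_one_lt_d9
    linarith
  calc (1 - a / 4) ^ J ≤ Real.exp ((J : ℝ) * -(a / 4)) := h1
    _ ≤ Real.exp (a / 2 + -(1 / (4 * T0) * a * T)) := Real.exp_le_exp.2 h2
    _ = Real.exp (a / 2) * Real.exp (-(1 / (4 * T0) * a * T)) := Real.exp_add _ _
    _ ≤ 4 * Real.exp (-(1 / (4 * T0) * a * T)) := by gcongr

/-- large `ell` -/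
private theorem LYit_ell (M k : ℝ) (hk : 0 < k) (hkM : k < Real.exp (-M)) : M ≤ ell k := by
  unfold ell
  rw [one_div, Real.log_inv]
  have h1 : Real.log k < Real.log (Real.exp (-M)) := Real.log_lt_log hk hkM
  rw [Real.log_exp] at h1
  linarith

private theorem LYit_ts (N : ℕ) (k : ℝ) (hell : 1 ≤ ell k) : 1 ≤ ts N k ∧ ts N k ≤ ell k ^ 2 := by
  unfold ts
  split_ifs
  · exact ⟨by nlinarith, le_rfl⟩
  · exact ⟨hell, by nlinarith⟩

/-- exponent of the growth over the remainder -/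
private theorem LYit_expo (C9 a T0 l τ rh : ℝ) (hC9 : 0 < C9) (ha : 0 < a) (ha8 : a ≤ 1 / 8)
    (hT0 : 0 < T0) (hl : 1 ≤ l) (hτ : τ ≤ l ^ 2) (hr0 : 0 ≤ rh) (hr : rh ≤ 2 * T0 * τ + 1) :
    C9 * (a / l / l + (a / l) ^ 2) * rh ≤ C9 * (2 * T0 + 1) := by
  have hl0 : 0 < l := by linarith
  have e1 : a / l / l + (a / l) ^ 2 = (a + a ^ 2) / l ^ 2 := by
    field_simp
  have h1 : (a + a ^ 2) / l ^ 2 ≤ 1 / l ^ 2 := by
    gcongr
    nlinarith
  have h2 : rh ≤ (2 * T0 + 1) * l ^ 2 := by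
    have : 1 ≤ l ^ 2 := by nlinarith
    nlinarith
  rw [e1]
  calc C9 * ((a + a ^ 2) / l ^ 2) * rh ≤ C9 * (1 / l ^ 2) * ((2 * T0 + 1) * l ^ 2) := by
        gcongr
    _ = C9 * (2 * T0 + 1) := by
        field_simp

theorem ly_iter (N d : ℕ) (β : ℝ) (hN : 2 ≤ N) (hβ : 0 < β) : ∃ q0 : ℝ, 1 ≤ q0 ∧
    ∀ q, q0 ≤ q → ∀ T0 : ℝ, 0 < T0 → ∃ B c : ℝ, 1 ≤ B ∧ 0 < c ∧
    ∀ (a Ca : ℝ) (Ls : ℕ), 0 < a → a ≤ 1 / 8 → 0 ≤ Ca →
    ∀ (F : ℝ → Fam d) (S : ∀ k, 0 < k → PSys (F k) β k),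
    (∀ k hk, BNoise N (S k hk).ν (S k hk).b (S k hk).gd) →
    (∃ k0 : ℝ, 0 < k0 ∧ k0 < 1 ∧ ∀ (k : ℝ) (hk : 0 < k), k < k0 →
      ∀ L : ℕ, Ls ≤ L → ∃ h0 : ℝ, 0 < h0 ∧ ∀ h, 0 < h → h < h0 →
      ∀ (G : (boxS d L → (F k).V) × (boxS d L → (F k).V)) (x : boxS d L) (n : ℕ),
        T0 * ts N k ≤ n * h → n * h ≤ T0 * ts N k + 1 →
        ∫⁻ ω in (S k hk).alv h L G n, V1 k q (a / ell k) ((S k hk).tr h L G ω n) x
            ∂(PI ((S k hk).mu L)) ≤
          ENNReal.ofReal (1 - a / 4) * V1 k q (a / ell k) G x + ENNReal.ofReal Ca) →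
    ∀ T : ℝ, 2 * T0 ≤ T → ∃ k0 : ℝ, 0 < k0 ∧ k0 < 1 ∧ ∀ (k : ℝ) (hk : 0 < k), k < k0 →
      ∀ L : ℕ, Ls ≤ L → ∃ h0 : ℝ, 0 < h0 ∧ ∀ h, 0 < h → h < h0 →
      ∀ (G : (boxS d L → (F k).V) × (boxS d L → (F k).V)) (x : boxS d L),
        ∫⁻ ω in (S k hk).alv h L G ⌈T * ts N k / h⌉₊,
            V1 k q (a / ell k) ((S k hk).tr h L G ω ⌈T * ts N k / h⌉₊) x
            ∂(PI ((S k hk).mu L)) ≤
          ENNReal.ofReal (B * Real.exp (-(c * a * T))) * V1 k q (a / ell k) G x +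
            ENNReal.ofReal (B * Ca / a) := by
  obtain ⟨q0, hq0, H⟩ := sm_multi N d β hN hβ
  refine ⟨q0, hq0, ?_⟩
  intro q hq T0 hT0
  obtain ⟨C9, k1, hC9, hk1, hk11, H1⟩ := H q hq
  have hq1 : 1 ≤ q := le_trans hq0 hq
  have hB0 : 1 ≤ Real.exp (C9 * (2 * T0 + 1)) := Real.one_le_exp (by positivity)
  refine ⟨4 * Real.exp (C9 * (2 * T0 + 1)), 1 / (4 * T0), by linarith, by positivity, ?_⟩
  intro a Ca Ls ha ha8 hCa F S hB hone T hT
  obtain ⟨k2, hk2, hk21, H2⟩ := hone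
  have hkmin : 0 < min (min k1 k2) (Real.exp (-q)) :=
    lt_min (lt_min hk1 hk2) (Real.exp_pos _)
  refine ⟨min (min k1 k2) (Real.exp (-q)), hkmin, ?_, ?_⟩
  · exact lt_of_le_of_lt (le_trans (min_le_left _ _) (min_le_left _ _)) hk11
  intro k hk hkk L hL
  have hkk1 : k < k1 := lt_of_lt_of_le hkk (le_trans (min_le_left _ _) (min_le_left _ _))
  have hkk2 : k < k2 := lt_of_lt_of_le hkk (le_trans (min_le_left _ _) (min_le_right _ _))
  have hkq : k < Real.exp (-q) := lt_of_lt_of_le hkk (min_le_right _ _)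
  have hellq : q ≤ ell k := LYit_ell q k hk hkq
  have hell : 1 ≤ ell k := le_trans hq1 hellq
  have hell0 : 0 < ell k := by linarith
  obtain ⟨hts1, hts2⟩ := LYit_ts N k hell
  have hs : 0 < a / ell k := div_pos ha hell0
  have hqs : 8 * q * (a / ell k) ≤ 1 := by
    rw [← mul_div_assoc, div_le_one hell0]
    nlinarith
  obtain ⟨h1, hh1, H3⟩ := H1 (F k) k (S k hk) hk hkk1 (hB k hk) (a / ell k) hs hqs
  obtain ⟨h2, hh2, H4⟩ := H2 k hk hkk2 L hL
  have hT0' : 0 < T := by linarith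
  have hTT : 2 ≤ T / T0 := by
    rw [le_div_iff₀ hT0]
    exact hT
  have hTT0 : 0 < T / T0 := by linarith
  refine ⟨min (min h1 h2) (min 1 (T0 / (T / T0))), by positivity, ?_⟩
  intro h hh hhh G x
  have hhh1 : h < h1 := lt_of_lt_of_le hhh (le_trans (min_le_left _ _) (min_le_left _ _))
  have hhh2 : h < h2 := lt_of_lt_of_le hhh (le_trans (min_le_left _ _) (min_le_right _ _))
  have hhh3 : h < 1 := lt_of_lt_of_le hhh (le_trans (min_le_right _ _) (min_le_left _ _))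
  have hhh4 : h * (T / T0) ≤ T0 := by
    have h5 : h ≤ T0 / (T / T0) :=
      (lt_of_lt_of_le hhh (le_trans (min_le_right _ _) (min_le_right _ _))).le
    rw [le_div_iff₀ hTT0] at h5
    exact h5
  -- times
  have hts0 : 0 < ts N k := by linarith
  set n0 : ℕ := ⌈T0 * ts N k / h⌉₊ with hn0
  set nB : ℕ := ⌈T * ts N k / h⌉₊ with hnB
  have hn0a : T0 * ts N k ≤ n0 * h := by
    have h5 := Nat.le_ceil (T0 * ts N k / h)
    rw [div_le_iff₀ hh] at h5
    exact h5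
  have hn0b : n0 * h ≤ T0 * ts N k + h := by
    have h5 := (Nat.ceil_lt_add_one (by positivity : (0:ℝ) ≤ T0 * ts N k / h)).le
    calc (n0:ℝ) * h ≤ (T0 * ts N k / h + 1) * h := by gcongr
      _ = T0 * ts N k + h := by field_simp
  have hnBa : T * ts N k ≤ nB * h := by
    have h5 := Nat.le_ceil (T * ts N k / h)
    rw [div_le_iff₀ hh] at h5
    exact h5
  have hnBb : nB * h ≤ T * ts N k + h := by
    have h5 := (Nat.ceil_lt_add_one (by positivity : (0:ℝ) ≤ T * ts N k / h)).le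
    calc (nB:ℝ) * h ≤ (T * ts N k / h + 1) * h := by gcongr
      _ = T * ts N k + h := by field_simp
  set J : ℕ := ⌊T / T0⌋₊ - 1 with hJ
  have hfl : 2 ≤ ⌊T / T0⌋₊ := Nat.le_floor (by exact_mod_cast hTT)
  have hJc : (J : ℝ) = (⌊T / T0⌋₊ : ℝ) - 1 := by
    rw [hJ, Nat.cast_sub (by omega)]
    norm_num
  have hJa : (J : ℝ) ≤ T / T0 - 1 := by
    rw [hJc]
    have h5 := Nat.floor_le hTT0.le
    linarith
  have hJb : T / T0 - 2 ≤ (J : ℝ) := by
    rw [hJc]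
    have h5 := Nat.lt_floor_add_one (T / T0)
    linarith
  have hTe : T / T0 * T0 = T := by field_simp
  have hJn : J * n0 ≤ nB := by
    have h5 : (J : ℝ) * (n0 * h) ≤ nB * h := by
      calc (J : ℝ) * (n0 * h) ≤ (T / T0 - 1) * (T0 * ts N k + h) := by
            have : (0:ℝ) ≤ T / T0 - 1 := by linarith
            gcongr
        _ = T / T0 * T0 * ts N k - T0 * ts N k + (h * (T / T0) - h) := by ring
        _ ≤ T * ts N k := by
            rw [hTe]
            nlinarith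
        _ ≤ nB * h := hnBa
    have h6 : ((J * n0 : ℕ) : ℝ) * h ≤ nB * h := by
      push_cast
      linarith
    have h7 : ((J * n0 : ℕ) : ℝ) ≤ nB := le_of_mul_le_mul_right h6 hh
    exact_mod_cast h7
  obtain ⟨r, hr⟩ := Nat.exists_eq_add_of_le hJn
  have hrc : (nB : ℝ) = J * n0 + r := by
    rw [hr]
    push_cast
    ring
  have hrh : (r : ℝ) * h ≤ 2 * T0 * ts N k + 1 := by
    have h5 : (r : ℝ) * h = nB * h - J * (n0 * h) := by
      rw [hrc]
      ring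
    have h6 : (T / T0 - 2) * (T0 * ts N k) ≤ J * (n0 * h) := by
      have : (0:ℝ) ≤ T / T0 - 2 := by linarith
      gcongr
    have h7 : (T / T0 - 2) * (T0 * ts N k) = T * ts N k - 2 * T0 * ts N k := by
      have : (T / T0 - 2) * (T0 * ts N k) = T / T0 * T0 * ts N k - 2 * T0 * ts N k := by ring
      rw [this, hTe]
    rw [h5]
    linarith
  -- iteration
  have hΦ : Measurable (fun G : (boxS d L → (F k).V) × (boxS d L → (F k).V) =>
      V1 k q (a / ell k) G x) := (measurable_V k q (a / ell k) x).1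
  have hit := LYit_iter (S k hk) h L (fun G => V1 k q (a / ell k) G x) hΦ
    (ENNReal.ofReal (1 - a / 4)) (ENNReal.ofReal Ca) n0
    (fun G => H4 h hh hhh2 G x n0 hn0a (by linarith)) G J
  have hmk := alv_markov (S k hk) h L (fun G => V1 k q (a / ell k) G x) hΦ G (J * n0) r
  rw [← hr] at hmk
  rw [hmk]
  have hexp : ENNReal.ofReal (Real.exp (C9 * (a / ell k / ell k + (a / ell k) ^ 2) * (r * h))) ≤
      ENNReal.ofReal (Real.exp (C9 * (2 * T0 + 1))) := by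
    refine ENNReal.ofReal_le_ofReal (Real.exp_le_exp.2 ?_)
    exact LYit_expo C9 a T0 (ell k) (ts N k) (r * h) hC9 ha ha8 hT0 hell hts2 (by positivity) hrh
  have hmtr : Measurable fun ω : ℕ → boxS d L → (S k hk).Ωp =>
      V1 k q (a / ell k) ((S k hk).tr h L G ω (J * n0)) x :=
    hΦ.comp ((measurable_tr (S k hk) h L (J * n0)).comp (measurable_const.prodMk measurable_id))
  have hin : ∀ ω, ∫⁻ ω' in (S k hk).alv h L ((S k hk).tr h L G ω (J * n0)) r,
        V1 k q (a / ell k) ((S k hk).tr h L ((S k hk).tr h L G ω (J * n0)) ω' r) x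
          ∂(PI ((S k hk).mu L)) ≤
      ENNReal.ofReal (Real.exp (C9 * (2 * T0 + 1))) *
        V1 k q (a / ell k) ((S k hk).tr h L G ω (J * n0)) x := by
    intro ω
    refine le_trans (H3 h hh hhh1 L ((S k hk).tr h L G ω (J * n0)) r x).1 ?_
    exact mul_le_mul_left hexp _
  have hpow : ENNReal.ofReal (1 - a / 4) ^ J ≤
      ENNReal.ofReal (4 * Real.exp (-(1 / (4 * T0) * a * T))) := by
    rw [← ENNReal.ofReal_pow (by linarith)]
    exact ENNReal.ofReal_le_ofReal (LYit_pow a T T0 ha ha8 hT0 J hJb)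
  have hgs := LYit_geom a ha ha8 J
  calc ∫⁻ ω in (S k hk).alv h L G (J * n0),
        (∫⁻ ω' in (S k hk).alv h L ((S k hk).tr h L G ω (J * n0)) r,
          V1 k q (a / ell k) ((S k hk).tr h L ((S k hk).tr h L G ω (J * n0)) ω' r) x
            ∂(PI ((S k hk).mu L))) ∂(PI ((S k hk).mu L))
      ≤ ∫⁻ ω in (S k hk).alv h L G (J * n0), ENNReal.ofReal (Real.exp (C9 * (2 * T0 + 1))) *
          V1 k q (a / ell k) ((S k hk).tr h L G ω (J * n0)) x ∂(PI ((S k hk).mu L)) :=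
        lintegral_mono hin
    _ = ENNReal.ofReal (Real.exp (C9 * (2 * T0 + 1))) *
          ∫⁻ ω in (S k hk).alv h L G (J * n0),
            V1 k q (a / ell k) ((S k hk).tr h L G ω (J * n0)) x ∂(PI ((S k hk).mu L)) :=
        lintegral_const_mul _ hmtr
    _ ≤ ENNReal.ofReal (Real.exp (C9 * (2 * T0 + 1))) *
          (ENNReal.ofReal (1 - a / 4) ^ J * V1 k q (a / ell k) G x +
            ENNReal.ofReal Ca * ∑ i ∈ Finset.range J, ENNReal.ofReal (1 - a / 4) ^ i) := by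
        exact mul_le_mul_right hit _
    _ ≤ ENNReal.ofReal (Real.exp (C9 * (2 * T0 + 1))) *
          (ENNReal.ofReal (4 * Real.exp (-(1 / (4 * T0) * a * T))) * V1 k q (a / ell k) G x +
            ENNReal.ofReal Ca * ENNReal.ofReal (4 / a)) := by
        gcongr
    _ = ENNReal.ofReal (4 * Real.exp (C9 * (2 * T0 + 1)) *
            Real.exp (-(1 / (4 * T0) * a * T))) * V1 k q (a / ell k) G x +
          ENNReal.ofReal (4 * Real.exp (C9 * (2 * T0 + 1)) * Ca / a) := by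
        have e1 : 4 * Real.exp (C9 * (2 * T0 + 1)) * Real.exp (-(1 / (4 * T0) * a * T)) =
            Real.exp (C9 * (2 * T0 + 1)) * (4 * Real.exp (-(1 / (4 * T0) * a * T))) := by ring
        have e2 : 4 * Real.exp (C9 * (2 * T0 + 1)) * Ca / a =
            Real.exp (C9 * (2 * T0 + 1)) * (Ca * (4 / a)) := by ring
        rw [mul_add, ← mul_assoc, ← ENNReal.ofReal_mul (Real.exp_pos _).le,
          ← ENNReal.ofReal_mul hCa, ← ENNReal.ofReal_mul (Real.exp_pos _).le, e1, e2]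

end DynC

end
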