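import Pool.Agent.Lib_MP_36b788_m.M05

/-!
# MP_36b788_pr, stationary limit: merged library part M13

Concatenation of smaller files (each in its own section), only to save build time.
-/

/-! ### from `Lib_MP_36b788c.Q2` -/

section

/-!
# A site that was high at some time stays high (deterministic)

PROOF of `q2_low`. Let `j0` be the last time `≤ n` with `u_{j0} x ≥ k^κ`. If `j0 = n` done (`k^κ ≥ k^{3κ}`). For all `j < n`, `k h cpl u_j x ≤ 4 d h k^{7/8} ≤ h k^{3/4}`. `psi_lower`: `ψ(w) ≥ w(1 - h w^β)`, `ψ` monotone.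
`u_{j0+1} x ≥ ψ(e^{b} k^κ) - h k^{3/4} ≥ k^κ/2` (`|b| ≤ 2h^{3/8}`, `h` small). For `j0 < j < n`: `u_{j+1} x ≥ e^{b_j} u_j x (1 - h(2k^κ)^β) - h k^{3/4}`. So
`u_n x ≥ exp(Σ_{(j0, n)} b)(1 - h(2k^κ)^β)^n k^κ/2 - Σ_j h k^{3/4} exp(Σ_{(j,n)} b) ≥ (3/8) k^{2κ} - ell³ k^{3/4-κ} ≥ k^{3κ}` for small `k` (`κ ≤ 1/8`, `n h ≤ ell³`, `ell³ (2k^κ)^β` small).
-/

open MeasureTheory ProbabilityTheory
open scoped ENNReal

namespace DynC

open Dyn

private theorem Q2_rp {a : ℝ} (ha : 0 < a) :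
    Filter.Tendsto (fun k : ℝ => k ^ a) (nhdsWithin 0 (Set.Ioi 0)) (nhds 0) := by
  have h1 := (Real.continuousAt_rpow_const 0 a (Or.inr ha.le)).tendsto
  rw [Real.zero_rpow ha.ne'] at h1
  exact h1.mono_left nhdsWithin_le_nhds

private theorem Q2_lim {a : ℝ} (ha : 0 < a) :
    Filter.Tendsto (fun k : ℝ => ell k ^ 3 * k ^ a) (nhdsWithin 0 (Set.Ioi 0)) (nhds 0) := by
  have h1 := tendsto_log_mul_rpow_nhdsGT_zero (r := a / 3) (by positivity)
  have h2 := (h1.pow 3).neg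
  rw [zero_pow three_ne_zero, neg_zero] at h2
  refine h2.congr' ?_
  filter_upwards [self_mem_nhdsWithin] with k hk
  have hk0 : (0 : ℝ) < k := hk
  unfold ell
  rw [one_div, Real.log_inv, mul_pow, ← Real.rpow_natCast (k ^ (a / 3)) 3, ← Real.rpow_mul hk0.le]
  have h3 : a / 3 * ((3 : ℕ) : ℝ) = a := by
    push_cast
    ring
  rw [h3]
  ring

private theorem Q2_exp {κ k : ℝ} (hk : 0 < k) : Real.exp (κ * ell k) = k ^ (-κ) := by
  unfold ell
  rw [one_div, Real.log_inv, Real.rpow_def_of_pos hk]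
  congr 1
  ring

private theorem Q2_exp' {κ k : ℝ} (hk : 0 < k) : Real.exp (-(κ * ell k)) = k ^ κ := by
  unfold ell
  rw [one_div, Real.log_inv, Real.rpow_def_of_pos hk]
  congr 1
  ring

private theorem Q2_core {d : ℕ} {β κ k h : ℝ} (hβ : 0 < β) (hκ : 0 < κ) (hκ1 : κ ≤ 1 / 8)
    (hk : 0 < k) (hk1 : k < 1) (c1 : 4 * d * k ^ (1 / 8 : ℝ) ≤ 1)
    (c2 : ell k ^ 3 * (2 * k ^ κ) ^ β ≤ 1 / 2) (c3 : k ^ κ ≤ 1 / 4)
    (c4 : ell k ^ 3 * k ^ (3 / 8 : ℝ) ≤ 1 / 4) (hh : 0 < h) (hh1 : h < 1 / 256)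
    {ι : Type} [Fintype ι] (net : Net ι d) (b u : ℕ → ι → ℝ) (x : ι) (n : ℕ)
    (hn : n * h ≤ ell k ^ 3)
    (hq : ∀ j, j < n → QStep net β h k (b j) (u j) (u (j + 1)))
    (hb : ∀ j, j < n → |b j x| ≤ 2 * h ^ (3 / 8 : ℝ))
    (hS : ∀ i j, i ≤ j → j ≤ n → |∑ l ∈ Finset.Ico i j, b l x| ≤ κ * ell k)
    (hu : ∀ j, j ≤ n → u j x ≤ k ^ (-(1 / 8 : ℝ)) ∧ ∀ y ∈ net.nb x, u j y ≤ k ^ (-(1 / 8 : ℝ)))
    (j1 : ℕ) (hj1 : j1 < n) (hc : k ^ κ ≤ u j1 x)
    (hlast : ∀ j, j1 < j → j ≤ n → u j x < k ^ κ) : k ^ (3 * κ) ≤ u n x := by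
  have hcpos : 0 < k ^ κ := Real.rpow_pos_of_pos hk _
  set θ : ℝ := (2 * k ^ κ) ^ β with hθ
  have hθ0 : 0 < θ := Real.rpow_pos_of_pos (by positivity) _
  have hθ1 : θ ≤ 1 := Real.rpow_le_one (by positivity) (by linarith) hβ.le
  have hhθ : h * θ ≤ 1 := by nlinarith
  have hhθ0 : 0 < h * θ := mul_pos hh hθ0
  have hell : 0 < ell k := by
    unfold ell
    exact Real.log_pos (by rw [lt_div_iff₀ hk]; linarith)
  -- size of the noise
  have hbexp : ∀ j, j < n → Real.exp (b j x) ≤ 2 := by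
    intro j hj
    have h1 : h ^ (3 / 8 : ℝ) ≤ 1 / 8 := by
      calc h ^ (3 / 8 : ℝ) ≤ (1 / 256 : ℝ) ^ (3 / 8 : ℝ) :=
            Real.rpow_le_rpow hh.le hh1.le (by norm_num)
        _ = 1 / 8 := by
          rw [show (1 / 256 : ℝ) = (1 / 2 : ℝ) ^ (8 : ℝ) by norm_num, ← Real.rpow_mul (by norm_num)]
          norm_num
    have h2 : b j x ≤ 1 / 4 := by
      have := (le_abs_self (b j x)).trans (hb j hj)
      linarith
    calc Real.exp (b j x) ≤ Real.exp (Real.log 2) := by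
          apply Real.exp_le_exp.mpr
          have := Real.log_two_gt_d9
          linarith
      _ = 2 := Real.exp_log (by norm_num)
  -- the interaction
  have hcpl : ∀ j, j < n → k * h * cpl net (u j) x ≤ h * k ^ (3 / 4 : ℝ) := by
    intro j hj
    obtain ⟨h1, h2⟩ := hu j hj.le
    have hkp : 0 < k ^ (-(1 / 8) : ℝ) := Real.rpow_pos_of_pos hk _
    have h3 : ∑ y ∈ net.nb x, u j y ≤ (2 * d : ℝ) * k ^ (-(1 / 8) : ℝ) := by
      refine (Finset.sum_le_sum fun y hy => h2 y hy).trans ?_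
      rw [Finset.sum_const, nsmul_eq_mul]
      have h4 : ((net.nb x).card : ℝ) ≤ 2 * d := by exact_mod_cast net.nb_card x
      exact mul_le_mul_of_nonneg_right h4 hkp.le
    have h5 : cpl net (u j) x ≤ (4 * d : ℝ) * k ^ (-(1 / 8) : ℝ) := by
      unfold cpl
      push_cast
      have h6 : (2 * d : ℝ) * u j x ≤ (2 * d : ℝ) * k ^ (-(1 / 8) : ℝ) :=
        mul_le_mul_of_nonneg_left h1 (by positivity)
      linarith
    have h7 : k * ((4 * d : ℝ) * k ^ (-(1 / 8) : ℝ)) ≤ k ^ (3 / 4 : ℝ) := by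
      have h8 : k * ((4 * d : ℝ) * k ^ (-(1 / 8) : ℝ)) =
          (4 * d * k ^ (1 / 8 : ℝ)) * k ^ (3 / 4 : ℝ) := by
        have h9 : k = k ^ (1 / 8 : ℝ) * k ^ (3 / 4 : ℝ) * k ^ (1 / 8 : ℝ) := by
          rw [← Real.rpow_add hk, ← Real.rpow_add hk]
          norm_num
        have h10 : k ^ (1 / 8 : ℝ) * k ^ (-(1 / 8) : ℝ) = 1 := by
          rw [← Real.rpow_add hk]
          norm_num
        calc k * ((4 * d : ℝ) * k ^ (-(1 / 8) : ℝ)) =
              (k ^ (1 / 8 : ℝ) * k ^ (3 / 4 : ℝ) * k ^ (1 / 8 : ℝ)) *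
                ((4 * d : ℝ) * k ^ (-(1 / 8) : ℝ)) := by rw [← h9]
          _ = (4 * d * k ^ (1 / 8 : ℝ)) * k ^ (3 / 4 : ℝ) *
              (k ^ (1 / 8 : ℝ) * k ^ (-(1 / 8) : ℝ)) := by ring
          _ = _ := by rw [h10, mul_one]
      rw [h8]
      exact mul_le_of_le_one_left (Real.rpow_nonneg hk.le _) c1
    calc k * h * cpl net (u j) x ≤ k * h * ((4 * d : ℝ) * k ^ (-(1 / 8) : ℝ)) :=
          mul_le_mul_of_nonneg_left h5 (by positivity)
      _ = h * (k * ((4 * d : ℝ) * k ^ (-(1 / 8) : ℝ))) := by ring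
      _ ≤ _ := mul_le_mul_of_nonneg_left h7 hh.le
  set E : ℝ := h * k ^ (3 / 4 : ℝ) with hE
  have hE0 : 0 ≤ E := mul_nonneg hh.le (Real.rpow_nonneg hk.le _)
  set K : ℝ := k ^ (-κ) with hK
  have hK0 : 0 < K := Real.rpow_pos_of_pos hk _
  -- induction
  have key : ∀ m, j1 + m ≤ n → (1 - h * θ) ^ m * k ^ κ - m * (E * K) ≤
      min (u (j1 + m) x) (k ^ κ) * Real.exp (-∑ l ∈ Finset.Ico j1 (j1 + m), b l x) := by
    intro m
    induction m with
    | zero =>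
      intro _
      simp [min_eq_right hc]
    | succ m ih =>
      intro hm
      have hm1 : j1 + m < n := by omega
      have h1 := ih hm1.le
      set w : ℝ := min (u (j1 + m) x) (k ^ κ) with hw
      have hw0 : 0 ≤ w := le_min ((hq _ hm1).n0 x) hcpos.le
      have hwc : w ≤ k ^ κ := min_le_right _ _
      have h2 : min (u (j1 + (m + 1)) x) (k ^ κ) = u (j1 + m + 1) x := by
        rw [← add_assoc]
        exact min_eq_left (hlast _ (by omega) (by omega)).le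
      rw [h2]
      set e := Real.exp (b (j1 + m) x) with he
      have he0 : 0 < e := Real.exp_pos _
      have he2 : e ≤ 2 := hbexp _ hm1
      have h3 : e * w * (1 - h * θ) - E ≤ u (j1 + m + 1) x := by
        have h4 := (hq _ hm1).lo x
        have h5 := hcpl _ hm1
        have h6 : psi β h (e * w) ≤ psi β h (e * u (j1 + m) x) :=
          psi_mono hβ hh.le (mul_le_mul_of_nonneg_left (min_le_left _ _) he0.le)
        have h7 := psi_lower hβ hh.le (mul_nonneg he0.le hw0)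
        have h8 : (e * w) ^ β ≤ θ := by
          apply Real.rpow_le_rpow (mul_nonneg he0.le hw0) _ hβ.le
          exact mul_le_mul he2 hwc hw0 (by norm_num)
        have h9 : e * w * (1 - h * θ) ≤ e * w * (1 - h * (e * w) ^ β) := by
          apply mul_le_mul_of_nonneg_left _ (mul_nonneg he0.le hw0)
          have := mul_le_mul_of_nonneg_left h8 hh.le
          linarith
        linarith
      have hSm : ∑ l ∈ Finset.Ico j1 (j1 + (m + 1)), b l x =
          ∑ l ∈ Finset.Ico j1 (j1 + m), b l x + b (j1 + m) x := by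
        rw [← add_assoc, Finset.sum_Ico_succ_top (by omega)]
      have hexp1 : Real.exp (-∑ l ∈ Finset.Ico j1 (j1 + (m + 1)), b l x) =
          Real.exp (-∑ l ∈ Finset.Ico j1 (j1 + m), b l x) * e⁻¹ := by
        rw [hSm, neg_add, Real.exp_add, he, Real.exp_neg (b (j1 + m) x)]
      have hexpK : Real.exp (-∑ l ∈ Finset.Ico j1 (j1 + (m + 1)), b l x) ≤ K := by
        rw [hK, ← Q2_exp hk]
        apply Real.exp_le_exp.mpr
        have := hS j1 (j1 + (m + 1)) (by omega) hm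
        exact (neg_le_abs _).trans this
      set X := Real.exp (-∑ l ∈ Finset.Ico j1 (j1 + m), b l x) with hX
      set Y := Real.exp (-∑ l ∈ Finset.Ico j1 (j1 + (m + 1)), b l x) with hY
      have hY0 : 0 < Y := Real.exp_pos _
      have h10 : (1 - h * θ) * (w * X) - E * Y ≤ u (j1 + m + 1) x * Y := by
        have h11 := mul_le_mul_of_nonneg_right h3 hY0.le
        refine le_trans (le_of_eq ?_) h11
        have h12 : e * Y = X := by
          rw [hexp1]
          field_simp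
        calc (1 - h * θ) * (w * X) - E * Y = (1 - h * θ) * (w * (e * Y)) - E * Y := by rw [h12]
          _ = _ := by ring
      have h13 : (1 - h * θ) * ((1 - h * θ) ^ m * k ^ κ - m * (E * K)) ≤
          (1 - h * θ) * (w * X) := mul_le_mul_of_nonneg_left h1 (by linarith)
      have h14 : E * Y ≤ E * K := mul_le_mul_of_nonneg_left hexpK hE0
      have h15 : 0 ≤ (m : ℝ) * (E * K) := by positivity
      have h16 : (1 - h * θ) * ((m : ℝ) * (E * K)) ≤ (m : ℝ) * (E * K) :=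
        mul_le_of_le_one_left h15 (by linarith)
      have h17 : (1 - h * θ) ^ (m + 1) * k ^ κ = (1 - h * θ) * ((1 - h * θ) ^ m * k ^ κ) := by
        rw [pow_succ]
        ring
      push_cast
      rw [h17]
      linarith
  have h20 := key (n - j1) (by omega)
  rw [show j1 + (n - j1) = n by omega] at h20
  rw [min_eq_left (hlast n hj1 le_rfl).le] at h20
  set S : ℝ := ∑ l ∈ Finset.Ico j1 n, b l x with hSdef
  have hS1 : |S| ≤ κ * ell k := hS j1 n hj1.le le_rfl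
  have hm : ((n - j1 : ℕ) : ℝ) ≤ n := by exact_mod_cast Nat.sub_le n j1
  -- Bernoulli
  have h21 : 1 / 2 ≤ (1 - h * θ) ^ (n - j1) := by
    have h22 := one_add_mul_le_pow (a := -(h * θ)) (by linarith) (n - j1)
    rw [← sub_eq_add_neg] at h22
    have h23 : ((n - j1 : ℕ) : ℝ) * (h * θ) ≤ 1 / 2 := by
      calc ((n - j1 : ℕ) : ℝ) * (h * θ) ≤ n * (h * θ) := mul_le_mul_of_nonneg_right hm hhθ0.le
        _ = (n * h) * θ := by ring
        _ ≤ ell k ^ 3 * θ := mul_le_mul_of_nonneg_right hn hθ0.le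
        _ ≤ 1 / 2 := c2
    linarith
  have h24 : ((n - j1 : ℕ) : ℝ) * (E * K) ≤ 1 / 4 * k ^ κ := by
    have h25 : ((n - j1 : ℕ) : ℝ) * (E * K) ≤ ell k ^ 3 * (k ^ (3 / 4 : ℝ) * K) := by
      calc ((n - j1 : ℕ) : ℝ) * (E * K) ≤ n * (E * K) :=
            mul_le_mul_of_nonneg_right hm (mul_nonneg hE0 hK0.le)
        _ = (n * h) * (k ^ (3 / 4 : ℝ) * K) := by
            rw [hE]
            ring
        _ ≤ _ := mul_le_mul_of_nonneg_right hn (mul_nonneg (Real.rpow_nonneg hk.le _) hK0.le)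
    have h26 : k ^ (3 / 4 : ℝ) * K ≤ k ^ (3 / 8 : ℝ) * k ^ κ := by
      rw [hK, ← Real.rpow_add hk, ← Real.rpow_add hk]
      exact Real.rpow_le_rpow_of_exponent_ge hk hk1.le (by linarith)
    calc ((n - j1 : ℕ) : ℝ) * (E * K) ≤ ell k ^ 3 * (k ^ (3 / 4 : ℝ) * K) := h25
      _ ≤ ell k ^ 3 * (k ^ (3 / 8 : ℝ) * k ^ κ) :=
          mul_le_mul_of_nonneg_left h26 (by positivity)
      _ = (ell k ^ 3 * k ^ (3 / 8 : ℝ)) * k ^ κ := by ring
      _ ≤ 1 / 4 * k ^ κ := mul_le_mul_of_nonneg_right c4 hcpos.le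
  have h27 : 1 / 4 * k ^ κ ≤ u n x * Real.exp (-S) := by
    have h28 : 1 / 2 * k ^ κ ≤ (1 - h * θ) ^ (n - j1) * k ^ κ :=
      mul_le_mul_of_nonneg_right h21 hcpos.le
    linarith
  have h29 : k ^ κ ≤ Real.exp S := by
    rw [← Q2_exp' hk]
    apply Real.exp_le_exp.mpr
    have := neg_abs_le S
    linarith
  have h30 : u n x = (u n x * Real.exp (-S)) * Real.exp S := by
    rw [mul_assoc, ← Real.exp_add, neg_add_cancel, Real.exp_zero, mul_one]
  have h31 : k ^ (3 * κ) = k ^ κ * k ^ κ * k ^ κ := by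
    rw [← Real.rpow_add hk, ← Real.rpow_add hk]
    congr 1
    ring
  rw [h30, h31]
  apply mul_le_mul _ h29 hcpos.le (le_trans (by positivity) h27)
  refine le_trans ?_ h27
  exact mul_le_mul_of_nonneg_right c3 hcpos.le

theorem q2_low (d : ℕ) (β κ : ℝ) (hβ : 0 < β) (hκ : 0 < κ) (hκ1 : κ ≤ 1 / 8) :
    ∃ k0 : ℝ, 0 < k0 ∧ k0 < 1 ∧ ∀ k, 0 < k → k < k0 → ∃ h0 : ℝ, 0 < h0 ∧ ∀ h, 0 < h → h < h0 →
    ∀ (ι : Type) [Fintype ι] (net : Net ι d) (b u : ℕ → ι → ℝ) (x : ι) (n : ℕ),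
      n * h ≤ ell k ^ 3 →
      (∀ j, j < n → QStep net β h k (b j) (u j) (u (j + 1))) →
      (∀ j, j < n → |b j x| ≤ 2 * h ^ (3 / 8 : ℝ)) →
      (∀ i j, i ≤ j → j ≤ n → |∑ l ∈ Finset.Ico i j, b l x| ≤ κ * ell k) →
      (∀ j, j ≤ n → u j x ≤ k ^ (-(1 / 8 : ℝ)) ∧ ∀ y ∈ net.nb x, u j y ≤ k ^ (-(1 / 8 : ℝ))) →
      ∀ j0, j0 ≤ n → k ^ κ ≤ u j0 x → k ^ (3 * κ) ≤ u n x := by
  have e1 : ∀ᶠ k : ℝ in nhdsWithin 0 (Set.Ioi 0), 4 * d * k ^ (1 / 8 : ℝ) ≤ 1 := by
    have h1 := (Q2_rp (a := 1 / 8) (by norm_num)).const_mul (4 * d : ℝ)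
    rw [mul_zero] at h1
    exact h1.eventually_le_const (by norm_num)
  have e2 : ∀ᶠ k : ℝ in nhdsWithin 0 (Set.Ioi 0), ell k ^ 3 * (2 * k ^ κ) ^ β ≤ 1 / 2 := by
    have h1 := (Q2_lim (a := κ * β) (by positivity)).const_mul ((2 : ℝ) ^ β)
    rw [mul_zero] at h1
    filter_upwards [h1.eventually_le_const (show (0 : ℝ) < 1 / 2 by norm_num),
      self_mem_nhdsWithin] with k hk1 hk0
    have hk : (0 : ℝ) < k := hk0
    rw [Real.mul_rpow (by norm_num) (Real.rpow_nonneg hk.le _), ← Real.rpow_mul hk.le]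
    linarith
  have e3 : ∀ᶠ k : ℝ in nhdsWithin 0 (Set.Ioi 0), k ^ κ ≤ 1 / 4 :=
    (Q2_rp hκ).eventually_le_const (by norm_num)
  have e4 : ∀ᶠ k : ℝ in nhdsWithin 0 (Set.Ioi 0), ell k ^ 3 * k ^ (3 / 8 : ℝ) ≤ 1 / 4 :=
    (Q2_lim (by norm_num)).eventually_le_const (by norm_num)
  obtain ⟨k1, hk1, hk2⟩ := (nhdsGT_basis (0 : ℝ)).eventually_iff.mp (e1.and (e2.and (e3.and e4)))
  refine ⟨min k1 (1 / 2), lt_min hk1 (by norm_num), lt_of_le_of_lt (min_le_right _ _) (by norm_num),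
    fun k hk hkk => ⟨1 / 256, by norm_num, fun h hh hh1 => ?_⟩⟩
  have hkk1 : k < k1 := lt_of_lt_of_le hkk (min_le_left _ _)
  have hklt : k < 1 := by
    have := lt_of_lt_of_le hkk (min_le_right _ _)
    linarith
  obtain ⟨c1, c2, c3, c4⟩ := hk2 (show k ∈ Set.Ioo 0 k1 from ⟨hk, hkk1⟩)
  intro ι _ net b u x n hn hq hb hS hu j0 hj0 hc
  classical
  set j1 := Nat.findGreatest (fun j => k ^ κ ≤ u j x) n with hj1
  have h1 : k ^ κ ≤ u j1 x := Nat.findGreatest_spec (P := fun j => k ^ κ ≤ u j x) hj0 hc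
  have h2 : j1 ≤ n := Nat.findGreatest_le n
  rcases h2.eq_or_lt with h3 | h3
  · rw [h3] at h1
    refine le_trans ?_ h1
    exact Real.rpow_le_rpow_of_exponent_ge hk hklt.le (by linarith)
  · refine Q2_core hβ hκ hκ1 hk hklt c1 c2 c3 c4 hh hh1 net b u x n hn hq hb hS hu j1 h3 h1 ?_
    intro j hj hjn
    exact not_le.mp (Nat.findGreatest_is_greatest (P := fun j => k ^ κ ≤ u j x) hj hjn)

end DynC

end

/-! ### from `Lib_MP_36b788c.St2` -/

section

/-!
# The step `st2` for every noise: growth and difference estimates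
-/

open MeasureTheory ProbabilityTheory
open scoped ENNReal

namespace DynC

open Dyn

private theorem St2_coup_norm {V : Type} [NormedAddCommGroup V] [InnerProductSpace ℝ V]
    {ι : Type} [Fintype ι] {d : ℕ} (net : Net ι d) (G : ι → V) (x : ι) :
    ‖coupV net G x‖ ≤ cpl net (nrm G) x := by
  unfold coupV cpl nrm
  refine (norm_sub_le _ _).trans ?_
  refine add_le_add (norm_sum_le _ _) ?_
  rw [norm_smul, Real.norm_of_nonneg (Nat.cast_nonneg _)]

private theorem St2_coup_sub {V : Type} [NormedAddCommGroup V] [InnerProductSpace ℝ V]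
    {ι : Type} [Fintype ι] {d : ℕ} (net : Net ι d) (G G' : ι → V) (x : ι) :
    coupV net G x - coupV net G' x = coupV net (fun y => G y - G' y) x := by
  unfold coupV
  rw [Finset.sum_sub_distrib, smul_sub]
  abel

private theorem St2_exp (h : ℝ) (η g : ℂ) :
    ‖Complex.exp (((Real.sqrt h : ℝ) : ℂ) * η) * g‖ = Real.exp (bC h η) * ‖g‖ := by
  rw [norm_mul, Complex.norm_exp]
  congr 2
  unfold bC
  simp

theorem st2_q (d : ℕ) {β k h : ℝ} (hβ : 0 < β) (hk : 0 ≤ k) (hh : 0 < h) (L : ℕ)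
    (G η : boxS d L → ℂ) :
    QStep (boxNet d L) β h k (fun x => bC h (η x)) (nrm G) (nrm (st2 d β k h L G η)) := by
  have hc : ∀ x, ‖(k * h) • coupV (boxNet d L) G x‖ ≤ k * h * cpl (boxNet d L) (nrm G) x := by
    intro x
    rw [norm_smul, Real.norm_of_nonneg (mul_nonneg hk hh.le)]
    exact mul_le_mul_of_nonneg_left (St2_coup_norm _ _ _) (mul_nonneg hk hh.le)
  have hJ : ∀ x, ‖JV β h (Complex.exp (((Real.sqrt h : ℝ) : ℂ) * η x) * G x)‖ =
      psi β h (Real.exp (bC h (η x)) * nrm G x) := by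
    intro x
    rw [norm_JV hβ hh.le, St2_exp]
    rfl
  refine ⟨fun x => norm_nonneg _, fun x => norm_nonneg _, fun x => ?_, fun x => ?_⟩
  · change ‖JV β h (Complex.exp (((Real.sqrt h : ℝ) : ℂ) * η x) * G x) +
      (k * h) • coupV (boxNet d L) G x‖ ≤ _
    refine (norm_add_le _ _).trans ?_
    rw [hJ]
    exact add_le_add le_rfl (hc x)
  · change _ ≤ ‖JV β h (Complex.exp (((Real.sqrt h : ℝ) : ℂ) * η x) * G x) +
      (k * h) • coupV (boxNet d L) G x‖
    have h1 := norm_sub_le (JV β h (Complex.exp (((Real.sqrt h : ℝ) : ℂ) * η x) * G x) +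
      (k * h) • coupV (boxNet d L) G x) ((k * h) • coupV (boxNet d L) G x)
    rw [add_sub_cancel_right, hJ] at h1
    have h2 := hc x
    linarith

theorem st2_u (d : ℕ) {β k h : ℝ} (hβ : 0 < β) (hk : 0 ≤ k) (hh : 0 < h) (L : ℕ)
    (G η : boxS d L → ℂ) (x : boxS d L) :
    nrm (st2 d β k h L G η) x ≤ Real.exp (bC h (η x)) * nrm G x +
      k * h * cpl (boxNet d L) (nrm G) x := by
  refine ((st2_q d hβ hk hh L G η).up x).trans (add_le_add ?_ le_rfl)
  exact psi_le hβ hh.le (mul_nonneg (Real.exp_pos _).le (norm_nonneg _))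

/-- difference at a site where the two noises agree -/
theorem st2_d1 (d : ℕ) {β k h : ℝ} (hβ : 0 < β) (hk : 0 ≤ k) (hh : 0 < h) (L : ℕ)
    (G G' η η' : boxS d L → ℂ) (x : boxS d L) (hx : η' x = η x) :
    ‖st2 d β k h L G η x - st2 d β k h L G' η' x‖ ≤
      Real.exp (bC h (η x)) * dif G G' x + k * h * cpl (boxNet d L) (dif G G') x := by
  change ‖(JV β h (Complex.exp (((Real.sqrt h : ℝ) : ℂ) * η x) * G x) +
      (k * h) • coupV (boxNet d L) G x) -
    (JV β h (Complex.exp (((Real.sqrt h : ℝ) : ℂ) * η' x) * G' x) +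
      (k * h) • coupV (boxNet d L) G' x)‖ ≤ _
  rw [hx]
  have h1 : (JV β h (Complex.exp (((Real.sqrt h : ℝ) : ℂ) * η x) * G x) +
      (k * h) • coupV (boxNet d L) G x) -
    (JV β h (Complex.exp (((Real.sqrt h : ℝ) : ℂ) * η x) * G' x) +
      (k * h) • coupV (boxNet d L) G' x) =
      (JV β h (Complex.exp (((Real.sqrt h : ℝ) : ℂ) * η x) * G x) -
        JV β h (Complex.exp (((Real.sqrt h : ℝ) : ℂ) * η x) * G' x)) +
      (k * h) • coupV (boxNet d L) (fun y => G y - G' y) x := by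
    rw [← St2_coup_sub, smul_sub]
    abel
  rw [h1]
  refine (norm_add_le _ _).trans (add_le_add ?_ ?_)
  · refine (JV_nonexp hβ hh.le _ _).trans (le_of_eq ?_)
    rw [← mul_sub, St2_exp]
    rfl
  · rw [norm_smul, Real.norm_of_nonneg (mul_nonneg hk hh.le)]
    exact mul_le_mul_of_nonneg_left (St2_coup_norm _ _ _) (mul_nonneg hk hh.le)

end DynC

end
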