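import Pool.Agent.Lib_MP_36b788_m.M14
import Pool.Agent.Lib_MP_36b788_m.M15

/-!
# MP_36b788_pr, stationary limit: merged library part M16

Concatenation of smaller files (each in its own section), only to save build time.
-/

/-! ### from `Lib_MP_36b788c.Hop0` -/

section

/-!
# Effect of the shift at the site itself (probabilistic part)

Notation: `net = boxNet d L`, `u = ‖G z‖`, `n1 = ⌈k^e/h⌉`, `m = 2 n1` steps (real time `≤ 3 k^e`), `c = 1/(C √n1)` (`C = M.C`), `G^φ = trs … φ ω`. `A^φ_j = A h (ω_j z + φ c e0)` (`j < n1`), `A h (ω_j z)` otherwise. `δ = k^{e/8}`.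

`RegS ω` for a path `ω` (later used for `ω + φ • shz`): `ω_j z ∈ gd`, `PNear (A h (ω_j z)) m δ`, `Σ_{j<m} k h cpl ‖G_j‖ z ≤ δ u`.

`site_shift`. PROOF. Let both `ω + φ shz`, `ω + φ' shz` be in `RegS`, `s_j = k h coup G_j z`. `site_two` for `G^φ_j z`, `G^{φ'}_j z` with `θ_{ij} = (1 + √h (φ'-φ) c)^{#([i,j) ∩ [0,n1))}`: `|θ - 1| ≤ 2 √(n1 h) (φ'-φ)/C = ϑ`
(`n1 √h c = √(n1 h)/C ≤ 1/4`), `ς = 4 C √(n1 h) h^{3/8}·C`: telescoping `pr A' i j w - θ_{ij} pr A i j w = Σ_l …` with `sh` (base noise `ω + φ c e0 ∈ gd`), each term `≤ 2 C h^{7/8} c (φ'-φ) ‖w‖ · 2`, at most `n1` terms. `δ1 = Σ_{j<m} k h cpl D_j z / u`. The time condition `m h (1+β)(4u)^β ≤ 3 k^e (1+β) 4^β k^{-e/4} + … ≤ δ` for small `k` and `h`.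
So for all `j ≤ m`: `‖D_j z - (θ_{0j}-1) G z‖ ≤ 20 (δ ϑ + ς) u + 20 Σ_{j<m} k h cpl D_j z`.

`regS_prob`. PROOF. `gd`: `≤ m h³ ≤ 3h²`. `PNear`: `prod_near`, `≤ C m h/δ² ≤ C k^{3e/4}`. Sum: `fm1` at `φ = 0` with `U`: `E Σ ≤ 3 k^e · k · cpl(C e^r U) z ≤ C k^{e} r U z`, with `U z ≤ k^{-5e/16} u` and `r = 4d k^{-e/16}`: `≤ C k^{5e/8} u`, Markov with `δ u`: `≤ C k^{e/2}`.
-/

open MeasureTheory ProbabilityTheory
open scoped ENNReal

namespace DynC

open Dyn

section

variable {V H : Type} [NormedAddCommGroup V] [InnerProductSpace ℝ V] [MeasurableSpace V]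
  [BorelSpace V] [SecondCountableTopology V] [FiniteDimensional ℝ V]
  [NormedAddCommGroup H] [InnerProductSpace ℝ H] [MeasurableSpace H] [BorelSpace H]
  [SecondCountableTopology H]

/-- regular behaviour at the site `z` during the first `m` steps -/
def RegS (M : MN V H) {d : ℕ} (β k h : ℝ) (L : ℕ) (G : boxS d L → V) (z : boxS d L) (m : ℕ)
    (δ : ℝ) : Set (ℕ → boxS d L → H) :=
  {ω | (∀ j, j < m → ω j z ∈ M.gd h) ∧ PNear (fun j => M.A h (ω j z)) m δ ∧
    ∑ j ∈ Finset.range m, k * h * cpl (boxNet d L) (nrm (traj (M.st β k h L) G ω j)) z ≤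
      δ * ‖G z‖}

private theorem Hop0_cpl_nn {ι : Type} [Fintype ι] {d : ℕ} (net : Net ι d) (u : ι → ℝ)
    (hu : ∀ x, 0 ≤ u x) (x : ι) : 0 ≤ cpl net u x := by
  unfold cpl
  exact add_nonneg (Finset.sum_nonneg fun y _ => hu y) (mul_nonneg (Nat.cast_nonneg _) (hu x))

private theorem Hop0_meas_cpl {d L : ℕ} (z : boxS d L) :
    Measurable fun G : boxS d L → V => cpl (boxNet d L) (nrm G) z := by
  unfold cpl nrm
  refine Measurable.add ?_ ?_
  · exact Finset.measurable_sum _ fun y _ => (measurable_pi_apply y).norm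
  · exact (measurable_pi_apply z).norm.const_mul _

theorem measurableSet_RegS (M : MN V H) {d : ℕ} (β k h : ℝ) (hh : 0 < h) (hh1 : h < 1) (L : ℕ)
    (G : boxS d L → V) (z : boxS d L) (m : ℕ) (δ : ℝ) (hδ : 0 < δ) (hδ1 : δ ≤ 1) :
    MeasurableSet (RegS M β k h L G z m δ) := by
  obtain ⟨C, -, hC⟩ := prod_near M
  have hev : Measurable fun ω : ℕ → boxS d L → H => fun j => ω j z := by
    rw [measurable_pi_iff]
    intro j
    exact (measurable_pi_apply z).comp (measurable_pi_apply j)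
  have e1 : RegS M β k h L G z m δ =
      (⋂ j ∈ Finset.range m, {ω : ℕ → boxS d L → H | ω j z ∈ M.gd h}) ∩
      (((fun ω : ℕ → boxS d L → H => fun j => ω j z) ⁻¹'
        {ω : ℕ → H | PNear (fun j => M.A h (ω j)) m δ}) ∩
      {ω | ∑ j ∈ Finset.range m, k * h * cpl (boxNet d L) (nrm (traj (M.st β k h L) G ω j)) z ≤
        δ * ‖G z‖}) := by
    ext ω
    simp only [RegS, Set.mem_setOf_eq, Set.mem_inter_iff, Set.mem_iInter, Finset.mem_range,
      Set.mem_preimage]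
  rw [e1]
  refine MeasurableSet.inter ?_ (MeasurableSet.inter ?_ ?_)
  · refine Finset.measurableSet_biInter _ fun j _ => ?_
    exact ((measurable_pi_apply z).comp (measurable_pi_apply j)) (M.mgd h)
  · exact hev (hC h hh hh1 m δ hδ hδ1).1
  · refine measurableSet_le ?_ measurable_const
    refine Finset.measurable_sum _ fun j _ => ?_
    refine Measurable.const_mul ?_ _
    have h1 : Measurable fun ω : ℕ → boxS d L → H => traj (M.st β k h L) G ω j :=
      (measurable_traj (M.st β k h L) (M.measurable_st β k h L) j).comp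
        (measurable_const.prodMk measurable_id)
    exact (Hop0_meas_cpl z).comp h1

/-- exponential profile around a point -/
noncomputable def prof {d L : ℕ} (k a b : ℝ) (x : boxS d L) (v : boxS d L) : ℝ :=
  k ^ (a - b * (boxNet d L).dist v x)

theorem prof_cpl {d L : ℕ} (k a b : ℝ) (hk : 0 < k) (hk1 : k < 1) (x v : boxS d L) :
    k * cpl (boxNet d L) (prof k a b x) v ≤ 4 * d * k ^ (1 - max |b| 0) * prof k a b x v := by
  have hp0 : 0 < prof k a b x v := Real.rpow_pos_of_pos hk _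
  have hb0 : max |b| 0 = |b| := max_eq_left (abs_nonneg b)
  have hkb : 1 ≤ k ^ (-|b|) := by
    have := Real.rpow_le_rpow_of_exponent_ge hk hk1.le (neg_nonpos.mpr (abs_nonneg b))
    rwa [Real.rpow_zero] at this
  have hnb : ∀ y ∈ (boxNet d L).nb v, prof k a b x y ≤ k ^ (-|b|) * prof k a b x v := by
    intro y hy
    unfold prof
    rw [← Real.rpow_add hk]
    refine Real.rpow_le_rpow_of_exponent_ge hk hk1.le ?_
    have h1 : (boxNet d L).dist v y = 1 := (boxNet d L).dist_nb v y hy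
    have h2 : (boxNet d L).dist y v = 1 := by rw [(boxNet d L).dist_comm]; exact h1
    have h3 : (boxNet d L).dist v x ≤ 1 + (boxNet d L).dist y x := by
      have := (boxNet d L).dist_tri v y x
      omega
    have h4 : (boxNet d L).dist y x ≤ 1 + (boxNet d L).dist v x := by
      have := (boxNet d L).dist_tri y v x
      omega
    have h5 : ((boxNet d L).dist v x : ℝ) ≤ 1 + (boxNet d L).dist y x := by exact_mod_cast h3
    have h6 : ((boxNet d L).dist y x : ℝ) ≤ 1 + (boxNet d L).dist v x := by exact_mod_cast h4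
    have h7 : |((boxNet d L).dist y x : ℝ) - (boxNet d L).dist v x| ≤ 1 := by
      rw [abs_le]
      constructor <;> linarith
    have h8 : b * (((boxNet d L).dist y x : ℝ) - (boxNet d L).dist v x) ≤ |b| := by
      calc b * (((boxNet d L).dist y x : ℝ) - (boxNet d L).dist v x)
          ≤ |b * (((boxNet d L).dist y x : ℝ) - (boxNet d L).dist v x)| := le_abs_self _
        _ = |b| * |((boxNet d L).dist y x : ℝ) - (boxNet d L).dist v x| := abs_mul _ _
        _ ≤ |b| * 1 := mul_le_mul_of_nonneg_left h7 (abs_nonneg b)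
        _ = |b| := mul_one _
    linarith
  have hsum : ∑ y ∈ (boxNet d L).nb v, prof k a b x y ≤
      (2 * d : ℝ) * (k ^ (-|b|) * prof k a b x v) := by
    calc ∑ y ∈ (boxNet d L).nb v, prof k a b x y
        ≤ ∑ y ∈ (boxNet d L).nb v, k ^ (-|b|) * prof k a b x v := Finset.sum_le_sum hnb
      _ = ((boxNet d L).nb v).card * (k ^ (-|b|) * prof k a b x v) := by
          rw [Finset.sum_const, nsmul_eq_mul]
      _ ≤ (2 * d : ℝ) * (k ^ (-|b|) * prof k a b x v) := by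
          refine mul_le_mul_of_nonneg_right ?_ (by positivity)
          exact_mod_cast (boxNet d L).nb_card v
  have hc : cpl (boxNet d L) (prof k a b x) v ≤ 4 * d * (k ^ (-|b|) * prof k a b x v) := by
    unfold cpl
    have h1 : (2 * d : ℝ) * prof k a b x v ≤ 2 * d * (k ^ (-|b|) * prof k a b x v) := by
      refine mul_le_mul_of_nonneg_left ?_ (by positivity)
      nlinarith
    push_cast
    linarith
  calc k * cpl (boxNet d L) (prof k a b x) v
      ≤ k * (4 * d * (k ^ (-|b|) * prof k a b x v)) := mul_le_mul_of_nonneg_left hc hk.le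
    _ = 4 * d * k ^ (1 - max |b| 0) * prof k a b x v := by
        rw [hb0, sub_eq_add_neg, Real.rpow_add hk, Real.rpow_one]
        ring

private theorem Hop0_small (K e : ℝ) (he : 0 < e) : ∃ h0 : ℝ, 0 < h0 ∧ ∀ h, 0 < h → h < h0 →
    K * h ^ e ≤ 1 := by
  refine ⟨(1 / (|K| + 1)) ^ (1 / e), by positivity, fun h hh hlt => ?_⟩
  have hK : 0 < |K| + 1 := by positivity
  have h1 : h ^ e ≤ 1 / (|K| + 1) := by
    have h2 := Real.rpow_le_rpow hh.le hlt.le he.le
    rwa [← Real.rpow_mul (by positivity), one_div_mul_cancel he.ne', Real.rpow_one] at h2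
  have h3 : 0 ≤ h ^ e := Real.rpow_nonneg hh.le e
  calc K * h ^ e ≤ (|K| + 1) * h ^ e :=
        mul_le_mul_of_nonneg_right (by linarith [le_abs_self K]) h3
    _ ≤ (|K| + 1) * (1 / (|K| + 1)) := mul_le_mul_of_nonneg_left h1 hK.le
    _ = 1 := mul_one_div_cancel hK.ne'

private theorem Hop0_tele {V : Type} [AddCommGroup V] [Module ℝ V] (A A' : ℕ → V →ₗ[ℝ] V)
    (t θ : ℕ → ℝ) (i : ℕ) (hi : θ i = 1) (hθ : ∀ l, i ≤ l → θ (l + 1) = t l * θ l) (w : V) :
    ∀ j, i ≤ j → pr A' i j w - θ j • pr A i j w =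
      ∑ l ∈ Finset.Ico i j, pr A' (l + 1) j
        (θ l • (A' l (pr A i l w) - t l • A l (pr A i l w))) := by
  intro j hj
  induction j, hj using Nat.le_induction with
  | base => rw [pr_self, pr_self, hi, one_smul, sub_self, Finset.Ico_self, Finset.sum_empty]
  | succ j hj ih =>
    rw [Finset.sum_Ico_succ_top hj, pr_self, pr_succ A' hj, pr_succ A hj, hθ j hj]
    have h1 : ∑ l ∈ Finset.Ico i j, pr A' (l + 1) (j + 1)
          (θ l • (A' l (pr A i l w) - t l • A l (pr A i l w))) =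
        A' j (∑ l ∈ Finset.Ico i j, pr A' (l + 1) j
          (θ l • (A' l (pr A i l w) - t l • A l (pr A i l w)))) := by
      rw [map_sum]
      refine Finset.sum_congr rfl fun l hl => ?_
      exact pr_succ A' (by have := (Finset.mem_Ico.mp hl).2; omega) _
    rw [h1, ← ih, map_sub, map_smul, smul_sub, smul_smul, mul_comm (t j) (θ j)]
    abel

private theorem Hop0_pow (x : ℝ) (hx : 0 ≤ x) (n N : ℕ) (hn : n ≤ N) (h : N * x ≤ 1 / 4) :
    1 ≤ (1 + x) ^ n ∧ (1 + x) ^ n ≤ 1 + 2 * (N * x) := by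
  refine ⟨one_le_pow₀ (by linarith), ?_⟩
  have h0 : (n : ℝ) ≤ N := by exact_mod_cast hn
  have h1 : (1 + x) ^ n ≤ (1 + x) ^ N := pow_le_pow_right₀ (by linarith) hn
  have h2 : (1 + x) ^ N ≤ Real.exp (N * x) := by
    rw [Real.exp_nat_mul]
    refine pow_le_pow_left₀ (by linarith) ?_ _
    have := Real.add_one_le_exp x
    linarith
  have hnn : 0 ≤ N * x := mul_nonneg (Nat.cast_nonneg _) hx
  have h3 := Real.abs_exp_sub_one_le (x := N * x) (by rw [abs_of_nonneg hnn]; linarith)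
  rw [abs_of_nonneg hnn] at h3
  have h4 := le_abs_self (Real.exp (N * x) - 1)
  linarith

private theorem Hop0_hAA {V : Type} [NormedAddCommGroup V] [InnerProductSpace ℝ V] (m n1 : ℕ)
    (A A' : ℕ → V →ₗ[ℝ] V) (δ x κ : ℝ) (hδ : 0 < δ) (hδ1 : δ ≤ 1 / 16) (hx : 0 ≤ x)
    (hnx : n1 * x ≤ 1 / 4) (hA : PNear A m δ) (hA' : PNear A' m δ) (hκ : 0 ≤ κ)
    (hE : ∀ j, j < m → j < n1 → ∀ v, ‖A' j v - (1 + x) • A j v‖ ≤ κ * ‖v‖)
    (hE' : ∀ j, j < m → n1 ≤ j → ∀ v, A' j v = A j v) (i j : ℕ) (hij : i ≤ j) (hj : j ≤ m)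
    (w : V) :
    ‖pr A' i j w - (1 + x) ^ (min j n1 - min i n1) • pr A i j w‖ ≤ 2 * n1 * κ * ‖w‖ := by
  have hpn : ∀ (B : ℕ → V →ₗ[ℝ] V), PNear B m δ → ∀ a b, a ≤ b → b ≤ m → ∀ v,
      ‖pr B a b v‖ ≤ 17 / 16 * ‖v‖ := by
    intro B hB a b hab hb v
    have h1 := hB a b hab hb v
    have h2 : ‖pr B a b v‖ ≤ ‖pr B a b v - v‖ + ‖v‖ := by
      have := norm_add_le (pr B a b v - v) v
      rwa [sub_add_cancel] at this
    have h3 : δ * ‖v‖ ≤ 1 / 16 * ‖v‖ := mul_le_mul_of_nonneg_right hδ1 (norm_nonneg v)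
    linarith
  have ht := Hop0_tele A A' (fun l => if l < n1 then 1 + x else 1)
    (fun l => (1 + x) ^ (min l n1 - min i n1)) i (by simp) (fun l hl => by
      by_cases h : l < n1
      · simp only [h, if_true]
        rw [min_eq_left (Nat.succ_le_of_lt h), min_eq_left h.le, min_eq_left (hl.trans h.le),
          show l + 1 - i = (l - i) + 1 by omega, pow_succ, mul_comm]
      · simp only [h, if_false, one_mul]
        rw [show min (l + 1) n1 = min l n1 by omega]) w j hij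
  rw [ht]
  have hterm : ∀ l ∈ Finset.Ico i j, ‖pr A' (l + 1) j
      ((1 + x) ^ (min l n1 - min i n1) •
        (A' l (pr A i l w) - (if l < n1 then 1 + x else 1) • A l (pr A i l w)))‖ ≤
      if l < n1 then 2 * κ * ‖w‖ else 0 := by
    intro l hl
    obtain ⟨hl1, hl2⟩ := Finset.mem_Ico.mp hl
    by_cases h : l < n1
    · simp only [h, if_true]
      have hp1 := hpn A' hA' (l + 1) j (by omega) hj ((1 + x) ^ (min l n1 - min i n1) •
        (A' l (pr A i l w) - (1 + x) • A l (pr A i l w)))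
      obtain ⟨hq0, hq1⟩ := Hop0_pow x hx (min l n1 - min i n1) n1 (by omega) hnx
      have hq2 : (1 + x) ^ (min l n1 - min i n1) ≤ 3 / 2 := by linarith
      have he := hE l (by omega) h (pr A i l w)
      have hw := hpn A hA i l hl1 (by omega) w
      rw [norm_smul, Real.norm_of_nonneg (by linarith)] at hp1
      have h1 : κ * ‖pr A i l w‖ ≤ κ * (17 / 16 * ‖w‖) := mul_le_mul_of_nonneg_left hw hκ
      have h2 : (1 + x) ^ (min l n1 - min i n1) * ‖A' l (pr A i l w) - (1 + x) • A l (pr A i l w)‖ ≤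
          3 / 2 * (κ * (17 / 16 * ‖w‖)) :=
        mul_le_mul hq2 (he.trans h1) (norm_nonneg _) (by norm_num)
      have h3 : 0 ≤ κ * ‖w‖ := mul_nonneg hκ (norm_nonneg w)
      nlinarith
    · simp only [h, if_false, one_smul]
      rw [hE' l (by omega) (by omega), sub_self, smul_zero]
      have h0 := hpn A' hA' (l + 1) j (by omega) hj 0
      rwa [norm_zero, mul_zero] at h0
  refine (norm_sum_le _ _).trans ((Finset.sum_le_sum hterm).trans ?_)
  rw [← Finset.sum_filter, Finset.sum_const, nsmul_eq_mul]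
  have hc : ((Finset.Ico i j).filter (fun l => l < n1)).card ≤ n1 := by
    calc ((Finset.Ico i j).filter (fun l => l < n1)).card ≤ (Finset.range n1).card := by
          refine Finset.card_le_card fun l hl => ?_
          exact Finset.mem_range.mpr (Finset.mem_filter.mp hl).2
      _ = n1 := Finset.card_range n1
  have hc' : (((Finset.Ico i j).filter (fun l => l < n1)).card : ℝ) ≤ n1 := by exact_mod_cast hc
  have h3 : 0 ≤ κ * ‖w‖ := mul_nonneg hκ (norm_nonneg w)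
  nlinarith

private theorem Hop0_coup {V : Type} [NormedAddCommGroup V] [InnerProductSpace ℝ V]
    {ι : Type} [Fintype ι] {d : ℕ} (net : Net ι d) (G : ι → V) (x : ι) :
    ‖coupV net G x‖ ≤ cpl net (nrm G) x := by
  unfold coupV cpl nrm
  refine (norm_sub_le _ _).trans (add_le_add (norm_sum_le _ _) ?_)
  rw [norm_smul, Real.norm_of_nonneg (Nat.cast_nonneg _)]

private theorem Hop0_coup_sub {V : Type} [NormedAddCommGroup V] [InnerProductSpace ℝ V]
    {ι : Type} [Fintype ι] {d : ℕ} (net : Net ι d) (G G' : ι → V) (x : ι) :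
    ‖coupV net G' x - coupV net G x‖ ≤ cpl net (dif G' G) x := by
  have h1 : coupV net G' x - coupV net G x = coupV net (fun y => G' y - G y) x := by
    unfold coupV
    rw [Finset.sum_sub_distrib, smul_sub]
    abel
  rw [h1]
  exact Hop0_coup net _ x

theorem site_shift (M : MN V H) (d : ℕ) (β : ℝ) (hβ : 0 < β) (e : ℝ) (he : 0 < e)
    (he1 : e ≤ 1 / 16) : ∃ k0 : ℝ, 0 < k0 ∧ k0 < 1 ∧
    ∀ k, 0 < k → k < k0 → ∀ ς0 : ℝ, 0 < ς0 → ∃ h0 : ℝ, 0 < h0 ∧ ∀ h, 0 < h → h < h0 →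
    ∀ (L : ℕ) (G : boxS d L → V) (z : boxS d L), ‖G z‖ ≤ k ^ (-(e / (4 * β))) →
    ∀ (n1 m : ℕ), n1 = ⌈k ^ e / h⌉₊ → m ≤ 2 * n1 → ∀ φ φ' : ℝ, 0 ≤ φ → φ ≤ φ' → φ' ≤ 1 →
    ∀ ω : ℕ → boxS d L → H,
      (ω + φ • shz M z n1) ∈ RegS M β k h L G z m (k ^ (e / 8)) →
      (ω + φ' • shz M z n1) ∈ RegS M β k h L G z m (k ^ (e / 8)) →
      ∀ j, j ≤ m →
        ‖trs M β k h L G z n1 φ ω j z‖ ≤ 2 * ‖G z‖ ∧
        ‖trs M β k h L G z n1 φ' ω j z - trs M β k h L G z n1 φ ω j z -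
            ((1 + Real.sqrt h * ((φ' - φ) / (M.C * Real.sqrt n1))) ^ (min j n1) - 1) • G z‖ ≤
          (50 * k ^ (e / 8) * Real.sqrt (n1 * h) * (φ' - φ) + ς0) * ‖G z‖ +
            20 * ∑ i ∈ Finset.range m, k * h * cpl (boxNet d L)
              (dif (trs M β k h L G z n1 φ' ω i) (trs M β k h L G z n1 φ ω i)) z := by
  obtain ⟨k1, hk1, K1⟩ := Hop0_small 16 (e / 8) (by positivity)
  obtain ⟨k2, hk2, K2⟩ := Hop0_small (4 * (1 + β) * 4 ^ β) (5 * e / 8) (by positivity)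
  obtain ⟨k3, hk3, K3⟩ := Hop0_small 32 e he
  refine ⟨min (min k1 k2) (min k3 (1 / 2)), by positivity,
    (min_le_right _ _).trans_lt ((min_le_right _ _).trans_lt (by norm_num)), ?_⟩
  intro k hk hkl ς0 hς0
  have hkl1 : k < k1 := hkl.trans_le ((min_le_left _ _).trans (min_le_left _ _))
  have hkl2 : k < k2 := hkl.trans_le ((min_le_left _ _).trans (min_le_right _ _))
  have hkl3 : k < k3 := hkl.trans_le ((min_le_right _ _).trans (min_le_left _ _))
  have hkl4 : k < 1 / 2 := hkl.trans_le ((min_le_right _ _).trans (min_le_right _ _))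
  obtain ⟨h1, hh1, H1⟩ := Hop0_small (60 / ς0) (3 / 8) (by norm_num)
  obtain ⟨h2, hh2, H2⟩ := Hop0_small 48 (3 / 8) (by norm_num)
  have hke : 0 < k ^ e := Real.rpow_pos_of_pos hk e
  refine ⟨min (min h1 h2) (min (k ^ e) 1), by positivity, ?_⟩
  intro h hh hhl L G z hGz n1 m hn1 hm φ φ' hφ hφφ hφ1 ω hR hR' j hj
  have hhl1 : h < h1 := hhl.trans_le ((min_le_left _ _).trans (min_le_left _ _))
  have hhl2 : h < h2 := hhl.trans_le ((min_le_left _ _).trans (min_le_right _ _))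
  have hhl3 : h < k ^ e := hhl.trans_le ((min_le_right _ _).trans (min_le_left _ _))
  have hhl4 : h < 1 := hhl.trans_le ((min_le_right _ _).trans (min_le_right _ _))
  have hδ : 0 < k ^ (e / 8) := Real.rpow_pos_of_pos hk _
  have hδ1 : k ^ (e / 8) ≤ 1 / 16 := by
    have := K1 k hk hkl1
    linarith
  -- number of steps
  have hn1h : (n1 : ℝ) * h ≤ 2 * k ^ e := by
    have h3 : (n1 : ℝ) < k ^ e / h + 1 := by
      rw [hn1]
      exact Nat.ceil_lt_add_one (by positivity)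
    have h4 : (n1 : ℝ) * h ≤ (k ^ e / h + 1) * h := mul_le_mul_of_nonneg_right h3.le hh.le
    rw [add_mul, div_mul_cancel₀ _ hh.ne', one_mul] at h4
    linarith
  have hke1 : 2 * k ^ e ≤ 1 / 16 := by
    have := K3 k hk hkl3
    linarith
  have hn10 : 1 ≤ n1 := by
    rw [hn1]
    exact Nat.one_le_iff_ne_zero.mpr (Nat.ceil_pos.mpr (by positivity)).ne'
  have hn1p : (1 : ℝ) ≤ n1 := by exact_mod_cast hn10
  have hsn : 1 ≤ Real.sqrt n1 := by
    rw [Real.one_le_sqrt]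
    exact hn1p
  have hC1 := M.C1
  have hC0 : 0 < M.C := by linarith
  have hsq : Real.sqrt (n1 * h) ≤ 1 / 4 := by
    rw [show (1 / 4 : ℝ) = Real.sqrt (1 / 16) by
      rw [show (1 / 16 : ℝ) = (1 / 4) ^ 2 by norm_num, Real.sqrt_sq (by norm_num)]]
    exact Real.sqrt_le_sqrt (hn1h.trans hke1)
  have hsq0 : 0 ≤ Real.sqrt (n1 * h) := Real.sqrt_nonneg _
  have hsm : Real.sqrt (n1 * h) = Real.sqrt n1 * Real.sqrt h := Real.sqrt_mul (by positivity) _
  have hsh0 : 0 < Real.sqrt h := Real.sqrt_pos.mpr hh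
  have hφd : 0 ≤ φ' - φ := by linarith
  have hφd1 : φ' - φ ≤ 1 := by linarith
  set c : ℝ := (φ' - φ) / (M.C * Real.sqrt n1) with hc
  have hc0 : 0 ≤ c := by rw [hc]; positivity
  have hcC : M.C * c * Real.sqrt n1 = φ' - φ := by
    rw [hc]
    field_simp
  have hCc : M.C * c ≤ 1 := by
    have h3 : M.C * c * 1 ≤ M.C * c * Real.sqrt n1 :=
      mul_le_mul_of_nonneg_left hsn (by positivity)
    linarith
  have hc1 : c ≤ 1 := by
    have h3 : 1 * c ≤ M.C * c := mul_le_mul_of_nonneg_right hC1 hc0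
    linarith
  have hcs : c * Real.sqrt n1 ≤ φ' - φ := by
    have h3 : 1 * (c * Real.sqrt n1) ≤ M.C * (c * Real.sqrt n1) :=
      mul_le_mul_of_nonneg_right hC1 (by positivity)
    linarith
  have hnsq : (n1 : ℝ) = Real.sqrt n1 * Real.sqrt n1 := (Real.mul_self_sqrt (by positivity)).symm
  have hnx : (n1 : ℝ) * (Real.sqrt h * c) ≤ Real.sqrt (n1 * h) * (φ' - φ) := by
    calc (n1 : ℝ) * (Real.sqrt h * c) = (Real.sqrt n1 * Real.sqrt n1) * (Real.sqrt h * c) := by
          rw [← hnsq]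
      _ = Real.sqrt (n1 * h) * (c * Real.sqrt n1) := by rw [hsm]; ring
      _ ≤ Real.sqrt (n1 * h) * (φ' - φ) := mul_le_mul_of_nonneg_left hcs hsq0
  have hsd : Real.sqrt (n1 * h) * (φ' - φ) ≤ 1 / 4 := by
    calc Real.sqrt (n1 * h) * (φ' - φ) ≤ Real.sqrt (n1 * h) * 1 :=
          mul_le_mul_of_nonneg_left hφd1 hsq0
      _ ≤ 1 / 4 := by linarith
  have hsd0 : 0 ≤ Real.sqrt (n1 * h) * (φ' - φ) := mul_nonneg hsq0 hφd
  have hx0 : 0 ≤ Real.sqrt h * c := by positivity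
  -- objects
  set A : ℕ → V →ₗ[ℝ] V := fun i => M.A h ((ω + φ • shz M z n1) i z) with hAdef
  set A' : ℕ → V →ₗ[ℝ] V := fun i => M.A h ((ω + φ' • shz M z n1) i z) with hAdef'
  set g : ℕ → boxS d L → V := trs M β k h L G z n1 φ ω with hg
  set g' : ℕ → boxS d L → V := trs M β k h L G z n1 φ' ω with hg'
  obtain ⟨hR1, hR2, hR3⟩ := hR
  obtain ⟨hR1', hR2', hR3'⟩ := hR'
  have hstep : ∀ i, i < m → (fun i => g i z) (i + 1) =
      JV β h (A i ((fun i => g i z) i)) + (k * h) • coupV (boxNet d L) (g i) z := by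
    intro i _
    rfl
  have hstep' : ∀ i, i < m → (fun i => g' i z) (i + 1) =
      JV β h (A' i ((fun i => g' i z) i)) + (k * h) • coupV (boxNet d L) (g' i) z := by
    intro i _
    rfl
  have hg0 : g 0 z = G z := rfl
  have hg0' : g' 0 z = G z := rfl
  have hkh : 0 ≤ k * h := by positivity
  have hsn1 : ∀ i, ‖(k * h) • coupV (boxNet d L) (g i) z‖ ≤
      k * h * cpl (boxNet d L) (nrm (g i)) z := by
    intro i
    rw [norm_smul, Real.norm_of_nonneg hkh]
    exact mul_le_mul_of_nonneg_left (Hop0_coup _ _ _) hkh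
  have hsn1' : ∀ i, ‖(k * h) • coupV (boxNet d L) (g' i) z‖ ≤
      k * h * cpl (boxNet d L) (nrm (g' i)) z := by
    intro i
    rw [norm_smul, Real.norm_of_nonneg hkh]
    exact mul_le_mul_of_nonneg_left (Hop0_coup _ _ _) hkh
  have hs : ∑ i ∈ Finset.range m, ‖(k * h) • coupV (boxNet d L) (g i) z‖ ≤
      k ^ (e / 8) * ‖G z‖ := (Finset.sum_le_sum fun i _ => hsn1 i).trans hR3
  have hs' : ∑ i ∈ Finset.range m, ‖(k * h) • coupV (boxNet d L) (g' i) z‖ ≤
      k ^ (e / 8) * ‖G z‖ := (Finset.sum_le_sum fun i _ => hsn1' i).trans hR3'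
  have hss : ∑ i ∈ Finset.range m, ‖(k * h) • coupV (boxNet d L) (g' i) z -
      (k * h) • coupV (boxNet d L) (g i) z‖ ≤
      ∑ i ∈ Finset.range m, k * h * cpl (boxNet d L) (dif (g' i) (g i)) z := by
    refine Finset.sum_le_sum fun i _ => ?_
    rw [← smul_sub, norm_smul, Real.norm_of_nonneg hkh]
    exact mul_le_mul_of_nonneg_left (Hop0_coup_sub _ _ _ _) hkh
  -- time condition
  have ht : (m : ℝ) * h * (1 + β) * (4 * ‖G z‖) ^ β ≤ k ^ (e / 8) := by
    have h3 : (m : ℝ) * h ≤ 4 * k ^ e := by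
      have h4 : (m : ℝ) ≤ 2 * n1 := by exact_mod_cast hm
      have h5 : (m : ℝ) * h ≤ 2 * n1 * h := mul_le_mul_of_nonneg_right h4 hh.le
      linarith
    have h4 : (4 * ‖G z‖) ^ β ≤ 4 ^ β * k ^ (-(e / 4)) := by
      rw [Real.mul_rpow (by norm_num) (norm_nonneg _)]
      refine mul_le_mul_of_nonneg_left ?_ (by positivity)
      have h5 := Real.rpow_le_rpow (norm_nonneg _) hGz hβ.le
      rw [← Real.rpow_mul hk.le] at h5
      rwa [show -(e / (4 * β)) * β = -(e / 4) by field_simp] at h5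
    calc (m : ℝ) * h * (1 + β) * (4 * ‖G z‖) ^ β
        ≤ 4 * k ^ e * (1 + β) * (4 ^ β * k ^ (-(e / 4))) := by
          refine mul_le_mul ?_ h4 (Real.rpow_nonneg (by positivity) _) (by positivity)
          exact mul_le_mul_of_nonneg_right h3 (by linarith)
      _ = (4 * (1 + β) * 4 ^ β * k ^ (5 * e / 8)) * k ^ (e / 8) := by
          have h6 : k ^ e * k ^ (-(e / 4)) = k ^ (5 * e / 8) * k ^ (e / 8) := by
            rw [← Real.rpow_add hk, ← Real.rpow_add hk]
            congr 1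
            ring
          calc 4 * k ^ e * (1 + β) * (4 ^ β * k ^ (-(e / 4)))
              = 4 * (1 + β) * 4 ^ β * (k ^ e * k ^ (-(e / 4))) := by ring
            _ = _ := by rw [h6]; ring
      _ ≤ 1 * k ^ (e / 8) := mul_le_mul_of_nonneg_right (K2 k hk hkl2) hδ.le
      _ = k ^ (e / 8) := one_mul _
  -- shift relations
  have hbase : ∀ i, i < n1 → (ω + φ' • shz M z n1) i z =
      (ω + φ • shz M z n1) i z + c • M.e0 := by
    intro i hi
    simp only [Pi.add_apply, Pi.smul_apply, shz, hi, and_self, if_true, smul_smul]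
    rw [add_assoc, ← add_smul]
    congr 2
    rw [hc]
    field_simp
    ring
  have hbase' : ∀ i, n1 ≤ i → (ω + φ' • shz M z n1) i z = (ω + φ • shz M z n1) i z := by
    intro i hi
    simp only [Pi.add_apply, Pi.smul_apply, shz, hi.not_gt, and_false, if_false, smul_zero]
  have hE : ∀ i, i < m → i < n1 → ∀ v, ‖A' i v - (1 + Real.sqrt h * c) • A i v‖ ≤
      (M.C * h ^ (7 / 8 : ℝ) * c) * ‖v‖ := by
    intro i him hi v
    have h3 := M.sh h ((ω + φ • shz M z n1) i z) c v hh hhl4 (by rwa [abs_of_nonneg hc0])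
      (hR1 i him)
    rw [abs_of_nonneg hc0] at h3
    simp only [hAdef, hAdef', hbase i hi]
    exact h3
  have hE' : ∀ i, i < m → n1 ≤ i → ∀ v, A' i v = A i v := by
    intro i _ hi v
    simp only [hAdef, hAdef', hbase' i hi]
  have h38 : 0 < h ^ (3 / 8 : ℝ) := Real.rpow_pos_of_pos hh _
  have hsplit : h ^ (7 / 8 : ℝ) = Real.sqrt h * h ^ (3 / 8 : ℝ) := by
    rw [Real.sqrt_eq_rpow, ← Real.rpow_add hh]
    norm_num
  have hsh38 : Real.sqrt h ≤ h ^ (3 / 8 : ℝ) := by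
    rw [Real.sqrt_eq_rpow]
    exact Real.rpow_le_rpow_of_exponent_ge hh hhl4.le (by norm_num)
  have hsh1 : Real.sqrt h ≤ 1 := by
    rw [show (1 : ℝ) = Real.sqrt 1 by rw [Real.sqrt_one]]
    exact Real.sqrt_le_sqrt hhl4.le
  have hκn : 2 * (n1 : ℝ) * (M.C * h ^ (7 / 8 : ℝ) * c) ≤ h ^ (3 / 8 : ℝ) := by
    have h3 : 2 * (n1 : ℝ) * (M.C * h ^ (7 / 8 : ℝ) * c) =
        2 * (Real.sqrt (n1 * h) * (M.C * c * Real.sqrt n1)) * h ^ (3 / 8 : ℝ) := by
      rw [hsplit, hsm]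
      nth_rewrite 1 [hnsq]
      ring
    rw [h3, hcC]
    calc 2 * (Real.sqrt (n1 * h) * (φ' - φ)) * h ^ (3 / 8 : ℝ) ≤ 1 * h ^ (3 / 8 : ℝ) :=
          mul_le_mul_of_nonneg_right (by linarith) h38.le
      _ = h ^ (3 / 8 : ℝ) := one_mul _
  have hκ0 : 0 ≤ M.C * h ^ (7 / 8 : ℝ) * c := by positivity
  have hAA : ∀ a b, a ≤ b → b ≤ m → ∀ w, ‖pr A' a b w -
      (1 + Real.sqrt h * c) ^ (min b n1 - min a n1) • pr A a b w‖ ≤
      3 * h ^ (3 / 8 : ℝ) * ‖w‖ := by
    intro a b hab hb w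
    refine (Hop0_hAA m n1 A A' (k ^ (e / 8)) (Real.sqrt h * c) _ hδ hδ1 hx0
      (hnx.trans hsd) hR2 hR2' hκ0 hE hE' a b hab hb w).trans ?_
    refine mul_le_mul_of_nonneg_right ?_ (norm_nonneg w)
    linarith
  have hAA1 : ∀ i, i < m → ∀ w, ‖A' i w - A i w‖ ≤ 3 * h ^ (3 / 8 : ℝ) * ‖w‖ := by
    intro i hi w
    by_cases hin : i < n1
    · have h3 := hE i hi hin w
      have h4 : A' i w - A i w = (A' i w - (1 + Real.sqrt h * c) • A i w) +
          (Real.sqrt h * c) • A i w := by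
        rw [add_smul, one_smul]
        abel
      have h5 := hR2 i (i + 1) (by omega) (by omega) w
      rw [pr_succ _ (le_refl i), pr_self] at h5
      have h6 : ‖A i w‖ ≤ 2 * ‖w‖ := by
        have h7 := norm_add_le (A i w - w) w
        rw [sub_add_cancel] at h7
        have h8 : k ^ (e / 8) * ‖w‖ ≤ 1 / 16 * ‖w‖ := mul_le_mul_of_nonneg_right hδ1 (norm_nonneg w)
        have h9 := norm_nonneg w
        linarith
      rw [h4]
      refine (norm_add_le _ _).trans ?_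
      rw [norm_smul, Real.norm_of_nonneg hx0]
      have h7 : M.C * h ^ (7 / 8 : ℝ) * c ≤ h ^ (3 / 8 : ℝ) := by
        rw [hsplit]
        calc M.C * (Real.sqrt h * h ^ (3 / 8 : ℝ)) * c
            = (M.C * c) * Real.sqrt h * h ^ (3 / 8 : ℝ) := by ring
          _ ≤ 1 * 1 * h ^ (3 / 8 : ℝ) := by
              refine mul_le_mul_of_nonneg_right ?_ h38.le
              exact mul_le_mul hCc hsh1 hsh0.le (by norm_num)
          _ = h ^ (3 / 8 : ℝ) := by ring
      have h8 : Real.sqrt h * c ≤ h ^ (3 / 8 : ℝ) := by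
        calc Real.sqrt h * c ≤ Real.sqrt h * 1 := mul_le_mul_of_nonneg_left hc1 hsh0.le
          _ ≤ h ^ (3 / 8 : ℝ) := by linarith
      have h9 : Real.sqrt h * c * ‖A i w‖ ≤ h ^ (3 / 8 : ℝ) * (2 * ‖w‖) :=
        mul_le_mul h8 h6 (norm_nonneg _) h38.le
      have h10 : M.C * h ^ (7 / 8 : ℝ) * c * ‖w‖ ≤ h ^ (3 / 8 : ℝ) * ‖w‖ :=
        mul_le_mul_of_nonneg_right h7 (norm_nonneg w)
      linarith
    · rw [hE' i hi (by omega), sub_self, norm_zero]
      positivity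
  -- the sum of the differences
  set S : ℝ := ∑ i ∈ Finset.range m, k * h * cpl (boxNet d L) (dif (g' i) (g i)) z with hS
  have hS0 : 0 ≤ S := Finset.sum_nonneg fun i _ => mul_nonneg hkh
    (Hop0_cpl_nn _ _ (fun y => norm_nonneg _) z)
  have hθ : ∀ a b, a ≤ b → b ≤ m → |(1 + Real.sqrt h * c) ^ (min b n1 - min a n1) - 1| ≤
      2 * (Real.sqrt (n1 * h) * (φ' - φ)) := by
    intro a b _ _
    obtain ⟨hq0, hq1⟩ := Hop0_pow (Real.sqrt h * c) hx0 (min b n1 - min a n1) n1 (by omega)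
      (hnx.trans hsd)
    rw [abs_of_nonneg (by linarith)]
    linarith
  have hς1 : 3 * h ^ (3 / 8 : ℝ) ≤ 1 / 16 := by
    have := H2 h hh hhl2
    linarith
  have hςς : 20 * (3 * h ^ (3 / 8 : ℝ)) ≤ ς0 := by
    have h3 := H1 h hh hhl1
    have h4 := mul_le_mul_of_nonneg_left h3 hς0.le
    rw [mul_one, ← mul_assoc, mul_div_cancel₀ _ hς0.ne'] at h4
    linarith
  refine ⟨?_, ?_⟩
  · have h3 := site_one hβ hh m A (fun i => (k * h) • coupV (boxNet d L) (g i) z)
      (fun i => g i z) hstep (k ^ (e / 8)) hδ hδ1 hR2 hs ht j hj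
    simp only [hg0] at h3
    have h4 := norm_add_le (g j z - G z) (G z)
    rw [sub_add_cancel] at h4
    have h5 : 8 * k ^ (e / 8) * ‖G z‖ ≤ 1 * ‖G z‖ :=
      mul_le_mul_of_nonneg_right (by linarith) (norm_nonneg _)
    linarith
  · set δ1 : ℝ := if 0 < ‖G z‖ then S / ‖G z‖ else 0 with hδ1def
    have hd1 : 0 ≤ δ1 := by
      rw [hδ1def]
      split_ifs
      · exact div_nonneg hS0 (norm_nonneg _)
      · exact le_refl 0
    have hd1S : δ1 * ‖G z‖ ≤ S := by
      rw [hδ1def]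
      split_ifs with h3
      · rw [div_mul_cancel₀ _ h3.ne']
      · rw [zero_mul]; exact hS0
    have hssS : ∑ i ∈ Finset.range m, ‖(k * h) • coupV (boxNet d L) (g' i) z -
        (k * h) • coupV (boxNet d L) (g i) z‖ ≤ δ1 * ‖G z‖ := by
      by_cases h3 : 0 < ‖G z‖
      · rw [hδ1def, if_pos h3, div_mul_cancel₀ _ h3.ne']
        exact hss
      · have h4 : ‖G z‖ = 0 := le_antisymm (not_lt.mp h3) (norm_nonneg _)
        rw [h4, mul_zero] at hs hs' ⊢
        calc ∑ i ∈ Finset.range m, ‖(k * h) • coupV (boxNet d L) (g' i) z -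
              (k * h) • coupV (boxNet d L) (g i) z‖
            ≤ ∑ i ∈ Finset.range m, (‖(k * h) • coupV (boxNet d L) (g' i) z‖ +
              ‖(k * h) • coupV (boxNet d L) (g i) z‖) :=
              Finset.sum_le_sum fun i _ => norm_sub_le _ _
          _ ≤ 0 := by
              rw [Finset.sum_add_distrib]
              linarith
    have h3 := site_two hβ hh m A A' (fun i => (k * h) • coupV (boxNet d L) (g i) z)
      (fun i => (k * h) • coupV (boxNet d L) (g' i) z) (fun i => g i z) (fun i => g' i z)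
      hstep hstep' rfl (k ^ (e / 8)) (2 * (Real.sqrt (n1 * h) * (φ' - φ)))
      (3 * h ^ (3 / 8 : ℝ)) δ1 hδ hδ1 (by linarith) (by linarith) (by linarith) hς1 hd1
      hR2 hR2' (fun a b => (1 + Real.sqrt h * c) ^ (min b n1 - min a n1)) hθ hAA hAA1 hs hs'
      hssS ht j hj
    simp only [hg0, Nat.zero_min, Nat.sub_zero] at h3
    refine h3.trans ?_
    have h4 : 0 ≤ k ^ (e / 8) * (Real.sqrt (n1 * h) * (φ' - φ)) * ‖G z‖ :=
      mul_nonneg (mul_nonneg hδ.le hsd0) (norm_nonneg _)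
    have h5 : 20 * (3 * h ^ (3 / 8 : ℝ)) * ‖G z‖ ≤ ς0 * ‖G z‖ :=
      mul_le_mul_of_nonneg_right hςς (norm_nonneg _)
    calc 20 * (k ^ (e / 8) * (2 * (Real.sqrt (n1 * h) * (φ' - φ))) + δ1 + 3 * h ^ (3 / 8 : ℝ)) *
          ‖G z‖
        = 40 * (k ^ (e / 8) * (Real.sqrt (n1 * h) * (φ' - φ)) * ‖G z‖) + 20 * (δ1 * ‖G z‖) +
          20 * (3 * h ^ (3 / 8 : ℝ)) * ‖G z‖ := by ring
      _ ≤ 50 * (k ^ (e / 8) * (Real.sqrt (n1 * h) * (φ' - φ)) * ‖G z‖) + 20 * S +
          ς0 * ‖G z‖ := by linarith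
      _ = _ := by ring

private theorem Hop0_trs0 (M : MN V H) {d : ℕ} (β k h : ℝ) (L : ℕ) (G : boxS d L → V)
    (z : boxS d L) (ω : ℕ → boxS d L → H) (n : ℕ) :
    trs M β k h L G z 1 0 ω n = traj (M.st β k h L) G ω n := by
  unfold trs
  rw [zero_smul, add_zero]

private theorem Hop0_B1 (M : MN V H) {d L : ℕ} (h : ℝ) (z : boxS d L) (m : ℕ)
    (hT : M.γ (M.gd h)ᶜ ≤ ENNReal.ofReal (h ^ 3)) (hh : 0 < h) :
    PI (M.mu d L) {ω | ¬ ∀ j, j < m → ω j z ∈ M.gd h} ≤ ENNReal.ofReal (m * h ^ 3) := by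
  have h1 : {ω : ℕ → boxS d L → H | ¬ ∀ j, j < m → ω j z ∈ M.gd h} ⊆
      ⋃ j ∈ Finset.range m, {ω | ω j z ∈ (M.gd h)ᶜ} := by
    intro ω hω
    simp only [Set.mem_setOf_eq, not_forall] at hω
    obtain ⟨j, hj, hjω⟩ := hω
    simp only [Set.mem_iUnion, Finset.mem_range]
    exact ⟨j, hj, hjω⟩
  have h2 : ∀ j, PI (M.mu d L) {ω | ω j z ∈ (M.gd h)ᶜ} ≤ ENNReal.ofReal (h ^ 3) := by
    intro j
    have hm : MeasurableSet ((fun a : boxS d L → H => a z) ⁻¹' (M.gd h)ᶜ) :=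
      (measurable_pi_apply z) (M.mgd h).compl
    have e1 : PI (M.mu d L) {ω | ω j z ∈ (M.gd h)ᶜ} =
        (M.mu d L) ((fun a : boxS d L → H => a z) ⁻¹' (M.gd h)ᶜ) := by
      conv_rhs => rw [← map_coord (μ := M.mu d L) j]
      rw [Measure.map_apply (measurable_pi_apply j) hm]
      rfl
    have e2 : (M.mu d L) ((fun a : boxS d L → H => a z) ⁻¹' (M.gd h)ᶜ) = M.γ (M.gd h)ᶜ := by
      unfold MN.mu
      exact (measurePreserving_eval (fun _ : boxS d L => M.γ) z).measure_preimage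
        (M.mgd h).compl.nullMeasurableSet
    rw [e1, e2]
    exact hT
  calc PI (M.mu d L) {ω | ¬ ∀ j, j < m → ω j z ∈ M.gd h}
      ≤ PI (M.mu d L) (⋃ j ∈ Finset.range m, {ω | ω j z ∈ (M.gd h)ᶜ}) := measure_mono h1
    _ ≤ ∑ j ∈ Finset.range m, PI (M.mu d L) {ω | ω j z ∈ (M.gd h)ᶜ} :=
        measure_biUnion_finset_le _ _
    _ ≤ ∑ j ∈ Finset.range m, ENNReal.ofReal (h ^ 3) := Finset.sum_le_sum fun j _ => h2 j
    _ = ENNReal.ofReal (m * h ^ 3) := by
        rw [Finset.sum_const, Finset.card_range, nsmul_eq_mul, ENNReal.ofReal_mul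
          (Nat.cast_nonneg m), ENNReal.ofReal_natCast]

private theorem Hop0_B2 (M : MN V H) {d L : ℕ} (h : ℝ) (z : boxS d L) (m : ℕ) (δ : ℝ)
    (hm : MeasurableSet {ω : ℕ → H | PNear (fun j => M.A h (ω j)) m δ}) :
    PI (M.mu d L) {ω | ¬ PNear (fun j => M.A h (ω j z)) m δ} =
      PI M.γ {ω | ¬ PNear (fun j => M.A h (ω j)) m δ} := by
  have hmap : (M.mu d L).map (fun a : boxS d L → H => a z) = M.γ := by
    unfold MN.mu
    exact (measurePreserving_eval (fun _ : boxS d L => M.γ) z).map_eq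
  have : IsProbabilityMeasure ((M.mu d L).map (fun a : boxS d L → H => a z)) := by
    rw [hmap]; infer_instance
  have h1 := PI_map (μ := M.mu d L) (fun a : boxS d L → H => a z) (measurable_pi_apply z)
  have h2 : PI ((M.mu d L).map (fun a : boxS d L → H => a z)) = PI M.γ := by
    congr 1
  rw [h2] at h1
  have hev : Measurable fun ω : ℕ → boxS d L → H => fun j => ω j z := by
    rw [measurable_pi_iff]
    intro j
    exact (measurable_pi_apply z).comp (measurable_pi_apply j)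
  have hm' : MeasurableSet {ω : ℕ → H | ¬ PNear (fun j => M.A h (ω j)) m δ} := hm.compl
  rw [← h1, Measure.map_apply hev hm']
  rfl

theorem regS_prob (M : MN V H) (d : ℕ) (β : ℝ) (hβ : 0 < β) (e : ℝ) (he : 0 < e)
    (he1 : e ≤ 1 / 16) : ∃ C k0 : ℝ, 0 < C ∧ 0 < k0 ∧ k0 < 1 ∧
    ∀ k, 0 < k → k < k0 → ∃ h0 : ℝ, 0 < h0 ∧ ∀ h, 0 < h → h < h0 →
    ∀ (L : ℕ) (G : boxS d L → V) (z x : boxS d L), ‖G z‖ ≤ k ^ (-(e / (4 * β))) →
    0 < ‖G z‖ →
    ∀ a : ℝ, k ^ (a - (1 + e / 16) * (boxNet d L).dist z x) ≤ k ^ (-(5 * e / 16)) →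
    (∀ v, ‖G v‖ ≤ prof k a (1 + e / 16) x v * ‖G z‖) →
    ∀ m : ℕ, m ≤ 2 * ⌈k ^ e / h⌉₊ →
      PI (M.mu d L) (RegS M β k h L G z m (k ^ (e / 8)))ᶜ ≤ ENNReal.ofReal (C * k ^ (e / 2)) := by
  obtain ⟨Cp, hCp, hP⟩ := prod_near M
  obtain ⟨Cf, hCf, hF⟩ := fm1 M d β hβ
  obtain ⟨hT0, hhT0, hT⟩ := M.tail
  obtain ⟨k1, hk1, K1⟩ := Hop0_small 4 e he
  obtain ⟨k2, hk2, K2⟩ := Hop0_small (16 * d) (15 * e / 16) (by positivity)
  refine ⟨4 + 4 * Cp + 48 * Cf * d, min (min k1 k2) (1 / 2), by positivity, by positivity,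
    (min_le_right _ _).trans_lt (by norm_num), ?_⟩
  intro k hk hkl
  have hkl1 : k < k1 := hkl.trans_le ((min_le_left _ _).trans (min_le_left _ _))
  have hkl2 : k < k2 := hkl.trans_le ((min_le_left _ _).trans (min_le_right _ _))
  have hkl4 : k < 1 / 2 := hkl.trans_le (min_le_right _ _)
  have hk1' : k < 1 := by linarith
  have hke : 0 < k ^ e := Real.rpow_pos_of_pos hk e
  refine ⟨min hT0 (min (k ^ e) (1 / 2)), by positivity, ?_⟩
  intro h hh hhl L G z x _ hu a ha hGp m hm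
  have hhl1 : h < hT0 := hhl.trans_le (min_le_left _ _)
  have hhl2 : h < k ^ e := hhl.trans_le ((min_le_right _ _).trans (min_le_left _ _))
  have hhl3 : h < 1 / 2 := hhl.trans_le ((min_le_right _ _).trans (min_le_right _ _))
  have hh1 : h < 1 := by linarith
  have hmh : (m : ℝ) * h ≤ 4 * k ^ e := by
    have h3 : ((⌈k ^ e / h⌉₊ : ℕ) : ℝ) < k ^ e / h + 1 := Nat.ceil_lt_add_one (by positivity)
    have h4 : (m : ℝ) ≤ 2 * ((⌈k ^ e / h⌉₊ : ℕ) : ℝ) := by exact_mod_cast hm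
    have h5 : (m : ℝ) * h ≤ 2 * (k ^ e / h + 1) * h :=
      mul_le_mul_of_nonneg_right (by linarith) hh.le
    rw [mul_assoc, add_mul, div_mul_cancel₀ _ hh.ne', one_mul] at h5
    linarith
  have hmh0 : 0 ≤ (m : ℝ) * h := by positivity
  have hmh1 : (m : ℝ) * h ≤ 1 := hmh.trans (K1 k hk hkl1)
  have hδ : 0 < k ^ (e / 8) := Real.rpow_pos_of_pos hk _
  have hδ1 : k ^ (e / 8) ≤ 1 := Real.rpow_le_one hk.le hk1'.le (by positivity)
  have hke2 : 0 < k ^ (e / 2) := Real.rpow_pos_of_pos hk _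
  obtain ⟨hPm, hPb⟩ := hP h hh hh1 m (k ^ (e / 8)) hδ hδ1
  -- first part
  have hB1 : PI (M.mu d L) {ω | ¬ ∀ j, j < m → ω j z ∈ M.gd h} ≤
      ENNReal.ofReal (4 * k ^ (e / 2)) := by
    refine (Hop0_B1 M h z m (hT h hh hhl1) hh).trans (ENNReal.ofReal_le_ofReal ?_)
    have h3 : (m : ℝ) * h ^ 3 = (m * h) * h ^ 2 := by ring
    have h4 : h ^ 2 ≤ 1 := pow_le_one₀ hh.le hh1.le
    have h5 : k ^ e ≤ k ^ (e / 2) := Real.rpow_le_rpow_of_exponent_ge hk hk1'.le (by linarith)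
    rw [h3]
    calc (m : ℝ) * h * h ^ 2 ≤ (m : ℝ) * h * 1 := mul_le_mul_of_nonneg_left h4 hmh0
      _ ≤ 4 * k ^ (e / 2) := by linarith
  -- second part
  have hB2 : PI (M.mu d L) {ω | ¬ PNear (fun j => M.A h (ω j z)) m (k ^ (e / 8))} ≤
      ENNReal.ofReal (4 * Cp * k ^ (e / 2)) := by
    rw [Hop0_B2 M h z m _ hPm]
    refine hPb.trans (ENNReal.ofReal_le_ofReal ?_)
    have h3 : (k ^ (e / 8)) ^ 2 = k ^ (e / 4) := by
      rw [← Real.rpow_natCast, ← Real.rpow_mul hk.le]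
      congr 1
      push_cast
      ring
    have h4 : k ^ e = k ^ (3 * e / 4) * k ^ (e / 4) := by
      rw [← Real.rpow_add hk]
      congr 1
      ring
    have h5 : k ^ (3 * e / 4) ≤ k ^ (e / 2) :=
      Real.rpow_le_rpow_of_exponent_ge hk hk1'.le (by linarith)
    have h6 : 0 < k ^ (e / 4) := Real.rpow_pos_of_pos hk _
    rw [h3, div_le_iff₀ h6]
    calc Cp * ((m : ℝ) * h) ≤ Cp * (4 * k ^ e) := mul_le_mul_of_nonneg_left hmh (by linarith)
      _ = 4 * Cp * k ^ (3 * e / 4) * k ^ (e / 4) := by rw [h4]; ring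
      _ ≤ 4 * Cp * k ^ (e / 2) * k ^ (e / 4) := by
          refine mul_le_mul_of_nonneg_right ?_ h6.le
          exact mul_le_mul_of_nonneg_left h5 (by linarith)
  -- third part
  have hprof0 : ∀ v, 0 < prof k a (1 + e / 16) x v := fun v => Real.rpow_pos_of_pos hk _
  have hr : ∀ v, k * cpl (boxNet d L) (fun w => prof k a (1 + e / 16) x w * ‖G z‖) v ≤
      (4 * d * k ^ (-(e / 16))) * (prof k a (1 + e / 16) x v * ‖G z‖) := by
    intro v
    have h3 := prof_cpl k a (1 + e / 16) hk hk1' x v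
    rw [abs_of_nonneg (by positivity), max_eq_left (by positivity),
      show 1 - (1 + e / 16) = -(e / 16) by ring] at h3
    have h4 : cpl (boxNet d L) (fun w => prof k a (1 + e / 16) x w * ‖G z‖) v =
        cpl (boxNet d L) (prof k a (1 + e / 16) x) v * ‖G z‖ := by
      unfold cpl
      rw [← Finset.sum_mul]
      ring
    rw [h4]
    have h5 := mul_le_mul_of_nonneg_right h3 hu.le
    linarith
  have hr0 : 0 ≤ 4 * (d : ℝ) * k ^ (-(e / 16)) := by positivity
  have hrm : 4 * (d : ℝ) * k ^ (-(e / 16)) * (m * h) ≤ 1 := by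
    have h3 : k ^ (-(e / 16)) * k ^ e = k ^ (15 * e / 16) := by
      rw [← Real.rpow_add hk]
      congr 1
      ring
    calc 4 * (d : ℝ) * k ^ (-(e / 16)) * (m * h) ≤ 4 * (d : ℝ) * k ^ (-(e / 16)) * (4 * k ^ e) :=
          mul_le_mul_of_nonneg_left hmh hr0
      _ = 16 * d * (k ^ (-(e / 16)) * k ^ e) := by ring
      _ = 16 * d * k ^ (15 * e / 16) := by rw [h3]
      _ ≤ 1 := K2 k hk hkl2
  have hmeas : ∀ j, Measurable fun ω : ℕ → boxS d L → H => traj (M.st β k h L) G ω j := fun j =>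
    (measurable_traj (M.st β k h L) (M.measurable_st β k h L) j).comp
      (measurable_const.prodMk measurable_id)
  have hE : ∀ j, j < m → ∀ v, ∫⁻ ω, ENNReal.ofReal ‖traj (M.st β k h L) G ω j v‖
      ∂(PI (M.mu d L)) ≤ ENNReal.ofReal (3 * Cf * (prof k a (1 + e / 16) x v * ‖G z‖)) := by
    intro j hj v
    have hjm : (j : ℝ) * h ≤ m * h :=
      mul_le_mul_of_nonneg_right (by exact_mod_cast hj.le) hh.le
    have h3 := hF k h hk hk1' hh hh1 L z 1 (le_refl 1) (by rw [Nat.cast_one, one_mul]; exact hh1.le)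
      0 (le_refl 0) zero_le_one G (fun w => prof k a (1 + e / 16) x w * ‖G z‖)
      (4 * d * k ^ (-(e / 16))) hr0 (fun w => (mul_pos (hprof0 w) hu).le) hr hGp j v
      (hjm.trans hmh1)
    have h4 : (fun ω : ℕ → boxS d L → H => ENNReal.ofReal ‖trs M β k h L G z 1 0 ω j v‖) =
        fun ω => ENNReal.ofReal ‖traj (M.st β k h L) G ω j v‖ := by
      funext ω
      rw [Hop0_trs0]
    rw [h4] at h3
    refine h3.trans (ENNReal.ofReal_le_ofReal ?_)
    have h5 : 4 * (d : ℝ) * k ^ (-(e / 16)) * (j * h) ≤ 1 :=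
      (mul_le_mul_of_nonneg_left hjm hr0).trans hrm
    have h6 : Real.exp (4 * (d : ℝ) * k ^ (-(e / 16)) * (j * h)) ≤ 3 :=
      (Real.exp_le_exp.mpr h5).trans Real.exp_one_lt_three.le
    have h7 : 0 ≤ prof k a (1 + e / 16) x v * ‖G z‖ := (mul_pos (hprof0 v) hu).le
    refine mul_le_mul_of_nonneg_right ?_ h7
    calc Cf * Real.exp (4 * (d : ℝ) * k ^ (-(e / 16)) * (j * h)) ≤ Cf * 3 :=
          mul_le_mul_of_nonneg_left h6 (by linarith)
      _ = 3 * Cf := mul_comm _ _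
  have hkh : 0 ≤ k * h := by positivity
  have hcplE : ∀ j, j < m → ∫⁻ ω, ENNReal.ofReal
      (k * h * cpl (boxNet d L) (nrm (traj (M.st β k h L) G ω j)) z) ∂(PI (M.mu d L)) ≤
      ENNReal.ofReal (h * (12 * Cf * d * (k ^ (-(3 * e / 8)) * ‖G z‖))) := by
    intro j hj
    have h3 : ∀ ω : ℕ → boxS d L → H, ENNReal.ofReal
        (k * h * cpl (boxNet d L) (nrm (traj (M.st β k h L) G ω j)) z) =
        ENNReal.ofReal (k * h) * (∑ y ∈ (boxNet d L).nb z,
          ENNReal.ofReal ‖traj (M.st β k h L) G ω j y‖ +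
          ENNReal.ofReal ((2 * d : ℕ) : ℝ) * ENNReal.ofReal ‖traj (M.st β k h L) G ω j z‖) := by
      intro ω
      rw [ENNReal.ofReal_mul hkh]
      congr 1
      unfold cpl nrm
      rw [ENNReal.ofReal_add (Finset.sum_nonneg fun y _ => norm_nonneg _) (by positivity),
        ENNReal.ofReal_sum_of_nonneg (fun y _ => norm_nonneg _),
        ENNReal.ofReal_mul (Nat.cast_nonneg _)]
    have hmn : ∀ y, Measurable fun ω : ℕ → boxS d L → H =>
        ENNReal.ofReal ‖traj (M.st β k h L) G ω j y‖ := fun y =>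
      ((measurable_pi_apply y).comp (hmeas j)).norm.ennreal_ofReal
    simp only [h3]
    rw [lintegral_const_mul _ (by
      refine Measurable.add (Finset.measurable_sum _ fun y _ => hmn y) ((hmn z).const_mul _)),
      lintegral_add_right _ ((hmn z).const_mul _), lintegral_finsetSum _ (fun y _ => hmn y),
      lintegral_const_mul _ (hmn z)]
    have h4 : ∑ y ∈ (boxNet d L).nb z, ∫⁻ ω, ENNReal.ofReal ‖traj (M.st β k h L) G ω j y‖
        ∂(PI (M.mu d L)) + ENNReal.ofReal ((2 * d : ℕ) : ℝ) *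
        ∫⁻ ω, ENNReal.ofReal ‖traj (M.st β k h L) G ω j z‖ ∂(PI (M.mu d L)) ≤
        ENNReal.ofReal (3 * Cf * cpl (boxNet d L)
          (fun w => prof k a (1 + e / 16) x w * ‖G z‖) z) := by
      have h5 : 3 * Cf * cpl (boxNet d L) (fun w => prof k a (1 + e / 16) x w * ‖G z‖) z =
          ∑ y ∈ (boxNet d L).nb z, 3 * Cf * (prof k a (1 + e / 16) x y * ‖G z‖) +
          ((2 * d : ℕ) : ℝ) * (3 * Cf * (prof k a (1 + e / 16) x z * ‖G z‖)) := by
        unfold cpl
        rw [← Finset.mul_sum]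
        ring
      have h6 : ∀ w, 0 ≤ 3 * Cf * (prof k a (1 + e / 16) x w * ‖G z‖) := fun w =>
        mul_nonneg (by linarith) (mul_pos (hprof0 w) hu).le
      rw [h5, ENNReal.ofReal_add (Finset.sum_nonneg fun y _ => h6 y)
        (mul_nonneg (Nat.cast_nonneg _) (h6 z)), ENNReal.ofReal_sum_of_nonneg (fun y _ => h6 y),
        ENNReal.ofReal_mul (Nat.cast_nonneg _)]
      gcongr with y _
      · exact hE j hj y
      · exact hE j hj z
    refine (mul_le_mul_right h4 _).trans ?_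
    rw [← ENNReal.ofReal_mul hkh]
    refine ENNReal.ofReal_le_ofReal ?_
    have h5 := hr z
    have h6 : prof k a (1 + e / 16) x z ≤ k ^ (-(5 * e / 16)) := ha
    have h7 : k ^ (-(e / 16)) * k ^ (-(5 * e / 16)) = k ^ (-(3 * e / 8)) := by
      rw [← Real.rpow_add hk]
      congr 1
      ring
    have h8 : 0 < k ^ (-(e / 16)) := Real.rpow_pos_of_pos hk _
    calc k * h * (3 * Cf * cpl (boxNet d L) (fun w => prof k a (1 + e / 16) x w * ‖G z‖) z)
        = 3 * Cf * h * (k * cpl (boxNet d L) (fun w => prof k a (1 + e / 16) x w * ‖G z‖) z) := by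
          ring
      _ ≤ 3 * Cf * h * ((4 * d * k ^ (-(e / 16))) * (prof k a (1 + e / 16) x z * ‖G z‖)) :=
          mul_le_mul_of_nonneg_left h5 (by positivity)
      _ ≤ 3 * Cf * h * ((4 * d * k ^ (-(e / 16))) * (k ^ (-(5 * e / 16)) * ‖G z‖)) := by
          refine mul_le_mul_of_nonneg_left ?_ (by positivity)
          refine mul_le_mul_of_nonneg_left ?_ (by positivity)
          exact mul_le_mul_of_nonneg_right h6 hu.le
      _ = h * (12 * Cf * d * ((k ^ (-(e / 16)) * k ^ (-(5 * e / 16))) * ‖G z‖)) := by ring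
      _ = h * (12 * Cf * d * (k ^ (-(3 * e / 8)) * ‖G z‖)) := by rw [h7]
  have hB3 : PI (M.mu d L) {ω | ¬ ∑ j ∈ Finset.range m,
      k * h * cpl (boxNet d L) (nrm (traj (M.st β k h L) G ω j)) z ≤ k ^ (e / 8) * ‖G z‖} ≤
      ENNReal.ofReal (48 * Cf * d * k ^ (e / 2)) := by
    have hδu : 0 < k ^ (e / 8) * ‖G z‖ := mul_pos hδ hu
    have hmf : ∀ j, Measurable fun ω : ℕ → boxS d L → H => ENNReal.ofReal
        (k * h * cpl (boxNet d L) (nrm (traj (M.st β k h L) G ω j)) z) := fun j =>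
      (((Hop0_meas_cpl z).comp (hmeas j)).const_mul _).ennreal_ofReal
    have hnn : ∀ (ω : ℕ → boxS d L → H) (j : ℕ),
        0 ≤ k * h * cpl (boxNet d L) (nrm (traj (M.st β k h L) G ω j)) z := fun ω j =>
      mul_nonneg hkh (Hop0_cpl_nn _ _ (fun y => norm_nonneg _) z)
    have h3 : ∫⁻ ω, ENNReal.ofReal (∑ j ∈ Finset.range m,
        k * h * cpl (boxNet d L) (nrm (traj (M.st β k h L) G ω j)) z) ∂(PI (M.mu d L)) ≤
        ENNReal.ofReal (48 * Cf * d * k ^ (e / 2) * (k ^ (e / 8) * ‖G z‖)) := by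
      have h4 : ∀ ω : ℕ → boxS d L → H, ENNReal.ofReal (∑ j ∈ Finset.range m,
          k * h * cpl (boxNet d L) (nrm (traj (M.st β k h L) G ω j)) z) =
          ∑ j ∈ Finset.range m, ENNReal.ofReal
            (k * h * cpl (boxNet d L) (nrm (traj (M.st β k h L) G ω j)) z) := fun ω =>
        ENNReal.ofReal_sum_of_nonneg fun j _ => hnn ω j
      simp only [h4]
      rw [lintegral_finsetSum _ (fun j _ => hmf j)]
      refine (Finset.sum_le_sum fun j hj => hcplE j (Finset.mem_range.mp hj)).trans ?_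
      rw [Finset.sum_const, Finset.card_range, nsmul_eq_mul, ← ENNReal.ofReal_natCast,
        ← ENNReal.ofReal_mul (Nat.cast_nonneg m)]
      refine ENNReal.ofReal_le_ofReal ?_
      have h5 : k ^ e * k ^ (-(3 * e / 8)) = k ^ (e / 2) * k ^ (e / 8) := by
        rw [← Real.rpow_add hk, ← Real.rpow_add hk]
        congr 1
        ring
      have h6 : 0 ≤ 12 * Cf * d * (k ^ (-(3 * e / 8)) * ‖G z‖) := by positivity
      calc (m : ℝ) * (h * (12 * Cf * d * (k ^ (-(3 * e / 8)) * ‖G z‖)))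
          = (m * h) * (12 * Cf * d * (k ^ (-(3 * e / 8)) * ‖G z‖)) := by ring
        _ ≤ (4 * k ^ e) * (12 * Cf * d * (k ^ (-(3 * e / 8)) * ‖G z‖)) :=
            mul_le_mul_of_nonneg_right hmh h6
        _ = 48 * Cf * d * (k ^ e * k ^ (-(3 * e / 8))) * ‖G z‖ := by ring
        _ = 48 * Cf * d * k ^ (e / 2) * (k ^ (e / 8) * ‖G z‖) := by rw [h5]; ring
    have h4 : {ω : ℕ → boxS d L → H | ¬ ∑ j ∈ Finset.range m,
        k * h * cpl (boxNet d L) (nrm (traj (M.st β k h L) G ω j)) z ≤ k ^ (e / 8) * ‖G z‖} ⊆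
        {ω | ENNReal.ofReal (k ^ (e / 8) * ‖G z‖) ≤ ENNReal.ofReal (∑ j ∈ Finset.range m,
          k * h * cpl (boxNet d L) (nrm (traj (M.st β k h L) G ω j)) z)} := by
      intro ω hω
      exact ENNReal.ofReal_le_ofReal (not_le.mp hω).le
    refine (measure_mono h4).trans ?_
    have hmS : AEMeasurable (fun ω : ℕ → boxS d L → H => ENNReal.ofReal (∑ j ∈ Finset.range m,
        k * h * cpl (boxNet d L) (nrm (traj (M.st β k h L) G ω j)) z)) (PI (M.mu d L)) := by
      refine (Measurable.ennreal_ofReal ?_).aemeasurable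
      exact Finset.measurable_sum _ fun j _ => ((Hop0_meas_cpl z).comp (hmeas j)).const_mul _
    refine (meas_ge_le_lintegral_div hmS (ENNReal.ofReal_pos.mpr hδu).ne'
      ENNReal.ofReal_ne_top).trans ?_
    refine (ENNReal.div_le_div_right h3 _).trans ?_
    rw [← ENNReal.ofReal_div_of_pos hδu, mul_div_cancel_right₀ _ hδu.ne']
  -- conclusion
  have hsub : (RegS M β k h L G z m (k ^ (e / 8)))ᶜ ⊆
      {ω | ¬ ∀ j, j < m → ω j z ∈ M.gd h} ∪
      ({ω | ¬ PNear (fun j => M.A h (ω j z)) m (k ^ (e / 8))} ∪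
      {ω | ¬ ∑ j ∈ Finset.range m,
        k * h * cpl (boxNet d L) (nrm (traj (M.st β k h L) G ω j)) z ≤ k ^ (e / 8) * ‖G z‖}) := by
    intro ω hω
    by_contra hcon
    simp only [Set.mem_union, not_or] at hcon
    obtain ⟨g1, g2, g3⟩ := hcon
    exact hω ⟨not_not.mp g1, not_not.mp g2, not_not.mp g3⟩
  calc PI (M.mu d L) (RegS M β k h L G z m (k ^ (e / 8)))ᶜ
      ≤ PI (M.mu d L) ({ω | ¬ ∀ j, j < m → ω j z ∈ M.gd h} ∪
      ({ω | ¬ PNear (fun j => M.A h (ω j z)) m (k ^ (e / 8))} ∪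
      {ω | ¬ ∑ j ∈ Finset.range m,
        k * h * cpl (boxNet d L) (nrm (traj (M.st β k h L) G ω j)) z ≤ k ^ (e / 8) * ‖G z‖})) :=
        measure_mono hsub
    _ ≤ ENNReal.ofReal (4 * k ^ (e / 2)) + (ENNReal.ofReal (4 * Cp * k ^ (e / 2)) +
        ENNReal.ofReal (48 * Cf * d * k ^ (e / 2))) :=
        (measure_union_le _ _).trans (add_le_add hB1 ((measure_union_le _ _).trans
          (add_le_add hB2 hB3)))
    _ = ENNReal.ofReal ((4 + 4 * Cp + 48 * Cf * d) * k ^ (e / 2)) := by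
        rw [← ENNReal.ofReal_add (by positivity) (by positivity),
          ← ENNReal.ofReal_add (by positivity) (by positivity)]
        congr 1
        ring

end

end DynC

end
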