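import Pool.Agent.Lib_MP_36b788_m.M16

/-!
# MP_36b788_pr, stationary limit: merged library part M17

Concatenation of smaller files (each in its own section), only to save build time.
-/

/-! ### from `Lib_MP_36b788c.Hop` -/

section

/-!
# One hop: mass is transported to a neighbour in a short time

`hop`: `x ∈ nb z`, `u = ‖G z‖`, `‖G v‖ ≤ k^{1 - e/4 - (1+e/16) dist v x} u` for all `v`, `u ≤ k^{-e/(4β)}`. After `m = 2 n1` steps, `n1 = ⌈k^e/h⌉`, `P(‖G_m x‖ < k^{1+2e} u) ≤ k^{e/100}`.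

PROOF. `u > 0` (otherwise the event is empty). `δ = k^{e/8}`, `U = prof k (1-e/4) (1+e/16) x · u`, `r = 4d k^{-e/16}`, `W = prof k 0 (-(1+15e/16)) z`, `r' = 4d k^{-15e/16}`; `(r+r') m h ≤ 1` for small `k`. `√(n1 h) ∈ [k^{e/2}, 2k^{e/2}]`.
Regular set `Reg` (path `ω`): `RegS` at `z`, `RegS'` at `x`: `ω_j x ∈ gd`, `PNear (A h (ω_j x)) m δ`, `Σ_{j<m} k h cpl ‖G_j‖ x ≤ k^{1/2} u` (probability of failure `≤ 3h² + C k^{3e/4} + C k^{1/8}`: `E Σ ≤ C k^{e-e/16} U x`, `U x = k^{1-e/4} u`). On `Reg`: `‖G_j x‖ ≤ 2(‖G x‖ + k^{1/2} u) ≤ 4 k^{1/2} u ≤ 1/4`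
(forward Duhamel with `‖J v‖ ≤ ‖v‖`... use `‖G_{j+1} x‖ ≤ ‖A_j G_j x‖ + ‖s_j‖`, i.e. compare with the products: `J v = t v` with `t ∈ [0,1]`, so `G_j x = t pr A 0 j (G x) + Σ t_i pr A (i+1) j s_i`, all `t ∈ [0,1]`).
Apply `sbs` with `v = shz M z n1`, `F ω = traj … G ω m x`, `η = k^{e/16}`, `ρ = (1/8C) k (n1 h)^{3/2} k^{e/16} u ≥ k^{1+2e} u`. Let `φ' - φ ≥ η`, both shifted paths in `Reg`, `D_j = trs φ' ω j - trs φ ω j`. Outside an event of probability `≤ C k^{1/4}` (Markov with `fm2`):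
 (1) `Σ_{j<m} k h cpl D_j z ≤ k^{1/4} √(n1 h) u` (`E ≤ 3 k^{1+e}·C √(n1 h) U z·(2d W(nb) + 2d W z)`, `U z = k^{-5e/16} u`);
 (2) `Σ_{j<m} k h (Σ_{y ∈ nb x, y ≠ z} ‖D_j y‖ + 2d ‖D_j x‖) ≤ k^{3/2} √(n1 h) u`: for `y ≠ z` in `nb x`, `dist y z = 2` (parity of the `ℓ¹` distance), `W y ≤ k^2`, `W x ≤ k`.
By `site_shift` (`ς0` tiny, e.g. `ς0 = k^2`): `‖D_j z - (θ_j - 1) G z‖ ≤ (50 δ √(n1 h)(φ'-φ) + k² + 20 k^{1/4} √(n1 h)) u ≤ 60 δ √(n1 h)(φ'-φ) u`. `site_far` at `x`: `D_{j+1} x = A_j D_j x + e_j + a_j` (same noise at `x ≠ z`), `a_j = k h (Σ_{y ∈ nb x} D_j y - 2d D_j x)`, `‖e_j‖ ≤ h(1+β)‖A_j D_j x‖` (`JV_lip`, norms `≤ 1`), `m h (1+β) ≤ δ`.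
So `‖D_m x - Σ_j a_j‖ ≤ 6δ Σ‖a_j‖`; `Σ_j k h D_j z = k h Σ_j (θ_j - 1) G z + …`, `Σ_{j<m} (θ_j - 1) ≥ n1 · n1 √h (φ'-φ)/(C √n1)` (terms `j ≥ n1`, Bernoulli) so `‖Σ_j k h (θ_j-1) G z‖ ≥ k (n1 h)^{3/2} (φ'-φ) u/C`, and all errors are `≤ C' (δ + k^{1/4}) k (n1 h)^{3/2} (φ'-φ) u`. Hence `‖D_m x‖ ≥ (1/2C) k (n1 h)^{3/2} (φ'-φ) u > 2ρ`: `p2 ≤ C k^{1/4}`.
`P(‖G_m x‖ < k^{1+2e} u) ≤ 2(2 k^{e/16} + C k^{1/4})^{1/4} + P(Reg^c) ≤ k^{e/100}` for small `k`.
-/

open MeasureTheory ProbabilityTheory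
open scoped ENNReal

namespace DynC

open Dyn

section

variable {V : Type} [NormedAddCommGroup V] [InnerProductSpace ℝ V]

/-- forward expansion of a path with damping factors -/
private theorem Hop_exp {β h : ℝ} (hβ : 0 < β) (hh : 0 ≤ h) (m : ℕ) (A : ℕ → V →ₗ[ℝ] V)
    (s G : ℕ → V) (hG : ∀ j, j < m → G (j + 1) = JV β h (A j (G j)) + s j) (j : ℕ) (hj : j ≤ m) :
    ∃ (t0 : ℝ) (t : ℕ → ℝ), 0 ≤ t0 ∧ t0 ≤ 1 ∧ (∀ i, 0 ≤ t i ∧ t i ≤ 1) ∧
      G j = t0 • pr A 0 j (G 0) + ∑ i ∈ Finset.range j, t i • pr A (i + 1) j (s i) := by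
  induction j with
  | zero =>
    refine ⟨1, fun _ => 1, zero_le_one, le_rfl, fun _ => ⟨zero_le_one, le_rfl⟩, ?_⟩
    rw [pr_self]; simp
  | succ j ih =>
    obtain ⟨t0, t, h0, h1, ht, he⟩ := ih (by omega)
    have hJ : ∃ τ : ℝ, 0 ≤ τ ∧ τ ≤ 1 ∧ JV β h (A j (G j)) = τ • (A j (G j)) := by
      refine ⟨psi β h ‖A j (G j)‖ / ‖A j (G j)‖, div_nonneg (psi_nonneg _ _ _) (norm_nonneg _),
        ?_, rfl⟩
      exact div_le_one_of_le₀ (psi_le hβ hh (norm_nonneg _)) (norm_nonneg _)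
    obtain ⟨τ, hτ0, hτ1, hτ⟩ := hJ
    refine ⟨τ * t0, fun i => if i < j then τ * t i else 1, mul_nonneg hτ0 h0,
      mul_le_one₀ hτ1 h0 h1, ?_, ?_⟩
    · intro i
      by_cases hi : i < j
      · simp only [hi, if_true]
        exact ⟨mul_nonneg hτ0 (ht i).1, mul_le_one₀ hτ1 (ht i).1 (ht i).2⟩
      · simp only [hi, if_false]
        exact ⟨zero_le_one, le_rfl⟩
    · rw [hG j (by omega), hτ, Finset.sum_range_succ]
      have e1 : ∑ i ∈ Finset.range j, (if i < j then τ * t i else 1) • pr A (i + 1) (j + 1) (s i) =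
          τ • A j (∑ i ∈ Finset.range j, t i • pr A (i + 1) j (s i)) := by
        rw [map_sum, Finset.smul_sum]
        refine Finset.sum_congr rfl fun i hi => ?_
        have hi' := Finset.mem_range.1 hi
        rw [if_pos hi', pr_succ A (by omega : i + 1 ≤ j), map_smul, smul_smul]
      have e2 : (fun i => if i < j then τ * t i else 1) j = (1 : ℝ) := by simp
      rw [e1, e2, one_smul, pr_self, pr_succ A (Nat.zero_le j)]
      conv_lhs => rw [he]
      rw [map_add, smul_add, map_smul, smul_smul, add_assoc]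

private theorem Hop_norm {β h : ℝ} (hβ : 0 < β) (hh : 0 ≤ h) (m : ℕ) (A : ℕ → V →ₗ[ℝ] V)
    (s G : ℕ → V) (hG : ∀ j, j < m → G (j + 1) = JV β h (A j (G j)) + s j) (δ : ℝ)
    (hδ1 : δ ≤ 1) (hA : PNear A m δ) (j : ℕ) (hj : j ≤ m) :
    ‖G j‖ ≤ 2 * (‖G 0‖ + ∑ i ∈ Finset.range m, ‖s i‖) := by
  obtain ⟨t0, t, h0, h1, ht, he⟩ := Hop_exp hβ hh m A s G hG j hj
  have hpr : ∀ i, i ≤ j → ∀ w, ‖pr A i j w‖ ≤ 2 * ‖w‖ := by
    intro i hi w
    have h2 := hA i j hi hj w
    have h3 : ‖pr A i j w‖ ≤ ‖pr A i j w - w‖ + ‖w‖ := by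
      have := norm_add_le (pr A i j w - w) w
      simpa using this
    nlinarith [norm_nonneg w]
  rw [he]
  refine (norm_add_le _ _).trans ?_
  have e1 : ‖t0 • pr A 0 j (G 0)‖ ≤ 2 * ‖G 0‖ := by
    rw [norm_smul, Real.norm_eq_abs, abs_of_nonneg h0]
    have := hpr 0 (Nat.zero_le _) (G 0)
    nlinarith [norm_nonneg (pr A 0 j (G 0))]
  have e2 : ‖∑ i ∈ Finset.range j, t i • pr A (i + 1) j (s i)‖ ≤
      2 * ∑ i ∈ Finset.range m, ‖s i‖ := by
    refine (norm_sum_le _ _).trans ?_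
    rw [Finset.mul_sum]
    refine (Finset.sum_le_sum (g := fun i => 2 * ‖s i‖) fun i hi => ?_).trans
      (Finset.sum_le_sum_of_subset_of_nonneg (Finset.range_mono hj) fun i _ _ => by positivity)
    have hi' := Finset.mem_range.1 hi
    rw [norm_smul, Real.norm_eq_abs, abs_of_nonneg (ht i).1]
    have := hpr (i + 1) (by omega) (s i)
    nlinarith [norm_nonneg (pr A (i + 1) j (s i)), (ht i).2, (ht i).1]
  linarith

private theorem Hop_far {β h : ℝ} (hβ : 0 < β) (hh : 0 < h) (m : ℕ) (A : ℕ → V →ₗ[ℝ] V)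
    (s s' G G' : ℕ → V)
    (hG : ∀ j, j < m → G (j + 1) = JV β h (A j (G j)) + s j)
    (hG' : ∀ j, j < m → G' (j + 1) = JV β h (A j (G' j)) + s' j) (h0 : G' 0 = G 0)
    (δ : ℝ) (hδ : 0 < δ) (hδ1 : δ ≤ 1 / 16) (hA : PNear A m δ)
    (hs : 2 * (‖G 0‖ + ∑ j ∈ Finset.range m, ‖s j‖) ≤ 1 / 2)
    (hs' : 2 * (‖G 0‖ + ∑ j ∈ Finset.range m, ‖s' j‖) ≤ 1 / 2)
    (ht : m * h * (1 + β) ≤ δ) :
    ‖G' m - G m - ∑ j ∈ Finset.range m, (s' j - s j)‖ ≤
      6 * δ * ∑ j ∈ Finset.range m, ‖s' j - s j‖ := by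
  have hAj : ∀ j, j < m → ∀ w, ‖A j w‖ ≤ 2 * ‖w‖ := by
    intro j hj w
    have h2 := hA j (j + 1) (by omega) (by omega) w
    rw [pr_succ A le_rfl, pr_self] at h2
    have h3 : ‖A j w‖ ≤ ‖A j w - w‖ + ‖w‖ := by
      have := norm_add_le (A j w - w) w
      simpa using this
    nlinarith [norm_nonneg w]
  have hone : ∀ (K s1 : ℕ → V), (∀ j, j < m → K (j + 1) = JV β h (A j (K j)) + s1 j) →
      2 * (‖K 0‖ + ∑ j ∈ Finset.range m, ‖s1 j‖) ≤ 1 / 2 → ∀ j, j < m → ‖A j (K j)‖ ≤ 1 := by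
    intro K s1 hK hK1 j hj
    have h1 := Hop_norm hβ hh.le m A s1 K hK δ (by linarith) hA j hj.le
    have h2 := hAj j hj (K j)
    linarith
  have hg1 := hone G s hG hs
  have hg2 := hone G' s' hG' (by rw [h0]; exact hs')
  refine site_far hh (by linarith : (0 : ℝ) ≤ 1 + β) m A (fun j => s' j - s j)
    (fun j => (JV β h (A j (G' j)) - JV β h (A j (G j))) - (A j (G' j) - A j (G j)))
    (fun j => G' j - G j) ?_ ?_ ?_ δ hδ hδ1 hA ht
  · intro j hj
    rw [hG j hj, hG' j hj, map_sub]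
    abel
  · rw [h0, sub_self]
  · intro j hj
    refine (JV_lip hβ hh.le _ _).trans ?_
    rw [map_sub]
    have h3 : (max ‖A j (G' j)‖ ‖A j (G j)‖) ^ β ≤ 1 :=
      Real.rpow_le_one (le_max_of_le_left (norm_nonneg _)) (max_le (hg2 j hj) (hg1 j hj)) hβ.le
    have h4 : 0 ≤ h * (1 + β) := by positivity
    have h5 : h * (1 + β) * (max ‖A j (G' j)‖ ‖A j (G j)‖) ^ β ≤ h * (1 + β) := by
      nlinarith
    exact mul_le_mul_of_nonneg_right h5 (norm_nonneg _)

private theorem Hop_low (m n1 : ℕ) (hm : m = 2 * n1) (κ : ℝ) (hκ : 0 ≤ κ) (θ : ℕ → ℝ) (g : V)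
    (Dz b : ℕ → V) (lo up Err Bs : ℝ) (hθ1 : ∀ j, 0 ≤ θ j - 1)
    (hθlo : ∀ j, n1 ≤ j → lo ≤ θ j - 1) (hθup : ∀ j, θ j - 1 ≤ up)
    (hD : ∀ j, j < m → ‖Dz j - (θ j - 1) • g‖ ≤ Err)
    (hb : ∑ j ∈ Finset.range m, ‖b j‖ ≤ Bs) :
    κ * n1 * lo * ‖g‖ - κ * m * Err - Bs ≤ ‖∑ j ∈ Finset.range m, (κ • Dz j + b j)‖ ∧
    ∑ j ∈ Finset.range m, ‖κ • Dz j + b j‖ ≤ κ * m * (up * ‖g‖ + Err) + Bs := by
  constructor
  · have e1 : ∑ j ∈ Finset.range m, (κ • Dz j + b j) =
        (κ * ∑ j ∈ Finset.range m, (θ j - 1)) • g +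
          (∑ j ∈ Finset.range m, κ • (Dz j - (θ j - 1) • g)) + ∑ j ∈ Finset.range m, b j := by
      rw [Finset.mul_sum, Finset.sum_smul, ← Finset.sum_add_distrib, ← Finset.sum_add_distrib]
      refine Finset.sum_congr rfl fun j _ => ?_
      rw [smul_sub, smul_smul]
      abel
    have e2 : ‖∑ j ∈ Finset.range m, κ • (Dz j - (θ j - 1) • g)‖ ≤ κ * m * Err := by
      refine (norm_sum_le _ _).trans ?_
      calc ∑ j ∈ Finset.range m, ‖κ • (Dz j - (θ j - 1) • g)‖
          ≤ ∑ _j ∈ Finset.range m, κ * Err := by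
            refine Finset.sum_le_sum fun j hj => ?_
            rw [norm_smul, Real.norm_eq_abs, abs_of_nonneg hκ]
            exact mul_le_mul_of_nonneg_left (hD j (Finset.mem_range.1 hj)) hκ
        _ = κ * m * Err := by
            rw [Finset.sum_const, Finset.card_range, nsmul_eq_mul]; ring
    have e3 : (n1 : ℝ) * lo ≤ ∑ j ∈ Finset.range m, (θ j - 1) := by
      rw [hm, two_mul, Finset.sum_range_add]
      have h1 : 0 ≤ ∑ j ∈ Finset.range n1, (θ j - 1) := Finset.sum_nonneg fun j _ => hθ1 j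
      have h2 : (n1 : ℝ) * lo ≤ ∑ j ∈ Finset.range n1, (θ (n1 + j) - 1) := by
        calc (n1 : ℝ) * lo = ∑ _j ∈ Finset.range n1, lo := by
              rw [Finset.sum_const, Finset.card_range, nsmul_eq_mul]
          _ ≤ _ := Finset.sum_le_sum fun j _ => hθlo _ (by omega)
      linarith
    have e4 : κ * n1 * lo * ‖g‖ ≤ ‖(κ * ∑ j ∈ Finset.range m, (θ j - 1)) • g‖ := by
      rw [norm_smul, Real.norm_eq_abs]
      refine mul_le_mul_of_nonneg_right ?_ (norm_nonneg _)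
      refine le_trans ?_ (le_abs_self _)
      rw [mul_assoc]
      exact mul_le_mul_of_nonneg_left e3 hκ
    have e5 : ‖∑ j ∈ Finset.range m, b j‖ ≤ Bs := (norm_sum_le _ _).trans hb
    rw [e1]
    set X := (κ * ∑ j ∈ Finset.range m, (θ j - 1)) • g
    set Y := ∑ j ∈ Finset.range m, κ • (Dz j - (θ j - 1) • g)
    set Z := ∑ j ∈ Finset.range m, b j
    have e6 : ‖X‖ ≤ ‖X + Y + Z‖ + ‖Y‖ + ‖Z‖ := by
      have h1 : X = (X + Y + Z) - Y - Z := by abel
      calc ‖X‖ = ‖(X + Y + Z) - Y - Z‖ := by rw [← h1]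
        _ ≤ ‖(X + Y + Z) - Y‖ + ‖Z‖ := norm_sub_le _ _
        _ ≤ ‖X + Y + Z‖ + ‖Y‖ + ‖Z‖ := by
            have := norm_sub_le (X + Y + Z) Y
            linarith
    linarith
  · calc ∑ j ∈ Finset.range m, ‖κ • Dz j + b j‖
        ≤ ∑ j ∈ Finset.range m, (κ * (up * ‖g‖ + Err) + ‖b j‖) := by
          refine Finset.sum_le_sum fun j hj => ?_
          refine (norm_add_le _ _).trans ?_
          refine add_le_add ?_ le_rfl
          rw [norm_smul, Real.norm_eq_abs, abs_of_nonneg hκ]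
          refine mul_le_mul_of_nonneg_left ?_ hκ
          have h1 : ‖Dz j‖ ≤ ‖(θ j - 1) • g‖ + ‖Dz j - (θ j - 1) • g‖ := by
            have := norm_add_le ((θ j - 1) • g) (Dz j - (θ j - 1) • g)
            simpa using this
          have h2 : ‖(θ j - 1) • g‖ ≤ up * ‖g‖ := by
            rw [norm_smul, Real.norm_eq_abs, abs_of_nonneg (hθ1 j)]
            exact mul_le_mul_of_nonneg_right (hθup j) (norm_nonneg _)
          have h3 := hD j (Finset.mem_range.1 hj)
          linarith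
      _ = κ * m * (up * ‖g‖ + Err) + ∑ j ∈ Finset.range m, ‖b j‖ := by
          rw [Finset.sum_add_distrib, Finset.sum_const, Finset.card_range, nsmul_eq_mul]; ring
      _ ≤ _ := by linarith

private theorem Hop_num {s q R w u C0 nh f1 Bs Err D Sa Sn : ℝ} (hs : 0 < s) (hC0 : 1 ≤ C0)
    (hsC : 600 * C0 * s ≤ 1) (hq : 0 < q) (hqs : q ≤ s ^ 64) (hR : 0 < R) (hR2 : R ^ 2 = nh)
    (hnh : s ^ 16 ≤ nh) (hw : s ≤ w) (hu : 0 < u)
    (hf1 : f1 ≤ q * R * w * u) (hBs : Bs ≤ q ^ 6 * R * w * u)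
    (hErr : Err = (50 * s ^ 2 * R * w + s ^ 11) * u + 20 * f1)
    (hSn : q ^ 4 * nh * (R * w / C0) * u - 2 * q ^ 4 * nh * Err - Bs ≤ Sn)
    (hSa : Sa ≤ 2 * q ^ 4 * nh * (2 * R * w * u + Err) + Bs)
    (hD : Sn - 6 * s ^ 2 * Sa ≤ D) : 2 * (q ^ 4 * s ^ 32 * u) < D := by
  have hw0 : 0 < w := hs.trans_le hw
  have hs1 : 600 * s ≤ 1 := by nlinarith
  have hsle : s ≤ 1 := by linarith
  obtain ⟨i, hi⟩ : ∃ i, i = 1 / C0 := ⟨_, rfl⟩
  have hi0 : 0 < i := by rw [hi]; positivity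
  have hiC : i * C0 = 1 := by rw [hi]; field_simp
  have hi1 : i ≤ 1 := by nlinarith
  have hsi : 600 * s ≤ i := by
    have : i * (600 * C0 * s) ≤ i * 1 := mul_le_mul_of_nonneg_left hsC hi0.le
    nlinarith
  have hR8 : s ^ 8 ≤ R := by
    have h1 : (s ^ 8) ^ 2 ≤ R ^ 2 := by rw [hR2]; calc (s ^ 8) ^ 2 = s ^ 16 := by ring
      _ ≤ nh := hnh
    exact (pow_le_pow_iff_left₀ (by positivity) hR.le (by norm_num)).1 h1
  have hRw : s ^ 9 ≤ R * w := by
    calc s ^ 9 = s ^ 8 * s := by ring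
      _ ≤ R * w := mul_le_mul hR8 hw hs.le hR.le
  obtain ⟨X, hX⟩ : ∃ X, X = R * w * u := ⟨_, rfl⟩
  have hX0 : 0 < X := by rw [hX]; positivity
  have hXs : s ^ 9 * u ≤ X := by rw [hX]; exact mul_le_mul_of_nonneg_right hRw hu.le
  have hnh0 : 0 < nh := by rw [← hR2]; positivity
  obtain ⟨Q, hQ⟩ : ∃ Q, Q = q ^ 4 * nh * X := ⟨_, rfl⟩
  have hQ0 : 0 < Q := by rw [hQ]; positivity
  have hs2 : 0 < s ^ 2 := by positivity
  have hs2i : s ^ 2 ≤ i / 600 := by nlinarith
  have hs62 : s ^ 62 ≤ s := by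
    calc s ^ 62 ≤ s ^ 1 := pow_le_pow_of_le_one hs.le hsle (by norm_num)
      _ = s := pow_one s
  have h20q : 20 * q ≤ s ^ 2 := by
    calc 20 * q ≤ 20 * s ^ 64 := by linarith
      _ = s ^ 2 * (20 * s ^ 62) := by ring
      _ ≤ s ^ 2 * 1 := mul_le_mul_of_nonneg_left (by linarith) hs2.le
      _ = s ^ 2 := mul_one _
  have hErr2 : Err ≤ 52 * s ^ 2 * X := by
    have h1 : f1 ≤ q * X := by rw [hX]; linarith
    have h2 : 20 * q * X ≤ s ^ 2 * X := mul_le_mul_of_nonneg_right h20q hX0.le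
    have h3 : s ^ 11 * u ≤ s ^ 2 * X := by
      calc s ^ 11 * u = s ^ 2 * (s ^ 9 * u) := by ring
        _ ≤ s ^ 2 * X := mul_le_mul_of_nonneg_left hXs hs2.le
    have h4 : 50 * s ^ 2 * R * w * u = 50 * s ^ 2 * X := by rw [hX]; ring
    rw [hErr, add_mul, h4]
    linarith
  have hq2 : q ^ 2 ≤ s ^ 2 * nh := by
    calc q ^ 2 ≤ (s ^ 64) ^ 2 := pow_le_pow_left₀ hq.le hqs 2
      _ = s ^ 18 * s ^ 110 := by ring
      _ ≤ s ^ 18 * 1 := mul_le_mul_of_nonneg_left (pow_le_one₀ hs.le hsle) (by positivity)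
      _ = s ^ 2 * s ^ 16 := by ring
      _ ≤ s ^ 2 * nh := mul_le_mul_of_nonneg_left hnh hs2.le
  have hBs2 : Bs ≤ s ^ 2 * Q := by
    calc Bs ≤ q ^ 6 * R * w * u := hBs
      _ = (q ^ 4 * X) * q ^ 2 := by rw [hX]; ring
      _ ≤ (q ^ 4 * X) * (s ^ 2 * nh) := mul_le_mul_of_nonneg_left hq2 (by positivity)
      _ = s ^ 2 * Q := by rw [hQ]; ring
  have hqE : 2 * q ^ 4 * nh * Err ≤ 104 * s ^ 2 * Q := by
    calc 2 * q ^ 4 * nh * Err ≤ 2 * q ^ 4 * nh * (52 * s ^ 2 * X) :=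
          mul_le_mul_of_nonneg_left hErr2 (by positivity)
      _ = 104 * s ^ 2 * Q := by rw [hQ]; ring
  have hSn2 : i * Q - 105 * s ^ 2 * Q ≤ Sn := by
    have h1 : q ^ 4 * nh * (R * w / C0) * u = i * Q := by rw [hQ, hX, hi]; ring
    rw [h1] at hSn
    linarith
  have hSa2 : Sa ≤ 5 * Q := by
    have h1 : 2 * q ^ 4 * nh * (2 * R * w * u + Err) = 4 * Q + 2 * q ^ 4 * nh * Err := by
      rw [hQ, hX]; ring
    rw [h1] at hSa
    have h2 : 105 * s ^ 2 ≤ 1 := by linarith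
    have h3 : 105 * s ^ 2 * Q ≤ 1 * Q := mul_le_mul_of_nonneg_right h2 hQ0.le
    linarith
  have hD2 : i * Q - 135 * s ^ 2 * Q ≤ D := by
    have h1 : 6 * s ^ 2 * Sa ≤ 6 * s ^ 2 * (5 * Q) := mul_le_mul_of_nonneg_left hSa2 (by positivity)
    have h2 : 6 * s ^ 2 * (5 * Q) = 30 * s ^ 2 * Q := by ring
    linarith
  have hD3 : i / 2 * Q ≤ D := by
    have h1 : 135 * s ^ 2 * Q ≤ i / 2 * Q := mul_le_mul_of_nonneg_right (by linarith) hQ0.le
    linarith
  have hlow : q ^ 4 * s ^ 32 * u ≤ s * Q := by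
    calc q ^ 4 * s ^ 32 * u = (q ^ 4 * s ^ 16) * (s * (s ^ 9 * u)) * s ^ 6 := by ring
      _ ≤ (q ^ 4 * s ^ 16) * (s * (s ^ 9 * u)) * 1 :=
          mul_le_mul_of_nonneg_left (pow_le_one₀ hs.le hsle) (by positivity)
      _ = (q ^ 4 * s ^ 16) * (s * (s ^ 9 * u)) := mul_one _
      _ ≤ (q ^ 4 * nh) * (s * X) := by
          refine mul_le_mul (mul_le_mul_of_nonneg_left hnh (by positivity))
            (mul_le_mul_of_nonneg_left hXs hs.le) (by positivity) (by positivity)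
      _ = s * Q := by rw [hQ]; ring
  have : 2 * (s * Q) < i / 2 * Q := by
    have h1 : 2 * s < i / 2 := by linarith
    have h2 : 2 * s * Q < i / 2 * Q := mul_lt_mul_of_pos_right h1 hQ0
    linarith
  linarith

end

section

variable {V H : Type} [NormedAddCommGroup V] [InnerProductSpace ℝ V] [MeasurableSpace V]
  [BorelSpace V] [SecondCountableTopology V] [FiniteDimensional ℝ V]
  [NormedAddCommGroup H] [InnerProductSpace ℝ H] [MeasurableSpace H] [BorelSpace H]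
  [SecondCountableTopology H]

/-- regular behaviour at the neighbour `x` -/
private def HopR (M : MN V H) {d : ℕ} (β k h : ℝ) (L : ℕ) (G : boxS d L → V) (x : boxS d L)
    (m : ℕ) (δ y : ℝ) : Set (ℕ → boxS d L → H) :=
  {ω | PNear (fun j => M.A h (ω j x)) m δ ∧
    ∑ j ∈ Finset.range m, k * h * cpl (boxNet d L) (nrm (traj (M.st β k h L) G ω j)) x ≤ y}

private theorem Hop_theta {h w C : ℝ} (hh : 0 < h) (hw : 0 ≤ w) (hw1 : w ≤ 1) (hC : 1 ≤ C)
    (n1 : ℕ) (hn1 : 1 ≤ n1) (hR : Real.sqrt (n1 * h) ≤ 1) :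
    (∀ j : ℕ, 0 ≤ (1 + Real.sqrt h * (w / (C * Real.sqrt n1))) ^ (min j n1) - 1) ∧
    (∀ j : ℕ, n1 ≤ j → Real.sqrt (n1 * h) * w / C ≤
      (1 + Real.sqrt h * (w / (C * Real.sqrt n1))) ^ (min j n1) - 1) ∧
    (∀ j : ℕ, (1 + Real.sqrt h * (w / (C * Real.sqrt n1))) ^ (min j n1) - 1 ≤
      2 * Real.sqrt (n1 * h) * w) := by
  have hn0 : (0 : ℝ) < n1 := by exact_mod_cast hn1
  have hC0 : 0 < C := by linarith
  have hsn : 0 < Real.sqrt n1 := Real.sqrt_pos.2 hn0
  obtain ⟨c, hc⟩ : ∃ c, c = Real.sqrt h * (w / (C * Real.sqrt n1)) := ⟨_, rfl⟩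
  have hc0 : 0 ≤ c := by rw [hc]; positivity
  have hnc : (n1 : ℝ) * c = Real.sqrt (n1 * h) * w / C := by
    rw [hc, Real.sqrt_mul hn0.le]
    have h1 : (n1 : ℝ) * (Real.sqrt h * (w / (C * Real.sqrt n1))) =
        (Real.sqrt n1 * Real.sqrt n1) * (Real.sqrt h * (w / (C * Real.sqrt n1))) := by
      rw [Real.mul_self_sqrt hn0.le]
    rw [h1]
    field_simp
  rw [← hc]
  have hb : (1 : ℝ) ≤ 1 + c := by linarith
  refine ⟨fun j => ?_, fun j hj => ?_, fun j => ?_⟩
  · have := one_le_pow₀ (n := min j n1) hb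
    linarith
  · rw [min_eq_right hj, ← hnc]
    have := one_add_mul_le_pow (by linarith : (-2 : ℝ) ≤ c) n1
    linarith
  · have h1 : (1 + c) ^ (min j n1) ≤ (1 + c) ^ n1 := pow_le_pow_right₀ hb (min_le_right _ _)
    have h2 : (1 + c) ^ n1 ≤ Real.exp (n1 * c) := by
      rw [Real.exp_nat_mul]
      exact pow_le_pow_left₀ (by linarith) (by linarith [Real.add_one_le_exp c]) n1
    have hRw : Real.sqrt (n1 * h) * w ≤ 1 := by
      have := mul_le_mul hR hw1 hw zero_le_one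
      linarith
    have h3 : (n1 : ℝ) * c ≤ Real.sqrt (n1 * h) * w := by
      rw [hnc]
      exact div_le_self (by positivity) hC
    have h4 : 0 ≤ (n1 : ℝ) * c := by positivity
    have h5 := Real.abs_exp_sub_one_le (x := (n1 : ℝ) * c) (by rw [abs_of_nonneg h4]; linarith)
    rw [abs_of_nonneg h4] at h5
    have h6 := (abs_le.1 h5).2
    linarith

private theorem Hop_det (M : MN V H) {d : ℕ} {β k h : ℝ} (hβ : 0 < β) (hh : 0 < h) (hk : 0 < k)
    {L : ℕ} (G : boxS d L → V) (z x : boxS d L) (hx : x ∈ (boxNet d L).nb z) (hxz : x ≠ z)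
    (n1 m : ℕ) (hn1 : 1 ≤ n1) (hm : m = 2 * n1) (φ φ' : ℝ) (hφ : φ ≤ φ') (hφ1 : φ' - φ ≤ 1)
    (ω : ℕ → boxS d L → H) (δ y Err Bs : ℝ) (hδ : 0 < δ) (hδ1 : δ ≤ 1 / 16)
    (hy : 2 * (‖G x‖ + y) ≤ 1 / 2)
    (h1 : ω + φ • shz M z n1 ∈ HopR M β k h L G x m δ y)
    (h2 : ω + φ' • shz M z n1 ∈ HopR M β k h L G x m δ y)
    (hD : ∀ j, j < m → ‖trs M β k h L G z n1 φ' ω j z - trs M β k h L G z n1 φ ω j z -
            ((1 + Real.sqrt h * ((φ' - φ) / (M.C * Real.sqrt n1))) ^ (min j n1) - 1) • G z‖ ≤ Err)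
    (hb : ∑ j ∈ Finset.range m, k * h * (∑ v ∈ ((boxNet d L).nb x).erase z,
        dif (trs M β k h L G z n1 φ' ω j) (trs M β k h L G z n1 φ ω j) v +
        (2 * d : ℕ) * dif (trs M β k h L G z n1 φ' ω j) (trs M β k h L G z n1 φ ω j) x) ≤ Bs)
    (hsh : Real.sqrt (n1 * h) ≤ 1) (ht : m * h * (1 + β) ≤ δ) :
    ∃ Sn Sa : ℝ, k * h * n1 * (Real.sqrt (n1 * h) * (φ' - φ) / M.C) * ‖G z‖ -
        k * h * m * Err - Bs ≤ Sn ∧
      Sa ≤ k * h * m * (2 * Real.sqrt (n1 * h) * (φ' - φ) * ‖G z‖ + Err) + Bs ∧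
      Sn - 6 * δ * Sa ≤ ‖trs M β k h L G z n1 φ' ω m x - trs M β k h L G z n1 φ ω m x‖ := by
  obtain ⟨T, hT⟩ : ∃ T, T = trs M β k h L G z n1 φ ω := ⟨_, rfl⟩
  obtain ⟨T', hT'⟩ : ∃ T', T' = trs M β k h L G z n1 φ' ω := ⟨_, rfl⟩
  have hz : z ∈ (boxNet d L).nb x := (boxNet d L).nb_symm _ _ hx
  have hkh : 0 ≤ k * h := by positivity
  -- the noise at x is not shifted
  have hns : ∀ (ψ : ℝ) (j : ℕ), (ω + ψ • shz M z n1) j x = ω j x := by
    intro ψ j
    simp [shz, hxz]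
  have hA : PNear (fun j => M.A h (ω j x)) m δ := by
    have h3 := h1.1
    have e1 : (fun j => M.A h ((ω + φ • shz M z n1) j x)) = fun j => M.A h (ω j x) := by
      funext j
      rw [hns]
    rwa [e1] at h3
  have hstep : ∀ (ψ : ℝ) (j : ℕ), trs M β k h L G z n1 ψ ω (j + 1) x =
      JV β h (M.A h (ω j x) (trs M β k h L G z n1 ψ ω j x)) +
        (k * h) • coupV (boxNet d L) (trs M β k h L G z n1 ψ ω j) x := by
    intro ψ j
    show M.st β k h L (trs M β k h L G z n1 ψ ω j) ((ω + ψ • shz M z n1) j) x = _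
    unfold MN.st
    rw [hns]
  have hcoup : ∀ K : boxS d L → V, ‖(k * h) • coupV (boxNet d L) K x‖ ≤
      k * h * cpl (boxNet d L) (nrm K) x := by
    intro K
    rw [norm_smul, Real.norm_eq_abs, abs_of_nonneg hkh]
    refine mul_le_mul_of_nonneg_left ?_ hkh
    unfold coupV cpl nrm
    refine (norm_sub_le _ _).trans (add_le_add (norm_sum_le _ _) ?_)
    rw [norm_smul, Real.norm_eq_abs, abs_of_nonneg (Nat.cast_nonneg _)]
  have hsum : ∀ ψ : ℝ, ω + ψ • shz M z n1 ∈ HopR M β k h L G x m δ y →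
      2 * (‖G x‖ + ∑ j ∈ Finset.range m,
        ‖(k * h) • coupV (boxNet d L) (trs M β k h L G z n1 ψ ω j) x‖) ≤ 1 / 2 := by
    intro ψ hψ
    have h3 := hψ.2
    have h4 : ∑ j ∈ Finset.range m, ‖(k * h) • coupV (boxNet d L) (trs M β k h L G z n1 ψ ω j) x‖
        ≤ y := (Finset.sum_le_sum fun j _ => hcoup _).trans h3
    linarith
  have hfar := Hop_far hβ hh m (fun j => M.A h (ω j x))
    (fun j => (k * h) • coupV (boxNet d L) (T j) x)
    (fun j => (k * h) • coupV (boxNet d L) (T' j) x)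
    (fun j => T j x) (fun j => T' j x)
    (fun j _ => by rw [hT]; exact hstep φ j) (fun j _ => by rw [hT']; exact hstep φ' j)
    (by rw [hT, hT']; rfl) δ hδ hδ1 hA (by rw [hT]; exact hsum φ h1)
    (by
      have e1 : T 0 x = G x := by rw [hT]; rfl
      simp only [e1]
      rw [hT']; exact hsum φ' h2) ht
  have hthe := Hop_theta hh (sub_nonneg.2 hφ) hφ1 M.C1 n1 hn1 hsh
  obtain ⟨b, hbd⟩ : ∃ b : ℕ → V, b = fun j => (k * h) •
      (∑ v ∈ ((boxNet d L).nb x).erase z, (T' j v - T j v) -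
        ((2 * d : ℕ) : ℝ) • (T' j x - T j x)) := ⟨_, rfl⟩
  have hdec : ∀ j, (k * h) • coupV (boxNet d L) (T' j) x - (k * h) • coupV (boxNet d L) (T j) x =
      (k * h) • (T' j z - T j z) + b j := by
    intro j
    rw [hbd]
    simp only
    rw [← smul_sub, ← smul_add]
    congr 1
    unfold coupV
    rw [← Finset.add_sum_erase _ (fun v => T' j v) hz, ← Finset.add_sum_erase _ (fun v => T j v) hz,
      Finset.sum_sub_distrib, smul_sub]
    abel
  have hlow := Hop_low m n1 hm (k * h) hkh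
    (fun j => (1 + Real.sqrt h * ((φ' - φ) / (M.C * Real.sqrt n1))) ^ (min j n1)) (G z)
    (fun j => T' j z - T j z) b (Real.sqrt (n1 * h) * (φ' - φ) / M.C)
    (2 * Real.sqrt (n1 * h) * (φ' - φ)) Err Bs hthe.1 hthe.2.1 hthe.2.2
    (by rw [hT, hT']; exact hD) (by
      refine le_trans (Finset.sum_le_sum fun j _ => ?_) hb
      rw [hbd, hT, hT']
      simp only
      rw [norm_smul, Real.norm_eq_abs, abs_of_nonneg hkh]
      refine mul_le_mul_of_nonneg_left ?_ hkh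
      unfold dif
      refine (norm_sub_le _ _).trans (add_le_add (norm_sum_le _ _) ?_)
      rw [norm_smul, Real.norm_eq_abs, abs_of_nonneg (Nat.cast_nonneg _)])
  simp only [hdec] at hfar
  refine ⟨_, _, hlow.1, hlow.2, ?_⟩
  rw [← hT, ← hT']
  have h3 : ‖∑ j ∈ Finset.range m, ((k * h) • (T' j z - T j z) + b j)‖ ≤
      ‖T' m x - T m x‖ +
        ‖T' m x - T m x - ∑ j ∈ Finset.range m, ((k * h) • (T' j z - T j z) + b j)‖ := by
    set S := ∑ j ∈ Finset.range m, ((k * h) • (T' j z - T j z) + b j)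
    have e1 : S = (T' m x - T m x) - (T' m x - T m x - S) := by abel
    calc ‖S‖ = ‖(T' m x - T m x) - (T' m x - T m x - S)‖ := by rw [← e1]
      _ ≤ _ := norm_sub_le _ _
  linarith

end

section

private theorem Hop_markov {Ω : Type} [MeasurableSpace Ω] (μ : Measure Ω) (f : Ω → ℝ)
    (hf : Measurable f) (E t : ℝ) (ht : 0 < t)
    (hE : ∫⁻ ω, ENNReal.ofReal (f ω) ∂μ ≤ ENNReal.ofReal E) :
    μ {ω | t ≤ f ω} ≤ ENNReal.ofReal (E / t) := by
  have h0 : ENNReal.ofReal t ≠ 0 := by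
    rw [Ne, ENNReal.ofReal_eq_zero]; linarith
  have h1 : μ {ω | ENNReal.ofReal t ≤ ENNReal.ofReal (f ω)} ≤
      (∫⁻ ω, ENNReal.ofReal (f ω) ∂μ) / ENNReal.ofReal t :=
    meas_ge_le_lintegral_div hf.ennreal_ofReal.aemeasurable h0 ENNReal.ofReal_ne_top
  refine (measure_mono fun ω hω => ?_).trans (h1.trans ?_)
  · exact ENNReal.ofReal_le_ofReal hω
  · rw [ENNReal.ofReal_div_of_pos ht]
    exact ENNReal.div_le_div_right hE _

private theorem Hop_P {Ω ι : Type} [MeasurableSpace Ω] (μ : Measure Ω) (m d : ℕ) (κ : ℝ)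
    (hκ : 0 ≤ κ) (S : Finset ι) (hS : S.card ≤ 2 * d) (x : ι) (F : ℕ → ι → Ω → ℝ)
    (hF : ∀ j v, Measurable (F j v)) (hF0 : ∀ j v ω, 0 ≤ F j v ω) (B0 t : ℝ) (hB0 : 0 ≤ B0)
    (ht : 0 < t)
    (hB : ∀ j, j < m → ∀ v, (v ∈ S ∨ v = x) →
      ∫⁻ ω, ENNReal.ofReal (F j v ω) ∂μ ≤ ENNReal.ofReal B0) :
    μ {ω | t ≤ ∑ j ∈ Finset.range m, κ * (∑ v ∈ S, F j v ω + (2 * d : ℕ) * F j x ω)} ≤
      ENNReal.ofReal (m * κ * (4 * d * B0) / t) := by
  have hin : ∀ j ω, 0 ≤ ∑ v ∈ S, F j v ω := fun j ω => Finset.sum_nonneg fun v _ => hF0 j v ω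
  have hmS : ∀ j, Measurable fun ω => ∑ v ∈ S, F j v ω := fun j =>
    Finset.measurable_fun_sum _ fun v _ => hF j v
  have hm1 : ∀ j, Measurable fun ω => κ * (∑ v ∈ S, F j v ω + (2 * d : ℕ) * F j x ω) := fun j =>
    ((hmS j).add ((hF j x).const_mul _)).const_mul _
  have hm : Measurable fun ω =>
      ∑ j ∈ Finset.range m, κ * (∑ v ∈ S, F j v ω + (2 * d : ℕ) * F j x ω) :=
    Finset.measurable_fun_sum _ fun j _ => hm1 j
  refine Hop_markov μ _ hm _ t ht ?_
  have e1 : ∀ ω, ENNReal.ofReal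
      (∑ j ∈ Finset.range m, κ * (∑ v ∈ S, F j v ω + (2 * d : ℕ) * F j x ω)) =
      ∑ j ∈ Finset.range m, ENNReal.ofReal κ * (∑ v ∈ S, ENNReal.ofReal (F j v ω) +
        ENNReal.ofReal ((2 * d : ℕ) : ℝ) * ENNReal.ofReal (F j x ω)) := by
    intro ω
    rw [ENNReal.ofReal_sum_of_nonneg fun j _ => mul_nonneg hκ (add_nonneg (hin j ω)
      (mul_nonneg (Nat.cast_nonneg _) (hF0 j x ω)))]
    refine Finset.sum_congr rfl fun j _ => ?_
    rw [ENNReal.ofReal_mul hκ, ENNReal.ofReal_add (hin j ω)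
      (mul_nonneg (Nat.cast_nonneg _) (hF0 j x ω)), ENNReal.ofReal_sum_of_nonneg fun v _ => hF0 j v ω,
      ENNReal.ofReal_mul (Nat.cast_nonneg _)]
  rw [lintegral_congr e1, lintegral_finsetSum _ fun j _ => ?_]
  · have e2 : ∀ j ∈ Finset.range m, ∫⁻ ω, ENNReal.ofReal κ * (∑ v ∈ S, ENNReal.ofReal (F j v ω) +
        ENNReal.ofReal ((2 * d : ℕ) : ℝ) * ENNReal.ofReal (F j x ω)) ∂μ ≤
        ENNReal.ofReal (κ * (4 * d * B0)) := by
      intro j hj
      have hj' := Finset.mem_range.1 hj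
      rw [lintegral_const_mul _ ?_, lintegral_add_left ?_, lintegral_finsetSum _ ?_,
        lintegral_const_mul _ ?_]
      · have h1 : ∑ v ∈ S, ∫⁻ ω, ENNReal.ofReal (F j v ω) ∂μ ≤ ENNReal.ofReal (2 * d * B0) := by
          calc ∑ v ∈ S, ∫⁻ ω, ENNReal.ofReal (F j v ω) ∂μ ≤ ∑ _v ∈ S, ENNReal.ofReal B0 :=
                Finset.sum_le_sum fun v hv => hB j hj' v (Or.inl hv)
            _ = S.card * ENNReal.ofReal B0 := by rw [Finset.sum_const, nsmul_eq_mul]
            _ ≤ ENNReal.ofReal (2 * d) * ENNReal.ofReal B0 := by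
                refine mul_le_mul_left ?_ _
                rw [← ENNReal.ofReal_natCast]
                refine ENNReal.ofReal_le_ofReal ?_
                exact_mod_cast hS
            _ = ENNReal.ofReal (2 * d * B0) := by
                rw [← ENNReal.ofReal_mul (by positivity)]
        have h2 : ENNReal.ofReal ((2 * d : ℕ) : ℝ) * ∫⁻ ω, ENNReal.ofReal (F j x ω) ∂μ ≤
            ENNReal.ofReal (2 * d * B0) := by
          calc _ ≤ ENNReal.ofReal ((2 * d : ℕ) : ℝ) * ENNReal.ofReal B0 :=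
                mul_le_mul_right (hB j hj' x (Or.inr rfl)) _
            _ = ENNReal.ofReal (2 * d * B0) := by
                rw [← ENNReal.ofReal_mul (Nat.cast_nonneg _)]
                push_cast; rfl
        calc _ ≤ ENNReal.ofReal κ * (ENNReal.ofReal (2 * d * B0) + ENNReal.ofReal (2 * d * B0)) :=
              mul_le_mul_right (add_le_add h1 h2) _
          _ = ENNReal.ofReal (κ * (4 * d * B0)) := by
              rw [← ENNReal.ofReal_add (by positivity) (by positivity), ← ENNReal.ofReal_mul hκ]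
              congr 1; ring
      · exact (hF j x).ennreal_ofReal
      · exact fun v _ => (hF j v).ennreal_ofReal
      · exact Finset.measurable_fun_sum _ fun v _ => (hF j v).ennreal_ofReal
      · exact (Finset.measurable_fun_sum _ fun v _ => (hF j v).ennreal_ofReal).add
          ((hF j x).ennreal_ofReal.const_mul _)
    refine (Finset.sum_le_sum e2).trans ?_
    rw [Finset.sum_const, Finset.card_range, nsmul_eq_mul, ← ENNReal.ofReal_natCast,
      ← ENNReal.ofReal_mul (Nat.cast_nonneg _), ← mul_assoc]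
  · exact ((Finset.measurable_fun_sum _ fun v _ => (hF j v).ennreal_ofReal).add
          ((hF j x).ennreal_ofReal.const_mul _)).const_mul _

private theorem Hop_PIcongr {X : Type} [MeasurableSpace X] {μ ν : Measure X}
    [IsProbabilityMeasure μ] [IsProbabilityMeasure ν] (h : μ = ν) : PI μ = PI ν := by
  subst h; rfl

end

section

variable {V H : Type} [NormedAddCommGroup V] [InnerProductSpace ℝ V] [MeasurableSpace V]
  [BorelSpace V] [SecondCountableTopology V] [FiniteDimensional ℝ V]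
  [NormedAddCommGroup H] [InnerProductSpace ℝ H] [MeasurableSpace H] [BorelSpace H]
  [SecondCountableTopology H]

private theorem Hop_site (M : MN V H) {d L : ℕ} (x : boxS d L) (S : Set (ℕ → H))
    (hS : MeasurableSet S) :
    PI (M.mu d L) {ω | (fun j => ω j x) ∈ S} = PI M.γ S := by
  have hx : Measurable fun a : boxS d L → H => a x := measurable_pi_apply x
  have h1 : (M.mu d L).map (fun a : boxS d L → H => a x) = M.γ := by
    have := (measurePreserving_eval (fun _ : boxS d L => M.γ) x).map_eq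
    exact this
  have : IsProbabilityMeasure ((M.mu d L).map (fun a : boxS d L → H => a x)) :=
    Measure.isProbabilityMeasure_map hx.aemeasurable
  have h2 := PI_map (μ := M.mu d L) (fun a : boxS d L → H => a x) hx
  have h3 : PI ((M.mu d L).map (fun a : boxS d L → H => a x)) = PI M.γ := Hop_PIcongr h1
  rw [← h3, ← h2, Measure.map_apply ?_ hS]
  · rfl
  · rw [measurable_pi_iff]
    exact fun j => hx.comp (measurable_pi_apply j)

private theorem Hop_trajm (M : MN V H) {d : ℕ} (β k h : ℝ) (L : ℕ) (G : boxS d L → V) (j : ℕ)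
    (v : boxS d L) :
    Measurable fun ω : ℕ → boxS d L → H => traj (M.st β k h L) G ω j v :=
  (measurable_pi_apply v).comp ((measurable_traj _ (M.measurable_st β k h L) j).comp
    (measurable_const.prodMk measurable_id))

private theorem HopR_meas (M : MN V H) {d : ℕ} (β k h : ℝ) (hh : 0 < h) (hh1 : h < 1) (L : ℕ)
    (G : boxS d L → V) (x : boxS d L) (m : ℕ) (δ y : ℝ) (hδ : 0 < δ) (hδ1 : δ ≤ 1) :
    MeasurableSet (HopR M β k h L G x m δ y) := by
  obtain ⟨C, _, hC⟩ := prod_near M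
  refine MeasurableSet.inter ?_ ?_
  · have h1 := (hC h hh hh1 m δ hδ hδ1).1
    have h2 : Measurable fun ω : ℕ → boxS d L → H => fun j => ω j x := by
      rw [measurable_pi_iff]
      exact fun j => (measurable_pi_apply x).comp (measurable_pi_apply j)
    exact h2 h1
  · have hm : Measurable fun ω : ℕ → boxS d L → H =>
        ∑ j ∈ Finset.range m, k * h * cpl (boxNet d L) (nrm (traj (M.st β k h L) G ω j)) x := by
      refine Finset.measurable_fun_sum _ fun j _ => ?_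
      unfold cpl nrm
      exact ((Finset.measurable_fun_sum _ fun v _ => (Hop_trajm M β k h L G j v).norm).add
        ((Hop_trajm M β k h L G j x).norm.const_mul _)).const_mul _
    exact measurableSet_le hm measurable_const

private theorem HopR_prob (M : MN V H) {d : ℕ} (β k h : ℝ) (hh : 0 < h) (hh1 : h < 1) (hk : 0 < k)
    (L : ℕ) (G : boxS d L → V) (x : boxS d L) (m : ℕ) (δ y B0 C : ℝ) (hδ : 0 < δ) (hδ1 : δ ≤ 1)
    (hy : 0 < y) (hB0 : 0 ≤ B0)
    (hC : PI M.γ {ω | ¬ PNear (fun j => M.A h (ω j)) m δ} ≤ ENNReal.ofReal (C * (m * h) / δ ^ 2))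
    (hB : ∀ j, j < m → ∀ v, (v ∈ (boxNet d L).nb x ∨ v = x) →
      ∫⁻ ω, ENNReal.ofReal ‖traj (M.st β k h L) G ω j v‖ ∂(PI (M.mu d L)) ≤ ENNReal.ofReal B0) :
    PI (M.mu d L) (HopR M β k h L G x m δ y)ᶜ ≤ ENNReal.ofReal (C * (m * h) / δ ^ 2) +
      ENNReal.ofReal (m * (k * h) * (4 * d * B0) / y) := by
  have hsub : (HopR M β k h L G x m δ y)ᶜ ⊆
      {ω | (fun j => ω j x) ∈ {a : ℕ → H | ¬ PNear (fun j => M.A h (a j)) m δ}} ∪
      {ω | y ≤ ∑ j ∈ Finset.range m, (k * h) * (∑ v ∈ (boxNet d L).nb x,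
        ‖traj (M.st β k h L) G ω j v‖ + (2 * d : ℕ) * ‖traj (M.st β k h L) G ω j x‖)} := by
    intro ω hω
    by_cases h1 : PNear (fun j => M.A h (ω j x)) m δ
    · right
      by_contra h2
      exact hω ⟨h1, (not_le.1 h2).le⟩
    · exact Or.inl h1
  refine (measure_mono hsub).trans ((measure_union_le _ _).trans (add_le_add ?_ ?_))
  · rw [Hop_site M x]
    · exact hC
    · obtain ⟨C', _, hC'⟩ := prod_near M
      exact (hC' h hh hh1 m δ hδ hδ1).1.compl
  · exact Hop_P (PI (M.mu d L)) m d (k * h) (by positivity) ((boxNet d L).nb x)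
      ((boxNet d L).nb_card x) x (fun j v ω => ‖traj (M.st β k h L) G ω j v‖)
      (fun j v => (Hop_trajm M β k h L G j v).norm) (fun _ _ _ => norm_nonneg _) B0 y hB0 hy hB

private theorem Hop_small (d : ℕ) (C C2 K β : ℝ) (hC : 1 ≤ C) (hC2 : 1 ≤ C2) (hK : 0 ≤ K)
    (hβ : 0 < β) : ∃ s0 : ℝ, 0 < s0 ∧ ∀ s, 0 < s → s < s0 →
      600 * C * s ≤ 1 ∧ 24 * d * s ≤ 1 ∧ 24 * d * C2 * s ≤ 1 ∧ 3 * (1 + β) * s ≤ 1 ∧
      (3 + K) * s ^ (9 / 100 : ℝ) ≤ 1 := by
  have hA : 0 < 600 * C + 24 * d + 24 * d * C2 + 3 * (1 + β) := by positivity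
  refine ⟨min (1 / (600 * C + 24 * d + 24 * d * C2 + 3 * (1 + β)))
    ((1 / (3 + K)) ^ (100 / 9 : ℝ)), lt_min (by positivity) (by positivity), ?_⟩
  intro s hs hs0
  have h1 : s ≤ 1 / (600 * C + 24 * d + 24 * d * C2 + 3 * (1 + β)) :=
    (hs0.trans_le (min_le_left _ _)).le
  have h2 : s ≤ (1 / (3 + K)) ^ (100 / 9 : ℝ) := (hs0.trans_le (min_le_right _ _)).le
  have h3 : (600 * C + 24 * d + 24 * d * C2 + 3 * (1 + β)) * s ≤ 1 := by
    rw [le_div_iff₀ hA] at h1
    linarith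
  have a1 : 0 ≤ 600 * C * s := by positivity
  have a2 : 0 ≤ 24 * d * s := by positivity
  have a3 : 0 ≤ 24 * d * C2 * s := by positivity
  have a4 : 0 ≤ 3 * (1 + β) * s := by positivity
  refine ⟨by linarith, by linarith, by linarith, by linarith, ?_⟩
  have h4 : s ^ (9 / 100 : ℝ) ≤ 1 / (3 + K) := by
    calc s ^ (9 / 100 : ℝ) ≤ ((1 / (3 + K)) ^ (100 / 9 : ℝ)) ^ (9 / 100 : ℝ) :=
          Real.rpow_le_rpow hs.le h2 (by norm_num)
      _ = 1 / (3 + K) := by
          rw [← Real.rpow_mul (by positivity)]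
          norm_num
  have h5 : 0 < 3 + K := by linarith
  calc (3 + K) * s ^ (9 / 100 : ℝ) ≤ (3 + K) * (1 / (3 + K)) :=
        mul_le_mul_of_nonneg_left h4 h5.le
    _ = 1 := by field_simp

private theorem Hop_fin {s K b p2 : ℝ} (hs : 0 < s) (hs1 : s ≤ 1) (hK : 0 ≤ K)
    (he : (3 + K) * s ^ (9 / 100 : ℝ) ≤ 1) (hp2 : 0 ≤ p2) (hp : p2 ≤ s) (hb : b ≤ K * s) :
    2 * (2 * s + p2) ^ (1 / 4 : ℝ) + b ≤ s ^ (4 / 25 : ℝ) := by
  have h1 : (2 * s + p2) ^ (1 / 4 : ℝ) ≤ 3 / 2 * s ^ (1 / 4 : ℝ) := by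
    calc (2 * s + p2) ^ (1 / 4 : ℝ) ≤ ((3 / 2 : ℝ) ^ (4 : ℝ) * s) ^ (1 / 4 : ℝ) := by
          refine Real.rpow_le_rpow (by positivity) ?_ (by norm_num)
          have : (3 / 2 : ℝ) ^ (4 : ℝ) = 81 / 16 := by
            rw [show (4 : ℝ) = ((4 : ℕ) : ℝ) by norm_num, Real.rpow_natCast]; norm_num
          rw [this]; linarith
      _ = 3 / 2 * s ^ (1 / 4 : ℝ) := by
          rw [Real.mul_rpow (by positivity) hs.le, ← Real.rpow_mul (by norm_num)]
          norm_num
  have h2 : s ≤ s ^ (1 / 4 : ℝ) := by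
    calc s = s ^ (1 : ℝ) := (Real.rpow_one s).symm
      _ ≤ s ^ (1 / 4 : ℝ) := Real.rpow_le_rpow_of_exponent_ge hs hs1 (by norm_num)
  have h3 : s ^ (1 / 4 : ℝ) = s ^ (9 / 100 : ℝ) * s ^ (4 / 25 : ℝ) := by
    rw [← Real.rpow_add hs]; norm_num
  have h4 : 0 < s ^ (4 / 25 : ℝ) := by positivity
  have h5 : K * s ≤ K * s ^ (1 / 4 : ℝ) := mul_le_mul_of_nonneg_left h2 hK
  calc 2 * (2 * s + p2) ^ (1 / 4 : ℝ) + b ≤ (3 + K) * s ^ (1 / 4 : ℝ) := by linarith
    _ = ((3 + K) * s ^ (9 / 100 : ℝ)) * s ^ (4 / 25 : ℝ) := by rw [h3]; ring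
    _ ≤ 1 * s ^ (4 / 25 : ℝ) := mul_le_mul_of_nonneg_right he h4.le
    _ = s ^ (4 / 25 : ℝ) := one_mul _

private theorem Hop_cpl {d L : ℕ} (f : boxS d L → ℝ) (c : ℝ) (v : boxS d L) :
    cpl (boxNet d L) (fun v => f v * c) v = cpl (boxNet d L) f v * c := by
  unfold cpl
  rw [← Finset.sum_mul]; ring

theorem hop (M : MN V H) (d : ℕ) (β : ℝ) (hβ : 0 < β) : ∃ e1 : ℝ, 0 < e1 ∧
    ∀ e, 0 < e → e ≤ e1 → ∃ k0 : ℝ, 0 < k0 ∧ k0 < 1 ∧
    ∀ k, 0 < k → k < k0 → ∃ h0 : ℝ, 0 < h0 ∧ ∀ h, 0 < h → h < h0 →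
    ∀ (L : ℕ) (G : boxS d L → V) (z x : boxS d L), x ∈ (boxNet d L).nb z →
    (∀ v, ‖G v‖ ≤ k ^ (1 - e / 4 - (1 + e / 16) * (boxNet d L).dist v x) * ‖G z‖) →
    ‖G z‖ ≤ k ^ (-(e / (4 * β))) →
      PI (M.mu d L) {ω | ‖traj (M.st β k h L) G ω (2 * ⌈k ^ e / h⌉₊) x‖ < k ^ (1 + 2 * e) * ‖G z‖}
        ≤ ENNReal.ofReal (k ^ (e / 100)) := by
  obtain ⟨C1, hC1, hfm1⟩ := fm1 M d β hβ
  obtain ⟨C2, hC2, hfm2⟩ := fm2 M d β hβ
  obtain ⟨C3, hC3, hnear⟩ := prod_near M
  refine ⟨min (1 / 16) β, lt_min (by norm_num) hβ, ?_⟩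
  intro e he he1
  have he16 : e ≤ 1 / 16 := he1.trans (min_le_left _ _)
  have heβ : e ≤ β := he1.trans (min_le_right _ _)
  obtain ⟨Cr, kr, hCr, hkr0, hkr1, hreg⟩ := regS_prob M d β hβ e he he16
  obtain ⟨ks, hks0, hks1, hshift⟩ := site_shift M d β hβ e he he16
  obtain ⟨K, hKd⟩ : ∃ K : ℝ, K = 3 * C3 + 36 * d * C1 + Cr := ⟨_, rfl⟩
  have hK : 0 ≤ K := by rw [hKd]; positivity
  obtain ⟨s0, hs0, hsm⟩ := Hop_small d M.C C2 K β M.C1 hC2 hK hβ
  refine ⟨min (min kr ks) (s0 ^ (16 / e)), lt_min (lt_min hkr0 hks0) (by positivity),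
    (min_le_left _ _).trans_lt ((min_le_left _ _).trans_lt hkr1), ?_⟩
  intro k hk hkk
  have hkr : k < kr := hkk.trans_le ((min_le_left _ _).trans (min_le_left _ _))
  have hks : k < ks := hkk.trans_le ((min_le_left _ _).trans (min_le_right _ _))
  have hk1 : k < 1 := hkr.trans hkr1
  obtain ⟨s, hs⟩ : ∃ s, s = k ^ (e / 16) := ⟨_, rfl⟩
  have hspos : 0 < s := by rw [hs]; positivity
  have hss0 : s < s0 := by
    have h1 : k < s0 ^ (16 / e) := hkk.trans_le (min_le_right _ _)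
    calc s = k ^ (e / 16) := hs
      _ < (s0 ^ (16 / e)) ^ (e / 16) := Real.rpow_lt_rpow hk.le h1 (by positivity)
      _ = s0 := by
          rw [← Real.rpow_mul hs0.le]
          have : 16 / e * (e / 16) = 1 := by field_simp
          rw [this, Real.rpow_one]
  obtain ⟨hs600, hsd, hsC2, hsβ, hsK⟩ := hsm s hspos hss0
  have hC0 := M.C1
  have hs1 : 600 * s ≤ 1 := by nlinarith
  have hsle : s ≤ 1 := by linarith
  have hsn : ∀ n : ℕ, k ^ (e / 16 * n) = s ^ n := by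
    intro n
    rw [Real.rpow_mul hk.le, Real.rpow_natCast, hs]
  have hs16 : k ^ e = s ^ 16 := by
    rw [← hsn 16]; congr 1; push_cast; ring
  have hs2 : k ^ (e / 8) = s ^ 2 := by
    rw [← hsn 2]; congr 1; push_cast; ring
  have hs8 : k ^ (e / 2) = s ^ 8 := by
    rw [← hsn 8]; congr 1; push_cast; ring
  have hs5 : k ^ (-(5 * e / 16)) = (s ^ 5)⁻¹ := by
    rw [Real.rpow_neg hk.le, ← hsn 5]; congr 2; push_cast; ring
  have hs425 : s ^ (4 / 25 : ℝ) = k ^ (e / 100) := by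
    rw [hs, ← Real.rpow_mul hk.le]; congr 1; ring
  obtain ⟨q, hq⟩ : ∃ q, q = k ^ (1 / 4 : ℝ) := ⟨_, rfl⟩
  have hqpos : 0 < q := by rw [hq]; positivity
  have hq4 : q ^ 4 = k := by
    rw [hq, ← Real.rpow_natCast, ← Real.rpow_mul hk.le]; norm_num
  have hq2 : k ^ (1 / 2 : ℝ) = q ^ 2 := by
    rw [hq, ← Real.rpow_natCast, ← Real.rpow_mul hk.le]; norm_num
  have hqs : q ≤ s ^ 64 := by
    rw [hq, ← hsn 64]
    refine Real.rpow_le_rpow_of_exponent_ge hk hk1.le ?_
    push_cast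
    linarith
  have hqs5 : q ≤ s ^ 5 := hqs.trans (pow_le_pow_of_le_one hspos.le hsle (by norm_num))
  have hqle : q ≤ s := by
    calc q ≤ s ^ 64 := hqs
      _ ≤ s ^ 1 := pow_le_pow_of_le_one hspos.le hsle (by norm_num)
      _ = s := pow_one s
  obtain ⟨hr, hhr0, hreg'⟩ := hreg k hk hkr
  obtain ⟨hsh, hhs0, hshift'⟩ := hshift k hk hks (s ^ 11) (by positivity)
  refine ⟨min (min hr hsh) (s ^ 16 / 2), lt_min (lt_min hhr0 hhs0) (by positivity), ?_⟩
  intro h hh hh0 L G z x hx hG hu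
  have hhr : h < hr := hh0.trans_le ((min_le_left _ _).trans (min_le_left _ _))
  have hhs : h < hsh := hh0.trans_le ((min_le_left _ _).trans (min_le_right _ _))
  have hh16 : h < s ^ 16 / 2 := hh0.trans_le (min_le_right _ _)
  have hs16s : s ^ 16 ≤ s := by
    calc s ^ 16 ≤ s ^ 1 := pow_le_pow_of_le_one hspos.le hsle (by norm_num)
      _ = s := pow_one s
  have hh1 : h < 1 := by linarith
  obtain ⟨n1, hn1⟩ : ∃ n1, n1 = ⌈k ^ e / h⌉₊ := ⟨_, rfl⟩
  rw [← hn1]
  have hnlo : s ^ 16 ≤ n1 * h := by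
    have h1 := Nat.le_ceil (k ^ e / h)
    rw [← hn1, div_le_iff₀ hh, hs16] at h1
    exact h1
  have hnup : n1 * h ≤ 3 / 2 * s ^ 16 := by
    have h1 := Nat.ceil_lt_add_one (a := k ^ e / h) (by positivity)
    rw [← hn1, hs16] at h1
    have h2 : n1 * h < (s ^ 16 / h + 1) * h := mul_lt_mul_of_pos_right h1 hh
    have h3 : (s ^ 16 / h + 1) * h = s ^ 16 + h := by field_simp
    linarith
  have hn1pos : 1 ≤ n1 := by
    rw [hn1]
    exact Nat.one_le_iff_ne_zero.2 (Nat.ceil_pos.2 (by positivity)).ne'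
  obtain ⟨m, hm⟩ : ∃ m, m = 2 * n1 := ⟨_, rfl⟩
  rw [← hm]
  have hmh : (m : ℝ) * h = 2 * (n1 * h) := by rw [hm]; push_cast; ring
  have hmh3 : (m : ℝ) * h ≤ 3 * s ^ 16 := by rw [hmh]; linarith
  have hmh1 : (m : ℝ) * h ≤ 1 := by linarith
  have hnh1 : (n1 : ℝ) * h ≤ 1 := by linarith
  have hmh0 : 0 ≤ (m : ℝ) * h := by positivity
  obtain ⟨u, hud⟩ : ∃ u, u = ‖G z‖ := ⟨_, rfl⟩
  have hGz := hG
  have huz := hu
  rw [← hud] at hG hu ⊢
  rcases (by rw [hud]; exact norm_nonneg _ : (0 : ℝ) ≤ u).eq_or_lt with hu0 | hu0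
  · have : {ω : ℕ → boxS d L → H | ‖traj (M.st β k h L) G ω m x‖ < k ^ (1 + 2 * e) * u} = ∅ := by
      ext ω
      simp only [Set.mem_ofPred_eq, Set.mem_empty_iff_false, iff_false, not_lt]
      rw [← hu0, mul_zero]
      exact norm_nonneg _
    rw [this, measure_empty]
    exact bot_le
  have hdzx : (boxNet d L).dist z x = 1 := (boxNet d L).dist_nb z x hx
  have hxz : x ≠ z := by
    intro h0
    rw [h0, (boxNet d L).dist_self] at hdzx
    exact absurd hdzx (by norm_num)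
  -- profiles
  obtain ⟨P, hP⟩ : ∃ P : boxS d L → ℝ, P = prof k (1 - e / 4) (1 + e / 16) x := ⟨_, rfl⟩
  have hP0 : ∀ v, 0 ≤ P v := by
    intro v; rw [hP]; unfold prof; positivity
  have hPz : P z = (s ^ 5)⁻¹ := by
    rw [hP]; unfold prof; rw [hdzx, ← hs5]; congr 1; push_cast; ring
  have hPnb : ∀ v, (v ∈ (boxNet d L).nb x ∨ v = x) → P v ≤ (s ^ 5)⁻¹ := by
    intro v hv
    rw [hP, ← hs5]; unfold prof
    refine Real.rpow_le_rpow_of_exponent_ge hk hk1.le ?_
    rcases hv with hv | hv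
    · have h1 : (boxNet d L).dist v x = 1 := by
        rw [(boxNet d L).dist_comm]; exact (boxNet d L).dist_nb x v hv
      rw [h1]; push_cast; linarith
    · rw [hv, (boxNet d L).dist_self]; push_cast; linarith
  have hPc : ∀ v, k * cpl (boxNet d L) P v ≤ 4 * d * s⁻¹ * P v := by
    intro v
    have h1 := prof_cpl k (1 - e / 4) (1 + e / 16) hk hk1 x v
    rw [abs_of_pos (by linarith), max_eq_left (by linarith)] at h1
    have h2 : k ^ (1 - (1 + e / 16)) = s⁻¹ := by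
      rw [hs, ← Real.rpow_neg hk.le]; congr 1; ring
    rw [h2, ← hP] at h1
    exact h1
  obtain ⟨W, hW⟩ : ∃ W : boxS d L → ℝ, W = prof k 0 (-1) z := ⟨_, rfl⟩
  have hWv : ∀ v, W v = k ^ (boxNet d L).dist v z := by
    intro v
    rw [hW]; unfold prof
    rw [← Real.rpow_natCast]; congr 1; ring
  have hW0 : ∀ v, 0 ≤ W v := by intro v; rw [hWv]; positivity
  have hWz : W z = 1 := by rw [hWv, (boxNet d L).dist_self, pow_zero]
  have hW1 : ∀ v, W v ≤ 1 := by intro v; rw [hWv]; exact pow_le_one₀ hk.le hk1.le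
  have hWk : ∀ v, v ≠ z → W v ≤ k := by
    intro v hv
    rw [hWv]
    calc k ^ (boxNet d L).dist v z ≤ k ^ 1 :=
          pow_le_pow_of_le_one hk.le hk1.le ((boxNet d L).dist_pos v z hv)
      _ = k := pow_one k
  have hWc : ∀ v, k * cpl (boxNet d L) W v ≤ 4 * d * W v := by
    intro v
    have h1 := prof_cpl k 0 (-1) hk hk1 z v
    have h2 : (1 : ℝ) - max |(-1 : ℝ)| 0 = 0 := by norm_num
    rw [h2, Real.rpow_zero, ← hW, mul_one] at h1
    exact h1
  obtain ⟨U, hU⟩ : ∃ U : boxS d L → ℝ, U = fun v => P v * u := ⟨_, rfl⟩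
  have hU0 : ∀ v, 0 ≤ U v := by intro v; rw [hU]; exact mul_nonneg (hP0 v) hu0.le
  have hUc : ∀ v, k * cpl (boxNet d L) U v ≤ 4 * d * s⁻¹ * U v := by
    intro v
    rw [hU, Hop_cpl]
    have := mul_le_mul_of_nonneg_right (hPc v) hu0.le
    linarith
  have hGU : ∀ v, ‖G v‖ ≤ U v := by
    intro v; rw [hU, hP]; exact hG v
  have hr0 : 0 ≤ 4 * d * s⁻¹ := by positivity
  have hr0' : (0 : ℝ) ≤ 4 * d := by positivity
  have hexp1 : ∀ j : ℕ, j < m → Real.exp ((4 * d * s⁻¹ + 4 * d) * (j * h)) ≤ 3 := by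
    intro j hj
    have h1 : (j : ℝ) * h ≤ m * h :=
      mul_le_mul_of_nonneg_right (by exact_mod_cast hj.le) hh.le
    have h2 : (4 * d * s⁻¹ + 4 * d) * (j * h) ≤ 1 := by
      calc (4 * d * s⁻¹ + 4 * d) * (j * h) ≤ (4 * d * s⁻¹ + 4 * d) * (3 * s ^ 16) :=
            mul_le_mul_of_nonneg_left (h1.trans hmh3) (by positivity)
        _ = 12 * d * s ^ 15 * (s⁻¹ * s) + 12 * d * s ^ 16 := by ring
        _ = 12 * d * s ^ 15 + 12 * d * s ^ 16 := by
            rw [inv_mul_cancel₀ hspos.ne', mul_one]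
        _ ≤ 12 * d * s + 12 * d * s := by
            have h3 : s ^ 15 ≤ s := by
              calc s ^ 15 ≤ s ^ 1 := pow_le_pow_of_le_one hspos.le hsle (by norm_num)
                _ = s := pow_one s
            exact add_le_add (mul_le_mul_of_nonneg_left h3 (by positivity))
              (mul_le_mul_of_nonneg_left hs16s (by positivity))
        _ ≤ 1 := by linarith
    calc Real.exp ((4 * d * s⁻¹ + 4 * d) * (j * h)) ≤ Real.exp 1 := Real.exp_le_exp.2 h2
      _ ≤ 3 := by linarith [Real.exp_one_lt_d9]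
  have hexp2 : ∀ j : ℕ, j < m → Real.exp (4 * d * s⁻¹ * (j * h)) ≤ 3 := by
    intro j hj
    refine le_trans (Real.exp_le_exp.2 ?_) (hexp1 j hj)
    refine mul_le_mul_of_nonneg_right ?_ (by positivity)
    linarith
  have hjh : ∀ j : ℕ, j < m → (j : ℝ) * h ≤ 1 := by
    intro j hj
    have h1 : (j : ℝ) * h ≤ m * h :=
      mul_le_mul_of_nonneg_right (by exact_mod_cast hj.le) hh.le
    linarith
  -- regular sets
  have hδ0 : 0 < s ^ 2 := by positivity
  have hδ1 : s ^ 2 ≤ 1 := pow_le_one₀ hspos.le hsle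
  have hδ16 : s ^ 2 ≤ 1 / 16 := by
    calc s ^ 2 = s * s := sq s
      _ ≤ (1 / 600) * 1 := mul_le_mul (by linarith) hsle hspos.le (by norm_num)
      _ ≤ 1 / 16 := by norm_num
  obtain ⟨Reg, hRegd⟩ : ∃ Reg, Reg = RegS M β k h L G z m (s ^ 2) ∩
    HopR M β k h L G x m (s ^ 2) (q ^ 2 * u) := ⟨_, rfl⟩
  have hRegm : MeasurableSet Reg := by
    rw [hRegd]
    exact (measurableSet_RegS M β k h hh hh1 L G z m (s ^ 2) hδ0 hδ1).inter
      (HopR_meas M β k h hh hh1 L G x m (s ^ 2) (q ^ 2 * u) hδ0 hδ1)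
  have hPS : PI (M.mu d L) (RegS M β k h L G z m (s ^ 2))ᶜ ≤ ENNReal.ofReal (Cr * s ^ 8) := by
    have h1 := hreg' h hh hhr L G z x huz (by rw [← hud]; exact hu0) (1 - e / 4)
      (by rw [hdzx]; apply le_of_eq; congr 1; push_cast; ring) hGz m (by rw [hm, hn1])
    rw [hs2, hs8] at h1
    exact h1
  have hPR : PI (M.mu d L) (HopR M β k h L G x m (s ^ 2) (q ^ 2 * u))ᶜ ≤
      ENNReal.ofReal (C3 * (m * h) / (s ^ 2) ^ 2) +
        ENNReal.ofReal (m * (k * h) * (4 * d * (C1 * 3 * ((s ^ 5)⁻¹ * u))) / (q ^ 2 * u)) := by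
    refine HopR_prob M β k h hh hh1 hk L G x m (s ^ 2) (q ^ 2 * u) _ C3 hδ0 hδ1 (by positivity)
      (by positivity) (hnear h hh hh1 m (s ^ 2) hδ0 hδ1).2 ?_
    intro j hj v hv
    have h1 := hfm1 k h hk hk1 hh hh1 L z n1 hn1pos hnh1 0 le_rfl zero_le_one G U
      (4 * d * s⁻¹) hr0 hU0 hUc hGU j v (hjh j hj)
    have h2 : ∀ ω, trs M β k h L G z n1 0 ω j v = traj (M.st β k h L) G ω j v := by
      intro ω
      unfold trs
      rw [zero_smul, add_zero]
    simp only [h2] at h1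
    refine h1.trans (ENNReal.ofReal_le_ofReal ?_)
    have h3 : U v ≤ (s ^ 5)⁻¹ * u := by
      rw [hU]; exact mul_le_mul_of_nonneg_right (hPnb v hv) hu0.le
    exact mul_le_mul (mul_le_mul_of_nonneg_left (hexp2 j hj) (by linarith)) h3 (hU0 v)
      (by positivity)
  have hq5 : q * (s ^ 5)⁻¹ ≤ 1 := by
    rw [← div_eq_mul_inv]
    exact div_le_one_of_le₀ hqs5 (by positivity)
  have hqu : q * u ≤ 1 := by
    have h1 : u ≤ q⁻¹ := by
      refine hu.trans ?_
      rw [hq, ← Real.rpow_neg hk.le]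
      refine Real.rpow_le_rpow_of_exponent_ge hk hk1.le ?_
      have : e / (4 * β) ≤ 1 / 4 := by
        rw [div_le_div_iff₀ (by positivity) (by norm_num)]
        linarith
      linarith
    calc q * u ≤ q * q⁻¹ := mul_le_mul_of_nonneg_left h1 hqpos.le
      _ = 1 := mul_inv_cancel₀ hqpos.ne'
  obtain ⟨R, hR⟩ : ∃ R, R = Real.sqrt (n1 * h) := ⟨_, rfl⟩
  have hR2 : R ^ 2 = n1 * h := by rw [hR]; exact Real.sq_sqrt (by positivity)
  have hRpos : 0 < R := by rw [hR]; exact Real.sqrt_pos.2 (lt_of_lt_of_le (by positivity) hnlo)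
  have hR1 : Real.sqrt (n1 * h) ≤ 1 := by
    calc Real.sqrt (n1 * h) ≤ Real.sqrt 1 := Real.sqrt_le_sqrt hnh1
      _ = 1 := Real.sqrt_one
  -- difference moments
  have hdm : ∀ φ φ' : ℝ, 0 ≤ φ → φ ≤ φ' → φ' ≤ 1 → ∀ j, j < m → ∀ v,
      ∫⁻ ω, ENNReal.ofReal (dif (trs M β k h L G z n1 φ' ω j) (trs M β k h L G z n1 φ ω j) v)
        ∂(PI (M.mu d L)) ≤
      ENNReal.ofReal (C2 * 3 * (φ' - φ) * R * ((s ^ 5)⁻¹ * u) * W v) := by
    intro φ φ' hφ0 hφ hφ1 j hj v
    have h1 := hfm2 k h hk hk1 hh hh1 L z n1 hn1pos hnh1 φ φ' hφ0 hφ hφ1 G U W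
      (4 * d * s⁻¹) (4 * d) hr0 hr0' hU0 hUc hGU hW0 hWz.ge hWc j v (hjh j hj)
    refine h1.trans (ENNReal.ofReal_le_ofReal ?_)
    have h3 : U z = (s ^ 5)⁻¹ * u := by
      rw [hU]; simp only; rw [hPz]
    rw [h3, ← hR]
    have h4 : 0 ≤ φ' - φ := by linarith
    have h5 : C2 * Real.exp ((4 * d * s⁻¹ + 4 * d) * (j * h)) ≤ C2 * 3 :=
      mul_le_mul_of_nonneg_left (hexp1 j hj) (by linarith)
    have h6 : 0 ≤ (φ' - φ) * R * ((s ^ 5)⁻¹ * u) * W v := by
      have := hW0 v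
      positivity
    calc C2 * Real.exp ((4 * d * s⁻¹ + 4 * d) * (j * h)) * (φ' - φ) * R * ((s ^ 5)⁻¹ * u) * W v
        = (C2 * Real.exp ((4 * d * s⁻¹ + 4 * d) * (j * h))) *
          ((φ' - φ) * R * ((s ^ 5)⁻¹ * u) * W v) := by ring
      _ ≤ (C2 * 3) * ((φ' - φ) * R * ((s ^ 5)⁻¹ * u) * W v) := mul_le_mul_of_nonneg_right h5 h6
      _ = _ := by ring
  have hdmeas : ∀ φ φ' : ℝ, ∀ j v, Measurable fun ω : ℕ → boxS d L → H =>
      dif (trs M β k h L G z n1 φ' ω j) (trs M β k h L G z n1 φ ω j) v := by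
    intro φ φ' j v
    unfold dif
    exact (((measurable_pi_apply v).comp (measurable_trs M β k h L G z n1 φ' j)).sub
      ((measurable_pi_apply v).comp (measurable_trs M β k h L G z n1 φ j))).norm
  -- the small ball estimate
  have hsb := sbs M.γ M.cm n1 (shz M z n1)
    (by
      intro j hj
      funext v
      simp [shz, not_lt.2 hj])
    (shz_sum M z n1) (fun ω => traj (M.st β k h L) G ω m x) (Hop_trajm M β k h L G m x)
    Reg hRegm (k ^ (1 + 2 * e) * u) s (24 * d * C2 * q) (by positivity) hspos.le (by positivity)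
    (by
      intro φ φ' hφ0 hφ1 hη
      have hw0 : 0 < φ' - φ := lt_of_lt_of_le hspos hη
      have hφ : φ ≤ φ' := by linarith
      have hincl : {ω : ℕ → boxS d L → H | (ω + φ • shz M z n1) ∈ Reg ∧
          (ω + φ' • shz M z n1) ∈ Reg ∧
          ‖traj (M.st β k h L) G (ω + φ' • shz M z n1) m x -
            traj (M.st β k h L) G (ω + φ • shz M z n1) m x‖ ≤ 2 * (k ^ (1 + 2 * e) * u)} ⊆
        {ω | q * R * (φ' - φ) * u ≤ ∑ j ∈ Finset.range m, (k * h) *
          (∑ v ∈ (boxNet d L).nb z,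
            dif (trs M β k h L G z n1 φ' ω j) (trs M β k h L G z n1 φ ω j) v +
            (2 * d : ℕ) * dif (trs M β k h L G z n1 φ' ω j) (trs M β k h L G z n1 φ ω j) z)} ∪
        {ω | q ^ 6 * R * (φ' - φ) * u ≤ ∑ j ∈ Finset.range m, (k * h) *
          (∑ v ∈ ((boxNet d L).nb x).erase z,
            dif (trs M β k h L G z n1 φ' ω j) (trs M β k h L G z n1 φ ω j) v +
            (2 * d : ℕ) * dif (trs M β k h L G z n1 φ' ω j) (trs M β k h L G z n1 φ ω j) x)} := by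
        intro ω hω
        obtain ⟨hω1, hω2, hω3⟩ := hω
        rw [hRegd] at hω1 hω2
        by_contra hcon
        simp only [Set.mem_union, Set.mem_ofPred_eq, not_or, not_le] at hcon
        obtain ⟨hc1, hc2⟩ := hcon
        have hsh := hshift' h hh hhs L G z huz n1 m hn1 (by rw [hm]) φ φ' hφ0 hφ hφ1 ω
          (by rw [hs2]; exact hω1.1) (by rw [hs2]; exact hω2.1)
        have hGx : ‖G x‖ ≤ q ^ 2 * u := by
          refine (hGz x).trans ?_
          rw [← hud]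
          refine mul_le_mul_of_nonneg_right ?_ hu0.le
          rw [← hq2, (boxNet d L).dist_self]
          refine Real.rpow_le_rpow_of_exponent_ge hk hk1.le ?_
          push_cast
          linarith
        obtain ⟨Sn, Sa, hSn, hSa, hDm⟩ := Hop_det M hβ hh hk G z x hx hxz n1 m hn1pos hm φ φ' hφ
          (by linarith) ω (s ^ 2) (q ^ 2 * u)
          ((50 * s ^ 2 * R * (φ' - φ) + s ^ 11) * u + 20 * ∑ j ∈ Finset.range m, (k * h) *
          (∑ v ∈ (boxNet d L).nb z,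
            dif (trs M β k h L G z n1 φ' ω j) (trs M β k h L G z n1 φ ω j) v +
            (2 * d : ℕ) * dif (trs M β k h L G z n1 φ' ω j) (trs M β k h L G z n1 φ ω j) z))
          (∑ j ∈ Finset.range m, (k * h) *
          (∑ v ∈ ((boxNet d L).nb x).erase z,
            dif (trs M β k h L G z n1 φ' ω j) (trs M β k h L G z n1 φ ω j) v +
            (2 * d : ℕ) * dif (trs M β k h L G z n1 φ' ω j) (trs M β k h L G z n1 φ ω j) x))
          hδ0 hδ16
          (by
            have h1 : q ^ 2 * u ≤ q := by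
              calc q ^ 2 * u = q * (q * u) := by ring
                _ ≤ q * 1 := mul_le_mul_of_nonneg_left hqu hqpos.le
                _ = q := mul_one q
            linarith)
          hω1.2 hω2.2
          (by
            intro j hj
            have h1 := (hsh j hj.le).2
            rw [hs2, ← hR, ← hud] at h1
            exact h1)
          le_rfl hR1
          (by
            calc (m : ℝ) * h * (1 + β) ≤ 3 * s ^ 16 * (1 + β) :=
                  mul_le_mul_of_nonneg_right hmh3 (by linarith)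
              _ = s ^ 2 * s ^ 13 * (3 * (1 + β) * s) := by ring
              _ ≤ s ^ 2 * s ^ 13 * 1 := mul_le_mul_of_nonneg_left hsβ (by positivity)
              _ ≤ s ^ 2 * 1 * 1 := by
                  refine mul_le_mul_of_nonneg_right (mul_le_mul_of_nonneg_left
                    (pow_le_one₀ hspos.le hsle) (by positivity)) (by norm_num)
              _ = s ^ 2 := by ring)
        have hfinal := Hop_num (s := s) (q := q) (R := R) (w := φ' - φ) (u := u) (C0 := M.C)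
          (nh := n1 * h) hspos hC0 hs600 hqpos hqs hRpos hR2 hnlo hη hu0 hc1.le hc2.le rfl
          (Sn := Sn) (Sa := Sa) (by
            rw [← hR, ← hud] at hSn
            have e1 : k * h * n1 * (R * (φ' - φ) / M.C) * u =
                q ^ 4 * (n1 * h) * (R * (φ' - φ) / M.C) * u := by rw [hq4]; ring
            have e2 : k * h * m = 2 * q ^ 4 * (n1 * h) := by
              rw [hq4, mul_assoc k h, mul_comm h (m : ℝ), hmh]; ring
            rw [e1, e2] at hSn
            exact hSn) (by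
            rw [← hR, ← hud] at hSa
            have e2 : k * h * m = 2 * q ^ 4 * (n1 * h) := by
              rw [hq4, mul_assoc k h, mul_comm h (m : ℝ), hmh]; ring
            rw [e2] at hSa
            exact hSa) hDm
        have e3 : k ^ (1 + 2 * e) * u = q ^ 4 * s ^ 32 * u := by
          rw [hq4, Real.rpow_add hk, Real.rpow_one]
          congr 2
          rw [← hsn 32]; congr 1; push_cast; ring
        rw [e3] at hω3
        exact absurd hω3 (not_le.2 hfinal)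
      refine (measure_mono hincl).trans ((measure_union_le _ _).trans ?_)
      have hB0 : 0 ≤ C2 * 3 * (φ' - φ) * R * ((s ^ 5)⁻¹ * u) := by positivity
      have hp1 := Hop_P (PI (M.mu d L)) m d (k * h) (by positivity) ((boxNet d L).nb z)
        ((boxNet d L).nb_card z) z
        (fun j v ω => dif (trs M β k h L G z n1 φ' ω j) (trs M β k h L G z n1 φ ω j) v)
        (fun j v => hdmeas φ φ' j v) (fun _ _ _ => norm_nonneg _)
        (C2 * 3 * (φ' - φ) * R * ((s ^ 5)⁻¹ * u)) (q * R * (φ' - φ) * u) hB0 (by positivity)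
        (by
          intro j hj v _
          refine (hdm φ φ' hφ0 hφ hφ1 j hj v).trans (ENNReal.ofReal_le_ofReal ?_)
          have := mul_le_mul_of_nonneg_left (hW1 v) hB0
          linarith)
      have hp2 := Hop_P (PI (M.mu d L)) m d (k * h) (by positivity) (((boxNet d L).nb x).erase z)
        ((Finset.card_le_card (Finset.erase_subset _ _)).trans ((boxNet d L).nb_card x)) x
        (fun j v ω => dif (trs M β k h L G z n1 φ' ω j) (trs M β k h L G z n1 φ ω j) v)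
        (fun j v => hdmeas φ φ' j v) (fun _ _ _ => norm_nonneg _)
        (C2 * 3 * (φ' - φ) * R * ((s ^ 5)⁻¹ * u) * k) (q ^ 6 * R * (φ' - φ) * u)
        (by positivity) (by positivity)
        (by
          intro j hj v hv
          refine (hdm φ φ' hφ0 hφ hφ1 j hj v).trans (ENNReal.ofReal_le_ofReal ?_)
          have hvz : v ≠ z := by
            rcases hv with hv | hv
            · exact Finset.ne_of_mem_erase hv
            · rw [hv]; exact hxz
          exact mul_le_mul_of_nonneg_left (hWk v hvz) hB0)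
      refine (add_le_add hp1 hp2).trans ?_
      have hY : 0 ≤ 12 * d * C2 * q * (R * (φ' - φ) * u) := by positivity
      have hmq : ∀ Y : ℝ, 0 ≤ Y → (m * h) * (q * (s ^ 5)⁻¹) * Y ≤ Y := by
        intro Y hY
        have h1 : (m * h) * (q * (s ^ 5)⁻¹) ≤ 1 := by
          calc (m * h) * (q * (s ^ 5)⁻¹) ≤ 1 * 1 :=
                mul_le_mul hmh1 hq5 (by positivity) zero_le_one
            _ = 1 := one_mul 1
        calc (m * h) * (q * (s ^ 5)⁻¹) * Y ≤ 1 * Y := mul_le_mul_of_nonneg_right h1 hY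
          _ = Y := one_mul Y
      have hq1 : q ≤ 1 := hqle.trans hsle
      have hb1 : m * (k * h) * (4 * d * (C2 * 3 * (φ' - φ) * R * ((s ^ 5)⁻¹ * u))) /
          (q * R * (φ' - φ) * u) ≤ 12 * d * C2 * q := by
        rw [div_le_iff₀ (by positivity)]
        calc m * (k * h) * (4 * d * (C2 * 3 * (φ' - φ) * R * ((s ^ 5)⁻¹ * u)))
            = (m * h) * (q * (s ^ 5)⁻¹) * (12 * d * C2 * q * (q * R * (φ' - φ) * u) * q) := by
              rw [← hq4]; ring
          _ ≤ 12 * d * C2 * q * (q * R * (φ' - φ) * u) * q := hmq _ (by positivity)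
          _ ≤ 12 * d * C2 * q * (q * R * (φ' - φ) * u) * 1 :=
              mul_le_mul_of_nonneg_left hq1 (by positivity)
          _ = _ := by ring
      have hb2 : m * (k * h) * (4 * d * (C2 * 3 * (φ' - φ) * R * ((s ^ 5)⁻¹ * u) * k)) /
          (q ^ 6 * R * (φ' - φ) * u) ≤ 12 * d * C2 * q := by
        rw [div_le_iff₀ (by positivity)]
        calc m * (k * h) * (4 * d * (C2 * 3 * (φ' - φ) * R * ((s ^ 5)⁻¹ * u) * k))
            = (m * h) * (q * (s ^ 5)⁻¹) * (12 * d * C2 * q * (q ^ 6 * R * (φ' - φ) * u)) := by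
              rw [← hq4]; ring
          _ ≤ 12 * d * C2 * q * (q ^ 6 * R * (φ' - φ) * u) := hmq _ (by positivity)
      rw [← ENNReal.ofReal_add (by positivity) (by positivity)]
      exact ENNReal.ofReal_le_ofReal (by linarith))
  -- conclusion
  have hsub : {ω : ℕ → boxS d L → H | ‖traj (M.st β k h L) G ω m x‖ < k ^ (1 + 2 * e) * u} ⊆
      {ω | ω ∈ Reg ∧ ‖traj (M.st β k h L) G ω m x‖ ≤ k ^ (1 + 2 * e) * u} ∪
      ((RegS M β k h L G z m (s ^ 2))ᶜ ∪ (HopR M β k h L G x m (s ^ 2) (q ^ 2 * u))ᶜ) := by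
    intro ω hω
    by_cases h1 : ω ∈ RegS M β k h L G z m (s ^ 2)
    · by_cases h2 : ω ∈ HopR M β k h L G x m (s ^ 2) (q ^ 2 * u)
      · left
        refine ⟨?_, le_of_lt hω⟩
        rw [hRegd]
        exact ⟨h1, h2⟩
      · exact Or.inr (Or.inr h2)
    · exact Or.inr (Or.inl h1)
  refine (measure_mono hsub).trans ((measure_union_le _ _).trans
    ((add_le_add hsb ((measure_union_le _ _).trans (add_le_add hPS hPR))).trans ?_))
  have hp2s : 24 * d * C2 * q ≤ s := by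
    have h1 : q ≤ s ^ 2 := hqs.trans (pow_le_pow_of_le_one hspos.le hsle (by norm_num))
    calc 24 * d * C2 * q ≤ 24 * d * C2 * s ^ 2 := mul_le_mul_of_nonneg_left h1 (by positivity)
      _ = (24 * d * C2 * s) * s := by ring
      _ ≤ 1 * s := mul_le_mul_of_nonneg_right hsC2 hspos.le
      _ = s := one_mul s
  have hb3 : C3 * (m * h) / (s ^ 2) ^ 2 ≤ 3 * C3 * s := by
    rw [div_le_iff₀ (by positivity)]
    calc C3 * (m * h) ≤ C3 * (3 * s ^ 16) := mul_le_mul_of_nonneg_left hmh3 (by linarith)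
      _ = (3 * C3 * s * (s ^ 2) ^ 2) * s ^ 11 := by ring
      _ ≤ (3 * C3 * s * (s ^ 2) ^ 2) * 1 :=
          mul_le_mul_of_nonneg_left (pow_le_one₀ hspos.le hsle) (by positivity)
      _ = _ := mul_one _
  have hb4 : m * (k * h) * (4 * d * (C1 * 3 * ((s ^ 5)⁻¹ * u))) / (q ^ 2 * u) ≤
      36 * d * C1 * s := by
    rw [div_le_iff₀ (by positivity)]
    calc m * (k * h) * (4 * d * (C1 * 3 * ((s ^ 5)⁻¹ * u)))
        = (m * h) * (q * (s ^ 5)⁻¹) * (12 * d * C1 * q * (q ^ 2 * u)) := by rw [← hq4]; ring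
      _ ≤ 1 * (12 * d * C1 * q * (q ^ 2 * u)) := by
          refine mul_le_mul_of_nonneg_right ?_ (by positivity)
          calc (m * h) * (q * (s ^ 5)⁻¹) ≤ 1 * 1 :=
                mul_le_mul hmh1 hq5 (by positivity) zero_le_one
            _ = 1 := one_mul 1
      _ = (12 * d * C1 * (q ^ 2 * u)) * q := by ring
      _ ≤ (12 * d * C1 * (q ^ 2 * u)) * s := mul_le_mul_of_nonneg_left hqle (by positivity)
      _ ≤ 36 * d * C1 * s * (q ^ 2 * u) := by
          have : 0 ≤ d * C1 * s * (q ^ 2 * u) := by positivity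
          linarith
  have hb5 : Cr * s ^ 8 ≤ Cr * s := by
    refine mul_le_mul_of_nonneg_left ?_ hCr.le
    calc s ^ 8 ≤ s ^ 1 := pow_le_pow_of_le_one hspos.le hsle (by norm_num)
      _ = s := pow_one s
  have hfin := Hop_fin (s := s) (K := K) (b := Cr * s ^ 8 + (C3 * (m * h) / (s ^ 2) ^ 2 +
      m * (k * h) * (4 * d * (C1 * 3 * ((s ^ 5)⁻¹ * u))) / (q ^ 2 * u)))
    (p2 := 24 * d * C2 * q) hspos hsle hK hsK (by positivity) hp2s (by
      rw [hKd]
      have : (3 * C3 + 36 * d * C1 + Cr) * s = 3 * C3 * s + 36 * d * C1 * s + Cr * s := by ring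
      rw [this]
      linarith)
  rw [← hs425, ← ENNReal.ofReal_add (by positivity) (by positivity),
    ← ENNReal.ofReal_add (by positivity) (by positivity),
    ← ENNReal.ofReal_add (by positivity) (by positivity)]
  exact ENNReal.ofReal_le_ofReal hfin

end

end DynC

end

/-! ### from `Lib_MP_36b788c.CUp` -/

section

/-!
# Catching up along a path

`u0 = ‖G z‖`, `z` the maximizer of `‖G v‖ k^{dist x v}` (`x` is the target), `m = dist x z ≤ m0`. After `n` steps, `n h ≤ k^c`: `‖G_n x‖ ≥ k^{m+e'} u0` and `‖G_n v‖ ≤ k^{m - (1+e') dist x v - e'} u0` for all `v`.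

PROOF. Exponents `e_i = 32^{i-m0} e_m0'`, `e_{i+1} = 32 e_i`, the last one `≤ min(e1, e'/4)`; `ε'' ≤ e_1/(64(1+m0))`, small compared with `e_1/(4β)` as well; `ε0 = e_1/(16(1+β))`. Path `p_0 = z, …, p_m = x`, `p_{i+1} ∈ nb p_i`, `dist x p_i = m - i` (`toward`). `N_i = Σ_{j ≤ i} 2⌈k^{e_j}/h⌉`.
(1) Upper bounds: `U v = k^{m - dist x v} u0` satisfies `k cpl U ≤ 4d U`, `‖G v‖ ≤ U v`: `fm1` with `φ = 0` gives `E‖G_n v‖ ≤ C U v` for `n h ≤ 1`. Markov and a union over `v` (`Σ_v k^{ε'' dist x v} ≤ 3^d`, `sum_half`): with probability `≥ 1 - C k^{ε''}`, `‖G_n v‖ ≤ k^{-ε''(1+dist x v)} U v` for all `v`; used at the times `N_0, …, N_m`.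
(2) Claim: with probability `≥ 1 - Σ_{j ≤ i}(k^{e_j/100} + C k^{ε''})`: `‖G_{N_i} p_i‖ ≥ k^{i + 3 e_i} u0`. Step `i → i+1`: state at time `N_i` (Markov property, `lintegral_glue`/`traj_glue_add`), `hop` with `z := p_i`, `x := p_{i+1}`, `e := e_{i+1}`: `dist x v ≤ (m-i-1) + dist v p_{i+1}`, so
`‖G_{N_i} v‖ ≤ k^{m - dist x v - ε''(1+dist x v)} u0 ≤ k^{1 - dist v p_{i+1} - ε''(1 + m0 + dist v p_{i+1}) - 3e_i} ‖G_{N_i} p_i‖`, and `ε''(1+m0) + 3 e_i ≤ e_{i+1}/4`, `ε'' ≤ e_{i+1}/16`. Size: `‖G_{N_i} p_i‖ ≤ k^{i - ε''(1+m0)} u0 ≤ k^{-ε''(1+m0) - ε0} ≤ k^{-e_{i+1}/(4β)}`. Result: `≥ k^{1+2e_{i+1}} k^{i+3e_i} u0 ≥ k^{i+1+3e_{i+1}} u0`.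
For `m = 0` nothing has to be done: `n = 0`.
-/

open MeasureTheory ProbabilityTheory
open scoped ENNReal

namespace DynC

open Dyn

private theorem CUp_small (ε b : ℝ) (hε : 0 < ε) (hb : 0 < b) :
    ∀ᶠ k : ℝ in nhdsWithin 0 (Set.Ioi 0), k ^ ε ≤ b := by
  have h1 : Filter.Tendsto (fun k : ℝ => k ^ ε) (nhds 0) (nhds 0) := by
    have h := (Real.continuousAt_rpow_const 0 ε (Or.inr hε.le)).tendsto
    rwa [Real.zero_rpow hε.ne'] at h
  exact (h1.mono_left nhdsWithin_le_nhds).eventually (Iic_mem_nhds hb)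

private theorem CUp_markov {Ω : Type} [MeasurableSpace Ω] (μ : Measure Ω) (f : Ω → ℝ)
    (hf : Measurable f) (C b t : ℝ) (hb : 0 ≤ b) (ht : 0 < t)
    (h : ∫⁻ ω, ENNReal.ofReal (f ω) ∂μ ≤ ENNReal.ofReal (C * b)) :
    μ {ω | t * b < f ω} ≤ ENNReal.ofReal (C / t) := by
  rcases hb.eq_or_lt with hb0 | hb0
  · subst hb0
    have h0 : ∫⁻ ω, ENNReal.ofReal (f ω) ∂μ = 0 := by simpa using h
    rw [lintegral_eq_zero_iff hf.ennreal_ofReal] at h0
    have h2 : μ {ω | t * 0 < f ω} = 0 := by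
      have h3 : {ω | t * 0 < f ω} ⊆ {ω | ¬ (fun ω => ENNReal.ofReal (f ω)) ω = (0 : Ω → ℝ≥0∞) ω} := by
        intro ω hω
        have hω' : t * 0 < f ω := hω
        show ¬ ENNReal.ofReal (f ω) = 0
        rw [mul_zero] at hω'
        simpa using hω'
      exact measure_mono_null h3 h0
    rw [h2]
    exact zero_le
  · have h1 := mul_meas_ge_le_lintegral (μ := μ) hf.ennreal_ofReal (ENNReal.ofReal (t * b))
    have hsub : {ω | t * b < f ω} ⊆ {ω | ENNReal.ofReal (t * b) ≤ ENNReal.ofReal (f ω)} := by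
      intro ω hω
      exact ENNReal.ofReal_le_ofReal (le_of_lt hω)
    have hpos : 0 < t * b := mul_pos ht hb0
    have h2 : ENNReal.ofReal (t * b) * μ {ω | t * b < f ω} ≤ ENNReal.ofReal (t * b) * ENNReal.ofReal (C / t) := by
      calc ENNReal.ofReal (t * b) * μ {ω | t * b < f ω}
          ≤ ENNReal.ofReal (t * b) * μ {ω | ENNReal.ofReal (t * b) ≤ ENNReal.ofReal (f ω)} := by
            gcongr
        _ ≤ ENNReal.ofReal (C * b) := h1.trans h
        _ = ENNReal.ofReal (t * b) * ENNReal.ofReal (C / t) := by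
            rw [← ENNReal.ofReal_mul hpos.le]
            congr 1
            field_simp
    exact (ENNReal.mul_le_mul_iff_right (by simpa using hpos) ENNReal.ofReal_ne_top).mp h2

private theorem CUp_mp {St X : Type} [MeasurableSpace St] [MeasurableSpace X] (μ : Measure X)
    [IsProbabilityMeasure μ] (f : St → X → St) (hf : Measurable fun p : St × X => f p.1 p.2)
    (s : St) (N n : ℕ) (S : Set St) (hS : MeasurableSet S) (B : Set (ℕ → X)) (q : ℝ≥0∞)
    (h : ∀ a, a ∉ B → PI μ {b | traj f (traj f s a N) b n ∈ S} ≤ q) :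
    PI μ {ω | traj f s ω (N + n) ∈ S} ≤ PI μ B + q := by
  have : IsProbabilityMeasure (PI μ) := by unfold PI; infer_instance
  have hm : ∀ (s' : St) (j : ℕ), Measurable (fun ω : ℕ → X => traj f s' ω j) := fun s' j =>
    (measurable_traj f hf j).comp (measurable_const.prodMk measurable_id)
  have hE : MeasurableSet {ω : ℕ → X | traj f s ω (N + n) ∈ S} := hm s (N + n) hS
  have hE2 : ∀ s', MeasurableSet {ω : ℕ → X | traj f s' ω n ∈ S} := fun s' => hm s' n hS
  rw [← lintegral_indicator_one hE, lintegral_glue N _ (measurable_one.indicator hE)]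
  calc ∫⁻ a, ∫⁻ b, ({ω : ℕ → X | traj f s ω (N + n) ∈ S}.indicator 1) (glue N a b) ∂PI μ ∂PI μ
      ≤ ∫⁻ a, (B.indicator (fun _ => (1 : ℝ≥0∞)) a + q) ∂PI μ := by
        refine lintegral_mono fun a => ?_
        have h1 : ∫⁻ b, ({ω : ℕ → X | traj f s ω (N + n) ∈ S}.indicator 1) (glue N a b) ∂PI μ
            = PI μ {b | traj f (traj f s a N) b n ∈ S} := by
          rw [← lintegral_indicator_one (hE2 _)]
          refine lintegral_congr fun b => ?_
          have h2 : (glue N a b ∈ {ω : ℕ → X | traj f s ω (N + n) ∈ S}) ↔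
              (b ∈ {b | traj f (traj f s a N) b n ∈ S}) := by
            show traj f s (glue N a b) (N + n) ∈ S ↔ traj f (traj f s a N) b n ∈ S
            rw [traj_glue_add]
          by_cases hb : b ∈ {b | traj f (traj f s a N) b n ∈ S}
          · rw [Set.indicator_of_mem (h2.mpr hb), Set.indicator_of_mem hb]
            rfl
          · rw [Set.indicator_of_notMem (fun hc => hb (h2.mp hc)), Set.indicator_of_notMem hb]
        simp only [h1]
        by_cases ha : a ∈ B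
        · rw [Set.indicator_of_mem ha]
          exact prob_le_one.trans le_self_add
        · rw [Set.indicator_of_notMem ha, zero_add]
          exact h a ha
    _ = ∫⁻ a, B.indicator (fun _ => (1 : ℝ≥0∞)) a ∂PI μ + q := by
        rw [lintegral_add_right _ measurable_const, lintegral_const, measure_univ, mul_one]
    _ ≤ PI μ B + q := by
        gcongr
        exact (lintegral_indicator_const_le B 1).trans (by rw [one_mul])

section

variable {V H : Type} [NormedAddCommGroup V] [InnerProductSpace ℝ V] [MeasurableSpace V]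
  [BorelSpace V] [SecondCountableTopology V] [FiniteDimensional ℝ V]
  [NormedAddCommGroup H] [InnerProductSpace ℝ H] [MeasurableSpace H] [BorelSpace H]
  [SecondCountableTopology H]

private theorem CUp_up (M : MN V H) (d : ℕ) (β : ℝ) (hβ : 0 < β) : ∃ C' : ℝ, 0 < C' ∧
    ∀ (m : ℕ) (ε : ℝ), 0 < ε → ∀ k h : ℝ, 0 < k → k < 1 → k ^ ε ≤ 1 / 2 → 0 < h → h < 1 →
    ∀ (L : ℕ) (G : boxS d L → V) (x : boxS d L) (u : ℝ), 0 ≤ u →
    (∀ v, ‖G v‖ * k ^ (boxNet d L).dist x v ≤ u * k ^ m) →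
    ∀ n : ℕ, n * h ≤ 1 →
      PI (M.mu d L) {ω | ∃ v, k ^ ((m : ℝ) - (boxNet d L).dist x v -
          ε * (1 + (boxNet d L).dist x v)) * u < ‖traj (M.st β k h L) G ω n v‖} ≤
        ENNReal.ofReal (C' * k ^ ε) := by
  obtain ⟨C, hC, HF⟩ := fm1 M d β hβ
  refine ⟨C * Real.exp (4 * d) * 3 ^ d, by positivity, ?_⟩
  intro m ε hε k h hk hk1 hke hh hh1 L G x u hu hG n hn
  set net := boxNet d L with hnet
  let U : boxS d L → ℝ := fun v => prof k m 1 x v * u
  have hU0 : ∀ v, 0 ≤ U v := fun v => mul_nonneg (Real.rpow_nonneg hk.le _) hu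
  have hcpl : ∀ v, k * cpl net U v ≤ (4 * d) * U v := by
    intro v
    have h1 := prof_cpl (d := d) (L := L) k m 1 hk hk1 x v
    have h2 : (1 : ℝ) - max |1| 0 = 0 := by norm_num
    rw [h2, Real.rpow_zero, mul_one] at h1
    have h3 : cpl net U v = cpl net (prof k m 1 x) v * u := by
      simp only [cpl, U]
      rw [← Finset.sum_mul]
      ring
    rw [h3]
    calc k * (cpl net (prof k m 1 x) v * u) = (k * cpl net (prof k m 1 x) v) * u := by ring
      _ ≤ (4 * d * prof k m 1 x v) * u := by gcongr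
      _ = 4 * d * U v := by simp only [U]; ring
  have hGU : ∀ v, ‖G v‖ ≤ U v := by
    intro v
    have h1 := hG v
    have h2 : (0 : ℝ) < k ^ net.dist x v := pow_pos hk _
    have h3 : U v = u * k ^ m / k ^ net.dist x v := by
      simp only [U, prof]
      rw [one_mul, Real.rpow_sub hk, Real.rpow_natCast, Real.rpow_natCast, net.dist_comm v x]
      ring
    rw [h3, le_div_iff₀ h2]
    exact h1
  have hmeas : ∀ v, Measurable (fun ω : ℕ → boxS d L → H => ‖traj (M.st β k h L) G ω n v‖) := by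
    intro v
    have h1 : Measurable (fun ω : ℕ → boxS d L → H => traj (M.st β k h L) G ω n) :=
      (measurable_traj (M.st β k h L) (M.measurable_st β k h L) n).comp
        (measurable_const.prodMk measurable_id)
    exact measurable_norm.comp ((measurable_pi_apply v).comp h1)
  have hone : ∀ v, PI (M.mu d L) {ω | k ^ ((m : ℝ) - net.dist x v - ε * (1 + net.dist x v)) * u <
      ‖traj (M.st β k h L) G ω n v‖} ≤
      ENNReal.ofReal (C * Real.exp (4 * d) * k ^ ε * (1 / 2) ^ net.dist x v) := by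
    intro v
    have h1 := HF k h hk hk1 hh hh1 L x 1 le_rfl (by push_cast; linarith) 0 le_rfl zero_le_one G U
      (4 * d) (by positivity) hU0 hcpl hGU n v hn
    have h2 : ∀ ω, trs M β k h L G x 1 0 ω n v = traj (M.st β k h L) G ω n v := by
      intro ω
      unfold trs
      rw [zero_smul, add_zero]
    simp only [h2] at h1
    have ht : 0 < k ^ (-(ε * (1 + net.dist x v))) := Real.rpow_pos_of_pos hk _
    have h3 := CUp_markov (PI (M.mu d L)) (fun ω => ‖traj (M.st β k h L) G ω n v‖) (hmeas v)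
      (C * Real.exp (4 * d * (n * h))) (U v) (k ^ (-(ε * (1 + net.dist x v)))) (hU0 v) ht h1
    have h4 : k ^ ((m : ℝ) - net.dist x v - ε * (1 + net.dist x v)) * u =
        k ^ (-(ε * (1 + net.dist x v))) * U v := by
      simp only [U, prof]
      rw [← mul_assoc, ← Real.rpow_add hk, net.dist_comm v x]
      congr 2
      ring
    rw [h4]
    refine h3.trans (ENNReal.ofReal_le_ofReal ?_)
    have h5 : k ^ (ε * (1 + (net.dist x v : ℝ))) ≤ k ^ ε * (1 / 2) ^ net.dist x v := by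
      rw [mul_add, mul_one, Real.rpow_add hk, Real.rpow_mul hk.le, Real.rpow_natCast]
      have : 0 ≤ k ^ ε := Real.rpow_nonneg hk.le _
      gcongr
    have h6 : Real.exp (4 * d * (n * h)) ≤ Real.exp (4 * d) := by
      refine Real.exp_le_exp.mpr ?_
      have : (0 : ℝ) ≤ 4 * d := by positivity
      nlinarith
    rw [Real.rpow_neg hk.le, div_inv_eq_mul]
    calc C * Real.exp (4 * d * (n * h)) * k ^ (ε * (1 + (net.dist x v : ℝ)))
        ≤ C * Real.exp (4 * d) * (k ^ ε * (1 / 2) ^ net.dist x v) := by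
          have : 0 ≤ k ^ (ε * (1 + (net.dist x v : ℝ))) := Real.rpow_nonneg hk.le _
          gcongr
      _ = _ := by ring
  have hset : {ω | ∃ v, k ^ ((m : ℝ) - net.dist x v - ε * (1 + net.dist x v)) * u <
      ‖traj (M.st β k h L) G ω n v‖} = ⋃ v, {ω | k ^ ((m : ℝ) - net.dist x v -
        ε * (1 + net.dist x v)) * u < ‖traj (M.st β k h L) G ω n v‖} := by
    ext ω
    simp
  rw [hset]
  calc PI (M.mu d L) (⋃ v, {ω | k ^ ((m : ℝ) - net.dist x v -
        ε * (1 + net.dist x v)) * u < ‖traj (M.st β k h L) G ω n v‖})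
      ≤ ∑ v, PI (M.mu d L) {ω | k ^ ((m : ℝ) - net.dist x v -
        ε * (1 + net.dist x v)) * u < ‖traj (M.st β k h L) G ω n v‖} :=
        measure_iUnion_fintype_le _ _
    _ ≤ ∑ v, ENNReal.ofReal (C * Real.exp (4 * d) * k ^ ε * (1 / 2) ^ net.dist x v) :=
        Finset.sum_le_sum fun v _ => hone v
    _ = ENNReal.ofReal (∑ v, C * Real.exp (4 * d) * k ^ ε * (1 / 2) ^ net.dist x v) := by
        rw [ENNReal.ofReal_sum_of_nonneg]
        intro v _
        have : 0 ≤ k ^ ε := Real.rpow_nonneg hk.le _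
        positivity
    _ ≤ ENNReal.ofReal (C * Real.exp (4 * d) * 3 ^ d * k ^ ε) := by
        refine ENNReal.ofReal_le_ofReal ?_
        rw [← Finset.mul_sum]
        have h1 := net.sum_half x
        have : 0 ≤ k ^ ε := Real.rpow_nonneg hk.le _
        calc C * Real.exp (4 * d) * k ^ ε * ∑ v, (1 / 2 : ℝ) ^ net.dist x v
            ≤ C * Real.exp (4 * d) * k ^ ε * 3 ^ d := by gcongr
          _ = _ := by ring

theorem catch_up (M : MN V H) (d : ℕ) (β : ℝ) (hβ : 0 < β) (m0 : ℕ) (e' : ℝ) (he' : 0 < e') :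
    ∃ ε0 c k0 : ℝ, 0 < ε0 ∧ 0 < c ∧ 0 < k0 ∧ k0 < 1 ∧
    ∀ k, 0 < k → k < k0 → ∃ h0 : ℝ, 0 < h0 ∧ ∀ h, 0 < h → h < h0 → ∀ m : ℕ, m ≤ m0 →
    ∃ n : ℕ, n * h ≤ k ^ c ∧
    ∀ (L : ℕ) (G : boxS d L → V) (z x : boxS d L), (boxNet d L).dist x z = m →
    (∀ v, ‖G v‖ * k ^ (boxNet d L).dist x v ≤ ‖G z‖ * k ^ m) →
    ‖G z‖ ≤ k ^ (-ε0) →
      PI (M.mu d L) {ω | ‖traj (M.st β k h L) G ω n x‖ < k ^ (m + e') * ‖G z‖ ∨
          ∃ v, k ^ (m - (1 + e') * (boxNet d L).dist x v - e') * ‖G z‖ <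
            ‖traj (M.st β k h L) G ω n v‖}
        ≤ ENNReal.ofReal (k ^ c) := by
  obtain ⟨C', hC', HU⟩ := CUp_up M d β hβ
  obtain ⟨e1, he1, HH⟩ := hop M d β hβ
  obtain ⟨E, hEdef⟩ : ∃ E : ℝ, E = min e1 (e' / 4) / 32 ^ m0 := ⟨_, rfl⟩
  have hmin : 0 < min e1 (e' / 4) := lt_min he1 (by linarith)
  have hE0 : 0 < E := by rw [hEdef]; positivity
  obtain ⟨e, hedef⟩ : ∃ e : ℕ → ℝ, ∀ j, e j = E * 32 ^ j := ⟨_, fun j => rfl⟩
  have he_pos : ∀ j, 0 < e j := fun j => by rw [hedef]; positivity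
  have he_le : ∀ j, j ≤ m0 → e j ≤ min e1 (e' / 4) := by
    intro j hj
    rw [hedef, hEdef, div_mul_eq_mul_div, div_le_iff₀ (by positivity)]
    have : (32 : ℝ) ^ j ≤ 32 ^ m0 := pow_le_pow_right₀ (by norm_num) hj
    gcongr
  have he_succ : ∀ j, e (j + 1) = 32 * e j := fun j => by rw [hedef, hedef, pow_succ]; ring
  have he_ge : ∀ j, E ≤ e j := by
    intro j
    rw [hedef]
    have : (1 : ℝ) ≤ 32 ^ j := one_le_pow₀ (by norm_num)
    nlinarith
  obtain ⟨ε, hεdef⟩ : ∃ ε : ℝ, ε = E / ((1 + m0) * (1 + β)) := ⟨_, rfl⟩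
  have hε0 : 0 < ε := by rw [hεdef]; positivity
  have hε1 : ε * (1 + m0) = E / (1 + β) := by rw [hεdef]; field_simp
  have hEβ : E / (1 + β) ≤ E := div_le_self hE0.le (by linarith)
  have hεE : ε ≤ E := by
    have : ε ≤ ε * (1 + m0) := by
      have : (0 : ℝ) ≤ m0 := Nat.cast_nonneg _
      nlinarith
    linarith
  obtain ⟨K, hKdef⟩ : ∃ K : ℝ, K = 4 * m0 + m0 * (C' + 1) + C' + 1 := ⟨_, rfl⟩
  have hK0 : 0 < K := by rw [hKdef]; positivity
  obtain ⟨c, hcdef⟩ : ∃ c : ℝ, c = ε / 200 := ⟨_, rfl⟩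
  have hc0 : 0 < c := by rw [hcdef]; positivity
  have hop' : ∀ j ∈ Finset.range m0, ∀ᶠ k : ℝ in nhdsWithin 0 (Set.Ioi 0),
      ∀ᶠ h : ℝ in nhdsWithin 0 (Set.Ioi 0),
      ∀ (L : ℕ) (G : boxS d L → V) (z x : boxS d L), x ∈ (boxNet d L).nb z →
      (∀ v, ‖G v‖ ≤ k ^ (1 - e (j + 1) / 4 - (1 + e (j + 1) / 16) * (boxNet d L).dist v x) *
        ‖G z‖) →
      ‖G z‖ ≤ k ^ (-(e (j + 1) / (4 * β))) →
      PI (M.mu d L) {ω | ‖traj (M.st β k h L) G ω (2 * ⌈k ^ e (j + 1) / h⌉₊) x‖ <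
        k ^ (1 + 2 * e (j + 1)) * ‖G z‖} ≤ ENNReal.ofReal (k ^ (e (j + 1) / 100)) := by
    intro j hj
    obtain ⟨k1, hk1, -, hk⟩ := HH (e (j + 1)) (he_pos _)
      ((he_le (j + 1) (Finset.mem_range.mp hj)).trans (min_le_left _ _))
    refine (nhdsGT_basis 0).eventually_iff.mpr ⟨k1, hk1, fun k hkk => ?_⟩
    obtain ⟨h1, hh1, hh⟩ := hk k hkk.1 hkk.2
    exact (nhdsGT_basis 0).eventually_iff.mpr ⟨h1, hh1, fun h hhh => hh h hhh.1 hhh.2⟩
  have hall := (Filter.eventually_all_finset (Finset.range m0)).mpr hop'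
  have hev := hall.and ((CUp_small ε (1 / 2) hε0 (by norm_num)).and
    (CUp_small c (1 / K) hc0 (by positivity)))
  obtain ⟨k1, hk1, hk⟩ := (nhdsGT_basis 0).eventually_iff.mp hev
  refine ⟨E / (1 + β), c, min k1 (1 / 2), by positivity, hc0, lt_min hk1 (by norm_num),
    (min_le_right _ _).trans_lt (by norm_num), fun k hk0 hkk => ?_⟩
  obtain ⟨hA, hB, hCc⟩ := hk ⟨hk0, lt_of_lt_of_le hkk (min_le_left _ _)⟩
  have hkone : k < 1 := (lt_of_lt_of_le hkk (min_le_right _ _)).trans (by norm_num)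
  have hh := (Filter.eventually_all_finset (Finset.range m0)).mpr hA
  obtain ⟨h1, hh1, hhh⟩ := (nhdsGT_basis 0).eventually_iff.mp hh
  have hkc : 0 < k ^ (2 * c) := Real.rpow_pos_of_pos hk0 _
  have hkc1 : 0 < k ^ c := Real.rpow_pos_of_pos hk0 _
  have hcc : k ^ (2 * c) = k ^ c * k ^ c := by rw [← Real.rpow_add hk0]; congr 1; ring
  have hKc : K * k ^ (2 * c) ≤ k ^ c := by
    rw [hcc]
    have h2 : K * k ^ c ≤ 1 := by
      calc K * k ^ c ≤ K * (1 / K) := by gcongr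
        _ = 1 := by field_simp
    nlinarith
  refine ⟨min h1 (min (k ^ (2 * c)) (1 / 2)), lt_min hh1 (lt_min hkc (by norm_num)),
    fun h hh0 hhlt m hm => ?_⟩
  have hH := hhh (x := h) ⟨hh0, lt_of_lt_of_le hhlt (min_le_left _ _)⟩
  have hhk : h ≤ k ^ (2 * c) :=
    (lt_of_lt_of_le hhlt ((min_le_right _ _).trans (min_le_left _ _))).le
  have hhone : h < 1 :=
    (lt_of_lt_of_le hhlt ((min_le_right _ _).trans (min_le_right _ _))).trans (by norm_num)
  obtain ⟨N, hNdef⟩ : ∃ N : ℕ → ℕ, ∀ i, N i = ∑ j ∈ Finset.range i, 2 * ⌈k ^ e (j + 1) / h⌉₊ :=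
    ⟨_, fun i => rfl⟩
  have hk_le : ∀ a : ℝ, 2 * c ≤ a → k ^ a ≤ k ^ (2 * c) := fun a ha =>
    Real.rpow_le_rpow_of_exponent_ge hk0 hkone.le ha
  have hNh : ∀ i, i ≤ m0 → (N i : ℝ) * h ≤ k ^ c := by
    intro i hi
    have h2 : (N i : ℝ) * h ≤ ∑ j ∈ Finset.range i, 4 * k ^ (2 * c) := by
      rw [hNdef, Nat.cast_sum, Finset.sum_mul]
      refine Finset.sum_le_sum fun j _ => ?_
      have h3 : (⌈k ^ e (j + 1) / h⌉₊ : ℝ) < k ^ e (j + 1) / h + 1 :=
        Nat.ceil_lt_add_one (div_nonneg (Real.rpow_nonneg hk0.le _) hh0.le)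
      have h4 : k ^ e (j + 1) ≤ k ^ (2 * c) := by
        refine hk_le _ ?_
        have := he_ge (j + 1)
        rw [hcdef]
        linarith
      push_cast
      calc 2 * (⌈k ^ e (j + 1) / h⌉₊ : ℝ) * h ≤ 2 * (k ^ e (j + 1) / h + 1) * h := by gcongr
        _ = 2 * (k ^ e (j + 1) + h) := by field_simp
        _ ≤ 2 * (k ^ (2 * c) + k ^ (2 * c)) := by gcongr
        _ = 4 * k ^ (2 * c) := by ring
    rw [Finset.sum_const, Finset.card_range, nsmul_eq_mul] at h2
    have h3 : (i : ℝ) ≤ m0 := by exact_mod_cast hi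
    have h4 : (4 : ℝ) * m0 ≤ K := by
      rw [hKdef]
      have : 0 ≤ (m0 : ℝ) * (C' + 1) := by positivity
      linarith
    calc (N i : ℝ) * h ≤ i * (4 * k ^ (2 * c)) := h2
      _ ≤ m0 * (4 * k ^ (2 * c)) := by gcongr
      _ = 4 * m0 * k ^ (2 * c) := by ring
      _ ≤ K * k ^ (2 * c) := by gcongr
      _ ≤ k ^ c := hKc
  have hkcle : k ^ c ≤ 1 := Real.rpow_le_one hk0.le hkone.le hc0.le
  refine ⟨N m, hNh m hm, ?_⟩
  intro L G z x hz hG hu
  set net := boxNet d L with hnet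
  set f := M.st (d := d) β k h L with hf
  set u := ‖G z‖ with hudef
  have hu0 : 0 ≤ u := norm_nonneg _
  have hUp : ∀ i, i ≤ m → PI (M.mu d L) {ω | ∃ v, k ^ ((m : ℝ) - net.dist x v -
      ε * (1 + net.dist x v)) * u < ‖traj f G ω (N i) v‖} ≤ ENNReal.ofReal (C' * k ^ ε) :=
    fun i hi => HU m ε hε0 k h hk0 hkone hB hh0 hhone L G x u hu0 hG (N i)
      ((hNh i (hi.trans hm)).trans hkcle)
  have hmR : (m : ℝ) ≤ m0 := by exact_mod_cast hm
  have main : ∀ i, i ≤ m → ∃ p : boxS d L, net.dist x p + i = m ∧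
      PI (M.mu d L) {ω | ‖traj f G ω (N i) p‖ < k ^ ((i : ℝ) + 3 * e i) * u} ≤
        i * ENNReal.ofReal (C' * k ^ ε + k ^ (E / 100)) := by
    intro i
    induction i with
    | zero =>
      intro _
      refine ⟨z, by simpa using hz, ?_⟩
      have hN0 : N 0 = 0 := by rw [hNdef]; simp
      have hempty : {ω : ℕ → boxS d L → H | ‖traj f G ω (N 0) z‖ <
          k ^ (((0 : ℕ) : ℝ) + 3 * e 0) * u} = ∅ := by
        rw [Set.eq_empty_iff_forall_notMem]
        intro ω hω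
        have h2 : ‖traj f G ω (N 0) z‖ < k ^ (((0 : ℕ) : ℝ) + 3 * e 0) * u := hω
        rw [hN0] at h2
        have h3 : k ^ (((0 : ℕ) : ℝ) + 3 * e 0) ≤ 1 := by
          refine Real.rpow_le_one hk0.le hkone.le ?_
          have := he_pos 0
          push_cast
          linarith
        have h4 : ‖traj f G ω 0 z‖ = u := rfl
        rw [h4] at h2
        nlinarith
      rw [hempty, measure_empty]
      exact zero_le
    | succ i ih =>
      intro hi
      obtain ⟨p, hp, hP⟩ := ih (by omega)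
      have hpx : p ≠ x := by
        rintro rfl
        rw [net.dist_self] at hp
        omega
      obtain ⟨q, hq, hqd⟩ := net.toward x p hpx
      refine ⟨q, by omega, ?_⟩
      have hsum : N (i + 1) = N i + 2 * ⌈k ^ e (i + 1) / h⌉₊ := by
        rw [hNdef, hNdef, Finset.sum_range_succ]
      have hmS : MeasurableSet {G' : boxS d L → V |
          ‖G' q‖ < k ^ (((i + 1 : ℕ) : ℝ) + 3 * e (i + 1)) * u} :=
        measurableSet_lt (measurable_norm.comp (measurable_pi_apply q)) measurable_const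
      have hstep := CUp_mp (M.mu d L) f (M.measurable_st β k h L) G (N i)
        (2 * ⌈k ^ e (i + 1) / h⌉₊) {G' : boxS d L → V |
          ‖G' q‖ < k ^ (((i + 1 : ℕ) : ℝ) + 3 * e (i + 1)) * u} hmS
        ({ω | ‖traj f G ω (N i) p‖ < k ^ ((i : ℝ) + 3 * e i) * u} ∪
          {ω | ∃ v, k ^ ((m : ℝ) - net.dist x v -
            ε * (1 + net.dist x v)) * u < ‖traj f G ω (N i) v‖})
        (ENNReal.ofReal (k ^ (e (i + 1) / 100))) (by
          intro a ha
          rw [Set.mem_union, not_or] at ha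
          obtain ⟨ha1, ha2⟩ := ha
          obtain ⟨G', hG'⟩ : ∃ G', G' = traj f G a (N i) := ⟨_, rfl⟩
          have hlow : k ^ ((i : ℝ) + 3 * e i) * u ≤ ‖G' p‖ := by
            rw [hG']
            exact not_lt.mp ha1
          have hupp : ∀ v, ‖G' v‖ ≤ k ^ ((m : ℝ) - net.dist x v -
              ε * (1 + net.dist x v)) * u := by
            intro v
            rw [hG']
            by_contra hcon
            exact ha2 ⟨v, not_le.mp hcon⟩
          rw [← hG']
          have hes := he_succ i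
          have hei := he_ge i
          have heip := he_pos i
          have hiR : (i : ℝ) + 1 ≤ m := by exact_mod_cast hi
          have hpR : (net.dist x p : ℝ) + i = m := by exact_mod_cast hp
          have hqR : (net.dist x q : ℝ) + 1 = net.dist x p := by exact_mod_cast hqd
          have hεm : ε * (1 + (m : ℝ)) ≤ E / (1 + β) := by
            rw [← hε1]
            gcongr
          have hi0 : (0 : ℝ) ≤ i := Nat.cast_nonneg i
          refine (measure_mono ?_).trans (hH i (Finset.mem_range.mpr (by omega)) L G' p q hq ?_ ?_)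
          · intro b hb
            have hb' : ‖traj f G' b (2 * ⌈k ^ e (i + 1) / h⌉₊) q‖ <
              k ^ (((i + 1 : ℕ) : ℝ) + 3 * e (i + 1)) * u := hb
            show ‖traj f G' b (2 * ⌈k ^ e (i + 1) / h⌉₊) q‖ < k ^ (1 + 2 * e (i + 1)) * ‖G' p‖
            refine lt_of_lt_of_le hb' ?_
            calc k ^ (((i + 1 : ℕ) : ℝ) + 3 * e (i + 1)) * u
                ≤ k ^ (1 + 2 * e (i + 1) + ((i : ℝ) + 3 * e i)) * u := by
                  refine mul_le_mul_of_nonneg_right ?_ hu0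
                  refine Real.rpow_le_rpow_of_exponent_ge hk0 hkone.le ?_
                  push_cast
                  linarith
              _ = k ^ (1 + 2 * e (i + 1)) * (k ^ ((i : ℝ) + 3 * e i) * u) := by
                  rw [Real.rpow_add hk0, mul_assoc]
              _ ≤ _ := mul_le_mul_of_nonneg_left hlow (Real.rpow_nonneg hk0.le _)
          · intro v
            refine (hupp v).trans ?_
            calc k ^ ((m : ℝ) - net.dist x v - ε * (1 + net.dist x v)) * u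
                ≤ k ^ (1 - e (i + 1) / 4 - (1 + e (i + 1) / 16) * net.dist v q +
                    ((i : ℝ) + 3 * e i)) * u := by
                  refine mul_le_mul_of_nonneg_right ?_ hu0
                  refine Real.rpow_le_rpow_of_exponent_ge hk0 hkone.le ?_
                  have h5 : (net.dist x v : ℝ) ≤ net.dist x q + net.dist v q := by
                    have h6 := net.dist_tri x q v
                    rw [net.dist_comm q v] at h6
                    exact_mod_cast h6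
                  have hD0 : (0 : ℝ) ≤ net.dist v q := Nat.cast_nonneg _
                  have h7 : ε * (net.dist v q : ℝ) ≤ e (i + 1) / 16 * net.dist v q := by
                    refine mul_le_mul_of_nonneg_right ?_ hD0
                    linarith
                  have h8 : ε * (net.dist x v : ℝ) ≤ ε * (m - i - 1 + net.dist v q) := by
                    refine mul_le_mul_of_nonneg_left ?_ hε0.le
                    linarith
                  have h9 : 0 ≤ ε * i := by positivity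
                  have h10 : ε * (m : ℝ) ≤ E := by nlinarith
                  nlinarith
              _ = k ^ (1 - e (i + 1) / 4 - (1 + e (i + 1) / 16) * net.dist v q) *
                    (k ^ ((i : ℝ) + 3 * e i) * u) := by
                  rw [Real.rpow_add hk0, mul_assoc]
              _ ≤ _ := mul_le_mul_of_nonneg_left hlow (Real.rpow_nonneg hk0.le _)
          · refine (hupp p).trans ?_
            calc k ^ ((m : ℝ) - net.dist x p - ε * (1 + net.dist x p)) * u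
                ≤ k ^ ((m : ℝ) - net.dist x p - ε * (1 + net.dist x p)) * k ^ (-(E / (1 + β))) :=
                  mul_le_mul_of_nonneg_left hu (Real.rpow_nonneg hk0.le _)
              _ = k ^ ((m : ℝ) - net.dist x p - ε * (1 + net.dist x p) + -(E / (1 + β))) := by
                  rw [Real.rpow_add hk0]
              _ ≤ _ := by
                  refine Real.rpow_le_rpow_of_exponent_ge hk0 hkone.le ?_
                  have h5 : ε * (1 + (net.dist x p : ℝ)) ≤ E / (1 + β) := by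
                    refine le_trans (mul_le_mul_of_nonneg_left ?_ hε0.le) hεm
                    linarith
                  have h6 : 2 * (E / (1 + β)) ≤ e (i + 1) / (4 * β) := by
                    rw [mul_div_assoc', div_le_div_iff₀ (by positivity) (by positivity)]
                    have h7 : 32 * E ≤ e (i + 1) := by linarith
                    have h8 : 32 * E * (1 + β) ≤ e (i + 1) * (1 + β) :=
                      mul_le_mul_of_nonneg_right h7 (by linarith)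
                    nlinarith
                  linarith)
      rw [← hsum] at hstep
      refine hstep.trans ?_
      have hE100 : k ^ (e (i + 1) / 100) ≤ k ^ (E / 100) := by
        refine Real.rpow_le_rpow_of_exponent_ge hk0 hkone.le ?_
        have := he_ge (i + 1)
        linarith
      calc PI (M.mu d L) ({ω | ‖traj f G ω (N i) p‖ < k ^ ((i : ℝ) + 3 * e i) * u} ∪
              {ω | ∃ v, k ^ ((m : ℝ) - net.dist x v -
              ε * (1 + net.dist x v)) * u < ‖traj f G ω (N i) v‖}) +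
              ENNReal.ofReal (k ^ (e (i + 1) / 100))
          ≤ (i * ENNReal.ofReal (C' * k ^ ε + k ^ (E / 100)) + ENNReal.ofReal (C' * k ^ ε)) +
              ENNReal.ofReal (k ^ (E / 100)) := by
            refine add_le_add ((measure_union_le _ _).trans (add_le_add hP (hUp i (by omega))))
              (ENNReal.ofReal_le_ofReal hE100)
        _ = ((i + 1 : ℕ) : ℝ≥0∞) * ENNReal.ofReal (C' * k ^ ε + k ^ (E / 100)) := by
            rw [add_assoc, ← ENNReal.ofReal_add (by positivity) (by positivity)]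
            push_cast
            ring
  obtain ⟨p, hp, hP⟩ := main m le_rfl
  have hpx : p = x := by
    by_contra hne
    have := net.dist_pos x p (Ne.symm hne)
    omega
  rw [hpx] at hP
  have h3e : 3 * e m ≤ e' := by
    have h2 := (he_le m hm).trans (min_le_right _ _)
    linarith
  have hεe' : ε ≤ e' := by
    have h2 := he_ge m
    have h3 := he_pos m
    linarith
  refine (measure_mono (t := {ω | ‖traj f G ω (N m) x‖ < k ^ ((m : ℝ) + 3 * e m) * u} ∪
    {ω | ∃ v, k ^ ((m : ℝ) - net.dist x v -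
      ε * (1 + net.dist x v)) * u < ‖traj f G ω (N m) v‖}) ?_).trans ?_
  · intro ω hω
    rcases hω with hω | ⟨v, hv⟩
    · left
      show ‖traj f G ω (N m) x‖ < k ^ ((m : ℝ) + 3 * e m) * u
      refine lt_of_lt_of_le hω (mul_le_mul_of_nonneg_right ?_ hu0)
      exact Real.rpow_le_rpow_of_exponent_ge hk0 hkone.le (by linarith)
    · right
      refine ⟨v, lt_of_le_of_lt (mul_le_mul_of_nonneg_right ?_ hu0) hv⟩
      refine Real.rpow_le_rpow_of_exponent_ge hk0 hkone.le ?_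
      have hD0 : (0 : ℝ) ≤ net.dist x v := Nat.cast_nonneg _
      nlinarith
  · refine (measure_union_le _ _).trans ((add_le_add hP (hUp m le_rfl)).trans ?_)
    have hm0 : (m : ℝ≥0∞) = ENNReal.ofReal (m : ℝ) := (ENNReal.ofReal_natCast m).symm
    have hkε : k ^ ε ≤ k ^ (2 * c) := hk_le _ (by rw [hcdef]; linarith)
    have hkE : k ^ (E / 100) ≤ k ^ (2 * c) := hk_le _ (by rw [hcdef]; linarith)
    rw [hm0, ← ENNReal.ofReal_mul (Nat.cast_nonneg m),
      ← ENNReal.ofReal_add (by positivity) (by positivity)]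
    refine ENNReal.ofReal_le_ofReal ?_
    calc (m : ℝ) * (C' * k ^ ε + k ^ (E / 100)) + C' * k ^ ε
        ≤ m0 * (C' * k ^ (2 * c) + k ^ (2 * c)) + C' * k ^ (2 * c) := by gcongr
      _ = (m0 * (C' + 1) + C') * k ^ (2 * c) := by ring
      _ ≤ K * k ^ (2 * c) := by
          refine mul_le_mul_of_nonneg_right ?_ hkc.le
          rw [hKdef]
          have : (0 : ℝ) ≤ 4 * m0 := by positivity
          linarith
      _ ≤ k ^ c := hKc

end

end DynC

end
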