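import Pool.Agent.Lib_MP_36b788_m.M02
import Pool.Agent.Lib_MP_36b788_m.M05
import Pool.Agent.Lib_MP_36b788_m.M06
import Pool.Agent.Lib_MP_36b788_m.M08

/-!
# MP_36b788_pr, stationary limit: merged library part M19

Concatenation of smaller files (each in its own section), only to save build time.
-/

/-! ### from `Lib_MP_36b788g.PS3` -/

section

/-!
# The pair system for `N ≥ 3`

Common noise `ζ`, frames: the unit vector `e1` is carried by `fr1` to the direction of the first component and by `fr2` to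
the direction of the second one (`fr2 = (rotation direction 1 → direction 2) ∘ fr1`). `b = log ‖e1 + √h ζ‖`.
A zero component gets the direction `e1`.
-/

open MeasureTheory ProbabilityTheory
open scoped ENNReal

namespace DynC

open Dyn DynS

noncomputable section

variable {N d : ℕ}

/-- first unit vector -/
def e1v (hN : 3 ≤ N) : E N := EuclideanSpace.single (⟨0, by omega⟩ : Fin N) (1 : ℝ)

open Classical in
/-- direction, `e1` for the zero vector -/
def unv (hN : 3 ≤ N) (g : E N) : E N := if g = 0 then e1v hN else uni g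

/-- frame of the first component -/
def fr1 (hN : 3 ≤ N) (g : E N) : E N ≃ₗᵢ[ℝ] E N := rotQ (e1v hN) (unv hN g)

/-- frame of the second component -/
def fr2 (hN : 3 ≤ N) (g g' : E N) : E N ≃ₗᵢ[ℝ] E N := (fr1 hN g).trans (rotQ (unv hN g) (unv hN g'))

/-- scalar noise -/
def bE (hN : 3 ≤ N) (h : ℝ) (ζ : E N) : ℝ := Real.log ‖e1v hN + Real.sqrt h • ζ‖

/-- good noise -/
def gdE (hN : 3 ≤ N) (h : ℝ) : Set (E N) :=
  {ζ | e1v hN + Real.sqrt h • ζ ≠ 0 ∧ Real.sqrt h * ‖ζ‖ ≤ h ^ (3 / 8 : ℝ) ∧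
    |bE hN h ζ| ≤ 2 * h ^ (3 / 8 : ℝ)}

/-- pair step -/
def st3 (hN : 3 ≤ N) (β k h : ℝ) (L : ℕ) (G : (boxS d L → E N) × (boxS d L → E N))
    (ζ : boxS d L → E N) : (boxS d L → E N) × (boxS d L → E N) :=
  (stp (boxNet d L) β h k G.1 (fun x => fr1 hN (G.1 x) (ζ x)),
    stp (boxNet d L) β h k G.2 (fun x => fr2 hN (G.1 x) (G.2 x) (ζ x)))

theorem e1v_norm (hN : 3 ≤ N) : ‖e1v hN‖ = 1 := by
  unfold e1v
  simp

theorem unv_norm (hN : 3 ≤ N) (g : E N) : ‖unv hN g‖ = 1 := by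
  unfold unv
  split_ifs with hg
  · exact e1v_norm hN
  · exact uni_norm hg

theorem unv_smul (hN : 3 ≤ N) (g : E N) : ‖g‖ • unv hN g = g := by
  unfold unv
  split_ifs with hg
  · rw [hg, norm_zero, zero_smul]
  · have : ‖g‖ ≠ 0 := norm_ne_zero_iff.mpr hg
    unfold uni
    rw [smul_smul, mul_one_div_cancel this, one_smul]

theorem fr1_map (hN : 3 ≤ N) (g : E N) : fr1 hN g (e1v hN) = unv hN g :=
  rotQ_map (e1v_norm hN) (unv_norm hN g)

theorem fr2_map (hN : 3 ≤ N) (g g' : E N) : fr2 hN g g' (e1v hN) = unv hN g' := by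
  change rotQ (unv hN g) (unv hN g') (fr1 hN g (e1v hN)) = _
  rw [fr1_map]
  exact rotQ_map (unv_norm hN g) (unv_norm hN g')

/-- value of the hat step in terms of the common vector -/
theorem hat_frame (hN : 3 ≤ N) (β h : ℝ) (g : E N) (Q : E N ≃ₗᵢ[ℝ] E N)
    (hQ : Q (e1v hN) = unv hN g) (ζ : E N) :
    hat β h g (Q ζ) = JV β h (‖g‖ • Q (e1v hN + Real.sqrt h • ζ)) := by
  have h1 : g + (Real.sqrt h * ‖g‖) • Q ζ = ‖g‖ • Q (e1v hN + Real.sqrt h • ζ) := by
    rw [map_add, map_smul, hQ, smul_add, unv_smul, smul_smul, mul_comm]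
  change J β h (g + (Real.sqrt h * ‖g‖) • Q ζ) = _
  rw [h1]
  rfl

private theorem PS3_bexp (hN : 3 ≤ N) (h : ℝ) (ζ : E N) :
    ‖e1v hN + Real.sqrt h • ζ‖ ≤ Real.exp (bE hN h ζ) := by
  unfold bE
  rcases eq_or_ne (e1v hN + Real.sqrt h • ζ) 0 with h0 | h0
  · rw [h0, norm_zero]
    exact (Real.exp_pos _).le
  · rw [Real.exp_log (norm_pos_iff.mpr h0)]

private theorem PS3_bexp' (hN : 3 ≤ N) (h : ℝ) {ζ : E N} (hζ : ζ ∈ gdE hN h) :
    ‖e1v hN + Real.sqrt h • ζ‖ = Real.exp (bE hN h ζ) := by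
  unfold bE
  rw [Real.exp_log (norm_pos_iff.mpr hζ.1)]

theorem measurable_unv (hN : 3 ≤ N) : Measurable (unv hN : E N → E N) := by
  classical
  unfold unv
  exact Measurable.ite (measurableSet_singleton (0 : E N)) measurable_const measurable_uni

theorem measurable_fr1 (hN : 3 ≤ N) : Measurable (fun q : E N × E N => fr1 hN q.1 q.2) := by
  have h1 : Measurable (fun q : E N × E N => ((e1v hN, unv hN q.1), q.2)) := by
    exact (measurable_const.prodMk ((measurable_unv hN).comp measurable_fst)).prodMk measurable_snd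
  have h2 : Measurable (fun q : E N × E N => rotQ (e1v hN) (unv hN q.1) q.2) := by
    have h3 := measurable_rotQ.comp h1
    exact h3
  exact h2

theorem measurable_fr2 (hN : 3 ≤ N) :
    Measurable (fun q : (E N × E N) × E N => fr2 hN q.1.1 q.1.2 q.2) := by
  have a0 : Measurable (fun q : (E N × E N) × E N => (q.1.1, q.2)) :=
    (measurable_fst.comp measurable_fst).prodMk measurable_snd
  have h0 : Measurable (fun q : (E N × E N) × E N => fr1 hN q.1.1 q.2) := by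
    have h3 := (measurable_fr1 hN).comp a0
    exact h3
  have a1 : Measurable (fun q : (E N × E N) × E N => unv hN q.1.1) :=
    (measurable_unv hN).comp (measurable_fst.comp measurable_fst)
  have a2 : Measurable (fun q : (E N × E N) × E N => unv hN q.1.2) :=
    (measurable_unv hN).comp (measurable_snd.comp measurable_fst)
  have h1 : Measurable (fun q : (E N × E N) × E N =>
      ((unv hN q.1.1, unv hN q.1.2), fr1 hN q.1.1 q.2)) := (a1.prodMk a2).prodMk h0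
  have h2 : Measurable (fun q : (E N × E N) × E N =>
      rotQ (unv hN q.1.1) (unv hN q.1.2) (fr1 hN q.1.1 q.2)) := by
    have h3 := measurable_rotQ.comp h1
    exact h3
  exact h2

theorem measurable_bE (hN : 3 ≤ N) (h : ℝ) : Measurable (bE hN h) := by
  unfold bE
  have h1 : Measurable (fun ζ : E N => ‖e1v hN + Real.sqrt h • ζ‖) := by fun_prop
  exact Real.measurable_log.comp h1

theorem measurable_gdE (hN : 3 ≤ N) (h : ℝ) : MeasurableSet (gdE hN h) := by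
  have h1 : Measurable (fun ζ : E N => e1v hN + Real.sqrt h • ζ) := by fun_prop
  have s1 : MeasurableSet {ζ : E N | e1v hN + Real.sqrt h • ζ ≠ 0} :=
    (h1 (measurableSet_singleton (0 : E N))).compl
  have h2 : Measurable (fun ζ : E N => Real.sqrt h * ‖ζ‖) := by fun_prop
  have s2 : MeasurableSet {ζ : E N | Real.sqrt h * ‖ζ‖ ≤ h ^ (3 / 8 : ℝ)} :=
    measurableSet_le h2 measurable_const
  have h3 : Measurable (fun ζ : E N => |bE hN h ζ|) := (measurable_bE hN h).abs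
  have s3 : MeasurableSet {ζ : E N | |bE hN h ζ| ≤ 2 * h ^ (3 / 8 : ℝ)} :=
    measurableSet_le h3 measurable_const
  exact s1.inter (s2.inter s3)

private theorem PS3_iso (L : E N ≃ₗᵢ[ℝ] E N) : (stdGaussian (E N)).map L = stdGaussian (E N) :=
  stdGaussian_map L

theorem measurable_st3 (hN : 3 ≤ N) (β k h : ℝ) (L : ℕ) :
    Measurable fun p : ((boxS d L → E N) × (boxS d L → E N)) × (boxS d L → E N) =>
      st3 hN β k h L p.1 p.2 := by
  have p1 : ∀ x : boxS d L,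
      Measurable fun p : ((boxS d L → E N) × (boxS d L → E N)) × (boxS d L → E N) => p.1.1 x :=
    fun x => (measurable_pi_apply x).comp (measurable_fst.comp measurable_fst)
  have p2 : ∀ x : boxS d L,
      Measurable fun p : ((boxS d L → E N) × (boxS d L → E N)) × (boxS d L → E N) => p.1.2 x :=
    fun x => (measurable_pi_apply x).comp (measurable_snd.comp measurable_fst)
  have p3 : ∀ x : boxS d L,
      Measurable fun p : ((boxS d L → E N) × (boxS d L → E N)) × (boxS d L → E N) => p.2 x :=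
    fun x => (measurable_pi_apply x).comp measurable_snd
  have m1 : Measurable fun p : ((boxS d L → E N) × (boxS d L → E N)) × (boxS d L → E N) =>
      (fun x => fr1 hN (p.1.1 x) (p.2 x)) := by
    refine measurable_pi_lambda _ fun x => ?_
    have h3 := (measurable_fr1 hN).comp ((p1 x).prodMk (p3 x))
    exact h3
  have m2 : Measurable fun p : ((boxS d L → E N) × (boxS d L → E N)) × (boxS d L → E N) =>
      (fun x => fr2 hN (p.1.1 x) (p.1.2 x) (p.2 x)) := by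
    refine measurable_pi_lambda _ fun x => ?_
    have h3 := (measurable_fr2 hN).comp (((p1 x).prodMk (p2 x)).prodMk (p3 x))
    exact h3
  have q1 : Measurable fun p : ((boxS d L → E N) × (boxS d L → E N)) × (boxS d L → E N) =>
      (p.1.1, fun x => fr1 hN (p.1.1 x) (p.2 x)) := (measurable_fst.comp measurable_fst).prodMk m1
  have q2 : Measurable fun p : ((boxS d L → E N) × (boxS d L → E N)) × (boxS d L → E N) =>
      (p.1.2, fun x => fr2 hN (p.1.1 x) (p.1.2 x) (p.2 x)) :=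
    (measurable_snd.comp measurable_fst).prodMk m2
  have r1 := (measurable_stp N d β k h L).comp q1
  have r2 := (measurable_stp N d β k h L).comp q2
  have r3 := r1.prodMk r2
  exact r3

private theorem PS3_marg (β k h : ℝ) (L : ℕ) (g : boxS d L → E N)
    (Q : boxS d L → (E N ≃ₗᵢ[ℝ] E N)) :
    (Measure.pi (fun _ : boxS d L => stdGaussian (E N))).map
        (fun ω => stp (boxNet d L) β h k g (fun x => Q x (ω x))) =
      (Measure.pi (fun _ : boxS d L => stdGaussian (E N))).map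
        (fun ξ => stp (boxNet d L) β h k g ξ) := by
  have hst0 : Measurable (fun ξ : boxS d L → E N => (g, ξ)) :=
    measurable_const.prodMk measurable_id
  have hst1 := (measurable_stp N d β k h L).comp hst0
  have hst : Measurable (fun ξ : boxS d L → E N => stp (boxNet d L) β h k g ξ) := hst1
  have hp : MeasurePreserving (fun ω : boxS d L → E N => fun x => Q x (ω x))
      (Measure.pi (fun _ : boxS d L => stdGaussian (E N)))
      (Measure.pi (fun _ : boxS d L => stdGaussian (E N))) := by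
    refine measurePreserving_pi _ _ fun x => ?_
    exact ⟨(Q x).continuous.measurable, PS3_iso (Q x)⟩
  have h1 : (fun ω : boxS d L → E N => stp (boxNet d L) β h k g (fun x => Q x (ω x))) =
      (fun ξ => stp (boxNet d L) β h k g ξ) ∘ (fun ω => fun x => Q x (ω x)) := rfl
  rw [h1, ← Measure.map_map hst hp.measurable, hp.map_eq]

private theorem PS3_coup {L : ℕ} (net : Net (boxS d L) d) (G : boxS d L → E N) (x : boxS d L) :
    ‖coupV net G x‖ ≤ cpl net (nrm G) x := by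
  unfold coupV cpl nrm
  refine (norm_sub_le _ _).trans ?_
  refine add_le_add (norm_sum_le _ _) ?_
  rw [norm_smul, Real.norm_of_nonneg (Nat.cast_nonneg _)]

private theorem PS3_coup_sub {L : ℕ} (net : Net (boxS d L) d) (G G' : boxS d L → E N) (x : boxS d L) :
    coupV net G x - coupV net G' x = coupV net (fun y => G y - G' y) x := by
  unfold coupV
  rw [Finset.sum_sub_distrib, smul_sub]
  abel

private theorem PS3_u (hN : 3 ≤ N) {β k h : ℝ} (hβ : 0 < β) (hk : 0 ≤ k) (hh : 0 < h) (L : ℕ)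
    (g ω : boxS d L → E N) (Q : boxS d L → (E N ≃ₗᵢ[ℝ] E N))
    (hQ : ∀ x, Q x (e1v hN) = unv hN (g x)) (x : boxS d L) :
    nrm (stp (boxNet d L) β h k g (fun x => Q x (ω x))) x ≤
      Real.exp (bE hN h (ω x)) * nrm g x + k * h * cpl (boxNet d L) (nrm g) x := by
  have hc : ‖(k * h) • coupV (boxNet d L) g x‖ ≤ k * h * cpl (boxNet d L) (nrm g) x := by
    rw [norm_smul, Real.norm_of_nonneg (mul_nonneg hk hh.le)]
    exact mul_le_mul_of_nonneg_left (PS3_coup _ _ _) (mul_nonneg hk hh.le)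
  have h1 : ‖hat β h (g x) (Q x (ω x))‖ ≤ Real.exp (bE hN h (ω x)) * nrm g x := by
    rw [hat_frame hN β h (g x) (Q x) (hQ x), norm_JV hβ hh.le]
    refine (psi_le hβ hh.le (norm_nonneg _)).trans ?_
    rw [norm_smul, norm_norm, LinearIsometryEquiv.norm_map, mul_comm]
    exact mul_le_mul_of_nonneg_right (PS3_bexp hN h (ω x)) (norm_nonneg _)
  exact (norm_add_le _ _).trans (add_le_add h1 hc)

private theorem PS3_q (hN : 3 ≤ N) {β k h : ℝ} (hβ : 0 < β) (hk : 0 ≤ k) (hh : 0 < h) (L : ℕ)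
    (g ω : boxS d L → E N) (Q : boxS d L → (E N ≃ₗᵢ[ℝ] E N))
    (hQ : ∀ x, Q x (e1v hN) = unv hN (g x)) (hω : ∀ x, ω x ∈ gdE hN h) :
    QStep (boxNet d L) β h k (fun x => bE hN h (ω x)) (nrm g)
      (nrm (stp (boxNet d L) β h k g (fun x => Q x (ω x)))) := by
  have hc : ∀ x, ‖(k * h) • coupV (boxNet d L) g x‖ ≤ k * h * cpl (boxNet d L) (nrm g) x := by
    intro x
    rw [norm_smul, Real.norm_of_nonneg (mul_nonneg hk hh.le)]
    exact mul_le_mul_of_nonneg_left (PS3_coup _ _ _) (mul_nonneg hk hh.le)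
  have hJ : ∀ x, ‖hat β h (g x) (Q x (ω x))‖ = psi β h (Real.exp (bE hN h (ω x)) * nrm g x) := by
    intro x
    rw [hat_frame hN β h (g x) (Q x) (hQ x), norm_JV hβ hh.le, norm_smul, norm_norm,
      LinearIsometryEquiv.norm_map, PS3_bexp' hN h (hω x), mul_comm]
    rfl
  refine ⟨fun x => norm_nonneg _, fun x => norm_nonneg _, fun x => ?_, fun x => ?_⟩
  · change ‖hat β h (g x) (Q x (ω x)) + (k * h) • coupV (boxNet d L) g x‖ ≤ _
    refine (norm_add_le _ _).trans ?_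
    rw [hJ]
    exact add_le_add le_rfl (hc x)
  · change _ ≤ ‖hat β h (g x) (Q x (ω x)) + (k * h) • coupV (boxNet d L) g x‖
    have h1 := norm_sub_le (hat β h (g x) (Q x (ω x)) +
      (k * h) • coupV (boxNet d L) g x) ((k * h) • coupV (boxNet d L) g x)
    rw [add_sub_cancel_right, hJ] at h1
    have h2 := hc x
    linarith

/-- the rotated pair of vectors is at most `‖v‖` times the distance -/
private theorem PS3_dist (hN : 3 ≤ N) (g g' v : E N) :
    ‖‖g‖ • fr1 hN g v - ‖g'‖ • fr2 hN g g' v‖ ≤ ‖v‖ * ‖g - g'‖ := by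
  set w := fr1 hN g v with hw
  have hwv : ‖w‖ = ‖v‖ := LinearIsometryEquiv.norm_map _ _
  have h2 : fr2 hN g g' v = rotQ (unv hN g) (unv hN g') w := rfl
  rw [h2, ← hwv]
  set Q := rotQ (unv hN g) (unv hN g') with hQ
  have hQw : ‖Q w‖ = ‖w‖ := LinearIsometryEquiv.norm_map _ _
  have hc := rotQ_cos_le (unv_norm hN g) (unv_norm hN g') w
  rw [← hQ] at hc
  have e1 : ‖‖g‖ • w - ‖g'‖ • Q w‖ ^ 2 = ‖g‖ ^ 2 * ‖w‖ ^ 2 - 2 * (‖g‖ * ‖g'‖ * inner ℝ w (Q w)) +
      ‖g'‖ ^ 2 * ‖w‖ ^ 2 := by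
    rw [norm_sub_sq_real, norm_smul, norm_smul, norm_norm, norm_norm, hQw,
      real_inner_smul_left, real_inner_smul_right]
    ring
  have e2 : ‖g - g'‖ ^ 2 = ‖g‖ ^ 2 - 2 * (‖g‖ * ‖g'‖ * inner ℝ (unv hN g) (unv hN g')) +
      ‖g'‖ ^ 2 := by
    conv_lhs => rw [← unv_smul hN g, ← unv_smul hN g']
    rw [norm_sub_sq_real, norm_smul, norm_smul, norm_norm, norm_norm, unv_norm, unv_norm,
      real_inner_smul_left, real_inner_smul_right]
    ring
  have h3 : ‖‖g‖ • w - ‖g'‖ • Q w‖ ^ 2 ≤ (‖w‖ * ‖g - g'‖) ^ 2 := by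
    rw [mul_pow, e1, e2]
    have h4 : 0 ≤ ‖g‖ * ‖g'‖ := by positivity
    have h5 := mul_le_mul_of_nonneg_left hc h4
    nlinarith
  exact (sq_le_sq₀ (norm_nonneg _) (by positivity)).mp h3

private theorem PS3_d (hN : 3 ≤ N) {β k h : ℝ} (hβ : 0 < β) (hk : 0 ≤ k) (hh : 0 < h) (L : ℕ)
    (G : (boxS d L → E N) × (boxS d L → E N)) (ω : boxS d L → E N) :
    DStep (boxNet d L) h k (fun x => bE hN h (ω x)) (dif G.1 G.2)
      (dif (st3 hN β k h L G ω).1 (st3 hN β k h L G ω).2) := by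
  refine ⟨fun x => norm_nonneg _, fun x => norm_nonneg _, fun x => ?_⟩
  change ‖(hat β h (G.1 x) (fr1 hN (G.1 x) (ω x)) + (k * h) • coupV (boxNet d L) G.1 x) -
    (hat β h (G.2 x) (fr2 hN (G.1 x) (G.2 x) (ω x)) + (k * h) • coupV (boxNet d L) G.2 x)‖ ≤ _
  have h1 : (hat β h (G.1 x) (fr1 hN (G.1 x) (ω x)) + (k * h) • coupV (boxNet d L) G.1 x) -
    (hat β h (G.2 x) (fr2 hN (G.1 x) (G.2 x) (ω x)) + (k * h) • coupV (boxNet d L) G.2 x) =
      (hat β h (G.1 x) (fr1 hN (G.1 x) (ω x)) - hat β h (G.2 x) (fr2 hN (G.1 x) (G.2 x) (ω x))) +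
      (k * h) • coupV (boxNet d L) (fun y => G.1 y - G.2 y) x := by
    rw [← PS3_coup_sub, smul_sub]
    abel
  rw [h1]
  refine (norm_add_le _ _).trans (add_le_add ?_ ?_)
  · rw [hat_frame hN β h (G.1 x) (fr1 hN (G.1 x)) (fr1_map hN _),
      hat_frame hN β h (G.2 x) (fr2 hN (G.1 x) (G.2 x)) (fr2_map hN _ _)]
    refine (JV_nonexp hβ hh.le _ _).trans ?_
    refine (PS3_dist hN _ _ _).trans ?_
    exact mul_le_mul_of_nonneg_right (PS3_bexp hN h (ω x)) (norm_nonneg _)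
  · rw [norm_smul, Real.norm_of_nonneg (mul_nonneg hk hh.le)]
    exact mul_le_mul_of_nonneg_left (PS3_coup _ _ _) (mul_nonneg hk hh.le)

/-- pair system for `N ≥ 3` -/
def PS3 (N d : ℕ) (hN : 3 ≤ N) (β k : ℝ) (hβ : 0 < β) (hk : 0 ≤ k) :
    PSys (Fam1 N d β k) β k where
  Ωp := E N
  ν := stdGaussian (E N)
  b := bE hN
  gd := gdE hN
  st := fun h L G ζ => st3 hN β k h L G ζ
  mst := fun h L => measurable_st3 hN β k h L
  mb := measurable_bE hN
  mgd := measurable_gdE hN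
  marg1 := fun h L G => PS3_marg β k h L G.1 (fun x => fr1 hN (G.1 x))
  marg2 := fun h L G => PS3_marg β k h L G.2 (fun x => fr2 hN (G.1 x) (G.2 x))
  q1 := fun _ L G ω hh hω => PS3_q hN hβ hk hh L G.1 ω (fun x => fr1 hN (G.1 x))
    (fun _ => fr1_map hN _) hω
  q2 := fun _ L G ω hh hω => PS3_q hN hβ hk hh L G.2 ω (fun x => fr2 hN (G.1 x) (G.2 x))
    (fun _ => fr2_map hN _ _) hω
  u1 := fun _ L G ω hh x => PS3_u hN hβ hk hh L G.1 ω (fun x => fr1 hN (G.1 x))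
    (fun _ => fr1_map hN _) x
  u2 := fun _ L G ω hh x => PS3_u hN hβ hk hh L G.2 ω (fun x => fr2 hN (G.1 x) (G.2 x))
    (fun _ => fr2_map hN _ _) x
  dd := fun _ L G ω hh => PS3_d hN hβ hk hh L G ω

end

end DynC

end

/-! ### from `Lib_MP_36b788g.GDefs` -/

section

/-!
# Chapter GC3 (good coupling for `N ≥ 3`): definitions

* `Zr g g'`: relative squared distance `‖g-g'‖²/(‖g‖‖g'‖)`.
* `mn G x`: smaller modulus of the pair at `x`.
* `chi c β C' y R G x`: contraction rate, `c min(1, mn^β)` in the ball `B = {dist x y ≤ R}`, `-C'` outside.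
* `upd`: update of the weights `σ⁺(x) = min_z (σ z + h χ z + dist x z · ℓ/2)`.
* `YW y R σ G = Σ_x e^{σ x}(Zr in B, ‖G.1 x - G.2 x‖² outside)`.
* `RegG k y R G`: moduli `≥ k^{1/4}` in `B`, `≤ k^{-1/16}` in `{dist x y ≤ R+1}`.
* `est`: extended chain (pair state, weights).
-/

open MeasureTheory ProbabilityTheory
open scoped ENNReal

namespace DynG

open Dyn DynS DynC

noncomputable section

/-- relative squared distance -/
def Zr {V : Type} [NormedAddCommGroup V] (g g' : V) : ℝ := ‖g - g'‖ ^ 2 / (‖g‖ * ‖g'‖)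

/-- smaller modulus -/
def mn {V : Type} [NormedAddCommGroup V] {d L : ℕ} (G : (boxS d L → V) × (boxS d L → V))
    (x : boxS d L) : ℝ := min ‖G.1 x‖ ‖G.2 x‖

/-- rate -/
def chi {V : Type} [NormedAddCommGroup V] {d L : ℕ} (c β C' : ℝ) (y : boxS d L) (R : ℕ)
    (G : (boxS d L → V) × (boxS d L → V)) (x : boxS d L) : ℝ :=
  if (boxNet d L).dist x y ≤ R then c * min 1 (mn G x ^ β) else -C'

/-- update of the weights -/
def upd {ι : Type} [Fintype ι] {d : ℕ} (net : Net ι d) (ℓ h : ℝ) (χ σ : ι → ℝ) (x : ι) : ℝ :=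
  Finset.univ.inf' ⟨x, Finset.mem_univ x⟩
    (fun z => σ z + h * χ z + net.dist x z * (ℓ / 2))

/-- weighted sum -/
def YW {V : Type} [NormedAddCommGroup V] {d L : ℕ} (y : boxS d L) (R : ℕ) (σ : boxS d L → ℝ)
    (G : (boxS d L → V) × (boxS d L → V)) : ℝ :=
  ∑ x, Real.exp (σ x) * (if (boxNet d L).dist x y ≤ R then Zr (G.1 x) (G.2 x)
    else ‖G.1 x - G.2 x‖ ^ 2)

/-- regular state -/
def RegG {V : Type} [NormedAddCommGroup V] {d L : ℕ} (k : ℝ) (y : boxS d L) (R : ℕ)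
    (G : (boxS d L → V) × (boxS d L → V)) : Prop :=
  (∀ x, (boxNet d L).dist x y ≤ R → k ^ (1 / 4 : ℝ) ≤ ‖G.1 x‖ ∧ k ^ (1 / 4 : ℝ) ≤ ‖G.2 x‖) ∧
    ∀ x, (boxNet d L).dist x y ≤ R + 1 →
      ‖G.1 x‖ ≤ k ^ (-(1 / 16) : ℝ) ∧ ‖G.2 x‖ ≤ k ^ (-(1 / 16) : ℝ)

/-- lower bound at a window time -/
def LowG {V : Type} [NormedAddCommGroup V] {d L : ℕ} (k : ℝ) (y : boxS d L) (R : ℕ)
    (G : (boxS d L → V) × (boxS d L → V)) : Prop :=
  ∀ x, (boxNet d L).dist x y ≤ R → k ^ (5 / 64 : ℝ) ≤ ‖G.1 x‖ ∧ k ^ (5 / 64 : ℝ) ≤ ‖G.2 x‖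

/-- one step of the extended chain -/
def est {N d : ℕ} (hN : 3 ≤ N) (c C' β k h : ℝ) (L : ℕ) (y : boxS d L) (R : ℕ)
    (s : ((boxS d L → E N) × (boxS d L → E N)) × (boxS d L → ℝ)) (ζ : boxS d L → E N) :
    ((boxS d L → E N) × (boxS d L → E N)) × (boxS d L → ℝ) :=
  (st3 hN β k h L s.1 ζ, upd (boxNet d L) (ell k) h (chi c β C' y R s.1) s.2)

/-- cut off height: identity below `y1`, constant above `y1 + 1`, concave -/
def gO (y1 Y : ℝ) : ℝ :=
  if Y ≤ y1 then Y else if Y ≤ y1 + 1 then Y - (Y - y1) ^ 2 / 2 else y1 + 1 / 2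

end

end DynG

end

/-! ### from `Lib_MP_36b788g.OccA` -/

section

/-!
# Occupation of heights of order one, one step

`S` a pair system, `BNoise N S.ν S.b S.gd`, `N ≥ 3`, `λ = lamN N ≥ 1/2`, site `x`, `m = mn G x = min(‖G.1 x‖, ‖G.2 x‖)`, `g = gO y1`.

PROOF.
* `gO_mono`, `gO_le` (`g ≤ y1+1/2`), `gO_low` (`min Y y1 ≤ g Y`): elementary.
* `gO_inc`: `g'(Y) := 1` for `Y ≤ y1`, `1-(Y-y1)` on `[y1,y1+1]`, `0` above (`gO'`). For `|e| ≤ 1`, `Y ≤ y1-1`: `g(Y+e) = Y+e`; in general `g(Y+e) ≥ g(Y)+g'(Y)e-e²/2` (`g` is concave with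
  `g' ` `1`-Lipschitz: `g(Y+e)-g(Y)-g'(Y)e = ∫(g'(Y+s)-g'(Y))ds ≥ -e²/2`; or by cases, all pieces are quadratic).
* Good noise, `k^{1/4} ≤ m`, all neighbours and `x` have moduli `≤ k^{-1/16}`. `q1`, `q2` (`lo`) and monotonicity of `psi`: `m⁺ ≥ psi β h (e^b m) - kh·4dk^{-1/16}` and `psi_lower`: `≥ e^bm(1-h(e^bm)^β)-4dhk^{15/16}
  ≥ e^bm(1-h(2m)^β-hk^{1/2})` (`e^bm ≥ k^{1/4}/2`, `8dk^{15/16} ≤ k^{3/4}`); so `log m⁺ ≥ log m+b-a`, `a = 2h((2m)^β+k^{1/2})` (`log(1-t) ≥ -2t`, `t ≤ 1/2`, `h < h0(k)`).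
* `occ_step`: choose `y1` with `2·2^β e^{β(y1+1)} ≤ λ/8`, `θ = λ/4`. `-θg(log m⁺) ≤ -θg(y)-θg'(b-a)+θ(b²+a²)1`, `1 = 1{y > y1-1}` (for `y ≤ y1-1`, `|b-a| ≤ 1`: exact). `g'a ≤ (λ/8+2k^{1/2})h ≤ λh/4` (`g' ≠ 0` only for
  `m ≤ e^{y1+1}`), `a² ≤ h` for `h < h0(k)`. Expectation over the good noise: `exp(-θg'b+θb²1) ≤ e^{-θg'b}+4θb²1` (`b² ≤ 4h^{3/4}` small, `e^{t} ≤ 1+2t`, `e^{-θg'b} ≤ 2`), `mgf` with `r = -θg'`:
  `≤ 1+(-λθg'+θ²g'²/2+ε)h`, `b² ≤ e^b+e^{-b}-2` and `mgf` with `r = ±1`, `tail`: `E_{gd}b² ≤ (1+2ε)h+2h³ ≤ 2h`. With `θ²g'²/2 ≤ θλg'/8`, total exponent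
  `≤ h(-(5/8)θλg'+ε+9θ1+…)` and `g' ≥ 1-1`: `≤ h(-θλ/4+C21)` for `ε = θλ/8`. So `c1 = θλ/4`, `C2 = θ(10+λ)`.
-/

open MeasureTheory ProbabilityTheory
open scoped ENNReal

namespace DynG

open Dyn DynS DynC

noncomputable section

/-- derivative of `gO` -/
def gO' (y1 Y : ℝ) : ℝ := if Y ≤ y1 then 1 else if Y ≤ y1 + 1 then 1 - (Y - y1) else 0

theorem gO_mono (y1 : ℝ) : Monotone (gO y1) := by
  intro X Y h
  unfold gO
  split_ifs <;> nlinarith

theorem gO_le (y1 Y : ℝ) : gO y1 Y ≤ y1 + 1 / 2 := by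
  unfold gO
  split_ifs <;> nlinarith [sq_nonneg (Y - y1 - 1)]

theorem gO_low (y1 Y : ℝ) : min Y y1 ≤ gO y1 Y := by
  unfold gO
  split_ifs with h1 h2
  · exact min_le_left _ _
  · refine (min_le_right _ _).trans ?_
    nlinarith
  · refine (min_le_right _ _).trans ?_
    linarith

theorem measurable_gO (y1 : ℝ) : Measurable (gO y1) := by
  unfold gO
  refine Measurable.ite measurableSet_Iic measurable_id ?_
  exact Measurable.ite measurableSet_Iic (by fun_prop) measurable_const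

theorem gO_inc (y1 Y e : ℝ) : gO y1 Y + gO' y1 Y * e - e ^ 2 / 2 ≤ gO y1 (Y + e) := by
  unfold gO gO'
  split_ifs <;> nlinarith [sq_nonneg e, sq_nonneg (Y + e - y1), sq_nonneg (Y - y1),
    sq_nonneg (Y + e - y1 - 1), sq_nonneg (Y - y1 - 1)]

theorem gO_inc_low {y1 Y e : ℝ} (hY : Y ≤ y1 - 1) (he : |e| ≤ 1) :
    gO y1 (Y + e) = gO y1 Y + gO' y1 Y * e := by
  have h1 := (abs_le.mp he).2
  unfold gO gO'
  rw [if_pos (by linarith), if_pos (by linarith), if_pos (by linarith)]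
  ring

private theorem OccA_gO'_mem (y1 Y : ℝ) : 0 ≤ gO' y1 Y ∧ gO' y1 Y ≤ 1 := by
  unfold gO'
  split_ifs <;> constructor <;> linarith

private theorem OccA_k0 (d : ℕ) : ∃ k0 : ℝ, 0 < k0 ∧ k0 < 1 ∧ ∀ k, 0 < k → k < k0 →
    8 * (d : ℝ) * k ^ (3 / 16 : ℝ) ≤ 1 := by
  have h1 : (0 : ℝ) < 8 * d + 2 := by positivity
  have h2 : (1 : ℝ) / (8 * d + 2) < 1 := by
    rw [div_lt_one h1]
    have : (0 : ℝ) ≤ d := Nat.cast_nonneg d
    linarith
  refine ⟨(1 / (8 * d + 2)) ^ (16 / 3 : ℝ), Real.rpow_pos_of_pos (by positivity) _,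
    Real.rpow_lt_one (by positivity) h2 (by norm_num), fun k hk hlt => ?_⟩
  have h3 : k ^ (3 / 16 : ℝ) ≤ 1 / (8 * d + 2) := by
    have h4 := Real.rpow_le_rpow hk.le hlt.le (by norm_num : (0 : ℝ) ≤ 3 / 16)
    rw [← Real.rpow_mul (by positivity)] at h4
    norm_num at h4
    simpa using h4
  have hd : (0 : ℝ) ≤ d := Nat.cast_nonneg d
  calc 8 * (d : ℝ) * k ^ (3 / 16 : ℝ) ≤ 8 * (d : ℝ) * (1 / (8 * d + 2)) :=
        mul_le_mul_of_nonneg_left h3 (by positivity)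
    _ ≤ 1 := by
        rw [mul_one_div, div_le_one h1]
        linarith

/-- one component -/
private theorem OccA_one (d : ℕ) {β h k b m u u' c : ℝ} (hβ : 0 < β) (hh : 0 < h) (hk : 0 < k)
    (hd : 8 * (d : ℝ) * k ^ (3 / 16 : ℝ) ≤ 1) (hb1 : Real.exp b ≤ 2) (hb2 : 1 / 2 ≤ Real.exp b)
    (hm : k ^ (1 / 4 : ℝ) ≤ m) (hu : m ≤ u) (hc : c ≤ 4 * d * k ^ (-(1 / 16) : ℝ))
    (hlo : psi β h (Real.exp b * u) - k * h * c ≤ u') :
    Real.exp b * m * (1 - h * ((2 * m) ^ β + k ^ (1 / 2 : ℝ))) ≤ u' := by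
  have hk4 : 0 < k ^ (1 / 4 : ℝ) := Real.rpow_pos_of_pos hk _
  have hm0 : 0 < m := hk4.trans_le hm
  have he : 0 < Real.exp b := Real.exp_pos b
  have h1 : psi β h (Real.exp b * m) ≤ psi β h (Real.exp b * u) :=
    psi_mono hβ hh.le (mul_le_mul_of_nonneg_left hu he.le)
  have h2 := psi_lower hβ hh.le (v := Real.exp b * m) (by positivity)
  have h3 : (Real.exp b * m) ^ β ≤ (2 * m) ^ β :=
    Real.rpow_le_rpow (by positivity) (mul_le_mul_of_nonneg_right hb1 hm0.le) hβ.le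
  have h4 : k * h * c ≤ Real.exp b * m * (h * k ^ (1 / 2 : ℝ)) := by
    have e1 : k * k ^ (-(1 / 16) : ℝ) = k ^ (3 / 16 : ℝ) * (k ^ (1 / 4 : ℝ) * k ^ (1 / 2 : ℝ)) := by
      rw [← Real.rpow_add hk, ← Real.rpow_add hk]
      nth_rewrite 1 [← Real.rpow_one k]
      rw [← Real.rpow_add hk]
      norm_num
    have h5 : k * h * c ≤ h * (4 * d * (k * k ^ (-(1 / 16) : ℝ))) := by
      have := mul_le_mul_of_nonneg_left hc (by positivity : 0 ≤ k * h)
      nlinarith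
    rw [e1] at h5
    have h6 : 4 * (d : ℝ) * (k ^ (3 / 16 : ℝ) * (k ^ (1 / 4 : ℝ) * k ^ (1 / 2 : ℝ))) ≤
        1 / 2 * (k ^ (1 / 4 : ℝ) * k ^ (1 / 2 : ℝ)) := by
      have h7 : 0 ≤ k ^ (1 / 4 : ℝ) * k ^ (1 / 2 : ℝ) := by positivity
      nlinarith
    have h8 : 1 / 2 * (k ^ (1 / 4 : ℝ) * k ^ (1 / 2 : ℝ)) ≤ Real.exp b * m * k ^ (1 / 2 : ℝ) := by
      have h9 : 1 / 2 * k ^ (1 / 4 : ℝ) ≤ Real.exp b * m :=
        mul_le_mul hb2 hm hk4.le he.le
      have h10 : 0 ≤ k ^ (1 / 2 : ℝ) := by positivity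
      nlinarith
    have h11 := mul_le_mul_of_nonneg_left (h6.trans h8) hh.le
    nlinarith
  have h12 : Real.exp b * m * (h * (Real.exp b * m) ^ β) ≤ Real.exp b * m * (h * (2 * m) ^ β) :=
    mul_le_mul_of_nonneg_left (mul_le_mul_of_nonneg_left h3 hh.le) (by positivity)
  nlinarith

private theorem OccA_cpl {V : Type} [NormedAddCommGroup V] [InnerProductSpace ℝ V] {d L : ℕ}
    (G : boxS d L → V) (x : boxS d L) {B : ℝ}
    (hB : ∀ v, (boxNet d L).dist v x ≤ 1 → ‖G v‖ ≤ B) :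
    cpl (boxNet d L) (nrm G) x ≤ 4 * d * B := by
  have hx : ‖G x‖ ≤ B := hB x (by rw [(boxNet d L).dist_self]; norm_num)
  have hB0 : 0 ≤ B := (norm_nonneg _).trans hx
  unfold cpl nrm
  have h1 : ∑ y ∈ (boxNet d L).nb x, ‖G y‖ ≤ ((boxNet d L).nb x).card * B := by
    rw [← nsmul_eq_mul]
    refine Finset.sum_le_card_nsmul _ _ _ fun y hy => hB y ?_
    rw [(boxNet d L).dist_comm, (boxNet d L).dist_nb x y hy]
  have h2 : (((boxNet d L).nb x).card : ℝ) ≤ 2 * d := by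
    exact_mod_cast (boxNet d L).nb_card x
  have h3 := mul_le_mul_of_nonneg_right h2 hB0
  have h4 : ((2 * d : ℕ) : ℝ) * ‖G x‖ ≤ 2 * d * B := by
    push_cast
    exact mul_le_mul_of_nonneg_left hx (by positivity)
  linarith

private theorem OccA_h38 {h : ℝ} (hh : 0 < h) (hh1 : h ≤ 1 / 1000) : h ^ (3 / 8 : ℝ) ≤ 1 / 8 := by
  have h1 : h ^ (3 / 8 : ℝ) ≤ (1 / 256 : ℝ) ^ (3 / 8 : ℝ) :=
    Real.rpow_le_rpow hh.le (by linarith) (by norm_num)
  have h2 : (1 / 256 : ℝ) ^ (3 / 8 : ℝ) = 1 / 8 := by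
    have : (1 / 256 : ℝ) = (1 / 8 : ℝ) ^ (8 / 3 : ℝ) := by
      have e : (1 / 8 : ℝ) = (1 / 2 : ℝ) ^ (3 : ℝ) := by norm_num
      rw [e, ← Real.rpow_mul (by norm_num)]
      norm_num
    rw [this, ← Real.rpow_mul (by norm_num)]
    norm_num
  linarith

private theorem OccA_exp {b : ℝ} (hb : |b| ≤ 1 / 4) : Real.exp b ≤ 2 ∧ 1 / 2 ≤ Real.exp b := by
  obtain ⟨h1, h2⟩ := abs_le.mp hb
  constructor
  · have := Real.abs_exp_sub_one_le (x := b) (by linarith)
    have h3 := (abs_le.mp this).2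
    linarith
  · have := Real.add_one_le_exp b
    linarith

/-- pathwise lower bound of the smaller modulus -/
theorem mn_step (d : ℕ) (β : ℝ) (hβ : 0 < β) : ∃ k0 : ℝ, 0 < k0 ∧ k0 < 1 ∧
    ∀ k, 0 < k → k < k0 → ∃ h0 : ℝ, 0 < h0 ∧ h0 ≤ 1 / 1000 ∧ ∀ h, 0 < h → h < h0 →
    ∀ (F : Fam d) (S : PSys F β k) (L : ℕ) (G : (boxS d L → F.V) × (boxS d L → F.V))
      (x : boxS d L) (ω : boxS d L → S.Ωp), (∀ v, ω v ∈ S.gd h) →
      |S.b h (ω x)| ≤ 2 * h ^ (3 / 8 : ℝ) → k ^ (1 / 4 : ℝ) ≤ mn G x →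
      (∀ v, (boxNet d L).dist v x ≤ 1 → ‖G.1 v‖ ≤ k ^ (-(1 / 16) : ℝ) ∧
        ‖G.2 v‖ ≤ k ^ (-(1 / 16) : ℝ)) →
      0 < mn (S.st h L G ω) x ∧
        Real.log (mn G x) + S.b h (ω x) - 2 * h * ((2 * mn G x) ^ β + k ^ (1 / 2 : ℝ)) ≤
          Real.log (mn (S.st h L G ω) x) := by
  obtain ⟨k0, hk0, hk01, hk0d⟩ := OccA_k0 d
  refine ⟨k0, hk0, hk01, fun k hk hkk => ?_⟩
  set M : ℝ := (2 * k ^ (-(1 / 16) : ℝ)) ^ β + 1 with hM
  have hM0 : 0 < M := by positivity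
  refine ⟨min (1 / 1000) (1 / (2 * M)), by positivity, min_le_left _ _,
    fun h hh hlt F S L G x ω hω hb hm hB => ?_⟩
  have hh1 : h ≤ 1 / 1000 := (hlt.trans_le (min_le_left _ _)).le
  have hh2 : h ≤ 1 / (2 * M) := (hlt.trans_le (min_le_right _ _)).le
  set b : ℝ := S.b h (ω x) with hbd
  set m : ℝ := mn G x with hmd
  have hb4 : |b| ≤ 1 / 4 := by
    have := OccA_h38 hh hh1
    linarith
  obtain ⟨e1, e2⟩ := OccA_exp hb4
  have hm0 : 0 < m := (Real.rpow_pos_of_pos hk _).trans_le hm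
  have hxx : (boxNet d L).dist x x ≤ 1 := by
    rw [(boxNet d L).dist_self]
    norm_num
  have hmB : m ≤ k ^ (-(1 / 16) : ℝ) := (min_le_left _ _).trans (hB x hxx).1
  have c1 := OccA_cpl G.1 x (fun v hv => (hB v hv).1)
  have c2 := OccA_cpl G.2 x (fun v hv => (hB v hv).2)
  have l1 := OccA_one d hβ hh hk (hk0d k hk hkk) e1 e2 hm (min_le_left _ _) c1
    ((S.q1 h L G ω hh hω).lo x)
  have l2 := OccA_one d hβ hh hk (hk0d k hk hkk) e1 e2 hm (min_le_right _ _) c2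
    ((S.q2 h L G ω hh hω).lo x)
  set t : ℝ := h * ((2 * m) ^ β + k ^ (1 / 2 : ℝ)) with ht
  have ht0 : 0 ≤ t := by positivity
  have ht1 : t ≤ 1 / 2 := by
    have h1 : (2 * m) ^ β ≤ (2 * k ^ (-(1 / 16) : ℝ)) ^ β :=
      Real.rpow_le_rpow (by positivity) (mul_le_mul_of_nonneg_left hmB zero_le_two) hβ.le
    have h2 : k ^ (1 / 2 : ℝ) ≤ 1 := Real.rpow_le_one hk.le (hkk.trans hk01).le (by norm_num)
    have h3 : t ≤ h * M := mul_le_mul_of_nonneg_left (add_le_add h1 h2) hh.le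
    have h4 : h * M ≤ 1 / (2 * M) * M := mul_le_mul_of_nonneg_right hh2 hM0.le
    have h5 : 1 / (2 * M) * M = 1 / 2 := by field_simp
    linarith
  have hmin : Real.exp b * m * (1 - t) ≤ mn (S.st h L G ω) x := le_min l1 l2
  have hpos : 0 < Real.exp b * m * (1 - t) := by
    have : 0 < 1 - t := by linarith
    positivity
  refine ⟨hpos.trans_le hmin, ?_⟩
  have hlog := Real.log_le_log hpos hmin
  rw [Real.log_mul (by positivity) (by linarith), Real.log_mul (Real.exp_pos b).ne' hm0.ne',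
    Real.log_exp] at hlog
  have hl : -(2 * t) ≤ Real.log (1 - t) := by
    have h6 := Real.one_sub_inv_le_log_of_pos (by linarith : 0 < 1 - t)
    have h7 : 1 - (1 - t)⁻¹ = -(t / (1 - t)) := by
      have : (1 - t) ≠ 0 := by linarith
      field_simp
      ring
    have h8 : t / (1 - t) ≤ 2 * t := by
      rw [div_le_iff₀ (by linarith)]
      nlinarith
    linarith
  have h9 : 2 * h * ((2 * m) ^ β + k ^ (1 / 2 : ℝ)) = 2 * t := by
    rw [ht]
    ring
  rw [h9]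
  linarith

private theorem OccA_site {d : ℕ} {β k : ℝ} {F : Fam d} (S : PSys F β k) (h : ℝ) (L : ℕ)
    (x : boxS d L) (Φ : S.Ωp → ℝ≥0∞) (hΦ : Measurable Φ) :
    ∫⁻ ω in {ω : boxS d L → S.Ωp | ∀ v, ω v ∈ S.gd h}, Φ (ω x) ∂(S.mu L) ≤
      ∫⁻ a in S.gd h, Φ a ∂S.ν := by
  have h1 : MeasurePreserving (Function.eval x) (S.mu L) S.ν :=
    measurePreserving_eval (fun _ : boxS d L => S.ν) x
  have h2 := h1.setLIntegral_comp_preimage (S.mgd h) hΦ
  rw [← h2]
  exact lintegral_mono_set fun ω hω => hω x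

private theorem OccA_sq (b : ℝ) : b ^ 2 + 2 ≤ Real.exp b + Real.exp (-b) := by
  have e : Real.exp b + Real.exp (-b) = (2 * Real.sinh (b / 2)) ^ 2 + 2 := by
    rw [Real.sinh_eq]
    have h1 : Real.exp b = Real.exp (b / 2) * Real.exp (b / 2) := by
      rw [← Real.exp_add]
      congr 1
      ring
    have h2 : Real.exp (-b) = Real.exp (-(b / 2)) * Real.exp (-(b / 2)) := by
      rw [← Real.exp_add]
      congr 1
      ring
    have h3 : Real.exp (b / 2) * Real.exp (-(b / 2)) = 1 := by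
      rw [← Real.exp_add, add_neg_cancel, Real.exp_zero]
    rw [h1, h2]
    linear_combination 2 * h3
  rw [e]
  rcases le_total 0 b with hb | hb
  · have := Real.self_le_sinh_iff.mpr (by linarith : 0 ≤ b / 2)
    nlinarith
  · have := Real.sinh_le_self_iff.mpr (by linarith : b / 2 ≤ 0)
    nlinarith

/-- second moment of the scalar noise -/
private theorem OccA_b2 {N : ℕ} {Ω0 : Type} [MeasurableSpace Ω0] {ν : Measure Ω0}
    [IsProbabilityMeasure ν] {b : ℝ → Ω0 → ℝ} {gd : ℝ → Set Ω0} (hb : ∀ h, Measurable (b h))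
    (hg : ∀ h, MeasurableSet (gd h)) (B : BNoise N ν b gd) :
    ∃ h0 : ℝ, 0 < h0 ∧ ∀ h, 0 < h → h < h0 →
      ∫⁻ a in gd h, ENNReal.ofReal (b h a ^ 2) ∂ν ≤ ENNReal.ofReal (2 * h) := by
  obtain ⟨h1, hh1, T⟩ := B.tail
  obtain ⟨h2, hh2, M⟩ := B.mgf 1 (1 / 4) one_pos (by norm_num)
  set c : ℝ := |lamN N| + 1 with hc
  have hc0 : 0 < c := by positivity
  refine ⟨min h1 (min h2 (min (1 / 4) (1 / (2 * c)))), by positivity, fun h hh hlt => ?_⟩
  have l1 : h < h1 := hlt.trans_le (min_le_left _ _)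
  have l2 : h < h2 := hlt.trans_le ((min_le_right _ _).trans (min_le_left _ _))
  have l3 : h ≤ 1 / 4 := (hlt.trans_le ((min_le_right _ _).trans
    ((min_le_right _ _).trans (min_le_left _ _)))).le
  have l4 : h ≤ 1 / (2 * c) := (hlt.trans_le ((min_le_right _ _).trans
    ((min_le_right _ _).trans (min_le_right _ _)))).le
  have hch : c * h ≤ 1 / 2 := by
    have := mul_le_mul_of_nonneg_left l4 hc0.le
    have e : c * (1 / (2 * c)) = 1 / 2 := by field_simp
    linarith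
  have hl1 := abs_le.mp (le_refl |lamN N|)
  have E1 := (M h hh l2 1 (by norm_num)).1
  have E2 := (M h hh l2 (-1) (by norm_num)).1
  have hTl := T h hh l1
  have hone : (1 : ℝ≥0∞) ≤ ν (gd h) + ENNReal.ofReal (h ^ 3) := by
    have h3 := measure_add_measure_compl (μ := ν) (hg h)
    rw [measure_univ] at h3
    rw [← h3]
    exact add_le_add le_rfl hTl
  set A : ℝ≥0∞ := ∫⁻ a in gd h, ENNReal.ofReal (b h a ^ 2) ∂ν with hA
  have hsum : A + 2 * ν (gd h) ≤ ENNReal.ofReal (2 + 3 / 2 * h) := by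
    have e1 : A + 2 * ν (gd h) = ∫⁻ a in gd h, (ENNReal.ofReal (b h a ^ 2) + 2) ∂ν := by
      rw [lintegral_add_right _ measurable_const, setLIntegral_const]
    have e2 : ∫⁻ a in gd h, (ENNReal.ofReal (b h a ^ 2) + 2) ∂ν ≤
        ∫⁻ a in gd h, (ENNReal.ofReal (Real.exp (1 * b h a)) +
          ENNReal.ofReal (Real.exp (-1 * b h a))) ∂ν := by
      refine lintegral_mono fun a => ?_
      have e3 : (2 : ℝ≥0∞) = ENNReal.ofReal 2 := by norm_num
      rw [e3, ← ENNReal.ofReal_add (by positivity) (by norm_num),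
        ← ENNReal.ofReal_add (Real.exp_pos _).le (Real.exp_pos _).le]
      apply ENNReal.ofReal_le_ofReal
      rw [one_mul, neg_one_mul]
      exact OccA_sq _
    have m1 : Measurable (fun a => ENNReal.ofReal (Real.exp (1 * b h a))) :=
      ENNReal.measurable_ofReal.comp (Real.measurable_exp.comp ((hb h).const_mul 1))
    rw [e1]
    refine e2.trans ?_
    rw [lintegral_add_left m1]
    refine (add_le_add E1 E2).trans ?_
    rw [← ENNReal.ofReal_add (by nlinarith) (by nlinarith)]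
    apply ENNReal.ofReal_le_ofReal
    nlinarith
  have hfin : A + 2 ≤ ENNReal.ofReal (2 * h) + 2 := by
    calc A + 2 ≤ A + 2 * (ν (gd h) + ENNReal.ofReal (h ^ 3)) := by
          refine add_le_add le_rfl ?_
          calc (2 : ℝ≥0∞) = 2 * 1 := (mul_one _).symm
            _ ≤ _ := mul_le_mul' le_rfl hone
      _ = A + 2 * ν (gd h) + 2 * ENNReal.ofReal (h ^ 3) := by ring
      _ ≤ ENNReal.ofReal (2 + 3 / 2 * h) + 2 * ENNReal.ofReal (h ^ 3) := add_le_add hsum le_rfl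
      _ = ENNReal.ofReal (2 + 3 / 2 * h) + ENNReal.ofReal (2 * h ^ 3) := by
          rw [ENNReal.ofReal_mul (by norm_num : (0 : ℝ) ≤ 2)]
          norm_num
      _ = ENNReal.ofReal (2 + 3 / 2 * h + 2 * h ^ 3) :=
          (ENNReal.ofReal_add (by positivity) (by positivity)).symm
      _ ≤ ENNReal.ofReal (2 * h + 2) := by
          apply ENNReal.ofReal_le_ofReal
          nlinarith [sq_nonneg h]
      _ = ENNReal.ofReal (2 * h) + 2 := by
          rw [ENNReal.ofReal_add (by positivity) (by norm_num)]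
          norm_num
  exact (ENNReal.add_le_add_iff_right (by norm_num)).mp hfin

/-- pathwise -/
private theorem OccA_path {y1 y Z a b h lam θ : ℝ} (hθ : 0 < θ) (hθ1 : θ ≤ 1) (hb : |b| ≤ 1 / 4)
    (ha0 : 0 ≤ a) (ha1 : a ≤ 1 / 2) (hah : a ^ 2 ≤ h)
    (hga : gO' y1 y * a ≤ gO' y1 y * (lam * h / 4)) (hZ : y + b - a ≤ Z) :
    Real.exp (-(θ * gO y1 Z)) ≤
      Real.exp (-(θ * gO y1 y) + θ * (lam * h / 4) * gO' y1 y +
        θ * h * (if y1 - 1 < y then 1 else 0)) *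
        (Real.exp (-(θ * gO' y1 y) * b) + 4 * θ * (if y1 - 1 < y then 1 else 0) * b ^ 2) := by
  obtain ⟨g0, g1⟩ := OccA_gO'_mem y1 y
  obtain ⟨b1, b2⟩ := abs_le.mp hb
  set g' : ℝ := gO' y1 y with hg'
  set I : ℝ := if y1 - 1 < y then 1 else 0 with hI
  have hI0 : 0 ≤ I := by
    rw [hI]
    split_ifs <;> norm_num
  have hI1 : I ≤ 1 := by
    rw [hI]
    split_ifs <;> norm_num
  have hb2 : b ^ 2 ≤ 1 / 16 := by nlinarith
  have h1 : gO y1 y + g' * (b - a) - I * (b ^ 2 + a ^ 2) ≤ gO y1 Z := by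
    have h2 : gO y1 (y + (b - a)) ≤ gO y1 Z := gO_mono y1 (by linarith)
    by_cases hy : y1 - 1 < y
    · have h3 := gO_inc y1 y (b - a)
      have e : I = 1 := by rw [hI, if_pos hy]
      rw [e]
      nlinarith [sq_nonneg (b + a)]
    · have h3 := gO_inc_low (e := b - a) (not_lt.mp hy) (by
        rw [abs_le]
        constructor <;> linarith)
      have e : I = 0 := by rw [hI, if_neg hy]
      rw [e]
      linarith
  have h4 : -(θ * gO y1 Z) ≤ (-(θ * gO y1 y) + θ * (lam * h / 4) * g' + θ * h * I) +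
      (-(θ * g') * b + θ * I * b ^ 2) := by
    have h5 := mul_le_mul_of_nonneg_left h1 hθ.le
    have h6 := mul_le_mul_of_nonneg_left hga hθ.le
    have h7 : θ * I * a ^ 2 ≤ θ * I * h := mul_le_mul_of_nonneg_left hah (by positivity)
    nlinarith
  refine (Real.exp_le_exp.mpr h4).trans ?_
  rw [Real.exp_add]
  refine mul_le_mul_of_nonneg_left ?_ (Real.exp_pos _).le
  rw [Real.exp_add]
  set t : ℝ := θ * I * b ^ 2 with ht
  have ht0 : 0 ≤ t := by positivity
  have ht1 : t ≤ 1 := by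
    have : θ * I ≤ 1 := by nlinarith
    nlinarith
  have h8 : Real.exp t ≤ 1 + 2 * t := by
    have := Real.abs_exp_sub_one_le (x := t) (by rw [abs_of_nonneg ht0]; exact ht1)
    rw [abs_of_nonneg ht0] at this
    have := (abs_le.mp this).2
    linarith
  have h9 : Real.exp (-(θ * g') * b) ≤ 2 := by
    refine (OccA_exp ?_).1
    rw [abs_mul, abs_neg, abs_of_nonneg (by positivity)]
    have h10 : θ * g' ≤ 1 := by nlinarith
    have := mul_le_mul h10 hb (abs_nonneg b) zero_le_one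
    linarith
  have h11 : 0 < Real.exp (-(θ * g') * b) := Real.exp_pos _
  calc Real.exp (-(θ * g') * b) * Real.exp t ≤ Real.exp (-(θ * g') * b) * (1 + 2 * t) :=
        mul_le_mul_of_nonneg_left h8 h11.le
    _ = Real.exp (-(θ * g') * b) + Real.exp (-(θ * g') * b) * (2 * t) := by ring
    _ ≤ Real.exp (-(θ * g') * b) + 2 * (2 * t) :=
        add_le_add le_rfl (mul_le_mul_of_nonneg_right h9 (by positivity))
    _ = _ := by
        rw [ht]
        ring

private theorem OccA_n1 {θ g' : ℝ} (hθ : 0 < θ) (hθ1 : θ ≤ 1) (g1 : g' ≤ 1) :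
    θ * g' ≤ 1 := by
  have := mul_le_mul_of_nonneg_left g1 hθ.le
  linarith

private theorem OccA_n3 {θ g' lam h : ℝ} (hθ : 0 < θ) (hθ1 : θ ≤ 1) (g1 : g' ≤ 1)
    (hlam : 0 < lam) (hh : 0 < h) (hlamh : lam * h ≤ 1) :
    0 ≤ 1 + (lam * (-(θ * g')) + (-(θ * g')) ^ 2 / 2 + θ * lam / 8) * h := by
  have h6 := OccA_n1 hθ hθ1 g1
  have h7 : 0 ≤ (-(θ * g')) ^ 2 / 2 := by positivity
  have h8 : 0 ≤ θ * lam / 8 := by positivity
  have h9 : lam * (θ * g') ≤ lam * 1 := mul_le_mul_of_nonneg_left h6 hlam.le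
  have h5 : -lam ≤ lam * (-(θ * g')) + (-(θ * g')) ^ 2 / 2 + θ * lam / 8 := by
    have : lam * (-(θ * g')) = -(lam * (θ * g')) := by ring
    linarith
  have := mul_le_mul_of_nonneg_right h5 hh.le
  linarith

private theorem OccA_n4 {θ g' lam I : ℝ} (hθ : 0 < θ) (hθ2 : θ ≤ lam / 4)
    (g0 : 0 ≤ g') (g1 : g' ≤ 1) (hlam : 0 < lam) (hI : I = 1 ∨ (I = 0 ∧ g' = 1)) :
    θ * (lam / 4) * g' + θ * I + (lam * (-(θ * g')) + (-(θ * g')) ^ 2 / 2 +
      θ * lam / 8) + 8 * θ * I ≤ -(θ * lam / 4) + θ * (10 + lam) * I := by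
  have h5 : (-(θ * g')) ^ 2 / 2 ≤ θ * lam * g' / 8 := by
    have h6 : θ * g' * (θ * g') ≤ lam / 4 * (θ * g') := by
      refine mul_le_mul_of_nonneg_right ?_ (by positivity)
      have : θ * g' ≤ θ * 1 := mul_le_mul_of_nonneg_left g1 hθ.le
      linarith
    have e : (-(θ * g')) ^ 2 / 2 = θ * g' * (θ * g') / 2 := by ring
    rw [e]
    linarith
  have h9 : 0 < θ * lam := by positivity
  rcases hI with e | ⟨e, e'⟩
  · rw [e]
    have h8 : 0 ≤ θ * lam * g' := by positivity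
    have e1 : lam * (-(θ * g')) = -(θ * lam * g') := by ring
    have e2 : θ * (lam / 4) * g' = θ * lam * g' / 4 := by ring
    have e3 : θ * (10 + lam) * 1 = 10 * θ + θ * lam := by ring
    rw [e1, e2, e3]
    linarith
  · rw [e'] at h5
    rw [e, e']
    linarith

theorem occ_step (N d : ℕ) (hN : 3 ≤ N) (β : ℝ) (hβ : 0 < β) : ∃ y1 θ c1 C2 k0 : ℝ, 0 < θ ∧
    θ ≤ 1 ∧ 0 < c1 ∧ 0 < C2 ∧ 0 < k0 ∧ k0 < 1 ∧ ∀ (F : Fam d) (k : ℝ) (S : PSys F β k), 0 < k →
    k < k0 → BNoise N S.ν S.b S.gd → ∃ h0 : ℝ, 0 < h0 ∧ h0 ≤ 1 / 1000 ∧ ∀ h, 0 < h → h < h0 →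
    ∀ (L : ℕ) (G : (boxS d L → F.V) × (boxS d L → F.V)) (x : boxS d L),
      k ^ (1 / 4 : ℝ) ≤ mn G x →
      (∀ v, (boxNet d L).dist v x ≤ 1 → ‖G.1 v‖ ≤ k ^ (-(1 / 16) : ℝ) ∧
        ‖G.2 v‖ ≤ k ^ (-(1 / 16) : ℝ)) →
      ∫⁻ ω in {ω | ∀ v, ω v ∈ S.gd h},
          ENNReal.ofReal (Real.exp (-(θ * gO y1 (Real.log (mn (S.st h L G ω) x))))) ∂(S.mu L) ≤
        ENNReal.ofReal (Real.exp (-(θ * gO y1 (Real.log (mn G x))) +
          h * (-c1 + C2 * (if y1 - 1 < Real.log (mn G x) then 1 else 0)))) := by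
  have hlam : 1 / 2 ≤ lamN N := by
    unfold lamN
    have : (3 : ℝ) ≤ N := by exact_mod_cast hN
    linarith
  set lam : ℝ := lamN N with hlamd
  have hlam0 : 0 < lam := by linarith
  have h2β : (0 : ℝ) < 2 ^ β := by positivity
  set y1 : ℝ := Real.log (lam / (16 * 2 ^ β)) / β - 1 with hy1
  have hy1e : (2 : ℝ) ^ β * Real.exp (β * (y1 + 1)) = lam / 16 := by
    have e1 : β * (y1 + 1) = Real.log (lam / (16 * 2 ^ β)) := by
      rw [hy1]
      field_simp
      ring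
    rw [e1, Real.exp_log (by positivity)]
    field_simp
  set θ : ℝ := min 1 (lam / 4) with hθd
  have hθ : 0 < θ := lt_min one_pos (by positivity)
  have hθ1 : θ ≤ 1 := min_le_left _ _
  have hθ2 : θ ≤ lam / 4 := min_le_right _ _
  obtain ⟨ka, hka, hka1, Hk⟩ := mn_step d β hβ
  refine ⟨y1, θ, θ * lam / 4, θ * (10 + lam), min ka ((lam / 16) ^ 2), hθ, hθ1, by positivity,
    by positivity, lt_min hka (by positivity), (min_le_left _ _).trans_lt hka1,
    fun F k S hk hkk B => ?_⟩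
  have hk1 : k < 1 := (hkk.trans_le (min_le_left _ _)).trans hka1
  have hk2 : k ^ (1 / 2 : ℝ) ≤ lam / 16 := by
    have h1 := Real.rpow_le_rpow hk.le (hkk.trans_le (min_le_right _ _)).le
      (by norm_num : (0 : ℝ) ≤ 1 / 2)
    rw [← Real.sqrt_eq_rpow, ← Real.sqrt_eq_rpow, Real.sqrt_sq (by positivity)] at h1
    rwa [← Real.sqrt_eq_rpow]
  obtain ⟨h1, hh1, hh1', H1⟩ := Hk k hk (hkk.trans_le (min_le_left _ _))
  obtain ⟨h2, hh2, H2⟩ := B.mgf 1 (θ * lam / 8) one_pos (by positivity)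
  obtain ⟨h3, hh3, H3⟩ := OccA_b2 S.mb S.mgd B
  set M : ℝ := (2 * k ^ (-(1 / 16) : ℝ)) ^ β + 1 with hM
  have hM1 : 1 ≤ M := by
    have : 0 ≤ (2 * k ^ (-(1 / 16) : ℝ)) ^ β := by positivity
    linarith
  refine ⟨min h1 (min h2 (min h3 (min (1 / (4 * M ^ 2)) (1 / (lam + 1))))), by positivity,
    (min_le_left _ _).trans hh1', fun h hh hlt L G x hm hB => ?_⟩
  have l1 : h < h1 := hlt.trans_le (min_le_left _ _)
  have l2 : h < h2 := hlt.trans_le ((min_le_right _ _).trans (min_le_left _ _))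
  have l3 : h < h3 := hlt.trans_le ((min_le_right _ _).trans
    ((min_le_right _ _).trans (min_le_left _ _)))
  have l4 : h ≤ 1 / (4 * M ^ 2) := (hlt.trans_le ((min_le_right _ _).trans
    ((min_le_right _ _).trans ((min_le_right _ _).trans (min_le_left _ _))))).le
  have l5 : h ≤ 1 / (lam + 1) := (hlt.trans_le ((min_le_right _ _).trans
    ((min_le_right _ _).trans ((min_le_right _ _).trans (min_le_right _ _))))).le
  have hh1000 : h ≤ 1 / 1000 := l1.le.trans hh1'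
  set m : ℝ := mn G x with hmd
  set y : ℝ := Real.log m with hyd
  have hm0 : 0 < m := (Real.rpow_pos_of_pos hk _).trans_le hm
  have hxx : (boxNet d L).dist x x ≤ 1 := by
    rw [(boxNet d L).dist_self]
    norm_num
  have hmB : m ≤ k ^ (-(1 / 16) : ℝ) := (min_le_left _ _).trans (hB x hxx).1
  set a : ℝ := 2 * h * ((2 * m) ^ β + k ^ (1 / 2 : ℝ)) with ha
  have ha0 : 0 ≤ a := by positivity
  have haM : a ≤ 2 * h * M := by
    have h4 : (2 * m) ^ β ≤ (2 * k ^ (-(1 / 16) : ℝ)) ^ β :=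
      Real.rpow_le_rpow (by positivity) (mul_le_mul_of_nonneg_left hmB zero_le_two) hβ.le
    have h5 : k ^ (1 / 2 : ℝ) ≤ 1 := Real.rpow_le_one hk.le hk1.le (by norm_num)
    exact mul_le_mul_of_nonneg_left (add_le_add h4 h5) (by positivity)
  have hMh : 4 * M ^ 2 * h ≤ 1 := by
    have h4 := mul_le_mul_of_nonneg_left l4 (by positivity : 0 ≤ 4 * M ^ 2)
    have h5 : 4 * M ^ 2 * (1 / (4 * M ^ 2)) = 1 := by field_simp
    linarith
  have hah : a ^ 2 ≤ h := by
    have h4 : a ^ 2 ≤ (2 * h * M) ^ 2 := pow_le_pow_left₀ ha0 haM 2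
    have h5 : (2 * h * M) ^ 2 = (4 * M ^ 2 * h) * h := by ring
    have h6 := mul_le_mul_of_nonneg_right hMh hh.le
    linarith
  have ha1 : a ≤ 1 / 2 := by
    have : a ^ 2 ≤ (1 / 2) ^ 2 := by linarith
    exact le_of_sq_le_sq this (by norm_num) |>.trans le_rfl
  have hga : gO' y1 y * a ≤ gO' y1 y * (lam * h / 4) := by
    by_cases hy : y ≤ y1 + 1
    · refine mul_le_mul_of_nonneg_left ?_ (OccA_gO'_mem y1 y).1
      have h4 : (2 * m) ^ β ≤ lam / 16 := by
        rw [← hy1e, Real.mul_rpow zero_le_two hm0.le]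
        refine mul_le_mul_of_nonneg_left ?_ h2β.le
        have h5 : m ^ β = Real.exp (β * y) := by
          rw [Real.rpow_def_of_pos hm0, mul_comm]
        rw [h5]
        exact Real.exp_le_exp.mpr (mul_le_mul_of_nonneg_left hy hβ.le)
      have h6 := mul_le_mul_of_nonneg_left (add_le_add h4 hk2) (by positivity : 0 ≤ 2 * h)
      rw [ha]
      linarith
    · have h4 : gO' y1 y = 0 := by
        unfold gO'
        rw [if_neg (by linarith), if_neg hy]
      rw [h4, zero_mul, zero_mul]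
  obtain ⟨g0, g1⟩ := OccA_gO'_mem y1 y
  set g' : ℝ := gO' y1 y with hg'
  set I : ℝ := if y1 - 1 < y then 1 else 0 with hI
  have hI0 : 0 ≤ I := by
    rw [hI]
    split_ifs <;> norm_num
  set C0 : ℝ := Real.exp (-(θ * gO y1 y) + θ * (lam * h / 4) * g' + θ * h * I) with hC0
  have hC00 : 0 < C0 := Real.exp_pos _
  have hbb : ∀ u ∈ S.gd h, |S.b h u| ≤ 2 * h ^ (3 / 8 : ℝ) := B.bdd h hh (by linarith)
  have hmPsi : Measurable fun u : S.Ωp => ENNReal.ofReal (C0 *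
      (Real.exp (-(θ * g') * S.b h u) + 4 * θ * I * S.b h u ^ 2)) := by
    refine ENNReal.measurable_ofReal.comp (Measurable.const_mul ?_ _)
    exact (Real.measurable_exp.comp ((S.mb h).const_mul _)).add
      (((S.mb h).pow_const 2).const_mul _)
  have step1 : ∫⁻ ω in {ω : boxS d L → S.Ωp | ∀ v, ω v ∈ S.gd h},
      ENNReal.ofReal (Real.exp (-(θ * gO y1 (Real.log (mn (S.st h L G ω) x))))) ∂(S.mu L) ≤
      ∫⁻ ω in {ω : boxS d L → S.Ωp | ∀ v, ω v ∈ S.gd h}, ENNReal.ofReal (C0 *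
        (Real.exp (-(θ * g') * S.b h (ω x)) + 4 * θ * I * S.b h (ω x) ^ 2)) ∂(S.mu L) := by
    refine setLIntegral_mono' ?_ fun ω hω => ?_
    · have : {ω : boxS d L → S.Ωp | ∀ v, ω v ∈ S.gd h} = Set.univ.pi fun _ => S.gd h := by
        ext ω
        simp
      rw [this]
      exact MeasurableSet.univ_pi fun _ => S.mgd h
    · apply ENNReal.ofReal_le_ofReal
      have hb := hbb _ (hω x)
      have hb4 : |S.b h (ω x)| ≤ 1 / 4 := by
        have := OccA_h38 hh hh1000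
        linarith
      obtain ⟨-, hZ⟩ := H1 h hh l1 F S L G x ω hω hb hm hB
      exact OccA_path hθ hθ1 hb4 ha0 ha1 hah hga hZ
  refine step1.trans ((OccA_site S h L x _ hmPsi).trans ?_)
  -- the site integral
  have E1 := (H2 h hh l2 (-(θ * g')) (by
    rw [abs_neg, abs_of_nonneg (by positivity)]
    exact OccA_n1 hθ hθ1 g1)).1
  have E2 := H3 h hh l3
  have hlamh : lam * h ≤ 1 := by
    have h4 := mul_le_mul_of_nonneg_left l5 hlam0.le
    have h5 : lam * (1 / (lam + 1)) ≤ 1 := by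
      rw [mul_one_div, div_le_one (by linarith)]
      linarith
    linarith
  set s : ℝ := (lam * (-(θ * g')) + (-(θ * g')) ^ 2 / 2 + θ * lam / 8) * h with hs
  have hs1 : 0 ≤ 1 + s := OccA_n3 hθ hθ1 g1 hlam0 hh hlamh
  have hint : ∫⁻ u in S.gd h, ENNReal.ofReal (C0 *
      (Real.exp (-(θ * g') * S.b h u) + 4 * θ * I * S.b h u ^ 2)) ∂S.ν ≤
      ENNReal.ofReal (C0 * (1 + s + 8 * θ * I * h)) := by
    have e1 : ∀ u : S.Ωp, ENNReal.ofReal (C0 *
        (Real.exp (-(θ * g') * S.b h u) + 4 * θ * I * S.b h u ^ 2)) =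
        ENNReal.ofReal C0 * (ENNReal.ofReal (Real.exp (-(θ * g') * S.b h u)) +
          ENNReal.ofReal (4 * θ * I) * ENNReal.ofReal (S.b h u ^ 2)) := by
      intro u
      rw [ENNReal.ofReal_mul hC00.le, ENNReal.ofReal_add (Real.exp_pos _).le (by positivity),
        ENNReal.ofReal_mul (by positivity)]
    simp only [e1]
    have m1 : Measurable fun u : S.Ωp => ENNReal.ofReal (Real.exp (-(θ * g') * S.b h u)) :=
      ENNReal.measurable_ofReal.comp (Real.measurable_exp.comp ((S.mb h).const_mul _))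
    rw [lintegral_const_mul' _ _ ENNReal.ofReal_ne_top, lintegral_add_left m1,
      lintegral_const_mul' _ _ ENNReal.ofReal_ne_top]
    refine (mul_le_mul' le_rfl (add_le_add E1 (mul_le_mul' le_rfl E2))).trans ?_
    rw [← ENNReal.ofReal_mul (by positivity), ← ENNReal.ofReal_add hs1
      (by positivity), ← ENNReal.ofReal_mul hC00.le]
    apply ENNReal.ofReal_le_ofReal
    refine mul_le_mul_of_nonneg_left (le_of_eq ?_) hC00.le
    ring
  refine hint.trans (ENNReal.ofReal_le_ofReal ?_)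
  have h4 : 1 + s + 8 * θ * I * h ≤ Real.exp (s + 8 * θ * I * h) := by
    have := Real.add_one_le_exp (s + 8 * θ * I * h)
    linarith
  refine (mul_le_mul_of_nonneg_left h4 hC00.le).trans ?_
  rw [hC0, ← Real.exp_add]
  apply Real.exp_le_exp.mpr
  -- the exponent
  have hIc : I = 1 ∨ (I = 0 ∧ g' = 1) := by
    by_cases hy : y1 - 1 < y
    · left
      rw [hI, if_pos hy]
    · right
      refine ⟨by rw [hI, if_neg hy], ?_⟩
      rw [hg']
      unfold gO'
      rw [if_pos (by linarith [not_lt.mp hy])]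
  have h7 := OccA_n4 hθ hθ2 g0 g1 hlam0 hIc
  have h8 := mul_le_mul_of_nonneg_left h7 hh.le
  rw [hs]
  linarith

end

end DynG

end

/-! ### from `Lib_MP_36b788g.OccB` -/

section

/-!
# Occupation of heights of order one, many steps

`1_j = 1{y1 - 1 < log (mn (tr j) x)}`.

PROOF.
* `occ_iter`: induction on `n` for all `G` (`lintegral_cons`, `traj` of `ζ :: ω'` at `j+1` is `traj` from the state after `ζ`): the weight of the first step is `exp(h(c1-C2·1_0))`, the set for `n+1` is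
  {first noise good, `RegG` at `0`} ∩ {set for `n` after the first step}; IH, then `occ_step` (`k^{1/4} ≤ mn` and the caps for `dist v x ≤ 1` follow from `RegG k y R` and `dist x y ≤ R`).
* `occ_prob`: `w = min(1, e^{β(y1-1)})`: `min 1 (mn^β) ≥ w·1_j`. `gO(log mn(tr n)) ≤ y1+1/2`, `-gO(log mn G x) ≤ ell/4+|y1|` (`mn G x ≥ k^{1/4}`, `gO_low`; for `n = 0` the sum is empty and
  the claim is trivial since `-C0 ell < 0`). If `Σh min(1,mn^β) < c0nh-C0ell` with `c0 = w c1/C2`, `C0 = w(θ/4+2)/C2` then `ΣC2h1_j < c1nh-(θ/4+2)ell`, so the exponent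
  `-θgO+Σh(c1-C21_j) > -θ(y1+1/2)+(θ/4+2)ell`; Markov: probability `≤ exp(θ(y1+1/2)+θ|y1|+θell/4-(θ/4+2)ell) ≤ e^{C}k² ≤ k` for small `k`.
* `occ_all`: grid of `p = ⌈1/h⌉₊` steps: `s' = p⌈s/p⌉`, `t' = p⌊t/p⌋`; if `s' ≤ t'`: the sum over `[s,t)` is at least the one over `[s',t')` (terms `≥ 0`) and `(t'-s')h ≥ (t-s)h-2ph ≥ (t-s)h-4`; otherwise
  `(t-s)h ≤ 4` and the right side is negative. With `C0` enlarged by one (`4c0 ≤ ell`) it is enough to treat grid intervals: at most `(T ell+3)²` pairs and `(2R+1)^d` sites (`boxMSet.growth`, or the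
  number of points of a ball in `ℤ^d`). For a fixed pair: `lintegral_glue s'`, `traj_glue_add`, and `occ_prob` at the state at time `s'`. Total `≤ (2R+1)^d(T ell+3)²k ≤ k^{1/2}`.
-/

open MeasureTheory ProbabilityTheory
open scoped ENNReal

namespace DynG

open Dyn DynS DynC

section OccB_abs

variable {X St : Type} [MeasurableSpace X] [MeasurableSpace St]

/-- noise sequences with good noise and regular states at the times `< n` -/
private def OccB_A {X St : Type} (f : St → X → St) (R : Set St) (g : Set X) (n : ℕ) (s : St) :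
    Set (ℕ → X) :=
  {ω | ∀ j, j < n → ω j ∈ g ∧ traj f s ω j ∈ R}

private theorem OccB_A_joint (f : St → X → St) (hf : Measurable (fun p : St × X => f p.1 p.2))
    {R : Set St} (hR : MeasurableSet R) {g : Set X} (hg : MeasurableSet g) (n : ℕ) :
    MeasurableSet {p : St × (ℕ → X) | p.2 ∈ OccB_A f R g n p.1} := by
  have e : {p : St × (ℕ → X) | p.2 ∈ OccB_A f R g n p.1} =
      ⋂ j ∈ Finset.range n, ({p : St × (ℕ → X) | p.2 j ∈ g} ∩
        {p : St × (ℕ → X) | traj f p.1 p.2 j ∈ R}) := by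
    ext p
    simp only [OccB_A, Set.mem_ofPred_eq, Set.mem_inter_iff, Set.mem_iInter, Finset.mem_range]
  rw [e]
  refine Finset.measurableSet_biInter _ fun j _ => MeasurableSet.inter ?_ ?_
  · exact ((measurable_pi_apply j).comp measurable_snd) hg
  · exact (measurable_traj f hf j) hR

private theorem OccB_A_meas (f : St → X → St) (hf : Measurable (fun p : St × X => f p.1 p.2))
    {R : Set St} (hR : MeasurableSet R) {g : Set X} (hg : MeasurableSet g) (n : ℕ) (s : St) :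
    MeasurableSet (OccB_A f R g n s) :=
  (OccB_A_joint f hf hR hg n).preimage (measurable_const.prodMk measurable_id :
    Measurable fun ω : ℕ → X => (s, ω))

omit [MeasurableSpace X] [MeasurableSpace St] in
private theorem OccB_traj_cons (f : St → X → St) (s : St) (a : X) (b : ℕ → X) (j : ℕ) :
    traj f s (fun i => Nat.casesOn i a b) (j + 1) = traj f (f s a) b j := by
  induction j with
  | zero => rfl
  | succ j ih =>
    show f (traj f s (fun i => Nat.casesOn i a b) (j + 1)) (b j) = f (traj f (f s a) b j) (b j)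
    rw [ih]

omit [MeasurableSpace X] [MeasurableSpace St] in
private theorem OccB_A_cons (f : St → X → St) (R : Set St) (g : Set X) (n : ℕ) (s : St) (a : X)
    (b : ℕ → X) :
    (fun i => Nat.casesOn i a b : ℕ → X) ∈ OccB_A f R g (n + 1) s ↔
      (a ∈ g ∧ s ∈ R) ∧ b ∈ OccB_A f R g n (f s a) := by
  constructor
  · intro h
    refine ⟨h 0 (Nat.succ_pos n), fun j hj => ?_⟩
    have h1 := h (j + 1) (by omega)
    rw [OccB_traj_cons] at h1
    exact h1
  · rintro ⟨h0, h1⟩ j hj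
    cases j with
    | zero => exact h0
    | succ j =>
      rw [OccB_traj_cons]
      exact h1 j (by omega)

omit [MeasurableSpace St] in
private theorem OccB_A_glue (f : St → X → St) (R : Set St) (g : Set X) (n m : ℕ) (s : St)
    (a b : ℕ → X) (h : glue n a b ∈ OccB_A f R g (n + m) s) :
    b ∈ OccB_A f R g m (traj f s a n) := by
  intro j hj
  have h1 := h (n + j) (by omega)
  rw [traj_glue_add] at h1
  unfold glue at h1
  rw [if_neg (by omega)] at h1
  have e : n + j - n = j := by omega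
  rwa [e] at h1

private theorem OccB_iter (μ : Measure X) [IsProbabilityMeasure μ] (f : St → X → St)
    (hf : Measurable (fun p : St × X => f p.1 p.2)) {R : Set St} (hR : MeasurableSet R)
    {g : Set X} (hg : MeasurableSet g) (W Φ : St → ℝ≥0∞) (hW : Measurable W) (hΦ : Measurable Φ)
    (hstep : ∀ s ∈ R, W s * ∫⁻ a in g, Φ (f s a) ∂μ ≤ Φ s) (n : ℕ) :
    ∀ s : St, ∫⁻ ω in OccB_A f R g n s, (∏ j ∈ Finset.range n, W (traj f s ω j)) *
      Φ (traj f s ω n) ∂(PI μ) ≤ Φ s := by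
  induction n with
  | zero =>
    intro s
    refine (setLIntegral_le_lintegral _ _).trans ?_
    have : ∀ ω : ℕ → X, (∏ j ∈ Finset.range 0, W (traj f s ω j)) * Φ (traj f s ω 0) = Φ s := by
      intro ω
      rw [Finset.range_zero, Finset.prod_empty, one_mul]
      rfl
    simp_rw [this]
    simp
  | succ n ih =>
    intro s
    have hms := OccB_A_meas f hf hR hg (n + 1) s
    have hmt : ∀ j, Measurable fun ω : ℕ → X => traj f s ω j := fun j =>
      (measurable_traj f hf j).comp (measurable_const.prodMk measurable_id)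
    have hm1 : Measurable fun ω : ℕ → X => (∏ j ∈ Finset.range (n + 1), W (traj f s ω j)) *
        Φ (traj f s ω (n + 1)) :=
      (Finset.measurable_fun_prod _ fun j _ => hW.comp (hmt j)).mul (hΦ.comp (hmt (n + 1)))
    rw [← lintegral_indicator hms, lintegral_cons _ (hm1.indicator hms)]
    by_cases hs : s ∈ R
    · have key : ∀ a : X, ∫⁻ b, (OccB_A f R g (n + 1) s).indicator
          (fun ω => (∏ j ∈ Finset.range (n + 1), W (traj f s ω j)) * Φ (traj f s ω (n + 1)))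
          (fun i => Nat.casesOn i a b) ∂(PI μ) ≤ g.indicator (fun a => W s * Φ (f s a)) a := by
        intro a
        by_cases ha : a ∈ g
        · rw [Set.indicator_of_mem ha]
          have hms2 := OccB_A_meas f hf hR hg n (f s a)
          have hmt2 : ∀ j, Measurable fun ω : ℕ → X => traj f (f s a) ω j := fun j =>
            (measurable_traj f hf j).comp (measurable_const.prodMk measurable_id)
          have hm2 : Measurable fun ω : ℕ → X => (∏ j ∈ Finset.range n, W (traj f (f s a) ω j)) *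
              Φ (traj f (f s a) ω n) :=
            (Finset.measurable_fun_prod _ fun j _ => hW.comp (hmt2 j)).mul (hΦ.comp (hmt2 n))
          calc _ = ∫⁻ b, W s * (OccB_A f R g n (f s a)).indicator
                (fun ω => (∏ j ∈ Finset.range n, W (traj f (f s a) ω j)) *
                  Φ (traj f (f s a) ω n)) b ∂(PI μ) := by
                refine lintegral_congr fun b => ?_
                by_cases hb : b ∈ OccB_A f R g n (f s a)
                · rw [Set.indicator_of_mem hb,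
                    Set.indicator_of_mem ((OccB_A_cons f R g n s a b).2 ⟨⟨ha, hs⟩, hb⟩)]
                  have e1 : ∀ j, traj f s (fun i => Nat.casesOn i a b : ℕ → X) (j + 1) =
                      traj f (f s a) b j := fun j => OccB_traj_cons f s a b j
                  have e2 : ∏ j ∈ Finset.range (n + 1),
                      W (traj f s (fun i => Nat.casesOn i a b : ℕ → X) j) =
                      (∏ j ∈ Finset.range n, W (traj f (f s a) b j)) * W s := by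
                    rw [Finset.prod_range_succ']
                    congr 1
                    exact Finset.prod_congr rfl fun j _ => congrArg W (e1 j)
                  change (∏ j ∈ Finset.range (n + 1),
                      W (traj f s (fun i => Nat.casesOn i a b : ℕ → X) j)) *
                      Φ (traj f s (fun i => Nat.casesOn i a b : ℕ → X) (n + 1)) = _
                  rw [e2, e1 n]
                  ring
                · rw [Set.indicator_of_notMem hb, mul_zero,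
                    Set.indicator_of_notMem (fun hc => hb ((OccB_A_cons f R g n s a b).1 hc).2)]
            _ = W s * ∫⁻ b in OccB_A f R g n (f s a),
                (∏ j ∈ Finset.range n, W (traj f (f s a) b j)) * Φ (traj f (f s a) b n)
                  ∂(PI μ) := by
                rw [lintegral_const_mul _ (hm2.indicator hms2), lintegral_indicator hms2]
            _ ≤ W s * Φ (f s a) := by gcongr; exact ih (f s a)
        · rw [Set.indicator_of_notMem ha]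
          have : ∀ b : ℕ → X, (OccB_A f R g (n + 1) s).indicator
              (fun ω => (∏ j ∈ Finset.range (n + 1), W (traj f s ω j)) *
                Φ (traj f s ω (n + 1))) (fun i => Nat.casesOn i a b) = 0 := fun b =>
            Set.indicator_of_notMem (fun hc => ha ((OccB_A_cons f R g n s a b).1 hc).1.1) _
          simp_rw [this]
          simp
      have hm3 : Measurable fun a : X => Φ (f s a) :=
        hΦ.comp (hf.comp (measurable_const.prodMk measurable_id))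
      calc _ ≤ ∫⁻ a, g.indicator (fun a => W s * Φ (f s a)) a ∂μ := lintegral_mono key
        _ = W s * ∫⁻ a in g, Φ (f s a) ∂μ := by
            rw [lintegral_indicator hg, lintegral_const_mul _ hm3]
        _ ≤ Φ s := hstep s hs
    · have : ∀ (a : X) (b : ℕ → X), (OccB_A f R g (n + 1) s).indicator
          (fun ω => (∏ j ∈ Finset.range (n + 1), W (traj f s ω j)) *
            Φ (traj f s ω (n + 1))) (fun i => Nat.casesOn i a b) = 0 := fun a b =>
        Set.indicator_of_notMem (fun hc => hs ((OccB_A_cons f R g n s a b).1 hc).1.2) _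
      simp_rw [this]
      simp

end OccB_abs

section OccB_meas

variable {d : ℕ} {F : Fam d} {β k : ℝ}

private theorem OccB_mn (L : ℕ) (x : boxS d L) :
    Measurable fun G : (boxS d L → F.V) × (boxS d L → F.V) => mn G x := by
  unfold mn
  exact (measurable_norm.comp ((measurable_pi_apply x).comp measurable_fst)).min
    (measurable_norm.comp ((measurable_pi_apply x).comp measurable_snd))

private theorem OccB_Reg (L : ℕ) (y : boxS d L) (R : ℕ) :
    MeasurableSet {G : (boxS d L → F.V) × (boxS d L → F.V) | RegG k y R G} := by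
  have n1 : ∀ x : boxS d L, Measurable fun G : (boxS d L → F.V) × (boxS d L → F.V) => ‖G.1 x‖ :=
    fun x => measurable_norm.comp ((measurable_pi_apply x).comp measurable_fst)
  have n2 : ∀ x : boxS d L, Measurable fun G : (boxS d L → F.V) × (boxS d L → F.V) => ‖G.2 x‖ :=
    fun x => measurable_norm.comp ((measurable_pi_apply x).comp measurable_snd)
  have e : {G : (boxS d L → F.V) × (boxS d L → F.V) | RegG k y R G} =
      (⋂ x : boxS d L, {G | (boxNet d L).dist x y ≤ R →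
        k ^ (1 / 4 : ℝ) ≤ ‖G.1 x‖ ∧ k ^ (1 / 4 : ℝ) ≤ ‖G.2 x‖}) ∩
      (⋂ x : boxS d L, {G | (boxNet d L).dist x y ≤ R + 1 →
        ‖G.1 x‖ ≤ k ^ (-(1 / 16) : ℝ) ∧ ‖G.2 x‖ ≤ k ^ (-(1 / 16) : ℝ)}) := by
    ext G
    simp only [RegG, Set.mem_ofPred_eq, Set.mem_inter_iff, Set.mem_iInter]
  rw [e]
  refine MeasurableSet.inter (MeasurableSet.iInter fun x => ?_) (MeasurableSet.iInter fun x => ?_)
  · by_cases hx : (boxNet d L).dist x y ≤ R
    · simp only [hx, true_imp_iff]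
      exact (measurableSet_le measurable_const (n1 x)).inter
        (measurableSet_le measurable_const (n2 x))
    · simp only [hx, false_imp_iff]
      exact MeasurableSet.univ
  · by_cases hx : (boxNet d L).dist x y ≤ R + 1
    · simp only [hx, true_imp_iff]
      exact (measurableSet_le (n1 x) measurable_const).inter
        (measurableSet_le (n2 x) measurable_const)
    · simp only [hx, false_imp_iff]
      exact MeasurableSet.univ

private theorem OccB_gd (S : PSys F β k) (h : ℝ) (L : ℕ) :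
    MeasurableSet {a : boxS d L → S.Ωp | ∀ v, a v ∈ S.gd h} := by
  have e : {a : boxS d L → S.Ωp | ∀ v, a v ∈ S.gd h} =
      ⋂ v : boxS d L, (fun a : boxS d L → S.Ωp => a v) ⁻¹' S.gd h := by
    ext a
    simp only [Set.mem_ofPred_eq, Set.mem_iInter, Set.mem_preimage]
  rw [e]
  exact MeasurableSet.iInter fun v => (measurable_pi_apply v) (S.mgd h)

end OccB_meas

theorem occ_iter (N d : ℕ) (hN : 3 ≤ N) (β : ℝ) (hβ : 0 < β) : ∃ y1 θ c1 C2 k0 : ℝ, 0 < θ ∧
    θ ≤ 1 ∧ 0 < c1 ∧ 0 < C2 ∧ 0 < k0 ∧ k0 < 1 ∧ ∀ (F : Fam d) (k : ℝ) (S : PSys F β k), 0 < k →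
    k < k0 → BNoise N S.ν S.b S.gd → ∃ h0 : ℝ, 0 < h0 ∧ h0 ≤ 1 / 1000 ∧ ∀ h, 0 < h → h < h0 →
    ∀ (L : ℕ) (y x : boxS d L) (R : ℕ), (boxNet d L).dist x y ≤ R →
    ∀ (n : ℕ) (G : (boxS d L → F.V) × (boxS d L → F.V)),
      ∫⁻ ω in {ω | ∀ j, j < n → (∀ v, ω j v ∈ S.gd h) ∧ RegG k y R (S.tr h L G ω j)},
          ENNReal.ofReal (Real.exp (-(θ * gO y1 (Real.log (mn (S.tr h L G ω n) x))) +
            ∑ j ∈ Finset.range n, h * (c1 - C2 *
              (if y1 - 1 < Real.log (mn (S.tr h L G ω j) x) then 1 else 0)))) ∂(PI (S.mu L)) ≤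
        ENNReal.ofReal (Real.exp (-(θ * gO y1 (Real.log (mn G x))))) := by
  classical
  obtain ⟨y1, θ, c1, C2, k0, hθ, hθ1, hc1, hC2, hk0, hk01, H⟩ := occ_step N d hN β hβ
  refine ⟨y1, θ, c1, C2, k0, hθ, hθ1, hc1, hC2, hk0, hk01, fun F k S hk hkk hB => ?_⟩
  obtain ⟨h0, hh0, hh01, H2⟩ := H F k S hk hkk hB
  refine ⟨h0, hh0, hh01, fun h hh hhh L y x R hxy n G => ?_⟩
  have H3 := H2 h hh hhh L
  let one : ((boxS d L → F.V) × (boxS d L → F.V)) → ℝ :=
    fun G => if y1 - 1 < Real.log (mn G x) then 1 else 0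
  let W : ((boxS d L → F.V) × (boxS d L → F.V)) → ℝ≥0∞ :=
    fun G => ENNReal.ofReal (Real.exp (h * (c1 - C2 * one G)))
  let Φ : ((boxS d L → F.V) × (boxS d L → F.V)) → ℝ≥0∞ :=
    fun G => ENNReal.ofReal (Real.exp (-(θ * gO y1 (Real.log (mn G x)))))
  have hlog : Measurable fun G : (boxS d L → F.V) × (boxS d L → F.V) => Real.log (mn G x) :=
    Real.measurable_log.comp (OccB_mn L x)
  have hone : Measurable one :=
    Measurable.ite (measurableSet_lt measurable_const hlog) measurable_const measurable_const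
  have hW : Measurable W := ENNReal.measurable_ofReal.comp
    (Real.measurable_exp.comp ((measurable_const.sub (hone.const_mul C2)).const_mul h))
  have hΦ : Measurable Φ := ENNReal.measurable_ofReal.comp
    (Real.measurable_exp.comp ((((measurable_gO y1).comp hlog).const_mul θ).neg))
  have hstep : ∀ s ∈ {G : (boxS d L → F.V) × (boxS d L → F.V) | RegG k y R G},
      W s * ∫⁻ a in {a : boxS d L → S.Ωp | ∀ v, a v ∈ S.gd h}, Φ (S.st h L s a) ∂(S.mu L) ≤
        Φ s := by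
    intro s hs
    have hs' : RegG k y R s := hs
    have h1 := H3 s x (le_min (hs'.1 x hxy).1 (hs'.1 x hxy).2) (fun v hv => by
      refine hs'.2 v ?_
      have := (boxNet d L).dist_tri v x y
      omega)
    calc W s * ∫⁻ a in {a : boxS d L → S.Ωp | ∀ v, a v ∈ S.gd h}, Φ (S.st h L s a) ∂(S.mu L)
        ≤ W s * ENNReal.ofReal (Real.exp (-(θ * gO y1 (Real.log (mn s x))) +
          h * (-c1 + C2 * one s))) := by
          gcongr
      _ = Φ s := by
          simp only [W, Φ]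
          rw [← ENNReal.ofReal_mul (Real.exp_pos _).le, ← Real.exp_add]
          congr 2
          ring_nf
  have hmain := OccB_iter (S.mu L) (S.st h L) (S.mst h L) (OccB_Reg (k := k) L y R)
    (OccB_gd S h L) W Φ hW hΦ hstep n G
  refine le_trans (le_of_eq ?_) hmain
  refine lintegral_congr fun ω => ?_
  simp only [W, Φ, one]
  rw [← ENNReal.ofReal_prod_of_nonneg (fun j _ => (Real.exp_pos _).le), ← Real.exp_sum,
    ← ENNReal.ofReal_mul (Real.exp_pos _).le, ← Real.exp_add, add_comm]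
  rfl

private theorem OccB_ell {k : ℝ} (hk : 0 < k) : Real.exp (-ell k) = k := by
  unfold ell
  rw [one_div, Real.log_inv, neg_neg, Real.exp_log hk]

theorem occ_prob (N d : ℕ) (hN : 3 ≤ N) (β : ℝ) (hβ : 0 < β) : ∃ c0 C0 k0 : ℝ, 0 < c0 ∧
    0 < C0 ∧ 0 < k0 ∧ k0 < 1 ∧ ∀ (F : Fam d) (k : ℝ) (S : PSys F β k), 0 < k →
    k < k0 → BNoise N S.ν S.b S.gd → ∃ h0 : ℝ, 0 < h0 ∧ h0 ≤ 1 / 1000 ∧ ∀ h, 0 < h → h < h0 →
    ∀ (L : ℕ) (y x : boxS d L) (R : ℕ), (boxNet d L).dist x y ≤ R →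
    ∀ (n : ℕ) (G : (boxS d L → F.V) × (boxS d L → F.V)),
      PI (S.mu L) {ω | (∀ j, j < n → (∀ v, ω j v ∈ S.gd h) ∧ RegG k y R (S.tr h L G ω j)) ∧
        ∑ j ∈ Finset.range n, h * min 1 (mn (S.tr h L G ω j) x ^ β) < c0 * n * h - C0 * ell k} ≤
        ENNReal.ofReal k := by
  classical
  obtain ⟨y1, θ, c1, C2, k1, hθ, hθ1, hc1, hC2, hk1, hk11, H⟩ := occ_iter N d hN β hβ
  set w : ℝ := min 1 (Real.exp (β * (y1 - 1))) with hw
  have hw0 : 0 < w := lt_min one_pos (Real.exp_pos _)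
  set Cc : ℝ := θ * (y1 + 1 / 2) + θ * |y1| with hCc
  refine ⟨w * c1 / C2, w * (θ / 4 + 2) / C2, min k1 (Real.exp (-Cc)), by positivity, by positivity,
    lt_min hk1 (Real.exp_pos _), (min_le_left _ _).trans_lt hk11, fun F k S hk hkk hB => ?_⟩
  have hkk1 : k < k1 := hkk.trans_le (min_le_left _ _)
  have hkk2 : k < Real.exp (-Cc) := hkk.trans_le (min_le_right _ _)
  obtain ⟨h0, hh0, hh01, H2⟩ := H F k S hk hkk1 hB
  refine ⟨h0, hh0, hh01, fun h hh hhh L y x R hxy n G => ?_⟩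
  have H3 := H2 h hh hhh L y x R hxy n G
  have hell : 0 < ell k := by
    unfold ell
    exact Real.log_pos (by rw [lt_div_iff₀ hk]; linarith)
  set E : Set (ℕ → boxS d L → S.Ωp) := {ω | (∀ j, j < n → (∀ v, ω j v ∈ S.gd h) ∧
    RegG k y R (S.tr h L G ω j)) ∧ ∑ j ∈ Finset.range n, h * min 1 (mn (S.tr h L G ω j) x ^ β) <
      w * c1 / C2 * n * h - w * (θ / 4 + 2) / C2 * ell k} with hE
  rcases Nat.eq_zero_or_pos n with hn | hn
  · have : E = ∅ := by
      rw [Set.eq_empty_iff_forall_notMem]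
      rintro ω ⟨_, hω⟩
      rw [hn] at hω
      simp only [Finset.range_zero, Finset.sum_empty, Nat.cast_zero, mul_zero, zero_mul,
        zero_sub] at hω
      have : 0 < w * (θ / 4 + 2) / C2 * ell k := by positivity
      linarith
    rw [this, measure_empty]
    exact zero_le
  by_cases hG : RegG k y R G
  swap
  · have : E = ∅ := by
      rw [Set.eq_empty_iff_forall_notMem]
      rintro ω ⟨hω, _⟩
      exact hG (hω 0 hn).2
    rw [this, measure_empty]
    exact zero_le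
  have hmG : k ^ (1 / 4 : ℝ) ≤ mn G x := le_min (hG.1 x hxy).1 (hG.1 x hxy).2
  -- the exponent
  let Xf : (ℕ → boxS d L → S.Ωp) → ℝ := fun ω =>
    -(θ * gO y1 (Real.log (mn (S.tr h L G ω n) x))) +
      ∑ j ∈ Finset.range n, h * (c1 - C2 *
        (if y1 - 1 < Real.log (mn (S.tr h L G ω j) x) then 1 else 0))
  have hlog : ∀ j, Measurable fun ω : ℕ → boxS d L → S.Ωp =>
      Real.log (mn (S.tr h L G ω j) x) := fun j =>
    Real.measurable_log.comp ((OccB_mn L x).comp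
      ((measurable_tr S h L j).comp (measurable_const.prodMk measurable_id)))
  have hXm : Measurable Xf := by
    refine Measurable.add ((((measurable_gO y1).comp (hlog n)).const_mul θ).neg) ?_
    refine Finset.measurable_fun_sum _ fun j _ => ?_
    refine Measurable.const_mul (measurable_const.sub (Measurable.const_mul ?_ C2)) h
    exact Measurable.ite (measurableSet_lt measurable_const (hlog j)) measurable_const
      measurable_const
  set L0 : ℝ := -(θ * (y1 + 1 / 2)) + (θ / 4 + 2) * ell k with hL0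
  have hX : ∀ ω ∈ E, L0 ≤ Xf ω := by
    rintro ω ⟨h1, h2⟩
    have h3 : ∑ j ∈ Finset.range n, h * (w *
        (if y1 - 1 < Real.log (mn (S.tr h L G ω j) x) then 1 else 0)) ≤
        ∑ j ∈ Finset.range n, h * min 1 (mn (S.tr h L G ω j) x ^ β) := by
      refine Finset.sum_le_sum fun j hj => ?_
      refine mul_le_mul_of_nonneg_left ?_ hh.le
      have hr := (h1 j (Finset.mem_range.1 hj)).2
      have hm : 0 < mn (S.tr h L G ω j) x :=
        lt_min ((Real.rpow_pos_of_pos hk _).trans_le (hr.1 x hxy).1)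
          ((Real.rpow_pos_of_pos hk _).trans_le (hr.1 x hxy).2)
      split_ifs with hc
      · rw [mul_one, hw, Real.rpow_def_of_pos hm]
        refine min_le_min le_rfl (Real.exp_le_exp.2 ?_)
        nlinarith
      · rw [mul_zero]
        exact le_min zero_le_one (Real.rpow_nonneg hm.le _)
    have h4 : C2 * ∑ j ∈ Finset.range n, h *
        (if y1 - 1 < Real.log (mn (S.tr h L G ω j) x) then (1 : ℝ) else 0) <
        c1 * n * h - (θ / 4 + 2) * ell k := by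
      have h5 : w * ∑ j ∈ Finset.range n, h *
          (if y1 - 1 < Real.log (mn (S.tr h L G ω j) x) then (1 : ℝ) else 0) <
          w * c1 / C2 * n * h - w * (θ / 4 + 2) / C2 * ell k := by
        refine lt_of_le_of_lt (le_of_eq_of_le ?_ h3) h2
        rw [Finset.mul_sum]
        exact Finset.sum_congr rfl fun j _ => by ring
      have h6 : w * c1 / C2 * n * h - w * (θ / 4 + 2) / C2 * ell k =
          w * ((c1 * n * h - (θ / 4 + 2) * ell k) / C2) := by ring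
      rw [h6] at h5
      have h7 := lt_of_mul_lt_mul_left h5 hw0.le
      rw [lt_div_iff₀ hC2] at h7
      linarith
    have h8 : ∑ j ∈ Finset.range n, h * (c1 - C2 *
        (if y1 - 1 < Real.log (mn (S.tr h L G ω j) x) then (1 : ℝ) else 0)) =
        c1 * n * h - C2 * ∑ j ∈ Finset.range n, h *
        (if y1 - 1 < Real.log (mn (S.tr h L G ω j) x) then (1 : ℝ) else 0) := by
      rw [Finset.mul_sum]
      have e : ∀ j ∈ Finset.range n, h * (c1 - C2 *
          (if y1 - 1 < Real.log (mn (S.tr h L G ω j) x) then (1 : ℝ) else 0)) =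
          h * c1 - C2 * (h *
          (if y1 - 1 < Real.log (mn (S.tr h L G ω j) x) then (1 : ℝ) else 0)) := fun j _ => by ring
      rw [Finset.sum_congr rfl e, Finset.sum_sub_distrib, Finset.sum_const, Finset.card_range,
        nsmul_eq_mul]
      ring
    have h9 := mul_le_mul_of_nonneg_left (gO_le y1 (Real.log (mn (S.tr h L G ω n) x))) hθ.le
    change L0 ≤ -(θ * gO y1 (Real.log (mn (S.tr h L G ω n) x))) +
      ∑ j ∈ Finset.range n, h * (c1 - C2 *
        (if y1 - 1 < Real.log (mn (S.tr h L G ω j) x) then 1 else 0)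
      )
    rw [h8, hL0]
    linarith
  have hM : ENNReal.ofReal (Real.exp L0) * PI (S.mu L) E ≤
      ENNReal.ofReal (Real.exp (-(θ * gO y1 (Real.log (mn G x))))) := by
    calc ENNReal.ofReal (Real.exp L0) * PI (S.mu L) E
        = ∫⁻ _ in E, ENNReal.ofReal (Real.exp L0) ∂(PI (S.mu L)) := (setLIntegral_const _ _).symm
      _ ≤ ∫⁻ ω in E, ENNReal.ofReal (Real.exp (Xf ω)) ∂(PI (S.mu L)) := by
          refine setLIntegral_mono (ENNReal.measurable_ofReal.comp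
            (Real.measurable_exp.comp hXm)) fun ω hω => ?_
          exact ENNReal.ofReal_le_ofReal (Real.exp_le_exp.2 (hX ω hω))
      _ ≤ ∫⁻ ω in {ω | ∀ j, j < n → (∀ v, ω j v ∈ S.gd h) ∧ RegG k y R (S.tr h L G ω j)},
          ENNReal.ofReal (Real.exp (Xf ω)) ∂(PI (S.mu L)) :=
          lintegral_mono_set fun ω hω => hω.1
      _ ≤ _ := H3
  have hB0 : -(θ * gO y1 (Real.log (mn G x))) - L0 ≤ Cc - 2 * ell k := by
    have h1 : -(ell k / 4) ≤ Real.log (mn G x) := by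
      have h2 : Real.log (k ^ (1 / 4 : ℝ)) ≤ Real.log (mn G x) :=
        Real.log_le_log (Real.rpow_pos_of_pos hk _) hmG
      rw [Real.log_rpow hk] at h2
      have h3 : ell k = -Real.log k := by
        unfold ell
        rw [one_div, Real.log_inv]
      linarith
    have h2 := gO_low y1 (Real.log (mn G x))
    have h3 : -(ell k / 4) - |y1| ≤ min (Real.log (mn G x)) y1 := by
      refine le_min ?_ ?_
      · linarith [abs_nonneg y1]
      · linarith [neg_abs_le y1]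
    have h4 := mul_le_mul_of_nonneg_left (h3.trans h2) hθ.le
    rw [hL0, hCc]
    nlinarith
  have hfin : PI (S.mu L) E ≤ ENNReal.ofReal (Real.exp (Cc - 2 * ell k)) := by
    calc PI (S.mu L) E = ENNReal.ofReal (Real.exp (-L0)) *
          (ENNReal.ofReal (Real.exp L0) * PI (S.mu L) E) := by
          rw [← mul_assoc, ← ENNReal.ofReal_mul (Real.exp_pos _).le, ← Real.exp_add,
            neg_add_cancel, Real.exp_zero, ENNReal.ofReal_one, one_mul]
      _ ≤ ENNReal.ofReal (Real.exp (-L0)) *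
          ENNReal.ofReal (Real.exp (-(θ * gO y1 (Real.log (mn G x))))) := by gcongr
      _ = ENNReal.ofReal (Real.exp (-(θ * gO y1 (Real.log (mn G x))) - L0)) := by
          rw [← ENNReal.ofReal_mul (Real.exp_pos _).le, ← Real.exp_add]
          congr 2
          ring
      _ ≤ ENNReal.ofReal (Real.exp (Cc - 2 * ell k)) :=
          ENNReal.ofReal_le_ofReal (Real.exp_le_exp.2 hB0)
  refine hfin.trans (ENNReal.ofReal_le_ofReal ?_)
  have e1 : Real.exp (Cc - 2 * ell k) = Real.exp Cc * k * k := by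
    have : Cc - 2 * ell k = Cc + -ell k + -ell k := by ring
    rw [this, Real.exp_add, Real.exp_add, OccB_ell hk]
  rw [e1]
  have e2 : Real.exp Cc * k ≤ 1 := by
    calc Real.exp Cc * k ≤ Real.exp Cc * Real.exp (-Cc) := by gcongr
      _ = 1 := by rw [← Real.exp_add, add_neg_cancel, Real.exp_zero]
  calc Real.exp Cc * k * k ≤ 1 * k := by gcongr
    _ = k := one_mul k

private theorem OccB_ball (d L R : ℕ) (y : boxS d L) :
    ((Finset.univ.filter fun x : boxS d L => (boxNet d L).dist x y ≤ R).card : ℝ) ≤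
      3 ^ d * 2 ^ R := by
  classical
  have h1 := (boxNet d L).sum_half y
  have h2 : ((Finset.univ.filter fun x : boxS d L => (boxNet d L).dist x y ≤ R).card : ℝ) *
      (1 / 2 : ℝ) ^ R ≤ ∑ z, (1 / 2 : ℝ) ^ (boxNet d L).dist y z := by
    rw [← nsmul_eq_mul, ← Finset.sum_const]
    calc ∑ _x ∈ Finset.univ.filter fun x : boxS d L => (boxNet d L).dist x y ≤ R,
          (1 / 2 : ℝ) ^ R
        ≤ ∑ x ∈ Finset.univ.filter fun x : boxS d L => (boxNet d L).dist x y ≤ R,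
          (1 / 2 : ℝ) ^ (boxNet d L).dist y x := by
          refine Finset.sum_le_sum fun x hx => ?_
          rw [(boxNet d L).dist_comm y x]
          exact pow_le_pow_of_le_one (by norm_num) (by norm_num) (Finset.mem_filter.1 hx).2
      _ ≤ ∑ z, (1 / 2 : ℝ) ^ (boxNet d L).dist y z :=
          Finset.sum_le_sum_of_subset_of_nonneg (Finset.filter_subset _ _)
            fun z _ _ => by positivity
  have h3 := h2.trans h1
  have h4 : (1 / 2 : ℝ) ^ R * 2 ^ R = 1 := by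
    rw [← mul_pow]
    norm_num
  calc ((Finset.univ.filter fun x : boxS d L => (boxNet d L).dist x y ≤ R).card : ℝ)
      = ((Finset.univ.filter fun x : boxS d L => (boxNet d L).dist x y ≤ R).card : ℝ) *
        (1 / 2 : ℝ) ^ R * 2 ^ R := by rw [mul_assoc, h4, mul_one]
    _ ≤ 3 ^ d * 2 ^ R := by gcongr

/-- one pair of times, general starting time -/
private theorem OccB_pair {d : ℕ} {F : Fam d} {β k : ℝ} (S : PSys F β k) (h c0 C0 : ℝ) (L : ℕ)
    (y x : boxS d L) (R : ℕ)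
    (H : ∀ (n : ℕ) (G : (boxS d L → F.V) × (boxS d L → F.V)),
      PI (S.mu L) {ω | (∀ j, j < n → (∀ v, ω j v ∈ S.gd h) ∧ RegG k y R (S.tr h L G ω j)) ∧
        ∑ j ∈ Finset.range n, h * min 1 (mn (S.tr h L G ω j) x ^ β) < c0 * n * h - C0 * ell k} ≤
        ENNReal.ofReal k)
    (s m : ℕ) (G : (boxS d L → F.V) × (boxS d L → F.V)) :
    PI (S.mu L) {ω | (∀ j, j < s + m → (∀ v, ω j v ∈ S.gd h) ∧
        RegG k y R (S.tr h L G ω j)) ∧
      ∑ j ∈ Finset.Ico s (s + m), h * min 1 (mn (S.tr h L G ω j) x ^ β) <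
        c0 * m * h - C0 * ell k} ≤ ENNReal.ofReal k := by
  classical
  set E : Set (ℕ → boxS d L → S.Ωp) := {ω | (∀ j, j < s + m → (∀ v, ω j v ∈ S.gd h) ∧
        RegG k y R (S.tr h L G ω j)) ∧
      ∑ j ∈ Finset.Ico s (s + m), h * min 1 (mn (S.tr h L G ω j) x ^ β) <
        c0 * m * h - C0 * ell k} with hE
  have hmm : ∀ j, Measurable fun ω : ℕ → boxS d L → S.Ωp => mn (S.tr h L G ω j) x := fun j =>
    (OccB_mn L x).comp ((measurable_tr S h L j).comp (measurable_const.prodMk measurable_id))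
  have hEm : MeasurableSet E := by
    have hs1 := OccB_A_meas (S.st h L) (S.mst h L) (OccB_Reg (k := k) L y R)
      (OccB_gd S h L) (s + m) G
    have hs2 : Measurable fun ω : ℕ → boxS d L → S.Ωp =>
        ∑ j ∈ Finset.Ico s (s + m), h * min 1 (mn (S.tr h L G ω j) x ^ β) := by
      refine Finset.measurable_fun_sum _ fun j _ => Measurable.const_mul ?_ h
      exact measurable_const.min ((hmm j).pow_const β)
    have hs3 : MeasurableSet {ω : ℕ → boxS d L → S.Ωp |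
        ∑ j ∈ Finset.Ico s (s + m), h * min 1 (mn (S.tr h L G ω j) x ^ β) <
        c0 * m * h - C0 * ell k} := measurableSet_lt hs2 measurable_const
    exact hs1.inter hs3
  rw [← lintegral_indicator_one hEm, lintegral_glue s _ (measurable_one.indicator hEm)]
  have key : ∀ a : ℕ → boxS d L → S.Ωp,
      ∫⁻ b, E.indicator 1 (glue s a b) ∂(PI (S.mu L)) ≤ ENNReal.ofReal k := by
    intro a
    set E' : Set (ℕ → boxS d L → S.Ωp) := {ω | (∀ j, j < m → (∀ v, ω j v ∈ S.gd h) ∧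
        RegG k y R (S.tr h L (traj (S.st h L) G a s) ω j)) ∧
        ∑ j ∈ Finset.range m, h * min 1 (mn (S.tr h L (traj (S.st h L) G a s) ω j) x ^ β) <
          c0 * m * h - C0 * ell k} with hE'
    have hmm' : ∀ j, Measurable fun ω : ℕ → boxS d L → S.Ωp =>
        mn (S.tr h L (traj (S.st h L) G a s) ω j) x := fun j =>
      (OccB_mn L x).comp ((measurable_tr S h L j).comp (measurable_const.prodMk measurable_id))
    have hEm' : MeasurableSet E' := by
      have hs1 := OccB_A_meas (S.st h L) (S.mst h L) (OccB_Reg (k := k) L y R)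
        (OccB_gd S h L) m (traj (S.st h L) G a s)
      have hs2 : Measurable fun ω : ℕ → boxS d L → S.Ωp =>
          ∑ j ∈ Finset.range m,
            h * min 1 (mn (S.tr h L (traj (S.st h L) G a s) ω j) x ^ β) := by
        refine Finset.measurable_fun_sum _ fun j _ => Measurable.const_mul ?_ h
        exact measurable_const.min ((hmm' j).pow_const β)
      have hs3 : MeasurableSet {ω : ℕ → boxS d L → S.Ωp |
          ∑ j ∈ Finset.range m,
            h * min 1 (mn (S.tr h L (traj (S.st h L) G a s) ω j) x ^ β) <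
          c0 * m * h - C0 * ell k} := measurableSet_lt hs2 measurable_const
      exact hs1.inter hs3
    calc ∫⁻ b, E.indicator 1 (glue s a b) ∂(PI (S.mu L))
        ≤ ∫⁻ b, E'.indicator 1 b ∂(PI (S.mu L)) := by
          refine lintegral_mono fun b => ?_
          by_cases hb : glue s a b ∈ E
          · have hb' : b ∈ E' := by
              refine ⟨OccB_A_glue (S.st h L)
                {G : (boxS d L → F.V) × (boxS d L → F.V) | RegG k y R G}
                {a : boxS d L → S.Ωp | ∀ v, a v ∈ S.gd h} s m G a b hb.1, ?_⟩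
              have h1 := hb.2
              rw [Finset.sum_Ico_eq_sum_range, Nat.add_sub_cancel_left] at h1
              refine lt_of_le_of_lt (le_of_eq ?_) h1
              refine Finset.sum_congr rfl fun j _ => ?_
              have e : S.tr h L G (glue s a b) (s + j) =
                  S.tr h L (traj (S.st h L) G a s) b j := traj_glue_add (S.st h L) G s a b j
              rw [e]
            rw [Set.indicator_of_mem hb, Set.indicator_of_mem hb']
            exact le_rfl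
          · rw [Set.indicator_of_notMem hb]
            exact zero_le
      _ = PI (S.mu L) E' := lintegral_indicator_one hEm'
      _ ≤ ENNReal.ofReal k := H m _
  calc ∫⁻ a, ∫⁻ b, E.indicator 1 (glue s a b) ∂(PI (S.mu L)) ∂(PI (S.mu L))
      ≤ ∫⁻ _, ENNReal.ofReal k ∂(PI (S.mu L)) := lintegral_mono key
    _ = ENNReal.ofReal k := by rw [lintegral_const, measure_univ, mul_one]

/-- reduction to multiples of `p` -/
private theorem OccB_grid (f : ℕ → ℝ) (hf : ∀ j, 0 ≤ f j) (c0 C0 h e : ℝ) (hc0 : 0 < c0)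
    (hC0 : 0 < C0) (he : 4 * c0 ≤ e) (hh : 0 < h) (p : ℕ) (hp : 0 < p) (hph : p * h ≤ 2)
    (s t n : ℕ) (hst : s ≤ t) (htn : t ≤ n)
    (hlt : ∑ j ∈ Finset.Ico s t, f j < c0 * ((t - s : ℕ) : ℝ) * h - (C0 + 1) * e) :
    ∃ i m, p * i + p * m ≤ n ∧
      ∑ j ∈ Finset.Ico (p * i) (p * i + p * m), f j < c0 * ((p * m : ℕ) : ℝ) * h - C0 * e := by
  have he0 : 0 < e := by linarith
  set i := (s + p - 1) / p with hi
  set i' := t / p with hi'
  have h1 : s ≤ p * i := by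
    have := Nat.div_add_mod (s + p - 1) p
    have h2 := Nat.mod_lt (s + p - 1) hp
    rw [← hi] at this
    omega
  have h2 : p * i < s + p := by
    have := Nat.mul_div_le (s + p - 1) p
    rw [← hi] at this
    omega
  have h3 : p * i' ≤ t := Nat.mul_div_le t p
  have h4 : t < p * i' + p := by
    have := Nat.div_add_mod t p
    have h2 := Nat.mod_lt t hp
    rw [← hi'] at this
    omega
  have hcast : ((t - s : ℕ) : ℝ) = (t : ℝ) - s := Nat.cast_sub hst
  rw [hcast] at hlt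
  have hsum0 : 0 ≤ ∑ j ∈ Finset.Ico s t, f j := Finset.sum_nonneg fun j _ => hf j
  by_cases hii : i ≤ i'
  · refine ⟨i, i' - i, ?_, ?_⟩
    · rw [← mul_add, Nat.add_sub_cancel' hii]
      omega
    · have e1 : p * i + p * (i' - i) = p * i' := by
        rw [← mul_add, Nat.add_sub_cancel' hii]
      rw [e1]
      have h5 : ∑ j ∈ Finset.Ico (p * i) (p * i'), f j ≤ ∑ j ∈ Finset.Ico s t, f j :=
        Finset.sum_le_sum_of_subset_of_nonneg (Finset.Ico_subset_Ico h1 h3) fun j _ _ => hf j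
      have h6 : ((p * (i' - i) : ℕ) : ℝ) = (p * i' : ℕ) - (p * i : ℕ) := by
        rw [← Nat.cast_sub (Nat.mul_le_mul_left p hii), Nat.mul_sub]
      have h7 : (t : ℝ) < (p * i' : ℕ) + p := by exact_mod_cast h4
      have h8 : ((p * i : ℕ) : ℝ) < s + p := by exact_mod_cast h2
      have h9 : (t : ℝ) - s ≤ ((p * (i' - i) : ℕ) : ℝ) + 2 * p := by
        rw [h6]; linarith
      have h10 : c0 * ((t : ℝ) - s) * h ≤ c0 * ((p * (i' - i) : ℕ) : ℝ) * h + e := by
        have h11 : c0 * ((t : ℝ) - s) * h ≤ c0 * (((p * (i' - i) : ℕ) : ℝ) + 2 * p) * h := by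
          gcongr
        have h12 : c0 * (((p * (i' - i) : ℕ) : ℝ) + 2 * p) * h =
            c0 * ((p * (i' - i) : ℕ) : ℝ) * h + 2 * c0 * (p * h) := by ring
        have h13 : 2 * c0 * (p * h) ≤ 2 * c0 * 2 := by gcongr
        linarith
      linarith
  · exfalso
    have h5 : p * i' + p ≤ p * i := by
      have : i' + 1 ≤ i := by omega
      calc p * i' + p = p * (i' + 1) := by ring
        _ ≤ p * i := Nat.mul_le_mul_left p this
    have h6 : t ≤ s + p := by omega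
    have h7 : (t : ℝ) - s ≤ p := by
      have : (t : ℝ) ≤ s + p := by exact_mod_cast h6
      linarith
    have h8 : c0 * ((t : ℝ) - s) * h ≤ c0 * p * h := by gcongr
    have h9 : c0 * p * h ≤ c0 * 2 := by
      rw [mul_assoc]; gcongr
    have h10 : 0 < C0 * e := by positivity
    linarith

theorem occ_all (N d : ℕ) (hN : 3 ≤ N) (β : ℝ) (hβ : 0 < β) : ∃ c0 C0 : ℝ, 0 < c0 ∧
    0 < C0 ∧ ∀ (T : ℝ) (R : ℕ), 1 ≤ T → ∃ k0 : ℝ, 0 < k0 ∧ k0 < 1 ∧
    ∀ (F : Fam d) (k : ℝ) (S : PSys F β k), 0 < k →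
    k < k0 → BNoise N S.ν S.b S.gd → ∃ h0 : ℝ, 0 < h0 ∧ h0 ≤ 1 / 1000 ∧ ∀ h, 0 < h → h < h0 →
    ∀ (L : ℕ) (y : boxS d L) (n : ℕ) (G : (boxS d L → F.V) × (boxS d L → F.V)),
      n * h ≤ T * ell k + 1 →
      PI (S.mu L) {ω | (∀ j, j < n → (∀ v, ω j v ∈ S.gd h) ∧ RegG k y R (S.tr h L G ω j)) ∧
        ∃ x, (boxNet d L).dist x y ≤ R ∧ ∃ s t, s ≤ t ∧ t ≤ n ∧
          ∑ j ∈ Finset.Ico s t, h * min 1 (mn (S.tr h L G ω j) x ^ β) <
            c0 * ((t - s : ℕ) : ℝ) * h - C0 * ell k} ≤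
        ENNReal.ofReal (k ^ (1 / 2 : ℝ)) := by
  classical
  obtain ⟨c0, C0, k1, hc0, hC0, hk1, hk11, H⟩ := occ_prob N d hN β hβ
  refine ⟨c0, C0 + 1, hc0, by positivity, fun T R hT => ?_⟩
  set M : ℝ := 3 ^ d * 2 ^ R * (8 * T + 3) ^ 2 with hM
  have hM0 : 0 < M := by positivity
  refine ⟨min k1 (min (Real.exp (-(4 * c0))) (M⁻¹ ^ 4)), by positivity,
    (min_le_left _ _).trans_lt hk11, fun F k S hk hkk hB => ?_⟩
  have hkk1 : k < k1 := hkk.trans_le (min_le_left _ _)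
  have hkk2 : k < Real.exp (-(4 * c0)) :=
    hkk.trans_le ((min_le_right _ _).trans (min_le_left _ _))
  have hkk3 : k < M⁻¹ ^ 4 := hkk.trans_le ((min_le_right _ _).trans (min_le_right _ _))
  have hk1' : k < 1 := hkk1.trans hk11
  obtain ⟨h0, hh0, hh01, H2⟩ := H F k S hk hkk1 hB
  refine ⟨h0, hh0, hh01, fun h hh hhh L y n G hn => ?_⟩
  have hell : 4 * c0 ≤ ell k := by
    have h1 : Real.exp (-ell k) ≤ Real.exp (-(4 * c0)) := by rw [OccB_ell hk]; exact hkk2.le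
    have := Real.exp_le_exp.1 h1
    linarith
  have hell0 : 0 < ell k := by linarith
  have hell8 : ell k ≤ 8 * k ^ (-(1 / 8) : ℝ) := by
    have h1 := Real.log_le_rpow_div (x := 1 / k) (by positivity) (ε := 1 / 8) (by norm_num)
    unfold ell
    refine h1.trans (le_of_eq ?_)
    rw [one_div k, Real.inv_rpow hk.le, ← Real.rpow_neg hk.le]
    ring
  have hkone : 1 ≤ k ^ (-(1 / 8) : ℝ) :=
    Real.one_le_rpow_of_pos_of_le_one_of_nonpos hk hk1'.le (by norm_num)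
  -- the grid
  set p : ℕ := ⌈1 / h⌉₊ with hp
  have hp1 : 1 / h ≤ p := Nat.le_ceil _
  have hp0 : 0 < p := Nat.ceil_pos.2 (by positivity)
  have hph1 : 1 ≤ p * h := by
    rw [div_le_iff₀ hh] at hp1
    exact hp1
  have hph : p * h ≤ 2 := by
    have h1 : (p : ℝ) < 1 / h + 1 := Nat.ceil_lt_add_one (by positivity)
    have h2 : (p : ℝ) * h ≤ (1 / h + 1) * h := by gcongr
    have h3 : (1 / h + 1) * h = 1 + h := by field_simp
    have h4 : h < 1 := by linarith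
    linarith
  set q : ℕ := n / p with hq
  set Bx : Finset (boxS d L) := Finset.univ.filter fun x => (boxNet d L).dist x y ≤ R with hBx
  let Ev : boxS d L → ℕ → ℕ → Set (ℕ → boxS d L → S.Ωp) := fun x i m =>
    {ω | (∀ j, j < p * i + p * m → (∀ v, ω j v ∈ S.gd h) ∧ RegG k y R (S.tr h L G ω j)) ∧
      ∑ j ∈ Finset.Ico (p * i) (p * i + p * m), h * min 1 (mn (S.tr h L G ω j) x ^ β) <
        c0 * ((p * m : ℕ) : ℝ) * h - C0 * ell k}
  have hsub : {ω | (∀ j, j < n → (∀ v, ω j v ∈ S.gd h) ∧ RegG k y R (S.tr h L G ω j)) ∧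
        ∃ x, (boxNet d L).dist x y ≤ R ∧ ∃ s t, s ≤ t ∧ t ≤ n ∧
          ∑ j ∈ Finset.Ico s t, h * min 1 (mn (S.tr h L G ω j) x ^ β) <
            c0 * ((t - s : ℕ) : ℝ) * h - (C0 + 1) * ell k} ⊆
      ⋃ x ∈ Bx, ⋃ i ∈ Finset.range (q + 1), ⋃ m ∈ Finset.range (q + 1), Ev x i m := by
    rintro ω ⟨h1, x, hx, s, t, hst, htn, hlt⟩
    obtain ⟨i, m, him, hlt2⟩ := OccB_grid
      (fun j => h * min 1 (mn (S.tr h L G ω j) x ^ β)) (fun j => mul_nonneg hh.le
        (le_min zero_le_one (Real.rpow_nonneg (le_min (norm_nonneg _) (norm_nonneg _)) _)))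
      c0 C0 h (ell k) hc0 hC0 hell hh p hp0 hph s t n hst htn hlt
    have hi : i ≤ q := by
      rw [hq, Nat.le_div_iff_mul_le hp0]
      nlinarith [Nat.zero_le (p * m)]
    have hm : m ≤ q := by
      rw [hq, Nat.le_div_iff_mul_le hp0]
      nlinarith [Nat.zero_le (p * i)]
    simp only [Set.mem_iUnion]
    exact ⟨x, Finset.mem_filter.2 ⟨Finset.mem_univ _, hx⟩, i,
      Finset.mem_range.2 (Nat.lt_succ_of_le hi), m, Finset.mem_range.2 (Nat.lt_succ_of_le hm),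
      fun j hj => h1 j (by omega), hlt2⟩
  have hEv : ∀ x ∈ Bx, ∀ i m, PI (S.mu L) (Ev x i m) ≤ ENNReal.ofReal k := by
    intro x hx i m
    exact OccB_pair S h c0 C0 L y x R (fun n G => H2 h hh hhh L y x R
      (Finset.mem_filter.1 hx).2 n G) (p * i) (p * m) G
  have hbd : PI (S.mu L) (⋃ x ∈ Bx, ⋃ i ∈ Finset.range (q + 1),
      ⋃ m ∈ Finset.range (q + 1), Ev x i m) ≤
      ∑ _x ∈ Bx, ∑ _i ∈ Finset.range (q + 1), ∑ _m ∈ Finset.range (q + 1),
        ENNReal.ofReal k := by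
    refine (measure_biUnion_finset_le _ _).trans (Finset.sum_le_sum fun x hx => ?_)
    refine (measure_biUnion_finset_le _ _).trans (Finset.sum_le_sum fun i _ => ?_)
    refine (measure_biUnion_finset_le _ _).trans (Finset.sum_le_sum fun m _ => ?_)
    exact hEv x hx i m
  refine (measure_mono hsub).trans (hbd.trans ?_)
  have hsum : ∑ _x ∈ Bx, ∑ _i ∈ Finset.range (q + 1), ∑ _m ∈ Finset.range (q + 1),
        ENNReal.ofReal k =
      ENNReal.ofReal ((Bx.card : ℝ) * ((q + 1 : ℝ) * ((q + 1 : ℝ) * k))) := by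
    simp only [Finset.sum_const, Finset.card_range, nsmul_eq_mul]
    rw [ENNReal.ofReal_mul (Nat.cast_nonneg _), ENNReal.ofReal_mul (by positivity),
      ENNReal.ofReal_mul (by positivity), ENNReal.ofReal_natCast]
    have e : ENNReal.ofReal ((q : ℝ) + 1) = ((q + 1 : ℕ) : ℝ≥0∞) := by
      rw [← ENNReal.ofReal_natCast]
      push_cast
      rfl
    rw [e]
  rw [hsum]
  refine ENNReal.ofReal_le_ofReal ?_
  have hq1 : (q : ℝ) + 1 ≤ T * ell k + 3 := by
    have h1 : (q : ℝ) * p ≤ n := by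
      rw [hq]
      exact_mod_cast Nat.div_mul_le_self n p
    have h2 : (q : ℝ) ≤ n * h := by
      calc (q : ℝ) = q * 1 := (mul_one _).symm
        _ ≤ q * (p * h) := by gcongr
        _ = (q * p) * h := by ring
        _ ≤ n * h := by gcongr
    linarith
  have hq2 : (q : ℝ) + 1 ≤ (8 * T + 3) * k ^ (-(1 / 8) : ℝ) := by
    have h1 : T * ell k ≤ T * (8 * k ^ (-(1 / 8) : ℝ)) := by gcongr
    nlinarith
  have hball := OccB_ball d L R y
  rw [← hBx] at hball
  have hkk4 : k ^ (1 / 4 : ℝ) * M ≤ 1 := by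
    have h1 : k ^ (1 / 4 : ℝ) ≤ (M⁻¹ ^ 4) ^ (1 / 4 : ℝ) :=
      Real.rpow_le_rpow hk.le hkk3.le (by norm_num)
    have h2 : ((M⁻¹ ^ 4 : ℝ)) ^ (1 / 4 : ℝ) = M⁻¹ := by
      rw [← Real.rpow_natCast, ← Real.rpow_mul (by positivity)]
      norm_num
    rw [h2] at h1
    calc k ^ (1 / 4 : ℝ) * M ≤ M⁻¹ * M := by gcongr
      _ = 1 := inv_mul_cancel₀ hM0.ne'
  have hpw1 : k ^ (-(1 / 8) : ℝ) * k ^ (-(1 / 8) : ℝ) * k = k ^ (1 / 2 : ℝ) * k ^ (1 / 4 : ℝ) := by
    conv_lhs => rw [← Real.rpow_one k]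
    rw [← Real.rpow_mul hk.le, ← Real.rpow_add hk, ← Real.rpow_add hk, ← Real.rpow_add hk]
    norm_num
  calc (Bx.card : ℝ) * ((q + 1 : ℝ) * ((q + 1 : ℝ) * k))
      ≤ (3 ^ d * 2 ^ R) * (((8 * T + 3) * k ^ (-(1 / 8) : ℝ)) *
        (((8 * T + 3) * k ^ (-(1 / 8) : ℝ)) * k)) := by gcongr
    _ = M * (k ^ (-(1 / 8) : ℝ) * k ^ (-(1 / 8) : ℝ) * k) := by rw [hM]; ring
    _ = k ^ (1 / 2 : ℝ) * (k ^ (1 / 4 : ℝ) * M) := by rw [hpw1]; ring
    _ ≤ k ^ (1 / 2 : ℝ) * 1 := by gcongr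
    _ = k ^ (1 / 2 : ℝ) := mul_one _

end DynG

end

/-! ### from `Lib_MP_36b788g.BNoise3` -/

section

/-!
# The scalar noise of `PS3` is a `BNoise`

`ζ ~ stdGaussian (E N)`, `b = log‖e1+√hζ‖`, `γ = stdGaussian`, `ν = nuT N h = γ.map (ζ ↦ if ‖ζ‖ ≤ h^{-1/8} then ζ else 0)`.

PROOF.
* `bdd`: the third condition in `gdE`.
* For `h < 1/1000`: `gdE hN h = {√h‖ζ‖ ≤ h^{3/8}} = {‖ζ‖ ≤ h^{-1/8}}`: `√h‖ζ‖ ≤ h^{3/8} ≤ 1/10` (`LogZ_ell`) implies `9/10 ≤ ‖e1+√hζ‖` and `|log(1+x)| ≤ 2|x|` for `|x| ≤ 1/2`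
  (`x = ‖e1+√hζ‖ - 1`, `|x| ≤ √h‖ζ‖`). (`gdE_eq`)
* `gd_nuT`: for `φ ≥ 0` measurable: `∫⁻_{gdE}φ dγ + φ(0)γ(gdEᶜ) = ∫⁻φ dν` (`lintegral_map`, split into `‖ζ‖ ≤ h^{-1/8}` and its complement), in particular
  `∫⁻_{gdE}φ(Qζ)dγ ≤ ∫⁻φ dν` for an isometry `Q` (`γ.map Q = γ`, `‖Qζ‖ = ‖ζ‖`).
* `tail`: `γ{‖ζ‖ > h^{-1/8}} ≤ h^{4}E‖ζ‖^{32} ≤ h³` for `h` small (Markov for the power `32`; `tailG_le` gives only `h²`, so repeat its proof with the power `32`;
  moments of the Gaussian are finite: see `Trunc.lean`).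
* `mgf`, uniform in `|r| ≤ rm`: `F_r(t) = (1+t)^{r/2}-1-(r/2)t-(r(r-2)/8)t²` satisfies `|F_r t| ≤ K|t|³` for `|t| ≤ 1/2` with `K = K(rm)` (Taylor, third derivative
  `(r/2)(r/2-1)(r/2-2)(1+t)^{r/2-3}`, bounded by a constant depending on `rm` only). `taylor_t N hN 0 0 K` (same `C, h0` for all `r`): `|∫F_r(ζ²-1)dν| ≤ Ch^{9/8}`; `taylor_t` with
  `(a,b) = (1,0)`, `F t = t` and `(0,1)`, `F t = t²`: `∫t = Nh+O(h^{9/8})`, `∫t² = 4h+O(h^{9/8})`. So `∫‖e1+√hζ‖^r dν = 1+((r/2)N+r(r-2)/2)h+O(h^{9/8}) = 1+(λr+r²/2)h+O(h^{9/8})`,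
  `λ = (N-2)/2 = lamN N`, uniformly in `|r| ≤ rm`; `e^{rb} = ‖e1+√hζ‖^r` on `gdE`; `gd_nuT`: `∫_{gdE}e^{rb}dγ = ∫‖·‖^r dν - γ(gdEᶜ)` (`φ(0) = 1`), error `≤ h³`.
  `Ch^{1/8}+h² ≤ ε` for small `h`. (`ν` is an `IsNoise`: `nuT_noise`.)
* `mgf2`: `e^{2b} ≤ ‖e1+√hζ‖²+1_{e1+√hζ=0}` and the exceptional set is `γ`-null (a point; `N ≥ 1`; or: `e^{2b} = ‖·‖²` unless the vector is zero, `stdGaussian` has no atoms);
  `∫‖e1+√hζ‖²dγ = 1+hN`: `C = N`.
-/

open MeasureTheory ProbabilityTheory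
open scoped ENNReal

namespace DynC

open Dyn DynS

variable {N : ℕ}

private theorem BNoise3_nz (hN : 3 ≤ N) {h : ℝ} (hh : 0 < h) (hh1 : h < 1 / 1000) {ζ : E N}
    (hζ : Real.sqrt h * ‖ζ‖ ≤ h ^ (3 / 8 : ℝ)) :
    9 / 10 ≤ ‖e1v hN + Real.sqrt h • ζ‖ ∧ |bE hN h ζ| ≤ 2 * h ^ (3 / 8 : ℝ) := by
  obtain ⟨hl0, hl1, -, -, -⟩ := LogZ_ell hh hh1
  have h1 : |‖e1v hN + Real.sqrt h • ζ‖ - 1| ≤ h ^ (3 / 8 : ℝ) := by
    have h2 := abs_norm_sub_norm_le (e1v hN + Real.sqrt h • ζ) (e1v hN)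
    rw [e1v_norm, add_sub_cancel_left, norm_smul, Real.norm_eq_abs,
      abs_of_nonneg (Real.sqrt_nonneg h)] at h2
    exact h2.trans hζ
  rw [abs_le] at h1
  have hz : 9 / 10 ≤ ‖e1v hN + Real.sqrt h • ζ‖ := by linarith [h1.1]
  have hz0 : 0 < ‖e1v hN + Real.sqrt h • ζ‖ := by linarith
  refine ⟨hz, ?_⟩
  unfold bE
  rw [abs_le]
  constructor
  · have h2 := Real.one_sub_inv_le_log_of_pos hz0
    have h3 : 1 - ‖e1v hN + Real.sqrt h • ζ‖⁻¹ =
        (‖e1v hN + Real.sqrt h • ζ‖ - 1) / ‖e1v hN + Real.sqrt h • ζ‖ := by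
      field_simp
    rw [h3] at h2
    refine le_trans ?_ h2
    rw [le_div_iff₀ hz0]
    nlinarith [h1.1]
  · have h2 := Real.log_le_sub_one_of_pos hz0
    linarith [h1.2]

theorem gdE_eq (hN : 3 ≤ N) {h : ℝ} (hh : 0 < h) (hh1 : h < 1 / 1000) :
    gdE hN h = {ζ : E N | Real.sqrt h * ‖ζ‖ ≤ h ^ (3 / 8 : ℝ)} := by
  ext ζ
  constructor
  · intro hζ
    exact hζ.2.1
  · intro hζ
    obtain ⟨h1, h2⟩ := BNoise3_nz hN hh hh1 hζ
    refine ⟨?_, hζ, h2⟩
    intro h0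
    rw [h0, norm_zero] at h1
    norm_num at h1

private theorem BNoise3_mem (hN : 3 ≤ N) {h : ℝ} (hh : 0 < h) (hh1 : h < 1 / 1000) (ζ : E N) :
    ζ ∈ gdE hN h ↔ ‖ζ‖ ≤ h ^ (-(1 / 8) : ℝ) := by
  rw [gdE_eq hN hh hh1]
  have hs : 0 < Real.sqrt h := Real.sqrt_pos.2 hh
  have e1 : Real.sqrt h * h ^ (-(1 / 8) : ℝ) = h ^ (3 / 8 : ℝ) := by
    rw [Real.sqrt_eq_rpow, ← Real.rpow_add hh]
    norm_num
  constructor
  · intro hζ
    have hζ' : Real.sqrt h * ‖ζ‖ ≤ h ^ (3 / 8 : ℝ) := hζ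
    rw [← e1] at hζ'
    exact le_of_mul_le_mul_left hζ' hs
  · intro hζ
    change Real.sqrt h * ‖ζ‖ ≤ h ^ (3 / 8 : ℝ)
    rw [← e1]
    exact mul_le_mul_of_nonneg_left hζ hs.le

private theorem BNoise3_split (hN : 3 ≤ N) {h : ℝ} (hh : 0 < h) (hh1 : h < 1 / 1000)
    {φ : E N → ℝ≥0∞} (hφ : Measurable φ) :
    ∫⁻ ξ, φ ξ ∂(nuT N h) = ∫⁻ ζ in gdE hN h, φ ζ ∂(stdGaussian (E N)) +
      φ 0 * stdGaussian (E N) (gdE hN h)ᶜ := by
  classical
  unfold nuT
  have hm : Measurable (fun ξ : E N => if ‖ξ‖ ≤ h ^ (-(1 / 8) : ℝ) then ξ else 0) :=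
    Measurable.ite (measurableSet_le measurable_norm measurable_const) measurable_id
      measurable_const
  have hm' := hφ.comp hm
  rw [lintegral_map hφ (by convert hm)]
  rw [← lintegral_add_compl _ (measurable_gdE hN h)]
  congr 1
  · refine setLIntegral_congr_fun (measurable_gdE hN h) fun ζ hζ => ?_
    have h1 := (BNoise3_mem hN hh hh1 ζ).1 hζ
    simp only [if_pos h1]
  · rw [← setLIntegral_const]
    refine setLIntegral_congr_fun (measurable_gdE hN h).compl fun ζ hζ => ?_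
    have h1 : ¬ ‖ζ‖ ≤ h ^ (-(1 / 8) : ℝ) := fun h2 => hζ ((BNoise3_mem hN hh hh1 ζ).2 h2)
    simp only [if_neg h1]

theorem gd_nuT (hN : 3 ≤ N) {h : ℝ} (hh : 0 < h) (hh1 : h < 1 / 1000) {φ : E N → ℝ≥0∞}
    (hφ : Measurable φ) (Q : E N ≃ₗᵢ[ℝ] E N) :
    ∫⁻ ζ in gdE hN h, φ (Q ζ) ∂(stdGaussian (E N)) ≤ ∫⁻ ξ, φ ξ ∂(nuT N h) := by
  have hQm : Measurable (Q : E N → E N) := Q.continuous.measurable
  have e1 : ∫⁻ ζ in gdE hN h, φ (Q ζ) ∂(stdGaussian (E N)) =
      ∫⁻ ζ in gdE hN h, φ ζ ∂(stdGaussian (E N)) := by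
    rw [← lintegral_indicator (measurable_gdE hN h), ← lintegral_indicator (measurable_gdE hN h)]
    conv_rhs => rw [← stdGaussian_map Q]
    rw [lintegral_map (hφ.indicator (measurable_gdE hN h)) hQm]
    refine lintegral_congr fun ζ => ?_
    by_cases hζ : ζ ∈ gdE hN h
    · have h2 : Q ζ ∈ gdE hN h := by
        rw [BNoise3_mem hN hh hh1, LinearIsometryEquiv.norm_map]
        exact (BNoise3_mem hN hh hh1 ζ).1 hζ
      rw [Set.indicator_of_mem hζ, Set.indicator_of_mem h2]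
    · have h2 : Q ζ ∉ gdE hN h := by
        rw [BNoise3_mem hN hh hh1, LinearIsometryEquiv.norm_map]
        exact fun h3 => hζ ((BNoise3_mem hN hh hh1 ζ).2 h3)
      rw [Set.indicator_of_notMem hζ, Set.indicator_of_notMem h2]
  rw [e1, BNoise3_split hN hh hh1 hφ]
  exact le_self_add

private theorem BNoise3_gpow (N n : ℕ) :
    Integrable (fun ξ : E N => ‖ξ‖ ^ n) (stdGaussian (E N)) := by
  have h := (IsGaussian.memLp_id (stdGaussian (E N)) (n : ENNReal) (by simp)).integrable_norm_pow'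
  exact h

private theorem BNoise3_tail (hN : 3 ≤ N) : ∃ h0 : ℝ, 0 < h0 ∧ h0 ≤ 1 / 1000 ∧
    ∀ h, 0 < h → h < h0 → stdGaussian (E N) (gdE hN h)ᶜ ≤ ENNReal.ofReal (h ^ 3) := by
  set M := ∫ ξ : E N, ‖ξ‖ ^ 32 ∂(stdGaussian (E N)) with hM
  have hM0 : 0 ≤ M := integral_nonneg fun ξ => by positivity
  refine ⟨min (1 / 1000) (1 / (M + 1)), lt_min (by norm_num) (by positivity), min_le_left _ _,
    fun h hh hlt => ?_⟩
  have hlt1 : h < 1 / 1000 := hlt.trans_le (min_le_left _ _)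
  have hlt2 : h < 1 / (M + 1) := hlt.trans_le (min_le_right _ _)
  have hsub : (gdE hN h)ᶜ ⊆ {ξ : E N | (h ^ 4)⁻¹ ≤ ‖ξ‖ ^ 32} := by
    intro ζ hζ
    have h1 : ¬ ‖ζ‖ ≤ h ^ (-(1 / 8) : ℝ) := fun h2 => hζ ((BNoise3_mem hN hh hlt1 ζ).2 h2)
    rw [not_le] at h1
    change (h ^ 4)⁻¹ ≤ ‖ζ‖ ^ 32
    have h3 : (h ^ (-(1 / 8) : ℝ)) ^ 32 = (h ^ 4)⁻¹ := by
      rw [← Real.rpow_natCast, ← Real.rpow_mul hh.le, ← Real.rpow_natCast h 4,
        ← Real.rpow_neg hh.le]
      norm_num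
    rw [← h3]
    exact pow_le_pow_left₀ (Real.rpow_pos_of_pos hh _).le h1.le 32
  have h2 := mul_meas_ge_le_integral_of_nonneg (μ := stdGaussian (E N))
    (f := fun ξ : E N => ‖ξ‖ ^ 32) (Filter.Eventually.of_forall fun ξ => by positivity)
    (BNoise3_gpow N 32) ((h ^ 4)⁻¹)
  rw [← hM] at h2
  have h4 : (stdGaussian (E N)).real {ξ : E N | (h ^ 4)⁻¹ ≤ ‖ξ‖ ^ 32} ≤ h ^ 3 := by
    have h5 : 0 < h ^ 4 := by positivity
    have h6 : (stdGaussian (E N)).real {ξ : E N | (h ^ 4)⁻¹ ≤ ‖ξ‖ ^ 32} ≤ h ^ 4 * M := by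
      calc _ = h ^ 4 * ((h ^ 4)⁻¹ * (stdGaussian (E N)).real {ξ : E N | (h ^ 4)⁻¹ ≤ ‖ξ‖ ^ 32}) := by
            rw [← mul_assoc, mul_inv_cancel₀ h5.ne', one_mul]
        _ ≤ h ^ 4 * M := mul_le_mul_of_nonneg_left h2 h5.le
    have h7 : h * (M + 1) ≤ 1 := by
      rw [lt_div_iff₀ (by positivity)] at hlt2
      exact hlt2.le
    have h8 : h ^ 4 * M = h ^ 3 * (h * M) := by ring
    have h9 : h * M ≤ 1 := by nlinarith
    have h10 : 0 ≤ h ^ 3 := by positivity
    rw [h8] at h6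
    nlinarith
  calc stdGaussian (E N) (gdE hN h)ᶜ ≤ stdGaussian (E N) {ξ : E N | (h ^ 4)⁻¹ ≤ ‖ξ‖ ^ 32} :=
        measure_mono hsub
    _ = ENNReal.ofReal ((stdGaussian (E N)).real {ξ : E N | (h ^ 4)⁻¹ ≤ ‖ξ‖ ^ 32}) :=
        by rw [ofReal_measureReal]
    _ ≤ ENNReal.ofReal (h ^ 3) := ENNReal.ofReal_le_ofReal h4

/-- powers of numbers between `1/2` and `3/2` -/
private theorem BNoise3_rpow_le {u : ℝ} (h1 : 1 / 2 ≤ u) (h2 : u ≤ 3 / 2) (r : ℝ) :
    u ^ r ≤ 2 ^ |r| := by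
  have hu : 0 < u := by linarith
  have hlog : |Real.log u| ≤ Real.log 2 := by
    rw [abs_le]
    constructor
    · have := Real.log_le_log (by norm_num : (0 : ℝ) < 1 / 2) h1
      rw [one_div, Real.log_inv] at this
      exact this
    · exact Real.log_le_log hu (by linarith)
  rw [Real.rpow_def_of_pos hu, Real.rpow_def_of_pos (by norm_num : (0 : ℝ) < 2)]
  apply Real.exp_le_exp.2
  calc Real.log u * r ≤ |Real.log u * r| := le_abs_self _
    _ = |Real.log u| * |r| := abs_mul _ _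
    _ ≤ Real.log 2 * |r| := mul_le_mul_of_nonneg_right hlog (abs_nonneg r)

/-- one step of the Taylor estimate -/
private theorem BNoise3_mv {g g' : ℝ → ℝ} {K : ℝ} {n : ℕ} (hK : 0 ≤ K) (h0 : g 0 = 0)
    (hd : ∀ x : ℝ, |x| ≤ 1 / 2 → HasDerivAt g (g' x) x)
    (hb : ∀ x : ℝ, |x| ≤ 1 / 2 → |g' x| ≤ K * |x| ^ n) :
    ∀ x : ℝ, |x| ≤ 1 / 2 → |g x| ≤ K * |x| ^ (n + 1) := by
  intro x hx
  have key := Convex.norm_image_sub_le_of_norm_hasDerivWithin_le (f := g) (f' := g')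
    (s := Set.Icc (-|x|) |x|) (C := K * |x| ^ n) (x := 0) (y := x)
    (fun y hy => (hd y ((abs_le.2 hy).trans hx)).hasDerivWithinAt)
    (fun y hy => by
      rw [Real.norm_eq_abs]
      refine (hb y ((abs_le.2 hy).trans hx)).trans ?_
      exact mul_le_mul_of_nonneg_left (pow_le_pow_left₀ (abs_nonneg y) (abs_le.2 hy) n) hK)
    (convex_Icc _ _) ⟨by linarith [abs_nonneg x], abs_nonneg x⟩
    ⟨neg_abs_le x, le_abs_self x⟩
  rw [h0, sub_zero, sub_zero, Real.norm_eq_abs, Real.norm_eq_abs] at key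
  rw [pow_succ, ← mul_assoc]
  exact key

/-- second order expansion of a power -/
private theorem BNoise3_taylor (s : ℝ) : ∀ t : ℝ, |t| ≤ 1 / 2 →
    |(1 + t) ^ s - 1 - s * t - s * (s - 1) / 2 * t ^ 2| ≤
      |s * (s - 1) * (s - 2)| * 2 ^ |s - 3| * |t| ^ 3 := by
  set K : ℝ := |s * (s - 1) * (s - 2)| * 2 ^ |s - 3| with hKdef
  have hK : 0 ≤ K := by positivity
  have hder : ∀ (r : ℝ) (x : ℝ), |x| ≤ 1 / 2 →
      HasDerivAt (fun t : ℝ => (1 + t) ^ r) (r * (1 + x) ^ (r - 1)) x := by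
    intro r x hx
    have hx1 := (abs_le.1 hx).1
    have h1 : HasDerivAt (fun t : ℝ => 1 + t) 1 x := (hasDerivAt_id x).const_add 1
    have h2 := h1.rpow_const (p := r) (Or.inl (by linarith : (1 + x : ℝ) ≠ 0) )
    refine h2.congr_deriv ?_
    ring
  have s3 : ∀ x : ℝ, |x| ≤ 1 / 2 → |s * (s - 1) * ((s - 2) * (1 + x) ^ (s - 2 - 1))| ≤
      K * |x| ^ 0 := by
    intro x hx
    have hx1 := abs_le.1 hx
    have hp : 0 < 1 + x := by linarith [hx1.1]
    have e1 : s * (s - 1) * ((s - 2) * (1 + x) ^ (s - 2 - 1)) =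
        (s * (s - 1) * (s - 2)) * (1 + x) ^ (s - 3) := by
      rw [show s - 2 - 1 = s - 3 by ring]
      ring
    rw [e1, abs_mul, abs_of_pos (Real.rpow_pos_of_pos hp _), pow_zero, mul_one, hKdef]
    exact mul_le_mul_of_nonneg_left (BNoise3_rpow_le (by linarith [hx1.1])
      (by linarith [hx1.2]) _) (abs_nonneg _)
  have s2 : ∀ x : ℝ, |x| ≤ 1 / 2 → |s * (s - 1) * ((1 + x) ^ (s - 2) - 1)| ≤ K * |x| ^ 1 := by
    refine BNoise3_mv (g := fun x => s * (s - 1) * ((1 + x) ^ (s - 2) - 1)) hK ?_ ?_ s3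
    · simp
    · intro x hx
      exact ((hder (s - 2) x hx).sub_const 1).const_mul (s * (s - 1))
  have s1 : ∀ x : ℝ, |x| ≤ 1 / 2 →
      |s * ((1 + x) ^ (s - 1) - 1 - (s - 1) * x)| ≤ K * |x| ^ 2 := by
    refine BNoise3_mv (g := fun x => s * ((1 + x) ^ (s - 1) - 1 - (s - 1) * x)) hK ?_ ?_ s2
    · simp
    · intro x hx
      have h1 := (((hder (s - 1) x hx).sub_const 1).sub
        ((hasDerivAt_id x).const_mul (s - 1))).const_mul s
      refine h1.congr_deriv ?_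
      rw [show s - 1 - 1 = s - 2 by ring]
      ring
  refine BNoise3_mv (g := fun t => (1 + t) ^ s - 1 - s * t - s * (s - 1) / 2 * t ^ 2) hK ?_ ?_ s1
  · simp
  · intro x hx
    have h1 := ((((hder s x hx).sub_const 1).sub ((hasDerivAt_id x).const_mul s))).sub
      (((hasDerivAt_id x).pow 2).const_mul (s * (s - 1) / 2))
    refine h1.congr_deriv ?_
    simp only [id]
    ring

private theorem BNoise3_K {rm r : ℝ} (hrm : 0 < rm) (hr : |r| ≤ rm) :
    |r / 2 * (r / 2 - 1) * (r / 2 - 2)| * 2 ^ |r / 2 - 3| ≤ (rm + 2) ^ 3 * 2 ^ (rm + 3) := by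
  have hr' := abs_le.1 hr
  have h0 : |r / 2| ≤ rm + 2 := by rw [abs_le]; constructor <;> linarith
  have h1 : |r / 2 - 1| ≤ rm + 2 := by rw [abs_le]; constructor <;> linarith
  have h2 : |r / 2 - 2| ≤ rm + 2 := by rw [abs_le]; constructor <;> linarith
  have h3 : |r / 2 - 3| ≤ rm + 3 := by rw [abs_le]; constructor <;> linarith
  have h4 : |r / 2 * (r / 2 - 1) * (r / 2 - 2)| ≤ (rm + 2) ^ 3 := by
    rw [abs_mul, abs_mul]
    calc |r / 2| * |r / 2 - 1| * |r / 2 - 2| ≤ (rm + 2) * (rm + 2) * (rm + 2) := by gcongr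
      _ = (rm + 2) ^ 3 := by ring
  have h5 : (2 : ℝ) ^ |r / 2 - 3| ≤ 2 ^ (rm + 3) :=
    Real.rpow_le_rpow_of_exponent_le (by norm_num) h3
  gcongr

/-- power moments, uniform in the exponent -/
private theorem BNoise3_pow (N : ℕ) (hN : 1 ≤ N) (rm : ℝ) (hrm : 0 < rm) :
    ∃ C h0 : ℝ, 0 < C ∧ 0 < h0 ∧ ∀ (h : ℝ) (ν : Measure (E N)), 0 < h → h < h0 → IsNoise h ν →
      ∀ e : E N, ‖e‖ = 1 → ∀ r : ℝ, |r| ≤ rm →
        |∫ ξ, ‖e + Real.sqrt h • ξ‖ ^ r ∂ν - 1 - (lamN N * r + r ^ 2 / 2) * h| ≤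
          C * h ^ (9 / 8 : ℝ) := by
  obtain ⟨C0, h0, hC0, hh0, key0⟩ := taylor_t N hN 0 0 ((rm + 2) ^ 3 * 2 ^ (rm + 3))
    (by positivity)
  obtain ⟨C1, h1, hC1, hh1, key1⟩ := taylor_t N hN 1 0 0 le_rfl
  obtain ⟨C2, h2, hC2, hh2, key2⟩ := taylor_t N hN 0 1 0 le_rfl
  refine ⟨C0 + (rm + 1) * C1 + (rm + 1) ^ 2 * C2, min (min h0 h1) (min h2 (1 / 1000)),
    by positivity, lt_min (lt_min hh0 hh1) (lt_min hh2 (by norm_num)), ?_⟩
  intro h ν hh hlt hν e he r hr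
  have l0 : h < h0 := hlt.trans_le ((min_le_left _ _).trans (min_le_left _ _))
  have l1 : h < h1 := hlt.trans_le ((min_le_left _ _).trans (min_le_right _ _))
  have l2 : h < h2 := hlt.trans_le ((min_le_right _ _).trans (min_le_left _ _))
  have l3 : h < 1 / 1000 := hlt.trans_le ((min_le_right _ _).trans (min_le_right _ _))
  have hp := hν.prob
  have hm : Measurable fun t : ℝ => (1 + t) ^ (r / 2) - 1 - r / 2 * t -
      r / 2 * (r / 2 - 1) / 2 * t ^ 2 := by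
    have := (measurable_const.add measurable_id : Measurable fun t : ℝ => 1 + t).pow_const (r / 2)
    fun_prop
  have k0 := key0 h ν hh l0 hν e he (fun t : ℝ => (1 + t) ^ (r / 2) - 1 - r / 2 * t -
      r / 2 * (r / 2 - 1) / 2 * t ^ 2) hm (fun t ht => by
    rw [zero_mul, zero_mul, sub_zero, sub_zero]
    exact (BNoise3_taylor (r / 2) t ht).trans
      (mul_le_mul_of_nonneg_right (BNoise3_K hrm hr) (by positivity)))
  have k1 := key1 h ν hh l1 hν e he (fun t => t) measurable_id (fun t _ => by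
    simp)
  have k2 := key2 h ν hh l2 hν e he (fun t => t ^ 2) (measurable_id.pow_const 2) (fun t _ => by
    simp)
  have hc : Continuous fun ξ : E N => ‖e + Real.sqrt h • ξ‖ ^ 2 - 1 := by fun_prop
  have hb : ∀ᵐ ξ ∂ν, |‖e + Real.sqrt h • ξ‖ ^ 2 - 1| ≤ 1 := by
    filter_upwards [noise_ae hh l3 hν] with ξ hξ
    obtain ⟨a1, a2⟩ := hξ.2 e he
    rw [abs_le]
    constructor <;> nlinarith
  have i1 : Integrable (fun ξ : E N => ‖e + Real.sqrt h • ξ‖ ^ 2 - 1) ν := by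
    refine Integrable.of_bound hc.aestronglyMeasurable 1 ?_
    filter_upwards [hb] with ξ hξ
    rw [Real.norm_eq_abs]
    exact hξ
  have i2 : Integrable (fun ξ : E N => (‖e + Real.sqrt h • ξ‖ ^ 2 - 1) ^ 2) ν := by
    refine Integrable.of_bound (hc.pow 2).aestronglyMeasurable 1 ?_
    filter_upwards [hb] with ξ hξ
    rw [Real.norm_eq_abs, abs_pow]
    exact pow_le_one₀ (abs_nonneg _) hξ
  have i0 : Integrable (fun ξ : E N => ‖e + Real.sqrt h • ξ‖ ^ r) ν :=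
    zeta_pow_int hh l3 hν r he
  have e0 : ∫ ξ, ((1 + (‖e + Real.sqrt h • ξ‖ ^ 2 - 1)) ^ (r / 2) - 1 -
      r / 2 * (‖e + Real.sqrt h • ξ‖ ^ 2 - 1) -
      r / 2 * (r / 2 - 1) / 2 * (‖e + Real.sqrt h • ξ‖ ^ 2 - 1) ^ 2) ∂ν =
      ∫ ξ, ‖e + Real.sqrt h • ξ‖ ^ r ∂ν - 1 - r / 2 * ∫ ξ, (‖e + Real.sqrt h • ξ‖ ^ 2 - 1) ∂ν -
        r / 2 * (r / 2 - 1) / 2 * ∫ ξ, (‖e + Real.sqrt h • ξ‖ ^ 2 - 1) ^ 2 ∂ν := by
    have e2 : ∀ ξ : E N, (1 + (‖e + Real.sqrt h • ξ‖ ^ 2 - 1)) ^ (r / 2) =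
        ‖e + Real.sqrt h • ξ‖ ^ r := by
      intro ξ
      have hz : (0 : ℝ) ≤ ‖e + Real.sqrt h • ξ‖ := norm_nonneg _
      rw [show (1 : ℝ) + (‖e + Real.sqrt h • ξ‖ ^ 2 - 1) = ‖e + Real.sqrt h • ξ‖ ^ (2 : ℝ) by
        rw [Real.rpow_two]; ring, ← Real.rpow_mul hz]
      congr 1
      ring
    simp only [e2]
    have j0 : Integrable (fun ξ : E N => ‖e + Real.sqrt h • ξ‖ ^ r - 1) ν :=
      i0.sub (integrable_const 1)
    have j1 : Integrable (fun ξ : E N => ‖e + Real.sqrt h • ξ‖ ^ r - 1 -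
        r / 2 * (‖e + Real.sqrt h • ξ‖ ^ 2 - 1)) ν := j0.sub (i1.const_mul _)
    rw [integral_sub j1 (i2.const_mul _), integral_sub j0 (i1.const_mul _),
      integral_sub i0 (integrable_const 1), integral_const, probReal_univ, one_smul,
      integral_const_mul, integral_const_mul]
  rw [e0] at k0
  set I0 := ∫ ξ, ‖e + Real.sqrt h • ξ‖ ^ r ∂ν with hI0
  set I1 := ∫ ξ, (‖e + Real.sqrt h • ξ‖ ^ 2 - 1) ∂ν with hI1
  set I2 := ∫ ξ, (‖e + Real.sqrt h • ξ‖ ^ 2 - 1) ^ 2 ∂ν with hI2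
  have hid : I0 - 1 - (lamN N * r + r ^ 2 / 2) * h =
      (I0 - 1 - r / 2 * I1 - r / 2 * (r / 2 - 1) / 2 * I2 - (0 * (N : ℝ) + 4 * 0) * h) +
        r / 2 * (I1 - (1 * (N : ℝ) + 4 * 0) * h) +
        r / 2 * (r / 2 - 1) / 2 * (I2 - (0 * (N : ℝ) + 4 * 1) * h) := by
    unfold lamN
    ring
  rw [hid]
  have hr' := abs_le.1 hr
  have hq : 0 < h ^ (9 / 8 : ℝ) := Real.rpow_pos_of_pos hh _
  have b1 : |r / 2 * (I1 - (1 * (N : ℝ) + 4 * 0) * h)| ≤ (rm + 1) * C1 * h ^ (9 / 8 : ℝ) := by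
    rw [abs_mul, mul_assoc]
    have h0 : |r / 2| ≤ rm + 1 := by rw [abs_le]; constructor <;> linarith
    exact mul_le_mul h0 k1 (abs_nonneg _) (by linarith)
  have b2 : |r / 2 * (r / 2 - 1) / 2 * (I2 - (0 * (N : ℝ) + 4 * 1) * h)| ≤
      (rm + 1) ^ 2 * C2 * h ^ (9 / 8 : ℝ) := by
    rw [abs_mul, mul_assoc]
    have h0 : |r / 2 * (r / 2 - 1) / 2| ≤ (rm + 1) ^ 2 := by
      rw [abs_div, abs_mul, abs_of_pos (by norm_num : (0 : ℝ) < 2)]
      have h1 : |r / 2| ≤ rm + 1 := by rw [abs_le]; constructor <;> linarith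
      have h2 : |r / 2 - 1| ≤ rm + 1 := by rw [abs_le]; constructor <;> linarith
      have h3 : |r / 2| * |r / 2 - 1| ≤ (rm + 1) * (rm + 1) :=
        mul_le_mul h1 h2 (abs_nonneg _) (by linarith)
      have h4 : 0 ≤ |r / 2| * |r / 2 - 1| := by positivity
      nlinarith
    exact mul_le_mul h0 k2 (abs_nonneg _) (by positivity)
  have c1 := abs_add_le ((I0 - 1 - r / 2 * I1 - r / 2 * (r / 2 - 1) / 2 * I2 -
      (0 * (N : ℝ) + 4 * 0) * h) + r / 2 * (I1 - (1 * (N : ℝ) + 4 * 0) * h))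
      (r / 2 * (r / 2 - 1) / 2 * (I2 - (0 * (N : ℝ) + 4 * 1) * h))
  have c2 := abs_add_le (I0 - 1 - r / 2 * I1 - r / 2 * (r / 2 - 1) / 2 * I2 -
      (0 * (N : ℝ) + 4 * 0) * h) (r / 2 * (I1 - (1 * (N : ℝ) + 4 * 0) * h))
  linarith

/-- comparison of the integral on good noise with the truncated noise -/
private theorem BNoise3_mgf (hN : 3 ≤ N) (rm ε : ℝ) (hrm : 0 < rm) (hε : 0 < ε) :
    ∃ h0 : ℝ, 0 < h0 ∧ ∀ h, 0 < h → h < h0 → ∀ r, |r| ≤ rm →
    ∫⁻ a in gdE hN h, ENNReal.ofReal (Real.exp (r * bE hN h a)) ∂(stdGaussian (E N)) ≤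
      ENNReal.ofReal (1 + (lamN N * r + r ^ 2 / 2 + ε) * h) ∧
    ENNReal.ofReal (1 + (lamN N * r + r ^ 2 / 2 - ε) * h) ≤
      ∫⁻ a in gdE hN h, ENNReal.ofReal (Real.exp (r * bE hN h a)) ∂(stdGaussian (E N)) := by
  obtain ⟨C, h1, hC, hh1, key⟩ := BNoise3_pow N (by omega) rm hrm
  obtain ⟨h2, hh2, hh2', ht⟩ := BNoise3_tail hN
  obtain ⟨h3, hh3, hT⟩ := nuT_noise N (by omega)
  have hε2 : 0 < ε / (2 * (C + 1)) := by positivity
  refine ⟨min (min h1 h2) (min h3 (min ((ε / (2 * (C + 1))) ^ 8) (ε / 2))),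
    lt_min (lt_min hh1 hh2) (lt_min hh3 (lt_min (by positivity) (by positivity))), ?_⟩
  intro h hh hlt r hr
  have l1 : h < h1 := hlt.trans_le ((min_le_left _ _).trans (min_le_left _ _))
  have l2 : h < h2 := hlt.trans_le ((min_le_left _ _).trans (min_le_right _ _))
  have l3 : h < h3 := hlt.trans_le ((min_le_right _ _).trans (min_le_left _ _))
  have l4' : h < min ((ε / (2 * (C + 1))) ^ 8) (ε / 2) :=
    hlt.trans_le ((min_le_right _ _).trans (min_le_right _ _))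
  have l4 : h < (ε / (2 * (C + 1))) ^ 8 := l4'.trans_le (min_le_left _ _)
  have l5 : h < ε / 2 := l4'.trans_le (min_le_right _ _)
  have l6 : h < 1 / 1000 := l2.trans_le hh2'
  have hν := hT h hh l3
  have hp := hν.prob
  have k := abs_le.1 (key h (nuT N h) hh l1 hν (e1v hN) (e1v_norm hN) r hr)
  have hcm : Measurable fun ξ : E N => ‖e1v hN + Real.sqrt h • ξ‖ :=
    (by fun_prop : Continuous fun ξ : E N => ‖e1v hN + Real.sqrt h • ξ‖).measurable
  have hφ : Measurable fun ξ : E N => ENNReal.ofReal (‖e1v hN + Real.sqrt h • ξ‖ ^ r) :=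
    (hcm.pow_const r).ennreal_ofReal
  have hs := BNoise3_split hN hh l6 hφ
  have e0 : ENNReal.ofReal (‖e1v hN + Real.sqrt h • (0 : E N)‖ ^ r) = 1 := by
    rw [smul_zero, add_zero, e1v_norm, Real.one_rpow, ENNReal.ofReal_one]
  have e1 : ∫⁻ ξ, ENNReal.ofReal (‖e1v hN + Real.sqrt h • ξ‖ ^ r) ∂(nuT N h) =
      ENNReal.ofReal (∫ ξ, ‖e1v hN + Real.sqrt h • ξ‖ ^ r ∂(nuT N h)) :=
    (ofReal_integral_eq_lintegral_ofReal (zeta_pow_int hh l6 hν r (e1v_norm hN))
      (Filter.Eventually.of_forall fun ξ => Real.rpow_nonneg (norm_nonneg _) _)).symm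
  have e2 : ∫⁻ ζ in gdE hN h, ENNReal.ofReal (‖e1v hN + Real.sqrt h • ζ‖ ^ r)
        ∂(stdGaussian (E N)) =
      ∫⁻ ζ in gdE hN h, ENNReal.ofReal (Real.exp (r * bE hN h ζ)) ∂(stdGaussian (E N)) := by
    refine setLIntegral_congr_fun (measurable_gdE hN h) fun ζ hζ => ?_
    have h0 : 0 < ‖e1v hN + Real.sqrt h • ζ‖ := norm_pos_iff.2 hζ.1
    rw [Real.rpow_def_of_pos h0, mul_comm]
    rfl
  rw [e0, e1, e2, one_mul] at hs
  have hq : 0 < h ^ (1 / 8 : ℝ) := Real.rpow_pos_of_pos hh _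
  have h98 : h ^ (9 / 8 : ℝ) = h * h ^ (1 / 8 : ℝ) := by
    rw [show (9 / 8 : ℝ) = 1 + 1 / 8 by norm_num, Real.rpow_add hh, Real.rpow_one]
  have h18 : h ^ (1 / 8 : ℝ) ≤ ε / (2 * (C + 1)) := by
    have := Real.rpow_le_rpow hh.le l4.le (by norm_num : (0 : ℝ) ≤ 1 / 8)
    refine this.trans (le_of_eq ?_)
    rw [← Real.rpow_natCast, ← Real.rpow_mul hε2.le]
    norm_num
  have hCe : C * h ^ (9 / 8 : ℝ) ≤ ε / 2 * h := by
    rw [h98]
    have h7 : (C + 1) * h ^ (1 / 8 : ℝ) ≤ ε / 2 := by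
      calc (C + 1) * h ^ (1 / 8 : ℝ) ≤ (C + 1) * (ε / (2 * (C + 1))) :=
            mul_le_mul_of_nonneg_left h18 (by linarith)
        _ = ε / 2 := by field_simp
    have h8 : C * h ^ (1 / 8 : ℝ) ≤ ε / 2 := by nlinarith
    calc C * (h * h ^ (1 / 8 : ℝ)) = (C * h ^ (1 / 8 : ℝ)) * h := by ring
      _ ≤ ε / 2 * h := mul_le_mul_of_nonneg_right h8 hh.le
  have hh3' : h ^ 3 ≤ ε / 2 * h := by
    have h9 : h ^ 3 = h * h * h := by ring
    have h10 : h * h ≤ ε / 2 := by nlinarith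
    rw [h9]
    exact mul_le_mul_of_nonneg_right h10 hh.le
  constructor
  · calc ∫⁻ a in gdE hN h, ENNReal.ofReal (Real.exp (r * bE hN h a)) ∂(stdGaussian (E N))
        ≤ ENNReal.ofReal (∫ ξ, ‖e1v hN + Real.sqrt h • ξ‖ ^ r ∂(nuT N h)) := by
          rw [hs]
          exact le_self_add
      _ ≤ _ := by
          refine ENNReal.ofReal_le_ofReal ?_
          have := k.2
          nlinarith
  · have hA : ENNReal.ofReal (∫ ξ, ‖e1v hN + Real.sqrt h • ξ‖ ^ r ∂(nuT N h)) ≤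
        ∫⁻ a in gdE hN h, ENNReal.ofReal (Real.exp (r * bE hN h a)) ∂(stdGaussian (E N)) +
          ENNReal.ofReal (h ^ 3) := by
      rw [hs]
      exact add_le_add le_rfl (ht h hh l2)
    have hB : ENNReal.ofReal (∫ ξ, ‖e1v hN + Real.sqrt h • ξ‖ ^ r ∂(nuT N h) - h ^ 3) ≤
        ∫⁻ a in gdE hN h, ENNReal.ofReal (Real.exp (r * bE hN h a)) ∂(stdGaussian (E N)) := by
      rw [ENNReal.ofReal_sub _ (by positivity)]
      exact tsub_le_iff_right.2 hA
    refine le_trans (ENNReal.ofReal_le_ofReal ?_) hB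
    have := k.1
    nlinarith

private theorem BNoise3_mgf2 (hN : 3 ≤ N) : ∃ C h0 : ℝ, 0 < C ∧ 0 < h0 ∧ ∀ h, 0 < h → h < h0 →
    ∫⁻ a, ENNReal.ofReal (Real.exp (2 * bE hN h a)) ∂(stdGaussian (E N)) ≤
      ENNReal.ofReal (1 + C * h) := by
  obtain ⟨h2, hh2, hh2', ht⟩ := BNoise3_tail hN
  refine ⟨N + 1, h2, by positivity, hh2, fun h hh hlt => ?_⟩
  have l6 : h < 1 / 1000 := hlt.trans_le hh2'
  have hc : Continuous fun ξ : E N => ‖e1v hN + Real.sqrt h • ξ‖ := by fun_prop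
  have hpt : ∀ a : E N, ENNReal.ofReal (Real.exp (2 * bE hN h a)) ≤
      ENNReal.ofReal (‖e1v hN + Real.sqrt h • a‖ ^ 2) +
        (gdE hN h)ᶜ.indicator (fun _ => (1 : ℝ≥0∞)) a := by
    intro a
    rcases eq_or_ne (e1v hN + Real.sqrt h • a) 0 with h0 | h0
    · have h1 : a ∈ (gdE hN h)ᶜ := fun h2 => h2.1 h0
      rw [Set.indicator_of_mem h1]
      unfold bE
      rw [h0, norm_zero, Real.log_zero, mul_zero, Real.exp_zero, ENNReal.ofReal_one]
      exact le_add_self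
    · have h1 : 0 < ‖e1v hN + Real.sqrt h • a‖ := norm_pos_iff.2 h0
      have h3 : Real.exp (2 * bE hN h a) = ‖e1v hN + Real.sqrt h • a‖ ^ 2 := by
        unfold bE
        rw [two_mul, Real.exp_add, Real.exp_log h1, sq]
      rw [h3]
      exact le_self_add
  have hint : Integrable (fun ξ : E N => inner ℝ (e1v hN) ξ) (stdGaussian (E N)) := by
    have h1 := BNoise3_gpow N 1
    refine h1.mono' (by fun_prop : Continuous fun ξ : E N => inner ℝ (e1v hN) ξ).aestronglyMeasurable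
      (Filter.Eventually.of_forall fun ξ => ?_)
    have h3 := abs_real_inner_le_norm (e1v hN) ξ
    rw [e1v_norm, one_mul] at h3
    rw [Real.norm_eq_abs, pow_one]
    exact h3
  have hmean : ∫ ξ : E N, inner ℝ (e1v hN) ξ ∂(stdGaussian (E N)) = 0 := by
    have := integral_strongDual_stdGaussian (E := E N) (innerSL ℝ (e1v hN))
    simpa using this
  have heq : ∀ ξ : E N, ‖e1v hN + Real.sqrt h • ξ‖ ^ 2 =
      1 + 2 * Real.sqrt h * inner ℝ (e1v hN) ξ + h * ‖ξ‖ ^ 2 := by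
    intro ξ
    rw [norm_add_sq_real, e1v_norm, inner_smul_right, norm_smul, mul_pow, Real.norm_eq_abs, sq_abs,
      Real.sq_sqrt hh.le]
    ring
  have i2 := BNoise3_gpow N 2
  have hI : Integrable (fun ξ : E N => ‖e1v hN + Real.sqrt h • ξ‖ ^ 2) (stdGaussian (E N)) := by
    simp only [heq]
    exact ((integrable_const 1).add (hint.const_mul _)).add (i2.const_mul _)
  have hval : ∫ ξ : E N, ‖e1v hN + Real.sqrt h • ξ‖ ^ 2 ∂(stdGaussian (E N)) ≤ 1 + N * h := by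
    simp only [heq]
    have j1 : Integrable (fun ξ : E N => 1 + 2 * Real.sqrt h * inner ℝ (e1v hN) ξ)
        (stdGaussian (E N)) := (integrable_const 1).add (hint.const_mul _)
    rw [integral_add j1 (i2.const_mul _),
      integral_add (integrable_const 1) (hint.const_mul _), integral_const, probReal_univ,
      one_smul, integral_const_mul, integral_const_mul, hmean, mul_zero, add_zero]
    have := (gauss_noise2 N).mom
    nlinarith
  calc ∫⁻ a, ENNReal.ofReal (Real.exp (2 * bE hN h a)) ∂(stdGaussian (E N))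
      ≤ ∫⁻ a, (ENNReal.ofReal (‖e1v hN + Real.sqrt h • a‖ ^ 2) +
        (gdE hN h)ᶜ.indicator (fun _ => (1 : ℝ≥0∞)) a) ∂(stdGaussian (E N)) := lintegral_mono hpt
    _ = ∫⁻ a, ENNReal.ofReal (‖e1v hN + Real.sqrt h • a‖ ^ 2) ∂(stdGaussian (E N)) +
        stdGaussian (E N) (gdE hN h)ᶜ := by
        rw [lintegral_add_left (hc.measurable.pow_const 2).ennreal_ofReal,
          lintegral_indicator_const (measurable_gdE hN h).compl, one_mul]
    _ ≤ ENNReal.ofReal (1 + N * h) + ENNReal.ofReal (h ^ 3) := by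
        refine add_le_add ?_ (ht h hh hlt)
        rw [← ofReal_integral_eq_lintegral_ofReal hI
          (Filter.Eventually.of_forall fun ξ => by positivity)]
        exact ENNReal.ofReal_le_ofReal hval
    _ = ENNReal.ofReal (1 + N * h + h ^ 3) := by
        rw [← ENNReal.ofReal_add (by positivity) (by positivity)]
    _ ≤ ENNReal.ofReal (1 + (N + 1) * h) := by
        refine ENNReal.ofReal_le_ofReal ?_
        have h9 : h ^ 3 = h * h * h := by ring
        have h10 : h * h ≤ 1 := by nlinarith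
        have h11 : h * h * h ≤ 1 * h := mul_le_mul_of_nonneg_right h10 hh.le
        linarith

theorem bnoise3 (hN : 3 ≤ N) : BNoise N (stdGaussian (E N)) (bE hN) (gdE hN) where
  bdd := fun _ _ _ _ ha => ha.2.2
  tail := by
    obtain ⟨h0, hh0, -, ht⟩ := BNoise3_tail hN
    exact ⟨h0, hh0, ht⟩
  mgf := fun rm ε hrm hε => BNoise3_mgf hN rm ε hrm hε
  mgf2 := BNoise3_mgf2 hN

end DynC

end

/-! ### from `Lib_MP_36b788g.ZHat` -/

section

/-!
# Contraction of the relative distance by the hat step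

Notation: `r = ‖g‖`, `r' = ‖g'‖`, `ξ = fr1 hN g ζ`; for `g, g' ≠ 0`: `unv = uni`, so `fr2 hN g g' ζ = rotQ (uni g) (uni g') ξ` and the pair
`(hat β h g (fr1 ζ), hat β h g' (fr2 ζ))` is `hat2 β h (g,g') ξ` (`hat_pair`).

PROOF.
* `Zr_split`: `Zr g g' = (r-r')²/(rr') + 2 sA (g,g')` (`‖g-g'‖² = (r-r')²+2rr'(1-cos)`), and `(r-r')²/(rr') = 4 sinh²(p/2)`, `p = log r - log r'`.
* `sinh_contr`: `0 ≤ θ ≤ 1`, `|p⁺| ≤ θ|p|`: `4 sinh²(p⁺/2) ≤ θ·4 sinh²(p/2)` (`sinh(θa) ≤ θ sinh a` for `a ≥ 0`: convexity of `sinh` on `[0,∞)`, `sinh 0 = 0`; `θ² ≤ θ`).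
* lower bound: on `gdE`, `h < 1/1000`: `‖uni g+√hξ‖ = ‖e1+√hζ‖ ∈ [9/10,11/10]`, `hat_half`: `‖hat‖ ≥ r·(9/10)/2 ≥ r/4`; same for the second component (`zeta_pair`).
* `z_hat`: on `gdE`: `dl_log` (`dL = |p|`): `|p⁺| ≤ θ|p|`, `θ = 1-(β/(2+β))h(min(r⁺,r'⁺))^β ≤ 1-(β/(2+β))4^{-β}h m^β`, `m = min(r,r')`, and `θ ≥ 0`. So the radial part is multiplied by at most
  `1-c₁h m^β`. Angular part: `∫⁻_{gdE}ofReal(sA(hat2 (g,g') (fr1 ζ)))dγ ≤ ∫⁻ofReal(sA(hat2 (g,g') ξ))dnuT ≤ ofReal(1-h/2)ofReal(sA)` (`gd_nuT` with `Q = fr1 hN g`, `ang_drift`, `nuT_noise`). With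
  `c = min(c₁, 1/2)`, `c min(1,m^β) ≤ c₁m^β` and `≤ 1/2`: total `≤ (1-ch min(1,m^β))Zr`.
-/

open MeasureTheory ProbabilityTheory
open scoped ENNReal

namespace DynG

open Dyn DynS DynC

variable {N : ℕ}

private theorem ZHat_unv (hN : 3 ≤ N) {g : E N} (hg : g ≠ 0) : unv hN g = uni g := by
  unfold unv
  rw [if_neg hg]

theorem hat_pair (hN : 3 ≤ N) (β h : ℝ) {g g' : E N} (hg : g ≠ 0) (hg' : g' ≠ 0) (ζ : E N) :
    (hat β h g (fr1 hN g ζ), hat β h g' (fr2 hN g g' ζ)) = hat2 β h (g, g') (fr1 hN g ζ) := by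
  unfold hat2 fr2
  rw [ZHat_unv hN hg, ZHat_unv hN hg']
  rfl

private theorem ZHat_sinh (x : ℝ) : 4 * Real.sinh (x / 2) ^ 2 = 2 * (Real.cosh x - 1) := by
  have h1 : Real.cosh x = Real.cosh (2 * (x / 2)) := by
    congr 1
    ring
  have h2 := Real.cosh_sq (x / 2)
  rw [h1, Real.cosh_two_mul]
  linarith

theorem Zr_split {g g' : E N} (hg : g ≠ 0) (hg' : g' ≠ 0) :
    Zr g g' = 4 * Real.sinh ((Real.log ‖g‖ - Real.log ‖g'‖) / 2) ^ 2 + 2 * sA (g, g') := by
  have hr : 0 < ‖g‖ := norm_pos_iff.mpr hg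
  have hr' : 0 < ‖g'‖ := norm_pos_iff.mpr hg'
  rw [ZHat_sinh, Real.cosh_eq, neg_sub, Real.exp_sub, Real.exp_sub, Real.exp_log hr,
    Real.exp_log hr']
  unfold Zr sA uni
  simp only
  rw [real_inner_smul_left, real_inner_smul_right, norm_sub_sq_real]
  field_simp
  ring

theorem sinh_contr {θ p p' : ℝ} (h0 : 0 ≤ θ) (h1 : θ ≤ 1) (hp : |p'| ≤ θ * |p|) :
    4 * Real.sinh (p' / 2) ^ 2 ≤ θ * (4 * Real.sinh (p / 2) ^ 2) := by
  rw [ZHat_sinh, ZHat_sinh]
  have h2 : Real.cosh p' ≤ Real.cosh (θ * p) := by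
    rw [Real.cosh_le_cosh, abs_mul, abs_of_nonneg h0]
    exact hp
  have h3 : Real.cosh (θ * p) ≤ θ * Real.cosh p + (1 - θ) := by
    rw [Real.cosh_eq, Real.cosh_eq]
    have a1 := convexOn_exp.2 (Set.mem_univ p) (Set.mem_univ (0 : ℝ)) h0 (sub_nonneg.2 h1)
      (by ring)
    have a2 := convexOn_exp.2 (Set.mem_univ (-p)) (Set.mem_univ (0 : ℝ)) h0 (sub_nonneg.2 h1)
      (by ring)
    simp only [smul_eq_mul, mul_zero, add_zero, Real.exp_zero, mul_one, mul_neg] at a1 a2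
    linarith
  linarith

private theorem ZHat_norm (hN : 3 ≤ N) {h : ℝ} {g : E N} (hg : g ≠ 0) (Q : E N ≃ₗᵢ[ℝ] E N)
    (hQ : Q (e1v hN) = unv hN g) (ζ : E N) :
    ‖uni g + Real.sqrt h • Q ζ‖ = ‖e1v hN + Real.sqrt h • ζ‖ := by
  rw [← ZHat_unv hN hg, ← hQ, ← map_smul, ← map_add, LinearIsometryEquiv.norm_map]

private theorem ZHat_bd (hN : 3 ≤ N) {h : ℝ} (hh : 0 < h) (hh1 : h < 1 / 1000) {ζ : E N}
    (hζ : ζ ∈ gdE hN h) :
    9 / 10 ≤ ‖e1v hN + Real.sqrt h • ζ‖ ∧ ‖e1v hN + Real.sqrt h • ζ‖ ≤ 11 / 10 := by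
  obtain ⟨hl0, hl1, -, -, -⟩ := LogZ_ell hh hh1
  have h1 : |‖e1v hN + Real.sqrt h • ζ‖ - 1| ≤ h ^ (3 / 8 : ℝ) := by
    have h2 := abs_norm_sub_norm_le (e1v hN + Real.sqrt h • ζ) (e1v hN)
    rw [e1v_norm, add_sub_cancel_left, norm_smul, Real.norm_eq_abs,
      abs_of_nonneg (Real.sqrt_nonneg h)] at h2
    exact h2.trans hζ.2.1
  rw [abs_le] at h1
  constructor <;> linarith [h1.1, h1.2]

theorem hat_low (hN : 3 ≤ N) {β h : ℝ} (hβ : 0 < β) (hh : 0 < h) (hh1 : h < 1 / 1000)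
    {g g' : E N} (hg : g ≠ 0) (hg' : g' ≠ 0) (hs : h * ‖g‖ ^ β ≤ 1) (hs' : h * ‖g'‖ ^ β ≤ 1)
    {ζ : E N} (hζ : ζ ∈ gdE hN h) :
    ‖g‖ / 4 ≤ ‖hat β h g (fr1 hN g ζ)‖ ∧ ‖g'‖ / 4 ≤ ‖hat β h g' (fr2 hN g g' ζ)‖ := by
  obtain ⟨b1, b2⟩ := ZHat_bd hN hh hh1 hζ
  have n1 := ZHat_norm hN (h := h) hg (fr1 hN g) (fr1_map hN g) ζ
  have n2 := ZHat_norm hN (h := h) hg' (fr2 hN g g') (fr2_map hN g g') ζ
  have a1 := (hat_half hβ hh hg (by rw [n1]; linarith) (by rw [n1]; exact b2) hs).1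
  have a2 := (hat_half hβ hh hg' (by rw [n2]; linarith) (by rw [n2]; exact b2) hs').1
  rw [n1] at a1
  rw [n2] at a2
  have hr : 0 < ‖g‖ := norm_pos_iff.mpr hg
  have hr' : 0 < ‖g'‖ := norm_pos_iff.mpr hg'
  constructor
  · refine le_trans ?_ a1
    nlinarith
  · refine le_trans ?_ a2
    nlinarith

/-- pointwise bound on the good set -/
private theorem ZHat_pt (hN : 3 ≤ N) {β h : ℝ} (hβ : 0 < β) (hh : 0 < h) (hh1 : h < 1 / 1000)
    {g g' : E N} (hg : g ≠ 0) (hg' : g' ≠ 0) (hs : h * ‖g‖ ^ β ≤ 1) (hs' : h * ‖g'‖ ^ β ≤ 1)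
    {ζ : E N} (hζ : ζ ∈ gdE hN h) :
    Zr (hat β h g (fr1 hN g ζ)) (hat β h g' (fr2 hN g g' ζ)) ≤
      (1 - β / (2 + β) * (4 : ℝ) ^ (-β) * h * (min ‖g‖ ‖g'‖) ^ β) *
        (4 * Real.sinh ((Real.log ‖g‖ - Real.log ‖g'‖) / 2) ^ 2) +
      2 * sA (hat2 β h (g, g') (fr1 hN g ζ)) := by
  obtain ⟨b1, b2⟩ := ZHat_bd hN hh hh1 hζ
  obtain ⟨l1, l2⟩ := hat_low hN hβ hh hh1 hg hg' hs hs' hζ
  have n1 := ZHat_norm hN (h := h) hg (fr1 hN g) (fr1_map hN g) ζ
  have n2 := ZHat_norm hN (h := h) hg' (fr2 hN g g') (fr2_map hN g g') ζ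
  have hr : 0 < ‖g‖ := norm_pos_iff.mpr hg
  have hr' : 0 < ‖g'‖ := norm_pos_iff.mpr hg'
  have i1 := hat_inv hβ hh hg (ξ := fr1 hN g ζ) (by rw [n1]; linarith) (by rw [n1]; exact b2) hs
  have hp := hat_pair hN β h hg hg' ζ
  have hne1 : hat β h g (fr1 hN g ζ) ≠ 0 := norm_pos_iff.1 (by linarith)
  have hne2 : hat β h g' (fr2 hN g g' ζ) ≠ 0 := norm_pos_iff.1 (by linarith)
  have hdl := (dl_log hβ hh (q := (g, g')) hg hg' (ξ := fr1 hN g ζ)
    (by simp only; rw [n1]; linarith) (by simp only; rw [n1]; exact b2) hs hs').1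
  rw [Zr_split hne1 hne2, hp]
  rw [← hp] at hdl
  unfold dL at hdl
  simp only at hdl
  set a := ‖hat β h g (fr1 hN g ζ)‖ with ha
  set b := ‖hat β h g' (fr2 hN g g' ζ)‖ with hb
  have ha0 : 0 < a := by linarith
  have hb0 : 0 < b := by linarith
  have hm0 : 0 < min a b := lt_min ha0 hb0
  have hk0 : 0 < β / (2 + β) := by positivity
  have hk1 : β / (2 + β) ≤ 1 := by
    rw [div_le_one (by linarith)]
    linarith
  have hx1 : h * (min a b) ^ β ≤ 1 := by
    refine le_trans ?_ i1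
    exact mul_le_mul_of_nonneg_left (Real.rpow_le_rpow hm0.le (min_le_left _ _) hβ.le) hh.le
  have hx0 : 0 ≤ h * (min a b) ^ β := by positivity
  have hθ0 : 0 ≤ 1 - β / (2 + β) * (h * (min a b) ^ β) := by
    have : β / (2 + β) * (h * (min a b) ^ β) ≤ 1 * 1 := mul_le_mul hk1 hx1 hx0 (by norm_num)
    linarith
  have hθ1 : 1 - β / (2 + β) * (h * (min a b) ^ β) ≤ 1 := by
    have : 0 ≤ β / (2 + β) * (h * (min a b) ^ β) := by positivity
    linarith
  have hc := sinh_contr hθ0 hθ1 hdl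
  have hmm : (min ‖g‖ ‖g'‖) / 4 ≤ min a b := by
    refine le_min ?_ ?_
    · exact (div_le_div_of_nonneg_right (min_le_left _ _) (by norm_num)).trans l1
    · exact (div_le_div_of_nonneg_right (min_le_right _ _) (by norm_num)).trans l2
  have hmn : 0 < min ‖g‖ ‖g'‖ := lt_min hr hr'
  have hpw : (4 : ℝ) ^ (-β) * (min ‖g‖ ‖g'‖) ^ β ≤ (min a b) ^ β := by
    have e1 : (4 : ℝ) ^ (-β) * (min ‖g‖ ‖g'‖) ^ β = ((min ‖g‖ ‖g'‖) / 4) ^ β := by
      rw [Real.div_rpow hmn.le (by norm_num), Real.rpow_neg (by norm_num)]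
      field_simp
    rw [e1]
    exact Real.rpow_le_rpow (by positivity) hmm hβ.le
  have hth : 1 - β / (2 + β) * (h * (min a b) ^ β) ≤
      1 - β / (2 + β) * (4 : ℝ) ^ (-β) * h * (min ‖g‖ ‖g'‖) ^ β := by
    have : β / (2 + β) * (4 : ℝ) ^ (-β) * h * (min ‖g‖ ‖g'‖) ^ β =
        β / (2 + β) * h * ((4 : ℝ) ^ (-β) * (min ‖g‖ ‖g'‖) ^ β) := by ring
    rw [this]
    have h2 : β / (2 + β) * h * ((4 : ℝ) ^ (-β) * (min ‖g‖ ‖g'‖) ^ β) ≤
        β / (2 + β) * h * (min a b) ^ β := mul_le_mul_of_nonneg_left hpw (by positivity)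
    linarith
  have hR : 0 ≤ 4 * Real.sinh ((Real.log ‖g‖ - Real.log ‖g'‖) / 2) ^ 2 := by positivity
  have hfin := hc.trans (mul_le_mul_of_nonneg_right hth hR)
  linarith

theorem z_hat (hN : 3 ≤ N) (β : ℝ) (hβ : 0 < β) : ∃ c h0 : ℝ, 0 < c ∧ c ≤ 1 ∧ 0 < h0 ∧
    h0 ≤ 1 / 1000 ∧ ∀ h, 0 < h → h < h0 → ∀ g g' : E N, g ≠ 0 → g' ≠ 0 → h * ‖g‖ ^ β ≤ 1 →
      h * ‖g'‖ ^ β ≤ 1 →
      ∫⁻ ζ in gdE hN h, ENNReal.ofReal (Zr (hat β h g (fr1 hN g ζ)) (hat β h g' (fr2 hN g g' ζ)))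
          ∂(stdGaussian (E N)) ≤
        ENNReal.ofReal ((1 - c * h * min 1 ((min ‖g‖ ‖g'‖) ^ β)) * Zr g g') := by
  obtain ⟨h0, hh0, hno⟩ := nuT_noise N (by omega)
  set c₁ : ℝ := β / (2 + β) * (4 : ℝ) ^ (-β) with hc₁
  have hc₁0 : 0 < c₁ := by positivity
  refine ⟨min c₁ (1 / 2), min h0 (1 / 1000), lt_min hc₁0 (by norm_num),
    (min_le_right _ _).trans (by norm_num), lt_min hh0 (by norm_num), min_le_right _ _, ?_⟩
  intro h hh hlt g g' hg hg' hs hs'
  have hlt0 : h < h0 := hlt.trans_le (min_le_left _ _)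
  have hh1 : h < 1 / 1000 := hlt.trans_le (min_le_right _ _)
  have hν := hno h hh hlt0
  set m := min ‖g‖ ‖g'‖ with hm
  have hm0 : 0 < m := lt_min (norm_pos_iff.mpr hg) (norm_pos_iff.mpr hg')
  set R : ℝ := 4 * Real.sinh ((Real.log ‖g‖ - Real.log ‖g'‖) / 2) ^ 2 with hRd
  have hR : 0 ≤ R := by positivity
  have hsA := (sA_nonneg (g, g')).1
  set φ : E N → ℝ≥0∞ := fun ξ => ENNReal.ofReal (sA (hat2 β h (g, g') ξ)) with hφ
  have hφm : Measurable φ := by
    have q0 : Measurable (fun ξ : E N => (((g, g') : E N × E N), ξ)) :=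
      measurable_const.prodMk measurable_id
    have h1 := (measurable_hat2 (N := N) hβ hh.le).comp q0
    have h2 := measurable_sA.comp h1
    have h3 := h2.ennreal_ofReal
    exact h3
  have hang : ∫⁻ ζ in gdE hN h, φ (fr1 hN g ζ) ∂(stdGaussian (E N)) ≤
      ENNReal.ofReal (1 - h / 2) * ENNReal.ofReal (sA (g, g')) :=
    (gd_nuT hN hh hh1 hφm (fr1 hN g)).trans (ang_drift hN hβ hh hh1 hν hg hg')
  calc ∫⁻ ζ in gdE hN h, ENNReal.ofReal (Zr (hat β h g (fr1 hN g ζ)) (hat β h g' (fr2 hN g g' ζ)))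
          ∂(stdGaussian (E N))
      ≤ ∫⁻ ζ in gdE hN h, (ENNReal.ofReal ((1 - c₁ * h * m ^ β) * R) +
          ENNReal.ofReal 2 * φ (fr1 hN g ζ)) ∂(stdGaussian (E N)) := by
        refine setLIntegral_mono' (measurable_gdE hN h) fun ζ hζ => ?_
        have h1 := ZHat_pt hN hβ hh hh1 hg hg' hs hs' hζ
        refine (ENNReal.ofReal_le_ofReal h1).trans ?_
        refine ENNReal.ofReal_add_le.trans ?_
        rw [ENNReal.ofReal_mul (by norm_num : (0 : ℝ) ≤ 2)]
    _ = ∫⁻ ζ in gdE hN h, ENNReal.ofReal ((1 - c₁ * h * m ^ β) * R) ∂(stdGaussian (E N)) +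
          ∫⁻ ζ in gdE hN h, ENNReal.ofReal 2 * φ (fr1 hN g ζ) ∂(stdGaussian (E N)) :=
        lintegral_add_left measurable_const _
    _ ≤ ENNReal.ofReal ((1 - c₁ * h * m ^ β) * R) + ENNReal.ofReal 2 *
          (ENNReal.ofReal (1 - h / 2) * ENNReal.ofReal (sA (g, g'))) := by
        refine add_le_add ?_ ?_
        · rw [setLIntegral_const]
          calc _ ≤ ENNReal.ofReal ((1 - c₁ * h * m ^ β) * R) * 1 := by
                gcongr
                exact prob_le_one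
            _ = _ := mul_one _
        · rw [lintegral_const_mul' _ _ ENNReal.ofReal_ne_top]
          gcongr
    _ = ENNReal.ofReal ((1 - c₁ * h * m ^ β) * R) +
          ENNReal.ofReal (2 * ((1 - h / 2) * sA (g, g'))) := by
        rw [ENNReal.ofReal_mul (by norm_num : (0 : ℝ) ≤ 2),
          ENNReal.ofReal_mul (by linarith : (0 : ℝ) ≤ 1 - h / 2)]
    _ = ENNReal.ofReal ((1 - c₁ * h * m ^ β) * R + 2 * ((1 - h / 2) * sA (g, g'))) := by
        have hcm : c₁ * h * m ^ β ≤ 1 := by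
          have a1 : β / (2 + β) ≤ 1 := by
            rw [div_le_one (by linarith)]
            linarith
          have a2 : (4 : ℝ) ^ (-β) ≤ 1 :=
            Real.rpow_le_one_of_one_le_of_nonpos (by norm_num) (by linarith)
          have a3 : c₁ ≤ 1 := by
            rw [hc₁]
            exact mul_le_one₀ a1 (by positivity) a2
          have a4 : h * m ^ β ≤ 1 := by
            refine le_trans ?_ hs
            exact mul_le_mul_of_nonneg_left (Real.rpow_le_rpow hm0.le (min_le_left _ _) hβ.le) hh.le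
          rw [mul_assoc]
          exact mul_le_one₀ a3 (by positivity) a4
        rw [ENNReal.ofReal_add]
        · exact mul_nonneg (by linarith) hR
        · have : 0 ≤ 1 - h / 2 := by linarith
          positivity
    _ ≤ _ := by
        refine ENNReal.ofReal_le_ofReal ?_
        rw [Zr_split hg hg', ← hRd]
        have hmb : 0 < m ^ β := by positivity
        have c1 : min c₁ (1 / 2) * min 1 (m ^ β) ≤ c₁ * m ^ β :=
          mul_le_mul (min_le_left _ _) (min_le_right _ _) (le_min (by norm_num) hmb.le) hc₁0.le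
        have c2 : min c₁ (1 / 2) * min 1 (m ^ β) ≤ 1 / 2 * 1 :=
          mul_le_mul (min_le_right _ _) (min_le_left _ _) (le_min (by norm_num) hmb.le)
            (by norm_num)
        have e1 : (1 - min c₁ (1 / 2) * h * min 1 (m ^ β)) * (R + 2 * sA (g, g')) =
            R - (min c₁ (1 / 2) * min 1 (m ^ β)) * (h * R) + 2 * sA (g, g') -
              (min c₁ (1 / 2) * min 1 (m ^ β)) * (2 * (h * sA (g, g'))) := by ring
        rw [e1]
        have p1 := mul_le_mul_of_nonneg_right c1 (mul_nonneg hh.le hR)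
        have p2 := mul_le_mul_of_nonneg_right c2
          (mul_nonneg (by norm_num : (0 : ℝ) ≤ 2) (mul_nonneg hh.le hsA))
        nlinarith

end DynG

end

/-! ### from `Lib_MP_36b788g.ZStep` -/

section

/-!
# One step of the weighted sum `YW`

`B = {dist x y ≤ R}`, `D = G.1 - G.2`, `χ = chi c β C' y R G` with `c` from `z_hat` and `C' = N + 2`, `σ⁺ = upd net (ell k) h χ σ`, `e^{ell k} = 1/k`.

PROOF.
* `upd_le`: `σ⁺ x ≤ σ z + hχ z + dist x z·ell/2` for every `z`; so `σ⁺ x ≤ σ x + hχ x`, and for a neighbour `z`: `e^{σ⁺ x} ≤ 2k^{-1/2}e^{σ z}` (`hχ ≤ h ≤ log 2`).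
* `cpl_sq`: `(cpl net D x)² ≤ 4d(Σ_{z∈nb x}D z² + 2d D x²)` (Cauchy-Schwarz, `nb_card ≤ 2d`).
* `z_in` (`x ∈ B`, good noise): `H, H'` the hat steps, `‖H‖ ≥ r/4 ≥ k^{1/4}/4` (`hat_low`; `h r^β ≤ 1` since `r ≤ k^{-1/16}`, `h < h0(k)`). `r⁺ ≥ ‖H‖ - kh cpl(nrm G.1) x ≥ ‖H‖(1-hk^{1/2})` as
  `kh·4dk^{-1/16} ≤ hk^{1/2}k^{1/4}/4` for small `k`; the same for `r'⁺`. `|D⁺ x| ≤ ‖H-H'‖+kh cpl D x`, `(a+b)² ≤ (1+hk^{1/2})a²+(1+1/(hk^{1/2}))b²`, `(1+1/(hk^{1/2}))k²h² ≤ 2hk^{3/2}`. So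
  `Zr⁺ ≤ (1+6hk^{1/2})Zr(H,H')+64hk^{3/2}(cpl D x)²/(rr')`, `1/(rr') ≤ k^{-1/2}`, `|D z|² ≤ k^{-1/8}Zr z` for `z ∈ B`, hence (`cpl_sq`)
  `Zr⁺ x ≤ (1+6hk^{1/2})Zr(H,H')+256d(1+2d)hk^{7/8}(Σ_{z∈nb x∪{x}}W z)`, `W z = Zr z` in `B`, `|D z|²` outside.
* expectation: `z_hat`: `e^{σ⁺ x}E Zr⁺ ≤ e^{σ x}e^{hχ}((1+6hk^{1/2})(1-hχ)Zr x)+…`, `e^{hχ}(1-hχ) ≤ 1`; neighbour terms: `e^{σ⁺ x} ≤ 2k^{-1/2}e^{σ z}`: `≤ C_dhk^{3/8}e^{σ z}W z`.
* outside (`x ∉ B`): `dd`: `|D⁺ x| ≤ e^b|D x|+kh cpl D x`; `|D⁺ x|² ≤ (1+hk^{1/2})e^{2b}|D x|²+2hk^{3/2}(cpl D x)²`, `E_{gd}e^{2b} ≤ 1+(N+1)h` (`bnoise3.mgf`, `r = 2`, `lamN·2+2 = N`, `ε = 1`), so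
  `E|D⁺ x|² ≤ (1+(N+2)h)|D x|²+C_dhk^{3/2}k^{-1/8}ΣW z`, `e^{σ⁺ x} ≤ e^{σ x-(N+2)h}`, `(1+C'h)e^{-C'h} ≤ 1`.
* Sum over `x`; each `z` occurs at most `2d+1` times; total `≤ (1+6hk^{1/2}+C_dhk^{3/8})YW ≤ (1+hk^{1/4})YW` for small `k`.
  (`∫⁻` of a finite sum of nonnegative functions; the marginal of the product measure at `x`: the noise at the other sites only has to be good, drop it.)
-/

open MeasureTheory ProbabilityTheory
open scoped ENNReal

namespace DynG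

open Dyn DynS DynC

theorem upd_le {ι : Type} [Fintype ι] {d : ℕ} (net : Net ι d) (ℓ h : ℝ) (χ σ : ι → ℝ) (x z : ι) :
    upd net ℓ h χ σ x ≤ σ z + h * χ z + net.dist x z * (ℓ / 2) := by
  unfold upd
  exact Finset.inf'_le _ (Finset.mem_univ z)

theorem upd_attained {ι : Type} [Fintype ι] {d : ℕ} (net : Net ι d) (ℓ h : ℝ) (χ σ : ι → ℝ)
    (x : ι) : ∃ z, upd net ℓ h χ σ x = σ z + h * χ z + net.dist x z * (ℓ / 2) := by
  unfold upd
  obtain ⟨z, -, hz⟩ := Finset.exists_mem_eq_inf' ⟨x, Finset.mem_univ x⟩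
    (fun z => σ z + h * χ z + net.dist x z * (ℓ / 2))
  exact ⟨z, hz⟩

theorem cpl_sq {ι : Type} [Fintype ι] {d : ℕ} (net : Net ι d) (D : ι → ℝ) (x : ι) :
    (cpl net D x) ^ 2 ≤ 4 * d * (∑ z ∈ net.nb x, D z ^ 2 + 2 * d * D x ^ 2) := by
  unfold cpl
  have h1 : (∑ z ∈ net.nb x, D z) ^ 2 ≤ (net.nb x).card * ∑ z ∈ net.nb x, D z ^ 2 :=
    sq_sum_le_card_mul_sum_sq
  have h2 : ((net.nb x).card : ℝ) ≤ 2 * d := by
    have := net.nb_card x
    exact_mod_cast this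
  have h3 : 0 ≤ ∑ z ∈ net.nb x, D z ^ 2 := Finset.sum_nonneg fun z _ => sq_nonneg _
  have h4 : ((net.nb x).card : ℝ) * ∑ z ∈ net.nb x, D z ^ 2 ≤
      2 * d * ∑ z ∈ net.nb x, D z ^ 2 := mul_le_mul_of_nonneg_right h2 h3
  push_cast
  have h5 := sq_nonneg (∑ z ∈ net.nb x, D z - 2 * (d : ℝ) * D x)
  nlinarith

/-! ### the coupling term -/

private theorem ZStep_coup {N d L : ℕ} (net : Net (boxS d L) d) (G : boxS d L → E N)
    (x : boxS d L) : ‖coupV net G x‖ ≤ cpl net (nrm G) x := by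
  unfold coupV cpl nrm
  refine (norm_sub_le _ _).trans ?_
  refine add_le_add (norm_sum_le _ _) ?_
  rw [norm_smul, Real.norm_of_nonneg (Nat.cast_nonneg _)]

private theorem ZStep_coup_sub {N d L : ℕ} (net : Net (boxS d L) d) (G G' : boxS d L → E N)
    (x : boxS d L) : coupV net G x - coupV net G' x = coupV net (fun y => G y - G' y) x := by
  unfold coupV
  rw [Finset.sum_sub_distrib, smul_sub]
  abel

private theorem ZStep_coup_le {N d L : ℕ} (G : boxS d L → E N) (x : boxS d L) {M : ℝ}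
    (hM : ∀ z, (boxNet d L).dist x z ≤ 1 → ‖G z‖ ≤ M) :
    ‖coupV (boxNet d L) G x‖ ≤ 4 * d * M := by
  refine (ZStep_coup (boxNet d L) G x).trans ?_
  unfold cpl nrm
  have h0 : ‖G x‖ ≤ M := hM x (by rw [(boxNet d L).dist_self]; omega)
  have hM0 : 0 ≤ M := (norm_nonneg _).trans h0
  have h1 : ∑ z ∈ (boxNet d L).nb x, ‖G z‖ ≤ (((boxNet d L).nb x).card : ℝ) * M := by
    rw [← nsmul_eq_mul]
    exact Finset.sum_le_card_nsmul _ _ _ fun z hz => hM z ((boxNet d L).dist_nb x z hz).le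
  have h2 : (((boxNet d L).nb x).card : ℝ) ≤ 2 * d := by
    have := (boxNet d L).nb_card x
    exact_mod_cast this
  have h3 : (((boxNet d L).nb x).card : ℝ) * M ≤ 2 * d * M := mul_le_mul_of_nonneg_right h2 hM0
  have h4 : ((2 * d : ℕ) : ℝ) * ‖G x‖ ≤ 2 * d * M := by
    push_cast
    exact mul_le_mul_of_nonneg_left h0 (by positivity)
  linarith

/-! ### measure part -/

private theorem ZStep_mA {N d L : ℕ} (hN : 3 ≤ N) (h : ℝ) :
    MeasurableSet {ω : boxS d L → E N | ∀ x, ω x ∈ gdE hN h} := by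
  have h1 : {ω : boxS d L → E N | ∀ x, ω x ∈ gdE hN h} =
      ⋂ x : boxS d L, (fun ω : boxS d L → E N => ω x) ⁻¹' (gdE hN h) := by
    ext ω
    simp
  rw [h1]
  exact MeasurableSet.iInter fun x => measurable_pi_apply x (measurable_gdE hN h)

private theorem ZStep_marg {N d L : ℕ} (hN : 3 ≤ N) (h : ℝ) (x : boxS d L) {ψ : E N → ℝ≥0∞}
    (hψ : Measurable ψ) :
    ∫⁻ ω in {ω | ∀ x, ω x ∈ gdE hN h}, ψ (ω x)
        ∂(Measure.pi fun _ : boxS d L => stdGaussian (E N)) ≤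
      ∫⁻ ζ in gdE hN h, ψ ζ ∂(stdGaussian (E N)) := by
  have hi := hψ.indicator (measurable_gdE hN h)
  have e1 : ∫⁻ ω in {ω | ∀ x, ω x ∈ gdE hN h}, ψ (ω x)
        ∂(Measure.pi fun _ : boxS d L => stdGaussian (E N)) =
      ∫⁻ ω in {ω | ∀ x, ω x ∈ gdE hN h}, (gdE hN h).indicator ψ (ω x)
        ∂(Measure.pi fun _ : boxS d L => stdGaussian (E N)) := by
    refine setLIntegral_congr_fun (ZStep_mA hN h) fun ω hω => ?_
    have hω' : ω x ∈ gdE hN h := hω x
    rw [Set.indicator_of_mem hω']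
  rw [e1, ← lintegral_indicator (measurable_gdE hN h)]
  have e2 := (measurePreserving_eval (fun _ : boxS d L => stdGaussian (E N)) x).lintegral_comp hi
  rw [← e2]
  exact setLIntegral_le_lintegral _ _

private theorem ZStep_int {N d L : ℕ} (hN : 3 ≤ N) (h : ℝ) (x : boxS d L) {ψ : E N → ℝ}
    (hψ : Measurable ψ) {F : (boxS d L → E N) → ℝ} {a b v : ℝ} (ha : 0 ≤ a) (hb : 0 ≤ b)
    (hv : 0 ≤ v) (hψ0 : ∀ ζ, 0 ≤ ψ ζ)
    (hF : ∀ ω : boxS d L → E N, (∀ x, ω x ∈ gdE hN h) → F ω ≤ a * ψ (ω x) + b)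
    (hI : ∫⁻ ζ in gdE hN h, ENNReal.ofReal (ψ ζ) ∂(stdGaussian (E N)) ≤ ENNReal.ofReal v) :
    ∫⁻ ω in {ω | ∀ x, ω x ∈ gdE hN h}, ENNReal.ofReal (F ω)
        ∂(Measure.pi fun _ : boxS d L => stdGaussian (E N)) ≤ ENNReal.ofReal (a * v + b) := by
  calc ∫⁻ ω in {ω | ∀ x, ω x ∈ gdE hN h}, ENNReal.ofReal (F ω)
        ∂(Measure.pi fun _ : boxS d L => stdGaussian (E N))
      ≤ ∫⁻ ω in {ω | ∀ x, ω x ∈ gdE hN h}, (ENNReal.ofReal a * ENNReal.ofReal (ψ (ω x)) +
          ENNReal.ofReal b) ∂(Measure.pi fun _ : boxS d L => stdGaussian (E N)) := by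
        refine setLIntegral_mono' (ZStep_mA hN h) fun ω hω => ?_
        rw [← ENNReal.ofReal_mul ha, ← ENNReal.ofReal_add (mul_nonneg ha (hψ0 _)) hb]
        exact ENNReal.ofReal_le_ofReal (hF ω hω)
    _ = ENNReal.ofReal a * ∫⁻ ω in {ω | ∀ x, ω x ∈ gdE hN h}, ENNReal.ofReal (ψ (ω x))
          ∂(Measure.pi fun _ : boxS d L => stdGaussian (E N)) + ENNReal.ofReal b *
          (Measure.pi fun _ : boxS d L => stdGaussian (E N))
            {ω | ∀ x, ω x ∈ gdE hN h} := by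
        rw [lintegral_add_right _ measurable_const, lintegral_const_mul' _ _ ENNReal.ofReal_ne_top,
          setLIntegral_const]
    _ ≤ ENNReal.ofReal a * ENNReal.ofReal v + ENNReal.ofReal b * 1 := by
        refine add_le_add (mul_le_mul_right ?_ _) (mul_le_mul_right prob_le_one _)
        exact (ZStep_marg hN h x hψ.ennreal_ofReal).trans hI
    _ = ENNReal.ofReal (a * v + b) := by
        rw [mul_one, ← ENNReal.ofReal_mul ha, ← ENNReal.ofReal_add (mul_nonneg ha hv) hb]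

/-! ### algebra of one site -/

private theorem ZStep_sq {a b η : ℝ} (hη : 0 < η) (hη1 : η ≤ 1) :
    (a + b) ^ 2 ≤ (1 + η) * a ^ 2 + 2 / η * b ^ 2 := by
  have h1 : 0 ≤ (η * a - b) ^ 2 / η := by positivity
  have h2 : (η * a - b) ^ 2 / η = η * a ^ 2 - 2 * (a * b) + b ^ 2 / η := by
    field_simp
    ring
  have h3 : b ^ 2 ≤ b ^ 2 / η := by
    rw [le_div_iff₀ hη]
    nlinarith [sq_nonneg b]
  have h4 : 2 / η * b ^ 2 = b ^ 2 / η + b ^ 2 / η := by ring
  rw [h4]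
  nlinarith

private theorem ZStep_alg {a s η r r' H H' Rp Rp' Dp : ℝ} (hη : 0 < η) (hη1 : η ≤ 1 / 10)
    (hr : 0 < r) (hr' : 0 < r') (hH : r / 4 ≤ H) (hH' : r' / 4 ≤ H') (hR : H * (1 - η) ≤ Rp)
    (hR' : H' * (1 - η) ≤ Rp') (hs : 0 ≤ s) (hD : Dp ^ 2 ≤ (1 + η) * a ^ 2 + s) :
    Dp ^ 2 / (Rp * Rp') ≤ (1 + 6 * η) * (a ^ 2 / (H * H')) + 32 * s / (r * r') := by
  have H0 : 0 < H := by linarith
  have H0' : 0 < H' := by linarith
  have h1 : 0 < 1 - η := by linarith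
  have hHH : 0 < H * H' := mul_pos H0 H0'
  have hrr : 0 < r * r' := mul_pos hr hr'
  have hHR : H * H' * (1 - η) ^ 2 ≤ Rp * Rp' := by
    calc H * H' * (1 - η) ^ 2 = (H * (1 - η)) * (H' * (1 - η)) := by ring
      _ ≤ Rp * Rp' := mul_le_mul hR hR' (by positivity) ((by positivity : 0 ≤ H * (1 - η)).trans hR)
  have hpos : 0 < H * H' * (1 - η) ^ 2 := by positivity
  have hnum : 0 ≤ (1 + η) * a ^ 2 + s := by positivity
  calc Dp ^ 2 / (Rp * Rp') ≤ ((1 + η) * a ^ 2 + s) / (H * H' * (1 - η) ^ 2) :=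
        div_le_div₀ hnum hD hpos hHR
    _ = (1 + η) / (1 - η) ^ 2 * (a ^ 2 / (H * H')) + s / (H * H' * (1 - η) ^ 2) := by
        field_simp
    _ ≤ (1 + 6 * η) * (a ^ 2 / (H * H')) + 32 * s / (r * r') := by
        refine add_le_add (mul_le_mul_of_nonneg_right ?_ (by positivity)) ?_
        · rw [div_le_iff₀ (by positivity)]
          nlinarith [sq_nonneg η, mul_pos hη hη, mul_pos (mul_pos hη hη) hη]
        · rw [div_le_div_iff₀ hpos hrr]
          have h2 : r * r' / 16 ≤ H * H' := by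
            calc r * r' / 16 = (r / 4) * (r' / 4) := by ring
              _ ≤ H * H' := mul_le_mul hH hH' (by positivity) H0.le
          have h3 : (1 / 2 : ℝ) ≤ (1 - η) ^ 2 := by nlinarith
          have h4 : r * r' / 32 ≤ H * H' * (1 - η) ^ 2 := by
            calc r * r' / 32 = r * r' / 16 * (1 / 2) := by ring
              _ ≤ H * H' * (1 - η) ^ 2 := mul_le_mul h2 h3 (by norm_num) hHH.le
          nlinarith

/-- terms of `YW` without the weights -/
private noncomputable def ZStepW {N d L : ℕ} (y : boxS d L) (R : ℕ)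
    (G : (boxS d L → E N) × (boxS d L → E N)) (z : boxS d L) : ℝ :=
  if (boxNet d L).dist z y ≤ R then Zr (G.1 z) (G.2 z) else ‖G.1 z - G.2 z‖ ^ 2

private theorem ZStep_Zr0 {N : ℕ} (g g' : E N) : 0 ≤ Zr g g' := by
  unfold Zr
  positivity

private theorem ZStep_W0 {N d L : ℕ} (y : boxS d L) (R : ℕ)
    (G : (boxS d L → E N) × (boxS d L → E N)) (z : boxS d L) : 0 ≤ ZStepW y R G z := by
  unfold ZStepW
  split_ifs
  · exact ZStep_Zr0 _ _
  · positivity

private theorem ZStep_D {N d L : ℕ} {k : ℝ} (hk : 0 < k) (hk1 : k < 1) {y : boxS d L} {R : ℕ}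
    {G : (boxS d L → E N) × (boxS d L → E N)} (hG : RegG k y R G) (z : boxS d L) :
    ‖G.1 z - G.2 z‖ ^ 2 ≤ ((k ^ (1 / 16 : ℝ)) ^ 2)⁻¹ * ZStepW y R G z := by
  have hm : 0 < k ^ (1 / 16 : ℝ) := Real.rpow_pos_of_pos hk _
  have hm1 : k ^ (1 / 16 : ℝ) ≤ 1 := Real.rpow_le_one hk.le hk1.le (by norm_num)
  have hneg : k ^ (-(1 / 16) : ℝ) = (k ^ (1 / 16 : ℝ))⁻¹ := Real.rpow_neg hk.le _
  set m := k ^ (1 / 16 : ℝ) with hmd
  unfold ZStepW
  split_ifs with hz
  · obtain ⟨h1, h2⟩ := hG.1 z hz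
    obtain ⟨h3, h4⟩ := hG.2 z (by omega)
    have hk4 : 0 < k ^ (1 / 4 : ℝ) := Real.rpow_pos_of_pos hk _
    rw [hneg] at h3 h4
    have p1 : 0 < ‖G.1 z‖ := hk4.trans_le h1
    have p2 : 0 < ‖G.2 z‖ := hk4.trans_le h2
    have h5 : ‖G.1 z‖ * ‖G.2 z‖ ≤ (m ^ 2)⁻¹ := by
      calc ‖G.1 z‖ * ‖G.2 z‖ ≤ m⁻¹ * m⁻¹ := mul_le_mul h3 h4 p2.le (by positivity)
        _ = (m ^ 2)⁻¹ := by rw [sq, mul_inv]
    have h6 : ‖G.1 z - G.2 z‖ ^ 2 = (‖G.1 z‖ * ‖G.2 z‖) * Zr (G.1 z) (G.2 z) := by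
      unfold Zr
      field_simp
    rw [h6]
    exact mul_le_mul_of_nonneg_right h5 (ZStep_Zr0 _ _)
  · have h1 : 1 ≤ (m ^ 2)⁻¹ := by
      rw [one_le_inv₀ (by positivity)]
      exact pow_le_one₀ hm.le hm1
    have h2 : 0 ≤ ‖G.1 z - G.2 z‖ ^ 2 := by positivity
    nlinarith

/-- sum over the neighbours and the point itself -/
private noncomputable def ZStepS {d L : ℕ} (f : boxS d L → ℝ) (x : boxS d L) : ℝ :=
  ∑ z ∈ (boxNet d L).nb x, f z + 2 * d * f x

private theorem ZStep_S0 {d L : ℕ} {f : boxS d L → ℝ} (hf : ∀ z, 0 ≤ f z) (x : boxS d L) :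
    0 ≤ ZStepS f x := by
  unfold ZStepS
  have h1 : 0 ≤ ∑ z ∈ (boxNet d L).nb x, f z := Finset.sum_nonneg fun z _ => hf z
  have h2 : 0 ≤ 2 * (d : ℝ) * f x := mul_nonneg (by positivity) (hf x)
  linarith

private theorem ZStep_Smono {d L : ℕ} {f g : boxS d L → ℝ} {c : ℝ} {x : boxS d L}
    (hfg : ∀ z, (boxNet d L).dist x z ≤ 1 → f z ≤ c * g z) :
    ZStepS f x ≤ c * ZStepS g x := by
  unfold ZStepS
  rw [mul_add, Finset.mul_sum]
  have h1 : ∑ z ∈ (boxNet d L).nb x, f z ≤ ∑ z ∈ (boxNet d L).nb x, c * g z :=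
    Finset.sum_le_sum fun z hz => hfg z ((boxNet d L).dist_nb x z hz).le
  have h2 := hfg x (by rw [(boxNet d L).dist_self]; omega)
  have h3 : 2 * (d : ℝ) * f x ≤ 2 * d * (c * g x) :=
    mul_le_mul_of_nonneg_left h2 (by positivity)
  linarith

private theorem ZStep_Ssum {d L : ℕ} {f : boxS d L → ℝ} (hf : ∀ z, 0 ≤ f z) :
    ∑ x, ZStepS f x ≤ 4 * d * ∑ x, f x := by
  unfold ZStepS
  rw [Finset.sum_add_distrib, ← Finset.mul_sum]
  have h1 : ∑ x : boxS d L, ∑ z ∈ (boxNet d L).nb x, f z =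
      ∑ z : boxS d L, ∑ x ∈ (boxNet d L).nb z, f z := by
    refine Finset.sum_comm' fun x z => ?_
    constructor
    · intro hx
      exact ⟨(boxNet d L).nb_symm x z hx.2, Finset.mem_univ _⟩
    · intro hx
      exact ⟨Finset.mem_univ _, (boxNet d L).nb_symm z x hx.1⟩
  rw [h1]
  have h2 : ∑ z : boxS d L, ∑ x ∈ (boxNet d L).nb z, f z ≤ ∑ z : boxS d L, 2 * d * f z := by
    refine Finset.sum_le_sum fun z _ => ?_
    rw [Finset.sum_const, nsmul_eq_mul]
    have h3 : (((boxNet d L).nb z).card : ℝ) ≤ 2 * d := by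
      have := (boxNet d L).nb_card z
      exact_mod_cast this
    exact mul_le_mul_of_nonneg_right h3 (hf z)
  rw [← Finset.mul_sum] at h2
  linarith

/-- coupling of the differences in terms of the weights -/
private theorem ZStep_cpl {N d L : ℕ} {k : ℝ} (hk : 0 < k) (hk1 : k < 1) {y : boxS d L} {R : ℕ}
    {G : (boxS d L → E N) × (boxS d L → E N)} (hG : RegG k y R G) (x : boxS d L) :
    (cpl (boxNet d L) (dif G.1 G.2) x) ^ 2 ≤
      4 * d * (((k ^ (1 / 16 : ℝ)) ^ 2)⁻¹ * ZStepS (ZStepW y R G) x) := by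
  refine (cpl_sq (boxNet d L) (dif G.1 G.2) x).trans ?_
  refine mul_le_mul_of_nonneg_left ?_ (by positivity)
  have h1 : ∀ z, (boxNet d L).dist x z ≤ 1 → (fun z => dif G.1 G.2 z ^ 2) z ≤
      ((k ^ (1 / 16 : ℝ)) ^ 2)⁻¹ * ZStepW y R G z := fun z _ => ZStep_D hk hk1 hG z
  exact ZStep_Smono h1

/-- weights -/
private theorem ZStep_exp {N d L : ℕ} {k h c β C' : ℝ} (hk : 0 < k) (hk1 : k < 1) (hh : 0 < h)
    (hh1 : h < 1 / 1000) (hc0 : 0 < c) (hc : c ≤ 1) (hC' : 0 < C') (y : boxS d L) (R : ℕ)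
    (G : (boxS d L → E N) × (boxS d L → E N)) (σ : boxS d L → ℝ) (x z : boxS d L)
    (hz : (boxNet d L).dist x z ≤ 1) :
    Real.exp (upd (boxNet d L) (ell k) h (chi c β C' y R G) σ x) ≤
      2 * ((k ^ (1 / 16 : ℝ)) ^ 8)⁻¹ * Real.exp (σ z) := by
  have h1 := upd_le (boxNet d L) (ell k) h (chi c β C' y R G) σ x z
  have h2 : chi c β C' y R G z ≤ 1 := by
    unfold chi
    split_ifs
    · have h3 : min 1 (mn G z ^ β) ≤ 1 := min_le_left _ _
      nlinarith
    · linarith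
  have h3 : h * chi c β C' y R G z ≤ 1 / 1000 := by nlinarith
  have hl : 0 ≤ ell k := by
    unfold ell
    exact Real.log_nonneg (by rw [le_div_iff₀ hk]; linarith)
  have h4 : ((boxNet d L).dist x z : ℝ) * (ell k / 2) ≤ ell k / 2 := by
    have : ((boxNet d L).dist x z : ℝ) ≤ 1 := by exact_mod_cast hz
    nlinarith
  have h5 : Real.exp (ell k / 2) = ((k ^ (1 / 16 : ℝ)) ^ 8)⁻¹ := by
    unfold ell
    rw [← Real.rpow_natCast, ← Real.rpow_mul hk.le, ← Real.rpow_neg hk.le,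
      Real.rpow_def_of_pos hk, one_div, Real.log_inv]
    congr 1
    norm_num
    ring
  have h6 : Real.exp (1 / 1000 : ℝ) ≤ 2 := by
    have := Real.exp_bound_div_one_sub_of_interval (by norm_num : (0 : ℝ) ≤ 1 / 1000)
      (by norm_num : (1 / 1000 : ℝ) < 1)
    refine this.trans (by norm_num)
  calc Real.exp (upd (boxNet d L) (ell k) h (chi c β C' y R G) σ x)
      ≤ Real.exp (1 / 1000 + ell k / 2 + σ z) := Real.exp_le_exp.2 (by linarith)
    _ = Real.exp (1 / 1000) * ((k ^ (1 / 16 : ℝ)) ^ 8)⁻¹ * Real.exp (σ z) := by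
        rw [Real.exp_add, Real.exp_add, h5]
    _ ≤ 2 * ((k ^ (1 / 16 : ℝ)) ^ 8)⁻¹ * Real.exp (σ z) := by
        have : 0 < k ^ (1 / 16 : ℝ) := Real.rpow_pos_of_pos hk _
        gcongr

private theorem ZStep_expS {N d L : ℕ} {k h c β C' : ℝ} (hk : 0 < k) (hk1 : k < 1) (hh : 0 < h)
    (hh1 : h < 1 / 1000) (hc0 : 0 < c) (hc : c ≤ 1) (hC' : 0 < C') (y : boxS d L) (R : ℕ)
    (G : (boxS d L → E N) × (boxS d L → E N)) (σ : boxS d L → ℝ) (x : boxS d L) :
    Real.exp (upd (boxNet d L) (ell k) h (chi c β C' y R G) σ x) * ZStepS (ZStepW y R G) x ≤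
      2 * ((k ^ (1 / 16 : ℝ)) ^ 8)⁻¹ *
        ZStepS (fun z => Real.exp (σ z) * ZStepW y R G z) x := by
  have e1 : Real.exp (upd (boxNet d L) (ell k) h (chi c β C' y R G) σ x) *
      ZStepS (ZStepW y R G) x = ZStepS (fun z =>
        Real.exp (upd (boxNet d L) (ell k) h (chi c β C' y R G) σ x) * ZStepW y R G z) x := by
    unfold ZStepS
    rw [mul_add, Finset.mul_sum]
    ring
  rw [e1]
  refine ZStep_Smono fun z hz => ?_
  rw [← mul_assoc]
  exact mul_le_mul_of_nonneg_right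
    (ZStep_exp hk hk1 hh hh1 hc0 hc hC' y R G σ x z hz) (ZStep_W0 y R G z)

private theorem ZStep_mst {N d L : ℕ} (hN : 3 ≤ N) (β k h : ℝ)
    (G : (boxS d L → E N) × (boxS d L → E N)) :
    Measurable fun ω : boxS d L → E N => st3 hN β k h L G ω := by
  have h1 : Measurable fun ω : boxS d L → E N => (G, ω) := measurable_const.prodMk measurable_id
  have h2 := (measurable_st3 (d := d) hN β k h L).comp h1
  exact h2

private theorem ZStep_hatc {N : ℕ} {β h : ℝ} (hβ : 0 < β) (hh : 0 ≤ h) (g : E N)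
    (Q : E N ≃ₗᵢ[ℝ] E N) : Continuous fun ζ : E N => hat β h g (Q ζ) := by
  have h1 : Continuous fun ζ : E N => (g, Q ζ) := continuous_const.prodMk Q.continuous
  have h2 := (hat_continuous (N := N) hβ hh).comp h1
  exact h2

private theorem ZStep_Zrm {N : ℕ} {X : Type} [MeasurableSpace X] {u v : X → E N}
    (hu : Measurable u) (hv : Measurable v) : Measurable fun x => Zr (u x) (v x) := by
  unfold Zr
  exact ((hu.sub hv).norm.pow_const 2).div (hu.norm.mul hv.norm)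

private theorem ZStep_mψ {N : ℕ} (hN : 3 ≤ N) {β h : ℝ} (hβ : 0 < β) (hh : 0 ≤ h) (g g' : E N) :
    Measurable fun ζ : E N =>
      Zr (hat β h g (fr1 hN g ζ)) (hat β h g' (fr2 hN g g' ζ)) := by
  have h1 := (ZStep_hatc hβ hh g (fr1 hN g)).measurable
  have h2 := (ZStep_hatc hβ hh g' (fr2 hN g g')).measurable
  exact ZStep_Zrm h1 h2

/-- a site inside the ball -/
private theorem ZStep_in {N d : ℕ} (hN : 3 ≤ N) {β k h c C' : ℝ} (hβ : 0 < β) (hk : 0 < k)
    (hk1 : k < 1) (hkd : 16 * d * (k ^ (1 / 16 : ℝ)) ^ 3 ≤ 1) (hh : 0 < h) (hh1 : h < 1 / 1000)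
    (hc0 : 0 < c) (hc : c ≤ 1) (hC' : 0 < C')
    (hz : ∀ g g' : E N, g ≠ 0 → g' ≠ 0 → h * ‖g‖ ^ β ≤ 1 → h * ‖g'‖ ^ β ≤ 1 →
      ∫⁻ ζ in gdE hN h, ENNReal.ofReal (Zr (hat β h g (fr1 hN g ζ)) (hat β h g' (fr2 hN g g' ζ)))
          ∂(stdGaussian (E N)) ≤
        ENNReal.ofReal ((1 - c * h * min 1 ((min ‖g‖ ‖g'‖) ^ β)) * Zr g g'))
    (hhk : h * (k ^ (-(1 / 16) : ℝ)) ^ β ≤ 1) (L : ℕ) (y : boxS d L) (R : ℕ)
    (G : (boxS d L → E N) × (boxS d L → E N)) (σ : boxS d L → ℝ) (hG : RegG k y R G)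
    (x : boxS d L) (hx : (boxNet d L).dist x y ≤ R) :
    ∫⁻ ω in {ω | ∀ x, ω x ∈ gdE hN h},
          ENNReal.ofReal (Real.exp (upd (boxNet d L) (ell k) h (chi c β C' y R G) σ x) *
            ZStepW y R (st3 hN β k h L G ω) x)
          ∂(Measure.pi fun _ : boxS d L => stdGaussian (E N)) ≤
      ENNReal.ofReal ((1 + 6 * (h * (k ^ (1 / 16 : ℝ)) ^ 8)) * (Real.exp (σ x) * ZStepW y R G x) +
        512 * d * h * (k ^ (1 / 16 : ℝ)) ^ 6 *
          ZStepS (fun z => Real.exp (σ z) * ZStepW y R G z) x) := by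
  have hm : 0 < k ^ (1 / 16 : ℝ) := Real.rpow_pos_of_pos hk _
  have hm1 : k ^ (1 / 16 : ℝ) ≤ 1 := Real.rpow_le_one hk.le hk1.le (by norm_num)
  have hneg : k ^ (-(1 / 16) : ℝ) = (k ^ (1 / 16 : ℝ))⁻¹ := Real.rpow_neg hk.le _
  have h4 : k ^ (1 / 4 : ℝ) = (k ^ (1 / 16 : ℝ)) ^ 4 := by
    rw [← Real.rpow_natCast, ← Real.rpow_mul hk.le]
    norm_num
  have h16 : k = (k ^ (1 / 16 : ℝ)) ^ 16 := by
    rw [← Real.rpow_natCast, ← Real.rpow_mul hk.le]
    norm_num
  have hSc := ZStep_cpl hk hk1 hG x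
  have hSe := ZStep_expS (β := β) hk hk1 hh hh1 hc0 hc hC' y R G σ x
  have hW0 : ∀ z, 0 ≤ ZStepW y R G z := ZStep_W0 y R G
  have hS0 := ZStep_S0 hW0 x
  obtain ⟨lo, up⟩ := hG
  obtain ⟨g1, g2⟩ := lo x hx
  obtain ⟨u1, u2⟩ := up x (by omega)
  have hx1 := upd_le (boxNet d L) (ell k) h (chi c β C' y R G) σ x x
  rw [(boxNet d L).dist_self, Nat.cast_zero, zero_mul, add_zero] at hx1
  have hchi : chi c β C' y R G x = c * min 1 ((min ‖G.1 x‖ ‖G.2 x‖) ^ β) := by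
    unfold chi mn
    rw [if_pos hx]
  have hWx : ZStepW y R G x = Zr (G.1 x) (G.2 x) := by
    unfold ZStepW
    rw [if_pos hx]
  set S := ZStepS (ZStepW y R G) x with hSd
  set Sf := ZStepS (fun z => Real.exp (σ z) * ZStepW y R G z) x with hSf
  set e := Real.exp (upd (boxNet d L) (ell k) h (chi c β C' y R G) σ x) with he
  rw [hneg] at u1 u2 hhk
  rw [h4] at g1 g2
  have hup : ∀ z, (boxNet d L).dist x z ≤ 1 → ‖G.1 z‖ ≤ (k ^ (1 / 16 : ℝ))⁻¹ ∧
      ‖G.2 z‖ ≤ (k ^ (1 / 16 : ℝ))⁻¹ := by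
    intro z hz
    have h1 := (boxNet d L).dist_tri z x y
    rw [(boxNet d L).dist_comm z x] at h1
    have h2 := up z (by omega)
    rw [hneg] at h2
    exact h2
  set m := k ^ (1 / 16 : ℝ) with hmd
  have hm4 : 0 < m ^ 4 := by positivity
  have p1 : 0 < ‖G.1 x‖ := hm4.trans_le g1
  have p2 : 0 < ‖G.2 x‖ := hm4.trans_le g2
  have n1 : G.1 x ≠ 0 := norm_pos_iff.1 p1
  have n2 : G.2 x ≠ 0 := norm_pos_iff.1 p2
  have s1 : h * ‖G.1 x‖ ^ β ≤ 1 :=
    (mul_le_mul_of_nonneg_left (Real.rpow_le_rpow p1.le u1 hβ.le) hh.le).trans hhk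
  have s2 : h * ‖G.2 x‖ ^ β ≤ 1 :=
    (mul_le_mul_of_nonneg_left (Real.rpow_le_rpow p2.le u2 hβ.le) hh.le).trans hhk
  have hI := hz (G.1 x) (G.2 x) n1 n2 s1 s2
  have hη : 0 < h * m ^ 8 := by positivity
  have hm8 : m ^ 8 ≤ 1 := pow_le_one₀ hm.le hm1
  have hη1 : h * m ^ 8 ≤ 1 / 10 := by nlinarith
  have hchi0 : 0 ≤ chi c β C' y R G x := by
    rw [hchi]
    have : 0 ≤ (min ‖G.1 x‖ ‖G.2 x‖) ^ β := Real.rpow_nonneg (le_min p1.le p2.le) _
    have : 0 ≤ min 1 ((min ‖G.1 x‖ ‖G.2 x‖) ^ β) := le_min zero_le_one this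
    positivity
  have hchi1 : chi c β C' y R G x ≤ 1 := by
    rw [hchi]
    have : min 1 ((min ‖G.1 x‖ ‖G.2 x‖) ^ β) ≤ 1 := min_le_left _ _
    nlinarith
  have hv : 0 ≤ (1 - h * chi c β C' y R G x) * Zr (G.1 x) (G.2 x) := by
    have h1 : 0 ≤ 1 - h * chi c β C' y R G x := by nlinarith
    exact mul_nonneg h1 (ZStep_Zr0 _ _)
  have hfrac : 1 - c * h * min 1 ((min ‖G.1 x‖ ‖G.2 x‖) ^ β) = 1 - h * chi c β C' y R G x := by
    rw [hchi]
    ring
  rw [hfrac] at hI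
  have he0 : 0 < e := Real.exp_pos _
  have hmψ : Measurable fun ζ : E N =>
      Zr (hat β h (G.1 x) (fr1 hN (G.1 x) ζ)) (hat β h (G.2 x) (fr2 hN (G.1 x) (G.2 x) ζ)) :=
    ZStep_mψ hN hβ hh.le (G.1 x) (G.2 x)
  have key : ∀ ω : boxS d L → E N, (∀ x, ω x ∈ gdE hN h) →
      e * ZStepW y R (st3 hN β k h L G ω) x ≤
        e * (1 + 6 * (h * m ^ 8)) * Zr (hat β h (G.1 x) (fr1 hN (G.1 x) (ω x)))
          (hat β h (G.2 x) (fr2 hN (G.1 x) (G.2 x) (ω x))) + e * (256 * d * h * m ^ 14 * S) := by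
    intro ω hω
    obtain ⟨l1, l2⟩ := hat_low hN hβ hh hh1 n1 n2 s1 s2 (hω x)
    set H := hat β h (G.1 x) (fr1 hN (G.1 x) (ω x)) with hHd
    set H' := hat β h (G.2 x) (fr2 hN (G.1 x) (G.2 x) (ω x)) with hHd'
    have e1 : (st3 hN β k h L G ω).1 x = H + (k * h) • coupV (boxNet d L) G.1 x := rfl
    have e2 : (st3 hN β k h L G ω).2 x = H' + (k * h) • coupV (boxNet d L) G.2 x := rfl
    have c1 : ‖(k * h) • coupV (boxNet d L) G.1 x‖ ≤ h * m ^ 8 * (m ^ 4 / 4) := by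
      rw [norm_smul, Real.norm_of_nonneg (by positivity)]
      have := ZStep_coup_le G.1 x (M := m⁻¹) (fun z hz => (hup z hz).1)
      calc k * h * ‖coupV (boxNet d L) G.1 x‖ ≤ k * h * (4 * d * m⁻¹) :=
            mul_le_mul_of_nonneg_left this (by positivity)
        _ = h * (16 * d * m ^ 3) * m ^ 12 / 4 := by
            rw [h16]
            field_simp
            ring
        _ ≤ h * 1 * m ^ 12 / 4 := by gcongr
        _ = h * m ^ 8 * (m ^ 4 / 4) := by ring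
    have c2 : ‖(k * h) • coupV (boxNet d L) G.2 x‖ ≤ h * m ^ 8 * (m ^ 4 / 4) := by
      rw [norm_smul, Real.norm_of_nonneg (by positivity)]
      have := ZStep_coup_le G.2 x (M := m⁻¹) (fun z hz => (hup z hz).2)
      calc k * h * ‖coupV (boxNet d L) G.2 x‖ ≤ k * h * (4 * d * m⁻¹) :=
            mul_le_mul_of_nonneg_left this (by positivity)
        _ = h * (16 * d * m ^ 3) * m ^ 12 / 4 := by
            rw [h16]
            field_simp
            ring
        _ ≤ h * 1 * m ^ 12 / 4 := by gcongr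
        _ = h * m ^ 8 * (m ^ 4 / 4) := by ring
    have r1 : ‖H‖ * (1 - h * m ^ 8) ≤ ‖(st3 hN β k h L G ω).1 x‖ := by
      rw [e1]
      have h1 := norm_sub_le (H + (k * h) • coupV (boxNet d L) G.1 x)
        ((k * h) • coupV (boxNet d L) G.1 x)
      rw [add_sub_cancel_right] at h1
      have h2 : h * m ^ 8 * (m ^ 4 / 4) ≤ h * m ^ 8 * ‖H‖ :=
        mul_le_mul_of_nonneg_left (by linarith) hη.le
      linarith
    have r2 : ‖H'‖ * (1 - h * m ^ 8) ≤ ‖(st3 hN β k h L G ω).2 x‖ := by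
      rw [e2]
      have h1 := norm_sub_le (H' + (k * h) • coupV (boxNet d L) G.2 x)
        ((k * h) • coupV (boxNet d L) G.2 x)
      rw [add_sub_cancel_right] at h1
      have h2 : h * m ^ 8 * (m ^ 4 / 4) ≤ h * m ^ 8 * ‖H'‖ :=
        mul_le_mul_of_nonneg_left (by linarith) hη.le
      linarith
    have d1 : ‖(st3 hN β k h L G ω).1 x - (st3 hN β k h L G ω).2 x‖ ≤
        ‖H - H'‖ + k * h * cpl (boxNet d L) (dif G.1 G.2) x := by
      rw [e1, e2]
      have h1 : (H + (k * h) • coupV (boxNet d L) G.1 x) -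
          (H' + (k * h) • coupV (boxNet d L) G.2 x) = (H - H') +
          (k * h) • coupV (boxNet d L) (fun y => G.1 y - G.2 y) x := by
        rw [← ZStep_coup_sub, smul_sub]
        abel
      rw [h1]
      refine (norm_add_le _ _).trans (add_le_add le_rfl ?_)
      rw [norm_smul, Real.norm_of_nonneg (by positivity)]
      exact mul_le_mul_of_nonneg_left (ZStep_coup _ _ _) (by positivity)
    have d2 : ‖(st3 hN β k h L G ω).1 x - (st3 hN β k h L G ω).2 x‖ ^ 2 ≤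
        (1 + h * m ^ 8) * ‖H - H'‖ ^ 2 +
          2 * h * m ^ 24 * (cpl (boxNet d L) (dif G.1 G.2) x) ^ 2 := by
      refine (pow_le_pow_left₀ (norm_nonneg _) d1 2).trans ?_
      refine (ZStep_sq hη (by linarith)).trans (le_of_eq ?_)
      congr 1
      rw [h16]
      field_simp
    have hs0 : 0 ≤ 2 * h * m ^ 24 * (cpl (boxNet d L) (dif G.1 G.2) x) ^ 2 := by positivity
    have f1 := ZStep_alg hη hη1 p1 p2 l1 l2 r1 r2 hs0 d2
    have f2 : 32 * (2 * h * m ^ 24 * (cpl (boxNet d L) (dif G.1 G.2) x) ^ 2) /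
        (‖G.1 x‖ * ‖G.2 x‖) ≤ 256 * d * h * m ^ 14 * S := by
      rw [div_le_iff₀ (mul_pos p1 p2)]
      have h1 : m ^ 8 ≤ ‖G.1 x‖ * ‖G.2 x‖ := by
        calc m ^ 8 = m ^ 4 * m ^ 4 := by ring
          _ ≤ ‖G.1 x‖ * ‖G.2 x‖ := mul_le_mul g1 g2 hm4.le p1.le
      calc 32 * (2 * h * m ^ 24 * (cpl (boxNet d L) (dif G.1 G.2) x) ^ 2)
          ≤ 32 * (2 * h * m ^ 24 * (4 * d * ((m ^ 2)⁻¹ * S))) := by gcongr
        _ = 256 * d * h * m ^ 14 * S * m ^ 8 := by
            field_simp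
            ring
        _ ≤ 256 * d * h * m ^ 14 * S * (‖G.1 x‖ * ‖G.2 x‖) :=
            mul_le_mul_of_nonneg_left h1 (by positivity)
    have f3 : ZStepW y R (st3 hN β k h L G ω) x ≤ (1 + 6 * (h * m ^ 8)) * Zr H H' +
        256 * d * h * m ^ 14 * S := by
      unfold ZStepW
      rw [if_pos hx]
      unfold Zr
      linarith
    calc e * ZStepW y R (st3 hN β k h L G ω) x
        ≤ e * ((1 + 6 * (h * m ^ 8)) * Zr H H' + 256 * d * h * m ^ 14 * S) :=
          mul_le_mul_of_nonneg_left f3 he0.le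
      _ = _ := by ring
  have main := ZStep_int (L := L) hN h x hmψ (a := e * (1 + 6 * (h * m ^ 8)))
    (b := e * (256 * d * h * m ^ 14 * S)) (by positivity) (by positivity) hv
    (fun ζ => ZStep_Zr0 _ _) key hI
  refine main.trans (ENNReal.ofReal_le_ofReal ?_)
  have t1 : e * (1 - h * chi c β C' y R G x) ≤ Real.exp (σ x) := by
    have h1 : e ≤ Real.exp (σ x) * Real.exp (h * chi c β C' y R G x) := by
      rw [← Real.exp_add]
      exact Real.exp_le_exp.2 hx1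
    have h2 : 0 ≤ 1 - h * chi c β C' y R G x := by nlinarith
    have h3 : 1 - h * chi c β C' y R G x ≤ Real.exp (-(h * chi c β C' y R G x)) := by
      have := Real.add_one_le_exp (-(h * chi c β C' y R G x))
      linarith
    calc e * (1 - h * chi c β C' y R G x)
        ≤ Real.exp (σ x) * Real.exp (h * chi c β C' y R G x) *
          Real.exp (-(h * chi c β C' y R G x)) := mul_le_mul h1 h3 h2 (by positivity)
      _ = Real.exp (σ x) := by
          rw [mul_assoc, ← Real.exp_add, add_neg_cancel, Real.exp_zero, mul_one]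
  have t2 : e * (1 + 6 * (h * m ^ 8)) * ((1 - h * chi c β C' y R G x) * Zr (G.1 x) (G.2 x)) ≤
      (1 + 6 * (h * m ^ 8)) * (Real.exp (σ x) * ZStepW y R G x) := by
    rw [hWx]
    calc e * (1 + 6 * (h * m ^ 8)) * ((1 - h * chi c β C' y R G x) * Zr (G.1 x) (G.2 x))
        = (1 + 6 * (h * m ^ 8)) * ((e * (1 - h * chi c β C' y R G x)) * Zr (G.1 x) (G.2 x)) := by
          ring
      _ ≤ _ := mul_le_mul_of_nonneg_left (mul_le_mul_of_nonneg_right t1 (ZStep_Zr0 _ _))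
          (by positivity)
  have t3 : e * (256 * d * h * m ^ 14 * S) ≤ 512 * d * h * m ^ 6 * Sf := by
    calc e * (256 * d * h * m ^ 14 * S) = 256 * d * h * m ^ 14 * (e * S) := by ring
      _ ≤ 256 * d * h * m ^ 14 * (2 * (m ^ 8)⁻¹ * Sf) :=
          mul_le_mul_of_nonneg_left hSe (by positivity)
      _ = 512 * d * h * m ^ 6 * Sf := by
          field_simp
          ring
  linarith

/-- a site outside the ball -/
private theorem ZStep_out {N d : ℕ} (hN : 3 ≤ N) {β k h c : ℝ} (hβ : 0 < β) (hk : 0 < k)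
    (hk1 : k < 1) (hk2 : (k ^ (1 / 16 : ℝ)) ^ 8 ≤ 1 / 2) (hh : 0 < h) (hh1 : h < 1 / 1000)
    (hc0 : 0 < c) (hc : c ≤ 1) (hNh : (N + 1) * h ≤ 1)
    (hz : ∫⁻ a in gdE hN h, ENNReal.ofReal (Real.exp (2 * bE hN h a)) ∂(stdGaussian (E N)) ≤
      ENNReal.ofReal (1 + (N + 1) * h)) (L : ℕ) (y : boxS d L) (R : ℕ)
    (G : (boxS d L → E N) × (boxS d L → E N)) (σ : boxS d L → ℝ) (hG : RegG k y R G)
    (x : boxS d L) (hx : ¬ (boxNet d L).dist x y ≤ R) :
    ∫⁻ ω in {ω | ∀ x, ω x ∈ gdE hN h},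
          ENNReal.ofReal (Real.exp (upd (boxNet d L) (ell k) h (chi c β (N + 2) y R G) σ x) *
            ZStepW y R (st3 hN β k h L G ω) x)
          ∂(Measure.pi fun _ : boxS d L => stdGaussian (E N)) ≤
      ENNReal.ofReal ((1 + 6 * (h * (k ^ (1 / 16 : ℝ)) ^ 8)) * (Real.exp (σ x) * ZStepW y R G x) +
        512 * d * h * (k ^ (1 / 16 : ℝ)) ^ 6 *
          ZStepS (fun z => Real.exp (σ z) * ZStepW y R G z) x) := by
  have hm : 0 < k ^ (1 / 16 : ℝ) := Real.rpow_pos_of_pos hk _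
  have hm1 : k ^ (1 / 16 : ℝ) ≤ 1 := Real.rpow_le_one hk.le hk1.le (by norm_num)
  have h16 : k = (k ^ (1 / 16 : ℝ)) ^ 16 := by
    rw [← Real.rpow_natCast, ← Real.rpow_mul hk.le]
    norm_num
  have hC' : (0 : ℝ) < N + 2 := by positivity
  have hSc := ZStep_cpl hk hk1 hG x
  have hSe := ZStep_expS (β := β) hk hk1 hh hh1 hc0 hc hC' y R G σ x
  have hW0 : ∀ z, 0 ≤ ZStepW y R G z := ZStep_W0 y R G
  have hS0 := ZStep_S0 hW0 x
  have hSf0 := ZStep_S0 (f := fun z => Real.exp (σ z) * ZStepW y R G z)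
    (fun z => mul_nonneg (Real.exp_pos _).le (hW0 z)) x
  have hx1 := upd_le (boxNet d L) (ell k) h (chi c β (N + 2) y R G) σ x x
  rw [(boxNet d L).dist_self, Nat.cast_zero, zero_mul, add_zero] at hx1
  have hchi : chi c β (N + 2) y R G x = -(N + 2 : ℝ) := by
    unfold chi
    rw [if_neg hx]
  rw [hchi] at hx1
  have hWx : ZStepW y R G x = ‖G.1 x - G.2 x‖ ^ 2 := by
    unfold ZStepW
    rw [if_neg hx]
  set S := ZStepS (ZStepW y R G) x with hSd
  set Sf := ZStepS (fun z => Real.exp (σ z) * ZStepW y R G z) x with hSf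
  set e := Real.exp (upd (boxNet d L) (ell k) h (chi c β (N + 2) y R G) σ x) with he
  set m := k ^ (1 / 16 : ℝ) with hmd
  have hη : 0 < h * m ^ 8 := by positivity
  have hη1 : h * m ^ 8 ≤ 1 / 10 := by nlinarith
  have he0 : 0 < e := Real.exp_pos _
  have hmψ : Measurable fun ζ : E N => Real.exp (2 * bE hN h ζ) :=
    Real.measurable_exp.comp ((measurable_bE hN h).const_mul 2)
  set D := ‖G.1 x - G.2 x‖ with hDd
  have key : ∀ ω : boxS d L → E N, (∀ x, ω x ∈ gdE hN h) →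
      e * ZStepW y R (st3 hN β k h L G ω) x ≤
        e * (1 + h * m ^ 8) * D ^ 2 * Real.exp (2 * bE hN h (ω x)) +
          e * (8 * d * h * m ^ 22 * S) := by
    intro ω hω
    have d1 : ‖(st3 hN β k h L G ω).1 x - (st3 hN β k h L G ω).2 x‖ ≤
        Real.exp (bE hN h (ω x)) * D + k * h * cpl (boxNet d L) (dif G.1 G.2) x := by
      have h1 := (PS3 N d hN β k hβ hk.le).dd h L G ω hh
      have h2 := h1.up x
      exact h2
    have d2 : ‖(st3 hN β k h L G ω).1 x - (st3 hN β k h L G ω).2 x‖ ^ 2 ≤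
        (1 + h * m ^ 8) * (Real.exp (bE hN h (ω x)) * D) ^ 2 +
          2 * h * m ^ 24 * (cpl (boxNet d L) (dif G.1 G.2) x) ^ 2 := by
      refine (pow_le_pow_left₀ (norm_nonneg _) d1 2).trans ?_
      refine (ZStep_sq hη (by linarith)).trans (le_of_eq ?_)
      congr 1
      rw [h16]
      field_simp
    have f2 : 2 * h * m ^ 24 * (cpl (boxNet d L) (dif G.1 G.2) x) ^ 2 ≤
        8 * d * h * m ^ 22 * S := by
      calc 2 * h * m ^ 24 * (cpl (boxNet d L) (dif G.1 G.2) x) ^ 2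
          ≤ 2 * h * m ^ 24 * (4 * d * ((m ^ 2)⁻¹ * S)) := by gcongr
        _ = 8 * d * h * m ^ 22 * S := by
            field_simp
            ring
    have f3 : ZStepW y R (st3 hN β k h L G ω) x ≤
        (1 + h * m ^ 8) * D ^ 2 * Real.exp (2 * bE hN h (ω x)) + 8 * d * h * m ^ 22 * S := by
      unfold ZStepW
      rw [if_neg hx]
      have h3 : Real.exp (2 * bE hN h (ω x)) = Real.exp (bE hN h (ω x)) ^ 2 := by
        rw [two_mul, Real.exp_add, sq]
      rw [h3]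
      have h4 : (1 + h * m ^ 8) * (Real.exp (bE hN h (ω x)) * D) ^ 2 =
          (1 + h * m ^ 8) * D ^ 2 * Real.exp (bE hN h (ω x)) ^ 2 := by ring
      linarith
    calc e * ZStepW y R (st3 hN β k h L G ω) x
        ≤ e * ((1 + h * m ^ 8) * D ^ 2 * Real.exp (2 * bE hN h (ω x)) +
          8 * d * h * m ^ 22 * S) := mul_le_mul_of_nonneg_left f3 he0.le
      _ = _ := by ring
  have main := ZStep_int (L := L) hN h x hmψ (a := e * (1 + h * m ^ 8) * D ^ 2)
    (b := e * (8 * d * h * m ^ 22 * S)) (v := 1 + (N + 1) * h) (by positivity) (by positivity)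
    (by positivity) (fun ζ => (Real.exp_pos _).le) key hz
  refine main.trans (ENNReal.ofReal_le_ofReal ?_)
  have t1 : e * ((1 + h * m ^ 8) * (1 + (N + 1) * h)) ≤ Real.exp (σ x) := by
    have h1 : e ≤ Real.exp (σ x) * Real.exp (-((N + 2) * h)) := by
      rw [← Real.exp_add]
      exact Real.exp_le_exp.2 (by linarith)
    have h2 : (1 + h * m ^ 8) * (1 + (N + 1) * h) ≤ Real.exp ((N + 2) * h) := by
      have h3 := Real.add_one_le_exp ((N + 2 : ℝ) * h)
      have h4 : m ^ 8 * (1 + (N + 1) * h) ≤ 1 := by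
        calc m ^ 8 * (1 + (N + 1) * h) ≤ 1 / 2 * (1 + 1) := by gcongr
          _ = 1 := by norm_num
      have h5 : h * (m ^ 8 * (1 + (N + 1) * h)) ≤ h * 1 := mul_le_mul_of_nonneg_left h4 hh.le
      linarith
    calc e * ((1 + h * m ^ 8) * (1 + (N + 1) * h))
        ≤ (Real.exp (σ x) * Real.exp (-((N + 2) * h))) * Real.exp ((N + 2) * h) :=
          mul_le_mul h1 h2 (by positivity) (by positivity)
      _ = Real.exp (σ x) := by
          rw [mul_assoc, ← Real.exp_add, neg_add_cancel, Real.exp_zero, mul_one]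
  have t2 : e * (1 + h * m ^ 8) * D ^ 2 * (1 + (N + 1) * h) ≤
      (1 + 6 * (h * m ^ 8)) * (Real.exp (σ x) * ZStepW y R G x) := by
    rw [hWx]
    calc e * (1 + h * m ^ 8) * D ^ 2 * (1 + (N + 1) * h)
        = (e * ((1 + h * m ^ 8) * (1 + (N + 1) * h))) * D ^ 2 := by ring
      _ ≤ Real.exp (σ x) * D ^ 2 := mul_le_mul_of_nonneg_right t1 (by positivity)
      _ ≤ (1 + 6 * (h * m ^ 8)) * (Real.exp (σ x) * D ^ 2) := by
          have h1 : 0 ≤ Real.exp (σ x) * D ^ 2 := by positivity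
          nlinarith
  have t3 : e * (8 * d * h * m ^ 22 * S) ≤ 512 * d * h * m ^ 6 * Sf := by
    calc e * (8 * d * h * m ^ 22 * S) = 8 * d * h * m ^ 22 * (e * S) := by ring
      _ ≤ 8 * d * h * m ^ 22 * (2 * (m ^ 8)⁻¹ * Sf) :=
          mul_le_mul_of_nonneg_left hSe (by positivity)
      _ = (512 * d * h * m ^ 6 * Sf) * (m ^ 8 / 32) := by
          field_simp
          ring
      _ ≤ (512 * d * h * m ^ 6 * Sf) * 1 :=
          mul_le_mul_of_nonneg_left (by linarith) (by positivity)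
      _ = 512 * d * h * m ^ 6 * Sf := mul_one _
  linarith

theorem z_step (N d : ℕ) (hN : 3 ≤ N) (β : ℝ) (hβ : 0 < β) : ∃ c C' k0 : ℝ, 0 < c ∧ c ≤ 1 ∧
    0 < C' ∧ 0 < k0 ∧ k0 < 1 ∧ ∀ k, 0 < k → k < k0 → ∃ h0 : ℝ, 0 < h0 ∧ h0 ≤ 1 / 1000 ∧
    ∀ h, 0 < h → h < h0 → ∀ (L : ℕ) (y : boxS d L) (R : ℕ)
      (G : (boxS d L → E N) × (boxS d L → E N)) (σ : boxS d L → ℝ), RegG k y R G →
      ∫⁻ ω in {ω | ∀ x, ω x ∈ gdE hN h},
          ENNReal.ofReal (YW y R (upd (boxNet d L) (ell k) h (chi c β C' y R G) σ)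
            (st3 hN β k h L G ω)) ∂(Measure.pi fun _ : boxS d L => stdGaussian (E N)) ≤
        ENNReal.ofReal ((1 + k ^ (1 / 4 : ℝ) * h) * YW y R σ G) := by
  obtain ⟨c, h1, hc0, hc1, hh1, hh1', hz⟩ := z_hat hN β hβ
  obtain ⟨h2, hh2, hmgf⟩ := (bnoise3 hN).mgf 2 1 two_pos one_pos
  set m0 : ℝ := 1 / (2048 * ((d : ℝ) + 1) ^ 2) with hm0
  have hm0p : 0 < m0 := by positivity
  have hm01 : m0 ≤ 1 / 2048 := by
    rw [hm0]
    apply one_div_le_one_div_of_le (by norm_num)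
    have h3 : (0 : ℝ) ≤ d := Nat.cast_nonneg d
    nlinarith
  refine ⟨c, N + 2, m0 ^ 16, hc0, hc1, by positivity, by positivity, ?_, fun k hk hkk => ?_⟩
  · exact pow_lt_one₀ hm0p.le (by linarith) (by norm_num)
  have hk1 : k < 1 := hkk.trans (pow_lt_one₀ hm0p.le (by linarith) (by norm_num))
  have hm : 0 < k ^ (1 / 16 : ℝ) := Real.rpow_pos_of_pos hk _
  have hmlt : k ^ (1 / 16 : ℝ) < m0 := by
    have h3 := Real.rpow_lt_rpow hk.le hkk (by norm_num : (0 : ℝ) < 1 / 16)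
    refine h3.trans_le (le_of_eq ?_)
    rw [← Real.rpow_natCast, ← Real.rpow_mul hm0p.le]
    norm_num
  have h4 : k ^ (1 / 4 : ℝ) = (k ^ (1 / 16 : ℝ)) ^ 4 := by
    rw [← Real.rpow_natCast, ← Real.rpow_mul hk.le]
    norm_num
  have hp0 : 0 < (k ^ (-(1 / 16) : ℝ)) ^ β := Real.rpow_pos_of_pos (Real.rpow_pos_of_pos hk _) _
  refine ⟨min (min h1 (1 / 1000)) (min h2 (min (1 / ((N : ℝ) + 1))
    (1 / (k ^ (-(1 / 16) : ℝ)) ^ β))), ?_, ?_, ?_⟩
  · refine lt_min (lt_min hh1 (by norm_num)) (lt_min hh2 (lt_min (by positivity)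
      (by positivity)))
  · exact (min_le_left _ _).trans (min_le_right _ _)
  intro h hh hlt L y R G σ hG
  have a1 : h < h1 := hlt.trans_le ((min_le_left _ _).trans (min_le_left _ _))
  have a2 : h < 1 / 1000 := hlt.trans_le ((min_le_left _ _).trans (min_le_right _ _))
  have a3' := hlt.trans_le (min_le_right _ _)
  have a3 : h < h2 := a3'.trans_le (min_le_left _ _)
  have a4' := a3'.trans_le (min_le_right _ _)
  have a4 : h < 1 / ((N : ℝ) + 1) := a4'.trans_le (min_le_left _ _)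
  have a5 : h < 1 / (k ^ (-(1 / 16) : ℝ)) ^ β := a4'.trans_le (min_le_right _ _)
  have hNh : ((N : ℝ) + 1) * h ≤ 1 := by
    rw [lt_div_iff₀ (by positivity)] at a4
    linarith
  have hhk : h * (k ^ (-(1 / 16) : ℝ)) ^ β ≤ 1 := by
    rw [lt_div_iff₀ hp0] at a5
    exact a5.le
  have hzh := hz h hh a1
  have hbz : ∫⁻ a in gdE hN h, ENNReal.ofReal (Real.exp (2 * bE hN h a))
      ∂(stdGaussian (E N)) ≤ ENNReal.ofReal (1 + (N + 1) * h) := by
    have h5 := (hmgf h hh a3 2 (by norm_num)).1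
    refine h5.trans (le_of_eq ?_)
    unfold lamN
    congr 1
    ring
  rw [h4]
  set m := k ^ (1 / 16 : ℝ) with hmd
  have hd0 : (0 : ℝ) ≤ d := Nat.cast_nonneg d
  have hm1 : m ≤ 1 := by linarith
  have hmd1 : m * (2048 * ((d : ℝ) + 1) ^ 2) ≤ 1 := by
    rw [hm0, lt_div_iff₀ (by positivity)] at hmlt
    exact hmlt.le
  have hkd : 16 * d * m ^ 3 ≤ 1 := by
    have h5 : m ^ 3 ≤ m := by
      calc m ^ 3 = m * m ^ 2 := by ring
        _ ≤ m * 1 := mul_le_mul_of_nonneg_left (pow_le_one₀ hm.le hm1) hm.le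
        _ = m := mul_one m
    calc 16 * d * m ^ 3 ≤ 16 * d * m := mul_le_mul_of_nonneg_left h5 (by positivity)
      _ ≤ m * (2048 * ((d : ℝ) + 1) ^ 2) := by
          nlinarith [mul_nonneg hm.le hd0, mul_nonneg hm.le (mul_nonneg hd0 hd0)]
      _ ≤ 1 := hmd1
  have hk2 : m ^ 8 ≤ 1 / 2 := by
    calc m ^ 8 = m * m ^ 7 := by ring
      _ ≤ m * 1 := mul_le_mul_of_nonneg_left (pow_le_one₀ hm.le hm1) hm.le
      _ ≤ 1 / 2 := by linarith
  set σ' := upd (boxNet d L) (ell k) h (chi c β (N + 2) y R G) σ with hσ'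
  have hsite : ∀ x : boxS d L, ∫⁻ ω in {ω | ∀ x, ω x ∈ gdE hN h},
          ENNReal.ofReal (Real.exp (σ' x) * ZStepW y R (st3 hN β k h L G ω) x)
          ∂(Measure.pi fun _ : boxS d L => stdGaussian (E N)) ≤
      ENNReal.ofReal ((1 + 6 * (h * m ^ 8)) * (Real.exp (σ x) * ZStepW y R G x) +
        512 * d * h * m ^ 6 *
          ZStepS (fun z => Real.exp (σ z) * ZStepW y R G z) x) := by
    intro x
    by_cases hx : (boxNet d L).dist x y ≤ R
    · exact ZStep_in hN hβ hk hk1 hkd hh a2 hc0 hc1 (by positivity) hzh hhk L y R G σ hG x hx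
    · exact ZStep_out hN hβ hk hk1 hk2 hh a2 hc0 hc1 hNh hbz L y R G σ hG x hx
  have hW0 : ∀ z, 0 ≤ ZStepW y R G z := ZStep_W0 y R G
  have hf0 : ∀ z, 0 ≤ Real.exp (σ z) * ZStepW y R G z :=
    fun z => mul_nonneg (Real.exp_pos _).le (hW0 z)
  have hms : ∀ x : boxS d L, Measurable fun ω : boxS d L → E N =>
      ENNReal.ofReal (Real.exp (σ' x) * ZStepW y R (st3 hN β k h L G ω) x) := by
    intro x
    have m1 : Measurable fun ω : boxS d L → E N => (st3 hN β k h L G ω).1 x :=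
      (measurable_pi_apply x).comp (measurable_fst.comp (ZStep_mst hN β k h G))
    have m2 : Measurable fun ω : boxS d L → E N => (st3 hN β k h L G ω).2 x :=
      (measurable_pi_apply x).comp (measurable_snd.comp (ZStep_mst hN β k h G))
    have m3 : Measurable fun ω : boxS d L → E N => ZStepW y R (st3 hN β k h L G ω) x := by
      unfold ZStepW
      split_ifs
      · exact ZStep_Zrm m1 m2
      · exact (m1.sub m2).norm.pow_const 2
    exact (m3.const_mul _).ennreal_ofReal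
  have eY : ∀ ω : boxS d L → E N, ENNReal.ofReal (YW y R σ' (st3 hN β k h L G ω)) =
      ∑ x, ENNReal.ofReal (Real.exp (σ' x) * ZStepW y R (st3 hN β k h L G ω) x) := by
    intro ω
    rw [← ENNReal.ofReal_sum_of_nonneg fun x _ =>
      mul_nonneg (Real.exp_pos _).le (ZStep_W0 y R _ x)]
    rfl
  calc ∫⁻ ω in {ω | ∀ x, ω x ∈ gdE hN h}, ENNReal.ofReal (YW y R σ' (st3 hN β k h L G ω))
        ∂(Measure.pi fun _ : boxS d L => stdGaussian (E N))
      = ∑ x, ∫⁻ ω in {ω | ∀ x, ω x ∈ gdE hN h},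
          ENNReal.ofReal (Real.exp (σ' x) * ZStepW y R (st3 hN β k h L G ω) x)
          ∂(Measure.pi fun _ : boxS d L => stdGaussian (E N)) := by
        simp only [eY]
        rw [lintegral_finsetSum _ fun x _ => hms x]
    _ ≤ ∑ x, ENNReal.ofReal ((1 + 6 * (h * m ^ 8)) * (Real.exp (σ x) * ZStepW y R G x) +
        512 * d * h * m ^ 6 *
          ZStepS (fun z => Real.exp (σ z) * ZStepW y R G z) x) :=
        Finset.sum_le_sum fun x _ => hsite x
    _ = ENNReal.ofReal (∑ x, ((1 + 6 * (h * m ^ 8)) * (Real.exp (σ x) * ZStepW y R G x) +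
        512 * d * h * m ^ 6 *
          ZStepS (fun z => Real.exp (σ z) * ZStepW y R G z) x)) := by
        rw [ENNReal.ofReal_sum_of_nonneg]
        intro x _
        have h5 := hf0 x
        have h6 := ZStep_S0 hf0 x
        positivity
    _ ≤ ENNReal.ofReal ((1 + m ^ 4 * h) * YW y R σ G) := by
        refine ENNReal.ofReal_le_ofReal ?_
        rw [Finset.sum_add_distrib, ← Finset.mul_sum, ← Finset.mul_sum]
        have h5 := ZStep_Ssum hf0
        have h6 : ∑ x, Real.exp (σ x) * ZStepW y R G x = YW y R σ G := rfl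
        have h7 : 0 ≤ YW y R σ G := by
          rw [← h6]
          exact Finset.sum_nonneg fun x _ => hf0 x
        rw [h6] at h5 ⊢
        have h8 : 512 * d * h * m ^ 6 *
            ∑ x, ZStepS (fun z => Real.exp (σ z) * ZStepW y R G z) x ≤
            512 * d * h * m ^ 6 * (4 * d * YW y R σ G) :=
          mul_le_mul_of_nonneg_left h5 (by positivity)
        have h9 : 6 * m ^ 8 + 2048 * (d : ℝ) ^ 2 * m ^ 6 ≤ m ^ 4 := by
          have b1 : m ^ 4 ≤ m := by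
            calc m ^ 4 = m * m ^ 3 := by ring
              _ ≤ m * 1 := mul_le_mul_of_nonneg_left (pow_le_one₀ hm.le hm1) hm.le
              _ = m := mul_one m
          have b2 : m ^ 2 ≤ m := by
            calc m ^ 2 = m * m := by ring
              _ ≤ m * 1 := mul_le_mul_of_nonneg_left hm1 hm.le
              _ = m := mul_one m
          have b3 : 6 * m ^ 4 + 2048 * (d : ℝ) ^ 2 * m ^ 2 ≤ 1 := by
            have b4 : 2048 * (d : ℝ) ^ 2 * m ^ 2 ≤ 2048 * (d : ℝ) ^ 2 * m :=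
              mul_le_mul_of_nonneg_left b2 (by positivity)
            nlinarith [mul_nonneg hm.le hd0]
          calc 6 * m ^ 8 + 2048 * (d : ℝ) ^ 2 * m ^ 6 =
              m ^ 4 * (6 * m ^ 4 + 2048 * (d : ℝ) ^ 2 * m ^ 2) := by ring
            _ ≤ m ^ 4 * 1 := mul_le_mul_of_nonneg_left b3 (by positivity)
            _ = m ^ 4 := mul_one _
        have h10 : h * (6 * m ^ 8 + 2048 * (d : ℝ) ^ 2 * m ^ 6) * YW y R σ G ≤
            h * m ^ 4 * YW y R σ G :=
          mul_le_mul_of_nonneg_right (mul_le_mul_of_nonneg_left h9 hh.le) h7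
        nlinarith

end DynG

end

/-! ### from `Lib_MP_36b788g.Sig` -/

section

/-!
# Deterministic lower bound of the weights

`σ 0 = 0`, `σ (j+1) x = min_z (σ j z + hχ_j z + dist x z·ℓ/2)`.

PROOF.
* `sig_path`: the minimum is attained (`upd_attained`); induction on `n`: for `n+1` and `x` take the minimizer `z'`, the path `z` for `(n, z')`, and set `z (n+1) = x` (redefine the path from
  `n+1` on, `Function.update`).
* `sig_seg`: for a path `z` (times `j < n` count) with values in `B`: `Σ_{j<n}hχ_j(z j) ≥ c n h - C0ℓ(m+1)`, `m` = total variation `Σ_{j<n-1} dist(z (j+1)) (z j)` (a natural number). Strong induction on `n`: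
  if `z` is constant on `[0,n)` use the hypothesis with `s = 0, t = n`; otherwise let `s` be minimal with `z` constant on `[s,n)`, `s ≥ 1`, the jump from `s-1` to `s` has distance `≥ 1` (`dist_pos`), use the
  hypothesis on `[s,n)` and the induction hypothesis on `[0,s)`, whose variation is `≤ m-1`. (`n = 0`: trivial, `C0ℓ ≥ 0`.)
* `sig_low`: take the path of `sig_path` for `(n,x)`, `V = Σ_{j<n}dist(z(j+1))(z j)` its total variation, `σ n x = Σ_{j<n}hχ_j(z j)+Vℓ/2`.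
  (i) If all `z j`, `j < n`, are in `B`: `σ n x ≥ Vℓ/2` (`χ ≥ 0` on `B`) and `σ n x ≥ c n h-C0ℓ(V+1)+Vℓ/2 ≥ cnh-C0ℓ-C0ℓV`; multiply the first by `2C0/(2C0+1)`, the second by `1/(2C0+1)`: `σ n x ≥ (cnh-C0ℓ)/(2C0+1)`.
  (ii) If some `z j ∉ B`: `V ≥ dist x (z j) ≥ dist (z j) y - dist x y > R-ρ0`, all `χ ≥ -C'`: `σ n x ≥ (R-ρ0)ℓ/2-C'nh`.
-/

open MeasureTheory ProbabilityTheory
open scoped ENNReal

namespace DynG

open Dyn DynS DynC

variable {ι : Type} [Fintype ι] {d : ℕ}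

theorem sig_path (net : Net ι d) (ℓ h : ℝ) (χ σ : ℕ → ι → ℝ)
    (hσ : ∀ j x, σ (j + 1) x = upd net ℓ h (χ j) (σ j) x) (n : ℕ) (x : ι) :
    ∃ z : ℕ → ι, z n = x ∧ σ n x = σ 0 (z 0) +
      ∑ j ∈ Finset.range n, (h * χ j (z j) + net.dist (z (j + 1)) (z j) * (ℓ / 2)) := by
  induction n generalizing x with
  | zero => exact ⟨fun _ => x, rfl, by simp⟩
  | succ n ih =>
    obtain ⟨z', hz'⟩ := upd_attained net ℓ h (χ n) (σ n) x
    obtain ⟨z, hz, hs⟩ := ih z'
    refine ⟨fun j => if j ≤ n then z j else x, by simp, ?_⟩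
    rw [hσ n x, hz', hs, Finset.sum_range_succ]
    have e1 : ∑ j ∈ Finset.range n, (h * χ j (if j ≤ n then z j else x) +
        (net.dist (if j + 1 ≤ n then z (j + 1) else x) (if j ≤ n then z j else x) : ℝ) * (ℓ / 2)) =
        ∑ j ∈ Finset.range n, (h * χ j (z j) + (net.dist (z (j + 1)) (z j) : ℝ) * (ℓ / 2)) := by
      refine Finset.sum_congr rfl fun j hj => ?_
      have hj' := Finset.mem_range.1 hj
      rw [if_pos hj'.le, if_pos (by omega : j + 1 ≤ n)]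
    have a1 : (if n ≤ n then z n else x) = z' := by rw [if_pos le_rfl, hz]
    have a2 : (if n + 1 ≤ n then z (n + 1) else x) = x := if_neg (by omega)
    have a3 : (if 0 ≤ n then z 0 else x) = z 0 := if_pos (Nat.zero_le n)
    beta_reduce
    rw [e1, a1, a2, a3]
    ring

/-- triangle inequality along a path -/
private theorem Sig_tri (net : Net ι d) (z : ℕ → ι) (j n : ℕ) (hjn : j ≤ n) :
    net.dist (z n) (z j) ≤ ∑ i ∈ Finset.Ico j n, net.dist (z (i + 1)) (z i) := by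
  induction n, hjn using Nat.le_induction with
  | base => simp [net.dist_self]
  | succ n hn ih =>
    rw [Finset.sum_Ico_succ_top hn]
    have h1 := net.dist_tri (z (n + 1)) (z n) (z j)
    omega

theorem sig_seg (net : Net ι d) {ℓ h c C0 : ℝ} (hℓ : 0 ≤ ℓ) (hC0 : 0 ≤ C0) (χ : ℕ → ι → ℝ)
    (B : Set ι) (n : ℕ) (hocc : ∀ x ∈ B, ∀ s t, s ≤ t → t ≤ n →
      c * ((t - s : ℕ) : ℝ) * h - C0 * ℓ ≤ ∑ j ∈ Finset.Ico s t, h * χ j x)
    (z : ℕ → ι) (hz : ∀ j, j < n → z j ∈ B) :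
    c * n * h - C0 * ℓ * ((∑ j ∈ Finset.range (n - 1), net.dist (z (j + 1)) (z j) : ℕ) + 1) ≤
      ∑ j ∈ Finset.range n, h * χ j (z j) := by
  have hCl : 0 ≤ C0 * ℓ := mul_nonneg hC0 hℓ
  induction n using Nat.strong_induction_on with
  | _ n ih =>
    rcases Nat.eq_zero_or_pos n with rfl | hn
    · simp
      exact hCl
    classical
    have hex : ∃ s, s < n ∧ ∀ j, s ≤ j → j < n → z j = z (n - 1) :=
      ⟨n - 1, by omega, fun j h1 h2 => by rw [show j = n - 1 by omega]⟩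
    obtain ⟨hsn, hs⟩ := Nat.find_spec hex
    have hmin : ∀ m, m < Nat.find hex → ¬ (m < n ∧ ∀ j, m ≤ j → j < n → z j = z (n - 1)) :=
      fun m hm => Nat.find_min hex hm
    generalize Nat.find hex = s at hsn hs hmin
    have hzn : z (n - 1) ∈ B := hz _ (by omega)
    have h1 := hocc (z (n - 1)) hzn s n hsn.le le_rfl
    have h2 : ∑ j ∈ Finset.Ico s n, h * χ j (z (n - 1)) = ∑ j ∈ Finset.Ico s n, h * χ j (z j) := by
      refine Finset.sum_congr rfl fun j hj => ?_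
      rw [Finset.mem_Ico] at hj
      rw [hs j hj.1 hj.2]
    rw [h2] at h1
    have h3 : ∑ j ∈ Finset.range n, h * χ j (z j) =
        ∑ j ∈ Finset.range s, h * χ j (z j) + ∑ j ∈ Finset.Ico s n, h * χ j (z j) := by
      rw [Finset.sum_range_add_sum_Ico _ hsn.le]
    have h4 : ((n - s : ℕ) : ℝ) = n - s := by
      rw [Nat.cast_sub hsn.le]
    rw [h4] at h1
    rcases Nat.eq_zero_or_pos s with rfl | hs0
    · rw [h3]
      have h5 : (0 : ℝ) ≤ ((∑ j ∈ Finset.range (n - 1), net.dist (z (j + 1)) (z j) : ℕ) : ℝ) :=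
        Nat.cast_nonneg _
      simp only [Finset.range_zero, Finset.sum_empty, Nat.cast_zero, sub_zero, zero_add] at h1 ⊢
      nlinarith [mul_nonneg hCl h5]
    · -- a jump at `s - 1`
      have h5 := ih s hsn (fun x hx a b hab hb => hocc x hx a b hab (hb.trans hsn.le))
        (fun j hj => hz j (hj.trans hsn))
      have hjump : z (s - 1) ≠ z (n - 1) := by
        intro heq
        refine hmin (s - 1) (by omega) ⟨by omega, fun j hj1 hj2 => ?_⟩
        rcases Nat.lt_or_ge j s with h6 | h6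
        · rw [show j = s - 1 by omega]
          exact heq
        · exact hs j h6 hj2
      have h6 : 1 ≤ net.dist (z (s - 1 + 1)) (z (s - 1)) := by
        apply net.dist_pos
        rw [show s - 1 + 1 = s by omega, hs s le_rfl hsn]
        exact hjump.symm
      have h7 : ∑ j ∈ Finset.range (s - 1), net.dist (z (j + 1)) (z j) + 1 ≤
          ∑ j ∈ Finset.range (n - 1), net.dist (z (j + 1)) (z j) := by
        have h8 : Finset.range (s - 1 + 1) ⊆ Finset.range (n - 1) := by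
          rw [Finset.range_subset_range]
          omega
        have h9 := Finset.sum_le_sum_of_subset (f := fun j => net.dist (z (j + 1)) (z j)) h8
        rw [Finset.sum_range_succ] at h9
        omega
      have h8 : ((∑ j ∈ Finset.range (s - 1), net.dist (z (j + 1)) (z j) : ℕ) : ℝ) + 1 ≤
          ((∑ j ∈ Finset.range (n - 1), net.dist (z (j + 1)) (z j) : ℕ) : ℝ) := by
        exact_mod_cast h7
      rw [h3]
      nlinarith [mul_le_mul_of_nonneg_left h8 hCl]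

theorem sig_low (net : Net ι d) {ℓ h c C0 C' : ℝ} (hℓ : 0 < ℓ) (hh : 0 < h) (hc : 0 < c)
    (hC0 : 0 < C0) (hC' : 0 ≤ C') (χ σ : ℕ → ι → ℝ)
    (hσ : ∀ j x, σ (j + 1) x = upd net ℓ h (χ j) (σ j) x) (hσ0 : ∀ x, σ 0 x = 0) (n : ℕ)
    (y : ι) (R : ℕ)
    (hocc : ∀ x, net.dist x y ≤ R → ∀ s t, s ≤ t → t ≤ n →
      c * ((t - s : ℕ) : ℝ) * h - C0 * ℓ ≤ ∑ j ∈ Finset.Ico s t, h * χ j x)
    (hpos : ∀ j x, net.dist x y ≤ R → 0 ≤ χ j x) (hneg : ∀ j x, -C' ≤ χ j x)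
    (ρ0 : ℝ) (x : ι) (hx : net.dist x y ≤ ρ0) :
    min ((c * n * h - C0 * ℓ) / (2 * C0 + 1)) ((R - ρ0) * (ℓ / 2) - C' * (n * h)) ≤ σ n x := by
  obtain ⟨z, hzn, hz⟩ := sig_path net ℓ h χ σ hσ n x
  rw [hσ0, zero_add, Finset.sum_add_distrib, ← Finset.sum_mul, ← Nat.cast_sum] at hz
  have hV0 : (0 : ℝ) ≤ ((∑ i ∈ Finset.range n, net.dist (z (i + 1)) (z i) : ℕ) : ℝ) :=
    Nat.cast_nonneg _
  by_cases hall : ∀ j, j < n → net.dist (z j) y ≤ R
  · refine (min_le_left _ _).trans ?_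
    have h1 := sig_seg net hℓ.le hC0.le χ {w | net.dist w y ≤ R} n hocc z hall
    have h2 : 0 ≤ ∑ j ∈ Finset.range n, h * χ j (z j) :=
      Finset.sum_nonneg fun j hj => mul_nonneg hh.le (hpos j _ (hall j (Finset.mem_range.1 hj)))
    have h3 : ((∑ j ∈ Finset.range (n - 1), net.dist (z (j + 1)) (z j) : ℕ) : ℝ) ≤
        ((∑ i ∈ Finset.range n, net.dist (z (i + 1)) (z i) : ℕ) : ℝ) := by
      have h4 : Finset.range (n - 1) ⊆ Finset.range n := by
        rw [Finset.range_subset_range]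
        omega
      have h5 := Finset.sum_le_sum_of_subset (f := fun j => net.dist (z (j + 1)) (z j)) h4
      exact_mod_cast h5
    have hpos' : 0 < 2 * C0 + 1 := by linarith
    rw [div_le_iff₀ hpos', hz]
    have hCl : 0 < C0 * ℓ := mul_pos hC0 hℓ
    have h6 := mul_le_mul_of_nonneg_left h3 hCl.le
    have h7 := mul_nonneg hC0.le h2
    have h8 := mul_nonneg hV0 hℓ.le
    generalize ((∑ i ∈ Finset.range n, net.dist (z (i + 1)) (z i) : ℕ) : ℝ) = V at *
    generalize ((∑ j ∈ Finset.range (n - 1), net.dist (z (j + 1)) (z j) : ℕ) : ℝ) = V' at *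
    generalize (∑ j ∈ Finset.range n, h * χ j (z j)) = A at *
    nlinarith
  · refine (min_le_right _ _).trans ?_
    push Not at hall
    obtain ⟨j, hj, hjR⟩ := hall
    have h1 : -(C' * (n * h)) ≤ ∑ j ∈ Finset.range n, h * χ j (z j) := by
      have h2 : ∑ _j ∈ Finset.range n, (-(C' * h)) ≤ ∑ j ∈ Finset.range n, h * χ j (z j) :=
        Finset.sum_le_sum fun j _ => by nlinarith [hneg j (z j)]
      rw [Finset.sum_const, Finset.card_range, nsmul_eq_mul] at h2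
      nlinarith
    have h2 := Sig_tri net z j n hj.le
    rw [hzn] at h2
    have h3 : ∑ i ∈ Finset.Ico j n, net.dist (z (i + 1)) (z i) ≤
        ∑ i ∈ Finset.range n, net.dist (z (i + 1)) (z i) := by
      apply Finset.sum_le_sum_of_subset
      intro i hi
      rw [Finset.mem_Ico] at hi
      exact Finset.mem_range.2 hi.2
    have h4 := net.dist_tri (z j) x y
    rw [net.dist_comm (z j) x] at h4
    have h5 : (R : ℝ) ≤ net.dist x (z j) + net.dist x y := by exact_mod_cast (by omega)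
    have h6 : (net.dist x (z j) : ℝ) ≤
        ((∑ i ∈ Finset.range n, net.dist (z (i + 1)) (z i) : ℕ) : ℝ) := by
      exact_mod_cast h2.trans h3
    rw [hz]
    have h7 : (R : ℝ) - ρ0 ≤ ((∑ i ∈ Finset.range n, net.dist (z (i + 1)) (z i) : ℕ) : ℝ) := by
      linarith
    nlinarith [mul_le_mul_of_nonneg_right h7 (by linarith : (0 : ℝ) ≤ ℓ / 2)]

end DynG

end
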