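import Pool.Agent.Lib_MP_36b788_m.M05

/-!
# MP_36b788_pr, stationary limit: merged library part M20

Concatenation of smaller files (each in its own section), only to save build time.
-/

/-! ### from `Lib_MP_36b788c.BNoise2` -/

section

/-!
# The two families of chains and the links to `ChainMix`

* `Fam1 N d β k`: the Gaussian chain `stp` with values in `E N`.
* `Fam2 d β k`: values in `ℂ`, `G⁺ = J(e^{√h η} G) + k h coup G`, `η` complex Gaussian with independent standard normal real and imaginary parts.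
* `PS2`: pair system for `Fam2` (same noise). `b = √h Re η`.

PROOF.
* `link1`: `F.pathE = pathE`, `F.law = chainLaw` by induction on the list / on `n` (`coupV = coup`, `JV = J` by definition), for `k > 0` the clause `k = 0 → …` is empty.
* `BNoise` for `PS2`: `Re η ~ N(0,1)`: `∫ e^{r √h Re η} = e^{r² h/2}` and the part outside `gd` is `≤ h²` (Gaussian tail `P(|η| > h^{-1/8}) ≤ 2e^{-h^{-1/4}/4}`, Cauchy-Schwarz).
* `PS2` facts: `‖JV v‖ = psi ‖v‖` (`norm_J`), `JV` nonexpansive (as `J_nonexp`; its proof uses only the inner product), `‖e^{√h η} G‖ = e^{b} ‖G‖`.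
* `link2`: (1) the chain `stp` for `N = 2` has the same transition kernel as `G⁺ = J(G (1+√h ζ)) + k h coup` on `ℂ` (identification `ℂ ≃ₗᵢ E 2`; `‖G‖ξ` and `G ζ` have the same law by isotropy). (2) Same noise `ζ = η` for this chain (values `G'`) and `Fam2` (values `G`) started
  at the same configuration: `D = G' - G`, `r = e^{√h η} - 1 - √h η`: `E r = 0`, `E[conj(1+√h η) r] = 0` (`E conj(η) η^j = 0` for `j ≥ 2`), `E|r|² ≤ C h²`, so `E|D(1+√hη) - G r|² = |D|²(1+2h) + |G|² E|r|²`, and with `(a+b)² ≤ (1+h)a² + (1+1/h)b²` for the coupling term: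
  `E Σ_x|D⁺|² ≤ (1+Ch) Σ|D|² + C h² Σ|G|²`; `E Σ|G_n|² ≤ e^{C n h} E Σ|G_0|²`. So `E Σ_x|D_n(x)|² ≤ C h` for `n h ≤ 2 Sm`. (3) In `ChainMix` replace both trajectories (times `n1 + i`, `n2 + i`) by those of `Fam2`: product of at most `J` Lipschitz functions:
  error `≤ 2 J CF Σ_x E min(1,|D|) ≤ C √h`. Then `Mix` with `δ/2`.
-/

open MeasureTheory ProbabilityTheory
open scoped ENNReal

namespace DynC

open Dyn

private theorem BNoise2_fst : gC.map Complex.re = gaussianReal 0 1 := by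
  unfold gC
  rw [Measure.map_map Complex.measurable_re measurable_mkC]
  have h1 : (Complex.re ∘ fun p : ℝ × ℝ => (⟨p.1, p.2⟩ : ℂ)) = Prod.fst := rfl
  rw [h1, Measure.map_fst_prod, measure_univ, one_smul]

private theorem BNoise2_snd : gC.map Complex.im = gaussianReal 0 1 := by
  unfold gC
  rw [Measure.map_map Complex.measurable_im measurable_mkC]
  have h1 : (Complex.im ∘ fun p : ℝ × ℝ => (⟨p.1, p.2⟩ : ℂ)) = Prod.snd := rfl
  rw [h1, Measure.map_snd_prod, measure_univ, one_smul]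

private theorem BNoise2_mb (h r : ℝ) :
    Measurable fun a : ℂ => ENNReal.ofReal (Real.exp (r * bC h a)) := by
  unfold bC
  exact (Real.measurable_exp.comp
    ((Complex.measurable_re.const_mul _).const_mul _)).ennreal_ofReal

private theorem BNoise2_mgd (h : ℝ) : MeasurableSet (gdC h) :=
  measurableSet_le (measurable_norm.const_mul _) measurable_const

private theorem BNoise2_full (h r : ℝ) (hh : 0 ≤ h) :
    ∫⁻ a, ENNReal.ofReal (Real.exp (r * bC h a)) ∂gC =
      ENNReal.ofReal (Real.exp (r ^ 2 * h / 2)) := by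
  have h1 : ∫⁻ a, ENNReal.ofReal (Real.exp (r * bC h a)) ∂gC =
      ∫⁻ x, ENNReal.ofReal (Real.exp ((r * Real.sqrt h) * x)) ∂(gC.map Complex.re) := by
    rw [lintegral_map _ Complex.measurable_re]
    · refine lintegral_congr fun a => ?_
      unfold bC
      rw [mul_assoc]
    · exact (Real.measurable_exp.comp (measurable_id.const_mul _)).ennreal_ofReal
  rw [h1, BNoise2_fst, ← ofReal_integral_eq_lintegral_ofReal
    (integrable_exp_mul_gaussianReal _) (Filter.Eventually.of_forall fun x =>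
      (Real.exp_pos _).le)]
  have h2 := congrFun (mgf_fun_id_gaussianReal (μ := 0) (v := 1)) (r * Real.sqrt h)
  unfold mgf at h2
  rw [h2, mul_pow, Real.sq_sqrt hh]
  congr 2
  simp

private theorem BNoise2_tail1 : ∃ m : ℝ, 0 < m ∧ ∀ t : ℝ, 0 < t →
    gaussianReal 0 1 {x : ℝ | t ≤ |x|} ≤ ENNReal.ofReal (m / t ^ 32) := by
  have hi : Integrable (fun x : ℝ => |x| ^ 32) (gaussianReal 0 1) := by
    have := (memLp_id_gaussianReal (μ := 0) (v := 1) (32 : NNReal)).integrable_norm_pow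
      (p := 32) (by norm_num)
    simpa using this
  refine ⟨∫ x, |x| ^ 32 ∂(gaussianReal 0 1) + 1, ?_, fun t ht => ?_⟩
  · have : 0 ≤ ∫ x, |x| ^ 32 ∂(gaussianReal 0 1) :=
      integral_nonneg fun x => by positivity
    linarith
  · have h1 := mul_meas_ge_le_integral_of_nonneg
      (μ := gaussianReal 0 1) (f := fun x : ℝ => |x| ^ 32)
      (Filter.Eventually.of_forall fun x => by positivity) hi (t ^ 32)
    have h2 : {x : ℝ | t ^ 32 ≤ |x| ^ 32} = {x : ℝ | t ≤ |x|} := by
      ext x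
      exact pow_le_pow_iff_left₀ ht.le (abs_nonneg x) (by norm_num)
    rw [h2] at h1
    have h3 : (gaussianReal 0 1).real {x : ℝ | t ≤ |x|} ≤
        (∫ x, |x| ^ 32 ∂(gaussianReal 0 1) + 1) / t ^ 32 := by
      rw [le_div_iff₀ (by positivity)]
      linarith
    rw [← ofReal_measureReal]
    exact ENNReal.ofReal_le_ofReal h3

private theorem BNoise2_rp {h : ℝ} (hh : 0 < h) :
    (h ^ (3 / 8 : ℝ) / (2 * Real.sqrt h)) ^ 32 = 1 / (2 ^ 32 * h ^ 4) := by
  rw [div_pow, mul_pow]
  have h1 : (h ^ (3 / 8 : ℝ)) ^ 32 = h ^ 12 := by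
    rw [← Real.rpow_natCast, ← Real.rpow_mul hh.le, ← Real.rpow_natCast]
    norm_num
  have h2 : (Real.sqrt h) ^ 32 = h ^ 16 := by
    have : (Real.sqrt h) ^ 32 = ((Real.sqrt h) ^ 2) ^ 16 := by ring
    rw [this, Real.sq_sqrt hh.le]
  rw [h1, h2]
  field_simp

private theorem BNoise2_tail : ∃ h0 : ℝ, 0 < h0 ∧ ∀ h, 0 < h → h < h0 →
    gC (gdC h)ᶜ ≤ ENNReal.ofReal (h ^ 3) := by
  obtain ⟨m, hm, hmt⟩ := BNoise2_tail1
  refine ⟨1 / (2 * m * 2 ^ 32), by positivity, fun h hh hlt => ?_⟩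
  have hs : 0 < Real.sqrt h := Real.sqrt_pos.2 hh
  set t : ℝ := h ^ (3 / 8 : ℝ) / (2 * Real.sqrt h) with ht
  have htp : 0 < t := by
    have := Real.rpow_pos_of_pos hh (3 / 8 : ℝ)
    positivity
  have hsub : (gdC h)ᶜ ⊆ Complex.re ⁻¹' {x : ℝ | t ≤ |x|} ∪ Complex.im ⁻¹' {x : ℝ | t ≤ |x|} := by
    intro η hη
    by_contra hcon
    apply hη
    simp only [Set.mem_union, Set.mem_preimage, Set.mem_ofPred_eq, not_or, not_le] at hcon
    change Real.sqrt h * ‖η‖ ≤ h ^ (3 / 8 : ℝ)
    have h1 : ‖η‖ ≤ |η.re| + |η.im| := Complex.norm_le_abs_re_add_abs_im η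
    have h2 : ‖η‖ ≤ 2 * t := by linarith [hcon.1, hcon.2]
    calc Real.sqrt h * ‖η‖ ≤ Real.sqrt h * (2 * t) := by gcongr
      _ = h ^ (3 / 8 : ℝ) := by rw [ht]; field_simp
  have hms : MeasurableSet {x : ℝ | t ≤ |x|} :=
    measurableSet_le measurable_const (measurable_id.abs)
  have e1 : gC (Complex.re ⁻¹' {x : ℝ | t ≤ |x|}) ≤ ENNReal.ofReal (m / t ^ 32) := by
    rw [← Measure.map_apply Complex.measurable_re hms, BNoise2_fst]
    exact hmt t htp
  have e2 : gC (Complex.im ⁻¹' {x : ℝ | t ≤ |x|}) ≤ ENNReal.ofReal (m / t ^ 32) := by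
    rw [← Measure.map_apply Complex.measurable_im hms, BNoise2_snd]
    exact hmt t htp
  have h3 : gC (gdC h)ᶜ ≤ ENNReal.ofReal (m / t ^ 32 + m / t ^ 32) := by
    rw [ENNReal.ofReal_add (by positivity) (by positivity)]
    exact (measure_mono hsub).trans ((measure_union_le _ _).trans (add_le_add e1 e2))
  refine h3.trans (ENNReal.ofReal_le_ofReal ?_)
  have h4 : m / t ^ 32 + m / t ^ 32 = (2 * m * 2 ^ 32 * h) * h ^ 3 := by
    rw [ht, BNoise2_rp hh]
    field_simp
    ring
  rw [h4]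
  have h5 : 2 * m * 2 ^ 32 * h ≤ 1 := by
    rw [lt_div_iff₀ (by positivity)] at hlt
    linarith
  have h6 : 0 ≤ h ^ 3 := by positivity
  nlinarith

private theorem BNoise2_am (x y s : ℝ) (hs : 0 < s) : x * y ≤ (s * x ^ 2 + y ^ 2 / s) / 2 := by
  have h1 : 0 ≤ (s * x - y) ^ 2 / s := by positivity
  have h2 : (s * x - y) ^ 2 / s = s * x ^ 2 + y ^ 2 / s - 2 * (x * y) := by
    field_simp
    ring
  linarith

/-- the part of the integral outside the good noise -/
private theorem BNoise2_out (rm : ℝ) (hrm : 0 < rm) : ∃ h0 : ℝ, 0 < h0 ∧ h0 ≤ 1 ∧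
    ∀ h, 0 < h → h < h0 → ∀ r, |r| ≤ rm →
    ∫⁻ a in (gdC h)ᶜ, ENNReal.ofReal (Real.exp (r * bC h a)) ∂gC ≤
      ENNReal.ofReal (h * Real.sqrt h * Real.exp (2 * rm ^ 2)) := by
  obtain ⟨h0, hh0, hT⟩ := BNoise2_tail
  refine ⟨min h0 1, lt_min hh0 one_pos, min_le_right _ _, fun h hh hlt r hr => ?_⟩
  have hlt0 : h < h0 := hlt.trans_le (min_le_left _ _)
  have hlt1 : h < 1 := hlt.trans_le (min_le_right _ _)
  have hs : 0 < Real.sqrt h := Real.sqrt_pos.2 hh
  set s : ℝ := h * Real.sqrt h with hsd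
  have hsp : 0 < s := mul_pos hh hs
  have hs2 : s ^ 2 = h ^ 3 := by
    rw [hsd, mul_pow, Real.sq_sqrt hh.le]; ring
  have h1 : ∀ a, ENNReal.ofReal (Real.exp (r * bC h a)) ≤
      ENNReal.ofReal (s / 2) * ENNReal.ofReal (Real.exp ((2 * r) * bC h a)) +
        ENNReal.ofReal (1 / s / 2) := by
    intro a
    rw [← ENNReal.ofReal_mul (by positivity), ← ENNReal.ofReal_add (by positivity)
      (by positivity)]
    refine ENNReal.ofReal_le_ofReal ?_
    have h2 := BNoise2_am (Real.exp (r * bC h a)) 1 s hsp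
    have h3 : Real.exp (r * bC h a) ^ 2 = Real.exp ((2 * r) * bC h a) := by
      rw [← Real.exp_nat_mul]
      congr 1
      push_cast
      ring
    rw [h3] at h2
    linarith
  calc ∫⁻ a in (gdC h)ᶜ, ENNReal.ofReal (Real.exp (r * bC h a)) ∂gC
      ≤ ∫⁻ a in (gdC h)ᶜ, (ENNReal.ofReal (s / 2) *
          ENNReal.ofReal (Real.exp ((2 * r) * bC h a)) + ENNReal.ofReal (1 / s / 2)) ∂gC :=
        lintegral_mono h1
    _ = ENNReal.ofReal (s / 2) * ∫⁻ a in (gdC h)ᶜ,
          ENNReal.ofReal (Real.exp ((2 * r) * bC h a)) ∂gC +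
          ENNReal.ofReal (1 / s / 2) * gC (gdC h)ᶜ := by
        rw [lintegral_add_right _ measurable_const, lintegral_const_mul _ (BNoise2_mb h (2 * r)),
          setLIntegral_const]
    _ ≤ ENNReal.ofReal (s / 2) * ENNReal.ofReal (Real.exp ((2 * r) ^ 2 * h / 2)) +
          ENNReal.ofReal (1 / s / 2) * ENNReal.ofReal (h ^ 3) := by
        gcongr
        · rw [← BNoise2_full h (2 * r) hh.le]
          exact setLIntegral_le_lintegral _ _
        · exact hT h hh hlt0
    _ = ENNReal.ofReal (s / 2 * Real.exp ((2 * r) ^ 2 * h / 2) + 1 / s / 2 * h ^ 3) := by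
        rw [← ENNReal.ofReal_mul (by positivity), ← ENNReal.ofReal_mul (by positivity),
          ← ENNReal.ofReal_add (by positivity) (by positivity)]
    _ ≤ ENNReal.ofReal (s * Real.exp (2 * rm ^ 2)) := by
        refine ENNReal.ofReal_le_ofReal ?_
        have h4 : 1 / s / 2 * h ^ 3 = s / 2 := by
          rw [← hs2]
          field_simp
        have h5 : r ^ 2 ≤ rm ^ 2 := by
          rw [← sq_abs r]
          exact pow_le_pow_left₀ (abs_nonneg r) hr 2
        have h6 : (2 * r) ^ 2 * h / 2 ≤ 2 * rm ^ 2 := by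
          have : r ^ 2 * h ≤ rm ^ 2 * 1 := by gcongr
          linarith
        have h7 : Real.exp ((2 * r) ^ 2 * h / 2) ≤ Real.exp (2 * rm ^ 2) := Real.exp_le_exp.2 h6
        have h8 : 1 ≤ Real.exp (2 * rm ^ 2) := Real.one_le_exp (by positivity)
        rw [h4]
        nlinarith

theorem bnoise2 : BNoise 2 gC bC gdC := by
  refine ⟨?_, BNoise2_tail, ?_, ?_⟩
  · intro h hh hlt a ha
    have ha' : Real.sqrt h * ‖a‖ ≤ h ^ (3 / 8 : ℝ) := ha
    have h1 : |bC h a| ≤ Real.sqrt h * ‖a‖ := by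
      unfold bC
      rw [abs_mul, abs_of_nonneg (Real.sqrt_nonneg h)]
      exact mul_le_mul_of_nonneg_left (Complex.abs_re_le_norm a) (Real.sqrt_nonneg h)
    have h2 : 0 ≤ h ^ (3 / 8 : ℝ) := Real.rpow_nonneg hh.le _
    linarith
  · intro rm ε hrm hε
    obtain ⟨h1, hh1, hh11, hout⟩ := BNoise2_out rm hrm
    have hK : 0 < Real.exp (2 * rm ^ 2) := Real.exp_pos _
    refine ⟨min h1 (min (1 / rm ^ 2) (min (ε / rm ^ 4) ((ε / Real.exp (2 * rm ^ 2)) ^ 2))), ?_,
      fun h hh hlt r hr => ?_⟩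
    · refine lt_min hh1 (lt_min (by positivity) (lt_min (by positivity) (by positivity)))
    have l1 : h < h1 := hlt.trans_le (min_le_left _ _)
    have l2' := hlt.trans_le (min_le_right _ _)
    have l2 : h < 1 / rm ^ 2 := l2'.trans_le (min_le_left _ _)
    have l3' := l2'.trans_le (min_le_right _ _)
    have l3 : h < ε / rm ^ 4 := l3'.trans_le (min_le_left _ _)
    have l4 : h < (ε / Real.exp (2 * rm ^ 2)) ^ 2 := l3'.trans_le (min_le_right _ _)
    have hr2 : r ^ 2 ≤ rm ^ 2 := by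
      rw [← sq_abs r]
      exact pow_le_pow_left₀ (abs_nonneg r) hr 2
    have hlam : lamN 2 = 0 := by
      unfold lamN
      norm_num
    have hfull := BNoise2_full h r hh.le
    have hsplit := lintegral_add_compl (μ := gC)
      (fun a => ENNReal.ofReal (Real.exp (r * bC h a))) (BNoise2_mgd h)
    have hx0 : 0 ≤ r ^ 2 * h / 2 := by positivity
    have hx1 : r ^ 2 * h / 2 ≤ 1 := by
      rw [lt_div_iff₀ (by positivity)] at l2
      nlinarith
    have hexp := Real.abs_exp_sub_one_sub_id_le (x := r ^ 2 * h / 2)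
      (by rw [abs_of_nonneg hx0]; exact hx1)
    rw [hlam]
    constructor
    · calc ∫⁻ a in gdC h, ENNReal.ofReal (Real.exp (r * bC h a)) ∂gC
          ≤ ∫⁻ a, ENNReal.ofReal (Real.exp (r * bC h a)) ∂gC := setLIntegral_le_lintegral _ _
        _ = ENNReal.ofReal (Real.exp (r ^ 2 * h / 2)) := hfull
        _ ≤ _ := by
          refine ENNReal.ofReal_le_ofReal ?_
          have h5 := (abs_le.1 hexp).2
          have h6 : (r ^ 2 * h / 2) ^ 2 ≤ ε * h := by
            have h7 : (r ^ 2 * h / 2) ^ 2 = (r ^ 2) ^ 2 / 4 * h * h := by ring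
            have h8 : (r ^ 2) ^ 2 / 4 * h ≤ ε := by
              rw [lt_div_iff₀ (by positivity)] at l3
              have h9 : (r ^ 2) ^ 2 ≤ (rm ^ 2) ^ 2 := pow_le_pow_left₀ (by positivity) hr2 2
              have h10 : (r ^ 2) ^ 2 * h ≤ (rm ^ 2) ^ 2 * h :=
                mul_le_mul_of_nonneg_right h9 hh.le
              have h11 : (rm ^ 2) ^ 2 * h = h * rm ^ 4 := by ring
              have h12 : 0 ≤ (r ^ 2) ^ 2 * h := by positivity
              linarith
            rw [h7]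
            exact mul_le_mul_of_nonneg_right h8 hh.le
          linarith
    · have hA : ENNReal.ofReal (Real.exp (r ^ 2 * h / 2)) ≤
          ∫⁻ a in gdC h, ENNReal.ofReal (Real.exp (r * bC h a)) ∂gC +
            ENNReal.ofReal (h * Real.sqrt h * Real.exp (2 * rm ^ 2)) := by
        rw [← hfull, ← hsplit]
        exact add_le_add le_rfl (hout h hh l1 r hr)
      have hB : ENNReal.ofReal (Real.exp (r ^ 2 * h / 2) -
          h * Real.sqrt h * Real.exp (2 * rm ^ 2)) ≤
          ∫⁻ a in gdC h, ENNReal.ofReal (Real.exp (r * bC h a)) ∂gC := by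
        rw [ENNReal.ofReal_sub _ (by positivity)]
        exact tsub_le_iff_right.2 hA
      refine le_trans (ENNReal.ofReal_le_ofReal ?_) hB
      have h5 : r ^ 2 * h / 2 + 1 ≤ Real.exp (r ^ 2 * h / 2) := Real.add_one_le_exp _
      have h6 : Real.sqrt h * Real.exp (2 * rm ^ 2) ≤ ε := by
        have h7 : Real.sqrt h ≤ ε / Real.exp (2 * rm ^ 2) := by
          have h8 := Real.sqrt_le_sqrt l4.le
          rwa [Real.sqrt_sq (by positivity)] at h8
        rwa [le_div_iff₀ hK] at h7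
      have h7 : h * Real.sqrt h * Real.exp (2 * rm ^ 2) ≤ h * ε := by
        rw [mul_assoc]
        exact mul_le_mul_of_nonneg_left h6 hh.le
      linarith
  · refine ⟨6, 1 / 2, by norm_num, by norm_num, fun h hh hlt => ?_⟩
    rw [BNoise2_full h 2 hh.le]
    refine ENNReal.ofReal_le_ofReal ?_
    have h1 : (2 : ℝ) ^ 2 * h / 2 = 2 * h := by ring
    rw [h1]
    have hexp := Real.abs_exp_sub_one_sub_id_le (x := 2 * h)
      (by rw [abs_of_nonneg (by positivity)]; linarith)
    have h2 := (abs_le.1 hexp).2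
    nlinarith

end DynC

end
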