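import Pool.Agent.Lib_MP_36b788_m.M03

/-!
# MP_36b788_pr, stationary limit: merged library part M21

Concatenation of smaller files (each in its own section), only to save build time.
-/

/-! ### from `Lib_MP_36b788c.Tilt` -/

section

/-!
# Adapted shift on a block of sites: bound by resampling

`res Bs ns ω ω'`: the entries `(j, z)` with `j < ns`, `Bs z` are taken from `ω'`.

PROOF. `P = PI (γ^ι)`, `Z = exp(logZ ns v ω)`, `shift_lintegral`: `∫ Ψ(shft v ω) Z = ∫ Ψ` (for complex bounded `Ψ` by linearity).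
* `Z⁻¹ = exp(logZ ns (-v) ω + Σ‖v‖²) ≤ e^Q exp(logZ ns (-v) ω)`, and `∫ exp(logZ ns (-v)) = 1` (`shift_lintegral` with `Φ = 1` for the adapted shift `-v`). So `∫ Z⁻¹ ≤ e^Q`, and `∫ (Z-1)²/Z = ∫ Z⁻¹ - 2 + ∫ Z ≤ e^Q - 1`.
* `tilt_bd`: `Ψ ω = ∫ Φ(res ω ω') dω'` does not depend on the entries `(j,z)`, `j < ns`, `Bs z`, so `Ψ(shft v ω) = Ψ ω`. `∫ Φ - ∫ Φ∘shft = ∫ (Φ∘shft)(Z - 1) = ∫ ((Φ - Ψ)∘shft)(Z-1)` since `∫ Ψ Z = ∫ Ψ`. Cauchy-Schwarz with `|Z-1| = (|Z-1|/√Z) √Z`: `≤ (∫ |Φ-Ψ|²∘shft Z)^{1/2} (∫ (Z-1)²/Z)^{1/2} = (∫|Φ-Ψ|²)^{1/2}(e^Q-1)^{1/2}`; Jensen: `|Φ ω - Ψ ω|² ≤ ∫ |Φ ω - Φ(res ω ω')|² dω'`.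
* `tilt_mom`: `∫ Ψ∘shft = ∫ (Ψ∘shft √Z)(1/√Z) ≤ (∫ Ψ²∘shft Z)^{1/2} (∫ Z⁻¹)^{1/2} ≤ (∫Ψ²)^{1/2} e^{Q/2}`.
* `res_map`: the image of `P ⊗ P` under `res` is `P` (product structure).
-/

open MeasureTheory ProbabilityTheory
open scoped ENNReal

namespace DynC

variable {ι V : Type} [Fintype ι] [NormedAddCommGroup V] [InnerProductSpace ℝ V]
  [MeasurableSpace V] [BorelSpace V] [SecondCountableTopology V] {γ : Measure V}
  [IsProbabilityMeasure γ]

/-- resampling of a block -/
noncomputable def res (Bs : ι → Prop) (ns : ℕ) (ω ω' : ℕ → ι → V) : ℕ → ι → V :=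
  fun j z => open Classical in if j < ns ∧ Bs z then ω' j z else ω j z

theorem measurable_res (Bs : ι → Prop) (ns : ℕ) :
    Measurable fun p : (ℕ → ι → V) × (ℕ → ι → V) => res Bs ns p.1 p.2 := by
  classical
  refine measurable_pi_lambda _ fun j => measurable_pi_lambda _ fun z => ?_
  unfold res
  by_cases h : j < ns ∧ Bs z
  · simp only [if_pos h]
    exact (measurable_pi_apply z).comp ((measurable_pi_apply j).comp measurable_snd)
  · simp only [if_neg h]
    exact (measurable_pi_apply z).comp ((measurable_pi_apply j).comp measurable_fst)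

/-- one time: mixing of two configurations -/
private noncomputable def Tilt_mix (Bs : ι → Prop) (b : Prop) (a c : ι → V) : ι → V :=
  fun z => open Classical in if b ∧ Bs z then c z else a z

private theorem Tilt_meas_mix (Bs : ι → Prop) (b : Prop) :
    Measurable fun p : (ι → V) × (ι → V) => Tilt_mix Bs b p.1 p.2 := by
  classical
  refine measurable_pi_lambda _ fun z => ?_
  unfold Tilt_mix
  by_cases h : b ∧ Bs z
  · simp only [if_pos h]
    exact (measurable_pi_apply z).comp measurable_snd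
  · simp only [if_neg h]
    exact (measurable_pi_apply z).comp measurable_fst

private theorem Tilt_map_mix (Bs : ι → Prop) (b : Prop) :
    ((Measure.pi fun _ : ι => γ).prod (Measure.pi fun _ : ι => γ)).map
      (fun p => Tilt_mix Bs b p.1 p.2) = Measure.pi fun _ : ι => γ := by
  classical
  symm
  apply Measure.pi_eq
  intro s hs
  rw [Measure.map_apply (Tilt_meas_mix Bs b) (MeasurableSet.univ_pi hs)]
  have hpre : (fun p : (ι → V) × (ι → V) => Tilt_mix Bs b p.1 p.2) ⁻¹' (Set.univ.pi s)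
      = (Set.univ.pi fun z => if b ∧ Bs z then Set.univ else s z) ×ˢ
        (Set.univ.pi fun z => if b ∧ Bs z then s z else Set.univ) := by
    ext p
    simp only [Set.mem_preimage, Set.mem_pi, Set.mem_univ, forall_true_left, Set.mem_prod]
    constructor
    · intro h
      refine ⟨fun z => ?_, fun z => ?_⟩
      · by_cases hz : b ∧ Bs z
        · rw [if_pos hz]; exact Set.mem_univ _
        · rw [if_neg hz]
          have := h z
          unfold Tilt_mix at this
          rwa [if_neg hz] at this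
      · by_cases hz : b ∧ Bs z
        · rw [if_pos hz]
          have := h z
          unfold Tilt_mix at this
          rwa [if_pos hz] at this
        · rw [if_neg hz]; exact Set.mem_univ _
    · rintro ⟨h1, h2⟩ z
      unfold Tilt_mix
      by_cases hz : b ∧ Bs z
      · rw [if_pos hz]
        have := h2 z
        rwa [if_pos hz] at this
      · rw [if_neg hz]
        have := h1 z
        rwa [if_neg hz] at this
  rw [hpre, Measure.prod_prod, Measure.pi_pi, Measure.pi_pi, ← Finset.prod_mul_distrib]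
  apply Finset.prod_congr rfl
  intro z _
  by_cases hz : b ∧ Bs z
  · rw [if_pos hz, if_pos hz, measure_univ, one_mul]
  · rw [if_neg hz, if_neg hz, measure_univ, mul_one]

private theorem Tilt_res_mix (Bs : ι → Prop) (ns : ℕ) (ω ω' : ℕ → ι → V) (j : ℕ) :
    res Bs ns ω ω' j = Tilt_mix Bs (j < ns) (ω j) (ω' j) := by
  funext z
  unfold res Tilt_mix
  by_cases h : j < ns ∧ Bs z
  · rw [if_pos h, if_pos h]
  · rw [if_neg h, if_neg h]

theorem res_map (Bs : ι → Prop) (ns : ℕ) :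
    ((PI (Measure.pi fun _ : ι => γ)).prod (PI (Measure.pi fun _ : ι => γ))).map
      (fun p => res Bs ns p.1 p.2) = PI (Measure.pi fun _ : ι => γ) := by
  classical
  set μ : Measure (ι → V) := Measure.pi fun _ : ι => γ with hμ
  show ((PI μ).prod (PI μ)).map (fun p => res Bs ns p.1 p.2) = Measure.infinitePi (fun _ : ℕ => μ)
  refine Measure.eq_infinitePi _ ?_
  intro s t ht
  have hms : MeasurableSet ((s : Set ℕ).pi t) :=
    MeasurableSet.pi s.countable_toSet (fun i _ => ht i)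
  rw [Measure.map_apply (measurable_res Bs ns) hms,
    Measure.prod_apply ((measurable_res Bs ns) hms)]
  set g : ℕ → (ι → V) → ℝ≥0∞ := fun j a => μ {c | Tilt_mix Bs (j < ns) a c ∈ t j} with hg
  have hgm : ∀ j, Measurable (g j) := by
    intro j
    exact measurable_measure_prodMk_left ((Tilt_meas_mix Bs (j < ns)) (ht j))
  have h1 : ∀ ω : ℕ → ι → V, (PI μ) (Prod.mk ω ⁻¹'
      ((fun p : (ℕ → ι → V) × (ℕ → ι → V) => res Bs ns p.1 p.2) ⁻¹' ((s : Set ℕ).pi t)))
      = ∏ j ∈ s, g j (ω j) := by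
    intro ω
    have e1 : (Prod.mk ω ⁻¹'
        ((fun p : (ℕ → ι → V) × (ℕ → ι → V) => res Bs ns p.1 p.2) ⁻¹' ((s : Set ℕ).pi t)))
        = (s : Set ℕ).pi (fun j => {c | Tilt_mix Bs (j < ns) (ω j) c ∈ t j}) := by
      ext ω'
      simp only [Set.mem_preimage, Set.mem_pi, Tilt_res_mix]
      rfl
    rw [e1]
    unfold PI
    rw [Measure.infinitePi_pi _ (fun j _ => ?_)]
    exact ((Tilt_meas_mix Bs (j < ns)).comp (measurable_const.prodMk measurable_id)) (ht j)
  rw [lintegral_congr h1]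
  have h2 : iIndepFun (fun (j : ℕ) (ω : ℕ → ι → V) => g j (ω j)) (PI μ) := by
    unfold PI
    exact iIndepFun_infinitePi (P := fun _ : ℕ => μ) (X := g) hgm
  rw [lintegral_prod_eq_prod_lintegral_of_indepFun s _ h2
    (fun j => (hgm j).comp (measurable_pi_apply j))]
  apply Finset.prod_congr rfl
  intro j _
  have h3 : ∫⁻ ω, g j (ω j) ∂(PI μ) = ∫⁻ a, g j a ∂μ := by
    have h := lintegral_map (μ := PI μ) (hgm j) (measurable_pi_apply (X := fun _ : ℕ => ι → V) j)
    have h' := map_coord (μ := μ) j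
    rw [h'] at h
    exact h.symm
  rw [h3]
  have h4 := Measure.prod_apply (μ := μ) (ν := μ) ((Tilt_meas_mix Bs (j < ns)) (ht j))
  have h5 : ((μ.prod μ).map (fun p => Tilt_mix Bs (j < ns) p.1 p.2)) (t j) = μ (t j) := by
    rw [hμ, Tilt_map_mix]
  rw [Measure.map_apply (Tilt_meas_mix Bs (j < ns)) (ht j), h4] at h5
  exact h5

private theorem Tilt_meas_shft (v : ℕ → (ℕ → ι → V) → ι → V) (hv : ∀ j, Measurable (v j)) :
    Measurable (shft v) := by
  refine measurable_pi_lambda _ fun j => measurable_pi_lambda _ fun x => ?_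
  have h1 : Measurable fun ω : ℕ → ι → V => ω j x :=
    (measurable_pi_apply x).comp (measurable_pi_apply j)
  have h2 : Measurable fun ω : ℕ → ι → V => v j ω x := (measurable_pi_apply x).comp (hv j)
  exact h1.add h2

private theorem Tilt_meas_logZ (n : ℕ) (v : ℕ → (ℕ → ι → V) → ι → V)
    (hv : ∀ j, Measurable (v j)) : Measurable (logZ n v) := by
  unfold logZ
  refine Finset.measurable_fun_sum _ fun j _ => Finset.measurable_fun_sum _ fun x _ => ?_
  have h1 : Measurable fun ω : ℕ → ι → V => ω j x :=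
    (measurable_pi_apply x).comp (measurable_pi_apply j)
  have h2 : Measurable fun ω : ℕ → ι → V => v j ω x := (measurable_pi_apply x).comp (hv j)
  exact (h2.inner h1).neg.sub ((h2.norm.pow_const 2).div_const 2)

private theorem Tilt_logZ_neg (n : ℕ) (v : ℕ → (ℕ → ι → V) → ι → V) (ω : ℕ → ι → V) :
    -(logZ n v ω) = logZ n (fun j ω x => - v j ω x) ω +
      ∑ j ∈ Finset.range n, ∑ x, ‖v j ω x‖ ^ 2 := by
  unfold logZ
  rw [← Finset.sum_neg_distrib, ← Finset.sum_add_distrib]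
  apply Finset.sum_congr rfl
  intro j _
  rw [← Finset.sum_neg_distrib, ← Finset.sum_add_distrib]
  apply Finset.sum_congr rfl
  intro x _
  rw [inner_neg_left, norm_neg]
  ring

private theorem Tilt_Z_one (hγ : CMart γ) (n : ℕ) (v : ℕ → (ℕ → ι → V) → ι → V)
    (hv : ∀ j, Measurable (v j)) (hd : ∀ j, Dep j (v j)) (hv0 : ∀ j, n ≤ j → ∀ ω, v j ω = 0) :
    ∫⁻ ω, ENNReal.ofReal (Real.exp (logZ n v ω)) ∂(PI (Measure.pi fun _ : ι => γ)) = 1 := by
  have h1 := shift_lintegral hγ n v hv hd hv0 (fun _ => 1) measurable_const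
  simp only [one_mul, lintegral_one, measure_univ] at h1
  exact h1

private theorem Tilt_Zinv (hγ : CMart γ) (n : ℕ) (v : ℕ → (ℕ → ι → V) → ι → V)
    (hv : ∀ j, Measurable (v j)) (hd : ∀ j, Dep j (v j)) (hv0 : ∀ j, n ≤ j → ∀ ω, v j ω = 0)
    (Q : ℝ) (hQv : ∀ ω, ∑ j ∈ Finset.range n, ∑ x, ‖v j ω x‖ ^ 2 ≤ Q) :
    ∫⁻ ω, ENNReal.ofReal (Real.exp (-(logZ n v ω))) ∂(PI (Measure.pi fun _ : ι => γ)) ≤
      ENNReal.ofReal (Real.exp Q) := by
  have hw : ∀ j, Measurable ((fun j ω x => - v j ω x : ℕ → (ℕ → ι → V) → ι → V) j) := by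
    intro j
    refine measurable_pi_lambda _ fun x => ?_
    exact ((measurable_pi_apply x).comp (hv j)).neg
  have hwd : ∀ j, Dep j ((fun j ω x => - v j ω x : ℕ → (ℕ → ι → V) → ι → V) j) := by
    intro j a b hab
    funext x
    show - v j a x = - v j b x
    rw [hd j a b hab]
  have hw0 : ∀ j, n ≤ j → ∀ ω, (fun j ω x => - v j ω x : ℕ → (ℕ → ι → V) → ι → V) j ω = 0 := by
    intro j hj ω
    funext x
    show - v j ω x = 0
    rw [hv0 j hj ω]
    simp
  have h1 := Tilt_Z_one hγ n _ hw hwd hw0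
  calc ∫⁻ ω, ENNReal.ofReal (Real.exp (-(logZ n v ω))) ∂(PI (Measure.pi fun _ : ι => γ))
      ≤ ∫⁻ ω, ENNReal.ofReal (Real.exp Q) *
          ENNReal.ofReal (Real.exp (logZ n (fun j ω x => - v j ω x) ω))
          ∂(PI (Measure.pi fun _ : ι => γ)) := by
        apply lintegral_mono
        intro ω
        show ENNReal.ofReal (Real.exp (-(logZ n v ω))) ≤ ENNReal.ofReal (Real.exp Q) *
          ENNReal.ofReal (Real.exp (logZ n (fun j ω x => - v j ω x) ω))
        rw [← ENNReal.ofReal_mul (Real.exp_pos _).le, ← Real.exp_add, Tilt_logZ_neg]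
        apply ENNReal.ofReal_le_ofReal
        apply Real.exp_le_exp.mpr
        linarith [hQv ω]
    _ = ENNReal.ofReal (Real.exp Q) := by
        rw [lintegral_const_mul' _ _ ENNReal.ofReal_ne_top, h1, mul_one]

private theorem Tilt_cs {Ω : Type} [MeasurableSpace Ω] (P : Measure Ω) (f g : Ω → ℝ≥0∞)
    (hf : Measurable f) (hg : Measurable g) :
    ∫⁻ ω, f ω * g ω ∂P ≤ (∫⁻ ω, f ω ^ 2 ∂P) ^ (1 / 2 : ℝ) * (∫⁻ ω, g ω ^ 2 ∂P) ^ (1 / 2 : ℝ) := by
  have h := ENNReal.lintegral_mul_le_Lp_mul_Lq P Real.HolderConjugate.two_two hf.aemeasurable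
    hg.aemeasurable
  simp only [ENNReal.rpow_two, Pi.mul_apply] at h
  exact h

private theorem Tilt_half_sq (a : ℝ) :
    ENNReal.ofReal (Real.exp (a / 2)) ^ 2 = ENNReal.ofReal (Real.exp a) := by
  rw [← ENNReal.ofReal_pow (Real.exp_pos _).le, ← Real.exp_nat_mul]
  congr 2
  push_cast
  ring

theorem tilt_mom (hγ : CMart γ) (ns : ℕ) (v : ℕ → (ℕ → ι → V) → ι → V)
    (hv : ∀ j, Measurable (v j)) (hd : ∀ j, Dep j (v j)) (hv0 : ∀ j, ns ≤ j → ∀ ω, v j ω = 0)
    (Q : ℝ) (hQ : 0 ≤ Q) (hQv : ∀ ω, ∑ j ∈ Finset.range ns, ∑ x, ‖v j ω x‖ ^ 2 ≤ Q)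
    (Ψ : (ℕ → ι → V) → ℝ≥0∞) (hΨ : Measurable Ψ) :
    ∫⁻ ω, Ψ (shft v ω) ∂(PI (Measure.pi fun _ : ι => γ)) ≤
      ENNReal.ofReal (Real.exp (Q / 2)) *
        (∫⁻ ω, Ψ ω ^ 2 ∂(PI (Measure.pi fun _ : ι => γ))) ^ (1 / 2 : ℝ) := by
  have hsm := Tilt_meas_shft v hv
  have hlm := Tilt_meas_logZ ns v hv
  have hf : Measurable fun ω => Ψ (shft v ω) * ENNReal.ofReal (Real.exp (logZ ns v ω / 2)) :=
    (hΨ.comp hsm).mul (ENNReal.measurable_ofReal.comp
      (Real.measurable_exp.comp (hlm.div_const 2)))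
  have hg : Measurable fun ω => ENNReal.ofReal (Real.exp (-(logZ ns v ω) / 2)) :=
    ENNReal.measurable_ofReal.comp (Real.measurable_exp.comp (hlm.neg.div_const 2))
  have h1 := Tilt_cs (PI (Measure.pi fun _ : ι => γ)) _ _ hf hg
  have e1 : ∀ ω, Ψ (shft v ω) * ENNReal.ofReal (Real.exp (logZ ns v ω / 2)) *
      ENNReal.ofReal (Real.exp (-(logZ ns v ω) / 2)) = Ψ (shft v ω) := by
    intro ω
    rw [mul_assoc, ← ENNReal.ofReal_mul (Real.exp_pos _).le, ← Real.exp_add]
    rw [show logZ ns v ω / 2 + -(logZ ns v ω) / 2 = 0 by ring, Real.exp_zero, ENNReal.ofReal_one,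
      mul_one]
  have e2 : ∀ ω, (Ψ (shft v ω) * ENNReal.ofReal (Real.exp (logZ ns v ω / 2))) ^ 2 =
      (fun η => Ψ η ^ 2) (shft v ω) * ENNReal.ofReal (Real.exp (logZ ns v ω)) := by
    intro ω
    rw [mul_pow, Tilt_half_sq]
  have e3 : ∀ ω, ENNReal.ofReal (Real.exp (-(logZ ns v ω) / 2)) ^ 2 =
      ENNReal.ofReal (Real.exp (-(logZ ns v ω))) := fun ω => Tilt_half_sq _
  rw [lintegral_congr e1, lintegral_congr e2, lintegral_congr e3,
    shift_lintegral hγ ns v hv hd hv0 (fun η => Ψ η ^ 2) (hΨ.pow_const 2)] at h1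
  refine h1.trans ?_
  rw [mul_comm]
  gcongr
  refine (ENNReal.rpow_le_rpow (Tilt_Zinv hγ ns v hv hd hv0 Q hQv) (by norm_num)).trans ?_
  rw [ENNReal.ofReal_rpow_of_pos (Real.exp_pos _), ← Real.exp_mul]
  apply le_of_eq
  congr 2
  ring

/-- image of the tilted law -/
private theorem Tilt_map (hγ : CMart γ) (ns : ℕ) (v : ℕ → (ℕ → ι → V) → ι → V)
    (hv : ∀ j, Measurable (v j)) (hd : ∀ j, Dep j (v j)) (hv0 : ∀ j, ns ≤ j → ∀ ω, v j ω = 0) :
    ((PI (Measure.pi fun _ : ι => γ)).withDensity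
      (fun ω => ENNReal.ofReal (Real.exp (logZ ns v ω)))).map (shft v) =
      PI (Measure.pi fun _ : ι => γ) := by
  have hsm := Tilt_meas_shft v hv
  have hlm := Tilt_meas_logZ ns v hv
  have hW : Measurable fun ω => ENNReal.ofReal (Real.exp (logZ ns v ω)) :=
    ENNReal.measurable_ofReal.comp (Real.measurable_exp.comp hlm)
  ext s hs
  rw [Measure.map_apply hsm hs, withDensity_apply _ (hsm hs), ← lintegral_indicator (hsm hs)]
  have h1 := shift_lintegral hγ ns v hv hd hv0 (s.indicator fun _ => 1)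
    (measurable_const.indicator hs)
  rw [lintegral_indicator hs, lintegral_const, Measure.restrict_apply MeasurableSet.univ,
    Set.univ_inter, one_mul] at h1
  rw [← h1]
  apply lintegral_congr
  intro ω
  by_cases h : shft v ω ∈ s
  · rw [Set.indicator_of_mem (show ω ∈ shft v ⁻¹' s from h), Set.indicator_of_mem h, one_mul]
  · rw [Set.indicator_of_notMem (show ω ∉ shft v ⁻¹' s from h), Set.indicator_of_notMem h,
      zero_mul]

private theorem Tilt_cint (hγ : CMart γ) (ns : ℕ) (v : ℕ → (ℕ → ι → V) → ι → V)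
    (hv : ∀ j, Measurable (v j)) (hd : ∀ j, Dep j (v j)) (hv0 : ∀ j, ns ≤ j → ∀ ω, v j ω = 0)
    (Φ : (ℕ → ι → V) → ℂ) (hΦ : Measurable Φ) :
    ∫ ω, ((Real.exp (logZ ns v ω) : ℝ) : ℂ) * Φ (shft v ω) ∂(PI (Measure.pi fun _ : ι => γ)) =
      ∫ ω, Φ ω ∂(PI (Measure.pi fun _ : ι => γ)) := by
  have hsm := Tilt_meas_shft v hv
  have hlm := Tilt_meas_logZ ns v hv
  have hW : Measurable fun ω => ENNReal.ofReal (Real.exp (logZ ns v ω)) :=
    ENNReal.measurable_ofReal.comp (Real.measurable_exp.comp hlm)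
  conv_rhs => rw [← Tilt_map hγ ns v hv hd hv0]
  rw [integral_map hsm.aemeasurable hΦ.aestronglyMeasurable,
    integral_withDensity_eq_integral_toReal_smul hW
      (Filter.Eventually.of_forall fun ω => ENNReal.ofReal_lt_top)]
  apply integral_congr_ae
  refine Filter.Eventually.of_forall fun ω => ?_
  show ((Real.exp (logZ ns v ω) : ℝ) : ℂ) * Φ (shft v ω) =
    (ENNReal.ofReal (Real.exp (logZ ns v ω))).toReal • Φ (shft v ω)
  rw [ENNReal.toReal_ofReal (Real.exp_pos _).le]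
  rfl

private theorem Tilt_int_Z (hγ : CMart γ) (ns : ℕ) (v : ℕ → (ℕ → ι → V) → ι → V)
    (hv : ∀ j, Measurable (v j)) (hd : ∀ j, Dep j (v j)) (hv0 : ∀ j, ns ≤ j → ∀ ω, v j ω = 0) :
    Integrable (fun ω => Real.exp (logZ ns v ω)) (PI (Measure.pi fun _ : ι => γ)) := by
  have hlm := Tilt_meas_logZ ns v hv
  refine ⟨(Real.measurable_exp.comp hlm).aestronglyMeasurable, ?_⟩
  rw [hasFiniteIntegral_iff_ofReal (Filter.Eventually.of_forall fun ω => (Real.exp_pos _).le),
    Tilt_Z_one hγ ns v hv hd hv0]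
  exact ENNReal.one_lt_top

/-- `∫ (Z-1)²/Z ≤ e^Q - 1` -/
private theorem Tilt_var (hγ : CMart γ) (ns : ℕ) (v : ℕ → (ℕ → ι → V) → ι → V)
    (hv : ∀ j, Measurable (v j)) (hd : ∀ j, Dep j (v j)) (hv0 : ∀ j, ns ≤ j → ∀ ω, v j ω = 0)
    (Q : ℝ) (hQ : 0 ≤ Q) (hQv : ∀ ω, ∑ j ∈ Finset.range ns, ∑ x, ‖v j ω x‖ ^ 2 ≤ Q) :
    ∫⁻ ω, ENNReal.ofReal ((Real.exp (logZ ns v ω) - 1) ^ 2 * Real.exp (-(logZ ns v ω)))
      ∂(PI (Measure.pi fun _ : ι => γ)) ≤ ENNReal.ofReal (Real.exp Q - 1) := by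
  have hlm := Tilt_meas_logZ ns v hv
  have h2 : (2 : ℝ≥0∞) ≠ ⊤ := by norm_num
  rw [← ENNReal.add_le_add_iff_right h2]
  have e0 : ∫⁻ _ω : ℕ → ι → V, (2 : ℝ≥0∞) ∂(PI (Measure.pi fun _ : ι => γ)) = 2 := by
    rw [lintegral_const, measure_univ, mul_one]
  have hm1 : Measurable fun ω =>
      ENNReal.ofReal ((Real.exp (logZ ns v ω) - 1) ^ 2 * Real.exp (-(logZ ns v ω))) := by
    apply ENNReal.measurable_ofReal.comp
    exact (((Real.measurable_exp.comp hlm).sub_const 1).pow_const 2).mul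
      (Real.measurable_exp.comp hlm.neg)
  have hm2 : Measurable fun ω => ENNReal.ofReal (Real.exp (logZ ns v ω)) :=
    ENNReal.measurable_ofReal.comp (Real.measurable_exp.comp hlm)
  calc ∫⁻ ω, ENNReal.ofReal ((Real.exp (logZ ns v ω) - 1) ^ 2 * Real.exp (-(logZ ns v ω)))
        ∂(PI (Measure.pi fun _ : ι => γ)) + 2
      = ∫⁻ ω, (ENNReal.ofReal ((Real.exp (logZ ns v ω) - 1) ^ 2 *
          Real.exp (-(logZ ns v ω))) + 2) ∂(PI (Measure.pi fun _ : ι => γ)) := by
        rw [lintegral_add_left hm1, e0]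
    _ = ∫⁻ ω, (ENNReal.ofReal (Real.exp (logZ ns v ω)) +
          ENNReal.ofReal (Real.exp (-(logZ ns v ω)))) ∂(PI (Measure.pi fun _ : ι => γ)) := by
        apply lintegral_congr
        intro ω
        rw [show (2 : ℝ≥0∞) = ENNReal.ofReal 2 by norm_num,
          ← ENNReal.ofReal_add (by positivity) (by norm_num),
          ← ENNReal.ofReal_add (Real.exp_pos _).le (Real.exp_pos _).le]
        congr 1
        have h3 : Real.exp (logZ ns v ω) * Real.exp (-(logZ ns v ω)) = 1 := by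
          rw [← Real.exp_add, add_neg_cancel, Real.exp_zero]
        have h4 : (Real.exp (logZ ns v ω) - 1) ^ 2 * Real.exp (-(logZ ns v ω)) =
            Real.exp (logZ ns v ω) * (Real.exp (logZ ns v ω) * Real.exp (-(logZ ns v ω)))
            - 2 * (Real.exp (logZ ns v ω) * Real.exp (-(logZ ns v ω)))
            + Real.exp (-(logZ ns v ω)) := by ring
        rw [h4, h3]
        ring
    _ = 1 + ∫⁻ ω, ENNReal.ofReal (Real.exp (-(logZ ns v ω)))
          ∂(PI (Measure.pi fun _ : ι => γ)) := by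
        rw [lintegral_add_left hm2, Tilt_Z_one hγ ns v hv hd hv0]
    _ ≤ 1 + ENNReal.ofReal (Real.exp Q) := by
        gcongr
        exact Tilt_Zinv hγ ns v hv hd hv0 Q hQv
    _ = ENNReal.ofReal (Real.exp Q - 1) + 2 := by
        have h5 : 1 ≤ Real.exp Q := Real.one_le_exp hQ
        rw [show (2 : ℝ≥0∞) = ENNReal.ofReal 2 by norm_num,
          show (1 : ℝ≥0∞) = ENNReal.ofReal 1 by norm_num,
          ← ENNReal.ofReal_add (by norm_num) (Real.exp_pos _).le,
          ← ENNReal.ofReal_add (by linarith) (by norm_num)]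
        congr 1
        ring

/-- Jensen for a probability measure -/
private theorem Tilt_jensen {Ω : Type} [MeasurableSpace Ω] (P : Measure Ω)
    [IsProbabilityMeasure P] (f : Ω → ℂ) (hf : Measurable f) :
    ‖∫ ω, f ω ∂P‖ₑ ^ 2 ≤ ∫⁻ ω, ‖f ω‖ₑ ^ 2 ∂P := by
  have h1 : ‖∫ ω, f ω ∂P‖ₑ ≤ ∫⁻ ω, ‖f ω‖ₑ ∂P := enorm_integral_le_lintegral_enorm f
  have h2 := Tilt_cs P (fun ω => ‖f ω‖ₑ) (fun _ => 1) hf.enorm measurable_const
  simp only [mul_one, one_pow, lintegral_one, measure_univ, ENNReal.one_rpow] at h2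
  have h3 := pow_le_pow_left₀ (zero_le) (h1.trans h2) 2
  refine h3.trans (le_of_eq ?_)
  rw [← ENNReal.rpow_two, ← ENNReal.rpow_mul]
  norm_num

theorem tilt_bd (hγ : CMart γ) (ns : ℕ) (Bs : ι → Prop) (v : ℕ → (ℕ → ι → V) → ι → V)
    (hv : ∀ j, Measurable (v j)) (hd : ∀ j, Dep j (v j)) (hv0 : ∀ j, ns ≤ j → ∀ ω, v j ω = 0)
    (hvB : ∀ j ω z, ¬ Bs z → v j ω z = 0) (Q : ℝ) (hQ : 0 ≤ Q)
    (hQv : ∀ ω, ∑ j ∈ Finset.range ns, ∑ x, ‖v j ω x‖ ^ 2 ≤ Q)
    (Φ : (ℕ → ι → V) → ℂ) (hΦ : Measurable Φ) (hb : ∀ ω, ‖Φ ω‖ ≤ 1) :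
    ‖∫ ω, Φ ω ∂(PI (Measure.pi fun _ : ι => γ)) -
        ∫ ω, Φ (shft v ω) ∂(PI (Measure.pi fun _ : ι => γ))‖ ≤
      Real.sqrt (Real.exp Q - 1) *
        Real.sqrt (∫ ω, ∫ ω', ‖Φ ω - Φ (res Bs ns ω ω')‖ ^ 2 ∂(PI (Measure.pi fun _ : ι => γ))
          ∂(PI (Measure.pi fun _ : ι => γ))) := by
  classical
  set P : Measure (ℕ → ι → V) := PI (Measure.pi fun _ : ι => γ) with hP
  have hsm := Tilt_meas_shft v hv
  have hlm := Tilt_meas_logZ ns v hv
  have hres := measurable_res (V := V) Bs ns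
  -- the averaged function
  have hΦr : Measurable fun p : (ℕ → ι → V) × (ℕ → ι → V) => Φ (res Bs ns p.1 p.2) :=
    hΦ.comp hres
  set Ψ : (ℕ → ι → V) → ℂ := fun ω => ∫ ω', Φ (res Bs ns ω ω') ∂P with hΨ
  have hΨm : Measurable Ψ := by
    have h0 : StronglyMeasurable fun p : (ℕ → ι → V) × (ℕ → ι → V) => Φ (res Bs ns p.1 p.2) :=
      hΦr.stronglyMeasurable
    exact (h0.integral_prod_right').measurable
  have hΨb : ∀ ω, ‖Ψ ω‖ ≤ 1 := by
    intro ω
    refine (norm_integral_le_of_norm_le_const (C := 1)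
      (Filter.Eventually.of_forall fun ω' => hb _)).trans ?_
    rw [Measure.real, measure_univ]
    simp
  have hresS : ∀ ω ω', res Bs ns (shft v ω) ω' = res Bs ns ω ω' := by
    intro ω ω'
    funext j z
    unfold res
    by_cases h : j < ns ∧ Bs z
    · rw [if_pos h, if_pos h]
    · rw [if_neg h, if_neg h]
      unfold shft
      by_cases hj : j < ns
      · rw [hvB j ω z (fun hz => h ⟨hj, hz⟩), add_zero]
      · rw [hv0 j (by omega) ω]
        simp
  have hΨS : ∀ ω, Ψ (shft v ω) = Ψ ω := by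
    intro ω
    show ∫ ω', Φ (res Bs ns (shft v ω) ω') ∂P = ∫ ω', Φ (res Bs ns ω ω') ∂P
    simp only [hresS]
  -- integrability
  have hintZ := Tilt_int_Z hγ ns v hv hd hv0
  have hintZc : Integrable (fun ω => ((Real.exp (logZ ns v ω) : ℝ) : ℂ)) P := hintZ.ofReal
  have hiZ : ∀ G : (ℕ → ι → V) → ℂ, Measurable G → (∀ ω, ‖G ω‖ ≤ 1) →
      Integrable (fun ω => ((Real.exp (logZ ns v ω) : ℝ) : ℂ) * G (shft v ω)) P := by
    intro G hG hGb
    refine hintZc.mul_bdd (c := 1) (hG.comp hsm).aestronglyMeasurable ?_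
    exact Filter.Eventually.of_forall fun ω => hGb _
  have hiS : ∀ G : (ℕ → ι → V) → ℂ, Measurable G → (∀ ω, ‖G ω‖ ≤ 1) →
      Integrable (fun ω => G (shft v ω)) P := by
    intro G hG hGb
    exact Integrable.of_bound (hG.comp hsm).aestronglyMeasurable 1
      (Filter.Eventually.of_forall fun ω => hGb _)
  -- the difference
  have hdiff : ∀ G : (ℕ → ι → V) → ℂ, Measurable G → (∀ ω, ‖G ω‖ ≤ 1) →
      ∫ ω, G ω ∂P - ∫ ω, G (shft v ω) ∂P =
        ∫ ω, (((Real.exp (logZ ns v ω) : ℝ) : ℂ) - 1) * G (shft v ω) ∂P := by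
    intro G hG hGb
    rw [← Tilt_cint hγ ns v hv hd hv0 G hG, ← integral_sub (hiZ G hG hGb) (hiS G hG hGb)]
    apply integral_congr_ae
    refine Filter.Eventually.of_forall fun ω => ?_
    show ((Real.exp (logZ ns v ω) : ℝ) : ℂ) * G (shft v ω) - G (shft v ω) =
      (((Real.exp (logZ ns v ω) : ℝ) : ℂ) - 1) * G (shft v ω)
    ring
  have h0 : ∫ ω, (((Real.exp (logZ ns v ω) : ℝ) : ℂ) - 1) * Ψ (shft v ω) ∂P = 0 := by
    rw [← hdiff Ψ hΨm hΨb]
    simp only [hΨS, sub_self]
  have hi1 : ∀ G : (ℕ → ι → V) → ℂ, Measurable G → (∀ ω, ‖G ω‖ ≤ 1) →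
      Integrable (fun ω => (((Real.exp (logZ ns v ω) : ℝ) : ℂ) - 1) * G (shft v ω)) P := by
    intro G hG hGb
    have := (hiZ G hG hGb).sub (hiS G hG hGb)
    refine this.congr (Filter.Eventually.of_forall fun ω => ?_)
    show ((Real.exp (logZ ns v ω) : ℝ) : ℂ) * G (shft v ω) - G (shft v ω) =
      (((Real.exp (logZ ns v ω) : ℝ) : ℂ) - 1) * G (shft v ω)
    ring
  have h1 : ∫ ω, Φ ω ∂P - ∫ ω, Φ (shft v ω) ∂P =
      ∫ ω, (((Real.exp (logZ ns v ω) : ℝ) : ℂ) - 1) * (Φ (shft v ω) - Ψ (shft v ω)) ∂P := by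
    rw [hdiff Φ hΦ hb, ← sub_zero (∫ ω, (((Real.exp (logZ ns v ω) : ℝ) : ℂ) - 1) *
      Φ (shft v ω) ∂P), ← h0, ← integral_sub (hi1 Φ hΦ hb) (hi1 Ψ hΨm hΨb)]
    apply integral_congr_ae
    refine Filter.Eventually.of_forall fun ω => ?_
    show (((Real.exp (logZ ns v ω) : ℝ) : ℂ) - 1) * Φ (shft v ω) -
      (((Real.exp (logZ ns v ω) : ℝ) : ℂ) - 1) * Ψ (shft v ω) =
      (((Real.exp (logZ ns v ω) : ℝ) : ℂ) - 1) * (Φ (shft v ω) - Ψ (shft v ω))
    ring
  -- Cauchy-Schwarz
  have hDm : Measurable fun ω => Φ ω - Ψ ω := hΦ.sub hΨm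
  have hf : Measurable fun ω => ‖Φ (shft v ω) - Ψ (shft v ω)‖ₑ *
      ENNReal.ofReal (Real.exp (logZ ns v ω / 2)) :=
    ((hDm.comp hsm).enorm).mul (ENNReal.measurable_ofReal.comp
      (Real.measurable_exp.comp (hlm.div_const 2)))
  have hg : Measurable fun ω => ENNReal.ofReal |Real.exp (logZ ns v ω) - 1| *
      ENNReal.ofReal (Real.exp (-(logZ ns v ω) / 2)) :=
    (ENNReal.measurable_ofReal.comp
      ((Real.measurable_exp.comp hlm).sub_const 1).abs).mul
      (ENNReal.measurable_ofReal.comp (Real.measurable_exp.comp (hlm.neg.div_const 2)))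
  have h2 := Tilt_cs P _ _ hf hg
  have e1 : ∀ ω, ‖Φ (shft v ω) - Ψ (shft v ω)‖ₑ *
      ENNReal.ofReal (Real.exp (logZ ns v ω / 2)) *
      (ENNReal.ofReal |Real.exp (logZ ns v ω) - 1| *
      ENNReal.ofReal (Real.exp (-(logZ ns v ω) / 2))) =
      ‖(((Real.exp (logZ ns v ω) : ℝ) : ℂ) - 1) * (Φ (shft v ω) - Ψ (shft v ω))‖ₑ := by
    intro ω
    have e4 : ENNReal.ofReal (Real.exp (logZ ns v ω / 2)) *
        ENNReal.ofReal (Real.exp (-(logZ ns v ω) / 2)) = 1 := by
      rw [← ENNReal.ofReal_mul (Real.exp_pos _).le, ← Real.exp_add,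
        show logZ ns v ω / 2 + -(logZ ns v ω) / 2 = 0 by ring, Real.exp_zero, ENNReal.ofReal_one]
    have e5 : ‖(((Real.exp (logZ ns v ω) : ℝ) : ℂ) - 1)‖ₑ =
        ENNReal.ofReal |Real.exp (logZ ns v ω) - 1| := by
      rw [← ofReal_norm, show (((Real.exp (logZ ns v ω) : ℝ) : ℂ) - 1) =
        ((Real.exp (logZ ns v ω) - 1 : ℝ) : ℂ) by push_cast; rfl, Complex.norm_real,
        Real.norm_eq_abs]
    rw [enorm_mul, e5]
    calc ‖Φ (shft v ω) - Ψ (shft v ω)‖ₑ * ENNReal.ofReal (Real.exp (logZ ns v ω / 2)) *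
        (ENNReal.ofReal |Real.exp (logZ ns v ω) - 1| *
          ENNReal.ofReal (Real.exp (-(logZ ns v ω) / 2)))
        = (ENNReal.ofReal (Real.exp (logZ ns v ω / 2)) *
          ENNReal.ofReal (Real.exp (-(logZ ns v ω) / 2))) *
          (ENNReal.ofReal |Real.exp (logZ ns v ω) - 1| *
            ‖Φ (shft v ω) - Ψ (shft v ω)‖ₑ) := by ring
      _ = ENNReal.ofReal |Real.exp (logZ ns v ω) - 1| *
            ‖Φ (shft v ω) - Ψ (shft v ω)‖ₑ := by rw [e4, one_mul]
  have e2 : ∀ ω, (‖Φ (shft v ω) - Ψ (shft v ω)‖ₑ *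
      ENNReal.ofReal (Real.exp (logZ ns v ω / 2))) ^ 2 =
      (fun η => ‖Φ η - Ψ η‖ₑ ^ 2) (shft v ω) * ENNReal.ofReal (Real.exp (logZ ns v ω)) := by
    intro ω
    rw [mul_pow, Tilt_half_sq]
  have e3 : ∀ ω, (ENNReal.ofReal |Real.exp (logZ ns v ω) - 1| *
      ENNReal.ofReal (Real.exp (-(logZ ns v ω) / 2))) ^ 2 =
      ENNReal.ofReal ((Real.exp (logZ ns v ω) - 1) ^ 2 * Real.exp (-(logZ ns v ω))) := by
    intro ω
    rw [mul_pow, Tilt_half_sq, ← ENNReal.ofReal_pow (abs_nonneg _), sq_abs,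
      ← ENNReal.ofReal_mul (sq_nonneg _)]
  rw [lintegral_congr e1, lintegral_congr e2, lintegral_congr e3,
    shift_lintegral hγ ns v hv hd hv0 (fun η => ‖Φ η - Ψ η‖ₑ ^ 2) (hDm.enorm.pow_const 2)] at h2
  -- the double integral
  have hK : ∫⁻ ω, ‖Φ ω - Ψ ω‖ₑ ^ 2 ∂P ≤
      ENNReal.ofReal (∫ ω, ∫ ω', ‖Φ ω - Φ (res Bs ns ω ω')‖ ^ 2 ∂P ∂P) := by
    have hdm : Measurable fun p : (ℕ → ι → V) × (ℕ → ι → V) =>
        Φ p.1 - Φ (res Bs ns p.1 p.2) := (hΦ.comp measurable_fst).sub hΦr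
    have hb4 : ∀ ω ω', ‖Φ ω - Φ (res Bs ns ω ω')‖ ^ 2 ≤ 4 := by
      intro ω ω'
      have h5 : ‖Φ ω - Φ (res Bs ns ω ω')‖ ≤ 2 :=
        (norm_sub_le _ _).trans (by linarith [hb ω, hb (res Bs ns ω ω')])
      nlinarith [norm_nonneg (Φ ω - Φ (res Bs ns ω ω'))]
    have hsec : ∀ ω, Measurable fun ω' => Φ ω - Φ (res Bs ns ω ω') := by
      intro ω
      exact hdm.comp (measurable_const.prodMk measurable_id)
    have hin : ∀ ω, Integrable (fun ω' => ‖Φ ω - Φ (res Bs ns ω ω')‖ ^ 2) P := by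
      intro ω
      refine Integrable.of_bound ((hsec ω).norm.pow_const 2).aestronglyMeasurable 4 ?_
      refine Filter.Eventually.of_forall fun ω' => ?_
      rw [Real.norm_eq_abs, abs_of_nonneg (sq_nonneg _)]
      exact hb4 ω ω'
    have hGm : Measurable fun ω => ∫ ω', ‖Φ ω - Φ (res Bs ns ω ω')‖ ^ 2 ∂P := by
      have h6 : StronglyMeasurable fun p : (ℕ → ι → V) × (ℕ → ι → V) =>
          ‖Φ p.1 - Φ (res Bs ns p.1 p.2)‖ ^ 2 := (hdm.norm.pow_const 2).stronglyMeasurable
      exact (h6.integral_prod_right').measurable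
    have hG0 : ∀ ω, 0 ≤ ∫ ω', ‖Φ ω - Φ (res Bs ns ω ω')‖ ^ 2 ∂P := fun ω =>
      integral_nonneg fun ω' => sq_nonneg _
    have hGi : Integrable (fun ω => ∫ ω', ‖Φ ω - Φ (res Bs ns ω ω')‖ ^ 2 ∂P) P := by
      refine Integrable.of_bound hGm.aestronglyMeasurable 4 ?_
      refine Filter.Eventually.of_forall fun ω => ?_
      rw [Real.norm_eq_abs, abs_of_nonneg (hG0 ω)]
      calc ∫ ω', ‖Φ ω - Φ (res Bs ns ω ω')‖ ^ 2 ∂P ≤ ∫ _ω', (4 : ℝ) ∂P :=
            integral_mono (hin ω) (integrable_const _) (hb4 ω)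
        _ = 4 := by rw [integral_const, Measure.real, measure_univ]; simp
    rw [ofReal_integral_eq_lintegral_ofReal hGi (Filter.Eventually.of_forall hG0)]
    apply lintegral_mono
    intro ω
    show ‖Φ ω - Ψ ω‖ₑ ^ 2 ≤ ENNReal.ofReal (∫ ω', ‖Φ ω - Φ (res Bs ns ω ω')‖ ^ 2 ∂P)
    rw [ofReal_integral_eq_lintegral_ofReal (hin ω)
      (Filter.Eventually.of_forall fun ω' => sq_nonneg _)]
    have e6 : Φ ω - Ψ ω = ∫ ω', (Φ ω - Φ (res Bs ns ω ω')) ∂P := by
      have h7 : Integrable (fun ω' => Φ (res Bs ns ω ω')) P :=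
        Integrable.of_bound (hΦr.comp (measurable_const.prodMk measurable_id)).aestronglyMeasurable
          1 (Filter.Eventually.of_forall fun ω' => hb _)
      rw [integral_sub (integrable_const _) h7, integral_const, Measure.real, measure_univ]
      simp [hΨ]
    rw [e6]
    refine (Tilt_jensen P _ (hsec ω)).trans (le_of_eq ?_)
    apply lintegral_congr
    intro ω'
    rw [← ofReal_norm, ENNReal.ofReal_pow (norm_nonneg _)]
  -- conclusion
  set I : ℝ := ∫ ω, ∫ ω', ‖Φ ω - Φ (res Bs ns ω ω')‖ ^ 2 ∂P ∂P with hI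
  have hI0 : 0 ≤ I := integral_nonneg fun ω => integral_nonneg fun ω' => sq_nonneg _
  have hE0 : 0 ≤ Real.exp Q - 1 := by linarith [Real.one_le_exp hQ]
  have h3 : ‖∫ ω, Φ ω ∂P - ∫ ω, Φ (shft v ω) ∂P‖ₑ ≤
      ENNReal.ofReal (Real.sqrt (Real.exp Q - 1) * Real.sqrt I) := by
    rw [h1]
    refine (enorm_integral_le_lintegral_enorm _).trans (h2.trans ?_)
    have h8 : (∫⁻ ω, ‖Φ ω - Ψ ω‖ₑ ^ 2 ∂P) ^ (1 / 2 : ℝ) ≤ ENNReal.ofReal (Real.sqrt I) := by
      refine (ENNReal.rpow_le_rpow hK (by norm_num)).trans (le_of_eq ?_)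
      rw [ENNReal.ofReal_rpow_of_nonneg hI0 (by norm_num), Real.sqrt_eq_rpow]
    have h9 : (∫⁻ ω, ENNReal.ofReal ((Real.exp (logZ ns v ω) - 1) ^ 2 *
        Real.exp (-(logZ ns v ω))) ∂P) ^ (1 / 2 : ℝ) ≤
        ENNReal.ofReal (Real.sqrt (Real.exp Q - 1)) := by
      refine (ENNReal.rpow_le_rpow (Tilt_var hγ ns v hv hd hv0 Q hQ hQv) (by norm_num)).trans
        (le_of_eq ?_)
      rw [ENNReal.ofReal_rpow_of_nonneg hE0 (by norm_num), Real.sqrt_eq_rpow]
    calc (∫⁻ ω, ‖Φ ω - Ψ ω‖ₑ ^ 2 ∂P) ^ (1 / 2 : ℝ) *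
        (∫⁻ ω, ENNReal.ofReal ((Real.exp (logZ ns v ω) - 1) ^ 2 *
          Real.exp (-(logZ ns v ω))) ∂P) ^ (1 / 2 : ℝ)
        ≤ ENNReal.ofReal (Real.sqrt I) * ENNReal.ofReal (Real.sqrt (Real.exp Q - 1)) :=
          mul_le_mul' h8 h9
      _ = ENNReal.ofReal (Real.sqrt (Real.exp Q - 1) * Real.sqrt I) := by
          rw [← ENNReal.ofReal_mul (Real.sqrt_nonneg _), mul_comm]
  rw [← ofReal_norm] at h3
  exact (ENNReal.ofReal_le_ofReal_iff (by positivity)).mp h3

end DynC

end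

/-! ### from `Lib_MP_36b788c.MFb` -/

section

/-!
# Height model: perturbation of the initial heights and uncut lineages

PROOF of `mf_pert`. `F = mf X`, `F' = mf X'`, `F ≤ F' ≤ F + η`. Suppose `F_n(x) < F'_n(x)`. Claim by induction on `i ≤ n`: at the
point `(γ_i, n-i)` of the lineage of `F'` one has `F < F'`, and the uncapped values of `F'` at the steps `< i` are `< η`. Step: `F_{j+1}(y) <
F'_{j+1}(y)` with `F_{j+1}(y) = min 0 (RR F_j y + g)`: the uncapped value of `F` is negative, the one of `F'` is at most `η` larger (`RR_add`), so `< η`, and it is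
strictly larger than that of `F`; with `z = am F'_j y`: `F'_j z - dd y z + g > RR F_j y + g ≥ F_j z - dd y z + g`.
`mf_interp`: `X_i = min (X', X + iη)`. `X_0 = X` (as `X ≤ X'`), `X_i = X'` for large `i` (here `m η ≥ X' - X`), `X_i ≤ X_{i+1} ≤ X_i + η`. Telescoping,
each difference is `≤ η` and, if positive, the lineage is uncut and `X_i(γ_0) < X_{i+1}(γ_0)`, which forces `X(γ_0) + iη < X'(γ_0) ≤ 0`.
-/

open MeasureTheory ProbabilityTheory
open scoped ENNReal

namespace DynC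

variable {S : Type} [Fintype S] {D : ℕ} (M : MSet S D)

theorem mf_pert (X X' : S → ℝ) (η : ℝ) (h1 : ∀ z, X z ≤ X' z) (h2 : ∀ z, X' z ≤ X z + η)
    (g : ℕ → S → ℝ) (n : ℕ) (x : S) (hlt : M.mf X g n x < M.mf X' g n x) :
    M.uncut η X' g n 0 x ∧ X (M.lin X' g n x n) < X' (M.lin X' g n x n) := by
  have hη : 0 ≤ η := by
    have a := h1 x
    have b := h2 x
    linarith
  have key : ∀ i, i ≤ n →
      M.mf X g (n - i) (M.lin X' g n x i) < M.mf X' g (n - i) (M.lin X' g n x i) ∧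
      ∀ l, l < i → M.RR (M.mf X' g (n - (l + 1))) (M.lin X' g n x l) +
        g (n - (l + 1)) (M.lin X' g n x l) < η := by
    intro i
    induction i with
    | zero => intro _; exact ⟨by simpa [MSet.lin] using hlt, by intro l hl; omega⟩
    | succ i ih =>
      intro hi
      obtain ⟨hlt', hall⟩ := ih (by omega)
      have hj : n - i = (n - (i + 1)) + 1 := by omega
      rw [hj] at hlt'
      set j := n - (i + 1) with hjdef
      set y := M.lin X' g n x i with hy
      change min 0 (M.RR (M.mf X g j) y + g j y) < min 0 (M.RR (M.mf X' g j) y + g j y) at hlt'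
      have ha : M.RR (M.mf X g j) y + g j y < 0 := by
        by_contra hcon
        rw [min_eq_left (not_lt.mp hcon)] at hlt'
        exact absurd (lt_of_lt_of_le hlt' (min_le_left _ _)) (lt_irrefl _)
      have hab : M.RR (M.mf X g j) y + g j y < M.RR (M.mf X' g j) y + g j y := by
        rw [min_eq_right ha.le] at hlt'
        exact lt_of_lt_of_le hlt' (min_le_right _ _)
      have hadd : M.RR (M.mf X' g j) y ≤ M.RR (M.mf X g j) y + η :=
        RR_add M _ _ η (fun z => mf_contr M X' X η hη h2 g j z) y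
      refine ⟨?_, ?_⟩
      · have hz := am_spec M (M.mf X' g j) y
        have hle := le_RR M (M.mf X g j) y (M.am (M.mf X' g j) y)
        have hl : M.lin X' g n x (i + 1) = M.am (M.mf X' g j) y := rfl
        rw [hl]
        linarith
      · intro l hl
        rcases Nat.lt_succ_iff_lt_or_eq.mp hl with h | h
        · exact hall l h
        · subst h
          change M.RR (M.mf X' g j) y + g j y < η
          linarith
  obtain ⟨ha, hb⟩ := key n le_rfl
  refine ⟨?_, ?_⟩
  · intro i hi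
    exact hb i (by omega)
  · simpa [MSet.mf] using ha

/-- interpolated initial heights -/
noncomputable def ipl (X X' : S → ℝ) (η : ℝ) (i : ℕ) : S → ℝ := fun z => min (X' z) (X z + i * η)

theorem mf_interp (X X' : S → ℝ) (η : ℝ) (hη : 0 < η) (h1 : ∀ z, X z ≤ X' z)
    (hX : ∀ z, X' z ≤ 0) (m : ℕ) (hm : ∀ z, X' z ≤ X z + m * η)
    (g : ℕ → S → ℝ) (n : ℕ) (x : S) :
    M.mf X' g n x - M.mf X g n x ≤ ∑ i ∈ Finset.range m, open Classical in
      (if M.uncut η (ipl X X' η (i + 1)) g n 0 x ∧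
          X (M.lin (ipl X X' η (i + 1)) g n x n) < -(i * η) then η else 0) := by
  classical
  have e0 : ipl X X' η 0 = X := by
    funext z
    simp only [ipl, Nat.cast_zero, zero_mul, add_zero]
    exact min_eq_right (h1 z)
  have em : ipl X X' η m = X' := by
    funext z
    simp only [ipl]
    exact min_eq_left (hm z)
  have htel : M.mf X' g n x - M.mf X g n x =
      ∑ i ∈ Finset.range m, (M.mf (ipl X X' η (i + 1)) g n x - M.mf (ipl X X' η i) g n x) := by
    rw [Finset.sum_range_sub (fun i => M.mf (ipl X X' η i) g n x), e0, em]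
  rw [htel]
  refine Finset.sum_le_sum fun i _ => ?_
  have hc : ((i + 1 : ℕ) : ℝ) * η = i * η + η := by push_cast; ring
  have hle1 : ∀ z, ipl X X' η i z ≤ ipl X X' η (i + 1) z := by
    intro z
    simp only [ipl]
    rw [hc]
    exact min_le_min le_rfl (by linarith)
  have hle2 : ∀ z, ipl X X' η (i + 1) z ≤ ipl X X' η i z + η := by
    intro z
    simp only [ipl]
    rw [hc]
    rcases min_cases (X' z) (X z + i * η) with ⟨h, _⟩ | ⟨h, _⟩
    · rw [h]
      exact (min_le_left _ _).trans (by linarith)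
    · rw [h]
      exact (min_le_right _ _).trans (by linarith)
  have hdiff : M.mf (ipl X X' η (i + 1)) g n x ≤ M.mf (ipl X X' η i) g n x + η :=
    mf_contr M _ _ η hη.le hle2 g n x
  by_cases hlt : M.mf (ipl X X' η i) g n x < M.mf (ipl X X' η (i + 1)) g n x
  · obtain ⟨hu, hx⟩ := mf_pert M _ _ η hle1 hle2 g n x hlt
    have hx' : X (M.lin (ipl X X' η (i + 1)) g n x n) < -(i * η) := by
      set z := M.lin (ipl X X' η (i + 1)) g n x n with hz
      simp only [ipl] at hx
      have h3 : X z + i * η < X' z := by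
        by_contra hcon
        rw [min_eq_left (not_lt.mp hcon)] at hx
        exact absurd (lt_of_lt_of_le hx (min_le_left _ _)) (lt_irrefl _)
      have h4 := hX z
      linarith
    rw [if_pos ⟨hu, hx'⟩]
    linarith
  · have h5 : M.mf (ipl X X' η (i + 1)) g n x - M.mf (ipl X X' η i) g n x ≤ 0 := by
      linarith [not_lt.mp hlt]
    refine h5.trans ?_
    split_ifs
    · exact hη.le
    · exact le_rfl

theorem measurableSet_uncut (η : ℝ) (n m : ℕ) (x : S) :
    MeasurableSet {p : (S → ℝ) × (ℕ → S → ℝ) | M.uncut η p.1 p.2 n m x} := by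
  have hset : {p : (S → ℝ) × (ℕ → S → ℝ) | M.uncut η p.1 p.2 n m x} =
      ⋂ i ∈ Finset.range (n - m), ⋃ z : S, ({p : (S → ℝ) × (ℕ → S → ℝ) | M.lin p.1 p.2 n x i = z} ∩
        {p | M.RR (M.mf p.1 p.2 (n - (i + 1))) z + p.2 (n - (i + 1)) z < η}) := by
    ext p
    simp only [Set.mem_setOf_eq, Set.mem_iInter, Finset.mem_range, Set.mem_iUnion, Set.mem_inter_iff]
    constructor
    · intro h i hi
      exact ⟨_, rfl, h i hi⟩
    · intro h i hi
      obtain ⟨z, hz, hz'⟩ := h i hi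
      rw [hz]
      exact hz'
  rw [hset]
  refine Finset.measurableSet_biInter _ fun i _ => MeasurableSet.iUnion fun z => ?_
  refine (measurableSet_lin M n x i z).inter ?_
  refine measurableSet_lt ?_ measurable_const
  refine Measurable.add ?_ ?_
  · have h1 : Measurable (fun p : (S → ℝ) × (ℕ → S → ℝ) => M.mf p.1 p.2 (n - (i + 1))) :=
      measurable_pi_lambda _ fun y => measurable_mf M (n - (i + 1)) y
    exact (measurable_RR M z).comp h1
  · exact (measurable_pi_apply z).comp ((measurable_pi_apply (n - (i + 1))).comp measurable_snd)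

/-- uncut lineages split at intermediate times -/
theorem uncut_split (η : ℝ) (X : S → ℝ) (g : ℕ → S → ℝ) (n m : ℕ) (x : S) :
    M.uncut η X g (n + m) 0 x ↔
      (M.uncut η (M.mf X g n) (fun j => g (n + j)) m 0 x ∧
        M.uncut η X g n 0 (M.lin X g (n + m) x m)) := by
  constructor
  · intro h
    refine ⟨?_, ?_⟩
    · intro i hi
      have h1 := h i (by omega)
      have e1 : n + m - (i + 1) = n + (m - (i + 1)) := by omega
      rw [e1, mf_shift M X g n (m - (i + 1)), lin_shift' M X g n m x i (by omega)] at h1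
      exact h1
    · intro i hi
      have h1 := h (m + i) (by omega)
      have e1 : n + m - (m + i + 1) = n - (i + 1) := by omega
      rw [e1, lin_shift M X g n m x i (by omega)] at h1
      exact h1
  · rintro ⟨ha, hb⟩ i hi
    rcases Nat.lt_or_ge i m with hi' | hi'
    · have h1 := ha i (by omega)
      have e1 : n + m - (i + 1) = n + (m - (i + 1)) := by omega
      rw [e1, mf_shift M X g n (m - (i + 1)), lin_shift' M X g n m x i (by omega)]
      exact h1
    · obtain ⟨l, rfl⟩ := Nat.exists_eq_add_of_le hi'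
      have h1 := hb l (by omega)
      have e1 : n + m - (m + l + 1) = n - (l + 1) := by omega
      rw [e1, lin_shift M X g n m x l (by omega)]
      exact h1

end DynC

end

/-! ### from `Lib_MP_36b788c.MFc` -/

section

/-!
# Height model: weights of the good windows of an uncut lineage

A window has `nu` steps. `Good F ω z` is a condition on the heights `F` at the start of the window, the noise `ω` of the window
(it depends on the first `nu` entries) and the base point `z` (position of the lineage at the start of the window).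
`Flip c`: for every endpoint `x` and every `ψ ≥ 0`, `E[1{uncut, Good at the base} ψ(F_end)] ≤ e^c E[1{cut} ψ(F_end)]`.

PROOF of `weights`. `γ_w` = position of the lineage of `(x, m nu)` at time `w nu`. Put `W_m(x) = 1{uncut} Π_{w<m} (1 + e^{-c} 1{Good_w})`.
Claim: `E[W_m(x) ψ(F_{m nu})] ≤ E[ψ(F_{m nu})]` for all `x, ψ ≥ 0`, induction on `m`. Step (`lintegral_glue (m nu)`, `mf_shift`, `lin_shift`,
`uncut_split`, `gcount_succ`): with `F = F_{m nu}` and `ω'` the noise of the last window and `z = lin F ω' nu x nu`,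
`W_{m+1}(x) = 1{uncut F ω' nu 0 x} (1 + e^{-c} 1{Good F ω' z}) W_m(z)`. So
`E[W_{m+1}(x) ψ] = E[Σ_z W_m(z) κ_z(F)]`, `κ_z(F) = E_{ω'}[1{uncut} 1{lin = z} (1 + e^{-c} 1{Good F ω' z}) ψ(mf F ω' nu)]`. Induction hypothesis for each `z`
with `ψ = κ_z`: `≤ E[Σ_z κ_z(F)] = E E_{ω'}[1{uncut} (1 + e^{-c} 1{Good}) ψ] ≤ E E_{ω'}[ψ]` by `Flip c` (`1{uncut}ψ + e^{-c}1{uncut,Good}ψ ≤ 1{uncut}ψ + 1{cut}ψ`).
`good_few`: Markov: `W_m ≥ (1+e^{-c})^r` on the event, `ψ = 1`. For the remainder `r' ` steps after the last window: `uncut_split`, sum over the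
position `x'` of the lineage at time `m nu`: `Σ_{x'} E[W_m(x') P(lin F ω' r' x r' = x')] ≤ Σ_{x'} E[P(..)] = 1`.
-/

open MeasureTheory ProbabilityTheory
open scoped ENNReal

namespace DynC

variable {S : Type} [Fintype S] {D : ℕ} (M : MSet S D)

/-- number of windows `w < m` with property `Good` along the lineage of `(x, m nu)`;
`gv v` converts noise into increments -/
noncomputable def gcount (v : ℝ) (nu : ℕ) (Good : (S → ℝ) → (ℕ → S → ℝ) → S → Prop)
    (X : S → ℝ) (ω : ℕ → S → ℝ) (m : ℕ) (x : S) : ℕ := open Classical in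
  ((Finset.range m).filter fun w => Good (M.mf X (sc v ω) (w * nu)) (fun j => ω (w * nu + j))
    (M.lin X (sc v ω) (m * nu) x ((m - w) * nu))).card

/-- flip inequality for one window -/
def Flip (v η c : ℝ) (nu : ℕ) (Good : (S → ℝ) → (ℕ → S → ℝ) → S → Prop) : Prop :=
  ∀ (F : S → ℝ), (∀ z, F z ≤ 0) → ∀ (x : S) (ψ : (S → ℝ) → ℝ≥0∞), Measurable ψ →
    ∫⁻ ω, Set.indicator {ω | M.uncut η F (sc v ω) nu 0 x ∧ Good F ω (M.lin F (sc v ω) nu x nu)}
        (fun ω => ψ (M.mf F (sc v ω) nu)) ω ∂(PI (nz S))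
      ≤ ENNReal.ofReal (Real.exp c) *
        ∫⁻ ω, Set.indicator {ω | ¬ M.uncut η F (sc v ω) nu 0 x}
          (fun ω => ψ (M.mf F (sc v ω) nu)) ω ∂(PI (nz S))

omit [Fintype S] in
private theorem MFc_measurable_sc (v : ℝ) :
    Measurable (fun ω : ℕ → S → ℝ => sc v ω) := by
  unfold sc
  exact measurable_pi_lambda _ fun j => measurable_pi_lambda _ fun x =>
    measurable_const.mul ((measurable_pi_apply x).comp (measurable_pi_apply j))

omit [Fintype S] in
private theorem MFc_sc_glue_lt (v : ℝ) (n : ℕ) (a b : ℕ → S → ℝ) (j : ℕ) (hj : j < n) :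
    sc v (glue n a b) j = sc v a j := by
  funext x
  simp only [sc, glue, if_pos hj]

omit [Fintype S] in
private theorem MFc_sc_glue_ge (v : ℝ) (n : ℕ) (a b : ℕ → S → ℝ) :
    (fun j => sc v (glue n a b) (n + j)) = sc v b := by
  funext j x
  have h : ¬ (n + j < n) := by omega
  simp only [sc, glue, if_neg h, Nat.add_sub_cancel_left]

omit [Fintype S] in
private theorem MFc_glue_ge (n : ℕ) (a b : ℕ → S → ℝ) :
    (fun j => glue n a b (n + j)) = b := by
  funext j
  have h : ¬ (n + j < n) := by omega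
  simp only [glue, if_neg h, Nat.add_sub_cancel_left]

private theorem MFc_uncut_congr (η : ℝ) (X : S → ℝ) (g g' : ℕ → S → ℝ) (n m : ℕ) (x : S)
    (h : ∀ j, j < n → g j = g' j) : M.uncut η X g n m x ↔ M.uncut η X g' n m x := by
  have key : ∀ g g' : ℕ → S → ℝ, (∀ j, j < n → g j = g' j) → M.uncut η X g n m x →
      M.uncut η X g' n m x := by
    intro g g' h hu i hi
    have h1 := hu i hi
    rw [mf_congr M X g g' (n - (i + 1)) (fun j hj => h j (by omega)),
      lin_congr M X g g' n (fun j hj => h j (by omega)) x i (by omega),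
      h (n - (i + 1)) (by omega)] at h1
    exact h1
  exact ⟨key g g' h, key g' g (fun j hj => (h j hj).symm)⟩

private theorem MFc_gcount_congr (v : ℝ) (nu : ℕ) (Good : (S → ℝ) → (ℕ → S → ℝ) → S → Prop)
    (hG : ∀ F z ω ω', (∀ j, j < nu → ω j = ω' j) → (Good F ω z ↔ Good F ω' z))
    (X : S → ℝ) (a b : ℕ → S → ℝ) (m : ℕ) (x : S) (h : ∀ j, j < m * nu → a j = b j) :
    gcount M v nu Good X a m x = gcount M v nu Good X b m x := by
  classical
  unfold gcount
  congr 1
  refine Finset.filter_congr fun w hw => ?_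
  have hw' : w < m := Finset.mem_range.mp hw
  have hle : (w + 1) * nu ≤ m * nu := Nat.mul_le_mul_right _ hw'
  have hle2 : w * nu + nu ≤ m * nu := by
    have : (w + 1) * nu = w * nu + nu := by ring
    omega
  have hsc : ∀ j, j < m * nu → sc v a j = sc v b j := by
    intro j hj
    funext y
    simp only [sc]
    rw [h j hj]
  rw [mf_congr M X (sc v a) (sc v b) (w * nu) (fun j hj => hsc j (by omega)),
    lin_congr M X (sc v a) (sc v b) (m * nu) (fun j hj => hsc j (by omega)) x ((m - w) * nu)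
      (Nat.mul_le_mul_right _ (by omega))]
  exact hG _ _ _ _ (fun j hj => h _ (by omega))

theorem gcount_succ (v : ℝ) (nu : ℕ) (Good : (S → ℝ) → (ℕ → S → ℝ) → S → Prop)
    (hG : ∀ F z ω ω', (∀ j, j < nu → ω j = ω' j) → (Good F ω z ↔ Good F ω' z))
    (X : S → ℝ) (a b : ℕ → S → ℝ) (m : ℕ) (x : S) : open Classical in
    gcount M v nu Good X (glue (m * nu) a b) (m + 1) x =
      gcount M v nu Good X a m (M.lin (M.mf X (sc v a) (m * nu)) (sc v b) nu x nu) +
        (if Good (M.mf X (sc v a) (m * nu)) b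
          (M.lin (M.mf X (sc v a) (m * nu)) (sc v b) nu x nu) then 1 else 0) := by
  classical
  have hmf : M.mf X (sc v (glue (m * nu) a b)) (m * nu) = M.mf X (sc v a) (m * nu) :=
    mf_congr M X _ _ (m * nu) (fun j hj => MFc_sc_glue_lt v (m * nu) a b j hj)
  have hmul : (m + 1) * nu = m * nu + nu := by ring
  have hlin : M.lin X (sc v (glue (m * nu) a b)) ((m + 1) * nu) x nu =
      M.lin (M.mf X (sc v a) (m * nu)) (sc v b) nu x nu := by
    rw [hmul, lin_shift' M X _ (m * nu) nu x nu le_rfl, hmf, MFc_sc_glue_ge]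
  have hgc := MFc_gcount_congr M v nu Good hG X a (glue (m * nu) a b) m
    (M.lin (M.mf X (sc v a) (m * nu)) (sc v b) nu x nu)
    (fun j hj => by simp only [glue, if_pos hj])
  rw [hgc]
  unfold gcount
  rw [Finset.range_add_one, Finset.filter_insert]
  have hlast : Good (M.mf X (sc v (glue (m * nu) a b)) (m * nu))
      (fun j => glue (m * nu) a b (m * nu + j))
      (M.lin X (sc v (glue (m * nu) a b)) ((m + 1) * nu) x ((m + 1 - m) * nu)) ↔
      Good (M.mf X (sc v a) (m * nu)) b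
          (M.lin (M.mf X (sc v a) (m * nu)) (sc v b) nu x nu) := by
    have e1 : (m + 1 - m) * nu = nu := by
      rw [Nat.add_sub_cancel_left]; ring
    rw [e1, hlin, hmf, MFc_glue_ge]
  have hfil : (Finset.filter (fun w => Good (M.mf X (sc v (glue (m * nu) a b)) (w * nu))
      (fun j => glue (m * nu) a b (w * nu + j))
      (M.lin X (sc v (glue (m * nu) a b)) ((m + 1) * nu) x ((m + 1 - w) * nu))) (Finset.range m)) =
      (Finset.filter (fun w => Good (M.mf X (sc v (glue (m * nu) a b)) (w * nu))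
      (fun j => glue (m * nu) a b (w * nu + j))
      (M.lin X (sc v (glue (m * nu) a b)) (m * nu)
        (M.lin (M.mf X (sc v a) (m * nu)) (sc v b) nu x nu) ((m - w) * nu))) (Finset.range m)) := by
    refine Finset.filter_congr fun w hw => ?_
    have hw' : w < m := Finset.mem_range.mp hw
    have e2 : (m + 1 - w) * nu = nu + (m - w) * nu := by
      have : m + 1 - w = 1 + (m - w) := by omega
      rw [this]; ring
    have e3 : M.lin X (sc v (glue (m * nu) a b)) ((m + 1) * nu) x ((m + 1 - w) * nu) =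
        M.lin X (sc v (glue (m * nu) a b)) (m * nu)
        (M.lin (M.mf X (sc v a) (m * nu)) (sc v b) nu x nu) ((m - w) * nu) := by
      rw [e2, ← hlin, hmul]
      exact lin_shift M X _ (m * nu) nu x ((m - w) * nu) (Nat.mul_le_mul_right _ (by omega))
    rw [e3]
  split_ifs with h1 h2 h2
  · rw [Finset.card_insert_of_notMem (by simp), hfil]
  · exact absurd (hlast.mp h1) h2
  · exact absurd (hlast.mpr h2) h1
  · rw [hfil, add_zero]

private theorem MFc_measurableSet_good (v : ℝ) (nu : ℕ)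
    (Good : (S → ℝ) → (ℕ → S → ℝ) → S → Prop)
    (hm : ∀ z, MeasurableSet {p : (S → ℝ) × (ℕ → S → ℝ) | Good p.1 p.2 z})
    (X : S → ℝ) (m w : ℕ) (x : S) :
    MeasurableSet {ω : ℕ → S → ℝ | Good (M.mf X (sc v ω) (w * nu)) (fun j => ω (w * nu + j))
      (M.lin X (sc v ω) (m * nu) x ((m - w) * nu))} := by
  have hset : {ω : ℕ → S → ℝ | Good (M.mf X (sc v ω) (w * nu)) (fun j => ω (w * nu + j))
      (M.lin X (sc v ω) (m * nu) x ((m - w) * nu))} =
      ⋃ z : S, ({ω | M.lin X (sc v ω) (m * nu) x ((m - w) * nu) = z} ∩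
        {ω | Good (M.mf X (sc v ω) (w * nu)) (fun j => ω (w * nu + j)) z}) := by
    ext ω
    simp only [Set.mem_ofPred_eq, Set.mem_iUnion, Set.mem_inter_iff]
    constructor
    · intro h
      exact ⟨_, rfl, h⟩
    · rintro ⟨z, hz, h⟩
      rw [hz]
      exact h
  rw [hset]
  refine MeasurableSet.iUnion fun z => MeasurableSet.inter ?_ ?_
  · have h1 : Measurable (fun ω : ℕ → S → ℝ => (X, sc v ω)) :=
      measurable_const.prodMk (MFc_measurable_sc v)
    exact h1 (measurableSet_lin M (m * nu) x ((m - w) * nu) z)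
  · have h1 : Measurable (fun ω : ℕ → S → ℝ => (M.mf X (sc v ω) (w * nu),
        (fun j => ω (w * nu + j)))) := by
      refine Measurable.prodMk ?_ ?_
      · refine measurable_pi_lambda _ fun y => ?_
        exact (measurable_mf M (w * nu) y).comp (measurable_const.prodMk (MFc_measurable_sc v))
      · exact measurable_pi_lambda _ fun j => measurable_pi_apply _
    exact h1 (hm z)

private theorem MFc_measurable_gcount (v : ℝ) (nu : ℕ)
    (Good : (S → ℝ) → (ℕ → S → ℝ) → S → Prop)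
    (hm : ∀ z, MeasurableSet {p : (S → ℝ) × (ℕ → S → ℝ) | Good p.1 p.2 z})
    (X : S → ℝ) (m : ℕ) (x : S) :
    Measurable (fun ω : ℕ → S → ℝ => gcount M v nu Good X ω m x) := by
  classical
  unfold gcount
  simp only [Finset.card_filter]
  refine Finset.measurable_sum _ fun w _ => ?_
  exact Measurable.ite (MFc_measurableSet_good M v nu Good hm X m w x) measurable_const
    measurable_const

/-- the weight of the lineage -/
private noncomputable def MFc_wt (v η c : ℝ) (nu : ℕ) (Good : (S → ℝ) → (ℕ → S → ℝ) → S → Prop)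
    (X : S → ℝ) (m : ℕ) (x : S) (ω : ℕ → S → ℝ) : ℝ≥0∞ :=
  Set.indicator {ω | M.uncut η X (sc v ω) (m * nu) 0 x}
    (fun ω => ENNReal.ofReal ((1 + Real.exp (-c)) ^ gcount M v nu Good X ω m x)) ω

private theorem MFc_measurableSet_unc (v η : ℝ) (X : S → ℝ) (n : ℕ) (x : S) :
    MeasurableSet {ω : ℕ → S → ℝ | M.uncut η X (sc v ω) n 0 x} := by
  have h1 : Measurable (fun ω : ℕ → S → ℝ => (X, sc v ω)) :=
    measurable_const.prodMk (MFc_measurable_sc v)
  exact h1 (measurableSet_uncut M η n 0 x)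

private theorem MFc_measurable_wt (v η c : ℝ) (nu : ℕ)
    (Good : (S → ℝ) → (ℕ → S → ℝ) → S → Prop)
    (hm : ∀ z, MeasurableSet {p : (S → ℝ) × (ℕ → S → ℝ) | Good p.1 p.2 z})
    (X : S → ℝ) (m : ℕ) (x : S) : Measurable (MFc_wt M v η c nu Good X m x) := by
  unfold MFc_wt
  refine Measurable.indicator ?_ (MFc_measurableSet_unc M v η X (m * nu) x)
  have h1 : Measurable (fun k : ℕ => ENNReal.ofReal ((1 + Real.exp (-c)) ^ k)) :=
    measurable_from_top
  exact h1.comp (MFc_measurable_gcount M v nu Good hm X m x)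

private theorem MFc_measurable_mfX (v : ℝ) (X : S → ℝ) (n : ℕ) :
    Measurable (fun ω : ℕ → S → ℝ => M.mf X (sc v ω) n) := by
  refine measurable_pi_lambda _ fun y => ?_
  exact (measurable_mf M n y).comp (measurable_const.prodMk (MFc_measurable_sc v))

/-- exchange of the weights with a kernel of the next block -/
private theorem MFc_tower (v η c : ℝ) (nu : ℕ) (Good : (S → ℝ) → (ℕ → S → ℝ) → S → Prop)
    (hm : ∀ z, MeasurableSet {p : (S → ℝ) × (ℕ → S → ℝ) | Good p.1 p.2 z})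
    (X : S → ℝ) (m : ℕ)
    (H : ∀ (x : S) (ψ : (S → ℝ) → ℝ≥0∞), Measurable ψ →
      ∫⁻ ω, MFc_wt M v η c nu Good X m x ω * ψ (M.mf X (sc v ω) (m * nu)) ∂(PI (nz S))
      ≤ ∫⁻ ω, ψ (M.mf X (sc v ω) (m * nu)) ∂(PI (nz S)))
    (K : S → (S → ℝ) × (ℕ → S → ℝ) → ℝ≥0∞) (hK : ∀ z, Measurable (K z)) :
    ∫⁻ a, ∫⁻ b, ∑ z, MFc_wt M v η c nu Good X m z a * K z (M.mf X (sc v a) (m * nu), b)
        ∂(PI (nz S)) ∂(PI (nz S))
      ≤ ∫⁻ a, ∫⁻ b, ∑ z, K z (M.mf X (sc v a) (m * nu), b) ∂(PI (nz S)) ∂(PI (nz S)) := by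
  have hKb : ∀ (z : S) (A : S → ℝ), Measurable (fun b : ℕ → S → ℝ => K z (A, b)) := fun z A =>
    (hK z).comp (measurable_const.prodMk measurable_id)
  have hκ : ∀ z : S, Measurable (fun A : S → ℝ => ∫⁻ b, K z (A, b) ∂(PI (nz S))) := fun z =>
    (hK z).lintegral_prod_right'
  have hw := fun z : S => MFc_measurable_wt M v η c nu Good hm X m z
  have e1 : ∀ a : ℕ → S → ℝ, ∫⁻ b, ∑ z, MFc_wt M v η c nu Good X m z a *
      K z (M.mf X (sc v a) (m * nu), b) ∂(PI (nz S)) =
      ∑ z, MFc_wt M v η c nu Good X m z a *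
        ∫⁻ b, K z (M.mf X (sc v a) (m * nu), b) ∂(PI (nz S)) := by
    intro a
    rw [lintegral_finsetSum]
    · refine Finset.sum_congr rfl fun z _ => ?_
      rw [lintegral_const_mul _ (hKb z _)]
    · intro z _
      exact (hKb z _).const_mul _
  have e2 : ∀ a : ℕ → S → ℝ, ∫⁻ b, ∑ z, K z (M.mf X (sc v a) (m * nu), b) ∂(PI (nz S)) =
      ∑ z, ∫⁻ b, K z (M.mf X (sc v a) (m * nu), b) ∂(PI (nz S)) := by
    intro a
    rw [lintegral_finsetSum]
    intro z _
    exact hKb z _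
  simp only [e1, e2]
  rw [lintegral_finsetSum, lintegral_finsetSum]
  · exact Finset.sum_le_sum fun z _ => H z _ (hκ z)
  · intro z _
    exact (hκ z).comp (MFc_measurable_mfX M v X (m * nu))
  · intro z _
    exact (hw z).mul ((hκ z).comp (MFc_measurable_mfX M v X (m * nu)))

private theorem MFc_weights (v η c : ℝ) (nu : ℕ) (Good : (S → ℝ) → (ℕ → S → ℝ) → S → Prop)
    (hm : ∀ z, MeasurableSet {p : (S → ℝ) × (ℕ → S → ℝ) | Good p.1 p.2 z})
    (hG : ∀ F z ω ω', (∀ j, j < nu → ω j = ω' j) → (Good F ω z ↔ Good F ω' z))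
    (hF : Flip M v η c nu Good) (X : S → ℝ) (hX : ∀ z, X z ≤ 0) (m : ℕ) :
    ∀ (x : S) (ψ : (S → ℝ) → ℝ≥0∞), Measurable ψ →
    ∫⁻ ω, MFc_wt M v η c nu Good X m x ω * ψ (M.mf X (sc v ω) (m * nu)) ∂(PI (nz S))
      ≤ ∫⁻ ω, ψ (M.mf X (sc v ω) (m * nu)) ∂(PI (nz S)) := by
  classical
  induction m with
  | zero =>
    intro x ψ hψ
    refine lintegral_mono fun ω => ?_
    have h1 : MFc_wt M v η c nu Good X 0 x ω ≤ 1 := by
      unfold MFc_wt
      refine (Set.indicator_le_self _ _ _).trans ?_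
      simp [gcount]
    calc MFc_wt M v η c nu Good X 0 x ω * ψ (M.mf X (sc v ω) (0 * nu))
        ≤ 1 * ψ (M.mf X (sc v ω) (0 * nu)) := mul_le_mul_left h1 _
      _ = ψ (M.mf X (sc v ω) (0 * nu)) := one_mul _
  | succ m ih =>
    intro x ψ hψ
    -- kernel of the last window
    set q : ℝ≥0∞ := ENNReal.ofReal (Real.exp (-c)) with hq
    set K : S → (S → ℝ) × (ℕ → S → ℝ) → ℝ≥0∞ := fun z p =>
      Set.indicator {p : (S → ℝ) × (ℕ → S → ℝ) | M.uncut η p.1 (sc v p.2) nu 0 x ∧
          M.lin p.1 (sc v p.2) nu x nu = z}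
        (fun p => (1 + Set.indicator {p : (S → ℝ) × (ℕ → S → ℝ) | Good p.1 p.2 z}
          (fun _ => q) p) * ψ (M.mf p.1 (sc v p.2) nu)) p with hKdef
    have hpair : Measurable (fun p : (S → ℝ) × (ℕ → S → ℝ) => (p.1, sc v p.2)) :=
      measurable_fst.prodMk ((MFc_measurable_sc v).comp measurable_snd)
    have hmfp : Measurable (fun p : (S → ℝ) × (ℕ → S → ℝ) => M.mf p.1 (sc v p.2) nu) :=
      measurable_pi_lambda _ fun y => (measurable_mf M nu y).comp hpair
    have hSu : MeasurableSet {p : (S → ℝ) × (ℕ → S → ℝ) | M.uncut η p.1 (sc v p.2) nu 0 x} :=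
      hpair (measurableSet_uncut M η nu 0 x)
    have hSl : ∀ z, MeasurableSet {p : (S → ℝ) × (ℕ → S → ℝ) |
        M.lin p.1 (sc v p.2) nu x nu = z} := fun z =>
      hpair (measurableSet_lin M nu x nu z)
    have hK : ∀ z, Measurable (K z) := by
      intro z
      refine Measurable.indicator ?_ (hSu.inter (hSl z))
      exact (measurable_const.add (measurable_const.indicator (hm z))).mul (hψ.comp hmfp)
    have hmul : (m + 1) * nu = m * nu + nu := by ring
    have hpos : (0 : ℝ) ≤ 1 + Real.exp (-c) := by positivity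
    -- the integrand splits
    have hsplit : ∀ a b : ℕ → S → ℝ,
        MFc_wt M v η c nu Good X (m + 1) x (glue (m * nu) a b) *
          ψ (M.mf X (sc v (glue (m * nu) a b)) ((m + 1) * nu)) =
        ∑ z, MFc_wt M v η c nu Good X m z a * K z (M.mf X (sc v a) (m * nu), b) := by
      intro a b
      set A := M.mf X (sc v a) (m * nu) with hA
      set z0 := M.lin A (sc v b) nu x nu with hz0
      have hmf : M.mf X (sc v (glue (m * nu) a b)) (m * nu) = A :=
        mf_congr M X _ _ (m * nu) (fun j hj => MFc_sc_glue_lt v (m * nu) a b j hj)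
      have hmf2 : M.mf X (sc v (glue (m * nu) a b)) ((m + 1) * nu) = M.mf A (sc v b) nu := by
        rw [hmul, mf_shift, hmf, MFc_sc_glue_ge]
      have hlin : M.lin X (sc v (glue (m * nu) a b)) (m * nu + nu) x nu = z0 := by
        rw [lin_shift' M X _ (m * nu) nu x nu le_rfl, hmf, MFc_sc_glue_ge]
      have hunc : M.uncut η X (sc v (glue (m * nu) a b)) ((m + 1) * nu) 0 x ↔
          (M.uncut η A (sc v b) nu 0 x ∧ M.uncut η X (sc v a) (m * nu) 0 z0) := by
        rw [hmul, uncut_split M η X _ (m * nu) nu x, hlin, hmf, MFc_sc_glue_ge,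
          MFc_uncut_congr M η X _ (sc v a) (m * nu) 0 z0
            (fun j hj => MFc_sc_glue_lt v (m * nu) a b j hj)]
      have hgc := gcount_succ M v nu Good hG X a b m x
      rw [← hA, ← hz0] at hgc
      rw [Finset.sum_eq_single z0]
      · -- main term
        have hK0 : K z0 (A, b) = Set.indicator {b : ℕ → S → ℝ | M.uncut η A (sc v b) nu 0 x}
            (fun b => (1 + if Good A b z0 then q else 0) * ψ (M.mf A (sc v b) nu)) b := by
          simp only [hKdef, Set.indicator, Set.mem_ofPred_eq]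
          by_cases hu : M.uncut η A (sc v b) nu 0 x
          · rw [if_pos ⟨hu, rfl⟩, if_pos hu]
          · rw [if_neg (fun h => hu h.1), if_neg hu]
        rw [hK0, hmf2]
        unfold MFc_wt
        simp only [Set.indicator, Set.mem_ofPred_eq]
        by_cases hu : M.uncut η A (sc v b) nu 0 x
        · by_cases hu2 : M.uncut η X (sc v a) (m * nu) 0 z0
          · rw [if_pos (hunc.mpr ⟨hu, hu2⟩), if_pos hu, if_pos hu2, hgc]
            by_cases hgood : Good A b z0
            · rw [if_pos hgood, if_pos hgood, pow_succ,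
                ENNReal.ofReal_mul (pow_nonneg hpos _),
                ENNReal.ofReal_add zero_le_one (Real.exp_pos _).le, ENNReal.ofReal_one, mul_assoc]
            · rw [if_neg hgood, if_neg hgood, add_zero, add_zero, one_mul]
          · rw [if_neg (fun h => hu2 (hunc.mp h).2), if_neg hu2, zero_mul, zero_mul]
        · rw [if_neg (fun h => hu (hunc.mp h).1), if_neg hu, zero_mul, mul_zero]
      · intro z _ hz
        have : K z (A, b) = 0 := by
          simp only [hKdef, Set.indicator, Set.mem_ofPred_eq]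
          rw [if_neg]
          rintro ⟨_, h⟩
          exact hz h.symm
        rw [this, mul_zero]
      · intro h
        exact absurd (Finset.mem_univ _) h
    -- the sum of the kernels
    have hsum : ∀ A : S → ℝ, (∀ z, A z ≤ 0) →
        ∫⁻ b, ∑ z, K z (A, b) ∂(PI (nz S)) ≤ ∫⁻ b, ψ (M.mf A (sc v b) nu) ∂(PI (nz S)) := by
      intro A hA
      have hAb : Measurable (fun b : ℕ → S → ℝ => (A, b)) := measurable_const.prodMk measurable_id
      have hψb : Measurable (fun b : ℕ → S → ℝ => ψ (M.mf A (sc v b) nu)) :=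
        (hψ.comp hmfp).comp hAb
      have hSuA : MeasurableSet {b : ℕ → S → ℝ | M.uncut η A (sc v b) nu 0 x} := hAb hSu
      have hSg : MeasurableSet {b : ℕ → S → ℝ | M.uncut η A (sc v b) nu 0 x ∧
          Good A b (M.lin A (sc v b) nu x nu)} := by
        have hset : {b : ℕ → S → ℝ | M.uncut η A (sc v b) nu 0 x ∧
            Good A b (M.lin A (sc v b) nu x nu)} =
            {b : ℕ → S → ℝ | M.uncut η A (sc v b) nu 0 x} ∩ ⋃ z : S,
              ({b | M.lin A (sc v b) nu x nu = z} ∩ {b | Good A b z}) := by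
          ext b
          simp only [Set.mem_ofPred_eq, Set.mem_inter_iff, Set.mem_iUnion]
          constructor
          · rintro ⟨h1, h2⟩
            exact ⟨h1, _, rfl, h2⟩
          · rintro ⟨h1, z, h2, h3⟩
            refine ⟨h1, ?_⟩
            rw [h2]
            exact h3
        rw [hset]
        exact hSuA.inter (MeasurableSet.iUnion fun z => (hAb (hSl z)).inter (hAb (hm z)))
      have hpt : ∀ b : ℕ → S → ℝ, ∑ z, K z (A, b) =
          Set.indicator {b : ℕ → S → ℝ | M.uncut η A (sc v b) nu 0 x}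
            (fun b => ψ (M.mf A (sc v b) nu)) b +
          q * Set.indicator {b : ℕ → S → ℝ | M.uncut η A (sc v b) nu 0 x ∧
            Good A b (M.lin A (sc v b) nu x nu)} (fun b => ψ (M.mf A (sc v b) nu)) b := by
        intro b
        rw [Finset.sum_eq_single (M.lin A (sc v b) nu x nu)]
        · simp only [hKdef, Set.indicator, Set.mem_ofPred_eq]
          by_cases hu : M.uncut η A (sc v b) nu 0 x
          · by_cases hgood : Good A b (M.lin A (sc v b) nu x nu)
            · rw [if_pos ⟨hu, trivial⟩, if_pos hgood, if_pos hu, if_pos ⟨hu, hgood⟩, add_mul, one_mul]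
            · rw [if_pos ⟨hu, trivial⟩, if_neg hgood, if_pos hu, if_neg (fun h => hgood h.2), add_zero,
                one_mul, mul_zero, add_zero]
          · rw [if_neg (fun h => hu h.1), if_neg hu, if_neg (fun h => hu h.1), mul_zero, add_zero]
        · intro z _ hz
          simp only [hKdef, Set.indicator, Set.mem_ofPred_eq]
          rw [if_neg]
          rintro ⟨_, h⟩
          exact hz h.symm
        · intro h
          exact absurd (Finset.mem_univ _) h
      simp only [hpt]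
      rw [lintegral_add_left (hψb.indicator hSuA), lintegral_const_mul _ (hψb.indicator hSg)]
      have hflip := hF A hA x ψ hψ
      have hqe : q * ENNReal.ofReal (Real.exp c) = 1 := by
        rw [hq, ← ENNReal.ofReal_mul (Real.exp_pos _).le, ← Real.exp_add, neg_add_cancel,
          Real.exp_zero, ENNReal.ofReal_one]
      calc _ ≤ ∫⁻ b, Set.indicator {b : ℕ → S → ℝ | M.uncut η A (sc v b) nu 0 x}
            (fun b => ψ (M.mf A (sc v b) nu)) b ∂(PI (nz S)) +
            q * (ENNReal.ofReal (Real.exp c) *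
              ∫⁻ b, Set.indicator {b : ℕ → S → ℝ | ¬ M.uncut η A (sc v b) nu 0 x}
              (fun b => ψ (M.mf A (sc v b) nu)) b ∂(PI (nz S))) := by
              gcongr
        _ = ∫⁻ b, Set.indicator {b : ℕ → S → ℝ | M.uncut η A (sc v b) nu 0 x}
            (fun b => ψ (M.mf A (sc v b) nu)) b ∂(PI (nz S)) +
              ∫⁻ b, Set.indicator {b : ℕ → S → ℝ | ¬ M.uncut η A (sc v b) nu 0 x}
              (fun b => ψ (M.mf A (sc v b) nu)) b ∂(PI (nz S)) := by
              rw [← mul_assoc, hqe, one_mul]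
        _ = ∫⁻ b, ψ (M.mf A (sc v b) nu) ∂(PI (nz S)) := by
              rw [← lintegral_add_left (hψb.indicator hSuA)]
              refine lintegral_congr fun b => ?_
              simp only [Set.indicator, Set.mem_ofPred_eq]
              by_cases hu : M.uncut η A (sc v b) nu 0 x
              · rw [if_pos hu, if_neg (not_not.mpr hu), add_zero]
              · rw [if_neg hu, if_pos hu, zero_add]
    have hmeasL : Measurable (fun ω : ℕ → S → ℝ => MFc_wt M v η c nu Good X (m + 1) x ω *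
        ψ (M.mf X (sc v ω) ((m + 1) * nu))) :=
      (MFc_measurable_wt M v η c nu Good hm X (m + 1) x).mul
        (hψ.comp (MFc_measurable_mfX M v X ((m + 1) * nu)))
    have hmeasR : Measurable (fun ω : ℕ → S → ℝ => ψ (M.mf X (sc v ω) ((m + 1) * nu))) :=
      hψ.comp (MFc_measurable_mfX M v X ((m + 1) * nu))
    rw [lintegral_glue (m * nu) _ hmeasL, lintegral_glue (m * nu) _ hmeasR]
    simp only [hsplit]
    refine (MFc_tower M v η c nu Good hm X m ih K hK).trans ?_
    refine lintegral_mono fun a => ?_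
    refine (hsum _ (fun z => mf_nonpos M X hX (sc v a) (m * nu) z)).trans ?_
    refine lintegral_mono fun b => ?_
    refine le_of_eq ?_
    congr 1
    rw [hmul, mf_shift, MFc_sc_glue_ge,
      mf_congr M X _ (sc v a) (m * nu) (fun j hj => MFc_sc_glue_lt v (m * nu) a b j hj)]

theorem weights (v η c : ℝ) (nu : ℕ) (Good : (S → ℝ) → (ℕ → S → ℝ) → S → Prop)
    (hm : ∀ z, MeasurableSet {p : (S → ℝ) × (ℕ → S → ℝ) | Good p.1 p.2 z})
    (hG : ∀ F z ω ω', (∀ j, j < nu → ω j = ω' j) → (Good F ω z ↔ Good F ω' z))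
    (hF : Flip M v η c nu Good) (X : S → ℝ) (hX : ∀ z, X z ≤ 0) (m : ℕ) (x : S)
    (ψ : (S → ℝ) → ℝ≥0∞) (hψ : Measurable ψ) :
    ∫⁻ ω, Set.indicator {ω | M.uncut η X (sc v ω) (m * nu) 0 x}
        (fun ω => ENNReal.ofReal ((1 + Real.exp (-c)) ^ gcount M v nu Good X ω m x) *
          ψ (M.mf X (sc v ω) (m * nu))) ω ∂(PI (nz S))
      ≤ ∫⁻ ω, ψ (M.mf X (sc v ω) (m * nu)) ∂(PI (nz S)) := by
  classical
  refine le_trans (le_of_eq ?_) (MFc_weights M v η c nu Good hm hG hF X hX m x ψ hψ)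
  refine lintegral_congr fun ω => ?_
  unfold MFc_wt
  simp only [Set.indicator]
  split_ifs
  · rfl
  · rw [zero_mul]

/-- an uncut lineage with at least `r` good windows is unlikely -/
theorem good_few (v η c : ℝ) (nu : ℕ) (Good : (S → ℝ) → (ℕ → S → ℝ) → S → Prop)
    (hm : ∀ z, MeasurableSet {p : (S → ℝ) × (ℕ → S → ℝ) | Good p.1 p.2 z})
    (hG : ∀ F z ω ω', (∀ j, j < nu → ω j = ω' j) → (Good F ω z ↔ Good F ω' z))
    (hF : Flip M v η c nu Good) (X : S → ℝ) (hX : ∀ z, X z ≤ 0) (m r' r : ℕ) (x : S) :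
    PI (nz S) {ω | M.uncut η X (sc v ω) (m * nu + r') 0 x ∧
        r ≤ gcount M v nu Good X ω m (M.lin X (sc v ω) (m * nu + r') x r')}
      ≤ ENNReal.ofReal ((1 + Real.exp (-c))⁻¹ ^ r) := by
  classical
  have hpos : (0 : ℝ) < 1 + Real.exp (-c) := by positivity
  have hone : (1 : ℝ) ≤ 1 + Real.exp (-c) := by linarith [Real.exp_pos (-c)]
  have hX1 : Measurable (fun ω : ℕ → S → ℝ => (X, sc v ω)) :=
    measurable_const.prodMk (MFc_measurable_sc v)
  have hE : MeasurableSet {ω : ℕ → S → ℝ | M.uncut η X (sc v ω) (m * nu + r') 0 x ∧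
        r ≤ gcount M v nu Good X ω m (M.lin X (sc v ω) (m * nu + r') x r')} := by
    have hset : {ω : ℕ → S → ℝ | M.uncut η X (sc v ω) (m * nu + r') 0 x ∧
        r ≤ gcount M v nu Good X ω m (M.lin X (sc v ω) (m * nu + r') x r')} =
        {ω : ℕ → S → ℝ | M.uncut η X (sc v ω) (m * nu + r') 0 x} ∩ ⋃ z : S,
          ({ω | M.lin X (sc v ω) (m * nu + r') x r' = z} ∩
            {ω | r ≤ gcount M v nu Good X ω m z}) := by
      ext ω
      simp only [Set.mem_ofPred_eq, Set.mem_inter_iff, Set.mem_iUnion]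
      constructor
      · rintro ⟨h1, h2⟩
        exact ⟨h1, _, rfl, h2⟩
      · rintro ⟨h1, z, h2, h3⟩
        refine ⟨h1, ?_⟩
        rw [h2]
        exact h3
    rw [hset]
    refine (MFc_measurableSet_unc M v η X (m * nu + r') x).inter
      (MeasurableSet.iUnion fun z => MeasurableSet.inter ?_ ?_)
    · exact hX1 (measurableSet_lin M (m * nu + r') x r' z)
    · exact measurableSet_le measurable_const (MFc_measurable_gcount M v nu Good hm X m z)
  set K : S → (S → ℝ) × (ℕ → S → ℝ) → ℝ≥0∞ := fun z p =>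
      Set.indicator {p : (S → ℝ) × (ℕ → S → ℝ) | M.lin p.1 (sc v p.2) r' x r' = z}
        (fun _ => ENNReal.ofReal ((1 + Real.exp (-c))⁻¹ ^ r)) p with hKdef
  have hpair : Measurable (fun p : (S → ℝ) × (ℕ → S → ℝ) => (p.1, sc v p.2)) :=
    measurable_fst.prodMk ((MFc_measurable_sc v).comp measurable_snd)
  have hSl : ∀ z, MeasurableSet {p : (S → ℝ) × (ℕ → S → ℝ) |
      M.lin p.1 (sc v p.2) r' x r' = z} := fun z =>
    hpair (measurableSet_lin M r' x r' z)
  have hK : ∀ z, Measurable (K z) := fun z => measurable_const.indicator (hSl z)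
  rw [← lintegral_indicator_one hE, lintegral_glue (m * nu) _ (measurable_one.indicator hE)]
  have hpt : ∀ a b : ℕ → S → ℝ,
      Set.indicator {ω : ℕ → S → ℝ | M.uncut η X (sc v ω) (m * nu + r') 0 x ∧
        r ≤ gcount M v nu Good X ω m (M.lin X (sc v ω) (m * nu + r') x r')}
        (1 : (ℕ → S → ℝ) → ℝ≥0∞) (glue (m * nu) a b) ≤
      ∑ z, MFc_wt M v η c nu Good X m z a * K z (M.mf X (sc v a) (m * nu), b) := by
    intro a b
    set A := M.mf X (sc v a) (m * nu) with hA
    set z0 := M.lin A (sc v b) r' x r' with hz0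
    have hmf : M.mf X (sc v (glue (m * nu) a b)) (m * nu) = A :=
      mf_congr M X _ _ (m * nu) (fun j hj => MFc_sc_glue_lt v (m * nu) a b j hj)
    have hlin : M.lin X (sc v (glue (m * nu) a b)) (m * nu + r') x r' = z0 := by
      rw [lin_shift' M X _ (m * nu) r' x r' le_rfl, hmf, MFc_sc_glue_ge]
    have hgc : gcount M v nu Good X (glue (m * nu) a b) m z0 = gcount M v nu Good X a m z0 :=
      MFc_gcount_congr M v nu Good hG X _ _ m z0 (fun j hj => by simp only [glue, if_pos hj])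
    refine Set.indicator_apply_le' (fun hmem => ?_) (fun _ => zero_le)
    obtain ⟨hu, hr⟩ := hmem
    have hu' : M.uncut η X (sc v (glue (m * nu) a b)) (m * nu + r') 0 x := hu
    have hr' : r ≤ gcount M v nu Good X (glue (m * nu) a b) m
      (M.lin X (sc v (glue (m * nu) a b)) (m * nu + r') x r') := hr
    rw [hlin, hgc] at hr'
    have hu2 := ((uncut_split M η X _ (m * nu) r' x).mp hu').2
    rw [hlin, MFc_uncut_congr M η X _ (sc v a) (m * nu) 0 z0
            (fun j hj => MFc_sc_glue_lt v (m * nu) a b j hj)] at hu2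
    have hterm : (1 : ℝ≥0∞) ≤ MFc_wt M v η c nu Good X m z0 a * K z0 (A, b) := by
      unfold MFc_wt
      simp only [hKdef, Set.indicator, Set.mem_ofPred_eq]
      rw [if_pos hu2, if_pos hz0.symm, ← ENNReal.ofReal_mul (pow_nonneg hpos.le _),
        ← ENNReal.ofReal_one]
      refine ENNReal.ofReal_le_ofReal ?_
      rw [inv_pow]
      rw [← div_eq_mul_inv, le_div_iff₀ (pow_pos hpos _), one_mul]
      exact pow_le_pow_right₀ hone hr'
    exact hterm.trans (Finset.single_le_sum (f := fun z => MFc_wt M v η c nu Good X m z a *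
      K z (A, b)) (fun _ _ => zero_le) (Finset.mem_univ z0))
  calc ∫⁻ a, ∫⁻ b, Set.indicator {ω : ℕ → S → ℝ | M.uncut η X (sc v ω) (m * nu + r') 0 x ∧
        r ≤ gcount M v nu Good X ω m (M.lin X (sc v ω) (m * nu + r') x r')}
        (1 : (ℕ → S → ℝ) → ℝ≥0∞) (glue (m * nu) a b) ∂(PI (nz S)) ∂(PI (nz S))
      ≤ ∫⁻ a, ∫⁻ b, ∑ z, MFc_wt M v η c nu Good X m z a * K z (M.mf X (sc v a) (m * nu), b)
          ∂(PI (nz S)) ∂(PI (nz S)) := lintegral_mono fun a => lintegral_mono fun b => hpt a b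
    _ ≤ ∫⁻ a, ∫⁻ b, ∑ z, K z (M.mf X (sc v a) (m * nu), b) ∂(PI (nz S)) ∂(PI (nz S)) :=
        MFc_tower M v η c nu Good hm X m
          (MFc_weights M v η c nu Good hm hG hF X hX m) K hK
    _ = ∫⁻ a, ∫⁻ b, ENNReal.ofReal ((1 + Real.exp (-c))⁻¹ ^ r) ∂(PI (nz S)) ∂(PI (nz S)) := by
        refine lintegral_congr fun a => lintegral_congr fun b => ?_
        rw [Finset.sum_eq_single (M.lin (M.mf X (sc v a) (m * nu)) (sc v b) r' x r')]
        · simp only [hKdef, Set.indicator, Set.mem_ofPred_eq]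
          rw [if_pos trivial]
        · intro z _ hz
          simp only [hKdef, Set.indicator, Set.mem_ofPred_eq]
          rw [if_neg (fun h => hz h.symm)]
        · intro h
          exact absurd (Finset.mem_univ _) h
    _ = ENNReal.ofReal ((1 + Real.exp (-c))⁻¹ ^ r) := by
        simp only [lintegral_const, measure_univ, mul_one]

end DynC

end
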