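import Pool.Agent.Lib_MP_36b788.ShDefs
import Pool.Agent.Lib_MP_36b788_m.M21

/-!
# MP_36b788_pr, stationary limit: merged library part M22

Concatenation of smaller files (each in its own section), only to save build time.
-/

/-! ### from `Lib_MP_36b788.SdeG` -/

section

/-!
# SDEG: Gaussian matrices times a vector

PROOF. Both sides are laws on `ι → E N` with independent coordinates, the coordinate `x` having law
`N(0, h‖G_x‖² I)`. Left: `(mulv (b_x) G_x)_x`, independent over `x` because `b_x` are (`iIndepFun` grouped by the first index: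
`iIndepFun.finsets_comp` or `iIndepFun.pi`/`indepFun_finset`…). Simplest way: compare characteristic functions of
the laws on `ι → E N` (finite dimensional; `Measure.ext_of_charFun` in `EuclideanSpace`/`PiLp`, or
`Measure.ext_of_charFunDual`): for `u : ι → E N`
`E exp(i Σ_x⟪u_x, mulv b_x G_x⟫) = Π_{x,i,j} E exp(i u_{x,i}G_{x,j} b_{x,i,j}) = Π exp(-½h u_{x,i}²G_{x,j}²)
= exp(-½hΣ_x‖u_x‖²‖G_x‖²)` (`iIndepFun.integral_fun_prod…`, `charFun_gaussianReal`), and
`E exp(iΣ_x⟪u_x, √h‖G_x‖ξ_x⟫) = Π_x charFun(stdGaussian)(√h‖G_x‖u_x)` = the same (`charFun_stdGaussian`,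
`integral_fintype_prod_eq_prod`).
-/

open MeasureTheory ProbabilityTheory
open scoped NNReal ENNReal Topology

namespace Dyn

private theorem SdeG_meas {Ω : Type} [MeasurableSpace Ω] {ι : Type} [Fintype ι] {N : ℕ}
    (b : ι → Fin N → Fin N → Ω → ℝ) (hm : ∀ x i j, Measurable (b x i j)) (G : ι → E N) :
    Measurable (fun ω (x : ι) => mulv (fun i j => b x i j ω) (G x)) := by
  refine measurable_pi_lambda _ fun x => ?_
  unfold mulv
  have h1 : Measurable (fun ω (i : Fin N) => ∑ j, b x i j ω * G x j) := by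
    refine measurable_pi_lambda _ fun i => ?_
    exact Finset.measurable_fun_sum _ fun j _ => (hm x i j).mul_const _
  exact (WithLp.measurable_toLp 2 (Fin N → ℝ)).comp h1

theorem gauss_step {Ω : Type} [MeasurableSpace Ω] {P : Measure Ω} [IsProbabilityMeasure P]
    {ι : Type} [Fintype ι] {N : ℕ} (b : ι → Fin N → Fin N → Ω → ℝ) (h : ℝ≥0)
    (hm : ∀ x i j, Measurable (b x i j)) (hl : ∀ x i j, P.map (b x i j) = gaussianReal 0 h)
    (hi : iIndepFun (fun (q : ι × Fin N × Fin N) ω => b q.1 q.2.1 q.2.2 ω) P) (G : ι → E N) :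
    P.map (fun ω (x : ι) => mulv (fun i j => b x i j ω) (G x)) =
      (Measure.pi (fun _ : ι => stdGaussian (E N))).map
        (fun ξ (x : ι) => (Real.sqrt h * ‖G x‖) • ξ x) := by
  classical
  have hmeas := SdeG_meas b hm G
  have hp1 : (Measure.pi (fun _ : ι => stdGaussian (E N))).map
        (fun ξ (x : ι) => (Real.sqrt h * ‖G x‖) • ξ x)
      = Measure.pi (fun x => (stdGaussian (E N)).map (fun v => (Real.sqrt h * ‖G x‖) • v)) := by
    refine Measure.pi_map_pi (f := fun x (v : E N) => (Real.sqrt h * ‖G x‖) • v) fun x => ?_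
    fun_prop
  rw [hp1]
  have : IsProbabilityMeasure (P.map (fun ω (x : ι) => mulv (fun i j => b x i j ω) (G x))) :=
    Measure.isProbabilityMeasure_map hmeas.aemeasurable
  have : ∀ x, IsProbabilityMeasure ((stdGaussian (E N)).map
      (fun v => (Real.sqrt h * ‖G x‖) • v)) := fun x =>
    Measure.isProbabilityMeasure_map (by fun_prop)
  refine charFun_eq_pi_iff.1 fun t => ?_
  rw [charFun_apply, integral_map (by fun_prop) (by fun_prop), integral_map hmeas.aemeasurable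
    (by fun_prop)]
  have e1 : ∀ ω, Complex.exp (((inner ℝ (WithLp.toLp 2 (fun (x : ι) =>
        mulv (fun i j => b x i j ω) (G x))) t : ℝ) : ℂ) * Complex.I)
      = ∏ q : ι × Fin N × Fin N, Complex.exp (((b q.1 q.2.1 q.2.2 ω *
        (G q.1 q.2.2 * t q.1 q.2.1) : ℝ) : ℂ) * Complex.I) := by
    intro ω
    rw [← Complex.exp_sum]
    congr 1
    rw [← Finset.sum_mul]
    congr 1
    rw [← Complex.ofReal_sum]
    congr 1
    rw [PiLp.inner_apply, Fintype.sum_prod_type]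
    refine Finset.sum_congr rfl fun x _ => ?_
    rw [PiLp.inner_apply, Fintype.sum_prod_type]
    refine Finset.sum_congr rfl fun i _ => ?_
    simp only [mulv, RCLike.inner_apply, conj_trivial]
    rw [Finset.mul_sum]
    exact Finset.sum_congr rfl fun j _ => by ring
  simp_rw [e1]
  have e2 := hi.integral_fun_prod_comp (f := fun q (y : ℝ) => Complex.exp (((y *
        (G q.1 q.2.2 * t q.1 q.2.1) : ℝ) : ℂ) * Complex.I))
        (fun q => (hm q.1 q.2.1 q.2.2).aemeasurable) (fun q => by fun_prop)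
  rw [e2]
  have e3 : ∀ q : ι × Fin N × Fin N, ∫ ω, Complex.exp (((b q.1 q.2.1 q.2.2 ω *
        (G q.1 q.2.2 * t q.1 q.2.1) : ℝ) : ℂ) * Complex.I) ∂P
      = Complex.exp ((-(h * (G q.1 q.2.2 ^ 2 * t q.1 q.2.1 ^ 2) / 2) : ℝ) : ℂ) := by
    intro q
    have e4 := charFun_gaussianReal (μ := 0) (v := h) (G q.1 q.2.2 * t q.1 q.2.1)
    rw [← hl q.1 q.2.1 q.2.2, charFun_apply, integral_map (hm q.1 q.2.1 q.2.2).aemeasurable
      (by fun_prop)] at e4
    simp only [RCLike.inner_apply, conj_trivial] at e4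
    rw [show (fun ω => Complex.exp (((b q.1 q.2.1 q.2.2 ω *
        (G q.1 q.2.2 * t q.1 q.2.1) : ℝ) : ℂ) * Complex.I)) = fun ω => Complex.exp
        (((G q.1 q.2.2 * t q.1 q.2.1 * b q.1 q.2.1 q.2.2 ω : ℝ) : ℂ) * Complex.I) from
      funext fun ω => by rw [mul_comm (b q.1 q.2.1 q.2.2 ω)], e4]
    congr 1
    push_cast
    ring
  rw [Finset.prod_congr rfl fun q _ => e3 q]
  have e5 : ∀ x, charFun ((stdGaussian (E N)).map (fun v => (Real.sqrt h * ‖G x‖) • v)) (t x)
      = Complex.exp ((-(h * (‖G x‖ ^ 2 * ‖t x‖ ^ 2) / 2) : ℝ) : ℂ) := by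
    intro x
    rw [charFun_map_smul, charFun_stdGaussian]
    congr 1
    rw [norm_smul, Real.norm_eq_abs, abs_of_nonneg (by positivity)]
    have e6 : (Real.sqrt h * ‖G x‖ * ‖t x‖) ^ 2 = h * (‖G x‖ ^ 2 * ‖t x‖ ^ 2) := by
      have e7 : Real.sqrt (h : ℝ) ^ 2 = h := Real.sq_sqrt (NNReal.coe_nonneg h)
      rw [mul_pow, mul_pow, e7]
      ring
    rw [← e6]
    push_cast
    ring
  rw [Finset.prod_congr rfl fun x _ => e5 x, ← Complex.exp_sum, ← Complex.exp_sum,
    ← Complex.ofReal_sum, ← Complex.ofReal_sum]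
  congr 2
  rw [Fintype.sum_prod_type]
  refine Finset.sum_congr rfl fun x _ => ?_
  rw [Fintype.sum_prod_type, EuclideanSpace.real_norm_sq_eq, EuclideanSpace.real_norm_sq_eq,
    Finset.sum_mul_sum, Finset.sum_comm]
  simp only [Finset.mul_sum, Finset.sum_div, ← Finset.sum_neg_distrib]

end Dyn

end

/-! ### from `Lib_MP_36b788.SdeInc` -/

section

/-!
# SDEINC: increments of the Wiener matrices; cutting of measurability facts

PROOF. `meas`: adaptB and `ℱ.le`. `law`: `IsPreBrownianReal.hasLaw_sub` (`nndist t s = t - s`). `indep`: `iIndepFun.comp` of `indep`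
with the measurable map `f ↦ f t - f s` on paths (`ℝ≥0 → ℝ` with the product σ-algebra, evaluations are measurable).
`past`: `indepInc`, the σ-algebra generated by the single increment (or by a finite family of increments, i.e. by
`ω ↦ (x, i, j) ↦ B x i j t ω - B x i j s ω`, `x` in a finite set) is coarser than the one of the whole family.
-/

open MeasureTheory ProbabilityTheory
open scoped NNReal ENNReal Topology

namespace Dyn

section
variable {Ω : Type} [mΩ : MeasurableSpace Ω] {P : Measure Ω} {N d : ℕ} {k ε β : ℝ}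
    {ℱ : Filtration ℝ≥0 mΩ} {B : Site d → Fin N → Fin N → ℝ≥0 → Ω → ℝ}
    {H : ℝ≥0 → Site d → Ω → E N}

theorem inc_meas (hH : IsDynamo P k ε β ℱ B H) (s t : ℝ≥0) (hst : s ≤ t) (x : Site d)
    (i j : Fin N) :
    Measurable[ℱ t] (fun ω => B x i j t ω - B x i j s ω) ∧
    Measurable (fun ω => B x i j t ω - B x i j s ω) := by
  have h1 : Measurable[ℱ t] (fun ω => B x i j t ω - B x i j s ω) :=
    (hH.adaptB x i j t).sub ((hH.adaptB x i j s).mono (ℱ.mono hst) le_rfl)
  exact ⟨h1, h1.mono (ℱ.le t) le_rfl⟩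

theorem inc_law (hH : IsDynamo P k ε β ℱ B H) (s t : ℝ≥0) (hst : s ≤ t) (x : Site d)
    (i j : Fin N) :
    P.map (fun ω => B x i j t ω - B x i j s ω) = gaussianReal 0 (t - s) := by
  have h1 := (hH.brownian x i j).toIsPreBrownianReal.hasLaw_sub t s
  have h2 : nndist t s = t - s := by
    rw [nndist_comm]
    ext
    rw [coe_nndist, NNReal.dist_eq, NNReal.coe_sub hst, abs_sub_comm, abs_of_nonneg]
    exact sub_nonneg.2 (by exact_mod_cast hst)
  rw [← h2]
  exact h1.map_eq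

theorem inc_indep (hH : IsDynamo P k ε β ℱ B H) (s t : ℝ≥0) {κ : Type} (g : κ → Site d)
    (hg : Function.Injective g) :
    iIndepFun (fun (q : κ × Fin N × Fin N) ω =>
      B (g q.1) q.2.1 q.2.2 t ω - B (g q.1) q.2.1 q.2.2 s ω) P := by
  have hg' : Function.Injective (fun q : κ × Fin N × Fin N =>
      ((g q.1, q.2.1, q.2.2) : Site d × Fin N × Fin N)) := by
    rintro ⟨x, i, j⟩ ⟨x', i', j'⟩ h
    simp only [Prod.mk.injEq] at h
    obtain ⟨h1, rfl, rfl⟩ := h
    rw [hg h1]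
  have h1 := hH.indep.precomp hg'
  exact h1.comp (fun _ (f : ℝ≥0 → ℝ) => f t - f s)
    (fun _ => (measurable_pi_apply t).sub (measurable_pi_apply s))

/-- every `ℱ s`-measurable function is independent of the increments after `s` -/
theorem inc_past (hH : IsDynamo P k ε β ℱ B H) (s t : ℝ≥0) (hst : s ≤ t) {κ : Type}
    (g : κ → Site d) {α : Type} [MeasurableSpace α] (V : Ω → α) (hV : Measurable[ℱ s] V) :
    IndepFun V (fun ω (q : κ × Fin N × Fin N) =>
      B (g q.1) q.2.1 q.2.2 t ω - B (g q.1) q.2.1 q.2.2 s ω) P := by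
  rw [IndepFun_iff_Indep]
  refine indep_of_indep_of_le_left (indep_of_indep_of_le_right (hH.indepInc s t hst) ?_)
    hV.comap_le
  obtain ⟨F, hF⟩ : ∃ F : Ω → (Site d × Fin N × Fin N → ℝ), F = fun ω q =>
    B q.1 q.2.1 q.2.2 t ω - B q.1 q.2.1 q.2.2 s ω := ⟨_, rfl⟩
  obtain ⟨r, hr⟩ : ∃ r : (Site d × Fin N × Fin N → ℝ) → (κ × Fin N × Fin N → ℝ),
    r = fun f q => f (g q.1, q.2.1, q.2.2) := ⟨_, rfl⟩
  have hrm : Measurable r := by
    rw [hr]
    exact measurable_pi_lambda _ fun q => measurable_pi_apply _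
  have h1 : (fun (ω : Ω) (q : κ × Fin N × Fin N) =>
      B (g q.1) q.2.1 q.2.2 t ω - B (g q.1) q.2.1 q.2.2 s ω) = r ∘ F := by
    rw [hr, hF]
    rfl
  rw [h1, ← hF, ← MeasurableSpace.comap_comp]
  exact MeasurableSpace.comap_mono hrm.comap_le

/-- `mulv` is continuous in both arguments together -/
theorem mulv_continuous (N : ℕ) :
    Continuous (fun q : (Fin N → Fin N → ℝ) × E N => mulv q.1 q.2) := by
  unfold mulv
  refine (PiLp.continuous_toLp 2 _).comp (continuous_pi fun i => ?_)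
  refine continuous_finsetSum _ fun j _ => ?_
  refine Continuous.mul ?_ ?_
  · exact (continuous_apply j).comp ((continuous_apply i).comp continuous_fst)
  · exact (EuclideanSpace.proj (𝕜 := ℝ) j).continuous.comp continuous_snd

theorem mulv_add (b : Fin N → Fin N → ℝ) (v w : E N) : mulv b (v + w) = mulv b v + mulv b w := by
  unfold mulv
  ext i
  simp only [PiLp.add_apply, mul_add, Finset.sum_add_distrib]

theorem mulv_smul (b : Fin N → Fin N → ℝ) (a : ℝ) (v : E N) : mulv b (a • v) = a • mulv b v := by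
  unfold mulv
  ext i
  simp only [PiLp.smul_apply, smul_eq_mul, Finset.mul_sum]
  exact Finset.sum_congr rfl fun j _ => by ring

theorem mulv_add_left (b c : Fin N → Fin N → ℝ) (v : E N) :
    mulv (fun i j => b i j + c i j) v = mulv b v + mulv c v := by
  unfold mulv
  ext i
  simp only [PiLp.add_apply, add_mul, Finset.sum_add_distrib]

theorem mulv_sub_left (b c : Fin N → Fin N → ℝ) (v : E N) :
    mulv (fun i j => b i j - c i j) v = mulv b v - mulv c v := by
  unfold mulv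
  ext i
  simp only [PiLp.sub_apply, sub_mul, Finset.sum_sub_distrib]

end

end Dyn

end

/-! ### from `Lib_MP_36b788.SdeI` -/

section

/-!
# SDEI: isometry for the stochastic Riemann sums

PROOF. `mulv_sq`: `‖mulv b v‖² = Σ_i (Σ_j b_ij v_j)²`; `V` (an `ℱ s`-measurable vector) is independent of the increments
`b_ij = ΔB x i j` (inc_past), which are independent, centred, with variance `t - s` (inc_law, inc_indep); so
`∫(Σ_j b_ij V_j)² = Σ_{j,l}∫b_ij b_il·∫V_jV_l = (t-s)∫‖V‖²`, and the sum over `i` gives `N(t-s)∫‖V‖²`. Integrability of the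
products: `b` and `V` are in `L²` and independent (`IndepFun.integrable_mul`). `∫⟪Z, mulv b V⟫ = Σ_{ij}∫b_ij·∫Z_iV_j = 0`
(`Z_iV_j` is `ℱ s`-measurable and integrable).
`rsum_sq`: the summands `m_i = mulv (B(t_{i+1})-B(t_i)) V_{t_i}` satisfy `∫⟪m_i,m_j⟫ = 0` for `i < j` (third part of mulv_sq with
`Z = m_i`, which is `ℱ t_{i+1}`-measurable and `t_{i+1} ≤ t_j`), so `∫‖Σm_i‖² = Σ∫‖m_i‖² = Σ N(t_{i+1}-t_i)∫‖V_{t_i}‖² ≤ N(t-s)C`.
`Z` is `ℱ s`-measurable hence `ℱ t_i`-measurable: each `∫⟪Z,m_i⟫ = 0`.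
-/

open MeasureTheory ProbabilityTheory
open scoped NNReal ENNReal Topology

namespace Dyn

private theorem SdeI_meas0 {Ω : Type} (m0 : MeasurableSpace Ω) {N : ℕ}
    (b : Fin N → Fin N → Ω → ℝ) (hb : ∀ i j, Measurable (b i j)) (V : Ω → E N)
    (hV : Measurable V) : Measurable (fun ω => mulv (fun i j => b i j ω) (V ω)) := by
  have h1 : Measurable (fun ω => (fun (i j : Fin N) => b i j ω)) :=
    measurable_pi_iff.2 fun i => measurable_pi_iff.2 fun j => hb i j
  exact (mulv_continuous N).measurable.comp (h1.prodMk hV)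

section aux

variable {Ω : Type} [mΩ : MeasurableSpace Ω] {P : Measure Ω} {N d : ℕ} {k ε β : ℝ}
    {ℱ : Filtration ℝ≥0 mΩ} {B : Site d → Fin N → Fin N → ℝ≥0 → Ω → ℝ}
    {H : ℝ≥0 → Site d → Ω → E N}

private theorem SdeI_mom (hH : IsDynamo P k ε β ℱ B H) (s t : ℝ≥0) (hst : s ≤ t) (x : Site d)
    (i j : Fin N) :
    MemLp (fun ω => B x i j t ω - B x i j s ω) 2 P ∧
    ∫ ω, (B x i j t ω - B x i j s ω) ∂P = 0 ∧
    ∫ ω, (B x i j t ω - B x i j s ω) * (B x i j t ω - B x i j s ω) ∂P = (t : ℝ) - s := by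
  have hm := (inc_meas hH s t hst x i j).2
  have hl := inc_law hH s t hst x i j
  have h1 : MemLp (id ∘ fun ω => B x i j t ω - B x i j s ω) 2 P := by
    refine MemLp.comp_of_map ?_ hm.aemeasurable
    rw [hl]
    exact memLp_id_gaussianReal 2
  have h2 : ∫ ω, (B x i j t ω - B x i j s ω) ∂P = 0 := by
    have e := integral_map (μ := P) hm.aemeasurable (f := fun y : ℝ => y) (by fun_prop)
    rw [hl] at e
    rw [← e]
    exact integral_id_gaussianReal
  refine ⟨h1, h2, ?_⟩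
  have e := integral_map (μ := P) hm.aemeasurable (f := fun y : ℝ => y * y) (by fun_prop)
  rw [hl] at e
  rw [← e]
  have h3 := variance_of_integral_eq_zero (X := fun y : ℝ => y) (μ := gaussianReal 0 (t - s))
    (by fun_prop) integral_id_gaussianReal
  have h4 : variance (fun y : ℝ => y) (gaussianReal 0 (t - s)) = ((t - s : ℝ≥0) : ℝ) :=
    variance_fun_id_gaussianReal
  rw [h4] at h3
  have h5 : ∀ y : ℝ, y * y = y ^ 2 := fun y => by ring
  simp only [h5]
  rw [← h3, NNReal.coe_sub hst]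

private theorem SdeI_cov (hH : IsDynamo P k ε β ℱ B H) (s t : ℝ≥0) (hst : s ≤ t) (x : Site d)
    (i j l : Fin N) :
    Integrable (fun ω => (B x i j t ω - B x i j s ω) * (B x i l t ω - B x i l s ω)) P ∧
    ∫ ω, (B x i j t ω - B x i j s ω) * (B x i l t ω - B x i l s ω) ∂P
      = if j = l then (t : ℝ) - s else 0 := by
  have hj := SdeI_mom hH s t hst x i j
  have hl := SdeI_mom hH s t hst x i l
  refine ⟨hj.1.integrable_mul hl.1, ?_⟩
  split_ifs with hjl
  · subst hjl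
    exact hj.2.2
  · have hi := inc_indep hH s t (κ := Unit) (fun _ => x) (fun _ _ _ => rfl)
    have hne : (((), i, j) : Unit × Fin N × Fin N) ≠ ((), i, l) := by
      intro h
      exact hjl (by simpa using h)
    have hij := hi.indepFun hne
    have e := hij.integral_fun_mul_eq_mul_integral hj.1.1 hl.1.1
    refine e.trans ?_
    change (∫ ω, (B x i j t ω - B x i j s ω) ∂P) * _ = 0
    rw [hj.2.1, zero_mul]

private theorem SdeI_mul (hH : IsDynamo P k ε β ℱ B H) (s t : ℝ≥0) (hst : s ≤ t) (x : Site d)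
    (W : Ω → ℝ) (hW : Measurable[ℱ s] W) (hWi : Integrable W P)
    (F : (Unit × Fin N × Fin N → ℝ) → ℝ) (hF : Measurable F)
    (hFi : Integrable (fun ω => F (fun q : Unit × Fin N × Fin N =>
      B x q.2.1 q.2.2 t ω - B x q.2.1 q.2.2 s ω)) P) :
    Integrable (fun ω => F (fun q : Unit × Fin N × Fin N =>
      B x q.2.1 q.2.2 t ω - B x q.2.1 q.2.2 s ω) * W ω) P ∧
    ∫ ω, F (fun q : Unit × Fin N × Fin N => B x q.2.1 q.2.2 t ω - B x q.2.1 q.2.2 s ω) * W ω ∂P
      = (∫ ω, F (fun q : Unit × Fin N × Fin N => B x q.2.1 q.2.2 t ω - B x q.2.1 q.2.2 s ω) ∂P)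
        * ∫ ω, W ω ∂P := by
  have hi := inc_past hH s t hst (κ := Unit) (fun _ => x) W hW
  have hi2 := (hi.comp measurable_id hF).symm
  exact ⟨hi2.integrable_mul hFi hWi,
    hi2.integral_fun_mul_eq_mul_integral hFi.aestronglyMeasurable hWi.aestronglyMeasurable⟩

private theorem SdeI_mul1 (hH : IsDynamo P k ε β ℱ B H) (s t : ℝ≥0) (hst : s ≤ t) (x : Site d)
    (W : Ω → ℝ) (hW : Measurable[ℱ s] W) (hWi : Integrable W P) (i j : Fin N) :
    Integrable (fun ω => (B x i j t ω - B x i j s ω) * W ω) P ∧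
    ∫ ω, (B x i j t ω - B x i j s ω) * W ω ∂P = 0 := by
  haveI := hH.prob
  have hj := SdeI_mom hH s t hst x i j
  have h := SdeI_mul hH s t hst x W hW hWi (fun f => f ((), i, j)) (measurable_pi_apply _)
    (hj.1.integrable (by norm_num))
  refine ⟨h.1, h.2.trans ?_⟩
  change (∫ ω, (B x i j t ω - B x i j s ω) ∂P) * _ = 0
  rw [hj.2.1, zero_mul]

private theorem SdeI_mul2 (hH : IsDynamo P k ε β ℱ B H) (s t : ℝ≥0) (hst : s ≤ t) (x : Site d)
    (W : Ω → ℝ) (hW : Measurable[ℱ s] W) (hWi : Integrable W P) (i j l : Fin N) :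
    Integrable (fun ω => (B x i j t ω - B x i j s ω) * (B x i l t ω - B x i l s ω) * W ω) P ∧
    ∫ ω, (B x i j t ω - B x i j s ω) * (B x i l t ω - B x i l s ω) * W ω ∂P
      = (if j = l then (t : ℝ) - s else 0) * ∫ ω, W ω ∂P := by
  have hj := SdeI_cov hH s t hst x i j l
  have h := SdeI_mul hH s t hst x W hW hWi (fun f => f ((), i, j) * f ((), i, l))
    ((measurable_pi_apply _).mul (measurable_pi_apply _)) hj.1
  refine ⟨h.1, h.2.trans ?_⟩
  change (∫ ω, (B x i j t ω - B x i j s ω) * (B x i l t ω - B x i l s ω) ∂P) * _ = _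
  rw [hj.2]

private theorem SdeI_nsq (b : Fin N → Fin N → ℝ) (v : E N) :
    ‖mulv b v‖ ^ 2 = ∑ i, ∑ j, ∑ l, b i j * b i l * (v j * v l) := by
  rw [EuclideanSpace.real_norm_sq_eq]
  refine Finset.sum_congr rfl fun i _ => ?_
  change (∑ j, b i j * v j) ^ 2 = _
  rw [sq, Finset.sum_mul_sum]
  refine Finset.sum_congr rfl fun j _ => Finset.sum_congr rfl fun l _ => ?_
  ring

private theorem SdeI_inner (b : Fin N → Fin N → ℝ) (v z : E N) :
    inner ℝ z (mulv b v) = ∑ i, ∑ j, b i j * (z i * v j) := by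
  rw [PiLp.inner_apply]
  refine Finset.sum_congr rfl fun i _ => ?_
  have h : inner ℝ (z.ofLp i) ((mulv b v).ofLp i) = (∑ j, b i j * v j) * z i := by
    simp [mulv]
  rw [h, Finset.sum_mul]
  refine Finset.sum_congr rfl fun j _ => ?_
  ring

private theorem SdeI_comp (V : Ω → E N) (hV2 : MemLp V 2 P) (j : Fin N) :
    MemLp (fun ω => V ω j) 2 P := by
  have hc : Continuous (fun v : E N => v j) := by fun_prop
  refine hV2.of_le (hc.comp_aestronglyMeasurable hV2.1) (Filter.Eventually.of_forall fun ω => ?_)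
  exact PiLp.norm_apply_le (V ω) j

private theorem SdeI_meas (hH : IsDynamo P k ε β ℱ B H) (s t : ℝ≥0) (hst : s ≤ t) (x : Site d)
    (V : Ω → E N) (hV : Measurable[ℱ s] V) :
    Measurable[ℱ t] (fun ω => mulv (fun a b => B x a b t ω - B x a b s ω) (V ω)) := by
  exact SdeI_meas0 (ℱ t) (fun a b ω => B x a b t ω - B x a b s ω)
    (fun a b => (inc_meas hH s t hst x a b).1) V (hV.mono (ℱ.mono hst) le_rfl)

private theorem SdeI_iinner (V Z : Ω → E N) (hV : MemLp V 2 P) (hZ : MemLp Z 2 P) :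
    Integrable (fun ω => inner ℝ (V ω) (Z ω)) P := by
  have h1 : Integrable (fun ω => ‖V ω‖ * ‖Z ω‖) P := hV.norm.integrable_mul hZ.norm
  refine h1.mono' (hV.1.inner hZ.1) (Filter.Eventually.of_forall fun ω => ?_)
  exact norm_inner_le_norm _ _

end aux

/-- second moment of `mulv ΔB v` -/
theorem mulv_sq {Ω : Type} [mΩ : MeasurableSpace Ω] {P : Measure Ω} {N d : ℕ} {k ε β : ℝ}
    {ℱ : Filtration ℝ≥0 mΩ} {B : Site d → Fin N → Fin N → ℝ≥0 → Ω → ℝ}
    {H : ℝ≥0 → Site d → Ω → E N} (hH : IsDynamo P k ε β ℱ B H) (s t : ℝ≥0) (hst : s ≤ t)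
    (x : Site d) (V : Ω → E N) (hV : Measurable[ℱ s] V) (hV2 : MemLp V 2 P) :
    MemLp (fun ω => mulv (fun a b => B x a b t ω - B x a b s ω) (V ω)) 2 P ∧
    ∫ ω, ‖mulv (fun a b => B x a b t ω - B x a b s ω) (V ω)‖ ^ 2 ∂P
      = N * (t - s) * ∫ ω, ‖V ω‖ ^ 2 ∂P ∧
    (∀ Z : Ω → E N, Measurable[ℱ s] Z → MemLp Z 2 P →
      ∫ ω, inner ℝ (Z ω) (mulv (fun a b => B x a b t ω - B x a b s ω) (V ω)) ∂P = 0) := by
  haveI := hH.prob
  have hVj := fun j => SdeI_comp V hV2 j
  have hcj : ∀ j : Fin N, Measurable[ℱ s] (fun ω => V ω j) := fun j =>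
    (show Continuous (fun v : E N => v j) by fun_prop).measurable.comp hV
  have hm := (SdeI_meas hH s t hst x V hV).mono (ℱ.le t) le_rfl
  have hW : ∀ j l : Fin N, Measurable[ℱ s] (fun ω => V ω j * V ω l) :=
    fun j l => (hcj j).mul (hcj l)
  have hWi : ∀ j l : Fin N, Integrable (fun ω => V ω j * V ω l) P :=
    fun j l => (hVj j).integrable_mul (hVj l)
  have key := fun i j l => SdeI_mul2 hH s t hst x _ (hW j l) (hWi j l) i j l
  refine ⟨?_, ?_, ?_⟩
  · rw [memLp_two_iff_integrable_sq_norm hm.aestronglyMeasurable]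
    simp only [SdeI_nsq]
    exact integrable_finsetSum _ fun i _ => integrable_finsetSum _ fun j _ =>
      integrable_finsetSum _ fun l _ => (key i j l).1
  · simp only [SdeI_nsq]
    rw [integral_finsetSum _ fun i _ => integrable_finsetSum _ fun j _ =>
      integrable_finsetSum _ fun l _ => (key i j l).1]
    have e1 : ∀ i : Fin N, ∫ ω, ∑ j, ∑ l, (B x i j t ω - B x i j s ω) *
        (B x i l t ω - B x i l s ω) * (V ω j * V ω l) ∂P
        = ((t : ℝ) - s) * ∑ j, ∫ ω, V ω j * V ω j ∂P := by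
      intro i
      rw [integral_finsetSum _ fun j _ => integrable_finsetSum _ fun l _ => (key i j l).1,
        Finset.mul_sum]
      refine Finset.sum_congr rfl fun j _ => ?_
      rw [integral_finsetSum _ fun l _ => (key i j l).1]
      simp only [(key i j _).2]
      rw [Finset.sum_eq_single j]
      · simp
      · intro l _ hl
        rw [if_neg (Ne.symm hl), zero_mul]
      · intro h
        exact absurd (Finset.mem_univ j) h
    rw [Finset.sum_congr rfl fun i _ => e1 i]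
    have e2 : ∫ ω, ‖V ω‖ ^ 2 ∂P = ∑ j, ∫ ω, V ω j * V ω j ∂P := by
      rw [← integral_finsetSum _ fun j _ => hWi j j]
      refine integral_congr_ae (Filter.Eventually.of_forall fun ω => ?_)
      change ‖V ω‖ ^ 2 = _
      rw [EuclideanSpace.real_norm_sq_eq]
      exact Finset.sum_congr rfl fun j _ => by ring
    rw [e2, Finset.sum_const, Finset.card_univ, Fintype.card_fin, nsmul_eq_mul]
    ring
  · intro Z hZ hZ2
    have hZi := fun j => SdeI_comp Z hZ2 j
    have hzj : ∀ j : Fin N, Measurable[ℱ s] (fun ω => Z ω j) := fun j =>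
      (show Continuous (fun v : E N => v j) by fun_prop).measurable.comp hZ
    have key1 := fun i j => SdeI_mul1 hH s t hst x (fun ω => Z ω i * V ω j)
      ((hzj i).mul (hcj j)) ((hZi i).integrable_mul (hVj j)) i j
    simp only [SdeI_inner]
    rw [integral_finsetSum _ fun i _ => integrable_finsetSum _ fun j _ => (key1 i j).1]
    refine Finset.sum_eq_zero fun i _ => ?_
    rw [integral_finsetSum _ fun j _ => (key1 i j).1]
    exact Finset.sum_eq_zero fun j _ => (key1 i j).2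

private theorem SdeI_partial {Ω : Type} [mΩ : MeasurableSpace Ω] {P : Measure Ω} {N d : ℕ}
    {k ε β : ℝ} {ℱ : Filtration ℝ≥0 mΩ} {B : Site d → Fin N → Fin N → ℝ≥0 → Ω → ℝ}
    {H : ℝ≥0 → Site d → Ω → E N} (hH : IsDynamo P k ε β ℱ B H) (x : Site d) (τ : ℕ → ℝ≥0)
    (hτ : Monotone τ) (U : ℕ → Ω → E N) (C : ℝ) (n : ℕ)
    (hU : ∀ i < n, Measurable[ℱ (τ i)] (U i) ∧ MemLp (U i) 2 P ∧ ∫ ω, ‖U i ω‖ ^ 2 ∂P ≤ C) :
    ∀ m ≤ n, Measurable[ℱ (τ m)] (fun ω => ∑ i ∈ Finset.range m,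
        mulv (fun a b => B x a b (τ (i + 1)) ω - B x a b (τ i) ω) (U i ω)) ∧
      MemLp (fun ω => ∑ i ∈ Finset.range m,
        mulv (fun a b => B x a b (τ (i + 1)) ω - B x a b (τ i) ω) (U i ω)) 2 P ∧
      ∫ ω, ‖∑ i ∈ Finset.range m,
        mulv (fun a b => B x a b (τ (i + 1)) ω - B x a b (τ i) ω) (U i ω)‖ ^ 2 ∂P
        ≤ N * ((τ m : ℝ) - τ 0) * C ∧
      ∀ Z : Ω → E N, Measurable[ℱ (τ 0)] Z → MemLp Z 2 P →
        ∫ ω, inner ℝ (Z ω) (∑ i ∈ Finset.range m,
          mulv (fun a b => B x a b (τ (i + 1)) ω - B x a b (τ i) ω) (U i ω)) ∂P = 0 := by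
  intro m
  induction m with
  | zero =>
    intro _
    refine ⟨?_, ?_, ?_, ?_⟩
    · simp only [Finset.range_zero, Finset.sum_empty]
      exact measurable_const
    · simp only [Finset.range_zero, Finset.sum_empty]
      exact MemLp.zero'
    · simp
    · intro Z _ _
      simp
  | succ m ih =>
    intro hm
    obtain ⟨h1, h2, h3, h4⟩ := ih (by omega)
    obtain ⟨u1, u2, u3⟩ := hU m (by omega)
    have hst : τ m ≤ τ (m + 1) := hτ (Nat.le_succ m)
    obtain ⟨q1, q2, q3⟩ := mulv_sq hH (τ m) (τ (m + 1)) hst x (U m) u1 u2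
    have qm := SdeI_meas hH (τ m) (τ (m + 1)) hst x (U m) u1
    set S : Ω → E N := fun ω => ∑ i ∈ Finset.range m,
        mulv (fun a b => B x a b (τ (i + 1)) ω - B x a b (τ i) ω) (U i ω) with hS
    set M : Ω → E N := fun ω =>
        mulv (fun a b => B x a b (τ (m + 1)) ω - B x a b (τ m) ω) (U m ω) with hM
    have hSM : ∀ ω, ∑ i ∈ Finset.range (m + 1),
        mulv (fun a b => B x a b (τ (i + 1)) ω - B x a b (τ i) ω) (U i ω) = S ω + M ω := by
      intro ω
      rw [Finset.sum_range_succ]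
    simp only [hSM]
    refine ⟨?_, ?_, ?_, ?_⟩
    · exact (h1.mono (ℱ.mono hst) le_rfl).add qm
    · exact h2.add q1
    · have i1 : Integrable (fun ω => ‖S ω‖ ^ 2) P :=
        (memLp_two_iff_integrable_sq_norm h2.1).1 h2
      have i2 : Integrable (fun ω => ‖M ω‖ ^ 2) P :=
        (memLp_two_iff_integrable_sq_norm q1.1).1 q1
      have i3 : Integrable (fun ω => 2 * inner ℝ (S ω) (M ω)) P :=
        (SdeI_iinner S M h2 q1).const_mul 2
      have e1 : ∫ ω, ‖S ω + M ω‖ ^ 2 ∂P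
          = ∫ ω, ‖S ω‖ ^ 2 ∂P + 2 * ∫ ω, inner ℝ (S ω) (M ω) ∂P + ∫ ω, ‖M ω‖ ^ 2 ∂P := by
        simp only [norm_add_sq_real]
        have i12 : Integrable (fun ω => ‖S ω‖ ^ 2 + 2 * inner ℝ (S ω) (M ω)) P := i1.add i3
        rw [integral_add i12 i2, integral_add i1 i3, integral_const_mul]
      have e2 : ∫ ω, inner ℝ (S ω) (M ω) ∂P = 0 := q3 S h1 h2
      rw [e1, e2]
      have e3 : ∫ ω, ‖M ω‖ ^ 2 ∂P ≤ N * ((τ (m + 1) : ℝ) - τ m) * C := by
        rw [hM, q2]
        have h5 : (0 : ℝ) ≤ (τ (m + 1) : ℝ) - τ m := sub_nonneg.2 (by exact_mod_cast hst)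
        exact mul_le_mul_of_nonneg_left u3 (by positivity)
      have e4 : (N : ℝ) * ((τ (m + 1) : ℝ) - τ 0) * C
          = N * ((τ m : ℝ) - τ 0) * C + N * ((τ (m + 1) : ℝ) - τ m) * C := by ring
      rw [e4]
      linarith
    · intro Z hZ hZ2
      have e1 : ∫ ω, inner ℝ (Z ω) (M ω) ∂P = 0 :=
        q3 Z (hZ.mono (ℱ.mono (hτ (Nat.zero_le m))) le_rfl) hZ2
      simp only [inner_add_right]
      rw [integral_add (SdeI_iinner Z S hZ2 h2) (SdeI_iinner Z M hZ2 q1), e1, h4 Z hZ hZ2,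
        add_zero]

theorem rsum_sq {Ω : Type} [mΩ : MeasurableSpace Ω] {P : Measure Ω} {N d : ℕ} {k ε β : ℝ}
    {ℱ : Filtration ℝ≥0 mΩ} {B : Site d → Fin N → Fin N → ℝ≥0 → Ω → ℝ}
    {H : ℝ≥0 → Site d → Ω → E N} (hH : IsDynamo P k ε β ℱ B H)
    (V : ℝ≥0 → Site d → Ω → E N) (x : Site d) (s t : ℝ≥0) (hst : s ≤ t) (C : ℝ)
    (hV : ∀ r, s ≤ r → r ≤ t → Measurable[ℱ r] (V r x) ∧ MemLp (V r x) 2 P ∧
      ∫ ω, ‖V r x ω‖ ^ 2 ∂P ≤ C) (n : ℕ) :
    MemLp (rsum B V x s t n) 2 P ∧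
    ∫ ω, ‖rsum B V x s t n ω‖ ^ 2 ∂P ≤ N * (t - s) * C ∧
    (∀ Z : Ω → E N, Measurable[ℱ s] Z → MemLp Z 2 P →
      ∫ ω, inner ℝ (Z ω) (rsum B V x s t n ω) ∂P = 0) := by
  have hC : 0 ≤ C := (integral_nonneg fun ω => by positivity).trans (hV s le_rfl hst).2.2
  have hts : (0 : ℝ) ≤ (t : ℝ) - s := sub_nonneg.2 (by exact_mod_cast hst)
  rcases Nat.eq_zero_or_pos n with hn | hn
  · subst hn
    simp only [rsum, Finset.range_zero, Finset.sum_empty, inner_zero_right, integral_zero,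
      norm_zero]
    refine ⟨MemLp.zero', ?_, fun _ _ _ => trivial⟩
    have : (0 : ℝ) ≤ N * (t - s) * C := by positivity
    simpa using this
  · have hn0 : (n : ℝ≥0) ≠ 0 := by exact_mod_cast hn.ne'
    have hτm : Monotone (fun i : ℕ => s + (i : ℝ≥0) * ((t - s) / n)) := by
      intro i j hij
      have h1 : (i : ℝ≥0) ≤ j := by exact_mod_cast hij
      exact add_le_add_right (mul_le_mul_left h1 _) s
    have hτn : s + (n : ℝ≥0) * ((t - s) / n) = t := by
      rw [mul_div_cancel₀ _ hn0, add_tsub_cancel_of_le hst]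
    have hτle : ∀ i : ℕ, i ≤ n → s + (i : ℝ≥0) * ((t - s) / n) ≤ t := by
      intro i hi
      have h1 := hτm hi
      simp only [hτn] at h1
      exact h1
    have h := SdeI_partial hH x (fun i : ℕ => s + (i : ℝ≥0) * ((t - s) / n)) hτm
      (fun i => V (s + (i : ℝ≥0) * ((t - s) / n)) x) C n
      (fun i hi => hV _ le_self_add (hτle i hi.le)) n le_rfl
    have e : ∀ ω, rsum B V x s t n ω = ∑ i ∈ Finset.range n,
        mulv (fun a b => B x a b (s + ((i + 1 : ℕ) : ℝ≥0) * ((t - s) / n)) ω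
          - B x a b (s + (i : ℝ≥0) * ((t - s) / n)) ω)
          (V (s + (i : ℝ≥0) * ((t - s) / n)) x ω) := by
      intro ω
      simp only [rsum, Nat.cast_add, Nat.cast_one]
    have e' : rsum B V x s t n = fun ω => ∑ i ∈ Finset.range n,
        mulv (fun a b => B x a b (s + ((i + 1 : ℕ) : ℝ≥0) * ((t - s) / n)) ω
          - B x a b (s + (i : ℝ≥0) * ((t - s) / n)) ω)
          (V (s + (i : ℝ≥0) * ((t - s) / n)) x ω) := funext e
    rw [e']
    obtain ⟨_, h2, h3, h4⟩ := h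
    refine ⟨h2, ?_, ?_⟩
    · simp only [hτn, Nat.cast_zero, zero_mul, add_zero] at h3
      exact h3
    · intro Z hZ hZ2
      have h0 : s + ((0 : ℕ) : ℝ≥0) * ((t - s) / n) = s := by simp
      refine h4 Z ?_ hZ2
      refine hZ.mono (ℱ.mono ?_) le_rfl
      exact h0.ge

/-- subtracting the value at the left end -/
theorem rsum_sub {Ω : Type} {N d : ℕ} (B : Site d → Fin N → Fin N → ℝ≥0 → Ω → ℝ)
    (H : ℝ≥0 → Site d → Ω → E N) (x : Site d) (s t : ℝ≥0) (hst : s ≤ t) (n : ℕ) (hn : 1 ≤ n) (ω : Ω) :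
    rsum B (fun r y ω => H r y ω - H s y ω) x s t n ω = rsum B H x s t n ω
      - mulv (fun a b => B x a b t ω - B x a b s ω) (H s x ω) := by
  have hn0 : (n : ℝ≥0) ≠ 0 := by
    have : n ≠ 0 := by omega
    exact_mod_cast this
  have hτn : s + (n : ℝ≥0) * ((t - s) / n) = t := by
    rw [mul_div_cancel₀ _ hn0, add_tsub_cancel_of_le hst]
  have key : ∀ m : ℕ, ∑ i ∈ Finset.range m,
      mulv (fun a b => B x a b (s + ((i : ℝ≥0) + 1) * ((t - s) / n)) ω
        - B x a b (s + (i : ℝ≥0) * ((t - s) / n)) ω)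
        (H (s + (i : ℝ≥0) * ((t - s) / n)) x ω - H s x ω)
      = ∑ i ∈ Finset.range m,
      mulv (fun a b => B x a b (s + ((i : ℝ≥0) + 1) * ((t - s) / n)) ω
        - B x a b (s + (i : ℝ≥0) * ((t - s) / n)) ω)
        (H (s + (i : ℝ≥0) * ((t - s) / n)) x ω)
        - mulv (fun a b => B x a b (s + (m : ℝ≥0) * ((t - s) / n)) ω - B x a b s ω)
          (H s x ω) := by
    intro m
    induction m with
    | zero =>
      simp only [Finset.range_zero, Finset.sum_empty, Nat.cast_zero, zero_mul, add_zero, sub_self]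
      have h0 := mulv_sub_left (N := N) (fun _ _ => 0) (fun _ _ => 0) (H s x ω)
      simp only [sub_self] at h0
      rw [h0, sub_zero]
    | succ m ih =>
      rw [Finset.sum_range_succ, Finset.sum_range_succ, ih, Nat.cast_add, Nat.cast_one]
      have h1 : ∀ (b : Fin N → Fin N → ℝ) (v w : E N),
          mulv b (v - w) = mulv b v - mulv b w := by
        intro b v w
        have h2 := mulv_add b (v - w) w
        rw [sub_add_cancel] at h2
        rw [h2, add_sub_cancel_right]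
      rw [h1]
      have h3 : mulv (fun a b => B x a b (s + ((m : ℝ≥0) + 1) * ((t - s) / n)) ω
          - B x a b s ω) (H s x ω)
          = mulv (fun a b => B x a b (s + ((m : ℝ≥0) + 1) * ((t - s) / n)) ω
            - B x a b (s + (m : ℝ≥0) * ((t - s) / n)) ω) (H s x ω)
          + mulv (fun a b => B x a b (s + (m : ℝ≥0) * ((t - s) / n)) ω
            - B x a b s ω) (H s x ω) := by
        rw [← mulv_add_left]
        congr 1
        funext a b
        ring
      rw [h3]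
      abel
  have h := key n
  rw [hτn] at h
  exact h

end Dyn

end

/-! ### from `Lib_MP_36b788.MSF` -/

section

/-!
# MSF: facts about the discrete test functions

PROOF. `|exp(i a)| = 1`, `|exp(i a) - exp(i b)| ≤ min 2 |a-b|`. `lip`: `|a-b| ≤ Σ_{q∈I, idx q = i}‖u q‖‖G x_q-G' x_q‖` and
`min(2, Σ) ≤ Σ_q min(2,‖u q‖‖D_q‖) ≤ Σ_q(2+‖u q‖)min(1,‖D_q‖)`, every `min(1,‖D_q‖)` is at most the sum over `|x|₁ ≤ R`
(`q.2` lies in the box because `|q.2|₁ ≤ R ≤ L`). `one`: empty sum. `prod`: exponential of a sum, every `q ∈ I` is counted once.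
`meas`: `ext0` is measurable in `G`. `diff`: `|Πe^{ia_q} - Πe^{ib_q}| ≤ Σ‖u q‖‖·‖`.
-/

open MeasureTheory ProbabilityTheory Filter
open scoped NNReal ENNReal Topology

namespace Dyn

private theorem MSF_norm (a : ℝ) : ‖Complex.exp (Complex.I * (a : ℂ))‖ = 1 := by
  rw [mul_comm, Complex.norm_exp_ofReal_mul_I]

private theorem MSF_diff (a b : ℝ) :
    ‖Complex.exp (Complex.I * (a : ℂ)) - Complex.exp (Complex.I * (b : ℂ))‖ ≤ |a - b| := by
  have h1 : Complex.exp (Complex.I * (a : ℂ)) - Complex.exp (Complex.I * (b : ℂ)) =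
      Complex.exp (Complex.I * (b : ℂ)) * (Complex.exp (Complex.I * ((a - b : ℝ) : ℂ)) - 1) := by
    rw [mul_sub, ← Complex.exp_add, mul_one]
    congr 2
    push_cast
    ring
  rw [h1, norm_mul, MSF_norm, one_mul]
  have h2 := Real.norm_exp_I_mul_ofReal_sub_one_le (x := a - b)
  simpa [Real.norm_eq_abs] using h2

private theorem MSF_ext0_meas {N d L : ℕ} (x : Site d) :
    Measurable (fun G : boxS d L → E N => ext0 G x) := by
  by_cases hx : x ∈ boxS d L
  · have h1 : (fun G : boxS d L → E N => ext0 G x) = fun G => G ⟨x, hx⟩ := by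
      funext G
      unfold ext0
      rw [dif_pos hx]
    rw [h1]
    exact measurable_pi_apply _
  · have h1 : (fun G : boxS d L → E N => ext0 G x) = fun _ => 0 := by
      funext G
      unfold ext0
      rw [dif_neg hx]
    rw [h1]
    exact measurable_const

private theorem MSF_box {d L R : ℕ} (x : Site d) (hx : l1 x 0 ≤ R) (hL : R ≤ L) : x ∈ boxS d L := by
  unfold boxS
  rw [Finset.mem_Icc, Pi.le_def, Pi.le_def]
  have h1 : ∀ i, (x i).natAbs ≤ L := by
    intro i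
    have h2 : (x i - (0 : Site d) i).natAbs ≤ l1 x 0 := by
      unfold l1
      exact Finset.single_le_sum (f := fun i => (x i - (0 : Site d) i).natAbs)
        (fun j _ => Nat.zero_le _) (Finset.mem_univ i)
    have h3 : (x i - (0 : Site d) i).natAbs = (x i).natAbs := by simp
    omega
  constructor
  · intro i
    have := h1 i
    omega
  · intro i
    have := h1 i
    omega

section
variable {N d L : ℕ} (I : Finset (ℝ≥0 × Site d)) (u : ℝ≥0 × Site d → E N)
  (idx : ℝ≥0 × Site d → ℕ)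

theorem Fdisc_meas (i : ℕ) : Measurable (Fdisc (L := L) I u idx i) := by
  unfold Fdisc
  refine Complex.measurable_exp.comp (measurable_const.mul (Complex.measurable_ofReal.comp ?_))
  refine Finset.measurable_sum _ fun q _ => ?_
  exact Measurable.inner measurable_const (MSF_ext0_meas q.2)

theorem Fdisc_norm (i : ℕ) (G : boxS d L → E N) : ‖Fdisc I u idx i G‖ = 1 := by
  unfold Fdisc
  exact MSF_norm _

theorem Fdisc_one (i : ℕ) (hi : i ∉ I.image idx) :
    Fdisc (L := L) I u idx i = fun _ => 1 := by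
  funext G
  unfold Fdisc
  have h1 : I.filter (fun q => idx q = i) = ∅ := by
    rw [Finset.filter_eq_empty_iff]
    intro q hq he
    exact hi (Finset.mem_image.2 ⟨q, hq, he⟩)
  rw [h1]
  simp

theorem Fdisc_lip (R : ℕ) (hR : ∀ q ∈ I, l1 q.2 0 ≤ R) (hL : R ≤ L) (i : ℕ)
    (G G' : boxS d L → E N) :
    ‖Fdisc I u idx i G - Fdisc I u idx i G'‖ ≤ (∑ q ∈ I, (2 + ‖u q‖)) *
      ∑ x : boxS d L, (if l1 (x : Fin d → ℤ) 0 ≤ R then min 1 ‖G x - G' x‖ else 0) := by
  set m : ℝ := ∑ x : boxS d L, (if l1 (x : Fin d → ℤ) 0 ≤ R then min 1 ‖G x - G' x‖ else 0) with hm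
  have hterm : ∀ x : boxS d L,
      0 ≤ (if l1 (x : Fin d → ℤ) 0 ≤ R then min 1 ‖G x - G' x‖ else 0) := by
    intro x
    split_ifs
    · exact le_min zero_le_one (norm_nonneg _)
    · exact le_rfl
  have hD : ∀ q ∈ I, min 1 ‖ext0 G q.2 - ext0 G' q.2‖ ≤ m := by
    intro q hq
    have hb := MSF_box q.2 (hR q hq) hL
    have h1 : ext0 G q.2 - ext0 G' q.2 = G ⟨q.2, hb⟩ - G' ⟨q.2, hb⟩ := by
      unfold ext0
      rw [dif_pos hb, dif_pos hb]
    rw [h1, hm]
    have h2 := Finset.single_le_sum (f := fun x : boxS d L =>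
      (if l1 (x : Fin d → ℤ) 0 ≤ R then min 1 ‖G x - G' x‖ else 0)) (fun x _ => hterm x)
      (Finset.mem_univ (⟨q.2, hb⟩ : boxS d L))
    simp only [if_pos (hR q hq)] at h2
    exact h2
  have h1 : ‖Fdisc I u idx i G - Fdisc I u idx i G'‖ ≤
      ∑ q ∈ I, (2 + ‖u q‖) * min 1 ‖ext0 G q.2 - ext0 G' q.2‖ := by
    have hnn : ∀ q ∈ I, 0 ≤ (2 + ‖u q‖) * min 1 ‖ext0 G q.2 - ext0 G' q.2‖ := fun q _ =>
      mul_nonneg (by positivity) (le_min zero_le_one (norm_nonneg _))
    by_cases hc : ∃ q ∈ I, 1 ≤ ‖ext0 G q.2 - ext0 G' q.2‖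
    · obtain ⟨q, hq, h1⟩ := hc
      have h2 : ‖Fdisc I u idx i G - Fdisc I u idx i G'‖ ≤ 2 := by
        refine (norm_sub_le _ _).trans ?_
        rw [Fdisc_norm, Fdisc_norm]
        norm_num
      refine h2.trans (le_trans ?_ (Finset.single_le_sum hnn hq))
      rw [min_eq_left h1, mul_one]
      linarith [norm_nonneg (u q)]
    · push Not at hc
      have h2 : ‖Fdisc I u idx i G - Fdisc I u idx i G'‖ ≤
          ∑ q ∈ I.filter (fun q => idx q = i), ‖u q‖ * ‖ext0 G q.2 - ext0 G' q.2‖ := by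
        unfold Fdisc
        refine (MSF_diff _ _).trans ?_
        rw [← Finset.sum_sub_distrib]
        refine (Finset.abs_sum_le_sum_abs _ _).trans (Finset.sum_le_sum fun q _ => ?_)
        rw [← inner_sub_right]
        exact abs_real_inner_le_norm _ _
      refine h2.trans (le_trans (Finset.sum_le_sum_of_subset_of_nonneg (Finset.filter_subset _ I)
        fun q _ _ => by positivity) (Finset.sum_le_sum fun q hq => ?_))
      rw [min_eq_right (hc q hq).le]
      nlinarith [norm_nonneg (ext0 G q.2 - ext0 G' q.2)]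
  refine h1.trans ?_
  rw [Finset.sum_mul]
  exact Finset.sum_le_sum fun q hq => mul_le_mul_of_nonneg_left (hD q hq) (by positivity)

theorem Fdisc_prod (M : ℕ) (hM : ∀ q ∈ I, idx q < M) (X : ℕ → boxS d L → E N) :
    ∏ i ∈ Finset.range M, Fdisc I u idx i (X i) =
      Complex.exp (Complex.I * (∑ q ∈ I, (inner ℝ (u q) (ext0 (X (idx q)) q.2) : ℝ) : ℝ)) := by
  unfold Fdisc
  rw [← Complex.exp_sum]
  congr 1
  rw [← Finset.mul_sum]
  congr 1
  rw [← Complex.ofReal_sum]
  congr 1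
  rw [← Finset.sum_fiberwise_of_maps_to (s := I) (t := Finset.range M) (g := idx)
    (fun q hq => Finset.mem_range.2 (hM q hq))]
  refine Finset.sum_congr rfl fun i _ => Finset.sum_congr rfl fun q hq => ?_
  rw [(Finset.mem_filter.1 hq).2]

end

theorem ech_norm {A : Type} {N : ℕ} (I : Finset A) (u : A → E N) (f : A → E N) :
    ‖ech I u f‖ = 1 := by
  unfold ech
  exact MSF_norm _

theorem ech_meas {A : Type} {N : ℕ} (I : Finset A) (u : A → E N) : Measurable (ech (N := N) I u) := by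
  unfold ech
  refine Complex.measurable_exp.comp (measurable_const.mul (Complex.measurable_ofReal.comp ?_))
  refine Finset.measurable_sum _ fun q _ => ?_
  exact Measurable.inner measurable_const (measurable_pi_apply q)

theorem ech_diff {A : Type} {N : ℕ} (I : Finset A) (u : A → E N) (f g : A → E N) :
    ‖ech I u f - ech I u g‖ ≤ ∑ q ∈ I, ‖u q‖ * ‖f q - g q‖ := by
  unfold ech
  refine (MSF_diff _ _).trans ?_
  rw [← Finset.sum_sub_distrib]
  refine (Finset.abs_sum_le_sum_abs _ _).trans (Finset.sum_le_sum fun q _ => ?_)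
  rw [← inner_sub_right]
  exact abs_real_inner_le_norm _ _

theorem Xf'_eq {Ω : Type} {N d : ℕ} (H : ℝ≥0 → Site d → Ω → E N) (I : Finset (ℝ≥0 × Site d))
    (u : ℝ≥0 × Site d → E N) (t : ℝ≥0) (ω : Ω) :
    Xf' H I u t ω = ech I u (fun q => H (t + q.1) q.2 ω) := rfl

end Dyn

end

/-! ### from `Lib_MP_36b788c.MFh` -/

section

/-!
# Height model: gaps (no site close to the top or to its floor, for most times)

`r_j = RR F_j`, `cap_j(z) = (r_j(z) + g_j(z))^+`, `fl_j(z) = max_{z' ≠ z} (r_j(z') - dd z z')`, `Δ_j(z) = r_j(z) - fl_j(z) ≥ 0`.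

PROOF.
* `caps_exp`: `φ2(r) = ((r+1/2)^+)²`. `r_{j+1}(z) = F_{j+1}(z)` or both are `≤ -1`, so `φ2(r_{j+1}) = φ2(F_{j+1})`, `F_{j+1} = min 0 (r_j + g)`; `φ2(r+g) - φ2(min 0 (r+g)) = cap² + cap ≥ cap`,
  `E φ2(r + g) ≤ φ2(r) + v`. Sum: `E Σ_j cap_j ≤ 1/4 + n v`.
* `top_occ`: `φ(r) = ((r+3κ)^+)²`, `κ ≤ 1/6`. If `r_j < -3κ`: `φ(r_{j+1}) ≥ 0 = φ(r_j)`. If `r_j ≥ -3κ`, `y = r_j + 3κ ∈ [0,3κ]`:
  `E φ(r_j + g) = y² + v - E((y+g)^-)²`, cap loss `φ(r+g) - φ(min 0 (r+g)) = cap² + 6κ cap`. `E((y+g)^-)² ≤ v/2`, `E cap² ≤ v/2`, and one of them is `≤ v/8` when `v ≤ κ²/C`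
  (`y ≥ 3κ/2` or `r_j ≤ -3κ/2`, Gaussian tail). So `E φ(r_{j+1}) ≥ E φ(r_j) + (v/4) P(r_j ≥ -3κ) - 6κ E cap_j`. Sum.
* `floor_occ`: `z*` = maximizer in `fl_j(z)`. `lift_{j+1}(z) = r_{j+1}(z) - F_{j+1}(z)`; if it is positive then `r_{j+1}(z) = F_{j+1}(z') - dd z z' ≤ fl_{j+1}(z)`, so `Δ_{j+1} = 0`.
  Without lift `Δ_{j+1} ≤ D0 + cap_j(z*)`, `D0 = Δ_j + g(z) - g(z*)` (`r_{j+1}(z*) ≥ F_{j+1}(z*) = r_j(z*) + g(z*) - cap`). With `φ(Δ) = ((3κ-Δ)^+)²`:
  `φ(Δ_{j+1}) ≥ φ((D0 + cap)^+) ≥ φ(D0^+) - 6κ cap`, `φ(D0^+) = φ(D0) - 6κ D0^- - (D0^-)²`. For `Δ_j ≤ 3κ`: `E φ(D0) - E (D0^-)² ≥ φ(Δ_j) + v/4` (variance `2v`, as above).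
  For `Δ_j > 3κ` use `φ(Δ_{j+1}) ≥ 0 = φ(Δ_j)`. Moreover `D0^- ≤ lift_{j+1}(z) + cap_j(z*)`. On `{τ > j}` (`r_i(z) ≥ -M1 + 2` for all `i ≤ j`) and `Δ_j ≤ 3κ`: `fl_j ≥ -M1+1`, so
  `dd z z* ≤ M1`, and `cap_j(z*) ≤ Σ_{dd z z' ≤ M1} cap_j(z')`. Stop the telescoping sum at `τ`. `E Σ lift(z) ≤ E(-r_{n0}(z)) + E Σ cap(z)` (`r_{j+1} = r_j + g - cap + lift`).
* `gap_occ`: if `F_j(z) < F_j(z') - dd z z' + 3κ` for some `z' ≠ z`, take for `z'` the maximizer over `z' ≠ z`: then `r_j(z') = F_j(z')` (otherwise `r_j(z')` comes from `z` itself, and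
  `F_j(z') - dd < F_j(z) - 2`), hence `Δ_j(z) ≤ 3κ`. Union over `z` in the ball. `E(-r_{n0}(z)) ≤ Ke + s + C √(n0 v + 1)` (`mf_stay`, `osc_exp_nz`); `P(τ ≤ ·)` from `mf_stay` and `osc_tail_nz`.
-/

open MeasureTheory ProbabilityTheory
open scoped ENNReal

namespace DynC

/-! ### Gaussian integrals in one variable -/

private theorem MFh_sq_int : ∫ t, t ^ 2 ∂(gaussianReal 0 1) = 1 := by
  have h := variance_eq_sub (μ := gaussianReal 0 1) (X := id) (memLp_id_gaussianReal 2)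
  rw [variance_id_gaussianReal] at h
  have h2 : ∫ x, id x ∂(gaussianReal 0 1) = 0 := integral_id_gaussianReal
  rw [h2] at h
  simp only [NNReal.coe_one, Pi.pow_apply, id_eq] at h
  linarith

private theorem MFh_sq_integrable : Integrable (fun t : ℝ => t ^ 2) (gaussianReal 0 1) := by
  have h := (memLp_id_gaussianReal (μ := 0) (v := 1) 2).integrable_sq
  simpa using h

private theorem MFh_id_integrable : Integrable (fun t : ℝ => t) (gaussianReal 0 1) := by
  have h : Integrable (id : ℝ → ℝ) (gaussianReal 0 1) :=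
    memLp_one_iff_integrable.mp (by exact_mod_cast memLp_id_gaussianReal (μ := 0) (v := 1) 1)
  exact h

/-- `E (a + s g)² = a² + s²` -/
private theorem MFh_G1 (a s : ℝ) :
    ∫⁻ t, ENNReal.ofReal ((a + s * t) ^ 2) ∂(gaussianReal 0 1) = ENNReal.ofReal (a ^ 2 + s ^ 2) := by
  have e : (fun t : ℝ => (a + s * t) ^ 2) = fun t => a ^ 2 + (2 * a * s * t + s ^ 2 * t ^ 2) := by
    funext t
    ring
  have i1 : Integrable (fun t : ℝ => 2 * a * s * t) (gaussianReal 0 1) :=
    MFh_id_integrable.const_mul _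
  have i2 : Integrable (fun t : ℝ => s ^ 2 * t ^ 2) (gaussianReal 0 1) :=
    MFh_sq_integrable.const_mul _
  have i3 : Integrable (fun _ : ℝ => a ^ 2) (gaussianReal 0 1) := integrable_const _
  have i4 : Integrable (fun t : ℝ => (a + s * t) ^ 2) (gaussianReal 0 1) := by
    rw [e]
    exact i3.add (i1.add i2)
  rw [← ofReal_integral_eq_lintegral_ofReal i4 (Filter.Eventually.of_forall fun t => sq_nonneg _), e]
  congr 1
  have h1 : ∫ t, (a ^ 2 + (2 * a * s * t + s ^ 2 * t ^ 2)) ∂(gaussianReal 0 1) =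
      ∫ _t, a ^ 2 ∂(gaussianReal 0 1) + ∫ t, (2 * a * s * t + s ^ 2 * t ^ 2) ∂(gaussianReal 0 1) :=
    integral_add i3 (i1.add i2)
  have h2 : ∫ t, (2 * a * s * t + s ^ 2 * t ^ 2) ∂(gaussianReal 0 1) =
      ∫ t, 2 * a * s * t ∂(gaussianReal 0 1) + ∫ t, s ^ 2 * t ^ 2 ∂(gaussianReal 0 1) :=
    integral_add i1 i2
  have h3 : ∫ t : ℝ, t ∂(gaussianReal 0 1) = 0 := integral_id_gaussianReal
  rw [h1, h2, integral_const_mul, integral_const_mul, MFh_sq_int, h3, integral_const]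
  simp

private theorem MFh_neg (f : ℝ → ℝ≥0∞) (hf : Measurable f) :
    ∫⁻ t, f (-t) ∂(gaussianReal 0 1) = ∫⁻ t, f t ∂(gaussianReal 0 1) := by
  have h : Measure.map (fun x : ℝ => -x) (gaussianReal 0 1) = gaussianReal 0 1 := by
    rw [gaussianReal_map_neg, neg_zero]
  conv_rhs => rw [← h]
  rw [lintegral_map hf measurable_neg]

private theorem MFh_G2 :
    ∫⁻ t : ℝ, ENNReal.ofReal ((max t 0) ^ 2) ∂(gaussianReal 0 1) = ENNReal.ofReal (1 / 2) := by
  have hm : Measurable fun t : ℝ => ENNReal.ofReal ((max t 0) ^ 2) :=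
    ((measurable_id.max measurable_const).pow_const 2).ennreal_ofReal
  have hn := MFh_neg _ hm
  have h1 : ∫⁻ t : ℝ, (ENNReal.ofReal ((max t 0) ^ 2) + ENNReal.ofReal ((max (-t) 0) ^ 2))
      ∂(gaussianReal 0 1) = 1 := by
    have h2 := MFh_G1 0 1
    have h3 : ENNReal.ofReal ((0 : ℝ) ^ 2 + 1 ^ 2) = 1 := by norm_num
    rw [h3] at h2
    rw [← h2]
    apply lintegral_congr
    intro t
    rw [← ENNReal.ofReal_add (sq_nonneg _) (sq_nonneg _)]
    congr 1
    rcases le_total t 0 with h | h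
    · rw [max_eq_right h, max_eq_left (by linarith)]
      ring
    · rw [max_eq_left h, max_eq_right (by linarith)]
      ring
  rw [lintegral_add_left hm, hn, ← two_mul] at h1
  have h4 : ENNReal.ofReal (1 / 2) = 2⁻¹ := by
    rw [one_div, ENNReal.ofReal_inv_of_pos (by norm_num)]
    norm_num
  rw [h4]
  refine ENNReal.eq_inv_of_mul_eq_one_left ?_
  rw [mul_comm]
  exact h1

private theorem MFh_G3 (b : ℝ) (hb : 4 ≤ b) :
    ∫⁻ t : ℝ, ENNReal.ofReal ((max (t - b) 0) ^ 2) ∂(gaussianReal 0 1) ≤ ENNReal.ofReal (1 / 4) := by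
  have h1 : ∀ t : ℝ, (max (t - b) 0) ^ 2 ≤ 2 * Real.exp (-b) * Real.exp t := by
    intro t
    rcases le_total (t - b) 0 with h | h
    · rw [max_eq_right h, zero_pow two_ne_zero]
      positivity
    · rw [max_eq_left h]
      have h2 := Real.quadratic_le_exp_of_nonneg h
      have h3 : Real.exp (-b) * Real.exp t = Real.exp (t - b) := by
        rw [← Real.exp_add]
        congr 1
        ring
      nlinarith
  have hi : Integrable (fun t : ℝ => Real.exp t) (gaussianReal 0 1) := by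
    have := integrable_exp_mul_gaussianReal (μ := 0) (v := 1) 1
    simpa using this
  have hE : ∫ t, Real.exp t ∂(gaussianReal 0 1) = Real.exp (1 / 2) := by
    have h := congrFun (mgf_id_gaussianReal (μ := 0) (v := 1)) 1
    unfold mgf at h
    simpa using h
  calc ∫⁻ t : ℝ, ENNReal.ofReal ((max (t - b) 0) ^ 2) ∂(gaussianReal 0 1)
      ≤ ∫⁻ t : ℝ, ENNReal.ofReal (2 * Real.exp (-b) * Real.exp t) ∂(gaussianReal 0 1) :=
        lintegral_mono fun t => ENNReal.ofReal_le_ofReal (h1 t)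
    _ = ENNReal.ofReal (2 * Real.exp (-b) * Real.exp (1 / 2)) := by
        rw [← ofReal_integral_eq_lintegral_ofReal (hi.const_mul _)
          (Filter.Eventually.of_forall fun t => by positivity), integral_const_mul, hE]
    _ ≤ ENNReal.ofReal (1 / 4) := by
        apply ENNReal.ofReal_le_ofReal
        have h5 : 2 * Real.exp (-b) * Real.exp (1 / 2) = 2 * Real.exp (1 / 2 - b) := by
          rw [mul_assoc, ← Real.exp_add]
          congr 2
          ring
        rw [h5]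
        have h6 : Real.exp (1 / 2 - b) ≤ Real.exp (-3) := Real.exp_le_exp.mpr (by linarith)
        have h7 : Real.exp (-3) * (Real.exp 1) ^ 3 = 1 := by
          rw [← Real.exp_nat_mul, ← Real.exp_add]
          norm_num
        have h8 : (2 : ℝ) ≤ Real.exp 1 := by
          have := Real.add_one_le_exp (1 : ℝ)
          linarith
        have h9 : (8 : ℝ) ≤ (Real.exp 1) ^ 3 := by
          calc (8 : ℝ) = 2 ^ 3 := by norm_num
            _ ≤ (Real.exp 1) ^ 3 := pow_le_pow_left₀ (by norm_num) h8 3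
        have h10 : 0 < Real.exp (-3) := Real.exp_pos _
        nlinarith

/-! ### One step in one variable -/

/-- upper bound for the quadratic potential -/
private theorem MFh_up (v r : ℝ) (hv : 0 < v) :
    ∫⁻ t, ENNReal.ofReal ((max (r + 1 / 2 + Real.sqrt v * t) 0) ^ 2) ∂(gaussianReal 0 1) ≤
      ENNReal.ofReal ((max (r + 1 / 2) 0) ^ 2) + ENNReal.ofReal v := by
  rw [← ENNReal.ofReal_add (sq_nonneg _) hv.le]
  have h1 := MFh_G1 (max (r + 1 / 2) 0) (Real.sqrt v)
  rw [Real.sq_sqrt hv.le] at h1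
  rw [← h1]
  refine lintegral_mono fun t => ENNReal.ofReal_le_ofReal ?_
  rcases le_total (r + 1 / 2) 0 with h | h
  · rw [max_eq_right h]
    rcases le_total (r + 1 / 2 + Real.sqrt v * t) 0 with h' | h'
    · rw [max_eq_right h', zero_pow two_ne_zero]
      exact sq_nonneg _
    · rw [max_eq_left h']
      exact pow_le_pow_left₀ h' (by linarith) 2
  · rw [max_eq_left h]
    rcases le_total (r + 1 / 2 + Real.sqrt v * t) 0 with h' | h'
    · rw [max_eq_right h', zero_pow two_ne_zero]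
      exact sq_nonneg _
    · rw [max_eq_left h']

private theorem MFh_scale (v : ℝ) (hv : 0 < v) (f : ℝ → ℝ) (hf : Measurable f) (c : ℝ)
    (h : ∫⁻ t, ENNReal.ofReal (f t) ∂(gaussianReal 0 1) ≤ ENNReal.ofReal c) :
    ∫⁻ t, ENNReal.ofReal (v * f t) ∂(gaussianReal 0 1) ≤ ENNReal.ofReal (v * c) := by
  calc ∫⁻ t, ENNReal.ofReal (v * f t) ∂(gaussianReal 0 1)
      = ∫⁻ t, ENNReal.ofReal v * ENNReal.ofReal (f t) ∂(gaussianReal 0 1) := by
        apply lintegral_congr
        intro t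
        exact ENNReal.ofReal_mul hv.le
    _ = ENNReal.ofReal v * ∫⁻ t, ENNReal.ofReal (f t) ∂(gaussianReal 0 1) :=
        lintegral_const_mul _ hf.ennreal_ofReal
    _ ≤ ENNReal.ofReal v * ENNReal.ofReal c := by gcongr
    _ = ENNReal.ofReal (v * c) := (ENNReal.ofReal_mul hv.le).symm

/-- the two losses together are at most `3v/4` -/
private theorem MFh_loss (v κ r : ℝ) (hv : 0 < v) (hκ : 0 < κ) (hvκ : v ≤ κ ^ 2 / 24)
    (hr : r ≤ 0) (hr3 : -(3 * κ) ≤ r) :
    ∫⁻ t, ENNReal.ofReal ((max (r + Real.sqrt v * t) 0) ^ 2) ∂(gaussianReal 0 1) +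
      ∫⁻ t, ENNReal.ofReal ((max (-(r + 3 * κ + Real.sqrt v * t)) 0) ^ 2) ∂(gaussianReal 0 1) ≤
      ENNReal.ofReal (3 * v / 4) := by
  set s : ℝ := Real.sqrt v with hs
  have hs0 : 0 < s := Real.sqrt_pos.mpr hv
  have hs2 : s ^ 2 = v := Real.sq_sqrt hv.le
  set b : ℝ := 3 * κ / (2 * s) with hb
  have hbs : s * b = 3 * κ / 2 := by
    rw [hb]
    field_simp
  have hb4 : 4 ≤ b := by
    rw [hb, le_div_iff₀ (by positivity)]
    nlinarith
  have hsq : ∀ x y : ℝ, x ≤ s * y → (max x 0) ^ 2 ≤ v * (max y 0) ^ 2 := by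
    intro x y h
    have h1 : max x 0 ≤ s * max y 0 := by
      apply max_le
      · exact h.trans (mul_le_mul_of_nonneg_left (le_max_left _ _) hs0.le)
      · exact mul_nonneg hs0.le (le_max_right _ _)
    calc (max x 0) ^ 2 ≤ (s * max y 0) ^ 2 := pow_le_pow_left₀ (le_max_right _ _) h1 2
      _ = v * (max y 0) ^ 2 := by rw [mul_pow, hs2]
  have m1 : Measurable fun t : ℝ => (max t 0) ^ 2 := (measurable_id.max measurable_const).pow_const 2
  have m2 : Measurable fun t : ℝ => (max (t - b) 0) ^ 2 :=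
    ((measurable_id.sub_const b).max measurable_const).pow_const 2
  have m1' : Measurable fun t : ℝ => (max (-t) 0) ^ 2 := m1.comp measurable_neg
  have m2' : Measurable fun t : ℝ => (max (-t - b) 0) ^ 2 := m2.comp measurable_neg
  have g1 := MFh_scale v hv _ m1 (1 / 2) MFh_G2.le
  have g2 := MFh_scale v hv _ m2 (1 / 4) (MFh_G3 b hb4)
  have g1' := MFh_scale v hv _ m1' (1 / 2) ((MFh_neg _ m1.ennreal_ofReal).trans MFh_G2).le
  have g2' := MFh_scale v hv _ m2' (1 / 4)
    ((MFh_neg _ m2.ennreal_ofReal).le.trans (MFh_G3 b hb4))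
  have hsum : ENNReal.ofReal (v * (1 / 2)) + ENNReal.ofReal (v * (1 / 4)) =
      ENNReal.ofReal (3 * v / 4) := by
    rw [← ENNReal.ofReal_add (by positivity) (by positivity)]
    congr 1
    ring
  rcases le_total r (-(3 * κ / 2)) with h | h
  · rw [← hsum, add_comm (ENNReal.ofReal (v * (1 / 2)))]
    refine add_le_add (le_trans (lintegral_mono fun t => ENNReal.ofReal_le_ofReal
      (hsq _ (t - b) ?_)) g2) (le_trans (lintegral_mono fun t => ENNReal.ofReal_le_ofReal
      (hsq _ (-t) ?_)) g1')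
    · rw [mul_sub, hbs]
      linarith
    · linarith
  · rw [← hsum]
    refine add_le_add (le_trans (lintegral_mono fun t => ENNReal.ofReal_le_ofReal
      (hsq _ t ?_)) g1) (le_trans (lintegral_mono fun t => ENNReal.ofReal_le_ofReal
      (hsq _ (-t - b) ?_)) g2')
    · linarith
    · rw [mul_sub, hbs]
      linarith

/-- lower bound for the potential near the top -/
private theorem MFh_low (v κ r : ℝ) (hv : 0 < v) (hκ : 0 < κ) (hvκ : v ≤ κ ^ 2 / 24)
    (hr : r ≤ 0) (hr3 : -(3 * κ) ≤ r) :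
    ENNReal.ofReal ((max (r + 3 * κ) 0) ^ 2) + ENNReal.ofReal (v / 4) ≤
      ∫⁻ t, ENNReal.ofReal ((max (min 0 (r + Real.sqrt v * t) + 3 * κ) 0) ^ 2)
        ∂(gaussianReal 0 1) +
      ENNReal.ofReal (6 * κ) * ∫⁻ t, ENNReal.ofReal (r + Real.sqrt v * t) ∂(gaussianReal 0 1) := by
  set s : ℝ := Real.sqrt v with hs
  have hs2 : s ^ 2 = v := Real.sq_sqrt hv.le
  have hl := MFh_loss v κ r hv hκ hvκ hr hr3
  rw [← hs] at hl
  have ma : Measurable fun t : ℝ => r + s * t := (measurable_id.const_mul s).const_add r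
  have mA : Measurable fun t : ℝ => ENNReal.ofReal ((max (min 0 (r + s * t) + 3 * κ) 0) ^ 2) :=
    ((((measurable_const.min ma).add_const _).max measurable_const).pow_const 2).ennreal_ofReal
  have mB : Measurable fun t : ℝ => ENNReal.ofReal (r + s * t) := ma.ennreal_ofReal
  have mD : Measurable fun t : ℝ => ENNReal.ofReal ((max (r + s * t) 0) ^ 2) :=
    ((ma.max measurable_const).pow_const 2).ennreal_ofReal
  have h1 : ∫⁻ t, ENNReal.ofReal ((r + 3 * κ + s * t) ^ 2) ∂(gaussianReal 0 1) =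
      ∫⁻ t, ENNReal.ofReal ((max (min 0 (r + s * t) + 3 * κ) 0) ^ 2) ∂(gaussianReal 0 1) +
      ENNReal.ofReal (6 * κ) * ∫⁻ t, ENNReal.ofReal (r + s * t) ∂(gaussianReal 0 1) +
      (∫⁻ t, ENNReal.ofReal ((max (r + s * t) 0) ^ 2) ∂(gaussianReal 0 1) +
      ∫⁻ t, ENNReal.ofReal ((max (-(r + 3 * κ + s * t)) 0) ^ 2) ∂(gaussianReal 0 1)) := by
    have mAB : Measurable fun t : ℝ => ENNReal.ofReal ((max (min 0 (r + s * t) + 3 * κ) 0) ^ 2) +
        ENNReal.ofReal (6 * κ) * ENNReal.ofReal (r + s * t) := mA.add (mB.const_mul _)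
    rw [← lintegral_const_mul _ mB, ← lintegral_add_left mA, ← lintegral_add_left mD,
      ← lintegral_add_left mAB]
    apply lintegral_congr
    intro t
    have e6 : ENNReal.ofReal (6 * κ) * ENNReal.ofReal (r + s * t) =
        ENNReal.ofReal (6 * κ * max (r + s * t) 0) := by
      rcases le_total (r + s * t) 0 with h | h
      · rw [max_eq_right h, ENNReal.ofReal_of_nonpos h, mul_zero, mul_zero, ENNReal.ofReal_zero]
      · rw [max_eq_left h, ENNReal.ofReal_mul (show (0 : ℝ) ≤ 6 * κ by positivity)]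
    have hp : 0 ≤ 6 * κ * max (r + s * t) 0 := mul_nonneg (by positivity) (le_max_right _ _)
    rw [e6, ← ENNReal.ofReal_add (sq_nonneg _) hp, ← ENNReal.ofReal_add (sq_nonneg _) (sq_nonneg _),
      ← ENNReal.ofReal_add (add_nonneg (sq_nonneg _) hp) (add_nonneg (sq_nonneg _) (sq_nonneg _))]
    congr 1
    rcases le_total (r + s * t) 0 with h | h
    · rw [max_eq_right h, min_eq_right h]
      rcases le_total (r + 3 * κ + s * t) 0 with h' | h'
      · rw [max_eq_left (show (0 : ℝ) ≤ -(r + 3 * κ + s * t) by linarith),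
          max_eq_right (show r + s * t + 3 * κ ≤ 0 by linarith)]
        ring
      · rw [max_eq_right (show -(r + 3 * κ + s * t) ≤ 0 by linarith),
          max_eq_left (show 0 ≤ r + s * t + 3 * κ by linarith)]
        ring
    · rw [max_eq_left h, min_eq_left h,
        max_eq_right (show -(r + 3 * κ + s * t) ≤ 0 by linarith),
        max_eq_left (show (0 : ℝ) ≤ 0 + 3 * κ by linarith)]
      ring
  rw [MFh_G1, hs2] at h1
  have h2 : ENNReal.ofReal ((r + 3 * κ) ^ 2 + v) =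
      ENNReal.ofReal ((max (r + 3 * κ) 0) ^ 2) + ENNReal.ofReal (v / 4) +
        ENNReal.ofReal (3 * v / 4) := by
    rw [max_eq_left (by linarith), ← ENNReal.ofReal_add (sq_nonneg _) (by positivity),
      ← ENNReal.ofReal_add (by positivity) (by positivity)]
    congr 1
    ring
  rw [h2] at h1
  refine ENNReal.le_of_add_le_add_right (a := ENNReal.ofReal (3 * v / 4)) ENNReal.ofReal_ne_top ?_
  rw [h1]
  gcongr

/-! ### The height model -/

variable {S : Type} [Fintype S] {D : ℕ} (M : MSet S D)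

/-- `z` is at distance `3κ` from the top and from its floor -/
def Gap (κ : ℝ) (F : S → ℝ) (z : S) : Prop :=
  F z ≤ -(3 * κ) ∧ ∀ z', z' ≠ z → F z' - M.dd z z' + 3 * κ ≤ F z

/-- value before the increment -/
private noncomputable def MFh_r (v : ℝ) (X : S → ℝ) (m : ℕ) (z : S) (ω : ℕ → S → ℝ) : ℝ :=
  M.RR (M.mf X (sc v ω) m) z

private theorem MFh_r_meas (v : ℝ) (X : S → ℝ) (m : ℕ) (z : S) : Measurable (MFh_r M v X m z) := by
  have h0 : Measurable (fun ω : ℕ → S → ℝ => ((X, sc v ω) : (S → ℝ) × (ℕ → S → ℝ))) := by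
    refine measurable_const.prodMk ?_
    unfold sc
    refine measurable_pi_lambda _ fun j => measurable_pi_lambda _ fun y => ?_
    have h1 : Measurable (fun ω : ℕ → S → ℝ => ω j) := measurable_pi_apply j
    have h2 : Measurable (fun a : S → ℝ => a y) := measurable_pi_apply y
    exact (h2.comp h1).const_mul _
  have h1 : Measurable (fun ω : ℕ → S → ℝ => M.mf X (sc v ω) m) :=
    measurable_pi_lambda _ fun y => (measurable_mf M m y).comp h0
  exact (measurable_RR M z).comp h1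

omit [Fintype S] in
private theorem MFh_coord_meas (m : ℕ) (z : S) : Measurable (fun ω : ℕ → S → ℝ => ω m z) := by
  have h1 : Measurable (fun ω : ℕ → S → ℝ => ω m) := measurable_pi_apply m
  have h2 : Measurable (fun a : S → ℝ => a z) := measurable_pi_apply z
  exact h2.comp h1

private theorem MFh_r_nonpos (v : ℝ) (X : S → ℝ) (hX : ∀ y, X y ≤ 0) (m : ℕ) (z : S)
    (ω : ℕ → S → ℝ) : MFh_r M v X m z ω ≤ 0 := by
  refine RR_le M _ z 0 fun y => ?_
  have h1 := mf_nonpos M X hX (sc v ω) m y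
  have h2 : (0 : ℝ) ≤ M.dd z y := by positivity
  linarith

/-- `r_{m+1}` is at least the new height -/
private theorem MFh_r_succ_ge (v : ℝ) (X : S → ℝ) (m : ℕ) (z : S) (ω : ℕ → S → ℝ) :
    min 0 (MFh_r M v X m z ω + Real.sqrt v * ω m z) ≤ MFh_r M v X (m + 1) z ω :=
  self_le_RR M (M.mf X (sc v ω) (m + 1)) z

/-- `r_{m+1}` is the new height or both are at most `-1` -/
private theorem MFh_r_succ (v : ℝ) (X : S → ℝ) (m : ℕ) (z : S) (ω : ℕ → S → ℝ) :
    MFh_r M v X (m + 1) z ω = min 0 (MFh_r M v X m z ω + Real.sqrt v * ω m z) ∨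
      MFh_r M v X (m + 1) z ω ≤ -1 := by
  by_cases h : M.am (M.mf X (sc v ω) (m + 1)) z = z
  · left
    have h1 := am_spec M (M.mf X (sc v ω) (m + 1)) z
    rw [h, M.dd_self] at h1
    change M.RR (M.mf X (sc v ω) (m + 1)) z = _
    rw [← h1]
    simp only [Nat.cast_zero, sub_zero]
    rfl
  · right
    have h1 := am_spec M (M.mf X (sc v ω) (m + 1)) z
    have h2 := mf_succ_nonpos M X (sc v ω) m (M.am (M.mf X (sc v ω) (m + 1)) z)
    have h3 : (1 : ℝ) ≤ M.dd z (M.am (M.mf X (sc v ω) (m + 1)) z) := by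
      exact_mod_cast M.dd_pos z _ (fun e => h e.symm)
    change M.RR (M.mf X (sc v ω) (m + 1)) z ≤ -1
    linarith

/-- independence of the increment -/
private theorem MFh_indep (v : ℝ) (X : S → ℝ) (m : ℕ) (z : S) (h : ℝ → ℝ → ℝ≥0∞)
    (hh : Measurable (Function.uncurry h)) :
    ∫⁻ ω, h (MFh_r M v X m z ω) (ω m z) ∂(PI (nz S)) =
      ∫⁻ ω, ∫⁻ t, h (MFh_r M v X m z ω) t ∂(gaussianReal 0 1) ∂(PI (nz S)) := by
  have hF : Measurable fun ω : ℕ → S → ℝ => h (MFh_r M v X m z ω) (ω m z) :=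
    hh.comp ((MFh_r_meas M v X m z).prodMk (MFh_coord_meas m z))
  rw [lintegral_glue m _ hF]
  apply lintegral_congr
  intro a
  have h1 : ∀ b : ℕ → S → ℝ, h (MFh_r M v X m z (glue m a b)) (glue m a b m z) =
      h (MFh_r M v X m z a) (b 0 z) := by
    intro b
    have e1 : MFh_r M v X m z (glue m a b) = MFh_r M v X m z a := by
      unfold MFh_r
      rw [mf_congr M X (sc v (glue m a b)) (sc v a) m]
      intro j hj
      funext y
      unfold sc glue
      rw [if_pos hj]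
    have e2 : glue m a b m z = b 0 z := by
      unfold glue
      rw [if_neg (lt_irrefl m), Nat.sub_self]
    rw [e1, e2]
  rw [lintegral_congr h1]
  have hc : Measurable (h (MFh_r M v X m z a)) := hh.comp measurable_prodMk_left
  have h2 : ∫⁻ b : ℕ → S → ℝ, h (MFh_r M v X m z a) (b 0 z) ∂(PI (nz S)) =
      ∫⁻ c : S → ℝ, h (MFh_r M v X m z a) (c z) ∂((PI (nz S)).map fun ω => ω 0) := by
    have hc' : Measurable fun c : S → ℝ => h (MFh_r M v X m z a) (c z) :=
      hc.comp (measurable_pi_apply z)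
    exact (lintegral_map hc' (measurable_pi_apply 0)).symm
  rw [h2, map_coord 0]
  unfold nz
  exact (measurePreserving_eval (fun _ : S => gaussianReal 0 1) z).lintegral_comp hc

/-- telescoping with a gain -/
private theorem MFh_tel_up (a c : ℕ → ℝ≥0∞) (e : ℝ≥0∞) (n0 : ℕ) (h : ∀ m, a (m + 1) + c m ≤ a m + e)
    (n : ℕ) : a (n0 + n) + ∑ j ∈ Finset.range n, c (n0 + j) ≤ a n0 + n * e := by
  induction n with
  | zero => simp
  | succ n ih =>
    rw [Finset.sum_range_succ]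
    calc a (n0 + (n + 1)) + (∑ j ∈ Finset.range n, c (n0 + j) + c (n0 + n))
        = (a (n0 + n + 1) + c (n0 + n)) + ∑ j ∈ Finset.range n, c (n0 + j) := by
          rw [← add_assoc n0 n 1]
          ring
      _ ≤ (a (n0 + n) + e) + ∑ j ∈ Finset.range n, c (n0 + j) := add_le_add (h _) le_rfl
      _ = (a (n0 + n) + ∑ j ∈ Finset.range n, c (n0 + j)) + e := by ring
      _ ≤ (a n0 + n * e) + e := by gcongr
      _ = a n0 + ((n + 1 : ℕ) : ℝ≥0∞) * e := by
          push_cast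
          ring

private theorem MFh_tel_low (a c p : ℕ → ℝ≥0∞) (n0 : ℕ) (h : ∀ m, a m + p m ≤ a (m + 1) + c m)
    (n : ℕ) : a n0 + ∑ j ∈ Finset.range n, p (n0 + j) ≤
      a (n0 + n) + ∑ j ∈ Finset.range n, c (n0 + j) := by
  induction n with
  | zero => simp
  | succ n ih =>
    rw [Finset.sum_range_succ, Finset.sum_range_succ]
    calc a n0 + (∑ j ∈ Finset.range n, p (n0 + j) + p (n0 + n))
        = (a n0 + ∑ j ∈ Finset.range n, p (n0 + j)) + p (n0 + n) := by ring
      _ ≤ (a (n0 + n) + ∑ j ∈ Finset.range n, c (n0 + j)) + p (n0 + n) := by gcongr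
      _ = (a (n0 + n) + p (n0 + n)) + ∑ j ∈ Finset.range n, c (n0 + j) := by ring
      _ ≤ (a (n0 + n + 1) + c (n0 + n)) + ∑ j ∈ Finset.range n, c (n0 + j) :=
          add_le_add (h _) le_rfl
      _ = a (n0 + (n + 1)) + (∑ j ∈ Finset.range n, c (n0 + j) + c (n0 + n)) := by
          rw [← add_assoc n0 n 1]
          ring

private theorem MFh_caps_step (v : ℝ) (hv : 0 < v) (X : S → ℝ) (m : ℕ) (z : S) :
    ∫⁻ ω, ENNReal.ofReal ((max (MFh_r M v X (m + 1) z ω + 1 / 2) 0) ^ 2) ∂(PI (nz S)) +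
      ∫⁻ ω, ENNReal.ofReal (MFh_r M v X m z ω + Real.sqrt v * ω m z) ∂(PI (nz S)) ≤
    ∫⁻ ω, ENNReal.ofReal ((max (MFh_r M v X m z ω + 1 / 2) 0) ^ 2) ∂(PI (nz S)) +
      ENNReal.ofReal v := by
  have mr := MFh_r_meas M v X m z
  have mr1 := MFh_r_meas M v X (m + 1) z
  have mφ : Measurable fun ω => ENNReal.ofReal ((max (MFh_r M v X (m + 1) z ω + 1 / 2) 0) ^ 2) :=
    (((mr1.add_const _).max measurable_const).pow_const 2).ennreal_ofReal
  have mφ0 : Measurable fun ω => ENNReal.ofReal ((max (MFh_r M v X m z ω + 1 / 2) 0) ^ 2) :=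
    (((mr.add_const _).max measurable_const).pow_const 2).ennreal_ofReal
  rw [← lintegral_add_left mφ]
  calc ∫⁻ ω, (ENNReal.ofReal ((max (MFh_r M v X (m + 1) z ω + 1 / 2) 0) ^ 2) +
          ENNReal.ofReal (MFh_r M v X m z ω + Real.sqrt v * ω m z)) ∂(PI (nz S))
      ≤ ∫⁻ ω, (fun r t : ℝ => ENNReal.ofReal ((max (r + 1 / 2 + Real.sqrt v * t) 0) ^ 2))
          (MFh_r M v X m z ω) (ω m z) ∂(PI (nz S)) := by
        refine lintegral_mono fun ω => ?_
        simp only
        set r := MFh_r M v X m z ω with hr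
        set g := Real.sqrt v * ω m z with hg
        have h1 : (max (MFh_r M v X (m + 1) z ω + 1 / 2) 0) ^ 2 =
            (max (min 0 (r + g) + 1 / 2) 0) ^ 2 := by
          rcases MFh_r_succ M v X m z ω with h | h
          · rw [h]
          · have h2 := MFh_r_succ_ge M v X m z ω
            rw [← hr, ← hg] at h2
            rw [max_eq_right (show MFh_r M v X (m + 1) z ω + 1 / 2 ≤ 0 by linarith),
              max_eq_right (show min 0 (r + g) + 1 / 2 ≤ 0 by linarith)]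
        rw [h1]
        rcases le_total (r + g) 0 with h | h
        · rw [min_eq_right h, ENNReal.ofReal_of_nonpos h, add_zero,
            show r + g + 1 / 2 = r + 1 / 2 + g by ring]
        · rw [min_eq_left h, ← ENNReal.ofReal_add (sq_nonneg _) h]
          apply ENNReal.ofReal_le_ofReal
          rw [max_eq_left (show (0 : ℝ) ≤ 0 + 1 / 2 by norm_num),
            max_eq_left (show 0 ≤ r + 1 / 2 + g by linarith)]
          nlinarith
    _ = ∫⁻ ω, ∫⁻ t, ENNReal.ofReal ((max (MFh_r M v X m z ω + 1 / 2 + Real.sqrt v * t) 0) ^ 2)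
          ∂(gaussianReal 0 1) ∂(PI (nz S)) := by
        have hp : Measurable fun p : ℝ × ℝ => p.1 + 1 / 2 + Real.sqrt v * p.2 :=
          (measurable_fst.add_const _).add (measurable_snd.const_mul _)
        exact MFh_indep M v X m z
          (fun r t => ENNReal.ofReal ((max (r + 1 / 2 + Real.sqrt v * t) 0) ^ 2))
          ((hp.max measurable_const).pow_const 2).ennreal_ofReal
    _ ≤ ∫⁻ ω, (ENNReal.ofReal ((max (MFh_r M v X m z ω + 1 / 2) 0) ^ 2) + ENNReal.ofReal v)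
          ∂(PI (nz S)) := lintegral_mono fun ω => MFh_up v _ hv
    _ = _ := by
        rw [lintegral_add_left mφ0, lintegral_const, measure_univ, mul_one]

theorem caps_exp (v : ℝ) (hv : 0 < v) (X : S → ℝ) (hX : ∀ y, X y ≤ 0) (n0 n : ℕ) (z : S) :
    ∑ j ∈ Finset.range n, ∫⁻ ω, ENNReal.ofReal (M.RR (M.mf X (sc v ω) (n0 + j)) z +
        sc v ω (n0 + j) z) ∂(PI (nz S))
      ≤ ENNReal.ofReal (1 / 4 + n * v) := by
  have h1 := MFh_tel_up
    (fun m => ∫⁻ ω, ENNReal.ofReal ((max (MFh_r M v X m z ω + 1 / 2) 0) ^ 2) ∂(PI (nz S)))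
    (fun m => ∫⁻ ω, ENNReal.ofReal (MFh_r M v X m z ω + Real.sqrt v * ω m z) ∂(PI (nz S)))
    (ENNReal.ofReal v) n0 (fun m => MFh_caps_step M v hv X m z) n
  have h2 : ∫⁻ ω, ENNReal.ofReal ((max (MFh_r M v X n0 z ω + 1 / 2) 0) ^ 2) ∂(PI (nz S)) ≤
      ENNReal.ofReal (1 / 4) := by
    calc ∫⁻ ω, ENNReal.ofReal ((max (MFh_r M v X n0 z ω + 1 / 2) 0) ^ 2) ∂(PI (nz S))
        ≤ ∫⁻ _ω, ENNReal.ofReal (1 / 4) ∂(PI (nz S)) := by
          refine lintegral_mono fun ω => ENNReal.ofReal_le_ofReal ?_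
          have h3 := MFh_r_nonpos M v X hX n0 z ω
          have h4 : max (MFh_r M v X n0 z ω + 1 / 2) 0 ≤ 1 / 2 := max_le (by linarith) (by norm_num)
          calc (max (MFh_r M v X n0 z ω + 1 / 2) 0) ^ 2 ≤ (1 / 2) ^ 2 :=
                pow_le_pow_left₀ (le_max_right _ _) h4 2
            _ = 1 / 4 := by norm_num
      _ = ENNReal.ofReal (1 / 4) := by rw [lintegral_const, measure_univ, mul_one]
  calc ∑ j ∈ Finset.range n, ∫⁻ ω, ENNReal.ofReal (M.RR (M.mf X (sc v ω) (n0 + j)) z +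
        sc v ω (n0 + j) z) ∂(PI (nz S))
      = ∑ j ∈ Finset.range n, ∫⁻ ω, ENNReal.ofReal (MFh_r M v X (n0 + j) z ω +
          Real.sqrt v * ω (n0 + j) z) ∂(PI (nz S)) := rfl
    _ ≤ _ := le_add_self
    _ ≤ _ := h1
    _ ≤ ENNReal.ofReal (1 / 4) + n * ENNReal.ofReal v := by gcongr
    _ = ENNReal.ofReal (1 / 4 + n * v) := by
        rw [ENNReal.ofReal_add (by norm_num) (by positivity),
          ENNReal.ofReal_mul (Nat.cast_nonneg n), ENNReal.ofReal_natCast]

private theorem MFh_top_step (v κ : ℝ) (hv : 0 < v) (hκ : 0 < κ) (hvκ : v ≤ κ ^ 2 / 24) (X : S → ℝ)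
    (hX : ∀ y, X y ≤ 0) (m : ℕ) (z : S) :
    ∫⁻ ω, ENNReal.ofReal ((max (MFh_r M v X m z ω + 3 * κ) 0) ^ 2) ∂(PI (nz S)) +
      ENNReal.ofReal (v / 4) * PI (nz S) {ω | -(3 * κ) ≤ MFh_r M v X m z ω} ≤
    ∫⁻ ω, ENNReal.ofReal ((max (MFh_r M v X (m + 1) z ω + 3 * κ) 0) ^ 2) ∂(PI (nz S)) +
      ENNReal.ofReal (6 * κ) *
        ∫⁻ ω, ENNReal.ofReal (MFh_r M v X m z ω + Real.sqrt v * ω m z) ∂(PI (nz S)) := by
  have mr := MFh_r_meas M v X m z
  have mφ0 : Measurable fun ω => ENNReal.ofReal ((max (MFh_r M v X m z ω + 3 * κ) 0) ^ 2) :=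
    (((mr.add_const _).max measurable_const).pow_const 2).ennreal_ofReal
  have mE : MeasurableSet {ω | -(3 * κ) ≤ MFh_r M v X m z ω} := measurableSet_le measurable_const mr
  have hp : Measurable fun p : ℝ × ℝ => p.1 + Real.sqrt v * p.2 :=
    measurable_fst.add (measurable_snd.const_mul _)
  have hA : Measurable fun p : ℝ × ℝ =>
      ENNReal.ofReal ((max (min 0 (p.1 + Real.sqrt v * p.2) + 3 * κ) 0) ^ 2) :=
    ((((measurable_const.min hp).add_const _).max measurable_const).pow_const 2).ennreal_ofReal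
  have hB : Measurable fun p : ℝ × ℝ => ENNReal.ofReal (p.1 + Real.sqrt v * p.2) :=
    hp.ennreal_ofReal
  have mA : Measurable fun ω => ∫⁻ t, ENNReal.ofReal
      ((max (min 0 (MFh_r M v X m z ω + Real.sqrt v * t) + 3 * κ) 0) ^ 2) ∂(gaussianReal 0 1) := by
    have h1 : Measurable fun r : ℝ => ∫⁻ t, ENNReal.ofReal
      ((max (min 0 (r + Real.sqrt v * t) + 3 * κ) 0) ^ 2) ∂(gaussianReal 0 1) :=
      hA.lintegral_prod_right'
    exact h1.comp mr
  have mB : Measurable fun ω => ∫⁻ t, ENNReal.ofReal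
      (MFh_r M v X m z ω + Real.sqrt v * t) ∂(gaussianReal 0 1) := by
    have h1 : Measurable fun r : ℝ => ∫⁻ t, ENNReal.ofReal
      (r + Real.sqrt v * t) ∂(gaussianReal 0 1) := hB.lintegral_prod_right'
    exact h1.comp mr
  have i1 := MFh_indep M v X m z
    (fun r t => ENNReal.ofReal ((max (min 0 (r + Real.sqrt v * t) + 3 * κ) 0) ^ 2)) hA
  have i2 := MFh_indep M v X m z (fun r t => ENNReal.ofReal (r + Real.sqrt v * t)) hB
  calc ∫⁻ ω, ENNReal.ofReal ((max (MFh_r M v X m z ω + 3 * κ) 0) ^ 2) ∂(PI (nz S)) +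
      ENNReal.ofReal (v / 4) * PI (nz S) {ω | -(3 * κ) ≤ MFh_r M v X m z ω}
      = ∫⁻ ω, (ENNReal.ofReal ((max (MFh_r M v X m z ω + 3 * κ) 0) ^ 2) +
          ENNReal.ofReal (v / 4) *
            Set.indicator {ω | -(3 * κ) ≤ MFh_r M v X m z ω} 1 ω) ∂(PI (nz S)) := by
        rw [lintegral_add_left mφ0, lintegral_const_mul _ (measurable_one.indicator mE),
          lintegral_indicator_one mE]
    _ ≤ ∫⁻ ω, (∫⁻ t, ENNReal.ofReal
          ((max (min 0 (MFh_r M v X m z ω + Real.sqrt v * t) + 3 * κ) 0) ^ 2) ∂(gaussianReal 0 1) +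
        ENNReal.ofReal (6 * κ) * ∫⁻ t, ENNReal.ofReal
          (MFh_r M v X m z ω + Real.sqrt v * t) ∂(gaussianReal 0 1)) ∂(PI (nz S)) := by
        refine lintegral_mono fun ω => ?_
        simp only
        by_cases h : -(3 * κ) ≤ MFh_r M v X m z ω
        · rw [Set.indicator_of_mem (show ω ∈ {ω | -(3 * κ) ≤ MFh_r M v X m z ω} from h),
            Pi.one_apply, mul_one]
          exact MFh_low v κ _ hv hκ hvκ (MFh_r_nonpos M v X hX m z ω) h
        · rw [Set.indicator_of_notMem (show ω ∉ {ω | -(3 * κ) ≤ MFh_r M v X m z ω} from h),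
            mul_zero, add_zero, max_eq_right (by linarith [not_le.mp h])]
          simp
    _ = ∫⁻ ω, ENNReal.ofReal ((max (min 0 (MFh_r M v X m z ω + Real.sqrt v * ω m z) + 3 * κ) 0) ^ 2)
          ∂(PI (nz S)) + ENNReal.ofReal (6 * κ) *
        ∫⁻ ω, ENNReal.ofReal (MFh_r M v X m z ω + Real.sqrt v * ω m z) ∂(PI (nz S)) := by
        rw [lintegral_add_left mA, lintegral_const_mul _ mB, i1, i2]
    _ ≤ _ := by
        gcongr with ω
        exact MFh_r_succ_ge M v X m z ω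

theorem top_occ : ∃ C : ℝ, 1 ≤ C ∧ ∀ (S : Type) [Fintype S] (D : ℕ) (M : MSet S D) (v κ : ℝ),
    0 < v → 0 < κ → κ ≤ 1 / 6 → v ≤ κ ^ 2 / C → ∀ (X : S → ℝ), (∀ y, X y ≤ 0) →
    ∀ (n0 n : ℕ) (z : S),
    ∑ j ∈ Finset.range n, PI (nz S) {ω | -(3 * κ) ≤ M.RR (M.mf X (sc v ω) (n0 + j)) z}
      ≤ ENNReal.ofReal (C * κ * (1 + n * v) / v) := by
  refine ⟨24, by norm_num, ?_⟩
  intro S _ D M v κ hv hκ hκ6 hvκ X hX n0 n z
  have h1 := MFh_tel_low
    (fun m => ∫⁻ ω, ENNReal.ofReal ((max (MFh_r M v X m z ω + 3 * κ) 0) ^ 2) ∂(PI (nz S)))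
    (fun m => ENNReal.ofReal (6 * κ) *
      ∫⁻ ω, ENNReal.ofReal (MFh_r M v X m z ω + Real.sqrt v * ω m z) ∂(PI (nz S)))
    (fun m => ENNReal.ofReal (v / 4) * PI (nz S) {ω | -(3 * κ) ≤ MFh_r M v X m z ω}) n0
    (fun m => MFh_top_step M v κ hv hκ hvκ X hX m z) n
  have h2 : ∫⁻ ω, ENNReal.ofReal ((max (MFh_r M v X (n0 + n) z ω + 3 * κ) 0) ^ 2) ∂(PI (nz S)) ≤
      ENNReal.ofReal ((3 * κ) ^ 2) := by
    calc ∫⁻ ω, ENNReal.ofReal ((max (MFh_r M v X (n0 + n) z ω + 3 * κ) 0) ^ 2) ∂(PI (nz S))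
        ≤ ∫⁻ _ω, ENNReal.ofReal ((3 * κ) ^ 2) ∂(PI (nz S)) := by
          refine lintegral_mono fun ω => ENNReal.ofReal_le_ofReal ?_
          have h3 := MFh_r_nonpos M v X hX (n0 + n) z ω
          exact pow_le_pow_left₀ (le_max_right _ _) (max_le (by linarith) (by positivity)) 2
      _ = ENNReal.ofReal ((3 * κ) ^ 2) := by rw [lintegral_const, measure_univ, mul_one]
  have h3 := caps_exp M v hv X hX n0 n z
  have h4 : ∑ j ∈ Finset.range n, ENNReal.ofReal (6 * κ) *
      ∫⁻ ω, ENNReal.ofReal (MFh_r M v X (n0 + j) z ω + Real.sqrt v * ω (n0 + j) z) ∂(PI (nz S)) ≤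
      ENNReal.ofReal (6 * κ) * ENNReal.ofReal (1 / 4 + n * v) := by
    rw [← Finset.mul_sum]
    gcongr
    exact h3
  have h5 : ENNReal.ofReal (v / 4) * ∑ j ∈ Finset.range n,
      PI (nz S) {ω | -(3 * κ) ≤ M.RR (M.mf X (sc v ω) (n0 + j)) z} ≤
      ENNReal.ofReal ((3 * κ) ^ 2) + ENNReal.ofReal (6 * κ) * ENNReal.ofReal (1 / 4 + n * v) := by
    rw [Finset.mul_sum]
    exact (le_add_self.trans h1).trans (add_le_add h2 h4)
  have hnv : (0 : ℝ) ≤ n * v := by positivity
  have h6 : ENNReal.ofReal ((3 * κ) ^ 2) + ENNReal.ofReal (6 * κ) * ENNReal.ofReal (1 / 4 + n * v) ≤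
      ENNReal.ofReal (v / 4) * ENNReal.ofReal (24 * κ * (1 + n * v) / v) := by
    rw [← ENNReal.ofReal_mul (by positivity), ← ENNReal.ofReal_add (by positivity) (by positivity),
      ← ENNReal.ofReal_mul (by positivity)]
    apply ENNReal.ofReal_le_ofReal
    have e : v / 4 * (24 * κ * (1 + n * v) / v) = 6 * κ * (1 + n * v) := by
      field_simp
      ring
    rw [e]
    nlinarith
  have hv4 : ENNReal.ofReal (v / 4) ≠ 0 := by
    rw [Ne, ENNReal.ofReal_eq_zero, not_le]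
    positivity
  exact (ENNReal.mul_le_mul_iff_right hv4 ENNReal.ofReal_ne_top).mp (h5.trans h6)

end DynC

end

/-! ### from `Lib_MP_36b788c.MFh2` -/

section

/-!
# Height model: gaps (no site close to the top or to its floor, for most times)

`r_j = RR F_j`, `cap_j(z) = (r_j(z) + g_j(z))^+`, `fl_j(z) = max_{z' ≠ z} (r_j(z') - dd z z')`, `Δ_j(z) = r_j(z) - fl_j(z) ≥ 0`.

PROOF.
* `caps_exp`: `φ2(r) = ((r+1/2)^+)²`. `r_{j+1}(z) = F_{j+1}(z)` or both are `≤ -1`, so `φ2(r_{j+1}) = φ2(F_{j+1})`, `F_{j+1} = min 0 (r_j + g)`; `φ2(r+g) - φ2(min 0 (r+g)) = cap² + cap ≥ cap`,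
  `E φ2(r + g) ≤ φ2(r) + v`. Sum: `E Σ_j cap_j ≤ 1/4 + n v`.
* `top_occ`: `φ(r) = ((r+3κ)^+)²`, `κ ≤ 1/6`. If `r_j < -3κ`: `φ(r_{j+1}) ≥ 0 = φ(r_j)`. If `r_j ≥ -3κ`, `y = r_j + 3κ ∈ [0,3κ]`:
  `E φ(r_j + g) = y² + v - E((y+g)^-)²`, cap loss `φ(r+g) - φ(min 0 (r+g)) = cap² + 6κ cap`. `E((y+g)^-)² ≤ v/2`, `E cap² ≤ v/2`, and one of them is `≤ v/8` when `v ≤ κ²/C`
  (`y ≥ 3κ/2` or `r_j ≤ -3κ/2`, Gaussian tail). So `E φ(r_{j+1}) ≥ E φ(r_j) + (v/4) P(r_j ≥ -3κ) - 6κ E cap_j`. Sum.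
* `floor_occ`: `z*` = maximizer in `fl_j(z)`. `lift_{j+1}(z) = r_{j+1}(z) - F_{j+1}(z)`; if it is positive then `r_{j+1}(z) = F_{j+1}(z') - dd z z' ≤ fl_{j+1}(z)`, so `Δ_{j+1} = 0`.
  Without lift `Δ_{j+1} ≤ D0 + cap_j(z*)`, `D0 = Δ_j + g(z) - g(z*)` (`r_{j+1}(z*) ≥ F_{j+1}(z*) = r_j(z*) + g(z*) - cap`). With `φ(Δ) = ((3κ-Δ)^+)²`:
  `φ(Δ_{j+1}) ≥ φ((D0 + cap)^+) ≥ φ(D0^+) - 6κ cap`, `φ(D0^+) = φ(D0) - 6κ D0^- - (D0^-)²`. For `Δ_j ≤ 3κ`: `E φ(D0) - E (D0^-)² ≥ φ(Δ_j) + v/4` (variance `2v`, as above).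
  For `Δ_j > 3κ` use `φ(Δ_{j+1}) ≥ 0 = φ(Δ_j)`. Moreover `D0^- ≤ lift_{j+1}(z) + cap_j(z*)`. On `{τ > j}` (`r_i(z) ≥ -M1 + 2` for all `i ≤ j`) and `Δ_j ≤ 3κ`: `fl_j ≥ -M1+1`, so
  `dd z z* ≤ M1`, and `cap_j(z*) ≤ Σ_{dd z z' ≤ M1} cap_j(z')`. Stop the telescoping sum at `τ`. `E Σ lift(z) ≤ E(-r_{n0}(z)) + E Σ cap(z)` (`r_{j+1} = r_j + g - cap + lift`).
* `gap_occ`: if `F_j(z) < F_j(z') - dd z z' + 3κ` for some `z' ≠ z`, take for `z'` the maximizer over `z' ≠ z`: then `r_j(z') = F_j(z')` (otherwise `r_j(z')` comes from `z` itself, and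
  `F_j(z') - dd < F_j(z) - 2`), hence `Δ_j(z) ≤ 3κ`. Union over `z` in the ball. `E(-r_{n0}(z)) ≤ Ke + s + C √(n0 v + 1)` (`mf_stay`, `osc_exp_nz`); `P(τ ≤ ·)` from `mf_stay` and `osc_tail_nz`.
-/

open MeasureTheory ProbabilityTheory
open scoped ENNReal

namespace DynC

variable {S : Type} [Fintype S] {D : ℕ} (M : MSet S D)

/-- floor of `z` -/
noncomputable def flr (F : S → ℝ) (z : S) : WithBot ℝ := open Classical in
  (Finset.univ.filter fun z' => z' ≠ z).sup fun z' => ((M.RR F z' - M.dd z z' : ℝ) : WithBot ℝ)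

private theorem mfh2_law1 (z : S) : (nz S).map (fun c : S → ℝ => c z) = gaussianReal 0 1 := by
  unfold nz
  exact (measurePreserving_eval (fun _ : S => gaussianReal 0 1) z).map_eq

private theorem mfh2_law2 {z w : S} (h : w ≠ z) :
    (nz S).map (fun c : S → ℝ => c z - c w) = gaussianReal 0 2 := by
  have hi : iIndepFun (fun i (c : S → ℝ) => c i) (nz S) := by
    unfold nz
    exact iIndepFun_pi (X := fun _ => id) (fun i => aemeasurable_id)
  have h2 : IndepFun (fun c : S → ℝ => c z) (fun c => c w) (nz S) := hi.indepFun h.symm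
  have h3 : IndepFun (fun c : S → ℝ => c z) (fun c => - c w) (nz S) :=
    h2.comp (φ := id) (ψ := fun x : ℝ => -x) measurable_id measurable_neg
  have hm : (nz S).map (fun c : S → ℝ => - c w) = gaussianReal 0 1 := by
    have e : (fun c : S → ℝ => - c w) = (fun x : ℝ => -x) ∘ (fun c : S → ℝ => c w) := rfl
    have e2 := Measure.map_map (μ := nz S) (f := fun c : S → ℝ => c w) (g := fun x : ℝ => -x)
      measurable_neg (measurable_pi_apply w)
    rw [e, ← e2, mfh2_law1, gaussianReal_map_neg, neg_zero]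
  have h4 := gaussianReal_add_gaussianReal_of_indepFun h3 (mfh2_law1 z) hm
  have e : ((fun c : S → ℝ => c z) + fun c => - c w) = fun c : S → ℝ => c z - c w := by
    ext c; simp [sub_eq_add_neg]
  rw [e] at h4
  rw [h4]
  norm_num

private theorem mfh2_int1 (s : NNReal) : Integrable (fun x : ℝ => x) (gaussianReal 0 s) :=
  (memLp_id_gaussianReal' 1 (by simp)).integrable le_rfl

private theorem mfh2_int2 (s : NNReal) : Integrable (fun x : ℝ => x ^ 2) (gaussianReal 0 s) :=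
  (memLp_id_gaussianReal' 2 (by simp)).integrable_sq

private theorem mfh2_int4 (s : NNReal) : Integrable (fun x : ℝ => x ^ 4) (gaussianReal 0 s) := by
  have h := (memLp_id_gaussianReal (μ := 0) (v := s) 4)
  have := h.integrable_norm_pow (p := 4) (by norm_num)
  refine this.congr (Filter.Eventually.of_forall fun x => ?_)
  simp only [id, Real.norm_eq_abs]
  exact Even.pow_abs (by decide) x

private theorem mfh2_mean (s : NNReal) : ∫ x, x ∂(gaussianReal 0 s) = 0 := integral_id_gaussianReal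

private theorem mfh2_sq (s : NNReal) : ∫ x, x ^ 2 ∂(gaussianReal 0 s) = s := by
  have h := variance_of_integral_eq_zero (μ := gaussianReal 0 s) (X := fun x : ℝ => x)
    aemeasurable_id (mfh2_mean s)
  rw [variance_fun_id_gaussianReal] at h
  exact h.symm

private theorem mfh2_symm (s : NNReal) (f : ℝ → ℝ) :
    ∫ x, f (-x) ∂(gaussianReal 0 s) = ∫ x, f x ∂(gaussianReal 0 s) := by
  have h := gaussianReal_map_neg (μ := 0) (v := s)
  rw [neg_zero] at h
  have h2 := (MeasurableEquiv.neg ℝ).measurableEmbedding.integral_map (μ := gaussianReal 0 s) f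
  have e : ((MeasurableEquiv.neg ℝ : ℝ ≃ᵐ ℝ) : ℝ → ℝ) = fun x => -x := rfl
  rw [e, h] at h2
  exact h2.symm

private theorem mfh2_posint (s : NNReal) :
    Integrable (fun x : ℝ => (max 0 x) ^ 2) (gaussianReal 0 s) := by
  refine (mfh2_int2 s).mono' (by fun_prop) (Filter.Eventually.of_forall fun x => ?_)
  rw [Real.norm_eq_abs, abs_of_nonneg (by positivity)]
  rcases le_total x 0 with h | h
  · rw [max_eq_left h]; nlinarith
  · rw [max_eq_right h]

private theorem mfh2_negint (s : NNReal) :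
    Integrable (fun x : ℝ => (max 0 (-x)) ^ 2) (gaussianReal 0 s) := by
  refine (mfh2_int2 s).mono' (by fun_prop) (Filter.Eventually.of_forall fun x => ?_)
  rw [Real.norm_eq_abs, abs_of_nonneg (by positivity)]
  rcases le_total (-x) 0 with h | h
  · rw [max_eq_left h]; nlinarith
  · rw [max_eq_right h]; nlinarith

private theorem mfh2_pos (s : NNReal) : ∫ x, (max 0 x) ^ 2 ∂(gaussianReal 0 s) = s / 2 := by
  have h1 := mfh2_symm s (fun x => (max 0 x) ^ 2)
  have h2 : ∫ x, ((max 0 x) ^ 2 + (max 0 (-x)) ^ 2) ∂(gaussianReal 0 s) = s := by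
    rw [← mfh2_sq s]
    refine integral_congr_ae (Filter.Eventually.of_forall fun x => ?_)
    simp only
    rcases le_total x 0 with h | h
    · rw [max_eq_left h, max_eq_right (by linarith)]; ring
    · rw [max_eq_right h, max_eq_left (by linarith)]; ring
  rw [integral_add (mfh2_posint s) (mfh2_negint s)] at h2
  linarith

private theorem mfh2_neg (s : NNReal) : ∫ x, (max 0 (-x)) ^ 2 ∂(gaussianReal 0 s) = s / 2 := by
  rw [← mfh2_pos s]
  exact mfh2_symm s (fun x => (max 0 x) ^ 2)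

private theorem mfh2_cosh (x : ℝ) : x ^ 4 ≤ 24 * (Real.exp x + Real.exp (-x)) := by
  have key : ∀ y : ℝ, 0 ≤ y → y ^ 4 ≤ 24 * Real.exp y := by
    intro y hy
    have := Real.sum_le_exp_of_nonneg hy 5
    simp only [Finset.sum_range_succ, Finset.sum_range_zero, Nat.factorial] at this
    norm_num at this
    have h2 : 0 ≤ y ^ 2 := sq_nonneg y
    have h3 : 0 ≤ y ^ 3 := by positivity
    nlinarith
  have p1 := Real.exp_pos x
  have p2 := Real.exp_pos (-x)
  rcases le_total 0 x with h | h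
  · have := key x h
    linarith
  · have := key (-x) (by linarith)
    have e : (-x) ^ 4 = x ^ 4 := by ring
    rw [e] at this
    linarith

private theorem mfh2_four (s : NNReal) : ∫ x, x ^ 4 ∂(gaussianReal 0 s) ≤ 48 * Real.exp (s / 2) := by
  have i1 := integrable_exp_mul_gaussianReal (μ := 0) (v := s) 1
  have i2 := integrable_exp_mul_gaussianReal (μ := 0) (v := s) (-1)
  have m1 : ∫ x, Real.exp (1 * x) ∂(gaussianReal 0 s) = Real.exp (s / 2) := by
    have := congrFun (mgf_fun_id_gaussianReal (μ := 0) (v := s)) 1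
    simp only [mgf] at this
    rw [this]
    congr 1
    ring
  have m2 : ∫ x, Real.exp (-1 * x) ∂(gaussianReal 0 s) = Real.exp (s / 2) := by
    have := congrFun (mgf_fun_id_gaussianReal (μ := 0) (v := s)) (-1)
    simp only [mgf] at this
    rw [this]
    congr 1
    ring
  calc ∫ x, x ^ 4 ∂(gaussianReal 0 s)
      ≤ ∫ x, 24 * (Real.exp (1 * x) + Real.exp (-1 * x)) ∂(gaussianReal 0 s) := by
        refine integral_mono (mfh2_int4 s) ((i1.add i2).const_mul 24) fun x => ?_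
        have := mfh2_cosh x
        simpa using this
    _ = 48 * Real.exp (s / 2) := by
        rw [integral_const_mul, integral_add i1 i2, m1, m2]
        ring

/-- `(x - t)⁺² ≤ x⁴ / (16 t²)` -/
private theorem mfh2_tail (x t : ℝ) (ht : 0 < t) :
    (max 0 (x - t)) ^ 2 ≤ x ^ 4 / (16 * t ^ 2) := by
  rcases le_total (x - t) 0 with h | h
  · rw [max_eq_left h, zero_pow two_ne_zero]; positivity
  · rw [max_eq_right h, le_div_iff₀ (by positivity)]
    have h1 : 4 * t * (x - t) ≤ x ^ 2 := by nlinarith [sq_nonneg (x - 2 * t)]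
    have h2 : 0 ≤ 4 * t * (x - t) := mul_nonneg (by positivity) h
    have h3 : (4 * t * (x - t)) ^ 2 ≤ (x ^ 2) ^ 2 := pow_le_pow_left₀ h2 h1 2
    nlinarith

private theorem mfh2_lin (c0 c1 c2 c4 c5 : ℝ) (p : ℝ → ℝ) (hp : Integrable p (gaussianReal 0 2)) :
    Integrable (fun x : ℝ => c0 + c1 * x + c2 * x ^ 2 - c4 * x ^ 4 - c5 * p x) (gaussianReal 0 2) ∧
    ∫ x, (c0 + c1 * x + c2 * x ^ 2 - c4 * x ^ 4 - c5 * p x) ∂(gaussianReal 0 2) =
      c0 + c2 * 2 - c4 * ∫ x, x ^ 4 ∂(gaussianReal 0 2) - c5 * ∫ x, p x ∂(gaussianReal 0 2) := by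
  have I1 : Integrable (fun x : ℝ => c0 + c1 * x) (gaussianReal 0 2) :=
    (integrable_const c0).add ((mfh2_int1 2).const_mul c1)
  have I2 : Integrable (fun x : ℝ => c0 + c1 * x + c2 * x ^ 2) (gaussianReal 0 2) :=
    I1.add ((mfh2_int2 2).const_mul c2)
  have I4 : Integrable (fun x : ℝ => c0 + c1 * x + c2 * x ^ 2 - c4 * x ^ 4) (gaussianReal 0 2) :=
    I2.sub ((mfh2_int4 2).const_mul c4)
  refine ⟨I4.sub (hp.const_mul c5), ?_⟩
  rw [integral_sub I4 (hp.const_mul c5), integral_sub I2 ((mfh2_int4 2).const_mul c4),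
    integral_add I1 ((mfh2_int2 2).const_mul c2),
    integral_add (integrable_const c0) ((mfh2_int1 2).const_mul c1),
    integral_const_mul, integral_const_mul, integral_const_mul, integral_const_mul,
    mfh2_mean, mfh2_sq]
  simp

private theorem mfh2_gauss (κ v a b : ℝ) (ha : 0 ≤ a) (hb : 0 ≤ b) (hab : a + b = 3 * κ)
    (hv : 0 < v) (hκ : 0 < κ) (hvC : v ≤ κ ^ 2 / 80) :
    a ^ 2 + v / 4 ≤ ∫ x, ((max 0 (a - Real.sqrt v * x)) ^ 2 -
      (max 0 (-b - Real.sqrt v * x)) ^ 2) ∂(gaussianReal 0 2) := by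
  have hs : Real.sqrt v ^ 2 = v := Real.sq_sqrt hv.le
  have hs0 : 0 ≤ Real.sqrt v := Real.sqrt_nonneg v
  have i1 := mfh2_int1 2
  have i2 := mfh2_int2 2
  have i4 := mfh2_int4 2
  have ip := mfh2_posint 2
  have im := mfh2_negint 2
  have m1 := mfh2_mean 2
  have m2 := mfh2_sq 2
  have m4 : ∫ x, x ^ 4 ∂(gaussianReal 0 2) ≤ 144 := by
    refine (mfh2_four 2).trans ?_
    have : Real.exp (((2 : NNReal) : ℝ) / 2) ≤ 3 := by
      have e : (((2 : NNReal) : ℝ) / 2) = 1 := by norm_num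
      rw [e]
      have := Real.exp_one_lt_d9
      linarith
    linarith
  have mp := mfh2_pos 2
  have mm := mfh2_neg 2
  have c2 : (((2 : NNReal) : ℝ)) = 2 := by norm_num
  rw [c2] at m2 mp mm
  have I0 : Integrable (fun x : ℝ => (max 0 (a - Real.sqrt v * x)) ^ 2 -
      (max 0 (-b - Real.sqrt v * x)) ^ 2) (gaussianReal 0 2) := by
    have j1 : Integrable (fun x : ℝ => (max 0 (a - Real.sqrt v * x)) ^ 2) (gaussianReal 0 2) := by
      refine ((integrable_const (2 * a ^ 2)).add (i2.const_mul (2 * v))).mono' (by fun_prop)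
        (Filter.Eventually.of_forall fun x => ?_)
      rw [Real.norm_eq_abs, abs_of_nonneg (by positivity)]
      simp only [Pi.add_apply]
      have e : v * x ^ 2 = (Real.sqrt v * x) ^ 2 := by rw [mul_pow, hs]
      rw [mul_assoc, e]
      rcases le_total (a - Real.sqrt v * x) 0 with h | h
      · rw [max_eq_left h]; nlinarith [sq_nonneg (Real.sqrt v * x), sq_nonneg a]
      · rw [max_eq_right h]; nlinarith [sq_nonneg (Real.sqrt v * x + a)]
    have j2 : Integrable (fun x : ℝ => (max 0 (-b - Real.sqrt v * x)) ^ 2) (gaussianReal 0 2) := by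
      refine ((integrable_const (2 * b ^ 2)).add (i2.const_mul (2 * v))).mono' (by fun_prop)
        (Filter.Eventually.of_forall fun x => ?_)
      rw [Real.norm_eq_abs, abs_of_nonneg (by positivity)]
      simp only [Pi.add_apply]
      have e : v * x ^ 2 = (Real.sqrt v * x) ^ 2 := by rw [mul_pow, hs]
      rw [mul_assoc, e]
      rcases le_total (-b - Real.sqrt v * x) 0 with h | h
      · rw [max_eq_left h]; nlinarith [sq_nonneg (Real.sqrt v * x), sq_nonneg b]
      · rw [max_eq_right h]; nlinarith [sq_nonneg (Real.sqrt v * x - b)]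
    exact j1.sub j2
  -- scaling of the positive part
  have sc1 : ∀ x : ℝ, (max 0 (Real.sqrt v * x)) ^ 2 = v * (max 0 x) ^ 2 := by
    intro x
    have : max 0 (Real.sqrt v * x) = Real.sqrt v * max 0 x := by
      rw [mul_max_of_nonneg _ _ hs0, mul_zero]
    rw [this, mul_pow, hs]
  have sc4 : ∀ x : ℝ, (Real.sqrt v * x) ^ 4 = v ^ 2 * x ^ 4 := by
    intro x
    rw [mul_pow]
    congr 1
    calc Real.sqrt v ^ 4 = (Real.sqrt v ^ 2) ^ 2 := by ring
      _ = v ^ 2 := by rw [hs]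
  have hq : v ^ 2 * 144 / (36 * κ ^ 2) ≤ v / 4 := by
    rw [div_le_iff₀ (by positivity)]
    have : v * 80 ≤ κ ^ 2 := by
      have := mul_le_mul_of_nonneg_right hvC (by norm_num : (0 : ℝ) ≤ 80)
      linarith
    nlinarith
  rcases le_total b a with hc | hc
  · -- `a ≥ 3κ/2`
    have ha2 : 3 * κ / 2 ≤ a := by linarith
    have hpt : ∀ x : ℝ, a ^ 2 + (-(2 * a * Real.sqrt v)) * x + v * x ^ 2 -
        v ^ 2 / (36 * κ ^ 2) * x ^ 4 - v * (max 0 (-x)) ^ 2 ≤
        (max 0 (a - Real.sqrt v * x)) ^ 2 - (max 0 (-b - Real.sqrt v * x)) ^ 2 := by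
      intro x
      have t1 := mfh2_tail (Real.sqrt v * x) a (by linarith)
      rw [sc4] at t1
      have t2 : v ^ 2 * x ^ 4 / (16 * a ^ 2) ≤ v ^ 2 / (36 * κ ^ 2) * x ^ 4 := by
        rw [div_mul_eq_mul_div]
        apply div_le_div_of_nonneg_left (by positivity) (by positivity)
        nlinarith
      have t3 : (max 0 (-b - Real.sqrt v * x)) ^ 2 ≤ v * (max 0 (-x)) ^ 2 := by
        rw [← sc1]
        apply pow_le_pow_left₀ (le_max_left _ _)
        apply max_le_max le_rfl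
        linarith [mul_neg (Real.sqrt v) x]
      have t4 : (max 0 (a - Real.sqrt v * x)) ^ 2 = (a - Real.sqrt v * x) ^ 2 -
          (max 0 (Real.sqrt v * x - a)) ^ 2 := by
        rcases le_total (a - Real.sqrt v * x) 0 with h | h
        · rw [max_eq_left h, max_eq_right (by linarith)]; ring
        · rw [max_eq_right h, max_eq_left (by linarith)]; ring
      rw [t4]
      have t5 : (a - Real.sqrt v * x) ^ 2 = a ^ 2 + (-(2 * a * Real.sqrt v)) * x + v * x ^ 2 := by
        have : v * x ^ 2 = Real.sqrt v ^ 2 * x ^ 2 := by rw [hs]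
        rw [this]; ring
      rw [t5]
      linarith
    obtain ⟨I1, e⟩ := mfh2_lin (a ^ 2) (-(2 * a * Real.sqrt v)) v (v ^ 2 / (36 * κ ^ 2)) v _ im
    refine le_trans ?_ (integral_mono I1 I0 hpt)
    rw [e, mm]
    have : v ^ 2 / (36 * κ ^ 2) * ∫ x, x ^ 4 ∂(gaussianReal 0 2) ≤ v / 4 := by
      refine le_trans (mul_le_mul_of_nonneg_left m4 (by positivity)) ?_
      rw [div_mul_eq_mul_div]; exact hq
    linarith
  · have hb2 : 3 * κ / 2 ≤ b := by linarith
    have hpt : ∀ x : ℝ, a ^ 2 + (-(2 * a * Real.sqrt v)) * x + v * x ^ 2 -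
        v ^ 2 / (36 * κ ^ 2) * x ^ 4 - v * (max 0 x) ^ 2 ≤
        (max 0 (a - Real.sqrt v * x)) ^ 2 - (max 0 (-b - Real.sqrt v * x)) ^ 2 := by
      intro x
      have t1 := mfh2_tail (-(Real.sqrt v * x)) b (by linarith)
      have e4 : (-(Real.sqrt v * x)) ^ 4 = (Real.sqrt v * x) ^ 4 := by ring
      rw [e4, sc4] at t1
      have t2 : v ^ 2 * x ^ 4 / (16 * b ^ 2) ≤ v ^ 2 / (36 * κ ^ 2) * x ^ 4 := by
        rw [div_mul_eq_mul_div]
        apply div_le_div_of_nonneg_left (by positivity) (by positivity)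
        nlinarith
      have t3 : (max 0 (Real.sqrt v * x - a)) ^ 2 ≤ v * (max 0 x) ^ 2 := by
        rw [← sc1]
        apply pow_le_pow_left₀ (le_max_left _ _)
        apply max_le_max le_rfl
        linarith
      have t4 : (max 0 (a - Real.sqrt v * x)) ^ 2 = (a - Real.sqrt v * x) ^ 2 -
          (max 0 (Real.sqrt v * x - a)) ^ 2 := by
        rcases le_total (a - Real.sqrt v * x) 0 with h | h
        · rw [max_eq_left h, max_eq_right (by linarith)]; ring
        · rw [max_eq_right h, max_eq_left (by linarith)]; ring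
      have t6 : -b - Real.sqrt v * x = -(Real.sqrt v * x) - b := by ring
      rw [t4, t6]
      have t5 : (a - Real.sqrt v * x) ^ 2 = a ^ 2 + (-(2 * a * Real.sqrt v)) * x + v * x ^ 2 := by
        have : v * x ^ 2 = Real.sqrt v ^ 2 * x ^ 2 := by rw [hs]
        rw [this]; ring
      rw [t5]
      linarith
    obtain ⟨I1, e⟩ := mfh2_lin (a ^ 2) (-(2 * a * Real.sqrt v)) v (v ^ 2 / (36 * κ ^ 2)) v _ ip
    refine le_trans ?_ (integral_mono I1 I0 hpt)
    rw [e, mp]
    have : v ^ 2 / (36 * κ ^ 2) * ∫ x, x ^ 4 ∂(gaussianReal 0 2) ≤ v / 4 := by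
      refine le_trans (mul_le_mul_of_nonneg_left m4 (by positivity)) ?_
      rw [div_mul_eq_mul_div]; exact hq
    linarith

/-! ### deterministic step -/

/-- real floor -/
private noncomputable def mfh2_fl (z : S) (hN : ∃ w, w ≠ z) (F : S → ℝ) : ℝ := open Classical in
  (Finset.univ.filter fun z' => z' ≠ z).sup' (by
    obtain ⟨w, hw⟩ := hN
    exact ⟨w, by simp [hw]⟩) fun z' => M.RR F z' - M.dd z z'

private theorem mfh2_le_fl (z : S) (hN : ∃ w, w ≠ z) (F : S → ℝ) (w : S) (hw : w ≠ z) :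
    M.RR F w - M.dd z w ≤ mfh2_fl M z hN F := by
  classical
  unfold mfh2_fl
  exact Finset.le_sup' (fun z' => M.RR F z' - (M.dd z z' : ℝ)) (by simp [hw])

private theorem mfh2_fl_ex (z : S) (hN : ∃ w, w ≠ z) (F : S → ℝ) :
    ∃ w, w ≠ z ∧ mfh2_fl M z hN F = M.RR F w - M.dd z w := by
  classical
  unfold mfh2_fl
  obtain ⟨w, hw, e⟩ := Finset.exists_mem_eq_sup' (s := Finset.univ.filter fun z' => z' ≠ z) (by
    obtain ⟨w, hw⟩ := hN
    exact ⟨w, by simp [hw]⟩) (fun z' => M.RR F z' - (M.dd z z' : ℝ))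
  exact ⟨w, by simpa using hw, e⟩

private theorem mfh2_fl_le (z : S) (hN : ∃ w, w ≠ z) (F : S → ℝ) :
    mfh2_fl M z hN F ≤ M.RR F z := by
  obtain ⟨w, hw, e⟩ := mfh2_fl_ex M z hN F
  rw [e]
  have := RR_lip M F w z
  rw [M.dd_comm w z] at this
  linarith

private theorem mfh2_flr (z : S) (hN : ∃ w, w ≠ z) (F : S → ℝ) (c : ℝ) :
    ((c : ℝ) : WithBot ℝ) ≤ flr M F z ↔ c ≤ mfh2_fl M z hN F := by
  classical
  unfold flr mfh2_fl
  rw [Finset.le_sup_iff (WithBot.bot_lt_coe c), Finset.le_sup'_iff]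
  simp only [WithBot.coe_le_coe]

private theorem mfh2_meas_fl (z : S) (hN : ∃ w, w ≠ z) :
    Measurable (fun F : S → ℝ => mfh2_fl M z hN F) := by
  classical
  unfold mfh2_fl
  have h := Finset.measurable_sup' (s := Finset.univ.filter fun z' => z' ≠ z) (by
    obtain ⟨w, hw⟩ := hN
    exact ⟨w, by simp [hw]⟩) (f := fun z' (F : S → ℝ) => M.RR F z' - (M.dd z z' : ℝ))
    (fun w _ => (measurable_RR M w).sub measurable_const)
  convert h using 1
  ext F
  rw [Finset.sup'_apply]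

/-- truncated square -/
private noncomputable def mfh2_phi (κ x : ℝ) : ℝ := (max 0 (3 * κ - x)) ^ 2

private theorem mfh2_phi_anti (κ : ℝ) {x y : ℝ} (h : x ≤ y) : mfh2_phi κ y ≤ mfh2_phi κ x := by
  unfold mfh2_phi
  apply pow_le_pow_left₀ (le_max_left _ _)
  exact max_le_max le_rfl (by linarith)

private theorem mfh2_phi_le (κ : ℝ) (hκ : 0 < κ) {x : ℝ} (h : 0 ≤ x) :
    mfh2_phi κ x ≤ 9 * κ ^ 2 := by
  have h1 := mfh2_phi_anti κ h
  have h2 : mfh2_phi κ 0 = 9 * κ ^ 2 := by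
    unfold mfh2_phi
    rw [sub_zero, max_eq_right (by linarith)]
    ring
  linarith

/-- the change of `phi` under a nonnegative shift -/
private theorem mfh2_phi_add (κ : ℝ) (hκ : 0 < κ) {x c : ℝ} (h : 0 ≤ x) (hc : 0 ≤ c) :
    mfh2_phi κ x - 6 * κ * c ≤ mfh2_phi κ (x + c) := by
  unfold mfh2_phi
  rcases le_total (3 * κ - x) 0 with h1 | h1
  · rw [max_eq_left h1]
    have : 0 ≤ (max 0 (3 * κ - (x + c))) ^ 2 := by positivity
    have : 0 ≤ κ * c := mul_nonneg hκ.le hc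
    nlinarith
  · rw [max_eq_right h1]
    rcases le_total (3 * κ - (x + c)) 0 with h2 | h2
    · rw [max_eq_left h2]
      have h3 : 0 ≤ κ * c := mul_nonneg hκ.le hc
      have h4 : 3 * κ - x ≤ c := by linarith
      have h5 : 3 * κ - x ≤ 3 * κ := by linarith
      nlinarith [mul_le_mul h5 h4 h1 (by linarith : (0 : ℝ) ≤ 3 * κ)]
    · rw [max_eq_right h2]
      nlinarith [mul_nonneg hκ.le hc, mul_nonneg h hc, mul_nonneg hc hc]

/-- negative arguments -/
private theorem mfh2_phi_neg (κ : ℝ) (hκ : 0 < κ) (x : ℝ) :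
    mfh2_phi κ (max 0 x) = mfh2_phi κ x - 6 * κ * max 0 (-x) - (max 0 (-x)) ^ 2 := by
  unfold mfh2_phi
  rcases le_total x 0 with h | h
  · rw [max_eq_left h, max_eq_right (show 0 ≤ -x by linarith), sub_zero,
      max_eq_right (show 0 ≤ 3 * κ by linarith), max_eq_right (show 0 ≤ 3 * κ - x by linarith)]
    ring
  · rw [max_eq_right h, max_eq_left (show -x ≤ 0 by linarith)]
    ring

private theorem mfh2_det (κ : ℝ) (hκ : 0 < κ) (z : S) (hN : ∃ w, w ≠ z) (F g : S → ℝ) (w : S)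
    (hw : w ≠ z) (he : mfh2_fl M z hN F = M.RR F w - M.dd z w) :
    mfh2_phi κ (M.RR F z - mfh2_fl M z hN F + (g z - g w)) -
        (max 0 (-(M.RR F z - mfh2_fl M z hN F + (g z - g w)))) ^ 2 ≤
      mfh2_phi κ (M.RR (M.mst F g) z - mfh2_fl M z hN (M.mst F g)) +
        6 * κ * (M.RR (M.mst F g) z - M.mst F g z) + 12 * κ * max 0 (M.RR F w + g w) := by
  set D0 := M.RR F z - mfh2_fl M z hN F + (g z - g w) with hD0
  set F' := M.mst F g with hF'
  have hFx : ∀ x, F' x = M.RR F x + g x - max 0 (M.RR F x + g x) := by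
    intro x
    rw [hF']
    unfold MSet.mst
    rcases le_total 0 (M.RR F x + g x) with h | h
    · rw [min_eq_left h, max_eq_right h]; ring
    · rw [min_eq_right h, max_eq_left h]; ring
  have hlift : 0 ≤ M.RR F' z - F' z := by
    have := self_le_RR M F' z
    linarith
  have hcw : 0 ≤ max 0 (M.RR F w + g w) := le_max_left _ _
  have hcz : 0 ≤ max 0 (M.RR F z + g z) := le_max_left _ _
  -- floor of the new field
  have hfl : M.RR F w + g w - max 0 (M.RR F w + g w) - M.dd z w ≤ mfh2_fl M z hN F' := by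
    have h1 := mfh2_le_fl M z hN F' w hw
    have h2 := self_le_RR M F' w
    rw [hFx w] at h2
    linarith
  have hflz := mfh2_fl_le M z hN F'
  have hFz := hFx z
  -- claim B
  have hB : max 0 (-D0) ≤ (M.RR F' z - F' z) + max 0 (M.RR F w + g w) := by
    apply max_le
    · linarith
    · rw [hD0, he]
      linarith
  -- claim A
  have hA : mfh2_phi κ (max 0 D0) - 6 * κ * max 0 (M.RR F w + g w) ≤
      mfh2_phi κ (M.RR F' z - mfh2_fl M z hN F') := by
    rcases eq_or_lt_of_le hlift with h0 | h0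
    · have h1 : M.RR F' z - mfh2_fl M z hN F' ≤ max 0 D0 + max 0 (M.RR F w + g w) := by
        have h2 : D0 ≤ max 0 D0 := le_max_right _ _
        have h3 : M.RR F' z - mfh2_fl M z hN F' ≤ D0 + max 0 (M.RR F w + g w) := by
          rw [hD0, he]
          linarith
        linarith
      exact (mfh2_phi_add κ hκ (le_max_left 0 D0) hcw).trans (mfh2_phi_anti κ h1)
    · -- lifted: the new floor is the value
      have h1 : M.RR F' z ≤ mfh2_fl M z hN F' := by
        have h2 := am_spec M F' z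
        have h3 : M.am F' z ≠ z := by
          intro h4
          rw [h4, M.dd_self] at h2
          simp at h2
          linarith
        have h4 := mfh2_le_fl M z hN F' _ h3
        have h5 := self_le_RR M F' (M.am F' z)
        linarith
      have h6 : M.RR F' z - mfh2_fl M z hN F' = 0 := by linarith
      rw [h6]
      have h7 := mfh2_phi_anti κ (le_max_left 0 D0)
      have h8 : 0 ≤ κ * max 0 (M.RR F w + g w) := mul_nonneg hκ.le hcw
      linarith
  have hC := mfh2_phi_neg κ hκ D0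
  have hB2 := mul_le_mul_of_nonneg_left hB (by linarith : (0 : ℝ) ≤ 6 * κ)
  nlinarith [mul_nonneg hκ.le hcw]

/-! ### one step in expectation -/

private theorem mfh2_step {X : Type} [MeasurableSpace X] (μ : Measure X) [IsProbabilityMeasure μ]
    (k : ℕ) (G : (ℕ → X) → X → ℝ≥0∞) (hG : Measurable (fun p : (ℕ → X) × X => G p.1 p.2))
    (hd : ∀ c, Dep k (fun a => G a c)) :
    ∫⁻ ω, G ω (ω k) ∂(PI μ) = ∫⁻ a, ∫⁻ c, G a c ∂μ ∂(PI μ) := by
  have hF : Measurable (fun ω : ℕ → X => G ω (ω k)) :=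
    hG.comp (measurable_id.prodMk (measurable_pi_apply k))
  rw [lintegral_glue k _ hF]
  refine lintegral_congr fun a => ?_
  have h1 : ∀ b : ℕ → X, G (glue k a b) (glue k a b k) = G a (b 0) := by
    intro b
    have e : glue k a b k = b 0 := by simp [glue]
    rw [e]
    exact hd (b 0) _ _ (fun i hi => by simp [glue, hi])
  simp only [h1]
  have h2 : Measurable (fun c => G a c) := hG.comp (measurable_const.prodMk measurable_id)
  have h3 := lintegral_map (μ := PI μ) h2 (measurable_pi_apply 0)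
  rw [map_coord 0] at h3
  exact h3.symm

private theorem mfh2_ofReal_int {Ω : Type} [MeasurableSpace Ω] (μ : Measure Ω) (f : Ω → ℝ) :
    ENNReal.ofReal (∫ x, f x ∂μ) ≤ ∫⁻ x, ENNReal.ofReal (f x) ∂μ := by
  by_cases hf : Integrable f μ
  · have hp : Integrable (fun x => max (f x) 0) μ := hf.pos_part
    have h1 : ∫ x, f x ∂μ ≤ ∫ x, max (f x) 0 ∂μ :=
      integral_mono hf hp fun x => le_max_left _ _
    refine (ENNReal.ofReal_le_ofReal h1).trans ?_
    rw [ofReal_integral_eq_lintegral_ofReal hp (Filter.Eventually.of_forall fun x => le_max_right _ _)]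
    refine lintegral_mono fun x => ?_
    simp only
    rcases le_total (f x) 0 with h | h
    · rw [max_eq_right h]; simp
    · rw [max_eq_left h]
  · rw [integral_undef hf]; simp

private theorem mfh2_one (v κ : ℝ) (hv : 0 < v) (hκ : 0 < κ) (hκ6 : κ ≤ 1 / 6)
    (hvC : v ≤ κ ^ 2 / 80) (z : S) (hN : ∃ w, w ≠ z) (F : S → ℝ) (hF : ∀ x, F x ≤ 0) (M1 : ℕ)
    (hr : -(M1 : ℝ) + 2 ≤ M.RR F z) (hD : M.RR F z - 3 * κ ≤ mfh2_fl M z hN F) (B : Finset S)
    (hB : ∀ w, M.dd z w ≤ M1 → w ∈ B) :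
    ENNReal.ofReal (mfh2_phi κ (M.RR F z - mfh2_fl M z hN F)) + ENNReal.ofReal (v / 4) ≤
      ∫⁻ c, (ENNReal.ofReal (mfh2_phi κ (M.RR (M.mst F (fun x => Real.sqrt v * c x)) z -
          mfh2_fl M z hN (M.mst F (fun x => Real.sqrt v * c x)))) +
        ENNReal.ofReal (6 * κ) * ENNReal.ofReal (M.RR (M.mst F (fun x => Real.sqrt v * c x)) z -
          M.mst F (fun x => Real.sqrt v * c x) z) +
        ENNReal.ofReal (12 * κ) * ∑ w ∈ B, ENNReal.ofReal (M.RR F w + Real.sqrt v * c w))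
        ∂(nz S) := by
  obtain ⟨w, hw, he⟩ := mfh2_fl_ex M z hN F
  have hRw : M.RR F w ≤ 0 := RR_le M F w 0 fun y => by
    have := hF y
    have : (0 : ℝ) ≤ M.dd w y := Nat.cast_nonneg _
    linarith
  have hwB : w ∈ B := by
    apply hB
    have : (M.dd z w : ℝ) ≤ M1 := by linarith
    exact_mod_cast this
  have hb := mfh2_fl_le M z hN F
  have hg := mfh2_gauss κ v (3 * κ - (M.RR F z - mfh2_fl M z hN F))
    (M.RR F z - mfh2_fl M z hN F) (by linarith) (by linarith) (by ring) hv hκ hvC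
  have hphi : mfh2_phi κ (M.RR F z - mfh2_fl M z hN F) =
      (3 * κ - (M.RR F z - mfh2_fl M z hN F)) ^ 2 := by
    unfold mfh2_phi
    rw [max_eq_right (by linarith)]
  have hm : Measurable (fun c : S → ℝ => c z - c w) :=
    (measurable_pi_apply z).sub (measurable_pi_apply w)
  rw [hphi, ← ENNReal.ofReal_add (sq_nonneg _) (by positivity)]
  refine (ENNReal.ofReal_le_ofReal hg).trans ?_
  refine (mfh2_ofReal_int _ _).trans ?_
  rw [← mfh2_law2 hw, lintegral_map (by fun_prop) hm]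
  refine lintegral_mono fun c => ?_
  have hdet := mfh2_det M κ hκ z hN F (fun x => Real.sqrt v * c x) w hw he
  set F' := M.mst F (fun x => Real.sqrt v * c x) with hF'
  have e1 : (max 0 (3 * κ - (M.RR F z - mfh2_fl M z hN F) - Real.sqrt v * (c z - c w))) ^ 2 -
      (max 0 (-(M.RR F z - mfh2_fl M z hN F) - Real.sqrt v * (c z - c w))) ^ 2 =
      mfh2_phi κ (M.RR F z - mfh2_fl M z hN F + (Real.sqrt v * c z - Real.sqrt v * c w)) -
        (max 0 (-(M.RR F z - mfh2_fl M z hN F + (Real.sqrt v * c z - Real.sqrt v * c w)))) ^ 2 := by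
    unfold mfh2_phi
    congr 3 <;> [skip; skip] <;> ring
  have hphi0 : 0 ≤ mfh2_phi κ (M.RR F' z - mfh2_fl M z hN F') := by
    unfold mfh2_phi; positivity
  have hl0 : 0 ≤ M.RR F' z - F' z := by
    have := self_le_RR M F' z
    linarith
  calc ENNReal.ofReal ((max 0 (3 * κ - (M.RR F z - mfh2_fl M z hN F) -
        Real.sqrt v * (c z - c w))) ^ 2 -
      (max 0 (-(M.RR F z - mfh2_fl M z hN F) - Real.sqrt v * (c z - c w))) ^ 2)
      ≤ ENNReal.ofReal (mfh2_phi κ (M.RR F' z - mfh2_fl M z hN F') +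
        6 * κ * (M.RR F' z - F' z) + 12 * κ * max 0 (M.RR F w + Real.sqrt v * c w)) := by
        rw [e1]
        exact ENNReal.ofReal_le_ofReal hdet
    _ = ENNReal.ofReal (mfh2_phi κ (M.RR F' z - mfh2_fl M z hN F')) +
        ENNReal.ofReal (6 * κ) * ENNReal.ofReal (M.RR F' z - F' z) +
        ENNReal.ofReal (12 * κ) * ENNReal.ofReal (M.RR F w + Real.sqrt v * c w) := by
        rw [ENNReal.ofReal_add (by positivity) (by positivity),
          ENNReal.ofReal_add hphi0 (by positivity),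
          ENNReal.ofReal_mul (show (0 : ℝ) ≤ 6 * κ by positivity),
          ENNReal.ofReal_mul (show (0 : ℝ) ≤ 12 * κ by positivity)]
        congr 2
        rcases le_total 0 (M.RR F w + Real.sqrt v * c w) with h | h
        · rw [max_eq_right h]
        · rw [max_eq_left h, ENNReal.ofReal_zero, ENNReal.ofReal_of_nonpos h]
    _ ≤ _ := by
        gcongr
        exact Finset.single_le_sum (f := fun w => ENNReal.ofReal (M.RR F w + Real.sqrt v * c w))
          (fun _ _ => zero_le) hwB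

private theorem mfh2_lift1 (v r : ℝ) (hr : r ≤ 0) (z : S) :
    ∫⁻ c : S → ℝ, ENNReal.ofReal (-(r + Real.sqrt v * c z)) ∂(nz S) =
      ENNReal.ofReal (-r) + ∫⁻ c : S → ℝ, ENNReal.ofReal (r + Real.sqrt v * c z) ∂(nz S) := by
  have hm : Measurable (fun c : S → ℝ => c z) := measurable_pi_apply z
  have e1 : ∫⁻ c : S → ℝ, ENNReal.ofReal (-(r + Real.sqrt v * c z)) ∂(nz S) =
      ∫⁻ x, ENNReal.ofReal (-(r + Real.sqrt v * x)) ∂(gaussianReal 0 1) := by
    rw [← mfh2_law1 z, lintegral_map (by fun_prop) hm]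
  have e2 : ∫⁻ c : S → ℝ, ENNReal.ofReal (r + Real.sqrt v * c z) ∂(nz S) =
      ∫⁻ x, ENNReal.ofReal (r + Real.sqrt v * x) ∂(gaussianReal 0 1) := by
    rw [← mfh2_law1 z, lintegral_map (by fun_prop) hm]
  rw [e1, e2]
  have hi : Integrable (fun x : ℝ => r + Real.sqrt v * x) (gaussianReal 0 1) :=
    (integrable_const r).add ((mfh2_int1 1).const_mul _)
  have hp : Integrable (fun x : ℝ => max (r + Real.sqrt v * x) 0) (gaussianReal 0 1) := hi.pos_part
  have hn : Integrable (fun x : ℝ => max (-(r + Real.sqrt v * x)) 0) (gaussianReal 0 1) :=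
    hi.neg_part
  have f1 : ∫⁻ x, ENNReal.ofReal (-(r + Real.sqrt v * x)) ∂(gaussianReal 0 1) =
      ENNReal.ofReal (∫ x, max (-(r + Real.sqrt v * x)) 0 ∂(gaussianReal 0 1)) := by
    rw [ofReal_integral_eq_lintegral_ofReal hn (Filter.Eventually.of_forall fun x => le_max_right _ _)]
    refine lintegral_congr fun x => ?_
    rcases le_total (-(r + Real.sqrt v * x)) 0 with h | h
    · rw [max_eq_right h, ENNReal.ofReal_of_nonpos h, ENNReal.ofReal_zero]
    · rw [max_eq_left h]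
  have f2 : ∫⁻ x, ENNReal.ofReal (r + Real.sqrt v * x) ∂(gaussianReal 0 1) =
      ENNReal.ofReal (∫ x, max (r + Real.sqrt v * x) 0 ∂(gaussianReal 0 1)) := by
    rw [ofReal_integral_eq_lintegral_ofReal hp (Filter.Eventually.of_forall fun x => le_max_right _ _)]
    refine lintegral_congr fun x => ?_
    rcases le_total (r + Real.sqrt v * x) 0 with h | h
    · rw [max_eq_right h, ENNReal.ofReal_of_nonpos h, ENNReal.ofReal_zero]
    · rw [max_eq_left h]
  have g1 : ∫ x, max (-(r + Real.sqrt v * x)) 0 ∂(gaussianReal 0 1) -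
      ∫ x, max (r + Real.sqrt v * x) 0 ∂(gaussianReal 0 1) = -r := by
    rw [← integral_sub hn hp]
    have : ∀ x : ℝ, max (-(r + Real.sqrt v * x)) 0 - max (r + Real.sqrt v * x) 0 =
        -r + (-Real.sqrt v) * x := by
      intro x
      rcases le_total (r + Real.sqrt v * x) 0 with h | h
      · rw [max_eq_right h, max_eq_left (by linarith)]; ring
      · rw [max_eq_left h, max_eq_right (by linarith)]; ring
    simp only [this]
    rw [integral_add (integrable_const _) ((mfh2_int1 1).const_mul _), integral_const_mul,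
      mfh2_mean]
    simp
  have hp0 : 0 ≤ ∫ x, max (r + Real.sqrt v * x) 0 ∂(gaussianReal 0 1) :=
    integral_nonneg fun x => le_max_right _ _
  rw [f1, f2, ← ENNReal.ofReal_add (by linarith) hp0]
  congr 1
  linarith

/-! ### path space -/

omit [Fintype S] in
private theorem mfh2_meas_sc (v : ℝ) : Measurable (fun ω : ℕ → S → ℝ => sc v ω) := by
  unfold sc
  fun_prop

private theorem mfh2_meas_F (v : ℝ) (X : S → ℝ) (k : ℕ) :
    Measurable (fun ω : ℕ → S → ℝ => M.mf X (sc v ω) k) :=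
  measurable_pi_iff.2 fun x =>
    (measurable_mf M k x).comp (measurable_const.prodMk (mfh2_meas_sc v))

private theorem mfh2_meas_mst : Measurable (fun p : (S → ℝ) × (S → ℝ) => M.mst p.1 p.2) := by
  refine measurable_pi_iff.2 fun x => ?_
  unfold MSet.mst
  exact measurable_const.min (((measurable_RR M x).comp measurable_fst).add
    ((measurable_pi_apply x).comp measurable_snd))

omit [Fintype S] in
private theorem mfh2_meas_inc (v : ℝ) :
    Measurable fun p : (ℕ → S → ℝ) × (S → ℝ) => (fun x => Real.sqrt v * p.2 x) := by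
  fun_prop

private theorem mfh2_meas_F1 (v : ℝ) (X : S → ℝ) (k : ℕ) :
    Measurable fun p : (ℕ → S → ℝ) × (S → ℝ) => M.mf X (sc v p.1) k :=
    (mfh2_meas_F M v X k).comp measurable_fst

private theorem mfh2_meas_st (v : ℝ) (X : S → ℝ) (k : ℕ) :
    Measurable fun p : (ℕ → S → ℝ) × (S → ℝ) =>
      M.mst (M.mf X (sc v p.1) k) (fun x => Real.sqrt v * p.2 x) := by
  have h1 := mfh2_meas_inc (S := S) v
  have h2 := mfh2_meas_F1 M v X k
  have h3 := (mfh2_meas_mst M).comp (h2.prodMk h1)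
  simpa only [Function.comp_def] using h3

private theorem mfh2_dep (v : ℝ) (X : S → ℝ) (k : ℕ) (a b : ℕ → S → ℝ)
    (h : ∀ i, i < k → a i = b i) (l : ℕ) (hl : l ≤ k) :
    M.mf X (sc v a) l = M.mf X (sc v b) l := by
  refine mf_congr M X _ _ l fun j hj => ?_
  unfold sc
  rw [h j (by omega)]

/-- the lifts are paid by the caps -/
private theorem mfh2_lifts (v : ℝ) (X : S → ℝ) (hX : ∀ y, X y ≤ 0) (n0 n : ℕ) (z : S) :
    ∑ j ∈ Finset.range n, ∫⁻ ω, ENNReal.ofReal (M.RR (M.mf X (sc v ω) (n0 + j + 1)) z -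
        M.mf X (sc v ω) (n0 + j + 1) z) ∂(PI (nz S)) +
      ∫⁻ ω, ENNReal.ofReal (-(M.RR (M.mf X (sc v ω) (n0 + n)) z)) ∂(PI (nz S)) ≤
    ∫⁻ ω, ENNReal.ofReal (-(M.RR (M.mf X (sc v ω) n0) z)) ∂(PI (nz S)) +
      ∑ j ∈ Finset.range n, ∫⁻ ω, ENNReal.ofReal (M.RR (M.mf X (sc v ω) (n0 + j)) z +
        sc v ω (n0 + j) z) ∂(PI (nz S)) := by
  have hRm : ∀ k, Measurable fun ω : ℕ → S → ℝ => M.RR (M.mf X (sc v ω) k) z := fun k =>
    (measurable_RR M z).comp (mfh2_meas_F M v X k)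
  have hR0 : ∀ (ω : ℕ → S → ℝ) k, M.RR (M.mf X (sc v ω) k) z ≤ 0 := fun ω k =>
    RR_le M _ z 0 fun y => by
      have := mf_nonpos M X hX (sc v ω) k y
      have : (0 : ℝ) ≤ M.dd z y := Nat.cast_nonneg _
      linarith
  induction n with
  | zero => simp
  | succ n ih =>
    rw [Finset.sum_range_succ, Finset.sum_range_succ]
    have hFm : Measurable fun ω : ℕ → S → ℝ => M.mf X (sc v ω) (n0 + n + 1) z :=
      (measurable_pi_apply z).comp (mfh2_meas_F M v X (n0 + n + 1))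
    -- one step
    have h1 : ∫⁻ ω, ENNReal.ofReal (M.RR (M.mf X (sc v ω) (n0 + n + 1)) z -
        M.mf X (sc v ω) (n0 + n + 1) z) ∂(PI (nz S)) +
        ∫⁻ ω, ENNReal.ofReal (-(M.RR (M.mf X (sc v ω) (n0 + (n + 1))) z)) ∂(PI (nz S)) =
        ∫⁻ ω, ENNReal.ofReal (-(M.mf X (sc v ω) (n0 + n + 1) z)) ∂(PI (nz S)) := by
      have hm1 : Measurable fun ω : ℕ → S → ℝ => ENNReal.ofReal
          (M.RR (M.mf X (sc v ω) (n0 + n + 1)) z - M.mf X (sc v ω) (n0 + n + 1) z) :=
        ((hRm _).sub hFm).ennreal_ofReal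
      rw [← lintegral_add_left hm1]
      refine lintegral_congr fun ω => ?_
      have a1 := self_le_RR M (M.mf X (sc v ω) (n0 + n + 1)) z
      have a2 := hR0 ω (n0 + n + 1)
      rw [← add_assoc n0 n 1, ← ENNReal.ofReal_add (by linarith) (by linarith)]
      congr 1
      ring
    have h2 : ∫⁻ ω, ENNReal.ofReal (-(M.mf X (sc v ω) (n0 + n + 1) z)) ∂(PI (nz S)) =
        ∫⁻ ω, ENNReal.ofReal (-(M.RR (M.mf X (sc v ω) (n0 + n)) z)) ∂(PI (nz S)) +
        ∫⁻ ω, ENNReal.ofReal (M.RR (M.mf X (sc v ω) (n0 + n)) z + sc v ω (n0 + n) z)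
          ∂(PI (nz S)) := by
      have e1 : ∫⁻ ω, ENNReal.ofReal (-(M.mf X (sc v ω) (n0 + n + 1) z)) ∂(PI (nz S)) =
          ∫⁻ a, ∫⁻ c, ENNReal.ofReal (-(M.RR (M.mf X (sc v a) (n0 + n)) z + Real.sqrt v * c z))
            ∂(nz S) ∂(PI (nz S)) := by
        rw [← mfh2_step (nz S) (n0 + n) (fun a c =>
          ENNReal.ofReal (-(M.RR (M.mf X (sc v a) (n0 + n)) z + Real.sqrt v * c z)))]
        · refine lintegral_congr fun ω => ?_
          have e : M.mf X (sc v ω) (n0 + n + 1) z =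
              min 0 (M.RR (M.mf X (sc v ω) (n0 + n)) z + Real.sqrt v * ω (n0 + n) z) := rfl
          rw [e]
          rcases le_total 0 (M.RR (M.mf X (sc v ω) (n0 + n)) z + Real.sqrt v * ω (n0 + n) z)
            with h | h
          · rw [min_eq_left h, neg_zero, ENNReal.ofReal_zero,
              ENNReal.ofReal_of_nonpos (by linarith)]
          · rw [min_eq_right h]
        · exact (((hRm (n0 + n)).comp measurable_fst).add
            (((measurable_pi_apply z).comp measurable_snd).const_mul _)).neg.ennreal_ofReal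
        · intro c a b hab
          simp only
          rw [mfh2_dep M v X (n0 + n) a b hab (n0 + n) le_rfl]
      have e2 : ∫⁻ ω, ENNReal.ofReal (M.RR (M.mf X (sc v ω) (n0 + n)) z + sc v ω (n0 + n) z)
            ∂(PI (nz S)) =
          ∫⁻ a, ∫⁻ c, ENNReal.ofReal (M.RR (M.mf X (sc v a) (n0 + n)) z + Real.sqrt v * c z)
            ∂(nz S) ∂(PI (nz S)) := by
        rw [← mfh2_step (nz S) (n0 + n) (fun a c =>
          ENNReal.ofReal (M.RR (M.mf X (sc v a) (n0 + n)) z + Real.sqrt v * c z))]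
        · rfl
        · exact (((hRm (n0 + n)).comp measurable_fst).add
            (((measurable_pi_apply z).comp measurable_snd).const_mul _)).ennreal_ofReal
        · intro c a b hab
          simp only
          rw [mfh2_dep M v X (n0 + n) a b hab (n0 + n) le_rfl]
      have hm2 : Measurable fun ω : ℕ → S → ℝ => ENNReal.ofReal
          (-(M.RR (M.mf X (sc v ω) (n0 + n)) z)) := (hRm _).neg.ennreal_ofReal
      rw [e1, e2, ← lintegral_add_left hm2]
      refine lintegral_congr fun a => ?_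
      exact mfh2_lift1 v _ (hR0 a _) z
    calc _ = ∑ j ∈ Finset.range n, ∫⁻ ω, ENNReal.ofReal (M.RR (M.mf X (sc v ω) (n0 + j + 1)) z -
        M.mf X (sc v ω) (n0 + j + 1) z) ∂(PI (nz S)) +
        (∫⁻ ω, ENNReal.ofReal (M.RR (M.mf X (sc v ω) (n0 + n + 1)) z -
        M.mf X (sc v ω) (n0 + n + 1) z) ∂(PI (nz S)) +
        ∫⁻ ω, ENNReal.ofReal (-(M.RR (M.mf X (sc v ω) (n0 + (n + 1))) z)) ∂(PI (nz S))) := by
          rw [add_assoc]
      _ = (∑ j ∈ Finset.range n, ∫⁻ ω, ENNReal.ofReal (M.RR (M.mf X (sc v ω) (n0 + j + 1)) z -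
        M.mf X (sc v ω) (n0 + j + 1) z) ∂(PI (nz S)) +
        ∫⁻ ω, ENNReal.ofReal (-(M.RR (M.mf X (sc v ω) (n0 + n)) z)) ∂(PI (nz S))) +
        ∫⁻ ω, ENNReal.ofReal (M.RR (M.mf X (sc v ω) (n0 + n)) z + sc v ω (n0 + n) z)
          ∂(PI (nz S)) := by
          rw [h1, h2, add_assoc]
      _ ≤ _ := by
          rw [← add_assoc]
          gcongr

/-- telescoping step -/
private theorem mfh2_tel (v κ : ℝ) (hv : 0 < v) (hκ : 0 < κ) (hκ6 : κ ≤ 1 / 6)
    (hvC : v ≤ κ ^ 2 / 80) (z : S) (hN : ∃ w, w ≠ z) (X : S → ℝ) (hX : ∀ x, X x ≤ 0)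
    (n0 M1 : ℕ) (B : Finset S) (hB : ∀ w, M.dd z w ≤ M1 → w ∈ B) (A : ℕ → Set (ℕ → S → ℝ))
    (hA : ∀ j, A j = {ω | ∀ i, i ≤ j → -(M1 : ℝ) + 2 ≤ M.RR (M.mf X (sc v ω) (n0 + i)) z})
    (Psi : ℕ → ℝ≥0∞) (hPsi : ∀ j, Psi j = ∫⁻ ω, ((A j).indicator (fun ω => ENNReal.ofReal
      (mfh2_phi κ (M.RR (M.mf X (sc v ω) (n0 + j)) z - mfh2_fl M z hN (M.mf X (sc v ω) (n0 + j)))))
        ω + (A j)ᶜ.indicator (fun _ => ENNReal.ofReal (9 * κ ^ 2)) ω) ∂(PI (nz S))) (j : ℕ) :
    Psi j + ENNReal.ofReal (v / 4) * PI (nz S) {ω | ω ∈ A j ∧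
        M.RR (M.mf X (sc v ω) (n0 + j)) z - 3 * κ ≤ mfh2_fl M z hN (M.mf X (sc v ω) (n0 + j))} ≤
      Psi (j + 1) + ENNReal.ofReal (6 * κ) * ∫⁻ ω, ENNReal.ofReal
          (M.RR (M.mf X (sc v ω) (n0 + j + 1)) z - M.mf X (sc v ω) (n0 + j + 1) z) ∂(PI (nz S)) +
        ENNReal.ofReal (12 * κ) * ∑ w ∈ B, ∫⁻ ω, ENNReal.ofReal
          (M.RR (M.mf X (sc v ω) (n0 + j)) w + sc v ω (n0 + j) w) ∂(PI (nz S)) := by
  have hRm : ∀ (x : S) k, Measurable fun ω : ℕ → S → ℝ => M.RR (M.mf X (sc v ω) k) x := fun x k =>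
    (measurable_RR M x).comp (mfh2_meas_F M v X k)
  have hfm : ∀ k, Measurable fun ω : ℕ → S → ℝ => mfh2_fl M z hN (M.mf X (sc v ω) k) := fun k =>
    (mfh2_meas_fl M z hN).comp (mfh2_meas_F M v X k)
  have hAm : ∀ j, MeasurableSet (A j) := by
    intro j
    rw [hA]
    have : {ω : ℕ → S → ℝ | ∀ i, i ≤ j → -(M1 : ℝ) + 2 ≤ M.RR (M.mf X (sc v ω) (n0 + i)) z} =
        ⋂ i, ⋂ (_ : i ≤ j), {ω | -(M1 : ℝ) + 2 ≤ M.RR (M.mf X (sc v ω) (n0 + i)) z} := by
      ext ω; simp
    rw [this]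
    exact MeasurableSet.iInter fun i => MeasurableSet.iInter fun _ =>
      measurableSet_le measurable_const (hRm z _)
  have hphim : Measurable (mfh2_phi κ) := by
    unfold mfh2_phi
    fun_prop
  have hAdep : ∀ a b : ℕ → S → ℝ, (∀ i, i < n0 + j → a i = b i) → (a ∈ A j ↔ b ∈ A j) := by
    intro a b hab
    rw [hA]
    simp only [Set.mem_ofPred_eq]
    refine forall_congr' fun i => forall_congr' fun hi => ?_
    rw [mfh2_dep M v X (n0 + j) a b hab (n0 + i) (by omega)]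
  -- the function of the past and the next increment
  let V : (ℕ → S → ℝ) → (S → ℝ) → ℝ≥0∞ := fun a c =>
    ((A j).indicator (fun a => ENNReal.ofReal (mfh2_phi κ
      (M.RR (M.mst (M.mf X (sc v a) (n0 + j)) (fun x => Real.sqrt v * c x)) z -
        mfh2_fl M z hN (M.mst (M.mf X (sc v a) (n0 + j)) (fun x => Real.sqrt v * c x))))) a +
      (A j)ᶜ.indicator (fun _ => ENNReal.ofReal (9 * κ ^ 2)) a) +
    ENNReal.ofReal (6 * κ) * ENNReal.ofReal
      (M.RR (M.mst (M.mf X (sc v a) (n0 + j)) (fun x => Real.sqrt v * c x)) z -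
        M.mst (M.mf X (sc v a) (n0 + j)) (fun x => Real.sqrt v * c x) z) +
    ENNReal.ofReal (12 * κ) * ∑ w ∈ B, ENNReal.ofReal
      (M.RR (M.mf X (sc v a) (n0 + j)) w + Real.sqrt v * c w)
  have hstm := mfh2_meas_st M v X (n0 + j)
  have hVm : Measurable fun p : (ℕ → S → ℝ) × (S → ℝ) => V p.1 p.2 := by
    have m1 : Measurable fun p : (ℕ → S → ℝ) × (S → ℝ) => ENNReal.ofReal (mfh2_phi κ
      (M.RR (M.mst (M.mf X (sc v p.1) (n0 + j)) (fun x => Real.sqrt v * p.2 x)) z -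
        mfh2_fl M z hN (M.mst (M.mf X (sc v p.1) (n0 + j)) (fun x => Real.sqrt v * p.2 x)))) := by
      have a1 := (measurable_RR M z).comp hstm
      have a2 := (mfh2_meas_fl M z hN).comp hstm
      have a3 := (hphim.comp (a1.sub a2)).ennreal_ofReal
      simpa only [Function.comp_def, Pi.sub_apply] using a3
    have hAf : MeasurableSet {p : (ℕ → S → ℝ) × (S → ℝ) | p.1 ∈ A j} :=
      measurable_fst (hAm j)
    have m2 : Measurable fun p : (ℕ → S → ℝ) × (S → ℝ) => (A j).indicator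
        (fun a => ENNReal.ofReal (mfh2_phi κ
      (M.RR (M.mst (M.mf X (sc v a) (n0 + j)) (fun x => Real.sqrt v * p.2 x)) z -
        mfh2_fl M z hN (M.mst (M.mf X (sc v a) (n0 + j)) (fun x => Real.sqrt v * p.2 x))))) p.1 := by
      have h := m1.indicator hAf
      convert h using 1
      funext p
      by_cases hp : p.1 ∈ A j
      · rw [Set.indicator_of_mem hp,
          Set.indicator_of_mem (show p ∈ {p : (ℕ → S → ℝ) × (S → ℝ) | p.1 ∈ A j} from hp)]
      · rw [Set.indicator_of_notMem hp,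
          Set.indicator_of_notMem (show p ∉ {p : (ℕ → S → ℝ) × (S → ℝ) | p.1 ∈ A j} from hp)]
    have m3 : Measurable fun p : (ℕ → S → ℝ) × (S → ℝ) =>
        (A j)ᶜ.indicator (fun _ => ENNReal.ofReal (9 * κ ^ 2)) p.1 :=
      (measurable_const.indicator (hAm j).compl).comp measurable_fst
    have m4 : Measurable fun p : (ℕ → S → ℝ) × (S → ℝ) => ENNReal.ofReal
      (M.RR (M.mst (M.mf X (sc v p.1) (n0 + j)) (fun x => Real.sqrt v * p.2 x)) z -
        M.mst (M.mf X (sc v p.1) (n0 + j)) (fun x => Real.sqrt v * p.2 x) z) := by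
      have a1 := (measurable_RR M z).comp hstm
      have a2 := (measurable_pi_apply z).comp hstm
      have a3 := (a1.sub a2).ennreal_ofReal
      simpa only [Function.comp_def, Pi.sub_apply] using a3
    have m5 : ∀ w, Measurable fun p : (ℕ → S → ℝ) × (S → ℝ) => ENNReal.ofReal
      (M.RR (M.mf X (sc v p.1) (n0 + j)) w + Real.sqrt v * p.2 w) := by
      intro w
      have a1 : Measurable fun p : (ℕ → S → ℝ) × (S → ℝ) =>
          M.RR (M.mf X (sc v p.1) (n0 + j)) w :=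
        (measurable_RR M w).comp (mfh2_meas_F1 M v X (n0 + j))
      have a2 : Measurable fun p : (ℕ → S → ℝ) × (S → ℝ) => Real.sqrt v * p.2 w := by fun_prop
      exact (a1.add a2).ennreal_ofReal
    exact ((m2.add m3).add (m4.const_mul _)).add
      ((Finset.measurable_sum B fun w _ => m5 w).const_mul _)
  have hVd : ∀ c, Dep (n0 + j) (fun a => V a c) := by
    intro c a b hab
    have e1 := mfh2_dep M v X (n0 + j) a b hab (n0 + j) le_rfl
    have e2 := hAdep a b hab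
    simp only [V]
    by_cases hb : b ∈ A j
    · have ha : a ∈ A j := e2.2 hb
      rw [Set.indicator_of_mem ha, Set.indicator_of_mem hb,
        Set.indicator_of_notMem (by simpa using ha), Set.indicator_of_notMem (by simpa using hb), e1]
    · have ha : a ∉ A j := fun h => hb (e2.1 h)
      rw [Set.indicator_of_notMem ha, Set.indicator_of_notMem hb,
        Set.indicator_of_mem (show a ∈ (A j)ᶜ from ha), Set.indicator_of_mem (show b ∈ (A j)ᶜ from hb), e1]
  have hstep := mfh2_step (nz S) (n0 + j) V hVm hVd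
  -- lower bound
  have hlow : Psi j + ENNReal.ofReal (v / 4) * PI (nz S) {ω | ω ∈ A j ∧
        M.RR (M.mf X (sc v ω) (n0 + j)) z - 3 * κ ≤ mfh2_fl M z hN (M.mf X (sc v ω) (n0 + j))} ≤
      ∫⁻ a, ∫⁻ c, V a c ∂(nz S) ∂(PI (nz S)) := by
    have mE : MeasurableSet {ω : ℕ → S → ℝ | ω ∈ A j ∧
        M.RR (M.mf X (sc v ω) (n0 + j)) z - 3 * κ ≤
          mfh2_fl M z hN (M.mf X (sc v ω) (n0 + j))} :=
      (hAm j).inter (measurableSet_le ((hRm z _).sub measurable_const) (hfm _))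
    have mP : Measurable fun ω : ℕ → S → ℝ => ENNReal.ofReal
      (mfh2_phi κ (M.RR (M.mf X (sc v ω) (n0 + j)) z -
        mfh2_fl M z hN (M.mf X (sc v ω) (n0 + j)))) :=
      (hphim.comp ((hRm z _).sub (hfm _))).ennreal_ofReal
    have mPs : Measurable fun ω => ((A j).indicator (fun ω => ENNReal.ofReal
      (mfh2_phi κ (M.RR (M.mf X (sc v ω) (n0 + j)) z - mfh2_fl M z hN (M.mf X (sc v ω) (n0 + j)))))
        ω + (A j)ᶜ.indicator (fun _ => ENNReal.ofReal (9 * κ ^ 2)) ω) :=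
      (mP.indicator (hAm j)).add (measurable_const.indicator (hAm j).compl)
    rw [hPsi, ← lintegral_indicator_const mE, ← lintegral_add_left mPs]
    refine lintegral_mono fun a => ?_
    simp only
    by_cases ha : a ∈ A j
    · rw [Set.indicator_of_mem ha, Set.indicator_of_notMem (by simpa using ha), add_zero]
      have ha' := ha
      rw [hA] at ha'
      have hr : -(M1 : ℝ) + 2 ≤ M.RR (M.mf X (sc v a) (n0 + j)) z := ha' j le_rfl
      by_cases hD : M.RR (M.mf X (sc v a) (n0 + j)) z - 3 * κ ≤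
          mfh2_fl M z hN (M.mf X (sc v a) (n0 + j))
      · rw [Set.indicator_of_mem (show a ∈ {ω : ℕ → S → ℝ | ω ∈ A j ∧
          M.RR (M.mf X (sc v ω) (n0 + j)) z - 3 * κ ≤
          mfh2_fl M z hN (M.mf X (sc v ω) (n0 + j))} from ⟨ha, hD⟩)]
        refine (mfh2_one M v κ hv hκ hκ6 hvC z hN (M.mf X (sc v a) (n0 + j))
          (fun x => mf_nonpos M X hX _ _ x) M1 hr hD B hB).trans ?_
        refine lintegral_mono fun c => ?_
        simp only [V]
        rw [Set.indicator_of_mem ha, Set.indicator_of_notMem (by simpa using ha), add_zero]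
      · rw [Set.indicator_of_notMem (fun h => hD h.2)]
        have e0 : mfh2_phi κ (M.RR (M.mf X (sc v a) (n0 + j)) z -
            mfh2_fl M z hN (M.mf X (sc v a) (n0 + j))) = 0 := by
          unfold mfh2_phi
          rw [max_eq_left (by linarith [not_le.1 hD]), zero_pow two_ne_zero]
        rw [e0]
        simp
    · rw [Set.indicator_of_notMem ha, Set.indicator_of_mem (show a ∈ (A j)ᶜ from ha),
        Set.indicator_of_notMem (fun h => ha h.1), zero_add, add_zero]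
      have : ∀ c, ENNReal.ofReal (9 * κ ^ 2) ≤ V a c := by
        intro c
        simp only [V]
        rw [Set.indicator_of_notMem ha, Set.indicator_of_mem (show a ∈ (A j)ᶜ from ha), zero_add,
          add_assoc]
        exact le_self_add
      calc ENNReal.ofReal (9 * κ ^ 2) = ∫⁻ _c, ENNReal.ofReal (9 * κ ^ 2) ∂(nz S) := by simp
        _ ≤ _ := lintegral_mono this
  -- upper bound
  have hup : ∫⁻ ω, V ω (ω (n0 + j)) ∂(PI (nz S)) ≤
      Psi (j + 1) + ENNReal.ofReal (6 * κ) * ∫⁻ ω, ENNReal.ofReal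
          (M.RR (M.mf X (sc v ω) (n0 + j + 1)) z - M.mf X (sc v ω) (n0 + j + 1) z) ∂(PI (nz S)) +
        ENNReal.ofReal (12 * κ) * ∑ w ∈ B, ∫⁻ ω, ENNReal.ofReal
          (M.RR (M.mf X (sc v ω) (n0 + j)) w + sc v ω (n0 + j) w) ∂(PI (nz S)) := by
    have q1 : ∀ ω : ℕ → S → ℝ, M.mst (M.mf X (sc v ω) (n0 + j))
        (fun x => Real.sqrt v * ω (n0 + j) x) = M.mf X (sc v ω) (n0 + j + 1) := fun ω => rfl
    have q2 : ∀ (ω : ℕ → S → ℝ) w, sc v ω (n0 + j) w = Real.sqrt v * ω (n0 + j) w :=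
      fun ω w => rfl
    have mP : Measurable fun ω : ℕ → S → ℝ => ENNReal.ofReal
      (mfh2_phi κ (M.RR (M.mf X (sc v ω) (n0 + (j + 1))) z -
        mfh2_fl M z hN (M.mf X (sc v ω) (n0 + (j + 1))))) :=
      (hphim.comp ((hRm z _).sub (hfm _))).ennreal_ofReal
    have mPs : Measurable fun ω => ((A (j + 1)).indicator (fun ω => ENNReal.ofReal
      (mfh2_phi κ (M.RR (M.mf X (sc v ω) (n0 + (j + 1))) z -
        mfh2_fl M z hN (M.mf X (sc v ω) (n0 + (j + 1))))))
        ω + (A (j + 1))ᶜ.indicator (fun _ => ENNReal.ofReal (9 * κ ^ 2)) ω) :=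
      (mP.indicator (hAm (j + 1))).add (measurable_const.indicator (hAm (j + 1)).compl)
    have mL : Measurable fun ω : ℕ → S → ℝ => ENNReal.ofReal
          (M.RR (M.mf X (sc v ω) (n0 + j + 1)) z - M.mf X (sc v ω) (n0 + j + 1) z) := by
      have a2 : Measurable fun ω : ℕ → S → ℝ => M.mf X (sc v ω) (n0 + j + 1) z := by
        have := (measurable_pi_apply z).comp (mfh2_meas_F M v X (n0 + j + 1))
        simpa only [Function.comp_def] using this
      exact ((hRm z _).sub a2).ennreal_ofReal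
    have mC : ∀ w, Measurable fun ω : ℕ → S → ℝ => ENNReal.ofReal
          (M.RR (M.mf X (sc v ω) (n0 + j)) w + sc v ω (n0 + j) w) := by
      intro w
      simp only [q2]
      have a2 : Measurable fun ω : ℕ → S → ℝ => Real.sqrt v * ω (n0 + j) w := by fun_prop
      exact ((hRm w _).add a2).ennreal_ofReal
    have mQ : Measurable fun ω : ℕ → S → ℝ => ENNReal.ofReal (12 * κ) * ∑ w ∈ B, ENNReal.ofReal
          (M.RR (M.mf X (sc v ω) (n0 + j)) w + sc v ω (n0 + j) w) :=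
      (Finset.measurable_sum B fun w _ => mC w).const_mul _
    rw [hPsi, ← lintegral_finsetSum _ (fun w _ => mC w), ← lintegral_const_mul _ mL,
      ← lintegral_const_mul _ (Finset.measurable_sum B fun w _ => mC w),
      ← lintegral_add_left mPs, ← lintegral_add_right _ mQ]
    refine lintegral_mono fun ω => ?_
    simp only [V, q1, q2]
    gcongr ?_ + _ + _
    by_cases ha : ω ∈ A j
    · rw [Set.indicator_of_mem ha, Set.indicator_of_notMem (show ω ∉ (A j)ᶜ by simpa using ha),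
        add_zero]
      by_cases hb : ω ∈ A (j + 1)
      · rw [Set.indicator_of_mem hb, Set.indicator_of_notMem (show ω ∉ (A (j + 1))ᶜ by simpa using hb),
          add_zero]
        exact le_rfl
      · rw [Set.indicator_of_notMem hb, Set.indicator_of_mem (show ω ∈ (A (j + 1))ᶜ from hb),
          zero_add]
        apply ENNReal.ofReal_le_ofReal
        apply mfh2_phi_le κ hκ
        exact sub_nonneg.2 (mfh2_fl_le M z hN _)
    · have hb : ω ∉ A (j + 1) := by
        intro h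
        apply ha
        rw [hA] at h ⊢
        exact fun i hi => h i (by omega)
      rw [Set.indicator_of_notMem ha, Set.indicator_of_mem (show ω ∈ (A j)ᶜ from ha),
        Set.indicator_of_notMem hb, Set.indicator_of_mem (show ω ∈ (A (j + 1))ᶜ from hb)]
  rw [hstep] at hup
  exact hlow.trans hup

theorem floor_occ : ∃ C : ℝ, 1 ≤ C ∧ ∀ (S : Type) [Fintype S] (D : ℕ) (M : MSet S D) (v κ : ℝ),
    0 < v → 0 < κ → κ ≤ 1 / 6 → v ≤ κ ^ 2 / C → ∀ (X : S → ℝ), (∀ y, X y ≤ 0) →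
    ∀ (n0 n M1 : ℕ) (z : S) (E0 : ℝ), 0 ≤ E0 →
    (∫⁻ ω, ENNReal.ofReal (-(M.RR (M.mf X (sc v ω) n0) z)) ∂(PI (nz S)) ≤ ENNReal.ofReal E0) →
    ∑ j ∈ Finset.range n, PI (nz S) {ω | (∀ i, i ≤ j →
          -(M1 : ℝ) + 2 ≤ M.RR (M.mf X (sc v ω) (n0 + i)) z) ∧
        ((M.RR (M.mf X (sc v ω) (n0 + j)) z - 3 * κ : ℝ) : WithBot ℝ) ≤
          flr M (M.mf X (sc v ω) (n0 + j)) z}
      ≤ ENNReal.ofReal (C * κ * (E0 + (2 * M1 + 1) ^ D * (1 + n * v)) / v) := by
  refine ⟨80, by norm_num, ?_⟩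
  intro S _ D M v κ hv hκ hκ6 hvC X hX n0 n M1 z E0 hE0 hE
  classical
  by_cases hN : ∃ w, w ≠ z
  swap
  · -- no other point
    have h0 : ∀ j, {ω : ℕ → S → ℝ | (∀ i, i ≤ j →
          -(M1 : ℝ) + 2 ≤ M.RR (M.mf X (sc v ω) (n0 + i)) z) ∧
        ((M.RR (M.mf X (sc v ω) (n0 + j)) z - 3 * κ : ℝ) : WithBot ℝ) ≤
          flr M (M.mf X (sc v ω) (n0 + j)) z} = ∅ := by
      intro j
      ext ω
      simp only [Set.mem_ofPred_eq, Set.mem_empty_iff_false, iff_false, not_and]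
      intro _ h
      have e : flr M (M.mf X (sc v ω) (n0 + j)) z = ⊥ := by
        unfold flr
        have : (Finset.univ.filter fun z' : S => z' ≠ z) = ∅ := by
          apply Finset.filter_eq_empty_iff.2
          intro w _ hw
          exact hN ⟨w, hw⟩
        rw [this, Finset.sup_empty]
      rw [e] at h
      exact absurd h (by simp)
    simp only [h0, measure_empty, Finset.sum_const_zero]
    exact zero_le
  -- the ball
  set B : Finset S := Finset.univ.filter fun w => M.dd z w ≤ M1 with hBdef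
  have hB : ∀ w, M.dd z w ≤ M1 → w ∈ B := fun w hw => by simp [hBdef, hw]
  have hBc : B.card ≤ (2 * M1 + 1) ^ D := M.growth z M1 B fun y hy => by
    simpa [hBdef] using hy
  let A : ℕ → Set (ℕ → S → ℝ) := fun j =>
    {ω | ∀ i, i ≤ j → -(M1 : ℝ) + 2 ≤ M.RR (M.mf X (sc v ω) (n0 + i)) z}
  let Psi : ℕ → ℝ≥0∞ := fun j => ∫⁻ ω, ((A j).indicator (fun ω => ENNReal.ofReal
      (mfh2_phi κ (M.RR (M.mf X (sc v ω) (n0 + j)) z - mfh2_fl M z hN (M.mf X (sc v ω) (n0 + j)))))
        ω + (A j)ᶜ.indicator (fun _ => ENNReal.ofReal (9 * κ ^ 2)) ω) ∂(PI (nz S))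
  let P : ℕ → ℝ≥0∞ := fun j => PI (nz S) {ω | ω ∈ A j ∧
        M.RR (M.mf X (sc v ω) (n0 + j)) z - 3 * κ ≤ mfh2_fl M z hN (M.mf X (sc v ω) (n0 + j))}
  let L : ℕ → ℝ≥0∞ := fun j => ∫⁻ ω, ENNReal.ofReal
          (M.RR (M.mf X (sc v ω) (n0 + j + 1)) z - M.mf X (sc v ω) (n0 + j + 1) z) ∂(PI (nz S))
  let Q : ℕ → S → ℝ≥0∞ := fun j w => ∫⁻ ω, ENNReal.ofReal
          (M.RR (M.mf X (sc v ω) (n0 + j)) w + sc v ω (n0 + j) w) ∂(PI (nz S))
  have hset : ∀ j, PI (nz S) {ω : ℕ → S → ℝ | (∀ i, i ≤ j →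
          -(M1 : ℝ) + 2 ≤ M.RR (M.mf X (sc v ω) (n0 + i)) z) ∧
        ((M.RR (M.mf X (sc v ω) (n0 + j)) z - 3 * κ : ℝ) : WithBot ℝ) ≤
          flr M (M.mf X (sc v ω) (n0 + j)) z} = P j := by
    intro j
    congr 1
    ext ω
    simp only [Set.mem_ofPred_eq, A]
    rw [mfh2_flr M z hN]
  simp only [hset]
  have hstep : ∀ j, Psi j + ENNReal.ofReal (v / 4) * P j ≤ Psi (j + 1) +
      ENNReal.ofReal (6 * κ) * L j + ENNReal.ofReal (12 * κ) * ∑ w ∈ B, Q j w := fun j =>
    mfh2_tel M v κ hv hκ hκ6 hvC z hN X hX n0 M1 B hB A (fun _ => rfl) Psi (fun _ => rfl) j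
  have htel : ∀ n, ENNReal.ofReal (v / 4) * ∑ j ∈ Finset.range n, P j ≤ Psi n +
      ENNReal.ofReal (6 * κ) * ∑ j ∈ Finset.range n, L j +
      ENNReal.ofReal (12 * κ) * ∑ j ∈ Finset.range n, ∑ w ∈ B, Q j w := by
    intro n
    induction n with
    | zero => simp
    | succ n ih =>
      rw [Finset.sum_range_succ, Finset.sum_range_succ, Finset.sum_range_succ, mul_add, mul_add,
        mul_add]
      calc ENNReal.ofReal (v / 4) * ∑ j ∈ Finset.range n, P j + ENNReal.ofReal (v / 4) * P n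
          ≤ (Psi n + ENNReal.ofReal (6 * κ) * ∑ j ∈ Finset.range n, L j +
            ENNReal.ofReal (12 * κ) * ∑ j ∈ Finset.range n, ∑ w ∈ B, Q j w) +
            ENNReal.ofReal (v / 4) * P n := by gcongr
        _ = (Psi n + ENNReal.ofReal (v / 4) * P n) +
            (ENNReal.ofReal (6 * κ) * ∑ j ∈ Finset.range n, L j +
            ENNReal.ofReal (12 * κ) * ∑ j ∈ Finset.range n, ∑ w ∈ B, Q j w) := by ring
        _ ≤ (Psi (n + 1) + ENNReal.ofReal (6 * κ) * L n +
            ENNReal.ofReal (12 * κ) * ∑ w ∈ B, Q n w) +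
            (ENNReal.ofReal (6 * κ) * ∑ j ∈ Finset.range n, L j +
            ENNReal.ofReal (12 * κ) * ∑ j ∈ Finset.range n, ∑ w ∈ B, Q j w) := by
            exact add_le_add (hstep n) le_rfl
        _ = _ := by ring
  -- bounds
  have hPsi : Psi n ≤ ENNReal.ofReal (9 * κ ^ 2) := by
    calc Psi n ≤ ∫⁻ _ω, ENNReal.ofReal (9 * κ ^ 2) ∂(PI (nz S)) := by
          refine lintegral_mono fun ω => ?_
          simp only
          by_cases ha : ω ∈ A n
          · rw [Set.indicator_of_mem ha,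
              Set.indicator_of_notMem (show ω ∉ (A n)ᶜ by simpa using ha), add_zero]
            apply ENNReal.ofReal_le_ofReal
            apply mfh2_phi_le κ hκ
            have := mfh2_fl_le M z hN (M.mf X (sc v ω) (n0 + n))
            linarith
          · rw [Set.indicator_of_notMem ha, Set.indicator_of_mem (show ω ∈ (A n)ᶜ from ha),
              zero_add]
      _ = ENNReal.ofReal (9 * κ ^ 2) := by simp
  have hQ : ∀ w, ∑ j ∈ Finset.range n, Q j w ≤ ENNReal.ofReal (1 / 4 + n * v) := fun w =>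
    caps_exp M v hv X hX n0 n w
  have hL : ∑ j ∈ Finset.range n, L j ≤ ENNReal.ofReal (E0 + (1 / 4 + n * v)) := by
    have h := mfh2_lifts M v X hX n0 n z
    rw [ENNReal.ofReal_add hE0 (by positivity)]
    calc ∑ j ∈ Finset.range n, L j ≤ _ := le_trans le_self_add h
      _ ≤ _ := add_le_add hE (hQ z)
  have hQQ : ∑ j ∈ Finset.range n, ∑ w ∈ B, Q j w ≤
      ENNReal.ofReal ((2 * M1 + 1) ^ D * (1 / 4 + n * v)) := by
    rw [Finset.sum_comm]
    calc ∑ w ∈ B, ∑ j ∈ Finset.range n, Q j w ≤ ∑ _w ∈ B, ENNReal.ofReal (1 / 4 + n * v) :=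
          Finset.sum_le_sum fun w _ => hQ w
      _ = (B.card : ℝ≥0∞) * ENNReal.ofReal (1 / 4 + n * v) := by
          rw [Finset.sum_const, nsmul_eq_mul]
      _ ≤ (((2 * M1 + 1) ^ D : ℕ) : ℝ≥0∞) * ENNReal.ofReal (1 / 4 + n * v) := by
          gcongr
      _ = ENNReal.ofReal ((2 * M1 + 1) ^ D * (1 / 4 + n * v)) := by
          rw [ENNReal.ofReal_mul (by positivity), ← ENNReal.ofReal_natCast]
          push_cast
          rfl
  have hv4 : 0 < v / 4 := by positivity
  have htot : ENNReal.ofReal (v / 4) * ∑ j ∈ Finset.range n, P j ≤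
      ENNReal.ofReal (9 * κ ^ 2 + 6 * κ * (E0 + (1 / 4 + n * v)) +
        12 * κ * ((2 * M1 + 1) ^ D * (1 / 4 + n * v))) := by
    rw [ENNReal.ofReal_add (by positivity) (by positivity),
      ENNReal.ofReal_add (by positivity) (by positivity),
      ENNReal.ofReal_mul (show (0 : ℝ) ≤ 6 * κ by positivity),
      ENNReal.ofReal_mul (show (0 : ℝ) ≤ 12 * κ by positivity)]
    refine (htel n).trans ?_
    gcongr
  have hfin : ∑ j ∈ Finset.range n, P j ≤ ENNReal.ofReal ((9 * κ ^ 2 +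
      6 * κ * (E0 + (1 / 4 + n * v)) + 12 * κ * ((2 * M1 + 1) ^ D * (1 / 4 + n * v))) / (v / 4)) := by
    rw [ENNReal.ofReal_div_of_pos hv4]
    rw [ENNReal.le_div_iff_mul_le (Or.inl (by simpa using hv4)) (Or.inl ENNReal.ofReal_ne_top),
      mul_comm]
    exact htot
  refine hfin.trans (ENNReal.ofReal_le_ofReal ?_)
  rw [div_le_div_iff₀ hv4 hv]
  have hG : (1 : ℝ) ≤ (2 * (M1 : ℝ) + 1) ^ D := by
    apply one_le_pow₀
    have : (0 : ℝ) ≤ M1 := Nat.cast_nonneg _
    linarith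
  have hnv : 0 ≤ (n : ℝ) * v := by positivity
  have key : 9 * κ ^ 2 + 6 * κ * (E0 + (1 / 4 + n * v)) +
      12 * κ * ((2 * M1 + 1) ^ D * (1 / 4 + n * v)) ≤
      20 * κ * (E0 + (2 * M1 + 1) ^ D * (1 + n * v)) := by
    have h1 : 9 * κ ^ 2 ≤ 3 / 2 * κ := by nlinarith
    have h2 : 9 * κ + 6 * (E0 + (1 / 4 + n * v)) + 12 * ((2 * (M1 : ℝ) + 1) ^ D * (1 / 4 + n * v)) ≤
        20 * (E0 + (2 * (M1 : ℝ) + 1) ^ D * (1 + n * v)) := by
      have h3 : (n : ℝ) * v ≤ (2 * (M1 : ℝ) + 1) ^ D * (n * v) := by nlinarith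
      nlinarith
    nlinarith [mul_le_mul_of_nonneg_left h2 hκ.le]
  have := mul_le_mul_of_nonneg_right key hv.le
  nlinarith

end DynC

end

/-! ### from `Lib_MP_36b788c.MFh3` -/

section

/-!
# Height model: gaps (no site close to the top or to its floor, for most times)

`r_j = RR F_j`, `cap_j(z) = (r_j(z) + g_j(z))^+`, `fl_j(z) = max_{z' ≠ z} (r_j(z') - dd z z')`, `Δ_j(z) = r_j(z) - fl_j(z) ≥ 0`.

PROOF.
* `caps_exp`: `φ2(r) = ((r+1/2)^+)²`. `r_{j+1}(z) = F_{j+1}(z)` or both are `≤ -1`, so `φ2(r_{j+1}) = φ2(F_{j+1})`, `F_{j+1} = min 0 (r_j + g)`; `φ2(r+g) - φ2(min 0 (r+g)) = cap² + cap ≥ cap`,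
  `E φ2(r + g) ≤ φ2(r) + v`. Sum: `E Σ_j cap_j ≤ 1/4 + n v`.
* `top_occ`: `φ(r) = ((r+3κ)^+)²`, `κ ≤ 1/6`. If `r_j < -3κ`: `φ(r_{j+1}) ≥ 0 = φ(r_j)`. If `r_j ≥ -3κ`, `y = r_j + 3κ ∈ [0,3κ]`:
  `E φ(r_j + g) = y² + v - E((y+g)^-)²`, cap loss `φ(r+g) - φ(min 0 (r+g)) = cap² + 6κ cap`. `E((y+g)^-)² ≤ v/2`, `E cap² ≤ v/2`, and one of them is `≤ v/8` when `v ≤ κ²/C`
  (`y ≥ 3κ/2` or `r_j ≤ -3κ/2`, Gaussian tail). So `E φ(r_{j+1}) ≥ E φ(r_j) + (v/4) P(r_j ≥ -3κ) - 6κ E cap_j`. Sum.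
* `floor_occ`: `z*` = maximizer in `fl_j(z)`. `lift_{j+1}(z) = r_{j+1}(z) - F_{j+1}(z)`; if it is positive then `r_{j+1}(z) = F_{j+1}(z') - dd z z' ≤ fl_{j+1}(z)`, so `Δ_{j+1} = 0`.
  Without lift `Δ_{j+1} ≤ D0 + cap_j(z*)`, `D0 = Δ_j + g(z) - g(z*)` (`r_{j+1}(z*) ≥ F_{j+1}(z*) = r_j(z*) + g(z*) - cap`). With `φ(Δ) = ((3κ-Δ)^+)²`:
  `φ(Δ_{j+1}) ≥ φ((D0 + cap)^+) ≥ φ(D0^+) - 6κ cap`, `φ(D0^+) = φ(D0) - 6κ D0^- - (D0^-)²`. For `Δ_j ≤ 3κ`: `E φ(D0) - E (D0^-)² ≥ φ(Δ_j) + v/4` (variance `2v`, as above).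
  For `Δ_j > 3κ` use `φ(Δ_{j+1}) ≥ 0 = φ(Δ_j)`. Moreover `D0^- ≤ lift_{j+1}(z) + cap_j(z*)`. On `{τ > j}` (`r_i(z) ≥ -M1 + 2` for all `i ≤ j`) and `Δ_j ≤ 3κ`: `fl_j ≥ -M1+1`, so
  `dd z z* ≤ M1`, and `cap_j(z*) ≤ Σ_{dd z z' ≤ M1} cap_j(z')`. Stop the telescoping sum at `τ`. `E Σ lift(z) ≤ E(-r_{n0}(z)) + E Σ cap(z)` (`r_{j+1} = r_j + g - cap + lift`).
* `gap_occ`: if `F_j(z) < F_j(z') - dd z z' + 3κ` for some `z' ≠ z`, take for `z'` the maximizer over `z' ≠ z`: then `r_j(z') = F_j(z')` (otherwise `r_j(z')` comes from `z` itself, and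
  `F_j(z') - dd < F_j(z) - 2`), hence `Δ_j(z) ≤ 3κ`. Union over `z` in the ball. `E(-r_{n0}(z)) ≤ Ke + s + C √(n0 v + 1)` (`mf_stay`, `osc_exp_nz`); `P(τ ≤ ·)` from `mf_stay` and `osc_tail_nz`.
-/

open MeasureTheory ProbabilityTheory
open scoped ENNReal

namespace DynC

variable {S : Type} [Fintype S] {D : ℕ} (M : MSet S D)

private theorem MFh3_stay (X : S → ℝ) (g : ℕ → S → ℝ) (m : ℕ) (hm : 1 ≤ m) (z : S) (Ke : ℝ)
    (hKe : 0 ≤ Ke) (hX : -Ke ≤ X z) :
    -Ke - osc (fun j => g j z) m ≤ M.RR (M.mf X g m) z := by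
  have h1 := mf_stay M X g m hm z (osc (fun j => g j z) m) (osc_nonneg _ _) (by
    intro i hi
    have h2 := sum_le_osc (fun j => g j z) hi le_rfl
    exact (abs_le.1 h2).1)
  have h3 := self_le_RR M (M.mf X g m) z
  have h4 := self_le_RR M X z
  have h5 : -Ke ≤ min 0 (M.RR X z) := le_min (by linarith) (by linarith)
  linarith

private theorem MFh3_notgap (κ : ℝ) (hκ : 0 < κ) (F : S → ℝ) (z : S) (h : ¬ Gap M κ F z) :
    -(3 * κ) ≤ M.RR F z ∨ ((M.RR F z - 3 * κ : ℝ) : WithBot ℝ) ≤ flr M F z := by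
  classical
  by_cases h1 : F z ≤ -(3 * κ)
  · right
    have h2 : ∃ z', z' ≠ z ∧ F z < F z' - M.dd z z' + 3 * κ := by
      by_contra hcon
      push Not at hcon
      exact h ⟨h1, hcon⟩
    obtain ⟨z', hz', hlt⟩ := h2
    obtain ⟨z0, hz0, hmax⟩ := Finset.exists_max_image (Finset.univ.filter fun w => w ≠ z)
      (fun w => F w - (M.dd z w : ℝ)) ⟨z', by simp [hz']⟩
    have hz0' : z0 ≠ z := (Finset.mem_filter.1 hz0).2
    have h3 : F z' - M.dd z z' ≤ F z0 - M.dd z z0 := hmax z' (by simp [hz'])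
    have h4 : M.RR F z ≤ F z0 - M.dd z z0 + 3 * κ := by
      refine RR_le M F z _ fun w => ?_
      by_cases hw : w = z
      · subst hw
        rw [M.dd_self]
        simp only [Nat.cast_zero, sub_zero]
        linarith
      · have h5 : F w - M.dd z w ≤ F z0 - M.dd z z0 := hmax w (by simp [hw])
        linarith
    have h6 := self_le_RR M F z0
    have h7 : (M.RR F z - 3 * κ : ℝ) ≤ M.RR F z0 - M.dd z z0 := by linarith
    refine le_trans (WithBot.coe_le_coe.2 h7) ?_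
    unfold flr
    refine Finset.le_sup (f := fun z' => ((M.RR F z' - M.dd z z' : ℝ) : WithBot ℝ)) ?_
    simp [hz0']
  · left
    have h2 := self_le_RR M F z
    push Not at h1
    linarith

private theorem MFh3_E0 (v : ℝ) (hv : 0 < v) (X : S → ℝ) (n0 : ℕ) (hn0 : 1 ≤ n0) (z : S) (Ke : ℝ)
    (hKe : 0 ≤ Ke) (hX : -Ke ≤ X z) :
    ∫⁻ ω, ENNReal.ofReal (-(M.RR (M.mf X (sc v ω) n0) z)) ∂(PI (nz S)) ≤
      ENNReal.ofReal (Ke + 4 + 8 * v * n0) := by
  have hvn : 0 ≤ 8 * v * n0 := by positivity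
  have h1 : ∀ ω : ℕ → S → ℝ, ENNReal.ofReal (-(M.RR (M.mf X (sc v ω) n0) z)) ≤
      ENNReal.ofReal (Ke + 8 * v * n0) + ENNReal.ofReal (Real.exp (-(8 * v * n0))) *
        ENNReal.ofReal (Real.exp (1 * osc (fun j => sc v ω j z) n0)) := by
    intro ω
    rw [← ENNReal.ofReal_mul (Real.exp_pos _).le, ← Real.exp_add,
      ← ENNReal.ofReal_add (by positivity) (Real.exp_pos _).le]
    refine ENNReal.ofReal_le_ofReal ?_
    have h2 := MFh3_stay M X (sc v ω) n0 hn0 z Ke hKe hX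
    have h3 := Real.add_one_le_exp (-(8 * v * n0) + 1 * osc (fun j => sc v ω j z) n0)
    linarith
  refine (lintegral_mono h1).trans ?_
  rw [lintegral_add_left measurable_const, lintegral_const_mul' _ _ ENNReal.ofReal_ne_top,
    lintegral_const, measure_univ, mul_one]
  have h4 := osc_exp_nz 1 v zero_le_one hv.le n0 z
  refine (add_le_add le_rfl (mul_le_mul' le_rfl h4)).trans ?_
  rw [← ENNReal.ofReal_mul (Real.exp_pos _).le,
    ← ENNReal.ofReal_add (by positivity) (by positivity)]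
  refine ENNReal.ofReal_le_ofReal (le_of_eq ?_)
  have h5 : Real.exp (-(8 * v * n0)) * (4 * Real.exp (8 * 1 ^ 2 * v * n0)) = 4 := by
    have h6 : Real.exp (-(8 * v * n0)) * Real.exp (8 * 1 ^ 2 * v * n0) = 1 := by
      rw [← Real.exp_add]
      have : -(8 * v * n0) + 8 * 1 ^ 2 * v * n0 = 0 := by ring
      rw [this, Real.exp_zero]
    linear_combination 4 * h6
  rw [h5]
  ring

private theorem MFh3_tau (v : ℝ) (hv : 0 < v) (X : S → ℝ) (n0 n M1 : ℕ) (hn0 : 1 ≤ n0) (z : S)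
    (Ke : ℝ) (hKe : 0 ≤ Ke) (hX : -Ke ≤ X z) (hM : Ke + 2 ≤ M1) (j : ℕ) (hj : j < n) :
    PI (nz S) {ω | ¬ ∀ i, i ≤ j → -(M1 : ℝ) + 2 ≤ M.RR (M.mf X (sc v ω) (n0 + i)) z} ≤
      ENNReal.ofReal (4 * Real.exp (-((M1 - 2 - Ke) ^ 2) / (32 * (v * ((n0 + n : ℕ) : ℝ))))) := by
  refine le_trans (measure_mono ?_) (osc_tail_nz v hv (n0 + n) (by omega) z (M1 - 2 - Ke)
    (by linarith))
  intro ω hω
  simp only [Set.mem_ofPred_eq] at hω ⊢
  push Not at hω
  obtain ⟨i, hi, hlt⟩ := hω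
  have h1 := MFh3_stay M X (sc v ω) (n0 + i) (by omega) z Ke hKe hX
  have h2 := osc_mono (fun j => sc v ω j z) (show n0 + i ≤ n0 + n by omega)
  linarith

/-- for most times all sites of a ball have gaps -/
theorem gap_occ (D : ℕ) : ∃ C : ℝ, 1 ≤ C ∧ ∀ (S : Type) [Fintype S] (M : MSet S D) (v κ : ℝ),
    0 < v → 0 < κ → κ ≤ 1 / 6 → v ≤ κ ^ 2 / C → ∀ (X : S → ℝ), (∀ y, X y ≤ 0) →
    ∀ (n0 n M1 Rr : ℕ) (x : S) (Ke : ℝ), 1 ≤ n0 → 0 ≤ Ke →
    (∀ z, M.dd x z ≤ Rr → -Ke ≤ X z) → Ke + 2 ≤ M1 →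
    ∑ j ∈ Finset.range n, PI (nz S)
        {ω | ∃ z, M.dd x z ≤ Rr ∧ ¬ Gap M κ (M.mf X (sc v ω) (n0 + j)) z}
      ≤ ENNReal.ofReal ((2 * Rr + 1) ^ D * (C * κ * (Ke + C + (n0 + n) * v +
            (2 * M1 + 1) ^ D * (1 + n * v)) / v +
          n * C * Real.exp (-((M1 - 2 - Ke) ^ 2 / (C * ((n0 + n) * v)))))) := by
  classical
  obtain ⟨Ct, hCt1, hCt⟩ := top_occ
  obtain ⟨Cf, hCf1, hCf⟩ := floor_occ
  refine ⟨32 + Ct + 8 * Cf, by linarith, ?_⟩
  intro S _ M v κ hv hκ hκ6 hvκ X hX n0 n M1 Rr x Ke hn0 hKe hball hM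
  set C : ℝ := 32 + Ct + 8 * Cf with hC
  have hC0 : 0 < C := by linarith
  have hκ2 : 0 < κ ^ 2 := by positivity
  have hvt : v ≤ κ ^ 2 / Ct := hvκ.trans (div_le_div_of_nonneg_left hκ2.le (by linarith)
    (by linarith))
  have hvf : v ≤ κ ^ 2 / Cf := hvκ.trans (div_le_div_of_nonneg_left hκ2.le (by linarith)
    (by linarith))
  have hnv : 0 ≤ (n : ℝ) * v := by positivity
  have hn0v : 0 ≤ (n0 : ℝ) * v := by positivity
  let Bl : Finset S := Finset.univ.filter fun z => M.dd x z ≤ Rr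
  have hcard : (Bl.card : ℝ) ≤ (2 * Rr + 1) ^ D := by
    have h1 := M.growth x Rr Bl (fun y hy => (Finset.mem_filter.1 hy).2)
    calc (Bl.card : ℝ) ≤ (((2 * Rr + 1) ^ D : ℕ) : ℝ) := by exact_mod_cast h1
      _ = (2 * Rr + 1) ^ D := by push_cast; ring
  -- one site
  let a : ℝ := Ct * κ * (1 + n * v) / v
  let b : ℝ := Cf * κ * (Ke + 4 + 8 * v * n0 + (2 * M1 + 1) ^ D * (1 + n * v)) / v
  let e : ℝ := 4 * Real.exp (-((M1 - 2 - Ke) ^ 2) / (32 * (v * ((n0 + n : ℕ) : ℝ))))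
  have ha : 0 ≤ a := by positivity
  have hb : 0 ≤ b := by positivity
  have he : 0 ≤ e := by positivity
  have hsite : ∀ z ∈ Bl, ∑ j ∈ Finset.range n, PI (nz S)
      {ω | ¬ Gap M κ (M.mf X (sc v ω) (n0 + j)) z} ≤ ENNReal.ofReal (a + b + n * e) := by
    intro z hz
    have hXz : -Ke ≤ X z := hball z (Finset.mem_filter.1 hz).2
    have h1 : ∀ j ∈ Finset.range n, PI (nz S) {ω | ¬ Gap M κ (M.mf X (sc v ω) (n0 + j)) z} ≤
        PI (nz S) {ω | -(3 * κ) ≤ M.RR (M.mf X (sc v ω) (n0 + j)) z} +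
        PI (nz S) {ω | (∀ i, i ≤ j → -(M1 : ℝ) + 2 ≤ M.RR (M.mf X (sc v ω) (n0 + i)) z) ∧
          ((M.RR (M.mf X (sc v ω) (n0 + j)) z - 3 * κ : ℝ) : WithBot ℝ) ≤
            flr M (M.mf X (sc v ω) (n0 + j)) z} + ENNReal.ofReal e := by
      intro j hj
      have h2 : {ω : ℕ → S → ℝ | ¬ Gap M κ (M.mf X (sc v ω) (n0 + j)) z} ⊆
          ({ω | -(3 * κ) ≤ M.RR (M.mf X (sc v ω) (n0 + j)) z} ∪
          {ω | (∀ i, i ≤ j → -(M1 : ℝ) + 2 ≤ M.RR (M.mf X (sc v ω) (n0 + i)) z) ∧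
            ((M.RR (M.mf X (sc v ω) (n0 + j)) z - 3 * κ : ℝ) : WithBot ℝ) ≤
              flr M (M.mf X (sc v ω) (n0 + j)) z}) ∪
          {ω | ¬ ∀ i, i ≤ j → -(M1 : ℝ) + 2 ≤ M.RR (M.mf X (sc v ω) (n0 + i)) z} := by
        intro ω hω
        rcases MFh3_notgap M κ hκ _ z hω with h3 | h3
        · exact Or.inl (Or.inl h3)
        · by_cases h4 : ∀ i, i ≤ j → -(M1 : ℝ) + 2 ≤ M.RR (M.mf X (sc v ω) (n0 + i)) z
          · exact Or.inl (Or.inr ⟨h4, h3⟩)
          · exact Or.inr h4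
      refine (measure_mono h2).trans ((measure_union_le _ _).trans ?_)
      exact add_le_add (measure_union_le _ _)
        (MFh3_tau M v hv X n0 n M1 hn0 z Ke hKe hXz hM j (Finset.mem_range.1 hj))
    refine (Finset.sum_le_sum h1).trans ?_
    rw [Finset.sum_add_distrib, Finset.sum_add_distrib]
    have h5 := hCt S D M v κ hv hκ hκ6 hvt X hX n0 n z
    have h6 := hCf S D M v κ hv hκ hκ6 hvf X hX n0 n M1 z (Ke + 4 + 8 * v * n0) (by positivity)
      (MFh3_E0 M v hv X n0 hn0 z Ke hKe hXz)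
    have h7 : ∑ _j ∈ Finset.range n, ENNReal.ofReal e = ENNReal.ofReal (n * e) := by
      rw [Finset.sum_const, Finset.card_range, nsmul_eq_mul,
        ENNReal.ofReal_mul (Nat.cast_nonneg n), ENNReal.ofReal_natCast]
    rw [h7, ENNReal.ofReal_add (add_nonneg ha hb) (by positivity), ENNReal.ofReal_add ha hb]
    exact add_le_add (add_le_add h5 h6) le_rfl
  -- union over the ball
  have hun : ∀ j ∈ Finset.range n, PI (nz S)
      {ω | ∃ z, M.dd x z ≤ Rr ∧ ¬ Gap M κ (M.mf X (sc v ω) (n0 + j)) z} ≤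
      ∑ z ∈ Bl, PI (nz S) {ω | ¬ Gap M κ (M.mf X (sc v ω) (n0 + j)) z} := by
    intro j _
    refine le_trans (measure_mono ?_) (measure_biUnion_finset_le Bl _)
    intro ω hω
    obtain ⟨z, hz, hg⟩ := hω
    simp only [Set.mem_iUnion]
    exact ⟨z, by simp [Bl, hz], hg⟩
  refine (Finset.sum_le_sum hun).trans ?_
  rw [Finset.sum_comm]
  refine (Finset.sum_le_sum hsite).trans ?_
  rw [Finset.sum_const, nsmul_eq_mul, ← ENNReal.ofReal_natCast,
    ← ENNReal.ofReal_mul (Nat.cast_nonneg _)]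
  refine ENNReal.ofReal_le_ofReal ?_
  have hP : (1 : ℝ) ≤ (2 * M1 + 1) ^ D := one_le_pow₀ (by
    have : (0 : ℝ) ≤ M1 := Nat.cast_nonneg _
    linarith)
  refine mul_le_mul hcard ?_ (by positivity) (by positivity)
  refine add_le_add ?_ ?_
  · show Ct * κ * (1 + n * v) / v +
      Cf * κ * (Ke + 4 + 8 * v * n0 + (2 * M1 + 1) ^ D * (1 + n * v)) / v ≤ _
    rw [← add_div]
    refine div_le_div_of_nonneg_right ?_ hv.le
    have h8 : Ct * (1 + n * v) + Cf * (Ke + 4 + 8 * v * n0 + (2 * M1 + 1) ^ D * (1 + n * v)) ≤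
        C * (Ke + C + (n0 + n) * v + (2 * M1 + 1) ^ D * (1 + n * v)) := by
      have h9 : 0 ≤ (2 * (M1 : ℝ) + 1) ^ D * (1 + n * v) := by positivity
      have h10 : Ct + 4 * Cf ≤ C * C := by nlinarith
      have h11 : Cf * Ke ≤ C * Ke := mul_le_mul_of_nonneg_right (by linarith) hKe
      have h12 : Ct * (n * v) ≤ C * (n * v) := mul_le_mul_of_nonneg_right (by linarith) hnv
      have h13 : 8 * Cf * (n0 * v) ≤ C * (n0 * v) :=
        mul_le_mul_of_nonneg_right (by linarith) hn0v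
      have h14 : Cf * ((2 * (M1 : ℝ) + 1) ^ D * (1 + n * v)) ≤
          C * ((2 * (M1 : ℝ) + 1) ^ D * (1 + n * v)) :=
        mul_le_mul_of_nonneg_right (by linarith) h9
      linarith
    have h15 := mul_le_mul_of_nonneg_left h8 hκ.le
    linarith
  · show (n : ℝ) * (4 * Real.exp (-((M1 - 2 - Ke) ^ 2) / (32 * (v * ((n0 + n : ℕ) : ℝ))))) ≤ _
    rw [mul_assoc]
    refine mul_le_mul_of_nonneg_left ?_ (Nat.cast_nonneg n)
    refine mul_le_mul (by linarith) ?_ (Real.exp_pos _).le hC0.le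
    refine Real.exp_le_exp.2 ?_
    rw [neg_div]
    refine neg_le_neg ?_
    push_cast
    have hN : (0 : ℝ) < (n0 + n) * v := by
      have : (1 : ℝ) ≤ n0 := by exact_mod_cast hn0
      have : (0 : ℝ) ≤ n := Nat.cast_nonneg n
      positivity
    refine div_le_div_of_nonneg_left (sq_nonneg _) (by linarith [hN]) ?_
    have h16 : 32 * ((n0 + n) * v) ≤ C * ((n0 + n) * v) :=
      mul_le_mul_of_nonneg_right (by linarith) hN.le
    linarith

end DynC

end

/-! ### from `Lib_MP_36b788c.MFd` -/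

section

/-!
# Height model: the flip in one window

Window of `nu` steps. Base point `z`. Stage 1 (`j < n1`): control `+ cup v` on the ball `B(z,r1)`. Stage 2 (`n1 ≤ j < nu`): control
`- min (cd v) (RR F~_j - RR F_j)` on `B(z,r2)`. `F = mf F0 g`, `F~ = cst` (controlled heights), `F~_{j+1} = min 0 (RR F~_j + g_j + cu_j)`.

`Good`: (g1) `-KG - dd y z/8 ≤ RR F0 y`; (g2) `lppM (1/8)` of `±g` at `y` is `≤ Kn + dd y z/8`; (g3) oscillation over the first `n1` steps
`≤ 1/4` on `B(z,r1)`; (g4) `|Σ ⟨control, noise⟩| ≤ K'`.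

PROOF.
(a) `F_j(y) ≥ -KG - Kn - dd y z/4` for `1 ≤ j ≤ nu` and `RR F_j(y) ≥` the same for `0 ≤ j`: `mf_stay` with `c = Kn + dd y z/8`
    (`-Σ_{[i,j)} g(y) ≤ lpp(-g)` by `lpp_path` with the constant path).
(b) `F_j ≤ F~_j ≤ 0` by induction (`cu ≥ 0` in stage 1; in stage 2 `RR F~ + cu ≥ RR F`).
(c) `F~_j ≤ F_j + cup v j` for `j ≤ n1`; then `RR F~_j - RR F_j ≤ max 0 (cup v n1 - cd v (j - n1))` everywhere, by induction, using (d) outside
    `B(z,r2)`; so `F~_nu = F_nu` as `cd (nu - n1) ≥ cup n1` (look at the last step: `RR F~ - RR F ≤ cd v` at `j = nu-1`, whole difference is removed).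
(d) influence: by induction `F~_j(y) ≤ max (F_j y) (-(7/8)(dd y z - r1)^+ + W_j(y))`, `W_j = lpp (1/8) 0 g j`: for `y` in `B(z,r1)` the second entry is
    `≥ 0`; otherwise `cu_j(y) ≤ 0` and `RR F~_j(y) = F~_j(z') - dd y z'`, `W_{j+1}(y) ≥ W_j(z') - dd y z'/8 + g_j(y)` and
    `(dd z' z - r1)^+ + dd y z' ≥ (dd y z - r1)^+`. With (g2), (a): if `RR F_j(y) < RR F~_j(y)` then
    `-KG-Kn-dd/4 < -(7/8)(dd-r1) + Kn + dd/8`, i.e. `dd/2 < (7/8) r1 + KG + 2Kn`, so `dd y z ≤ r2`.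
(e) if `z = lin F0 g nu x nu` then `dd x z ≤ r0`: `mf_le_lin`, `gain_lin`, `F0 z ≤ 0`: `F_nu(x) ≤ -(7/8) len + Kn + dd x z/8` and (a) at `x`,
    `len ≥ dd x z`: `(1/2) dd ≤ KG + 2Kn`, `r0 ≥ 2KG + 4Kn`.
(f) the lineage of `F~` from `(x,nu)` is in `B(z,r1)` at time `n1`: let `y'` be its position. By `mf_le_lin` on `[n1,nu]` (controls `≤ 0`):
    `F_nu(x) = F~_nu(x) ≤ 0 - (7/8) dd x y' + Kn + dd x z/8`, so `dd x y' ≤ 2KG + 4Kn`, `dd y' z ≤ 4KG+8Kn ≤ r1`.
(g) it is cut: let `y` in `B(z,r1)`. For `j ≤ n1`: `F~_j(y) ≥ min (-KG - r1/8 - 1/4 + cup v j) (-1/4)` (as in `mf_stay`, with (g3)). Let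
    `j1` be the first `j` with `cup v j ≥ KG + r1/8`; `cup v j1 ≤ KG + r1/8 + 1`, so `cup v (n1 - j1) ≥ 3`. On `[j1,n1)`: `F~_j(y) ≥ -1/4 > -1`, so
    `am F~_j y = y` (`am_eq_self`): the lineage stays at `y`. If it were `η`-uncut there, `F~_{j+1}(y) ≥ F~_j(y) + g_j(y) + cup v - η`, hence
    `F~_{n1}(y) ≥ -1/4 - 1/4 + 3 - η n1 > 0`, contradiction (`η nu ≤ 1`).
-/

open MeasureTheory ProbabilityTheory
open scoped ENNReal

namespace DynC

/-- parameters of the flip -/
structure FPar where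
  v : ℝ
  η : ℝ
  cup : ℝ
  cd : ℝ
  KG : ℝ
  Kn : ℝ
  Kp : ℝ
  n1 : ℕ
  nu : ℕ
  r0 : ℕ
  r1 : ℕ
  r2 : ℕ
  hv : 0 < v
  hη : 0 < η
  hcup : 0 < cup
  hcd : 0 < cd
  hKG : 0 ≤ KG
  hKn : 0 ≤ Kn
  hKp : 0 ≤ Kp
  hn : n1 < nu
  hηn : η * nu ≤ 1
  hcv : cup * v ≤ 1
  hr0 : 2 * KG + 4 * Kn ≤ r0
  hr1 : 4 * KG + 8 * Kn ≤ r1
  hr2 : 2 * r1 + 2 * KG + 4 * Kn ≤ (r2 : ℝ)
  hup : KG + r1 / 8 + 4 ≤ cup * (v * n1)
  hdn : cup * (v * n1) ≤ cd * (v * ((nu : ℝ) - n1))

variable {S : Type} [Fintype S] {D : ℕ} (M : MSet S D)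

/-- control in units of the increments -/
noncomputable def cu (P : FPar) (z : S) (j : ℕ) (Ft F : S → ℝ) : S → ℝ := fun y =>
  if j < P.n1 then (if M.dd y z ≤ P.r1 then P.cup * P.v else 0)
  else if j < P.nu then
    (if M.dd y z ≤ P.r2 then -(min (P.cd * P.v) (M.RR Ft y - M.RR F y)) else 0)
  else 0

/-- controlled heights -/
noncomputable def cst (P : FPar) (z : S) (F0 : S → ℝ) (g : ℕ → S → ℝ) : ℕ → S → ℝ
  | 0 => F0
  | j + 1 => M.mst (cst P z F0 g j)
      (fun y => g j y + cu M P z j (cst P z F0 g j) (M.mf F0 g j) y)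

/-- the control along the path -/
noncomputable def cuP (P : FPar) (z : S) (F0 : S → ℝ) (g : ℕ → S → ℝ) (j : ℕ) : S → ℝ :=
  cu M P z j (cst M P z F0 g j) (M.mf F0 g j)

/-- good base point: deterministic part (increments `g`) -/
structure GoodD (P : FPar) (F0 : S → ℝ) (g : ℕ → S → ℝ) (z : S) : Prop where
  g1 : ∀ y, -P.KG - M.dd y z / 8 ≤ M.RR F0 y
  g2 : ∀ y, M.lppM (1 / 8) (fun _ => 0) g P.nu y ≤ P.Kn + M.dd y z / 8
  g2' : ∀ y, M.lppM (1 / 8) (fun _ => 0) (-g) P.nu y ≤ P.Kn + M.dd y z / 8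
  g3 : ∀ y, M.dd y z ≤ P.r1 → osc (fun j => g j y) P.n1 ≤ 1 / 4

/-- good base point, `ω` = noise with unit variance -/
def GoodW (P : FPar) (F0 : S → ℝ) (ω : ℕ → S → ℝ) (z : S) : Prop :=
  GoodD M P F0 (sc P.v ω) z ∧
    |∑ j ∈ Finset.range P.nu, ∑ y, (cuP M P z F0 (sc P.v ω) j y / Real.sqrt P.v) * ω j y| ≤ P.Kp

private theorem MFd_cst_succ (P : FPar) (z : S) (F0 : S → ℝ) (g : ℕ → S → ℝ) (n : ℕ) :
    cst M P z F0 g (n + 1) = M.mst (cst M P z F0 g n)
      (fun y => g n y + cuP M P z F0 g n y) := rfl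

private theorem MFd_mf_succ (X : S → ℝ) (g : ℕ → S → ℝ) (n : ℕ) (y : S) :
    M.mf X g (n + 1) y = min 0 (M.RR (M.mf X g n) y + g n y) := rfl

private theorem MFd_cst_succ' (P : FPar) (z : S) (F0 : S → ℝ) (g : ℕ → S → ℝ) (n : ℕ) (y : S) :
    cst M P z F0 g (n + 1) y =
      min 0 (M.RR (cst M P z F0 g n) y + (g n y + cuP M P z F0 g n y)) := rfl

theorem cst_eq_mf (P : FPar) (z : S) (F0 : S → ℝ) (g : ℕ → S → ℝ) (n : ℕ) :
    cst M P z F0 g n = M.mf F0 (fun j y => g j y + cuP M P z F0 g j y) n := by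
  induction n with
  | zero => rfl
  | succ n ih =>
    funext y
    rw [MFd_cst_succ', MFd_mf_succ, ih]

theorem flip_mono (P : FPar) (z : S) (F0 : S → ℝ) (g : ℕ → S → ℝ) (j : ℕ)
    (y : S) : M.mf F0 g j y ≤ cst M P z F0 g j y := by
  induction j generalizing y with
  | zero => exact le_rfl
  | succ j ih =>
    rw [MFd_cst_succ', MFd_mf_succ]
    refine min_le_min le_rfl ?_
    have h1 : M.RR (M.mf F0 g j) y ≤ M.RR (cst M P z F0 g j) y := RR_mono M _ _ ih y
    have h2 : M.RR (M.mf F0 g j) y ≤ M.RR (cst M P z F0 g j) y + cuP M P z F0 g j y := by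
      unfold cuP cu
      split_ifs
      · have := mul_pos P.hcup P.hv
        linarith
      · linarith
      · have := min_le_right (P.cd * P.v)
          (M.RR (cst M P z F0 g j) y - M.RR (M.mf F0 g j) y)
        linarith
      · linarith
      · linarith
    linarith

private theorem MFd_RR_mono (P : FPar) (z : S) (F0 : S → ℝ) (g : ℕ → S → ℝ) (j : ℕ) (y : S) :
    M.RR (M.mf F0 g j) y ≤ M.RR (cst M P z F0 g j) y :=
  RR_mono M _ _ (flip_mono M P z F0 g j) y

/-- outside `B(z, r1)` the control is `≤ 0` -/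
private theorem MFd_cuP_out (P : FPar) (z : S) (F0 : S → ℝ) (g : ℕ → S → ℝ) (j : ℕ) (y : S)
    (h : P.r1 < M.dd y z ∨ P.n1 ≤ j) : cuP M P z F0 g j y ≤ 0 := by
  have h1 := MFd_RR_mono M P z F0 g j y
  have h2 : 0 < P.cd * P.v := mul_pos P.hcd P.hv
  unfold cuP cu
  split_ifs
  · omega
  · exact le_rfl
  · have : 0 ≤ min (P.cd * P.v) (M.RR (cst M P z F0 g j) y - M.RR (M.mf F0 g j) y) :=
      le_min h2.le (by linarith)
    linarith
  · exact le_rfl
  · exact le_rfl

private theorem MFd_neg_sum (g : ℕ → S → ℝ) (z y : S) (Kn : ℝ) (n : ℕ)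
    (h : M.lppM (1 / 8) (fun _ => 0) (-g) n y ≤ Kn + M.dd y z / 8) {i j : ℕ} (hij : i ≤ j)
    (hj : j ≤ n) : -(Kn + M.dd y z / 8) ≤ ∑ l ∈ Finset.Ico i j, g l y := by
  have h1 := lpp_path M (1 / 8) (fun _ => 0) (fun _ => le_rfl) (-g) (fun _ => y) hij
  have h2 := le_lppM M (1 / 8) (fun _ => 0) (-g) hj y
  have h3 : ∑ i ∈ Finset.Ico i j, ((-g) i y - 1 / 8 * (M.dd y y : ℝ)) =
      -∑ l ∈ Finset.Ico i j, g l y := by
    rw [← Finset.sum_neg_distrib]
    refine Finset.sum_congr rfl fun l _ => ?_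
    rw [M.dd_self, Nat.cast_zero, mul_zero, sub_zero]
    rfl
  rw [h3] at h1
  linarith

theorem flip_low (P : FPar) (z : S) (F0 : S → ℝ) (g : ℕ → S → ℝ)
    (hG : GoodD M P F0 g z) (j : ℕ) (hj : j ≤ P.nu) (y : S) :
    -P.KG - P.Kn - M.dd y z / 4 ≤ M.RR (M.mf F0 g j) y ∧
      (1 ≤ j → -P.KG - P.Kn - M.dd y z / 4 ≤ M.mf F0 g j y) := by
  have hKn := P.hKn
  have hKG := P.hKG
  have hdd : (0 : ℝ) ≤ M.dd y z := Nat.cast_nonneg _
  have h1 : 1 ≤ j → -P.KG - P.Kn - M.dd y z / 4 ≤ M.mf F0 g j y := by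
    intro hj1
    have h2 := mf_stay M F0 g j hj1 y (P.Kn + M.dd y z / 8) (by positivity)
      fun i hi => MFd_neg_sum M g z y P.Kn P.nu (hG.g2' y) hi hj
    have h3 := hG.g1 y
    have h4 : -P.KG - M.dd y z / 8 ≤ min 0 (M.RR F0 y) := le_min (by linarith) h3
    linarith
  refine ⟨?_, h1⟩
  rcases Nat.eq_zero_or_pos j with rfl | hj1
  · have h3 := hG.g1 y
    change -P.KG - P.Kn - M.dd y z / 4 ≤ M.RR F0 y
    linarith
  · exact (h1 hj1).trans (self_le_RR M _ y)

/-- positive part of `dd y z - r1` -/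
private noncomputable def MFd_pp (P : FPar) (z y : S) : ℝ := max ((M.dd y z : ℝ) - P.r1) 0

private theorem MFd_pp_tri (P : FPar) (z y y' : S) :
    MFd_pp M P z y ≤ MFd_pp M P z y' + M.dd y y' := by
  unfold MFd_pp
  have h1 : (M.dd y z : ℝ) ≤ M.dd y y' + M.dd y' z := by exact_mod_cast M.dd_tri y y' z
  have h2 : (0 : ℝ) ≤ M.dd y y' := Nat.cast_nonneg _
  refine max_le ?_ ?_
  · have := le_max_left ((M.dd y' z : ℝ) - P.r1) 0
    linarith
  · have := le_max_right ((M.dd y' z : ℝ) - P.r1) 0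
    linarith

/-- influence -/
private theorem MFd_infl (P : FPar) (z : S) (F0 : S → ℝ) (g : ℕ → S → ℝ) (j : ℕ) (y : S) :
    cst M P z F0 g j y ≤ max (M.mf F0 g j y)
      (-(7 / 8 * MFd_pp M P z y) + M.lpp (1 / 8) (fun _ => 0) g j y) := by
  induction j generalizing y with
  | zero => exact le_max_left _ _
  | succ j ih =>
    by_cases hy : M.dd y z ≤ P.r1
    · refine le_max_of_le_right ?_
      have h1 : MFd_pp M P z y = 0 := by
        unfold MFd_pp
        refine max_eq_right ?_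
        have : (M.dd y z : ℝ) ≤ P.r1 := by exact_mod_cast hy
        linarith
      rw [h1, mul_zero, neg_zero, zero_add]
      refine le_trans ?_ (lpp_nonneg M _ _ (fun _ => le_rfl) g (j + 1) y)
      rw [MFd_cst_succ']
      exact min_le_left _ _
    · have hcu := MFd_cuP_out M P z F0 g j y (Or.inl (not_le.1 hy))
      have hspec := am_spec M (cst M P z F0 g j) y
      obtain ⟨z', hz'⟩ : ∃ z', z' = M.am (cst M P z F0 g j) y := ⟨_, rfl⟩
      rw [← hz'] at hspec
      rcases le_max_iff.1 (ih z') with h1 | h1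
      · refine le_max_of_le_left ?_
        rw [MFd_cst_succ', MFd_mf_succ]
        refine min_le_min le_rfl ?_
        have h2 := le_RR M (M.mf F0 g j) y z'
        linarith
      · refine le_max_of_le_right ?_
        have hW : M.lpp (1 / 8) (fun _ => 0) g j z' - 1 / 8 * M.dd y z' + g j y ≤
            M.lpp (1 / 8) (fun _ => 0) g (j + 1) y := by
          change _ ≤ max 0 (max (M.lpp (1 / 8) (fun _ => 0) g j y + g j y)
            (M.Rq1 (1 / 8) (M.lpp (1 / 8) (fun _ => 0) g j) y + max (g j y) 0))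
          by_cases hzy : y = z'
          · rw [← hzy, M.dd_self]
            refine le_max_of_le_right (le_max_of_le_left ?_)
            simp
          · refine le_max_of_le_right (le_max_of_le_right ?_)
            have h3 := le_Rq1 M (1 / 8) (M.lpp (1 / 8) (fun _ => 0) g j) y z'
            have h4 : (1 : ℝ) ≤ M.dd y z' := by exact_mod_cast M.dd_pos y z' hzy
            rw [max_eq_left h4] at h3
            have h5 := le_max_left (g j y) 0
            linarith
        have hpp := MFd_pp_tri M P z y z'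
        have h6 : cst M P z F0 g (j + 1) y ≤
            M.RR (cst M P z F0 g j) y + (g j y + cuP M P z F0 g j y) := by
          rw [MFd_cst_succ']
          exact min_le_right _ _
        linarith

theorem flip_infl (P : FPar) (z : S) (F0 : S → ℝ) (hF : ∀ y, F0 y ≤ 0) (g : ℕ → S → ℝ)
    (hG : GoodD M P F0 g z) (j : ℕ) (hj : j ≤ P.nu) (y : S)
    (hlt : M.RR (M.mf F0 g j) y < M.RR (cst M P z F0 g j) y) : M.dd y z ≤ P.r2 := by
  have hspec := am_spec M (cst M P z F0 g j) y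
  obtain ⟨z', hz'⟩ : ∃ z', z' = M.am (cst M P z F0 g j) y := ⟨_, rfl⟩
  rw [← hz'] at hspec
  rcases le_max_iff.1 (MFd_infl M P z F0 g j z') with h1 | h1
  · have h2 := le_RR M (M.mf F0 g j) y z'
    linarith
  · have hW : M.lpp (1 / 8) (fun _ => 0) g j z' ≤ P.Kn + M.dd z' z / 8 :=
      (le_lppM M (1 / 8) (fun _ => 0) g hj z').trans (hG.g2 z')
    have hlow := (flip_low M P z F0 g hG j hj y).1
    have hpp := MFd_pp_tri M P z y z'
    have hpp2 : (M.dd y z : ℝ) - P.r1 ≤ MFd_pp M P z y := le_max_left _ _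
    have htri : (M.dd z' z : ℝ) ≤ M.dd y z' + M.dd y z := by
      have h3 := M.dd_tri z' y z
      rw [M.dd_comm z' y] at h3
      exact_mod_cast h3
    have hr2 := P.hr2
    have hr1 : (0 : ℝ) ≤ P.r1 := Nat.cast_nonneg _
    have h5 : (M.dd y z : ℝ) ≤ P.r2 := by linarith
    exact_mod_cast h5

/-- the difference after stage 1 -/
private theorem MFd_up (P : FPar) (z : S) (F0 : S → ℝ) (g : ℕ → S → ℝ) (j : ℕ) (hj : j ≤ P.n1)
    (y : S) : cst M P z F0 g j y ≤ M.mf F0 g j y + P.cup * P.v * j := by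
  induction j generalizing y with
  | zero =>
    rw [Nat.cast_zero, mul_zero, add_zero]
    exact le_rfl
  | succ j ih =>
    have h1 := RR_add M _ _ _ (ih (by omega)) y
    have hcv : 0 < P.cup * P.v := mul_pos P.hcup P.hv
    have h2 : cuP M P z F0 g j y ≤ P.cup * P.v := by
      unfold cuP cu
      rw [if_pos (show j < P.n1 by omega)]
      split_ifs
      · exact le_rfl
      · exact hcv.le
    rw [MFd_cst_succ', MFd_mf_succ]
    have h3 : (0 : ℝ) ≤ P.cup * P.v * ((j + 1 : ℕ) : ℝ) := by positivity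
    rw [← min_add_add_right, zero_add]
    refine min_le_min h3 ?_
    push_cast
    linarith

/-- the difference in stage 2 -/
private theorem MFd_down (P : FPar) (z : S) (F0 : S → ℝ) (hF : ∀ y, F0 y ≤ 0) (g : ℕ → S → ℝ)
    (hG : GoodD M P F0 g z) (i : ℕ) (hi : P.n1 + i ≤ P.nu) (y : S) :
    cst M P z F0 g (P.n1 + i) y ≤ M.mf F0 g (P.n1 + i) y +
      max 0 (P.cup * P.v * P.n1 - P.cd * P.v * i) := by
  induction i generalizing y with
  | zero =>
    rw [add_zero, Nat.cast_zero, mul_zero, sub_zero]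
    have h1 := MFd_up M P z F0 g P.n1 le_rfl y
    have h2 := le_max_right 0 (P.cup * P.v * (P.n1 : ℝ))
    linarith
  | succ i ih =>
    have h1 := RR_add M _ _ _ (ih (by omega)) y
    have hcd : 0 < P.cd * P.v := mul_pos P.hcd P.hv
    obtain ⟨d, hd⟩ : ∃ d, d = max 0 (P.cup * P.v * P.n1 - P.cd * P.v * i) := ⟨_, rfl⟩
    obtain ⟨d', hd'⟩ : ∃ d', d' = max 0 (P.cup * P.v * P.n1 - P.cd * P.v * ((i + 1 : ℕ) : ℝ)) :=
      ⟨_, rfl⟩
    have hd0 : 0 ≤ d' := by
      rw [hd']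
      exact le_max_left _ _
    have hdd' : d - P.cd * P.v ≤ d' := by
      rw [hd, hd', sub_le_iff_le_add]
      refine max_le ?_ ?_
      · have := le_max_left 0 (P.cup * P.v * P.n1 - P.cd * P.v * ((i + 1 : ℕ) : ℝ))
        linarith
      · have := le_max_right 0 (P.cup * P.v * P.n1 - P.cd * P.v * ((i + 1 : ℕ) : ℝ))
        push_cast at this ⊢
        linarith
    rw [← hd] at h1
    rw [← hd', ← add_assoc, MFd_cst_succ', MFd_mf_succ, ← min_add_add_right, zero_add]
    refine min_le_min hd0 ?_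
    have hmono := MFd_RR_mono M P z F0 g (P.n1 + i) y
    by_cases hy : M.dd y z ≤ P.r2
    · have h2 : cuP M P z F0 g (P.n1 + i) y = -(min (P.cd * P.v)
          (M.RR (cst M P z F0 g (P.n1 + i)) y - M.RR (M.mf F0 g (P.n1 + i)) y)) := by
        unfold cuP cu
        rw [if_neg (show ¬ (P.n1 + i < P.n1) by omega), if_pos (show P.n1 + i < P.nu by omega),
          if_pos hy]
      rw [h2]
      rcases min_choice (P.cd * P.v)
          (M.RR (cst M P z F0 g (P.n1 + i)) y - M.RR (M.mf F0 g (P.n1 + i)) y) with h3 | h3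
      · rw [h3]
        linarith
      · rw [h3]
        linarith
    · have h2 : M.RR (cst M P z F0 g (P.n1 + i)) y ≤ M.RR (M.mf F0 g (P.n1 + i)) y := by
        by_contra hcon
        exact hy (flip_infl M P z F0 hF g hG (P.n1 + i) (by omega) y (not_le.1 hcon))
      have h3 := MFd_cuP_out M P z F0 g (P.n1 + i) y (Or.inr (by omega))
      linarith

theorem flip_end (P : FPar) (z : S) (F0 : S → ℝ) (hF : ∀ y, F0 y ≤ 0) (g : ℕ → S → ℝ)
    (hG : GoodD M P F0 g z) : cst M P z F0 g P.nu = M.mf F0 g P.nu := by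
  funext y
  refine le_antisymm ?_ (flip_mono M P z F0 g P.nu y)
  have hn := P.hn
  have h1 := MFd_down M P z F0 hF g hG (P.nu - P.n1) (by omega) y
  have h2 : P.n1 + (P.nu - P.n1) = P.nu := by omega
  rw [h2] at h1
  have h3 : max 0 (P.cup * P.v * P.n1 - P.cd * P.v * ((P.nu - P.n1 : ℕ) : ℝ)) = 0 := by
    refine max_eq_left ?_
    rw [Nat.cast_sub hn.le]
    have h4 := P.hdn
    linarith
  rw [h3, add_zero] at h1
  exact h1

private theorem MFd_disp (P : FPar) (F0 : S → ℝ) (hF : ∀ y, F0 y ≤ 0) (g : ℕ → S → ℝ) (x : S)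
    (hG : GoodD M P F0 g (M.lin F0 g P.nu x P.nu)) :
    (M.dd x (M.lin F0 g P.nu x P.nu) : ℝ) ≤ 2 * P.KG + 4 * P.Kn := by
  have hn := P.hn
  have h1 := mf_le_lin M F0 g P.nu x P.nu le_rfl
  have h2 := gain_lin M F0 g P.nu x P.nu le_rfl
  have h3 := dd_lin M F0 g P.nu x P.nu
  have h4 := hG.g2 x
  have h5 := (flip_low M P _ F0 g hG P.nu le_rfl x).2 (by omega)
  rw [Finset.sum_sub_distrib, Nat.sub_self] at h1
  have h6 : M.mf F0 g 0 (M.lin F0 g P.nu x P.nu) ≤ 0 := hF _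
  linarith

theorem flip_disp (P : FPar) (F0 : S → ℝ) (hF : ∀ y, F0 y ≤ 0) (g : ℕ → S → ℝ) (x : S)
    (hG : GoodD M P F0 g (M.lin F0 g P.nu x P.nu)) : M.dd x (M.lin F0 g P.nu x P.nu) ≤ P.r0 := by
  have h1 := (MFd_disp M P F0 hF g x hG).trans P.hr0
  exact_mod_cast h1

private theorem MFd_pos (P : FPar) (F0 : S → ℝ) (hF : ∀ y, F0 y ≤ 0) (g : ℕ → S → ℝ) (x z : S)
    (hz : M.lin F0 g P.nu x P.nu = z) (hG : GoodD M P F0 g z) :
    M.dd (M.lin F0 (fun j y => g j y + cuP M P z F0 g j y) P.nu x (P.nu - P.n1)) z ≤ P.r1 := by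
  have hn := P.hn
  obtain ⟨g', hg'⟩ : ∃ g' : ℕ → S → ℝ, g' = fun j y => g j y + cuP M P z F0 g j y := ⟨_, rfl⟩
  rw [← hg']
  obtain ⟨L, hL⟩ : ∃ L : ℕ → S, L = M.lin F0 g' P.nu x := ⟨_, rfl⟩
  have hL0 : L 0 = x := by rw [hL]; rfl
  have h1 := mf_le_lin M F0 g' P.nu x (P.nu - P.n1) (by omega)
  have hlen := dd_lin M F0 g' P.nu x (P.nu - P.n1)
  rw [← hL] at h1 hlen ⊢
  have h2 : M.mf F0 g' P.nu x = M.mf F0 g P.nu x := by
    rw [hg', ← cst_eq_mf, flip_end M P z F0 hF g hG]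
  have h3 : M.mf F0 g' (P.nu - (P.nu - P.n1)) (L (P.nu - P.n1)) ≤ 0 := mf_nonpos M F0 hF g' _ _
  have h4 : ∑ l ∈ Finset.range (P.nu - P.n1), (g' (P.nu - (l + 1)) (L l) -
      (M.dd (L l) (L (l + 1)) : ℝ)) ≤
      ∑ l ∈ Finset.range (P.nu - P.n1), ((g (P.nu - (l + 1)) (L l) -
      1 / 8 * (M.dd (L l) (L (l + 1)) : ℝ)) - 7 / 8 * (M.dd (L l) (L (l + 1)) : ℝ)) := by
    refine Finset.sum_le_sum fun l hl => ?_
    have hl' := Finset.mem_range.1 hl
    have h5 := MFd_cuP_out M P z F0 g (P.nu - (l + 1)) (L l) (Or.inr (by omega))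
    rw [hg']
    change g (P.nu - (l + 1)) (L l) + cuP M P z F0 g (P.nu - (l + 1)) (L l) - _ ≤ _
    linarith
  have h4' : ∑ l ∈ Finset.range (P.nu - P.n1), ((g (P.nu - (l + 1)) (L l) -
      1 / 8 * (M.dd (L l) (L (l + 1)) : ℝ)) - 7 / 8 * (M.dd (L l) (L (l + 1)) : ℝ)) =
      ∑ l ∈ Finset.range (P.nu - P.n1), (g (P.nu - (l + 1)) (L l) -
      1 / 8 * (M.dd (L l) (L (l + 1)) : ℝ)) -
      7 / 8 * ∑ l ∈ Finset.range (P.nu - P.n1), (M.dd (L l) (L (l + 1)) : ℝ) := by
    rw [Finset.mul_sum]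
    exact Finset.sum_sub_distrib (fun l => g (P.nu - (l + 1)) (L l) -
      1 / 8 * (M.dd (L l) (L (l + 1)) : ℝ)) (fun l => 7 / 8 * (M.dd (L l) (L (l + 1)) : ℝ))
  rw [h4'] at h4
  have h5 := lpp_path M (1 / 8) (fun _ => 0) (fun _ => le_rfl) g (fun i => L (P.nu - i)) hn.le
  have h6 : ∑ i ∈ Finset.Ico P.n1 P.nu, (g i (L (P.nu - (i + 1))) -
      1 / 8 * (M.dd (L (P.nu - i)) (L (P.nu - (i + 1))) : ℝ)) =
      ∑ l ∈ Finset.range (P.nu - P.n1), (g (P.nu - (l + 1)) (L l) -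
      1 / 8 * (M.dd (L l) (L (l + 1)) : ℝ)) := by
    refine Finset.sum_nbij' (fun i => P.nu - (i + 1)) (fun l => P.nu - (l + 1)) ?_ ?_ ?_ ?_ ?_
    · intro i hi
      rw [Finset.mem_Ico] at hi
      rw [Finset.mem_range]
      omega
    · intro l hl
      rw [Finset.mem_range] at hl
      rw [Finset.mem_Ico]
      omega
    · intro i hi
      rw [Finset.mem_Ico] at hi
      omega
    · intro l hl
      rw [Finset.mem_range] at hl
      omega
    · intro i hi
      rw [Finset.mem_Ico] at hi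
      have h7 : P.nu - (P.nu - (i + 1) + 1) = i := by omega
      have h8 : P.nu - i = P.nu - (i + 1) + 1 := by omega
      rw [h7, h8, M.dd_comm]
  rw [h6, Nat.sub_self, hL0] at h5
  have h7 := (le_lppM M (1 / 8) (fun _ => 0) g (le_refl P.nu) x).trans (hG.g2 x)
  have h8 := (flip_low M P z F0 g hG P.nu le_rfl x).2 (by omega)
  have h9 : (M.dd x z : ℝ) ≤ 2 * P.KG + 4 * P.Kn := by
    have := MFd_disp M P F0 hF g x (hz.symm ▸ hG)
    rwa [hz] at this
  have h10 : (M.dd (L (P.nu - P.n1)) z : ℝ) ≤ M.dd x (L (P.nu - P.n1)) + M.dd x z := by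
    have := M.dd_tri (L (P.nu - P.n1)) x z
    rw [M.dd_comm (L (P.nu - P.n1)) x] at this
    exact_mod_cast this
  have h11 := P.hr1
  have h12 : (M.dd (L (P.nu - P.n1)) z : ℝ) ≤ P.r1 := by linarith
  exact_mod_cast h12

/-- the height at a site with a constant control -/
private theorem MFd_walk (P : FPar) (z : S) (F0 : S → ℝ) (g : ℕ → S → ℝ) (y : S)
    (hy : M.dd y z ≤ P.r1) (j : ℕ) (hj1 : 1 ≤ j) (hj : j ≤ P.n1) (c : ℝ)
    (h0 : c ≤ M.RR F0 y + ∑ l ∈ Finset.Ico 0 j, (g l y + P.cup * P.v))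
    (h : ∀ i, 1 ≤ i → i ≤ j → c ≤ ∑ l ∈ Finset.Ico i j, (g l y + P.cup * P.v)) :
    c ≤ cst M P z F0 g j y := by
  induction j, hj1 using Nat.le_induction generalizing c with
  | base =>
    have h1 := h 1 le_rfl le_rfl
    rw [Finset.Ico_self, Finset.sum_empty] at h1
    rw [Nat.Ico_zero_eq_range, Finset.sum_range_one] at h0
    have hcu : cuP M P z F0 g 0 y = P.cup * P.v := by
      unfold cuP cu
      rw [if_pos (show 0 < P.n1 by omega), if_pos hy]
    change c ≤ cst M P z F0 g (0 + 1) y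
    rw [MFd_cst_succ', hcu]
    exact le_min h1 h0
  | succ j hj1 ih =>
    have h1 := h (j + 1) (by omega) le_rfl
    rw [Finset.Ico_self, Finset.sum_empty] at h1
    have hcu : cuP M P z F0 g j y = P.cup * P.v := by
      unfold cuP cu
      rw [if_pos (show j < P.n1 by omega), if_pos hy]
    have h2 : c - (g j y + P.cup * P.v) ≤ cst M P z F0 g j y := by
      refine ih (by omega) _ ?_ ?_
      · rw [Finset.sum_Ico_succ_top (Nat.zero_le _)] at h0
        linarith
      · intro i hi1 hi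
        have h3 := h i hi1 (by omega)
        rw [Finset.sum_Ico_succ_top hi] at h3
        linarith
    have h3 := self_le_RR M (cst M P z F0 g j) y
    rw [MFd_cst_succ', hcu]
    exact le_min h1 (by linarith)

theorem flip_cut (P : FPar) (F0 : S → ℝ) (hF : ∀ y, F0 y ≤ 0) (g : ℕ → S → ℝ) (x z : S)
    (hz : M.lin F0 g P.nu x P.nu = z) (hG : GoodD M P F0 g z) :
    ¬ M.uncut P.η F0 (fun j y => g j y + cuP M P z F0 g j y) P.nu 0 x := by
  classical
  intro hun
  have hn := P.hn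
  have hcv : 0 < P.cup * P.v := mul_pos P.hcup P.hv
  have hcv1 := P.hcv
  have hKG := P.hKG
  have hr1 : (0 : ℝ) ≤ P.r1 := Nat.cast_nonneg _
  have hpos := MFd_pos M P F0 hF g x z hz hG
  obtain ⟨g', hg'⟩ : ∃ g' : ℕ → S → ℝ, g' = fun j y => g j y + cuP M P z F0 g j y := ⟨_, rfl⟩
  rw [← hg'] at hpos hun
  obtain ⟨y, hy⟩ : ∃ y, y = M.lin F0 g' P.nu x (P.nu - P.n1) := ⟨_, rfl⟩
  rw [← hy] at hpos
  have hcst : ∀ j, M.mf F0 g' j = cst M P z F0 g j := fun j => by rw [cst_eq_mf, hg']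
  have hcst0 : ∀ j y, cst M P z F0 g j y ≤ 0 := by
    intro j y
    rw [← hcst]
    exact mf_nonpos M F0 hF g' j y
  have hosc : ∀ i j, i ≤ j → j ≤ P.n1 → -(1 / 4) ≤ ∑ l ∈ Finset.Ico i j, g l y := by
    intro i j hij hj
    have h1 := sum_le_osc (fun j => g j y) hij hj
    have h2 := hG.g3 y hpos
    have h3 := neg_abs_le (∑ l ∈ Finset.Ico i j, g l y)
    linarith
  -- the time j1
  obtain ⟨c0, hc0⟩ : ∃ c0, c0 = P.KG + P.r1 / 8 := ⟨_, rfl⟩
  have hc00 : 0 ≤ c0 := by rw [hc0]; positivity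
  have hup : c0 + 4 ≤ P.cup * P.v * P.n1 := by
    have := P.hup
    rw [hc0]
    linarith
  have hn1 : 1 ≤ P.n1 := by
    by_contra hcon
    have h1 : P.n1 = 0 := by omega
    rw [h1, Nat.cast_zero, mul_zero] at hup
    linarith
  have hex : ∃ j : ℕ, 1 ≤ j ∧ c0 ≤ P.cup * P.v * j := ⟨P.n1, hn1, by linarith⟩
  obtain ⟨j1, ⟨hj1, hj1'⟩, hmin⟩ : ∃ j1 : ℕ, (1 ≤ j1 ∧ c0 ≤ P.cup * P.v * j1) ∧
      ∀ m < j1, ¬ (1 ≤ m ∧ c0 ≤ P.cup * P.v * m) :=
    ⟨Nat.find hex, Nat.find_spec hex, fun m hm => Nat.find_min hex hm⟩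
  have hj1n : j1 ≤ P.n1 := by
    by_contra hcon
    exact hmin P.n1 (not_le.1 hcon) ⟨hn1, by linarith⟩
  have hj1u : P.cup * P.v * j1 ≤ c0 + 1 := by
    rcases Nat.lt_or_ge 1 j1 with h1 | h1
    · have h2 := hmin (j1 - 1) (by omega)
      have h3 : ¬ (c0 ≤ P.cup * P.v * ((j1 - 1 : ℕ) : ℝ)) := fun h4 => h2 ⟨by omega, h4⟩
      rw [Nat.cast_sub hj1, Nat.cast_one] at h3
      linarith
    · have h2 : j1 = 1 := by omega
      rw [h2, Nat.cast_one, mul_one]
      linarith
  -- lower bound of the heights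
  have hlow : ∀ j, j1 ≤ j → j ≤ P.n1 → -(1 / 4) ≤ cst M P z F0 g j y := by
    intro j hj hjn
    refine MFd_walk M P z F0 g y hpos j (by omega) hjn _ ?_ ?_
    · have h1 := hG.g1 y
      have h2 := hosc 0 j (Nat.zero_le _) hjn
      have h3 : (M.dd y z : ℝ) ≤ P.r1 := by exact_mod_cast hpos
      rw [Finset.sum_add_distrib, Finset.sum_const, Nat.card_Ico, nsmul_eq_mul, Nat.sub_zero]
      have h4 : P.cup * P.v * j1 ≤ P.cup * P.v * j :=
        mul_le_mul_of_nonneg_left (by exact_mod_cast hj) hcv.le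
      linarith
    · intro i _ hi
      have h2 := hosc i j hi hjn
      rw [Finset.sum_add_distrib, Finset.sum_const, nsmul_eq_mul]
      have : 0 ≤ ((Finset.Ico i j).card : ℝ) * (P.cup * P.v) := by positivity
      linarith
  -- the lineage stays at `y`
  have hlin : ∀ k, k ≤ P.n1 - j1 → M.lin F0 g' P.nu x (P.nu - P.n1 + k) = y := by
    intro k
    induction k with
    | zero =>
      intro _
      rw [add_zero]
      exact hy.symm
    | succ k ih =>
      intro hk
      have h1 := ih (by omega)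
      change M.am (M.mf F0 g' (P.nu - (P.nu - P.n1 + k + 1)))
        (M.lin F0 g' P.nu x (P.nu - P.n1 + k)) = y
      have h2 : P.nu - (P.nu - P.n1 + k + 1) = P.n1 - (k + 1) := by omega
      rw [h1, h2, hcst]
      refine am_eq_self M _ (hcst0 _) y ?_
      have h3 := hlow (P.n1 - (k + 1)) (by omega) (by omega)
      linarith
  -- no cut: the heights grow
  have hstep : ∀ j, j1 ≤ j → j < P.n1 →
      cst M P z F0 g j y + g j y + P.cup * P.v - P.η ≤ cst M P z F0 g (j + 1) y := by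
    intro j hj hjn
    have h1 := hun (P.nu - (j + 1)) (by omega)
    have h2 : P.nu - (P.nu - (j + 1) + 1) = j := by omega
    have h3 : M.lin F0 g' P.nu x (P.nu - (j + 1)) = y := by
      have := hlin (P.n1 - (j + 1)) (by omega)
      rwa [show P.nu - P.n1 + (P.n1 - (j + 1)) = P.nu - (j + 1) by omega] at this
    rw [h2, h3, hcst] at h1
    have hcu : cuP M P z F0 g j y = P.cup * P.v := by
      unfold cuP cu
      rw [if_pos hjn, if_pos hpos]
    have h4 : g' j y = g j y + P.cup * P.v := by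
      rw [hg']
      change g j y + cuP M P z F0 g j y = _
      rw [hcu]
    rw [h4] at h1
    have h5 := self_le_RR M (cst M P z F0 g j) y
    have hη := P.hη
    rw [MFd_cst_succ', hcu]
    exact le_min (by linarith) (by linarith)
  have hgrow : ∀ m, j1 + m ≤ P.n1 → cst M P z F0 g j1 y + ∑ l ∈ Finset.Ico j1 (j1 + m), g l y +
      (P.cup * P.v - P.η) * m ≤ cst M P z F0 g (j1 + m) y := by
    intro m
    induction m with
    | zero =>
      intro _
      rw [add_zero, Finset.Ico_self, Finset.sum_empty, Nat.cast_zero, mul_zero, add_zero, add_zero]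
    | succ m ih =>
      intro hm
      have h1 := ih (by omega)
      have h2 := hstep (j1 + m) (by omega) (by omega)
      rw [← add_assoc, Finset.sum_Ico_succ_top (by omega)]
      push_cast
      linarith
  have h1 := hgrow (P.n1 - j1) (by omega)
  have h2 : j1 + (P.n1 - j1) = P.n1 := by omega
  rw [h2, Nat.cast_sub hj1n] at h1
  have h3 := hlow j1 le_rfl hj1n
  have h4 := hosc j1 P.n1 hj1n le_rfl
  have h5 := hcst0 P.n1 y
  have h6 : P.η * ((P.n1 : ℝ) - j1) ≤ 1 := by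
    refine le_trans (mul_le_mul_of_nonneg_left ?_ P.hη.le) P.hηn
    have h7 : (0 : ℝ) ≤ j1 := Nat.cast_nonneg _
    have h8 : (P.n1 : ℝ) ≤ P.nu := by exact_mod_cast hn.le
    linarith
  linarith

theorem cuP_bound (P : FPar) (z : S) (F0 : S → ℝ) (g : ℕ → S → ℝ) (j : ℕ) (y : S) :
    |cuP M P z F0 g j y| ≤ max P.cup P.cd * P.v ∧ (P.r2 < M.dd y z → cuP M P z F0 g j y = 0) ∧
      (P.nu ≤ j → cuP M P z F0 g j y = 0) := by
  have hv := P.hv
  have h1 := MFd_RR_mono M P z F0 g j y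
  have hcu : 0 < P.cup * P.v := mul_pos P.hcup P.hv
  have hcd : 0 < P.cd * P.v := mul_pos P.hcd P.hv
  have h2 : P.cup * P.v ≤ max P.cup P.cd * P.v :=
    mul_le_mul_of_nonneg_right (le_max_left _ _) hv.le
  have h3 : P.cd * P.v ≤ max P.cup P.cd * P.v :=
    mul_le_mul_of_nonneg_right (le_max_right _ _) hv.le
  have hn := P.hn
  refine ⟨?_, ?_, ?_⟩
  · unfold cuP cu
    split_ifs
    · rw [abs_of_pos hcu]
      exact h2
    · rw [abs_zero]
      linarith
    · rw [abs_neg, abs_of_nonneg (le_min hcd.le (by linarith))]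
      exact (min_le_left _ _).trans h3
    · rw [abs_zero]
      linarith
    · rw [abs_zero]
      linarith
  · intro h4
    have hr2 := P.hr2
    have hKG := P.hKG
    have hKn := P.hKn
    have hr1 : (0 : ℝ) ≤ P.r1 := Nat.cast_nonneg _
    have h5 : (P.r1 : ℝ) ≤ P.r2 := by linarith
    have h6 : P.r1 ≤ P.r2 := by exact_mod_cast h5
    unfold cuP cu
    rw [if_neg (show ¬ M.dd y z ≤ P.r1 by omega), if_neg (show ¬ M.dd y z ≤ P.r2 by omega)]
    split_ifs <;> rfl
  · intro h4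
    unfold cuP cu
    rw [if_neg (show ¬ j < P.n1 by omega), if_neg (show ¬ j < P.nu by omega)]

/-- total energy of the control -/
theorem cuP_energy (P : FPar) (z : S) (F0 : S → ℝ) (g : ℕ → S → ℝ) :
    ∑ j ∈ Finset.range P.nu, ∑ y, (cuP M P z F0 g j y / Real.sqrt P.v) ^ 2 ≤
      (max P.cup P.cd) ^ 2 * (P.v * P.nu) * (2 * P.r2 + 1) ^ D := by
  classical
  have hv := P.hv
  have hterm : ∀ j y, (cuP M P z F0 g j y / Real.sqrt P.v) ^ 2 ≤
      if M.dd y z ≤ P.r2 then (max P.cup P.cd) ^ 2 * P.v else 0 := by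
    intro j y
    obtain ⟨h1, h2, -⟩ := cuP_bound M P z F0 g j y
    split_ifs with h3
    · rw [div_pow, Real.sq_sqrt hv.le, div_le_iff₀ hv]
      calc (cuP M P z F0 g j y) ^ 2 = |cuP M P z F0 g j y| ^ 2 := (sq_abs _).symm
        _ ≤ (max P.cup P.cd * P.v) ^ 2 := pow_le_pow_left₀ (abs_nonneg _) h1 2
        _ = (max P.cup P.cd) ^ 2 * P.v * P.v := by ring
    · rw [h2 (not_le.1 h3), zero_div]
      norm_num
  have hsum : ∀ j, ∑ y, (cuP M P z F0 g j y / Real.sqrt P.v) ^ 2 ≤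
      (max P.cup P.cd) ^ 2 * P.v * (2 * P.r2 + 1) ^ D := by
    intro j
    refine (Finset.sum_le_sum fun y _ => hterm j y).trans ?_
    rw [← Finset.sum_filter, Finset.sum_const, nsmul_eq_mul, mul_comm]
    refine mul_le_mul_of_nonneg_left ?_ (by positivity)
    have h1 := M.growth z P.r2 (Finset.univ.filter fun y => M.dd y z ≤ P.r2) (by
      intro y hy
      rw [M.dd_comm]
      exact (Finset.mem_filter.1 hy).2)
    exact_mod_cast h1
  refine (Finset.sum_le_sum fun j _ => hsum j).trans (le_of_eq ?_)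
  rw [Finset.sum_const, Finset.card_range, nsmul_eq_mul]
  ring

private theorem MFd_meas (P : FPar) (z : S) (j : ℕ)
    (h : ∀ y, Measurable (fun p : (S → ℝ) × (ℕ → S → ℝ) => cst M P z p.1 p.2 j y)) (y : S) :
    Measurable (fun p : (S → ℝ) × (ℕ → S → ℝ) => cuP M P z p.1 p.2 j y) := by
  have h1 : Measurable (fun p : (S → ℝ) × (ℕ → S → ℝ) => M.RR (cst M P z p.1 p.2 j) y) :=
    (measurable_RR M y).comp (measurable_pi_lambda _ fun y' => h y')
  have h2 : Measurable (fun p : (S → ℝ) × (ℕ → S → ℝ) => M.RR (M.mf p.1 p.2 j) y) :=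
    (measurable_RR M y).comp (measurable_pi_lambda _ fun y' => measurable_mf M j y')
  unfold cuP cu
  by_cases h3 : j < P.n1
  · simp only [if_pos h3]
    exact measurable_const
  · simp only [if_neg h3]
    by_cases h4 : j < P.nu
    · simp only [if_pos h4]
      by_cases h5 : M.dd y z ≤ P.r2
      · simp only [if_pos h5]
        exact (measurable_const.min (h1.sub h2)).neg
      · simp only [if_neg h5]
        exact measurable_const
    · simp only [if_neg h4]
      exact measurable_const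

private theorem MFd_meas_cst (P : FPar) (z : S) (j : ℕ) (y : S) :
    Measurable (fun p : (S → ℝ) × (ℕ → S → ℝ) => cst M P z p.1 p.2 j y) := by
  induction j generalizing y with
  | zero => exact (measurable_pi_apply y).comp measurable_fst
  | succ j ih =>
    have h1 : Measurable (fun p : (S → ℝ) × (ℕ → S → ℝ) => M.RR (cst M P z p.1 p.2 j) y) :=
      (measurable_RR M y).comp (measurable_pi_lambda _ fun y' => ih y')
    have h2 := MFd_meas M P z j ih y
    have h3 : Measurable (fun p : (S → ℝ) × (ℕ → S → ℝ) => p.2 j y) :=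
      (measurable_pi_apply y).comp ((measurable_pi_apply j).comp measurable_snd)
    simp only [MFd_cst_succ']
    exact measurable_const.min (h1.add (h3.add h2))

theorem measurable_cuP (P : FPar) (z : S) (j : ℕ) (y : S) :
    Measurable (fun p : (S → ℝ) × (ℕ → S → ℝ) => cuP M P z p.1 p.2 j y) :=
  MFd_meas M P z j (fun y' => MFd_meas_cst M P z j y') y

end DynC

end

/-! ### from `Lib_MP_36b788c.MFd2` -/

section

/-!
# Height model: the flip inequality

PROOF of `flip_ineq`. Fix `F ≤ 0`, `x`, `ψ ≥ 0`. For a site `z` with `dd x z ≤ r0` let `v_j = cuP / √v` (adapted, bounded, energy `≤ Q`, `Q = max(cup,cd)² v nu (2 r2+1)^D`,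
`cuP_energy`), and `Φ(ω) = 1{¬ uncut η F (sc v ω) nu 0 x} ψ(mf F (sc v ω) nu)`. `sc v (ω + v_j) = sc v ω + cuP`. On
`A_z = {uncut, lin = z, Good z}`: `mf F (sc v (shft ω)) nu = cst nu = mf F (sc v ω) nu` (`cst_eq_mf`, `flip_end`), `¬ uncut` for the shifted noise (`flip_cut`), and
`logZ = -Σ⟨v_j,ω_j⟩ - Σ|v_j|²/2 ≥ -K' - Q/2` (g4). Hence `1_{A_z} ψ(mf F (sc v ω) nu) ≤ e^{K'+Q/2} Φ(shft ω) e^{logZ}`, and by `shift_lintegral` its expectation is
`≤ e^{K'+Q/2} E Φ`. By `flip_disp` only `z` with `dd x z ≤ r0` occur, at most `(2 r0+1)^D` (`growth`). So `e^c = (2 r0+1)^D e^{K'+Q/2}`.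
`good_noise`: for fixed `F, z`: the probability that (g2), (g2'), (g3) or (g4) fails. (g2): `Σ_y exp(C(nu v+1) - λ0 (Kn + dd y z/8))`; (g3): at most `(2 r1+1)^D` sites,
`osc_tail_nz`; (g4): `adapted_tail`.
-/

open MeasureTheory ProbabilityTheory
open scoped ENNReal

namespace DynC

/-- `log` of the flip constant -/
noncomputable def flipC (D : ℕ) (P : FPar) : ℝ :=
  D * Real.log (2 * P.r0 + 1) + P.Kp +
    (max P.cup P.cd) ^ 2 * (P.v * P.nu) * (2 * P.r2 + 1) ^ D / 2

private theorem MFd2_measurable_sc {S : Type} (v : ℝ) :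
    Measurable (fun ω : ℕ → S → ℝ => sc v ω) := by
  unfold sc
  exact measurable_pi_lambda _ fun j => measurable_pi_lambda _ fun x =>
    measurable_const.mul ((measurable_pi_apply x).comp (measurable_pi_apply j))

private theorem MFd2_measurable_pmax {α : Type} [MeasurableSpace α] (b : α → ℕ → ℝ)
    (hb : ∀ j, Measurable (fun a => b a j)) (n : ℕ) : Measurable (fun a => pmax (b a) n) := by
  unfold pmax
  exact Finset.measurable_range_sup'' fun m _ => Finset.measurable_sum _ fun j _ => hb j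

private theorem MFd2_measurable_osc {α : Type} [MeasurableSpace α] (b : α → ℕ → ℝ)
    (hb : ∀ j, Measurable (fun a => b a j)) (n : ℕ) : Measurable (fun a => osc (b a) n) :=
  (MFd2_measurable_pmax b hb n).add (MFd2_measurable_pmax (fun a j => -b a j)
    (fun j => (hb j).neg) n)

/-- the control in units of the noise -/
private noncomputable def MFd2_v {S : Type} [Fintype S] {D : ℕ} (M : MSet S D) (P : FPar)
    (F : S → ℝ) (z : S) (j : ℕ) (ω : ℕ → S → ℝ) : S → ℝ :=
  fun y => cuP M P z F (sc P.v ω) j y / Real.sqrt P.v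

private theorem MFd2_measurable_cuP {S : Type} [Fintype S] {D : ℕ} (M : MSet S D) (P : FPar)
    (z : S) (j : ℕ) (y : S) :
    Measurable (fun p : (S → ℝ) × (ℕ → S → ℝ) =>
      cuP M P z p.1 (sc P.v p.2) j y / Real.sqrt P.v) :=
  ((measurable_cuP M P z j y).comp
    (measurable_fst.prodMk ((MFd2_measurable_sc P.v).comp measurable_snd))).div_const _

private theorem MFd2_measurable_v {S : Type} [Fintype S] {D : ℕ} (M : MSet S D) (P : FPar)
    (F : S → ℝ) (z : S) (j : ℕ) : Measurable (MFd2_v M P F z j) := by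
  refine measurable_pi_lambda _ fun y => ?_
  have h1 : Measurable (fun ω : ℕ → S → ℝ => ((F, ω) : (S → ℝ) × (ℕ → S → ℝ))) :=
    measurable_const.prodMk measurable_id
  have h2 := (MFd2_measurable_cuP M P z j y).comp h1
  exact h2

theorem measurableSet_GoodW {S : Type} [Fintype S] {D : ℕ} (M : MSet S D) (P : FPar) (z : S) :
    MeasurableSet {p : (S → ℝ) × (ℕ → S → ℝ) | GoodW M P p.1 p.2 z} := by
  have hsc : Measurable (fun p : (S → ℝ) × (ℕ → S → ℝ) => sc P.v p.2) :=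
    (MFd2_measurable_sc P.v).comp measurable_snd
  have hset : {p : (S → ℝ) × (ℕ → S → ℝ) | GoodW M P p.1 p.2 z} =
      (((⋂ y : S, {p : (S → ℝ) × (ℕ → S → ℝ) | -P.KG - M.dd y z / 8 ≤ M.RR p.1 y}) ∩
        ((⋂ y : S, {p : (S → ℝ) × (ℕ → S → ℝ) |
          M.lppM (1 / 8) (fun _ => 0) (sc P.v p.2) P.nu y ≤ P.Kn + M.dd y z / 8}) ∩
        (⋂ y : S, {p : (S → ℝ) × (ℕ → S → ℝ) |
          M.lppM (1 / 8) (fun _ => 0) (-(sc P.v p.2)) P.nu y ≤ P.Kn + M.dd y z / 8}))) ∩
        (⋂ y : S, ⋂ _ : M.dd y z ≤ P.r1, {p : (S → ℝ) × (ℕ → S → ℝ) |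
          osc (fun j => sc P.v p.2 j y) P.n1 ≤ 1 / 4})) ∩
        {p : (S → ℝ) × (ℕ → S → ℝ) | |∑ j ∈ Finset.range P.nu, ∑ y,
          (cuP M P z p.1 (sc P.v p.2) j y / Real.sqrt P.v) * p.2 j y| ≤ P.Kp} := by
    ext p
    simp only [Set.mem_ofPred_eq, Set.mem_inter_iff, Set.mem_iInter]
    constructor
    · rintro ⟨⟨h1, h2, h3, h4⟩, h5⟩
      exact ⟨⟨⟨h1, h2, h3⟩, h4⟩, h5⟩
    · rintro ⟨⟨⟨h1, h2, h3⟩, h4⟩, h5⟩
      exact ⟨⟨h1, h2, h3, h4⟩, h5⟩
  rw [hset]
  refine MeasurableSet.inter (MeasurableSet.inter (MeasurableSet.inter ?_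
    (MeasurableSet.inter ?_ ?_)) ?_) ?_
  · exact MeasurableSet.iInter fun y =>
      measurableSet_le measurable_const ((measurable_RR M y).comp measurable_fst)
  · exact MeasurableSet.iInter fun y =>
      measurableSet_le ((measurable_lppM M (1 / 8) (fun _ => 0) P.nu y).comp hsc) measurable_const
  · exact MeasurableSet.iInter fun y =>
      measurableSet_le ((measurable_lppM M (1 / 8) (fun _ => 0) P.nu y).comp hsc.neg)
        measurable_const
  · refine MeasurableSet.iInter fun y => MeasurableSet.iInter fun _ => ?_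
    refine measurableSet_le ?_ measurable_const
    refine MFd2_measurable_osc (fun (p : (S → ℝ) × (ℕ → S → ℝ)) j => sc P.v p.2 j y)
      (fun j => ?_) P.n1
    have h1 : Measurable fun g : ℕ → S → ℝ => g j y :=
      (measurable_pi_apply y).comp (measurable_pi_apply j)
    exact h1.comp hsc
  · refine measurableSet_le ?_ measurable_const
    simp only [← Real.norm_eq_abs]
    refine Measurable.norm ?_
    refine Finset.measurable_sum _ fun j _ => Finset.measurable_sum _ fun y _ => ?_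
    have h1 : Measurable fun g : ℕ → S → ℝ => g j y :=
      (measurable_pi_apply y).comp (measurable_pi_apply j)
    exact (MFd2_measurable_cuP M P z j y).mul (h1.comp measurable_snd)

private theorem MFd2_cst_congr {S : Type} [Fintype S] {D : ℕ} (M : MSet S D) (P : FPar) (z : S)
    (F0 : S → ℝ) (g g' : ℕ → S → ℝ) (n : ℕ) (h : ∀ j, j < n → g j = g' j) :
    cst M P z F0 g n = cst M P z F0 g' n := by
  induction n with
  | zero => rfl
  | succ n ih =>
    change M.mst (cst M P z F0 g n)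
        (fun y => g n y + cu M P z n (cst M P z F0 g n) (M.mf F0 g n) y) =
      M.mst (cst M P z F0 g' n)
        (fun y => g' n y + cu M P z n (cst M P z F0 g' n) (M.mf F0 g' n) y)
    rw [ih (fun j hj => h j (by omega)), mf_congr M F0 g g' n (fun j hj => h j (by omega)),
      h n (by omega)]

private theorem MFd2_cuP_congr {S : Type} [Fintype S] {D : ℕ} (M : MSet S D) (P : FPar) (z : S)
    (F0 : S → ℝ) (g g' : ℕ → S → ℝ) (n : ℕ) (h : ∀ j, j < n → g j = g' j) :
    cuP M P z F0 g n = cuP M P z F0 g' n := by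
  unfold cuP
  rw [MFd2_cst_congr M P z F0 g g' n h, mf_congr M F0 g g' n h]

private theorem MFd2_lppM_congr {S : Type} [Fintype S] {D : ℕ} (M : MSet S D) (q : ℝ)
    (W0 : S → ℝ) (g g' : ℕ → S → ℝ) (n : ℕ) (h : ∀ j, j < n → g j = g' j) (x : S) :
    M.lppM q W0 g n x = M.lppM q W0 g' n x := by
  unfold MSet.lppM
  refine Finset.sup'_congr _ rfl (fun m hm => ?_)
  rw [lpp_congr M q W0 g g' m (fun j hj => h j (by have := Finset.mem_range.mp hm; omega))]

private theorem MFd2_pmax_congr (b b' : ℕ → ℝ) (n : ℕ) (h : ∀ j, j < n → b j = b' j) :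
    pmax b n = pmax b' n := by
  unfold pmax
  refine Finset.sup'_congr _ rfl (fun m hm => Finset.sum_congr rfl fun j hj => h j ?_)
  have h1 := Finset.mem_range.mp hm
  have h2 := Finset.mem_range.mp hj
  omega

private theorem MFd2_sc_congr {S : Type} (v : ℝ) (ω ω' : ℕ → S → ℝ) (j : ℕ)
    (h : ω j = ω' j) : sc v ω j = sc v ω' j := by
  funext x
  simp only [sc, h]

private theorem MFd2_GoodW_imp {S : Type} [Fintype S] {D : ℕ} (M : MSet S D) (P : FPar)
    (F : S → ℝ) (z : S) (ω ω' : ℕ → S → ℝ) (h : ∀ j, j < P.nu → ω j = ω' j)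
    (hG : GoodW M P F ω z) : GoodW M P F ω' z := by
  have hn := P.hn
  have hs : ∀ j, j < P.nu → sc P.v ω j = sc P.v ω' j := fun j hj =>
    MFd2_sc_congr P.v ω ω' j (h j hj)
  obtain ⟨⟨h1, h2, h3, h4⟩, h5⟩ := hG
  refine ⟨⟨h1, ?_, ?_, ?_⟩, ?_⟩
  · intro y
    rw [← MFd2_lppM_congr M (1 / 8) (fun _ => 0) (sc P.v ω) (sc P.v ω') P.nu hs y]
    exact h2 y
  · intro y
    rw [← MFd2_lppM_congr M (1 / 8) (fun _ => 0) (-(sc P.v ω)) (-(sc P.v ω')) P.nu
      (fun j hj => by
        change -(sc P.v ω j) = -(sc P.v ω' j)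
        rw [hs j hj]) y]
    exact h3 y
  · intro y hy
    have h6 := h4 y hy
    have h7 : osc (fun j => sc P.v ω j y) P.n1 = osc (fun j => sc P.v ω' j y) P.n1 := by
      unfold osc
      rw [MFd2_pmax_congr (fun j => sc P.v ω j y) (fun j => sc P.v ω' j y) P.n1
          (fun j hj => by rw [hs j (by omega)]),
        MFd2_pmax_congr (fun j => -sc P.v ω j y) (fun j => -sc P.v ω' j y) P.n1
          (fun j hj => by rw [hs j (by omega)])]
    rwa [h7] at h6
  · have h8 : ∑ j ∈ Finset.range P.nu, ∑ y,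
        (cuP M P z F (sc P.v ω') j y / Real.sqrt P.v) * ω' j y =
        ∑ j ∈ Finset.range P.nu, ∑ y,
        (cuP M P z F (sc P.v ω) j y / Real.sqrt P.v) * ω j y := by
      refine Finset.sum_congr rfl fun j hj => ?_
      have hj' := Finset.mem_range.mp hj
      rw [h j hj', MFd2_cuP_congr M P z F (sc P.v ω) (sc P.v ω') j
        (fun i hi => hs i (by omega))]
    rw [h8]
    exact h5

theorem GoodW_congr {S : Type} [Fintype S] {D : ℕ} (M : MSet S D) (P : FPar) (F : S → ℝ) (z : S)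
    (ω ω' : ℕ → S → ℝ) (h : ∀ j, j < P.nu → ω j = ω' j) :
    GoodW M P F ω z ↔ GoodW M P F ω' z :=
  ⟨MFd2_GoodW_imp M P F z ω ω' h, MFd2_GoodW_imp M P F z ω' ω (fun j hj => (h j hj).symm)⟩

private theorem MFd2_v_dep {S : Type} [Fintype S] {D : ℕ} (M : MSet S D) (P : FPar)
    (F : S → ℝ) (z : S) (j : ℕ) : Dep j (MFd2_v M P F z j) := by
  intro a b hab
  unfold MFd2_v
  rw [MFd2_cuP_congr M P z F (sc P.v a) (sc P.v b) j
    (fun i hi => MFd2_sc_congr P.v a b i (hab i hi))]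

private theorem MFd2_v_zero {S : Type} [Fintype S] {D : ℕ} (M : MSet S D) (P : FPar)
    (F : S → ℝ) (z : S) (j : ℕ) (hj : P.nu ≤ j) (ω : ℕ → S → ℝ) : MFd2_v M P F z j ω = 0 := by
  funext y
  unfold MFd2_v
  rw [(cuP_bound M P z F (sc P.v ω) j y).2.2 hj]
  simp

private theorem MFd2_sc_shft {S : Type} [Fintype S] {D : ℕ} (M : MSet S D) (P : FPar)
    (F : S → ℝ) (z : S) (ω : ℕ → S → ℝ) :
    sc P.v (shft (MFd2_v M P F z) ω) =
      fun j y => sc P.v ω j y + cuP M P z F (sc P.v ω) j y := by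
  have hv : Real.sqrt P.v ≠ 0 := (Real.sqrt_pos.2 P.hv).ne'
  funext j y
  unfold sc shft MFd2_v
  change Real.sqrt P.v * (ω j y + cuP M P z F (sc P.v ω) j y / Real.sqrt P.v) =
    Real.sqrt P.v * ω j y + cuP M P z F (sc P.v ω) j y
  rw [mul_add, mul_div_cancel₀ _ hv]

/-- the energy bound -/
private noncomputable def MFd2_Q (D : ℕ) (P : FPar) : ℝ :=
  (max P.cup P.cd) ^ 2 * (P.v * P.nu) * (2 * P.r2 + 1) ^ D

private theorem MFd2_Q_pos (D : ℕ) (P : FPar) : 0 < MFd2_Q D P := by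
  unfold MFd2_Q
  have h1 : 0 < max P.cup P.cd := lt_max_of_lt_left P.hcup
  have h2 : (0 : ℝ) < P.nu := by
    have hn := P.hn
    have hn0 : 0 < P.nu := by omega
    exact_mod_cast hn0
  have h3 := P.hv
  positivity

private theorem MFd2_energy {S : Type} [Fintype S] {D : ℕ} (M : MSet S D) (P : FPar)
    (F : S → ℝ) (z : S) (ω : ℕ → S → ℝ) :
    ∑ j ∈ Finset.range P.nu, ∑ y, ‖MFd2_v M P F z j ω y‖ ^ 2 ≤ MFd2_Q D P := by
  refine le_trans (le_of_eq ?_) (cuP_energy M P z F (sc P.v ω))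
  refine Finset.sum_congr rfl fun j _ => Finset.sum_congr rfl fun y _ => ?_
  rw [Real.norm_eq_abs, sq_abs]
  rfl

private theorem MFd2_inner {S : Type} [Fintype S] {D : ℕ} (M : MSet S D) (P : FPar)
    (F : S → ℝ) (z : S) (ω : ℕ → S → ℝ) :
    ∑ j ∈ Finset.range P.nu, ∑ y, inner ℝ (MFd2_v M P F z j ω y) (ω j y) =
      ∑ j ∈ Finset.range P.nu, ∑ y,
        (cuP M P z F (sc P.v ω) j y / Real.sqrt P.v) * ω j y := by
  refine Finset.sum_congr rfl fun j _ => Finset.sum_congr rfl fun y _ => ?_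
  rw [real_inner_eq_re_inner, RCLike.inner_apply]
  simp only [conj_trivial, RCLike.re_to_real]
  unfold MFd2_v
  ring

private theorem MFd2_logZ {S : Type} [Fintype S] {D : ℕ} (M : MSet S D) (P : FPar)
    (F : S → ℝ) (z : S) (ω : ℕ → S → ℝ) (hG : GoodW M P F ω z) :
    0 ≤ P.Kp + MFd2_Q D P / 2 + logZ P.nu (MFd2_v M P F z) ω := by
  have h1 := hG.2
  rw [← MFd2_inner] at h1
  have h2 := MFd2_energy M P F z ω
  have h3 : logZ P.nu (MFd2_v M P F z) ω =
      -(∑ j ∈ Finset.range P.nu, ∑ y, inner ℝ (MFd2_v M P F z j ω y) (ω j y)) -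
        (∑ j ∈ Finset.range P.nu, ∑ y, ‖MFd2_v M P F z j ω y‖ ^ 2) / 2 := by
    unfold logZ
    rw [← Finset.sum_neg_distrib, Finset.sum_div, ← Finset.sum_sub_distrib]
    refine Finset.sum_congr rfl fun j _ => ?_
    rw [← Finset.sum_neg_distrib, Finset.sum_div, ← Finset.sum_sub_distrib]
  have h4 := le_abs_self
    (∑ j ∈ Finset.range P.nu, ∑ y, inner ℝ (MFd2_v M P F z j ω y) (ω j y))
  rw [h3]
  linarith

/-- the test function of the cut windows -/
private noncomputable def MFd2_Phi {S : Type} [Fintype S] {D : ℕ} (M : MSet S D) (P : FPar)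
    (F : S → ℝ) (x : S) (ψ : (S → ℝ) → ℝ≥0∞) (ω : ℕ → S → ℝ) : ℝ≥0∞ :=
  Set.indicator {ω | ¬ M.uncut P.η F (sc P.v ω) P.nu 0 x}
    (fun ω => ψ (M.mf F (sc P.v ω) P.nu)) ω

private theorem MFd2_meas_uncut {S : Type} [Fintype S] {D : ℕ} (M : MSet S D) (P : FPar)
    (F : S → ℝ) (x : S) :
    MeasurableSet {ω : ℕ → S → ℝ | M.uncut P.η F (sc P.v ω) P.nu 0 x} :=
  (measurable_const.prodMk (MFd2_measurable_sc P.v) :
    Measurable (fun ω : ℕ → S → ℝ => (F, sc P.v ω))) (measurableSet_uncut M P.η P.nu 0 x)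

private theorem MFd2_meas_mf {S : Type} [Fintype S] {D : ℕ} (M : MSet S D) (P : FPar)
    (F : S → ℝ) : Measurable (fun ω : ℕ → S → ℝ => M.mf F (sc P.v ω) P.nu) :=
  measurable_pi_lambda _ fun y => (measurable_mf M P.nu y).comp
    (measurable_const.prodMk (MFd2_measurable_sc P.v) :
      Measurable (fun ω : ℕ → S → ℝ => (F, sc P.v ω)))

private theorem MFd2_meas_Phi {S : Type} [Fintype S] {D : ℕ} (M : MSet S D) (P : FPar)
    (F : S → ℝ) (x : S) (ψ : (S → ℝ) → ℝ≥0∞) (hψ : Measurable ψ) :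
    Measurable (MFd2_Phi M P F x ψ) := by
  unfold MFd2_Phi
  exact (hψ.comp (MFd2_meas_mf M P F)).indicator (MFd2_meas_uncut M P F x).compl

/-- the contribution of one base point -/
private theorem MFd2_point {S : Type} [Fintype S] {D : ℕ} (M : MSet S D) (P : FPar)
    (F : S → ℝ) (hF : ∀ z, F z ≤ 0) (x z : S) (ψ : (S → ℝ) → ℝ≥0∞) (ω : ℕ → S → ℝ)
    (hlin : M.lin F (sc P.v ω) P.nu x P.nu = z) (hG : GoodW M P F ω z) :
    ψ (M.mf F (sc P.v ω) P.nu) ≤ ENNReal.ofReal (Real.exp (P.Kp + MFd2_Q D P / 2)) *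
      (MFd2_Phi M P F x ψ (shft (MFd2_v M P F z) ω) *
        ENNReal.ofReal (Real.exp (logZ P.nu (MFd2_v M P F z) ω))) := by
  have hcut := flip_cut M P F hF (sc P.v ω) x z hlin hG.1
  have hmf : M.mf F (fun j y => sc P.v ω j y + cuP M P z F (sc P.v ω) j y) P.nu =
      M.mf F (sc P.v ω) P.nu := by
    rw [← cst_eq_mf, flip_end M P z F hF (sc P.v ω) hG.1]
  have hPhi : MFd2_Phi M P F x ψ (shft (MFd2_v M P F z) ω) = ψ (M.mf F (sc P.v ω) P.nu) := by
    unfold MFd2_Phi
    rw [Set.indicator_of_mem]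
    · rw [MFd2_sc_shft, hmf]
    · change ¬ M.uncut P.η F (sc P.v (shft (MFd2_v M P F z) ω)) P.nu 0 x
      rw [MFd2_sc_shft]
      exact hcut
  rw [hPhi, mul_left_comm, ← ENNReal.ofReal_mul (Real.exp_pos _).le, ← Real.exp_add]
  have h1 : (1 : ℝ≥0∞) ≤ ENNReal.ofReal (Real.exp (P.Kp + MFd2_Q D P / 2 +
      logZ P.nu (MFd2_v M P F z) ω)) := by
    rw [ENNReal.one_le_ofReal]
    exact Real.one_le_exp (MFd2_logZ M P F z ω hG)
  calc ψ (M.mf F (sc P.v ω) P.nu) = ψ (M.mf F (sc P.v ω) P.nu) * 1 := (mul_one _).symm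
    _ ≤ _ := mul_le_mul' le_rfl h1

private theorem MFd2_measurable_logZ {S : Type} [Fintype S] {D : ℕ} (M : MSet S D) (P : FPar)
    (F : S → ℝ) (z : S) : Measurable (logZ P.nu (MFd2_v M P F z)) := by
  unfold logZ
  refine Finset.measurable_sum _ fun j _ => Finset.measurable_sum _ fun y _ => ?_
  have h1 : Measurable fun ω : ℕ → S → ℝ => MFd2_v M P F z j ω y :=
    (measurable_pi_apply y).comp (MFd2_measurable_v M P F z j)
  have h2 : Measurable fun ω : ℕ → S → ℝ => ω j y :=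
    (measurable_pi_apply y).comp (measurable_pi_apply j)
  exact (h1.inner h2).neg.sub ((h1.norm.pow_const 2).div_const 2)

private theorem MFd2_shift {S : Type} [Fintype S] {D : ℕ} (M : MSet S D) (P : FPar)
    (F : S → ℝ) (z : S) (Φ : (ℕ → S → ℝ) → ℝ≥0∞) (hΦ : Measurable Φ) :
    ∫⁻ ω, Φ (shft (MFd2_v M P F z) ω) *
        ENNReal.ofReal (Real.exp (logZ P.nu (MFd2_v M P F z) ω)) ∂(PI (nz S)) =
      ∫⁻ ω, Φ ω ∂(PI (nz S)) :=
  shift_lintegral cmart_real P.nu (MFd2_v M P F z) (MFd2_measurable_v M P F z)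
    (MFd2_v_dep M P F z) (fun j hj ω => MFd2_v_zero M P F z j hj ω) Φ hΦ

theorem flip_ineq {S : Type} [Fintype S] {D : ℕ} (M : MSet S D) (P : FPar) :
    Flip M P.v P.η (flipC D P) P.nu (GoodW M P) := by
  classical
  intro F hF x ψ hψ
  set B : Finset S := Finset.univ.filter fun z => M.dd x z ≤ P.r0 with hB
  set c0 : ℝ≥0∞ := ENNReal.ofReal (Real.exp (P.Kp + MFd2_Q D P / 2)) with hc0
  have hpt : ∀ ω : ℕ → S → ℝ,
      Set.indicator {ω | M.uncut P.η F (sc P.v ω) P.nu 0 x ∧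
          GoodW M P F ω (M.lin F (sc P.v ω) P.nu x P.nu)}
        (fun ω => ψ (M.mf F (sc P.v ω) P.nu)) ω ≤
      ∑ z ∈ B, c0 * (MFd2_Phi M P F x ψ (shft (MFd2_v M P F z) ω) *
        ENNReal.ofReal (Real.exp (logZ P.nu (MFd2_v M P F z) ω))) := by
    intro ω
    by_cases hω : M.uncut P.η F (sc P.v ω) P.nu 0 x ∧
        GoodW M P F ω (M.lin F (sc P.v ω) P.nu x P.nu)
    · rw [Set.indicator_of_mem (show ω ∈ {ω | M.uncut P.η F (sc P.v ω) P.nu 0 x ∧
          GoodW M P F ω (M.lin F (sc P.v ω) P.nu x P.nu)} from hω)]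
      have hmem : M.lin F (sc P.v ω) P.nu x P.nu ∈ B := by
        rw [hB, Finset.mem_filter]
        exact ⟨Finset.mem_univ _, flip_disp M P F hF (sc P.v ω) x hω.2.1⟩
      refine le_trans (MFd2_point M P F hF x _ ψ ω rfl hω.2) ?_
      exact Finset.single_le_sum (f := fun z => c0 *
        (MFd2_Phi M P F x ψ (shft (MFd2_v M P F z) ω) *
          ENNReal.ofReal (Real.exp (logZ P.nu (MFd2_v M P F z) ω))))
        (fun z _ => zero_le) hmem
    · rw [Set.indicator_of_notMem (show ω ∉ {ω | M.uncut P.η F (sc P.v ω) P.nu 0 x ∧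
          GoodW M P F ω (M.lin F (sc P.v ω) P.nu x P.nu)} from hω)]
      exact zero_le
  refine (lintegral_mono hpt).trans ?_
  have hΦ := MFd2_meas_Phi M P F x ψ hψ
  have hsm : ∀ z, Measurable (shft (MFd2_v M P F z)) := by
    intro z
    unfold shft
    refine measurable_pi_lambda _ fun j => measurable_pi_lambda _ fun y => ?_
    exact ((measurable_pi_apply y).comp (measurable_pi_apply j)).add
      ((measurable_pi_apply y).comp (MFd2_measurable_v M P F z j))
  have hint : ∀ z, Measurable fun ω : ℕ → S → ℝ =>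
      MFd2_Phi M P F x ψ (shft (MFd2_v M P F z) ω) *
        ENNReal.ofReal (Real.exp (logZ P.nu (MFd2_v M P F z) ω)) := fun z =>
    (hΦ.comp (hsm z)).mul (MFd2_measurable_logZ M P F z).exp.ennreal_ofReal
  rw [lintegral_finsetSum _ (fun z _ => (hint z).const_mul c0)]
  have hterm : ∀ z ∈ B, ∫⁻ ω, c0 * (MFd2_Phi M P F x ψ (shft (MFd2_v M P F z) ω) *
        ENNReal.ofReal (Real.exp (logZ P.nu (MFd2_v M P F z) ω))) ∂(PI (nz S)) =
      c0 * ∫⁻ ω, MFd2_Phi M P F x ψ ω ∂(PI (nz S)) := by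
    intro z _
    rw [lintegral_const_mul c0 (hint z), MFd2_shift M P F z _ hΦ]
  rw [Finset.sum_congr rfl hterm, Finset.sum_const, nsmul_eq_mul, ← mul_assoc]
  change _ ≤ ENNReal.ofReal (Real.exp (flipC D P)) * ∫⁻ ω, MFd2_Phi M P F x ψ ω ∂(PI (nz S))
  refine mul_le_mul' ?_ le_rfl
  have hcard : (B.card : ℝ) ≤ (2 * P.r0 + 1) ^ D := by
    have h1 := M.growth x P.r0 B (fun y hy => (Finset.mem_filter.1 hy).2)
    exact_mod_cast h1
  have h2 : Real.exp (flipC D P) = (2 * P.r0 + 1) ^ D * Real.exp (P.Kp + MFd2_Q D P / 2) := by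
    have h3 : (0 : ℝ) < 2 * P.r0 + 1 := by positivity
    have h4 : flipC D P = D * Real.log (2 * P.r0 + 1) + (P.Kp + MFd2_Q D P / 2) := by
      unfold flipC MFd2_Q
      ring
    rw [h4, Real.exp_add, Real.exp_nat_mul, Real.exp_log h3]
  rw [h2, ENNReal.ofReal_mul (by positivity)]
  refine mul_le_mul' ?_ le_rfl
  rw [← ENNReal.ofReal_natCast]
  exact ENNReal.ofReal_le_ofReal hcard

private theorem MFd2_neg_nz (S : Type) [Fintype S] :
    (nz S).map (fun g : S → ℝ => -g) = nz S := by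
  unfold nz
  have h : (fun g : S → ℝ => -g) = fun g i => (fun y : ℝ => -y) (g i) := by
    funext g i
    rfl
  rw [h, Measure.pi_map_pi (f := fun _ y => -y) (fun _ => measurable_neg.aemeasurable)]
  congr 1
  funext i
  rw [gaussianReal_map_neg, neg_zero]

private theorem MFd2_PI_neg (S : Type) [Fintype S] (A : Set (ℕ → S → ℝ)) (hA : MeasurableSet A) :
    PI (nz S) {ω | (fun i => -(ω i)) ∈ A} = PI (nz S) A := by
  have hmeas : Measurable (fun g : S → ℝ => -g) := measurable_neg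
  have : IsProbabilityMeasure ((nz S).map (fun g : S → ℝ => -g)) := by
    rw [MFd2_neg_nz]
    infer_instance
  have hmap := PI_map (μ := nz S) (fun g : S → ℝ => -g) hmeas
  have hneg : Measurable (fun (ω : ℕ → S → ℝ) i => -(ω i)) := by fun_prop
  have h2 : (PI (nz S)).map (fun (ω : ℕ → S → ℝ) i => -(ω i)) = PI (nz S) := by
    rw [hmap]
    unfold PI
    congr 1
    funext i
    exact MFd2_neg_nz S
  conv_rhs => rw [← h2]
  rw [Measure.map_apply hneg hA]
  rfl

/-- union bound for the last passage functional, both signs -/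
private theorem MFd2_union {S : Type} [Fintype S] {D : ℕ} (M : MSet S D) (lam0 C1 C3 v : ℝ)
    (n : ℕ) (z : S) (Kn : ℝ)
    (hC3 : ∑ y, Real.exp (-(lam0 / 8 * (M.dd z y : ℝ))) ≤ C3)
    (μ : Measure (ℕ → S → ℝ)) (L : (ℕ → S → ℝ) → S → ℝ)
    (h : ∀ (x : S) (r : ℝ), μ {ω | r ≤ L ω x}
      ≤ ENNReal.ofReal (Real.exp (C1 * (n * v + 1) - lam0 * r))) :
    μ {ω | ∃ y, Kn + M.dd y z / 8 < L ω y} ≤
      ENNReal.ofReal (C3 * Real.exp (C1 * (n * v + 1) - lam0 * Kn)) := by
  have h1 : {ω | ∃ y, Kn + M.dd y z / 8 < L ω y} ⊆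
      ⋃ y : S, {ω | Kn + M.dd y z / 8 ≤ L ω y} := by
    rintro ω ⟨y, hy⟩
    exact Set.mem_iUnion.2 ⟨y, le_of_lt hy⟩
  refine (measure_mono h1).trans ((measure_iUnion_fintype_le μ _).trans ?_)
  refine (Finset.sum_le_sum fun y _ => h y _).trans ?_
  rw [← ENNReal.ofReal_sum_of_nonneg (fun y _ => (Real.exp_pos _).le)]
  apply ENNReal.ofReal_le_ofReal
  calc ∑ y, Real.exp (C1 * (n * v + 1) - lam0 * (Kn + M.dd y z / 8))
      = ∑ y, Real.exp (-(lam0 / 8 * (M.dd z y : ℝ))) *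
          Real.exp (C1 * (n * v + 1) - lam0 * Kn) := by
        refine Finset.sum_congr rfl fun y _ => ?_
        rw [← Real.exp_add, M.dd_comm y z]
        congr 1
        ring
    _ = (∑ y, Real.exp (-(lam0 / 8 * (M.dd z y : ℝ)))) *
          Real.exp (C1 * (n * v + 1) - lam0 * Kn) := by rw [Finset.sum_mul]
    _ ≤ C3 * Real.exp (C1 * (n * v + 1) - lam0 * Kn) :=
        mul_le_mul_of_nonneg_right hC3 (Real.exp_pos _).le

/-- the oscillation condition (g3) -/
private theorem MFd2_g3 {S : Type} [Fintype S] {D : ℕ} (M : MSet S D) (P : FPar)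
    (hn1 : 1 ≤ P.n1) (z : S) :
    PI (nz S) {ω | ∃ y, M.dd y z ≤ P.r1 ∧ 1 / 4 < osc (fun j => sc P.v ω j y) P.n1} ≤
      ENNReal.ofReal ((2 * P.r1 + 1) ^ D * (4 * Real.exp (-(1 / (512 * (P.v * P.n1)))))) := by
  classical
  set B : Finset S := Finset.univ.filter fun y => M.dd y z ≤ P.r1 with hB
  have h1 : {ω : ℕ → S → ℝ | ∃ y, M.dd y z ≤ P.r1 ∧
        1 / 4 < osc (fun j => sc P.v ω j y) P.n1} ⊆
      ⋃ y ∈ B, {ω | 1 / 4 ≤ osc (fun j => sc P.v ω j y) P.n1} := by
    rintro ω ⟨y, hy, hy'⟩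
    refine Set.mem_iUnion₂.2 ⟨y, ?_, le_of_lt hy'⟩
    rw [hB, Finset.mem_filter]
    exact ⟨Finset.mem_univ _, hy⟩
  refine (measure_mono h1).trans ((measure_biUnion_finset_le B _).trans ?_)
  have h2 : ∀ y ∈ B, PI (nz S) {ω | 1 / 4 ≤ osc (fun j => sc P.v ω j y) P.n1} ≤
      ENNReal.ofReal (4 * Real.exp (-(1 / (512 * (P.v * P.n1))))) := by
    intro y _
    refine (osc_tail_nz P.v P.hv P.n1 (by omega) y (1 / 4) (by norm_num)).trans (le_of_eq ?_)
    have hv := P.hv
    have hn0 : 0 < P.n1 := hn1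
    have hn : (0 : ℝ) < P.n1 := by exact_mod_cast hn0
    congr 3
    field_simp
    norm_num
  refine (Finset.sum_le_sum h2).trans ?_
  have h4 : (0 : ℝ) ≤ (2 * P.r1 + 1) ^ D := by positivity
  rw [Finset.sum_const, nsmul_eq_mul, ENNReal.ofReal_mul h4]
  refine mul_le_mul' ?_ le_rfl
  rw [← ENNReal.ofReal_natCast]
  apply ENNReal.ofReal_le_ofReal
  have h3 := M.growth z P.r1 B (by
    intro y hy
    rw [M.dd_comm]
    exact (Finset.mem_filter.1 hy).2)
  exact_mod_cast h3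

/-- the noise condition (g4) -/
private theorem MFd2_g4 {S : Type} [Fintype S] {D : ℕ} (M : MSet S D) (P : FPar)
    (F : S → ℝ) (z : S) :
    PI (nz S) {ω | P.Kp < |∑ j ∈ Finset.range P.nu, ∑ y,
        (cuP M P z F (sc P.v ω) j y / Real.sqrt P.v) * ω j y|} ≤
      ENNReal.ofReal (2 * Real.exp (-(P.Kp ^ 2 / (2 * MFd2_Q D P)))) := by
  have h1 := adapted_tail cmart_real P.nu (MFd2_v M P F z) (MFd2_measurable_v M P F z)
    (MFd2_v_dep M P F z) (fun j hj ω => MFd2_v_zero M P F z j hj ω) (MFd2_Q D P)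
    (MFd2_Q_pos D P) (MFd2_energy M P F z) P.Kp P.hKp
  have h2 : {ω : ℕ → S → ℝ | P.Kp < |∑ j ∈ Finset.range P.nu, ∑ y,
        (cuP M P z F (sc P.v ω) j y / Real.sqrt P.v) * ω j y|} =
      {ω | P.Kp < |∑ j ∈ Finset.range P.nu, ∑ y, inner ℝ (MFd2_v M P F z j ω y) (ω j y)|} := by
    ext ω
    simp only [Set.mem_ofPred_eq]
    rw [MFd2_inner]
  rw [h2]
  refine le_trans h1 (le_of_eq ?_)
  congr 3
  ring

theorem good_noise (D : ℕ) : ∃ lam0 C : ℝ, 0 < lam0 ∧ 0 < C ∧
    ∀ (S : Type) [Fintype S] (M : MSet S D) (P : FPar), P.v ≤ 1 / lam0 ^ 2 → 1 ≤ P.n1 →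
      ∀ (F : S → ℝ) (z : S),
        PI (nz S) {ω | (∀ y, -P.KG - M.dd y z / 8 ≤ M.RR F y) ∧ ¬ GoodW M P F ω z}
          ≤ ENNReal.ofReal (C * Real.exp (C * (P.nu * P.v + 1) - lam0 * P.Kn)
            + (2 * P.r1 + 1) ^ D * (4 * Real.exp (-(1 / (512 * (P.v * P.n1)))))
            + 2 * Real.exp (-(P.Kp ^ 2 /
                (2 * ((max P.cup P.cd) ^ 2 * (P.v * P.nu) * (2 * P.r2 + 1) ^ D))))) := by
  obtain ⟨lam0, C1, h0, hC1, htail⟩ := lpp_tail D (1 / 8) (by norm_num)
  obtain ⟨C3, hC31, hsum⟩ := sum_exp_dd D (lam0 / 8) (by positivity)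
  refine ⟨lam0, max (2 * C3) C1, h0, lt_max_of_lt_right hC1, ?_⟩
  intro S _ M P hv hn1 F z
  have hvp := P.hv
  have hC3 := hsum S M z
  have ht1 : ∀ (x : S) (r : ℝ),
      PI (nz S) {ω | r ≤ M.lppM (1 / 8) (fun _ => 0) (sc P.v ω) P.nu x}
        ≤ ENNReal.ofReal (Real.exp (C1 * (P.nu * P.v + 1) - lam0 * r)) := fun x r =>
    htail S M P.v hvp hv P.nu x r
  have ht2 : ∀ (x : S) (r : ℝ),
      PI (nz S) {ω | r ≤ M.lppM (1 / 8) (fun _ => 0) (-(sc P.v ω)) P.nu x}
        ≤ ENNReal.ofReal (Real.exp (C1 * (P.nu * P.v + 1) - lam0 * r)) := by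
    intro x r
    have hset : MeasurableSet {ω : ℕ → S → ℝ |
        r ≤ M.lppM (1 / 8) (fun _ => 0) (sc P.v ω) P.nu x} :=
      measurableSet_le measurable_const
        ((measurable_lppM M (1 / 8) (fun _ => 0) P.nu x).comp (MFd2_measurable_sc P.v))
    refine le_trans (le_of_eq ?_) (ht1 x r)
    rw [← MFd2_PI_neg S _ hset]
    congr 1
    ext ω
    simp only [Set.mem_ofPred_eq]
    have h3 : -(sc P.v ω) = sc P.v (fun i => -(ω i)) := by
      funext j y
      simp [sc]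
    rw [h3]
  have hu1 := MFd2_union M lam0 C1 C3 P.v P.nu z P.Kn hC3 (PI (nz S))
    (fun ω y => M.lppM (1 / 8) (fun _ => 0) (sc P.v ω) P.nu y) ht1
  have hu2 := MFd2_union M lam0 C1 C3 P.v P.nu z P.Kn hC3 (PI (nz S))
    (fun ω y => M.lppM (1 / 8) (fun _ => 0) (-(sc P.v ω)) P.nu y) ht2
  have hu3 := MFd2_g3 M P hn1 z
  have hu4 := MFd2_g4 M P F z
  have hsub : {ω : ℕ → S → ℝ | (∀ y, -P.KG - M.dd y z / 8 ≤ M.RR F y) ∧ ¬ GoodW M P F ω z} ⊆
      (({ω : ℕ → S → ℝ | ∃ y, P.Kn + M.dd y z / 8 <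
          M.lppM (1 / 8) (fun _ => 0) (sc P.v ω) P.nu y} ∪
        {ω | ∃ y, P.Kn + M.dd y z / 8 <
          M.lppM (1 / 8) (fun _ => 0) (-(sc P.v ω)) P.nu y}) ∪
        {ω | ∃ y, M.dd y z ≤ P.r1 ∧ 1 / 4 < osc (fun j => sc P.v ω j y) P.n1}) ∪
        {ω | P.Kp < |∑ j ∈ Finset.range P.nu, ∑ y,
          (cuP M P z F (sc P.v ω) j y / Real.sqrt P.v) * ω j y|} := by
    rintro ω ⟨hg1, hbad⟩
    by_contra hcon
    simp only [Set.mem_union, Set.mem_ofPred_eq, not_or, not_exists, not_lt, not_and] at hcon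
    obtain ⟨⟨⟨h1, h2⟩, h3⟩, h4⟩ := hcon
    exact hbad ⟨⟨hg1, h1, h2, h3⟩, h4⟩
  refine (measure_mono hsub).trans ?_
  refine (measure_union_le _ _).trans ?_
  refine (add_le_add ((measure_union_le _ _).trans (add_le_add ((measure_union_le _ _).trans
    (add_le_add hu1 hu2)) hu3)) hu4).trans ?_
  have hC30 : 0 ≤ C3 := by linarith
  rw [← ENNReal.ofReal_add (by positivity) (by positivity),
    ← ENNReal.ofReal_add (by positivity) (by positivity),
    ← ENNReal.ofReal_add (by positivity) (by positivity)]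
  apply ENNReal.ofReal_le_ofReal
  have h5 : C3 * Real.exp (C1 * (P.nu * P.v + 1) - lam0 * P.Kn) +
      C3 * Real.exp (C1 * (P.nu * P.v + 1) - lam0 * P.Kn) ≤
      max (2 * C3) C1 * Real.exp (max (2 * C3) C1 * (P.nu * P.v + 1) - lam0 * P.Kn) := by
    have h6 : Real.exp (C1 * (P.nu * P.v + 1) - lam0 * P.Kn) ≤
        Real.exp (max (2 * C3) C1 * (P.nu * P.v + 1) - lam0 * P.Kn) := by
      apply Real.exp_le_exp.2
      have h7 : (0 : ℝ) ≤ P.nu * P.v + 1 := by positivity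
      have := mul_le_mul_of_nonneg_right (le_max_right (2 * C3) C1) h7
      linarith
    have h8 : 2 * C3 * Real.exp (C1 * (P.nu * P.v + 1) - lam0 * P.Kn) ≤
        max (2 * C3) C1 * Real.exp (max (2 * C3) C1 * (P.nu * P.v + 1) - lam0 * P.Kn) :=
      mul_le_mul (le_max_left _ _) h6 (Real.exp_pos _).le
        (le_trans (by positivity) (le_max_left (2 * C3) C1))
    linarith
  have h9 : 2 * Real.exp (-(P.Kp ^ 2 / (2 * MFd2_Q D P))) = 2 * Real.exp (-(P.Kp ^ 2 /
      (2 * ((max P.cup P.cd) ^ 2 * (P.v * P.nu) * (2 * P.r2 + 1) ^ D)))) := rfl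
  rw [h9]
  linarith

end DynC

end

/-! ### from `Lib_MP_36b788.CharExt` -/

section

/-!
# CHAREXT: laws on a product space are determined by the exponentials

PROOF. `fin`: `ech I u f` depends on `f` restricted to `I` only; the law of `f|_I` on `I → E N`, transported to an inner product
space (`PiLp 2 (fun _ : I => E N)` or `EuclideanSpace ℝ (I × Fin N)` by a linear homeomorphism), has characteristic function
`∫ ech I u`; `Measure.ext_of_charFun`. `ext`: both measures have the same marginals on all finite `I`, so they are equal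
(`IsProjectiveLimit.unique`, with `P I = μ.map (restrict I)`).
-/

open MeasureTheory ProbabilityTheory Filter
open scoped NNReal ENNReal Topology

namespace Dyn

private theorem CharExt_char {A : Type} {N : ℕ} (μ : Measure (A → E N)) (I : Finset A)
    (t : PiLp 2 (fun _ : I => E N)) (u : A → E N) (hu : ∀ q : I, u q = t q) :
    charFun ((μ.map (fun f (q : I) => f q)).map (MeasurableEquiv.toLp 2 (I → E N))) t =
      ∫ f, ech I u f ∂μ := by
  have hR : Measurable (fun (f : A → E N) (q : I) => f q) := by fun_prop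
  rw [charFun_apply, integral_map_equiv, integral_map hR.aemeasurable]
  · refine integral_congr_ae (ae_of_all _ fun f => ?_)
    simp only [ech, MeasurableEquiv.coe_toLp]
    rw [PiLp.inner_apply, mul_comm]
    congr 3
    rw [← Finset.sum_coe_sort I (fun q => (inner ℝ (u q) (f q) : ℝ))]
    refine Finset.sum_congr rfl fun q _ => ?_
    rw [hu q, real_inner_comm]
  · refine Measurable.aestronglyMeasurable ?_
    simp only [MeasurableEquiv.coe_toLp, PiLp.inner_apply]
    fun_prop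

theorem char_fin {A : Type} {N : ℕ} (μ ν : Measure (A → E N)) [IsProbabilityMeasure μ]
    [IsProbabilityMeasure ν] (I : Finset A)
    (h : ∀ u, ∫ f, ech I u f ∂μ = ∫ f, ech I u f ∂ν) :
    μ.map (fun f (q : I) => f q) = ν.map (fun f (q : I) => f q) := by
  classical
  have hR : Measurable (fun (f : A → E N) (q : I) => f q) := by fun_prop
  have i1 : IsProbabilityMeasure (μ.map (fun f (q : I) => f q)) :=
    Measure.isProbabilityMeasure_map hR.aemeasurable
  have i2 : IsProbabilityMeasure (ν.map (fun f (q : I) => f q)) :=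
    Measure.isProbabilityMeasure_map hR.aemeasurable
  refine (MeasurableEquiv.toLp 2 (I → E N)).map_measurableEquiv_injective
      <| Measure.ext_of_charFun <| funext fun t ↦ ?_
  obtain ⟨u, hu⟩ : ∃ u : A → E N, ∀ q : I, u q = t q :=
    ⟨fun q : A => if hq : q ∈ I then t ⟨q, hq⟩ else 0, fun q => by simp⟩
  rw [CharExt_char μ I t u hu, CharExt_char ν I t u hu, h]

theorem char_ext {A : Type} {N : ℕ} (μ ν : Measure (A → E N)) [IsProbabilityMeasure μ]
    [IsProbabilityMeasure ν] (h : ∀ I u, ∫ f, ech I u f ∂μ = ∫ f, ech I u f ∂ν) : μ = ν := by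
  have h1 : IsProjectiveLimit μ (fun I : Finset A => μ.map I.restrict) := fun I => rfl
  have h2 : IsProjectiveLimit ν (fun I : Finset A => μ.map I.restrict) := fun I =>
    (char_fin μ ν I (h I)).symm
  have h3 : ∀ I : Finset A, IsFiniteMeasure (μ.map I.restrict) := fun I => inferInstance
  exact h1.unique h2

end Dyn

end

/-! ### from `Lib_MP_36b788.FddC` -/

section

/-!
# FDDC: convergence of the exponentials gives convergence of finite dimensional distributions

PROOF. `atTop` on `ℝ≥0` is countably generated: it is enough to treat sequences `t_n → ∞` (`tendsto_of_seq_tendsto`). Laws of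
`(K t_n q)_{q∈I}` and of `f|_I`, transported to the inner product space `V = PiLp 2 (fun _ : I => E N)` (or `EuclideanSpace ℝ (I × Fin N)`) by a
linear homeomorphism `e`: the characteristic functions converge, `ProbabilityMeasure.tendsto_of_tendsto_charFun`, and then integrals of
the bounded continuous function `g ∘ e⁻¹` converge (`ProbabilityMeasure.tendsto_iff_forall_integral_rclike_tendsto ℂ`).
-/

open MeasureTheory ProbabilityTheory Filter
open scoped NNReal ENNReal Topology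

namespace Dyn

/-- restriction to `I` as an element of the inner product space -/
private noncomputable def FddC_r {A : Type} {N : ℕ} (I : Finset A) (f : A → E N) :
    PiLp 2 (fun _ : I => E N) := WithLp.toLp 2 (fun q : I => f q)

private theorem FddC_r_meas {A : Type} {N : ℕ} (I : Finset A) :
    Measurable (FddC_r (N := N) I) := by
  unfold FddC_r
  have h1 : Continuous fun x : (I → E N) => (WithLp.toLp 2 x : PiLp 2 (fun _ : I => E N)) :=
    PiLp.continuous_toLp 2 _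
  refine h1.measurable.comp ?_
  exact measurable_pi_lambda _ fun q => measurable_pi_apply _

private theorem FddC_char {A : Type} {N : ℕ} {Ω : Type} [MeasurableSpace Ω] (P : Measure Ω)
    (I : Finset A) (X : Ω → A → E N) (hX : ∀ q, Measurable fun ω => X ω q)
    (w : PiLp 2 (fun _ : I => E N)) (u : A → E N) (hu : ∀ q : I, u q = w q) :
    charFun (P.map fun ω => FddC_r I (X ω)) w = ∫ ω, ech I u (X ω) ∂P := by
  have hm : Measurable fun ω => FddC_r I (X ω) :=
    (FddC_r_meas I).comp (measurable_pi_lambda _ hX)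
  rw [charFun_apply, integral_map hm.aemeasurable]
  · refine integral_congr_ae (Eventually.of_forall fun ω => ?_)
    show Complex.exp ((inner ℝ (FddC_r I (X ω)) w : ℝ) * Complex.I) = ech I u (X ω)
    unfold ech
    rw [mul_comm]
    congr 3
    rw [PiLp.inner_apply, ← Finset.sum_coe_sort I]
    refine Finset.sum_congr rfl fun q _ => ?_
    rw [hu q, real_inner_comm]
    rfl
  · refine Continuous.aestronglyMeasurable ?_
    fun_prop

theorem fdd_of_char {A : Type} {N : ℕ} {Ω : Type} [MeasurableSpace Ω] {P : Measure Ω}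
    [IsProbabilityMeasure P] (K : ℝ≥0 → A → Ω → E N) (hK : ∀ t q, Measurable (K t q))
    (μ : Measure (A → E N)) [IsProbabilityMeasure μ]
    (h : ∀ I u, Tendsto (fun t => ∫ ω, ech I u (fun q => K t q ω) ∂P) atTop
      (𝓝 (∫ f, ech I u f ∂μ)))
    (I : Finset A) (g : (I → E N) → ℂ) (hg : Continuous g) (hb : ∃ C, ∀ x, ‖g x‖ ≤ C) :
    Tendsto (fun t => ∫ ω, g (fun q => K t q ω) ∂P) atTop (𝓝 (∫ f, g (fun q => f q) ∂μ)) := by
  classical
  obtain ⟨C, hC⟩ := hb
  refine tendsto_of_seq_tendsto fun x hx => ?_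
  have hm : ∀ t : ℝ≥0, Measurable fun ω => FddC_r I (fun q => K t q ω) := fun t =>
    (FddC_r_meas I).comp (measurable_pi_lambda _ fun q => hK t q)
  have hm0 : Measurable fun f : A → E N => FddC_r I f := FddC_r_meas I
  have p1 : ∀ t : ℝ≥0, IsProbabilityMeasure (P.map fun ω => FddC_r I (fun q => K t q ω)) :=
    fun t => Measure.isProbabilityMeasure_map (hm t).aemeasurable
  have p2 : IsProbabilityMeasure (μ.map fun f : A → E N => FddC_r I f) :=
    Measure.isProbabilityMeasure_map hm0.aemeasurable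
  obtain ⟨κ, hκ⟩ : ∃ κ : ℕ → ProbabilityMeasure (PiLp 2 (fun _ : I => E N)), ∀ n,
      (κ n : Measure (PiLp 2 (fun _ : I => E N))) =
        P.map fun ω => FddC_r I (fun q => K (x n) q ω) :=
    ⟨fun n => ⟨_, p1 (x n)⟩, fun n => rfl⟩
  obtain ⟨κ0, hκ0⟩ : ∃ κ0 : ProbabilityMeasure (PiLp 2 (fun _ : I => E N)),
      (κ0 : Measure (PiLp 2 (fun _ : I => E N))) = μ.map fun f : A → E N => FddC_r I f :=
    ⟨⟨_, p2⟩, rfl⟩
  have ht : Tendsto κ atTop (𝓝 κ0) := by
    refine ProbabilityMeasure.tendsto_of_tendsto_charFun fun w => ?_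
    obtain ⟨u, hu⟩ : ∃ u : A → E N, ∀ q : I, u q = w q :=
      ⟨fun q => if hq : q ∈ I then w ⟨q, hq⟩ else 0, fun q => by simp [q.2]⟩
    have h1 := (h I u).comp hx
    have h2 : charFun (μ.map fun f : A → E N => FddC_r I f) w = ∫ f, ech I u f ∂μ :=
      FddC_char μ I (fun f => f) (fun q => measurable_pi_apply q) w u hu
    rw [hκ0, h2]
    refine h1.congr fun n => ?_
    rw [hκ]
    exact (FddC_char P I (fun ω q => K (x n) q ω) (fun q => hK (x n) q) w u hu).symm
  rw [ProbabilityMeasure.tendsto_iff_forall_integral_rclike_tendsto ℂ] at ht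
  have hgc : Continuous fun v : PiLp 2 (fun _ : I => E N) => g (WithLp.ofLp v) :=
    hg.comp (PiLp.continuous_ofLp 2 _)
  have h3 := ht (BoundedContinuousFunction.ofNormedAddCommGroup
    (fun v : PiLp 2 (fun _ : I => E N) => g (WithLp.ofLp v)) hgc C fun v => hC _)
  rw [hκ0, integral_map hm0.aemeasurable
    (BoundedContinuousFunction.continuous _).aestronglyMeasurable] at h3
  refine h3.congr fun n => ?_
  rw [hκ, integral_map (hm (x n)).aemeasurable
    (BoundedContinuousFunction.continuous _).aestronglyMeasurable]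
  rfl

end Dyn

end

/-! ### from `Lib_MP_36b788.MixCyl` -/

section

/-!
# MIXCYL: mixing of exponentials implies mixing of cylinder sets

PROOF. Let `X = f|_I`, `Y_T = (θ_T f)|_J`, `μ_I, μ_J` their laws (`Y_T` has law `μ_J` by invariance). Step 1: for bounded continuous
`g1 : (I → E N) → ℝ`, `g2 : (J → E N) → ℝ`: `∫g1(X)g2(Y_T)dμ → ∫g1(X)dμ∫g2(f|_J)dμ`. Proof: apply fdd_of_char with `Ω = A → E N`, index type
`A ⊕ A`, `K T (inl q) f = f q`, `K T (inr q) f = (θ_T f) q` and the product measure `M` on `(A ⊕ A) → E N` (the image of `μ.prod μ` under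
`(f,f') ↦ Sum.elim f f'`): for a finite `I' ⊆ A ⊕ A` with parts `I1, J1`, `ech I' u (K T · f) = ech I1 u1 f · ech J1 u2 (θ_T f)`, so the hypothesis
is the limit required. Step 2: indicator functions: for `η > 0` there are bounded continuous `g1, g2` with values in `[0,1]`
and `∫|1_S - g1|dμ_I ≤ η`, `∫|1_{S'} - g2|dμ_J ≤ η` (finite Borel measures on a metric space, e.g.
`MemLp.exists_boundedContinuous_eLpNorm_sub_le` or closed/open approximations), and
`|μ(X∈S, Y_T∈S') - ∫g1(X)g2(Y_T)| ≤ 2η`, `|μ(X∈S)μ(Y∈S') - ∫g1∫g2| ≤ 2η` (clamp `g_i` to `[0,1]` or use their sup norm).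
-/

open MeasureTheory ProbabilityTheory Filter
open scoped NNReal ENNReal Topology

namespace Dyn

/-- approximation of a Borel set by continuous functions -/
private theorem MixCyl_approx {X : Type} [TopologicalSpace X] [NormalSpace X] [MeasurableSpace X]
    [BorelSpace X] (ν : Measure X) [IsFiniteMeasure ν] [ν.WeaklyRegular] {S : Set X}
    (hS : MeasurableSet S) {η : ℝ} (hη : 0 < η) :
    ∃ (g : X → ℝ) (W : Set X), Continuous g ∧ (∀ x, 0 ≤ g x ∧ g x ≤ 1) ∧ MeasurableSet W ∧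
      ν.real W ≤ η ∧ ∀ x, |S.indicator 1 x - g x| ≤ W.indicator 1 x := by
  have hη2 : ENNReal.ofReal (η / 2) ≠ 0 := by
    rw [ne_eq, ENNReal.ofReal_eq_zero, not_le]
    linarith
  obtain ⟨K, hKS, hK, hKm⟩ := hS.exists_isClosed_sdiff_lt (measure_ne_top ν S) hη2
  obtain ⟨U, hSU, hU, _, hUm⟩ := hS.exists_isOpen_sdiff_lt (measure_ne_top ν S) hη2
  have hd : Disjoint Uᶜ K := by
    rw [Set.disjoint_left]
    intro x hx hxK
    exact hx (hSU (hKS hxK))
  obtain ⟨g, hg0, hg1, hg⟩ := exists_continuous_zero_one_of_isClosed hU.isClosed_compl hK hd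
  refine ⟨g, U \ K, g.continuous, fun x => ⟨(hg x).1, (hg x).2⟩,
    hU.measurableSet.diff hK.measurableSet, ?_, ?_⟩
  · have h1 : U \ K ⊆ (U \ S) ∪ (S \ K) := by
      intro x hx
      by_cases h : x ∈ S
      · exact Or.inr ⟨h, hx.2⟩
      · exact Or.inl ⟨hx.1, h⟩
    have h2 : ν (U \ K) ≤ ENNReal.ofReal η := by
      calc ν (U \ K) ≤ ν ((U \ S) ∪ (S \ K)) := measure_mono h1
        _ ≤ ν (U \ S) + ν (S \ K) := measure_union_le _ _
        _ ≤ ENNReal.ofReal (η / 2) + ENNReal.ofReal (η / 2) := add_le_add hUm.le hKm.le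
        _ = ENNReal.ofReal η := by
            rw [← ENNReal.ofReal_add (by linarith) (by linarith), add_halves]
    exact ENNReal.toReal_le_of_le_ofReal hη.le h2
  · intro x
    by_cases hxU : x ∈ U
    · by_cases hxK : x ∈ K
      · have h1 : g x = 1 := hg1 hxK
        rw [h1, Set.indicator_of_mem (hKS hxK), Pi.one_apply, sub_self, abs_zero]
        exact Set.indicator_nonneg (fun _ _ => zero_le_one) _
      · rw [Set.indicator_of_mem (show x ∈ U \ K from ⟨hxU, hxK⟩), Pi.one_apply]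
        have h2 := hg x
        by_cases hxS : x ∈ S
        · rw [Set.indicator_of_mem hxS, Pi.one_apply, abs_le]
          constructor <;> linarith [h2.1, h2.2]
        · rw [Set.indicator_of_notMem hxS, abs_le]
          constructor <;> linarith [h2.1, h2.2]
    · have h1 : g x = 0 := hg0 hxU
      rw [h1, Set.indicator_of_notMem (fun h => hxU (hSU h)), sub_zero, abs_zero]
      exact Set.indicator_nonneg (fun _ _ => zero_le_one) _

private theorem MixCyl_ech {A : Type} {N : ℕ} (I' : Finset (A ⊕ A)) (u : A ⊕ A → E N)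
    (f f' : A → E N) : ech I' u (Sum.elim f f') =
      ech I'.toLeft (fun a => u (Sum.inl a)) f * ech I'.toRight (fun a => u (Sum.inr a)) f' := by
  unfold ech
  rw [← Complex.exp_add, ← mul_add, ← Complex.ofReal_add]
  congr 3
  conv_lhs => rw [← Finset.toLeft_disjSum_toRight (u := I')]
  rw [Finset.sum_disjSum]
  rfl

private theorem MixCyl_ech_meas {A : Type} {N : ℕ} (I : Finset A) (u : A → E N) :
    Measurable (ech I u) := by
  unfold ech
  refine Complex.measurable_exp.comp (measurable_const.mul (Complex.measurable_ofReal.comp ?_))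
  refine Finset.measurable_sum I fun q _ => ?_
  exact (measurable_const : Measurable fun _ : A → E N => u q).inner (measurable_pi_apply q)

/-- Step 1: convergence for products of bounded continuous functions -/
private theorem MixCyl_step {A : Type} {N : ℕ} (μ : Measure (A → E N)) [IsProbabilityMeasure μ]
    (θ : ℝ≥0 → (A → E N) → (A → E N)) (hθm : ∀ T, Measurable (θ T))
    (h : ∀ I u J v, Tendsto (fun T => ∫ f, ech I u f * ech J v (θ T f) ∂μ) atTop
      (𝓝 ((∫ f, ech I u f ∂μ) * ∫ f, ech J v f ∂μ)))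
    (I J : Finset A) (g1 : (I → E N) → ℝ) (g2 : (J → E N) → ℝ) (hg1 : Continuous g1)
    (hg2 : Continuous g2) (hb1 : ∀ x, 0 ≤ g1 x ∧ g1 x ≤ 1) (hb2 : ∀ x, 0 ≤ g2 x ∧ g2 x ≤ 1) :
    Tendsto (fun T => ∫ f, g1 (fun q : I => f q) * g2 (fun q : J => θ T f q) ∂μ) atTop
      (𝓝 ((∫ f, g1 (fun q : I => f q) ∂μ) * ∫ f, g2 (fun q : J => f q) ∂μ)) := by
  classical
  set K : ℝ≥0 → A ⊕ A → (A → E N) → E N := fun T q f => Sum.elim f (θ T f) q with hKdef
  have hK : ∀ t q, Measurable (K t q) := by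
    intro t q
    rcases q with q | q
    · exact measurable_pi_apply q
    · exact (measurable_pi_apply q).comp (hθm t)
  set e : (A → E N) × (A → E N) → (A ⊕ A → E N) := fun p => Sum.elim p.1 p.2 with he
  have hem : Measurable e := by
    refine measurable_pi_iff.2 fun q => ?_
    rcases q with q | q
    · exact (measurable_pi_apply q).comp measurable_fst
    · exact (measurable_pi_apply q).comp measurable_snd
  set M : Measure (A ⊕ A → E N) := (μ.prod μ).map e with hM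
  haveI : IsProbabilityMeasure M := Measure.isProbabilityMeasure_map hem.aemeasurable
  have hch : ∀ (I' : Finset (A ⊕ A)) (u : A ⊕ A → E N),
      Tendsto (fun t => ∫ ω, ech I' u (fun q => K t q ω) ∂μ) atTop (𝓝 (∫ f, ech I' u f ∂M)) := by
    intro I' u
    have h1 : ∀ t, ∫ ω, ech I' u (fun q => K t q ω) ∂μ =
        ∫ f, ech I'.toLeft (fun a => u (Sum.inl a)) f *
          ech I'.toRight (fun a => u (Sum.inr a)) (θ t f) ∂μ := by
      intro t
      refine integral_congr_ae (Eventually.of_forall fun f => ?_)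
      exact MixCyl_ech I' u f (θ t f)
    have h2 : ∫ f, ech I' u f ∂M = (∫ f, ech I'.toLeft (fun a => u (Sum.inl a)) f ∂μ) *
        ∫ f, ech I'.toRight (fun a => u (Sum.inr a)) f ∂μ := by
      rw [hM, integral_map hem.aemeasurable (MixCyl_ech_meas I' u).aestronglyMeasurable,
        ← integral_prod_mul]
      refine integral_congr_ae (Eventually.of_forall fun p => ?_)
      exact MixCyl_ech I' u p.1 p.2
    rw [h2]
    simp only [h1]
    exact h _ _ _ _
  set I' : Finset (A ⊕ A) := I.disjSum J with hI'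
  have hl : ∀ q : I, Sum.inl (q : A) ∈ I' := fun q => Finset.inl_mem_disjSum.2 q.2
  have hr : ∀ q : J, Sum.inr (q : A) ∈ I' := fun q => Finset.inr_mem_disjSum.2 q.2
  set g : (I' → E N) → ℂ := fun F =>
    ((g1 (fun q : I => F ⟨Sum.inl (q : A), hl q⟩) * g2 (fun q : J => F ⟨Sum.inr (q : A), hr q⟩) :
      ℝ) : ℂ) with hg
  have hgc : Continuous g := by
    refine Complex.continuous_ofReal.comp ?_
    exact (hg1.comp (continuous_pi fun q : I =>
      continuous_apply (⟨Sum.inl (q : A), hl q⟩ : I'))).mul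
      (hg2.comp (continuous_pi fun q : J => continuous_apply (⟨Sum.inr (q : A), hr q⟩ : I')))
  have hgb : ∃ C, ∀ x, ‖g x‖ ≤ C := by
    refine ⟨1, fun x => ?_⟩
    rw [hg]
    show ‖((_ : ℝ) : ℂ)‖ ≤ 1
    rw [Complex.norm_real, Real.norm_eq_abs, abs_of_nonneg
      (mul_nonneg (hb1 _).1 (hb2 _).1)]
    exact mul_le_one₀ (hb1 _).2 (hb2 _).1 (hb2 _).2
  have hlim := fdd_of_char K hK M hch I' g hgc hgb
  have h3 : ∀ t, ∫ ω, g (fun q => K t q ω) ∂μ =
      ((∫ f, g1 (fun q : I => f q) * g2 (fun q : J => θ t f q) ∂μ : ℝ) : ℂ) := by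
    intro t
    have h3' : ∫ f, ((g1 (fun q : I => f q) * g2 (fun q : J => θ t f q) : ℝ) : ℂ) ∂μ =
        ((∫ f, g1 (fun q : I => f q) * g2 (fun q : J => θ t f q) ∂μ : ℝ) : ℂ) := integral_ofReal
    rw [← h3']
    rfl
  have hm1 : Measurable (fun f : A → E N => g1 (fun q : I => f q)) :=
    hg1.measurable.comp (measurable_pi_iff.2 fun q => measurable_pi_apply _)
  have hm2 : Measurable (fun f : A → E N => g2 (fun q : J => f q)) :=
    hg2.measurable.comp (measurable_pi_iff.2 fun q => measurable_pi_apply _)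
  have h4 : ∫ f, g (fun q => f q) ∂M =
      (((∫ f, g1 (fun q : I => f q) ∂μ) * ∫ f, g2 (fun q : J => f q) ∂μ : ℝ) : ℂ) := by
    have hgr : Measurable fun f : A ⊕ A → E N => (fun q : I' => f q) :=
      measurable_pi_iff.2 fun q => measurable_pi_apply _
    have hgm : Measurable fun f : A ⊕ A → E N => g (fun q : I' => f q) :=
      hgc.measurable.comp hgr
    rw [hM, integral_map hem.aemeasurable hgm.aestronglyMeasurable]
    show ∫ p : (A → E N) × (A → E N),
      ((g1 (fun q : I => p.1 q) * g2 (fun q : J => p.2 q) : ℝ) : ℂ) ∂(μ.prod μ) = _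
    have h4' : ∫ p : (A → E N) × (A → E N),
      ((g1 (fun q : I => p.1 q) * g2 (fun q : J => p.2 q) : ℝ) : ℂ) ∂(μ.prod μ) =
      ((∫ p : (A → E N) × (A → E N), g1 (fun q : I => p.1 q) * g2 (fun q : J => p.2 q)
        ∂(μ.prod μ) : ℝ) : ℂ) := integral_ofReal
    rw [h4', integral_prod_mul (fun f : A → E N => g1 (fun q : I => f q))
      (fun f : A → E N => g2 (fun q : J => f q))]
  rw [h4] at hlim
  simp only [h3] at hlim
  have h5 := (Complex.continuous_re.tendsto _).comp hlim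
  exact h5

theorem mix_cyl {A : Type} {N : ℕ} (μ : Measure (A → E N)) [IsProbabilityMeasure μ]
    (θ : ℝ≥0 → (A → E N) → (A → E N)) (hθm : ∀ T, Measurable (θ T)) (hθ : ∀ T, μ.map (θ T) = μ)
    (h : ∀ I u J v, Tendsto (fun T => ∫ f, ech I u f * ech J v (θ T f) ∂μ) atTop
      (𝓝 ((∫ f, ech I u f ∂μ) * ∫ f, ech J v f ∂μ)))
    (I J : Finset A) (S : Set (I → E N)) (S' : Set (J → E N)) (hS : MeasurableSet S)
    (hS' : MeasurableSet S') :
    Tendsto (fun T => μ ({f | (fun q : I => f q) ∈ S} ∩ θ T ⁻¹' {f | (fun q : J => f q) ∈ S'}))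
      atTop (𝓝 (μ {f | (fun q : I => f q) ∈ S} * μ {f | (fun q : J => f q) ∈ S'})) := by
  classical
  have hXm : Measurable (fun f : A → E N => (fun q : I => f q)) :=
    measurable_pi_iff.2 fun q => measurable_pi_apply _
  have hYm : Measurable (fun f : A → E N => (fun q : J => f q)) :=
    measurable_pi_iff.2 fun q => measurable_pi_apply _
  have hfin1 : μ {f | (fun q : I => f q) ∈ S} * μ {f | (fun q : J => f q) ∈ S'} ≠ ∞ :=
    ENNReal.mul_ne_top (measure_ne_top _ _) (measure_ne_top _ _)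
  rw [← ENNReal.tendsto_toReal_iff (fun T => measure_ne_top _ _) hfin1, ENNReal.toReal_mul,
    Metric.tendsto_nhds]
  intro ε hε
  set η : ℝ := ε / 8 with hη
  have hη0 : 0 < η := by rw [hη]; linarith
  obtain ⟨g1, W1, hg1, hb1, hW1, hmW1, ha1⟩ := MixCyl_approx (μ.map (fun f : A → E N =>
    (fun q : I => f q))) hS hη0
  obtain ⟨g2, W2, hg2, hb2, hW2, hmW2, ha2⟩ := MixCyl_approx (μ.map (fun f : A → E N =>
    (fun q : J => f q))) hS' hη0
  have hlim := MixCyl_step μ θ hθm h I J g1 g2 hg1 hg2 hb1 hb2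
  -- measurability
  have hYTm : ∀ T, Measurable (fun f : A → E N => (fun q : J => θ T f q)) := fun T =>
    hYm.comp (hθm T)
  have hi1 : Measurable (S.indicator (1 : (I → E N) → ℝ)) := measurable_one.indicator hS
  have hi2 : Measurable (S'.indicator (1 : (J → E N) → ℝ)) := measurable_one.indicator hS'
  have hw1 : Measurable (W1.indicator (1 : (I → E N) → ℝ)) := measurable_one.indicator hW1
  have hw2 : Measurable (W2.indicator (1 : (J → E N) → ℝ)) := measurable_one.indicator hW2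
  have hind : ∀ {Z : Type} (V : Set Z) (z : Z), 0 ≤ V.indicator (1 : Z → ℝ) z ∧
      V.indicator (1 : Z → ℝ) z ≤ 1 := by
    intro Z V z
    refine ⟨Set.indicator_nonneg (fun _ _ => zero_le_one) _, ?_⟩
    exact Set.indicator_le_self' (fun _ _ => zero_le_one) z
  have hint : ∀ (F : (A → E N) → ℝ), Measurable F → (∀ f, 0 ≤ F f ∧ F f ≤ 1) →
      Integrable F μ := by
    intro F hF hF1
    refine Integrable.of_bound hF.aestronglyMeasurable 1 (Eventually.of_forall fun f => ?_)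
    rw [Real.norm_eq_abs, abs_of_nonneg (hF1 f).1]
    exact (hF1 f).2
  -- values as integrals
  have hreal : ∀ V : Set (A → E N), MeasurableSet V → (μ V).toReal = ∫ f, V.indicator 1 f ∂μ := by
    intro V hV
    rw [integral_indicator_one hV]
    rfl
  have hXW : ∫ f, W1.indicator (1 : (I → E N) → ℝ) (fun q : I => f q) ∂μ ≤ η := by
    have h1 : ∫ f, W1.indicator (1 : (I → E N) → ℝ) (fun q : I => f q) ∂μ =
        ∫ x, W1.indicator 1 x ∂(μ.map (fun f : A → E N => (fun q : I => f q))) :=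
      (integral_map hXm.aemeasurable hw1.aestronglyMeasurable).symm
    rw [h1, integral_indicator_one hW1]
    exact hmW1
  have hYW : ∫ f, W2.indicator (1 : (J → E N) → ℝ) (fun q : J => f q) ∂μ ≤ η := by
    have h1 : ∫ f, W2.indicator (1 : (J → E N) → ℝ) (fun q : J => f q) ∂μ =
        ∫ x, W2.indicator 1 x ∂(μ.map (fun f : A → E N => (fun q : J => f q))) :=
      (integral_map hYm.aemeasurable hw2.aestronglyMeasurable).symm
    rw [h1, integral_indicator_one hW2]
    exact hmW2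
  have hYTW : ∀ T, ∫ f, W2.indicator (1 : (J → E N) → ℝ) (fun q : J => θ T f q) ∂μ ≤ η := by
    intro T
    have h1 : ∫ f, W2.indicator (1 : (J → E N) → ℝ) (fun q : J => f q) ∂(μ.map (θ T)) =
        ∫ f, W2.indicator (1 : (J → E N) → ℝ) (fun q : J => θ T f q) ∂μ :=
      integral_map (hθm T).aemeasurable (hw2.comp hYm).aestronglyMeasurable
    rw [← h1, hθ T]
    exact hYW
  -- the two estimates
  have hpt : ∀ a b c d w w' : ℝ, |a - c| ≤ w → |b - d| ≤ w' → 0 ≤ b → b ≤ 1 → 0 ≤ c → c ≤ 1 →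
      |a * b - c * d| ≤ w + w' := by
    intro a b c d w w' h1 h2 hb0 hb1 hc0 hc1
    have h3 : a * b - c * d = (a - c) * b + c * (b - d) := by ring
    rw [h3]
    refine (abs_add_le _ _).trans (add_le_add ?_ ?_)
    · rw [abs_mul, abs_of_nonneg hb0]
      exact (mul_le_of_le_one_right (abs_nonneg _) hb1).trans h1
    · rw [abs_mul, abs_of_nonneg hc0]
      exact (mul_le_of_le_one_left (abs_nonneg _) hc1).trans h2
  have hest1 : ∀ T, |(μ ({f | (fun q : I => f q) ∈ S} ∩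
      θ T ⁻¹' {f | (fun q : J => f q) ∈ S'})).toReal -
      ∫ f, g1 (fun q : I => f q) * g2 (fun q : J => θ T f q) ∂μ| ≤ 2 * η := by
    intro T
    have hA : MeasurableSet ({f : A → E N | (fun q : I => f q) ∈ S} ∩
        θ T ⁻¹' {f | (fun q : J => f q) ∈ S'}) :=
      (hXm hS).inter ((hθm T) (hYm hS'))
    have h1 : ∀ f : A → E N, ({f : A → E N | (fun q : I => f q) ∈ S} ∩
        θ T ⁻¹' {f | (fun q : J => f q) ∈ S'}).indicator (1 : (A → E N) → ℝ) f =
        S.indicator 1 (fun q : I => f q) * S'.indicator 1 (fun q : J => θ T f q) := by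
      intro f
      by_cases hf1 : (fun q : I => f q) ∈ S
      · by_cases hf2 : (fun q : J => θ T f q) ∈ S'
        · rw [Set.indicator_of_mem (show f ∈ {f : A → E N | (fun q : I => f q) ∈ S} ∩
            θ T ⁻¹' {f | (fun q : J => f q) ∈ S'} from ⟨hf1, hf2⟩), Set.indicator_of_mem hf1,
            Set.indicator_of_mem hf2, Pi.one_apply, Pi.one_apply, Pi.one_apply, mul_one]
        · rw [Set.indicator_of_notMem (fun h => hf2 h.2), Set.indicator_of_notMem hf2, mul_zero]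
      · rw [Set.indicator_of_notMem (fun h => hf1 h.1), Set.indicator_of_notMem hf1, zero_mul]
    rw [hreal _ hA, integral_congr_ae (Eventually.of_forall h1)]
    have i1 : Integrable (fun f : A → E N => S.indicator (1 : (I → E N) → ℝ)
        (fun q : I => f q) * S'.indicator (1 : (J → E N) → ℝ) (fun q : J => θ T f q)) μ :=
      hint _ ((hi1.comp hXm).mul (hi2.comp (hYTm T))) (fun f =>
        ⟨mul_nonneg (hind _ _).1 (hind _ _).1, mul_le_one₀ (hind _ _).2 (hind _ _).1 (hind _ _).2⟩)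
    have i2 : Integrable (fun f : A → E N => g1 (fun q : I => f q) *
        g2 (fun q : J => θ T f q)) μ :=
      hint _ ((hg1.measurable.comp hXm).mul (hg2.measurable.comp (hYTm T))) (fun f =>
        ⟨mul_nonneg (hb1 _).1 (hb2 _).1, mul_le_one₀ (hb1 _).2 (hb2 _).1 (hb2 _).2⟩)
    have i3 : Integrable (fun f : A → E N => W1.indicator (1 : (I → E N) → ℝ)
        (fun q : I => f q)) μ := hint _ (hw1.comp hXm) (fun f => hind _ _)
    have i4 : Integrable (fun f : A → E N => W2.indicator (1 : (J → E N) → ℝ)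
        (fun q : J => θ T f q)) μ := hint _ (hw2.comp (hYTm T)) (fun f => hind _ _)
    rw [← integral_sub i1 i2]
    refine abs_integral_le_integral_abs.trans ?_
    have h2 : ∫ f, |S.indicator (1 : (I → E N) → ℝ) (fun q : I => f q) *
        S'.indicator (1 : (J → E N) → ℝ) (fun q : J => θ T f q) -
        g1 (fun q : I => f q) * g2 (fun q : J => θ T f q)| ∂μ ≤
        ∫ f, (W1.indicator (1 : (I → E N) → ℝ) (fun q : I => f q) +
          W2.indicator (1 : (J → E N) → ℝ) (fun q : J => θ T f q)) ∂μ := by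
      refine integral_mono (i1.sub i2).abs (i3.add i4) (fun f => ?_)
      exact hpt _ _ _ _ _ _ (ha1 _) (ha2 _) (hind _ _).1 (hind _ _).2 (hb1 _).1 (hb1 _).2
    refine h2.trans ?_
    rw [integral_add i3 i4]
    linarith [hYTW T]
  have hest2 : |(μ {f | (fun q : I => f q) ∈ S}).toReal * (μ {f | (fun q : J => f q) ∈ S'}).toReal -
      (∫ f, g1 (fun q : I => f q) ∂μ) * ∫ f, g2 (fun q : J => f q) ∂μ| ≤ 2 * η := by
    have e1 : (μ {f | (fun q : I => f q) ∈ S}).toReal =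
        ∫ f, S.indicator (1 : (I → E N) → ℝ) (fun q : I => f q) ∂μ := by
      exact hreal _ (hXm hS)
    have e2 : (μ {f | (fun q : J => f q) ∈ S'}).toReal =
        ∫ f, S'.indicator (1 : (J → E N) → ℝ) (fun q : J => f q) ∂μ := by
      exact hreal _ (hYm hS')
    have i1 : Integrable (fun f : A → E N => S.indicator (1 : (I → E N) → ℝ)
        (fun q : I => f q)) μ := hint _ (hi1.comp hXm) (fun f => hind _ _)
    have i2 : Integrable (fun f : A → E N => S'.indicator (1 : (J → E N) → ℝ)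
        (fun q : J => f q)) μ := hint _ (hi2.comp hYm) (fun f => hind _ _)
    have i3 : Integrable (fun f : A → E N => g1 (fun q : I => f q)) μ :=
      hint _ (hg1.measurable.comp hXm) (fun f => hb1 _)
    have i4 : Integrable (fun f : A → E N => g2 (fun q : J => f q)) μ :=
      hint _ (hg2.measurable.comp hYm) (fun f => hb2 _)
    have i5 : Integrable (fun f : A → E N => W1.indicator (1 : (I → E N) → ℝ)
        (fun q : I => f q)) μ := hint _ (hw1.comp hXm) (fun f => hind _ _)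
    have i6 : Integrable (fun f : A → E N => W2.indicator (1 : (J → E N) → ℝ)
        (fun q : J => f q)) μ := hint _ (hw2.comp hYm) (fun f => hind _ _)
    have d1 : |(∫ f, S.indicator (1 : (I → E N) → ℝ) (fun q : I => f q) ∂μ) -
        ∫ f, g1 (fun q : I => f q) ∂μ| ≤ η := by
      rw [← integral_sub i1 i3]
      exact (abs_integral_le_integral_abs.trans
        (integral_mono (i1.sub i3).abs i5 (fun f => ha1 _))).trans hXW
    have d2 : |(∫ f, S'.indicator (1 : (J → E N) → ℝ) (fun q : J => f q) ∂μ) -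
        ∫ f, g2 (fun q : J => f q) ∂μ| ≤ η := by
      rw [← integral_sub i2 i4]
      exact (abs_integral_le_integral_abs.trans
        (integral_mono (i2.sub i4).abs i6 (fun f => ha2 _))).trans hYW
    rw [e1, e2, two_mul]
    refine hpt _ _ _ _ _ _ d1 d2 ?_ ?_ ?_ ?_
    · rw [← e2]; exact ENNReal.toReal_nonneg
    · rw [← e2]
      have h1 := ENNReal.toReal_mono ENNReal.one_ne_top
        (prob_le_one (μ := μ) (s := {f | (fun q : J => f q) ∈ S'}))
      rwa [ENNReal.toReal_one] at h1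
    · exact integral_nonneg fun f => (hb1 _).1
    · have h1 := integral_mono i3 (integrable_const (1 : ℝ)) (fun f => (hb1 (fun q : I => f q)).2)
      refine h1.trans ?_
      rw [integral_const]
      simp
  have hev := (Metric.tendsto_nhds.1 hlim) η hη0
  filter_upwards [hev] with T hT
  rw [Real.dist_eq] at hT ⊢
  have h1 := hest1 T
  rw [abs_le] at h1 hest2
  rw [abs_lt] at hT ⊢
  constructor <;> linarith [h1.1, h1.2, hest2.1, hest2.2, hT.1, hT.2]

end Dyn

end

/-! ### from `Lib_MP_36b788.SdeA` -/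

section

/-!
# SDEA: scaling, spatial shift
PROOF. `scale`: multiply every identity by `ε^{1/β}`: `‖ε^{1/β}H‖^β = ε‖H‖^β`, everything else is linear.
`shift`: reindex. `indepInc`: the σ-algebra generated by the shifted family is the same (bijection of the index set).
`iIndepFun` of a reindexed family (injective reindexing).
-/

open MeasureTheory ProbabilityTheory
open scoped NNReal ENNReal Topology

namespace Dyn

theorem SdeA_mulv {N : ℕ} (b : Fin N → Fin N → ℝ) (a : ℝ) (v : E N) :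
    mulv b (a • v) = a • mulv b v := by
  unfold mulv
  ext i
  simp only [PiLp.smul_apply, smul_eq_mul, Finset.mul_sum]
  exact Finset.sum_congr rfl fun j _ => by ring

theorem SdeA_rsum {Ω : Type} {N d : ℕ} (B : Site d → Fin N → Fin N → ℝ≥0 → Ω → ℝ)
    (H : ℝ≥0 → Site d → Ω → E N) (a : ℝ) (x : Site d) (s t : ℝ≥0) (n : ℕ) (ω : Ω) :
    rsum B (fun t x ω => a • H t x ω) x s t n ω = a • rsum B H x s t n ω := by
  unfold rsum
  rw [Finset.smul_sum]
  exact Finset.sum_congr rfl fun i _ => SdeA_mulv _ _ _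

theorem SdeA_lap {N d : ℕ} (f : Site d → E N) (a : ℝ) (x : Site d) :
    lap (fun y => a • f y) x = a • lap f x := by
  unfold lap
  rw [Finset.smul_sum]
  exact Finset.sum_congr rfl fun i _ => by rw [smul_add, smul_sub, smul_sub]

theorem SdeA_drf {N d : ℕ} {k ε β : ℝ} (hε : 0 < ε) (hβ : 0 < β) (f : Site d → E N)
    (x : Site d) : drf k 1 β (fun y => (ε ^ (1 / β)) • f y) x =
      (ε ^ (1 / β)) • drf k ε β f x := by
  unfold drf
  have h0 : (0 : ℝ) ≤ ε ^ (1 / β) := Real.rpow_nonneg hε.le _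
  have h1 : (ε ^ (1 / β)) ^ β = ε := by
    rw [← Real.rpow_mul hε.le, one_div_mul_cancel hβ.ne', Real.rpow_one]
  rw [SdeA_lap, norm_smul, Real.norm_eq_abs, abs_of_nonneg h0, Real.mul_rpow h0 (norm_nonneg _),
    h1, smul_sub, one_mul, smul_smul, smul_smul, smul_smul, smul_smul, mul_comm k, mul_comm
    (ε * ‖f x‖ ^ β)]

theorem SdeA_drf_shift {N d : ℕ} {k ε β : ℝ} (f : Site d → E N) (x c : Site d) :
    drf k ε β (fun y => f (y + c)) x = drf k ε β f (x + c) := by
  unfold drf lap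
  have h1 : ∀ v : Site d, x + v + c = x + c + v := fun v => add_right_comm _ _ _
  have h2 : ∀ v : Site d, x - v + c = x + c - v := fun v => by abel
  simp only [h1, h2]


theorem dynamo_scale {Ω : Type} [mΩ : MeasurableSpace Ω] {P : Measure Ω} {N d : ℕ} {k ε β : ℝ}
    {ℱ : Filtration ℝ≥0 mΩ} {B : Site d → Fin N → Fin N → ℝ≥0 → Ω → ℝ}
    {H : ℝ≥0 → Site d → Ω → E N} (hε : 0 < ε) (hβ : 0 < β) (hH : IsDynamo P k ε β ℱ B H) :
    IsDynamo P k 1 β ℱ B (fun t x ω => (ε ^ (1 / β)) • H t x ω) := by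
  obtain ⟨a, ha⟩ : ∃ a : ℝ, a = ε ^ (1 / β) := ⟨_, rfl⟩
  have hdrf := fun (f : Site d → E N) (x : Site d) => SdeA_drf (k := k) hε hβ f x
  rw [← ha] at hdrf ⊢
  refine ⟨hH.prob, hH.brownian, hH.indep, hH.adaptB, hH.indepInc, ?_, ?_, ?_, ?_⟩
  · exact fun t x => (hH.adapted t x).const_smul a
  · intro x
    filter_upwards [hH.cont x] with ω hω
    exact hω.const_smul a
  · intro p T
    obtain ⟨C, hC⟩ := hH.moments p T
    refine ⟨|a| ^ p * C, fun t ht x => ?_⟩
    obtain ⟨h1, h2⟩ := hC t ht x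
    have h3 : (fun ω => ‖a • H t x ω‖ ^ p) = fun ω => |a| ^ p * ‖H t x ω‖ ^ p := by
      funext ω
      rw [norm_smul, mul_pow, Real.norm_eq_abs]
    rw [h3]
    refine ⟨h1.const_mul _, ?_⟩
    rw [integral_const_mul]
    exact mul_le_mul_of_nonneg_left h2 (by positivity)
  · intro x s t hst
    have h1 := hH.ito x s t hst
    have h2 : ∀ n : ℕ, (fun ω => a • H t x ω - a • H s x ω
        - (∫ r in (s : ℝ)..t, drf k 1 β (fun y => a • H r.toNNReal y ω) x)
        - rsum B (fun t x ω => a • H t x ω) x s t n ω) =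
        a • (fun ω => H t x ω - H s x ω
        - (∫ r in (s : ℝ)..t, drf k ε β (fun y => H r.toNNReal y ω) x)
        - rsum B H x s t n ω) := by
      intro n
      funext ω
      simp only [hdrf, Pi.smul_apply]
      rw [SdeA_rsum, intervalIntegral.integral_smul, smul_sub, smul_sub, smul_sub]
    simp only [h2, eLpNorm_const_smul]
    have h3 := ENNReal.Tendsto.const_mul (a := ‖a‖ₑ) h1 (Or.inr enorm_ne_top)
    rwa [mul_zero] at h3

theorem dynamo_shift {Ω : Type} [mΩ : MeasurableSpace Ω] {P : Measure Ω} {N d : ℕ} {k ε β : ℝ}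
    {ℱ : Filtration ℝ≥0 mΩ} {B : Site d → Fin N → Fin N → ℝ≥0 → Ω → ℝ}
    {H : ℝ≥0 → Site d → Ω → E N} (hH : IsDynamo P k ε β ℱ B H) (c : Site d) :
    IsDynamo P k ε β ℱ (fun x => B (x + c)) (fun t x => H t (x + c)) := by
  refine ⟨hH.prob, fun x => hH.brownian (x + c), ?_, fun x => hH.adaptB (x + c), ?_,
    fun t x => hH.adapted t (x + c), fun x => hH.cont (x + c), ?_, ?_⟩
  · have hg : Function.Injective (fun q : Site d × Fin N × Fin N =>
        ((q.1 + c, q.2.1, q.2.2) : Site d × Fin N × Fin N)) := by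
      rintro ⟨x, i, j⟩ ⟨x', i', j'⟩ h
      simp only [Prod.mk.injEq, add_left_inj] at h
      obtain ⟨rfl, rfl, rfl⟩ := h
      rfl
    exact hH.indep.precomp hg
  · intro s t hst
    refine indep_of_indep_of_le_right (hH.indepInc s t hst) ?_
    obtain ⟨F, hF⟩ : ∃ F : Ω → (Site d × Fin N × Fin N → ℝ), F = fun ω q =>
      B q.1 q.2.1 q.2.2 t ω - B q.1 q.2.1 q.2.2 s ω := ⟨_, rfl⟩
    obtain ⟨r, hr⟩ : ∃ r : (Site d × Fin N × Fin N → ℝ) → (Site d × Fin N × Fin N → ℝ),
      r = fun f q => f (q.1 + c, q.2.1, q.2.2) := ⟨_, rfl⟩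
    have hrm : Measurable r := by
      rw [hr]
      exact measurable_pi_lambda _ fun q => measurable_pi_apply _
    have h1 : (fun (ω : Ω) (q : Site d × Fin N × Fin N) =>
        B (q.1 + c) q.2.1 q.2.2 t ω - B (q.1 + c) q.2.1 q.2.2 s ω) = r ∘ F := by
      rw [hr, hF]
      rfl
    rw [h1, ← hF, ← MeasurableSpace.comap_comp]
    exact MeasurableSpace.comap_mono hrm.comap_le
  · intro p T
    obtain ⟨C, hC⟩ := hH.moments p T
    exact ⟨C, fun t ht x => hC t ht (x + c)⟩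
  · intro x s t hst
    have h1 := hH.ito (x + c) s t hst
    have h2 : ∀ (r : ℝ≥0) (ω : Ω), drf k ε β (fun y => H r (y + c) ω) x =
        drf k ε β (fun y => H r y ω) (x + c) := fun r ω =>
      SdeA_drf_shift (fun y => H r y ω) x c
    simp only [h2]
    exact h1

theorem init_shift {Ω : Type} [MeasurableSpace Ω] {P : Measure Ω} {N d : ℕ}
    {H0 : Site d → Ω → E N} (hH : IsInit P H0) (c : Site d) : IsInit P (fun x => H0 (x + c)) := by
  refine ⟨hH.iid.precomp (add_left_injective c), fun x => (hH.ident (x + c)).trans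
    (hH.ident (0 + c)).symm, ?_⟩
  have h1 := (hH.ident (0 + c)).measure_mem_eq (measurableSet_singleton (0 : E N))
  have h2 : P {ω | H0 (0 + c) ω = 0} = P {ω | H0 0 ω = 0} := h1
  rw [h2]
  exact hH.ne

theorem init_scale {Ω : Type} [MeasurableSpace Ω] {P : Measure Ω} {N d : ℕ}
    {H0 : Site d → Ω → E N} (hH : IsInit P H0) (a : ℝ) (ha : a ≠ 0)
    (hm : ∀ x, Measurable (H0 x)) : IsInit P (fun x ω => a • H0 x ω) := by
  refine ⟨?_, ?_, ?_⟩
  · exact hH.iid.comp (fun _ v => a • v) (fun _ => measurable_const_smul a)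
  · exact fun x => (hH.ident x).comp (measurable_const_smul a)
  · have h1 : {ω | a • H0 0 ω = 0} = {ω | H0 0 ω = 0} := by
      ext ω
      simp [ha]
    rw [h1]
    exact hH.ne

end Dyn

end

/-! ### from `Lib_MP_36b788.LimInv` -/

section

/-!
# LIMINV: the limit law is invariant under space-time shifts

PROOF. `shift_meas`: measurability of the shift (coordinates). `char_inv`: char_ext. `∫ech I u d(μ.map shift) = ∫ech I u (shiftST s c f)dμ =
∫ech I' u' f dμ` with `I' = I.image (fun q => (q.1+s, q.2+c))`, `u' q = u (q.1-s, q.2-c)` (injective reindexing). By `h` for `S` it is the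
limit of `∫Xf' S.H I' u' t dP = ∫Xf' (fun t x => S.H t (x+c)) I u (t+s) dP` (`t+(q.1+s) = (t+s)+q.1`), and
`H^c = fun t x => S.H t (x + c)` is again a solution (dynamo_shift, init_shift) so by `h` for that solution and `t+s → ∞` the limit
is `∫ech I u dμ`. Uniqueness of limits.
-/

open MeasureTheory ProbabilityTheory Filter
open scoped NNReal ENNReal Topology

namespace Dyn

theorem shift_meas {N d : ℕ} (s : ℝ≥0) (c : Site d) : Measurable (shiftST (N := N) s c) := by
  unfold shiftST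
  exact measurable_pi_lambda _ fun q => measurable_pi_apply _

private theorem LimInv_ech {N d : ℕ} (I : Finset (ℝ≥0 × Site d)) (u : ℝ≥0 × Site d → E N)
    (s : ℝ≥0) (c : Site d) :
    ∃ (K : Finset (ℝ≥0 × Site d)) (w : ℝ≥0 × Site d → E N), ∀ f,
      ech I u (shiftST s c f) = ech K w f := by
  classical
  obtain ⟨φ, hφd⟩ : ∃ φ : ℝ≥0 × Site d → ℝ≥0 × Site d, φ = fun q => (q.1 + s, q.2 + c) := ⟨_, rfl⟩
  have hφ : Function.Injective φ := by
    rintro ⟨a, x⟩ ⟨b, y⟩ h
    rw [hφd] at h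
    simp only [Prod.mk.injEq, add_left_inj] at h
    obtain ⟨rfl, rfl⟩ := h
    rfl
  refine ⟨I.image φ, fun q => u (q.1 - s, q.2 - c), fun f => ?_⟩
  unfold ech
  congr 3
  rw [Finset.sum_image hφ.injOn]
  refine Finset.sum_congr rfl fun q _ => ?_
  rw [hφd]
  simp only [shiftST, add_tsub_cancel_right]

theorem char_inv {N d : ℕ} {k β : ℝ} (μ : Measure (ℝ≥0 × Site d → E N))
    [IsProbabilityMeasure μ] (S : Sol N d k 1 β)
    (h : ∀ (S : Sol N d k 1 β) I u, Tendsto (fun t : ℝ≥0 => ∫ ω, Xf' S.H I u t ω ∂S.P) atTop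
      (𝓝 (∫ f, ech I u f ∂μ))) (s : ℝ≥0) (c : Site d) :
    μ.map (shiftST s c) = μ := by
  have : IsProbabilityMeasure (μ.map (shiftST s c)) :=
    Measure.isProbabilityMeasure_map (shift_meas s c).aemeasurable
  refine char_ext _ _ fun I u => ?_
  rw [integral_map (shift_meas s c).aemeasurable (ech_meas I u).aestronglyMeasurable]
  obtain ⟨K, w, hw⟩ := LimInv_ech I u s c
  have h1 := h S K w
  have h2 := h ⟨S.Ω, S.mΩ, S.P, S.ℱ, fun x => S.B (x + c), fun t x => S.H t (x + c),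
    dynamo_shift S.dyn c, init_shift S.init c⟩ I u
  have h3 : Tendsto (fun t : ℝ≥0 => ∫ ω, Xf' (fun t x => S.H t (x + c)) I u (t + s) ω ∂S.P)
      atTop (𝓝 (∫ f, ech I u f ∂μ)) :=
    h2.comp (tendsto_atTop_mono (fun _ => le_self_add) tendsto_id)
  have h4 : ∀ (t : ℝ≥0) (ω : S.Ω), Xf' (fun t x => S.H t (x + c)) I u (t + s) ω =
      Xf' S.H K w t ω := by
    intro t ω
    rw [Xf'_eq, Xf'_eq, ← hw]
    congr 1
    funext q
    simp only [shiftST]
    rw [add_comm q.1 s, ← add_assoc]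
  simp only [h4] at h3
  have h5 := tendsto_nhds_unique h1 h3
  simp only [hw]
  exact h5

end Dyn

end

/-! ### from `Lib_MP_36b788.CharMix` -/

section

/-!
# CHARMIX: mixing in time at the level of exponentials

PROOF. `prod`: `ech I u f * ech J v (shiftST T 0 f) = ech K w f` for all `f`, with `J' = J.image (fun q => (q.1 + T, q.2))`, `K = I ∪ J'`,
`w q = (if q ∈ I then u q else 0) + (if q ∈ J' then v (q.1 - T, q.2) else 0)` (exponential of a sum; `q ↦ (q.1+T, q.2)` is injective).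
Let `τ = Σ_{q∈I} q.1` (so `q.1 ≤ τ` for `q ∈ I`), `δ > 0`, `T0` from `MixProp` with `S1 = S2 = S`, test functional `J, v`. Let
`T ≥ T0 + τ`. For every `t`: `Z = Xf' S.H I u t` is `ℱ(t+τ)`-measurable (`adapted`, `ℱ.mono`), `‖Z‖ = 1`; `MixProp` with `s1 = s2 = t+τ` and `T - τ`:
`‖∫Xf' I u t·Xf' J v (t+T) - ∫Xf' I u t·∫Xf' J v (t+T)‖ ≤ δ`. Let `t → ∞`, `T` fixed: the first integral is `∫ech K w (H_{t+·})` and
converges to `∫ech K w dμ`; the others converge to `∫ech I u dμ` and `∫ech J v dμ` (`t+T → ∞`). Closedness of `≤`: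
`‖∫ech I u f·ech J v(shift_T f)dμ - …‖ ≤ δ` for all `T ≥ T0+τ`.
-/

open MeasureTheory ProbabilityTheory Filter
open scoped NNReal ENNReal Topology

namespace Dyn

theorem ech_prod {N d : ℕ} (I J : Finset (ℝ≥0 × Site d)) (u v : ℝ≥0 × Site d → E N) (T : ℝ≥0) :
    ∃ (K : Finset (ℝ≥0 × Site d)) (w : ℝ≥0 × Site d → E N), ∀ f,
      ech I u f * ech J v (shiftST T 0 f) = ech K w f := by
  classical
  obtain ⟨φ, hφd⟩ : ∃ φ : ℝ≥0 × Site d → ℝ≥0 × Site d, φ = fun q => (q.1 + T, q.2) := ⟨_, rfl⟩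
  have hφ : Function.Injective φ := by
    rintro ⟨a, x⟩ ⟨b, y⟩ h
    rw [hφd] at h
    simp only [Prod.mk.injEq, add_left_inj] at h
    obtain ⟨rfl, rfl⟩ := h
    rfl
  refine ⟨I ∪ J.image φ, fun q => (if q ∈ I then u q else 0) +
    (if q ∈ J.image φ then v (q.1 - T, q.2) else 0), fun f => ?_⟩
  unfold ech
  rw [← Complex.exp_add, ← mul_add, ← Complex.ofReal_add]
  congr 3
  have h1 : ∀ q : ℝ≥0 × Site d, (inner ℝ ((if q ∈ I then u q else 0) +
      (if q ∈ J.image φ then v (q.1 - T, q.2) else 0)) (f q) : ℝ) =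
      (if q ∈ I then (inner ℝ (u q) (f q) : ℝ) else 0) +
      (if q ∈ J.image φ then (inner ℝ (v (q.1 - T, q.2)) (f q) : ℝ) else 0) := by
    intro q
    rw [inner_add_left]
    congr 1
    · split_ifs
      · rfl
      · exact inner_zero_left _
    · split_ifs
      · rfl
      · exact inner_zero_left _
  simp only [h1]
  rw [Finset.sum_add_distrib, Finset.sum_ite_mem, Finset.sum_ite_mem,
    Finset.union_inter_cancel_left, Finset.union_inter_cancel_right,
    Finset.sum_image hφ.injOn]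
  congr 1
  refine Finset.sum_congr rfl fun q _ => ?_
  rw [hφd]
  simp only [shiftST, add_tsub_cancel_right, add_zero]

private theorem CharMix_meas {Ω : Type} [MeasurableSpace Ω] {N d : ℕ}
    (H : ℝ≥0 → Site d → Ω → E N) (I : Finset (ℝ≥0 × Site d)) (u : ℝ≥0 × Site d → E N)
    (t : ℝ≥0) (hH : ∀ q ∈ I, Measurable (H (t + q.1) q.2)) : Measurable (Xf' H I u t) := by
  unfold Xf'
  refine Complex.measurable_exp.comp (Measurable.const_mul ?_ _)
  refine Complex.measurable_ofReal.comp (Finset.measurable_fun_sum _ fun q hq => ?_)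
  exact (measurable_const (a := u q)).inner (hH q hq)

theorem char_mix {N d : ℕ} {k β : ℝ} (hM : MixProp N d k β)
    (μ : Measure (ℝ≥0 × Site d → E N)) [IsProbabilityMeasure μ] (S : Sol N d k 1 β)
    (h : ∀ I u, Tendsto (fun t : ℝ≥0 => ∫ ω, Xf' S.H I u t ω ∂S.P) atTop
      (𝓝 (∫ f, ech I u f ∂μ)))
    (I : Finset (ℝ≥0 × Site d)) (u : ℝ≥0 × Site d → E N) (J : Finset (ℝ≥0 × Site d))
    (v : ℝ≥0 × Site d → E N) :
    Tendsto (fun T : ℝ≥0 => ∫ f, ech I u f * ech J v (shiftST T 0 f) ∂μ) atTop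
      (𝓝 ((∫ f, ech I u f ∂μ) * ∫ f, ech J v f ∂μ)) := by
  rw [Metric.tendsto_atTop]
  intro ε hε
  obtain ⟨T0, hT0⟩ := hM S S J v (ε / 2) (half_pos hε)
  obtain ⟨τ, hτ⟩ : ∃ τ : ℝ≥0, τ = ∑ q ∈ I, q.1 := ⟨_, rfl⟩
  refine ⟨T0 + τ, fun T hT => ?_⟩
  rw [dist_eq_norm]
  refine lt_of_le_of_lt ?_ (half_lt_self hε)
  obtain ⟨K, w, hw⟩ := ech_prod I J u v T
  simp only [hw]
  have hlim : Tendsto (fun t : ℝ≥0 => (∫ ω, Xf' S.H K w t ω ∂S.P) -
      (∫ ω, Xf' S.H I u t ω ∂S.P) * ∫ ω, Xf' S.H J v (t + T) ω ∂S.P) atTop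
      (𝓝 ((∫ f, ech K w f ∂μ) - (∫ f, ech I u f ∂μ) * ∫ f, ech J v f ∂μ)) :=
    (h K w).sub ((h I u).mul ((h J v).comp (tendsto_atTop_mono (fun _ => le_self_add) tendsto_id)))
  refine le_of_tendsto hlim.norm (Eventually.of_forall fun t => ?_)
  have hτT : τ ≤ T := le_trans (le_add_of_nonneg_left zero_le) hT
  have hm : Measurable[S.ℱ (t + τ)] (Xf' S.H I u t) := by
    refine @CharMix_meas S.Ω (S.ℱ (t + τ)) N d S.H I u t fun q hq => ?_
    have h1 : q.1 ≤ τ := by
      rw [hτ]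
      exact Finset.single_le_sum (f := fun q : ℝ≥0 × Site d => q.1)
        (fun q _ => zero_le) hq
    exact (S.dyn.adapted (t + q.1) q.2).mono (S.ℱ.mono (add_le_add_right h1 t)) le_rfl
  have hn : ∀ ω, ‖Xf' S.H I u t ω‖ ≤ 1 := by
    intro ω
    rw [Xf'_eq, ech_norm]
  have h1 := hT0 (T - τ) (le_tsub_of_add_le_right hT) (t + τ) (t + τ) (Xf' S.H I u t) hm hn
  have h2 : t + τ + (T - τ) = t + T := by rw [add_assoc, add_tsub_cancel_of_le hτT]
  rw [h2] at h1
  have h3 : ∀ ω, Xf' S.H K w t ω = Xf' S.H I u t ω * Xf' S.H J v (t + T) ω := by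
    intro ω
    rw [Xf'_eq, Xf'_eq, Xf'_eq, ← hw]
    congr 2
    funext q
    simp only [shiftST, add_zero]
    rw [add_comm q.1 T, ← add_assoc]
  simp only [h3]
  exact h1

end Dyn

end
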