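import Pool.Agent.Lib_MP_36b788_m.M02
import Pool.Agent.Lib_MP_36b788_m.M07
import Pool.Agent.Lib_MP_36b788_m.M22

/-!
# MP_36b788_pr, stationary limit: merged library part M23

Concatenation of smaller files (each in its own section), only to save build time.
-/

/-! ### from `Lib_MP_36b788.SdeR` -/

section

/-!
# SDER: time integrals of processes with continuous paths (no joint measurability needed)

PROOF. `ω` fixed with a continuous path `f(r) = Φ_r(ω)`: the left Riemann sums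
`S_n = Σ_{i<n} ((t-s)/n) f(s+i(t-s)/n)` converge to `∫_s^t f` (uniform continuity on `[s,t]`: split the integral at the points
`s+i(t-s)/n`, `intervalIntegral.sum_integral_adjacent_intervals`, each piece differs by at most `((t-s)/n)·ω_f(1/n)`).
`S_n(ω)` is a.e. strongly measurable, so the limit is. Minkowski: `‖S_n‖_2 ≤ (t-s)√C` (or Jensen:
`‖S_n‖² ≤ (t-s) Σ((t-s)/n)‖Φ_{t_i}‖²`), Fatou gives the bound for the limit. `MemLp` follows.
-/

open MeasureTheory ProbabilityTheory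
open scoped NNReal ENNReal Topology

namespace Dyn

theorem SdeR_piece {N : ℕ} (g : ℝ → E N) (hg : Continuous g) (a b : ℝ) (hab : a ≤ b)
    {ε δ0 : ℝ} (hd : ∀ x ∈ Set.Icc a b, ∀ y ∈ Set.Icc a b, dist x y < δ0 → dist (g x) (g y) < ε)
    (n : ℕ) (hn : 0 < n) (hδ : (b - a) / n < δ0) :
    ‖(∑ i ∈ Finset.range n, ((b - a) / n) • g (a + i * ((b - a) / n))) - ∫ r in a..b, g r‖ ≤
      ε * (b - a) := by
  have hn0 : (0 : ℝ) < n := by exact_mod_cast hn
  obtain ⟨δ, hδd⟩ : ∃ δ, δ = (b - a) / n := ⟨_, rfl⟩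
  have hδ0 : 0 ≤ δ := by rw [hδd]; exact div_nonneg (by linarith) hn0.le
  have hnδ : n * δ = b - a := by rw [hδd]; field_simp
  rw [← hδd] at hδ ⊢
  have h1 := intervalIntegral.sum_integral_adjacent_intervals (μ := volume) (f := g)
    (a := fun i : ℕ => a + i * δ) (n := n) (fun k _ => hg.intervalIntegrable _ _)
  have h2 : a + ((0 : ℕ) : ℝ) * δ = a := by push_cast; ring
  have h3 : a + (n : ℝ) * δ = b := by rw [hnδ]; ring
  simp only [h2, h3] at h1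
  rw [← h1, ← Finset.sum_sub_distrib]
  refine (norm_sum_le _ _).trans ?_
  have h4 : ∀ i ∈ Finset.range n, ‖δ • g (a + i * δ) -
      ∫ r in (a + i * δ)..(a + ((i + 1 : ℕ) : ℝ) * δ), g r‖ ≤ ε * δ := by
    intro i hi
    have hi' : (i : ℝ) + 1 ≤ n := by
      have := Finset.mem_range.1 hi
      exact_mod_cast this
    have hi0 : (0 : ℝ) ≤ i := Nat.cast_nonneg i
    have e1 : a + ((i + 1 : ℕ) : ℝ) * δ - (a + i * δ) = δ := by push_cast; ring
    have hle : a + i * δ ≤ a + ((i + 1 : ℕ) : ℝ) * δ := by linarith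
    have hiδ : 0 ≤ (i : ℝ) * δ := by positivity
    have htop : a + ((i + 1 : ℕ) : ℝ) * δ ≤ b := by
      have := mul_le_mul_of_nonneg_right hi' hδ0
      push_cast
      linarith
    have h5 : δ • g (a + i * δ) =
        ∫ _ in (a + i * δ)..(a + ((i + 1 : ℕ) : ℝ) * δ), g (a + i * δ) := by
      rw [intervalIntegral.integral_const, e1]
    rw [h5, ← intervalIntegral.integral_sub (intervalIntegrable_const) (hg.intervalIntegrable _ _)]
    have h6 := intervalIntegral.norm_integral_le_of_norm_le_const (a := a + i * δ)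
      (b := a + ((i + 1 : ℕ) : ℝ) * δ) (f := fun r => g (a + i * δ) - g r) (C := ε) (by
        intro r hr
        rw [Set.uIoc_of_le hle] at hr
        rw [← dist_eq_norm]
        refine (hd _ ⟨by linarith, by linarith⟩ _ ⟨by linarith [hr.1], by linarith [hr.2]⟩ ?_).le
        rw [Real.dist_eq, abs_sub_comm, abs_of_nonneg (by linarith [hr.1])]
        have := hr.2
        linarith)
    rw [e1, abs_of_nonneg hδ0] at h6
    exact h6
  refine (Finset.sum_le_sum h4).trans ?_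
  rw [Finset.sum_const, Finset.card_range, nsmul_eq_mul, ← hnδ]
  exact le_of_eq (by ring)

theorem SdeR_real {N : ℕ} (g : ℝ → E N) (hg : Continuous g) (a b : ℝ) (hab : a ≤ b) :
    Filter.Tendsto (fun n : ℕ => ∑ i ∈ Finset.range n,
      ((b - a) / n) • g (a + i * ((b - a) / n))) Filter.atTop (𝓝 (∫ r in a..b, g r)) := by
  rw [Metric.tendsto_atTop]
  intro ε hε
  have hU := (isCompact_Icc (a := a) (b := b)).uniformContinuousOn_of_continuous hg.continuousOn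
  rw [Metric.uniformContinuousOn_iff] at hU
  have hba : 0 ≤ b - a := by linarith
  obtain ⟨δ0, hδ0, hd⟩ := hU (ε / (b - a + 1)) (by positivity)
  obtain ⟨n0, hn0⟩ := exists_nat_gt ((b - a) / δ0)
  refine ⟨n0 + 1, fun n hn => ?_⟩
  have hnpos : 0 < n := by omega
  have hn1 : (0 : ℝ) < n := by exact_mod_cast hnpos
  have hn2 : (n0 : ℝ) ≤ n := by exact_mod_cast (by omega : n0 ≤ n)
  have h1 : (b - a) / n < δ0 := by
    rw [div_lt_iff₀ hn1]
    rw [div_lt_iff₀ hδ0] at hn0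
    nlinarith
  have h2 := SdeR_piece g hg a b hab hd n hnpos h1
  rw [dist_eq_norm]
  refine lt_of_le_of_lt h2 ?_
  rw [div_mul_eq_mul_div, div_lt_iff₀ (by linarith)]
  nlinarith

theorem SdeR_l2 {Ω : Type} [MeasurableSpace Ω] {P : Measure Ω} {N : ℕ} {f : Ω → E N}
    (hf : MemLp f 2 P) : eLpNorm f 2 P = ENNReal.ofReal (Real.sqrt (∫ ω, ‖f ω‖ ^ 2 ∂P)) := by
  rw [hf.eLpNorm_eq_integral_rpow_norm (by norm_num) (by norm_num)]
  congr 1
  have h2 : ((2 : ℝ≥0∞).toReal) = 2 := by norm_num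
  rw [h2, Real.sqrt_eq_rpow]
  congr 1
  · refine integral_congr_ae (Filter.Eventually.of_forall fun ω => ?_)
    show ‖f ω‖ ^ (2 : ℝ) = ‖f ω‖ ^ (2 : ℕ)
    rw [← Real.rpow_natCast]
    norm_num
  · norm_num

/-- left Riemann sums of a continuous function -/
theorem riemann_tendsto {N : ℕ} (f : ℝ≥0 → E N) (hf : Continuous f) (s t : ℝ≥0) (hst : s ≤ t) :
    Filter.Tendsto (fun n : ℕ => ∑ i ∈ Finset.range n,
      (((t - s) / n : ℝ≥0) : ℝ) • f (s + i * ((t - s) / n))) Filter.atTop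
      (𝓝 (∫ r in (s : ℝ)..t, f r.toNNReal)) := by
  have h1 := SdeR_real (fun r : ℝ => f r.toNNReal) (hf.comp continuous_real_toNNReal) s t
    (by exact_mod_cast hst)
  refine h1.congr fun n => ?_
  refine Finset.sum_congr rfl fun i _ => ?_
  have e1 : (((t - s) / n : ℝ≥0) : ℝ) = ((t : ℝ) - s) / n := by
    rw [NNReal.coe_div, NNReal.coe_sub hst, NNReal.coe_natCast]
  have e2 : ((s : ℝ) + i * (((t : ℝ) - s) / n)).toNNReal = s + i * ((t - s) / n) := by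
    have e3 : (s : ℝ) + i * (((t : ℝ) - s) / n) = ((s + i * ((t - s) / n) : ℝ≥0) : ℝ) := by
      rw [NNReal.coe_add, NNReal.coe_mul, e1, NNReal.coe_natCast]
    rw [e3, Real.toNNReal_coe]
  rw [e1, e2]

theorem tint_facts {Ω : Type} [MeasurableSpace Ω] {P : Measure Ω} [IsProbabilityMeasure P] {N : ℕ}
    (Φ : ℝ≥0 → Ω → E N) (s t : ℝ≥0) (hst : s ≤ t) (hm : ∀ r, AEStronglyMeasurable (Φ r) P)
    (hc : ∀ᵐ ω ∂P, Continuous (fun r => Φ r ω)) (C : ℝ) (hC0 : 0 ≤ C)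
    (hC : ∀ r, s ≤ r → r ≤ t → MemLp (Φ r) 2 P ∧ ∫ ω, ‖Φ r ω‖ ^ 2 ∂P ≤ C) :
    MemLp (fun ω => ∫ r in (s : ℝ)..t, Φ r.toNNReal ω) 2 P ∧
    ∫ ω, ‖∫ r in (s : ℝ)..t, Φ r.toNNReal ω‖ ^ 2 ∂P ≤ C * (t - s) ^ 2 := by
  obtain ⟨S, hS⟩ : ∃ S : ℕ → Ω → E N, S = fun n ω => ∑ i ∈ Finset.range n,
    (((t - s) / n : ℝ≥0) : ℝ) • Φ (s + i * ((t - s) / n)) ω := ⟨_, rfl⟩
  have hlim : ∀ᵐ ω ∂P, Filter.Tendsto (fun n => S n ω) Filter.atTop
      (𝓝 (∫ r in (s : ℝ)..t, Φ r.toNNReal ω)) := by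
    filter_upwards [hc] with ω hω
    rw [hS]
    exact riemann_tendsto (fun r => Φ r ω) hω s t hst
  have hSm : ∀ n, AEStronglyMeasurable (S n) P := by
    intro n
    rw [hS]
    refine Finset.aestronglyMeasurable_fun_sum _ fun i _ => ?_
    have h := (hm (s + i * ((t - s) / n))).const_smul (((t - s) / n : ℝ≥0) : ℝ)
    exact h
  have hIm : AEStronglyMeasurable (fun ω => ∫ r in (s : ℝ)..t, Φ r.toNNReal ω) P :=
    aestronglyMeasurable_of_tendsto_ae _ hSm hlim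
  have hst' : (s : ℝ) ≤ t := by exact_mod_cast hst
  have hbd : ∀ n, eLpNorm (S n) 2 P ≤ ENNReal.ofReal (((t : ℝ) - s) * Real.sqrt C) := by
    intro n
    rcases Nat.eq_zero_or_pos n with rfl | hn
    · have h0 : S 0 = 0 := by
        rw [hS]
        funext ω
        simp
      rw [h0, eLpNorm_zero]
      exact zero_le
    · have hn0 : (0 : ℝ≥0) < n := by exact_mod_cast hn
      have hSn : S n = ∑ i ∈ Finset.range n,
          (((t - s) / n : ℝ≥0) : ℝ) • Φ (s + i * ((t - s) / n)) := by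
        rw [hS]
        funext ω
        simp
      rw [hSn]
      refine (eLpNorm_sum_le (fun i _ => (hm _).const_smul _) (by norm_num)).trans ?_
      have h1 : ∀ i ∈ Finset.range n,
          eLpNorm ((((t - s) / n : ℝ≥0) : ℝ) • Φ (s + i * ((t - s) / n))) 2 P ≤
            ENNReal.ofReal ((((t : ℝ) - s) / n) * Real.sqrt C) := by
        intro i hi
        have hi' : (i : ℝ≥0) ≤ n := by
          have := (Finset.mem_range.1 hi).le
          exact_mod_cast this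
        have h2 : i * ((t - s) / n) ≤ t - s := by
          calc (i : ℝ≥0) * ((t - s) / n) ≤ n * ((t - s) / n) := by gcongr
            _ = t - s := mul_div_cancel₀ _ hn0.ne'
        have h3 : s + i * ((t - s) / n) ≤ t := by
          calc s + i * ((t - s) / n) ≤ s + (t - s) := by gcongr
            _ = t := add_tsub_cancel_of_le hst
        obtain ⟨h4, h5⟩ := hC (s + i * ((t - s) / n)) le_self_add h3
        rw [eLpNorm_const_smul, SdeR_l2 h4]
        have e1 : (((t - s) / n : ℝ≥0) : ℝ) = ((t : ℝ) - s) / n := by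
          rw [NNReal.coe_div, NNReal.coe_sub hst, NNReal.coe_natCast]
        have h6 : 0 ≤ ((t : ℝ) - s) / n := by
          rw [← e1]
          exact NNReal.coe_nonneg _
        rw [e1, Real.enorm_eq_ofReal h6, ← ENNReal.ofReal_mul h6]
        exact ENNReal.ofReal_le_ofReal (mul_le_mul_of_nonneg_left (Real.sqrt_le_sqrt h5) h6)
      refine (Finset.sum_le_sum h1).trans (le_of_eq ?_)
      rw [Finset.sum_const, Finset.card_range, nsmul_eq_mul]
      have h7 : (n : ℝ≥0∞) = ENNReal.ofReal n := (ENNReal.ofReal_natCast n).symm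
      rw [h7, ← ENNReal.ofReal_mul (Nat.cast_nonneg n)]
      congr 1
      have : (n : ℝ) ≠ 0 := by exact_mod_cast hn.ne'
      field_simp
  have hle : eLpNorm (fun ω => ∫ r in (s : ℝ)..t, Φ r.toNNReal ω) 2 P ≤
      ENNReal.ofReal (((t : ℝ) - s) * Real.sqrt C) := by
    refine (Lp.eLpNorm_lim_le_liminf_eLpNorm hSm _ hlim).trans ?_
    exact Filter.liminf_le_of_le (by isBoundedDefault) (fun b hb => by
      obtain ⟨n, hn⟩ := hb.exists
      exact hn.trans (hbd n))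
  have hmem : MemLp (fun ω => ∫ r in (s : ℝ)..t, Φ r.toNNReal ω) 2 P :=
    ⟨hIm, lt_of_le_of_lt hle ENNReal.ofReal_lt_top⟩
  refine ⟨hmem, ?_⟩
  rw [SdeR_l2 hmem] at hle
  have h0 : 0 ≤ ((t : ℝ) - s) * Real.sqrt C := mul_nonneg (by linarith) (Real.sqrt_nonneg C)
  have h1 := (ENNReal.ofReal_le_ofReal_iff h0).1 hle
  have h2 : 0 ≤ ∫ ω, ‖∫ r in (s : ℝ)..t, Φ r.toNNReal ω‖ ^ 2 ∂P :=
    integral_nonneg fun ω => sq_nonneg _
  rw [← Real.sq_sqrt h2]
  calc Real.sqrt (∫ ω, ‖∫ r in (s : ℝ)..t, Φ r.toNNReal ω‖ ^ 2 ∂P) ^ 2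
      ≤ (((t : ℝ) - s) * Real.sqrt C) ^ 2 := pow_le_pow_left₀ (Real.sqrt_nonneg _) h1 2
    _ = C * (t - s) ^ 2 := by rw [mul_pow, Real.sq_sqrt hC0]; ring

end Dyn

end

/-! ### from `Lib_MP_36b788b.SdeL2` -/

section

/-!
# SDEL2: L² continuity

PROOF. `drf_facts`: `drf` is a finite sum of `H` at neighbours and `b(H)`; moments (`moments` with `p = 2` and
`p = ⌈4β+2⌉₊`, b_L2 with `V = U`), continuity of `(u,…) ↦ drf` (`‖u‖^β` is continuous for `β > 0`), a.s. continuity for the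
`2d+1` sites involved. `l2cont`: let `D = ∫_s^t drf` (tint_facts: `∫‖D‖² ≤ C(t-s)²`), `R_n = rsum … n` (rsum_sq: `∫‖R_n‖² ≤ N(t-s)C`).
`ito`: `‖H_t-H_s-D-R_n‖_2 → 0`, so `‖H_t-H_s‖_2 ≤ ‖D‖_2 + √(N(t-s)C)`; `∫‖H_t-H_s‖² ≤ 2C(t-s)²+2NC(t-s) ≤ C'(t-s)` on `[0,T]`.
(`eLpNorm … 2 P` of an a.e. strongly measurable function is `(∫‖·‖²)^{1/2}`; all functions here are in L²: `memLp` lemmas.)
-/

open MeasureTheory ProbabilityTheory
open scoped NNReal ENNReal Topology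

namespace DynB

open Dyn

section
variable {Ω : Type} [mΩ : MeasurableSpace Ω] {P : Measure Ω} {N d : ℕ} {k β : ℝ}
    {ℱ : Filtration ℝ≥0 mΩ} {B : Site d → Fin N → Fin N → ℝ≥0 → Ω → ℝ}
    {H : ℝ≥0 → Site d → Ω → E N}

private lemma SdeL2_int_eq {f : Ω → E N} (hf : MemLp f 2 P) :
    ∫ ω, ‖f ω‖ ^ 2 ∂P = ((eLpNorm f 2 P).toReal) ^ 2 := by
  have h0 : 0 ≤ ∫ ω, ‖f ω‖ ^ 2 ∂P := integral_nonneg (fun ω => by positivity)
  have h1 := hf.eLpNorm_eq_integral_rpow_norm (by norm_num) (by norm_num)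
  have h2 : (2 : ℝ≥0∞).toReal = 2 := by norm_num
  rw [h2] at h1
  have h3 : ∫ ω, ‖f ω‖ ^ (2 : ℝ) ∂P = ∫ ω, ‖f ω‖ ^ 2 ∂P := by
    congr 1
    funext ω
    exact Real.rpow_two _
  rw [h3] at h1
  rw [h1, ENNReal.toReal_ofReal (Real.rpow_nonneg h0 _), ← Real.rpow_natCast, ← Real.rpow_mul h0]
  norm_num

private lemma SdeL2_meas (hH : IsDynamo P k 1 β ℱ B H) (t : ℝ≥0) (x : Site d) :
    Measurable (H t x) := (hH.adapted t x).mono (ℱ.le t) le_rfl

theorem H_L2 (hH : IsDynamo P k 1 β ℱ B H) (T : ℝ≥0) :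
    ∃ C : ℝ, 0 < C ∧ ∀ t ≤ T, ∀ x, MemLp (H t x) 2 P ∧ ∫ ω, ‖H t x ω‖ ^ 2 ∂P ≤ C := by
  have := hH.prob
  obtain ⟨C, hC⟩ := hH.moments 2 T
  refine ⟨max C 1, lt_of_lt_of_le one_pos (le_max_right _ _), ?_⟩
  intro t ht x
  obtain ⟨h1, h2⟩ := hC t ht x
  refine ⟨?_, h2.trans (le_max_left _ _)⟩
  exact (memLp_two_iff_integrable_sq_norm (SdeL2_meas hH t x).aestronglyMeasurable).2 h1

private lemma SdeL2_lap_sq (f : Site d → E N) (x : Site d) :
    ‖lap f x‖ ^ 2 ≤ 12 * d * ∑ i : Fin d, (‖f (x + Pi.single i 1)‖ ^ 2 +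
      ‖f (x - Pi.single i 1)‖ ^ 2 + ‖f x‖ ^ 2) := by
  have h1 : ‖lap f x‖ ≤ ∑ i : Fin d, (‖f (x + Pi.single i 1)‖ +
      ‖f (x - Pi.single i 1)‖ + 2 * ‖f x‖) := by
    unfold lap
    refine (norm_sum_le _ _).trans (Finset.sum_le_sum (fun i _ => ?_))
    have h2 := norm_add_le (f (x + Pi.single i 1) - f x) (f (x - Pi.single i 1) - f x)
    have h3 := norm_sub_le (f (x + Pi.single i 1)) (f x)
    have h4 := norm_sub_le (f (x - Pi.single i 1)) (f x)
    linarith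
  have h2 : ‖lap f x‖ ^ 2 ≤ (∑ i : Fin d, (‖f (x + Pi.single i 1)‖ +
      ‖f (x - Pi.single i 1)‖ + 2 * ‖f x‖)) ^ 2 := by
    gcongr
  have h3 := sq_sum_le_card_mul_sum_sq (s := (Finset.univ : Finset (Fin d)))
    (f := fun i => ‖f (x + Pi.single i 1)‖ + ‖f (x - Pi.single i 1)‖ + 2 * ‖f x‖)
  rw [Finset.card_univ, Fintype.card_fin] at h3
  refine (h2.trans h3).trans ?_
  have h4 : ∑ i : Fin d, (‖f (x + Pi.single i 1)‖ + ‖f (x - Pi.single i 1)‖ + 2 * ‖f x‖) ^ 2 ≤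
      ∑ i : Fin d, 12 * (‖f (x + Pi.single i 1)‖ ^ 2 + ‖f (x - Pi.single i 1)‖ ^ 2 + ‖f x‖ ^ 2) := by
    refine Finset.sum_le_sum (fun i _ => ?_)
    nlinarith [sq_nonneg (‖f (x + Pi.single i 1)‖ - ‖f (x - Pi.single i 1)‖),
      sq_nonneg (‖f (x + Pi.single i 1)‖ - 2 * ‖f x‖),
      sq_nonneg (‖f (x - Pi.single i 1)‖ - 2 * ‖f x‖), sq_nonneg ‖f (x + Pi.single i 1)‖,
      sq_nonneg ‖f (x - Pi.single i 1)‖]
  rw [← Finset.mul_sum] at h4
  calc (d : ℝ) * ∑ i : Fin d, (‖f (x + Pi.single i 1)‖ + ‖f (x - Pi.single i 1)‖ + 2 * ‖f x‖) ^ 2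
      ≤ (d : ℝ) * (12 * ∑ i : Fin d, (‖f (x + Pi.single i 1)‖ ^ 2 +
        ‖f (x - Pi.single i 1)‖ ^ 2 + ‖f x‖ ^ 2)) := by gcongr
    _ = _ := by ring

private lemma SdeL2_drf_sq (f : Site d → E N) (x : Site d) :
    ‖drf k 1 β f x‖ ^ 2 ≤ 24 * k ^ 2 * d * (∑ i : Fin d, (‖f (x + Pi.single i 1)‖ ^ 2 +
      ‖f (x - Pi.single i 1)‖ ^ 2 + ‖f x‖ ^ 2)) + 2 * ‖(‖f x‖ ^ β) • f x‖ ^ 2 := by
  have h1 : ‖drf k 1 β f x‖ ≤ |k| * ‖lap f x‖ + ‖(‖f x‖ ^ β) • f x‖ := by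
    unfold drf
    rw [one_mul]
    refine (norm_sub_le _ _).trans ?_
    rw [norm_smul k, Real.norm_eq_abs]
  have h2 : ‖drf k 1 β f x‖ ^ 2 ≤ (|k| * ‖lap f x‖ + ‖(‖f x‖ ^ β) • f x‖) ^ 2 := by gcongr
  have h3 : (|k| * ‖lap f x‖ + ‖(‖f x‖ ^ β) • f x‖) ^ 2 ≤
      2 * (k ^ 2 * ‖lap f x‖ ^ 2) + 2 * ‖(‖f x‖ ^ β) • f x‖ ^ 2 := by
    have : (|k| * ‖lap f x‖) ^ 2 = k ^ 2 * ‖lap f x‖ ^ 2 := by rw [mul_pow, sq_abs]
    rw [← this]
    nlinarith [sq_nonneg (|k| * ‖lap f x‖ - ‖(‖f x‖ ^ β) • f x‖)]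
  have h4 := mul_le_mul_of_nonneg_left (SdeL2_lap_sq f x) (sq_nonneg k)
  linarith

theorem drf_facts (hβ : 0 < β) (hH : IsDynamo P k 1 β ℱ B H) (T : ℝ≥0) :
    ∃ C : ℝ, 0 < C ∧ ∀ x,
      (∀ t, AEStronglyMeasurable (fun ω => drf k 1 β (fun y => H t y ω) x) P) ∧
      (∀ᵐ ω ∂P, Continuous (fun t => drf k 1 β (fun y => H t y ω) x)) ∧
      ∀ t ≤ T, MemLp (fun ω => drf k 1 β (fun y => H t y ω) x) 2 P ∧
        ∫ ω, ‖drf k 1 β (fun y => H t y ω) x‖ ^ 2 ∂P ≤ C := by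
  have := hH.prob
  obtain ⟨C1, hC1, hL⟩ := H_L2 hH T
  obtain ⟨M, hM⟩ := hH.moments ⌈4 * β + 2⌉₊ T
  obtain ⟨C2, hC2, hb⟩ := b_L2 N β hβ (max M 0) (le_max_right _ _)
  refine ⟨24 * k ^ 2 * d * (d * (C1 + C1 + C1)) + 2 * C2, by positivity, ?_⟩
  intro x
  refine ⟨?_, ?_, ?_⟩
  · intro t
    apply Measurable.aestronglyMeasurable
    unfold drf lap
    have hm : ∀ y, Measurable (H t y) := fun y => SdeL2_meas hH t y
    fun_prop
  · have hall : ∀ᵐ ω ∂P, ∀ y, Continuous (fun t => H t y ω) := ae_all_iff.2 hH.cont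
    filter_upwards [hall] with ω hω
    have hr : Continuous (fun t => ‖H t x ω‖ ^ β) :=
      (hω x).norm.rpow_const (fun _ => Or.inr (by linarith))
    unfold drf lap
    refine Continuous.sub (Continuous.const_smul (continuous_finsetSum _ (fun i _ => ?_)) k)
      ((continuous_const.mul hr).smul (hω x))
    exact ((hω _).sub (hω x)).add ((hω _).sub (hω x))
  · intro t ht
    have hU := hM t ht x
    have hMU := hU.2.trans (le_max_left M 0)
    obtain ⟨hb1, hb2, -⟩ := hb P (H t x) (H t x) (SdeL2_meas hH t x).aestronglyMeasurable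
      (SdeL2_meas hH t x).aestronglyMeasurable hU.1 hU.1 hMU hMU
    have hmem : MemLp (fun ω => drf k 1 β (fun y => H t y ω) x) 2 P := by
      have hl : MemLp (fun ω => lap (fun y => H t y ω) x) 2 P := by
        have hg : ∀ i ∈ (Finset.univ : Finset (Fin d)), MemLp (fun ω =>
            (H t (x + Pi.single i 1) ω - H t x ω) + (H t (x - Pi.single i 1) ω - H t x ω)) 2 P :=
          fun i _ => ((hL t ht _).1.sub (hL t ht x).1).add ((hL t ht _).1.sub (hL t ht x).1)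
        exact memLp_finsetSum Finset.univ hg
      have hk : MemLp (fun ω => k • lap (fun y => H t y ω) x) 2 P := hl.const_smul k
      have hs : MemLp (fun ω => k • lap (fun y => H t y ω) x - (‖H t x ω‖ ^ β) • H t x ω) 2 P :=
        hk.sub hb1
      have he : (fun ω => drf k 1 β (fun y => H t y ω) x) =
          fun ω => k • lap (fun y => H t y ω) x - (‖H t x ω‖ ^ β) • H t x ω := by
        funext ω
        unfold drf
        rw [one_mul]
      rw [he]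
      exact hs
    refine ⟨hmem, ?_⟩
    have hi : ∀ y, Integrable (fun ω => ‖H t y ω‖ ^ 2) P := fun y =>
      (hL t ht y).1.integrable_norm_pow (by norm_num)
    have hi3 : ∀ i : Fin d, Integrable (fun ω => ‖H t (x + Pi.single i 1) ω‖ ^ 2 +
        ‖H t (x - Pi.single i 1) ω‖ ^ 2 + ‖H t x ω‖ ^ 2) P := fun i => ((hi _).add (hi _)).add (hi x)
    have hbi : Integrable (fun ω => ‖(‖H t x ω‖ ^ β) • H t x ω‖ ^ 2) P :=
      hb1.integrable_norm_pow (by norm_num)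
    have hdi : Integrable (fun ω => ‖drf k 1 β (fun y => H t y ω) x‖ ^ 2) P :=
      hmem.integrable_norm_pow (by norm_num)
    have he3 : ∀ i : Fin d, ∫ ω, (‖H t (x + Pi.single i 1) ω‖ ^ 2 +
        ‖H t (x - Pi.single i 1) ω‖ ^ 2 + ‖H t x ω‖ ^ 2) ∂P =
        ∫ ω, ‖H t (x + Pi.single i 1) ω‖ ^ 2 ∂P + ∫ ω, ‖H t (x - Pi.single i 1) ω‖ ^ 2 ∂P +
          ∫ ω, ‖H t x ω‖ ^ 2 ∂P := by
      intro i
      have a1 := integral_add ((hi (x + Pi.single i 1)).add (hi (x - Pi.single i 1))) (hi x)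
      have a2 := integral_add (hi (x + Pi.single i 1)) (hi (x - Pi.single i 1))
      simp only [Pi.add_apply] at a1 a2
      rw [a1, a2]
    calc ∫ ω, ‖drf k 1 β (fun y => H t y ω) x‖ ^ 2 ∂P
        ≤ ∫ ω, (24 * k ^ 2 * d * (∑ i : Fin d, (‖H t (x + Pi.single i 1) ω‖ ^ 2 +
          ‖H t (x - Pi.single i 1) ω‖ ^ 2 + ‖H t x ω‖ ^ 2)) +
          2 * ‖(‖H t x ω‖ ^ β) • H t x ω‖ ^ 2) ∂P := by
          refine integral_mono hdi ?_ (fun ω => SdeL2_drf_sq (fun y => H t y ω) x)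
          exact ((integrable_finsetSum _ (fun i _ => hi3 i)).const_mul _).add (hbi.const_mul _)
      _ = 24 * k ^ 2 * d * (∑ i : Fin d, (∫ ω, ‖H t (x + Pi.single i 1) ω‖ ^ 2 ∂P +
          ∫ ω, ‖H t (x - Pi.single i 1) ω‖ ^ 2 ∂P + ∫ ω, ‖H t x ω‖ ^ 2 ∂P)) +
          2 * ∫ ω, ‖(‖H t x ω‖ ^ β) • H t x ω‖ ^ 2 ∂P := by
          rw [integral_add ((integrable_finsetSum _ (fun i _ => hi3 i)).const_mul _)
            (hbi.const_mul _), integral_const_mul, integral_const_mul,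
            integral_finsetSum _ (fun i _ => hi3 i), Finset.sum_congr rfl (fun i _ => he3 i)]
      _ ≤ 24 * k ^ 2 * d * (∑ _i : Fin d, (C1 + C1 + C1)) + 2 * C2 := by
          gcongr
          · exact (hL t ht _).2
          · exact (hL t ht _).2
          · exact (hL t ht _).2
      _ = 24 * k ^ 2 * d * (d * (C1 + C1 + C1)) + 2 * C2 := by
          rw [Finset.sum_const, Finset.card_univ, Fintype.card_fin, nsmul_eq_mul]

theorem l2cont (hβ : 0 < β) (hH : IsDynamo P k 1 β ℱ B H) (T : ℝ≥0) :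
    ∃ C : ℝ, 0 < C ∧ ∀ s t : ℝ≥0, s ≤ t → t ≤ T → ∀ x,
      ∫ ω, ‖H t x ω - H s x ω‖ ^ 2 ∂P ≤ C * (t - s) := by
  have := hH.prob
  obtain ⟨C1, hC1, hL⟩ := H_L2 hH T
  obtain ⟨C2, hC2, hD⟩ := drf_facts hβ hH T
  refine ⟨3 * C2 * T + 3 * (N * C1) + 1, by positivity, ?_⟩
  intro s t hst htT x
  have hsT : s ≤ T := hst.trans htT
  have hstR : (0 : ℝ) ≤ (t : ℝ) - s := sub_nonneg.2 (NNReal.coe_le_coe.2 hst)
  obtain ⟨hD1, hD2, hD3⟩ := hD x
  obtain ⟨hDm, hDb⟩ := tint_facts (P := P) (fun r ω => drf k 1 β (fun y => H r y ω) x) s t hst hD1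
    hD2 C2 hC2.le (fun r _ hr => hD3 r (hr.trans htT))
  have hR := fun n => rsum_sq hH H x s t hst C1
    (fun r _ hr => ⟨hH.adapted r x, hL r (hr.trans htT) x⟩) n
  have hA : MemLp (fun ω => H t x ω - H s x ω) 2 P := (hL t htT x).1.sub (hL s hsT x).1
  set D : Ω → E N := fun ω => ∫ r in (s : ℝ)..t, drf k 1 β (fun y => H r.toNNReal y ω) x with hDdef
  have hF : ∀ n, MemLp (fun ω => H t x ω - H s x ω - D ω - rsum B H x s t n ω) 2 P :=
    fun n => (hA.sub hDm).sub (hR n).1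
  have hlim : Filter.Tendsto (fun n : ℕ =>
      3 * ∫ ω, ‖H t x ω - H s x ω - D ω - rsum B H x s t n ω‖ ^ 2 ∂P) Filter.atTop (𝓝 (3 * 0 ^ 2)) := by
    refine Filter.Tendsto.const_mul 3 ?_
    have h1 : ∀ n, ∫ ω, ‖H t x ω - H s x ω - D ω - rsum B H x s t n ω‖ ^ 2 ∂P =
        ((eLpNorm (fun ω => H t x ω - H s x ω - D ω - rsum B H x s t n ω) 2 P).toReal) ^ 2 :=
      fun n => SdeL2_int_eq (hF n)
    simp only [h1]
    refine Filter.Tendsto.pow ?_ 2
    have h2 := hH.ito x s t hst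
    have h3 := (ENNReal.tendsto_toReal (ENNReal.zero_ne_top)).comp h2
    rw [ENNReal.toReal_zero] at h3
    exact h3
  have hAi : Integrable (fun ω => ‖H t x ω - H s x ω‖ ^ 2) P := hA.integrable_norm_pow (by norm_num)
  have hDi : Integrable (fun ω => ‖D ω‖ ^ 2) P := hDm.integrable_norm_pow (by norm_num)
  have key : ∀ n, ∫ ω, ‖H t x ω - H s x ω‖ ^ 2 ∂P
      - (3 * (C2 * (t - s) ^ 2) + 3 * (N * (t - s) * C1)) ≤
      3 * ∫ ω, ‖H t x ω - H s x ω - D ω - rsum B H x s t n ω‖ ^ 2 ∂P := by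
    intro n
    have hFi : Integrable (fun ω => ‖H t x ω - H s x ω - D ω - rsum B H x s t n ω‖ ^ 2) P :=
      (hF n).integrable_norm_pow (by norm_num)
    have hRi : Integrable (fun ω => ‖rsum B H x s t n ω‖ ^ 2) P :=
      (hR n).1.integrable_norm_pow (by norm_num)
    have h1 : ∫ ω, ‖H t x ω - H s x ω‖ ^ 2 ∂P ≤
        ∫ ω, (3 * ‖H t x ω - H s x ω - D ω - rsum B H x s t n ω‖ ^ 2 + 3 * ‖D ω‖ ^ 2 +
          3 * ‖rsum B H x s t n ω‖ ^ 2) ∂P := by
      refine integral_mono hAi (((hFi.const_mul 3).add (hDi.const_mul 3)).add (hRi.const_mul 3))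
        (fun ω => ?_)
      have h2 : ‖H t x ω - H s x ω‖ ≤ ‖H t x ω - H s x ω - D ω - rsum B H x s t n ω‖ + ‖D ω‖ +
          ‖rsum B H x s t n ω‖ := by
        have e : H t x ω - H s x ω = (H t x ω - H s x ω - D ω - rsum B H x s t n ω) + D ω +
          rsum B H x s t n ω := by abel
        calc ‖H t x ω - H s x ω‖ = ‖(H t x ω - H s x ω - D ω - rsum B H x s t n ω) + D ω +
            rsum B H x s t n ω‖ := by rw [← e]
          _ ≤ _ := norm_add₃_le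
      have h3 : ‖H t x ω - H s x ω‖ ^ 2 ≤ (‖H t x ω - H s x ω - D ω - rsum B H x s t n ω‖ + ‖D ω‖ +
          ‖rsum B H x s t n ω‖) ^ 2 := by gcongr
      refine h3.trans ?_
      nlinarith [sq_nonneg (‖H t x ω - H s x ω - D ω - rsum B H x s t n ω‖ - ‖D ω‖),
        sq_nonneg (‖H t x ω - H s x ω - D ω - rsum B H x s t n ω‖ - ‖rsum B H x s t n ω‖),
        sq_nonneg (‖D ω‖ - ‖rsum B H x s t n ω‖)]
    have e1 : ∫ ω, (3 * ‖H t x ω - H s x ω - D ω - rsum B H x s t n ω‖ ^ 2 + 3 * ‖D ω‖ ^ 2 +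
          3 * ‖rsum B H x s t n ω‖ ^ 2) ∂P =
        3 * ∫ ω, ‖H t x ω - H s x ω - D ω - rsum B H x s t n ω‖ ^ 2 ∂P + 3 * ∫ ω, ‖D ω‖ ^ 2 ∂P +
          3 * ∫ ω, ‖rsum B H x s t n ω‖ ^ 2 ∂P := by
      have a1 := integral_add ((hFi.const_mul 3).add (hDi.const_mul 3)) (hRi.const_mul 3)
      have a2 := integral_add (hFi.const_mul 3) (hDi.const_mul 3)
      simp only [Pi.add_apply, integral_const_mul] at a1 a2
      rw [a1, a2]
    rw [e1] at h1
    have h4 := (hR n).2.1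
    linarith
  have hfin := ge_of_tendsto' hlim key
  have hT : (t : ℝ) - s ≤ T := by
    have h1 : (t : ℝ) ≤ T := NNReal.coe_le_coe.2 htT
    have h2 : (0 : ℝ) ≤ s := s.2
    linarith
  have h5 : C2 * ((t : ℝ) - s) ^ 2 ≤ C2 * T * ((t : ℝ) - s) := by
    calc C2 * ((t : ℝ) - s) ^ 2 = C2 * (((t : ℝ) - s) * ((t : ℝ) - s)) := by ring
      _ ≤ C2 * (T * ((t : ℝ) - s)) := by gcongr
      _ = _ := by ring
  nlinarith

end

end DynB

end

/-! ### from `Lib_MP_36b788b.SdeLE` -/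

section

/-!
# SDELE: local error of the implicit step

PROOF. `0 ≤ s`, `t = s+h ≤ T`, `b(u) = ‖u‖^βu`, `U = H_t - kh lap H_s`. Put `D = ∫_s^t drf`,
`ρM := H_t - H_s - D - mulv(B_t-B_s)H_s`. By `ito` and rsum_sub, `ρM` is the L²-limit of `rsum B V x s t n` with
`V_r = H_r - H_s`; rsum_sq (`C := C_1 h` from l2cont): `∫‖ρM‖² ≤ N h·C_1h`, and `∫⟪Z,ρM⟫ = 0`.
`H_t = H_s + mulv(ΔB)H_s + ρM + kh lap H_s - h b(H_t) + ρ₁`, `ρ₁ = ∫_s^t(drf(H_r) - [k lap H_s - b(H_t)])dr`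
`= ∫_s^t (k(lap H_r - lap H_s) - (b(H_r)-b(H_t)))dr`. tint_facts with the integrand (continuous paths) and
`∫‖lap H_r - lap H_s‖² ≤ C h`, `∫‖b(H_r)-b(H_t)‖² ≤ C√(C_1h)` (b_L2, l2cont): `∫‖ρ₁‖² ≤ C h²·√h`.
So `U + h b(U) = H_s + mulv(ΔB)H_s + ρM + ρD`, `ρD = ρ₁ + h(b(U)-b(H_t))`, and `∫‖b(U)-b(H_t)‖² ≤ C√(∫‖kh lap H_s‖²) ≤ C h`
(b_L2 with the moments of `U`: `‖U‖^p ≤ 2^p(‖H_t‖^p+‖kh lap H_s‖^p)`, `h ≤ 1`). Total `∫‖ρD‖² ≤ C h²√h ≤ δh²` for `h ≤ h0`.
Finally `J_unique`: `J β h (U + (h‖U‖^β)•U) = U`.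
-/

open MeasureTheory ProbabilityTheory
open scoped NNReal ENNReal Topology

namespace DynB

open Dyn

private lemma SdeLE_le_root {S a : ℝ} {p : ℕ} (hp : 1 ≤ p) (ha : 0 ≤ a) (h : a ^ p ≤ S) :
    a ≤ S ^ ((p : ℝ)⁻¹) := by
  have h1 : (a ^ p) ^ ((p : ℝ)⁻¹) = a := Real.pow_rpow_inv_natCast ha (by omega)
  rw [← h1]
  exact Real.rpow_le_rpow (by positivity) h (by positivity)

private lemma SdeLE_abs_pow {d p : ℕ} (hp : 1 ≤ p) (c : ℝ) (a b : Fin d → ℝ) (hc : 0 ≤ c)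
    (ha : ∀ i, 0 ≤ a i) (hb : ∀ i, 0 ≤ b i) (L : ℝ) (hL0 : 0 ≤ L)
    (hL : L ≤ ∑ i : Fin d, (a i + c + (b i + c))) :
    L ^ p ≤ (4 * d : ℝ) ^ p * (c ^ p + ∑ i : Fin d, (a i ^ p + b i ^ p)) := by
  have hsum0 : 0 ≤ ∑ i : Fin d, (a i ^ p + b i ^ p) :=
    Finset.sum_nonneg fun i _ => add_nonneg (pow_nonneg (ha i) p) (pow_nonneg (hb i) p)
  have hcp : 0 ≤ c ^ p := pow_nonneg hc p
  obtain ⟨S, hS⟩ : ∃ S, S = c ^ p + ∑ i : Fin d, (a i ^ p + b i ^ p) := ⟨_, rfl⟩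
  have hS0 : 0 ≤ S := by rw [hS]; exact add_nonneg hcp hsum0
  obtain ⟨M, hM⟩ : ∃ M, M = S ^ ((p : ℝ)⁻¹) := ⟨_, rfl⟩
  have hM0 : 0 ≤ M := by rw [hM]; exact Real.rpow_nonneg hS0 _
  have hMp : M ^ p = S := by rw [hM]; exact Real.rpow_inv_natCast_pow hS0 (by omega)
  have hx : c ≤ M := by
    rw [hM]; exact SdeLE_le_root hp hc (by rw [hS]; linarith)
  have hterm : ∀ i : Fin d, a i ^ p + b i ^ p ≤ S := by
    intro i
    have h1 : a i ^ p + b i ^ p ≤ ∑ i : Fin d, (a i ^ p + b i ^ p) :=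
      Finset.single_le_sum (f := fun i : Fin d => a i ^ p + b i ^ p)
      (fun j _ => add_nonneg (pow_nonneg (ha j) p) (pow_nonneg (hb j) p)) (Finset.mem_univ i)
    rw [hS]
    linarith
  have hp1 : ∀ i : Fin d, a i ≤ M := by
    intro i
    rw [hM]
    refine SdeLE_le_root hp (ha i) ?_
    have h1 := hterm i
    have h0 : 0 ≤ b i ^ p := pow_nonneg (hb i) p
    linarith
  have hm1 : ∀ i : Fin d, b i ≤ M := by
    intro i
    rw [hM]
    refine SdeLE_le_root hp (hb i) ?_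
    have h1 := hterm i
    have h0 : 0 ≤ a i ^ p := pow_nonneg (ha i) p
    linarith
  have hlap : L ≤ 4 * d * M := by
    refine hL.trans ?_
    have h1 : ∀ i ∈ (Finset.univ : Finset (Fin d)), a i + c + (b i + c) ≤ 4 * M := by
      intro i _
      have h3 := hp1 i
      have h4 := hm1 i
      linarith
    refine (Finset.sum_le_sum h1).trans ?_
    rw [Finset.sum_const, Finset.card_univ, Fintype.card_fin, nsmul_eq_mul]
    linarith
  calc L ^ p ≤ (4 * d * M) ^ p := pow_le_pow_left₀ hL0 hlap p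
    _ = (4 * d : ℝ) ^ p * S := by rw [mul_pow, hMp]
    _ = _ := by rw [hS]

private lemma SdeLE_lap_pow {N d : ℕ} (f : Site d → E N) (x : Site d) {p : ℕ} (hp : 1 ≤ p) :
    ‖lap f x‖ ^ p ≤ (4 * d : ℝ) ^ p * (‖f x‖ ^ p + ∑ i : Fin d,
      (‖f (x + Pi.single i 1)‖ ^ p + ‖f (x - Pi.single i 1)‖ ^ p)) := by
  refine SdeLE_abs_pow hp ‖f x‖ (fun i => ‖f (x + Pi.single i 1)‖)
    (fun i => ‖f (x - Pi.single i 1)‖) (norm_nonneg _) (fun i => norm_nonneg _)
    (fun i => norm_nonneg _) _ (norm_nonneg _) ?_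
  unfold lap
  refine (norm_sum_le _ _).trans ?_
  refine Finset.sum_le_sum fun i _ => ?_
  refine (norm_add_le _ _).trans ?_
  exact add_le_add (norm_sub_le _ _) (norm_sub_le _ _)

private lemma SdeLE_lap_sub {N d : ℕ} (f g : Site d → E N) (x : Site d) :
    lap (fun y => f y - g y) x = lap f x - lap g x := by
  unfold lap
  rw [← Finset.sum_sub_distrib]
  refine Finset.sum_congr rfl fun i _ => ?_
  beta_reduce
  generalize f (x + Pi.single i 1) = a1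
  generalize g (x + Pi.single i 1) = a2
  generalize f (x - Pi.single i 1) = a3
  generalize g (x - Pi.single i 1) = a4
  abel

private lemma SdeLE_lap_meas {Ω : Type} [MeasurableSpace Ω] {P : Measure Ω} {N d : ℕ}
    (F : Site d → Ω → E N) (x : Site d) (hm : ∀ y, AEStronglyMeasurable (F y) P) :
    AEStronglyMeasurable (fun ω => lap (fun y => F y ω) x) P := by
  unfold lap
  refine Finset.aestronglyMeasurable_fun_sum _ fun i _ => ?_
  exact ((hm _).sub (hm _)).add ((hm _).sub (hm _))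

private lemma SdeLE_lap_int {Ω : Type} [MeasurableSpace Ω] {P : Measure Ω} {N d : ℕ}
    (F : Site d → Ω → E N) (x : Site d) {p : ℕ} (hp : 1 ≤ p) (C : ℝ)
    (hm : ∀ y, AEStronglyMeasurable (F y) P) (hi : ∀ y, Integrable (fun ω => ‖F y ω‖ ^ p) P)
    (hC : ∀ y, ∫ ω, ‖F y ω‖ ^ p ∂P ≤ C) :
    Integrable (fun ω => ‖lap (fun y => F y ω) x‖ ^ p) P ∧
    ∫ ω, ‖lap (fun y => F y ω) x‖ ^ p ∂P ≤ (4 * d : ℝ) ^ p * ((1 + 2 * d) * C) := by
  have hdom : Integrable (fun ω => (4 * d : ℝ) ^ p * (‖F x ω‖ ^ p + ∑ i : Fin d,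
      (‖F (x + Pi.single i 1) ω‖ ^ p + ‖F (x - Pi.single i 1) ω‖ ^ p))) P := by
    refine Integrable.const_mul ?_ _
    refine (hi x).add ?_
    refine integrable_finsetSum _ fun i _ => ?_
    exact (hi _).add (hi _)
  have hb : ∀ ω, ‖lap (fun y => F y ω) x‖ ^ p ≤ (4 * d : ℝ) ^ p * (‖F x ω‖ ^ p + ∑ i : Fin d,
      (‖F (x + Pi.single i 1) ω‖ ^ p + ‖F (x - Pi.single i 1) ω‖ ^ p)) := fun ω =>
    SdeLE_lap_pow (fun y => F y ω) x hp
  have hint : Integrable (fun ω => ‖lap (fun y => F y ω) x‖ ^ p) P := by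
    refine hdom.mono' ((SdeLE_lap_meas F x hm).norm.pow p) (Filter.Eventually.of_forall fun ω => ?_)
    rw [Real.norm_eq_abs, abs_of_nonneg (by positivity)]
    exact hb ω
  refine ⟨hint, ?_⟩
  refine (integral_mono hint hdom hb).trans ?_
  rw [integral_const_mul]
  refine mul_le_mul_of_nonneg_left ?_ (by positivity)
  have hi2 : ∀ i ∈ (Finset.univ : Finset (Fin d)), Integrable (fun ω =>
      (‖F (x + Pi.single i 1) ω‖ ^ p + ‖F (x - Pi.single i 1) ω‖ ^ p)) P :=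
    fun i _ => (hi _).add (hi _)
  rw [integral_add (hi x) (integrable_finsetSum _ hi2), integral_finsetSum _ hi2]
  have h1 : ∑ i : Fin d, ∫ ω, (‖F (x + Pi.single i 1) ω‖ ^ p + ‖F (x - Pi.single i 1) ω‖ ^ p) ∂P
      ≤ ∑ _i : Fin d, (2 * C) := by
    refine Finset.sum_le_sum fun i _ => ?_
    rw [integral_add (hi _) (hi _)]
    have := hC (x + Pi.single i 1)
    have := hC (x - Pi.single i 1)
    linarith
  rw [Finset.sum_const, Finset.card_univ, Fintype.card_fin, nsmul_eq_mul] at h1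
  have := hC x
  nlinarith [h1]

private lemma SdeLE_sq {Ω : Type} [MeasurableSpace Ω] {P : Measure Ω} {N : ℕ} {f : Ω → E N}
    (hf : MemLp f 2 P) : ∫ ω, ‖f ω‖ ^ 2 ∂P = (eLpNorm f 2 P).toReal ^ 2 := by
  have h0 : 0 ≤ ∫ ω, ‖f ω‖ ^ 2 ∂P := integral_nonneg fun ω => by positivity
  rw [hf.eLpNorm_eq_integral_rpow_norm two_ne_zero ENNReal.ofNat_ne_top]
  have e : ∀ ω, ‖f ω‖ ^ (2 : ℝ≥0∞).toReal = ‖f ω‖ ^ 2 := by
    intro ω
    rw [ENNReal.toReal_ofNat]
    exact Real.rpow_two _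
  simp only [e]
  rw [ENNReal.toReal_ofReal (by positivity), ENNReal.toReal_ofNat]
  rw [← Real.rpow_natCast, ← Real.rpow_mul h0]
  norm_num

private lemma SdeLE_int_sq {Ω : Type} [MeasurableSpace Ω] {P : Measure Ω} {N : ℕ} {f : Ω → E N}
    (hf : MemLp f 2 P) : Integrable (fun ω => ‖f ω‖ ^ 2) P := hf.integrable_norm_pow (by norm_num)

private lemma SdeLE_add_sq {Ω : Type} [MeasurableSpace Ω] {P : Measure Ω} {N : ℕ} {f g : Ω → E N}
    (hf : MemLp f 2 P) (hg : MemLp g 2 P) :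
    ∫ ω, ‖f ω + g ω‖ ^ 2 ∂P ≤ 2 * ∫ ω, ‖f ω‖ ^ 2 ∂P + 2 * ∫ ω, ‖g ω‖ ^ 2 ∂P := by
  rw [← integral_const_mul, ← integral_const_mul, ← integral_add
    ((SdeLE_int_sq hf).const_mul 2) ((SdeLE_int_sq hg).const_mul 2)]
  refine integral_mono (SdeLE_int_sq (hf.add hg)) (((SdeLE_int_sq hf).const_mul 2).add
    ((SdeLE_int_sq hg).const_mul 2)) fun ω => ?_
  have h := norm_add_le (f ω) (g ω)
  have h0 := norm_nonneg (f ω + g ω)
  nlinarith [sq_nonneg (‖f ω‖ - ‖g ω‖), norm_nonneg (f ω), norm_nonneg (g ω)]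

private lemma SdeLE_sub_sq {Ω : Type} [MeasurableSpace Ω] {P : Measure Ω} {N : ℕ} {f g : Ω → E N}
    (hf : MemLp f 2 P) (hg : MemLp g 2 P) :
    ∫ ω, ‖f ω - g ω‖ ^ 2 ∂P ≤ 2 * ∫ ω, ‖f ω‖ ^ 2 ∂P + 2 * ∫ ω, ‖g ω‖ ^ 2 ∂P := by
  have := SdeLE_add_sq hf hg.neg
  simp only [Pi.neg_apply, norm_neg] at this
  simpa only [sub_eq_add_neg] using this

private lemma SdeLE_inner {Ω : Type} [MeasurableSpace Ω] {P : Measure Ω} {N : ℕ} {f g : Ω → E N}
    (hf : MemLp f 2 P) (hg : MemLp g 2 P) :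
    Integrable (fun ω => (inner ℝ (f ω) (g ω) : ℝ)) P ∧ ∀ a : ℝ, 0 < a →
    |∫ ω, (inner ℝ (f ω) (g ω) : ℝ) ∂P| ≤ a * ∫ ω, ‖f ω‖ ^ 2 ∂P + a⁻¹ * ∫ ω, ‖g ω‖ ^ 2 ∂P := by
  have hb : ∀ a : ℝ, 0 < a → ∀ ω, |(inner ℝ (f ω) (g ω) : ℝ)| ≤ a * ‖f ω‖ ^ 2 + a⁻¹ * ‖g ω‖ ^ 2 := by
    intro a ha ω
    have h := abs_real_inner_le_norm (f ω) (g ω)
    refine h.trans ?_
    have h1 : 0 ≤ a * (‖f ω‖ - a⁻¹ * ‖g ω‖) ^ 2 := by positivity
    have h2 : a * (‖f ω‖ - a⁻¹ * ‖g ω‖) ^ 2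
        = a * ‖f ω‖ ^ 2 - 2 * (‖f ω‖ * ‖g ω‖) + a⁻¹ * ‖g ω‖ ^ 2 := by
      field_simp
      ring
    have h3 : 0 ≤ ‖f ω‖ * ‖g ω‖ := by positivity
    linarith
  have hdi : ∀ a : ℝ, Integrable (fun ω => a * ‖f ω‖ ^ 2 + a⁻¹ * ‖g ω‖ ^ 2) P := fun a =>
    ((SdeLE_int_sq hf).const_mul a).add ((SdeLE_int_sq hg).const_mul a⁻¹)
  have hi : Integrable (fun ω => (inner ℝ (f ω) (g ω) : ℝ)) P := by
    refine (hdi 1).mono' (hf.1.inner hg.1) (Filter.Eventually.of_forall fun ω => ?_)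
    exact hb 1 one_pos ω
  refine ⟨hi, fun a ha => ?_⟩
  rw [← integral_const_mul, ← integral_const_mul, ← integral_add
    ((SdeLE_int_sq hf).const_mul a) ((SdeLE_int_sq hg).const_mul a⁻¹)]
  refine abs_integral_le_integral_abs.trans ?_
  exact integral_mono hi.abs (hdi a) (hb a ha)

/-- passage to the limit in `L²` -/
private lemma SdeLE_limit {Ω : Type} [MeasurableSpace Ω] {P : Measure Ω} {N : ℕ} {f : Ω → E N}
    (R : ℕ → Ω → E N) (hf : MemLp f 2 P) (hR : ∀ n, MemLp (R n) 2 P) {K : ℝ}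
    (hK : ∀ n, ∫ ω, ‖R n ω‖ ^ 2 ∂P ≤ K)
    (hlim : Filter.Tendsto (fun n => eLpNorm (fun ω => f ω - R n ω) 2 P) Filter.atTop (𝓝 0)) :
    ∫ ω, ‖f ω‖ ^ 2 ∂P ≤ 2 * K ∧ ∀ Z : Ω → E N, MemLp Z 2 P →
      (∀ n, ∫ ω, (inner ℝ (Z ω) (R n ω) : ℝ) ∂P = 0) → ∫ ω, (inner ℝ (Z ω) (f ω) : ℝ) ∂P = 0 := by
  have hlim2 : Filter.Tendsto (fun n => ∫ ω, ‖f ω - R n ω‖ ^ 2 ∂P) Filter.atTop (𝓝 0) := by
    have h1 : ∀ n, ∫ ω, ‖f ω - R n ω‖ ^ 2 ∂P
        = (eLpNorm (fun ω => f ω - R n ω) 2 P).toReal ^ 2 := fun n =>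
      SdeLE_sq (hf.sub (hR n))
    simp only [h1]
    have h2 := (ENNReal.tendsto_toReal ENNReal.zero_ne_top).comp hlim
    have h3 := h2.pow 2
    simpa using h3
  constructor
  · have hle : ∀ n, ∫ ω, ‖f ω‖ ^ 2 ∂P ≤ 2 * ∫ ω, ‖f ω - R n ω‖ ^ 2 ∂P + 2 * K := by
      intro n
      have h := SdeLE_add_sq (hf.sub (hR n)) (hR n)
      simp only [Pi.sub_apply, sub_add_cancel] at h
      have := hK n
      linarith
    have hl : Filter.Tendsto (fun n => 2 * ∫ ω, ‖f ω - R n ω‖ ^ 2 ∂P + 2 * K) Filter.atTop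
        (𝓝 (2 * 0 + 2 * K)) := (hlim2.const_mul 2).add_const _
    have := ge_of_tendsto' hl hle
    linarith
  · intro Z hZ h0
    have heq : ∀ n, ∫ ω, (inner ℝ (Z ω) (f ω) : ℝ) ∂P
        = ∫ ω, (inner ℝ (Z ω) (f ω - R n ω) : ℝ) ∂P := by
      intro n
      have h1 : ∀ ω, (inner ℝ (Z ω) (f ω - R n ω) : ℝ)
          = (inner ℝ (Z ω) (f ω) : ℝ) - (inner ℝ (Z ω) (R n ω) : ℝ) := fun ω => inner_sub_right _ _ _
      simp only [h1]
      rw [integral_sub (SdeLE_inner hZ hf).1 (SdeLE_inner hZ (hR n)).1, h0 n, sub_zero]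
    have hz0 : 0 ≤ ∫ ω, ‖Z ω‖ ^ 2 ∂P := integral_nonneg fun ω => by positivity
    have hb : ∀ a : ℝ, 0 < a → |∫ ω, (inner ℝ (Z ω) (f ω) : ℝ) ∂P| ≤ a * ∫ ω, ‖Z ω‖ ^ 2 ∂P := by
      intro a ha
      have hl : Filter.Tendsto (fun n => a * ∫ ω, ‖Z ω‖ ^ 2 ∂P
          + a⁻¹ * ∫ ω, ‖f ω - R n ω‖ ^ 2 ∂P) Filter.atTop
          (𝓝 (a * ∫ ω, ‖Z ω‖ ^ 2 ∂P + a⁻¹ * 0)) := (hlim2.const_mul a⁻¹).const_add _
      have hle : ∀ n, |∫ ω, (inner ℝ (Z ω) (f ω) : ℝ) ∂P|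
          ≤ a * ∫ ω, ‖Z ω‖ ^ 2 ∂P + a⁻¹ * ∫ ω, ‖f ω - R n ω‖ ^ 2 ∂P := by
        intro n
        rw [heq n]
        exact (SdeLE_inner hZ (hf.sub (hR n))).2 a ha
      have := ge_of_tendsto' hl hle
      linarith
    by_contra hne
    have hpos : 0 < |∫ ω, (inner ℝ (Z ω) (f ω) : ℝ) ∂P| := abs_pos.2 hne
    have hd : 0 < 2 * (1 + ∫ ω, ‖Z ω‖ ^ 2 ∂P) := by positivity
    have h1 := hb (|∫ ω, (inner ℝ (Z ω) (f ω) : ℝ) ∂P| / (2 * (1 + ∫ ω, ‖Z ω‖ ^ 2 ∂P)))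
      (by positivity)
    have h2 : |∫ ω, (inner ℝ (Z ω) (f ω) : ℝ) ∂P| / (2 * (1 + ∫ ω, ‖Z ω‖ ^ 2 ∂P))
        * ∫ ω, ‖Z ω‖ ^ 2 ∂P ≤ |∫ ω, (inner ℝ (Z ω) (f ω) : ℝ) ∂P| / 2 := by
      rw [div_mul_eq_mul_div, div_le_div_iff₀ hd two_pos]
      nlinarith
    linarith

private lemma SdeLE_mart {Ω : Type} [mΩ : MeasurableSpace Ω] {P : Measure Ω} {N d : ℕ} {k β : ℝ}
    {ℱ : Filtration ℝ≥0 mΩ} {B : Site d → Fin N → Fin N → ℝ≥0 → Ω → ℝ}
    {H : ℝ≥0 → Site d → Ω → E N} (hβ : 0 < β) (hH : IsDynamo P k 1 β ℱ B H)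
    (T : ℝ≥0) :
    ∃ C : ℝ, 0 < C ∧ ∀ s t : ℝ≥0, s ≤ t → t ≤ T → ∀ x,
      MemLp (fun ω => ∫ r in (s : ℝ)..t, drf k 1 β (fun y => H r.toNNReal y ω) x) 2 P ∧
      MemLp (fun ω => H t x ω - H s x ω
        - (∫ r in (s : ℝ)..t, drf k 1 β (fun y => H r.toNNReal y ω) x)
        - mulv (fun a b => B x a b t ω - B x a b s ω) (H s x ω)) 2 P ∧
      ∫ ω, ‖H t x ω - H s x ω
        - (∫ r in (s : ℝ)..t, drf k 1 β (fun y => H r.toNNReal y ω) x)
        - mulv (fun a b => B x a b t ω - B x a b s ω) (H s x ω)‖ ^ 2 ∂P ≤ C * (t - s) ^ 2 ∧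
      (∀ Z : Ω → E N, Measurable[ℱ s] Z → MemLp Z 2 P → ∫ ω, inner ℝ (Z ω) (H t x ω - H s x ω
        - (∫ r in (s : ℝ)..t, drf k 1 β (fun y => H r.toNNReal y ω) x)
        - mulv (fun a b => B x a b t ω - B x a b s ω) (H s x ω)) ∂P = 0) := by
  have hP : IsProbabilityMeasure P := hH.prob
  obtain ⟨CH, hCH0, hCH⟩ := H_L2 hH T
  obtain ⟨CD, hCD0, hCD⟩ := drf_facts hβ hH T
  obtain ⟨C1, hC10, hC1⟩ := l2cont hβ hH T
  refine ⟨2 * (N * C1) + 1, by positivity, fun s t hst htT x => ?_⟩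
  have hD : MemLp (fun ω => ∫ r in (s : ℝ)..t, drf k 1 β (fun y => H r.toNNReal y ω) x) 2 P :=
    (tint_facts (fun r ω => drf k 1 β (fun y => H r y ω) x) s t hst (hCD x).1 (hCD x).2.1 CD
      hCD0.le (fun r _ hrt => (hCD x).2.2 r (hrt.trans htT))).1
  have hmv := mulv_sq hH s t hst x (H s x) (hH.adapted s x) (hCH s (hst.trans htT) x).1
  have hρ : MemLp (fun ω => H t x ω - H s x ω
        - (∫ r in (s : ℝ)..t, drf k 1 β (fun y => H r.toNNReal y ω) x)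
        - mulv (fun a b => B x a b t ω - B x a b s ω) (H s x ω)) 2 P :=
    (((hCH t htT x).1.sub (hCH s (hst.trans htT) x).1).sub hD).sub hmv.1
  have hts : (0 : ℝ) ≤ (t : ℝ) - s := sub_nonneg.2 (by exact_mod_cast hst)
  have hR := fun n : ℕ => rsum_sq hH (fun r y ω => H r y ω - H s y ω) x s t hst (C1 * (t - s))
    (fun r hsr hrt => ⟨(hH.adapted r x).sub ((hH.adapted s x).mono (ℱ.mono hsr) le_rfl),
      (hCH r (hrt.trans htT) x).1.sub (hCH s (hst.trans htT) x).1, by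
        refine (hC1 s r hsr (hrt.trans htT) x).trans ?_
        have : (r : ℝ) ≤ t := by exact_mod_cast hrt
        exact mul_le_mul_of_nonneg_left (by linarith) hC10.le⟩) (n + 1)
  have hlim : Filter.Tendsto (fun n : ℕ => eLpNorm (fun ω => (H t x ω - H s x ω
        - (∫ r in (s : ℝ)..t, drf k 1 β (fun y => H r.toNNReal y ω) x)
        - mulv (fun a b => B x a b t ω - B x a b s ω) (H s x ω))
        - rsum B (fun r y ω => H r y ω - H s y ω) x s t (n + 1) ω) 2 P) Filter.atTop (𝓝 0) := by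
    have h1 := (Filter.tendsto_add_atTop_iff_nat 1).2 (hH.ito x s t hst)
    refine h1.congr fun n => ?_
    congr 1
    funext ω
    rw [rsum_sub B H x s t hst (n + 1) (by omega) ω]
    abel
  have hmain := SdeLE_limit (fun n => rsum B (fun r y ω => H r y ω - H s y ω) x s t (n + 1)) hρ
    (fun n => (hR n).1) (K := N * (t - s) * (C1 * (t - s))) (fun n => (hR n).2.1) hlim
  refine ⟨hD, hρ, ?_, ?_⟩
  · refine hmain.1.trans ?_
    nlinarith [sq_nonneg ((t : ℝ) - s)]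
  · intro Z hZ hZ2
    exact hmain.2 Z hZ2 (fun n => (hR n).2.2 Z hZ hZ2)

theorem local_error {Ω : Type} [mΩ : MeasurableSpace Ω] {P : Measure Ω} {N d : ℕ} {k β : ℝ}
    {ℱ : Filtration ℝ≥0 mΩ} {B : Site d → Fin N → Fin N → ℝ≥0 → Ω → ℝ}
    {H : ℝ≥0 → Site d → Ω → E N} (hβ : 0 < β) (hk : 0 ≤ k) (hH : IsDynamo P k 1 β ℱ B H)
    (T : ℝ≥0) :
    ∃ C : ℝ, 0 < C ∧ ∀ δ : ℝ, 0 < δ → ∃ h0 : ℝ≥0, 0 < h0 ∧ ∀ h : ℝ≥0, 0 < h → h ≤ h0 →
      ∀ s : ℝ≥0, s + h ≤ T → ∀ x, ∃ ρM ρD : Ω → E N, MemLp ρM 2 P ∧ MemLp ρD 2 P ∧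
        (∀ᵐ ω ∂P, J β h (H s x ω + mulv (fun a b => B x a b (s + h) ω - B x a b s ω) (H s x ω)
            + ρM ω + ρD ω) = H (s + h) x ω - (k * h) • lap (fun y => H s y ω) x) ∧
        (∀ Z : Ω → E N, Measurable[ℱ s] Z → MemLp Z 2 P → ∫ ω, inner ℝ (Z ω) (ρM ω) ∂P = 0) ∧
        ∫ ω, ‖ρM ω‖ ^ 2 ∂P ≤ C * h ^ 2 ∧ ∫ ω, ‖ρD ω‖ ^ 2 ∂P ≤ δ * h ^ 2 := by
  have hP : IsProbabilityMeasure P := hH.prob
  obtain ⟨CM, hCM0, hCM⟩ := SdeLE_mart hβ hH T
  obtain ⟨CH, hCH0, hCH⟩ := H_L2 hH T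
  obtain ⟨CD, hCD0, hCD⟩ := drf_facts hβ hH T
  obtain ⟨C1, hC10, hC1⟩ := l2cont hβ hH T
  have hβ0 : 0 < β := by linarith
  obtain ⟨p, hp⟩ : ∃ p, p = ⌈4 * β + 2⌉₊ := ⟨_, rfl⟩
  have hp1 : 1 ≤ p := by
    rw [hp]
    exact Nat.one_le_ceil_iff.2 (by positivity)
  obtain ⟨Cp, hCp⟩ := hH.moments p T
  have hCp0 : 0 ≤ Cp := by
    refine le_trans ?_ (hCp 0 (zero_le) 0).2
    exact integral_nonneg fun ω => by positivity
  have hHm : ∀ t y, AEStronglyMeasurable (H t y) P := fun t y =>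
    ((hH.adapted t y).mono (ℱ.le t) le_rfl).aestronglyMeasurable
  -- constants
  obtain ⟨K2, hK2⟩ : ∃ K, K = (4 * d : ℝ) ^ 2 * ((1 + 2 * d) * CH) := ⟨_, rfl⟩
  obtain ⟨Kp, hKp⟩ : ∃ K, K = (4 * d : ℝ) ^ p * ((1 + 2 * d) * Cp) := ⟨_, rfl⟩
  have hK20 : 0 ≤ K2 := by rw [hK2]; positivity
  have hKp0 : 0 ≤ Kp := by rw [hKp]; positivity
  obtain ⟨M, hM⟩ : ∃ M, M = 2 ^ p * (Cp + k ^ p * Kp) + Cp := ⟨_, rfl⟩
  have hM0 : 0 ≤ M := by rw [hM]; positivity
  have hCpM : Cp ≤ M := by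
    rw [hM]
    have : 0 ≤ 2 ^ p * (Cp + k ^ p * Kp) := by positivity
    linarith
  obtain ⟨C2, hC20, hC2⟩ := b_L2 N β hβ M hM0
  rw [← hp] at hC2
  obtain ⟨K1, hK1⟩ : ∃ K, K = (4 * d : ℝ) ^ 2 * ((1 + 2 * d) * C1) := ⟨_, rfl⟩
  have hK10 : 0 ≤ K1 := by rw [hK1]; positivity
  obtain ⟨A, hA⟩ : ∃ A, A = 2 * (k ^ 2 * K1) + 2 * (C2 * √C1) := ⟨_, rfl⟩
  have hA0 : 0 ≤ A := by rw [hA]; positivity
  obtain ⟨G, hG⟩ : ∃ G, G = 2 * A + 2 * (C2 * (k * √K2)) := ⟨_, rfl⟩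
  have hG0 : 0 ≤ G := by rw [hG]; positivity
  refine ⟨CM, hCM0, fun δ hδ => ?_⟩
  have hq : 0 < min 1 ((δ / (G + 1)) ^ 2) := by
    have : 0 < δ / (G + 1) := by positivity
    exact lt_min one_pos (by positivity)
  refine ⟨⟨min 1 ((δ / (G + 1)) ^ 2), hq.le⟩, hq, fun h hh hh0 s hsT x => ?_⟩
  have hh0' : (h : ℝ) ≤ min 1 ((δ / (G + 1)) ^ 2) := hh0
  have hhp : (0 : ℝ) < h := hh
  have hh1 : (h : ℝ) ≤ 1 := hh0'.trans (min_le_left _ _)
  have hsq : √(h : ℝ) ≤ δ / (G + 1) := by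
    rw [Real.sqrt_le_left (by positivity)]
    exact hh0'.trans (min_le_right _ _)
  have hsq0 : 0 ≤ √(h : ℝ) := Real.sqrt_nonneg _
  have hhs : (h : ℝ) ≤ √(h : ℝ) := by
    rw [Real.le_sqrt' hhp]
    nlinarith
  have hGδ : √(h : ℝ) * G ≤ δ := by
    have h1 : √(h : ℝ) * (G + 1) ≤ δ := by
      rwa [le_div_iff₀ (by positivity)] at hsq
    nlinarith
  obtain ⟨t, ht⟩ : ∃ t, t = s + h := ⟨_, rfl⟩
  rw [← ht] at hsT ⊢
  have hst : s ≤ t := by rw [ht]; exact le_self_add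
  have hsT' : s ≤ T := hst.trans hsT
  have hts : (t : ℝ) - s = h := by rw [ht]; push_cast; ring
  obtain ⟨hD, hρM, hρM2, hρMZ⟩ := hCM s t hst hsT x
  rw [hts] at hρM2
  -- the laplacian at time `s`
  have hlm : AEStronglyMeasurable (fun ω => lap (fun y => H s y ω) x) P :=
    SdeLE_lap_meas (fun y => H s y) x (hHm s)
  have hl2 := SdeLE_lap_int (P := P) (fun y => H s y) x (p := 2) (by norm_num) CH (hHm s)
    (fun y => SdeLE_int_sq (hCH s hsT' y).1) (fun y => (hCH s hsT' y).2)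
  have hlp := SdeLE_lap_int (P := P) (fun y => H s y) x (p := p) hp1 Cp (hHm s)
    (fun y => (hCp s hsT' y).1) (fun y => (hCp s hsT' y).2)
  rw [← hK2] at hl2
  rw [← hKp] at hlp
  have hlL2 : MemLp (fun ω => lap (fun y => H s y ω) x) 2 P := by
    rw [memLp_two_iff_integrable_sq_norm hlm]
    exact hl2.1
  -- the field `U`
  obtain ⟨U, hU⟩ : ∃ U : Ω → E N, U = fun ω => H t x ω - (k * h) • lap (fun y => H s y ω) x :=
    ⟨_, rfl⟩
  have hUm : AEStronglyMeasurable U P := by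
    rw [hU]; exact (hHm t x).sub (hlm.const_smul (k * (h : ℝ)))
  have hUdom : ∀ ω, ‖U ω‖ ^ p ≤ 2 ^ p * (‖H t x ω‖ ^ p + k ^ p * ‖lap (fun y => H s y ω) x‖ ^ p) := by
    intro ω
    have h1 : ‖U ω‖ ≤ ‖H t x ω‖ + k * ‖lap (fun y => H s y ω) x‖ := by
      rw [hU]
      refine (norm_sub_le _ _).trans ?_
      rw [norm_smul, Real.norm_eq_abs, abs_of_nonneg (by positivity)]
      have : k * h * ‖lap (fun y => H s y ω) x‖ ≤ k * ‖lap (fun y => H s y ω) x‖ := by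
        refine mul_le_mul_of_nonneg_right ?_ (norm_nonneg _)
        nlinarith
      linarith
    refine (pow_le_pow_left₀ (norm_nonneg _) h1 p).trans ?_
    refine (add_pow_le (norm_nonneg _) (by positivity) p).trans ?_
    rw [mul_pow]
    refine mul_le_mul_of_nonneg_right ?_ (by positivity)
    exact pow_le_pow_right₀ (by norm_num) (by omega)
  have hdomi : Integrable (fun ω => 2 ^ p * (‖H t x ω‖ ^ p
      + k ^ p * ‖lap (fun y => H s y ω) x‖ ^ p)) P :=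
    ((hCp t hsT x).1.add (hlp.1.const_mul _)).const_mul _
  have hUi : Integrable (fun ω => ‖U ω‖ ^ p) P := by
    refine hdomi.mono' (hUm.norm.pow p) (Filter.Eventually.of_forall fun ω => ?_)
    rw [Real.norm_eq_abs, abs_of_nonneg (by positivity)]
    exact hUdom ω
  have hUM : ∫ ω, ‖U ω‖ ^ p ∂P ≤ M := by
    refine (integral_mono hUi hdomi hUdom).trans ?_
    rw [integral_const_mul, integral_add (hCp t hsT x).1 (hlp.1.const_mul _), integral_const_mul]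
    have h1 := (hCp t hsT x).2
    have h2 : k ^ p * ∫ ω, ‖lap (fun y => H s y ω) x‖ ^ p ∂P ≤ k ^ p * Kp :=
      mul_le_mul_of_nonneg_left hlp.2 (by positivity)
    have h3 : 2 ^ p * ((∫ ω, ‖H t x ω‖ ^ p ∂P) + k ^ p * ∫ ω, ‖lap (fun y => H s y ω) x‖ ^ p ∂P)
        ≤ 2 ^ p * (Cp + k ^ p * Kp) :=
      mul_le_mul_of_nonneg_left (add_le_add h1 h2) (by positivity)
    rw [hM]
    linarith
  have hbU := hC2 P U (H t x) hUm (hHm t x) hUi (hCp t hsT x).1 hUM ((hCp t hsT x).2.trans hCpM)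
  have hbT := hC2 P (H t x) (H t x) (hHm t x) (hHm t x) (hCp t hsT x).1 (hCp t hsT x).1
    ((hCp t hsT x).2.trans hCpM) ((hCp t hsT x).2.trans hCpM)
  -- `∫‖b(U)-b(H_t)‖²`
  have hb2 : ∫ ω, ‖(‖U ω‖ ^ β) • U ω - (‖H t x ω‖ ^ β) • H t x ω‖ ^ 2 ∂P
      ≤ C2 * (k * √K2) * √(h : ℝ) := by
    refine hbU.2.2.trans ?_
    have h1 : ∫ ω, ‖U ω - H t x ω‖ ^ 2 ∂P ≤ (k * h) ^ 2 * K2 := by
      have e : ∀ ω, ‖U ω - H t x ω‖ ^ 2 = (k * h) ^ 2 * ‖lap (fun y => H s y ω) x‖ ^ 2 := by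
        intro ω
        rw [hU]
        beta_reduce
        rw [sub_sub_cancel_left, norm_neg, norm_smul, mul_pow, Real.norm_eq_abs, sq_abs]
      simp only [e]
      rw [integral_const_mul]
      exact mul_le_mul_of_nonneg_left hl2.2 (by positivity)
    have h2 : √(∫ ω, ‖U ω - H t x ω‖ ^ 2 ∂P) ≤ k * h * √K2 := by
      refine (Real.sqrt_le_sqrt h1).trans ?_
      rw [Real.sqrt_mul (by positivity), Real.sqrt_sq (by positivity)]
    have h3 : k * h * √K2 ≤ k * √K2 * √(h : ℝ) := by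
      have : 0 ≤ k * √K2 := by positivity
      nlinarith
    have h4 := mul_le_mul_of_nonneg_left (h2.trans h3) hC20.le
    linarith
  -- the drift integrand
  obtain ⟨Φ, hΦ⟩ : ∃ Φ : ℝ≥0 → Ω → E N, Φ = fun r ω => drf k 1 β (fun y => H r y ω) x
      - (k • lap (fun y => H s y ω) x - (‖H t x ω‖ ^ β) • H t x ω) := ⟨_, rfl⟩
  have hΦr : ∀ r, s ≤ r → r ≤ t → MemLp (Φ r) 2 P ∧ ∫ ω, ‖Φ r ω‖ ^ 2 ∂P ≤ A * √(h : ℝ) := by
    intro r hsr hrt
    have hrT := hrt.trans hsT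
    have hrs : (r : ℝ) - s ≤ h := by
      have : (r : ℝ) ≤ t := by exact_mod_cast hrt
      linarith
    have htr : (t : ℝ) - r ≤ h := by
      have : (s : ℝ) ≤ r := by exact_mod_cast hsr
      linarith
    have hVm : ∀ y, AEStronglyMeasurable (fun ω => H r y ω - H s y ω) P := fun y =>
      (hHm r y).sub (hHm s y)
    have hV2 : ∀ y, MemLp (fun ω => H r y ω - H s y ω) 2 P := fun y =>
      (hCH r hrT y).1.sub (hCH s hsT' y).1
    have hlV := SdeLE_lap_int (P := P) (fun y ω => H r y ω - H s y ω) x (p := 2) (by norm_num)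
      (C1 * h) hVm (fun y => SdeLE_int_sq (hV2 y)) (fun y => (hC1 s r hsr hrT y).trans
        (mul_le_mul_of_nonneg_left hrs hC10.le))
    have hlVm : AEStronglyMeasurable (fun ω => lap (fun y => H r y ω - H s y ω) x) P :=
      SdeLE_lap_meas (fun y ω => H r y ω - H s y ω) x hVm
    have hlV2 : MemLp (fun ω => lap (fun y => H r y ω - H s y ω) x) 2 P := by
      rw [memLp_two_iff_integrable_sq_norm hlVm]
      exact hlV.1
    have hbR := hC2 P (H r x) (H t x) (hHm r x) (hHm t x) (hCp r hrT x).1 (hCp t hsT x).1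
      ((hCp r hrT x).2.trans hCpM) ((hCp t hsT x).2.trans hCpM)
    have hb3 : ∫ ω, ‖(‖H r x ω‖ ^ β) • H r x ω - (‖H t x ω‖ ^ β) • H t x ω‖ ^ 2 ∂P
        ≤ C2 * √C1 * √(h : ℝ) := by
      refine hbR.2.2.trans ?_
      have h1 : ∫ ω, ‖H r x ω - H t x ω‖ ^ 2 ∂P ≤ C1 * h := by
        have h2 := hC1 r t hrt hsT x
        simp only [norm_sub_rev (H t x _) (H r x _)] at h2
        exact h2.trans (mul_le_mul_of_nonneg_left htr hC10.le)
      have h2 : √(∫ ω, ‖H r x ω - H t x ω‖ ^ 2 ∂P) ≤ √C1 * √(h : ℝ) := by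
        refine (Real.sqrt_le_sqrt h1).trans ?_
        rw [Real.sqrt_mul hC10.le]
      have h3 := mul_le_mul_of_nonneg_left h2 hC20.le
      linarith
    have e : Φ r = fun ω => k • lap (fun y => H r y ω - H s y ω) x
        - ((‖H r x ω‖ ^ β) • H r x ω - (‖H t x ω‖ ^ β) • H t x ω) := by
      rw [hΦ]
      funext ω
      rw [SdeLE_lap_sub (fun y => H r y ω) (fun y => H s y ω) x]
      unfold drf
      beta_reduce
      rw [one_mul, smul_sub]
      abel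
    have hm1 : MemLp (fun ω => k • lap (fun y => H r y ω - H s y ω) x) 2 P := hlV2.const_smul k
    have hm2 : MemLp (fun ω => (‖H r x ω‖ ^ β) • H r x ω - (‖H t x ω‖ ^ β) • H t x ω) 2 P :=
      hbR.1.sub hbT.1
    rw [e]
    refine ⟨hm1.sub hm2, ?_⟩
    refine (SdeLE_sub_sq hm1 hm2).trans ?_
    have h1 : ∫ ω, ‖k • lap (fun y => H r y ω - H s y ω) x‖ ^ 2 ∂P ≤ k ^ 2 * (K1 * √(h : ℝ)) := by
      have e2 : ∀ ω, ‖k • lap (fun y => H r y ω - H s y ω) x‖ ^ 2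
          = k ^ 2 * ‖lap (fun y => H r y ω - H s y ω) x‖ ^ 2 := by
        intro ω
        rw [norm_smul, mul_pow, Real.norm_eq_abs, sq_abs]
      simp only [e2]
      rw [integral_const_mul]
      refine mul_le_mul_of_nonneg_left ?_ (by positivity)
      refine hlV.2.trans ?_
      have h5 : (4 * d : ℝ) ^ 2 * ((1 + 2 * d) * (C1 * h)) = K1 * h := by rw [hK1]; ring
      rw [h5]
      exact mul_le_mul_of_nonneg_left hhs hK10
    rw [hA]
    linarith
  have hc : ∀ᵐ ω ∂P, Continuous (fun r => Φ r ω) := by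
    filter_upwards [(hCD x).2.1] with ω hω
    rw [hΦ]
    exact hω.sub continuous_const
  have hΦm : ∀ r, AEStronglyMeasurable (Φ r) P := by
    intro r
    rw [hΦ]
    exact ((hCD x).1 r).sub ((hlm.const_smul k).sub hbT.1.1)
  have htf := tint_facts Φ s t hst hΦm hc (A * √(h : ℝ)) (by positivity) hΦr
  rw [hts] at htf
  -- the pathwise identity
  have hid : ∀ᵐ ω ∂P, (∫ r in (s : ℝ)..t, drf k 1 β (fun y => H r.toNNReal y ω) x)
      - (k * h) • lap (fun y => H s y ω) x + (h : ℝ) • ((‖U ω‖ ^ β) • U ω)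
      = (∫ r in (s : ℝ)..t, Φ r.toNNReal ω)
        + (h : ℝ) • ((‖U ω‖ ^ β) • U ω - (‖H t x ω‖ ^ β) • H t x ω) := by
    filter_upwards [(hCD x).2.1] with ω hω
    have hint : IntervalIntegrable (fun r : ℝ => drf k 1 β (fun y => H r.toNNReal y ω) x)
        volume s t :=
      (hω.comp continuous_real_toNNReal).intervalIntegrable _ _
    have h1 : (∫ r in (s : ℝ)..t, Φ r.toNNReal ω)
        = (∫ r in (s : ℝ)..t, drf k 1 β (fun y => H r.toNNReal y ω) x)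
          - (h : ℝ) • (k • lap (fun y => H s y ω) x - (‖H t x ω‖ ^ β) • H t x ω) := by
      rw [hΦ]
      beta_reduce
      rw [intervalIntegral.integral_sub hint intervalIntegrable_const,
        intervalIntegral.integral_const, hts]
    rw [h1, smul_sub, smul_sub, smul_smul (h : ℝ) k, mul_comm k (h : ℝ)]
    abel
  have hLm : MemLp (fun ω => (k * h) • lap (fun y => H s y ω) x) 2 P := hlL2.const_smul (k * (h : ℝ))
  have hbUm : MemLp (fun ω => (h : ℝ) • ((‖U ω‖ ^ β) • U ω)) 2 P := hbU.1.const_smul (h : ℝ)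
  have hρD : MemLp (fun ω => (∫ r in (s : ℝ)..t, drf k 1 β (fun y => H r.toNNReal y ω) x)
      - (k * h) • lap (fun y => H s y ω) x + (h : ℝ) • ((‖U ω‖ ^ β) • U ω)) 2 P :=
    (hD.sub hLm).add hbUm
  refine ⟨_, _, hρM, hρD, ?_, hρMZ, hρM2, ?_⟩
  · refine Filter.Eventually.of_forall fun ω => ?_
    have hJ : J β h (U ω + ((h : ℝ) * ‖U ω‖ ^ β) • U ω) = U ω := J_unique hβ0 hhp.le rfl
    have e1 : H s x ω + mulv (fun a b => B x a b t ω - B x a b s ω) (H s x ω)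
        + (H t x ω - H s x ω
          - (∫ r in (s : ℝ)..t, drf k 1 β (fun y => H r.toNNReal y ω) x)
          - mulv (fun a b => B x a b t ω - B x a b s ω) (H s x ω))
        + ((∫ r in (s : ℝ)..t, drf k 1 β (fun y => H r.toNNReal y ω) x)
          - (k * h) • lap (fun y => H s y ω) x + (h : ℝ) • ((‖U ω‖ ^ β) • U ω))
        = U ω + ((h : ℝ) * ‖U ω‖ ^ β) • U ω := by
      have e2 : U ω = H t x ω - (k * h) • lap (fun y => H s y ω) x := by rw [hU]
      have e3 : (h : ℝ) • ((‖U ω‖ ^ β) • U ω) = ((h : ℝ) * ‖U ω‖ ^ β) • U ω := smul_smul _ _ _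
      rw [e3]
      nth_rewrite 3 [e2]
      abel
    beta_reduce
    rw [e1, hJ, hU]
  · have h1 : ∫ ω, ‖(∫ r in (s : ℝ)..t, drf k 1 β (fun y => H r.toNNReal y ω) x)
        - (k * h) • lap (fun y => H s y ω) x + (h : ℝ) • ((‖U ω‖ ^ β) • U ω)‖ ^ 2 ∂P
        = ∫ ω, ‖(∫ r in (s : ℝ)..t, Φ r.toNNReal ω)
          + (h : ℝ) • ((‖U ω‖ ^ β) • U ω - (‖H t x ω‖ ^ β) • H t x ω)‖ ^ 2 ∂P := by
      refine integral_congr_ae ?_
      filter_upwards [hid] with ω hω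
      rw [hω]
    have hm3 : MemLp (fun ω => (h : ℝ) • ((‖U ω‖ ^ β) • U ω - (‖H t x ω‖ ^ β) • H t x ω)) 2 P :=
      (hbU.1.sub hbT.1).const_smul (h : ℝ)
    have h2 := SdeLE_add_sq htf.1 hm3
    have h3 : ∫ ω, ‖(h : ℝ) • ((‖U ω‖ ^ β) • U ω - (‖H t x ω‖ ^ β) • H t x ω)‖ ^ 2 ∂P
        ≤ (h : ℝ) ^ 2 * (C2 * (k * √K2) * √(h : ℝ)) := by
      have e2 : ∀ ω, ‖(h : ℝ) • ((‖U ω‖ ^ β) • U ω - (‖H t x ω‖ ^ β) • H t x ω)‖ ^ 2
          = (h : ℝ) ^ 2 * ‖(‖U ω‖ ^ β) • U ω - (‖H t x ω‖ ^ β) • H t x ω‖ ^ 2 := by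
        intro ω
        rw [norm_smul, mul_pow, Real.norm_eq_abs, sq_abs]
      simp only [e2]
      rw [integral_const_mul]
      exact mul_le_mul_of_nonneg_left hb2 (by positivity)
    have h4 := htf.2
    have h5 : (h : ℝ) ^ 2 * (√(h : ℝ) * G) ≤ (h : ℝ) ^ 2 * δ :=
      mul_le_mul_of_nonneg_left hGδ (by positivity)
    refine h1.le.trans (h2.trans ?_)
    rw [hG] at h5
    nlinarith

end DynB

end

/-! ### from `Lib_MP_36b788c.Tilt2` -/

section

/-!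
# Adapted shift on a block of sites, second form

PROOF. As for `tilt_bd` (file `Tilt.lean`, copy what is needed). `P = PI (γ^ι)`, `Z = exp(logZ ns v ω)`, `∫ Ψ(shft v ω) Z = ∫ Ψ` (`shift_lintegral`), `Ψ ω = ∫ Φ(res ω ω') dω'` is invariant under the shift, so `∫ Φ - ∫ Φ∘shft = ∫ ((Φ - Ψ)∘shft)(Z-1)`. `‖Φ - Ψ‖ ω ≤ τ1 ω + τ2 ω`, `τi ω = ∫ Ti ω ω' dω'`.
`∫ τ1∘shft |Z-1| ≤ (∫ τ1²∘shft Z)^{1/2}(∫ (Z-1)²/Z)^{1/2} ≤ (∫ τ1²)^{1/2}(e^Q - 1)^{1/2}`, `τ1² ≤ ∫ T1² dω'` (Jensen). `∫ τ2∘shft |Z-1| ≤ ∫ τ2∘shft Z + ∫ τ2∘shft = ∫ τ2 + ∫ τ2∘shft`.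
-/

open MeasureTheory ProbabilityTheory
open scoped ENNReal

namespace DynC

variable {ι V : Type} [Fintype ι] [NormedAddCommGroup V] [InnerProductSpace ℝ V]
  [MeasurableSpace V] [BorelSpace V] [SecondCountableTopology V] {γ : Measure V}
  [IsProbabilityMeasure γ]

private theorem Tilt2_meas_shft (v : ℕ → (ℕ → ι → V) → ι → V) (hv : ∀ j, Measurable (v j)) :
    Measurable (shft v) := by
  refine measurable_pi_lambda _ fun j => measurable_pi_lambda _ fun x => ?_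
  have h1 : Measurable fun ω : ℕ → ι → V => ω j x :=
    (measurable_pi_apply x).comp (measurable_pi_apply j)
  have h2 : Measurable fun ω : ℕ → ι → V => v j ω x := (measurable_pi_apply x).comp (hv j)
  exact h1.add h2

private theorem Tilt2_meas_logZ (n : ℕ) (v : ℕ → (ℕ → ι → V) → ι → V)
    (hv : ∀ j, Measurable (v j)) : Measurable (logZ n v) := by
  unfold logZ
  refine Finset.measurable_fun_sum _ fun j _ => Finset.measurable_fun_sum _ fun x _ => ?_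
  have h1 : Measurable fun ω : ℕ → ι → V => ω j x :=
    (measurable_pi_apply x).comp (measurable_pi_apply j)
  have h2 : Measurable fun ω : ℕ → ι → V => v j ω x := (measurable_pi_apply x).comp (hv j)
  exact (h2.inner h1).neg.sub ((h2.norm.pow_const 2).div_const 2)

private theorem Tilt2_logZ_neg (n : ℕ) (v : ℕ → (ℕ → ι → V) → ι → V) (ω : ℕ → ι → V) :
    -(logZ n v ω) = logZ n (fun j ω x => - v j ω x) ω +
      ∑ j ∈ Finset.range n, ∑ x, ‖v j ω x‖ ^ 2 := by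
  unfold logZ
  rw [← Finset.sum_neg_distrib, ← Finset.sum_add_distrib]
  apply Finset.sum_congr rfl
  intro j _
  rw [← Finset.sum_neg_distrib, ← Finset.sum_add_distrib]
  apply Finset.sum_congr rfl
  intro x _
  rw [inner_neg_left, norm_neg]
  ring

private theorem Tilt2_Z_one (hγ : CMart γ) (n : ℕ) (v : ℕ → (ℕ → ι → V) → ι → V)
    (hv : ∀ j, Measurable (v j)) (hd : ∀ j, Dep j (v j)) (hv0 : ∀ j, n ≤ j → ∀ ω, v j ω = 0) :
    ∫⁻ ω, ENNReal.ofReal (Real.exp (logZ n v ω)) ∂(PI (Measure.pi fun _ : ι => γ)) = 1 := by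
  have h1 := shift_lintegral hγ n v hv hd hv0 (fun _ => 1) measurable_const
  simp only [one_mul, lintegral_one, measure_univ] at h1
  exact h1

private theorem Tilt2_Zinv (hγ : CMart γ) (n : ℕ) (v : ℕ → (ℕ → ι → V) → ι → V)
    (hv : ∀ j, Measurable (v j)) (hd : ∀ j, Dep j (v j)) (hv0 : ∀ j, n ≤ j → ∀ ω, v j ω = 0)
    (Q : ℝ) (hQv : ∀ ω, ∑ j ∈ Finset.range n, ∑ x, ‖v j ω x‖ ^ 2 ≤ Q) :
    ∫⁻ ω, ENNReal.ofReal (Real.exp (-(logZ n v ω))) ∂(PI (Measure.pi fun _ : ι => γ)) ≤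
      ENNReal.ofReal (Real.exp Q) := by
  have hw : ∀ j, Measurable ((fun j ω x => - v j ω x : ℕ → (ℕ → ι → V) → ι → V) j) := by
    intro j
    refine measurable_pi_lambda _ fun x => ?_
    exact ((measurable_pi_apply x).comp (hv j)).neg
  have hwd : ∀ j, Dep j ((fun j ω x => - v j ω x : ℕ → (ℕ → ι → V) → ι → V) j) := by
    intro j a b hab
    funext x
    show - v j a x = - v j b x
    rw [hd j a b hab]
  have hw0 : ∀ j, n ≤ j → ∀ ω, (fun j ω x => - v j ω x : ℕ → (ℕ → ι → V) → ι → V) j ω = 0 := by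
    intro j hj ω
    funext x
    show - v j ω x = 0
    rw [hv0 j hj ω]
    simp
  have h1 := Tilt2_Z_one hγ n _ hw hwd hw0
  calc ∫⁻ ω, ENNReal.ofReal (Real.exp (-(logZ n v ω))) ∂(PI (Measure.pi fun _ : ι => γ))
      ≤ ∫⁻ ω, ENNReal.ofReal (Real.exp Q) *
          ENNReal.ofReal (Real.exp (logZ n (fun j ω x => - v j ω x) ω))
          ∂(PI (Measure.pi fun _ : ι => γ)) := by
        apply lintegral_mono
        intro ω
        show ENNReal.ofReal (Real.exp (-(logZ n v ω))) ≤ ENNReal.ofReal (Real.exp Q) *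
          ENNReal.ofReal (Real.exp (logZ n (fun j ω x => - v j ω x) ω))
        rw [← ENNReal.ofReal_mul (Real.exp_pos _).le, ← Real.exp_add, Tilt2_logZ_neg]
        apply ENNReal.ofReal_le_ofReal
        apply Real.exp_le_exp.mpr
        linarith [hQv ω]
    _ = ENNReal.ofReal (Real.exp Q) := by
        rw [lintegral_const_mul' _ _ ENNReal.ofReal_ne_top, h1, mul_one]

private theorem Tilt2_cs {Ω : Type} [MeasurableSpace Ω] (P : Measure Ω) (f g : Ω → ℝ≥0∞)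
    (hf : Measurable f) (hg : Measurable g) :
    ∫⁻ ω, f ω * g ω ∂P ≤ (∫⁻ ω, f ω ^ 2 ∂P) ^ (1 / 2 : ℝ) * (∫⁻ ω, g ω ^ 2 ∂P) ^ (1 / 2 : ℝ) := by
  have h := ENNReal.lintegral_mul_le_Lp_mul_Lq P Real.HolderConjugate.two_two hf.aemeasurable
    hg.aemeasurable
  simp only [ENNReal.rpow_two, Pi.mul_apply] at h
  exact h

private theorem Tilt2_half_sq (a : ℝ) :
    ENNReal.ofReal (Real.exp (a / 2)) ^ 2 = ENNReal.ofReal (Real.exp a) := by
  rw [← ENNReal.ofReal_pow (Real.exp_pos _).le, ← Real.exp_nat_mul]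
  congr 2
  push_cast
  ring

/-- image of the tilted law -/
private theorem Tilt2_map (hγ : CMart γ) (ns : ℕ) (v : ℕ → (ℕ → ι → V) → ι → V)
    (hv : ∀ j, Measurable (v j)) (hd : ∀ j, Dep j (v j)) (hv0 : ∀ j, ns ≤ j → ∀ ω, v j ω = 0) :
    ((PI (Measure.pi fun _ : ι => γ)).withDensity
      (fun ω => ENNReal.ofReal (Real.exp (logZ ns v ω)))).map (shft v) =
      PI (Measure.pi fun _ : ι => γ) := by
  have hsm := Tilt2_meas_shft v hv
  have hlm := Tilt2_meas_logZ ns v hv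
  have hW : Measurable fun ω => ENNReal.ofReal (Real.exp (logZ ns v ω)) :=
    ENNReal.measurable_ofReal.comp (Real.measurable_exp.comp hlm)
  ext s hs
  rw [Measure.map_apply hsm hs, withDensity_apply _ (hsm hs), ← lintegral_indicator (hsm hs)]
  have h1 := shift_lintegral hγ ns v hv hd hv0 (s.indicator fun _ => 1)
    (measurable_const.indicator hs)
  rw [lintegral_indicator hs, lintegral_const, Measure.restrict_apply MeasurableSet.univ,
    Set.univ_inter, one_mul] at h1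
  rw [← h1]
  apply lintegral_congr
  intro ω
  by_cases h : shft v ω ∈ s
  · rw [Set.indicator_of_mem (show ω ∈ shft v ⁻¹' s from h), Set.indicator_of_mem h, one_mul]
  · rw [Set.indicator_of_notMem (show ω ∉ shft v ⁻¹' s from h), Set.indicator_of_notMem h,
      zero_mul]

private theorem Tilt2_cint (hγ : CMart γ) (ns : ℕ) (v : ℕ → (ℕ → ι → V) → ι → V)
    (hv : ∀ j, Measurable (v j)) (hd : ∀ j, Dep j (v j)) (hv0 : ∀ j, ns ≤ j → ∀ ω, v j ω = 0)
    (Φ : (ℕ → ι → V) → ℂ) (hΦ : Measurable Φ) :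
    ∫ ω, ((Real.exp (logZ ns v ω) : ℝ) : ℂ) * Φ (shft v ω) ∂(PI (Measure.pi fun _ : ι => γ)) =
      ∫ ω, Φ ω ∂(PI (Measure.pi fun _ : ι => γ)) := by
  have hsm := Tilt2_meas_shft v hv
  have hlm := Tilt2_meas_logZ ns v hv
  have hW : Measurable fun ω => ENNReal.ofReal (Real.exp (logZ ns v ω)) :=
    ENNReal.measurable_ofReal.comp (Real.measurable_exp.comp hlm)
  conv_rhs => rw [← Tilt2_map hγ ns v hv hd hv0]
  rw [integral_map hsm.aemeasurable hΦ.aestronglyMeasurable,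
    integral_withDensity_eq_integral_toReal_smul hW
      (Filter.Eventually.of_forall fun ω => ENNReal.ofReal_lt_top)]
  apply integral_congr_ae
  refine Filter.Eventually.of_forall fun ω => ?_
  show ((Real.exp (logZ ns v ω) : ℝ) : ℂ) * Φ (shft v ω) =
    (ENNReal.ofReal (Real.exp (logZ ns v ω))).toReal • Φ (shft v ω)
  rw [ENNReal.toReal_ofReal (Real.exp_pos _).le]
  rfl

private theorem Tilt2_int_Z (hγ : CMart γ) (ns : ℕ) (v : ℕ → (ℕ → ι → V) → ι → V)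
    (hv : ∀ j, Measurable (v j)) (hd : ∀ j, Dep j (v j)) (hv0 : ∀ j, ns ≤ j → ∀ ω, v j ω = 0) :
    Integrable (fun ω => Real.exp (logZ ns v ω)) (PI (Measure.pi fun _ : ι => γ)) := by
  have hlm := Tilt2_meas_logZ ns v hv
  refine ⟨(Real.measurable_exp.comp hlm).aestronglyMeasurable, ?_⟩
  rw [hasFiniteIntegral_iff_ofReal (Filter.Eventually.of_forall fun ω => (Real.exp_pos _).le),
    Tilt2_Z_one hγ ns v hv hd hv0]
  exact ENNReal.one_lt_top

/-- `∫ (Z-1)²/Z ≤ e^Q - 1` -/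
private theorem Tilt2_var (hγ : CMart γ) (ns : ℕ) (v : ℕ → (ℕ → ι → V) → ι → V)
    (hv : ∀ j, Measurable (v j)) (hd : ∀ j, Dep j (v j)) (hv0 : ∀ j, ns ≤ j → ∀ ω, v j ω = 0)
    (Q : ℝ) (hQ : 0 ≤ Q) (hQv : ∀ ω, ∑ j ∈ Finset.range ns, ∑ x, ‖v j ω x‖ ^ 2 ≤ Q) :
    ∫⁻ ω, ENNReal.ofReal ((Real.exp (logZ ns v ω) - 1) ^ 2 * Real.exp (-(logZ ns v ω)))
      ∂(PI (Measure.pi fun _ : ι => γ)) ≤ ENNReal.ofReal (Real.exp Q - 1) := by
  have hlm := Tilt2_meas_logZ ns v hv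
  have h2 : (2 : ℝ≥0∞) ≠ ⊤ := by norm_num
  rw [← ENNReal.add_le_add_iff_right h2]
  have e0 : ∫⁻ _ω : ℕ → ι → V, (2 : ℝ≥0∞) ∂(PI (Measure.pi fun _ : ι => γ)) = 2 := by
    rw [lintegral_const, measure_univ, mul_one]
  have hm1 : Measurable fun ω =>
      ENNReal.ofReal ((Real.exp (logZ ns v ω) - 1) ^ 2 * Real.exp (-(logZ ns v ω))) := by
    apply ENNReal.measurable_ofReal.comp
    exact (((Real.measurable_exp.comp hlm).sub_const 1).pow_const 2).mul
      (Real.measurable_exp.comp hlm.neg)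
  have hm2 : Measurable fun ω => ENNReal.ofReal (Real.exp (logZ ns v ω)) :=
    ENNReal.measurable_ofReal.comp (Real.measurable_exp.comp hlm)
  calc ∫⁻ ω, ENNReal.ofReal ((Real.exp (logZ ns v ω) - 1) ^ 2 * Real.exp (-(logZ ns v ω)))
        ∂(PI (Measure.pi fun _ : ι => γ)) + 2
      = ∫⁻ ω, (ENNReal.ofReal ((Real.exp (logZ ns v ω) - 1) ^ 2 *
          Real.exp (-(logZ ns v ω))) + 2) ∂(PI (Measure.pi fun _ : ι => γ)) := by
        rw [lintegral_add_left hm1, e0]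
    _ = ∫⁻ ω, (ENNReal.ofReal (Real.exp (logZ ns v ω)) +
          ENNReal.ofReal (Real.exp (-(logZ ns v ω)))) ∂(PI (Measure.pi fun _ : ι => γ)) := by
        apply lintegral_congr
        intro ω
        rw [show (2 : ℝ≥0∞) = ENNReal.ofReal 2 by norm_num,
          ← ENNReal.ofReal_add (by positivity) (by norm_num),
          ← ENNReal.ofReal_add (Real.exp_pos _).le (Real.exp_pos _).le]
        congr 1
        have h3 : Real.exp (logZ ns v ω) * Real.exp (-(logZ ns v ω)) = 1 := by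
          rw [← Real.exp_add, add_neg_cancel, Real.exp_zero]
        have h4 : (Real.exp (logZ ns v ω) - 1) ^ 2 * Real.exp (-(logZ ns v ω)) =
            Real.exp (logZ ns v ω) * (Real.exp (logZ ns v ω) * Real.exp (-(logZ ns v ω)))
            - 2 * (Real.exp (logZ ns v ω) * Real.exp (-(logZ ns v ω)))
            + Real.exp (-(logZ ns v ω)) := by ring
        rw [h4, h3]
        ring
    _ = 1 + ∫⁻ ω, ENNReal.ofReal (Real.exp (-(logZ ns v ω)))
          ∂(PI (Measure.pi fun _ : ι => γ)) := by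
        rw [lintegral_add_left hm2, Tilt2_Z_one hγ ns v hv hd hv0]
    _ ≤ 1 + ENNReal.ofReal (Real.exp Q) := by
        gcongr
        exact Tilt2_Zinv hγ ns v hv hd hv0 Q hQv
    _ = ENNReal.ofReal (Real.exp Q - 1) + 2 := by
        have h5 : 1 ≤ Real.exp Q := Real.one_le_exp hQ
        rw [show (2 : ℝ≥0∞) = ENNReal.ofReal 2 by norm_num,
          show (1 : ℝ≥0∞) = ENNReal.ofReal 1 by norm_num,
          ← ENNReal.ofReal_add (by norm_num) (Real.exp_pos _).le,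
          ← ENNReal.ofReal_add (by linarith) (by norm_num)]
        congr 1
        ring

/-- integral representation of the difference -/
private theorem Tilt2_repr (hγ : CMart γ) (ns : ℕ) (Bs : ι → Prop)
    (v : ℕ → (ℕ → ι → V) → ι → V)
    (hv : ∀ j, Measurable (v j)) (hd : ∀ j, Dep j (v j)) (hv0 : ∀ j, ns ≤ j → ∀ ω, v j ω = 0)
    (hvB : ∀ j ω z, ¬ Bs z → v j ω z = 0)
    (Φ : (ℕ → ι → V) → ℂ) (hΦ : Measurable Φ) (hb : ∀ ω, ‖Φ ω‖ ≤ 1) :
    ‖∫ ω, Φ ω ∂(PI (Measure.pi fun _ : ι => γ)) -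
        ∫ ω, Φ (shft v ω) ∂(PI (Measure.pi fun _ : ι => γ))‖ₑ ≤
      ∫⁻ ω, ENNReal.ofReal |Real.exp (logZ ns v ω) - 1| *
        (fun η => ‖Φ η - ∫ ω', Φ (res Bs ns η ω') ∂(PI (Measure.pi fun _ : ι => γ))‖ₑ)
          (shft v ω) ∂(PI (Measure.pi fun _ : ι => γ)) := by
  classical
  set P : Measure (ℕ → ι → V) := PI (Measure.pi fun _ : ι => γ) with hP
  have hsm := Tilt2_meas_shft v hv
  have hlm := Tilt2_meas_logZ ns v hv
  have hres := measurable_res (V := V) Bs ns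
  have hΦr : Measurable fun p : (ℕ → ι → V) × (ℕ → ι → V) => Φ (res Bs ns p.1 p.2) :=
    hΦ.comp hres
  set Ψ : (ℕ → ι → V) → ℂ := fun ω => ∫ ω', Φ (res Bs ns ω ω') ∂P with hΨ
  have hΨm : Measurable Ψ := by
    have h0 : StronglyMeasurable fun p : (ℕ → ι → V) × (ℕ → ι → V) => Φ (res Bs ns p.1 p.2) :=
      hΦr.stronglyMeasurable
    exact (h0.integral_prod_right').measurable
  have hΨb : ∀ ω, ‖Ψ ω‖ ≤ 1 := by
    intro ω
    refine (norm_integral_le_of_norm_le_const (C := 1)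
      (Filter.Eventually.of_forall fun ω' => hb _)).trans ?_
    rw [Measure.real, measure_univ]
    simp
  have hresS : ∀ ω ω', res Bs ns (shft v ω) ω' = res Bs ns ω ω' := by
    intro ω ω'
    funext j z
    unfold res
    by_cases h : j < ns ∧ Bs z
    · rw [if_pos h, if_pos h]
    · rw [if_neg h, if_neg h]
      unfold shft
      by_cases hj : j < ns
      · rw [hvB j ω z (fun hz => h ⟨hj, hz⟩), add_zero]
      · rw [hv0 j (by omega) ω]
        simp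
  have hΨS : ∀ ω, Ψ (shft v ω) = Ψ ω := by
    intro ω
    show ∫ ω', Φ (res Bs ns (shft v ω) ω') ∂P = ∫ ω', Φ (res Bs ns ω ω') ∂P
    simp only [hresS]
  have hintZ := Tilt2_int_Z hγ ns v hv hd hv0
  have hintZc : Integrable (fun ω => ((Real.exp (logZ ns v ω) : ℝ) : ℂ)) P := hintZ.ofReal
  have hiZ : ∀ G : (ℕ → ι → V) → ℂ, Measurable G → (∀ ω, ‖G ω‖ ≤ 1) →
      Integrable (fun ω => ((Real.exp (logZ ns v ω) : ℝ) : ℂ) * G (shft v ω)) P := by
    intro G hG hGb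
    refine hintZc.mul_bdd (c := 1) (hG.comp hsm).aestronglyMeasurable ?_
    exact Filter.Eventually.of_forall fun ω => hGb _
  have hiS : ∀ G : (ℕ → ι → V) → ℂ, Measurable G → (∀ ω, ‖G ω‖ ≤ 1) →
      Integrable (fun ω => G (shft v ω)) P := by
    intro G hG hGb
    exact Integrable.of_bound (hG.comp hsm).aestronglyMeasurable 1
      (Filter.Eventually.of_forall fun ω => hGb _)
  have hdiff : ∀ G : (ℕ → ι → V) → ℂ, Measurable G → (∀ ω, ‖G ω‖ ≤ 1) →
      ∫ ω, G ω ∂P - ∫ ω, G (shft v ω) ∂P =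
        ∫ ω, (((Real.exp (logZ ns v ω) : ℝ) : ℂ) - 1) * G (shft v ω) ∂P := by
    intro G hG hGb
    rw [← Tilt2_cint hγ ns v hv hd hv0 G hG, ← integral_sub (hiZ G hG hGb) (hiS G hG hGb)]
    apply integral_congr_ae
    refine Filter.Eventually.of_forall fun ω => ?_
    show ((Real.exp (logZ ns v ω) : ℝ) : ℂ) * G (shft v ω) - G (shft v ω) =
      (((Real.exp (logZ ns v ω) : ℝ) : ℂ) - 1) * G (shft v ω)
    ring
  have h0 : ∫ ω, (((Real.exp (logZ ns v ω) : ℝ) : ℂ) - 1) * Ψ (shft v ω) ∂P = 0 := by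
    rw [← hdiff Ψ hΨm hΨb]
    simp only [hΨS, sub_self]
  have hi1 : ∀ G : (ℕ → ι → V) → ℂ, Measurable G → (∀ ω, ‖G ω‖ ≤ 1) →
      Integrable (fun ω => (((Real.exp (logZ ns v ω) : ℝ) : ℂ) - 1) * G (shft v ω)) P := by
    intro G hG hGb
    have := (hiZ G hG hGb).sub (hiS G hG hGb)
    refine this.congr (Filter.Eventually.of_forall fun ω => ?_)
    show ((Real.exp (logZ ns v ω) : ℝ) : ℂ) * G (shft v ω) - G (shft v ω) =
      (((Real.exp (logZ ns v ω) : ℝ) : ℂ) - 1) * G (shft v ω)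
    ring
  have h1 : ∫ ω, Φ ω ∂P - ∫ ω, Φ (shft v ω) ∂P =
      ∫ ω, (((Real.exp (logZ ns v ω) : ℝ) : ℂ) - 1) * (Φ (shft v ω) - Ψ (shft v ω)) ∂P := by
    rw [hdiff Φ hΦ hb, ← sub_zero (∫ ω, (((Real.exp (logZ ns v ω) : ℝ) : ℂ) - 1) *
      Φ (shft v ω) ∂P), ← h0, ← integral_sub (hi1 Φ hΦ hb) (hi1 Ψ hΨm hΨb)]
    apply integral_congr_ae
    refine Filter.Eventually.of_forall fun ω => ?_
    show (((Real.exp (logZ ns v ω) : ℝ) : ℂ) - 1) * Φ (shft v ω) -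
      (((Real.exp (logZ ns v ω) : ℝ) : ℂ) - 1) * Ψ (shft v ω) =
      (((Real.exp (logZ ns v ω) : ℝ) : ℂ) - 1) * (Φ (shft v ω) - Ψ (shft v ω))
    ring
  rw [h1]
  refine (enorm_integral_le_lintegral_enorm _).trans (le_of_eq ?_)
  apply lintegral_congr
  intro ω
  have e5 : ‖(((Real.exp (logZ ns v ω) : ℝ) : ℂ) - 1)‖ₑ =
      ENNReal.ofReal |Real.exp (logZ ns v ω) - 1| := by
    rw [← ofReal_norm, show (((Real.exp (logZ ns v ω) : ℝ) : ℂ) - 1) =
      ((Real.exp (logZ ns v ω) - 1 : ℝ) : ℂ) by push_cast; rfl, Complex.norm_real,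
      Real.norm_eq_abs]
  rw [enorm_mul, e5]

/-- part with the square integrable majorant -/
private theorem Tilt2_one (hγ : CMart γ) (ns : ℕ)
    (v : ℕ → (ℕ → ι → V) → ι → V)
    (hv : ∀ j, Measurable (v j)) (hd : ∀ j, Dep j (v j)) (hv0 : ∀ j, ns ≤ j → ∀ ω, v j ω = 0)
    (Q : ℝ) (hQ : 0 ≤ Q) (hQv : ∀ ω, ∑ j ∈ Finset.range ns, ∑ x, ‖v j ω x‖ ^ 2 ≤ Q)
    (τ : (ℕ → ι → V) → ℝ≥0∞) (hτ : Measurable τ) :
    ∫⁻ ω, ENNReal.ofReal |Real.exp (logZ ns v ω) - 1| * τ (shft v ω)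
        ∂(PI (Measure.pi fun _ : ι => γ)) ≤
      ENNReal.ofReal (Real.sqrt (Real.exp Q - 1)) *
        (∫⁻ ω, τ ω ^ 2 ∂(PI (Measure.pi fun _ : ι => γ))) ^ (1 / 2 : ℝ) := by
  set P : Measure (ℕ → ι → V) := PI (Measure.pi fun _ : ι => γ) with hP
  have hsm := Tilt2_meas_shft v hv
  have hlm := Tilt2_meas_logZ ns v hv
  have hf : Measurable fun ω => τ (shft v ω) *
      ENNReal.ofReal (Real.exp (logZ ns v ω / 2)) :=
    (hτ.comp hsm).mul (ENNReal.measurable_ofReal.comp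
      (Real.measurable_exp.comp (hlm.div_const 2)))
  have hg : Measurable fun ω => ENNReal.ofReal |Real.exp (logZ ns v ω) - 1| *
      ENNReal.ofReal (Real.exp (-(logZ ns v ω) / 2)) :=
    (ENNReal.measurable_ofReal.comp
      ((Real.measurable_exp.comp hlm).sub_const 1).abs).mul
      (ENNReal.measurable_ofReal.comp (Real.measurable_exp.comp (hlm.neg.div_const 2)))
  have h2 := Tilt2_cs P _ _ hf hg
  have e1 : ∀ ω, τ (shft v ω) *
      ENNReal.ofReal (Real.exp (logZ ns v ω / 2)) *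
      (ENNReal.ofReal |Real.exp (logZ ns v ω) - 1| *
      ENNReal.ofReal (Real.exp (-(logZ ns v ω) / 2))) =
      ENNReal.ofReal |Real.exp (logZ ns v ω) - 1| * τ (shft v ω) := by
    intro ω
    have e4 : ENNReal.ofReal (Real.exp (logZ ns v ω / 2)) *
        ENNReal.ofReal (Real.exp (-(logZ ns v ω) / 2)) = 1 := by
      rw [← ENNReal.ofReal_mul (Real.exp_pos _).le, ← Real.exp_add,
        show logZ ns v ω / 2 + -(logZ ns v ω) / 2 = 0 by ring, Real.exp_zero, ENNReal.ofReal_one]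
    calc τ (shft v ω) * ENNReal.ofReal (Real.exp (logZ ns v ω / 2)) *
        (ENNReal.ofReal |Real.exp (logZ ns v ω) - 1| *
          ENNReal.ofReal (Real.exp (-(logZ ns v ω) / 2)))
        = (ENNReal.ofReal (Real.exp (logZ ns v ω / 2)) *
          ENNReal.ofReal (Real.exp (-(logZ ns v ω) / 2))) *
          (ENNReal.ofReal |Real.exp (logZ ns v ω) - 1| * τ (shft v ω)) := by ring
      _ = ENNReal.ofReal |Real.exp (logZ ns v ω) - 1| * τ (shft v ω) := by rw [e4, one_mul]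
  have e2 : ∀ ω, (τ (shft v ω) *
      ENNReal.ofReal (Real.exp (logZ ns v ω / 2))) ^ 2 =
      (fun η => τ η ^ 2) (shft v ω) * ENNReal.ofReal (Real.exp (logZ ns v ω)) := by
    intro ω
    rw [mul_pow, Tilt2_half_sq]
  have e3 : ∀ ω, (ENNReal.ofReal |Real.exp (logZ ns v ω) - 1| *
      ENNReal.ofReal (Real.exp (-(logZ ns v ω) / 2))) ^ 2 =
      ENNReal.ofReal ((Real.exp (logZ ns v ω) - 1) ^ 2 * Real.exp (-(logZ ns v ω))) := by
    intro ω
    rw [mul_pow, Tilt2_half_sq, ← ENNReal.ofReal_pow (abs_nonneg _), sq_abs,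
      ← ENNReal.ofReal_mul (sq_nonneg _)]
  rw [lintegral_congr e1, lintegral_congr e2, lintegral_congr e3,
    shift_lintegral hγ ns v hv hd hv0 (fun η => τ η ^ 2) (hτ.pow_const 2)] at h2
  have hE0 : 0 ≤ Real.exp Q - 1 := by linarith [Real.one_le_exp hQ]
  have h9 : (∫⁻ ω, ENNReal.ofReal ((Real.exp (logZ ns v ω) - 1) ^ 2 *
      Real.exp (-(logZ ns v ω))) ∂P) ^ (1 / 2 : ℝ) ≤
      ENNReal.ofReal (Real.sqrt (Real.exp Q - 1)) := by
    refine (ENNReal.rpow_le_rpow (Tilt2_var hγ ns v hv hd hv0 Q hQ hQv) (by norm_num)).trans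
      (le_of_eq ?_)
    rw [ENNReal.ofReal_rpow_of_nonneg hE0 (by norm_num), Real.sqrt_eq_rpow]
  refine h2.trans ?_
  rw [mul_comm]
  exact mul_le_mul' h9 le_rfl

/-- part with the integrable majorant -/
private theorem Tilt2_two (hγ : CMart γ) (ns : ℕ)
    (v : ℕ → (ℕ → ι → V) → ι → V)
    (hv : ∀ j, Measurable (v j)) (hd : ∀ j, Dep j (v j)) (hv0 : ∀ j, ns ≤ j → ∀ ω, v j ω = 0)
    (τ : (ℕ → ι → V) → ℝ≥0∞) (hτ : Measurable τ) :
    ∫⁻ ω, ENNReal.ofReal |Real.exp (logZ ns v ω) - 1| * τ (shft v ω)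
        ∂(PI (Measure.pi fun _ : ι => γ)) ≤
      ∫⁻ ω, τ ω ∂(PI (Measure.pi fun _ : ι => γ)) +
        ∫⁻ ω, τ (shft v ω) ∂(PI (Measure.pi fun _ : ι => γ)) := by
  set P : Measure (ℕ → ι → V) := PI (Measure.pi fun _ : ι => γ) with hP
  have hsm := Tilt2_meas_shft v hv
  have hlm := Tilt2_meas_logZ ns v hv
  rw [← shift_lintegral hγ ns v hv hd hv0 τ hτ, ← lintegral_add_left]
  · apply lintegral_mono
    intro ω
    show ENNReal.ofReal |Real.exp (logZ ns v ω) - 1| * τ (shft v ω) ≤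
      τ (shft v ω) * ENNReal.ofReal (Real.exp (logZ ns v ω)) + τ (shft v ω)
    have h1 : ENNReal.ofReal |Real.exp (logZ ns v ω) - 1| ≤
        ENNReal.ofReal (Real.exp (logZ ns v ω)) + 1 := by
      rw [← ENNReal.ofReal_one, ← ENNReal.ofReal_add (Real.exp_pos _).le zero_le_one]
      apply ENNReal.ofReal_le_ofReal
      rw [abs_le]
      constructor <;> linarith [Real.exp_pos (logZ ns v ω)]
    calc ENNReal.ofReal |Real.exp (logZ ns v ω) - 1| * τ (shft v ω)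
        ≤ (ENNReal.ofReal (Real.exp (logZ ns v ω)) + 1) * τ (shft v ω) :=
          mul_le_mul' h1 le_rfl
      _ = τ (shft v ω) * ENNReal.ofReal (Real.exp (logZ ns v ω)) + τ (shft v ω) := by ring
  · exact (hτ.comp hsm).mul (ENNReal.measurable_ofReal.comp (Real.measurable_exp.comp hlm))

theorem tilt_bd2 (hγ : CMart γ) (ns : ℕ) (Bs : ι → Prop) (v : ℕ → (ℕ → ι → V) → ι → V)
    (hv : ∀ j, Measurable (v j)) (hd : ∀ j, Dep j (v j)) (hv0 : ∀ j, ns ≤ j → ∀ ω, v j ω = 0)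
    (hvB : ∀ j ω z, ¬ Bs z → v j ω z = 0) (Q : ℝ) (hQ : 0 ≤ Q)
    (hQv : ∀ ω, ∑ j ∈ Finset.range ns, ∑ x, ‖v j ω x‖ ^ 2 ≤ Q)
    (Φ : (ℕ → ι → V) → ℂ) (hΦ : Measurable Φ) (hb : ∀ ω, ‖Φ ω‖ ≤ 1)
    (T1 T2 : (ℕ → ι → V) → (ℕ → ι → V) → ℝ≥0∞)
    (h1 : Measurable fun p : (ℕ → ι → V) × (ℕ → ι → V) => T1 p.1 p.2)
    (h2 : Measurable fun p : (ℕ → ι → V) × (ℕ → ι → V) => T2 p.1 p.2)
    (hT : ∀ ω ω', ENNReal.ofReal ‖Φ ω - Φ (res Bs ns ω ω')‖ ≤ T1 ω ω' + T2 ω ω') :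
    ENNReal.ofReal ‖∫ ω, Φ ω ∂(PI (Measure.pi fun _ : ι => γ)) -
        ∫ ω, Φ (shft v ω) ∂(PI (Measure.pi fun _ : ι => γ))‖ ≤
      ENNReal.ofReal (Real.sqrt (Real.exp Q - 1)) *
          (∫⁻ ω, ∫⁻ ω', T1 ω ω' ^ 2 ∂(PI (Measure.pi fun _ : ι => γ))
            ∂(PI (Measure.pi fun _ : ι => γ))) ^ (1 / 2 : ℝ) +
        (∫⁻ ω, ∫⁻ ω', T2 ω ω' ∂(PI (Measure.pi fun _ : ι => γ))
          ∂(PI (Measure.pi fun _ : ι => γ)) +
        ∫⁻ ω, ∫⁻ ω', T2 (shft v ω) ω' ∂(PI (Measure.pi fun _ : ι => γ))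
          ∂(PI (Measure.pi fun _ : ι => γ))) := by
  classical
  set P : Measure (ℕ → ι → V) := PI (Measure.pi fun _ : ι => γ) with hP
  have hres := measurable_res (V := V) Bs ns
  have hsm := Tilt2_meas_shft v hv
  have hlm := Tilt2_meas_logZ ns v hv
  have hΦr : Measurable fun p : (ℕ → ι → V) × (ℕ → ι → V) => Φ (res Bs ns p.1 p.2) :=
    hΦ.comp hres
  have hm1 : Measurable fun ω => ∫⁻ ω', T1 ω ω' ∂P := h1.lintegral_prod_right'
  have hm2 : Measurable fun ω => ∫⁻ ω', T2 ω ω' ∂P := h2.lintegral_prod_right'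
  have hW : Measurable fun ω => ENNReal.ofReal |Real.exp (logZ ns v ω) - 1| :=
    ENNReal.measurable_ofReal.comp ((Real.measurable_exp.comp hlm).sub_const 1).abs
  have s1 : ∀ ω, Measurable fun ω' => T1 ω ω' := fun ω =>
    h1.comp (measurable_const.prodMk measurable_id)
  -- pointwise bound
  have hpt : ∀ η, ‖Φ η - ∫ ω', Φ (res Bs ns η ω') ∂P‖ₑ ≤
      ∫⁻ ω', T1 η ω' ∂P + ∫⁻ ω', T2 η ω' ∂P := by
    intro η
    have e6 : Φ η - ∫ ω', Φ (res Bs ns η ω') ∂P = ∫ ω', (Φ η - Φ (res Bs ns η ω')) ∂P := by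
      have h7 : Integrable (fun ω' => Φ (res Bs ns η ω')) P :=
        Integrable.of_bound (hΦr.comp (measurable_const.prodMk measurable_id)).aestronglyMeasurable
          1 (Filter.Eventually.of_forall fun ω' => hb _)
      rw [integral_sub (integrable_const _) h7, integral_const, Measure.real, measure_univ]
      simp
    rw [e6, ← lintegral_add_left (s1 η)]
    refine (enorm_integral_le_lintegral_enorm _).trans ?_
    apply lintegral_mono
    intro ω'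
    show ‖Φ η - Φ (res Bs ns η ω')‖ₑ ≤ T1 η ω' + T2 η ω'
    rw [← ofReal_norm]
    exact hT η ω'
  have hr := Tilt2_repr hγ ns Bs v hv hd hv0 hvB Φ hΦ hb
  have h3 : ∫⁻ ω, ENNReal.ofReal |Real.exp (logZ ns v ω) - 1| *
      (fun η => ‖Φ η - ∫ ω', Φ (res Bs ns η ω') ∂P‖ₑ) (shft v ω) ∂P ≤
      ∫⁻ ω, ENNReal.ofReal |Real.exp (logZ ns v ω) - 1| *
        (fun η => ∫⁻ ω', T1 η ω' ∂P) (shft v ω) ∂P +
      ∫⁻ ω, ENNReal.ofReal |Real.exp (logZ ns v ω) - 1| *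
        (fun η => ∫⁻ ω', T2 η ω' ∂P) (shft v ω) ∂P := by
    have hmul : Measurable fun ω => ENNReal.ofReal |Real.exp (logZ ns v ω) - 1| *
        (fun η => ∫⁻ ω', T1 η ω' ∂P) (shft v ω) := hW.mul (hm1.comp hsm)
    rw [← lintegral_add_left hmul]
    apply lintegral_mono
    intro ω
    show ENNReal.ofReal |Real.exp (logZ ns v ω) - 1| *
        ‖Φ (shft v ω) - ∫ ω', Φ (res Bs ns (shft v ω) ω') ∂P‖ₑ ≤
      ENNReal.ofReal |Real.exp (logZ ns v ω) - 1| * (∫⁻ ω', T1 (shft v ω) ω' ∂P) +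
      ENNReal.ofReal |Real.exp (logZ ns v ω) - 1| * (∫⁻ ω', T2 (shft v ω) ω' ∂P)
    rw [← mul_add]
    exact mul_le_mul' le_rfl (hpt _)
  have h4 := Tilt2_one hγ ns v hv hd hv0 Q hQ hQv _ hm1
  have h5 := Tilt2_two hγ ns v hv hd hv0 _ hm2
  have h6 : ∫⁻ ω, (∫⁻ ω', T1 ω ω' ∂P) ^ 2 ∂P ≤ ∫⁻ ω, ∫⁻ ω', T1 ω ω' ^ 2 ∂P ∂P := by
    apply lintegral_mono
    intro ω
    have h7 := Tilt2_cs P (fun ω' => T1 ω ω') (fun _ => 1) (s1 ω) measurable_const
    simp only [mul_one, one_pow, lintegral_one, measure_univ, ENNReal.one_rpow] at h7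
    have h8 := pow_le_pow_left₀ zero_le h7 2
    refine h8.trans (le_of_eq ?_)
    rw [← ENNReal.rpow_two, ← ENNReal.rpow_mul]
    norm_num
  rw [ofReal_norm]
  refine hr.trans (h3.trans (add_le_add (h4.trans ?_) h5))
  exact mul_le_mul' le_rfl (ENNReal.rpow_le_rpow h6 (by norm_num))

end DynC

end

/-! ### from `Lib_MP_36b788.KExt` -/

section

/-!
# KEXT: Kolmogorov's extension theorem

PROOF. Content: `projectiveFamilyContent hP` on `measurableCylinders α` (a set ring). σ-additivity: `addContent_iUnion_eq_sum_of_tendsto_zero`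
and `isSigmaSubadditive_of_addContent_iUnion_eq_tsum` reduce it to: `s n` measurable cylinders, antitone, `⋂ s n = ∅` imply
`content (s n) → 0`. Suppose `content (s n) ≥ ε > 0` for all `n`. `s n = cylinder (J n) (S n)`, by inner regularity of the finite Borel
measure `P (J n)` on the Polish space `Π_{j ∈ J n} α j` (`MeasurableSet.exists_isCompact_…`, `Measure.InnerRegular`/`isTight…`) choose
compact `K n ⊆ S n` with `P (J n)(S n \ K n) ≤ ε 2^{-n-2}`. The sets `t n = cylinder (J n) (K n) ⊆ s n` are closed compact cylinders,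
`content(s n \ ⋂_{i≤n} t i) ≤ Σ ε2^{-i-2} ≤ ε/2` so `⋂_{i≤n} t i ≠ ∅` for all `n`; closed compact cylinders form a compact system
(`Topology/Compactness/CompactSystem.lean`, `ClosedCompactCylinders.lean`: if it is not there, prove: choose `x_n ∈ ⋂_{i≤n} t i`; the
coordinates in `⋃J i` (countable) of a suitable diagonal subsequence/ultrafilter limit converge; or use Tychonoff for the compact
projections `K'_j ⊆ α j`, `j ∈ ⋃ J i`, and a constant outside), so `⋂ t n ≠ ∅`, contradicting `⋂ s n = ∅`.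
Extension: `AddContent.measure` (`OfAddContent.lean`) with `generateFrom_measurableCylinders`; the value on cylinders gives
`IsProjectiveLimit`. The model is the proof for product measures in `Mathlib/Probability/ProductMeasure.lean`
(`isSigmaSubadditive_piContent` and the definition of the measure after it).
-/

open MeasureTheory ProbabilityTheory Filter
open scoped NNReal ENNReal Topology

namespace Dyn

private theorem KExt_tendsto_zero {ι : Type} {α : ι → Type} [∀ i, MeasurableSpace (α i)]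
    [∀ i, TopologicalSpace (α i)] [∀ i, PolishSpace (α i)] [∀ i, BorelSpace (α i)]
    (P : ∀ J : Finset ι, Measure (∀ j : J, α j)) [∀ J, IsProbabilityMeasure (P J)]
    (hP : IsProjectiveMeasureFamily P) {A : ℕ → Set (∀ i, α i)}
    (A_mem : ∀ n, A n ∈ measurableCylinders α)
    (A_anti : Antitone A) (A_inter : ⋂ n, A n = ∅) :
    Tendsto (fun n => projectiveFamilyContent hP (A n)) atTop (𝓝 0) := by
  classical
  have hanti : Antitone (fun n => projectiveFamilyContent hP (A n)) := fun m n hmn =>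
    projectiveFamilyContent_mono hP (A_mem n) (A_mem m) (A_anti hmn)
  by_contra hcon
  have hε : ∃ ε : ℝ≥0∞, 0 < ε ∧ ∀ n, ε ≤ projectiveFamilyContent hP (A n) := by
    by_contra hno
    push Not at hno
    apply hcon
    rw [ENNReal.tendsto_nhds_zero]
    intro ε hε
    obtain ⟨n, hn⟩ := hno ε hε
    exact eventually_atTop.2 ⟨n, fun m hm => (hanti hm).trans hn.le⟩
  obtain ⟨ε, hε0, hεA⟩ := hε
  have hεtop : ε ≠ ∞ := fun h => by
    have h1 := hεA 0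
    rw [h, top_le_iff] at h1
    exact projectiveFamilyContent_ne_top hP h1
  have A_cyl : ∀ n, ∃ s S, MeasurableSet S ∧ A n = cylinder s S :=
    fun n => (mem_measurableCylinders _).1 (A_mem n)
  choose J S mS A_eq using A_cyl
  have hδ : ∀ n : ℕ, ε / 2 / 2 ^ (n + 1) ≠ 0 := by
    intro n
    simp only [ne_eq, ENNReal.div_eq_zero_iff, not_or]
    exact ⟨⟨hε0.ne', by norm_num⟩, by simp⟩
  have hK : ∀ n, ∃ K, K ⊆ S n ∧ IsCompact K ∧ IsClosed K ∧
      P (J n) (S n \ K) < ε / 2 / 2 ^ (n + 1) := fun n =>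
    (mS n).exists_isCompact_isClosed_sdiff_lt (measure_ne_top _ _) (hδ n)
  choose K hKS hKc hKcl hKlt using hK
  -- finite intersections are nonempty
  have hne : ∀ n : ℕ, ∃ x : ∀ i, α i, ∀ i ≤ n, (J i).restrict x ∈ K i := by
    intro n
    by_contra hno
    push Not at hno
    have hcyl : ∀ i, cylinder (J i) (S i \ K i) ∈ measurableCylinders α := fun i =>
      cylinder_mem_measurableCylinders _ _ ((mS i).diff (hKcl i).measurableSet)
    have hsub : A n ⊆ ⋃ i ≤ n, cylinder (J i) (S i \ K i) := by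
      intro x hx
      obtain ⟨i, hi, hxi⟩ := hno x
      have hxA : x ∈ A i := A_anti hi hx
      rw [A_eq i, mem_cylinder] at hxA
      exact Set.mem_biUnion (show i ∈ {j | j ≤ n} from hi) ((mem_cylinder _ _ _).2 ⟨hxA, hxi⟩)
    have hU : (⋃ i ≤ n, cylinder (J i) (S i \ K i)) ∈ measurableCylinders α := by
      have h1 : (⋃ i ≤ n, cylinder (J i) (S i \ K i)) =
          ⋃ i ∈ Finset.range (n + 1), cylinder (J i) (S i \ K i) := by
        simp only [Finset.mem_range_succ_iff]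
      rw [h1]
      exact isSetRing_measurableCylinders.biUnion_mem _ (fun i _ => hcyl i)
    have h1 : ε ≤ ∑ i ∈ Finset.range (n + 1), P (J i) (S i \ K i) := by
      calc ε ≤ projectiveFamilyContent hP (A n) := hεA n
        _ ≤ projectiveFamilyContent hP (⋃ i ≤ n, cylinder (J i) (S i \ K i)) :=
            projectiveFamilyContent_mono hP (A_mem n) hU hsub
        _ ≤ ∑ i ∈ Finset.range (n + 1), projectiveFamilyContent hP (cylinder (J i) (S i \ K i)) :=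
            projectiveFamilyContent_iUnion_le hP hcyl n
        _ = ∑ i ∈ Finset.range (n + 1), P (J i) (S i \ K i) :=
            Finset.sum_congr rfl (fun i _ => projectiveFamilyContent_cylinder hP
              ((mS i).diff (hKcl i).measurableSet))
    have h2 : ∑ i ∈ Finset.range (n + 1), P (J i) (S i \ K i) ≤ ε / 2 := by
      calc ∑ i ∈ Finset.range (n + 1), P (J i) (S i \ K i)
          ≤ ∑ i ∈ Finset.range (n + 1), ε / 2 / 2 ^ (i + 1) :=
            Finset.sum_le_sum (fun i _ => (hKlt i).le)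
        _ ≤ ∑' i : ℕ, ε / 2 / 2 ^ (i + 1) := ENNReal.sum_le_tsum _
        _ = ε / 2 * ∑' i : ℕ, (2 ^ (i + 1))⁻¹ := by
            simp only [ENNReal.div_eq_inv_mul (b := (2 : ℝ≥0∞) ^ _)]
            rw [ENNReal.tsum_mul_right, mul_comm]
        _ = ε / 2 := by
            have h5 : ∑' i : ℕ, ((2 : ℝ≥0∞) ^ (i + 1))⁻¹ = 1 := by
              simp only [ENNReal.inv_pow]
              rw [ENNReal.tsum_geometric_add_one, ENNReal.one_sub_inv_two, inv_inv]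
              exact ENNReal.inv_mul_cancel (by norm_num) (by norm_num)
            rw [h5, mul_one]
    have h3 : ε / 2 < ε := ENNReal.half_lt_self hε0.ne' hεtop
    exact absurd (h1.trans h2) (not_le.2 h3)
  choose x hx using hne
  have hyi : ∀ i, ∃ y ∈ K i, Tendsto (fun n => (J i).restrict (x n))
      (hyperfilter ℕ : Filter ℕ) (𝓝 y) := by
    intro i
    have h1 := isCompact_iff_ultrafilter_le_nhds.1 (hKc i)
      ((hyperfilter ℕ).map (fun n => (J i).restrict (x n))) (by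
        rw [Filter.le_principal_iff, Ultrafilter.mem_coe, Ultrafilter.mem_map, ← Ultrafilter.mem_coe]
        exact Nat.hyperfilter_le_atTop (Filter.mem_atTop_sets.2 ⟨i, fun n hn => hx n i hn⟩))
    obtain ⟨y, hy1, hy2⟩ := h1
    exact ⟨y, hy1, hy2⟩
  choose y hyK hyt using hyi
  have hnon : ∀ i, Nonempty (α i) := fun i => ⟨x 0 i⟩
  let z : ∀ i, α i := fun j => @limUnder _ _ _ (hnon j) (hyperfilter ℕ : Filter ℕ) (fun n => x n j)
  have hz : ∀ i, (J i).restrict z = y i := by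
    intro i
    funext j
    have h1 : Tendsto (fun n => x n j) (hyperfilter ℕ : Filter ℕ) (𝓝 (y i j)) :=
      ((continuous_apply j).tendsto (y i)).comp (hyt i)
    exact h1.limUnder_eq
  have hzA : z ∈ ⋂ n, A n := by
    rw [Set.mem_iInter]
    intro n
    rw [A_eq n, mem_cylinder, hz n]
    exact hKS n (hyK n)
  rw [A_inter] at hzA
  exact hzA

theorem kolm_ext {ι : Type} {α : ι → Type} [∀ i, MeasurableSpace (α i)]
    [∀ i, TopologicalSpace (α i)] [∀ i, PolishSpace (α i)] [∀ i, BorelSpace (α i)]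
    (P : ∀ J : Finset ι, Measure (∀ j : J, α j)) [∀ J, IsProbabilityMeasure (P J)]
    (hP : IsProjectiveMeasureFamily P) :
    ∃ μ : Measure (∀ i, α i), IsProbabilityMeasure μ ∧ IsProjectiveLimit μ P := by
  have hσ : (projectiveFamilyContent hP).IsSigmaSubadditive := by
    refine isSigmaSubadditive_of_addContent_iUnion_eq_tsum
      isSetRing_measurableCylinders (fun f hf hf_Union hf' => ?_)
    exact addContent_iUnion_eq_sum_of_tendsto_zero isSetRing_measurableCylinders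
      (projectiveFamilyContent hP) (fun s hs => projectiveFamilyContent_ne_top hP)
      (fun _ => KExt_tendsto_zero P hP) hf hf_Union hf'
  have hlim : IsProjectiveLimit ((projectiveFamilyContent hP).measure
      isSetSemiring_measurableCylinders generateFrom_measurableCylinders.ge hσ) P := by
    intro I
    ext s hs
    rw [Measure.map_apply (Finset.measurable_restrict I) hs, AddContent.measure_eq,
      ← cylinder, projectiveFamilyContent_cylinder hP hs]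
    · exact generateFrom_measurableCylinders.symm
    · exact cylinder_mem_measurableCylinders _ _ hs
  exact ⟨_, hlim.isProbabilityMeasure, hlim⟩

end Dyn

end

/-! ### from `Lib_MP_36b788.LevyEx` -/

section

/-!
# LEVYEX: tightness and convergence of characteristic functions give a limit law

PROOF. Markov: `μ_n{‖v‖ > r} ≤ C/r`, closed balls are compact, so the set of measures is tight (`isTightMeasureSet_iff…`,
TightNormed.lean). `isCompact_closure_of_isTightMeasureSet`: the closure of the range is compact, hence there is a cluster point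
`μ0` of the sequence; along an ultrafilter (or subsequence) finer than `atTop`, `μ_n → μ0`, so `charFun μ_n u → charFun μ0 u`
(`ProbabilityMeasure.tendsto_iff_forall_integral_rclike_tendsto`, `charFun_eq_integral_innerProbChar`), and `charFun μ0 = φ`. Then
`ProbabilityMeasure.tendsto_of_tendsto_charFun`.
-/

open MeasureTheory ProbabilityTheory Filter
open scoped NNReal ENNReal Topology

namespace Dyn

private theorem LevyEx_tight {V : Type} [NormedAddCommGroup V] [InnerProductSpace ℝ V]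
    [FiniteDimensional ℝ V] [MeasurableSpace V] [BorelSpace V] (μ : ℕ → ProbabilityMeasure V)
    (C : ℝ) (hC : ∀ n, Integrable (fun v => ‖v‖) (μ n : Measure V) ∧
      ∫ v, ‖v‖ ∂(μ n : Measure V) ≤ C) :
    IsTightMeasureSet {((m : ProbabilityMeasure V) : Measure V) | m ∈ Set.range μ} := by
  have : ProperSpace V := FiniteDimensional.proper ℝ V
  have hC0 : 0 ≤ C := le_trans (integral_nonneg fun v => norm_nonneg v) (hC 0).2
  refine isTightMeasureSet_iff_exists_isCompact_measure_compl_le.mpr fun ε hε => ?_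
  obtain ⟨δ, hδ0, hδ⟩ : ∃ δ : ℝ, 0 < δ ∧ ENNReal.ofReal δ ≤ ε := by
    rcases eq_or_ne ε ⊤ with h | h
    · exact ⟨1, one_pos, by simp [h]⟩
    · refine ⟨ε.toReal, ENNReal.toReal_pos hε.ne' h, ?_⟩
      rw [ENNReal.ofReal_toReal h]
  refine ⟨Metric.closedBall 0 ((C + 1) / δ), isCompact_closedBall _ _, ?_⟩
  rintro m ⟨m', ⟨n, rfl⟩, rfl⟩
  have hr : 0 < (C + 1) / δ := by positivity
  have h1 := mul_meas_ge_le_integral_of_nonneg (μ := (μ n : Measure V))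
    (f := fun v => ‖v‖) (ae_of_all _ fun v => norm_nonneg v) (hC n).1 ((C + 1) / δ)
  have h2 : (μ n : Measure V).real {v | (C + 1) / δ ≤ ‖v‖} ≤ δ := by
    have h3 : (C + 1) / δ * (μ n : Measure V).real {v | (C + 1) / δ ≤ ‖v‖} ≤ C :=
      h1.trans (hC n).2
    have h4 : (C + 1) / δ * (μ n : Measure V).real {v | (C + 1) / δ ≤ ‖v‖} ≤
        (C + 1) / δ * δ := by
      refine h3.trans ?_
      rw [div_mul_cancel₀ _ hδ0.ne']
      linarith
    exact le_of_mul_le_mul_left h4 hr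
  have h5 : (Metric.closedBall (0 : V) ((C + 1) / δ))ᶜ ⊆ {v | (C + 1) / δ ≤ ‖v‖} := by
    intro v hv
    simp only [Set.mem_compl_iff, mem_closedBall_zero_iff, not_le] at hv
    exact hv.le
  calc (μ n : Measure V) (Metric.closedBall (0 : V) ((C + 1) / δ))ᶜ
      ≤ (μ n : Measure V) {v | (C + 1) / δ ≤ ‖v‖} := measure_mono h5
    _ = ENNReal.ofReal ((μ n : Measure V).real {v | (C + 1) / δ ≤ ‖v‖}) := by
        rw [ofReal_measureReal]
    _ ≤ ENNReal.ofReal δ := ENNReal.ofReal_le_ofReal h2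
    _ ≤ ε := hδ

theorem levy_exists {V : Type} [NormedAddCommGroup V] [InnerProductSpace ℝ V]
    [FiniteDimensional ℝ V] [MeasurableSpace V] [BorelSpace V] (μ : ℕ → ProbabilityMeasure V)
    (C : ℝ) (hC : ∀ n, Integrable (fun v => ‖v‖) (μ n : Measure V) ∧
      ∫ v, ‖v‖ ∂(μ n : Measure V) ≤ C)
    (φ : V → ℂ) (h : ∀ u, Tendsto (fun n => charFun (μ n : Measure V) u) atTop (𝓝 (φ u))) :
    ∃ μ0 : ProbabilityMeasure V, Tendsto μ atTop (𝓝 μ0) ∧ ∀ u, charFun (μ0 : Measure V) u = φ u := by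
  have h_compact : IsCompact (closure (Set.range μ)) :=
    isCompact_closure_of_isTightMeasureSet (LevyEx_tight μ C hC)
  let U : Ultrafilter ℕ := Ultrafilter.of atTop
  have hU : (U : Filter ℕ) ≤ atTop := Ultrafilter.of_le _
  obtain ⟨μ0, -, hμ0⟩ := h_compact.ultrafilter_le_nhds (U.map μ)
    (by
      refine le_trans ?_ (monotone_principal subset_closure)
      rw [le_principal_iff]
      have h0 : μ ⁻¹' Set.range μ = Set.univ := by
        ext n; simp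
      change μ ⁻¹' Set.range μ ∈ U
      rw [h0]
      exact Filter.univ_mem)
  have hμ0' : Tendsto μ U (𝓝 μ0) := hμ0
  have hφ : ∀ u, charFun (μ0 : Measure V) u = φ u := by
    intro u
    have h1 := (ProbabilityMeasure.tendsto_iff_forall_integral_rclike_tendsto ℂ).1 hμ0'
      (BoundedContinuousFunction.innerProbChar u)
    have h2 : Tendsto (fun n => charFun (μ n : Measure V) u) U
        (𝓝 (charFun (μ0 : Measure V) u)) := by
      simp_rw [charFun_eq_integral_innerProbChar]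
      exact h1
    exact tendsto_nhds_unique h2 ((h u).mono_left hU)
  refine ⟨μ0, ProbabilityMeasure.tendsto_of_tendsto_charFun fun t => ?_, hφ⟩
  rw [hφ t]
  exact h t

end Dyn

end

/-! ### from `Lib_MP_36b788.LimEx` -/

section

/-!
# LIMEX: existence of the limit field

PROOF. For a finite set `I` let `V_I = PiLp 2 (fun _ : I => E N)` (or `EuclideanSpace ℝ (I × Fin N)`). The laws of `(K n q)_{q∈I}`, `n ∈ ℕ` (times
`t = n`), have uniformly bounded first moments (`‖(v_q)‖ ≤ Σ‖v_q‖`) and characteristic functions converging to `φ I`, so levy_exists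
gives a probability measure `m_I` on `I → E N` with `∫exp(iΣ_{q∈I}⟪u_q,v_q⟫)dm_I = φ I u`. Projective family: for `J ⊆ I` the
marginal of `m_I` on `J` has the exponentials `φ I (u 1_J) = φ J u` (limits of the same integrals: `ech I (u 1_J) = ech J u`), so it
is `m_J` (`Measure.ext_of_charFun`). kolm_ext. Finally `∫ ech I u dμ = ∫exp(…)dm_I = φ I u`.
-/

open MeasureTheory ProbabilityTheory Filter
open scoped NNReal ENNReal Topology

namespace Dyn

private theorem LimEx_meas {A : Type} {N : ℕ} (I : Finset A) (w : A → E N) :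
    Measurable (fun v : (∀ _ : I, E N) =>
      Complex.exp (Complex.I * ((∑ q : I, (inner ℝ (w q) (v q) : ℝ) : ℝ) : ℂ))) := by
  have h1 : Continuous (fun v : (∀ _ : I, E N) =>
      Complex.exp (Complex.I * ((∑ q : I, (inner ℝ (w q) (v q) : ℝ) : ℝ) : ℂ))) := by
    fun_prop
  exact h1.measurable

private theorem LimEx_ech {A : Type} {N : ℕ} (I : Finset A) (w f : A → E N) :
    ech I w f =
      Complex.exp (Complex.I * ((∑ q : I, (inner ℝ (w q) (f q) : ℝ) : ℝ) : ℂ)) := by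
  unfold ech
  rw [← Finset.sum_coe_sort I (fun q => (inner ℝ (w q) (f q) : ℝ))]

private theorem LimEx_inner {A : Type} {N : ℕ} (I : Finset A) (v : ∀ _ : I, E N)
    (t : PiLp 2 (fun _ : I => E N)) (w : A → E N) (hw : ∀ q : I, w q = t q) :
    Complex.exp (((inner ℝ (WithLp.toLp 2 v : PiLp 2 (fun _ : I => E N)) t : ℝ) : ℂ)
      * Complex.I) =
    Complex.exp (Complex.I * ((∑ q : I, (inner ℝ (w q) (v q) : ℝ) : ℝ) : ℂ)) := by
  have h1 : (inner ℝ (WithLp.toLp 2 v : PiLp 2 (fun _ : I => E N)) t : ℝ) =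
      ∑ q : I, (inner ℝ (w q) (v q) : ℝ) := by
    rw [PiLp.inner_apply]
    refine Finset.sum_congr rfl fun q _ => ?_
    rw [hw q]
    exact real_inner_comm _ _
  rw [h1, mul_comm]

/-- exponentials determine the law on `I → E N` -/
private theorem LimEx_uniq {A : Type} {N : ℕ} (I : Finset A) (m m' : Measure (∀ _ : I, E N))
    [IsProbabilityMeasure m] [IsProbabilityMeasure m']
    (h : ∀ w : A → E N,
      ∫ v, Complex.exp (Complex.I * ((∑ q : I, (inner ℝ (w q) (v q) : ℝ) : ℝ) : ℂ)) ∂m =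
      ∫ v, Complex.exp (Complex.I * ((∑ q : I, (inner ℝ (w q) (v q) : ℝ) : ℝ) : ℂ)) ∂m') :
    m = m' := by
  classical
  let e := MeasurableEquiv.toLp 2 (∀ _ : I, E N)
  apply e.map_measurableEquiv_injective
  have : IsProbabilityMeasure (m.map e) :=
    Measure.isProbabilityMeasure_map e.measurable.aemeasurable
  have : IsProbabilityMeasure (m'.map e) :=
    Measure.isProbabilityMeasure_map e.measurable.aemeasurable
  show m.map e = m'.map e
  refine Measure.ext_of_charFun (E := PiLp 2 (fun _ : I => E N)) ?_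
  funext t
  obtain ⟨w, hw⟩ : ∃ w : A → E N, ∀ q : I, w q = t q :=
    ⟨fun a => if ha : a ∈ I then t ⟨a, ha⟩ else 0, fun q => by simp⟩
  have key : ∀ m0 : Measure (∀ _ : I, E N),
      charFun (E := PiLp 2 (fun _ : I => E N)) (m0.map e) t =
      ∫ v, Complex.exp (Complex.I * ((∑ q : I, (inner ℝ (w q) (v q) : ℝ) : ℝ) : ℂ)) ∂m0 := by
    intro m0
    rw [charFun_apply, MeasureTheory.integral_map_equiv e]
    exact integral_congr_ae (Filter.Eventually.of_forall fun v => LimEx_inner I v t w hw)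
  rw [key, key]
  exact h w

private theorem LimEx_fin {A : Type} {N : ℕ} {Ω : Type} [MeasurableSpace Ω] {P : Measure Ω}
    [IsProbabilityMeasure P] (K : ℝ≥0 → A → Ω → E N) (hK : ∀ t q, Measurable (K t q))
    (hC : ∀ q, ∃ C : ℝ, ∀ t, Integrable (fun ω => ‖K t q ω‖) P ∧ ∫ ω, ‖K t q ω‖ ∂P ≤ C)
    (φ : Finset A → (A → E N) → ℂ)
    (h : ∀ I u, Tendsto (fun t => ∫ ω, ech I u (fun q => K t q ω) ∂P) atTop (𝓝 (φ I u)))
    (I : Finset A) :
    ∃ m : Measure (∀ _ : I, E N), IsProbabilityMeasure m ∧ ∀ w : A → E N,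
      ∫ v, Complex.exp (Complex.I * ((∑ q : I, (inner ℝ (w q) (v q) : ℝ) : ℝ) : ℂ)) ∂m =
        φ I w := by
  classical
  choose C hC1 using hC
  have hT : ∀ t, Measurable (fun ω => (WithLp.toLp 2 (fun q : I => K t q ω) :
      PiLp 2 (fun _ : I => E N))) := fun t =>
    (WithLp.measurable_toLp 2 (∀ _ : I, E N)).comp (measurable_pi_lambda _ fun q => hK t q)
  have hnorm : ∀ t ω, ‖(WithLp.toLp 2 (fun q : I => K t q ω) : PiLp 2 (fun _ : I => E N))‖ ≤
      ∑ q : I, ‖K t q ω‖ := by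
    intro t ω
    rw [PiLp.norm_eq_of_L2]
    refine Real.sqrt_le_iff.2 ⟨Finset.sum_nonneg fun _ _ => norm_nonneg _, ?_⟩
    exact Finset.sum_sq_le_sq_sum_of_nonneg (fun q _ => norm_nonneg _)
  have hint : ∀ t, Integrable (fun ω => ∑ q : I, ‖K t q ω‖) P := fun t =>
    integrable_finsetSum _ fun q _ => (hC1 q t).1
  let μ : ℕ → ProbabilityMeasure (PiLp 2 (fun _ : I => E N)) := fun n =>
    ⟨P.map (fun ω => (WithLp.toLp 2 (fun q : I => K n q ω) : PiLp 2 (fun _ : I => E N))),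
      Measure.isProbabilityMeasure_map (hT n).aemeasurable⟩
  have hμ : ∀ n, (μ n : Measure (PiLp 2 (fun _ : I => E N))) =
    P.map (fun ω => (WithLp.toLp 2 (fun q : I => K n q ω) : PiLp 2 (fun _ : I => E N))) :=
    fun n => rfl
  have hCC : ∀ n, Integrable (fun v => ‖v‖) (μ n : Measure (PiLp 2 (fun _ : I => E N))) ∧
      ∫ v, ‖v‖ ∂(μ n : Measure (PiLp 2 (fun _ : I => E N))) ≤ ∑ q : I, C q := by
    intro n
    have i1 : Integrable (fun ω => ‖(WithLp.toLp 2 (fun q : I => K n q ω) :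
        PiLp 2 (fun _ : I => E N))‖) P := by
      refine (hint n).mono' (hT n).norm.aestronglyMeasurable
        (Filter.Eventually.of_forall fun ω => ?_)
      rw [norm_norm]
      exact hnorm n ω
    rw [hμ]
    constructor
    · rw [integrable_map_measure continuous_norm.aestronglyMeasurable (hT n).aemeasurable]
      exact i1
    · rw [integral_map (hT n).aemeasurable continuous_norm.aestronglyMeasurable]
      refine (integral_mono i1 (hint n) fun ω => hnorm n ω).trans ?_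
      rw [integral_finsetSum _ fun (q : I) _ => (hC1 q n).1]
      exact Finset.sum_le_sum fun q _ => (hC1 q n).2
  have hch : ∀ n (t : PiLp 2 (fun _ : I => E N)) (w : A → E N), (∀ q : I, w q = t q) →
      charFun (μ n : Measure (PiLp 2 (fun _ : I => E N))) t =
      ∫ ω, ech I w (fun q => K n q ω) ∂P := by
    intro n t w hw
    rw [hμ, charFun_apply, integral_map (hT n).aemeasurable
      (by exact (Continuous.aestronglyMeasurable (by fun_prop)))]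
    refine integral_congr_ae (Filter.Eventually.of_forall fun ω => ?_)
    show _ = ech I w (fun q => K n q ω)
    rw [LimEx_ech]
    exact LimEx_inner I (fun q : I => K n q ω) t w hw
  have hlim : ∀ (t : PiLp 2 (fun _ : I => E N)) (w : A → E N), (∀ q : I, w q = t q) →
      Tendsto (fun n => charFun (μ n : Measure (PiLp 2 (fun _ : I => E N))) t) atTop
        (𝓝 (φ I w)) := by
    intro t w hw
    have h1 := (h I w).comp (tendsto_natCast_atTop_atTop (R := ℝ≥0))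
    refine h1.congr fun n => ?_
    exact (hch n t w hw).symm
  obtain ⟨μ0, -, hμ0⟩ := levy_exists μ (∑ q : I, C q) hCC
    (fun t => φ I (fun a : A => if ha : a ∈ I then t ⟨a, ha⟩ else 0))
    (fun t => hlim t _ fun q => by simp)
  let e := MeasurableEquiv.toLp 2 (∀ _ : I, E N)
  refine ⟨(μ0 : Measure (PiLp 2 (fun _ : I => E N))).map e.symm,
    Measure.isProbabilityMeasure_map e.symm.measurable.aemeasurable, fun w => ?_⟩
  have h2 := hμ0 (WithLp.toLp 2 (fun q : I => w q))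
  have h3 : φ I (fun a : A => if ha : a ∈ I then
      (WithLp.toLp 2 (fun q : I => w q) : PiLp 2 (fun _ : I => E N)) ⟨a, ha⟩ else 0) = φ I w :=
    tendsto_nhds_unique (hlim (WithLp.toLp 2 (fun q : I => w q)) _ fun q => by simp)
      (hlim (WithLp.toLp 2 (fun q : I => w q)) w fun q => rfl)
  rw [← h3, ← h2, MeasureTheory.integral_map_equiv e.symm, charFun_apply]
  refine integral_congr_ae (Filter.Eventually.of_forall fun v => ?_)
  exact (LimEx_inner I (WithLp.ofLp v) (WithLp.toLp 2 (fun q : I => w q)) w fun q => rfl).symm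

theorem limit_exists {A : Type} {N : ℕ} {Ω : Type} [MeasurableSpace Ω] {P : Measure Ω}
    [IsProbabilityMeasure P] (K : ℝ≥0 → A → Ω → E N) (hK : ∀ t q, Measurable (K t q))
    (hC : ∀ q, ∃ C : ℝ, ∀ t, Integrable (fun ω => ‖K t q ω‖) P ∧ ∫ ω, ‖K t q ω‖ ∂P ≤ C)
    (φ : Finset A → (A → E N) → ℂ)
    (h : ∀ I u, Tendsto (fun t => ∫ ω, ech I u (fun q => K t q ω) ∂P) atTop (𝓝 (φ I u))) :
    ∃ μ : Measure (A → E N), IsProbabilityMeasure μ ∧ ∀ I u, ∫ f, ech I u f ∂μ = φ I u := by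
  classical
  choose m hm1 hm2 using fun I => LimEx_fin K hK hC φ h I
  have hproj : IsProjectiveMeasureFamily (α := fun _ : A => E N) m := by
    intro I J hJI
    have hres : Measurable (Finset.restrict₂ (π := fun _ : A => E N) hJI) :=
      Finset.measurable_restrict₂ hJI
    have : IsProbabilityMeasure ((m I).map (Finset.restrict₂ (π := fun _ : A => E N) hJI)) :=
      Measure.isProbabilityMeasure_map hres.aemeasurable
    refine LimEx_uniq J _ _ fun w => ?_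
    rw [integral_map hres.aemeasurable (LimEx_meas J w).aestronglyMeasurable]
    -- the extension of `w|_J` by zero
    obtain ⟨W, hW⟩ : ∃ W : A → E N, W = fun a => if a ∈ J then w a else 0 := ⟨_, rfl⟩
    have hWJ : ∀ q ∈ J, W q = w q := fun q hq => by rw [hW]; simp [hq]
    have hW0 : ∀ q, q ∉ J → W q = 0 := fun q hq => by rw [hW]; simp [hq]
    have e1 : ∀ v : (∀ _ : I, E N),
        (∑ q : J, (inner ℝ (w q) (Finset.restrict₂ (π := fun _ : A => E N) hJI v q) : ℝ)) =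
        ∑ q : I, (inner ℝ (W q) (v q) : ℝ) := by
      intro v
      have a1 : ∑ q : J, (inner ℝ (w q) (Finset.restrict₂ (π := fun _ : A => E N) hJI v q) : ℝ) =
          ∑ q ∈ J, (inner ℝ (W q)
            ((fun a : A => if ha : a ∈ I then v ⟨a, ha⟩ else 0) q) : ℝ) := by
        rw [← Finset.sum_coe_sort J]
        refine Finset.sum_congr rfl fun q _ => ?_
        have hq : (q : A) ∈ J := q.2
        rw [hWJ q hq]
        simp only [hJI hq, dif_pos]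
        rfl
      have a2 : ∑ q : I, (inner ℝ (W q) (v q) : ℝ) =
          ∑ q ∈ I, (inner ℝ (W q)
            ((fun a : A => if ha : a ∈ I then v ⟨a, ha⟩ else 0) q) : ℝ) := by
        rw [← Finset.sum_coe_sort I]
        refine Finset.sum_congr rfl fun q _ => ?_
        have hq : (q : A) ∈ I := q.2
        simp only [hq, dif_pos]
      rw [a1, a2]
      refine Finset.sum_subset hJI fun q _ hq => ?_
      rw [hW0 q hq, inner_zero_left]
    have e2 : ∀ v : (∀ _ : J, E N), (∑ q : J, (inner ℝ (w q) (v q) : ℝ)) =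
        ∑ q : J, (inner ℝ (W q) (v q) : ℝ) := by
      intro v
      refine Finset.sum_congr rfl fun q _ => ?_
      rw [hWJ q q.2]
    simp only [e1, e2]
    rw [hm2, hm2]
    refine tendsto_nhds_unique (h J _) ((h I _).congr fun t => ?_)
    refine integral_congr_ae (Filter.Eventually.of_forall fun ω => ?_)
    show ech I _ _ = ech J _ _
    unfold ech
    congr 3
    refine (Finset.sum_subset hJI fun q _ hq => ?_).symm
    rw [hW0 q hq, inner_zero_left]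
  have : ∀ I, IsProbabilityMeasure (m I) := hm1
  obtain ⟨μ, hμ1, hμ2⟩ := kolm_ext (α := fun _ : A => E N) m hproj
  refine ⟨μ, hμ1, fun I u => ?_⟩
  rw [← hm2 I u, ← hμ2 I, integral_map (Finset.measurable_restrict I).aemeasurable
    (LimEx_meas I u).aestronglyMeasurable]
  refine integral_congr_ae (Filter.Eventually.of_forall fun f => ?_)
  show ech I u f = _
  rw [LimEx_ech]
  rfl

end Dyn

end

/-! ### from `Lib_MP_36b788.PathR2` -/

section

/-!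
# PATHR2: drift of the local second moment

PROOF. `X = g+√h‖g‖ξ = ĝ+h‖ĝ‖^βĝ` (J_eq), so `‖X‖² = ‖ĝ‖²(1+h‖ĝ‖^β)² ≥ ‖ĝ‖² + 2h‖ĝ‖^{2+β}`, `t^{2+β} ≥ K t² - C_K` with `K = N+2`,
`C_K = K^{(2+β)/β}` (`t ≥ K^{1/β}`: `t^{2+β} ≥ K t²`; otherwise `K t² ≤ K^{1+2/β}`). `∫‖X‖² ≤ (1+Nh)‖g‖²` (mean zero). So
`(1+2(N+2)h)∫‖ĝ‖² ≤ (1+Nh)‖g‖² + 2hC_K`, and for `h ≤ 1/4`: `(1+Nh) ≤ (1-2h)(1+2(N+2)h)`, hence `∫‖ĝ‖² ≤ (1-2h)‖g‖²+2C_Kh`.
`‖stp_x‖² ≤ (1+h)‖ĝ_x‖² + (1+1/h)k²h²‖coup_x‖²`, `(1+h)(1-2h) ≤ 1-h`, `(1+1/h)k²h² ≤ 2k²h`, and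
`Σ_x 2^{-|o-x|}‖coup_x‖² ≤ C_d R2_o` (`‖coup_x‖² ≤ (4d+1)(Σ_{w~x}‖G w‖²+4d²‖G x‖²)`, `2^{-|o-x|} ≤ 2·2^{-|o-w|}` for `w ~ x`), so for
`2k0²C_d ≤ 1/2`: `∫R2(stp) ≤ (1-½h)R2 + C h` (`sum_half`).
-/

open MeasureTheory ProbabilityTheory

namespace Dyn

/-- `K t² ≤ t^β t² + K^{1+2/β}` -/
private lemma PathR2_power (β K t : ℝ) (hβ : 0 < β) (hK : 1 ≤ K) (ht : 0 ≤ t) :
    K * t ^ 2 ≤ t ^ β * t ^ 2 + K * (K ^ (1 / β)) ^ 2 := by
  rcases le_total K (t ^ β) with h | h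
  · have h1 : K * t ^ 2 ≤ t ^ β * t ^ 2 := mul_le_mul_of_nonneg_right h (by positivity)
    have h2 : 0 ≤ K * (K ^ (1 / β)) ^ 2 := by positivity
    linarith
  · have h1 : t ≤ K ^ (1 / β) := by
      calc t = (t ^ β) ^ (1 / β) := by
            rw [← Real.rpow_mul ht, mul_one_div_cancel hβ.ne', Real.rpow_one]
        _ ≤ K ^ (1 / β) := Real.rpow_le_rpow (Real.rpow_nonneg ht _) h (by positivity)
    have h2 : K * t ^ 2 ≤ K * (K ^ (1 / β)) ^ 2 := by gcongr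
    have h3 : 0 ≤ t ^ β * t ^ 2 := by positivity
    linarith

/-- pointwise bound of the damped step -/
private lemma PathR2_point {N : ℕ} (β h K : ℝ) (hβ : 0 < β) (hh : 0 ≤ h) (hK : 1 ≤ K)
    (g ξ : E N) :
    (1 + 2 * K * h) * ‖hat β h g ξ‖ ^ 2 ≤
      ‖g + (Real.sqrt h * ‖g‖) • ξ‖ ^ 2 + 2 * h * (K * (K ^ (1 / β)) ^ 2) := by
  have h1 := J_eq hβ hh (g + (Real.sqrt h * ‖g‖) • ξ)
  have h2 : hat β h g ξ = J β h (g + (Real.sqrt h * ‖g‖) • ξ) := rfl
  rw [← h2] at h1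
  set u := hat β h g ξ with hu
  have hn : ‖g + (Real.sqrt h * ‖g‖) • ξ‖ = (1 + h * ‖u‖ ^ β) * ‖u‖ := by
    rw [← h1]
    have : u + (h * ‖u‖ ^ β) • u = (1 + h * ‖u‖ ^ β) • u := by rw [add_smul, one_smul]
    rw [this, norm_smul, Real.norm_eq_abs, abs_of_pos]
    positivity
  rw [hn]
  have h3 := PathR2_power β K ‖u‖ hβ hK (norm_nonneg u)
  have h4 : 0 ≤ (h * ‖u‖ ^ β) ^ 2 * ‖u‖ ^ 2 := by positivity
  nlinarith

private lemma PathR2_cont {N : ℕ} {β h : ℝ} (hβ : 0 < β) (hh : 0 ≤ h) (g : E N) :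
    Continuous (fun ξ : E N => hat β h g ξ) := by
  have h1 : Continuous (fun ξ : E N => (g, ξ)) := by fun_prop
  have h2 := (hat_continuous (N := N) hβ hh).comp h1
  exact h2

/-- one site moment -/
private lemma PathR2_site {N : ℕ} (β h : ℝ) (hβ : 0 < β) (hh : 0 < h) (hh1 : h ≤ 1 / 4)
    (ν : Measure (E N)) (hν : Noise2 ν) (g : E N) :
    Integrable (fun ξ => ‖hat β h g ξ‖ ^ 2) ν ∧
    ∫ ξ, ‖hat β h g ξ‖ ^ 2 ∂ν ≤
      (1 - 2 * h) * ‖g‖ ^ 2 + 2 * (((N : ℝ) + 2) * (((N : ℝ) + 2) ^ (1 / β)) ^ 2) * h := by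
  have := hν.prob
  have hsq := hν.int
  set K : ℝ := (N : ℝ) + 2 with hK
  have hK1 : 1 ≤ K := by rw [hK]; have : (0 : ℝ) ≤ N := by positivity
                         linarith
  have hid : Integrable (fun ξ : E N => ξ) ν := by
    refine Integrable.mono' ((integrable_const (1 : ℝ)).add hsq) aestronglyMeasurable_id
      (Filter.Eventually.of_forall fun ξ => ?_)
    simp only [Pi.add_apply]
    nlinarith [norm_nonneg ξ, sq_nonneg (‖ξ‖ - 1)]
  have hinn : Integrable (fun ξ : E N => (inner ℝ g ξ : ℝ)) ν := hid.const_inner g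
  have hexp : ∀ ξ : E N, ‖g + (Real.sqrt h * ‖g‖) • ξ‖ ^ 2 =
      ‖g‖ ^ 2 + 2 * (Real.sqrt h * ‖g‖) * (inner ℝ g ξ : ℝ) + h * ‖g‖ ^ 2 * ‖ξ‖ ^ 2 := by
    intro ξ
    rw [norm_add_sq_real, inner_smul_right, norm_smul, Real.norm_eq_abs, mul_pow, sq_abs, mul_pow,
      Real.sq_sqrt hh.le]
    ring
  have hXint : Integrable (fun ξ : E N => ‖g + (Real.sqrt h * ‖g‖) • ξ‖ ^ 2) ν := by
    simp_rw [hexp]
    exact ((integrable_const _).add (hinn.const_mul _)).add (hsq.const_mul _)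
  have hXval : ∫ ξ, ‖g + (Real.sqrt h * ‖g‖) • ξ‖ ^ 2 ∂ν ≤ (1 + N * h) * ‖g‖ ^ 2 := by
    have hi1 : Integrable (fun ξ : E N => 2 * (Real.sqrt h * ‖g‖) * (inner ℝ g ξ : ℝ)) ν :=
      hinn.const_mul _
    have hi2 : Integrable (fun ξ : E N => h * ‖g‖ ^ 2 * ‖ξ‖ ^ 2) ν := hsq.const_mul _
    have hi3 : Integrable (fun ξ : E N => ‖g‖ ^ 2 + 2 * (Real.sqrt h * ‖g‖) * (inner ℝ g ξ : ℝ)) ν :=
      (integrable_const _).add hi1
    have e1 : ∫ ξ : E N, (‖g‖ ^ 2 + 2 * (Real.sqrt h * ‖g‖) * (inner ℝ g ξ : ℝ) +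
        h * ‖g‖ ^ 2 * ‖ξ‖ ^ 2) ∂ν = ∫ ξ : E N, (‖g‖ ^ 2 + 2 * (Real.sqrt h * ‖g‖) *
        (inner ℝ g ξ : ℝ)) ∂ν + ∫ ξ : E N, h * ‖g‖ ^ 2 * ‖ξ‖ ^ 2 ∂ν := integral_add hi3 hi2
    have e2 : ∫ ξ : E N, (‖g‖ ^ 2 + 2 * (Real.sqrt h * ‖g‖) * (inner ℝ g ξ : ℝ)) ∂ν =
        ∫ _ξ : E N, ‖g‖ ^ 2 ∂ν + ∫ ξ : E N, 2 * (Real.sqrt h * ‖g‖) * (inner ℝ g ξ : ℝ) ∂ν :=
      integral_add (integrable_const _) hi1
    have e3 : ∫ ξ : E N, (inner ℝ g ξ : ℝ) ∂ν = 0 := by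
      rw [integral_inner hid g, hν.mean, inner_zero_right]
    have e0 : ∫ ξ, ‖g + (Real.sqrt h * ‖g‖) • ξ‖ ^ 2 ∂ν = ‖g‖ ^ 2 + h * ‖g‖ ^ 2 *
        ∫ ξ, ‖ξ‖ ^ 2 ∂ν := by
      rw [integral_congr_ae (Filter.Eventually.of_forall hexp), e1, e2, integral_const_mul,
        integral_const_mul, e3]
      simp
    rw [e0]
    have h2 : h * ‖g‖ ^ 2 * ∫ ξ, ‖ξ‖ ^ 2 ∂ν ≤ h * ‖g‖ ^ 2 * N :=
      mul_le_mul_of_nonneg_left hν.mom (by positivity)
    linarith
  have hcont : Continuous (fun ξ : E N => hat β h g ξ) := PathR2_cont hβ hh.le g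
  have hint : Integrable (fun ξ => ‖hat β h g ξ‖ ^ 2) ν := by
    refine Integrable.mono' (hXint.add (integrable_const (2 * h * (K * (K ^ (1 / β)) ^ 2))))
      (hcont.norm.pow 2).aestronglyMeasurable (Filter.Eventually.of_forall fun ξ => ?_)
    have h1 := PathR2_point β h K hβ hh.le hK1 g ξ
    have h2 : 0 ≤ 2 * K * h * ‖hat β h g ξ‖ ^ 2 := by positivity
    rw [Real.norm_eq_abs, abs_of_nonneg (by positivity)]
    simp only [Pi.add_apply]
    linarith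
  refine ⟨hint, ?_⟩
  have hmain : (1 + 2 * K * h) * ∫ ξ, ‖hat β h g ξ‖ ^ 2 ∂ν ≤
      (1 + N * h) * ‖g‖ ^ 2 + 2 * h * (K * (K ^ (1 / β)) ^ 2) := by
    rw [← integral_const_mul]
    calc ∫ ξ, (1 + 2 * K * h) * ‖hat β h g ξ‖ ^ 2 ∂ν
        ≤ ∫ ξ, (‖g + (Real.sqrt h * ‖g‖) • ξ‖ ^ 2 + 2 * h * (K * (K ^ (1 / β)) ^ 2)) ∂ν := by
          refine integral_mono (hint.const_mul _) (hXint.add (integrable_const _)) fun ξ => ?_
          exact PathR2_point β h K hβ hh.le hK1 g ξ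
      _ = ∫ ξ, ‖g + (Real.sqrt h * ‖g‖) • ξ‖ ^ 2 ∂ν + 2 * h * (K * (K ^ (1 / β)) ^ 2) := by
          rw [integral_add hXint (integrable_const _)]
          simp
      _ ≤ _ := by linarith
  have hKh : 0 ≤ K * h := by positivity
  have hpos : 0 < 1 + 2 * K * h := by positivity
  have hC : 0 ≤ K * (K ^ (1 / β)) ^ 2 := by positivity
  set C := K * (K ^ (1 / β)) ^ 2 with hCdef
  have hg : 0 ≤ ‖g‖ ^ 2 := by positivity
  have hN : (N : ℝ) = K - 2 := by rw [hK]; ring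
  have hco : (1 + N * h) ≤ (1 - 2 * h) * (1 + 2 * K * h) := by
    rw [hN]
    nlinarith
  refine le_of_mul_le_mul_left (hmain.trans ?_) hpos
  have h5 : (1 + N * h) * ‖g‖ ^ 2 ≤ (1 - 2 * h) * (1 + 2 * K * h) * ‖g‖ ^ 2 :=
    mul_le_mul_of_nonneg_right hco hg
  have h6 : 0 ≤ 2 * K * h * (2 * C * h) := by positivity
  calc (1 + N * h) * ‖g‖ ^ 2 + 2 * h * C
      ≤ (1 - 2 * h) * (1 + 2 * K * h) * ‖g‖ ^ 2 + 2 * h * C := by linarith
    _ ≤ (1 - 2 * h) * (1 + 2 * K * h) * ‖g‖ ^ 2 + 2 * h * C + 2 * K * h * (2 * C * h) := by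
        linarith
    _ = (1 + 2 * K * h) * ((1 - 2 * h) * ‖g‖ ^ 2 + 2 * C * h) := by ring

/-- bound of the coupling at one site -/
private lemma PathR2_coup {N d : ℕ} {ι : Type} [Fintype ι] (net : Net ι d) (G : ι → E N) (z : ι) :
    ‖coup net G z‖ ^ 2 ≤ 4 * d * ∑ w ∈ net.nb z, ‖G w‖ ^ 2 + 8 * d ^ 2 * ‖G z‖ ^ 2 := by
  have h1 : ‖coup net G z‖ ≤ ∑ w ∈ net.nb z, ‖G w‖ + 2 * d * ‖G z‖ := by
    unfold coup
    refine (norm_sub_le _ _).trans ?_
    have h2 := norm_sum_le (net.nb z) G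
    have h3 : ‖((2 * d : ℕ) : ℝ) • G z‖ = 2 * d * ‖G z‖ := by
      rw [norm_smul, Real.norm_eq_abs, abs_of_nonneg (by positivity)]
      push_cast
      ring
    linarith
  have h2 : (∑ w ∈ net.nb z, ‖G w‖) ^ 2 ≤ (net.nb z).card * ∑ w ∈ net.nb z, ‖G w‖ ^ 2 :=
    sq_sum_le_card_mul_sum_sq
  have h3 : ((net.nb z).card : ℝ) ≤ 2 * d := by exact_mod_cast net.nb_card z
  have h4 : 0 ≤ ∑ w ∈ net.nb z, ‖G w‖ ^ 2 := Finset.sum_nonneg fun _ _ => by positivity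
  have h5 : (∑ w ∈ net.nb z, ‖G w‖) ^ 2 ≤ 2 * d * ∑ w ∈ net.nb z, ‖G w‖ ^ 2 :=
    h2.trans (mul_le_mul_of_nonneg_right h3 h4)
  have h6 : ‖coup net G z‖ ^ 2 ≤ (∑ w ∈ net.nb z, ‖G w‖ + 2 * d * ‖G z‖) ^ 2 :=
    pow_le_pow_left₀ (norm_nonneg _) h1 2
  have h7 := sq_nonneg (∑ w ∈ net.nb z, ‖G w‖ - 2 * d * ‖G z‖)
  nlinarith

/-- weighted sum of the couplings -/
private lemma PathR2_sum {N d : ℕ} {ι : Type} [Fintype ι] (net : Net ι d) (G : ι → E N) (x : ι) :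
    ∑ z, (1 / 2 : ℝ) ^ net.dist x z * ‖coup net G z‖ ^ 2 ≤ 24 * (d : ℝ) ^ 2 * R2f net G x := by
  classical
  have hw : ∀ z w, w ∈ net.nb z →
      (1 / 2 : ℝ) ^ net.dist x z ≤ 2 * (1 / 2 : ℝ) ^ net.dist x w := by
    intro z w hzw
    have h1 := net.dist_tri x z w
    rw [net.dist_nb z w hzw] at h1
    have h2 : (1 / 2 : ℝ) ^ (net.dist x z + 1) ≤ (1 / 2 : ℝ) ^ net.dist x w :=
      pow_le_pow_of_le_one (by norm_num) (by norm_num) h1
    rw [pow_succ] at h2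
    linarith
  have h1 : ∑ z, (1 / 2 : ℝ) ^ net.dist x z * ‖coup net G z‖ ^ 2 ≤
      ∑ z, (4 * d * (∑ w ∈ net.nb z, (1 / 2 : ℝ) ^ net.dist x z * ‖G w‖ ^ 2) +
        8 * d ^ 2 * ((1 / 2 : ℝ) ^ net.dist x z * ‖G z‖ ^ 2)) := by
    refine Finset.sum_le_sum fun z _ => ?_
    have h2 := PathR2_coup net G z
    have h3 : 0 ≤ (1 / 2 : ℝ) ^ net.dist x z := by positivity
    calc (1 / 2 : ℝ) ^ net.dist x z * ‖coup net G z‖ ^ 2
        ≤ (1 / 2 : ℝ) ^ net.dist x z *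
          (4 * d * ∑ w ∈ net.nb z, ‖G w‖ ^ 2 + 8 * d ^ 2 * ‖G z‖ ^ 2) :=
          mul_le_mul_of_nonneg_left h2 h3
      _ = _ := by rw [← Finset.mul_sum]; ring
  refine h1.trans ?_
  rw [Finset.sum_add_distrib, ← Finset.mul_sum, ← Finset.mul_sum]
  have h2 : ∑ z, ∑ w ∈ net.nb z, (1 / 2 : ℝ) ^ net.dist x z * ‖G w‖ ^ 2 ≤
      4 * d * R2f net G x := by
    calc ∑ z, ∑ w ∈ net.nb z, (1 / 2 : ℝ) ^ net.dist x z * ‖G w‖ ^ 2
        ≤ ∑ z, ∑ w ∈ net.nb z, 2 * ((1 / 2 : ℝ) ^ net.dist x w * ‖G w‖ ^ 2) := by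
          refine Finset.sum_le_sum fun z _ => Finset.sum_le_sum fun w hwz => ?_
          have h3 := hw z w hwz
          have h4 : 0 ≤ ‖G w‖ ^ 2 := by positivity
          calc (1 / 2 : ℝ) ^ net.dist x z * ‖G w‖ ^ 2
              ≤ 2 * (1 / 2 : ℝ) ^ net.dist x w * ‖G w‖ ^ 2 := mul_le_mul_of_nonneg_right h3 h4
            _ = _ := by ring
      _ = ∑ z, ∑ w, if w ∈ net.nb z then 2 * ((1 / 2 : ℝ) ^ net.dist x w * ‖G w‖ ^ 2) else 0 := by
          refine Finset.sum_congr rfl fun z _ => ?_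
          rw [Finset.sum_ite_mem, Finset.univ_inter]
      _ = ∑ w, ∑ z, if z ∈ net.nb w then 2 * ((1 / 2 : ℝ) ^ net.dist x w * ‖G w‖ ^ 2) else 0 := by
          rw [Finset.sum_comm]
          refine Finset.sum_congr rfl fun w _ => Finset.sum_congr rfl fun z _ => ?_
          have : w ∈ net.nb z ↔ z ∈ net.nb w := ⟨net.nb_symm z w, net.nb_symm w z⟩
          simp only [this]
      _ = ∑ w, ((net.nb w).card : ℝ) * (2 * ((1 / 2 : ℝ) ^ net.dist x w * ‖G w‖ ^ 2)) := by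
          refine Finset.sum_congr rfl fun w _ => ?_
          rw [Finset.sum_ite_mem, Finset.univ_inter, Finset.sum_const, nsmul_eq_mul]
      _ ≤ ∑ w, (2 * d : ℝ) * (2 * ((1 / 2 : ℝ) ^ net.dist x w * ‖G w‖ ^ 2)) := by
          refine Finset.sum_le_sum fun w _ => ?_
          have h3 : ((net.nb w).card : ℝ) ≤ 2 * d := by exact_mod_cast net.nb_card w
          exact mul_le_mul_of_nonneg_right h3 (by positivity)
      _ = 4 * d * R2f net G x := by
          unfold R2f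
          rw [← Finset.mul_sum, ← Finset.mul_sum]
          ring
  have h3 : ∑ z, (1 / 2 : ℝ) ^ net.dist x z * ‖G z‖ ^ 2 = R2f net G x := rfl
  rw [h3]
  have h4 : 4 * (d : ℝ) * ∑ z, ∑ w ∈ net.nb z, (1 / 2 : ℝ) ^ net.dist x z * ‖G w‖ ^ 2 ≤
      4 * d * (4 * d * R2f net G x) := mul_le_mul_of_nonneg_left h2 (by positivity)
  nlinarith

theorem r2_drift (N d : ℕ) (β : ℝ) (hβ : 0 < β) : ∃ k0 h0 C : ℝ, 0 < k0 ∧ k0 ≤ 1 ∧ 0 < h0 ∧ h0 ≤ 1 ∧
    0 < C ∧
    ∀ {ι : Type} [Fintype ι] (net : Net ι d) (h k : ℝ) (ν : Measure (E N)), 0 < h → h < h0 →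
      0 ≤ k → k ≤ k0 → Noise2 ν → ∀ (G : ι → E N) (x : ι),
      Integrable (fun ξ => R2f net (stp net β h k G ξ) x) (pim ι ν) ∧
      ∫ ξ, R2f net (stp net β h k G ξ) x ∂(pim ι ν) ≤ (1 - 1 / 2 * h) * R2f net G x + C * h := by
  set CK : ℝ := ((N : ℝ) + 2) * (((N : ℝ) + 2) ^ (1 / β)) ^ 2 with hCK
  have hCKpos : 0 < CK := by positivity
  set Cd : ℝ := 24 * (d : ℝ) ^ 2 + 1 with hCd
  have hCd1 : 1 ≤ Cd := by rw [hCd]; have : 0 ≤ 24 * (d : ℝ) ^ 2 := by positivity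
                           linarith
  refine ⟨1 / (2 * Cd), 1 / 4, 4 * CK * 3 ^ d, by positivity, ?_, by norm_num, by norm_num,
    by positivity, ?_⟩
  · rw [div_le_one (by positivity)]; linarith
  intro ι _ net h k ν hh hh1 hk hk1 hν G x
  have := hν.prob
  have hh1' : h ≤ 1 / 4 := hh1.le
  -- one site
  have hcont : ∀ z, Continuous (fun v : E N => hat β h (G z) v + (k * h) • coup net G z) := by
    intro z
    exact (PathR2_cont hβ hh.le (G z)).add continuous_const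
  have hpt : ∀ z (v : E N), ‖hat β h (G z) v + (k * h) • coup net G z‖ ^ 2 ≤
      (1 + h) * ‖hat β h (G z) v‖ ^ 2 + 2 * k ^ 2 * h * ‖coup net G z‖ ^ 2 := by
    intro z v
    have h1 : ‖hat β h (G z) v + (k * h) • coup net G z‖ ≤
        ‖hat β h (G z) v‖ + k * h * ‖coup net G z‖ := by
      refine (norm_add_le _ _).trans ?_
      rw [norm_smul, Real.norm_eq_abs, abs_of_nonneg (by positivity)]
    have h2 := pow_le_pow_left₀ (norm_nonneg _) h1 2
    refine h2.trans ?_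
    set a := ‖hat β h (G z) v‖
    set c := ‖coup net G z‖
    have ha : 0 ≤ a := norm_nonneg _
    have hc : 0 ≤ c := norm_nonneg _
    have h3 : 0 ≤ h * (a - k * c) ^ 2 := by positivity
    have h4 : 0 ≤ k ^ 2 * c ^ 2 := by positivity
    have h5 : 0 ≤ (h - h ^ 2) * (k ^ 2 * c ^ 2) := by
      apply mul_nonneg _ h4
      nlinarith
    nlinarith
  have hsite : ∀ z, Integrable (fun v : E N => ‖hat β h (G z) v + (k * h) • coup net G z‖ ^ 2) ν ∧
      ∫ v, ‖hat β h (G z) v + (k * h) • coup net G z‖ ^ 2 ∂ν ≤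
        (1 - h) * ‖G z‖ ^ 2 + 4 * CK * h + 2 * k ^ 2 * h * ‖coup net G z‖ ^ 2 := by
    intro z
    obtain ⟨hi, hb⟩ := PathR2_site β h hβ hh hh1' ν hν (G z)
    have hi2 : Integrable (fun v : E N => (1 + h) * ‖hat β h (G z) v‖ ^ 2 +
        2 * k ^ 2 * h * ‖coup net G z‖ ^ 2) ν := (hi.const_mul _).add (integrable_const _)
    have hi1 : Integrable (fun v : E N => ‖hat β h (G z) v + (k * h) • coup net G z‖ ^ 2) ν := by
      refine Integrable.mono' hi2 (((hcont z).norm.pow 2).aestronglyMeasurable)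
        (Filter.Eventually.of_forall fun v => ?_)
      rw [Real.norm_eq_abs, abs_of_nonneg (by positivity)]
      exact hpt z v
    refine ⟨hi1, ?_⟩
    calc ∫ v, ‖hat β h (G z) v + (k * h) • coup net G z‖ ^ 2 ∂ν
        ≤ ∫ v, ((1 + h) * ‖hat β h (G z) v‖ ^ 2 + 2 * k ^ 2 * h * ‖coup net G z‖ ^ 2) ∂ν :=
          integral_mono hi1 hi2 fun v => hpt z v
      _ = (1 + h) * ∫ v, ‖hat β h (G z) v‖ ^ 2 ∂ν + 2 * k ^ 2 * h * ‖coup net G z‖ ^ 2 := by
          rw [integral_add (hi.const_mul _) (integrable_const _), integral_const_mul]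
          simp
      _ ≤ (1 + h) * ((1 - 2 * h) * ‖G z‖ ^ 2 + 2 * CK * h) +
          2 * k ^ 2 * h * ‖coup net G z‖ ^ 2 := by
          have := mul_le_mul_of_nonneg_left hb (by linarith : (0 : ℝ) ≤ 1 + h)
          linarith
      _ ≤ _ := by
          have h1 : 0 ≤ h ^ 2 * ‖G z‖ ^ 2 := by positivity
          have h2 : 0 ≤ (1 - h) * (CK * h) := mul_nonneg (by linarith) (by positivity)
          nlinarith
  -- the product
  have hterm : ∀ z, Integrable (fun ξ : ι → E N =>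
      (1 / 2 : ℝ) ^ net.dist x z * ‖stp net β h k G ξ z‖ ^ 2) (pim ι ν) := by
    intro z
    refine Integrable.const_mul ?_ _
    exact integrable_comp_eval (μ := fun _ : ι => ν) (i := z)
      (f := fun v : E N => ‖hat β h (G z) v + (k * h) • coup net G z‖ ^ 2) (hsite z).1
  have htv : ∀ z, ∫ ξ, ‖stp net β h k G ξ z‖ ^ 2 ∂(pim ι ν) =
      ∫ v, ‖hat β h (G z) v + (k * h) • coup net G z‖ ^ 2 ∂ν := by
    intro z
    exact integral_comp_eval (μ := fun _ : ι => ν) (i := z)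
      (f := fun v : E N => ‖hat β h (G z) v + (k * h) • coup net G z‖ ^ 2)
      (hsite z).1.aestronglyMeasurable
  refine ⟨integrable_finsetSum _ fun z _ => hterm z, ?_⟩
  unfold R2f
  rw [integral_finsetSum _ fun z _ => hterm z]
  simp_rw [integral_const_mul, htv]
  have hS : ∑ z, (1 / 2 : ℝ) ^ net.dist x z *
      ∫ v, ‖hat β h (G z) v + (k * h) • coup net G z‖ ^ 2 ∂ν ≤
      ∑ z, (1 / 2 : ℝ) ^ net.dist x z *
        ((1 - h) * ‖G z‖ ^ 2 + 4 * CK * h + 2 * k ^ 2 * h * ‖coup net G z‖ ^ 2) :=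
    Finset.sum_le_sum fun z _ => mul_le_mul_of_nonneg_left (hsite z).2 (by positivity)
  refine hS.trans ?_
  have hsplit : ∑ z, (1 / 2 : ℝ) ^ net.dist x z *
        ((1 - h) * ‖G z‖ ^ 2 + 4 * CK * h + 2 * k ^ 2 * h * ‖coup net G z‖ ^ 2) =
      (1 - h) * (∑ z, (1 / 2 : ℝ) ^ net.dist x z * ‖G z‖ ^ 2) +
      4 * CK * h * (∑ z, (1 / 2 : ℝ) ^ net.dist x z) +
      2 * k ^ 2 * h * (∑ z, (1 / 2 : ℝ) ^ net.dist x z * ‖coup net G z‖ ^ 2) := by
    rw [Finset.mul_sum, Finset.mul_sum, Finset.mul_sum, ← Finset.sum_add_distrib,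
      ← Finset.sum_add_distrib]
    refine Finset.sum_congr rfl fun z _ => ?_
    ring
  rw [hsplit]
  have hR : 0 ≤ ∑ z, (1 / 2 : ℝ) ^ net.dist x z * ‖G z‖ ^ 2 :=
    Finset.sum_nonneg fun z _ => by positivity
  have h1 := PathR2_sum net G x
  unfold R2f at h1
  set R := ∑ z, (1 / 2 : ℝ) ^ net.dist x z * ‖G z‖ ^ 2 with hRdef
  have h2 := net.sum_half x
  have h3 : 4 * CK * h * (∑ z, (1 / 2 : ℝ) ^ net.dist x z) ≤ 4 * CK * h * 3 ^ d :=
    mul_le_mul_of_nonneg_left h2 (by positivity)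
  have h4 : 2 * k ^ 2 * h * (∑ z, (1 / 2 : ℝ) ^ net.dist x z * ‖coup net G z‖ ^ 2) ≤
      2 * k ^ 2 * h * (Cd * R) := by
    apply mul_le_mul_of_nonneg_left _ (by positivity)
    rw [hCd]
    linarith
  have h5 : k ^ 2 * Cd ≤ 1 / 4 := by
    have h6 : k ^ 2 ≤ (1 / (2 * Cd)) ^ 2 := pow_le_pow_left₀ hk hk1 2
    have h7 : (1 / (2 * Cd)) ^ 2 * Cd ≤ 1 / 4 := by
      have : (1 / (2 * Cd)) ^ 2 * Cd = 1 / (4 * Cd) := by field_simp; norm_num
      rw [this, div_le_div_iff₀ (by positivity) (by norm_num)]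
      linarith
    have h8 : k ^ 2 * Cd ≤ (1 / (2 * Cd)) ^ 2 * Cd :=
      mul_le_mul_of_nonneg_right h6 (by linarith)
    linarith
  have h6 : 2 * k ^ 2 * h * (Cd * R) ≤ 1 / 2 * h * R := by
    have h7 : 0 ≤ h * R := by positivity
    have h8 := mul_le_mul_of_nonneg_right h5 h7
    nlinarith
  linarith

end Dyn

end
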