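import Pool.Agent.Lib_MP_36b788_m.M05
import Pool.Agent.Lib_MP_36b788_m.M07
import Pool.Agent.Lib_MP_36b788_m.M21

/-!
# MP_36b788_pr, stationary limit: merged library part M24

Concatenation of smaller files (each in its own section), only to save build time.
-/

/-! ### from `Lib_MP_36b788c.Grw2` -/

section

/-!
# Growth of differences over one block (see the docstring of `Grw.lean`)
-/

open MeasureTheory ProbabilityTheory
open scoped ENNReal

namespace DynC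

open Dyn

private theorem Grw2_re_gC : gC.map (fun z : ℂ => z.re) = gaussianReal 0 1 := by
  unfold gC
  rw [Measure.map_map Complex.measurable_re measurable_mkC]
  have h : (fun z : ℂ => z.re) ∘ (fun p : ℝ × ℝ => (⟨p.1, p.2⟩ : ℂ)) = Prod.fst := by
    funext p
    rfl
  rw [h, Measure.map_fst_prod, measure_univ, one_smul]

private theorem Grw2_re_meas (d L : ℕ) :
    Measurable (fun (η : boxS d L → ℂ) (x : boxS d L) => (η x).re) :=
  measurable_pi_lambda _ fun x => Complex.measurable_re.comp (measurable_pi_apply x)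

private theorem Grw2_re_pi (d L : ℕ) :
    (Measure.pi fun _ : boxS d L => gC).map (fun (η : boxS d L → ℂ) (x : boxS d L) => (η x).re) =
      nz (boxS d L) := by
  have h := Measure.pi_map_pi (μ := fun _ : boxS d L => gC)
    (f := fun _ : boxS d L => fun z : ℂ => z.re) (fun _ => Complex.measurable_re.aemeasurable)
  unfold nz
  refine h.trans ?_
  congr 1
  funext x
  exact Grw2_re_gC

/-- the real parts of the complex noise are standard Gaussian fields -/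
theorem re_map (d L : ℕ) :
    (PI (Measure.pi fun _ : boxS d L => gC)).map (fun ω j x => (ω j x).re) =
      PI (nz (boxS d L)) := by
  haveI hp : IsProbabilityMeasure ((Measure.pi fun _ : boxS d L => gC).map
      (fun (η : boxS d L → ℂ) (x : boxS d L) => (η x).re)) := by
    rw [Grw2_re_pi]
    infer_instance
  have h := PI_map (μ := Measure.pi fun _ : boxS d L => gC)
    (fun (η : boxS d L → ℂ) (x : boxS d L) => (η x).re) (Grw2_re_meas d L)
  refine h.trans ?_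
  unfold PI
  congr 1
  funext i
  exact Grw2_re_pi d L

private theorem Grw2_path {d : ℕ} {F : Fam d} {β k : ℝ} (S : PSys F β k) (h : ℝ) (L : ℕ)
    (hk : 0 < k) (hk1 : k < 1) (hh : 0 < h) (G : (boxS d L → F.V) × (boxS d L → F.V))
    (y : boxS d L) (hG : ∀ x, x ≠ y → G.1 x = G.2 x) (ω : ℕ → boxS d L → S.Ωp) (n : ℕ)
    (x : boxS d L) :
    ‖(S.tr h L G ω n).1 x - (S.tr h L G ω n).2 x‖ ≤
      ‖G.1 y - G.2 y‖ * (1 + 4 * d * k ^ (1 / 8 : ℝ) * h) ^ n *
        Real.exp (ell k * ((boxMSet d L).lpp (1 / 8) (fun _ => 0)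
          (fun j z => S.b h (ω j z) / ell k) n x + -(3 / 4 * ((boxNet d L).dist x y : ℝ)))) := by
  refine grow_path d L k h (1 / 8) (1 / 8) (3 / 4) ‖G.1 y - G.2 y‖ hk hk1 hh (norm_nonneg _)
    (by norm_num) (by norm_num) (by norm_num) (by norm_num)
    (fun j z => S.b h (ω j z)) (fun j => dif (S.tr h L G ω j).1 (S.tr h L G ω j).2)
    (fun j => S.dd h L (S.tr h L G ω j) (ω j) hh)
    (fun x => -(3 / 4 * ((boxNet d L).dist x y : ℝ))) ?_ ?_ n x
  · intro x y' hy'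
    have h1 := (boxNet d L).dist_tri x y' y
    rw [(boxNet d L).dist_nb x y' hy'] at h1
    have h2 : ((boxNet d L).dist x y : ℝ) ≤ 1 + ((boxNet d L).dist y' y : ℝ) := by
      exact_mod_cast h1
    linarith
  · intro x
    change ‖G.1 x - G.2 x‖ ≤ _
    by_cases hx : x = y
    · subst hx
      rw [(boxNet d L).dist_self]
      simp
    · rw [hG x hx, sub_self, norm_zero]
      positivity

private theorem Grw2_ell {k : ℝ} (hk : 0 < k) (h : k < Real.exp (-1)) : 1 ≤ ell k := by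
  unfold ell
  rw [one_div, Real.log_inv]
  have h1 : Real.log k ≤ -1 := by
    rw [← Real.log_exp (-1)]
    exact Real.log_le_log hk h.le
  linarith

private theorem Grw2_exp_ell {k : ℝ} (hk : 0 < k) : k = Real.exp (-ell k) := by
  unfold ell
  rw [one_div, Real.log_inv, neg_neg, Real.exp_log hk]

private theorem Grw2_k0 (d : ℕ) (T : ℝ) (hT : 1 ≤ T) : ∃ k0 : ℝ, 0 < k0 ∧ k0 < 1 ∧
    ∀ k, 0 < k → k < k0 → 1 ≤ ell k ∧ 4 * (d : ℝ) * k ^ (1 / 8 : ℝ) * (T * ell k ^ 2 + 1) ≤ 1 := by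
  set B : ℝ := 4100 * d * T + 1 with hB
  have hd : (0 : ℝ) ≤ d := Nat.cast_nonneg d
  have hB1 : 1 ≤ B := by
    have : 0 ≤ 4100 * (d : ℝ) * T := by positivity
    linarith
  have hB0 : 0 < B := by linarith
  refine ⟨min (Real.exp (-1)) ((1 / B) ^ 16), by positivity, ?_, ?_⟩
  · refine (min_le_left _ _).trans_lt ?_
    rw [Real.exp_lt_one_iff]
    norm_num
  · intro k hk hk0
    have he := Grw2_ell hk (hk0.trans_le (min_le_left _ _))
    refine ⟨he, ?_⟩
    have hk1 : k < 1 := by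
      refine (hk0.trans_le (min_le_left _ _)).trans ?_
      rw [Real.exp_lt_one_iff]
      norm_num
    set z : ℝ := k ^ (1 / 16 : ℝ) with hz
    have hz0 : 0 < z := Real.rpow_pos_of_pos hk _
    have hz8 : k ^ (1 / 8 : ℝ) = z ^ 2 := by
      rw [hz, ← Real.rpow_natCast, ← Real.rpow_mul hk.le]
      norm_num
    have hzB : z ≤ 1 / B := by
      have h1 : k ≤ (1 / B) ^ 16 := (hk0.trans_le (min_le_right _ _)).le
      have h2 : z ≤ ((1 / B) ^ 16) ^ (1 / 16 : ℝ) := Real.rpow_le_rpow hk.le h1 (by norm_num)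
      rwa [← Real.rpow_natCast, ← Real.rpow_mul (by positivity),
        show ((16 : ℕ) : ℝ) * (1 / 16) = 1 by norm_num, Real.rpow_one] at h2
    have hell2 : ell k ^ 2 * z ≤ 1024 := by
      have h1 : ell k ≤ (1 / k) ^ (1 / 32 : ℝ) / (1 / 32) := by
        unfold ell
        exact Real.log_le_rpow_div (by positivity) (by norm_num)
      have h2 : ell k ^ 2 ≤ ((1 / k) ^ (1 / 32 : ℝ) / (1 / 32)) ^ 2 :=
        pow_le_pow_left₀ (by linarith) h1 2
      have h3 : ((1 / k) ^ (1 / 32 : ℝ) / (1 / 32)) ^ 2 = 1024 * z⁻¹ := by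
        have h4 : ((1 / k) ^ (1 / 32 : ℝ)) ^ 2 = z⁻¹ := by
          rw [← Real.rpow_natCast, ← Real.rpow_mul (by positivity), one_div k,
            Real.inv_rpow hk.le, hz]
          norm_num
        rw [div_pow, h4]
        norm_num
        ring
      rw [h3] at h2
      calc ell k ^ 2 * z ≤ 1024 * z⁻¹ * z := mul_le_mul_of_nonneg_right h2 hz0.le
        _ = 1024 := by rw [mul_assoc, inv_mul_cancel₀ hz0.ne', mul_one]
    have hz1 : z ≤ 1 := Real.rpow_le_one hk.le hk1.le (by norm_num)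
    rw [hz8]
    have h5 : z ^ 2 * (T * ell k ^ 2 + 1) ≤ 1025 * T * z := by
      have h6 : z ^ 2 * (T * ell k ^ 2 + 1) = z * (T * (ell k ^ 2 * z) + z) := by ring
      rw [h6]
      have h7 : T * (ell k ^ 2 * z) + z ≤ 1025 * T := by
        have h8 : T * (ell k ^ 2 * z) ≤ T * 1024 :=
          mul_le_mul_of_nonneg_left hell2 (by linarith)
        linarith
      have h9 := mul_le_mul_of_nonneg_left h7 hz0.le
      linarith
    have h10 : 4 * (d : ℝ) * z ^ 2 * (T * ell k ^ 2 + 1) ≤ 4100 * d * T * z := by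
      have h11 := mul_le_mul_of_nonneg_left h5 (by positivity : (0 : ℝ) ≤ 4 * d)
      linarith
    refine h10.trans ?_
    have h12 : 4100 * (d : ℝ) * T * z ≤ 4100 * d * T * (1 / B) :=
      mul_le_mul_of_nonneg_left hzB (by positivity)
    refine h12.trans ?_
    rw [mul_one_div, div_le_one hB0]
    linarith

/-- `N = 2`; block length `n h ≤ T ell² + 1` -/
theorem gD2 (d : ℕ) (β : ℝ) (hβ : 0 < β) : ∃ C a0 : ℝ, 0 < C ∧ 0 < a0 ∧ ∀ T : ℝ, 1 ≤ T →
    ∃ k0 : ℝ, 0 < k0 ∧ k0 < 1 ∧ ∀ (k : ℝ) (hk : 0 < k), k < k0 → ∀ a, 0 < a → a ≤ a0 →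
    ∀ L, ∃ h0 : ℝ, 0 < h0 ∧ ∀ h, 0 < h → h < h0 →
    ∀ (G : (boxS d L → ℂ) × (boxS d L → ℂ)) (y : boxS d L), (∀ x, x ≠ y → G.1 x = G.2 x) →
    ∀ n : ℕ, n * h ≤ T * ell k ^ 2 + 1 → ∀ x,
      ∫⁻ ω, ENNReal.ofReal (‖((PS2 d β k hβ hk.le).tr h L G ω n).1 x -
          ((PS2 d β k hβ hk.le).tr h L G ω n).2 x‖ ^ (2 * (a / ell k)))
          ∂(PI ((PS2 d β k hβ hk.le).mu L)) ≤
        ENNReal.ofReal (Real.exp (C * a * T) * Real.exp (-(3 / 2 * a * (boxNet d L).dist x y)) *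
          ‖G.1 y - G.2 y‖ ^ (2 * (a / ell k))) := by
  obtain ⟨lam0, C0, hlam0, hC0, hlpp⟩ := lpp_exp d (1 / 8) (by norm_num)
  refine ⟨2 + 6 * C0, lam0 / 2, by positivity, by positivity, ?_⟩
  intro T hT
  obtain ⟨k0, hk0, hk01, hkk⟩ := Grw2_k0 d T hT
  refine ⟨k0, hk0, hk01, ?_⟩
  intro k hk hkk0 a ha ha0 L
  obtain ⟨hell1, hkd⟩ := hkk k hk hkk0
  have hell : 0 < ell k := by linarith
  refine ⟨1 / lam0 ^ 2, by positivity, ?_⟩
  intro h hh hh0 G y hG n hn x
  set S := PS2 d β k hβ hk.le with hS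
  set v : ℝ := h / ell k ^ 2 with hv
  have hv0 : 0 < v := by positivity
  have hv1 : v ≤ 1 / lam0 ^ 2 := by
    refine le_trans ?_ hh0.le
    rw [hv]
    apply div_le_self hh.le
    nlinarith
  set A : ℝ := ‖G.1 y - G.2 y‖ with hA
  have hA0 : 0 ≤ A := norm_nonneg _
  set p : ℝ := 2 * (a / ell k) with hp
  have hp0 : 0 < p := by positivity
  set dxy : ℝ := ((boxNet d L).dist x y : ℝ) with hdxy
  set cst : ℝ := Real.exp (2 * a) * Real.exp (-(3 / 2 * a * dxy)) * A ^ p with hcst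
  have hcst0 : 0 ≤ cst := by positivity
  set W : (ℕ → boxS d L → ℝ) → ℝ := fun g => (boxMSet d L).lpp (1 / 8) (fun _ => 0) g n x with hW
  -- pathwise bound
  have hpt : ∀ ω : ℕ → boxS d L → ℂ,
      ‖(S.tr h L G ω n).1 x - (S.tr h L G ω n).2 x‖ ^ p ≤
        cst * Real.exp (2 * a * W (sc v (fun j z => (ω j z).re))) := by
    intro ω
    have h1 := Grw2_path S h L hk (hkk0.trans hk01) hh G y hG ω n x
    have hsc : (fun j z => S.b h (ω j z) / ell k) = sc v (fun j z => (ω j z).re) := by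
      funext j z
      change Real.sqrt h * (ω j z).re / ell k = Real.sqrt v * (ω j z).re
      rw [hv, Real.sqrt_div' _ (by positivity), Real.sqrt_sq hell.le]
      ring
    rw [hsc] at h1
    have h2 : (1 + 4 * (d : ℝ) * k ^ (1 / 8 : ℝ) * h) ^ n ≤ Real.exp 1 := by
      have hk8 : 0 ≤ k ^ (1 / 8 : ℝ) := Real.rpow_nonneg hk.le _
      have h3 : 1 + 4 * (d : ℝ) * k ^ (1 / 8 : ℝ) * h ≤
          Real.exp (4 * (d : ℝ) * k ^ (1 / 8 : ℝ) * h) := by
        have := Real.add_one_le_exp (4 * (d : ℝ) * k ^ (1 / 8 : ℝ) * h)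
        linarith
      calc (1 + 4 * (d : ℝ) * k ^ (1 / 8 : ℝ) * h) ^ n
          ≤ Real.exp (4 * (d : ℝ) * k ^ (1 / 8 : ℝ) * h) ^ n :=
            pow_le_pow_left₀ (by positivity) h3 n
        _ = Real.exp (4 * (d : ℝ) * k ^ (1 / 8 : ℝ) * (n * h)) := by
            rw [← Real.exp_nat_mul]
            congr 1
            ring
        _ ≤ Real.exp 1 := by
            apply Real.exp_le_exp.mpr
            refine le_trans ?_ hkd
            exact mul_le_mul_of_nonneg_left hn (by positivity)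
    set w : ℝ := W (sc v (fun j z => (ω j z).re)) with hw
    have h4 : ‖(S.tr h L G ω n).1 x - (S.tr h L G ω n).2 x‖ ≤
        A * Real.exp (1 + ell k * (w + -(3 / 4 * dxy))) := by
      refine h1.trans ?_
      rw [Real.exp_add, ← mul_assoc]
      exact mul_le_mul_of_nonneg_right (mul_le_mul_of_nonneg_left h2 hA0) (Real.exp_pos _).le
    have h5 := Real.rpow_le_rpow (norm_nonneg _) h4 hp0.le
    refine h5.trans ?_
    rw [Real.mul_rpow hA0 (Real.exp_pos _).le, ← Real.exp_mul, hcst]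
    have h6 : (1 + ell k * (w + -(3 / 4 * dxy))) * p =
        2 * a / ell k + (2 * a * w + -(3 / 2 * a * dxy)) := by
      rw [hp]
      field_simp
      ring
    rw [h6]
    have h7 : 2 * a / ell k ≤ 2 * a := div_le_self (by positivity) hell1
    have h8 : Real.exp (2 * a / ell k + (2 * a * w + -(3 / 2 * a * dxy))) ≤
        Real.exp (2 * a) * Real.exp (-(3 / 2 * a * dxy)) * Real.exp (2 * a * w) := by
      rw [← Real.exp_add, ← Real.exp_add]
      apply Real.exp_le_exp.mpr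
      linarith
    have h9 := mul_le_mul_of_nonneg_left h8 (Real.rpow_nonneg hA0 p)
    refine h9.trans (le_of_eq ?_)
    ring
  -- integrate
  have hΦ : Measurable (fun g : ℕ → boxS d L → ℝ =>
      ENNReal.ofReal (Real.exp (2 * a * W (sc v g)))) := by
    have hsm : Measurable (fun g : ℕ → boxS d L → ℝ => sc v g) := by
      unfold sc
      fun_prop
    exact (((measurable_lpp (boxMSet d L) (1 / 8) (fun _ => 0) n x).comp hsm).const_mul
      (2 * a)).exp.ennreal_ofReal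
  have hre : Measurable (fun (ω : ℕ → boxS d L → ℂ) (j : ℕ) (z : boxS d L) => (ω j z).re) := by
    refine measurable_pi_lambda _ fun j => ?_
    exact (Grw2_re_meas d L).comp (measurable_pi_apply j)
  have hint : ∫⁻ ω, ENNReal.ofReal (Real.exp (2 * a * W (sc v (fun j z => (ω j z).re))))
      ∂(PI (Measure.pi fun _ : boxS d L => gC)) ≤
      ENNReal.ofReal (Real.exp (C0 * (n * v + 1) * (2 * a))) := by
    have h1 := lintegral_map hΦ hre (μ := PI (Measure.pi fun _ : boxS d L => gC))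
    rw [re_map] at h1
    rw [← h1]
    refine le_trans (lintegral_mono fun g => ?_)
      (hlpp (boxS d L) (boxMSet d L) v hv0 hv1 n x (2 * a) (by positivity) (by linarith))
    apply ENNReal.ofReal_le_ofReal
    apply Real.exp_le_exp.mpr
    apply mul_le_mul_of_nonneg_left _ (by positivity)
    exact le_lppM (boxMSet d L) (1 / 8) (fun _ => 0) (sc v g) le_rfl x
  calc ∫⁻ ω, ENNReal.ofReal (‖(S.tr h L G ω n).1 x - (S.tr h L G ω n).2 x‖ ^ p) ∂(PI (S.mu L))
      ≤ ∫⁻ ω, ENNReal.ofReal cst *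
          ENNReal.ofReal (Real.exp (2 * a * W (sc v (fun j z => (ω j z).re))))
          ∂(PI (Measure.pi fun _ : boxS d L => gC)) := by
        refine lintegral_mono fun ω => ?_
        rw [← ENNReal.ofReal_mul hcst0]
        exact ENNReal.ofReal_le_ofReal (hpt ω)
    _ = ENNReal.ofReal cst * ∫⁻ ω,
          ENNReal.ofReal (Real.exp (2 * a * W (sc v (fun j z => (ω j z).re))))
          ∂(PI (Measure.pi fun _ : boxS d L => gC)) := by
        have hm : Measurable (fun ω : ℕ → boxS d L → ℂ =>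
            ENNReal.ofReal (Real.exp (2 * a * W (sc v (fun j z => (ω j z).re))))) := hΦ.comp hre
        exact lintegral_const_mul _ hm
    _ ≤ ENNReal.ofReal cst * ENNReal.ofReal (Real.exp (C0 * (n * v + 1) * (2 * a))) :=
        mul_le_mul_right hint _
    _ = ENNReal.ofReal (cst * Real.exp (C0 * (n * v + 1) * (2 * a))) :=
        (ENNReal.ofReal_mul hcst0).symm
    _ ≤ _ := by
        apply ENNReal.ofReal_le_ofReal
        have hnv : n * v + 1 ≤ 3 * T := by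
          have h1 : (n : ℝ) * v = n * h / ell k ^ 2 := by rw [hv]; ring
          have h2 : (n : ℝ) * h / ell k ^ 2 ≤ T + 1 := by
            rw [div_le_iff₀ (by positivity)]
            have h3 : 1 ≤ ell k ^ 2 := by nlinarith
            linarith
          rw [h1]
          linarith
        have h4 : Real.exp (2 * a) * Real.exp (C0 * (n * v + 1) * (2 * a)) ≤
            Real.exp ((2 + 6 * C0) * a * T) := by
          rw [← Real.exp_add]
          apply Real.exp_le_exp.mpr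
          have h5 : C0 * (n * v + 1) * (2 * a) ≤ C0 * (3 * T) * (2 * a) :=
            mul_le_mul_of_nonneg_right (mul_le_mul_of_nonneg_left hnv hC0.le) (by positivity)
          have h6 : 2 * a ≤ 2 * a * T := by nlinarith
          linarith
        have h7 : cst * Real.exp (C0 * (n * v + 1) * (2 * a)) =
            (Real.exp (2 * a) * Real.exp (C0 * (n * v + 1) * (2 * a))) *
              (Real.exp (-(3 / 2 * a * dxy)) * A ^ p) := by
          rw [hcst]
          ring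
        rw [h7, mul_assoc (Real.exp ((2 + 6 * C0) * a * T))]
        exact mul_le_mul_of_nonneg_right h4 (by positivity)

/-- mean of `e^b` -/
private theorem Grw2_mgf (N : ℕ) {Ω0 : Type} [MeasurableSpace Ω0] (ν : Measure Ω0)
    [IsProbabilityMeasure ν] (b : ℝ → Ω0 → ℝ) (gd : ℝ → Set Ω0) (hB : BNoise N ν b gd)
    (hmb : ∀ h, Measurable (b h)) (hmgd : ∀ h, MeasurableSet (gd h)) :
    ∃ h0 : ℝ, 0 < h0 ∧ ∀ h, 0 < h → h < h0 →
      ∫⁻ a, ENNReal.ofReal (Real.exp (b h a)) ∂ν ≤ ENNReal.ofReal (1 + (lamN N + 3) * h) := by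
  obtain ⟨h1, hh1, htail⟩ := hB.tail
  obtain ⟨h2, hh2, hmgf⟩ := hB.mgf 1 1 one_pos one_pos
  obtain ⟨C, h3, hC, hh3, hmgf2⟩ := hB.mgf2
  refine ⟨min (min h1 h2) (min h3 (min 1 (1 / C))), by positivity, ?_⟩
  intro h hh hlt
  have hlt1 : h < h1 := hlt.trans_le ((min_le_left _ _).trans (min_le_left _ _))
  have hlt2 : h < h2 := hlt.trans_le ((min_le_left _ _).trans (min_le_right _ _))
  have hlt3 : h < h3 := hlt.trans_le ((min_le_right _ _).trans (min_le_left _ _))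
  have hlt4 : h < 1 := hlt.trans_le
    ((min_le_right _ _).trans ((min_le_right _ _).trans (min_le_left _ _)))
  have hlt5 : h < 1 / C := hlt.trans_le
    ((min_le_right _ _).trans ((min_le_right _ _).trans (min_le_right _ _)))
  have hCh : C * h ≤ 1 := by
    rw [lt_div_iff₀ hC] at hlt5
    linarith
  have hlam : -1 ≤ lamN N := by
    unfold lamN
    have : (0 : ℝ) ≤ N := Nat.cast_nonneg N
    linarith
  have hm : Measurable (fun a => ENNReal.ofReal (Real.exp (b h a))) :=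
    (hmb h).exp.ennreal_ofReal
  have hm2 : Measurable (fun a => ENNReal.ofReal (Real.exp (2 * b h a))) :=
    ((hmb h).const_mul 2).exp.ennreal_ofReal
  have hA : ∫⁻ a in gd h, ENNReal.ofReal (Real.exp (b h a)) ∂ν ≤
      ENNReal.ofReal (1 + (lamN N + 3 / 2) * h) := by
    have h4 := (hmgf h hh hlt2 1 (by norm_num)).1
    have e : 1 + (lamN N * 1 + 1 ^ 2 / 2 + 1) * h = 1 + (lamN N + 3 / 2) * h := by ring
    rw [e] at h4
    simpa only [one_mul] using h4
  have hBd : ∫⁻ a in (gd h)ᶜ, ENNReal.ofReal (Real.exp (b h a)) ∂ν ≤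
      ENNReal.ofReal (3 / 2 * h) := by
    have hpt : ∀ a, ENNReal.ofReal (Real.exp (b h a)) ≤
        ENNReal.ofReal (h / 2) * ENNReal.ofReal (Real.exp (2 * b h a)) +
          ENNReal.ofReal (1 / (2 * h)) := by
      intro a
      rw [← ENNReal.ofReal_mul (by positivity), ← ENNReal.ofReal_add (by positivity)
        (by positivity)]
      apply ENNReal.ofReal_le_ofReal
      have e : Real.exp (2 * b h a) = Real.exp (b h a) ^ 2 := by
        rw [← Real.exp_nat_mul]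
        norm_num
      rw [e]
      set u := Real.exp (b h a)
      have h5 : 0 ≤ (h * u - 1) ^ 2 / (2 * h) := by positivity
      have h6 : (h * u - 1) ^ 2 / (2 * h) = h / 2 * u ^ 2 + 1 / (2 * h) - u := by
        field_simp
        ring
      linarith
    calc ∫⁻ a in (gd h)ᶜ, ENNReal.ofReal (Real.exp (b h a)) ∂ν
        ≤ ∫⁻ a in (gd h)ᶜ, (ENNReal.ofReal (h / 2) * ENNReal.ofReal (Real.exp (2 * b h a)) +
          ENNReal.ofReal (1 / (2 * h))) ∂ν := lintegral_mono fun a => hpt a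
      _ = ENNReal.ofReal (h / 2) * (∫⁻ a in (gd h)ᶜ, ENNReal.ofReal (Real.exp (2 * b h a)) ∂ν) +
          ENNReal.ofReal (1 / (2 * h)) * ν (gd h)ᶜ := by
          rw [lintegral_add_right _ measurable_const, lintegral_const_mul _ hm2, lintegral_const,
            Measure.restrict_apply_univ]
      _ ≤ ENNReal.ofReal (h / 2) * ENNReal.ofReal (1 + C * h) +
          ENNReal.ofReal (1 / (2 * h)) * ENNReal.ofReal (h ^ 3) := by
          refine add_le_add ?_ ?_
          · exact mul_le_mul_right ((setLIntegral_le_lintegral _ _).trans (hmgf2 h hh hlt3)) _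
          · exact mul_le_mul_right (htail h hh hlt1) _
      _ = ENNReal.ofReal (h / 2 * (1 + C * h) + 1 / (2 * h) * h ^ 3) := by
          rw [← ENNReal.ofReal_mul (by positivity), ← ENNReal.ofReal_mul (by positivity),
            ← ENNReal.ofReal_add (by positivity) (by positivity)]
      _ ≤ ENNReal.ofReal (3 / 2 * h) := by
          apply ENNReal.ofReal_le_ofReal
          have e : 1 / (2 * h) * h ^ 3 = h * h / 2 := by
            field_simp
          rw [e]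
          have h7 : h / 2 * (1 + C * h) ≤ h / 2 * 2 :=
            mul_le_mul_of_nonneg_left (by linarith) (by positivity)
          have h8 : h * h ≤ h * 1 := mul_le_mul_of_nonneg_left hlt4.le hh.le
          linarith
  rw [← lintegral_add_compl _ (hmgd h)]
  refine (add_le_add hA hBd).trans ?_
  have h9 : 0 ≤ 1 + (lamN N + 3 / 2) * h := by nlinarith
  rw [← ENNReal.ofReal_add h9 (by positivity)]
  apply ENNReal.ofReal_le_ofReal
  linarith

private theorem Grw2_meas {d : ℕ} {F : Fam d} {β k : ℝ} (S : PSys F β k) (h : ℝ) (L n : ℕ)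
    (G : (boxS d L → F.V) × (boxS d L → F.V)) (x : boxS d L) :
    Measurable (fun ω : ℕ → boxS d L → S.Ωp =>
      dif (S.tr h L G ω n).1 (S.tr h L G ω n).2 x) := by
  have h1 : Measurable (fun ω : ℕ → boxS d L → S.Ωp => S.tr h L G ω n) := by
    have h2 : Measurable (fun ω : ℕ → boxS d L → S.Ωp => (G, ω)) :=
      measurable_const.prodMk measurable_id
    exact (measurable_tr S h L n).comp h2
  have h3 : Measurable (fun ω : ℕ → boxS d L → S.Ωp => (S.tr h L G ω n).1 x) :=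
    (measurable_pi_apply x).comp (measurable_fst.comp h1)
  have h4 : Measurable (fun ω : ℕ → boxS d L → S.Ωp => (S.tr h L G ω n).2 x) :=
    (measurable_pi_apply x).comp (measurable_snd.comp h1)
  exact (h3.sub h4).norm

/-- the noise of step `n` is independent of the state at time `n` -/
private theorem Grw2_indep {d : ℕ} {F : Fam d} {β k : ℝ} (S : PSys F β k) (h : ℝ) (L n : ℕ)
    (G : (boxS d L → F.V) × (boxS d L → F.V)) (x : boxS d L) :
    ∫⁻ ω, ENNReal.ofReal (Real.exp (S.b h (ω n x))) *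
        ENNReal.ofReal (dif (S.tr h L G ω n).1 (S.tr h L G ω n).2 x) ∂(PI (S.mu L)) =
      (∫⁻ a, ENNReal.ofReal (Real.exp (S.b h a)) ∂S.ν) *
        ∫⁻ ω, ENNReal.ofReal (dif (S.tr h L G ω n).1 (S.tr h L G ω n).2 x) ∂(PI (S.mu L)) := by
  have hg : Measurable (fun a : S.Ωp => ENNReal.ofReal (Real.exp (S.b h a))) :=
    (S.mb h).exp.ennreal_ofReal
  have hD : Measurable (fun ω : ℕ → boxS d L → S.Ωp =>
      ENNReal.ofReal (dif (S.tr h L G ω n).1 (S.tr h L G ω n).2 x)) :=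
    (Grw2_meas S h L n G x).ennreal_ofReal
  have hev : ∀ j, Measurable (fun ω : ℕ → boxS d L → S.Ωp => ω j x) := fun j => by
    have h1 : Measurable (fun ω : ℕ → boxS d L → S.Ωp => ω j) := measurable_pi_apply j
    have h2 : Measurable (fun ξ : boxS d L → S.Ωp => ξ x) := measurable_pi_apply x
    exact h2.comp h1
  have hm : Measurable (fun ω : ℕ → boxS d L → S.Ωp =>
      ENNReal.ofReal (Real.exp (S.b h (ω n x))) *
        ENNReal.ofReal (dif (S.tr h L G ω n).1 (S.tr h L G ω n).2 x)) :=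
    (hg.comp (hev n)).mul hD
  rw [lintegral_glue n _ hm]
  have hinner : ∀ a : ℕ → boxS d L → S.Ωp,
      ∫⁻ b, ENNReal.ofReal (Real.exp (S.b h (glue n a b n x))) *
        ENNReal.ofReal (dif (S.tr h L G (glue n a b) n).1 (S.tr h L G (glue n a b) n).2 x)
        ∂(PI (S.mu L)) =
      (∫⁻ c, ENNReal.ofReal (Real.exp (S.b h c)) ∂S.ν) *
        ENNReal.ofReal (dif (S.tr h L G a n).1 (S.tr h L G a n).2 x) := by
    intro a
    have h1 : ∀ b : ℕ → boxS d L → S.Ωp, S.tr h L G (glue n a b) n = S.tr h L G a n :=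
      fun b => traj_glue_le (S.st h L) G n a b n le_rfl
    have h2 : ∀ b : ℕ → boxS d L → S.Ωp, glue n a b n = b 0 := by
      intro b
      unfold glue
      rw [if_neg (lt_irrefl n), Nat.sub_self]
    simp_rw [h1, h2]
    have hm0 : Measurable (fun b : ℕ → boxS d L → S.Ωp =>
        ENNReal.ofReal (Real.exp (S.b h (b 0 x)))) := hg.comp (hev 0)
    rw [lintegral_mul_const _ hm0]
    congr 1
    have h3 : ∫⁻ b : ℕ → boxS d L → S.Ωp, ENNReal.ofReal (Real.exp (S.b h (b 0 x)))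
        ∂(PI (S.mu L)) = ∫⁻ ξ : boxS d L → S.Ωp, ENNReal.ofReal (Real.exp (S.b h (ξ x)))
        ∂(S.mu L) := by
      have h4 := map_coord (μ := S.mu L) 0
      conv_rhs => rw [← h4]
      have h5 : Measurable (fun ξ : boxS d L → S.Ωp => ENNReal.ofReal (Real.exp (S.b h (ξ x)))) :=
        hg.comp (measurable_pi_apply x)
      have h6 : Measurable (fun ω : ℕ → boxS d L → S.Ωp => ω 0) := measurable_pi_apply 0
      exact (lintegral_map h5 h6).symm
    rw [h3]
    unfold PSys.mu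
    exact (measurePreserving_eval (fun _ : boxS d L => S.ν) x).lintegral_comp hg
  rw [lintegral_congr hinner, lintegral_const_mul _ hD]

/-- first moment growth for every pair system, from a start with `D_0 ≤ A k^{ρ dist x y}` -/
theorem grow_mean (N d : ℕ) (β : ℝ) (hβ : 0 < β) : ∃ C : ℝ, 0 < C ∧
    ∀ (F : Fam d) (k : ℝ) (S : PSys F β k), 0 < k → k < 1 → BNoise N S.ν S.b S.gd →
    ∃ h0 : ℝ, 0 < h0 ∧ ∀ h, 0 < h → h < h0 → ∀ (L : ℕ) (G : (boxS d L → F.V) × (boxS d L → F.V))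
      (U : boxS d L → ℝ) (r : ℝ), (∀ x, 0 ≤ U x) → (∀ x, k * cpl (boxNet d L) U x ≤ r * U x) →
      (∀ x, dif G.1 G.2 x ≤ U x) → ∀ (n : ℕ) (x : boxS d L),
      ∫⁻ ω, ENNReal.ofReal (dif (S.tr h L G ω n).1 (S.tr h L G ω n).2 x) ∂(PI (S.mu L)) ≤
        ENNReal.ofReal (Real.exp ((C + r) * (n * h)) * U x) := by
  have hlam : -1 ≤ lamN N := by
    unfold lamN
    have : (0 : ℝ) ≤ N := Nat.cast_nonneg N
    linarith
  refine ⟨lamN N + 3, by linarith, ?_⟩
  intro F k S hk hk1 hB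
  obtain ⟨h0, hh0, hmgf⟩ := Grw2_mgf N S.ν S.b S.gd hB S.mb S.mgd
  refine ⟨h0, hh0, ?_⟩
  intro h hh hlt L G U r hU hUr hGU n
  set C : ℝ := lamN N + 3 with hC
  have hC0 : 0 < C := by linarith
  induction n with
  | zero =>
    intro x
    have e : ∀ ω : ℕ → boxS d L → S.Ωp, S.tr h L G ω 0 = G := fun ω => rfl
    simp_rw [e]
    rw [lintegral_const, measure_univ, mul_one]
    apply ENNReal.ofReal_le_ofReal
    rw [Nat.cast_zero, zero_mul, mul_zero, Real.exp_zero, one_mul]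
    exact hGU x
  | succ n ih =>
    intro x
    set c : ℝ := Real.exp ((C + r) * (n * h)) with hc
    have hc0 : 0 < c := Real.exp_pos _
    have hstep : ∀ ω : ℕ → boxS d L → S.Ωp,
        ENNReal.ofReal (dif (S.tr h L G ω (n + 1)).1 (S.tr h L G ω (n + 1)).2 x) ≤
        ENNReal.ofReal (Real.exp (S.b h (ω n x))) *
          ENNReal.ofReal (dif (S.tr h L G ω n).1 (S.tr h L G ω n).2 x) +
        ENNReal.ofReal (k * h) *
          (∑ y ∈ (boxNet d L).nb x, ENNReal.ofReal (dif (S.tr h L G ω n).1 (S.tr h L G ω n).2 y)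
            + ENNReal.ofReal ((2 * d : ℕ) : ℝ) *
              ENNReal.ofReal (dif (S.tr h L G ω n).1 (S.tr h L G ω n).2 x)) := by
      intro ω
      have hdd := S.dd h L (S.tr h L G ω n) (ω n) hh
      have h1 := hdd.up x
      have h2 : ENNReal.ofReal (k * h) *
          (∑ y ∈ (boxNet d L).nb x, ENNReal.ofReal (dif (S.tr h L G ω n).1 (S.tr h L G ω n).2 y)
            + ENNReal.ofReal ((2 * d : ℕ) : ℝ) *
              ENNReal.ofReal (dif (S.tr h L G ω n).1 (S.tr h L G ω n).2 x)) =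
          ENNReal.ofReal (k * h * cpl (boxNet d L)
            (dif (S.tr h L G ω n).1 (S.tr h L G ω n).2) x) := by
        unfold cpl
        rw [← ENNReal.ofReal_sum_of_nonneg (fun y _ => hdd.n0 y),
          ← ENNReal.ofReal_mul (Nat.cast_nonneg _),
          ← ENNReal.ofReal_add (Finset.sum_nonneg fun y _ => hdd.n0 y)
            (mul_nonneg (Nat.cast_nonneg _) (hdd.n0 x)),
          ← ENNReal.ofReal_mul (by positivity)]
      have h3 : 0 ≤ cpl (boxNet d L) (dif (S.tr h L G ω n).1 (S.tr h L G ω n).2) x := by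
        unfold cpl
        exact add_nonneg (Finset.sum_nonneg fun y _ => hdd.n0 y)
          (mul_nonneg (Nat.cast_nonneg _) (hdd.n0 x))
      rw [h2, ← ENNReal.ofReal_mul (Real.exp_pos _).le,
        ← ENNReal.ofReal_add (mul_nonneg (Real.exp_pos _).le (hdd.n0 x))
          (mul_nonneg (by positivity) h3)]
      exact ENNReal.ofReal_le_ofReal h1
    have hD : ∀ y, Measurable (fun ω : ℕ → boxS d L → S.Ωp =>
        ENNReal.ofReal (dif (S.tr h L G ω n).1 (S.tr h L G ω n).2 y)) :=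
      fun y => (Grw2_meas S h L n G y).ennreal_ofReal
    have hsumm : Measurable (fun ω : ℕ → boxS d L → S.Ωp =>
        ∑ y ∈ (boxNet d L).nb x, ENNReal.ofReal (dif (S.tr h L G ω n).1 (S.tr h L G ω n).2 y)) :=
      Finset.measurable_fun_sum _ fun y _ => hD y
    have hcplm : Measurable (fun ω : ℕ → boxS d L → S.Ωp =>
        (∑ y ∈ (boxNet d L).nb x, ENNReal.ofReal (dif (S.tr h L G ω n).1 (S.tr h L G ω n).2 y)
            + ENNReal.ofReal ((2 * d : ℕ) : ℝ) *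
              ENNReal.ofReal (dif (S.tr h L G ω n).1 (S.tr h L G ω n).2 x))) :=
      hsumm.add ((hD x).const_mul _)
    calc ∫⁻ ω, ENNReal.ofReal (dif (S.tr h L G ω (n + 1)).1 (S.tr h L G ω (n + 1)).2 x)
          ∂(PI (S.mu L))
        ≤ ∫⁻ ω, (ENNReal.ofReal (Real.exp (S.b h (ω n x))) *
          ENNReal.ofReal (dif (S.tr h L G ω n).1 (S.tr h L G ω n).2 x) +
        ENNReal.ofReal (k * h) *
          (∑ y ∈ (boxNet d L).nb x, ENNReal.ofReal (dif (S.tr h L G ω n).1 (S.tr h L G ω n).2 y)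
            + ENNReal.ofReal ((2 * d : ℕ) : ℝ) *
              ENNReal.ofReal (dif (S.tr h L G ω n).1 (S.tr h L G ω n).2 x))) ∂(PI (S.mu L)) :=
          lintegral_mono hstep
      _ = (∫⁻ a, ENNReal.ofReal (Real.exp (S.b h a)) ∂S.ν) *
            ∫⁻ ω, ENNReal.ofReal (dif (S.tr h L G ω n).1 (S.tr h L G ω n).2 x) ∂(PI (S.mu L)) +
          ENNReal.ofReal (k * h) * (∑ y ∈ (boxNet d L).nb x,
            ∫⁻ ω, ENNReal.ofReal (dif (S.tr h L G ω n).1 (S.tr h L G ω n).2 y) ∂(PI (S.mu L)) +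
            ENNReal.ofReal ((2 * d : ℕ) : ℝ) *
            ∫⁻ ω, ENNReal.ofReal (dif (S.tr h L G ω n).1 (S.tr h L G ω n).2 x)
              ∂(PI (S.mu L))) := by
          rw [lintegral_add_right _ (hcplm.const_mul _), Grw2_indep,
            lintegral_const_mul _ hcplm, lintegral_add_right _ ((hD x).const_mul _),
            lintegral_const_mul _ (hD x), lintegral_finsetSum _ fun y _ => hD y]
      _ ≤ ENNReal.ofReal (1 + C * h) * ENNReal.ofReal (c * U x) +
          ENNReal.ofReal (k * h) * (∑ y ∈ (boxNet d L).nb x, ENNReal.ofReal (c * U y) +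
            ENNReal.ofReal ((2 * d : ℕ) : ℝ) * ENNReal.ofReal (c * U x)) := by
          refine add_le_add (mul_le_mul' (hmgf h hh hlt) (ih x)) ?_
          refine mul_le_mul_right (add_le_add ?_ (mul_le_mul_right (ih x) _)) _
          exact Finset.sum_le_sum fun y _ => ih y
      _ = ENNReal.ofReal ((1 + C * h) * (c * U x) +
          k * h * (∑ y ∈ (boxNet d L).nb x, c * U y + ((2 * d : ℕ) : ℝ) * (c * U x))) := by
          have hcU : ∀ y, 0 ≤ c * U y := fun y => mul_nonneg hc0.le (hU y)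
          rw [← ENNReal.ofReal_sum_of_nonneg (fun y _ => hcU y),
            ← ENNReal.ofReal_mul (Nat.cast_nonneg _),
            ← ENNReal.ofReal_add (Finset.sum_nonneg fun y _ => hcU y)
              (mul_nonneg (Nat.cast_nonneg _) (hcU x)),
            ← ENNReal.ofReal_mul (by positivity), ← ENNReal.ofReal_mul (by positivity),
            ← ENNReal.ofReal_add (mul_nonneg (by positivity) (hcU x))
              (mul_nonneg (by positivity) (add_nonneg (Finset.sum_nonneg fun y _ => hcU y)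
                (mul_nonneg (Nat.cast_nonneg _) (hcU x))))]
      _ ≤ ENNReal.ofReal (Real.exp ((C + r) * (((n + 1 : ℕ) : ℝ) * h)) * U x) := by
          apply ENNReal.ofReal_le_ofReal
          have h1 : ∑ y ∈ (boxNet d L).nb x, c * U y + ((2 * d : ℕ) : ℝ) * (c * U x) =
              c * cpl (boxNet d L) U x := by
            unfold cpl
            rw [← Finset.mul_sum]
            ring
          rw [h1]
          have h2 : k * h * (c * cpl (boxNet d L) U x) ≤ h * c * (r * U x) := by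
            have h3 := mul_le_mul_of_nonneg_left (hUr x) (by positivity : 0 ≤ h * c)
            linarith
          have h4 : Real.exp ((C + r) * (((n + 1 : ℕ) : ℝ) * h)) =
              c * Real.exp ((C + r) * h) := by
            rw [hc, ← Real.exp_add]
            congr 1
            push_cast
            ring
          have h5 : 1 + (C + r) * h ≤ Real.exp ((C + r) * h) := by
            have := Real.add_one_le_exp ((C + r) * h)
            linarith
          have h6 : c * U x * (1 + (C + r) * h) ≤ c * U x * Real.exp ((C + r) * h) :=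
            mul_le_mul_of_nonneg_left h5 (mul_nonneg hc0.le (hU x))
          rw [h4]
          linarith

/-- Jensen for a power `t ∈ (0,1]` on a probability space. -/
private theorem Grw2_jensen {Ω : Type*} [MeasurableSpace Ω] (μ : Measure Ω)
    [IsProbabilityMeasure μ] (X : Ω → ℝ) (hX : Measurable X) (hX0 : ∀ ω, 0 ≤ X ω) (t : ℝ)
    (h0 : 0 < t) (h1 : t ≤ 1) :
    ∫⁻ ω, ENNReal.ofReal (X ω ^ t) ∂μ ≤ (∫⁻ ω, ENNReal.ofReal (X ω) ∂μ) ^ t := by
  have h := eLpNorm'_le_eLpNorm'_of_exponent_le h0 h1 μ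
    (f := X) hX.aestronglyMeasurable
  unfold eLpNorm' at h
  have e1 : ∀ ω, ‖X ω‖ₑ ^ t = ENNReal.ofReal (X ω ^ t) := by
    intro ω
    rw [Real.enorm_eq_ofReal (hX0 ω), ENNReal.ofReal_rpow_of_nonneg (hX0 ω) h0.le]
  have e2 : ∀ ω, ‖X ω‖ₑ ^ (1 : ℝ) = ENNReal.ofReal (X ω) := by
    intro ω
    rw [Real.enorm_eq_ofReal (hX0 ω), ENNReal.rpow_one]
  simp_rw [e1, e2] at h
  rw [div_one, ENNReal.rpow_one] at h
  have h3 := ENNReal.rpow_le_rpow h h0.le
  rwa [← ENNReal.rpow_mul, one_div, inv_mul_cancel₀ h0.ne', ENNReal.rpow_one] at h3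

/-- `N ≥ 3`; block length `n h ≤ T ell + 1` -/
theorem gD3 (N d : ℕ) (β : ℝ) (hβ : 0 < β) : ∃ C a0 : ℝ, 0 < C ∧ 0 < a0 ∧ ∀ T : ℝ, 1 ≤ T →
    ∃ k0 : ℝ, 0 < k0 ∧ k0 < 1 ∧ ∀ (F : Fam d) (k : ℝ) (S : PSys F β k), 0 < k → k < k0 →
    BNoise N S.ν S.b S.gd → ∀ a, 0 < a → a ≤ a0 →
    ∃ h0 : ℝ, 0 < h0 ∧ ∀ h, 0 < h → h < h0 → ∀ L,
    ∀ (G : (boxS d L → F.V) × (boxS d L → F.V)) (y : boxS d L), (∀ x, x ≠ y → G.1 x = G.2 x) →
    ∀ n : ℕ, n * h ≤ T * ell k + 1 → ∀ x,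
      ∫⁻ ω, ENNReal.ofReal (‖(S.tr h L G ω n).1 x - (S.tr h L G ω n).2 x‖ ^ (2 * (a / ell k)))
          ∂(PI (S.mu L)) ≤
        ENNReal.ofReal (Real.exp (C * a * T) * Real.exp (-(3 / 2 * a * (boxNet d L).dist x y)) *
          ‖G.1 y - G.2 y‖ ^ (2 * (a / ell k))) := by
  obtain ⟨C, hC, hgm⟩ := grow_mean N d β hβ
  have hd0 : (0 : ℝ) ≤ d := Nat.cast_nonneg d
  refine ⟨4 * (C + 4 * d), 1 / 2, by positivity, by norm_num, ?_⟩
  intro T hT
  refine ⟨Real.exp (-1), Real.exp_pos _, by rw [Real.exp_lt_one_iff]; norm_num, ?_⟩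
  intro F k S hk hkk0 hB a ha ha0
  have hk1 : k < 1 := hkk0.trans (by rw [Real.exp_lt_one_iff]; norm_num)
  have hell1 : 1 ≤ ell k := Grw2_ell hk hkk0
  have hell : 0 < ell k := by linarith
  obtain ⟨h0, hh0, hgm'⟩ := hgm F k S hk hk1 hB
  refine ⟨h0, hh0, ?_⟩
  intro h hh hlt L G y hG n hn x
  set A : ℝ := ‖G.1 y - G.2 y‖ with hA
  have hA0 : 0 ≤ A := norm_nonneg _
  set p : ℝ := 2 * (a / ell k) with hp
  have hp0 : 0 < p := by positivity
  have hp1 : p ≤ 1 := by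
    rw [hp, ← mul_div_assoc, div_le_one hell]
    linarith
  set U : boxS d L → ℝ := fun x => A * Real.exp (-(3 / 4 * ell k * ((boxNet d L).dist x y : ℝ)))
    with hU
  have hU0 : ∀ x, 0 ≤ U x := fun x => mul_nonneg hA0 (Real.exp_pos _).le
  have hnear : ∀ x z, (boxNet d L).dist x z ≤ 1 → U z ≤ U x * Real.exp (3 / 4 * ell k) := by
    intro x z hz
    have h0 : A * Real.exp (-(3 / 4 * ell k * ((boxNet d L).dist x y : ℝ))) *
        Real.exp (3 / 4 * ell k) =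
        A * Real.exp (-(3 / 4 * ell k * ((boxNet d L).dist x y : ℝ)) + 3 / 4 * ell k) := by
      rw [Real.exp_add]; ring
    change A * Real.exp _ ≤ A * Real.exp _ * Real.exp _
    rw [h0]
    apply mul_le_mul_of_nonneg_left _ hA0
    apply Real.exp_le_exp.mpr
    have h1 := (boxNet d L).dist_tri x z y
    have h2 : ((boxNet d L).dist x y : ℝ) ≤ 1 + ((boxNet d L).dist z y : ℝ) := by
      have h3 : (boxNet d L).dist x y ≤ 1 + (boxNet d L).dist z y := by omega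
      exact_mod_cast h3
    have h4 := mul_le_mul_of_nonneg_left h2 (by positivity : 0 ≤ 3 / 4 * ell k)
    linarith
  have hUr : ∀ x, k * cpl (boxNet d L) U x ≤ 4 * d * U x := by
    intro x
    set Q : ℝ := U x * Real.exp (3 / 4 * ell k) with hQ
    have hQ0 : 0 ≤ Q := mul_nonneg (hU0 x) (Real.exp_pos _).le
    have hcpl : cpl (boxNet d L) U x ≤ 4 * d * Q := by
      unfold cpl
      have h1 : ∑ z ∈ (boxNet d L).nb x, U z ≤ 2 * d * Q := by
        calc ∑ z ∈ (boxNet d L).nb x, U z ≤ ∑ z ∈ (boxNet d L).nb x, Q :=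
              Finset.sum_le_sum fun z hz =>
                hnear x z (le_of_eq ((boxNet d L).dist_nb x z hz))
          _ = ((boxNet d L).nb x).card * Q := by rw [Finset.sum_const, nsmul_eq_mul]
          _ ≤ 2 * d * Q := by
              apply mul_le_mul_of_nonneg_right _ hQ0
              exact_mod_cast (boxNet d L).nb_card x
      have h2 : ((2 * d : ℕ) : ℝ) * U x ≤ 2 * d * Q := by
        have h3 := hnear x x (by rw [(boxNet d L).dist_self]; exact Nat.zero_le _)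
        push_cast
        exact mul_le_mul_of_nonneg_left h3 (by positivity)
      linarith
    have hkQ : k * Q ≤ U x := by
      have h1 : k * Q = U x * Real.exp (-(1 / 4 * ell k)) := by
        rw [hQ]
        have h2 : k * Real.exp (3 / 4 * ell k) = Real.exp (-(1 / 4 * ell k)) := by
          conv_lhs => rw [Grw2_exp_ell hk]
          rw [← Real.exp_add]
          congr 1
          rw [← Grw2_exp_ell hk]
          ring
        calc k * (U x * Real.exp (3 / 4 * ell k)) = U x * (k * Real.exp (3 / 4 * ell k)) := by ring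
          _ = _ := by rw [h2]
      rw [h1]
      have h3 : Real.exp (-(1 / 4 * ell k)) ≤ 1 := by
        rw [Real.exp_le_one_iff]
        linarith
      exact mul_le_of_le_one_right (hU0 x) h3
    calc k * cpl (boxNet d L) U x ≤ k * (4 * d * Q) := mul_le_mul_of_nonneg_left hcpl hk.le
      _ = 4 * d * (k * Q) := by ring
      _ ≤ 4 * d * U x := mul_le_mul_of_nonneg_left hkQ (by positivity)
  have hGU : ∀ x, dif G.1 G.2 x ≤ U x := by
    intro x
    change ‖G.1 x - G.2 x‖ ≤ A * _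
    by_cases hx : x = y
    · subst hx
      rw [(boxNet d L).dist_self]
      simp [hA]
    · rw [hG x hx, sub_self, norm_zero]
      exact mul_nonneg hA0 (Real.exp_pos _).le
  have hmean := hgm' h hh hlt L G U (4 * d) hU0 hUr hGU n x
  have hj := Grw2_jensen (PI (S.mu L)) _ (Grw2_meas S h L n G x) (fun ω => norm_nonneg _) p hp0 hp1
  refine hj.trans ?_
  refine (ENNReal.rpow_le_rpow hmean hp0.le).trans ?_
  rw [ENNReal.ofReal_rpow_of_nonneg (mul_nonneg (Real.exp_pos _).le (hU0 x)) hp0.le]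
  apply ENNReal.ofReal_le_ofReal
  rw [Real.mul_rpow (Real.exp_pos _).le (hU0 x), ← Real.exp_mul]
  change _ * (A * Real.exp (-(3 / 4 * ell k * ((boxNet d L).dist x y : ℝ)))) ^ p ≤ _
  rw [Real.mul_rpow hA0 (Real.exp_pos _).le, ← Real.exp_mul]
  have h1 : -(3 / 4 * ell k * ((boxNet d L).dist x y : ℝ)) * p =
      -(3 / 2 * a * ((boxNet d L).dist x y : ℝ)) := by
    rw [hp]
    field_simp
    ring
  rw [h1]
  have h2 : Real.exp ((C + 4 * d) * (n * h) * p) ≤ Real.exp (4 * (C + 4 * d) * a * T) := by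
    apply Real.exp_le_exp.mpr
    have h3 : (n : ℝ) * h * p ≤ 4 * a * T := by
      have h4 : (n : ℝ) * h * p ≤ (T * ell k + 1) * p := mul_le_mul_of_nonneg_right hn hp0.le
      have h5 : (T * ell k + 1) * p = 2 * a * (T + 1 / ell k) := by
        rw [hp]
        field_simp
      have h6 : 1 / ell k ≤ 1 := by
        rw [div_le_one hell]
        exact hell1
      have h7 : 2 * a * (T + 1 / ell k) ≤ 2 * a * (2 * T) :=
        mul_le_mul_of_nonneg_left (by linarith) (by positivity)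
      linarith
    have h8 := mul_le_mul_of_nonneg_left h3 (by positivity : 0 ≤ C + 4 * (d : ℝ))
    linarith
  have h9 : Real.exp ((C + 4 * d) * (n * h) * p) *
      (A ^ p * Real.exp (-(3 / 2 * a * ((boxNet d L).dist x y : ℝ)))) =
      Real.exp ((C + 4 * d) * (n * h) * p) *
      (Real.exp (-(3 / 2 * a * ((boxNet d L).dist x y : ℝ))) * A ^ p) := by ring
  rw [h9, mul_assoc (Real.exp (4 * (C + 4 * d) * a * T))]
  exact mul_le_mul_of_nonneg_right h2 (by positivity)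

end DynC

end

/-! ### from `Lib_MP_36b788c.Reg2` -/

section

/-!
# Regular noise on a window (`N = 2`)

`Reg2 κ g n x`: the last passage values started from `0` are `≤ κ (1 + dist x v)` and all block sums of `g` at `x` are `≤ κ` in modulus.

PROOF.
* `reg2_sub`: `lppM` of the shifted noise from `0` is at most the one of the whole window (`lpp_shift`: the value at time `m` is `≥ 0`, `lpp_mono`, `lpp_congr`); block sums of the shifted noise are block sums.
* `reg2_growth`: `grow_path` with `q' = 1/8`, `ε = 1/8`, `ρ ≤ 3/4`; `(1 + 4d k^{1/8} h)^n ≤ exp(4 d k^{1/8} (ell^3)) ≤ 2` for small `k`; `lpp n v ≤ lppM n v ≤ κ(1+dist x v)`.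
* `reg2_prob`: `lam = 1/√(v n)`, large since `v n ≤ s1`; `cell_all` with `K = n`, `W0 = 0`, `q = 1/8` (`lam² v n = 1`; `eps_small` gives the condition on `e` for `lam ≥ lam1`): `E exp(lam lppM n v) ≤ CB`, Markov: `P(lppM n v > κ(1+dist x v)) ≤ CB e^{-lam κ (1+dist x v)}`, sum over `v` with `e^{-lam κ} ≤ 1/2`
  and `sum_half`. Block sums: `sum_le_osc`, `osc_exp` with `s = lam`: `P(osc > κ) ≤ C e^{-lam κ}`.
* `re_law`: `re_map` for the rescaled noise: the law of `gz k h ω` under `PI (gC^box)` is the law of `sc (h/ell²) ω` under `PI nz`; used for events.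
-/

open MeasureTheory ProbabilityTheory
open scoped ENNReal

namespace DynC

open Dyn

/-- regular noise on a window of `n` steps, seen from `x` -/
def Reg2 {d L : ℕ} (κ : ℝ) (g : ℕ → boxS d L → ℝ) (n : ℕ) (x : boxS d L) : Prop :=
  (∀ v, (boxMSet d L).lppM (1 / 8) (fun _ => 0) g n v ≤ κ * (1 + (boxNet d L).dist x v)) ∧
    ∀ i j, i ≤ j → j ≤ n → |∑ l ∈ Finset.Ico i j, g l x| ≤ κ

/-- increments of the heights, `N = 2` -/
noncomputable def gz {d L : ℕ} (k h : ℝ) (ω : ℕ → boxS d L → ℂ) : ℕ → boxS d L → ℝ :=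
  fun j y => Real.sqrt h * (ω j y).re / ell k

theorem reg2_sub {d L : ℕ} (κ : ℝ) (g : ℕ → boxS d L → ℝ) (n m : ℕ) (hm : m ≤ n) (x : boxS d L)
    (hR : Reg2 κ g n x) : Reg2 κ (fun j => g (m + j)) (n - m) x := by
  obtain ⟨h1, h2⟩ := hR
  refine ⟨fun v => ?_, fun i j hij hj => ?_⟩
  · refine le_trans ?_ (h1 v)
    unfold MSet.lppM
    refine Finset.sup'_le _ _ fun l hl => ?_
    have hl' : l ≤ n - m := Nat.lt_succ_iff.mp (Finset.mem_range.mp hl)
    have e1 : (boxMSet d L).lpp (1 / 8) (fun _ => 0) (fun j => g (m + j)) l v ≤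
        (boxMSet d L).lpp (1 / 8) ((boxMSet d L).lpp (1 / 8) (fun _ => 0) g m)
          (fun j => g (m + j)) l v :=
      lpp_mono (boxMSet d L) _ _ _
        (fun z => lpp_nonneg (boxMSet d L) _ _ (fun _ => le_refl 0) g m z) _ l v
    refine e1.trans ?_
    rw [← lpp_shift]
    exact le_lppM (boxMSet d L) _ _ g (by omega) v
  · have e1 : ∑ l ∈ Finset.Ico i j, g (m + l) x = ∑ l ∈ Finset.Ico (m + i) (m + j), g l x := by
      rw [Finset.sum_Ico_add (fun l => g l x) i j m, add_comm i m, add_comm j m]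
    rw [e1]
    exact h2 (m + i) (m + j) (by omega) (by omega)

theorem measurableSet_Reg2 {d L : ℕ} (κ : ℝ) (n : ℕ) (x : boxS d L) :
    MeasurableSet {g : ℕ → boxS d L → ℝ | Reg2 κ g n x} := by
  unfold Reg2
  have e1 : {g : ℕ → boxS d L → ℝ |
      (∀ v, (boxMSet d L).lppM (1 / 8) (fun _ => 0) g n v ≤ κ * (1 + (boxNet d L).dist x v)) ∧
        ∀ i j, i ≤ j → j ≤ n → |∑ l ∈ Finset.Ico i j, g l x| ≤ κ} =
      (⋂ v, {g : ℕ → boxS d L → ℝ | (boxMSet d L).lppM (1 / 8) (fun _ => 0) g n v ≤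
        κ * (1 + (boxNet d L).dist x v)}) ∩
      ⋂ (i : ℕ) (j : ℕ) (_ : i ≤ j) (_ : j ≤ n),
        {g : ℕ → boxS d L → ℝ | |∑ l ∈ Finset.Ico i j, g l x| ≤ κ} := by
    ext g
    simp only [Set.mem_inter_iff, Set.mem_iInter, Set.mem_ofPred_eq]
  rw [e1]
  refine MeasurableSet.inter (MeasurableSet.iInter fun v => ?_)
    (MeasurableSet.iInter fun i => MeasurableSet.iInter fun j => MeasurableSet.iInter fun _ =>
      MeasurableSet.iInter fun _ => ?_)
  · exact measurableSet_le (measurable_lppM (boxMSet d L) _ _ n v) measurable_const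
  · refine measurableSet_le ?_ measurable_const
    have e2 : Measurable fun g : ℕ → boxS d L → ℝ => ∑ l ∈ Finset.Ico i j, g l x :=
      Finset.measurable_fun_sum _ fun l _ =>
        (measurable_pi_apply x).comp (measurable_pi_apply l)
    exact e2.abs

theorem reg2_growth (d : ℕ) : ∃ k0 : ℝ, 0 < k0 ∧ k0 < 1 ∧ ∀ k, 0 < k → k < k0 →
    ∀ (L : ℕ) (h κ ρ A : ℝ), 0 < h → 0 ≤ ρ → ρ ≤ 3 / 4 → 0 ≤ A →
    ∀ (b D : ℕ → boxS d L → ℝ) (n : ℕ), n * h ≤ ell k ^ 3 →
    (∀ j, DStep (boxNet d L) h k (b j) (D j) (D (j + 1))) →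
    ∀ (x : boxS d L), Reg2 κ (fun j y => b j y / ell k) n x →
    ∀ H : boxS d L → ℝ, (∀ v, ∀ y ∈ (boxNet d L).nb v, H y ≤ H v + ρ) →
    (∀ v, D 0 v ≤ A * Real.exp (ell k * H v)) →
    ∀ j, j ≤ n → ∀ v, D j v ≤
      2 * A * Real.exp (ell k * (κ * (1 + (boxNet d L).dist x v) + H v)) := by
  set B : ℝ := 8 * 24 * 4096 * d + 1 with hB
  have hB1 : 1 ≤ B := by
    rw [hB]
    have : (0 : ℝ) ≤ 8 * 24 * 4096 * d := by positivity
    linarith
  refine ⟨Real.exp (-B), Real.exp_pos _, by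
    rw [Real.exp_lt_one_iff]
    linarith, ?_⟩
  intro k hk hkB L h κ ρ A hh hρ hρ1 hA b D n hn hD x hR H hH h0 j hj v
  have hell : B ≤ ell k := by
    unfold ell
    rw [one_div, Real.log_inv]
    have h1 := Real.log_lt_log hk hkB
    rw [Real.log_exp] at h1
    linarith
  have hk1 : k < 1 := hkB.trans (by
    rw [Real.exp_lt_one_iff]
    linarith)
  have hell0 : 0 < ell k := by linarith
  have h1 := grow_path d L k h (1 / 8) (1 / 8) ρ A hk hk1 hh hA (by norm_num) hρ (by norm_num)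
    (by linarith) b D hD H hH h0 j v
  refine h1.trans ?_
  have h2 : (boxMSet d L).lpp (1 / 8) (fun _ => 0) (fun j y => b j y / ell k) j v ≤
      κ * (1 + (boxNet d L).dist x v) :=
    (le_lppM (boxMSet d L) _ _ _ hj v).trans (hR.1 v)
  have h3 : (1 + 4 * (d : ℝ) * k ^ (1 / 8 : ℝ) * h) ^ j ≤ 2 := by
    have hkp : 0 ≤ k ^ (1 / 8 : ℝ) := Real.rpow_nonneg hk.le _
    have h4 : (1 + 4 * (d : ℝ) * k ^ (1 / 8 : ℝ) * h) ^ j ≤
        Real.exp (4 * (d : ℝ) * k ^ (1 / 8 : ℝ) * h) ^ j := by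
      refine pow_le_pow_left₀ (by positivity) ?_ j
      have := Real.add_one_le_exp (4 * (d : ℝ) * k ^ (1 / 8 : ℝ) * h)
      linarith
    refine h4.trans ?_
    rw [← Real.exp_nat_mul]
    have h5 : (j : ℝ) * (4 * (d : ℝ) * k ^ (1 / 8 : ℝ) * h) ≤ 1 / 2 := by
      have h6 : (j : ℝ) * h ≤ ell k ^ 3 := by
        refine le_trans ?_ hn
        have : (j : ℝ) ≤ n := by exact_mod_cast hj
        exact mul_le_mul_of_nonneg_right this hh.le
      have h7 : (j : ℝ) * (4 * (d : ℝ) * k ^ (1 / 8 : ℝ) * h) =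
          4 * d * k ^ (1 / 8 : ℝ) * (j * h) := by ring
      rw [h7]
      have h8 : 4 * (d : ℝ) * k ^ (1 / 8 : ℝ) * (j * h) ≤
          4 * d * k ^ (1 / 8 : ℝ) * ell k ^ 3 :=
        mul_le_mul_of_nonneg_left h6 (by positivity)
      refine h8.trans ?_
      have h9 : k ^ (1 / 8 : ℝ) = Real.exp (-(ell k / 8)) := by
        rw [Real.rpow_def_of_pos hk]
        congr 1
        unfold ell
        rw [show Real.log (1 / k) = -Real.log k by rw [one_div, Real.log_inv]]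
        ring
      have h10 : (ell k / 8) ^ 4 / (Nat.factorial 4 : ℝ) ≤ Real.exp (ell k / 8) :=
        Real.pow_div_factorial_le_exp (ell k / 8) (by positivity) 4
      have h11 : (Nat.factorial 4 : ℝ) = 24 := by norm_num [Nat.factorial]
      rw [h11] at h10
      have h12 : k ^ (1 / 8 : ℝ) * ell k ^ 4 ≤ 24 * 4096 := by
        rw [h9, Real.exp_neg]
        have h13 : 0 < Real.exp (ell k / 8) := Real.exp_pos _
        rw [inv_mul_le_iff₀ h13]
        have h14 : (ell k / 8) ^ 4 = ell k ^ 4 / 4096 := by ring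
        rw [h14] at h10
        have h15 : ell k ^ 4 / 4096 / 24 = ell k ^ 4 / (24 * 4096) := by ring
        rw [h15, div_le_iff₀ (by norm_num)] at h10
        linarith
      have h16 : (4 * (d : ℝ) * k ^ (1 / 8 : ℝ) * ell k ^ 3) * ell k ≤ 1 / 2 * ell k := by
        calc (4 * (d : ℝ) * k ^ (1 / 8 : ℝ) * ell k ^ 3) * ell k
            = 4 * (d : ℝ) * (k ^ (1 / 8 : ℝ) * ell k ^ 4) := by ring
          _ ≤ 4 * (d : ℝ) * (24 * 4096) := mul_le_mul_of_nonneg_left h12 (by positivity)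
          _ ≤ 1 / 2 * B := by
              rw [hB]
              linarith
          _ ≤ 1 / 2 * ell k := by linarith
      exact le_of_mul_le_mul_right h16 hell0
    calc Real.exp ((j : ℝ) * (4 * (d : ℝ) * k ^ (1 / 8 : ℝ) * h)) ≤ Real.exp (1 / 2) :=
          Real.exp_le_exp.mpr h5
      _ ≤ 2 := by
          have h17 : Real.exp (1 / 2) ^ 2 = Real.exp 1 := by
            rw [← Real.exp_nat_mul]
            congr 1
            norm_num
          have h18 := Real.exp_one_lt_d9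
          nlinarith [Real.exp_pos (1 / 2 : ℝ)]
  have h4 : A * (1 + 4 * (d : ℝ) * k ^ (1 / 8 : ℝ) * h) ^ j ≤ 2 * A := by
    have := mul_le_mul_of_nonneg_left h3 hA
    linarith
  refine mul_le_mul h4 ?_ (Real.exp_pos _).le (by positivity)
  refine Real.exp_le_exp.mpr (mul_le_mul_of_nonneg_left ?_ hell0.le)
  linarith

private theorem Reg2_measurable_sc {S : Type} [Fintype S] (v : ℝ) :
    Measurable (fun ω : ℕ → S → ℝ => sc v ω) := by
  unfold sc
  fun_prop

private theorem Reg2_meas_pmax {Ω : Type} [MeasurableSpace Ω] (f : Ω → ℕ → ℝ)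
    (hf : ∀ j, Measurable fun ω => f ω j) (n : ℕ) : Measurable fun ω => pmax (f ω) n := by
  unfold pmax
  exact Finset.measurable_range_sup'' fun m _ =>
    Finset.measurable_fun_sum _ fun j _ => hf j

private theorem Reg2_meas_osc {S : Type} [Fintype S] (lam v : ℝ) (n : ℕ) (x : S) :
    Measurable (fun ω : ℕ → S → ℝ =>
      ENNReal.ofReal (Real.exp (lam * osc (fun j => sc v ω j x) n))) := by
  have h1 : ∀ j, Measurable fun ω : ℕ → S → ℝ => sc v ω j x := by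
    intro j
    have h0 : Measurable fun ω : ℕ → S → ℝ => ω j x :=
      (measurable_pi_apply x).comp (measurable_pi_apply j)
    unfold sc
    exact h0.const_mul _
  have h2 : Measurable fun ω : ℕ → S → ℝ => osc (fun j => sc v ω j x) n := by
    unfold osc
    exact (Reg2_meas_pmax (fun ω j => sc v ω j x) h1 n).add
      (Reg2_meas_pmax (fun ω j => -sc v ω j x) (fun j => (h1 j).neg) n)
  exact (h2.const_mul lam).exp.ennreal_ofReal

private theorem Reg2_markov {Ω : Type} [MeasurableSpace Ω] (μ : Measure Ω) {f : Ω → ℝ≥0∞}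
    (hf : Measurable f) (r C : ℝ) (h : ∫⁻ ω, f ω ∂μ ≤ ENNReal.ofReal C) (E : Set Ω)
    (hE : ∀ ω ∈ E, ENNReal.ofReal (Real.exp r) ≤ f ω) :
    μ E ≤ ENNReal.ofReal (C * Real.exp (-r)) := by
  have h2 := mul_meas_ge_le_lintegral (μ := μ) hf (ENNReal.ofReal (Real.exp r))
  have h3 : ENNReal.ofReal (Real.exp r) * μ E ≤ ENNReal.ofReal C :=
    (mul_le_mul_right (measure_mono hE) _).trans (h2.trans h)
  have h5 := mul_le_mul_right h3 (ENNReal.ofReal (Real.exp (-r)))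
  rw [← mul_assoc, ← ENNReal.ofReal_mul (Real.exp_pos _).le, ← Real.exp_add,
    neg_add_cancel, Real.exp_zero, ENNReal.ofReal_one, one_mul,
    ← ENNReal.ofReal_mul (Real.exp_pos _).le, mul_comm (Real.exp (-r))] at h5
  exact h5

theorem reg2_prob (d : ℕ) : ∃ C s1 : ℝ, 1 ≤ C ∧ 0 < s1 ∧
    ∀ (L n : ℕ) (v κ : ℝ), 0 < v → 1 ≤ n → v * n ≤ s1 → C * Real.sqrt (v * n) ≤ κ →
    ∀ x : boxS d L, PI (nz (boxS d L)) {ω | ¬ Reg2 κ (sc v ω) n x} ≤
      ENNReal.ofReal (C * Real.exp (-(κ / Real.sqrt (v * n)))) := by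
  obtain ⟨L0, hL0, hL⟩ := eps_small d (1 / 8) (by norm_num) (Real.exp (-16) / 64) (by positivity)
  set CB : ℝ := 4 * Real.exp 8 + Real.exp 48 with hCB
  have hCB0 : 0 < CB := by
    have := Real.exp_pos 8
    have := Real.exp_pos 48
    linarith
  have hCB1 : 1 ≤ CB := by
    have h1 := Real.add_one_le_exp (8 : ℝ)
    have h2 := Real.exp_pos 48
    linarith
  refine ⟨CB * 3 ^ d + 4 * Real.exp 8, 1 / L0 ^ 2, ?_, by positivity, ?_⟩
  · have h1 : (1 : ℝ) ≤ 3 ^ d := one_le_pow₀ (by norm_num)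
    have h2 : 1 ≤ CB * 3 ^ d := by nlinarith
    have h3 := Real.exp_pos 8
    linarith
  intro L n v κ hv hn hvn hκ x
  have hn0 : (0 : ℝ) < n := by exact_mod_cast hn
  have hvn0 : 0 < v * n := by positivity
  set lam : ℝ := 1 / Real.sqrt (v * n) with hlam
  have hsq : 0 < Real.sqrt (v * n) := Real.sqrt_pos.mpr hvn0
  have hlam0 : 0 < lam := by positivity
  have hlam2 : lam ^ 2 * v * n = 1 := by
    rw [hlam, div_pow, Real.sq_sqrt hvn0.le]
    field_simp
  have hlamL : L0 ≤ lam := by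
    rw [hlam, le_div_iff₀ hsq]
    have h1 : Real.sqrt (v * n) ≤ 1 / L0 := by
      rw [Real.sqrt_le_left (by positivity)]
      refine hvn.trans (le_of_eq ?_)
      rw [div_pow, one_pow]
    calc L0 * Real.sqrt (v * n) ≤ L0 * (1 / L0) := mul_le_mul_of_nonneg_left h1 hL0.le
      _ = 1 := by field_simp
  have hκl : 1 ≤ lam * κ := by
    have h1 : Real.sqrt (v * n) ≤ κ := by
      refine le_trans ?_ hκ
      have h2 : 1 ≤ CB * 3 ^ d + 4 * Real.exp 8 := by
        have h1 : (1 : ℝ) ≤ 3 ^ d := one_le_pow₀ (by norm_num)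
        have h2 : 1 ≤ CB * 3 ^ d := by nlinarith
        have h3 := Real.exp_pos 8
        linarith
      nlinarith
    rw [hlam]
    rw [one_div, ← div_eq_inv_mul, le_div_iff₀ hsq]
    linarith
  have hexpk : Real.exp (-(κ / Real.sqrt (v * n))) = Real.exp (-(lam * κ)) := by
    congr 1
    rw [hlam]
    ring
  rw [hexpk]
  -- the last passage part
  obtain ⟨kk, hkk0, hkks, hkk⟩ := cell_all (boxMSet d L) lam (1 / 8) v (Real.exp (-16) / 64) hlam0 hv
    (by positivity) (fun y => hL lam hlamL (boxS d L) (boxMSet d L) y) (le_refl _) n hlam2.le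
  have hlpp : ∀ w : boxS d L, PI (nz (boxS d L)) {ω | κ * (1 + (boxNet d L).dist x w) ≤
      (boxMSet d L).lppM (1 / 8) (fun _ => 0) (sc v ω) n w} ≤
      ENNReal.ofReal (CB * Real.exp (-(lam * κ)) * (1 / 2) ^ (boxNet d L).dist x w) := by
    intro w
    have h1 := hkk (fun _ => 0) (fun _ => le_refl 0) w
    have h2 : ∑ z, Real.exp (lam * (0 : ℝ)) * kk z w ≤ CB := by
      refine le_trans (le_of_eq ?_) (hkks w)
      exact Finset.sum_congr rfl fun z _ => by rw [mul_zero, Real.exp_zero, one_mul]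
    have h3 := h1.trans (ENNReal.ofReal_le_ofReal h2)
    have hmeas : Measurable (fun ω : ℕ → boxS d L → ℝ => ENNReal.ofReal (Real.exp (lam *
        (boxMSet d L).lppM (1 / 8) (fun _ => 0) (sc v ω) n w))) :=
      (((measurable_lppM (boxMSet d L) _ _ n w).comp
        (Reg2_measurable_sc v)).const_mul lam).exp.ennreal_ofReal
    have h4 := Reg2_markov (PI (nz (boxS d L))) hmeas (lam * (κ * (1 + (boxNet d L).dist x w))) CB
      h3 {ω | κ * (1 + (boxNet d L).dist x w) ≤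
        (boxMSet d L).lppM (1 / 8) (fun _ => 0) (sc v ω) n w} (fun ω hω =>
          ENNReal.ofReal_le_ofReal (Real.exp_le_exp.mpr (mul_le_mul_of_nonneg_left hω hlam0.le)))
    refine h4.trans (ENNReal.ofReal_le_ofReal ?_)
    have h5 : Real.exp (-(lam * (κ * (1 + (boxNet d L).dist x w)))) =
        Real.exp (-(lam * κ)) * Real.exp (-(lam * κ)) ^ (boxNet d L).dist x w := by
      rw [← Real.exp_nat_mul, ← Real.exp_add]
      congr 1
      ring
    have h6 : Real.exp (-(lam * κ)) ≤ 1 / 2 := by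
      have h7 : Real.exp (-(lam * κ)) ≤ Real.exp (-1) := Real.exp_le_exp.mpr (by linarith)
      refine h7.trans ?_
      rw [Real.exp_neg, inv_le_comm₀ (Real.exp_pos _) (by norm_num)]
      have := Real.add_one_le_exp (1 : ℝ)
      norm_num at this ⊢
      exact this
    rw [h5]
    have h8 : Real.exp (-(lam * κ)) ^ (boxNet d L).dist x w ≤ (1 / 2) ^ (boxNet d L).dist x w :=
      pow_le_pow_left₀ (Real.exp_pos _).le h6 _
    have h9 : 0 ≤ Real.exp (-(lam * κ)) := (Real.exp_pos _).le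
    calc CB * (Real.exp (-(lam * κ)) * Real.exp (-(lam * κ)) ^ (boxNet d L).dist x w)
        ≤ CB * (Real.exp (-(lam * κ)) * (1 / 2) ^ (boxNet d L).dist x w) :=
          mul_le_mul_of_nonneg_left (mul_le_mul_of_nonneg_left h8 h9) hCB0.le
      _ = _ := by ring
  -- the oscillation part
  have hosc : PI (nz (boxS d L)) {ω | κ ≤ osc (fun j => sc v ω j x) n} ≤
      ENNReal.ofReal (4 * Real.exp 8 * Real.exp (-(lam * κ))) := by
    have h1 := osc_exp_nz (S := boxS d L) lam v hlam0.le hv.le n x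
    have h2 : 8 * lam ^ 2 * v * n = 8 := by
      have : 8 * lam ^ 2 * v * n = 8 * (lam ^ 2 * v * n) := by ring
      rw [this, hlam2, mul_one]
    rw [h2] at h1
    have h4 := Reg2_markov (PI (nz (boxS d L))) (Reg2_meas_osc lam v n x) (lam * κ) (4 * Real.exp 8)
      h1 {ω | κ ≤ osc (fun j => sc v ω j x) n} (fun ω hω =>
          ENNReal.ofReal_le_ofReal (Real.exp_le_exp.mpr (mul_le_mul_of_nonneg_left hω hlam0.le)))
    exact h4
  have hsub : {ω : ℕ → boxS d L → ℝ | ¬ Reg2 κ (sc v ω) n x} ⊆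
      (⋃ w : boxS d L, {ω | κ * (1 + (boxNet d L).dist x w) ≤
        (boxMSet d L).lppM (1 / 8) (fun _ => 0) (sc v ω) n w}) ∪
      {ω | κ ≤ osc (fun j => sc v ω j x) n} := by
    intro ω hω
    by_contra hc
    rw [Set.mem_union, not_or] at hc
    obtain ⟨hc1, hc2⟩ := hc
    apply hω
    refine ⟨fun w => ?_, fun i j hij hj => ?_⟩
    · by_contra h
      exact hc1 (Set.mem_iUnion.mpr ⟨w, (not_le.mp h).le⟩)
    · have h1 := sum_le_osc (fun j => sc v ω j x) hij hj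
      by_contra h
      exact hc2 (le_trans (not_le.mp h).le h1)
  refine (measure_mono hsub).trans ((measure_union_le _ _).trans ?_)
  have h10 : PI (nz (boxS d L)) (⋃ w : boxS d L, {ω | κ * (1 + (boxNet d L).dist x w) ≤
        (boxMSet d L).lppM (1 / 8) (fun _ => 0) (sc v ω) n w}) ≤
      ENNReal.ofReal (CB * 3 ^ d * Real.exp (-(lam * κ))) := by
    refine (measure_iUnion_fintype_le _ _).trans ((Finset.sum_le_sum fun w _ => hlpp w).trans ?_)
    rw [← ENNReal.ofReal_sum_of_nonneg fun w _ => by positivity, ← Finset.mul_sum]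
    refine ENNReal.ofReal_le_ofReal ?_
    have h11 := (boxNet d L).sum_half x
    have h12 : 0 ≤ CB * Real.exp (-(lam * κ)) := by positivity
    calc CB * Real.exp (-(lam * κ)) * ∑ w, (1 / 2 : ℝ) ^ (boxNet d L).dist x w
        ≤ CB * Real.exp (-(lam * κ)) * 3 ^ d := mul_le_mul_of_nonneg_left h11 h12
      _ = _ := by ring
  refine (add_le_add h10 hosc).trans ?_
  rw [← ENNReal.ofReal_add (by positivity) (by positivity)]
  exact ENNReal.ofReal_le_ofReal (le_of_eq (by ring))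

/-- events of the real parts -/
theorem re_law (d L : ℕ) (k h : ℝ) (hk : 0 < k) (hk1 : k < 1) (hh : 0 < h)
    (E : Set (ℕ → boxS d L → ℝ)) (hE : MeasurableSet E) :
    PI (Measure.pi fun _ : boxS d L => gC) {ω | gz k h ω ∈ E} =
      PI (nz (boxS d L)) {ω | sc (h / ell k ^ 2) ω ∈ E} := by
  have hell : 0 < ell k := by
    unfold ell
    apply Real.log_pos
    rw [lt_div_iff₀ hk]
    linarith
  have hm : Measurable (fun (ω : ℕ → boxS d L → ℂ) (j : ℕ) (x : boxS d L) => (ω j x).re) := by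
    refine measurable_pi_lambda _ fun j => measurable_pi_lambda _ fun x => ?_
    exact Complex.measurable_re.comp ((measurable_pi_apply x).comp (measurable_pi_apply j))
  have hmE : MeasurableSet {ω : ℕ → boxS d L → ℝ | sc (h / ell k ^ 2) ω ∈ E} :=
    Reg2_measurable_sc _ hE
  rw [← re_map d L, Measure.map_apply hm hmE]
  congr 1
  ext ω
  have e1 : gz k h ω = sc (h / ell k ^ 2) (fun j x => (ω j x).re) := by
    funext j y
    unfold gz sc
    rw [Real.sqrt_div hh.le, Real.sqrt_sq hell.le]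
    ring
  simp only [Set.mem_ofPred_eq, Set.mem_preimage]
  rw [e1]

end DynC

end

/-! ### from `Lib_MP_36b788c.Brg0` -/

section

/-!
# The bridge: definitions and elementary facts

Two fields `G.1`, `G.2` (`N = 2`); during `ns` steps the second one gets the extra noise `ctl` at the sites of the ball `Bs`, which removes the logarithmic difference `δ z = log (G.2 z/G.1 z)`: `√h ctl = -δ/(ns + 1 - j)`, as long as the current state is regular (`RegSt`).

PROOF.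
* `bst_fst`, `bst_snd`: induction on `n`.
* `measurable_bst`: `RegSt` is a finite conjunction of closed or measurable conditions (`Complex.log` is measurable). `dep_vct` from `dep_trajT`.
* `lamS_sum`: `Σ_{j<ns} lamS ns j = Σ_{i<ns} (ns-1-i)/(ns-i) ≤ ns`. `lamS_le`: each of the `j` terms is `≤ 1/(ns-j+1)`; `lamS ns j ≤ 1 + log (ns+1)` (harmonic sum). `lamS_sq`: `lamS ns j ≤ 1 + log(ns/(ns-j))` for `j < ns`, `(1 + log x)² ≤ 4 √x` for `x ≥ 1`, `Σ_{j<ns} √(ns/(ns-j)) ≤ 2 ns`; constant `40` is generous (any proof of `Σ lamS² ≤ 20 ns` will do).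
* `ctl_le`: `√h ‖ctl‖ ≤ bd j/(ns+1-j)`. `energy`: `Σ_z ‖ctl‖² ≤ (2Rb+1)^d (m0/(ns+1) + ς lamS)²/h`, `(a+b)² ≤ 2a²+2b²`.
-/

open MeasureTheory ProbabilityTheory
open scoped ENNReal

namespace DynC

open Dyn

/-- parameters of a bridge -/
structure BPar (d L : ℕ) where
  y : boxS d L
  Rb : ℕ
  ns : ℕ
  κ : ℝ
  M6 : ℝ
  M8 : ℝ
  A0 : ℝ
  m0 : ℝ
  ς : ℝ

noncomputable def lamS (ns j : ℕ) : ℝ := ∑ i ∈ Finset.range j, 1 / ((ns : ℝ) - i)

variable {d L : ℕ}

/-- bound of the logarithmic difference at time `j` -/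
noncomputable def BPar.bd (P : BPar d L) (j : ℕ) : ℝ :=
  (P.m0 / (P.ns + 1) + P.ς * lamS P.ns j) * (P.ns + 1 - j)

/-- the ball -/
def BPar.Bs (P : BPar d L) (z : boxS d L) : Prop := (boxNet d L).dist P.y z ≤ P.Rb

/-- regular states at time `j` -/
def BPar.RegSt (P : BPar d L) (k : ℝ) (j : ℕ) (G : (boxS d L → ℂ) × (boxS d L → ℂ)) : Prop :=
  (∀ z, P.Bs z → G.1 z ≠ 0 ∧ G.2 z ≠ 0 ∧ ‖Complex.log (G.2 z / G.1 z)‖ ≤ P.bd j ∧
    k ^ (P.M6 + 1) ≤ ‖G.1 z‖ ∧ ‖G.1 z‖ ≤ k ^ (P.κ / 2) ∧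
    k ^ (P.M6 + 1) ≤ ‖G.2 z‖ ∧ ‖G.2 z‖ ≤ k ^ (P.κ / 2) ∧
    ∀ v ∈ (boxNet d L).nb z, k * ‖G.1 v‖ ≤ k ^ (P.κ / 2) * ‖G.1 z‖ ∧
      k * ‖G.2 v‖ ≤ k ^ (P.κ / 2) * ‖G.2 z‖) ∧
  ∀ v, ‖G.1 v - G.2 v‖ ≤ P.A0 * k ^ (-P.M8 + (boxNet d L).dist P.y v / 2)

/-- control -/
noncomputable def BPar.ctl (P : BPar d L) (k h : ℝ) (j : ℕ)
    (G : (boxS d L → ℂ) × (boxS d L → ℂ)) (z : boxS d L) : ℂ := open Classical in
  if P.Bs z ∧ j < P.ns ∧ P.RegSt k j G then
    -Complex.log (G.2 z / G.1 z) / ((Real.sqrt h * (P.ns + 1 - j) : ℝ) : ℂ)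
  else 0

/-- step of the controlled pair -/
noncomputable def BPar.bst (P : BPar d L) (β k h : ℝ) (j : ℕ)
    (G : (boxS d L → ℂ) × (boxS d L → ℂ)) (ξ : boxS d L → ℂ) :
    (boxS d L → ℂ) × (boxS d L → ℂ) :=
  (st2 d β k h L G.1 ξ, st2 d β k h L G.2 (fun z => ξ z + P.ctl k h j G z))

/-- the control as an adapted shift -/
noncomputable def BPar.vct (P : BPar d L) (β k h : ℝ) (G : (boxS d L → ℂ) × (boxS d L → ℂ))
    (j : ℕ) (ω : ℕ → boxS d L → ℂ) : boxS d L → ℂ :=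
  P.ctl k h j (trajT (P.bst β k h) G ω j)

private theorem Brg0_meas_ge {X : Type} [MeasurableSpace X] {f g : X → ℝ} (hf : Measurable f)
    (hg : Measurable g) : MeasurableSet {x | f x ≤ g x} := measurableSet_le hf hg

private theorem Brg0_meas_log {X : Type} [MeasurableSpace X] {f g : X → ℂ} (hf : Measurable f)
    (hg : Measurable g) : Measurable fun x => Complex.log (f x / g x) :=
  (hf.div hg).clog

private theorem Brg0_meas_RegSt (P : BPar d L) (k : ℝ) (j : ℕ) :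
    MeasurableSet {G : (boxS d L → ℂ) × (boxS d L → ℂ) | P.RegSt k j G} := by
  have m1 : ∀ z : boxS d L,
      Measurable fun G : (boxS d L → ℂ) × (boxS d L → ℂ) => G.1 z :=
    fun z => (measurable_pi_apply z).comp measurable_fst
  have m2 : ∀ z : boxS d L,
      Measurable fun G : (boxS d L → ℂ) × (boxS d L → ℂ) => G.2 z :=
    fun z => (measurable_pi_apply z).comp measurable_snd
  have e : {G : (boxS d L → ℂ) × (boxS d L → ℂ) | P.RegSt k j G} =
      (⋂ z : boxS d L, ⋂ (_ : P.Bs z),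
        ({G : (boxS d L → ℂ) × (boxS d L → ℂ) | G.1 z ≠ 0} ∩
        ({G | G.2 z ≠ 0} ∩ ({G | ‖Complex.log (G.2 z / G.1 z)‖ ≤ P.bd j} ∩
        ({G | k ^ (P.M6 + 1) ≤ ‖G.1 z‖} ∩ ({G | ‖G.1 z‖ ≤ k ^ (P.κ / 2)} ∩
        ({G | k ^ (P.M6 + 1) ≤ ‖G.2 z‖} ∩ ({G | ‖G.2 z‖ ≤ k ^ (P.κ / 2)} ∩
        (⋂ v : boxS d L, ⋂ (_ : v ∈ (boxNet d L).nb z),
          ({G | k * ‖G.1 v‖ ≤ k ^ (P.κ / 2) * ‖G.1 z‖} ∩
            {G | k * ‖G.2 v‖ ≤ k ^ (P.κ / 2) * ‖G.2 z‖}))))))))))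
      ∩ (⋂ v : boxS d L,
        {G | ‖G.1 v - G.2 v‖ ≤ P.A0 * k ^ (-P.M8 + (boxNet d L).dist P.y v / 2)}) := by
    ext G
    simp only [BPar.RegSt, Set.mem_ofPred_eq, Set.mem_inter_iff, Set.mem_iInter]
  rw [e]
  refine MeasurableSet.inter ?_ ?_
  · refine MeasurableSet.iInter fun z => MeasurableSet.iInter fun _ => ?_
    refine MeasurableSet.inter ((measurableSet_singleton (0 : ℂ)).compl.preimage (m1 z)) ?_
    refine MeasurableSet.inter ((measurableSet_singleton (0 : ℂ)).compl.preimage (m2 z)) ?_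
    refine MeasurableSet.inter
      (measurableSet_le (Brg0_meas_log (m2 z) (m1 z)).norm measurable_const) ?_
    refine MeasurableSet.inter (measurableSet_le measurable_const (m1 z).norm) ?_
    refine MeasurableSet.inter (measurableSet_le (m1 z).norm measurable_const) ?_
    refine MeasurableSet.inter (measurableSet_le measurable_const (m2 z).norm) ?_
    refine MeasurableSet.inter (measurableSet_le (m2 z).norm measurable_const) ?_
    refine MeasurableSet.iInter fun v => MeasurableSet.iInter fun _ => ?_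
    exact MeasurableSet.inter
      (measurableSet_le ((m1 v).norm.const_mul _) ((m1 z).norm.const_mul _))
      (measurableSet_le ((m2 v).norm.const_mul _) ((m2 z).norm.const_mul _))
  · exact MeasurableSet.iInter fun v =>
      measurableSet_le ((m1 v).sub (m2 v)).norm measurable_const

theorem measurable_ctl (P : BPar d L) (k h : ℝ) (j : ℕ) :
    Measurable (fun G : (boxS d L → ℂ) × (boxS d L → ℂ) => P.ctl k h j G) := by
  refine measurable_pi_lambda _ fun z => ?_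
  have m1 : Measurable fun G : (boxS d L → ℂ) × (boxS d L → ℂ) => G.1 z :=
    (measurable_pi_apply z).comp measurable_fst
  have m2 : Measurable fun G : (boxS d L → ℂ) × (boxS d L → ℂ) => G.2 z :=
    (measurable_pi_apply z).comp measurable_snd
  unfold BPar.ctl
  refine Measurable.ite ?_ ?_ measurable_const
  · have e : {G : (boxS d L → ℂ) × (boxS d L → ℂ) | P.Bs z ∧ j < P.ns ∧ P.RegSt k j G} =
        {_G | P.Bs z} ∩ ({_G | j < P.ns} ∩ {G | P.RegSt k j G}) := by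
      ext G
      rfl
    rw [e]
    exact (MeasurableSet.const _).inter ((MeasurableSet.const _).inter (Brg0_meas_RegSt P k j))
  · exact (Brg0_meas_log m2 m1).neg.div_const _

theorem measurable_bst (P : BPar d L) (β k h : ℝ) (j : ℕ) :
    Measurable fun p : ((boxS d L → ℂ) × (boxS d L → ℂ)) × (boxS d L → ℂ) =>
      P.bst β k h j p.1 p.2 := by
  have a1 : Measurable fun p : ((boxS d L → ℂ) × (boxS d L → ℂ)) × (boxS d L → ℂ) =>
      (p.1.1, p.2) := (measurable_fst.comp measurable_fst).prodMk measurable_snd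
  have a2 : Measurable fun p : ((boxS d L → ℂ) × (boxS d L → ℂ)) × (boxS d L → ℂ) =>
      (fun z => p.2 z + P.ctl k h j p.1 z) := by
    refine measurable_pi_lambda _ fun z => ?_
    have b1 : Measurable fun p : ((boxS d L → ℂ) × (boxS d L → ℂ)) × (boxS d L → ℂ) => p.2 z :=
      (measurable_pi_apply z).comp measurable_snd
    have b2 : Measurable fun p : ((boxS d L → ℂ) × (boxS d L → ℂ)) × (boxS d L → ℂ) =>
        P.ctl k h j p.1 z := by
      have b3 : Measurable fun p : ((boxS d L → ℂ) × (boxS d L → ℂ)) × (boxS d L → ℂ) =>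
        P.ctl k h j p.1 := (measurable_ctl P k h j).comp measurable_fst
      exact (measurable_pi_apply z).comp b3
    exact b1.add b2
  have a3 : Measurable fun p : ((boxS d L → ℂ) × (boxS d L → ℂ)) × (boxS d L → ℂ) =>
      (p.1.2, fun z => p.2 z + P.ctl k h j p.1 z) :=
    (measurable_snd.comp measurable_fst).prodMk a2
  have c1 := (measurable_st2 d β k h L).comp a1
  have c2 := (measurable_st2 d β k h L).comp a3
  exact c1.prodMk c2

theorem measurable_vct (P : BPar d L) (β k h : ℝ) (G : (boxS d L → ℂ) × (boxS d L → ℂ)) (j : ℕ) :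
    Measurable (P.vct β k h G j) := by
  unfold BPar.vct
  exact (measurable_ctl P k h j).comp
    ((measurable_trajT (P.bst β k h) (fun j => measurable_bst P β k h j) j).comp
      (measurable_const.prodMk measurable_id))

theorem dep_vct (P : BPar d L) (β k h : ℝ) (G : (boxS d L → ℂ) × (boxS d L → ℂ)) (j : ℕ) :
    Dep j (P.vct β k h G j) := by
  intro a b hab
  unfold BPar.vct
  have h1 : trajT (P.bst β k h) G a j = trajT (P.bst β k h) G b j :=
    dep_trajT (P.bst β k h) G j a b hab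
  rw [h1]

theorem vct_zero (P : BPar d L) (β k h : ℝ) (G : (boxS d L → ℂ) × (boxS d L → ℂ)) (j : ℕ)
    (hj : P.ns ≤ j) (ω : ℕ → boxS d L → ℂ) : P.vct β k h G j ω = 0 := by
  funext z
  unfold BPar.vct BPar.ctl
  rw [if_neg (fun h1 => absurd h1.2.1 (not_lt.mpr hj))]
  rfl

theorem vct_out (P : BPar d L) (β k h : ℝ) (G : (boxS d L → ℂ) × (boxS d L → ℂ)) (j : ℕ)
    (ω : ℕ → boxS d L → ℂ) (z : boxS d L) (hz : ¬ P.Bs z) : P.vct β k h G j ω z = 0 := by
  unfold BPar.vct BPar.ctl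
  rw [if_neg (fun h1 => hz h1.1)]

theorem bst_fst (P : BPar d L) (β k h : ℝ) (G : (boxS d L → ℂ) × (boxS d L → ℂ))
    (ω : ℕ → boxS d L → ℂ) (n : ℕ) :
    (trajT (P.bst β k h) G ω n).1 = traj (st2 d β k h L) G.1 ω n := by
  induction n with
  | zero => rfl
  | succ n ih =>
    show st2 d β k h L (trajT (P.bst β k h) G ω n).1 (ω n) =
      st2 d β k h L (traj (st2 d β k h L) G.1 ω n) (ω n)
    rw [ih]

theorem bst_snd (P : BPar d L) (β k h : ℝ) (G : (boxS d L → ℂ) × (boxS d L → ℂ))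
    (ω : ℕ → boxS d L → ℂ) (n : ℕ) :
    (trajT (P.bst β k h) G ω n).2 = traj (st2 d β k h L) G.2 (shft (P.vct β k h G) ω) n := by
  induction n with
  | zero => rfl
  | succ n ih =>
    show st2 d β k h L (trajT (P.bst β k h) G ω n).2
        (fun z => ω n z + P.ctl k h n (trajT (P.bst β k h) G ω n) z) =
      st2 d β k h L (traj (st2 d β k h L) G.2 (shft (P.vct β k h G) ω) n)
        (shft (P.vct β k h G) ω n)
    rw [ih]
    rfl

private theorem Brg0_exch (f : ℕ → ℝ) (m : ℕ) :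
    ∑ j ∈ Finset.range m, ∑ i ∈ Finset.range j, f i =
      ∑ i ∈ Finset.range m, ((m : ℝ) - 1 - i) * f i := by
  induction m with
  | zero => simp
  | succ m ih =>
    rw [Finset.sum_range_succ, ih, Finset.sum_range_succ, ← Finset.sum_add_distrib]
    have h0 : (((m + 1 : ℕ) : ℝ) - 1 - m) * f m = 0 := by
      push_cast
      ring
    rw [h0, add_zero]
    refine Finset.sum_congr rfl fun i _ => ?_
    push_cast
    ring

private theorem Brg0_pos (ns i : ℕ) (h : i < ns) : 0 < (ns : ℝ) - i := by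
  have : (i : ℝ) < ns := by exact_mod_cast h
  linarith

private theorem Brg0_lamS_nonneg (ns j : ℕ) (hj : j ≤ ns) : 0 ≤ lamS ns j := by
  unfold lamS
  refine Finset.sum_nonneg fun i hi => ?_
  have h1 := Brg0_pos ns i ((Finset.mem_range.1 hi).trans_le hj)
  positivity

theorem lamS_sum (ns : ℕ) : ∑ j ∈ Finset.range ns, lamS ns j ≤ ns := by
  unfold lamS
  rw [Brg0_exch]
  have h1 : ∀ i ∈ Finset.range ns, ((ns : ℝ) - 1 - i) * (1 / ((ns : ℝ) - i)) ≤ 1 := by
    intro i hi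
    have h2 := Brg0_pos ns i (Finset.mem_range.1 hi)
    rw [mul_one_div, div_le_one h2]
    linarith
  calc ∑ i ∈ Finset.range ns, ((ns : ℝ) - 1 - i) * (1 / ((ns : ℝ) - i))
      ≤ ∑ i ∈ Finset.range ns, (1 : ℝ) := Finset.sum_le_sum h1
    _ = ns := by simp

theorem lamS_le (ns j : ℕ) (hj : j ≤ ns) : 0 ≤ lamS ns j ∧ lamS ns j ≤ 1 + Real.log (ns + 1) := by
  refine ⟨Brg0_lamS_nonneg ns j hj, ?_⟩
  have h1 : lamS ns j ≤ lamS ns ns := by
    unfold lamS
    refine Finset.sum_le_sum_of_subset_of_nonneg (Finset.range_mono hj) fun i hi _ => ?_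
    have h1 := Brg0_pos ns i (Finset.mem_range.1 hi)
    positivity
  have h2 : lamS ns ns = ((harmonic ns : ℚ) : ℝ) := by
    unfold lamS harmonic
    rw [← Finset.sum_range_reflect]
    push_cast
    refine Finset.sum_congr rfl fun i hi => ?_
    have h3 := Finset.mem_range.1 hi
    have h4 : ((ns - 1 - i : ℕ) : ℝ) = (ns : ℝ) - 1 - i := by
      rw [Nat.sub_sub, Nat.cast_sub (by omega)]
      push_cast
      ring
    rw [h4, one_div]
    congr 1
    ring
  have h3 : ((harmonic ns : ℚ) : ℝ) ≤ 1 + Real.log ns := harmonic_le_one_add_log ns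
  have h4 : Real.log ns ≤ Real.log (ns + 1) := by
    rcases Nat.eq_zero_or_pos ns with h0 | h0
    · subst h0
      simp
    · exact Real.log_le_log (by exact_mod_cast h0) (by linarith)
  linarith

theorem lamS_sq (ns : ℕ) : ∑ j ∈ Finset.range ns, lamS ns j ^ 2 ≤ 20 * ns := by
  have h1 : ∀ j, lamS ns j ^ 2 = ∑ i ∈ Finset.range j,
      (2 * lamS ns i * (1 / ((ns : ℝ) - i)) + (1 / ((ns : ℝ) - i)) ^ 2) := by
    intro j
    induction j with
    | zero => simp [lamS]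
    | succ j ih =>
      rw [Finset.sum_range_succ, ← ih]
      have h2 : lamS ns (j + 1) = lamS ns j + 1 / ((ns : ℝ) - j) := by
        unfold lamS
        rw [Finset.sum_range_succ]
      rw [h2]
      ring
  simp_rw [h1]
  rw [Brg0_exch]
  have h2 : ∀ i ∈ Finset.range ns, ((ns : ℝ) - 1 - i) *
      (2 * lamS ns i * (1 / ((ns : ℝ) - i)) + (1 / ((ns : ℝ) - i)) ^ 2) ≤
      2 * lamS ns i + 1 := by
    intro i hi
    have h3 := Brg0_pos ns i (Finset.mem_range.1 hi)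
    have h4 := Brg0_lamS_nonneg ns i (Finset.mem_range.1 hi).le
    have h5 : 1 ≤ (ns : ℝ) - i := by
      have : ((i + 1 : ℕ) : ℝ) ≤ ns := by exact_mod_cast Finset.mem_range.1 hi
      push_cast at this
      linarith
    have h6 : ((ns : ℝ) - 1 - i) * (1 / ((ns : ℝ) - i)) ≤ 1 := by
      rw [mul_one_div, div_le_one h3]
      linarith
    have h6' : 0 ≤ ((ns : ℝ) - 1 - i) * (1 / ((ns : ℝ) - i)) := by
      have : 0 ≤ (ns : ℝ) - 1 - i := by linarith
      positivity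
    have h7 : 1 / ((ns : ℝ) - i) ≤ 1 := by
      rw [div_le_one h3]
      exact h5
    have h8 : 0 ≤ 1 / ((ns : ℝ) - i) := by positivity
    calc ((ns : ℝ) - 1 - i) *
          (2 * lamS ns i * (1 / ((ns : ℝ) - i)) + (1 / ((ns : ℝ) - i)) ^ 2)
        = (((ns : ℝ) - 1 - i) * (1 / ((ns : ℝ) - i))) * (2 * lamS ns i) +
          (((ns : ℝ) - 1 - i) * (1 / ((ns : ℝ) - i))) * (1 / ((ns : ℝ) - i)) := by ring
      _ ≤ 1 * (2 * lamS ns i) + 1 * 1 :=
          add_le_add (mul_le_mul_of_nonneg_right h6 (by linarith))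
            (mul_le_mul h6 h7 h8 zero_le_one)
      _ = 2 * lamS ns i + 1 := by ring
  have h9 := Finset.sum_le_sum h2
  rw [Finset.sum_add_distrib, ← Finset.mul_sum] at h9
  have h10 := lamS_sum ns
  have h11 : ∑ i ∈ Finset.range ns, (1 : ℝ) = ns := by simp
  have h12 : (0 : ℝ) ≤ ns := Nat.cast_nonneg ns
  rw [h11] at h9
  linarith

theorem ctl_le (P : BPar d L) (k h : ℝ) (hh : 0 < h) (hm : 0 ≤ P.m0) (hς : 0 ≤ P.ς) (j : ℕ)
    (G : (boxS d L → ℂ) × (boxS d L → ℂ)) (z : boxS d L) :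
    Real.sqrt h * ‖P.ctl k h j G z‖ ≤
      if j < P.ns then P.m0 / (P.ns + 1) + P.ς * lamS P.ns j else 0 := by
  by_cases hj : j < P.ns
  · rw [if_pos hj]
    have h0 : 0 ≤ P.m0 / (P.ns + 1) + P.ς * lamS P.ns j := by
      have := Brg0_lamS_nonneg P.ns j hj.le
      positivity
    unfold BPar.ctl
    by_cases hc : P.Bs z ∧ j < P.ns ∧ P.RegSt k j G
    · rw [if_pos hc]
      have h1 := (hc.2.2.1 z hc.1).2.2.1
      have hs : 0 < Real.sqrt h := Real.sqrt_pos.2 hh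
      have h2 : 0 < (P.ns : ℝ) + 1 - j := by
        have := Brg0_pos P.ns j hj
        linarith
      have h3 : 0 < Real.sqrt h * ((P.ns : ℝ) + 1 - j) := mul_pos hs h2
      rw [norm_div, norm_neg, Complex.norm_real, Real.norm_of_nonneg h3.le]
      have h4 : Real.sqrt h * (‖Complex.log (G.2 z / G.1 z)‖ /
          (Real.sqrt h * ((P.ns : ℝ) + 1 - j))) =
          ‖Complex.log (G.2 z / G.1 z)‖ / ((P.ns : ℝ) + 1 - j) := by
        field_simp
      rw [h4, div_le_iff₀ h2]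
      exact h1
    · rw [if_neg hc, norm_zero, mul_zero]
      exact h0
  · rw [if_neg hj]
    unfold BPar.ctl
    rw [if_neg (fun h1 => hj h1.2.1), norm_zero, mul_zero]

private theorem Brg0_card (P : BPar d L) [DecidablePred P.Bs] :
    ((Finset.univ.filter P.Bs).card : ℝ) ≤ (2 * P.Rb + 1 : ℝ) ^ d := by
  have h1 : ((Finset.univ.filter P.Bs).card) ≤
      (Fintype.piFinset (fun i : Fin d =>
        Finset.Icc ((P.y : Fin d → ℤ) i - P.Rb) ((P.y : Fin d → ℤ) i + P.Rb))).card := by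
    refine Finset.card_le_card_of_injOn (fun z : boxS d L => (z : Fin d → ℤ)) ?_ ?_
    · intro z hz
      have hz' : (boxNet d L).dist P.y z ≤ P.Rb := (Finset.mem_filter.1 hz).2
      rw [boxNet_dist] at hz'
      refine Fintype.mem_piFinset.2 fun i => ?_
      have h2 : ((P.y : Fin d → ℤ) i - (z : Fin d → ℤ) i).natAbs ≤ P.Rb := by
        refine le_trans ?_ hz'
        unfold l1
        exact Finset.single_le_sum
          (f := fun i => ((P.y : Fin d → ℤ) i - (z : Fin d → ℤ) i).natAbs)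
          (fun _ _ => Nat.zero_le _) (Finset.mem_univ i)
      rw [Finset.mem_Icc]
      show (P.y : Fin d → ℤ) i - P.Rb ≤ (z : Fin d → ℤ) i ∧
        (z : Fin d → ℤ) i ≤ (P.y : Fin d → ℤ) i + P.Rb
      constructor <;> omega
    · intro a _ b _ hab
      exact Subtype.ext hab
  have h2 : (Fintype.piFinset (fun i : Fin d =>
        Finset.Icc ((P.y : Fin d → ℤ) i - P.Rb) ((P.y : Fin d → ℤ) i + P.Rb))).card =
      (2 * P.Rb + 1) ^ d := by
    rw [Fintype.card_piFinset]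
    have h3 : ∀ i : Fin d, (Finset.Icc ((P.y : Fin d → ℤ) i - P.Rb)
        ((P.y : Fin d → ℤ) i + P.Rb)).card = 2 * P.Rb + 1 := by
      intro i
      rw [Int.card_Icc]
      omega
    simp_rw [h3]
    simp
  rw [h2] at h1
  exact_mod_cast h1

/-- bound of the energy of the control -/
noncomputable def BPar.En (P : BPar d L) (h : ℝ) : ℝ :=
  (2 * P.Rb + 1 : ℝ) ^ d * (2 * P.m0 ^ 2 / ((P.ns + 1) * h) + 40 * P.ς ^ 2 * P.ns / h)

private theorem Brg0_step (P : BPar d L) (β k h : ℝ) (hh : 0 < h) (hm : 0 ≤ P.m0)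
    (hς : 0 ≤ P.ς) (G : (boxS d L → ℂ) × (boxS d L → ℂ)) (ω : ℕ → boxS d L → ℂ) (j : ℕ)
    (hj : j < P.ns) :
    ∑ x, ‖P.vct β k h G j ω x‖ ^ 2 ≤ (2 * P.Rb + 1 : ℝ) ^ d *
      ((2 * P.m0 ^ 2 / (P.ns + 1) ^ 2 + 2 * P.ς ^ 2 * lamS P.ns j ^ 2) / h) := by
  classical
  have h1 : ∀ x, ‖P.vct β k h G j ω x‖ ^ 2 ≤
      (2 * P.m0 ^ 2 / (P.ns + 1) ^ 2 + 2 * P.ς ^ 2 * lamS P.ns j ^ 2) / h := by
    intro x
    have h2 := ctl_le P k h hh hm hς j (trajT (P.bst β k h) G ω j) x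
    rw [if_pos hj] at h2
    have h3 : (Real.sqrt h * ‖P.ctl k h j (trajT (P.bst β k h) G ω j) x‖) ^ 2 ≤
        (P.m0 / (P.ns + 1) + P.ς * lamS P.ns j) ^ 2 :=
      pow_le_pow_left₀ (by positivity) h2 2
    rw [mul_pow, Real.sq_sqrt hh.le] at h3
    rw [le_div_iff₀ hh]
    have h4 : (P.m0 / (P.ns + 1) + P.ς * lamS P.ns j) ^ 2 ≤
        2 * P.m0 ^ 2 / (P.ns + 1) ^ 2 + 2 * P.ς ^ 2 * lamS P.ns j ^ 2 := by
      have h5 : 2 * P.m0 ^ 2 / ((P.ns : ℝ) + 1) ^ 2 = 2 * (P.m0 / (P.ns + 1)) ^ 2 := by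
        rw [div_pow]
        ring
      rw [h5]
      nlinarith [sq_nonneg (P.m0 / ((P.ns : ℝ) + 1) - P.ς * lamS P.ns j)]
    calc ‖P.vct β k h G j ω x‖ ^ 2 * h
        = h * ‖P.ctl k h j (trajT (P.bst β k h) G ω j) x‖ ^ 2 := mul_comm _ _
      _ ≤ _ := h3.trans h4
  have h0 : 0 ≤ (2 * P.m0 ^ 2 / ((P.ns : ℝ) + 1) ^ 2 + 2 * P.ς ^ 2 * lamS P.ns j ^ 2) / h := by
    positivity
  have h2 : ∑ x, ‖P.vct β k h G j ω x‖ ^ 2 =
      ∑ x ∈ Finset.univ.filter P.Bs, ‖P.vct β k h G j ω x‖ ^ 2 := by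
    symm
    refine Finset.sum_subset (Finset.filter_subset _ _) fun x _ hx => ?_
    have hx' : ¬ P.Bs x := fun h3 => hx (Finset.mem_filter.2 ⟨Finset.mem_univ x, h3⟩)
    rw [vct_out P β k h G j ω x hx']
    simp
  rw [h2]
  calc ∑ x ∈ Finset.univ.filter P.Bs, ‖P.vct β k h G j ω x‖ ^ 2
      ≤ ∑ x ∈ Finset.univ.filter P.Bs,
        (2 * P.m0 ^ 2 / ((P.ns : ℝ) + 1) ^ 2 + 2 * P.ς ^ 2 * lamS P.ns j ^ 2) / h :=
        Finset.sum_le_sum fun x _ => h1 x
    _ = ((Finset.univ.filter P.Bs).card : ℝ) *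
        ((2 * P.m0 ^ 2 / ((P.ns : ℝ) + 1) ^ 2 + 2 * P.ς ^ 2 * lamS P.ns j ^ 2) / h) := by
        rw [Finset.sum_const, nsmul_eq_mul]
    _ ≤ _ := mul_le_mul_of_nonneg_right (Brg0_card P) h0

theorem energy (P : BPar d L) (β k h : ℝ) (hh : 0 < h) (hm : 0 ≤ P.m0) (hς : 0 ≤ P.ς)
    (G : (boxS d L → ℂ) × (boxS d L → ℂ)) (ω : ℕ → boxS d L → ℂ) :
    ∑ j ∈ Finset.range P.ns, ∑ x, ‖P.vct β k h G j ω x‖ ^ 2 ≤ P.En h := by
  have h1 : ∑ j ∈ Finset.range P.ns, ∑ x, ‖P.vct β k h G j ω x‖ ^ 2 ≤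
      ∑ j ∈ Finset.range P.ns, (2 * P.Rb + 1 : ℝ) ^ d *
      ((2 * P.m0 ^ 2 / (P.ns + 1) ^ 2 + 2 * P.ς ^ 2 * lamS P.ns j ^ 2) / h) :=
    Finset.sum_le_sum fun j hj =>
      Brg0_step P β k h hh hm hς G ω j (Finset.mem_range.1 hj)
  refine h1.trans ?_
  rw [← Finset.mul_sum, ← Finset.sum_div, Finset.sum_add_distrib, ← Finset.mul_sum,
    Finset.sum_const, Finset.card_range, nsmul_eq_mul]
  unfold BPar.En
  refine mul_le_mul_of_nonneg_left ?_ (by positivity)
  have h2 := lamS_sq P.ns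
  have h3 : (P.ns : ℝ) * (2 * P.m0 ^ 2 / (P.ns + 1) ^ 2) ≤ 2 * P.m0 ^ 2 / (P.ns + 1) := by
    have h4 : (0 : ℝ) < P.ns + 1 := by positivity
    have h5 : (2 * P.m0 ^ 2 / ((P.ns : ℝ) + 1)) =
        ((P.ns : ℝ) + 1) * (2 * P.m0 ^ 2 / (P.ns + 1) ^ 2) := by
      field_simp
    rw [h5]
    exact mul_le_mul_of_nonneg_right (by linarith) (by positivity)
  have h4 : 2 * P.ς ^ 2 * ∑ j ∈ Finset.range P.ns, lamS P.ns j ^ 2 ≤
      2 * P.ς ^ 2 * (20 * P.ns) := mul_le_mul_of_nonneg_left h2 (by positivity)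
  have h5 : 2 * P.m0 ^ 2 / (((P.ns : ℝ) + 1) * h) + 40 * P.ς ^ 2 * P.ns / h =
      (2 * P.m0 ^ 2 / (P.ns + 1) + 2 * P.ς ^ 2 * (20 * P.ns)) / h := by
    have h4 : (0 : ℝ) < P.ns + 1 := by positivity
    field_simp
    ring
  rw [h5]
  exact div_le_div_of_nonneg_right (add_le_add h3 h4) hh.le

end DynC

end

/-! ### from `Lib_MP_36b788c.Brg1` -/

section

/-!
# The bridge: one step of the logarithmic difference; growth of the difference for every noise

`κ' = min 1 β κ/8`, `M9 = M8 + 2 M6 + 4`, `ς = h min (k^κ') (k^{-M9} A0)`, `m0 ≤ (κ/16) ell + 4`.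

PROOF of `brg_step`. `G` regular at time `j < ns`, `δ = log(G.2 z/G.1 z)`, `c = ctl`, `√h c = -δ/(ns+1-j)`, `w = e^{√h ξ} G.1 z`, `w' = e^{√h(ξ+c)} G.2 z`. `JV v = t(v) v`, `t = psi/‖v‖ ∈ (0,1]`, `1 - t ≤ h‖v‖^β`. `G⁺.1 z = w (t + r)`, `r = k h (Σ_{v ∈ nb z} G.1 v - 2d G.1 z)/w`, and the same with primes.
`G⁺.2 z/G⁺.1 z = exp(δ + √h c) (t'+r')/(t+r)`. Sizes: `|w|, |w'| ≤ 2k^{κ/2}`, so `|1-t|, |1-t'| ≤ h (2k^{κ/2})^β`, `|r|, |r'| ≤ 8 d h k^{κ/2}`; for small `k` the number `(t'+r')/(t+r) = e^{ϵ}` with `|ϵ| ≤ h k^{κ'}` (`ϵ` = principal logarithm).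
Linear bound: `|e^δ - 1| ≥ c|δ|/(1+|δ|)` for `|Im δ| ≤ π`, and `|e^δ - 1| = ‖G.1 z - G.2 z‖/‖G.1 z‖ ≤ A0 k^{-M8} k^{-(M6+1)}`, `|δ| ≤ bd j ≤ m0 + ς ns ≤ (κ/16) ell + 5`: so `|δ| ≤ k^{-(M8+M6+2)} A0`. `|t' - t| ≤ h(1+β)(2k^{κ/2})^β |log(|w'|/|w|)| ≤ h|δ|` (`t` as a function of `log‖v‖`), `|r'-r| ≤ k h Σ‖G.2 v - G.1 v‖/|w'| + … ≤ h A0 k^{-(M8+M6+2)} + h k^{κ/4}|w'/w - 1|`, `|w'/w - 1| ≤ 2k^{-κ/8}|δ|`. So `|ϵ| ≤ 2(|t'-t|+|r'-r|) ≤ h k^{-M9} A0`.
Hence `|ϵ| ≤ ς`. `‖log(e^x)‖ ≤ ‖x‖` (the principal value has the smallest imaginary part), so `‖log(G⁺.2 z/G⁺.1 z)‖ ≤ ‖δ‖(ns-j)/(ns+1-j) + ς ≤ bd (j+1)` (`lamS (j+1) = lamS j + 1/(ns-j)`).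

PROOF of `brg_grow`. If the state is not regular at step `j` (or `j ≥ ns`) both fields get the same noise and `D = dif` satisfies `DStep`. Let `τ` be the last `j < n`, `j < ns` with a regular state. `D_τ v ≤ A0 k^{-M8 + dist y v/2}`. At the step `τ`, for `z` in the ball: `D_{τ+1} z ≤ e^{b}(D_τ z + |e^{√h c}-1| ‖G.2 z‖) + k h cpl D_τ z` and `|e^{√h c} - 1| ‖G.2 z‖ ≤ 2|δ| ‖G.2 z‖ ≤ C(1 + ell) e^{|δ|} D_τ z ≤ k^{-κ/4} D_τ z`. So `D_{τ+1} v ≤ e^{b_τ v} 2k^{-κ/4} D_τ v + k h cpl D_τ v`.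
Then `grow_path` (`q' = 1/8`, `ρ = 1/2`, `H v = -(1/2) dist y v`, one step by hand, `A = 2 A0 k^{-M8-κ/4}`) from `τ` to `n`, `lpp` from time `τ` is at most `lpp` from time `0`. If there is no such `τ`: `grow_path` from time `0` with the initial bound.
-/

open MeasureTheory ProbabilityTheory
open scoped ENNReal

namespace DynC

open Dyn

/-- consistent parameters -/
structure BPar.OK {d L : ℕ} (P : BPar d L) (β k h : ℝ) : Prop where
  hκ : 0 < P.κ
  hκ1 : P.κ ≤ 1 / 8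
  hM6 : 0 ≤ P.M6
  hM8 : 0 ≤ P.M8
  hA : 0 ≤ P.A0
  hm : P.m0 ≤ P.κ / 16 * ell k + 4
  hm0 : 0 ≤ P.m0
  hς : P.ς = h * min (k ^ (min 1 β * P.κ / 8)) (k ^ (-(P.M8 + 2 * P.M6 + 4)) * P.A0)
  hns : 1 ≤ P.ns * h
  hns1 : P.ns * h ≤ ell k ^ 3

private theorem Brg1_norm_log_exp (y : ℂ) : ‖Complex.log (Complex.exp y)‖ ≤ ‖y‖ := by
  by_cases h : -Real.pi < y.im ∧ y.im ≤ Real.pi
  · rw [Complex.log_exp h.1 h.2]
  · have hre : (Complex.log (Complex.exp y)).re = y.re := by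
      rw [Complex.log_re, Complex.norm_exp, Real.log_exp]
    have him : |(Complex.log (Complex.exp y)).im| ≤ |y.im| := by
      rw [Complex.log_im]
      have h1 : |(Complex.exp y).arg| ≤ Real.pi := Complex.abs_arg_le_pi _
      have h2 : Real.pi ≤ |y.im| := by
        by_contra hc
        rw [not_le, abs_lt] at hc
        exact h ⟨hc.1, hc.2.le⟩
      exact h1.trans h2
    rw [Complex.norm_def, Complex.norm_def]
    refine Real.sqrt_le_sqrt ?_
    rw [Complex.normSq_apply, Complex.normSq_apply, hre]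
    have := pow_le_pow_left₀ (abs_nonneg _) him 2
    rw [sq_abs, sq_abs] at this
    nlinarith

private theorem Brg1_exp_sub (x : ℂ) : ‖Complex.exp x - 1‖ ≤ ‖x‖ * Real.exp ‖x‖ := by
  have := Complex.norm_exp_sub_sum_le_norm_mul_exp x 1
  simpa using this

/-- `t = psi/m` as a function of `log m` -/
private theorem Brg1_tt1 {β h : ℝ} (hβ : 0 < β) (hh : 0 < h) {m m' M : ℝ} (hm : 0 < m)
    (hmm : m ≤ m') (hM : m' ≤ M) :
    psi β h m / m - psi β h m' / m' ≤ h * β * M ^ β * Real.log (m' / m) := by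
  have hm' : 0 < m' := hm.trans_le hmm
  have hMp : 0 < M := hm'.trans_le hM
  have p1 := psi_pos hβ hh.le hm
  have p2 := psi_pos hβ hh.le hm'
  have e1 := psi_eq hβ hh.le hm.le
  have e2 := psi_eq hβ hh.le hm'.le
  have hr := psi_ratio hβ hh.le hm hmm
  rw [Real.rpow_add p1, Real.rpow_one] at e1
  rw [Real.rpow_add p2, Real.rpow_one] at e2
  set p := psi β h m with hp
  set p' := psi β h m' with hp'
  have q1 : 0 < p ^ β := Real.rpow_pos_of_pos p1 _
  have q2 : 0 < p' ^ β := Real.rpow_pos_of_pos p2 _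
  have t1 : p / m = 1 / (1 + h * p ^ β) := by
    rw [div_eq_div_iff hm.ne' (by positivity)]
    linarith
  have t2 : p' / m' = 1 / (1 + h * p' ^ β) := by
    rw [div_eq_div_iff hm'.ne' (by positivity)]
    linarith
  have hpp : p ^ β ≤ p' ^ β := Real.rpow_le_rpow p1.le (psi_mono hβ hh.le hmm) hβ.le
  have s1 : p / m - p' / m' ≤ h * (p' ^ β - p ^ β) := by
    rw [t1, t2, div_sub_div _ _ (by positivity) (by positivity), div_le_iff₀ (by positivity)]
    have a1 : 1 ≤ (1 + h * p ^ β) * (1 + h * p' ^ β) := by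
      have : 0 ≤ h * p ^ β := by positivity
      have : 0 ≤ h * p' ^ β := by positivity
      nlinarith
    have a2 : 0 ≤ h * (p' ^ β - p ^ β) := mul_nonneg hh.le (by linarith)
    nlinarith
  have s2 : p' / p ≤ m' / m := by
    rw [div_le_div_iff₀ p1 hm]
    rw [div_le_div_iff₀ hm' hm] at hr
    linarith
  have s3 : p' ^ β - p ^ β ≤ β * M ^ β * Real.log (m' / m) := by
    have b1 : p ^ β = p' ^ β * Real.exp (-(β * Real.log (p' / p))) := by
      rw [Real.log_div p2.ne' p1.ne', Real.rpow_def_of_pos p1, Real.rpow_def_of_pos p2,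
        ← Real.exp_add]
      congr 1
      ring
    have b2 : 1 - β * Real.log (p' / p) ≤ Real.exp (-(β * Real.log (p' / p))) := by
      have := Real.add_one_le_exp (-(β * Real.log (p' / p)))
      linarith
    have b3 : Real.log (p' / p) ≤ Real.log (m' / m) :=
      Real.log_le_log (by positivity) s2
    have b4 : 0 ≤ Real.log (m' / m) := Real.log_nonneg (by rw [le_div_iff₀ hm]; linarith)
    have b5 : p' ^ β ≤ M ^ β :=
      Real.rpow_le_rpow p2.le ((psi_le hβ hh.le hm'.le).trans hM) hβ.le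
    calc p' ^ β - p ^ β = p' ^ β * (1 - Real.exp (-(β * Real.log (p' / p)))) := by
          rw [b1]; ring
      _ ≤ p' ^ β * (β * Real.log (m' / m)) := by
          refine mul_le_mul_of_nonneg_left ?_ q2.le
          have := mul_le_mul_of_nonneg_left b3 hβ.le
          linarith
      _ ≤ M ^ β * (β * Real.log (m' / m)) := by
          refine mul_le_mul_of_nonneg_right b5 (by positivity)
      _ = β * M ^ β * Real.log (m' / m) := by ring
  calc p / m - p' / m' ≤ h * (p' ^ β - p ^ β) := s1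
    _ ≤ h * (β * M ^ β * Real.log (m' / m)) := mul_le_mul_of_nonneg_left s3 hh.le
    _ = _ := by ring

private theorem Brg1_tt {β h : ℝ} (hβ : 0 < β) (hh : 0 < h) {m m' M : ℝ} (hm : 0 < m)
    (hm' : 0 < m') (hM : m ≤ M) (hM' : m' ≤ M) :
    |psi β h m' / m' - psi β h m / m| ≤ h * β * M ^ β * |Real.log (m' / m)| := by
  rcases le_total m m' with hc | hc
  · have h1 := Brg1_tt1 hβ hh hm hc hM'
    have h2 := psi_ratio hβ hh.le hm hc
    have h3 : 0 ≤ Real.log (m' / m) := Real.log_nonneg (by rw [le_div_iff₀ hm]; linarith)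
    rw [abs_of_nonpos (by linarith), abs_of_nonneg h3]
    linarith
  · have h1 := Brg1_tt1 hβ hh hm' hc hM
    have h2 := psi_ratio hβ hh.le hm' hc
    have h3 : 0 ≤ Real.log (m / m') := Real.log_nonneg (by rw [le_div_iff₀ hm']; linarith)
    have h4 : Real.log (m' / m) = -Real.log (m / m') := by
      rw [← Real.log_inv, inv_div]
    rw [abs_of_nonneg (by linarith), h4, abs_neg, abs_of_nonneg h3]
    exact h1

private theorem Brg1_JV (β h : ℝ) (w : ℂ) :
    JV β h w = ((psi β h ‖w‖ / ‖w‖ : ℝ) : ℂ) * w := by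
  unfold JV
  rw [Complex.real_smul]

private theorem Brg1_exp_hi {A : ℂ} {a : ℝ} (hA : ‖A‖ ≤ a) (ha : a ≤ 1 / 20) :
    ‖Complex.exp A‖ ≤ 10 / 9 := by
  rw [Complex.norm_exp]
  have h1 : A.re ≤ 1 / 20 := (le_abs_self _).trans ((Complex.abs_re_le_norm A).trans (hA.trans ha))
  have h2 := Real.add_one_le_exp (-A.re)
  have h3 : Real.exp A.re * Real.exp (-A.re) = 1 := by
    rw [← Real.exp_add]; simp
  have h4 := Real.exp_pos A.re
  nlinarith

private theorem Brg1_exp_lo {A : ℂ} {a : ℝ} (hA : ‖A‖ ≤ a) (ha : a ≤ 1 / 20) :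
    9 / 10 ≤ ‖Complex.exp A‖ := by
  rw [Complex.norm_exp]
  have h1 : -(1 / 20) ≤ A.re := by
    have := (neg_abs_le A.re)
    have := (Complex.abs_re_le_norm A).trans (hA.trans ha)
    linarith
  have h2 := Real.add_one_le_exp A.re
  linarith

/-- the one step estimate for complex numbers -/
private theorem Brg1_core {β h k : ℝ} (hβ : 0 < β) (hh : 0 < h) (hk : 0 < k) (hk1 : k ≤ 1)
    {ι : Type} (s : Finset ι) (d : ℕ) (hs : s.card ≤ 2 * d) (f1 f2 : ι → ℂ) (g1 g2 A : ℂ)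
    (a K E : ℝ) (hg1 : g1 ≠ 0) (hg2 : g2 ≠ 0) (ha0 : 0 ≤ a) (ha1 : a ≤ 1) (hA : ‖A‖ ≤ 1 / 40)
    (hB : a * ‖Complex.log (g2 / g1)‖ ≤ 1 / 40) (hK0 : 0 ≤ K) (hK1 : K ≤ 1) (hm1 : ‖g1‖ ≤ K)
    (hm2 : ‖g2‖ ≤ K) (hf1 : ∀ v ∈ s, k * ‖f1 v‖ ≤ K * ‖g1‖) (hf2 : ∀ v ∈ s, k * ‖f2 v‖ ≤ K * ‖g2‖)
    (hE : Real.exp ‖Complex.log (g2 / g1)‖ ≤ E) (h3 : h * 2 ^ β ≤ 1 / 40)
    (h4 : h * (8 * d) ≤ 1 / 40) :
    JV β h (Complex.exp A * g1) + (k * h) • (∑ v ∈ s, f1 v - ((2 * d : ℕ) : ℝ) • g1) ≠ 0 ∧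
    JV β h (Complex.exp (A - a * Complex.log (g2 / g1)) * g2) +
        (k * h) • (∑ v ∈ s, f2 v - ((2 * d : ℕ) : ℝ) • g2) ≠ 0 ∧
    ‖Complex.log ((JV β h (Complex.exp (A - a * Complex.log (g2 / g1)) * g2) +
        (k * h) • (∑ v ∈ s, f2 v - ((2 * d : ℕ) : ℝ) • g2)) /
      (JV β h (Complex.exp A * g1) + (k * h) • (∑ v ∈ s, f1 v - ((2 * d : ℕ) : ℝ) • g1)))‖ ≤
      (1 - a + h * (2 * β * (2 * K) ^ β + 8 * d * K * E + 8 * d * k)) *
        ‖Complex.log (g2 / g1)‖ + 4 * h * k * (∑ v ∈ s, ‖f1 v - f2 v‖) / ‖g2‖ := by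
  set δ := Complex.log (g2 / g1) with hδ
  have hexp : Complex.exp δ = g2 / g1 := Complex.exp_log (div_ne_zero hg2 hg1)
  have hg1p : 0 < ‖g1‖ := norm_pos_iff.2 hg1
  have hg2p : 0 < ‖g2‖ := norm_pos_iff.2 hg2
  set w := Complex.exp A * g1 with hw
  set w' := Complex.exp (A - a * δ) * g2 with hw'
  have hg2e : g2 = Complex.exp δ * g1 := by
    rw [hexp, div_mul_cancel₀ _ hg1]
  have hww : w' = Complex.exp ((1 - a : ℝ) * δ) * w := by
    rw [hw', hw]
    conv_lhs => rw [hg2e]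
    rw [← mul_assoc, ← mul_assoc, ← Complex.exp_add, ← Complex.exp_add]
    congr 2
    push_cast
    ring
  have hw0 : w ≠ 0 := mul_ne_zero (Complex.exp_ne_zero _) hg1
  have hw'0 : w' ≠ 0 := mul_ne_zero (Complex.exp_ne_zero _) hg2
  have hwp : 0 < ‖w‖ := norm_pos_iff.2 hw0
  have hw'p : 0 < ‖w'‖ := norm_pos_iff.2 hw'0
  have hAB : ‖A - a * δ‖ ≤ 1 / 20 := by
    have h1 : ‖(a : ℂ) * δ‖ = a * ‖δ‖ := by
      rw [norm_mul, Complex.norm_real, Real.norm_of_nonneg ha0]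
    have h2 := norm_sub_le A (a * δ)
    rw [h1] at h2
    linarith
  -- sizes of `w`, `w'`
  have e1 := Brg1_exp_hi hA (by norm_num)
  have e2 := Brg1_exp_lo hA (by norm_num)
  have e3 := Brg1_exp_hi hAB le_rfl
  have e4 := Brg1_exp_lo hAB le_rfl
  have nw : ‖w‖ = ‖Complex.exp A‖ * ‖g1‖ := norm_mul _ _
  have nw' : ‖w'‖ = ‖Complex.exp (A - a * δ)‖ * ‖g2‖ := norm_mul _ _
  have w1 : ‖w‖ ≤ 2 * K := by
    rw [nw]
    calc _ ≤ 10 / 9 * K := mul_le_mul e1 hm1 hg1p.le (by norm_num)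
      _ ≤ 2 * K := by linarith
  have w1' : ‖w'‖ ≤ 2 * K := by
    rw [nw']
    calc _ ≤ 10 / 9 * K := mul_le_mul e3 hm2 hg2p.le (by norm_num)
      _ ≤ 2 * K := by linarith
  have w2 : 9 / 10 * ‖g1‖ ≤ ‖w‖ := by
    rw [nw]
    exact mul_le_mul_of_nonneg_right e2 hg1p.le
  have w2' : 9 / 10 * ‖g2‖ ≤ ‖w'‖ := by
    rw [nw']
    exact mul_le_mul_of_nonneg_right e4 hg2p.le
  -- the factors `t`
  set t := psi β h ‖w‖ / ‖w‖ with ht
  set t' := psi β h ‖w'‖ / ‖w'‖ with ht'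
  have tb : ∀ m : ℝ, 0 < m → m ≤ 2 → 39 / 40 ≤ psi β h m / m ∧ psi β h m / m ≤ 1 := by
    intro m hm hm2
    have a1 := psi_lower hβ hh.le hm.le
    have a2 := psi_le hβ hh.le hm.le
    have a3 : h * m ^ β ≤ 1 / 40 :=
      (mul_le_mul_of_nonneg_left (Real.rpow_le_rpow hm.le hm2 hβ.le) hh.le).trans h3
    constructor
    · rw [le_div_iff₀ hm]
      nlinarith
    · rw [div_le_one hm]
      exact a2
  have tb1 := tb ‖w‖ hwp (by linarith)
  have tb2 := tb ‖w'‖ hw'p (by linarith)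
  rw [← ht] at tb1
  rw [← ht'] at tb2
  -- the remainders `r`
  set c1 : ℂ := ∑ v ∈ s, f1 v - ((2 * d : ℕ) : ℝ) • g1 with hc1
  set c2 : ℂ := ∑ v ∈ s, f2 v - ((2 * d : ℕ) : ℝ) • g2 with hc2
  have hdn : (0 : ℝ) ≤ d := Nat.cast_nonneg d
  have hcard : (s.card : ℝ) ≤ 2 * d := by exact_mod_cast hs
  have cb : ∀ (f : ι → ℂ) (g w : ℂ), (∀ v ∈ s, k * ‖f v‖ ≤ K * ‖g‖) → 9 / 10 * ‖g‖ ≤ ‖w‖ →
      0 < ‖g‖ → ‖((k * h : ℝ) : ℂ) * (∑ v ∈ s, f v - ((2 * d : ℕ) : ℝ) • g) / w‖ ≤ 1 / 40 := by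
    intro f g w hf hgw hg
    have b1 : k * ‖∑ v ∈ s, f v‖ ≤ 2 * d * ‖g‖ := by
      calc k * ‖∑ v ∈ s, f v‖ ≤ k * ∑ v ∈ s, ‖f v‖ :=
            mul_le_mul_of_nonneg_left (norm_sum_le _ _) hk.le
        _ = ∑ v ∈ s, k * ‖f v‖ := Finset.mul_sum _ _ _
        _ ≤ ∑ v ∈ s, K * ‖g‖ := Finset.sum_le_sum hf
        _ = s.card * (K * ‖g‖) := by rw [Finset.sum_const, nsmul_eq_mul]
        _ ≤ 2 * d * (1 * ‖g‖) := by
            refine mul_le_mul hcard ?_ (by positivity) (by positivity)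
            exact mul_le_mul_of_nonneg_right hK1 hg.le
        _ = 2 * d * ‖g‖ := by ring
    have b2 : ‖(((2 * d : ℕ) : ℝ) • g : ℂ)‖ = 2 * d * ‖g‖ := by
      rw [norm_smul, Real.norm_of_nonneg (Nat.cast_nonneg _)]
      push_cast
      ring
    have b3 : k * ‖∑ v ∈ s, f v - ((2 * d : ℕ) : ℝ) • g‖ ≤ 4 * d * ‖g‖ := by
      have := norm_sub_le (∑ v ∈ s, f v) (((2 * d : ℕ) : ℝ) • g)
      rw [b2] at this
      have c1 := mul_le_mul_of_nonneg_left this hk.le
      have c2 : k * (2 * d * ‖g‖) ≤ 1 * (2 * d * ‖g‖) :=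
        mul_le_mul_of_nonneg_right hk1 (by positivity)
      linarith
    have hwp : 0 < ‖w‖ := lt_of_lt_of_le (by positivity) hgw
    rw [norm_div, norm_mul, Complex.norm_real, Real.norm_of_nonneg (by positivity),
      div_le_iff₀ hwp]
    calc k * h * ‖∑ v ∈ s, f v - ((2 * d : ℕ) : ℝ) • g‖
        = h * (k * ‖∑ v ∈ s, f v - ((2 * d : ℕ) : ℝ) • g‖) := by ring
      _ ≤ h * (4 * d * ‖g‖) := mul_le_mul_of_nonneg_left b3 hh.le
      _ = (h * (8 * d)) * (1 / 2 * ‖g‖) := by ring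
      _ ≤ 1 / 40 * (9 / 10 * ‖g‖) :=
          mul_le_mul h4 (by linarith) (by positivity) (by norm_num)
      _ ≤ 1 / 40 * ‖w‖ := by linarith
  set r : ℂ := ((k * h : ℝ) : ℂ) * c1 / w with hr
  set r' : ℂ := ((k * h : ℝ) : ℂ) * c2 / w' with hr'
  have rb1 : ‖r‖ ≤ 1 / 40 := cb f1 g1 w hf1 w2 hg1p
  have rb2 : ‖r'‖ ≤ 1 / 40 := cb f2 g2 w' hf2 w2' hg2p
  have X1 : JV β h w + (k * h) • c1 = w * ((t : ℂ) + r) := by
    rw [Brg1_JV, Complex.real_smul, hr, ← ht, mul_add, mul_div_cancel₀ _ hw0]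
    ring
  have X2 : JV β h w' + (k * h) • c2 = w' * ((t' : ℂ) + r') := by
    rw [Brg1_JV, Complex.real_smul, hr', ← ht', mul_add, mul_div_cancel₀ _ hw'0]
    ring
  rw [X1, X2]
  have dn : ∀ (t : ℝ) (r : ℂ), 39 / 40 ≤ t → ‖r‖ ≤ 1 / 40 → 19 / 20 ≤ ‖(t : ℂ) + r‖ := by
    intro t r ht hr
    have b1 : ‖(t : ℂ)‖ = t := by
      rw [Complex.norm_real, Real.norm_of_nonneg (by linarith)]
    have b2 : ‖(t : ℂ)‖ - ‖r‖ ≤ ‖(t : ℂ) + r‖ := by
      have := norm_sub_norm_le (t : ℂ) (-r)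
      rwa [norm_neg, sub_neg_eq_add] at this
    rw [b1] at b2
    linarith
  have den := dn t r tb1.1 rb1
  have den' := dn t' r' tb2.1 rb2
  have den0 : (t : ℂ) + r ≠ 0 := by
    intro hc
    rw [hc, norm_zero] at den
    linarith
  have den0' : (t' : ℂ) + r' ≠ 0 := by
    intro hc
    rw [hc, norm_zero] at den'
    linarith
  refine ⟨mul_ne_zero hw0 den0, mul_ne_zero hw'0 den0', ?_⟩
  set q := ((t' : ℂ) + r') / ((t : ℂ) + r) with hq
  have q1 : ‖q - 1‖ ≤ 20 / 19 * (|t' - t| + ‖r' - r‖) := by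
    have b1 : q - 1 = (((t' - t : ℝ) : ℂ) + (r' - r)) / ((t : ℂ) + r) := by
      rw [hq]
      field_simp
      push_cast
      ring
    rw [b1, norm_div, div_le_iff₀ (by linarith)]
    have b2 := norm_add_le ((t' - t : ℝ) : ℂ) (r' - r)
    rw [Complex.norm_real, Real.norm_eq_abs] at b2
    have b3 : 0 ≤ |t' - t| + ‖r' - r‖ := by positivity
    nlinarith
  have q2 : |t' - t| ≤ 1 / 40 := by
    rw [abs_le]
    constructor <;> linarith [tb1.1, tb1.2, tb2.1, tb2.2]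
  have q3 : ‖r' - r‖ ≤ 1 / 20 := (norm_sub_le _ _).trans (by linarith)
  have q4 : ‖q - 1‖ ≤ 1 / 2 := q1.trans (by linarith)
  have q5 : ‖Complex.log q‖ ≤ 3 / 2 * ‖q - 1‖ := by
    have := Complex.norm_log_one_add_half_le_self q4
    rwa [show 1 + (q - 1) = q by ring] at this
  have q0 : q ≠ 0 := by
    intro hc
    rw [hc] at q4
    norm_num at q4
  have hfr : w' * ((t' : ℂ) + r') / (w * ((t : ℂ) + r)) =
      Complex.exp ((1 - a : ℝ) * δ + Complex.log q) := by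
    rw [Complex.exp_add, Complex.exp_log q0, hq, hww]
    field_simp
  rw [hfr]
  refine (Brg1_norm_log_exp _).trans ?_
  have main1 : ‖((1 - a : ℝ) : ℂ) * δ + Complex.log q‖ ≤ (1 - a) * ‖δ‖ + ‖Complex.log q‖ := by
    refine (norm_add_le _ _).trans ?_
    rw [norm_mul, Complex.norm_real, Real.norm_of_nonneg (by linarith)]
  -- bound of `t' - t`
  have T : |t' - t| ≤ h * β * (2 * K) ^ β * ‖δ‖ := by
    refine (Brg1_tt hβ hh hwp hw'p w1 w1').trans ?_
    refine mul_le_mul_of_nonneg_left ?_ (by positivity)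
    have b1 : ‖w'‖ / ‖w‖ = Real.exp ((1 - a) * δ.re) := by
      rw [hww, norm_mul, mul_div_assoc, div_self hwp.ne', mul_one, Complex.norm_exp]
      congr 1
      rw [Complex.re_ofReal_mul]
    rw [b1, Real.log_exp, abs_mul, abs_of_nonneg (by linarith : (0 : ℝ) ≤ 1 - a)]
    calc (1 - a) * |δ.re| ≤ 1 * ‖δ‖ :=
          mul_le_mul (by linarith) (Complex.abs_re_le_norm δ) (abs_nonneg _) zero_le_one
      _ = ‖δ‖ := one_mul _
  -- bound of `r' - r`
  have R : ‖r' - r‖ ≤ 2 * (h * k * (∑ v ∈ s, ‖f1 v - f2 v‖) / ‖g2‖) +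
      h * (4 * d * K * E + 4 * d * k) * ‖δ‖ := by
    have hw'i : w'⁻¹ = Complex.exp (-((1 - a : ℝ) * δ)) * w⁻¹ := by
      rw [hww, mul_inv, Complex.exp_neg]
    have hg1i : g1 * w⁻¹ = Complex.exp (-A) := by
      rw [hw, mul_inv, Complex.exp_neg]
      field_simp
    have hg2i : g2 * w'⁻¹ = Complex.exp (-A) * Complex.exp (a * δ) := by
      have : Complex.exp (-A) * Complex.exp (a * δ) = (Complex.exp (A - a * δ))⁻¹ := by
        rw [← Complex.exp_neg, ← Complex.exp_add]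
        congr 1
        ring
      rw [this, hw', mul_inv]
      field_simp
    have key : r' - r = ((k * h : ℝ) : ℂ) * (∑ v ∈ s, (f2 v - f1 v)) * w'⁻¹ +
        ((k * h : ℝ) : ℂ) * (∑ v ∈ s, f1 v) * (Complex.exp (-((1 - a : ℝ) * δ)) - 1) * w⁻¹ -
        ((k * h : ℝ) : ℂ) * ((2 * d : ℕ) : ℂ) * (Complex.exp (-A) * (Complex.exp (a * δ) - 1)) := by
      rw [hr', hr, hc1, hc2, div_eq_mul_inv, div_eq_mul_inv, Finset.sum_sub_distrib,
        Complex.real_smul, Complex.real_smul]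
      have k1 : Complex.exp (-A) * (Complex.exp (a * δ) - 1) = g2 * w'⁻¹ - g1 * w⁻¹ := by
        rw [hg2i, hg1i]
        ring
      have k2 : (∑ v ∈ s, f1 v) * (Complex.exp (-((1 - a : ℝ) * δ)) - 1) * w⁻¹ =
          (∑ v ∈ s, f1 v) * (w'⁻¹ - w⁻¹) := by
        rw [hw'i]
        ring
      rw [mul_assoc, mul_assoc (((k * h : ℝ) : ℂ) * (∑ v ∈ s, f1 v)), mul_assoc ((k * h : ℝ) : ℂ)
        (∑ v ∈ s, f1 v), ← mul_assoc (∑ v ∈ s, f1 v), k2, k1]
      push_cast
      ring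
    have hex : Real.exp (1 / 40) ≤ 10 / 9 := by
      have b1 := Real.add_one_le_exp (-(1 / 40) : ℝ)
      have b2 : Real.exp (1 / 40) * Real.exp (-(1 / 40)) = 1 := by
        rw [← Real.exp_add]; simp
      have b3 := Real.exp_pos (1 / 40 : ℝ)
      nlinarith
    have hS0 : 0 ≤ ∑ v ∈ s, ‖f1 v - f2 v‖ := Finset.sum_nonneg fun _ _ => norm_nonneg _
    have N1 : ‖((k * h : ℝ) : ℂ) * (∑ v ∈ s, (f2 v - f1 v)) * w'⁻¹‖ ≤
        2 * (h * k * (∑ v ∈ s, ‖f1 v - f2 v‖) / ‖g2‖) := by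
      rw [norm_mul, norm_mul, norm_inv, Complex.norm_real, Real.norm_of_nonneg (by positivity)]
      have b1 : ‖∑ v ∈ s, (f2 v - f1 v)‖ ≤ ∑ v ∈ s, ‖f1 v - f2 v‖ := by
        refine (norm_sum_le _ _).trans (le_of_eq ?_)
        exact Finset.sum_congr rfl fun v _ => norm_sub_rev _ _
      have b2 : ‖w'‖⁻¹ ≤ 2 * ‖g2‖⁻¹ := by
        rw [← div_eq_mul_inv, inv_eq_one_div, div_le_div_iff₀ hw'p hg2p]
        linarith
      calc k * h * ‖∑ v ∈ s, (f2 v - f1 v)‖ * ‖w'‖⁻¹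
          ≤ k * h * (∑ v ∈ s, ‖f1 v - f2 v‖) * (2 * ‖g2‖⁻¹) :=
            mul_le_mul (mul_le_mul_of_nonneg_left b1 (by positivity)) b2 (by positivity)
              (by positivity)
        _ = _ := by rw [div_eq_mul_inv]; ring
    have hx1 : ‖-(((1 - a : ℝ) : ℂ) * δ)‖ ≤ ‖δ‖ := by
      rw [norm_neg, norm_mul, Complex.norm_real, Real.norm_of_nonneg (by linarith)]
      calc (1 - a) * ‖δ‖ ≤ 1 * ‖δ‖ := mul_le_mul_of_nonneg_right (by linarith) (norm_nonneg _)
        _ = ‖δ‖ := one_mul _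
    have N2 : ‖((k * h : ℝ) : ℂ) * (∑ v ∈ s, f1 v) * (Complex.exp (-((1 - a : ℝ) * δ)) - 1) *
        w⁻¹‖ ≤ h * (4 * d * K * E) * ‖δ‖ := by
      rw [norm_mul, norm_mul, norm_mul, norm_inv, Complex.norm_real,
        Real.norm_of_nonneg (by positivity)]
      have b1 : k * ‖∑ v ∈ s, f1 v‖ ≤ 2 * d * (K * ‖g1‖) := by
        calc k * ‖∑ v ∈ s, f1 v‖ ≤ k * ∑ v ∈ s, ‖f1 v‖ :=
              mul_le_mul_of_nonneg_left (norm_sum_le _ _) hk.le
          _ = ∑ v ∈ s, k * ‖f1 v‖ := Finset.mul_sum _ _ _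
          _ ≤ ∑ v ∈ s, K * ‖g1‖ := Finset.sum_le_sum hf1
          _ = s.card * (K * ‖g1‖) := by rw [Finset.sum_const, nsmul_eq_mul]
          _ ≤ 2 * d * (K * ‖g1‖) := mul_le_mul_of_nonneg_right hcard (by positivity)
      have b2 : ‖Complex.exp (-((1 - a : ℝ) * δ)) - 1‖ ≤ ‖δ‖ * E := by
        refine (Brg1_exp_sub _).trans ?_
        exact mul_le_mul hx1 ((Real.exp_le_exp.2 hx1).trans hE) (Real.exp_pos _).le (norm_nonneg _)
      have hE0 : 0 ≤ E := (Real.exp_pos _).le.trans hE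
      have b3 : ‖w‖⁻¹ ≤ 2 * ‖g1‖⁻¹ := by
        rw [← div_eq_mul_inv, inv_eq_one_div, div_le_div_iff₀ hwp hg1p]
        linarith
      calc k * h * ‖∑ v ∈ s, f1 v‖ * ‖Complex.exp (-((1 - a : ℝ) * δ)) - 1‖ * ‖w‖⁻¹
          = h * (k * ‖∑ v ∈ s, f1 v‖) * ‖Complex.exp (-((1 - a : ℝ) * δ)) - 1‖ * ‖w‖⁻¹ := by ring
        _ ≤ h * (2 * d * (K * ‖g1‖)) * (‖δ‖ * E) * (2 * ‖g1‖⁻¹) := by
            refine mul_le_mul (mul_le_mul (mul_le_mul_of_nonneg_left b1 hh.le) b2 (norm_nonneg _)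
              (by positivity)) b3 (by positivity) (by positivity)
        _ = h * (4 * d * K * E) * ‖δ‖ * (‖g1‖ * ‖g1‖⁻¹) := by ring
        _ = _ := by rw [mul_inv_cancel₀ hg1p.ne', mul_one]
    have N3 : ‖((k * h : ℝ) : ℂ) * ((2 * d : ℕ) : ℂ) *
        (Complex.exp (-A) * (Complex.exp (a * δ) - 1))‖ ≤ h * (4 * d * k) * ‖δ‖ := by
      rw [norm_mul, norm_mul, norm_mul, Complex.norm_real, Real.norm_of_nonneg (by positivity),
        Complex.norm_natCast]
      have b1 : ‖Complex.exp (-A)‖ ≤ 10 / 9 :=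
        Brg1_exp_hi (A := -A) (a := 1 / 40) (by rw [norm_neg]; exact hA) (by norm_num)
      have b0 : ‖(a : ℂ) * δ‖ = a * ‖δ‖ := by
        rw [norm_mul, Complex.norm_real, Real.norm_of_nonneg ha0]
      have b2 : ‖Complex.exp (a * δ) - 1‖ ≤ ‖δ‖ * (10 / 9) := by
        refine (Brg1_exp_sub _).trans ?_
        rw [b0]
        refine mul_le_mul ?_ ((Real.exp_le_exp.2 hB).trans hex) (Real.exp_pos _).le (norm_nonneg _)
        calc a * ‖δ‖ ≤ 1 * ‖δ‖ := mul_le_mul_of_nonneg_right ha1 (norm_nonneg _)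
          _ = ‖δ‖ := one_mul _
      calc k * h * ((2 * d : ℕ) : ℝ) * (‖Complex.exp (-A)‖ * ‖Complex.exp (a * δ) - 1‖)
          ≤ k * h * ((2 * d : ℕ) : ℝ) * (10 / 9 * (‖δ‖ * (10 / 9))) := by
            refine mul_le_mul_of_nonneg_left ?_ (by positivity)
            exact mul_le_mul b1 b2 (norm_nonneg _) (by norm_num)
        _ = h * (200 / 81 * d * k) * ‖δ‖ := by push_cast; ring
        _ ≤ h * (4 * d * k) * ‖δ‖ := by
            refine mul_le_mul_of_nonneg_right ?_ (norm_nonneg _)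
            refine mul_le_mul_of_nonneg_left ?_ hh.le
            have : 0 ≤ d * k := by positivity
            nlinarith
    rw [key]
    refine (norm_sub_le _ _).trans ?_
    refine (add_le_add (norm_add_le _ _) le_rfl).trans ?_
    calc _ ≤ 2 * (h * k * (∑ v ∈ s, ‖f1 v - f2 v‖) / ‖g2‖) + h * (4 * d * K * E) * ‖δ‖ +
          h * (4 * d * k) * ‖δ‖ := add_le_add (add_le_add N1 N2) N3
      _ = _ := by ring
  refine main1.trans ?_
  have hq5 : ‖Complex.log q‖ ≤ 2 * (|t' - t| + ‖r' - r‖) := by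
    have b1 : 0 ≤ |t' - t| + ‖r' - r‖ := by positivity
    linarith
  calc (1 - a) * ‖δ‖ + ‖Complex.log q‖
      ≤ (1 - a) * ‖δ‖ + 2 * (h * β * (2 * K) ^ β * ‖δ‖ +
        (2 * (h * k * (∑ v ∈ s, ‖f1 v - f2 v‖) / ‖g2‖) +
          h * (4 * d * K * E + 4 * d * k) * ‖δ‖)) := by linarith
    _ = _ := by ring

private theorem Brg1_small (c e η : ℝ) (he : 0 < e) (hη : 0 < η) :
    ∃ k1 : ℝ, 0 < k1 ∧ ∀ k : ℝ, 0 < k → k < k1 → c * k ^ e ≤ η := by
  have h0 : 0 < η / (|c| + 1) := by positivity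
  refine ⟨(η / (|c| + 1)) ^ (1 / e), Real.rpow_pos_of_pos h0 _, fun k hk hkk => ?_⟩
  have h1 : k ^ e ≤ η / (|c| + 1) := by
    have h2 := Real.rpow_le_rpow hk.le hkk.le he.le
    rwa [← Real.rpow_mul h0.le, one_div_mul_cancel he.ne', Real.rpow_one] at h2
  have h3 : 0 ≤ k ^ e := Real.rpow_nonneg hk.le _
  calc c * k ^ e ≤ (|c| + 1) * k ^ e :=
        mul_le_mul_of_nonneg_right (by linarith [le_abs_self c]) h3
    _ ≤ (|c| + 1) * (η / (|c| + 1)) := mul_le_mul_of_nonneg_left h1 (by positivity)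
    _ = η := by field_simp

private theorem Brg1_ell_nn {k : ℝ} (hk : 0 < k) (hk1 : k < 1) : 0 ≤ ell k := by
  unfold ell
  exact Real.log_nonneg (by rw [le_div_iff₀ hk]; linarith)

private theorem Brg1_ev (c e η : ℝ) (m : ℕ) (hc : 0 ≤ c) (he : 0 < e) (hη : 0 < η) :
    ∀ᶠ k in nhdsWithin (0 : ℝ) (Set.Ioi 0), c * (k ^ e * ell k ^ m) ≤ η := by
  set ε : ℝ := e / (2 * (m + 1)) with hε
  have hm : (0 : ℝ) ≤ m := Nat.cast_nonneg m
  have hε0 : 0 < ε := by positivity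
  have hεm : 0 < e - ε * m := by
    have h1 : ε * m ≤ e / 2 := by
      rw [hε, div_mul_eq_mul_div, div_le_div_iff₀ (by positivity) (by norm_num)]
      nlinarith
    linarith
  obtain ⟨k1, hk1, H⟩ := Brg1_small (c / ε ^ m) (e - ε * m) η hεm hη
  have h1 : Set.Ioo (0 : ℝ) (min k1 1) ∈ nhdsWithin (0 : ℝ) (Set.Ioi 0) :=
    Ioo_mem_nhdsGT (lt_min hk1 one_pos)
  filter_upwards [h1] with k hk'
  obtain ⟨hk, hkk⟩ := hk'
  have hk1' : k < 1 := hkk.trans_le (min_le_right _ _)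
  have hell := Brg1_ell_nn hk hk1'
  have c1 : ell k ≤ k ^ (-ε) / ε := by
    have c2 := Real.log_le_rpow_div (x := 1 / k) (ε := ε) (by positivity) hε0
    rwa [one_div, Real.inv_rpow hk.le, ← Real.rpow_neg hk.le, ← one_div] at c2
  have c2 : ell k ^ m ≤ k ^ (-(ε * m)) / ε ^ m := by
    refine (pow_le_pow_left₀ hell c1 m).trans (le_of_eq ?_)
    rw [div_pow, ← Real.rpow_natCast (k ^ (-ε)), ← Real.rpow_mul hk.le]
    congr 2
    ring
  calc c * (k ^ e * ell k ^ m) ≤ c * (k ^ e * (k ^ (-(ε * m)) / ε ^ m)) :=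
        mul_le_mul_of_nonneg_left (mul_le_mul_of_nonneg_left c2 (Real.rpow_nonneg hk.le _)) hc
    _ = c / ε ^ m * (k ^ e * k ^ (-(ε * m))) := by ring
    _ = c / ε ^ m * k ^ (e - ε * m) := by
        rw [← Real.rpow_add hk, sub_eq_add_neg]
    _ ≤ η := H k hk (hkk.trans_le (min_le_left _ _))

private theorem Brg1_k0 (d : ℕ) {β κ : ℝ} (hβ : 0 < β) (hκ : 0 < κ) (hκ1 : κ ≤ 1 / 8) :
    ∃ k0 : ℝ, 0 < k0 ∧ k0 < 1 ∧ ∀ k, 0 < k → k < k0 →
      1 ≤ ell k ∧
      (2 * β * (2 * k ^ (κ / 2)) ^ β + 8 * d * k ^ (κ / 2) * (Real.exp 5 * k ^ (-(κ / 16))) +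
        8 * d * k) * (κ / 16 * ell k + 5) ≤ 1 / 2 * k ^ (min 1 β * κ / 8) ∧
      k ^ (min 1 β * κ / 8) * ell k ^ 3 ≤ 1 ∧
      8 * d * k ^ (κ / 2) * (Real.exp 5 * k ^ (-(κ / 16)) + 1) ≤
        1 / 2 * k ^ (min 1 β * κ / 8) ∧
      2 * (κ / 16 * ell k + 6) * k ≤ 1 ∧
      16 * d * k ^ 4 ≤ 1 ∧
      1 + 2 * (κ / 16 * ell k + 6) * Real.exp 10 * k ^ (-(κ / 8)) ≤ k ^ (-(κ / 4)) ∧
      4 * d * k ^ (3 / 8 : ℝ) * ell k ^ 3 ≤ 1 ∧
      k ^ (1 / 2 : ℝ) * Real.exp 1 ≤ 1 := by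
  set κ' := min 1 β * κ / 8 with hκ'
  have hmin : 0 < min 1 β := lt_min one_pos hβ
  have hκ'0 : 0 < κ' := by positivity
  have hκ'1 : κ' ≤ κ / 8 := by
    have := mul_le_mul_of_nonneg_right (min_le_left 1 β) hκ.le
    rw [hκ']
    linarith
  have hκ'2 : κ' ≤ β * κ / 8 := by
    have := mul_le_mul_of_nonneg_right (min_le_right 1 β) hκ.le
    rw [hκ']
    linarith
  have hd : (0 : ℝ) ≤ d := Nat.cast_nonneg d
  set Cc : ℝ := κ / 16 + 6 with hCc
  have hCc0 : 0 < Cc := by positivity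
  have E1 := Brg1_ev (2 * β * 2 ^ β * Cc) (3 * (β * κ) / 8) (1 / 6) 1 (by positivity) (by positivity)
    (by norm_num)
  have E2 := Brg1_ev (8 * d * Real.exp 5 * Cc) (5 * κ / 16) (1 / 6) 1 (by positivity) (by positivity)
    (by norm_num)
  have E3 := Brg1_ev (8 * d * Cc) (1 / 2) (1 / 6) 1 (by positivity) (by norm_num) (by norm_num)
  have E4 := Brg1_ev 1 κ' 1 3 (by norm_num) hκ'0 one_pos
  have E5 := Brg1_ev (8 * d * (Real.exp 5 + 1)) (5 * κ / 16) (1 / 2) 0 (by positivity)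
    (by positivity) (by norm_num)
  have E6 := Brg1_ev (2 * Cc) 1 1 1 (by positivity) one_pos one_pos
  have E7 := Brg1_ev (16 * d) 1 1 0 (by positivity) one_pos one_pos
  have E8 := Brg1_ev 1 (κ / 4) (1 / 2) 0 (by norm_num) (by positivity) (by norm_num)
  have E9 := Brg1_ev (2 * Cc * Real.exp 10) (κ / 8) (1 / 2) 1 (by positivity) (by positivity)
    (by norm_num)
  have E10 := Brg1_ev (4 * d) (3 / 8) 1 3 (by positivity) (by norm_num) one_pos
  have E11 := Brg1_ev (Real.exp 1) (1 / 2) 1 0 (by positivity) (by norm_num) one_pos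
  have E12 : Set.Ioo (0 : ℝ) (Real.exp (-1)) ∈ nhdsWithin (0 : ℝ) (Set.Ioi 0) :=
    Ioo_mem_nhdsGT (Real.exp_pos _)
  have EE := E1.and (E2.and (E3.and (E4.and (E5.and (E6.and (E7.and (E8.and (E9.and (E10.and
    (E11.and E12))))))))))
  obtain ⟨u, hu, HU⟩ := mem_nhdsGT_iff_exists_Ioo_subset.1 EE
  have hu0 : 0 < u := hu
  refine ⟨min u (1 / 2), lt_min hu0 (by norm_num), (min_le_right _ _).trans_lt (by norm_num),
    fun k hk hkk => ?_⟩
  obtain ⟨b1, b2, b3, b4, b5, b6, b7, b8, b9, b10, b11, b12⟩ :=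
    HU ⟨hk, hkk.trans_le (min_le_left _ _)⟩
  have a5 : k < 1 := (hkk.trans_le (min_le_right _ _)).trans (by norm_num)
  have hl : 1 ≤ ell k := by
    unfold ell
    rw [one_div, Real.log_inv]
    have h1 : Real.log k ≤ -1 := by
      rw [← Real.log_exp (-1)]
      exact Real.log_le_log hk b12.2.le
    linarith
  simp only [pow_zero, mul_one, pow_one, Real.rpow_one, one_mul] at b1 b2 b3 b4 b5 b6 b7 b8 b9 b10 b11
  have hp : 0 < k ^ κ' := Real.rpow_pos_of_pos hk _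
  have hmono : ∀ e : ℝ, κ' ≤ e → k ^ e ≤ k ^ κ' := fun e he =>
    Real.rpow_le_rpow_of_exponent_ge hk a5.le he
  have l5 : κ / 16 * ell k + 5 ≤ Cc * ell k := by
    rw [hCc]
    nlinarith
  have l6 : κ / 16 * ell k + 6 ≤ Cc * ell k := by
    rw [hCc]
    nlinarith
  have l50 : 0 ≤ κ / 16 * ell k + 5 := by positivity
  have t1 : 2 * β * (2 * k ^ (κ / 2)) ^ β * (κ / 16 * ell k + 5) ≤ 1 / 6 * k ^ κ' := by
    have c1 : 2 * β * (2 * k ^ (κ / 2)) ^ β =
        2 * β * 2 ^ β * k ^ (3 * (β * κ) / 8) * k ^ (β * κ / 8) := by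
      rw [Real.mul_rpow (by norm_num) (Real.rpow_nonneg hk.le _), ← Real.rpow_mul hk.le,
        mul_assoc (2 * β * 2 ^ β), ← Real.rpow_add hk]
      rw [show κ / 2 * β = 3 * (β * κ) / 8 + β * κ / 8 by ring]
      ring
    have c2 : 0 ≤ 2 * β * 2 ^ β * k ^ (3 * (β * κ) / 8) := by positivity
    rw [c1]
    calc 2 * β * 2 ^ β * k ^ (3 * (β * κ) / 8) * k ^ (β * κ / 8) * (κ / 16 * ell k + 5)
        = (2 * β * 2 ^ β * k ^ (3 * (β * κ) / 8) * (κ / 16 * ell k + 5)) * k ^ (β * κ / 8) := by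
          ring
      _ ≤ (2 * β * 2 ^ β * k ^ (3 * (β * κ) / 8) * (Cc * ell k)) * k ^ (β * κ / 8) :=
          mul_le_mul_of_nonneg_right (mul_le_mul_of_nonneg_left l5 c2) (Real.rpow_nonneg hk.le _)
      _ = (2 * β * 2 ^ β * Cc * (k ^ (3 * (β * κ) / 8) * ell k)) * k ^ (β * κ / 8) := by ring
      _ ≤ 1 / 6 * k ^ κ' := mul_le_mul b1 (hmono _ hκ'2) (Real.rpow_nonneg hk.le _) (by norm_num)
  have c716 : k ^ (κ / 2) * k ^ (-(κ / 16)) = k ^ (5 * κ / 16) * k ^ (κ / 8) := by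
    rw [← Real.rpow_add hk, ← Real.rpow_add hk]
    congr 1
    ring
  have t2 : 8 * d * k ^ (κ / 2) * (Real.exp 5 * k ^ (-(κ / 16))) * (κ / 16 * ell k + 5) ≤
      1 / 6 * k ^ κ' := by
    have c2 : 0 ≤ 8 * (d : ℝ) * Real.exp 5 * k ^ (5 * κ / 16) := by positivity
    calc 8 * d * k ^ (κ / 2) * (Real.exp 5 * k ^ (-(κ / 16))) * (κ / 16 * ell k + 5)
        = 8 * d * Real.exp 5 * (k ^ (κ / 2) * k ^ (-(κ / 16))) * (κ / 16 * ell k + 5) := by ring
      _ = (8 * d * Real.exp 5 * k ^ (5 * κ / 16) * (κ / 16 * ell k + 5)) * k ^ (κ / 8) := by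
          rw [c716]
          ring
      _ ≤ (8 * d * Real.exp 5 * k ^ (5 * κ / 16) * (Cc * ell k)) * k ^ (κ / 8) :=
          mul_le_mul_of_nonneg_right (mul_le_mul_of_nonneg_left l5 c2) (Real.rpow_nonneg hk.le _)
      _ = (8 * d * Real.exp 5 * Cc * (k ^ (5 * κ / 16) * ell k)) * k ^ (κ / 8) := by ring
      _ ≤ 1 / 6 * k ^ κ' := mul_le_mul b2 (hmono _ hκ'1) (Real.rpow_nonneg hk.le _) (by norm_num)
  have t3 : 8 * d * k * (κ / 16 * ell k + 5) ≤ 1 / 6 * k ^ κ' := by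
    have c1 : k = k ^ (1 / 2 : ℝ) * k ^ (1 / 2 : ℝ) := by
      rw [← Real.rpow_add hk]
      norm_num
    have c2 : 0 ≤ 8 * (d : ℝ) * k ^ (1 / 2 : ℝ) := by positivity
    calc 8 * d * k * (κ / 16 * ell k + 5)
        = 8 * d * (k ^ (1 / 2 : ℝ) * k ^ (1 / 2 : ℝ)) * (κ / 16 * ell k + 5) := by rw [← c1]
      _ = (8 * d * k ^ (1 / 2 : ℝ) * (κ / 16 * ell k + 5)) * k ^ (1 / 2 : ℝ) := by ring
      _ ≤ (8 * d * k ^ (1 / 2 : ℝ) * (Cc * ell k)) * k ^ (1 / 2 : ℝ) :=
          mul_le_mul_of_nonneg_right (mul_le_mul_of_nonneg_left l5 c2) (Real.rpow_nonneg hk.le _)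
      _ = (8 * d * Cc * (k ^ (1 / 2 : ℝ) * ell k)) * k ^ (1 / 2 : ℝ) := by ring
      _ ≤ 1 / 6 * k ^ κ' :=
          mul_le_mul b3 (hmono _ (by linarith)) (Real.rpow_nonneg hk.le _) (by norm_num)
  refine ⟨hl, ?_, b4, ?_, ?_, ?_, ?_, ?_, ?_⟩
  · have c1 : (2 * β * (2 * k ^ (κ / 2)) ^ β + 8 * d * k ^ (κ / 2) *
        (Real.exp 5 * k ^ (-(κ / 16))) + 8 * d * k) * (κ / 16 * ell k + 5) =
        2 * β * (2 * k ^ (κ / 2)) ^ β * (κ / 16 * ell k + 5) +
        8 * d * k ^ (κ / 2) * (Real.exp 5 * k ^ (-(κ / 16))) * (κ / 16 * ell k + 5) +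
        8 * d * k * (κ / 16 * ell k + 5) := by ring
    rw [c1]
    linarith
  · have c1 : k ^ (κ / 2) ≤ k ^ (κ / 2) * k ^ (-(κ / 16)) := by
      refine le_mul_of_one_le_right (Real.rpow_nonneg hk.le _) ?_
      exact Real.one_le_rpow_of_pos_of_le_one_of_nonpos hk a5.le (by linarith)
    calc 8 * d * k ^ (κ / 2) * (Real.exp 5 * k ^ (-(κ / 16)) + 1)
        = 8 * d * (Real.exp 5 * (k ^ (κ / 2) * k ^ (-(κ / 16))) + k ^ (κ / 2)) := by ring
      _ ≤ 8 * d * (Real.exp 5 * (k ^ (κ / 2) * k ^ (-(κ / 16))) +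
          k ^ (κ / 2) * k ^ (-(κ / 16))) :=
          mul_le_mul_of_nonneg_left (by linarith) (by positivity)
      _ = (8 * d * (Real.exp 5 + 1) * k ^ (5 * κ / 16)) * k ^ (κ / 8) := by
          rw [c716]
          ring
      _ ≤ 1 / 2 * k ^ κ' := mul_le_mul b5 (hmono _ hκ'1) (Real.rpow_nonneg hk.le _) (by norm_num)
  · calc 2 * (κ / 16 * ell k + 6) * k ≤ 2 * (Cc * ell k) * k :=
          mul_le_mul_of_nonneg_right (mul_le_mul_of_nonneg_left l6 (by norm_num)) hk.le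
      _ = 2 * Cc * (k * ell k) := by ring
      _ ≤ 1 := b6
  · have c1 : k ^ 4 ≤ k := by
      have := pow_le_pow_of_le_one hk.le a5.le (by norm_num : 1 ≤ 4)
      rwa [pow_one] at this
    calc 16 * (d : ℝ) * k ^ 4 ≤ 16 * d * k := mul_le_mul_of_nonneg_left c1 (by positivity)
      _ ≤ 1 := b7
  · have c1 : k ^ (-(κ / 4)) * k ^ (κ / 4) = 1 := by
      rw [← Real.rpow_add hk]
      simp
    have c2 : k ^ (-(κ / 8)) = k ^ (-(κ / 4)) * k ^ (κ / 8) := by
      rw [← Real.rpow_add hk]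
      congr 1
      ring
    have c3 : 0 < k ^ (-(κ / 4)) := Real.rpow_pos_of_pos hk _
    have c4 : 2 * (κ / 16 * ell k + 6) * Real.exp 10 * k ^ (κ / 8) ≤ 1 / 2 := by
      calc 2 * (κ / 16 * ell k + 6) * Real.exp 10 * k ^ (κ / 8)
          = 2 * Real.exp 10 * k ^ (κ / 8) * (κ / 16 * ell k + 6) := by ring
        _ ≤ 2 * Real.exp 10 * k ^ (κ / 8) * (Cc * ell k) :=
            mul_le_mul_of_nonneg_left l6 (by positivity)
        _ = 2 * Cc * Real.exp 10 * (k ^ (κ / 8) * ell k) := by ring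
        _ ≤ 1 / 2 := b9
    have c5 := mul_le_mul_of_nonneg_left c4 c3.le
    have c6 := mul_le_mul_of_nonneg_left b8 c3.le
    rw [c2]
    calc 1 + 2 * (κ / 16 * ell k + 6) * Real.exp 10 * (k ^ (-(κ / 4)) * k ^ (κ / 8))
        = k ^ (-(κ / 4)) * k ^ (κ / 4) +
          k ^ (-(κ / 4)) * (2 * (κ / 16 * ell k + 6) * Real.exp 10 * k ^ (κ / 8)) := by
          rw [c1]
          ring
      _ ≤ k ^ (-(κ / 4)) * (1 / 2) + k ^ (-(κ / 4)) * (1 / 2) := add_le_add c6 c5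
      _ = k ^ (-(κ / 4)) := by ring
  · calc 4 * (d : ℝ) * k ^ (3 / 8 : ℝ) * ell k ^ 3 = 4 * d * (k ^ (3 / 8 : ℝ) * ell k ^ 3) := by
          ring
      _ ≤ 1 := b10
  · rw [mul_comm]
    exact b11

private theorem Brg1_ratio {g1 g2 : ℂ} (hg1 : g1 ≠ 0) (hg2 : g2 ≠ 0) :
    ‖g1‖ ≤ Real.exp ‖Complex.log (g2 / g1)‖ * ‖g2‖ ∧
      ‖g2‖ ≤ Real.exp ‖Complex.log (g2 / g1)‖ * ‖g1‖ := by
  set δ := Complex.log (g2 / g1) with hδ
  have hexp : Complex.exp δ = g2 / g1 := Complex.exp_log (div_ne_zero hg2 hg1)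
  have hg1p : 0 < ‖g1‖ := norm_pos_iff.2 hg1
  have h1 : ‖g2‖ = Real.exp δ.re * ‖g1‖ := by
    rw [← Complex.norm_exp, hexp, norm_div, div_mul_cancel₀ _ hg1p.ne']
  have h2 : |δ.re| ≤ ‖δ‖ := Complex.abs_re_le_norm δ
  constructor
  · rw [h1, ← mul_assoc, ← Real.exp_add]
    refine le_mul_of_one_le_left hg1p.le (Real.one_le_exp ?_)
    have := neg_abs_le δ.re
    linarith
  · rw [h1]
    exact mul_le_mul_of_nonneg_right (Real.exp_le_exp.2 ((le_abs_self _).trans h2)) hg1p.le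

private theorem Brg1_lin {g1 g2 : ℂ} (hg1 : g1 ≠ 0) :
    ‖Complex.log (g2 / g1)‖ ≤
      2 * (1 + ‖Complex.log (g2 / g1)‖) * (‖g1 - g2‖ / ‖g1‖) := by
  have hg1p : 0 < ‖g1‖ := norm_pos_iff.2 hg1
  have h1 : ‖g1 - g2‖ / ‖g1‖ = ‖g2 / g1 - 1‖ := by
    rw [← norm_div, ← norm_neg]
    congr 1
    field_simp
    ring
  rw [h1]
  have h0 : 0 ≤ ‖Complex.log (g2 / g1)‖ := norm_nonneg _
  rcases le_total ‖g2 / g1 - 1‖ (1 / 2) with h | h
  · have h2 := Complex.norm_log_one_add_half_le_self h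
    rw [show 1 + (g2 / g1 - 1) = g2 / g1 by ring] at h2
    have h3 : 0 ≤ ‖g2 / g1 - 1‖ := norm_nonneg _
    have h4 : 0 ≤ ‖Complex.log (g2 / g1)‖ * ‖g2 / g1 - 1‖ := mul_nonneg h0 h3
    nlinarith
  · nlinarith

private theorem Brg1_bd {d L : ℕ} (P : BPar d L) {β k h : ℝ} (hk : 0 < k) (hh : 0 < h)
    (hOK : P.OK β k h) (K2 : k ^ (min 1 β * P.κ / 8) * ell k ^ 3 ≤ 1) (j : ℕ) (hj : j < P.ns) :
    P.bd j ≤ P.κ / 16 * ell k + 5 := by
  have hm := hOK.hm
  have hm0 := hOK.hm0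
  have hς := hOK.hς
  have hns1 := hOK.hns1
  have hA := hOK.hA
  have hς0 : 0 ≤ P.ς := by
    rw [hς]
    exact mul_nonneg hh.le (le_min (Real.rpow_nonneg hk.le _)
      (mul_nonneg (Real.rpow_nonneg hk.le _) hA))
  have hς1 : P.ς ≤ h * k ^ (min 1 β * P.κ / 8) := by
    rw [hς]
    exact mul_le_mul_of_nonneg_left (min_le_left _ _) hh.le
  have hjr : (j : ℝ) + 1 ≤ P.ns := by exact_mod_cast hj
  have hj0 : (0 : ℝ) ≤ j := Nat.cast_nonneg j
  have hnsp : (0 : ℝ) < P.ns + 1 := by positivity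
  have l3 : lamS P.ns j * ((P.ns : ℝ) + 1 - j) ≤ P.ns := by
    unfold lamS
    rw [Finset.sum_mul]
    calc ∑ i ∈ Finset.range j, 1 / ((P.ns : ℝ) - i) * ((P.ns : ℝ) + 1 - j)
        ≤ ∑ i ∈ Finset.range j, (1 : ℝ) := by
          refine Finset.sum_le_sum fun i hi => ?_
          have hi' : (i : ℝ) + 1 ≤ j := by exact_mod_cast Finset.mem_range.1 hi
          rw [one_div_mul_eq_div, div_le_one (by linarith)]
          linarith
      _ = j := by simp
      _ ≤ P.ns := by linarith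
  have l4 : P.m0 / (P.ns + 1) * ((P.ns : ℝ) + 1 - j) ≤ P.m0 := by
    rw [div_mul_eq_mul_div, div_le_iff₀ hnsp]
    exact mul_le_mul_of_nonneg_left (by linarith) hm0
  have l5 : P.ς * P.ns ≤ 1 := by
    calc P.ς * P.ns ≤ h * k ^ (min 1 β * P.κ / 8) * P.ns :=
          mul_le_mul_of_nonneg_right hς1 (Nat.cast_nonneg _)
      _ = k ^ (min 1 β * P.κ / 8) * (P.ns * h) := by ring
      _ ≤ k ^ (min 1 β * P.κ / 8) * ell k ^ 3 :=
          mul_le_mul_of_nonneg_left hns1 (Real.rpow_nonneg hk.le _)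
      _ ≤ 1 := K2
  calc P.bd j = P.m0 / (P.ns + 1) * ((P.ns : ℝ) + 1 - j) +
        P.ς * (lamS P.ns j * ((P.ns : ℝ) + 1 - j)) := by
        unfold BPar.bd
        ring
    _ ≤ P.m0 + P.ς * P.ns := add_le_add l4 (mul_le_mul_of_nonneg_left l3 hς0)
    _ ≤ P.κ / 16 * ell k + 5 := by linarith

private theorem Brg1_h0 (d : ℕ) (β κ : ℝ) (Y : ℝ) : ∃ h0 : ℝ, 0 < h0 ∧ ∀ h, 0 < h → h < h0 →
    h ≤ 1 ∧ h ^ (3 / 8 : ℝ) ≤ 1 / 40 ∧ h * (κ / 16 * Y + 5) ≤ 1 / 120 ∧
      h * (Y ^ 3 + 1) ≤ (1 / 240) ^ 2 ∧ h * 2 ^ β ≤ 1 / 40 ∧ h * (8 * d) ≤ 1 / 40 := by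
  obtain ⟨k1, hk1, H1⟩ := Brg1_small 1 (3 / 8) (1 / 40) (by norm_num) (by norm_num)
  obtain ⟨k2, hk2, H2⟩ := Brg1_small (κ / 16 * Y + 5) 1 (1 / 120) one_pos (by norm_num)
  obtain ⟨k3, hk3, H3⟩ := Brg1_small (Y ^ 3 + 1) 1 ((1 / 240) ^ 2) one_pos (by norm_num)
  obtain ⟨k4, hk4, H4⟩ := Brg1_small (2 ^ β) 1 (1 / 40) one_pos (by norm_num)
  obtain ⟨k5, hk5, H5⟩ := Brg1_small (8 * d) 1 (1 / 40) one_pos (by norm_num)
  refine ⟨min (min (min k1 k2) (min k3 k4)) (min k5 1), by positivity, fun h hh hhh => ?_⟩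
  have a1 : h < k1 := hhh.trans_le
    ((min_le_left _ _).trans ((min_le_left _ _).trans (min_le_left _ _)))
  have a2 : h < k2 := hhh.trans_le
    ((min_le_left _ _).trans ((min_le_left _ _).trans (min_le_right _ _)))
  have a3 : h < k3 := hhh.trans_le
    ((min_le_left _ _).trans ((min_le_right _ _).trans (min_le_left _ _)))
  have a4 : h < k4 := hhh.trans_le
    ((min_le_left _ _).trans ((min_le_right _ _).trans (min_le_right _ _)))
  have a5 : h < k5 := hhh.trans_le ((min_le_right _ _).trans (min_le_left _ _))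
  have a6 : h < 1 := hhh.trans_le ((min_le_right _ _).trans (min_le_right _ _))
  have b1 := H1 h hh a1
  have b2 := H2 h hh a2
  have b3 := H3 h hh a3
  have b4 := H4 h hh a4
  have b5 := H5 h hh a5
  rw [Real.rpow_one] at b2 b3 b4 b5
  rw [one_mul] at b1
  exact ⟨a6.le, b1, by linarith, by linarith, by linarith, by linarith⟩

theorem brg_step (d : ℕ) (β : ℝ) (hβ : 0 < β) (κ M6 M8 : ℝ) (hκ : 0 < κ) :
    ∃ k0 : ℝ, 0 < k0 ∧ k0 < 1 ∧ ∀ k, 0 < k → k < k0 → ∃ h0 : ℝ, 0 < h0 ∧ ∀ h, 0 < h → h < h0 →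
    ∀ (L : ℕ) (P : BPar d L), P.κ = κ → P.M6 = M6 → P.M8 = M8 → P.OK β k h →
    ∀ j, j < P.ns → ∀ (G : (boxS d L → ℂ) × (boxS d L → ℂ)), P.RegSt k j G →
    ∀ ξ : boxS d L → ℂ, ∀ z, P.Bs z → Real.sqrt h * ‖ξ z‖ ≤ h ^ (3 / 8 : ℝ) →
      (P.bst β k h j G ξ).1 z ≠ 0 ∧ (P.bst β k h j G ξ).2 z ≠ 0 ∧
        ‖Complex.log ((P.bst β k h j G ξ).2 z / (P.bst β k h j G ξ).1 z)‖ ≤ P.bd (j + 1) := by
  by_cases hκ1 : κ ≤ 1 / 8
  swap
  · refine ⟨1 / 2, by norm_num, by norm_num, fun k _ _ => ⟨1, one_pos, ?_⟩⟩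
    intro h _ _ L P e1 _ _ hOK
    exact absurd (e1 ▸ hOK.hκ1) hκ1
  obtain ⟨k0, hk0, hk01, HK⟩ := Brg1_k0 d hβ hκ hκ1
  refine ⟨k0, hk0, hk01, fun k hk hkk => ?_⟩
  obtain ⟨hl, KA, K2, KC, KD, KE, -, -, -⟩ := HK k hk hkk
  obtain ⟨h0, hh0, HH⟩ := Brg1_h0 d β κ (ell k)
  refine ⟨h0, hh0, fun h hh hhh => ?_⟩
  obtain ⟨q1, q2, q3, q4, q5, q6⟩ := HH h hh hhh
  intro L P e1 e2 e3 hOK j hj G hreg ξ z hz hξ
  have hk1 : k ≤ 1 := (hkk.trans hk01).le
  obtain ⟨n1, n2, n3, n4, n5, n6, n7, n8⟩ := hreg.1 z hz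
  rw [e1] at n5 n7 n8
  have hell : 0 ≤ ell k := by linarith
  have hm := hOK.hm
  have hm0 := hOK.hm0
  have hς := hOK.hς
  have hns := hOK.hns
  have hns1 := hOK.hns1
  have hA := hOK.hA
  have hM6 := hOK.hM6
  have hM8 := hOK.hM8
  rw [e1] at hm hς
  have hς0 : 0 ≤ P.ς := by
    rw [hς]
    exact mul_nonneg hh.le (le_min (Real.rpow_nonneg hk.le _)
      (mul_nonneg (Real.rpow_nonneg hk.le _) hA))
  have hς1 : P.ς ≤ h * k ^ (min 1 β * κ / 8) := by
    rw [hς]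
    exact mul_le_mul_of_nonneg_left (min_le_left _ _) hh.le
  have hkκ1 : k ^ (min 1 β * κ / 8) ≤ 1 := by
    have hmin : 0 < min 1 β := lt_min one_pos hβ
    exact Real.rpow_le_one hk.le hk1 (by positivity)
  have hς2 : P.ς ≤ h := hς1.trans (by nlinarith)
  have hjr : (j : ℝ) + 1 ≤ P.ns := by exact_mod_cast hj
  have hj0 : (0 : ℝ) ≤ j := Nat.cast_nonneg j
  have hnsp : (0 : ℝ) < P.ns + 1 := by positivity
  have hden : 0 < (P.ns : ℝ) + 1 - j := by linarith
  have hden' : 0 < (P.ns : ℝ) - j := by linarith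
  obtain ⟨l1, l2⟩ := lamS_le P.ns j hj.le
  -- `|δ|` at the time `j`
  have hbd : P.bd j ≤ κ / 16 * ell k + 5 := by
    have := Brg1_bd P hk hh hOK (by rw [e1]; exact K2) j hj
    rwa [e1] at this
  -- `|√h c|`
  have hsm : P.m0 / (P.ns + 1) + P.ς * lamS P.ns j ≤ 1 / 40 := by
    have l3 : P.m0 / (P.ns + 1) ≤ h * (κ / 16 * ell k + 4) := by
      rw [div_le_iff₀ hnsp]
      have c1 : 1 ≤ h * ((P.ns : ℝ) + 1) := by nlinarith
      calc P.m0 ≤ P.m0 * (h * ((P.ns : ℝ) + 1)) := le_mul_of_one_le_right hm0 c1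
        _ ≤ (κ / 16 * ell k + 4) * (h * ((P.ns : ℝ) + 1)) :=
            mul_le_mul_of_nonneg_right hm (by positivity)
        _ = _ := by ring
    have l4 : h * Real.sqrt (P.ns + 1) ≤ 1 / 240 := by
      refine abs_le_of_sq_le_sq' ?_ (by norm_num) |>.2
      rw [mul_pow, Real.sq_sqrt hnsp.le]
      calc h ^ 2 * ((P.ns : ℝ) + 1) = h * (P.ns * h + h) := by ring
        _ ≤ h * (ell k ^ 3 + 1) := mul_le_mul_of_nonneg_left (by linarith) hh.le
        _ ≤ (1 / 240) ^ 2 := q4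
    have l5 : Real.log (P.ns + 1) ≤ 2 * Real.sqrt (P.ns + 1) := by
      have c1 := Real.log_le_sub_one_of_pos (Real.sqrt_pos.2 hnsp)
      rw [Real.log_sqrt hnsp.le] at c1
      linarith
    have l6 : P.ς * lamS P.ns j ≤ h + 2 * (h * Real.sqrt (P.ns + 1)) := by
      calc P.ς * lamS P.ns j ≤ h * (1 + 2 * Real.sqrt (P.ns + 1)) :=
            mul_le_mul hς2 (by linarith) l1 hh.le
        _ = _ := by ring
    linarith
  set δ := Complex.log (G.2 z / G.1 z) with hδ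
  set a : ℝ := 1 / ((P.ns : ℝ) + 1 - j) with ha
  have ha0 : 0 ≤ a := by positivity
  have ha1 : a ≤ 1 := by
    rw [ha, div_le_one hden]
    linarith
  have haδ : a * ‖δ‖ ≤ 1 / 40 := by
    refine le_trans ?_ hsm
    rw [ha, one_div_mul_eq_div, div_le_iff₀ hden]
    exact n3
  have hE : Real.exp ‖δ‖ ≤ Real.exp 5 * k ^ (-(κ / 16)) := by
    have c1 : k ^ (-(κ / 16)) = Real.exp (κ / 16 * ell k) := by
      unfold ell
      rw [Real.rpow_def_of_pos hk, one_div, Real.log_inv]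
      congr 1
      ring
    rw [c1, ← Real.exp_add]
    exact Real.exp_le_exp.2 (by linarith)
  have hctl : P.ctl k h j G z = -δ / ((Real.sqrt h * (P.ns + 1 - j) : ℝ) : ℂ) := by
    unfold BPar.ctl
    rw [if_pos ⟨hz, hj, hreg⟩]
  have hsq : 0 < Real.sqrt h := Real.sqrt_pos.2 hh
  have hA2 : ‖((Real.sqrt h : ℝ) : ℂ) * ξ z‖ ≤ 1 / 40 := by
    rw [norm_mul, Complex.norm_real, Real.norm_of_nonneg hsq.le]
    exact hξ.trans q2
  have harg : ((Real.sqrt h : ℝ) : ℂ) * (ξ z + P.ctl k h j G z) =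
      ((Real.sqrt h : ℝ) : ℂ) * ξ z - (a : ℂ) * δ := by
    have c1 : ((Real.sqrt h : ℝ) : ℂ) ≠ 0 := by
      exact_mod_cast hsq.ne'
    have c2 : (((P.ns : ℝ) + 1 - j : ℝ) : ℂ) ≠ 0 := by
      exact_mod_cast hden.ne'
    rw [hctl, ha]
    push_cast at c2 ⊢
    field_simp
    ring
  have e4 : (P.bst β k h j G ξ).1 z = JV β h (Complex.exp (((Real.sqrt h : ℝ) : ℂ) * ξ z) * G.1 z) +
      (k * h) • (∑ v ∈ (boxNet d L).nb z, G.1 v - ((2 * d : ℕ) : ℝ) • G.1 z) := rfl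
  have e5 : (P.bst β k h j G ξ).2 z =
      JV β h (Complex.exp (((Real.sqrt h : ℝ) : ℂ) * ξ z - (a : ℂ) * δ) * G.2 z) +
      (k * h) • (∑ v ∈ (boxNet d L).nb z, G.2 v - ((2 * d : ℕ) : ℝ) • G.2 z) := by
    rw [← harg]
    rfl
  rw [e4, e5]
  obtain ⟨z1, z2, z3⟩ := Brg1_core hβ hh hk hk1 ((boxNet d L).nb z) d ((boxNet d L).nb_card z)
    G.1 G.2 (G.1 z)
    (G.2 z) (((Real.sqrt h : ℝ) : ℂ) * ξ z) a (k ^ (κ / 2)) (Real.exp 5 * k ^ (-(κ / 16))) n1 n2 ha0
    ha1 hA2 haδ (Real.rpow_nonneg hk.le _) (Real.rpow_le_one hk.le hk1 (by positivity)) n5 n7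
    (fun v hv => (n8 v hv).1) (fun v hv => (n8 v hv).2) hE q5 q6
  refine ⟨z1, z2, z3.trans ?_⟩
  rw [← hδ]
  have hg1p : 0 < ‖G.1 z‖ := norm_pos_iff.2 n1
  have hg2p : 0 < ‖G.2 z‖ := norm_pos_iff.2 n2
  have hδ0 : 0 ≤ ‖δ‖ := norm_nonneg _
  have hd0 : (0 : ℝ) ≤ d := Nat.cast_nonneg d
  have hcard : (((boxNet d L).nb z).card : ℝ) ≤ 2 * d := by
    exact_mod_cast (boxNet d L).nb_card z
  have hb1 : P.bd (j + 1) = (P.m0 / (P.ns + 1) + P.ς * lamS P.ns j) * ((P.ns : ℝ) - j) + P.ς := by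
    have c1 : lamS P.ns (j + 1) = lamS P.ns j + 1 / ((P.ns : ℝ) - j) := by
      unfold lamS
      rw [Finset.sum_range_succ]
    have c2 : 1 / ((P.ns : ℝ) - j) * ((P.ns : ℝ) - j) = 1 := by
      rw [one_div, inv_mul_cancel₀ hden'.ne']
    unfold BPar.bd
    rw [c1]
    push_cast
    calc (P.m0 / ((P.ns : ℝ) + 1) + P.ς * (lamS P.ns j + 1 / ((P.ns : ℝ) - j))) *
          ((P.ns : ℝ) + 1 - (j + 1))
        = (P.m0 / ((P.ns : ℝ) + 1) + P.ς * lamS P.ns j) * ((P.ns : ℝ) - j) +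
          P.ς * (1 / ((P.ns : ℝ) - j) * ((P.ns : ℝ) - j)) := by ring
      _ = _ := by rw [c2, mul_one]
  have hb2 : (1 - a) * ‖δ‖ ≤
      (P.m0 / (P.ns + 1) + P.ς * lamS P.ns j) * ((P.ns : ℝ) - j) := by
    have c1 : (1 - a) * ((P.ns : ℝ) + 1 - j) = (P.ns : ℝ) - j := by
      rw [ha, sub_mul, one_div, inv_mul_cancel₀ hden.ne']
      ring
    calc (1 - a) * ‖δ‖ ≤ (1 - a) * P.bd j := mul_le_mul_of_nonneg_left n3 (by linarith)
      _ = (P.m0 / (P.ns + 1) + P.ς * lamS P.ns j) * ((1 - a) * ((P.ns : ℝ) + 1 - j)) := by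
          unfold BPar.bd
          ring
      _ = _ := by rw [c1]
  set κ' := min 1 β * κ / 8 with hκ'
  set coef : ℝ := 2 * β * (2 * k ^ (κ / 2)) ^ β + 8 * d * k ^ (κ / 2) *
    (Real.exp 5 * k ^ (-(κ / 16))) + 8 * d * k with hcoef
  set S : ℝ := 4 * h * k * (∑ v ∈ (boxNet d L).nb z, ‖G.1 v - G.2 v‖) / ‖G.2 z‖ with hS
  have hcoef0 : 0 ≤ coef := by positivity
  have hkey : h * coef * ‖δ‖ + S ≤ P.ς := by
    rw [hς, mul_min_of_nonneg _ _ hh.le]
    have hcoef1 : coef ≤ 1 / 2 := by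
      have c1 : coef * 1 ≤ coef * (κ / 16 * ell k + 5) :=
        mul_le_mul_of_nonneg_left (by nlinarith) hcoef0
      linarith
    refine le_min ?_ ?_
    · have s1 : h * coef * ‖δ‖ ≤ h * (1 / 2 * k ^ κ') := by
        calc h * coef * ‖δ‖ = h * (coef * ‖δ‖) := by ring
          _ ≤ h * (coef * (κ / 16 * ell k + 5)) :=
              mul_le_mul_of_nonneg_left (mul_le_mul_of_nonneg_left (n3.trans hbd) hcoef0) hh.le
          _ ≤ _ := mul_le_mul_of_nonneg_left KA hh.le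
      have s2 : S ≤ h * (1 / 2 * k ^ κ') := by
        have c1 : ‖G.1 z‖ ≤ Real.exp 5 * k ^ (-(κ / 16)) * ‖G.2 z‖ :=
          (Brg1_ratio n1 n2).1.trans (mul_le_mul_of_nonneg_right hE hg2p.le)
        have c2 : k * ∑ v ∈ (boxNet d L).nb z, ‖G.1 v - G.2 v‖ ≤
            2 * d * (k ^ (κ / 2) * (Real.exp 5 * k ^ (-(κ / 16)) + 1) * ‖G.2 z‖) := by
          rw [Finset.mul_sum]
          calc ∑ v ∈ (boxNet d L).nb z, k * ‖G.1 v - G.2 v‖
              ≤ ∑ v ∈ (boxNet d L).nb z,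
                k ^ (κ / 2) * (Real.exp 5 * k ^ (-(κ / 16)) + 1) * ‖G.2 z‖ := by
                refine Finset.sum_le_sum fun v hv => ?_
                have c3 := mul_le_mul_of_nonneg_left (norm_sub_le (G.1 v) (G.2 v)) hk.le
                have c4 := (n8 v hv).1
                have c5 := (n8 v hv).2
                have c6 := mul_le_mul_of_nonneg_left c1 (Real.rpow_nonneg hk.le (κ / 2))
                calc k * ‖G.1 v - G.2 v‖ ≤ k ^ (κ / 2) * ‖G.1 z‖ + k ^ (κ / 2) * ‖G.2 z‖ := by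
                      linarith
                  _ ≤ k ^ (κ / 2) * (Real.exp 5 * k ^ (-(κ / 16)) * ‖G.2 z‖) +
                      k ^ (κ / 2) * ‖G.2 z‖ := by linarith
                  _ = _ := by ring
            _ = (((boxNet d L).nb z).card : ℝ) *
                (k ^ (κ / 2) * (Real.exp 5 * k ^ (-(κ / 16)) + 1) * ‖G.2 z‖) := by
                rw [Finset.sum_const, nsmul_eq_mul]
            _ ≤ _ := mul_le_mul_of_nonneg_right hcard (by positivity)
        rw [hS, div_le_iff₀ hg2p]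
        calc 4 * h * k * ∑ v ∈ (boxNet d L).nb z, ‖G.1 v - G.2 v‖
            = 4 * h * (k * ∑ v ∈ (boxNet d L).nb z, ‖G.1 v - G.2 v‖) := by ring
          _ ≤ 4 * h * (2 * d * (k ^ (κ / 2) * (Real.exp 5 * k ^ (-(κ / 16)) + 1) * ‖G.2 z‖)) :=
              mul_le_mul_of_nonneg_left c2 (by positivity)
          _ = h * (8 * d * k ^ (κ / 2) * (Real.exp 5 * k ^ (-(κ / 16)) + 1)) * ‖G.2 z‖ := by
              ring
          _ ≤ h * (1 / 2 * k ^ κ') * ‖G.2 z‖ :=
              mul_le_mul_of_nonneg_right (mul_le_mul_of_nonneg_left KC hh.le) hg2p.le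
      calc h * coef * ‖δ‖ + S ≤ h * (1 / 2 * k ^ κ') + h * (1 / 2 * k ^ κ') := add_le_add s1 s2
        _ = h * k ^ κ' := by ring
    · -- the bound with `A0`
      set R : ℝ := k ^ (-(P.M8 + 2 * P.M6 + 4)) * P.A0 with hR
      have hD : ∀ v, ‖G.1 v - G.2 v‖ ≤ P.A0 * k ^ (-P.M8) := by
        intro v
        refine (hreg.2 v).trans (mul_le_mul_of_nonneg_left ?_ hA)
        refine Real.rpow_le_rpow_of_exponent_ge hk hk1 ?_
        have : (0 : ℝ) ≤ (boxNet d L).dist P.y v := Nat.cast_nonneg _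
        linarith
      have s0 : ‖δ‖ ≤ R := by
        have c1 := Brg1_lin (g2 := G.2 z) n1
        rw [← hδ] at c1
        have c2 : ‖G.1 z - G.2 z‖ / ‖G.1 z‖ ≤ P.A0 * k ^ (-P.M8) * k ^ (-(P.M6 + 1)) := by
          rw [div_le_iff₀ hg1p]
          calc ‖G.1 z - G.2 z‖ ≤ P.A0 * k ^ (-P.M8) := hD z
            _ = P.A0 * k ^ (-P.M8) * (k ^ (-(P.M6 + 1)) * k ^ (P.M6 + 1)) := by
                rw [← Real.rpow_add hk]
                simp
            _ ≤ P.A0 * k ^ (-P.M8) * (k ^ (-(P.M6 + 1)) * ‖G.1 z‖) := by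
                refine mul_le_mul_of_nonneg_left ?_ (by positivity)
                exact mul_le_mul_of_nonneg_left n4 (Real.rpow_nonneg hk.le _)
            _ = _ := by ring
        have c3 : 2 * (1 + ‖δ‖) ≤ k ^ (-1 : ℝ) := by
          have c4 : 2 * (1 + ‖δ‖) * k ≤ 1 := by
            refine le_trans (mul_le_mul_of_nonneg_right ?_ hk.le) KD
            have := n3.trans hbd
            linarith
          rw [Real.rpow_neg_one, ← one_div, le_div_iff₀ hk]
          exact c4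
        calc ‖δ‖ ≤ 2 * (1 + ‖δ‖) * (‖G.1 z - G.2 z‖ / ‖G.1 z‖) := c1
          _ ≤ k ^ (-1 : ℝ) * (P.A0 * k ^ (-P.M8) * k ^ (-(P.M6 + 1))) :=
              mul_le_mul c3 c2 (by positivity) (by positivity)
          _ = k ^ (-(P.M8 + P.M6 + 2)) * P.A0 := by
              have c4 : k ^ (-(P.M8 + P.M6 + 2)) = k ^ (-1 : ℝ) * k ^ (-P.M8) *
                  k ^ (-(P.M6 + 1)) := by
                rw [← Real.rpow_add hk, ← Real.rpow_add hk]
                congr 1
                ring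
              rw [c4]
              ring
          _ ≤ R := by
              rw [hR]
              refine mul_le_mul_of_nonneg_right ?_ hA
              exact Real.rpow_le_rpow_of_exponent_ge hk hk1 (by linarith)
      have hR0 : 0 ≤ R := by positivity
      have s1 : h * coef * ‖δ‖ ≤ h * (1 / 2 * R) := by
        calc h * coef * ‖δ‖ = h * (coef * ‖δ‖) := by ring
          _ ≤ h * (1 / 2 * R) :=
              mul_le_mul_of_nonneg_left (mul_le_mul hcoef1 s0 hδ0 (by norm_num)) hh.le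
      have s2 : S ≤ h * (1 / 2 * R) := by
        have c2 : ∑ v ∈ (boxNet d L).nb z, ‖G.1 v - G.2 v‖ ≤ 2 * d * (P.A0 * k ^ (-P.M8)) := by
          calc ∑ v ∈ (boxNet d L).nb z, ‖G.1 v - G.2 v‖
              ≤ ∑ v ∈ (boxNet d L).nb z, P.A0 * k ^ (-P.M8) :=
                Finset.sum_le_sum fun v _ => hD v
            _ = (((boxNet d L).nb z).card : ℝ) * (P.A0 * k ^ (-P.M8)) := by
                rw [Finset.sum_const, nsmul_eq_mul]
            _ ≤ _ := mul_le_mul_of_nonneg_right hcard (by positivity)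
        have c3 : 16 * d * (P.A0 * k ^ (-P.M8)) * k ≤ R * k ^ (P.M6 + 1) := by
          have c4 : R * k ^ (P.M6 + 1) = P.A0 * k ^ (-P.M8) * (k ^ (-(P.M6 + 3))) := by
            rw [hR]
            have c5 : k ^ (-(P.M8 + 2 * P.M6 + 4)) * k ^ (P.M6 + 1) =
                k ^ (-P.M8) * k ^ (-(P.M6 + 3)) := by
              rw [← Real.rpow_add hk, ← Real.rpow_add hk]
              congr 1
              ring
            calc k ^ (-(P.M8 + 2 * P.M6 + 4)) * P.A0 * k ^ (P.M6 + 1)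
                = P.A0 * (k ^ (-(P.M8 + 2 * P.M6 + 4)) * k ^ (P.M6 + 1)) := by ring
              _ = _ := by rw [c5]; ring
          have c6 : 16 * d * k ≤ k ^ (-(P.M6 + 3)) := by
            have c7 : k ^ (-3 : ℝ) ≤ k ^ (-(P.M6 + 3)) :=
              Real.rpow_le_rpow_of_exponent_ge hk hk1 (by linarith)
            refine le_trans ?_ c7
            have c8 : k ^ (-3 : ℝ) = 1 / k ^ 3 := by
              rw [Real.rpow_neg hk.le, one_div]
              congr 1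
              exact_mod_cast Real.rpow_natCast k 3
            rw [c8, le_div_iff₀ (by positivity)]
            calc 16 * (d : ℝ) * k * k ^ 3 = 16 * d * k ^ 4 := by ring
              _ ≤ 1 := KE
          rw [c4]
          calc 16 * d * (P.A0 * k ^ (-P.M8)) * k = P.A0 * k ^ (-P.M8) * (16 * d * k) := by ring
            _ ≤ _ := mul_le_mul_of_nonneg_left c6 (by positivity)
        have c9 : R * k ^ (P.M6 + 1) ≤ R * ‖G.2 z‖ := mul_le_mul_of_nonneg_left n6 hR0
        rw [hS, div_le_iff₀ hg2p]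
        calc 4 * h * k * ∑ v ∈ (boxNet d L).nb z, ‖G.1 v - G.2 v‖
            ≤ 4 * h * k * (2 * d * (P.A0 * k ^ (-P.M8))) :=
              mul_le_mul_of_nonneg_left c2 (by positivity)
          _ = h * (1 / 2 * (16 * d * (P.A0 * k ^ (-P.M8)) * k)) := by ring
          _ ≤ h * (1 / 2 * (R * ‖G.2 z‖)) := by
              refine mul_le_mul_of_nonneg_left ?_ hh.le
              linarith
          _ = h * (1 / 2 * R) * ‖G.2 z‖ := by ring
      calc h * coef * ‖δ‖ + S ≤ h * (1 / 2 * R) + h * (1 / 2 * R) := add_le_add s1 s2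
        _ = h * R := by ring
  calc (1 - a + h * coef) * ‖δ‖ + S = (1 - a) * ‖δ‖ + (h * coef * ‖δ‖ + S) := by ring
    _ ≤ (P.m0 / (P.ns + 1) + P.ς * lamS P.ns j) * ((P.ns : ℝ) - j) + P.ς :=
        add_le_add hb2 hkey
    _ = P.bd (j + 1) := hb1.symm

private theorem Brg1_cpl_nn {ι : Type} [Fintype ι] {d : ℕ} (net : Net ι d) (u : ι → ℝ)
    (hu : ∀ w, 0 ≤ u w) (x : ι) : 0 ≤ cpl net u x := by
  unfold cpl
  have h1 : 0 ≤ ∑ y ∈ net.nb x, u y := Finset.sum_nonneg fun y _ => hu y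
  have h2 := hu x
  positivity

/-- a step without control -/
private theorem Brg1_nc {d L : ℕ} (P : BPar d L) {β k h : ℝ} (hβ : 0 < β) (hk : 0 < k) (hh : 0 < h)
    (j : ℕ) (G : (boxS d L → ℂ) × (boxS d L → ℂ)) (ξ : boxS d L → ℂ)
    (hn : ¬ (j < P.ns ∧ P.RegSt k j G)) :
    DStep (boxNet d L) h k (fun x => bC h (ξ x)) (dif G.1 G.2)
      (dif (P.bst β k h j G ξ).1 (P.bst β k h j G ξ).2) := by
  have h1 : (fun z => ξ z + P.ctl k h j G z) = ξ := by
    funext z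
    unfold BPar.ctl
    rw [if_neg (fun hc => hn ⟨hc.2.1, hc.2.2⟩), add_zero]
  have h2 : P.bst β k h j G ξ = (st2 d β k h L G.1 ξ, st2 d β k h L G.2 ξ) := by
    unfold BPar.bst
    rw [h1]
  rw [h2]
  exact (PS2 d β k hβ hk.le).dd h L G ξ hh

/-- any step, with a factor -/
private theorem Brg1_any {d L : ℕ} (P : BPar d L) {β k h κ : ℝ} (hβ : 0 < β) (hk : 0 < k)
    (hk1 : k < 1) (hh : 0 < h) (hκ : 0 < κ) (e1 : P.κ = κ) (hl : 1 ≤ ell k) (hOK : P.OK β k h)
    (K2 : k ^ (min 1 β * κ / 8) * ell k ^ 3 ≤ 1)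
    (KF : 1 + 2 * (κ / 16 * ell k + 6) * Real.exp 10 * k ^ (-(κ / 8)) ≤ k ^ (-(κ / 4)))
    (j : ℕ) (G : (boxS d L → ℂ) × (boxS d L → ℂ)) (ξ : boxS d L → ℂ) (z : boxS d L) :
    dif (P.bst β k h j G ξ).1 (P.bst β k h j G ξ).2 z ≤
      Real.exp (bC h (ξ z)) * (k ^ (-(κ / 4)) * dif G.1 G.2 z) +
        k * h * cpl (boxNet d L) (dif G.1 G.2) z := by
  have hdd := ((PS2 d β k hβ hk.le).dd h L G ξ hh).up z
  have hdd' : ‖st2 d β k h L G.1 ξ z - st2 d β k h L G.2 ξ z‖ ≤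
      Real.exp (bC h (ξ z)) * dif G.1 G.2 z + k * h * cpl (boxNet d L) (dif G.1 G.2) z := hdd
  have hD0 : 0 ≤ dif G.1 G.2 z := norm_nonneg _
  have hexp := Real.exp_pos (bC h (ξ z))
  set c := P.ctl k h j G z with hc
  have hst : ‖st2 d β k h L G.2 ξ z - st2 d β k h L G.2 (fun z => ξ z + P.ctl k h j G z) z‖ ≤
      Real.exp (bC h (ξ z)) * (‖Complex.exp (((Real.sqrt h : ℝ) : ℂ) * c) - 1‖ * ‖G.2 z‖) := by
    have a1 : st2 d β k h L G.2 ξ z - st2 d β k h L G.2 (fun z => ξ z + P.ctl k h j G z) z =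
        JV β h (Complex.exp (((Real.sqrt h : ℝ) : ℂ) * ξ z) * G.2 z) -
          JV β h (Complex.exp (((Real.sqrt h : ℝ) : ℂ) * (ξ z + c)) * G.2 z) := by
      change (JV β h (Complex.exp (((Real.sqrt h : ℝ) : ℂ) * ξ z) * G.2 z) +
          (k * h) • coupV (boxNet d L) G.2 z) -
        (JV β h (Complex.exp (((Real.sqrt h : ℝ) : ℂ) * (ξ z + c)) * G.2 z) +
          (k * h) • coupV (boxNet d L) G.2 z) = _
      rw [add_sub_add_right_eq_sub]
    rw [a1]
    refine (JV_nonexp hβ hh.le _ _).trans (le_of_eq ?_)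
    have a2 : Complex.exp (((Real.sqrt h : ℝ) : ℂ) * ξ z) * G.2 z -
        Complex.exp (((Real.sqrt h : ℝ) : ℂ) * (ξ z + c)) * G.2 z =
        Complex.exp (((Real.sqrt h : ℝ) : ℂ) * ξ z) *
          (-((Complex.exp (((Real.sqrt h : ℝ) : ℂ) * c) - 1) * G.2 z)) := by
      rw [mul_add, Complex.exp_add]
      ring
    rw [a2, norm_mul, norm_neg, norm_mul, Complex.norm_exp]
    congr 2
    unfold bC
    simp
  have hmain : ‖Complex.exp (((Real.sqrt h : ℝ) : ℂ) * c) - 1‖ * ‖G.2 z‖ ≤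
      (k ^ (-(κ / 4)) - 1) * dif G.1 G.2 z := by
    have hK1 : 0 ≤ k ^ (-(κ / 4)) - 1 := by
      have : 0 ≤ 2 * (κ / 16 * ell k + 6) * Real.exp 10 * k ^ (-(κ / 8)) := by positivity
      linarith
    by_cases hr : P.Bs z ∧ j < P.ns ∧ P.RegSt k j G
    swap
    · have a1 : c = 0 := by
        rw [hc]
        unfold BPar.ctl
        rw [if_neg hr]
      rw [a1, mul_zero, Complex.exp_zero, sub_self, norm_zero, zero_mul]
      exact mul_nonneg hK1 hD0
    obtain ⟨hz, hj, hreg⟩ := hr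
    obtain ⟨n1, n2, n3, -⟩ := hreg.1 z hz
    have hg1p : 0 < ‖G.1 z‖ := norm_pos_iff.2 n1
    have hbd : P.bd j ≤ κ / 16 * ell k + 5 := by
      have := Brg1_bd P hk hh hOK (by rw [e1]; exact K2) j hj
      rwa [e1] at this
    have hjr : (j : ℝ) + 1 ≤ P.ns := by exact_mod_cast hj
    have hden : 1 ≤ (P.ns : ℝ) + 1 - j := by linarith
    have hsq : 0 < Real.sqrt h := Real.sqrt_pos.2 hh
    set δ := Complex.log (G.2 z / G.1 z) with hδ
    have a1 : ‖((Real.sqrt h : ℝ) : ℂ) * c‖ ≤ ‖δ‖ := by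
      rw [hc]
      unfold BPar.ctl
      rw [if_pos ⟨hz, hj, hreg⟩, norm_mul, norm_div, norm_neg, Complex.norm_real,
        Complex.norm_real, Real.norm_of_nonneg hsq.le, Real.norm_of_nonneg (by positivity)]
      rw [← mul_div_assoc, mul_div_mul_left _ _ hsq.ne']
      exact div_le_self (norm_nonneg _) hden
    have a2 : ‖Complex.exp (((Real.sqrt h : ℝ) : ℂ) * c) - 1‖ ≤ ‖δ‖ * Real.exp ‖δ‖ := by
      refine (Brg1_exp_sub _).trans ?_
      exact mul_le_mul a1 (Real.exp_le_exp.2 a1) (Real.exp_pos _).le (norm_nonneg _)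
    have a3 := (Brg1_ratio n1 n2).2
    rw [← hδ] at a3
    have a4 := Brg1_lin (g2 := G.2 z) n1
    rw [← hδ] at a4
    have a5 : ‖δ‖ * ‖G.1 z‖ ≤ 2 * (κ / 16 * ell k + 6) * dif G.1 G.2 z := by
      calc ‖δ‖ * ‖G.1 z‖ ≤ 2 * (1 + ‖δ‖) * (‖G.1 z - G.2 z‖ / ‖G.1 z‖) * ‖G.1 z‖ :=
            mul_le_mul_of_nonneg_right a4 hg1p.le
        _ = 2 * (1 + ‖δ‖) * ‖G.1 z - G.2 z‖ := by
            rw [mul_assoc, div_mul_cancel₀ _ hg1p.ne']
        _ ≤ 2 * (κ / 16 * ell k + 6) * ‖G.1 z - G.2 z‖ := by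
            refine mul_le_mul_of_nonneg_right ?_ (norm_nonneg _)
            have := n3.trans hbd
            linarith
        _ = _ := rfl
    have a6 : Real.exp ‖δ‖ * Real.exp ‖δ‖ ≤ Real.exp 10 * k ^ (-(κ / 8)) := by
      have c1 : k ^ (-(κ / 8)) = Real.exp (κ / 8 * ell k) := by
        unfold ell
        rw [Real.rpow_def_of_pos hk, one_div, Real.log_inv]
        congr 1
        ring
      rw [c1, ← Real.exp_add, ← Real.exp_add]
      have := n3.trans hbd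
      exact Real.exp_le_exp.2 (by linarith)
    calc ‖Complex.exp (((Real.sqrt h : ℝ) : ℂ) * c) - 1‖ * ‖G.2 z‖
        ≤ (‖δ‖ * Real.exp ‖δ‖) * (Real.exp ‖δ‖ * ‖G.1 z‖) :=
          mul_le_mul a2 a3 (norm_nonneg _) (by positivity)
      _ = (Real.exp ‖δ‖ * Real.exp ‖δ‖) * (‖δ‖ * ‖G.1 z‖) := by ring
      _ ≤ (Real.exp 10 * k ^ (-(κ / 8))) * (2 * (κ / 16 * ell k + 6) * dif G.1 G.2 z) :=
          mul_le_mul a6 a5 (by positivity) (by positivity)
      _ = (2 * (κ / 16 * ell k + 6) * Real.exp 10 * k ^ (-(κ / 8))) * dif G.1 G.2 z := by ring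
      _ ≤ (k ^ (-(κ / 4)) - 1) * dif G.1 G.2 z :=
          mul_le_mul_of_nonneg_right (by linarith) hD0
  have htri : dif (P.bst β k h j G ξ).1 (P.bst β k h j G ξ).2 z ≤
      ‖st2 d β k h L G.1 ξ z - st2 d β k h L G.2 ξ z‖ +
      ‖st2 d β k h L G.2 ξ z - st2 d β k h L G.2 (fun z => ξ z + P.ctl k h j G z) z‖ :=
    norm_sub_le_norm_sub_add_norm_sub _ _ _
  calc dif (P.bst β k h j G ξ).1 (P.bst β k h j G ξ).2 z
      ≤ (Real.exp (bC h (ξ z)) * dif G.1 G.2 z + k * h * cpl (boxNet d L) (dif G.1 G.2) z) +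
        Real.exp (bC h (ξ z)) * ((k ^ (-(κ / 4)) - 1) * dif G.1 G.2 z) :=
        htri.trans (add_le_add hdd' (hst.trans (mul_le_mul_of_nonneg_left hmain hexp.le)))
    _ = _ := by ring

/-- growth from a time `τ < n` with one step with a factor -/
private theorem Brg1_from {d L : ℕ} {k h K A M : ℝ} (hk : 0 < k) (hk1 : k < 1) (hh : 0 < h)
    (hl : 1 ≤ ell k) (hK : 1 ≤ K) (hA : 0 ≤ A) (hKe : K * Real.exp 1 ≤ k ^ (-1 : ℝ))
    (KG : 4 * d * k ^ (3 / 8 : ℝ) * ell k ^ 3 ≤ 1) (y : boxS d L)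
    (D : ℕ → boxS d L → ℝ) (hD0 : ∀ j x, 0 ≤ D j x) (ω : ℕ → boxS d L → ℂ) (τ n : ℕ) (hτ : τ < n)
    (hn : n * h ≤ ell k ^ 3)
    (hini : ∀ v, D τ v ≤ A * k ^ (-M + ((boxNet d L).dist y v : ℝ) / 2))
    (hst : ∀ z, D (τ + 1) z ≤ Real.exp (bC h (ω τ z)) * (K * D τ z) +
      k * h * cpl (boxNet d L) (D τ) z)
    (hst' : ∀ j, τ < j → j < n → DStep (boxNet d L) h k (fun x => bC h (ω j x)) (D j) (D (j + 1)))
    (x : boxS d L) :
    D n x ≤ A * Real.exp (ell k * ((boxMSet d L).lpp (1 / 8) (fun _ => 0) (gz k h ω) n x +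
          M + 1 - ((boxNet d L).dist y x : ℝ) / 2)) := by
  have hKe' : k = Real.exp (-ell k) := by
    unfold ell
    rw [one_div, Real.log_inv, neg_neg, Real.exp_log hk]
  have hpow : ∀ e : ℝ, k ^ e = Real.exp (-(ell k * e)) := by
    intro e
    conv_lhs => rw [hKe']
    rw [← Real.exp_mul]
    congr 1
    ring
  have hK0 : 0 ≤ K := by linarith
  set D' : ℕ → boxS d L → ℝ := fun j =>
    if j = 0 then (fun v => K * D τ v) else if τ + j ≤ n then D (τ + j) else fun _ => 0 with hD'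
  have hD'0 : ∀ j x, 0 ≤ D' j x := by
    intro j x
    simp only [hD']
    split_ifs
    · exact mul_nonneg hK0 (hD0 _ _)
    · exact hD0 _ _
    · exact le_rfl
  have hDS : ∀ j, DStep (boxNet d L) h k (fun x => bC h (ω (τ + j) x)) (D' j) (D' (j + 1)) := by
    intro j
    refine ⟨hD'0 j, hD'0 (j + 1), fun z => ?_⟩
    have hcn : ∀ i, 0 ≤ k * h * cpl (boxNet d L) (D' i) z := fun i =>
      mul_nonneg (mul_nonneg hk.le hh.le) (Brg1_cpl_nn _ _ (hD'0 i) z)
    have hrhs : 0 ≤ Real.exp (bC h (ω (τ + j) z)) * D' j z + k * h * cpl (boxNet d L) (D' j) z :=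
      add_nonneg (mul_nonneg (Real.exp_pos _).le (hD'0 j z)) (hcn j)
    by_cases hjn : τ + (j + 1) ≤ n
    swap
    · have a1 : D' (j + 1) z = 0 := by
        simp only [hD']
        rw [if_neg (Nat.succ_ne_zero j), if_neg hjn]
      rw [a1]
      exact hrhs
    have a1 : D' (j + 1) = D (τ + (j + 1)) := by
      simp only [hD']
      rw [if_neg (Nat.succ_ne_zero j), if_pos hjn]
    rw [a1]
    rcases Nat.eq_zero_or_pos j with hj | hj
    · subst hj
      have a2 : D' 0 = fun v => K * D τ v := by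
        simp only [hD']
        rw [if_pos trivial]
      rw [a2]
      refine (hst z).trans (add_le_add le_rfl ?_)
      refine mul_le_mul_of_nonneg_left ?_ (mul_nonneg hk.le hh.le)
      unfold cpl
      refine add_le_add ?_ ?_
      · refine Finset.sum_le_sum fun v _ => ?_
        exact le_mul_of_one_le_left (hD0 τ v) hK
      · exact mul_le_mul_of_nonneg_left (le_mul_of_one_le_left (hD0 τ z) hK) (Nat.cast_nonneg _)
    · have a2 : D' j = D (τ + j) := by
        simp only [hD']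
        rw [if_neg hj.ne', if_pos (by omega)]
      rw [a2]
      exact (hst' (τ + j) (by omega) (by omega)).up z
  have hgp := grow_path d L k h (3 / 8) (1 / 8) (1 / 2) (K * A * k ^ (-M)) hk hk1 hh
    (by positivity) (by norm_num) (by norm_num) (by norm_num) (by norm_num)
    (fun j x => bC h (ω (τ + j) x)) D' hDS (fun v => -((boxNet d L).dist y v : ℝ) / 2)
    (fun x y' hy' => by
      have h1 := (boxNet d L).dist_tri y y' x
      rw [(boxNet d L).dist_comm y' x, (boxNet d L).dist_nb x y' hy'] at h1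
      have h2 : ((boxNet d L).dist y x : ℝ) ≤ ((boxNet d L).dist y y' : ℝ) + 1 := by
        exact_mod_cast h1
      linarith)
    (fun v => by
      have a2 : D' 0 = fun v => K * D τ v := by
        simp only [hD']
        rw [if_pos trivial]
      rw [a2]
      calc K * D τ v ≤ K * (A * k ^ (-M + ((boxNet d L).dist y v : ℝ) / 2)) :=
            mul_le_mul_of_nonneg_left (hini v) hK0
        _ = K * A * k ^ (-M) * Real.exp (ell k * (-((boxNet d L).dist y v : ℝ) / 2)) := by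
            rw [Real.rpow_add hk, hpow (((boxNet d L).dist y v : ℝ) / 2)]
            rw [show -(ell k * (((boxNet d L).dist y v : ℝ) / 2)) =
              ell k * (-((boxNet d L).dist y v : ℝ) / 2) by ring]
            ring)
    (n - τ) x
  have a1 : D' (n - τ) x = D n x := by
    simp only [hD']
    rw [if_neg (by omega), if_pos (by omega)]
    congr 1
    omega
  rw [a1] at hgp
  have a2 : (boxMSet d L).lpp (1 / 8) (fun _ => 0) (fun j y => bC h (ω (τ + j) y) / ell k)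
      (n - τ) x ≤ (boxMSet d L).lpp (1 / 8) (fun _ => 0) (gz k h ω) n x := by
    have b1 : (boxMSet d L).lpp (1 / 8) (fun _ => 0) (fun j => gz k h ω (τ + j)) (n - τ) x ≤
        (boxMSet d L).lpp (1 / 8) ((boxMSet d L).lpp (1 / 8) (fun _ => 0) (gz k h ω) τ)
          (fun j => gz k h ω (τ + j)) (n - τ) x :=
      lpp_mono (boxMSet d L) _ _ _
        (fun z => lpp_nonneg (boxMSet d L) _ _ (fun _ => le_refl 0) (gz k h ω) τ z) _ (n - τ) x
    rw [← lpp_shift, show τ + (n - τ) = n by omega] at b1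
    exact b1
  have a3 : (1 + 4 * (d : ℝ) * k ^ (3 / 8 : ℝ) * h) ^ (n - τ) ≤ Real.exp 1 := by
    have b1 : 1 + 4 * (d : ℝ) * k ^ (3 / 8 : ℝ) * h ≤
        Real.exp (4 * (d : ℝ) * k ^ (3 / 8 : ℝ) * h) := by
      have := Real.add_one_le_exp (4 * (d : ℝ) * k ^ (3 / 8 : ℝ) * h)
      linarith
    have b0 : 0 ≤ 4 * (d : ℝ) * k ^ (3 / 8 : ℝ) := by positivity
    refine (pow_le_pow_left₀ (by positivity) b1 _).trans ?_
    rw [← Real.exp_nat_mul]
    refine Real.exp_le_exp.2 ?_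
    have b2 : ((n - τ : ℕ) : ℝ) ≤ n := by exact_mod_cast Nat.sub_le n τ
    calc ((n - τ : ℕ) : ℝ) * (4 * (d : ℝ) * k ^ (3 / 8 : ℝ) * h)
        ≤ (n : ℝ) * (4 * (d : ℝ) * k ^ (3 / 8 : ℝ) * h) :=
          mul_le_mul_of_nonneg_right b2 (by positivity)
      _ = 4 * (d : ℝ) * k ^ (3 / 8 : ℝ) * (n * h) := by ring
      _ ≤ 4 * (d : ℝ) * k ^ (3 / 8 : ℝ) * ell k ^ 3 := mul_le_mul_of_nonneg_left hn b0
      _ ≤ 1 := KG
  have hkM : 0 ≤ k ^ (-M) := Real.rpow_nonneg hk.le _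
  refine hgp.trans ?_
  set W := (boxMSet d L).lpp (1 / 8) (fun _ => 0) (gz k h ω) n x with hW
  calc K * A * k ^ (-M) * (1 + 4 * (d : ℝ) * k ^ (3 / 8 : ℝ) * h) ^ (n - τ) *
        Real.exp (ell k * ((boxMSet d L).lpp (1 / 8) (fun _ => 0)
          (fun j y => bC h (ω (τ + j) y) / ell k) (n - τ) x +
            -((boxNet d L).dist y x : ℝ) / 2))
      ≤ K * A * k ^ (-M) * Real.exp 1 *
        Real.exp (ell k * (W + -((boxNet d L).dist y x : ℝ) / 2)) := by
        refine mul_le_mul (mul_le_mul_of_nonneg_left a3 (by positivity)) ?_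
          (Real.exp_pos _).le (by positivity)
        refine Real.exp_le_exp.2 (mul_le_mul_of_nonneg_left (by linarith) (by linarith))
    _ = A * (K * Real.exp 1) * k ^ (-M) *
        Real.exp (ell k * (W + -((boxNet d L).dist y x : ℝ) / 2)) := by ring
    _ ≤ A * k ^ (-1 : ℝ) * k ^ (-M) *
        Real.exp (ell k * (W + -((boxNet d L).dist y x : ℝ) / 2)) := by
        refine mul_le_mul_of_nonneg_right (mul_le_mul_of_nonneg_right
          (mul_le_mul_of_nonneg_left hKe hA) hkM) (Real.exp_pos _).le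
    _ = A * Real.exp (ell k * (W + M + 1 - ((boxNet d L).dist y x : ℝ) / 2)) := by
        rw [hpow (-1), hpow (-M), mul_assoc A, ← Real.exp_add, mul_assoc A, ← Real.exp_add]
        congr 2
        ring

theorem brg_grow (d : ℕ) (β : ℝ) (hβ : 0 < β) (κ : ℝ) (hκ : 0 < κ) :
    ∃ k0 : ℝ, 0 < k0 ∧ k0 < 1 ∧ ∀ k, 0 < k → k < k0 → ∃ h0 : ℝ, 0 < h0 ∧ ∀ h, 0 < h → h < h0 →
    ∀ (L : ℕ) (P : BPar d L), P.κ = κ → P.OK β k h →
    ∀ (G : (boxS d L → ℂ) × (boxS d L → ℂ)),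
      (∀ v, ‖G.1 v - G.2 v‖ ≤ P.A0 * k ^ (-P.M8 + (boxNet d L).dist P.y v / 2)) →
    ∀ (ω : ℕ → boxS d L → ℂ) (n : ℕ), n * h ≤ ell k ^ 3 → ∀ x,
      ‖(trajT (P.bst β k h) G ω n).1 x - (trajT (P.bst β k h) G ω n).2 x‖ ≤
        P.A0 * Real.exp (ell k * ((boxMSet d L).lpp (1 / 8) (fun _ => 0) (gz k h ω) n x +
          P.M8 + 1 - (boxNet d L).dist P.y x / 2)) := by
  by_cases hκ1 : κ ≤ 1 / 8
  swap
  · refine ⟨1 / 2, by norm_num, by norm_num, fun k _ _ => ⟨1, one_pos, ?_⟩⟩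
    intro h _ _ L P e1 hOK
    exact absurd (e1 ▸ hOK.hκ1) hκ1
  obtain ⟨k0, hk0, hk01, HK⟩ := Brg1_k0 d hβ hκ hκ1
  refine ⟨k0, hk0, hk01, fun k hk hkk => ⟨1, one_pos, fun h hh _ => ?_⟩⟩
  obtain ⟨hl, -, K2, -, -, -, KF, KG, KH⟩ := HK k hk hkk
  intro L P e1 hOK G hG ω n hn x
  have hk1 : k < 1 := hkk.trans hk01
  have hA := hOK.hA
  set K : ℝ := k ^ (-(κ / 4)) with hKdef
  have hK1 : 1 ≤ K := by
    have : 0 ≤ 2 * (κ / 16 * ell k + 6) * Real.exp 10 * k ^ (-(κ / 8)) := by positivity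
    linarith
  have hKe : K * Real.exp 1 ≤ k ^ (-1 : ℝ) := by
    have c1 : K ≤ k ^ (-1 : ℝ) * k ^ (1 / 2 : ℝ) := by
      rw [hKdef, ← Real.rpow_add hk]
      exact Real.rpow_le_rpow_of_exponent_ge hk hk1.le (by linarith)
    calc K * Real.exp 1 ≤ k ^ (-1 : ℝ) * k ^ (1 / 2 : ℝ) * Real.exp 1 :=
          mul_le_mul_of_nonneg_right c1 (Real.exp_pos _).le
      _ = k ^ (-1 : ℝ) * (k ^ (1 / 2 : ℝ) * Real.exp 1) := by ring
      _ ≤ k ^ (-1 : ℝ) * 1 := mul_le_mul_of_nonneg_left KH (Real.rpow_nonneg hk.le _)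
      _ = _ := mul_one _
  rcases Nat.eq_zero_or_pos n with h0 | h0
  · subst h0
    have a1 : ‖G.1 x - G.2 x‖ ≤ P.A0 * k ^ (-P.M8 + ((boxNet d L).dist P.y x : ℝ) / 2) := hG x
    change ‖G.1 x - G.2 x‖ ≤ P.A0 * Real.exp (ell k * (0 + P.M8 + 1 -
      ((boxNet d L).dist P.y x : ℝ) / 2))
    refine a1.trans (mul_le_mul_of_nonneg_left ?_ hA)
    have hKe' : k = Real.exp (-ell k) := by
      unfold ell
      rw [one_div, Real.log_inv, neg_neg, Real.exp_log hk]
    conv_lhs => rw [hKe']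
    rw [← Real.exp_mul]
    refine Real.exp_le_exp.2 ?_
    have : -ell k * (-P.M8 + ((boxNet d L).dist P.y x : ℝ) / 2) =
      ell k * (0 + P.M8 - ((boxNet d L).dist P.y x : ℝ) / 2) := by ring
    rw [this]
    exact mul_le_mul_of_nonneg_left (by linarith) (by linarith)
  classical
  set T : ℕ → (boxS d L → ℂ) × (boxS d L → ℂ) := fun j => trajT (P.bst β k h) G ω j with hT
  have hTs : ∀ j, T (j + 1) = P.bst β k h j (T j) (ω j) := fun j => rfl
  set τ := Nat.findGreatest (fun j => j < P.ns ∧ P.RegSt k j (T j)) (n - 1) with hτ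
  have hτn : τ < n := by
    have := Nat.findGreatest_le (P := fun j => j < P.ns ∧ P.RegSt k j (T j)) (n - 1)
    omega
  have hini : ∀ v, dif (T τ).1 (T τ).2 v ≤
      P.A0 * k ^ (-P.M8 + ((boxNet d L).dist P.y v : ℝ) / 2) := by
    rcases Nat.eq_zero_or_pos τ with h1 | h1
    · rw [h1]
      exact hG
    · have h2 := Nat.findGreatest_of_ne_zero
        (P := fun j => j < P.ns ∧ P.RegSt k j (T j)) (n := n - 1) hτ.symm h1.ne'
      exact h2.2.2
  refine Brg1_from hk hk1 hh hl hK1 hA hKe KG P.y (fun j => dif (T j).1 (T j).2)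
    (fun j x => norm_nonneg _) ω τ n hτn hn hini (fun z => ?_) (fun j hj hjn => ?_) x
  · exact Brg1_any P hβ hk hk1 hh hκ e1 hl hOK K2 KF τ (T τ) (ω τ) z
  · have h1 := Nat.findGreatest_is_greatest (P := fun j => j < P.ns ∧ P.RegSt k j (T j))
      (n := n - 1) (k := j) hj (by omega)
    exact Brg1_nc P hβ hk hh j (T j) (ω j) h1

end DynC

end
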