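import Pool.Agent.Lib_MP_36b788_m.M11
import Pool.Agent.Lib_MP_36b788_m.M23
import Pool.Agent.Lib_MP_36b788_m.M25

/-!
# MP_36b788_pr, stationary limit: merged library part M26

Concatenation of smaller files (each in its own section), only to save build time.
-/

/-! ### from `Lib_MP_36b788.SdeStep` -/

section

/-!
# SDESTEP: one step of the Euler chain, adaptedness and conditional law

PROOF. `rc_adapted`: induction on `n`; `rc 0 = (H 0 x)_{x ∈ box}` is `ℱ 0`-measurable (`adapted`); `ℱ` is monotone, increments are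
`ℱ((n+1)h)`-measurable (inc_meas), `J` continuous (J_continuous), `mulv` continuous, `coup` a finite sum.
`step_law`: `V = (Z, rc n)` is `ℱ(nh)`-measurable, independent of `ΔB = (B((n+1)h)-B(nh))` on the box (inc_past with
`g = Subtype.val`). The law of `(V, ΔB)` is the product of the laws (`IndepFun` ↔ `indepFun_iff_map_prod_eq_prod_map_map`), so
`∫Z Ψ(rc (n+1)) = ∫∫ z Ψ(J(G_x + mulv(b_x)G_x) + kh coup G)dLaw(ΔB)(b) dLaw(V)(z,G)` (`integral_map`, `integral_prod`), and for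
fixed `G` the inner integral is `∫Ψ(stp G ξ) d pim` by gauss_step (`hat β h g ξ = J(g + √h‖g‖ξ)`).
-/

open MeasureTheory ProbabilityTheory
open scoped NNReal ENNReal Topology

namespace Dyn

section
variable {Ω : Type} [mΩ : MeasurableSpace Ω] {P : Measure Ω} {N d : ℕ} {k ε β : ℝ}
    {ℱ : Filtration ℝ≥0 mΩ} {B : Site d → Fin N → Fin N → ℝ≥0 → Ω → ℝ}
    {H : ℝ≥0 → Site d → Ω → E N}

private theorem SdeStep_meas {Ω' : Type} {m : MeasurableSpace Ω'} {ι : Type} [Fintype ι]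
    (hβ : 0 < β) (h : ℝ≥0) (net : Net ι d) (R : Ω' → ι → E N) (hR : Measurable R)
    (b : ι → Fin N → Fin N → Ω' → ℝ) (hb : ∀ x i j, Measurable (b x i j)) :
    Measurable (fun ω x => J β h (R ω x + mulv (fun i j => b x i j ω) (R ω x))
      + (k * h) • coup net (R ω) x) := by
  have hRx : ∀ x, Measurable (fun ω => R ω x) := fun x => (measurable_pi_apply x).comp hR
  refine measurable_pi_lambda _ fun x => ?_
  have h1 : Measurable (fun ω => mulv (fun i j => b x i j ω) (R ω x)) :=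
    (mulv_continuous N).measurable.comp
      ((measurable_pi_lambda _ fun i => measurable_pi_lambda _ fun j => hb x i j).prodMk (hRx x))
  have h2 : Measurable (fun ω => coup net (R ω) x) := by
    unfold coup
    have h3 : Measurable (fun ω => ((2 * d : ℕ) : ℝ) • R ω x) :=
      (hRx x).const_smul ((2 * d : ℕ) : ℝ)
    exact (Finset.measurable_sum _ fun y _ => hRx y).sub h3
  have h4 : Measurable (fun ω => (k * (h : ℝ)) • coup net (R ω) x) := h2.const_smul (k * (h : ℝ))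
  exact ((J_continuous hβ h.2).measurable.comp ((hRx x).add h1)).add h4

private theorem SdeStep_le (h : ℝ≥0) (n : ℕ) : (n : ℝ≥0) * h ≤ ((n : ℝ≥0) + 1) * h := by
  rw [add_mul]
  exact le_self_add

omit mΩ in
private theorem SdeStep_rc (β k : ℝ) (h : ℝ≥0) (L : ℕ)
    (B : Site d → Fin N → Fin N → ℝ≥0 → Ω → ℝ) (H0 : Site d → Ω → E N) (n : ℕ) :
    rc β k h L B H0 (n + 1) = fun ω x =>
      J β h (rc β k h L B H0 n ω x +
        mulv (fun a b => B x a b ((n + 1) * h) ω - B x a b (n * h) ω) (rc β k h L B H0 n ω x))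
      + (k * h) • coup (boxNet d L) (rc β k h L B H0 n ω) x := by
  funext ω
  rw [rc]

theorem rc_adapted (hβ : 0 < β) (hH : IsDynamo P k ε β ℱ B H)
    (h : ℝ≥0) (L n : ℕ) : Measurable[ℱ (n * h)] (rc β k h L B (H 0) n) := by
  induction n with
  | zero =>
    have h0 : ((0 : ℕ) : ℝ≥0) * h = 0 := by simp
    rw [h0]
    have e : rc β k h L B (H 0) 0 = fun ω (x : boxS d L) => H 0 x ω := by funext ω; rw [rc]
    rw [e]
    exact @measurable_pi_lambda Ω (boxS d L) (fun _ => E N) (ℱ 0) _ _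
      (fun x => hH.adapted 0 x)
  | succ n ih =>
    have hle := SdeStep_le h n
    have e : ((n + 1 : ℕ) : ℝ≥0) = (n : ℝ≥0) + 1 := by push_cast; rfl
    rw [e, SdeStep_rc]
    have hR : Measurable[ℱ (((n : ℝ≥0) + 1) * h)] (rc β k h L B (H 0) n) :=
      ih.mono (ℱ.mono hle) le_rfl
    exact SdeStep_meas (m := ℱ (((n : ℝ≥0) + 1) * h)) (k := k) hβ h (boxNet d L) _ hR
      (fun x i j ω => B x i j ((n + 1) * h) ω - B x i j (n * h) ω)
      (fun x i j => (inc_meas hH _ _ hle x i j).1)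

private theorem SdeStep_indep [IsProbabilityMeasure P] {α γ : Type} [MeasurableSpace α]
    [MeasurableSpace γ] (V : Ω → α) (D : Ω → γ) (hV : Measurable V) (hD : Measurable D)
    (hI : IndepFun V D P) (F : α × γ → ℂ) (hF : Measurable F)
    (hF1 : ∀ ω ω', ‖F (V ω, D ω')‖ ≤ 1) :
    ∫ ω, F (V ω, D ω) ∂P = ∫ ω, ∫ ω', F (V ω, D ω') ∂P ∂P := by
  have hprod := (indepFun_iff_map_prod_eq_prod_map_map hV.aemeasurable hD.aemeasurable).1 hI
  have hPV := Measure.isProbabilityMeasure_map (μ := P) hV.aemeasurable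
  have hPD := Measure.isProbabilityMeasure_map (μ := P) hD.aemeasurable
  have hPP := Measure.isProbabilityMeasure_map (μ := P) (hV.prodMk hD).aemeasurable
  have hint : Integrable F (P.map (fun ω => (V ω, D ω))) := by
    refine Integrable.of_bound (C := 1) hF.aestronglyMeasurable ?_
    rw [ae_map_iff (hV.prodMk hD).aemeasurable (measurableSet_le hF.norm measurable_const)]
    exact Filter.Eventually.of_forall fun ω => hF1 ω ω
  have e1 : ∫ ω, F (V ω, D ω) ∂P = ∫ q, F q ∂(P.map (fun ω => (V ω, D ω))) := by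
    rw [integral_map (hV.prodMk hD).aemeasurable hF.aestronglyMeasurable]
  rw [e1]
  rw [hprod] at hint ⊢
  rw [integral_prod _ hint, integral_map hV.aemeasurable
    (hF.stronglyMeasurable.integral_prod_right').aestronglyMeasurable]
  refine integral_congr_ae (Filter.Eventually.of_forall fun ω => ?_)
  show ∫ b, F (V ω, b) ∂(P.map D) = ∫ ω', F (V ω, D ω') ∂P
  have h6 : Measurable (fun b => F (V ω, b)) := hF.comp (measurable_const.prodMk measurable_id)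
  rw [integral_map hD.aemeasurable h6.aestronglyMeasurable]

private theorem SdeStep_inner (hβ : 0 < β) (hH : IsDynamo P k ε β ℱ B H) (h : ℝ≥0) (L n : ℕ)
    (Ψ : (boxS d L → E N) → ℂ) (hΨ : Measurable Ψ) (G : boxS d L → E N) :
    ∫ ω', Ψ (fun x => J β h (G x + mulv (fun i j => B x i j ((n + 1) * h) ω'
      - B x i j (n * h) ω') (G x)) + (k * h) • coup (boxNet d L) G x) ∂P =
      ∫ ξ, Ψ (stp (boxNet d L) β h k G ξ) ∂(pim (boxS d L) (stdGaussian (E N))) := by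
  have hP := hH.prob
  have hle := SdeStep_le h n
  have hDm : ∀ x : boxS d L, ∀ i j : Fin N, Measurable
      (fun ω => B x i j ((n + 1) * h) ω - B x i j (n * h) ω) :=
    fun x i j => (inc_meas hH _ _ hle x i j).2
  have hA : Measurable (fun w : boxS d L → E N => Ψ (fun x => J β h (G x + w x)
      + (k * h) • coup (boxNet d L) G x)) := by
    refine hΨ.comp (measurable_pi_lambda _ fun x => Measurable.add ?_ measurable_const)
    exact (J_continuous hβ h.2).measurable.comp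
      (measurable_const.add (measurable_pi_apply x))
  have hG : Measurable (fun ω' (x : boxS d L) =>
      mulv (fun i j => B x i j ((n + 1) * h) ω' - B x i j (n * h) ω') (G x)) :=
    measurable_pi_lambda _ fun x => (mulv_continuous N).measurable.comp
      ((measurable_pi_lambda _ fun i => measurable_pi_lambda _ fun j =>
        hDm x i j).prodMk measurable_const)
  have hgs := gauss_step (P := P) (fun (x : boxS d L) i j ω =>
      B x i j ((n + 1) * h) ω - B x i j (n * h) ω) h hDm (fun x i j => by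
        rw [inc_law hH _ _ hle x i j]
        congr 1
        rw [add_mul, one_mul, add_tsub_cancel_left])
      (inc_indep hH (n * h) ((n + 1) * h) (κ := boxS d L) Subtype.val Subtype.val_injective) G
  have e2 : ∫ ω', Ψ (fun x => J β h (G x + mulv (fun i j => B x i j ((n + 1) * h) ω'
      - B x i j (n * h) ω') (G x)) + (k * h) • coup (boxNet d L) G x) ∂P =
      ∫ w, Ψ (fun x => J β h (G x + w x) + (k * h) • coup (boxNet d L) G x)
        ∂(P.map (fun ω' (x : boxS d L) => mulv (fun i j => B x i j ((n + 1) * h) ω'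
      - B x i j (n * h) ω') (G x))) := by
    rw [integral_map hG.aemeasurable hA.aestronglyMeasurable]
  have h5 : Measurable (fun (ξ : boxS d L → E N) (x : boxS d L) =>
      (Real.sqrt h * ‖G x‖) • ξ x) :=
    measurable_pi_lambda _ fun x => (measurable_pi_apply x).const_smul (Real.sqrt h * ‖G x‖)
  rw [e2, hgs, integral_map h5.aemeasurable hA.aestronglyMeasurable]
  rfl

theorem step_law (hβ : 0 < β) (hH : IsDynamo P k ε β ℱ B H) (h : ℝ≥0) (L n : ℕ)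
    (Ψ : (boxS d L → E N) → ℂ) (hΨ : Measurable Ψ) (hb : ∀ G, ‖Ψ G‖ ≤ 1) (Z : Ω → ℂ)
    (hZ : Measurable[ℱ (n * h)] Z) (hZ1 : ∀ ω, ‖Z ω‖ ≤ 1) :
    ∫ ω, Z ω * Ψ (rc β k h L B (H 0) (n + 1) ω) ∂P =
      ∫ ω, Z ω * (∫ ξ, Ψ (stp (boxNet d L) β h k (rc β k h L B (H 0) n ω) ξ)
        ∂(pim (boxS d L) (stdGaussian (E N)))) ∂P := by
  have hP := hH.prob
  have hle := SdeStep_le h n
  have hV' : Measurable[ℱ (n * h)] (fun ω => (Z ω, rc β k h L B (H 0) n ω)) :=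
    Measurable.prodMk hZ (rc_adapted hβ hH h L n)
  have hV : Measurable (fun ω => (Z ω, rc β k h L B (H 0) n ω)) := hV'.mono (ℱ.le _) le_rfl
  have hD : Measurable (fun ω (q : boxS d L × Fin N × Fin N) =>
      B q.1 q.2.1 q.2.2 ((n + 1) * h) ω - B q.1 q.2.1 q.2.2 (n * h) ω) :=
    measurable_pi_lambda _ fun q => (inc_meas hH _ _ hle q.1 q.2.1 q.2.2).2
  have hI := inc_past hH (n * h) ((n + 1) * h) hle (κ := boxS d L) Subtype.val _ hV'
  have hstep : Measurable (fun q : (ℂ × (boxS d L → E N)) × (boxS d L × Fin N × Fin N → ℝ) =>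
      fun x => J β h (q.1.2 x + mulv (fun i j => q.2 (x, i, j)) (q.1.2 x))
        + (k * h) • coup (boxNet d L) q.1.2 x) :=
    SdeStep_meas (k := k) hβ h (boxNet d L)
      (fun q : (ℂ × (boxS d L → E N)) × (boxS d L × Fin N × Fin N → ℝ) => q.1.2)
      (measurable_snd.comp measurable_fst) (fun x i j q => q.2 (x, i, j))
      (fun x i j => (measurable_pi_apply _).comp measurable_snd)
  have hF : Measurable (fun q : (ℂ × (boxS d L → E N)) × (boxS d L × Fin N × Fin N → ℝ) =>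
      q.1.1 * Ψ (fun x => J β h (q.1.2 x + mulv (fun i j => q.2 (x, i, j)) (q.1.2 x))
        + (k * h) • coup (boxNet d L) q.1.2 x)) :=
    (measurable_fst.comp measurable_fst).mul (hΨ.comp hstep)
  have key := SdeStep_indep (P := P) _ _ hV hD hI _ hF (fun ω ω' => by
    rw [norm_mul]
    exact mul_le_one₀ (hZ1 ω) (norm_nonneg _) (hb _))
  rw [SdeStep_rc]
  refine Eq.trans key (integral_congr_ae (Filter.Eventually.of_forall fun ω => ?_))
  show ∫ ω', Z ω * Ψ (fun x => J β h (rc β k h L B (H 0) n ω x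
      + mulv (fun i j => B x i j ((n + 1) * h) ω' - B x i j (n * h) ω')
        (rc β k h L B (H 0) n ω x))
        + (k * h) • coup (boxNet d L) (rc β k h L B (H 0) n ω) x) ∂P = Z ω * _
  rw [integral_const_mul, SdeStep_inner hβ hH h L n Ψ hΨ]

end

end Dyn

end

/-! ### from `Lib_MP_36b788.SdeLaw` -/

section

/-!
# SDELAW: the Euler chain driven by Brownian increments is the Gaussian chain

PROOF. `law_path`: induction on `M`, for all `n1, Z, F`. `List.range (M+1) = 0 :: (range M).map succ`, so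
`pathE ((range (M+1)).map F) G = F 0 G * ∫ pathE ((range M).map (F ∘ succ)) (stp G ξ)`. Left side for `M+1`:
`∫ (Z F_0(rc n1)) Π_{i<M} F_{i+1}(rc (n1+1+i))`; induction hypothesis with `n1+1`, `Z' = Z·F_0(rc n1)` (`ℱ(n1 h)`-measurable,
hence `ℱ((n1+1)h)`-measurable), `F' = F ∘ succ`; then step_law with `Z'` and `Ψ = pathE … F'` (pathE_facts).
`law_chain`: both are probability measures on `boxS d L → E N`; induction on `n`: for `n = 0`: `IsInit` (`iid` restricted to the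
box, `iIndepFun_iff_map_fun_eq_pi_map`, `ident`). Step: for every measurable set `S` take `Ψ = 1_S`, `Z = 1` in step_law; the
right side is `∫∫1_S(stp G ξ)dξ dLaw(rc n)(G)` = `chainLaw (n+1) S` by the induction hypothesis.
-/

open MeasureTheory ProbabilityTheory
open scoped NNReal ENNReal Topology

namespace Dyn

private theorem SdeLaw_rcmeas {Ω : Type} [mΩ : MeasurableSpace Ω] {P : Measure Ω} {N d : ℕ}
    {k ε β : ℝ} {ℱ : Filtration ℝ≥0 mΩ} {B : Site d → Fin N → Fin N → ℝ≥0 → Ω → ℝ}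
    {H : ℝ≥0 → Site d → Ω → E N} (hβ : 0 < β) (hH : IsDynamo P k ε β ℱ B H)
    (h : ℝ≥0) (L n : ℕ) : Measurable (rc β k h L B (H 0) n) :=
  (rc_adapted hβ hH h L n).mono (ℱ.le _) le_rfl

theorem law_path {Ω : Type} [mΩ : MeasurableSpace Ω] {P : Measure Ω} {N d : ℕ} {k ε β : ℝ}
    {ℱ : Filtration ℝ≥0 mΩ} {B : Site d → Fin N → Fin N → ℝ≥0 → Ω → ℝ}
    {H : ℝ≥0 → Site d → Ω → E N} (hβ : 0 < β) (hH : IsDynamo P k ε β ℱ B H)
    (h : ℝ≥0) (L n1 M : ℕ) (F : ℕ → (boxS d L → E N) → ℂ) (hm : ∀ i, Measurable (F i))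
    (hb : ∀ i G, ‖F i G‖ ≤ 1) (Z : Ω → ℂ) (hZ : Measurable[ℱ (n1 * h)] Z)
    (hZ1 : ∀ ω, ‖Z ω‖ ≤ 1) :
    ∫ ω, Z ω * ∏ i ∈ Finset.range M, F i (rc β k h L B (H 0) (n1 + i) ω) ∂P =
      ∫ ω, Z ω * pathE (boxNet d L) β h k (stdGaussian (E N)) ((List.range M).map F)
        (rc β k h L B (H 0) n1 ω) ∂P := by
  induction M generalizing n1 F Z with
  | zero =>
    refine integral_congr_ae (Filter.Eventually.of_forall fun ω => ?_)
    show Z ω * ∏ i ∈ Finset.range 0, F i (rc β k h L B (H 0) (n1 + i) ω) = Z ω * 1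
    simp
  | succ M ih =>
    have hmono : ℱ ((n1 : ℝ≥0) * h) ≤ ℱ (((n1 + 1 : ℕ) : ℝ≥0) * h) := by
      refine ℱ.mono ?_
      refine mul_le_mul_left ?_ h
      exact_mod_cast Nat.le_succ n1
    have hrc := rc_adapted hβ hH h L n1
    have hZ' : Measurable[ℱ ((n1 : ℝ≥0) * h)]
        (fun ω => Z ω * F 0 (rc β k h L B (H 0) n1 ω)) :=
      hZ.mul ((hm 0).comp hrc)
    have hZ'' : Measurable[ℱ (((n1 + 1 : ℕ) : ℝ≥0) * h)]
        (fun ω => Z ω * F 0 (rc β k h L B (H 0) n1 ω)) := hZ'.mono hmono le_rfl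
    have hZ1' : ∀ ω, ‖Z ω * F 0 (rc β k h L B (H 0) n1 ω)‖ ≤ 1 := fun ω => by
      rw [norm_mul]
      exact mul_le_one₀ (hZ1 ω) (norm_nonneg _) (hb 0 _)
    have h1 := ih (n1 + 1) (fun i => F (i + 1)) (fun i => hm (i + 1)) (fun i G => hb (i + 1) G)
      (fun ω => Z ω * F 0 (rc β k h L B (H 0) n1 ω)) hZ'' hZ1'
    obtain ⟨hp1, hp2⟩ := pathE_facts (net := boxNet d L) (k := k) (ν := stdGaussian (E N)) hβ
      (NNReal.coe_nonneg h) ((List.range M).map (fun i => F (i + 1)))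
      (by
        intro f hf
        obtain ⟨i, _, rfl⟩ := List.mem_map.mp hf
        exact hm (i + 1))
      (by
        intro f hf
        obtain ⟨i, _, rfl⟩ := List.mem_map.mp hf
        exact hb (i + 1))
    have h2 := step_law hβ hH h L n1 _ hp1 hp2
      (fun ω => Z ω * F 0 (rc β k h L B (H 0) n1 ω)) hZ' hZ1'
    have h3 : ∫ ω, Z ω * ∏ i ∈ Finset.range (M + 1), F i (rc β k h L B (H 0) (n1 + i) ω) ∂P =
        ∫ ω, (Z ω * F 0 (rc β k h L B (H 0) n1 ω)) *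
          ∏ i ∈ Finset.range M, F (i + 1) (rc β k h L B (H 0) (n1 + 1 + i) ω) ∂P := by
      refine integral_congr_ae (Filter.Eventually.of_forall fun ω => ?_)
      show Z ω * ∏ i ∈ Finset.range (M + 1), F i (rc β k h L B (H 0) (n1 + i) ω) =
        (Z ω * F 0 (rc β k h L B (H 0) n1 ω)) *
          ∏ i ∈ Finset.range M, F (i + 1) (rc β k h L B (H 0) (n1 + 1 + i) ω)
      rw [Finset.prod_range_succ']
      have h4 : ∀ i, n1 + (i + 1) = n1 + 1 + i := fun i => by ring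
      have h6 : ∏ i ∈ Finset.range M, F (i + 1) (rc β k h L B (H 0) (n1 + (i + 1)) ω) =
          ∏ i ∈ Finset.range M, F (i + 1) (rc β k h L B (H 0) (n1 + 1 + i) ω) :=
        Finset.prod_congr rfl fun i _ => by rw [h4 i]
      rw [h6, Nat.add_zero]
      generalize ∏ i ∈ Finset.range M, F (i + 1) (rc β k h L B (H 0) (n1 + 1 + i) ω) = Q
      generalize F 0 (rc β k h L B (H 0) n1 ω) = R
      ring
    rw [h3, h1, h2]
    refine integral_congr_ae (Filter.Eventually.of_forall fun ω => ?_)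
    have h5 : (List.range (M + 1)).map F = F 0 :: (List.range M).map (fun i => F (i + 1)) := by
      rw [List.range_succ_eq_map, List.map_cons, List.map_map]
      rfl
    show (Z ω * F 0 (rc β k h L B (H 0) n1 ω)) * _ =
      Z ω * pathE (boxNet d L) β h k (stdGaussian (E N)) ((List.range (M + 1)).map F)
        (rc β k h L B (H 0) n1 ω)
    rw [h5]
    show (Z ω * F 0 (rc β k h L B (H 0) n1 ω)) * _ =
      Z ω * (F 0 (rc β k h L B (H 0) n1 ω) * _)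
    rw [mul_assoc]

theorem law_chain {Ω : Type} [mΩ : MeasurableSpace Ω] {P : Measure Ω} {N d : ℕ} {k ε β : ℝ}
    {ℱ : Filtration ℝ≥0 mΩ} {B : Site d → Fin N → Fin N → ℝ≥0 → Ω → ℝ}
    {H : ℝ≥0 → Site d → Ω → E N} (hβ : 0 < β) (hH : IsDynamo P k ε β ℱ B H)
    (hI : IsInit P (H 0)) (h : ℝ≥0) (L n : ℕ) :
    P.map (rc β k h L B (H 0) n) =
      chainLaw (boxNet d L) β h k (stdGaussian (E N)) (Measure.pi (fun _ => P.map (H 0 0))) n := by
  have hP := hH.prob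
  have hHm : ∀ x, Measurable (H 0 x) := fun x => (hH.adapted 0 x).mono (ℱ.le _) le_rfl
  induction n with
  | zero =>
    show P.map (fun ω => fun x : boxS d L => H 0 (x : Site d) ω) =
      Measure.pi (fun _ => P.map (H 0 0))
    have h1 : iIndepFun (fun x : boxS d L => H 0 (x : Site d)) P :=
      hI.iid.precomp Subtype.val_injective
    have h2 := (iIndepFun_iff_map_fun_eq_pi_map
      (fun x : boxS d L => (hHm (x : Site d)).aemeasurable)).mp h1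
    rw [h2]
    congr 1
    funext x
    exact (hI.ident x).map_eq
  | succ n ih =>
    have hrc := SdeLaw_rcmeas hβ hH h L n
    have hrc1 := SdeLaw_rcmeas hβ hH h L (n + 1)
    have hpim : IsProbabilityMeasure (pim (boxS d L) (stdGaussian (E N))) := by
      unfold pim
      infer_instance
    have hst := (stp_continuous (N := N) hβ (NNReal.coe_nonneg h) k (boxNet d L)).measurable
    have hPn : IsProbabilityMeasure (P.map (rc β k h L B (H 0) n)) :=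
      Measure.isProbabilityMeasure_map hrc.aemeasurable
    have hPn1 : IsProbabilityMeasure (P.map (rc β k h L B (H 0) (n + 1))) :=
      Measure.isProbabilityMeasure_map hrc1.aemeasurable
    have hch : chainLaw (boxNet d L) β h k (stdGaussian (E N))
        (Measure.pi (fun _ => P.map (H 0 0))) (n + 1) =
        ((P.map (rc β k h L B (H 0) n)).prod (pim (boxS d L) (stdGaussian (E N)))).map
          (fun q => stp (boxNet d L) β h k q.1 q.2) := by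
      rw [ih]
      rfl
    rw [hch]
    have hPr : IsProbabilityMeasure (((P.map (rc β k h L B (H 0) n)).prod
        (pim (boxS d L) (stdGaussian (E N)))).map (fun q => stp (boxNet d L) β h k q.1 q.2)) :=
      Measure.isProbabilityMeasure_map hst.aemeasurable
    refine Measure.ext fun S hS => ?_
    rw [← measureReal_eq_measureReal_iff]
    let Ψ : (boxS d L → E N) → ℂ := S.indicator (fun _ => (1 : ℂ))
    have hΨ : Measurable Ψ := measurable_const.indicator hS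
    have hΨ1 : ∀ G, ‖Ψ G‖ ≤ 1 := fun G => by
      show ‖S.indicator (fun _ => (1 : ℂ)) G‖ ≤ 1
      by_cases hG : G ∈ S
      · rw [Set.indicator_of_mem hG]; simp
      · rw [Set.indicator_of_notMem hG]; simp
    have e1 := step_law hβ hH h L n Ψ hΨ hΨ1 (fun _ => 1) measurable_const (fun _ => by simp)
    simp only [one_mul] at e1
    have e2 : ∫ G, Ψ G ∂(P.map (rc β k h L B (H 0) (n + 1))) =
        ∫ G, Ψ G ∂(((P.map (rc β k h L B (H 0) n)).prod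
        (pim (boxS d L) (stdGaussian (E N)))).map (fun q => stp (boxNet d L) β h k q.1 q.2)) := by
      rw [integral_map hrc1.aemeasurable hΨ.aestronglyMeasurable, e1,
        integral_map hst.aemeasurable hΨ.aestronglyMeasurable]
      have hi : Integrable (fun q : (boxS d L → E N) × (boxS d L → E N) =>
          Ψ (stp (boxNet d L) β h k q.1 q.2))
          ((P.map (rc β k h L B (H 0) n)).prod (pim (boxS d L) (stdGaussian (E N)))) :=
        Integrable.of_bound (C := 1) (hΨ.comp hst).aestronglyMeasurable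
          (Filter.Eventually.of_forall fun q => hΨ1 _)
      rw [integral_prod _ hi]
      have hmeas : Measurable (fun G : boxS d L → E N =>
          ∫ ξ, Ψ (stp (boxNet d L) β h k G ξ) ∂(pim (boxS d L) (stdGaussian (E N)))) :=
        (StronglyMeasurable.integral_prod_right' (ν := pim (boxS d L) (stdGaussian (E N)))
          (hΨ.comp hst).stronglyMeasurable).measurable
      rw [integral_map hrc.aemeasurable hmeas.aestronglyMeasurable]
    have e3 : ∀ μ : Measure (boxS d L → E N), ∫ G, Ψ G ∂μ = (μ.real S : ℂ) := by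
      intro μ
      show ∫ G, S.indicator (fun _ => (1 : ℂ)) G ∂μ = _
      rw [integral_indicator_const _ hS]
      simp
    rw [e3, e3] at e2
    exact_mod_cast e2

end Dyn

end

/-! ### from `Lib_MP_36b788b.SdeSt` -/

section

/-!
# SDEST: strong convergence of the Euler chain on boxes

PROOF. `e_n(x) = H_{nh}(x) - rc_n(x)`, `x ∈` box, `q_n(x) = ∫‖e_n(x)‖²` (`rc_n` is `ℱ_{nh}`-measurable and in L²: induction, `‖J v‖ ≤ ‖v‖`,
mulv_sq). local_error at `s = nh`: `H_{(n+1)h} = J(a + ρM + ρD) + kh lap H`, `a = H + mulv(ΔB)H`, and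
`rc_{n+1} = J(rc + mulv(ΔB)rc) + kh coup(rc)`. `J` is nonexpansive, so
`‖e_{n+1}‖ ≤ ‖e + mulv(ΔB)e + ρM + ρD‖ + kh‖lap H - coup rc‖`, `lap H(x) - coup rc(x) = Σ_{w~x, w∈box} e(w) - 2d e(x) + Σ_{w~x, w∉box} H(w)`.
`∫‖e+mulv(ΔB)e+ρM+ρD‖² ≤ (1+h)∫‖e+mulv(ΔB)e+ρM‖² + (1+1/h)∫‖ρD‖²` and
`∫‖e+mulv(ΔB)e+ρM‖² = q + N h q + ∫‖ρM‖² + 2∫⟪mulv(ΔB)e,ρM⟫ ≤ q + Nhq + Ch² + 2√(Nhq)√C h ≤ (1+(N+1)h)q + C'h²`
(`∫⟪e,ρM⟫ = 0`, `∫⟪e,mulv(ΔB)e⟫ = 0`). Then `(a+b)² ≤ (1+h)a²+(1+1/h)b²`: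
`q_{n+1}(x) ≤ (1+C h)q_n(x) + C h Σ_{w~x}q_n(w) + C h(h+δ) + C k² h 1_{x at the boundary}`. Weighted sum `Q_n = Σ2^{-|x|}q_n(x)`:
`Q_{n+1} ≤ (1+C''h)Q_n + C''h(δ+h+k²2^{-L})` (box_boundary, `2^{-|x|} ≤ 2·2^{-|w|}`). `Q_0 = 0`. Gronwall, `nh ≤ T`.
-/

open MeasureTheory ProbabilityTheory
open scoped NNReal ENNReal Topology

namespace DynB

open Dyn

/-! ### the lattice -/

/-- extension by zero -/
noncomputable def SdeSt_ext {N d L : ℕ} (G : boxS d L → E N) (y : Site d) : E N :=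
  if hy : y ∈ boxS d L then G ⟨y, hy⟩ else 0

theorem SdeSt_l1 {d : ℕ} (x y : Site d) (h : l1 x y = 1) :
    ∃ i : Fin d, y = x + Pi.single i 1 ∨ y = x - Pi.single i 1 := by
  unfold l1 at h
  have hne : ∃ i, (x i - y i).natAbs ≠ 0 := by
    by_contra hc
    push Not at hc
    rw [Finset.sum_eq_zero (fun i _ => hc i)] at h
    exact absurd h (by norm_num)
  obtain ⟨i, hi⟩ := hne
  rw [← Finset.add_sum_erase _ _ (Finset.mem_univ i)] at h
  have h1 : (x i - y i).natAbs = 1 := by omega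
  have h2 : ∑ j ∈ Finset.univ.erase i, (x j - y j).natAbs = 0 := by omega
  have h3 : ∀ j, j ≠ i → y j = x j := by
    intro j hj
    have := (Finset.sum_eq_zero_iff.1 h2) j (Finset.mem_erase.2 ⟨hj, Finset.mem_univ j⟩)
    omega
  refine ⟨i, ?_⟩
  have h4 : x i - y i = 1 ∨ x i - y i = -1 := by omega
  rcases h4 with h4 | h4
  · right
    funext j
    by_cases hj : j = i
    · subst hj
      simp
      omega
    · simp [hj, h3 j hj]
  · left
    funext j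
    by_cases hj : j = i
    · subst hj
      simp
      omega
    · simp [hj, h3 j hj]

theorem SdeSt_l1_add {d : ℕ} (x : Site d) (i : Fin d) : l1 x (x + Pi.single i 1) = 1 := by
  unfold l1
  rw [Finset.sum_eq_single i]
  · simp
  · intro j _ hj
    simp [hj]
  · intro h
    exact absurd (Finset.mem_univ i) h

theorem SdeSt_l1_sub {d : ℕ} (x : Site d) (i : Fin d) : l1 x (x - Pi.single i 1) = 1 := by
  unfold l1
  rw [Finset.sum_eq_single i]
  · simp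
  · intro j _ hj
    simp [hj]
  · intro h
    exact absurd (Finset.mem_univ i) h

theorem SdeSt_coup {N d L : ℕ} (G : boxS d L → E N) (x : boxS d L) :
    coup (boxNet d L) G x = lap (SdeSt_ext G) (x : Site d) := by
  classical
  let φ : Fin d × Bool → Site d := fun p =>
    if p.2 then (x : Site d) + Pi.single p.1 1 else (x : Site d) - Pi.single p.1 1
  have hφi : Function.Injective φ := by
    rintro ⟨i, a⟩ ⟨j, b⟩ hij
    have hi := congrFun hij i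
    have hj := congrFun hij j
    by_cases he : i = j
    · subst he
      cases a <;> cases b <;> simp [φ] at hi ⊢
      · omega
      · omega
    · exfalso
      cases a <;> cases b <;> simp [φ, Pi.single_apply, he, Ne.symm he] at hi
  have hx : SdeSt_ext G (x : Site d) = G x := by
    unfold SdeSt_ext
    rw [dif_pos x.2]
  have h1 : ∑ y ∈ (boxNet d L).nb x, G y = ∑ i : Fin d, (SdeSt_ext G ((x : Site d) + Pi.single i 1)
      + SdeSt_ext G ((x : Site d) - Pi.single i 1)) := by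
    have e1 : ∑ i : Fin d, (SdeSt_ext G ((x : Site d) + Pi.single i 1)
      + SdeSt_ext G ((x : Site d) - Pi.single i 1)) = ∑ p : Fin d × Bool, SdeSt_ext G (φ p) := by
      rw [Fintype.sum_prod_type]
      refine Finset.sum_congr rfl fun i _ => ?_
      rw [Fintype.sum_bool]
      rfl
    rw [e1, ← Finset.sum_image (f := SdeSt_ext G) (g := φ) (fun a _ b _ h => hφi h)]
    have e2 : ∑ y ∈ (boxNet d L).nb x, G y =
        ∑ z ∈ ((boxNet d L).nb x).image (Subtype.val : ↥(boxS d L) → Site d), SdeSt_ext G z := by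
      rw [Finset.sum_image (fun a _ b _ h => Subtype.ext h)]
      refine Finset.sum_congr rfl fun y _ => ?_
      unfold SdeSt_ext
      rw [dif_pos y.2]
    rw [e2]
    refine Finset.sum_subset ?_ ?_
    · intro z hz
      rw [Finset.mem_image] at hz
      obtain ⟨y, hy, rfl⟩ := hz
      rw [boxNet_nb] at hy
      obtain ⟨i, h | h⟩ := SdeSt_l1 _ _ hy
      · exact Finset.mem_image.2 ⟨(i, true), Finset.mem_univ _, by simp [φ, h]⟩
      · exact Finset.mem_image.2 ⟨(i, false), Finset.mem_univ _, by simp [φ, h]⟩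
    · intro z hz hz'
      rw [Finset.mem_image] at hz
      obtain ⟨⟨i, b⟩, _, rfl⟩ := hz
      unfold SdeSt_ext
      by_cases hb : φ (i, b) ∈ boxS d L
      · exfalso
        apply hz'
        rw [Finset.mem_image]
        refine ⟨⟨φ (i, b), hb⟩, ?_, rfl⟩
        rw [boxNet_nb]
        cases b
        · exact SdeSt_l1_sub _ _
        · exact SdeSt_l1_add _ _
      · rw [dif_neg hb]
  unfold coup lap
  rw [h1, hx]
  rw [show ∑ i : Fin d, ((SdeSt_ext G ((x : Site d) + Pi.single i 1) - G x)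
      + (SdeSt_ext G ((x : Site d) - Pi.single i 1) - G x)) =
      ∑ i : Fin d, ((SdeSt_ext G ((x : Site d) + Pi.single i 1)
      + SdeSt_ext G ((x : Site d) - Pi.single i 1)) - (2 : ℝ) • G x) from
    Finset.sum_congr rfl fun i _ => by rw [two_smul]; abel]
  rw [Finset.sum_sub_distrib, Finset.sum_const, Finset.card_univ, Fintype.card_fin]
  congr 1
  rw [← Nat.cast_smul_eq_nsmul ℝ d, smul_smul]
  congr 1
  push_cast
  ring

theorem SdeSt_w {d : ℕ} (x y : Site d) (h : l1 x y = 1) :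
    (1 / 2 : ℝ) ^ l1 x 0 ≤ 2 * (1 / 2) ^ l1 y 0 := by
  have h1 : l1 y 0 ≤ l1 x 0 + 1 := by
    rw [← h]
    unfold l1
    rw [← Finset.sum_add_distrib]
    refine Finset.sum_le_sum fun i _ => ?_
    simp only [Pi.zero_apply]
    omega
  have h2 : (1 / 2 : ℝ) ^ (l1 x 0 + 1) ≤ (1 / 2) ^ l1 y 0 :=
    pow_le_pow_of_le_one (by norm_num) (by norm_num) h1
  rw [pow_succ] at h2
  linarith

theorem SdeSt_shift {d L : ℕ} (σ : Site d) (hσ : ∀ x : Site d, l1 x (x + σ) = 1)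
    (hb : ∀ x ∈ boxS d L, x + σ ∉ boxS d L → ∃ i, |x i| = (L : ℤ))
    (q : Site d → ℝ) (hq : ∀ y, 0 ≤ q y) (c : ℝ) (hc : 0 ≤ c) (hqc : ∀ y ∉ boxS d L, q y ≤ c) :
    ∑ x ∈ boxS d L, (1 / 2 : ℝ) ^ l1 x 0 * q (x + σ) ≤
      2 * ∑ x ∈ boxS d L, (1 / 2 : ℝ) ^ l1 x 0 * q x +
        c * ∑ x ∈ (boxS d L).filter (fun x => ∃ i, |x i| = (L : ℤ)), (1 / 2 : ℝ) ^ l1 x 0 := by
  classical
  rw [← Finset.sum_filter_add_sum_filter_not (boxS d L) (fun x => x + σ ∈ boxS d L)]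
  refine add_le_add ?_ ?_
  · have h1 : ∑ x ∈ (boxS d L).filter (fun x => x + σ ∈ boxS d L), (1 / 2 : ℝ) ^ l1 x 0 * q (x + σ)
        ≤ ∑ x ∈ (boxS d L).filter (fun x => x + σ ∈ boxS d L),
          2 * ((1 / 2 : ℝ) ^ l1 (x + σ) 0 * q (x + σ)) := by
      refine Finset.sum_le_sum fun x _ => ?_
      rw [← mul_assoc]
      exact mul_le_mul_of_nonneg_right (SdeSt_w x _ (hσ x)) (hq _)
    refine h1.trans ?_
    rw [← Finset.mul_sum]
    refine mul_le_mul_of_nonneg_left ?_ (by norm_num)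
    rw [← Finset.sum_image (f := fun y => (1 / 2 : ℝ) ^ l1 y 0 * q y) (g := fun x => x + σ)
      (fun a _ b _ h => add_right_cancel h)]
    refine Finset.sum_le_sum_of_subset_of_nonneg ?_ fun y _ _ => mul_nonneg (by positivity) (hq y)
    intro y hy
    rw [Finset.mem_image] at hy
    obtain ⟨x, hx, rfl⟩ := hy
    exact (Finset.mem_filter.1 hx).2
  · rw [Finset.mul_sum]
    have h1 : ∑ x ∈ (boxS d L).filter (fun x => ¬ x + σ ∈ boxS d L),
        (1 / 2 : ℝ) ^ l1 x 0 * q (x + σ) ≤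
        ∑ x ∈ (boxS d L).filter (fun x => ¬ x + σ ∈ boxS d L), c * (1 / 2 : ℝ) ^ l1 x 0 := by
      refine Finset.sum_le_sum fun x hx => ?_
      rw [mul_comm c]
      exact mul_le_mul_of_nonneg_left (hqc _ (Finset.mem_filter.1 hx).2) (by positivity)
    refine h1.trans (Finset.sum_le_sum_of_subset_of_nonneg ?_ fun y _ _ => by positivity)
    intro y hy
    rw [Finset.mem_filter] at hy ⊢
    exact ⟨hy.1, hb y hy.1 hy.2⟩

theorem SdeSt_bd_add {d L : ℕ} (i : Fin d) (x : Site d) (hx : x ∈ boxS d L)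
    (h : x + Pi.single i 1 ∉ boxS d L) : ∃ i, |x i| = (L : ℤ) := by
  refine ⟨i, ?_⟩
  unfold boxS at hx h
  rw [Finset.mem_Icc] at hx h
  by_contra hne
  apply h
  have h1 : ∀ j, -(L : ℤ) ≤ x j := hx.1
  have h2 : ∀ j, x j ≤ (L : ℤ) := hx.2
  constructor
  · intro j
    show -(L : ℤ) ≤ x j + (Pi.single i 1 : Site d) j
    by_cases hj : j = i
    · subst hj
      simp only [Pi.single_eq_same]
      linarith [h1 j]
    · simp only [Pi.single_apply, if_neg hj]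
      linarith [h1 j]
  · intro j
    show x j + (Pi.single i 1 : Site d) j ≤ (L : ℤ)
    by_cases hj : j = i
    · subst hj
      simp only [Pi.single_eq_same]
      have h3 := h2 j
      have h4 := h1 j
      have h5 : x j ≠ (L : ℤ) := by
        intro he
        apply hne
        rw [he]
        simp
      omega
    · simp only [Pi.single_apply, if_neg hj]
      linarith [h2 j]

theorem SdeSt_bd_sub {d L : ℕ} (i : Fin d) (x : Site d) (hx : x ∈ boxS d L)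
    (h : x - Pi.single i 1 ∉ boxS d L) : ∃ i, |x i| = (L : ℤ) := by
  refine ⟨i, ?_⟩
  unfold boxS at hx h
  rw [Finset.mem_Icc] at hx h
  by_contra hne
  apply h
  have h1 : ∀ j, -(L : ℤ) ≤ x j := hx.1
  have h2 : ∀ j, x j ≤ (L : ℤ) := hx.2
  constructor
  · intro j
    show -(L : ℤ) ≤ x j - (Pi.single i 1 : Site d) j
    by_cases hj : j = i
    · subst hj
      simp only [Pi.single_eq_same]
      have h3 := h2 j
      have h4 := h1 j
      have h5 : x j ≠ -(L : ℤ) := by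
        intro he
        apply hne
        rw [he]
        simp
      omega
    · simp only [Pi.single_apply, if_neg hj]
      linarith [h1 j]
  · intro j
    show x j - (Pi.single i 1 : Site d) j ≤ (L : ℤ)
    by_cases hj : j = i
    · subst hj
      simp only [Pi.single_eq_same]
      linarith [h2 j]
    · simp only [Pi.single_apply, if_neg hj]
      linarith [h2 j]


theorem SdeSt_W {d L : ℕ} : ∑ y ∈ boxS d L, (1 / 2 : ℝ) ^ l1 y 0 ≤ 3 ^ d := by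
  have h0 : (0 : Site d) ∈ boxS d L := by
    unfold boxS
    rw [Finset.mem_Icc]
    constructor
    · intro i
      show -(L : ℤ) ≤ 0
      omega
    · intro i
      show (0 : ℤ) ≤ L
      omega
  have h1 := (boxNet d L).sum_half ⟨0, h0⟩
  refine le_trans (le_of_eq ?_) h1
  rw [← Finset.sum_coe_sort]
  refine Finset.sum_congr rfl fun y _ => ?_
  rw [boxNet_dist]
  congr 1
  unfold l1
  refine Finset.sum_congr rfl fun i _ => ?_
  simp only [Pi.zero_apply]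
  omega

/-- discrete Gronwall inequality for the weighted sums -/
theorem SdeSt_gron {d L : ℕ} {a b c s h Z : ℝ} (ha : 0 ≤ a) (hb : 0 ≤ b) (hc : 0 ≤ c) (hs : 0 ≤ s)
    (hh : 0 ≤ h)
    (hZ : ∑ x ∈ (boxS d L).filter (fun x => ∃ i, |x i| = (L : ℤ)), (1 / 2 : ℝ) ^ l1 x 0 ≤ Z)
    (q : ℕ → Site d → ℝ) (hq : ∀ n y, 0 ≤ q n y) (q0 : ∀ y ∈ boxS d L, q 0 y = 0) (M : ℕ)
    (hout : ∀ n ≤ M, ∀ y ∉ boxS d L, q n y ≤ c)
    (hstep : ∀ n < M, ∀ y ∈ boxS d L, q (n + 1) y ≤ (1 + a * h) * q n y + h * s +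
      h * b * ∑ i : Fin d, (q n (y + Pi.single i 1) + q n (y - Pi.single i 1) + 2 * q n y)) :
    ∀ n ≤ M, ∑ y ∈ boxS d L, (1 / 2 : ℝ) ^ l1 y 0 * q n y ≤
      n * h * (s * 3 ^ d + 2 * d * b * c * Z) * (1 + (a + 6 * d * b) * h) ^ n := by
  have hZ0 : 0 ≤ Z := le_trans (Finset.sum_nonneg fun y _ => by positivity) hZ
  intro n
  induction n with
  | zero =>
    intro _
    rw [Finset.sum_eq_zero fun y hy => by rw [q0 y hy, mul_zero]]
    simp
  | succ n ih =>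
    intro hn
    have ih' := ih (by omega)
    set Q : ℝ := ∑ y ∈ boxS d L, (1 / 2 : ℝ) ^ l1 y 0 * q n y with hQ
    have hQ0 : 0 ≤ Q := Finset.sum_nonneg fun y _ => mul_nonneg (by positivity) (hq n y)
    have h1 : ∑ y ∈ boxS d L, (1 / 2 : ℝ) ^ l1 y 0 * q (n + 1) y ≤
        ∑ y ∈ boxS d L, ((1 + a * h) * ((1 / 2 : ℝ) ^ l1 y 0 * q n y) +
          h * s * (1 / 2 : ℝ) ^ l1 y 0 + h * b * ∑ i : Fin d,
            ((1 / 2 : ℝ) ^ l1 y 0 * q n (y + Pi.single i 1) +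
              (1 / 2 : ℝ) ^ l1 y 0 * q n (y - Pi.single i 1) +
              2 * ((1 / 2 : ℝ) ^ l1 y 0 * q n y))) := by
      refine Finset.sum_le_sum fun y hy => ?_
      have h2 := mul_le_mul_of_nonneg_left (hstep n (by omega) y hy)
        (show (0 : ℝ) ≤ (1 / 2 : ℝ) ^ l1 y 0 by positivity)
      refine h2.trans (le_of_eq ?_)
      have h3 : ∑ i : Fin d, ((1 / 2 : ℝ) ^ l1 y 0 * q n (y + Pi.single i 1) +
              (1 / 2 : ℝ) ^ l1 y 0 * q n (y - Pi.single i 1) +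
              2 * ((1 / 2 : ℝ) ^ l1 y 0 * q n y)) = (1 / 2 : ℝ) ^ l1 y 0 *
            ∑ i : Fin d, (q n (y + Pi.single i 1) + q n (y - Pi.single i 1) + 2 * q n y) := by
        rw [Finset.mul_sum]
        refine Finset.sum_congr rfl fun i _ => by ring
      rw [h3]
      ring
    rw [Finset.sum_add_distrib, Finset.sum_add_distrib, ← Finset.mul_sum, ← Finset.mul_sum,
      ← Finset.mul_sum, Finset.sum_comm] at h1
    have h4 : ∀ i : Fin d, ∑ y ∈ boxS d L, ((1 / 2 : ℝ) ^ l1 y 0 * q n (y + Pi.single i 1) +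
              (1 / 2 : ℝ) ^ l1 y 0 * q n (y - Pi.single i 1) +
              2 * ((1 / 2 : ℝ) ^ l1 y 0 * q n y)) ≤ 6 * Q + 2 * c * Z := by
      intro i
      rw [Finset.sum_add_distrib, Finset.sum_add_distrib, ← Finset.mul_sum]
      have e1 := SdeSt_shift (L := L) (Pi.single i 1 : Site d) (fun x => SdeSt_l1_add x i)
        (fun x hx h' => SdeSt_bd_add i x hx h') (q n) (hq n) c hc (hout n (by omega))
      have e2 := SdeSt_shift (L := L) (-(Pi.single i 1) : Site d)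
        (fun x => by rw [← sub_eq_add_neg]; exact SdeSt_l1_sub x i)
        (fun x hx h' => SdeSt_bd_sub i x hx (by rw [sub_eq_add_neg]; exact h'))
        (q n) (hq n) c hc (hout n (by omega))
      simp only [← sub_eq_add_neg] at e2
      have e3 := mul_le_mul_of_nonneg_left hZ hc
      rw [← hQ] at e1 e2 ⊢
      linarith
    have h5 := Finset.sum_le_sum fun i (_ : i ∈ (Finset.univ : Finset (Fin d))) => h4 i
    rw [Finset.sum_const, Finset.card_univ, Fintype.card_fin, nsmul_eq_mul] at h5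
    have h6 := mul_le_mul_of_nonneg_left h5 (mul_nonneg hh hb)
    have h7 := mul_le_mul_of_nonneg_left (SdeSt_W (d := d) (L := L)) (mul_nonneg hh hs)
    set S : ℝ := s * 3 ^ d + 2 * d * b * c * Z with hS
    have hS0 : 0 ≤ S := by positivity
    set A : ℝ := 1 + (a + 6 * d * b) * h with hA
    have hA1 : 1 ≤ A := by
      have : 0 ≤ (a + 6 * d * b) * h := by positivity
      linarith
    have h8 : ∑ y ∈ boxS d L, (1 / 2 : ℝ) ^ l1 y 0 * q (n + 1) y ≤ A * Q + h * S := by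
      refine h1.trans ?_
      rw [hA, hS]
      rw [← hQ]
      nlinarith [h6, h7]
    refine h8.trans ?_
    have h9 : A * Q ≤ A * (n * h * S * A ^ n) := mul_le_mul_of_nonneg_left ih' (by linarith)
    have h10 : (1 : ℝ) ≤ A ^ (n + 1) := one_le_pow₀ hA1
    have h11 : h * S ≤ h * S * A ^ (n + 1) := le_mul_of_one_le_right (by positivity) h10
    calc A * Q + h * S ≤ A * (n * h * S * A ^ n) + h * S * A ^ (n + 1) := add_le_add h9 h11
      _ = ((n + 1 : ℕ) : ℝ) * h * S * A ^ (n + 1) := by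
        push_cast
        rw [pow_succ]
        ring

/-! ### inequalities in `L²` -/

theorem SdeSt_young {h : ℝ} (hh : 0 < h) (a b : ℝ) :
    (a + b) ^ 2 ≤ (1 + h) * a ^ 2 + (1 + h⁻¹) * b ^ 2 := by
  have h1 : 0 ≤ h⁻¹ * (h * a - b) ^ 2 := by positivity
  have h2 : h⁻¹ * (h * a - b) ^ 2 = h * a ^ 2 - 2 * a * b + h⁻¹ * b ^ 2 := by
    field_simp
    ring
  nlinarith

theorem SdeSt_inner {Ω : Type} [MeasurableSpace Ω] {P : Measure Ω} {N : ℕ} {f g : Ω → E N}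
    (hf : MemLp f 2 P) (hg : MemLp g 2 P) : Integrable (fun ω => (inner ℝ (f ω) (g ω) : ℝ)) P := by
  have h1 := (hf.integrable_norm_pow (by norm_num)).add (hg.integrable_norm_pow (by norm_num))
  refine Integrable.mono' h1 (hf.1.inner hg.1) (Filter.Eventually.of_forall fun ω => ?_)
  have h2 := norm_inner_le_norm (𝕜 := ℝ) (f ω) (g ω)
  have h3 : ‖f ω‖ * ‖g ω‖ ≤ ‖f ω‖ ^ 2 + ‖g ω‖ ^ 2 := by
    nlinarith [sq_nonneg (‖f ω‖ - ‖g ω‖), sq_nonneg (‖f ω‖ + ‖g ω‖)]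
  exact h2.trans h3

theorem SdeSt_A {Ω : Type} [MeasurableSpace Ω] {P : Measure Ω} {N : ℕ} {e m ρ : Ω → E N} {c : ℝ}
    (he : MemLp e 2 P) (hm : MemLp m 2 P) (hρ : MemLp ρ 2 P)
    (h1 : ∫ ω, inner ℝ (e ω) (m ω) ∂P = 0) (h2 : ∫ ω, inner ℝ (e ω) (ρ ω) ∂P = 0)
    (h3 : ∫ ω, ‖m ω‖ ^ 2 ∂P = c * ∫ ω, ‖e ω‖ ^ 2 ∂P) :
    ∫ ω, ‖e ω + m ω + ρ ω‖ ^ 2 ∂P ≤ (1 + 2 * c) * ∫ ω, ‖e ω‖ ^ 2 ∂P + 2 * ∫ ω, ‖ρ ω‖ ^ 2 ∂P := by
  have ie := he.integrable_norm_pow (p := 2) (by norm_num)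
  have im := hm.integrable_norm_pow (p := 2) (by norm_num)
  have iρ := hρ.integrable_norm_pow (p := 2) (by norm_num)
  have i1 := SdeSt_inner he hm
  have i2 := SdeSt_inner he hρ
  have hp : ∀ ω, ‖e ω + m ω + ρ ω‖ ^ 2 ≤ (‖e ω‖ ^ 2 + (2 * ‖m ω‖ ^ 2 + 2 * ‖ρ ω‖ ^ 2)) +
      (2 * inner ℝ (e ω) (m ω) + 2 * inner ℝ (e ω) (ρ ω)) := by
    intro ω
    rw [add_assoc, norm_add_sq_real, inner_add_right]
    have h4 := norm_add_le (m ω) (ρ ω)
    have h5 : ‖m ω + ρ ω‖ ^ 2 ≤ 2 * ‖m ω‖ ^ 2 + 2 * ‖ρ ω‖ ^ 2 := by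
      nlinarith [sq_nonneg (‖m ω‖ - ‖ρ ω‖), norm_nonneg (m ω + ρ ω), norm_nonneg (m ω),
        norm_nonneg (ρ ω)]
    linarith
  have i3 : Integrable (fun ω => (‖e ω‖ ^ 2 + (2 * ‖m ω‖ ^ 2 + 2 * ‖ρ ω‖ ^ 2)) +
      (2 * inner ℝ (e ω) (m ω) + 2 * inner ℝ (e ω) (ρ ω))) P :=
    (ie.add ((im.const_mul 2).add (iρ.const_mul 2))).add ((i1.const_mul 2).add (i2.const_mul 2))
  have h6 := integral_mono_of_nonneg (Filter.Eventually.of_forall fun ω =>
    (by positivity : (0 : ℝ) ≤ ‖e ω + m ω + ρ ω‖ ^ 2)) i3 (Filter.Eventually.of_forall hp)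
  refine h6.trans (le_of_eq ?_)
  have j1 : Integrable (fun ω => 2 * ‖m ω‖ ^ 2 + 2 * ‖ρ ω‖ ^ 2) P :=
    (im.const_mul 2).add (iρ.const_mul 2)
  have j2 : Integrable (fun ω => ‖e ω‖ ^ 2 + (2 * ‖m ω‖ ^ 2 + 2 * ‖ρ ω‖ ^ 2)) P := ie.add j1
  have j3 : Integrable (fun ω => 2 * inner ℝ (e ω) (m ω) + 2 * inner ℝ (e ω) (ρ ω)) P :=
    (i1.const_mul 2).add (i2.const_mul 2)
  rw [integral_add j2 j3, integral_add ie j1, integral_add (im.const_mul 2) (iρ.const_mul 2),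
    integral_add (i1.const_mul 2) (i2.const_mul 2), integral_const_mul, integral_const_mul,
    integral_const_mul, integral_const_mul, h1, h2, h3]
  ring

theorem SdeSt_sum3 {Ω : Type} [MeasurableSpace Ω] {P : Measure Ω} {N : ℕ} {e' A D Λ : Ω → E N}
    {c h : ℝ} (hh : 0 < h) (hc : 0 ≤ c)
    (hA : MemLp A 2 P) (hD : MemLp D 2 P) (hΛ : MemLp Λ 2 P)
    (hle : ∀ᵐ ω ∂P, ‖e' ω‖ ≤ ‖A ω‖ + ‖D ω‖ + c * ‖Λ ω‖) :
    ∫ ω, ‖e' ω‖ ^ 2 ∂P ≤ (1 + h) ^ 2 * ∫ ω, ‖A ω‖ ^ 2 ∂P +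
      (1 + h) * (1 + h⁻¹) * ∫ ω, ‖D ω‖ ^ 2 ∂P + (1 + h⁻¹) * c ^ 2 * ∫ ω, ‖Λ ω‖ ^ 2 ∂P := by
  have iA := (hA.integrable_norm_pow (p := 2) (by norm_num)).const_mul ((1 + h) ^ 2)
  have iD := (hD.integrable_norm_pow (p := 2) (by norm_num)).const_mul ((1 + h) * (1 + h⁻¹))
  have iΛ := (hΛ.integrable_norm_pow (p := 2) (by norm_num)).const_mul ((1 + h⁻¹) * c ^ 2)
  have iAD : Integrable (fun ω => (1 + h) ^ 2 * ‖A ω‖ ^ 2 +
    (1 + h) * (1 + h⁻¹) * ‖D ω‖ ^ 2) P := iA.add iD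
  rw [← integral_const_mul, ← integral_const_mul, ← integral_const_mul, ← integral_add iA iD,
    ← integral_add iAD iΛ]
  refine integral_mono_of_nonneg (Filter.Eventually.of_forall fun ω => by positivity)
    (iAD.add iΛ) ?_
  filter_upwards [hle] with ω hω
  have h1 := SdeSt_young hh (‖A ω‖ + ‖D ω‖) (c * ‖Λ ω‖)
  have h2 := SdeSt_young hh ‖A ω‖ ‖D ω‖
  have h3 : ‖e' ω‖ ^ 2 ≤ (‖A ω‖ + ‖D ω‖ + c * ‖Λ ω‖) ^ 2 :=
    pow_le_pow_left₀ (norm_nonneg _) hω 2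
  have h4 := mul_le_mul_of_nonneg_left h2 (show (0 : ℝ) ≤ 1 + h by linarith)
  calc ‖e' ω‖ ^ 2 ≤ (1 + h) * (‖A ω‖ + ‖D ω‖) ^ 2 + (1 + h⁻¹) * (c * ‖Λ ω‖) ^ 2 := h3.trans h1
    _ ≤ (1 + h) * ((1 + h) * ‖A ω‖ ^ 2 + (1 + h⁻¹) * ‖D ω‖ ^ 2) +
        (1 + h⁻¹) * (c * ‖Λ ω‖) ^ 2 := by linarith
    _ = _ := by ring

theorem SdeSt_lap {Ω : Type} [MeasurableSpace Ω] {P : Measure Ω} {N d : ℕ}
    {f : Site d → Ω → E N} (hf : ∀ y, MemLp (f y) 2 P) (x : Site d) :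
    MemLp (fun ω => lap (fun y => f y ω) x) 2 P ∧
    ∫ ω, ‖lap (fun y => f y ω) x‖ ^ 2 ∂P ≤ 4 * d * ∑ i : Fin d,
      (∫ ω, ‖f (x + Pi.single i 1) ω‖ ^ 2 ∂P + ∫ ω, ‖f (x - Pi.single i 1) ω‖ ^ 2 ∂P
        + 2 * ∫ ω, ‖f x ω‖ ^ 2 ∂P) := by
  constructor
  · unfold lap
    refine memLp_finsetSum _ fun i _ => ?_
    exact ((hf _).sub (hf _)).add ((hf _).sub (hf _))
  · have i0 : ∀ y, Integrable (fun ω => ‖f y ω‖ ^ 2) P := fun y =>
      (hf y).integrable_norm_pow (by norm_num)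
    have i1 : ∀ i : Fin d, Integrable (fun ω => ‖f (x + Pi.single i 1) ω‖ ^ 2 +
        ‖f (x - Pi.single i 1) ω‖ ^ 2 + 2 * ‖f x ω‖ ^ 2) P := fun i =>
      ((i0 _).add (i0 _)).add ((i0 _).const_mul 2)
    have h1 : ∑ i : Fin d, (∫ ω, ‖f (x + Pi.single i 1) ω‖ ^ 2 ∂P +
        ∫ ω, ‖f (x - Pi.single i 1) ω‖ ^ 2 ∂P + 2 * ∫ ω, ‖f x ω‖ ^ 2 ∂P) =
        ∫ ω, ∑ i : Fin d, (‖f (x + Pi.single i 1) ω‖ ^ 2 +
        ‖f (x - Pi.single i 1) ω‖ ^ 2 + 2 * ‖f x ω‖ ^ 2) ∂P := by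
      rw [integral_finsetSum _ fun i _ => i1 i]
      refine Finset.sum_congr rfl fun i _ => ?_
      have i2 : Integrable (fun ω => ‖f (x + Pi.single i 1) ω‖ ^ 2 +
        ‖f (x - Pi.single i 1) ω‖ ^ 2) P := (i0 _).add (i0 _)
      rw [integral_add i2 ((i0 _).const_mul 2), integral_add (i0 _) (i0 _),
        integral_const_mul]
    rw [h1, ← integral_const_mul]
    refine integral_mono_of_nonneg (Filter.Eventually.of_forall fun ω => by positivity)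
      ((integrable_finsetSum _ fun i _ => i1 i).const_mul _)
      (Filter.Eventually.of_forall fun ω => ?_)
    show ‖lap (fun y => f y ω) x‖ ^ 2 ≤ _
    unfold lap
    set a : Fin d → ℝ := fun i => ‖f (x + Pi.single i 1) ω - f x ω +
      (f (x - Pi.single i 1) ω - f x ω)‖ with ha
    have h2 : ‖∑ i : Fin d, (f (x + Pi.single i 1) ω - f x ω +
      (f (x - Pi.single i 1) ω - f x ω))‖ ≤ ∑ i, a i := norm_sum_le _ _
    have h3 : (∑ i, a i) ^ 2 ≤ d * ∑ i, a i ^ 2 := by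
      have := sq_sum_le_card_mul_sum_sq (s := (Finset.univ : Finset (Fin d))) (f := a)
      rwa [Finset.card_univ, Fintype.card_fin] at this
    have h4 : ∀ i, a i ^ 2 ≤ 4 * (‖f (x + Pi.single i 1) ω‖ ^ 2 +
        ‖f (x - Pi.single i 1) ω‖ ^ 2 + 2 * ‖f x ω‖ ^ 2) := by
      intro i
      have h5 : a i ≤ ‖f (x + Pi.single i 1) ω‖ + ‖f (x - Pi.single i 1) ω‖ + 2 * ‖f x ω‖ := by
        have e1 := norm_add_le (f (x + Pi.single i 1) ω - f x ω) (f (x - Pi.single i 1) ω - f x ω)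
        have e2 := norm_sub_le (f (x + Pi.single i 1) ω) (f x ω)
        have e3 := norm_sub_le (f (x - Pi.single i 1) ω) (f x ω)
        show ‖_‖ ≤ _
        linarith
      have h6 := pow_le_pow_left₀ (norm_nonneg _ : 0 ≤ a i) h5 2
      refine h6.trans ?_
      nlinarith [sq_nonneg (‖f (x + Pi.single i 1) ω‖ - ‖f (x - Pi.single i 1) ω‖),
        sq_nonneg (‖f (x + Pi.single i 1) ω‖ - ‖f x ω‖),
        sq_nonneg (‖f (x - Pi.single i 1) ω‖ - ‖f x ω‖)]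
    calc ‖∑ i : Fin d, (f (x + Pi.single i 1) ω - f x ω +
      (f (x - Pi.single i 1) ω - f x ω))‖ ^ 2 ≤ (∑ i, a i) ^ 2 :=
        pow_le_pow_left₀ (norm_nonneg _) h2 2
      _ ≤ d * ∑ i, a i ^ 2 := h3
      _ ≤ d * ∑ i, 4 * (‖f (x + Pi.single i 1) ω‖ ^ 2 +
        ‖f (x - Pi.single i 1) ω‖ ^ 2 + 2 * ‖f x ω‖ ^ 2) :=
        mul_le_mul_of_nonneg_left (Finset.sum_le_sum fun i _ => h4 i) (Nat.cast_nonneg _)
      _ = 4 * d * ∑ i, (‖f (x + Pi.single i 1) ω‖ ^ 2 +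
        ‖f (x - Pi.single i 1) ω‖ ^ 2 + 2 * ‖f x ω‖ ^ 2) := by
        rw [← Finset.mul_sum]
        ring


/-! ### the chain -/

section

variable {Ω : Type} [mΩ : MeasurableSpace Ω] {P : Measure Ω} {N d : ℕ} {k β : ℝ}
    {ℱ : Filtration ℝ≥0 mΩ} {B : Site d → Fin N → Fin N → ℝ≥0 → Ω → ℝ}
    {H : ℝ≥0 → Site d → Ω → E N}

theorem SdeSt_succ (n : ℕ) (h : ℝ≥0) : ((n + 1 : ℕ) : ℝ≥0) * h = n * h + h := by
  push_cast
  ring

theorem SdeSt_Jle (hβ : 0 < β) {h : ℝ} (hh : 0 ≤ h) (v : E N) : ‖J β h v‖ ≤ ‖v‖ := by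
  have h1 := J_nonexp (N := N) hβ hh v 0
  rwa [J_zero, sub_zero, sub_zero] at h1

theorem SdeSt_rc (hβ : 0 < β) (hH : IsDynamo P k 1 β ℱ B H) (h : ℝ≥0) (L : ℕ) (n : ℕ) :
    ∀ x : boxS d L, Measurable[ℱ (n * h)] (fun ω => rc β k h L B (H 0) n ω x) ∧
      MemLp (fun ω => rc β k h L B (H 0) n ω x) 2 P := by
  have hβ0 : 0 < β := by linarith
  have hh : (0 : ℝ) ≤ h := h.2
  induction n with
  | zero =>
    intro x
    constructor
    · rw [Nat.cast_zero, zero_mul]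
      exact hH.adapted 0 x
    · obtain ⟨C, _, hC⟩ := H_L2 hH 0
      exact (hC 0 le_rfl x).1
  | succ n ih =>
    intro x
    have hle : (n : ℝ≥0) * h ≤ ((n + 1 : ℕ) : ℝ≥0) * h := by
      rw [SdeSt_succ]
      exact le_self_add
    have m1 : ∀ y : boxS d L,
        Measurable[ℱ (((n + 1 : ℕ) : ℝ≥0) * h)] (fun ω => rc β k h L B (H 0) n ω y) := fun y =>
      (ih y).1.mono (ℱ.mono hle) le_rfl
    have m2 : Measurable[ℱ (((n + 1 : ℕ) : ℝ≥0) * h)] (fun ω => (fun a b =>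
        B x a b ((n + 1 : ℝ≥0) * h) ω - B x a b (n * h) ω : Fin N → Fin N → ℝ)) := by
      refine @measurable_pi_lambda _ _ _ (ℱ (((n + 1 : ℕ) : ℝ≥0) * h)) _ _ fun a => ?_
      refine @measurable_pi_lambda _ _ _ (ℱ (((n + 1 : ℕ) : ℝ≥0) * h)) _ _ fun b => ?_
      have := (inc_meas hH _ _ hle x a b).1
      rw [Nat.cast_add, Nat.cast_one] at this ⊢
      exact this
    have m3 : Measurable[ℱ (((n + 1 : ℕ) : ℝ≥0) * h)] (fun ω => mulv (fun a b =>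
        B x a b ((n + 1 : ℝ≥0) * h) ω - B x a b (n * h) ω) (rc β k h L B (H 0) n ω x)) :=
      (mulv_continuous N).measurable.comp (m2.prodMk (m1 x))
    have p3 : MemLp (fun ω => mulv (fun a b =>
        B x a b ((n + 1 : ℝ≥0) * h) ω - B x a b (n * h) ω) (rc β k h L B (H 0) n ω x)) 2 P := by
      have := (mulv_sq hH _ _ hle x _ (ih x).1 (ih x).2).1
      rw [Nat.cast_add, Nat.cast_one] at this
      exact this
    have mc : Measurable[ℱ (((n + 1 : ℕ) : ℝ≥0) * h)]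
        (fun ω => coup (boxNet d L) (rc β k h L B (H 0) n ω) x) := by
      unfold coup
      exact (Finset.measurable_fun_sum _ fun y _ => m1 y).sub
        ((m1 x).const_smul ((2 * d : ℕ) : ℝ))
    have pc : MemLp (fun ω => coup (boxNet d L) (rc β k h L B (H 0) n ω) x) 2 P := by
      unfold coup
      exact (memLp_finsetSum _ fun y _ => (ih y).2).sub
        ((ih x).2.const_smul ((2 * d : ℕ) : ℝ))
    have mJ : Measurable[ℱ (((n + 1 : ℕ) : ℝ≥0) * h)] (fun ω => J β h (rc β k h L B (H 0) n ω x +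
        mulv (fun a b => B x a b ((n + 1 : ℝ≥0) * h) ω - B x a b (n * h) ω)
          (rc β k h L B (H 0) n ω x))) :=
      (J_continuous hβ0 hh).measurable.comp ((m1 x).add m3)
    constructor
    · exact mJ.add (mc.const_smul (k * (h : ℝ)))
    · have p4 := (ih x).2.add p3
      have pJ : MemLp (fun ω => J β h (rc β k h L B (H 0) n ω x +
        mulv (fun a b => B x a b ((n + 1 : ℝ≥0) * h) ω - B x a b (n * h) ω)
          (rc β k h L B (H 0) n ω x))) 2 P :=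
        p4.mono (mJ.mono (ℱ.le _) le_rfl).aestronglyMeasurable
          (Filter.Eventually.of_forall fun ω => SdeSt_Jle hβ0 hh _)
      exact pJ.add (pc.const_smul (k * (h : ℝ)))


/-- the error -/
noncomputable def SdeSt_f {N d : ℕ} (β k : ℝ) (h : ℝ≥0) (L : ℕ)
    (B : Site d → Fin N → Fin N → ℝ≥0 → Ω → ℝ) (H : ℝ≥0 → Site d → Ω → E N) (n : ℕ) (y : Site d)
    (ω : Ω) : E N :=
  H (n * h) y ω - SdeSt_ext (rc β k h L B (H 0) n ω) y

theorem SdeSt_f_in {β k : ℝ} {h : ℝ≥0} {L n : ℕ} {y : Site d} (hy : y ∈ boxS d L) (ω : Ω) :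
    SdeSt_f β k h L B H n y ω = H (n * h) y ω - rc β k h L B (H 0) n ω ⟨y, hy⟩ := by
  unfold SdeSt_f SdeSt_ext
  rw [dif_pos hy]

theorem SdeSt_f_out {β k : ℝ} {h : ℝ≥0} {L n : ℕ} {y : Site d} (hy : y ∉ boxS d L) (ω : Ω) :
    SdeSt_f β k h L B H n y ω = H (n * h) y ω := by
  unfold SdeSt_f SdeSt_ext
  rw [dif_neg hy, sub_zero]

theorem SdeSt_fm (hβ : 0 < β) (hH : IsDynamo P k 1 β ℱ B H) (h : ℝ≥0) (L n : ℕ) (y : Site d) :
    Measurable[ℱ (n * h)] (SdeSt_f β k h L B H n y) ∧ MemLp (SdeSt_f β k h L B H n y) 2 P := by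
  obtain ⟨C, _, hC⟩ := H_L2 hH (n * h)
  have p1 := (hC (n * h) le_rfl y).1
  have m1 := hH.adapted (n * h) y
  by_cases hy : y ∈ boxS d L
  · have h1 : SdeSt_f β k h L B H n y = fun ω => H (n * h) y ω -
        rc β k h L B (H 0) n ω ⟨y, hy⟩ := funext fun ω => SdeSt_f_in hy ω
    rw [h1]
    have h2 := SdeSt_rc hβ hH h L n ⟨y, hy⟩
    exact ⟨m1.sub h2.1, p1.sub h2.2⟩
  · have h1 : SdeSt_f β k h L B H n y = H (n * h) y := funext fun ω => SdeSt_f_out hy ω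
    rw [h1]
    exact ⟨m1, p1⟩

theorem SdeSt_ab {V : Type*} [AddCommGroup V] (a b c a' b' c' : V) :
    (a - a') - (c - c') + ((b - b') - (c - c')) = (a - c + (b - c)) - (a' - c' + (b' - c')) := by
  abel

theorem SdeSt_step (hβ : 0 < β) (hH : IsDynamo P k 1 β ℱ B H) (hk : 0 ≤ k) {h : ℝ≥0}
    (h0 : 0 < h) (h1 : h ≤ 1) (L n : ℕ) {C δ : ℝ} (hC : 0 ≤ C) (hδ : 0 ≤ δ) (x : Site d)
    (hx : x ∈ boxS d L)
    (hloc : ∃ ρM ρD : Ω → E N, MemLp ρM 2 P ∧ MemLp ρD 2 P ∧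
        (∀ᵐ ω ∂P, J β h (H (n * h) x ω + mulv (fun a b => B x a b (n * h + h) ω -
            B x a b (n * h) ω) (H (n * h) x ω)
            + ρM ω + ρD ω) = H (n * h + h) x ω - (k * h) • lap (fun y => H (n * h) y ω) x) ∧
        (∀ Z : Ω → E N, Measurable[ℱ (n * h)] Z → MemLp Z 2 P →
          ∫ ω, inner ℝ (Z ω) (ρM ω) ∂P = 0) ∧
        ∫ ω, ‖ρM ω‖ ^ 2 ∂P ≤ C * h ^ 2 ∧ ∫ ω, ‖ρD ω‖ ^ 2 ∂P ≤ δ * h ^ 2) :
    ∫ ω, ‖SdeSt_f β k h L B H (n + 1) x ω‖ ^ 2 ∂P ≤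
      (1 + (3 + 8 * N) * h) * ∫ ω, ‖SdeSt_f β k h L B H n x ω‖ ^ 2 ∂P + h * (8 * C * h + 4 * δ) +
      h * (8 * d * k ^ 2) * ∑ i : Fin d,
        (∫ ω, ‖SdeSt_f β k h L B H n (x + Pi.single i 1) ω‖ ^ 2 ∂P +
          ∫ ω, ‖SdeSt_f β k h L B H n (x - Pi.single i 1) ω‖ ^ 2 ∂P +
          2 * ∫ ω, ‖SdeSt_f β k h L B H n x ω‖ ^ 2 ∂P) := by
  obtain ⟨ρM, ρD, pM, pD, hJ, hZ, hM, hD⟩ := hloc
  have hβ0 : 0 < β := by linarith
  have hh : (0 : ℝ) < h := by exact_mod_cast h0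
  have hh1 : (h : ℝ) ≤ 1 := by exact_mod_cast h1
  set e : Ω → E N := SdeSt_f β k h L B H n x with he
  have hem := SdeSt_fm hβ hH h L n x
  rw [← he] at hem
  have hmul := mulv_sq hH (n * h) (n * h + h) le_self_add x e hem.1 hem.2
  have hts : (((n * h + h : ℝ≥0) : ℝ) - ((n * h : ℝ≥0) : ℝ)) = h := by
    push_cast
    ring
  set m : Ω → E N := fun ω => mulv (fun a b => B x a b (n * h + h) ω - B x a b (n * h) ω) (e ω)
    with hm
  have hlap := SdeSt_lap (fun y => (SdeSt_fm hβ hH h L n y).2) x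
  set Λ : Ω → E N := fun ω => lap (fun y => SdeSt_f β k h L B H n y ω) x with hΛ
  have hA := SdeSt_A (c := N * h) hem.2 hmul.1 pM (hmul.2.2 e hem.1 hem.2) (hZ e hem.1 hem.2)
    (by rw [hmul.2.1, hts])
  have pA : MemLp (fun ω => e ω + m ω + ρM ω) 2 P := (hem.2.add hmul.1).add pM
  have hle : ∀ᵐ ω ∂P, ‖SdeSt_f β k h L B H (n + 1) x ω‖ ≤ ‖e ω + m ω + ρM ω‖ + ‖ρD ω‖ +
      (k * h) * ‖Λ ω‖ := by
    filter_upwards [hJ] with ω hω
    have e1 : SdeSt_f β k h L B H (n + 1) x ω = (J β h (H (n * h) x ω +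
        mulv (fun a b => B x a b (n * h + h) ω - B x a b (n * h) ω) (H (n * h) x ω)
            + ρM ω + ρD ω) - J β h (rc β k h L B (H 0) n ω ⟨x, hx⟩ +
        mulv (fun a b => B x a b (n * h + h) ω - B x a b (n * h) ω)
          (rc β k h L B (H 0) n ω ⟨x, hx⟩))) + (k * h) • Λ ω := by
      rw [SdeSt_f_in hx, SdeSt_succ, hω]
      have e2 : rc β k h L B (H 0) (n + 1) ω ⟨x, hx⟩ = J β h (rc β k h L B (H 0) n ω ⟨x, hx⟩ +
        mulv (fun a b => B x a b (n * h + h) ω - B x a b (n * h) ω)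
          (rc β k h L B (H 0) n ω ⟨x, hx⟩)) +
          (k * h) • coup (boxNet d L) (rc β k h L B (H 0) n ω) ⟨x, hx⟩ := by
        have e3 : (n : ℝ≥0) * h + h = (n + 1) * h := by ring
        rw [e3]
        rfl
      rw [e2, SdeSt_coup]
      have e4 : Λ ω = lap (fun y => H (n * h) y ω) x - lap (SdeSt_ext (rc β k h L B (H 0) n ω)) x := by
        rw [hΛ]
        unfold lap SdeSt_f
        rw [← Finset.sum_sub_distrib]
        refine Finset.sum_congr rfl fun i _ => ?_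
        exact SdeSt_ab _ _ _ _ _ _
      rw [e4, smul_sub]
      abel
    rw [e1]
    have e5 := J_nonexp (N := N) hβ0 hh.le (H (n * h) x ω +
        mulv (fun a b => B x a b (n * h + h) ω - B x a b (n * h) ω) (H (n * h) x ω)
            + ρM ω + ρD ω) (rc β k h L B (H 0) n ω ⟨x, hx⟩ +
        mulv (fun a b => B x a b (n * h + h) ω - B x a b (n * h) ω)
          (rc β k h L B (H 0) n ω ⟨x, hx⟩))
    have e6 : H (n * h) x ω = e ω + rc β k h L B (H 0) n ω ⟨x, hx⟩ := by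
      rw [he, SdeSt_f_in hx]
      abel
    have e7 : H (n * h) x ω +
        mulv (fun a b => B x a b (n * h + h) ω - B x a b (n * h) ω) (H (n * h) x ω)
            + ρM ω + ρD ω - (rc β k h L B (H 0) n ω ⟨x, hx⟩ +
        mulv (fun a b => B x a b (n * h + h) ω - B x a b (n * h) ω)
          (rc β k h L B (H 0) n ω ⟨x, hx⟩)) = (e ω + m ω + ρM ω) + ρD ω := by
      rw [hm, e6, mulv_add]
      abel
    rw [e7] at e5
    refine (norm_add_le _ _).trans (add_le_add (e5.trans (norm_add_le _ _)) (le_of_eq ?_))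
    rw [norm_smul, Real.norm_eq_abs, abs_of_nonneg (mul_nonneg hk hh.le)]
  have h3 := SdeSt_sum3 (e' := SdeSt_f β k h L B H (n + 1) x) hh (mul_nonneg hk hh.le) pA pD
    hlap.1 hle
  refine h3.trans ?_
  set q : ℝ := ∫ ω, ‖e ω‖ ^ 2 ∂P with hq
  have hq0 : 0 ≤ q := integral_nonneg fun ω => by positivity
  set S : ℝ := ∑ i : Fin d,
        (∫ ω, ‖SdeSt_f β k h L B H n (x + Pi.single i 1) ω‖ ^ 2 ∂P +
          ∫ ω, ‖SdeSt_f β k h L B H n (x - Pi.single i 1) ω‖ ^ 2 ∂P +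
          2 * q) with hS
  have hN : (0 : ℝ) ≤ N := Nat.cast_nonneg N
  have t1 : (1 + (h : ℝ)) ^ 2 * ∫ ω, ‖e ω + m ω + ρM ω‖ ^ 2 ∂P ≤
      (1 + (3 + 8 * N) * h) * q + 8 * C * h ^ 2 := by
    have s1 : ∫ ω, ‖e ω + m ω + ρM ω‖ ^ 2 ∂P ≤ (1 + 2 * (N * h)) * q + 2 * (C * h ^ 2) := by
      linarith [hA, hM]
    have s2 : (1 + (h : ℝ)) ^ 2 ≤ 1 + 3 * h := by nlinarith
    have s3 : (1 + (h : ℝ)) ^ 2 ≤ 4 := by nlinarith
    have s4 : (1 + (h : ℝ)) ^ 2 * (1 + 2 * (N * h)) ≤ 1 + (3 + 8 * N) * h := by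
      have s5 : (1 + (h : ℝ)) ^ 2 * (1 + 2 * (N * h)) ≤ (1 + 3 * h) * (1 + 2 * (N * h)) :=
        mul_le_mul_of_nonneg_right s2 (by positivity)
      have s6 : (N : ℝ) * h * h ≤ N * h := mul_le_of_le_one_right (by positivity) hh1
      nlinarith
    have s7 : (1 + (h : ℝ)) ^ 2 * ∫ ω, ‖e ω + m ω + ρM ω‖ ^ 2 ∂P ≤
        (1 + (h : ℝ)) ^ 2 * ((1 + 2 * (N * h)) * q + 2 * (C * h ^ 2)) :=
      mul_le_mul_of_nonneg_left s1 (by positivity)
    have s8 := mul_le_mul_of_nonneg_right s4 hq0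
    have s9 : (1 + (h : ℝ)) ^ 2 * (2 * (C * h ^ 2)) ≤ 4 * (2 * (C * h ^ 2)) :=
      mul_le_mul_of_nonneg_right s3 (by positivity)
    nlinarith
  have hinv : (1 + (h : ℝ)⁻¹) * (h : ℝ) ^ 2 = h ^ 2 + h := by
    field_simp
  have t2 : (1 + (h : ℝ)) * (1 + (h : ℝ)⁻¹) * ∫ ω, ‖ρD ω‖ ^ 2 ∂P ≤ 4 * δ * h := by
    have s1 : (1 + (h : ℝ)) * (1 + (h : ℝ)⁻¹) * ∫ ω, ‖ρD ω‖ ^ 2 ∂P ≤
        (1 + (h : ℝ)) * (1 + (h : ℝ)⁻¹) * (δ * h ^ 2) := mul_le_mul_of_nonneg_left hD (by positivity)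
    refine s1.trans ?_
    have s2 : (1 + (h : ℝ)) * (1 + (h : ℝ)⁻¹) * (δ * h ^ 2) = (1 + h) * δ * (h ^ 2 + h) := by
      rw [← hinv]
      ring
    rw [s2]
    have s3 : (1 + (h : ℝ)) * (h ^ 2 + h) ≤ 4 * h := by nlinarith [sq_nonneg (h : ℝ)]
    have s4 := mul_le_mul_of_nonneg_left s3 hδ
    nlinarith
  have t3 : (1 + (h : ℝ)⁻¹) * (k * h) ^ 2 * ∫ ω, ‖Λ ω‖ ^ 2 ∂P ≤ h * (8 * d * k ^ 2) * S := by
    have s1 : (1 + (h : ℝ)⁻¹) * (k * h) ^ 2 = k ^ 2 * (h ^ 2 + h) := by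
      rw [← hinv]
      ring
    rw [s1]
    have s2 : 0 ≤ ∫ ω, ‖Λ ω‖ ^ 2 ∂P := integral_nonneg fun ω => by positivity
    have s3 : k ^ 2 * ((h : ℝ) ^ 2 + h) ≤ k ^ 2 * (2 * h) :=
      mul_le_mul_of_nonneg_left (by nlinarith) (by positivity)
    calc k ^ 2 * ((h : ℝ) ^ 2 + h) * ∫ ω, ‖Λ ω‖ ^ 2 ∂P ≤ k ^ 2 * (2 * h) * ∫ ω, ‖Λ ω‖ ^ 2 ∂P :=
          mul_le_mul_of_nonneg_right s3 s2
      _ ≤ k ^ 2 * (2 * h) * (4 * d * S) := mul_le_mul_of_nonneg_left hlap.2 (by positivity)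
      _ = h * (8 * d * k ^ 2) * S := by ring
  calc _ ≤ ((1 + (3 + 8 * N) * h) * q + 8 * C * h ^ 2) + 4 * δ * h + h * (8 * d * k ^ 2) * S :=
        add_le_add (add_le_add t1 t2) t3
    _ = _ := by ring

end

theorem strong_conv {Ω : Type} [mΩ : MeasurableSpace Ω] {P : Measure Ω} {N d : ℕ} {k β : ℝ}
    {ℱ : Filtration ℝ≥0 mΩ} {B : Site d → Fin N → Fin N → ℝ≥0 → Ω → ℝ}
    {H : ℝ≥0 → Site d → Ω → E N} (hβ : 0 < β) (hk : 0 ≤ k) (hH : IsDynamo P k 1 β ℱ B H)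
    (T : ℝ≥0) :
    ∃ C : ℝ, 0 < C ∧ ∀ δ : ℝ, 0 < δ → ∃ h0 : ℝ≥0, 0 < h0 ∧ ∀ h : ℝ≥0, 0 < h → h ≤ h0 →
      ∀ (L n : ℕ), n * h ≤ T → ∀ x : boxS d L,
        MemLp (fun ω => rc β k h L B (H 0) n ω x) 2 P ∧
        (1 / 2 : ℝ) ^ l1 (x : Site d) 0 *
          ∫ ω, ‖H (n * h) x ω - rc β k h L B (H 0) n ω x‖ ^ 2 ∂P ≤
            C * (δ + k ^ 2 * (1 / 2) ^ L) := by
  obtain ⟨C, hC, hloc⟩ := local_error hβ hk hH T
  obtain ⟨CH, hCH, hHL⟩ := H_L2 hH T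
  obtain ⟨Cb, hCb, hbd⟩ := box_boundary d
  set a : ℝ := 3 + 8 * N with ha
  set b : ℝ := 8 * d * k ^ 2 with hb
  have ha0 : 0 ≤ a := by positivity
  have hb0 : 0 ≤ b := by positivity
  set K : ℝ := Real.exp ((a + 6 * d * b) * T) with hK
  have hK0 : 0 < K := Real.exp_pos _
  refine ⟨T * (5 * 3 ^ d + 16 * d ^ 2 * CH * Cb) * K + 1, by positivity, fun δ hδ => ?_⟩
  obtain ⟨h1, h1p, hl⟩ := hloc δ hδ
  refine ⟨min h1 (min 1 (Real.toNNReal (δ / (8 * C)))), ?_, fun h hh hle L n hn x => ?_⟩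
  · refine lt_min h1p (lt_min one_pos ?_)
    rw [Real.toNNReal_pos]
    positivity
  have hle1 : h ≤ h1 := hle.trans (min_le_left _ _)
  have hle2 : h ≤ 1 := hle.trans ((min_le_right _ _).trans (min_le_left _ _))
  have hle3 : (h : ℝ) ≤ δ / (8 * C) := by
    have h3 : h ≤ Real.toNNReal (δ / (8 * C)) := hle.trans ((min_le_right _ _).trans (min_le_right _ _))
    have h4 : (h : ℝ) ≤ (Real.toNNReal (δ / (8 * C)) : ℝ) := by exact_mod_cast h3
    rwa [Real.coe_toNNReal _ (by positivity)] at h4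
  have hle4 : 8 * C * h ≤ δ := by
    rw [le_div_iff₀ (by positivity)] at hle3
    linarith
  refine ⟨(SdeSt_rc hβ hH h L n x).2, ?_⟩
  have hhr : (0 : ℝ) < h := by exact_mod_cast hh
  have hnT : ∀ j ≤ n, (j : ℝ≥0) * h ≤ T := fun j hj =>
    le_trans (mul_le_mul_of_nonneg_right (by exact_mod_cast hj) h.2) hn
  have hg := SdeSt_gron (L := L) ha0 hb0 hCH.le (show 0 ≤ 8 * C * (h : ℝ) + 4 * δ by positivity)
    hhr.le (hbd L) (fun j y => ∫ ω, ‖SdeSt_f β k h L B H j y ω‖ ^ 2 ∂P)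
    (fun j y => integral_nonneg fun ω => by positivity)
    (fun y hy => by
      have h5 : ∀ ω, SdeSt_f β k h L B H 0 y ω = 0 := by
        intro ω
        rw [SdeSt_f_in hy, Nat.cast_zero, zero_mul]
        exact sub_self _
      simp only [h5]
      simp)
    n
    (fun j hj y hy => by
      have h6 : ∀ ω, SdeSt_f β k h L B H j y ω = H (j * h) y ω := fun ω => SdeSt_f_out hy ω
      simp only [h6]
      exact (hHL _ (hnT j hj) y).2)
    (fun j hj y hy => by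
      refine SdeSt_step hβ hH hk hh hle2 L j hC.le hδ.le y hy (hl h hh hle1 _ ?_ y)
      rw [← SdeSt_succ]
      exact hnT (j + 1) hj)
    n le_rfl
  have h7 : (1 / 2 : ℝ) ^ l1 (x : Site d) 0 *
          ∫ ω, ‖H (n * h) x ω - rc β k h L B (H 0) n ω x‖ ^ 2 ∂P ≤
      ∑ y ∈ boxS d L, (1 / 2 : ℝ) ^ l1 y 0 * ∫ ω, ‖SdeSt_f β k h L B H n y ω‖ ^ 2 ∂P := by
    have h8 := Finset.single_le_sum (f := fun y => (1 / 2 : ℝ) ^ l1 y 0 *
      ∫ ω, ‖SdeSt_f β k h L B H n y ω‖ ^ 2 ∂P)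
      (fun y _ => mul_nonneg (by positivity) (integral_nonneg fun ω => by positivity)) x.2
    refine le_trans (le_of_eq ?_) h8
    simp only [SdeSt_f_in x.2]
  refine h7.trans (hg.trans ?_)
  have hnr : (n : ℝ) * h ≤ T := by exact_mod_cast hn
  have h9 : (1 + (a + 6 * d * b) * h) ^ n ≤ K := by
    have h10 : 1 + (a + 6 * d * b) * h ≤ Real.exp ((a + 6 * d * b) * h) := by
      have := Real.add_one_le_exp ((a + 6 * d * b) * (h : ℝ))
      linarith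
    have h11 : (1 + (a + 6 * d * b) * h) ^ n ≤ Real.exp ((a + 6 * d * b) * h) ^ n :=
      pow_le_pow_left₀ (by positivity) h10 n
    refine h11.trans ?_
    rw [← Real.exp_nat_mul, hK]
    refine Real.exp_le_exp.2 ?_
    have h12 := mul_le_mul_of_nonneg_left hnr (show 0 ≤ a + 6 * d * b by positivity)
    nlinarith
  set S : ℝ := (8 * C * h + 4 * δ) * 3 ^ d + 2 * d * b * CH * (Cb * (1 / 2) ^ L) with hS
  have hS0 : 0 ≤ S := by positivity
  have hS1 : S ≤ (5 * 3 ^ d + 16 * d ^ 2 * CH * Cb) * (δ + k ^ 2 * (1 / 2) ^ L) := by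
    have u1 : (8 * C * h + 4 * δ) * 3 ^ d ≤ 5 * 3 ^ d * δ := by
      have := mul_le_mul_of_nonneg_right (show 8 * C * (h : ℝ) + 4 * δ ≤ 5 * δ by linarith)
        (show (0 : ℝ) ≤ 3 ^ d by positivity)
      linarith
    have u2 : 2 * d * b * CH * (Cb * (1 / 2) ^ L) = 16 * d ^ 2 * CH * Cb * (k ^ 2 * (1 / 2) ^ L) := by
      rw [hb]
      ring
    have u3 : (0 : ℝ) ≤ 5 * 3 ^ d * (k ^ 2 * (1 / 2) ^ L) := by positivity
    have u4 : (0 : ℝ) ≤ 16 * d ^ 2 * CH * Cb * δ := by positivity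
    rw [hS, u2]
    linarith
  have h13 : (n : ℝ) * h * S * (1 + (a + 6 * d * b) * h) ^ n ≤ T * S * K := by
    have v1 : (n : ℝ) * h * S ≤ T * S := mul_le_mul_of_nonneg_right hnr hS0
    exact mul_le_mul v1 h9 (by positivity) (by positivity)
  refine h13.trans ?_
  have h14 : T * S * K ≤ T * ((5 * 3 ^ d + 16 * d ^ 2 * CH * Cb) * (δ + k ^ 2 * (1 / 2) ^ L)) * K :=
    mul_le_mul_of_nonneg_right (mul_le_mul_of_nonneg_left hS1 T.2) hK0.le
  refine h14.trans ?_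
  have h15 : (0 : ℝ) ≤ δ + k ^ 2 * (1 / 2) ^ L := by positivity
  nlinarith

end DynB

end

/-! ### from `Lib_MP_36b788b.MSA` -/

section

/-!
# MSA: discretisation of the test functional

PROOF. Constants `C` of strong_conv and of l2cont with `T := S`. Write `n = ⌈s/h⌉₊`, `i_q = ⌊(T+τ_q)/h⌋₊`. `s ≤ nh ≤ s+h`,
`T+τ_q-h ≤ i_qh ≤ T+τ_q`, so `|(n+i_q)h-(s+T+τ_q)| ≤ h` and `(n+i_q)h ≤ S` (`h ≤ 1`). Fdisc_prod: the product equals
`exp(iΣ⟪u_q, rc_{n+i_q}(x_q)⟫)` (`x_q` in the box: `|x_q|₁ ≤ R ≤ L`), so by ech_diff the difference is at most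
`Σ_q‖u q‖ ∫‖H_{s+T+τ_q}(x_q)-rc_{n+i_q}(x_q)‖ ≤ Σ_q‖u q‖ (√(C h) + √(2^R C(δ'+k²2^{-L})))` (Jensen, l2cont, strong_conv with
`(1/2)^{|x_q|} ≥ (1/2)^R`). Choose `δ'` and (if `k ≠ 0`) `L1 ≥ R` with `k²2^{-L1} ≤ δ'`, then `h0`. For `k = 0` the boundary term is `0`.
-/

open MeasureTheory ProbabilityTheory Filter
open scoped NNReal ENNReal Topology

namespace DynB

open Dyn

private theorem MSA_jensen {Ω : Type} [MeasurableSpace Ω] {P : Measure Ω} [IsProbabilityMeasure P]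
    {N : ℕ} {f : Ω → E N} (hf : MemLp f 2 P) {η : ℝ} (hη : 0 < η)
    (h : ∫ ω, ‖f ω‖ ^ 2 ∂P ≤ η ^ 2) : ∫ ω, ‖f ω‖ ∂P ≤ η := by
  have i2 : Integrable (fun ω => ‖f ω‖ ^ 2) P := hf.integrable_norm_pow (by norm_num)
  have h1 : ∀ ω, ‖f ω‖ ≤ (2 * η)⁻¹ * ‖f ω‖ ^ 2 + η / 2 := by
    intro ω
    have h2 : (2 * η)⁻¹ * ‖f ω‖ ^ 2 + η / 2 - ‖f ω‖ = (2 * η)⁻¹ * (‖f ω‖ - η) ^ 2 := by
      field_simp
      ring
    have h3 : 0 ≤ (2 * η)⁻¹ * (‖f ω‖ - η) ^ 2 := by positivity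
    linarith
  have h2 := integral_mono_of_nonneg (Filter.Eventually.of_forall fun ω => norm_nonneg (f ω))
    ((i2.const_mul (2 * η)⁻¹).add (integrable_const (η / 2))) (Filter.Eventually.of_forall h1)
  have h3 : ∫ ω, ((2 * η)⁻¹ * ‖f ω‖ ^ 2 + η / 2) ∂P = (2 * η)⁻¹ * ∫ ω, ‖f ω‖ ^ 2 ∂P + η / 2 := by
    rw [integral_add (i2.const_mul _) (integrable_const _), integral_const_mul, integral_const]
    simp
  have h4 : (2 * η)⁻¹ * ∫ ω, ‖f ω‖ ^ 2 ∂P ≤ (2 * η)⁻¹ * η ^ 2 :=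
    mul_le_mul_of_nonneg_left h (by positivity)
  have h5 : (2 * η)⁻¹ * η ^ 2 = η / 2 := by
    field_simp
  have h6 : ∫ ω, ‖f ω‖ ∂P ≤ ∫ ω, ((2 * η)⁻¹ * ‖f ω‖ ^ 2 + η / 2) ∂P := h2
  linarith

private theorem MSA_box {d L R : ℕ} (x : Site d) (hx : l1 x 0 ≤ R) (hL : R ≤ L) : x ∈ boxS d L := by
  unfold boxS
  rw [Finset.mem_Icc, Pi.le_def, Pi.le_def]
  have h1 : ∀ i, (x i).natAbs ≤ L := by
    intro i
    have h2 : (x i - (0 : Site d) i).natAbs ≤ l1 x 0 := by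
      unfold l1
      exact Finset.single_le_sum (f := fun i => (x i - (0 : Site d) i).natAbs)
        (fun j _ => Nat.zero_le _) (Finset.mem_univ i)
    have h3 : (x i - (0 : Site d) i).natAbs = (x i).natAbs := by simp
    omega
  constructor
  · intro i
    have := h1 i
    omega
  · intro i
    have := h1 i
    omega

private theorem MSA_time {h s t : ℝ≥0} (hh : 0 < h) :
    ((⌈s / h⌉₊ + ⌊t / h⌋₊ : ℕ) : ℝ≥0) * h ≤ s + t + h ∧
    s + t ≤ ((⌈s / h⌉₊ + ⌊t / h⌋₊ : ℕ) : ℝ≥0) * h + h := by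
  have h1 : s ≤ (⌈s / h⌉₊ : ℝ≥0) * h := (div_le_iff₀ hh).1 (Nat.le_ceil _)
  have h2 : (⌈s / h⌉₊ : ℝ≥0) * h ≤ s + h := by
    have h3 : (⌈s / h⌉₊ : ℝ≥0) ≤ s / h + 1 := (Nat.ceil_lt_add_one zero_le).le
    have h4 := mul_le_mul_of_nonneg_right h3 h.2
    refine le_trans h4 (le_of_eq ?_)
    show (s / h + 1) * h = s + h
    rw [add_mul, div_mul_cancel₀ _ hh.ne', one_mul]
  have h3 : (⌊t / h⌋₊ : ℝ≥0) * h ≤ t := (le_div_iff₀ hh).1 (Nat.floor_le zero_le)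
  have h4 : t ≤ ((⌊t / h⌋₊ : ℝ≥0) + 1) * h := (div_le_iff₀ hh).1 (Nat.lt_floor_add_one _).le
  rw [Nat.cast_add, add_mul]
  constructor
  · calc (⌈s / h⌉₊ : ℝ≥0) * h + (⌊t / h⌋₊ : ℝ≥0) * h ≤ (s + h) + t := add_le_add h2 h3
      _ = s + t + h := by ring
  · calc s + t ≤ (⌈s / h⌉₊ : ℝ≥0) * h + ((⌊t / h⌋₊ : ℝ≥0) + 1) * h := add_le_add h1 h4
      _ = (⌈s / h⌉₊ : ℝ≥0) * h + (⌊t / h⌋₊ : ℝ≥0) * h + h := by ring

private theorem MSA_sq {Ω : Type} [MeasurableSpace Ω] {P : Measure Ω} {N : ℕ} {f g w : Ω → E N}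
    (hf : MemLp f 2 P) (hg : MemLp g 2 P) (hw : MemLp w 2 P) {a b : ℝ}
    (h1 : ∫ ω, ‖f ω - g ω‖ ^ 2 ∂P ≤ a) (h2 : ∫ ω, ‖g ω - w ω‖ ^ 2 ∂P ≤ b) :
    ∫ ω, ‖f ω - w ω‖ ^ 2 ∂P ≤ 2 * a + 2 * b := by
  have i1 : Integrable (fun ω => ‖f ω - g ω‖ ^ 2) P := (hf.sub hg).integrable_norm_pow (by norm_num)
  have i2 : Integrable (fun ω => ‖g ω - w ω‖ ^ 2) P := (hg.sub hw).integrable_norm_pow (by norm_num)
  have h3 : ∀ ω, ‖f ω - w ω‖ ^ 2 ≤ 2 * ‖f ω - g ω‖ ^ 2 + 2 * ‖g ω - w ω‖ ^ 2 := by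
    intro ω
    have h4 : ‖f ω - w ω‖ ≤ ‖f ω - g ω‖ + ‖g ω - w ω‖ := norm_sub_le_norm_sub_add_norm_sub _ _ _
    nlinarith [norm_nonneg (f ω - w ω), sq_nonneg (‖f ω - g ω‖ - ‖g ω - w ω‖),
      norm_nonneg (f ω - g ω), norm_nonneg (g ω - w ω)]
  have h4 := integral_mono_of_nonneg (Filter.Eventually.of_forall fun ω =>
    (by positivity : (0 : ℝ) ≤ ‖f ω - w ω‖ ^ 2)) ((i1.const_mul 2).add (i2.const_mul 2))
    (Filter.Eventually.of_forall h3)
  have h5 : ∫ ω, (2 * ‖f ω - g ω‖ ^ 2 + 2 * ‖g ω - w ω‖ ^ 2) ∂P =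
      2 * ∫ ω, ‖f ω - g ω‖ ^ 2 ∂P + 2 * ∫ ω, ‖g ω - w ω‖ ^ 2 ∂P := by
    rw [integral_add (i1.const_mul 2) (i2.const_mul 2), integral_const_mul, integral_const_mul]
  have h6 : ∫ ω, ‖f ω - w ω‖ ^ 2 ∂P ≤
      ∫ ω, (2 * ‖f ω - g ω‖ ^ 2 + 2 * ‖g ω - w ω‖ ^ 2) ∂P := h4
  linarith

theorem ms_approx {Ω : Type} [mΩ : MeasurableSpace Ω] {P : Measure Ω} {N d : ℕ} {k β : ℝ}
    {ℱ : Filtration ℝ≥0 mΩ} {B : Site d → Fin N → Fin N → ℝ≥0 → Ω → ℝ}
    {H : ℝ≥0 → Site d → Ω → E N} (hβ : 0 < β) (hk : 0 ≤ k) (hH : IsDynamo P k 1 β ℱ B H)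
    (I : Finset (ℝ≥0 × Site d)) (u : ℝ≥0 × Site d → E N) (S : ℝ≥0) (R : ℕ)
    (hR : ∀ q ∈ I, l1 q.2 0 ≤ R) (δ : ℝ) (hδ : 0 < δ) :
    ∃ L1 : ℕ, ∀ L, (L1 ≤ L ∨ (k = 0 ∧ R ≤ L)) → ∃ h0 : ℝ≥0, 0 < h0 ∧ ∀ h : ℝ≥0, 0 < h → h ≤ h0 →
      ∀ (T s : ℝ≥0) (M : ℕ), (∀ q ∈ I, s + T + q.1 + 1 ≤ S) → (∀ q ∈ I, ⌊(T + q.1) / h⌋₊ < M) →
      ∀ Z : Ω → ℂ, Measurable Z → (∀ ω, ‖Z ω‖ ≤ 1) →
      ‖∫ ω, Z ω * Xf' H I u (s + T) ω ∂P -
        ∫ ω, Z ω * ∏ i ∈ Finset.range M, Fdisc I u (fun q => ⌊(T + q.1) / h⌋₊) i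
          (rc β k h L B (H 0) (⌈s / h⌉₊ + i) ω) ∂P‖ ≤ δ := by
  have hP := hH.prob
  obtain ⟨C, hC, hsc⟩ := strong_conv hβ hk hH S
  obtain ⟨C', hC', hl⟩ := l2cont hβ hH S
  obtain ⟨CH, hCH, hHL⟩ := H_L2 hH S
  have hUs : 0 ≤ ∑ q ∈ I, ‖u q‖ := Finset.sum_nonneg fun q _ => norm_nonneg _
  set U : ℝ := ∑ q ∈ I, ‖u q‖ + 1 with hU
  have hU0 : 0 < U := by positivity
  set η : ℝ := δ / U with hη
  have hη0 : 0 < η := by positivity
  set δ' : ℝ := η ^ 2 / (8 * 2 ^ R * C) with hδ'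
  have hδ'0 : 0 < δ' := by positivity
  have hex : ∃ n : ℕ, k ^ 2 * (1 / 2 : ℝ) ^ n ≤ δ' := by
    have h1 : Tendsto (fun n : ℕ => k ^ 2 * (1 / 2 : ℝ) ^ n) atTop (𝓝 (k ^ 2 * 0)) :=
      (tendsto_pow_atTop_nhds_zero_of_lt_one (by norm_num) (by norm_num)).const_mul _
    rw [mul_zero] at h1
    exact (h1.eventually_le_const hδ'0).exists
  obtain ⟨n0, hn0⟩ := hex
  refine ⟨max n0 R, fun L hL => ?_⟩
  have hRL : R ≤ L := by
    rcases hL with hL | hL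
    · exact (le_max_right _ _).trans hL
    · exact hL.2
  have hkL : k ^ 2 * (1 / 2 : ℝ) ^ L ≤ δ' := by
    rcases hL with hL | hL
    · refine le_trans ?_ hn0
      refine mul_le_mul_of_nonneg_left ?_ (sq_nonneg k)
      exact pow_le_pow_of_le_one (by norm_num) (by norm_num) ((le_max_left _ _).trans hL)
    · rw [hL.1]
      simpa using hδ'0.le
  obtain ⟨h1, h1p, hs⟩ := hsc δ' hδ'0
  refine ⟨min h1 (min 1 (Real.toNNReal (η ^ 2 / (4 * C')))), ?_, ?_⟩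
  · refine lt_min h1p (lt_min one_pos ?_)
    rw [Real.toNNReal_pos]
    positivity
  intro h hh hle T s M hq hM Z hZ hZ1
  have hle1 : h ≤ h1 := hle.trans (min_le_left _ _)
  have hle2 : h ≤ 1 := hle.trans ((min_le_right _ _).trans (min_le_left _ _))
  have hle3 : C' * (h : ℝ) ≤ η ^ 2 / 4 := by
    have h3 : h ≤ Real.toNNReal (η ^ 2 / (4 * C')) :=
      hle.trans ((min_le_right _ _).trans (min_le_right _ _))
    have h4 : (h : ℝ) ≤ (Real.toNNReal (η ^ 2 / (4 * C')) : ℝ) := by exact_mod_cast h3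
    rw [Real.coe_toNNReal _ (by positivity)] at h4
    rw [le_div_iff₀ (by positivity)] at h4
    linarith
  have hHm : ∀ t x, Measurable (H t x) := fun t x => (hH.adapted t x).mono (ℱ.le t) le_rfl
  -- closeness in time
  have hl' : ∀ a b : ℝ≥0, a ≤ S → b ≤ S → a ≤ b + h → b ≤ a + h → ∀ x,
      ∫ ω, ‖H a x ω - H b x ω‖ ^ 2 ∂P ≤ η ^ 2 / 4 := by
    intro a b ha hb hab hba x
    rcases le_total a b with h2 | h2
    · have h3 := hl a b h2 hb x
      have h4 : (b : ℝ) - a ≤ h := by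
        have : (b : ℝ) ≤ a + h := by exact_mod_cast hba
        linarith
      have h5 : ∫ ω, ‖H a x ω - H b x ω‖ ^ 2 ∂P = ∫ ω, ‖H b x ω - H a x ω‖ ^ 2 ∂P := by
        congr 1
        funext ω
        rw [norm_sub_rev]
      rw [h5]
      refine h3.trans (le_trans (mul_le_mul_of_nonneg_left h4 hC'.le) hle3)
    · have h3 := hl b a h2 ha x
      have h4 : (a : ℝ) - b ≤ h := by
        have : (a : ℝ) ≤ b + h := by exact_mod_cast hab
        linarith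
      exact h3.trans (le_trans (mul_le_mul_of_nonneg_left h4 hC'.le) hle3)
  -- the estimate for one point
  have hpt : ∀ q ∈ I, MemLp (fun ω => H (s + T + q.1) q.2 ω -
      ext0 (rc β k h L B (H 0) (⌈s / h⌉₊ + ⌊(T + q.1) / h⌋₊) ω) q.2) 2 P ∧
      ∫ ω, ‖H (s + T + q.1) q.2 ω -
        ext0 (rc β k h L B (H 0) (⌈s / h⌉₊ + ⌊(T + q.1) / h⌋₊) ω) q.2‖ ∂P ≤ η := by
    intro q hqI
    have hb := MSA_box q.2 (hR q hqI) hRL
    have hext : ∀ ω, ext0 (rc β k h L B (H 0) (⌈s / h⌉₊ + ⌊(T + q.1) / h⌋₊) ω) q.2 =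
        rc β k h L B (H 0) (⌈s / h⌉₊ + ⌊(T + q.1) / h⌋₊) ω ⟨q.2, hb⟩ := by
      intro ω
      unfold ext0
      rw [dif_pos hb]
    simp only [hext]
    obtain ⟨ht1, ht2⟩ := MSA_time (s := s) (t := T + q.1) hh
    have hqS := hq q hqI
    have hS1 : s + T + q.1 ≤ S := le_trans (le_add_of_nonneg_right zero_le) hqS
    have hS2 : ((⌈s / h⌉₊ + ⌊(T + q.1) / h⌋₊ : ℕ) : ℝ≥0) * h ≤ S := by
      refine ht1.trans (le_trans ?_ hqS)
      rw [← add_assoc]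
      exact add_le_add le_rfl hle2
    obtain ⟨hm, hc⟩ := hs h hh hle1 L _ hS2 ⟨q.2, hb⟩
    have hmH1 := (hHL _ hS1 q.2).1
    have hmH2 := (hHL _ hS2 q.2).1
    have hc1 := hl' _ _ hS1 hS2 (by rw [add_assoc]; exact ht2)
      (by rw [add_assoc s T]; exact ht1) q.2
    have hc2 : ∫ ω, ‖H (((⌈s / h⌉₊ + ⌊(T + q.1) / h⌋₊ : ℕ) : ℝ≥0) * h) q.2 ω -
        rc β k h L B (H 0) (⌈s / h⌉₊ + ⌊(T + q.1) / h⌋₊) ω ⟨q.2, hb⟩‖ ^ 2 ∂P ≤ η ^ 2 / 4 := by
      set A : ℝ := ∫ ω, ‖H (((⌈s / h⌉₊ + ⌊(T + q.1) / h⌋₊ : ℕ) : ℝ≥0) * h) q.2 ω -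
        rc β k h L B (H 0) (⌈s / h⌉₊ + ⌊(T + q.1) / h⌋₊) ω ⟨q.2, hb⟩‖ ^ 2 ∂P with hA
      have hA0 : 0 ≤ A := integral_nonneg fun ω => by positivity
      have e1 : (1 / 2 : ℝ) ^ R * A ≤ (1 / 2 : ℝ) ^ l1 q.2 0 * A :=
        mul_le_mul_of_nonneg_right (pow_le_pow_of_le_one (by norm_num) (by norm_num)
          (hR q hqI)) hA0
      have e2 : (1 / 2 : ℝ) ^ R * A ≤ C * (δ' + δ') :=
        (e1.trans hc).trans (mul_le_mul_of_nonneg_left (by linarith) hC.le)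
      have e3 : (2 : ℝ) ^ R * ((1 / 2 : ℝ) ^ R * A) = A := by
        rw [← mul_assoc, ← mul_pow]
        norm_num
      have e4 := mul_le_mul_of_nonneg_left e2 (show (0 : ℝ) ≤ 2 ^ R by positivity)
      rw [e3] at e4
      refine e4.trans (le_of_eq ?_)
      rw [hδ']
      field_simp
      ring
    refine ⟨hmH1.sub hm, MSA_jensen (hmH1.sub hm) hη0 ?_⟩
    have e5 := MSA_sq hmH1 hmH2 hm hc1 hc2
    refine le_trans e5 (le_of_eq (by ring))
  -- the difference of the integrals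
  have hrcm : ∀ n, Measurable (rc β k h L B (H 0) n) := fun n =>
    (rc_adapted (hβ) hH h L n).mono (ℱ.le _) le_rfl
  have hXm : Measurable (Xf' H I u (s + T)) := by
    have e1 : Xf' H I u (s + T) = fun ω => ech I u (fun q => H (s + T + q.1) q.2 ω) := rfl
    rw [e1]
    exact (ech_meas I u).comp (measurable_pi_iff.2 fun q => hHm _ _)
  have hX1 : ∀ ω, ‖Xf' H I u (s + T) ω‖ = 1 := fun ω => by
    rw [Xf'_eq]
    exact ech_norm _ _ _
  have hprod : ∀ ω, ∏ i ∈ Finset.range M, Fdisc I u (fun q => ⌊(T + q.1) / h⌋₊) i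
          (rc β k h L B (H 0) (⌈s / h⌉₊ + i) ω) =
      ech I u (fun q => ext0 (rc β k h L B (H 0) (⌈s / h⌉₊ + ⌊(T + q.1) / h⌋₊) ω) q.2) := by
    intro ω
    exact Fdisc_prod I u (fun q => ⌊(T + q.1) / h⌋₊) M hM
      (fun i => rc β k h L B (H 0) (⌈s / h⌉₊ + i) ω)
  have hYm : Measurable (fun ω => ∏ i ∈ Finset.range M, Fdisc I u (fun q => ⌊(T + q.1) / h⌋₊) i
          (rc β k h L B (H 0) (⌈s / h⌉₊ + i) ω)) :=
    Finset.measurable_prod _ fun i _ => (Fdisc_meas I u _ i).comp (hrcm _)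
  have hY1 : ∀ ω, ‖∏ i ∈ Finset.range M, Fdisc I u (fun q => ⌊(T + q.1) / h⌋₊) i
          (rc β k h L B (H 0) (⌈s / h⌉₊ + i) ω)‖ = 1 := fun ω => by
    rw [hprod]
    exact ech_norm _ _ _
  have i1 : Integrable (fun ω => Z ω * Xf' H I u (s + T) ω) P :=
    Integrable.of_bound (C := 1) (hZ.mul hXm).aestronglyMeasurable
      (Filter.Eventually.of_forall fun ω => by rw [norm_mul, hX1, mul_one]; exact hZ1 ω)
  have i2 : Integrable (fun ω => Z ω * ∏ i ∈ Finset.range M,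
      Fdisc I u (fun q => ⌊(T + q.1) / h⌋₊) i (rc β k h L B (H 0) (⌈s / h⌉₊ + i) ω)) P :=
    Integrable.of_bound (C := 1) (hZ.mul hYm).aestronglyMeasurable
      (Filter.Eventually.of_forall fun ω => by rw [norm_mul, hY1, mul_one]; exact hZ1 ω)
  rw [← integral_sub i1 i2]
  have hdi : ∀ q ∈ I, Integrable (fun ω => ‖u q‖ * ‖H (s + T + q.1) q.2 ω -
      ext0 (rc β k h L B (H 0) (⌈s / h⌉₊ + ⌊(T + q.1) / h⌋₊) ω) q.2‖) P := fun q hqI =>
    ((hpt q hqI).1.integrable (by norm_num)).norm.const_mul _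
  have hfin : ‖∫ ω, (Z ω * Xf' H I u (s + T) ω - Z ω * ∏ i ∈ Finset.range M,
      Fdisc I u (fun q => ⌊(T + q.1) / h⌋₊) i (rc β k h L B (H 0) (⌈s / h⌉₊ + i) ω)) ∂P‖ ≤
      ∫ ω, ∑ q ∈ I, ‖u q‖ * ‖H (s + T + q.1) q.2 ω -
        ext0 (rc β k h L B (H 0) (⌈s / h⌉₊ + ⌊(T + q.1) / h⌋₊) ω) q.2‖ ∂P := by
    refine norm_integral_le_of_norm_le (integrable_finsetSum _ hdi)
      (Filter.Eventually.of_forall fun ω => ?_)
    rw [← mul_sub, norm_mul, hprod, Xf'_eq]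
    refine le_trans (mul_le_mul_of_nonneg_right (hZ1 ω) (norm_nonneg _)) ?_
    rw [one_mul]
    exact ech_diff I u _ _
  refine hfin.trans ?_
  rw [integral_finsetSum _ hdi]
  have hsum : ∑ q ∈ I, ∫ ω, ‖u q‖ * ‖H (s + T + q.1) q.2 ω -
        ext0 (rc β k h L B (H 0) (⌈s / h⌉₊ + ⌊(T + q.1) / h⌋₊) ω) q.2‖ ∂P ≤
      ∑ q ∈ I, ‖u q‖ * η := by
    refine Finset.sum_le_sum fun q hqI => ?_
    rw [integral_const_mul]
    exact mul_le_mul_of_nonneg_left (hpt q hqI).2 (norm_nonneg _)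
  refine hsum.trans ?_
  rw [← Finset.sum_mul]
  have e6 : (∑ q ∈ I, ‖u q‖) * η ≤ U * η := mul_le_mul_of_nonneg_right (by rw [hU]; linarith) hη0.le
  refine e6.trans (le_of_eq ?_)
  rw [hη]
  field_simp

end DynB

end

/-! ### from `Lib_MP_36b788b.MixSde` -/

section

/-!
# MIXSDE: the Ito system forgets its past and its initial law

PROOF. `k1` of chain_mix. Fix `k`, the solutions, `I, u, δ`. `R` with `|q.2|₁ ≤ R` for `q ∈ I`, `J = I.card`, `CF = Σ_{q∈I}(2+‖u q‖)`,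
`ρ_i = P_i.map (H_i 0 0)` (second moment: `moments`, `ρ_i{0} = 0`: `ne`). chain_mix with `δ/3`: `T0c, L0`. `T0 := T0c + 1`.
Given `T ≥ T0, s1, s2`: `S := max s1 s2 + T + Σ_{q∈I}q.1 + 2`; ms_approx with `δ/3` for both solutions (`L1, L1'`); `L := max` of `L0, L1, L1'`
if `k > 0`, `L := R` if `k = 0`; chain_mix with `Sm := S`: `h0`; take one `h` smaller than all `h0` and `≤ 1`. `idx q = ⌊(T+q.1)/h⌋₊`,
`M = 1 + sup idx`, `n_i = ⌈s_i/h⌉₊`, `F i = Fdisc I u idx i`, index set `I.image idx`. `n_ih ≤ s_i+h ≤ S`, `M h ≤ S`,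
`idx q·h ≥ T+q.1-h ≥ T0c`.
`Z` is `ℱ1 (n1 h)`-measurable (`s1 ≤ n1 h`). law_path: `∫ZΠF_i(rc_{n1+i}) = ∫Z pathE F (rc_{n1})`, and with `Z = 1`, `n2`, law_chain:
`∫ΠF_i(rc'_{n2+i}) = ∫pathE F dchainLaw_{ρ2} n2 =: c`. Hence
`|∫Z pathE F(rc_{n1}) - (∫Z)c| ≤ ∫‖pathE F(rc_{n1}) - c‖ ≤ ∫∫‖pathE F G-pathE F G'‖ dchainLaw_{ρ2} n2 dchainLaw_{ρ1} n1 ≤ δ/3`
(law_chain for the first solution). Add the two approximation errors (`‖∫Z‖ ≤ 1`).
-/

open MeasureTheory ProbabilityTheory Filter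
open scoped NNReal ENNReal Topology

namespace DynB

open Dyn

private theorem MixSde_core {Ω1 Ω2 : Type} [mΩ1 : MeasurableSpace Ω1] [mΩ2 : MeasurableSpace Ω2]
    {P1 : Measure Ω1} {P2 : Measure Ω2} {N d : ℕ} {k β : ℝ}
    {ℱ1 : Filtration ℝ≥0 mΩ1} {B1 : Site d → Fin N → Fin N → ℝ≥0 → Ω1 → ℝ}
    {H1 : ℝ≥0 → Site d → Ω1 → E N}
    {ℱ2 : Filtration ℝ≥0 mΩ2} {B2 : Site d → Fin N → Fin N → ℝ≥0 → Ω2 → ℝ}
    {H2 : ℝ≥0 → Site d → Ω2 → E N} (hβ : 0 < β)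
    (hH1 : IsDynamo P1 k 1 β ℱ1 B1 H1) (hH2 : IsDynamo P2 k 1 β ℱ2 B2 H2)
    (hI1 : IsInit P1 (H1 0)) (hI2 : IsInit P2 (H2 0))
    (h : ℝ≥0) (L n1 n2 M : ℕ) (F : ℕ → (boxS d L → E N) → ℂ) (hm : ∀ i, Measurable (F i))
    (hb : ∀ i G, ‖F i G‖ ≤ 1) (Z : Ω1 → ℂ) (hZ : Measurable[ℱ1 (n1 * h)] Z)
    (hZ1 : ∀ ω, ‖Z ω‖ ≤ 1) :
    ‖∫ ω, Z ω * ∏ i ∈ Finset.range M, F i (rc β k h L B1 (H1 0) (n1 + i) ω) ∂P1 -
      (∫ ω, Z ω ∂P1) *
        ∫ ω, (1 : ℂ) * ∏ i ∈ Finset.range M, F i (rc β k h L B2 (H2 0) (n2 + i) ω) ∂P2‖ ≤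
      ∫ G, ∫ G', ‖pathE (boxNet d L) β h k (stdGaussian (E N)) ((List.range M).map F) G
          - pathE (boxNet d L) β h k (stdGaussian (E N)) ((List.range M).map F) G'‖
        ∂(chainLaw (boxNet d L) β h k (stdGaussian (E N))
          (Measure.pi (fun _ => P2.map (H2 0 0))) n2)
        ∂(chainLaw (boxNet d L) β h k (stdGaussian (E N))
          (Measure.pi (fun _ => P1.map (H1 0 0))) n1) := by
  have hP1 := hH1.prob
  have hP2 := hH2.prob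
  have hr1 : Measurable (rc β k h L B1 (H1 0) n1) :=
    (rc_adapted hβ hH1 h L n1).mono (ℱ1.le _) le_rfl
  have hr2 : Measurable (rc β k h L B2 (H2 0) n2) :=
    (rc_adapted hβ hH2 h L n2).mono (ℱ2.le _) le_rfl
  have hZm : Measurable Z := hZ.mono (ℱ1.le _) le_rfl
  obtain ⟨hΦm, hΦb⟩ := pathE_facts (net := boxNet d L) (k := k) (ν := stdGaussian (E N)) hβ
      (NNReal.coe_nonneg h) ((List.range M).map F)
      (by
        intro f hf
        obtain ⟨i, _, rfl⟩ := List.mem_map.mp hf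
        exact hm i)
      (by
        intro f hf
        obtain ⟨i, _, rfl⟩ := List.mem_map.mp hf
        exact hb i)
  rw [law_path hβ hH1 h L n1 M F hm hb Z hZ hZ1,
    law_path hβ hH2 h L n2 M F hm hb (fun _ => 1) measurable_const (fun _ => by simp),
    ← law_chain hβ hH1 hI1 h L n1, ← law_chain hβ hH2 hI2 h L n2]
  generalize pathE (boxNet d L) β h k (stdGaussian (E N)) ((List.range M).map F) = Φ at hΦm hΦb ⊢
  have hQ1 : IsProbabilityMeasure (P1.map (rc β k h L B1 (H1 0) n1)) :=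
    Measure.isProbabilityMeasure_map hr1.aemeasurable
  have hQ2 : IsProbabilityMeasure (P2.map (rc β k h L B2 (H2 0) n2)) :=
    Measure.isProbabilityMeasure_map hr2.aemeasurable
  have e2 : ∫ ω, (1 : ℂ) * Φ (rc β k h L B2 (H2 0) n2 ω) ∂P2 =
      ∫ G', Φ G' ∂(P2.map (rc β k h L B2 (H2 0) n2)) := by
    rw [integral_map hr2.aemeasurable hΦm.aestronglyMeasurable]
    simp only [one_mul]
  rw [e2]
  set Q1 := P1.map (rc β k h L B1 (H1 0) n1) with hQ1d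
  set Q2 := P2.map (rc β k h L B2 (H2 0) n2) with hQ2d
  set c : ℂ := ∫ G', Φ G' ∂Q2 with hc
  have hΦi : Integrable Φ Q2 :=
    Integrable.of_bound (C := 1) hΦm.aestronglyMeasurable (Filter.Eventually.of_forall hΦb)
  have hcb : ‖c‖ ≤ 1 := by
    refine (norm_integral_le_of_norm_le_const (C := 1) (Filter.Eventually.of_forall hΦb)).trans ?_
    simp
  have hZi : Integrable Z P1 :=
    Integrable.of_bound (C := 1) hZm.aestronglyMeasurable (Filter.Eventually.of_forall hZ1)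
  have hcomp : Measurable (fun ω => Φ (rc β k h L B1 (H1 0) n1 ω)) := hΦm.comp hr1
  have hZΦ : Integrable (fun ω => Z ω * Φ (rc β k h L B1 (H1 0) n1 ω)) P1 := by
    refine Integrable.of_bound (C := 1) (hZm.mul hcomp).aestronglyMeasurable
      (Filter.Eventually.of_forall fun ω => ?_)
    rw [norm_mul]
    exact mul_le_one₀ (hZ1 ω) (norm_nonneg _) (hΦb _)
  have e3 : ∫ ω, Z ω * Φ (rc β k h L B1 (H1 0) n1 ω) ∂P1 - (∫ ω, Z ω ∂P1) * c =
      ∫ ω, Z ω * (Φ (rc β k h L B1 (H1 0) n1 ω) - c) ∂P1 := by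
    rw [← integral_mul_const, ← integral_sub hZΦ (hZi.mul_const c)]
    refine integral_congr_ae (Filter.Eventually.of_forall fun ω => ?_)
    show Z ω * Φ (rc β k h L B1 (H1 0) n1 ω) - Z ω * c =
      Z ω * (Φ (rc β k h L B1 (H1 0) n1 ω) - c)
    ring
  rw [e3]
  have hdm : Measurable (fun G => ‖Φ G - c‖) := (hΦm.sub measurable_const).norm
  have hdb : ∀ G, ‖Φ G - c‖ ≤ 2 := fun G => (norm_sub_le _ _).trans (by linarith [hΦb G])
  have hdi : Integrable (fun G => ‖Φ G - c‖) Q1 := by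
    refine Integrable.of_bound (C := 2) hdm.aestronglyMeasurable
      (Filter.Eventually.of_forall fun G => ?_)
    rw [norm_norm]
    exact hdb G
  have hdi' : Integrable (fun ω => ‖Φ (rc β k h L B1 (H1 0) n1 ω) - c‖) P1 := by
    refine Integrable.of_bound (C := 2) (hdm.comp hr1).aestronglyMeasurable
      (Filter.Eventually.of_forall fun ω => ?_)
    rw [norm_norm]
    exact hdb _
  calc ‖∫ ω, Z ω * (Φ (rc β k h L B1 (H1 0) n1 ω) - c) ∂P1‖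
      ≤ ∫ ω, ‖Φ (rc β k h L B1 (H1 0) n1 ω) - c‖ ∂P1 := by
        refine norm_integral_le_of_norm_le hdi' (Filter.Eventually.of_forall fun ω => ?_)
        rw [norm_mul]
        exact mul_le_of_le_one_left (norm_nonneg _) (hZ1 ω)
    _ = ∫ G, ‖Φ G - c‖ ∂Q1 := by
        rw [hQ1d, integral_map hr1.aemeasurable hdm.aestronglyMeasurable]
    _ ≤ ∫ G, ∫ G', ‖Φ G - Φ G'‖ ∂Q2 ∂Q1 := by
        have hpm : Measurable (fun q : (boxS d L → E N) × (boxS d L → E N) =>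
            ‖Φ q.1 - Φ q.2‖) := ((hΦm.comp measurable_fst).sub (hΦm.comp measurable_snd)).norm
        have hpb : ∀ G G', ‖Φ G - Φ G'‖ ≤ 2 := fun G G' =>
          (norm_sub_le _ _).trans (by linarith [hΦb G, hΦb G'])
        have hsi : ∀ G, Integrable (fun G' => ‖Φ G - Φ G'‖) Q2 := fun G => by
          refine Integrable.of_bound (C := 2)
            (measurable_const.sub hΦm).norm.aestronglyMeasurable
            (Filter.Eventually.of_forall fun G' => ?_)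
          rw [norm_norm]
          exact hpb G G'
        refine integral_mono hdi ?_ fun G => ?_
        · refine Integrable.of_bound (C := 2)
            (hpm.stronglyMeasurable.integral_prod_right' (ν := Q2)).aestronglyMeasurable
            (Filter.Eventually.of_forall fun G => ?_)
          refine (norm_integral_le_of_norm_le_const (C := 2)
            (Filter.Eventually.of_forall fun G' => ?_)).trans ?_
          · rw [norm_norm]
            exact hpb G G'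
          · simp
        · show ‖Φ G - c‖ ≤ ∫ G', ‖Φ G - Φ G'‖ ∂Q2
          have e4 : Φ G - c = ∫ G', (Φ G - Φ G') ∂Q2 := by
            rw [integral_sub (integrable_const _) hΦi]
            simp [hc]
          rw [e4]
          exact norm_integral_le_integral_norm _

private theorem MixSde_rho {Ω : Type} [mΩ : MeasurableSpace Ω] {P : Measure Ω} {N d : ℕ} {k β : ℝ}
    {ℱ : Filtration ℝ≥0 mΩ} {B : Site d → Fin N → Fin N → ℝ≥0 → Ω → ℝ}
    {H : ℝ≥0 → Site d → Ω → E N} (hH : IsDynamo P k 1 β ℱ B H) (hI : IsInit P (H 0)) :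
    IsProbabilityMeasure (P.map (H 0 0)) ∧ P.map (H 0 0) {0} = 0 ∧
      Integrable (fun x : E N => ‖x‖ ^ 2) (P.map (H 0 0)) := by
  have hP := hH.prob
  have hHm : Measurable (H 0 0) := (hH.adapted 0 0).mono (ℱ.le _) le_rfl
  refine ⟨Measure.isProbabilityMeasure_map hHm.aemeasurable, ?_, ?_⟩
  · rw [Measure.map_apply hHm (measurableSet_singleton 0)]
    exact hI.ne
  · obtain ⟨C, hC⟩ := hH.moments 2 0
    rw [integrable_map_measure (by fun_prop) hHm.aemeasurable]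
    exact (hC 0 le_rfl 0).1

theorem mix_of_chain (N d : ℕ) (β k : ℝ) (hβ : 0 < β) (hk : 0 ≤ k) (hmix : ChainMix N d β k) :
    MixProp N d k β := by
  intro S1 S2 I u δ hδ
  have hδ3 : 0 < δ / 3 := by positivity
  have hβ0 : 0 < β := hβ
  set R : ℕ := I.sup (fun q => l1 q.2 0) with hRd
  have hR : ∀ q ∈ I, l1 q.2 0 ≤ R := fun q hq => Finset.le_sup (f := fun q => l1 q.2 0) hq
  have hCF : 0 ≤ ∑ q ∈ I, (2 + ‖u q‖) := Finset.sum_nonneg fun q _ => by positivity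
  obtain ⟨hp1, hz1, hi1⟩ := MixSde_rho S1.dyn S1.init
  obtain ⟨hp2, hz2, hi2⟩ := MixSde_rho S2.dyn S2.init
  obtain ⟨T0c, L0, hT0c, hRL0, hk0, hcm⟩ := hmix (S1.P.map (S1.H 0 0))
    (S2.P.map (S2.H 0 0)) hz1 hz2 hi1 hi2 R I.card (∑ q ∈ I, (2 + ‖u q‖)) (δ / 3) hCF hδ3
  refine ⟨⟨T0c + 1, by positivity⟩, fun T hT s1 s2 Z hZ hZ1 => ?_⟩
  have hTr : T0c + 1 ≤ (T : ℝ) := by exact_mod_cast hT
  set S : ℝ≥0 := max s1 s2 + T + ∑ q ∈ I, q.1 + 2 with hSd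
  have hq1 : ∀ q ∈ I, q.1 ≤ ∑ q ∈ I, q.1 := fun q hq =>
    Finset.single_le_sum (f := fun q : ℝ≥0 × Site d => q.1) (fun _ _ => zero_le) hq
  have h12 : (1 : ℝ≥0) ≤ 2 := by norm_num
  have hS1 : ∀ q ∈ I, s1 + T + q.1 + 1 ≤ S := fun q hq =>
    add_le_add (add_le_add (add_le_add (le_max_left _ _) le_rfl) (hq1 q hq)) h12
  have hS2 : ∀ q ∈ I, s2 + T + q.1 + 1 ≤ S := fun q hq =>
    add_le_add (add_le_add (add_le_add (le_max_right _ _) le_rfl) (hq1 q hq)) h12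
  obtain ⟨L1, hL1⟩ := ms_approx hβ hk S1.dyn I u S R hR (δ / 3) hδ3
  obtain ⟨L1', hL1'⟩ := ms_approx hβ hk S2.dyn I u S R hR (δ / 3) hδ3
  obtain ⟨L, hLR, hkL, hL0, hLa, hLb⟩ : ∃ L : ℕ, R ≤ L ∧ (k = 0 → L = R) ∧ L0 ≤ L ∧
      (L1 ≤ L ∨ (k = 0 ∧ R ≤ L)) ∧ (L1' ≤ L ∨ (k = 0 ∧ R ≤ L)) := by
    by_cases hk00 : k = 0
    · exact ⟨R, le_rfl, fun _ => rfl, (hk0 hk00).le, Or.inr ⟨hk00, le_rfl⟩,
        Or.inr ⟨hk00, le_rfl⟩⟩
    · exact ⟨max L0 (max L1 L1'), hRL0.trans (le_max_left _ _), fun h => absurd h hk00,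
        le_max_left _ _, Or.inl ((le_max_left _ _).trans (le_max_right _ _)),
        Or.inl ((le_max_right _ _).trans (le_max_right _ _))⟩
  obtain ⟨h01, hh01, ha1⟩ := hL1 L hLa
  obtain ⟨h02, hh02, ha2⟩ := hL1' L hLb
  obtain ⟨h0c, hh0c, hc⟩ := hcm L hkL hL0 (S : ℝ) (NNReal.coe_nonneg S)
  obtain ⟨h, hh, hle1, hle2, hlec, hleo⟩ : ∃ h : ℝ≥0, 0 < h ∧ h ≤ h01 ∧ h ≤ h02 ∧ (h : ℝ) < h0c ∧
      h ≤ 1 := by
    refine ⟨min (min h01 h02) (min (h0c / 2).toNNReal 1), ?_, ?_, ?_, ?_, ?_⟩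
    · refine lt_min (lt_min hh01 hh02) (lt_min ?_ zero_lt_one)
      rw [Real.toNNReal_pos]
      positivity
    · exact (min_le_left _ _).trans (min_le_left _ _)
    · exact (min_le_left _ _).trans (min_le_right _ _)
    · have h5 : ((min (min h01 h02) (min (h0c / 2).toNNReal 1) : ℝ≥0) : ℝ) ≤
          ((h0c / 2).toNNReal : ℝ≥0) := by
        exact_mod_cast (min_le_right _ _).trans (min_le_left _ _)
      rw [Real.coe_toNNReal _ (by positivity)] at h5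
      linarith
    · exact (min_le_right _ _).trans (min_le_right _ _)
  have hhr : (0 : ℝ) < h := by exact_mod_cast hh
  set idx : ℝ≥0 × Site d → ℕ := fun q => ⌊(T + q.1) / h⌋₊ with hidx
  set M : ℕ := ⌊(T + ∑ q ∈ I, q.1) / h⌋₊ + 1 with hM
  have hMi : ∀ q ∈ I, ⌊(T + q.1) / h⌋₊ < M := by
    intro q hq
    refine Nat.lt_succ_of_le (Nat.floor_mono ?_)
    exact div_le_div_of_nonneg_right (add_le_add le_rfl (hq1 q hq)) zero_le
  have hfl : ∀ x : ℝ≥0, ((⌊x / h⌋₊ : ℕ) : ℝ≥0) * h ≤ x := fun x => by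
    have h5 : ((⌊x / h⌋₊ : ℕ) : ℝ≥0) ≤ x / h := Nat.floor_le zero_le
    calc ((⌊x / h⌋₊ : ℕ) : ℝ≥0) * h ≤ x / h * h := mul_le_mul_left h5 h
      _ = x := div_mul_cancel₀ x hh.ne'
  have hfl2 : ∀ x : ℝ≥0, (x : ℝ) - h ≤ ((⌊x / h⌋₊ : ℕ) : ℝ) * h := fun x => by
    have h5 : x / h < ((⌊x / h⌋₊ : ℕ) : ℝ≥0) + 1 := Nat.lt_floor_add_one _
    have h6 : ((x / h : ℝ≥0) : ℝ) < ((⌊x / h⌋₊ : ℕ) : ℝ) + 1 := by exact_mod_cast h5
    rw [NNReal.coe_div, div_lt_iff₀ hhr] at h6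
    linarith
  have hce : ∀ x : ℝ≥0, x ≤ ((⌈x / h⌉₊ : ℕ) : ℝ≥0) * h := fun x => by
    have h5 : x / h ≤ ((⌈x / h⌉₊ : ℕ) : ℝ≥0) := Nat.le_ceil _
    calc x = x / h * h := (div_mul_cancel₀ x hh.ne').symm
      _ ≤ _ := mul_le_mul_left h5 h
  have hce2 : ∀ x : ℝ≥0, ((⌈x / h⌉₊ : ℕ) : ℝ) * h ≤ (x : ℝ) + h := fun x => by
    have h5 : ((⌈x / h⌉₊ : ℕ) : ℝ≥0) < x / h + 1 := Nat.ceil_lt_add_one zero_le
    have h6 : ((⌈x / h⌉₊ : ℕ) : ℝ) < ((x / h : ℝ≥0) : ℝ) + 1 := by exact_mod_cast h5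
    rw [NNReal.coe_div] at h6
    have h7 : ((⌈x / h⌉₊ : ℕ) : ℝ) * h ≤ ((x : ℝ) / h + 1) * h :=
      mul_le_mul_of_nonneg_right h6.le hhr.le
    rw [add_mul, div_mul_cancel₀ _ hhr.ne', one_mul] at h7
    exact h7
  have hhr1 : (h : ℝ) ≤ 1 := by exact_mod_cast hleo
  have hSr : (S : ℝ) = max (s1 : ℝ) s2 + T + ((∑ q ∈ I, q.1 : ℝ≥0) : ℝ) + 2 := by
    rw [hSd]
    push_cast
    rfl
  have hsum0 : (0 : ℝ) ≤ ((∑ q ∈ I, q.1 : ℝ≥0) : ℝ) := NNReal.coe_nonneg _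
  have hn1 : ((⌈s1 / h⌉₊ : ℕ) : ℝ) * h ≤ S := by
    have h5 := hce2 s1
    have h6 := le_max_left (s1 : ℝ) s2
    have h7 : (0 : ℝ) ≤ T := T.2
    rw [hSr]
    linarith
  have hn2 : ((⌈s2 / h⌉₊ : ℕ) : ℝ) * h ≤ S := by
    have h5 := hce2 s2
    have h6 := le_max_right (s1 : ℝ) s2
    have h7 : (0 : ℝ) ≤ T := T.2
    rw [hSr]
    linarith
  have hMh : (M : ℝ) * h ≤ S := by
    have h5 : ((⌊(T + ∑ q ∈ I, q.1) / h⌋₊ : ℕ) : ℝ) * h ≤ ((T + ∑ q ∈ I, q.1 : ℝ≥0) : ℝ) := by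
      exact_mod_cast hfl (T + ∑ q ∈ I, q.1)
    have h6 : (0 : ℝ) ≤ max (s1 : ℝ) s2 := le_max_of_le_left s1.2
    rw [hSr, hM]
    push_cast at h5 ⊢
    linarith
  have hx1 := ha1 h hh hle1 T s1 M hS1 hMi Z (hZ.mono (S1.ℱ.le _) le_rfl) hZ1
  have hx2 := ha2 h hh hle2 T s2 M hS2 hMi (fun _ => 1) measurable_const (fun _ => by simp)
  have hcore := MixSde_core hβ0 S1.dyn S2.dyn S1.init S2.init h L ⌈s1 / h⌉₊ ⌈s2 / h⌉₊ M
    (Fdisc I u idx) (Fdisc_meas I u idx) (fun i G => (Fdisc_norm I u idx i G).le) Z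
    (hZ.mono (S1.ℱ.mono (hce s1)) le_rfl) hZ1
  have hmx := hc h hhr hlec ⌈s1 / h⌉₊ ⌈s2 / h⌉₊ M hn1 hn2 hMh (Fdisc I u idx) (I.image idx)
    Finset.card_image_le (Fdisc_meas I u idx) (fun i G => (Fdisc_norm I u idx i G).le)
    (fun i hi => Fdisc_one I u idx i hi) (by
      intro i hi
      refine ⟨?_, fun G G' => Fdisc_lip I u idx R hR hLR i G G'⟩
      obtain ⟨q, _, rfl⟩ := Finset.mem_image.mp hi
      have h5 := hfl2 (T + q.1)
      have h6 : (0 : ℝ) ≤ q.1 := q.1.2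
      push_cast at h5
      show T0c ≤ ((⌊(T + q.1) / h⌋₊ : ℕ) : ℝ) * h
      linarith)
  have hP1 := S1.dyn.prob
  have hZn : ‖∫ ω, Z ω ∂S1.P‖ ≤ 1 := by
    refine (norm_integral_le_of_norm_le_const (C := 1) (Filter.Eventually.of_forall hZ1)).trans ?_
    simp
  simp only [one_mul] at hx2 hcore
  have hfin := hcore.trans hmx
  set A1 := ∫ ω, Z ω * Xf' S1.H I u (s1 + T) ω ∂S1.P with hA1
  set X2 := ∫ ω, Xf' S2.H I u (s2 + T) ω ∂S2.P with hX2
  set c1 := ∫ ω, Z ω ∂S1.P with hc1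
  generalize (∫ ω, Z ω * ∏ i ∈ Finset.range M, Fdisc I u idx i
          (rc β k h L S1.B (S1.H 0) (⌈s1 / h⌉₊ + i) ω) ∂S1.P) = Y1 at hx1 hfin
  generalize (∫ ω, ∏ i ∈ Finset.range M, Fdisc I u idx i
          (rc β k h L S2.B (S2.H 0) (⌈s2 / h⌉₊ + i) ω) ∂S2.P) = Y2 at hx2 hfin
  have e : A1 - c1 * X2 = (A1 - Y1) + (Y1 - c1 * Y2) + -(c1 * (X2 - Y2)) := by ring
  rw [e]
  refine (norm_add₃_le).trans ?_
  rw [norm_neg, norm_mul]
  have h9 : ‖c1‖ * ‖X2 - Y2‖ ≤ δ / 3 :=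
    (mul_le_of_le_one_left (norm_nonneg _) hZn).trans hx2
  linarith

end DynB

end

/-! ### from `Lib_MP_36b788g.FGood` -/

section

/-!
# The field `good` of a block

PROOF of `good_field`. `c x y = 16 CV cd (if dist x y ≤ Rb then γ^θ + √BD p^{1/4} else √BD e^{-(5/8) a dist x y})`; `Σ_y c x y ≤ 16 CV cd ((2Rb+1)^d (γ^θ + √BD p^{1/4}) + √BD e^{-(a/2) Rb} cd) ≤ 1/16 + 1/16 + 1/16` (`sum_near_far`, `hn1`, `hn2`, `hn3`).
`C` of `lin_sum` with `Sm = TB + 1`; `CL = max 1 (4 card C)`. Given `ε0`: `h0` = minimum of `1`, the one of `lin_sum`, of `exit_bd` with `ε0/2`, of `H`. Then `n = ⌈TB/h⌉₊` satisfies `n h ≤ TB + h ≤ TB + 1`.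
`pn_pair` for the pair `(G, G')`, `split3` for each `x`: `Σ_x 4 A_x · 4 CV cd (…) D0^θ = (Σ_x A_x c x y) D0^θ`. Additive part: `2 card ε (1 + 2 C Σ0) + 2 (ε0/2)(1 + Σ0) ≤ (4 card C ε + ε0)(1 + Σ0)`, `Σ0 = Σ_x(‖G x‖ + ‖G' x‖)` (`C ≥ 1`).
Finally leave `ENNReal` (`ENNReal.ofReal_le_ofReal_iff`, all terms are finite and nonnegative).
-/

open MeasureTheory ProbabilityTheory
open scoped ENNReal

namespace DynG

open Dyn DynC

variable {d L : ℕ}

private theorem FGood_sum (d L : ℕ) (a cd CV BD p γ θ : ℝ) (ha : 0 < a) (hCV : 0 ≤ CV)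
    (hcd1 : 1 ≤ cd) (hp : 0 ≤ p) (hγ : 0 ≤ γ)
    (hcd : ∀ x : boxS d L, ∑ z, Real.exp (-(a / 8)) ^ (boxNet d L).dist x z ≤ cd) (Rb : ℕ)
    (hn1 : 256 * CV * cd * (2 * (Rb : ℝ) + 1) ^ d * γ ^ θ ≤ 1)
    (hn2 : 256 * CV * cd * (2 * (Rb : ℝ) + 1) ^ d * (Real.sqrt BD * p ^ (1 / 4 : ℝ)) ≤ 1)
    (hn3 : 256 * CV * cd ^ 2 * Real.sqrt BD * Real.exp (-(a / 2 * Rb)) ≤ 1)
    (x : boxS d L) :
    ∑ y, (16 * CV * cd * (if (boxNet d L).dist x y ≤ Rb then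
        γ ^ θ + Real.sqrt BD * p ^ (1 / 4 : ℝ) else
        Real.sqrt BD * Real.exp (-(5 / 8 * a * (boxNet d L).dist x y)))) ≤ 1 / 4 := by
  have hu : 0 ≤ γ ^ θ + Real.sqrt BD * p ^ (1 / 4 : ℝ) := by positivity
  have hs := sum_near_far d L a cd (γ ^ θ + Real.sqrt BD * p ^ (1 / 4 : ℝ)) (Real.sqrt BD) ha hu
    (Real.sqrt_nonneg _) hcd Rb x
  rw [← Finset.mul_sum]
  have h16 : 0 ≤ 16 * CV * cd := by positivity
  have h1 := mul_le_mul_of_nonneg_left hs h16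
  refine h1.trans ?_
  have e : 16 * CV * cd * ((2 * (Rb : ℝ) + 1) ^ d * (γ ^ θ + Real.sqrt BD * p ^ (1 / 4 : ℝ)) +
      Real.sqrt BD * Real.exp (-(a / 2 * Rb)) * cd) =
      (256 * CV * cd * (2 * (Rb : ℝ) + 1) ^ d * γ ^ θ) / 16 +
      (256 * CV * cd * (2 * (Rb : ℝ) + 1) ^ d * (Real.sqrt BD * p ^ (1 / 4 : ℝ))) / 16 +
      (256 * CV * cd ^ 2 * Real.sqrt BD * Real.exp (-(a / 2 * Rb))) / 16 := by
    ring
  rw [e]
  linarith

theorem good_field (N : ℕ) {F : Fam d} {β k : ℝ} (S : PSys F β k)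
    (hB : BNoise N S.ν S.b S.gd) (hβ : 0 < β) (hk : 0 < k) (hk1 : k < 1)
    (q s a θ TB κ' CV K cd BD p γ : ℝ) (Rb : ℕ) (hq : 1 ≤ q) (hs : 0 < s) (hqs : q * s ≤ 1)
    (ha : 0 < a) (hθ : 0 < θ) (hTB : 0 < TB) (hκ : 0 ≤ κ')
    (hCV : 0 ≤ CV) (hK : 0 ≤ K) (hcd1 : 1 ≤ cd) (hBD : 1 ≤ BD) (hp : 0 ≤ p) (hγ : 0 ≤ γ)
    (hcd : ∀ x : boxS d L, ∑ z, Real.exp (-(a / 8)) ^ (boxNet d L).dist x z ≤ cd)
    (hκK : κ' * K * Real.exp (a / 8 * Rb) ≤ 2 * CV * cd)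
    (hn1 : 256 * CV * cd * (2 * (Rb : ℝ) + 1) ^ d * γ ^ θ ≤ 1)
    (hn2 : 256 * CV * cd * (2 * (Rb : ℝ) + 1) ^ d * (Real.sqrt BD * p ^ (1 / 4 : ℝ)) ≤ 1)
    (hn3 : 256 * CV * cd ^ 2 * Real.sqrt BD * Real.exp (-(a / 2 * Rb)) ≤ 1)
    (H : ∃ h0 : ℝ, 0 < h0 ∧ ∀ h, 0 < h → h < h0 →
      ∀ (G : (boxS d L → F.V) × (boxS d L → F.V)),
      (∀ z, ∫⁻ ω in S.alv h L G ⌈TB / h⌉₊, V1 k q s (S.tr h L G ω ⌈TB / h⌉₊) z ^ 2
            ∂(PI (S.mu L)) ≤ (ENNReal.ofReal κ' * V1 k q s G z + ENNReal.ofReal CV) ^ 2 ∧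
          ∫⁻ ω in S.alv h L G ⌈TB / h⌉₊, V2 k q s (S.tr h L G ω ⌈TB / h⌉₊) z ^ 2
            ∂(PI (S.mu L)) ≤ (ENNReal.ofReal κ' * V2 k q s G z + ENNReal.ofReal CV) ^ 2) ∧
      ∀ y : boxS d L, (∀ x, x ≠ y → G.1 x = G.2 x) →
        (∀ x, ∫⁻ ω, ENNReal.ofReal (‖(S.tr h L G ω ⌈TB / h⌉₊).1 x -
              (S.tr h L G ω ⌈TB / h⌉₊).2 x‖ ^ (2 * θ)) ∂(PI (S.mu L)) ≤
            ENNReal.ofReal (BD * Real.exp (-(3 / 2 * a * (boxNet d L).dist x y)) *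
              ‖G.1 y - G.2 y‖ ^ (2 * θ))) ∧
        (∀ x, ∫⁻ ω, ENNReal.ofReal (‖(S.tr h L G ω ⌈TB / h⌉₊).1 x -
              (S.tr h L G ω ⌈TB / h⌉₊).2 x‖ ^ (4 * θ)) ∂(PI (S.mu L)) ≤
            ENNReal.ofReal (BD ^ 2 * Real.exp (-(3 * a * (boxNet d L).dist x y)) *
              ‖G.1 y - G.2 y‖ ^ (4 * θ))) ∧
        (wpr (boxNet d L) k q s (Real.exp (-(a / 8))) G.1 G.2 y < ENNReal.ofReal K →
          ∀ x, (boxNet d L).dist x y ≤ Rb →
          PI (S.mu L) (S.alv h L G ⌈TB / h⌉₊ ∩ {ω | γ * ‖G.1 y - G.2 y‖ <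
            ‖(S.tr h L G ω ⌈TB / h⌉₊).1 x - (S.tr h L G ω ⌈TB / h⌉₊).2 x‖}) ≤
          ENNReal.ofReal p)) :
    ∃ (CL : ℝ) (c : boxS d L → boxS d L → ℝ), 1 ≤ CL ∧ (∀ x y, 0 ≤ c x y) ∧
    (∀ x, ∑ y, c x y ≤ 1 / 4) ∧ ∀ ε0 : ℝ, 0 < ε0 → ∃ h0 : ℝ, 0 < h0 ∧
    ∀ h, 0 < h → h < h0 → ∀ (A : boxS d L → ℝ) (ε : ℝ) (f : (boxS d L → F.V) → ℂ),
      (∀ x, 0 ≤ A x) → 0 ≤ ε → Measurable f → (∀ G, ‖f G‖ ≤ 1) →
      Cls (boxNet d L) k q s (Real.exp (-(a / 8))) θ A ε f →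
      ∀ (G G' : boxS d L → F.V) (y : boxS d L), (∀ x, x ≠ y → G x = G' x) →
      wpr (boxNet d L) k q s (Real.exp (-(a / 8))) G G' y < ENNReal.ofReal K →
      ‖F.Pn h L ⌈TB / h⌉₊ f G - F.Pn h L ⌈TB / h⌉₊ f G'‖ ≤
        (∑ x, A x * c x y) * ‖G y - G' y‖ ^ θ +
          (CL * ε + ε0) * (1 + ∑ x, (‖G x‖ + ‖G' x‖)) := by
  obtain ⟨C, h1, hC1, hh1, hlin⟩ := lin_sum N hβ hk.le S hB L (TB + 1) (by linarith)
  obtain ⟨h3, hh3, hH⟩ := H
  refine ⟨max 1 (4 * (Fintype.card (boxS d L)) * C), fun x y => 16 * CV * cd *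
    (if (boxNet d L).dist x y ≤ Rb then γ ^ θ + Real.sqrt BD * p ^ (1 / 4 : ℝ) else
      Real.sqrt BD * Real.exp (-(5 / 8 * a * (boxNet d L).dist x y))), le_max_left _ _, ?_, ?_, ?_⟩
  · intro x y
    have : 0 ≤ (if (boxNet d L).dist x y ≤ Rb then γ ^ θ + Real.sqrt BD * p ^ (1 / 4 : ℝ) else
      Real.sqrt BD * Real.exp (-(5 / 8 * a * (boxNet d L).dist x y))) := by
      split_ifs <;> positivity
    positivity
  · intro x
    exact FGood_sum d L a cd CV BD p γ θ ha hCV hcd1 hp hγ hcd Rb hn1 hn2 hn3 x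
  intro ε0 hε0
  obtain ⟨h2, hh2, hex⟩ := exit_bd N hβ hk.le S hB L (TB + 1) (ε0 / 2) (by linarith) (by linarith)
  refine ⟨min 1 (min h1 (min h2 h3)), by positivity, ?_⟩
  intro h hh hhh A ε f hA hε hm hb hf G G' y hGG hw
  have hl0 : h < 1 := lt_of_lt_of_le hhh (min_le_left _ _)
  have hl1 : h < h1 := lt_of_lt_of_le hhh ((min_le_right _ _).trans (min_le_left _ _))
  have hl2 : h < h2 := lt_of_lt_of_le hhh
    ((min_le_right _ _).trans ((min_le_right _ _).trans (min_le_left _ _)))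
  have hl3 : h < h3 := lt_of_lt_of_le hhh
    ((min_le_right _ _).trans ((min_le_right _ _).trans (min_le_right _ _)))
  have hn : (⌈TB / h⌉₊ : ℝ) * h ≤ TB + 1 := by
    have h5 : (⌈TB / h⌉₊ : ℝ) < TB / h + 1 := Nat.ceil_lt_add_one (by positivity)
    have h6 := mul_le_mul_of_nonneg_right h5.le hh.le
    have h7 : (TB / h + 1) * h = TB + h := by
      field_simp
    rw [h7] at h6
    linarith
  set n := ⌈TB / h⌉₊ with hndef
  have hα : 0 ≤ Real.exp (-(a / 8)) := (Real.exp_pos _).le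
  have hpair := pn_pair S h L n q s (Real.exp (-(a / 8))) θ hk hk1 hq hs hqs hα hθ A hA ε hε f hm
    hb hf (G, G')
  have hlin' := hlin h hh hl1 (G, G') n hn
  have hex' := hex h hh hl2 (G, G') n hn
  obtain ⟨hly, hy⟩ := hH h hh hl3 (G, G')
  obtain ⟨hg2, hg4, hcore⟩ := hy y hGG
  have hcore' := hcore hw
  have hsp := split3 S h n q s a θ κ' CV K cd BD p γ Rb ha hθ hκ hCV hK hBD hp hγ hcd hκK (G, G') y
    hw hly hg2 hg4 hcore'
  simp only at hpair hlin' hex' hsp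
  set T0 : ℝ := ∑ x, (‖G x‖ + ‖G' x‖) with hTd
  have hT0 : 0 ≤ T0 := Finset.sum_nonneg fun x _ => add_nonneg (norm_nonneg _) (norm_nonneg _)
  set D0 : ℝ := ‖G y - G' y‖ with hD0
  have hD0θ : 0 ≤ D0 ^ θ := Real.rpow_nonneg (norm_nonneg _) _
  set cc : boxS d L → ℝ := fun x => (if (boxNet d L).dist x y ≤ Rb then
      γ ^ θ + Real.sqrt BD * p ^ (1 / 4 : ℝ) else
      Real.sqrt BD * Real.exp (-(5 / 8 * a * (boxNet d L).dist x y))) with hcc
  have hcc0 : ∀ x, 0 ≤ cc x := fun x => by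
    simp only [hcc]
    split_ifs <;> positivity
  set cb : ℝ := (Fintype.card (boxS d L) : ℝ) with hcb
  have hcb0 : 0 ≤ cb := Nat.cast_nonneg _
  have hcd0 : 0 ≤ cd := zero_le_one.trans hcd1
  have hC0 : 0 ≤ C := zero_le_one.trans hC1
  -- the main term
  have hA1 : ∑ x, ENNReal.ofReal (4 * A x) * ∫⁻ ω in S.alv h L (G, G') n,
          ENNReal.ofReal (‖(S.tr h L (G, G') ω n).1 x - (S.tr h L (G, G') ω n).2 x‖ ^ θ) *
            wpr (boxNet d L) k q s (Real.exp (-(a / 8))) (S.tr h L (G, G') ω n).1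
              (S.tr h L (G, G') ω n).2 x ∂(PI (S.mu L)) ≤
      ENNReal.ofReal ((∑ x, A x * (16 * CV * cd * cc x)) * D0 ^ θ) := by
    rw [Finset.sum_mul, ENNReal.ofReal_sum_of_nonneg (fun x _ => by
      have := hA x
      have := hcc0 x
      positivity)]
    refine Finset.sum_le_sum fun x _ => ?_
    refine (mul_le_mul_right (hsp x) _).trans (le_of_eq ?_)
    rw [← ENNReal.ofReal_mul (mul_nonneg (by norm_num) (hA x))]
    congr 1
    simp only [hcc]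
    ring
  -- the additive term
  have hA2 : ENNReal.ofReal (2 * cb * ε) *
          (1 + 2 * ∫⁻ ω, ENNReal.ofReal (∑ x, (‖(S.tr h L (G, G') ω n).1 x‖ +
            ‖(S.tr h L (G, G') ω n).2 x‖)) ∂(PI (S.mu L))) + 2 * PI (S.mu L) (S.alv h L (G, G') n)ᶜ
      ≤ ENNReal.ofReal ((max 1 (4 * cb * C) * ε + ε0) * (1 + T0)) := by
    have h8 : ENNReal.ofReal (2 * cb * ε) *
          (1 + 2 * ∫⁻ ω, ENNReal.ofReal (∑ x, (‖(S.tr h L (G, G') ω n).1 x‖ +
            ‖(S.tr h L (G, G') ω n).2 x‖)) ∂(PI (S.mu L))) ≤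
        ENNReal.ofReal (2 * cb * ε * (1 + 2 * (C * T0))) := by
      have h20 : (0 : ℝ) ≤ 2 * cb * ε := by positivity
      rw [ENNReal.ofReal_mul (q := 1 + 2 * (C * T0)) h20,
        ENNReal.ofReal_add zero_le_one (by positivity),
        ENNReal.ofReal_mul (by norm_num : (0 : ℝ) ≤ 2), ENNReal.ofReal_one, ENNReal.ofReal_ofNat]
      gcongr
    have h9 : 2 * PI (S.mu L) (S.alv h L (G, G') n)ᶜ ≤ ENNReal.ofReal (ε0 * (1 + T0)) := by
      calc 2 * PI (S.mu L) (S.alv h L (G, G') n)ᶜ ≤ 2 * ENNReal.ofReal (ε0 / 2 * (1 + T0)) := by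
            gcongr
        _ = ENNReal.ofReal (ε0 * (1 + T0)) := by
            rw [← ENNReal.ofReal_ofNat 2, ← ENNReal.ofReal_mul (by norm_num)]
            congr 1
            ring
    refine (add_le_add h8 h9).trans ?_
    rw [← ENNReal.ofReal_add (by positivity) (by positivity)]
    refine ENNReal.ofReal_le_ofReal ?_
    have h10 : 2 * cb * ε * (1 + 2 * (C * T0)) ≤ 4 * cb * C * ε * (1 + T0) := by
      have h11 : 0 ≤ cb * ε := mul_nonneg hcb0 hε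
      have h12 : 2 * (1 + 2 * (C * T0)) ≤ 4 * C * (1 + T0) := by nlinarith
      have := mul_le_mul_of_nonneg_left h12 h11
      linarith
    have h13 : 4 * cb * C * ε * (1 + T0) ≤ max 1 (4 * cb * C) * ε * (1 + T0) := by
      have := le_max_right 1 (4 * cb * C)
      gcongr
    linarith
  have hfin : ENNReal.ofReal ‖F.Pn h L n f G - F.Pn h L n f G'‖ ≤
      ENNReal.ofReal ((∑ x, A x * (16 * CV * cd * cc x)) * D0 ^ θ +
        (max 1 (4 * cb * C) * ε + ε0) * (1 + T0)) := by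
    have hpos1 : 0 ≤ (∑ x, A x * (16 * CV * cd * cc x)) * D0 ^ θ := by
      refine mul_nonneg (Finset.sum_nonneg fun x _ => ?_) hD0θ
      have := hA x
      have := hcc0 x
      positivity
    rw [ENNReal.ofReal_add hpos1 (by positivity)]
    exact hpair.trans (add_le_add hA1 hA2)
  refine (ENNReal.ofReal_le_ofReal_iff ?_).1 hfin
  refine add_nonneg (mul_nonneg (Finset.sum_nonneg fun x _ => ?_) hD0θ) (by positivity)
  have := hA x
  have := hcc0 x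
  positivity

end DynG

end

/-! ### from `Lib_MP_36b788b.HTight` -/

section

/-!
# HTIGHT: uniform second moment

PROOF. `k0 =` that of r2_drift (`Noise2` for the Gaussian: gauss_noise2), its `h0, C0`. First `x = 0`. For the box chain with the Gaussian,
`∫ R2f(G)_0 dchainLaw n ≤ (1-h/2)^n∫R2f(G)_0 dρ^L + 2C0 ≤ 3^dσ² + 2C0`, `σ² = ∫‖H_0(0)‖²` (`R2f ≥ 0`; induction on `n`:
`∫ f dchainLaw (n+1) = ∫∫ f(stp G ξ)dγ^ι dchainLaw n`, `integral_map`, `integral_prod`; integrability by the same induction), and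
`‖G_0‖² ≤ R2f(G)_0`. law_chain: the same bound for `∫‖rc_n(0)‖² dP`. strong_conv (`T := t`): for `h = t/n`, `n → ∞` and then `L → ∞`
`∫‖H_t(0)-rc_n(0)‖² ≤ C(δ+k²2^{-L}) ≤ 1`, so `∫‖H_t(0)‖² ≤ 2(3^dσ²+2C0)+2`. (`t = 0` is clear.) For other `x` use dynamo_shift
and init_shift (`ident`: `∫‖H_0(x)‖² = σ²`).
-/

open MeasureTheory ProbabilityTheory Filter
open scoped NNReal ENNReal Topology

namespace DynB

open Dyn

private theorem HTight_R2 {Ω : Type} [mΩ : MeasurableSpace Ω] {P : Measure Ω} {N d : ℕ} {k β : ℝ}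
    {ℱ : Filtration ℝ≥0 mΩ} {B : Site d → Fin N → Fin N → ℝ≥0 → Ω → ℝ}
    {H : ℝ≥0 → Site d → Ω → E N} (hβ : 0 < β) (hH : IsDynamo P k 1 β ℱ B H) (h : ℝ≥0) (L n : ℕ)
    (x : boxS d L) :
    Integrable (fun ω => R2f (boxNet d L) (rc β k h L B (H 0) n ω) x) P := by
  unfold R2f
  refine integrable_finsetSum _ fun z _ => ?_
  exact (((SdeSt_rc hβ hH h L n z).2).integrable_norm_pow (p := 2) (by norm_num)).const_mul _

private theorem HTight_meas {N d : ℕ} {ι : Type} [Fintype ι] (net : Net ι d) (x : ι) :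
    Measurable (fun G : ι → E N => R2f net G x) := by
  unfold R2f
  refine Finset.measurable_sum _ fun z _ => ?_
  exact measurable_const.mul ((measurable_pi_apply z).norm.pow_const 2)

private theorem HTight_step {Ω : Type} [mΩ : MeasurableSpace Ω] {P : Measure Ω} {N d : ℕ} {k β : ℝ}
    {ℱ : Filtration ℝ≥0 mΩ} {B : Site d → Fin N → Fin N → ℝ≥0 → Ω → ℝ}
    {H : ℝ≥0 → Site d → Ω → E N} (hβ : 0 < β) (hH : IsDynamo P k 1 β ℱ B H)
    (hI : IsInit P (H 0)) (h : ℝ≥0) (C : ℝ) (L n : ℕ) (x : boxS d L)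
    (hdr : ∀ G : boxS d L → E N,
      Integrable (fun ξ => R2f (boxNet d L) (stp (boxNet d L) β h k G ξ) x)
        (pim (boxS d L) (stdGaussian (E N))) ∧
      ∫ ξ, R2f (boxNet d L) (stp (boxNet d L) β h k G ξ) x ∂(pim (boxS d L) (stdGaussian (E N))) ≤
        (1 - 1 / 2 * (h : ℝ)) * R2f (boxNet d L) G x + C * h) :
    ∫ ω, R2f (boxNet d L) (rc β k h L B (H 0) (n + 1) ω) x ∂P ≤
      (1 - 1 / 2 * (h : ℝ)) * ∫ ω, R2f (boxNet d L) (rc β k h L B (H 0) n ω) x ∂P + C * h := by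
  have hP := hH.prob
  have hβ0 : 0 < β := by linarith
  have hrcm : ∀ n, Measurable (rc β k h L B (H 0) n) := fun n =>
    (rc_adapted hβ0 hH h L n).mono (ℱ.le _) le_rfl
  have hRm := HTight_meas (N := N) (boxNet d L) x
  have hst := (stp_continuous (N := N) hβ0 (NNReal.coe_nonneg h) k (boxNet d L)).measurable
  have hpim : IsProbabilityMeasure (pim (boxS d L) (stdGaussian (E N))) := by
    unfold pim
    infer_instance
  have hPn : IsProbabilityMeasure (P.map (rc β k h L B (H 0) n)) :=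
    Measure.isProbabilityMeasure_map (hrcm n).aemeasurable
  have hch : P.map (rc β k h L B (H 0) (n + 1)) =
      ((P.map (rc β k h L B (H 0) n)).prod (pim (boxS d L) (stdGaussian (E N)))).map
        (fun q => stp (boxNet d L) β h k q.1 q.2) := by
    rw [law_chain hβ0 hH hI h L (n + 1), law_chain hβ0 hH hI h L n]
    rfl
  have hi1 : Integrable (fun G : boxS d L → E N => R2f (boxNet d L) G x)
      (P.map (rc β k h L B (H 0) (n + 1))) :=
    (integrable_map_measure hRm.aestronglyMeasurable (hrcm _).aemeasurable).2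
      (HTight_R2 hβ hH h L (n + 1) x)
  have hi0 : Integrable (fun G : boxS d L → E N => R2f (boxNet d L) G x)
      (P.map (rc β k h L B (H 0) n)) :=
    (integrable_map_measure hRm.aestronglyMeasurable (hrcm _).aemeasurable).2
      (HTight_R2 hβ hH h L n x)
  have hi2 : Integrable (fun q : (boxS d L → E N) × (boxS d L → E N) =>
      R2f (boxNet d L) (stp (boxNet d L) β h k q.1 q.2) x)
      ((P.map (rc β k h L B (H 0) n)).prod (pim (boxS d L) (stdGaussian (E N)))) := by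
    rw [hch] at hi1
    exact (integrable_map_measure hRm.aestronglyMeasurable hst.aemeasurable).1 hi1
  have e1 : ∫ ω, R2f (boxNet d L) (rc β k h L B (H 0) (n + 1) ω) x ∂P =
      ∫ G, R2f (boxNet d L) G x ∂(P.map (rc β k h L B (H 0) (n + 1))) :=
    (integral_map (hrcm _).aemeasurable hRm.aestronglyMeasurable).symm
  have e2 : ∫ G, R2f (boxNet d L) G x ∂(P.map (rc β k h L B (H 0) (n + 1))) =
      ∫ G, ∫ ξ, R2f (boxNet d L) (stp (boxNet d L) β h k G ξ) x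
        ∂(pim (boxS d L) (stdGaussian (E N))) ∂(P.map (rc β k h L B (H 0) n)) := by
    rw [hch, integral_map hst.aemeasurable hRm.aestronglyMeasurable, integral_prod _ hi2]
  have e3 : ∫ G, ∫ ξ, R2f (boxNet d L) (stp (boxNet d L) β h k G ξ) x
        ∂(pim (boxS d L) (stdGaussian (E N))) ∂(P.map (rc β k h L B (H 0) n)) ≤
      ∫ G, ((1 - 1 / 2 * (h : ℝ)) * R2f (boxNet d L) G x + C * h)
        ∂(P.map (rc β k h L B (H 0) n)) :=
    integral_mono hi2.integral_prod_left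
      ((hi0.const_mul (1 - 1 / 2 * (h : ℝ))).add (integrable_const (C * (h : ℝ))))
      (fun G => (hdr G).2)
  have e4 : ∫ G, ((1 - 1 / 2 * (h : ℝ)) * R2f (boxNet d L) G x + C * h)
        ∂(P.map (rc β k h L B (H 0) n)) =
      (1 - 1 / 2 * (h : ℝ)) * ∫ G, R2f (boxNet d L) G x ∂(P.map (rc β k h L B (H 0) n)) +
        C * h := by
    rw [integral_add (hi0.const_mul _) (integrable_const _), integral_const_mul, integral_const]
    simp
  have e5 : ∫ G, R2f (boxNet d L) G x ∂(P.map (rc β k h L B (H 0) n)) =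
      ∫ ω, R2f (boxNet d L) (rc β k h L B (H 0) n ω) x ∂P :=
    integral_map (hrcm _).aemeasurable hRm.aestronglyMeasurable
  rw [e1, e2]
  refine e3.trans (le_of_eq ?_)
  rw [e4, e5]

private theorem HTight_zero {Ω : Type} [mΩ : MeasurableSpace Ω] {P : Measure Ω} {N d : ℕ} {k β : ℝ}
    {ℱ : Filtration ℝ≥0 mΩ} {B : Site d → Fin N → Fin N → ℝ≥0 → Ω → ℝ}
    {H : ℝ≥0 → Site d → Ω → E N} (hβ : 0 < β) (hH : IsDynamo P k 1 β ℱ B H)
    (hI : IsInit P (H 0)) (h : ℝ≥0) (L : ℕ) (x : boxS d L) :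
    ∫ ω, R2f (boxNet d L) (rc β k h L B (H 0) 0 ω) x ∂P ≤ 3 ^ d * ∫ ω, ‖H 0 0 ω‖ ^ 2 ∂P := by
  have hid : ∀ z : Site d, ∫ ω, ‖H 0 z ω‖ ^ 2 ∂P = ∫ ω, ‖H 0 0 ω‖ ^ 2 ∂P := fun z =>
    ((hI.ident z).comp (measurable_norm.pow_const 2)).integral_eq
  unfold R2f
  rw [integral_finsetSum _ fun z _ =>
    (((SdeSt_rc hβ hH h L 0 z).2).integrable_norm_pow (p := 2) (by norm_num)).const_mul _]
  have h1 : ∀ z : boxS d L, ∫ ω, (1 / 2 : ℝ) ^ (boxNet d L).dist x z *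
      ‖rc β k h L B (H 0) 0 ω z‖ ^ 2 ∂P =
      (1 / 2 : ℝ) ^ (boxNet d L).dist x z * ∫ ω, ‖H 0 0 ω‖ ^ 2 ∂P := by
    intro z
    rw [integral_const_mul]
    congr 1
    exact hid z
  rw [Finset.sum_congr rfl fun z _ => h1 z, ← Finset.sum_mul]
  exact mul_le_mul_of_nonneg_right ((boxNet d L).sum_half x)
    (integral_nonneg fun ω => by positivity)

private theorem HTight_origin {Ω : Type} [mΩ : MeasurableSpace Ω] {P : Measure Ω} {N d : ℕ}
    {k β h0 C : ℝ}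
    {ℱ : Filtration ℝ≥0 mΩ} {B : Site d → Fin N → Fin N → ℝ≥0 → Ω → ℝ}
    {H : ℝ≥0 → Site d → Ω → E N} (hβ : 0 < β) (hk : 0 ≤ k) (hH : IsDynamo P k 1 β ℱ B H)
    (hI : IsInit P (H 0)) (hh0 : 0 < h0) (hh1 : h0 ≤ 1) (hC : 0 < C)
    (hdr : ∀ (L : ℕ) (h : ℝ), 0 < h → h < h0 → ∀ (G : boxS d L → E N) (x : boxS d L),
      Integrable (fun ξ => R2f (boxNet d L) (stp (boxNet d L) β h k G ξ) x)
        (pim (boxS d L) (stdGaussian (E N))) ∧
      ∫ ξ, R2f (boxNet d L) (stp (boxNet d L) β h k G ξ) x ∂(pim (boxS d L) (stdGaussian (E N))) ≤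
        (1 - 1 / 2 * h) * R2f (boxNet d L) G x + C * h) (t : ℝ≥0) :
    ∫ ω, ‖H t 0 ω‖ ^ 2 ∂P ≤ 2 * (3 ^ d * ∫ ω, ‖H 0 0 ω‖ ^ 2 ∂P + 2 * C) + 2 := by
  have hP := hH.prob
  have hσ : 0 ≤ ∫ ω, ‖H 0 0 ω‖ ^ 2 ∂P := integral_nonneg fun ω => by positivity
  set σ : ℝ := ∫ ω, ‖H 0 0 ω‖ ^ 2 ∂P with hσd
  have h3 : (1 : ℝ) ≤ 3 ^ d := one_le_pow₀ (by norm_num)
  rcases eq_or_lt_of_le (zero_le : 0 ≤ t) with ht | ht
  · rw [← ht, ← hσd]
    nlinarith
  -- the chain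
  have hchain : ∀ (h : ℝ≥0), 0 < h → (h : ℝ) < h0 → ∀ (L n : ℕ) (x : boxS d L),
      ∫ ω, R2f (boxNet d L) (rc β k h L B (H 0) n ω) x ∂P ≤ 3 ^ d * σ + 2 * C := by
    intro h hh hlt L n x
    have hhr : (0 : ℝ) < h := by exact_mod_cast hh
    induction n with
    | zero =>
      have := HTight_zero hβ hH hI h L x
      linarith
    | succ n ih =>
      have h4 := HTight_step hβ hH hI h C L n x (fun G => hdr L h hhr hlt G x)
      have h5 : (1 - 1 / 2 * (h : ℝ)) * ∫ ω, R2f (boxNet d L) (rc β k h L B (H 0) n ω) x ∂P ≤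
          (1 - 1 / 2 * (h : ℝ)) * (3 ^ d * σ + 2 * C) :=
        mul_le_mul_of_nonneg_left ih (by linarith)
      have h6 : 0 ≤ (h : ℝ) * (3 ^ d * σ) := by positivity
      nlinarith
  obtain ⟨C1, hC1, hsc⟩ := strong_conv hβ hk hH t
  obtain ⟨L, hL⟩ : ∃ n : ℕ, k ^ 2 * (1 / 2 : ℝ) ^ n ≤ 1 / (2 * C1) := by
    have h1 : Tendsto (fun n : ℕ => k ^ 2 * (1 / 2 : ℝ) ^ n) atTop (𝓝 (k ^ 2 * 0)) :=
      (tendsto_pow_atTop_nhds_zero_of_lt_one (by norm_num) (by norm_num)).const_mul _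
    rw [mul_zero] at h1
    exact (h1.eventually_le_const (show (0 : ℝ) < 1 / (2 * C1) by positivity)).exists
  obtain ⟨h1, h1p, hs⟩ := hsc (1 / (2 * C1)) (by positivity)
  -- the time step
  have hmin : 0 < min h1 (Real.toNNReal (h0 / 2)) := lt_min h1p (by
    rw [Real.toNNReal_pos]
    positivity)
  obtain ⟨n, hn⟩ := exists_nat_gt (t / min h1 (Real.toNNReal (h0 / 2)))
  have hn0 : 0 < (n : ℝ≥0) := lt_of_le_of_lt zero_le hn
  set h : ℝ≥0 := t / n with hhd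
  have hh : 0 < h := div_pos ht hn0
  have hhle : h ≤ min h1 (Real.toNNReal (h0 / 2)) := by
    rw [hhd, div_le_iff₀ hn0]
    rw [div_lt_iff₀ hmin] at hn
    rw [mul_comm]
    exact hn.le
  have hle1 : h ≤ h1 := hhle.trans (min_le_left _ _)
  have hlt0 : (h : ℝ) < h0 := by
    have h4 : h ≤ Real.toNNReal (h0 / 2) := hhle.trans (min_le_right _ _)
    have h5 : (h : ℝ) ≤ (Real.toNNReal (h0 / 2) : ℝ) := by exact_mod_cast h4
    rw [Real.coe_toNNReal _ (by positivity)] at h5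
    linarith
  have hnh : (n : ℝ≥0) * h = t := by
    rw [hhd, mul_div_cancel₀ _ hn0.ne']
  have h00 : (0 : Site d) ∈ boxS d L := by
    unfold boxS
    rw [Finset.mem_Icc, Pi.le_def, Pi.le_def]
    constructor
    · intro i
      simp
    · intro i
      simp
  obtain ⟨hm, hc⟩ := hs h hh hle1 L n hnh.le ⟨0, h00⟩
  rw [hnh] at hc
  have hl0 : l1 ((⟨0, h00⟩ : boxS d L) : Site d) 0 = 0 := by
    unfold l1
    simp
  rw [hl0, pow_zero, one_mul] at hc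
  have hc' : ∫ ω, ‖H t 0 ω - rc β k h L B (H 0) n ω ⟨0, h00⟩‖ ^ 2 ∂P ≤ 1 := by
    refine hc.trans ?_
    have h4 : C1 * (1 / (2 * C1) + k ^ 2 * (1 / 2) ^ L) ≤ C1 * (1 / (2 * C1) + 1 / (2 * C1)) :=
      mul_le_mul_of_nonneg_left (by linarith) hC1.le
    refine h4.trans (le_of_eq ?_)
    field_simp
    norm_num
  have hr : ∫ ω, ‖rc β k h L B (H 0) n ω ⟨0, h00⟩‖ ^ 2 ∂P ≤ 3 ^ d * σ + 2 * C := by
    refine le_trans ?_ (hchain h hh hlt0 L n ⟨0, h00⟩)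
    refine integral_mono (hm.integrable_norm_pow (p := 2) (by norm_num))
      (HTight_R2 hβ hH h L n ⟨0, h00⟩) fun ω => ?_
    show ‖rc β k h L B (H 0) n ω ⟨0, h00⟩‖ ^ 2 ≤ R2f (boxNet d L) (rc β k h L B (H 0) n ω) ⟨0, h00⟩
    unfold R2f
    have h4 := Finset.single_le_sum (f := fun z : boxS d L =>
      (1 / 2 : ℝ) ^ (boxNet d L).dist ⟨0, h00⟩ z * ‖rc β k h L B (H 0) n ω z‖ ^ 2)
      (fun z _ => by positivity) (Finset.mem_univ (⟨0, h00⟩ : boxS d L))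
    simp only [(boxNet d L).dist_self, pow_zero, one_mul] at h4
    exact h4
  obtain ⟨CH, _, hHL⟩ := H_L2 hH t
  have hmH := (hHL t le_rfl 0).1
  have i1 : Integrable (fun ω => ‖H t 0 ω - rc β k h L B (H 0) n ω ⟨0, h00⟩‖ ^ 2) P :=
    (hmH.sub hm).integrable_norm_pow (by norm_num)
  have i2 : Integrable (fun ω => ‖rc β k h L B (H 0) n ω ⟨0, h00⟩‖ ^ 2) P :=
    hm.integrable_norm_pow (by norm_num)
  have h6 : ∀ ω, ‖H t 0 ω‖ ^ 2 ≤ 2 * ‖H t 0 ω - rc β k h L B (H 0) n ω ⟨0, h00⟩‖ ^ 2 +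
      2 * ‖rc β k h L B (H 0) n ω ⟨0, h00⟩‖ ^ 2 := by
    intro ω
    have h7 : ‖H t 0 ω‖ ≤ ‖H t 0 ω - rc β k h L B (H 0) n ω ⟨0, h00⟩‖ +
        ‖rc β k h L B (H 0) n ω ⟨0, h00⟩‖ := by
      have := norm_add_le (H t 0 ω - rc β k h L B (H 0) n ω ⟨0, h00⟩)
        (rc β k h L B (H 0) n ω ⟨0, h00⟩)
      rwa [sub_add_cancel] at this
    nlinarith [norm_nonneg (H t 0 ω), norm_nonneg (H t 0 ω - rc β k h L B (H 0) n ω ⟨0, h00⟩),
      norm_nonneg (rc β k h L B (H 0) n ω ⟨0, h00⟩),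
      sq_nonneg (‖H t 0 ω - rc β k h L B (H 0) n ω ⟨0, h00⟩‖ -
        ‖rc β k h L B (H 0) n ω ⟨0, h00⟩‖)]
  have h7 := integral_mono (hmH.integrable_norm_pow (p := 2) (by norm_num))
    ((i1.const_mul 2).add (i2.const_mul 2)) h6
  have h8 : ∫ ω, (2 * ‖H t 0 ω - rc β k h L B (H 0) n ω ⟨0, h00⟩‖ ^ 2 +
      2 * ‖rc β k h L B (H 0) n ω ⟨0, h00⟩‖ ^ 2) ∂P =
      2 * ∫ ω, ‖H t 0 ω - rc β k h L B (H 0) n ω ⟨0, h00⟩‖ ^ 2 ∂P +
      2 * ∫ ω, ‖rc β k h L B (H 0) n ω ⟨0, h00⟩‖ ^ 2 ∂P := by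
    rw [integral_add (i1.const_mul 2) (i2.const_mul 2), integral_const_mul, integral_const_mul]
  have h9 : ∫ ω, ‖H t 0 ω‖ ^ 2 ∂P ≤ ∫ ω, (2 * ‖H t 0 ω - rc β k h L B (H 0) n ω ⟨0, h00⟩‖ ^ 2 +
      2 * ‖rc β k h L B (H 0) n ω ⟨0, h00⟩‖ ^ 2) ∂P := h7
  linarith

theorem H_tight (N d : ℕ) (β : ℝ) (hβ : 0 < β) : ∃ k0 C : ℝ, 0 < k0 ∧ k0 ≤ 1 ∧ 0 < C ∧
    ∀ k, 0 ≤ k → k ≤ k0 → ∀ (S : Sol N d k 1 β) (t : ℝ≥0) (x : Site d),
      Integrable (fun ω => ‖S.H t x ω‖ ^ 2) S.P ∧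
      ∫ ω, ‖S.H t x ω‖ ^ 2 ∂S.P ≤ C * (1 + ∫ ω, ‖S.H 0 0 ω‖ ^ 2 ∂S.P) := by
  obtain ⟨k0, h0, C, hk0, hk1, hh0, hh1, hC, hdr⟩ := r2_drift N d β (by linarith)
  refine ⟨k0, 2 * 3 ^ d + 4 * C + 2, hk0, hk1, by positivity, fun k hk hkk S t x => ?_⟩
  have hH := S.dyn
  have hI := S.init
  obtain ⟨CM, hCM⟩ := hH.moments 2 t
  refine ⟨(hCM t le_rfl x).1, ?_⟩
  have h1 := HTight_origin (h0 := h0) (C := C) hβ hk (dynamo_shift hH x) (init_shift hI x) hh0 hh1 hC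
    (fun L h hh hlt G y => hdr (boxNet d L) h k (stdGaussian (E N)) hh hlt hk hkk
      (gauss_noise2 N) G y) t
  simp only [zero_add] at h1
  have h2 : ∫ ω, ‖S.H 0 x ω‖ ^ 2 ∂S.P = ∫ ω, ‖S.H 0 0 ω‖ ^ 2 ∂S.P :=
    ((hI.ident x).comp (measurable_norm.pow_const 2)).integral_eq
  rw [h2] at h1
  have hσ : 0 ≤ ∫ ω, ‖S.H 0 0 ω‖ ^ 2 ∂S.P := integral_nonneg fun ω => by positivity
  have h3 : (0 : ℝ) < 3 ^ d := by positivity
  refine h1.trans ?_
  nlinarith [mul_nonneg hC.le hσ, mul_nonneg h3.le hσ]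

end DynB

end

/-! ### from `Lib_MP_36b788b.Main1` -/

section

/-!
# MAIN1: the limit law for `ε = 1`

PROOF. `dirac_erg`: `shiftST s c 0 = 0`, everything is `0` or `1`. `erg_scale`: the map `σ_a f = fun q => a • f q` is measurable and commutes with
shifts: `(μ.map σ_a)(A ∩ shift⁻¹B) = μ(σ_a⁻¹A ∩ shift⁻¹(σ_a⁻¹B))`.
`main_one`: `k1 = min` of those of mix_sde and H_tight. If there is no solution take `Measure.dirac 0`. Otherwise fix `S0`; `φ` from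
phi_lim; limit_exists with `A = ℝ≥0 × Site d`, `K t q ω = S0.H (t+q.1) q.2 ω` (Xf'_eq), moments: H_tight and `‖v‖ ≤ 1+‖v‖²`. `inv`: char_inv;
`mix`: char_mix, mix_cyl, mix_all with `θ T = shiftST T 0`; `erg`: erg_of_mix with the hypothesis at `(T, 0)`.
-/

open MeasureTheory ProbabilityTheory Filter
open scoped NNReal ENNReal Topology

namespace DynB

open Dyn

/-- scalar multiplication of a field is measurable -/
theorem Main1_smul_meas {N d : ℕ} (a : ℝ) :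
    Measurable (fun (f : ℝ≥0 × Site d → E N) q => a • f q) :=
  measurable_pi_lambda _ fun q => (measurable_pi_apply q).const_smul a

theorem dirac_erg (N d : ℕ) : IsErg (Measure.dirac (0 : ℝ≥0 × Site d → E N)) := by
  have h0 : ∀ (s : ℝ≥0) (c : Site d), shiftST (N := N) s c 0 = 0 := fun s c => rfl
  refine ⟨inferInstance, fun s c => ?_, fun A B hA hB => ?_, fun A hA _ => ?_⟩
  · rw [Measure.map_dirac' (shift_meas s c), h0]
  · have h1 : ∀ T : ℝ≥0, (Measure.dirac (0 : ℝ≥0 × Site d → E N))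
        (A ∩ shiftST T 0 ⁻¹' B) = Measure.dirac (0 : ℝ≥0 × Site d → E N) A *
          Measure.dirac (0 : ℝ≥0 × Site d → E N) B := by
      intro T
      rw [Measure.dirac_apply' _ (hA.inter (shift_meas T 0 hB)), Measure.dirac_apply' _ hA,
        Measure.dirac_apply' _ hB]
      by_cases hxA : (0 : ℝ≥0 × Site d → E N) ∈ A
      · by_cases hxB : (0 : ℝ≥0 × Site d → E N) ∈ B
        · have hx : (0 : ℝ≥0 × Site d → E N) ∈ A ∩ shiftST T 0 ⁻¹' B := ⟨hxA, hxB⟩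
          rw [Set.indicator_of_mem hxA, Set.indicator_of_mem hxB, Set.indicator_of_mem hx]
          simp
        · rw [Set.indicator_of_mem hxA, Set.indicator_of_notMem hxB,
            Set.indicator_of_notMem fun h => hxB h.2]
          simp
      · rw [Set.indicator_of_notMem hxA, Set.indicator_of_notMem fun h => hxA h.1]
        simp
    simp only [h1]
    exact tendsto_const_nhds
  · rw [Measure.dirac_apply' _ hA]
    by_cases hx : (0 : ℝ≥0 × Site d → E N) ∈ A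
    · right
      rw [Set.indicator_of_mem hx]
      rfl
    · left
      rw [Set.indicator_of_notMem hx]

theorem erg_scale {N d : ℕ} (μ : Measure (ℝ≥0 × Site d → E N)) (hμ : IsErg μ) (a : ℝ) :
    IsErg (μ.map (fun f q => a • f q)) := by
  have hm := Main1_smul_meas (N := N) (d := d) a
  have hc : ∀ (s : ℝ≥0) (c : Site d),
      shiftST s c ∘ (fun (f : ℝ≥0 × Site d → E N) q => a • f q) =
        (fun (f : ℝ≥0 × Site d → E N) q => a • f q) ∘ shiftST s c := fun s c => rfl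
  have := hμ.prob
  refine ⟨Measure.isProbabilityMeasure_map hm.aemeasurable, fun s c => ?_, fun A B hA hB => ?_,
    fun A hA hi => ?_⟩
  · rw [Measure.map_map (shift_meas s c) hm, hc, ← Measure.map_map hm (shift_meas s c), hμ.inv]
  · rw [Measure.map_apply hm hA, Measure.map_apply hm hB]
    have h1 : ∀ T : ℝ≥0, (μ.map (fun (f : ℝ≥0 × Site d → E N) q => a • f q))
        (A ∩ shiftST T 0 ⁻¹' B) = μ ((fun (f : ℝ≥0 × Site d → E N) q => a • f q) ⁻¹' A ∩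
          shiftST T 0 ⁻¹' ((fun (f : ℝ≥0 × Site d → E N) q => a • f q) ⁻¹' B)) := by
      intro T
      rw [Measure.map_apply hm (hA.inter (shift_meas T 0 hB))]
      rfl
    simp only [h1]
    exact hμ.mix _ _ (hm hA) (hm hB)
  · rw [Measure.map_apply hm hA]
    refine hμ.erg _ (hm hA) fun s c => ?_
    exact (hm.measurePreserving μ).quasiMeasurePreserving.preimage_ae_eq (hi s c)

theorem main_one (N d : ℕ) (β : ℝ) (hβ : 0 < β)
    (hM0 : ∃ k1 : ℝ, 0 < k1 ∧ ∀ k, 0 ≤ k → k ≤ k1 → MixProp N d k β) :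
    ∃ k1 : ℝ, 0 < k1 ∧ ∀ k, 0 ≤ k → k ≤ k1 → ∃ μ : Measure (ℝ≥0 × Site d → E N), IsErg μ ∧
      ∀ (S : Sol N d k 1 β) I u, Tendsto (fun t : ℝ≥0 => ∫ ω, Xf' S.H I u t ω ∂S.P) atTop
        (𝓝 (∫ f, ech I u f ∂μ)) := by
  obtain ⟨ka, hka, hM⟩ := hM0
  obtain ⟨kb, C, hkb, -, hC, hT⟩ := H_tight N d β hβ
  refine ⟨min ka kb, lt_min hka hkb, fun k hk hkk => ?_⟩
  have hM := hM k hk (hkk.trans (min_le_left _ _))
  have hT := hT k hk (hkk.trans (min_le_right _ _))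
  by_cases hne : Nonempty (Sol N d k 1 β)
  swap
  · exact ⟨Measure.dirac 0, dirac_erg N d, fun S => absurd ⟨S⟩ hne⟩
  obtain ⟨S0⟩ := hne
  obtain ⟨φ, hφ⟩ := phi_lim hM
  have hP : IsProbabilityMeasure S0.P := S0.dyn.prob
  have hmeas : ∀ t x, Measurable (S0.H t x) := fun t x =>
    (S0.dyn.adapted t x).mono (S0.ℱ.le t) le_rfl
  obtain ⟨μ, hμp, hμ⟩ := limit_exists (P := S0.P)
    (fun (t : ℝ≥0) (q : ℝ≥0 × Site d) ω => S0.H (t + q.1) q.2 ω)
    (fun t q => hmeas _ _)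
    (fun q => ⟨1 + C * (1 + ∫ ω, ‖S0.H 0 0 ω‖ ^ 2 ∂S0.P), fun t => by
      obtain ⟨h1, h2⟩ := hT S0 (t + q.1) q.2
      have h3 : Integrable (fun ω => 1 + ‖S0.H (t + q.1) q.2 ω‖ ^ 2) S0.P :=
        (integrable_const _).add h1
      have h4 : ∀ ω, ‖S0.H (t + q.1) q.2 ω‖ ≤ 1 + ‖S0.H (t + q.1) q.2 ω‖ ^ 2 := fun ω => by
        nlinarith [sq_nonneg (‖S0.H (t + q.1) q.2 ω‖ - 1), norm_nonneg (S0.H (t + q.1) q.2 ω)]
      have h5 : Integrable (fun ω => ‖S0.H (t + q.1) q.2 ω‖) S0.P := by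
        refine h3.mono' (hmeas _ _).norm.aestronglyMeasurable (ae_of_all _ fun ω => ?_)
        rw [norm_norm]
        exact h4 ω
      refine ⟨h5, (integral_mono h5 h3 h4).trans ?_⟩
      rw [integral_add (integrable_const _) h1]
      simp only [integral_const, probReal_univ, one_smul]
      linarith⟩) φ (fun I u => hφ S0 I u)
  have hS : ∀ (S : Sol N d k 1 β) I u, Tendsto (fun t : ℝ≥0 => ∫ ω, Xf' S.H I u t ω ∂S.P) atTop
        (𝓝 (∫ f, ech I u f ∂μ)) := by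
    intro S I u
    rw [hμ]
    exact hφ S I u
  have hinv := char_inv μ S0 hS
  have hmix : ∀ A B : Set (ℝ≥0 × Site d → E N), MeasurableSet A → MeasurableSet B →
      Tendsto (fun T : ℝ≥0 => μ (A ∩ shiftST T 0 ⁻¹' B)) atTop (𝓝 (μ A * μ B)) :=
    mix_all μ (fun T => shiftST T 0) (fun T => shift_meas T 0) (fun T => hinv T 0)
      (mix_cyl μ (fun T => shiftST T 0) (fun T => shift_meas T 0) (fun T => hinv T 0)
        (fun I u J v => char_mix hM μ S0 (hS S0) I u J v))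
  refine ⟨μ, ⟨hμp, hinv, hmix, fun A hA hi => ?_⟩, hS⟩
  exact erg_of_mix μ (fun T => shiftST T 0) hmix A hA fun T => hi T 0

end DynB

end

/-! ### from `Lib_MP_36b788b.Main2` -/

section

/-!
# MAIN2: the theorem for all `ε > 0`

PROOF. `k1` of main_one. Fix `k, ε`, `a = ε^{1/β} > 0`, `μ1` from main_one, `μ = μ1.map (fun f q => a⁻¹ • f q)`; `IsErg μ` by erg_scale. A solution
`H` for `ε` gives the solution `a • H` for `1` (dynamo_scale, init_scale with `adapted`), so fdd_of_char with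
`K t q ω = a • H (t+q.1) q.2 ω` and the continuous bounded function `v ↦ g (a⁻¹ • v)` (as a complex function, then real parts or
`Complex.ofReal` and `integral_ofReal`) gives `∫g(H_{t+·}) = ∫g(a⁻¹•(a•H_{t+·})) → ∫g(a⁻¹ • f|_I)dμ1 = ∫g(f|_I)dμ` (`integral_map`).
-/

open MeasureTheory ProbabilityTheory Filter
open scoped NNReal ENNReal Topology BoundedContinuousFunction

namespace DynB

open Dyn

theorem main_two (N d : ℕ) (β : ℝ) (hβ : 0 < β)
    (hM0 : ∃ k1 : ℝ, 0 < k1 ∧ ∀ k, 0 ≤ k → k ≤ k1 → MixProp N d k β) :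
    ∃ k0 : ℝ, 0 < k0 ∧ ∀ k ε : ℝ, 0 ≤ k → k ≤ k0 → 0 < ε →
      ∃ μ : Measure (ℝ≥0 × Site d → E N), IsErg μ ∧
      ∀ (Ω : Type) [mΩ : MeasurableSpace Ω] (P : Measure Ω) (ℱ : Filtration ℝ≥0 mΩ)
        (B : Site d → Fin N → Fin N → ℝ≥0 → Ω → ℝ) (H : ℝ≥0 → Site d → Ω → E N),
        IsDynamo P k ε β ℱ B H → IsInit P (H 0) →
        ∀ (I : Finset (ℝ≥0 × Site d)) (g : (I → E N) →ᵇ ℝ),
          Tendsto (fun t : ℝ≥0 => ∫ ω, g (fun q => H (t + q.1.1) q.1.2 ω) ∂P) atTop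
            (𝓝 (∫ f, g (fun q => f q) ∂μ)) := by
  obtain ⟨k1, hk1, h1⟩ := main_one N d β hβ hM0
  refine ⟨k1, hk1, fun k ε hk hkk hε => ?_⟩
  obtain ⟨μ1, hμ1, hlim⟩ := h1 k hk hkk
  have hβ0 : 0 < β := hβ
  obtain ⟨a, ha⟩ : ∃ a : ℝ, a = ε ^ (1 / β) := ⟨_, rfl⟩
  have ha0 : 0 < a := by
    rw [ha]
    exact Real.rpow_pos_of_pos hε _
  refine ⟨μ1.map (fun f q => a⁻¹ • f q), erg_scale μ1 hμ1 a⁻¹, ?_⟩
  intro Ω mΩ P ℱ B H hdyn hinit I g
  have hdyn' := dynamo_scale hε hβ0 hdyn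
  rw [← ha] at hdyn'
  have hmeas : ∀ t x, Measurable (H t x) := fun t x => (hdyn.adapted t x).mono (ℱ.le t) le_rfl
  have hinit' : IsInit P (fun x ω => a • H 0 x ω) := init_scale hinit a ha0.ne' (hmeas 0)
  haveI := hdyn.prob
  haveI := hμ1.prob
  have hS := hlim ⟨Ω, mΩ, P, ℱ, B, fun t x ω => a • H t x ω, hdyn', hinit'⟩
  have hgc : Continuous fun v : I → E N => ((g (fun q => a⁻¹ • v q) : ℝ) : ℂ) :=
    Complex.continuous_ofReal.comp (g.continuous.comp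
      (continuous_pi fun q => (continuous_apply q).const_smul a⁻¹))
  have hgb : ∃ C : ℝ, ∀ v : I → E N, ‖((g (fun q => a⁻¹ • v q) : ℝ) : ℂ)‖ ≤ C :=
    ⟨‖g‖, fun v => by
      rw [Complex.norm_real]
      exact g.norm_coe_le_norm _⟩
  have hf := fdd_of_char (A := ℝ≥0 × Site d) (P := P)
    (fun t q ω => a • H (t + q.1) q.2 ω) (fun t q => (hmeas _ _).const_smul a) μ1
    (fun I u => hS I u) I (fun v => ((g (fun q => a⁻¹ • v q) : ℝ) : ℂ)) hgc hgb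
  have h2 := (Complex.continuous_re.tendsto _).comp hf
  have h3 : ∀ t : ℝ≥0, (∫ ω, ((g (fun q : I => a⁻¹ • (a • H (t + q.1.1) q.1.2 ω)) : ℝ) : ℂ) ∂P).re =
      ∫ ω, g (fun q => H (t + q.1.1) q.1.2 ω) ∂P := by
    intro t
    rw [integral_complex_ofReal, Complex.ofReal_re]
    refine integral_congr_ae (Filter.Eventually.of_forall fun ω => ?_)
    change g (fun q : I => a⁻¹ • (a • H (t + q.1.1) q.1.2 ω)) =
      g (fun q => H (t + q.1.1) q.1.2 ω)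
    have h4 : (fun q : I => a⁻¹ • (a • H (t + q.1.1) q.1.2 ω)) =
        fun q : I => H (t + q.1.1) q.1.2 ω := by
      funext q
      exact inv_smul_smul₀ ha0.ne' _
    rw [h4]
  have hσ : Measurable (fun (f : ℝ≥0 × Site d → E N) (q : ℝ≥0 × Site d) => a⁻¹ • f q) :=
    measurable_pi_lambda _ fun q => (measurable_pi_apply q).const_smul a⁻¹
  have hr : Measurable (fun (f : ℝ≥0 × Site d → E N) (q : I) => f q) :=
    measurable_pi_lambda _ fun q => measurable_pi_apply _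
  have h5 : ∫ f, g (fun q => f q) ∂(μ1.map (fun f q => a⁻¹ • f q)) =
      ∫ f, g (fun q => a⁻¹ • f q) ∂μ1 :=
    integral_map hσ.aemeasurable (g.continuous.measurable.comp hr).aestronglyMeasurable
  have h6 : (∫ f, ((g (fun q : I => a⁻¹ • f q) : ℝ) : ℂ) ∂μ1).re =
      ∫ f, g (fun q => f q) ∂(μ1.map (fun f q => a⁻¹ • f q)) := by
    rw [integral_complex_ofReal, Complex.ofReal_re, h5]
  rw [← h6]
  refine h2.congr fun t => ?_
  exact h3 t

end DynB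

end
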