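import Pool.Agent.Lib_MP_36b788_m.M10
import Pool.Agent.Lib_MP_36b788_m.M26

/-!
# MP_36b788_pr, stationary limit: merged library part M27

Concatenation of smaller files (each in its own section), only to save build time.
-/

/-! ### from `Lib_MP_36b788s.Two` -/

section

/-!
# TWO: the field dies out for `N = 2`, `k = 0`

PROOF. `c = 1-2^{-β} ∈ (0,1)`.
* `two_step`: `g ≠ 0`, `u = ‖g‖`, `hu^β ≤ 1`, `0 < ζ ≤ 11/10`, `u⁺ = ‖hat g ξ‖`, `s = hu⁺^β ∈ (0,1]` (`hat_inv`). `u⁺(1+s) = uζ` (`hat_step`), so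
  `(u⁺)^{-β} = (uζ)^{-β}(1+s)^β`, `(u⁺)^{-β} - ζ^{-β}u^{-β} = (u⁺)^{-β}(1-(1+s)^{-β}) = (h/s)(1-(1+s)^{-β}) ≥ ch`
  because `s ↦ 1-(1+s)^{-β}` is concave, `0` at `0` and `c` at `1` (`(1+s)^{-β}` is convex: `≤ (1-s)+s2^{-β}`).
* `two_cmp`: induction on `n` for all `g, y` with `g ≠ 0`, `hu^β ≤ 1`, `0 ≤ y`, `cy ≤ u^{-β}`: `ev (hat β h) ν 1_{‖g‖>r} n g ≤ ev (ych β h e) ν 1_{y<K} n y`, `K = r^{-β}/c`.
  `n = 0`: `‖g‖ > r` gives `cy ≤ u^{-β} < r^{-β}`, `y < K`. Step: for a.e. `ξ` (`noise_ae`) `two_step` gives `c·(ζ^{-β}y+h) ≤ (u⁺)^{-β}`, `ζ = ‖uni g+√hξ‖`,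
  so `ev … (n+1) g ≤ ∫⁻ev (ych) n (ζ^{-β}y+h)dν`, and by isotropy (`zeta_iso`, the function `t ↦ ev (ych) … n (t^{-β}y+h)` is measurable) `ζ` may be replaced by
  `‖e+√hξ‖`.
* `small_two`: `cmix_of_vanish`. Given `ρ, ε`: `r = ε/3`, `T0, h0'` of `ych_tail` with `K = r^{-β}/c`, `ε/3`; `ρ{h‖g‖^β > 1} ≤ ε/3` for `h < h0''`
  (sets decrease to `∅`; e.g. Chebyshev: `ρ{‖g‖ > R} ≤ E‖g‖²/R²`, `R = h^{-1/β}`). `site_marg` with `φ g = ofReal(min 1 ‖g‖)`, `law_ev`: equals `∫⁻ev (hat) φ n g dρ`;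
  `φ ≤ ofReal r + 1_{‖g‖>r}` so for `h‖g‖^β ≤ 1`, `g ≠ 0` (ρ-a.e.): `ev φ n g ≤ ofReal r+ofReal(ε/3)`; otherwise `ev φ n g ≤ 1`.
-/

open MeasureTheory ProbabilityTheory Dyn
open scoped ENNReal

namespace DynS

private theorem Two_conv {β s : ℝ} (hβ : 0 < β) (hs0 : 0 ≤ s) (hs1 : s ≤ 1) :
    (1 + s) ^ (-β) ≤ 1 - s * (1 - (2 : ℝ) ^ (-β)) := by
  have h1 : (2:ℝ) ^ s ≤ 1 + s := by
    have := rpow_one_add_le_one_add_mul_self (s := 1) (p := s) (by norm_num) hs0 hs1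
    norm_num at this
    exact this
  have h2 : (1 + s) ^ (-β) ≤ ((2:ℝ) ^ s) ^ (-β) :=
    Real.rpow_le_rpow_of_nonpos (by positivity) h1 (by linarith)
  have h3 : ((2:ℝ) ^ s) ^ (-β) = (1:ℝ) ^ (1 - s) * ((2:ℝ) ^ (-β)) ^ s := by
    rw [Real.one_rpow, one_mul, ← Real.rpow_mul (by norm_num), ← Real.rpow_mul (by norm_num)]
    congr 1
    ring
  have h4 := Real.geom_mean_le_arith_mean2_weighted (w₁ := 1 - s) (w₂ := s) (p₁ := 1)
    (p₂ := (2:ℝ) ^ (-β)) (by linarith) hs0 zero_le_one (by positivity) (by ring)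
  rw [h3] at h2
  linarith

private theorem Two_c {β : ℝ} (hβ : 0 < β) : 0 < 1 - (2 : ℝ) ^ (-β) := by
  have : (2:ℝ) ^ (-β) < 1 := Real.rpow_lt_one_of_one_lt_of_neg (by norm_num) (by linarith)
  linarith

theorem two_step {N : ℕ} {β h : ℝ} (hβ : 0 < β) (hh : 0 < h) {g : E N} (hg : g ≠ 0) {ξ : E N}
    (hζ : 0 < ‖uni g + Real.sqrt h • ξ‖) (hζ1 : ‖uni g + Real.sqrt h • ξ‖ ≤ 11 / 10)
    (hs : h * ‖g‖ ^ β ≤ 1) :
    ‖uni g + Real.sqrt h • ξ‖ ^ (-β) * ‖g‖ ^ (-β) + (1 - (2 : ℝ) ^ (-β)) * h ≤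
      ‖hat β h g ξ‖ ^ (-β) := by
  obtain ⟨hne, hst⟩ := hat_step hβ hh.le hg hζ
  have hinv := hat_inv hβ hh hg hζ hζ1 hs
  have hu : 0 < ‖g‖ := norm_pos_iff.2 hg
  have hu' : 0 < ‖hat β h g ξ‖ := norm_pos_iff.2 hne
  set u' : ℝ := ‖hat β h g ξ‖ with hu'd
  set ζ : ℝ := ‖uni g + Real.sqrt h • ξ‖ with hζd
  have hs0 : 0 ≤ h * u' ^ β := by positivity
  have hconv := Two_conv hβ hs0 hinv
  have h1 : ζ ^ (-β) * ‖g‖ ^ (-β) = u' ^ (-β) * (1 + h * u' ^ β) ^ (-β) := by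
    rw [← Real.mul_rpow hζ.le hu.le, ← Real.mul_rpow hu'.le (by positivity), hst, mul_comm]
  have h2 : u' ^ (-β) * u' ^ β = 1 := by
    rw [← Real.rpow_add hu', neg_add_cancel, Real.rpow_zero]
  rw [h1]
  have h3 : u' ^ (-β) * (1 + h * u' ^ β) ^ (-β) ≤
      u' ^ (-β) * (1 - (h * u' ^ β) * (1 - (2 : ℝ) ^ (-β))) :=
    mul_le_mul_of_nonneg_left hconv (by positivity)
  have h4 : u' ^ (-β) * (1 - (h * u' ^ β) * (1 - (2 : ℝ) ^ (-β))) =
      u' ^ (-β) - (u' ^ (-β) * u' ^ β) * (h * (1 - (2 : ℝ) ^ (-β))) := by ring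
  rw [h4, h2] at h3
  linarith

open Classical in
theorem two_cmp {β h : ℝ} (hβ : 0 < β) (hh : 0 < h) (hh1 : h < 1 / 1000) {ν : Measure (E 2)}
    (hν : IsNoise h ν) {e : E 2} (he : ‖e‖ = 1) {r : ℝ} (hr : 0 < r) (n : ℕ) :
    ∀ (g : E 2) (y : ℝ), g ≠ 0 → h * ‖g‖ ^ β ≤ 1 → 0 ≤ y →
      (1 - (2 : ℝ) ^ (-β)) * y ≤ ‖g‖ ^ (-β) →
      ev (hat β h) ν (fun g => if r < ‖g‖ then 1 else 0) n g ≤
        ev (ych β h e) ν
          (fun y => if y < r ^ (-β) / (1 - (2 : ℝ) ^ (-β)) then 1 else 0) n y := by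
  have hp := hν.prob
  have hc := Two_c hβ
  induction n with
  | zero =>
    intro g y hg hs hy hcy
    show (if r < ‖g‖ then (1:ℝ≥0∞) else 0) ≤
      (if y < r ^ (-β) / (1 - (2 : ℝ) ^ (-β)) then (1:ℝ≥0∞) else 0)
    by_cases hr1 : r < ‖g‖
    · have h1 : ‖g‖ ^ (-β) < r ^ (-β) := Real.rpow_lt_rpow_of_neg hr hr1 (by linarith)
      have h2 : y < r ^ (-β) / (1 - (2 : ℝ) ^ (-β)) := by
        rw [lt_div_iff₀ hc]
        linarith
      rw [if_pos hr1, if_pos h2]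
    · rw [if_neg hr1]
      exact zero_le
  | succ n ih =>
    intro g y hg hs hy hcy
    have hmi : Measurable (fun y : ℝ =>
        (if y < r ^ (-β) / (1 - (2 : ℝ) ^ (-β)) then (1:ℝ≥0∞) else 0)) :=
      Measurable.ite measurableSet_Iio measurable_const measurable_const
    have hΨ : Measurable (fun t : ℝ => ev (ych β h e) ν
        (fun y => if y < r ^ (-β) / (1 - (2 : ℝ) ^ (-β)) then 1 else 0) n (t ^ (-β) * y + h)) := by
      have h1 := ev_meas (μ := ν) (measurable_ych β h e) hmi n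
      have h2 : Measurable (fun t : ℝ => t ^ (-β) * y + h) := by fun_prop
      exact h1.comp h2
    calc ev (hat β h) ν (fun g => if r < ‖g‖ then 1 else 0) (n + 1) g
        = ∫⁻ ξ, ev (hat β h) ν (fun g => if r < ‖g‖ then 1 else 0) n (hat β h g ξ) ∂ν := rfl
      _ ≤ ∫⁻ ξ, ev (ych β h e) ν
            (fun y => if y < r ^ (-β) / (1 - (2 : ℝ) ^ (-β)) then 1 else 0) n
              (‖uni g + Real.sqrt h • ξ‖ ^ (-β) * y + h) ∂ν := by
          refine lintegral_mono_ae ?_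
          filter_upwards [noise_ae hh hh1 hν] with ξ hξ
          obtain ⟨_, h2⟩ := hξ
          obtain ⟨h3, h4⟩ := h2 (uni g) (uni_norm hg)
          have hζ : 0 < ‖uni g + Real.sqrt h • ξ‖ := by linarith
          have hζp : 0 ≤ ‖uni g + Real.sqrt h • ξ‖ ^ (-β) := by positivity
          refine ih _ _ (hat_step hβ hh.le hg hζ).1 (hat_inv hβ hh hg hζ h4 hs) ?_ ?_
          · have := mul_nonneg hζp hy
            linarith
          · have h5 := two_step hβ hh hg hζ h4 hs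
            have h6 : ‖uni g + Real.sqrt h • ξ‖ ^ (-β) * ((1 - (2 : ℝ) ^ (-β)) * y) ≤
              ‖uni g + Real.sqrt h • ξ‖ ^ (-β) * ‖g‖ ^ (-β) := mul_le_mul_of_nonneg_left hcy hζp
            calc (1 - (2 : ℝ) ^ (-β)) * (‖uni g + Real.sqrt h • ξ‖ ^ (-β) * y + h)
                = ‖uni g + Real.sqrt h • ξ‖ ^ (-β) * ((1 - (2 : ℝ) ^ (-β)) * y) +
                  (1 - (2 : ℝ) ^ (-β)) * h := by ring
              _ ≤ _ := by linarith
      _ = ∫⁻ ξ, ev (ych β h e) ν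
            (fun y => if y < r ^ (-β) / (1 - (2 : ℝ) ^ (-β)) then 1 else 0) n
              (‖e + Real.sqrt h • ξ‖ ^ (-β) * y + h) ∂ν := zeta_iso hν he (uni_norm hg) hΨ
      _ = _ := rfl

theorem small_two (d : ℕ) (β : ℝ) (hβ : 0 < β) : CMix 2 d β 0 (fun h => nuT 2 h) := by
  refine cmix_of_vanish 2 d β 0 (by norm_num) hβ ?_
  intro ρ hρ hρ0 hρ2 ε hε
  have hc := Two_c hβ
  have hr : 0 < ε / 3 := by positivity
  obtain ⟨T0, h1, hT0, hh1, H1⟩ := ych_tail β hβ ((ε / 3) ^ (-β) / (1 - (2 : ℝ) ^ (-β))) (ε / 3) hr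
  obtain ⟨h2, hh2, H2⟩ := nuT_noise 2 (by norm_num)
  refine ⟨T0, hT0, ?_⟩
  intro L Sm hSm
  -- a radius
  set A : ℝ≥0∞ := ∫⁻ g : E 2, ENNReal.ofReal (‖g‖ ^ 2) ∂ρ with hA
  have hAfin : A ≠ ⊤ := by
    have h3 := hρ2.2
    rw [hasFiniteIntegral_iff_ofReal (Filter.Eventually.of_forall fun g => by positivity)] at h3
    exact h3.ne
  set A' : ℝ := A.toReal with hA'
  have hA'0 : 0 ≤ A' := ENNReal.toReal_nonneg
  have hAA : A = ENNReal.ofReal A' := (ENNReal.ofReal_toReal hAfin).symm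
  set R : ℝ := 1 + 3 * A' / ε with hR
  have hR1 : 1 ≤ R := by
    have : 0 ≤ 3 * A' / ε := by positivity
    linarith
  have hRA : A' / R ^ 2 ≤ ε / 3 := by
    rw [div_le_iff₀ (by positivity)]
    have h3 : 3 * A' / ε ≤ R ^ 2 := by
      have : 3 * A' / ε ≤ R := by linarith
      nlinarith
    rw [div_le_iff₀ hε] at h3
    linarith
  have hcheb : ρ {g : E 2 | R < ‖g‖} ≤ ENNReal.ofReal (ε / 3) := by
    have h3 := mul_meas_ge_le_lintegral₀ (μ := ρ) (f := fun g : E 2 => ENNReal.ofReal (‖g‖ ^ 2))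
      (by fun_prop) (ENNReal.ofReal (R ^ 2))
    have h4 : ρ {g : E 2 | R < ‖g‖} ≤
        ρ {g : E 2 | ENNReal.ofReal (R ^ 2) ≤ ENNReal.ofReal (‖g‖ ^ 2)} := by
      refine measure_mono ?_
      intro g hg
      have hg' : R < ‖g‖ := hg
      exact ENNReal.ofReal_le_ofReal (by gcongr)
    have h5 : ENNReal.ofReal (R ^ 2) * ρ {g : E 2 | R < ‖g‖} ≤ ENNReal.ofReal A' := by
      rw [← hAA]
      exact le_trans (mul_le_mul_right h4 _) h3
    have h6 : ENNReal.ofReal (1 / R ^ 2) * ENNReal.ofReal (R ^ 2) = 1 := by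
      rw [← ENNReal.ofReal_mul (by positivity), one_div_mul_cancel (by positivity),
        ENNReal.ofReal_one]
    calc ρ {g : E 2 | R < ‖g‖}
        = ENNReal.ofReal (1 / R ^ 2) * (ENNReal.ofReal (R ^ 2) * ρ {g : E 2 | R < ‖g‖}) := by
          rw [← mul_assoc, h6, one_mul]
      _ ≤ ENNReal.ofReal (1 / R ^ 2) * ENNReal.ofReal A' := mul_le_mul_right h5 _
      _ = ENNReal.ofReal (A' / R ^ 2) := by
          rw [← ENNReal.ofReal_mul (by positivity)]
          congr 1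
          ring
      _ ≤ ENNReal.ofReal (ε / 3) := ENNReal.ofReal_le_ofReal hRA
  refine ⟨min (min h1 h2) (min (1 / 1000) (1 / R ^ β)), by positivity, ?_⟩
  intro h hh hhlt n hn1 hn2 x
  have hlt1 : h < h1 := lt_of_lt_of_le hhlt (le_trans (min_le_left _ _) (min_le_left _ _))
  have hlt2 : h < h2 := lt_of_lt_of_le hhlt (le_trans (min_le_left _ _) (min_le_right _ _))
  have hlt3 : h < 1 / 1000 := lt_of_lt_of_le hhlt (le_trans (min_le_right _ _) (min_le_left _ _))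
  have hlt4 : h < 1 / R ^ β := lt_of_lt_of_le hhlt (le_trans (min_le_right _ _) (min_le_right _ _))
  have hν := H2 h hh hlt2
  have hp := hν.prob
  have hφm : Measurable (fun g : E 2 => ENNReal.ofReal (min 1 ‖g‖)) := by fun_prop
  have hhat : Measurable (fun q : E 2 × E 2 => hat β h q.1 q.2) := measurable_hat hβ hh.le
  rw [site_marg (boxNet d L) hβ hh.le ρ hφm x n, law_ev hhat ρ hφm n]
  set e : E 2 := EuclideanSpace.single 0 1 with he
  have he1 : ‖e‖ = 1 := by rw [he]; simp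
  have hind : Measurable (fun g : E 2 => (if ε / 3 < ‖g‖ then (1:ℝ≥0∞) else 0)) :=
    Measurable.ite (measurableSet_lt measurable_const measurable_norm) measurable_const
      measurable_const
  have hae : ∀ᵐ g ∂ρ, g ≠ (0 : E 2) := by
    rw [ae_iff]
    simpa using hρ0
  have hpt : ∀ᵐ g ∂ρ, ev (hat β h) (nuT 2 h) (fun g : E 2 => ENNReal.ofReal (min 1 ‖g‖)) n g ≤
      ENNReal.ofReal (2 * (ε / 3)) + {g : E 2 | R < ‖g‖}.indicator (fun _ => (1:ℝ≥0∞)) g := by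
    filter_upwards [hae] with g hg
    by_cases hgR : g ∈ {g : E 2 | R < ‖g‖}
    · rw [Set.indicator_of_mem hgR]
      refine le_trans ?_ le_add_self
      have h3 := ev_mono (f := hat β h) (μ := nuT 2 h)
        (φ := fun g : E 2 => ENNReal.ofReal (min 1 ‖g‖)) (ψ := fun _ => 1) ?_ n g
      · rwa [ev_const] at h3
      · intro g
        rw [← ENNReal.ofReal_one]
        exact ENNReal.ofReal_le_ofReal (min_le_left _ _)
    · rw [Set.indicator_of_notMem hgR, add_zero]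
      have hgR' : ‖g‖ ≤ R := not_lt.1 hgR
      have hs : h * ‖g‖ ^ β ≤ 1 := by
        have h3 : ‖g‖ ^ β ≤ R ^ β := Real.rpow_le_rpow (norm_nonneg _) hgR' hβ.le
        have hRp : 0 < R ^ β := by positivity
        rw [lt_div_iff₀ hRp] at hlt4
        calc h * ‖g‖ ^ β ≤ h * R ^ β := by gcongr
          _ ≤ 1 := hlt4.le
      calc ev (hat β h) (nuT 2 h) (fun g : E 2 => ENNReal.ofReal (min 1 ‖g‖)) n g
          ≤ ev (hat β h) (nuT 2 h) (fun g : E 2 => ENNReal.ofReal (ε / 3) +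
              (if ε / 3 < ‖g‖ then (1:ℝ≥0∞) else 0)) n g := by
            refine ev_mono ?_ n g
            intro g
            by_cases hg1 : ε / 3 < ‖g‖
            · rw [if_pos hg1]
              refine le_trans ?_ le_add_self
              rw [← ENNReal.ofReal_one]
              exact ENNReal.ofReal_le_ofReal (min_le_left _ _)
            · rw [if_neg hg1, add_zero]
              exact ENNReal.ofReal_le_ofReal (le_trans (min_le_right _ _) (not_lt.1 hg1))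
        _ = ENNReal.ofReal (ε / 3) + ev (hat β h) (nuT 2 h)
              (fun g : E 2 => (if ε / 3 < ‖g‖ then (1:ℝ≥0∞) else 0)) n g := by
            rw [ev_add hhat measurable_const hind, ev_const]
        _ ≤ ENNReal.ofReal (ε / 3) + ENNReal.ofReal (ε / 3) := by
            refine add_le_add le_rfl ?_
            have h3 := two_cmp hβ hh hlt3 hν he1 hr n g 0 hg hs le_rfl (by
              rw [mul_zero]; positivity)
            have h4 := H1 h (nuT 2 h) hh hlt1 hν e he1 n hn1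
            refine le_trans (le_of_eq ?_) (le_trans h3 h4)
            congr!
        _ = ENNReal.ofReal (2 * (ε / 3)) := by
            rw [← ENNReal.ofReal_add hr.le hr.le]
            congr 1
            ring
  refine le_trans (lintegral_mono_ae hpt) ?_
  have hRm : MeasurableSet {g : E 2 | R < ‖g‖} := measurableSet_lt measurable_const measurable_norm
  rw [lintegral_add_left measurable_const, lintegral_const, measure_univ, mul_one]
  have h7 : ∫⁻ g, {g : E 2 | R < ‖g‖}.indicator (fun _ => (1:ℝ≥0∞)) g ∂ρ =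
      ρ {g : E 2 | R < ‖g‖} := lintegral_indicator_one hRm
  rw [h7]
  refine le_trans (add_le_add le_rfl hcheb) ?_
  rw [← ENNReal.ofReal_add (by positivity) (by positivity)]
  refine ENNReal.ofReal_le_ofReal ?_
  linarith

end DynS

end

/-! ### from `Lib_MP_36b788s.Fin` -/

section

/-!
# Chapter S, final: the small cases of chain mixing
-/

open MeasureTheory ProbabilityTheory Dyn

namespace DynS

theorem small_N1 (d : ℕ) (β : ℝ) (hβ : 0 < β) : ∃ k1 : ℝ, 0 < k1 ∧ ∀ k : ℝ, 0 ≤ k → k ≤ k1 →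
    DynB.ChainMix 1 d β k := by
  obtain ⟨k1, hk1, H⟩ := small_one d β hβ
  exact ⟨k1, hk1, fun k hk0 hk => cmix_of_trunc 1 d β k le_rfl hβ hk0 (H k hk0 hk)⟩

theorem small_N2 (d : ℕ) (β : ℝ) (hβ : 0 < β) : DynB.ChainMix 2 d β 0 :=
  cmix_of_trunc 2 d β 0 (by norm_num) hβ le_rfl (small_two d β hβ)

theorem small_N3 (N d : ℕ) (β : ℝ) (hN : 3 ≤ N) (hβ : 0 < β) : DynB.ChainMix N d β 0 :=
  cmix_of_trunc N d β 0 (by omega) hβ le_rfl (small_three N d β hN hβ)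

end DynS

end
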