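import Pool.Agent.Lib_MP_36b788_m.M09
import Pool.Agent.Lib_MP_36b788_m.M24
import Pool.Agent.Lib_MP_36b788_m.M25

/-!
# MP_36b788_pr, stationary limit: merged library part M28

Concatenation of smaller files (each in its own section), only to save build time.
-/

/-! ### from `Lib_MP_36b788c.Low3` -/

section

/-!
# Lower bound of a height over a block, `N ≥ 3`

`low3`: the chain starts at `G`; reference site `z` with `k^{-X0} ≤ ‖G z‖`, `X0 ≤ 1/8` (height `X0 = log‖G z‖/ell` from below), profile `‖G v‖ ≤ k^{-(X0 + M + dist z v/2)}`, and either caps `‖G v‖ ≤ k^{-ε0(1+dist z v)}` or `X0 ≤ -Md`. For `w` with `dist z w ≤ M` and time `T0 ell - 5 ≤ m h ≤ T0 ell + 5`: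
`‖G_m w‖ ≥ k^{ε - min (X0 - dist z w + λ m h/ell) (-1/16)}` outside probability `k^c`, `λ = lamN N`.

PROOF. `κ = 1/64`, `σ ≤ σ0(κ)` from `wl3`, `J = ⌈(T0+1)/σ⌉` windows: the first `J-1` have `⌊m/J⌋` steps, the last one the rest (all satisfy `1 ≤ n h ≤ σ ell + 1` for small `k`, `h`). `S` is used only for moments and `wl3`; a pair `(G, 0)`.
Upper bounds at the window starts `t_j`: `E‖G_t v‖ ≤ e^{C(T0 ell + 4)} e^{r t} U v` with `U v = k^{-(X0+M+dist z v/2)}` (`grow_mean` for the pair `(G,0)` with difference `G`, or `fm1`-type; `k cpl U ≤ 4d k^{1/2} U`), Markov over all `v`: `‖G_{t_j} v‖ ≤ k^{-(X0+M+M1+(5/8) dist z v)}`, `M1 = C T0 + 2`, outside probability `k^c`.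
For `j ≥ 1` also caps at `w`: `‖G_{t_j} v‖ ≤ k^{-ε''(1+dist w v)}` (`mom_cap`, Markov) outside probability `k^{c}`, `ε''` small enough for `wl3` (`H v = ε''(1+dist w v)`). For `j = 0`: caps around `z` (`H v = ε0(1+dist z v)`, `ε0(2+M) ≤ 1/16`), or deep start: `H v = X0 + M + dist z v/2`, `≤ -Md + 2M + 1 ≤ 1/16` near `w`.
Claim: `Y_0 = X0 - dist z w`, `Y_{j+1} = min (-1/16) (Y_j + λ n_j h/ell) - ε/J`; then outside the exceptional events some site `v` has `‖G_{t_j} v‖ k^{dist w v} ≥ k^{-Y_j}` (`v = z` for `j = 0`, `v = w` for `j ≥ 1`). Let `z'` be the maximizer of `‖G_{t_j} v‖ k^{dist w v}`; from the upper bound `X0 + M + M1 + (5/8)dist z z' - dist w z' ≥ Y_j ≥ X0 - M - 2` (`λ ≥ 0`, `X0 ≤ 1/8`), so `dist w z' ≤ (8/3)(4M + M1 + 3) =: m0`.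
`‖G_{t_j} z'‖ ≤ k^{-ε0'}` (caps, or deep: `X0 + M + M1 + (5/8)(M+m0) ≤ 0`). `wl3` with `κ = 1/64` (`k^{3κ} ≥ k^{1/16}`), `ε/J`: `‖G_{t_{j+1}} w‖ ≥ k^{-Y_{j+1}}`. Sum of the `J` exceptional probabilities (Markov property, `lintegral_glue`).
-/

open MeasureTheory ProbabilityTheory
open scoped ENNReal

namespace DynC

open Dyn

variable {d : ℕ}

private theorem low3_exp {k a : ℝ} (hk : 0 < k) : k ^ a = Real.exp (-(a * ell k)) := by
  unfold ell
  rw [Real.rpow_def_of_pos hk, one_div, Real.log_inv]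
  congr 1
  ring

private theorem low3_le {k a b : ℝ} (hk : 0 < k) (hk1 : k < 1) (h : b ≤ a) : k ^ a ≤ k ^ b :=
  Real.rpow_le_rpow_of_exponent_ge hk hk1.le h

private theorem low3_le' {k a b : ℝ} (hk : 0 < k) (hk1 : k < 1) (h : k ^ a ≤ k ^ b) : b ≤ a :=
  (Real.rpow_le_rpow_left_iff_of_base_lt_one hk hk1).1 h

/-- one window, deterministic start -/
private theorem low3_win {N L : ℕ} {β k h σ e1 cw ε' : ℝ} {m0 : ℕ} (hk : 0 < k) (hk1 : k < 1)
    (hε' : 0 < ε')
    (Hw : ∀ (G : boxS d L → E N) (z x : boxS d L), (boxNet d L).dist x z ≤ m0 →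
      (∀ v, ‖G v‖ * k ^ (boxNet d L).dist x v ≤ ‖G z‖ * k ^ (boxNet d L).dist x z) →
      ‖G z‖ ≤ k ^ (-e1) →
      ∀ H : boxS d L → ℝ, (∀ v, ∀ y ∈ (boxNet d L).nb v, H y ≤ H v + 3 / 4) →
      (∀ v, (boxNet d L).dist x v ≤ 1 → H v ≤ 1 / 16) → (∀ v, ‖G v‖ ≤ k ^ (-(H v))) →
      ∀ n : ℕ, 1 ≤ n * h → n * h ≤ σ * ell k + 1 →
        PI ((Fam1 N d β k).mu L) {ω |
            ‖traj ((Fam1 N d β k).st h L) G ω n x‖ < min (k ^ (3 * (1 / 64 : ℝ)))
              (k ^ (ε' + (boxNet d L).dist x z) * Real.exp (lamN N * (n * h)) * ‖G z‖)}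
          ≤ ENNReal.ofReal (k ^ cw))
    (G : boxS d L → E N) (z w : boxS d L) (A Y Mr : ℝ) (hzw : ((boxNet d L).dist z w : ℝ) ≤ Mr)
    (hA : ∀ v, ‖G v‖ ≤ k ^ (-(A + 5 / 8 * (boxNet d L).dist z v)))
    (hY : ∃ v0, k ^ (-Y) ≤ ‖G v0‖ * k ^ (boxNet d L).dist w v0)
    (hm : A - Y + 5 / 8 * Mr ≤ 3 / 8 * m0)
    (hcap : ∀ v, (boxNet d L).dist w v ≤ m0 → ‖G v‖ ≤ k ^ (-e1))
    (H : boxS d L → ℝ) (hH1 : ∀ v, ∀ y ∈ (boxNet d L).nb v, H y ≤ H v + 3 / 4)
    (hH2 : ∀ v, (boxNet d L).dist w v ≤ 1 → H v ≤ 1 / 16) (hH3 : ∀ v, ‖G v‖ ≤ k ^ (-(H v)))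
    (n : ℕ) (hn : 1 ≤ n * h) (hn2 : n * h ≤ σ * ell k + 1) (y : ℝ)
    (hy : y ≤ k ^ (ε' - min (Y + lamN N * (n * h) / ell k) (-(1 / 16)))) :
    PI ((Fam1 N d β k).mu L) {ω | ‖traj ((Fam1 N d β k).st h L) G ω n w‖ < y}
      ≤ ENNReal.ofReal (k ^ cw) := by
  classical
  obtain ⟨z', -, hz'⟩ := Finset.exists_max_image (Finset.univ : Finset (boxS d L))
    (fun v => ‖G v‖ * k ^ (boxNet d L).dist w v) ⟨w, Finset.mem_univ w⟩
  obtain ⟨v0, hv0⟩ := hY
  have hell : 0 < ell k := ell_pos hk hk1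
  have h1 : k ^ (-Y) ≤ ‖G z'‖ * k ^ (boxNet d L).dist w z' := hv0.trans (hz' v0 (Finset.mem_univ _))
  have h2 : k ^ (-Y) ≤ k ^ (-(A + 5 / 8 * (boxNet d L).dist z z') + (boxNet d L).dist w z') := by
    rw [Real.rpow_add hk, Real.rpow_natCast]
    exact h1.trans (mul_le_mul_of_nonneg_right (hA z') (by positivity))
  have h3 := low3_le' hk hk1 h2
  have h4 : ((boxNet d L).dist z z' : ℝ) ≤ Mr + (boxNet d L).dist w z' := by
    have h5 := (boxNet d L).dist_tri z w z'
    have h6 : ((boxNet d L).dist z z' : ℝ) ≤ (boxNet d L).dist z w + (boxNet d L).dist w z' := by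
      exact_mod_cast h5
    linarith
  have h5 : (boxNet d L).dist w z' ≤ m0 := by
    have h6 : ((boxNet d L).dist w z' : ℝ) ≤ m0 := by linarith
    exact_mod_cast h6
  have h7 := Hw G z' w h5 (fun v => hz' v (Finset.mem_univ v)) (hcap z' h5) H hH1 hH2 hH3 n hn hn2
  refine le_trans (measure_mono ?_) h7
  intro ω hω
  refine lt_of_lt_of_le hω (hy.trans ?_)
  refine le_min ?_ ?_
  · refine low3_le hk hk1 ?_
    have := min_le_right (Y + lamN N * (n * h) / ell k) (-(1 / 16))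
    linarith
  · have h8 : Real.exp (lamN N * (n * h)) = k ^ (-(lamN N * (n * h) / ell k)) := by
      rw [low3_exp hk]
      congr 1
      field_simp
    have h9 : k ^ (ε' - min (Y + lamN N * (n * h) / ell k) (-(1 / 16))) ≤
        k ^ (ε' + -(lamN N * (n * h) / ell k) + -Y) := by
      refine low3_le hk hk1 ?_
      have := min_le_left (Y + lamN N * (n * h) / ell k) (-(1 / 16))
      linarith
    refine h9.trans ?_
    rw [Real.rpow_add hk, Real.rpow_add hk, Real.rpow_add hk, Real.rpow_natCast, h8]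
    have h10 : 0 ≤ k ^ ε' * k ^ (-(lamN N * (n * h) / ell k)) := by positivity
    calc k ^ ε' * k ^ (-(lamN N * (n * h) / ell k)) * k ^ (-Y)
        ≤ k ^ ε' * k ^ (-(lamN N * (n * h) / ell k)) *
            (‖G z'‖ * k ^ (boxNet d L).dist w z') := mul_le_mul_of_nonneg_left h1 h10
      _ = k ^ ε' * k ^ (boxNet d L).dist w z' * k ^ (-(lamN N * (n * h) / ell k)) * ‖G z'‖ := by
          ring

private theorem low3_meas {F : Fam d} {L : ℕ} {h : ℝ} (G : boxS d L → F.V) (n : ℕ) :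
    Measurable fun ω => traj (F.st h L) G ω n :=
  (measurable_traj (F.st h L) (F.mst h L) n).comp (measurable_const.prodMk measurable_id)

/-- Markov property -/
private theorem low3_mk {F : Fam d} {L : ℕ} {h : ℝ} (G : boxS d L → F.V)
    (t n : ℕ) (D A : Set (boxS d L → F.V)) (p : ℝ≥0∞) (hD : MeasurableSet D)
    (hA : MeasurableSet A)
    (hp : ∀ G' ∈ A, PI (F.mu L) {ω | traj (F.st h L) G' ω n ∈ D} ≤ p) :
    PI (F.mu L) {ω | traj (F.st h L) G ω (t + n) ∈ D} ≤
      PI (F.mu L) {ω | traj (F.st h L) G ω t ∉ A} + p := by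
  classical
  set B : Set (ℕ → boxS d L → F.Ω0) := {ω | traj (F.st h L) G ω (t + n) ∈ D} with hB
  have hBm : MeasurableSet B := (low3_meas G (t + n)) hD
  have hCm : MeasurableSet {ω | traj (F.st h L) G ω t ∉ A} := (low3_meas G t) hA.compl
  rw [← lintegral_indicator_one hBm, lintegral_glue t _ (measurable_one.indicator hBm)]
  have h1 : ∀ a : ℕ → boxS d L → F.Ω0,
      ∫⁻ b, B.indicator 1 (glue t a b) ∂(PI (F.mu L)) ≤
        ({ω | traj (F.st h L) G ω t ∉ A} : Set (ℕ → boxS d L → F.Ω0)).indicator 1 a + p := by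
    intro a
    have h2 : ∀ b, B.indicator (1 : (ℕ → boxS d L → F.Ω0) → ℝ≥0∞) (glue t a b) =
        ({b | traj (F.st h L) (traj (F.st h L) G a t) b n ∈ D} :
          Set (ℕ → boxS d L → F.Ω0)).indicator 1 b := by
      intro b
      have h3 : (glue t a b ∈ B) ↔
          b ∈ ({b | traj (F.st h L) (traj (F.st h L) G a t) b n ∈ D} :
            Set (ℕ → boxS d L → F.Ω0)) := by
        show (traj (F.st h L) G (glue t a b) (t + n) ∈ D) ↔ _
        rw [traj_glue_add]
        rfl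
      by_cases hb : glue t a b ∈ B
      · rw [Set.indicator_of_mem hb, Set.indicator_of_mem (h3.1 hb)]
        rfl
      · rw [Set.indicator_of_notMem hb, Set.indicator_of_notMem (fun h => hb (h3.2 h))]
    simp_rw [h2]
    have hDm : MeasurableSet ({b | traj (F.st h L) (traj (F.st h L) G a t) b n ∈ D} :
        Set (ℕ → boxS d L → F.Ω0)) := (low3_meas _ n) hD
    rw [lintegral_indicator_one hDm]
    by_cases ha : traj (F.st h L) G a t ∈ A
    · exact (hp _ ha).trans le_add_self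
    · have h3 : ({ω | traj (F.st h L) G ω t ∉ A} :
          Set (ℕ → boxS d L → F.Ω0)).indicator
            (1 : (ℕ → boxS d L → F.Ω0) → ℝ≥0∞) a = 1 := by
        rw [Set.indicator_of_mem]
        · rfl
        · exact ha
      rw [h3]
      exact prob_le_one.trans le_self_add
  refine (lintegral_mono h1).trans ?_
  rw [lintegral_add_right _ measurable_const, lintegral_indicator_one hCm, lintegral_const,
    measure_univ, mul_one]

private theorem low3_ms {F : Fam d} {L : ℕ} (w : boxS d L) (y : ℝ) :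
    MeasurableSet {g : boxS d L → F.V | ‖g w‖ < y} :=
  measurableSet_lt (measurable_pi_apply w).norm measurable_const

private theorem low3_ms' {F : Fam d} {L : ℕ} (w : boxS d L) (y : ℝ) :
    MeasurableSet {g : boxS d L → F.V | y ≤ ‖g w‖} :=
  measurableSet_le measurable_const (measurable_pi_apply w).norm

private theorem low3_ms'' {F : Fam d} {L : ℕ} (w : boxS d L) (y : ℝ) :
    MeasurableSet {g : boxS d L → F.V | ‖g w‖ ≤ y} :=
  measurableSet_le (measurable_pi_apply w).norm measurable_const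

private theorem low3_zero {F : Fam d} {β k : ℝ} (S : PSys F β k) {h : ℝ} (hh : 0 < h) (L : ℕ)
    (G : boxS d L → F.V) (ω : ℕ → boxS d L → S.Ωp) (n : ℕ) (x : boxS d L) :
    (S.tr h L (G, fun _ => 0) ω n).2 x = 0 := by
  induction n generalizing x with
  | zero => rfl
  | succ n ih =>
    have h1 : S.tr h L (G, fun _ => 0) ω (n + 1) =
        S.st h L (S.tr h L (G, fun _ => 0) ω n) (ω n) := rfl
    have h2 := S.u2 h L (S.tr h L (G, fun _ => 0) ω n) (ω n) hh x
    rw [← h1] at h2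
    have h3 : nrm (S.tr h L (G, fun _ => 0) ω n).2 = fun _ => 0 := by
      funext y
      simp [nrm, ih y]
    rw [h3] at h2
    have h4 : cpl (boxNet d L) (fun _ => (0 : ℝ)) x = 0 := by simp [cpl]
    rw [h4] at h2
    simp only [mul_zero, add_zero] at h2
    exact norm_le_zero_iff.1 h2

/-- law of the first component at one time -/
private theorem low3_law {F : Fam d} {β k : ℝ} (S : PSys F β k) (h : ℝ) (L : ℕ)
    (G : boxS d L → F.V) (t : ℕ) (A : Set (boxS d L → F.V)) (hA : MeasurableSet A) :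
    PI (F.mu L) {ω | traj (F.st h L) G ω t ∈ A} =
      PI (S.mu L) {ω | (S.tr h L (G, fun _ => 0) ω t).1 ∈ A} := by
  have h1 := (tr_path S h L (G, fun _ => 0) (t + 1)
    (fun p => A.indicator (1 : (boxS d L → F.V) → ℝ≥0∞) (p t))
    ((measurable_one.indicator hA).comp (measurable_pi_apply t))
    (fun a b hab => by
      show A.indicator (1 : (boxS d L → F.V) → ℝ≥0∞) (a t) = A.indicator 1 (b t)
      rw [hab t (Nat.lt_succ_self t)])).1
  have hm1 : MeasurableSet {ω | traj (F.st h L) G ω t ∈ A} :=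
    ((measurable_traj (F.st h L) (F.mst h L) t).comp
      (measurable_const.prodMk measurable_id)) hA
  have hm2 : MeasurableSet {ω | (S.tr h L (G, fun _ => 0) ω t).1 ∈ A} :=
    (measurable_fst.comp ((measurable_traj (S.st h L) (S.mst h L) t).comp
      (measurable_const.prodMk measurable_id))) hA
  have e1 : ∀ ω : ℕ → boxS d L → F.Ω0,
      A.indicator (1 : (boxS d L → F.V) → ℝ≥0∞) (traj (F.st h L) G ω t) =
        ({ω | traj (F.st h L) G ω t ∈ A} : Set (ℕ → boxS d L → F.Ω0)).indicator 1 ω := by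
    intro ω
    rfl
  have e2 : ∀ ω : ℕ → boxS d L → S.Ωp,
      A.indicator (1 : (boxS d L → F.V) → ℝ≥0∞) ((S.tr h L (G, fun _ => 0) ω t).1) =
        ({ω | (S.tr h L (G, fun _ => 0) ω t).1 ∈ A} :
          Set (ℕ → boxS d L → S.Ωp)).indicator 1 ω := by
    intro ω
    rfl
  rw [← lintegral_indicator_one hm1, ← lintegral_indicator_one hm2]
  rw [← lintegral_congr e1, ← lintegral_congr e2]
  exact h1.symm

private theorem low3_mU {F : Fam d} {L : ℕ} (th : boxS d L → ℝ) :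
    MeasurableSet {g : boxS d L → F.V | ∀ v, ‖g v‖ ≤ th v} := by
  have e : {g : boxS d L → F.V | ∀ v, ‖g v‖ ≤ th v} =
      ⋂ v, {g : boxS d L → F.V | ‖g v‖ ≤ th v} := by
    ext g
    simp only [Set.mem_iInter]
    rfl
  rw [e]
  exact MeasurableSet.iInter fun v => low3_ms'' v _

private theorem low3_mC {F : Fam d} {L : ℕ} (k ε : ℝ) (w : boxS d L) :
    MeasurableSet {g : boxS d L → F.V | Caps k (nrm g) ε w} := by
  have e : {g : boxS d L → F.V | Caps k (nrm g) ε w} =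
      ⋂ v, {g : boxS d L → F.V | ‖g v‖ ≤ k ^ (-(ε * (1 + (boxNet d L).dist v w)))} := by
    ext g
    simp only [Set.mem_iInter]
    rfl
  rw [e]
  exact MeasurableSet.iInter fun v => low3_ms'' v _

/-- upper profile at one time -/
private theorem low3_U (N d : ℕ) (β T : ℝ) (hβ : 0 < β) : ∃ C k0 : ℝ, 0 < C ∧ 0 < k0 ∧ k0 < 1 ∧
    ∀ (F : Fam d) (k : ℝ) (S : PSys F β k), 0 < k → k < k0 → BNoise N S.ν S.b S.gd →
    ∃ h0 : ℝ, 0 < h0 ∧ ∀ h, 0 < h → h < h0 → ∀ (L : ℕ) (G : boxS d L → F.V) (z : boxS d L) (A0 : ℝ),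
      (∀ v, ‖G v‖ ≤ k ^ (-(A0 + (boxNet d L).dist z v / 2))) → ∀ n : ℕ,
      n * h ≤ T * ell k + 5 →
      PI (F.mu L) {ω | traj (F.st h L) G ω n ∉ {g : boxS d L → F.V |
        ∀ v, ‖g v‖ ≤ k ^ (-((A0 + (C * T + 2)) + 5 / 8 * (boxNet d L).dist z v))}} ≤
          ENNReal.ofReal k := by
  classical
  obtain ⟨C, hC, HC⟩ := grow_mean N d β hβ
  set C' : ℝ := C + 4 * d with hC'
  have hC'0 : 0 < C' := by positivity
  set Q : ℝ := Real.exp (5 * C') * 3 ^ d with hQ
  have hQ0 : 0 < Q := by positivity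
  refine ⟨C', min (1 / 2) (min Q⁻¹ ((1 / 2) ^ (8 : ℕ))), hC'0, by positivity,
    (min_le_left _ _).trans_lt (by norm_num), ?_⟩
  intro F k S hk hkk hB
  have hk1 : k < 1 := hkk.trans_le ((min_le_left _ _).trans (by norm_num))
  have hkQ : k * Q ≤ 1 := by
    have h1 : k ≤ Q⁻¹ := hkk.le.trans ((min_le_right _ _).trans (min_le_left _ _))
    calc k * Q ≤ Q⁻¹ * Q := mul_le_mul_of_nonneg_right h1 hQ0.le
      _ = 1 := inv_mul_cancel₀ hQ0.ne'
  have hk8 : k ^ (1 / 8 : ℝ) ≤ 1 / 2 := by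
    have h1 : k ≤ (1 / 2) ^ (8 : ℕ) := hkk.le.trans ((min_le_right _ _).trans (min_le_right _ _))
    calc k ^ (1 / 8 : ℝ) ≤ ((1 / 2 : ℝ) ^ (8 : ℕ)) ^ (1 / 8 : ℝ) :=
          Real.rpow_le_rpow hk.le h1 (by norm_num)
      _ = 1 / 2 := by
          rw [← Real.rpow_natCast, ← Real.rpow_mul (by norm_num)]
          norm_num
  have hell : 0 < ell k := ell_pos hk hk1
  obtain ⟨h0, hh0, H⟩ := HC F k S hk hk1 hB
  refine ⟨h0, hh0, ?_⟩
  intro h hh hlt L G z A0 hG n hn
  have hpr : ∀ v, prof k (-A0) (1 / 2) z v = k ^ (-(A0 + (boxNet d L).dist z v / 2)) := by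
    intro v
    unfold prof
    rw [(boxNet d L).dist_comm v z]
    congr 1
    ring
  have hmean := H h hh hlt L (G, fun _ => 0) (prof k (-A0) (1 / 2) z) (4 * d)
    (fun x => (Real.rpow_pos_of_pos hk _).le)
    (fun x => by
      refine (prof_cpl k (-A0) (1 / 2) hk hk1 z x).trans ?_
      have h1 : k ^ (1 - max |(1 / 2 : ℝ)| 0) ≤ 1 :=
        Real.rpow_le_one hk.le hk1.le (by rw [abs_of_pos (by norm_num)]; norm_num)
      have h2 : 0 ≤ prof k (-A0) (1 / 2) z x := (Real.rpow_pos_of_pos hk _).le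
      nlinarith [mul_nonneg (by positivity : (0 : ℝ) ≤ 4 * d) h2,
        mul_le_mul_of_nonneg_left h1 (mul_nonneg (by positivity : (0 : ℝ) ≤ 4 * d) h2)])
    (fun x => by
      show ‖G x - 0‖ ≤ _
      rw [sub_zero, hpr]
      exact hG x) n
  -- measure of the bad event
  set th : boxS d L → ℝ := fun v => k ^ (-((A0 + (C' * T + 2)) + 5 / 8 * (boxNet d L).dist z v))
    with hth
  have hth0 : ∀ v, 0 < th v := fun v => Real.rpow_pos_of_pos hk _
  have hA : MeasurableSet ({g : boxS d L → F.V | ∀ v, ‖g v‖ ≤ th v}) := low3_mU th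
  have hlaw := low3_law S h L G n ({g : boxS d L → F.V | ∀ v, ‖g v‖ ≤ th v}ᶜ) hA.compl
  have e0 : {ω | traj (F.st h L) G ω n ∉ {g : boxS d L → F.V | ∀ v, ‖g v‖ ≤ th v}} =
      {ω | traj (F.st h L) G ω n ∈ {g : boxS d L → F.V | ∀ v, ‖g v‖ ≤ th v}ᶜ} := rfl
  rw [e0, hlaw]
  have hsub : {ω | (S.tr h L (G, fun _ => 0) ω n).1 ∈ {g : boxS d L → F.V | ∀ v, ‖g v‖ ≤ th v}ᶜ} ⊆
      ⋃ v ∈ (Finset.univ : Finset (boxS d L)), {ω | ENNReal.ofReal (th v) ≤ ENNReal.ofReal
        (dif (S.tr h L (G, fun _ => 0) ω n).1 (S.tr h L (G, fun _ => 0) ω n).2 v)} := by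
    intro ω hω
    have h1 : ¬ ∀ v, ‖(S.tr h L (G, fun _ => 0) ω n).1 v‖ ≤ th v := hω
    push Not at h1
    obtain ⟨v, hv⟩ := h1
    simp only [Set.mem_iUnion]
    refine ⟨v, Finset.mem_univ v, ?_⟩
    show ENNReal.ofReal (th v) ≤ ENNReal.ofReal (‖(S.tr h L (G, fun _ => 0) ω n).1 v -
      (S.tr h L (G, fun _ => 0) ω n).2 v‖)
    rw [low3_zero S hh L G ω n v, sub_zero]
    exact ENNReal.ofReal_le_ofReal hv.le
  refine (measure_mono hsub).trans ((measure_biUnion_finset_le _ _).trans ?_)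
  have hone : ∀ v, PI (S.mu L) {ω | ENNReal.ofReal (th v) ≤ ENNReal.ofReal
        (dif (S.tr h L (G, fun _ => 0) ω n).1 (S.tr h L (G, fun _ => 0) ω n).2 v)} ≤
      ENNReal.ofReal (Real.exp (5 * C') * k ^ (2 : ℝ) * (1 / 2) ^ (boxNet d L).dist z v) := by
    intro v
    have hm : Measurable fun ω : ℕ → boxS d L → S.Ωp => ENNReal.ofReal
        (dif (S.tr h L (G, fun _ => 0) ω n).1 (S.tr h L (G, fun _ => 0) ω n).2 v) := by
      refine Measurable.ennreal_ofReal ?_
      have h1 : Measurable fun ω : ℕ → boxS d L → S.Ωp => S.tr h L (G, fun _ => 0) ω n :=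
        (measurable_traj (S.st h L) (S.mst h L) n).comp (measurable_const.prodMk measurable_id)
      have h2 := (measurable_pi_apply v).comp (measurable_fst.comp h1)
      have h3 := (measurable_pi_apply v).comp (measurable_snd.comp h1)
      exact (h2.sub h3).norm
    have h1 := mul_meas_ge_le_lintegral (μ := PI (S.mu L)) hm (ENNReal.ofReal (th v))
    have h2 := h1.trans (hmean v)
    have hpos : ENNReal.ofReal (th v) ≠ 0 := (ENNReal.ofReal_pos.2 (hth0 v)).ne'
    have h3 : PI (S.mu L) {ω | ENNReal.ofReal (th v) ≤ ENNReal.ofReal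
        (dif (S.tr h L (G, fun _ => 0) ω n).1 (S.tr h L (G, fun _ => 0) ω n).2 v)} ≤
        ENNReal.ofReal (Real.exp ((C + 4 * d) * (n * h)) * prof k (-A0) (1 / 2) z v) /
          ENNReal.ofReal (th v) := by
      rw [ENNReal.le_div_iff_mul_le (Or.inl hpos) (Or.inl ENNReal.ofReal_ne_top), mul_comm]
      exact h2
    refine h3.trans ?_
    rw [← ENNReal.ofReal_div_of_pos (hth0 v)]
    refine ENNReal.ofReal_le_ofReal ?_
    rw [div_le_iff₀ (hth0 v), hpr v]
    have h4 : Real.exp ((C + 4 * d) * (n * h)) ≤ Real.exp (5 * C') * k ^ (-(C' * T)) := by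
      rw [low3_exp hk, ← Real.exp_add]
      refine Real.exp_le_exp.2 ?_
      rw [← hC']
      have := mul_le_mul_of_nonneg_left hn hC'0.le
      nlinarith
    have h5 : (k ^ (1 / 8 : ℝ)) ^ (boxNet d L).dist z v ≤ (1 / 2 : ℝ) ^ (boxNet d L).dist z v :=
      pow_le_pow_left₀ (Real.rpow_pos_of_pos hk _).le hk8 _
    calc Real.exp ((C + 4 * d) * (n * h)) * k ^ (-(A0 + (boxNet d L).dist z v / 2))
        ≤ Real.exp (5 * C') * k ^ (-(C' * T)) * k ^ (-(A0 + (boxNet d L).dist z v / 2)) :=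
          mul_le_mul_of_nonneg_right h4 (Real.rpow_pos_of_pos hk _).le
      _ = Real.exp (5 * C') * k ^ (2 : ℝ) * (k ^ (1 / 8 : ℝ)) ^ (boxNet d L).dist z v * th v := by
          rw [hth, ← Real.rpow_natCast (k ^ (1 / 8 : ℝ)), ← Real.rpow_mul hk.le]
          rw [mul_assoc, mul_assoc, mul_assoc, ← Real.rpow_add hk, ← Real.rpow_add hk,
            ← Real.rpow_add hk]
          congr 2
          ring
      _ ≤ Real.exp (5 * C') * k ^ (2 : ℝ) * (1 / 2) ^ (boxNet d L).dist z v * th v := by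
          refine mul_le_mul_of_nonneg_right ?_ (hth0 v).le
          refine mul_le_mul_of_nonneg_left h5 ?_
          positivity
  refine (Finset.sum_le_sum fun v _ => hone v).trans ?_
  rw [← ENNReal.ofReal_sum_of_nonneg (fun v _ => by positivity)]
  refine ENNReal.ofReal_le_ofReal ?_
  rw [← Finset.mul_sum]
  have h6 := (boxNet d L).sum_half z
  calc Real.exp (5 * C') * k ^ (2 : ℝ) * ∑ v, (1 / 2 : ℝ) ^ (boxNet d L).dist z v
      ≤ Real.exp (5 * C') * k ^ (2 : ℝ) * 3 ^ d := mul_le_mul_of_nonneg_left h6 (by positivity)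
    _ = k * Q * k := by
        rw [Real.rpow_two, hQ]
        ring
    _ ≤ 1 * k := mul_le_mul_of_nonneg_right hkQ hk.le
    _ = k := one_mul k

/-- caps at one time -/
private theorem low3_C (N d : ℕ) (β ε : ℝ) (hβ : 0 < β) (hε : 0 < ε) : ∃ c k0 : ℝ, 0 < c ∧
    0 < k0 ∧ k0 < 1 ∧
    ∀ (F : Fam d) (k : ℝ) (S : PSys F β k), 0 < k → k < k0 → BNoise N S.ν S.b S.gd →
    ∀ (L : ℕ) (Sm B : ℝ), 0 ≤ Sm → 0 ≤ B →
    ∃ h0 : ℝ, 0 < h0 ∧ ∀ h, 0 < h → h < h0 → ∀ G : boxS d L → F.V, (∀ v, ‖G v‖ ≤ B) → ∀ n : ℕ,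
      n * h ≤ Sm → 1 ≤ n * h → ∀ w,
      PI (F.mu L) {ω | traj (F.st h L) G ω n ∉ {g : boxS d L → F.V | Caps k (nrm g) ε w}} ≤
          ENNReal.ofReal (k ^ c) + ENNReal.ofReal k := by
  classical
  obtain ⟨c, k0, hc, hk0, hk01, HC⟩ := caps_prob N d β hβ ε hε
  refine ⟨c, k0, hc, hk0, hk01, ?_⟩
  intro F k S hk hkk hB L Sm B hSm hB0
  have hk1 : k < 1 := hkk.trans hk01
  obtain ⟨h1, hh1, H1⟩ := HC F k S hk hkk hB L
  set cb : ℝ := (Fintype.card (boxS d L) : ℝ) with hcb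
  have hden : 0 < 1 + cb * B := by positivity
  obtain ⟨h2, hh2, H2⟩ := exit_bd N hβ hk.le S hB L Sm (k / (1 + cb * B)) hSm (by positivity)
  refine ⟨min h1 h2, lt_min hh1 hh2, ?_⟩
  intro h hh hlt G hG n hn hn1 w
  have hA : MeasurableSet ({g : boxS d L → F.V | Caps k (nrm g) ε w}) := low3_mC k ε w
  have hlaw := low3_law S h L G n ({g : boxS d L → F.V | Caps k (nrm g) ε w}ᶜ) hA.compl
  have e0 : {ω | traj (F.st h L) G ω n ∉ {g : boxS d L → F.V | Caps k (nrm g) ε w}} =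
      {ω | traj (F.st h L) G ω n ∈ {g : boxS d L → F.V | Caps k (nrm g) ε w}ᶜ} := rfl
  rw [e0, hlaw]
  have hsub : {ω | (S.tr h L (G, fun _ => 0) ω n).1 ∈
        {g : boxS d L → F.V | Caps k (nrm g) ε w}ᶜ} ⊆
      (S.alv h L (G, fun _ => 0) n ∩ {ω | ¬ Caps k (fun v => ‖(S.tr h L (G, fun _ => 0) ω n).1 v‖ +
          ‖(S.tr h L (G, fun _ => 0) ω n).2 v‖) ε w}) ∪ (S.alv h L (G, fun _ => 0) n)ᶜ := by
    intro ω hω
    by_cases ha : ω ∈ S.alv h L (G, fun _ => 0) n
    · refine Or.inl ⟨ha, ?_⟩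
      show ¬ Caps k (fun v => ‖(S.tr h L (G, fun _ => 0) ω n).1 v‖ +
          ‖(S.tr h L (G, fun _ => 0) ω n).2 v‖) ε w
      have e : (fun v => ‖(S.tr h L (G, fun _ => 0) ω n).1 v‖ +
          ‖(S.tr h L (G, fun _ => 0) ω n).2 v‖) = nrm (S.tr h L (G, fun _ => 0) ω n).1 := by
        funext v
        rw [low3_zero S hh L G ω n v, norm_zero, add_zero]
        rfl
      rw [e]
      exact hω
    · exact Or.inr ha
  refine (measure_mono hsub).trans ((measure_union_le _ _).trans ?_)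
  refine add_le_add (H1 h hh (hlt.trans_le (min_le_left _ _)) (G, fun _ => 0) n hn1 w) ?_
  refine (H2 h hh (hlt.trans_le (min_le_right _ _)) (G, fun _ => 0) n hn).trans ?_
  refine ENNReal.ofReal_le_ofReal ?_
  have h3 : ∑ x, (‖G x‖ + ‖(0 : F.V)‖) ≤ cb * B := by
    calc ∑ x, (‖G x‖ + ‖(0 : F.V)‖) ≤ ∑ _x : boxS d L, B := by
          refine Finset.sum_le_sum fun x _ => ?_
          rw [norm_zero, add_zero]
          exact hG x
      _ = cb * B := by
          rw [Finset.sum_const, nsmul_eq_mul, Finset.card_univ]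
  calc k / (1 + cb * B) * (1 + ∑ x, (‖G x‖ + ‖(0 : F.V)‖))
      ≤ k / (1 + cb * B) * (1 + cb * B) :=
        mul_le_mul_of_nonneg_left (by linarith) (by positivity)
    _ = k := by field_simp

theorem low3 (N d : ℕ) (hN : 2 ≤ N) (β : ℝ) (hβ : 0 < β) (T0 M ε : ℝ) (hT : 0 < T0) (hM : 1 ≤ M)
    (hε : 0 < ε) : ∃ Md ε0 c k0 : ℝ, 0 < ε0 ∧ 0 < c ∧ 0 < k0 ∧ k0 < 1 ∧
    ∀ k, 0 < k → k < k0 → ∀ (S : PSys (Fam1 N d β k) β k), BNoise N S.ν S.b S.gd →
    ∀ L : ℕ, ∃ h0 : ℝ, 0 < h0 ∧ ∀ h, 0 < h → h < h0 →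
    ∀ (m : ℕ), T0 * ell k - 5 ≤ m * h → m * h ≤ T0 * ell k + 5 →
    ∀ (G : boxS d L → E N) (z w : boxS d L) (X0 : ℝ), X0 ≤ 1 / 8 → k ^ (-X0) ≤ ‖G z‖ →
    (boxNet d L).dist z w ≤ M →
    (∀ v, ‖G v‖ ≤ k ^ (-(X0 + M + (boxNet d L).dist z v / 2))) →
    (Caps k (nrm G) ε0 z ∨ X0 ≤ -Md) →
      PI ((Fam1 N d β k).mu L) {ω | ‖traj ((Fam1 N d β k).st h L) G ω m w‖ <
          k ^ (ε - min (X0 - (boxNet d L).dist z w + lamN N * (m * h) / ell k) (-(1 / 16)))}
        ≤ ENNReal.ofReal (k ^ c) := by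
  classical
  have hlam : 0 ≤ lamN N := by
    unfold lamN
    have : (2 : ℝ) ≤ N := by exact_mod_cast hN
    linarith
  obtain ⟨σ0, hσ0, Hwl⟩ := wl3 N d (by omega) β hβ (1 / 64) (by norm_num) le_rfl
  obtain ⟨C, kU, hC, hkU, hkU1, HU⟩ := low3_U N d β T0 hβ
  set J : ℕ := ⌈(T0 + 1) / σ0⌉₊ with hJ
  have hJ1 : 1 ≤ J := Nat.one_le_ceil_iff.2 (by positivity)
  have hJr : (1 : ℝ) ≤ J := by exact_mod_cast hJ1
  have hJσ : (T0 + 1) / σ0 ≤ J := Nat.le_ceil _
  set ε' : ℝ := ε / J with hε'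
  have hε'0 : 0 < ε' := by positivity
  have hJε : J * ε' = ε := by
    rw [hε']
    field_simp
  set M1 : ℝ := C * T0 + 2 with hM1
  have hM10 : 0 < M1 := by positivity
  set m0 : ℕ := ⌈(8 / 3) * (21 / 8 * M + M1 + ε)⌉₊ with hm0
  have hm0r : (8 / 3) * (21 / 8 * M + M1 + ε) ≤ m0 := Nat.le_ceil _
  obtain ⟨e1, cw, kw, he1, hcw, hkw, hkw1, Hw⟩ := Hwl σ0 hσ0 le_rfl m0 ε' hε'0
  set ε'' : ℝ := min (1 / 32) (e1 / (1 + m0)) with hε''
  have hε''0 : 0 < ε'' := by positivity
  obtain ⟨cc, kc, hcc, hkc, hkc1, HC⟩ := low3_C N d β ε'' hβ hε''0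
  set ε0 : ℝ := min (min (1 / 2) (1 / (16 * (2 + M)))) (e1 / (1 + m0 + M)) with hε0
  have hε00 : 0 < ε0 := by positivity
  set cm : ℝ := min cw (min cc 1) with hcm
  have hcm0 : 0 < cm := by positivity
  have hcmw : cm ≤ cw := min_le_left _ _
  have hcmc : cm ≤ cc := (min_le_right _ _).trans (min_le_left _ _)
  have hcm1 : cm ≤ 1 := (min_le_right _ _).trans (min_le_right _ _)
  set L1 : ℝ := max 5 ((J + 6) / T0) with hL1
  set k0 : ℝ := min (min kw (min kc kU))
    (min (Real.exp (-L1)) (min ((1 / (4 * J)) ^ (2 / cm)) (1 / 2))) with hk0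
  refine ⟨2 * M + m0 + 1, ε0, cm / 2, k0, hε00, by positivity, by positivity, ?_, ?_⟩
  · have : k0 ≤ kw := (min_le_left _ _).trans (min_le_left _ _)
    exact this.trans_lt hkw1
  intro k hk hkk S hB L
  have hkw' : k < kw := hkk.trans_le ((min_le_left _ _).trans (min_le_left _ _))
  have hkc' : k < kc :=
    hkk.trans_le ((min_le_left _ _).trans ((min_le_right _ _).trans (min_le_left _ _)))
  have hkU' : k < kU :=
    hkk.trans_le ((min_le_left _ _).trans ((min_le_right _ _).trans (min_le_right _ _)))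
  have hkL : k < Real.exp (-L1) := hkk.trans_le ((min_le_right _ _).trans (min_le_left _ _))
  have hkp : k ≤ (1 / (4 * J)) ^ (2 / cm) :=
    hkk.le.trans ((min_le_right _ _).trans ((min_le_right _ _).trans (min_le_left _ _)))
  have hk1 : k < 1 := hkw'.trans hkw1
  have hell : 0 < ell k := ell_pos hk hk1
  have hellL : L1 ≤ ell k := by
    have h1 := Real.log_lt_log hk hkL
    rw [Real.log_exp] at h1
    unfold ell
    rw [one_div, Real.log_inv]
    linarith
  have hell5 : 5 ≤ ell k := (le_max_left _ _).trans hellL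
  have hellJ : J + 6 ≤ T0 * ell k := by
    have h1 : (J + 6) / T0 ≤ ell k := (le_max_right _ _).trans hellL
    rw [div_le_iff₀ hT] at h1
    linarith
  set p : ℝ := k ^ cm with hp
  have hp0 : 0 < p := Real.rpow_pos_of_pos hk _
  have hpw : k ^ cw ≤ p := low3_le hk hk1 hcmw
  have hpc : k ^ cc ≤ p := low3_le hk hk1 hcmc
  have hpk : k ≤ p := by
    calc k = k ^ (1 : ℝ) := (Real.rpow_one k).symm
      _ ≤ p := low3_le hk hk1 hcm1
  have hpJ : 4 * J * p ≤ k ^ (cm / 2) := by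
    have h1 : k ^ (cm / 2) ≤ 1 / (4 * J) := by
      calc k ^ (cm / 2) ≤ ((1 / (4 * J)) ^ (2 / cm)) ^ (cm / 2) :=
            Real.rpow_le_rpow hk.le hkp (by positivity)
        _ = 1 / (4 * J) := by
            rw [← Real.rpow_mul (by positivity)]
            have : 2 / cm * (cm / 2) = 1 := by field_simp
            rw [this, Real.rpow_one]
    have h2 : p = k ^ (cm / 2) * k ^ (cm / 2) := by
      rw [hp, ← Real.rpow_add hk]
      congr 1
      ring
    have h3 : 0 < k ^ (cm / 2) := Real.rpow_pos_of_pos hk _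
    rw [h2]
    calc 4 * J * (k ^ (cm / 2) * k ^ (cm / 2)) = (4 * J * k ^ (cm / 2)) * k ^ (cm / 2) := by ring
      _ ≤ (4 * J * (1 / (4 * J))) * k ^ (cm / 2) := by
          refine mul_le_mul_of_nonneg_right ?_ h3.le
          exact mul_le_mul_of_nonneg_left h1 (by positivity)
      _ = k ^ (cm / 2) := by
          field_simp
  obtain ⟨h1, hh1, H1⟩ := Hw k hk hkw' S hB L
  obtain ⟨h2, hh2, H2⟩ := HU (Fam1 N d β k) k S hk hkU' hB
  set B : ℝ := ∑ z : boxS d L, ∑ v : boxS d L,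
    k ^ (-(1 / 8 + M + (boxNet d L).dist z v / 2)) with hBdef
  have hB0 : 0 ≤ B :=
    Finset.sum_nonneg fun z _ => Finset.sum_nonneg fun v _ => (Real.rpow_pos_of_pos hk _).le
  obtain ⟨h3, hh3, H3⟩ := HC (Fam1 N d β k) k S hk hkc' hB L (T0 * ell k + 5) B (by positivity) hB0
  refine ⟨min (min h1 h2) (min h3 (1 / (J + 1))), by positivity, ?_⟩
  intro h hh hlt m hm1 hm2 G z w X0 hX hGz hzw hprof hcap
  have hlt1 : h < h1 := hlt.trans_le ((min_le_left _ _).trans (min_le_left _ _))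
  have hlt2 : h < h2 := hlt.trans_le ((min_le_left _ _).trans (min_le_right _ _))
  have hlt3 : h < h3 := hlt.trans_le ((min_le_right _ _).trans (min_le_left _ _))
  have hltJ : h < 1 / (J + 1) := hlt.trans_le ((min_le_right _ _).trans (min_le_right _ _))
  have hJh : (J + 1) * h < 1 := by
    rw [lt_div_iff₀ (by positivity)] at hltJ
    linarith
  have hD0 : (0 : ℝ) ≤ (boxNet d L).dist z w := Nat.cast_nonneg _
  set Q : ℕ → ℕ → Prop := fun t j => PI ((Fam1 N d β k).mu L)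
    {ω | ‖traj ((Fam1 N d β k).st h L) G ω t w‖ <
      k ^ ((j : ℝ) * ε' - min (X0 - (boxNet d L).dist z w + lamN N * ((t : ℝ) * h) / ell k)
        (-(1 / 16)))} ≤ ENNReal.ofReal (4 * (j : ℝ) * p) with hQ
  -- first window
  have hstart : ∀ n : ℕ, 1 ≤ n * h → n * h ≤ σ0 * ell k + 1 → Q n 1 := by
    intro n hn1 hn2
    have hle : ENNReal.ofReal (k ^ cw) ≤ ENNReal.ofReal (4 * ((1 : ℕ) : ℝ) * p) :=
      ENNReal.ofReal_le_ofReal (by push_cast; linarith)
    refine le_trans ?_ hle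
    have hA : ∀ v, ‖G v‖ ≤ k ^ (-((X0 + M) + 5 / 8 * (boxNet d L).dist z v)) := fun v =>
      (hprof v).trans (low3_le hk hk1 (by
        have : (0 : ℝ) ≤ (boxNet d L).dist z v := Nat.cast_nonneg _
        linarith))
    have hY : ∃ v0, k ^ (-(X0 - (boxNet d L).dist z w)) ≤
        ‖G v0‖ * k ^ (boxNet d L).dist w v0 := by
      refine ⟨z, ?_⟩
      have e : k ^ (-(X0 - (boxNet d L).dist z w)) = k ^ (-X0) * k ^ (boxNet d L).dist w z := by
        rw [(boxNet d L).dist_comm w z, ← Real.rpow_natCast, ← Real.rpow_add hk]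
        congr 1
        ring
      rw [e]
      exact mul_le_mul_of_nonneg_right hGz (by positivity)
    have hmm : X0 + M - (X0 - (boxNet d L).dist z w) + 5 / 8 * M ≤ 3 / 8 * m0 := by linarith
    have hyy : k ^ (((1 : ℕ) : ℝ) * ε' - min (X0 - (boxNet d L).dist z w +
        lamN N * ((n : ℝ) * h) / ell k) (-(1 / 16))) ≤
        k ^ (ε' - min (X0 - (boxNet d L).dist z w + lamN N * (n * h) / ell k) (-(1 / 16))) := by
      rw [Nat.cast_one, one_mul]
    have hdz : ∀ v, (boxNet d L).dist w v ≤ m0 → ((boxNet d L).dist v z : ℝ) ≤ M + m0 := by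
      intro v hv
      have h4 := (boxNet d L).dist_tri z w v
      have h5 : ((boxNet d L).dist z v : ℝ) ≤ (boxNet d L).dist z w + (boxNet d L).dist w v := by
        exact_mod_cast h4
      have h6 : ((boxNet d L).dist w v : ℝ) ≤ m0 := by exact_mod_cast hv
      rw [(boxNet d L).dist_comm v z]
      linarith
    have hd1 : ∀ v, (boxNet d L).dist w v ≤ 1 → ((boxNet d L).dist v z : ℝ) ≤ M + 1 := by
      intro v hv
      have h4 := (boxNet d L).dist_tri z w v
      have h5 : ((boxNet d L).dist z v : ℝ) ≤ (boxNet d L).dist z w + (boxNet d L).dist w v := by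
        exact_mod_cast h4
      have h6 : ((boxNet d L).dist w v : ℝ) ≤ 1 := by exact_mod_cast hv
      rw [(boxNet d L).dist_comm v z]
      linarith
    have hnb : ∀ v, ∀ y ∈ (boxNet d L).nb v, ((boxNet d L).dist y z : ℝ) ≤
        (boxNet d L).dist v z + 1 := by
      intro v y hy
      have h4 := (boxNet d L).dist_tri z v y
      have h5 := (boxNet d L).dist_nb v y hy
      rw [h5] at h4
      rw [(boxNet d L).dist_comm y z, (boxNet d L).dist_comm v z]
      exact_mod_cast h4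
    rcases hcap with hcap | hcap
    · refine low3_win hk hk1 hε'0 (H1 h hh hlt1) G z w (X0 + M) (X0 - (boxNet d L).dist z w) M hzw
        hA hY hmm ?_ (fun v => ε0 * (1 + (boxNet d L).dist v z)) ?_ ?_ ?_ n hn1 hn2 _ hyy
      · intro v hv
        refine (hcap v).trans (low3_le hk hk1 ?_)
        have h4 := hdz v hv
        have h5 : ε0 ≤ e1 / (1 + m0 + M) := min_le_right _ _
        rw [le_div_iff₀ (by positivity)] at h5
        have h6 : ε0 * (1 + (boxNet d L).dist v z) ≤ ε0 * (1 + m0 + M) :=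
          mul_le_mul_of_nonneg_left (by linarith) hε00.le
        linarith
      · intro v y hy
        have h4 := hnb v y hy
        have h5 : ε0 ≤ 1 / 2 := (min_le_left _ _).trans (min_le_left _ _)
        show ε0 * (1 + (boxNet d L).dist y z) ≤ ε0 * (1 + (boxNet d L).dist v z) + 3 / 4
        linarith only [mul_le_mul_of_nonneg_left h4 hε00.le, h5]
      · intro v hv
        have h4 := hd1 v hv
        have h5 : ε0 ≤ 1 / (16 * (2 + M)) := (min_le_left _ _).trans (min_le_right _ _)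
        rw [le_div_iff₀ (by positivity)] at h5
        show ε0 * (1 + (boxNet d L).dist v z) ≤ 1 / 16
        linarith only [mul_le_mul_of_nonneg_left h4 hε00.le, h5]
      · intro v
        exact hcap v
    · refine low3_win hk hk1 hε'0 (H1 h hh hlt1) G z w (X0 + M) (X0 - (boxNet d L).dist z w) M hzw
        hA hY hmm ?_ (fun v => X0 + M + (boxNet d L).dist z v / 2) ?_ ?_ ?_ n hn1 hn2 _ hyy
      · intro v hv
        refine (hprof v).trans (low3_le hk hk1 ?_)
        have h4 := hdz v hv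
        rw [(boxNet d L).dist_comm v z] at h4
        have h5 : (0 : ℝ) ≤ m0 := Nat.cast_nonneg _
        linarith
      · intro v y hy
        have h4 := hnb v y hy
        rw [(boxNet d L).dist_comm y z, (boxNet d L).dist_comm v z] at h4
        show X0 + M + (boxNet d L).dist z y / 2 ≤ X0 + M + (boxNet d L).dist z v / 2 + 3 / 4
        linarith
      · intro v hv
        have h4 := hd1 v hv
        rw [(boxNet d L).dist_comm v z] at h4
        have h5 : (0 : ℝ) ≤ m0 := Nat.cast_nonneg _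
        show X0 + M + (boxNet d L).dist z v / 2 ≤ 1 / 16
        linarith
      · intro v
        exact hprof v
  -- later windows
  have hGB : ∀ v, ‖G v‖ ≤ B := by
    intro v
    refine (hprof v).trans ?_
    have h4 : k ^ (-(X0 + M + (boxNet d L).dist z v / 2)) ≤
        k ^ (-(1 / 8 + M + (boxNet d L).dist z v / 2)) := low3_le hk hk1 (by linarith)
    refine h4.trans ?_
    have h5 : k ^ (-(1 / 8 + M + (boxNet d L).dist z v / 2)) ≤
        ∑ v : boxS d L, k ^ (-(1 / 8 + M + (boxNet d L).dist z v / 2)) :=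
      Finset.single_le_sum (f := fun v => k ^ (-(1 / 8 + M + (boxNet d L).dist z v / 2)))
        (fun v _ => (Real.rpow_pos_of_pos hk _).le) (Finset.mem_univ v)
    refine h5.trans ?_
    exact Finset.single_le_sum
      (f := fun z => ∑ v : boxS d L, k ^ (-(1 / 8 + M + (boxNet d L).dist z v / 2)))
      (fun z _ => Finset.sum_nonneg fun v _ => (Real.rpow_pos_of_pos hk _).le) (Finset.mem_univ z)
  have hstep : ∀ t n j : ℕ, 1 ≤ t * h → t * h ≤ T0 * ell k + 5 → 1 ≤ n * h →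
      n * h ≤ σ0 * ell k + 1 → j ≤ J → Q t j → Q (t + n) (j + 1) := by
    intro t n j ht1 ht2 hn1 hn2 hj hQt
    set mn : ℝ := min (X0 - (boxNet d L).dist z w + lamN N * ((t : ℝ) * h) / ell k) (-(1 / 16))
      with hmn
    have hmn1 : X0 - M ≤ mn := by
      refine le_min ?_ (by linarith)
      have : 0 ≤ lamN N * ((t : ℝ) * h) / ell k := by positivity
      linarith
    have hjε : (j : ℝ) * ε' ≤ ε := by
      rw [← hJε]
      refine mul_le_mul_of_nonneg_right ?_ hε'0.le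
      exact_mod_cast hj
    have hjε0 : 0 ≤ (j : ℝ) * ε' := by positivity
    set Y : ℝ := mn - j * ε' with hY
    set A1 : Set (boxS d L → (Fam1 N d β k).V) :=
      {g | ∀ v, ‖g v‖ ≤ k ^ (-((X0 + M + (C * T0 + 2)) + 5 / 8 * (boxNet d L).dist z v))} with hA1
    set A2 : Set (boxS d L → (Fam1 N d β k).V) := {g | Caps k (nrm g) ε'' w} with hA2
    set A3 : Set (boxS d L → (Fam1 N d β k).V) := {g | k ^ (-Y) ≤ ‖g w‖} with hA3
    have hA1m : MeasurableSet A1 := low3_mU _
    have hA2m : MeasurableSet A2 := low3_mC _ _ _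
    have hA3m : MeasurableSet A3 := low3_ms' w _
    have hb1 : PI ((Fam1 N d β k).mu L) {ω | traj ((Fam1 N d β k).st h L) G ω t ∉ A1} ≤
        ENNReal.ofReal k :=
      H2 h hh hlt2 L G z (X0 + M) hprof t ht2
    have hb2 : PI ((Fam1 N d β k).mu L) {ω | traj ((Fam1 N d β k).st h L) G ω t ∉ A2} ≤
        ENNReal.ofReal (k ^ cc) + ENNReal.ofReal k :=
      H3 h hh hlt3 G hGB t ht2 ht1 w
    have hb3 : PI ((Fam1 N d β k).mu L) {ω | traj ((Fam1 N d β k).st h L) G ω t ∉ A3} ≤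
        ENNReal.ofReal (4 * (j : ℝ) * p) := by
      refine le_trans (measure_mono ?_) hQt
      intro ω hω
      have h4 : ¬ (k ^ (-Y) ≤ ‖traj ((Fam1 N d β k).st h L) G ω t w‖) := hω
      rw [not_le] at h4
      show ‖traj ((Fam1 N d β k).st h L) G ω t w‖ < _
      refine h4.trans_le (le_of_eq ?_)
      rw [hY]
      congr 1
      ring
    have hbad : PI ((Fam1 N d β k).mu L)
        {ω | traj ((Fam1 N d β k).st h L) G ω t ∉ A1 ∩ A2 ∩ A3} ≤
        (ENNReal.ofReal k + (ENNReal.ofReal (k ^ cc) + ENNReal.ofReal k)) +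
          ENNReal.ofReal (4 * (j : ℝ) * p) := by
      have hsub : {ω | traj ((Fam1 N d β k).st h L) G ω t ∉ A1 ∩ A2 ∩ A3} ⊆
          ({ω | traj ((Fam1 N d β k).st h L) G ω t ∉ A1} ∪
            {ω | traj ((Fam1 N d β k).st h L) G ω t ∉ A2}) ∪
            {ω | traj ((Fam1 N d β k).st h L) G ω t ∉ A3} := by
        intro ω hω
        by_contra hcon
        have h4 : ¬ ((traj ((Fam1 N d β k).st h L) G ω t ∉ A1 ∨
          traj ((Fam1 N d β k).st h L) G ω t ∉ A2) ∨
          traj ((Fam1 N d β k).st h L) G ω t ∉ A3) := hcon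
        push Not at h4
        exact hω ⟨⟨h4.1.1, h4.1.2⟩, h4.2⟩
      refine (measure_mono hsub).trans ((measure_union_le _ _).trans ?_)
      exact add_le_add ((measure_union_le _ _).trans (add_le_add hb1 hb2)) hb3
    have hmk := low3_mk (F := Fam1 N d β k) (h := h) G t n
      {g : boxS d L → (Fam1 N d β k).V | ‖g w‖ <
        k ^ (((j + 1 : ℕ) : ℝ) * ε' - min (X0 - (boxNet d L).dist z w +
          lamN N * (((t + n : ℕ) : ℝ) * h) / ell k) (-(1 / 16)))}
      (A1 ∩ A2 ∩ A3) (ENNReal.ofReal (k ^ cw)) (low3_ms w _) ((hA1m.inter hA2m).inter hA3m) ?_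
    · refine hmk.trans ((add_le_add_left hbad _).trans ?_)
      rw [← ENNReal.ofReal_add (by positivity) hk.le, ← ENNReal.ofReal_add hk.le (by positivity),
        ← ENNReal.ofReal_add (by positivity) (by positivity),
        ← ENNReal.ofReal_add (by positivity) (by positivity)]
      refine ENNReal.ofReal_le_ofReal ?_
      push_cast
      linarith
    · intro g hg
      obtain ⟨⟨hg1, hg2⟩, hg3⟩ := hg
      have hg1' : ∀ v, ‖g v‖ ≤ k ^ (-((X0 + M + (C * T0 + 2)) + 5 / 8 * (boxNet d L).dist z v)) :=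
        hg1
      have hg2' : ∀ v, ‖g v‖ ≤ k ^ (-(ε'' * (1 + (boxNet d L).dist v w))) := hg2
      have hg3' : k ^ (-Y) ≤ ‖g w‖ := hg3
      refine low3_win hk hk1 hε'0 (H1 h hh hlt1) g z w (X0 + M + (C * T0 + 2)) Y M hzw hg1'
        ⟨w, ?_⟩ ?_ ?_ (fun v => ε'' * (1 + (boxNet d L).dist v w)) ?_ ?_ hg2' n hn1 hn2 _ ?_
      · rw [(boxNet d L).dist_self, pow_zero, mul_one]
        exact hg3'
      · rw [hY]
        linarith
      · intro v hv
        refine (hg2' v).trans (low3_le hk hk1 ?_)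
        have h5 : ε'' ≤ e1 / (1 + m0) := min_le_right _ _
        rw [le_div_iff₀ (by positivity)] at h5
        have h7 : ((boxNet d L).dist v w : ℝ) ≤ m0 := by
          rw [(boxNet d L).dist_comm v w]
          exact_mod_cast hv
        have h6 : ε'' * (1 + (boxNet d L).dist v w) ≤ ε'' * (1 + m0) :=
          mul_le_mul_of_nonneg_left (by linarith) hε''0.le
        linarith
      · intro v y hy
        have h4 := (boxNet d L).dist_tri w v y
        have h5 := (boxNet d L).dist_nb v y hy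
        rw [h5] at h4
        have h6 : ((boxNet d L).dist y w : ℝ) ≤ (boxNet d L).dist v w + 1 := by
          rw [(boxNet d L).dist_comm y w, (boxNet d L).dist_comm v w]
          exact_mod_cast h4
        have h7 : ε'' ≤ 1 / 32 := min_le_left _ _
        show ε'' * (1 + (boxNet d L).dist y w) ≤ ε'' * (1 + (boxNet d L).dist v w) + 3 / 4
        linarith only [mul_le_mul_of_nonneg_left h6 hε''0.le, h7]
      · intro v hv
        have h6 : ((boxNet d L).dist v w : ℝ) ≤ 1 := by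
          rw [(boxNet d L).dist_comm v w]
          exact_mod_cast hv
        have h7 : ε'' ≤ 1 / 32 := min_le_left _ _
        show ε'' * (1 + (boxNet d L).dist v w) ≤ 1 / 16
        linarith only [mul_le_mul_of_nonneg_left h6 hε''0.le, h7]
      · refine low3_le hk hk1 ?_
        have h8 : min (X0 - (boxNet d L).dist z w + lamN N * (((t + n : ℕ) : ℝ) * h) / ell k)
            (-(1 / 16)) ≤ min (Y + lamN N * (n * h) / ell k) (-(1 / 16)) + j * ε' := by
          rw [← min_add_add_right]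
          refine le_min ?_ ?_
          · have h9 : 0 ≤ lamN N * (n * h) / ell k := by positivity
            have h10 : lamN N * (((t + n : ℕ) : ℝ) * h) / ell k =
                lamN N * ((t : ℝ) * h) / ell k + lamN N * (n * h) / ell k := by
              push_cast
              ring
            have h11 : min (X0 - (boxNet d L).dist z w +
                lamN N * (((t + n : ℕ) : ℝ) * h) / ell k) (-(1 / 16)) ≤
                mn + lamN N * (n * h) / ell k := by
              rw [hmn, ← min_add_add_right, h10]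
              refine min_le_min ?_ ?_
              · linarith
              · linarith
            rw [hY]
            linarith
          · refine (min_le_right _ _).trans ?_
            linarith
        push_cast at h8 ⊢
        linarith
  -- windows
  set n : ℕ := m / J with hn
  have hdiv : J * n + m % J = m := Nat.div_add_mod m J
  have hmod : m % J < J := Nat.mod_lt _ (by omega)
  have hnr : (J : ℝ) * n + (m % J : ℕ) = m := by exact_mod_cast hdiv
  have hmodr : ((m % J : ℕ) : ℝ) ≤ J := by exact_mod_cast hmod.le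
  have hmod0 : (0 : ℝ) ≤ ((m % J : ℕ) : ℝ) := Nat.cast_nonneg _
  have hn1 : 1 ≤ n * h := by
    have h4 : (J : ℝ) * (n * h) = m * h - (m % J : ℕ) * h := by
      rw [← hnr]
      ring
    have h5 : ((m % J : ℕ) : ℝ) * h ≤ J * h := mul_le_mul_of_nonneg_right hmodr hh.le
    have h6 : (J : ℝ) * 1 ≤ J * (n * h) := by
      rw [h4]
      linarith only [h5, hJh, hm1, hellJ, hh]
    exact le_of_mul_le_mul_left h6 (by positivity)
  have hn2 : (n + (m % J : ℕ) : ℝ) * h ≤ σ0 * ell k + 1 := by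
    have h4 : (J : ℝ) * (n * h) ≤ T0 * ell k + 5 := by
      have : (J : ℝ) * (n * h) = m * h - (m % J : ℕ) * h := by
        rw [← hnr]
        ring
      have h5 : 0 ≤ ((m % J : ℕ) : ℝ) * h := by positivity
      linarith
    have h5 : (T0 + 1) ≤ J * σ0 := by
      rwa [div_le_iff₀ hσ0] at hJσ
    have h6 : (J : ℝ) * (n * h) ≤ J * (σ0 * ell k) := by
      calc (J : ℝ) * (n * h) ≤ T0 * ell k + 5 := h4
        _ ≤ (T0 + 1) * ell k := by linarith
        _ ≤ (J * σ0) * ell k := mul_le_mul_of_nonneg_right h5 hell.le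
        _ = J * (σ0 * ell k) := by ring
    have h7 : n * h ≤ σ0 * ell k := le_of_mul_le_mul_left h6 (by positivity)
    have h8 : ((m % J : ℕ) : ℝ) * h ≤ J * h := mul_le_mul_of_nonneg_right hmodr hh.le
    linarith only [h7, h8, hJh, hh]
  have hn2' : n * h ≤ σ0 * ell k + 1 := by
    have : 0 ≤ ((m % J : ℕ) : ℝ) * h := by positivity
    linarith
  have hn1' : 1 ≤ (n + (m % J : ℕ) : ℝ) * h := by
    have : 0 ≤ ((m % J : ℕ) : ℝ) * h := by positivity
    linarith
  have hind : ∀ j : ℕ, j + 1 ≤ J → Q ((j + 1) * n) (j + 1) := by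
    intro j
    induction j with
    | zero =>
      intro _
      have := hstart n hn1 hn2'
      simpa using this
    | succ j ih =>
      intro hj
      have h4 := ih (by omega)
      have e : (j + 1 + 1) * n = (j + 1) * n + n := by ring
      rw [e]
      refine hstep ((j + 1) * n) n (j + 1) ?_ ?_ hn1 hn2' (by omega) h4
      · push_cast
        have : 0 ≤ (j : ℝ) * (n * h) := by positivity
        linarith only [this, hn1]
      · have h5 : (((j + 1) * n : ℕ) : ℝ) ≤ m := by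
          have h6 : (j + 1) * n ≤ J * n := Nat.mul_le_mul_right _ (by omega)
          have h7 : (j + 1) * n ≤ m := by omega
          exact_mod_cast h7
        calc (((j + 1) * n : ℕ) : ℝ) * h ≤ m * h := mul_le_mul_of_nonneg_right h5 hh.le
          _ ≤ _ := hm2
  have hfin : Q m J := by
    by_cases hJ2 : J = 1
    · have e : m = n + m % J := by
        rw [hJ2] at hdiv ⊢
        omega
      have h4 := hstart (n + m % J) (by push_cast; exact hn1') (by push_cast; exact hn2)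
      rw [← e] at h4
      rw [hJ2]
      exact h4
    · obtain ⟨J', hJ'⟩ : ∃ J', J = J' + 1 + 1 := ⟨J - 2, by omega⟩
      have h4 := hind J' (by omega)
      have h5 := hstep ((J' + 1) * n) (n + m % J) (J' + 1) ?_ ?_ (by push_cast; exact hn1')
        (by push_cast; exact hn2) (by omega) h4
      · have e : (J' + 1) * n + (n + m % J) = m := by
          calc (J' + 1) * n + (n + m % J) = (J' + 1 + 1) * n + m % J := by ring
            _ = J * n + m % J := by rw [← hJ']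
            _ = m := hdiv
        rw [e, ← hJ'] at h5
        exact h5
      · push_cast
        have : 0 ≤ (J' : ℝ) * (n * h) := by positivity
        linarith only [this, hn1]
      · have h5 : (((J' + 1) * n : ℕ) : ℝ) ≤ m := by
          have h6 : (J' + 1) * n ≤ J * n := Nat.mul_le_mul_right _ (by omega)
          have h7 : (J' + 1) * n ≤ m := by omega
          exact_mod_cast h7
        calc (((J' + 1) * n : ℕ) : ℝ) * h ≤ m * h := mul_le_mul_of_nonneg_right h5 hh.le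
          _ ≤ _ := hm2
  have hfin' : PI ((Fam1 N d β k).mu L) {ω | ‖traj ((Fam1 N d β k).st h L) G ω m w‖ <
      k ^ ((J : ℝ) * ε' - min (X0 - (boxNet d L).dist z w + lamN N * ((m : ℝ) * h) / ell k)
        (-(1 / 16)))} ≤ ENNReal.ofReal (4 * (J : ℝ) * p) := hfin
  rw [hJε] at hfin'
  exact hfin'.trans (ENNReal.ofReal_le_ofReal hpJ)

end DynC

end

/-! ### from `Lib_MP_36b788c.ME3` -/

section

/-!
# Main estimate, `N ≥ 3`

PROOF of `mest3`. `λ = lamN N ≥ 1/2`, `T0 = 40`. Given `M` (replace it by `max M 8`), `Md, ε0, c` from `low3` with `T0`, `ε = 1/100`. `M0 = 30`. `s = a/ell`, `PL = dist x z/4 - g(X0) ≥ M0`.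
Site `w`: if `dist x z ≥ 8` a site with `dist z w = 8`, `dist x w = dist x z - 8` (eight steps of `toward`), otherwise `w = z`. `low3` (the first component of `S.tr` has the law of the chain, `tr_path`): outside probability `k^c`, `‖(tr m).1 w‖ ≥ k^{-X''}`, `X'' = min (X0 - dist z w + λ m h/ell) (-1/16) - 1/100`, and `λ m h/ell ≥ 19`.
`mom_cap`: outside probability `C k^{1/16}` (on `alv`) `SSt(t)(w) = 1 + k^{1/16} Yl(t)(w) ≤ 2` at time `m`. So `V1(tr m) x ≤ Tz(w)^{-s} ≤ exp(a(dist x w/4 - g(X''))) 2^{q s}`.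
Gain `PL - (dist x w/4 - g(X'')) ≥ 1`: if `dist x z ≥ 8`: `= 2 + g(X'') - g(X0)`, `g` monotone, `X'' ≥ X0 + 1` or `X'' ≥ -1/16 - 1/100 ≥ -1/8`, `g(X'') = -3/16 ≥ g(X0) - 1/16` (`X0 ≤ 1/8`). If `dist x z < 8`: `g(X0) ≤ -M0 + 2`, so `X0 ≤ -M0 + 3`, `X'' ≥ X0 + 18` or `≥ -1/8`: `g(X'') - g(X0) ≥ min(18 - 1/4, M0 - 3) ≥ 1`.
On the good event: `≤ 2^{qs} e^{-a} e^{a PL} ≤ (1 - a/2) e^{a PL}` (`e^{-a} ≤ 1 - a + a²/2`, `a ≤ 1/8`, `2^{qs} ≤ 1 + a/100`). On the rest: `(∫_{alv m} V1²)^{1/2} p^{1/2}`, `V_sq`, `sm_multi` with `2s` (`m h ≤ T0 ell + 5`): `≤ e^{C} V1 G x (2k^{c'})^{1/2} ≤ (a/100) V1 G x`.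
-/

open MeasureTheory ProbabilityTheory
open scoped ENNReal

namespace DynC

open Dyn

private theorem ME3_tend_ell : Filter.Tendsto ell (nhdsWithin 0 (Set.Ioi 0)) Filter.atTop := by
  unfold ell
  have h1 : Filter.Tendsto (fun k : ℝ => 1 / k) (nhdsWithin 0 (Set.Ioi 0)) Filter.atTop := by
    simpa [one_div] using tendsto_inv_nhdsGT_zero (𝕜 := ℝ)
  exact Real.tendsto_log_atTop.comp h1

private theorem ME3_tend_rpow {c : ℝ} (hc : 0 < c) :
    Filter.Tendsto (fun k : ℝ => k ^ c) (nhdsWithin 0 (Set.Ioi 0)) (nhds 0) := by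
  have h1 : Filter.Tendsto (fun k : ℝ => k ^ c) (nhds 0) (nhds ((0 : ℝ) ^ c)) :=
    (Real.continuousAt_rpow_const 0 c (Or.inr hc.le))
  rw [Real.zero_rpow hc.ne'] at h1
  exact h1.mono_left nhdsWithin_le_nhds

private theorem ME3_small (A a C9 C c kL k9 : ℝ) (ha : 0 < a) (hc : 0 < c)
    (hkL : 0 < kL) (hk9 : 0 < k9) : ∃ k0 : ℝ, 0 < k0 ∧ k0 < 1 ∧ ∀ k, 0 < k → k < k0 →
      k < kL ∧ k < k9 ∧ k < 1 ∧ A ≤ ell k ∧
        Real.exp (C9 / 2) * Real.sqrt (k ^ c + C * k ^ (1 / 16 : ℝ)) ≤ a / 100 := by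
  have h1 : ∀ᶠ k in nhdsWithin (0 : ℝ) (Set.Ioi 0), A ≤ ell k :=
    ME3_tend_ell.eventually (Filter.eventually_ge_atTop A)
  have h2 : Filter.Tendsto (fun k : ℝ => Real.exp (C9 / 2) * Real.sqrt (k ^ c + C * k ^ (1 / 16 : ℝ)))
      (nhdsWithin 0 (Set.Ioi 0)) (nhds 0) := by
    have e1 := (ME3_tend_rpow hc).add ((ME3_tend_rpow (c := 1 / 16) (by norm_num)).const_mul C)
    rw [mul_zero, add_zero] at e1
    have e2 := ((Real.continuous_sqrt.tendsto 0).comp e1).const_mul (Real.exp (C9 / 2))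
    rw [Real.sqrt_zero, mul_zero] at e2
    exact e2
  have h3 := h2.eventually (gt_mem_nhds (show (0 : ℝ) < a / 100 by positivity))
  obtain ⟨k1, hk1, H1⟩ := mem_nhdsGT_iff_exists_Ioo_subset.mp (h1.and h3)
  refine ⟨min (min kL k9) (min k1 (1 / 2)), ?_, ?_, ?_⟩
  · exact lt_min (lt_min hkL hk9) (lt_min hk1 (by norm_num))
  · exact lt_of_le_of_lt ((min_le_right _ _).trans (min_le_right _ _)) (by norm_num)
  · intro k hk hlt
    have hA := lt_of_lt_of_le hlt ((min_le_left _ _).trans (min_le_left _ _))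
    have hB := lt_of_lt_of_le hlt ((min_le_left _ _).trans (min_le_right _ _))
    have hC := lt_of_lt_of_le hlt ((min_le_right _ _).trans (min_le_left _ _))
    have hD := lt_of_lt_of_le hlt ((min_le_right _ _).trans (min_le_right _ _))
    have hm := H1 ⟨hk, hC⟩
    exact ⟨hA, hB, hD.trans (by norm_num), hm.1, hm.2.le⟩

/-- several steps towards `x` -/
private theorem ME3_toward {ι : Type} [Fintype ι] {d : ℕ} (net : Net ι d) (x z : ι) (n : ℕ)
    (h : n ≤ net.dist x z) : ∃ w, net.dist z w = n ∧ net.dist x w + n = net.dist x z := by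
  induction n with
  | zero => exact ⟨z, net.dist_self z, by simp⟩
  | succ n ih =>
    obtain ⟨w, hw1, hw2⟩ := ih (by omega)
    have hne : w ≠ x := by
      rintro rfl
      rw [net.dist_self] at hw2
      omega
    obtain ⟨w', hw', hd⟩ := net.toward x w hne
    have h1 : net.dist w w' = 1 := net.dist_nb w w' hw'
    have h2 := net.dist_tri z w w'
    have h3 := net.dist_tri x w' z
    rw [net.dist_comm w' z] at h3
    exact ⟨w', by omega, by omega⟩

private theorem ME3_exp_ell {k : ℝ} (hk : 0 < k) (A : ℝ) : k ^ A = Real.exp (-(ell k * A)) := by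
  rw [Real.rpow_def_of_pos hk]
  congr 1
  unfold ell
  rw [one_div, Real.log_inv]
  ring

/-- potential from a height at a site with small `SSt` -/
private theorem ME3_V {d : ℕ} {V : Type} [NormedAddCommGroup V] {L : ℕ} {k q a : ℝ} (hk : 0 < k) (hk1 : k < 1)
    (hq : 0 ≤ q) (ha : 0 < a) (G : (boxS d L → V) × (boxS d L → V)) (x w : boxS d L) (Y : ℝ)
    (h1 : k ^ (-Y) ≤ ‖G.1 w‖)
    (h2 : SSt (boxNet d L) k (fun y => ‖G.1 y‖ + ‖G.2 y‖) w ≤ 2) :
    V1 k q (a / ell k) G x ≤ ENNReal.ofReal ((2 : ℝ) ^ (q * (a / ell k)) *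
      Real.exp (a * ((boxNet d L).dist x w / 4 - gX Y))) := by
  have hl := ell_pos hk hk1
  have hs : 0 < a / ell k := div_pos ha hl
  set D : ℝ := ((boxNet d L).dist x w : ℝ) with hD
  set B : ℝ := Real.exp (-(ell k * (D / 4 - gX Y))) * (2 : ℝ) ^ (-q) with hB
  have hBpos : 0 < B := by positivity
  have hu : 0 < ‖G.1 w‖ := lt_of_lt_of_le (Real.rpow_pos_of_pos hk _) h1
  have hS1 : 1 ≤ SSt (boxNet d L) k (fun y => ‖G.1 y‖ + ‖G.2 y‖) w :=
    SSt_one _ hk _ (fun y => by positivity) w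
  have hT : B ≤ Tz (boxNet d L) k q (fun y => ‖G.1 y‖) (fun y => ‖G.1 y‖ + ‖G.2 y‖) x w := by
    unfold Tz
    have e1 : (k ^ (1 / 4 : ℝ)) ^ (boxNet d L).dist x w = Real.exp (-(ell k * (D / 4))) := by
      rw [← Real.rpow_natCast, ← Real.rpow_mul hk.le, ME3_exp_ell hk]
      congr 2
      rw [hD]
      ring
    have e2 : Real.exp (ell k * gX Y) ≤ fpot k ‖G.1 w‖ := by
      unfold fpot
      rw [if_neg (not_le.mpr hu)]
      apply Real.exp_le_exp.mpr
      apply mul_le_mul_of_nonneg_left _ hl.le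
      apply gX_mono
      rw [le_div_iff₀ hl]
      have h3 := Real.log_le_log (Real.rpow_pos_of_pos hk _) h1
      rw [Real.log_rpow hk] at h3
      have h4 : Real.log k = -ell k := by
        unfold ell
        rw [one_div, Real.log_inv, neg_neg]
      rw [h4] at h3
      linarith
    have e3 : (2 : ℝ) ^ (-q) ≤ SSt (boxNet d L) k (fun y => ‖G.1 y‖ + ‖G.2 y‖) w ^ (-q) :=
      Real.rpow_le_rpow_of_nonpos (by linarith) h2 (by linarith)
    rw [e1, hB, show -(ell k * (D / 4 - gX Y)) = -(ell k * (D / 4)) + ell k * gX Y by ring,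
      Real.exp_add]
    exact mul_le_mul (mul_le_mul_of_nonneg_left e2 (Real.exp_pos _).le) e3 (by positivity)
      (by
        have := fpot_nonneg k ‖G.1 w‖
        positivity)
  have hsup : ENNReal.ofReal B ≤ Finset.univ.sup fun z => ENNReal.ofReal
      (Tz (boxNet d L) k q (fun y => ‖G.1 y‖) (fun y => ‖G.1 y‖ + ‖G.2 y‖) x z) :=
    (ENNReal.ofReal_le_ofReal hT).trans (Finset.le_sup (f := fun z => ENNReal.ofReal
      (Tz (boxNet d L) k q (fun y => ‖G.1 y‖) (fun y => ‖G.1 y‖ + ‖G.2 y‖) x z)) (Finset.mem_univ w))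
  unfold V1 Vp
  calc (Finset.univ.sup fun z => ENNReal.ofReal
      (Tz (boxNet d L) k q (fun y => ‖G.1 y‖) (fun y => ‖G.1 y‖ + ‖G.2 y‖) x z)) ^ (-(a / ell k))
      ≤ (ENNReal.ofReal B) ^ (-(a / ell k)) := by
        rw [ENNReal.rpow_neg, ENNReal.rpow_neg, ENNReal.inv_le_inv]
        exact ENNReal.rpow_le_rpow hsup hs.le
    _ = ENNReal.ofReal (B ^ (-(a / ell k))) := ENNReal.ofReal_rpow_of_pos hBpos
    _ = _ := by
        congr 1
        rw [hB, Real.mul_rpow (Real.exp_pos _).le (by positivity), ← Real.exp_mul,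
          ← Real.rpow_mul (by norm_num), mul_comm]
        congr 1
        · congr 1
          ring
        · congr 1
          field_simp

/-- numeric gain, first case -/
private theorem ME3_gain1 {X0 e : ℝ} (hX : X0 ≤ 1 / 8) (he : 19 ≤ e) :
    gX X0 ≤ gX (min (X0 - 8 + e) (-(1 / 16)) - 1 / 100) + 1 := by
  rcases le_total (X0 - 8 + e) (-(1 / 16)) with h | h
  · rw [min_eq_left h]
    have := gX_mono (show X0 ≤ X0 - 8 + e - 1 / 100 by linarith)
    linarith
  · rw [min_eq_right h]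
    have h1 : gX (-(1 / 16) - 1 / 100) = -(3 / 16) := by
      unfold gX
      norm_num
    have h2 := gX_mono hX
    have h3 : gX (1 / 8) = -(1 / 8) := by
      unfold gX
      norm_num
    rw [h1]
    linarith

private theorem ME3_gain2 {X0 e : ℝ} (hX : gX X0 ≤ -28) (he : 19 ≤ e) :
    gX X0 ≤ gX (min (X0 - 0 + e) (-(1 / 16)) - 1 / 100) - 1 := by
  have h0 := gX_le X0
  have h0' := gX_ge X0
  rcases le_total (X0 - 0 + e) (-(1 / 16)) with h | h
  · rw [min_eq_left h]
    have := gX_ge (X0 - 0 + e - 1 / 100)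
    have h4 := gX_le X0
    linarith
  · rw [min_eq_right h]
    have h1 : gX (-(1 / 16) - 1 / 100) = -(3 / 16) := by
      unfold gX
      norm_num
    rw [h1]
    linarith

private theorem ME3_CS {Ω : Type} [MeasurableSpace Ω] (μ : Measure Ω) (f : Ω → ℝ≥0∞)
    (hf : AEMeasurable f μ) : ∫⁻ ω, f ω ∂μ ≤ (∫⁻ ω, f ω ^ 2 ∂μ) ^ (1 / 2 : ℝ) * (μ Set.univ) ^ (1 / 2 : ℝ) := by
  have h := ENNReal.lintegral_mul_le_Lp_mul_Lq μ (p := 2) (q := 2)
    (Real.HolderConjugate.two_two) hf (aemeasurable_const (b := (1 : ℝ≥0∞)))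
  simp only [Pi.mul_apply, mul_one, ENNReal.one_rpow, lintegral_const, one_mul] at h
  simpa using h

private theorem ME3_sqrt {x : ℝ} (hx : 0 ≤ x) : (ENNReal.ofReal x) ^ (1 / 2 : ℝ) =
    ENNReal.ofReal (Real.sqrt x) := by
  rw [Real.sqrt_eq_rpow, ENNReal.ofReal_rpow_of_nonneg hx (by norm_num)]

private theorem ME3_A1 {N d : ℕ} {β k : ℝ} (S : PSys (Fam1 N d β k) β k) (h : ℝ) (L : ℕ)
    (G : (boxS d L → (Fam1 N d β k).V) × (boxS d L → (Fam1 N d β k).V)) (m : ℕ) (w : boxS d L)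
    (r : ℝ) (p : ℝ≥0∞)
    (hp : PI ((Fam1 N d β k).mu L) {ω | ‖traj ((Fam1 N d β k).st h L) G.1 ω m w‖ < r} ≤ p) :
    PI (S.mu L) {ω | ‖(S.tr h L G ω m).1 w‖ < r} ≤ p := by
  have hset : MeasurableSet {q : ℕ → boxS d L → (Fam1 N d β k).V | ‖q m w‖ < r} :=
    measurableSet_lt (measurable_norm.comp ((measurable_pi_apply w).comp (measurable_pi_apply m)))
      measurable_const
  have htr := (tr_path S h L G (m + 1)
    (Set.indicator {q : ℕ → boxS d L → (Fam1 N d β k).V | ‖q m w‖ < r} 1)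
    (measurable_one.indicator hset) (by
      intro a b hab
      simp only [Set.indicator, Set.mem_ofPred_eq, Pi.one_apply]
      rw [hab m (by omega)])).1
  have hm1 : Measurable fun ω : ℕ → boxS d L → S.Ωp => (S.tr h L G ω m).1 w :=
    (measurable_pi_apply w).comp (measurable_fst.comp
      ((measurable_tr S h L m).comp (measurable_const.prodMk measurable_id)))
  have hm2 : Measurable fun ω : ℕ → boxS d L → (Fam1 N d β k).Ω0 =>
      traj ((Fam1 N d β k).st h L) G.1 ω m w :=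
    (measurable_pi_apply w).comp
      ((measurable_traj ((Fam1 N d β k).st h L) ((Fam1 N d β k).mst h L) m).comp
        (measurable_const.prodMk measurable_id))
  have e1 : (fun ω : ℕ → boxS d L → S.Ωp =>
      (Set.indicator {q : ℕ → boxS d L → (Fam1 N d β k).V | ‖q m w‖ < r} 1
        (fun j => (S.tr h L G ω j).1) : ℝ≥0∞)) =
      Set.indicator {ω | ‖(S.tr h L G ω m).1 w‖ < r} 1 := by
    funext ω
    simp only [Set.indicator, Set.mem_ofPred_eq, Pi.one_apply]
  have e2 : (fun ω : ℕ → boxS d L → (Fam1 N d β k).Ω0 =>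
      (Set.indicator {q : ℕ → boxS d L → (Fam1 N d β k).V | ‖q m w‖ < r} 1
        (traj ((Fam1 N d β k).st h L) G.1 ω) : ℝ≥0∞)) =
      Set.indicator {ω | ‖traj ((Fam1 N d β k).st h L) G.1 ω m w‖ < r} 1 := by
    funext ω
    simp only [Set.indicator, Set.mem_ofPred_eq, Pi.one_apply]
  rw [e1, e2, lintegral_indicator_one, lintegral_indicator_one] at htr
  · rw [htr]
    exact hp
  · exact measurableSet_lt (measurable_norm.comp hm2) measurable_const
  · exact measurableSet_lt (measurable_norm.comp hm1) measurable_const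

private theorem ME3_A2 {d : ℕ} {F : Fam d} {β k : ℝ} (hk : 0 < k) (S : PSys F β k) (h : ℝ) (L : ℕ)
    (G : (boxS d L → F.V) × (boxS d L → F.V)) (m : ℕ) (w : boxS d L) (C : ℝ) (hC : 0 < C)
    (hcap : ∫⁻ ω in S.alv h L G m, ENNReal.ofReal (Yl (boxNet d L) (nrm (S.tr h L G ω m).1) w +
          Yl (boxNet d L) (nrm (S.tr h L G ω m).2) w) ∂(PI (S.mu L)) ≤ ENNReal.ofReal C) :
    (PI (S.mu L)).restrict (S.alv h L G m) {ω | 2 < SSt (boxNet d L) k
      (fun y => ‖(S.tr h L G ω m).1 y‖ + ‖(S.tr h L G ω m).2 y‖) w} ≤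
      ENNReal.ofReal (C * k ^ (1 / 16 : ℝ)) := by
  have hkk : 0 < k ^ (1 / 16 : ℝ) := Real.rpow_pos_of_pos hk _
  have hsub : {ω | 2 < SSt (boxNet d L) k
      (fun y => ‖(S.tr h L G ω m).1 y‖ + ‖(S.tr h L G ω m).2 y‖) w} ⊆
      {ω | ENNReal.ofReal (k ^ (1 / 16 : ℝ))⁻¹ ≤ ENNReal.ofReal
        (Yl (boxNet d L) (nrm (S.tr h L G ω m).1) w +
          Yl (boxNet d L) (nrm (S.tr h L G ω m).2) w)} := by
    intro ω hω
    simp only [Set.mem_ofPred_eq] at hω ⊢
    apply ENNReal.ofReal_le_ofReal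
    unfold SSt at hω
    have e : ∑ y, (1 / 2 : ℝ) ^ (boxNet d L).dist w y *
        (‖(S.tr h L G ω m).1 y‖ + ‖(S.tr h L G ω m).2 y‖) =
        Yl (boxNet d L) (nrm (S.tr h L G ω m).1) w + Yl (boxNet d L) (nrm (S.tr h L G ω m).2) w := by
      unfold Yl nrm
      rw [← Finset.sum_add_distrib]
      exact Finset.sum_congr rfl fun y _ => by ring
    rw [e] at hω
    rw [inv_le_iff_one_le_mul₀ hkk]
    linarith
  refine (measure_mono hsub).trans ?_
  have hM := mul_meas_ge_le_lintegral₀ (μ := (PI (S.mu L)).restrict (S.alv h L G m))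
    (f := fun ω => ENNReal.ofReal (Yl (boxNet d L) (nrm (S.tr h L G ω m).1) w +
          Yl (boxNet d L) (nrm (S.tr h L G ω m).2) w)) (by
      have hm : Measurable fun ω : ℕ → boxS d L → S.Ωp => S.tr h L G ω m :=
        (measurable_tr S h L m).comp (measurable_const.prodMk measurable_id)
      have hmy : ∀ y, Measurable fun ω : ℕ → boxS d L → S.Ωp => ‖(S.tr h L G ω m).1 y‖ := fun y =>
        measurable_norm.comp ((measurable_pi_apply y).comp (measurable_fst.comp hm))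
      have hmy' : ∀ y, Measurable fun ω : ℕ → boxS d L → S.Ωp => ‖(S.tr h L G ω m).2 y‖ := fun y =>
        measurable_norm.comp ((measurable_pi_apply y).comp (measurable_snd.comp hm))
      refine (Measurable.ennreal_ofReal ?_).aemeasurable
      unfold Yl nrm
      exact (Finset.measurable_sum _ fun y _ => (hmy y).const_mul _).add
        (Finset.measurable_sum _ fun y _ => (hmy' y).const_mul _))
    (ENNReal.ofReal (k ^ (1 / 16 : ℝ))⁻¹)
  have h2 := hM.trans hcap
  have h3 : ENNReal.ofReal (k ^ (1 / 16 : ℝ)) * ENNReal.ofReal (k ^ (1 / 16 : ℝ))⁻¹ = 1 := by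
    rw [← ENNReal.ofReal_mul hkk.le, mul_inv_cancel₀ hkk.ne', ENNReal.ofReal_one]
  calc _ = ENNReal.ofReal (k ^ (1 / 16 : ℝ)) * (ENNReal.ofReal (k ^ (1 / 16 : ℝ))⁻¹ *
        (PI (S.mu L)).restrict (S.alv h L G m) {ω | ENNReal.ofReal (k ^ (1 / 16 : ℝ))⁻¹ ≤
          ENNReal.ofReal (Yl (boxNet d L) (nrm (S.tr h L G ω m).1) w +
          Yl (boxNet d L) (nrm (S.tr h L G ω m).2) w)}) := by
        rw [← mul_assoc, h3, one_mul]
    _ ≤ ENNReal.ofReal (k ^ (1 / 16 : ℝ)) * ENNReal.ofReal C := by gcongr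
    _ = _ := by
        rw [← ENNReal.ofReal_mul hkk.le, mul_comm]

/-- splitting of the integral of the potential -/
private theorem ME3_split {Ω : Type} [MeasurableSpace Ω] (μ : Measure Ω) (hμ : μ Set.univ ≤ 1)
    (V : Ω → ℝ≥0∞) (hV : Measurable V) (B : Set Ω) (K : ℝ≥0∞) (hK : ∀ ω, ω ∉ B → V ω ≤ K)
    (p Q : ℝ) (hp : 0 ≤ p) (hQ : 0 ≤ Q) (hB : μ B ≤ ENNReal.ofReal p) (W : ℝ≥0∞)
    (hV2 : ∫⁻ ω, V ω ^ 2 ∂μ ≤ ENNReal.ofReal Q * W ^ 2) :
    ∫⁻ ω, V ω ∂μ ≤ K + ENNReal.ofReal (Real.sqrt Q * Real.sqrt p) * W := by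
  have h1 : ∫⁻ ω, V ω ∂μ ≤ ∫⁻ ω, K ∂μ + ∫⁻ ω in toMeasurable μ B, V ω ∂μ := by
    rw [← lintegral_indicator (measurableSet_toMeasurable μ B), ← lintegral_add_left measurable_const]
    apply lintegral_mono
    intro ω
    simp only
    by_cases hω : ω ∈ toMeasurable μ B
    · rw [Set.indicator_of_mem hω]
      exact le_add_self
    · rw [Set.indicator_of_notMem hω, add_zero]
      exact hK ω fun h => hω (subset_toMeasurable μ B h)
  refine h1.trans (add_le_add ?_ ?_)
  · rw [lintegral_const]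
    calc K * μ Set.univ ≤ K * 1 := by gcongr
      _ = K := mul_one K
  · refine (ME3_CS (μ.restrict (toMeasurable μ B)) V hV.aemeasurable).trans ?_
    rw [Measure.restrict_apply_univ, measure_toMeasurable]
    have h2 : ∫⁻ ω in toMeasurable μ B, V ω ^ 2 ∂μ ≤ ENNReal.ofReal Q * W ^ 2 :=
      (setLIntegral_le_lintegral _ _).trans hV2
    calc (∫⁻ ω in toMeasurable μ B, V ω ^ 2 ∂μ) ^ (1 / 2 : ℝ) * (μ B) ^ (1 / 2 : ℝ)
        ≤ (ENNReal.ofReal Q * W ^ 2) ^ (1 / 2 : ℝ) * (ENNReal.ofReal p) ^ (1 / 2 : ℝ) := by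
          gcongr
      _ = ENNReal.ofReal (Real.sqrt Q * Real.sqrt p) * W := by
          rw [ENNReal.mul_rpow_of_nonneg _ _ (by norm_num), ME3_sqrt hQ, ME3_sqrt hp,
            ENNReal.ofReal_mul (Real.sqrt_nonneg Q), ← ENNReal.rpow_natCast, ← ENNReal.rpow_mul]
          have : ((2 : ℕ) : ℝ) * (1 / 2 : ℝ) = 1 := by norm_num
          rw [this, ENNReal.rpow_one]
          ring

private theorem ME3_num {q a l : ℝ} (hq : 1 ≤ q) (ha : 0 < a) (ha8 : a ≤ 1 / 8)
    (hl : 200 * q + 13 ≤ l) (PL : ℝ) :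
    (2 : ℝ) ^ (q * (a / l)) * Real.exp (a * (PL - 1)) ≤ (1 - a / 2) * Real.exp (a * PL) := by
  have hl0 : 0 < l := by linarith
  have h1 : (2 : ℝ) ^ (q * (a / l)) ≤ 1 + a / 100 := by
    rw [Real.rpow_def_of_pos (by norm_num)]
    have hlog : Real.log 2 ≤ 1 := by
      have := Real.log_two_lt_d9
      linarith
    have h2 : Real.log 2 * (q * (a / l)) ≤ a / 200 := by
      have h3 : q * (a / l) ≤ a / 200 := by
        rw [← mul_div_assoc, div_le_div_iff₀ hl0 (by norm_num)]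
        nlinarith
      have h4 : 0 ≤ q * (a / l) := by positivity
      have h5 : 0 ≤ Real.log 2 := Real.log_nonneg (by norm_num)
      nlinarith
    have h0 : 0 ≤ Real.log 2 * (q * (a / l)) := by
      have h5 : 0 ≤ Real.log 2 := Real.log_nonneg (by norm_num)
      positivity
    have h6 := Real.abs_exp_sub_one_sub_id_le (x := Real.log 2 * (q * (a / l)))
      (by rw [abs_of_nonneg h0]; linarith)
    have h7 := (abs_le.mp h6).2
    nlinarith
  have h2 : Real.exp (a * (PL - 1)) = Real.exp (-a) * Real.exp (a * PL) := by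
    rw [← Real.exp_add]
    congr 1
    ring
  have h3 : Real.exp (-a) ≤ 1 - a + a ^ 2 := by
    have h6 := Real.abs_exp_sub_one_sub_id_le (x := -a) (by rw [abs_neg, abs_of_pos ha]; linarith)
    have h7 := (abs_le.mp h6).2
    linarith [neg_sq a]
  rw [h2, ← mul_assoc]
  apply mul_le_mul_of_nonneg_right _ (Real.exp_pos _).le
  calc (2 : ℝ) ^ (q * (a / l)) * Real.exp (-a) ≤ (1 + a / 100) * (1 - a + a ^ 2) :=
        mul_le_mul h1 h3 (Real.exp_pos _).le (by positivity)
    _ ≤ 1 - a / 2 := by nlinarith [sq_nonneg a, mul_pos ha ha, mul_pos (mul_pos ha ha) ha]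

theorem mest3 (N d : ℕ) (β : ℝ) (hN : 3 ≤ N) (hβ : 0 < β) : ∃ q0 : ℝ, 1 ≤ q0 ∧
    ∀ q, q0 ≤ q → ∀ a : ℝ, 0 < a → a ≤ 1 / 8 →
    ∀ (S : ∀ k, 0 < k → PSys (Fam1 N d β k) β k),
    (∀ k hk, BNoise N (S k hk).ν (S k hk).b (S k hk).gd) →
    ∀ M : ℝ, 1 ≤ M → ∃ M0 Md ε0 k0 : ℝ, 0 < ε0 ∧ 0 < k0 ∧ k0 < 1 ∧ ∀ (k : ℝ) (hk : 0 < k),
      k < k0 → ∀ L : ℕ, ∃ h0 : ℝ, 0 < h0 ∧ ∀ h, 0 < h → h < h0 →
      MEst N (S k hk) q a 40 M M0 Md ε0 L h := by
  obtain ⟨q0, hq0, Hsm⟩ := sm_multi N d β (by omega) hβ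
  obtain ⟨Cc, hCc, Hcap⟩ := mom_cap N d β hβ
  refine ⟨q0, hq0, ?_⟩
  intro q hq a ha ha8 S hB M hM
  obtain ⟨C9, k9, hC9, hk9, hk91, Hsm⟩ := Hsm q hq
  obtain ⟨Md, ε0, c, kL, hε0, hc, hkL, hkL1, Hlow⟩ := low3 N d (by omega) β hβ 40 (max M 8)
    (1 / 100) (by norm_num) (le_max_of_le_left hM) (by norm_num)
  obtain ⟨k0, hk0, hk01, Hk⟩ := ME3_small (200 * q + 13) a C9 Cc c kL k9 ha hc hkL hk9
  refine ⟨30, Md, ε0, k0, hε0, hk0, hk01, ?_⟩
  intro k hk hkk L
  obtain ⟨hkL', hk9', hk1, hell, hsmall⟩ := Hk k hk hkk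
  have hS := hB k hk
  have hl := ell_pos hk hk1
  have hq1 : 1 ≤ q := hq0.trans hq
  have hs : 0 < a / ell k := div_pos ha hl
  have hqs : 8 * q * (2 * (a / ell k)) ≤ 1 := by
    rw [← mul_div_assoc, ← mul_div_assoc, div_le_one hl]
    nlinarith
  obtain ⟨hA, hA0, HA⟩ := Hsm (Fam1 N d β k) k (S k hk) hk hk9' hS (2 * (a / ell k))
    (by positivity) hqs
  obtain ⟨hC, hC0, HC⟩ := Hcap (Fam1 N d β k) k (S k hk) hk.le hk1.le hS L
  obtain ⟨hD, hD0, HD⟩ := Hlow k hk hkL' (S k hk) hS L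
  refine ⟨min hA (min hC hD), lt_min hA0 (lt_min hC0 hD0), ?_⟩
  intro h hh hlt m hm1 hm2 G x z X0 hX0 hGz hM0 hprof hcaps
  have hhA : h < hA := lt_of_lt_of_le hlt (min_le_left _ _)
  have hhC : h < hC := lt_of_lt_of_le hlt ((min_le_right _ _).trans (min_le_left _ _))
  have hhD : h < hD := lt_of_lt_of_le hlt ((min_le_right _ _).trans (min_le_right _ _))
  have hts : ts N k = ell k := by
    unfold ts
    rw [if_neg (by omega)]
  rw [hts] at hm1 hm2
  -- time of the drift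
  have hlam : 1 / 2 ≤ lamN N := by
    unfold lamN
    have : (3 : ℝ) ≤ N := by exact_mod_cast hN
    linarith
  have he : 19 ≤ lamN N * (m * h) / ell k := by
    rw [le_div_iff₀ hl]
    have h1 : 0 ≤ (m : ℝ) * h := by positivity
    nlinarith
  -- the site
  obtain ⟨w, hwM, hgain⟩ : ∃ w, ((boxNet d L).dist z w : ℝ) ≤ max M 8 ∧
      ((boxNet d L).dist x w : ℝ) / 4 - gX (min (X0 - (boxNet d L).dist z w +
        lamN N * (m * h) / ell k) (-(1 / 16)) - 1 / 100) ≤
        (((boxNet d L).dist x z : ℝ) / 4 - gX X0) - 1 := by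
    rcases Nat.lt_or_ge ((boxNet d L).dist x z) 8 with h8 | h8
    · refine ⟨z, ?_, ?_⟩
      · rw [(boxNet d L).dist_self]
        exact le_max_of_le_right (by norm_num)
      · rw [(boxNet d L).dist_self]
        have h8' : ((boxNet d L).dist x z : ℝ) ≤ 7 := by exact_mod_cast Nat.lt_succ_iff.mp h8
        have hg : gX X0 ≤ -28 := by linarith
        have := ME3_gain2 hg he
        push_cast
        linarith
    · obtain ⟨w, hw1, hw2⟩ := ME3_toward (boxNet d L) x z 8 h8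
      refine ⟨w, ?_, ?_⟩
      · rw [hw1]
        exact le_max_of_le_right (by norm_num)
      · rw [hw1]
        have hw2' : ((boxNet d L).dist x w : ℝ) + 8 = (boxNet d L).dist x z := by
          exact_mod_cast hw2
        have := ME3_gain1 hX0 he
        push_cast
        linarith
  set Y : ℝ := min (X0 - (boxNet d L).dist z w + lamN N * (m * h) / ell k) (-(1 / 16)) - 1 / 100
    with hY
  -- first exceptional event
  have hprof' : ∀ v, ‖G.1 v‖ ≤ k ^ (-(X0 + max M 8 + (boxNet d L).dist z v / 2)) := by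
    intro v
    refine (hprof v).trans (Real.rpow_le_rpow_of_exponent_ge hk hk1.le ?_)
    have := le_max_left M 8
    linarith
  have hp1 := HD h hh hhD m hm1 hm2 G.1 z w X0 hX0 hGz hwM hprof' hcaps
  have hexp : (1 / 100 : ℝ) - min (X0 - (boxNet d L).dist z w + lamN N * (m * h) / ell k)
      (-(1 / 16)) = -Y := by
    rw [hY]
    ring
  rw [hexp] at hp1
  have hA1 := ME3_A1 (S k hk) h L G m w (k ^ (-Y)) _ hp1
  -- second exceptional event
  have h1m : 1 ≤ (m : ℝ) * h := by linarith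
  have hA2 := ME3_A2 hk (S k hk) h L G m w Cc hCc (HC h hh hhC G m h1m w)
  -- the second moment
  have hV2 := (HA h hh hhA L G m x).1
  have hmV : Measurable fun ω : ℕ → boxS d L → (S k hk).Ωp =>
      V1 k q (a / ell k) ((S k hk).tr h L G ω m) x :=
    (measurable_V k q (a / ell k) x).1.comp
      ((measurable_tr (S k hk) h L m).comp (measurable_const.prodMk measurable_id))
  have hQ : C9 * (2 * (a / ell k) / ell k + (2 * (a / ell k)) ^ 2) * (m * h) ≤ C9 := by
    have h2 : (2 * (a / ell k) / ell k + (2 * (a / ell k)) ^ 2) * (m * h) ≤ 1 := by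
      have e1 : 2 * (a / ell k) / ell k + (2 * (a / ell k)) ^ 2 = (2 * a + 4 * a ^ 2) / ell k ^ 2 := by
        field_simp
        ring
      rw [e1, div_mul_eq_mul_div, div_le_one (by positivity)]
      have h3 : 2 * a + 4 * a ^ 2 ≤ 5 / 16 := by nlinarith
      have h4 : (m : ℝ) * h ≤ 41 * ell k := by linarith
      have h5 : 0 ≤ (m : ℝ) * h := by positivity
      calc (2 * a + 4 * a ^ 2) * (m * h) ≤ 5 / 16 * (41 * ell k) :=
            mul_le_mul h3 h4 h5 (by norm_num)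
        _ ≤ ell k ^ 2 := by nlinarith
    nlinarith
  have hV2' : ∫⁻ ω, (V1 k q (a / ell k) ((S k hk).tr h L G ω m) x) ^ 2
      ∂((PI ((S k hk).mu L)).restrict ((S k hk).alv h L G m)) ≤
      ENNReal.ofReal (Real.exp C9) * (V1 k q (a / ell k) G x) ^ 2 := by
    have e1 : ∀ G' : (boxS d L → (Fam1 N d β k).V) × (boxS d L → (Fam1 N d β k).V),
        (V1 k q (a / ell k) G' x) ^ 2 = V1 k q (2 * (a / ell k)) G' x := fun G' =>
      (V_sq k q (a / ell k) G' x).1
    simp only [e1]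
    refine hV2.trans ?_
    gcongr
  have hμ : (PI ((S k hk).mu L)).restrict ((S k hk).alv h L G m) Set.univ ≤ 1 := by
    rw [Measure.restrict_apply_univ]
    exact prob_le_one
  have hBm : (PI ((S k hk).mu L)).restrict ((S k hk).alv h L G m)
      ({ω | ‖((S k hk).tr h L G ω m).1 w‖ < k ^ (-Y)} ∪ {ω | 2 < SSt (boxNet d L) k
      (fun y => ‖((S k hk).tr h L G ω m).1 y‖ + ‖((S k hk).tr h L G ω m).2 y‖) w}) ≤
      ENNReal.ofReal (k ^ c + Cc * k ^ (1 / 16 : ℝ)) := by
    refine (measure_union_le _ _).trans ?_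
    rw [ENNReal.ofReal_add (Real.rpow_nonneg hk.le _)
      (mul_nonneg hCc.le (Real.rpow_nonneg hk.le _))]
    exact add_le_add ((Measure.restrict_apply_le _ _).trans hA1) hA2
  have hsplit := ME3_split ((PI ((S k hk).mu L)).restrict ((S k hk).alv h L G m)) hμ
    (fun ω => V1 k q (a / ell k) ((S k hk).tr h L G ω m) x) hmV _
    (ENNReal.ofReal ((2 : ℝ) ^ (q * (a / ell k)) *
      Real.exp (a * ((boxNet d L).dist x w / 4 - gX Y)))) (by
      intro ω hω
      simp only [Set.mem_union, Set.mem_ofPred_eq, not_or, not_lt] at hω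
      exact ME3_V hk hk1 (by linarith) ha _ x w Y hω.1 hω.2)
    (k ^ c + Cc * k ^ (1 / 16 : ℝ)) (Real.exp C9) (by
      have := Real.rpow_nonneg hk.le c
      have := Real.rpow_nonneg hk.le (1 / 16 : ℝ)
      positivity) (Real.exp_pos _).le hBm (V1 k q (a / ell k) G x) hV2'
  refine hsplit.trans (add_le_add (ENNReal.ofReal_le_ofReal ?_) ?_)
  · refine le_trans ?_ (ME3_num hq1 ha ha8 hell _)
    apply mul_le_mul_of_nonneg_left _ (by positivity)
    apply Real.exp_le_exp.mpr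
    exact mul_le_mul_of_nonneg_left hgain ha.le
  · gcongr
    rw [← Real.exp_half]
    exact hsmall

end DynC

end
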