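import Pool.Agent.Lib_MP_36b788_m.M10
import Pool.Agent.Lib_MP_36b788_m.M19
import Pool.Agent.Lib_MP_36b788_m.M28

/-!
# MP_36b788_pr, stationary limit: merged library part M29

Concatenation of smaller files (each in its own section), only to save build time.
-/

/-! ### from `Lib_MP_36b788g.Win3` -/

section

/-!
# One window: lower bounds and caps persist

`B = {dist x y ≤ R}`, `λ = lamN N ≥ 1/2`.

PROOF of `win3`. `σ = min(1/16, σ0 of wl3 (κ = 1/64), σ0 of bsum3 (κ = 5/64), 1/(64(C+1)))`, `C` of `cap_max`. `ε = λσ/4` in `wl3`, `m0 = 0`; `ε0w` its constant. `ε0 = min(ε0w, 1/64)/(2(R+2))`.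
Caps around a point `v0` with `dist v0 y ≤ R+1`: `‖G.i v‖ ≤ k^{-ε0(1+dist v y)} ≤ k^{-ε1(1+dist v v0)}`, `ε1 = ε0(R+2) ≤ min(ε0w,1/64)/2`.
(a) upper caps during the window: for `v0` with `dist v0 y ≤ R+1` and a component: `cap_max` with `w v = k^{(7/8)dist v0 v}` (`k cpl w ≤ 4dk^{1/8}w`, `r = 4dk^{1/8} ≤ 1`), `y := k^{-1/16}`, initial sum `≤ Σ_vk^{(7/8)dist-ε1(1+dist)} ≤ k^{-ε1}3^d`
(`sum_half`): probability of `{∃ j ≤ n, k^{-1/16} ≤ ‖(tr j).1 v0‖}` at most `e^{(C+1)(σell+1)}3^dk^{1/16-ε1} ≤ k^{1/32}` (for the second component use the pair system with the components exchanged, or the proof of `cap_max`: apply `cap_max`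
to the pair `(G.2, G.2)`: by `tr_path` the law of `(tr j).2`, `j ≤ n`, from `(G.1,G.2)` is the law of the chain from `G.2`, which is also the law of `(tr j).1` from `(G.2,G.2)`).
(b) `bsum3` at each `x ∈ B` (the coordinate `x` of the noise is i.i.d. with law `S.ν`: `PI_map`).
(c) on (a), (b) and good noise, `q2_low` with `κ = 5/64` (`q1`, `q2` give `QStep` on good noise, `|b| ≤ 2h^{3/8}` by `BNoise.bdd`; `nh ≤ σell+1 ≤ ell³`), `j0 = 0`, every end time `j ≤ n`: `‖(tr j).i x‖ ≥ k^{15/64} ≥ k^{1/4}` for `x ∈ B`. So `RegG` at all `j ≤ n`.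
(d) `LowG` at `n`: `wl3` for `x ∈ B` with `z = x`: `‖G v‖k^{dist x v} ≤ k^{1-ε1·2} ≤ k^{5/64} ≤ ‖G x‖` for `v ≠ x` (`ε1(1+dist)`, `dist ≥ 1`), `‖G x‖ ≤ k^{-ε1} ≤ k^{-ε0w}`, `H v = ε1(1+dist x v)` (`≤ 2ε1 ≤ 1/16` for `dist x v ≤ 1`, increments `≤ ε1 ≤ 3/4`):
outside probability `k^c`: `‖G_n x‖ ≥ min(k^{3/64}, k^{ε}e^{λnh}‖G x‖) ≥ min(k^{3/64}, k^{ε-λσ/2+5/64}) ≥ k^{5/64}` (`nh ≥ σell/2`). Transfer to the components of the pair by `tr_path`.
Sum over at most `C(R)` sites and two components.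
-/

open MeasureTheory ProbabilityTheory
open scoped ENNReal

namespace DynG

open Dyn DynS DynC

private theorem Win3_ell_exp {k : ℝ} (hk : 0 < k) (a : ℝ) :
    Real.exp (a * ell k) = k ^ (-a) := by
  unfold ell
  rw [Real.rpow_def_of_pos hk, one_div, Real.log_inv]
  congr 1
  ring

private theorem Win3_rpow_small (a M : ℝ) (ha : 0 < a) (hM : 0 < M) :
    ∀ᶠ k : ℝ in nhdsWithin 0 (Set.Ioi 0), k ^ a ≤ M := by
  have h1 : Filter.Tendsto (fun k : ℝ => k ^ a) (nhds 0) (nhds (0 ^ a)) :=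
    (Real.continuousAt_rpow_const 0 a (Or.inr ha.le)).tendsto
  rw [Real.zero_rpow ha.ne'] at h1
  have h2 := (h1.mono_left (nhdsWithin_le_nhds (s := Set.Ioi 0))).eventually (gt_mem_nhds hM)
  exact h2.mono fun k hk => hk.le

private theorem Win3_ext {p : ℝ → Prop} (h : ∀ᶠ k : ℝ in nhdsWithin 0 (Set.Ioi 0), p k) :
    ∃ k0 : ℝ, 0 < k0 ∧ k0 < 1 ∧ ∀ k, 0 < k → k < k0 → p k := by
  rw [eventually_nhdsWithin_iff, Metric.eventually_nhds_iff] at h
  obtain ⟨r, hr, h⟩ := h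
  refine ⟨min r (1 / 2), by positivity, lt_of_le_of_lt (min_le_right _ _) (by norm_num),
    fun k hk hkr => ?_⟩
  exact h (by rw [Real.dist_eq, sub_zero, abs_of_pos hk]; exact hkr.trans_le (min_le_left _ _)) hk

private theorem Win3_meas_seq {St X : Type} [MeasurableSpace St] [MeasurableSpace X]
    (f : St → X → St) (hf : Measurable (fun p : St × X => f p.1 p.2)) :
    Measurable (fun p : St × (ℕ → X) => traj f p.1 p.2) := by
  rw [measurable_pi_iff]
  intro n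
  exact measurable_traj f hf n

/-- probability of some bad noise -/
private theorem Win3_bad {X : Type} [MeasurableSpace X] (μ : Measure X) [IsProbabilityMeasure μ]
    (s : Set X) (hs : MeasurableSet s) (p : ℝ≥0∞) (hp : μ sᶜ ≤ p) (n : ℕ) :
    PI μ {ω | ∃ l, l < n ∧ ω l ∉ s} ≤ n * p := by
  have hsub : {ω : ℕ → X | ∃ l, l < n ∧ ω l ∉ s} ⊆
      ⋃ l ∈ Finset.range n, {ω : ℕ → X | ω l ∈ sᶜ} := by
    rintro ω ⟨l, hl, hl2⟩
    simp only [Set.mem_iUnion]
    exact ⟨l, Finset.mem_range.2 hl, hl2⟩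
  calc PI μ {ω | ∃ l, l < n ∧ ω l ∉ s} ≤ PI μ (⋃ l ∈ Finset.range n, {ω : ℕ → X | ω l ∈ sᶜ}) :=
        measure_mono hsub
    _ ≤ ∑ l ∈ Finset.range n, PI μ {ω : ℕ → X | ω l ∈ sᶜ} := measure_biUnion_finset_le _ _
    _ ≤ ∑ l ∈ Finset.range n, p := by
        refine Finset.sum_le_sum fun l _ => ?_
        have e1 : PI μ {ω : ℕ → X | ω l ∈ sᶜ} = μ sᶜ := by
          conv_rhs => rw [← map_coord (μ := μ) l]
          rw [Measure.map_apply (measurable_pi_apply l) hs.compl]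
          rfl
        rw [e1]
        exact hp
    _ = n * p := by rw [Finset.sum_const, Finset.card_range, nsmul_eq_mul]

/-- moment generating function of the truncated noise -/
private theorem Win3_mgf (N : ℕ) {Ω0 : Type} [MeasurableSpace Ω0] (ν : Measure Ω0)
    [IsProbabilityMeasure ν] (b : ℝ → Ω0 → ℝ) (gd : ℝ → Set Ω0) (hB : BNoise N ν b gd)
    (hb : ∀ h, Measurable (b h)) (hg : ∀ h, MeasurableSet (gd h)) :
    ∃ h0 : ℝ, 0 < h0 ∧ h0 < 1 ∧ ∀ h, 0 < h → h < h0 →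
      ν (gd h)ᶜ ≤ ENNReal.ofReal (h ^ 3) ∧ ∀ s : ℝ, |s| = 1 →
        ∫⁻ a, ENNReal.ofReal (Real.exp (s * (gd h).indicator (b h) a)) ∂ν ≤
          ENNReal.ofReal (Real.exp ((|lamN N| + 2) * h)) := by
  obtain ⟨h1, hh1, ht⟩ := hB.tail
  obtain ⟨h2, hh2, hm⟩ := hB.mgf 1 (1 / 2) one_pos (by norm_num)
  refine ⟨min (min h1 h2) (1 / 2), by positivity,
    lt_of_le_of_lt (min_le_right _ _) (by norm_num), fun h hh hlt => ?_⟩
  have hl1 : h < h1 := hlt.trans_le ((min_le_left _ _).trans (min_le_left _ _))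
  have hl2 : h < h2 := hlt.trans_le ((min_le_left _ _).trans (min_le_right _ _))
  have hl3 : h < 1 := (hlt.trans_le (min_le_right _ _)).trans (by norm_num)
  refine ⟨ht h hh hl1, fun s hs => ?_⟩
  rw [← lintegral_add_compl _ (hg h)]
  have e1 : ∫⁻ a in gd h, ENNReal.ofReal (Real.exp (s * (gd h).indicator (b h) a)) ∂ν =
      ∫⁻ a in gd h, ENNReal.ofReal (Real.exp (s * b h a)) ∂ν := by
    refine setLIntegral_congr_fun (hg h) ?_
    intro a ha
    simp only [Set.indicator_of_mem ha]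
  have e2 : ∫⁻ a in (gd h)ᶜ, ENNReal.ofReal (Real.exp (s * (gd h).indicator (b h) a)) ∂ν =
      ∫⁻ _a in (gd h)ᶜ, 1 ∂ν := by
    refine setLIntegral_congr_fun (hg h).compl ?_
    intro a ha
    simp only [Set.indicator_of_notMem (show a ∉ gd h from ha), mul_zero, Real.exp_zero,
      ENNReal.ofReal_one]
  rw [e1, e2, setLIntegral_const, one_mul]
  have hm1 := (hm h hh hl2 s hs.le).1
  have hs2 : s ^ 2 = 1 := by rw [← sq_abs, hs]; norm_num
  have hls : lamN N * s ≤ |lamN N| := by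
    calc lamN N * s ≤ |lamN N * s| := le_abs_self _
      _ = |lamN N| := by rw [abs_mul, hs, mul_one]
  calc ∫⁻ a in gd h, ENNReal.ofReal (Real.exp (s * b h a)) ∂ν + ν (gd h)ᶜ
      ≤ ENNReal.ofReal (1 + (lamN N * s + s ^ 2 / 2 + 1 / 2) * h) + ENNReal.ofReal (h ^ 3) :=
        add_le_add hm1 (ht h hh hl1)
    _ ≤ ENNReal.ofReal (1 + (|lamN N| + 1) * h) + ENNReal.ofReal (h ^ 3) := by
        refine add_le_add (ENNReal.ofReal_le_ofReal ?_) le_rfl
        rw [hs2]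
        nlinarith
    _ = ENNReal.ofReal (1 + (|lamN N| + 1) * h + h ^ 3) := by
        exact (ENNReal.ofReal_add (by positivity) (by positivity)).symm
    _ ≤ ENNReal.ofReal (Real.exp ((|lamN N| + 2) * h)) := by
        refine ENNReal.ofReal_le_ofReal ?_
        have h3 : h ^ 3 ≤ h := by nlinarith [mul_pos hh hh]
        have h4 := Real.add_one_le_exp ((|lamN N| + 2) * h)
        linarith

private theorem Win3_bsum (N : ℕ) (κ : ℝ) (hκ : 0 < κ) : ∃ σ0 c k0 : ℝ, 0 < σ0 ∧ 0 < c ∧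
    0 < k0 ∧ k0 < 1 ∧
    ∀ (Ω0 : Type) [MeasurableSpace Ω0] (ν : Measure Ω0) [IsProbabilityMeasure ν]
      (b : ℝ → Ω0 → ℝ) (gd : ℝ → Set Ω0), BNoise N ν b gd → (∀ h, Measurable (b h)) →
      (∀ h, MeasurableSet (gd h)) →
    ∀ k, 0 < k → k < k0 → ∃ h0 : ℝ, 0 < h0 ∧ ∀ h, 0 < h → h < h0 →
    ∀ n : ℕ, n * h ≤ σ0 * ell k + 1 →
      PI ν {ω | ∃ i j, i ≤ j ∧ j ≤ n ∧ κ * ell k < |∑ l ∈ Finset.Ico i j, b h (ω l)|} ≤
        ENNReal.ofReal (k ^ c) := by
  set Λ : ℝ := |lamN N| + 2 with hΛ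
  have hΛ0 : 0 < Λ := by positivity
  obtain ⟨k0, hk0, hk01, hk⟩ := Win3_ext (Win3_rpow_small (κ / 4) (Real.exp (-Λ) / 4)
    (by positivity) (by positivity))
  refine ⟨κ / (8 * Λ), κ / 8, k0, by positivity, by positivity, hk0, hk01, ?_⟩
  intro Ω0 _ ν _ b gd hB hb hg k hk1 hk2
  have hkk := hk k hk1 hk2
  have hell : 0 ≤ ell k := by
    unfold ell
    refine Real.log_nonneg ?_
    rw [one_le_div hk1]
    linarith
  obtain ⟨h1, hh1, hh11, hm⟩ := Win3_mgf N ν b gd hB hb hg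
  have hkc : 0 < k ^ (κ / 8) := Real.rpow_pos_of_pos hk1 _
  have hden : 0 < κ / (8 * Λ) * ell k + 1 := by positivity
  refine ⟨min h1 (k ^ (κ / 8) / (2 * (κ / (8 * Λ) * ell k + 1))), by positivity, ?_⟩
  intro h hh hlt n hn
  have hl1 : h < h1 := hlt.trans_le (min_le_left _ _)
  have hl2 : h < k ^ (κ / 8) / (2 * (κ / (8 * Λ) * ell k + 1)) := hlt.trans_le (min_le_right _ _)
  have hlt1 : h < 1 := hl1.trans hh11
  obtain ⟨htl, hmg⟩ := hm h hh hl1
  set φ : Ω0 → ℝ := (gd h).indicator (b h) with hφ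
  have hφm : Measurable φ := (hb h).indicator (hg h)
  set w : ℝ := Λ * h with hw
  set y : ℝ := Real.exp (κ * ell k / 2 - n * w) with hy
  have hy0 : 0 < y := Real.exp_pos _
  have hA := max_ineq (μ := ν) φ hφm 1 w (hmg 1 (by norm_num)) n y hy0
  have hB' := max_ineq (μ := ν) φ hφm (-1) w (hmg (-1) (by norm_num)) n y hy0
  have hC := Win3_bad ν (gd h) (hg h) _ htl n
  have hsub : {ω : ℕ → Ω0 | ∃ i j, i ≤ j ∧ j ≤ n ∧
      κ * ell k < |∑ l ∈ Finset.Ico i j, b h (ω l)|} ⊆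
      ({ω | ∃ m, m ≤ n ∧ y ≤ Real.exp (1 * (∑ j ∈ Finset.range m, φ (ω j)) - m * w)} ∪
      {ω | ∃ m, m ≤ n ∧ y ≤ Real.exp (-1 * (∑ j ∈ Finset.range m, φ (ω j)) - m * w)}) ∪
      {ω | ∃ l, l < n ∧ ω l ∉ gd h} := by
    rintro ω ⟨i, j, hij, hj, hlt2⟩
    by_cases hgd : ∃ l, l < n ∧ ω l ∉ gd h
    · exact Or.inr hgd
    · left
      push Not at hgd
      have e1 : ∑ l ∈ Finset.Ico i j, b h (ω l) = ∑ l ∈ Finset.Ico i j, φ (ω l) := by
        refine Finset.sum_congr rfl fun l hl => ?_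
        have hln : l < n := lt_of_lt_of_le (Finset.mem_Ico.1 hl).2 hj
        rw [hφ, Set.indicator_of_mem (hgd l hln)]
      rw [e1, Finset.sum_Ico_eq_sub _ hij] at hlt2
      have key : ∀ (m : ℕ) (s : ℝ), m ≤ n →
          κ * ell k / 2 ≤ s * ∑ l ∈ Finset.range m, φ (ω l) →
          y ≤ Real.exp (s * (∑ j ∈ Finset.range m, φ (ω j)) - m * w) := by
        intro m s hm1 hs
        rw [hy]
        refine Real.exp_le_exp.2 ?_
        have hw0 : 0 ≤ w := by positivity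
        have hmn : (m : ℝ) ≤ n := by exact_mod_cast hm1
        nlinarith
      set P : ℕ → ℝ := fun m => ∑ l ∈ Finset.range m, φ (ω l) with hP
      have hlt3 : κ * ell k < |P j - P i| := hlt2
      rcases lt_abs.1 hlt3 with h5 | h5
      · by_cases h6 : κ * ell k / 2 ≤ P j
        · exact Or.inl ⟨j, hj, key j 1 hj (by rw [one_mul]; exact h6)⟩
        · push Not at h6
          refine Or.inr ⟨i, hij.trans hj, key i (-1) (hij.trans hj) ?_⟩
          have : -1 * ∑ l ∈ Finset.range i, φ (ω l) = -P i := by rw [hP]; ring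
          rw [this]
          linarith
      · by_cases h6 : κ * ell k / 2 ≤ P i
        · exact Or.inl ⟨i, hij.trans hj, key i 1 (hij.trans hj) (by rw [one_mul]; exact h6)⟩
        · push Not at h6
          refine Or.inr ⟨j, hj, key j (-1) hj ?_⟩
          have : -1 * ∑ l ∈ Finset.range j, φ (ω l) = -P j := by rw [hP]; ring
          rw [this]
          linarith
  have hinv : 1 / y ≤ k ^ (κ / 8) / 4 := by
    have e1 : 1 / y = Real.exp (-(κ * ell k / 2) + n * w) := by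
      rw [hy, one_div, ← Real.exp_neg]
      congr 1
      ring
    have e2 : (n : ℝ) * w ≤ κ / 8 * ell k + Λ := by
      have : (n : ℝ) * w = (n * h) * Λ := by rw [hw]; ring
      rw [this]
      calc (n * h) * Λ ≤ (κ / (8 * Λ) * ell k + 1) * Λ := by gcongr
        _ = κ / 8 * ell k + Λ := by field_simp
    have e3 : Real.exp (-(κ * ell k / 2) + n * w) ≤
        Real.exp (-(3 * κ / 8) * ell k) * Real.exp Λ := by
      rw [← Real.exp_add]
      refine Real.exp_le_exp.2 ?_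
      linarith
    have e4 : Real.exp (-(3 * κ / 8) * ell k) = k ^ (κ / 8) * k ^ (κ / 4) := by
      rw [Win3_ell_exp hk1, ← Real.rpow_add hk1]
      congr 1
      ring
    rw [e1]
    refine e3.trans ?_
    rw [e4]
    calc k ^ (κ / 8) * k ^ (κ / 4) * Real.exp Λ
        ≤ k ^ (κ / 8) * (Real.exp (-Λ) / 4) * Real.exp Λ := by gcongr
      _ = k ^ (κ / 8) / 4 * (Real.exp (-Λ) * Real.exp Λ) := by ring
      _ = k ^ (κ / 8) / 4 := by rw [← Real.exp_add]; simp
  have hnb : (n : ℝ≥0∞) * ENNReal.ofReal (h ^ 3) ≤ ENNReal.ofReal (k ^ (κ / 8) / 2) := by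
    rw [← ENNReal.ofReal_natCast n, ← ENNReal.ofReal_mul (by positivity)]
    refine ENNReal.ofReal_le_ofReal ?_
    have e1 : (n : ℝ) * h ^ 3 = (n * h) * h * h := by ring
    rw [e1]
    have h7 : h * (2 * (κ / (8 * Λ) * ell k + 1)) ≤ k ^ (κ / 8) := by
      rw [lt_div_iff₀ (by positivity)] at hl2
      exact hl2.le
    calc (n * h) * h * h ≤ (κ / (8 * Λ) * ell k + 1) * h * 1 := by
          gcongr
      _ ≤ k ^ (κ / 8) / 2 := by linarith
  calc PI ν {ω : ℕ → Ω0 | ∃ i j, i ≤ j ∧ j ≤ n ∧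
      κ * ell k < |∑ l ∈ Finset.Ico i j, b h (ω l)|}
      ≤ (ENNReal.ofReal (1 / y) + ENNReal.ofReal (1 / y)) + n * ENNReal.ofReal (h ^ 3) :=
        (measure_mono hsub).trans ((measure_union_le _ _).trans
          (add_le_add ((measure_union_le _ _).trans (add_le_add hA hB')) hC))
    _ ≤ (ENNReal.ofReal (k ^ (κ / 8) / 4) + ENNReal.ofReal (k ^ (κ / 8) / 4)) +
        ENNReal.ofReal (k ^ (κ / 8) / 2) := by
        gcongr
    _ = ENNReal.ofReal (k ^ (κ / 8)) := by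
        rw [← ENNReal.ofReal_add (by positivity) (by positivity),
          ← ENNReal.ofReal_add (by positivity) (by positivity)]
        congr 1
        ring

private theorem Win3_PI_map {X Y : Type} [MeasurableSpace X] [MeasurableSpace Y] (μ : Measure X)
    [IsProbabilityMeasure μ] (ν : Measure Y) [IsProbabilityMeasure ν] (φ : X → Y)
    (hφ : Measurable φ) (h : μ.map φ = ν) : (PI μ).map (fun ω i => φ (ω i)) = PI ν := by
  subst h
  exact PI_map φ hφ

private theorem Win3_cpl (d L : ℕ) (k a : ℝ) (hk : 0 < k) (hk1 : k < 1) (ha : 0 ≤ a)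
    (x v : boxS d L) :
    cpl (boxNet d L) (fun v => k ^ (a * (boxNet d L).dist x v)) v ≤
      4 * d * k ^ (-a) * k ^ (a * (boxNet d L).dist x v) := by
  have h0 : 0 < k ^ (-a) * k ^ (a * ((boxNet d L).dist x v : ℝ)) := by positivity
  have h1 : ∀ y ∈ (boxNet d L).nb v, k ^ (a * ((boxNet d L).dist x y : ℝ)) ≤
      k ^ (-a) * k ^ (a * ((boxNet d L).dist x v : ℝ)) := by
    intro y hy
    rw [← Real.rpow_add hk]
    refine Real.rpow_le_rpow_of_exponent_ge hk hk1.le ?_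
    have h2 := (boxNet d L).dist_tri x y v
    have h3 := (boxNet d L).dist_nb v y hy
    rw [(boxNet d L).dist_comm] at h3
    have h4 : ((boxNet d L).dist x v : ℝ) ≤ (boxNet d L).dist x y + 1 := by
      rw [h3] at h2
      exact_mod_cast h2
    nlinarith
  have h2 : k ^ (a * ((boxNet d L).dist x v : ℝ)) ≤
      k ^ (-a) * k ^ (a * ((boxNet d L).dist x v : ℝ)) := by
    have : 1 ≤ k ^ (-a) := Real.one_le_rpow_of_pos_of_le_one_of_nonpos hk hk1.le (by linarith)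
    have h5 : 0 < k ^ (a * ((boxNet d L).dist x v : ℝ)) := by positivity
    nlinarith
  unfold cpl
  calc ∑ y ∈ (boxNet d L).nb v, k ^ (a * ((boxNet d L).dist x y : ℝ)) +
        (2 * d : ℕ) * k ^ (a * ((boxNet d L).dist x v : ℝ))
      ≤ ∑ y ∈ (boxNet d L).nb v, (k ^ (-a) * k ^ (a * ((boxNet d L).dist x v : ℝ))) +
        (2 * d : ℕ) * (k ^ (-a) * k ^ (a * ((boxNet d L).dist x v : ℝ))) :=
        add_le_add (Finset.sum_le_sum h1) (mul_le_mul_of_nonneg_left h2 (by positivity))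
    _ = (((boxNet d L).nb v).card : ℝ) * (k ^ (-a) * k ^ (a * ((boxNet d L).dist x v : ℝ))) +
        (2 * d : ℕ) * (k ^ (-a) * k ^ (a * ((boxNet d L).dist x v : ℝ))) := by
        rw [Finset.sum_const, nsmul_eq_mul]
    _ ≤ ((2 * d : ℕ) : ℝ) * (k ^ (-a) * k ^ (a * ((boxNet d L).dist x v : ℝ))) +
        (2 * d : ℕ) * (k ^ (-a) * k ^ (a * ((boxNet d L).dist x v : ℝ))) := by
        have : (((boxNet d L).nb v).card : ℝ) ≤ ((2 * d : ℕ) : ℝ) := by
          exact_mod_cast (boxNet d L).nb_card v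
        exact add_le_add (mul_le_mul_of_nonneg_right this h0.le) le_rfl
    _ = 4 * d * k ^ (-a) * k ^ (a * (boxNet d L).dist x v) := by
        push_cast
        ring

/-- transfer of path events -/
private theorem Win3_tr {d : ℕ} {F : Fam d} {β k : ℝ} (S : PSys F β k) (h : ℝ) (L : ℕ)
    (G : (boxS d L → F.V) × (boxS d L → F.V)) (n : ℕ) (Bs : Set (ℕ → boxS d L → F.V))
    (hBs : MeasurableSet Bs)
    (hd : ∀ a b : ℕ → boxS d L → F.V, (∀ i, i < n → a i = b i) → (a ∈ Bs ↔ b ∈ Bs)) :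
    PI (S.mu L) {ω | (fun j => (S.tr h L G ω j).1) ∈ Bs} =
        PI (F.mu L) {ω | traj (F.st h L) G.1 ω ∈ Bs} ∧
      PI (S.mu L) {ω | (fun j => (S.tr h L G ω j).2) ∈ Bs} =
        PI (F.mu L) {ω | traj (F.st h L) G.2 ω ∈ Bs} := by
  have hmF : ∀ G1 : boxS d L → F.V,
      Measurable fun ω : ℕ → boxS d L → F.Ω0 => traj (F.st h L) G1 ω := fun G1 =>
    (Win3_meas_seq (F.st h L) (F.mst h L)).comp (measurable_const.prodMk measurable_id)
  have hmS1 : Measurable fun (ω : ℕ → boxS d L → S.Ωp) (j : ℕ) => (S.tr h L G ω j).1 := by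
    rw [measurable_pi_iff]
    intro j
    exact measurable_fst.comp ((measurable_traj (S.st h L) (S.mst h L) j).comp
      (measurable_const.prodMk measurable_id))
  have hmS2 : Measurable fun (ω : ℕ → boxS d L → S.Ωp) (j : ℕ) => (S.tr h L G ω j).2 := by
    rw [measurable_pi_iff]
    intro j
    exact measurable_snd.comp ((measurable_traj (S.st h L) (S.mst h L) j).comp
      (measurable_const.prodMk measurable_id))
  have hdep : Dep n (Bs.indicator (1 : (ℕ → boxS d L → F.V) → ℝ≥0∞)) := by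
    intro a b hab
    have hiff := hd a b hab
    by_cases hb' : b ∈ Bs
    · rw [Set.indicator_of_mem hb', Set.indicator_of_mem (hiff.2 hb')]
      rfl
    · rw [Set.indicator_of_notMem hb', Set.indicator_of_notMem (fun hc' => hb' (hiff.1 hc'))]
  obtain ⟨t1, t2⟩ := tr_path S h L G n (Bs.indicator 1) (measurable_one.indicator hBs) hdep
  constructor
  · have e2 : PI (F.mu L) {ω | traj (F.st h L) G.1 ω ∈ Bs} =
        ∫⁻ ω, Bs.indicator 1 (traj (F.st h L) G.1 ω) ∂(PI (F.mu L)) :=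
      (lintegral_indicator_one (μ := PI (F.mu L)) (hmF G.1 hBs)).symm
    have e3 : PI (S.mu L) {ω | (fun j => (S.tr h L G ω j).1) ∈ Bs} =
        ∫⁻ ω, Bs.indicator 1 (fun j => (S.tr h L G ω j).1) ∂(PI (S.mu L)) :=
      (lintegral_indicator_one (μ := PI (S.mu L)) (hmS1 hBs)).symm
    rw [e2, e3, t1]
  · have e2 : PI (F.mu L) {ω | traj (F.st h L) G.2 ω ∈ Bs} =
        ∫⁻ ω, Bs.indicator 1 (traj (F.st h L) G.2 ω) ∂(PI (F.mu L)) :=
      (lintegral_indicator_one (μ := PI (F.mu L)) (hmF G.2 hBs)).symm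
    have e3 : PI (S.mu L) {ω | (fun j => (S.tr h L G ω j).2) ∈ Bs} =
        ∫⁻ ω, Bs.indicator 1 (fun j => (S.tr h L G ω j).2) ∂(PI (S.mu L)) :=
      (lintegral_indicator_one (μ := PI (S.mu L)) (hmS2 hBs)).symm
    rw [e2, e3, t2]

/-- caps during a window, first component -/
private theorem Win3_cap1 (N d : ℕ) (β : ℝ) (hβ : 0 < β) : ∃ C k0 : ℝ, 0 < C ∧ 0 < k0 ∧ k0 < 1 ∧
    ∀ k, 0 < k → k < k0 → ∀ (F : Fam d) (S : PSys F β k), BNoise N S.ν S.b S.gd →
    ∃ h0 : ℝ, 0 < h0 ∧ ∀ h, 0 < h → h < h0 → ∀ (L : ℕ)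
      (G : (boxS d L → F.V) × (boxS d L → F.V)) (v0 y : boxS d L) (R : ℕ) (ε0 σ : ℝ), 0 ≤ ε0 →
      ε0 * (R + 2) ≤ 1 / 64 → (boxNet d L).dist v0 y ≤ R + 1 →
      (∀ v, ‖G.1 v‖ ≤ k ^ (-(ε0 * (1 + (boxNet d L).dist v y)))) → 0 < σ →
      (C + 1) * σ ≤ 1 / 64 → ∀ n : ℕ, n * h ≤ σ * ell k + 1 →
      PI (S.mu L) {ω | ∃ j, j ≤ n ∧ k ^ (-(1 / 16) : ℝ) ≤ ‖(S.tr h L G ω j).1 v0‖} ≤
        ENNReal.ofReal (k ^ (1 / 64 : ℝ)) := by
  obtain ⟨C, hC, hcap⟩ := cap_max N d β hβ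
  obtain ⟨k3, hk3, hk31, hev⟩ := Win3_ext
    (((Win3_rpow_small (1 / 8) (1 / 2) (by norm_num) (by norm_num)).and
      (Win3_rpow_small (1 / 8) (1 / (4 * d + 1)) (by norm_num) (by positivity))).and
      (Win3_rpow_small (1 / 64) (1 / (Real.exp (C + 1) * 3 ^ d)) (by norm_num) (by positivity)))
  refine ⟨C, k3, hC, hk3, hk31, ?_⟩
  intro k hk hkk F S hB
  have hklt : k < 1 := hkk.trans hk31
  obtain ⟨⟨ha, hb⟩, hc⟩ := hev k hk hkk
  have hell : 0 ≤ ell k := by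
    unfold ell
    refine Real.log_nonneg ?_
    rw [one_le_div hk]
    linarith
  obtain ⟨h1, hh1, hcap'⟩ := hcap F k S hk hklt hB
  refine ⟨h1, hh1, ?_⟩
  intro h hh hl1 L G v0 y R ε0 σ hε0 hεR hv0 hG hσ hσC n hn
  set w : boxS d L → ℝ := fun v => k ^ (7 / 8 * ((boxNet d L).dist v0 v : ℝ)) with hw
  have hw0 : ∀ v, 0 ≤ w v := fun v => Real.rpow_nonneg hk.le _
  have hr : ∀ v, k * cpl (boxNet d L) w v ≤ 1 * w v := by
    intro v
    have h5 := Win3_cpl d L k (7 / 8) hk hklt (by norm_num) v0 v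
    have h6 : k * (4 * d * k ^ (-(7 / 8) : ℝ)) ≤ 1 := by
      have e2 : k * (4 * d * k ^ (-(7 / 8) : ℝ)) = 4 * d * k ^ (1 / 8 : ℝ) := by
        have e3 : k ^ (1 / 8 : ℝ) = k * k ^ (-(7 / 8) : ℝ) := by
          nth_rewrite 2 [← Real.rpow_one k]
          rw [← Real.rpow_add hk]
          congr 1
          norm_num
        rw [e3]; ring
      rw [e2]
      calc 4 * d * k ^ (1 / 8 : ℝ) ≤ 4 * d * (1 / (4 * d + 1)) :=
            mul_le_mul_of_nonneg_left hb (by positivity)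
        _ ≤ 1 := by
            rw [mul_one_div, div_le_one (by positivity)]
            linarith
    calc k * cpl (boxNet d L) w v ≤ k * (4 * d * k ^ (-(7 / 8) : ℝ) * w v) :=
          mul_le_mul_of_nonneg_left h5 hk.le
      _ = (k * (4 * d * k ^ (-(7 / 8) : ℝ))) * w v := by ring
      _ ≤ 1 * w v := mul_le_mul_of_nonneg_right h6 (hw0 v)
  have hy0 : 0 < k ^ (-(1 / 16) : ℝ) := Real.rpow_pos_of_pos hk _
  have hsub : {ω : ℕ → boxS d L → S.Ωp | ∃ j, j ≤ n ∧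
      k ^ (-(1 / 16) : ℝ) ≤ ‖(S.tr h L G ω j).1 v0‖} ⊆
      {ω | ∃ j, j ≤ n ∧ k ^ (-(1 / 16) : ℝ) ≤ ∑ v, w v * ‖(S.tr h L G ω j).1 v‖} := by
    rintro ω ⟨j, hj, hj2⟩
    refine ⟨j, hj, hj2.trans ?_⟩
    have h5 := Finset.single_le_sum (f := fun v => w v * ‖(S.tr h L G ω j).1 v‖)
      (fun v _ => mul_nonneg (hw0 v) (norm_nonneg _)) (Finset.mem_univ v0)
    refine le_trans (le_of_eq ?_) h5
    simp only [hw]
    rw [(boxNet d L).dist_self, Nat.cast_zero, mul_zero, Real.rpow_zero, one_mul]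
  refine (measure_mono hsub).trans ((hcap' h hh hl1 L G w 1 (k ^ (-(1 / 16) : ℝ)) zero_le_one hy0
    hw0 hr n).trans (ENNReal.ofReal_le_ofReal ?_))
  have hε1 : ε0 ≤ 1 / 64 := by
    have h5 : (0 : ℝ) ≤ (R : ℝ) := Nat.cast_nonneg R
    nlinarith
  have hsum : ∑ v, w v * ‖G.1 v‖ ≤ 3 ^ d * k ^ (-(1 / 64) : ℝ) := by
    calc ∑ v, w v * ‖G.1 v‖
        ≤ ∑ v, k ^ (-(1 / 64) : ℝ) * (1 / 2 : ℝ) ^ (boxNet d L).dist v0 v := by
          refine Finset.sum_le_sum fun v _ => ?_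
          have hDt : ((boxNet d L).dist v y : ℝ) ≤ (boxNet d L).dist v0 v + (R + 1) := by
            have h6 := (boxNet d L).dist_tri v v0 y
            rw [(boxNet d L).dist_comm v v0] at h6
            have h7 : (boxNet d L).dist v y ≤ (boxNet d L).dist v0 v + (R + 1) := by omega
            exact_mod_cast h7
          set D : ℝ := ((boxNet d L).dist v0 v : ℝ) with hD
          have hD0 : 0 ≤ D := Nat.cast_nonneg _
          calc w v * ‖G.1 v‖ ≤ w v * k ^ (-(ε0 * (1 + (boxNet d L).dist v y))) :=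
                mul_le_mul_of_nonneg_left (hG v) (hw0 v)
            _ = k ^ (7 / 8 * D + -(ε0 * (1 + (boxNet d L).dist v y))) := by
                rw [hw, ← Real.rpow_add hk]
            _ ≤ k ^ (-(1 / 64) + 1 / 8 * D) := by
                refine Real.rpow_le_rpow_of_exponent_ge hk hklt.le ?_
                have h8 : ε0 * (1 + ((boxNet d L).dist v y : ℝ)) ≤ ε0 * (R + 2) + ε0 * D := by
                  have h9 := mul_le_mul_of_nonneg_left hDt hε0
                  nlinarith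
                have h10 : ε0 * D ≤ 1 / 64 * D := mul_le_mul_of_nonneg_right hε1 hD0
                linarith
            _ = k ^ (-(1 / 64) : ℝ) * (k ^ (1 / 8 : ℝ)) ^ (boxNet d L).dist v0 v := by
                rw [← Real.rpow_natCast (k ^ (1 / 8 : ℝ)), ← Real.rpow_mul hk.le,
                  ← Real.rpow_add hk]
            _ ≤ k ^ (-(1 / 64) : ℝ) * (1 / 2 : ℝ) ^ (boxNet d L).dist v0 v := by
                refine mul_le_mul_of_nonneg_left ?_ (Real.rpow_nonneg hk.le _)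
                exact pow_le_pow_left₀ (Real.rpow_nonneg hk.le _) ha _
      _ = k ^ (-(1 / 64) : ℝ) * ∑ v, (1 / 2 : ℝ) ^ (boxNet d L).dist v0 v := by
          rw [Finset.mul_sum]
      _ ≤ k ^ (-(1 / 64) : ℝ) * 3 ^ d :=
          mul_le_mul_of_nonneg_left ((boxNet d L).sum_half v0) (Real.rpow_nonneg hk.le _)
      _ = 3 ^ d * k ^ (-(1 / 64) : ℝ) := mul_comm _ _
  have hexp : Real.exp ((C + 1) * (n * h)) ≤ Real.exp (C + 1) * k ^ (-(1 / 64) : ℝ) := by
    have e2 : Real.exp (C + 1) * k ^ (-(1 / 64) : ℝ) = Real.exp (C + 1 + 1 / 64 * ell k) := by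
      rw [Real.exp_add (C + 1) (1 / 64 * ell k), Win3_ell_exp hk]
    rw [e2]
    refine Real.exp_le_exp.2 ?_
    calc (C + 1) * (n * h) ≤ (C + 1) * (σ * ell k + 1) :=
          mul_le_mul_of_nonneg_left hn (by positivity)
      _ = (C + 1) + ((C + 1) * σ) * ell k := by ring
      _ ≤ C + 1 + 1 / 64 * ell k := by
          have := mul_le_mul_of_nonneg_right hσC hell
          linarith
  have hyinv : (k ^ (-(1 / 16) : ℝ))⁻¹ = k ^ (1 / 16 : ℝ) := by
    rw [Real.rpow_neg hk.le, inv_inv]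
  rw [div_eq_mul_inv, hyinv]
  have hS0 : 0 ≤ ∑ v, w v * ‖G.1 v‖ :=
    Finset.sum_nonneg fun v _ => mul_nonneg (hw0 v) (norm_nonneg _)
  calc Real.exp ((C + 1) * (n * h)) * (∑ v, w v * ‖G.1 v‖) * k ^ (1 / 16 : ℝ)
      ≤ (Real.exp (C + 1) * k ^ (-(1 / 64) : ℝ)) * (3 ^ d * k ^ (-(1 / 64) : ℝ)) *
          k ^ (1 / 16 : ℝ) := by
        gcongr
    _ = (Real.exp (C + 1) * 3 ^ d) * k ^ (-(1 / 64) + -(1 / 64) + 1 / 16 : ℝ) := by
        rw [Real.rpow_add hk, Real.rpow_add hk]; ring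
    _ = (Real.exp (C + 1) * 3 ^ d) * (k ^ (1 / 64 : ℝ) * k ^ (1 / 64 : ℝ)) := by
        rw [← Real.rpow_add hk]; norm_num
    _ ≤ (Real.exp (C + 1) * 3 ^ d) * ((1 / (Real.exp (C + 1) * 3 ^ d)) * k ^ (1 / 64 : ℝ)) := by
        gcongr
    _ = k ^ (1 / 64 : ℝ) := by field_simp

/-- caps during a window, both components -/
private theorem Win3_cap (N d : ℕ) (β : ℝ) (hβ : 0 < β) : ∃ C k0 : ℝ, 0 < C ∧ 0 < k0 ∧ k0 < 1 ∧
    ∀ k, 0 < k → k < k0 → ∀ (F : Fam d) (S : PSys F β k), BNoise N S.ν S.b S.gd →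
    ∃ h0 : ℝ, 0 < h0 ∧ ∀ h, 0 < h → h < h0 → ∀ (L : ℕ)
      (G : (boxS d L → F.V) × (boxS d L → F.V)) (v0 y : boxS d L) (R : ℕ) (ε0 σ : ℝ), 0 ≤ ε0 →
      ε0 * (R + 2) ≤ 1 / 64 → (boxNet d L).dist v0 y ≤ R + 1 →
      Caps k (fun v => ‖G.1 v‖ + ‖G.2 v‖) ε0 y → 0 < σ →
      (C + 1) * σ ≤ 1 / 64 → ∀ n : ℕ, n * h ≤ σ * ell k + 1 →
      PI (S.mu L) {ω | ∃ j, j ≤ n ∧ k ^ (-(1 / 16) : ℝ) ≤ ‖(S.tr h L G ω j).1 v0‖} ≤
        ENNReal.ofReal (k ^ (1 / 64 : ℝ)) ∧
      PI (S.mu L) {ω | ∃ j, j ≤ n ∧ k ^ (-(1 / 16) : ℝ) ≤ ‖(S.tr h L G ω j).2 v0‖} ≤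
        ENNReal.ofReal (k ^ (1 / 64 : ℝ)) := by
  obtain ⟨C, k0, hC, hk0, hk01, hall⟩ := Win3_cap1 N d β hβ
  refine ⟨C, k0, hC, hk0, hk01, ?_⟩
  intro k hk hkk F S hB
  obtain ⟨h0, hh0, hall'⟩ := hall k hk hkk F S hB
  refine ⟨h0, hh0, ?_⟩
  intro h hh hlt L G v0 y R ε0 σ hε0 hεR hv0 hG hσ hσC n hn
  have hG1 : ∀ v, ‖G.1 v‖ ≤ k ^ (-(ε0 * (1 + (boxNet d L).dist v y))) := fun v => by
    have h5 : ‖G.1 v‖ + ‖G.2 v‖ ≤ _ := hG v
    linarith [norm_nonneg (G.2 v)]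
  have hG2 : ∀ v, ‖G.2 v‖ ≤ k ^ (-(ε0 * (1 + (boxNet d L).dist v y))) := fun v => by
    have h5 : ‖G.1 v‖ + ‖G.2 v‖ ≤ _ := hG v
    linarith [norm_nonneg (G.1 v)]
  refine ⟨hall' h hh hlt L G v0 y R ε0 σ hε0 hεR hv0 hG1 hσ hσC n hn, ?_⟩
  have hA := hall' h hh hlt L (G.2, G.2) v0 y R ε0 σ hε0 hεR hv0 hG2 hσ hσC n hn
  set Bs : Set (ℕ → boxS d L → F.V) := {s | ∃ j, j ≤ n ∧ k ^ (-(1 / 16) : ℝ) ≤ ‖s j v0‖} with hBs
  have hBm : MeasurableSet Bs := by
    have e : Bs = ⋃ j ∈ Finset.range (n + 1), {s | k ^ (-(1 / 16) : ℝ) ≤ ‖s j v0‖} := by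
      ext s
      simp only [hBs, Set.mem_ofPred_eq, Set.mem_iUnion, Finset.mem_range, Nat.lt_succ_iff,
        exists_prop]
    rw [e]
    refine Finset.measurableSet_biUnion _ fun j _ => ?_
    have hm : Measurable fun s : ℕ → boxS d L → F.V => ‖s j v0‖ :=
      measurable_norm.comp ((measurable_pi_apply v0).comp (measurable_pi_apply j))
    exact measurableSet_le measurable_const hm
  have hBd : ∀ a b : ℕ → boxS d L → F.V, (∀ i, i < n + 1 → a i = b i) → (a ∈ Bs ↔ b ∈ Bs) := by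
    intro a b hab
    simp only [hBs, Set.mem_ofPred_eq]
    constructor
    · rintro ⟨j, hj, h5⟩
      exact ⟨j, hj, by rw [← hab j (by omega)]; exact h5⟩
    · rintro ⟨j, hj, h5⟩
      exact ⟨j, hj, by rw [hab j (by omega)]; exact h5⟩
  have e1 := (Win3_tr S h L G (n + 1) Bs hBm hBd).2
  have e2 := (Win3_tr S h L (G.2, G.2) (n + 1) Bs hBm hBd).1
  have e3 : PI (S.mu L) {ω | (fun j => (S.tr h L G ω j).2) ∈ Bs} =
      PI (S.mu L) {ω | (fun j => (S.tr h L (G.2, G.2) ω j).1) ∈ Bs} := by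
    rw [e1, e2]
  refine le_trans (le_of_eq ?_) hA
  exact e3

theorem win3 (N d : ℕ) (hN : 3 ≤ N) (β : ℝ) (hβ : 0 < β) : ∃ σ : ℝ, 0 < σ ∧ σ ≤ 1 / 16 ∧
    ∀ R : ℕ, ∃ ε0 c k0 : ℝ, 0 < ε0 ∧ 0 < c ∧ 0 < k0 ∧ k0 < 1 ∧
    ∀ k, 0 < k → k < k0 → ∀ (S : PSys (Fam1 N d β k) β k), BNoise N S.ν S.b S.gd →
    ∀ L : ℕ, ∃ h0 : ℝ, 0 < h0 ∧ ∀ h, 0 < h → h < h0 →
    ∀ (G : (boxS d L → E N) × (boxS d L → E N)) (y : boxS d L), LowG k y R G →
      Caps k (fun v => ‖G.1 v‖ + ‖G.2 v‖) ε0 y →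
      ∀ n : ℕ, σ * ell k / 2 ≤ n * h → n * h ≤ σ * ell k + 1 →
        PI (S.mu L) {ω | (∀ j, j < n → ∀ x, ω j x ∈ S.gd h) ∧
          ¬ (LowG k y R (S.tr h L G ω n) ∧ ∀ j, j ≤ n → RegG k y R (S.tr h L G ω j))} ≤
          ENNReal.ofReal (k ^ c) := by
  have hlam : 0 < lamN N := by
    unfold lamN
    have : (3 : ℝ) ≤ N := by exact_mod_cast hN
    linarith
  obtain ⟨σ1, hσ1, hw⟩ := wl3 N d (by omega) β hβ (1 / 64) (by norm_num) le_rfl
  obtain ⟨C, k1, hC, hk1, hk11, hcap⟩ := Win3_cap N d β hβ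
  obtain ⟨σb, cb, k2, hσb, hcb, hk2, hk21, hbs⟩ := Win3_bsum N (5 / 64) (by norm_num)
  obtain ⟨k3, hk3, hk31, hq2⟩ := q2_low d β (5 / 64) hβ (by norm_num) (by norm_num)
  set σ : ℝ := min (min (1 / 16) σ1) (min σb (1 / (64 * (C + 1)))) with hσdef
  have hσ : 0 < σ := by positivity
  have hσ16 : σ ≤ 1 / 16 := (min_le_left _ _).trans (min_le_left _ _)
  have hσσ1 : σ ≤ σ1 := (min_le_left _ _).trans (min_le_right _ _)
  have hσσb : σ ≤ σb := (min_le_right _ _).trans (min_le_left _ _)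
  have hσC : (C + 1) * σ ≤ 1 / 64 := by
    calc (C + 1) * σ ≤ (C + 1) * (1 / (64 * (C + 1))) :=
          mul_le_mul_of_nonneg_left ((min_le_right _ _).trans (min_le_right _ _)) (by positivity)
      _ = 1 / 64 := by field_simp
  refine ⟨σ, hσ, hσ16, fun R => ?_⟩
  obtain ⟨εw, cw, k4, hεw, hcw, hk4, hk41, hw'⟩ := hw σ hσ hσσ1 0 (lamN N * σ / 4) (by positivity)
  set ε0 : ℝ := min εw (1 / 64) / (R + 2) with hε0def
  have hR0 : (0 : ℝ) ≤ R := Nat.cast_nonneg R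
  have hε0 : 0 < ε0 := by positivity
  have hεR : ε0 * (R + 2) = min εw (1 / 64) := by
    rw [hε0def]
    field_simp
  have hεR1 : ε0 * (R + 2) ≤ 1 / 64 := hεR.le.trans (min_le_right _ _)
  have hεR2 : ε0 * (R + 2) ≤ εw := hεR.le.trans (min_le_left _ _)
  have hε1 : ε0 ≤ 1 / 64 := by nlinarith
  set c' : ℝ := min (1 / 64) (min cb cw) with hc'def
  have hc' : 0 < c' := by positivity
  have hc1 : c' ≤ 1 / 64 := min_le_left _ _
  have hc2 : c' ≤ cb := (min_le_right _ _).trans (min_le_left _ _)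
  have hc3 : c' ≤ cw := (min_le_right _ _).trans (min_le_right _ _)
  set A : ℝ := (2 * ((R : ℝ) + 1) + 1) ^ d with hA
  have hA0 : 0 < A := by positivity
  obtain ⟨k5, hk5, hk51, hev⟩ := Win3_ext
    (((Win3_rpow_small (c' / 2) (1 / (5 * A)) (by positivity) (by positivity)).and
      (Win3_rpow_small 1 (Real.exp (-2)) one_pos (Real.exp_pos _))).and
      (Win3_rpow_small 1 (Real.exp (-(2 / σ))) one_pos (Real.exp_pos _)))
  refine ⟨ε0, c' / 2, min (min (min k1 k2) (min k3 k4)) k5, hε0, by positivity, by positivity,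
    lt_of_le_of_lt (min_le_right _ _) hk51, ?_⟩
  intro k hk hkk S hB L
  have hkk1 : k < k1 := hkk.trans_le ((min_le_left _ _).trans ((min_le_left _ _).trans (min_le_left _ _)))
  have hkk2 : k < k2 := hkk.trans_le ((min_le_left _ _).trans ((min_le_left _ _).trans (min_le_right _ _)))
  have hkk3 : k < k3 := hkk.trans_le ((min_le_left _ _).trans ((min_le_right _ _).trans (min_le_left _ _)))
  have hkk4 : k < k4 := hkk.trans_le ((min_le_left _ _).trans ((min_le_right _ _).trans (min_le_right _ _)))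
  have hkk5 : k < k5 := hkk.trans_le (min_le_right _ _)
  have hklt : k < 1 := hkk5.trans hk51
  obtain ⟨⟨ha, hb⟩, hc⟩ := hev k hk hkk5
  rw [Real.rpow_one] at hb hc
  have hell2 : 2 ≤ ell k := by
    unfold ell
    rw [one_div, Real.log_inv]
    have := Real.log_le_log hk hb
    rw [Real.log_exp] at this
    linarith
  have hellσ : 2 / σ ≤ ell k := by
    unfold ell
    rw [one_div, Real.log_inv]
    have := Real.log_le_log hk hc
    rw [Real.log_exp] at this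
    linarith
  have hell : 0 ≤ ell k := by linarith
  obtain ⟨h1, hh1, hcap'⟩ := hcap k hk hkk1 (Fam1 N d β k) S hB
  obtain ⟨h2, hh2, hbs'⟩ := hbs S.Ωp S.ν S.b S.gd hB S.mb S.mgd k hk hkk2
  obtain ⟨h3, hh3, hq2'⟩ := hq2 k hk hkk3
  obtain ⟨h4, hh4, hw''⟩ := hw' k hk hkk4 S hB L
  refine ⟨min (min h1 h2) (min (min h3 h4) 1), by positivity, ?_⟩
  intro h hh hlt G y hlow hcaps n hn1 hn2
  have hl1 : h < h1 := hlt.trans_le ((min_le_left _ _).trans (min_le_left _ _))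
  have hl2 : h < h2 := hlt.trans_le ((min_le_left _ _).trans (min_le_right _ _))
  have hl3 : h < h3 := hlt.trans_le ((min_le_right _ _).trans ((min_le_left _ _).trans (min_le_left _ _)))
  have hl4 : h < h4 := hlt.trans_le ((min_le_right _ _).trans ((min_le_left _ _).trans (min_le_right _ _)))
  have hl5 : h < 1 := hlt.trans_le ((min_le_right _ _).trans (min_le_right _ _))
  have hn3 : (1 : ℝ) ≤ n * h := by
    refine le_trans ?_ hn1
    rw [div_le_iff₀ hσ] at hellσ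
    linarith
  -- the caps
  have hG1 : ∀ v, ‖G.1 v‖ ≤ k ^ (-(ε0 * (1 + (boxNet d L).dist v y))) := fun v => by
    have h5 : ‖G.1 v‖ + ‖G.2 v‖ ≤ _ := hcaps v
    linarith [norm_nonneg (G.2 v)]
  have hG2 : ∀ v, ‖G.2 v‖ ≤ k ^ (-(ε0 * (1 + (boxNet d L).dist v y))) := fun v => by
    have h5 : ‖G.1 v‖ + ‖G.2 v‖ ≤ _ := hcaps v
    linarith [norm_nonneg (G.1 v)]
  -- lower bounds at the end
  have hlowp : ∀ Gi : boxS d L → E N,
      (∀ v, ‖Gi v‖ ≤ k ^ (-(ε0 * (1 + (boxNet d L).dist v y)))) →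
      ∀ x, (boxNet d L).dist x y ≤ R → k ^ (5 / 64 : ℝ) ≤ ‖Gi x‖ →
      PI ((Fam1 N d β k).mu L) {ω |
        ‖traj ((Fam1 N d β k).st h L) Gi ω n x‖ < k ^ (5 / 64 : ℝ)} ≤
          ENNReal.ofReal (k ^ cw) := by
    intro Gi hGi x hx hGx
    have hxy : ((boxNet d L).dist x y : ℝ) ≤ R := by exact_mod_cast hx
    have hmain := hw'' h hh hl4 Gi x x (by rw [(boxNet d L).dist_self]) (by
        intro v
        rw [(boxNet d L).dist_self, pow_zero, mul_one]
        by_cases hvx : v = x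
        · subst hvx
          rw [(boxNet d L).dist_self, pow_zero, mul_one]
        · have hD1 : (1 : ℝ) ≤ (boxNet d L).dist x v := by
            exact_mod_cast (boxNet d L).dist_pos x v (fun hcon => hvx hcon.symm)
          have hDt : ((boxNet d L).dist v y : ℝ) ≤ (boxNet d L).dist x v + R := by
            have h6 := (boxNet d L).dist_tri v x y
            rw [(boxNet d L).dist_comm v x] at h6
            have h7 : (boxNet d L).dist v y ≤ (boxNet d L).dist x v + R := by omega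
            exact_mod_cast h7
          refine le_trans ?_ hGx
          calc ‖Gi v‖ * k ^ (boxNet d L).dist x v
              ≤ k ^ (-(ε0 * (1 + (boxNet d L).dist v y))) * k ^ (boxNet d L).dist x v :=
                mul_le_mul_of_nonneg_right (hGi v) (pow_nonneg hk.le _)
            _ = k ^ (-(ε0 * (1 + (boxNet d L).dist v y)) + ((boxNet d L).dist x v : ℝ)) := by
                rw [Real.rpow_add hk, Real.rpow_natCast]
            _ ≤ k ^ (5 / 64 : ℝ) := by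
                refine Real.rpow_le_rpow_of_exponent_ge hk hklt.le ?_
                have h9 := mul_le_mul_of_nonneg_left hDt hε0.le
                nlinarith)
      (by
        refine (hGi x).trans (Real.rpow_le_rpow_of_exponent_ge hk hklt.le ?_)
        nlinarith)
      (fun v => ε0 * (1 + (boxNet d L).dist v y)) (by
        intro v v' hv'
        have h6 := (boxNet d L).dist_tri v' v y
        rw [(boxNet d L).dist_comm v' v, (boxNet d L).dist_nb v v' hv'] at h6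
        have h7 : ((boxNet d L).dist v' y : ℝ) ≤ 1 + (boxNet d L).dist v y := by exact_mod_cast h6
        nlinarith)
      (by
        intro v hv
        have h6 := (boxNet d L).dist_tri v x y
        rw [(boxNet d L).dist_comm v x] at h6
        have h7 : ((boxNet d L).dist v y : ℝ) ≤ 1 + R := by
          have : (boxNet d L).dist v y ≤ 1 + R := by omega
          exact_mod_cast this
        nlinarith)
      hGi n hn3 hn2
    refine le_trans (measure_mono ?_) hmain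
    intro ω hω
    have hω' : ‖traj ((Fam1 N d β k).st h L) Gi ω n x‖ < k ^ (5 / 64 : ℝ) := hω
    refine lt_of_lt_of_le hω' (le_min ?_ ?_)
    · exact Real.rpow_le_rpow_of_exponent_ge hk hklt.le (by norm_num)
    · rw [(boxNet d L).dist_self, Nat.cast_zero, add_zero]
      have h8 : k ^ (-(lamN N * σ / 2)) ≤ Real.exp (lamN N * (n * h)) := by
        rw [← Win3_ell_exp hk]
        refine Real.exp_le_exp.2 ?_
        have := mul_le_mul_of_nonneg_left hn1 hlam.le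
        linarith
      calc k ^ (5 / 64 : ℝ) ≤ k ^ (lamN N * σ / 4 + -(lamN N * σ / 2) + 5 / 64) := by
            refine Real.rpow_le_rpow_of_exponent_ge hk hklt.le ?_
            have := mul_pos hlam hσ
            linarith
        _ = k ^ (lamN N * σ / 4) * k ^ (-(lamN N * σ / 2)) * k ^ (5 / 64 : ℝ) := by
            rw [Real.rpow_add hk, Real.rpow_add hk]
        _ ≤ k ^ (lamN N * σ / 4) * Real.exp (lamN N * (n * h)) * ‖Gi x‖ := by
            gcongr
  -- the exceptional events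
  set E4 : boxS d L → Set (ℕ → boxS d L → S.Ωp) := fun x =>
    {ω | (boxNet d L).dist x y ≤ R ∧ ‖(S.tr h L G ω n).1 x‖ < k ^ (5 / 64 : ℝ)} with hE4
  set E5 : boxS d L → Set (ℕ → boxS d L → S.Ωp) := fun x =>
    {ω | (boxNet d L).dist x y ≤ R ∧ ‖(S.tr h L G ω n).2 x‖ < k ^ (5 / 64 : ℝ)} with hE5
  set E3 : boxS d L → Set (ℕ → boxS d L → S.Ωp) := fun x =>
    {ω | ∃ i j, i ≤ j ∧ j ≤ n ∧ 5 / 64 * ell k < |∑ l ∈ Finset.Ico i j, S.b h (ω l x)|} with hE3
  set E1 : boxS d L → Set (ℕ → boxS d L → S.Ωp) := fun x =>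
    {ω | ∃ j, j ≤ n ∧ k ^ (-(1 / 16) : ℝ) ≤ ‖(S.tr h L G ω j).1 x‖} with hE1
  set E2 : boxS d L → Set (ℕ → boxS d L → S.Ωp) := fun x =>
    {ω | ∃ j, j ≤ n ∧ k ^ (-(1 / 16) : ℝ) ≤ ‖(S.tr h L G ω j).2 x‖} with hE2
  have hkc : ∀ a : ℝ, c' ≤ a → ENNReal.ofReal (k ^ a) ≤ ENNReal.ofReal (k ^ c') := fun a ha' =>
    ENNReal.ofReal_le_ofReal (Real.rpow_le_rpow_of_exponent_ge hk hklt.le ha')
  have p12 : ∀ x, (boxNet d L).dist x y ≤ R + 1 → PI (S.mu L) (E1 x) ≤ ENNReal.ofReal (k ^ c') ∧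
      PI (S.mu L) (E2 x) ≤ ENNReal.ofReal (k ^ c') := by
    intro x hx
    have h5 := hcap' h hh hl1 L G x y R ε0 σ hε0.le hεR1 hx hcaps hσ hσC n hn2
    exact ⟨h5.1.trans (hkc _ hc1), h5.2.trans (hkc _ hc1)⟩
  have p3 : ∀ x, PI (S.mu L) (E3 x) ≤ ENNReal.ofReal (k ^ c') := by
    intro x
    have hmap : (PI (S.mu L)).map (fun ω i => ω i x) = PI S.ν :=
      Win3_PI_map (S.mu L) S.ν (fun ξ => ξ x) (measurable_pi_apply x)
        (measurePreserving_eval (fun _ : boxS d L => S.ν) x).map_eq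
    have hmm : Measurable fun (ω : ℕ → boxS d L → S.Ωp) (i : ℕ) => ω i x := by
      rw [measurable_pi_iff]
      intro i
      exact (measurable_pi_apply x).comp (measurable_pi_apply i)
    have h5 := hbs' h hh hl2 n (hn2.trans (by
      have := mul_le_mul_of_nonneg_right hσσb hell
      linarith))
    refine le_trans ?_ (h5.trans (hkc _ hc2))
    rw [← hmap]
    exact Measure.le_map_apply hmm.aemeasurable _
  have hBd : ∀ x : boxS d L, ∀ a b : ℕ → boxS d L → E N, (∀ i, i < n + 1 → a i = b i) →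
      (a ∈ {s : ℕ → boxS d L → E N | ‖s n x‖ < k ^ (5 / 64 : ℝ)} ↔
        b ∈ {s : ℕ → boxS d L → E N | ‖s n x‖ < k ^ (5 / 64 : ℝ)}) := by
    intro x a b hab
    simp only [Set.mem_ofPred_eq]
    rw [hab n (by omega)]
  have hBm : ∀ x : boxS d L,
      MeasurableSet {s : ℕ → boxS d L → E N | ‖s n x‖ < k ^ (5 / 64 : ℝ)} := by
    intro x
    have hm : Measurable fun s : ℕ → boxS d L → E N => ‖s n x‖ :=
      measurable_norm.comp ((measurable_pi_apply x).comp (measurable_pi_apply n))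
    exact measurableSet_lt hm measurable_const
  have p45 : ∀ x, PI (S.mu L) (E4 x) ≤ ENNReal.ofReal (k ^ c') ∧
      PI (S.mu L) (E5 x) ≤ ENNReal.ofReal (k ^ c') := by
    intro x
    by_cases hx : (boxNet d L).dist x y ≤ R
    · have t := Win3_tr S h L G (n + 1) {s : ℕ → boxS d L → E N | ‖s n x‖ < k ^ (5 / 64 : ℝ)}
        (hBm x) (hBd x)
      constructor
      · refine le_trans (measure_mono ?_) ((le_of_eq t.1).trans
          ((hlowp G.1 hG1 x hx (hlow x hx).1).trans (hkc _ hc3)))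
        intro ω hω
        exact hω.2
      · refine le_trans (measure_mono ?_) ((le_of_eq t.2).trans
          ((hlowp G.2 hG2 x hx (hlow x hx).2).trans (hkc _ hc3)))
        intro ω hω
        exact hω.2
    · have e4 : E4 x = ∅ := by
        rw [hE4]
        ext ω
        simp [hx]
      have e5 : E5 x = ∅ := by
        rw [hE5]
        ext ω
        simp [hx]
      rw [e4, e5]
      simp
  classical
  set B1 : Finset (boxS d L) := Finset.univ.filter fun x => (boxNet d L).dist x y ≤ R + 1 with hB1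
  have hB1c : (B1.card : ℝ) ≤ A := by
    have h5 := (boxMSet d L).growth y (R + 1) B1 (by
      intro z hz
      have h6 := (Finset.mem_filter.1 hz).2
      show (boxNet d L).dist y z ≤ R + 1
      rw [(boxNet d L).dist_comm]
      exact h6)
    have h6 : (B1.card : ℝ) ≤ (((2 * (R + 1) + 1) ^ d : ℕ) : ℝ) := by exact_mod_cast h5
    refine h6.trans (le_of_eq ?_)
    rw [hA]
    push_cast
    ring
  have hincl : {ω : ℕ → boxS d L → S.Ωp | (∀ j, j < n → ∀ x, ω j x ∈ S.gd h) ∧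
      ¬ (LowG k y R (S.tr h L G ω n) ∧ ∀ j, j ≤ n → RegG k y R (S.tr h L G ω j))} ⊆
      ⋃ x ∈ B1, (((E1 x ∪ E2 x) ∪ E3 x) ∪ E4 x) ∪ E5 x := by
    rintro ω ⟨hgood, hnot⟩
    by_contra hcon
    apply hnot
    simp only [Set.mem_iUnion, not_exists] at hcon
    have hc12 : ∀ x, (boxNet d L).dist x y ≤ R + 1 → ω ∉ E1 x ∧ ω ∉ E2 x ∧ ω ∉ E3 x ∧
        ω ∉ E4 x ∧ ω ∉ E5 x := by
      intro x hx
      have h5 := hcon x (Finset.mem_filter.2 ⟨Finset.mem_univ x, hx⟩)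
      simp only [Set.mem_union, not_or] at h5
      exact ⟨h5.1.1.1.1, h5.1.1.1.2, h5.1.1.2, h5.1.2, h5.2⟩
    have hu1 : ∀ x, (boxNet d L).dist x y ≤ R + 1 → ∀ j, j ≤ n →
        ‖(S.tr h L G ω j).1 x‖ ≤ k ^ (-(1 / 16) : ℝ) := by
      intro x hx j hj
      by_contra h6
      exact (hc12 x hx).1 ⟨j, hj, (not_le.1 h6).le⟩
    have hu2 : ∀ x, (boxNet d L).dist x y ≤ R + 1 → ∀ j, j ≤ n →
        ‖(S.tr h L G ω j).2 x‖ ≤ k ^ (-(1 / 16) : ℝ) := by
      intro x hx j hj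
      by_contra h6
      exact (hc12 x hx).2.1 ⟨j, hj, (not_le.1 h6).le⟩
    have hs : ∀ x, (boxNet d L).dist x y ≤ R + 1 → ∀ i j, i ≤ j → j ≤ n →
        |∑ l ∈ Finset.Ico i j, S.b h (ω l x)| ≤ 5 / 64 * ell k := by
      intro x hx i j hij hj
      by_contra h6
      exact (hc12 x hx).2.2.1 ⟨i, j, hij, hj, not_le.1 h6⟩
    have hk816 : k ^ (-(1 / 16) : ℝ) ≤ k ^ (-(1 / 8 : ℝ)) :=
      Real.rpow_le_rpow_of_exponent_ge hk hklt.le (by norm_num)
    have hk154 : k ^ (1 / 4 : ℝ) ≤ k ^ (3 * (5 / 64) : ℝ) :=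
      Real.rpow_le_rpow_of_exponent_ge hk hklt.le (by norm_num)
    have hnb : ∀ x, (boxNet d L).dist x y ≤ R → ∀ z ∈ (boxNet d L).nb x,
        (boxNet d L).dist z y ≤ R + 1 := by
      intro x hx z hz
      have h6 := (boxNet d L).dist_tri z x y
      rw [(boxNet d L).dist_comm z x, (boxNet d L).dist_nb x z hz] at h6
      omega
    have hjh : ∀ j : ℕ, j ≤ n → (j : ℝ) * h ≤ ell k ^ 3 := by
      intro j hj
      have h5 : (j : ℝ) * h ≤ n * h := by
        have : (j : ℝ) ≤ n := by exact_mod_cast hj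
        exact mul_le_mul_of_nonneg_right this hh.le
      refine h5.trans (hn2.trans ?_)
      have h6 : σ * ell k ≤ 1 * ell k := mul_le_mul_of_nonneg_right (hσ16.trans (by norm_num)) hell
      nlinarith [mul_nonneg hell hell, mul_self_nonneg (ell k - 2)]
    refine ⟨?_, ?_⟩
    · intro x hx
      have h5 := hc12 x (by omega)
      constructor
      · by_contra h6
        exact h5.2.2.2.1 ⟨hx, not_le.1 h6⟩
      · by_contra h6
        exact h5.2.2.2.2 ⟨hx, not_le.1 h6⟩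
    · intro j hj
      refine ⟨?_, fun x hx => ⟨hu1 x hx j hj, hu2 x hx j hj⟩⟩
      intro x hx
      have hx1 : (boxNet d L).dist x y ≤ R + 1 := by omega
      constructor
      · refine hk154.trans ?_
        exact hq2' h hh hl3 (boxS d L) (boxNet d L) (fun i z => S.b h (ω i z))
          (fun i => nrm (S.tr h L G ω i).1) x j (hjh j hj)
          (fun i hi => S.q1 h L (S.tr h L G ω i) (ω i) hh (fun z => hgood i (by omega) z))
          (fun i hi => hB.bdd h hh hl5 _ (hgood i (by omega) x))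
          (fun i i' hii' hi' => hs x hx1 i i' hii' (by omega))
          (fun i hi => ⟨(hu1 x hx1 i (by omega)).trans hk816,
            fun z hz => (hu1 z (hnb x hx z hz) i (by omega)).trans hk816⟩)
          0 (Nat.zero_le _) (hlow x hx).1
      · refine hk154.trans ?_
        exact hq2' h hh hl3 (boxS d L) (boxNet d L) (fun i z => S.b h (ω i z))
          (fun i => nrm (S.tr h L G ω i).2) x j (hjh j hj)
          (fun i hi => S.q2 h L (S.tr h L G ω i) (ω i) hh (fun z => hgood i (by omega) z))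
          (fun i hi => hB.bdd h hh hl5 _ (hgood i (by omega) x))
          (fun i i' hii' hi' => hs x hx1 i i' hii' (by omega))
          (fun i hi => ⟨(hu2 x hx1 i (by omega)).trans hk816,
            fun z hz => (hu2 z (hnb x hx z hz) i (by omega)).trans hk816⟩)
          0 (Nat.zero_le _) (hlow x hx).2
  have hkc0 : 0 ≤ k ^ c' := Real.rpow_nonneg hk.le _
  calc PI (S.mu L) {ω : ℕ → boxS d L → S.Ωp | (∀ j, j < n → ∀ x, ω j x ∈ S.gd h) ∧
      ¬ (LowG k y R (S.tr h L G ω n) ∧ ∀ j, j ≤ n → RegG k y R (S.tr h L G ω j))}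
      ≤ PI (S.mu L) (⋃ x ∈ B1, (((E1 x ∪ E2 x) ∪ E3 x) ∪ E4 x) ∪ E5 x) := measure_mono hincl
    _ ≤ ∑ x ∈ B1, PI (S.mu L) ((((E1 x ∪ E2 x) ∪ E3 x) ∪ E4 x) ∪ E5 x) :=
        measure_biUnion_finset_le _ _
    _ ≤ ∑ x ∈ B1, ENNReal.ofReal (5 * k ^ c') := by
        refine Finset.sum_le_sum fun x hx => ?_
        have hx1 := (Finset.mem_filter.1 hx).2
        have q1 := (p12 x hx1).1
        have q2 := (p12 x hx1).2
        have q3 := p3 x
        have q4 := (p45 x).1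
        have q5 := (p45 x).2
        have e5 : ENNReal.ofReal (5 * k ^ c') = (((ENNReal.ofReal (k ^ c') +
            ENNReal.ofReal (k ^ c')) + ENNReal.ofReal (k ^ c')) + ENNReal.ofReal (k ^ c')) +
            ENNReal.ofReal (k ^ c') := by
          rw [← ENNReal.ofReal_add hkc0 hkc0, ← ENNReal.ofReal_add (by positivity) hkc0,
            ← ENNReal.ofReal_add (by positivity) hkc0, ← ENNReal.ofReal_add (by positivity) hkc0]
          congr 1
          ring
        rw [e5]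
        refine (measure_union_le _ _).trans (add_le_add ?_ q5)
        refine (measure_union_le _ _).trans (add_le_add ?_ q4)
        refine (measure_union_le _ _).trans (add_le_add ?_ q3)
        exact (measure_union_le _ _).trans (add_le_add q1 q2)
    _ = ENNReal.ofReal (B1.card * (5 * k ^ c')) := by
        rw [Finset.sum_const, nsmul_eq_mul, ← ENNReal.ofReal_natCast, ← ENNReal.ofReal_mul
          (by positivity)]
    _ ≤ ENNReal.ofReal (k ^ (c' / 2)) := by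
        refine ENNReal.ofReal_le_ofReal ?_
        have e6 : k ^ c' = k ^ (c' / 2) * k ^ (c' / 2) := by
          rw [← Real.rpow_add hk]; congr 1; ring
        have h0' : 0 ≤ k ^ (c' / 2) := Real.rpow_nonneg hk.le _
        calc (B1.card : ℝ) * (5 * k ^ c') ≤ A * (5 * k ^ c') := by gcongr
          _ = (5 * A) * k ^ (c' / 2) * k ^ (c' / 2) := by rw [e6]; ring
          _ ≤ (5 * A) * (1 / (5 * A)) * k ^ (c' / 2) := by gcongr
          _ = k ^ (c' / 2) := by field_simp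

end DynG

end

/-! ### from `Lib_MP_36b788g.Stay3` -/

section

/-!
# Staying regular over a long time

PROOF of `stay3`. `σ ≤ 1/16` of `win3`, `ε0` for `R`. `x = (n-n1)h/(0.9σell) ≥ (ell/8)/(0.9ell/16) ≥ 2.2`, `J = ⌈x⌉₊`, window starts `t_i = n1+⌊i(n-n1)/J⌋`, `i = 0..J`, `t_J = n`: the real length of each window is in
`[(n-n1)h/J-h, (n-n1)h/J+h]`, `(n-n1)h/J ≤ 0.9σell` and `≥ 0.9σell·x/(x+1) ≥ 0.6σell`; so all lengths are in `[σell/2, σell+1]` (`h` small). `J ≤ 20(T+1)/σ`: bounded.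
At each `t_i` (`t_ih ≥ 1`): `caps_prob`: on `alv t_i` outside probability `k^c`: `Caps ε0`. By induction on `i`: outside probability `(i+1)·2k^{c}` on `alv n ∩ {LowG at n1}`: `LowG` at `t_i` and `RegG` at all `j ∈ [n1,t_i]`: Markov property at `t_i`
(`lintegral_glue t_i`, `traj_glue_le`, `traj_glue_add`), `win3` for the state at `t_i`.
-/

open MeasureTheory ProbabilityTheory
open scoped ENNReal

namespace DynG

open Dyn DynS DynC

/-! ### windows -/

private theorem Stay3_win (m : ℕ) (h s : ℝ) (hh : 0 < h) (hs : 0 < s) (hm : 2 * (9 / 10 * s) ≤ m * h)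
    (_hh1 : h ≤ 1) (hh2 : h ≤ s / 10) :
    ∃ (J : ℕ) (t : ℕ → ℕ), 0 < J ∧ (J : ℝ) ≤ m * h / (9 / 10 * s) + 1 ∧ t 0 = 0 ∧ t J = m ∧
      ∀ i, i < J → ∃ l : ℕ, t (i + 1) = t i + l ∧ s / 2 ≤ l * h ∧ (l : ℝ) * h ≤ s + 1 := by
  have h9 : 0 < 9 / 10 * s := by positivity
  set x : ℝ := m * h / (9 / 10 * s) with hx_def
  have hx2 : 2 ≤ x := by
    rw [hx_def, le_div_iff₀ h9]
    exact hm
  have hxm : x * (9 / 10 * s) = m * h := by
    rw [hx_def]
    field_simp
  have hJ1 : x ≤ (⌈x⌉₊ : ℝ) := Nat.le_ceil x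
  have hJ2 : (⌈x⌉₊ : ℝ) < x + 1 := Nat.ceil_lt_add_one (by linarith)
  set J := ⌈x⌉₊ with hJ_def
  have hJ0 : (0 : ℝ) < J := by linarith
  have hJ0' : 0 < J := by exact_mod_cast hJ0
  refine ⟨J, fun i => i * m / J, hJ0', hJ2.le, by simp, by
    show J * m / J = m
    exact Nat.mul_div_cancel_left m hJ0', ?_⟩
  intro i _
  have hle : i * m / J ≤ (i + 1) * m / J := Nat.div_le_div_right (Nat.mul_le_mul_right m (Nat.le_succ i))
  obtain ⟨l, hl⟩ := Nat.exists_eq_add_of_le hle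
  refine ⟨l, hl, ?_⟩
  have a1 : ((i * m / J : ℕ) : ℝ) ≤ (i * m : ℝ) / J := by
    have := Nat.cast_div_le (α := ℝ) (m := i * m) (n := J)
    push_cast at this
    exact this
  have a2 : (i * m : ℝ) / J < ((i * m / J : ℕ) : ℝ) + 1 := by
    rw [div_lt_iff₀ hJ0]
    have h1 : i * m < (i * m / J + 1) * J := by
      have := Nat.lt_div_mul_add (a := i * m) hJ0'
      linarith
    exact_mod_cast h1
  have b1 : (((i + 1) * m / J : ℕ) : ℝ) ≤ ((i + 1) * m : ℝ) / J := by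
    have := Nat.cast_div_le (α := ℝ) (m := (i + 1) * m) (n := J)
    push_cast at this
    exact this
  have b2 : ((i + 1) * m : ℝ) / J < (((i + 1) * m / J : ℕ) : ℝ) + 1 := by
    rw [div_lt_iff₀ hJ0]
    have h1 : (i + 1) * m < ((i + 1) * m / J + 1) * J := by
      have := Nat.lt_div_mul_add (a := (i + 1) * m) hJ0'
      linarith
    exact_mod_cast h1
  have hlr : (((i + 1) * m / J : ℕ) : ℝ) = ((i * m / J : ℕ) : ℝ) + l := by
    rw [hl]
    push_cast
    ring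
  have hadd : ((i + 1) * m : ℝ) / J = (i * m : ℝ) / J + m / J := by
    field_simp
  have l1 : (l : ℝ) ≤ m / J + 1 := by linarith
  have l2 : (m : ℝ) / J - 1 ≤ l := by linarith
  have hmJ : (m : ℝ) / J * h = x / J * (9 / 10 * s) := by
    rw [div_mul_eq_mul_div, ← hxm]
    ring
  have hxJ : x / J ≤ 1 := (div_le_one hJ0).2 hJ1
  have hxJ' : 2 / 3 ≤ x / J := by
    rw [le_div_iff₀ hJ0]
    linarith
  constructor
  · have c1 : ((m : ℝ) / J - 1) * h ≤ l * h := mul_le_mul_of_nonneg_right l2 hh.le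
    have c2 : 2 / 3 * (9 / 10 * s) ≤ x / J * (9 / 10 * s) := mul_le_mul_of_nonneg_right hxJ' h9.le
    nlinarith
  · have c1 : (l : ℝ) * h ≤ ((m : ℝ) / J + 1) * h := mul_le_mul_of_nonneg_right l1 hh.le
    have c2 : x / J * (9 / 10 * s) ≤ 1 * (9 / 10 * s) := mul_le_mul_of_nonneg_right hxJ h9.le
    nlinarith

/-- if every window is good then everything is good -/
private theorem Stay3_cover (Lo Re : ℕ → Prop) (J : ℕ) (t : ℕ → ℕ) (hJ : 0 < J)
    (hstep : ∀ i, i < J → ∃ l : ℕ, t (i + 1) = t i + l) (h0 : Lo (t 0))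
    (hw : ∀ i, i < J → Lo (t i) → Lo (t (i + 1)) ∧ ∀ j, t i ≤ j → j ≤ t (i + 1) → Re j) :
    ∀ j, t 0 ≤ j → j ≤ t J → Re j := by
  have key : ∀ i, i < J → Lo (t (i + 1)) ∧ ∀ j, t 0 ≤ j → j ≤ t (i + 1) → Re j := by
    intro i
    induction i with
    | zero =>
      intro hi
      exact hw 0 hi h0
    | succ i ih =>
      intro hi
      obtain ⟨h1, h2⟩ := ih (by omega)
      obtain ⟨h3, h4⟩ := hw (i + 1) hi h1
      refine ⟨h3, fun j hj1 hj2 => ?_⟩
      rcases le_total j (t (i + 1)) with h5 | h5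
      · exact h2 j hj1 h5
      · exact h4 j h5 hj2
  obtain ⟨J', rfl⟩ := Nat.exists_eq_succ_of_ne_zero hJ.ne'
  exact (key J' (Nat.lt_succ_self J')).2

/-! ### measurability -/

private theorem Stay3_imp {Ω : Type} [MeasurableSpace Ω] (p : Prop) (q : Ω → Prop)
    (h : MeasurableSet {ω | q ω}) : MeasurableSet {ω | p → q ω} := by
  by_cases hp : p
  · simpa [hp] using h
  · simp [hp]

private theorem Stay3_all {Ω A : Type} [Countable A] [MeasurableSpace Ω] (q : A → Ω → Prop)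
    (h : ∀ a, MeasurableSet {ω | q a ω}) : MeasurableSet {ω | ∀ a, q a ω} := by
  rw [Set.ofPred_forall]
  exact MeasurableSet.iInter h

section meas
variable {d L : ℕ} {V : Type} [NormedAddCommGroup V] [MeasurableSpace V] [BorelSpace V]

private theorem Stay3_u1 (x : boxS d L) :
    Measurable fun G : (boxS d L → V) × (boxS d L → V) => ‖G.1 x‖ :=
  ((measurable_pi_apply x).comp measurable_fst).norm

private theorem Stay3_u2 (x : boxS d L) :
    Measurable fun G : (boxS d L → V) × (boxS d L → V) => ‖G.2 x‖ :=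
  ((measurable_pi_apply x).comp measurable_snd).norm

private theorem Stay3_mLow (k : ℝ) (y : boxS d L) (R : ℕ) :
    MeasurableSet {G : (boxS d L → V) × (boxS d L → V) | LowG k y R G} := by
  unfold LowG
  refine Stay3_all _ fun x => Stay3_imp _ _ ?_
  exact (measurableSet_le measurable_const (Stay3_u1 x)).inter
    (measurableSet_le measurable_const (Stay3_u2 x))

private theorem Stay3_mReg (k : ℝ) (y : boxS d L) (R : ℕ) :
    MeasurableSet {G : (boxS d L → V) × (boxS d L → V) | RegG k y R G} := by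
  unfold RegG
  refine MeasurableSet.inter (Stay3_all _ fun x => Stay3_imp _ _ ?_)
    (Stay3_all _ fun x => Stay3_imp _ _ ?_)
  · exact (measurableSet_le measurable_const (Stay3_u1 x)).inter
      (measurableSet_le measurable_const (Stay3_u2 x))
  · exact (measurableSet_le (Stay3_u1 x) measurable_const).inter
      (measurableSet_le (Stay3_u2 x) measurable_const)

private theorem Stay3_mCap (k : ℝ) (y : boxS d L) (ε0 : ℝ) :
    MeasurableSet {G : (boxS d L → V) × (boxS d L → V) |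
      Caps k (fun v => ‖G.1 v‖ + ‖G.2 v‖) ε0 y} := by
  unfold Caps
  exact Stay3_all _ fun x => measurableSet_le ((Stay3_u1 x).add (Stay3_u2 x)) measurable_const

end meas

section step
variable {d : ℕ} {F : Fam d} {β k : ℝ}

/-- one window -/
private theorem Stay3_step (S : PSys F β k) (h : ℝ) (L : ℕ)
    (G : (boxS d L → F.V) × (boxS d L → F.V)) (y : boxS d L) (R : ℕ) (ε0 : ℝ) (t m : ℕ)
    (p1 p2 : ℝ≥0∞)
    (H1 : PI (S.mu L) (S.alv h L G t ∩ {ω | ¬ Caps k (fun v => ‖(S.tr h L G ω t).1 v‖ +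
      ‖(S.tr h L G ω t).2 v‖) ε0 y}) ≤ p1)
    (H2 : ∀ G' : (boxS d L → F.V) × (boxS d L → F.V), LowG k y R G' →
      Caps k (fun v => ‖G'.1 v‖ + ‖G'.2 v‖) ε0 y →
      PI (S.mu L) {ω | (∀ j, j < m → ∀ x, ω j x ∈ S.gd h) ∧
        ¬ (LowG k y R (S.tr h L G' ω m) ∧ ∀ j, j ≤ m → RegG k y R (S.tr h L G' ω j))} ≤ p2) :
    PI (S.mu L) (S.alv h L G (t + m) ∩ {ω | LowG k y R (S.tr h L G ω t) ∧
      ¬ (LowG k y R (S.tr h L G ω (t + m)) ∧ ∀ j, j ≤ m → RegG k y R (S.tr h L G ω (t + j)))}) ≤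
      p1 + p2 := by
  set B : Set (ℕ → boxS d L → S.Ωp) := {ω | (∀ j, j < m → ∀ x, ω (t + j) x ∈ S.gd h) ∧
    (LowG k y R (S.tr h L G ω t) ∧
      Caps k (fun v => ‖(S.tr h L G ω t).1 v‖ + ‖(S.tr h L G ω t).2 v‖) ε0 y) ∧
      ¬ (LowG k y R (S.tr h L G ω (t + m)) ∧ ∀ j, j ≤ m → RegG k y R (S.tr h L G ω (t + j)))}
    with hB_def
  have hmtr : ∀ j, Measurable fun ω : ℕ → boxS d L → S.Ωp => S.tr h L G ω j := fun j =>
    (measurable_tr S h L j).comp (measurable_const.prodMk measurable_id)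
  have hB : MeasurableSet B := by
    refine MeasurableSet.inter (Stay3_all _ fun j => Stay3_imp _ _ (Stay3_all _ fun x => ?_))
      (MeasurableSet.inter (MeasurableSet.inter ?_ ?_) (MeasurableSet.compl (MeasurableSet.inter ?_
        (Stay3_all _ fun j => Stay3_imp _ _ ?_))))
    · exact (S.mgd h).preimage ((measurable_pi_apply x).comp (measurable_pi_apply (t + j)))
    · exact (Stay3_mLow k y R).preimage (hmtr t)
    · exact (Stay3_mCap k y ε0).preimage (hmtr t)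
    · exact (Stay3_mLow k y R).preimage (hmtr (t + m))
    · exact (Stay3_mReg k y R).preimage (hmtr (t + j))
  have hPB : PI (S.mu L) B ≤ p2 := by
    rw [← lintegral_indicator_one hB, lintegral_glue t _ (measurable_one.indicator hB)]
    have hin : ∀ a : ℕ → boxS d L → S.Ωp,
        ∫⁻ b, B.indicator (1 : (ℕ → boxS d L → S.Ωp) → ℝ≥0∞) (glue t a b) ∂(PI (S.mu L)) ≤ p2 := by
      intro a
      have h1 : (fun b => B.indicator (1 : (ℕ → boxS d L → S.Ωp) → ℝ≥0∞) (glue t a b)) =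
          ({b | glue t a b ∈ B}).indicator 1 := by
        funext b
        by_cases hb : glue t a b ∈ B
        · rw [Set.indicator_of_mem hb, Set.indicator_of_mem (show b ∈ {b | glue t a b ∈ B} from hb)]
          rfl
        · rw [Set.indicator_of_notMem hb,
            Set.indicator_of_notMem (show b ∉ {b | glue t a b ∈ B} from hb)]
      have h2 : MeasurableSet {b | glue t a b ∈ B} :=
        hB.preimage ((measurable_glue t).comp (measurable_const.prodMk measurable_id))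
      rw [h1, lintegral_indicator_one h2]
      have g1 : ∀ b, S.tr h L G (glue t a b) t = S.tr h L G a t := fun b =>
        traj_glue_le (S.st h L) G t a b t le_rfl
      have g2 : ∀ b j, S.tr h L G (glue t a b) (t + j) = S.tr h L (S.tr h L G a t) b j := fun b j =>
        traj_glue_add (S.st h L) G t a b j
      have g3 : ∀ (b : ℕ → boxS d L → S.Ωp) j, glue t a b (t + j) = b j := by
        intro b j
        unfold glue
        rw [if_neg (by omega)]
        congr 1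
        omega
      by_cases hc : LowG k y R (S.tr h L G a t) ∧
          Caps k (fun v => ‖(S.tr h L G a t).1 v‖ + ‖(S.tr h L G a t).2 v‖) ε0 y
      · refine (measure_mono ?_).trans (H2 (S.tr h L G a t) hc.1 hc.2)
        rintro b ⟨b1, _, b3⟩
        refine ⟨fun j hj x => ?_, ?_⟩
        · have := b1 j hj x
          rwa [g3] at this
        · simpa only [g2] using b3
      · have h3 : {b | glue t a b ∈ B} = ∅ := by
          ext b
          simp only [Set.mem_ofPred_eq, Set.mem_empty_iff_false, iff_false]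
          rintro ⟨_, b2, _⟩
          rw [g1] at b2
          exact hc b2
        rw [h3, measure_empty]
        exact bot_le
    calc ∫⁻ a, ∫⁻ b, B.indicator 1 (glue t a b) ∂(PI (S.mu L)) ∂(PI (S.mu L))
        ≤ ∫⁻ _a, p2 ∂(PI (S.mu L)) := lintegral_mono hin
      _ = p2 := by simp
  refine (measure_mono (t := (S.alv h L G t ∩ {ω | ¬ Caps k (fun v => ‖(S.tr h L G ω t).1 v‖ +
      ‖(S.tr h L G ω t).2 v‖) ε0 y}) ∪ B) ?_).trans ((measure_union_le _ _).trans (add_le_add H1 hPB))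
  rintro ω ⟨⟨w1, w2⟩, w3, w4⟩
  by_cases hc : Caps k (fun v => ‖(S.tr h L G ω t).1 v‖ + ‖(S.tr h L G ω t).2 v‖) ε0 y
  · right
    exact ⟨fun j hj x => w1 (t + j) (by omega) x, ⟨w3, hc⟩, w4⟩
  · left
    exact ⟨⟨fun j hj x => w1 j (by omega) x, fun j hj x => w2 j (by omega) x⟩, hc⟩

private theorem Stay3_alv_mono (S : PSys F β k) (h : ℝ) (L : ℕ)
    (G : (boxS d L → F.V) × (boxS d L → F.V)) {n m : ℕ} (hnm : n ≤ m) :
    S.alv h L G m ⊆ S.alv h L G n := by
  rintro ω ⟨w1, w2⟩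
  exact ⟨fun j hj x => w1 j (by omega) x, fun j hj x => w2 j (by omega) x⟩

/-- all windows -/
private theorem Stay3_core (S : PSys F β k) (h : ℝ) (L : ℕ)
    (G : (boxS d L → F.V) × (boxS d L → F.V)) (y : boxS d L) (R : ℕ) (ε0 : ℝ) (n1 n J : ℕ)
    (t : ℕ → ℕ) (p1 p2 : ℝ≥0∞) (hJ : 0 < J) (ht0 : t 0 = 0) (htJ : n1 + t J = n)
    (H : ∀ i, i < J → ∃ l : ℕ, t (i + 1) = t i + l ∧
      PI (S.mu L) (S.alv h L G (n1 + t i) ∩ {ω | ¬ Caps k (fun v =>
        ‖(S.tr h L G ω (n1 + t i)).1 v‖ + ‖(S.tr h L G ω (n1 + t i)).2 v‖) ε0 y}) ≤ p1 ∧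
      ∀ G' : (boxS d L → F.V) × (boxS d L → F.V), LowG k y R G' →
      Caps k (fun v => ‖G'.1 v‖ + ‖G'.2 v‖) ε0 y →
      PI (S.mu L) {ω | (∀ j, j < l → ∀ x, ω j x ∈ S.gd h) ∧
        ¬ (LowG k y R (S.tr h L G' ω l) ∧ ∀ j, j ≤ l → RegG k y R (S.tr h L G' ω j))} ≤ p2) :
    PI (S.mu L) (S.alv h L G n ∩ {ω | LowG k y R (S.tr h L G ω n1) ∧
      ∃ j, n1 ≤ j ∧ j ≤ n ∧ ¬ RegG k y R (S.tr h L G ω j)}) ≤ J * (p1 + p2) := by
  have hmono : ∀ i, i < J → n1 + t (i + 1) ≤ n := by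
    intro i hi
    obtain ⟨r, hr⟩ := Nat.exists_eq_add_of_le hi
    have h1 : ∀ s, i + 1 + s ≤ J → t (i + 1) ≤ t (i + 1 + s) := by
      intro s
      induction s with
      | zero => intro _; exact le_rfl
      | succ s ih =>
        intro hs
        obtain ⟨l, hl, -⟩ := H (i + 1 + s) (by omega)
        have h2 := ih (by omega)
        have h3 : t (i + 1 + (s + 1)) = t (i + 1 + s) + l := hl
        omega
    have h2 := h1 r (by omega)
    rw [show i + 1 + r = J by omega] at h2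
    omega
  have hsub : (S.alv h L G n ∩ {ω | LowG k y R (S.tr h L G ω n1) ∧
      ∃ j, n1 ≤ j ∧ j ≤ n ∧ ¬ RegG k y R (S.tr h L G ω j)}) ⊆
      ⋃ i ∈ Finset.range J, (S.alv h L G (n1 + t (i + 1)) ∩
        {ω | LowG k y R (S.tr h L G ω (n1 + t i)) ∧
          ¬ (LowG k y R (S.tr h L G ω (n1 + t (i + 1))) ∧
            ∀ j, n1 + t i ≤ j → j ≤ n1 + t (i + 1) → RegG k y R (S.tr h L G ω j))}) := by
    rintro ω ⟨w1, w2, j, hj1, hj2, hj3⟩
    by_contra hcon
    simp only [Set.mem_iUnion, Finset.mem_range, not_exists] at hcon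
    refine hj3 (Stay3_cover (fun j => LowG k y R (S.tr h L G ω j))
      (fun j => RegG k y R (S.tr h L G ω j)) J (fun i => n1 + t i) hJ ?_ ?_ ?_ j ?_ ?_)
    · intro i hi
      obtain ⟨l, hl, -⟩ := H i hi
      exact ⟨l, by simp only [hl]; omega⟩
    · simp only [ht0]
      exact w2
    · intro i hi hlo
      by_contra hc
      exact hcon i hi ⟨Stay3_alv_mono S h L G (hmono i hi) w1, hlo, hc⟩
    · simp only [ht0]
      exact hj1
    · simp only [htJ]
      exact hj2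
  refine (measure_mono hsub).trans ((measure_biUnion_finset_le _ _).trans ?_)
  calc ∑ i ∈ Finset.range J, PI (S.mu L) (S.alv h L G (n1 + t (i + 1)) ∩
        {ω | LowG k y R (S.tr h L G ω (n1 + t i)) ∧
          ¬ (LowG k y R (S.tr h L G ω (n1 + t (i + 1))) ∧
            ∀ j, n1 + t i ≤ j → j ≤ n1 + t (i + 1) → RegG k y R (S.tr h L G ω j))})
      ≤ ∑ _i ∈ Finset.range J, (p1 + p2) := by
        refine Finset.sum_le_sum fun i hi => ?_
        obtain ⟨l, hl, h1, h2⟩ := H i (Finset.mem_range.1 hi)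
        have h3 := Stay3_step S h L G y R ε0 (n1 + t i) l p1 p2 h1 h2
        refine (measure_mono ?_).trans h3
        rw [hl, ← add_assoc]
        rintro ω ⟨w1, w2, w3⟩
        refine ⟨w1, w2, fun hc => w3 ⟨hc.1, fun j hj1 hj2 => ?_⟩⟩
        obtain ⟨r, rfl⟩ := Nat.exists_eq_add_of_le hj1
        exact hc.2 r (by omega)
    _ = J * (p1 + p2) := by
        rw [Finset.sum_const, Finset.card_range, nsmul_eq_mul]

end step

/-- smallness of `k` -/
private theorem Stay3_small (T σ c : ℝ) (hc : 0 < c) :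
    ∃ k0 : ℝ, 0 < k0 ∧ k0 < 1 ∧ ∀ k, 0 < k → k < k0 →
      1 ≤ ell k ∧ ((T + 1) / (9 / 10 * σ) + 1) * (2 * k ^ c) ≤ k ^ (c / 2) := by
  have t1 : Filter.Tendsto (fun y : ℝ => ((T + 1) / (9 / 10 * σ) + 1) * (2 * Real.exp (-(y * (c / 2)))))
      Filter.atTop (nhds (((T + 1) / (9 / 10 * σ) + 1) * (2 * 0))) := by
    refine ((Real.tendsto_exp_neg_atTop_nhds_zero.comp ?_).const_mul 2).const_mul _
    exact Filter.tendsto_id.atTop_mul_const (by positivity)
  simp only [mul_zero] at t1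
  obtain ⟨Y, hY⟩ := Filter.eventually_atTop.1 ((Filter.eventually_ge_atTop (1 : ℝ)).and
    (t1.eventually_le_const zero_lt_one))
  refine ⟨min (Real.exp (-Y)) (1 / 2), by positivity, by
    exact lt_of_le_of_lt (min_le_right _ _) (by norm_num), ?_⟩
  intro k hk hkk
  have hkY : k < Real.exp (-Y) := lt_of_lt_of_le hkk (min_le_left _ _)
  have hell : Y ≤ ell k := by
    unfold ell
    rw [one_div, Real.log_inv]
    have h1 := Real.log_lt_log hk hkY
    rw [Real.log_exp] at h1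
    linarith
  obtain ⟨h1, h2⟩ := hY (ell k) hell
  refine ⟨h1, ?_⟩
  have h3 : Real.exp (-(ell k * (c / 2))) = k ^ (c / 2) := by
    unfold ell
    rw [Real.rpow_def_of_pos hk, one_div, Real.log_inv]
    congr 1
    ring
  rw [h3] at h2
  have h4 : k ^ c = k ^ (c / 2) * k ^ (c / 2) := by
    rw [← Real.rpow_add hk]
    congr 1
    ring
  have h5 : 0 < k ^ (c / 2) := Real.rpow_pos_of_pos hk _
  calc ((T + 1) / (9 / 10 * σ) + 1) * (2 * k ^ c)
      = ((T + 1) / (9 / 10 * σ) + 1) * (2 * k ^ (c / 2)) * k ^ (c / 2) := by rw [h4]; ring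
    _ ≤ 1 * k ^ (c / 2) := mul_le_mul_of_nonneg_right h2 h5.le
    _ = _ := one_mul _

theorem stay3 (N d : ℕ) (hN : 3 ≤ N) (β : ℝ) (hβ : 0 < β) (T : ℝ) (R : ℕ) (hT : 1 ≤ T) :
    ∃ c k0 : ℝ, 0 < c ∧ 0 < k0 ∧ k0 < 1 ∧
    ∀ k, 0 < k → k < k0 → ∀ (S : PSys (Fam1 N d β k) β k), BNoise N S.ν S.b S.gd →
    ∀ L : ℕ, ∃ h0 : ℝ, 0 < h0 ∧ ∀ h, 0 < h → h < h0 →
    ∀ (G : (boxS d L → E N) × (boxS d L → E N)) (y : boxS d L) (n1 n : ℕ), 1 ≤ n1 * h →
      n1 ≤ n → ell k / 8 ≤ ((n - n1 : ℕ) : ℝ) * h → n * h ≤ T * ell k + 1 →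
        PI (S.mu L) (S.alv h L G n ∩ {ω | LowG k y R (S.tr h L G ω n1) ∧
          ∃ j, n1 ≤ j ∧ j ≤ n ∧ ¬ RegG k y R (S.tr h L G ω j)}) ≤ ENNReal.ofReal (k ^ c) := by
  obtain ⟨σ, hσ, hσ16, HW⟩ := win3 N d hN β hβ
  obtain ⟨ε0, c2, k2, hε0, hc2, hk2, hk21, HW⟩ := HW R
  obtain ⟨c1, k1, hc1, hk1, hk11, HC⟩ := caps_prob N d β hβ ε0 hε0
  have hcm : 0 < min c1 c2 := lt_min hc1 hc2
  obtain ⟨k3, hk3, hk31, HK⟩ := Stay3_small T σ (min c1 c2) hcm
  refine ⟨min c1 c2 / 2, min k1 (min k2 k3), by positivity, by positivity,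
    lt_of_le_of_lt (min_le_left _ _) hk11, ?_⟩
  intro k hk hkk S hB L
  have hkk1 : k < k1 := lt_of_lt_of_le hkk (min_le_left _ _)
  have hkk2 : k < k2 := lt_of_lt_of_le hkk ((min_le_right _ _).trans (min_le_left _ _))
  have hkk3 : k < k3 := lt_of_lt_of_le hkk ((min_le_right _ _).trans (min_le_right _ _))
  have hk1' : k < 1 := hkk1.trans hk11
  obtain ⟨hl1, hsm⟩ := HK k hk hkk3
  have hl : 0 < ell k := by linarith
  obtain ⟨h1, hh1, HC⟩ := HC (Fam1 N d β k) k S hk hkk1 hB L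
  obtain ⟨h2, hh2, HW⟩ := HW k hk hkk2 S hB L
  have hσl : 0 < σ * ell k := by positivity
  refine ⟨min (min h1 h2) (min 1 (σ * ell k / 10)), by positivity, ?_⟩
  intro h hh hhh G y n1 n hn1 hnn hτ hn
  have g1 : h < h1 := lt_of_lt_of_le hhh ((min_le_left _ _).trans (min_le_left _ _))
  have g2 : h < h2 := lt_of_lt_of_le hhh ((min_le_left _ _).trans (min_le_right _ _))
  have g3 : h ≤ 1 := (lt_of_lt_of_le hhh ((min_le_right _ _).trans (min_le_left _ _))).le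
  have g4 : h ≤ σ * ell k / 10 :=
    (lt_of_lt_of_le hhh ((min_le_right _ _).trans (min_le_right _ _))).le
  obtain ⟨m, rfl⟩ := Nat.exists_eq_add_of_le hnn
  rw [Nat.add_sub_cancel_left] at hτ
  push_cast at hn
  have hσ16' : σ * ell k ≤ 1 / 16 * ell k := mul_le_mul_of_nonneg_right hσ16 hl.le
  obtain ⟨J, t, hJ, hJ2, ht0, htJ, hw⟩ := Stay3_win m h (σ * ell k) hh hσl (by linarith) g3 g4
  have hbd : (J : ℝ) ≤ (T + 1) / (9 / 10 * σ) + 1 := by
    refine hJ2.trans (add_le_add ?_ le_rfl)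
    rw [div_le_div_iff₀ (by positivity) (by positivity)]
    have e1 : (m : ℝ) * h ≤ T * ell k + 1 := by
      have : 0 ≤ (n1 : ℝ) * h := by positivity
      linarith
    have e2 : (m : ℝ) * h ≤ (T + 1) * ell k := by linarith
    calc (m : ℝ) * h * (9 / 10 * σ) ≤ (T + 1) * ell k * (9 / 10 * σ) :=
          mul_le_mul_of_nonneg_right e2 (by positivity)
      _ = (T + 1) * (9 / 10 * (σ * ell k)) := by ring
  have hkc : ∀ c' : ℝ, min c1 c2 ≤ c' → k ^ c' ≤ k ^ (min c1 c2) := fun c' hc' =>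
    Real.rpow_le_rpow_of_exponent_ge hk hk1'.le hc'
  have hfin := Stay3_core S h L G y R ε0 n1 (n1 + m) J t (ENNReal.ofReal (k ^ (min c1 c2)))
    (ENNReal.ofReal (k ^ (min c1 c2))) hJ ht0 (by rw [htJ]) ?_
  · refine hfin.trans ?_
    have hkp : 0 < k ^ (min c1 c2) := Real.rpow_pos_of_pos hk _
    rw [← ENNReal.ofReal_add hkp.le hkp.le, ← ENNReal.ofReal_natCast, ← ENNReal.ofReal_mul
      (Nat.cast_nonneg J)]
    refine ENNReal.ofReal_le_ofReal ?_
    calc (J : ℝ) * (k ^ (min c1 c2) + k ^ (min c1 c2))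
        ≤ ((T + 1) / (9 / 10 * σ) + 1) * (k ^ (min c1 c2) + k ^ (min c1 c2)) :=
          mul_le_mul_of_nonneg_right hbd (by positivity)
      _ = ((T + 1) / (9 / 10 * σ) + 1) * (2 * k ^ (min c1 c2)) := by ring
      _ ≤ _ := hsm
  · intro i hi
    obtain ⟨l, hl0, hl2, hl3⟩ := hw i hi
    refine ⟨l, hl0, ?_, ?_⟩
    · refine (HC h hh g1 G (n1 + t i) ?_ y).trans (ENNReal.ofReal_le_ofReal (hkc _ (min_le_left _ _)))
      push_cast
      have : 0 ≤ (t i : ℝ) * h := by positivity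
      linarith
    · intro G' hlow hcap
      exact (HW h hh g2 G' y hlow hcap l hl2 hl3).trans
        (ENNReal.ofReal_le_ofReal (hkc _ (min_le_right _ _)))

end DynG

end

/-! ### from `Lib_MP_36b788g.FLy` -/

section

/-!
# The field `ly` of a block for `N ≥ 3`

PROOF.
* `ly3`. `q0` = maximum of those of `mest3`, `ly_red`, `ly_iter`. Given `q`: `T0 = 40`, `B1, c1` from `ly_iter`. `ly_red` with `a := 1/8`, `T0 = 40`, `Ls = 0` for the systems `S k hk = PS3 …` (hypotheses from `mest3` with `a := 1/8` and `bnoise3`) gives `Ca`, and for the exchanged systems `(PS3 …).swap` (same `ν, b, gd`) gives `Ca'`. `ly_iter` for both with `a := 1/8` and `max Ca Ca'`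
  (weaken `Ca ≤ max`). `ts N k = ell k` for `N ≥ 3`. `V1 k q (1/16/ell) ² = V1 k q (2·(1/16/ell)) = V1 k q (1/8/ell)` (`V_sq`). So `∫ V1² ≤ ofReal (B1 e^{-(c1/8) T}) V1² + ofReal (8 B1 Ca) ≤ (ofReal κ' V1 + ofReal CV)²` with `κ' = √B1 e^{-(c1/16) T}`, `CV = max 1 √(8 B1 Ca)`: `B = √B1`, `c = c1/16`.
  Second component: apply it to the exchanged system at `G.swap` (`swap_tr`, `swap_alv`, `swap_V`; `S.swap.mu = S.mu`).
-/

open MeasureTheory ProbabilityTheory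
open scoped ENNReal

namespace DynG

open Dyn DynC

private theorem FLy_sq (B1 c1 Ca T CV : ℝ) (hB : 0 ≤ B1) (hCV : 0 ≤ CV)
    (h : B1 * Ca / (1 / 8) ≤ CV ^ 2) (v : ℝ≥0∞) :
    ENNReal.ofReal (B1 * Real.exp (-(c1 * (1 / 8) * T))) * v ^ 2 +
        ENNReal.ofReal (B1 * Ca / (1 / 8)) ≤
      (ENNReal.ofReal (Real.sqrt B1 * Real.exp (-(c1 / 16 * T))) * v + ENNReal.ofReal CV) ^ 2 := by
  have e1 : B1 * Real.exp (-(c1 * (1 / 8) * T)) =
      (Real.sqrt B1 * Real.exp (-(c1 / 16 * T))) ^ 2 := by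
    rw [mul_pow, Real.sq_sqrt hB, ← Real.exp_nat_mul]
    congr 2
    push_cast
    ring
  have e2 : ENNReal.ofReal (B1 * Real.exp (-(c1 * (1 / 8) * T))) * v ^ 2 =
      (ENNReal.ofReal (Real.sqrt B1 * Real.exp (-(c1 / 16 * T))) * v) ^ 2 := by
    rw [e1, ENNReal.ofReal_pow (by positivity), mul_pow]
  have e3 : ENNReal.ofReal (B1 * Ca / (1 / 8)) ≤ ENNReal.ofReal CV ^ 2 := by
    rw [← ENNReal.ofReal_pow hCV]
    exact ENNReal.ofReal_le_ofReal h
  rw [e2]
  refine (add_le_add le_rfl e3).trans ?_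
  rw [add_sq]
  exact add_le_add le_self_add le_rfl

/-- one component, any pair system on the family -/
private theorem FLy_one {N d : ℕ} {β q B1 c1 Ca CV T : ℝ} (hN : 3 ≤ N) (hB1 : 0 ≤ B1)
    (hCV : 0 ≤ CV) (hC : B1 * Ca / (1 / 8) ≤ CV ^ 2)
    (S : ∀ k, 0 < k → PSys (Fam1 N d β k) β k)
    (H : ∃ k0 : ℝ, 0 < k0 ∧ k0 < 1 ∧ ∀ (k : ℝ) (hk : 0 < k), k < k0 →
      ∀ L : ℕ, 0 ≤ L → ∃ h0 : ℝ, 0 < h0 ∧ ∀ h, 0 < h → h < h0 →
      ∀ (G : (boxS d L → (Fam1 N d β k).V) × (boxS d L → (Fam1 N d β k).V)) (x : boxS d L),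
        ∫⁻ ω in (S k hk).alv h L G ⌈T * ts N k / h⌉₊,
            V1 k q ((1 / 8) / ell k) ((S k hk).tr h L G ω ⌈T * ts N k / h⌉₊) x
            ∂(PI ((S k hk).mu L)) ≤
          ENNReal.ofReal (B1 * Real.exp (-(c1 * (1 / 8) * T))) * V1 k q ((1 / 8) / ell k) G x +
            ENNReal.ofReal (B1 * Ca / (1 / 8))) :
    ∃ k0 : ℝ, 0 < k0 ∧ k0 < 1 ∧ ∀ (k : ℝ) (hk : 0 < k), k < k0 → ∀ L : ℕ,
    ∃ h0 : ℝ, 0 < h0 ∧ ∀ h, 0 < h → h < h0 →
    ∀ (G : (boxS d L → (Fam1 N d β k).V) × (boxS d L → (Fam1 N d β k).V)) (x : boxS d L),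
      ∫⁻ ω in (S k hk).alv h L G ⌈T * ell k / h⌉₊,
          V1 k q (1 / 16 / ell k) ((S k hk).tr h L G ω ⌈T * ell k / h⌉₊) x ^ 2
          ∂(PI ((S k hk).mu L)) ≤
        (ENNReal.ofReal (Real.sqrt B1 * Real.exp (-(c1 / 16 * T))) * V1 k q (1 / 16 / ell k) G x +
          ENNReal.ofReal CV) ^ 2 := by
  obtain ⟨k0, hk0, hk01, H⟩ := H
  refine ⟨k0, hk0, hk01, fun k hk hkk L => ?_⟩
  obtain ⟨h0, hh0, H⟩ := H k hk hkk L (Nat.zero_le L)
  refine ⟨h0, hh0, fun h hh hlt G x => ?_⟩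
  have H2 := H h hh hlt G x
  have hts : ts N k = ell k := by
    unfold ts
    rw [if_neg (by omega)]
  rw [hts] at H2
  have hs : 2 * (1 / 16 / ell k) = (1 / 8) / ell k := by ring
  have e : ∀ G' : (boxS d L → (Fam1 N d β k).V) × (boxS d L → (Fam1 N d β k).V),
      V1 k q (1 / 16 / ell k) G' x ^ 2 = V1 k q ((1 / 8) / ell k) G' x := by
    intro G'
    rw [(V_sq k q (1 / 16 / ell k) G' x).1, hs]
  have e2 : ∫⁻ ω in (S k hk).alv h L G ⌈T * ell k / h⌉₊,
          V1 k q (1 / 16 / ell k) ((S k hk).tr h L G ω ⌈T * ell k / h⌉₊) x ^ 2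
          ∂(PI ((S k hk).mu L)) =
      ∫⁻ ω in (S k hk).alv h L G ⌈T * ell k / h⌉₊,
          V1 k q ((1 / 8) / ell k) ((S k hk).tr h L G ω ⌈T * ell k / h⌉₊) x
          ∂(PI ((S k hk).mu L)) := by
    refine lintegral_congr fun ω => ?_
    exact e _
  rw [e2]
  refine H2.trans ?_
  rw [← e G]
  exact FLy_sq B1 c1 Ca T CV hB1 hCV hC _

/-- back from the exchanged system -/
private theorem FLy_two {d : ℕ} {F : Fam d} {β k : ℝ} (S : PSys F β k) (h : ℝ) (L n : ℕ)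
    (q s : ℝ) (A B : ℝ≥0∞) (G : (boxS d L → F.V) × (boxS d L → F.V)) (x : boxS d L)
    (K : ∫⁻ ω in S.swap.alv h L G.swap n, V1 k q s (S.swap.tr h L G.swap ω n) x ^ 2
        ∂(PI (S.swap.mu L)) ≤ (A * V1 k q s G.swap x + B) ^ 2) :
    ∫⁻ ω in S.alv h L G n, V2 k q s (S.tr h L G ω n) x ^ 2 ∂(PI (S.mu L)) ≤
      (A * V2 k q s G x + B) ^ 2 := by
  rw [swap_alv, Prod.swap_swap, (swap_V k q s G x).1] at K
  have e : ∀ ω : ℕ → boxS d L → S.Ωp,
      V1 k q s (S.swap.tr h L G.swap ω n) x = V2 k q s (S.tr h L G ω n) x := by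
    intro ω
    rw [swap_tr, Prod.swap_swap]
    exact (swap_V k q s _ x).1
  have e2 : ∫⁻ ω in S.alv h L G n, V1 k q s (S.swap.tr h L G.swap ω n) x ^ 2
        ∂(PI (S.swap.mu L)) =
      ∫⁻ ω in S.alv h L G n, V2 k q s (S.tr h L G ω n) x ^ 2 ∂(PI (S.mu L)) := by
    refine lintegral_congr fun ω => ?_
    rw [e ω]
  exact e2.symm.le.trans K

theorem ly3 (N d : ℕ) (hN : 3 ≤ N) (β : ℝ) (hβ : 0 < β) : ∃ q0 : ℝ, 1 ≤ q0 ∧
    ∀ q, q0 ≤ q → ∃ B c CV : ℝ, 1 ≤ B ∧ 0 < c ∧ 1 ≤ CV ∧ ∀ T : ℝ, 80 ≤ T →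
    ∃ k0 : ℝ, 0 < k0 ∧ k0 < 1 ∧ ∀ (k : ℝ) (hk : 0 < k), k < k0 → ∀ L : ℕ,
    ∃ h0 : ℝ, 0 < h0 ∧ ∀ h, 0 < h → h < h0 →
    ∀ (G : (boxS d L → E N) × (boxS d L → E N)) (x : boxS d L),
      ∫⁻ ω in (PS3 N d hN β k hβ hk.le).alv h L G ⌈T * ell k / h⌉₊,
          V1 k q (1 / 16 / ell k)
            ((PS3 N d hN β k hβ hk.le).tr h L G ω ⌈T * ell k / h⌉₊) x ^ 2
          ∂(PI ((PS3 N d hN β k hβ hk.le).mu L)) ≤
        (ENNReal.ofReal (B * Real.exp (-(c * T))) * V1 k q (1 / 16 / ell k) G x +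
          ENNReal.ofReal CV) ^ 2 ∧
      ∫⁻ ω in (PS3 N d hN β k hβ hk.le).alv h L G ⌈T * ell k / h⌉₊,
          V2 k q (1 / 16 / ell k)
            ((PS3 N d hN β k hβ hk.le).tr h L G ω ⌈T * ell k / h⌉₊) x ^ 2
          ∂(PI ((PS3 N d hN β k hβ hk.le).mu L)) ≤
        (ENNReal.ofReal (B * Real.exp (-(c * T))) * V2 k q (1 / 16 / ell k) G x +
          ENNReal.ofReal CV) ^ 2 := by
  obtain ⟨q1, hq1, H1⟩ := mest3 N d β hN hβ
  obtain ⟨q2, hq2, H2⟩ := ly_red N d β (by omega) hβ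
  obtain ⟨q3, hq3, H3⟩ := ly_iter N d β (by omega) hβ
  refine ⟨max q1 (max q2 q3), le_max_of_le_left hq1, fun q hq => ?_⟩
  have l1 : q1 ≤ q := (le_max_left _ _).trans hq
  have l2 : q2 ≤ q := ((le_max_left _ _).trans (le_max_right _ _)).trans hq
  have l3 : q3 ≤ q := ((le_max_right _ _).trans (le_max_right _ _)).trans hq
  obtain ⟨B1, c1, hB1, hc1, H3⟩ := H3 q l3 40 (by norm_num)
  set S : ∀ k, 0 < k → PSys (Fam1 N d β k) β k := fun k hk => PS3 N d hN β k hβ hk.le with hS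
  have hBN : ∀ k hk, BNoise N (S k hk).ν (S k hk).b (S k hk).gd := fun k hk => bnoise3 hN
  have hBN' : ∀ k hk, BNoise N (S k hk).swap.ν (S k hk).swap.b (S k hk).swap.gd :=
    fun k hk => bnoise3 hN
  have hM := H1 q l1 (1 / 8) (by norm_num) le_rfl S hBN
  have hM' := H1 q l1 (1 / 8) (by norm_num) le_rfl (fun k hk => (S k hk).swap) hBN'
  obtain ⟨Ca, ka, hCa, hka, hka1, R⟩ := H2 q l2 (1 / 8) 40 0 (by norm_num) le_rfl (by norm_num)
    (fun k => Fam1 N d β k) S hBN (by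
      intro M hM1
      obtain ⟨M0, Md, ε0, k0, hε0, hk0, hk01, h⟩ := hM M hM1
      exact ⟨M0, Md, ε0, k0, hε0, hk0, hk01, fun k hk hkk L _ => h k hk hkk L⟩)
  obtain ⟨Ca', ka', hCa', hka', hka1', R'⟩ := H2 q l2 (1 / 8) 40 0 (by norm_num) le_rfl
    (by norm_num) (fun k => Fam1 N d β k) (fun k hk => (S k hk).swap) hBN' (by
      intro M hM1
      obtain ⟨M0, Md, ε0, k0, hε0, hk0, hk01, h⟩ := hM' M hM1
      exact ⟨M0, Md, ε0, k0, hε0, hk0, hk01, fun k hk hkk L _ => h k hk hkk L⟩)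
  have hB0 : (0 : ℝ) ≤ B1 := by linarith
  set CV : ℝ := max 1 (max (Real.sqrt (B1 * Ca / (1 / 8))) (Real.sqrt (B1 * Ca' / (1 / 8))))
    with hCVdef
  have hCV : 1 ≤ CV := le_max_left _ _
  have hCV0 : 0 ≤ CV := by linarith
  have hC1 : B1 * Ca / (1 / 8) ≤ CV ^ 2 := by
    have h1 : Real.sqrt (B1 * Ca / (1 / 8)) ≤ CV :=
      (le_max_left _ _).trans (le_max_right _ _)
    exact (Real.sqrt_le_left hCV0).1 h1
  have hC2 : B1 * Ca' / (1 / 8) ≤ CV ^ 2 := by
    have h1 : Real.sqrt (B1 * Ca' / (1 / 8)) ≤ CV :=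
      (le_max_right _ _).trans (le_max_right _ _)
    exact (Real.sqrt_le_left hCV0).1 h1
  refine ⟨Real.sqrt B1, c1 / 16, CV, ?_, by positivity, hCV, fun T hT => ?_⟩
  · rw [Real.one_le_sqrt]
    exact hB1
  have I1 := H3 (1 / 8) Ca 0 (by norm_num) le_rfl hCa.le (fun k => Fam1 N d β k) S hBN
    ⟨ka, hka, hka1, R⟩ T (by linarith)
  have I2 := H3 (1 / 8) Ca' 0 (by norm_num) le_rfl hCa'.le (fun k => Fam1 N d β k)
    (fun k hk => (S k hk).swap) hBN' ⟨ka', hka', hka1', R'⟩ T (by linarith)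
  obtain ⟨k0, hk0, hk01, J1⟩ := FLy_one hN hB0 hCV0 hC1 S I1
  obtain ⟨k0', hk0', hk01', J2⟩ := FLy_one hN hB0 hCV0 hC2 (fun k hk => (S k hk).swap) I2
  refine ⟨min k0 k0', lt_min hk0 hk0', (min_le_left _ _).trans_lt hk01, fun k hk hkk L => ?_⟩
  obtain ⟨h0, hh0, J1⟩ := J1 k hk (hkk.trans_le (min_le_left _ _)) L
  obtain ⟨h0', hh0', J2⟩ := J2 k hk (hkk.trans_le (min_le_right _ _)) L
  refine ⟨min h0 h0', lt_min hh0 hh0', fun h hh hlt G x => ⟨?_, ?_⟩⟩
  · exact J1 h hh (hlt.trans_le (min_le_left _ _)) G x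
  · have K := J2 h hh (hlt.trans_le (min_le_right _ _)) G.swap x
    exact FLy_two (S k hk) h L _ q _ _ _ G x K

end DynG

end
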