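import Pool.Agent.Lib_MP_36b788_m.M19
import Pool.Agent.Lib_MP_36b788_m.M28

/-!
# MP_36b788_pr, stationary limit: merged library part M30

Concatenation of smaller files (each in its own section), only to save build time.
-/

/-! ### from `Lib_MP_36b788g.StartG` -/

section

/-!
# Start: from the potential to a lower bound in a ball

PROOF of `start3`. `λ = lamN N ≥ 1/2`, `M' = 7M+2`, `s' R ≤ 7s1R+1` where `s' = 7(s1+ε)+6ε0` with `ε = min(1/7, 1/(28(R+1)))`, `ε0 ≤ 1/(24(R+1))`. Let `n0` with `1 ≤ n0h ≤ 2` (`n0 = ⌈1/h⌉₊`).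
(1) `pot_prob` (`ε`): outside probability `k^{c}` (on `alv n0`) `PotGe … (M+ε) (s1+ε) y` at time `n0` for both components, `caps_prob` with `ε0`: `Caps k (‖·‖+‖·‖) ε0 y`; `low_of_pot`: `LowR k u M' s' y` for `u = ‖(tr n0).1‖`
and `‖(tr n0).2‖` (`7(M+ε)+1 ≤ M'`; monotone in `M, s0` as `k < 1`).
(2) Fix such a state, a component `g` and `w` with `dist w y ≤ R`. `z` a maximizer of `‖g z‖k^{dist w z}`; `LowR`: `‖g z‖k^{dist w z} ≥ k^{M'+s'dist w y} ≥ k^{M'+7s1R+1}`. `X0 = log‖g z‖/ell` (`‖g z‖ > 0`), so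
`X0-dist w z ≥ -(M'+7s1R+1)`. Caps: `X0 ≤ ε0(1+dist z y) ≤ ε0(1+dist z w+R)`. With `m2 = 2(M'+7s1R+3)`: `dist z w ≤ m2` (`(1-ε0)dist z w ≤ M'+7s1R+1+ε0(1+R)`), `X0 ≤ 1/8` if `ε0(1+m2+R) ≤ 1/8`. Profile
`‖g v‖ ≤ k^{-(X0+m2+dist z v/2)}`: if `dist z v ≤ 2m2`: maximality, `‖g v‖ ≤ k^{-(X0-dist w z+dist w v)}`, `dist w v-dist w z ≤ dist z v ≤ m2+dist z v/2`; otherwise caps: `ε0(1+dist v y) ≤ ε0(1+dist v z+m2+R) ≤ X0+m2+dist z v/2` since
`X0 ≥ -(M'+7s1R+1)` and `ε0(1+m2+R) ≤ 1/8`, `ε0 ≤ 1/8`. Caps around `z` for `low3` with its `ε0L` (for `T0 := T1`, `M := m2`, `ε := 1/64`): `ε0(1+dist v y) ≤ ε0(1+m2+R)(1+dist v z) ≤ ε0L(1+dist z v)` if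
`ε0(1+m2+R) ≤ ε0L`. So choose `ε0 = min(1/(24(R+1)), 1/(8(1+m2+R)), ε0L/(1+m2+R))`.
(3) `low3` with time `n-n0`: `T1ell-2 ≤ (n-n0)h ≤ T1ell+2`: outside probability `k^{c}`: `‖g_n w‖ ≥ k^{1/64-min(X0-dist z w+λ(n-n0)h/ell, -1/16)}`, and `X0-dist z w+λ(T1-2/ell) ≥ -(7M+2+7s1R+1)+(7M+7s1R+6)-1 ≥ 0`
(`λ ≥ 1/2`; `λ·2/ell ≤ 1` for small `k`), so the minimum is `-1/16` and `‖g_n w‖ ≥ k^{5/64}`. (`low3` is a statement on the chain `Fam1`; the law of a component of the pair at time `n-n0` from a fixed pair is the law of the chain: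
`tr_path` in `WL3.lean`.)
(4) Markov property at `n0` (`alv_markov` with `Φ` an indicator, or `lintegral_glue`), at most `2(2R+1)^d` pairs (component, `w`).
-/

open MeasureTheory ProbabilityTheory
open scoped ENNReal

namespace DynG

open Dyn DynS DynC

private theorem StartG_le {k a b : ℝ} (hk : 0 < k) (hk1 : k < 1) (h : b ≤ a) : k ^ a ≤ k ^ b :=
  Real.rpow_le_rpow_of_exponent_ge hk hk1.le h

private theorem StartG_le' {k a b : ℝ} (hk : 0 < k) (hk1 : k < 1) (h : k ^ a ≤ k ^ b) : b ≤ a :=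
  (Real.rpow_le_rpow_left_iff_of_base_lt_one hk hk1).1 h

/-- step (2) of the proof: deterministic part and `low3` -/
private theorem StartG_site {V : Type} [NormedAddCommGroup V] {d L : ℕ} {k M s1 T1 ε ε0 ε0L lam : ℝ} {R : ℕ}
    (hk : 0 < k) (hk1 : k < 1) (hell : 1 ≤ ell k) (hM : 1 ≤ M) (hs1 : 0 ≤ s1)
    (hT : 2 * (7 * M + 7 * s1 * R + 6) ≤ T1) (hε : 0 < ε) (hε1 : ε ≤ 1 / 7)
    (hε2 : ε * (28 * (R + 1)) ≤ 1) (h0 : 0 < ε0) (h01 : ε0 ≤ 1 / 8) (h02 : ε0 * (24 * (R + 1)) ≤ 1)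
    (h03 : ε0 * (8 * (1 + 2 * (7 * M + 7 * s1 * R + 5) + R)) ≤ 1)
    (h04 : ε0 * (1 + 2 * (7 * M + 7 * s1 * R + 5) + R) ≤ ε0L) (hlam : 1 / 2 ≤ lam)
    (g : boxS d L → V) (y w : boxS d L) (hw : (boxNet d L).dist w y ≤ R)
    (hlow : LowR k (nrm g) (7 * (M + ε) + 1) (7 * (s1 + ε) + 6 * ε0) y)
    (hcap : Caps k (nrm g) ε0 y) :
    ∃ (z : boxS d L) (X0 : ℝ), X0 ≤ 1 / 8 ∧ k ^ (-X0) ≤ ‖g z‖ ∧
      ((boxNet d L).dist z w : ℝ) ≤ 2 * (7 * M + 7 * s1 * R + 5) ∧
      (∀ v, ‖g v‖ ≤ k ^ (-(X0 + 2 * (7 * M + 7 * s1 * R + 5) + (boxNet d L).dist z v / 2))) ∧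
      Caps k (nrm g) ε0L z ∧
      ∀ mh : ℝ, T1 * ell k - 2 ≤ mh →
        k ^ (5 / 64 : ℝ) ≤ k ^ (1 / 64 - min (X0 - (boxNet d L).dist z w + lam * mh / ell k)
          (-(1 / 16))) := by
  have hR0 : (0 : ℝ) ≤ R := Nat.cast_nonneg R
  have hsR : 0 ≤ s1 * R := mul_nonneg hs1 hR0
  have hwR : ((boxNet d L).dist w y : ℝ) ≤ R := by exact_mod_cast hw
  set Bd : ℝ := 7 * M + 7 * s1 * R + 3 with hBd
  obtain ⟨z, hz⟩ := hlow w
  have hz1 : k ^ Bd ≤ ‖g z‖ * k ^ (boxNet d L).dist w z := by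
    refine le_trans (StartG_le hk hk1 ?_) hz
    have h1 : (7 * (s1 + ε) + 6 * ε0) * ((boxNet d L).dist w y : ℝ) ≤
        (7 * (s1 + ε) + 6 * ε0) * R := mul_le_mul_of_nonneg_left hwR (by positivity)
    have h2 : ε * R ≤ 1 / 28 := by nlinarith
    have h3 : ε0 * R ≤ 1 / 24 := by nlinarith
    rw [hBd]
    nlinarith
  have hpos : 0 < ‖g z‖ := by
    have h1 : 0 < k ^ Bd := Real.rpow_pos_of_pos hk _
    have h2 : 0 < k ^ (boxNet d L).dist w z := by positivity
    by_contra hcon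
    have h3 : ‖g z‖ = 0 := le_antisymm (not_lt.1 hcon) (norm_nonneg _)
    rw [h3, zero_mul] at hz1
    linarith
  have hellp : 0 < ell k := by linarith
  set X0 : ℝ := Real.log ‖g z‖ / ell k with hX0
  have hkX : k ^ (-X0) = ‖g z‖ := by
    rw [Real.rpow_def_of_pos hk]
    have h1 : Real.log k = -ell k := by
      unfold ell
      rw [one_div, Real.log_inv, neg_neg]
    rw [h1, hX0]
    have h2 : -ell k * -(Real.log ‖g z‖ / ell k) = Real.log ‖g z‖ := by
      field_simp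
    rw [h2, Real.exp_log hpos]
  have hX1 : ((boxNet d L).dist w z : ℝ) - Bd ≤ X0 := by
    rw [← hkX, ← Real.rpow_natCast, ← Real.rpow_add hk] at hz1
    have := StartG_le' hk hk1 hz1
    linarith
  have hD0 : (0 : ℝ) ≤ ((boxNet d L).dist w z : ℝ) := Nat.cast_nonneg _
  have hzy : ((boxNet d L).dist z y : ℝ) ≤ (boxNet d L).dist w z + R := by
    have h1 := (boxNet d L).dist_tri z w y
    have h2 : ((boxNet d L).dist z y : ℝ) ≤ (boxNet d L).dist z w + (boxNet d L).dist w y := by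
      exact_mod_cast h1
    rw [(boxNet d L).dist_comm z w] at h2
    linarith
  have hX2 : X0 ≤ ε0 * (1 + (boxNet d L).dist z y) := by
    have h1 := hcap z
    have h2 : k ^ (-X0) ≤ k ^ (-(ε0 * (1 + (boxNet d L).dist z y))) := by
      rw [hkX]; exact h1
    have := StartG_le' hk hk1 h2
    linarith
  have hX3 : X0 ≤ ε0 * (1 + (boxNet d L).dist w z + R) := by
    refine hX2.trans (mul_le_mul_of_nonneg_left ?_ h0.le)
    linarith
  have hdist : ((boxNet d L).dist w z : ℝ) ≤ 2 * (7 * M + 7 * s1 * R + 5) := by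
    have h1 : ε0 * (boxNet d L).dist w z ≤ 1 / 8 * (boxNet d L).dist w z :=
      mul_le_mul_of_nonneg_right h01 hD0
    have h2 : ε0 * (1 + R) ≤ 1 / 24 := by nlinarith
    nlinarith
  refine ⟨z, X0, ?_, hkX.le, ?_, ?_, ?_, ?_⟩
  · refine hX3.trans ?_
    have h1 : ε0 * (1 + (boxNet d L).dist w z + R) ≤
        ε0 * (1 + 2 * (7 * M + 7 * s1 * R + 5) + R) := mul_le_mul_of_nonneg_left (by linarith) h0.le
    linarith
  · rw [(boxNet d L).dist_comm z w]; exact hdist
  · intro v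
    refine (hcap v).trans (StartG_le hk hk1 ?_)
    have h1 := (boxNet d L).dist_tri v z y
    have h2 : ((boxNet d L).dist v y : ℝ) ≤ (boxNet d L).dist v z + (boxNet d L).dist z y := by
      exact_mod_cast h1
    rw [(boxNet d L).dist_comm v z] at h2
    have h3 : (0 : ℝ) ≤ ((boxNet d L).dist z v : ℝ) := Nat.cast_nonneg _
    have h4 : ε0 * (1 + (boxNet d L).dist v y) ≤
        ε0 * (1 + 2 * (7 * M + 7 * s1 * R + 5) + R) + ε0 * (boxNet d L).dist z v := by
      rw [← mul_add]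
      exact mul_le_mul_of_nonneg_left (by linarith) h0.le
    have h5 : ε0 * (boxNet d L).dist z v ≤ 1 / 8 * (boxNet d L).dist z v :=
      mul_le_mul_of_nonneg_right h01 h3
    linarith
  · intro v
    refine (hcap v).trans (StartG_le hk hk1 ?_)
    have h1 := (boxNet d L).dist_tri v z y
    have h2 : ((boxNet d L).dist v y : ℝ) ≤ (boxNet d L).dist v z + (boxNet d L).dist z y := by
      exact_mod_cast h1
    have h3 : (0 : ℝ) ≤ ((boxNet d L).dist v z : ℝ) := Nat.cast_nonneg _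
    have h4 : ε0 * (1 + (boxNet d L).dist v y) ≤
        (ε0 * (1 + 2 * (7 * M + 7 * s1 * R + 5) + R)) * (1 + (boxNet d L).dist v z) := by
      rw [mul_assoc]
      refine mul_le_mul_of_nonneg_left ?_ h0.le
      nlinarith
    have h5 : (ε0 * (1 + 2 * (7 * M + 7 * s1 * R + 5) + R)) * (1 + (boxNet d L).dist v z) ≤
        ε0L * (1 + (boxNet d L).dist v z) := mul_le_mul_of_nonneg_right h04 (by linarith)
    linarith
  · intro mh hmh
    refine StartG_le hk hk1 ?_
    have h1 : -(1 / 16 : ℝ) ≤ X0 - (boxNet d L).dist z w + lam * mh / ell k := by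
      have hT1 : 26 ≤ T1 := by nlinarith
      have h2 : T1 ≤ T1 * ell k := by nlinarith
      have h3 : 0 ≤ mh := by linarith
      have h4 : 1 / 2 * (T1 * ell k - 2) ≤ lam * mh := by nlinarith
      have h5 : (1 / 2 * (T1 * ell k - 2)) / ell k ≤ lam * mh / ell k :=
        div_le_div_of_nonneg_right h4 hellp.le
      have h6 : (1 / 2 * (T1 * ell k - 2)) / ell k = T1 / 2 - 1 / ell k := by
        field_simp
      have h7 : 1 / ell k ≤ 1 := by
        rw [div_le_one hellp]; exact hell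
      rw [(boxNet d L).dist_comm z w]
      linarith
    have h2 : -(1 / 16 : ℝ) ≤ min (X0 - (boxNet d L).dist z w + lam * mh / ell k) (-(1 / 16)) :=
      le_min h1 le_rfl
    linarith

private theorem StartG_low_meas {N d L : ℕ} (k : ℝ) (y : boxS d L) (R : ℕ) :
    MeasurableSet {P : (boxS d L → E N) × (boxS d L → E N) | ¬ LowG k y R P} := by
  have h1 : {P : (boxS d L → E N) × (boxS d L → E N) | LowG k y R P} =
      ⋂ x : boxS d L, {P | (boxNet d L).dist x y ≤ R → k ^ (5 / 64 : ℝ) ≤ ‖P.1 x‖ ∧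
        k ^ (5 / 64 : ℝ) ≤ ‖P.2 x‖} := by
    ext P
    simp only [LowG, Set.mem_setOf_eq, Set.mem_iInter]
  have h2 : MeasurableSet {P : (boxS d L → E N) × (boxS d L → E N) | LowG k y R P} := by
    rw [h1]
    refine MeasurableSet.iInter fun x => ?_
    by_cases hx : (boxNet d L).dist x y ≤ R
    · have h3 : {P : (boxS d L → E N) × (boxS d L → E N) | (boxNet d L).dist x y ≤ R →
          k ^ (5 / 64 : ℝ) ≤ ‖P.1 x‖ ∧ k ^ (5 / 64 : ℝ) ≤ ‖P.2 x‖} =
          {P | k ^ (5 / 64 : ℝ) ≤ ‖P.1 x‖} ∩ {P | k ^ (5 / 64 : ℝ) ≤ ‖P.2 x‖} := by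
        ext P
        simp only [Set.mem_setOf_eq, Set.mem_inter_iff]
        exact ⟨fun h => h hx, fun h _ => h⟩
      rw [h3]
      refine MeasurableSet.inter ?_ ?_
      · exact measurableSet_le measurable_const
          (((measurable_pi_apply x).comp measurable_fst).norm)
      · exact measurableSet_le measurable_const
          (((measurable_pi_apply x).comp measurable_snd).norm)
    · have h3 : {P : (boxS d L → E N) × (boxS d L → E N) | (boxNet d L).dist x y ≤ R →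
          k ^ (5 / 64 : ℝ) ≤ ‖P.1 x‖ ∧ k ^ (5 / 64 : ℝ) ≤ ‖P.2 x‖} = Set.univ := by
        ext P
        simp only [Set.mem_setOf_eq, Set.mem_univ, iff_true]
        exact fun h => absurd h hx
      rw [h3]
      exact MeasurableSet.univ
  exact h2.compl

/-- number of sites of a ball -/
private theorem StartG_card {d L : ℕ} (y : boxS d L) (R : ℕ) :
    (((Finset.univ : Finset (boxS d L)).filter (fun x => (boxNet d L).dist x y ≤ R)).card : ℝ) ≤
      3 ^ d * 2 ^ R := by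
  have h1 := (boxNet d L).sum_half y
  have h2 : (((Finset.univ : Finset (boxS d L)).filter
      (fun x => (boxNet d L).dist x y ≤ R)).card : ℝ) * (1 / 2 : ℝ) ^ R ≤
      ∑ z, (1 / 2 : ℝ) ^ (boxNet d L).dist y z := by
    calc (((Finset.univ : Finset (boxS d L)).filter
        (fun x => (boxNet d L).dist x y ≤ R)).card : ℝ) * (1 / 2 : ℝ) ^ R
        = ∑ z ∈ (Finset.univ : Finset (boxS d L)).filter
            (fun x => (boxNet d L).dist x y ≤ R), (1 / 2 : ℝ) ^ R := by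
          rw [Finset.sum_const, nsmul_eq_mul]
      _ ≤ ∑ z ∈ (Finset.univ : Finset (boxS d L)).filter
            (fun x => (boxNet d L).dist x y ≤ R), (1 / 2 : ℝ) ^ (boxNet d L).dist y z := by
          refine Finset.sum_le_sum fun z hz => ?_
          rw [Finset.mem_filter] at hz
          rw [(boxNet d L).dist_comm y z]
          exact pow_le_pow_of_le_one (by norm_num) (by norm_num) hz.2
      _ ≤ ∑ z, (1 / 2 : ℝ) ^ (boxNet d L).dist y z :=
          Finset.sum_le_sum_of_subset_of_nonneg (Finset.filter_subset _ _)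
            (fun z _ _ => by positivity)
  have h3 := h2.trans h1
  have h4 : (1 / 2 : ℝ) ^ R * 2 ^ R = 1 := by
    rw [← mul_pow]; norm_num
  calc (((Finset.univ : Finset (boxS d L)).filter
        (fun x => (boxNet d L).dist x y ≤ R)).card : ℝ)
      = (((Finset.univ : Finset (boxS d L)).filter
        (fun x => (boxNet d L).dist x y ≤ R)).card : ℝ) * (1 / 2 : ℝ) ^ R * 2 ^ R := by
        rw [mul_assoc, h4, mul_one]
    _ ≤ 3 ^ d * 2 ^ R := mul_le_mul_of_nonneg_right h3 (by positivity)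

/-- law of one site of a component of the pair -/
private theorem StartG_path {d : ℕ} {F : Fam d} {β k : ℝ} (S : PSys F β k) (h : ℝ) (L : ℕ)
    (P : (boxS d L → F.V) × (boxS d L → F.V)) (m : ℕ) (w : boxS d L) (a : ℝ) :
    PI (S.mu L) {ω | ‖(S.tr h L P ω m).1 w‖ < a} =
        PI (F.mu L) {ω | ‖traj (F.st h L) P.1 ω m w‖ < a} ∧
      PI (S.mu L) {ω | ‖(S.tr h L P ω m).2 w‖ < a} =
        PI (F.mu L) {ω | ‖traj (F.st h L) P.2 ω m w‖ < a} := by
  set T : Set (ℕ → boxS d L → F.V) := {p | ‖p m w‖ < a} with hT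
  have hTm : MeasurableSet T := by
    refine measurableSet_lt ?_ measurable_const
    exact ((measurable_pi_apply w).comp (measurable_pi_apply m)).norm
  set Φ : (ℕ → boxS d L → F.V) → ℝ≥0∞ := T.indicator 1 with hΦ
  have hΦm : Measurable Φ := measurable_one.indicator hTm
  have hd : Dep (m + 1) Φ := by
    intro p p' hp
    have h1 : p m = p' m := hp m (Nat.lt_succ_self m)
    rw [hΦ]
    by_cases hq : p ∈ T
    · have hq' : p' ∈ T := by
        rw [hT, Set.mem_setOf_eq] at hq ⊢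
        rw [← h1]; exact hq
      rw [Set.indicator_of_mem hq, Set.indicator_of_mem hq']
      rfl
    · have hq' : p' ∉ T := by
        rw [hT, Set.mem_setOf_eq] at hq ⊢
        rw [← h1]; exact hq
      rw [Set.indicator_of_notMem hq, Set.indicator_of_notMem hq']
  have key := tr_path S h L P (m + 1) Φ hΦm hd
  have hm1 : MeasurableSet {ω : ℕ → boxS d L → S.Ωp | ‖(S.tr h L P ω m).1 w‖ < a} := by
    refine measurableSet_lt ?_ measurable_const
    have h1 : Measurable fun ω : ℕ → boxS d L → S.Ωp => S.tr h L P ω m :=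
      (measurable_traj (S.st h L) (S.mst h L) m).comp (measurable_const.prodMk measurable_id)
    exact ((measurable_pi_apply w).comp (measurable_fst.comp h1)).norm
  have hm2 : MeasurableSet {ω : ℕ → boxS d L → S.Ωp | ‖(S.tr h L P ω m).2 w‖ < a} := by
    refine measurableSet_lt ?_ measurable_const
    have h1 : Measurable fun ω : ℕ → boxS d L → S.Ωp => S.tr h L P ω m :=
      (measurable_traj (S.st h L) (S.mst h L) m).comp (measurable_const.prodMk measurable_id)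
    exact ((measurable_pi_apply w).comp (measurable_snd.comp h1)).norm
  have hm3 : ∀ Q : boxS d L → F.V, MeasurableSet
      {ω : ℕ → boxS d L → F.Ω0 | ‖traj (F.st h L) Q ω m w‖ < a} := by
    intro Q
    refine measurableSet_lt ?_ measurable_const
    have h1 : Measurable fun ω : ℕ → boxS d L → F.Ω0 =>
        traj (F.st h L) Q ω m :=
      (measurable_traj (F.st h L) (F.mst h L) m).comp
        (measurable_const.prodMk measurable_id)
    exact ((measurable_pi_apply w).comp h1).norm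
  constructor
  · have e1 := key.1
    have e2 : (fun ω : ℕ → boxS d L → S.Ωp => Φ (fun j => (S.tr h L P ω j).1)) =
        {ω : ℕ → boxS d L → S.Ωp | ‖(S.tr h L P ω m).1 w‖ < a}.indicator 1 := by
      funext ω
      rfl
    have e3 : (fun ω : ℕ → boxS d L → F.Ω0 =>
        Φ (traj (F.st h L) P.1 ω)) =
        {ω : ℕ → boxS d L → F.Ω0 |
          ‖traj (F.st h L) P.1 ω m w‖ < a}.indicator 1 := by
      funext ω
      rfl
    rw [e2, e3, lintegral_indicator_one hm1, lintegral_indicator_one (hm3 P.1)] at e1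
    exact e1
  · have e1 := key.2
    have e2 : (fun ω : ℕ → boxS d L → S.Ωp => Φ (fun j => (S.tr h L P ω j).2)) =
        {ω : ℕ → boxS d L → S.Ωp | ‖(S.tr h L P ω m).2 w‖ < a}.indicator 1 := by
      funext ω
      rfl
    have e3 : (fun ω : ℕ → boxS d L → F.Ω0 =>
        Φ (traj (F.st h L) P.2 ω)) =
        {ω : ℕ → boxS d L → F.Ω0 |
          ‖traj (F.st h L) P.2 ω m w‖ < a}.indicator 1 := by
      funext ω
      rfl
    rw [e2, e3, lintegral_indicator_one hm2, lintegral_indicator_one (hm3 P.2)] at e1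
    exact e1

private theorem StartG_rpow (a M : ℝ) (ha : 0 < a) (hM : 0 < M) :
    ∃ k0 : ℝ, 0 < k0 ∧ k0 < 1 ∧ ∀ k, 0 < k → k < k0 → M * k ^ a ≤ 1 ∧ 1 ≤ ell k := by
  refine ⟨min (1 / 3) ((1 / M) ^ (1 / a)), lt_min (by norm_num) (by positivity),
    (min_le_left _ _).trans_lt (by norm_num), ?_⟩
  intro k hk hk0
  have h1 : k < 1 / 3 := hk0.trans_le (min_le_left _ _)
  have h2 : k < (1 / M) ^ (1 / a) := hk0.trans_le (min_le_right _ _)
  constructor
  · have h3 : k ^ a ≤ ((1 / M) ^ (1 / a)) ^ a := Real.rpow_le_rpow hk.le h2.le ha.le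
    rw [← Real.rpow_mul (by positivity), one_div_mul_cancel ha.ne', Real.rpow_one] at h3
    calc M * k ^ a ≤ M * (1 / M) := mul_le_mul_of_nonneg_left h3 hM.le
      _ = 1 := by field_simp
  · unfold ell
    rw [Real.le_log_iff_exp_le (by positivity)]
    have h3 : Real.exp 1 < 3 := lt_trans Real.exp_one_lt_d9 (by norm_num)
    have h4 : 3 < 1 / k := by
      rw [lt_div_iff₀ hk]
      linarith
    linarith

theorem start3 (N d : ℕ) (hN : 3 ≤ N) (β : ℝ) (hβ : 0 < β) : ∃ q0 : ℝ, 1 ≤ q0 ∧ ∀ q, q0 ≤ q →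
    ∀ (M s1 T1 : ℝ) (R : ℕ), 1 ≤ M → 0 ≤ s1 → 2 * (7 * M + 7 * s1 * R + 6) ≤ T1 →
    ∃ c k0 : ℝ, 0 < c ∧ 0 < k0 ∧ k0 < 1 ∧
    ∀ k, 0 < k → k < k0 → ∀ (S : PSys (Fam1 N d β k) β k), BNoise N S.ν S.b S.gd →
    ∀ L : ℕ, ∃ h0 : ℝ, 0 < h0 ∧ ∀ h, 0 < h → h < h0 →
    ∀ (G : (boxS d L → E N) × (boxS d L → E N)) (y : boxS d L),
      PotGe k q (nrm G.1) (fun v => nrm G.1 v + nrm G.2 v) M s1 y →
      PotGe k q (nrm G.2) (fun v => nrm G.1 v + nrm G.2 v) M s1 y →
      ∀ n : ℕ, T1 * ell k ≤ n * h → n * h ≤ T1 * ell k + 2 →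
        PI (S.mu L) (S.alv h L G n ∩ {ω | ¬ LowG k y R (S.tr h L G ω n)}) ≤
          ENNReal.ofReal (k ^ c) := by
  classical
  obtain ⟨q0, hq0, Hpot⟩ := pot_prob N d β (by omega) hβ
  refine ⟨q0, hq0, fun q hq M s1 T1 R hM hs1 hT => ?_⟩
  have hR0 : (0 : ℝ) ≤ R := Nat.cast_nonneg R
  have hsR : 0 ≤ s1 * R := mul_nonneg hs1 hR0
  have hlam : 1 / 2 ≤ lamN N := by
    unfold lamN
    have : (3 : ℝ) ≤ N := by exact_mod_cast hN
    linarith
  have hT26 : 26 ≤ T1 := by nlinarith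
  set m2 : ℝ := 2 * (7 * M + 7 * s1 * R + 5) with hm2
  have hm21 : 1 ≤ m2 := by nlinarith
  set ε : ℝ := min (1 / 7) (1 / (28 * (R + 1))) with hε
  have hεp : 0 < ε := lt_min (by norm_num) (by positivity)
  have hε1 : ε ≤ 1 / 7 := min_le_left _ _
  have hε2 : ε * (28 * (R + 1)) ≤ 1 := by
    rw [← le_div_iff₀ (by positivity)]
    exact min_le_right _ _
  obtain ⟨Md, ε0L, c3, k3, hε0L, hc3, hk3, hk31, Hlow⟩ :=
    low3 N d (by omega) β hβ T1 m2 (1 / 64) (by linarith) hm21 (by norm_num)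
  set ε0 : ℝ := min (1 / (24 * (R + 1))) (min (1 / (8 * (1 + m2 + R))) (ε0L / (1 + m2 + R)))
    with hε0
  have hε0p : 0 < ε0 := lt_min (by positivity) (lt_min (by positivity) (by positivity))
  have h02 : ε0 * (24 * (R + 1)) ≤ 1 := by
    rw [← le_div_iff₀ (by positivity)]
    exact min_le_left _ _
  have h03 : ε0 * (8 * (1 + m2 + R)) ≤ 1 := by
    rw [← le_div_iff₀ (by positivity)]
    exact (min_le_right _ _).trans (min_le_left _ _)
  have h04 : ε0 * (1 + m2 + R) ≤ ε0L := by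
    rw [← le_div_iff₀ (by positivity)]
    exact (min_le_right _ _).trans (min_le_right _ _)
  have h01 : ε0 ≤ 1 / 8 := by nlinarith
  obtain ⟨c1, k1, hc1, hk1, hk11, Hcap⟩ := caps_prob N d β hβ ε0 hε0p
  obtain ⟨c2, k2, hc2, hk2, hk21, Hpot2⟩ := Hpot q hq ε hεp
  set c : ℝ := min c1 (min c2 c3) / 2 with hc
  have hcp : 0 < c := by
    have : 0 < min c1 (min c2 c3) := lt_min hc1 (lt_min hc2 hc3)
    positivity
  have hcc1 : 2 * c ≤ c1 := by
    have : min c1 (min c2 c3) ≤ c1 := min_le_left _ _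
    linarith
  have hcc2 : 2 * c ≤ c2 := by
    have : min c1 (min c2 c3) ≤ c2 := (min_le_right _ _).trans (min_le_left _ _)
    linarith
  have hcc3 : 2 * c ≤ c3 := by
    have : min c1 (min c2 c3) ≤ c3 := (min_le_right _ _).trans (min_le_right _ _)
    linarith
  set K : ℝ := 3 + 2 * (3 ^ d * 2 ^ R) with hK
  have hKp : 0 < K := by positivity
  obtain ⟨k4, hk4, hk41, H4⟩ := StartG_rpow c K hcp hKp
  refine ⟨c, min (min k1 k2) (min k3 k4), hcp, lt_min (lt_min hk1 hk2) (lt_min hk3 hk4),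
    ((min_le_left _ _).trans (min_le_left _ _)).trans_lt hk11, ?_⟩
  intro k hk hkk S hS L
  have hkk1 : k < k1 := hkk.trans_le ((min_le_left _ _).trans (min_le_left _ _))
  have hkk2 : k < k2 := hkk.trans_le ((min_le_left _ _).trans (min_le_right _ _))
  have hkk3 : k < k3 := hkk.trans_le ((min_le_right _ _).trans (min_le_left _ _))
  have hkk4 : k < k4 := hkk.trans_le ((min_le_right _ _).trans (min_le_right _ _))
  have hklt : k < 1 := hkk1.trans hk11
  obtain ⟨hKk, hell⟩ := H4 k hk hkk4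
  obtain ⟨h1, hh1, Hc⟩ := Hcap (Fam1 N d β k) k S hk hkk1 hS L
  obtain ⟨h2, hh2, Hp⟩ := Hpot2 (Fam1 N d β k) k S hk hkk2 hS
  obtain ⟨h3, hh3, Hl⟩ := Hlow k hk hkk3 S hS L
  refine ⟨min (min h1 h2) (min h3 1), lt_min (lt_min hh1 hh2) (lt_min hh3 one_pos), ?_⟩
  intro h hh hhh G y hG1 hG2 n hn1 hn2
  have hhh1 : h < h1 := hhh.trans_le ((min_le_left _ _).trans (min_le_left _ _))
  have hhh2 : h < h2 := hhh.trans_le ((min_le_left _ _).trans (min_le_right _ _))
  have hhh3 : h < h3 := hhh.trans_le ((min_le_right _ _).trans (min_le_left _ _))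
  have hhh4 : h < 1 := hhh.trans_le ((min_le_right _ _).trans (min_le_right _ _))
  set n0 : ℕ := ⌈1 / h⌉₊ with hn0
  have hn0a : 1 ≤ n0 * h := by
    have := Nat.le_ceil (1 / h)
    rw [div_le_iff₀ hh] at this
    exact this
  have hn0b : n0 * h ≤ 2 := by
    have h5 : (n0 : ℝ) < 1 / h + 1 := Nat.ceil_lt_add_one (by positivity)
    have h6 : (n0 : ℝ) * h < (1 / h + 1) * h := mul_lt_mul_of_pos_right h5 hh
    have h7 : (1 / h + 1) * h = 1 + h := by field_simp
    linarith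
  have hTell : T1 ≤ T1 * ell k := by nlinarith
  have hn0n : n0 ≤ n := by
    have h5 : (n0 : ℝ) * h ≤ n * h := by linarith
    have h6 : (n0 : ℝ) ≤ n := le_of_mul_le_mul_right h5 hh
    exact_mod_cast h6
  obtain ⟨m, rfl⟩ := Nat.exists_eq_add_of_le hn0n
  have hm1 : T1 * ell k - 2 ≤ m * h := by
    push_cast at hn1
    linarith
  have hm3 : m * h ≤ T1 * ell k + 2 := by
    push_cast at hn2
    linarith
  -- good states at time `n0`
  set A : Set ((boxS d L → E N) × (boxS d L → E N)) := {P |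
    Caps k (fun v => nrm P.1 v + nrm P.2 v) ε0 y ∧
    PotGe k q (nrm P.1) (fun v => nrm P.1 v + nrm P.2 v) (M + ε) (s1 + ε) y ∧
    PotGe k q (nrm P.2) (fun v => nrm P.1 v + nrm P.2 v) (M + ε) (s1 + ε) y} with hA
  have hq0' : 0 ≤ q := by linarith
  -- one site
  have Hsite : ∀ (g t : boxS d L → E N) (w : boxS d L), (boxNet d L).dist w y ≤ R →
      LowR k (nrm g) (7 * (M + ε) + 1) (7 * (s1 + ε) + 6 * ε0) y → Caps k (nrm g) ε0 y →
      PI ((Fam1 N d β k).mu L) {ω | ‖traj ((Fam1 N d β k).st h L) g ω m w‖ < k ^ (5 / 64 : ℝ)} ≤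
        ENNReal.ofReal (k ^ c3) := by
    intro g t w hw hl hcap
    obtain ⟨z, X0, a1, a2, a3, a4, a5, a6⟩ := StartG_site hk hklt hell hM hs1 hT hεp hε1 hε2 hε0p
      h01 h02 h03 h04 hlam g y w hw hl hcap
    refine le_trans (measure_mono ?_) (Hl h hh hhh3 m (by linarith) (by linarith) g z w X0 a1 a2 a3
      a4 (Or.inl a5))
    intro ω hω
    exact lt_of_lt_of_le hω (a6 (m * h) hm1)
  set p : ℝ≥0∞ := ENNReal.ofReal (2 * (3 ^ d * 2 ^ R) * k ^ c3) with hp
  have Hin : ∀ P ∈ A, PI (S.mu L) {ω | ¬ LowG k y R (S.tr h L P ω m)} ≤ p := by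
    intro P hP
    obtain ⟨b1, b2, b3⟩ := hP
    have hu1 : ∀ v, 0 ≤ nrm P.1 v := fun v => norm_nonneg _
    have hu2 : ∀ v, 0 ≤ nrm P.2 v := fun v => norm_nonneg _
    have l1 := low_of_pot hk hklt hq0' (by linarith : 0 ≤ M + ε) (by linarith : 0 ≤ s1 + ε) hε0p h01
      (nrm P.1) (fun v => nrm P.1 v + nrm P.2 v) hu1 (fun v => by have := hu2 v; linarith) y b2 b1
    have l2 := low_of_pot hk hklt hq0' (by linarith : 0 ≤ M + ε) (by linarith : 0 ≤ s1 + ε) hε0p h01
      (nrm P.2) (fun v => nrm P.1 v + nrm P.2 v) hu2 (fun v => by have := hu1 v; linarith) y b3 b1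
    have cp1 : Caps k (nrm P.1) ε0 y := fun v => by
      have e1 := b1 v
      have e2 := hu2 v
      simp only at e1
      linarith
    have cp2 : Caps k (nrm P.2) ε0 y := fun v => by
      have e1 := b1 v
      have e2 := hu1 v
      simp only at e1
      linarith
    set B : Finset (boxS d L) := Finset.univ.filter (fun x => (boxNet d L).dist x y ≤ R) with hB
    have hsub : {ω | ¬ LowG k y R (S.tr h L P ω m)} ⊆
        ⋃ w ∈ B, ({ω | ‖(S.tr h L P ω m).1 w‖ < k ^ (5 / 64 : ℝ)} ∪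
          {ω | ‖(S.tr h L P ω m).2 w‖ < k ^ (5 / 64 : ℝ)}) := by
      intro ω hω
      rw [Set.mem_setOf_eq] at hω
      unfold LowG at hω
      push Not at hω
      obtain ⟨x, hx, hx2⟩ := hω
      simp only [Set.mem_iUnion]
      refine ⟨x, ?_, ?_⟩
      · rw [hB, Finset.mem_filter]
        exact ⟨Finset.mem_univ _, hx⟩
      · by_cases h5 : k ^ (5 / 64 : ℝ) ≤ ‖(S.tr h L P ω m).1 x‖
        · exact Or.inr (hx2 h5)
        · exact Or.inl (not_le.1 h5)
    refine (measure_mono hsub).trans ((measure_biUnion_finset_le B _).trans ?_)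
    have hterm : ∀ w ∈ B, PI (S.mu L) ({ω | ‖(S.tr h L P ω m).1 w‖ < k ^ (5 / 64 : ℝ)} ∪
          {ω | ‖(S.tr h L P ω m).2 w‖ < k ^ (5 / 64 : ℝ)}) ≤
        ENNReal.ofReal (2 * k ^ c3) := by
      intro w hw
      have hw' : (boxNet d L).dist w y ≤ R := by
        rw [hB, Finset.mem_filter] at hw
        exact hw.2
      refine (measure_union_le _ _).trans ?_
      have e := StartG_path S h L P m w (k ^ (5 / 64 : ℝ))
      rw [e.1, e.2]
      have e1 := Hsite P.1 P.2 w hw' l1 cp1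
      have e2 := Hsite P.2 P.1 w hw' l2 cp2
      refine (add_le_add e1 e2).trans ?_
      rw [← ENNReal.ofReal_add (by positivity) (by positivity)]
      exact ENNReal.ofReal_le_ofReal (by linarith)
    refine (Finset.sum_le_sum hterm).trans ?_
    rw [Finset.sum_const, nsmul_eq_mul, ← ENNReal.ofReal_natCast,
      ← ENNReal.ofReal_mul (Nat.cast_nonneg _), hp]
    refine ENNReal.ofReal_le_ofReal ?_
    have e3 := StartG_card y R
    have e4 : 0 ≤ 2 * k ^ c3 := by positivity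
    calc (B.card : ℝ) * (2 * k ^ c3) ≤ (3 ^ d * 2 ^ R) * (2 * k ^ c3) :=
          mul_le_mul_of_nonneg_right e3 e4
      _ = 2 * (3 ^ d * 2 ^ R) * k ^ c3 := by ring
  -- Markov property
  set D : Set ((boxS d L → E N) × (boxS d L → E N)) := {P | ¬ LowG k y R P} with hD
  have hDm : MeasurableSet D := StartG_low_meas k y R
  have hΦm : Measurable (D.indicator (1 : (boxS d L → E N) × (boxS d L → E N) → ℝ≥0∞)) :=
    measurable_one.indicator hDm
  have hmk := alv_markov S h L (D.indicator 1) hΦm G n0 m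
  have htrm : ∀ (Q : (boxS d L → E N) × (boxS d L → E N)) (j : ℕ),
      Measurable fun ω : ℕ → boxS d L → S.Ωp => S.tr h L Q ω j := fun Q j =>
    (measurable_traj (S.st h L) (S.mst h L) j).comp (measurable_const.prodMk measurable_id)
  have hset : ∀ (Q : (boxS d L → E N) × (boxS d L → E N)) (j : ℕ),
      ∫⁻ ω in S.alv h L Q j, (D.indicator (1 : (boxS d L → E N) × (boxS d L → E N) → ℝ≥0∞))
        (S.tr h L Q ω j) ∂(PI (S.mu L)) =
      PI (S.mu L) (S.alv h L Q j ∩ {ω | ¬ LowG k y R (S.tr h L Q ω j)}) := by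
    intro Q j
    have e1 : (fun ω : ℕ → boxS d L → S.Ωp => (D.indicator
        (1 : (boxS d L → E N) × (boxS d L → E N) → ℝ≥0∞)) (S.tr h L Q ω j)) =
        {ω : ℕ → boxS d L → S.Ωp | ¬ LowG k y R (S.tr h L Q ω j)}.indicator 1 := by
      funext ω
      rfl
    have e2 : MeasurableSet {ω : ℕ → boxS d L → S.Ωp | ¬ LowG k y R (S.tr h L Q ω j)} :=
      (htrm Q j) hDm
    rw [e1, lintegral_indicator_one e2, Measure.restrict_apply e2, Set.inter_comm]
  rw [hset G (n0 + m)] at hmk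
  rw [hmk]
  have hin2 : ∀ ω : ℕ → boxS d L → S.Ωp,
      (∫⁻ ω' in S.alv h L (S.tr h L G ω n0) m, (D.indicator
        (1 : (boxS d L → E N) × (boxS d L → E N) → ℝ≥0∞))
        (S.tr h L (S.tr h L G ω n0) ω' m) ∂(PI (S.mu L))) ≤
      {ω : ℕ → boxS d L → S.Ωp | S.tr h L G ω n0 ∉ A}.indicator (fun _ => (1 : ℝ≥0∞)) ω + p := by
    intro ω
    rw [hset]
    by_cases hω : S.tr h L G ω n0 ∈ A
    · rw [Set.indicator_of_notMem (by simpa using hω), zero_add]
      exact (measure_mono Set.inter_subset_right).trans (Hin _ hω)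
    · rw [Set.indicator_of_mem (by simpa using hω)]
      exact (prob_le_one).trans (le_add_right le_rfl)
  refine (lintegral_mono hin2).trans ?_
  rw [lintegral_add_right _ measurable_const]
  have hI1 : ∫⁻ ω in S.alv h L G n0,
      {ω : ℕ → boxS d L → S.Ωp | S.tr h L G ω n0 ∉ A}.indicator (fun _ => (1 : ℝ≥0∞)) ω
        ∂(PI (S.mu L)) ≤ ENNReal.ofReal (k ^ c1) + (ENNReal.ofReal (k ^ c2) +
          ENNReal.ofReal (k ^ c2)) := by
    refine (lintegral_indicator_const_le _ _).trans ?_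
    rw [one_mul, Measure.restrict_apply' (measurableSet_alv S h L G n0)]
    have hsub : {ω : ℕ → boxS d L → S.Ωp | S.tr h L G ω n0 ∉ A} ∩ S.alv h L G n0 ⊆
        (S.alv h L G n0 ∩ {ω | ¬ Caps k (fun v => ‖(S.tr h L G ω n0).1 v‖ +
          ‖(S.tr h L G ω n0).2 v‖) ε0 y}) ∪
        ((S.alv h L G n0 ∩ {ω | ¬ PotGe k q (nrm (S.tr h L G ω n0).1)
          (fun v => nrm (S.tr h L G ω n0).1 v + nrm (S.tr h L G ω n0).2 v) (M + ε) (s1 + ε) y}) ∪
        (S.alv h L G n0 ∩ {ω | ¬ PotGe k q (nrm (S.tr h L G ω n0).2)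
          (fun v => nrm (S.tr h L G ω n0).1 v + nrm (S.tr h L G ω n0).2 v) (M + ε)
          (s1 + ε) y})) := by
      rintro ω ⟨hω1, hω2⟩
      by_cases g1 : Caps k (fun v => ‖(S.tr h L G ω n0).1 v‖ +
          ‖(S.tr h L G ω n0).2 v‖) ε0 y
      · by_cases g2 : PotGe k q (nrm (S.tr h L G ω n0).1)
          (fun v => nrm (S.tr h L G ω n0).1 v + nrm (S.tr h L G ω n0).2 v) (M + ε) (s1 + ε) y
        · by_cases g3 : PotGe k q (nrm (S.tr h L G ω n0).2)
            (fun v => nrm (S.tr h L G ω n0).1 v + nrm (S.tr h L G ω n0).2 v) (M + ε) (s1 + ε) y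
          · exact absurd ⟨g1, g2, g3⟩ hω1
          · exact Or.inr (Or.inr ⟨hω2, g3⟩)
        · exact Or.inr (Or.inl ⟨hω2, g2⟩)
      · exact Or.inl ⟨hω2, g1⟩
    refine (measure_mono hsub).trans ((measure_union_le _ _).trans ?_)
    have hP2 := Hp h hh hhh2 L G n0 (by linarith) y M s1 (by linarith) hs1
    exact add_le_add (Hc h hh hhh1 G n0 hn0a y)
      ((measure_union_le _ _).trans (add_le_add (hP2.1 hG1) (hP2.2 hG2)))
  have hI2 : ∫⁻ _ω in S.alv h L G n0, p ∂(PI (S.mu L)) ≤ p := by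
    rw [setLIntegral_const]
    calc p * PI (S.mu L) (S.alv h L G n0) ≤ p * 1 := by gcongr; exact prob_le_one
      _ = p := mul_one p
  refine (add_le_add hI1 hI2).trans ?_
  rw [hp, ← ENNReal.ofReal_add (by positivity) (by positivity),
    ← ENNReal.ofReal_add (by positivity) (by positivity),
    ← ENNReal.ofReal_add (by positivity) (by positivity)]
  refine ENNReal.ofReal_le_ofReal ?_
  have f1 : k ^ c1 ≤ k ^ (2 * c) := StartG_le hk hklt hcc1
  have f2 : k ^ c2 ≤ k ^ (2 * c) := StartG_le hk hklt hcc2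
  have f3 : k ^ c3 ≤ k ^ (2 * c) := StartG_le hk hklt hcc3
  have f4 : k ^ (2 * c) = k ^ c * k ^ c := by
    rw [two_mul, Real.rpow_add hk]
  have f5 : 2 * (3 ^ d * 2 ^ R) * k ^ c3 ≤ 2 * (3 ^ d * 2 ^ R) * k ^ (2 * c) :=
    mul_le_mul_of_nonneg_left f3 (by positivity)
  have f6 : 0 < k ^ c := Real.rpow_pos_of_pos hk _
  calc k ^ c1 + (k ^ c2 + k ^ c2) + 2 * (3 ^ d * 2 ^ R) * k ^ c3
      ≤ K * k ^ (2 * c) := by
        rw [hK]
        linarith
    _ = (K * k ^ c) * k ^ c := by rw [f4]; ring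
    _ ≤ 1 * k ^ c := mul_le_mul_of_nonneg_right hKk f6.le
    _ = k ^ c := one_mul _

end DynG

end
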