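import Pool.Agent.Lib_MP_36b788_m.M09
import Pool.Agent.Lib_MP_36b788_m.M19
import Pool.Agent.Lib_MP_36b788_m.M24

/-!
# MP_36b788_pr, stationary limit: merged library part M31

Concatenation of smaller files (each in its own section), only to save build time.
-/

/-! ### from `Lib_MP_36b788g.ZIter` -/

section

/-!
# Iteration of `z_step` along regular paths, the extended chain

PROOF.
* `est_fst`: induction on `n`.
* `measurable_est`: `measurable_st3`; `upd` is measurable in `(G, σ)`: a finite infimum of measurable functions (`Finset.measurable_inf'` or `Finset.inf'_apply`), `chi` measurable.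
* `z_iter`: induction on `n` for all `(G, σ)`. `n = 0`: equality. `n+1`: if `G` is not `RegG` or for the bad first noise the set is empty. `lintegral_cons`: `ω = ζ :: ω'`,
  `traj (est …) s (ζ :: ω') (j+1) = traj (est …) (est … s ζ) ω' j`, the set for `n+1` is {`ζ` good, `RegG G`} ∩ {set for `n` started at `est … s ζ`}. IH: inner integral `≤ ofReal((1+k^{1/4}h)^n YW(est s ζ))`,
  then `z_step` and `ofReal_mul`.
-/

open MeasureTheory ProbabilityTheory
open scoped ENNReal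

namespace DynG

open Dyn DynS DynC

private theorem ZIter_meas_inf {ι δ : Type} [MeasurableSpace δ] (s : Finset ι) (hs : s.Nonempty)
    (f : ι → δ → ℝ) (hf : ∀ i ∈ s, Measurable (f i)) :
    Measurable (fun a => s.inf' hs (fun i => f i a)) := by
  have h := Finset.inf'_induction hs f (p := fun g : δ → ℝ => Measurable g)
    (fun _ h1 _ h2 => h1.inf h2) hf
  have e : s.inf' hs f = fun a => s.inf' hs (fun i => f i a) := by
    funext a
    exact Finset.inf'_apply hs f a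
  rw [e] at h
  exact h

private theorem ZIter_meas_mn {N d L : ℕ} (x : boxS d L) :
    Measurable (fun G : (boxS d L → E N) × (boxS d L → E N) => mn G x) := by
  unfold mn
  exact (((measurable_pi_apply x).comp measurable_fst).norm).min
    (((measurable_pi_apply x).comp measurable_snd).norm)

private theorem ZIter_meas_chi {N d L : ℕ} (c β C' : ℝ) (y : boxS d L) (R : ℕ) (x : boxS d L) :
    Measurable (fun G : (boxS d L → E N) × (boxS d L → E N) => chi c β C' y R G x) := by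
  unfold chi
  by_cases hx : (boxNet d L).dist x y ≤ R
  · simp only [hx, if_true]
    exact (measurable_const.min ((ZIter_meas_mn x).pow_const β)).const_mul c
  · simp only [hx, if_false]
    exact measurable_const

private theorem ZIter_meas_est2 {N d : ℕ} (c C' β k h : ℝ) (L : ℕ) (y : boxS d L) (R : ℕ) :
    Measurable (fun p : (((boxS d L → E N) × (boxS d L → E N)) × (boxS d L → ℝ)) ×
      (boxS d L → E N) => upd (boxNet d L) (ell k) h (chi c β C' y R p.1.1) p.1.2) := by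
  rw [measurable_pi_iff]
  intro x
  have hz : ∀ z : boxS d L, Measurable (fun p : (((boxS d L → E N) × (boxS d L → E N)) ×
      (boxS d L → ℝ)) × (boxS d L → E N) => p.1.2 z + h * chi c β C' y R p.1.1 z +
        ((boxNet d L).dist x z : ℝ) * (ell k / 2)) := by
    intro z
    refine Measurable.add (Measurable.add ?_ ?_) measurable_const
    · exact (measurable_pi_apply z).comp (measurable_snd.comp measurable_fst)
    · exact ((ZIter_meas_chi c β C' y R z).comp
        (measurable_fst.comp measurable_fst)).const_mul h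
  exact ZIter_meas_inf Finset.univ ⟨x, Finset.mem_univ x⟩
    (fun z (p : (((boxS d L → E N) × (boxS d L → E N)) ×
      (boxS d L → ℝ)) × (boxS d L → E N)) => p.1.2 z + h * chi c β C' y R p.1.1 z +
        ((boxNet d L).dist x z : ℝ) * (ell k / 2)) (fun z _ => hz z)

theorem measurable_est {N d : ℕ} (hN : 3 ≤ N) (c C' β k h : ℝ) (L : ℕ) (y : boxS d L) (R : ℕ) :
    Measurable (fun p : (((boxS d L → E N) × (boxS d L → E N)) × (boxS d L → ℝ)) ×
      (boxS d L → E N) => est hN c C' β k h L y R p.1 p.2) := by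
  have h0 : Measurable (fun p : (((boxS d L → E N) × (boxS d L → E N)) × (boxS d L → ℝ)) ×
      (boxS d L → E N) => (p.1.1, p.2)) :=
    (measurable_fst.comp measurable_fst).prodMk measurable_snd
  have h1 := Measurable.comp (g := fun q : ((boxS d L → E N) × (boxS d L → E N)) ×
      (boxS d L → E N) => st3 hN β k h L q.1 q.2)
    (f := fun p : (((boxS d L → E N) × (boxS d L → E N)) × (boxS d L → ℝ)) ×
      (boxS d L → E N) => (p.1.1, p.2)) (measurable_st3 hN β k h L) h0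
  have h2 := h1.prodMk (ZIter_meas_est2 c C' β k h L y R)
  exact h2

theorem measurable_YW {N d L : ℕ} (y : boxS d L) (R : ℕ) :
    Measurable (fun s : ((boxS d L → E N) × (boxS d L → E N)) × (boxS d L → ℝ) =>
      YW y R s.2 s.1) := by
  unfold YW
  refine Finset.measurable_sum _ fun x _ => ?_
  have h1 : Measurable (fun s : ((boxS d L → E N) × (boxS d L → E N)) × (boxS d L → ℝ) =>
      s.1.1 x) := (measurable_pi_apply x).comp (measurable_fst.comp measurable_fst)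
  have h2 : Measurable (fun s : ((boxS d L → E N) × (boxS d L → E N)) × (boxS d L → ℝ) =>
      s.1.2 x) := (measurable_pi_apply x).comp (measurable_snd.comp measurable_fst)
  have h3 : Measurable (fun s : ((boxS d L → E N) × (boxS d L → E N)) × (boxS d L → ℝ) =>
      s.2 x) := (measurable_pi_apply x).comp measurable_snd
  refine Measurable.mul (Real.measurable_exp.comp h3) ?_
  by_cases hx : (boxNet d L).dist x y ≤ R
  · simp only [hx, if_true]
    unfold Zr
    exact ((h1.sub h2).norm.pow_const 2).div (h1.norm.mul h2.norm)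
  · simp only [hx, if_false]
    exact (h1.sub h2).norm.pow_const 2

theorem measurableSet_RegG {N d L : ℕ} (k : ℝ) (y : boxS d L) (R : ℕ) :
    MeasurableSet {G : (boxS d L → E N) × (boxS d L → E N) | RegG k y R G} := by
  have h1 : ∀ x : boxS d L, Measurable (fun G : (boxS d L → E N) × (boxS d L → E N) =>
      ‖G.1 x‖) := fun x => ((measurable_pi_apply x).comp measurable_fst).norm
  have h2 : ∀ x : boxS d L, Measurable (fun G : (boxS d L → E N) × (boxS d L → E N) =>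
      ‖G.2 x‖) := fun x => ((measurable_pi_apply x).comp measurable_snd).norm
  have e : {G : (boxS d L → E N) × (boxS d L → E N) | RegG k y R G} =
      (⋂ x : boxS d L, {G : (boxS d L → E N) × (boxS d L → E N) |
        (boxNet d L).dist x y ≤ R → k ^ (1 / 4 : ℝ) ≤ ‖G.1 x‖ ∧ k ^ (1 / 4 : ℝ) ≤ ‖G.2 x‖}) ∩
      ⋂ x : boxS d L, {G : (boxS d L → E N) × (boxS d L → E N) |
        (boxNet d L).dist x y ≤ R + 1 →
          ‖G.1 x‖ ≤ k ^ (-(1 / 16) : ℝ) ∧ ‖G.2 x‖ ≤ k ^ (-(1 / 16) : ℝ)} := by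
    ext G
    simp only [Set.mem_inter_iff, Set.mem_iInter, Set.mem_ofPred_eq]
    rfl
  rw [e]
  refine MeasurableSet.inter (MeasurableSet.iInter fun x => ?_)
    (MeasurableSet.iInter fun x => ?_)
  · by_cases hx : (boxNet d L).dist x y ≤ R
    · simp only [hx, true_imp_iff]
      exact (measurableSet_le measurable_const (h1 x)).inter
        (measurableSet_le measurable_const (h2 x))
    · simp only [hx, false_imp_iff]
      exact MeasurableSet.univ
  · by_cases hx : (boxNet d L).dist x y ≤ R + 1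
    · simp only [hx, true_imp_iff]
      exact (measurableSet_le (h1 x) measurable_const).inter
        (measurableSet_le (h2 x) measurable_const)
    · simp only [hx, false_imp_iff]
      exact MeasurableSet.univ

theorem est_fst {N d : ℕ} (hN : 3 ≤ N) (c C' β k h : ℝ) (L : ℕ) (y : boxS d L) (R : ℕ)
    (s : ((boxS d L → E N) × (boxS d L → E N)) × (boxS d L → ℝ)) (ω : ℕ → boxS d L → E N)
    (n : ℕ) : (traj (est hN c C' β k h L y R) s ω n).1 = traj (st3 hN β k h L) s.1 ω n := by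
  induction n with
  | zero => rfl
  | succ n ih =>
    show st3 hN β k h L (traj (est hN c C' β k h L y R) s ω n).1 (ω n) =
      st3 hN β k h L (traj (st3 hN β k h L) s.1 ω n) (ω n)
    rw [ih]

theorem est_snd {N d : ℕ} (hN : 3 ≤ N) (c C' β k h : ℝ) (L : ℕ) (y : boxS d L) (R : ℕ)
    (s : ((boxS d L → E N) × (boxS d L → E N)) × (boxS d L → ℝ)) (ω : ℕ → boxS d L → E N)
    (n : ℕ) : (traj (est hN c C' β k h L y R) s ω (n + 1)).2 =
      upd (boxNet d L) (ell k) h (chi c β C' y R (traj (st3 hN β k h L) s.1 ω n))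
        (traj (est hN c C' β k h L y R) s ω n).2 := by
  show upd (boxNet d L) (ell k) h
      (chi c β C' y R (traj (est hN c C' β k h L y R) s ω n).1)
        (traj (est hN c C' β k h L y R) s ω n).2 = _
  rw [est_fst]

private theorem ZIter_traj_cons {St X : Type} (f : St → X → St) (s : St) (a : X) (b : ℕ → X)
    (j : ℕ) : traj f s (fun i => Nat.casesOn i a b) (j + 1) = traj f (f s a) b j := by
  induction j with
  | zero => rfl
  | succ j ih =>
    show f (traj f s (fun i => Nat.casesOn i a b) (j + 1)) (b j) = f (traj f (f s a) b j) (b j)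
    rw [ih]

private theorem ZIter_set_meas {St X : Type} [MeasurableSpace St] [MeasurableSpace X]
    (f : St → X → St) (hf : Measurable (fun p : St × X => f p.1 p.2)) (Gd : Set X)
    (hGd : MeasurableSet Gd) (P : Set St) (hP : MeasurableSet P) (n : ℕ) (s : St) :
    MeasurableSet {ω : ℕ → X | ∀ j, j < n → ω j ∈ Gd ∧ traj f s ω j ∈ P} := by
  have e : {ω : ℕ → X | ∀ j, j < n → ω j ∈ Gd ∧ traj f s ω j ∈ P} =
      ⋂ j ∈ Finset.range n, ({ω : ℕ → X | ω j ∈ Gd} ∩ {ω | traj f s ω j ∈ P}) := by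
    ext ω
    simp
  rw [e]
  refine Finset.measurableSet_biInter _ fun j _ => MeasurableSet.inter ?_ ?_
  · exact measurable_pi_apply j hGd
  · exact ((measurable_traj f hf j).comp (measurable_const.prodMk measurable_id)) hP

private theorem ZIter_iter {St X : Type} [MeasurableSpace St] [MeasurableSpace X]
    (μ : Measure X) [IsProbabilityMeasure μ] (f : St → X → St)
    (hf : Measurable (fun p : St × X => f p.1 p.2)) (Gd : Set X)
    (hGd : MeasurableSet Gd) (P : Set St) (hP : MeasurableSet P) (Φ : St → ℝ≥0∞)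
    (hΦ : Measurable Φ) (A : ℝ≥0∞) (hstep : ∀ s ∈ P, ∫⁻ a in Gd, Φ (f s a) ∂μ ≤ A * Φ s)
    (n : ℕ) : ∀ s : St, ∫⁻ ω in {ω : ℕ → X | ∀ j, j < n → ω j ∈ Gd ∧ traj f s ω j ∈ P},
        Φ (traj f s ω n) ∂(PI μ) ≤ A ^ n * Φ s := by
  induction n with
  | zero =>
    intro s
    have e : {ω : ℕ → X | ∀ j, j < 0 → ω j ∈ Gd ∧ traj f s ω j ∈ P} = Set.univ := by
      ext ω
      simp
    rw [e, Measure.restrict_univ]
    have e2 : ∀ ω : ℕ → X, Φ (traj f s ω 0) = Φ s := fun _ => rfl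
    simp_rw [e2]
    simp
  | succ n ih =>
    intro s
    set S : Set (ℕ → X) := {ω : ℕ → X | ∀ j, j < n + 1 → ω j ∈ Gd ∧ traj f s ω j ∈ P} with hS
    have hSm : MeasurableSet S := ZIter_set_meas f hf Gd hGd P hP (n + 1) s
    have hFm : Measurable (fun ω : ℕ → X => Φ (traj f s ω (n + 1))) :=
      hΦ.comp ((measurable_traj f hf (n + 1)).comp (measurable_const.prodMk measurable_id))
    rw [← lintegral_indicator hSm, lintegral_cons _ (hFm.indicator hSm)]
    classical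
    have key : ∀ a : X, ∫⁻ b, S.indicator (fun ω : ℕ → X => Φ (traj f s ω (n + 1)))
        (fun i => Nat.casesOn i a b) ∂(PI μ) ≤
        Gd.indicator (fun a => if s ∈ P then A ^ n * Φ (f s a) else 0) a := by
      intro a
      by_cases ha : a ∈ Gd
      · by_cases hs : s ∈ P
        · rw [Set.indicator_of_mem ha, if_pos hs]
          refine le_trans (le_of_eq ?_) (ih (f s a))
          rw [← lintegral_indicator (ZIter_set_meas f hf Gd hGd P hP n (f s a))]
          refine lintegral_congr fun b => ?_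
          have hmem : (fun i => Nat.casesOn i a b : ℕ → X) ∈ S ↔
              b ∈ {ω : ℕ → X | ∀ j, j < n → ω j ∈ Gd ∧ traj f (f s a) ω j ∈ P} := by
            constructor
            · intro h j hj
              have h2 := h (j + 1) (by omega)
              rw [ZIter_traj_cons] at h2
              exact h2
            · intro h j hj
              rcases j with _ | j
              · exact ⟨ha, hs⟩
              · rw [ZIter_traj_cons]
                exact h j (by omega)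
          by_cases hb : b ∈ {ω : ℕ → X | ∀ j, j < n → ω j ∈ Gd ∧ traj f (f s a) ω j ∈ P}
          · rw [Set.indicator_of_mem hb, Set.indicator_of_mem (hmem.2 hb), ZIter_traj_cons]
          · rw [Set.indicator_of_notMem hb, Set.indicator_of_notMem (fun h => hb (hmem.1 h))]
        · rw [Set.indicator_of_mem ha, if_neg hs]
          refine le_of_eq ?_
          have : ∀ b : ℕ → X, S.indicator (fun ω : ℕ → X => Φ (traj f s ω (n + 1)))
              (fun i => Nat.casesOn i a b) = 0 := by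
            intro b
            refine Set.indicator_of_notMem ?_ _
            intro h
            exact hs (h 0 (by omega)).2
          simp_rw [this]
          simp
      · rw [Set.indicator_of_notMem ha]
        refine le_of_eq ?_
        have : ∀ b : ℕ → X, S.indicator (fun ω : ℕ → X => Φ (traj f s ω (n + 1)))
            (fun i => Nat.casesOn i a b) = 0 := by
          intro b
          refine Set.indicator_of_notMem ?_ _
          intro h
          exact ha (h 0 (by omega)).1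
        simp_rw [this]
        simp
    refine (lintegral_mono key).trans ?_
    rw [lintegral_indicator hGd]
    by_cases hs : s ∈ P
    · simp only [if_pos hs]
      have hm : Measurable (fun a : X => Φ (f s a)) :=
        hΦ.comp (hf.comp (measurable_const.prodMk measurable_id))
      rw [lintegral_const_mul _ hm]
      calc A ^ n * ∫⁻ a in Gd, Φ (f s a) ∂μ ≤ A ^ n * (A * Φ s) := by
            gcongr
            exact hstep s hs
        _ = A ^ (n + 1) * Φ s := by rw [pow_succ, mul_assoc]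
    · simp only [if_neg hs]
      simp

theorem z_iter (N d : ℕ) (hN : 3 ≤ N) (β : ℝ) (hβ : 0 < β) : ∃ c C' k0 : ℝ, 0 < c ∧ c ≤ 1 ∧
    0 < C' ∧ 0 < k0 ∧ k0 < 1 ∧ ∀ k, 0 < k → k < k0 → ∃ h0 : ℝ, 0 < h0 ∧ h0 ≤ 1 / 1000 ∧
    ∀ h, 0 < h → h < h0 → ∀ (L : ℕ) (y : boxS d L) (R n : ℕ)
      (G : (boxS d L → E N) × (boxS d L → E N)) (σ : boxS d L → ℝ),
      ∫⁻ ω in {ω | ∀ j, j < n → (∀ x, ω j x ∈ gdE hN h) ∧
            RegG k y R (traj (st3 hN β k h L) G ω j)},
          ENNReal.ofReal (YW y R (traj (est hN c C' β k h L y R) (G, σ) ω n).2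
            (traj (est hN c C' β k h L y R) (G, σ) ω n).1)
          ∂(PI (Measure.pi fun _ : boxS d L => stdGaussian (E N))) ≤
        ENNReal.ofReal ((1 + k ^ (1 / 4 : ℝ) * h) ^ n * YW y R σ G) := by
  obtain ⟨c, C', k0, hc, hc1, hC', hk0, hk01, H⟩ := z_step N d hN β hβ
  refine ⟨c, C', k0, hc, hc1, hC', hk0, hk01, fun k hk hk' => ?_⟩
  obtain ⟨h0, hh0, hh01, H2⟩ := H k hk hk'
  refine ⟨h0, hh0, hh01, fun h hh hh' L y R n G σ => ?_⟩
  have hA : (0 : ℝ) ≤ 1 + k ^ (1 / 4 : ℝ) * h := by positivity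
  have hGd : MeasurableSet {ζ : boxS d L → E N | ∀ x, ζ x ∈ gdE hN h} := by
    have : {ζ : boxS d L → E N | ∀ x, ζ x ∈ gdE hN h} =
        ⋂ x, (fun ζ : boxS d L → E N => ζ x) ⁻¹' gdE hN h := by
      ext ζ
      simp
    rw [this]
    exact MeasurableSet.iInter fun x => measurable_pi_apply x (measurable_gdE hN h)
  have hP : MeasurableSet {s : ((boxS d L → E N) × (boxS d L → E N)) × (boxS d L → ℝ) |
      RegG k y R s.1} := measurable_fst (measurableSet_RegG k y R)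
  have key := ZIter_iter (Measure.pi fun _ : boxS d L => stdGaussian (E N))
    (est hN c C' β k h L y R) (measurable_est hN c C' β k h L y R)
    {ζ : boxS d L → E N | ∀ x, ζ x ∈ gdE hN h} hGd
    {s : ((boxS d L → E N) × (boxS d L → E N)) × (boxS d L → ℝ) | RegG k y R s.1} hP
    (fun s => ENNReal.ofReal (YW y R s.2 s.1)) (measurable_YW y R).ennreal_ofReal
    (ENNReal.ofReal (1 + k ^ (1 / 4 : ℝ) * h)) (by
      intro s hs
      have h1 := H2 h hh hh' L y R s.1 s.2 hs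
      rw [ENNReal.ofReal_mul hA] at h1
      exact h1) n (G, σ)
  rw [ENNReal.ofReal_mul (pow_nonneg hA n), ENNReal.ofReal_pow hA]
  have hset : {ω : ℕ → boxS d L → E N | ∀ j, j < n → (∀ x, ω j x ∈ gdE hN h) ∧
            RegG k y R (traj (st3 hN β k h L) G ω j)} =
      {ω : ℕ → boxS d L → E N | ∀ j, j < n →
        ω j ∈ {ζ : boxS d L → E N | ∀ x, ζ x ∈ gdE hN h} ∧
        traj (est hN c C' β k h L y R) (G, σ) ω j ∈
          {s : ((boxS d L → E N) × (boxS d L → E N)) × (boxS d L → ℝ) | RegG k y R s.1}} := by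
    ext ω
    simp only [Set.mem_ofPred_eq]
    refine forall_congr' fun j => imp_congr_right fun _ => and_congr Iff.rfl ?_
    rw [est_fst]
  rw [hset]
  exact key

end DynG

end

/-! ### from `Lib_MP_36b788g.PathC3` -/

section

/-!
# Contraction along regular paths

PROOF of `path_contr`. `c, C'` from `z_iter`, `c0, C0` from `occ_all`; `A1 = cC0`, `a = c c0/(2A1+1)`, `A = A1/(2A1+1)`, `k < k0`, `S = PS3`. `σ_j = (traj est (G,0) ω j).2`, `χ_j = chi c β C' y R (tr j)`; `est_snd` gives the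
recursion of `sig_low`, `est_fst` identifies the first component with `tr`.
(1) `z_iter` with `σ = 0`, `n = m`: `∫⁻_{good, RegG at j<m}YW(σ_m, tr m) ≤ (1+k^{1/4}h)^mQ² ≤ 2Q²` (`k^{1/4}(T ell+1) ≤ log 2`). Markov: outside probability `≤ 2k`: `YW(σ_m, tr m) ≤ k^{-1}Q²` (for `Q = 0`: `YW = 0` a.e. there, i.e. the
exceptional set `{YW > 0}` is null).
(2) `occ_all`: outside probability `k^{1/2}`: for all `x'` in the ball and `s ≤ t ≤ m`: `Σ_{[s,t)}hχ_j x' ≥ c c0(t-s)h-cC0ell`.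
(3) `sig_low` (`ℓ = ell k`, `c := c c0`, `C0 := A1`; `χ ≥ 0` in the ball; `χ ≥ -C'`): `σ_m x ≥ min(a m h-A ell, (R-ρ0)ell/2-C'mh)`.
(4) `x` is in the ball (`ρ0 ≤ R`), one term of `YW`: `e^{σ_m x}Zr ≤ k^{-1}Q²`, and `‖D x‖² = Zr·‖(tr m).1 x‖‖(tr m).2 x‖ ≤ k^{-1/8}Zr` (`RegG` at `m`; both are nonzero). So `‖D x‖² ≤ k^{-9/8}e^{-σ_m x}Q²`,
`e^{-σ_m x} ≤ k^{min(a m h/ell-A, (R-ρ0)/2-C'mh/ell)}`, square root: `‖D x‖ ≤ k^{-9/16+min/2}Q ≤ k^{min/2-1}Q`. Exceptional probability `2k+k^{1/2} ≤ k^{1/4}`.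
-/

open MeasureTheory ProbabilityTheory
open scoped ENNReal

namespace DynG

open Dyn DynS DynC

private theorem PathC3_exp {k a : ℝ} (hk : 0 < k) : k ^ a = Real.exp (-(a * ell k)) := by
  unfold ell
  rw [Real.rpow_def_of_pos hk, one_div, Real.log_inv]
  congr 1
  ring

private theorem PathC3_le {k a b : ℝ} (hk : 0 < k) (hk1 : k < 1) (h : b ≤ a) : k ^ a ≤ k ^ b :=
  Real.rpow_le_rpow_of_exponent_ge hk hk1.le h

private theorem PathC3_small {k T : ℝ} (hk : 0 < k) (hk1 : k < 1) (hT : 1 ≤ T)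
    (h8 : k ^ (1 / 8 : ℝ) ≤ 1 / (2 * (8 * T + 1))) :
    k ^ (1 / 4 : ℝ) * (T * ell k + 1) ≤ 1 / 2 := by
  have h1 : ell k ≤ 8 * k ^ (-(1 / 8) : ℝ) := by
    have h2 := Real.log_le_rpow_div (x := 1 / k) (by positivity) (ε := 1 / 8) (by norm_num)
    have h3 : (1 / k) ^ (1 / 8 : ℝ) = k ^ (-(1 / 8) : ℝ) := by
      rw [one_div, Real.inv_rpow hk.le, Real.rpow_neg hk.le]
    rw [h3] at h2
    unfold ell
    linarith
  have h4 : k ^ (1 / 4 : ℝ) * k ^ (-(1 / 8) : ℝ) = k ^ (1 / 8 : ℝ) := by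
    rw [← Real.rpow_add hk]
    norm_num
  have h5 : k ^ (1 / 4 : ℝ) ≤ k ^ (1 / 8 : ℝ) := PathC3_le hk hk1 (by norm_num)
  have h6 : 0 < k ^ (1 / 4 : ℝ) := Real.rpow_pos_of_pos hk _
  rw [le_div_iff₀ (by positivity)] at h8
  calc k ^ (1 / 4 : ℝ) * (T * ell k + 1)
      ≤ k ^ (1 / 4 : ℝ) * (T * (8 * k ^ (-(1 / 8) : ℝ)) + 1) := by
        refine mul_le_mul_of_nonneg_left ?_ h6.le
        have := mul_le_mul_of_nonneg_left h1 (by linarith : (0 : ℝ) ≤ T)
        linarith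
    _ = 8 * T * (k ^ (1 / 4 : ℝ) * k ^ (-(1 / 8) : ℝ)) + k ^ (1 / 4 : ℝ) := by ring
    _ ≤ 8 * T * k ^ (1 / 8 : ℝ) + k ^ (1 / 8 : ℝ) := by
        rw [h4]
        linarith
    _ ≤ 1 / 2 := by linarith

private theorem PathC3_markov {Ω : Type} [MeasurableSpace Ω] (μ : Measure Ω) (E : Set Ω)
    (f : Ω → ℝ) (hf : Measurable f) (k Q : ℝ) (hk : 0 < k) (hQ : 0 ≤ Q)
    (hint : ∫⁻ ω in E, ENNReal.ofReal (f ω) ∂μ ≤ ENNReal.ofReal (2 * Q ^ 2)) :
    μ ({ω | k⁻¹ * Q ^ 2 < f ω} ∩ E) ≤ ENNReal.ofReal (2 * k) := by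
  have hS : MeasurableSet {ω | k⁻¹ * Q ^ 2 < f ω} := measurableSet_lt measurable_const hf
  rw [← Measure.restrict_apply hS]
  rcases eq_or_lt_of_le hQ with h0 | h0
  · rw [← h0] at hint ⊢
    have h1 : ∫⁻ ω in E, ENNReal.ofReal (f ω) ∂μ = 0 := by
      refine le_antisymm (hint.trans ?_) bot_le
      simp
    have h2 := (lintegral_eq_zero_iff hf.ennreal_ofReal).1 h1
    have h3 : (μ.restrict E) {ω | k⁻¹ * (0 : ℝ) ^ 2 < f ω} = 0 := by
      refine measure_mono_null ?_ h2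
      intro ω hω hcon
      have h4 : 0 < f ω := by
        have h5 : k⁻¹ * (0 : ℝ) ^ 2 < f ω := hω
        simpa using h5
      have h6 : ENNReal.ofReal (f ω) = 0 := hcon
      rw [ENNReal.ofReal_eq_zero] at h6
      linarith
    rw [h3]
    exact bot_le
  · have ht : 0 < k⁻¹ * Q ^ 2 := by positivity
    have h1 := mul_meas_ge_le_lintegral (μ := μ.restrict E) hf.ennreal_ofReal
      (ENNReal.ofReal (k⁻¹ * Q ^ 2))
    have hpos : ENNReal.ofReal (k⁻¹ * Q ^ 2) ≠ 0 := (ENNReal.ofReal_pos.2 ht).ne'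
    have h3 : (μ.restrict E) {ω | ENNReal.ofReal (k⁻¹ * Q ^ 2) ≤ ENNReal.ofReal (f ω)} ≤
        ENNReal.ofReal (2 * Q ^ 2) / ENNReal.ofReal (k⁻¹ * Q ^ 2) := by
      rw [ENNReal.le_div_iff_mul_le (Or.inl hpos) (Or.inl ENNReal.ofReal_ne_top), mul_comm]
      exact h1.trans hint
    refine (measure_mono ?_).trans (h3.trans ?_)
    · intro ω hω
      exact ENNReal.ofReal_le_ofReal (le_of_lt hω)
    · rw [← ENNReal.ofReal_div_of_pos ht]
      refine ENNReal.ofReal_le_ofReal (le_of_eq ?_)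
      field_simp

private theorem PathC3_Zr {N : ℕ} (g g' : E N) : 0 ≤ Zr g g' := by
  unfold Zr
  positivity

private theorem PathC3_det {N d L : ℕ} {k : ℝ} (hk : 0 < k) (hk1 : k < 1) (y x : boxS d L) (R : ℕ)
    (σ : boxS d L → ℝ) (G : (boxS d L → E N) × (boxS d L → E N)) (hR : RegG k y R G)
    (hx : (boxNet d L).dist x y ≤ R) (Q M : ℝ) (hQ : 0 ≤ Q)
    (hY : YW y R σ G ≤ k⁻¹ * Q ^ 2) (hσ : M * ell k ≤ σ x) :
    ‖G.1 x - G.2 x‖ ≤ k ^ (M / 2 - 1) * Q := by
  have h1 : Real.exp (σ x) * Zr (G.1 x) (G.2 x) ≤ YW y R σ G := by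
    have h2 := Finset.single_le_sum
      (f := fun x => Real.exp (σ x) * (if (boxNet d L).dist x y ≤ R then Zr (G.1 x) (G.2 x)
        else ‖G.1 x - G.2 x‖ ^ 2))
      (fun v _ => by
        refine mul_nonneg (Real.exp_pos _).le ?_
        split_ifs
        · exact PathC3_Zr _ _
        · positivity) (Finset.mem_univ x)
    unfold YW
    refine le_trans ?_ h2
    show _ ≤ Real.exp (σ x) * (if (boxNet d L).dist x y ≤ R then Zr (G.1 x) (G.2 x)
        else ‖G.1 x - G.2 x‖ ^ 2)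
    rw [if_pos hx]
  obtain ⟨hl1, hl2⟩ := hR.1 x hx
  obtain ⟨hu1, hu2⟩ := hR.2 x (by omega)
  have hk4 : 0 < k ^ (1 / 4 : ℝ) := Real.rpow_pos_of_pos hk _
  have hp1 : 0 < ‖G.1 x‖ := lt_of_lt_of_le hk4 hl1
  have hp2 : 0 < ‖G.2 x‖ := lt_of_lt_of_le hk4 hl2
  have h3 : ‖G.1 x - G.2 x‖ ^ 2 = Zr (G.1 x) (G.2 x) * (‖G.1 x‖ * ‖G.2 x‖) := by
    unfold Zr
    rw [div_mul_cancel₀]
    positivity
  have h4 : ‖G.1 x‖ * ‖G.2 x‖ ≤ k ^ (-(1 / 8) : ℝ) := by
    calc ‖G.1 x‖ * ‖G.2 x‖ ≤ k ^ (-(1 / 16) : ℝ) * k ^ (-(1 / 16) : ℝ) :=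
          mul_le_mul hu1 hu2 hp2.le (Real.rpow_pos_of_pos hk _).le
      _ = k ^ (-(1 / 8) : ℝ) := by
          rw [← Real.rpow_add hk]
          norm_num
  have h5 : Zr (G.1 x) (G.2 x) ≤ k ^ M * (k⁻¹ * Q ^ 2) := by
    have h6 : Real.exp (σ x) * Zr (G.1 x) (G.2 x) ≤ k⁻¹ * Q ^ 2 := h1.trans hY
    have h7 : Real.exp (-(σ x)) ≤ k ^ M := by
      rw [PathC3_exp hk]
      exact Real.exp_le_exp.2 (by linarith)
    calc Zr (G.1 x) (G.2 x) = Real.exp (-(σ x)) * (Real.exp (σ x) * Zr (G.1 x) (G.2 x)) := by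
          rw [← mul_assoc, ← Real.exp_add, neg_add_cancel, Real.exp_zero, one_mul]
      _ ≤ Real.exp (-(σ x)) * (k⁻¹ * Q ^ 2) := mul_le_mul_of_nonneg_left h6 (Real.exp_pos _).le
      _ ≤ k ^ M * (k⁻¹ * Q ^ 2) := mul_le_mul_of_nonneg_right h7 (by positivity)
  have h8 : ‖G.1 x - G.2 x‖ ^ 2 ≤ (k ^ (M / 2 - 1) * Q) ^ 2 := by
    have hM : 0 < k ^ M := Real.rpow_pos_of_pos hk _
    calc ‖G.1 x - G.2 x‖ ^ 2 = Zr (G.1 x) (G.2 x) * (‖G.1 x‖ * ‖G.2 x‖) := h3
      _ ≤ (k ^ M * (k⁻¹ * Q ^ 2)) * k ^ (-(1 / 8) : ℝ) :=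
          mul_le_mul h5 h4 (by positivity) (by positivity)
      _ = k ^ (M + (-1) + (-(1 / 8) : ℝ)) * Q ^ 2 := by
          rw [Real.rpow_add hk, Real.rpow_add hk, Real.rpow_neg_one]
          ring
      _ ≤ k ^ (M - 2) * Q ^ 2 :=
          mul_le_mul_of_nonneg_right (PathC3_le hk hk1 (by linarith)) (by positivity)
      _ = (k ^ (M / 2 - 1) * Q) ^ 2 := by
          rw [mul_pow, ← Real.rpow_natCast (k ^ (M / 2 - 1)), ← Real.rpow_mul hk.le]
          congr 2
          push_cast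
          ring
  exact (sq_le_sq₀ (norm_nonneg _) (by positivity)).mp h8

theorem path_contr (N d : ℕ) (hN : 3 ≤ N) (β : ℝ) (hβ : 0 < β) : ∃ a A C' : ℝ, 0 < a ∧ a ≤ 1 ∧
    0 < A ∧ A ≤ 1 ∧ 0 < C' ∧ ∀ (T : ℝ) (R : ℕ), 1 ≤ T → ∃ k0 : ℝ, 0 < k0 ∧ k0 < 1 ∧
    ∀ (k : ℝ) (hk : 0 < k), k < k0 → ∃ h0 : ℝ, 0 < h0 ∧ ∀ h, 0 < h → h < h0 →
    ∀ (L : ℕ) (G : (boxS d L → E N) × (boxS d L → E N)) (x y : boxS d L) (m : ℕ) (Q ρ0 : ℝ),
      m * h ≤ T * ell k + 1 → 0 ≤ Q → YW y R (fun _ => 0) G ≤ Q ^ 2 →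
      (boxNet d L).dist x y ≤ ρ0 → ρ0 ≤ R →
      PI ((PS3 N d hN β k hβ hk.le).mu L) {ω | (∀ j, j < m → ∀ v, ω j v ∈ gdE hN h) ∧
        (∀ j, j ≤ m → RegG k y R ((PS3 N d hN β k hβ hk.le).tr h L G ω j)) ∧
        k ^ (min (a * (m * h) / ell k - A) ((R - ρ0) / 2 - C' * (m * h) / ell k) / 2 - 1) * Q <
          ‖((PS3 N d hN β k hβ hk.le).tr h L G ω m).1 x -
            ((PS3 N d hN β k hβ hk.le).tr h L G ω m).2 x‖} ≤
        ENNReal.ofReal (k ^ (1 / 4 : ℝ)) := by
  classical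
  obtain ⟨c, C', kz, hc, hc1, hC', hkz, hkz1, HZ⟩ := z_iter N d hN β hβ
  obtain ⟨c0, C0, hc0, hC0, HO⟩ := occ_all N d hN β hβ
  set A1 : ℝ := c * C0 with hA1
  have hA10 : 0 < A1 := by positivity
  set a' : ℝ := c * c0 / (2 * A1 + 1) with ha'
  have ha'0 : 0 < a' := by positivity
  refine ⟨min 1 a', A1 / (2 * A1 + 1), C', by positivity, min_le_left _ _, by positivity, ?_, hC',
    ?_⟩
  · rw [div_le_one (by positivity)]
    linarith
  intro T R hT
  obtain ⟨ko, hko, hko1, HO1⟩ := HO T R hT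
  refine ⟨min (min kz ko) (min ((1 / (2 * (8 * T + 1))) ^ (8 : ℕ)) ((1 / 2) ^ (4 : ℕ))),
    by positivity, (min_le_left _ _).trans_lt ((min_le_left _ _).trans_lt hkz1), ?_⟩
  intro k hk hkk
  have hkz' : k < kz := hkk.trans_le ((min_le_left _ _).trans (min_le_left _ _))
  have hko' : k < ko := hkk.trans_le ((min_le_left _ _).trans (min_le_right _ _))
  have hk8' : k ≤ (1 / (2 * (8 * T + 1))) ^ (8 : ℕ) :=
    hkk.le.trans ((min_le_right _ _).trans (min_le_left _ _))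
  have hk4' : k ≤ (1 / 2) ^ (4 : ℕ) :=
    hkk.le.trans ((min_le_right _ _).trans (min_le_right _ _))
  have hk1 : k < 1 := hkz'.trans hkz1
  have hell : 0 < ell k := ell_pos hk hk1
  have hk8 : k ^ (1 / 8 : ℝ) ≤ 1 / (2 * (8 * T + 1)) := by
    calc k ^ (1 / 8 : ℝ) ≤ ((1 / (2 * (8 * T + 1))) ^ (8 : ℕ)) ^ (1 / 8 : ℝ) :=
          Real.rpow_le_rpow hk.le hk8' (by norm_num)
      _ = 1 / (2 * (8 * T + 1)) := by
          rw [← Real.rpow_natCast, ← Real.rpow_mul (by positivity)]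
          norm_num
  have hk4 : k ^ (1 / 4 : ℝ) ≤ 1 / 2 := by
    calc k ^ (1 / 4 : ℝ) ≤ ((1 / 2 : ℝ) ^ (4 : ℕ)) ^ (1 / 4 : ℝ) :=
          Real.rpow_le_rpow hk.le hk4' (by norm_num)
      _ = 1 / 2 := by
          rw [← Real.rpow_natCast, ← Real.rpow_mul (by norm_num)]
          norm_num
  have hsmall := PathC3_small hk hk1 hT hk8
  obtain ⟨h1, hh1, hh1', HZ1⟩ := HZ k hk hkz'
  obtain ⟨h2, hh2, hh2', HO2⟩ := HO1 (Fam1 N d β k) k (PS3 N d hN β k hβ hk.le) hk hko' (bnoise3 hN)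
  refine ⟨min h1 h2, lt_min hh1 hh2, ?_⟩
  intro h hh hlt L G x y m Q ρ0 hm hQ hYQ hxy hρR
  have hlt1 : h < h1 := hlt.trans_le (min_le_left _ _)
  have hlt2 : h < h2 := hlt.trans_le (min_le_right _ _)
  have hxR : (boxNet d L).dist x y ≤ R := by exact_mod_cast hxy.trans hρR
  set μ : Measure (ℕ → boxS d L → E N) := PI (Measure.pi fun _ : boxS d L => stdGaussian (E N))
    with hμ
  set s0 : ((boxS d L → E N) × (boxS d L → E N)) × (boxS d L → ℝ) := (G, fun _ => 0) with hs0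
  set EE : Set (ℕ → boxS d L → E N) := {ω | ∀ j, j < m → (∀ x, ω j x ∈ gdE hN h) ∧
            RegG k y R (traj (st3 hN β k h L) G ω j)} with hEE
  set f : (ℕ → boxS d L → E N) → ℝ := fun ω => YW y R
    (traj (est hN c C' β k h L y R) s0 ω m).2 (traj (est hN c C' β k h L y R) s0 ω m).1 with hf
  have hfm : Measurable f := by
    have h3 : Measurable fun ω : ℕ → boxS d L → E N => traj (est hN c C' β k h L y R) s0 ω m :=
      (measurable_traj (est hN c C' β k h L y R) (measurable_est hN c C' β k h L y R) m).comp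
        (measurable_const.prodMk measurable_id)
    exact (measurable_YW y R).comp h3
  have hint : ∫⁻ ω in EE, ENNReal.ofReal (f ω) ∂μ ≤ ENNReal.ofReal (2 * Q ^ 2) := by
    refine (HZ1 h hh hlt1 L y R m G (fun _ => 0)).trans (ENNReal.ofReal_le_ofReal ?_)
    have h3 : (1 + k ^ (1 / 4 : ℝ) * h) ^ m ≤ 2 := by
      have h4 : 1 + k ^ (1 / 4 : ℝ) * h ≤ Real.exp (k ^ (1 / 4 : ℝ) * h) := by
        have := Real.add_one_le_exp (k ^ (1 / 4 : ℝ) * h)
        linarith
      have h5 : 0 ≤ 1 + k ^ (1 / 4 : ℝ) * h := by positivity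
      calc (1 + k ^ (1 / 4 : ℝ) * h) ^ m ≤ (Real.exp (k ^ (1 / 4 : ℝ) * h)) ^ m :=
            pow_le_pow_left₀ h5 h4 m
        _ = Real.exp (k ^ (1 / 4 : ℝ) * (m * h)) := by
            rw [← Real.exp_nat_mul]
            congr 1
            ring
        _ ≤ Real.exp (1 / 2) := by
            refine Real.exp_le_exp.2 (le_trans ?_ hsmall)
            exact mul_le_mul_of_nonneg_left hm (Real.rpow_pos_of_pos hk _).le
        _ ≤ 2 := by
            have h6 := Real.add_one_le_exp (-(1 / 2) : ℝ)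
            have h7 : Real.exp (1 / 2) * Real.exp (-(1 / 2)) = 1 := by
              rw [← Real.exp_add]
              norm_num
            have h8 := Real.exp_pos (1 / 2 : ℝ)
            nlinarith
    have h4 : 0 ≤ (1 + k ^ (1 / 4 : ℝ) * h) ^ m := by positivity
    exact mul_le_mul h3 hYQ (by
      unfold YW
      refine Finset.sum_nonneg fun v _ => mul_nonneg (Real.exp_pos _).le ?_
      split_ifs
      · exact PathC3_Zr _ _
      · positivity) (by norm_num)
  have hM := PathC3_markov μ EE f hfm k Q hk hQ hint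
  have hO := HO2 h hh hlt2 L y m G hm
  -- the event is contained in the union
  set S := PS3 N d hN β k hβ hk.le with hS
  have hsub : {ω : ℕ → boxS d L → E N | (∀ j, j < m → ∀ v, ω j v ∈ gdE hN h) ∧
        (∀ j, j ≤ m → RegG k y R (S.tr h L G ω j)) ∧
        k ^ (min (min 1 a' * (m * h) / ell k - A1 / (2 * A1 + 1))
          ((R - ρ0) / 2 - C' * (m * h) / ell k) / 2 - 1) * Q <
          ‖(S.tr h L G ω m).1 x - (S.tr h L G ω m).2 x‖} ⊆
      ({ω | k⁻¹ * Q ^ 2 < f ω} ∩ EE) ∪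
      {ω | (∀ j, j < m → (∀ v, ω j v ∈ S.gd h) ∧ RegG k y R (S.tr h L G ω j)) ∧
        ∃ x, (boxNet d L).dist x y ≤ R ∧ ∃ s t, s ≤ t ∧ t ≤ m ∧
          ∑ j ∈ Finset.Ico s t, h * min 1 (mn (S.tr h L G ω j) x ^ β) <
            c0 * ((t - s : ℕ) : ℝ) * h - C0 * ell k} := by
    intro ω hω
    obtain ⟨hg, hr, hlt3⟩ := hω
    by_contra hcon
    rw [Set.mem_union, not_or] at hcon
    obtain ⟨hc1', hc2⟩ := hcon
    have hE : ω ∈ EE := fun j hj => ⟨hg j hj, hr j hj.le⟩
    have hfω : f ω ≤ k⁻¹ * Q ^ 2 := by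
      by_contra h3
      exact hc1' ⟨not_le.1 h3, hE⟩
    have hocc : ∀ x, (boxNet d L).dist x y ≤ R → ∀ s t, s ≤ t → t ≤ m →
        c0 * ((t - s : ℕ) : ℝ) * h - C0 * ell k ≤
          ∑ j ∈ Finset.Ico s t, h * min 1 (mn (S.tr h L G ω j) x ^ β) := by
      intro x' hx' s t hst htm
      by_contra h3
      exact hc2 ⟨fun j hj => ⟨hg j hj, hr j hj.le⟩, x', hx', s, t, hst, htm, not_le.1 h3⟩
    -- weights
    set σ : ℕ → boxS d L → ℝ := fun j => (traj (est hN c C' β k h L y R) s0 ω j).2 with hσdef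
    set χ : ℕ → boxS d L → ℝ := fun j => chi c β C' y R (traj (st3 hN β k h L) G ω j) with hχdef
    have hmn : ∀ j x', 0 ≤ min 1 (mn (traj (st3 hN β k h L) G ω j) x' ^ β) := by
      intro j x'
      refine le_min zero_le_one (Real.rpow_nonneg ?_ _)
      exact le_min (norm_nonneg _) (norm_nonneg _)
    have hpos : ∀ j x', (boxNet d L).dist x' y ≤ R → 0 ≤ χ j x' := by
      intro j x' hx'
      show 0 ≤ chi c β C' y R (traj (st3 hN β k h L) G ω j) x'
      unfold chi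
      rw [if_pos hx']
      exact mul_nonneg hc.le (hmn j x')
    have hneg : ∀ j x', -C' ≤ χ j x' := by
      intro j x'
      by_cases hx' : (boxNet d L).dist x' y ≤ R
      · have := hpos j x' hx'
        linarith
      · show -C' ≤ chi c β C' y R (traj (st3 hN β k h L) G ω j) x'
        unfold chi
        rw [if_neg hx']
    have hlow := sig_low (boxNet d L) hell hh (by positivity : 0 < c * c0) hA10 hC'.le χ σ
      (fun j x' => by
        have h3 := est_snd hN c C' β k h L y R s0 ω j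
        exact congrFun h3 x') (fun x' => rfl) m y R
      (by
        intro x' hx' s t hst htm
        have h3 := mul_le_mul_of_nonneg_left (hocc x' hx' s t hst htm) hc.le
        have h4 : ∑ j ∈ Finset.Ico s t, h * χ j x' =
            c * ∑ j ∈ Finset.Ico s t, h * min 1 (mn (S.tr h L G ω j) x' ^ β) := by
          rw [Finset.mul_sum]
          refine Finset.sum_congr rfl fun j _ => ?_
          show h * chi c β C' y R (traj (st3 hN β k h L) G ω j) x' = _
          unfold chi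
          rw [if_pos hx']
          show h * (c * min 1 (mn (traj (st3 hN β k h L) G ω j) x' ^ β)) =
            c * (h * min 1 (mn (traj (st3 hN β k h L) G ω j) x' ^ β))
          ring
        rw [h4]
        refine le_trans (le_of_eq ?_) h3
        rw [hA1]
        ring) hpos hneg ρ0 x hxy
    have hRm : RegG k y R (traj (est hN c C' β k h L y R) s0 ω m).1 := by
      rw [est_fst]
      exact hr m le_rfl
    have hdet := PathC3_det hk hk1 y x R (σ m) (traj (est hN c C' β k h L y R) s0 ω m).1 hRm hxR Q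
      (min (min 1 a' * (m * h) / ell k - A1 / (2 * A1 + 1))
          ((R - ρ0) / 2 - C' * (m * h) / ell k)) hQ hfω ?_
    · rw [est_fst] at hdet
      exact absurd hlt3 (not_lt.2 hdet)
    · refine le_trans ?_ hlow
      refine le_min ?_ ?_
      · have h3 : min (min 1 a' * (m * h) / ell k - A1 / (2 * A1 + 1))
          ((R - ρ0) / 2 - C' * (m * h) / ell k) ≤ a' * (m * h) / ell k - A1 / (2 * A1 + 1) := by
          refine (min_le_left _ _).trans ?_
          have h4 : min 1 a' * (m * h) / ell k ≤ a' * (m * h) / ell k := by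
            refine div_le_div_of_nonneg_right ?_ hell.le
            exact mul_le_mul_of_nonneg_right (min_le_right _ _) (by positivity)
          linarith
        refine (mul_le_mul_of_nonneg_right h3 hell.le).trans (le_of_eq ?_)
        rw [ha']
        field_simp
      · refine (mul_le_mul_of_nonneg_right (min_le_right _ _) hell.le).trans (le_of_eq ?_)
        field_simp
  refine (measure_mono hsub).trans ((measure_union_le _ _).trans ?_)
  refine (add_le_add hM hO).trans ?_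
  rw [← ENNReal.ofReal_add (by positivity) (by positivity)]
  refine ENNReal.ofReal_le_ofReal ?_
  have h3 : k ^ (1 / 2 : ℝ) = k ^ (1 / 4 : ℝ) * k ^ (1 / 4 : ℝ) := by
    rw [← Real.rpow_add hk]
    norm_num
  have h4 : k = k ^ (1 / 4 : ℝ) * k ^ (1 / 4 : ℝ) * (k ^ (1 / 4 : ℝ) * k ^ (1 / 4 : ℝ)) := by
    rw [← Real.rpow_add hk, ← Real.rpow_add hk]
    norm_num
  have h5 : 0 < k ^ (1 / 4 : ℝ) := Real.rpow_pos_of_pos hk _
  have h6 : k ^ (1 / 4 : ℝ) * k ^ (1 / 4 : ℝ) ≤ 1 / 2 * k ^ (1 / 4 : ℝ) :=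
    mul_le_mul_of_nonneg_right hk4 h5.le
  have h7 : k ≤ 1 / 4 * k ^ (1 / 4 : ℝ) := by
    calc k = (k ^ (1 / 4 : ℝ) * k ^ (1 / 4 : ℝ)) * (k ^ (1 / 4 : ℝ) * k ^ (1 / 4 : ℝ)) := h4
      _ ≤ (1 / 2 * k ^ (1 / 4 : ℝ)) * (1 / 2 * k ^ (1 / 4 : ℝ)) :=
          mul_le_mul h6 h6 (by positivity) (by positivity)
      _ = 1 / 4 * (k ^ (1 / 4 : ℝ) * k ^ (1 / 4 : ℝ)) := by ring
      _ ≤ 1 / 4 * (1 / 2 * k ^ (1 / 4 : ℝ)) := mul_le_mul_of_nonneg_left h6 (by norm_num)
      _ ≤ 1 / 4 * k ^ (1 / 4 : ℝ) := by linarith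
  rw [h3]
  linarith

end DynG

end

/-! ### from `Lib_MP_36b788g.FGv` -/

section

/-!
# The fields `gV` and `gD` of a block for `N ≥ 3`

PROOF.
* `gv3`: `V_sq`, `sm_multi` with `s := 2·(1/16/ell k) = 1/8/ell k` (`8 q s ≤ 1` and `C9 (s/ell + s²)(T ell + 1) ≤ C9 (1/8 + 1/64)(T+1)/ell ≤ log 2` for small `k`), `n h ≤ T ell + h ≤ T ell + 1`.
* `gd3`: `gD3` with `a` and with `2a` (`a0` half of the one of `gD3`): `2·((2a)/ell) = 4 (a/ell)`, `exp(C 2a T) = (exp(C a T))²`, `3/2·(2a) = 3a`; `n ≤ ⌈T ell/h⌉₊` gives `n h ≤ T ell + h`.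
-/

open MeasureTheory ProbabilityTheory
open scoped ENNReal

namespace DynG

open Dyn DynC

private theorem FGv_nh {T l h : ℝ} {n : ℕ} (hT : 0 ≤ T) (hl : 0 ≤ l) (hh : 0 < h) (hh1 : h ≤ 1)
    (hn : n ≤ ⌈T * l / h⌉₊) : (n : ℝ) * h ≤ T * l + 1 := by
  have h1 : (n : ℝ) ≤ T * l / h + 1 := by
    calc (n : ℝ) ≤ (⌈T * l / h⌉₊ : ℝ) := by exact_mod_cast hn
      _ ≤ T * l / h + 1 := (Nat.ceil_lt_add_one (by positivity)).le
  calc (n : ℝ) * h ≤ (T * l / h + 1) * h := by gcongr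
    _ = T * l + h := by field_simp
    _ ≤ T * l + 1 := by linarith

private theorem FGv_ell {k R : ℝ} (hk : 0 < k) (h : k < Real.exp (-R)) : R ≤ ell k := by
  unfold ell
  rw [one_div, Real.log_inv]
  have h1 : Real.log k ≤ -R := by
    rw [← Real.log_exp (-R)]
    exact Real.log_le_log hk h.le
  linarith

private theorem FGv_two {C9 T l : ℝ} {nh : ℝ} (hC : 0 < C9) (hT : 1 ≤ T) (hl1 : 1 ≤ l)
    (hl : C9 * (T + 1) / Real.log 2 ≤ l) (hnh : nh ≤ T * l + 1) :
    Real.exp (C9 * ((2 * (1 / 16 / l)) / l + (2 * (1 / 16 / l)) ^ 2) * nh) ≤ 2 := by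
  have hl0 : 0 < l := by linarith
  have hlog : 0 < Real.log 2 := Real.log_pos (by norm_num)
  have h1 : (2 * (1 / 16 / l)) / l + (2 * (1 / 16 / l)) ^ 2 = 9 / 64 / l ^ 2 := by
    field_simp
    norm_num
  have h2 : nh ≤ (T + 1) * l := by nlinarith
  have h3 : C9 * (9 / 64 / l ^ 2) * nh ≤ Real.log 2 := by
    have h4 : C9 * (9 / 64 / l ^ 2) * nh ≤ C9 * (9 / 64 / l ^ 2) * ((T + 1) * l) := by
      gcongr
    have h5 : C9 * (9 / 64 / l ^ 2) * ((T + 1) * l) = 9 / 64 * (C9 * (T + 1) / l) := by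
      field_simp
    have h6 : C9 * (T + 1) / l ≤ Real.log 2 := by
      rw [div_le_iff₀ hlog] at hl
      rw [div_le_iff₀ hl0]
      linarith
    have h7 : 0 ≤ C9 * (T + 1) / l := by positivity
    linarith
  rw [h1]
  calc Real.exp (C9 * (9 / 64 / l ^ 2) * nh) ≤ Real.exp (Real.log 2) := Real.exp_le_exp.2 h3
    _ = 2 := Real.exp_log (by norm_num)

theorem gv3 (N d : ℕ) (β : ℝ) (hN : 2 ≤ N) (hβ : 0 < β) : ∃ q0 : ℝ, 1 ≤ q0 ∧
    ∀ q, q0 ≤ q → ∀ T : ℝ, 1 ≤ T → ∃ k0 : ℝ, 0 < k0 ∧ k0 < 1 ∧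
    ∀ (F : Fam d) (k : ℝ) (S : PSys F β k), 0 < k → k < k0 → BNoise N S.ν S.b S.gd →
    ∃ h0 : ℝ, 0 < h0 ∧ ∀ h, 0 < h → h < h0 → ∀ (L : ℕ) (G : (boxS d L → F.V) × (boxS d L → F.V))
      (n : ℕ), n ≤ ⌈T * ell k / h⌉₊ → ∀ x : boxS d L,
      ∫⁻ ω in S.alv h L G n, V1 k q (1 / 16 / ell k) (S.tr h L G ω n) x ^ 2 ∂(PI (S.mu L))
          ≤ ENNReal.ofReal 2 * V1 k q (1 / 16 / ell k) G x ^ 2 ∧
      ∫⁻ ω in S.alv h L G n, V2 k q (1 / 16 / ell k) (S.tr h L G ω n) x ^ 2 ∂(PI (S.mu L))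
          ≤ ENNReal.ofReal 2 * V2 k q (1 / 16 / ell k) G x ^ 2 := by
  obtain ⟨q0, hq0, H⟩ := sm_multi N d β hN hβ
  refine ⟨q0, hq0, ?_⟩
  intro q hq T hT
  obtain ⟨C9, k0, hC9, hk0, hk01, H1⟩ := H q hq
  have hlog : 0 < Real.log 2 := Real.log_pos (by norm_num)
  have hq1 : 1 ≤ q := hq0.trans hq
  have hR : 0 ≤ C9 * (T + 1) / Real.log 2 := by positivity
  refine ⟨min k0 (Real.exp (-(q + C9 * (T + 1) / Real.log 2))),
    lt_min hk0 (Real.exp_pos _), lt_of_le_of_lt (min_le_left _ _) hk01, ?_⟩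
  intro F k S hk hkk hB
  have hkk0 : k < k0 := lt_of_lt_of_le hkk (min_le_left _ _)
  have hell : q + C9 * (T + 1) / Real.log 2 ≤ ell k :=
    FGv_ell hk (lt_of_lt_of_le hkk (min_le_right _ _))
  have hell1 : 1 ≤ ell k := by linarith
  have hell0 : 0 < ell k := by linarith
  have hs : 0 < 2 * (1 / 16 / ell k) := by positivity
  have hqs : 8 * q * (2 * (1 / 16 / ell k)) ≤ 1 := by
    have h1 : 8 * q * (2 * (1 / 16 / ell k)) = q / ell k := by
      field_simp
      norm_num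
    rw [h1, div_le_one hell0]
    linarith
  obtain ⟨h0, hh0, H2⟩ := H1 F k S hk hkk0 hB (2 * (1 / 16 / ell k)) hs hqs
  refine ⟨min h0 1, lt_min hh0 one_pos, ?_⟩
  intro h hh hhh L G n hn x
  have hhh0 : h < h0 := lt_of_lt_of_le hhh (min_le_left _ _)
  have hh1 : h ≤ 1 := (lt_of_lt_of_le hhh (min_le_right _ _)).le
  have hnh : (n : ℝ) * h ≤ T * ell k + 1 := FGv_nh (by linarith) hell0.le hh hh1 hn
  have hexp := FGv_two (nh := (n : ℝ) * h) hC9 hT hell1 (by linarith) hnh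
  have H3 := H2 h hh hhh0 L G n x
  constructor
  · simp only [(V_sq k q (1 / 16 / ell k) _ x).1]
    refine H3.1.trans ?_
    gcongr
  · simp only [(V_sq k q (1 / 16 / ell k) _ x).2]
    refine H3.2.trans ?_
    gcongr

theorem gd3 (N d : ℕ) (β : ℝ) (hβ : 0 < β) : ∃ C a0 : ℝ, 0 < C ∧ 0 < a0 ∧ ∀ T : ℝ, 1 ≤ T →
    ∃ k0 : ℝ, 0 < k0 ∧ k0 < 1 ∧ ∀ (F : Fam d) (k : ℝ) (S : PSys F β k), 0 < k → k < k0 →
    BNoise N S.ν S.b S.gd → ∀ a, 0 < a → a ≤ a0 →
    ∃ h0 : ℝ, 0 < h0 ∧ ∀ h, 0 < h → h < h0 → ∀ L,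
    ∀ (G : (boxS d L → F.V) × (boxS d L → F.V)) (y : boxS d L), (∀ x, x ≠ y → G.1 x = G.2 x) →
    ∀ n : ℕ, n ≤ ⌈T * ell k / h⌉₊ → ∀ x,
      ∫⁻ ω, ENNReal.ofReal (‖(S.tr h L G ω n).1 x - (S.tr h L G ω n).2 x‖ ^ (2 * (a / ell k)))
          ∂(PI (S.mu L)) ≤
        ENNReal.ofReal (Real.exp (C * a * T) * Real.exp (-(3 / 2 * a * (boxNet d L).dist x y)) *
          ‖G.1 y - G.2 y‖ ^ (2 * (a / ell k))) ∧
      ∫⁻ ω, ENNReal.ofReal (‖(S.tr h L G ω n).1 x - (S.tr h L G ω n).2 x‖ ^ (4 * (a / ell k)))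
          ∂(PI (S.mu L)) ≤
        ENNReal.ofReal (Real.exp (C * a * T) ^ 2 *
          Real.exp (-(3 * a * (boxNet d L).dist x y)) *
          ‖G.1 y - G.2 y‖ ^ (4 * (a / ell k))) := by
  obtain ⟨C, a0, hC, ha0, H⟩ := gD3 N d β hβ
  refine ⟨C, a0 / 2, hC, by positivity, ?_⟩
  intro T hT
  obtain ⟨k0, hk0, hk01, H1⟩ := H T hT
  refine ⟨k0, hk0, hk01, ?_⟩
  intro F k S hk hkk hB a ha haa
  obtain ⟨h1, hh1, H2⟩ := H1 F k S hk hkk hB a ha (by linarith)
  obtain ⟨h2, hh2, H3⟩ := H1 F k S hk hkk hB (2 * a) (by linarith) (by linarith)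
  have hell0 : 0 ≤ ell k := by
    unfold ell
    refine Real.log_nonneg ?_
    rw [le_div_iff₀ hk]
    linarith
  refine ⟨min (min h1 h2) 1, lt_min (lt_min hh1 hh2) one_pos, ?_⟩
  intro h hh hhh L G y hG n hn x
  have e1 : h < h1 := lt_of_lt_of_le hhh ((min_le_left _ _).trans (min_le_left _ _))
  have e2 : h < h2 := lt_of_lt_of_le hhh ((min_le_left _ _).trans (min_le_right _ _))
  have e3 : h ≤ 1 := (lt_of_lt_of_le hhh (min_le_right _ _)).le
  have hnh : (n : ℝ) * h ≤ T * ell k + 1 := FGv_nh (by linarith) hell0 hh e3 hn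
  refine ⟨H2 h hh e1 L G y hG n hnh x, ?_⟩
  have H4 := H3 h hh e2 L G y hG n hnh x
  have r1 : 2 * (2 * a / ell k) = 4 * (a / ell k) := by ring
  have r2 : Real.exp (C * (2 * a) * T) = Real.exp (C * a * T) ^ 2 := by
    rw [← Real.exp_nat_mul]
    congr 1
    push_cast
    ring
  have r3 : 3 / 2 * (2 * a) * ((boxNet d L).dist x y : ℝ) = 3 * a * ((boxNet d L).dist x y : ℝ) := by
    ring
  rw [r1, r2, r3] at H4
  exact H4

end DynG

end
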