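import Pool.Agent.Lib_MP_36b788_m.M12
import Pool.Agent.Lib_MP_36b788_m.M26
import Pool.Agent.Lib_MP_36b788_m.M29
import Pool.Agent.Lib_MP_36b788_m.M30
import Pool.Agent.Lib_MP_36b788_m.M31
import Pool.Agent.Lib_MP_36b788_m.M34

/-!
# MP_36b788_pr, stationary limit: merged library part M35

Concatenation of smaller files (each in its own section), only to save build time.
-/

/-! ### from `Lib_MP_36b788g.Core3` -/

section

/-!
# Good coupling for `N ≥ 3`

`D = (tr n).1 - (tr n).2`, `D_0 = ‖G.1 y - G.2 y‖`.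

PROOF of `grow_all`: `U v = D_0k^{(3/4)dist v y}`, `k cpl U ≤ 4dk^{1/4}U ≤ U`, `grow_mean` (`C`): `E‖D v‖ ≤ e^{(C+1)(T1ell+2)}U v`. `C6 = C+4`. Markov and sum over `v` (`sum_half`, `k^{1/4} ≤ 1/2`):
`P(∃ v, ‖D v‖ > k^{-C6(T1+1)}k^{dist v y/2}D_0) ≤ Σ_ve^{(C+1)(T1ell+2)}k^{C6(T1+1)}k^{dist/4} ≤ 3^de^{2(C+1)}k^{3} ≤ k`. (`D_0 = 0`: the expectations vanish, so `D v = 0` a.e.)

PROOF of `gc3_core`. `a, A, C'` of `path_contr`, `C6` of `grow_all`, `q0` of `start3`. `C_R = 4C6+4C'+10`, `η = min(1/200, a/(640C6))`, `s1 = η/(14(C_R+2))`, `c5 = a/8`, `C5 = (2C6+1)/η+27C6+3`. Given `q, M, T, Rb`.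
(i) far sites: `dist x y > ρ0 := (4C6+2)T`: `grow_all` (time `n`, `T1 := T`): outside probability `k`: `‖D x‖ ≤ k^{-C6(T+1)+dist/2}D_0 ≤ k^{-2C6T+(2C6+1)T}D_0 ≤ k^{c5T-C5M}D_0`.
(ii) `M ≥ ηT`: `‖D x‖ ≤ k^{-C6(T+1)}D_0 ≤ k^{c5T-C5M}D_0` since `C5M ≥ (2C6+1)T`.
(iii) `M < ηT`, `dist x y ≤ ρ0`: `R = ⌈ρ0+2(C'+2)(T+1)⌉₊ ≤ C_RT+1`, `T1 = 2(7M+7s1R+6) ≤ 26M+14s1(C_RT+1) ≤ 26M+ηT ≤ 27ηT ≤ T/4`, `n1 = ⌈T1ell/h⌉₊` (`T1ell ≤ n1h ≤ T1ell+2`), `m = n-n1`, `(T/2)ell ≤ mh ≤ Tell+1`.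
On `alv n`, outside probability `k^{c}`: `start3` (at `n1`): `LowG`; `stay3`: `RegG` at all `j ∈ [n1,n]`; `grow_all` at `n1`: `‖D_{n1}v‖ ≤ k^{-C6(T1+1)}k^{dist v y/2}D_0` for all `v`, so (`RegG` at `n1`: `Zr ≤ k^{-1/2}‖D‖²` in the ball)
`YW y R 0 (tr n1) ≤ k^{-1/2}Σ_v‖D_{n1}v‖² ≤ k^{-1/2-2C6(T1+1)}D_0²Σ_vk^{dist v y} ≤ Q²`, `Q = k^{-1-C6(T1+1)}D_0`. Markov property at `n1` (`lintegral_glue n1`), `path_contr` for the state at `n1` (with `T, R, ρ0, m`): outside probability `k^{1/4}`: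
`‖D_n x‖ ≤ k^{e/2-1}Q`, `e = min(a mh/ell-A, (R-ρ0)/2-C'mh/ell) ≥ aT/2-1` (`mh/ell ≥ T/2`, `A ≤ 1`; `(R-ρ0)/2 ≥ (C'+2)(T+1)`, `mh/ell ≤ T+1`, `a ≤ 1`). The exponent of `k` in front of `D_0` is
`e/2-2-C6(T1+1) ≥ aT/4-5/2-C6(27M+ηT) ≥ (a/8)T-(27C6+3)M ≥ c5T-C5M` (`T1+1 ≤ 27M+ηT`, `C6η ≤ a/640`, `M ≥ 1`).
All constants `c, k0` depend on `M, T, Rb, q`; sum of five exceptional probabilities.
-/

open MeasureTheory ProbabilityTheory
open scoped ENNReal

namespace DynG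

open Dyn DynS DynC


variable {d : ℕ}

private theorem Core3_small (B e : ℝ) (he : 0 < e) : ∃ k0 : ℝ, 0 < k0 ∧ k0 < 1 ∧
    ∀ k, 0 < k → k < k0 → B * k ^ e ≤ 1 := by
  set B' : ℝ := max B 2 with hB'
  have hB2 : 2 ≤ B' := le_max_right _ _
  have hB0 : 0 < B' := by linarith
  have h1B : 1 / B' < 1 := by
    rw [div_lt_one hB0]
    linarith
  refine ⟨(1 / B') ^ (1 / e), by positivity, ?_, ?_⟩
  · exact Real.rpow_lt_one (by positivity) h1B (by positivity)
  · intro k hk hk0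
    have h1 : k ^ e ≤ 1 / B' := by
      have h2 := Real.rpow_le_rpow hk.le hk0.le he.le
      rwa [← Real.rpow_mul (by positivity), one_div_mul_cancel he.ne', Real.rpow_one] at h2
    have h3 : 0 ≤ k ^ e := Real.rpow_nonneg hk.le _
    calc B * k ^ e ≤ B' * k ^ e := mul_le_mul_of_nonneg_right (le_max_left _ _) h3
      _ ≤ B' * (1 / B') := mul_le_mul_of_nonneg_left h1 hB0.le
      _ = 1 := by field_simp

private theorem Core3_ell {k : ℝ} (hk : 0 < k) (h : k < Real.exp (-1)) : 1 ≤ ell k := by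
  unfold ell
  rw [one_div, Real.log_inv]
  have h1 : Real.log k ≤ -1 := by
    rw [← Real.log_exp (-1)]
    exact Real.log_le_log hk h.le
  linarith

private theorem Core3_exp {k : ℝ} (hk : 0 < k) (a : ℝ) : Real.exp (a * ell k) = k ^ (-a) := by
  unfold ell
  rw [Real.rpow_def_of_pos hk, one_div, Real.log_inv]
  congr 1
  ring

private theorem Core3_mul {k : ℝ} (hk : 0 < k) (a b : ℝ) : k ^ a * k ^ b = k ^ (a + b) :=
  (Real.rpow_add hk a b).symm

private theorem Core3_mono {k : ℝ} (hk : 0 < k) (hk1 : k < 1) {a b : ℝ} (hab : a ≤ b) :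
    k ^ b ≤ k ^ a :=
  Real.rpow_le_rpow_of_exponent_ge hk hk1.le hab

private theorem Core3_meas {F : Fam d} {β k : ℝ} (S : PSys F β k) (h : ℝ) (L n : ℕ)
    (G : (boxS d L → F.V) × (boxS d L → F.V)) (x : boxS d L) :
    Measurable fun ω => ‖(S.tr h L G ω n).1 x - (S.tr h L G ω n).2 x‖ := by
  have h1 : Measurable fun ω => S.tr h L G ω n :=
    (measurable_tr S h L n).comp (measurable_const.prodMk measurable_id)
  exact (((measurable_pi_apply x).comp (measurable_fst.comp h1)).sub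
    ((measurable_pi_apply x).comp (measurable_snd.comp h1))).norm

/-- the profile -/
private theorem Core3_cpl (d L : ℕ) {k D0 : ℝ} (hk : 0 < k) (hD : 0 ≤ D0)
    (h4 : 4 * d * k ^ (1 / 4 : ℝ) ≤ 1) (y v : boxS d L) :
    k * cpl (boxNet d L) (fun v => D0 * k ^ (3 / 4 * ((boxNet d L).dist v y : ℝ))) v ≤
      1 * (D0 * k ^ (3 / 4 * ((boxNet d L).dist v y : ℝ))) := by
  set U : boxS d L → ℝ := fun v => D0 * k ^ (3 / 4 * ((boxNet d L).dist v y : ℝ)) with hU
  have hk1 : k ≤ 1 ∨ 1 < k := le_or_gt k 1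
  have hU0 : ∀ v, 0 ≤ U v := fun v => by
    change 0 ≤ D0 * _
    positivity
  change k * cpl (boxNet d L) U v ≤ 1 * U v
  rcases Nat.eq_zero_or_pos d with hd | hd
  · have h1 : cpl (boxNet d L) U v = 0 := by
      have hc := (boxNet d L).nb_card v
      have h0 : ((boxNet d L).nb v) = ∅ := by
        rw [← Finset.card_eq_zero]
        omega
      unfold cpl
      rw [h0, Finset.sum_empty, hd]
      simp
    rw [h1, mul_zero, one_mul]
    exact hU0 v
  have hd1 : (1 : ℝ) ≤ d := by exact_mod_cast hd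
  have hk1' : k < 1 := by
    by_contra hc
    have h2 : (1 : ℝ) ≤ k ^ (1 / 4 : ℝ) := Real.one_le_rpow (not_lt.mp hc) (by norm_num)
    nlinarith
  set Q : ℝ := U v * k ^ (-(3 / 4) : ℝ) with hQ
  have hQ0 : 0 ≤ Q := mul_nonneg (hU0 v) (by positivity)
  have hnear : ∀ z, (boxNet d L).dist v z ≤ 1 → U z ≤ Q := by
    intro z hz
    have h1 := (boxNet d L).dist_tri v z y
    have h2 : ((boxNet d L).dist v y : ℝ) ≤ 1 + ((boxNet d L).dist z y : ℝ) := by
      have h3 : (boxNet d L).dist v y ≤ 1 + (boxNet d L).dist z y := by omega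
      exact_mod_cast h3
    change D0 * _ ≤ D0 * _ * _
    rw [mul_assoc, Core3_mul hk]
    apply mul_le_mul_of_nonneg_left _ hD
    apply Core3_mono hk hk1'
    linarith
  have hcpl : cpl (boxNet d L) U v ≤ 4 * d * Q := by
    unfold cpl
    have h1 : ∑ z ∈ (boxNet d L).nb v, U z ≤ 2 * d * Q := by
      calc ∑ z ∈ (boxNet d L).nb v, U z ≤ ∑ z ∈ (boxNet d L).nb v, Q :=
            Finset.sum_le_sum fun z hz =>
              hnear z (le_of_eq ((boxNet d L).dist_nb v z hz))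
        _ = ((boxNet d L).nb v).card * Q := by rw [Finset.sum_const, nsmul_eq_mul]
        _ ≤ 2 * d * Q := by
            apply mul_le_mul_of_nonneg_right _ hQ0
            exact_mod_cast (boxNet d L).nb_card v
    have h2 : ((2 * d : ℕ) : ℝ) * U v ≤ 2 * d * Q := by
      have h3 := hnear v (by rw [(boxNet d L).dist_self]; exact Nat.zero_le _)
      push_cast
      exact mul_le_mul_of_nonneg_left h3 (by positivity)
    linarith
  have hkQ : k * Q = k ^ (1 / 4 : ℝ) * U v := by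
    have h1 : k * k ^ (-(3 / 4) : ℝ) = k ^ (1 / 4 : ℝ) := by
      have h2 := Core3_mul hk 1 (-(3 / 4))
      rw [Real.rpow_one] at h2
      rw [h2]
      norm_num
    rw [hQ, ← h1]
    ring
  calc k * cpl (boxNet d L) U v ≤ k * (4 * d * Q) := mul_le_mul_of_nonneg_left hcpl hk.le
    _ = 4 * d * (k * Q) := by ring
    _ = 4 * d * k ^ (1 / 4 : ℝ) * U v := by rw [hkQ]; ring
    _ ≤ 1 * U v := mul_le_mul_of_nonneg_right h4 (hU0 v)

private theorem Core3_site (d L : ℕ) {k C T1 nh D0 : ℝ} (hk : 0 < k) (hk1 : k < 1)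
    (hC : 0 < C) (hT1 : 0 ≤ T1) (h2 : 2 * k ^ (1 / 4 : ℝ) ≤ 1) (hnh : nh ≤ T1 * ell k + 2)
    (hD : 0 < D0) (y v : boxS d L) :
    Real.exp ((C + 1) * nh) * (D0 * k ^ (3 / 4 * ((boxNet d L).dist v y : ℝ))) /
        (k ^ (-((C + 4) * (T1 + 1)) + (boxNet d L).dist v y / 2) * D0) ≤
      Real.exp (2 * (C + 1)) * k ^ (2 : ℝ) * (1 / 2) ^ (boxNet d L).dist y v := by
  rw [(boxNet d L).dist_comm y v]
  set m : ℕ := (boxNet d L).dist v y with hm
  have h1 : Real.exp ((C + 1) * nh) ≤ k ^ (-((C + 1) * T1)) * Real.exp (2 * (C + 1)) := by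
    rw [← Core3_exp hk, ← Real.exp_add]
    apply Real.exp_le_exp.mpr
    have h3 := mul_le_mul_of_nonneg_left hnh (by linarith : 0 ≤ C + 1)
    linarith
  have h4 : (k ^ (1 / 4 : ℝ)) ^ m ≤ (1 / 2 : ℝ) ^ m :=
    pow_le_pow_left₀ (by positivity) (by linarith) m
  have h5 : k ^ (-((C + 1) * T1)) * k ^ (3 / 4 * (m : ℝ)) =
      k ^ ((C + 4) * (T1 + 1) - (C + 1) * T1) * (k ^ (1 / 4 : ℝ)) ^ m *
        k ^ (-((C + 4) * (T1 + 1)) + (m : ℝ) / 2) := by
    rw [← Real.rpow_natCast (k ^ (1 / 4 : ℝ)) m, ← Real.rpow_mul hk.le, Core3_mul hk,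
      Core3_mul hk, Core3_mul hk]
    congr 1
    ring
  have h6 : k ^ ((C + 4) * (T1 + 1) - (C + 1) * T1) ≤ k ^ (2 : ℝ) := by
    apply Core3_mono hk hk1
    nlinarith
  set t : ℝ := k ^ (-((C + 4) * (T1 + 1)) + (m : ℝ) / 2) with ht
  have ht0 : 0 < t := by positivity
  rw [div_le_iff₀ (by positivity)]
  calc Real.exp ((C + 1) * nh) * (D0 * k ^ (3 / 4 * (m : ℝ)))
      ≤ k ^ (-((C + 1) * T1)) * Real.exp (2 * (C + 1)) * (D0 * k ^ (3 / 4 * (m : ℝ))) :=
        mul_le_mul_of_nonneg_right h1 (by positivity)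
    _ = Real.exp (2 * (C + 1)) * D0 * (k ^ (-((C + 1) * T1)) * k ^ (3 / 4 * (m : ℝ))) := by ring
    _ = Real.exp (2 * (C + 1)) * k ^ ((C + 4) * (T1 + 1) - (C + 1) * T1) *
          (k ^ (1 / 4 : ℝ)) ^ m * (t * D0) := by rw [h5]; ring
    _ ≤ Real.exp (2 * (C + 1)) * k ^ (2 : ℝ) * (1 / 2) ^ m * (t * D0) := by
        apply mul_le_mul_of_nonneg_right _ (by positivity)
        apply mul_le_mul _ h4 (by positivity) (by positivity)
        exact mul_le_mul_of_nonneg_left h6 (Real.exp_pos _).le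

theorem grow_all (N d : ℕ) (β : ℝ) (hβ : 0 < β) : ∃ C6 : ℝ, 1 ≤ C6 ∧ ∀ T1 : ℝ, 0 ≤ T1 →
    ∃ k0 : ℝ, 0 < k0 ∧ k0 < 1 ∧ ∀ (F : Fam d) (k : ℝ) (S : PSys F β k), 0 < k → k < k0 →
    BNoise N S.ν S.b S.gd → ∃ h0 : ℝ, 0 < h0 ∧ ∀ h, 0 < h → h < h0 → ∀ (L : ℕ)
      (G : (boxS d L → F.V) × (boxS d L → F.V)) (y : boxS d L), (∀ x, x ≠ y → G.1 x = G.2 x) →
      ∀ n : ℕ, n * h ≤ T1 * ell k + 2 →
      PI (S.mu L) {ω | ∃ v, k ^ (-(C6 * (T1 + 1)) + (boxNet d L).dist v y / 2) * ‖G.1 y - G.2 y‖ <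
        ‖(S.tr h L G ω n).1 v - (S.tr h L G ω n).2 v‖} ≤ ENNReal.ofReal k := by
  obtain ⟨C, hC, hg⟩ := grow_mean N d β hβ
  refine ⟨C + 4, by linarith, ?_⟩
  intro T1 hT1
  obtain ⟨ka, hka, hka1, hka2⟩ := Core3_small (4 * d) (1 / 4) (by norm_num)
  obtain ⟨kb, hkb, hkb1, hkb2⟩ := Core3_small 2 (1 / 4) (by norm_num)
  obtain ⟨kc, hkc, hkc1, hkc2⟩ := Core3_small (3 ^ d * Real.exp (2 * (C + 1))) 1 (by norm_num)
  refine ⟨min ka (min kb kc), by positivity, (min_le_left _ _).trans_lt hka1, ?_⟩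
  intro F k S hk hk0 hB
  have hkka : k < ka := hk0.trans_le (min_le_left _ _)
  have hkkb : k < kb := hk0.trans_le ((min_le_right _ _).trans (min_le_left _ _))
  have hkkc : k < kc := hk0.trans_le ((min_le_right _ _).trans (min_le_right _ _))
  have hk1 : k < 1 := hkka.trans hka1
  obtain ⟨h0, hh0, hg'⟩ := hg F k S hk hk1 hB
  refine ⟨h0, hh0, ?_⟩
  intro h hh hlt L G y hG n hn
  set D0 : ℝ := ‖G.1 y - G.2 y‖ with hD0
  have hD0n : 0 ≤ D0 := norm_nonneg _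
  have hU0 : ∀ v : boxS d L, 0 ≤ D0 * k ^ (3 / 4 * ((boxNet d L).dist v y : ℝ)) := fun v => by
    positivity
  have hGU : ∀ v : boxS d L, dif G.1 G.2 v ≤ D0 * k ^ (3 / 4 * ((boxNet d L).dist v y : ℝ)) := by
    intro v
    change ‖G.1 v - G.2 v‖ ≤ _
    by_cases hv : v = y
    · subst hv
      rw [(boxNet d L).dist_self]
      simp [hD0]
    · rw [hG v hv, sub_self, norm_zero]
      exact hU0 v
  have hmean := hg' h hh hlt L G (fun v => D0 * k ^ (3 / 4 * ((boxNet d L).dist v y : ℝ))) 1 hU0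
    (fun v => Core3_cpl d L hk hD0n (hka2 k hk hkka) y v) hGU n
  have hsite : ∀ v : boxS d L, PI (S.mu L) {ω |
      k ^ (-((C + 4) * (T1 + 1)) + (boxNet d L).dist v y / 2) * D0 <
        ‖(S.tr h L G ω n).1 v - (S.tr h L G ω n).2 v‖} ≤
      ENNReal.ofReal (Real.exp (2 * (C + 1)) * k ^ (2 : ℝ) * (1 / 2) ^ (boxNet d L).dist y v) := by
    intro v
    have hm := Core3_meas S h L n G v
    have hmv := hmean v
    rcases hD0n.eq_or_lt with h0' | h0'
    · have hz : ∫⁻ ω, ENNReal.ofReal (‖(S.tr h L G ω n).1 v - (S.tr h L G ω n).2 v‖)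
          ∂(PI (S.mu L)) = 0 := by
        refine le_antisymm (hmv.trans ?_) zero_le
        rw [← h0']
        simp
      rw [lintegral_eq_zero_iff hm.ennreal_ofReal] at hz
      have hz2 : PI (S.mu L) {ω | k ^ (-((C + 4) * (T1 + 1)) + (boxNet d L).dist v y / 2) * D0 <
          ‖(S.tr h L G ω n).1 v - (S.tr h L G ω n).2 v‖} = 0 := by
        refine measure_mono_null ?_ hz
        intro ω hω
        change k ^ (-((C + 4) * (T1 + 1)) + (boxNet d L).dist v y / 2) * D0 < _ at hω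
        rw [← h0', mul_zero] at hω
        change ¬ (ENNReal.ofReal _ = 0)
        rw [ENNReal.ofReal_eq_zero, not_le]
        exact hω
      rw [hz2]
      exact zero_le
    · set t : ℝ := k ^ (-((C + 4) * (T1 + 1)) + (boxNet d L).dist v y / 2) * D0 with ht
      have ht0 : 0 < t := by positivity
      have h1 : PI (S.mu L) {ω | t < ‖(S.tr h L G ω n).1 v - (S.tr h L G ω n).2 v‖} ≤
          PI (S.mu L) {ω | ENNReal.ofReal t ≤
            ENNReal.ofReal (‖(S.tr h L G ω n).1 v - (S.tr h L G ω n).2 v‖)} := by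
        refine measure_mono ?_
        intro ω hω
        exact ENNReal.ofReal_le_ofReal (le_of_lt hω)
      refine h1.trans ?_
      refine (meas_ge_le_lintegral_div hm.ennreal_ofReal.aemeasurable
        (ENNReal.ofReal_pos.2 ht0).ne' ENNReal.ofReal_ne_top).trans ?_
      refine (ENNReal.div_le_div_right hmv _).trans ?_
      rw [← ENNReal.ofReal_div_of_pos ht0]
      exact ENNReal.ofReal_le_ofReal
        (Core3_site d L hk hk1 hC hT1 (hkb2 k hk hkkb) hn h0' y v)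
  have hun : {ω | ∃ v, k ^ (-((C + 4) * (T1 + 1)) + (boxNet d L).dist v y / 2) * D0 <
      ‖(S.tr h L G ω n).1 v - (S.tr h L G ω n).2 v‖} =
      ⋃ v, {ω | k ^ (-((C + 4) * (T1 + 1)) + (boxNet d L).dist v y / 2) * D0 <
        ‖(S.tr h L G ω n).1 v - (S.tr h L G ω n).2 v‖} := by
    ext ω
    simp
  rw [hun]
  refine (measure_iUnion_fintype_le _ _).trans ?_
  refine (Finset.sum_le_sum fun v _ => hsite v).trans ?_
  rw [← ENNReal.ofReal_sum_of_nonneg (fun v _ => by positivity), ← Finset.mul_sum]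
  apply ENNReal.ofReal_le_ofReal
  have h5 := (boxNet d L).sum_half y
  have h6 := hkc2 k hk hkkc
  rw [Real.rpow_one] at h6
  have h7 : k ^ (2 : ℝ) = k * k := by
    rw [Real.rpow_two]
    ring
  rw [h7]
  calc Real.exp (2 * (C + 1)) * (k * k) * ∑ v, (1 / 2 : ℝ) ^ (boxNet d L).dist y v
      ≤ Real.exp (2 * (C + 1)) * (k * k) * 3 ^ d :=
        mul_le_mul_of_nonneg_left h5 (by positivity)
    _ = (3 ^ d * Real.exp (2 * (C + 1)) * k) * k := by ring
    _ ≤ 1 * k := mul_le_mul_of_nonneg_right h6 hk.le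
    _ = k := one_mul k

section Core3_markov

variable {X St : Type} [MeasurableSpace X] [MeasurableSpace St]

omit [MeasurableSpace X] [MeasurableSpace St] in
private theorem Core3_shift (f : St → X → St) (s : St) (ω : ℕ → X) (n m : ℕ) :
    traj f (traj f s ω n) (fun j => ω (n + j)) m = traj f s ω (n + m) := by
  induction m with
  | zero => rfl
  | succ m ih =>
    change f (traj f (traj f s ω n) (fun j => ω (n + j)) m) (ω (n + m)) =
      f (traj f s ω (n + m)) (ω (n + m))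
    rw [ih]

private theorem Core3_markov (μ : Measure X) [IsProbabilityMeasure μ] (f : St → X → St)
    (hf : Measurable (fun p : St × X => f p.1 p.2)) (s : St) (n : ℕ) (Good : Set St)
    (hG : MeasurableSet Good) (B : Set (St × (ℕ → X))) (hB : MeasurableSet B) (p : ℝ≥0∞)
    (h : ∀ s' ∈ Good, PI μ {b | (s', b) ∈ B} ≤ p) :
    PI μ {ω | traj f s ω n ∈ Good ∧ (traj f s ω n, fun j => ω (n + j)) ∈ B} ≤ p := by
  have htr : Measurable fun ω : ℕ → X => traj f s ω n :=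
    (measurable_traj f hf n).comp (measurable_const.prodMk measurable_id)
  have hsh : Measurable fun ω : ℕ → X => (fun j => ω (n + j)) :=
    measurable_pi_lambda _ fun j => measurable_pi_apply (n + j)
  have hms : MeasurableSet
      {ω : ℕ → X | traj f s ω n ∈ Good ∧ (traj f s ω n, fun j => ω (n + j)) ∈ B} :=
    (htr hG).inter ((htr.prodMk hsh) hB)
  rw [← lintegral_indicator_one hms, lintegral_glue n _ (measurable_one.indicator hms)]
  have hb : ∀ a : ℕ → X, ∫⁻ b, ({ω : ℕ → X | traj f s ω n ∈ Good ∧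
      (traj f s ω n, fun j => ω (n + j)) ∈ B}.indicator 1 (glue n a b) : ℝ≥0∞) ∂(PI μ) ≤ p := by
    intro a
    have e1 : ∀ b : ℕ → X, traj f s (glue n a b) n = traj f s a n := fun b =>
      traj_glue_le f s n a b n le_rfl
    have e2 : ∀ b : ℕ → X, (fun j => glue n a b (n + j)) = b := by
      intro b
      funext j
      unfold glue
      rw [if_neg (by omega)]
      congr 1
      omega
    by_cases ha : traj f s a n ∈ Good
    · have hms2 : MeasurableSet {b : ℕ → X | (traj f s a n, b) ∈ B} :=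
        (measurable_const.prodMk measurable_id : Measurable fun b : ℕ → X => (traj f s a n, b)) hB
      refine le_trans (le_of_eq ?_) (h _ ha)
      rw [← lintegral_indicator_one hms2]
      refine lintegral_congr fun b => ?_
      by_cases hbm : b ∈ {b : ℕ → X | (traj f s a n, b) ∈ B}
      · rw [Set.indicator_of_mem hbm, Set.indicator_of_mem]
        · rfl
        · refine ⟨?_, ?_⟩
          · rw [e1]
            exact ha
          · rw [e1, e2]
            exact hbm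
      · rw [Set.indicator_of_notMem hbm, Set.indicator_of_notMem]
        intro hc
        apply hbm
        have h2 := hc.2
        rw [e1, e2] at h2
        exact h2
    · have h0 : ∀ b : ℕ → X, ({ω : ℕ → X | traj f s ω n ∈ Good ∧
          (traj f s ω n, fun j => ω (n + j)) ∈ B}.indicator 1 (glue n a b) : ℝ≥0∞) = 0 := by
        intro b
        apply Set.indicator_of_notMem
        intro hc
        apply ha
        have h2 := hc.1
        rw [e1] at h2
        exact h2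
      simp_rw [h0]
      simp
  refine (lintegral_mono hb).trans ?_
  simp

end Core3_markov

/-- the weighted sum at the regular time -/
private theorem Core3_YW {N L : ℕ} {k t : ℝ} (hk : 0 < k) (hk1 : k < 1)
    (h2 : k ≤ 1 / 2) (h3 : 3 ^ d * k ^ (3 / 2 : ℝ) ≤ 1) (y : boxS d L) (R : ℕ)
    (G : (boxS d L → E N) × (boxS d L → E N)) (hR : RegG k y R G)
    (hD : ∀ v, ‖G.1 v - G.2 v‖ ≤ k ^ (((boxNet d L).dist v y : ℝ) / 2) * t) :
    YW y R (fun _ => 0) G ≤ (k ^ (-1 : ℝ) * t) ^ 2 := by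
  have hterm : ∀ v, Real.exp 0 * (if (boxNet d L).dist v y ≤ R then Zr (G.1 v) (G.2 v)
      else ‖G.1 v - G.2 v‖ ^ 2) ≤ k ^ (-(1 / 2) : ℝ) * t ^ 2 * (1 / 2) ^ (boxNet d L).dist y v := by
    intro v
    have hsq : ‖G.1 v - G.2 v‖ ^ 2 ≤ t ^ 2 * (1 / 2) ^ (boxNet d L).dist y v := by
      have h4 : ‖G.1 v - G.2 v‖ ^ 2 ≤ (k ^ (((boxNet d L).dist v y : ℝ) / 2) * t) ^ 2 :=
        pow_le_pow_left₀ (norm_nonneg _) (hD v) 2
      refine h4.trans ?_
      have h5 : (k ^ (((boxNet d L).dist v y : ℝ) / 2)) ^ 2 = k ^ (boxNet d L).dist v y := by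
        rw [← Real.rpow_natCast, ← Real.rpow_mul hk.le, ← Real.rpow_natCast k]
        congr 1
        push_cast
        ring
      rw [mul_pow, h5, mul_comm, (boxNet d L).dist_comm y v]
      apply mul_le_mul_of_nonneg_left _ (by positivity)
      exact pow_le_pow_left₀ hk.le h2 _
    have hk12 : (1 : ℝ) ≤ k ^ (-(1 / 2) : ℝ) :=
      Real.one_le_rpow_of_pos_of_le_one_of_nonpos hk hk1.le (by norm_num)
    rw [Real.exp_zero, one_mul]
    split_ifs with hv
    · unfold Zr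
      obtain ⟨ha, hb⟩ := hR.1 v hv
      have hk4 : 0 < k ^ (1 / 4 : ℝ) := by positivity
      have hprod : k ^ (1 / 2 : ℝ) ≤ ‖G.1 v‖ * ‖G.2 v‖ := by
        have h6 : k ^ (1 / 2 : ℝ) = k ^ (1 / 4 : ℝ) * k ^ (1 / 4 : ℝ) := by
          rw [Core3_mul hk]
          norm_num
        rw [h6]
        exact mul_le_mul ha hb hk4.le (norm_nonneg _)
      have hp0 : 0 < k ^ (1 / 2 : ℝ) := by positivity
      calc ‖G.1 v - G.2 v‖ ^ 2 / (‖G.1 v‖ * ‖G.2 v‖)
          ≤ ‖G.1 v - G.2 v‖ ^ 2 / k ^ (1 / 2 : ℝ) :=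
            div_le_div_of_nonneg_left (by positivity) hp0 hprod
        _ = k ^ (-(1 / 2) : ℝ) * ‖G.1 v - G.2 v‖ ^ 2 := by
            rw [Real.rpow_neg hk.le]
            field_simp
        _ ≤ k ^ (-(1 / 2) : ℝ) * (t ^ 2 * (1 / 2) ^ (boxNet d L).dist y v) :=
            mul_le_mul_of_nonneg_left hsq (by positivity)
        _ = _ := by ring
    · calc ‖G.1 v - G.2 v‖ ^ 2 ≤ 1 * (t ^ 2 * (1 / 2) ^ (boxNet d L).dist y v) := by
            rw [one_mul]
            exact hsq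
        _ ≤ k ^ (-(1 / 2) : ℝ) * (t ^ 2 * (1 / 2) ^ (boxNet d L).dist y v) :=
            mul_le_mul_of_nonneg_right hk12 (by positivity)
        _ = _ := by ring
  unfold YW
  refine (Finset.sum_le_sum fun v _ => hterm v).trans ?_
  rw [← Finset.mul_sum]
  have h5 := (boxNet d L).sum_half y
  calc k ^ (-(1 / 2) : ℝ) * t ^ 2 * ∑ v, (1 / 2 : ℝ) ^ (boxNet d L).dist y v
      ≤ k ^ (-(1 / 2) : ℝ) * t ^ 2 * 3 ^ d := mul_le_mul_of_nonneg_left h5 (by positivity)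
    _ = (3 ^ d * k ^ (3 / 2 : ℝ)) * (k ^ (-2 : ℝ) * t ^ 2) := by
        have h6 : k ^ (-(1 / 2) : ℝ) = k ^ (3 / 2 : ℝ) * k ^ (-2 : ℝ) := by
          rw [Core3_mul hk]
          norm_num
        rw [h6]
        ring
    _ ≤ 1 * (k ^ (-2 : ℝ) * t ^ 2) := mul_le_mul_of_nonneg_right h3 (by positivity)
    _ = (k ^ (-1 : ℝ) * t) ^ 2 := by
        rw [one_mul, mul_pow]
        congr 1
        rw [← Real.rpow_natCast, ← Real.rpow_mul hk.le]
        norm_num

/-- exponents in the near case -/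
private theorem Core3_expo {a A C' C6 T M T1 l mh R ρ0 η : ℝ} (ha : 0 < a) (ha1 : a ≤ 1)
    (hA1 : A ≤ 1) (hC' : 0 < C') (hC6 : 1 ≤ C6) (hT : 1 ≤ T) (hM : 1 ≤ M) (hη : 0 < η)
    (hη1 : η ≤ a / (640 * C6)) (hl : 1 ≤ l) (hm1 : T / 2 * l ≤ mh) (hm2 : mh ≤ T * l + 1)
    (hR : ρ0 + 2 * (C' + 2) * (T + 1) ≤ R) (hT1 : T1 + 1 ≤ 27 * M + η * T) :
    a / 8 * T - ((2 * C6 + 1) / η + 27 * C6 + 3) * M ≤
      min (a * mh / l - A) ((R - ρ0) / 2 - C' * mh / l) / 2 - 1 - 1 - C6 * (T1 + 1) := by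
  have hl0 : 0 < l := by linarith
  have h1 : T / 2 ≤ mh / l := by
    rw [le_div_iff₀ hl0]
    exact hm1
  have h2 : mh / l ≤ T + 1 := by
    rw [div_le_iff₀ hl0]
    nlinarith
  have h3 : a * T / 2 - 1 ≤ min (a * mh / l - A) ((R - ρ0) / 2 - C' * mh / l) := by
    apply le_min
    · have h4 := mul_le_mul_of_nonneg_left h1 ha.le
      rw [mul_div_assoc a mh l]
      linarith
    · have h4 := mul_le_mul_of_nonneg_left h2 hC'.le
      rw [mul_div_assoc C' mh l]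
      nlinarith
  have h5 : C6 * η ≤ a / 640 := by
    have h6 := mul_le_mul_of_nonneg_left hη1 (by linarith : 0 ≤ C6)
    have h7 : C6 * (a / (640 * C6)) = a / 640 := by
      field_simp
    linarith
  have h8 : C6 * (T1 + 1) ≤ C6 * (27 * M + η * T) :=
    mul_le_mul_of_nonneg_left hT1 (by linarith)
  have h9 : C6 * η * T ≤ a / 640 * T := mul_le_mul_of_nonneg_right h5 (by linarith)
  have h10 : 0 ≤ (2 * C6 + 1) / η * M := by positivity
  have h11 : 0 < a * T := by positivity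
  nlinarith

/-- exponents in the far case -/
private theorem Core3_expoA {a C6 T M η dd : ℝ} (ha1 : a ≤ 1) (hC6 : 1 ≤ C6)
    (hT : 1 ≤ T) (hM : 1 ≤ M) (hη : 0 < η) (hd : 0 ≤ dd)
    (h : (4 * C6 + 2) * T < dd ∨ η * T ≤ M) :
    a / 8 * T - ((2 * C6 + 1) / η + 27 * C6 + 3) * M ≤ -(C6 * (T + 1)) + dd / 2 := by
  have h10 : 0 ≤ (2 * C6 + 1) / η * M := by positivity
  have h12 : a * T ≤ 1 * T := mul_le_mul_of_nonneg_right ha1 (by linarith)
  have h13 : C6 * 1 ≤ C6 * M := mul_le_mul_of_nonneg_left hM (by linarith)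
  have h14 : C6 * 1 ≤ C6 * T := mul_le_mul_of_nonneg_left hT (by linarith)
  rcases h with h | h
  · nlinarith
  · have h15 : (2 * C6 + 1) * T ≤ (2 * C6 + 1) / η * M := by
      have h16 := mul_le_mul_of_nonneg_left h (by positivity : 0 ≤ (2 * C6 + 1) / η)
      have h17 : (2 * C6 + 1) / η * (η * T) = (2 * C6 + 1) * T := by
        field_simp
      linarith
    nlinarith

private theorem Core3_Bmeas (N d : ℕ) (hN : 3 ≤ N) (β k : ℝ) (hβ : 0 < β) (hk : 0 ≤ k) (h : ℝ)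
    (L m R : ℕ) (x y : boxS d L) (thr : ℝ) :
    MeasurableSet {p : ((boxS d L → (Fam1 N d β k).V) × (boxS d L → (Fam1 N d β k).V)) ×
        (ℕ → boxS d L → (PS3 N d hN β k hβ hk).Ωp) |
      (∀ j, j < m → ∀ v, p.2 j v ∈ (PS3 N d hN β k hβ hk).gd h) ∧
      (∀ j, j ≤ m → RegG k y R ((PS3 N d hN β k hβ hk).tr h L p.1 p.2 j)) ∧
      thr < ‖((PS3 N d hN β k hβ hk).tr h L p.1 p.2 m).1 x -
        ((PS3 N d hN β k hβ hk).tr h L p.1 p.2 m).2 x‖} := by
  set S := PS3 N d hN β k hβ hk with hS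
  have hm := fun j => measurable_tr S h L j
  have e : {p : ((boxS d L → (Fam1 N d β k).V) × (boxS d L → (Fam1 N d β k).V)) ×
        (ℕ → boxS d L → S.Ωp) |
      (∀ j, j < m → ∀ v, p.2 j v ∈ S.gd h) ∧
      (∀ j, j ≤ m → RegG k y R (S.tr h L p.1 p.2 j)) ∧
      thr < ‖(S.tr h L p.1 p.2 m).1 x - (S.tr h L p.1 p.2 m).2 x‖} =
      (⋂ j ∈ Finset.range m, ⋂ v : boxS d L, {p | p.2 j v ∈ S.gd h}) ∩
      ((⋂ j ∈ Finset.range (m + 1), {p | RegG k y R (S.tr h L p.1 p.2 j)}) ∩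
        {p | thr < ‖(S.tr h L p.1 p.2 m).1 x - (S.tr h L p.1 p.2 m).2 x‖}) := by
    ext p
    simp only [Set.mem_ofPred_eq, Set.mem_inter_iff, Set.mem_iInter,
      Finset.mem_range, Nat.lt_succ_iff]
  rw [e]
  refine MeasurableSet.inter ?_ (MeasurableSet.inter ?_ ?_)
  · refine Finset.measurableSet_biInter _ fun j _ => MeasurableSet.iInter fun v => ?_
    exact ((measurable_pi_apply v).comp ((measurable_pi_apply j).comp measurable_snd)) (S.mgd h)
  · refine Finset.measurableSet_biInter _ fun j _ => ?_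
    exact (hm j) (measurableSet_RegG k y R)
  · exact measurableSet_lt measurable_const
      (((measurable_pi_apply x).comp (measurable_fst.comp (hm m))).sub
        ((measurable_pi_apply x).comp (measurable_snd.comp (hm m)))).norm

private theorem Core3_Gmeas (N d L : ℕ) (y : boxS d L) (R : ℕ) (Q : ℝ) :
    MeasurableSet {G : (boxS d L → E N) × (boxS d L → E N) | YW y R (fun _ => 0) G ≤ Q ^ 2} := by
  have h1 : Measurable fun G : (boxS d L → E N) × (boxS d L → E N) =>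
      (G, (fun _ => 0 : boxS d L → ℝ)) := measurable_id.prodMk measurable_const
  have h2 : Measurable fun G : (boxS d L → E N) × (boxS d L → E N) =>
      YW y R (fun _ => 0) G := (measurable_YW y R).comp h1
  exact measurableSet_le h2 measurable_const

/-- near case -/
private theorem Core3_near (N d : ℕ) (hN : 3 ≤ N) (β k : ℝ) (hβ : 0 < β) (hk : 0 < k)
    (hk1 : k < 1) {C6 T1 h D0 thr e' : ℝ} {c1 c2 : ℝ} (L n1 n m R : ℕ) (hnm : n1 + m = n)
    (h2 : k ≤ 1 / 2) (h3 : 3 ^ d * k ^ (3 / 2 : ℝ) ≤ 1)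
    (G : (boxS d L → E N) × (boxS d L → E N)) (x y : boxS d L)
    (hthr : k ^ e' * (k ^ (-1 : ℝ) * (k ^ (-(C6 * (T1 + 1))) * D0)) ≤ thr)
    (e1 : PI ((PS3 N d hN β k hβ hk.le).mu L) ((PS3 N d hN β k hβ hk.le).alv h L G n1 ∩
      {ω | ¬ LowG k y R ((PS3 N d hN β k hβ hk.le).tr h L G ω n1)}) ≤ ENNReal.ofReal (k ^ c1))
    (e2 : PI ((PS3 N d hN β k hβ hk.le).mu L) ((PS3 N d hN β k hβ hk.le).alv h L G n ∩
      {ω | LowG k y R ((PS3 N d hN β k hβ hk.le).tr h L G ω n1) ∧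
        ∃ j, n1 ≤ j ∧ j ≤ n ∧ ¬ RegG k y R ((PS3 N d hN β k hβ hk.le).tr h L G ω j)}) ≤
      ENNReal.ofReal (k ^ c2))
    (e3 : PI ((PS3 N d hN β k hβ hk.le).mu L) {ω | ∃ v,
      k ^ (-(C6 * (T1 + 1)) + (boxNet d L).dist v y / 2) * D0 <
        ‖((PS3 N d hN β k hβ hk.le).tr h L G ω n1).1 v -
          ((PS3 N d hN β k hβ hk.le).tr h L G ω n1).2 v‖} ≤ ENNReal.ofReal k)
    (e4 : ∀ G' : (boxS d L → E N) × (boxS d L → E N),
      YW y R (fun _ => 0) G' ≤ (k ^ (-1 : ℝ) * (k ^ (-(C6 * (T1 + 1))) * D0)) ^ 2 →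
      PI ((PS3 N d hN β k hβ hk.le).mu L) {ω | (∀ j, j < m → ∀ v, ω j v ∈ gdE hN h) ∧
        (∀ j, j ≤ m → RegG k y R ((PS3 N d hN β k hβ hk.le).tr h L G' ω j)) ∧
        k ^ e' * (k ^ (-1 : ℝ) * (k ^ (-(C6 * (T1 + 1))) * D0)) <
          ‖((PS3 N d hN β k hβ hk.le).tr h L G' ω m).1 x -
            ((PS3 N d hN β k hβ hk.le).tr h L G' ω m).2 x‖} ≤
        ENNReal.ofReal (k ^ (1 / 4 : ℝ))) :
    PI ((PS3 N d hN β k hβ hk.le).mu L) ((PS3 N d hN β k hβ hk.le).alv h L G n ∩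
        {ω | thr < ‖((PS3 N d hN β k hβ hk.le).tr h L G ω n).1 x -
            ((PS3 N d hN β k hβ hk.le).tr h L G ω n).2 x‖}) ≤
      ENNReal.ofReal (k ^ c1) + ENNReal.ofReal (k ^ c2) + ENNReal.ofReal k +
        ENNReal.ofReal (k ^ (1 / 4 : ℝ)) := by
  set S := PS3 N d hN β k hβ hk.le with hS
  set Q : ℝ := k ^ (-1 : ℝ) * (k ^ (-(C6 * (T1 + 1))) * D0) with hQ
  have hmk := Core3_markov (S.mu L) (S.st h L) (S.mst h L) G n1
    {G' | YW y R (fun _ => 0) G' ≤ Q ^ 2} (Core3_Gmeas N d L y R Q) _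
    (Core3_Bmeas N d hN β k hβ hk.le h L m R x y (k ^ e' * Q)) (ENNReal.ofReal (k ^ (1 / 4 : ℝ)))
    (fun s' hs' => e4 s' hs')
  refine le_trans (measure_mono ?_) ((measure_union_le _ _).trans
    (add_le_add ((measure_union_le _ _).trans
      (add_le_add ((measure_union_le _ _).trans (add_le_add e1 e2)) e3)) hmk))
  rintro ω ⟨hω1, hω2⟩
  by_cases hL1 : LowG k y R (S.tr h L G ω n1)
  swap
  · left; left; left
    refine ⟨⟨fun j hj v => hω1.1 j (by omega) v, fun j hj v => hω1.2 j (by omega) v⟩, hL1⟩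
  by_cases hR1 : ∃ j, n1 ≤ j ∧ j ≤ n ∧ ¬ RegG k y R (S.tr h L G ω j)
  · left; left; right
    exact ⟨hω1, hL1, hR1⟩
  by_cases hD1 : ∃ v, k ^ (-(C6 * (T1 + 1)) + (boxNet d L).dist v y / 2) * D0 <
      ‖(S.tr h L G ω n1).1 v - (S.tr h L G ω n1).2 v‖
  · left; right
    exact hD1
  right
  push Not at hR1 hD1
  have hYW : YW y R (fun _ => 0) (S.tr h L G ω n1) ≤ Q ^ 2 := by
    refine Core3_YW hk hk1 h2 h3 y R (S.tr h L G ω n1) (hR1 n1 le_rfl (by omega)) ?_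
    intro v
    refine (hD1 v).trans (le_of_eq ?_)
    rw [← Core3_mul hk]
    ring
  refine ⟨hYW, ?_⟩
  have hsh : ∀ j, S.tr h L (traj (S.st h L) G ω n1) (fun j => ω (n1 + j)) j =
      S.tr h L G ω (n1 + j) := fun j => Core3_shift (S.st h L) G ω n1 j
  refine ⟨fun j hj v => hω1.1 (n1 + j) (by omega) v, fun j hj => ?_, ?_⟩
  · change RegG k y R (S.tr h L (traj (S.st h L) G ω n1) (fun j => ω (n1 + j)) j)
    rw [hsh]
    exact hR1 (n1 + j) (by omega) (by omega)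
  · change k ^ e' * Q < ‖(S.tr h L (traj (S.st h L) G ω n1) (fun j => ω (n1 + j)) m).1 x -
      (S.tr h L (traj (S.st h L) G ω n1) (fun j => ω (n1 + j)) m).2 x‖
    rw [hsh, hnm]
    exact lt_of_le_of_lt hthr hω2

private theorem Core3_final {k c1 c2 c : ℝ} (hk : 0 < k) (hk1 : k < 1)
    (hc1 : 2 * c ≤ c1) (hc2 : 2 * c ≤ c2) (hc4 : 2 * c ≤ 1 / 4) (h4 : 4 * k ^ c ≤ 1) :
    ENNReal.ofReal (k ^ c1) + ENNReal.ofReal (k ^ c2) + ENNReal.ofReal k +
      ENNReal.ofReal (k ^ (1 / 4 : ℝ)) ≤ ENNReal.ofReal (k ^ c) := by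
  rw [← ENNReal.ofReal_add (by positivity) (by positivity),
    ← ENNReal.ofReal_add (by positivity) hk.le, ← ENNReal.ofReal_add (by positivity) (by positivity)]
  apply ENNReal.ofReal_le_ofReal
  have h1 : k ^ c1 ≤ k ^ (2 * c) := Core3_mono hk hk1 hc1
  have h2 : k ^ c2 ≤ k ^ (2 * c) := Core3_mono hk hk1 hc2
  have h3 : k ^ (1 / 4 : ℝ) ≤ k ^ (2 * c) := Core3_mono hk hk1 hc4
  have h5 : k ≤ k ^ (2 * c) := by
    have h6 := Core3_mono hk hk1 (show 2 * c ≤ 1 by linarith)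
    rwa [Real.rpow_one] at h6
  have h7 : k ^ (2 * c) = k ^ c * k ^ c := by
    rw [Core3_mul hk]
    congr 1
    ring
  have h8 : 0 < k ^ c := Real.rpow_pos_of_pos hk _
  have h9 := mul_le_mul_of_nonneg_right h4 h8.le
  linarith

private theorem Core3_T1 {C6 C' M T s1 η ρ0 : ℝ} (hC6 : 1 ≤ C6) (hC' : 0 < C') (hM : 1 ≤ M)
    (hT : 1 ≤ T) (hη : 0 < η) (hρ : ρ0 = (4 * C6 + 2) * T)
    (hs1 : s1 = η / (14 * (4 * C6 + 4 * C' + 12))) :
    2 * (7 * M + 7 * s1 * (⌈ρ0 + 2 * (C' + 2) * (T + 1)⌉₊ : ℝ) + 6) ≤ 26 * M + η * T := by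
  set Rr : ℝ := (⌈ρ0 + 2 * (C' + 2) * (T + 1)⌉₊ : ℝ) with hRr
  have h0 : 0 ≤ ρ0 + 2 * (C' + 2) * (T + 1) := by
    rw [hρ]
    positivity
  have h1 : Rr < ρ0 + 2 * (C' + 2) * (T + 1) + 1 := Nat.ceil_lt_add_one h0
  have h2 : Rr ≤ (4 * C6 + 4 * C' + 12) * T := by
    rw [hρ] at h1
    nlinarith
  have hs0 : 0 ≤ s1 := by
    rw [hs1]
    positivity
  have h3 : 14 * s1 * Rr ≤ η * T := by
    have h4 := mul_le_mul_of_nonneg_left h2 (by positivity : 0 ≤ 14 * s1)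
    have h5 : 14 * s1 * ((4 * C6 + 4 * C' + 12) * T) = η * T := by
      rw [hs1]
      field_simp
    linarith
  nlinarith

theorem gc3_core (N d : ℕ) (hN : 3 ≤ N) (β : ℝ) (hβ : 0 < β) : ∃ q0 s1 c5 C5 : ℝ, 1 ≤ q0 ∧
    0 < s1 ∧ 0 < c5 ∧ 0 < C5 ∧
    ∀ q, q0 ≤ q → ∀ (M T : ℝ) (Rb : ℕ), 1 ≤ M → 1 ≤ T → ∃ c k0 : ℝ, 0 < c ∧ 0 < k0 ∧ k0 < 1 ∧
    ∀ (k : ℝ) (hk : 0 < k), k < k0 → ∀ L : ℕ, ∃ h0 : ℝ, 0 < h0 ∧ ∀ h, 0 < h → h < h0 →
    ∀ (G : (boxS d L → E N) × (boxS d L → E N)) (y : boxS d L), (∀ x, x ≠ y → G.1 x = G.2 x) →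
    PotGe k q (nrm G.1) (fun v => nrm G.1 v + nrm G.2 v) M s1 y →
    PotGe k q (nrm G.2) (fun v => nrm G.1 v + nrm G.2 v) M s1 y →
    ∀ n : ℕ, T * ell k ≤ n * h → n * h ≤ T * ell k + 1 → ∀ x, (boxNet d L).dist x y ≤ Rb →
      PI ((PS3 N d hN β k hβ hk.le).mu L) ((PS3 N d hN β k hβ hk.le).alv h L G n ∩
        {ω | k ^ (c5 * T - C5 * M) * ‖G.1 y - G.2 y‖ <
          ‖((PS3 N d hN β k hβ hk.le).tr h L G ω n).1 x -
            ((PS3 N d hN β k hβ hk.le).tr h L G ω n).2 x‖}) ≤ ENNReal.ofReal (k ^ c) := by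
  obtain ⟨a, A, C', ha, ha1, hA, hA1, hC', hpc⟩ := path_contr N d hN β hβ
  obtain ⟨C6, hC6, hgr⟩ := grow_all N d β hβ
  obtain ⟨q0, hq0, hst⟩ := start3 N d hN β hβ
  set η : ℝ := min (1 / 200) (a / (640 * C6)) with hη
  have hη0 : 0 < η := by positivity
  have hη1 : η ≤ a / (640 * C6) := min_le_right _ _
  have hη2 : η ≤ 1 / 200 := min_le_left _ _
  set s1 : ℝ := η / (14 * (4 * C6 + 4 * C' + 12)) with hs1
  have hs0 : 0 < s1 := by positivity
  refine ⟨q0, s1, a / 8, (2 * C6 + 1) / η + 27 * C6 + 3, hq0, hs0, by positivity,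
    by positivity, ?_⟩
  intro q hq M T Rb hM hT
  set ρ0 : ℝ := (4 * C6 + 2) * T with hρ0
  set R : ℕ := ⌈ρ0 + 2 * (C' + 2) * (T + 1)⌉₊ with hR
  set T1 : ℝ := 2 * (7 * M + 7 * s1 * R + 6) with hT1
  have hT1a : T1 ≤ 26 * M + η * T := Core3_T1 hC6 hC' hM hT hη0 hρ0 hs1
  have hT10 : 26 ≤ T1 := by
    have : 0 ≤ s1 * R := by positivity
    rw [hT1]
    nlinarith
  have hRle : ρ0 + 2 * (C' + 2) * (T + 1) ≤ (R : ℝ) := Nat.le_ceil _
  obtain ⟨c1, k1, hc1, hk1, hk11, hst1⟩ := hst q hq M s1 T1 R hM hs0.le le_rfl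
  obtain ⟨c2, k2, hc2, hk2, hk21, hsy⟩ := stay3 N d hN β hβ T R hT
  obtain ⟨k3, hk3, hk31, hpc1⟩ := hpc T R hT
  obtain ⟨k4, hk4, hk41, hgrT⟩ := hgr T (by linarith)
  obtain ⟨k5, hk5, hk51, hgrT1⟩ := hgr T1 (by linarith)
  set c : ℝ := min (min c1 c2) (1 / 4) / 2 with hc
  have hc0 : 0 < c := by positivity
  have h2c : 2 * c = min (min c1 c2) (1 / 4) := by
    rw [hc]
    ring
  have h2c1 : 2 * c ≤ c1 := by
    rw [h2c]
    exact (min_le_left _ _).trans (min_le_left _ _)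
  have h2c2 : 2 * c ≤ c2 := by
    rw [h2c]
    exact (min_le_left _ _).trans (min_le_right _ _)
  have h2c4 : 2 * c ≤ 1 / 4 := by
    rw [h2c]
    exact min_le_right _ _
  obtain ⟨k6, hk6, hk61, hk62⟩ := Core3_small 4 c hc0
  obtain ⟨k7, hk7, hk71, hk72⟩ := Core3_small 2 1 (by norm_num)
  obtain ⟨k8, hk8, hk81, hk82⟩ := Core3_small (3 ^ d) (3 / 2) (by norm_num)
  set ks : ℝ := min (min (min k1 k2) (min k3 k4)) (min (min k5 k6) (min (min k7 k8)
    (Real.exp (-1)))) with hks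
  have l1 : ks ≤ k1 := ((min_le_left _ _).trans (min_le_left _ _)).trans (min_le_left _ _)
  have l2 : ks ≤ k2 := ((min_le_left _ _).trans (min_le_left _ _)).trans (min_le_right _ _)
  have l3 : ks ≤ k3 := ((min_le_left _ _).trans (min_le_right _ _)).trans (min_le_left _ _)
  have l4 : ks ≤ k4 := ((min_le_left _ _).trans (min_le_right _ _)).trans (min_le_right _ _)
  have l5 : ks ≤ k5 := ((min_le_right _ _).trans (min_le_left _ _)).trans (min_le_left _ _)
  have l6 : ks ≤ k6 := ((min_le_right _ _).trans (min_le_left _ _)).trans (min_le_right _ _)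
  have l7 : ks ≤ k7 := (((min_le_right _ _).trans (min_le_right _ _)).trans
    (min_le_left _ _)).trans (min_le_left _ _)
  have l8 : ks ≤ k8 := (((min_le_right _ _).trans (min_le_right _ _)).trans
    (min_le_left _ _)).trans (min_le_right _ _)
  have l9 : ks ≤ Real.exp (-1) := ((min_le_right _ _).trans (min_le_right _ _)).trans
    (min_le_right _ _)
  refine ⟨c, ks, hc0, by positivity, l1.trans_lt hk11, ?_⟩
  intro k hk hkks L
  have hkl : k < 1 := (hkks.trans_le l1).trans hk11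
  have hell : 1 ≤ ell k := Core3_ell hk (hkks.trans_le l9)
  have hkh : k ≤ 1 / 2 := by
    have h := hk72 k hk (hkks.trans_le l7)
    rw [Real.rpow_one] at h
    linarith
  have hk3d := hk82 k hk (hkks.trans_le l8)
  have hkc := hk62 k hk (hkks.trans_le l6)
  obtain ⟨h1, hh1, hst2⟩ := hst1 k hk (hkks.trans_le l1) (PS3 N d hN β k hβ hk.le)
    (bnoise3 hN) L
  obtain ⟨h2, hh2, hsy2⟩ := hsy k hk (hkks.trans_le l2) (PS3 N d hN β k hβ hk.le)
    (bnoise3 hN) L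
  obtain ⟨h3, hh3, hpc2⟩ := hpc1 k hk (hkks.trans_le l3)
  obtain ⟨h4, hh4, hgrT2⟩ := hgrT (Fam1 N d β k) k (PS3 N d hN β k hβ hk.le) hk
    (hkks.trans_le l4) (bnoise3 hN)
  obtain ⟨h5, hh5, hgrT12⟩ := hgrT1 (Fam1 N d β k) k (PS3 N d hN β k hβ hk.le) hk
    (hkks.trans_le l5) (bnoise3 hN)
  set hs : ℝ := min (min (min h1 h2) (min h3 h4)) (min h5 (1 / 4)) with hhs
  have m1 : hs ≤ h1 := ((min_le_left _ _).trans (min_le_left _ _)).trans (min_le_left _ _)
  have m2 : hs ≤ h2 := ((min_le_left _ _).trans (min_le_left _ _)).trans (min_le_right _ _)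
  have m3 : hs ≤ h3 := ((min_le_left _ _).trans (min_le_right _ _)).trans (min_le_left _ _)
  have m4 : hs ≤ h4 := ((min_le_left _ _).trans (min_le_right _ _)).trans (min_le_right _ _)
  have m5 : hs ≤ h5 := (min_le_right _ _).trans (min_le_left _ _)
  have m6 : hs ≤ 1 / 4 := (min_le_right _ _).trans (min_le_right _ _)
  refine ⟨hs, by positivity, ?_⟩
  intro h hh hlt G y hG hP1 hP2 n hn1 hn2 x hx
  have hD0 : 0 ≤ ‖G.1 y - G.2 y‖ := norm_nonneg _
  by_cases hcase : ρ0 < ((boxNet d L).dist x y : ℝ) ∨ η * T ≤ M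
  · -- far sites or large `M`
    have hg := hgrT2 h hh (hlt.trans_le m4) L G y hG n (by linarith)
    refine (measure_mono ?_).trans (hg.trans ?_)
    · rintro ω ⟨_, hω⟩
      refine ⟨x, lt_of_le_of_lt ?_ hω⟩
      apply mul_le_mul_of_nonneg_right _ hD0
      apply Core3_mono hk hkl
      exact Core3_expoA ha1 hC6 hT hM hη0 (Nat.cast_nonneg _) hcase
    · apply ENNReal.ofReal_le_ofReal
      have h6 := Core3_mono hk hkl (show c ≤ 1 by linarith)
      rwa [Real.rpow_one] at h6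
  · push Not at hcase
    obtain ⟨hxρ, hMη⟩ := hcase
    set n1 : ℕ := ⌈T1 * ell k / h⌉₊ with hn1d
    have hT1e : 0 ≤ T1 * ell k := by positivity
    have hn1a : T1 * ell k ≤ n1 * h := by
      have := Nat.le_ceil (T1 * ell k / h)
      rwa [div_le_iff₀ hh] at this
    have hn1b : (n1 : ℝ) * h < T1 * ell k + h := by
      have h6 := Nat.ceil_lt_add_one (div_nonneg hT1e hh.le)
      have h7 := mul_lt_mul_of_pos_right h6 hh
      rw [add_mul, div_mul_cancel₀ _ hh.ne', one_mul] at h7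
      exact h7
    have hh4' : h < 1 / 4 := hlt.trans_le m6
    have hηT : η * T ≤ 1 / 200 * T := mul_le_mul_of_nonneg_right hη2 (by linarith)
    have hT1T : T1 ≤ T / 4 := by linarith
    have hT1T' : T1 * ell k ≤ T / 4 * ell k := mul_le_mul_of_nonneg_right hT1T (by linarith)
    have hTe : 1 * ell k ≤ T * ell k := mul_le_mul_of_nonneg_right hT (by linarith)
    have hT1e' : 26 * ell k ≤ T1 * ell k := mul_le_mul_of_nonneg_right hT10 (by linarith)
    have hn1n : n1 ≤ n := by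
      have h6 : (n1 : ℝ) * h < n * h := by linarith
      have h7 : (n1 : ℝ) < n := lt_of_mul_lt_mul_right h6 hh.le
      exact_mod_cast h7.le
    have hmr : ((n - n1 : ℕ) : ℝ) * h = n * h - n1 * h := by
      rw [Nat.cast_sub hn1n]
      ring
    have hm1 : T / 2 * ell k ≤ ((n - n1 : ℕ) : ℝ) * h := by
      rw [hmr]
      linarith
    have hm2 : ((n - n1 : ℕ) : ℝ) * h ≤ T * ell k + 1 := by
      rw [hmr]
      have : 0 ≤ (n1 : ℝ) * h := by positivity
      linarith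
    have e1 := hst2 h hh (hlt.trans_le m1) G y hP1 hP2 n1 hn1a (by linarith)
    have e2 := hsy2 h hh (hlt.trans_le m2) G y n1 n (by linarith) hn1n (by linarith) hn2
    have e3 := hgrT12 h hh (hlt.trans_le m5) L G y hG n1 (by linarith)
    refine (Core3_near N d hN β k hβ hk hkl (c1 := c1) (c2 := c2)
      (e' := min (a * (((n - n1 : ℕ) : ℝ) * h) / ell k - A)
        ((R - ρ0) / 2 - C' * (((n - n1 : ℕ) : ℝ) * h) / ell k) / 2 - 1) L n1 n (n - n1) R
      (by omega) hkh hk3d G x y ?_ e1 e2 e3 ?_).trans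
      (Core3_final hk hkl h2c1 h2c2 h2c4 hkc)
    · rw [← mul_assoc, ← mul_assoc, Core3_mul hk, Core3_mul hk]
      apply mul_le_mul_of_nonneg_right _ hD0
      apply Core3_mono hk hkl
      have h6 := Core3_expo ha ha1 hA1 hC' hC6 hT hM hη0 hη1 hell hm1 hm2 hRle
        (show T1 + 1 ≤ 27 * M + η * T by linarith)
      linarith
    · intro G' hG'
      exact hpc2 h hh (hlt.trans_le m3) L G' x y (n - n1) _ ρ0 hm2 (by positivity) hG' hxρ
        (by
          have : 0 ≤ 2 * (C' + 2) * (T + 1) := by positivity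
          linarith)

end DynG

end

/-! ### from `Lib_MP_36b788g.Fin3` -/

section

/-!
# Mixing for `N ≥ 3` and small `k > 0`

PROOF of `large_N3`. `q` = maximum of `1` and the `q0` of `gc3_core`, `ly3`, `gv3`. `s1, c5, C5` of `gc3_core`; `B, c, CV` of `ly3` at `q`; `CD, a0` of `gd3`. `a = min (a0/2) (s1/2) (c/CD) (c5/(16 C5 CD)) …` (`≤ 1`). `cd` of `cd_box`. `fin_num` gives `T, M, K, Rb`. `gc3_core` at `q, M, T, Rb` gives `cc, k0`.
For `k` small: `S = PS3 N d hN β k hβ hk.le`, `s = 1/16/ell k`, `θ = a/ell k`, `TB = T ell k`, `BD = exp(CD a T)` (`√BD = exp(CD a T/2)`), `BV = 2`, `κ' = B exp(-(c T))`, `Ls = 0`, `p = k^cc`, `γ = k^(c5 T - C5 M)`, `γ^θ = exp(-(a (c5 T - C5 M)))`.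
Conditions on `k`: `ell k ≥ max 1 q …` (`4 q s ≤ 1`, `θ ≤ 1/2`), `k^(1/4) 2^(q-1) ≤ 1` (`V_one_pair`), `256 CV cd (2Rb+1)^d √BD k^(cc/4) ≤ 1`, all `k0`.
Fields of `Blk`: `exit` = `exit_bd`, `sum` = `lin_sum`, `gD` = `gd3` (restricting the integral to `alv` decreases it), `gV` = `gv3`, `ly` = `ly3`, `good` = `good_field` with `pot_of_wpr` and `gc3_core` for `n = ⌈T ell/h⌉₊` (`T ell ≤ n h ≤ T ell + h`), `hcd` = `cd_box`, `num` from `fin_num`: `8 √BD CV cd²/K = 1/8`, `4 √BD κ' cd ≤ 1/8`.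
`k^(-s) = e^{1/16} ≤ 11/10`. `mom_unif`, `mix_of_blk`, `link1`. Finally `k1` = half of the minimum of the bounds.
-/

open MeasureTheory ProbabilityTheory
open scoped ENNReal

namespace DynG

open Dyn DynC

private theorem Fin3_rpow_small (C ε : ℝ) (hC : 0 < C) (hε : 0 < ε) : ∃ k1 : ℝ, 0 < k1 ∧
    ∀ k, 0 < k → k ≤ k1 → C * k ^ ε ≤ 1 := by
  refine ⟨(1 / C) ^ (1 / ε), Real.rpow_pos_of_pos (by positivity) _, fun k hk hk1 => ?_⟩
  have h1 : k ^ ε ≤ ((1 / C) ^ (1 / ε)) ^ ε := Real.rpow_le_rpow hk.le hk1 hε.le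
  rw [← Real.rpow_mul (by positivity), one_div_mul_cancel hε.ne', Real.rpow_one] at h1
  calc C * k ^ ε ≤ C * (1 / C) := mul_le_mul_of_nonneg_left h1 hC.le
    _ = 1 := by field_simp

private theorem Fin3_ell_large (X : ℝ) : ∃ k1 : ℝ, 0 < k1 ∧ ∀ k, 0 < k → k ≤ k1 → X ≤ ell k := by
  refine ⟨Real.exp (-X), Real.exp_pos _, fun k hk hk1 => ?_⟩
  unfold ell
  rw [one_div, Real.log_inv]
  have h1 : Real.log k ≤ -X := by
    rw [← Real.log_exp (-X)]
    exact Real.log_le_log hk hk1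
  linarith

private theorem Fin3_rpow_theta (k a X : ℝ) (hk : 0 < k) (hl : 0 < ell k) :
    (k ^ X) ^ (a / ell k) = Real.exp (-(a * X)) := by
  rw [← Real.rpow_mul hk.le, Real.rpow_def_of_pos hk]
  congr 1
  have h1 : Real.log k = -ell k := by
    unfold ell
    rw [one_div, Real.log_inv, neg_neg]
  rw [h1]
  field_simp

theorem blk3 (N d : ℕ) (hN : 3 ≤ N) (β : ℝ) (hβ : 0 < β) : ∃ q a T BV cd K CD B c CV k1 : ℝ,
    0 < k1 ∧ k1 < 1 ∧ ∀ (k : ℝ) (hk : 0 < k), k ≤ k1 →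
    Blk (PS3 N d hN β k hβ hk.le) q (1 / 16 / ell k) a (a / ell k) (T * ell k)
      (Real.exp (CD * a * T)) BV (B * Real.exp (-(c * T))) CV K cd 0 := by
  obtain ⟨qG, s1, c5, C5, hqG, hs1, hc5, hC5, HG⟩ := gc3_core N d hN β hβ
  obtain ⟨qL, hqL, HL⟩ := ly3 N d hN β hβ
  obtain ⟨qV, hqV, HV⟩ := gv3 N d β (by omega) hβ
  obtain ⟨q, hq1, hqG', hqL', hqV'⟩ : ∃ q : ℝ, 1 ≤ q ∧ qG ≤ q ∧ qL ≤ q ∧ qV ≤ q :=
    ⟨max qG (max qL qV), hqG.trans (le_max_left _ _), le_max_left _ _,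
      (le_max_left _ _).trans (le_max_right _ _), (le_max_right _ _).trans (le_max_right _ _)⟩
  obtain ⟨B, c, CV, hB, hc, hCV, HL⟩ := HL q hqL'
  obtain ⟨CD, a0, hCD, ha0, HD⟩ := gd3 N d β hβ
  obtain ⟨a, ha, haa, has, hac, hac5⟩ : ∃ a : ℝ, 0 < a ∧ a ≤ a0 ∧ 2 * a ≤ s1 ∧ CD * a ≤ c ∧
      16 * C5 * CD * a ≤ c5 := by
    refine ⟨min (min a0 (s1 / 2)) (min (c / CD) (c5 / (16 * C5 * CD))), ?_, ?_, ?_, ?_, ?_⟩
    · refine lt_min (lt_min ha0 (by positivity)) (lt_min (by positivity) (by positivity))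
    · exact (min_le_left _ _).trans (min_le_left _ _)
    · have := (min_le_left (min a0 (s1 / 2)) (min (c / CD) (c5 / (16 * C5 * CD)))).trans
        (min_le_right _ _)
      linarith
    · have := (min_le_right (min a0 (s1 / 2)) (min (c / CD) (c5 / (16 * C5 * CD)))).trans
        (min_le_left _ _)
      rw [le_div_iff₀ hCD] at this
      linarith
    · have := (min_le_right (min a0 (s1 / 2)) (min (c / CD) (c5 / (16 * C5 * CD)))).trans
        (min_le_right _ _)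
      rw [le_div_iff₀ (by positivity)] at this
      linarith
  obtain ⟨cd, hcd1, hcd⟩ := cd_box d a ha
  obtain ⟨T, M, K, Rb, hT, hM, hK, hKe, hKM, n3, n4, n5, n6⟩ :=
    fin_num d CD c c5 C5 a B cd CV hCD hc hc5 hC5 ha hac hac5 hB hcd1 hCV
  obtain ⟨cc, kG, hcc, hkG, hkG1, HG⟩ := HG q hqG' M T Rb hM (by linarith)
  obtain ⟨kL, hkL, hkL1, HL⟩ := HL T hT
  obtain ⟨kV, hkV, hkV1, HV⟩ := HV q hqV' T (by linarith)
  obtain ⟨kD, hkD, hkD1, HD⟩ := HD T (by linarith)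
  obtain ⟨kE, hkE, HE⟩ := Fin3_ell_large (max 1 (max q (2 * a)))
  obtain ⟨kQ, hkQ, HQ⟩ := Fin3_rpow_small ((2 : ℝ) ^ (q - 1)) (1 / 4) (by positivity) (by norm_num)
  obtain ⟨kP, hkP, HP⟩ := Fin3_rpow_small
    (256 * CV * cd * (2 * (Rb : ℝ) + 1) ^ d * Real.exp (CD * a * T / 2)) (cc / 4)
    (by positivity) (by positivity)
  have hbn : ∀ (k : ℝ) (hk : 0 < k), BNoise N (PS3 N d hN β k hβ hk.le).ν
      (PS3 N d hN β k hβ hk.le).b (PS3 N d hN β k hβ hk.le).gd := fun k hk => bnoise3 hN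
  refine ⟨q, a, T, 2, cd, K, CD, B, c, CV,
    min (min (kG / 2) (min (kL / 2) (kV / 2))) (min (min (kD / 2) kE) (min kQ kP)), ?_, ?_, ?_⟩
  · refine lt_min (lt_min (by positivity) (lt_min (by positivity) (by positivity)))
      (lt_min (lt_min (by positivity) hkE) (lt_min hkQ hkP))
  · refine lt_of_le_of_lt ((min_le_left _ _).trans (min_le_left _ _)) ?_
    linarith
  intro k hk hkk
  have e1 := hkk.trans ((min_le_left _ _).trans (min_le_left _ _))
  have e2 := hkk.trans ((min_le_left _ _).trans ((min_le_right _ _).trans (min_le_left _ _)))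
  have e3 := hkk.trans ((min_le_left _ _).trans ((min_le_right _ _).trans (min_le_right _ _)))
  have e4 := hkk.trans ((min_le_right _ _).trans ((min_le_left _ _).trans (min_le_left _ _)))
  have e5 := hkk.trans ((min_le_right _ _).trans ((min_le_left _ _).trans (min_le_right _ _)))
  have e6 := hkk.trans ((min_le_right _ _).trans ((min_le_right _ _).trans (min_le_left _ _)))
  have e7 := hkk.trans ((min_le_right _ _).trans ((min_le_right _ _).trans (min_le_right _ _)))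
  have hkG' : k < kG := by linarith
  have hkL' : k < kL := by linarith
  have hkV' : k < kV := by linarith
  have hkD' : k < kD := by linarith
  have hk1 : k < 1 := by linarith
  have hE := HE k hk e5
  have hE1 : 1 ≤ ell k := (le_max_left _ _).trans hE
  have hEq : q ≤ ell k := (le_max_left _ _).trans ((le_max_right _ _).trans hE)
  have hEa : 2 * a ≤ ell k := (le_max_right _ _).trans ((le_max_right _ _).trans hE)
  have hl : 0 < ell k := by linarith
  have hQ := HQ k hk e6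
  have hP := HP k hk e7
  have hs : 0 < 1 / 16 / ell k := by positivity
  have hθ : 0 < a / ell k := by positivity
  have hTB : 0 < T * ell k := by positivity
  have hqs : 4 * q * (1 / 16 / ell k) ≤ 1 := by
    have : 4 * q * (1 / 16 / ell k) = (q / 4) / ell k := by ring
    rw [this, div_le_one hl]
    linarith
  have hsq : Real.sqrt (Real.exp (CD * a * T)) = Real.exp (CD * a * T / 2) := by
    rw [Real.sqrt_eq_iff_mul_self_eq (Real.exp_pos _).le (Real.exp_pos _).le, ← Real.exp_add]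
    congr 1
    ring
  have hBD : 1 ≤ Real.exp (CD * a * T) := Real.one_le_exp (by positivity)
  have hκ : 0 ≤ B * Real.exp (-(c * T)) := by positivity
  have hnh : ∀ h : ℝ, 0 < h → h < 1 → T * ell k ≤ (⌈T * ell k / h⌉₊ : ℝ) * h ∧
      (⌈T * ell k / h⌉₊ : ℝ) * h ≤ T * ell k + 1 := by
    intro h hh hh1
    have a1 : T * ell k / h ≤ (⌈T * ell k / h⌉₊ : ℝ) := Nat.le_ceil _
    have a2 : (⌈T * ell k / h⌉₊ : ℝ) < T * ell k / h + 1 := Nat.ceil_lt_add_one (by positivity)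
    constructor
    · rw [div_le_iff₀ hh] at a1
      exact a1
    · have a3 := mul_le_mul_of_nonneg_right a2.le hh.le
      have a4 : (T * ell k / h + 1) * h = T * ell k + h := by field_simp
      linarith
  refine
    { hk := hk
      hk1 := hk1
      hβ := hβ
      hq := hq1
      hs := hs
      hqs := hqs
      ha := ha
      hθ := hθ
      hθ1 := ?_
      hTB := hTB
      hBD := hBD
      hBV := by norm_num
      hκ := hκ
      hCV := by linarith
      hK := by linarith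
      vone := ?_
      exit := ?_
      sum := ?_
      gD := ?_
      gV := ?_
      ly := ?_
      good := ?_
      hcd := hcd
      num := ?_ }
  · rw [div_le_iff₀ hl]
    linarith
  · intro L G x
    refine V_one_pair hk hk1 hq1 hs ?_ G x
    linarith
  · intro L Sm ε0 hSm hε
    exact exit_bd N hβ hk.le _ (hbn k hk) L Sm ε0 hSm hε
  · intro L Sm hSm
    exact lin_sum N hβ hk.le _ (hbn k hk) L Sm hSm
  · intro L _
    obtain ⟨h0, hh0, H⟩ := HD _ k (PS3 N d hN β k hβ hk.le) hk hkD' (hbn k hk) a ha haa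
    refine ⟨h0, hh0, fun h hh hh1 G y hy n hn x => ?_⟩
    exact (setLIntegral_le_lintegral _ _).trans (H h hh hh1 L G y hy n hn x).1
  · intro L _
    obtain ⟨h0, hh0, H⟩ := HV _ k (PS3 N d hN β k hβ hk.le) hk hkV' (hbn k hk)
    exact ⟨h0, hh0, fun h hh hh1 G n hn x => H h hh hh1 L G n hn x⟩
  · intro L _
    exact HL k hk hkL' L
  · intro L _
    refine good_field N (PS3 N d hN β k hβ hk.le) (hbn k hk) hβ hk hk1 q (1 / 16 / ell k) a
      (a / ell k) (T * ell k) (B * Real.exp (-(c * T))) CV K cd (Real.exp (CD * a * T)) (k ^ cc)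
      (k ^ (c5 * T - C5 * M)) Rb hq1 hs (by linarith) ha hθ hTB hκ (by linarith) (by linarith)
      hcd1 hBD (Real.rpow_nonneg hk.le _) (Real.rpow_nonneg hk.le _) (fun x => (hcd L x).1)
      n3 ?_ ?_ ?_ ?_
    · rw [Fin3_rpow_theta k a _ hk hl]
      exact n5
    · rw [hsq, ← Real.rpow_mul hk.le]
      have : cc * (1 / 4) = cc / 4 := by ring
      rw [this]
      calc 256 * CV * cd * (2 * (Rb : ℝ) + 1) ^ d *
            (Real.exp (CD * a * T / 2) * k ^ (cc / 4)) =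
          256 * CV * cd * (2 * (Rb : ℝ) + 1) ^ d * Real.exp (CD * a * T / 2) * k ^ (cc / 4) := by
            ring
        _ ≤ 1 := hP
    · rw [hsq]
      exact n4
    · obtain ⟨hL0, hhL0, HL'⟩ := HL k hk hkL' L
      obtain ⟨hD0, hhD0, HD'⟩ := HD _ k (PS3 N d hN β k hβ hk.le) hk hkD' (hbn k hk) a ha haa
      obtain ⟨hG0, hhG0, HG'⟩ := HG k hk hkG' L
      refine ⟨min (min hL0 hD0) (min hG0 1), lt_min (lt_min hhL0 hhD0) (lt_min hhG0 one_pos), ?_⟩
      intro h hh hh1 G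
      have b1 : h < hL0 := lt_of_lt_of_le hh1 ((min_le_left _ _).trans (min_le_left _ _))
      have b2 : h < hD0 := lt_of_lt_of_le hh1 ((min_le_left _ _).trans (min_le_right _ _))
      have b3 : h < hG0 := lt_of_lt_of_le hh1 ((min_le_right _ _).trans (min_le_left _ _))
      have b4 : h < 1 := lt_of_lt_of_le hh1 ((min_le_right _ _).trans (min_le_right _ _))
      refine ⟨fun z => HL' h hh b1 G z, fun y hy => ⟨fun x => (HD' h hh b2 L G y hy _ le_rfl x).1,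
        fun x => (HD' h hh b2 L G y hy _ le_rfl x).2, fun hw x hx => ?_⟩⟩
      obtain ⟨p1, p2⟩ := pot_of_wpr hk hk1 ha hK hKM has G y hw
      exact HG' h hh b3 G y hy p1 p2 _ (hnh h hh b4).1 (hnh h hh b4).2 x hx
  · rw [hsq]
    have h1 : 4 * Real.exp (CD * a * T / 2) * (B * Real.exp (-(c * T)) + 2 * CV * cd / K) * cd =
        (32 * Real.exp (CD * a * T / 2) * cd * (B * Real.exp (-(c * T)))) / 8 +
          8 * Real.exp (CD * a * T / 2) * CV * cd ^ 2 / K := by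
      ring
    rw [h1]
    have h2 : 8 * Real.exp (CD * a * T / 2) * CV * cd ^ 2 / K = 1 / 8 := by
      rw [div_eq_iff (by linarith), hKe]
      ring
    rw [h2]
    linarith

theorem large_N3 (N d : ℕ) (hN : 3 ≤ N) (hd : 1 ≤ d) (β : ℝ) (hβ : 0 < β) :
    ∃ k1 : ℝ, 0 < k1 ∧ ∀ k, 0 < k → k ≤ k1 → DynB.ChainMix N d β k := by
  obtain ⟨q, a, T, BV, cd, K, CD, B, c, CV, k1, hk1, hk11, H⟩ := blk3 N d hN β hβ
  obtain ⟨CM, hCM, HM⟩ := mom_unif N d β hβ
  refine ⟨k1, hk1, fun k hk hkk => ?_⟩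
  have hB := H k hk hkk
  have hM := HM _ k (PS3 N d hN β k hβ hk.le) hk.le (by linarith) (bnoise3 hN)
  refine link1 N d β k hβ hk (mix_of_blk hd (PS3 N d hN β k hβ hk.le) q _ a _ _ _ BV _ CV K cd CM
    0 hB hM ?_)
  have hl : 0 < ell k := by
    unfold ell
    exact Real.log_pos (one_lt_one_div hk (by linarith))
  have h1 : Real.log k = -ell k := by
    unfold ell
    rw [one_div, Real.log_inv, neg_neg]
  rw [Real.rpow_def_of_pos hk, h1]
  have h2 : -ell k * -(1 / 16 / ell k) = 1 / 16 := by field_simp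
  rw [h2]
  have h3 := Real.exp_bound_div_one_sub_of_interval' (x := 1 / 16) (by norm_num) (by norm_num)
  have h4 : (1 : ℝ) / (1 - 1 / 16) ≤ 11 / 10 := by norm_num
  linarith

end DynG

end
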