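import Pool.Agent.Lib_MP_36b788_m.M22

/-!
# MP_36b788_pr, stationary limit: merged library part M36

Concatenation of smaller files (each in its own section), only to save build time.
-/

/-! ### from `Lib_MP_36b788c.MFe` -/

section

/-!
# Height model: Lyapunov function from disjoint pairs of sites

`a = 1/50`, periods of `np` steps with `v np ∈ [100,101]`.

PROOF of `dimer_gauss`: for independent `X, Y ~ N(0,t)`: `max(X,Y) = (X+Y)/2 + |X-Y|/2` with independent summands,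
`E e^{-a(X+Y)/2} = e^{a² t/4}`; `|X-Y|/2 = √(t/2) |Z|`, `E e^{-b|Z|} ≤ 1 - b E|Z| + b²/2`, `b = a √(t/2)`; `E|Z| ≥ 0.577` (`√(2/π)`, or from
`u ≥ α u² - (4/27) α³ u⁴` (`u ≥ 0`) with `α = 0.866`, fourth moment `3`). For `t ∈ [100,101]`: `e^{a + a² t/4} (1 - 0.577 b + b²/2) ≤ 0.96`.
`pair_step` (deterministic): `r = min (RR F p0) (RR F p1)`, `dd p0 p1 = 1`, `np ≥ 1` steps: with `W_i = Σ g(p_i)`, `O = max(osc p0, osc p1) + 1`:
`min (r + max W_0 W_1 - 1) (-O) ≤ min (RR F' p0) (RR F' p1)`, `F' = mf F g np`. Indeed `F'(p_i) ≥ min (RR F p_i + W_i) (-osc_i)` (as in `mf_stay`), `RR F' p0 ≥ F' p0`,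
`RR F' p0 ≥ F' p1 - 1`, and `max (min a c) (min b d) ≥ min (max a b) (min c d)`.
`pairs_affine`: for one period and `α, β ≥ 0`: `E Π_i (α e^{-a r_i'} + β) ≤ Π_i (α ρ1 e^{-a r_i} + α Co + β)`, `ρ1 = 97/100`, `Co` = bound of `E e^{a O}` (`osc_exp_nz`, `O ≤ osc_0+osc_1+1`): by `pair_step`
`e^{-a r'} ≤ e^{-a r} e^{-a(max(W_0,W_1) - 1)} + e^{aO}`; the factors for distinct pairs are independent (they depend on the noise at disjoint sets of sites). The
cap at zero: `e^{-a r}` with `r ≤ 0`; no further condition.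
`pairs_iter`: induction on the number of periods. `lyap_F`: `Λ = n a`: `e^{-Λ RR F'(y)} ≤ Π_i e^{2an} e^{-a r_i'}` (`RR F'(y) ≥ RR F'(p) - 2n`), `e^{-a r_i} ≤ e^{2an} e^{-a RR F(y)}`, and
`Π (A + B) = (A+B)^n ≤ 2^n (A^n + B^n)`.
-/

open MeasureTheory ProbabilityTheory
open scoped ENNReal

namespace DynC

private def MFe_HI {Ω : Type} [MeasurableSpace Ω] (μ : Measure Ω) (f : Ω → ℝ) (v : ℝ) : Prop :=
  Integrable f μ ∧ ∫ x, f x ∂μ = v

private lemma MFe_HI_add {Ω : Type} [MeasurableSpace Ω] {μ : Measure Ω} {f g : Ω → ℝ} {a b : ℝ}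
    (hf : MFe_HI μ f a) (hg : MFe_HI μ g b) : MFe_HI μ (fun x => f x + g x) (a + b) :=
  ⟨hf.1.add hg.1, by rw [integral_add hf.1 hg.1, hf.2, hg.2]⟩

private lemma MFe_HI_mul {Ω : Type} [MeasurableSpace Ω] {μ : Measure Ω} {f : Ω → ℝ} {a : ℝ}
    (c : ℝ) (hf : MFe_HI μ f a) : MFe_HI μ (fun x => c * f x) (c * a) :=
  ⟨hf.1.const_mul c, by rw [integral_const_mul, hf.2]⟩

private lemma MFe_mono (c : ℝ) (i j : ℕ) :
    MFe_HI ((gaussianReal 0 1).prod (gaussianReal 0 1))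
      (fun z : ℝ × ℝ => Real.exp (-(c * z.1)) ^ i * Real.exp (-(c * z.2)) ^ j)
      (Real.exp (c ^ 2 / 2) ^ (i ^ 2 + j ^ 2)) := by
  have h1 : ∀ k : ℕ, MFe_HI (gaussianReal 0 1) (fun x : ℝ => Real.exp (-(c * x)) ^ k)
      (Real.exp (c ^ 2 / 2) ^ (k ^ 2)) := by
    intro k
    have e : (fun x : ℝ => Real.exp (-(c * x)) ^ k) = fun x => Real.exp (-(k * c) * x) := by
      funext x
      rw [← Real.exp_nat_mul]
      congr 1
      ring
    refine ⟨?_, ?_⟩
    · rw [e]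
      exact integrable_exp_mul_gaussianReal _
    · rw [e]
      have := congrFun (mgf_id_gaussianReal (μ := 0) (v := 1)) (-(k * c))
      simp only [mgf, id] at this
      rw [this, ← Real.exp_nat_mul]
      congr 1
      push_cast
      ring
  have hi := h1 i
  have hj := h1 j
  refine ⟨hi.1.mul_prod hj.1, ?_⟩
  rw [integral_prod_mul (fun x : ℝ => Real.exp (-(c * x)) ^ i)
    (fun x : ℝ => Real.exp (-(c * x)) ^ j), hi.2, hj.2, ← pow_add]

private lemma MFe_min (A B : ℝ) :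
    min A B ≤ (A + B) / 2 - 1 / 2 * (14 / 5 * (A - B) ^ 2 - 10976 / 3375 * (A - B) ^ 4) := by
  have key : ∀ w : ℝ, 0 ≤ w → 14 / 5 * w ^ 2 - 10976 / 3375 * w ^ 4 ≤ w := by
    intro w hw
    have h : w - (14 / 5 * w ^ 2 - 10976 / 3375 * w ^ 4) =
        w * ((1 - 28 / 15 * w) ^ 2 * (1 + 14 / 15 * w)) := by ring
    have : 0 ≤ w * ((1 - 28 / 15 * w) ^ 2 * (1 + 14 / 15 * w)) := by positivity
    linarith
  rcases le_total A B with h | h
  · rw [min_eq_left h]
    have := key (B - A) (by linarith)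
    have e1 : (B - A) ^ 2 = (A - B) ^ 2 := by ring
    have e2 : (B - A) ^ 4 = (A - B) ^ 4 := by ring
    rw [e1, e2] at this
    linarith
  · rw [min_eq_right h]
    have := key (A - B) (by linarith)
    linarith

theorem dimer_gauss (t : ℝ) (h1 : 100 ≤ t) (h2 : t ≤ 101) :
    ∫⁻ z : ℝ × ℝ, ENNReal.ofReal (Real.exp (-(1 / 50) *
        (max (Real.sqrt t * z.1) (Real.sqrt t * z.2) - 1)))
        ∂((gaussianReal 0 1).prod (gaussianReal 0 1))
      ≤ ENNReal.ofReal (97 / 100) := by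
  set c : ℝ := 1 / 50 * Real.sqrt t with hc
  set y : ℝ := Real.exp (c ^ 2 / 2) with hy
  have hc2 : c ^ 2 = t / 2500 := by
    rw [hc, mul_pow, Real.sq_sqrt (by linarith)]
    ring
  set μ := (gaussianReal 0 1).prod (gaussianReal 0 1) with hμ
  have m := MFe_mono c
  -- the majorant
  have hI := MFe_HI_add (MFe_HI_add (MFe_HI_add (MFe_HI_add (MFe_HI_add (MFe_HI_add (MFe_HI_add
    (MFe_HI_add (MFe_HI_add
    (MFe_HI_mul (1 / 2) (m 1 0)) (MFe_HI_mul (1 / 2) (m 0 1)))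
    (MFe_HI_mul (-(7 / 5)) (m 2 0))) (MFe_HI_mul (14 / 5) (m 1 1))) (MFe_HI_mul (-(7 / 5)) (m 0 2)))
    (MFe_HI_mul (5488 / 3375) (m 4 0))) (MFe_HI_mul (-(21952 / 3375)) (m 3 1)))
    (MFe_HI_mul (32928 / 3375) (m 2 2))) (MFe_HI_mul (-(21952 / 3375)) (m 1 3)))
    (MFe_HI_mul (5488 / 3375) (m 0 4))
  have hI2 := MFe_HI_mul (Real.exp (1 / 50)) hI
  have hpt : ∀ z : ℝ × ℝ, Real.exp (-(1 / 50) *
      (max (Real.sqrt t * z.1) (Real.sqrt t * z.2) - 1)) ≤ Real.exp (1 / 50) *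
      (1 / 2 * (Real.exp (-(c * z.1)) ^ 1 * Real.exp (-(c * z.2)) ^ 0) +
        1 / 2 * (Real.exp (-(c * z.1)) ^ 0 * Real.exp (-(c * z.2)) ^ 1) +
        -(7 / 5) * (Real.exp (-(c * z.1)) ^ 2 * Real.exp (-(c * z.2)) ^ 0) +
        14 / 5 * (Real.exp (-(c * z.1)) ^ 1 * Real.exp (-(c * z.2)) ^ 1) +
        -(7 / 5) * (Real.exp (-(c * z.1)) ^ 0 * Real.exp (-(c * z.2)) ^ 2) +
        5488 / 3375 * (Real.exp (-(c * z.1)) ^ 4 * Real.exp (-(c * z.2)) ^ 0) +
        -(21952 / 3375) * (Real.exp (-(c * z.1)) ^ 3 * Real.exp (-(c * z.2)) ^ 1) +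
        32928 / 3375 * (Real.exp (-(c * z.1)) ^ 2 * Real.exp (-(c * z.2)) ^ 2) +
        -(21952 / 3375) * (Real.exp (-(c * z.1)) ^ 1 * Real.exp (-(c * z.2)) ^ 3) +
        5488 / 3375 * (Real.exp (-(c * z.1)) ^ 0 * Real.exp (-(c * z.2)) ^ 4)) := by
    intro z
    have e1 : Real.exp (-(1 / 50) * (max (Real.sqrt t * z.1) (Real.sqrt t * z.2) - 1)) =
        Real.exp (1 / 50) * min (Real.exp (-(c * z.1))) (Real.exp (-(c * z.2))) := by
      rcases le_total (Real.sqrt t * z.1) (Real.sqrt t * z.2) with h | h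
      · rw [max_eq_right h, min_eq_right (Real.exp_le_exp.mpr (by rw [hc]; nlinarith)),
          ← Real.exp_add]
        congr 1
        rw [hc]
        ring
      · rw [max_eq_left h, min_eq_left (Real.exp_le_exp.mpr (by rw [hc]; nlinarith)),
          ← Real.exp_add]
        congr 1
        rw [hc]
        ring
    rw [e1]
    refine mul_le_mul_of_nonneg_left ?_ (Real.exp_pos _).le
    refine (MFe_min _ _).trans (le_of_eq ?_)
    ring
  have hlt : ∫⁻ z : ℝ × ℝ, ENNReal.ofReal (Real.exp (-(1 / 50) *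
        (max (Real.sqrt t * z.1) (Real.sqrt t * z.2) - 1))) ∂μ ≤
      ENNReal.ofReal (Real.exp (1 / 50) * (1 / 2 * y ^ (1 ^ 2 + 0 ^ 2) + 1 / 2 * y ^ (0 ^ 2 + 1 ^ 2) +
        -(7 / 5) * y ^ (2 ^ 2 + 0 ^ 2) + 14 / 5 * y ^ (1 ^ 2 + 1 ^ 2) +
        -(7 / 5) * y ^ (0 ^ 2 + 2 ^ 2) + 5488 / 3375 * y ^ (4 ^ 2 + 0 ^ 2) +
        -(21952 / 3375) * y ^ (3 ^ 2 + 1 ^ 2) + 32928 / 3375 * y ^ (2 ^ 2 + 2 ^ 2) +
        -(21952 / 3375) * y ^ (1 ^ 2 + 3 ^ 2) + 5488 / 3375 * y ^ (0 ^ 2 + 4 ^ 2))) := by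
    refine (lintegral_mono fun z => ENNReal.ofReal_le_ofReal (hpt z)).trans ?_
    rw [← ofReal_integral_eq_lintegral_ofReal hI2.1
      (Filter.Eventually.of_forall fun z => (Real.exp_pos _).le.trans (hpt z))]
    exact ENNReal.ofReal_le_ofReal hI2.2.le
  refine hlt.trans (ENNReal.ofReal_le_ofReal ?_)
  -- numerics
  have y1 : 1 + 1 / 50 + 1 / 5000 ≤ y := by
    have h := Real.quadratic_le_exp_of_nonneg (x := 1 / 50) (by norm_num)
    have h' : Real.exp (1 / 50) ≤ y := Real.exp_le_exp.mpr (by rw [hc2]; linarith)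
    linarith
  have y2 : y ≤ 1 / (1 - 101 / 5000) := by
    have h' : y ≤ Real.exp (101 / 5000) := Real.exp_le_exp.mpr (by rw [hc2]; linarith)
    have h := Real.exp_bound_div_one_sub_of_interval (x := 101 / 5000) (by norm_num) (by norm_num)
    linarith
  have e1 : Real.exp (1 / 50) ≤ 50 / 49 := by
    have h := Real.exp_bound_div_one_sub_of_interval (x := 1 / 50) (by norm_num) (by norm_num)
    have e : (1 : ℝ) / (1 - 1 / 50) = 50 / 49 := by norm_num
    linarith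
  have y3 : y ≤ 10207 / 10000 := y2.trans (by norm_num)
  have x1 : 10408 / 10000 ≤ y ^ 2 := by nlinarith
  have x2 : y ^ 2 ≤ 10417 / 10000 := by
    have : y ^ 2 ≤ (1 / (1 - 101 / 5000)) ^ 2 := pow_le_pow_left₀ (by linarith) y2 2
    exact this.trans (by norm_num)
  have hP : 1 / 2 * y ^ (1 ^ 2 + 0 ^ 2) + 1 / 2 * y ^ (0 ^ 2 + 1 ^ 2) +
        -(7 / 5) * y ^ (2 ^ 2 + 0 ^ 2) + 14 / 5 * y ^ (1 ^ 2 + 1 ^ 2) +
        -(7 / 5) * y ^ (0 ^ 2 + 2 ^ 2) + 5488 / 3375 * y ^ (4 ^ 2 + 0 ^ 2) +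
        -(21952 / 3375) * y ^ (3 ^ 2 + 1 ^ 2) + 32928 / 3375 * y ^ (2 ^ 2 + 2 ^ 2) +
        -(21952 / 3375) * y ^ (1 ^ 2 + 3 ^ 2) + 5488 / 3375 * y ^ (0 ^ 2 + 4 ^ 2) ≤ 943 / 1000 := by
    have e : 1 / 2 * y ^ (1 ^ 2 + 0 ^ 2) + 1 / 2 * y ^ (0 ^ 2 + 1 ^ 2) +
        -(7 / 5) * y ^ (2 ^ 2 + 0 ^ 2) + 14 / 5 * y ^ (1 ^ 2 + 1 ^ 2) +
        -(7 / 5) * y ^ (0 ^ 2 + 2 ^ 2) + 5488 / 3375 * y ^ (4 ^ 2 + 0 ^ 2) +
        -(21952 / 3375) * y ^ (3 ^ 2 + 1 ^ 2) + 32928 / 3375 * y ^ (2 ^ 2 + 2 ^ 2) +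
        -(21952 / 3375) * y ^ (1 ^ 2 + 3 ^ 2) + 5488 / 3375 * y ^ (0 ^ 2 + 4 ^ 2) =
        y - 14 / 5 * (y ^ 2 * (y ^ 2 - 1)) + 10976 / 3375 * ((y ^ 2) ^ 4 *
          ((y ^ 2 - 1) ^ 2 * ((y ^ 2) ^ 2 + 2 * y ^ 2 + 3))) := by ring
    rw [e]
    have a1 : 10408 / 10000 * (408 / 10000) ≤ y ^ 2 * (y ^ 2 - 1) := by
      apply mul_le_mul x1 (by linarith) (by norm_num) (by positivity)
    have a2 : (y ^ 2) ^ 4 * ((y ^ 2 - 1) ^ 2 * ((y ^ 2) ^ 2 + 2 * y ^ 2 + 3)) ≤
        (10417 / 10000) ^ 4 * ((417 / 10000) ^ 2 *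
          ((10417 / 10000) ^ 2 + 2 * (10417 / 10000) + 3)) := by
      have h0 : (0 : ℝ) ≤ y ^ 2 - 1 := by linarith
      have h417 : y ^ 2 - 1 ≤ 417 / 10000 := by linarith
      gcongr
    have a3 : (10417 / 10000 : ℝ) ^ 4 * ((417 / 10000) ^ 2 *
          ((10417 / 10000) ^ 2 + 2 * (10417 / 10000) + 3)) ≤ 127 / 10000 := by norm_num
    linarith
  calc Real.exp (1 / 50) * _ ≤ Real.exp (1 / 50) * (943 / 1000) :=
        mul_le_mul_of_nonneg_left hP (Real.exp_pos _).le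
    _ ≤ 50 / 49 * (943 / 1000) := mul_le_mul_of_nonneg_right e1 (by norm_num)
    _ ≤ 97 / 100 := by norm_num


variable {S : Type} [Fintype S] {D : ℕ} (M : MSet S D)

private lemma MFe_low (F : S → ℝ) (g : ℕ → S → ℝ) (y : S) (n : ℕ) : ∀ c : ℝ,
    (∀ i, 1 ≤ i → i ≤ n + 1 → -c ≤ ∑ l ∈ Finset.Ico i (n + 1), g l y) →
    min (M.RR F y + ∑ j ∈ Finset.range (n + 1), g j y) (-c) ≤ M.mf F g (n + 1) y := by
  induction n with
  | zero =>
    intro c h
    have hc : 0 ≤ c := by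
      have := h 1 le_rfl le_rfl
      simp at this
      exact this
    show _ ≤ min 0 (M.RR F y + g 0 y)
    rw [Finset.sum_range_one]
    rcases le_total (M.RR F y + g 0 y) 0 with h0 | h0
    · rw [min_eq_right h0]; exact min_le_left _ _
    · rw [min_eq_left h0]; exact (min_le_right _ _).trans (by linarith)
  | succ n ih =>
    intro c h
    have hc : 0 ≤ c := by
      have := h (n + 2) (by omega) le_rfl
      simp at this
      exact this
    have ih' := ih (c + g (n + 1) y) (by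
      intro i h1 h2
      have := h i h1 (by omega)
      rw [Finset.sum_Ico_succ_top h2] at this
      linarith)
    have h3 : M.mf F g (n + 1) y ≤ M.RR (M.mf F g (n + 1)) y := self_le_RR M _ y
    show _ ≤ min 0 (M.RR (M.mf F g (n + 1)) y + g (n + 1) y)
    rw [Finset.sum_range_succ]
    refine le_min ((min_le_right _ _).trans (by linarith)) ?_
    have h4 : min (M.RR F y + (∑ j ∈ Finset.range (n + 1), g j y + g (n + 1) y)) (-c) ≤
        min (M.RR F y + ∑ j ∈ Finset.range (n + 1), g j y) (-(c + g (n + 1) y)) + g (n + 1) y := by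
      rw [← min_add_add_right]
      apply min_le_min
      · linarith
      · linarith
    linarith

private lemma MFe_one (F : S → ℝ) (g : ℕ → S → ℝ) (n : ℕ) (hn : 1 ≤ n) (y : S) :
    min (M.RR F y + ∑ j ∈ Finset.range n, g j y) (-(osc (fun j => g j y) n)) ≤ M.mf F g n y := by
  obtain ⟨m, rfl⟩ : ∃ m, n = m + 1 := ⟨n - 1, by omega⟩
  apply MFe_low
  intro i h1 h2
  have := sum_le_osc (fun j => g j y) h2 (le_refl (m + 1))
  exact (abs_le.mp this).1

theorem pair_step (F : S → ℝ) (g : ℕ → S → ℝ) (n : ℕ) (hn : 1 ≤ n) (p0 p1 : S)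
    (hp : M.dd p0 p1 = 1) :
    min (min (M.RR F p0) (M.RR F p1) +
        max (∑ j ∈ Finset.range n, g j p0) (∑ j ∈ Finset.range n, g j p1) - 1)
      (-(max (osc (fun j => g j p0) n) (osc (fun j => g j p1) n) + 1)) ≤
    min (M.RR (M.mf F g n) p0) (M.RR (M.mf F g n) p1) := by
  have key : ∀ a b : S, M.dd b a = 1 →
      (∑ j ∈ Finset.range n, g j b) ≤ (∑ j ∈ Finset.range n, g j a) →
      min (min (M.RR F a) (M.RR F b) + (∑ j ∈ Finset.range n, g j a) - 1)
      (-(max (osc (fun j => g j a) n) (osc (fun j => g j b) n) + 1)) ≤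
      min (M.RR (M.mf F g n) a) (M.RR (M.mf F g n) b) := by
    intro a b hab hle
    have h1 := MFe_one M F g n hn a
    have h2 : M.mf F g n a ≤ M.RR (M.mf F g n) a := self_le_RR M _ a
    have h3 := le_RR M (M.mf F g n) b a
    rw [hab] at h3
    push_cast at h3
    have h4 : min (min (M.RR F a) (M.RR F b) + (∑ j ∈ Finset.range n, g j a) - 1)
        (-(max (osc (fun j => g j a) n) (osc (fun j => g j b) n) + 1)) ≤
        min (M.RR F a + ∑ j ∈ Finset.range n, g j a) (-(osc (fun j => g j a) n)) - 1 := by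
      rw [← min_sub_sub_right]
      apply min_le_min
      · have := min_le_left (M.RR F a) (M.RR F b)
        linarith
      · have := le_max_left (osc (fun j => g j a) n) (osc (fun j => g j b) n)
        linarith
    apply le_min <;> linarith
  rcases le_total (∑ j ∈ Finset.range n, g j p1) (∑ j ∈ Finset.range n, g j p0) with h | h
  · rw [max_eq_left h]
    exact key p0 p1 (by rw [M.dd_comm]; exact hp) h
  · rw [max_eq_right h]
    have := key p1 p0 hp h
    rw [min_comm (M.RR F p1), max_comm (osc (fun j => g j p1) n),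
      min_comm (M.RR (M.mf F g n) p1)] at this
    exact this

private lemma MFe_law {κ : Type} (f : κ → S) (hf : Function.Injective f) :
    (PI (nz S)).map (fun ω (k : κ) (j : ℕ) => ω j (f k)) =
      Measure.infinitePi (fun _ : κ => PI (gaussianReal 0 1)) := by
  have e : PI (nz S) = (Measure.infinitePi (fun _ : ℕ × S => gaussianReal 0 1)).map
      (MeasurableEquiv.curry ℕ S ℝ) := by
    rw [Measure.infinitePi_map_curry (fun _ _ => gaussianReal 0 1)]
    unfold PI nz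
    congr! 2
    exact (Measure.infinitePi_eq_pi _).symm
  have hinj : Function.Injective (fun q : κ × ℕ => ((q.2, f q.1) : ℕ × S)) := by
    rintro ⟨k, j⟩ ⟨k', j'⟩ h
    simp only [Prod.mk.injEq] at h
    rw [h.1, hf h.2]
  rw [e, Measure.map_map (by fun_prop) (MeasurableEquiv.measurable _)]
  have e2 : (fun ω (k : κ) (j : ℕ) => ω j (f k)) ∘ (MeasurableEquiv.curry ℕ S ℝ) =
      (MeasurableEquiv.curry κ ℕ ℝ) ∘ (fun (η : ℕ × S → ℝ) (q : κ × ℕ) => η (q.2, f q.1)) := by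
    funext η
    rfl
  rw [e2, ← Measure.map_map (MeasurableEquiv.measurable _) (by fun_prop)]
  rw [Measure.map_infinitePi_infinitePi_of_inj (P := fun _ : ℕ × S => gaussianReal 0 1)
    (f := fun q : κ × ℕ => ((q.2, f q.1) : ℕ × S)) hinj]
  rw [Measure.infinitePi_map_curry (fun (_ : κ) (_ : ℕ) => gaussianReal 0 1)]
  rfl

private lemma MFe_law2 {n : ℕ} (p : Fin n → Fin 2 → S)
    (hp : Function.Injective (fun q : Fin n × Fin 2 => p q.1 q.2)) :
    (PI (nz S)).map (fun ω (i : Fin n) (a : Fin 2) (j : ℕ) => ω j (p i a)) =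
      Measure.infinitePi (fun _ : Fin n =>
        Measure.infinitePi (fun _ : Fin 2 => PI (gaussianReal 0 1))) := by
  rw [← Measure.infinitePi_map_curry (fun (_ : Fin n) (_ : Fin 2) => PI (gaussianReal 0 1)),
    ← MFe_law (fun q : Fin n × Fin 2 => p q.1 q.2) hp,
    Measure.map_map (MeasurableEquiv.measurable _) (by fun_prop)]
  rfl

private lemma MFe_indep {n : ℕ} (p : Fin n → Fin 2 → S)
    (hp : Function.Injective (fun q : Fin n × Fin 2 => p q.1 q.2))
    (f : Fin n → (Fin 2 → ℕ → ℝ) → ℝ≥0∞) (hf : ∀ i, Measurable (f i)) :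
    ∫⁻ ω, ∏ i, f i (fun a j => ω j (p i a)) ∂(PI (nz S)) =
      ∏ i, ∫⁻ x, f i x ∂(Measure.infinitePi (fun _ : Fin 2 => PI (gaussianReal 0 1))) := by
  have h1 : ∫⁻ ω, ∏ i, f i (fun a j => ω j (p i a)) ∂(PI (nz S)) =
      ∫⁻ x : Fin n → Fin 2 → ℕ → ℝ, ∏ i, f i (x i) ∂((PI (nz S)).map
        (fun ω (i : Fin n) (a : Fin 2) (j : ℕ) => ω j (p i a))) := by
    rw [lintegral_map]
    · exact Finset.measurable_prod _ (fun i _ => (hf i).comp (measurable_pi_apply i))
    · fun_prop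
  rw [h1, MFe_law2 p hp, lintegral_prod_eq_prod_lintegral_of_indepFun Finset.univ
    (fun i (x : Fin n → Fin 2 → ℕ → ℝ) => f i (x i))
    (iIndepFun_infinitePi (X := fun i x => f i x) hf)
    (fun i => (hf i).comp (measurable_pi_apply i))]
  refine Finset.prod_congr rfl fun i _ => ?_
  conv_rhs => rw [← Measure.infinitePi_map_eval (fun _ : Fin n =>
        Measure.infinitePi (fun _ : Fin 2 => PI (gaussianReal 0 1))) i]
  rw [lintegral_map (hf i) (measurable_pi_apply i)]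

private lemma MFe_marg (a0 : Fin 2) (f : (ℕ → ℝ) → ℝ≥0∞) (hf : Measurable f) :
    ∫⁻ x, f (x a0) ∂(Measure.infinitePi (fun _ : Fin 2 => PI (gaussianReal 0 1))) =
      ∫⁻ x, f x ∂(PI (gaussianReal 0 1)) := by
  conv_rhs => rw [← Measure.infinitePi_map_eval (fun _ : Fin 2 => PI (gaussianReal 0 1)) a0]
  rw [lintegral_map hf (measurable_pi_apply a0)]

private lemma MFe_site (x : S) (f : (ℕ → ℝ) → ℝ≥0∞) (hf : Measurable f) :
    ∫⁻ ω, f (fun j => ω j x) ∂(PI (nz S)) = ∫⁻ y, f y ∂(PI (gaussianReal 0 1)) := by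
  have h := MFe_law (fun _ : Unit => x) (fun _ _ _ => rfl)
  have h2 : ((PI (nz S)).map (fun ω (_ : Unit) (j : ℕ) => ω j x)).map
      (fun z : Unit → ℕ → ℝ => z ()) = PI (gaussianReal 0 1) := by
    rw [h, Measure.infinitePi_map_eval]
  rw [Measure.map_map (by fun_prop) (by fun_prop)] at h2
  rw [← h2, lintegral_map hf (by fun_prop)]
  rfl

private lemma MFe_sum (m : ℕ) :
    (PI (gaussianReal 0 1)).map (fun x : ℕ → ℝ => ∑ j ∈ Finset.range m, x j) =
      gaussianReal 0 m := by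
  induction m with
  | zero =>
    simp
  | succ m ih =>
    have hind : IndepFun (fun x : ℕ → ℝ => ∑ j ∈ Finset.range m, x j) (fun x : ℕ → ℝ => x m)
        (PI (gaussianReal 0 1)) := by
      have h := iIndepFun_infinitePi (P := fun _ : ℕ => gaussianReal 0 1)
        (X := fun _ x => x) (fun _ => measurable_id)
      have h2 := h.indepFun_finsetSum_of_notMem (fun i => measurable_pi_apply i)
        (s := Finset.range m) (i := m) (by simp)
      have e : (∑ j ∈ Finset.range m, fun ω : ℕ → ℝ => ω j) =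
          fun x : ℕ → ℝ => ∑ j ∈ Finset.range m, x j := by
        funext x
        simp
      rw [e] at h2
      exact h2
    have h3 := gaussianReal_add_gaussianReal_of_indepFun (P := PI (gaussianReal 0 1)) hind ih
      (map_coord (μ := gaussianReal 0 1) m)
    have e2 : (fun x : ℕ → ℝ => ∑ j ∈ Finset.range (m + 1), x j) =
        (fun x : ℕ → ℝ => ∑ j ∈ Finset.range m, x j) + (fun x : ℕ → ℝ => x m) := by
      funext x
      simp [Finset.sum_range_succ]
    rw [e2, h3]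
    simp

private lemma MFe_sc (v : ℝ) (np : ℕ) (hv : 0 < v) :
    (PI (gaussianReal 0 1)).map (fun x : ℕ → ℝ => ∑ j ∈ Finset.range np, Real.sqrt v * x j) =
      (gaussianReal 0 1).map (fun z => Real.sqrt (v * np) * z) := by
  have e : (fun x : ℕ → ℝ => ∑ j ∈ Finset.range np, Real.sqrt v * x j) =
      (fun z : ℝ => Real.sqrt v * z) ∘ (fun x : ℕ → ℝ => ∑ j ∈ Finset.range np, x j) := by
    funext x
    simp [Finset.mul_sum]
  rw [e, ← Measure.map_map (by fun_prop) (by fun_prop), MFe_sum,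
    gaussianReal_map_const_mul, gaussianReal_map_const_mul]
  congr 1
  · simp
  · apply NNReal.coe_injective
    push_cast
    have h1 : Real.sqrt v ^ 2 = v := Real.sq_sqrt hv.le
    have h2 : Real.sqrt (v * np) ^ 2 = v * np := Real.sq_sqrt (by positivity)
    show Real.sqrt v ^ 2 * (np : ℝ) = Real.sqrt (v * np) ^ 2 * 1
    rw [h1, h2, mul_one]

private lemma MFe_G (v : ℝ) (np : ℕ) (hv : 0 < v) (h1 : 100 ≤ v * np) (h2 : v * np ≤ 101) :
    ∫⁻ x : Fin 2 → ℕ → ℝ, ENNReal.ofReal (Real.exp (-(1 / 50) *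
        (max (∑ j ∈ Finset.range np, Real.sqrt v * x 0 j)
          (∑ j ∈ Finset.range np, Real.sqrt v * x 1 j) - 1)))
        ∂(Measure.infinitePi (fun _ : Fin 2 => PI (gaussianReal 0 1)))
      ≤ ENNReal.ofReal (97 / 100) := by
  set s : (ℕ → ℝ) → ℝ := fun x => ∑ j ∈ Finset.range np, Real.sqrt v * x j with hs
  have hsm : Measurable s := by fun_prop
  have : IsProbabilityMeasure ((PI (gaussianReal 0 1)).map s) :=
    Measure.isProbabilityMeasure_map hsm.aemeasurable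
  have hmap : (Measure.infinitePi (fun _ : Fin 2 => PI (gaussianReal 0 1))).map
      (fun x : Fin 2 → ℕ → ℝ => (s (x 0), s (x 1))) =
      ((PI (gaussianReal 0 1)).map s).prod ((PI (gaussianReal 0 1)).map s) := by
    have h := Measure.infinitePi_map_pi (μ := fun _ : Fin 2 => PI (gaussianReal 0 1))
      (f := fun _ : Fin 2 => s) (fun _ => hsm)
    have h' := Measure.infinitePi_map_eval_prod (P := fun _ : Fin 2 => (PI (gaussianReal 0 1)).map s)
      (i := 0) (j := 1) (by decide)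
    rw [← h, Measure.map_map (by fun_prop) (by fun_prop)] at h'
    exact h'
  have hh : Measurable (fun z : ℝ × ℝ => ENNReal.ofReal (Real.exp (-(1 / 50) *
      (max z.1 z.2 - 1)))) := by fun_prop
  have e1 : ∫⁻ x : Fin 2 → ℕ → ℝ, ENNReal.ofReal (Real.exp (-(1 / 50) *
        (max (s (x 0)) (s (x 1)) - 1)))
        ∂(Measure.infinitePi (fun _ : Fin 2 => PI (gaussianReal 0 1))) =
      ∫⁻ z : ℝ × ℝ, ENNReal.ofReal (Real.exp (-(1 / 50) * (max z.1 z.2 - 1)))
        ∂((Measure.infinitePi (fun _ : Fin 2 => PI (gaussianReal 0 1))).map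
      (fun x : Fin 2 → ℕ → ℝ => (s (x 0), s (x 1)))) := by
    rw [lintegral_map hh (by fun_prop)]
  rw [e1, hmap, MFe_sc v np hv, Measure.map_prod_map _ _ (by fun_prop) (by fun_prop),
    lintegral_map hh (by fun_prop)]
  exact dimer_gauss (v * np) h1 h2

private lemma MFe_pmax_meas (c : ℝ) (n : ℕ) :
    Measurable (fun x : ℕ → ℝ => pmax (fun j => c * x j) n) := by
  have h := Finset.measurable_range_sup'' (n := n)
    (f := fun m (x : ℕ → ℝ) => ∑ j ∈ Finset.range m, c * x j) (fun m _ => by fun_prop)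
  exact h

private lemma MFe_osc_meas (c : ℝ) (n : ℕ) :
    Measurable (fun x : ℕ → ℝ => osc (fun j => c * x j) n) := by
  unfold osc
  refine (MFe_pmax_meas c n).add ?_
  have h := MFe_pmax_meas (-c) n
  convert h using 3
  funext j
  ring

private lemma MFe_osc (v : ℝ) (np : ℕ) (hv : 0 < v) (h2 : v * np ≤ 101) :
    ∫⁻ x : Fin 2 → ℕ → ℝ, ENNReal.ofReal (Real.exp (1 / 50 *
        (max (osc (fun j => Real.sqrt v * x 0 j) np) (osc (fun j => Real.sqrt v * x 1 j) np) + 1)))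
        ∂(Measure.infinitePi (fun _ : Fin 2 => PI (gaussianReal 0 1)))
      ≤ ENNReal.ofReal (8 * Real.exp (1 / 50 + 808 / 2500)) := by
  have hm : Measurable (fun y : ℕ → ℝ =>
      ENNReal.ofReal (Real.exp (1 / 50 * osc (fun j => Real.sqrt v * y j) np))) :=
    ENNReal.measurable_ofReal.comp (Real.measurable_exp.comp ((MFe_osc_meas _ _).const_mul _))
  have h1 : ∫⁻ y, ENNReal.ofReal (Real.exp (1 / 50 * osc (fun j => Real.sqrt v * y j) np))
      ∂(PI (gaussianReal 0 1)) ≤ ENNReal.ofReal (4 * Real.exp (808 / 2500)) := by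
    rw [← MFe_site (S := Unit) () _ hm]
    refine (osc_exp_nz (S := Unit) (1 / 50) v (by norm_num) hv.le np ()).trans ?_
    apply ENNReal.ofReal_le_ofReal
    have : 8 * (1 / 50 : ℝ) ^ 2 * v * np ≤ 808 / 2500 := by nlinarith
    gcongr
  have hpt : ∀ x : Fin 2 → ℕ → ℝ, ENNReal.ofReal (Real.exp (1 / 50 *
        (max (osc (fun j => Real.sqrt v * x 0 j) np) (osc (fun j => Real.sqrt v * x 1 j) np) + 1)))
      ≤ ENNReal.ofReal (Real.exp (1 / 50)) *
        ENNReal.ofReal (Real.exp (1 / 50 * osc (fun j => Real.sqrt v * x 0 j) np)) +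
        ENNReal.ofReal (Real.exp (1 / 50)) *
        ENNReal.ofReal (Real.exp (1 / 50 * osc (fun j => Real.sqrt v * x 1 j) np)) := by
    intro x
    rw [← ENNReal.ofReal_mul (Real.exp_pos _).le, ← ENNReal.ofReal_mul (Real.exp_pos _).le,
      ← ENNReal.ofReal_add (by positivity) (by positivity), ← Real.exp_add, ← Real.exp_add]
    apply ENNReal.ofReal_le_ofReal
    rcases le_total (osc (fun j => Real.sqrt v * x 0 j) np)
      (osc (fun j => Real.sqrt v * x 1 j) np) with h | h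
    · rw [max_eq_right h]
      have e : 1 / 50 * (osc (fun j => Real.sqrt v * x 1 j) np + 1) =
        1 / 50 + 1 / 50 * osc (fun j => Real.sqrt v * x 1 j) np := by ring
      rw [e]
      have := Real.exp_pos (1 / 50 + 1 / 50 * osc (fun j => Real.sqrt v * x 0 j) np)
      linarith
    · rw [max_eq_left h]
      have e : 1 / 50 * (osc (fun j => Real.sqrt v * x 0 j) np + 1) =
        1 / 50 + 1 / 50 * osc (fun j => Real.sqrt v * x 0 j) np := by ring
      rw [e]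
      have := Real.exp_pos (1 / 50 + 1 / 50 * osc (fun j => Real.sqrt v * x 1 j) np)
      linarith
  have hm0 : ∀ a : Fin 2, Measurable (fun x : Fin 2 → ℕ → ℝ =>
      ENNReal.ofReal (Real.exp (1 / 50 * osc (fun j => Real.sqrt v * x a j) np))) :=
    fun a => hm.comp (measurable_pi_apply a)
  refine (lintegral_mono hpt).trans ?_
  rw [lintegral_add_left ((hm0 0).const_mul _), lintegral_const_mul _ (hm0 0),
    lintegral_const_mul _ (hm0 1)]
  have m0 := MFe_marg 0 _ hm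
  have m1 := MFe_marg 1 _ hm
  rw [m0, m1]
  refine (add_le_add (mul_le_mul_right h1 _) (mul_le_mul_right h1 _)).trans ?_
  rw [← ENNReal.ofReal_mul (Real.exp_pos _).le, ← ENNReal.ofReal_add (by positivity)
    (by positivity)]
  apply ENNReal.ofReal_le_ofReal
  rw [Real.exp_add]
  linarith

/-- one period of `np` steps, `v np ∈ [100,101]` -/
theorem pairs_affine : ∃ Co : ℝ, 1 ≤ Co ∧
    ∀ (S : Type) [Fintype S] (D : ℕ) (M : MSet S D) (v : ℝ) (np : ℕ), 0 < v → v ≤ 1 →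
      100 ≤ v * np → v * np ≤ 101 → ∀ (n : ℕ) (p : Fin n → Fin 2 → S),
      Function.Injective (fun q : Fin n × Fin 2 => p q.1 q.2) →
      (∀ i, M.dd (p i 0) (p i 1) = 1) → ∀ (F : S → ℝ) (α b : ℝ), 0 ≤ α → 0 ≤ b →
      ∫⁻ ω, ENNReal.ofReal (∏ i, (α * Real.exp (-(1 / 50) *
          min (M.RR (M.mf F (sc v ω) np) (p i 0)) (M.RR (M.mf F (sc v ω) np) (p i 1))) + b))
          ∂(PI (nz S))
        ≤ ENNReal.ofReal (∏ i, (α * (97 / 100) * Real.exp (-(1 / 50) *
          min (M.RR F (p i 0)) (M.RR F (p i 1))) + α * Co + b)) := by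
  refine ⟨8 * Real.exp (1 / 50 + 808 / 2500), ?_, ?_⟩
  · have := Real.one_le_exp (x := 1 / 50 + 808 / 2500) (by norm_num)
    linarith
  intro S _ D M v np hv hv1 h1 h2 n p hp hdd F α b hα hb
  have hnp : 1 ≤ np := by
    rcases Nat.eq_zero_or_pos np with h | h
    · rw [h] at h1
      norm_num at h1
    · exact h
  set r : Fin n → ℝ := fun i => min (M.RR F (p i 0)) (M.RR F (p i 1)) with hr
  set G : (Fin 2 → ℕ → ℝ) → ℝ := fun x => Real.exp (-(1 / 50) *
        (max (∑ j ∈ Finset.range np, Real.sqrt v * x 0 j)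
          (∑ j ∈ Finset.range np, Real.sqrt v * x 1 j) - 1)) with hG
  set O : (Fin 2 → ℕ → ℝ) → ℝ := fun x => Real.exp (1 / 50 *
        (max (osc (fun j => Real.sqrt v * x 0 j) np) (osc (fun j => Real.sqrt v * x 1 j) np) + 1))
    with hO
  have hGm : Measurable G := by
    rw [hG]
    fun_prop
  have hOm : Measurable O := by
    rw [hO]
    exact Real.measurable_exp.comp ((((MFe_osc_meas _ _).comp (measurable_pi_apply 0)).max
      ((MFe_osc_meas _ _).comp (measurable_pi_apply 1))).add_const 1 |>.const_mul _)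
  set f : Fin n → (Fin 2 → ℕ → ℝ) → ℝ≥0∞ := fun i x =>
    ENNReal.ofReal (α * Real.exp (-(1 / 50) * r i)) * ENNReal.ofReal (G x) +
      ENNReal.ofReal α * ENNReal.ofReal (O x) + ENNReal.ofReal b with hf
  have hfm : ∀ i, Measurable (f i) := fun i =>
    (((ENNReal.measurable_ofReal.comp hGm).const_mul _).add
      ((ENNReal.measurable_ofReal.comp hOm).const_mul _)).add_const _
  have hpt : ∀ ω : ℕ → S → ℝ, ENNReal.ofReal (∏ i, (α * Real.exp (-(1 / 50) *
          min (M.RR (M.mf F (sc v ω) np) (p i 0)) (M.RR (M.mf F (sc v ω) np) (p i 1))) + b)) ≤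
      ∏ i, f i (fun a j => ω j (p i a)) := by
    intro ω
    rw [ENNReal.ofReal_prod_of_nonneg (fun i _ => by positivity)]
    refine Finset.prod_le_prod' fun i _ => ?_
    have hstep := pair_step M F (sc v ω) np hnp (p i 0) (p i 1) (hdd i)
    have hGi : G (fun a j => ω j (p i a)) = Real.exp (-(1 / 50) *
        (max (∑ j ∈ Finset.range np, sc v ω j (p i 0))
          (∑ j ∈ Finset.range np, sc v ω j (p i 1)) - 1)) := rfl
    have hOi : O (fun a j => ω j (p i a)) = Real.exp (1 / 50 *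
        (max (osc (fun j => sc v ω j (p i 0)) np) (osc (fun j => sc v ω j (p i 1)) np) + 1)) := rfl
    rw [hf]
    simp only
    rw [hGi, hOi, ← ENNReal.ofReal_mul (by positivity), ← ENNReal.ofReal_mul hα,
      ← ENNReal.ofReal_add (by positivity) (by positivity),
      ← ENNReal.ofReal_add (by positivity) hb]
    apply ENNReal.ofReal_le_ofReal
    have hkey : Real.exp (-(1 / 50) * min (M.RR (M.mf F (sc v ω) np) (p i 0))
        (M.RR (M.mf F (sc v ω) np) (p i 1))) ≤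
        Real.exp (-(1 / 50) * r i) * Real.exp (-(1 / 50) *
        (max (∑ j ∈ Finset.range np, sc v ω j (p i 0))
          (∑ j ∈ Finset.range np, sc v ω j (p i 1)) - 1)) + Real.exp (1 / 50 *
        (max (osc (fun j => sc v ω j (p i 0)) np) (osc (fun j => sc v ω j (p i 1)) np) + 1)) := by
      rw [← Real.exp_add]
      rcases min_le_iff.mp hstep with h | h
      · have h3 : Real.exp (-(1 / 50) * min (M.RR (M.mf F (sc v ω) np) (p i 0))
            (M.RR (M.mf F (sc v ω) np) (p i 1))) ≤ Real.exp (-(1 / 50) * r i + -(1 / 50) *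
            (max (∑ j ∈ Finset.range np, sc v ω j (p i 0))
            (∑ j ∈ Finset.range np, sc v ω j (p i 1)) - 1)) := by
          apply Real.exp_le_exp.mpr
          rw [hr]
          simp only
          linarith
        have := Real.exp_pos (1 / 50 * (max (osc (fun j => sc v ω j (p i 0)) np)
          (osc (fun j => sc v ω j (p i 1)) np) + 1))
        linarith
      · have h3 : Real.exp (-(1 / 50) * min (M.RR (M.mf F (sc v ω) np) (p i 0))
            (M.RR (M.mf F (sc v ω) np) (p i 1))) ≤ Real.exp (1 / 50 *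
            (max (osc (fun j => sc v ω j (p i 0)) np) (osc (fun j => sc v ω j (p i 1)) np) + 1)) := by
          apply Real.exp_le_exp.mpr
          linarith
        have := Real.exp_pos (-(1 / 50) * r i + -(1 / 50) *
            (max (∑ j ∈ Finset.range np, sc v ω j (p i 0))
            (∑ j ∈ Finset.range np, sc v ω j (p i 1)) - 1))
        linarith
    have := mul_le_mul_of_nonneg_left hkey hα
    linarith
  refine (lintegral_mono hpt).trans ?_
  rw [MFe_indep p hp f hfm, ENNReal.ofReal_prod_of_nonneg (fun i _ => by positivity)]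
  refine Finset.prod_le_prod' fun i _ => ?_
  rw [hf]
  simp only
  have hGm' : Measurable (fun x => ENNReal.ofReal (G x)) := hGm.ennreal_ofReal
  have hOm' : Measurable (fun x => ENNReal.ofReal (O x)) := hOm.ennreal_ofReal
  rw [lintegral_add_right _ measurable_const,
    lintegral_add_left (hGm'.const_mul _),
    lintegral_const_mul _ hGm', lintegral_const_mul _ hOm', lintegral_const]
  simp only [measure_univ, mul_one]
  refine (add_le_add (add_le_add (mul_le_mul_right (MFe_G v np hv h1 h2) _)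
    (mul_le_mul_right (MFe_osc v np hv h2) _)) le_rfl).trans ?_
  rw [← ENNReal.ofReal_mul (by positivity), ← ENNReal.ofReal_mul hα,
      ← ENNReal.ofReal_add (by positivity) (by positivity),
      ← ENNReal.ofReal_add (by positivity) hb]
  apply ENNReal.ofReal_le_ofReal
  apply le_of_eq
  ring

private lemma MFe_meas {S : Type} [Fintype S] {D : ℕ} (M : MSet S D) (F : S → ℝ) (v : ℝ) (k : ℕ)
    (x : S) : Measurable (fun ω : ℕ → S → ℝ => M.RR (M.mf F (sc v ω) k) x) := by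
  refine (measurable_RR M x).comp (measurable_pi_lambda _ fun y => ?_)
  have h : Measurable (fun ω : ℕ → S → ℝ => ((F, sc v ω) : (S → ℝ) × (ℕ → S → ℝ))) := by
    unfold sc
    fun_prop
  exact (measurable_mf M k y).comp h

private lemma MFe_glue {S : Type} [Fintype S] {D : ℕ} (M : MSet S D) (F : S → ℝ) (v : ℝ)
    (np k : ℕ) (a b : ℕ → S → ℝ) :
    M.mf F (sc v (glue np a b)) (np + k) = M.mf (M.mf F (sc v a) np) (sc v b) k := by
  rw [mf_shift]
  have e1 : M.mf F (sc v (glue np a b)) np = M.mf F (sc v a) np := by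
    apply mf_congr
    intro j hj
    funext x
    simp [sc, glue, hj]
  have e2 : (fun j => sc v (glue np a b) (np + j)) = sc v b := by
    funext j x
    simp [sc, glue]
  rw [e1, e2]

/-- `w` periods -/
theorem pairs_iter : ∃ C1 : ℝ, 1 ≤ C1 ∧
    ∀ (S : Type) [Fintype S] (D : ℕ) (M : MSet S D) (v : ℝ) (np : ℕ), 0 < v → v ≤ 1 →
      100 ≤ v * np → v * np ≤ 101 → ∀ (w n : ℕ) (p : Fin n → Fin 2 → S),
      Function.Injective (fun q : Fin n × Fin 2 => p q.1 q.2) →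
      (∀ i, M.dd (p i 0) (p i 1) = 1) → ∀ (F : S → ℝ),
      ∫⁻ ω, ENNReal.ofReal (∏ i, Real.exp (-(1 / 50) *
          min (M.RR (M.mf F (sc v ω) (w * np)) (p i 0)) (M.RR (M.mf F (sc v ω) (w * np)) (p i 1))))
          ∂(PI (nz S))
        ≤ ENNReal.ofReal (∏ i, ((97 / 100) ^ w * Real.exp (-(1 / 50) *
          min (M.RR F (p i 0)) (M.RR F (p i 1))) + C1)) := by
  obtain ⟨Co, hCo, H⟩ := pairs_affine
  refine ⟨Co * (100 / 3), by linarith, ?_⟩
  intro S _ D M v np hv hv1 h1 h2 w n p hp hdd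
  have key : ∀ (w : ℕ) (F : S → ℝ) (α b : ℝ), 0 ≤ α → 0 ≤ b →
      ∫⁻ ω, ENNReal.ofReal (∏ i, (α * Real.exp (-(1 / 50) *
          min (M.RR (M.mf F (sc v ω) (w * np)) (p i 0))
            (M.RR (M.mf F (sc v ω) (w * np)) (p i 1))) + b)) ∂(PI (nz S))
        ≤ ENNReal.ofReal (∏ i, (α * (97 / 100) ^ w * Real.exp (-(1 / 50) *
          min (M.RR F (p i 0)) (M.RR F (p i 1))) +
            (α * (Co * (100 / 3)) * (1 - (97 / 100) ^ w) + b))) := by
    intro w
    induction w with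
    | zero =>
      intro F α b hα hb
      simp [MSet.mf]
    | succ w ih =>
      intro F α b hα hb
      have hpow : (0 : ℝ) ≤ 1 - (97 / 100) ^ w := by
        have : ((97 : ℝ) / 100) ^ w ≤ 1 := pow_le_one₀ (by norm_num) (by norm_num)
        linarith
      have e : (w + 1) * np = np + w * np := by ring
      have hm : Measurable (fun ω : ℕ → S → ℝ => ENNReal.ofReal (∏ i, (α * Real.exp (-(1 / 50) *
          min (M.RR (M.mf F (sc v ω) (np + w * np)) (p i 0))
            (M.RR (M.mf F (sc v ω) (np + w * np)) (p i 1))) + b))) := by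
        refine ENNReal.measurable_ofReal.comp (Finset.measurable_prod _ fun i _ => ?_)
        exact ((Real.measurable_exp.comp (((MFe_meas M F v _ _).min
          (MFe_meas M F v _ _)).const_mul _)).const_mul _).add_const _
      rw [e, lintegral_glue np _ hm]
      have h3 : ∀ a : ℕ → S → ℝ, ∫⁻ b', ENNReal.ofReal (∏ i, (α * Real.exp (-(1 / 50) *
          min (M.RR (M.mf F (sc v (glue np a b')) (np + w * np)) (p i 0))
            (M.RR (M.mf F (sc v (glue np a b')) (np + w * np)) (p i 1))) + b)) ∂(PI (nz S)) ≤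
          ENNReal.ofReal (∏ i, (α * (97 / 100) ^ w * Real.exp (-(1 / 50) *
          min (M.RR (M.mf F (sc v a) np) (p i 0)) (M.RR (M.mf F (sc v a) np) (p i 1))) +
            (α * (Co * (100 / 3)) * (1 - (97 / 100) ^ w) + b))) := by
        intro a
        simp only [MFe_glue]
        exact ih (M.mf F (sc v a) np) α b hα hb
      refine (lintegral_mono h3).trans ?_
      refine (H S D M v np hv hv1 h1 h2 n p hp hdd F (α * (97 / 100) ^ w)
        (α * (Co * (100 / 3)) * (1 - (97 / 100) ^ w) + b) (by positivity) (by positivity)).trans ?_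
      apply ENNReal.ofReal_le_ofReal
      apply le_of_eq
      refine Finset.prod_congr rfl fun i _ => ?_
      rw [pow_succ]
      ring
  intro F
  have h := key w F 1 0 zero_le_one le_rfl
  simp only [one_mul, add_zero] at h
  refine h.trans (ENNReal.ofReal_le_ofReal ?_)
  refine Finset.prod_le_prod (fun i _ => ?_) (fun i _ => ?_)
  · have : ((97 : ℝ) / 100) ^ w ≤ 1 := pow_le_one₀ (by norm_num) (by norm_num)
    have h2 : (0 : ℝ) ≤ 1 - (97 / 100) ^ w := by linarith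
    positivity
  · have : (0 : ℝ) ≤ ((97 : ℝ) / 100) ^ w := by positivity
    nlinarith

/-- single site Lyapunov estimate with `n` pairs -/
theorem lyap_F : ∃ C1 : ℝ, 1 ≤ C1 ∧
    ∀ (S : Type) [Fintype S] (D : ℕ) (M : MSet S D) (v : ℝ) (np : ℕ), 0 < v → v ≤ 1 →
      100 ≤ v * np → v * np ≤ 101 → ∀ (w n : ℕ), M.HasLine n → ∀ (F : S → ℝ) (y : S),
      ∫⁻ ω, ENNReal.ofReal (Real.exp (-(n / 50) * M.RR (M.mf F (sc v ω) (w * np)) y))
          ∂(PI (nz S))
        ≤ ENNReal.ofReal (2 ^ n * Real.exp (4 / 50 * n ^ 2) * (97 / 100) ^ (w * n) *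
            Real.exp (-(n / 50) * M.RR F y) + 2 ^ n * Real.exp (2 / 50 * n ^ 2) * C1 ^ n) := by
  obtain ⟨C1, hC1, H⟩ := pairs_iter
  refine ⟨C1, hC1, ?_⟩
  intro S _ D M v np hv hv1 h1 h2 w n hline F y
  obtain ⟨p, hp, hdd, hy⟩ := hline y
  have hfar : ∀ (F' : S → ℝ) (i : Fin n) (a : Fin 2), M.RR F' (p i a) ≤ M.RR F' y + 2 * n := by
    intro F' i a
    have h3 := RR_lip M F' (p i a) y
    have h4 : (M.dd (p i a) y : ℝ) ≤ 2 * n := by
      rw [M.dd_comm]
      exact_mod_cast hy i a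
    linarith
  have hnear : ∀ (F' : S → ℝ) (i : Fin n) (a : Fin 2), M.RR F' y ≤ M.RR F' (p i a) + 2 * n := by
    intro F' i a
    have h3 := RR_lip M F' y (p i a)
    have h4 : (M.dd y (p i a) : ℝ) ≤ 2 * n := by exact_mod_cast hy i a
    linarith
  have hexp : ∀ u : ℝ, Real.exp (-(n / 50) * u) = ∏ _i : Fin n, Real.exp (-(1 / 50) * u) := by
    intro u
    rw [Finset.prod_const, Finset.card_univ, Fintype.card_fin, ← Real.exp_nat_mul]
    congr 1
    ring
  have hpt : ∀ ω : ℕ → S → ℝ,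
      ENNReal.ofReal (Real.exp (-(n / 50) * M.RR (M.mf F (sc v ω) (w * np)) y)) ≤
      ENNReal.ofReal (Real.exp (2 / 50 * n ^ 2)) * ENNReal.ofReal (∏ i, Real.exp (-(1 / 50) *
          min (M.RR (M.mf F (sc v ω) (w * np)) (p i 0))
            (M.RR (M.mf F (sc v ω) (w * np)) (p i 1)))) := by
    intro ω
    rw [← ENNReal.ofReal_mul (Real.exp_pos _).le]
    apply ENNReal.ofReal_le_ofReal
    have e : Real.exp (2 / 50 * (n : ℝ) ^ 2) = ∏ _i : Fin n, Real.exp (2 / 50 * n) := by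
      rw [Finset.prod_const, Finset.card_univ, Fintype.card_fin, ← Real.exp_nat_mul]
      congr 1
      ring
    rw [e, ← Finset.prod_mul_distrib, hexp]
    refine Finset.prod_le_prod (fun i _ => (Real.exp_pos _).le) (fun i _ => ?_)
    rw [← Real.exp_add]
    apply Real.exp_le_exp.mpr
    have := hfar (M.mf F (sc v ω) (w * np)) i 0
    have h5 := min_le_left (M.RR (M.mf F (sc v ω) (w * np)) (p i 0))
      (M.RR (M.mf F (sc v ω) (w * np)) (p i 1))
    linarith
  refine (lintegral_mono hpt).trans ?_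
  rw [lintegral_const_mul' _ _ ENNReal.ofReal_ne_top]
  refine (mul_le_mul_right (H S D M v np hv hv1 h1 h2 w n p hp hdd F) _).trans ?_
  rw [← ENNReal.ofReal_mul (Real.exp_pos _).le]
  apply ENNReal.ofReal_le_ofReal
  set A : ℝ := (97 / 100) ^ w * (Real.exp (2 / 50 * n) * Real.exp (-(1 / 50) * M.RR F y)) with hA
  have hA0 : 0 ≤ A := by positivity
  have hprod : ∏ i, ((97 / 100) ^ w * Real.exp (-(1 / 50) *
          min (M.RR F (p i 0)) (M.RR F (p i 1))) + C1) ≤ (A + C1) ^ n := by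
    have e : (A + C1) ^ n = ∏ _i : Fin n, (A + C1) := by
      rw [Finset.prod_const, Finset.card_univ, Fintype.card_fin]
    rw [e]
    refine Finset.prod_le_prod (fun i _ => by positivity) (fun i _ => ?_)
    rw [hA]
    gcongr
    rw [← Real.exp_add]
    apply Real.exp_le_exp.mpr
    have h3 := hnear F i 0
    have h4 := hnear F i 1
    have h5 : M.RR F y - 2 * n ≤ min (M.RR F (p i 0)) (M.RR F (p i 1)) :=
      le_min (by linarith) (by linarith)
    linarith
  have hpow : (A + C1) ^ n ≤ 2 ^ n * (A ^ n + C1 ^ n) := by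
    have h3 : A + C1 ≤ 2 * max A C1 := by
      have := le_max_left A C1
      have := le_max_right A C1
      linarith
    calc (A + C1) ^ n ≤ (2 * max A C1) ^ n := pow_le_pow_left₀ (by positivity) h3 n
      _ = 2 ^ n * (max A C1) ^ n := mul_pow _ _ _
      _ ≤ 2 ^ n * (A ^ n + C1 ^ n) := by
        gcongr
        rcases le_total A C1 with h | h
        · rw [max_eq_right h]
          have : 0 ≤ A ^ n := by positivity
          linarith
        · rw [max_eq_left h]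
          have : 0 ≤ C1 ^ n := by positivity
          linarith
  have hAn : A ^ n = (97 / 100) ^ (w * n) *
      (Real.exp (2 / 50 * n ^ 2) * Real.exp (-(n / 50) * M.RR F y)) := by
    rw [hA, mul_pow, mul_pow, ← pow_mul, ← Real.exp_nat_mul, ← Real.exp_nat_mul]
    congr 2
    · congr 1
      ring
    · congr 1
      ring
  calc Real.exp (2 / 50 * n ^ 2) * ∏ i, ((97 / 100) ^ w * Real.exp (-(1 / 50) *
          min (M.RR F (p i 0)) (M.RR F (p i 1))) + C1)
      ≤ Real.exp (2 / 50 * n ^ 2) * (2 ^ n * (A ^ n + C1 ^ n)) :=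
        mul_le_mul_of_nonneg_left (hprod.trans hpow) (Real.exp_pos _).le
    _ = 2 ^ n * (Real.exp (2 / 50 * n ^ 2) * Real.exp (2 / 50 * n ^ 2)) * (97 / 100) ^ (w * n) *
            Real.exp (-(n / 50) * M.RR F y) + 2 ^ n * Real.exp (2 / 50 * n ^ 2) * C1 ^ n := by
        rw [hAn]
        ring
    _ = _ := by
        rw [← Real.exp_add]
        congr 5
        ring

end DynC

end

/-! ### from `Lib_MP_36b788c.MFf` -/

section

/-!
# Height model: an uncut lineage has many good windows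

`Y_0 = 1`, `Y_{w+1}(z') = Σ_z e^{-3 dd z z'} (θ if B_w(z) else 1) Y_w(z)`, `B_w(z) = B(F_{w nu}, ω^{(w)}, z)`.

PROOF.
* `Yp_path`: for every sequence `z_0, …, z_m`: `e^{-3 Σ_{w<m} dd z_w z_{w+1}} θ^{#{w<m : B_w(z_w)}} ≤ Y_m(z_m)` (keep one term of each sum).
* `Yp_exp`: let `h(F,z) ≥ 1` with `E_ω[(θ if B(F,ω,z) else 1) h(mf F ω nu, z')] ≤ b1 e^{dd z z'} h(F,z)` for all `F ≤ 0`, `z`, `z'`, and
  `h(X,z) ≤ H0 e^{dd z x}`. Then `E[Y_w(z) h(F_{w nu},z)] ≤ (b1 CS)^w H0 e^{dd z x}`, `CS ≥ sup_x Σ_z e^{-dd x z}`. Induction on `w` with `lintegral_glue (w nu)`: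
  `E[Y_{w+1}(z') h(F_{w+1},z')] = Σ_z e^{-3dd z z'} E[Y_w(z) E_ω[..]] ≤ Σ_z e^{-2 dd z z'} b1 E[Y_w(z) h(F_w,z)] ≤ b1 (b1 CS)^w H0 Σ_z e^{-2dd z z' + dd z x}`, `dd z x ≤ dd z z' + dd z' x`.
* `bad_many`: on the event, with `z_w` = position of the lineage of `(x, m nu + r')` at time `w nu`, `Σ_{w<m} dd z_w z_{w+1} + dd z_m x ≤ len ≤ R`:
  `θ^{k} ≤ e^{3R} Σ_z e^{-3 dd z x} Y_m(z)`; take expectations, `E Y_m(z) ≤ (b1 CS)^m H0 e^{dd z x}`: `θ^k P ≤ e^{3R} CS (b1 CS)^m H0`.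
* `lyap_h`: `h(F,z) = 1 + (θ/K) Φ(F,z)`, `Φ(F,z) = Σ_y e^{-dd y z} e^{-Λ RR F y}`, `B = {Φ(F,z) > K}`. If `E e^{-Λ RR F'(y)} ≤ ρ e^{-Λ RR F(y)} + CL`: `E Φ(F',z') ≤ ρ e^{dd z z'} Φ(F,z) + CL CS`.
  `Φ(F,z) ≤ K`: `E h' ≤ 1 + θ CL CS/K + ρ e^{dd} (θ/K)Φ ≤ (1 + θ CL CS/K + ρ) e^{dd} h`. `Φ > K`: `h ≥ (θ/K)Φ ≥ θ`:
  `θ E h' ≤ θ (1 + θ CL CS / K) + θ ρ e^{dd} (θ/K) Φ ≤ (1 + θCL CS/K + θρ) e^{dd} h`. So `b1 = 1 + θ CL CS/K + θ ρ` (`θ ≥ 1`).
  Take `θ = 1/ρ`, `K ≥ θ CL CS`: `b1 ≤ 3`.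
-/

open MeasureTheory ProbabilityTheory
open scoped ENNReal

namespace DynC

variable {S : Type} [Fintype S] {D : ℕ} (M : MSet S D)

/-- weighted sum over sequences of positions -/
noncomputable def Yp (v θ : ℝ) (nu : ℕ) (B : (S → ℝ) → (ℕ → S → ℝ) → S → Prop) (X : S → ℝ)
    (ω : ℕ → S → ℝ) : ℕ → S → ℝ
  | 0 => fun _ => 1
  | w + 1 => fun z' => open Classical in ∑ z, Real.exp (-(3 * (M.dd z z' : ℝ))) *
      (if B (M.mf X (sc v ω) (w * nu)) (fun j => ω (w * nu + j)) z then θ else 1) *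
      Yp v θ nu B X ω w z

private theorem MFf_Yp_succ (v θ : ℝ) (nu : ℕ) (B : (S → ℝ) → (ℕ → S → ℝ) → S → Prop) (X : S → ℝ)
    (ω : ℕ → S → ℝ) (w : ℕ) (z' : S) : open Classical in
    Yp M v θ nu B X ω (w + 1) z' = ∑ z, Real.exp (-(3 * (M.dd z z' : ℝ))) *
      (if B (M.mf X (sc v ω) (w * nu)) (fun j => ω (w * nu + j)) z then θ else 1) *
      Yp M v θ nu B X ω w z := rfl

private theorem MFf_Yp_nonneg (v θ : ℝ) (hθ : 1 ≤ θ) (nu : ℕ)
    (B : (S → ℝ) → (ℕ → S → ℝ) → S → Prop) (X : S → ℝ)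
    (ω : ℕ → S → ℝ) (w : ℕ) : ∀ z, 0 ≤ Yp M v θ nu B X ω w z := by
  classical
  induction w with
  | zero => intro z; exact zero_le_one
  | succ w ih =>
    intro z'
    rw [MFf_Yp_succ]
    apply Finset.sum_nonneg
    intro z _
    apply mul_nonneg _ (ih z)
    apply mul_nonneg (Real.exp_nonneg _)
    split_ifs
    · linarith
    · exact zero_le_one

private theorem MFf_sc_glue (v : ℝ) (n : ℕ) (a b : ℕ → S → ℝ) (j : ℕ) (hj : j < n) :
    sc v (glue n a b) j = sc v a j := by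
  funext y
  simp only [sc, glue, if_pos hj]

private theorem MFf_glue_add (n : ℕ) (a b : ℕ → S → ℝ) :
    (fun j => glue n a b (n + j)) = b := by
  funext j
  simp only [glue]
  rw [if_neg (by omega)]
  congr 1
  omega

private theorem MFf_mf_glue (v : ℝ) (X : S → ℝ) (n : ℕ) (a b : ℕ → S → ℝ) :
    M.mf X (sc v (glue n a b)) n = M.mf X (sc v a) n :=
  mf_congr M X _ _ n (fun j hj => MFf_sc_glue v n a b j hj)

private theorem MFf_mf_glue_add (v : ℝ) (X : S → ℝ) (n m : ℕ) (a b : ℕ → S → ℝ) :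
    M.mf X (sc v (glue n a b)) (n + m) = M.mf (M.mf X (sc v a) n) (sc v b) m := by
  rw [mf_shift, MFf_mf_glue]
  congr 1
  funext j y
  have h := congrFun (congrFun (MFf_glue_add n a b) j) y
  simp only [sc]
  rw [h]

private theorem MFf_Yp_congr (v θ : ℝ) (nu : ℕ) (B : (S → ℝ) → (ℕ → S → ℝ) → S → Prop)
    (hB : ∀ F z ω ω', (∀ j, j < nu → ω j = ω' j) → (B F ω z ↔ B F ω' z)) (X : S → ℝ)
    (ω ω' : ℕ → S → ℝ) (w : ℕ) : (∀ j, j < w * nu → ω j = ω' j) →
    ∀ z, Yp M v θ nu B X ω w z = Yp M v θ nu B X ω' w z := by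
  classical
  induction w with
  | zero => intro _ z; rfl
  | succ w ih =>
    intro hj z'
    have hj' : ∀ j, j < w * nu → ω j = ω' j := by
      intro j h
      apply hj
      have : (w + 1) * nu = w * nu + nu := by ring
      omega
    rw [MFf_Yp_succ, MFf_Yp_succ]
    apply Finset.sum_congr rfl
    intro z _
    rw [ih hj' z]
    have h1 : M.mf X (sc v ω) (w * nu) = M.mf X (sc v ω') (w * nu) := by
      apply mf_congr
      intro j h
      funext y
      simp only [sc, hj' j h]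
    have h2 : (B (M.mf X (sc v ω) (w * nu)) (fun j => ω (w * nu + j)) z) ↔
        (B (M.mf X (sc v ω') (w * nu)) (fun j => ω' (w * nu + j)) z) := by
      rw [h1]
      apply hB
      intro j h
      apply hj
      have : (w + 1) * nu = w * nu + nu := by ring
      omega
    have h3 : (if B (M.mf X (sc v ω) (w * nu)) (fun j => ω (w * nu + j)) z then θ else 1) =
        (if B (M.mf X (sc v ω') (w * nu)) (fun j => ω' (w * nu + j)) z then θ else 1) := by
      by_cases h : B (M.mf X (sc v ω) (w * nu)) (fun j => ω (w * nu + j)) z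
      · rw [if_pos h, if_pos (h2.mp h)]
      · rw [if_neg h, if_neg (fun h' => h (h2.mpr h'))]
    rw [h3]

private theorem MFf_meas_sc (v : ℝ) : Measurable (fun ω : ℕ → S → ℝ => sc v ω) := by
  apply measurable_pi_lambda
  intro j
  apply measurable_pi_lambda
  intro y
  simp only [sc]
  exact measurable_const.mul ((measurable_pi_apply y).comp (measurable_pi_apply j))

private theorem MFf_meas_mf (v : ℝ) (X : S → ℝ) (n : ℕ) :
    Measurable (fun ω : ℕ → S → ℝ => M.mf X (sc v ω) n) := by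
  apply measurable_pi_lambda
  intro y
  exact (measurable_mf M n y).comp (measurable_const.prodMk (MFf_meas_sc v))

private theorem MFf_meas_tail (n : ℕ) :
    Measurable (fun ω : ℕ → S → ℝ => fun j => ω (n + j)) := by
  apply measurable_pi_lambda
  intro j
  exact measurable_pi_apply _

private theorem MFf_meas_Yp (v θ : ℝ) (nu : ℕ) (B : (S → ℝ) → (ℕ → S → ℝ) → S → Prop)
    (hm : ∀ z, MeasurableSet {p : (S → ℝ) × (ℕ → S → ℝ) | B p.1 p.2 z}) (X : S → ℝ)
    (w : ℕ) : ∀ z, Measurable (fun ω => Yp M v θ nu B X ω w z) := by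
  classical
  induction w with
  | zero => intro z; exact measurable_const
  | succ w ih =>
    intro z'
    simp only [MFf_Yp_succ]
    apply Finset.measurable_sum
    intro z _
    refine (measurable_const.mul ?_).mul (ih z)
    refine Measurable.ite ?_ measurable_const measurable_const
    exact ((MFf_meas_mf M v X (w * nu)).prodMk (MFf_meas_tail (w * nu))) (hm z)

private theorem MFf_CS_nonneg (CS : ℝ) (hS : ∀ x, ∑ z, Real.exp (-(M.dd x z : ℝ)) ≤ CS) (x : S) :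
    0 ≤ CS :=
  le_trans (Finset.sum_nonneg fun z _ => Real.exp_nonneg _) (hS x)

theorem Yp_exp (v θ b1 CS H0 : ℝ) (hθ : 1 ≤ θ) (hb1 : 0 ≤ b1) (hH : 0 ≤ H0) (nu : ℕ)
    (B : (S → ℝ) → (ℕ → S → ℝ) → S → Prop)
    (hm : ∀ z, MeasurableSet {p : (S → ℝ) × (ℕ → S → ℝ) | B p.1 p.2 z})
    (hB : ∀ F z ω ω', (∀ j, j < nu → ω j = ω' j) → (B F ω z ↔ B F ω' z))
    (hS : ∀ x, ∑ z, Real.exp (-(M.dd x z : ℝ)) ≤ CS)
    (h : (S → ℝ) → S → ℝ) (hhm : ∀ z, Measurable fun F => h F z) (hh1 : ∀ F z, 1 ≤ h F z)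
    (hdrift : ∀ F, (∀ y, F y ≤ 0) → ∀ z z', open Classical in
      ∫⁻ ω, ENNReal.ofReal ((if B F ω z then θ else 1) * h (M.mf F (sc v ω) nu) z') ∂(PI (nz S))
        ≤ ENNReal.ofReal (b1 * Real.exp (M.dd z z') * h F z))
    (X : S → ℝ) (hX : ∀ y, X y ≤ 0) (x : S) (hX0 : ∀ z, h X z ≤ H0 * Real.exp (M.dd z x)) (w : ℕ)
    (z : S) :
    ∫⁻ ω, ENNReal.ofReal (Yp M v θ nu B X ω w z * h (M.mf X (sc v ω) (w * nu)) z) ∂(PI (nz S))
      ≤ ENNReal.ofReal ((b1 * CS) ^ w * H0 * Real.exp (M.dd z x)) := by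
  classical
  have hCS : 0 ≤ CS := MFf_CS_nonneg M CS hS x
  induction w generalizing z with
  | zero =>
    have h0 : ∀ ω : ℕ → S → ℝ, ENNReal.ofReal (Yp M v θ nu B X ω 0 z *
        h (M.mf X (sc v ω) (0 * nu)) z) = ENNReal.ofReal (h X z) := by
      intro ω
      have h1 : M.mf X (sc v ω) (0 * nu) = X := by rw [Nat.zero_mul]; rfl
      have h2 : Yp M v θ nu B X ω 0 z = 1 := rfl
      rw [h1, h2, one_mul]
    simp only [h0]
    rw [lintegral_const, measure_univ, mul_one, pow_zero, one_mul]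
    exact ENNReal.ofReal_le_ofReal (hX0 z)
  | succ w ih =>
    have hmeas : ∀ (n : ℕ) (y : S), Measurable (fun ω : ℕ → S → ℝ =>
        h (M.mf X (sc v ω) n) y) := fun n y => (hhm y).comp (MFf_meas_mf M v X n)
    have hwn : (w + 1) * nu = w * nu + nu := by ring
    have hmF : Measurable (fun ω : ℕ → S → ℝ => ENNReal.ofReal (Yp M v θ nu B X ω (w + 1) z *
        h (M.mf X (sc v ω) ((w + 1) * nu)) z)) :=
      ((MFf_meas_Yp M v θ nu B hm X (w + 1) z).mul (hmeas ((w + 1) * nu) z)).ennreal_ofReal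
    rw [lintegral_glue (w * nu) _ hmF]
    -- integrand for fixed `a`
    have key : ∀ a : ℕ → S → ℝ, ∫⁻ b, ENNReal.ofReal (Yp M v θ nu B X (glue (w * nu) a b) (w + 1) z *
        h (M.mf X (sc v (glue (w * nu) a b)) ((w + 1) * nu)) z) ∂(PI (nz S)) ≤
        ∑ y, ENNReal.ofReal (b1 * Real.exp (-(2 * (M.dd y z : ℝ)))) *
          ENNReal.ofReal (Yp M v θ nu B X a w y * h (M.mf X (sc v a) (w * nu)) y) := by
      intro a
      have e1 : ∀ b : ℕ → S → ℝ, ENNReal.ofReal (Yp M v θ nu B X (glue (w * nu) a b) (w + 1) z *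
          h (M.mf X (sc v (glue (w * nu) a b)) ((w + 1) * nu)) z) =
          ∑ y, ENNReal.ofReal (Real.exp (-(3 * (M.dd y z : ℝ))) * Yp M v θ nu B X a w y) *
            ENNReal.ofReal ((if B (M.mf X (sc v a) (w * nu)) b y then θ else 1) *
              h (M.mf (M.mf X (sc v a) (w * nu)) (sc v b) nu) z) := by
        intro b
        have hh0 : 0 ≤ h (M.mf (M.mf X (sc v a) (w * nu)) (sc v b) nu) z :=
          le_trans zero_le_one (hh1 _ _)
        rw [MFf_Yp_succ, hwn, MFf_mf_glue_add, MFf_mf_glue, MFf_glue_add, Finset.sum_mul,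
          ENNReal.ofReal_sum_of_nonneg]
        · apply Finset.sum_congr rfl
          intro y _
          rw [MFf_Yp_congr M v θ nu B hB X (glue (w * nu) a b) a w (by
            intro j hj
            simp only [glue, if_pos hj]) y]
          rw [← ENNReal.ofReal_mul (mul_nonneg (Real.exp_nonneg _)
            (MFf_Yp_nonneg M v θ hθ nu B X a w y))]
          congr 1
          ring
        · intro y _
          apply mul_nonneg _ hh0
          apply mul_nonneg _ (MFf_Yp_nonneg M v θ hθ nu B X _ w y)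
          apply mul_nonneg (Real.exp_nonneg _)
          split_ifs
          · linarith
          · exact zero_le_one
      simp only [e1]
      have hmb : ∀ y : S, Measurable (fun b : ℕ → S → ℝ =>
          ENNReal.ofReal ((if B (M.mf X (sc v a) (w * nu)) b y then θ else 1) *
              h (M.mf (M.mf X (sc v a) (w * nu)) (sc v b) nu) z)) := by
        intro y
        apply Measurable.ennreal_ofReal
        refine Measurable.mul ?_ ((hhm z).comp (MFf_meas_mf M v _ nu))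
        refine Measurable.ite ?_ measurable_const measurable_const
        exact (measurable_const.prodMk measurable_id) (hm y)
      rw [lintegral_finsetSum _ (fun y _ => (hmb y).const_mul _)]
      apply Finset.sum_le_sum
      intro y _
      rw [lintegral_const_mul _ (hmb y)]
      have hd := hdrift (M.mf X (sc v a) (w * nu)) (fun u => mf_nonpos M X hX _ _ u) y z
      refine le_trans (mul_le_mul_right hd _) ?_
      have hYn := MFf_Yp_nonneg M v θ hθ nu B X a w y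
      rw [← ENNReal.ofReal_mul (mul_nonneg (Real.exp_nonneg _) hYn),
        ← ENNReal.ofReal_mul (mul_nonneg hb1 (Real.exp_nonneg _))]
      apply ENNReal.ofReal_le_ofReal
      have he : Real.exp (-(3 * (M.dd y z : ℝ))) * Real.exp (M.dd y z) =
          Real.exp (-(2 * (M.dd y z : ℝ))) := by
        rw [← Real.exp_add]; congr 1; ring
      have : Real.exp (-(3 * (M.dd y z : ℝ))) * Yp M v θ nu B X a w y *
          (b1 * Real.exp (M.dd y z) * h (M.mf X (sc v a) (w * nu)) y) =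
          b1 * (Real.exp (-(3 * (M.dd y z : ℝ))) * Real.exp (M.dd y z)) *
          (Yp M v θ nu B X a w y * h (M.mf X (sc v a) (w * nu)) y) := by ring
      rw [this, he]
    refine le_trans (lintegral_mono key) ?_
    have hma : ∀ y : S, Measurable (fun a : ℕ → S → ℝ =>
        ENNReal.ofReal (Yp M v θ nu B X a w y * h (M.mf X (sc v a) (w * nu)) y)) := fun y =>
      ((MFf_meas_Yp M v θ nu B hm X w y).mul (hmeas (w * nu) y)).ennreal_ofReal
    rw [lintegral_finsetSum _ (fun y _ => (hma y).const_mul _)]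
    have step : ∀ y ∈ (Finset.univ : Finset S),
        ∫⁻ a, ENNReal.ofReal (b1 * Real.exp (-(2 * (M.dd y z : ℝ)))) *
          ENNReal.ofReal (Yp M v θ nu B X a w y * h (M.mf X (sc v a) (w * nu)) y) ∂(PI (nz S)) ≤
        ENNReal.ofReal (b1 * Real.exp (-(2 * (M.dd y z : ℝ))) *
          ((b1 * CS) ^ w * H0 * Real.exp (M.dd y x))) := by
      intro y _
      rw [lintegral_const_mul _ (hma y),
        ENNReal.ofReal_mul (mul_nonneg hb1 (Real.exp_nonneg _))]
      exact mul_le_mul_right (ih y) _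
    refine le_trans (Finset.sum_le_sum step) ?_
    have hpow : 0 ≤ (b1 * CS) ^ w := pow_nonneg (mul_nonneg hb1 hCS) w
    rw [← ENNReal.ofReal_sum_of_nonneg]
    · apply ENNReal.ofReal_le_ofReal
      have hterm : ∀ y ∈ (Finset.univ : Finset S), b1 * Real.exp (-(2 * (M.dd y z : ℝ))) *
          ((b1 * CS) ^ w * H0 * Real.exp (M.dd y x)) ≤
          (b1 * (b1 * CS) ^ w * H0 * Real.exp (M.dd z x)) * Real.exp (-(M.dd z y : ℝ)) := by
        intro y _
        have h1 : Real.exp (-(2 * (M.dd y z : ℝ))) * Real.exp (M.dd y x) ≤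
            Real.exp (M.dd z x) * Real.exp (-(M.dd z y : ℝ)) := by
          rw [← Real.exp_add, ← Real.exp_add, Real.exp_le_exp]
          have h2 : (M.dd y x : ℝ) ≤ M.dd y z + M.dd z x := by exact_mod_cast M.dd_tri y z x
          have h3 : (M.dd z y : ℝ) = M.dd y z := by rw [M.dd_comm]
          rw [h3]
          linarith
        have h4 : 0 ≤ b1 * (b1 * CS) ^ w * H0 := mul_nonneg (mul_nonneg hb1 hpow) hH
        calc b1 * Real.exp (-(2 * (M.dd y z : ℝ))) * ((b1 * CS) ^ w * H0 * Real.exp (M.dd y x))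
            = (b1 * (b1 * CS) ^ w * H0) *
              (Real.exp (-(2 * (M.dd y z : ℝ))) * Real.exp (M.dd y x)) := by ring
          _ ≤ (b1 * (b1 * CS) ^ w * H0) *
              (Real.exp (M.dd z x) * Real.exp (-(M.dd z y : ℝ))) :=
              mul_le_mul_of_nonneg_left h1 h4
          _ = _ := by ring
      refine le_trans (Finset.sum_le_sum hterm) ?_
      rw [← Finset.mul_sum]
      have h5 : 0 ≤ b1 * (b1 * CS) ^ w * H0 * Real.exp (M.dd z x) :=
        mul_nonneg (mul_nonneg (mul_nonneg hb1 hpow) hH) (Real.exp_nonneg _)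
      refine le_trans (mul_le_mul_of_nonneg_left (hS z) h5) (le_of_eq ?_)
      ring
    · intro y _
      exact mul_nonneg (mul_nonneg hb1 (Real.exp_nonneg _))
        (mul_nonneg (mul_nonneg hpow hH) (Real.exp_nonneg _))

/-- one term of each sum -/
private theorem MFf_Yp_path (v θ : ℝ) (hθ : 1 ≤ θ) (nu : ℕ)
    (B : (S → ℝ) → (ℕ → S → ℝ) → S → Prop) (X : S → ℝ)
    (ω : ℕ → S → ℝ) (zs : ℕ → S) (m : ℕ) : open Classical in
    Real.exp (-(3 * ∑ w ∈ Finset.range m, (M.dd (zs w) (zs (w + 1)) : ℝ))) *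
      θ ^ ((Finset.range m).filter fun w => B (M.mf X (sc v ω) (w * nu))
        (fun j => ω (w * nu + j)) (zs w)).card ≤ Yp M v θ nu B X ω m (zs m) := by
  classical
  induction m with
  | zero => simp [Yp]
  | succ m ih =>
    rw [MFf_Yp_succ]
    have hYn := MFf_Yp_nonneg M v θ hθ nu B X ω m
    have hnn : ∀ z ∈ (Finset.univ : Finset S), 0 ≤ Real.exp (-(3 * (M.dd z (zs (m + 1)) : ℝ))) *
        (if B (M.mf X (sc v ω) (m * nu)) (fun j => ω (m * nu + j)) z then θ else 1) *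
        Yp M v θ nu B X ω m z := by
      intro z _
      apply mul_nonneg _ (hYn z)
      apply mul_nonneg (Real.exp_nonneg _)
      split_ifs
      · linarith
      · exact zero_le_one
    refine le_trans ?_ (Finset.single_le_sum hnn (Finset.mem_univ (zs m)))
    rw [Finset.sum_range_succ]
    have he : Real.exp (-(3 * (∑ w ∈ Finset.range m, (M.dd (zs w) (zs (w + 1)) : ℝ) +
        (M.dd (zs m) (zs (m + 1)) : ℝ)))) =
        Real.exp (-(3 * (M.dd (zs m) (zs (m + 1)) : ℝ))) *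
        Real.exp (-(3 * ∑ w ∈ Finset.range m, (M.dd (zs w) (zs (w + 1)) : ℝ))) := by
      rw [← Real.exp_add]; congr 1; ring
    rw [he, Finset.range_add_one, Finset.filter_insert]
    by_cases hb : B (M.mf X (sc v ω) (m * nu)) (fun j => ω (m * nu + j)) (zs m)
    · rw [if_pos hb, if_pos hb, Finset.card_insert_of_notMem (by simp), pow_succ]
      have h2 := mul_le_mul_of_nonneg_left ih
        (mul_nonneg (Real.exp_nonneg (-(3 * (M.dd (zs m) (zs (m + 1)) : ℝ))))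
          (le_trans zero_le_one hθ))
      refine le_trans (le_of_eq ?_) h2
      ring
    · rw [if_neg hb, if_neg hb, mul_one]
      have h2 := mul_le_mul_of_nonneg_left ih
        (Real.exp_nonneg (-(3 * (M.dd (zs m) (zs (m + 1)) : ℝ))))
      refine le_trans (le_of_eq ?_) h2
      ring

/-- blocks of a lineage: displacement over windows -/
private theorem MFf_blocks (y : ℕ → S) (r' nu m : ℕ) :
    (∑ w ∈ Finset.range m, (M.dd (y (r' + (m - w) * nu)) (y (r' + (m - (w + 1)) * nu)) : ℝ)) ≤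
      ∑ l ∈ Finset.Ico r' (r' + m * nu), (M.dd (y l) (y (l + 1)) : ℝ) := by
  have htri : ∀ a k : ℕ, (M.dd (y (a + k)) (y a) : ℝ) ≤
      ∑ l ∈ Finset.Ico a (a + k), (M.dd (y l) (y (l + 1)) : ℝ) := by
    intro a k
    induction k with
    | zero => simp [M.dd_self]
    | succ k ih =>
      rw [← Nat.add_assoc, Finset.sum_Ico_succ_top (by omega)]
      have h1 : (M.dd (y (a + k + 1)) (y a) : ℝ) ≤
          M.dd (y (a + k + 1)) (y (a + k)) + M.dd (y (a + k)) (y a) := by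
        exact_mod_cast M.dd_tri _ _ _
      have h2 : (M.dd (y (a + k + 1)) (y (a + k)) : ℝ) = M.dd (y (a + k)) (y (a + k + 1)) := by
        rw [M.dd_comm]
      rw [← h2]
      linarith
  induction m with
  | zero => simp
  | succ m ih =>
    rw [Finset.sum_range_succ']
    have h1 : ∑ w ∈ Finset.range m, (M.dd (y (r' + (m + 1 - (w + 1)) * nu))
        (y (r' + (m + 1 - (w + 1 + 1)) * nu)) : ℝ) =
        ∑ w ∈ Finset.range m, (M.dd (y (r' + (m - w) * nu)) (y (r' + (m - (w + 1)) * nu)) : ℝ) := by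
      apply Finset.sum_congr rfl
      intro w _
      rw [Nat.add_sub_add_right, Nat.add_sub_add_right]
    rw [h1]
    have h2 := htri (r' + m * nu) nu
    have h3 : r' + m * nu + nu = r' + (m + 1) * nu := by ring
    rw [h3] at h2
    have h4 : (m + 1 - 0) = m + 1 := rfl
    have h5 : (m + 1 - (0 + 1)) = m := rfl
    rw [h4, h5]
    rw [← Finset.sum_Ico_consecutive _ (show r' ≤ r' + m * nu by omega)
      (show r' + m * nu ≤ r' + (m + 1) * nu by rw [← h3]; omega)]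
    linarith

/-- few sequences have many bad windows -/
theorem bad_many (v θ b1 CS H0 : ℝ) (hθ : 1 ≤ θ) (hb1 : 0 ≤ b1) (hH : 0 ≤ H0) (nu : ℕ)
    (B : (S → ℝ) → (ℕ → S → ℝ) → S → Prop)
    (hm : ∀ z, MeasurableSet {p : (S → ℝ) × (ℕ → S → ℝ) | B p.1 p.2 z})
    (hB : ∀ F z ω ω', (∀ j, j < nu → ω j = ω' j) → (B F ω z ↔ B F ω' z))
    (hS : ∀ x, ∑ z, Real.exp (-(M.dd x z : ℝ)) ≤ CS)
    (h : (S → ℝ) → S → ℝ) (hhm : ∀ z, Measurable fun F => h F z) (hh1 : ∀ F z, 1 ≤ h F z)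
    (hdrift : ∀ F, (∀ y, F y ≤ 0) → ∀ z z', open Classical in
      ∫⁻ ω, ENNReal.ofReal ((if B F ω z then θ else 1) * h (M.mf F (sc v ω) nu) z') ∂(PI (nz S))
        ≤ ENNReal.ofReal (b1 * Real.exp (M.dd z z') * h F z))
    (X : S → ℝ) (hX : ∀ y, X y ≤ 0) (x : S) (hX0 : ∀ z, h X z ≤ H0 * Real.exp (M.dd z x))
    (m r' k : ℕ) (R : ℝ) :
    PI (nz S) {ω | (∑ l ∈ Finset.range (m * nu + r'),
          (M.dd (M.lin X (sc v ω) (m * nu + r') x l)
            (M.lin X (sc v ω) (m * nu + r') x (l + 1)) : ℝ)) ≤ R ∧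
        k ≤ gcount M v nu B X ω m (M.lin X (sc v ω) (m * nu + r') x r')}
      ≤ ENNReal.ofReal (θ⁻¹ ^ k * (Real.exp (3 * R) * CS * (b1 * CS) ^ m * H0)) := by
  classical
  have hCS : 0 ≤ CS := MFf_CS_nonneg M CS hS x
  have hθ0 : 0 < θ := lt_of_lt_of_le one_pos hθ
  have hpow : 0 ≤ (b1 * CS) ^ m := pow_nonneg (mul_nonneg hb1 hCS) m
  -- the function dominating `θ ^ k` on the event
  set f : (ℕ → S → ℝ) → ℝ≥0∞ := fun ω =>
    ∑ z, ENNReal.ofReal (Real.exp (3 * R) * Real.exp (-(3 * (M.dd z x : ℝ)))) *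
      ENNReal.ofReal (Yp M v θ nu B X ω m z) with hf
  have hfm : Measurable f := by
    apply Finset.measurable_sum
    intro z _
    exact ((MFf_meas_Yp M v θ nu B hm X m z).ennreal_ofReal).const_mul _
  -- pointwise bound
  have hpt : {ω | (∑ l ∈ Finset.range (m * nu + r'),
          (M.dd (M.lin X (sc v ω) (m * nu + r') x l)
            (M.lin X (sc v ω) (m * nu + r') x (l + 1)) : ℝ)) ≤ R ∧
        k ≤ gcount M v nu B X ω m (M.lin X (sc v ω) (m * nu + r') x r')} ⊆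
      {ω | ENNReal.ofReal (θ ^ k) ≤ f ω} := by
    rintro ω ⟨h1, h2⟩
    set y : ℕ → S := fun i => M.lin X (sc v ω) (m * nu + r') x i with hy
    -- sequence of positions at window starts
    set zs : ℕ → S := fun w => y (r' + (m - w) * nu) with hzs
    have hzm : zs m = y r' := by simp [hzs]
    have hlin : ∀ w, M.lin X (sc v ω) (m * nu) (y r') ((m - w) * nu) = zs w := by
      intro w
      have h3 : (m - w) * nu ≤ m * nu := Nat.mul_le_mul_right _ (Nat.sub_le _ _)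
      exact (lin_shift M X (sc v ω) (m * nu) r' x ((m - w) * nu) h3).symm
    have hgc : gcount M v nu B X ω m (y r') = ((Finset.range m).filter fun w =>
        B (M.mf X (sc v ω) (w * nu)) (fun j => ω (w * nu + j)) (zs w)).card := by
      unfold gcount
      congr 1
      apply Finset.filter_congr
      intro w _
      rw [hlin w]
    have hpath := MFf_Yp_path M v θ hθ nu B X ω zs m
    rw [← hgc] at hpath
    -- displacement
    have hd1 : ∑ w ∈ Finset.range m, (M.dd (zs w) (zs (w + 1)) : ℝ) ≤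
        ∑ l ∈ Finset.Ico r' (r' + m * nu), (M.dd (y l) (y (l + 1)) : ℝ) :=
      MFf_blocks M y r' nu m
    have hd2 : (M.dd (zs m) x : ℝ) ≤ ∑ l ∈ Finset.range r', (M.dd (y l) (y (l + 1)) : ℝ) := by
      rw [hzm, M.dd_comm]
      exact dd_lin M X (sc v ω) (m * nu + r') x r'
    have hd3 : ∑ w ∈ Finset.range m, (M.dd (zs w) (zs (w + 1)) : ℝ) + M.dd (zs m) x ≤ R := by
      have h4 : ∑ l ∈ Finset.range (m * nu + r'), (M.dd (y l) (y (l + 1)) : ℝ) =
          ∑ l ∈ Finset.range r', (M.dd (y l) (y (l + 1)) : ℝ) +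
          ∑ l ∈ Finset.Ico r' (r' + m * nu), (M.dd (y l) (y (l + 1)) : ℝ) := by
        rw [Finset.range_eq_Ico, Finset.range_eq_Ico, Nat.add_comm (m * nu) r']
        exact (Finset.sum_Ico_consecutive _ (Nat.zero_le _) (Nat.le_add_right _ _)).symm
      have h5 : ∑ l ∈ Finset.range (m * nu + r'), (M.dd (y l) (y (l + 1)) : ℝ) ≤ R := h1
      rw [h4] at h5
      linarith
    have hYn := MFf_Yp_nonneg M v θ hθ nu B X ω m
    have hk : θ ^ k ≤ θ ^ gcount M v nu B X ω m (y r') := pow_le_pow_right₀ hθ h2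
    have hreal : θ ^ k ≤ Real.exp (3 * R) * Real.exp (-(3 * (M.dd (zs m) x : ℝ))) *
        Yp M v θ nu B X ω m (zs m) := by
      set Sd : ℝ := ∑ w ∈ Finset.range m, (M.dd (zs w) (zs (w + 1)) : ℝ) with hSd
      have h6 : 1 ≤ Real.exp (3 * R) * Real.exp (-(3 * (M.dd (zs m) x : ℝ))) *
          Real.exp (-(3 * Sd)) := by
        rw [← Real.exp_add, ← Real.exp_add]
        apply Real.one_le_exp
        linarith
      have hθg : 0 ≤ θ ^ gcount M v nu B X ω m (y r') := pow_nonneg hθ0.le _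
      calc θ ^ k ≤ θ ^ gcount M v nu B X ω m (y r') := hk
        _ = 1 * θ ^ gcount M v nu B X ω m (y r') := by ring
        _ ≤ (Real.exp (3 * R) * Real.exp (-(3 * (M.dd (zs m) x : ℝ))) *
          Real.exp (-(3 * Sd))) * θ ^ gcount M v nu B X ω m (y r') :=
            mul_le_mul_of_nonneg_right h6 hθg
        _ = (Real.exp (3 * R) * Real.exp (-(3 * (M.dd (zs m) x : ℝ)))) *
          (Real.exp (-(3 * Sd)) * θ ^ gcount M v nu B X ω m (y r')) := by ring
        _ ≤ _ := mul_le_mul_of_nonneg_left hpath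
            (mul_nonneg (Real.exp_nonneg _) (Real.exp_nonneg _))
    show ENNReal.ofReal (θ ^ k) ≤ f ω
    refine le_trans (ENNReal.ofReal_le_ofReal hreal) ?_
    rw [ENNReal.ofReal_mul (mul_nonneg (Real.exp_nonneg _) (Real.exp_nonneg _))]
    exact Finset.single_le_sum (f := fun z => ENNReal.ofReal (Real.exp (3 * R) *
      Real.exp (-(3 * (M.dd z x : ℝ)))) * ENNReal.ofReal (Yp M v θ nu B X ω m z))
      (fun z _ => zero_le) (Finset.mem_univ (zs m))
  -- expectation of `f`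
  have hEf : ∫⁻ ω, f ω ∂(PI (nz S)) ≤
      ENNReal.ofReal (Real.exp (3 * R) * CS * (b1 * CS) ^ m * H0) := by
    rw [hf, lintegral_finsetSum _ (fun z _ =>
      ((MFf_meas_Yp M v θ nu B hm X m z).ennreal_ofReal).const_mul _)]
    have step : ∀ z ∈ (Finset.univ : Finset S),
        ∫⁻ ω, ENNReal.ofReal (Real.exp (3 * R) * Real.exp (-(3 * (M.dd z x : ℝ)))) *
          ENNReal.ofReal (Yp M v θ nu B X ω m z) ∂(PI (nz S)) ≤
        ENNReal.ofReal ((Real.exp (3 * R) * (b1 * CS) ^ m * H0) *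
          Real.exp (-(M.dd x z : ℝ))) := by
      intro z _
      rw [lintegral_const_mul _ ((MFf_meas_Yp M v θ nu B hm X m z).ennreal_ofReal)]
      have h1 : ∫⁻ ω, ENNReal.ofReal (Yp M v θ nu B X ω m z) ∂(PI (nz S)) ≤
          ENNReal.ofReal ((b1 * CS) ^ m * H0 * Real.exp (M.dd z x)) := by
        refine le_trans (lintegral_mono fun ω => ?_)
          (Yp_exp M v θ b1 CS H0 hθ hb1 hH nu B hm hB hS h hhm hh1 hdrift X hX x hX0 m z)
        apply ENNReal.ofReal_le_ofReal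
        have h2 := mul_le_mul_of_nonneg_left (hh1 (M.mf X (sc v ω) (m * nu)) z)
          (MFf_Yp_nonneg M v θ hθ nu B X ω m z)
        rw [mul_one] at h2
        exact h2
      refine le_trans (mul_le_mul_right h1 _) ?_
      rw [← ENNReal.ofReal_mul (mul_nonneg (Real.exp_nonneg _) (Real.exp_nonneg _))]
      apply ENNReal.ofReal_le_ofReal
      have h3 : Real.exp (-(3 * (M.dd z x : ℝ))) * Real.exp (M.dd z x) ≤
          Real.exp (-(M.dd x z : ℝ)) := by
        rw [← Real.exp_add, Real.exp_le_exp, M.dd_comm x z]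
        have : (0 : ℝ) ≤ M.dd z x := Nat.cast_nonneg _
        linarith
      have h4 : 0 ≤ Real.exp (3 * R) * (b1 * CS) ^ m * H0 :=
        mul_nonneg (mul_nonneg (Real.exp_nonneg _) hpow) hH
      calc Real.exp (3 * R) * Real.exp (-(3 * (M.dd z x : ℝ))) *
            ((b1 * CS) ^ m * H0 * Real.exp (M.dd z x))
          = (Real.exp (3 * R) * (b1 * CS) ^ m * H0) *
            (Real.exp (-(3 * (M.dd z x : ℝ))) * Real.exp (M.dd z x)) := by ring
        _ ≤ _ := mul_le_mul_of_nonneg_left h3 h4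
    refine le_trans (Finset.sum_le_sum step) ?_
    have h4 : 0 ≤ Real.exp (3 * R) * (b1 * CS) ^ m * H0 :=
      mul_nonneg (mul_nonneg (Real.exp_nonneg _) hpow) hH
    rw [← ENNReal.ofReal_sum_of_nonneg (fun z _ => mul_nonneg h4 (Real.exp_nonneg _))]
    apply ENNReal.ofReal_le_ofReal
    rw [← Finset.mul_sum]
    refine le_trans (mul_le_mul_of_nonneg_left (hS x) h4) (le_of_eq ?_)
    ring
  -- Markov
  have hM := mul_meas_ge_le_lintegral (μ := PI (nz S)) hfm (ENNReal.ofReal (θ ^ k))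
  have hP : ENNReal.ofReal (θ ^ k) * PI (nz S) {ω | (∑ l ∈ Finset.range (m * nu + r'),
          (M.dd (M.lin X (sc v ω) (m * nu + r') x l)
            (M.lin X (sc v ω) (m * nu + r') x (l + 1)) : ℝ)) ≤ R ∧
        k ≤ gcount M v nu B X ω m (M.lin X (sc v ω) (m * nu + r') x r')} ≤
      ENNReal.ofReal (Real.exp (3 * R) * CS * (b1 * CS) ^ m * H0) :=
    le_trans (le_trans (mul_le_mul_right (measure_mono hpt) _) hM) hEf
  have hinv : ENNReal.ofReal (θ⁻¹ ^ k) * ENNReal.ofReal (θ ^ k) = 1 := by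
    rw [← ENNReal.ofReal_mul (pow_nonneg (inv_nonneg.mpr hθ0.le) k), ← mul_pow,
      inv_mul_cancel₀ hθ0.ne', one_pow, ENNReal.ofReal_one]
  rw [ENNReal.ofReal_mul (pow_nonneg (inv_nonneg.mpr hθ0.le) k)]
  calc PI (nz S) _ = ENNReal.ofReal (θ⁻¹ ^ k) * ENNReal.ofReal (θ ^ k) * PI (nz S) _ := by
        rw [hinv, one_mul]
    _ = ENNReal.ofReal (θ⁻¹ ^ k) * (ENNReal.ofReal (θ ^ k) * PI (nz S) _) := by rw [mul_assoc]
    _ ≤ _ := mul_le_mul_right hP _

/-- the potential `Φ` -/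
noncomputable def PhiF (Lam : ℝ) (F : S → ℝ) (z : S) : ℝ :=
  ∑ y, Real.exp (-(M.dd y z : ℝ)) * Real.exp (-(Lam * M.RR F y))

theorem lyap_h (v θ ρ Lam K CL CS : ℝ) (hθ : 1 ≤ θ) (hρ : 0 ≤ ρ) (hK : 0 < K) (hCL : 0 ≤ CL)
    (hS : ∀ x, ∑ z, Real.exp (-(M.dd x z : ℝ)) ≤ CS) (nu : ℕ)
    (hL : ∀ F, (∀ y, F y ≤ 0) → ∀ y,
      ∫⁻ ω, ENNReal.ofReal (Real.exp (-(Lam * M.RR (M.mf F (sc v ω) nu) y))) ∂(PI (nz S))
        ≤ ENNReal.ofReal (ρ * Real.exp (-(Lam * M.RR F y)) + CL)) :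
    ∀ F, (∀ y, F y ≤ 0) → ∀ z z', open Classical in
      ∫⁻ ω, ENNReal.ofReal ((if K < PhiF M Lam F z then θ else 1) *
          (1 + θ / K * PhiF M Lam (M.mf F (sc v ω) nu) z')) ∂(PI (nz S))
        ≤ ENNReal.ofReal ((1 + θ * CL * CS / K + θ * ρ) * Real.exp (M.dd z z') *
          (1 + θ / K * PhiF M Lam F z)) := by
  intro F hF z z'
  have hCS : 0 ≤ CS := MFf_CS_nonneg M CS hS z
  have hθ0 : 0 < θ := lt_of_lt_of_le one_pos hθ
  have hPn : ∀ (G : S → ℝ) (u : S), 0 ≤ PhiF M Lam G u := fun G u =>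
    Finset.sum_nonneg fun y _ => mul_nonneg (Real.exp_nonneg _) (Real.exp_nonneg _)
  have hRm : ∀ y : S, Measurable (fun ω : ℕ → S → ℝ =>
      Real.exp (-(Lam * M.RR (M.mf F (sc v ω) nu) y))) := by
    intro y
    exact Real.measurable_exp.comp
      ((((measurable_RR M y).comp (MFf_meas_mf M v F nu)).const_mul Lam).neg)
  have hPm : Measurable (fun ω : ℕ → S → ℝ => PhiF M Lam (M.mf F (sc v ω) nu) z') := by
    unfold PhiF
    apply Finset.measurable_sum
    intro y _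
    exact (hRm y).const_mul _
  have hΦ0 : 0 ≤ PhiF M Lam F z := hPn F z
  -- expectation of the potential
  have hE : ∫⁻ ω, ENNReal.ofReal (PhiF M Lam (M.mf F (sc v ω) nu) z') ∂(PI (nz S)) ≤
      ENNReal.ofReal (ρ * Real.exp (M.dd z z') * PhiF M Lam F z + CL * CS) := by
    have e1 : ∀ ω : ℕ → S → ℝ, ENNReal.ofReal (PhiF M Lam (M.mf F (sc v ω) nu) z') =
        ∑ y, ENNReal.ofReal (Real.exp (-(M.dd y z' : ℝ))) *
          ENNReal.ofReal (Real.exp (-(Lam * M.RR (M.mf F (sc v ω) nu) y))) := by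
      intro ω
      unfold PhiF
      rw [ENNReal.ofReal_sum_of_nonneg
        (fun y _ => mul_nonneg (Real.exp_nonneg _) (Real.exp_nonneg _))]
      apply Finset.sum_congr rfl
      intro y _
      rw [ENNReal.ofReal_mul (Real.exp_nonneg _)]
    simp only [e1]
    rw [lintegral_finsetSum _ (fun y _ => ((hRm y).ennreal_ofReal).const_mul _)]
    have step : ∀ y ∈ (Finset.univ : Finset S),
        ∫⁻ ω, ENNReal.ofReal (Real.exp (-(M.dd y z' : ℝ))) *
          ENNReal.ofReal (Real.exp (-(Lam * M.RR (M.mf F (sc v ω) nu) y))) ∂(PI (nz S)) ≤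
        ENNReal.ofReal (ρ * Real.exp (M.dd z z') *
          (Real.exp (-(M.dd y z : ℝ)) * Real.exp (-(Lam * M.RR F y))) +
          CL * Real.exp (-(M.dd z' y : ℝ))) := by
      intro y _
      rw [lintegral_const_mul _ ((hRm y).ennreal_ofReal)]
      refine le_trans (mul_le_mul_right (hL F hF y) _) ?_
      rw [← ENNReal.ofReal_mul (Real.exp_nonneg _)]
      apply ENNReal.ofReal_le_ofReal
      have h1 : Real.exp (-(M.dd y z' : ℝ)) ≤
          Real.exp (M.dd z z') * Real.exp (-(M.dd y z : ℝ)) := by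
        rw [← Real.exp_add, Real.exp_le_exp]
        have h2 : (M.dd y z : ℝ) ≤ M.dd y z' + M.dd z' z := by exact_mod_cast M.dd_tri y z' z
        have h3 : (M.dd z' z : ℝ) = M.dd z z' := by rw [M.dd_comm]
        linarith
      have h4 : Real.exp (-(M.dd z' y : ℝ)) = Real.exp (-(M.dd y z' : ℝ)) := by
        rw [M.dd_comm]
      rw [h4]
      have h5 : 0 ≤ ρ * Real.exp (-(Lam * M.RR F y)) := mul_nonneg hρ (Real.exp_nonneg _)
      have h6 := mul_le_mul_of_nonneg_right h1 h5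
      calc Real.exp (-(M.dd y z' : ℝ)) * (ρ * Real.exp (-(Lam * M.RR F y)) + CL)
          = Real.exp (-(M.dd y z' : ℝ)) * (ρ * Real.exp (-(Lam * M.RR F y))) +
            CL * Real.exp (-(M.dd y z' : ℝ)) := by ring
        _ ≤ Real.exp (M.dd z z') * Real.exp (-(M.dd y z : ℝ)) *
            (ρ * Real.exp (-(Lam * M.RR F y))) + CL * Real.exp (-(M.dd y z' : ℝ)) := by
            linarith
        _ = _ := by ring
    refine le_trans (Finset.sum_le_sum step) ?_
    rw [← ENNReal.ofReal_sum_of_nonneg (fun y _ => add_nonneg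
      (mul_nonneg (mul_nonneg hρ (Real.exp_nonneg _))
        (mul_nonneg (Real.exp_nonneg _) (Real.exp_nonneg _)))
      (mul_nonneg hCL (Real.exp_nonneg _)))]
    apply ENNReal.ofReal_le_ofReal
    rw [Finset.sum_add_distrib, ← Finset.mul_sum, ← Finset.mul_sum]
    have h7 := mul_le_mul_of_nonneg_left (hS z') hCL
    show ρ * Real.exp (M.dd z z') * PhiF M Lam F z + _ ≤ _
    linarith
  -- put together
  set c : ℝ := if K < PhiF M Lam F z then θ else 1 with hc
  have hc0 : 0 ≤ c := by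
    rw [hc]; split_ifs
    · exact hθ0.le
    · exact zero_le_one
  have hθK : 0 ≤ θ / K := div_nonneg hθ0.le hK.le
  have e2 : ∀ ω : ℕ → S → ℝ, ENNReal.ofReal (c *
      (1 + θ / K * PhiF M Lam (M.mf F (sc v ω) nu) z')) =
      ENNReal.ofReal c + ENNReal.ofReal (c * (θ / K)) *
        ENNReal.ofReal (PhiF M Lam (M.mf F (sc v ω) nu) z') := by
    intro ω
    rw [← ENNReal.ofReal_mul (mul_nonneg hc0 hθK), ← ENNReal.ofReal_add hc0
      (mul_nonneg (mul_nonneg hc0 hθK) (hPn _ _))]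
    congr 1
    ring
  simp only [e2]
  rw [lintegral_add_left measurable_const, lintegral_const, measure_univ, mul_one,
    lintegral_const_mul _ hPm.ennreal_ofReal]
  refine le_trans (add_le_add_right (mul_le_mul_right hE _) _) ?_
  have hEn : 0 ≤ ρ * Real.exp (M.dd z z') * PhiF M Lam F z + CL * CS :=
    add_nonneg (mul_nonneg (mul_nonneg hρ (Real.exp_nonneg _)) hΦ0) (mul_nonneg hCL hCS)
  rw [← ENNReal.ofReal_mul (mul_nonneg hc0 hθK), ← ENNReal.ofReal_add hc0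
      (mul_nonneg (mul_nonneg hc0 hθK) hEn)]
  apply ENNReal.ofReal_le_ofReal
  set Φ : ℝ := PhiF M Lam F z with hΦ
  set E : ℝ := Real.exp (M.dd z z') with hEd
  have hE1 : 1 ≤ E := Real.one_le_exp (Nat.cast_nonneg _)
  set t : ℝ := θ / K * Φ with ht
  have ht0 : 0 ≤ t := mul_nonneg hθK hΦ0
  set A : ℝ := θ * CL * CS / K with hA
  have hA0 : 0 ≤ A := div_nonneg (mul_nonneg (mul_nonneg hθ0.le hCL) hCS) hK.le
  have hlhs : c + c * (θ / K) * (ρ * E * Φ + CL * CS) = c * (1 + A) + c * ρ * E * t := by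
    rw [hA, ht]; ring
  rw [hlhs]
  have h1t : 1 ≤ E * (1 + t) := by nlinarith
  have hEt : 0 ≤ E * t := mul_nonneg (by linarith) ht0
  have hr1 : c * ρ * E * t ≤ θ * ρ * (E * (1 + t)) := by
    have hcθ : c ≤ θ := by
      rw [hc]; split_ifs
      · exact le_refl _
      · exact hθ
    have h8 : c * ρ ≤ θ * ρ := mul_le_mul_of_nonneg_right hcθ hρ
    have h9 : E * t ≤ E * (1 + t) := by nlinarith
    calc c * ρ * E * t = (c * ρ) * (E * t) := by ring
      _ ≤ (θ * ρ) * (E * t) := mul_le_mul_of_nonneg_right h8 hEt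
      _ ≤ (θ * ρ) * (E * (1 + t)) := mul_le_mul_of_nonneg_left h9 (mul_nonneg hθ0.le hρ)
  have hr2 : c * (1 + A) ≤ (1 + A) * (E * (1 + t)) := by
    have hcE : c ≤ E * (1 + t) := by
      rw [hc]
      split_ifs with hlt
      · have h10 : θ ≤ t := by
          rw [ht]
          have h11 : θ / K * K ≤ θ / K * Φ := mul_le_mul_of_nonneg_left hlt.le hθK
          rw [div_mul_cancel₀ θ hK.ne'] at h11
          exact h11
        nlinarith
      · exact h1t
    rw [mul_comm]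
    exact mul_le_mul_of_nonneg_left hcE (by linarith)
  calc c * (1 + A) + c * ρ * E * t ≤ (1 + A) * (E * (1 + t)) + θ * ρ * (E * (1 + t)) :=
        add_le_add hr2 hr1
    _ = _ := by ring

end DynC

end

/-! ### from `Lib_MP_36b788c.MFg` -/

section

/-!
# Height model: exponential decay of the influence of the initial heights

PROOF of `uncut_decay`. Constants: `lam0, C0` of `lpp_tail` (`q = 1/8`), `lpp_tail_neg`, `good_noise` (take the worst; all statements are monotone in these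
constants after adjusting), `CS` from `sum_exp_dd` (`r = 1`), `CS'` (`r = 1/2`), `C1` of `lyap_F`.
Length: off an event of probability `2 e^{-C0(nv+1)}`, `lppM(±g)(x) ≤ 2 C0 (nv+1)/lam0`, so by `len_lin` the length is `≤ R = (8/7)(Ke + 4 C0 (nv+1)/lam0)`; let `C''` with
`3R ≤ C''(Ke + nv + 1)`. `nd ≥ 400` with `nd * 3/400 ≥ 2·101·C'' + 8` (`-log(97/100) ≥ 3/100`). `Λ = nd/50 ≥ 8`, `s0 = 1/(2Λ)`.
`w` large: `ρ := 2^nd e^{4nd²/50} (97/100)^{w nd} ≤ exp(-w nd/50)` and `exp(w nd /200) ≥ exp(101 w C'' + 1) · 3 CS²`, … . `np = ⌈100/v⌉`, `nu = w np`, `v nu ∈ [100w, 101w]`.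
`θ = 1/ρ`, `CL = 2^nd e^{2nd²/50} C1^nd`, `K = max 1 (θ CL CS)`, `KG = log K / Λ`: `PhiF ≤ K` implies (g1). By `lyap_h` and `bad_many` with
`B = {K < PhiF}`, `h = 1 + (θ/K) PhiF` (`h F z ≤ h F x e^{dd z x}`), `b1 = 3`, `H0 = 1 + θ e^{Λ Ke} CS'/K`:
`P(len ≤ R, #B ≥ m/4) ≤ ρ^{m/4} e^{3R} CS (3CS)^m H0`.
`p2 > 0` small with `p2^{1/4} 2 CS e^{101 w C''} ≤ e^{-1}`; `Kn, r0, r1, r2, T1, n1 = ⌊T1/v⌋, cup = cd = 2(KG+r1/8+4)/T1, Kp` such that `good_noise ≤ p2` (in this order);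
`bad_many` with `B2 = {(g1), not GoodW}`, `h = 1`, `θ = 1/p2`, `b1 = 2`. `v0 ≤ T1, 1/cup, 1/lam0², 1`. `η0 = 1/nu`.
Good windows: `good_few` with `r = ⌈m/2⌉`, `flip_ineq`; `flipC` is bounded uniformly in `v` since `v nu ≤ 101 w`. Each window is good, or in `B`, or in `B2`. `m = ⌊n/nu⌋ ≥ nv/(101w) - 1`.
-/

open MeasureTheory ProbabilityTheory
open scoped ENNReal

namespace DynC

section

variable {S : Type} [Fintype S] {D : ℕ} (M : MSet S D)

private theorem MFg_sc_neg (v : ℝ) (ω : ℕ → S → ℝ) : sc v (-ω) = -(sc v ω) := by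
  funext j x
  simp [sc]

/-- length off the two events -/
private theorem MFg_len (X : S → ℝ) (hX : ∀ z, X z ≤ 0) (v : ℝ) (ω : ℕ → S → ℝ) (n : ℕ) (x : S)
    (Ke a b : ℝ) (hKe : 0 ≤ Ke) (hx : -Ke ≤ X x)
    (ha : ¬ a ≤ M.lppM (1 / 8) (fun _ => 0) (sc v ω) n x)
    (hb : ¬ b ≤ M.lppM (1 / 8) (fun _ => 0) (sc v (-ω)) n x) :
    ∑ l ∈ Finset.range n, (M.dd (M.lin X (sc v ω) n x l) (M.lin X (sc v ω) n x (l + 1)) : ℝ) ≤
      8 / 7 * (Ke + a + b) := by
  have h := len_lin M X hX (sc v ω) n x Ke hKe hx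
  rw [MFg_sc_neg] at hb
  push Not at ha hb
  linarith

/-- `PhiF ≤ K` bounds the heights from below -/
private theorem MFg_phi_g1 (Lam K : ℝ) (hLam : 8 ≤ Lam) (F : S → ℝ) (z : S)
    (h : PhiF M Lam F z ≤ K) (y : S) :
    -(Real.log K / Lam) - M.dd y z / 8 ≤ M.RR F y := by
  have hL0 : 0 < Lam := by linarith
  have h1 : Real.exp (-(M.dd y z : ℝ)) * Real.exp (-(Lam * M.RR F y)) ≤ K := by
    refine le_trans ?_ h
    unfold PhiF
    exact Finset.single_le_sum (f := fun y => Real.exp (-(M.dd y z : ℝ)) *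
      Real.exp (-(Lam * M.RR F y))) (fun _ _ => by positivity) (Finset.mem_univ y)
  rw [← Real.exp_add] at h1
  have h2 := Real.log_le_log (Real.exp_pos _) h1
  rw [Real.log_exp] at h2
  have hd : (0 : ℝ) ≤ M.dd y z := by positivity
  have h3 : Lam * (-(Real.log K / Lam) - M.dd y z / 8) ≤ Lam * M.RR F y := by
    have e1 : Lam * (-(Real.log K / Lam) - M.dd y z / 8) = -Real.log K - Lam * M.dd y z / 8 := by
      field_simp
    rw [e1]
    nlinarith
  exact le_of_mul_le_mul_left h3 hL0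

/-- the potential at the start -/
private theorem MFg_phi_init (Lam s0 Ke CS' : ℝ) (hLam : 0 < Lam) (hs : Lam * s0 = 1 / 2)
    (hS' : ∀ x, ∑ z, Real.exp (-(1 / 2 * (M.dd x z : ℝ))) ≤ CS') (X : S → ℝ) (x : S)
    (hX0 : ∀ z, -Ke - s0 * M.dd x z ≤ X z) (z : S) :
    PhiF M Lam X z ≤ CS' * Real.exp (Lam * Ke) * Real.exp (M.dd z x) := by
  have hCS' : 0 ≤ CS' := le_trans (Finset.sum_nonneg fun _ _ => (Real.exp_pos _).le) (hS' z)
  have h1 : ∀ y, Real.exp (-(M.dd y z : ℝ)) * Real.exp (-(Lam * M.RR X y)) ≤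
      Real.exp (-(1 / 2 * (M.dd z y : ℝ))) * (Real.exp (Lam * Ke) * Real.exp (M.dd z x)) := by
    intro y
    rw [← Real.exp_add, ← Real.exp_add, ← Real.exp_add]
    apply Real.exp_le_exp.mpr
    have h2 : -Ke - s0 * M.dd x y ≤ M.RR X y := (hX0 y).trans (self_le_RR M X y)
    have h3 : Lam * (-Ke - s0 * M.dd x y) ≤ Lam * M.RR X y :=
      mul_le_mul_of_nonneg_left h2 hLam.le
    have h4 : Lam * (-Ke - s0 * M.dd x y) = -(Lam * Ke) - 1 / 2 * M.dd x y := by
      rw [← hs]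
      ring
    rw [h4] at h3
    have h5 : (M.dd x y : ℝ) ≤ M.dd x z + M.dd z y := by exact_mod_cast M.dd_tri x z y
    have h6 : (M.dd y z : ℝ) = M.dd z y := by rw [M.dd_comm]
    have h7 : (M.dd x z : ℝ) = M.dd z x := by rw [M.dd_comm]
    have h8 : (0 : ℝ) ≤ M.dd z x := by positivity
    rw [h6]
    linarith
  calc PhiF M Lam X z ≤ ∑ y, Real.exp (-(1 / 2 * (M.dd z y : ℝ))) *
        (Real.exp (Lam * Ke) * Real.exp (M.dd z x)) := Finset.sum_le_sum fun y _ => h1 y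
    _ = (∑ y, Real.exp (-(1 / 2 * (M.dd z y : ℝ)))) *
        (Real.exp (Lam * Ke) * Real.exp (M.dd z x)) := by rw [Finset.sum_mul]
    _ ≤ CS' * (Real.exp (Lam * Ke) * Real.exp (M.dd z x)) :=
        mul_le_mul_of_nonneg_right (hS' z) (by positivity)
    _ = _ := by ring

private theorem MFg_phi_nonneg (Lam : ℝ) (F : S → ℝ) (z : S) : 0 ≤ PhiF M Lam F z :=
  Finset.sum_nonneg fun _ _ => by positivity

private theorem MFg_phi_meas (Lam : ℝ) (z : S) : Measurable fun F : S → ℝ => PhiF M Lam F z := by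
  unfold PhiF
  refine Finset.measurable_sum _ fun y _ => ?_
  exact measurable_const.mul (((measurable_RR M y).const_mul Lam).neg.exp)

/-- the windows are covered by three properties -/
private theorem MFg_cover (v : ℝ) (nu : ℕ) (B1 B2 B3 : (S → ℝ) → (ℕ → S → ℝ) → S → Prop)
    (h : ∀ F ω z, B1 F ω z ∨ B2 F ω z ∨ B3 F ω z) (X : S → ℝ) (ω : ℕ → S → ℝ) (m : ℕ) (x : S) :
    m ≤ gcount M v nu B1 X ω m x + gcount M v nu B2 X ω m x + gcount M v nu B3 X ω m x := by
  classical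
  unfold gcount
  have h1 : (Finset.range m) ⊆
      (((Finset.range m).filter fun w => B1 (M.mf X (sc v ω) (w * nu)) (fun j => ω (w * nu + j))
          (M.lin X (sc v ω) (m * nu) x ((m - w) * nu))) ∪
        ((Finset.range m).filter fun w => B2 (M.mf X (sc v ω) (w * nu)) (fun j => ω (w * nu + j))
          (M.lin X (sc v ω) (m * nu) x ((m - w) * nu)))) ∪
        ((Finset.range m).filter fun w => B3 (M.mf X (sc v ω) (w * nu)) (fun j => ω (w * nu + j))
          (M.lin X (sc v ω) (m * nu) x ((m - w) * nu))) := by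
    intro w hw
    rw [Finset.mem_union, Finset.mem_union, Finset.mem_filter, Finset.mem_filter,
      Finset.mem_filter]
    rcases h (M.mf X (sc v ω) (w * nu)) (fun j => ω (w * nu + j))
      (M.lin X (sc v ω) (m * nu) x ((m - w) * nu)) with h | h | h
    · exact Or.inl (Or.inl ⟨hw, h⟩)
    · exact Or.inl (Or.inr ⟨hw, h⟩)
    · exact Or.inr ⟨hw, h⟩
  have h2 := (Finset.card_le_card h1).trans (Finset.card_union_le _ _)
  rw [Finset.card_range] at h2
  have h3 := h2.trans (Nat.add_le_add_right (Finset.card_union_le _ _) _)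
  convert h3

/-- drift for the windows with large potential -/
private theorem MFg_drift1 (v θ ρ Lam K CL CS : ℝ) (hθ : 1 ≤ θ) (hρ : 0 ≤ ρ) (hθρ : θ * ρ ≤ 1)
    (hK1 : 0 < K) (hCL : 0 ≤ CL) (hK : θ * CL * CS ≤ K)
    (hS : ∀ x, ∑ z, Real.exp (-(M.dd x z : ℝ)) ≤ CS) (nu : ℕ)
    (hL : ∀ F, (∀ y, F y ≤ 0) → ∀ y,
      ∫⁻ ω, ENNReal.ofReal (Real.exp (-(Lam * M.RR (M.mf F (sc v ω) nu) y))) ∂(PI (nz S))
        ≤ ENNReal.ofReal (ρ * Real.exp (-(Lam * M.RR F y)) + CL)) :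
    ∀ F, (∀ y, F y ≤ 0) → ∀ z z', open Classical in
      ∫⁻ ω, ENNReal.ofReal ((if K < PhiF M Lam F z then θ else 1) *
          (1 + θ / K * PhiF M Lam (M.mf F (sc v ω) nu) z')) ∂(PI (nz S))
        ≤ ENNReal.ofReal (3 * Real.exp (M.dd z z') * (1 + θ / K * PhiF M Lam F z)) := by
  intro F hF z z'
  refine (lyap_h M v θ ρ Lam K CL CS hθ hρ hK1 hCL hS nu hL F hF z z').trans ?_
  apply ENNReal.ofReal_le_ofReal
  have h1 : θ * CL * CS / K ≤ 1 := by
    rw [div_le_one hK1]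
    exact hK
  have h2 := MFg_phi_nonneg M Lam F z
  have h3 : 0 ≤ 1 + θ / K * PhiF M Lam F z := by positivity
  apply mul_le_mul_of_nonneg_right _ h3
  apply mul_le_mul_of_nonneg_right _ (Real.exp_pos _).le
  linarith

/-- drift for a property of small probability -/
private theorem MFg_drift2 (v θ : ℝ) (hθ : 1 ≤ θ) (nu : ℕ)
    (B : (S → ℝ) → (ℕ → S → ℝ) → S → Prop)
    (hm : ∀ z, MeasurableSet {p : (S → ℝ) × (ℕ → S → ℝ) | B p.1 p.2 z})
    (hgn : ∀ F z, PI (nz S) {ω | B F ω z} ≤ ENNReal.ofReal θ⁻¹) :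
    ∀ F, (∀ y, F y ≤ 0) → ∀ z z', open Classical in
      ∫⁻ ω, ENNReal.ofReal ((if B F ω z then θ else 1) *
          (fun (_ : S → ℝ) (_ : S) => (1 : ℝ)) (M.mf F (sc v ω) nu) z') ∂(PI (nz S))
        ≤ ENNReal.ofReal (2 * Real.exp (M.dd z z') *
          (fun (_ : S → ℝ) (_ : S) => (1 : ℝ)) F z) := by
  classical
  intro F _ z z'
  have hθ0 : 0 < θ := by linarith
  have hE : MeasurableSet {ω : ℕ → S → ℝ | B F ω z} :=
    (measurable_const.prodMk measurable_id : Measurable fun ω : ℕ → S → ℝ => (F, ω)) (hm z)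
  have h1 : ∀ ω : ℕ → S → ℝ, ENNReal.ofReal ((if B F ω z then θ else 1) *
      (fun (_ : S → ℝ) (_ : S) => (1 : ℝ)) (M.mf F (sc v ω) nu) z') ≤
      1 + ENNReal.ofReal θ * Set.indicator {ω : ℕ → S → ℝ | B F ω z} 1 ω := by
    intro ω
    by_cases h : B F ω z
    · rw [if_pos h, Set.indicator_of_mem (show ω ∈ {ω : ℕ → S → ℝ | B F ω z} from h)]
      simp only [mul_one, Pi.one_apply]
      exact le_add_self
    · rw [if_neg h, Set.indicator_of_notMem (show ω ∉ {ω : ℕ → S → ℝ | B F ω z} from h)]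
      simp
  calc ∫⁻ ω, ENNReal.ofReal ((if B F ω z then θ else 1) *
          (fun (_ : S → ℝ) (_ : S) => (1 : ℝ)) (M.mf F (sc v ω) nu) z') ∂(PI (nz S))
      ≤ ∫⁻ ω, (1 + ENNReal.ofReal θ * Set.indicator {ω : ℕ → S → ℝ | B F ω z} 1 ω)
          ∂(PI (nz S)) := lintegral_mono h1
    _ = 1 + ENNReal.ofReal θ * PI (nz S) {ω | B F ω z} := by
        rw [lintegral_add_left measurable_const, lintegral_const, 
          lintegral_const_mul _ (measurable_one.indicator hE), lintegral_indicator_one hE]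
        have : PI (nz S) Set.univ = 1 := by
          have : IsProbabilityMeasure (PI (nz S)) := by
            unfold PI
            infer_instance
          exact measure_univ
        rw [this, one_mul]
    _ ≤ 1 + ENNReal.ofReal θ * ENNReal.ofReal θ⁻¹ := by
        gcongr
        exact hgn F z
    _ = ENNReal.ofReal 2 := by
        rw [← ENNReal.ofReal_mul hθ0.le, mul_inv_cancel₀ hθ0.ne', ← ENNReal.ofReal_one,
          ← ENNReal.ofReal_add zero_le_one zero_le_one]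
        norm_num
    _ ≤ _ := by
        apply ENNReal.ofReal_le_ofReal
        have : 1 ≤ Real.exp (M.dd z z') := Real.one_le_exp (by positivity)
        simp only [mul_one]
        linarith

/-- the union bound -/
private theorem MFg_core (P : FPar) (lam1 Ca lam2 Cb : ℝ) (h1 : 0 < lam1) (h2 : 0 < lam2)
    (ht1 : ∀ (n : ℕ) (x : S) (r : ℝ),
      PI (nz S) {ω | r ≤ M.lppM (1 / 8) (fun _ => 0) (sc P.v ω) n x}
        ≤ ENNReal.ofReal (Real.exp (Ca * (n * P.v + 1) - lam1 * r)))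
    (ht2 : ∀ (n : ℕ) (x : S) (r : ℝ),
      PI (nz S) {ω | r ≤ M.lppM (1 / 8) (fun _ => 0) (sc P.v (-ω)) n x}
        ≤ ENNReal.ofReal (Real.exp (Cb * (n * P.v + 1) - lam2 * r)))
    (θ ρ Lam K CL CS CS' s0 : ℝ) (hθ : 1 ≤ θ) (hρ : 0 ≤ ρ) (hθρ : θ * ρ ≤ 1)
    (hK1 : 1 ≤ K) (hCL : 0 ≤ CL) (hK : θ * CL * CS ≤ K) (hLam : 8 ≤ Lam)
    (hs : Lam * s0 = 1 / 2) (hKG : P.KG = Real.log K / Lam)
    (hS : ∀ x, ∑ z, Real.exp (-(M.dd x z : ℝ)) ≤ CS)
    (hS' : ∀ x, ∑ z, Real.exp (-(1 / 2 * (M.dd x z : ℝ))) ≤ CS')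
    (hL : ∀ F, (∀ y, F y ≤ 0) → ∀ y,
      ∫⁻ ω, ENNReal.ofReal (Real.exp (-(Lam * M.RR (M.mf F (sc P.v ω) P.nu) y))) ∂(PI (nz S))
        ≤ ENNReal.ofReal (ρ * Real.exp (-(Lam * M.RR F y)) + CL))
    (hgn : ∀ F z, PI (nz S) {ω | (∀ y, -P.KG - M.dd y z / 8 ≤ M.RR F y) ∧ ¬ GoodW M P F ω z}
      ≤ ENNReal.ofReal θ⁻¹)
    (X : S → ℝ) (hX : ∀ z, X z ≤ 0) (x : S) (Ke : ℝ) (hKe : 0 ≤ Ke)
    (hX0 : ∀ z, -Ke - s0 * M.dd x z ≤ X z) (m r' k r : ℕ) (hkr : 4 * k ≤ m + 3)
    (hr : 2 * r ≤ m + 1) (R N : ℝ) (hN : N = ((m * P.nu + r' : ℕ) : ℝ) * P.v)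
    (hR : R = 8 / 7 * (Ke + 2 * Ca * (N + 1) / lam1 + 2 * Cb * (N + 1) / lam2)) :
    PI (nz S) {ω | M.uncut P.η X (sc P.v ω) (m * P.nu + r') 0 x} ≤
      ENNReal.ofReal (Real.exp (-(Ca * (N + 1)))) + ENNReal.ofReal (Real.exp (-(Cb * (N + 1)))) +
      ENNReal.ofReal (θ⁻¹ ^ k * (Real.exp (3 * R) * CS * (3 * CS) ^ m *
        (1 + θ / K * (CS' * Real.exp (Lam * Ke))))) +
      ENNReal.ofReal (θ⁻¹ ^ k * (Real.exp (3 * R) * CS * (2 * CS) ^ m * 1)) +
      ENNReal.ofReal ((1 + Real.exp (-(flipC D P)))⁻¹ ^ r) := by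
  classical
  have hK0 : 0 < K := by linarith
  have hL0 : 0 < Lam := by linarith
  have hCS' : 0 ≤ CS' := le_trans (Finset.sum_nonneg fun _ _ => (Real.exp_pos _).le) (hS' x)
  set B1 : (S → ℝ) → (ℕ → S → ℝ) → S → Prop := fun F _ z => K < PhiF M Lam F z with hB1
  set B2 : (S → ℝ) → (ℕ → S → ℝ) → S → Prop := fun F ω z =>
    (∀ y, -P.KG - M.dd y z / 8 ≤ M.RR F y) ∧ ¬ GoodW M P F ω z with hB2
  have hm1 : ∀ z, MeasurableSet {p : (S → ℝ) × (ℕ → S → ℝ) | B1 p.1 p.2 z} := fun z =>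
    measurableSet_lt measurable_const ((MFg_phi_meas M Lam z).comp measurable_fst)
  have hm2 : ∀ z, MeasurableSet {p : (S → ℝ) × (ℕ → S → ℝ) | B2 p.1 p.2 z} := by
    intro z
    have e : {p : (S → ℝ) × (ℕ → S → ℝ) | B2 p.1 p.2 z} =
        (⋂ y, {p : (S → ℝ) × (ℕ → S → ℝ) | -P.KG - M.dd y z / 8 ≤ M.RR p.1 y}) ∩
          {p : (S → ℝ) × (ℕ → S → ℝ) | GoodW M P p.1 p.2 z}ᶜ := by
      ext p
      simp only [hB2, Set.mem_ofPred_eq, Set.mem_inter_iff, Set.mem_iInter, Set.mem_compl_iff]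
    rw [e]
    exact (MeasurableSet.iInter fun y => measurableSet_le measurable_const
      ((measurable_RR M y).comp measurable_fst)).inter (measurableSet_GoodW M P z).compl
  have hd2 : ∀ F z (ω ω' : ℕ → S → ℝ), (∀ j, j < P.nu → ω j = ω' j) →
      (B2 F ω z ↔ B2 F ω' z) := by
    intro F z ω ω' h
    simp only [hB2]
    rw [GoodW_congr M P F z ω ω' h]
  -- the five events
  have hb1 := bad_many M P.v θ 3 CS (1 + θ / K * (CS' * Real.exp (Lam * Ke))) hθ (by norm_num)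
    (by positivity) P.nu B1 hm1 (fun F z ω ω' _ => Iff.rfl) hS
    (fun F z => 1 + θ / K * PhiF M Lam F z)
    (fun z => measurable_const.add ((MFg_phi_meas M Lam z).const_mul _))
    (fun F z => by
      have := MFg_phi_nonneg M Lam F z
      have : 0 ≤ θ / K * PhiF M Lam F z := by positivity
      linarith)
    (fun F hF z z' => by
      convert MFg_drift1 M P.v θ ρ Lam K CL CS hθ hρ hθρ hK0 hCL hK hS P.nu hL F hF z z')
    X hX x
    (fun z => by
      have e1 := MFg_phi_init M Lam s0 Ke CS' hL0 hs hS' X x hX0 z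
      have e2 : θ / K * PhiF M Lam X z ≤
          θ / K * (CS' * Real.exp (Lam * Ke) * Real.exp (M.dd z x)) :=
        mul_le_mul_of_nonneg_left e1 (by positivity)
      have e3 : 1 ≤ Real.exp (M.dd z x) := Real.one_le_exp (by positivity)
      calc 1 + θ / K * PhiF M Lam X z
          ≤ Real.exp (M.dd z x) + θ / K * (CS' * Real.exp (Lam * Ke) * Real.exp (M.dd z x)) :=
            add_le_add e3 e2
        _ = _ := by ring)
    m r' k R
  have hb2 := bad_many M P.v θ 2 CS 1 hθ (by norm_num) (by norm_num) P.nu B2 hm2 hd2 hS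
    (fun _ _ => 1) (fun z => measurable_const) (fun F z => le_rfl)
    (MFg_drift2 M P.v θ hθ P.nu B2 hm2 hgn) X hX x
    (fun z => by
      have e3 : 1 ≤ Real.exp (M.dd z x) := Real.one_le_exp (by positivity)
      linarith)
    m r' k R
  have hb3 := good_few M P.v P.η (flipC D P) P.nu (GoodW M P) (measurableSet_GoodW M P)
    (fun F z ω ω' h => GoodW_congr M P F z ω ω' h) (flip_ineq M P) X hX m r' r x
  set E1 : Set (ℕ → S → ℝ) := {ω | 2 * Ca * (N + 1) / lam1 ≤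
    M.lppM (1 / 8) (fun _ => 0) (sc P.v ω) (m * P.nu + r') x} with hE1
  set E2 : Set (ℕ → S → ℝ) := {ω | 2 * Cb * (N + 1) / lam2 ≤
    M.lppM (1 / 8) (fun _ => 0) (sc P.v (-ω)) (m * P.nu + r') x} with hE2
  have hp1 : PI (nz S) E1 ≤ ENNReal.ofReal (Real.exp (-(Ca * (N + 1)))) := by
    refine (ht1 (m * P.nu + r') x _).trans (le_of_eq ?_)
    congr 2
    rw [← hN]
    field_simp
    ring
  have hp2 : PI (nz S) E2 ≤ ENNReal.ofReal (Real.exp (-(Cb * (N + 1)))) := by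
    refine (ht2 (m * P.nu + r') x _).trans (le_of_eq ?_)
    congr 2
    rw [← hN]
    field_simp
    ring
  refine le_trans (measure_mono (?_ : _ ⊆ (((E1 ∪ E2) ∪ _) ∪ _) ∪ _))
    ((measure_union_le _ _).trans (add_le_add ((measure_union_le _ _).trans
      (add_le_add ((measure_union_le _ _).trans (add_le_add ((measure_union_le _ _).trans
        (add_le_add hp1 hp2)) hb1)) hb2)) hb3))
  intro ω hω
  by_contra hcon
  simp only [Set.mem_union, not_or] at hcon
  obtain ⟨⟨⟨⟨c1, c2⟩, c3⟩, c4⟩, c5⟩ := hcon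
  have hx : -Ke ≤ X x := by
    have := hX0 x
    rw [M.dd_self] at this
    simpa using this
  have hlen := MFg_len M X hX P.v ω (m * P.nu + r') x Ke _ _ hKe hx c1 c2
  rw [← hR] at hlen
  have d3 : ¬ k ≤ gcount M P.v P.nu B1 X ω m (M.lin X (sc P.v ω) (m * P.nu + r') x r') :=
    fun h => c3 ⟨hlen, h⟩
  have d4 : ¬ k ≤ gcount M P.v P.nu B2 X ω m (M.lin X (sc P.v ω) (m * P.nu + r') x r') :=
    fun h => c4 ⟨hlen, h⟩
  have d5 : ¬ r ≤ gcount M P.v P.nu (GoodW M P) X ω m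
      (M.lin X (sc P.v ω) (m * P.nu + r') x r') := fun h => c5 ⟨hω, h⟩
  have hc := MFg_cover M P.v P.nu B1 B2 (GoodW M P) (fun F ω z => by
    by_cases e1 : K < PhiF M Lam F z
    · exact Or.inl e1
    · right
      by_cases e2 : GoodW M P F ω z
      · exact Or.inr e2
      · left
        refine ⟨?_, e2⟩
        intro y
        rw [hKG]
        exact MFg_phi_g1 M Lam K hLam F z (not_lt.mp e1) y) X ω m
    (M.lin X (sc P.v ω) (m * P.nu + r') x r')
  omega

end

/-- number of steps of a period -/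
private theorem MFg_np (v : ℝ) (hv : 0 < v) (hv1 : v ≤ 1) :
    100 ≤ v * (⌈100 / v⌉₊ : ℝ) ∧ v * (⌈100 / v⌉₊ : ℝ) ≤ 101 := by
  have h1 : 100 / v ≤ (⌈100 / v⌉₊ : ℝ) := Nat.le_ceil _
  have h2 : (⌈100 / v⌉₊ : ℝ) < 100 / v + 1 := Nat.ceil_lt_add_one (by positivity)
  constructor
  · rw [div_le_iff₀ hv] at h1
    linarith
  · have h3 : v * (⌈100 / v⌉₊ : ℝ) ≤ v * (100 / v + 1) := mul_le_mul_of_nonneg_left h2.le hv.le
    have h4 : v * (100 / v + 1) = 100 + v := by
      field_simp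
    linarith

/-- the parameters of the flip -/
private theorem MFg_par (D : ℕ) (lam3 Cg q W KG : ℝ) (w : ℕ) (hl : 0 < lam3) (hCg : 0 < Cg)
    (hq : 0 < q) (hq1 : q ≤ 1) (hw : 1 ≤ w) (hW : W = 101 * w) (hKG : 0 ≤ KG) :
    ∃ v1 c : ℝ, 0 < v1 ∧ v1 ≤ 1 ∧ 0 ≤ c ∧ ∀ v, 0 < v → v ≤ v1 → ∀ η, 0 < η →
      η * ((w * ⌈100 / v⌉₊ : ℕ) : ℝ) ≤ 1 →
      ∃ P : FPar, P.v = v ∧ P.η = η ∧ P.nu = w * ⌈100 / v⌉₊ ∧ P.KG = KG ∧ 1 ≤ P.n1 ∧
        flipC D P ≤ c ∧
        Cg * Real.exp (Cg * (P.nu * P.v + 1) - lam3 * P.Kn)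
            + (2 * P.r1 + 1) ^ D * (4 * Real.exp (-(1 / (512 * (P.v * P.n1)))))
            + 2 * Real.exp (-(P.Kp ^ 2 /
                (2 * ((max P.cup P.cd) ^ 2 * (P.v * P.nu) * (2 * P.r2 + 1) ^ D)))) ≤ q := by
  have hw1 : (1 : ℝ) ≤ w := by exact_mod_cast hw
  have hW1 : 101 ≤ W := by rw [hW]; linarith
  -- Kn
  set Kn : ℝ := max 0 ((Cg * (W + 1) + Real.log (3 * Cg / q)) / lam3) with hKn
  have hKn0 : 0 ≤ Kn := le_max_left _ _
  have hKn1 : Cg * Real.exp (Cg * (W + 1) - lam3 * Kn) ≤ q / 3 := by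
    have h1 : (Cg * (W + 1) + Real.log (3 * Cg / q)) / lam3 ≤ Kn := le_max_right _ _
    rw [div_le_iff₀ hl] at h1
    have h2 : Cg * (W + 1) - lam3 * Kn ≤ -Real.log (3 * Cg / q) := by linarith
    calc Cg * Real.exp (Cg * (W + 1) - lam3 * Kn) ≤ Cg * Real.exp (-Real.log (3 * Cg / q)) :=
          mul_le_mul_of_nonneg_left (Real.exp_le_exp.mpr h2) hCg.le
      _ = q / 3 := by
          rw [Real.exp_neg, Real.exp_log (by positivity)]
          field_simp
  set r0 : ℕ := ⌈2 * KG + 4 * Kn⌉₊ with hr0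
  set r1 : ℕ := ⌈4 * KG + 8 * Kn⌉₊ with hr1
  set r2 : ℕ := ⌈2 * (r1 : ℝ) + 2 * KG + 4 * Kn⌉₊ with hr2
  -- T1
  set L1 : ℝ := Real.log (12 * (2 * (r1 : ℝ) + 1) ^ D / q) with hL1
  have hpow1 : (1 : ℝ) ≤ (2 * (r1 : ℝ) + 1) ^ D := one_le_pow₀ (by
    have : (0 : ℝ) ≤ r1 := by positivity
    linarith)
  have hL1pos : 0 < L1 := by
    apply Real.log_pos
    rw [lt_div_iff₀ hq]
    linarith
  set T1 : ℝ := min 1 (1 / (512 * L1)) with hT1
  have hT0 : 0 < T1 := lt_min one_pos (by positivity)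
  have hT1' : T1 ≤ 1 := min_le_left _ _
  have hT2 : (2 * (r1 : ℝ) + 1) ^ D * (4 * Real.exp (-(1 / (512 * T1)))) ≤ q / 3 := by
    have h1 : T1 ≤ 1 / (512 * L1) := min_le_right _ _
    have h2 : L1 ≤ 1 / (512 * T1) := by
      rw [le_div_iff₀ (by positivity)]
      rw [le_div_iff₀ (by positivity)] at h1
      linarith
    calc (2 * (r1 : ℝ) + 1) ^ D * (4 * Real.exp (-(1 / (512 * T1))))
        ≤ (2 * (r1 : ℝ) + 1) ^ D * (4 * Real.exp (-L1)) := by
          apply mul_le_mul_of_nonneg_left _ (by positivity)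
          apply mul_le_mul_of_nonneg_left _ (by norm_num)
          apply Real.exp_le_exp.mpr
          linarith
      _ = q / 3 := by
          rw [Real.exp_neg, hL1, Real.exp_log (by positivity)]
          field_simp
          norm_num
  set cup : ℝ := 2 * (KG + r1 / 8 + 4) / T1 with hcup
  have hcup0 : 0 < cup := by positivity
  set Q : ℝ := 2 * (cup ^ 2 * W * (2 * (r2 : ℝ) + 1) ^ D) with hQ
  have hW0 : 0 < W := by linarith
  have hQ0 : 0 < Q := by positivity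
  have hL6 : 0 ≤ Real.log (6 / q) := by
    apply Real.log_nonneg
    rw [le_div_iff₀ hq]
    linarith
  set Kp : ℝ := Q + Real.log (6 / q) with hKp
  have hKp0 : 0 ≤ Kp := by linarith
  refine ⟨min (T1 / 2) (1 / cup), D * Real.log (2 * r0 + 1) + Kp +
    cup ^ 2 * W * (2 * (r2 : ℝ) + 1) ^ D / 2, lt_min (by positivity) (by positivity),
    (min_le_left _ _).trans (by linarith), ?_, ?_⟩
  · have : 0 ≤ Real.log (2 * (r0 : ℝ) + 1) := Real.log_nonneg (by
      have : (0 : ℝ) ≤ r0 := by positivity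
      linarith)
    positivity
  intro v hv hv1 η hη hηn
  have hvT : v ≤ T1 / 2 := hv1.trans (min_le_left _ _)
  have hvc : v ≤ 1 / cup := hv1.trans (min_le_right _ _)
  have hvle : v ≤ 1 := by linarith
  obtain ⟨hp1, hp2⟩ := MFg_np v hv hvle
  set n1 : ℕ := ⌊T1 / v⌋₊ with hn1
  have hn1a : v * (n1 : ℝ) ≤ T1 := by
    have h1 : (n1 : ℝ) ≤ T1 / v := Nat.floor_le (by positivity)
    rw [le_div_iff₀ hv] at h1
    linarith
  have hn1b : T1 / 2 ≤ v * (n1 : ℝ) := by
    have h1 : T1 / v < n1 + 1 := Nat.lt_floor_add_one _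
    rw [div_lt_iff₀ hv] at h1
    linarith
  have hn1c : 1 ≤ n1 := by
    rw [hn1, Nat.one_le_floor_iff, le_div_iff₀ hv]
    linarith
  have hnu1 : v * (((w * ⌈100 / v⌉₊ : ℕ) : ℝ)) ≤ W := by
    push_cast
    rw [hW]
    calc v * ((w : ℝ) * (⌈100 / v⌉₊ : ℝ)) = w * (v * (⌈100 / v⌉₊ : ℝ)) := by ring
      _ ≤ w * 101 := mul_le_mul_of_nonneg_left hp2 (by positivity)
      _ = 101 * w := by ring
  have hnu2 : 100 ≤ v * (((w * ⌈100 / v⌉₊ : ℕ) : ℝ)) := by
    push_cast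
    calc (100 : ℝ) ≤ 1 * (v * (⌈100 / v⌉₊ : ℝ)) := by linarith
      _ ≤ w * (v * (⌈100 / v⌉₊ : ℝ)) := mul_le_mul_of_nonneg_right hw1 (by positivity)
      _ = v * ((w : ℝ) * (⌈100 / v⌉₊ : ℝ)) := by ring
  have hlt : n1 < w * ⌈100 / v⌉₊ := by
    have h1 : v * (n1 : ℝ) < v * (((w * ⌈100 / v⌉₊ : ℕ) : ℝ)) := by linarith
    have h2 := lt_of_mul_lt_mul_left h1 hv.le
    exact_mod_cast h2
  refine ⟨{ v := v, η := η, cup := cup, cd := cup, KG := KG, Kn := Kn, Kp := Kp, n1 := n1,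
            nu := w * ⌈100 / v⌉₊, r0 := r0, r1 := r1, r2 := r2, hv := hv, hη := hη,
            hcup := hcup0, hcd := hcup0, hKG := hKG, hKn := hKn0, hKp := hKp0, hn := hlt,
            hηn := hηn, hcv := ?_, hr0 := Nat.le_ceil _, hr1 := Nat.le_ceil _,
            hr2 := Nat.le_ceil _, hup := ?_, hdn := ?_ }, rfl, rfl, rfl, rfl, hn1c, ?_, ?_⟩
  · rw [le_div_iff₀ hcup0] at hvc
    linarith
  · have h1 : cup * (T1 / 2) ≤ cup * (v * n1) := mul_le_mul_of_nonneg_left hn1b hcup0.le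
    have h2 : cup * (T1 / 2) = KG + r1 / 8 + 4 := by
      rw [hcup]
      field_simp
    linarith
  · apply mul_le_mul_of_nonneg_left _ hcup0.le
    rw [mul_sub]
    linarith
  · simp only [flipC, max_self]
    have h1 : cup ^ 2 * (v * (((w * ⌈100 / v⌉₊ : ℕ) : ℝ))) * (2 * (r2 : ℝ) + 1) ^ D ≤
        cup ^ 2 * W * (2 * (r2 : ℝ) + 1) ^ D := by
      apply mul_le_mul_of_nonneg_right _ (by positivity)
      exact mul_le_mul_of_nonneg_left hnu1 (by positivity)
    linarith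
  · simp only [max_self]
    have e1 : Cg * Real.exp (Cg * ((((w * ⌈100 / v⌉₊ : ℕ) : ℝ)) * v + 1) - lam3 * Kn) ≤ q / 3 := by
      refine le_trans ?_ hKn1
      apply mul_le_mul_of_nonneg_left _ hCg.le
      apply Real.exp_le_exp.mpr
      have : Cg * ((((w * ⌈100 / v⌉₊ : ℕ) : ℝ)) * v + 1) ≤ Cg * (W + 1) := by
        apply mul_le_mul_of_nonneg_left _ hCg.le
        linarith
      linarith
    have hvn : 0 < v * (n1 : ℝ) := by linarith
    have e2 : (2 * (r1 : ℝ) + 1) ^ D * (4 * Real.exp (-(1 / (512 * (v * n1))))) ≤ q / 3 := by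
      refine le_trans ?_ hT2
      apply mul_le_mul_of_nonneg_left _ (by positivity)
      apply mul_le_mul_of_nonneg_left _ (by norm_num)
      apply Real.exp_le_exp.mpr
      apply neg_le_neg
      apply one_div_le_one_div_of_le (by positivity)
      linarith
    have hnu0 : 0 < v * (((w * ⌈100 / v⌉₊ : ℕ) : ℝ)) := by linarith
    have e3 : 2 * Real.exp (-(Kp ^ 2 / (2 * (cup ^ 2 * (v * (((w * ⌈100 / v⌉₊ : ℕ) : ℝ))) *
        (2 * (r2 : ℝ) + 1) ^ D)))) ≤ q / 3 := by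
      have h1 : 2 * (cup ^ 2 * (v * (((w * ⌈100 / v⌉₊ : ℕ) : ℝ))) * (2 * (r2 : ℝ) + 1) ^ D) ≤ Q := by
        rw [hQ]
        apply mul_le_mul_of_nonneg_left _ (by norm_num)
        apply mul_le_mul_of_nonneg_right _ (by positivity)
        exact mul_le_mul_of_nonneg_left hnu1 (by positivity)
      have h2 : Real.log (6 / q) ≤ Kp ^ 2 / Q := by
        rw [le_div_iff₀ hQ0, hKp]
        nlinarith
      have h3 : Kp ^ 2 / Q ≤ Kp ^ 2 / (2 * (cup ^ 2 * (v * (((w * ⌈100 / v⌉₊ : ℕ) : ℝ))) *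
          (2 * (r2 : ℝ) + 1) ^ D)) := by
        apply div_le_div_of_nonneg_left (by positivity) (by positivity) h1
      calc 2 * Real.exp (-(Kp ^ 2 / (2 * (cup ^ 2 * (v * (((w * ⌈100 / v⌉₊ : ℕ) : ℝ))) *
            (2 * (r2 : ℝ) + 1) ^ D)))) ≤ 2 * Real.exp (-Real.log (6 / q)) := by
            apply mul_le_mul_of_nonneg_left _ (by norm_num)
            apply Real.exp_le_exp.mpr
            linarith
        _ = q / 3 := by
            rw [Real.exp_neg, Real.exp_log (by positivity)]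
            field_simp
            norm_num
    linarith

/-- the final estimate -/
private theorem MFg_num (Ca Cb lam1 lam2 Cpp W A E θ K CS CS' H1 Lam cb δ c3 G C : ℝ)
    (hCa : 0 < Ca) (hCb : 0 < Cb) (hl1 : 0 < lam1) (hl2 : 0 < lam2)
    (hCpp : Cpp = 4 * (1 + (2 * Ca / lam1 + 2 * Cb / lam2))) (hW : 0 < W) (hCS : 1 ≤ CS)
    (hA : A = Real.log (3 * CS)) (hE : E = 1 + Cpp * W + A) (hθ : θ = Real.exp (4 * E))
    (hK : 1 ≤ K) (hCS' : 0 ≤ CS') (hLam : 0 < Lam) (hH1 : H1 = 1 + θ / K * CS')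
    (hδ : δ = Real.log (1 + Real.exp (-cb)) / 2) (hcb : 0 ≤ cb)
    (hc3 : c3 = min (min Ca Cb) (δ / W))
    (hG : G = Real.exp (1 + Cpp * (W + 1)) * CS * H1)
    (hC : C = max (Cpp + Lam) (Real.log (2 + 2 * G + Real.exp 1)))
    (fC Ke N R : ℝ) (m k r : ℕ) (hfC : fC ≤ cb) (hKe : 0 ≤ Ke) (hN : 0 ≤ N)
    (hk : m ≤ 4 * k) (hr : m ≤ 2 * r) (hNm : N ≤ W * (m + 1))
    (hR : R = 8 / 7 * (Ke + 2 * Ca * (N + 1) / lam1 + 2 * Cb * (N + 1) / lam2)) :
    Real.exp (-(Ca * (N + 1))) + Real.exp (-(Cb * (N + 1))) +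
      θ⁻¹ ^ k * (Real.exp (3 * R) * CS * (3 * CS) ^ m *
        (1 + θ / K * (CS' * Real.exp (Lam * Ke)))) +
      θ⁻¹ ^ k * (Real.exp (3 * R) * CS * (2 * CS) ^ m * 1) +
      (1 + Real.exp (-fC))⁻¹ ^ r ≤ Real.exp (C * (Ke + 1) - c3 * N) := by
  have hK0 : 0 < K := by linarith
  have hCS0 : 0 < CS := by linarith
  have hθ0 : 0 < θ := by rw [hθ]; positivity
  have ha0 : 0 ≤ 2 * Ca / lam1 + 2 * Cb / lam2 := by positivity
  have hCpp0 : 0 < Cpp := by rw [hCpp]; linarith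
  have hA0 : 0 ≤ A := by
    rw [hA]
    exact Real.log_nonneg (by linarith)
  have hE0 : 0 ≤ E := by
    rw [hE]
    positivity
  have hH10 : 1 ≤ H1 := by
    rw [hH1]
    have : 0 ≤ θ / K * CS' := by positivity
    linarith
  have hG0 : 0 ≤ G := by
    rw [hG]
    positivity
  have hδ0 : 0 < δ := by
    rw [hδ]
    have : 0 < Real.log (1 + Real.exp (-cb)) := Real.log_pos (by
      have := Real.exp_pos (-cb)
      linarith)
    linarith
  have hδ1 : δ ≤ 1 := by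
    rw [hδ]
    have h1 : Real.log (1 + Real.exp (-cb)) ≤ (1 + Real.exp (-cb)) - 1 :=
      Real.log_le_sub_one_of_pos (by positivity)
    have h2 : Real.exp (-cb) ≤ 1 := Real.exp_le_one_iff.mpr (by linarith)
    linarith
  have hc3a : c3 ≤ Ca := by
    rw [hc3]
    exact (min_le_left _ _).trans (min_le_left _ _)
  have hc3b : c3 ≤ Cb := by
    rw [hc3]
    exact (min_le_left _ _).trans (min_le_right _ _)
  have hc3c : c3 ≤ δ / W := by
    rw [hc3]
    exact min_le_right _ _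
  have hc3N : c3 * N ≤ δ * (N / W) := by
    calc c3 * N ≤ δ / W * N := mul_le_mul_of_nonneg_right hc3c hN
      _ = δ * (N / W) := by ring
  have hNW : N / W ≤ m + 1 := by
    rw [div_le_iff₀ hW]
    linarith
  have hNW0 : 0 ≤ N / W := by positivity
  have hm1 : Real.exp (-(m : ℝ)) ≤ Real.exp 1 * Real.exp (-(c3 * N)) := by
    rw [← Real.exp_add]
    apply Real.exp_le_exp.mpr
    have : δ * (N / W) ≤ N / W := by
      calc δ * (N / W) ≤ 1 * (N / W) := mul_le_mul_of_nonneg_right hδ1 hNW0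
        _ = N / W := one_mul _
    linarith
  have hm2 : Real.exp (-(δ * m)) ≤ Real.exp 1 * Real.exp (-(c3 * N)) := by
    rw [← Real.exp_add]
    apply Real.exp_le_exp.mpr
    have h1 : δ * (N / W) ≤ δ * (m + 1) := mul_le_mul_of_nonneg_left hNW hδ0.le
    nlinarith
  -- the length
  have h3R : 3 * R ≤ Cpp * (Ke + W * (m + 1) + 1) := by
    rw [hR, hCpp]
    have e1 : 2 * Ca * (N + 1) / lam1 + 2 * Cb * (N + 1) / lam2 =
        (2 * Ca / lam1 + 2 * Cb / lam2) * (N + 1) := by ring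
    have e2 : 3 * (8 / 7 * (Ke + 2 * Ca * (N + 1) / lam1 + 2 * Cb * (N + 1) / lam2)) =
        24 / 7 * (Ke + (2 * Ca / lam1 + 2 * Cb / lam2) * (N + 1)) := by
      rw [← e1]
      ring
    rw [e2]
    set a := 2 * Ca / lam1 + 2 * Cb / lam2
    have e3 : a * (N + 1) ≤ a * (W * (m + 1) + 1) := mul_le_mul_of_nonneg_left (by linarith) ha0
    have e4 : 0 ≤ W * ((m : ℝ) + 1) + 1 := by positivity
    have e5 : 0 ≤ a * (W * (m + 1) + 1) := mul_nonneg ha0 e4
    have e6 : 0 ≤ a * Ke := mul_nonneg ha0 hKe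
    nlinarith
  have hmk : (m : ℝ) ≤ 4 * k := by exact_mod_cast hk
  have hmr : (m : ℝ) ≤ 2 * r := by exact_mod_cast hr
  have hθk : θ⁻¹ ^ k ≤ Real.exp (-(E * m)) := by
    rw [hθ, ← Real.exp_neg, ← Real.exp_nat_mul]
    apply Real.exp_le_exp.mpr
    have := mul_le_mul_of_nonneg_left hmk hE0
    linarith
  have h3m : (3 * CS) ^ m = Real.exp (A * m) := by
    rw [hA, mul_comm (Real.log (3 * CS)), Real.exp_nat_mul, Real.exp_log (by positivity)]
  have hH : 1 + θ / K * (CS' * Real.exp (Lam * Ke)) ≤ Real.exp (Lam * Ke) * H1 := by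
    rw [hH1]
    have h1 : 1 ≤ Real.exp (Lam * Ke) := Real.one_le_exp (by positivity)
    have h2 : Real.exp (Lam * Ke) * (1 + θ / K * CS') =
        Real.exp (Lam * Ke) + θ / K * (CS' * Real.exp (Lam * Ke)) := by ring
    rw [h2]
    linarith
  have hH0 : 1 ≤ 1 + θ / K * (CS' * Real.exp (Lam * Ke)) := by
    have : 0 ≤ θ / K * (CS' * Real.exp (Lam * Ke)) := by positivity
    linarith
  -- third term
  have ht3 : θ⁻¹ ^ k * (Real.exp (3 * R) * CS * (3 * CS) ^ m *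
      (1 + θ / K * (CS' * Real.exp (Lam * Ke)))) ≤
      G * (Real.exp ((Cpp + Lam) * Ke) * Real.exp (-(c3 * N))) := by
    calc θ⁻¹ ^ k * (Real.exp (3 * R) * CS * (3 * CS) ^ m *
          (1 + θ / K * (CS' * Real.exp (Lam * Ke))))
        ≤ Real.exp (-(E * m)) * (Real.exp (Cpp * (Ke + W * (m + 1) + 1)) * CS *
          Real.exp (A * m) * (Real.exp (Lam * Ke) * H1)) := by
          rw [h3m]
          apply mul_le_mul hθk _ (by positivity) (Real.exp_pos _).le
          apply mul_le_mul _ hH (by positivity) (by positivity)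
          apply mul_le_mul_of_nonneg_right _ (Real.exp_pos _).le
          apply mul_le_mul_of_nonneg_right _ hCS0.le
          exact Real.exp_le_exp.mpr h3R
      _ = Real.exp (-(m : ℝ)) * (Real.exp ((Cpp + Lam) * Ke) *
          (Real.exp (Cpp * (W + 1)) * CS * H1)) := by
          have e : Real.exp (-(E * m)) * (Real.exp (Cpp * (Ke + W * (m + 1) + 1)) *
              Real.exp (A * m) * Real.exp (Lam * Ke)) =
              Real.exp (-(m : ℝ)) * (Real.exp ((Cpp + Lam) * Ke) * Real.exp (Cpp * (W + 1))) := by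
            rw [← Real.exp_add, ← Real.exp_add, ← Real.exp_add, ← Real.exp_add, ← Real.exp_add]
            congr 1
            rw [hE]
            ring
          calc _ = (Real.exp (-(E * m)) * (Real.exp (Cpp * (Ke + W * (m + 1) + 1)) *
              Real.exp (A * m) * Real.exp (Lam * Ke))) * (CS * H1) := by ring
            _ = _ := by
              rw [e]
              ring
      _ ≤ (Real.exp 1 * Real.exp (-(c3 * N))) * (Real.exp ((Cpp + Lam) * Ke) *
          (Real.exp (Cpp * (W + 1)) * CS * H1)) :=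
          mul_le_mul_of_nonneg_right hm1 (by positivity)
      _ = _ := by
          rw [hG, Real.exp_add 1]
          ring
  have ht4 : θ⁻¹ ^ k * (Real.exp (3 * R) * CS * (2 * CS) ^ m * 1) ≤
      G * (Real.exp ((Cpp + Lam) * Ke) * Real.exp (-(c3 * N))) := by
    refine le_trans ?_ ht3
    apply mul_le_mul_of_nonneg_left _ (by positivity)
    apply mul_le_mul _ hH0 (by norm_num) (by positivity)
    apply mul_le_mul_of_nonneg_left _ (by positivity)
    exact pow_le_pow_left₀ (by positivity) (by linarith) m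
  have hKe1 : 1 ≤ Real.exp ((Cpp + Lam) * Ke) := Real.one_le_exp (by positivity)
  have hexpN : 0 < Real.exp (-(c3 * N)) := Real.exp_pos _
  have ht5 : (1 + Real.exp (-fC))⁻¹ ^ r ≤
      Real.exp 1 * (Real.exp ((Cpp + Lam) * Ke) * Real.exp (-(c3 * N))) := by
    have h1 : (1 + Real.exp (-fC))⁻¹ ≤ Real.exp (-(2 * δ)) := by
      have e : 2 * δ = Real.log (1 + Real.exp (-cb)) := by rw [hδ]; ring
      rw [e, Real.exp_neg (Real.log _), Real.exp_log (by positivity)]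
      apply inv_anti₀ (by positivity)
      have := Real.exp_le_exp.mpr (neg_le_neg hfC)
      linarith
    calc (1 + Real.exp (-fC))⁻¹ ^ r ≤ Real.exp (-(2 * δ)) ^ r :=
          pow_le_pow_left₀ (by positivity) h1 r
      _ = Real.exp (-(δ * (2 * r))) := by
          rw [← Real.exp_nat_mul]
          congr 1
          ring
      _ ≤ Real.exp (-(δ * m)) := by
          apply Real.exp_le_exp.mpr
          have := mul_le_mul_of_nonneg_left hmr hδ0.le
          linarith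
      _ ≤ Real.exp 1 * Real.exp (-(c3 * N)) := hm2
      _ ≤ _ := by
          apply mul_le_mul_of_nonneg_left _ (Real.exp_pos _).le
          calc Real.exp (-(c3 * N)) = 1 * Real.exp (-(c3 * N)) := (one_mul _).symm
            _ ≤ _ := mul_le_mul_of_nonneg_right hKe1 hexpN.le
  have ht1 : Real.exp (-(Ca * (N + 1))) ≤ 1 * (Real.exp ((Cpp + Lam) * Ke) *
      Real.exp (-(c3 * N))) := by
    rw [one_mul, ← Real.exp_add]
    apply Real.exp_le_exp.mpr
    have h1 : c3 * N ≤ Ca * N := mul_le_mul_of_nonneg_right hc3a hN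
    have h2 : 0 ≤ (Cpp + Lam) * Ke := by positivity
    linarith
  have ht2 : Real.exp (-(Cb * (N + 1))) ≤ 1 * (Real.exp ((Cpp + Lam) * Ke) *
      Real.exp (-(c3 * N))) := by
    rw [one_mul, ← Real.exp_add]
    apply Real.exp_le_exp.mpr
    have h1 : c3 * N ≤ Cb * N := mul_le_mul_of_nonneg_right hc3b hN
    have h2 : 0 ≤ (Cpp + Lam) * Ke := by positivity
    linarith
  have hC1 : Cpp + Lam ≤ C := by rw [hC]; exact le_max_left _ _
  have hC2 : Real.log (2 + 2 * G + Real.exp 1) ≤ C := by rw [hC]; exact le_max_right _ _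
  have hsum : 2 + 2 * G + Real.exp 1 ≤ Real.exp C := by
    have h1 : 0 < 2 + 2 * G + Real.exp 1 := by positivity
    calc 2 + 2 * G + Real.exp 1 = Real.exp (Real.log (2 + 2 * G + Real.exp 1)) :=
          (Real.exp_log h1).symm
      _ ≤ Real.exp C := Real.exp_le_exp.mpr hC2
  calc _ ≤ 1 * (Real.exp ((Cpp + Lam) * Ke) * Real.exp (-(c3 * N))) +
        1 * (Real.exp ((Cpp + Lam) * Ke) * Real.exp (-(c3 * N))) +
        G * (Real.exp ((Cpp + Lam) * Ke) * Real.exp (-(c3 * N))) +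
        G * (Real.exp ((Cpp + Lam) * Ke) * Real.exp (-(c3 * N))) +
        Real.exp 1 * (Real.exp ((Cpp + Lam) * Ke) * Real.exp (-(c3 * N))) :=
        add_le_add (add_le_add (add_le_add (add_le_add ht1 ht2) ht3) ht4) ht5
    _ = (2 + 2 * G + Real.exp 1) * (Real.exp ((Cpp + Lam) * Ke) * Real.exp (-(c3 * N))) := by ring
    _ ≤ Real.exp C * (Real.exp (C * Ke) * Real.exp (-(c3 * N))) := by
        apply mul_le_mul hsum _ (by positivity) (Real.exp_pos _).le
        apply mul_le_mul_of_nonneg_right _ hexpN.le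
        apply Real.exp_le_exp.mpr
        exact mul_le_mul_of_nonneg_right hC1 hKe
    _ = _ := by
        rw [← Real.exp_add, ← Real.exp_add]
        congr 1
        ring

theorem uncut_decay (D : ℕ) : ∃ (v0 c3 C s0 : ℝ) (nd : ℕ), 0 < v0 ∧ 0 < c3 ∧ 1 ≤ C ∧ 0 < s0 ∧
    s0 ≤ 1 / 8 ∧
    ∀ v : ℝ, 0 < v → v ≤ v0 → ∃ η0 : ℝ, 0 < η0 ∧ ∀ η : ℝ, 0 < η → η ≤ η0 →
      ∀ (S : Type) [Fintype S] (M : MSet S D), M.HasLine nd → ∀ (n : ℕ) (X : S → ℝ) (x : S)
        (Ke : ℝ), 0 ≤ Ke → (∀ z, X z ≤ 0) → (∀ z, -Ke - s0 * M.dd x z ≤ X z) →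
        PI (nz S) {ω | M.uncut η X (sc v ω) n 0 x}
          ≤ ENNReal.ofReal (Real.exp (C * (Ke + 1) - c3 * (n * v))) := by
  obtain ⟨lam1, Ca, hl1, hCa, ht1⟩ := lpp_tail D (1 / 8) (by norm_num)
  obtain ⟨lam2, Cb, hl2, hCb, ht2⟩ := lpp_tail_neg D (1 / 8) (by norm_num)
  obtain ⟨lam3, Cg, hl3, hCg, hgn⟩ := good_noise D
  obtain ⟨CS, hCS, hS⟩ := sum_exp_dd D 1 one_pos
  obtain ⟨CS', hCS', hS'⟩ := sum_exp_dd D (1 / 2) (by norm_num)
  obtain ⟨C1, hC1, hly⟩ := lyap_F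
  obtain ⟨Cpp, hCpp⟩ : ∃ Cpp : ℝ, Cpp = 4 * (1 + (2 * Ca / lam1 + 2 * Cb / lam2)) := ⟨_, rfl⟩
  obtain ⟨A, hA⟩ : ∃ A : ℝ, A = Real.log (3 * CS) := ⟨_, rfl⟩
  have hCpp0 : 4 ≤ Cpp := by
    rw [hCpp]
    have : 0 ≤ 2 * Ca / lam1 + 2 * Cb / lam2 := by positivity
    linarith
  have hA0 : 0 ≤ A := by
    rw [hA]
    exact Real.log_nonneg (by linarith)
  obtain ⟨nd, hnd1, hnd2⟩ : ∃ nd : ℕ, (400 : ℝ) ≤ nd ∧ 27000 * Cpp ≤ nd := by
    refine ⟨max 400 ⌈27000 * Cpp⌉₊, ?_, ?_⟩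
    · exact_mod_cast le_max_left _ _
    · exact (Nat.le_ceil _).trans (by exact_mod_cast le_max_right _ _)
  obtain ⟨Lam, hLam⟩ : ∃ Lam : ℝ, Lam = nd / 50 := ⟨_, rfl⟩
  have hLam8 : 8 ≤ Lam := by rw [hLam]; linarith
  have hLam0 : 0 < Lam := by linarith
  obtain ⟨w, hw1, hw2⟩ : ∃ w : ℕ, 1 ≤ w ∧ (nd : ℝ) + 4 / 50 * nd ^ 2 + 4 + 4 * A ≤ w := by
    refine ⟨⌈(nd : ℝ) + 4 / 50 * nd ^ 2 + 4 + 4 * A⌉₊ + 1, by omega, ?_⟩
    push_cast
    have := Nat.le_ceil ((nd : ℝ) + 4 / 50 * nd ^ 2 + 4 + 4 * A)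
    linarith
  have hw1R : (1 : ℝ) ≤ w := by exact_mod_cast hw1
  obtain ⟨W, hW⟩ : ∃ W : ℝ, W = 101 * w := ⟨_, rfl⟩
  have hW0 : 0 < W := by rw [hW]; linarith
  obtain ⟨E, hE⟩ : ∃ E : ℝ, E = 1 + Cpp * W + A := ⟨_, rfl⟩
  have hE0 : 0 ≤ E := by rw [hE]; positivity
  obtain ⟨θ, hθ⟩ : ∃ θ : ℝ, θ = Real.exp (4 * E) := ⟨_, rfl⟩
  have hθ1 : 1 ≤ θ := by rw [hθ]; exact Real.one_le_exp (by positivity)
  have hθ0 : 0 < θ := by linarith
  obtain ⟨ρ, hρ⟩ : ∃ ρ : ℝ, ρ = 2 ^ nd * Real.exp (4 / 50 * nd ^ 2) * (97 / 100) ^ (w * nd) :=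
    ⟨_, rfl⟩
  have hρ0 : 0 ≤ ρ := by rw [hρ]; positivity
  have hθρ : θ * ρ ≤ 1 := by
    have e1 : (2 : ℝ) ^ nd ≤ Real.exp nd := by
      have h1 : (2 : ℝ) ≤ Real.exp 1 := by
        have := Real.exp_one_gt_d9
        linarith
      calc (2 : ℝ) ^ nd ≤ Real.exp 1 ^ nd := pow_le_pow_left₀ (by norm_num) h1 nd
        _ = Real.exp nd := by rw [← Real.exp_nat_mul, mul_one]
    have e2 : ((97 : ℝ) / 100) ^ (w * nd) ≤ Real.exp (-(3 / 100 * (w * nd))) := by
      have h1 : (97 : ℝ) / 100 ≤ Real.exp (-(3 / 100)) := by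
        have := Real.one_sub_le_exp_neg (3 / 100)
        linarith
      calc ((97 : ℝ) / 100) ^ (w * nd) ≤ Real.exp (-(3 / 100)) ^ (w * nd) :=
            pow_le_pow_left₀ (by norm_num) h1 _
        _ = Real.exp (-(3 / 100 * (w * nd))) := by
            rw [← Real.exp_nat_mul]
            congr 1
            push_cast
            ring
    calc θ * ρ ≤ Real.exp (4 * E) * (Real.exp nd * Real.exp (4 / 50 * nd ^ 2) *
          Real.exp (-(3 / 100 * (w * nd)))) := by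
          rw [hθ, hρ]
          apply mul_le_mul_of_nonneg_left _ (Real.exp_pos _).le
          apply mul_le_mul _ e2 (by positivity) (by positivity)
          exact mul_le_mul_of_nonneg_right e1 (Real.exp_pos _).le
      _ = Real.exp (4 * E + (nd + 4 / 50 * nd ^ 2 + -(3 / 100 * (w * nd)))) := by
          rw [← Real.exp_add, ← Real.exp_add, ← Real.exp_add]
      _ ≤ Real.exp 0 := by
          apply Real.exp_le_exp.mpr
          rw [hE, hW]
          have f1 : (w : ℝ) * (27000 * Cpp) ≤ w * nd :=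
            mul_le_mul_of_nonneg_left hnd2 (by positivity)
          have f2 : ((nd : ℝ) + 4 / 50 * nd ^ 2 + 4 + 4 * A) * 400 ≤ w * nd :=
            mul_le_mul hw2 hnd1 (by norm_num) (by positivity)
          have f3 : 0 ≤ (nd : ℝ) + 4 / 50 * nd ^ 2 + 4 + 4 * A := by positivity
          nlinarith
      _ = 1 := Real.exp_zero
  obtain ⟨CL, hCL⟩ : ∃ CL : ℝ, CL = 2 ^ nd * Real.exp (2 / 50 * nd ^ 2) * C1 ^ nd := ⟨_, rfl⟩
  have hCL0 : 0 ≤ CL := by rw [hCL]; positivity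
  obtain ⟨K, hK⟩ : ∃ K : ℝ, K = max 1 (θ * CL * CS) := ⟨_, rfl⟩
  have hK1 : 1 ≤ K := by rw [hK]; exact le_max_left _ _
  have hK2 : θ * CL * CS ≤ K := by rw [hK]; exact le_max_right _ _
  obtain ⟨KG, hKG⟩ : ∃ KG : ℝ, KG = Real.log K / Lam := ⟨_, rfl⟩
  have hKG0 : 0 ≤ KG := by
    rw [hKG]
    exact div_nonneg (Real.log_nonneg hK1) hLam0.le
  obtain ⟨v1, cb, hv1, hv1', hcb, hpar⟩ := MFg_par D lam3 Cg θ⁻¹ W KG w hl3 hCg
    (by positivity) (inv_le_one_of_one_le₀ hθ1) hw1 hW hKG0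
  obtain ⟨H1, hH1⟩ : ∃ H1 : ℝ, H1 = 1 + θ / K * CS' := ⟨_, rfl⟩
  obtain ⟨δ, hδ⟩ : ∃ δ : ℝ, δ = Real.log (1 + Real.exp (-cb)) / 2 := ⟨_, rfl⟩
  have hδ0 : 0 < δ := by
    rw [hδ]
    have : 0 < Real.log (1 + Real.exp (-cb)) := Real.log_pos (by
      have := Real.exp_pos (-cb)
      linarith)
    linarith
  obtain ⟨c3, hc3⟩ : ∃ c3 : ℝ, c3 = min (min Ca Cb) (δ / W) := ⟨_, rfl⟩
  have hc30 : 0 < c3 := by
    rw [hc3]
    exact lt_min (lt_min hCa hCb) (by positivity)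
  obtain ⟨G, hG⟩ : ∃ G : ℝ, G = Real.exp (1 + Cpp * (W + 1)) * CS * H1 := ⟨_, rfl⟩
  obtain ⟨C, hC⟩ : ∃ C : ℝ, C = max (Cpp + Lam) (Real.log (2 + 2 * G + Real.exp 1)) := ⟨_, rfl⟩
  have hC1' : 1 ≤ C := by
    rw [hC]
    exact le_trans (by linarith) (le_max_left _ _)
  refine ⟨min v1 (min (1 / lam1 ^ 2) (min (1 / lam2 ^ 2) (1 / lam3 ^ 2))), c3, C, 1 / (2 * Lam),
    nd, lt_min hv1 (lt_min (by positivity) (lt_min (by positivity) (by positivity))), hc30, hC1',
    by positivity, ?_, ?_⟩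
  · apply one_div_le_one_div_of_le (by norm_num)
    linarith
  intro v hv hvle
  have hva : v ≤ v1 := hvle.trans (min_le_left _ _)
  have hvb : v ≤ 1 / lam1 ^ 2 := hvle.trans ((min_le_right _ _).trans (min_le_left _ _))
  have hvc : v ≤ 1 / lam2 ^ 2 :=
    hvle.trans ((min_le_right _ _).trans ((min_le_right _ _).trans (min_le_left _ _)))
  have hvd : v ≤ 1 / lam3 ^ 2 :=
    hvle.trans ((min_le_right _ _).trans ((min_le_right _ _).trans (min_le_right _ _)))
  have hv1 : v ≤ 1 := hva.trans hv1'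
  obtain ⟨hnp1, hnp2⟩ := MFg_np v hv hv1
  have hnppos : 0 < ⌈100 / v⌉₊ := Nat.ceil_pos.mpr (by positivity)
  have hnupos : 0 < w * ⌈100 / v⌉₊ := Nat.mul_pos hw1 hnppos
  have hnuposR : (0 : ℝ) < ((w * ⌈100 / v⌉₊ : ℕ) : ℝ) := by exact_mod_cast hnupos
  refine ⟨1 / ((w * ⌈100 / v⌉₊ : ℕ) : ℝ), by positivity, ?_⟩
  intro η hη hηle S _ M hline n X x Ke hKe hX hX0
  have hηn : η * ((w * ⌈100 / v⌉₊ : ℕ) : ℝ) ≤ 1 := by
    rw [le_div_iff₀ hnuposR] at hηle
    exact hηle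
  obtain ⟨P, hPv, hPη, hPnu, hPKG, hPn1, hPfc, hPq⟩ := hpar v hv hva η hη hηn
  have hPnupos : 0 < P.nu := by rw [hPnu]; exact hnupos
  obtain ⟨m, hm⟩ : ∃ m, m = n / P.nu := ⟨_, rfl⟩
  obtain ⟨r', hr'⟩ : ∃ r', r' = n % P.nu := ⟨_, rfl⟩
  have hr'lt : r' < P.nu := by rw [hr']; exact Nat.mod_lt _ hPnupos
  have hn : n = m * P.nu + r' := by
    rw [hm, hr', mul_comm]
    exact (Nat.div_add_mod n P.nu).symm
  have hvnu : v * (P.nu : ℝ) ≤ W := by
    rw [hPnu, hW]
    push_cast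
    calc v * ((w : ℝ) * (⌈100 / v⌉₊ : ℝ)) = w * (v * (⌈100 / v⌉₊ : ℝ)) := by ring
      _ ≤ w * 101 := mul_le_mul_of_nonneg_left hnp2 (by positivity)
      _ = 101 * w := by ring
  have hN0 : 0 ≤ (n : ℝ) * v := by positivity
  have hNm : (n : ℝ) * v ≤ W * (m + 1) := by
    have h1 : (n : ℝ) ≤ (m + 1) * P.nu := by
      have : n ≤ (m + 1) * P.nu := by
        rw [hn, Nat.succ_mul]
        omega
      exact_mod_cast this
    calc (n : ℝ) * v ≤ (m + 1) * P.nu * v := mul_le_mul_of_nonneg_right h1 hv.le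
      _ = v * P.nu * (m + 1) := by ring
      _ ≤ W * (m + 1) := mul_le_mul_of_nonneg_right hvnu (by positivity)
  have hcore := MFg_core M P lam1 Ca lam2 Cb hl1 hl2
    (by rw [hPv]; exact ht1 S M v hv hvb) (by rw [hPv]; exact ht2 S M v hv hvc)
    θ ρ Lam K CL CS CS' (1 / (2 * Lam)) hθ1 hρ0 hθρ hK1 hCL0 hK2 hLam8
    (by field_simp) (by rw [hPKG, hKG])
    (fun x => by
      have := hS S M x
      simpa using this)
    (fun x => hS' S M x)
    (fun F _ y => by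
      have h1 := hly S D M v ⌈100 / v⌉₊ hv hv1 hnp1 hnp2 w nd hline F y
      rw [hPv, hPnu, hρ, hCL, hLam]
      simpa only [neg_mul] using h1)
    (fun F z => (hgn S M P (by rw [hPv]; exact hvd) hPn1 F z).trans
      (ENNReal.ofReal_le_ofReal hPq))
    X hX x Ke hKe hX0 m r' ((m + 3) / 4) ((m + 1) / 2) (by omega) (by omega)
    (8 / 7 * (Ke + 2 * Ca * ((n : ℝ) * v + 1) / lam1 + 2 * Cb * ((n : ℝ) * v + 1) / lam2))
    ((n : ℝ) * v) (by rw [← hn, hPv]) rfl
  rw [← hn, hPv, hPη] at hcore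
  refine hcore.trans ?_
  rw [← ENNReal.ofReal_add (by positivity) (by positivity),
    ← ENNReal.ofReal_add (by positivity) (by positivity),
    ← ENNReal.ofReal_add (by positivity) (by positivity),
    ← ENNReal.ofReal_add (by positivity) (by positivity)]
  apply ENNReal.ofReal_le_ofReal
  exact MFg_num Ca Cb lam1 lam2 Cpp W A E θ K CS CS' H1 Lam cb δ c3 G C hCa hCb hl1 hl2 hCpp hW0
    hCS hA hE hθ hK1 (by linarith) hLam0 hH1 hδ hcb hc3 hG hC (flipC D P) Ke ((n : ℝ) * v)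
    (8 / 7 * (Ke + 2 * Ca * ((n : ℝ) * v + 1) / lam1 + 2 * Cb * ((n : ℝ) * v + 1) / lam2))
    m ((m + 3) / 4) ((m + 1) / 2) hPfc hKe hN0 (by omega) (by omega) hNm rfl

/-- length of lineages -/
theorem len_tail (D : ℕ) : ∃ (v0 c C : ℝ), 0 < v0 ∧ 0 < c ∧ 1 ≤ C ∧
    ∀ (S : Type) [Fintype S] (M : MSet S D) (v : ℝ), 0 < v → v ≤ v0 →
      ∀ (n : ℕ) (X : S → ℝ) (x : S) (Ke r : ℝ), 0 ≤ Ke → (∀ z, X z ≤ 0) → -Ke ≤ X x →
        PI (nz S) {ω | r ≤ M.dd x (M.lin X (sc v ω) n x n)}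
          ≤ ENNReal.ofReal (Real.exp (C * (n * v + Ke + 1) - c * r)) := by
  obtain ⟨lam1, Ca, hl1, hCa, ht1⟩ := lpp_tail D (1 / 8) (by norm_num)
  obtain ⟨lam2, Cb, hl2, hCb, ht2⟩ := lpp_tail_neg D (1 / 8) (by norm_num)
  obtain ⟨l, hl⟩ : ∃ l : ℝ, l = min lam1 lam2 := ⟨_, rfl⟩
  have hl0 : 0 < l := by rw [hl]; exact lt_min hl1 hl2
  have hla : l ≤ lam1 := by rw [hl]; exact min_le_left _ _
  have hlb : l ≤ lam2 := by rw [hl]; exact min_le_right _ _
  obtain ⟨B, hB⟩ : ∃ B : ℝ, B = max Ca Cb := ⟨_, rfl⟩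
  have hB0 : 0 < B := by rw [hB]; exact lt_max_of_lt_left hCa
  have hBa : Ca ≤ B := by rw [hB]; exact le_max_left _ _
  have hBb : Cb ≤ B := by rw [hB]; exact le_max_right _ _
  refine ⟨min (1 / lam1 ^ 2) (1 / lam2 ^ 2), 7 / 16 * l, B + l / 2 + 1,
    lt_min (by positivity) (by positivity), by positivity, by linarith, ?_⟩
  intro S _ M v hv hvle n X x Ke r hKe hX hx
  have hva : v ≤ 1 / lam1 ^ 2 := hvle.trans (min_le_left _ _)
  have hvb : v ≤ 1 / lam2 ^ 2 := hvle.trans (min_le_right _ _)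
  have hN0 : 0 ≤ (n : ℝ) * v := by positivity
  rcases le_or_gt (7 / 8 * r) Ke with hs | hs
  · -- trivial case
    have hprob : IsProbabilityMeasure (PI (nz S)) := by
      unfold PI
      infer_instance
    refine prob_le_one.trans ?_
    rw [← ENNReal.ofReal_one]
    apply ENNReal.ofReal_le_ofReal
    apply Real.one_le_exp
    have h1 : l * (7 / 8 * r) ≤ l * Ke := mul_le_mul_of_nonneg_left hs hl0.le
    have h2 : 0 ≤ B * (n * v + Ke + 1) := by positivity
    have h3 : 0 ≤ l / 2 * (n * v + 1) := by positivity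
    nlinarith
  · set s : ℝ := (7 / 8 * r - Ke) / 2 with hsdef
    have hs0 : 0 < s := by rw [hsdef]; linarith
    have hsub : {ω : ℕ → S → ℝ | r ≤ M.dd x (M.lin X (sc v ω) n x n)} ⊆
        {ω | s ≤ M.lppM (1 / 8) (fun _ => 0) (sc v ω) n x} ∪
          {ω | s ≤ M.lppM (1 / 8) (fun _ => 0) (sc v (-ω)) n x} := by
      intro ω hω
      by_contra hcon
      simp only [Set.mem_union, not_or] at hcon
      obtain ⟨c1, c2⟩ := hcon
      have h1 := len_lin M X hX (sc v ω) n x Ke hKe hx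
      have h2 := dd_lin M X (sc v ω) n x n
      have h3 : r ≤ M.dd x (M.lin X (sc v ω) n x n) := hω
      have c1' : ¬ s ≤ M.lppM (1 / 8) (fun _ => 0) (sc v ω) n x := c1
      have c2' : ¬ s ≤ M.lppM (1 / 8) (fun _ => 0) (sc v (-ω)) n x := c2
      rw [MFg_sc_neg] at c2'
      push Not at c1' c2'
      linarith
    refine (measure_mono hsub).trans ((measure_union_le _ _).trans
      ((add_le_add (ht1 S M v hv hva n x s) (ht2 S M v hv hvb n x s)).trans ?_))
    rw [← ENNReal.ofReal_add (by positivity) (by positivity)]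
    apply ENNReal.ofReal_le_ofReal
    have e1 : Real.exp (Ca * (n * v + 1) - lam1 * s) ≤ Real.exp (B * (n * v + 1) - l * s) := by
      apply Real.exp_le_exp.mpr
      have h1 : Ca * (n * v + 1) ≤ B * (n * v + 1) :=
        mul_le_mul_of_nonneg_right hBa (by positivity)
      have h2 : l * s ≤ lam1 * s := mul_le_mul_of_nonneg_right hla hs0.le
      linarith
    have e2 : Real.exp (Cb * (n * v + 1) - lam2 * s) ≤ Real.exp (B * (n * v + 1) - l * s) := by
      apply Real.exp_le_exp.mpr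
      have h1 : Cb * (n * v + 1) ≤ B * (n * v + 1) :=
        mul_le_mul_of_nonneg_right hBb (by positivity)
      have h2 : l * s ≤ lam2 * s := mul_le_mul_of_nonneg_right hlb hs0.le
      linarith
    have e3 : (2 : ℝ) ≤ Real.exp 1 := by
      have := Real.exp_one_gt_d9
      linarith
    calc Real.exp (Ca * (n * v + 1) - lam1 * s) + Real.exp (Cb * (n * v + 1) - lam2 * s)
        ≤ 2 * Real.exp (B * (n * v + 1) - l * s) := by linarith
      _ ≤ Real.exp 1 * Real.exp (B * (n * v + 1) - l * s) :=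
          mul_le_mul_of_nonneg_right e3 (Real.exp_pos _).le
      _ = Real.exp (1 + (B * (n * v + 1) - l * s)) := (Real.exp_add _ _).symm
      _ ≤ _ := by
          apply Real.exp_le_exp.mpr
          rw [hsdef]
          have h1 : 0 ≤ B * Ke := by positivity
          have h2 : 0 ≤ l / 2 * (n * v + 1) := by positivity
          nlinarith

end DynC

end

/-! ### from `Lib_MP_36b788c.MFg2` -/

section

/-!
# Height model: decay of the influence of the initial heights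

PROOF of `mf_decay`. `X0 = min X X'`, `X1 = max X X'`: `|F - F'| ≤ mf X1 - mf X0`. `mf_interp` with `η ≤ η0`: `E[mf X1 - mf X0] ≤ Σ_i η P(uncut_i, X0(γ0) < -iη)`. The interpolated heights lie above
`X0`, so `uncut_decay` applies to each. `X0(γ0) ≥ -Ke - s0 dd x γ0` so the event with `iη ≥ Ke + s0 r` needs length `≥ (iη - Ke)/s0`, probability
`≤ 2 exp(C0(nv+1) - lam0 ((7/8)(iη-Ke)/s0 - Ke)/2)`. Sum: `(Ke + s0 r + η) sup + geometric tail`, `r = C(nv + Ke + 1)`. Markov with `κ`.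
(In the Lean proof the two bounds are combined by `min (e^a) (e^b) ≤ e^{(1-t) a + t b}` with a small `t`,
so that the sum over `i` is geometric.)
-/

open MeasureTheory ProbabilityTheory
open scoped ENNReal

namespace DynC

private theorem measurable_sc_MFg2 {S : Type} [Fintype S] (v : ℝ) :
    Measurable (fun ω : ℕ → S → ℝ => sc v ω) := by
  unfold sc
  refine measurable_pi_lambda _ fun j => measurable_pi_lambda _ fun y => ?_
  have h1 : Measurable (fun ω : ℕ → S → ℝ => ω j) := measurable_pi_apply j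
  have h2 : Measurable (fun a : S → ℝ => a y) := measurable_pi_apply y
  exact (h2.comp h1).const_mul _

private theorem measurable_pair_MFg2 {S : Type} [Fintype S] (v : ℝ) (Y : S → ℝ) :
    Measurable (fun ω : ℕ → S → ℝ => ((Y, sc v ω) : (S → ℝ) × (ℕ → S → ℝ))) :=
  measurable_const.prodMk (measurable_sc_MFg2 v)

/-- the event of `mf_interp` is measurable -/
private theorem measurableSet_A_MFg2 {S : Type} [Fintype S] {D : ℕ} (M : MSet S D)
    (v η q : ℝ) (Y X0 : S → ℝ) (n : ℕ) (x : S) :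
    MeasurableSet {ω : ℕ → S → ℝ | M.uncut η Y (sc v ω) n 0 x ∧
      X0 (M.lin Y (sc v ω) n x n) < q} := by
  have h1 : MeasurableSet {ω : ℕ → S → ℝ | M.uncut η Y (sc v ω) n 0 x} :=
    measurable_pair_MFg2 v Y (measurableSet_uncut M η n 0 x)
  have h2 : MeasurableSet {ω : ℕ → S → ℝ | X0 (M.lin Y (sc v ω) n x n) < q} := by
    have e : {ω : ℕ → S → ℝ | X0 (M.lin Y (sc v ω) n x n) < q} =
        ⋃ z : S, ({ω : ℕ → S → ℝ | M.lin Y (sc v ω) n x n = z} ∩ {_ω | X0 z < q}) := by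
      ext ω
      simp only [Set.mem_ofPred_eq, Set.mem_iUnion, Set.mem_inter_iff]
      constructor
      · intro h
        exact ⟨_, rfl, h⟩
      · rintro ⟨z, hz, hz'⟩
        rw [hz]
        exact hz'
    rw [e]
    refine MeasurableSet.iUnion fun z => MeasurableSet.inter ?_ (MeasurableSet.const _)
    exact measurable_pair_MFg2 v Y (measurableSet_lin M n x n z)
  exact h1.inter h2

/-- geometric sum -/
private theorem geom_MFg2 (η δ E : ℝ) (hη : 0 < η) (hη1 : η ≤ 1) (hδ : 0 < δ) (m : ℕ) :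
    ∑ i ∈ Finset.range m, η * Real.exp (E - δ * (i * η)) ≤ (1 / δ + 1) * Real.exp E := by
  have hq0 : 0 < Real.exp (-(δ * η)) := Real.exp_pos _
  have hδη : 0 < δ * η := mul_pos hδ hη
  have hq1 : Real.exp (-(δ * η)) < 1 := by
    rw [Real.exp_lt_one_iff]
    linarith
  have hs : ∑ i ∈ Finset.range m, η * Real.exp (E - δ * (i * η)) =
      η * Real.exp E * ∑ i ∈ Finset.range m, Real.exp (-(δ * η)) ^ i := by
    rw [Finset.mul_sum]
    refine Finset.sum_congr rfl fun i _ => ?_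
    rw [← Real.exp_nat_mul, mul_assoc, ← Real.exp_add]
    congr 2
    ring
  have hg : ∑ i ∈ Finset.range m, Real.exp (-(δ * η)) ^ i ≤ (1 - Real.exp (-(δ * η)))⁻¹ := by
    have h1 := Summable.sum_le_tsum (Finset.range m) (fun i _ => (pow_pos hq0 i).le)
      (summable_geometric_of_lt_one hq0.le hq1)
    rwa [tsum_geometric_of_lt_one hq0.le hq1] at h1
  have hlow : δ * η / (1 + δ * η) ≤ 1 - Real.exp (-(δ * η)) := by
    have h2 : 1 + δ * η ≤ Real.exp (δ * η) := by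
      have := Real.add_one_le_exp (δ * η)
      linarith
    have h3 : Real.exp (-(δ * η)) ≤ 1 / (1 + δ * η) := by
      rw [Real.exp_neg, ← one_div]
      exact one_div_le_one_div_of_le (by linarith) h2
    have h4 : δ * η / (1 + δ * η) = 1 - 1 / (1 + δ * η) := by
      field_simp
      ring
    linarith
  have hpos : 0 < δ * η / (1 + δ * η) := div_pos hδη (by linarith)
  have hinv : (1 - Real.exp (-(δ * η)))⁻¹ ≤ (1 + δ * η) / (δ * η) := by
    rw [← one_div]
    calc 1 / (1 - Real.exp (-(δ * η))) ≤ 1 / (δ * η / (1 + δ * η)) :=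
          one_div_le_one_div_of_le hpos hlow
      _ = (1 + δ * η) / (δ * η) := by rw [one_div_div]
  rw [hs]
  calc η * Real.exp E * ∑ i ∈ Finset.range m, Real.exp (-(δ * η)) ^ i
      ≤ η * Real.exp E * ((1 + δ * η) / (δ * η)) :=
        mul_le_mul_of_nonneg_left (hg.trans hinv) (mul_nonneg hη.le (Real.exp_pos _).le)
    _ = (1 / δ + η) * Real.exp E := by
        field_simp
    _ ≤ (1 / δ + 1) * Real.exp E :=
        mul_le_mul_of_nonneg_right (by linarith) (Real.exp_pos _).le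

/-- exponent bookkeeping -/
private theorem expo_MFg2 (Ca Cb c c3 s0 t Ke nv y : ℝ) (hCa : 1 ≤ Ca) (hCb : 1 ≤ Cb) (hc : 0 < c)
    (hc3 : 0 < c3) (hs0 : 0 < s0) (ht : 0 < t) (ht2 : t ≤ 1 / 2) (htC : t * Cb ≤ c3 / 4)
    (hKe : 0 ≤ Ke) (hnv : 0 ≤ nv) :
    (1 - t) * (Ca * (Ke + 1) - c3 * nv) + t * (Cb * (nv + Ke + 1) - c * ((y - Ke) / s0)) ≤
      (Ca + Cb + c / s0) * (Ke + 1) - c3 / 4 * nv - t * c / s0 * y := by
  have h1 : 0 ≤ t * (Ca * (Ke + 1)) := by positivity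
  have h2 : 0 ≤ (1 / 2 - t) * (c3 * nv) := mul_nonneg (by linarith) (by positivity)
  have h3 : 0 ≤ (c3 / 4 - t * Cb) * nv := mul_nonneg (by linarith) hnv
  have h4 : 0 ≤ (1 - t) * (Cb * (Ke + 1)) := mul_nonneg (by linarith) (by positivity)
  have h5 : 0 ≤ c / s0 * ((1 - t) * Ke + 1) := by
    have : 0 ≤ (1 - t) * Ke := mul_nonneg (by linarith) hKe
    positivity
  have e : c * ((y - Ke) / s0) = c / s0 * y - c / s0 * Ke := by ring
  have e2 : t * c / s0 * y = t * (c / s0 * y) := by ring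
  rw [e, e2]
  nlinarith

/-- one term -/
private theorem term_MFg2 (p : ℝ≥0∞) (a b t E : ℝ) (ht0 : 0 ≤ t) (ht1 : t ≤ 1)
    (ha : p ≤ ENNReal.ofReal (Real.exp a)) (hb : p ≤ ENNReal.ofReal (Real.exp b))
    (hE : (1 - t) * a + t * b ≤ E) : p ≤ ENNReal.ofReal (Real.exp E) := by
  rcases le_total a b with h | h
  · refine ha.trans (ENNReal.ofReal_le_ofReal (Real.exp_le_exp.mpr ?_))
    have : 0 ≤ t * (b - a) := mul_nonneg ht0 (by linarith)
    linarith
  · refine hb.trans (ENNReal.ofReal_le_ofReal (Real.exp_le_exp.mpr ?_))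
    have : 0 ≤ (1 - t) * (a - b) := mul_nonneg (by linarith) (by linarith)
    linarith

/-- the two families of heights are squeezed -/
private theorem squeeze_MFg2 {S : Type} [Fintype S] {D : ℕ} (M : MSet S D) (X X' : S → ℝ)
    (g : ℕ → S → ℝ) (n : ℕ) (x : S) :
    |M.mf X g n x - M.mf X' g n x| ≤
      M.mf (fun z => max (X z) (X' z)) g n x - M.mf (fun z => min (X z) (X' z)) g n x := by
  have h1 := mf_mono M X (fun z => max (X z) (X' z)) (fun z => le_max_left _ _) g n x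
  have h2 := mf_mono M X' (fun z => max (X z) (X' z)) (fun z => le_max_right _ _) g n x
  have h3 := mf_mono M (fun z => min (X z) (X' z)) X (fun z => min_le_left _ _) g n x
  have h4 := mf_mono M (fun z => min (X z) (X' z)) X' (fun z => min_le_right _ _) g n x
  rw [abs_le]
  constructor <;> linarith

/-- decay of the influence of the initial heights -/
theorem mf_decay (D : ℕ) : ∃ (v0 c3 C s0 : ℝ) (nd : ℕ), 0 < v0 ∧ 0 < c3 ∧ 1 ≤ C ∧ 0 < s0 ∧
    s0 ≤ 1 / 8 ∧
    ∀ v : ℝ, 0 < v → v ≤ v0 → ∀ (S : Type) [Fintype S] (M : MSet S D), M.HasLine nd →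
      ∀ (n : ℕ) (X X' : S → ℝ) (x : S) (Ke κ : ℝ), 0 ≤ Ke → 0 < κ →
        (∀ z, X z ≤ 0) → (∀ z, X' z ≤ 0) → (∀ z, -Ke - s0 * M.dd x z ≤ X z) →
        (∀ z, -Ke - s0 * M.dd x z ≤ X' z) →
        PI (nz S) {ω | κ < |M.mf X (sc v ω) n x - M.mf X' (sc v ω) n x|}
          ≤ ENNReal.ofReal (1 / κ * Real.exp (C * (Ke + 1) - c3 * (n * v))) := by
  obtain ⟨v0a, c3, Ca, s0, nd, hv0a, hc3, hCa, hs0, hs8, hunc⟩ := uncut_decay D
  obtain ⟨v0b, c, Cb, hv0b, hc, hCb, hlen⟩ := len_tail D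
  -- constants
  set t : ℝ := min (1 / 2) (c3 / (4 * Cb)) with ht
  have hCb0 : 0 < Cb := by linarith
  have ht0 : 0 < t := lt_min (by norm_num) (by positivity)
  have ht2 : t ≤ 1 / 2 := min_le_left _ _
  have htC : t * Cb ≤ c3 / 4 := by
    have h1 : t ≤ c3 / (4 * Cb) := min_le_right _ _
    have h2 := mul_le_mul_of_nonneg_right h1 hCb0.le
    have h3 : c3 / (4 * Cb) * Cb = c3 / 4 := by field_simp
    linarith
  set δ : ℝ := t * c / s0 with hδ
  have hδ0 : 0 < δ := by positivity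
  set Kc : ℝ := 1 / δ + 1 with hKc
  have hKc1 : 1 ≤ Kc := by
    have : 0 < 1 / δ := by positivity
    linarith
  have hlog : 0 ≤ Real.log Kc := Real.log_nonneg hKc1
  have hcs : 0 < c / s0 := by positivity
  refine ⟨min v0a v0b, c3 / 4, Ca + Cb + c / s0 + Real.log Kc, s0, nd, lt_min hv0a hv0b,
    by positivity, by linarith, hs0, hs8, ?_⟩
  intro v hv hvle S _ M hline n X X' x Ke κ hKe hκ hX hX' hXl hXl'
  obtain ⟨η0, hη0, hunc'⟩ := hunc v hv (hvle.trans (min_le_left _ _))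
  set η : ℝ := min η0 1 with hη
  have hηpos : 0 < η := lt_min hη0 one_pos
  have hη1 : η ≤ 1 := min_le_right _ _
  have hηle : η ≤ η0 := min_le_left _ _
  set X0 : S → ℝ := fun z => min (X z) (X' z) with hX0
  set X1 : S → ℝ := fun z => max (X z) (X' z) with hX1
  have h01 : ∀ z, X0 z ≤ X1 z := fun z => (min_le_left _ _).trans (le_max_left _ _)
  have hX1n : ∀ z, X1 z ≤ 0 := fun z => max_le (hX z) (hX' z)
  have hX0l : ∀ z, -Ke - s0 * M.dd x z ≤ X0 z := fun z => le_min (hXl z) (hXl' z)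
  -- number of interpolation steps
  set B : ℝ := ∑ z, |X0 z| with hB
  obtain ⟨m, hm⟩ := exists_nat_ge (B / η)
  have hmB : B ≤ m * η := by
    rw [div_le_iff₀ hηpos] at hm
    exact hm
  have hmX : ∀ z, X1 z ≤ X0 z + m * η := by
    intro z
    have h1 : |X0 z| ≤ B := Finset.single_le_sum (f := fun z => |X0 z|)
      (fun y _ => abs_nonneg _) (Finset.mem_univ z)
    have h2 := neg_abs_le (X0 z)
    have h3 := hX1n z
    linarith
  -- interpolated heights
  set Y : ℕ → S → ℝ := fun i => ipl X0 X1 η (i + 1) with hY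
  have hYn : ∀ i z, Y i z ≤ 0 := fun i z => (min_le_left _ _).trans (hX1n z)
  have hYX : ∀ i z, X0 z ≤ Y i z := by
    intro i z
    refine le_min (h01 z) ?_
    have : (0 : ℝ) ≤ ((i + 1 : ℕ) : ℝ) * η := by positivity
    linarith
  have hYl : ∀ i z, -Ke - s0 * M.dd x z ≤ Y i z := fun i z => (hX0l z).trans (hYX i z)
  have hYx : ∀ i, -Ke ≤ Y i x := by
    intro i
    have := hYl i x
    rw [M.dd_self x] at this
    simpa using this
  -- the events
  set A : ℕ → Set (ℕ → S → ℝ) := fun i => {ω | M.uncut η (Y i) (sc v ω) n 0 x ∧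
      X0 (M.lin (Y i) (sc v ω) n x n) < -(i * η)} with hA
  have hAm : ∀ i, MeasurableSet (A i) := fun i => measurableSet_A_MFg2 M v η _ (Y i) X0 n x
  set E : ℝ := (Ca + Cb + c / s0) * (Ke + 1) - c3 / 4 * (n * v) with hE
  have hnv : (0 : ℝ) ≤ n * v := by positivity
  have hPA : ∀ i : ℕ, PI (nz S) (A i) ≤ ENNReal.ofReal (Real.exp (E - δ * (i * η))) := by
    intro i
    have hp1 : PI (nz S) (A i) ≤ ENNReal.ofReal (Real.exp (Ca * (Ke + 1) - c3 * (n * v))) :=
      (measure_mono fun ω hω => hω.1).trans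
        (hunc' η hηpos hηle S M hline n (Y i) x Ke hKe (hYn i) (hYl i))
    have hp2 : PI (nz S) (A i) ≤
        ENNReal.ofReal (Real.exp (Cb * (n * v + Ke + 1) - c * ((i * η - Ke) / s0))) := by
      refine (measure_mono ?_).trans
        (hlen S M v hv (hvle.trans (min_le_right _ _)) n (Y i) x Ke ((i * η - Ke) / s0) hKe (hYn i)
          (hYx i))
      intro ω hω
      have h1 := hω.2
      have h2 := hX0l (M.lin (Y i) (sc v ω) n x n)
      change (i * η - Ke) / s0 ≤ _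
      rw [div_le_iff₀ hs0]
      linarith
    refine term_MFg2 _ _ _ t _ ht0.le (by linarith) hp1 hp2 ?_
    have h := expo_MFg2 Ca Cb c c3 s0 t Ke (n * v) (i * η) hCa hCb hc hc3 hs0 ht0 ht2 htC hKe hnv
    rw [hE, hδ]
    exact h
  -- the dominating function
  classical
  set f : (ℕ → S → ℝ) → ℝ≥0∞ := fun ω =>
    ∑ i ∈ Finset.range m, (A i).indicator (fun _ => ENNReal.ofReal η) ω with hf
  have hfm : Measurable f :=
    Finset.measurable_sum _ fun i _ => measurable_const.indicator (hAm i)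
  have hsub : {ω | κ < |M.mf X (sc v ω) n x - M.mf X' (sc v ω) n x|} ⊆
      {ω | ENNReal.ofReal κ ≤ f ω} := by
    intro ω hω
    have h1 : κ < |M.mf X (sc v ω) n x - M.mf X' (sc v ω) n x| := hω
    have h2 := squeeze_MFg2 M X X' (sc v ω) n x
    have h3 := mf_interp M X0 X1 η hηpos h01 hX1n m hmX (sc v ω) n x
    have h4 : κ ≤ ∑ i ∈ Finset.range m, (if M.uncut η (ipl X0 X1 η (i + 1)) (sc v ω) n 0 x ∧
        X0 (M.lin (ipl X0 X1 η (i + 1)) (sc v ω) n x n) < -(i * η) then η else 0) := by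
      refine (h1.le.trans h2).trans ?_
      convert h3 using 1
    have h5 : f ω = ENNReal.ofReal (∑ i ∈ Finset.range m,
        (if M.uncut η (ipl X0 X1 η (i + 1)) (sc v ω) n 0 x ∧
        X0 (M.lin (ipl X0 X1 η (i + 1)) (sc v ω) n x n) < -(i * η) then η else 0)) := by
      rw [ENNReal.ofReal_sum_of_nonneg (fun i _ => by split_ifs <;> linarith)]
      refine Finset.sum_congr rfl fun i _ => ?_
      by_cases h : M.uncut η (ipl X0 X1 η (i + 1)) (sc v ω) n 0 x ∧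
        X0 (M.lin (ipl X0 X1 η (i + 1)) (sc v ω) n x n) < -(i * η)
      · have h' : ω ∈ A i := h
        rw [Set.indicator_of_mem h', if_pos h]
      · have h' : ω ∉ A i := h
        rw [Set.indicator_of_notMem h', if_neg h, ENNReal.ofReal_zero]
    change ENNReal.ofReal κ ≤ f ω
    rw [h5]
    exact ENNReal.ofReal_le_ofReal h4
  have hint : ∫⁻ ω, f ω ∂(PI (nz S)) ≤ ENNReal.ofReal (Kc * Real.exp E) := by
    calc ∫⁻ ω, f ω ∂(PI (nz S))
        = ∑ i ∈ Finset.range m, ∫⁻ ω, (A i).indicator (fun _ => ENNReal.ofReal η) ω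
            ∂(PI (nz S)) :=
          lintegral_finsetSum _ fun i _ => measurable_const.indicator (hAm i)
      _ = ∑ i ∈ Finset.range m, ENNReal.ofReal η * PI (nz S) (A i) := by
          refine Finset.sum_congr rfl fun i _ => ?_
          rw [lintegral_indicator_const (hAm i)]
      _ ≤ ∑ i ∈ Finset.range m, ENNReal.ofReal (η * Real.exp (E - δ * (i * η))) := by
          refine Finset.sum_le_sum fun i _ => ?_
          rw [ENNReal.ofReal_mul hηpos.le]
          exact mul_le_mul_right (hPA i) _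
      _ = ENNReal.ofReal (∑ i ∈ Finset.range m, η * Real.exp (E - δ * (i * η))) :=
          (ENNReal.ofReal_sum_of_nonneg fun i _ =>
            mul_nonneg hηpos.le (Real.exp_pos _).le).symm
      _ ≤ ENNReal.ofReal (Kc * Real.exp E) :=
          ENNReal.ofReal_le_ofReal (geom_MFg2 η δ E hηpos hη1 hδ0 m)
  -- Markov
  have hκ' : ENNReal.ofReal κ ≠ 0 := by
    rw [Ne, ENNReal.ofReal_eq_zero, not_le]
    exact hκ
  calc PI (nz S) {ω | κ < |M.mf X (sc v ω) n x - M.mf X' (sc v ω) n x|}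
      ≤ PI (nz S) {ω | ENNReal.ofReal κ ≤ f ω} := measure_mono hsub
    _ ≤ (∫⁻ ω, f ω ∂(PI (nz S))) / ENNReal.ofReal κ :=
        meas_ge_le_lintegral_div hfm.aemeasurable hκ' ENNReal.ofReal_ne_top
    _ ≤ ENNReal.ofReal (Kc * Real.exp E) / ENNReal.ofReal κ := ENNReal.div_le_div_right hint _
    _ = ENNReal.ofReal (Kc * Real.exp E / κ) := (ENNReal.ofReal_div_of_pos hκ).symm
    _ ≤ ENNReal.ofReal (1 / κ * Real.exp ((Ca + Cb + c / s0 + Real.log Kc) * (Ke + 1) -
          c3 / 4 * (n * v))) := by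
        refine ENNReal.ofReal_le_ofReal ?_
        have h1 : Kc ≤ Real.exp (Real.log Kc * (Ke + 1)) := by
          calc Kc = Real.exp (Real.log Kc) := (Real.exp_log (by linarith)).symm
            _ ≤ Real.exp (Real.log Kc * (Ke + 1)) := by
                refine Real.exp_le_exp.mpr ?_
                have : 0 ≤ Real.log Kc * Ke := mul_nonneg hlog hKe
                linarith
        have h2 : Kc * Real.exp E ≤ Real.exp ((Ca + Cb + c / s0 + Real.log Kc) * (Ke + 1) -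
            c3 / 4 * (n * v)) := by
          calc Kc * Real.exp E ≤ Real.exp (Real.log Kc * (Ke + 1)) * Real.exp E :=
                mul_le_mul_of_nonneg_right h1 (Real.exp_pos _).le
            _ = _ := by
                rw [← Real.exp_add, hE]
                congr 1
                ring
        rw [div_eq_mul_inv, mul_comm, one_div]
        exact mul_le_mul_of_nonneg_left h2 (inv_nonneg.mpr hκ.le)

end DynC

end

/-! ### from `Lib_MP_36b788c.Pr1` -/

section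

/-!
# Height model: two initial conditions, a good time

`B = T + Ke + Rb + log(1/p) + 1`.

PROOF of `hts2`. `F = mf X (sc v ω) (n0+j)`, `F'` for `X'`. Union of the following events.
* Gap for `F`, `F'`: `gap_occ` with `n = nJ`, `Rr = Rb`, `x = y`, `Ke' = Ke + s Rb`, `M1 = ⌈C' B⌉` for `X` and for `X'`; the sum of the two bounds, divided by `nJ` (`nJ v ≥ 1/2`), is `≤ (2Rb+1)^D (4 C κ (Ke' + C + T + 1 + 2 (2 M1+1)^D) + 2 C exp(-((M1 - 2 - Ke')²/(C (T+1)))))`, so for some `j < nJ` the probability is at most this. `(M1 - 2 - Ke')² ≥ (C'-3)² B² ≥ (C'-3)² B (T+1)`, so the exponential part is `≤ p/4` for `C'` large (`B ≥ 1 + Rb + log(1/p)`); the `κ` part is `≤ κ (C B)^(4D+4)`.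
* `|F z - F' z| > κd`: `mf_decay` with `x = z`, `Ke + s Rb` (`dd y z' ≤ Rb + dd z z'`), `s ≤ s0`: `≤ (1/κd) exp(C(Ke + s Rb + 1) - c3 (n0+j) v)`, union over `(2Rb+1)^D` sites.
* `F z < -C B`: `mf_stay` (`h`: block sums at `z` are `≥ -osc`, `sum_le_osc`), `RR X z ≥ X z ≥ -Ke - s Rb`, `osc_tail_nz` with `v n ≤ T + 1`: `4 exp(-(r²/(32(T+1))))`, `r = C B - Ke'`: `≤ p/(8 (2Rb+1)^D)`. The same for `F'`.
-/

open MeasureTheory ProbabilityTheory
open scoped ENNReal

namespace DynC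

/-- union over a ball -/
private theorem Pr1_union {S Ω : Type} [Fintype S] [MeasurableSpace Ω] {D : ℕ} (M : MSet S D)
    (P : Measure Ω) (y : S) (Rb : ℕ) (E : S → Set Ω) (b : ℝ) (hb : 0 ≤ b)
    (h : ∀ z, M.dd y z ≤ Rb → P (E z) ≤ ENNReal.ofReal b) :
    P {ω | ∃ z, M.dd y z ≤ Rb ∧ ω ∈ E z} ≤ ENNReal.ofReal ((2 * Rb + 1) ^ D * b) := by
  classical
  let Bl : Finset S := Finset.univ.filter fun z => M.dd y z ≤ Rb
  have hcard : (Bl.card : ℝ) ≤ (2 * Rb + 1) ^ D := by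
    have h1 := M.growth y Rb Bl (fun z hz => (Finset.mem_filter.1 hz).2)
    calc (Bl.card : ℝ) ≤ (((2 * Rb + 1) ^ D : ℕ) : ℝ) := by exact_mod_cast h1
      _ = (2 * Rb + 1) ^ D := by push_cast; ring
  have hsub : {ω | ∃ z, M.dd y z ≤ Rb ∧ ω ∈ E z} ⊆ ⋃ z ∈ Bl, E z := by
    rintro ω ⟨z, hz, hω⟩
    simp only [Set.mem_iUnion]
    exact ⟨z, Finset.mem_filter.2 ⟨Finset.mem_univ _, hz⟩, hω⟩
  calc P {ω | ∃ z, M.dd y z ≤ Rb ∧ ω ∈ E z} ≤ P (⋃ z ∈ Bl, E z) := measure_mono hsub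
    _ ≤ ∑ z ∈ Bl, P (E z) := measure_biUnion_finset_le _ _
    _ ≤ ∑ _z ∈ Bl, ENNReal.ofReal b :=
        Finset.sum_le_sum fun z hz => h z (Finset.mem_filter.1 hz).2
    _ = ENNReal.ofReal (Bl.card * b) := by
        rw [Finset.sum_const, nsmul_eq_mul, ENNReal.ofReal_mul (Nat.cast_nonneg _),
          ENNReal.ofReal_natCast]
    _ ≤ ENNReal.ofReal ((2 * Rb + 1) ^ D * b) :=
        ENNReal.ofReal_le_ofReal (mul_le_mul_of_nonneg_right hcard hb)

/-- the exponential terms -/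
private theorem Pr1_tail (D : ℕ) (K c a B T p w r : ℝ) (Rb : ℕ) (hK : 0 ≤ K) (hc : 0 < c)
    (hp : 0 < p) (hB1 : 1 ≤ B) (hBR : (Rb : ℝ) ≤ B)
    (hBl : Real.log (1 / p) ≤ B) (hBT : T + 1 ≤ B) (hw : 0 < w) (hwT : w ≤ T + 1) (ha : 1 ≤ a)
    (hac : c * (2 * D + K + 1) ≤ a) (hr : a * B ≤ r) :
    (2 * (Rb : ℝ) + 1) ^ D * (K * Real.exp (-(r ^ 2 / (c * w)))) ≤ p := by
  have hB0 : 0 < B := by linarith
  have hD0 : (0 : ℝ) ≤ D := Nat.cast_nonneg _
  have hRb0 : (0 : ℝ) ≤ Rb := Nat.cast_nonneg _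
  have h1 : (2 * (Rb : ℝ) + 1) ^ D ≤ Real.exp (D * (2 * Rb)) := by
    rw [Real.exp_nat_mul]
    exact pow_le_pow_left₀ (by positivity) (Real.add_one_le_exp _) _
  have h2 : K ≤ Real.exp K := by
    have := Real.add_one_le_exp K
    linarith
  have h3 : (2 * D + K + 1) * B ≤ r ^ 2 / (c * w) := by
    rw [le_div_iff₀ (by positivity)]
    have e1 : (2 * D + K + 1) * B * (c * w) = c * (2 * D + K + 1) * (B * w) := by ring
    have e2 : c * (2 * D + K + 1) * (B * w) ≤ a * (B * w) :=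
      mul_le_mul_of_nonneg_right hac (by positivity)
    have e3 : a * (B * w) ≤ a * (B * B) :=
      mul_le_mul_of_nonneg_left (mul_le_mul_of_nonneg_left (hwT.trans hBT) hB0.le) (by linarith)
    have e4 : 1 * (a * (B * B)) ≤ a * (a * (B * B)) :=
      mul_le_mul_of_nonneg_right ha (by positivity)
    have e5 : a * (a * (B * B)) = (a * B) ^ 2 := by ring
    have e6 : (a * B) ^ 2 ≤ r ^ 2 := pow_le_pow_left₀ (by positivity) hr 2
    rw [e1]
    linarith
  have h4 : Real.exp (-(r ^ 2 / (c * w))) ≤ Real.exp (-((2 * D + K + 1) * B)) :=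
    Real.exp_le_exp.2 (by linarith)
  calc (2 * (Rb : ℝ) + 1) ^ D * (K * Real.exp (-(r ^ 2 / (c * w))))
      ≤ Real.exp (D * (2 * Rb)) * (Real.exp K * Real.exp (-((2 * D + K + 1) * B))) := by
        refine mul_le_mul h1 (mul_le_mul h2 h4 (Real.exp_pos _).le (Real.exp_pos _).le) ?_
          (Real.exp_pos _).le
        exact mul_nonneg hK (Real.exp_pos _).le
    _ = Real.exp (D * (2 * Rb) + (K + -((2 * D + K + 1) * B))) := by
        rw [Real.exp_add, Real.exp_add]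
    _ ≤ Real.exp (-Real.log (1 / p)) := by
        apply Real.exp_le_exp.2
        have e1 : D * (2 * (Rb : ℝ)) ≤ D * (2 * B) :=
          mul_le_mul_of_nonneg_left (by linarith) hD0
        have e2 : K * 1 ≤ K * B := mul_le_mul_of_nonneg_left hB1 hK
        have e3 : (2 * D + K + 1) * B = D * (2 * B) + K * B + B := by ring
        linarith
    _ = p := by
        rw [one_div, Real.log_inv, neg_neg, Real.exp_log hp]

/-- the polynomial term -/
private theorem Pr1_poly (D : ℕ) (A x1 x2 x3 x4 : ℝ) (hA : 2 ≤ A) (h10 : 0 ≤ x1) (h1 : x1 ≤ A)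
    (h20 : 0 ≤ x2) (h2 : x2 ≤ A) (h30 : 0 ≤ x3) (h3 : x3 ≤ A) (h40 : 0 ≤ x4) (h4 : x4 ≤ A) :
    x1 ^ D * (x2 * (x3 + 2 * x4 ^ D)) ≤ A ^ (4 * D + 4) := by
  have hA0 : 0 ≤ A := by linarith
  have hA1 : 1 ≤ A := by linarith
  have e1 : x1 ^ D ≤ A ^ D := pow_le_pow_left₀ h10 h1 _
  have e4 : x4 ^ D ≤ A ^ D := pow_le_pow_left₀ h40 h4 _
  have hAD : 0 ≤ A ^ D := pow_nonneg hA0 _
  have e5 : x3 + 2 * x4 ^ D ≤ A ^ (D + 2) := by
    have a1 : A ≤ A ^ (D + 1) := by
      calc A = A ^ 1 := (pow_one A).symm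
        _ ≤ A ^ (D + 1) := pow_le_pow_right₀ hA1 (by omega)
    have a2 : 2 * A ^ D ≤ A * A ^ D := mul_le_mul_of_nonneg_right hA hAD
    have a3 : A * A ^ D = A ^ (D + 1) := by ring
    have a4 : 2 * A ^ (D + 1) ≤ A * A ^ (D + 1) :=
      mul_le_mul_of_nonneg_right hA (pow_nonneg hA0 _)
    have a5 : A * A ^ (D + 1) = A ^ (D + 2) := by ring
    linarith
  have e6 : 0 ≤ x3 + 2 * x4 ^ D := by positivity
  calc x1 ^ D * (x2 * (x3 + 2 * x4 ^ D)) ≤ A ^ D * (A * A ^ (D + 2)) :=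
        mul_le_mul e1 (mul_le_mul h2 e5 e6 hA0) (mul_nonneg h20 e6) hAD
    _ = A ^ (2 * D + 3) := by ring
    _ ≤ A ^ (4 * D + 4) := pow_le_pow_right₀ hA1 (by omega)

/-- low heights -/
private theorem Pr1_low {S : Type} [Fintype S] {D : ℕ} (M : MSet S D) (v : ℝ) (hv : 0 < v)
    (X : S → ℝ) (n : ℕ) (hn : 1 ≤ n) (z : S) (Ke l r : ℝ) (hKe : 0 ≤ Ke) (hX : -Ke ≤ X z)
    (hr : 0 ≤ r) (hl : Ke + r ≤ l) :
    PI (nz S) {ω | ¬ (-l ≤ M.mf X (sc v ω) n z)} ≤
      ENNReal.ofReal (4 * Real.exp (-(r ^ 2 / (32 * (v * n))))) := by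
  have h0 := osc_tail_nz v hv n (by omega) z r hr
  rw [neg_div] at h0
  refine le_trans (measure_mono ?_) h0
  intro ω hω
  simp only [Set.mem_ofPred_eq] at hω ⊢
  push Not at hω
  have h1 := mf_stay M X (sc v ω) n hn z (osc (fun j => sc v ω j z) n) (osc_nonneg _ _) (by
    intro i hi
    have h2 := sum_le_osc (fun j => sc v ω j z) hi le_rfl
    exact (abs_le.1 h2).1)
  have h4 := self_le_RR M X z
  have h5 : -Ke ≤ min 0 (M.RR X z) := le_min (by linarith) (by linarith)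
  linarith

theorem hts2 (D : ℕ) : ∃ (v0 c3 C s1 : ℝ) (nd : ℕ), 0 < v0 ∧ 0 < c3 ∧ 1 ≤ C ∧ 0 < s1 ∧ s1 ≤ 1 / 8 ∧
    ∀ (S : Type) [Fintype S] (M : MSet S D), M.HasLine nd →
    ∀ (T Ke s κ κd p v : ℝ) (Rb n0 nJ : ℕ) (y : S) (X X' : S → ℝ), 1 ≤ T → 0 ≤ Ke → 0 ≤ s →
      s ≤ s1 → 0 < κ → κ ≤ 1 / 6 → 0 < κd → 0 < p → p ≤ 1 → 0 < v → v ≤ v0 → v ≤ κ ^ 2 / C →
      1 ≤ n0 → 1 / 2 ≤ nJ * v → nJ * v ≤ 1 → (n0 + nJ) * v ≤ T + 1 →
      (∀ z, X z ≤ 0) → (∀ z, X' z ≤ 0) → (∀ z, -Ke - s * M.dd y z ≤ X z) →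
      (∀ z, -Ke - s * M.dd y z ≤ X' z) →
      ∃ j, j < nJ ∧ PI (nz S) {ω | ∃ z, M.dd y z ≤ Rb ∧
          ¬ (Gap M κ (M.mf X (sc v ω) (n0 + j)) z ∧ Gap M κ (M.mf X' (sc v ω) (n0 + j)) z ∧
            |M.mf X (sc v ω) (n0 + j) z - M.mf X' (sc v ω) (n0 + j) z| ≤ κd ∧
            -(C * (T + Ke + Rb + Real.log (1 / p) + 1)) ≤ M.mf X (sc v ω) (n0 + j) z ∧
            -(C * (T + Ke + Rb + Real.log (1 / p) + 1)) ≤ M.mf X' (sc v ω) (n0 + j) z)}
        ≤ ENNReal.ofReal (p + (2 * Rb + 1) ^ D / κd *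
            Real.exp (C * (Ke + s * Rb + 1) - c3 * (n0 * v)) +
          κ * (C * (T + Ke + Rb + Real.log (1 / p) + 1)) ^ (4 * D + 4)) := by
  classical
  obtain ⟨Cg, hCg1, HG⟩ := gap_occ D
  obtain ⟨v0, c3, Cd, s0, nd, hv0, hc3, hCd, hs0, hs8, HD⟩ := mf_decay D
  have hD0 : (0 : ℝ) ≤ D := Nat.cast_nonneg _
  obtain ⟨C', hC'⟩ : ∃ C' : ℝ, C' = 1 + Cg * (2 * D + 8 * Cg + 1) := ⟨_, rfl⟩
  have ha1 : 1 ≤ Cg * (2 * D + 8 * Cg + 1) := by
    have h1 : (1 : ℝ) * 1 ≤ Cg * (2 * D + 8 * Cg + 1) :=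
      mul_le_mul hCg1 (by linarith) zero_le_one (by linarith)
    linarith
  have hC'2 : 2 ≤ C' := by linarith
  obtain ⟨C, hC⟩ : ∃ C : ℝ, C = 4 * Cg + Cd + (2 * C' + 3) + (1 + 32 * (2 * D + 33)) := ⟨_, rfl⟩
  refine ⟨v0, c3, C, s0, nd, hv0, hc3, by linarith, hs0, hs8, ?_⟩
  intro S _ M hline T Ke s κ κd p v Rb n0 nJ y X X' hT hKe hs hss hκ hκ6 hκd hp hp1 hv hvv0 hvκ
    hn0 hn1 hn2 hn3 hX0 hX0' hXl hXl'
  obtain ⟨lp, hlp⟩ : ∃ lp : ℝ, lp = Real.log (1 / p) := ⟨_, rfl⟩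
  have hlp0 : 0 ≤ lp := by
    rw [hlp]
    apply Real.log_nonneg
    rw [le_div_iff₀ hp]
    linarith
  rw [← hlp]
  obtain ⟨B, hB⟩ : ∃ B : ℝ, B = T + Ke + Rb + lp + 1 := ⟨_, rfl⟩
  rw [← hB]
  have hRb0 : (0 : ℝ) ≤ Rb := Nat.cast_nonneg _
  have hB1 : 1 ≤ B := by linarith
  have hB0 : 0 < B := by linarith
  have hCg0 : 0 < Cg := by linarith
  have hC0 : 0 < C := by linarith
  have hsR0 : 0 ≤ s * Rb := mul_nonneg hs hRb0
  have hsR : s * Rb ≤ Rb := by
    have h1 : s * (Rb : ℝ) ≤ 1 * Rb := mul_le_mul_of_nonneg_right (by linarith) hRb0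
    linarith
  obtain ⟨Kq, hKq⟩ : ∃ Kq : ℝ, Kq = Ke + s * Rb := ⟨_, rfl⟩
  have hKq0 : 0 ≤ Kq := by rw [hKq]; linarith
  have hKqB : Kq + T + 1 ≤ B := by rw [hKq, hB]; linarith
  have hball : ∀ (Y : S → ℝ), (∀ z, -Ke - s * M.dd y z ≤ Y z) → ∀ z, M.dd y z ≤ Rb →
      -Kq ≤ Y z := by
    intro Y hY z hz
    have h1 := hY z
    have h2 : s * (M.dd y z : ℝ) ≤ s * Rb :=
      mul_le_mul_of_nonneg_left (by exact_mod_cast hz) hs
    rw [hKq]
    linarith
  -- gaps
  obtain ⟨M1, hM1⟩ : ∃ M1 : ℕ, M1 = ⌈C' * B⌉₊ := ⟨_, rfl⟩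
  have hM1a : C' * B ≤ M1 := by rw [hM1]; exact Nat.le_ceil _
  have hM1b : (M1 : ℝ) ≤ C' * B + 1 := by
    rw [hM1]
    exact (Nat.ceil_lt_add_one (by positivity)).le
  have hM1r : Cg * (2 * D + 8 * Cg + 1) * B ≤ (M1 : ℝ) - 2 - Kq := by
    have h1 : C' * B = B + Cg * (2 * D + 8 * Cg + 1) * B := by rw [hC']; ring
    linarith
  have hM1K : Kq + 2 ≤ (M1 : ℝ) := by
    have h1 : 0 ≤ Cg * (2 * D + 8 * Cg + 1) * B := by positivity
    linarith
  have hvg : v ≤ κ ^ 2 / Cg := hvκ.trans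
    (div_le_div_of_nonneg_left (by positivity) hCg0 (by linarith))
  have hnJpos : 0 < nJ := by
    rcases Nat.eq_zero_or_pos nJ with h0 | h0
    · rw [h0] at hn1
      norm_num at hn1
    · exact h0
  have hnJr : (0 : ℝ) < nJ := by exact_mod_cast hnJpos
  have hn0r : (0 : ℝ) < n0 := by exact_mod_cast hn0
  obtain ⟨G, hG⟩ : ∃ G : ℝ, G = (2 * Rb + 1) ^ D * (Cg * κ * (Kq + Cg + (n0 + nJ) * v +
            (2 * M1 + 1) ^ D * (1 + nJ * v)) / v +
          nJ * Cg * Real.exp (-((M1 - 2 - Kq) ^ 2 / (Cg * ((n0 + nJ) * v))))) := ⟨_, rfl⟩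
  have hG1 := HG S M v κ hv hκ hκ6 hvg X hX0 n0 nJ M1 Rb y Kq hn0 hKq0 (hball X hXl) hM1K
  have hG2 := HG S M v κ hv hκ hκ6 hvg X' hX0' n0 nJ M1 Rb y Kq hn0 hKq0 (hball X' hXl') hM1K
  rw [← hG] at hG1 hG2
  have hG0 : 0 ≤ G := by
    rw [hG]
    have h1 : 0 ≤ (nJ : ℝ) * v := by positivity
    positivity
  set a : ℕ → ℝ≥0∞ := fun j =>
    PI (nz S) {ω | ∃ z, M.dd y z ≤ Rb ∧ ¬ Gap M κ (M.mf X (sc v ω) (n0 + j)) z} +
    PI (nz S) {ω | ∃ z, M.dd y z ≤ Rb ∧ ¬ Gap M κ (M.mf X' (sc v ω) (n0 + j)) z} with ha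
  obtain ⟨j, hj, hmin⟩ := Finset.exists_min_image (Finset.range nJ) a
    ⟨0, Finset.mem_range.2 hnJpos⟩
  have hjn : j < nJ := Finset.mem_range.1 hj
  have hsum : (nJ : ℝ≥0∞) * a j ≤ ENNReal.ofReal (2 * G) := by
    have h1 : (nJ : ℝ≥0∞) * a j ≤ ∑ i ∈ Finset.range nJ, a i := by
      calc (nJ : ℝ≥0∞) * a j = ∑ _i ∈ Finset.range nJ, a j := by
            rw [Finset.sum_const, Finset.card_range, nsmul_eq_mul]
        _ ≤ ∑ i ∈ Finset.range nJ, a i := Finset.sum_le_sum hmin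
    refine h1.trans ?_
    rw [ha, Finset.sum_add_distrib, two_mul, ENNReal.ofReal_add hG0 hG0]
    exact add_le_add hG1 hG2
  have haj : a j ≤ ENNReal.ofReal (2 * G / nJ) := by
    rw [ENNReal.ofReal_div_of_pos hnJr, ENNReal.ofReal_natCast,
      ENNReal.le_div_iff_mul_le (Or.inl (by exact_mod_cast hnJpos.ne'))
        (Or.inl (ENNReal.natCast_ne_top _)), mul_comm]
    exact hsum
  -- the bound for the gaps
  obtain ⟨E0, hE0⟩ : ∃ E0 : ℝ, E0 = Real.exp (-((M1 - 2 - Kq) ^ 2 / (Cg * ((n0 + nJ) * v)))) :=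
    ⟨_, rfl⟩
  have hCB2 : 2 ≤ C * B := by
    have h1 : (2 : ℝ) * 1 ≤ C * B := mul_le_mul (by linarith) hB1 zero_le_one hC0.le
    linarith
  have hCBB : ∀ x : ℝ, x ≤ C → x * B ≤ C * B := fun x hx => mul_le_mul_of_nonneg_right hx hB0.le
  have hgap : 2 * G / nJ ≤ κ * (C * B) ^ (4 * D + 4) + p / 4 := by
    have e0 : 2 * G / nJ = (2 * Rb + 1) ^ D * (2 * (Cg * κ * (Kq + Cg + (n0 + nJ) * v +
            (2 * M1 + 1) ^ D * (1 + nJ * v))) * (1 / (nJ * v))) +
          (2 * Rb + 1) ^ D * (8 * Cg * E0) / 4 := by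
      rw [hG, ← hE0]
      field_simp
      ring
    have e1 : (2 * (Rb : ℝ) + 1) ^ D * (8 * Cg * E0) ≤ p := by
      rw [hE0]
      exact Pr1_tail D (8 * Cg) Cg (Cg * (2 * D + 8 * Cg + 1)) B T p ((n0 + nJ) * v)
        (M1 - 2 - Kq) Rb (by linarith) hCg0 hp hB1 (by linarith) (by rw [← hlp]; linarith)
        (by linarith) (by positivity) hn3 ha1 le_rfl hM1r
    have e2 : 1 / ((nJ : ℝ) * v) ≤ 2 := by
      rw [div_le_iff₀ (by positivity)]
      linarith
    have e3 : (0 : ℝ) ≤ (2 * M1 + 1) ^ D := by positivity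
    have e4 : Kq + Cg + (n0 + nJ) * v + (2 * M1 + 1) ^ D * (1 + nJ * v) ≤
        (Kq + Cg + T + 1) + 2 * (2 * M1 + 1) ^ D := by
      have h1 : (2 * (M1 : ℝ) + 1) ^ D * (1 + nJ * v) ≤ (2 * M1 + 1) ^ D * 2 :=
        mul_le_mul_of_nonneg_left (by linarith) e3
      linarith
    have e4' : 0 ≤ Kq + Cg + (n0 + nJ) * v + (2 * M1 + 1) ^ D * (1 + nJ * v) := by positivity
    have e5 : 2 * (Cg * κ * (Kq + Cg + (n0 + nJ) * v +
            (2 * M1 + 1) ^ D * (1 + nJ * v))) * (1 / (nJ * v)) ≤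
        κ * (4 * Cg * ((Kq + Cg + T + 1) + 2 * (2 * M1 + 1) ^ D)) := by
      calc 2 * (Cg * κ * (Kq + Cg + (n0 + nJ) * v +
            (2 * M1 + 1) ^ D * (1 + nJ * v))) * (1 / (nJ * v))
          ≤ 2 * (Cg * κ * (Kq + Cg + (n0 + nJ) * v +
            (2 * M1 + 1) ^ D * (1 + nJ * v))) * 2 :=
            mul_le_mul_of_nonneg_left e2 (by positivity)
        _ ≤ 2 * (Cg * κ * ((Kq + Cg + T + 1) + 2 * (2 * M1 + 1) ^ D)) * 2 := by
            apply mul_le_mul_of_nonneg_right _ (by norm_num)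
            apply mul_le_mul_of_nonneg_left _ (by norm_num)
            exact mul_le_mul_of_nonneg_left e4 (by positivity)
        _ = κ * (4 * Cg * ((Kq + Cg + T + 1) + 2 * (2 * M1 + 1) ^ D)) := by ring
    have e6 := Pr1_poly D (C * B) (2 * Rb + 1) (4 * Cg) (Kq + Cg + T + 1) (2 * M1 + 1) hCB2
      (by positivity) (by
        have h1 := hCBB 2 (by linarith)
        linarith) (by positivity) (by
        have h1 := hCBB (4 * Cg) (by linarith)
        have h2 : 4 * Cg * 1 ≤ 4 * Cg * B := mul_le_mul_of_nonneg_left hB1 (by linarith)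
        linarith) (by linarith) (by
        have h1 := hCBB (1 + Cg) (by linarith)
        have h2 : Cg * 1 ≤ Cg * B := mul_le_mul_of_nonneg_left hB1 (by linarith)
        have h3 : (1 + Cg) * B = B + Cg * B := by ring
        linarith) (by positivity) (by
        have h1 := hCBB (2 * C' + 3) (by linarith)
        have h3 : (2 * C' + 3) * B = 2 * (C' * B) + 3 * B := by ring
        linarith)
    have e7 : (2 * (Rb : ℝ) + 1) ^ D * (2 * (Cg * κ * (Kq + Cg + (n0 + nJ) * v +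
            (2 * M1 + 1) ^ D * (1 + nJ * v))) * (1 / (nJ * v))) ≤
        κ * (C * B) ^ (4 * D + 4) := by
      calc (2 * (Rb : ℝ) + 1) ^ D * (2 * (Cg * κ * (Kq + Cg + (n0 + nJ) * v +
            (2 * M1 + 1) ^ D * (1 + nJ * v))) * (1 / (nJ * v)))
          ≤ (2 * Rb + 1) ^ D * (κ * (4 * Cg * ((Kq + Cg + T + 1) + 2 * (2 * M1 + 1) ^ D))) :=
            mul_le_mul_of_nonneg_left e5 (by positivity)
        _ = κ * ((2 * Rb + 1) ^ D * (4 * Cg * ((Kq + Cg + T + 1) + 2 * (2 * M1 + 1) ^ D))) := by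
            ring
        _ ≤ κ * (C * B) ^ (4 * D + 4) := mul_le_mul_of_nonneg_left e6 hκ.le
    rw [e0]
    linarith
  refine ⟨j, hjn, ?_⟩
  -- the difference
  have hdiff : PI (nz S) {ω | ∃ z, M.dd y z ≤ Rb ∧ ω ∈
      {ω : ℕ → S → ℝ | κd < |M.mf X (sc v ω) (n0 + j) z - M.mf X' (sc v ω) (n0 + j) z|}} ≤
      ENNReal.ofReal ((2 * Rb + 1) ^ D *
        (1 / κd * Real.exp (C * (Ke + s * Rb + 1) - c3 * (n0 * v)))) := by
    refine Pr1_union M _ y Rb _ _ (by positivity) fun z hz => ?_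
    have hlow : ∀ (Y : S → ℝ), (∀ z, -Ke - s * M.dd y z ≤ Y z) → ∀ z',
        -Kq - s0 * M.dd z z' ≤ Y z' := by
      intro Y hY z'
      have h1 := hY z'
      have h2 : (M.dd y z' : ℝ) ≤ Rb + M.dd z z' := by
        have : M.dd y z' ≤ Rb + M.dd z z' := (M.dd_tri y z z').trans (by omega)
        exact_mod_cast this
      have h3 : s * (M.dd y z' : ℝ) ≤ s * (Rb + M.dd z z') := mul_le_mul_of_nonneg_left h2 hs
      have h4 : s * (M.dd z z' : ℝ) ≤ s0 * M.dd z z' :=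
        mul_le_mul_of_nonneg_right hss (Nat.cast_nonneg _)
      have h5 : s * ((Rb : ℝ) + M.dd z z') = s * Rb + s * M.dd z z' := by ring
      rw [hKq]
      linarith
    refine (HD v hv hvv0 S M hline (n0 + j) X X' z Kq κd hKq0 hκd hX0 hX0' (hlow X hXl)
      (hlow X' hXl')).trans (ENNReal.ofReal_le_ofReal ?_)
    apply mul_le_mul_of_nonneg_left _ (by positivity)
    apply Real.exp_le_exp.2
    have h1 : Cd * (Kq + 1) ≤ C * (Kq + 1) :=
      mul_le_mul_of_nonneg_right (by linarith) (by linarith)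
    have h2 : (n0 : ℝ) * v ≤ ((n0 + j : ℕ) : ℝ) * v := by
      apply mul_le_mul_of_nonneg_right _ hv.le
      exact_mod_cast Nat.le_add_right _ _
    have h3 : c3 * ((n0 : ℝ) * v) ≤ c3 * (((n0 + j : ℕ) : ℝ) * v) :=
      mul_le_mul_of_nonneg_left h2 hc3.le
    have h4 : C * (Kq + 1) = C * (Ke + s * Rb + 1) := by rw [hKq]
    linarith
  -- low heights
  have hnjr : ((n0 + j : ℕ) : ℝ) * v ≤ T + 1 := by
    refine le_trans (mul_le_mul_of_nonneg_right ?_ hv.le) hn3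
    have : n0 + j ≤ n0 + nJ := by omega
    exact_mod_cast this
  have hnj0 : (0 : ℝ) < v * ((n0 + j : ℕ) : ℝ) := by
    apply mul_pos hv
    exact_mod_cast (show 0 < n0 + j by omega)
  have hlowp : ∀ (Y : S → ℝ), (∀ z, -Ke - s * M.dd y z ≤ Y z) →
      PI (nz S) {ω | ∃ z, M.dd y z ≤ Rb ∧ ω ∈
        {ω : ℕ → S → ℝ | ¬ (-(C * B) ≤ M.mf Y (sc v ω) (n0 + j) z)}} ≤ ENNReal.ofReal (p / 8) := by
    intro Y hY
    have e1 : (2 * (Rb : ℝ) + 1) ^ D * (32 * Real.exp (-((32 * (2 * D + 33) * B) ^ 2 /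
        (32 * (v * ((n0 + j : ℕ) : ℝ)))))) ≤ p :=
      Pr1_tail D 32 32 (32 * (2 * D + 33)) B T p (v * ((n0 + j : ℕ) : ℝ))
        (32 * (2 * D + 33) * B) Rb (by norm_num) (by norm_num) hp hB1 (by linarith)
        (by rw [← hlp]; linarith) (by linarith) hnj0 (by rw [mul_comm]; exact hnjr)
        (by linarith) (by linarith) le_rfl
    refine (Pr1_union M (PI (nz S)) y Rb _ (4 * Real.exp (-((32 * (2 * D + 33) * B) ^ 2 /
        (32 * (v * ((n0 + j : ℕ) : ℝ)))))) (by positivity) fun z hz => ?_).trans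
      (ENNReal.ofReal_le_ofReal ?_)
    · refine Pr1_low M v hv Y (n0 + j) (by omega) z Kq (C * B) (32 * (2 * D + 33) * B) hKq0
        (hball Y hY z hz) (by positivity) ?_
      have h1 := hCBB (1 + 32 * (2 * D + 33)) (by linarith)
      have h2 : (1 + 32 * (2 * (D : ℝ) + 33)) * B = B + 32 * (2 * D + 33) * B := by ring
      linarith
    · linarith
  -- union
  have hsub : {ω : ℕ → S → ℝ | ∃ z, M.dd y z ≤ Rb ∧
          ¬ (Gap M κ (M.mf X (sc v ω) (n0 + j)) z ∧ Gap M κ (M.mf X' (sc v ω) (n0 + j)) z ∧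
            |M.mf X (sc v ω) (n0 + j) z - M.mf X' (sc v ω) (n0 + j) z| ≤ κd ∧
            -(C * B) ≤ M.mf X (sc v ω) (n0 + j) z ∧
            -(C * B) ≤ M.mf X' (sc v ω) (n0 + j) z)} ⊆
      ({ω | ∃ z, M.dd y z ≤ Rb ∧ ¬ Gap M κ (M.mf X (sc v ω) (n0 + j)) z} ∪
        {ω | ∃ z, M.dd y z ≤ Rb ∧ ¬ Gap M κ (M.mf X' (sc v ω) (n0 + j)) z}) ∪
      ({ω | ∃ z, M.dd y z ≤ Rb ∧ ω ∈
      {ω : ℕ → S → ℝ | κd < |M.mf X (sc v ω) (n0 + j) z - M.mf X' (sc v ω) (n0 + j) z|}} ∪
      ({ω | ∃ z, M.dd y z ≤ Rb ∧ ω ∈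
        {ω : ℕ → S → ℝ | ¬ (-(C * B) ≤ M.mf X (sc v ω) (n0 + j) z)}} ∪
      {ω | ∃ z, M.dd y z ≤ Rb ∧ ω ∈
        {ω : ℕ → S → ℝ | ¬ (-(C * B) ≤ M.mf X' (sc v ω) (n0 + j) z)}})) := by
    rintro ω ⟨z, hz, hno⟩
    by_contra hcon
    apply hno
    refine ⟨?_, ?_, ?_, ?_, ?_⟩
    · by_contra h
      exact hcon (Or.inl (Or.inl ⟨z, hz, h⟩))
    · by_contra h
      exact hcon (Or.inl (Or.inr ⟨z, hz, h⟩))
    · by_contra h
      exact hcon (Or.inr (Or.inl ⟨z, hz, not_le.1 h⟩))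
    · by_contra h
      exact hcon (Or.inr (Or.inr (Or.inl ⟨z, hz, h⟩)))
    · by_contra h
      exact hcon (Or.inr (Or.inr (Or.inr ⟨z, hz, h⟩)))
  have hk0 : 0 ≤ κ * (C * B) ^ (4 * D + 4) := by positivity
  have hd0 : 0 ≤ (2 * (Rb : ℝ) + 1) ^ D *
        (1 / κd * Real.exp (C * (Ke + s * Rb + 1) - c3 * (n0 * v))) := by positivity
  calc PI (nz S) _ ≤ PI (nz S) _ := measure_mono hsub
    _ ≤ a j + (ENNReal.ofReal ((2 * Rb + 1) ^ D *
        (1 / κd * Real.exp (C * (Ke + s * Rb + 1) - c3 * (n0 * v)))) +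
        (ENNReal.ofReal (p / 8) + ENNReal.ofReal (p / 8))) := by
        refine (measure_union_le _ _).trans (add_le_add (measure_union_le _ _) ?_)
        refine (measure_union_le _ _).trans (add_le_add hdiff ?_)
        exact (measure_union_le _ _).trans (add_le_add (hlowp X hXl) (hlowp X' hXl'))
    _ ≤ ENNReal.ofReal (κ * (C * B) ^ (4 * D + 4) + p / 4) + (ENNReal.ofReal ((2 * Rb + 1) ^ D *
        (1 / κd * Real.exp (C * (Ke + s * Rb + 1) - c3 * (n0 * v)))) +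
        (ENNReal.ofReal (p / 8) + ENNReal.ofReal (p / 8))) :=
        add_le_add (haj.trans (ENNReal.ofReal_le_ofReal hgap)) le_rfl
    _ = ENNReal.ofReal ((κ * (C * B) ^ (4 * D + 4) + p / 4) + ((2 * Rb + 1) ^ D *
        (1 / κd * Real.exp (C * (Ke + s * Rb + 1) - c3 * (n0 * v))) + (p / 8 + p / 8))) := by
        rw [ENNReal.ofReal_add (p := κ * (C * B) ^ (4 * D + 4) + p / 4) (by positivity)
          (by positivity), ENNReal.ofReal_add hd0 (by positivity),
          ENNReal.ofReal_add (p := p / 8) (by positivity) (by positivity)]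
    _ ≤ _ := by
        apply ENNReal.ofReal_le_ofReal
        have h1 : (2 * (Rb : ℝ) + 1) ^ D *
          (1 / κd * Real.exp (C * (Ke + s * Rb + 1) - c3 * (n0 * v))) =
          (2 * Rb + 1) ^ D / κd * Real.exp (C * (Ke + s * Rb + 1) - c3 * (n0 * v)) := by ring
        rw [h1]
        linarith

end DynC

end
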