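import Pool.Agent.Lib_MP_36b788_m.M03

/-!
# MP_36b788_pr, stationary limit: merged library part M37

Concatenation of smaller files (each in its own section), only to save build time.
-/

/-! ### from `Lib_MP_36b788c.Mq` -/

section

/-!
# Height model with a cheaper transport cost

PROOF.
* `mfq_ge`: `Rq q ≥ RR` for `q ≤ 1`, induction.
* `mfq_le`: for every `n, x` there is `Len ∈ ℕ` with `mfq n x ≤ mf n x + (1-q) Len` and `(q - 1/8) Len ≤ lpp n x - mfq n x` (`lpp` with cost `1/8`, start `0`). Induction: `n = 0`: `Len = 0`, `X ≤ 0`. Step: `z` attains `Rq q (mfq n) x`, `Len = Len_z + dd x z`: `mf (n+1) x ≥ min 0 (mf n z - dd + g) ≥ mfq (n+1) x - (1-q)(Len_z + dd)`.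
  With `A = mfq n z - q dd + g`: `mfq (n+1) x = min 0 A`, `-mfq (n+1) x ≥ -A`; `lpp (n+1) x ≥ lpp n z - dd/8 + max g 0` if `z ≠ x` (`dd ≥ 1`), `≥ lpp n x + g` if `z = x`. So `lpp (n+1) x - mfq (n+1) x ≥ lpp n z - mfq n z + (q-1/8) dd ≥ (q-1/8)(Len_z+dd)`.
  Then `(1-q) Len ≤ (8/5)(1-q)(lpp - mfq) ≤ 2(1-q)(lpp - mf)` as `q - 1/8 ≥ 5/8`, `mf ≤ mfq ≤ 0`, `lpp ≥ 0`.
-/

open MeasureTheory ProbabilityTheory
open scoped ENNReal

namespace DynC

variable {S : Type} [Fintype S] {D : ℕ}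

/-- height model with cost `q` -/
noncomputable def MSet.mfq (M : MSet S D) (q : ℝ) (X : S → ℝ) (g : ℕ → S → ℝ) : ℕ → S → ℝ
  | 0 => X
  | n + 1 => fun x => min 0 (M.Rq q (M.mfq q X g n) x + g n x)

private theorem Mq_Rq_le (M : MSet S D) (q : ℝ) (F : S → ℝ) (x : S) (c : ℝ)
    (h : ∀ z, F z - q * M.dd x z ≤ c) : M.Rq q F x ≤ c := by
  unfold MSet.Rq
  refine Finset.max'_le _ _ _ ?_
  intro y hy
  obtain ⟨z, _, rfl⟩ := Finset.mem_image.mp hy
  exact h z

private theorem Mq_le_Rq (M : MSet S D) (q : ℝ) (F : S → ℝ) (x z : S) :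
    F z - q * M.dd x z ≤ M.Rq q F x := by
  unfold MSet.Rq
  exact Finset.le_max' _ _ (Finset.mem_image_of_mem
    (fun z => F z - q * (M.dd x z : ℝ)) (Finset.mem_univ z))

private theorem Mq_Rq_attained (M : MSet S D) (q : ℝ) (F : S → ℝ) (x : S) :
    ∃ z, M.Rq q F x = F z - q * M.dd x z := by
  have h := Finset.max'_mem (Finset.univ.image fun z => F z - q * (M.dd x z : ℝ))
    ⟨F x - q * M.dd x x, Finset.mem_image_of_mem _ (Finset.mem_univ x)⟩
  obtain ⟨z, _, hz⟩ := Finset.mem_image.mp h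
  exact ⟨z, hz.symm⟩

private theorem Mq_lpp_succ (M : MSet S D) (q : ℝ) (W0 : S → ℝ) (g : ℕ → S → ℝ) (n : ℕ)
    (x : S) :
    M.lpp q W0 g (n + 1) x = max 0 (max (M.lpp q W0 g n x + g n x)
      (M.Rq1 q (M.lpp q W0 g n) x + max (g n x) 0)) := rfl

private theorem Mq_mfq_succ (M : MSet S D) (q : ℝ) (X : S → ℝ) (g : ℕ → S → ℝ) (n : ℕ)
    (x : S) : M.mfq q X g (n + 1) x = min 0 (M.Rq q (M.mfq q X g n) x + g n x) := rfl

private theorem Mq_mf_succ (M : MSet S D) (X : S → ℝ) (g : ℕ → S → ℝ) (n : ℕ)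
    (x : S) : M.mf X g (n + 1) x = min 0 (M.RR (M.mf X g n) x + g n x) := rfl

private theorem Mq_key (M : MSet S D) (q : ℝ) (hq1 : q ≤ 1) (X : S → ℝ)
    (hX : ∀ z, X z ≤ 0) (g : ℕ → S → ℝ) (n : ℕ) (x : S) :
    ∃ L : ℕ, M.mfq q X g n x ≤ M.mf X g n x + (1 - q) * L ∧
      (q - 1 / 8) * L ≤ M.lpp (1 / 8) (fun _ => 0) g n x - M.mfq q X g n x := by
  induction n generalizing x with
  | zero =>
    refine ⟨0, ?_, ?_⟩
    · change X x ≤ X x + (1 - q) * ((0 : ℕ) : ℝ)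
      simp
    · change (q - 1 / 8) * ((0 : ℕ) : ℝ) ≤ (0 : ℝ) - X x
      have := hX x
      simp only [Nat.cast_zero, mul_zero]
      linarith
  | succ n ih =>
    obtain ⟨z, hz⟩ := Mq_Rq_attained M q (M.mfq q X g n) x
    obtain ⟨L, h1, h2⟩ := ih z
    refine ⟨L + M.dd x z, ?_, ?_⟩
    · rw [Mq_mfq_succ, Mq_mf_succ, hz, Nat.cast_add]
      have h3 := le_RR M (M.mf X g n) x z
      have h4 : (0 : ℝ) ≤ (1 - q) * ((L : ℝ) + (M.dd x z : ℝ)) := by
        have : (0 : ℝ) ≤ 1 - q := by linarith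
        positivity
      rcases le_total 0 (M.RR (M.mf X g n) x + g n x) with h5 | h5
      · rw [min_eq_left h5]
        exact (min_le_left _ _).trans (by linarith)
      · rw [min_eq_right h5]
        refine (min_le_right _ _).trans ?_
        nlinarith
    · rw [Mq_mfq_succ, Mq_lpp_succ, hz, Nat.cast_add]
      have h3 : min 0 (M.mfq q X g n z - q * (M.dd x z : ℝ) + g n x) ≤
          M.mfq q X g n z - q * (M.dd x z : ℝ) + g n x := min_le_right _ _
      by_cases hxz : x = z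
      · subst hxz
        rw [M.dd_self] at h3 ⊢
        have h4 : M.lpp (1 / 8) (fun _ => 0) g n x + g n x ≤
            max 0 (max (M.lpp (1 / 8) (fun _ => 0) g n x + g n x)
              (M.Rq1 (1 / 8) (M.lpp (1 / 8) (fun _ => 0) g n) x + max (g n x) 0)) :=
          (le_max_left _ _).trans (le_max_right _ _)
        simp only [Nat.cast_zero, mul_zero, add_zero, sub_zero] at h3 ⊢
        linarith
      · have h5 : (1 : ℝ) ≤ (M.dd x z : ℝ) := by exact_mod_cast M.dd_pos x z hxz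
        have h6 := le_Rq1 M (1 / 8) (M.lpp (1 / 8) (fun _ => 0) g n) x z
        rw [max_eq_left h5] at h6
        have h4 : M.Rq1 (1 / 8) (M.lpp (1 / 8) (fun _ => 0) g n) x + max (g n x) 0 ≤
            max 0 (max (M.lpp (1 / 8) (fun _ => 0) g n x + g n x)
              (M.Rq1 (1 / 8) (M.lpp (1 / 8) (fun _ => 0) g n) x + max (g n x) 0)) :=
          (le_max_right _ _).trans (le_max_right _ _)
        have h7 : g n x ≤ max (g n x) 0 := le_max_left _ _
        nlinarith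

theorem mfq_nonpos (M : MSet S D) (q : ℝ) (X : S → ℝ) (hX : ∀ z, X z ≤ 0) (g : ℕ → S → ℝ)
    (n : ℕ) (x : S) : M.mfq q X g n x ≤ 0 := by
  cases n with
  | zero => exact hX x
  | succ n => exact min_le_left _ _

theorem mfq_ge (M : MSet S D) (q : ℝ) (hq : q ≤ 1) (X : S → ℝ) (g : ℕ → S → ℝ)
    (n : ℕ) (x : S) : M.mf X g n x ≤ M.mfq q X g n x := by
  induction n generalizing x with
  | zero => exact le_refl _
  | succ n ih =>
    rw [Mq_mfq_succ, Mq_mf_succ]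
    refine min_le_min le_rfl (add_le_add_left ?_ _)
    refine RR_le M _ x _ (fun z => ?_)
    refine le_trans ?_ (Mq_le_Rq M q (M.mfq q X g n) x z)
    have h1 := ih z
    have h2 : (0 : ℝ) ≤ (M.dd x z : ℝ) := Nat.cast_nonneg _
    nlinarith

theorem mfq_le (M : MSet S D) (q : ℝ) (hq : 3 / 4 ≤ q) (hq1 : q ≤ 1) (X : S → ℝ)
    (hX : ∀ z, X z ≤ 0) (g : ℕ → S → ℝ) (n : ℕ) (x : S) :
    M.mfq q X g n x ≤ M.mf X g n x +
      2 * (1 - q) * (M.lpp (1 / 8) (fun _ => 0) g n x - M.mf X g n x) := by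
  obtain ⟨L, h1, h2⟩ := Mq_key M q hq1 X hX g n x
  have h3 := mfq_ge M q hq1 X g n x
  have h4 : 0 ≤ M.lpp (1 / 8) (fun _ => 0) g n x :=
    lpp_nonneg M (1 / 8) (fun _ => 0) (fun _ => le_rfl) g n x
  have h5 := mf_nonpos M X hX g n x
  have h6 : (0 : ℝ) ≤ (L : ℝ) := Nat.cast_nonneg _
  have h7 : (L : ℝ) ≤ 2 * (M.lpp (1 / 8) (fun _ => 0) g n x - M.mf X g n x) := by
    nlinarith
  have h8 : (1 - q) * (L : ℝ) ≤
      (1 - q) * (2 * (M.lpp (1 / 8) (fun _ => 0) g n x - M.mf X g n x)) :=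
    mul_le_mul_of_nonneg_left h7 (by linarith)
  linarith

/-- `Rq` as a supremum: characterization -/
theorem Rq_le (M : MSet S D) (q : ℝ) (F : S → ℝ) (x : S) (c : ℝ)
    (h : ∀ z, F z - q * M.dd x z ≤ c) : M.Rq q F x ≤ c :=
  Mq_Rq_le M q F x c h

theorem le_Rq (M : MSet S D) (q : ℝ) (F : S → ℝ) (x z : S) :
    F z - q * M.dd x z ≤ M.Rq q F x :=
  Mq_le_Rq M q F x z

theorem Rq_lip (M : MSet S D) (q : ℝ) (hq : 0 ≤ q) (F : S → ℝ) (x y : S) :
    M.Rq q F x ≤ M.Rq q F y + q * M.dd x y := by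
  refine Mq_Rq_le M q F x _ (fun z => ?_)
  have h1 := Mq_le_Rq M q F y z
  have h2 : (M.dd y z : ℝ) ≤ M.dd y x + M.dd x z := by exact_mod_cast M.dd_tri y x z
  have h3 : (M.dd y x : ℝ) = M.dd x y := by rw [M.dd_comm]
  have h4 : q * (M.dd y z : ℝ) ≤ q * (M.dd x y + M.dd x z) :=
    mul_le_mul_of_nonneg_left (by linarith) hq
  linarith

end DynC

end
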