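import Pool.Agent.Lib_MP_36b788_m.M09
import Pool.Agent.Lib_MP_36b788_m.M13
import Pool.Agent.Lib_MP_36b788_m.M17
import Pool.Agent.Lib_MP_36b788_m.M20
import Pool.Agent.Lib_MP_36b788_m.M32
import Pool.Agent.Lib_MP_36b788_m.M38

/-!
# MP_36b788_pr, stationary limit: merged library part M39

Concatenation of smaller files (each in its own section), only to save build time.
-/

/-! ### from `Lib_MP_36b788c.WL2` -/

section

/-!
# One window, `N = 2`: lower bound of a height by the sup convolution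

`wl2`: `z` maximizes `‖G v‖ k^{dist x v}`, `m = dist x z ≤ m0`, `‖G z‖ ≤ k^{-ε0}`, `‖G v‖ ≤ k^{-H v}` with a profile `H` (`H y ≤ H v + 3/4` for neighbours, `H ≤ 1/16` within distance one of `x`); window `1 ≤ n h ≤ ell³`. With probability `≥ 1 - k^c`: `Reg2` fails or `‖G_n x‖ ≥ min (k^{3κ}) (k^{ε+m} exp(Σ b_j x) ‖G z‖)`.

PROOF. `u0 = ‖G z‖ > 0`. `e = min(e1, ε/8, …)` from `ol2`, `e' = (e/16) min(1,1/β)/2`, `ε0`, `c`, from `catch_up` (with `e'`), also `ε0 ≤ e/(8β)`. `N` = the number of steps of `catch_up` for `m` (`N h ≤ k^c`).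
At time `N`, outside probability `k^c`: `‖G_N x‖ ≥ k^{m+e'} u0`, `‖G_N v‖ ≤ k^{m-(1+e') dist x v - e'} u0 ≤ k^{-2e'-(1+e') dist x v} ‖G_N x‖`, so the hypotheses of `ol2` hold at time `N` (`2e' ≤ e/4`, `e' ≤ e/16`, `‖G_N x‖ ≤ k^{-e'-ε0} ≤ k^{-e/(4β)}`). `MN2.mu`, `st2_eq` identify the chains.
`ol2` on the remaining `n - N` steps (`lintegral_glue`, `traj_glue_add`; `reg2_sub`; `n - N ≥ ⌈k^e/h⌉` since `1 ≤ n h`): outside probability `k^{e/100}`, if `Reg2` holds, either `‖G_n x‖ ≥ k^{2e} exp(Σ_{N ≤ j < n} b_j x) k^{m+e'} u0`, or some `j0 ∈ [N, n]` has `‖G_{j0} x‖ ≥ k^κ`.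
First case: `|Σ_{j<N} b_j x| ≤ (ε/4) ell` outside probability `2 exp(-(ε ell/4)²/(2k^c))` (Gaussian sum; `adapted_tail` or `osc_exp`), `2e + e' + ε/4 ≤ ε`.
Second case: `q2_low` for `u_j = ‖G_j‖`: `QStep` by `PS2.q1` on the event that all noise is good (`P ≥ 1 - |box| n h³`, `h0` depends on `L`), block sums by `Reg2`; sizes: `reg2_growth` with `D = u`, `A = 1`, the given `H`, `ρ = 3/4` (`DStep` from `u1`): `‖G_j v‖ ≤ 2k^{-κ(1+dist x v) - H v} ≤ 2k^{-1/32-1/16} ≤ k^{-1/8}` for `dist x v ≤ 1`.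
-/

open MeasureTheory ProbabilityTheory
open scoped ENNReal

namespace DynC

open Dyn

private theorem WL2_rp {k : ℝ} (hk : 0 < k) (a : ℝ) : k ^ a = Real.exp (-(a * ell k)) := by
  unfold ell
  rw [Real.rpow_def_of_pos hk, one_div, Real.log_inv]
  congr 1
  ring

private theorem WL2_ell_pos {k : ℝ} (hk : 0 < k) (hk1 : k < 1) : 0 < ell k := by
  unfold ell
  exact Real.log_pos (by rw [one_div]; exact (one_lt_inv₀ hk).mpr hk1)

private theorem WL2_small (a b c e ε : ℝ) (hc : 0 < c) (ha : 2 * c ≤ a) (hb : 2 * c ≤ b)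
    (he : 0 < e) (hε : 0 < ε) : ∃ k0 : ℝ, 0 < k0 ∧ k0 < 1 ∧ ∀ k, 0 < k → k < k0 →
      k ^ a ≤ k ^ c / 4 ∧ k ^ b ≤ k ^ c / 4 ∧
      4 * Real.exp (-((ε / 4) ^ 2 * ell k ^ 2 / (32 * k ^ a))) ≤ k ^ c / 4 ∧
      2 ≤ Real.exp (ell k / 32) ∧ k ^ e + k ^ a ≤ 1 / 2 := by
  have ha0 : 0 < a := by linarith
  have hb0 : 0 < b := by linarith
  set l0 : ℝ := 32 + 2 / c + 512 * (c + 1) / ε ^ 2 + 2 / e with hl0
  have p1 : 0 < 2 / c := by positivity
  have p2 : 0 < 512 * (c + 1) / ε ^ 2 := by positivity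
  have p3 : 0 < 2 / e := by positivity
  refine ⟨Real.exp (-l0), Real.exp_pos _, ?_, ?_⟩
  · rw [Real.exp_lt_one_iff]
    linarith
  intro k hk hkk
  have hl : l0 < ell k := by
    unfold ell
    rw [one_div, Real.log_inv]
    have h1 := Real.log_lt_log hk hkk
    rw [Real.log_exp] at h1
    linarith
  have hl16 : 32 ≤ ell k := by linarith
  have hlc : 2 ≤ c * ell k := by
    have h1 : 2 / c ≤ ell k := by linarith
    rw [div_le_iff₀ hc] at h1
    linarith
  have hle : 2 ≤ e * ell k := by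
    have h1 : 2 / e ≤ ell k := by linarith
    rw [div_le_iff₀ he] at h1
    linarith
  have hlε : 512 * (c + 1) ≤ ε ^ 2 * ell k := by
    have h1 : 512 * (c + 1) / ε ^ 2 ≤ ell k := by linarith
    rw [div_le_iff₀ (by positivity)] at h1
    linarith
  have h4 : (4 : ℝ) ≤ Real.exp 2 := by
    have h1 : (2 : ℝ) ≤ Real.exp 1 := by
      have := Real.add_one_le_exp (1 : ℝ)
      linarith
    have h2 : Real.exp 2 = Real.exp 1 * Real.exp 1 := by
      rw [← Real.exp_add]
      norm_num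
    rw [h2]
    nlinarith
  have hq : Real.exp (-2) ≤ 1 / 4 := by
    rw [Real.exp_neg, inv_eq_one_div]
    exact one_div_le_one_div_of_le (by norm_num) h4
  have hka1 : k ^ a ≤ 1 / 4 := by
    rw [WL2_rp hk]
    refine le_trans (Real.exp_le_exp.mpr ?_) hq
    nlinarith
  have hdiv : ∀ t, 2 * c ≤ t → k ^ t ≤ k ^ c / 4 := by
    intro t ht
    rw [WL2_rp hk, WL2_rp hk]
    have h1 : Real.exp (-(t * ell k)) ≤ Real.exp (-(c * ell k)) * Real.exp (-2) := by
      rw [← Real.exp_add]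
      refine Real.exp_le_exp.mpr ?_
      nlinarith
    have h2 : Real.exp (-(c * ell k)) * Real.exp (-2) ≤ Real.exp (-(c * ell k)) * (1 / 4) :=
      mul_le_mul_of_nonneg_left hq (Real.exp_pos _).le
    linarith
  refine ⟨hdiv a ha, hdiv b hb, ?_, ?_, ?_⟩
  · have hkap : 0 < k ^ a := Real.rpow_pos_of_pos hk _
    have h1 : (c + 1) * ell k ≤ (ε / 4) ^ 2 * ell k ^ 2 / (32 * k ^ a) := by
      rw [le_div_iff₀ (by positivity)]
      have h2 : (c + 1) * ell k * (32 * k ^ a) ≤ (c + 1) * ell k * 32 := by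
        have h3 : 0 ≤ (c + 1) * ell k := by positivity
        nlinarith
      nlinarith
    rw [WL2_rp hk c]
    have h5 : Real.exp (-((ε / 4) ^ 2 * ell k ^ 2 / (32 * k ^ a))) ≤
        Real.exp (-(c * ell k)) * Real.exp (-4) := by
      rw [← Real.exp_add]
      refine Real.exp_le_exp.mpr ?_
      nlinarith
    have h6 : Real.exp (-4) ≤ 1 / 16 := by
      have h7 : Real.exp (-4) = Real.exp (-2) * Real.exp (-2) := by
        rw [← Real.exp_add]
        norm_num
      rw [h7]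
      nlinarith [Real.exp_pos (-2)]
    have h8 : Real.exp (-(c * ell k)) * Real.exp (-4) ≤ Real.exp (-(c * ell k)) * (1 / 16) :=
      mul_le_mul_of_nonneg_left h6 (Real.exp_pos _).le
    linarith
  · have h1 : (1 : ℝ) ≤ ell k / 32 := by linarith
    have h2 := Real.add_one_le_exp (ell k / 32)
    linarith
  · have h1 : k ^ e ≤ 1 / 4 := by
      rw [WL2_rp hk]
      exact le_trans (Real.exp_le_exp.mpr (by linarith)) hq
    linarith

private theorem WL2_osc (d L : ℕ) (k h : ℝ) (hk : 0 < k) (hk1 : k < 1) (hh : 0 < h) (N : ℕ)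
    (x : boxS d L) (r : ℝ) (hr : 0 < r) (T : ℝ) (hT : 0 < T) (hN : N * h ≤ T) :
    PI (Measure.pi fun _ : boxS d L => gC)
      {ω | r < |∑ j ∈ Finset.range N, gz k h ω j x|} ≤
      ENNReal.ofReal (4 * Real.exp (-(r ^ 2 * ell k ^ 2 / (32 * T)))) := by
  have hl := WL2_ell_pos hk hk1
  rcases Nat.eq_zero_or_pos N with h0 | h0
  · subst h0
    have h1 : {ω : ℕ → boxS d L → ℂ | r < |∑ j ∈ Finset.range 0, gz k h ω j x|} = ∅ := by
      ext ω
      simp [hr.le]
    rw [h1, measure_empty]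
    exact zero_le
  · have hE : MeasurableSet {g : ℕ → boxS d L → ℝ | r < |∑ j ∈ Finset.range N, g j x|} := by
      refine measurableSet_lt measurable_const (continuous_abs.measurable.comp ?_)
      exact Finset.measurable_sum _ fun j _ => (measurable_pi_apply x).comp (measurable_pi_apply j)
    have h1 := re_law d L k h hk hk1 hh _ hE
    have h2 : PI (Measure.pi fun _ : boxS d L => gC)
        {ω | r < |∑ j ∈ Finset.range N, gz k h ω j x|} =
        PI (nz (boxS d L)) {ω | r < |∑ j ∈ Finset.range N, sc (h / ell k ^ 2) ω j x|} := h1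
    rw [h2]
    have hsub : {ω : ℕ → boxS d L → ℝ | r < |∑ j ∈ Finset.range N, sc (h / ell k ^ 2) ω j x|} ⊆
        {ω | r ≤ osc (fun j => sc (h / ell k ^ 2) ω j x) N} := by
      intro ω hω
      have h3 := sum_le_osc (fun j => sc (h / ell k ^ 2) ω j x) (Nat.zero_le N) le_rfl
      rw [← Finset.range_eq_Ico] at h3
      exact (le_of_lt hω).trans h3
    refine (measure_mono hsub).trans ?_
    have hN' : (0 : ℝ) < N := by exact_mod_cast h0
    refine (osc_tail_nz (S := boxS d L) (h / ell k ^ 2) (by positivity) N h0 x r hr.le).trans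
      (ENNReal.ofReal_le_ofReal ?_)
    refine mul_le_mul_of_nonneg_left (Real.exp_le_exp.mpr ?_) (by norm_num)
    have h4 : -(r ^ 2) / (32 * (h / ell k ^ 2 * N)) = -(r ^ 2 * ell k ^ 2 / (32 * (N * h))) := by
      field_simp
    rw [h4]
    refine neg_le_neg ?_
    exact div_le_div_of_nonneg_left (by positivity) (by positivity) (by linarith)

private theorem WL2_bad (d L : ℕ) (h : ℝ) (n : ℕ) (hh : 0 < h)
    (ht : gC (gdC h)ᶜ ≤ ENNReal.ofReal (h ^ 3)) :
    PI (Measure.pi fun _ : boxS d L => gC) {ω | ¬ ∀ j, j < n → ∀ y, ω j y ∈ gdC h} ≤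
      ENNReal.ofReal (n * Fintype.card (boxS d L) * h ^ 3) := by
  have hm : MeasurableSet (gdC h)ᶜ := by
    refine MeasurableSet.compl ?_
    exact measurableSet_le (measurable_norm.const_mul _) measurable_const
  have hone : ∀ (j : ℕ) (y : boxS d L), PI (Measure.pi fun _ : boxS d L => gC)
      {ω | ω j y ∈ (gdC h)ᶜ} ≤ ENNReal.ofReal (h ^ 3) := by
    intro j y
    have h1 : PI (Measure.pi fun _ : boxS d L => gC) {ω | ω j y ∈ (gdC h)ᶜ} =
        (PI (Measure.pi fun _ : boxS d L => gC)).map (fun ω => ω j)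
          {η : boxS d L → ℂ | η y ∈ (gdC h)ᶜ} := by
      rw [Measure.map_apply (measurable_pi_apply j) (measurable_pi_apply y hm)]
      rfl
    rw [h1, map_coord]
    have h2 := (measurePreserving_eval (fun _ : boxS d L => gC) y).measure_preimage
      hm.nullMeasurableSet
    have h3 : {η : boxS d L → ℂ | η y ∈ (gdC h)ᶜ} = Function.eval y ⁻¹' (gdC h)ᶜ := rfl
    rw [h3, h2]
    exact ht
  have hsub : {ω : ℕ → boxS d L → ℂ | ¬ ∀ j, j < n → ∀ y, ω j y ∈ gdC h} ⊆
      ⋃ j ∈ Finset.range n, ⋃ y ∈ (Finset.univ : Finset (boxS d L)), {ω | ω j y ∈ (gdC h)ᶜ} := by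
    intro ω hω
    simp only [Set.mem_setOf_eq, not_forall] at hω
    obtain ⟨j, hj, y, hy⟩ := hω
    simp only [Set.mem_iUnion]
    exact ⟨j, Finset.mem_range.mpr hj, y, Finset.mem_univ y, hy⟩
  refine (measure_mono hsub).trans ?_
  refine (measure_biUnion_finset_le _ _).trans ?_
  calc ∑ j ∈ Finset.range n, PI (Measure.pi fun _ : boxS d L => gC)
        (⋃ y ∈ (Finset.univ : Finset (boxS d L)), {ω | ω j y ∈ (gdC h)ᶜ})
      ≤ ∑ j ∈ Finset.range n, ∑ y : boxS d L, ENNReal.ofReal (h ^ 3) := by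
        refine Finset.sum_le_sum fun j _ => ?_
        refine (measure_biUnion_finset_le _ _).trans ?_
        exact Finset.sum_le_sum fun y _ => hone j y
    _ = ENNReal.ofReal (n * Fintype.card (boxS d L) * h ^ 3) := by
        rw [Finset.sum_const, Finset.sum_const, Finset.card_range, Finset.card_univ]
        rw [nsmul_eq_mul, nsmul_eq_mul, mul_assoc, ENNReal.ofReal_mul (by positivity),
          ENNReal.ofReal_mul (by positivity), ENNReal.ofReal_natCast, ENNReal.ofReal_natCast]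

private theorem WL2_markov {X St : Type} [MeasurableSpace X] [MeasurableSpace St] (μ : Measure X)
    [IsProbabilityMeasure μ] (f : St → X → St) (hf : Measurable fun p : St × X => f p.1 p.2)
    (s : St) (N : ℕ) (S : Set (St × (ℕ → X))) (hS : MeasurableSet S) (p : ℝ≥0∞)
    (h : ∀ s', PI μ {b | (s', b) ∈ S} ≤ p) :
    PI μ {ω | (traj f s ω N, fun j => ω (N + j)) ∈ S} ≤ p := by
  have hm : Measurable fun ω : ℕ → X => (traj f s ω N, fun j => ω (N + j)) := by
    refine Measurable.prodMk ?_ ?_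
    · exact (measurable_traj f hf N).comp (measurable_const.prodMk measurable_id)
    · exact measurable_pi_iff.mpr fun j => measurable_pi_apply (N + j)
  have hA : MeasurableSet {ω : ℕ → X | (traj f s ω N, fun j => ω (N + j)) ∈ S} := hm hS
  have h1 : PI μ {ω : ℕ → X | (traj f s ω N, fun j => ω (N + j)) ∈ S} =
      ∫⁻ a, ∫⁻ b, ({ω : ℕ → X | (traj f s ω N, fun j => ω (N + j)) ∈ S}).indicator 1
        (glue N a b) ∂(PI μ) ∂(PI μ) := by
    rw [← lintegral_glue N _ (measurable_one.indicator hA)]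
    rw [lintegral_indicator_one hA]
  rw [h1]
  calc _ ≤ ∫⁻ _a, p ∂(PI μ) := by
        refine lintegral_mono fun a => ?_
        have h2 : ∀ b, ({ω : ℕ → X | (traj f s ω N, fun j => ω (N + j)) ∈ S}).indicator
            (1 : (ℕ → X) → ℝ≥0∞) (glue N a b) =
            ({b | (traj f s a N, b) ∈ S}).indicator 1 b := by
          intro b
          have e1 : traj f s (glue N a b) N = traj f s a N := traj_glue_le f s N a b N le_rfl
          have e2 : (fun j => glue N a b (N + j)) = b := by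
            funext j
            unfold glue
            rw [if_neg (by omega)]
            congr 1
            omega
          have e3 : (glue N a b ∈ {ω : ℕ → X | (traj f s ω N, fun j => ω (N + j)) ∈ S}) ↔
              (b ∈ {b | (traj f s a N, b) ∈ S}) := by
            simp only [Set.mem_setOf_eq, e1, e2]
          by_cases hb : b ∈ {b | (traj f s a N, b) ∈ S}
          · rw [Set.indicator_of_mem hb, Set.indicator_of_mem (e3.mpr hb)]
            rfl
          · rw [Set.indicator_of_notMem hb, Set.indicator_of_notMem (fun h => hb (e3.mp h))]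
        have hB : MeasurableSet {b : ℕ → X | (traj f s a N, b) ∈ S} :=
          measurable_prodMk_left hS
        calc ∫⁻ b, ({ω : ℕ → X | (traj f s ω N, fun j => ω (N + j)) ∈ S}).indicator
              (1 : (ℕ → X) → ℝ≥0∞) (glue N a b) ∂(PI μ)
            = ∫⁻ b, ({b | (traj f s a N, b) ∈ S}).indicator 1 b ∂(PI μ) :=
              lintegral_congr h2
          _ = PI μ {b | (traj f s a N, b) ∈ S} := lintegral_indicator_one hB
          _ ≤ p := h _
    _ = p := by
        rw [lintegral_const]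
        simp

private theorem WL2_traj_add {X St : Type} (f : St → X → St) (s : St) (ω : ℕ → X) (N m : ℕ) :
    traj f s ω (N + m) = traj f (traj f s ω N) (fun j => ω (N + j)) m := by
  induction m with
  | zero => rfl
  | succ m ih =>
    show f (traj f s ω (N + m)) (ω (N + m)) =
      f (traj f (traj f s ω N) (fun j => ω (N + j)) m) (ω (N + m))
    rw [ih]

private theorem WL2_det (d : ℕ) {β k h κ : ℝ} (hβ : 0 < β) (hκ : 0 < κ) (hκ1 : κ ≤ 1 / 64)
    (hk : 0 < k) (hk1 : k < 1) (hh : 0 < h) (hh1 : h < 1) (L : ℕ) (G : boxS d L → ℂ) (x : boxS d L) (ω : ℕ → boxS d L → ℂ) (n : ℕ)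
    (hn : n * h ≤ ell k ^ 3) (hK : 2 ≤ Real.exp (ell k / 32))
    (hq2 : ∀ (ι : Type) [Fintype ι] (net : Net ι d) (b u : ℕ → ι → ℝ) (x : ι) (n : ℕ),
      n * h ≤ ell k ^ 3 →
      (∀ j, j < n → QStep net β h k (b j) (u j) (u (j + 1))) →
      (∀ j, j < n → |b j x| ≤ 2 * h ^ (3 / 8 : ℝ)) →
      (∀ i j, i ≤ j → j ≤ n → |∑ l ∈ Finset.Ico i j, b l x| ≤ κ * ell k) →
      (∀ j, j ≤ n → u j x ≤ k ^ (-(1 / 8 : ℝ)) ∧ ∀ y ∈ net.nb x, u j y ≤ k ^ (-(1 / 8 : ℝ))) →
      ∀ j0, j0 ≤ n → k ^ κ ≤ u j0 x → k ^ (3 * κ) ≤ u n x)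
    (hrg : ∀ (L : ℕ) (h κ ρ A : ℝ), 0 < h → 0 ≤ ρ → ρ ≤ 3 / 4 → 0 ≤ A →
      ∀ (b D : ℕ → boxS d L → ℝ) (n : ℕ), n * h ≤ ell k ^ 3 →
      (∀ j, DStep (boxNet d L) h k (b j) (D j) (D (j + 1))) →
      ∀ (x : boxS d L), Reg2 κ (fun j y => b j y / ell k) n x →
      ∀ H : boxS d L → ℝ, (∀ v, ∀ y ∈ (boxNet d L).nb v, H y ≤ H v + ρ) →
      (∀ v, D 0 v ≤ A * Real.exp (ell k * H v)) →
      ∀ j, j ≤ n → ∀ v, D j v ≤
        2 * A * Real.exp (ell k * (κ * (1 + (boxNet d L).dist x v) + H v)))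
    (H : boxS d L → ℝ) (hH : ∀ v, ∀ y ∈ (boxNet d L).nb v, H y ≤ H v + 3 / 4)
    (hH1 : ∀ v, (boxNet d L).dist x v ≤ 1 → H v ≤ 1 / 16) (hsz : ∀ v, ‖G v‖ ≤ k ^ (-(H v)))
    (hgd : ∀ j, j < n → ∀ y, ω j y ∈ gdC h)
    (hR : Reg2 κ (gz k h ω) n x) (j0 : ℕ) (hj0 : j0 ≤ n)
    (hbig : k ^ κ ≤ ‖traj (st2 d β k h L) G ω j0 x‖) :
    k ^ (3 * κ) ≤ ‖traj (st2 d β k h L) G ω n x‖ := by
  have hl := WL2_ell_pos hk hk1
  have hgrow := hrg L h κ (3 / 4) 1 hh (by norm_num) le_rfl zero_le_one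
    (fun j y => bC h (ω j y))
    (fun j => nrm (traj (st2 d β k h L) G ω j)) n hn
    (fun j => ⟨fun y => norm_nonneg _, fun y => norm_nonneg _,
      fun y => (PS2 d β k hβ hk.le).u1 h L
        (traj (st2 d β k h L) G ω j, traj (st2 d β k h L) G ω j) (ω j) hh y⟩) x hR
    H hH
    (by
      intro v
      rw [one_mul]
      have h1 := hsz v
      rw [WL2_rp hk] at h1
      refine le_trans h1 (Real.exp_le_exp.mpr (le_of_eq ?_))
      ring)
  have hsmall : ∀ j, j ≤ n → ∀ v, (boxNet d L).dist x v ≤ 1 →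
      nrm (traj (st2 d β k h L) G ω j) v ≤ k ^ (-(1 / 8 : ℝ)) := by
    intro j hj v hv
    have h1 := hgrow j hj v
    have hv' : ((boxNet d L).dist x v : ℝ) ≤ 1 := by exact_mod_cast hv
    refine h1.trans ?_
    rw [WL2_rp hk, mul_one]
    have h2 : Real.exp (ell k * (κ * (1 + ((boxNet d L).dist x v : ℝ)) + H v)) ≤
        Real.exp (3 * ell k / 32) := by
      refine Real.exp_le_exp.mpr ?_
      have h3 : κ * (1 + ((boxNet d L).dist x v : ℝ)) + H v ≤ 3 / 32 := by
        have h3' := hH1 v hv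
        nlinarith
      have h4 := mul_le_mul_of_nonneg_left h3 hl.le
      linarith
    have h5 : Real.exp (-(-(1 / 8 : ℝ) * ell k)) =
        Real.exp (ell k / 32) * Real.exp (3 * ell k / 32) := by
      rw [← Real.exp_add]
      congr 1
      ring
    rw [h5]
    exact mul_le_mul hK h2 (Real.exp_pos _).le (Real.exp_pos _).le
  refine hq2 (boxS d L) (boxNet d L) (fun j y => bC h (ω j y))
    (fun j => nrm (traj (st2 d β k h L) G ω j)) x n hn ?_ ?_ ?_ ?_ j0 hj0 hbig
  · intro j hj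
    exact (PS2 d β k hβ hk.le).q1 h L
      (traj (st2 d β k h L) G ω j, traj (st2 d β k h L) G ω j) (ω j) hh (hgd j hj)
  · intro j hj
    exact bnoise2.bdd h hh hh1 (ω j x) (hgd j hj x)
  · intro i j hij hj
    have h1 := hR.2 i j hij hj
    have h2 : ∑ l ∈ Finset.Ico i j, bC h (ω l x) =
        ell k * ∑ l ∈ Finset.Ico i j, gz k h ω l x := by
      rw [Finset.mul_sum]
      refine Finset.sum_congr rfl fun l _ => ?_
      unfold gz bC
      field_simp
    show |∑ l ∈ Finset.Ico i j, bC h (ω l x)| ≤ κ * ell k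
    rw [h2, abs_mul, abs_of_pos hl, mul_comm]
    exact mul_le_mul_of_nonneg_right h1 hl.le
  · intro j hj
    refine ⟨hsmall j hj x ?_, ?_⟩
    · rw [(boxNet d L).dist_self]
      norm_num
    · intro y hy
      exact hsmall j hj y ((boxNet d L).dist_nb x y hy).le

theorem wl2 (d : ℕ) (β : ℝ) (hβ : 0 < β) (m0 : ℕ) (κ : ℝ) (hκ : 0 < κ) (hκ1 : κ ≤ 1 / 64)
    (ε : ℝ) (hε : 0 < ε) : ∃ ε0 c k0 : ℝ, 0 < ε0 ∧ 0 < c ∧ 0 < k0 ∧ k0 < 1 ∧
    ∀ k, 0 < k → k < k0 → ∀ L : ℕ, ∃ h0 : ℝ, 0 < h0 ∧ ∀ h, 0 < h → h < h0 →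
    ∀ (G : boxS d L → ℂ) (z x : boxS d L), (boxNet d L).dist x z ≤ m0 →
    (∀ v, ‖G v‖ * k ^ (boxNet d L).dist x v ≤ ‖G z‖ * k ^ (boxNet d L).dist x z) →
    ‖G z‖ ≤ k ^ (-ε0) →
    ∀ H : boxS d L → ℝ, (∀ v, ∀ y ∈ (boxNet d L).nb v, H y ≤ H v + 3 / 4) →
    (∀ v, (boxNet d L).dist x v ≤ 1 → H v ≤ 1 / 16) → (∀ v, ‖G v‖ ≤ k ^ (-(H v))) →
    ∀ n : ℕ, 1 ≤ n * h → n * h ≤ ell k ^ 3 →
      PI (Measure.pi fun _ : boxS d L => gC) {ω | Reg2 κ (gz k h ω) n x ∧
          ‖traj (st2 d β k h L) G ω n x‖ < min (k ^ (3 * κ))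
            (k ^ (ε + (boxNet d L).dist x z) *
              Real.exp (ell k * ∑ j ∈ Finset.range n, gz k h ω j x) * ‖G z‖)}
        ≤ ENNReal.ofReal (k ^ c) := by
  obtain ⟨e1, he1, H1⟩ := ol2 d β hβ
  set e : ℝ := min e1 (ε / 8) with he
  have he0 : 0 < e := lt_min he1 (by linarith)
  have hee1 : e ≤ e1 := min_le_left _ _
  have heε : e ≤ ε / 8 := min_le_right _ _
  obtain ⟨ka, hka, hka1, H2⟩ := H1 e he0 hee1 κ hκ (by linarith)
  set e' : ℝ := e / 32 * min 1 (1 / β) with he'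
  have hmin : 0 < min 1 (1 / β) := lt_min one_pos (by positivity)
  have he'0 : 0 < e' := by positivity
  have he'e : e' ≤ e / 32 := by
    have h1 : min 1 (1 / β) ≤ 1 := min_le_left _ _
    have h2 : 0 ≤ e / 32 := by positivity
    nlinarith
  have he'β : e' ≤ e / (32 * β) := by
    have h1 : min 1 (1 / β) ≤ 1 / β := min_le_right _ _
    have h2 : e / 32 * min 1 (1 / β) ≤ e / 32 * (1 / β) :=
      mul_le_mul_of_nonneg_left h1 (by positivity)
    have h3 : e / 32 * (1 / β) = e / (32 * β) := by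
      field_simp
    rw [← h3]
    exact h2
  obtain ⟨εc, cc, kb, hεc, hcc, hkb, hkb1, H3⟩ := catch_up MN2 d β hβ m0 e' he'0
  obtain ⟨kc, hkc, hkc1, H4⟩ := q2_low d β κ hβ hκ (by linarith)
  obtain ⟨kd, hkd, hkd1, H5⟩ := reg2_growth d
  obtain ⟨hT, hT0, H6⟩ := bnoise2.tail
  set ε0 : ℝ := min εc (e / (8 * β)) with hε0d
  have hε0 : 0 < ε0 := by positivity
  have hεc' : ε0 ≤ εc := min_le_left _ _
  have hεβ : ε0 ≤ e / (8 * β) := min_le_right _ _
  set c : ℝ := min cc (e / 100) / 2 with hc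
  have hc0 : 0 < c := by positivity
  have hc1 : 2 * c ≤ cc := by
    have h1 : min cc (e / 100) ≤ cc := min_le_left _ _
    linarith
  have hc2 : 2 * c ≤ e / 100 := by
    have h1 : min cc (e / 100) ≤ e / 100 := min_le_right _ _
    linarith
  obtain ⟨kf, hkf, hkf1, H7⟩ := WL2_small cc (e / 100) c e ε hc0 hc1 hc2 he0 hε
  refine ⟨ε0, c, min ka (min kb (min kc (min kd kf))), hε0, hc0, by positivity,
    (min_le_left _ _).trans_lt hka1, ?_⟩
  intro k hk hkk L
  have hkka : k < ka := hkk.trans_le (min_le_left _ _)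
  have hkkb : k < kb := hkk.trans_le ((min_le_right _ _).trans (min_le_left _ _))
  have hkkc : k < kc :=
    hkk.trans_le ((min_le_right _ _).trans ((min_le_right _ _).trans (min_le_left _ _)))
  have hkkd : k < kd := hkk.trans_le ((min_le_right _ _).trans ((min_le_right _ _).trans
    ((min_le_right _ _).trans (min_le_left _ _))))
  have hkkf : k < kf := hkk.trans_le ((min_le_right _ _).trans ((min_le_right _ _).trans
    ((min_le_right _ _).trans (min_le_right _ _))))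
  have hk1 : k < 1 := hkka.trans hka1
  have hl := WL2_ell_pos hk hk1
  obtain ⟨ha, hha, H2'⟩ := H2 k hk hkka
  obtain ⟨hb, hhb, H3'⟩ := H3 k hk hkkb
  obtain ⟨hq, hhq, H4'⟩ := H4 k hk hkkc
  have H5' := H5 k hk hkkd
  obtain ⟨S1, S2, S3, S4, S5⟩ := H7 k hk hkkf
  have hkc0 : 0 < k ^ c := Real.rpow_pos_of_pos hk _
  have hcard : (0 : ℝ) ≤ (Fintype.card (boxS d L) : ℝ) * ell k ^ 3 := by positivity
  refine ⟨min ha (min hb (min hq (min hT (min (1 / 4)
    (k ^ c / (4 * ((Fintype.card (boxS d L) : ℝ) * ell k ^ 3 + 1))))))), by positivity, ?_⟩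
  intro h hh hhh G z x hxz hmax hGz H hH hH1 hsize n hn1 hn2
  have hh_a : h < ha := hhh.trans_le (min_le_left _ _)
  have hh_b : h < hb := hhh.trans_le ((min_le_right _ _).trans (min_le_left _ _))
  have hh_q : h < hq :=
    hhh.trans_le ((min_le_right _ _).trans ((min_le_right _ _).trans (min_le_left _ _)))
  have hh_T : h < hT := hhh.trans_le ((min_le_right _ _).trans ((min_le_right _ _).trans
    ((min_le_right _ _).trans (min_le_left _ _))))
  have hh_4 : h < 1 / 4 := hhh.trans_le ((min_le_right _ _).trans ((min_le_right _ _).trans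
    ((min_le_right _ _).trans ((min_le_right _ _).trans (min_le_left _ _)))))
  have hh_c : h < k ^ c / (4 * ((Fintype.card (boxS d L) : ℝ) * ell k ^ 3 + 1)) :=
    hhh.trans_le ((min_le_right _ _).trans ((min_le_right _ _).trans
    ((min_le_right _ _).trans ((min_le_right _ _).trans (min_le_right _ _)))))
  have hh1 : h < 1 := by linarith
  have hH2 := H2' h hh hh_a L
  have hH4 := H4' h hh hh_q
  obtain ⟨N, hN, hH3⟩ := H3' h hh hh_b ((boxNet d L).dist x z) hxz
  -- trivial case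
  rcases eq_or_lt_of_le (norm_nonneg (G z)) with hz0 | hz0
  · have h1 : {ω | Reg2 κ (gz k h ω) n x ∧
          ‖traj (st2 d β k h L) G ω n x‖ < min (k ^ (3 * κ))
            (k ^ (ε + (boxNet d L).dist x z) *
              Real.exp (ell k * ∑ j ∈ Finset.range n, gz k h ω j x) * ‖G z‖)} = ∅ := by
      ext ω
      simp only [Set.mem_setOf_eq, Set.mem_empty_iff_false, iff_false, not_and, not_lt]
      intro _
      rw [← hz0, mul_zero]
      exact (min_le_right _ _).trans (norm_nonneg _)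
    rw [h1, measure_empty]
    exact zero_le
  -- number of steps
  have hNh : (N : ℝ) * h ≤ 1 / 4 + 1 / 4 := by
    have h1 : 0 < k ^ e := Real.rpow_pos_of_pos hk _
    linarith
  have hNn : N ≤ n := by
    have h1 : (N : ℝ) * h ≤ n * h := by linarith
    exact_mod_cast le_of_mul_le_mul_right h1 hh
  obtain ⟨n', rfl⟩ : ∃ n', n = N + n' := ⟨n - N, by omega⟩
  have hn1' : k ^ e + h ≤ n' * h := by
    push_cast at hn1
    have h2 : (N : ℝ) * h ≤ k ^ cc := hN
    nlinarith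
  have hn2' : (n' : ℝ) * h ≤ ell k ^ 3 := by
    push_cast at hn2
    have h1 : 0 ≤ (N : ℝ) * h := by positivity
    nlinarith
  have hceil : ⌈k ^ e / h⌉₊ ≤ n' := by
    refine Nat.ceil_le.mpr ?_
    rw [div_le_iff₀ hh]
    linarith
  have hmm : ((boxNet d L).dist x z : ℝ) ≤ m0 := by exact_mod_cast hxz
  have hm00 : (0 : ℝ) ≤ ((boxNet d L).dist x z : ℝ) := Nat.cast_nonneg _
  -- the first bad event
  have B1 : PI (Measure.pi fun _ : boxS d L => gC)
      {ω | ‖traj (st2 d β k h L) G ω N x‖ < k ^ (((boxNet d L).dist x z : ℝ) + e') * ‖G z‖ ∨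
        ∃ v, k ^ (((boxNet d L).dist x z : ℝ) - (1 + e') * (boxNet d L).dist x v - e') * ‖G z‖ <
          ‖traj (st2 d β k h L) G ω N v‖} ≤ ENNReal.ofReal (k ^ cc) := by
    have h1 := hH3 L G z x rfl hmax (hGz.trans (Real.rpow_le_rpow_of_exponent_ge hk hk1.le
      (by linarith)))
    rw [st2_eq]
    exact h1
  -- the second bad event
  have B2 := WL2_osc d L k h hk hk1 hh N x (ε / 4) (by positivity) (k ^ cc)
    (Real.rpow_pos_of_pos hk _) hN
  -- the third bad event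
  have B3 := WL2_bad d L h (N + n') hh (H6 h hh hh_T)
  have B3' : ((N + n' : ℕ) : ℝ) * Fintype.card (boxS d L) * h ^ 3 ≤ k ^ c / 4 := by
    have h1 : ((N + n' : ℕ) : ℝ) * h ≤ ell k ^ 3 := hn2
    have h2 : ((N + n' : ℕ) : ℝ) * Fintype.card (boxS d L) * h ^ 3 =
        (Fintype.card (boxS d L) : ℝ) * (((N + n' : ℕ) : ℝ) * h) * h ^ 2 := by ring
    have h3 : (Fintype.card (boxS d L) : ℝ) * (((N + n' : ℕ) : ℝ) * h) ≤
        (Fintype.card (boxS d L) : ℝ) * ell k ^ 3 :=
      mul_le_mul_of_nonneg_left h1 (Nat.cast_nonneg _)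
    have h4 : h ^ 2 ≤ h := by nlinarith
    have h5 : ((Fintype.card (boxS d L) : ℝ) * ell k ^ 3 + 1) * h ≤ k ^ c / 4 := by
      rw [lt_div_iff₀ (by positivity)] at hh_c
      linarith
    rw [h2]
    calc (Fintype.card (boxS d L) : ℝ) * (((N + n' : ℕ) : ℝ) * h) * h ^ 2
        ≤ ((Fintype.card (boxS d L) : ℝ) * ell k ^ 3) * h ^ 2 :=
          mul_le_mul_of_nonneg_right h3 (by positivity)
      _ ≤ ((Fintype.card (boxS d L) : ℝ) * ell k ^ 3) * h :=
          mul_le_mul_of_nonneg_left h4 hcard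
      _ ≤ ((Fintype.card (boxS d L) : ℝ) * ell k ^ 3 + 1) * h := by
          nlinarith
      _ ≤ k ^ c / 4 := h5
  -- the main event
  set S : Set ((boxS d L → ℂ) × (ℕ → boxS d L → ℂ)) := {q |
    (k ^ (((boxNet d L).dist x z : ℝ) + e') * ‖G z‖ ≤ ‖q.1 x‖ ∧
      ∀ v, ‖q.1 v‖ ≤
        k ^ (((boxNet d L).dist x z : ℝ) - (1 + e') * (boxNet d L).dist x v - e') * ‖G z‖) ∧
    Reg2 κ (gz k h q.2) n' x ∧
      (∀ j, ⌈k ^ e / h⌉₊ ≤ j → j ≤ n' → ‖traj (st2 d β k h L) q.1 q.2 j x‖ < k ^ κ) ∧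
      ‖traj (st2 d β k h L) q.1 q.2 n' x‖ <
        k ^ (2 * e) * Real.exp (ell k * ∑ j ∈ Finset.range n', gz k h q.2 j x) * ‖q.1 x‖} with hSd
  have hmt : ∀ j, Measurable fun q : (boxS d L → ℂ) × (ℕ → boxS d L → ℂ) =>
      ‖traj (st2 d β k h L) q.1 q.2 j x‖ := fun j =>
    ((measurable_pi_apply x).comp
      (measurable_traj (st2 d β k h L) (measurable_st2 d β k h L) j)).norm
  have hmg : Measurable fun ω : ℕ → boxS d L → ℂ => gz k h ω := by
    refine measurable_pi_iff.mpr fun j => measurable_pi_iff.mpr fun y => ?_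
    unfold gz
    exact ((Complex.measurable_re.comp ((measurable_pi_apply y).comp
      (measurable_pi_apply j))).const_mul _).div_const _
  have hS : MeasurableSet S := by
    refine MeasurableSet.inter (MeasurableSet.inter ?_ ?_) (MeasurableSet.inter ?_
      (MeasurableSet.inter ?_ ?_))
    · exact measurableSet_le measurable_const
        ((measurable_pi_apply x).comp measurable_fst).norm
    · have h1 : {q : (boxS d L → ℂ) × (ℕ → boxS d L → ℂ) | ∀ v, ‖q.1 v‖ ≤
          k ^ (((boxNet d L).dist x z : ℝ) - (1 + e') * (boxNet d L).dist x v - e') * ‖G z‖} =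
          ⋂ v, {q | ‖q.1 v‖ ≤
          k ^ (((boxNet d L).dist x z : ℝ) - (1 + e') * (boxNet d L).dist x v - e') * ‖G z‖} := by
        ext q
        simp
      refine (congrArg MeasurableSet h1).mpr ?_
      exact MeasurableSet.iInter fun v => measurableSet_le
        ((measurable_pi_apply v).comp measurable_fst).norm measurable_const
    · exact (hmg.comp measurable_snd) (measurableSet_Reg2 κ n' x)
    · have h1 : {q : (boxS d L → ℂ) × (ℕ → boxS d L → ℂ) |
          ∀ j, ⌈k ^ e / h⌉₊ ≤ j → j ≤ n' → ‖traj (st2 d β k h L) q.1 q.2 j x‖ < k ^ κ} =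
          ⋂ j, ⋂ (_ : ⌈k ^ e / h⌉₊ ≤ j), ⋂ (_ : j ≤ n'),
            {q | ‖traj (st2 d β k h L) q.1 q.2 j x‖ < k ^ κ} := by
        ext q
        simp
      refine (congrArg MeasurableSet h1).mpr ?_
      exact MeasurableSet.iInter fun j => MeasurableSet.iInter fun _ =>
        MeasurableSet.iInter fun _ => measurableSet_lt (hmt j) measurable_const
    · refine measurableSet_lt (hmt n') (Measurable.mul (Measurable.const_mul ?_ _)
        ((measurable_pi_apply x).comp measurable_fst).norm)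
      refine Real.measurable_exp.comp (Measurable.const_mul ?_ _)
      exact Finset.measurable_sum _ fun j _ =>
        (measurable_pi_apply x).comp ((measurable_pi_apply j).comp (hmg.comp measurable_snd))
  have B4 : PI (Measure.pi fun _ : boxS d L => gC)
      {ω | (traj (st2 d β k h L) G ω N, fun j => ω (N + j)) ∈ S} ≤
      ENNReal.ofReal (k ^ (e / 100)) := by
    refine WL2_markov _ (st2 d β k h L) (measurable_st2 d β k h L) G N S hS _ (fun s' => ?_)
    by_cases hP : k ^ (((boxNet d L).dist x z : ℝ) + e') * ‖G z‖ ≤ ‖s' x‖ ∧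
      ∀ v, ‖s' v‖ ≤
        k ^ (((boxNet d L).dist x z : ℝ) - (1 + e') * (boxNet d L).dist x v - e') * ‖G z‖
    · obtain ⟨hP1, hP2⟩ := hP
      have g1 : ∀ v, ‖s' v‖ ≤
          k ^ (-(e / 4) - (1 + e / 16) * (boxNet d L).dist v x) * ‖s' x‖ := by
        intro v
        refine (hP2 v).trans ?_
        have h1 : k ^ (((boxNet d L).dist x z : ℝ) - (1 + e') * (boxNet d L).dist x v - e') =
            k ^ (-(2 * e') - (1 + e') * (boxNet d L).dist x v) *
              k ^ (((boxNet d L).dist x z : ℝ) + e') := by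
          rw [← Real.rpow_add hk]
          congr 1
          ring
        rw [h1, mul_assoc]
        refine mul_le_mul ?_ hP1 (by positivity) (Real.rpow_pos_of_pos hk _).le
        refine Real.rpow_le_rpow_of_exponent_ge hk hk1.le ?_
        rw [(boxNet d L).dist_comm v x]
        have h2 : (0 : ℝ) ≤ (boxNet d L).dist x v := Nat.cast_nonneg _
        nlinarith
      have g2 : ‖s' x‖ ≤ k ^ (-(e / (4 * β))) := by
        refine (hP2 x).trans ?_
        rw [(boxNet d L).dist_self, Nat.cast_zero, mul_zero, sub_zero]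
        calc k ^ (((boxNet d L).dist x z : ℝ) - e') * ‖G z‖
            ≤ k ^ (-e') * k ^ (-ε0) := by
              refine mul_le_mul ?_ hGz (norm_nonneg _) (Real.rpow_pos_of_pos hk _).le
              exact Real.rpow_le_rpow_of_exponent_ge hk hk1.le (by linarith)
          _ = k ^ (-e' + -ε0) := by rw [← Real.rpow_add hk]
          _ ≤ k ^ (-(e / (4 * β))) := by
              refine Real.rpow_le_rpow_of_exponent_ge hk hk1.le ?_
              have h1 : e / (32 * β) + e / (8 * β) ≤ e / (4 * β) := by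
                have h2 : e / (4 * β) - (e / (32 * β) + e / (8 * β)) = 3 * e / (32 * β) := by
                  field_simp
                  ring
                have h3 : 0 < 3 * e / (32 * β) := by positivity
                linarith
              linarith
      refine (measure_mono ?_).trans (hH2 s' x g1 g2 n' hceil hn2')
      intro b hb
      exact hb.2
    · have h1 : {b : ℕ → boxS d L → ℂ | (s', b) ∈ S} = ∅ := by
        ext b
        simp only [Set.mem_setOf_eq, Set.mem_empty_iff_false, iff_false]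
        intro hb
        exact hP hb.1
      rw [h1, measure_empty]
      exact zero_le
  -- the inclusion
  have hinc : {ω | Reg2 κ (gz k h ω) (N + n') x ∧
          ‖traj (st2 d β k h L) G ω (N + n') x‖ < min (k ^ (3 * κ))
            (k ^ (ε + (boxNet d L).dist x z) *
              Real.exp (ell k * ∑ j ∈ Finset.range (N + n'), gz k h ω j x) * ‖G z‖)} ⊆
      ((({ω | ‖traj (st2 d β k h L) G ω N x‖ < k ^ (((boxNet d L).dist x z : ℝ) + e') * ‖G z‖ ∨
        ∃ v, k ^ (((boxNet d L).dist x z : ℝ) - (1 + e') * (boxNet d L).dist x v - e') * ‖G z‖ <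
          ‖traj (st2 d β k h L) G ω N v‖} ∪
      {ω | ε / 4 < |∑ j ∈ Finset.range N, gz k h ω j x|}) ∪
      {ω | ¬ ∀ j, j < N + n' → ∀ y, ω j y ∈ gdC h}) ∪
      {ω | (traj (st2 d β k h L) G ω N, fun j => ω (N + j)) ∈ S}) := by
    intro ω hω
    obtain ⟨hR, hlt⟩ := hω
    obtain ⟨hlt1, hlt2⟩ := lt_min_iff.mp hlt
    by_contra hcon
    simp only [Set.mem_union, not_or] at hcon
    obtain ⟨⟨⟨c1, c2⟩, c3⟩, c4⟩ := hcon
    simp only [Set.mem_setOf_eq, not_or, not_lt, not_exists, not_not] at c1 c2 c3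
    obtain ⟨c1a, c1b⟩ := c1
    refine c4 ⟨⟨c1a, c1b⟩, ?_, ?_, ?_⟩
    · have h1 := reg2_sub κ (gz k h ω) (N + n') N (by omega) x hR
      rw [Nat.add_sub_cancel_left] at h1
      exact h1
    · intro j hj1 hj2
      by_contra hge
      rw [not_lt] at hge
      have h1 : k ^ κ ≤ ‖traj (st2 d β k h L) G ω (N + j) x‖ := by
        rw [WL2_traj_add]
        exact hge
      have h2 := WL2_det d hβ hκ hκ1 hk hk1 hh hh1 L G x ω (N + n') hn2 S4 hH4 H5'
        H hH hH1 hsize c3 hR (N + j) (by omega) h1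
      linarith
    · show ‖traj (st2 d β k h L) (traj (st2 d β k h L) G ω N) (fun j => ω (N + j)) n' x‖ <
        k ^ (2 * e) * Real.exp (ell k * ∑ j ∈ Finset.range n', gz k h ω (N + j) x) *
          ‖traj (st2 d β k h L) G ω N x‖
      rw [← WL2_traj_add]
      refine hlt2.trans_le ?_
      rw [Finset.sum_range_add, mul_add, Real.exp_add]
      have h1 : k ^ (ε + ((boxNet d L).dist x z : ℝ)) *
          Real.exp (ell k * ∑ j ∈ Finset.range N, gz k h ω j x) ≤
          k ^ (2 * e) * k ^ (((boxNet d L).dist x z : ℝ) + e') := by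
        rw [WL2_rp hk, WL2_rp hk, WL2_rp hk, ← Real.exp_add, ← Real.exp_add]
        refine Real.exp_le_exp.mpr ?_
        have h2 : ∑ j ∈ Finset.range N, gz k h ω j x ≤ ε - 2 * e - e' := by
          have h3 := (le_abs_self _).trans c2
          linarith
        have h4 := mul_le_mul_of_nonneg_left h2 hl.le
        linarith
      calc k ^ (ε + ((boxNet d L).dist x z : ℝ)) *
            (Real.exp (ell k * ∑ j ∈ Finset.range N, gz k h ω j x) *
              Real.exp (ell k * ∑ j ∈ Finset.range n', gz k h ω (N + j) x)) * ‖G z‖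
          = (k ^ (ε + ((boxNet d L).dist x z : ℝ)) *
            Real.exp (ell k * ∑ j ∈ Finset.range N, gz k h ω j x)) *
              Real.exp (ell k * ∑ j ∈ Finset.range n', gz k h ω (N + j) x) * ‖G z‖ := by ring
        _ ≤ (k ^ (2 * e) * k ^ (((boxNet d L).dist x z : ℝ) + e')) *
              Real.exp (ell k * ∑ j ∈ Finset.range n', gz k h ω (N + j) x) * ‖G z‖ := by
            refine mul_le_mul_of_nonneg_right (mul_le_mul_of_nonneg_right h1
              (Real.exp_pos _).le) (norm_nonneg _)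
        _ = k ^ (2 * e) * Real.exp (ell k * ∑ j ∈ Finset.range n', gz k h ω (N + j) x) *
              (k ^ (((boxNet d L).dist x z : ℝ) + e') * ‖G z‖) := by ring
        _ ≤ _ := by
            refine mul_le_mul_of_nonneg_left c1a ?_
            exact mul_nonneg (Real.rpow_pos_of_pos hk _).le (Real.exp_pos _).le
  -- the sum
  refine (measure_mono hinc).trans ?_
  refine (measure_union_le _ _).trans ?_
  refine (add_le_add ((measure_union_le _ _).trans
    (add_le_add (measure_union_le _ _) le_rfl)) le_rfl).trans ?_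
  have q1 := B1.trans (ENNReal.ofReal_le_ofReal S1)
  have q2 := B2.trans (ENNReal.ofReal_le_ofReal S3)
  have q3 := B3.trans (ENNReal.ofReal_le_ofReal B3')
  have q4 := B4.trans (ENNReal.ofReal_le_ofReal S2)
  refine (add_le_add (add_le_add (add_le_add q1 q2) q3) q4).trans (le_of_eq ?_)
  rw [← ENNReal.ofReal_add (by positivity) (by positivity),
    ← ENNReal.ofReal_add (by positivity) (by positivity),
    ← ENNReal.ofReal_add (by positivity) (by positivity)]
  congr 1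
  ring

end DynC

end

/-! ### from `Lib_MP_36b788c.Cmp2` -/

section

/-!
# Comparison of the heights with the height model on a ball, `N = 2`

`hB k M' u y R`: heights `log u/ell` on the ball, cut at `-M'` and `0`.

PROOF.
* `gw_law`: `(gz k h ω)_j x = √h Re ω_j x/ell`; window sums are independent centered Gaussians with variance `nw h/ell²`: `re_map`, `PI_block`, restriction to the ball (`Measure.pi` marginal), sum of `nw` independent standard Gaussians times `√(h)/ell`.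
* `cmp2`: `g = gz k h ω`, `F = mf hB (gwin g)`, `M' = M + s0 R + 1`, `u_j = ‖G_j ·‖`. Constants in the order `M1, M2` (from `T, Rb, p`), `R0 ≥ Rb + (4/3)(M1 + M2 + M + s0 Rb + 8) + 4 M`, then `R`, `M3`, `σ0`, `κ = σ^{1/4}`, `J ≤ T/σ`, `ε = κc/(16(J+1))`, `m0`, `ε0`, `k0`.
E1: for some `x` with `dist y x ≤ Rb`: `lppM (1/8) 0 g (J nw) x > M1` on the box, or `lppM (1/8) 0 (gwin g) J x > M1` on the ball (`lpp_tail`, `gw_law`, `n v ≤ T + 2`), or a block sum of `g` at `x` over a subinterval of `[0, J nw)` is `> M2` (`osc_exp`): probability `≤ p/8`. E2: a block sum at some `x` of the ball of radius `R` is `> M3`: `≤ p/8`.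
E3: `Reg2 κ` fails for some window at some `x` of the ball: `≤ (2R+1)^d (T/σ + 1) C exp(-κ/√(2σ)) ≤ p/8` for `σ ≤ σ0`. E4: `Caps k u ε0 y` fails at some window end `i nw`, `1 ≤ i ≤ J` (`caps_prob` for `PS2`, pair `(G,0)`, `bnoise2`, `exit_bd`), or an exceptional event of `wl2`: `≤ C J k^c + … ≤ p/8`. Everything below is off `E1 … E4`.
Lower bound: for `i ≥ 1` and all `x` of the ball, `u_{i nw} x ≥ exp(ell(F i x - 3κ - iε))`. Induction: let `z'` maximize `u_{i nw} v k^{dist x v}` over the box. For `i ≥ 1` the value is `≥ exp(ell(RR (F i) x - 3κ - iε))`; for `i = 0` it is `≥ exp(ell RR (hB) x)` (sites of the ball with `u ≥ k^{M'}` are fine, `hB ≤ log u/ell` there; the others contribute `≤ -M' ≤ -(M + s0 R)`, and `LowR` gives at least `k^{M + s0 dist}`).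
The value is `≥ k^{M' + M3 + 4}` (`F i x ≥ -M' - M3`, `mf_stay` or `RR ≥ -M'` and the block sums), so with the caps `dist x z' ≤ 2(M' + M3 + 6) + 2R =: m0`. `wl2` with `κ`, `ε`, `H v = ε0(1+dist y v)`: `u_{(i+1)nw} x ≥ min(k^{3κ}, k^ε exp(ell g-window) value)`.
Upper bound for `dist y x ≤ Rb`: `upper_cmp` (`X = hB`, `εc = ε0(1+R)`; `E3` gives the block sums, `E4` the caps): `u_{i nw} x ≤ exp(ell(Fq i x + iε + εc)) + k^{-ε} exp(ell(M1 + 1 - (3/4)(R - Rb)))`. `F i x ≥ -(M + s0 Rb + 1) - M2` (`LowR` at `x`, the site `z` has `dist x z ≤ 2(M+s0 Rb)+2`, so it lies in the ball; `hB z - dist x z ≥ -(M + s0 Rb) - 1`; block sums `E1`), so the second term is `≤ exp(ell(F i x - 1))` by the choice of `R0`.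
`mfq_le` with `q = 1-4κ`: `Fq i x ≤ F i x + 8κ(M1 + M + s0 Rb + 1 + M2)`. For `σ ≤ σ0` all errors are `≤ κc/2`; a factor `2` is `≤ k^{-κc/2}`.
-/

open MeasureTheory ProbabilityTheory
open scoped ENNReal

namespace DynC

open Dyn

/-- heights on a ball, cut at `-M'` and `0` -/
noncomputable def hB {d L : ℕ} (k M' : ℝ) (u : boxS d L → ℝ) (y : boxS d L) (R : ℕ) :
    Bl d L y R → ℝ :=
  fun x => min 0 (max (-M') (if u x.1 ≤ 0 then -M' else Real.log (u x.1) / ell k))

/-- law of a product of sums -/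
private theorem Cmp2_conv (S : Type) [Fintype S] (m n : NNReal) :
    ((Measure.pi fun _ : S => gaussianReal 0 m).prod
      (Measure.pi fun _ : S => gaussianReal 0 n)).map (fun p x => p.1 x + p.2 x) =
      Measure.pi fun _ : S => gaussianReal 0 (m + n) := by
  have h1 := (measurePreserving_arrowProdEquivProdArrow ℝ ℝ S
    (fun _ => gaussianReal 0 m) (fun _ => gaussianReal 0 n)).map_eq
  have hm1 : Measurable (MeasurableEquiv.arrowProdEquivProdArrow ℝ ℝ S) :=
    (MeasurableEquiv.arrowProdEquivProdArrow ℝ ℝ S).measurable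
  have hm2 : Measurable (fun (p : (S → ℝ) × (S → ℝ)) (x : S) => p.1 x + p.2 x) := by
    refine measurable_pi_lambda _ fun x => ?_
    exact ((measurable_pi_apply x).comp measurable_fst).add
      ((measurable_pi_apply x).comp measurable_snd)
  rw [← h1, Measure.map_map hm2 hm1]
  have h2 : ((fun (p : (S → ℝ) × (S → ℝ)) (x : S) => p.1 x + p.2 x) ∘
      (MeasurableEquiv.arrowProdEquivProdArrow ℝ ℝ S)) =
      fun (a : S → ℝ × ℝ) (x : S) => (fun q : ℝ × ℝ => q.1 + q.2) (a x) := rfl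
  rw [h2]
  have hadd : Measurable fun q : ℝ × ℝ => q.1 + q.2 := measurable_fst.add measurable_snd
  have h3 : ((gaussianReal 0 m).prod (gaussianReal 0 n)).map (fun q : ℝ × ℝ => q.1 + q.2) =
      gaussianReal 0 (m + n) := by
    have h4 := gaussianReal_conv_gaussianReal (m₁ := 0) (m₂ := 0) (v₁ := m) (v₂ := n)
    rw [add_zero] at h4
    exact h4
  haveI : IsProbabilityMeasure (((gaussianReal 0 m).prod (gaussianReal 0 n)).map
      (fun q : ℝ × ℝ => q.1 + q.2)) := by
    rw [h3]; infer_instance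
  rw [Measure.pi_map_pi (f := fun (_ : S) (q : ℝ × ℝ) => q.1 + q.2)
    (fun _ => hadd.aemeasurable)]
  simp only [h3]

/-- law of a sum of the first `m` variables -/
private theorem Cmp2_sum (S : Type) [Fintype S] (m : ℕ) (hm : 1 ≤ m) :
    (PI (nz S)).map (fun (a : ℕ → S → ℝ) (x : S) => ∑ l ∈ Finset.range m, a l x) =
      Measure.pi fun _ : S => gaussianReal 0 (m : NNReal) := by
  induction m, hm using Nat.le_induction with
  | base =>
    have h1 : (fun (a : ℕ → S → ℝ) (x : S) => ∑ l ∈ Finset.range 1, a l x) = fun a => a 0 := by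
      funext a x
      simp
    rw [h1, map_coord]
    unfold nz
    simp
  | succ m hm ih =>
    have hS : Measurable (fun (a : ℕ → S → ℝ) (x : S) => ∑ l ∈ Finset.range m, a l x) := by
      refine measurable_pi_lambda _ fun x => ?_
      exact Finset.measurable_fun_sum _ fun l _ =>
        (measurable_pi_apply x).comp (measurable_pi_apply l)
    have hS1 : Measurable (fun (a : ℕ → S → ℝ) (x : S) => ∑ l ∈ Finset.range (m + 1), a l x) := by
      refine measurable_pi_lambda _ fun x => ?_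
      exact Finset.measurable_fun_sum _ fun l _ =>
        (measurable_pi_apply x).comp (measurable_pi_apply l)
    have h0 : Measurable (fun a : ℕ → S → ℝ => a 0) := measurable_pi_apply 0
    have hadd : Measurable (fun (p : (S → ℝ) × (S → ℝ)) (x : S) => p.1 x + p.2 x) := by
      refine measurable_pi_lambda _ fun x => ?_
      exact ((measurable_pi_apply x).comp measurable_fst).add
        ((measurable_pi_apply x).comp measurable_snd)
    have h1 := map_glue (μ := nz S) m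
    have h2 : (PI (nz S)).map (fun (a : ℕ → S → ℝ) (x : S) => ∑ l ∈ Finset.range (m + 1), a l x) =
        ((PI (nz S)).prod (PI (nz S))).map (fun p => fun x =>
          (∑ l ∈ Finset.range m, p.1 l x) + p.2 0 x) := by
      conv_lhs => rw [← h1]
      rw [Measure.map_map hS1 (measurable_glue m)]
      congr 1
      funext p x
      simp only [Function.comp_apply]
      rw [Finset.sum_range_succ]
      congr 1
      · refine Finset.sum_congr rfl fun l hl => ?_
        unfold glue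
        rw [if_pos (Finset.mem_range.mp hl)]
      · unfold glue
        rw [if_neg (lt_irrefl m), Nat.sub_self]
    have h3 : (fun p : (ℕ → S → ℝ) × (ℕ → S → ℝ) => fun x =>
          (∑ l ∈ Finset.range m, p.1 l x) + p.2 0 x) =
        (fun (p : (S → ℝ) × (S → ℝ)) (x : S) => p.1 x + p.2 x) ∘
          (Prod.map (fun (a : ℕ → S → ℝ) (x : S) => ∑ l ∈ Finset.range m, a l x)
            (fun a : ℕ → S → ℝ => a 0)) := by
      funext p x
      rfl
    rw [h2, h3, ← Measure.map_map hadd (hS.prodMap h0)]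
    rw [← Measure.map_prod_map _ _ hS h0, ih, map_coord]
    have h4 : nz S = Measure.pi fun _ : S => gaussianReal 0 (1 : NNReal) := rfl
    rw [h4, Cmp2_conv]
    push_cast
    rfl

/-- scaled window sums -/
private theorem Cmp2_win (S : Type) [Fintype S] (v : ℝ) (hv : 0 ≤ v) (m : ℕ) (hm : 1 ≤ m) :
    (PI (nz S)).map (fun (a : ℕ → S → ℝ) (x : S) => ∑ l ∈ Finset.range m, Real.sqrt v * a l x) =
      (nz S).map (fun (a : S → ℝ) (x : S) => Real.sqrt (m * v) * a x) := by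
  have hS : Measurable (fun (a : ℕ → S → ℝ) (x : S) => ∑ l ∈ Finset.range m, a l x) := by
    refine measurable_pi_lambda _ fun x => ?_
    exact Finset.measurable_fun_sum _ fun l _ =>
      (measurable_pi_apply x).comp (measurable_pi_apply l)
  have hsc : ∀ c : ℝ, Measurable (fun (a : S → ℝ) (x : S) => c * a x) := fun c =>
    measurable_pi_lambda _ fun x =>
      Measurable.const_mul (f := fun a : S → ℝ => a x) (measurable_pi_apply x) c
  have h1 : (fun (a : ℕ → S → ℝ) (x : S) => ∑ l ∈ Finset.range m, Real.sqrt v * a l x) =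
      (fun (a : S → ℝ) (x : S) => Real.sqrt v * a x) ∘
        (fun (a : ℕ → S → ℝ) (x : S) => ∑ l ∈ Finset.range m, a l x) := by
    funext a x
    simp only [Function.comp_apply]
    rw [Finset.mul_sum]
  rw [h1, ← Measure.map_map (hsc _) hS, Cmp2_sum S m hm]
  unfold nz
  rw [Measure.pi_map_pi (f := fun (_ : S) (q : ℝ) => Real.sqrt v * q)
    (fun _ => (measurable_id.const_mul _).aemeasurable)]
  rw [Measure.pi_map_pi (f := fun (_ : S) (q : ℝ) => Real.sqrt (m * v) * q)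
    (fun _ => (measurable_id.const_mul _).aemeasurable)]
  congr 1
  funext x
  rw [gaussianReal_map_const_mul, gaussianReal_map_const_mul]
  rw [mul_zero, mul_zero]
  congr 1
  apply NNReal.eq
  push_cast
  rw [Real.sq_sqrt hv, Real.sq_sqrt (by positivity)]
  ring

/-- restriction to the ball -/
private theorem Cmp2_restr (S : Type) [Fintype S] (p : S → Prop) [Fintype {x // p x}] :
    (nz S).map (fun (a : S → ℝ) (x : {x // p x}) => a x.1) = nz {x // p x} := by
  unfold nz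
  rw [← Measure.infinitePi_eq_pi, ← Measure.infinitePi_eq_pi]
  exact Measure.infinitePi_map_restrict' (μ := fun _ : S => gaussianReal 0 1) (I := {x | p x})

private theorem Cmp2_PI_map {X Y : Type} [MeasurableSpace X] [MeasurableSpace Y] (μ : Measure X)
    [IsProbabilityMeasure μ] (ν : Measure Y) [IsProbabilityMeasure ν] (φ : X → Y)
    (hφ : Measurable φ) (h : μ.map φ = ν) : (PI μ).map (fun ω i => φ (ω i)) = PI ν := by
  subst h
  exact PI_map φ hφ

private theorem Cmp2_PI_block {X Y : Type} [MeasurableSpace X] [MeasurableSpace Y] (μ : Measure X)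
    [IsProbabilityMeasure μ] (ν : Measure Y) [IsProbabilityMeasure ν] (m : ℕ) (hm : 0 < m)
    (φ : (ℕ → X) → Y) (hφ : Measurable φ) (hd : Dep m φ) (h : (PI μ).map φ = ν) :
    (PI μ).map (fun ω i => φ (fun j => ω (m * i + j))) = PI ν := by
  subst h
  exact PI_block m hm φ hφ hd

/-- law of the window sums -/
theorem gw_law (d L : ℕ) (k h : ℝ) (hk : 0 < k) (hk1 : k < 1) (hh : 0 < h) (nw : ℕ) (hn : 1 ≤ nw)
    (y : boxS d L) (R : ℕ) (E : Set (ℕ → Bl d L y R → ℝ)) (hE : MeasurableSet E) :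
    PI (Measure.pi fun _ : boxS d L => gC) {ω | gwin y R (gz k h ω) nw ∈ E} =
      PI (nz (Bl d L y R)) {ω | sc (nw * h / ell k ^ 2) ω ∈ E} := by
  have hgm : Measurable (fun g : ℕ → boxS d L → ℝ => gwin y R g nw) := by
    refine measurable_pi_lambda _ fun i => measurable_pi_lambda _ fun x => ?_
    unfold gwin
    exact Finset.measurable_fun_sum _ fun l _ =>
      (measurable_pi_apply x.1).comp (measurable_pi_apply _)
  have hE' : MeasurableSet {g : ℕ → boxS d L → ℝ | gwin y R g nw ∈ E} := hgm hE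
  have h1 := re_law d L k h hk hk1 hh _ hE'
  have h2 : PI (Measure.pi fun _ : boxS d L => gC) {ω | gwin y R (gz k h ω) nw ∈ E} =
      PI (nz (boxS d L)) {ω | gwin y R (sc (h / ell k ^ 2) ω) nw ∈ E} := h1
  rw [h2]
  set v : ℝ := h / ell k ^ 2 with hv
  have hv0 : 0 ≤ v := by positivity
  -- restriction
  have hres : Measurable (fun (a : boxS d L → ℝ) (x : Bl d L y R) => a x.1) :=
    measurable_pi_lambda _ fun x => measurable_pi_apply _
  have h3 := Cmp2_PI_map (nz (boxS d L)) (nz (Bl d L y R))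
    (fun (a : boxS d L → ℝ) (x : Bl d L y R) => a x.1) hres (Cmp2_restr (boxS d L) _)
  have hresω : Measurable (fun (ω : ℕ → boxS d L → ℝ) (i : ℕ) (x : Bl d L y R) => ω i x.1) :=
    measurable_pi_lambda _ fun i => measurable_pi_lambda _ fun x =>
      (measurable_pi_apply x.1).comp (measurable_pi_apply i)
  set φ : (ℕ → Bl d L y R → ℝ) → (Bl d L y R → ℝ) :=
    fun a x => ∑ l ∈ Finset.range nw, Real.sqrt v * a l x with hφd
  have hφ : Measurable φ := by
    refine measurable_pi_lambda _ fun x => ?_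
    exact Finset.measurable_fun_sum _ fun l _ => Measurable.const_mul
      (f := fun a : ℕ → Bl d L y R → ℝ => a l x)
      ((measurable_pi_apply x).comp (measurable_pi_apply l)) _
  have hdep : Dep nw φ := by
    intro a b hab
    funext x
    refine Finset.sum_congr rfl fun l hl => ?_
    rw [hab l (Finset.mem_range.mp hl)]
  set ψ : (Bl d L y R → ℝ) → (Bl d L y R → ℝ) := fun a x => Real.sqrt (nw * v) * a x with hψd
  have hψ : Measurable ψ := measurable_pi_lambda _ fun x =>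
    Measurable.const_mul (f := fun a : Bl d L y R → ℝ => a x) (measurable_pi_apply x) _
  haveI hpm : IsProbabilityMeasure ((nz (Bl d L y R)).map ψ) :=
    Measure.isProbabilityMeasure_map hψ.aemeasurable
  have h4 := Cmp2_PI_block (nz (Bl d L y R)) ((nz (Bl d L y R)).map ψ) nw (by omega) φ hφ hdep
    (Cmp2_win _ v hv0 nw hn)
  have h5 := Cmp2_PI_map (nz (Bl d L y R)) ((nz (Bl d L y R)).map ψ) ψ hψ rfl
  have hblk : Measurable (fun (ω : ℕ → Bl d L y R → ℝ) (i : ℕ) => φ (fun j => ω (nw * i + j))) := by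
    refine measurable_pi_lambda _ fun i => hφ.comp ?_
    exact measurable_pi_lambda _ fun j => measurable_pi_apply _
  have hψω : Measurable (fun (ω : ℕ → Bl d L y R → ℝ) (i : ℕ) => ψ (ω i)) :=
    measurable_pi_lambda _ fun i => hψ.comp (measurable_pi_apply i)
  have e1 : {ω : ℕ → boxS d L → ℝ | gwin y R (sc v ω) nw ∈ E} =
      (fun (ω : ℕ → boxS d L → ℝ) (i : ℕ) (x : Bl d L y R) => ω i x.1) ⁻¹'
        ((fun (ω : ℕ → Bl d L y R → ℝ) (i : ℕ) => φ (fun j => ω (nw * i + j))) ⁻¹' E) := by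
    ext ω
    have e2 : gwin y R (sc v ω) nw = fun (i : ℕ) (x : Bl d L y R) =>
        ∑ l ∈ Finset.range nw, Real.sqrt v * ω (nw * i + l) x.1 := by
      funext i x
      unfold gwin sc
      refine Finset.sum_congr rfl fun l _ => ?_
      rw [mul_comm i nw]
    show gwin y R (sc v ω) nw ∈ E ↔ _
    rw [e2]
    rfl
  rw [e1, ← Measure.map_apply hresω (hblk hE), h3, ← Measure.map_apply hblk hE, h4, ← h5,
    Measure.map_apply hψω hE]
  have e3 : (nw : ℝ) * v = nw * h / ell k ^ 2 := by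
    rw [hv]; ring
  rw [hψd, e3]
  rfl

private theorem Cmp2_rp {k : ℝ} (hk : 0 < k) (a : ℝ) : k ^ a = Real.exp (-(a * ell k)) := by
  unfold ell
  rw [Real.rpow_def_of_pos hk, one_div, Real.log_inv]
  congr 1
  ring

private theorem Cmp2_np {k : ℝ} (hk : 0 < k) (n : ℕ) : k ^ n = Real.exp (-(n * ell k)) := by
  rw [← Real.rpow_natCast, Cmp2_rp hk]

private theorem Cmp2_ell {k : ℝ} (hk : 0 < k) (hk1 : k < 1) : 0 < ell k := by
  unfold ell
  exact Real.log_pos (by rw [one_div]; exact (one_lt_inv₀ hk).mpr hk1)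

private theorem Cmp2_hB_nonpos {d L : ℕ} (k M' : ℝ) (u : boxS d L → ℝ) (y : boxS d L) (R : ℕ)
    (x : Bl d L y R) : hB k M' u y R x ≤ 0 := min_le_left _ _

private theorem Cmp2_hB_ge {d L : ℕ} (k M' : ℝ) (hM : 0 ≤ M') (u : boxS d L → ℝ) (y : boxS d L)
    (R : ℕ) (x : Bl d L y R) : -M' ≤ hB k M' u y R x :=
  le_min (by linarith) (le_max_left _ _)

/-- the sup convolution of the initial heights at a point, from `LowR` and `Caps` -/
private theorem Cmp2_RRlow {d L : ℕ} {k : ℝ} (hk : 0 < k) (hk1 : k < 1) (y : boxS d L) (R Rb : ℕ)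
    (M s0 ε0 M' : ℝ) (hM : 1 ≤ M) (hs0 : 0 ≤ s0) (hε0 : 0 < ε0) (hε1 : ε0 ≤ 1 / 2)
    (hε2 : ε0 * (1 + R) ≤ 1) (hR : Rb + 2 * (M + s0 * Rb + 1) ≤ R) (U : boxS d L → ℝ)
    (hlow : LowR k U M s0 y) (hcap : Caps k U ε0 y) (x : Bl d L y R)
    (hx : (boxNet d L).dist y x.1 ≤ Rb) :
    -(M + s0 * Rb + 1) ≤ (ballM d L y R).RR (hB k M' U y R) x := by
  have hl := Cmp2_ell hk hk1
  obtain ⟨z, hz⟩ := hlow x.1
  have hxR : ((boxNet d L).dist y x.1 : ℝ) ≤ Rb := by exact_mod_cast hx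
  have hxR' : ((boxNet d L).dist x.1 y : ℝ) ≤ Rb := by
    rw [(boxNet d L).dist_comm]; exact hxR
  have hRb : (0 : ℝ) ≤ Rb := Nat.cast_nonneg _
  have hRR : (Rb : ℝ) ≤ R := by nlinarith
  have hc := hcap z
  have htri : ((boxNet d L).dist z y : ℝ) ≤ (boxNet d L).dist x.1 z + Rb := by
    have h1 := (boxNet d L).dist_tri z x.1 y
    have h2 : ((boxNet d L).dist z y : ℝ) ≤ (boxNet d L).dist z x.1 + (boxNet d L).dist x.1 y := by
      exact_mod_cast h1
    rw [(boxNet d L).dist_comm z x.1] at h2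
    linarith
  have hd0 : (0 : ℝ) ≤ (boxNet d L).dist x.1 z := Nat.cast_nonneg _
  have hdy0 : (0 : ℝ) ≤ (boxNet d L).dist x.1 y := Nat.cast_nonneg _
  have hUz : 0 < U z := by
    by_contra hcon
    rw [not_lt] at hcon
    have h1 : U z * k ^ (boxNet d L).dist x.1 z ≤ 0 :=
      mul_nonpos_of_nonpos_of_nonneg hcon (by positivity)
    have h2 : 0 < k ^ (M + s0 * ((boxNet d L).dist x.1 y : ℝ)) := Real.rpow_pos_of_pos hk _
    linarith
  set a : ℝ := Real.log (U z) / ell k with ha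
  have hUa : U z = Real.exp (ell k * a) := by
    rw [ha, mul_div_cancel₀ _ hl.ne', Real.exp_log hUz]
  -- exponents
  have e1 : -(M + s0 * (boxNet d L).dist x.1 y) ≤ a - (boxNet d L).dist x.1 z := by
    rw [Cmp2_rp hk, Cmp2_np hk, hUa, ← Real.exp_add, Real.exp_le_exp] at hz
    have h1 : ell k * (-(M + s0 * (boxNet d L).dist x.1 y)) ≤
        ell k * (a - (boxNet d L).dist x.1 z) := by linarith
    exact le_of_mul_le_mul_left h1 hl
  have e2 : a ≤ ε0 * (1 + (boxNet d L).dist z y) := by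
    rw [Cmp2_rp hk, hUa, Real.exp_le_exp] at hc
    have h1 : ell k * a ≤ ell k * (ε0 * (1 + (boxNet d L).dist z y)) := by linarith
    exact le_of_mul_le_mul_left h1 hl
  have e3 : s0 * (boxNet d L).dist x.1 y ≤ s0 * Rb := mul_le_mul_of_nonneg_left hxR' hs0
  have e4 : ε0 * (1 + (boxNet d L).dist z y) ≤ ε0 * (1 + R) + ε0 * (boxNet d L).dist x.1 z := by
    have h1 : 1 + ((boxNet d L).dist z y : ℝ) ≤ (1 + R) + (boxNet d L).dist x.1 z := by linarith
    calc ε0 * (1 + (boxNet d L).dist z y) ≤ ε0 * ((1 + R) + (boxNet d L).dist x.1 z) :=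
          mul_le_mul_of_nonneg_left h1 hε0.le
      _ = _ := by ring
  have e5 : ((boxNet d L).dist x.1 z : ℝ) ≤ 2 * (M + s0 * Rb + 1) := by
    have h1 : ε0 * (boxNet d L).dist x.1 z ≤ 1 / 2 * (boxNet d L).dist x.1 z :=
      mul_le_mul_of_nonneg_right hε1 hd0
    linarith
  have hzR : (boxNet d L).dist y z ≤ R := by
    have h1 : ((boxNet d L).dist z y : ℝ) ≤ R := by linarith
    rw [(boxNet d L).dist_comm]
    exact_mod_cast h1
  have e6 : ε0 * (1 + (boxNet d L).dist z y) ≤ 1 := by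
    have h1 : ((boxNet d L).dist z y : ℝ) ≤ R := by
      rw [(boxNet d L).dist_comm]
      exact_mod_cast hzR
    have h2 : ε0 * (1 + (boxNet d L).dist z y) ≤ ε0 * (1 + R) :=
      mul_le_mul_of_nonneg_left (by linarith) hε0.le
    linarith
  have h7 := le_RR (ballM d L y R) (hB k M' U y R) x ⟨z, hzR⟩
  refine le_trans ?_ h7
  have h8 : min 0 a ≤ hB k M' U y R ⟨z, hzR⟩ := by
    unfold hB
    refine min_le_min le_rfl ?_
    rw [if_neg (not_le.mpr hUz)]
    exact le_max_right _ _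
  have h9 : ((ballM d L y R).dd x ⟨z, hzR⟩ : ℝ) = (boxNet d L).dist x.1 z := rfl
  rw [h9]
  rcases le_total 0 a with h10 | h10
  · rw [min_eq_left h10] at h8
    linarith
  · rw [min_eq_right h10] at h8
    linarith

/-- the lower bound, deterministic part -/
private theorem Cmp2_low {d L : ℕ} {k : ℝ} (hk : 0 < k) (hk1 : k < 1) (y : boxS d L) (R : ℕ)
    (M s0 κ ε ε0 M3 : ℝ) (m0 J : ℕ) (hM : 1 ≤ M) (hs0 : 0 ≤ s0) (hκ : 0 ≤ κ) (hε : 0 < ε)
    (hJ : 3 * κ + J * ε ≤ 1) (hε0 : 0 < ε0) (hε1 : ε0 ≤ 1 / 2) (hε2 : ε0 * (1 + R) ≤ 1)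
    (hM3 : 0 ≤ M3) (hm0 : 2 * ((M + s0 * R + 1) + M3 + 2) ≤ m0)
    (U : ℕ → boxS d L → ℝ) (hU : ∀ i v, 0 ≤ U i v) (gw : ℕ → Bl d L y R → ℝ)
    (hlow : LowR k (U 0) M s0 y) (hcap : ∀ i, i ≤ J → Caps k (U i) ε0 y)
    (hblk : ∀ x : Bl d L y R, ∀ i, i ≤ J → ∀ i', i' ≤ i → -M3 ≤ ∑ l ∈ Finset.Ico i' i, gw l x)
    (hstep : ∀ i, i < J → ∀ (x : Bl d L y R) (z : boxS d L), (boxNet d L).dist x.1 z ≤ m0 →
      (∀ v, U i v * k ^ (boxNet d L).dist x.1 v ≤ U i z * k ^ (boxNet d L).dist x.1 z) →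
      min (k ^ (3 * κ)) (k ^ (ε + (boxNet d L).dist x.1 z) * Real.exp (ell k * gw i x) * U i z) ≤
        U (i + 1) x.1) :
    ∀ i, i + 1 ≤ J → ∀ x : Bl d L y R,
      Real.exp (ell k * ((ballM d L y R).mf (hB k (M + s0 * R + 1) (U 0) y R) gw (i + 1) x -
        3 * κ - (i + 1) * ε)) ≤ U (i + 1) x.1 := by
  have hl := Cmp2_ell hk hk1
  haveI : Nonempty (boxS d L) := ⟨y⟩
  set M' : ℝ := M + s0 * R + 1 with hM'
  have hR0 : (0 : ℝ) ≤ R := Nat.cast_nonneg _
  have hM'0 : 0 ≤ M' := by positivity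
  set X := hB k M' (U 0) y R with hX
  set F := (ballM d L y R).mf X gw with hF
  have hX0 : ∀ x, -M' ≤ X x := Cmp2_hB_ge k M' hM'0 (U 0) y R
  have hRX : ∀ x, -M' ≤ (ballM d L y R).RR X x := fun x =>
    (hX0 x).trans (self_le_RR (ballM d L y R) X x)
  have hFge : ∀ i, i ≤ J → ∀ x, -M' - M3 ≤ F i x := by
    intro i hi x
    rcases Nat.eq_zero_or_pos i with h0 | h0
    · subst h0
      have := hX0 x
      show -M' - M3 ≤ X x
      linarith
    · have h1 := mf_stay (ballM d L y R) X gw i h0 x M3 hM3 (fun i' hi' => hblk x i hi i' hi')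
      have h2 : -M' ≤ min 0 ((ballM d L y R).RR X x) := le_min (by linarith) (hRX x)
      linarith
  -- the main step
  have main : ∀ i, i + 1 ≤ J → (∀ x : Bl d L y R, ∃ v : boxS d L,
        Real.exp (ell k * ((ballM d L y R).RR (F i) x - 3 * κ - i * ε)) ≤
          U i v * k ^ (boxNet d L).dist x.1 v) →
      ∀ x : Bl d L y R, Real.exp (ell k * (F (i + 1) x - 3 * κ - (i + 1) * ε)) ≤
        U (i + 1) x.1 := by
    intro i hi hV x
    obtain ⟨v0, hv0⟩ := hV x
    obtain ⟨z, hz⟩ := Finite.exists_max (fun v : boxS d L => U i v * k ^ (boxNet d L).dist x.1 v)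
    have hzv : Real.exp (ell k * ((ballM d L y R).RR (F i) x - 3 * κ - i * ε)) ≤
        U i z * k ^ (boxNet d L).dist x.1 z := hv0.trans (hz v0)
    have hUz : 0 < U i z := by
      by_contra hcon
      rw [not_lt] at hcon
      have h1 : U i z * k ^ (boxNet d L).dist x.1 z ≤ 0 :=
        mul_nonpos_of_nonpos_of_nonneg hcon (by positivity)
      have h2 := Real.exp_pos (ell k * ((ballM d L y R).RR (F i) x - 3 * κ - i * ε))
      linarith
    have hiJ : (i : ℝ) ≤ J := by exact_mod_cast (by omega : i ≤ J)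
    have hiε : i * ε ≤ J * ε := mul_le_mul_of_nonneg_right hiJ hε.le
    have hdist : (boxNet d L).dist x.1 z ≤ m0 := by
      have h1 := hcap i (by omega) z
      rw [Cmp2_rp hk] at h1
      have h2 : U i z * k ^ (boxNet d L).dist x.1 z ≤
          Real.exp (-(-(ε0 * (1 + (boxNet d L).dist z y)) * ell k)) *
            Real.exp (-((boxNet d L).dist x.1 z * ell k)) := by
        rw [Cmp2_np hk]
        exact mul_le_mul_of_nonneg_right h1 (Real.exp_pos _).le
      have h3 := hzv.trans h2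
      rw [← Real.exp_add, Real.exp_le_exp] at h3
      have h4 : ell k * ((ballM d L y R).RR (F i) x - 3 * κ - i * ε) ≤
          ell k * (ε0 * (1 + (boxNet d L).dist z y) - (boxNet d L).dist x.1 z) := by linarith
      have h5 := le_of_mul_le_mul_left h4 hl
      have h6 : -M' - M3 ≤ (ballM d L y R).RR (F i) x :=
        (hFge i (by omega) x).trans (self_le_RR (ballM d L y R) (F i) x)
      have h7 : ((boxNet d L).dist z y : ℝ) ≤ (boxNet d L).dist x.1 z + R := by
        have h8 := (boxNet d L).dist_tri y x.1 z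
        have h9 := x.2
        rw [(boxNet d L).dist_comm z y]
        exact_mod_cast (by omega : (boxNet d L).dist y z ≤ (boxNet d L).dist x.1 z + R)
      have hd0 : (0 : ℝ) ≤ (boxNet d L).dist x.1 z := Nat.cast_nonneg _
      have h8 : ε0 * (1 + (boxNet d L).dist z y) ≤
          ε0 * (1 + R) + ε0 * (boxNet d L).dist x.1 z := by
        calc ε0 * (1 + (boxNet d L).dist z y) ≤ ε0 * ((1 + R) + (boxNet d L).dist x.1 z) :=
              mul_le_mul_of_nonneg_left (by linarith) hε0.le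
          _ = _ := by ring
      have h9 : ε0 * (boxNet d L).dist x.1 z ≤ 1 / 2 * (boxNet d L).dist x.1 z :=
        mul_le_mul_of_nonneg_right hε1 hd0
      have h10 : ((boxNet d L).dist x.1 z : ℝ) ≤ m0 := by linarith
      exact_mod_cast h10
    refine le_trans (le_min ?_ ?_) (hstep i (by omega) x z hdist hz)
    · rw [Cmp2_rp hk]
      refine Real.exp_le_exp.mpr ?_
      have h1 : F (i + 1) x ≤ 0 := mf_succ_nonpos (ballM d L y R) X gw i x
      have h2 : F (i + 1) x - 3 * κ - (i + 1) * ε ≤ -(3 * κ) := by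
        have h3 : 0 ≤ ((i : ℝ) + 1) * ε := by positivity
        linarith
      have h4 := mul_le_mul_of_nonneg_left h2 hl.le
      linarith
    · have h1 : F (i + 1) x ≤ (ballM d L y R).RR (F i) x + gw i x := by
        show min 0 ((ballM d L y R).RR (F i) x + gw i x) ≤ _
        exact min_le_right _ _
      have h2 : k ^ (ε + ((boxNet d L).dist x.1 z : ℝ)) * Real.exp (ell k * gw i x) * U i z =
          Real.exp (-(ε * ell k)) * Real.exp (ell k * gw i x) *
            (U i z * k ^ (boxNet d L).dist x.1 z) := by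
        rw [Cmp2_rp hk, Cmp2_np hk]
        have h3 : -((ε + ((boxNet d L).dist x.1 z : ℝ)) * ell k) =
            -(ε * ell k) + -((boxNet d L).dist x.1 z * ell k) := by ring
        rw [h3, Real.exp_add]
        ring
      rw [h2]
      refine le_trans ?_ (mul_le_mul_of_nonneg_left hzv (by positivity))
      rw [← Real.exp_add, ← Real.exp_add]
      refine Real.exp_le_exp.mpr ?_
      have h4 := mul_le_mul_of_nonneg_left h1 hl.le
      nlinarith
  have ind : ∀ i, i + 1 ≤ J → ∀ x : Bl d L y R,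
      Real.exp (ell k * (F (i + 1) x - 3 * κ - (i + 1) * ε)) ≤ U (i + 1) x.1 := by
    intro i
    induction i with
    | zero =>
      intro hi
      have h0 := main 0 hi
      simp only [Nat.cast_zero] at h0 ⊢
      refine h0 ?_
      intro x
      set z := (ballM d L y R).am X x with hzd
      have hz : X z - (ballM d L y R).dd x z = (ballM d L y R).RR X x :=
        am_spec (ballM d L y R) X x
      have hdd : ((ballM d L y R).dd x z : ℝ) = (boxNet d L).dist x.1 z.1 := rfl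
      rw [hdd] at hz
      have hgoal : ∀ v : boxS d L, Real.exp (ell k * (ballM d L y R).RR X x) ≤
          U 0 v * k ^ (boxNet d L).dist x.1 v →
          Real.exp (ell k * ((ballM d L y R).RR (F 0) x - 3 * κ - 0 * ε)) ≤
          U 0 v * k ^ (boxNet d L).dist x.1 v := by
        intro v hv
        refine le_trans (Real.exp_le_exp.mpr ?_) hv
        refine mul_le_mul_of_nonneg_left ?_ hl.le
        show (ballM d L y R).RR X x - 3 * κ - 0 * ε ≤ _
        linarith
      have hlowx : ∃ v : boxS d L, Real.exp (ell k * (-(M + s0 * R))) ≤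
          U 0 v * k ^ (boxNet d L).dist x.1 v := by
        obtain ⟨v, hv⟩ := hlow x.1
        refine ⟨v, le_trans ?_ hv⟩
        rw [Cmp2_rp hk]
        refine Real.exp_le_exp.mpr ?_
        have h1 : ((boxNet d L).dist x.1 y : ℝ) ≤ R := by
          rw [(boxNet d L).dist_comm]
          exact_mod_cast x.2
        have h2 : s0 * (boxNet d L).dist x.1 y ≤ s0 * R := mul_le_mul_of_nonneg_left h1 hs0
        nlinarith
      have hdz0 : (0 : ℝ) ≤ (boxNet d L).dist x.1 z.1 := Nat.cast_nonneg _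
      by_cases hUz : U 0 z.1 ≤ 0
      · obtain ⟨v, hv⟩ := hlowx
        refine ⟨v, hgoal v (le_trans (Real.exp_le_exp.mpr ?_) hv)⟩
        refine mul_le_mul_of_nonneg_left ?_ hl.le
        have h1 : X z ≤ -M' := by
          rw [hX]
          unfold hB
          rw [if_pos hUz, max_self]
          exact min_le_right _ _
        linarith
      · rw [not_le] at hUz
        set a : ℝ := Real.log (U 0 z.1) / ell k with ha
        have hUa : U 0 z.1 = Real.exp (ell k * a) := by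
          rw [ha, mul_div_cancel₀ _ hl.ne', Real.exp_log hUz]
        have hXz : X z = min 0 (max (-M') a) := by
          rw [hX]
          unfold hB
          rw [if_neg (not_le.mpr hUz)]
        rcases le_total (-M') a with h1 | h1
        · refine ⟨z.1, hgoal z.1 ?_⟩
          rw [hUa, Cmp2_np hk, ← Real.exp_add]
          refine Real.exp_le_exp.mpr ?_
          rw [max_eq_right h1] at hXz
          have h2 : X z ≤ a := by rw [hXz]; exact min_le_right _ _
          have h3 : (ballM d L y R).RR X x ≤ a - (boxNet d L).dist x.1 z.1 := by linarith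
          have h4 := mul_le_mul_of_nonneg_left h3 hl.le
          linarith
        · obtain ⟨v, hv⟩ := hlowx
          refine ⟨v, hgoal v (le_trans (Real.exp_le_exp.mpr ?_) hv)⟩
          refine mul_le_mul_of_nonneg_left ?_ hl.le
          rw [max_eq_left h1] at hXz
          have h2 : X z ≤ -M' := by rw [hXz]; exact min_le_right _ _
          linarith
    | succ i ih =>
      intro hi
      have ih' := ih (by omega)
      refine main (i + 1) hi (fun x => ?_)
      set z := (ballM d L y R).am (F (i + 1)) x with hzd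
      have hz : F (i + 1) z - (ballM d L y R).dd x z = (ballM d L y R).RR (F (i + 1)) x :=
        am_spec (ballM d L y R) (F (i + 1)) x
      have hdd : ((ballM d L y R).dd x z : ℝ) = (boxNet d L).dist x.1 z.1 := rfl
      rw [hdd] at hz
      refine ⟨z.1, ?_⟩
      have h1 := ih' z
      have h2 := mul_le_mul_of_nonneg_right h1
        (show (0 : ℝ) ≤ k ^ (boxNet d L).dist x.1 z.1 by positivity)
      refine le_trans (le_of_eq ?_) h2
      rw [Cmp2_np hk, ← Real.exp_add, ← hz]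
      congr 1
      push_cast
      ring
  exact ind

/-- the upper bound, deterministic part -/
private theorem Cmp2_up (d : ℕ) {L : ℕ} {k : ℝ} (hk : 0 < k) (hk1 : k < 1) (y : boxS d L)
    (R Rb nw J : ℕ) (M s0 κ ε ε0 M1 M2 κc h : ℝ) (hM : 1 ≤ M) (hs0 : 0 ≤ s0) (hκ : 0 < κ)
    (hκ1 : κ ≤ 1 / 16) (hε : 0 < ε) (hε0 : 0 < ε0) (hε1 : ε0 ≤ 1 / 2) (hε2 : ε0 * (1 + R) ≤ 1)
    (hR : Rb + 2 * (M + s0 * Rb + 1) ≤ R) (hM1 : 0 ≤ M1) (hM2 : 0 ≤ M2)
    (hc1 : 8 * κ * (M1 + (M + s0 * Rb + 1 + M2)) + J * ε + ε0 * (1 + R) ≤ κc / 2)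
    (hc2 : ε + M1 + 1 + 3 / 4 * ((Rb : ℝ) - R) ≤ -(M + s0 * Rb + 1 + M2))
    (hc3 : 2 ≤ Real.exp (ell k * (κc / 2))) (hκc : 0 < κc)
    (g u : ℕ → boxS d L → ℝ) (hu : ∀ j v, 0 ≤ u j v)
    (hup : ∀ (g u : ℕ → boxS d L → ℝ) (X : Bl d L y R → ℝ), (∀ x, X x ≤ 0) →
      (∀ j x, 0 ≤ u j x) →
      (∀ j x, u (j + 1) x ≤ Real.exp (ell k * g j x) * u j x + k * h * cpl (boxNet d L) (u j) x) →
      (∀ x : Bl d L y R, ∀ i, i < J → ∀ l l', l ≤ l' → l' ≤ nw →
        |∑ j ∈ Finset.Ico (i * nw + l) (i * nw + l'), g j x.1| ≤ κ) →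
      (∀ x : Bl d L y R, ∀ i, i ≤ J → u (i * nw) x.1 ≤ k ^ (-(ε0 * (1 + (R : ℝ))))) →
      (∀ x : Bl d L y R, u 0 x.1 ≤ Real.exp (ell k * (X x + ε0 * (1 + (R : ℝ))))) →
      (∀ v, R < (boxNet d L).dist y v →
        u 0 v ≤ Real.exp (ell k * (1 + 3 / 4 * ((boxNet d L).dist y v - R)))) →
      ∀ i, i ≤ J → ∀ x : Bl d L y R, u (i * nw) x.1 ≤
        Real.exp (ell k * ((ballM d L y R).mfq (1 - 4 * κ) X (gwin y R g nw) i x + i * ε +
          ε0 * (1 + (R : ℝ)))) +
        k ^ (-ε) * Real.exp (ell k * ((boxMSet d L).lpp (1 / 8) (fun _ => 0) g (i * nw) x.1 +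
          1 + 3 / 4 * ((boxNet d L).dist y x.1 - R))))
    (hstep : ∀ j x, u (j + 1) x ≤
      Real.exp (ell k * g j x) * u j x + k * h * cpl (boxNet d L) (u j) x)
    (hreg : ∀ x : Bl d L y R, ∀ i, i < J → ∀ l l', l ≤ l' → l' ≤ nw →
        |∑ j ∈ Finset.Ico (i * nw + l) (i * nw + l'), g j x.1| ≤ κ)
    (hcap : ∀ i, i ≤ J → Caps k (u (i * nw)) ε0 y) (hlow : LowR k (u 0) M s0 y)
    (hE1a : ∀ x : Bl d L y R, (boxNet d L).dist y x.1 ≤ Rb → ∀ i, i ≤ J →
      (boxMSet d L).lpp (1 / 8) (fun _ => 0) g (i * nw) x.1 ≤ M1)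
    (hE1b : ∀ x : Bl d L y R, (boxNet d L).dist y x.1 ≤ Rb → ∀ i, i ≤ J →
      (ballM d L y R).lpp (1 / 8) (fun _ => 0) (gwin y R g nw) i x ≤ M1)
    (hE1c : ∀ x : Bl d L y R, (boxNet d L).dist y x.1 ≤ Rb → ∀ i, i ≤ J → ∀ i', i' ≤ i →
      -M2 ≤ ∑ l ∈ Finset.Ico i' i, gwin y R g nw l x) :
    ∀ i, 1 ≤ i → i ≤ J → ∀ x : Bl d L y R, (boxNet d L).dist y x.1 ≤ Rb →
      u (i * nw) x.1 ≤ Real.exp (ell k *
        ((ballM d L y R).mf (hB k (M + s0 * R + 1) (u 0) y R) (gwin y R g nw) i x + κc)) := by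
  have hl := Cmp2_ell hk hk1
  set X := hB k (M + s0 * R + 1) (u 0) y R with hX
  have hX0 : ∀ x, X x ≤ 0 := Cmp2_hB_nonpos k _ (u 0) y R
  have hcap0 : Caps k (u 0) ε0 y := by
    have h1 := hcap 0 (Nat.zero_le _)
    rwa [Nat.zero_mul] at h1
  have hεc0 : 0 < ε0 * (1 + (R : ℝ)) := by positivity
  have hcapx : ∀ x : Bl d L y R, ε0 * (1 + ((boxNet d L).dist x.1 y : ℝ)) ≤ ε0 * (1 + R) := by
    intro x
    have h1 : ((boxNet d L).dist x.1 y : ℝ) ≤ R := by
      rw [(boxNet d L).dist_comm]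
      exact_mod_cast x.2
    exact mul_le_mul_of_nonneg_left (by linarith) hε0.le
  have happ := hup g u X hX0 hu hstep hreg ?_ ?_ ?_
  · intro i hi hiJ x hx
    have h1 := happ i hiJ x
    have hq := mfq_le (ballM d L y R) (1 - 4 * κ) (by linarith) (by linarith) X hX0
      (gwin y R g nw) i x
    have hst := mf_stay (ballM d L y R) X (gwin y R g nw) i hi x M2 hM2
      (fun i' hi' => hE1c x hx i hiJ i' hi')
    have hRR := Cmp2_RRlow hk hk1 y R Rb M s0 ε0 (M + s0 * R + 1) hM hs0 hε0 hε1 hε2 hR (u 0)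
      hlow hcap0 x hx
    set F := (ballM d L y R).mf X (gwin y R g nw) i x with hF
    have hA0 : 0 ≤ M + s0 * (Rb : ℝ) + 1 := by positivity
    have hFge : -(M + s0 * Rb + 1 + M2) ≤ F := by
      have h2 : -(M + s0 * Rb + 1) ≤ min 0 ((ballM d L y R).RR X x) := le_min (by linarith) hRR
      linarith
    have hF0 : F ≤ 0 := mf_nonpos (ballM d L y R) X hX0 _ i x
    have hb := hE1b x hx i hiJ
    have ha := hE1a x hx i hiJ
    have hiJ' : (i : ℝ) ≤ J := by exact_mod_cast hiJ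
    have hiε : i * ε ≤ J * ε := mul_le_mul_of_nonneg_right hiJ' hε.le
    have hxR : ((boxNet d L).dist y x.1 : ℝ) ≤ Rb := by exact_mod_cast hx
    have t1 : Real.exp (ell k * ((ballM d L y R).mfq (1 - 4 * κ) X (gwin y R g nw) i x + i * ε +
          ε0 * (1 + (R : ℝ)))) ≤ Real.exp (ell k * (F + κc / 2)) := by
      refine Real.exp_le_exp.mpr (mul_le_mul_of_nonneg_left ?_ hl.le)
      have h2 : 2 * (1 - (1 - 4 * κ)) *
          ((ballM d L y R).lpp (1 / 8) (fun _ => 0) (gwin y R g nw) i x - F) ≤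
          8 * κ * (M1 + (M + s0 * Rb + 1 + M2)) := by
        have h3 : 2 * (1 - (1 - 4 * κ)) = 8 * κ := by ring
        rw [h3]
        refine mul_le_mul_of_nonneg_left ?_ (by positivity)
        linarith
      linarith
    have t2 : k ^ (-ε) * Real.exp (ell k * ((boxMSet d L).lpp (1 / 8) (fun _ => 0) g
          (i * nw) x.1 + 1 + 3 / 4 * ((boxNet d L).dist y x.1 - R))) ≤
        Real.exp (ell k * (F + κc / 2)) := by
      rw [Cmp2_rp hk, ← Real.exp_add]
      refine Real.exp_le_exp.mpr ?_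
      have h2 : ε + ((boxMSet d L).lpp (1 / 8) (fun _ => 0) g (i * nw) x.1 + 1 +
          3 / 4 * (((boxNet d L).dist y x.1 : ℝ) - R)) ≤ F + κc / 2 := by linarith
      have h3 := mul_le_mul_of_nonneg_left h2 hl.le
      linarith
    calc u (i * nw) x.1 ≤ Real.exp (ell k * (F + κc / 2)) + Real.exp (ell k * (F + κc / 2)) :=
          h1.trans (add_le_add t1 t2)
      _ = 2 * Real.exp (ell k * (F + κc / 2)) := by ring
      _ ≤ Real.exp (ell k * (κc / 2)) * Real.exp (ell k * (F + κc / 2)) :=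
          mul_le_mul_of_nonneg_right hc3 (Real.exp_pos _).le
      _ = Real.exp (ell k * (F + κc)) := by
          rw [← Real.exp_add]
          congr 1
          ring
  · intro x i hi
    refine (hcap i hi x.1).trans ?_
    refine Real.rpow_le_rpow_of_exponent_ge hk hk1.le ?_
    have := hcapx x
    linarith
  · intro x
    by_cases hx : u 0 x.1 ≤ 0
    · exact hx.trans (Real.exp_pos _).le
    · rw [not_le] at hx
      set a : ℝ := Real.log (u 0 x.1) / ell k with ha
      have hUa : u 0 x.1 = Real.exp (ell k * a) := by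
        rw [ha, mul_div_cancel₀ _ hl.ne', Real.exp_log hx]
      have h1 := hcap0 x.1
      rw [Cmp2_rp hk, hUa, Real.exp_le_exp] at h1
      have h2 : ell k * a ≤ ell k * (ε0 * (1 + ((boxNet d L).dist x.1 y : ℝ))) := by linarith
      have h3 := le_of_mul_le_mul_left h2 hl
      have h4 := hcapx x
      have hXx : X x = min 0 (max (-(M + s0 * R + 1)) a) := by
        rw [hX]
        unfold hB
        rw [if_neg (not_le.mpr hx)]
      rw [hUa]
      refine Real.exp_le_exp.mpr (mul_le_mul_of_nonneg_left ?_ hl.le)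
      have h5 : a ≤ max (-(M + s0 * R + 1)) a := le_max_right _ _
      rcases le_total 0 (max (-(M + s0 * (R : ℝ) + 1)) a) with h6 | h6
      · rw [min_eq_left h6] at hXx
        rw [hXx]
        linarith
      · rw [min_eq_right h6] at hXx
        rw [hXx]
        linarith
  · intro v hv
    refine (hcap0 v).trans ?_
    rw [Cmp2_rp hk]
    refine Real.exp_le_exp.mpr ?_
    have h1 : (R : ℝ) + 1 ≤ (boxNet d L).dist y v := by exact_mod_cast hv
    rw [(boxNet d L).dist_comm v y]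
    have h2 : ε0 * (1 + ((boxNet d L).dist y v : ℝ)) ≤
        1 + 3 / 4 * (((boxNet d L).dist y v : ℝ) - R) := by
      have h3 : ε0 * (((boxNet d L).dist y v : ℝ) - R) ≤
          1 / 2 * (((boxNet d L).dist y v : ℝ) - R) :=
        mul_le_mul_of_nonneg_right hε1 (by linarith)
      have h4 : ε0 * (1 + ((boxNet d L).dist y v : ℝ)) =
          ε0 * (1 + R) + ε0 * (((boxNet d L).dist y v : ℝ) - R) := by ring
      linarith
    have h5 := mul_le_mul_of_nonneg_left h2 hl.le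
    linarith

/-! ### probabilities -/

private theorem Cmp2_gzm (d L : ℕ) (k h : ℝ) :
    Measurable (fun ω : ℕ → boxS d L → ℂ => gz k h ω) := by
  unfold gz
  refine measurable_pi_lambda _ fun j => measurable_pi_lambda _ fun x => ?_
  refine Measurable.div_const (Measurable.const_mul ?_ _) _
  exact Complex.measurable_re.comp ((measurable_pi_apply x).comp (measurable_pi_apply j))

private theorem Cmp2_markov {X St : Type} [MeasurableSpace X] [MeasurableSpace St] (μ : Measure X)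
    [IsProbabilityMeasure μ] (f : St → X → St) (hf : Measurable fun p : St × X => f p.1 p.2)
    (s : St) (N : ℕ) (S : Set (St × (ℕ → X))) (hS : MeasurableSet S) (p : ℝ≥0∞)
    (h : ∀ s', PI μ {b | (s', b) ∈ S} ≤ p) :
    PI μ {ω | (traj f s ω N, fun j => ω (N + j)) ∈ S} ≤ p := by
  have hm : Measurable fun ω : ℕ → X => (traj f s ω N, fun j => ω (N + j)) := by
    refine Measurable.prodMk ?_ ?_
    · exact (measurable_traj f hf N).comp (measurable_const.prodMk measurable_id)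
    · exact measurable_pi_iff.mpr fun j => measurable_pi_apply (N + j)
  have hA : MeasurableSet {ω : ℕ → X | (traj f s ω N, fun j => ω (N + j)) ∈ S} := hm hS
  have h1 : PI μ {ω : ℕ → X | (traj f s ω N, fun j => ω (N + j)) ∈ S} =
      ∫⁻ a, ∫⁻ b, ({ω : ℕ → X | (traj f s ω N, fun j => ω (N + j)) ∈ S}).indicator 1
        (glue N a b) ∂(PI μ) ∂(PI μ) := by
    rw [← lintegral_glue N _ (measurable_one.indicator hA)]
    rw [lintegral_indicator_one hA]
  rw [h1]
  calc _ ≤ ∫⁻ _a, p ∂(PI μ) := by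
        refine lintegral_mono fun a => ?_
        have h2 : ∀ b, ({ω : ℕ → X | (traj f s ω N, fun j => ω (N + j)) ∈ S}).indicator
            (1 : (ℕ → X) → ℝ≥0∞) (glue N a b) =
            ({b | (traj f s a N, b) ∈ S}).indicator 1 b := by
          intro b
          have e1 : traj f s (glue N a b) N = traj f s a N := traj_glue_le f s N a b N le_rfl
          have e2 : (fun j => glue N a b (N + j)) = b := by
            funext j
            unfold glue
            rw [if_neg (by omega)]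
            congr 1
            omega
          have e3 : (glue N a b ∈ {ω : ℕ → X | (traj f s ω N, fun j => ω (N + j)) ∈ S}) ↔
              (b ∈ {b | (traj f s a N, b) ∈ S}) := by
            simp only [Set.mem_ofPred_eq, e1, e2]
          by_cases hb : b ∈ {b | (traj f s a N, b) ∈ S}
          · rw [Set.indicator_of_mem hb, Set.indicator_of_mem (e3.mpr hb)]
            rfl
          · rw [Set.indicator_of_notMem hb, Set.indicator_of_notMem (fun h => hb (e3.mp h))]
        have hB : MeasurableSet {b : ℕ → X | (traj f s a N, b) ∈ S} :=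
          measurable_prodMk_left hS
        calc ∫⁻ b, ({ω : ℕ → X | (traj f s ω N, fun j => ω (N + j)) ∈ S}).indicator
              (1 : (ℕ → X) → ℝ≥0∞) (glue N a b) ∂(PI μ)
            = ∫⁻ b, ({b | (traj f s a N, b) ∈ S}).indicator 1 b ∂(PI μ) :=
              lintegral_congr h2
          _ = PI μ {b | (traj f s a N, b) ∈ S} := lintegral_indicator_one hB
          _ ≤ p := h _
    _ = p := by
        rw [lintegral_const]
        simp

private theorem Cmp2_traj_add {X St : Type} (f : St → X → St) (s : St) (ω : ℕ → X) (N m : ℕ) :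
    traj f s ω (N + m) = traj f (traj f s ω N) (fun j => ω (N + j)) m := by
  induction m with
  | zero => rfl
  | succ m ih =>
    show f (traj f s ω (N + m)) (ω (N + m)) =
      f (traj f (traj f s ω N) (fun j => ω (N + j)) m) (ω (N + m))
    rw [ih]

private theorem Cmp2_tr1 (d : ℕ) (β k : ℝ) (hβ : 0 < β) (hk : 0 ≤ k) (h : ℝ) (L : ℕ)
    (G : (boxS d L → ℂ) × (boxS d L → ℂ)) (ω : ℕ → boxS d L → ℂ) (n : ℕ) :
    ((PS2 d β k hβ hk).tr h L G ω n).1 = traj (st2 d β k h L) G.1 ω n := by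
  induction n with
  | zero => rfl
  | succ n ih =>
    show st2 d β k h L ((PS2 d β k hβ hk).tr h L G ω n).1 (ω n) =
      st2 d β k h L (traj (st2 d β k h L) G.1 ω n) (ω n)
    rw [ih]

private theorem Cmp2_finU {Ω ι : Type} [MeasurableSpace Ω] (μ : Measure Ω) (A : Finset ι)
    (P : ι → Ω → Prop) (N q : ℝ) (hq : 0 ≤ q) (hA : (A.card : ℝ) ≤ N)
    (h : ∀ x ∈ A, μ {ω | ¬ P x ω} ≤ ENNReal.ofReal q) :
    μ {ω | ¬ ∀ x ∈ A, P x ω} ≤ ENNReal.ofReal (N * q) := by
  have hsub : {ω | ¬ ∀ x ∈ A, P x ω} ⊆ ⋃ x ∈ A, {ω | ¬ P x ω} := by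
    intro ω hω
    simp only [Set.mem_ofPred_eq, not_forall] at hω
    obtain ⟨x, hx, hP⟩ := hω
    simp only [Set.mem_iUnion]
    exact ⟨x, hx, hP⟩
  refine (measure_mono hsub).trans ((measure_biUnion_finset_le _ _).trans ?_)
  calc ∑ x ∈ A, μ {ω | ¬ P x ω} ≤ ∑ _x ∈ A, ENNReal.ofReal q := Finset.sum_le_sum h
    _ = ENNReal.ofReal (A.card * q) := by
        rw [Finset.sum_const, nsmul_eq_mul, ENNReal.ofReal_mul (Nat.cast_nonneg _),
          ENNReal.ofReal_natCast]
    _ ≤ ENNReal.ofReal (N * q) := ENNReal.ofReal_le_ofReal (mul_le_mul_of_nonneg_right hA hq)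

private theorem Cmp2_ballU {d L : ℕ} {Ω : Type} [MeasurableSpace Ω] (μ : Measure Ω)
    (y : boxS d L) (r : ℕ) (P : boxS d L → Ω → Prop) (q : ℝ) (hq : 0 ≤ q)
    (h : ∀ x, (boxNet d L).dist y x ≤ r → μ {ω | ¬ P x ω} ≤ ENNReal.ofReal q) :
    μ {ω | ¬ ∀ x, (boxNet d L).dist y x ≤ r → P x ω} ≤
      ENNReal.ofReal ((2 * r + 1) ^ d * q) := by
  classical
  have h1 := Cmp2_finU μ (Finset.univ.filter fun x : boxS d L => (boxNet d L).dist y x ≤ r) P
    ((2 * r + 1) ^ d) q hq ?_ ?_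
  · refine le_trans (le_of_eq ?_) h1
    congr 1
    ext ω
    simp only [Set.mem_ofPred_eq, Finset.mem_filter, Finset.mem_univ, true_and]
  · have h2 := (boxMSet d L).growth y r (Finset.univ.filter fun x : boxS d L =>
      (boxNet d L).dist y x ≤ r) (fun x hx => (Finset.mem_filter.mp hx).2)
    exact_mod_cast h2
  · intro x hx
    exact h x (Finset.mem_filter.mp hx).2

private theorem Cmp2_rangeU {Ω : Type} [MeasurableSpace Ω] (μ : Measure Ω)
    (J : ℕ) (P : ℕ → Ω → Prop) (q : ℝ) (hq : 0 ≤ q)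
    (h : ∀ i, i < J → μ {ω | ¬ P i ω} ≤ ENNReal.ofReal q) :
    μ {ω | ¬ ∀ i, i < J → P i ω} ≤ ENNReal.ofReal (J * q) := by
  have h1 := Cmp2_finU μ (Finset.range J) P J q hq (by simp)
    (fun i hi => h i (Finset.mem_range.mp hi))
  refine le_trans (le_of_eq ?_) h1
  congr 1
  ext ω
  simp only [Set.mem_ofPred_eq, Finset.mem_range]

/-- last passage value on the box -/
private theorem Cmp2_pa (d L : ℕ) (k h : ℝ) (hk : 0 < k) (hk1 : k < 1) (hh : 0 < h) (n : ℕ)
    (x : boxS d L) (M1 lam0 C B : ℝ) (hC : 0 < C)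
    (HT : ∀ (S : Type) [Fintype S] (M : MSet S d) (v : ℝ), 0 < v → v ≤ 1 / lam0 ^ 2 →
      ∀ (n : ℕ) (x : S) (r : ℝ),
        PI (nz S) {ω | r ≤ M.lppM (1 / 8) (fun _ => 0) (sc v ω) n x}
          ≤ ENNReal.ofReal (Real.exp (C * (n * v + 1) - lam0 * r)))
    (hv : h / ell k ^ 2 ≤ 1 / lam0 ^ 2) (hn : n * (h / ell k ^ 2) ≤ B) :
    PI (Measure.pi fun _ : boxS d L => gC)
      {ω | ¬ (boxMSet d L).lppM (1 / 8) (fun _ => 0) (gz k h ω) n x ≤ M1} ≤
      ENNReal.ofReal (Real.exp (C * (B + 1) - lam0 * M1)) := by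
  have hl := Cmp2_ell hk hk1
  have hE : MeasurableSet {g : ℕ → boxS d L → ℝ |
      ¬ (boxMSet d L).lppM (1 / 8) (fun _ => 0) g n x ≤ M1} := by
    refine MeasurableSet.compl ?_
    exact measurableSet_le (measurable_lppM (boxMSet d L) _ _ n x) measurable_const
  have h1 := re_law d L k h hk hk1 hh _ hE
  have h2 : PI (Measure.pi fun _ : boxS d L => gC)
      {ω | ¬ (boxMSet d L).lppM (1 / 8) (fun _ => 0) (gz k h ω) n x ≤ M1} =
      PI (nz (boxS d L)) {ω | ¬ (boxMSet d L).lppM (1 / 8) (fun _ => 0)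
        (sc (h / ell k ^ 2) ω) n x ≤ M1} := h1
  rw [h2]
  refine (measure_mono ?_).trans ((HT (boxS d L) (boxMSet d L) (h / ell k ^ 2) (by positivity) hv
    n x M1).trans (ENNReal.ofReal_le_ofReal (Real.exp_le_exp.mpr ?_)))
  · intro ω hω
    exact (not_le.mp hω).le
  · have h3 := mul_le_mul_of_nonneg_left hn hC.le
    nlinarith

/-- last passage value on the ball -/
private theorem Cmp2_pb (d L : ℕ) (k h : ℝ) (hk : 0 < k) (hk1 : k < 1) (hh : 0 < h) (n nw : ℕ)
    (hnw : 1 ≤ nw) (y : boxS d L) (R : ℕ) (x : Bl d L y R) (M1 lam0 C B : ℝ) (hC : 0 < C)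
    (HT : ∀ (S : Type) [Fintype S] (M : MSet S d) (v : ℝ), 0 < v → v ≤ 1 / lam0 ^ 2 →
      ∀ (n : ℕ) (x : S) (r : ℝ),
        PI (nz S) {ω | r ≤ M.lppM (1 / 8) (fun _ => 0) (sc v ω) n x}
          ≤ ENNReal.ofReal (Real.exp (C * (n * v + 1) - lam0 * r)))
    (hv : nw * h / ell k ^ 2 ≤ 1 / lam0 ^ 2) (hn : n * (nw * h / ell k ^ 2) ≤ B) :
    PI (Measure.pi fun _ : boxS d L => gC)
      {ω | ¬ (ballM d L y R).lppM (1 / 8) (fun _ => 0) (gwin y R (gz k h ω) nw) n x ≤ M1} ≤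
      ENNReal.ofReal (Real.exp (C * (B + 1) - lam0 * M1)) := by
  have hl := Cmp2_ell hk hk1
  have hnw' : (0 : ℝ) < nw := by exact_mod_cast hnw
  have hE : MeasurableSet {g : ℕ → Bl d L y R → ℝ |
      ¬ (ballM d L y R).lppM (1 / 8) (fun _ => 0) g n x ≤ M1} := by
    refine MeasurableSet.compl ?_
    exact measurableSet_le (measurable_lppM (ballM d L y R) _ _ n x) measurable_const
  have h1 := gw_law d L k h hk hk1 hh nw hnw y R _ hE
  have h2 : PI (Measure.pi fun _ : boxS d L => gC)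
      {ω | ¬ (ballM d L y R).lppM (1 / 8) (fun _ => 0) (gwin y R (gz k h ω) nw) n x ≤ M1} =
      PI (nz (Bl d L y R)) {ω | ¬ (ballM d L y R).lppM (1 / 8) (fun _ => 0)
        (sc (nw * h / ell k ^ 2) ω) n x ≤ M1} := h1
  rw [h2]
  refine (measure_mono ?_).trans ((HT (Bl d L y R) (ballM d L y R) (nw * h / ell k ^ 2)
    (by positivity) hv n x M1).trans (ENNReal.ofReal_le_ofReal (Real.exp_le_exp.mpr ?_)))
  · intro ω hω
    exact (not_le.mp hω).le
  · have h3 := mul_le_mul_of_nonneg_left hn hC.le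
    nlinarith

/-- block sums at a site -/
private theorem Cmp2_pc (d L : ℕ) (k h : ℝ) (hk : 0 < k) (hk1 : k < 1) (hh : 0 < h) (n : ℕ)
    (hn0 : 0 < n) (x : boxS d L) (r B : ℝ) (hr : 0 ≤ r) (hB : 0 < B)
    (hn : n * (h / ell k ^ 2) ≤ B) :
    PI (Measure.pi fun _ : boxS d L => gC)
      {ω | ¬ ∀ i j, i ≤ j → j ≤ n → |∑ l ∈ Finset.Ico i j, gz k h ω l x| ≤ r} ≤
      ENNReal.ofReal (4 * Real.exp (-(r ^ 2 / (32 * B)))) := by
  have hl := Cmp2_ell hk hk1
  have hE0 : MeasurableSet {g : ℕ → boxS d L → ℝ |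
      ∀ i j, i ≤ j → j ≤ n → |∑ l ∈ Finset.Ico i j, g l x| ≤ r} := by
    have e1 : {g : ℕ → boxS d L → ℝ |
        ∀ i j, i ≤ j → j ≤ n → |∑ l ∈ Finset.Ico i j, g l x| ≤ r} =
        ⋂ (i : ℕ) (j : ℕ) (_ : i ≤ j) (_ : j ≤ n),
          {g : ℕ → boxS d L → ℝ | |∑ l ∈ Finset.Ico i j, g l x| ≤ r} := by
      ext g
      simp only [Set.mem_iInter, Set.mem_ofPred_eq]
    rw [e1]
    refine MeasurableSet.iInter fun i => MeasurableSet.iInter fun j => MeasurableSet.iInter fun _ =>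
      MeasurableSet.iInter fun _ => ?_
    refine measurableSet_le ?_ measurable_const
    have e2 : Measurable fun g : ℕ → boxS d L → ℝ => ∑ l ∈ Finset.Ico i j, g l x :=
      Finset.measurable_fun_sum _ fun l _ =>
        (measurable_pi_apply x).comp (measurable_pi_apply l)
    exact e2.abs
  have hE : MeasurableSet {g : ℕ → boxS d L → ℝ |
      ¬ ∀ i j, i ≤ j → j ≤ n → |∑ l ∈ Finset.Ico i j, g l x| ≤ r} := hE0.compl
  have h1 := re_law d L k h hk hk1 hh _ hE
  have h2 : PI (Measure.pi fun _ : boxS d L => gC)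
      {ω | ¬ ∀ i j, i ≤ j → j ≤ n → |∑ l ∈ Finset.Ico i j, gz k h ω l x| ≤ r} =
      PI (nz (boxS d L)) {ω | ¬ ∀ i j, i ≤ j → j ≤ n →
        |∑ l ∈ Finset.Ico i j, sc (h / ell k ^ 2) ω l x| ≤ r} := h1
  rw [h2]
  have hn' : (0 : ℝ) < n := by exact_mod_cast hn0
  refine (measure_mono ?_).trans ((osc_tail_nz (S := boxS d L) (h / ell k ^ 2) (by positivity) n
    hn0 x r hr).trans (ENNReal.ofReal_le_ofReal ?_))
  · intro ω hω
    simp only [Set.mem_ofPred_eq, not_forall, not_le] at hω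
    obtain ⟨i, j, hij, hj, hlt⟩ := hω
    exact hlt.le.trans (sum_le_osc (fun l => sc (h / ell k ^ 2) ω l x) hij hj)
  · refine mul_le_mul_of_nonneg_left (Real.exp_le_exp.mpr ?_) (by norm_num)
    rw [neg_div]
    refine neg_le_neg ?_
    refine div_le_div_of_nonneg_left (by positivity) (by positivity) ?_
    nlinarith

/-- regular noise in a window -/
private theorem Cmp2_pr (d L : ℕ) (β k h : ℝ) (hk : 0 < k) (hk1 : k < 1) (hh : 0 < h) (N nw : ℕ)
    (G : boxS d L → ℂ) (x : boxS d L) (κ q : ℝ)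
    (H : PI (nz (boxS d L)) {ω | ¬ Reg2 κ (sc (h / ell k ^ 2) ω) nw x} ≤ ENNReal.ofReal q) :
    PI (Measure.pi fun _ : boxS d L => gC)
      {ω | ¬ Reg2 κ (fun j => gz k h ω (N + j)) nw x} ≤ ENNReal.ofReal q := by
  have hE : MeasurableSet {g : ℕ → boxS d L → ℝ | ¬ Reg2 κ g nw x} :=
    (measurableSet_Reg2 κ nw x).compl
  have hS : MeasurableSet {q : (boxS d L → ℂ) × (ℕ → boxS d L → ℂ) |
      gz k h q.2 ∈ {g : ℕ → boxS d L → ℝ | ¬ Reg2 κ g nw x}} :=
    ((Cmp2_gzm d L k h).comp measurable_snd) hE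
  refine Cmp2_markov (Measure.pi fun _ : boxS d L => gC) (st2 d β k h L)
    (measurable_st2 d β k h L) G N _ hS _ (fun s' => ?_)
  have h1 := re_law d L k h hk hk1 hh _ hE
  exact (le_of_eq h1).trans H

/-- the lower bound of one window -/
private theorem Cmp2_pw (d L : ℕ) (β k h : ℝ) (N nw : ℕ) (G : boxS d L → ℂ) (x z : boxS d L)
    (κ ε εw q : ℝ)
    (H : ∀ G : boxS d L → ℂ,
      (∀ v, ‖G v‖ * k ^ (boxNet d L).dist x v ≤ ‖G z‖ * k ^ (boxNet d L).dist x z) →
      (∀ v, ‖G v‖ ≤ k ^ (-(εw * (1 + (boxNet d L).dist x v)))) →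
      PI (Measure.pi fun _ : boxS d L => gC) {ω | Reg2 κ (gz k h ω) nw x ∧
          ‖traj (st2 d β k h L) G ω nw x‖ < min (k ^ (3 * κ))
            (k ^ (ε + (boxNet d L).dist x z) *
              Real.exp (ell k * ∑ j ∈ Finset.range nw, gz k h ω j x) * ‖G z‖)}
        ≤ ENNReal.ofReal q) :
    PI (Measure.pi fun _ : boxS d L => gC)
      {ω | ¬ ((∀ v, ‖traj (st2 d β k h L) G ω N v‖ * k ^ (boxNet d L).dist x v ≤
          ‖traj (st2 d β k h L) G ω N z‖ * k ^ (boxNet d L).dist x z) →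
        (∀ v, ‖traj (st2 d β k h L) G ω N v‖ ≤ k ^ (-(εw * (1 + (boxNet d L).dist x v)))) →
        Reg2 κ (fun j => gz k h ω (N + j)) nw x →
        min (k ^ (3 * κ)) (k ^ (ε + (boxNet d L).dist x z) *
              Real.exp (ell k * ∑ j ∈ Finset.range nw, gz k h ω (N + j) x) *
              ‖traj (st2 d β k h L) G ω N z‖) ≤ ‖traj (st2 d β k h L) G ω (N + nw) x‖)} ≤
      ENNReal.ofReal q := by
  set S : Set ((boxS d L → ℂ) × (ℕ → boxS d L → ℂ)) :=
    ({p | ∀ v, ‖p.1 v‖ * k ^ (boxNet d L).dist x v ≤ ‖p.1 z‖ * k ^ (boxNet d L).dist x z} ∩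
      {p | ∀ v, ‖p.1 v‖ ≤ k ^ (-(εw * (1 + (boxNet d L).dist x v)))}) ∩
    ({p | gz k h p.2 ∈ {g : ℕ → boxS d L → ℝ | Reg2 κ g nw x}} ∩
      {p | ‖traj (st2 d β k h L) p.1 p.2 nw x‖ < min (k ^ (3 * κ))
            (k ^ (ε + (boxNet d L).dist x z) *
              Real.exp (ell k * ∑ j ∈ Finset.range nw, gz k h p.2 j x) * ‖p.1 z‖)}) with hSd
  have hpt : ∀ v : boxS d L, Measurable fun p : (boxS d L → ℂ) × (ℕ → boxS d L → ℂ) => ‖p.1 v‖ :=
    fun v => ((measurable_pi_apply v).comp measurable_fst).norm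
  have hmg := Cmp2_gzm d L k h
  have hS : MeasurableSet S := by
    refine MeasurableSet.inter (MeasurableSet.inter ?_ ?_) (MeasurableSet.inter ?_ ?_)
    · have h1 : {p : (boxS d L → ℂ) × (ℕ → boxS d L → ℂ) | ∀ v,
          ‖p.1 v‖ * k ^ (boxNet d L).dist x v ≤ ‖p.1 z‖ * k ^ (boxNet d L).dist x z} =
          ⋂ v, {p | ‖p.1 v‖ * k ^ (boxNet d L).dist x v ≤
            ‖p.1 z‖ * k ^ (boxNet d L).dist x z} := by
        ext q
        simp
      refine (congrArg MeasurableSet h1).mpr ?_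
      exact MeasurableSet.iInter fun v => measurableSet_le ((hpt v).mul_const _)
        ((hpt z).mul_const _)
    · have h1 : {p : (boxS d L → ℂ) × (ℕ → boxS d L → ℂ) | ∀ v,
          ‖p.1 v‖ ≤ k ^ (-(εw * (1 + (boxNet d L).dist x v)))} =
          ⋂ v, {p | ‖p.1 v‖ ≤ k ^ (-(εw * (1 + (boxNet d L).dist x v)))} := by
        ext q
        simp
      refine (congrArg MeasurableSet h1).mpr ?_
      exact MeasurableSet.iInter fun v => measurableSet_le (hpt v) measurable_const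
    · exact (hmg.comp measurable_snd) (measurableSet_Reg2 κ nw x)
    · have hmt : Measurable fun p : (boxS d L → ℂ) × (ℕ → boxS d L → ℂ) =>
          ‖traj (st2 d β k h L) p.1 p.2 nw x‖ :=
        ((measurable_pi_apply x).comp
          (measurable_traj (st2 d β k h L) (measurable_st2 d β k h L) nw)).norm
      refine measurableSet_lt hmt (measurable_const.min (Measurable.mul
        (Measurable.const_mul ?_ _) (hpt z)))
      refine Real.measurable_exp.comp (Measurable.const_mul ?_ _)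
      exact Finset.measurable_fun_sum _ fun j _ =>
        (measurable_pi_apply x).comp ((measurable_pi_apply j).comp (hmg.comp measurable_snd))
  have h1 := Cmp2_markov (Measure.pi fun _ : boxS d L => gC) (st2 d β k h L)
    (measurable_st2 d β k h L) G N S hS (ENNReal.ofReal q) (fun s' => ?_)
  · refine (measure_mono ?_).trans h1
    intro ω hω
    simp only [Set.mem_ofPred_eq, Classical.not_imp, not_le] at hω
    obtain ⟨h2, h3, h4, h5⟩ := hω
    refine ⟨⟨h2, h3⟩, h4, ?_⟩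
    rw [Cmp2_traj_add] at h5
    exact h5
  · by_cases hP : (∀ v, ‖s' v‖ * k ^ (boxNet d L).dist x v ≤
        ‖s' z‖ * k ^ (boxNet d L).dist x z) ∧
        (∀ v, ‖s' v‖ ≤ k ^ (-(εw * (1 + (boxNet d L).dist x v))))
    · refine (measure_mono ?_).trans (H s' hP.1 hP.2)
      intro b hb
      exact ⟨hb.2.1, hb.2.2⟩
    · have h2 : {b : ℕ → boxS d L → ℂ | (s', b) ∈ S} = ∅ := by
        ext b
        simp only [Set.mem_ofPred_eq, Set.mem_empty_iff_false, iff_false]
        intro hb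
        exact hP ⟨hb.1.1, hb.1.2⟩
      rw [h2, measure_empty]
      exact zero_le

private theorem Cmp2_winsum {d L : ℕ} (y : boxS d L) (R : ℕ) (g : ℕ → boxS d L → ℝ) (nw : ℕ)
    (x : Bl d L y R) (i' i : ℕ) (hi : i' ≤ i) :
    ∑ l ∈ Finset.Ico i' i, gwin y R g nw l x = ∑ j ∈ Finset.Ico (i' * nw) (i * nw), g j x.1 := by
  induction i, hi using Nat.le_induction with
  | base => simp
  | succ i hi ih =>
    rw [Finset.sum_Ico_succ_top hi, ih]
    have h1 : i' * nw ≤ i * nw := Nat.mul_le_mul_right _ hi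
    have h2 : i * nw ≤ (i + 1) * nw := Nat.mul_le_mul_right _ (Nat.le_succ i)
    rw [← Finset.sum_Ico_consecutive _ h1 h2]
    congr 1
    rw [Finset.sum_Ico_eq_sum_range]
    have h3 : (i + 1) * nw - i * nw = nw := by
      rw [Nat.add_mul, Nat.one_mul, Nat.add_sub_cancel_left]
    rw [h3]
    rfl

/-- the good event -/
private structure Cmp2Good (d : ℕ) (β k h : ℝ) {L : ℕ} (G : boxS d L → ℂ) (y : boxS d L)
    (R Rb nw J m0 : ℕ) (M1 M2 M3 κ ε ε0 εw : ℝ) (ω : ℕ → boxS d L → ℂ) : Prop where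
  e1a : ∀ x, (boxNet d L).dist y x ≤ Rb →
    (boxMSet d L).lppM (1 / 8) (fun _ => 0) (gz k h ω) (J * nw) x ≤ M1
  e1b : ∀ x : Bl d L y R, (boxNet d L).dist y x.1 ≤ Rb →
    (ballM d L y R).lppM (1 / 8) (fun _ => 0) (gwin y R (gz k h ω) nw) J x ≤ M1
  e1c : ∀ x, (boxNet d L).dist y x ≤ Rb → ∀ i j, i ≤ j → j ≤ J * nw →
    |∑ l ∈ Finset.Ico i j, gz k h ω l x| ≤ M2
  e2 : ∀ x, (boxNet d L).dist y x ≤ R → ∀ i j, i ≤ j → j ≤ J * nw →
    |∑ l ∈ Finset.Ico i j, gz k h ω l x| ≤ M3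
  e3 : ∀ i, i < J → ∀ x, (boxNet d L).dist y x ≤ R →
    Reg2 κ (fun j => gz k h ω (i * nw + j)) nw x
  e4 : ∀ i, i < J → Caps k (nrm (traj (st2 d β k h L) G ω ((i + 1) * nw))) ε0 y
  e5 : ∀ i, i < J → ∀ x, (boxNet d L).dist y x ≤ R → ∀ z, (boxNet d L).dist x z ≤ m0 →
    ((∀ v, ‖traj (st2 d β k h L) G ω (i * nw) v‖ * k ^ (boxNet d L).dist x v ≤
          ‖traj (st2 d β k h L) G ω (i * nw) z‖ * k ^ (boxNet d L).dist x z) →
        (∀ v, ‖traj (st2 d β k h L) G ω (i * nw) v‖ ≤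
          k ^ (-(εw * (1 + (boxNet d L).dist x v)))) →
        Reg2 κ (fun j => gz k h ω (i * nw + j)) nw x →
        min (k ^ (3 * κ)) (k ^ (ε + (boxNet d L).dist x z) *
              Real.exp (ell k * ∑ j ∈ Finset.range nw, gz k h ω (i * nw + j) x) *
              ‖traj (st2 d β k h L) G ω (i * nw) z‖) ≤
          ‖traj (st2 d β k h L) G ω (i * nw + nw) x‖)

/-- the good event gives both bounds -/
private theorem Cmp2_det (d : ℕ) {β k h : ℝ} (hβ : 0 < β) (hk : 0 < k) (hk1 : k < 1) (hh : 0 < h)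
    {L : ℕ} (G : boxS d L → ℂ) (y : boxS d L) (R Rb nw J m0 : ℕ)
    (M s0 M1 M2 M3 κ ε ε0 κc : ℝ) (hM : 1 ≤ M) (hs0 : 0 ≤ s0) (hκ : 0 < κ)
    (hκ1 : κ ≤ 1 / 16) (hε : 0 < ε) (hε0 : 0 < ε0) (hε1 : ε0 ≤ 1 / 2) (hε2 : ε0 * (1 + R) ≤ 1)
    (hR : Rb + 2 * (M + s0 * Rb + 1) ≤ R) (hM1 : 0 ≤ M1) (hM2 : 0 ≤ M2) (hM3 : 0 ≤ M3)
    (hm0 : 2 * ((M + s0 * R + 1) + M3 + 2) ≤ m0) (hJ : 3 * κ + J * ε ≤ 1)
    (hJc : 3 * κ + J * ε ≤ κc)
    (hc1 : 8 * κ * (M1 + (M + s0 * Rb + 1 + M2)) + J * ε + ε0 * (1 + R) ≤ κc / 2)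
    (hc2 : ε + M1 + 1 + 3 / 4 * ((Rb : ℝ) - R) ≤ -(M + s0 * Rb + 1 + M2))
    (hc3 : 2 ≤ Real.exp (ell k * (κc / 2))) (hκc : 0 < κc)
    (hup : ∀ (g u : ℕ → boxS d L → ℝ) (X : Bl d L y R → ℝ), (∀ x, X x ≤ 0) →
      (∀ j x, 0 ≤ u j x) →
      (∀ j x, u (j + 1) x ≤ Real.exp (ell k * g j x) * u j x + k * h * cpl (boxNet d L) (u j) x) →
      (∀ x : Bl d L y R, ∀ i, i < J → ∀ l l', l ≤ l' → l' ≤ nw →
        |∑ j ∈ Finset.Ico (i * nw + l) (i * nw + l'), g j x.1| ≤ κ) →
      (∀ x : Bl d L y R, ∀ i, i ≤ J → u (i * nw) x.1 ≤ k ^ (-(ε0 * (1 + (R : ℝ))))) →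
      (∀ x : Bl d L y R, u 0 x.1 ≤ Real.exp (ell k * (X x + ε0 * (1 + (R : ℝ))))) →
      (∀ v, R < (boxNet d L).dist y v →
        u 0 v ≤ Real.exp (ell k * (1 + 3 / 4 * ((boxNet d L).dist y v - R)))) →
      ∀ i, i ≤ J → ∀ x : Bl d L y R, u (i * nw) x.1 ≤
        Real.exp (ell k * ((ballM d L y R).mfq (1 - 4 * κ) X (gwin y R g nw) i x + i * ε +
          ε0 * (1 + (R : ℝ)))) +
        k ^ (-ε) * Real.exp (ell k * ((boxMSet d L).lpp (1 / 8) (fun _ => 0) g (i * nw) x.1 +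
          1 + 3 / 4 * ((boxNet d L).dist y x.1 - R))))
    (hlow : LowR k (nrm G) M s0 y) (hcap0 : Caps k (nrm G) ε0 y)
    (ω : ℕ → boxS d L → ℂ)
    (hG : Cmp2Good d β k h G y R Rb nw J m0 M1 M2 M3 κ ε ε0 (ε0 * (1 + R)) ω) :
    ∀ i, 1 ≤ i → i ≤ J → ∀ x : Bl d L y R, (boxNet d L).dist y x.1 ≤ Rb →
      (Real.exp (ell k * ((ballM d L y R).mf (hB k (M + s0 * R + 1) (nrm G) y R)
                (gwin y R (gz k h ω) nw) i x - κc)) ≤ ‖traj (st2 d β k h L) G ω (i * nw) x.1‖ ∧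
              ‖traj (st2 d β k h L) G ω (i * nw) x.1‖ ≤
              Real.exp (ell k * ((ballM d L y R).mf (hB k (M + s0 * R + 1) (nrm G) y R)
                (gwin y R (gz k h ω) nw) i x + κc))) := by
  have hl := Cmp2_ell hk hk1
  set u : ℕ → boxS d L → ℝ := fun j => nrm (traj (st2 d β k h L) G ω j) with hu
  have hu0 : ∀ j v, 0 ≤ u j v := fun j v => norm_nonneg _
  have hu00 : u (0 * nw) = nrm G := by
    rw [Nat.zero_mul]
    rfl
  have hstep : ∀ j x, u (j + 1) x ≤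
      Real.exp (ell k * gz k h ω j x) * u j x + k * h * cpl (boxNet d L) (u j) x := by
    intro j x
    have h1 := (PS2 d β k hβ hk.le).u1 h L (traj (st2 d β k h L) G ω j, 0) (ω j) hh x
    have h2 : ell k * gz k h ω j x = bC h (ω j x) := by
      unfold gz bC
      field_simp
    rw [h2]
    exact h1
  have hcap : ∀ i, i ≤ J → Caps k (u (i * nw)) ε0 y := by
    intro i hi
    rcases Nat.eq_zero_or_pos i with h0 | h0
    · subst h0
      rw [Nat.zero_mul]
      exact hcap0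
    · obtain ⟨i', rfl⟩ : ∃ i', i = i' + 1 := ⟨i - 1, by omega⟩
      exact hG.e4 i' (by omega)
  have hblkw : ∀ (C : ℝ) (x : Bl d L y R), (∀ i j, i ≤ j → j ≤ J * nw →
      |∑ l ∈ Finset.Ico i j, gz k h ω l x.1| ≤ C) → ∀ i, i ≤ J → ∀ i', i' ≤ i →
      -C ≤ ∑ l ∈ Finset.Ico i' i, gwin y R (gz k h ω) nw l x := by
    intro C x hx i hi i' hi'
    rw [Cmp2_winsum y R (gz k h ω) nw x i' i hi']
    have h1 := hx (i' * nw) (i * nw) (Nat.mul_le_mul_right _ hi') (Nat.mul_le_mul_right _ hi)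
    exact (abs_le.mp h1).1
  have hlowb := Cmp2_low hk hk1 y R M s0 κ ε ε0 M3 m0 J hM hs0 hκ.le hε hJ hε0 hε1 hε2 hM3 hm0
    (fun i => u (i * nw)) (fun i v => hu0 _ v) (gwin y R (gz k h ω) nw)
    (by
      show LowR k (u (0 * nw)) M s0 y
      rw [hu00]
      exact hlow) hcap
    (fun x i hi i' hi' => hblkw M3 x (hG.e2 x.1 x.2) i hi i' hi') ?_
  · have hupb := Cmp2_up d hk hk1 y R Rb nw J M s0 κ ε ε0 M1 M2 κc h hM hs0 hκ hκ1 hε hε0 hε1 hε2
      hR hM1 hM2 hc1 hc2 hc3 hκc (gz k h ω) u hu0 hup hstep ?_ hcap hlow ?_ ?_ ?_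
    · intro i hi hiJ x hx
      constructor
      · obtain ⟨i', rfl⟩ : ∃ i', i = i' + 1 := ⟨i - 1, by omega⟩
        have h1 := hlowb i' hiJ x
        refine le_trans (Real.exp_le_exp.mpr (mul_le_mul_of_nonneg_left ?_ hl.le)) h1
        have h2 : ((i' : ℝ) + 1) * ε ≤ J * ε := by
          refine mul_le_mul_of_nonneg_right ?_ hε.le
          exact_mod_cast hiJ
        rw [hu00]
        linarith
      · exact hupb i hi hiJ x hx
    · intro x i hi l l' hll hl'
      have h1 := (hG.e3 i hi x.1 x.2).2 l l' hll hl'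
      rw [Finset.sum_Ico_add (fun j => gz k h ω j x.1) l l' (i * nw)] at h1
      rwa [add_comm l, add_comm l'] at h1
    · intro x hx i hi
      exact (le_lppM (boxMSet d L) _ _ _ (Nat.mul_le_mul_right _ hi) x.1).trans
        (hG.e1a x.1 hx)
    · intro x hx i hi
      exact (le_lppM (ballM d L y R) _ _ _ hi x).trans (hG.e1b x hx)
    · intro x hx i hi i' hi'
      exact hblkw M2 x (hG.e1c x.1 hx) i hi i' hi'
  · intro i hi x z hz hmax
    have h1 := hG.e5 i hi x.1 x.2 z hz hmax ?_ (hG.e3 i hi x.1 x.2)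
    · have h2 : (i + 1) * nw = i * nw + nw := by rw [Nat.add_mul, Nat.one_mul]
      show _ ≤ ‖traj (st2 d β k h L) G ω ((i + 1) * nw) x.1‖
      rw [h2]
      exact h1
    · intro v
      refine (hcap i hi.le v).trans ?_
      refine Real.rpow_le_rpow_of_exponent_ge hk hk1.le ?_
      have h2 : ((boxNet d L).dist v y : ℝ) ≤ (boxNet d L).dist x.1 v + R := by
        have h3 := (boxNet d L).dist_tri y x.1 v
        have h4 := x.2
        rw [(boxNet d L).dist_comm v y]
        exact_mod_cast (by omega : (boxNet d L).dist y v ≤ (boxNet d L).dist x.1 v + R)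
      have hR0 : (0 : ℝ) ≤ R := Nat.cast_nonneg _
      have hd0 : (0 : ℝ) ≤ (boxNet d L).dist x.1 v := Nat.cast_nonneg _
      have h5 : 1 + ((boxNet d L).dist v y : ℝ) ≤ (1 + R) * (1 + (boxNet d L).dist x.1 v) := by
        nlinarith
      have h6 := mul_le_mul_of_nonneg_left h5 hε0.le
      nlinarith

/-! ### constants -/

private theorem Cmp2_c1 (N A lam0 p : ℝ) (hN : 0 ≤ N) (hl : 0 < lam0) (hp : 0 < p) :
    ∃ M1 : ℝ, 0 ≤ M1 ∧ N * Real.exp (A - lam0 * M1) ≤ p / 16 := by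
  refine ⟨16 * N * Real.exp A / p / lam0, by positivity, ?_⟩
  have h1 : lam0 * (16 * N * Real.exp A / p / lam0) = 16 * N * Real.exp A / p := by
    field_simp
  rw [h1, Real.exp_sub]
  have h2 := Real.add_one_le_exp (16 * N * Real.exp A / p)
  have h3 : 0 ≤ 16 * N * Real.exp A / p := by positivity
  have h4 : 0 < Real.exp (16 * N * Real.exp A / p) := Real.exp_pos _
  rw [← mul_div_assoc, div_le_iff₀ h4]
  have h5 : N * Real.exp A = p / 16 * (16 * N * Real.exp A / p) := by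
    field_simp
  rw [h5]
  refine mul_le_mul_of_nonneg_left ?_ (by positivity)
  linarith

private theorem Cmp2_c2 (N B p : ℝ) (hN : 0 ≤ N) (hB : 0 < B) (hp : 0 < p) :
    ∃ M2 : ℝ, 0 ≤ M2 ∧ N * (4 * Real.exp (-(M2 ^ 2 / (32 * B)))) ≤ p / 16 := by
  obtain ⟨m, hm, hmN⟩ := Cmp2_c1 (4 * N) 0 (1 / (32 * B)) p (by positivity) (by positivity) hp
  refine ⟨max m 1, le_trans hm (le_max_left _ _), ?_⟩
  refine le_trans ?_ hmN
  have h1 : m / (32 * B) ≤ (max m 1) ^ 2 / (32 * B) := by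
    refine div_le_div_of_nonneg_right ?_ (by positivity)
    have h2 : m ≤ max m 1 := le_max_left _ _
    have h3 : 1 ≤ max m 1 := le_max_right _ _
    nlinarith
  have h4 : Real.exp (-((max m 1) ^ 2 / (32 * B))) ≤ Real.exp (0 - 1 / (32 * B) * m) := by
    refine Real.exp_le_exp.mpr ?_
    have h5 : 1 / (32 * B) * m = m / (32 * B) := by ring
    rw [h5]
    linarith
  calc N * (4 * Real.exp (-((max m 1) ^ 2 / (32 * B))))
      ≤ N * (4 * Real.exp (0 - 1 / (32 * B) * m)) := by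
        refine mul_le_mul_of_nonneg_left ?_ hN
        linarith
    _ = 4 * N * Real.exp (0 - 1 / (32 * B) * m) := by ring

private theorem Cmp2_c3 (κ T N p s1 C lam0 : ℝ) (hκ : 0 < κ) (hT : 0 < T) (hN : 0 < N)
    (hp : 0 < p) (hs1 : 0 < s1) (hC : 0 < C) (hl : 0 < lam0) :
    ∃ σ0 : ℝ, 0 < σ0 ∧ ∀ σ, 0 < σ → σ ≤ σ0 → 2 * σ ≤ s1 ∧ C * Real.sqrt (2 * σ) ≤ κ ∧
      2 * σ ≤ 1 / lam0 ^ 2 ∧ T / σ * (N * Real.exp (-(κ / Real.sqrt (2 * σ)))) ≤ p / 16 := by
  refine ⟨min (s1 / 2) (min ((κ / C) ^ 2 / 2) (min (1 / lam0 ^ 2 / 2)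
    (p * κ ^ 4 / (16 * 96 * T * N)))), ?_, ?_⟩
  · refine lt_min (by positivity) (lt_min (by positivity) (lt_min (by positivity) (by positivity)))
  intro σ hσ hσ0
  have a1 := hσ0.trans (min_le_left _ _)
  have a2' := hσ0.trans (min_le_right _ _)
  have a2 := a2'.trans (min_le_left _ _)
  have a3' := a2'.trans (min_le_right _ _)
  have a3 := a3'.trans (min_le_left _ _)
  have a4 := a3'.trans (min_le_right _ _)
  refine ⟨by linarith, ?_, by linarith, ?_⟩
  · have h1 : Real.sqrt (2 * σ) ≤ κ / C := by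
      rw [Real.sqrt_le_left (by positivity)]
      linarith
    rw [le_div_iff₀ hC] at h1
    linarith
  · set r : ℝ := Real.sqrt (2 * σ) with hr
    have hr0 : 0 < r := Real.sqrt_pos.mpr (by positivity)
    have hr2 : r ^ 2 = 2 * σ := Real.sq_sqrt (by positivity)
    set x : ℝ := κ / r with hx
    have hx0 : 0 < x := by positivity
    have h1 := Real.pow_div_factorial_le_exp x hx0.le 4
    have h2 : Real.exp (-x) ≤ 24 / x ^ 4 := by
      rw [Real.exp_neg, inv_eq_one_div, div_le_div_iff₀ (Real.exp_pos _) (by positivity)]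
      have h3 : ((Nat.factorial 4 : ℕ) : ℝ) = 24 := by norm_num [Nat.factorial]
      rw [h3, div_le_iff₀ (by norm_num)] at h1
      linarith
    have h4 : 24 / x ^ 4 = 96 * σ ^ 2 / κ ^ 4 := by
      have h5 : r ^ 4 = 4 * σ ^ 2 := by
        have : r ^ 4 = (r ^ 2) ^ 2 := by ring
        rw [this, hr2]
        ring
      rw [hx, div_pow, h5]
      field_simp
      ring
    rw [h4] at h2
    calc T / σ * (N * Real.exp (-x)) ≤ T / σ * (N * (96 * σ ^ 2 / κ ^ 4)) := by
          refine mul_le_mul_of_nonneg_left (mul_le_mul_of_nonneg_left h2 hN.le) (by positivity)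
      _ = (16 * 96 * T * N) * σ / (16 * κ ^ 4) := by
          field_simp
      _ ≤ p / 16 := by
          rw [le_div_iff₀ (by positivity)] at a4
          rw [div_le_div_iff₀ (by positivity) (by norm_num)]
          nlinarith

private theorem Cmp2_c4 (σ T κc p c1 A1 c2 A2 : ℝ) (J : ℕ) (hσ : 0 < σ) (hT : 0 < T)
    (hκc : 0 < κc) (hp : 0 < p) (hc1 : 0 < c1) (hc2 : 0 < c2) (hA1 : 0 ≤ A1) (hA2 : 0 ≤ A2) :
    ∃ k0 : ℝ, 0 < k0 ∧ k0 < 1 ∧ ∀ k, 0 < k → k < k0 →
      2 ≤ σ * ell k ^ 2 ∧ 1 ≤ ell k ∧ σ * ell k ^ 2 + 1 ≤ ell k ^ 3 ∧ J ≤ ell k ^ 2 ∧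
      T * ell k ^ 2 + J ≤ ell k ^ 3 ∧ 2 ≤ Real.exp (ell k * (κc / 2)) ∧
      A1 * k ^ c1 ≤ p / 16 ∧ A2 * k ^ c2 ≤ p / 16 := by
  have hJ0 : (0 : ℝ) ≤ J := Nat.cast_nonneg _
  set l0 : ℝ := 1 + 2 / σ + σ + J + T + 2 / κc + 16 * A1 / p / c1 + 16 * A2 / p / c2 with hl0
  have p1 : 0 < 2 / σ := by positivity
  have p2 : 0 < 2 / κc := by positivity
  have p3 : 0 ≤ 16 * A1 / p / c1 := by positivity
  have p4 : 0 ≤ 16 * A2 / p / c2 := by positivity
  refine ⟨Real.exp (-l0), Real.exp_pos _, ?_, ?_⟩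
  · rw [Real.exp_lt_one_iff]
    linarith
  intro k hk hkk
  have hl : l0 < ell k := by
    unfold ell
    rw [one_div, Real.log_inv]
    have h1 := Real.log_lt_log hk hkk
    rw [Real.log_exp] at h1
    linarith
  have h1 : 1 ≤ ell k := by linarith
  have hsq : ell k ≤ ell k ^ 2 := by nlinarith
  have hsq0 : 0 < ell k ^ 2 := by positivity
  have hdec : ∀ c A : ℝ, 0 < c → 0 ≤ A → 16 * A / p / c ≤ ell k → A * k ^ c ≤ p / 16 := by
    intro c A hc hA hle
    rw [div_le_iff₀ hc, div_le_iff₀ hp] at hle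
    rw [Cmp2_rp hk, Real.exp_neg, ← div_eq_mul_inv, div_le_iff₀ (Real.exp_pos _)]
    have h2 := Real.add_one_le_exp (c * ell k)
    have h3 : p / 16 * (c * ell k) ≤ p / 16 * Real.exp (c * ell k) :=
      mul_le_mul_of_nonneg_left (by linarith) (by positivity)
    linarith
  refine ⟨?_, h1, ?_, ?_, ?_, ?_, hdec c1 A1 hc1 hA1 (by linarith),
    hdec c2 A2 hc2 hA2 (by linarith)⟩
  · have h2 : 2 / σ ≤ ell k ^ 2 := by linarith
    rw [div_le_iff₀ hσ] at h2
    linarith
  · have h2 : (σ + 1) * ell k ^ 2 ≤ ell k * ell k ^ 2 :=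
      mul_le_mul_of_nonneg_right (by linarith) hsq0.le
    nlinarith
  · linarith
  · have h2 : (T + J) * ell k ^ 2 ≤ ell k * ell k ^ 2 :=
      mul_le_mul_of_nonneg_right (by linarith) hsq0.le
    have h3 : (J : ℝ) ≤ J * ell k ^ 2 := by nlinarith
    nlinarith
  · have h2 : 2 / κc ≤ ell k := by linarith
    rw [div_le_iff₀ hκc] at h2
    have h3 := Real.add_one_le_exp (ell k * (κc / 2))
    linarith

private theorem Cmp2_union {Ω : Type} [MeasurableSpace Ω] (μ : Measure Ω)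
    (A1 A2 A3 A4 A5 A6 A7 A8 S : Set Ω) (p : ℝ) (hp : 0 < p)
    (h1 : μ A1 ≤ ENNReal.ofReal (p / 16)) (h2 : μ A2 ≤ ENNReal.ofReal (p / 16))
    (h3 : μ A3 ≤ ENNReal.ofReal (p / 16)) (h4 : μ A4 ≤ ENNReal.ofReal (p / 16))
    (h5 : μ A5 ≤ ENNReal.ofReal (p / 16)) (h6 : μ A6 ≤ ENNReal.ofReal (p / 16))
    (h7 : μ A7 ≤ ENNReal.ofReal (p / 16)) (h8 : μ A8 ≤ ENNReal.ofReal (p / 16))
    (hS : S ⊆ ((A1 ∪ A2) ∪ (A3 ∪ A4)) ∪ ((A5 ∪ A6) ∪ (A7 ∪ A8))) :
    μ S ≤ ENNReal.ofReal p := by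
  have two : ∀ (X Y : Set Ω) (a : ℝ), 0 ≤ a → μ X ≤ ENNReal.ofReal a → μ Y ≤ ENNReal.ofReal a →
      μ (X ∪ Y) ≤ ENNReal.ofReal (2 * a) := by
    intro X Y a ha hX hY
    refine (measure_union_le _ _).trans ((add_le_add hX hY).trans (le_of_eq ?_))
    rw [← ENNReal.ofReal_add ha ha]
    congr 1
    ring
  have h := two _ _ _ (by positivity) (two _ _ _ (by positivity)
    (two A1 A2 _ (by positivity) h1 h2) (two A3 A4 _ (by positivity) h3 h4))
    (two _ _ _ (by positivity) (two A5 A6 _ (by positivity) h5 h6)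
    (two A7 A8 _ (by positivity) h7 h8))
  refine (measure_mono hS).trans (h.trans (ENNReal.ofReal_le_ofReal ?_))
  linarith

theorem cmp2 (d : ℕ) (hd : 1 ≤ d) (β : ℝ) (hβ : 0 < β) (T M s0 : ℝ) (Rb : ℕ) (κc p : ℝ)
    (hT : 1 ≤ T) (hM : 1 ≤ M) (hs0 : 0 ≤ s0) (hs1 : s0 ≤ 1 / 16) (hκ : 0 < κc) (hp : 0 < p) :
    ∃ R0 : ℕ, ∀ R, R0 ≤ R → ∃ σ0 : ℝ, 0 < σ0 ∧ ∀ σ, 0 < σ → σ ≤ σ0 →
    ∃ ε0 k0 : ℝ, 0 < ε0 ∧ 0 < k0 ∧ k0 < 1 ∧
    ∀ k, 0 < k → k < k0 → ∀ L : ℕ, ∃ h0 : ℝ, 0 < h0 ∧ ∀ h, 0 < h → h < h0 →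
    ∀ nw J : ℕ, σ * ell k ^ 2 - 1 ≤ nw * h → nw * h ≤ σ * ell k ^ 2 + 1 → J * σ ≤ T →
    ∀ (G : boxS d L → ℂ) (y : boxS d L), LowR k (nrm G) M s0 y → Caps k (nrm G) ε0 y →
      PI (Measure.pi fun _ : boxS d L => gC) {ω | ∃ i, 1 ≤ i ∧ i ≤ J ∧ ∃ x : Bl d L y R,
          (boxNet d L).dist y x.1 ≤ Rb ∧
          ¬ (Real.exp (ell k * ((ballM d L y R).mf (hB k (M + s0 * R + 1) (nrm G) y R)
                (gwin y R (gz k h ω) nw) i x - κc)) ≤ ‖traj (st2 d β k h L) G ω (i * nw) x.1‖ ∧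
              ‖traj (st2 d β k h L) G ω (i * nw) x.1‖ ≤
              Real.exp (ell k * ((ballM d L y R).mf (hB k (M + s0 * R + 1) (nrm G) y R)
                (gwin y R (gz k h ω) nw) i x + κc)))}
        ≤ ENNReal.ofReal p := by
  obtain ⟨lam0, C, hlam0, hC, HT⟩ := lpp_tail d (1 / 8) (by norm_num)
  have hT0 : 0 < T := by linarith
  -- M1, M2
  obtain ⟨M1, hM1, hM1p⟩ := Cmp2_c1 ((2 * Rb + 1) ^ d) (C * (T + 1 + 1)) lam0 p (by positivity)
    hlam0 hp
  obtain ⟨M2, hM2, hM2p⟩ := Cmp2_c2 ((2 * Rb + 1) ^ d) (T + 1) p (by positivity) (by positivity) hp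
  set A : ℝ := M + s0 * Rb + 1 + M2 with hA
  have hA0 : 0 < A := by positivity
  set R0 : ℕ := ⌈Rb + 2 * (M + s0 * Rb + 1) + 4 / 3 * (M1 + M2 + M + s0 * Rb + 8)⌉₊ with hR0
  refine ⟨R0, fun R hR => ?_⟩
  have hRR : Rb + 2 * (M + s0 * Rb + 1) + 4 / 3 * (M1 + M2 + M + s0 * Rb + 8) ≤ (R : ℝ) := by
    refine (Nat.le_ceil _).trans ?_
    exact_mod_cast hR
  have hs0Rb : 0 ≤ s0 * (Rb : ℝ) := by positivity
  have hR1 : Rb + 2 * (M + s0 * Rb + 1) ≤ (R : ℝ) := by linarith
  have hR2 : M1 + M2 + M + s0 * Rb + 8 ≤ 3 / 4 * ((R : ℝ) - Rb) := by linarith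
  -- M3, κ, m0
  obtain ⟨M3, hM3, hM3p⟩ := Cmp2_c2 ((2 * R + 1) ^ d) (T + 1) p (by positivity) (by positivity) hp
  set c' : ℝ := min κc 1 with hc'
  have hc'0 : 0 < c' := lt_min hκ one_pos
  have hc'1 : c' ≤ 1 := min_le_right _ _
  have hc'κ : c' ≤ κc := min_le_left _ _
  set κ : ℝ := c' / (64 * (1 + M1 + A)) with hκd
  have hden : 0 < 64 * (1 + M1 + A) := by positivity
  have hκ0 : 0 < κ := by positivity
  have hκmul : κ * (1 + M1 + A) = c' / 64 := by
    rw [hκd]
    field_simp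
  have hκsp : κ * (1 + M1 + A) = κ + κ * (M1 + A) := by ring
  have hκA0 : 0 ≤ κ * (M1 + A) := mul_nonneg hκ0.le (add_nonneg hM1 hA0.le)
  have hκA : κ * (M1 + A) ≤ c' / 64 := by linarith
  have hκ1 : κ ≤ c' / 64 := by linarith
  have hκ64 : κ ≤ 1 / 64 := by linarith
  obtain ⟨m0, hm0⟩ : ∃ m0 : ℕ, 2 * ((M + s0 * R + 1) + M3 + 2) ≤ (m0 : ℝ) :=
    ⟨_, Nat.le_ceil _⟩
  obtain ⟨C', s1, hC', hs1', HR⟩ := reg2_prob d
  obtain ⟨σ0, hσ0, Hσ⟩ := Cmp2_c3 κ T ((2 * R + 1) ^ d * C') p s1 C' lam0 hκ0 hT0 (by positivity)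
    hp hs1' (by linarith) hlam0
  refine ⟨σ0, hσ0, fun σ hσ hσσ => ?_⟩
  obtain ⟨q1, q2, q3, q4⟩ := Hσ σ hσ hσσ
  set J0 : ℕ := ⌊T / σ⌋₊ with hJ0
  have hJ0σ : (J0 : ℝ) ≤ T / σ := Nat.floor_le (by positivity)
  have hJ0T : J0 * σ ≤ T := by
    rwa [le_div_iff₀ hσ] at hJ0σ
  set ε : ℝ := c' / (16 * (J0 + 1)) with hεd
  have hε : 0 < ε := by positivity
  have hεJ : (J0 + 1) * ε = c' / 16 := by
    rw [hεd]
    field_simp
  have hεsp : ((J0 : ℝ) + 1) * ε = J0 * ε + ε := by ring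
  have hεJ' : J0 * ε ≤ c' / 16 := by linarith
  have hε1 : ε ≤ c' / 16 := by
    have : 0 ≤ (J0 : ℝ) * ε := mul_nonneg (Nat.cast_nonneg _) hε.le
    linarith
  obtain ⟨ε1, cw, kw, hε1p, hcw, hkw, hkw1, HW2⟩ := wl2 d β hβ m0 κ hκ0 hκ64 ε hε
  have hm0p : (0 : ℝ) < 1 + m0 := by positivity
  set ε0 : ℝ := min (ε1 / (1 + m0)) (c' / 32) / (1 + R) with hε0d
  have hRpos : (0 : ℝ) < 1 + R := by positivity
  have hmin : 0 < min (ε1 / (1 + m0)) (c' / 32) := lt_min (by positivity) (by positivity)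
  have hε0 : 0 < ε0 := by positivity
  have hε0R : ε0 * (1 + R) = min (ε1 / (1 + m0)) (c' / 32) := by
    rw [hε0d]
    field_simp
  have hεwε1 : ε0 * (1 + R) * (1 + m0) ≤ ε1 := by
    have h1 : ε0 * (1 + R) ≤ ε1 / (1 + m0) := by rw [hε0R]; exact min_le_left _ _
    rwa [le_div_iff₀ hm0p] at h1
  have hεwc' : ε0 * (1 + R) ≤ c' / 32 := by rw [hε0R]; exact min_le_right _ _
  have hεwc : ε0 * (1 + R) ≤ c' / 16 := by linarith
  have hεw0 : 0 < ε0 * (1 + R) := by positivity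
  have hε0h : ε0 ≤ 1 / 2 := by
    have h1 : 0 ≤ ε0 * (R : ℝ) := mul_nonneg hε0.le (Nat.cast_nonneg _)
    have h2 : ε0 * (1 + (R : ℝ)) = ε0 + ε0 * R := by ring
    linarith
  obtain ⟨cc, kc, hcc, hkc, hkc1, HCp⟩ := caps_prob 2 d β hβ ε0 hε0
  obtain ⟨ku, hku, hku1, HU⟩ := upper_cmp d κ ε (ε0 * (1 + R)) hκ0 (by linarith) hε hεw0 J0
    (by linarith)
  obtain ⟨k1, hk1p, hk11, H4⟩ := Cmp2_c4 σ T κc p cc J0 cw
    (J0 * ((2 * R + 1) ^ d * (2 * m0 + 1) ^ d)) J0 hσ hT0 hκ hp hcc hcw (Nat.cast_nonneg _)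
    (by positivity)
  refine ⟨ε0, min k1 (min kw (min kc ku)), hε0,
    lt_min hk1p (lt_min hkw (lt_min hkc hku)), (min_le_left _ _).trans_lt hk11, ?_⟩
  intro k hk hkk L
  have b1 := hkk.trans_le (min_le_left _ _)
  have b2' := hkk.trans_le (min_le_right _ _)
  have b2 := b2'.trans_le (min_le_left _ _)
  have b3' := b2'.trans_le (min_le_right _ _)
  have b3 := b3'.trans_le (min_le_left _ _)
  have b4 := b3'.trans_le (min_le_right _ _)
  have hk1 : k < 1 := b1.trans hk11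
  obtain ⟨r1, r2, r3, r4, r5, r6, r7, r8⟩ := H4 k hk b1
  have hl := Cmp2_ell hk hk1
  have hl2 : 0 < ell k ^ 2 := by positivity
  obtain ⟨hw, hhw, HW3⟩ := HW2 k hk b2 L
  obtain ⟨hc, hhc, HC2⟩ := HCp (Fam2 d β k) k (PS2 d β k hβ hk.le) hk b3 bnoise2 L
  -- exit
  set Bd : ℝ := ∑ y : boxS d L, ∑ v : boxS d L, k ^ (-(ε0 * (1 + ((boxNet d L).dist v y : ℝ))))
    with hBd
  have hBd0 : 0 ≤ Bd := by
    refine Finset.sum_nonneg fun y _ => Finset.sum_nonneg fun v _ => ?_
    exact (Real.rpow_pos_of_pos hk _).le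
  obtain ⟨he, hhe, HE⟩ := exit_bd 2 hβ hk.le (PS2 d β k hβ hk.le) bnoise2 L (T * ell k ^ 2 + J0)
    (p / 16 / (1 + Bd)) (by positivity) (by positivity)
  refine ⟨min hw (min hc (min he (min 1 (ell k ^ 2 / lam0 ^ 2)))),
    lt_min hhw (lt_min hhc (lt_min hhe (lt_min one_pos (by positivity)))), ?_⟩
  intro h hh hhh nw J hn1 hn2 hJT G y hlow hcap
  have g1 := hhh.trans_le (min_le_left _ _)
  have g2' := hhh.trans_le (min_le_right _ _)
  have g2 := g2'.trans_le (min_le_left _ _)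
  have g3' := g2'.trans_le (min_le_right _ _)
  have g3 := g3'.trans_le (min_le_left _ _)
  have g4' := g3'.trans_le (min_le_right _ _)
  have g4 := g4'.trans_le (min_le_left _ _)
  have g5 := g4'.trans_le (min_le_right _ _)
  have hJJ : J ≤ J0 := Nat.le_floor (by rw [le_div_iff₀ hσ]; exact hJT)
  by_cases hJz : J = 0
  · have h1 : {ω : ℕ → boxS d L → ℂ | ∃ i, 1 ≤ i ∧ i ≤ J ∧ ∃ x : Bl d L y R,
          (boxNet d L).dist y x.1 ≤ Rb ∧
          ¬ (Real.exp (ell k * ((ballM d L y R).mf (hB k (M + s0 * R + 1) (nrm G) y R)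
                (gwin y R (gz k h ω) nw) i x - κc)) ≤ ‖traj (st2 d β k h L) G ω (i * nw) x.1‖ ∧
              ‖traj (st2 d β k h L) G ω (i * nw) x.1‖ ≤
              Real.exp (ell k * ((ballM d L y R).mf (hB k (M + s0 * R + 1) (nrm G) y R)
                (gwin y R (gz k h ω) nw) i x + κc)))} = ∅ := by
      ext ω
      simp only [Set.mem_ofPred_eq, Set.mem_empty_iff_false, iff_false]
      rintro ⟨i, hi1, hi2, _⟩
      omega
    rw [h1, measure_empty]
    exact zero_le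
  have hJ1 : 1 ≤ J0 := by omega
  have hnwh : 1 ≤ nw * h := by linarith
  have hnw : 1 ≤ nw := by
    by_contra hcon
    have h1 : nw = 0 := by omega
    rw [h1] at hnwh
    norm_num at hnwh
  have hJ0R : (0 : ℝ) ≤ J0 := Nat.cast_nonneg _
  have hnv : nw * h / ell k ^ 2 ≤ 2 * σ := by
    rw [div_le_iff₀ hl2]
    linarith
  have hJn : J0 * (nw * h / ell k ^ 2) ≤ T + 1 := by
    have h1 : J0 * (nw * h) ≤ (T + 1) * ell k ^ 2 := by
      have h2 : J0 * (nw * h) ≤ J0 * (σ * ell k ^ 2 + 1) := mul_le_mul_of_nonneg_left hn2 hJ0R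
      have h3 : J0 * σ * ell k ^ 2 ≤ T * ell k ^ 2 := mul_le_mul_of_nonneg_right hJ0T hl2.le
      have h4 : (J0 : ℝ) * (σ * ell k ^ 2 + 1) = J0 * σ * ell k ^ 2 + J0 := by ring
      linarith
    rw [← mul_div_assoc, div_le_iff₀ hl2]
    exact h1
  have hJn' : ((J0 * nw : ℕ) : ℝ) * (h / ell k ^ 2) ≤ T + 1 := by
    refine le_trans (le_of_eq ?_) hJn
    push_cast
    ring
  have hJnh : ((J0 * nw : ℕ) : ℝ) * h ≤ T * ell k ^ 2 + J0 := by
    have h2 : J0 * (nw * h) ≤ J0 * (σ * ell k ^ 2 + 1) := mul_le_mul_of_nonneg_left hn2 hJ0R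
    have h3 : J0 * σ * ell k ^ 2 ≤ T * ell k ^ 2 := mul_le_mul_of_nonneg_right hJ0T hl2.le
    have h4 : (J0 : ℝ) * (σ * ell k ^ 2 + 1) = J0 * σ * ell k ^ 2 + J0 := by ring
    rw [Nat.cast_mul, mul_assoc]
    linarith
  have hv : h / ell k ^ 2 ≤ 1 / lam0 ^ 2 := by
    rw [div_le_div_iff₀ hl2 (by positivity)]
    rw [lt_div_iff₀ (by positivity)] at g5
    linarith
  set μ := PI (Measure.pi fun _ : boxS d L => gC) with hμ
  set AL : Set (ℕ → boxS d L → ℂ) := (PS2 d β k hβ hk.le).alv h L (G, 0) (J0 * nw) with hAL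
  -- the eight events
  have E1 : μ {ω | ¬ ∀ x, (boxNet d L).dist y x ≤ Rb →
      (boxMSet d L).lppM (1 / 8) (fun _ => 0) (gz k h ω) (J0 * nw) x ≤ M1} ≤
      ENNReal.ofReal (p / 16) :=
    (Cmp2_ballU μ y Rb _ _ (Real.exp_pos _).le fun x _ =>
      Cmp2_pa d L k h hk hk1 hh (J0 * nw) x M1 lam0 C (T + 1) hC HT hv hJn').trans
      (ENNReal.ofReal_le_ofReal hM1p)
  have E2 : μ {ω | ¬ ∀ x, (boxNet d L).dist y x ≤ Rb → ∀ hx : (boxNet d L).dist y x ≤ R,
      (ballM d L y R).lppM (1 / 8) (fun _ => 0) (gwin y R (gz k h ω) nw) J0 ⟨x, hx⟩ ≤ M1} ≤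
      ENNReal.ofReal (p / 16) := by
    refine (Cmp2_ballU μ y Rb (fun x ω => ∀ hx : (boxNet d L).dist y x ≤ R,
      (ballM d L y R).lppM (1 / 8) (fun _ => 0) (gwin y R (gz k h ω) nw) J0 ⟨x, hx⟩ ≤ M1) _
      (Real.exp_pos (C * (T + 1 + 1) - lam0 * M1)).le fun x _ => ?_).trans
      (ENNReal.ofReal_le_ofReal hM1p)
    by_cases hx : (boxNet d L).dist y x ≤ R
    · refine (measure_mono ?_).trans (Cmp2_pb d L k h hk hk1 hh J0 nw hnw y R ⟨x, hx⟩ M1 lam0 C
        (T + 1) hC HT (hnv.trans q3) hJn)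
      intro ω hω
      simp only [Set.mem_ofPred_eq, not_forall] at hω ⊢
      obtain ⟨_, h1⟩ := hω
      exact h1
    · have h1 : {ω : ℕ → boxS d L → ℂ | ¬ ∀ hx : (boxNet d L).dist y x ≤ R,
          (ballM d L y R).lppM (1 / 8) (fun _ => 0) (gwin y R (gz k h ω) nw) J0 ⟨x, hx⟩ ≤ M1} =
          ∅ := by
        ext ω
        simp only [Set.mem_ofPred_eq, Set.mem_empty_iff_false, iff_false, not_not]
        intro hx'
        exact absurd hx' hx
      rw [h1, measure_empty]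
      exact zero_le
  have E3 : μ {ω | ¬ ∀ x, (boxNet d L).dist y x ≤ Rb → ∀ i j, i ≤ j → j ≤ J0 * nw →
      |∑ l ∈ Finset.Ico i j, gz k h ω l x| ≤ M2} ≤ ENNReal.ofReal (p / 16) :=
    (Cmp2_ballU μ y Rb _ _ (by positivity) fun x _ =>
      Cmp2_pc d L k h hk hk1 hh (J0 * nw) (Nat.mul_pos hJ1 hnw) x M2 (T + 1) hM2 (by positivity)
        hJn').trans (ENNReal.ofReal_le_ofReal hM2p)
  have E4 : μ {ω | ¬ ∀ x, (boxNet d L).dist y x ≤ R → ∀ i j, i ≤ j → j ≤ J0 * nw →
      |∑ l ∈ Finset.Ico i j, gz k h ω l x| ≤ M3} ≤ ENNReal.ofReal (p / 16) :=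
    (Cmp2_ballU μ y R _ _ (by positivity) fun x _ =>
      Cmp2_pc d L k h hk hk1 hh (J0 * nw) (Nat.mul_pos hJ1 hnw) x M3 (T + 1) hM3 (by positivity)
        hJn').trans (ENNReal.ofReal_le_ofReal hM3p)
  have hvn : h / ell k ^ 2 * nw ≤ 2 * σ := by
    refine le_trans (le_of_eq ?_) hnv
    ring
  have hvn0 : 0 < h / ell k ^ 2 * nw := by
    have : (0 : ℝ) < nw := by exact_mod_cast hnw
    positivity
  have hsq : Real.sqrt (h / ell k ^ 2 * nw) ≤ Real.sqrt (2 * σ) := Real.sqrt_le_sqrt hvn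
  have hsq0 : 0 < Real.sqrt (h / ell k ^ 2 * nw) := Real.sqrt_pos.mpr hvn0
  have E5 : μ {ω | ¬ ∀ i, i < J0 → ∀ x, (boxNet d L).dist y x ≤ R →
      Reg2 κ (fun j => gz k h ω (i * nw + j)) nw x} ≤ ENNReal.ofReal (p / 16) := by
    have hone : ∀ i : ℕ, ∀ x : boxS d L, μ {ω | ¬ Reg2 κ (fun j => gz k h ω (i * nw + j)) nw x} ≤
        ENNReal.ofReal (C' * Real.exp (-(κ / Real.sqrt (2 * σ)))) := by
      intro i x
      refine Cmp2_pr d L β k h hk hk1 hh (i * nw) nw G x κ _ ?_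
      refine (HR L nw (h / ell k ^ 2) κ (by positivity) hnw (hvn.trans q1)
        (le_trans (mul_le_mul_of_nonneg_left hsq (by linarith)) q2) x).trans
        (ENNReal.ofReal_le_ofReal ?_)
      refine mul_le_mul_of_nonneg_left (Real.exp_le_exp.mpr ?_) (by linarith)
      refine neg_le_neg ?_
      exact div_le_div_of_nonneg_left hκ0.le hsq0 hsq
    have hexp : 0 ≤ C' * Real.exp (-(κ / Real.sqrt (2 * σ))) := by positivity
    refine (Cmp2_rangeU μ J0 _ ((2 * R + 1) ^ d * (C' * Real.exp (-(κ / Real.sqrt (2 * σ)))))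
      (by positivity) fun i _ => Cmp2_ballU μ y R _ _ hexp fun x _ => hone i x).trans
      (ENNReal.ofReal_le_ofReal ?_)
    refine le_trans ?_ q4
    have h1 : (2 * (R : ℝ) + 1) ^ d * C' * Real.exp (-(κ / Real.sqrt (2 * σ))) =
        (2 * R + 1) ^ d * (C' * Real.exp (-(κ / Real.sqrt (2 * σ)))) := by ring
    rw [h1]
    exact mul_le_mul_of_nonneg_right hJ0σ (by positivity)
  have E6 : μ ALᶜ ≤ ENNReal.ofReal (p / 16) := by
    have h1 : μ ALᶜ ≤ ENNReal.ofReal (p / 16 / (1 + Bd) *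
        (1 + ∑ x, (‖(G, (0 : boxS d L → ℂ)).1 x‖ + ‖(G, (0 : boxS d L → ℂ)).2 x‖))) :=
      HE h hh g3 (G, 0) (J0 * nw) hJnh
    refine h1.trans (ENNReal.ofReal_le_ofReal ?_)
    have h2 : ∑ x, (‖(G, (0 : boxS d L → ℂ)).1 x‖ + ‖(G, (0 : boxS d L → ℂ)).2 x‖) ≤ Bd := by
      have h3 : ∑ x, (‖(G, (0 : boxS d L → ℂ)).1 x‖ + ‖(G, (0 : boxS d L → ℂ)).2 x‖) ≤
          ∑ v : boxS d L, k ^ (-(ε0 * (1 + ((boxNet d L).dist v y : ℝ)))) := by
        refine Finset.sum_le_sum fun v _ => ?_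
        have h4 := hcap v
        have h5 : ‖(0 : boxS d L → ℂ) v‖ = 0 := by simp
        show ‖G v‖ + ‖(0 : boxS d L → ℂ) v‖ ≤ _
        rw [h5, add_zero]
        exact h4
      refine h3.trans ?_
      exact Finset.single_le_sum (f := fun y : boxS d L =>
        ∑ v : boxS d L, k ^ (-(ε0 * (1 + ((boxNet d L).dist v y : ℝ)))))
        (fun y _ => Finset.sum_nonneg fun v _ => (Real.rpow_pos_of_pos hk _).le)
        (Finset.mem_univ y)
    calc p / 16 / (1 + Bd) * (1 + ∑ x, (‖(G, (0 : boxS d L → ℂ)).1 x‖ +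
          ‖(G, (0 : boxS d L → ℂ)).2 x‖)) ≤ p / 16 / (1 + Bd) * (1 + Bd) := by
          refine mul_le_mul_of_nonneg_left (by linarith) (by positivity)
      _ = p / 16 := by field_simp
  have E7 : μ {ω | ¬ ∀ i, i < J0 → (ω ∈ AL →
      Caps k (nrm (traj (st2 d β k h L) G ω ((i + 1) * nw))) ε0 y)} ≤
      ENNReal.ofReal (p / 16) := by
    refine (Cmp2_rangeU μ J0 _ (k ^ cc) (Real.rpow_pos_of_pos hk _).le fun i hi => ?_).trans
      (ENNReal.ofReal_le_ofReal r7)
    have hin : 1 ≤ (((i + 1) * nw : ℕ) : ℝ) * h := by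
      have h1 : (0 : ℝ) ≤ (i : ℝ) * (nw * h) :=
        mul_nonneg (Nat.cast_nonneg _) (by linarith)
      have h2 : (((i + 1) * nw : ℕ) : ℝ) * h = i * (nw * h) + nw * h := by
        push_cast
        ring
      rw [h2]
      linarith
    have h1 : μ ((PS2 d β k hβ hk.le).alv h L (G, 0) ((i + 1) * nw) ∩
        {ω | ¬ Caps k (fun v => ‖((PS2 d β k hβ hk.le).tr h L (G, 0) ω ((i + 1) * nw)).1 v‖ +
          ‖((PS2 d β k hβ hk.le).tr h L (G, 0) ω ((i + 1) * nw)).2 v‖) ε0 y}) ≤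
        ENNReal.ofReal (k ^ cc) := HC2 h hh g2 (G, 0) ((i + 1) * nw) hin y
    refine (measure_mono ?_).trans h1
    intro ω hω
    simp only [Set.mem_ofPred_eq, Classical.not_imp] at hω
    obtain ⟨h2, h3⟩ := hω
    have hle : (i + 1) * nw ≤ J0 * nw := Nat.mul_le_mul_right _ hi
    refine ⟨⟨fun j hj => h2.1 j (lt_of_lt_of_le hj hle), fun j hj => h2.2 j (hj.trans hle)⟩, ?_⟩
    intro hcon
    apply h3
    intro v
    refine le_trans ?_ (hcon v)
    rw [Cmp2_tr1]
    exact le_add_of_nonneg_right (norm_nonneg _)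
  have E8 : μ {ω | ¬ ∀ i, i < J0 → ∀ x, (boxNet d L).dist y x ≤ R →
      ∀ z, (boxNet d L).dist x z ≤ m0 →
      ((∀ v, ‖traj (st2 d β k h L) G ω (i * nw) v‖ * k ^ (boxNet d L).dist x v ≤
          ‖traj (st2 d β k h L) G ω (i * nw) z‖ * k ^ (boxNet d L).dist x z) →
        (∀ v, ‖traj (st2 d β k h L) G ω (i * nw) v‖ ≤
          k ^ (-(ε0 * (1 + R) * (1 + (boxNet d L).dist x v)))) →
        Reg2 κ (fun j => gz k h ω (i * nw + j)) nw x →
        min (k ^ (3 * κ)) (k ^ (ε + (boxNet d L).dist x z) *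
              Real.exp (ell k * ∑ j ∈ Finset.range nw, gz k h ω (i * nw + j) x) *
              ‖traj (st2 d β k h L) G ω (i * nw) z‖) ≤
          ‖traj (st2 d β k h L) G ω (i * nw + nw) x‖)} ≤ ENNReal.ofReal (p / 16) := by
    have hkc0 : 0 ≤ k ^ cw := (Real.rpow_pos_of_pos hk _).le
    refine (Cmp2_rangeU μ J0 _ ((2 * R + 1) ^ d * ((2 * m0 + 1) ^ d * k ^ cw))
      (by positivity) fun i _ => Cmp2_ballU μ y R _ _ (by positivity) fun x _ =>
        Cmp2_ballU μ x m0 _ _ hkc0 fun z hz => ?_).trans (ENNReal.ofReal_le_ofReal ?_)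
    · refine Cmp2_pw d L β k h (i * nw) nw G x z κ ε (ε0 * (1 + R)) (k ^ cw)
        (fun G' hG1 hG2 => HW3 h hh g1 G' z x hz hG1 ?_
          (fun v => ε0 * (1 + R) * (1 + (boxNet d L).dist x v)) ?_ ?_ hG2 nw hnwh (hn2.trans r3))
      · refine (hG2 z).trans (Real.rpow_le_rpow_of_exponent_ge hk hk1.le ?_)
        have h1 : 1 + ((boxNet d L).dist x z : ℝ) ≤ 1 + m0 := by
          have : ((boxNet d L).dist x z : ℝ) ≤ m0 := by exact_mod_cast hz
          linarith
        have h2 := mul_le_mul_of_nonneg_left h1 hεw0.le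
        linarith
      · intro v v' hv
        have h1 := (boxNet d L).dist_tri x v v'
        rw [(boxNet d L).dist_nb v v' hv] at h1
        have h2 : ((boxNet d L).dist x v' : ℝ) ≤ (boxNet d L).dist x v + 1 := by exact_mod_cast h1
        have h3 := mul_le_mul_of_nonneg_left h2 hεw0.le
        linarith
      · intro v hv
        have h1 : ((boxNet d L).dist x v : ℝ) ≤ 1 := by exact_mod_cast hv
        have h2 := mul_le_mul_of_nonneg_left h1 hεw0.le
        linarith
    · refine le_trans (le_of_eq ?_) r8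
      ring
  refine Cmp2_union μ _ _ _ _ _ _ _ _ _ p hp E1 E2 E3 E4 E5 E6 E7 E8 ?_
  intro ω hω
  by_contra hcon
  simp only [Set.mem_union, not_or, Set.mem_ofPred_eq, not_not, Set.mem_compl_iff] at hcon
  obtain ⟨⟨⟨w1, w2⟩, ⟨w3, w4⟩⟩, ⟨⟨w5, w6⟩, ⟨w7, w8⟩⟩⟩ := hcon
  have hgood : Cmp2Good d β k h G y R Rb nw J0 m0 M1 M2 M3 κ ε ε0 (ε0 * (1 + R)) ω :=
    ⟨w1, fun x hx => w2 x.1 hx x.2, w3, w4, w5, fun i hi => w7 i hi w6, w8⟩
  obtain ⟨i, hi1, hi2, x, hx, hnot⟩ := hω
  refine hnot (Cmp2_det d hβ hk hk1 hh G y R Rb nw J0 m0 M s0 M1 M2 M3 κ ε ε0 κc hM hs0 hκ0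
    (by linarith) hε hε0 hε0h (by linarith) hR1 hM1 hM2 hM3 hm0 (by linarith) (by linarith)
    ?_ ?_ r6 hκ ?_ hlow hcap ω hgood i hi1 (hi2.trans hJJ) x hx)
  · have h1 : 8 * κ * (M1 + (M + s0 * Rb + 1 + M2)) ≤ c' / 8 := by
      rw [← hA]
      linarith
    linarith
  · linarith
  · intro g u X hX hu hst hblk hcp hin hout
    exact HU k hk b4 L y R nw h hh g4 (hJnh.trans r5) g u X hX hu hst hblk hcp hin hout

end DynC

end

/-! ### from `Lib_MP_36b788c.Pr0` -/

section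

/-!
# Balls in the box: lines; lower bound of the cut heights

PROOF.
* `ball_line`: `y'` in the ball. If `dist y' y ≥ 2n`: `toward` (applied with `x = y`) gives a path `p_0 = y', p_1, …, p_{2n-1}` with `dist y p_i = dist y y' - i`: distinct sites of the ball, consecutive ones at distance `1`, `dist y' p_i ≤ i`. If `dist y' y < 2n`: move along the first coordinate (`d ≥ 1`) towards the origin side: `y' - i e_0` if `y'_0 ≥ 0`, otherwise `y' + i e_0`, `i < 2n` (`boxNet_dist`, `l1`; inside the box since `2n ≤ L`), distance to `y` is `< 4n ≤ R`. Pairs `(p_{2i}, p_{2i+1})`.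
* `hB_low`: `M' = M + s0 R + 1`. `LowR` at `v`: some `z` in the box with `dist v z ≤ M + s0 dist v y + log(u z)/ell` (`u z > 0`), and `log(u z)/ell ≤ ε0(1 + dist z y)`. If `z` is in the ball: `log(u z)/ell < 0`: `hB z ≥ log(u z)/ell`, so `hB z - dist v z ≥ -(M + s0 dist v y)`; `log(u z)/ell ≥ 0`: `hB z = 0` and `dist v z ≤ M + s0 dist v y + ε0(1+R) ≤ M + 1 + s0 dist v y`.
  If `z` is not in the ball: `R < dist v y + dist v z`, `(1-ε0) dist v z ≤ M + (s0 + ε0) dist v y + ε0`, so `R ≤ (17/15) dist v y + (16/15) M + 1/15`, and `RR ≥ hB v ≥ -M' = -(M + 1 + s0 R) ≥ -(2M + 4) - 2 s0 dist v y`.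
-/

open MeasureTheory ProbabilityTheory
open scoped ENNReal

namespace DynC

open Dyn

/-- two points of the box on a line parallel to an axis -/
private theorem Pr0_l1 {d : ℕ} (y : Fin d → ℤ) (i0 : Fin d) (v w : ℤ) :
    l1 (Function.update y i0 v) (Function.update y i0 w) = (v - w).natAbs := by
  unfold l1
  rw [Finset.sum_eq_single i0]
  · rw [Function.update_self, Function.update_self]
  · intro j _ hj
    rw [Function.update_of_ne hj, Function.update_of_ne hj, sub_self, Int.natAbs_zero]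
  · intro h
    exact absurd (Finset.mem_univ i0) h

private theorem Pr0_mem {d L : ℕ} (x : Fin d → ℤ) :
    x ∈ boxS d L ↔ ∀ i, -(L : ℤ) ≤ x i ∧ x i ≤ L := by
  unfold boxS
  rw [Finset.mem_Icc, Pi.le_def, Pi.le_def]
  constructor
  · rintro ⟨h1, h2⟩ i; exact ⟨h1 i, h2 i⟩
  · intro h; exact ⟨fun i => (h i).1, fun i => (h i).2⟩

/-- a path in the ball gives the pairs -/
private theorem Pr0_path {d n L R : ℕ} (y : boxS d L) (y' : Bl d L y R) (P : ℕ → boxS d L)
    (hR : ∀ i, i < 2 * n → (boxNet d L).dist y (P i) ≤ R)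
    (hinj : ∀ i j, i < 2 * n → j < 2 * n → P i = P j → i = j)
    (hd1 : ∀ i, i + 1 < 2 * n → (boxNet d L).dist (P i) (P (i + 1)) = 1)
    (hdi : ∀ i, i < 2 * n → (boxNet d L).dist y'.1 (P i) ≤ 2 * n) :
    ∃ p : Fin n → Fin 2 → Bl d L y R,
      Function.Injective (fun q : Fin n × Fin 2 => p q.1 q.2) ∧
      (∀ i, (ballM d L y R).dd (p i 0) (p i 1) = 1) ∧
      ∀ i j, (ballM d L y R).dd y' (p i j) ≤ 2 * n := by
  have hlt : ∀ (i : Fin n) (j : Fin 2), 2 * (i : ℕ) + (j : ℕ) < 2 * n := by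
    intro i j
    have h1 := i.2
    have h2 := j.2
    omega
  refine ⟨fun i j => ⟨P (2 * (i : ℕ) + (j : ℕ)), hR _ (hlt i j)⟩, ?_, ?_, ?_⟩
  · rintro ⟨i, j⟩ ⟨i', j'⟩ h
    have h1 : P (2 * (i : ℕ) + (j : ℕ)) = P (2 * (i' : ℕ) + (j' : ℕ)) := congrArg Subtype.val h
    have h2 := hinj _ _ (hlt i j) (hlt i' j') h1
    have h3 := j.2
    have h4 := j'.2
    have h5 : (i : ℕ) = i' := by omega
    have h6 : (j : ℕ) = j' := by omega
    exact Prod.ext (Fin.ext h5) (Fin.ext h6)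
  · intro i
    have h1 := hlt i 1
    have h2 := hd1 (2 * (i : ℕ)) (by simpa using h1)
    show (boxNet d L).dist (P (2 * (i : ℕ) + ((0 : Fin 2) : ℕ)))
      (P (2 * (i : ℕ) + ((1 : Fin 2) : ℕ))) = 1
    simpa using h2
  · intro i j
    exact hdi _ (hlt i j)

theorem ball_line (d : ℕ) (hd : 1 ≤ d) (n L R : ℕ) (hL : 2 * n ≤ L) (hR : 4 * n ≤ R)
    (y : boxS d L) : (ballM d L y R).HasLine n := by
  classical
  intro y'
  by_cases hc : 2 * n ≤ (boxNet d L).dist y y'.1
  · -- walk towards the centre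
    have htw : ∀ z : boxS d L, ∃ w : boxS d L, z ≠ y →
        w ∈ (boxNet d L).nb z ∧ (boxNet d L).dist y w + 1 = (boxNet d L).dist y z := by
      intro z
      by_cases hz : z = y
      · exact ⟨z, fun h => absurd hz h⟩
      · obtain ⟨w, hw1, hw2⟩ := (boxNet d L).toward y z hz
        exact ⟨w, fun _ => ⟨hw1, hw2⟩⟩
    choose f hf using htw
    set P : ℕ → boxS d L := fun i => f^[i] y'.1 with hP
    have hP0 : P 0 = y'.1 := rfl
    have hPs : ∀ i, P (i + 1) = f (P i) := fun i => Function.iterate_succ_apply' f i y'.1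
    have hdist : ∀ i, i ≤ (boxNet d L).dist y y'.1 →
        (boxNet d L).dist y (P i) + i = (boxNet d L).dist y y'.1 := by
      intro i
      induction i with
      | zero =>
        intro _
        rw [hP0, add_zero]
      | succ i ih =>
        intro hi
        have h1 := ih (by omega)
        have h2 : P i ≠ y := by
          intro h
          rw [h, (boxNet d L).dist_self] at h1
          omega
        have h3 := (hf (P i) h2).2
        rw [hPs]
        omega
    have hne : ∀ i, i < (boxNet d L).dist y y'.1 → P i ≠ y := by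
      intro i hi h
      have h1 := hdist i hi.le
      rw [h, (boxNet d L).dist_self] at h1
      omega
    have hstep : ∀ i, i < (boxNet d L).dist y y'.1 → (boxNet d L).dist (P i) (P (i + 1)) = 1 := by
      intro i hi
      rw [hPs]
      exact (boxNet d L).dist_nb _ _ (hf (P i) (hne i hi)).1
    have hfar : ∀ i, i ≤ (boxNet d L).dist y y'.1 → (boxNet d L).dist y'.1 (P i) ≤ i := by
      intro i
      induction i with
      | zero =>
        intro _
        rw [hP0, (boxNet d L).dist_self]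
      | succ i ih =>
        intro hi
        have h1 := ih (by omega)
        have h2 := (boxNet d L).dist_tri y'.1 (P i) (P (i + 1))
        rw [hstep i (by omega)] at h2
        omega
    have hy' := y'.2
    refine Pr0_path y y' P ?_ ?_ ?_ ?_
    · intro i hi
      have h1 := hdist i (by omega)
      omega
    · intro i j hi hj hij
      have h1 := hdist i (by omega)
      have h2 := hdist j (by omega)
      rw [hij] at h1
      omega
    · intro i hi
      exact hstep i (by omega)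
    · intro i hi
      have h1 := hfar i (by omega)
      omega
  · -- straight line towards the origin side
    push Not at hc
    set i0 : Fin d := ⟨0, hd⟩ with hi0
    set a : ℤ := (y'.1 : Fin d → ℤ) i0 with ha
    set sg : ℤ := if 0 ≤ a then -1 else 1 with hsg
    have hbox := (Pr0_mem (y'.1 : Fin d → ℤ)).mp y'.1.2
    have hmem : ∀ i : ℕ, i < 2 * n →
        Function.update (y'.1 : Fin d → ℤ) i0 (a + sg * i) ∈ boxS d L := by
      intro i hi
      rw [Pr0_mem]
      intro j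
      by_cases hj : j = i0
      · subst hj
        rw [Function.update_self]
        have h1 := hbox i0
        rw [hsg]
        split_ifs with h
        · constructor <;> omega
        · constructor <;> omega
      · rw [Function.update_of_ne hj]
        exact hbox j
    set P : ℕ → boxS d L := fun i => if hi : i < 2 * n then
      ⟨Function.update (y'.1 : Fin d → ℤ) i0 (a + sg * i), hmem i hi⟩ else y'.1 with hP
    have hPv : ∀ i, i < 2 * n → ((P i : boxS d L) : Fin d → ℤ) =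
        Function.update (y'.1 : Fin d → ℤ) i0 (a + sg * i) := by
      intro i hi
      rw [hP]
      simp only [dif_pos hi]
    have hsg1 : sg.natAbs = 1 := by
      rw [hsg]
      split_ifs <;> rfl
    have hdd : ∀ i j, i < 2 * n → j < 2 * n →
        (boxNet d L).dist (P i) (P j) = ((i : ℤ) - j).natAbs := by
      intro i j hi hj
      rw [boxNet_dist, hPv i hi, hPv j hj, Pr0_l1]
      have h1 : a + sg * (i : ℤ) - (a + sg * (j : ℤ)) = sg * ((i : ℤ) - j) := by ring
      rw [h1, Int.natAbs_mul, hsg1, one_mul]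
    have hd0 : ∀ i, i < 2 * n → (boxNet d L).dist y'.1 (P i) = i := by
      intro i hi
      have h0 : 0 < 2 * n := by omega
      have h1 : P 0 = y'.1 := by
        apply Subtype.ext
        rw [hPv 0 h0]
        simp [ha]
      rw [← h1, hdd 0 i h0 hi]
      omega
    refine Pr0_path y y' P ?_ ?_ ?_ ?_
    · intro i hi
      have h1 := (boxNet d L).dist_tri y y'.1 (P i)
      rw [hd0 i hi] at h1
      omega
    · intro i j hi hj hij
      have h1 := hdd i j hi hj
      rw [hij, (boxNet d L).dist_self] at h1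
      omega
    · intro i hi
      rw [hdd i (i + 1) (by omega) hi]
      push_cast
      omega
    · intro i hi
      rw [hd0 i hi]
      omega

private theorem Pr0_exp {k a : ℝ} (hk : 0 < k) : k ^ a = Real.exp (-(a * ell k)) := by
  unfold ell
  rw [Real.rpow_def_of_pos hk, one_div, Real.log_inv]
  congr 1
  ring

theorem hB_low {d L : ℕ} (k M s0 ε0 : ℝ) (hk : 0 < k) (hk1 : k < 1) (hM : 0 ≤ M) (hs : 0 ≤ s0)
    (hs1 : s0 ≤ 1 / 16) (hε : 0 < ε0) (R : ℕ) (hεR : ε0 * (1 + R) ≤ 1 / 16) (y : boxS d L)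
    (u : boxS d L → ℝ) (hu : ∀ v, 0 ≤ u v) (hl : LowR k u M s0 y) (hc : Caps k u ε0 y)
    (v : Bl d L y R) :
    -(2 * M + 4) - 2 * s0 * (boxNet d L).dist y v.1 ≤
      (ballM d L y R).RR (hB k (M + s0 * R + 1) u y R) v := by
  have hell : 0 < ell k := ell_pos hk hk1
  obtain ⟨z, hz⟩ := hl v.1
  set dv : ℝ := (((boxNet d L).dist v.1 y : ℕ) : ℝ) with hdv
  have hdv0 : 0 ≤ dv := Nat.cast_nonneg _
  have hdv' : ((boxNet d L).dist y v.1 : ℝ) = dv := by
    rw [hdv, (boxNet d L).dist_comm]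
  set dz : ℝ := (((boxNet d L).dist v.1 z : ℕ) : ℝ) with hdz
  have hdz0 : 0 ≤ dz := Nat.cast_nonneg _
  have hR0 : (0 : ℝ) ≤ R := Nat.cast_nonneg _
  have hpos : 0 < u z := by
    by_contra h
    have h1 : u z = 0 := le_antisymm (not_lt.1 h) (hu z)
    rw [h1, zero_mul] at hz
    exact absurd hz (not_le.2 (Real.rpow_pos_of_pos hk _))
  set X : ℝ := Real.log (u z) / ell k with hX
  have hXe : u z = k ^ (-X) := by
    rw [Pr0_exp hk, hX]
    have h1 : -(-(Real.log (u z) / ell k) * ell k) = Real.log (u z) := by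
      field_simp
    rw [h1, Real.exp_log hpos]
  have hle : ∀ a b : ℝ, k ^ a ≤ k ^ b → b ≤ a := fun a b h =>
    (Real.rpow_le_rpow_left_iff_of_base_lt_one hk hk1).1 h
  -- the reached site
  have h1 : dz ≤ M + s0 * dv + X := by
    have h2 : k ^ (M + s0 * dv) ≤ k ^ (-X + dz) := by
      rw [Real.rpow_add hk (-X) dz, ← hXe, hdz, Real.rpow_natCast]
      exact hz
    have h3 := hle _ _ h2
    linarith
  set dzy : ℝ := (((boxNet d L).dist z y : ℕ) : ℝ) with hdzy
  have hdzy0 : 0 ≤ dzy := Nat.cast_nonneg _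
  have h2 : X ≤ ε0 * (1 + dzy) := by
    have h3 : k ^ (-X) ≤ k ^ (-(ε0 * (1 + dzy))) := by
      rw [← hXe]
      exact hc z
    have h4 := hle _ _ h3
    linarith
  have hε1 : ε0 ≤ 1 / 16 := by
    have := mul_nonneg hε.le hR0
    linarith
  rw [hdv']
  by_cases hzb : (boxNet d L).dist y z ≤ R
  · have h3 := le_RR (ballM d L y R) (hB k (M + s0 * R + 1) u y R) v ⟨z, hzb⟩
    have h4 : ((ballM d L y R).dd v ⟨z, hzb⟩ : ℝ) = dz := rfl
    rw [h4] at h3
    have h5 : hB k (M + s0 * R + 1) u y R ⟨z, hzb⟩ = min 0 (max (-(M + s0 * R + 1)) X) := by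
      unfold hB
      rw [if_neg (not_le.2 hpos)]
    rw [h5] at h3
    refine le_trans ?_ h3
    have h6 : s0 * dv ≥ 0 := mul_nonneg hs hdv0
    rcases lt_or_ge X 0 with hX0 | hX0
    · have h7 : X ≤ min 0 (max (-(M + s0 * R + 1)) X) := le_min hX0.le (le_max_right _ _)
      linarith
    · have h7 : min 0 (max (-(M + s0 * R + 1)) X) = 0 :=
        min_eq_left (hX0.trans (le_max_right _ _))
      rw [h7]
      have h8 : dzy ≤ R := by
        rw [hdzy, (boxNet d L).dist_comm z y]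
        exact_mod_cast hzb
      have h9 : ε0 * (1 + dzy) ≤ ε0 * (1 + R) := mul_le_mul_of_nonneg_left (by linarith) hε.le
      linarith
  · push Not at hzb
    have h3 := self_le_RR (ballM d L y R) (hB k (M + s0 * R + 1) u y R) v
    refine le_trans ?_ h3
    have h4 : -(M + s0 * R + 1) ≤ hB k (M + s0 * R + 1) u y R v := by
      unfold hB
      refine le_min ?_ (le_max_left _ _)
      have := mul_nonneg hs hR0
      linarith
    refine le_trans ?_ h4
    have h5 : (R : ℝ) ≤ dzy := by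
      rw [hdzy, (boxNet d L).dist_comm z y]
      exact_mod_cast hzb.le
    have h6 : dzy ≤ dz + dv := by
      have h7 := (boxNet d L).dist_tri z v.1 y
      rw [(boxNet d L).dist_comm z v.1] at h7
      rw [hdzy, hdz, hdv]
      exact_mod_cast h7
    have h7 : dz ≤ M + s0 * dv + ε0 * (1 + (dz + dv)) := by
      have := mul_le_mul_of_nonneg_left h6 hε.le
      linarith
    have h8 : ε0 * (1 + (dz + dv)) ≤ 1 / 16 * (1 + (dz + dv)) :=
      mul_le_mul_of_nonneg_right hε1 (by positivity)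
    have h9 : s0 * dv ≤ 1 / 16 * dv := mul_le_mul_of_nonneg_right hs1 hdv0
    have h10 : (R : ℝ) ≤ 17 / 15 * dv + 16 / 15 * M + 1 / 15 := by linarith
    have h11 : s0 * R ≤ s0 * (17 / 15 * dv + 16 / 15 * M + 1 / 15) :=
      mul_le_mul_of_nonneg_left h10 hs
    have h12 : s0 * (16 / 15 * M + 1 / 15) ≤ 1 / 16 * (16 / 15 * M + 1 / 15) :=
      mul_le_mul_of_nonneg_right hs1 (by positivity)
    have h13 : 0 ≤ s0 * dv := mul_nonneg hs hdv0
    linarith

end DynC

end
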