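import Pool.Agent.Lib_MP_36b788_m.M39

/-!
# MP_36b788_pr, stationary limit: merged library part M40

Concatenation of smaller files (each in its own section), only to save build time.
-/

/-! ### from `Lib_MP_36b788c.Low2` -/

section

/-!
# Lower bound of a height over a block, `N = 2`

`LowE k g m w Y ε u`: `u ≥ k^{ε - (Y + Σ_{j<m} g_j w)}` or `u ≥ k^{ε - (-1/16 + Σ_{j ≤ l < m} g_l w)}` for some `j ≤ m`.
`low2`: hypotheses as in `low3`; block length `T0 ell² - 5 ≤ m h ≤ T0 ell² + 5`; outside probability `p` the event `LowE` holds with `Y = X0 - dist z w`.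

PROOF. `g = gz k h ω`, law as `sc (h/ell²)` (`re_law`), `κ = 1/64`. Constants in this order: `M1`, `M2` (from `p, T0, M`), `m0`, `σ`, `J = ⌈(T0+1)/σ⌉`, `ε0`, `k0`.
𝔅1: `∃ v, lppM (1/8) 0 g m v > M1 + dist z v/8`: `lpp_tail`, `≤ Σ_v exp(C(T0+2) - lam0(M1 + dist z v/8)) ≤ p/8` (`sum_exp_dd`). 𝔅2: some block sum of `g` at `w` is `> M2` in modulus: `osc_exp`, `≤ p/8`.
Windows: the first `J-1` have `⌊m/J⌋` steps, the last one the rest; `n_j h/ell² ≤ 2σ`. 𝔅3: `Reg2 κ` fails at `w` in some window (`reg2_prob`): `≤ J C exp(-κ/√(2σ)) ≤ p/8` for small `σ`.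
Upper bounds at the window starts `t_j` off 𝔅1: `grow_path` with `H v = X0 + M + dist z v/2`, `ρ = 1/2`, `q' = 1/8`: `‖G_{t_j} v‖ ≤ 2 k^{-(lpp_{t_j}(v) + H v)} ≤ k^{-(X0 + M + M1 + 1 + (5/8) dist z v)}`.
𝔅4: for `j ≥ 1` caps at `w`: `‖G_{t_j} v‖ ≤ k^{-ε''(1+dist w v)}` (`caps_prob` for the pair `(G,0)` of `PS2`, `bnoise2`; off `alv` use `exit_bd` with the bound `Σ‖G v‖ ≤ |box| k^{-…}`: `P(alv^c) → 0` as `h → 0`, uniformly since `X0 ≤ 1/8` and the profile bounds `‖G v‖` by a constant depending on `k, L, M`), and the exceptional events of `wl2`: `≤ J(k^c + k^c)`.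
Claim: off all these events, with `Y_0 = X0 - dist z w`, `Y_{j+1} = min (-3/64) (Y_j + g^{(j)}) - ε/J` (`g^{(j)}` = sum of `g w` over window `j`), some site `v` has `‖G_{t_j} v‖ k^{dist w v} ≥ k^{-Y_j}`. Maximizer `z'` of `‖G_{t_j} v‖ k^{dist w v}`: `Y_j ≥ min (Y_0) (-3/64) - M2 - ε ≥ X0 - M - 1 - M2 - ε`, upper bound `X0 + M + M1 + 1 + (5/8)dist z z' - dist w z' ≥ Y_j`, `dist z z' ≤ M + dist w z'`:
`(3/8) dist w z' ≤ 3M + M1 + M2 + 3`, so `dist w z' ≤ m0`. `‖G_{t_j} z'‖ ≤ k^{-ε0'}`: caps for `j ≥ 1`; `j = 0`: caps around `z`, or deep: `X0 + M + M1 + 2 + (5/8)(M + m0) ≤ 0`. Profile for `wl2`: `H v = ε''(1+dist w v)` (`j ≥ 1`), `H v = ε0(1+dist z v)` or `X0 + M + dist z v/2` (`j = 0`), `≤ 1/16` within distance one of `w`. `wl2` (`κ = 1/64`, `ε/J`) gives the claim for `j+1` (with `v = w`).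
Unfold: `Y_J ≥ min(Y_0 + Σ_all g, min_{j ≥ 1}(-3/64 + Σ_{l ≥ t_j} g_l)) - ε`.
-/

open MeasureTheory ProbabilityTheory
open scoped ENNReal

namespace DynC

open Dyn

/-! ### trajectories and shifts -/

private theorem Low2_traj_add {St X : Type} (f : St → X → St) (s : St) (ω : ℕ → X) (t n : ℕ) :
    traj f s ω (t + n) = traj f (traj f s ω t) (fun i => ω (t + i)) n := by
  induction n with
  | zero => rfl
  | succ n ih =>
    show f (traj f s ω (t + n)) (ω (t + n)) =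
      f (traj f (traj f s ω t) (fun i => ω (t + i)) n) (ω (t + n))
    rw [ih]

private theorem Low2_win {St X : Type} [MeasurableSpace St] [MeasurableSpace X] (μ : Measure X)
    [IsProbabilityMeasure μ] (f : St → X → St) (hf : Measurable fun p : St × X => f p.1 p.2)
    (E : Set (St × (ℕ → X))) (hE : MeasurableSet E) (r : ℝ≥0∞) (s : St) (t : ℕ) :
    PI μ {ω | PI μ {b | (traj f s ω t, b) ∈ E} ≤ r ∧
      (traj f s ω t, fun i => ω (t + i)) ∈ E} ≤ r := by
  classical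
  have m1 : Measurable (fun ω : ℕ → X => traj f s ω t) :=
    (measurable_traj f hf t).comp (measurable_const.prodMk measurable_id)
  have m2 : Measurable (fun S : St => PI μ {b | (S, b) ∈ E}) :=
    measurable_measure_prodMk_left hE
  have m3 : Measurable (fun ω : ℕ → X => fun i => ω (t + i)) :=
    measurable_pi_lambda _ fun i => measurable_pi_apply (t + i)
  set A : Set (ℕ → X) := {ω | PI μ {b | (traj f s ω t, b) ∈ E} ≤ r ∧
      (traj f s ω t, fun i => ω (t + i)) ∈ E} with hA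
  have mA : MeasurableSet A :=
    (measurableSet_le (m2.comp m1) measurable_const).inter ((m1.prodMk m3) hE)
  rw [← lintegral_indicator_one mA, lintegral_glue t _ (measurable_one.indicator mA)]
  refine le_trans (lintegral_mono fun a => ?_) (by simp : ∫⁻ _, r ∂(PI μ) ≤ r)
  have e1 : ∀ b : ℕ → X, traj f s (glue t a b) t = traj f s a t := fun b =>
    traj_glue_le f s t a b t le_rfl
  have e2 : ∀ b : ℕ → X, (fun i => glue t a b (t + i)) = b := by
    intro b
    funext i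
    unfold glue
    rw [if_neg (by omega)]
    congr 1
    omega
  have e3 : ∀ b : ℕ → X, glue t a b ∈ A ↔
      (PI μ {b | (traj f s a t, b) ∈ E} ≤ r ∧ (traj f s a t, b) ∈ E) := by
    intro b
    rw [hA, Set.mem_ofPred_eq, e1 b, e2 b]
  by_cases hr : PI μ {b | (traj f s a t, b) ∈ E} ≤ r
  · refine le_trans (le_of_eq ?_) hr
    have mB : MeasurableSet {b : ℕ → X | (traj f s a t, b) ∈ E} := measurable_prodMk_left hE
    have eB := lintegral_indicator_one (μ := PI μ) mB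
    rw [← eB]
    refine lintegral_congr fun b => ?_
    by_cases hb : (traj f s a t, b) ∈ E
    · rw [Set.indicator_of_mem ((e3 b).2 ⟨hr, hb⟩), Set.indicator_of_mem (by exact hb)]
      rfl
    · rw [Set.indicator_of_notMem (fun hc => hb ((e3 b).1 hc).2), Set.indicator_of_notMem (by exact hb)]
  · refine le_trans (le_of_eq ?_) zero_le
    rw [← lintegral_zero (μ := PI μ)]
    refine lintegral_congr fun b => ?_
    rw [Set.indicator_of_notMem fun hc => hr ((e3 b).1 hc).1]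

private theorem Low2_shift {X : Type} [MeasurableSpace X] (μ : Measure X)
    [IsProbabilityMeasure μ] (E : Set (ℕ → X)) (hE : MeasurableSet E) (t : ℕ) :
    PI μ {ω | (fun i => ω (t + i)) ∈ E} ≤ PI μ E := by
  have h := Low2_win μ (fun (_ : Unit) (_ : X) => ()) measurable_const
    (Prod.snd ⁻¹' E) (measurable_snd hE) (PI μ E) () t
  refine le_trans (measure_mono ?_) h
  intro ω hω
  exact ⟨le_rfl, hω⟩

private theorem Low2_rpow {k : ℝ} (hk : 0 < k) (x : ℝ) : k ^ (-x) = Real.exp (ell k * x) := by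
  rw [Real.rpow_def_of_pos hk]
  unfold ell
  rw [one_div, Real.log_inv]
  congr 1
  ring

private theorem Low2_tr (d : ℕ) {β k : ℝ} (hβ : 0 < β) (hk : 0 ≤ k) (h : ℝ) (L : ℕ)
    (G : (boxS d L → ℂ) × (boxS d L → ℂ)) (ω : ℕ → boxS d L → ℂ) (n : ℕ) :
    ((PS2 d β k hβ hk).tr h L G ω n).1 = traj (st2 d β k h L) G.1 ω n := by
  induction n with
  | zero => rfl
  | succ n ih =>
    show st2 d β k h L ((PS2 d β k hβ hk).tr h L G ω n).1 (ω n) =
      st2 d β k h L (traj (st2 d β k h L) G.1 ω n) (ω n)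
    rw [ih]

/-- upper bound of all values off the exceptional event of the last passage functional -/
private theorem Low2_up (d : ℕ) {β k h : ℝ} (hβ : 0 < β) (hk : 0 < k) (hk2 : k ≤ 1 / 2) (L : ℕ)
    (hh : 0 < h) (T : ℝ) (hT : 4 * d * k ^ (3 / 8 : ℝ) * T ≤ Real.log 2)
    (G : boxS d L → ℂ) (z : boxS d L) (M X0 M1 : ℝ)
    (hG : ∀ v, ‖G v‖ ≤ k ^ (-(X0 + M + (boxNet d L).dist z v / 2)))
    (ω : ℕ → boxS d L → ℂ) (n n' : ℕ) (hn : n * h ≤ T) (hnn : n ≤ n')
    (hM : ∀ v, (boxMSet d L).lppM (1 / 8) (fun _ => 0) (gz k h ω) n' v ≤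
      M1 + (boxNet d L).dist z v / 8) (v : boxS d L) :
    ‖traj (st2 d β k h L) G ω n v‖ ≤
      k ^ (-(X0 + M + M1 + 1 + 5 / 8 * (boxNet d L).dist z v)) := by
  have hk1 : k < 1 := by linarith
  have hell := ell_pos hk hk1
  have hD : ∀ j, DStep (boxNet d L) h k (fun x => bC h (ω j x))
      (nrm (traj (st2 d β k h L) G ω j)) (nrm (traj (st2 d β k h L) G ω (j + 1))) := by
    intro j
    refine ⟨fun x => norm_nonneg _, fun x => norm_nonneg _, fun x => ?_⟩
    have := (PS2 d β k hβ hk.le).u1 h L (traj (st2 d β k h L) G ω j, 0) (ω j) hh x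
    exact this
  have h1 := grow_path d L k h (3 / 8) (1 / 8) (1 / 2) 1 hk hk1 hh zero_le_one (by norm_num)
    (by norm_num) (by norm_num) (by norm_num) (fun j x => bC h (ω j x))
    (fun j => nrm (traj (st2 d β k h L) G ω j)) hD
    (fun v => X0 + M + (boxNet d L).dist z v / 2)
    (fun x y hy => by
      have h2 := (boxNet d L).dist_tri z x y
      rw [(boxNet d L).dist_nb x y hy] at h2
      have h3 : ((boxNet d L).dist z y : ℝ) ≤ (boxNet d L).dist z x + 1 := by exact_mod_cast h2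
      linarith)
    (fun x => by
      have := hG x
      rw [Low2_rpow hk] at this
      rw [one_mul]
      exact this) n v
  have hgz : (fun j y => bC h (ω j y) / ell k) = gz k h ω := by
    funext j y
    rfl
  rw [hgz, one_mul] at h1
  have h2 : (boxMSet d L).lpp (1 / 8) (fun _ => 0) (gz k h ω) n v ≤
      M1 + (boxNet d L).dist z v / 8 :=
    (le_lppM _ _ _ _ hnn v).trans (hM v)
  have h3 : (1 + 4 * d * k ^ (3 / 8 : ℝ) * h) ^ n ≤ 2 := by
    have a1 : 1 + 4 * d * k ^ (3 / 8 : ℝ) * h ≤ Real.exp (4 * d * k ^ (3 / 8 : ℝ) * h) := by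
      have := Real.add_one_le_exp (4 * d * k ^ (3 / 8 : ℝ) * h)
      linarith
    have a0 : 0 ≤ 4 * d * k ^ (3 / 8 : ℝ) := by positivity
    calc (1 + 4 * d * k ^ (3 / 8 : ℝ) * h) ^ n
        ≤ (Real.exp (4 * d * k ^ (3 / 8 : ℝ) * h)) ^ n := pow_le_pow_left₀ (by positivity) a1 n
      _ = Real.exp (4 * d * k ^ (3 / 8 : ℝ) * (n * h)) := by
          rw [← Real.exp_nat_mul]
          congr 1
          ring
      _ ≤ Real.exp (Real.log 2) := by
          apply Real.exp_le_exp.2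
          refine le_trans ?_ hT
          exact mul_le_mul_of_nonneg_left hn a0
      _ = 2 := Real.exp_log (by norm_num)
  have h4 : (2 : ℝ) ≤ Real.exp (ell k) := by
    have : Real.exp (ell k) = 1 / k := by
      unfold ell
      rw [Real.exp_log (by positivity)]
    rw [this, le_div_iff₀ hk]
    linarith
  have h5 : ‖traj (st2 d β k h L) G ω n v‖ ≤ Real.exp (ell k) *
      Real.exp (ell k * (M1 + (boxNet d L).dist z v / 8 + (X0 + M + (boxNet d L).dist z v / 2))) := by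
    refine le_trans h1 ?_
    refine mul_le_mul (h3.trans h4) ?_ (Real.exp_pos _).le (Real.exp_pos _).le
    apply Real.exp_le_exp.2
    apply mul_le_mul_of_nonneg_left _ hell.le
    linarith
  refine h5.trans (le_of_eq ?_)
  rw [Low2_rpow hk, ← Real.exp_add]
  congr 1
  ring

/-- deterministic core: iteration over the windows -/
private theorem Low2_step {d L : ℕ} {k : ℝ} (hk : 0 < k) (hk1 : k < 1) (g : ℕ → boxS d L → ℝ)
    (u : ℕ → boxS d L → ℝ) (J : ℕ) (t : ℕ → ℕ)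
    (htm : ∀ j, t j ≤ t (j + 1)) (z w : boxS d L) (X0 M M1 M2 εw : ℝ) (hX0 : X0 ≤ 1 / 8)
    (hM : 1 ≤ M) (hεw : 0 ≤ εw) (hJε : J * εw ≤ 1)
    (hzw : (boxNet d L).dist z w ≤ M)
    (hup : ∀ j, j ≤ J → ∀ v, u (t j) v ≤
      k ^ (-(X0 + M + M1 + 1 + 5 / 8 * (boxNet d L).dist z v)))
    (hosc : ∀ i j, i ≤ j → j ≤ J → ∀ i', i' ≤ t j → |∑ l ∈ Finset.Ico i' (t j), g l w| ≤ M2)
    (m0 : ℕ) (hm0 : 8 / 3 * (3 * M + M1 + M2 + 3) ≤ m0)
    (hstep : ∀ j, j < J → ∀ z', (∀ v, u (t j) v * k ^ (boxNet d L).dist w v ≤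
        u (t j) z' * k ^ (boxNet d L).dist w z') → (boxNet d L).dist w z' ≤ m0 →
      ∀ v, min (k ^ (3 / 64 : ℝ)) (k ^ εw * Real.exp (ell k *
        ∑ l ∈ Finset.Ico (t j) (t (j + 1)), g l w) *
        (u (t j) v * k ^ (boxNet d L).dist w v)) ≤ u (t (j + 1)) w)
    (j : ℕ) (hj : j < J) (v0 : boxS d L)
    (hc : k ^ (j * εw - (X0 - (boxNet d L).dist z w + ∑ l ∈ Finset.Ico 0 (t j), g l w)) ≤
        u (t j) v0 * k ^ (boxNet d L).dist w v0 ∨
      ∃ i, i ≤ t j ∧ k ^ (j * εw - (-(3 / 64) + ∑ l ∈ Finset.Ico i (t j), g l w)) ≤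
        u (t j) v0 * k ^ (boxNet d L).dist w v0) :
    k ^ ((j + 1 : ℕ) * εw - (X0 - (boxNet d L).dist z w + ∑ l ∈ Finset.Ico 0 (t (j + 1)), g l w)) ≤
        u (t (j + 1)) w ∨
      ∃ i, i ≤ t (j + 1) ∧
        k ^ ((j + 1 : ℕ) * εw - (-(3 / 64) + ∑ l ∈ Finset.Ico i (t (j + 1)), g l w)) ≤
        u (t (j + 1)) w := by
  have hjε : (j : ℝ) * εw ≤ 1 := by
    refine le_trans ?_ hJε
    have : (j : ℝ) ≤ J := by exact_mod_cast hj.le
    exact mul_le_mul_of_nonneg_right this hεw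
  have hjε0 : 0 ≤ (j : ℝ) * εw := by positivity
  -- the maximizer
  obtain ⟨z', -, hz'⟩ := Finset.exists_max_image (Finset.univ : Finset (boxS d L))
    (fun v => u (t j) v * k ^ (boxNet d L).dist w v) ⟨w, Finset.mem_univ w⟩
  have hmax : ∀ v, u (t j) v * k ^ (boxNet d L).dist w v ≤
      u (t j) z' * k ^ (boxNet d L).dist w z' := fun v => hz' v (Finset.mem_univ v)
  have hlow : k ^ (M + M2 + 2 - X0) ≤ u (t j) v0 * k ^ (boxNet d L).dist w v0 := by
    rcases hc with hc | ⟨i, hi, hc⟩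
    · refine le_trans ?_ hc
      apply Real.rpow_le_rpow_of_exponent_ge hk hk1.le
      have := (abs_le.1 (hosc j j le_rfl hj.le 0 (Nat.zero_le _))).1
      linarith
    · refine le_trans ?_ hc
      apply Real.rpow_le_rpow_of_exponent_ge hk hk1.le
      have := (abs_le.1 (hosc j j le_rfl hj.le i hi)).1
      linarith
  have hdist : (boxNet d L).dist w z' ≤ m0 := by
    have h1 : k ^ (M + M2 + 2 - X0) ≤
        k ^ (-(X0 + M + M1 + 1 + 5 / 8 * (boxNet d L).dist z z') + ((boxNet d L).dist w z' : ℕ)) := by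
      refine hlow.trans ((hmax v0).trans ?_)
      rw [Real.rpow_add hk, Real.rpow_natCast]
      exact mul_le_mul_of_nonneg_right (hup j hj.le z') (by positivity)
    have h2 := (Real.rpow_le_rpow_left_iff_of_base_lt_one hk hk1).1 h1
    have h3 : ((boxNet d L).dist z z' : ℝ) ≤ (boxNet d L).dist z w + (boxNet d L).dist w z' := by
      exact_mod_cast (boxNet d L).dist_tri z w z'
    have h4 : ((boxNet d L).dist w z' : ℝ) ≤ m0 := by
      refine le_trans ?_ hm0
      linarith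
    exact_mod_cast h4
  have hs := hstep j hj z' hmax hdist v0
  rcases min_le_iff.1 (le_refl (min (k ^ (3 / 64 : ℝ)) (k ^ εw * Real.exp (ell k *
        ∑ l ∈ Finset.Ico (t j) (t (j + 1)), g l w) *
        (u (t j) v0 * k ^ (boxNet d L).dist w v0)))) with h1 | h1
  · right
    refine ⟨t (j + 1), le_rfl, ?_⟩
    refine le_trans ?_ (h1.trans hs)
    rw [Finset.Ico_self, Finset.sum_empty]
    apply Real.rpow_le_rpow_of_exponent_ge hk hk1.le
    have : 0 ≤ ((j + 1 : ℕ) : ℝ) * εw := by positivity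
    linarith
  · have e1 : Real.exp (ell k * ∑ l ∈ Finset.Ico (t j) (t (j + 1)), g l w) =
        k ^ (-(∑ l ∈ Finset.Ico (t j) (t (j + 1)), g l w)) := (Low2_rpow hk _).symm
    rw [e1] at h1 hs
    have e2 : ∀ i, i ≤ t j → ∑ l ∈ Finset.Ico i (t (j + 1)), g l w =
        ∑ l ∈ Finset.Ico i (t j), g l w + ∑ l ∈ Finset.Ico (t j) (t (j + 1)), g l w := fun i hi =>
      (Finset.sum_Ico_consecutive (fun l => g l w) hi (htm j)).symm
    rcases hc with hc | ⟨i, hi, hc⟩
    · left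
      refine le_trans ?_ (h1.trans hs)
      refine le_trans (le_of_eq ?_) (mul_le_mul_of_nonneg_left hc
        (by positivity : 0 ≤ k ^ εw * k ^ (-(∑ l ∈ Finset.Ico (t j) (t (j + 1)), g l w))))
      rw [← Real.rpow_add hk, ← Real.rpow_add hk, e2 0 (Nat.zero_le _)]
      congr 1
      push_cast
      ring
    · right
      refine ⟨i, hi.trans (htm j), ?_⟩
      refine le_trans ?_ (h1.trans hs)
      refine le_trans (le_of_eq ?_) (mul_le_mul_of_nonneg_left hc
        (by positivity : 0 ≤ k ^ εw * k ^ (-(∑ l ∈ Finset.Ico (t j) (t (j + 1)), g l w))))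
      rw [← Real.rpow_add hk, ← Real.rpow_add hk, e2 i hi]
      congr 1
      push_cast
      ring


/-! ### the exceptional event of a window -/

/-- bad event of a window -/
private def Low2_W {d L : ℕ} (β k h ε : ℝ) (n : ℕ) (w : boxS d L) :
    Set ((boxS d L → ℂ) × (ℕ → boxS d L → ℂ)) :=
  {p | Reg2 (1 / 64) (gz k h p.2) n w ∧ ∃ v, ‖traj (st2 d β k h L) p.1 p.2 n w‖ <
    min (k ^ (3 / 64 : ℝ)) (k ^ ε * Real.exp (ell k * ∑ j ∈ Finset.range n, gz k h p.2 j w) *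
      (‖p.1 v‖ * k ^ (boxNet d L).dist w v))}

private theorem Low2_gz_meas {d L : ℕ} (k h : ℝ) :
    Measurable (fun ω : ℕ → boxS d L → ℂ => gz k h ω) := by
  unfold gz
  refine measurable_pi_lambda _ fun j => measurable_pi_lambda _ fun y => ?_
  exact ((Complex.measurable_re.comp ((measurable_pi_apply y).comp
    (measurable_pi_apply (X := fun _ : ℕ => boxS d L → ℂ) j))).const_mul _).div_const _

private theorem Low2_gz_meas1 {d L : ℕ} (k h : ℝ) (j : ℕ) (y : boxS d L) :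
    Measurable (fun ω : ℕ → boxS d L → ℂ => gz k h ω j y) :=
  (measurable_pi_apply y).comp ((measurable_pi_apply (X := fun _ : ℕ => boxS d L → ℝ) j).comp
    (Low2_gz_meas k h))

private theorem Low2_W_meas {d L : ℕ} (β k h ε : ℝ) (n : ℕ) (w : boxS d L) :
    MeasurableSet (Low2_W β k h ε n w) := by
  have h1 : MeasurableSet {p : (boxS d L → ℂ) × (ℕ → boxS d L → ℂ) |
      Reg2 (1 / 64) (gz k h p.2) n w} :=
    ((Low2_gz_meas k h).comp measurable_snd) (measurableSet_Reg2 (1 / 64) n w)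
  have ht := measurable_traj (st2 d β k h L) (measurable_st2 d β k h L) n
  have h2 : MeasurableSet {p : (boxS d L → ℂ) × (ℕ → boxS d L → ℂ) |
      ∃ v, ‖traj (st2 d β k h L) p.1 p.2 n w‖ <
    min (k ^ (3 / 64 : ℝ)) (k ^ ε * Real.exp (ell k * ∑ j ∈ Finset.range n, gz k h p.2 j w) *
      (‖p.1 v‖ * k ^ (boxNet d L).dist w v))} := by
    have e : {p : (boxS d L → ℂ) × (ℕ → boxS d L → ℂ) |
      ∃ v, ‖traj (st2 d β k h L) p.1 p.2 n w‖ <
    min (k ^ (3 / 64 : ℝ)) (k ^ ε * Real.exp (ell k * ∑ j ∈ Finset.range n, gz k h p.2 j w) *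
      (‖p.1 v‖ * k ^ (boxNet d L).dist w v))} = ⋃ v, {p |
      ‖traj (st2 d β k h L) p.1 p.2 n w‖ <
    min (k ^ (3 / 64 : ℝ)) (k ^ ε * Real.exp (ell k * ∑ j ∈ Finset.range n, gz k h p.2 j w) *
      (‖p.1 v‖ * k ^ (boxNet d L).dist w v))} := by
      ext p
      simp only [Set.mem_ofPred_eq, Set.mem_iUnion]
    rw [e]
    refine MeasurableSet.iUnion fun v => measurableSet_lt ?_ ?_
    · exact ((measurable_pi_apply w).comp ht).norm
    · refine measurable_const.min (Measurable.mul (Measurable.const_mul ?_ _) ?_)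
      · refine Real.measurable_exp.comp (Measurable.const_mul (Finset.measurable_sum _ fun j _ => ?_) _)
        exact (Low2_gz_meas1 k h j w).comp measurable_snd
      · exact (((measurable_pi_apply v).comp measurable_fst).norm).mul_const _
  exact h1.inter h2

private theorem Low2_W_prob {d L : ℕ} {β k h ε0 c ε : ℝ} {m0 : ℕ} (hk : 0 < k) (n : ℕ)
    (w : boxS d L)
    (H : ∀ (G : boxS d L → ℂ) (z x : boxS d L), (boxNet d L).dist x z ≤ m0 →
      (∀ v, ‖G v‖ * k ^ (boxNet d L).dist x v ≤ ‖G z‖ * k ^ (boxNet d L).dist x z) →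
      ‖G z‖ ≤ k ^ (-ε0) →
      ∀ H : boxS d L → ℝ, (∀ v, ∀ y ∈ (boxNet d L).nb v, H y ≤ H v + 3 / 4) →
      (∀ v, (boxNet d L).dist x v ≤ 1 → H v ≤ 1 / 16) → (∀ v, ‖G v‖ ≤ k ^ (-(H v))) →
      ∀ n : ℕ, 1 ≤ n * h → n * h ≤ ell k ^ 3 →
        PI (Measure.pi fun _ : boxS d L => gC) {ω | Reg2 (1 / 64) (gz k h ω) n x ∧
            ‖traj (st2 d β k h L) G ω n x‖ < min (k ^ (3 * (1 / 64 : ℝ)))
              (k ^ (ε + (boxNet d L).dist x z) *
                Real.exp (ell k * ∑ j ∈ Finset.range n, gz k h ω j x) * ‖G z‖)}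
          ≤ ENNReal.ofReal (k ^ c))
    (hn : 1 ≤ n * h) (hn3 : n * h ≤ ell k ^ 3) (S : boxS d L → ℂ) (z' : boxS d L)
    (hz' : (boxNet d L).dist w z' ≤ m0)
    (hmax : ∀ v, ‖S v‖ * k ^ (boxNet d L).dist w v ≤ ‖S z'‖ * k ^ (boxNet d L).dist w z')
    (hs : ‖S z'‖ ≤ k ^ (-ε0)) (Hf : boxS d L → ℝ)
    (h1 : ∀ v, ∀ y ∈ (boxNet d L).nb v, Hf y ≤ Hf v + 3 / 4)
    (h2 : ∀ v, (boxNet d L).dist w v ≤ 1 → Hf v ≤ 1 / 16) (h3 : ∀ v, ‖S v‖ ≤ k ^ (-(Hf v))) :
    PI (Measure.pi fun _ : boxS d L => gC) {b | (S, b) ∈ Low2_W β k h ε n w} ≤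
      ENNReal.ofReal (k ^ c) := by
  refine le_trans (measure_mono ?_) (H S z' w hz' hmax hs Hf h1 h2 h3 n hn hn3)
  rintro b ⟨hR, v, hv⟩
  refine ⟨hR, lt_of_lt_of_le hv (min_le_min (le_of_eq (by norm_num)) ?_)⟩
  rw [Real.rpow_add hk, Real.rpow_natCast]
  calc k ^ ε * Real.exp (ell k * ∑ j ∈ Finset.range n, gz k h b j w) *
        (‖S v‖ * k ^ (boxNet d L).dist w v)
      ≤ k ^ ε * Real.exp (ell k * ∑ j ∈ Finset.range n, gz k h b j w) *
        (‖S z'‖ * k ^ (boxNet d L).dist w z') :=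
        mul_le_mul_of_nonneg_left (hmax v) (by positivity)
    _ = k ^ ε * k ^ (boxNet d L).dist w z' *
        Real.exp (ell k * ∑ j ∈ Finset.range n, gz k h b j w) * ‖S z'‖ := by ring

/-! ### constants -/

private theorem Low2_sigma (T0 C3 s1 p : ℝ) (hT : 0 < T0) (hC : 1 ≤ C3) (hs : 0 < s1) (hp : 0 < p) :
    ∃ (σ : ℝ) (J : ℕ), 0 < σ ∧ σ ≤ 1 ∧ 2 * σ ≤ s1 ∧ C3 * Real.sqrt (2 * σ) ≤ 1 / 64 ∧ 1 ≤ J ∧
      T0 + 1 ≤ σ * J ∧ J * (C3 * Real.exp (-((1 / 64) / Real.sqrt (2 * σ)))) ≤ p / 8 := by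
  have hC0 : 0 < C3 := by linarith
  set κ : ℝ := 1 / 64 with hκ
  have hκ0 : 0 < κ := by rw [hκ]; norm_num
  set σ : ℝ := min (min 1 (s1 / 2)) (min ((κ / C3) ^ 2 / 2) (p * κ ^ 4 / (768 * C3 * (T0 + 2))))
    with hσ
  have hσ0 : 0 < σ := by
    rw [hσ]
    refine lt_min (lt_min one_pos (by positivity)) (lt_min (by positivity) (by positivity))
  have a1 : σ ≤ 1 := (min_le_left _ _).trans (min_le_left _ _)
  have a2 : σ ≤ s1 / 2 := (min_le_left _ _).trans (min_le_right _ _)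
  have a3 : σ ≤ (κ / C3) ^ 2 / 2 := (min_le_right _ _).trans (min_le_left _ _)
  have a4 : σ ≤ p * κ ^ 4 / (768 * C3 * (T0 + 2)) := (min_le_right _ _).trans (min_le_right _ _)
  set J : ℕ := ⌈(T0 + 1) / σ⌉₊ with hJ
  have hq : 0 < (T0 + 1) / σ := by positivity
  have hJ1 : 1 ≤ J := Nat.one_le_iff_ne_zero.2 (Nat.ceil_pos.2 hq).ne'
  have hJ2 : (T0 + 1) / σ ≤ J := Nat.le_ceil _
  have hJ3 : (J : ℝ) ≤ (T0 + 2) / σ := by
    have h1 : (J : ℝ) < (T0 + 1) / σ + 1 := Nat.ceil_lt_add_one hq.le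
    have h2 : (1 : ℝ) ≤ 1 / σ := by rw [le_div_iff₀ hσ0]; linarith
    have h3 : (T0 + 2) / σ = (T0 + 1) / σ + 1 / σ := by ring
    rw [h3]
    linarith
  have hs2 : 0 < Real.sqrt (2 * σ) := Real.sqrt_pos.2 (by positivity)
  refine ⟨σ, J, hσ0, a1, by linarith, ?_, hJ1, ?_, ?_⟩
  · have h1 : Real.sqrt (2 * σ) ≤ κ / C3 := by
      rw [Real.sqrt_le_left (by positivity)]
      linarith
    calc C3 * Real.sqrt (2 * σ) ≤ C3 * (κ / C3) := mul_le_mul_of_nonneg_left h1 hC0.le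
      _ = κ := by field_simp
  · rw [div_le_iff₀ hσ0] at hJ2
    linarith
  · have h1 : Real.exp (-(κ / Real.sqrt (2 * σ))) ≤ 96 * σ ^ 2 / κ ^ 4 := by
      set y : ℝ := κ / Real.sqrt (2 * σ) with hy
      have hy0 : 0 < y := div_pos hκ0 hs2
      have h2 := Real.pow_div_factorial_le_exp y hy0.le 4
      have h3 : y ^ 4 = κ ^ 4 / (4 * σ ^ 2) := by
        rw [hy, div_pow]
        congr 1
        have : Real.sqrt (2 * σ) ^ 4 = (Real.sqrt (2 * σ) ^ 2) ^ 2 := by ring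
        rw [this, Real.sq_sqrt (by positivity)]
        ring
      rw [Real.exp_neg]
      have h4 : κ ^ 4 / (96 * σ ^ 2) ≤ Real.exp y := by
        refine le_trans (le_of_eq ?_) h2
        rw [h3]
        have : ((Nat.factorial 4 : ℕ) : ℝ) = 24 := by norm_num [Nat.factorial]
        rw [this]
        field_simp
        norm_num
      calc (Real.exp y)⁻¹ ≤ (κ ^ 4 / (96 * σ ^ 2))⁻¹ :=
            inv_anti₀ (by positivity) h4
        _ = 96 * σ ^ 2 / κ ^ 4 := by rw [inv_div]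
    calc (J : ℝ) * (C3 * Real.exp (-(κ / Real.sqrt (2 * σ))))
        ≤ (T0 + 2) / σ * (C3 * (96 * σ ^ 2 / κ ^ 4)) := by
          refine mul_le_mul hJ3 (mul_le_mul_of_nonneg_left h1 hC0.le) (by positivity) (by positivity)
      _ = 96 * C3 * (T0 + 2) * σ / κ ^ 4 := by
          field_simp
      _ ≤ 96 * C3 * (T0 + 2) * (p * κ ^ 4 / (768 * C3 * (T0 + 2))) / κ ^ 4 := by
          apply div_le_div_of_nonneg_right _ (by positivity)
          exact mul_le_mul_of_nonneg_left a4 (by positivity)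
      _ = p / 8 := by
          field_simp
          norm_num

private theorem Low2_ell : Filter.Tendsto ell (nhdsWithin 0 (Set.Ioi 0)) Filter.atTop := by
  have h1 : ell = fun k => -Real.log k := by
    funext k
    unfold ell
    rw [one_div, Real.log_inv]
  rw [h1]
  exact Filter.tendsto_neg_atBot_atTop.comp Real.tendsto_log_nhdsGT_zero

private theorem Low2_pow {c : ℝ} (hc : 0 < c) (a : ℝ) (ha : 0 < a) (B : ℝ) :
    ∀ᶠ k in nhdsWithin (0 : ℝ) (Set.Ioi 0), B * k ^ c ≤ a := by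
  have h1 : Filter.Tendsto (fun k : ℝ => B * k ^ c) (nhds 0) (nhds (B * 0 ^ c)) :=
    ((Real.continuousAt_rpow_const 0 c (Or.inr hc.le)).tendsto).const_mul B
  rw [Real.zero_rpow hc.ne', mul_zero] at h1
  exact (h1.mono_left nhdsWithin_le_nhds).eventually (Iic_mem_nhds ha)

private theorem Low2_grow (B T0 a : ℝ) (hB : 0 ≤ B) (hT : 0 < T0) (ha : 0 < a) :
    ∀ᶠ k in nhdsWithin (0 : ℝ) (Set.Ioi 0), B * k ^ (3 / 8 : ℝ) * (T0 * ell k ^ 2 + 5) ≤ a := by
  have h1 := Low2_pow (c := 1 / 4) (by norm_num) a ha (B * (T0 + 5) * 128)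
  filter_upwards [h1, self_mem_nhdsWithin, Low2_ell.eventually_ge_atTop 1] with k h2 hk h3
  have hk0 : 0 < k := hk
  refine le_trans ?_ h2
  have h4 : T0 * ell k ^ 2 + 5 ≤ (T0 + 5) * ell k ^ 2 := by nlinarith
  have h5 : ell k ^ 2 ≤ 128 * k ^ (-(1 / 8) : ℝ) := by
    rw [Low2_rpow hk0]
    have h6 := Real.pow_div_factorial_le_exp (ell k * (1 / 8)) (by positivity) 2
    have h7 : ((Nat.factorial 2 : ℕ) : ℝ) = 2 := by norm_num [Nat.factorial]
    rw [h7] at h6
    nlinarith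
  calc B * k ^ (3 / 8 : ℝ) * (T0 * ell k ^ 2 + 5)
      ≤ B * k ^ (3 / 8 : ℝ) * ((T0 + 5) * (128 * k ^ (-(1 / 8) : ℝ))) := by
        apply mul_le_mul_of_nonneg_left _ (by positivity)
        exact h4.trans (mul_le_mul_of_nonneg_left h5 (by positivity))
    _ = B * (T0 + 5) * 128 * (k ^ (3 / 8 : ℝ) * k ^ (-(1 / 8) : ℝ)) := by ring
    _ = B * (T0 + 5) * 128 * k ^ (1 / 4 : ℝ) := by
        rw [← Real.rpow_add hk0]
        norm_num

/-- lower bound of a value after a block -/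
def LowE {d L : ℕ} (k : ℝ) (g : ℕ → boxS d L → ℝ) (m : ℕ) (w : boxS d L) (Y ε u : ℝ) : Prop :=
  k ^ (ε - (Y + ∑ j ∈ Finset.range m, g j w)) ≤ u ∨
    ∃ j, j ≤ m ∧ k ^ (ε - (-(1 / 16) + ∑ l ∈ Finset.Ico j m, g l w)) ≤ u

/-- window starts -/
private def Low2_t (J m j : ℕ) : ℕ := if j < J then j * (m / J) else m

private theorem Low2_t_facts {J m : ℕ} (hJ : 1 ≤ J) : Low2_t J m 0 = 0 ∧ Low2_t J m J = m ∧
    (∀ j, Low2_t J m j ≤ m) ∧ (∀ j, Low2_t J m j ≤ Low2_t J m (j + 1)) ∧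
    (∀ j, 1 ≤ j → j < J → m / J ≤ Low2_t J m j) ∧
    (∀ j, j < J → m / J ≤ Low2_t J m (j + 1) - Low2_t J m j ∧
      Low2_t J m (j + 1) - Low2_t J m j ≤ m / J + J) := by
  have hJ0 : 0 < J := hJ
  have hdiv : J * (m / J) ≤ m := Nat.mul_div_le m J
  have hmod : m < J * (m / J) + J := by
    have h1 := Nat.div_add_mod m J
    have h2 := Nat.mod_lt m hJ0
    generalize m / J = q at *
    generalize m % J = r at *
    omega
  unfold Low2_t
  generalize m / J = q at *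
  have key : ∀ j, j < J → j * q + q ≤ m := by
    intro j hj
    have h1 : (j + 1) * q ≤ J * q := Nat.mul_le_mul_right _ hj
    have h2 : (j + 1) * q = j * q + q := by ring
    omega
  refine ⟨?_, ?_, ?_, ?_, ?_, ?_⟩
  · rw [if_pos hJ0, zero_mul]
  · rw [if_neg (lt_irrefl _)]
  · intro j
    split_ifs with h
    · have := key j h
      omega
    · exact le_rfl
  · intro j
    split_ifs with h1 h2
    · exact Nat.mul_le_mul_right _ (Nat.le_succ j)
    · have := key j h1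
      omega
    · omega
    · exact le_rfl
  · intro j h1 h2
    rw [if_pos h2]
    exact Nat.le_mul_of_pos_left _ h1
  · intro j hj
    rw [if_pos hj]
    by_cases h1 : j + 1 < J
    · rw [if_pos h1]
      have h2 : (j + 1) * q = j * q + q := by ring
      omega
    · rw [if_neg h1]
      have h2 : J = j + 1 := by omega
      have h3 := key j hj
      have h4 : J * q = j * q + q := by
        rw [h2]
        ring
      omega

private theorem Low2_osc_meas {S : Type} [Fintype S] (n : ℕ) (x : S) :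
    Measurable (fun g : ℕ → S → ℝ => osc (fun j => g j x) n) := by
  have h1 : Measurable (fun b : ℕ → ℝ => pmax b n) := by
    unfold pmax
    refine Finset.measurable_range_sup'' (fun k _ => ?_)
    exact Finset.measurable_sum _ (fun j _ => measurable_pi_apply j)
  have h2 : Measurable (fun b : ℕ → ℝ => osc b n) := by
    unfold osc
    refine h1.add (h1.comp ?_)
    exact measurable_pi_lambda _ (fun j => (measurable_pi_apply j).neg)
  refine h2.comp ?_
  exact measurable_pi_lambda _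
    (fun j => (measurable_pi_apply x).comp (measurable_pi_apply (X := fun _ => S → ℝ) j))

/-- exceptional events of the noise: last passage functional, oscillation at `w`, regularity in the windows -/
private theorem Low2_noise (d L : ℕ) (k h : ℝ) (hk : 0 < k) (hk1 : k < 1) (hh : 0 < h)
    (T0 p lam0 C1 C2 C3 s1 M1 M2 σ : ℝ) (J m : ℕ) (hT : 0 < T0) (hlam : 0 < lam0) (hC1 : 0 < C1)
    (hM2 : 0 ≤ M2) (hJ : 1 ≤ J) (hσ : 0 < σ) (hC3 : 1 ≤ C3)
    (htail : ∀ (S : Type) [Fintype S] (M : MSet S d) (v : ℝ), 0 < v → v ≤ 1 / lam0 ^ 2 →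
      ∀ (n : ℕ) (x : S) (r : ℝ), PI (nz S) {ω | r ≤ M.lppM (1 / 8) (fun _ => 0) (sc v ω) n x}
          ≤ ENNReal.ofReal (Real.exp (C1 * (n * v + 1) - lam0 * r)))
    (hsum : ∀ (S : Type) [Fintype S] (M : MSet S d) (x : S),
      ∑ y, Real.exp (-(lam0 / 8 * (M.dd x y : ℝ))) ≤ C2)
    (hreg : ∀ (L n : ℕ) (v κ : ℝ), 0 < v → 1 ≤ n → v * n ≤ s1 → C3 * Real.sqrt (v * n) ≤ κ →
      ∀ x : boxS d L, PI (nz (boxS d L)) {ω | ¬ Reg2 κ (sc v ω) n x} ≤
        ENNReal.ofReal (C3 * Real.exp (-(κ / Real.sqrt (v * n)))))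
    (hM1p : Real.exp (C1 * (T0 + 2) - lam0 * M1) * C2 ≤ p / 8)
    (hM2p : 4 * Real.exp (-(M2 ^ 2) / (32 * (T0 + 1))) ≤ p / 8)
    (hσ1 : 2 * σ ≤ s1) (hσ2 : C3 * Real.sqrt (2 * σ) ≤ 1 / 64)
    (hσ3 : J * (C3 * Real.exp (-((1 / 64) / Real.sqrt (2 * σ)))) ≤ p / 8)
    (hv : h / ell k ^ 2 ≤ 1 / lam0 ^ 2) (hm0 : 0 < m) (hm : h / ell k ^ 2 * m ≤ T0 + 1)
    (t : ℕ → ℕ) (hn1 : ∀ j, j < J → 1 ≤ t (j + 1) - t j)
    (hn2 : ∀ j, j < J → h / ell k ^ 2 * ((t (j + 1) - t j : ℕ) : ℝ) ≤ 2 * σ)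
    (z w : boxS d L) :
    PI (Measure.pi fun _ : boxS d L => gC)
      ({ω | ∃ v, M1 + (boxNet d L).dist z v / 8 ≤
          (boxMSet d L).lppM (1 / 8) (fun _ => 0) (gz k h ω) m v} ∪
        {ω | M2 ≤ osc (fun j => gz k h ω j w) m} ∪
        {ω | ∃ j, j < J ∧ ¬ Reg2 (1 / 64) (gz k h (fun i => ω (t j + i))) (t (j + 1) - t j) w}) ≤
      ENNReal.ofReal (p / 8 + p / 8 + p / 8) := by
  set P := PI (Measure.pi fun _ : boxS d L => gC) with hP
  have hell := ell_pos hk hk1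
  have hv0 : 0 < h / ell k ^ 2 := by positivity
  have hp8 : 0 ≤ p / 8 := le_trans (by positivity) hσ3
  -- first event
  have h1 : P {ω | ∃ v, M1 + (boxNet d L).dist z v / 8 ≤
      (boxMSet d L).lppM (1 / 8) (fun _ => 0) (gz k h ω) m v} ≤ ENNReal.ofReal (p / 8) := by
    have e : {ω : ℕ → boxS d L → ℂ | ∃ v, M1 + (boxNet d L).dist z v / 8 ≤
      (boxMSet d L).lppM (1 / 8) (fun _ => 0) (gz k h ω) m v} =
        ⋃ v, {ω | gz k h ω ∈ {g : ℕ → boxS d L → ℝ | M1 + (boxNet d L).dist z v / 8 ≤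
          (boxMSet d L).lppM (1 / 8) (fun _ => 0) g m v}} := by
      ext ω
      simp only [Set.mem_ofPred_eq, Set.mem_iUnion]
    rw [e]
    refine (measure_iUnion_le _).trans ?_
    rw [tsum_fintype]
    have e1 : ∀ v : boxS d L, P {ω | gz k h ω ∈ {g : ℕ → boxS d L → ℝ |
        M1 + (boxNet d L).dist z v / 8 ≤ (boxMSet d L).lppM (1 / 8) (fun _ => 0) g m v}} ≤
        ENNReal.ofReal (Real.exp (C1 * (T0 + 2) - lam0 * M1) *
          Real.exp (-(lam0 / 8 * ((boxMSet d L).dd z v : ℝ)))) := by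
      intro v
      rw [hP, re_law d L k h hk hk1 hh _ (measurableSet_le measurable_const
        (measurable_lppM _ _ _ _ _))]
      refine le_trans (htail (boxS d L) (boxMSet d L) _ hv0 hv m v _) ?_
      apply ENNReal.ofReal_le_ofReal
      rw [← Real.exp_add]
      apply Real.exp_le_exp.2
      have a1 : C1 * (m * (h / ell k ^ 2) + 1) ≤ C1 * (T0 + 2) :=
        mul_le_mul_of_nonneg_left (by linarith) hC1.le
      have a2 : ((boxMSet d L).dd z v : ℝ) = (boxNet d L).dist z v := rfl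
      rw [a2]
      linarith
    refine (Finset.sum_le_sum fun v _ => e1 v).trans ?_
    rw [← ENNReal.ofReal_sum_of_nonneg (fun _ _ => by positivity), ← Finset.mul_sum]
    apply ENNReal.ofReal_le_ofReal
    exact (mul_le_mul_of_nonneg_left (hsum _ (boxMSet d L) z) (Real.exp_pos _).le).trans hM1p
  have h2 : P {ω | M2 ≤ osc (fun j => gz k h ω j w) m} ≤ ENNReal.ofReal (p / 8) := by
    have e : {ω : ℕ → boxS d L → ℂ | M2 ≤ osc (fun j => gz k h ω j w) m} =
        {ω | gz k h ω ∈ {g : ℕ → boxS d L → ℝ | M2 ≤ osc (fun j => g j w) m}} := rfl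
    rw [e, hP, re_law d L k h hk hk1 hh _ (measurableSet_le measurable_const (Low2_osc_meas m w))]
    refine le_trans (osc_tail_nz (h / ell k ^ 2) hv0 m hm0 w M2 hM2) ?_
    apply ENNReal.ofReal_le_ofReal
    refine le_trans ?_ hM2p
    apply mul_le_mul_of_nonneg_left _ (by norm_num)
    apply Real.exp_le_exp.2
    rw [neg_div, neg_div, neg_le_neg_iff]
    have hm0' : (0 : ℝ) < m := by exact_mod_cast hm0
    exact div_le_div_of_nonneg_left (by positivity) (by positivity) (by linarith)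
  have h3 : P {ω | ∃ j, j < J ∧ ¬ Reg2 (1 / 64) (gz k h (fun i => ω (t j + i)))
      (t (j + 1) - t j) w} ≤ ENNReal.ofReal (p / 8) := by
    have e : {ω : ℕ → boxS d L → ℂ | ∃ j, j < J ∧ ¬ Reg2 (1 / 64)
        (gz k h (fun i => ω (t j + i))) (t (j + 1) - t j) w} =
        ⋃ j ∈ Finset.range J, {ω | (fun i => ω (t j + i)) ∈ {ω' : ℕ → boxS d L → ℂ |
          gz k h ω' ∈ {g : ℕ → boxS d L → ℝ | ¬ Reg2 (1 / 64) g (t (j + 1) - t j) w}}} := by
      ext ω
      simp only [Set.mem_ofPred_eq, Set.mem_iUnion, Finset.mem_range, exists_prop]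
    rw [e]
    refine (measure_biUnion_finset_le _ _).trans ?_
    have e1 : ∀ j ∈ Finset.range J, P {ω | (fun i => ω (t j + i)) ∈ {ω' : ℕ → boxS d L → ℂ |
          gz k h ω' ∈ {g : ℕ → boxS d L → ℝ | ¬ Reg2 (1 / 64) g (t (j + 1) - t j) w}}} ≤
        ENNReal.ofReal (C3 * Real.exp (-((1 / 64) / Real.sqrt (2 * σ)))) := by
      intro j hj
      have hj' := Finset.mem_range.1 hj
      have mE : MeasurableSet {g : ℕ → boxS d L → ℝ | ¬ Reg2 (1 / 64) g (t (j + 1) - t j) w} :=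
        (measurableSet_Reg2 (1 / 64) (t (j + 1) - t j) w).compl
      refine (Low2_shift _ _ (Low2_gz_meas k h mE) (t j)).trans ?_
      have e2 := re_law d L k h hk hk1 hh _ mE
      refine (le_of_eq e2).trans ?_
      have hn := hn1 j hj'
      have hn0 : (0 : ℝ) < ((t (j + 1) - t j : ℕ) : ℝ) := by exact_mod_cast hn
      have hsq : Real.sqrt (h / ell k ^ 2 * ((t (j + 1) - t j : ℕ) : ℝ)) ≤ Real.sqrt (2 * σ) :=
        Real.sqrt_le_sqrt (hn2 j hj')
      have hsq0 : 0 < Real.sqrt (h / ell k ^ 2 * ((t (j + 1) - t j : ℕ) : ℝ)) :=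
        Real.sqrt_pos.2 (by positivity)
      refine (hreg L (t (j + 1) - t j) (h / ell k ^ 2) (1 / 64) hv0 hn ((hn2 j hj').trans hσ1)
        ((mul_le_mul_of_nonneg_left hsq (by linarith)).trans hσ2) w).trans ?_
      apply ENNReal.ofReal_le_ofReal
      apply mul_le_mul_of_nonneg_left _ (by linarith)
      apply Real.exp_le_exp.2
      rw [neg_le_neg_iff]
      exact div_le_div_of_nonneg_left (by norm_num) hsq0 hsq
    refine (Finset.sum_le_sum e1).trans ?_
    rw [Finset.sum_const, Finset.card_range, nsmul_eq_mul, ← ENNReal.ofReal_natCast,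
      ← ENNReal.ofReal_mul (Nat.cast_nonneg _)]
    exact ENNReal.ofReal_le_ofReal hσ3
  refine (measure_union_le _ _).trans ?_
  rw [ENNReal.ofReal_add (by positivity) hp8, ENNReal.ofReal_add hp8 hp8]
  exact add_le_add ((measure_union_le _ _).trans (add_le_add h1 h2)) h3

/-- off the exceptional events the lower bound holds -/
private theorem Low2_good (d L : ℕ) (β k h : ℝ) (hβ : 0 < β) (hk : 0 < k) (hk2 : k ≤ 1 / 2)
    (hh : 0 < h) (T0 M M1 M2 ε1 ε εw ε0w ε2 ε0 Md c : ℝ) (J m m0 : ℕ) (hJ : 1 ≤ J)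
    (hM : 1 ≤ M) (hM1 : 0 ≤ M1) (hM2 : 0 ≤ M2) (hε1 : ε1 ≤ 1) (hε1ε : ε1 ≤ ε) (hεw : 0 < εw)
    (hJε : J * εw = ε1) (hε0w : 0 < ε0w) (hε2 : 0 < ε2) (hε2' : ε2 ≤ 1 / 32)
    (hε2'' : ε2 * (1 + m0) ≤ ε0w) (hε0 : 0 < ε0) (hε0' : ε0 * (2 + M) ≤ 1 / 16)
    (hε0'' : ε0 * (1 + M + m0) ≤ ε0w) (hMd : M + (M + m0) / 2 ≤ Md) (hMd' : M + (M + 1) / 2 ≤ Md)
    (hm0 : 8 / 3 * (3 * M + M1 + M2 + 3) ≤ m0)
    (hT : 4 * d * k ^ (3 / 8 : ℝ) * (T0 * ell k ^ 2 + 5) ≤ Real.log 2)
    (hmT : m * h ≤ T0 * ell k ^ 2 + 5)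
    (hw1 : ∀ j, j < J → 1 ≤ ((Low2_t J m (j + 1) - Low2_t J m j : ℕ) : ℝ) * h)
    (hw3 : ∀ j, j < J → ((Low2_t J m (j + 1) - Low2_t J m j : ℕ) : ℝ) * h ≤ ell k ^ 3)
    (H : ∀ (G : boxS d L → ℂ) (z x : boxS d L), (boxNet d L).dist x z ≤ m0 →
      (∀ v, ‖G v‖ * k ^ (boxNet d L).dist x v ≤ ‖G z‖ * k ^ (boxNet d L).dist x z) →
      ‖G z‖ ≤ k ^ (-ε0w) →
      ∀ H : boxS d L → ℝ, (∀ v, ∀ y ∈ (boxNet d L).nb v, H y ≤ H v + 3 / 4) →
      (∀ v, (boxNet d L).dist x v ≤ 1 → H v ≤ 1 / 16) → (∀ v, ‖G v‖ ≤ k ^ (-(H v))) →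
      ∀ n : ℕ, 1 ≤ n * h → n * h ≤ ell k ^ 3 →
        PI (Measure.pi fun _ : boxS d L => gC) {ω | Reg2 (1 / 64) (gz k h ω) n x ∧
            ‖traj (st2 d β k h L) G ω n x‖ < min (k ^ (3 * (1 / 64 : ℝ)))
              (k ^ (εw + (boxNet d L).dist x z) *
                Real.exp (ell k * ∑ j ∈ Finset.range n, gz k h ω j x) * ‖G z‖)}
          ≤ ENNReal.ofReal (k ^ c))
    (G : boxS d L → ℂ) (z w : boxS d L) (X0 : ℝ) (hX0 : X0 ≤ 1 / 8) (hz : k ^ (-X0) ≤ ‖G z‖)
    (hzw : (boxNet d L).dist z w ≤ M)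
    (hG : ∀ v, ‖G v‖ ≤ k ^ (-(X0 + M + (boxNet d L).dist z v / 2)))
    (hcd : Caps k (nrm G) ε0 z ∨ X0 ≤ -Md)
    (ω : ℕ → boxS d L → ℂ)
    (hB1 : ¬ ∃ v, M1 + (boxNet d L).dist z v / 8 ≤
          (boxMSet d L).lppM (1 / 8) (fun _ => 0) (gz k h ω) m v)
    (hB2 : ¬ M2 ≤ osc (fun j => gz k h ω j w) m)
    (hB3 : ¬ ∃ j, j < J ∧ ¬ Reg2 (1 / 64) (gz k h (fun i => ω (Low2_t J m j + i)))
      (Low2_t J m (j + 1) - Low2_t J m j) w)
    (hB4 : ∀ j, 1 ≤ j → j < J →
      Caps k (nrm (traj (st2 d β k h L) G ω (Low2_t J m j))) ε2 w)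
    (hB6 : ∀ j, j < J → ¬ (PI (Measure.pi fun _ : boxS d L => gC)
        {b | (traj (st2 d β k h L) G ω (Low2_t J m j), b) ∈
          Low2_W β k h εw (Low2_t J m (j + 1) - Low2_t J m j) w} ≤ ENNReal.ofReal (k ^ c) ∧
      (traj (st2 d β k h L) G ω (Low2_t J m j), fun i => ω (Low2_t J m j + i)) ∈
          Low2_W β k h εw (Low2_t J m (j + 1) - Low2_t J m j) w)) :
    LowE k (gz k h ω) m w (X0 - (boxNet d L).dist z w) ε ‖traj (st2 d β k h L) G ω m w‖ := by
  have hk1 : k < 1 := by linarith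
  have hell := ell_pos hk hk1
  have hεM : 0 ≤ ε0 * M := mul_nonneg hε0.le (by linarith)
  have hε2m : 0 ≤ ε2 * (m0 : ℝ) := mul_nonneg hε2.le (Nat.cast_nonneg _)
  have hε0m : 0 ≤ ε0 * (m0 : ℝ) := mul_nonneg hε0.le (Nat.cast_nonneg _)
  obtain ⟨t0, tJ, tle, tmono, -, -⟩ := Low2_t_facts (m := m) hJ
  set t := Low2_t J m with ht
  set u : ℕ → boxS d L → ℝ := fun j v => ‖traj (st2 d β k h L) G ω j v‖ with hu
  push Not at hB1 hB2 hB3
  have hup : ∀ j, j ≤ J → ∀ v, u (t j) v ≤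
      k ^ (-(X0 + M + M1 + 1 + 5 / 8 * (boxNet d L).dist z v)) := by
    intro j _ v
    have hle : ((t j : ℕ) : ℝ) * h ≤ T0 * ell k ^ 2 + 5 := by
      refine le_trans (mul_le_mul_of_nonneg_right ?_ hh.le) hmT
      exact_mod_cast tle j
    exact Low2_up d hβ hk hk2 L hh (T0 * ell k ^ 2 + 5) hT G z M X0 M1 hG ω (t j) m hle (tle j)
      (fun v => (hB1 v).le) v
  have hosc : ∀ i j, i ≤ j → j ≤ J → ∀ i', i' ≤ t j →
      |∑ l ∈ Finset.Ico i' (t j), gz k h ω l w| ≤ M2 := by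
    intro _ j _ _ i' hi'
    exact (sum_le_osc (fun l => gz k h ω l w) hi' (tle j)).trans hB2.le
  have hdn : ∀ (a : boxS d L) (v y : boxS d L), y ∈ (boxNet d L).nb v →
      ((boxNet d L).dist a y : ℝ) ≤ (boxNet d L).dist a v + 1 := by
    intro a v y hy
    have h2 := (boxNet d L).dist_tri a v y
    rw [(boxNet d L).dist_nb v y hy] at h2
    exact_mod_cast h2
  have hstep : ∀ j, j < J → ∀ z', (∀ v, u (t j) v * k ^ (boxNet d L).dist w v ≤
        u (t j) z' * k ^ (boxNet d L).dist w z') → (boxNet d L).dist w z' ≤ m0 →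
      ∀ v, min (k ^ (3 / 64 : ℝ)) (k ^ εw * Real.exp (ell k *
        ∑ l ∈ Finset.Ico (t j) (t (j + 1)), gz k h ω l w) *
        (u (t j) v * k ^ (boxNet d L).dist w v)) ≤ u (t (j + 1)) w := by
    intro j hj z' hmax hdist v
    by_contra hlt
    push Not at hlt
    have hdm : ((boxNet d L).dist w z' : ℝ) ≤ m0 := by exact_mod_cast hdist
    refine hB6 j hj ⟨?_, hB3 j hj, v, ?_⟩
    · -- the hypotheses of `wl2`
      rcases Nat.eq_zero_or_pos j with hj0 | hj0
      · have hS : traj (st2 d β k h L) G ω (t j) = G := by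
          rw [hj0, t0]
          rfl
        have hmax' : ∀ v, ‖G v‖ * k ^ (boxNet d L).dist w v ≤
            ‖G z'‖ * k ^ (boxNet d L).dist w z' := by
          intro v
          have := hmax v
          simp only [hu, hS] at this
          exact this
        rw [hS]
        have hzz : ((boxNet d L).dist z z' : ℝ) ≤ M + m0 := by
          have h1 : ((boxNet d L).dist z z' : ℝ) ≤ (boxNet d L).dist z w + (boxNet d L).dist w z' := by
            exact_mod_cast (boxNet d L).dist_tri z w z'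
          linarith
        have hzn : ∀ v, (boxNet d L).dist w v ≤ 1 → ((boxNet d L).dist z v : ℝ) ≤ M + 1 := by
          intro v hv
          have h1 : ((boxNet d L).dist z v : ℝ) ≤ (boxNet d L).dist z w + (boxNet d L).dist w v := by
            exact_mod_cast (boxNet d L).dist_tri z w v
          have h2 : ((boxNet d L).dist w v : ℝ) ≤ 1 := by exact_mod_cast hv
          linarith
        rcases hcd with hc | hc
        · refine Low2_W_prob hk _ w H (hw1 j hj) (hw3 j hj) G z' hdist hmax' ?_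
            (fun v => ε0 * (1 + (boxNet d L).dist z v)) ?_ ?_ ?_
          · refine (hc z').trans ?_
            apply Real.rpow_le_rpow_of_exponent_ge hk hk1.le
            rw [(boxNet d L).dist_comm z' z]
            have := mul_le_mul_of_nonneg_left hzz hε0.le
            linarith
          · intro v y hy
            have := mul_le_mul_of_nonneg_left (hdn z v y hy) hε0.le
            show ε0 * (1 + ((boxNet d L).dist z y : ℝ)) ≤ ε0 * (1 + ((boxNet d L).dist z v : ℝ)) + 3 / 4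
            linarith
          · intro v hv
            have := mul_le_mul_of_nonneg_left (hzn v hv) hε0.le
            show ε0 * (1 + ((boxNet d L).dist z v : ℝ)) ≤ 1 / 16
            linarith
          · intro v
            have := hc v
            rw [(boxNet d L).dist_comm v z] at this
            exact this
        · refine Low2_W_prob hk _ w H (hw1 j hj) (hw3 j hj) G z' hdist hmax' ?_
            (fun v => X0 + M + (boxNet d L).dist z v / 2) ?_ ?_ hG
          · refine (hG z').trans ?_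
            apply Real.rpow_le_rpow_of_exponent_ge hk hk1.le
            linarith
          · intro v y hy
            have := hdn z v y hy
            show X0 + M + ((boxNet d L).dist z y : ℝ) / 2 ≤
              X0 + M + ((boxNet d L).dist z v : ℝ) / 2 + 3 / 4
            linarith
          · intro v hv
            have := hzn v hv
            show X0 + M + ((boxNet d L).dist z v : ℝ) / 2 ≤ 1 / 16
            linarith
      · have hc := hB4 j hj0 hj
        refine Low2_W_prob hk _ w H (hw1 j hj) (hw3 j hj) _ z' hdist hmax ?_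
            (fun v => ε2 * (1 + (boxNet d L).dist w v)) ?_ ?_ ?_
        · refine (hc z').trans ?_
          apply Real.rpow_le_rpow_of_exponent_ge hk hk1.le
          rw [(boxNet d L).dist_comm z' w]
          have := mul_le_mul_of_nonneg_left hdm hε2.le
          linarith
        · intro v y hy
          have := mul_le_mul_of_nonneg_left (hdn w v y hy) hε2.le
          show ε2 * (1 + ((boxNet d L).dist w y : ℝ)) ≤ ε2 * (1 + ((boxNet d L).dist w v : ℝ)) + 3 / 4
          linarith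
        · intro v hv
          have h2 : ((boxNet d L).dist w v : ℝ) ≤ 1 := by exact_mod_cast hv
          have := mul_le_mul_of_nonneg_left h2 hε2.le
          show ε2 * (1 + ((boxNet d L).dist w v : ℝ)) ≤ 1 / 16
          linarith
        · intro v
          have := hc v
          rw [(boxNet d L).dist_comm v w] at this
          exact this
    · -- membership
      have e1 : t j + (t (j + 1) - t j) = t (j + 1) := Nat.add_sub_cancel' (tmono j)
      have e2 : traj (st2 d β k h L) (traj (st2 d β k h L) G ω (t j)) (fun i => ω (t j + i))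
          (t (j + 1) - t j) = traj (st2 d β k h L) G ω (t (j + 1)) := by
        rw [← Low2_traj_add, e1]
      have e3 : ∑ i ∈ Finset.range (t (j + 1) - t j), gz k h (fun i => ω (t j + i)) i w =
          ∑ l ∈ Finset.Ico (t j) (t (j + 1)), gz k h ω l w := by
        rw [Finset.sum_Ico_eq_sum_range]
        rfl
      show ‖traj (st2 d β k h L) (traj (st2 d β k h L) G ω (t j)) (fun i => ω (t j + i))
          (t (j + 1) - t j) w‖ < min (k ^ (3 / 64 : ℝ)) (k ^ εw * Real.exp (ell k *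
            ∑ i ∈ Finset.range (t (j + 1) - t j), gz k h (fun i => ω (t j + i)) i w) *
          (‖traj (st2 d β k h L) G ω (t j) v‖ * k ^ (boxNet d L).dist w v))
      rw [e2, e3]
      exact hlt
  have hJε1 : (J : ℝ) * εw ≤ 1 := hJε.trans_le hε1
  have step := fun j hj v0 hc => Low2_step hk hk1 (gz k h ω) u J t tmono z w X0 M M1 M2 εw hX0 hM
    hεw.le hJε1 hzw hup hosc m0 hm0 hstep j hj v0 hc
  have claim : ∀ j, j ≤ J → ∃ v0,
      (k ^ (j * εw - (X0 - (boxNet d L).dist z w + ∑ l ∈ Finset.Ico 0 (t j), gz k h ω l w)) ≤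
        u (t j) v0 * k ^ (boxNet d L).dist w v0 ∨
      ∃ i, i ≤ t j ∧ k ^ (j * εw - (-(3 / 64) + ∑ l ∈ Finset.Ico i (t j), gz k h ω l w)) ≤
        u (t j) v0 * k ^ (boxNet d L).dist w v0) := by
    intro j
    induction j with
    | zero =>
      intro _
      refine ⟨z, Or.inl ?_⟩
      rw [t0, Finset.Ico_self, Finset.sum_empty]
      have e1 : k ^ (((0 : ℕ) : ℝ) * εw - (X0 - (boxNet d L).dist z w + 0)) =
          k ^ (-X0) * k ^ (boxNet d L).dist w z := by
        rw [(boxNet d L).dist_comm w z, ← Real.rpow_natCast k ((boxNet d L).dist z w),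
          ← Real.rpow_add hk]
        congr 1
        push_cast
        ring
      rw [e1]
      exact mul_le_mul_of_nonneg_right hz (by positivity)
    | succ j ih =>
      intro hj
      obtain ⟨v0, hv0⟩ := ih (by omega)
      refine ⟨w, ?_⟩
      rw [(boxNet d L).dist_self w, pow_zero, mul_one]
      exact step j (by omega) v0 hv0
  obtain ⟨j', hj'⟩ : ∃ j', J = j' + 1 := ⟨J - 1, by omega⟩
  obtain ⟨v0, hv0⟩ := claim j' (by omega)
  have hfin := step j' (by omega) v0 hv0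
  rw [← hj', tJ, hJε] at hfin
  rcases hfin with hf | ⟨i, hi, hf⟩
  · left
    refine le_trans ?_ hf
    rw [Finset.range_eq_Ico]
    apply Real.rpow_le_rpow_of_exponent_ge hk hk1.le
    linarith
  · right
    refine ⟨i, hi, le_trans ?_ hf⟩
    apply Real.rpow_le_rpow_of_exponent_ge hk hk1.le
    linarith

private theorem Low2_M1 (a p lam0 C2 : ℝ) (hp : 0 < p) (hl : 0 < lam0) (hC : 0 < C2) :
    ∃ M1 : ℝ, 0 ≤ M1 ∧ Real.exp (a - lam0 * M1) * C2 ≤ p / 8 := by
  refine ⟨max 0 ((a - Real.log (p / (8 * C2))) / lam0), le_max_left _ _, ?_⟩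
  have h1 : (a - Real.log (p / (8 * C2))) / lam0 ≤ max 0 ((a - Real.log (p / (8 * C2))) / lam0) :=
    le_max_right _ _
  rw [div_le_iff₀ hl] at h1
  have h2 : Real.exp (a - lam0 * max 0 ((a - Real.log (p / (8 * C2))) / lam0)) ≤ p / (8 * C2) := by
    rw [← Real.exp_log (by positivity : 0 < p / (8 * C2))]
    apply Real.exp_le_exp.2
    rw [Real.exp_log (by positivity)]
    linarith
  calc Real.exp (a - lam0 * max 0 ((a - Real.log (p / (8 * C2))) / lam0)) * C2
      ≤ p / (8 * C2) * C2 := mul_le_mul_of_nonneg_right h2 hC.le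
    _ = p / 8 := by field_simp

private theorem Low2_M2 (T p : ℝ) (hp : 0 < p) (hT : 0 < T) :
    ∃ M2 : ℝ, 0 ≤ M2 ∧ 4 * Real.exp (-(M2 ^ 2) / (32 * T)) ≤ p / 8 := by
  set B : ℝ := 32 * T * max 0 (-Real.log (p / 32)) with hB
  have hB0 : 0 ≤ B := by positivity
  refine ⟨1 + B, by linarith, ?_⟩
  have h1 : B ≤ (1 + B) ^ 2 := by nlinarith
  have h2 : -Real.log (p / 32) ≤ max 0 (-Real.log (p / 32)) := le_max_right _ _
  have h3 : -((1 + B) ^ 2) / (32 * T) ≤ Real.log (p / 32) := by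
    rw [div_le_iff₀ (by positivity)]
    have h4 : 32 * T * (-Real.log (p / 32)) ≤ B := mul_le_mul_of_nonneg_left h2 (by positivity)
    linarith
  calc 4 * Real.exp (-((1 + B) ^ 2) / (32 * T)) ≤ 4 * Real.exp (Real.log (p / 32)) :=
        mul_le_mul_of_nonneg_left (Real.exp_le_exp.2 h3) (by norm_num)
    _ = p / 8 := by
        rw [Real.exp_log (by positivity)]
        ring

theorem low2 (d : ℕ) (β : ℝ) (hβ : 0 < β) (T0 M ε p : ℝ) (hT : 0 < T0) (hM : 1 ≤ M)
    (hε : 0 < ε) (hp : 0 < p) : ∃ Md ε0 k0 : ℝ, 0 < ε0 ∧ 0 < k0 ∧ k0 < 1 ∧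
    ∀ k, 0 < k → k < k0 → ∀ L : ℕ, ∃ h0 : ℝ, 0 < h0 ∧ ∀ h, 0 < h → h < h0 →
    ∀ (m : ℕ), T0 * ell k ^ 2 - 5 ≤ m * h → m * h ≤ T0 * ell k ^ 2 + 5 →
    ∀ (G : boxS d L → ℂ) (z w : boxS d L) (X0 : ℝ), X0 ≤ 1 / 8 → k ^ (-X0) ≤ ‖G z‖ →
    (boxNet d L).dist z w ≤ M →
    (∀ v, ‖G v‖ ≤ k ^ (-(X0 + M + (boxNet d L).dist z v / 2))) →
    (Caps k (nrm G) ε0 z ∨ X0 ≤ -Md) →
      PI (Measure.pi fun _ : boxS d L => gC) {ω | ¬ LowE k (gz k h ω) m w
          (X0 - (boxNet d L).dist z w) ε ‖traj (st2 d β k h L) G ω m w‖}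
        ≤ ENNReal.ofReal p := by
  classical
  set ε1 : ℝ := min ε 1 with hε1d
  have hε1 : 0 < ε1 := lt_min hε one_pos
  have hε1ε : ε1 ≤ ε := min_le_left _ _
  have hε11 : ε1 ≤ 1 := min_le_right _ _
  obtain ⟨lam0, C1, hlam, hC1, htail⟩ := lpp_tail d (1 / 8) (by norm_num)
  obtain ⟨C2, hC2, hsum⟩ := sum_exp_dd d (lam0 / 8) (by positivity)
  obtain ⟨C3, s1, hC3, hs1, hreg⟩ := reg2_prob d
  obtain ⟨M1, hM1, hM1p⟩ := Low2_M1 (C1 * (T0 + 2)) p lam0 C2 hp hlam (by linarith)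
  obtain ⟨M2, hM2, hM2p⟩ := Low2_M2 (T0 + 1) p hp (by linarith)
  set m0 : ℕ := ⌈8 / 3 * (3 * M + M1 + M2 + 3)⌉₊ with hm0d
  have hm0 : 8 / 3 * (3 * M + M1 + M2 + 3) ≤ m0 := Nat.le_ceil _
  have hm00 : (0 : ℝ) ≤ m0 := Nat.cast_nonneg _
  obtain ⟨σ, J, hσ, hσ1, hσs, hσC, hJ, hσJ, hσp⟩ := Low2_sigma T0 C3 s1 p hT hC3 hs1 hp
  have hJ0 : (0 : ℝ) < J := by exact_mod_cast hJ
  have hJ1 : (1 : ℝ) ≤ J := by exact_mod_cast hJ
  set εw : ℝ := ε1 / J with hεwd
  have hεw : 0 < εw := div_pos hε1 hJ0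
  have hJε : J * εw = ε1 := by rw [hεwd]; field_simp
  obtain ⟨ε0w, cw, k0w, hε0w, hcw, hk0w, hk0w1, Hw⟩ := wl2 d β hβ m0 (1 / 64) (by norm_num) le_rfl
    εw hεw
  set ε2 : ℝ := min (1 / 32) (ε0w / (1 + m0)) with hε2d
  have hε2 : 0 < ε2 := lt_min (by norm_num) (by positivity)
  have hε2' : ε2 ≤ 1 / 32 := min_le_left _ _
  have hε2'' : ε2 * (1 + m0) ≤ ε0w := by
    rw [← le_div_iff₀ (by positivity)]
    exact min_le_right _ _
  obtain ⟨cc, k0c, hcc, hk0c, hk0c1, Hc⟩ := caps_prob 2 d β hβ ε2 hε2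
  set ε0 : ℝ := min (1 / 16 / (2 + M)) (ε0w / (1 + M + m0)) with hε0d
  have hε0 : 0 < ε0 := lt_min (by positivity) (by positivity)
  have hε0' : ε0 * (2 + M) ≤ 1 / 16 := by
    rw [← le_div_iff₀ (by positivity)]
    exact min_le_left _ _
  have hε0'' : ε0 * (1 + M + m0) ≤ ε0w := by
    rw [← le_div_iff₀ (by positivity)]
    exact min_le_right _ _
  -- conditions on `k`
  have hev : ∀ᶠ k in nhdsWithin (0 : ℝ) (Set.Ioi 0), (k < k0w ∧ k < k0c ∧ k ≤ 1 / 2) ∧
      max (3 + 2 * σ) ((5 + 2 * J) / T0) ≤ ell k ∧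
      4 * d * k ^ (3 / 8 : ℝ) * (T0 * ell k ^ 2 + 5) ≤ Real.log 2 ∧
      J * k ^ cc ≤ p / 8 ∧ J * k ^ cw ≤ p / 8 := by
    have a1 : ∀ᶠ k in nhdsWithin (0 : ℝ) (Set.Ioi 0), k < k0w ∧ k < k0c ∧ k ≤ 1 / 2 := by
      have : ∀ᶠ k in nhds (0 : ℝ), k < k0w ∧ k < k0c ∧ k ≤ 1 / 2 := by
        filter_upwards [Iio_mem_nhds hk0w, Iio_mem_nhds hk0c,
          Iic_mem_nhds (by norm_num : (0 : ℝ) < 1 / 2)] with k h1 h2 h3
        exact ⟨h1, h2, h3⟩
      exact this.filter_mono nhdsWithin_le_nhds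
    exact a1.and ((Low2_ell.eventually_ge_atTop _).and ((Low2_grow (4 * d) T0 (Real.log 2)
      (by positivity) hT (Real.log_pos (by norm_num))).and ((Low2_pow hcc (p / 8) (by positivity) J).and
        (Low2_pow hcw (p / 8) (by positivity) J))))
  obtain ⟨k1, hk1pos, hk1⟩ := mem_nhdsGT_iff_exists_Ioo_subset.1 hev
  have hk1pos' : 0 < k1 := hk1pos
  refine ⟨2 * M + m0 + 1, ε0, min k1 (1 / 2), hε0, lt_min hk1pos' (by norm_num),
    lt_of_le_of_lt (min_le_right _ _) (by norm_num), ?_⟩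
  intro k hk hkk L
  obtain ⟨⟨hkw, hkc, hk2⟩, hellA, hgrow, hpc, hpw⟩ := hk1 ⟨hk, lt_of_lt_of_le hkk (min_le_left _ _)⟩
  have hk1' : k < 1 := by linarith
  have hell := ell_pos hk hk1'
  have hell3 : 3 + 2 * σ ≤ ell k := (le_max_left _ _).trans hellA
  have hellT : 5 + 2 * J ≤ T0 * ell k := by
    have := (le_max_right _ _).trans hellA
    rw [div_le_iff₀ hT] at this
    linarith
  have hell1 : 1 ≤ ell k := by linarith
  have hellsq : ell k ≤ ell k ^ 2 := by nlinarith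
  have hellT2 : 5 + 2 * J ≤ T0 * ell k ^ 2 := hellT.trans (mul_le_mul_of_nonneg_left hellsq hT.le)
  have hell5 : 5 ≤ ell k ^ 2 := by nlinarith
  set Dm : ℝ := ∑ a : boxS d L, ∑ b : boxS d L, ((boxNet d L).dist a b : ℝ) with hDm
  set W : ℝ := ∑ _a : boxS d L, k ^ (-(1 / 8 + M + Dm / 2)) with hW
  have hW0 : 0 ≤ W := Finset.sum_nonneg fun _ _ => by positivity
  set Sy := PS2 d β k hβ hk.le with hSy
  obtain ⟨hw, hhw, HW⟩ := Hw k hk hkw L
  obtain ⟨hc, hhc, HC⟩ := Hc (Fam2 d β k) k Sy hk hkc bnoise2 L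
  obtain ⟨hx, hhx, HX⟩ := exit_bd 2 hβ hk.le Sy bnoise2 L (T0 * ell k ^ 2 + 5) (p / 8 / (1 + W))
    (by positivity) (by positivity)
  refine ⟨min (min hw hc) (min hx (min (1 / lam0 ^ 2) (min (σ / J) 1))), by positivity, ?_⟩
  intro h hh hlt m hm1 hm2 G z w X0 hX0 hz hzw hG hcd
  have hlw : h < hw := lt_of_lt_of_le hlt ((min_le_left _ _).trans (min_le_left _ _))
  have hlc : h < hc := lt_of_lt_of_le hlt ((min_le_left _ _).trans (min_le_right _ _))
  have hlx : h < hx := lt_of_lt_of_le hlt ((min_le_right _ _).trans (min_le_left _ _))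
  have hll : h < 1 / lam0 ^ 2 := lt_of_lt_of_le hlt
    ((min_le_right _ _).trans ((min_le_right _ _).trans (min_le_left _ _)))
  have hlσ : h < σ / J := lt_of_lt_of_le hlt ((min_le_right _ _).trans
    ((min_le_right _ _).trans ((min_le_right _ _).trans (min_le_left _ _))))
  have hl1 : h < 1 := lt_of_lt_of_le hlt ((min_le_right _ _).trans
    ((min_le_right _ _).trans ((min_le_right _ _).trans (min_le_right _ _))))
  have hJh : J * h ≤ σ := by
    rw [lt_div_iff₀ hJ0] at hlσ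
    linarith
  obtain ⟨t0, tJ, tle, tmono, tge, tn⟩ := Low2_t_facts (m := m) hJ
  -- lengths of the windows
  have hmJ : ((m / J : ℕ) : ℝ) * J ≤ m := by
    have h1 := Nat.div_mul_le_self m J
    exact_mod_cast h1
  have hmJ2 : (m : ℝ) ≤ (m / J : ℕ) * J + J := by
    have h1 := Nat.div_add_mod m J
    have h2 := Nat.mod_lt m (by omega : 0 < J)
    have h3 : m ≤ (m / J) * J + J := by
      rw [mul_comm]
      generalize m / J = q at *
      generalize m % J = r at *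
      omega
    exact_mod_cast h3
  have hq1 : 1 ≤ ((m / J : ℕ) : ℝ) * h := by
    have h1 : (m : ℝ) * h ≤ (m / J : ℕ) * h * J + J * h := by
      calc (m : ℝ) * h ≤ ((m / J : ℕ) * J + J) * h := mul_le_mul_of_nonneg_right hmJ2 hh.le
        _ = (m / J : ℕ) * h * J + J * h := by ring
    have h2 : 2 * J ≤ (m : ℝ) * h := by linarith
    have h3 : (J : ℝ) * 1 ≤ (m / J : ℕ) * h * J := by
      have : J * h ≤ 1 * J := by nlinarith
      linarith
    have h4 : (1 : ℝ) * J ≤ (m / J : ℕ) * h * J := by linarith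
    exact le_of_mul_le_mul_right h4 hJ0
  have hq2 : (((m / J : ℕ) : ℝ) + J) * h ≤ 2 * σ * ell k ^ 2 := by
    have h1 : ((m / J : ℕ) : ℝ) * h * J ≤ T0 * ell k ^ 2 + 5 := by
      have : ((m / J : ℕ) : ℝ) * J * h ≤ m * h := mul_le_mul_of_nonneg_right hmJ hh.le
      linarith
    have h2 : ((m / J : ℕ) : ℝ) * h * J ≤ σ * ell k ^ 2 * J := by
      have h3 : (T0 + 1) * ell k ^ 2 ≤ σ * J * ell k ^ 2 :=
        mul_le_mul_of_nonneg_right hσJ (by positivity)
      linarith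
    have h3 : ((m / J : ℕ) : ℝ) * h ≤ σ * ell k ^ 2 := le_of_mul_le_mul_right h2 hJ0
    have h4 : σ * 1 ≤ σ * ell k ^ 2 := mul_le_mul_of_nonneg_left (by linarith) hσ.le
    linarith
  have hw1 : ∀ j, j < J → 1 ≤ ((Low2_t J m (j + 1) - Low2_t J m j : ℕ) : ℝ) * h := by
    intro j hj
    refine hq1.trans (mul_le_mul_of_nonneg_right ?_ hh.le)
    exact_mod_cast (tn j hj).1
  have hw2 : ∀ j, j < J → ((Low2_t J m (j + 1) - Low2_t J m j : ℕ) : ℝ) * h ≤
      2 * σ * ell k ^ 2 := by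
    intro j hj
    refine le_trans (mul_le_mul_of_nonneg_right ?_ hh.le) hq2
    exact_mod_cast (tn j hj).2
  have hw3 : ∀ j, j < J → ((Low2_t J m (j + 1) - Low2_t J m j : ℕ) : ℝ) * h ≤ ell k ^ 3 := by
    intro j hj
    refine (hw2 j hj).trans ?_
    have : 2 * σ * ell k ^ 2 ≤ ell k * ell k ^ 2 :=
      mul_le_mul_of_nonneg_right (by linarith) (by positivity)
    calc 2 * σ * ell k ^ 2 ≤ ell k * ell k ^ 2 := this
      _ = ell k ^ 3 := by ring
  have hv : h / ell k ^ 2 ≤ 1 / lam0 ^ 2 := by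
    refine le_trans ?_ hll.le
    exact div_le_self hh.le (by linarith)
  have hmpos : 0 < m := by
    rcases Nat.eq_zero_or_pos m with h0 | h0
    · rw [h0] at hm1
      push_cast at hm1
      linarith
    · exact h0
  have hvm : h / ell k ^ 2 * m ≤ T0 + 1 := by
    rw [div_mul_eq_mul_div, div_le_iff₀ (by positivity)]
    linarith
  have hn1 : ∀ j, j < J → 1 ≤ Low2_t J m (j + 1) - Low2_t J m j := by
    intro j hj
    by_contra hc0
    have h0 : Low2_t J m (j + 1) - Low2_t J m j = 0 := by omega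
    have := hw1 j hj
    rw [h0] at this
    norm_num at this
  have hn2 : ∀ j, j < J → h / ell k ^ 2 * ((Low2_t J m (j + 1) - Low2_t J m j : ℕ) : ℝ) ≤
      2 * σ := by
    intro j hj
    rw [div_mul_eq_mul_div, div_le_iff₀ (by positivity)]
    linarith [hw2 j hj]
  set P := PI (Measure.pi fun _ : boxS d L => gC) with hP
  -- the exceptional events
  set A1 : Set (ℕ → boxS d L → ℂ) :=
      {ω | ∃ v, M1 + (boxNet d L).dist z v / 8 ≤
          (boxMSet d L).lppM (1 / 8) (fun _ => 0) (gz k h ω) m v} ∪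
        {ω | M2 ≤ osc (fun j => gz k h ω j w) m} ∪
        {ω | ∃ j, j < J ∧ ¬ Reg2 (1 / 64) (gz k h (fun i => ω (Low2_t J m j + i)))
          (Low2_t J m (j + 1) - Low2_t J m j) w} with hA1
  have pA1 : P A1 ≤ ENNReal.ofReal (p / 8 + p / 8 + p / 8) :=
    Low2_noise d L k h hk hk1' hh T0 p lam0 C1 C2 C3 s1 M1 M2 σ J m hT hlam hC1 hM2 hJ hσ hC3
      htail hsum hreg hM1p hM2p hσs hσC hσp hv hmpos hvm (Low2_t J m) hn1 hn2 z w
  set A2 : Set (ℕ → boxS d L → ℂ) := (Sy.alv h L (G, 0) m)ᶜ with hA2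
  have pA2 : P A2 ≤ ENNReal.ofReal (p / 8) := by
    have h1 := HX h hh hlx (G, 0) m hm2
    refine le_trans h1 ?_
    apply ENNReal.ofReal_le_ofReal
    have h2 : ∑ x : boxS d L, (‖G x‖ + ‖(0 : boxS d L → ℂ) x‖) ≤ W := by
      rw [hW]
      refine Finset.sum_le_sum fun x _ => ?_
      rw [Pi.zero_apply, norm_zero, add_zero]
      refine (hG x).trans ?_
      apply Real.rpow_le_rpow_of_exponent_ge hk hk1'.le
      have h3 : ((boxNet d L).dist z x : ℝ) ≤ Dm := by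
        rw [hDm]
        refine le_trans ?_ (Finset.single_le_sum (f := fun a : boxS d L =>
          ∑ b : boxS d L, ((boxNet d L).dist a b : ℝ))
          (fun _ _ => Finset.sum_nonneg fun _ _ => Nat.cast_nonneg _) (Finset.mem_univ z))
        exact Finset.single_le_sum (f := fun b : boxS d L => ((boxNet d L).dist z b : ℝ))
          (fun _ _ => Nat.cast_nonneg _) (Finset.mem_univ x)
      linarith
    calc p / 8 / (1 + W) * (1 + ∑ x : boxS d L, (‖G x‖ + ‖(0 : boxS d L → ℂ) x‖))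
        ≤ p / 8 / (1 + W) * (1 + W) := mul_le_mul_of_nonneg_left (by linarith) (by positivity)
      _ = p / 8 := by field_simp
  set A3 : ℕ → Set (ℕ → boxS d L → ℂ) := fun j => Sy.alv h L (G, 0) (Low2_t J m j) ∩
    {ω | ¬ Caps k (fun v => ‖(Sy.tr h L (G, 0) ω (Low2_t J m j)).1 v‖ +
          ‖(Sy.tr h L (G, 0) ω (Low2_t J m j)).2 v‖) ε2 w} with hA3
  have pA3 : ∀ j, 1 ≤ j → j < J → P (A3 j) ≤ ENNReal.ofReal (k ^ cc) := by
    intro j hj1 hjJ
    refine HC h hh hlc (G, 0) (Low2_t J m j) ?_ w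
    refine hq1.trans (mul_le_mul_of_nonneg_right ?_ hh.le)
    exact_mod_cast tge j hj1 hjJ
  set A4 : ℕ → Set (ℕ → boxS d L → ℂ) := fun j => {ω | P {b |
        (traj (st2 d β k h L) G ω (Low2_t J m j), b) ∈
          Low2_W β k h εw (Low2_t J m (j + 1) - Low2_t J m j) w} ≤ ENNReal.ofReal (k ^ cw) ∧
      (traj (st2 d β k h L) G ω (Low2_t J m j), fun i => ω (Low2_t J m j + i)) ∈
          Low2_W β k h εw (Low2_t J m (j + 1) - Low2_t J m j) w} with hA4
  have pA4 : ∀ j, P (A4 j) ≤ ENNReal.ofReal (k ^ cw) := fun j =>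
    Low2_win (Measure.pi fun _ : boxS d L => gC) (st2 d β k h L) (measurable_st2 d β k h L) _
      (Low2_W_meas β k h εw (Low2_t J m (j + 1) - Low2_t J m j) w) _ G (Low2_t J m j)
  have hsub : {ω | ¬ LowE k (gz k h ω) m w
          (X0 - (boxNet d L).dist z w) ε ‖traj (st2 d β k h L) G ω m w‖} ⊆
      A1 ∪ A2 ∪ (⋃ j ∈ Finset.Ico 1 J, A3 j) ∪ (⋃ j ∈ Finset.range J, A4 j) := by
    intro ω hω
    by_contra hno
    rw [Set.mem_union, Set.mem_union, Set.mem_union] at hno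
    push Not at hno
    obtain ⟨⟨⟨n1, n2⟩, n3⟩, n4⟩ := hno
    rw [hA1, Set.mem_union, Set.mem_union] at n1
    push Not at n1
    obtain ⟨⟨n11, n12⟩, n13⟩ := n1
    have halv : ω ∈ Sy.alv h L (G, 0) m := by
      by_contra hc0
      exact n2 hc0
    refine hω (Low2_good d L β k h hβ hk hk2 hh T0 M M1 M2 ε1 ε εw ε0w ε2 ε0 (2 * M + m0 + 1) cw J m
      m0 hJ hM hM1 hM2 hε11 hε1ε hεw hJε hε0w hε2 hε2' hε2'' hε0 hε0' hε0'' (by linarith)
      (by linarith) hm0 hgrow hm2 hw1 hw3 (HW h hh hlw) G z w X0 hX0 hz hzw hG hcd ω n11 n12 n13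
      ?_ ?_)
    · intro j hj1 hjJ
      have h1 : ω ∉ A3 j := by
        intro hc0
        apply n3
        rw [Set.mem_iUnion₂]
        exact ⟨j, Finset.mem_Ico.2 ⟨hj1, hjJ⟩, hc0⟩
      have h2 : ω ∈ Sy.alv h L (G, 0) (Low2_t J m j) :=
        ⟨fun i hi => halv.1 i (lt_of_lt_of_le hi (tle j)), fun i hi => halv.2 i (hi.trans (tle j))⟩
      have h3 : Caps k (fun v => ‖(Sy.tr h L (G, 0) ω (Low2_t J m j)).1 v‖ +
          ‖(Sy.tr h L (G, 0) ω (Low2_t J m j)).2 v‖) ε2 w := by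
        by_contra hc0
        exact h1 ⟨h2, hc0⟩
      intro v
      refine le_trans ?_ (h3 v)
      have h4 := Low2_tr d hβ hk.le h L (G, 0) ω (Low2_t J m j)
      show ‖traj (st2 d β k h L) G ω (Low2_t J m j) v‖ ≤ _
      have h5 : (Sy.tr h L (G, 0) ω (Low2_t J m j)).1 v =
          traj (st2 d β k h L) G ω (Low2_t J m j) v := congrFun h4 v
      exact (le_of_eq (congrArg norm h5.symm)).trans (le_add_of_nonneg_right (norm_nonneg _))
    · intro j hj hc0
      apply n4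
      rw [Set.mem_iUnion₂]
      exact ⟨j, Finset.mem_range.2 hj, hc0⟩
  refine (measure_mono hsub).trans ?_
  have b3 : P (⋃ j ∈ Finset.Ico 1 J, A3 j) ≤ ENNReal.ofReal (p / 8) := by
    refine (measure_biUnion_finset_le _ _).trans ?_
    refine (Finset.sum_le_sum fun j hj => pA3 j (Finset.mem_Ico.1 hj).1 (Finset.mem_Ico.1 hj).2).trans ?_
    rw [Finset.sum_const, Nat.card_Ico, nsmul_eq_mul, ← ENNReal.ofReal_natCast,
      ← ENNReal.ofReal_mul (Nat.cast_nonneg _)]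
    apply ENNReal.ofReal_le_ofReal
    refine le_trans (mul_le_mul_of_nonneg_right ?_ (by positivity)) hpc
    exact_mod_cast Nat.sub_le J 1
  have b4 : P (⋃ j ∈ Finset.range J, A4 j) ≤ ENNReal.ofReal (p / 8) := by
    refine (measure_biUnion_finset_le _ _).trans ?_
    refine (Finset.sum_le_sum fun j _ => pA4 j).trans ?_
    rw [Finset.sum_const, Finset.card_range, nsmul_eq_mul, ← ENNReal.ofReal_natCast,
      ← ENNReal.ofReal_mul (Nat.cast_nonneg _)]
    exact ENNReal.ofReal_le_ofReal hpw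
  refine (measure_union_le _ _).trans ?_
  refine (add_le_add ((measure_union_le _ _).trans (add_le_add ((measure_union_le _ _).trans
    (add_le_add pA1 pA2)) b3)) b4).trans ?_
  rw [← ENNReal.ofReal_add (by positivity) (by positivity),
    ← ENNReal.ofReal_add (by positivity) (by positivity),
    ← ENNReal.ofReal_add (by positivity) (by positivity)]
  apply ENNReal.ofReal_le_ofReal
  linarith

end DynC

end

/-! ### from `Lib_MP_36b788c.ME2` -/

section

/-!
# Main estimate, `N = 2`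

PROOF of `mest2`. `p1`, `C` from `walk_up`, `walk_mom`; `n0` so large that `n0 ≥ 48` and `(√C + 2) n0 (1-p1)^{n0/4} ≤ 1/16`; `T0 = n0²/2^{20}`, `a0 = 1/n0`, `Ls = n0`. `s = a/ell`, `PL = dist x z/4 - g(X0) ≥ M0 = 2 n0 + 10`. `v = h/ell²`, `g = gz k h ω` (law `sc v`, `re_law`), `v m ∈ [T0/2, 2T0]`.
Sites: `w_0 = z, w_1, …, w_{n0}` with `dist z w_i = i`; if `dist x z ≥ n0` moreover `dist x w_i = dist x z - i` (`toward`); otherwise any such sites (the box has points at distance `n0 ≤ L` of `z` along a coordinate), `dist x w_i ≤ dist x z + i`.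
Apply `low2` at each `w_i` with `max M n0`, `ε = 1/100`, `p = (tiny)²/(n0+1)`: outside probability `(n0+1)p`: `LowE` for all `i`. Let `Θ = osc (g · z) m`. Success: for some `i ∈ [n0/2, n0]`: `Σ_{j<m} g_j w_i ≥ 2n0` and all `Σ_{[j,m)} g w_i ≥ -n0/16`.
Gain `= PL - (dist x w/4 - g(X''))`, `X''` the lower bound of the height of `w` at time `m` from `LowE`. On success with `w = w_i`: `X'' ≥ X0 - i + 2n0 - 1/100 ≥ X0 + n0 - 1` or `X'' ≥ -1/16 - n0/16 - 1/100`. If `dist x z ≥ n0`: gain `= i/4 + g(X'') - g(X0) ≥ i/4` or `≥ n0/8 - n0/16 - 1/2` (`g(X) ≥ X - 1/4`, `g(X0) ≤ 0`), `≥ 1`. If `dist x z < n0`: `g(X0) ≤ -M0 + n0/4`, gain `≥ -n0/4 + g(X'') - g(X0) ≥ -n0/4 + min(n0 - 2, M0 - n0/4 - n0/16 - 1) ≥ 1`.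
Without success, `w = z`: `X'' ≥ X0 - Θ - 1/100` or `≥ -1/16 - Θ - 1/100`, gain `≥ -(Θ + 1/8)` (`g` is 1-Lipschitz below `1/16`, `-3/16 ≥ g(X0) - 1/16`).
`SSt(w_i) ≤ 2` at time `m` outside `C k^{1/16}` (`mom_cap`). On the good event `V1(tr m) x ≤ 2^{qs} e^{a PL} e^{-a gain}`. `E e^{-a gain} ≤ e^{-a} + (1-e^{-a}) P(fail) + a E[(Θ+1) e^{a(Θ+1)}; fail] ≤ 1 - a + a²/2 + a P(fail) + a (E[(Θ+1)² e^{2a(Θ+1)}])^{1/2} P(fail)^{1/2} ≤ 1 - (3/4) a`,
`P(fail) ≤ (1-p1)^{n0/2}` (`indep_sites`, `walk_up`), `walk_mom`. Exceptional events of total probability `p'`: `(∫_{alv} V1²)^{1/2} p'^{1/2} ≤ e^{C(a,T0)} V1 G x p'^{1/2} ≤ (a/100) V1 G x` (`V_sq`, `sm_multi` with `2s`, `m h ≤ T0 ell² + 5`).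
-/

open MeasureTheory ProbabilityTheory
open scoped ENNReal

namespace DynC

open Dyn

private theorem ME2_gX_lip (X δ : ℝ) (hδ : 0 ≤ δ) : gX X - δ ≤ gX (X - δ) := by
  unfold gX
  split_ifs <;> nlinarith

private theorem ME2_gX_hi {X : ℝ} (h : X ≤ 1 / 8) : gX X ≤ -(1 / 8) := by
  have h1 := gX_mono h
  have h2 : gX (1 / 8) = -(1 / 8) := by
    unfold gX
    norm_num
  linarith

private theorem ME2_gX_mid {X δ : ℝ} (hδ : 0 ≤ δ) (h : -(1 / 16) - δ ≤ X) :
    -(3 / 16) - δ ≤ gX X := by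
  have h1 := ME2_gX_lip (-(1 / 16)) δ hδ
  have h2 : gX (-(1 / 16)) = -(3 / 16) := by
    unfold gX
    norm_num
  have h3 := gX_mono h
  linarith

/-- gain on success -/
private theorem ME2_gain_succ {n i D Dw X0 X : ℝ} (hn : 48 ≤ n) (hi : n / 2 ≤ i) (hin : i ≤ n)
    (hX0 : X0 ≤ 1 / 8) (hM : 2 * n + 10 ≤ D / 4 - gX X0)
    (hD : (Dw + i = D) ∨ (D < n ∧ Dw ≤ D + i))
    (hX : X0 - i + 2 * n - 1 / 100 ≤ X ∨ -(1 / 16) - n / 16 - 1 / 100 ≤ X) :
    Dw / 4 - gX X ≤ D / 4 - gX X0 - 1 := by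
  have h8 := ME2_gX_hi hX0
  rcases hX with hX | hX
  · have h1 : X0 + (n - 1 / 100) ≤ X := by linarith
    rcases hD with hD | ⟨hD, hDw⟩
    · have h2 : gX X0 ≤ gX X := gX_mono (by linarith)
      linarith
    · have h3 : gX X0 ≤ -(1 / 4) := by linarith
      have h4 : X - 1 / 4 ≤ gX X := gX_ge X
      have h5 : gX X0 ≤ X0 := gX_le X0
      linarith
  · have h1 := ME2_gX_mid (X := X) (δ := n / 16 + 1 / 100) (by linarith) (by linarith)
    rcases hD with hD | ⟨hD, hDw⟩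
    · linarith
    · linarith

/-- gain without success -/
private theorem ME2_gain_fail {D X0 X Θ : ℝ} (hΘ : 0 ≤ Θ) (hX0 : X0 ≤ 1 / 8)
    (hX : X0 - Θ - 1 / 100 ≤ X ∨ -(1 / 16) - Θ - 1 / 100 ≤ X) :
    D / 4 - gX X ≤ D / 4 - gX X0 + (Θ + 1) := by
  rcases hX with hX | hX
  · have h1 := ME2_gX_lip X0 (Θ + 1 / 100) (by linarith)
    have h2 := gX_mono (show X0 - (Θ + 1 / 100) ≤ X by linarith)
    linarith
  · have h1 := ME2_gX_mid (X := X) (δ := Θ + 1 / 100) (by linarith) (by linarith)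
    have h2 := ME2_gX_hi hX0
    linarith

private theorem ME2_V_le {d L : ℕ} {k q a : ℝ} (hk : 0 < k) (hk1 : k < 1) (hq : 0 ≤ q) (ha : 0 < a)
    (u t : boxS d L → ℝ) (ht : ∀ y, 0 ≤ t y) (x w : boxS d L) (X : ℝ) (hX : k ^ (-X) ≤ u w)
    (hS : SSt (boxNet d L) k t w ≤ 2) :
    Vp (boxNet d L) k q (a / ell k) u t x ≤
      ENNReal.ofReal (2 ^ (q * (a / ell k)) *
        Real.exp (a * ((boxNet d L).dist x w / 4 - gX X))) := by
  have hl := ell_pos hk hk1
  have hs : 0 < a / ell k := div_pos ha hl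
  have hkx : k ^ (-X) = Real.exp (ell k * X) := by
    rw [Real.rpow_def_of_pos hk]
    congr 1
    unfold ell
    rw [one_div, Real.log_inv]
    ring
  have hu : 0 < u w := lt_of_lt_of_le (Real.rpow_pos_of_pos hk _) hX
  have hS1 := SSt_one (net := boxNet d L) hk t ht w
  have hS0 : 0 < SSt (boxNet d L) k t w := by linarith
  have hf : Real.exp (ell k * gX X) ≤ fpot k (u w) := by
    refine le_trans (le_of_eq ?_) (fpot_mono hk hk1 hX)
    unfold fpot
    rw [if_neg (not_le.mpr (Real.rpow_pos_of_pos hk _)), hkx, Real.log_exp,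
      mul_div_cancel_left₀ _ hl.ne']
  set D : ℕ := (boxNet d L).dist x w with hD
  have hkD : (k ^ (1 / 4 : ℝ)) ^ D = Real.exp (-(ell k * (D / 4))) := by
    rw [← Real.rpow_natCast, ← Real.rpow_mul hk.le, Real.rpow_def_of_pos hk]
    congr 1
    have h1 : Real.log (1 / k) = -Real.log k := by rw [one_div, Real.log_inv]
    unfold ell
    rw [h1]
    ring
  have hT0 : 0 < Tz (boxNet d L) k q u t x w := by
    unfold Tz
    have h1 := fpot_pos (k := k) hu
    have h2 : 0 < SSt (boxNet d L) k t w ^ (-q) := Real.rpow_pos_of_pos hS0 _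
    have h3 : 0 < (k ^ (1 / 4 : ℝ)) ^ (boxNet d L).dist x w := by positivity
    positivity
  have hT : Real.exp (-(ell k * (D / 4 - gX X))) * 2 ^ (-q) ≤ Tz (boxNet d L) k q u t x w := by
    unfold Tz
    rw [← hD, hkD]
    have h2 : (2 : ℝ) ^ (-q) ≤ SSt (boxNet d L) k t w ^ (-q) :=
      Real.rpow_le_rpow_of_nonpos hS0 hS (by linarith)
    have h3 : Real.exp (-(ell k * (D / 4 - gX X))) =
        Real.exp (-(ell k * (D / 4))) * Real.exp (ell k * gX X) := by
      rw [← Real.exp_add]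
      congr 1
      ring
    rw [h3]
    have h4 : Real.exp (-(ell k * (D / 4))) * Real.exp (ell k * gX X) ≤
        Real.exp (-(ell k * (D / 4))) * fpot k (u w) :=
      mul_le_mul_of_nonneg_left hf (Real.exp_pos _).le
    exact mul_le_mul h4 h2 (Real.rpow_nonneg (by norm_num) _)
      (mul_nonneg (Real.exp_pos _).le (fpot_nonneg _ _))
  have hsup : ENNReal.ofReal (Tz (boxNet d L) k q u t x w) ≤
      Finset.univ.sup fun z => ENNReal.ofReal (Tz (boxNet d L) k q u t x z) :=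
    Finset.le_sup (f := fun z => ENNReal.ofReal (Tz (boxNet d L) k q u t x z))
      (Finset.mem_univ w)
  unfold Vp
  rw [ENNReal.rpow_neg]
  have h1 : ((Finset.univ.sup fun z => ENNReal.ofReal (Tz (boxNet d L) k q u t x z)) ^
      (a / ell k))⁻¹ ≤ (ENNReal.ofReal (Tz (boxNet d L) k q u t x w) ^ (a / ell k))⁻¹ :=
    ENNReal.inv_le_inv.mpr (ENNReal.rpow_le_rpow hsup hs.le)
  refine h1.trans ?_
  rw [← ENNReal.rpow_neg, ENNReal.ofReal_rpow_of_pos hT0]
  apply ENNReal.ofReal_le_ofReal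
  have h5 := Real.rpow_le_rpow_of_nonpos (by positivity) hT (show -(a / ell k) ≤ 0 by linarith)
  refine h5.trans (le_of_eq ?_)
  rw [Real.mul_rpow (Real.exp_pos _).le (by positivity), ← Real.exp_mul,
    ← Real.rpow_mul (by norm_num), mul_comm]
  congr 1
  · congr 1
    ring
  · congr 1
    field_simp

/-- success of a walk -/
private def ME2Suc (n m : ℕ) (b : ℕ → ℝ) : Prop :=
  2 * (n : ℝ) ≤ ∑ j ∈ Finset.range m, b j ∧ ∀ j, j ≤ m → -(n / 16 : ℝ) ≤ ∑ l ∈ Finset.Ico j m, b l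

/-- bound of the block factor -/
private noncomputable def ME2F {S : Type} (a : ℝ) (r m : ℕ) (z : S) (w : ℕ → S)
    (g : ℕ → S → ℝ) : ℝ :=
  open Classical in
  if ∃ i, r ≤ i ∧ i ≤ 2 * r ∧ ME2Suc (2 * r) m (fun j => g j (w i)) then Real.exp (-a)
  else Real.exp (a * (osc (fun j => g j z) m + 1))

private theorem ME2_meas_suc (n m : ℕ) : MeasurableSet {b : ℕ → ℝ | ME2Suc n m b} := by
  unfold ME2Suc
  have h1 : {b : ℕ → ℝ | 2 * (n : ℝ) ≤ ∑ j ∈ Finset.range m, b j ∧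
      ∀ j, j ≤ m → -(n / 16 : ℝ) ≤ ∑ l ∈ Finset.Ico j m, b l} =
      {b : ℕ → ℝ | 2 * (n : ℝ) ≤ ∑ j ∈ Finset.range m, b j} ∩
      ⋂ j, ⋂ (_ : j ≤ m), {b : ℕ → ℝ | -(n / 16 : ℝ) ≤ ∑ l ∈ Finset.Ico j m, b l} := by
    ext b
    simp
  rw [h1]
  refine MeasurableSet.inter ?_ (MeasurableSet.iInter fun j => MeasurableSet.iInter fun _ => ?_)
  · exact measurableSet_le measurable_const
      (Finset.measurable_sum _ fun j _ => measurable_pi_apply j)
  · exact measurableSet_le measurable_const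
      (Finset.measurable_sum _ fun j _ => measurable_pi_apply j)

private theorem ME2_meas_pmax (n : ℕ) : Measurable (fun b : ℕ → ℝ => pmax b n) := by
  unfold pmax
  exact Finset.measurable_range_sup'' fun m _ =>
    Finset.measurable_sum _ fun j _ => measurable_pi_apply j

private theorem ME2_meas_osc (n : ℕ) : Measurable (fun b : ℕ → ℝ => osc b n) := by
  unfold osc
  refine (ME2_meas_pmax n).add ?_
  refine (ME2_meas_pmax n).comp ?_
  exact measurable_pi_lambda _ fun j => (measurable_pi_apply j).neg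

private theorem ME2_site_map {S : Type} [Fintype S] (z : S) :
    (PI (nz S)).map (fun ω j => ω j z) = PI (gaussianReal 0 1) := by
  have h0 : (nz S).map (fun a => a z) = gaussianReal 0 1 := by
    unfold nz
    exact (measurePreserving_eval (fun _ : S => gaussianReal 0 1) z).map_eq
  have : IsProbabilityMeasure ((nz S).map (fun a : S → ℝ => a z)) := by
    rw [h0]; infer_instance
  have h := PI_map (μ := nz S) (fun a : S → ℝ => a z) (measurable_pi_apply z)
  refine h.trans ?_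
  unfold PI
  congr 1
  funext i
  exact h0

private theorem ME2_r0 (C p1 : ℝ) (hC : 1 ≤ C) (hp : 0 < p1) (hp1 : p1 < 1) :
    ∃ r : ℕ, 24 ≤ r ∧ 32 * (C * (2 * r : ℝ) ^ 2) * (1 - p1) ^ (r + 1) ≤ 1 / 32 := by
  have h1 : Filter.Tendsto (fun r : ℕ => (r : ℝ) ^ 2 * (1 - p1) ^ r) Filter.atTop
      (nhds 0) :=
    tendsto_pow_const_mul_const_pow_of_abs_lt_one 2 (by rw [abs_lt]; constructor <;> linarith)
  have h2 := (h1.eventually (gt_mem_nhds (show (0 : ℝ) < 1 / (32 * 128 * C) by positivity))).and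
    (Filter.eventually_ge_atTop 24)
  obtain ⟨r, hr, hr24⟩ := h2.exists
  refine ⟨r, hr24, ?_⟩
  have h3 : (1 - p1) ^ (r + 1) ≤ (1 - p1) ^ r :=
    pow_le_pow_of_le_one (by linarith) (by linarith) (Nat.le_succ r)
  have h4 : (0 : ℝ) ≤ (1 - p1) ^ r := pow_nonneg (by linarith) r
  calc 32 * (C * (2 * r : ℝ) ^ 2) * (1 - p1) ^ (r + 1) ≤
      32 * (C * (2 * r : ℝ) ^ 2) * (1 - p1) ^ r := mul_le_mul_of_nonneg_left h3 (by positivity)
    _ = 128 * C * ((r : ℝ) ^ 2 * (1 - p1) ^ r) := by ring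
    _ ≤ 128 * C * (1 / (32 * 128 * C)) := mul_le_mul_of_nonneg_left hr.le (by positivity)
    _ = 1 / 32 := by field_simp

private theorem ME2_F_le {S : Type} (a Λ : ℝ) (ha : 0 < a) (hΛ : 0 < Λ) (r m : ℕ) (z : S)
    (w : ℕ → S) (g : ℕ → S → ℝ) :
    ENNReal.ofReal (ME2F a r m z w g) ≤ ENNReal.ofReal (Real.exp (-a)) +
      ENNReal.ofReal (a * Λ) * ENNReal.ofReal ((osc (fun j => g j z) m + 1) ^ 2 *
        Real.exp (2 * a * (osc (fun j => g j z) m + 1))) +
      ENNReal.ofReal (a / Λ) * Set.indicator {g : ℕ → S → ℝ | ∀ i, r ≤ i → i ≤ 2 * r →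
        ¬ ME2Suc (2 * r) m (fun j => g j (w i))} (fun _ => 1) g := by
  unfold ME2F
  split_ifs with h
  · exact le_add_right (le_add_right le_rfl)
  · rw [Set.indicator_of_mem (by
      intro i hi1 hi2 hs
      exact h ⟨i, hi1, hi2, hs⟩), mul_one]
    set Y : ℝ := osc (fun j => g j z) m + 1 with hY
    have hY1 : 1 ≤ Y := by
      have := osc_nonneg (fun j => g j z) m
      linarith
    rw [← ENNReal.ofReal_mul (by positivity), ← ENNReal.ofReal_add (by positivity) (by positivity),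
      ← ENNReal.ofReal_add (by positivity) (by positivity)]
    apply ENNReal.ofReal_le_ofReal
    have h1 : Real.exp (a * Y) - 1 ≤ a * Y * Real.exp (a * Y) := by
      have h2 := Real.add_one_le_exp (-(a * Y))
      have h3 : (-(a * Y) + 1) * Real.exp (a * Y) ≤ Real.exp (-(a * Y)) * Real.exp (a * Y) :=
        mul_le_mul_of_nonneg_right h2 (Real.exp_pos _).le
      rw [← Real.exp_add, neg_add_cancel, Real.exp_zero] at h3
      linarith
    have h4 : 1 - Real.exp (-a) ≤ a := by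
      have := Real.add_one_le_exp (-a)
      linarith
    have h5 : 1 ≤ Y * Real.exp (a * Y) := by
      have h6 : 1 ≤ Real.exp (a * Y) := Real.one_le_exp (by positivity)
      nlinarith
    have h7 : 2 * (Y * Real.exp (a * Y)) ≤
        Λ * (Y ^ 2 * Real.exp (2 * a * Y)) + 1 / Λ := by
      have h8 : Real.exp (2 * a * Y) = Real.exp (a * Y) ^ 2 := by
        rw [← Real.exp_nat_mul]
        congr 1
        push_cast
        ring
      rw [h8]
      have h9 : Λ * (Y ^ 2 * Real.exp (a * Y) ^ 2) + 1 / Λ - 2 * (Y * Real.exp (a * Y)) =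
          (Λ * (Y * Real.exp (a * Y)) - 1) ^ 2 / Λ := by
        field_simp
        ring
      have h10 : 0 ≤ (Λ * (Y * Real.exp (a * Y)) - 1) ^ 2 / Λ := by positivity
      linarith
    have h11 := mul_le_mul_of_nonneg_left h7 ha.le
    have h12 := mul_le_mul_of_nonneg_left h5 ha.le
    have h13 : a * (Λ * (Y ^ 2 * Real.exp (2 * a * Y)) + 1 / Λ) =
        a * Λ * (Y ^ 2 * Real.exp (2 * a * Y)) + a / Λ := by ring
    rw [h13] at h11
    linarith

/-- the block factor -/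
private theorem ME2_walk : ∃ r : ℕ, 24 ≤ r ∧ ∀ (S : Type) [Fintype S] (z : S) (w : ℕ → S),
    (∀ i j, i ≤ 2 * r → j ≤ 2 * r → w i = w j → i = j) → ∀ (v : ℝ) (m : ℕ), 0 < v →
    ((2 * r : ℕ) : ℝ) ^ 2 / 2 ^ 21 ≤ v * m → v * m ≤ ((2 * r : ℕ) : ℝ) ^ 2 / 2 ^ 19 →
    ∀ a : ℝ, 0 < a → a ≤ 1 / ((2 * r : ℕ) : ℝ) →
    ∫⁻ ω, ENNReal.ofReal (ME2F a r m z w (sc v ω)) ∂(PI (nz S)) ≤
      ENNReal.ofReal (1 - 3 / 4 * a) := by
  obtain ⟨p1, hp1, hp11, hup⟩ := walk_up
  obtain ⟨C, hC, hmom⟩ := walk_mom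
  obtain ⟨r, hr, hrC⟩ := ME2_r0 C p1 hC hp1 hp11
  refine ⟨r, hr, ?_⟩
  intro S _ z w hw v m hv hv1 hv2 a ha ha1
  classical
  set n : ℕ := 2 * r with hn
  have hn1 : 1 ≤ n := by omega
  have hn0 : (0 : ℝ) < n := by exact_mod_cast hn1
  have hn48 : (48 : ℝ) ≤ n := by
    have : 48 ≤ n := by omega
    exact_mod_cast this
  set Λ : ℝ := 1 / (32 * (C * (n : ℝ) ^ 2)) with hΛ
  have hΛ0 : 0 < Λ := by positivity
  -- the failure event
  set Ef : Set (ℕ → ℝ) := {b | ¬ ME2Suc n m (fun j => Real.sqrt v * b j)} with hEf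
  have hEfm : MeasurableSet Ef := by
    have h1 : Measurable (fun (b : ℕ → ℝ) (j : ℕ) => Real.sqrt v * b j) :=
      measurable_pi_lambda _ fun j => (measurable_pi_apply j).const_mul _
    exact (h1 (ME2_meas_suc n m)).compl
  have hEfp : PI (gaussianReal 0 1) Ef ≤ ENNReal.ofReal (1 - p1) := by
    have h1 := hup n hn1 v m hv hv1 hv2
    have h2 : Ef = {ω : ℕ → ℝ | 2 * (n : ℝ) ≤ ∑ j ∈ Finset.range m, Real.sqrt v * ω j ∧
      ∀ j, j ≤ m → -(n / 16 : ℝ) ≤ ∑ l ∈ Finset.Ico j m, Real.sqrt v * ω l}ᶜ := rfl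
    have h3 : MeasurableSet {ω : ℕ → ℝ | 2 * (n : ℝ) ≤ ∑ j ∈ Finset.range m, Real.sqrt v * ω j ∧
      ∀ j, j ≤ m → -(n / 16 : ℝ) ≤ ∑ l ∈ Finset.Ico j m, Real.sqrt v * ω l} := by
      have := hEfm.compl
      rwa [h2, compl_compl] at this
    rw [h2, prob_compl_eq_one_sub h3, ENNReal.ofReal_sub _ hp1.le, ENNReal.ofReal_one]
    exact tsub_le_tsub_left h1 _
  set A : Finset S := (Finset.Icc r n).image w with hA
  have hAc : A.card = r + 1 := by
    rw [hA, Finset.card_image_of_injOn]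
    · rw [Nat.card_Icc]; omega
    · intro i hi j hj hij
      have hi' := (Finset.mem_Icc.1 (Finset.mem_coe.1 hi)).2
      have hj' := (Finset.mem_Icc.1 (Finset.mem_coe.1 hj)).2
      exact hw i j hi' hj' hij
  have hfail : PI (nz S) {ω | ∀ y ∈ A, (fun j => ω j y) ∈ Ef} ≤
      ENNReal.ofReal ((1 - p1) ^ (r + 1)) := by
    rw [indep_sites A (fun _ => Ef) (fun _ => hEfm), Finset.prod_const, hAc,
      ENNReal.ofReal_pow (by linarith)]
    exact pow_le_pow_left₀ (by positivity) hEfp _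
  have hset : {ω : ℕ → S → ℝ | sc v ω ∈ {g : ℕ → S → ℝ | ∀ i, r ≤ i → i ≤ n →
        ¬ ME2Suc n m (fun j => g j (w i))}} = {ω | ∀ y ∈ A, (fun j => ω j y) ∈ Ef} := by
    ext ω
    constructor
    · intro h y hy
      obtain ⟨i, hi, rfl⟩ := Finset.mem_image.1 hy
      have hi' := Finset.mem_Icc.1 hi
      exact h i hi'.1 hi'.2
    · intro h i hi1 hi2
      exact h (w i) (Finset.mem_image_of_mem _ (Finset.mem_Icc.2 ⟨hi1, hi2⟩))
  have hsetm : MeasurableSet {ω : ℕ → S → ℝ | ∀ y ∈ A, (fun j => ω j y) ∈ Ef} := by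
    have h1 : {ω : ℕ → S → ℝ | ∀ y ∈ A, (fun j => ω j y) ∈ Ef} =
        ⋂ y, ⋂ (_ : y ∈ A), (fun (ω : ℕ → S → ℝ) j => ω j y) ⁻¹' Ef := by
      ext ω
      simp
    rw [h1]
    refine MeasurableSet.iInter fun y => MeasurableSet.iInter fun _ => ?_
    refine (measurable_pi_lambda _ fun j => ?_) hEfm
    exact (measurable_pi_apply y).comp (measurable_pi_apply j)
  -- moment
  have hm1 : Measurable (fun b : ℕ → ℝ => ENNReal.ofReal ((osc (fun j => Real.sqrt v * b j) m + 1) ^ 2 *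
        Real.exp (2 * a * (osc (fun j => Real.sqrt v * b j) m + 1)))) := by
    have h1 : Measurable (fun (b : ℕ → ℝ) => osc (fun j => Real.sqrt v * b j) m) :=
      (ME2_meas_osc m).comp (measurable_pi_lambda _ fun j => (measurable_pi_apply j).const_mul _)
    exact (((h1.add_const 1).pow_const 2).mul
      (Real.measurable_exp.comp ((h1.add_const 1).const_mul (2 * a)))).ennreal_ofReal
  have hsm : Measurable (fun (ω : ℕ → S → ℝ) (j : ℕ) => ω j z) :=
    measurable_pi_lambda _ fun j => (measurable_pi_apply z).comp (measurable_pi_apply j)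
  have hint : ∫⁻ ω, ENNReal.ofReal ((osc (fun j => sc v ω j z) m + 1) ^ 2 *
        Real.exp (2 * a * (osc (fun j => sc v ω j z) m + 1))) ∂(PI (nz S)) ≤
      ENNReal.ofReal (C * n ^ 2) := by
    have h1 := lintegral_map hm1 hsm (μ := PI (nz S))
    rw [ME2_site_map] at h1
    refine le_trans (le_of_eq h1.symm) ?_
    exact hmom n hn1 v m hv hv2 a ha ha1
  have hm2 : Measurable (fun ω : ℕ → S → ℝ => ENNReal.ofReal ((osc (fun j => sc v ω j z) m + 1) ^ 2 *
        Real.exp (2 * a * (osc (fun j => sc v ω j z) m + 1)))) := hm1.comp hsm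
  calc ∫⁻ ω, ENNReal.ofReal (ME2F a r m z w (sc v ω)) ∂(PI (nz S))
      ≤ ∫⁻ ω, (ENNReal.ofReal (Real.exp (-a)) +
      ENNReal.ofReal (a * Λ) * ENNReal.ofReal ((osc (fun j => sc v ω j z) m + 1) ^ 2 *
        Real.exp (2 * a * (osc (fun j => sc v ω j z) m + 1))) +
      ENNReal.ofReal (a / Λ) * Set.indicator {ω : ℕ → S → ℝ | ∀ y ∈ A, (fun j => ω j y) ∈ Ef}
        (fun _ => 1) ω) ∂(PI (nz S)) := by
        refine lintegral_mono fun ω => ?_
        refine (ME2_F_le a Λ ha hΛ0 r m z w (sc v ω)).trans (le_of_eq ?_)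
        congr 2
        rw [← hset]
        rfl
    _ = ENNReal.ofReal (Real.exp (-a)) +
      ENNReal.ofReal (a * Λ) * ∫⁻ ω, ENNReal.ofReal ((osc (fun j => sc v ω j z) m + 1) ^ 2 *
        Real.exp (2 * a * (osc (fun j => sc v ω j z) m + 1))) ∂(PI (nz S)) +
      ENNReal.ofReal (a / Λ) * PI (nz S) {ω : ℕ → S → ℝ | ∀ y ∈ A, (fun j => ω j y) ∈ Ef} := by
        have hm3 : Measurable (fun ω : ℕ → S → ℝ => ENNReal.ofReal (Real.exp (-a)) +
            ENNReal.ofReal (a * Λ) * ENNReal.ofReal ((osc (fun j => sc v ω j z) m + 1) ^ 2 *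
            Real.exp (2 * a * (osc (fun j => sc v ω j z) m + 1)))) :=
          measurable_const.add (hm2.const_mul _)
        rw [lintegral_add_left hm3, lintegral_add_left measurable_const, lintegral_const,
          measure_univ, mul_one, lintegral_const_mul _ hm2]
        congr 1
        rw [lintegral_const_mul _ (measurable_const.indicator hsetm),
          lintegral_indicator_const hsetm, one_mul]
    _ ≤ ENNReal.ofReal (Real.exp (-a)) +
      ENNReal.ofReal (a * Λ) * ENNReal.ofReal (C * n ^ 2) +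
      ENNReal.ofReal (a / Λ) * ENNReal.ofReal ((1 - p1) ^ (r + 1)) := by
        gcongr
    _ ≤ ENNReal.ofReal (1 - 3 / 4 * a) := by
        have hq0 : (0 : ℝ) ≤ (1 - p1) ^ (r + 1) := pow_nonneg (by linarith) _
        rw [← ENNReal.ofReal_mul (by positivity), ← ENNReal.ofReal_mul (by positivity),
          ← ENNReal.ofReal_add (by positivity) (by positivity),
          ← ENNReal.ofReal_add (by positivity) (by positivity)]
        apply ENNReal.ofReal_le_ofReal
        have h1 : a * Λ * (C * (n : ℝ) ^ 2) = a / 32 := by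
          rw [hΛ]
          field_simp
        have h2 : a / Λ * (1 - p1) ^ (r + 1) ≤ a / 32 := by
          have h3 : a / Λ * (1 - p1) ^ (r + 1) =
              a * (32 * (C * (n : ℝ) ^ 2) * (1 - p1) ^ (r + 1)) := by
            rw [hΛ]
            field_simp
          rw [h3]
          have h4 : 32 * (C * (n : ℝ) ^ 2) * (1 - p1) ^ (r + 1) ≤ 1 / 32 := by
            have h5 : (n : ℝ) = 2 * r := by rw [hn]; push_cast; ring
            rw [h5]
            exact hrC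
          have := mul_le_mul_of_nonneg_left h4 ha.le
          linarith
        have h6 : Real.exp (-a) ≤ 1 - a + a ^ 2 := by
          have h7 : |Real.exp (-a) - 1 - (-a)| ≤ (-a) ^ 2 := by
            apply Real.abs_exp_sub_one_sub_id_le
            rw [abs_neg, abs_of_pos ha]
            refine ha1.trans ?_
            rw [div_le_one hn0]
            linarith
          have h8 := (abs_le.1 h7).2
          nlinarith
        have h9 : a ^ 2 ≤ a / 48 := by
          have h10 : a ≤ 1 / 48 := by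
            refine ha1.trans ?_
            exact one_div_le_one_div_of_le (by norm_num) hn48
          nlinarith
        rw [h1]
        linarith

private theorem ME2_shift {d : ℕ} (hd : 1 ≤ d) (L i : ℕ) (hi : i ≤ L) (z : boxS d L) :
    ∃ y : boxS d L, (boxNet d L).dist z y = i := by
  classical
  have hz := Finset.mem_Icc.1 z.2
  let i0 : Fin d := ⟨0, hd⟩
  have a1 : -(L : ℤ) ≤ z.1 i0 := hz.1 i0
  have a2 : z.1 i0 ≤ (L : ℤ) := hz.2 i0
  obtain ⟨σ, hσ, b1, b2⟩ : ∃ σ : ℤ, (σ.natAbs = i) ∧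
      -(L : ℤ) ≤ z.1 i0 + σ ∧ z.1 i0 + σ ≤ L := by
    by_cases h : 0 ≤ z.1 i0
    · exact ⟨-(i : ℤ), by simp, by omega, by omega⟩
    · exact ⟨(i : ℤ), by simp, by omega, by omega⟩
  have hmem : Function.update z.1 i0 (z.1 i0 + σ) ∈ boxS d L := by
    refine Finset.mem_Icc.2 ⟨?_, ?_⟩
    · intro j
      by_cases hj : j = i0
      · rw [hj, Function.update_self]
        exact b1
      · rw [Function.update_of_ne hj]
        exact hz.1 j
    · intro j
      by_cases hj : j = i0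
      · rw [hj, Function.update_self]
        exact b2
      · rw [Function.update_of_ne hj]
        exact hz.2 j
  refine ⟨⟨_, hmem⟩, ?_⟩
  rw [boxNet_dist]
  unfold l1
  rw [Finset.sum_eq_single i0]
  · show (z.1 i0 - Function.update z.1 i0 (z.1 i0 + σ) i0).natAbs = i
    rw [Function.update_self]
    rw [show z.1 i0 - (z.1 i0 + σ) = -σ by ring, Int.natAbs_neg, hσ]
  · intro j _ hj
    show (z.1 j - Function.update z.1 i0 (z.1 i0 + σ) j).natAbs = 0
    rw [Function.update_of_ne hj]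
    simp
  · intro h
    exact absurd (Finset.mem_univ _) h

private theorem ME2_toward {d L : ℕ} (x z : boxS d L) (i : ℕ)
    (hi : i ≤ (boxNet d L).dist x z) :
    ∃ y, (boxNet d L).dist x y + i = (boxNet d L).dist x z ∧ (boxNet d L).dist z y = i := by
  induction i with
  | zero => exact ⟨z, by simp, (boxNet d L).dist_self z⟩
  | succ i ih =>
    obtain ⟨y, hy1, hy2⟩ := ih (by omega)
    have hyx : y ≠ x := by
      rintro rfl
      rw [(boxNet d L).dist_self] at hy1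
      omega
    obtain ⟨w, hw1, hw2⟩ := (boxNet d L).toward x y hyx
    refine ⟨w, by omega, ?_⟩
    have h1 := (boxNet d L).dist_tri z y w
    have h2 := (boxNet d L).dist_nb y w hw1
    have h3 := (boxNet d L).dist_tri x w z
    have h4 := (boxNet d L).dist_comm w z
    omega

private theorem ME2_sites {d : ℕ} (hd : 1 ≤ d) (n L : ℕ) (hL : n ≤ L) (x z : boxS d L) :
    ∃ w : ℕ → boxS d L, (∀ i, i ≤ n → (boxNet d L).dist z (w i) = i) ∧
      ((∀ i, i ≤ n → (boxNet d L).dist x (w i) + i = (boxNet d L).dist x z) ∨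
        (boxNet d L).dist x z < n) := by
  classical
  by_cases h : n ≤ (boxNet d L).dist x z
  · have h1 : ∀ i : ℕ, ∃ y, i ≤ n → (boxNet d L).dist x y + i = (boxNet d L).dist x z ∧
        (boxNet d L).dist z y = i := by
      intro i
      by_cases hi : i ≤ n
      · obtain ⟨y, hy⟩ := ME2_toward x z i (by omega)
        exact ⟨y, fun _ => hy⟩
      · exact ⟨z, fun h => absurd h hi⟩
    choose w hw using h1
    exact ⟨w, fun i hi => (hw i hi).2, Or.inl fun i hi => (hw i hi).1⟩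
  · have h1 : ∀ i : ℕ, ∃ y, i ≤ n → (boxNet d L).dist z y = i := by
      intro i
      by_cases hi : i ≤ n
      · obtain ⟨y, hy⟩ := ME2_shift hd L i (by omega) z
        exact ⟨y, fun _ => hy⟩
      · exact ⟨z, fun h => absurd h hi⟩
    choose w hw using h1
    exact ⟨w, hw, Or.inr (by omega)⟩

private theorem ME2_inj {d L n : ℕ} {z : boxS d L} {w : ℕ → boxS d L}
    (hw : ∀ i, i ≤ n → (boxNet d L).dist z (w i) = i) (i j : ℕ) (hi : i ≤ n) (hj : j ≤ n)
    (h : w i = w j) : i = j := by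
  rw [← hw i hi, ← hw j hj, h]

private theorem ME2_cut {Ω : Type} [MeasurableSpace Ω] (μ : Measure Ω) (A B : Set Ω)
    (hA : MeasurableSet A) (V Φ : Ω → ℝ≥0∞) (hV : Measurable V)
    (hgood : ∀ ω ∈ A, ω ∉ B → V ω ≤ Φ ω) (D c E2 p : ℝ≥0∞) (hD0 : D ≠ 0) (hD : D ≠ ⊤)
    (hc0 : c ≠ 0) (hc : c ≠ ⊤) (hsq : ∫⁻ ω in A, V ω ^ 2 ∂μ ≤ E2 * D ^ 2) (hp : μ B ≤ p) :
    ∫⁻ ω in A, V ω ∂μ ≤ ∫⁻ ω, Φ ω ∂μ + (c * E2 + p / c) * D := by
  set B' := toMeasurable μ B with hB'
  have hB'm : MeasurableSet B' := measurableSet_toMeasurable μ B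
  have hBB : B ⊆ B' := subset_toMeasurable μ B
  have hB'p : μ B' ≤ p := by
    rw [hB', measure_toMeasurable]
    exact hp
  set κ : ℝ≥0∞ := D / c with hκ
  have hκ0 : κ ≠ 0 := ENNReal.div_ne_zero.2 ⟨hD0, hc⟩
  have hκt : κ ≠ ⊤ := ENNReal.div_ne_top hD hc0
  have hpt : ∀ ω ∈ A, V ω ≤ Φ ω + (κ⁻¹ * V ω ^ 2 + κ * B'.indicator (fun _ => 1) ω) := by
    intro ω hω
    by_cases hωB : ω ∈ B'
    · rw [Set.indicator_of_mem hωB, mul_one]
      refine le_add_left ?_
      rcases le_or_gt (V ω) κ with h1 | h1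
      · exact le_add_left h1
      · refine le_add_right ?_
        have h2 : 1 ≤ κ⁻¹ * V ω := by
          rw [← ENNReal.inv_mul_cancel hκ0 hκt]
          gcongr
        calc V ω = 1 * V ω := (one_mul _).symm
          _ ≤ κ⁻¹ * V ω * V ω := by gcongr
          _ = κ⁻¹ * V ω ^ 2 := by rw [pow_two, mul_assoc]
    · exact le_add_right (hgood ω hω fun h => hωB (hBB h))
  have hm1 : Measurable fun ω => κ⁻¹ * V ω ^ 2 := (hV.pow_const 2).const_mul _
  have hm2 : Measurable fun ω => κ * B'.indicator (fun _ => (1 : ℝ≥0∞)) ω :=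
    (measurable_const.indicator hB'm).const_mul _
  calc ∫⁻ ω in A, V ω ∂μ
      ≤ ∫⁻ ω in A, (Φ ω + (κ⁻¹ * V ω ^ 2 + κ * B'.indicator (fun _ => 1) ω)) ∂μ :=
        setLIntegral_mono' hA hpt
    _ = ∫⁻ ω in A, Φ ω ∂μ + (κ⁻¹ * ∫⁻ ω in A, V ω ^ 2 ∂μ +
          κ * ∫⁻ ω in A, B'.indicator (fun _ => 1) ω ∂μ) := by
        have hm3 : Measurable fun ω => κ⁻¹ * V ω ^ 2 +
            κ * B'.indicator (fun _ => (1 : ℝ≥0∞)) ω := hm1.add hm2
        rw [lintegral_add_right _ hm3, lintegral_add_left hm1,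
          lintegral_const_mul _ (hV.pow_const 2),
          lintegral_const_mul _ (measurable_const.indicator hB'm)]
    _ ≤ ∫⁻ ω, Φ ω ∂μ + (κ⁻¹ * (E2 * D ^ 2) + κ * p) := by
        have h1 : ∫⁻ ω in A, B'.indicator (fun _ => 1) ω ∂μ ≤ p := by
          refine (setLIntegral_le_lintegral _ _).trans ?_
          rw [lintegral_indicator_const hB'm, one_mul]
          exact hB'p
        have h2 : ∫⁻ ω in A, Φ ω ∂μ ≤ ∫⁻ ω, Φ ω ∂μ := setLIntegral_le_lintegral _ _
        gcongr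
    _ = ∫⁻ ω, Φ ω ∂μ + (c * E2 + p / c) * D := by
        congr 1
        have h1 : κ⁻¹ * D = c := by
          rw [hκ, ENNReal.inv_div (Or.inl hc) (Or.inl hc0), ENNReal.div_mul_cancel hD0 hD]
        have h2 : κ⁻¹ * (E2 * D ^ 2) = c * E2 * D := by
          calc κ⁻¹ * (E2 * D ^ 2) = (κ⁻¹ * D) * E2 * D := by ring
            _ = c * E2 * D := by rw [h1]
        rw [h2, add_mul, hκ]
        congr 1
        rw [div_eq_mul_inv, div_eq_mul_inv]
        ring

private theorem ME2_SSt (N d : ℕ) (β : ℝ) (hβ : 0 < β) : ∃ C : ℝ, 0 < C ∧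
    ∀ (F : Fam d) (k : ℝ) (S : PSys F β k), 0 < k → k ≤ 1 → BNoise N S.ν S.b S.gd →
    ∀ L : ℕ, ∃ h0 : ℝ, 0 < h0 ∧ ∀ h, 0 < h → h < h0 →
    ∀ (G : (boxS d L → F.V) × (boxS d L → F.V)) (n : ℕ), 1 ≤ n * h → ∀ x,
      PI (S.mu L) ({ω | ¬ SSt (boxNet d L) k (fun y => ‖(S.tr h L G ω n).1 y‖ +
        ‖(S.tr h L G ω n).2 y‖) x ≤ 2} ∩ S.alv h L G n) ≤
        ENNReal.ofReal (C * k ^ (1 / 16 : ℝ)) := by
  obtain ⟨C, hC, H⟩ := mom_cap N d β hβ
  refine ⟨C, hC, fun F k S hk hk1 hB L => ?_⟩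
  obtain ⟨h0, hh0, H1⟩ := H F k S hk.le hk1 hB L
  refine ⟨h0, hh0, fun h hh hlt G n hn x => ?_⟩
  have H2 := H1 h hh hlt G n hn x
  have hAm := measurableSet_alv S h L G n
  set Z : (ℕ → boxS d L → S.Ωp) → ℝ := fun ω => Yl (boxNet d L) (nrm (S.tr h L G ω n).1) x +
          Yl (boxNet d L) (nrm (S.tr h L G ω n).2) x with hZ
  have htr : Measurable fun ω : ℕ → boxS d L → S.Ωp => S.tr h L G ω n :=
    (measurable_tr S h L n).comp (measurable_const.prodMk measurable_id)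
  have hZm : Measurable Z := by
    refine Measurable.add ?_ ?_
    · unfold Yl nrm
      refine Finset.measurable_sum _ fun y _ => ?_
      exact (((measurable_pi_apply y).comp (measurable_fst.comp htr)).norm).const_mul _
    · unfold Yl nrm
      refine Finset.measurable_sum _ fun y _ => ?_
      exact (((measurable_pi_apply y).comp (measurable_snd.comp htr)).norm).const_mul _
  have hk16 : 0 < k ^ (1 / 16 : ℝ) := Real.rpow_pos_of_pos hk _
  set ε : ℝ := (k ^ (1 / 16 : ℝ))⁻¹ with hε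
  have hε0 : 0 < ε := by positivity
  have h1 := meas_ge_le_lintegral_div (μ := (PI (S.mu L)).restrict (S.alv h L G n))
    (hZm.ennreal_ofReal.aemeasurable) (ε := ENNReal.ofReal ε) (by positivity) ENNReal.ofReal_ne_top
  have hsub : {ω | ¬ SSt (boxNet d L) k (fun y => ‖(S.tr h L G ω n).1 y‖ +
        ‖(S.tr h L G ω n).2 y‖) x ≤ 2} ⊆ {ω | ENNReal.ofReal ε ≤ ENNReal.ofReal (Z ω)} := by
    intro ω hω
    simp only [Set.mem_ofPred_eq, not_le] at hω ⊢
    apply ENNReal.ofReal_le_ofReal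
    have h2 : SSt (boxNet d L) k (fun y => ‖(S.tr h L G ω n).1 y‖ +
        ‖(S.tr h L G ω n).2 y‖) x = 1 + k ^ (1 / 16 : ℝ) * Z ω := by
      show _ = 1 + k ^ (1 / 16 : ℝ) * (Yl (boxNet d L) (nrm (S.tr h L G ω n).1) x +
          Yl (boxNet d L) (nrm (S.tr h L G ω n).2) x)
      unfold SSt Yl nrm
      rw [← Finset.sum_add_distrib]
      congr 2
      refine Finset.sum_congr rfl fun y _ => ?_
      ring
    rw [h2] at hω
    rw [hε, inv_le_iff_one_le_mul₀' hk16]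
    linarith
  have h3 : PI (S.mu L) ({ω | ¬ SSt (boxNet d L) k (fun y => ‖(S.tr h L G ω n).1 y‖ +
        ‖(S.tr h L G ω n).2 y‖) x ≤ 2} ∩ S.alv h L G n) =
      (PI (S.mu L)).restrict (S.alv h L G n) {ω | ¬ SSt (boxNet d L) k
        (fun y => ‖(S.tr h L G ω n).1 y‖ + ‖(S.tr h L G ω n).2 y‖) x ≤ 2} :=
    (Measure.restrict_apply' hAm).symm
  rw [h3]
  refine (measure_mono hsub).trans (h1.trans ?_)
  refine (ENNReal.div_le_div_right H2 _).trans (le_of_eq ?_)
  rw [← ENNReal.ofReal_div_of_pos hε0, hε, div_inv_eq_mul]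

private theorem ME2_meas_F {S : Type} [Fintype S] (a : ℝ) (r m : ℕ) (z : S) (w : ℕ → S) :
    Measurable (fun g : ℕ → S → ℝ => ME2F a r m z w g) := by
  classical
  unfold ME2F
  have hs : ∀ y : S, Measurable (fun (g : ℕ → S → ℝ) (j : ℕ) => g j y) := fun y =>
    measurable_pi_lambda _ fun j => (measurable_pi_apply y).comp (measurable_pi_apply j)
  refine Measurable.ite ?_ measurable_const ?_
  · have h1 : {g : ℕ → S → ℝ | ∃ i, r ≤ i ∧ i ≤ 2 * r ∧ ME2Suc (2 * r) m (fun j => g j (w i))} =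
        ⋃ i, ⋃ (_ : r ≤ i ∧ i ≤ 2 * r), (fun (g : ℕ → S → ℝ) (j : ℕ) => g j (w i)) ⁻¹'
          {b : ℕ → ℝ | ME2Suc (2 * r) m b} := by
      ext g
      simp only [Set.mem_ofPred_eq, Set.mem_iUnion, Set.mem_preimage, exists_prop, and_assoc]
    rw [h1]
    exact MeasurableSet.iUnion fun i => MeasurableSet.iUnion fun _ =>
      (hs (w i)) (ME2_meas_suc (2 * r) m)
  · exact Real.measurable_exp.comp
      ((((ME2_meas_osc m).comp (hs z)).add_const 1).const_mul a)

private theorem ME2_transfer (d L : ℕ) (k h : ℝ) (hk : 0 < k) (hk1 : k < 1) (hh : 0 < h)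
    (a : ℝ) (r m : ℕ) (z : boxS d L) (w : ℕ → boxS d L) :
    ∫⁻ ω, ENNReal.ofReal (ME2F a r m z w (gz k h ω)) ∂(PI (Measure.pi fun _ : boxS d L => gC)) =
      ∫⁻ ω, ENNReal.ofReal (ME2F a r m z w (sc (h / ell k ^ 2) ω)) ∂(PI (nz (boxS d L))) := by
  have hell := ell_pos hk hk1
  have hm : Measurable (fun (ω : ℕ → boxS d L → ℂ) (j : ℕ) (x : boxS d L) => (ω j x).re) := by
    refine measurable_pi_lambda _ fun j => measurable_pi_lambda _ fun x => ?_
    exact Complex.measurable_re.comp ((measurable_pi_apply x).comp (measurable_pi_apply j))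
  have hsc : Measurable (fun ω : ℕ → boxS d L → ℝ => sc (h / ell k ^ 2) ω) := by
    unfold sc
    fun_prop
  have hF : Measurable (fun ω : ℕ → boxS d L → ℝ =>
      ENNReal.ofReal (ME2F a r m z w (sc (h / ell k ^ 2) ω))) :=
    ((ME2_meas_F a r m z w).comp hsc).ennreal_ofReal
  have h1 := lintegral_map hF hm (μ := PI (Measure.pi fun _ : boxS d L => gC))
  rw [re_map] at h1
  rw [h1]
  refine lintegral_congr fun ω => ?_
  have e1 : gz k h ω = sc (h / ell k ^ 2) (fun j x => (ω j x).re) := by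
    funext j y
    unfold gz sc
    rw [Real.sqrt_div hh.le, Real.sqrt_sq hell.le]
    ring
  rw [e1]

/-- pathwise bound of the potential on the good event -/
private theorem ME2_core {d L : ℕ} {k q a : ℝ} {V : Type} [NormedAddCommGroup V] (hk : 0 < k)
    (hk1 : k < 1) (hq : 0 ≤ q) (ha : 0 < a) (r : ℕ) (hr : 24 ≤ r) (m : ℕ)
    (P : (boxS d L → V) × (boxS d L → V)) (x z : boxS d L) (w : ℕ → boxS d L)
    (hw : ∀ i, i ≤ 2 * r → (boxNet d L).dist z (w i) = i)
    (hwx : (∀ i, i ≤ 2 * r → (boxNet d L).dist x (w i) + i = (boxNet d L).dist x z) ∨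
        (boxNet d L).dist x z < 2 * r)
    (X0 : ℝ) (hX0 : X0 ≤ 1 / 8)
    (hM0 : 2 * ((2 * r : ℕ) : ℝ) + 10 ≤ (boxNet d L).dist x z / 4 - gX X0)
    (g : ℕ → boxS d L → ℝ)
    (hlow : ∀ i, i ≤ 2 * r → LowE k g m (w i) (X0 - (boxNet d L).dist z (w i)) (1 / 100)
      ‖P.1 (w i)‖)
    (hS : ∀ i, i ≤ 2 * r → SSt (boxNet d L) k (fun y => ‖P.1 y‖ + ‖P.2 y‖) (w i) ≤ 2) :
    V1 k q (a / ell k) P x ≤
      ENNReal.ofReal (2 ^ (q * (a / ell k)) *
        Real.exp (a * ((boxNet d L).dist x z / 4 - gX X0))) *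
        ENNReal.ofReal (ME2F a r m z w g) := by
  have hn : (48 : ℝ) ≤ ((2 * r : ℕ) : ℝ) := by
    have : 48 ≤ 2 * r := by omega
    exact_mod_cast this
  set n : ℕ := 2 * r with hndef
  have hV : ∀ i, i ≤ n → ∀ X : ℝ, k ^ (-X) ≤ ‖P.1 (w i)‖ → ∀ c : ℝ,
      (boxNet d L).dist x (w i) / 4 - gX X ≤ (boxNet d L).dist x z / 4 - gX X0 + c →
      V1 k q (a / ell k) P x ≤ ENNReal.ofReal (2 ^ (q * (a / ell k)) *
        Real.exp (a * ((boxNet d L).dist x z / 4 - gX X0))) *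
        ENNReal.ofReal (Real.exp (a * c)) := by
    intro i hi X hX c hc
    have h1 := ME2_V_le hk hk1 hq ha (fun y => ‖P.1 y‖) (fun y => ‖P.1 y‖ + ‖P.2 y‖)
      (fun y => by positivity) x (w i) X hX (hS i hi)
    have h2 : (0 : ℝ) ≤ 2 ^ (q * (a / ell k)) := Real.rpow_nonneg (by norm_num) _
    refine h1.trans ?_
    rw [← ENNReal.ofReal_mul (by positivity)]
    apply ENNReal.ofReal_le_ofReal
    rw [mul_assoc, ← Real.exp_add]
    apply mul_le_mul_of_nonneg_left _ h2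
    apply Real.exp_le_exp.mpr
    have h3 := mul_le_mul_of_nonneg_left hc ha.le
    linarith
  unfold ME2F
  split_ifs with h
  · obtain ⟨i, hi1, hi2, hs1, hs2⟩ := h
    have hi : i ≤ n := hi2
    have hin : (i : ℝ) ≤ (n : ℝ) := by exact_mod_cast hi
    have hi0 : (n : ℝ) / 2 ≤ i := by
      have : (r : ℝ) ≤ i := by exact_mod_cast hi1
      have h2 : (n : ℝ) = 2 * r := by rw [hndef]; push_cast; ring
      linarith
    have hD : ((boxNet d L).dist x (w i) : ℝ) + i = (boxNet d L).dist x z ∨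
        (((boxNet d L).dist x z : ℝ) < n ∧
          ((boxNet d L).dist x (w i) : ℝ) ≤ (boxNet d L).dist x z + i) := by
      rcases hwx with h1 | h1
      · left
        exact_mod_cast h1 i hi
      · right
        refine ⟨by exact_mod_cast h1, ?_⟩
        have h2 := (boxNet d L).dist_tri x z (w i)
        rw [hw i hi] at h2
        exact_mod_cast h2
    have hl := hlow i hi
    rw [hw i hi] at hl
    have hg : ∀ X : ℝ, (X0 - i + 2 * n - 1 / 100 ≤ X ∨ -(1 / 16) - n / 16 - 1 / 100 ≤ X) →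
        k ^ (-X) ≤ ‖P.1 (w i)‖ →
        V1 k q (a / ell k) P x ≤ ENNReal.ofReal (2 ^ (q * (a / ell k)) *
        Real.exp (a * ((boxNet d L).dist x z / 4 - gX X0))) *
        ENNReal.ofReal (Real.exp (-a)) := by
      intro X hX hkX
      have h1 := ME2_gain_succ hn hi0 hin hX0 hM0 hD hX
      have h2 := hV i hi X hkX (-1) (by linarith)
      rwa [mul_neg_one] at h2
    rcases hl with hl | ⟨j, hj, hl⟩
    · refine hg (X0 - i + ∑ j ∈ Finset.range m, g j (w i) - 1 / 100) (Or.inl ?_) ?_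
      · linarith
      · refine le_trans (le_of_eq ?_) hl
        congr 1
        ring
    · refine hg (-(1 / 16) + ∑ l ∈ Finset.Ico j m, g l (w i) - 1 / 100) (Or.inr ?_) ?_
      · have := hs2 j hj
        linarith
      · refine le_trans (le_of_eq ?_) hl
        congr 1
        ring
  · have hz : w 0 = z := by
      by_contra hne
      have h1 := (boxNet d L).dist_pos z (w 0) (fun h => hne h.symm)
      rw [hw 0 (Nat.zero_le _)] at h1
      omega
    have hl := hlow 0 (Nat.zero_le _)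
    rw [hw 0 (Nat.zero_le _), hz] at hl
    have hΘ := osc_nonneg (fun j => g j z) m
    have hb : ∀ j, j ≤ m → -(osc (fun j => g j z) m) ≤ ∑ l ∈ Finset.Ico j m, g l z := by
      intro j hj
      exact (abs_le.1 (sum_le_osc (fun j => g j z) hj le_rfl)).1
    have hg : ∀ X : ℝ, (X0 - osc (fun j => g j z) m - 1 / 100 ≤ X ∨
        -(1 / 16) - osc (fun j => g j z) m - 1 / 100 ≤ X) → k ^ (-X) ≤ ‖P.1 z‖ →
        V1 k q (a / ell k) P x ≤ ENNReal.ofReal (2 ^ (q * (a / ell k)) *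
        Real.exp (a * ((boxNet d L).dist x z / 4 - gX X0))) *
        ENNReal.ofReal (Real.exp (a * (osc (fun j => g j z) m + 1))) := by
      intro X hX hkX
      have h1 := ME2_gain_fail (D := (boxNet d L).dist x z) hΘ hX0 hX
      have h2 := hV 0 (Nat.zero_le _) X (by rw [hz]; exact hkX) (osc (fun j => g j z) m + 1)
        (by rw [hz]; exact h1)
      exact h2
    rcases hl with hl | ⟨j, hj, hl⟩
    · refine hg (X0 - (0 : ℕ) + ∑ j ∈ Finset.range m, g j z - 1 / 100) (Or.inl ?_) ?_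
      · have h1 := hb 0 (Nat.zero_le m)
        rw [← Finset.range_eq_Ico] at h1
        push_cast
        linarith
      · refine le_trans (le_of_eq ?_) hl
        congr 1
        ring
    · refine hg (-(1 / 16) + ∑ l ∈ Finset.Ico j m, g l z - 1 / 100) (Or.inr ?_) ?_
      · have := hb j hj
        linarith
      · refine le_trans (le_of_eq ?_) hl
        congr 1
        ring

/-- small `k` -/
private theorem ME2_k0 (T0 q a Cm p : ℝ) (hT0 : 0 < T0) (hq : 0 ≤ q) (ha : 0 < a)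
    (hCm : 0 < Cm) (hp : 0 < p) : ∃ k0 : ℝ, 0 < k0 ∧ k0 < 1 ∧ ∀ k, 0 < k → k < k0 →
      1 ≤ ell k ∧ 10 ≤ T0 * ell k ^ 2 ∧ 16 * q * a ≤ ell k ∧
      (2 : ℝ) ^ (q * (a / ell k)) ≤ 1 + a / 4 ∧ Cm * k ^ (1 / 16 : ℝ) ≤ p := by
  have hlog : 0 < Real.log (1 + a / 4) := Real.log_pos (by linarith)
  set K : ℝ := 1 + 10 / T0 + 16 * q * a + q * a / Real.log (1 + a / 4) with hK
  have e1 : 0 ≤ 10 / T0 := by positivity
  have e2 : 0 ≤ 16 * q * a := by positivity
  have e3 : 0 ≤ q * a / Real.log (1 + a / 4) := by positivity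
  refine ⟨min (Real.exp (-K)) ((p / Cm) ^ 16), by positivity, ?_, ?_⟩
  · refine (min_le_left _ _).trans_lt ?_
    rw [Real.exp_lt_one_iff]
    linarith
  intro k hk hkk
  have hell : K ≤ ell k := by
    unfold ell
    rw [one_div, Real.log_inv]
    have h1 : Real.log k ≤ -K := by
      rw [← Real.log_exp (-K)]
      exact Real.log_le_log hk (hkk.le.trans (min_le_left _ _))
    linarith
  have hell1 : 1 ≤ ell k := by linarith
  have hell0 : 0 < ell k := by linarith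
  refine ⟨hell1, ?_, by linarith, ?_, ?_⟩
  · have h1 : 10 / T0 ≤ ell k ^ 2 := by
      have h2 : ell k ≤ ell k ^ 2 := by nlinarith
      linarith
    rw [div_le_iff₀ hT0] at h1
    linarith
  · rw [Real.rpow_def_of_pos (by norm_num)]
    have h1 : Real.log 2 * (q * (a / ell k)) ≤ Real.log (1 + a / 4) := by
      have h2 : Real.log 2 ≤ 1 := by
        have := Real.log_two_lt_d9
        linarith
      have h3 : 0 ≤ q * (a / ell k) := by positivity
      have h4 : q * (a / ell k) ≤ Real.log (1 + a / 4) := by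
        have h5 : q * a / Real.log (1 + a / 4) ≤ ell k := by linarith
        rw [div_le_iff₀ hlog] at h5
        rw [← mul_div_assoc, div_le_iff₀ hell0]
        linarith
      nlinarith
    calc Real.exp (Real.log 2 * (q * (a / ell k))) ≤ Real.exp (Real.log (1 + a / 4)) :=
          Real.exp_le_exp.mpr h1
      _ = 1 + a / 4 := Real.exp_log (by linarith)
  · have h1 : k ^ (1 / 16 : ℝ) ≤ ((p / Cm) ^ 16) ^ (1 / 16 : ℝ) :=
      Real.rpow_le_rpow hk.le (hkk.le.trans (min_le_right _ _)) (by norm_num)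
    rw [← Real.rpow_natCast, ← Real.rpow_mul (by positivity),
      show ((16 : ℕ) : ℝ) * (1 / 16) = 1 by norm_num, Real.rpow_one] at h1
    calc Cm * k ^ (1 / 16 : ℝ) ≤ Cm * (p / Cm) := mul_le_mul_of_nonneg_left h1 hCm.le
      _ = p := by field_simp

private theorem ME2_V_ne_zero {d L : ℕ} {k q s : ℝ} {V : Type} [NormedAddCommGroup V] (hs : 0 < s)
    (P : (boxS d L → V) × (boxS d L → V)) (x : boxS d L) : V1 k q s P x ≠ 0 := by
  unfold V1 Vp
  intro h
  rw [ENNReal.rpow_neg, ENNReal.inv_eq_zero, ENNReal.rpow_eq_top_iff] at h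
  rcases h with ⟨-, h⟩ | ⟨h, -⟩
  · linarith
  · have h2 : (Finset.univ.sup fun z => ENNReal.ofReal (Tz (boxNet d L) k q (fun y => ‖P.1 y‖)
        (fun y => ‖P.1 y‖ + ‖P.2 y‖) x z)) < ⊤ := by
      rw [Finset.sup_lt_iff (by simp)]
      intro z _
      exact ENNReal.ofReal_lt_top
    exact absurd h h2.ne

private theorem ME2_tr (d : ℕ) (β k : ℝ) (hβ : 0 < β) (hk : 0 ≤ k) (h : ℝ) (L : ℕ)
    (G : (boxS d L → ℂ) × (boxS d L → ℂ)) (ω : ℕ → boxS d L → ℂ) (n : ℕ) :
    ((PS2 d β k hβ hk).tr h L G ω n).1 = traj (st2 d β k h L) G.1 ω n := by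
  induction n with
  | zero => rfl
  | succ n ih =>
    show st2 d β k h L ((PS2 d β k hβ hk).tr h L G ω n).1 (ω n) = _
    rw [ih]
    rfl

theorem mest2 (d : ℕ) (hd : 1 ≤ d) (β : ℝ) (hβ : 0 < β) : ∃ q0 a0 T0 : ℝ, ∃ Ls : ℕ, 1 ≤ q0 ∧
    0 < a0 ∧ a0 ≤ 1 / 8 ∧ 0 < T0 ∧
    ∀ q, q0 ≤ q → ∀ a : ℝ, 0 < a → a ≤ a0 →
    ∀ M : ℝ, 1 ≤ M → ∃ M0 Md ε0 k0 : ℝ, 0 < ε0 ∧ 0 < k0 ∧ k0 < 1 ∧ ∀ (k : ℝ) (hk : 0 < k),
      k < k0 → ∀ L : ℕ, Ls ≤ L → ∃ h0 : ℝ, 0 < h0 ∧ ∀ h, 0 < h → h < h0 →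
      MEst 2 (PS2 d β k hβ hk.le) q a T0 M M0 Md ε0 L h := by
  obtain ⟨r, hr, hwalk⟩ := ME2_walk
  obtain ⟨q0, hq0, hsm⟩ := sm_multi 2 d β le_rfl hβ
  obtain ⟨Cm, hCm, hSS⟩ := ME2_SSt 2 d β hβ
  have hn48 : (48 : ℝ) ≤ ((2 * r : ℕ) : ℝ) := by
    have : 48 ≤ 2 * r := by omega
    exact_mod_cast this
  have hn0 : (0 : ℝ) < ((2 * r : ℕ) : ℝ) := by linarith
  obtain ⟨T0, hT0⟩ : ∃ T0 : ℝ, T0 = ((2 * r : ℕ) : ℝ) ^ 2 / 2 ^ 20 := ⟨_, rfl⟩
  have hT00 : 0 < T0 := by rw [hT0]; positivity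
  refine ⟨q0, 1 / ((2 * r : ℕ) : ℝ), T0, 2 * r, hq0, by positivity, ?_, hT00, ?_⟩
  · exact one_div_le_one_div_of_le (by norm_num) (by linarith)
  intro q hq a ha ha1 M hM
  have hq1 : 1 ≤ q := hq0.trans hq
  obtain ⟨C9, k1, hC9, hk1, hk11, hsm1⟩ := hsm q hq
  obtain ⟨Csq, hCsq⟩ : ∃ Csq : ℝ, Csq = Real.exp (C9 * (2 * a + 4 * a ^ 2) * (T0 + 5)) :=
    ⟨_, rfl⟩
  have hCsq0 : 0 < Csq := by rw [hCsq]; positivity
  obtain ⟨c, hc⟩ : ∃ c : ℝ, c = a / (300 * Csq) := ⟨_, rfl⟩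
  have hc0 : 0 < c := by rw [hc]; positivity
  obtain ⟨p, hp⟩ : ∃ p : ℝ, p = c * a / (600 * ((2 * r : ℕ) + 1)) := ⟨_, rfl⟩
  have hp0 : 0 < p := by rw [hp]; positivity
  obtain ⟨Md, ε0, k2, hε0, hk2, hk21, hlow⟩ := low2 d β hβ T0 (max M ((2 * r : ℕ) : ℝ))
    (1 / 100) p hT00 (le_max_of_le_left hM) (by norm_num) hp0
  obtain ⟨k3, hk3, hk31, hk3'⟩ := ME2_k0 T0 q a Cm p hT00 (by linarith) ha hCm hp0
  refine ⟨2 * ((2 * r : ℕ) : ℝ) + 10, Md, ε0, min k1 (min k2 k3), hε0,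
    lt_min hk1 (lt_min hk2 hk3), (min_le_left _ _).trans_lt hk11, ?_⟩
  intro k hk hkk L hL
  have hkk1 : k < k1 := hkk.trans_le (min_le_left _ _)
  have hkk2 : k < k2 := hkk.trans_le ((min_le_right _ _).trans (min_le_left _ _))
  have hkk3 : k < k3 := hkk.trans_le ((min_le_right _ _).trans (min_le_right _ _))
  have hkl1 : k < 1 := hkk1.trans hk11
  obtain ⟨hell1, hell2, hell3, hell4, hell5⟩ := hk3' k hk hkk3
  have hell0 : 0 < ell k := by linarith
  have hs0 : 0 < a / ell k := div_pos ha hell0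
  have h8 : 8 * q * (2 * (a / ell k)) ≤ 1 := by
    have h1 : 8 * q * (2 * (a / ell k)) = 16 * q * a / ell k := by ring
    rw [h1, div_le_one hell0]
    exact hell3
  obtain ⟨h1, hh1, hsm2⟩ := hsm1 (Fam2 d β k) k (PS2 d β k hβ hk.le) hk hkk1 bnoise2
    (2 * (a / ell k)) (by positivity) h8
  obtain ⟨h2, hh2, hSS1⟩ := hSS (Fam2 d β k) k (PS2 d β k hβ hk.le) hk hkl1.le bnoise2 L
  obtain ⟨h3, hh3, hlow1⟩ := hlow k hk hkk2 L
  refine ⟨min h1 (min h2 h3), lt_min hh1 (lt_min hh2 hh3), fun h hh hhlt => ?_⟩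
  have hhl1 : h < h1 := hhlt.trans_le (min_le_left _ _)
  have hhl2 : h < h2 := hhlt.trans_le ((min_le_right _ _).trans (min_le_left _ _))
  have hhl3 : h < h3 := hhlt.trans_le ((min_le_right _ _).trans (min_le_right _ _))
  intro m hm1 hm2 G x z X0 hX0 hGz hM0 hprof hcaps
  have hts : ts 2 k = ell k ^ 2 := by
    unfold ts
    rw [if_pos rfl]
  rw [hts] at hm1 hm2
  by_cases hDt : V1 k q (a / ell k) G x = ⊤
  · rw [hDt, ENNReal.mul_top (by rw [Ne, ENNReal.ofReal_eq_zero]; push Not; positivity), add_top]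
    exact le_top
  have hD0 : V1 k q (a / ell k) G x ≠ 0 := ME2_V_ne_zero hs0 G x
  obtain ⟨w, hw, hwx⟩ := ME2_sites hd (2 * r) L hL x z
  -- second moment
  have hsq : ∫⁻ ω in (PS2 d β k hβ hk.le).alv h L G m,
      V1 k q (a / ell k) ((PS2 d β k hβ hk.le).tr h L G ω m) x ^ 2
        ∂(PI ((PS2 d β k hβ hk.le).mu L)) ≤
      ENNReal.ofReal Csq * V1 k q (a / ell k) G x ^ 2 := by
    have e1 := (hsm2 h hh hhl1 L G m x).1
    have e2 : ∀ P : (boxS d L → (Fam2 d β k).V) × (boxS d L → (Fam2 d β k).V),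
        V1 k q (a / ell k) P x ^ 2 = V1 k q (2 * (a / ell k)) P x := fun P =>
      (V_sq k q (a / ell k) P x).1
    simp_rw [e2]
    refine e1.trans ?_
    gcongr
    rw [hCsq]
    apply Real.exp_le_exp.mpr
    have e3 : C9 * (2 * (a / ell k) / ell k + (2 * (a / ell k)) ^ 2) * (m * h) =
        C9 * (2 * a + 4 * a ^ 2) * (m * h / ell k ^ 2) := by
      field_simp
      ring
    rw [e3]
    have e4 : (m : ℝ) * h / ell k ^ 2 ≤ T0 + 5 := by
      rw [div_le_iff₀ (by positivity)]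
      have : 1 ≤ ell k ^ 2 := by nlinarith
      nlinarith
    exact mul_le_mul_of_nonneg_left e4 (by positivity)
  -- bad event
  set Bad : Set (ℕ → boxS d L → ℂ) := ⋃ i ∈ Finset.range (2 * r + 1),
    ({ω | ¬ LowE k (gz k h ω) m (w i) (X0 - (boxNet d L).dist z (w i)) (1 / 100)
        ‖traj (st2 d β k h L) G.1 ω m (w i)‖} ∪
      ({ω | ¬ SSt (boxNet d L) k (fun y => ‖((PS2 d β k hβ hk.le).tr h L G ω m).1 y‖ +
        ‖((PS2 d β k hβ hk.le).tr h L G ω m).2 y‖) (w i) ≤ 2} ∩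
        (PS2 d β k hβ hk.le).alv h L G m)) with hBad
  have hBadp : PI ((PS2 d β k hβ hk.le).mu L) Bad ≤ ENNReal.ofReal (c * a / 300) := by
    have e1 : ∀ i ∈ Finset.range (2 * r + 1), PI ((PS2 d β k hβ hk.le).mu L)
        ({ω | ¬ LowE k (gz k h ω) m (w i) (X0 - (boxNet d L).dist z (w i)) (1 / 100)
        ‖traj (st2 d β k h L) G.1 ω m (w i)‖} ∪
      ({ω | ¬ SSt (boxNet d L) k (fun y => ‖((PS2 d β k hβ hk.le).tr h L G ω m).1 y‖ +
        ‖((PS2 d β k hβ hk.le).tr h L G ω m).2 y‖) (w i) ≤ 2} ∩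
        (PS2 d β k hβ hk.le).alv h L G m)) ≤ ENNReal.ofReal (2 * p) := by
      intro i hi
      have hi' : i ≤ 2 * r := Nat.lt_succ_iff.1 (Finset.mem_range.1 hi)
      refine (measure_union_le _ _).trans ?_
      have e2 : PI ((PS2 d β k hβ hk.le).mu L) {ω | ¬ LowE k (gz k h ω) m (w i)
          (X0 - (boxNet d L).dist z (w i)) (1 / 100)
          ‖traj (st2 d β k h L) G.1 ω m (w i)‖} ≤ ENNReal.ofReal p := by
        refine hlow1 h hh hhl3 m hm1 hm2 G.1 z (w i) X0 hX0 hGz ?_ ?_ hcaps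
        · rw [hw i hi']
          refine le_max_of_le_right ?_
          exact_mod_cast hi'
        · intro v
          refine (hprof v).trans ?_
          apply Real.rpow_le_rpow_of_exponent_ge hk hkl1.le
          have := le_max_left M ((2 * r : ℕ) : ℝ)
          linarith
      have e3 := hSS1 h hh hhl2 G m (by linarith) (w i)
      have e4 : ENNReal.ofReal (2 * p) = ENNReal.ofReal p + ENNReal.ofReal p := by
        rw [two_mul, ENNReal.ofReal_add hp0.le hp0.le]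
      rw [e4]
      exact add_le_add e2 (e3.trans (ENNReal.ofReal_le_ofReal hell5))
    refine (measure_biUnion_finset_le _ _).trans ((Finset.sum_le_sum e1).trans (le_of_eq ?_))
    rw [Finset.sum_const, Finset.card_range, nsmul_eq_mul, ← ENNReal.ofReal_natCast,
      ← ENNReal.ofReal_mul (by positivity)]
    congr 1
    rw [hp]
    push_cast
    field_simp
    ring
  -- cut
  have hVm : Measurable fun ω : ℕ → boxS d L → (PS2 d β k hβ hk.le).Ωp =>
      V1 k q (a / ell k) ((PS2 d β k hβ hk.le).tr h L G ω m) x :=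
    (measurable_V k q (a / ell k) x).1.comp
      ((measurable_tr (PS2 d β k hβ hk.le) h L m).comp (measurable_const.prodMk measurable_id))
  have hcut := ME2_cut (PI ((PS2 d β k hβ hk.le).mu L)) ((PS2 d β k hβ hk.le).alv h L G m) Bad
    (measurableSet_alv _ h L G m)
    (fun ω => V1 k q (a / ell k) ((PS2 d β k hβ hk.le).tr h L G ω m) x)
    (fun ω => ENNReal.ofReal (2 ^ (q * (a / ell k)) *
        Real.exp (a * ((boxNet d L).dist x z / 4 - gX X0))) *
        ENNReal.ofReal (ME2F a r m z w (gz k h ω))) hVm ?_ (V1 k q (a / ell k) G x)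
    (ENNReal.ofReal c) (ENNReal.ofReal Csq) (ENNReal.ofReal (c * a / 300)) hD0 hDt
    (by rw [Ne, ENNReal.ofReal_eq_zero]; push Not; exact hc0) ENNReal.ofReal_ne_top hsq hBadp
  swap
  · intro ω hω hωB
    have hnot : ∀ i, i ≤ 2 * r → LowE k (gz k h ω) m (w i)
        (X0 - (boxNet d L).dist z (w i)) (1 / 100)
        ‖traj (st2 d β k h L) G.1 ω m (w i)‖ ∧
        SSt (boxNet d L) k (fun y => ‖((PS2 d β k hβ hk.le).tr h L G ω m).1 y‖ +
        ‖((PS2 d β k hβ hk.le).tr h L G ω m).2 y‖) (w i) ≤ 2 := by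
      intro i hi
      constructor
      · by_contra hcon
        exact hωB (Set.mem_biUnion (Finset.mem_coe.2 (Finset.mem_range.2 (Nat.lt_succ_of_le hi)))
          (Or.inl hcon))
      · by_contra hcon
        exact hωB (Set.mem_biUnion (Finset.mem_coe.2 (Finset.mem_range.2 (Nat.lt_succ_of_le hi)))
          (Or.inr ⟨hcon, hω⟩))
    refine ME2_core hk hkl1 (by linarith) ha r hr m _ x z w hw hwx X0 hX0 hM0 (gz k h ω)
      (fun i hi => ?_) (fun i hi => (hnot i hi).2)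
    have e1 := (hnot i hi).1
    have e2 := ME2_tr d β k hβ hk.le h L G ω m
    rw [← e2] at e1
    exact e1
  refine hcut.trans ?_
  -- main term
  have hv1 : ((2 * r : ℕ) : ℝ) ^ 2 / 2 ^ 21 ≤ h / ell k ^ 2 * m := by
    have e1 : h / ell k ^ 2 * m = m * h / ell k ^ 2 := by ring
    rw [e1, le_div_iff₀ (by positivity)]
    have e2 : ((2 * r : ℕ) : ℝ) ^ 2 / 2 ^ 21 = T0 / 2 := by rw [hT0]; ring
    rw [e2]
    linarith
  have hv2 : h / ell k ^ 2 * m ≤ ((2 * r : ℕ) : ℝ) ^ 2 / 2 ^ 19 := by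
    have e1 : h / ell k ^ 2 * m = m * h / ell k ^ 2 := by ring
    rw [e1, div_le_iff₀ (by positivity)]
    have e2 : ((2 * r : ℕ) : ℝ) ^ 2 / 2 ^ 19 = 2 * T0 := by rw [hT0]; ring
    rw [e2]
    linarith
  have hmain : ∫⁻ ω, ENNReal.ofReal (2 ^ (q * (a / ell k)) *
        Real.exp (a * ((boxNet d L).dist x z / 4 - gX X0))) *
        ENNReal.ofReal (ME2F a r m z w (gz k h ω)) ∂(PI ((PS2 d β k hβ hk.le).mu L)) ≤
      ENNReal.ofReal ((1 - a / 2) *
        Real.exp (a * ((boxNet d L).dist x z / 4 - gX X0))) := by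
    rw [lintegral_const_mul' _ _ ENNReal.ofReal_ne_top]
    have e1 := ME2_transfer d L k h hk hkl1 hh a r m z w
    have e2 := hwalk (boxS d L) z w (fun i j hi hj hij => ME2_inj hw i j hi hj hij)
      (h / ell k ^ 2) m (by positivity) hv1 hv2 a ha ha1
    have e3 : ∫⁻ ω, ENNReal.ofReal (ME2F a r m z w (gz k h ω))
        ∂(PI ((PS2 d β k hβ hk.le).mu L)) ≤ ENNReal.ofReal (1 - 3 / 4 * a) :=
      (le_of_eq e1).trans e2
    refine (mul_le_mul_right e3 _).trans ?_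
    have e4 : (0 : ℝ) ≤ 2 ^ (q * (a / ell k)) := Real.rpow_nonneg (by norm_num) _
    rw [← ENNReal.ofReal_mul (by positivity)]
    apply ENNReal.ofReal_le_ofReal
    have e5 : (0 : ℝ) ≤ 1 - 3 / 4 * a := by
      have : a ≤ 1 / 48 := ha1.trans (one_div_le_one_div_of_le (by norm_num) hn48)
      linarith
    have e6 : (2 : ℝ) ^ (q * (a / ell k)) * (1 - 3 / 4 * a) ≤ 1 - a / 2 := by
      have := mul_le_mul_of_nonneg_right hell4 e5
      nlinarith
    have e7 := mul_le_mul_of_nonneg_right e6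
      (Real.exp_pos (a * ((boxNet d L).dist x z / 4 - gX X0))).le
    linarith
  refine add_le_add hmain ?_
  gcongr
  rw [← ENNReal.ofReal_mul hc0.le, ← ENNReal.ofReal_div_of_pos hc0,
    ← ENNReal.ofReal_add (by positivity) (by positivity)]
  apply ENNReal.ofReal_le_ofReal
  have e1 : c * Csq = a / 300 := by
    rw [hc]
    field_simp
  have e2 : c * a / 300 / c = a / 300 := by
    field_simp
  rw [e1, e2]
  linarith

end DynC

end
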