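import Pool.Agent.Lib_MP_36b788_m.M43
import Pool.Agent.Lib_MP_36b788_m.M45

/-!
# MP_36b788_pr, stationary limit: merged library part M46

Concatenation of smaller files (each in its own section), only to save build time.
-/

/-! ### from `Lib_MP_36b788c.VM` -/

section

/-!
# Moments of the potential for the controlled pair and for the resampled pair

`ell k ≤ …`: exponents `s ≤ 4/ell`, times `m h ≤ 8 ell²`, so every bound is a constant `C` depending on `q` only.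

PROOF.
* `vm_ctl`: `iter_gen` with `f j = P.bst β k h j`, `Gd j` = (noise in `gdC`, norms before the step `≤ rad`), `Φ = V1 k q s · x` (`measurable_V`), and the same for `V2`. One step: `smG_step` with `Ω = boxS → ℂ`, `P = pi gC`, `b1 ξ z = √h Re ξ z`, `b2 ξ z = √h Re(ξ z + ctl z)`.
  For `b2`: factor `e^{r √h Re ctl}`, `|√h ctl| ≤ λ_j = m0/(ns+1) + ς lamS ns j` (`ctl_le`), `η = 4 λ_j/h`, `|r| λ_j` small.
  Product of the factors `exp(C9(s/ell + s² + s η_j + ε) h)` with `ε = 1/ell²`; `Σ_{j<ns} λ_j ≤ m0 + ς ns ≤ (κ/16) ell + 5` (`lamS_sum`), the last step for `k` small depending on `κ`.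
* `vm_res`: `PI_prod`, `rst_traj`, `iter_gen` for `rst`, `smG_step` with `Ω = (boxS → ℂ) × (boxS → ℂ)`, `b1 p z = √h Re p.1 z`, `b2 p z = √h Re(the used noise)`, both standard, `η = 0`.
-/

open MeasureTheory ProbabilityTheory
open scoped ENNReal

namespace DynC

open Dyn

private theorem VM_mgd (h : ℝ) : MeasurableSet (gdC h) :=
  measurableSet_le (measurable_norm.const_mul _) measurable_const

/-- integral of a function of one coordinate on the event that all the coordinates are good -/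
private theorem VM_lint {ι : Type} [Fintype ι] (μ : Measure ℂ) [IsProbabilityMeasure μ]
    (g : Set ℂ) (F : ℂ → ℝ≥0∞) (hF : Measurable F) (z : ι) :
    ∫⁻ ξ in {ξ : ι → ℂ | ∀ x, ξ x ∈ g}, F (ξ z) ∂(Measure.pi fun _ => μ) =
      μ g ^ (Fintype.card ι - 1) * (∫⁻ a in g, F a ∂μ) := by
  classical
  have e : {ξ : ι → ℂ | ∀ x, ξ x ∈ g} = Set.univ.pi (fun _ : ι => g) := by
    ext ξ
    simp [Set.mem_pi]
  rw [e, Measure.restrict_pi_pi]
  have h1 : ∫⁻ ξ : ι → ℂ, F (ξ z) ∂(Measure.pi fun _ => μ.restrict g) =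
      ∫⁻ a, F a ∂((Measure.pi fun _ : ι => μ.restrict g).map (Function.eval z)) :=
    (lintegral_map hF (measurable_pi_apply z)).symm
  rw [h1, Measure.pi_map_eval, lintegral_smul_measure, smul_eq_mul]
  congr 1
  rw [Finset.prod_const, Finset.card_erase_of_mem (Finset.mem_univ z), Finset.card_univ,
    Measure.restrict_apply_univ]

/-- a sub-event of almost full measure on which `Y` has almost the law `gC` restricted to the good set -/
private def VM_Law {Ω : Type} [MeasurableSpace Ω] (P : Measure Ω) (Gd : Set Ω) (Y : Ω → ℂ)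
    (h : ℝ) : Prop :=
  ∃ c : ℝ≥0∞, c ≤ 1 ∧ ENNReal.ofReal (1 - h ^ 2) ≤ c ∧ ∀ F : ℂ → ℝ≥0∞, Measurable F →
    ∫⁻ ω in Gd, F (Y ω) ∂P = c * ∫⁻ a in gdC h, F a ∂gC

private theorem VM_exp_up {a : ℝ} (h0 : 0 ≤ a) (h1 : a ≤ 1) : Real.exp a ≤ 1 + 2 * a := by
  have h2 := Real.abs_exp_sub_one_le (x := a) (by rw [abs_of_nonneg h0]; exact h1)
  rw [abs_of_nonneg h0] at h2
  have h3 := abs_le.1 h2
  linarith [h3.2]

private theorem VM_bm {β : ℝ} (hβ : 0 < β) {ε : ℝ} (hε : 0 < ε) (hε1 : ε ≤ 1) :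
    ∃ h0 : ℝ, 0 < h0 ∧ ∀ h, 0 < h → h < h0 → ∀ (Ω : Type) [MeasurableSpace Ω] (P : Measure Ω)
      (Gd : Set Ω) (Y : Ω → ℂ) (t lam : ℝ), VM_Law P Gd Y h → |t| ≤ lam →
      (2 + β) * lam ≤ 1 / 2 →
      BMom 2 P Gd (fun ω => bC h (Y ω) + t) (2 + β) h (4 * lam / h) ε := by
  obtain ⟨h1, hh1, H⟩ := bnoise2.mgf (2 + β) (ε / 4) (by linarith) (by linarith)
  refine ⟨min h1 (min (ε / 4) (1 / (4 * ((2 + β) ^ 2 + 1)))), ?_, ?_⟩
  · refine lt_min hh1 (lt_min (by linarith) (by positivity))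
  intro h hh hhl Ω _ P Gd Y t lam hY ht hlam r hr
  have hhl1 : h < h1 := hhl.trans_le (min_le_left _ _)
  have hhl2 : h < ε / 4 := hhl.trans_le ((min_le_right _ _).trans (min_le_left _ _))
  have hhl3 : h < 1 / (4 * ((2 + β) ^ 2 + 1)) :=
    hhl.trans_le ((min_le_right _ _).trans (min_le_right _ _))
  obtain ⟨H1, H2⟩ := H h hh hhl1 r hr
  obtain ⟨c, hc1, hc2, hF⟩ := hY
  have hlam0 : 0 ≤ lam := (abs_nonneg t).trans ht
  have hN : lamN 2 = 0 := by unfold lamN; norm_num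
  have hr2 : r ^ 2 ≤ (2 + β) ^ 2 := by
    rw [← sq_abs r]
    exact pow_le_pow_left₀ (abs_nonneg r) hr 2
  have hb : (r ^ 2 / 2 + 1) * h ≤ 1 / 4 := by
    rw [lt_div_iff₀ (by positivity)] at hhl3
    nlinarith [sq_nonneg r]
  have hm : Measurable fun a : ℂ => ENNReal.ofReal (Real.exp (r * (bC h a))) := by
    refine ENNReal.measurable_ofReal.comp (Real.measurable_exp.comp ?_)
    exact (((Complex.measurable_re).const_mul _).const_mul r)
  have hI : ∫⁻ ω in Gd, ENNReal.ofReal (Real.exp (r * (bC h (Y ω) + t))) ∂P =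
      ENNReal.ofReal (Real.exp (r * t)) *
        (c * ∫⁻ a in gdC h, ENNReal.ofReal (Real.exp (r * bC h a)) ∂gC) := by
    have h2 : ∀ ω, ENNReal.ofReal (Real.exp (r * (bC h (Y ω) + t))) =
        ENNReal.ofReal (Real.exp (r * t)) * ENNReal.ofReal (Real.exp (r * bC h (Y ω))) := by
      intro ω
      rw [← ENNReal.ofReal_mul (Real.exp_pos _).le, ← Real.exp_add]
      congr 2
      ring
    have h3 := hF (fun a => ENNReal.ofReal (Real.exp (r * t)) *
      ENNReal.ofReal (Real.exp (r * bC h a))) (hm.const_mul _)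
    have h4 : ∫⁻ ω in Gd, ENNReal.ofReal (Real.exp (r * (bC h (Y ω) + t))) ∂P =
        ∫⁻ ω in Gd, (fun a => ENNReal.ofReal (Real.exp (r * t)) *
      ENNReal.ofReal (Real.exp (r * bC h a))) (Y ω) ∂P := by
      refine lintegral_congr fun ω => ?_
      exact h2 ω
    rw [h4, h3, lintegral_const_mul _ hm]
    ring
  have ha0 : 0 ≤ |r| * lam := mul_nonneg (abs_nonneg r) hlam0
  have ha1 : |r| * lam ≤ 1 / 2 := by
    refine le_trans ?_ hlam
    exact mul_le_mul_of_nonneg_right hr hlam0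
  have hrt : |r * t| ≤ |r| * lam := by
    rw [abs_mul]
    exact mul_le_mul_of_nonneg_left ht (abs_nonneg r)
  have hrt' := abs_le.1 hrt
  have hη : |r| * (4 * lam / h) * h = 4 * (|r| * lam) := by
    field_simp
  rw [hI, hN]
  rw [hN] at H1 H2
  set a : ℝ := |r| * lam with ha
  have hb0 : 0 ≤ r ^ 2 / 2 * h := by positivity
  constructor
  · calc ENNReal.ofReal (Real.exp (r * t)) *
        (c * ∫⁻ a in gdC h, ENNReal.ofReal (Real.exp (r * bC h a)) ∂gC)
        ≤ ENNReal.ofReal (Real.exp (r * t)) * (1 * ENNReal.ofReal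
          (1 + (0 * r + r ^ 2 / 2 + ε / 4) * h)) := by gcongr
      _ = ENNReal.ofReal (Real.exp (r * t) * (1 + (0 * r + r ^ 2 / 2 + ε / 4) * h)) := by
        rw [one_mul, ENNReal.ofReal_mul (Real.exp_pos _).le]
      _ ≤ _ := by
        refine ENNReal.ofReal_le_ofReal ?_
        have h5 : Real.exp (r * t) ≤ 1 + 2 * a :=
          (Real.exp_le_exp.2 hrt'.2).trans (VM_exp_up ha0 (by linarith))
        have h6 : 0 ≤ 1 + (0 * r + r ^ 2 / 2 + ε / 4) * h := by
          rw [zero_mul, zero_add]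
          positivity
        have h7 := mul_le_mul_of_nonneg_right h5 h6
        refine h7.trans ?_
        have h501 : ε * h ≤ 1 * h := mul_le_mul_of_nonneg_right hε1 hh.le
        have h10 : 0 ≤ ε * h := by positivity
        have h8 : (r ^ 2 / 2 + ε / 4) * h ≤ 1 / 4 := by linarith
        have h9 : a * ((r ^ 2 / 2 + ε / 4) * h) ≤ a * (1 / 4) :=
          mul_le_mul_of_nonneg_left h8 ha0
        have h96 : 1 + (0 * r + r ^ 2 / 2 + |r| * (4 * lam / h) + ε) * h =
            1 + r ^ 2 / 2 * h + |r| * (4 * lam / h) * h + ε * h := by ring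
        rw [h96, hη]
        linarith
  · calc ENNReal.ofReal (1 + (0 * r + r ^ 2 / 2 - |r| * (4 * lam / h) - ε) * h)
        ≤ ENNReal.ofReal (Real.exp (r * t) * ((1 - h ^ 2) *
          (1 + (0 * r + r ^ 2 / 2 - ε / 4) * h))) := by
          refine ENNReal.ofReal_le_ofReal ?_
          have h5 : 1 - a ≤ Real.exp (r * t) := by
            have := Real.add_one_le_exp (r * t)
            linarith [hrt'.1]
          have hh1 : h ≤ 1 / 4 := by linarith
          have h50 : h * h ≤ ε / 4 * h := mul_le_mul_of_nonneg_right hhl2.le hh.le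
          have h501 : ε * h ≤ 1 * h := mul_le_mul_of_nonneg_right hε1 hh.le
          have h95 : 0 ≤ ε * h := by positivity
          have h51 : 0 ≤ 1 - h ^ 2 := by rw [sq]; linarith
          have h6 : 0 ≤ 1 + (0 * r + r ^ 2 / 2 - ε / 4) * h := by
            linarith
          have h61 : 0 ≤ (1 - h ^ 2) * (1 + (0 * r + r ^ 2 / 2 - ε / 4) * h) :=
            mul_nonneg h51 h6
          refine le_trans ?_ (mul_le_mul_of_nonneg_right h5 h61)
          have h81 : 1 + (0 * r + r ^ 2 / 2 - ε / 4) * h ≤ 2 := by linarith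
          have h9 : 1 - a - h ^ 2 ≤ (1 - a) * (1 - h ^ 2) := by
            have := mul_nonneg ha0 (sq_nonneg h)
            linarith
          have h91 := mul_le_mul_of_nonneg_right h9 h6
          have h92 : (1 - a) * ((1 - h ^ 2) * (1 + (0 * r + r ^ 2 / 2 - ε / 4) * h)) =
              (1 - a) * (1 - h ^ 2) * (1 + (0 * r + r ^ 2 / 2 - ε / 4) * h) := by ring
          rw [h92]
          refine le_trans ?_ h91
          have h93 : (a + h ^ 2) * (1 + (0 * r + r ^ 2 / 2 - ε / 4) * h) ≤ (a + h ^ 2) * 2 :=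
            mul_le_mul_of_nonneg_left h81 (by positivity)
          have h96 : 1 + (0 * r + r ^ 2 / 2 - |r| * (4 * lam / h) - ε) * h =
              1 + r ^ 2 / 2 * h - |r| * (4 * lam / h) * h - ε * h := by ring
          rw [h96, hη]
          have h97 : (1 - a - h ^ 2) * (1 + (0 * r + r ^ 2 / 2 - ε / 4) * h) =
              1 + r ^ 2 / 2 * h - ε / 4 * h -
                (a + h ^ 2) * (1 + (0 * r + r ^ 2 / 2 - ε / 4) * h) := by ring
          rw [h97]
          rw [sq] at h93 ⊢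
          linarith
      _ = ENNReal.ofReal (Real.exp (r * t)) * (ENNReal.ofReal (1 - h ^ 2) *
          ENNReal.ofReal (1 + (0 * r + r ^ 2 / 2 - ε / 4) * h)) := by
        have hh1 : h ≤ 1 / 4 := by linarith
        rw [ENNReal.ofReal_mul (Real.exp_pos _).le, ENNReal.ofReal_mul (by nlinarith)]
      _ ≤ _ := by gcongr

private theorem VM_pow (d L : ℕ) : ∃ h0 : ℝ, 0 < h0 ∧ ∀ h, 0 < h → h < h0 →
    ∀ n : ℕ, n ≤ 2 * Fintype.card (boxS d L) → ENNReal.ofReal (1 - h ^ 2) ≤ gC (gdC h) ^ n := by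
  obtain ⟨h1, hh1, H⟩ := bnoise2.tail
  refine ⟨min h1 (1 / (2 * Fintype.card (boxS d L) + 1)), lt_min hh1 (by positivity), ?_⟩
  intro h hh hhl n hn
  have hhl1 : h < h1 := hhl.trans_le (min_le_left _ _)
  have hhl2 : h < 1 / (2 * Fintype.card (boxS d L) + 1) := hhl.trans_le (min_le_right _ _)
  have hc0 : (0 : ℝ) ≤ Fintype.card (boxS d L) := Nat.cast_nonneg _
  have hhl3 : h ≤ 1 := by
    refine hhl2.le.trans ?_
    rw [div_le_one (by positivity)]
    linarith
  have h2 : ENNReal.ofReal (1 - h ^ 3) ≤ gC (gdC h) := by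
    have h3 := prob_add_prob_compl (μ := gC) (VM_mgd h)
    have h4 := H h hh hhl1
    have h5 : (1 : ℝ≥0∞) ≤ gC (gdC h) + ENNReal.ofReal (h ^ 3) := by
      rw [← h3]
      gcongr
    rw [ENNReal.ofReal_sub _ (by positivity), ENNReal.ofReal_one]
    exact tsub_le_iff_right.2 h5
  have h30 : 0 ≤ 1 - h ^ 3 := by
    have := pow_le_one₀ hh.le hhl3 (n := 3)
    linarith
  calc ENNReal.ofReal (1 - h ^ 2) ≤ ENNReal.ofReal ((1 - h ^ 3) ^ n) := by
        refine ENNReal.ofReal_le_ofReal ?_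
        have h6 := one_add_mul_le_pow (a := -(h ^ 3)) (by linarith) n
        have h7 : (1 : ℝ) - h ^ 3 = 1 + -(h ^ 3) := by ring
        rw [h7]
        refine le_trans ?_ h6
        have h8 : (n : ℝ) ≤ 2 * Fintype.card (boxS d L) := by exact_mod_cast hn
        have h9 : (n : ℝ) * h ≤ 1 := by
          rw [lt_div_iff₀ (by positivity)] at hhl2
          have h10 := mul_le_mul_of_nonneg_right h8 hh.le
          nlinarith
        have h11 := mul_le_mul_of_nonneg_right h9 (sq_nonneg h)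
        linarith
    _ = ENNReal.ofReal (1 - h ^ 3) ^ n := ENNReal.ofReal_pow h30 _
    _ ≤ _ := pow_le_pow_left₀ (by simp) h2 _

/-- the product noise -/
private theorem VM_law1 (d L : ℕ) : ∃ h0 : ℝ, 0 < h0 ∧ ∀ h, 0 < h → h < h0 →
    ∀ z : boxS d L, VM_Law (Measure.pi fun _ : boxS d L => gC)
      {ξ : boxS d L → ℂ | ∀ x, ξ x ∈ gdC h} (fun ξ => ξ z) h := by
  obtain ⟨h1, hh1, H⟩ := VM_pow d L
  refine ⟨h1, hh1, ?_⟩
  intro h hh hhl z
  exact ⟨gC (gdC h) ^ (Fintype.card (boxS d L) - 1), pow_le_one₀ (by simp) prob_le_one,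
    H h hh hhl _ (by omega), fun F hF => VM_lint gC (gdC h) F hF z⟩

/-- the product of two product noises -/
private theorem VM_law2 (d L : ℕ) : ∃ h0 : ℝ, 0 < h0 ∧ ∀ h, 0 < h → h < h0 →
    ∀ z : boxS d L,
      VM_Law ((Measure.pi fun _ : boxS d L => gC).prod (Measure.pi fun _ : boxS d L => gC))
        {p : (boxS d L → ℂ) × (boxS d L → ℂ) | (∀ x, p.1 x ∈ gdC h) ∧ ∀ x, p.2 x ∈ gdC h}
        (fun p => p.1 z) h ∧
      VM_Law ((Measure.pi fun _ : boxS d L => gC).prod (Measure.pi fun _ : boxS d L => gC))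
        {p : (boxS d L → ℂ) × (boxS d L → ℂ) | (∀ x, p.1 x ∈ gdC h) ∧ ∀ x, p.2 x ∈ gdC h}
        (fun p => p.2 z) h := by
  obtain ⟨h1, hh1, H⟩ := VM_pow d L
  refine ⟨h1, hh1, ?_⟩
  intro h hh hhl z
  set A : Set (boxS d L → ℂ) := {ξ | ∀ x, ξ x ∈ gdC h} with hA
  have e : {p : (boxS d L → ℂ) × (boxS d L → ℂ) | (∀ x, p.1 x ∈ gdC h) ∧ ∀ x, p.2 x ∈ gdC h} =
      A ×ˢ A := by
    ext p
    simp [hA]
  have hpA : (Measure.pi fun _ : boxS d L => gC) A = gC (gdC h) ^ Fintype.card (boxS d L) := by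
    have e2 : A = Set.univ.pi (fun _ : boxS d L => gdC h) := by
      ext ξ
      simp [hA, Set.mem_pi]
    rw [e2, Measure.pi_pi, Finset.prod_const, Finset.card_univ]
  have hc := H h hh hhl (Fintype.card (boxS d L) + (Fintype.card (boxS d L) - 1)) (by omega)
  rw [e]
  constructor
  · refine ⟨gC (gdC h) ^ (Fintype.card (boxS d L) + (Fintype.card (boxS d L) - 1)),
      pow_le_one₀ (by simp) prob_le_one, hc, fun F hF => ?_⟩
    rw [← Measure.prod_restrict]
    have hm : Measurable fun ξ : boxS d L → ℂ => F (ξ z) := hF.comp (measurable_pi_apply z)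
    have h2 := lintegral_map (μ := ((Measure.pi fun _ : boxS d L => gC).restrict A).prod
      ((Measure.pi fun _ : boxS d L => gC).restrict A)) hm measurable_fst
    rw [← h2, Measure.map_fst_prod, lintegral_smul_measure, Measure.restrict_apply_univ, hpA,
      VM_lint gC (gdC h) F hF z, smul_eq_mul, pow_add]
    ring
  · refine ⟨gC (gdC h) ^ (Fintype.card (boxS d L) + (Fintype.card (boxS d L) - 1)),
      pow_le_one₀ (by simp) prob_le_one, hc, fun F hF => ?_⟩
    rw [← Measure.prod_restrict]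
    have hm : Measurable fun ξ : boxS d L → ℂ => F (ξ z) := hF.comp (measurable_pi_apply z)
    have h2 := lintegral_map (μ := ((Measure.pi fun _ : boxS d L => gC).restrict A).prod
      ((Measure.pi fun _ : boxS d L => gC).restrict A)) hm measurable_snd
    rw [← h2, Measure.map_snd_prod, lintegral_smul_measure, Measure.restrict_apply_univ, hpA,
      VM_lint gC (gdC h) F hF z, smul_eq_mul, pow_add]
    ring

/-- iteration -/
private theorem VM_iter {d L : ℕ} {X : Type} [MeasurableSpace X] (μ : Measure X)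
    [IsProbabilityMeasure μ] (β h : ℝ)
    (f : ℕ → ((boxS d L → ℂ) × (boxS d L → ℂ)) → X → ((boxS d L → ℂ) × (boxS d L → ℂ)))
    (hf : ∀ j, Measurable fun p : ((boxS d L → ℂ) × (boxS d L → ℂ)) × X => f j p.1 p.2)
    (g : Set X) (hg : MeasurableSet g) (Φ : ((boxS d L → ℂ) × (boxS d L → ℂ)) → ℝ≥0∞)
    (hΦ : Measurable Φ) (a : ℕ → ℝ) (m : ℕ)
    (hstep : ∀ j, ∀ G : (boxS d L → ℂ) × (boxS d L → ℂ),
      (∀ x, ‖G.1 x‖ ≤ rad β h ∧ ‖G.2 x‖ ≤ rad β h) →
      ∫⁻ ξ in g, Φ (f j G ξ) ∂μ ≤ ENNReal.ofReal (Real.exp (a j)) * Φ G)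
    (G : (boxS d L → ℂ) × (boxS d L → ℂ)) :
    ∫⁻ ω in {ω | (∀ j, j < m → ω j ∈ g) ∧ ∀ j, j ≤ m → ∀ x, ‖(trajT f G ω j).1 x‖ ≤ rad β h ∧
        ‖(trajT f G ω j).2 x‖ ≤ rad β h}, Φ (trajT f G ω m) ∂(PI μ) ≤
      ENNReal.ofReal (Real.exp (∑ j ∈ Finset.range m, a j)) * Φ G := by
  have m1 : ∀ z : boxS d L,
      Measurable fun G : (boxS d L → ℂ) × (boxS d L → ℂ) => ‖G.1 z‖ :=
    fun z => ((measurable_pi_apply z).comp measurable_fst).norm
  have m2 : ∀ z : boxS d L,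
      Measurable fun G : (boxS d L → ℂ) × (boxS d L → ℂ) => ‖G.2 z‖ :=
    fun z => ((measurable_pi_apply z).comp measurable_snd).norm
  have hR : MeasurableSet {G : (boxS d L → ℂ) × (boxS d L → ℂ) |
      ∀ x, ‖G.1 x‖ ≤ rad β h ∧ ‖G.2 x‖ ≤ rad β h} := by
    have e : {G : (boxS d L → ℂ) × (boxS d L → ℂ) |
      ∀ x, ‖G.1 x‖ ≤ rad β h ∧ ‖G.2 x‖ ≤ rad β h} = ⋂ x : boxS d L,
        ({G | ‖G.1 x‖ ≤ rad β h} ∩ {G | ‖G.2 x‖ ≤ rad β h}) := by
      ext G
      simp
    rw [e]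
    exact MeasurableSet.iInter fun x =>
      (measurableSet_le (m1 x) measurable_const).inter (measurableSet_le (m2 x) measurable_const)
  have key := iter_gen (μ := μ) f hf
    (fun _ => {p : ((boxS d L → ℂ) × (boxS d L → ℂ)) × X | p.2 ∈ g ∧
      ∀ x, ‖p.1.1 x‖ ≤ rad β h ∧ ‖p.1.2 x‖ ≤ rad β h})
    (fun _ => (hg.preimage measurable_snd).inter (hR.preimage measurable_fst)) Φ hΦ
    (fun j => ENNReal.ofReal (Real.exp (a j))) m ?_ G
  · have e : ∏ j ∈ Finset.range m, ENNReal.ofReal (Real.exp (a j)) =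
        ENNReal.ofReal (Real.exp (∑ j ∈ Finset.range m, a j)) := by
      rw [Real.exp_sum, ENNReal.ofReal_prod_of_nonneg]
      intro j _
      exact (Real.exp_pos _).le
    rw [e] at key
    refine le_trans (lintegral_mono_set ?_) key
    intro ω hω j hj
    exact ⟨hω.1 j hj, hω.2 j hj.le⟩
  · intro j _ G
    by_cases hG : ∀ x, ‖G.1 x‖ ≤ rad β h ∧ ‖G.2 x‖ ≤ rad β h
    · refine le_trans (lintegral_mono_set ?_) (hstep j G hG)
      intro ξ hξ
      exact hξ.1
    · have e : {ξ : X | (G, ξ) ∈ {p : ((boxS d L → ℂ) × (boxS d L → ℂ)) × X | p.2 ∈ g ∧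
          ∀ x, ‖p.1.1 x‖ ≤ rad β h ∧ ‖p.1.2 x‖ ≤ rad β h}} = ∅ := by
        ext ξ
        simp only [Set.mem_ofPred_eq, Set.mem_empty_iff_false, iff_false]
        exact fun h => hG h.2
      rw [e, Measure.restrict_empty, lintegral_zero_measure]
      exact zero_le

private theorem VM_mnrm {Ω : Type} [MeasurableSpace Ω] (d : ℕ) (β k h : ℝ) (L : ℕ)
    (F : boxS d L → ℂ) (Z : Ω → boxS d L → ℂ) (hZ : Measurable Z) :
    Measurable (fun ω => nrm (st2 d β k h L F (Z ω))) := by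
  have h3 : Measurable (fun ω => ((F, Z ω) : (boxS d L → ℂ) × (boxS d L → ℂ))) :=
    measurable_const.prodMk hZ
  have h4 := (measurable_st2 d β k h L).comp h3
  refine measurable_pi_lambda _ fun y => ?_
  have h5 := ((measurable_pi_apply y).comp h4).norm
  exact h5

/-- one step of a pair driven by two noises with almost standard laws and a shift -/
private theorem VM_step (d : ℕ) (β : ℝ) (hβ : 0 < β) : ∃ q0 : ℝ, 1 ≤ q0 ∧ ∀ q, q0 ≤ q →
    ∃ C9 k0 : ℝ, 0 < C9 ∧ 0 < k0 ∧ k0 < 1 ∧ ∀ k, 0 < k → k < k0 → ∀ s, 0 < s → 8 * q * s ≤ 1 →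
    ∀ ε, 0 < ε → ε ≤ 1 → ∃ h0 : ℝ, 0 < h0 ∧ ∀ h, 0 < h → h < h0 → ∀ (L : ℕ)
      (Ω : Type) [MeasurableSpace Ω] (P : Measure Ω) [IsProbabilityMeasure P] (Gd : Set Ω)
      (Y Y' : Ω → boxS d L → ℂ) (c : boxS d L → ℂ) (lam : ℝ),
      MeasurableSet Gd → Measurable Y → Measurable Y' →
      (∀ z, VM_Law P Gd (fun ω => Y ω z) h) → (∀ z, VM_Law P Gd (fun ω => Y' ω z) h) →
      (∀ ω ∈ Gd, ∀ z, Y ω z ∈ gdC h ∧ Y' ω z ∈ gdC h) →
      (∀ z, Real.sqrt h * ‖c z‖ ≤ lam) → 0 ≤ lam → (2 + β) * lam ≤ 1 / 2 →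
      4 * lam ≤ h ^ (3 / 8 : ℝ) →
      ∀ G : (boxS d L → ℂ) × (boxS d L → ℂ),
      (∀ x, ‖G.1 x‖ ≤ rad β h ∧ ‖G.2 x‖ ≤ rad β h) → ∀ x,
      ∫⁻ ω in Gd, V1 k q s (st2 d β k h L G.1 (Y ω),
          st2 d β k h L G.2 (fun z => Y' ω z + c z)) x ∂P ≤
        ENNReal.ofReal (Real.exp (C9 * (s / ell k + s ^ 2 + s * (4 * lam / h) + ε) * h)) *
          V1 k q s G x ∧
      ∫⁻ ω in Gd, V2 k q s (st2 d β k h L G.1 (Y ω),
          st2 d β k h L G.2 (fun z => Y' ω z + c z)) x ∂P ≤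
        ENNReal.ofReal (Real.exp (C9 * (s / ell k + s ^ 2 + s * (4 * lam / h) + ε) * h)) *
          V2 k q s G x := by
  obtain ⟨q0, hq0, H⟩ := smG_step 2 d β le_rfl hβ
  refine ⟨q0, hq0, fun q hq => ?_⟩
  obtain ⟨C9, k0, hC9, hk0, hk01, H1⟩ := H q hq
  refine ⟨C9, k0, hC9, hk0, hk01, ?_⟩
  intro k hk hkk s hs hqs ε hε hε1
  obtain ⟨h1, hh1, H2⟩ := H1 k hk hkk s hs hqs
  obtain ⟨h2, hh2, H3⟩ := VM_bm hβ hε hε1
  refine ⟨min 1 (min h1 h2), lt_min one_pos (lt_min hh1 hh2), ?_⟩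
  intro h hh hhl L Ω _ P _ Gd Y Y' c lam hGd hY hY' hlY hlY' hgd hc hlam0 hlam1 hlam2 G hG x
  have h1' : h < 1 := hhl.trans_le (min_le_left _ _)
  have h2' : h < h1 := hhl.trans_le ((min_le_right _ _).trans (min_le_left _ _))
  have h3' : h < h2 := hhl.trans_le ((min_le_right _ _).trans (min_le_right _ _))
  have mb : ∀ h : ℝ, Measurable (bC h) := fun h => (Complex.measurable_re).const_mul _
  have hη0 : 0 ≤ 4 * lam / h := by positivity
  have hη1 : 4 * lam / h * h ≤ h ^ (3 / 8 : ℝ) := by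
    rw [div_mul_cancel₀ _ hh.ne']
    exact hlam2
  have mG : ∀ (F : boxS d L → ℂ) (Z : Ω → boxS d L → ℂ), Measurable Z →
      Measurable (fun ω => nrm (st2 d β k h L F (Z ω))) := by
    intro F Z hZ
    exact VM_mnrm d β k h L F Z hZ
  have hYc : Measurable fun ω => (fun z => Y' ω z + c z) :=
    measurable_pi_lambda _ fun z => ((measurable_pi_apply z).comp hY').add_const _
  have hsp : ∀ ω z, bC h (Y' ω z + c z) = bC h (Y' ω z) + Real.sqrt h * (c z).re := by
    intro ω z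
    unfold bC
    rw [Complex.add_re]
    ring
  have hcre : ∀ z, |Real.sqrt h * (c z).re| ≤ lam := by
    intro z
    rw [abs_mul, abs_of_nonneg (Real.sqrt_nonneg h)]
    exact (mul_le_mul_of_nonneg_left (Complex.abs_re_le_norm _) (Real.sqrt_nonneg h)).trans (hc z)
  have hbb : ∀ a ∈ gdC h, |bC h a| ≤ 2 * h ^ (3 / 8 : ℝ) := bnoise2.bdd h hh h1'
  have hp0 : 0 ≤ h ^ (3 / 8 : ℝ) := Real.rpow_nonneg hh.le _
  have hB1 : ∀ z, BMom 2 P Gd (fun ω => bC h (Y ω z)) (2 + β) h (4 * lam / h) ε := by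
    intro z
    have h4 := H3 h hh h3' Ω P Gd (fun ω => Y ω z) 0 lam (hlY z)
      (by rw [abs_zero]; exact hlam0) hlam1
    simpa using h4
  have hB2 : ∀ z, BMom 2 P Gd (fun ω => bC h (Y' ω z + c z)) (2 + β) h (4 * lam / h) ε := by
    intro z
    have h4 := H3 h hh h3' Ω P Gd (fun ω => Y' ω z) (Real.sqrt h * (c z).re) lam (hlY' z)
      (hcre z) hlam1
    simpa only [hsp] using h4
  have hbd : ∀ ω ∈ Gd, ∀ z, |bC h (Y ω z)| ≤ 3 * h ^ (3 / 8 : ℝ) ∧
      |bC h (Y' ω z + c z)| ≤ 3 * h ^ (3 / 8 : ℝ) := by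
    intro ω hω z
    obtain ⟨g1, g2⟩ := hgd ω hω z
    constructor
    · exact (hbb _ g1).trans (by linarith)
    · rw [hsp]
      refine (abs_add_le _ _).trans ?_
      have := hbb _ g2
      have := hcre z
      linarith
  constructor
  · exact H2 h hh h2' (boxS d L) (boxNet d L) Ω P Gd (fun ω z => bC h (Y ω z))
      (fun ω z => bC h (Y' ω z + c z)) (fun ω => nrm (st2 d β k h L G.1 (Y ω)))
      (fun ω => nrm (st2 d β k h L G.2 (fun z => Y' ω z + c z))) (nrm G.1) (nrm G.2)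
      (4 * lam / h) ε hGd
      (measurable_pi_lambda _ fun z => (mb h).comp ((measurable_pi_apply z).comp hY))
      (measurable_pi_lambda _ fun z => (mb h).comp ((measurable_pi_apply z).comp hYc))
      (mG _ _ hY) (mG _ _ hYc) hη0 hη1 hε.le hε1 hG
      (fun ω hω => ⟨st2_q d hβ hk.le hh L G.1 (Y ω),
        st2_q d hβ hk.le hh L G.2 (fun z => Y' ω z + c z), hbd ω hω⟩)
      (fun z => ⟨hB1 z, hB2 z⟩) x
  · have h5 := H2 h hh h2' (boxS d L) (boxNet d L) Ω P Gd (fun ω z => bC h (Y' ω z + c z))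
      (fun ω z => bC h (Y ω z)) (fun ω => nrm (st2 d β k h L G.2 (fun z => Y' ω z + c z)))
      (fun ω => nrm (st2 d β k h L G.1 (Y ω))) (nrm G.2) (nrm G.1)
      (4 * lam / h) ε hGd
      (measurable_pi_lambda _ fun z => (mb h).comp ((measurable_pi_apply z).comp hYc))
      (measurable_pi_lambda _ fun z => (mb h).comp ((measurable_pi_apply z).comp hY))
      (mG _ _ hYc) (mG _ _ hY) hη0 hη1 hε.le hε1 (fun y => ⟨(hG y).2, (hG y).1⟩)
      (fun ω hω => ⟨st2_q d hβ hk.le hh L G.2 (fun z => Y' ω z + c z),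
        st2_q d hβ hk.le hh L G.1 (Y ω), fun z => ⟨(hbd ω hω z).2, (hbd ω hω z).1⟩⟩)
      (fun z => ⟨hB2 z, hB1 z⟩) x
    have e1 : ∀ ω, V2 k q s (st2 d β k h L G.1 (Y ω),
          st2 d β k h L G.2 (fun z => Y' ω z + c z)) x =
        Vp (boxNet d L) k q s (nrm (st2 d β k h L G.2 (fun z => Y' ω z + c z)))
          (fun y => nrm (st2 d β k h L G.2 (fun z => Y' ω z + c z)) y +
            nrm (st2 d β k h L G.1 (Y ω)) y) x := by
      intro ω
      unfold V2
      congr 1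
      funext y
      exact add_comm _ _
    have e2 : V2 k q s G x = Vp (boxNet d L) k q s (nrm G.2) (fun y => nrm G.2 y + nrm G.1 y) x := by
      unfold V2
      congr 1
      funext y
      exact add_comm _ _
    rw [e2, lintegral_congr e1]
    exact h5

/-- the shift of the control -/
private noncomputable def VM_lam {d L : ℕ} (P : BPar d L) (j : ℕ) : ℝ :=
  if j < P.ns then P.m0 / (P.ns + 1) + P.ς * lamS P.ns j else 0

private theorem VM_lam_nn {d L : ℕ} (P : BPar d L) (hm : 0 ≤ P.m0) (hς : 0 ≤ P.ς) (j : ℕ) :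
    0 ≤ VM_lam P j := by
  unfold VM_lam
  by_cases hj : j < P.ns
  · rw [if_pos hj]
    have := (lamS_le P.ns j hj.le).1
    positivity
  · rw [if_neg hj]

private theorem VM_lam_sum {d L : ℕ} (P : BPar d L) (hm : 0 ≤ P.m0) (hς : 0 ≤ P.ς) (m : ℕ) :
    ∑ j ∈ Finset.range m, VM_lam P j ≤ P.m0 + P.ς * P.ns := by
  have h1 : ∑ j ∈ Finset.range m, VM_lam P j ≤
      ∑ j ∈ Finset.range P.ns, VM_lam P j := by
    have h2 : ∑ j ∈ Finset.range m, VM_lam P j ≤
        ∑ j ∈ Finset.range (max m P.ns), VM_lam P j :=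
      Finset.sum_le_sum_of_subset_of_nonneg (Finset.range_mono (le_max_left _ _))
        (fun i _ _ => VM_lam_nn P hm hς i)
    have h3 : ∑ j ∈ Finset.range (max m P.ns), VM_lam P j =
        ∑ j ∈ Finset.range P.ns, VM_lam P j := by
      symm
      refine Finset.sum_subset (Finset.range_mono (le_max_right _ _)) fun j _ hj => ?_
      unfold VM_lam
      rw [if_neg (fun h => hj (Finset.mem_range.2 h))]
    rw [← h3]
    exact h2
  refine h1.trans ?_
  have h2 : ∑ j ∈ Finset.range P.ns, VM_lam P j =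
      ∑ j ∈ Finset.range P.ns, (P.m0 / (P.ns + 1) + P.ς * lamS P.ns j) := by
    refine Finset.sum_congr rfl fun j hj => ?_
    unfold VM_lam
    rw [if_pos (Finset.mem_range.1 hj)]
  rw [h2, Finset.sum_add_distrib, ← Finset.mul_sum, Finset.sum_const, Finset.card_range,
    nsmul_eq_mul]
  refine add_le_add ?_ (mul_le_mul_of_nonneg_left (lamS_sum P.ns) hς)
  have h3 : (0 : ℝ) < P.ns + 1 := by positivity
  rw [mul_div_assoc', div_le_iff₀ h3]
  nlinarith

private theorem VM_log (x : ℝ) (hx : 0 < x) : Real.log x ≤ 2 * Real.sqrt x := by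
  have h1 : Real.log x = 2 * Real.log (Real.sqrt x) := by
    rw [Real.log_sqrt hx.le]
    ring
  rw [h1]
  have h2 := Real.log_le_sub_one_of_pos (Real.sqrt_pos.2 hx)
  linarith

private theorem VM_ς {d L : ℕ} {P : BPar d L} {β k h : ℝ} (hβ : 0 < β) (hk : 0 < k) (hk1 : k < 1)
    (hh : 0 < h) (hP : P.OK β k h) :
    0 ≤ P.ς ∧ P.ς ≤ h ∧ P.ς ≤ h * k ^ (min 1 β * P.κ / 8) := by
  have h1 : 0 ≤ k ^ (min 1 β * P.κ / 8) := Real.rpow_nonneg hk.le _
  have h2 : 0 ≤ k ^ (-(P.M8 + 2 * P.M6 + 4)) * P.A0 :=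
    mul_nonneg (Real.rpow_nonneg hk.le _) hP.hA
  have h3 : k ^ (min 1 β * P.κ / 8) ≤ 1 := by
    refine Real.rpow_le_one hk.le hk1.le ?_
    have h4 : 0 < min 1 β := lt_min one_pos hβ
    have h5 := hP.hκ
    positivity
  rw [hP.hς]
  refine ⟨mul_nonneg hh.le (le_min h1 h2), ?_, mul_le_mul_of_nonneg_left (min_le_left _ _) hh.le⟩
  calc h * min (k ^ (min 1 β * P.κ / 8)) (k ^ (-(P.M8 + 2 * P.M6 + 4)) * P.A0)
      ≤ h * 1 := mul_le_mul_of_nonneg_left ((min_le_left _ _).trans h3) hh.le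
    _ = h := mul_one h

private theorem VM_lam_le {d L : ℕ} {P : BPar d L} {β k h : ℝ} (hβ : 0 < β) (hk : 0 < k)
    (hk1 : k < 1) (hh : 0 < h) (hh1 : h ≤ 1) (hel : 1 ≤ ell k) (hP : P.OK β k h) (j : ℕ) :
    VM_lam P j ≤ Real.sqrt h * (ell k + 5 + 2 * Real.sqrt (ell k ^ 3 + 1)) := by
  have hsq : 0 ≤ Real.sqrt h := Real.sqrt_nonneg h
  have hsq2 : Real.sqrt h * Real.sqrt h = h := Real.mul_self_sqrt hh.le
  have hsq1 : Real.sqrt h ≤ 1 := Real.sqrt_le_one.2 hh1
  have hhs : h ≤ Real.sqrt h := by nlinarith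
  obtain ⟨hς0, hς1, _⟩ := VM_ς hβ hk hk1 hh hP
  have hS0 : 0 ≤ Real.sqrt (ell k ^ 3 + 1) := Real.sqrt_nonneg _
  unfold VM_lam
  by_cases hj : j < P.ns
  · rw [if_pos hj]
    have hn : (0 : ℝ) < P.ns + 1 := by positivity
    have h1 : P.m0 / (P.ns + 1) ≤ Real.sqrt h * (ell k + 4) := by
      have h2 : P.m0 / (P.ns + 1) ≤ P.m0 * h := by
        rw [div_le_iff₀ hn]
        have h3 := hP.hns
        have h4 : P.m0 * 1 ≤ P.m0 * (h * (P.ns + 1)) := by
          refine mul_le_mul_of_nonneg_left ?_ hP.hm0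
          nlinarith
        linarith
      have h3 : P.m0 ≤ ell k + 4 := by
        have h4 := hP.hm
        have h5 := hP.hκ1
        have h6 : P.κ / 16 * ell k ≤ 1 * ell k :=
          mul_le_mul_of_nonneg_right (by linarith) (by linarith)
        linarith
      calc P.m0 / (P.ns + 1) ≤ P.m0 * h := h2
        _ ≤ (ell k + 4) * Real.sqrt h := mul_le_mul h3 hhs hh.le (by linarith)
        _ = _ := mul_comm _ _
    have h2 : P.ς * lamS P.ns j ≤ Real.sqrt h * (1 + 2 * Real.sqrt (ell k ^ 3 + 1)) := by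
      obtain ⟨h3, h4⟩ := lamS_le P.ns j hj.le
      have h5 := VM_log (P.ns + 1) hn
      have h6 : Real.sqrt h * Real.sqrt (P.ns + 1) ≤ Real.sqrt (ell k ^ 3 + 1) := by
        rw [← Real.sqrt_mul hh.le]
        refine Real.sqrt_le_sqrt ?_
        have h7 := hP.hns1
        nlinarith
      have h7 : P.ς * lamS P.ns j ≤ h * (1 + 2 * Real.sqrt (P.ns + 1)) :=
        mul_le_mul hς1 (by linarith) h3 hh.le
      refine h7.trans ?_
      have h8 : h * (1 + 2 * Real.sqrt (P.ns + 1)) =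
          h + 2 * (Real.sqrt h * (Real.sqrt h * Real.sqrt (P.ns + 1))) := by
        have h9 : Real.sqrt h * (Real.sqrt h * Real.sqrt (P.ns + 1)) =
            (Real.sqrt h * Real.sqrt h) * Real.sqrt (P.ns + 1) := by ring
        rw [h9, hsq2]
        ring
      rw [h8]
      have h9 := mul_le_mul_of_nonneg_left h6 hsq
      linarith
    linarith
  · rw [if_neg hj]
    positivity

open Filter Topology in
private theorem VM_ev {P : ℝ → Prop} (h : ∀ᶠ x in 𝓝[>] (0 : ℝ), P x) :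
    ∃ x0 : ℝ, 0 < x0 ∧ ∀ x, 0 < x → x < x0 → P x := by
  obtain ⟨u, hu, hs⟩ := mem_nhdsGT_iff_exists_Ioo_subset.1 h
  exact ⟨u, hu, fun x h1 h2 => hs ⟨h1, h2⟩⟩

open Filter Topology in
private theorem VM_pw (C : ℝ) {a δ : ℝ} (ha : 0 < a) (hδ : 0 < δ) :
    ∀ᶠ x in 𝓝[>] (0 : ℝ), C * x ^ a ≤ δ := by
  have h1 : Tendsto (fun x : ℝ => C * x ^ a) (𝓝[>] 0) (𝓝 (C * 0)) := by
    refine Tendsto.const_mul C ?_
    have h2 : ContinuousAt (fun x : ℝ => x ^ a) 0 := Real.continuousAt_rpow_const 0 a (Or.inr ha.le)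
    have h3 := h2.tendsto
    rw [Real.zero_rpow ha.ne'] at h3
    exact h3.mono_left nhdsWithin_le_nhds
  rw [mul_zero] at h1
  exact (h1.eventually (gt_mem_nhds hδ)).mono fun x hx => hx.le

open Filter Topology in
private theorem VM_ell (C : ℝ) : ∀ᶠ k in 𝓝[>] (0 : ℝ), C ≤ ell k := by
  have h1 : Tendsto (fun k : ℝ => -Real.log k) (𝓝[>] 0) atTop :=
    tendsto_neg_atBot_atTop.comp Real.tendsto_log_nhdsGT_zero
  refine (h1.eventually_ge_atTop C).mono fun k hk => ?_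
  unfold ell
  rw [one_div, Real.log_inv]
  exact hk

open Filter Topology in
private theorem VM_powell {a δ : ℝ} (ha : 0 < a) (hδ : 0 < δ) :
    ∀ᶠ k in 𝓝[>] (0 : ℝ), k ^ a * ell k ≤ δ := by
  have h1 : Tendsto (fun k : ℝ => -1 * (Real.log k * k ^ a)) (𝓝[>] 0) (𝓝 (-1 * 0)) :=
    (tendsto_log_mul_rpow_nhdsGT_zero ha).const_mul (-1)
  rw [mul_zero] at h1
  refine (h1.eventually (gt_mem_nhds hδ)).mono fun k hk => ?_
  unfold ell
  rw [one_div, Real.log_inv]
  refine le_trans (le_of_eq ?_) hk.le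
  ring

private theorem VM_hs (K β : ℝ) : ∃ h0 : ℝ, 0 < h0 ∧
    ∀ h, 0 < h → h < h0 → (2 + β) * (Real.sqrt h * K) ≤ 1 / 2 ∧
      4 * (Real.sqrt h * K) ≤ h ^ (3 / 8 : ℝ) := by
  obtain ⟨h0, hh0, H⟩ := VM_ev ((VM_pw ((2 + β) * K) (a := 1 / 2) (δ := 1 / 2)
    (by norm_num) (by norm_num)).and (VM_pw (4 * K) (a := 1 / 8) (δ := 1)
    (by norm_num) (by norm_num)))
  refine ⟨h0, hh0, fun h hh hhl => ?_⟩
  obtain ⟨h1, h2⟩ := H h hh hhl
  constructor
  · rw [Real.sqrt_eq_rpow]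
    linarith
  · have h3 : h ^ (1 / 2 : ℝ) = h ^ (1 / 8 : ℝ) * h ^ (3 / 8 : ℝ) := by
      rw [← Real.rpow_add hh]
      norm_num
    rw [Real.sqrt_eq_rpow, h3]
    have h4 := mul_le_mul_of_nonneg_right h2 (Real.rpow_nonneg hh.le (3 / 8 : ℝ))
    linarith

theorem vm_ctl (d : ℕ) (β : ℝ) (hβ : 0 < β) : ∃ q0 : ℝ, 1 ≤ q0 ∧ ∀ q, q0 ≤ q →
    ∃ C : ℝ, 1 ≤ C ∧ ∀ κ : ℝ, 0 < κ → ∃ k0 : ℝ, 0 < k0 ∧ k0 < 1 ∧ ∀ k, 0 < k → k < k0 →
    ∀ s, 0 < s → s ≤ 4 / ell k →
    8 * q * s ≤ 1 → ∀ L : ℕ, ∃ h0 : ℝ, 0 < h0 ∧ ∀ h, 0 < h → h < h0 →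
    ∀ (P : BPar d L), P.OK β k h → P.κ = κ → ∀ (G : (boxS d L → ℂ) × (boxS d L → ℂ)) (m : ℕ),
      m * h ≤ 8 * ell k ^ 2 → ∀ x,
      ∫⁻ ω in alvC P β k h G m, V1 k q s (trajT (P.bst β k h) G ω m) x
          ∂(PI (Measure.pi fun _ : boxS d L => gC)) ≤ ENNReal.ofReal C * V1 k q s G x ∧
      ∫⁻ ω in alvC P β k h G m, V2 k q s (trajT (P.bst β k h) G ω m) x
          ∂(PI (Measure.pi fun _ : boxS d L => gC)) ≤ ENNReal.ofReal C * V2 k q s G x := by
  obtain ⟨q0, hq0, H⟩ := VM_step d β hβ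
  refine ⟨q0, hq0, fun q hq => ?_⟩
  obtain ⟨C9, k1, hC9, hk1, hk11, H1⟩ := H q hq
  refine ⟨Real.exp (264 * C9), Real.one_le_exp (by positivity), fun κ hκ => ?_⟩
  set κ' : ℝ := min 1 β * κ / 8 with hκ'
  have hκ'0 : 0 < κ' := by
    have : 0 < min 1 β := lt_min one_pos hβ
    positivity
  obtain ⟨k2, hk2, H2⟩ := VM_ev ((VM_ell 1).and (VM_powell (a := κ' / 3) (δ := 1)
    (by positivity) one_pos))
  refine ⟨min k1 k2, lt_min hk1 hk2, lt_of_le_of_lt (min_le_left _ _) hk11, ?_⟩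
  intro k hk hkk s hs hse hqs L
  have hk1' : k < k1 := hkk.trans_le (min_le_left _ _)
  have hk01 : k < 1 := hk1'.trans hk11
  obtain ⟨hel, hkl⟩ := H2 k hk (hkk.trans_le (min_le_right _ _))
  have hel0 : 0 < ell k := by linarith
  have hkl3 : k ^ κ' * ell k ^ 3 ≤ 1 := by
    have h1 : k ^ κ' = (k ^ (κ' / 3)) ^ 3 := by
      rw [← Real.rpow_natCast, ← Real.rpow_mul hk.le]
      congr 1
      push_cast
      ring
    rw [h1, ← mul_pow]
    exact pow_le_one₀ (mul_nonneg (Real.rpow_nonneg hk.le _) hel0.le) hkl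
  have hε : 0 < 1 / ell k ^ 2 := by positivity
  have hε1 : 1 / ell k ^ 2 ≤ 1 := by
    rw [div_le_one (by positivity)]
    nlinarith
  set K : ℝ := ell k + 5 + 2 * Real.sqrt (ell k ^ 3 + 1) with hK
  have hK0 : 0 < K := by positivity
  obtain ⟨h1, hh1, H3⟩ := H1 k hk hk1' s hs hqs (1 / ell k ^ 2) hε hε1
  obtain ⟨h2, hh2, H4⟩ := VM_hs K β
  obtain ⟨h3, hh3, H5⟩ := VM_law1 d L
  refine ⟨min 1 (min h1 (min h2 h3)), lt_min one_pos (lt_min hh1 (lt_min hh2 hh3)), ?_⟩
  intro h hh hhl P hP hPκ G m hm x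
  have hh1' : h < 1 := hhl.trans_le (min_le_left _ _)
  have hhr := hhl.trans_le (min_le_right _ _)
  have hhh1 : h < h1 := hhr.trans_le (min_le_left _ _)
  have hhr2 := hhr.trans_le (min_le_right _ _)
  have hhh2 : h < h2 := hhr2.trans_le (min_le_left _ _)
  have hhh3 : h < h3 := hhr2.trans_le (min_le_right _ _)
  obtain ⟨hς0, hς1, hς2⟩ := VM_ς hβ hk hk01 hh hP
  obtain ⟨hs1, hs2⟩ := H4 h hh hhh2
  have hlam : ∀ j, 0 ≤ VM_lam P j ∧ (2 + β) * VM_lam P j ≤ 1 / 2 ∧
      4 * VM_lam P j ≤ h ^ (3 / 8 : ℝ) := by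
    intro j
    have h4 := VM_lam_le hβ hk hk01 hh hh1'.le hel hP j
    refine ⟨VM_lam_nn P hP.hm0 hς0 j, ?_, ?_⟩
    · exact (mul_le_mul_of_nonneg_left h4 (by linarith)).trans hs1
    · exact (mul_le_mul_of_nonneg_left h4 (by norm_num)).trans hs2
  set a : ℕ → ℝ := fun j => C9 * (s / ell k + s ^ 2 + s * (4 * VM_lam P j / h) + 1 / ell k ^ 2) * h
    with ha
  have hsum : ∑ j ∈ Finset.range m, a j ≤ 264 * C9 := by
    have h4 : ∀ j, a j = C9 * ((s / ell k + s ^ 2 + 1 / ell k ^ 2) * h) +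
        C9 * (4 * s) * VM_lam P j := by
      intro j
      rw [ha]
      field_simp
      ring
    simp_rw [h4]
    rw [Finset.sum_add_distrib, Finset.sum_const, Finset.card_range, nsmul_eq_mul,
      ← Finset.mul_sum]
    have h5 := VM_lam_sum P hP.hm0 hς0 m
    have h6 : P.m0 + P.ς * P.ns ≤ 6 * ell k := by
      have h7 : P.ς * P.ns ≤ 1 := by
        calc P.ς * P.ns ≤ h * k ^ (min 1 β * P.κ / 8) * P.ns :=
              mul_le_mul_of_nonneg_right hς2 (Nat.cast_nonneg _)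
          _ = k ^ κ' * (P.ns * h) := by
              rw [hPκ]
              ring
          _ ≤ k ^ κ' * ell k ^ 3 :=
              mul_le_mul_of_nonneg_left hP.hns1 (Real.rpow_nonneg hk.le _)
          _ ≤ 1 := hkl3
      have h8 := hP.hm
      have h9 := hP.hκ1
      have h10 : P.κ / 16 * ell k ≤ 1 * ell k :=
        mul_le_mul_of_nonneg_right (by linarith) hel0.le
      linarith
    have hse' : s * ell k ≤ 4 := by
      rw [le_div_iff₀ hel0] at hse
      exact hse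
    have h11 : C9 * (4 * s) * ∑ j ∈ Finset.range m, VM_lam P j ≤ 96 * C9 := by
      calc C9 * (4 * s) * ∑ j ∈ Finset.range m, VM_lam P j
          ≤ C9 * (4 * s) * (6 * ell k) :=
            mul_le_mul_of_nonneg_left (h5.trans h6) (by positivity)
        _ = C9 * 24 * (s * ell k) := by ring
        _ ≤ C9 * 24 * 4 := mul_le_mul_of_nonneg_left hse' (by positivity)
        _ = 96 * C9 := by ring
    have h12 : (m : ℝ) * (C9 * ((s / ell k + s ^ 2 + 1 / ell k ^ 2) * h)) ≤ 168 * C9 := by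
      have h13 : s / ell k + s ^ 2 + 1 / ell k ^ 2 ≤ 21 / ell k ^ 2 := by
        rw [le_div_iff₀ (by positivity)]
        have h14 : (s / ell k + s ^ 2 + 1 / ell k ^ 2) * ell k ^ 2 =
            s * ell k + (s * ell k) ^ 2 + 1 := by
          field_simp
        rw [h14]
        have h15 : 0 ≤ s * ell k := by positivity
        nlinarith
      calc (m : ℝ) * (C9 * ((s / ell k + s ^ 2 + 1 / ell k ^ 2) * h))
          = C9 * (s / ell k + s ^ 2 + 1 / ell k ^ 2) * (m * h) := by ring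
        _ ≤ C9 * (21 / ell k ^ 2) * (8 * ell k ^ 2) := by
            refine mul_le_mul (mul_le_mul_of_nonneg_left h13 hC9.le) hm (by positivity)
              (by positivity)
        _ = 168 * C9 := by
            field_simp
            ring
    linarith
  have hexp : ENNReal.ofReal (Real.exp (∑ j ∈ Finset.range m, a j)) ≤
      ENNReal.ofReal (Real.exp (264 * C9)) :=
    ENNReal.ofReal_le_ofReal (Real.exp_le_exp.2 hsum)
  have hmg : MeasurableSet {ξ : boxS d L → ℂ | ∀ x, ξ x ∈ gdC h} := by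
    have e : {ξ : boxS d L → ℂ | ∀ x, ξ x ∈ gdC h} = ⋂ x : boxS d L, {ξ | ξ x ∈ gdC h} := by
      ext ξ
      simp
    rw [e]
    exact MeasurableSet.iInter fun x => (VM_mgd h).preimage (measurable_pi_apply x)
  have hst : ∀ j, ∀ G : (boxS d L → ℂ) × (boxS d L → ℂ),
      (∀ x, ‖G.1 x‖ ≤ rad β h ∧ ‖G.2 x‖ ≤ rad β h) →
      ∫⁻ ξ in {ξ : boxS d L → ℂ | ∀ x, ξ x ∈ gdC h}, V1 k q s (P.bst β k h j G ξ) x
        ∂(Measure.pi fun _ : boxS d L => gC) ≤
        ENNReal.ofReal (Real.exp (a j)) * V1 k q s G x ∧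
      ∫⁻ ξ in {ξ : boxS d L → ℂ | ∀ x, ξ x ∈ gdC h}, V2 k q s (P.bst β k h j G ξ) x
        ∂(Measure.pi fun _ : boxS d L => gC) ≤
        ENNReal.ofReal (Real.exp (a j)) * V2 k q s G x := by
    intro j G hG
    exact H3 h hh hhh1 L (boxS d L → ℂ) (Measure.pi fun _ : boxS d L => gC)
      {ξ : boxS d L → ℂ | ∀ x, ξ x ∈ gdC h} (fun ξ => ξ) (fun ξ => ξ) (P.ctl k h j G)
      (VM_lam P j) hmg measurable_id measurable_id (H5 h hh hhh3) (H5 h hh hhh3)
      (fun ω hω z => ⟨hω z, hω z⟩)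
      (fun z => ctl_le P k h hh hP.hm0 hς0 j G z) (hlam j).1 (hlam j).2.1 (hlam j).2.2 G hG x
  constructor
  · refine (VM_iter (Measure.pi fun _ : boxS d L => gC) β h (P.bst β k h)
      (fun j => measurable_bst P β k h j) _ hmg (fun G => V1 k q s G x)
      (measurable_V k q s x).1 a m (fun j G hG => (hst j G hG).1) G).trans ?_
    gcongr
  · refine (VM_iter (Measure.pi fun _ : boxS d L => gC) β h (P.bst β k h)
      (fun j => measurable_bst P β k h j) _ hmg (fun G => V2 k q s G x)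
      (measurable_V k q s x).2 a m (fun j G hG => (hst j G hG).2) G).trans ?_
    gcongr

private theorem VM_res_iter (d : ℕ) (β k h : ℝ) (L : ℕ) (Bs : boxS d L → Prop) (ns : ℕ)
    (Φ : ((boxS d L → ℂ) × (boxS d L → ℂ)) → ℝ≥0∞) (hΦ : Measurable Φ) (a : ℕ → ℝ) (m : ℕ)
    (hstep : ∀ j, ∀ G : (boxS d L → ℂ) × (boxS d L → ℂ),
      (∀ x, ‖G.1 x‖ ≤ rad β h ∧ ‖G.2 x‖ ≤ rad β h) →
      ∫⁻ ξ in {p : (boxS d L → ℂ) × (boxS d L → ℂ) |
          (∀ x, p.1 x ∈ gdC h) ∧ ∀ x, p.2 x ∈ gdC h}, Φ (rst d β k h L Bs ns j G ξ)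
        ∂((Measure.pi fun _ : boxS d L => gC).prod (Measure.pi fun _ : boxS d L => gC)) ≤
        ENNReal.ofReal (Real.exp (a j)) * Φ G)
    (G : boxS d L → ℂ) :
    ∫⁻ p in alvR d β k h L Bs ns G m,
        Φ (traj (st2 d β k h L) G p.1 m, traj (st2 d β k h L) G (res Bs ns p.1 p.2) m)
        ∂((PI (Measure.pi fun _ : boxS d L => gC)).prod
          (PI (Measure.pi fun _ : boxS d L => gC))) ≤
      ENNReal.ofReal (Real.exp (∑ j ∈ Finset.range m, a j)) * Φ (G, G) := by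
  have ht : Measurable fun ω : ℕ → boxS d L → ℂ => traj (st2 d β k h L) G ω m :=
    (measurable_traj (st2 d β k h L) (measurable_st2 d β k h L) m).comp
      (measurable_const.prodMk measurable_id)
  have hr : Measurable fun p : (ℕ → boxS d L → ℂ) × (ℕ → boxS d L → ℂ) =>
      res Bs ns p.1 p.2 := measurable_res Bs ns
  have hpair : Measurable fun p : (ℕ → boxS d L → ℂ) × (ℕ → boxS d L → ℂ) =>
      (traj (st2 d β k h L) G p.1 m, traj (st2 d β k h L) G (res Bs ns p.1 p.2) m) :=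
    (ht.comp measurable_fst).prodMk (ht.comp hr)
  have hf : Measurable fun p : (ℕ → boxS d L → ℂ) × (ℕ → boxS d L → ℂ) =>
      Φ (traj (st2 d β k h L) G p.1 m, traj (st2 d β k h L) G (res Bs ns p.1 p.2) m) :=
    hΦ.comp hpair
  have hS := measurableSet_alvR d β k h L Bs ns G m
  have hfS := hf.indicator hS
  rw [← lintegral_indicator hS, lintegral_prod _ hfS.aemeasurable,
    PI_prod (Measure.pi fun _ : boxS d L => gC) (Measure.pi fun _ : boxS d L => gC)
      (fun ω ω' => (alvR d β k h L Bs ns G m).indicator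
        (fun p : (ℕ → boxS d L → ℂ) × (ℕ → boxS d L → ℂ) =>
          Φ (traj (st2 d β k h L) G p.1 m, traj (st2 d β k h L) G (res Bs ns p.1 p.2) m))
        (ω, ω')) hfS]
  have hmg : MeasurableSet {p : (boxS d L → ℂ) × (boxS d L → ℂ) |
      (∀ x, p.1 x ∈ gdC h) ∧ ∀ x, p.2 x ∈ gdC h} := by
    have e : {p : (boxS d L → ℂ) × (boxS d L → ℂ) |
        (∀ x, p.1 x ∈ gdC h) ∧ ∀ x, p.2 x ∈ gdC h} =
        (⋂ x : boxS d L, {p | p.1 x ∈ gdC h}) ∩ ⋂ x : boxS d L, {p | p.2 x ∈ gdC h} := by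
      ext ξ
      simp
    rw [e]
    refine (MeasurableSet.iInter fun x => ?_).inter (MeasurableSet.iInter fun x => ?_)
    · exact (VM_mgd h).preimage ((measurable_pi_apply x).comp measurable_fst)
    · exact (VM_mgd h).preimage ((measurable_pi_apply x).comp measurable_snd)
  have hmr : ∀ j, Measurable fun p : ((boxS d L → ℂ) × (boxS d L → ℂ)) ×
      ((boxS d L → ℂ) × (boxS d L → ℂ)) => rst d β k h L Bs ns j p.1 p.2 := by
    intro j
    have a1 : Measurable fun p : ((boxS d L → ℂ) × (boxS d L → ℂ)) ×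
        ((boxS d L → ℂ) × (boxS d L → ℂ)) => (p.1.1, p.2.1) :=
      (measurable_fst.comp measurable_fst).prodMk (measurable_fst.comp measurable_snd)
    have a2 : Measurable fun p : ((boxS d L → ℂ) × (boxS d L → ℂ)) ×
        ((boxS d L → ℂ) × (boxS d L → ℂ)) =>
        (fun z => open Classical in if j < ns ∧ Bs z then p.2.2 z else p.2.1 z :
          boxS d L → ℂ) := by
      refine measurable_pi_lambda _ fun z => ?_
      by_cases hc : j < ns ∧ Bs z
      · simp only [if_pos hc]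
        exact (measurable_pi_apply z).comp (measurable_snd.comp measurable_snd)
      · simp only [if_neg hc]
        exact (measurable_pi_apply z).comp (measurable_fst.comp measurable_snd)
    have a3 : Measurable fun p : ((boxS d L → ℂ) × (boxS d L → ℂ)) ×
        ((boxS d L → ℂ) × (boxS d L → ℂ)) => (p.1.2,
        (fun z => open Classical in if j < ns ∧ Bs z then p.2.2 z else p.2.1 z :
          boxS d L → ℂ)) := (measurable_snd.comp measurable_fst).prodMk a2
    have c1 := (measurable_st2 d β k h L).comp a1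
    have c2 := (measurable_st2 d β k h L).comp a3
    exact c1.prodMk c2
  have key := VM_iter ((Measure.pi fun _ : boxS d L => gC).prod
    (Measure.pi fun _ : boxS d L => gC)) β h (rst d β k h L Bs ns) hmr _ hmg Φ hΦ a m hstep (G, G)
  refine le_trans ?_ key
  refine le_trans (lintegral_mono ?_) (lintegral_indicator_le _ _)
  intro p
  have hrt : ∀ n, trajT (rst d β k h L Bs ns) (G, G) p n =
      (traj (st2 d β k h L) G (fun j => (p j).1) n,
        traj (st2 d β k h L) G (res Bs ns (fun j => (p j).1) (fun j => (p j).2)) n) :=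
    fun n => rst_traj d β k h L Bs ns (G, G) (fun j => (p j).1) (fun j => (p j).2) n
  beta_reduce
  by_cases hp : ((fun j => (p j).1, fun j => (p j).2) :
      (ℕ → boxS d L → ℂ) × (ℕ → boxS d L → ℂ)) ∈ alvR d β k h L Bs ns G m
  · rw [Set.indicator_of_mem hp, Set.indicator_of_mem]
    · rw [hrt m]
    · refine ⟨fun j hj => ⟨fun x => (hp.1 j hj x).1, fun x => (hp.1 j hj x).2⟩, ?_⟩
      intro j hj x
      rw [hrt j]
      exact hp.2 j hj x
  · rw [Set.indicator_of_notMem hp]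
    exact zero_le

theorem vm_res (d : ℕ) (β : ℝ) (hβ : 0 < β) : ∃ q0 : ℝ, 1 ≤ q0 ∧ ∀ q, q0 ≤ q →
    ∃ C k0 : ℝ, 1 ≤ C ∧ 0 < k0 ∧ k0 < 1 ∧ ∀ k, 0 < k → k < k0 → ∀ s, 0 < s → s ≤ 4 / ell k →
    8 * q * s ≤ 1 → ∀ L : ℕ, ∃ h0 : ℝ, 0 < h0 ∧ ∀ h, 0 < h → h < h0 →
    ∀ (Bs : boxS d L → Prop) (ns : ℕ) (G : boxS d L → ℂ) (m : ℕ), m * h ≤ 8 * ell k ^ 2 → ∀ x,
      ∫⁻ p in alvR d β k h L Bs ns G m,
          (V1 k q s (traj (st2 d β k h L) G p.1 m, traj (st2 d β k h L) G (res Bs ns p.1 p.2) m) x +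
          V2 k q s (traj (st2 d β k h L) G p.1 m, traj (st2 d β k h L) G (res Bs ns p.1 p.2) m) x)
          ∂((PI (Measure.pi fun _ : boxS d L => gC)).prod
            (PI (Measure.pi fun _ : boxS d L => gC))) ≤
        ENNReal.ofReal C * V1 k q s (G, G) x := by
  obtain ⟨q0, hq0, H⟩ := VM_step d β hβ
  refine ⟨q0, hq0, fun q hq => ?_⟩
  obtain ⟨C9, k1, hC9, hk1, hk11, H1⟩ := H q hq
  obtain ⟨k2, hk2, H2⟩ := VM_ev (VM_ell 1)
  refine ⟨2 * Real.exp (168 * C9), min k1 k2, ?_, lt_min hk1 hk2,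
    lt_of_le_of_lt (min_le_left _ _) hk11, ?_⟩
  · have := Real.one_le_exp (x := 168 * C9) (by positivity)
    linarith
  intro k hk hkk s hs hse hqs L
  have hk1' : k < k1 := hkk.trans_le (min_le_left _ _)
  have hel := H2 k hk (hkk.trans_le (min_le_right _ _))
  have hel0 : 0 < ell k := by linarith
  have hε : 0 < 1 / ell k ^ 2 := by positivity
  have hε1 : 1 / ell k ^ 2 ≤ 1 := by
    rw [div_le_one (by positivity)]
    nlinarith
  obtain ⟨h1, hh1, H3⟩ := H1 k hk hk1' s hs hqs (1 / ell k ^ 2) hε hε1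
  obtain ⟨h3, hh3, H5⟩ := VM_law2 d L
  refine ⟨min h1 h3, lt_min hh1 hh3, ?_⟩
  intro h hh hhl Bs ns G m hm x
  have hhh1 : h < h1 := hhl.trans_le (min_le_left _ _)
  have hhh3 : h < h3 := hhl.trans_le (min_le_right _ _)
  set a : ℕ → ℝ := fun _ => C9 * (s / ell k + s ^ 2 + s * (4 * 0 / h) + 1 / ell k ^ 2) * h
    with ha
  have hsum : ∑ j ∈ Finset.range m, a j ≤ 168 * C9 := by
    rw [ha, Finset.sum_const, Finset.card_range, nsmul_eq_mul]
    have hse' : s * ell k ≤ 4 := by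
      rw [le_div_iff₀ hel0] at hse
      exact hse
    have h13 : s / ell k + s ^ 2 + 1 / ell k ^ 2 ≤ 21 / ell k ^ 2 := by
      rw [le_div_iff₀ (by positivity)]
      have h14 : (s / ell k + s ^ 2 + 1 / ell k ^ 2) * ell k ^ 2 =
          s * ell k + (s * ell k) ^ 2 + 1 := by
        field_simp
      rw [h14]
      have h15 : 0 ≤ s * ell k := by positivity
      nlinarith
    calc (m : ℝ) * (C9 * (s / ell k + s ^ 2 + s * (4 * 0 / h) + 1 / ell k ^ 2) * h)
        = C9 * (s / ell k + s ^ 2 + 1 / ell k ^ 2) * (m * h) := by ring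
      _ ≤ C9 * (21 / ell k ^ 2) * (8 * ell k ^ 2) := by
          refine mul_le_mul (mul_le_mul_of_nonneg_left h13 hC9.le) hm (by positivity)
            (by positivity)
      _ = 168 * C9 := by
          field_simp
          ring
  have hmg : MeasurableSet {p : (boxS d L → ℂ) × (boxS d L → ℂ) |
      (∀ x, p.1 x ∈ gdC h) ∧ ∀ x, p.2 x ∈ gdC h} := by
    have e : {p : (boxS d L → ℂ) × (boxS d L → ℂ) |
        (∀ x, p.1 x ∈ gdC h) ∧ ∀ x, p.2 x ∈ gdC h} =
        (⋂ x : boxS d L, {p | p.1 x ∈ gdC h}) ∩ ⋂ x : boxS d L, {p | p.2 x ∈ gdC h} := by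
      ext ξ
      simp
    rw [e]
    refine (MeasurableSet.iInter fun x => ?_).inter (MeasurableSet.iInter fun x => ?_)
    · exact (VM_mgd h).preimage ((measurable_pi_apply x).comp measurable_fst)
    · exact (VM_mgd h).preimage ((measurable_pi_apply x).comp measurable_snd)
  have hst : ∀ j, ∀ G : (boxS d L → ℂ) × (boxS d L → ℂ),
      (∀ x, ‖G.1 x‖ ≤ rad β h ∧ ‖G.2 x‖ ≤ rad β h) →
      ∫⁻ ξ in {p : (boxS d L → ℂ) × (boxS d L → ℂ) |
          (∀ x, p.1 x ∈ gdC h) ∧ ∀ x, p.2 x ∈ gdC h},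
          V1 k q s (rst d β k h L Bs ns j G ξ) x
        ∂((Measure.pi fun _ : boxS d L => gC).prod (Measure.pi fun _ : boxS d L => gC)) ≤
        ENNReal.ofReal (Real.exp (a j)) * V1 k q s G x ∧
      ∫⁻ ξ in {p : (boxS d L → ℂ) × (boxS d L → ℂ) |
          (∀ x, p.1 x ∈ gdC h) ∧ ∀ x, p.2 x ∈ gdC h},
          V2 k q s (rst d β k h L Bs ns j G ξ) x
        ∂((Measure.pi fun _ : boxS d L => gC).prod (Measure.pi fun _ : boxS d L => gC)) ≤
        ENNReal.ofReal (Real.exp (a j)) * V2 k q s G x := by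
    intro j G hG
    have hY' : Measurable fun p : (boxS d L → ℂ) × (boxS d L → ℂ) =>
        (fun z => open Classical in if j < ns ∧ Bs z then p.2 z else p.1 z : boxS d L → ℂ) := by
      refine measurable_pi_lambda _ fun z => ?_
      by_cases hc : j < ns ∧ Bs z
      · simp only [if_pos hc]
        exact (measurable_pi_apply z).comp measurable_snd
      · simp only [if_neg hc]
        exact (measurable_pi_apply z).comp measurable_fst
    have hlY' : ∀ z : boxS d L, VM_Law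
        ((Measure.pi fun _ : boxS d L => gC).prod (Measure.pi fun _ : boxS d L => gC))
        {p : (boxS d L → ℂ) × (boxS d L → ℂ) | (∀ x, p.1 x ∈ gdC h) ∧ ∀ x, p.2 x ∈ gdC h}
        (fun p => (fun z => open Classical in if j < ns ∧ Bs z then p.2 z else p.1 z :
          boxS d L → ℂ) z) h := by
      intro z
      by_cases hc : j < ns ∧ Bs z
      · simp only [if_pos hc]
        exact (H5 h hh hhh3 z).2
      · simp only [if_neg hc]
        exact (H5 h hh hhh3 z).1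
    have h6 := H3 h hh hhh1 L ((boxS d L → ℂ) × (boxS d L → ℂ))
      ((Measure.pi fun _ : boxS d L => gC).prod (Measure.pi fun _ : boxS d L => gC))
      {p : (boxS d L → ℂ) × (boxS d L → ℂ) | (∀ x, p.1 x ∈ gdC h) ∧ ∀ x, p.2 x ∈ gdC h}
      (fun p => p.1)
      (fun p => (fun z => open Classical in if j < ns ∧ Bs z then p.2 z else p.1 z :
          boxS d L → ℂ)) (fun _ => 0) 0 hmg measurable_fst hY'
      (fun z => (H5 h hh hhh3 z).1) hlY' ?_ (fun z => by simp) le_rfl (by norm_num)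
      (by rw [mul_zero]; exact Real.rpow_nonneg hh.le _) G hG x
    · simp only [add_zero] at h6
      exact h6
    · intro p hp z
      refine ⟨hp.1 z, ?_⟩
      by_cases hc : j < ns ∧ Bs z
      · simp only [if_pos hc]
        exact hp.2 z
      · simp only [if_neg hc]
        exact hp.1 z
  have mV := measurable_V (V := ℂ) k q s x
  have ht : Measurable fun ω : ℕ → boxS d L → ℂ => traj (st2 d β k h L) G ω m :=
    (measurable_traj (st2 d β k h L) (measurable_st2 d β k h L) m).comp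
      (measurable_const.prodMk measurable_id)
  have hr : Measurable fun p : (ℕ → boxS d L → ℂ) × (ℕ → boxS d L → ℂ) =>
      res Bs ns p.1 p.2 := measurable_res Bs ns
  have hpair : Measurable fun p : (ℕ → boxS d L → ℂ) × (ℕ → boxS d L → ℂ) =>
      (traj (st2 d β k h L) G p.1 m, traj (st2 d β k h L) G (res Bs ns p.1 p.2) m) :=
    (ht.comp measurable_fst).prodMk (ht.comp hr)
  have r1 := VM_res_iter d β k h L Bs ns (fun Z => V1 k q s Z x) mV.1 a m
    (fun j G hG => (hst j G hG).1) G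
  have r2 := VM_res_iter d β k h L Bs ns (fun Z => V2 k q s Z x) mV.2 a m
    (fun j G hG => (hst j G hG).2) G
  have e2 : V2 k q s (G, G) x = V1 k q s (G, G) x := rfl
  have hV1 : Measurable fun p : (ℕ → boxS d L → ℂ) × (ℕ → boxS d L → ℂ) =>
      V1 k q s (traj (st2 d β k h L) G p.1 m, traj (st2 d β k h L) G (res Bs ns p.1 p.2) m) x :=
    mV.1.comp hpair
  rw [lintegral_add_left hV1]
  refine (add_le_add r1 r2).trans ?_
  have hexp : ENNReal.ofReal (Real.exp (∑ j ∈ Finset.range m, a j)) ≤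
      ENNReal.ofReal (Real.exp (168 * C9)) :=
    ENNReal.ofReal_le_ofReal (Real.exp_le_exp.2 hsum)
  calc ENNReal.ofReal (Real.exp (∑ j ∈ Finset.range m, a j)) * V1 k q s (G, G) x +
      ENNReal.ofReal (Real.exp (∑ j ∈ Finset.range m, a j)) * V2 k q s (G, G) x
      ≤ ENNReal.ofReal (Real.exp (168 * C9)) * V1 k q s (G, G) x +
        ENNReal.ofReal (Real.exp (168 * C9)) * V1 k q s (G, G) x := by
        rw [e2]
        gcongr
    _ = ENNReal.ofReal (2 * Real.exp (168 * C9)) * V1 k q s (G, G) x := by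
        rw [ENNReal.ofReal_mul (by norm_num), ENNReal.ofReal_ofNat]
        ring

end DynC

end
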