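import Pool.Agent.Lib_MP_36b788_m.M23
import Pool.Agent.Lib_MP_36b788_m.M34
import Pool.Agent.Lib_MP_36b788_m.M44
import Pool.Agent.Lib_MP_36b788_m.M46

/-!
# MP_36b788_pr, stationary limit: merged library part M47

Concatenation of smaller files (each in its own section), only to save build time.
-/

/-! ### from `Lib_MP_36b788c.BrB` -/

section

/-!
# The bridge at the level of states: cost of the shift

PROOF of `brB`. `P = bpar β k h κ κd M6 M8 A0 ns Rb y`, `v = P.vct β k h G`, `Φ ω = f (traj (st2 ..) G.2 ω m)`. `tilt_bd2` with `Bs = P.Bs`, `Q = P.En h` (`energy`), `T1 ω ω' = T1f` and `T2 = T2f` (from `WprM.lean`) on `Ω = noise × noise`, `H p = (traj G.2 p.1 m, traj G.2 (res Bs ns p.1 p.2) m)`, `Al = alvR ..`, `Db = DbR ..` (`res_dif`), `pair_pt`; `t1_bd` on the product measure (Tonelli).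
* `(∫_Al wpr(H)(x)^4)^{1/4} ≤ C wpr(G.2, G.2)(x) ≤ 4 C wpr(G.1, G.2)(x)`: `wpr_mom`, `vm_res` (exponent `4s`), `wpr_dup`.
* `(∫ DbR^4)^{1/4} ≤ C (2Rb+1)^d e^{C a(1+Rb)} exp(-(3/4) a max(dist - Rb, 0))`, and `-(3/4) max(dist - Rb,0) ≤ -(7/16) dist + (3/4) Rb`.
* `√(e^Q - 1) ≤ √(2Q)` for `Q ≤ 1`. `Q = (2Rb+1)^d (2 m0²/((ns+1)h) + 40 ς² ns/h)`, `ns h ≥ sw ell²`, `ns h ≤ 2 sw ell²`: `m0/ell ≤ 2κd` (`ell ≥ 4/κd`) and `m0/ell ≤ k^{-(M8+M6)} A0`, so `m0/ell ≤ (2κd)^{1-θ}(k^{-(M8+M6)}A0)^θ ≤ 4 κd e^{a(M8+M6)} A0^θ` (`(2κd)^{-θ} ≤ 2` for small `k`); `ell ς/h ≤ (ell k^{κ'})^{1-θ}(ell k^{-(M8+2M6+4)} A0)^θ ≤ κd e^{a(M8+2M6+5)} A0^θ` for small `k` (`κ' = min 1 β κ/8`). So `√(2Q) ≤ C (2Rb+1)^d (κd/√sw) e^{a(M8+2M6+5)} A0^θ`. `Q ≤ 1` from `m0/ell ≤ 2κd`, the hypothesis `16 (2Rb+1)^d κd² ≤ sw` and small `k`.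
* `T2` terms: `∫∫ T2f ≤ 2 card ε (1 + 2·CL Σ‖G.2‖) + 2 P(Alᶜ)` (`lin_sum` for `PS2`, `res_map` for the law of the resampled noise), `P(Alᶜ) ≤` small `(1 + Σ)` (`exit_bd` and `res_map`, noise outside `gdC`). `∫∫ T2f(shft v ω, ω')`: `res Bs ns (shft v ω) ω' = res Bs ns ω ω'` (`v` vanishes outside the block: `vct_zero`, `vct_out`), `E Σ‖traj G.2 (shft v ω) m‖` by `lin_ctl` (`bst_snd`), and the indicator by `tilt_mom`: `≤ e^{Q/2} P(..)^{1/2}` and `√(ε1 (1+Σ)) ≤ √ε1 (1+Σ)`.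
-/

open MeasureTheory ProbabilityTheory
open scoped ENNReal

namespace DynC

open Dyn

private theorem BrB_ell_large (K : ℝ) :
    ∃ k0 : ℝ, 0 < k0 ∧ k0 < 1 ∧ ∀ k, 0 < k → k < k0 → K ≤ ell k := by
  refine ⟨min (1 / 2) (Real.exp (-K)), by positivity, ?_, ?_⟩
  · exact lt_of_le_of_lt (min_le_left _ _) (by norm_num)
  · intro k hk hkk
    have h1 : k < Real.exp (-K) := lt_of_lt_of_le hkk (min_le_right _ _)
    have h2 : Real.log k < -K := by
      have := Real.log_lt_log hk h1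
      rwa [Real.log_exp] at this
    unfold ell
    rw [one_div, Real.log_inv]
    linarith

private theorem BrB_kpow {k : ℝ} (hk : 0 < k) (y : ℝ) : k ^ y = Real.exp (-(ell k) * y) := by
  unfold ell
  rw [one_div, Real.log_inv, neg_neg, Real.rpow_def_of_pos hk]

private theorem BrB_xexp {c x δ : ℝ} (hc : 0 < c) (hδ : 0 < δ) (hx : 2 / (c ^ 2 * δ) ≤ x) :
    x * Real.exp (-(c * x)) ≤ δ := by
  have hx0 : 0 < x := lt_of_lt_of_le (by positivity) hx
  have h1 : (c * x) ^ 2 / 2 ≤ Real.exp (c * x) := by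
    have := Real.quadratic_le_exp_of_nonneg (show 0 ≤ c * x by positivity)
    have h2 : 0 < c * x := by positivity
    linarith
  rw [Real.exp_neg, ← div_eq_mul_inv, div_le_iff₀ (Real.exp_pos _)]
  have h3 : 2 ≤ x * (c ^ 2 * δ) := by
    rwa [div_le_iff₀ (by positivity)] at hx
  calc x ≤ δ * ((c * x) ^ 2 / 2) := by nlinarith
    _ ≤ δ * Real.exp (c * x) := mul_le_mul_of_nonneg_left h1 hδ.le

private theorem BrB_interp {X p r θ : ℝ} (hX : 0 ≤ X) (hp : X ≤ p) (hr : X ≤ r) (hθ : 0 ≤ θ)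
    (hθ1 : θ ≤ 1) : X ≤ p ^ (1 - θ) * r ^ θ := by
  rcases hX.eq_or_lt with h0 | h0
  · rw [← h0]
    have h1 : 0 ≤ p := hX.trans hp
    have h2 : 0 ≤ r := hX.trans hr
    positivity
  · have h1 : X = X ^ (1 - θ) * X ^ θ := by
      rw [← Real.rpow_add h0]
      norm_num
    calc X = X ^ (1 - θ) * X ^ θ := h1
      _ ≤ p ^ (1 - θ) * r ^ θ :=
        mul_le_mul (Real.rpow_le_rpow hX hp (by linarith)) (Real.rpow_le_rpow hX hr hθ)
          (by positivity) (by have : 0 ≤ p := hX.trans hp; positivity)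

private theorem BrB_sqrt {Q B : ℝ} (hQ : 0 ≤ Q) (hQ1 : Q ≤ 1) (hB : 0 ≤ B) (h : 2 * Q ≤ B ^ 2) :
    Real.sqrt (Real.exp Q - 1) ≤ B := by
  have h1 : Real.exp Q - 1 ≤ 2 * Q := by
    have h2 := Real.exp_bound_div_one_sub_of_interval hQ
    have h3 := Real.abs_exp_sub_one_le (x := Q) (by rw [abs_of_nonneg hQ]; exact hQ1)
    rw [abs_of_nonneg hQ] at h3
    exact (le_abs_self _).trans h3
  calc Real.sqrt (Real.exp Q - 1) ≤ Real.sqrt (B ^ 2) := Real.sqrt_le_sqrt (h1.trans h)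
    _ = B := Real.sqrt_sq hB

private theorem BrB_sq1 {x : ℝ} (h0 : 0 ≤ x) (h : x ≤ 1 / 8) :
    x ^ 2 ≤ 1 ∧ (x ^ 2) ^ 2 ≤ x ^ 2 * (1 / 64) := by
  have h1 : x ^ 2 ≤ (1 / 8) ^ 2 := pow_le_pow_left₀ h0 h 2
  constructor
  · linarith
  · rw [sq (x ^ 2)]
    exact mul_le_mul_of_nonneg_left (by linarith) (sq_nonneg x)

private theorem BrB_Q (d : ℕ) (β κ κd M6 M8 sw a : ℝ) (Rb : ℕ) (hβ : 0 < β) (ha : 0 < a)
    (hκ : 0 < κ) (hκd : 0 < κd) (hκd1 : κd ≤ 1 / 8) (hM6 : 0 ≤ M6) (hM8 : 1 ≤ M8)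
    (hsw : 0 < sw) (hsw1 : sw ≤ 1) (hR : 16 * (2 * Rb + 1 : ℝ) ^ d * κd ^ 2 ≤ sw) :
    ∃ k0 : ℝ, 0 < k0 ∧ k0 < 1 ∧ ∀ k, 0 < k → k < k0 → ∀ h, 0 < h → ∀ (L : ℕ) (y : boxS d L)
      (A0 : ℝ) (ns : ℕ), 0 ≤ A0 → sw * ell k ^ 2 ≤ ns * h → ns * h ≤ 2 * (sw * ell k ^ 2) →
      0 ≤ (bpar β k h κ κd M6 M8 A0 ns Rb y).En h ∧
      (bpar β k h κ κd M6 M8 A0 ns Rb y).En h ≤ 1 ∧
      Real.sqrt (Real.exp ((bpar β k h κ κd M6 M8 A0 ns Rb y).En h) - 1) ≤
        15 * (2 * Rb + 1 : ℝ) ^ d * (κd / Real.sqrt sw) * Real.exp (a * (M8 + 2 * M6 + 5)) *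
          A0 ^ (a / ell k) := by
  set κ' : ℝ := min 1 β * κ / 8 with hκ'
  have hκ'0 : 0 < κ' := by positivity
  obtain ⟨k1, hk1, hk11, hE⟩ := BrB_ell_large (1 + 2 * a + 4 / κd +
    a * |Real.log (2 * κd)| / Real.log 2 + 2 / (κ' ^ 2 * κd ^ 2))
  refine ⟨k1, hk1, hk11, ?_⟩
  intro k hk hkk h hh L y A0 ns hA0 hn1 hn2
  set l : ℝ := ell k with hl
  have hlog2 : 0 < Real.log 2 := Real.log_pos (by norm_num)
  have hbig := hE k hk hkk
  rw [← hl] at hbig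
  have t1 : 0 < 4 / κd := by positivity
  have t2 : 0 ≤ a * |Real.log (2 * κd)| / Real.log 2 := by positivity
  have t3 : 0 < 2 / (κ' ^ 2 * κd ^ 2) := by positivity
  have l1 : 1 ≤ l := by linarith
  have l2 : 2 * a ≤ l := by linarith
  have l3 : 4 / κd ≤ l := by linarith
  have l4 : a * |Real.log (2 * κd)| / Real.log 2 ≤ l := by linarith
  have l5 : 2 / (κ' ^ 2 * κd ^ 2) ≤ l := by linarith
  have l0 : 0 < l := by linarith
  set θ : ℝ := a / l with hθ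
  have hθ0 : 0 < θ := by positivity
  have hθ1 : θ ≤ 1 / 2 := by
    rw [hθ, div_le_iff₀ l0]
    linarith
  have hθl : θ * l = a := by
    rw [hθ]
    field_simp
  set m0 : ℝ := (bpar β k h κ κd M6 M8 A0 ns Rb y).m0 with hm0
  set ς : ℝ := (bpar β k h κ κd M6 M8 A0 ns Rb y).ς with hς
  have em0 : m0 = min (κd * l + 4) (k ^ (-(M8 + M6)) * A0) := rfl
  have eς : ς = h * min (k ^ κ') (k ^ (-(M8 + 2 * M6 + 4)) * A0) := rfl
  have hp1 : 0 < k ^ κ' := Real.rpow_pos_of_pos hk _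
  have hp2 : 0 < k ^ (-(M8 + M6)) := Real.rpow_pos_of_pos hk _
  have hp3 : 0 < k ^ (-(M8 + 2 * M6 + 4)) := Real.rpow_pos_of_pos hk _
  have hm00 : 0 ≤ m0 := by
    rw [em0]
    exact le_min (by positivity) (by positivity)
  set X : ℝ := m0 / l with hX
  set Y : ℝ := l * min (k ^ κ') (k ^ (-(M8 + 2 * M6 + 4)) * A0) with hY
  have hX0 : 0 ≤ X := by positivity
  have hY0 : 0 ≤ Y := by
    rw [hY]
    exact mul_nonneg l0.le (le_min hp1.le (by positivity))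
  have hX1 : X ≤ 2 * κd := by
    rw [hX, div_le_iff₀ l0]
    have h1 : m0 ≤ κd * l + 4 := by
      rw [em0]
      exact min_le_left _ _
    rw [div_le_iff₀ hκd] at l3
    linarith
  have hX2 : X ≤ Real.exp (l * (M8 + M6)) * A0 := by
    have h1 : m0 ≤ k ^ (-(M8 + M6)) * A0 := by
      rw [em0]
      exact min_le_right _ _
    rw [BrB_kpow hk, ← hl] at h1
    have h2 : X ≤ m0 := div_le_self hm00 l1
    refine h2.trans (h1.trans (le_of_eq ?_))
    congr 2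
    ring
  have hY1 : Y ≤ κd ^ 2 := by
    have h1 : Y ≤ l * k ^ κ' := mul_le_mul_of_nonneg_left (min_le_left _ _) l0.le
    refine h1.trans ?_
    rw [BrB_kpow hk, ← hl]
    have h2 := BrB_xexp (x := l) hκ'0 (show 0 < κd ^ 2 by positivity) l5
    refine le_trans (le_of_eq ?_) h2
    congr 2
    ring
  have hY2 : Y ≤ l * (Real.exp (l * (M8 + 2 * M6 + 4)) * A0) := by
    have h1 : Y ≤ l * (k ^ (-(M8 + 2 * M6 + 4)) * A0) :=
      mul_le_mul_of_nonneg_left (min_le_right _ _) l0.le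
    refine h1.trans (le_of_eq ?_)
    rw [BrB_kpow hk, ← hl]
    congr 3
    ring
  set W : ℝ := Real.exp (a * (M8 + 2 * M6 + 5)) * A0 ^ θ with hW
  have hAθ : 0 ≤ A0 ^ θ := Real.rpow_nonneg hA0 _
  have hW0 : 0 ≤ W := by positivity
  have hX3 : X ≤ 4 * κd * W := by
    have h1 := BrB_interp hX0 hX1 hX2 hθ0.le (by linarith)
    rw [Real.mul_rpow (Real.exp_pos _).le hA0, ← Real.exp_mul] at h1
    have h2 : (2 * κd) ^ (1 - θ) ≤ 4 * κd := by
      rw [sub_eq_add_neg, Real.rpow_add (by positivity), Real.rpow_one]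
      have h3 : (2 * κd) ^ (-θ) ≤ 2 := by
        rw [Real.rpow_def_of_pos (by positivity)]
        rw [← Real.exp_log (show (0 : ℝ) < 2 by norm_num)]
        refine Real.exp_le_exp.2 ?_
        rw [Real.exp_log (by norm_num)]
        have h4 : Real.log (2 * κd) * -θ ≤ |Real.log (2 * κd)| * θ := by
          have h6 : Real.log (2 * κd) * -θ = -Real.log (2 * κd) * θ := by ring
          rw [h6]
          exact mul_le_mul_of_nonneg_right (neg_le_abs _) hθ0.le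
        refine h4.trans ?_
        rw [div_le_iff₀ hlog2] at l4
        have h5 : (|Real.log (2 * κd)| * θ) * l ≤ Real.log 2 * l := by
          calc (|Real.log (2 * κd)| * θ) * l = a * |Real.log (2 * κd)| := by
                rw [mul_assoc, hθl]; ring
            _ ≤ _ := by linarith
        exact le_of_mul_le_mul_right h5 l0
      calc 2 * κd * (2 * κd) ^ (-θ) ≤ 2 * κd * 2 :=
            mul_le_mul_of_nonneg_left h3 (by positivity)
        _ = 4 * κd := by ring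
    have h3 : Real.exp (l * (M8 + M6) * θ) ≤ Real.exp (a * (M8 + 2 * M6 + 5)) := by
      refine Real.exp_le_exp.2 ?_
      have h4 : l * (M8 + M6) * θ = a * (M8 + M6) := by
        rw [← hθl]
        ring
      rw [h4]
      exact mul_le_mul_of_nonneg_left (by linarith) ha.le
    refine h1.trans ?_
    rw [hW]
    exact mul_le_mul h2 (mul_le_mul_of_nonneg_right h3 hAθ) (by positivity) (by positivity)
  have hY3 : Y ≤ κd * W := by
    have h1 := BrB_interp hY0 hY1 hY2 hθ0.le (by linarith)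
    rw [Real.mul_rpow l0.le (by positivity), Real.mul_rpow (Real.exp_pos _).le hA0,
      ← Real.exp_mul] at h1
    have h2 : (κd ^ 2) ^ (1 - θ) ≤ κd := by
      have h3 : (κd ^ 2) ^ (1 - θ) ≤ (κd ^ 2) ^ (1 / 2 : ℝ) :=
        Real.rpow_le_rpow_of_exponent_ge (by positivity) (BrB_sq1 hκd.le hκd1).1 (by linarith)
      refine h3.trans (le_of_eq ?_)
      rw [← Real.sqrt_eq_rpow, Real.sqrt_sq hκd.le]
    have h3 : l ^ θ ≤ Real.exp a := by
      rw [Real.rpow_def_of_pos l0]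
      refine Real.exp_le_exp.2 ?_
      have h4 : Real.log l ≤ l := (Real.log_le_sub_one_of_pos l0).trans (by linarith)
      calc Real.log l * θ ≤ l * θ := mul_le_mul_of_nonneg_right h4 hθ0.le
        _ = a := by rw [mul_comm, hθl]
    have h5 : l ^ θ * (Real.exp (l * (M8 + 2 * M6 + 4) * θ) * A0 ^ θ) ≤ W := by
      have h6 : Real.exp (l * (M8 + 2 * M6 + 4) * θ) = Real.exp (a * (M8 + 2 * M6 + 4)) := by
        congr 1
        rw [← hθl]
        ring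
      rw [h6, hW, ← mul_assoc]
      refine mul_le_mul_of_nonneg_right ?_ hAθ
      calc l ^ θ * Real.exp (a * (M8 + 2 * M6 + 4))
          ≤ Real.exp a * Real.exp (a * (M8 + 2 * M6 + 4)) :=
            mul_le_mul_of_nonneg_right h3 (Real.exp_pos _).le
        _ = Real.exp (a * (M8 + 2 * M6 + 5)) := by
            rw [← Real.exp_add]
            congr 1
            ring
    refine h1.trans ?_
    exact mul_le_mul h2 h5 (by positivity) hκd.le
  -- energy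
  set D : ℝ := (2 * Rb + 1 : ℝ) ^ d with hD
  have hD1 : 1 ≤ D := one_le_pow₀ (by have : (0 : ℝ) ≤ Rb := Nat.cast_nonneg _; linarith)
  have hD0 : 0 < D := by linarith
  have eEn : (bpar β k h κ κd M6 M8 A0 ns Rb y).En h =
      D * (2 * m0 ^ 2 / (((ns : ℝ) + 1) * h) + 40 * ς ^ 2 * ns / h) := rfl
  have hEn : (bpar β k h κ κd M6 M8 A0 ns Rb y).En h ≤ D / sw * (2 * X ^ 2 + 80 * Y ^ 2) := by
    rw [eEn]
    have hnsh : 0 < (ns : ℝ) * h := lt_of_lt_of_le (by positivity) hn1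
    have h1 : 2 * m0 ^ 2 / (((ns : ℝ) + 1) * h) ≤ 2 * X ^ 2 / sw := by
      have h2 : sw * l ^ 2 ≤ ((ns : ℝ) + 1) * h := by
        have h3 : ((ns : ℝ) + 1) * h = ns * h + h := by ring
        linarith
      calc 2 * m0 ^ 2 / (((ns : ℝ) + 1) * h) ≤ 2 * m0 ^ 2 / (sw * l ^ 2) := by
            gcongr
        _ = 2 * X ^ 2 / sw := by
            rw [hX]
            field_simp
    have h2 : 40 * ς ^ 2 * ns / h ≤ 80 * Y ^ 2 / sw := by
      have h3 : ς = h * (Y / l) := by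
        rw [eς, hY]
        field_simp
      have h4 : 40 * ς ^ 2 * ns / h = 40 * (Y / l) ^ 2 * (ns * h) := by
        rw [h3]
        field_simp
      rw [h4]
      calc 40 * (Y / l) ^ 2 * (ns * h) ≤ 40 * (Y / l) ^ 2 * (2 * (sw * l ^ 2)) := by gcongr
        _ = 80 * Y ^ 2 * sw := by
            field_simp
            ring
        _ ≤ 80 * Y ^ 2 / sw := by
            rw [le_div_iff₀ hsw]
            have h5 : sw * sw ≤ 1 := by
              calc sw * sw ≤ 1 * 1 := mul_le_mul hsw1 hsw1 hsw.le zero_le_one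
                _ = 1 := one_mul 1
            have h6 : 0 ≤ 80 * Y ^ 2 := by positivity
            rw [mul_assoc]
            exact mul_le_of_le_one_right h6 h5
    calc D * (2 * m0 ^ 2 / (((ns : ℝ) + 1) * h) + 40 * ς ^ 2 * ns / h)
        ≤ D * (2 * X ^ 2 / sw + 80 * Y ^ 2 / sw) := by gcongr
      _ = D / sw * (2 * X ^ 2 + 80 * Y ^ 2) := by
          field_simp
  have hEn0 : 0 ≤ (bpar β k h κ κd M6 M8 A0 ns Rb y).En h := by
    rw [eEn]
    positivity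
  have hEn1 : (bpar β k h κ κd M6 M8 A0 ns Rb y).En h ≤ 1 := by
    refine hEn.trans ?_
    have h1 : 2 * X ^ 2 + 80 * Y ^ 2 ≤ 16 * κd ^ 2 := by
      have h2 : X ^ 2 ≤ (2 * κd) ^ 2 := pow_le_pow_left₀ hX0 hX1 2
      have h3 : Y ^ 2 ≤ (κd ^ 2) ^ 2 := pow_le_pow_left₀ hY0 hY1 2
      have h4 : (κd ^ 2) ^ 2 ≤ κd ^ 2 * (1 / 64) := (BrB_sq1 hκd.le hκd1).2
      have h5 : (2 * κd) ^ 2 = 4 * κd ^ 2 := by ring
      have h6 : 0 ≤ κd ^ 2 := sq_nonneg κd
      linarith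
    calc D / sw * (2 * X ^ 2 + 80 * Y ^ 2) ≤ D / sw * (16 * κd ^ 2) := by gcongr
      _ = (16 * D * κd ^ 2) / sw := by ring
      _ ≤ 1 := by
          rw [div_le_one hsw]
          exact hR
  refine ⟨hEn0, hEn1, ?_⟩
  have hB : 15 * D * (κd / Real.sqrt sw) * Real.exp (a * (M8 + 2 * M6 + 5)) * A0 ^ (a / l) =
      15 * D * (κd / Real.sqrt sw) * W := by
    rw [hW, mul_assoc _ (Real.exp _)]
  rw [hB]
  refine BrB_sqrt hEn0 hEn1 (by positivity) ?_
  have h1 : 2 * X ^ 2 + 80 * Y ^ 2 ≤ 112 * (κd * W) ^ 2 := by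
    have h2 : X ^ 2 ≤ (4 * κd * W) ^ 2 := pow_le_pow_left₀ hX0 hX3 2
    have h3 : Y ^ 2 ≤ (κd * W) ^ 2 := pow_le_pow_left₀ hY0 hY3 2
    have h4 : (4 * κd * W) ^ 2 = 16 * (κd * W) ^ 2 := by ring
    linarith
  calc 2 * (bpar β k h κ κd M6 M8 A0 ns Rb y).En h
      ≤ 2 * (D / sw * (112 * (κd * W) ^ 2)) := by
        have : D / sw * (2 * X ^ 2 + 80 * Y ^ 2) ≤ D / sw * (112 * (κd * W) ^ 2) := by gcongr
        linarith
    _ = 224 * D * (κd * W) ^ 2 / sw := by ring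
    _ ≤ 225 * D ^ 2 * (κd * W) ^ 2 / sw := by
        have h4 : 224 * D ≤ 225 * D ^ 2 := by
          have h7 : D ≤ D ^ 2 := le_self_pow₀ hD1 (by norm_num)
          linarith
        gcongr
    _ = (15 * D * (κd / Real.sqrt sw) * W) ^ 2 := by
        have h5 : Real.sqrt sw ^ 2 = sw := Real.sq_sqrt hsw.le
        have h6 : (15 * D * (κd / Real.sqrt sw) * W) ^ 2 =
            225 * D ^ 2 * (κd * W) ^ 2 / Real.sqrt sw ^ 2 := by
          ring
        rw [h6, h5]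

private theorem BrB_tr (d : ℕ) (β k h : ℝ) (hβ : 0 < β) (hk : 0 ≤ k) (L : ℕ)
    (G : (boxS d L → ℂ) × (boxS d L → ℂ)) (ω : ℕ → boxS d L → ℂ) (n : ℕ) :
    ((PS2 d β k hβ hk).tr h L G ω n).1 = traj (st2 d β k h L) G.1 ω n := by
  induction n with
  | zero => rfl
  | succ n ih =>
    show st2 d β k h L ((PS2 d β k hβ hk).tr h L G ω n).1 (ω n) =
      st2 d β k h L (traj (st2 d β k h L) G.1 ω n) (ω n)
    rw [ih]

private theorem BrB_meas_traj (d : ℕ) (β k h : ℝ) (L : ℕ) (G : boxS d L → ℂ) (m : ℕ) :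
    Measurable fun ω : ℕ → boxS d L → ℂ => traj (st2 d β k h L) G ω m := by
  have h1 := measurable_traj (st2 d β k h L) (measurable_st2 d β k h L) m
  exact h1.comp (measurable_const.prodMk measurable_id)

private theorem BrB_meas_u (d : ℕ) (β k h : ℝ) (L : ℕ) (G : boxS d L → ℂ) (m : ℕ) :
    Measurable fun ω : ℕ → boxS d L → ℂ =>
      ENNReal.ofReal (∑ x, ‖traj (st2 d β k h L) G ω m x‖) := by
  refine Measurable.ennreal_ofReal ?_
  refine Finset.measurable_fun_sum _ ?_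
  intro x _
  exact ((measurable_pi_apply x).comp (BrB_meas_traj d β k h L G m)).norm

private theorem BrB_lin (d : ℕ) (β k : ℝ) (hβ : 0 < β) (hk : 0 ≤ k) (L : ℕ) (Sm : ℝ)
    (hSm : 0 ≤ Sm) : ∃ C h0 : ℝ, 1 ≤ C ∧ 0 < h0 ∧ ∀ h, 0 < h → h < h0 →
    ∀ (G : boxS d L → ℂ) (n : ℕ), n * h ≤ Sm →
      ∫⁻ ω, ENNReal.ofReal (∑ x, ‖traj (st2 d β k h L) G ω n x‖)
        ∂(PI (Measure.pi fun _ : boxS d L => gC)) ≤ ENNReal.ofReal (C * ∑ x, ‖G x‖) := by
  obtain ⟨C, h0, hC, hh0, H⟩ := lin_sum 2 hβ hk (PS2 d β k hβ hk) bnoise2 L Sm hSm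
  refine ⟨C, h0, hC, hh0, ?_⟩
  intro h hh hlt G n hn
  have h1 := H h hh hlt (G, 0) n hn
  have h2 : ∫⁻ ω, ENNReal.ofReal (∑ x, ‖traj (st2 d β k h L) G ω n x‖)
        ∂(PI (Measure.pi fun _ : boxS d L => gC)) ≤
      ∫⁻ ω, ENNReal.ofReal (∑ x, (‖((PS2 d β k hβ hk).tr h L (G, 0) ω n).1 x‖ +
        ‖((PS2 d β k hβ hk).tr h L (G, 0) ω n).2 x‖)) ∂(PI ((PS2 d β k hβ hk).mu L)) := by
    refine lintegral_mono fun ω => ?_
    refine ENNReal.ofReal_le_ofReal (Finset.sum_le_sum fun x _ => ?_)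
    have h3 : ‖traj (st2 d β k h L) G ω n x‖ =
        ‖((PS2 d β k hβ hk).tr h L (G, 0) ω n).1 x‖ := by
      have h4 := congrFun (BrB_tr d β k h hβ hk L (G, 0) ω n) x
      exact (congrArg (fun z : ℂ => ‖z‖) h4).symm
    rw [h3]
    exact le_add_of_nonneg_right (norm_nonneg _)
  refine h2.trans (h1.trans (le_of_eq ?_))
  congr 2
  refine Finset.sum_congr rfl fun x _ => ?_
  show ‖G x‖ + ‖(0 : ℂ)‖ = ‖G x‖
  rw [norm_zero, add_zero]

/-- alive set of one field -/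
private def BrB_al (d : ℕ) (β k : ℝ) (hβ : 0 < β) (hk : 0 ≤ k) (h : ℝ) (L : ℕ)
    (G : boxS d L → ℂ) (n : ℕ) : Set (ℕ → boxS d L → ℂ) :=
  (PS2 d β k hβ hk).alv h L (G, 0) n

private theorem BrB_al_meas (d : ℕ) (β k : ℝ) (hβ : 0 < β) (hk : 0 ≤ k) (h : ℝ) (L : ℕ)
    (G : boxS d L → ℂ) (n : ℕ) : MeasurableSet (BrB_al d β k hβ hk h L G n) :=
  measurableSet_alv (PS2 d β k hβ hk) h L (G, 0) n

private theorem BrB_al_gd {d : ℕ} {β k : ℝ} {hβ : 0 < β} {hk : 0 ≤ k} {h : ℝ} {L : ℕ}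
    {G : boxS d L → ℂ} {n : ℕ} {ω : ℕ → boxS d L → ℂ} (hω : ω ∈ BrB_al d β k hβ hk h L G n) :
    ∀ j, j < n → ∀ x, ω j x ∈ gdC h := hω.1

private theorem BrB_al_rad {d : ℕ} {β k : ℝ} {hβ : 0 < β} {hk : 0 ≤ k} {h : ℝ} {L : ℕ}
    {G : boxS d L → ℂ} {n : ℕ} {ω : ℕ → boxS d L → ℂ} (hω : ω ∈ BrB_al d β k hβ hk h L G n) :
    ∀ j, j ≤ n → ∀ x, ‖traj (st2 d β k h L) G ω j x‖ ≤ rad β h := by
  intro j hj x
  have h1 := (hω.2 j hj x).1
  have h4 := congrFun (BrB_tr d β k h hβ hk L (G, 0) ω j) x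
  exact (congrArg (fun z : ℂ => ‖z‖) h4).symm.le.trans h1

private theorem BrB_exit (d : ℕ) (β k : ℝ) (hβ : 0 < β) (hk : 0 ≤ k) (L : ℕ) (Sm ε1 : ℝ)
    (hSm : 0 ≤ Sm) (hε : 0 < ε1) : ∃ h0 : ℝ, 0 < h0 ∧ ∀ h, 0 < h → h < h0 →
    ∀ (G : boxS d L → ℂ) (n : ℕ), n * h ≤ Sm →
      PI (Measure.pi fun _ : boxS d L => gC) (BrB_al d β k hβ hk h L G n)ᶜ ≤
        ENNReal.ofReal (ε1 * (1 + ∑ x, ‖G x‖)) := by
  obtain ⟨h0, hh0, H⟩ := exit_bd 2 hβ hk (PS2 d β k hβ hk) bnoise2 L Sm ε1 hSm hε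
  refine ⟨h0, hh0, ?_⟩
  intro h hh hlt G n hn
  have h1 := H h hh hlt (G, 0) n hn
  refine le_trans h1 (le_of_eq ?_)
  congr 3
  refine Finset.sum_congr rfl fun x _ => ?_
  show ‖G x‖ + ‖(0 : ℂ)‖ = ‖G x‖
  rw [norm_zero, add_zero]

private theorem BrB_T2 (d : ℕ) (β k : ℝ) (hβ : 0 < β) (hk : 0 ≤ k) (h : ℝ) (L : ℕ)
    (Bs : boxS d L → Prop) (ns : ℕ) (G : boxS d L → ℂ) (m : ℕ) (ε : ℝ) (he : 0 ≤ ε)
    (φ : (ℕ → boxS d L → ℂ) → ℕ → boxS d L → ℂ) (hφ : Measurable φ)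
    (hr : ∀ ω ω', res Bs ns (φ ω) ω' = res Bs ns ω ω') :
    ∫⁻ ω, ∫⁻ ω', T2f ε (fun p : (ℕ → boxS d L → ℂ) × (ℕ → boxS d L → ℂ) =>
        (traj (st2 d β k h L) G p.1 m, traj (st2 d β k h L) G (res Bs ns p.1 p.2) m))
        (alvR d β k h L Bs ns G m) (φ ω, ω') ∂(PI (Measure.pi fun _ : boxS d L => gC))
        ∂(PI (Measure.pi fun _ : boxS d L => gC)) ≤
      ENNReal.ofReal (2 * (Fintype.card (boxS d L)) * ε) *
        (1 + 2 * (∫⁻ ω, ENNReal.ofReal (∑ x, ‖traj (st2 d β k h L) G (φ ω) m x‖)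
            ∂(PI (Measure.pi fun _ : boxS d L => gC)) +
          ∫⁻ ω, ENNReal.ofReal (∑ x, ‖traj (st2 d β k h L) G ω m x‖)
            ∂(PI (Measure.pi fun _ : boxS d L => gC)))) +
      2 * (∫⁻ ω, (BrB_al d β k hβ hk h L G m)ᶜ.indicator (fun _ => 1) (φ ω)
            ∂(PI (Measure.pi fun _ : boxS d L => gC)) +
        2 * PI (Measure.pi fun _ : boxS d L => gC) (BrB_al d β k hβ hk h L G m)ᶜ) := by
  classical
  set μ : Measure (ℕ → boxS d L → ℂ) := PI (Measure.pi fun _ : boxS d L => gC) with hμ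
  set c0 : ℝ≥0∞ := ENNReal.ofReal (2 * (Fintype.card (boxS d L)) * ε) with hc0
  set u : (ℕ → boxS d L → ℂ) → ℝ≥0∞ := fun ω =>
    ENNReal.ofReal (∑ x, ‖traj (st2 d β k h L) G ω m x‖) with hu
  set i1 : (ℕ → boxS d L → ℂ) → ℝ≥0∞ :=
    (BrB_al d β k hβ hk h L G m)ᶜ.indicator (fun _ => 1) with hi1
  have hum : Measurable u := BrB_meas_u d β k h L G m
  have him : Measurable i1 := measurable_const.indicator (BrB_al_meas d β k hβ hk h L G m).compl
  have hrm : Measurable fun p : (ℕ → boxS d L → ℂ) × (ℕ → boxS d L → ℂ) =>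
      res Bs ns p.1 p.2 := measurable_res Bs ns
  -- pointwise bound
  have hpt : ∀ ω ω', T2f ε (fun p : (ℕ → boxS d L → ℂ) × (ℕ → boxS d L → ℂ) =>
        (traj (st2 d β k h L) G p.1 m, traj (st2 d β k h L) G (res Bs ns p.1 p.2) m))
        (alvR d β k h L Bs ns G m) (φ ω, ω') ≤
      c0 * (1 + 2 * (u (φ ω) + u (res Bs ns ω ω'))) +
        2 * (i1 (φ ω) + (i1 ω' + i1 (res Bs ns ω ω'))) := by
    intro ω ω'
    unfold T2f
    refine add_le_add ?_ ?_
    · simp only [hr]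
      have hs1 : 0 ≤ ∑ x, ‖traj (st2 d β k h L) G (φ ω) m x‖ :=
        Finset.sum_nonneg fun x _ => norm_nonneg _
      have hs2 : 0 ≤ ∑ x, ‖traj (st2 d β k h L) G (res Bs ns ω ω') m x‖ :=
        Finset.sum_nonneg fun x _ => norm_nonneg _
      rw [Finset.sum_add_distrib, ENNReal.ofReal_mul (by positivity),
        ENNReal.ofReal_add (by norm_num) (by positivity), ENNReal.ofReal_mul (p := 2) (by norm_num),
        ENNReal.ofReal_add hs1 hs2, ENNReal.ofReal_one, ENNReal.ofReal_ofNat]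
    · by_cases hA : (φ ω, ω') ∈ alvR d β k h L Bs ns G m
      · rw [Set.indicator_of_notMem (by rw [Set.notMem_compl_iff]; exact hA)]
        exact zero_le
      · rw [Set.indicator_of_mem (by exact hA)]
        have h1 : (1 : ℝ≥0∞) ≤ i1 (φ ω) + (i1 ω' + i1 (res Bs ns ω ω')) := by
          by_cases b1 : φ ω ∈ BrB_al d β k hβ hk h L G m
          · by_cases b2 : ω' ∈ BrB_al d β k hβ hk h L G m
            · by_cases b3 : res Bs ns ω ω' ∈ BrB_al d β k hβ hk h L G m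
              · exfalso
                apply hA
                refine ⟨fun j hj x => ⟨BrB_al_gd b1 j hj x, BrB_al_gd b2 j hj x⟩,
                  fun j hj x => ⟨BrB_al_rad b1 j hj x, ?_⟩⟩
                show ‖traj (st2 d β k h L) G (res Bs ns (φ ω) ω') j x‖ ≤ rad β h
                rw [hr]
                exact BrB_al_rad b3 j hj x
              · have : i1 (res Bs ns ω ω') = 1 := Set.indicator_of_mem (by exact b3) _
                rw [this]
                exact le_add_self.trans le_add_self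
            · have : i1 ω' = 1 := Set.indicator_of_mem (by exact b2) _
              rw [this]
              exact le_self_add.trans le_add_self
          · have : i1 (φ ω) = 1 := Set.indicator_of_mem (by exact b1) _
            rw [this]
            exact le_self_add
        calc (2 : ℝ≥0∞) = 2 * 1 := (mul_one _).symm
          _ ≤ _ := mul_le_mul_right h1 _
  -- integration
  have hm1 : Measurable fun p : (ℕ → boxS d L → ℂ) × (ℕ → boxS d L → ℂ) => u (φ p.1) :=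
    hum.comp (hφ.comp measurable_fst)
  have hm2 : Measurable fun p : (ℕ → boxS d L → ℂ) × (ℕ → boxS d L → ℂ) =>
    u (res Bs ns p.1 p.2) := hum.comp hrm
  have hm3 : Measurable fun p : (ℕ → boxS d L → ℂ) × (ℕ → boxS d L → ℂ) => i1 (φ p.1) :=
    him.comp (hφ.comp measurable_fst)
  have hm4 : Measurable fun p : (ℕ → boxS d L → ℂ) × (ℕ → boxS d L → ℂ) => i1 p.2 :=
    him.comp measurable_snd
  have hm5 : Measurable fun p : (ℕ → boxS d L → ℂ) × (ℕ → boxS d L → ℂ) =>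
    i1 (res Bs ns p.1 p.2) := him.comp hrm
  have hm12 : Measurable fun p : (ℕ → boxS d L → ℂ) × (ℕ → boxS d L → ℂ) =>
      u (φ p.1) + u (res Bs ns p.1 p.2) := hm1.add hm2
  have hm12' : Measurable fun p : (ℕ → boxS d L → ℂ) × (ℕ → boxS d L → ℂ) =>
      1 + 2 * (u (φ p.1) + u (res Bs ns p.1 p.2)) := (hm12.const_mul _).const_add _
  have hm45 : Measurable fun p : (ℕ → boxS d L → ℂ) × (ℕ → boxS d L → ℂ) =>
      i1 p.2 + i1 (res Bs ns p.1 p.2) := hm4.add hm5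
  have hm345 : Measurable fun p : (ℕ → boxS d L → ℂ) × (ℕ → boxS d L → ℂ) =>
      i1 (φ p.1) + (i1 p.2 + i1 (res Bs ns p.1 p.2)) := hm3.add hm45
  have hmA : Measurable fun p : (ℕ → boxS d L → ℂ) × (ℕ → boxS d L → ℂ) =>
      c0 * (1 + 2 * (u (φ p.1) + u (res Bs ns p.1 p.2))) := hm12'.const_mul _
  have hmB : Measurable fun p : (ℕ → boxS d L → ℂ) × (ℕ → boxS d L → ℂ) =>
      2 * (i1 (φ p.1) + (i1 p.2 + i1 (res Bs ns p.1 p.2))) := hm345.const_mul _
  have e1 : ∀ F : (ℕ → boxS d L → ℂ) → ℝ≥0∞, Measurable F →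
      ∫⁻ p : (ℕ → boxS d L → ℂ) × (ℕ → boxS d L → ℂ), F p.1 ∂(μ.prod μ) = ∫⁻ ω, F ω ∂μ :=
    fun F hF => (measurePreserving_fst (μ := μ) (ν := μ)).lintegral_comp hF
  have e2 : ∀ F : (ℕ → boxS d L → ℂ) → ℝ≥0∞, Measurable F →
      ∫⁻ p : (ℕ → boxS d L → ℂ) × (ℕ → boxS d L → ℂ), F p.2 ∂(μ.prod μ) = ∫⁻ ω, F ω ∂μ :=
    fun F hF => (measurePreserving_snd (μ := μ) (ν := μ)).lintegral_comp hF
  have e3 : ∀ F : (ℕ → boxS d L → ℂ) → ℝ≥0∞, Measurable F →
      ∫⁻ p : (ℕ → boxS d L → ℂ) × (ℕ → boxS d L → ℂ), F (res Bs ns p.1 p.2) ∂(μ.prod μ) =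
        ∫⁻ ω, F ω ∂μ := by
    intro F hF
    have h1 := lintegral_map (μ := μ.prod μ) hF hrm
    rw [← h1, hμ, res_map]
  calc ∫⁻ ω, ∫⁻ ω', T2f ε (fun p : (ℕ → boxS d L → ℂ) × (ℕ → boxS d L → ℂ) =>
        (traj (st2 d β k h L) G p.1 m, traj (st2 d β k h L) G (res Bs ns p.1 p.2) m))
        (alvR d β k h L Bs ns G m) (φ ω, ω') ∂μ ∂μ
      ≤ ∫⁻ ω, ∫⁻ ω', (c0 * (1 + 2 * (u (φ ω) + u (res Bs ns ω ω'))) +
        2 * (i1 (φ ω) + (i1 ω' + i1 (res Bs ns ω ω')))) ∂μ ∂μ :=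
        lintegral_mono fun ω => lintegral_mono fun ω' => hpt ω ω'
    _ = ∫⁻ p : (ℕ → boxS d L → ℂ) × (ℕ → boxS d L → ℂ),
        (c0 * (1 + 2 * (u (φ p.1) + u (res Bs ns p.1 p.2))) +
        2 * (i1 (φ p.1) + (i1 p.2 + i1 (res Bs ns p.1 p.2)))) ∂(μ.prod μ) :=
        (lintegral_prod _ (hmA.add hmB).aemeasurable).symm
    _ = _ := by
        rw [lintegral_add_left hmA, lintegral_const_mul _ hm12',
          lintegral_add_left measurable_const, lintegral_const_mul _ hm12,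
          lintegral_add_left hm1, lintegral_one, measure_univ,
          lintegral_const_mul _ hm345, lintegral_add_left hm3,
          lintegral_add_left hm4, e1 (fun ω => u (φ ω)) (hum.comp hφ), e3 u hum,
          e1 (fun ω => i1 (φ ω)) (him.comp hφ), e2 i1 him, e3 i1 him]
        have e4 : ∫⁻ ω, i1 ω ∂μ = μ (BrB_al d β k hβ hk h L G m)ᶜ :=
          lintegral_indicator_one (BrB_al_meas d β k hβ hk h L G m).compl
        rw [e4, two_mul (μ (BrB_al d β k hβ hk h L G m)ᶜ)]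

private theorem BrB_V4 {d L : ℕ} (k q s : ℝ) (G : (boxS d L → ℂ) × (boxS d L → ℂ))
    (x : boxS d L) : V1 k q s G x ^ 4 = V1 k q (4 * s) G x ∧
      V2 k q s G x ^ 4 = V2 k q (4 * s) G x := by
  have h1 := V_sq k q s G x
  have h2 := V_sq k q (2 * s) G x
  constructor
  · rw [show (4 : ℕ) = 2 * 2 by norm_num, pow_mul, h1.1, h2.1]
    congr 1
    ring
  · rw [show (4 : ℕ) = 2 * 2 by norm_num, pow_mul, h1.2, h2.2]
    congr 1
    ring

private theorem BrB_C4 {C : ℝ} (hC : 1 ≤ C) {w : ℝ≥0∞} :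
    (ENNReal.ofReal C * w ^ 4) ^ (1 / 4 : ℝ) ≤ ENNReal.ofReal C * w := by
  rw [ENNReal.mul_rpow_of_nonneg _ _ (by norm_num), ← ENNReal.rpow_natCast, ← ENNReal.rpow_mul]
  have h1 : ((4 : ℕ) : ℝ) * (1 / 4) = 1 := by norm_num
  rw [h1, ENNReal.rpow_one]
  refine mul_le_mul_left ?_ _
  have h2 : (1 : ℝ≥0∞) ≤ ENNReal.ofReal C := by
    rw [← ENNReal.ofReal_one]
    exact ENNReal.ofReal_le_ofReal hC
  calc ENNReal.ofReal C ^ (1 / 4 : ℝ) ≤ ENNReal.ofReal C ^ (1 : ℝ) :=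
        ENNReal.rpow_le_rpow_of_exponent_le h2 (by norm_num)
    _ = ENNReal.ofReal C := ENNReal.rpow_one _

private theorem BrB_Db {C D E a M : ℝ} (hC : 1 ≤ C) (hD : 1 ≤ D) (hE : 0 ≤ E) :
    ENNReal.ofReal (C * D * Real.exp E * Real.exp (-(3 * a * M))) ^ (1 / 4 : ℝ) ≤
      ENNReal.ofReal (C * D * Real.exp E * Real.exp (-(3 / 4 * a * M))) := by
  have h0 : 1 ≤ C * D * Real.exp E := by
    have h1 : 1 ≤ C * D := one_le_mul_of_one_le_of_one_le hC hD
    exact one_le_mul_of_one_le_of_one_le h1 (Real.one_le_exp hE)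
  rw [ENNReal.ofReal_rpow_of_pos (by positivity)]
  refine ENNReal.ofReal_le_ofReal ?_
  rw [Real.mul_rpow (by positivity) (Real.exp_pos _).le, ← Real.exp_mul]
  have h2 : (C * D * Real.exp E) ^ (1 / 4 : ℝ) ≤ C * D * Real.exp E := by
    calc (C * D * Real.exp E) ^ (1 / 4 : ℝ) ≤ (C * D * Real.exp E) ^ (1 : ℝ) :=
          Real.rpow_le_rpow_of_exponent_le h0 (by norm_num)
      _ = _ := Real.rpow_one _
  have h3 : -(3 * a * M) * (1 / 4) = -(3 / 4 * a * M) := by ring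
  rw [h3]
  exact mul_le_mul_of_nonneg_right h2 (Real.exp_pos _).le

private theorem BrB_wpr {d L : ℕ} {Ω : Type} [MeasurableSpace Ω] (μ : Measure Ω) (E : Set Ω)
    (hE : MeasurableSet E) (H : Ω → (boxS d L → ℂ) × (boxS d L → ℂ)) (hH : Measurable H)
    (k q s α C : ℝ) (hk : 0 < k) (hk1 : k < 1) (hq : 1 ≤ q) (hs : 0 < s) (hqs : q * s ≤ 1)
    (hkq : k ^ (1 / 4 : ℝ) * 2 ^ (q - 1) ≤ 1) (hC : 1 ≤ C) (hα : 0 ≤ α)
    (G1 G : boxS d L → ℂ)
    (hV : ∀ z, ∫⁻ ω in E, (V1 k q (4 * s) (H ω) z + V2 k q (4 * s) (H ω) z) ∂μ ≤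
      ENNReal.ofReal C * V1 k q (4 * s) (G, G) z) (x : boxS d L) :
    (∫⁻ ω in E, wpr (boxNet d L) k q s α (H ω).1 (H ω).2 x ^ 4 ∂μ) ^ (1 / 4 : ℝ) ≤
      ENNReal.ofReal C * (4 * wpr (boxNet d L) k q s α G1 G x) := by
  have h1 := wpr_mom μ E hE H hH k q s α C hC hα (G, G)
    (fun z => V_one_pair hk hk1 hq hs hkq (G, G) z) (fun z => by
      constructor
      · simp only [(BrB_V4 k q s _ z).1]
        refine le_trans (lintegral_mono fun ω => ?_) (hV z)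
        exact le_self_add
      · simp only [(BrB_V4 k q s _ z).2]
        refine le_trans (lintegral_mono fun ω => ?_) (hV z)
        exact le_add_self) x
  refine le_trans (ENNReal.rpow_le_rpow h1 (by norm_num)) ?_
  refine le_trans (BrB_C4 hC) ?_
  exact mul_le_mul_right (wpr_dup k q s α hk hk1 hq hs hqs hα G1 G x).2 _

private theorem BrB_num {C Cv Cr a M6 M8 Rb D A κs A0t dist : ℝ} (hCv : 1 ≤ Cv) (hCr : 1 ≤ Cr)
    (ha : 0 < a) (hM6 : 0 ≤ M6) (hM8 : 1 ≤ M8) (hRb : 0 ≤ Rb) (hD : 1 ≤ D) (hA : 0 ≤ A)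
    (hκs : 0 ≤ κs) (hA0 : 0 ≤ A0t) (hd : 0 ≤ dist) (hC : C = 240 * Cv * Cr) :
    (15 * D * κs * Real.exp (a * (M8 + 2 * M6 + 5)) * A0t) * ((4 * A) *
        (Cr * D * Real.exp (Cr * a * (1 + Rb)) * Real.exp (-(3 / 4 * a * max (dist - Rb) 0))) *
        (Cv * 4)) ≤
      A * (C * D ^ 3 * κs * Real.exp (C * a * (M8 + M6 + Rb)) *
        Real.exp (-(7 / 16 * a * dist))) * A0t := by
  have hCC : Cr + 6 ≤ C := by
    rw [hC]
    nlinarith
  have h1 : Real.exp (a * (M8 + 2 * M6 + 5)) * (Real.exp (Cr * a * (1 + Rb)) *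
      Real.exp (-(3 / 4 * a * max (dist - Rb) 0))) ≤
      Real.exp (C * a * (M8 + M6 + Rb)) * Real.exp (-(7 / 16 * a * dist)) := by
    rw [← Real.exp_add, ← Real.exp_add, ← Real.exp_add]
    refine Real.exp_le_exp.2 ?_
    have h2 : dist - Rb ≤ max (dist - Rb) 0 := le_max_left _ _
    have h3 : M8 + 2 * M6 + 5 + Cr * (1 + Rb) - 3 / 4 * max (dist - Rb) 0 ≤
        C * (M8 + M6 + Rb) - 7 / 16 * dist := by
      have h4 : (Cr + 6) * (M8 + M6 + Rb) ≤ C * (M8 + M6 + Rb) :=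
        mul_le_mul_of_nonneg_right hCC (by positivity)
      nlinarith [mul_nonneg (by linarith : (0 : ℝ) ≤ Cr) hM6,
        mul_nonneg (by linarith : (0 : ℝ) ≤ Cr) (by linarith : (0 : ℝ) ≤ M8 - 1)]
    nlinarith [mul_le_mul_of_nonneg_left h3 ha.le]
  have h5 : D ^ 2 ≤ D ^ 3 := pow_le_pow_right₀ hD (by norm_num)
  calc (15 * D * κs * Real.exp (a * (M8 + 2 * M6 + 5)) * A0t) * ((4 * A) *
        (Cr * D * Real.exp (Cr * a * (1 + Rb)) * Real.exp (-(3 / 4 * a * max (dist - Rb) 0))) *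
        (Cv * 4))
      = (A * C * κs * A0t) * (D ^ 2 * (Real.exp (a * (M8 + 2 * M6 + 5)) *
        (Real.exp (Cr * a * (1 + Rb)) * Real.exp (-(3 / 4 * a * max (dist - Rb) 0))))) := by
        rw [hC]
        ring
    _ ≤ (A * C * κs * A0t) * (D ^ 3 * (Real.exp (C * a * (M8 + M6 + Rb)) *
        Real.exp (-(7 / 16 * a * dist)))) := by
        have hC0 : 0 ≤ C := by linarith
        exact mul_le_mul_of_nonneg_left (mul_le_mul h5 h1 (by positivity) (by positivity))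
          (by positivity)
    _ = _ := by ring

private theorem BrB_c1 {Cv Cr : ℝ} (h1 : 1 ≤ Cv) (h2 : 1 ≤ Cr) : 1 ≤ 240 * Cv * Cr := by
  nlinarith

private theorem BrB_l3 {l : ℝ} (h : 5 ≤ l) : 4 * l ^ 2 + 4 ≤ l ^ 3 ∧ 4 * l ^ 2 + 4 ≤ 8 * l ^ 2 := by
  have h1 : 25 ≤ l ^ 2 := by nlinarith
  constructor
  · have h2 : l ^ 3 = l * l ^ 2 := by ring
    rw [h2]
    nlinarith
  · linarith

private theorem BrB_dS {δ S : ℝ} (hS : 0 ≤ S) : δ ^ 2 * (1 + S) ≤ (δ * (1 + S)) ^ 2 := by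
  rw [mul_pow]
  refine mul_le_mul_of_nonneg_left ?_ (sq_nonneg δ)
  nlinarith

private theorem BrB_e2 : Real.exp (1 / 2) ≤ 2 := by
  have h8 : Real.exp (1 / 2) ^ 2 = Real.exp 1 := by
    rw [← Real.exp_nat_mul]
    norm_num
  have h9 := Real.exp_one_lt_d9
  nlinarith [Real.exp_pos (1 / 2 : ℝ)]

private theorem BrB_fin {cb ε Cl Cc S : ℝ} (h1 : 0 ≤ cb) (h2 : 0 ≤ ε) (h3 : 0 ≤ Cl) (h4 : 0 ≤ Cc)
    (h5 : 0 ≤ S) : 2 * cb * ε * (1 + 2 * (Cl * S + Cl * S)) +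
        2 * cb * ε * (1 + 2 * (Cc * S + Cl * S)) ≤
        (1 + 2 * cb * (2 + 6 * Cl + 2 * Cc)) * ε * (1 + S) := by
  have g1 : 0 ≤ cb * ε := by positivity
  have g2 : 0 ≤ cb * ε * Cl := by positivity
  have g3 : 0 ≤ cb * ε * Cc := by positivity
  have g4 : 0 ≤ cb * ε * S := by positivity
  have g5 : 0 ≤ ε * S := by positivity
  nlinarith

theorem brB (d : ℕ) (β : ℝ) (hβ : 0 < β) : ∃ q0 : ℝ, 1 ≤ q0 ∧ ∀ q, q0 ≤ q →
    ∃ C a0 : ℝ, 1 ≤ C ∧ 0 < a0 ∧ ∀ (a a' κ κd M6 M8 sw : ℝ) (Rb : ℕ), 0 < a → a ≤ a0 →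
      0 < a' → a' ≤ 1 → 0 < κ → κ ≤ 1 / 8 → 0 < κd → κd ≤ κ / 64 → 0 ≤ M6 → 1 ≤ M8 → 0 < sw →
      sw ≤ 1 → 16 * (2 * Rb + 1) ^ d * κd ^ 2 ≤ sw →
    ∃ k0 : ℝ, 0 < k0 ∧ k0 < 1 ∧ ∀ k, 0 < k → k < k0 → ∀ L : ℕ, ∃ CL : ℝ, 1 ≤ CL ∧
    ∀ ε0 : ℝ, 0 < ε0 → ∃ h0 : ℝ, 0 < h0 ∧ ∀ h, 0 < h → h < h0 →
    ∀ (A : boxS d L → ℝ) (ε : ℝ) (f : (boxS d L → ℂ) → ℂ), (∀ x, 0 ≤ A x) → 0 ≤ ε →
      Measurable f → (∀ G, ‖f G‖ ≤ 1) →
      Cls (boxNet d L) k q (a' / ell k) (Real.exp (-(a / 8))) (a / ell k) A ε f →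
    ∀ (y : boxS d L) (A0 : ℝ) (G : (boxS d L → ℂ) × (boxS d L → ℂ)), 0 ≤ A0 →
      (∀ v, ‖G.2 v‖ ≤ k ^ (-((1 + (boxNet d L).dist y v : ℝ) / 8))) →
    ∀ ns m : ℕ, ns = ⌈sw * ell k ^ 2 / h⌉₊ → ns ≤ m → m * h ≤ 4 * ell k ^ 2 + 4 →
      ENNReal.ofReal ‖∫ ω, f (traj (st2 d β k h L) G.2 ω m)
            ∂(PI (Measure.pi fun _ : boxS d L => gC)) -
          ∫ ω, f (traj (st2 d β k h L) G.2
            (shft ((bpar β k h κ κd M6 M8 A0 ns Rb y).vct β k h G) ω) m)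
            ∂(PI (Measure.pi fun _ : boxS d L => gC))‖ ≤
        ∑ x, ENNReal.ofReal (A x * (C * (2 * Rb + 1) ^ (3 * d) * (κd / Real.sqrt sw) *
            Real.exp (C * a * (M8 + M6 + Rb)) *
            Real.exp (-(7 / 16 * a * (boxNet d L).dist x y))) * A0 ^ (a / ell k)) *
            wpr (boxNet d L) k q (a' / ell k) (Real.exp (-(a / 8))) G.1 G.2 x +
          ENNReal.ofReal ((CL * ε + ε0) * (1 + ∑ x, (‖G.1 x‖ + ‖G.2 x‖))) := by
  classical
  obtain ⟨q0, hq0, Hvm⟩ := vm_res d β hβ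
  refine ⟨q0, hq0, ?_⟩
  intro q hq
  obtain ⟨Cv, kv, hCv, hkv, hkv1, Hvm⟩ := Hvm q hq
  obtain ⟨Cr, a0, hCr, ha0, Hres⟩ := res_mom d
  obtain ⟨kd, hkd, hkd1, Hdif⟩ := res_dif d β hβ
  have hC1 : 1 ≤ 240 * Cv * Cr := BrB_c1 hCv hCr
  refine ⟨240 * Cv * Cr, a0, hC1, ha0, ?_⟩
  intro a a' κ κd M6 M8 sw Rb ha haa ha' ha'1 hκ hκ1 hκd hκdk hM6 hM8 hsw hsw1 hR
  have hq1 : 1 ≤ q := hq0.trans hq
  obtain ⟨kr, hkr, hkr1, Hres⟩ := Hres a ha haa
  obtain ⟨kQ, hkQ, hkQ1, HQ⟩ := BrB_Q d β κ κd M6 M8 sw a Rb hβ ha hκ hκd (by linarith) hM6 hM8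
    hsw hsw1 hR
  obtain ⟨ke, hke, hke1, He⟩ := BrB_ell_large (5 + 32 * q + 1 / sw)
  refine ⟨min (min kv kd) (min kr (min kQ ke)), by positivity, ?_, ?_⟩
  · exact lt_of_le_of_lt ((min_le_left _ _).trans (min_le_left _ _)) hkv1
  intro k hk hkk L
  have k_v : k < kv := lt_of_lt_of_le hkk ((min_le_left _ _).trans (min_le_left _ _))
  have k_d : k < kd := lt_of_lt_of_le hkk ((min_le_left _ _).trans (min_le_right _ _))
  have k_r : k < kr := lt_of_lt_of_le hkk ((min_le_right _ _).trans (min_le_left _ _))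
  have k_Q : k < kQ := lt_of_lt_of_le hkk
    ((min_le_right _ _).trans ((min_le_right _ _).trans (min_le_left _ _)))
  have k_e : k < ke := lt_of_lt_of_le hkk
    ((min_le_right _ _).trans ((min_le_right _ _).trans (min_le_right _ _)))
  have hk1 : k < 1 := k_v.trans hkv1
  have hell := He k hk k_e
  have hisw : 0 < 1 / sw := by positivity
  have l5 : 5 ≤ ell k := by linarith
  have lq : 32 * q ≤ ell k := by linarith
  have lsw : 1 / sw ≤ ell k := by linarith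
  have l0 : 0 < ell k := by linarith
  have hs0 : 0 < a' / ell k := by positivity
  have hs4 : 4 * (a' / ell k) ≤ 4 / ell k := by
    rw [← mul_div_assoc]
    gcongr
    linarith
  have hq4 : 8 * q * (4 * (a' / ell k)) ≤ 1 := by
    have h1 : 8 * q * (4 * (a' / ell k)) = (32 * q * a') / ell k := by ring
    rw [h1, div_le_one l0]
    calc 32 * q * a' ≤ 32 * q * 1 := by gcongr
      _ ≤ ell k := by linarith
  have hqs : q * (a' / ell k) ≤ 1 := by
    have h1 : 0 ≤ q * (a' / ell k) := by positivity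
    have h2 : 8 * q * (4 * (a' / ell k)) = 32 * (q * (a' / ell k)) := by ring
    linarith
  have hkq : k ^ (1 / 4 : ℝ) * 2 ^ (q - 1) ≤ 1 := by
    rw [BrB_kpow hk, Real.rpow_def_of_pos (by norm_num : (0 : ℝ) < 2), ← Real.exp_add,
      Real.exp_le_one_iff]
    have h1 : Real.log 2 ≤ 1 := by
      have := Real.log_two_lt_d9
      linarith
    have h2 : Real.log 2 * (q - 1) ≤ 1 * (q - 1) :=
      mul_le_mul_of_nonneg_right h1 (by linarith)
    linarith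
  have hswl : 1 ≤ sw * ell k ^ 2 := by
    have h1 : 1 ≤ sw * ell k := by
      rw [div_le_iff₀ hsw] at lsw
      linarith
    calc (1 : ℝ) ≤ 1 * ell k := by linarith
      _ ≤ (sw * ell k) * ell k := mul_le_mul_of_nonneg_right h1 l0.le
      _ = sw * ell k ^ 2 := by ring
  obtain ⟨hv0, hhv0, Hvm⟩ := Hvm k hk k_v (4 * (a' / ell k)) (by positivity) hs4 hq4 L
  obtain ⟨hr0, hhr0, Hres⟩ := Hres k hk k_r
  obtain ⟨Cc, hc0, hCc, hhc0, Hctl⟩ := lin_ctl d β hβ k hk hk1 L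
  obtain ⟨Cl, hl0, hCl, hhl0, Hlin⟩ := BrB_lin d β k hβ hk.le L (8 * ell k ^ 2) (by positivity)
  set cb : ℝ := (Fintype.card (boxS d L) : ℝ) with hcb
  have hcb0 : 0 ≤ cb := Nat.cast_nonneg _
  refine ⟨1 + 2 * cb * (2 + 6 * Cl + 2 * Cc), by
    have : 0 ≤ 2 * cb * (2 + 6 * Cl + 2 * Cc) := by positivity
    linarith, ?_⟩
  intro ε0 hε0
  set δ : ℝ := min 1 (ε0 / 14) with hδ
  have hδ0 : 0 < δ := lt_min one_pos (by positivity)
  have hδ1 : δ ≤ 1 := min_le_left _ _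
  have hδ2 : 14 * δ ≤ ε0 := by
    have : δ ≤ ε0 / 14 := min_le_right _ _
    linarith
  obtain ⟨he0, hhe0, Hex⟩ := BrB_exit d β k hβ hk.le L (8 * ell k ^ 2) (δ ^ 2) (by positivity)
    (by positivity)
  refine ⟨min (min hv0 hr0) (min (min hc0 hl0) (min he0 (sw * ell k ^ 2))), by positivity, ?_⟩
  intro h hh hlt A ε f hA he hfm hfb hf y A0 G hA0 hG2 ns m hns hnm hm
  have h_v : h < hv0 := lt_of_lt_of_le hlt ((min_le_left _ _).trans (min_le_left _ _))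
  have h_r : h < hr0 := lt_of_lt_of_le hlt ((min_le_left _ _).trans (min_le_right _ _))
  have h_c : h < hc0 := lt_of_lt_of_le hlt
    ((min_le_right _ _).trans ((min_le_left _ _).trans (min_le_left _ _)))
  have h_l : h < hl0 := lt_of_lt_of_le hlt
    ((min_le_right _ _).trans ((min_le_left _ _).trans (min_le_right _ _)))
  have h_e : h < he0 := lt_of_lt_of_le hlt
    ((min_le_right _ _).trans ((min_le_right _ _).trans (min_le_left _ _)))
  have h_s : h < sw * ell k ^ 2 := lt_of_lt_of_le hlt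
    ((min_le_right _ _).trans ((min_le_right _ _).trans (min_le_right _ _)))
  -- times
  have hn1 : sw * ell k ^ 2 ≤ ns * h := by
    have h1 : sw * ell k ^ 2 / h ≤ ns := by
      rw [hns]
      exact Nat.le_ceil _
    rwa [div_le_iff₀ hh] at h1
  have hn2 : ns * h ≤ 2 * (sw * ell k ^ 2) := by
    have h1 : (ns : ℝ) ≤ sw * ell k ^ 2 / h + 1 := by
      rw [hns]
      exact (Nat.ceil_lt_add_one (by positivity)).le
    calc (ns : ℝ) * h ≤ (sw * ell k ^ 2 / h + 1) * h := by gcongr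
      _ = sw * ell k ^ 2 + h := by field_simp
      _ ≤ _ := by linarith
  have hl3 : 4 * ell k ^ 2 + 4 ≤ ell k ^ 3 := (BrB_l3 l5).1
  have hl8 : 4 * ell k ^ 2 + 4 ≤ 8 * ell k ^ 2 := (BrB_l3 l5).2
  have hm8 : m * h ≤ 8 * ell k ^ 2 := hm.trans hl8
  have hm3 : m * h ≤ ell k ^ 3 := hm.trans hl3
  have hnsm : ns * h ≤ ell k ^ 3 := by
    have h1 : (ns : ℝ) ≤ m := by exact_mod_cast hnm
    exact (mul_le_mul_of_nonneg_right h1 hh.le).trans hm3
  -- abbreviations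
  set P : BPar d L := bpar β k h κ κd M6 M8 A0 ns Rb y with hP
  set μ : Measure (ℕ → boxS d L → ℂ) := PI (Measure.pi fun _ : boxS d L => gC) with hμ
  set v : ℕ → (ℕ → boxS d L → ℂ) → boxS d L → ℂ := P.vct β k h G with hv
  have hPns : P.ns = ns := rfl
  obtain ⟨hQ0, hQ1, hQ2⟩ := HQ k hk k_Q h hh L y A0 ns hA0 hn1 hn2
  rw [← hP] at hQ0 hQ1 hQ2
  have hm00 : 0 ≤ P.m0 := by
    show 0 ≤ min (κd * ell k + 4) (k ^ (-(M8 + M6)) * A0)
    exact le_min (by positivity) (by positivity)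
  have hς0 : 0 ≤ P.ς := by
    show 0 ≤ h * min (k ^ (min 1 β * κ / 8)) (k ^ (-(M8 + 2 * M6 + 4)) * A0)
    exact mul_nonneg hh.le (le_min (by positivity) (by positivity))
  have hOK : P.OK β k h :=
    { hκ := hκ
      hκ1 := hκ1
      hM6 := hM6
      hM8 := by show 0 ≤ M8; linarith
      hA := hA0
      hm := by
        show min (κd * ell k + 4) (k ^ (-(M8 + M6)) * A0) ≤ κ / 16 * ell k + 4
        refine (min_le_left _ _).trans ?_
        have h1 : κd * ell k ≤ κ / 16 * ell k :=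
          mul_le_mul_of_nonneg_right (by linarith) l0.le
        linarith
      hm0 := hm00
      hς := rfl
      hns := hswl.trans hn1
      hns1 := hnsm }
  have hvm : ∀ j, Measurable (v j) := fun j => measurable_vct P β k h G j
  have hvz : ∀ j, ns ≤ j → ∀ ω, v j ω = 0 := fun j hj ω => vct_zero P β k h G j hj ω
  have hvo : ∀ j ω z, ¬ P.Bs z → v j ω z = 0 := fun j ω z hz => vct_out P β k h G j ω z hz
  have hen : ∀ ω, ∑ j ∈ Finset.range ns, ∑ x, ‖v j ω x‖ ^ 2 ≤ P.En h :=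
    fun ω => energy P β k h hh hm00 hς0 G ω
  have hshm : Measurable (shft v) := by
    refine measurable_pi_lambda _ fun j => measurable_pi_lambda _ fun z => ?_
    show Measurable fun ω : ℕ → boxS d L → ℂ => ω j z + v j ω z
    exact ((measurable_pi_apply z).comp (measurable_pi_apply j)).add
      ((measurable_pi_apply z).comp (hvm j))
  have hrs : ∀ ω ω', res P.Bs ns (shft v ω) ω' = res P.Bs ns ω ω' := by
    intro ω ω'
    funext j z
    unfold res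
    by_cases hc : j < ns ∧ P.Bs z
    · rw [if_pos hc, if_pos hc]
    · rw [if_neg hc, if_neg hc]
      show ω j z + v j ω z = ω j z
      have h1 : v j ω z = 0 := by
        by_cases hj : j < ns
        · exact hvo j ω z fun hz => hc ⟨hj, hz⟩
        · rw [hvz j (not_lt.1 hj) ω]
          rfl
      rw [h1, add_zero]
  set H : (ℕ → boxS d L → ℂ) × (ℕ → boxS d L → ℂ) → (boxS d L → ℂ) × (boxS d L → ℂ) :=
    fun p => (traj (st2 d β k h L) G.2 p.1 m, traj (st2 d β k h L) G.2 (res P.Bs ns p.1 p.2) m)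
    with hHd
  have htm := BrB_meas_traj d β k h L G.2 m
  have hHm : Measurable H :=
    (htm.comp measurable_fst).prodMk (htm.comp (measurable_res P.Bs ns))
  set Al := alvR d β k h L P.Bs ns G.2 m with hAld
  have hAlm : MeasurableSet Al := measurableSet_alvR d β k h L P.Bs ns G.2 m
  set Db : boxS d L → (ℕ → boxS d L → ℂ) × (ℕ → boxS d L → ℂ) → ℝ≥0∞ :=
    fun x => DbR k h a y Rb ns m x with hDbd
  have hDbm : ∀ x, Measurable (Db x) := fun x => measurable_DbR k h a y Rb ns m x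
  have hα : 0 ≤ Real.exp (-(a / 8)) := (Real.exp_pos _).le
  have hθ : 0 < a / ell k := by positivity
  have hmT1 := measurable_T1f k q (a' / ell k) (Real.exp (-(a / 8))) A H hHm Al hAlm Db hDbm
  have hmT2 := measurable_T2f ε H hHm Al hAlm
  have hΦm : Measurable fun ω : ℕ → boxS d L → ℂ => f (traj (st2 d β k h L) G.2 ω m) :=
    hfm.comp htm
  have main := tilt_bd2 cmart_gC ns P.Bs v hvm (fun j => dep_vct P β k h G j) hvz hvo (P.En h)
    hQ0 hen (fun ω => f (traj (st2 d β k h L) G.2 ω m)) hΦm (fun ω => hfb _)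
    (fun ω ω' => T1f k q (a' / ell k) (Real.exp (-(a / 8))) A H Al Db (ω, ω'))
    (fun ω ω' => T2f ε H Al (ω, ω')) hmT1 hmT2
    (fun ω ω' => pair_pt k q (a' / ell k) (Real.exp (-(a / 8))) (a / ell k) hk hk1 hq1 hs0 hqs hα hθ
      A hA ε he f hf hfb H Al Db (ω, ω')
      (fun _ x => Hdif k hk k_d h hh L y Rb ns m hm3 G.2 hG2 a ha (ω, ω') x))
  refine main.trans (add_le_add ?_ ?_)
  · -- main term
    have e1 : ∫⁻ ω, ∫⁻ ω', T1f k q (a' / ell k) (Real.exp (-(a / 8))) A H Al Db (ω, ω') ^ 2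
        ∂μ ∂μ = ∫⁻ p, T1f k q (a' / ell k) (Real.exp (-(a / 8))) A H Al Db p ^ 2 ∂(μ.prod μ) :=
      (lintegral_prod _ (hmT1.pow_const 2).aemeasurable).symm
    have e2 := t1_bd (μ.prod μ) k q (a' / ell k) (Real.exp (-(a / 8))) A hA H hHm Al hAlm Db hDbm
    rw [e1]
    refine le_trans (mul_le_mul_right e2 _) ?_
    rw [Finset.mul_sum]
    refine Finset.sum_le_sum fun x _ => ?_
    set W : ℝ≥0∞ := wpr (boxNet d L) k q (a' / ell k) (Real.exp (-(a / 8))) G.1 G.2 x with hW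
    set D : ℝ := (2 * Rb + 1 : ℝ) ^ d with hD
    have hRb0 : (0 : ℝ) ≤ Rb := Nat.cast_nonneg _
    have hD1 : 1 ≤ D := one_le_pow₀ (by linarith)
    set dd : ℝ := ((boxNet d L).dist y x : ℝ) with hdd
    have hdd0 : 0 ≤ dd := Nat.cast_nonneg _
    set E1 : ℝ := Cr * D * Real.exp (Cr * a * (1 + Rb)) *
      Real.exp (-(3 / 4 * a * max (dd - Rb) 0)) with hE1
    have hE10 : 0 ≤ E1 := by positivity
    set B : ℝ := 15 * D * (κd / Real.sqrt sw) * Real.exp (a * (M8 + 2 * M6 + 5)) *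
      A0 ^ (a / ell k) with hB
    have hB0 : 0 ≤ B := by positivity
    have b1 : (∫⁻ p in Al, Db x p ^ 4 ∂(μ.prod μ)) ^ (1 / 4 : ℝ) ≤ ENNReal.ofReal E1 := by
      have h1 : ∫⁻ p in Al, Db x p ^ 4 ∂(μ.prod μ) ≤ ENNReal.ofReal (Cr * D *
          Real.exp (Cr * a * (1 + Rb)) * Real.exp (-(3 * a * max (dd - Rb) 0))) :=
        (setLIntegral_le_lintegral _ _).trans (Hres h hh h_r L y Rb ns m hm8 x)
      refine le_trans (ENNReal.rpow_le_rpow h1 (by norm_num)) ?_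
      exact BrB_Db hCr hD1 (by positivity)
    have b2 : (∫⁻ p in Al, wpr (boxNet d L) k q (a' / ell k) (Real.exp (-(a / 8)))
        (H p).1 (H p).2 x ^ 4 ∂(μ.prod μ)) ^ (1 / 4 : ℝ) ≤ ENNReal.ofReal Cv * (4 * W) :=
      BrB_wpr (μ.prod μ) Al hAlm H hHm k q (a' / ell k) (Real.exp (-(a / 8))) Cv hk hk1 hq1 hs0
        hqs hkq hCv hα G.1 G.2 (fun z => Hvm h hh h_v P.Bs ns G.2 m hm8 z) x
    have b3 : ENNReal.ofReal (Real.sqrt (Real.exp (P.En h) - 1)) ≤ ENNReal.ofReal B :=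
      ENNReal.ofReal_le_ofReal hQ2
    have hnum := BrB_num (C := 240 * Cv * Cr) (Rb := (Rb : ℝ)) (D := D) (A := A x)
      (κs := κd / Real.sqrt sw) (A0t := A0 ^ (a / ell k)) (dist := dd) hCv hCr ha hM6 hM8 hRb0 hD1
      (hA x) (by positivity) (by positivity) hdd0 rfl
    have hfour : (4 : ℝ≥0∞) = ENNReal.ofReal 4 := (ENNReal.ofReal_ofNat 4).symm
    calc ENNReal.ofReal (Real.sqrt (Real.exp (P.En h) - 1)) * (ENNReal.ofReal (4 * A x) *
          (∫⁻ p in Al, Db x p ^ 4 ∂(μ.prod μ)) ^ (1 / 4 : ℝ) *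
          (∫⁻ p in Al, wpr (boxNet d L) k q (a' / ell k) (Real.exp (-(a / 8)))
            (H p).1 (H p).2 x ^ 4 ∂(μ.prod μ)) ^ (1 / 4 : ℝ))
        ≤ ENNReal.ofReal B * (ENNReal.ofReal (4 * A x) * ENNReal.ofReal E1 *
          (ENNReal.ofReal Cv * (4 * W))) :=
          mul_le_mul' b3 (mul_le_mul' (mul_le_mul_right b1 _) b2)
      _ = ENNReal.ofReal (B * ((4 * A x) * E1 * (Cv * 4))) * W := by
          rw [hfour, ENNReal.ofReal_mul hB0,
            ENNReal.ofReal_mul (p := 4 * A x * E1) (by have := hA x; positivity),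
            ENNReal.ofReal_mul (p := 4 * A x) (by have := hA x; positivity),
            ENNReal.ofReal_mul (p := Cv) (by linarith)]
          ring
      _ ≤ _ := by
          refine mul_le_mul_left (ENNReal.ofReal_le_ofReal ?_) _
          refine hnum.trans (le_of_eq ?_)
          rw [(boxNet d L).dist_comm x y, ← hdd, pow_mul', ← hD]
  · -- error terms
    set S1 : ℝ := ∑ x, (‖G.1 x‖ + ‖G.2 x‖) with hS1
    set S2 : ℝ := ∑ x, ‖G.2 x‖ with hS2
    have hS20 : 0 ≤ S2 := Finset.sum_nonneg fun x _ => norm_nonneg _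
    have hS21 : S2 ≤ S1 := Finset.sum_le_sum fun x _ => le_add_of_nonneg_left (norm_nonneg _)
    have hS10 : 0 ≤ S1 := hS20.trans hS21
    have t1 := BrB_T2 d β k hβ hk.le h L P.Bs ns G.2 m ε he (fun ω => ω) measurable_id
      (fun ω ω' => rfl)
    have t2 := BrB_T2 d β k hβ hk.le h L P.Bs ns G.2 m ε he (shft v) hshm hrs
    set al := BrB_al d β k hβ hk.le h L G.2 m with hal
    have halm : MeasurableSet al := BrB_al_meas d β k hβ hk.le h L G.2 m
    have u1 : ∫⁻ ω, ENNReal.ofReal (∑ x, ‖traj (st2 d β k h L) G.2 ω m x‖) ∂μ ≤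
        ENNReal.ofReal (Cl * S1) := by
      refine (Hlin h hh h_l G.2 m hm8).trans (ENNReal.ofReal_le_ofReal ?_)
      exact mul_le_mul_of_nonneg_left hS21 (by linarith)
    have u2 : ∫⁻ ω, ENNReal.ofReal (∑ x, ‖traj (st2 d β k h L) G.2 (shft v ω) m x‖) ∂μ ≤
        ENNReal.ofReal (Cc * S1) := by
      refine le_trans (lintegral_mono fun ω => ?_) (Hctl h hh h_c P hOK G m hm8)
      refine ENNReal.ofReal_le_ofReal (Finset.sum_le_sum fun x _ => ?_)
      rw [bst_snd P β k h G ω m]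
      exact le_add_of_nonneg_left (norm_nonneg _)
    have p1 : μ alᶜ ≤ ENNReal.ofReal (δ ^ 2 * (1 + S1)) := by
      refine (Hex h hh h_e G.2 m hm8).trans (ENNReal.ofReal_le_ofReal ?_)
      have : 1 + S2 ≤ 1 + S1 := by linarith
      exact mul_le_mul_of_nonneg_left this (by positivity)
    have p1' : μ alᶜ ≤ ENNReal.ofReal (δ * (1 + S1)) := by
      refine p1.trans (ENNReal.ofReal_le_ofReal ?_)
      have : δ ^ 2 ≤ δ := by
        rw [sq]
        exact mul_le_of_le_one_left hδ0.le hδ1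
      exact mul_le_mul_of_nonneg_right this (by linarith)
    have p0 : ∫⁻ ω, alᶜ.indicator (fun _ => (1 : ℝ≥0∞)) ω ∂μ = μ alᶜ :=
      lintegral_indicator_one halm.compl
    have p2 : ∫⁻ ω, alᶜ.indicator (fun _ => (1 : ℝ≥0∞)) (shft v ω) ∂μ ≤
        ENNReal.ofReal (2 * δ * (1 + S1)) := by
      have h1 := tilt_mom cmart_gC ns v hvm (fun j => dep_vct P β k h G j) hvz (P.En h) hQ0 hen
        (alᶜ.indicator fun _ => (1 : ℝ≥0∞)) (measurable_const.indicator halm.compl)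
      refine h1.trans ?_
      have h2 : ∫⁻ ω, (alᶜ.indicator (fun _ => (1 : ℝ≥0∞)) ω) ^ 2 ∂μ = μ alᶜ := by
        rw [← p0]
        refine lintegral_congr fun ω => ?_
        by_cases hω : ω ∈ alᶜ
        · rw [Set.indicator_of_mem hω]
          norm_num
        · rw [Set.indicator_of_notMem hω]
          norm_num
      rw [h2]
      have h3 : μ alᶜ ^ (1 / 2 : ℝ) ≤ ENNReal.ofReal (δ * (1 + S1)) := by
        have h4 : μ alᶜ ≤ ENNReal.ofReal (δ * (1 + S1)) ^ (2 : ℝ) := by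
          refine p1.trans ?_
          rw [ENNReal.ofReal_rpow_of_nonneg (by positivity) (by norm_num)]
          refine ENNReal.ofReal_le_ofReal ?_
          rw [Real.rpow_ofNat]
          exact BrB_dS hS10
        refine (ENNReal.rpow_le_rpow h4 (by norm_num)).trans (le_of_eq ?_)
        rw [← ENNReal.rpow_mul]
        norm_num
      have h5 : ENNReal.ofReal (Real.exp (P.En h / 2)) ≤ ENNReal.ofReal 2 := by
        refine ENNReal.ofReal_le_ofReal ?_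
        have h6 : Real.exp (P.En h / 2) ≤ Real.exp (1 / 2) := Real.exp_le_exp.2 (by linarith)
        exact h6.trans BrB_e2
      calc ENNReal.ofReal (Real.exp (P.En h / 2)) * μ alᶜ ^ (1 / 2 : ℝ)
          ≤ ENNReal.ofReal 2 * ENNReal.ofReal (δ * (1 + S1)) := mul_le_mul' h5 h3
        _ = ENNReal.ofReal (2 * δ * (1 + S1)) := by
            rw [← ENNReal.ofReal_mul (by norm_num)]
            congr 1
            ring
    have htwo : (2 : ℝ≥0∞) = ENNReal.ofReal 2 := (ENNReal.ofReal_ofNat 2).symm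
    have t1' : ∫⁻ ω, ∫⁻ ω', T2f ε H Al (ω, ω') ∂μ ∂μ ≤
        ENNReal.ofReal (2 * cb * ε * (1 + 2 * (Cl * S1 + Cl * S1)) + 6 * (δ * (1 + S1))) := by
      refine le_trans t1 ?_
      have h0 : 0 ≤ Cl * S1 := by positivity
      calc ENNReal.ofReal (2 * (Fintype.card (boxS d L)) * ε) *
            (1 + 2 * (∫⁻ ω, ENNReal.ofReal (∑ x, ‖traj (st2 d β k h L) G.2 ω m x‖) ∂μ +
              ∫⁻ ω, ENNReal.ofReal (∑ x, ‖traj (st2 d β k h L) G.2 ω m x‖) ∂μ)) +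
            2 * (∫⁻ ω, alᶜ.indicator (fun _ => 1) ω ∂μ + 2 * μ alᶜ)
          ≤ ENNReal.ofReal (2 * cb * ε) * (1 + 2 * (ENNReal.ofReal (Cl * S1) +
              ENNReal.ofReal (Cl * S1))) +
            2 * (ENNReal.ofReal (δ * (1 + S1)) + 2 * ENNReal.ofReal (δ * (1 + S1))) := by
            rw [p0]
            gcongr
        _ = _ := by
            rw [htwo, ← ENNReal.ofReal_add h0 h0, ← ENNReal.ofReal_mul (p := 2) (by norm_num),
              ← ENNReal.ofReal_one, ← ENNReal.ofReal_add (by norm_num) (by positivity),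
              ← ENNReal.ofReal_mul (by positivity), ← ENNReal.ofReal_mul (p := 2) (by norm_num),
              ← ENNReal.ofReal_add (by positivity) (by positivity),
              ← ENNReal.ofReal_mul (p := 2) (by norm_num),
              ← ENNReal.ofReal_add (by positivity) (by positivity)]
            congr 1
            ring
    have t2' : ∫⁻ ω, ∫⁻ ω', T2f ε H Al (shft v ω, ω') ∂μ ∂μ ≤
        ENNReal.ofReal (2 * cb * ε * (1 + 2 * (Cc * S1 + Cl * S1)) + 8 * (δ * (1 + S1))) := by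
      refine le_trans t2 ?_
      have h0 : 0 ≤ Cl * S1 := by positivity
      have h0' : 0 ≤ Cc * S1 := by positivity
      calc ENNReal.ofReal (2 * (Fintype.card (boxS d L)) * ε) *
            (1 + 2 * (∫⁻ ω, ENNReal.ofReal (∑ x, ‖traj (st2 d β k h L) G.2 (shft v ω) m x‖) ∂μ +
              ∫⁻ ω, ENNReal.ofReal (∑ x, ‖traj (st2 d β k h L) G.2 ω m x‖) ∂μ)) +
            2 * (∫⁻ ω, alᶜ.indicator (fun _ => 1) (shft v ω) ∂μ + 2 * μ alᶜ)
          ≤ ENNReal.ofReal (2 * cb * ε) * (1 + 2 * (ENNReal.ofReal (Cc * S1) +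
              ENNReal.ofReal (Cl * S1))) +
            2 * (ENNReal.ofReal (2 * δ * (1 + S1)) + 2 * ENNReal.ofReal (δ * (1 + S1))) := by
            gcongr
        _ = _ := by
            rw [htwo, ← ENNReal.ofReal_add h0' h0, ← ENNReal.ofReal_mul (p := 2) (by norm_num),
              ← ENNReal.ofReal_one, ← ENNReal.ofReal_add (by norm_num) (by positivity),
              ← ENNReal.ofReal_mul (by positivity), ← ENNReal.ofReal_mul (p := 2) (by norm_num),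
              ← ENNReal.ofReal_add (by positivity) (by positivity),
              ← ENNReal.ofReal_mul (p := 2) (by norm_num),
              ← ENNReal.ofReal_add (by positivity) (by positivity)]
            congr 1
            ring
    refine (add_le_add t1' t2').trans ?_
    rw [← ENNReal.ofReal_add (by positivity) (by positivity)]
    refine ENNReal.ofReal_le_ofReal ?_
    have f1 : 2 * cb * ε * (1 + 2 * (Cl * S1 + Cl * S1)) +
        2 * cb * ε * (1 + 2 * (Cc * S1 + Cl * S1)) ≤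
        (1 + 2 * cb * (2 + 6 * Cl + 2 * Cc)) * ε * (1 + S1) :=
      BrB_fin hcb0 he (by linarith) (by linarith) hS10
    have f2 : 6 * (δ * (1 + S1)) + 8 * (δ * (1 + S1)) ≤ ε0 * (1 + S1) := by
      have : 14 * δ * (1 + S1) ≤ ε0 * (1 + S1) := mul_le_mul_of_nonneg_right hδ2 (by linarith)
      linarith
    linarith

end DynC

end
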