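import Pool.Agent.Lib_MP_36b788_m.M34
import Pool.Agent.Lib_MP_36b788_m.M44
import Pool.Agent.Lib_MP_36b788_m.M46

/-!
# MP_36b788_pr, stationary limit: merged library part M48

Concatenation of smaller files (each in its own section), only to save build time.
-/

/-! ### from `Lib_MP_36b788c.Brg3` -/

section

/-!
# The bridge: probability of regular noise

PROOF. `v = h/ell²`, `K = ns`, `v K ≤ sw + 1/ell² ≤ 2 sw` (small `k`). The law of `gz k h ω` is that of `sc v ω`, `ω ~ nz` (`re_law` in `Reg2.lean`; the conditions on `gz` are measurable: `measurable_lppM`).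
`lam = 1/√(2 sw)`, so `lam² v K ≤ 1`. `eps_small` with `q = 1`, `e = exp(-16)/64` gives `L0`; `cell_all` for the exponent `lam` and `q = κ2/2` needs `lam κ2/2 ≥ L0` (the sum in `cell_all` is `Σ exp(-(lam κ2/2) max(dd,1))`): `C √sw ≤ κ2`. `W0 = 0`: `E exp(lam lppM (κ2/2) v) ≤ C1 = 4e^8 + e^48`.
`P(∃ v, lppM v > κ3(1 + dist x v)) ≤ Σ_v C1 exp(-lam κ3(1+dist x v)) ≤ C1 exp(-lam κ3) Σ_v exp(-lam κ3 dist x v)`, `lam κ3 ≥ C/√2 ≥ 1`, `sum_exp_dd`. Union over the at most `(2Rb+1)^d` sites of the ball (`growth`). Block sums: `osc_exp_nz` with `s = lam`, `sum_le_osc`: `≤ 4 e^8 exp(-lam κ3)` for each site of the ball.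
Third condition: `cell_all` with `q = 1/8`, `lam/8 ≥ L0`: `Σ_v C1 exp(-lam(1/4 + dist y v/16)) ≤ C exp(-lam/4)` (`lam/16 ≥ 1`).
First condition: `P(some ω j x ∉ gdC h) ≤ ns card(box) h³` (`bnoise2.tail`) `≤ (ell³ + 1) card h² ≤ exp(-1/√sw)` for small `h` (depending on `L`, `k`).
-/

open MeasureTheory ProbabilityTheory
open scoped ENNReal

namespace DynC

open Dyn

private theorem Brg3_sc {S : Type} [Fintype S] (v : ℝ) :
    Measurable (fun ω : ℕ → S → ℝ => sc v ω) := by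
  unfold sc
  fun_prop

private theorem Brg3_pmax {Ω : Type} [MeasurableSpace Ω] (f : Ω → ℕ → ℝ)
    (hf : ∀ j, Measurable fun ω => f ω j) (n : ℕ) : Measurable fun ω => pmax (f ω) n := by
  unfold pmax
  exact Finset.measurable_range_sup'' fun m _ =>
    Finset.measurable_fun_sum _ fun j _ => hf j

private theorem Brg3_osc {S : Type} [Fintype S] (n : ℕ) (x : S) :
    Measurable (fun g : ℕ → S → ℝ => osc (fun j => g j x) n) := by
  have h1 : ∀ j, Measurable fun g : ℕ → S → ℝ => g j x := fun j =>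
    (measurable_pi_apply x).comp (measurable_pi_apply j)
  unfold osc
  exact (Brg3_pmax (fun (g : ℕ → S → ℝ) (j : ℕ) => g j x) h1 n).add
    (Brg3_pmax (fun (g : ℕ → S → ℝ) (j : ℕ) => -g j x) (fun j => (h1 j).neg) n)

private theorem Brg3_markov {Ω : Type} [MeasurableSpace Ω] (μ : Measure Ω) {f : Ω → ℝ≥0∞}
    (hf : Measurable f) (r C : ℝ) (h : ∫⁻ ω, f ω ∂μ ≤ ENNReal.ofReal C) (E : Set Ω)
    (hE : ∀ ω ∈ E, ENNReal.ofReal (Real.exp r) ≤ f ω) :
    μ E ≤ ENNReal.ofReal (C * Real.exp (-r)) := by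
  have h2 := mul_meas_ge_le_lintegral (μ := μ) hf (ENNReal.ofReal (Real.exp r))
  have h3 : ENNReal.ofReal (Real.exp r) * μ E ≤ ENNReal.ofReal C :=
    (mul_le_mul_right (measure_mono hE) _).trans (h2.trans h)
  have h5 := mul_le_mul_right h3 (ENNReal.ofReal (Real.exp (-r)))
  rw [← mul_assoc, ← ENNReal.ofReal_mul (Real.exp_pos _).le, ← Real.exp_add,
    neg_add_cancel, Real.exp_zero, ENNReal.ofReal_one, one_mul,
    ← ENNReal.ofReal_mul (Real.exp_pos _).le, mul_comm (Real.exp (-r))] at h5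
  exact h5

/-- last passage values: union over all sites -/
private theorem Brg3_lpp (d L : ℕ) (lam q v a b : ℝ) (n : ℕ) (hlam0 : 0 < lam) (hv : 0 < v)
    (hK : lam ^ 2 * v * n ≤ 1)
    (he : ∀ x : boxS d L, ∑ y, Real.exp (-(lam * q * max ((boxMSet d L).dd y x : ℝ) 1)) ≤
      Real.exp (-16) / 64) (hb : 1 ≤ lam * b) (x : boxS d L) :
    PI (nz (boxS d L)) {ω | ∃ w, a + b * (boxNet d L).dist x w ≤
        (boxMSet d L).lppM q (fun _ => 0) (sc v ω) n w} ≤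
      ENNReal.ofReal ((4 * Real.exp 8 + Real.exp 48) * 3 ^ d * Real.exp (-(lam * a))) := by
  set CB : ℝ := 4 * Real.exp 8 + Real.exp 48 with hCB
  have hCB0 : 0 < CB := by
    have := Real.exp_pos 8
    have := Real.exp_pos 48
    linarith
  obtain ⟨kk, hkk0, hkks, hkk⟩ := cell_all (boxMSet d L) lam q v (Real.exp (-16) / 64) hlam0 hv
    (by positivity) he (le_refl _) n hK
  have hlpp : ∀ w : boxS d L, PI (nz (boxS d L)) {ω | a + b * (boxNet d L).dist x w ≤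
      (boxMSet d L).lppM q (fun _ => 0) (sc v ω) n w} ≤
      ENNReal.ofReal (CB * Real.exp (-(lam * a)) * (1 / 2) ^ (boxNet d L).dist x w) := by
    intro w
    have h1 := hkk (fun _ => 0) (fun _ => le_refl 0) w
    have h2 : ∑ z, Real.exp (lam * (0 : ℝ)) * kk z w ≤ CB := by
      refine le_trans (le_of_eq ?_) (hkks w)
      exact Finset.sum_congr rfl fun z _ => by rw [mul_zero, Real.exp_zero, one_mul]
    have h3 := h1.trans (ENNReal.ofReal_le_ofReal h2)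
    have hmeas : Measurable (fun ω : ℕ → boxS d L → ℝ => ENNReal.ofReal (Real.exp (lam *
        (boxMSet d L).lppM q (fun _ => 0) (sc v ω) n w))) :=
      (((measurable_lppM (boxMSet d L) _ _ n w).comp
        (Brg3_sc v)).const_mul lam).exp.ennreal_ofReal
    have h4 := Brg3_markov (PI (nz (boxS d L))) hmeas (lam * (a + b * (boxNet d L).dist x w)) CB
      h3 {ω | a + b * (boxNet d L).dist x w ≤
        (boxMSet d L).lppM q (fun _ => 0) (sc v ω) n w} (fun ω hω =>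
          ENNReal.ofReal_le_ofReal (Real.exp_le_exp.mpr (mul_le_mul_of_nonneg_left hω hlam0.le)))
    refine h4.trans (ENNReal.ofReal_le_ofReal ?_)
    have h5 : Real.exp (-(lam * (a + b * (boxNet d L).dist x w))) =
        Real.exp (-(lam * a)) * Real.exp (-(lam * b)) ^ (boxNet d L).dist x w := by
      rw [← Real.exp_nat_mul, ← Real.exp_add]
      congr 1
      ring
    have h6 : Real.exp (-(lam * b)) ≤ 1 / 2 := by
      have h7 : Real.exp (-(lam * b)) ≤ Real.exp (-1) := Real.exp_le_exp.mpr (by linarith)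
      refine h7.trans ?_
      rw [Real.exp_neg, inv_le_comm₀ (Real.exp_pos _) (by norm_num)]
      have := Real.add_one_le_exp (1 : ℝ)
      norm_num at this ⊢
      exact this
    rw [h5]
    have h8 : Real.exp (-(lam * b)) ^ (boxNet d L).dist x w ≤ (1 / 2) ^ (boxNet d L).dist x w :=
      pow_le_pow_left₀ (Real.exp_pos _).le h6 _
    calc CB * (Real.exp (-(lam * a)) * Real.exp (-(lam * b)) ^ (boxNet d L).dist x w)
        ≤ CB * (Real.exp (-(lam * a)) * (1 / 2) ^ (boxNet d L).dist x w) :=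
          mul_le_mul_of_nonneg_left (mul_le_mul_of_nonneg_left h8 (Real.exp_pos _).le) hCB0.le
      _ = _ := by ring
  have hsub : {ω : ℕ → boxS d L → ℝ | ∃ w, a + b * (boxNet d L).dist x w ≤
        (boxMSet d L).lppM q (fun _ => 0) (sc v ω) n w} ⊆
      ⋃ w : boxS d L, {ω | a + b * (boxNet d L).dist x w ≤
        (boxMSet d L).lppM q (fun _ => 0) (sc v ω) n w} := by
    rintro ω ⟨w, hw⟩
    exact Set.mem_iUnion.mpr ⟨w, hw⟩
  refine (measure_mono hsub).trans ?_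
  refine (measure_iUnion_fintype_le _ _).trans ((Finset.sum_le_sum fun w _ => hlpp w).trans ?_)
  rw [← ENNReal.ofReal_sum_of_nonneg fun w _ => by positivity, ← Finset.mul_sum]
  refine ENNReal.ofReal_le_ofReal ?_
  have h11 := (boxNet d L).sum_half x
  have h12 : 0 ≤ CB * Real.exp (-(lam * a)) := by positivity
  calc CB * Real.exp (-(lam * a)) * ∑ w, (1 / 2 : ℝ) ^ (boxNet d L).dist x w
      ≤ CB * Real.exp (-(lam * a)) * 3 ^ d := mul_le_mul_of_nonneg_left h11 h12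
    _ = _ := by ring

private theorem Brg3_bad (d L : ℕ) (h : ℝ) (n : ℕ) (hh : 0 < h)
    (ht : gC (gdC h)ᶜ ≤ ENNReal.ofReal (h ^ 3)) :
    PI (Measure.pi fun _ : boxS d L => gC) {ω | ¬ ∀ j, j < n → ∀ y, ω j y ∈ gdC h} ≤
      ENNReal.ofReal (n * Fintype.card (boxS d L) * h ^ 3) := by
  have hm : MeasurableSet (gdC h)ᶜ := by
    refine MeasurableSet.compl ?_
    exact measurableSet_le (measurable_norm.const_mul _) measurable_const
  have hone : ∀ (j : ℕ) (y : boxS d L), PI (Measure.pi fun _ : boxS d L => gC)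
      {ω | ω j y ∈ (gdC h)ᶜ} ≤ ENNReal.ofReal (h ^ 3) := by
    intro j y
    have h1 : PI (Measure.pi fun _ : boxS d L => gC) {ω | ω j y ∈ (gdC h)ᶜ} =
        (PI (Measure.pi fun _ : boxS d L => gC)).map (fun ω => ω j)
          {η : boxS d L → ℂ | η y ∈ (gdC h)ᶜ} := by
      rw [Measure.map_apply (measurable_pi_apply j) (measurable_pi_apply y hm)]
      rfl
    rw [h1, map_coord]
    have h2 := (measurePreserving_eval (fun _ : boxS d L => gC) y).measure_preimage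
      hm.nullMeasurableSet
    have h3 : {η : boxS d L → ℂ | η y ∈ (gdC h)ᶜ} = Function.eval y ⁻¹' (gdC h)ᶜ := rfl
    rw [h3, h2]
    exact ht
  have hsub : {ω : ℕ → boxS d L → ℂ | ¬ ∀ j, j < n → ∀ y, ω j y ∈ gdC h} ⊆
      ⋃ j ∈ Finset.range n, ⋃ y ∈ (Finset.univ : Finset (boxS d L)), {ω | ω j y ∈ (gdC h)ᶜ} := by
    intro ω hω
    simp only [Set.mem_ofPred_eq, not_forall] at hω
    obtain ⟨j, hj, y, hy⟩ := hω
    simp only [Set.mem_iUnion]
    exact ⟨j, Finset.mem_range.mpr hj, y, Finset.mem_univ y, hy⟩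
  refine (measure_mono hsub).trans ?_
  refine (measure_biUnion_finset_le _ _).trans ?_
  calc ∑ j ∈ Finset.range n, PI (Measure.pi fun _ : boxS d L => gC)
        (⋃ y ∈ (Finset.univ : Finset (boxS d L)), {ω | ω j y ∈ (gdC h)ᶜ})
      ≤ ∑ j ∈ Finset.range n, ∑ y : boxS d L, ENNReal.ofReal (h ^ 3) := by
        refine Finset.sum_le_sum fun j _ => ?_
        refine (measure_biUnion_finset_le _ _).trans ?_
        exact Finset.sum_le_sum fun y _ => hone j y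
    _ = ENNReal.ofReal (n * Fintype.card (boxS d L) * h ^ 3) := by
        rw [Finset.sum_const, Finset.sum_const, Finset.card_range, Finset.card_univ]
        rw [nsmul_eq_mul, nsmul_eq_mul, mul_assoc, ENNReal.ofReal_mul (by positivity),
          ENNReal.ofReal_mul (by positivity), ENNReal.ofReal_natCast, ENNReal.ofReal_natCast]

private theorem Brg3_ell (T : ℝ) : ∃ k0 : ℝ, 0 < k0 ∧ k0 < 1 ∧ ∀ k, 0 < k → k < k0 → T ≤ ell k := by
  refine ⟨Real.exp (-(max T 1)), Real.exp_pos _, ?_, fun k hk hkk => ?_⟩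
  · rw [Real.exp_lt_one_iff]
    have := le_max_right T 1
    linarith
  · unfold ell
    rw [one_div, Real.log_inv]
    have h1 := Real.log_lt_log hk hkk
    rw [Real.log_exp] at h1
    have := le_max_left T 1
    linarith

theorem brg_noise (d : ℕ) : ∃ C : ℝ, 1 ≤ C ∧
    ∀ (κ2 κ3 sw : ℝ) (Rb : ℕ), 0 < κ2 → κ2 ≤ 1 / 8 → 0 < κ3 → 0 < sw →
      C * Real.sqrt sw ≤ κ2 → C * Real.sqrt sw ≤ κ3 →
    ∃ k0 : ℝ, 0 < k0 ∧ k0 < 1 ∧ ∀ k, 0 < k → k < k0 → ∀ L : ℕ, ∃ h0 : ℝ, 0 < h0 ∧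
    ∀ h, 0 < h → h < h0 → ∀ (y : boxS d L) (ns : ℕ), 1 ≤ ns → ns * h ≤ sw * ell k ^ 2 + 1 →
      PI (Measure.pi fun _ : boxS d L => gC) {ω | ¬ RegB κ2 κ3 k h ns y Rb ω} ≤
        ENNReal.ofReal ((2 * Rb + 1) ^ d * (C * Real.exp (-(κ3 / (C * Real.sqrt sw)))) +
          C * Real.exp (-(1 / (C * Real.sqrt sw)))) := by
  obtain ⟨L0, hL0, hL⟩ := eps_small d 1 one_pos (Real.exp (-16) / 64) (by positivity)
  obtain ⟨hT0, hhT0, hT⟩ := bnoise2.tail
  set CB : ℝ := 4 * Real.exp 8 + Real.exp 48 with hCB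
  have he8 : 1 ≤ Real.exp 8 := Real.one_le_exp (by norm_num)
  have hCB0 : 1 ≤ CB := by
    have := Real.exp_pos 48
    linarith
  have h3d : (1 : ℝ) ≤ 3 ^ d := one_le_pow₀ (by norm_num)
  have hCB3 : 1 ≤ CB * 3 ^ d := by nlinarith
  set C : ℝ := CB * 3 ^ d + 4 * Real.exp 8 + 3 * L0 + 10 with hC
  have hC1 : 10 ≤ C := by linarith
  have hCL : 3 * L0 ≤ C := by linarith
  have hC2 : CB * 3 ^ d + 4 * Real.exp 8 ≤ C := by linarith
  have hC3 : CB * 3 ^ d + 1 ≤ C := by linarith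
  refine ⟨C, by linarith, ?_⟩
  intro κ2 κ3 sw Rb hκ2 hκ28 hκ3 hsw hC2' hC3'
  have hsq : 0 < Real.sqrt sw := Real.sqrt_pos.mpr hsw
  obtain ⟨k0, hk0, hk01, hk⟩ := Brg3_ell (max 1 (1 / Real.sqrt sw))
  refine ⟨k0, hk0, hk01, fun k hkp hkk L => ?_⟩
  have hk1 : k < 1 := hkk.trans hk01
  have hl1 : 1 ≤ ell k := (le_max_left _ _).trans (hk k hkp hkk)
  have hl2 : 1 / Real.sqrt sw ≤ ell k := (le_max_right _ _).trans (hk k hkp hkk)
  have hl3 : 1 ≤ sw * ell k ^ 2 := by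
    have h1 : 1 ≤ Real.sqrt sw * ell k := by
      rw [div_le_iff₀ hsq] at hl2
      linarith
    calc (1 : ℝ) ≤ (Real.sqrt sw * ell k) ^ 2 := one_le_pow₀ h1
      _ = sw * ell k ^ 2 := by rw [mul_pow, Real.sq_sqrt hsw.le]
  have hell : 0 < ell k := by linarith
  set e1 : ℝ := Real.exp (-(1 / (C * Real.sqrt sw))) with he1
  have he1p : 0 < e1 := Real.exp_pos _
  set Bd : ℝ := (sw * ell k ^ 2 + 1) * Fintype.card (boxS d L) + 1 with hBd
  have hBd0 : 1 ≤ Bd := by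
    have : 0 ≤ (sw * ell k ^ 2 + 1) * (Fintype.card (boxS d L) : ℝ) := by positivity
    linarith
  refine ⟨min hT0 (min 1 (e1 / Bd)), lt_min hhT0 (lt_min one_pos (by positivity)), ?_⟩
  intro h hh hhh y ns hns hnsh
  have hhT : h < hT0 := hhh.trans_le (min_le_left _ _)
  have hh1 : h < 1 := (hhh.trans_le (min_le_right _ _)).trans_le (min_le_left _ _)
  have hhe : h < e1 / Bd := (hhh.trans_le (min_le_right _ _)).trans_le (min_le_right _ _)
  have hns0 : (0 : ℝ) < ns := by exact_mod_cast hns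
  set v : ℝ := h / ell k ^ 2 with hv
  have hv0 : 0 < v := by positivity
  have hvn : v * ns ≤ 2 * sw := by
    rw [hv, div_mul_eq_mul_div, div_le_iff₀ (by positivity)]
    linarith
  have hs2 : 0 < Real.sqrt 2 := Real.sqrt_pos.mpr (by norm_num)
  have hs22 : Real.sqrt 2 ≤ 3 / 2 := by
    rw [Real.sqrt_le_left (by norm_num)]; norm_num
  set lam : ℝ := 1 / (Real.sqrt 2 * Real.sqrt sw) with hlam
  have hlam0 : 0 < lam := by positivity
  have hlamsq : lam * Real.sqrt sw = 1 / Real.sqrt 2 := by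
    rw [hlam]
    field_simp
  have hl23 : 2 / 3 ≤ 1 / Real.sqrt 2 := by
    rw [div_le_div_iff₀ (by norm_num) hs2]
    linarith
  have hlam2 : lam ^ 2 * v * ns ≤ 1 := by
    have h1 : lam ^ 2 = 1 / (2 * sw) := by
      rw [hlam, div_pow, mul_pow, Real.sq_sqrt (by norm_num), Real.sq_sqrt hsw.le, one_pow]
    rw [h1, mul_assoc, div_mul_eq_mul_div, one_mul, div_le_iff₀ (by positivity)]
    linarith
  -- lower bounds of `lam κ`
  have hlk : ∀ κ, C * Real.sqrt sw ≤ κ → 2 / 3 * C ≤ lam * κ := by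
    intro κ hκ
    have h1 := mul_le_mul_of_nonneg_left hκ hlam0.le
    have h2 : lam * (C * Real.sqrt sw) = C * (1 / Real.sqrt 2) := by
      rw [← hlamsq]; ring
    have h3 := mul_le_mul_of_nonneg_left hl23 (by linarith : (0 : ℝ) ≤ C)
    linarith
  have hl2' := hlk κ2 hC2'
  have hl3' := hlk κ3 hC3'
  have hl8 : 2 / 3 * C ≤ lam * (1 / 8) := hl2'.trans (mul_le_mul_of_nonneg_left hκ28 hlam0.le)
  have hq2 : L0 ≤ lam * (κ2 / 2) := by linarith
  have hq8 : L0 ≤ lam * (1 / 8) := by linarith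
  have hHe : ∀ q, L0 ≤ lam * q → ∀ x : boxS d L,
      ∑ y, Real.exp (-(lam * q * max ((boxMSet d L).dd y x : ℝ) 1)) ≤ Real.exp (-16) / 64 := by
    intro q hq x
    have h1 := hL (lam * q) hq (boxS d L) (boxMSet d L) x
    simpa only [mul_one] using h1
  -- comparison of exponentials
  have hcmp : ∀ a, 0 ≤ a → Real.exp (-(lam * a)) ≤ Real.exp (-(a / (C * Real.sqrt sw))) := by
    intro a ha
    refine Real.exp_le_exp.mpr (neg_le_neg ?_)
    have h1 : a / (C * Real.sqrt sw) = (1 / (C * Real.sqrt sw)) * a := by ring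
    rw [h1]
    refine mul_le_mul_of_nonneg_right ?_ ha
    rw [hlam]
    refine one_div_le_one_div_of_le (by positivity) ?_
    exact mul_le_mul_of_nonneg_right (by linarith) hsq.le
  have hcmp4 : Real.exp (-(lam * (1 / 4))) ≤ e1 := by
    refine Real.exp_le_exp.mpr (neg_le_neg ?_)
    have h1 : (1 : ℝ) / (C * Real.sqrt sw) = (1 / Real.sqrt sw) * (1 / C) := by
      rw [one_div_mul_one_div, mul_comm]
    have h2 : lam * (1 / 4) = (1 / Real.sqrt sw) * (1 / (4 * Real.sqrt 2)) := by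
      rw [hlam]
      field_simp
    rw [h1, h2]
    refine mul_le_mul_of_nonneg_left ?_ (by positivity)
    exact one_div_le_one_div_of_le (by positivity) (by linarith)
  -- events
  set ball : Finset (boxS d L) := Finset.univ.filter fun x => (boxNet d L).dist y x ≤ Rb with hball
  have hcard : (ball.card : ℝ) ≤ (2 * Rb + 1) ^ d := by
    have h1 := (boxMSet d L).growth y Rb ball (fun x hx => (Finset.mem_filter.mp hx).2)
    exact_mod_cast h1
  set E1 : boxS d L → Set (ℕ → boxS d L → ℝ) := fun x =>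
    {g | ∃ w, κ3 + κ3 * (boxNet d L).dist x w ≤
      (boxMSet d L).lppM (κ2 / 2) (fun _ => 0) g ns w} with hE1
  set E2 : boxS d L → Set (ℕ → boxS d L → ℝ) := fun x =>
    {g | κ3 ≤ osc (fun j => g j x) ns} with hE2
  set E3 : Set (ℕ → boxS d L → ℝ) := {g | ∃ w, 1 / 4 + 1 / 16 * (boxNet d L).dist y w ≤
      (boxMSet d L).lppM (1 / 8) (fun _ => 0) g ns w} with hE3
  have hmex : ∀ (q a b : ℝ) (x : boxS d L), MeasurableSet {g : ℕ → boxS d L → ℝ |
      ∃ w, a + b * (boxNet d L).dist x w ≤ (boxMSet d L).lppM q (fun _ => 0) g ns w} := by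
    intro q a b x
    rw [Set.ofPred_exists]
    exact MeasurableSet.iUnion fun w =>
      measurableSet_le measurable_const (measurable_lppM (boxMSet d L) _ _ ns w)
  have hm1 : ∀ x, MeasurableSet (E1 x) := fun x => hmex _ _ _ x
  have hm2 : ∀ x, MeasurableSet (E2 x) := fun x => measurableSet_le measurable_const (Brg3_osc ns x)
  have hm3 : MeasurableSet E3 := hmex _ _ _ y
  set μ := PI (Measure.pi fun _ : boxS d L => gC) with hμ
  have p1 : ∀ x, μ {ω | gz k h ω ∈ E1 x} ≤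
      ENNReal.ofReal (CB * 3 ^ d * Real.exp (-(lam * κ3))) := by
    intro x
    rw [hμ, re_law d L k h hkp hk1 hh (E1 x) (hm1 x)]
    exact Brg3_lpp d L lam (κ2 / 2) v κ3 κ3 ns hlam0 hv0 hlam2 (hHe _ hq2) (by linarith) x
  have p2 : ∀ x, μ {ω | gz k h ω ∈ E2 x} ≤
      ENNReal.ofReal (4 * Real.exp 8 * Real.exp (-(lam * κ3))) := by
    intro x
    rw [hμ, re_law d L k h hkp hk1 hh (E2 x) (hm2 x)]
    have h1 := osc_exp_nz (S := boxS d L) lam v hlam0.le hv0.le ns x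
    have h2 : 4 * Real.exp (8 * lam ^ 2 * v * ns) ≤ 4 * Real.exp 8 := by
      refine mul_le_mul_of_nonneg_left (Real.exp_le_exp.mpr ?_) (by norm_num)
      have : 8 * lam ^ 2 * v * ns = 8 * (lam ^ 2 * v * ns) := by ring
      rw [this]
      linarith
    have hmo : Measurable (fun ω : ℕ → boxS d L → ℝ =>
        ENNReal.ofReal (Real.exp (lam * osc (fun j => sc v ω j x) ns))) :=
      (((Brg3_osc ns x).comp (Brg3_sc v)).const_mul lam).exp.ennreal_ofReal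
    exact Brg3_markov (PI (nz (boxS d L))) hmo (lam * κ3) (4 * Real.exp 8)
      (h1.trans (ENNReal.ofReal_le_ofReal h2)) _ (fun ω hω =>
          ENNReal.ofReal_le_ofReal (Real.exp_le_exp.mpr (mul_le_mul_of_nonneg_left hω hlam0.le)))
  have p3 : μ {ω | gz k h ω ∈ E3} ≤
      ENNReal.ofReal (CB * 3 ^ d * Real.exp (-(lam * (1 / 4)))) := by
    rw [hμ, re_law d L k h hkp hk1 hh E3 hm3]
    exact Brg3_lpp d L lam (1 / 8) v (1 / 4) (1 / 16) ns hlam0 hv0 hlam2 (hHe _ hq8)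
      (by linarith) y
  have p4 : μ {ω | ¬ ∀ j, j < ns → ∀ y, ω j y ∈ gdC h} ≤ ENNReal.ofReal e1 := by
    refine (Brg3_bad d L h ns hh (hT h hh hhT)).trans (ENNReal.ofReal_le_ofReal ?_)
    have h1 : (ns : ℝ) * Fintype.card (boxS d L) * h ^ 3 =
        (ns * h) * Fintype.card (boxS d L) * h ^ 2 := by ring
    have hc0 : (0 : ℝ) ≤ Fintype.card (boxS d L) := Nat.cast_nonneg _
    rw [h1]
    calc (ns * h) * Fintype.card (boxS d L) * h ^ 2
        ≤ (sw * ell k ^ 2 + 1) * Fintype.card (boxS d L) * h := by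
          refine mul_le_mul (mul_le_mul_of_nonneg_right hnsh hc0) ?_ (by positivity) (by positivity)
          nlinarith
      _ ≤ Bd * h := mul_le_mul_of_nonneg_right (by rw [hBd]; linarith) hh.le
      _ ≤ Bd * (e1 / Bd) := mul_le_mul_of_nonneg_left hhe.le (by linarith)
      _ = e1 := by field_simp
  have hsub : {ω | ¬ RegB κ2 κ3 k h ns y Rb ω} ⊆
      ({ω : ℕ → boxS d L → ℂ | ¬ ∀ j, j < ns → ∀ y, ω j y ∈ gdC h} ∪
        ⋃ x ∈ ball, ({ω | gz k h ω ∈ E1 x} ∪ {ω | gz k h ω ∈ E2 x})) ∪ {ω | gz k h ω ∈ E3} := by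
    intro ω hω
    by_contra hc
    rw [Set.mem_union, not_or, Set.mem_union, not_or] at hc
    obtain ⟨⟨hc1, hc2⟩, hc3⟩ := hc
    apply hω
    refine ⟨?_, fun x hx => ⟨fun w => ?_, fun i j hij hj => ?_⟩, fun w => ?_⟩
    · by_contra h4
      exact hc1 h4
    · by_contra h4
      apply hc2
      refine Set.mem_iUnion₂.mpr ⟨x, Finset.mem_filter.mpr ⟨Finset.mem_univ _, hx⟩, Or.inl ⟨w, ?_⟩⟩
      rw [not_le] at h4
      linarith
    · by_contra h4
      apply hc2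
      refine Set.mem_iUnion₂.mpr ⟨x, Finset.mem_filter.mpr ⟨Finset.mem_univ _, hx⟩, Or.inr ?_⟩
      rw [not_le] at h4
      exact h4.le.trans (sum_le_osc (fun j => gz k h ω j x) hij hj)
    · by_contra h4
      apply hc3
      refine ⟨w, ?_⟩
      rw [not_le] at h4
      linarith
  refine (measure_mono hsub).trans ((measure_union_le _ _).trans ?_)
  have q1 : μ (⋃ x ∈ ball, ({ω | gz k h ω ∈ E1 x} ∪ {ω | gz k h ω ∈ E2 x})) ≤
      ENNReal.ofReal ((2 * Rb + 1) ^ d * (C * Real.exp (-(κ3 / (C * Real.sqrt sw))))) := by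
    refine (measure_biUnion_finset_le _ _).trans ?_
    calc ∑ x ∈ ball, μ ({ω | gz k h ω ∈ E1 x} ∪ {ω | gz k h ω ∈ E2 x})
        ≤ ∑ _x ∈ ball, ENNReal.ofReal (C * Real.exp (-(κ3 / (C * Real.sqrt sw)))) := by
          refine Finset.sum_le_sum fun x _ => ?_
          refine (measure_union_le _ _).trans ((add_le_add (p1 x) (p2 x)).trans ?_)
          rw [← ENNReal.ofReal_add (by positivity) (by positivity)]
          refine ENNReal.ofReal_le_ofReal ?_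
          rw [← add_mul]
          exact mul_le_mul hC2 (hcmp κ3 hκ3.le) (Real.exp_pos _).le (by linarith)
      _ = (ball.card : ℝ≥0∞) * ENNReal.ofReal (C * Real.exp (-(κ3 / (C * Real.sqrt sw)))) := by
          rw [Finset.sum_const, nsmul_eq_mul]
      _ = ENNReal.ofReal (ball.card * (C * Real.exp (-(κ3 / (C * Real.sqrt sw))))) := by
          rw [ENNReal.ofReal_mul (Nat.cast_nonneg _), ENNReal.ofReal_natCast]
      _ ≤ _ := by
          refine ENNReal.ofReal_le_ofReal (mul_le_mul_of_nonneg_right hcard ?_)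
          have : (0 : ℝ) ≤ C := by linarith
          positivity
  have hC0 : (0 : ℝ) ≤ C := by linarith
  calc μ ({ω : ℕ → boxS d L → ℂ | ¬ ∀ j, j < ns → ∀ y, ω j y ∈ gdC h} ∪
        ⋃ x ∈ ball, ({ω | gz k h ω ∈ E1 x} ∪ {ω | gz k h ω ∈ E2 x})) + μ {ω | gz k h ω ∈ E3}
      ≤ (ENNReal.ofReal e1 +
          ENNReal.ofReal ((2 * Rb + 1) ^ d * (C * Real.exp (-(κ3 / (C * Real.sqrt sw)))))) +
          ENNReal.ofReal (CB * 3 ^ d * Real.exp (-(lam * (1 / 4)))) :=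
        add_le_add ((measure_union_le _ _).trans (add_le_add p4 q1)) p3
    _ = ENNReal.ofReal ((e1 + (2 * Rb + 1) ^ d * (C * Real.exp (-(κ3 / (C * Real.sqrt sw))))) +
          CB * 3 ^ d * Real.exp (-(lam * (1 / 4)))) := by
        rw [← ENNReal.ofReal_add he1p.le (by positivity),
          ← ENNReal.ofReal_add (by positivity) (by positivity)]
    _ ≤ _ := by
        refine ENNReal.ofReal_le_ofReal ?_
        have h5 : CB * 3 ^ d * Real.exp (-(lam * (1 / 4))) ≤ CB * 3 ^ d * e1 :=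
          mul_le_mul_of_nonneg_left hcmp4 (by linarith)
        have h6 : (CB * 3 ^ d + 1) * e1 ≤ C * e1 := mul_le_mul_of_nonneg_right hC3 he1p.le
        linarith

end DynC

end

/-! ### from `Lib_MP_36b788c.BrA` -/

section

/-!
# The bridge at the level of states: expectation of the difference for the controlled pair

`Z = trajT (P.bst β k h) G ω`, `P = bpar β k h κ κd M6 M8 A0 ns Rb y`, `s = a'/ell`, `θ = a/ell`, `wpr` at the start.

PROOF of `brA`. `E1 = {RegB κ2 κ3 k h ns y Rb ω}`, `E2` its complement (measurable: `measurable_lppM`). `pair_est` (with `H ω = Z m`, `Al = alvC P β k h G m`) for `E1` and for `E2`.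
* `(∫_Al wpr(Z m)(x)^4)^{1/4} ≤ C wpr(G)(x)`: `wpr_mom`, `V^4 = V` at exponent `4s` (`V_sq` twice), `vm_ctl` with exponent `4s = 4a'/ell`, `V_one_pair`; `8 q 4 s ≤ 1` for small `k`.
* `E1`: `Db x ω = ofReal((2 A0 exp(ell(lppM (1/8) 0 (gz k h ω) m x + M8 - max(dist y x, Rb)/2)))^θ)`: by `brg_reg` `D_ns v ≤ A0 exp(ell(M8 - max(dist y v, Rb)/2))`, after `ns` the two components have the same noise (`ctl = 0`), `grow_path2` from time `ns` (`q' = 1/8`, `ρ = 1/2`, `(1+..)^n ≤ 2`), `lpp` started at time `ns` is at most `lpp` from time `0` (`lpp_shift`, `lpp_mono`). `(∫ Db^4)^{1/4} ≤ C A0^θ exp(a(M8 - max(dist,Rb)/2))`: `lpp_exp` with `lam = 4a`, `re_law`, `n v ≤ 8`. `max(dist, Rb) ≥ (7/8) dist + Rb/8`. So the factor is `C A0^θ e^{aM8 - aRb/16 - (7/16)a dist}`.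
* `E2`: `P(E2) ≤ ` the bound of `brg_noise`; `Db x ω = ofReal((A0 exp(ell(lppM (1/8) .. m x + M8 + 1 - dist y x/2)))^θ)` (`brg_grow`; the profile hypothesis of `brg_grow` follows from that of `brA`), `(∫ Db^4)^{1/4} ≤ C A0^θ exp(a(M8 + 1 - dist/2))`, `e^a ≤ 3`.
* error terms: `lin_ctl` for the sum; `P(Alᶜ)`: noise outside `gdC`: `≤ ns card h³`-type bound; first component `exit_bd` for `PS2` and the pair `(G.1, 0)`; second component: `tilt_mom` with `Ψ` = indicator of (some `‖traj G.2 ω j x‖ > rad` or noise bad), `≤ e^{Q/2} P(bad)^{1/2}`, `P(bad) ≤ ε1 (1 + Σ‖G.2‖)` by `exit_bd`, `√ε1 (1+Σ)`, `Q = P.En h ≤ 1` (`energy`, hypothesis `hQ`, small `k`, `h`): everything `≤ ε0 (1 + Σ)` for small `h`.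
-/

open MeasureTheory ProbabilityTheory
open scoped ENNReal

namespace DynC

open Dyn

/-- small probability of irregular noise -/
noncomputable def pBr (d : ℕ) (C κ3 sw : ℝ) (Rb : ℕ) : ℝ :=
  (2 * Rb + 1) ^ d * Real.exp (-(κ3 / (C * Real.sqrt sw))) + Real.exp (-(1 / (C * Real.sqrt sw)))

private theorem BrA_ell_large (K : ℝ) :
    ∃ k0 : ℝ, 0 < k0 ∧ k0 < 1 ∧ ∀ k, 0 < k → k < k0 → K ≤ ell k := by
  refine ⟨Real.exp (-(max K 1)), Real.exp_pos _, ?_, ?_⟩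
  · rw [Real.exp_lt_one_iff]
    have := le_max_right K 1
    linarith
  · intro k hk hk0
    unfold ell
    rw [one_div, Real.log_inv]
    have h1 := Real.log_lt_log hk hk0
    rw [Real.log_exp] at h1
    have := le_max_left K 1
    linarith

private theorem BrA_rpow {k : ℝ} (hk : 0 < k) (x : ℝ) : k ^ x = Real.exp (-(ell k * x)) := by
  rw [Real.rpow_def_of_pos hk]
  unfold ell
  rw [one_div, Real.log_inv]
  congr 1
  ring

private theorem BrA_pow {k c K : ℝ} (hk : 0 < k) (hc : 0 < c) (hK : 0 ≤ K) (h1 : 1 ≤ ell k)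
    (h2 : 12 * K / c ^ 3 ≤ ell k) : k ^ c * (K * (ell k ^ 2 + 1)) ≤ 1 := by
  rw [BrA_rpow hk]
  have h3 := Real.pow_div_factorial_le_exp (ell k * c) (by positivity) 3
  have h4 : Real.exp (-(ell k * c)) * Real.exp (ell k * c) = 1 := by
    rw [← Real.exp_add]
    simp
  rw [div_le_iff₀ (by positivity)] at h2
  have h5 : K * (ell k ^ 2 + 1) ≤ Real.exp (ell k * c) := by
    refine le_trans ?_ h3
    have h6 : (ell k * c) ^ 3 / (Nat.factorial 3 : ℝ) = ell k ^ 2 * (ell k * c ^ 3) / 6 := by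
      norm_num [Nat.factorial]
      ring
    rw [h6]
    have h7 : K * (ell k ^ 2 + 1) ≤ K * (2 * ell k ^ 2) := by
      apply mul_le_mul_of_nonneg_left _ hK
      nlinarith
    have h8 : ell k ^ 2 * (12 * K) ≤ ell k ^ 2 * (ell k * c ^ 3) :=
      mul_le_mul_of_nonneg_left h2 (by positivity)
    linarith
  calc Real.exp (-(ell k * c)) * (K * (ell k ^ 2 + 1))
      ≤ Real.exp (-(ell k * c)) * Real.exp (ell k * c) :=
        mul_le_mul_of_nonneg_left h5 (Real.exp_pos _).le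
    _ = 1 := h4

private theorem BrA_OK {d L : ℕ} {β k h κ κd M6 M8 A0 : ℝ} {ns Rb : ℕ} (y : boxS d L)
    (hk : 0 < k) (hκ : 0 < κ) (hκ1 : κ ≤ 1 / 8) (hκd : 0 < κd)
    (hκdk : κd ≤ κ / 64) (hM6 : 0 ≤ M6) (hM8 : 1 ≤ M8) (hA : 0 ≤ A0) (hell : 1 ≤ ell k)
    (hn1 : 1 ≤ ns * h) (hn2 : ns * h ≤ ell k ^ 3) :
    (bpar β k h κ κd M6 M8 A0 ns Rb y).OK β k h where
  hκ := hκ
  hκ1 := hκ1
  hM6 := hM6
  hM8 := by
    have h1 : (0 : ℝ) ≤ M8 := by linarith
    exact h1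
  hA := hA
  hm := by
    show min (κd * ell k + 4) (k ^ (-(M8 + M6)) * A0) ≤ κ / 16 * ell k + 4
    refine (min_le_left _ _).trans ?_
    nlinarith
  hm0 := by
    show 0 ≤ min (κd * ell k + 4) (k ^ (-(M8 + M6)) * A0)
    refine le_min (by positivity) ?_
    exact mul_nonneg (Real.rpow_nonneg hk.le _) hA
  hς := rfl
  hns := hn1
  hns1 := hn2

private theorem BrA_En {d L : ℕ} {β k h κ κd M6 M8 A0 sw : ℝ} {ns Rb : ℕ} (y : boxS d L)
    (hk : 0 < k) (hh : 0 < h) (hκd : 0 < κd)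
    (hA : 0 ≤ A0) (hell : 1 ≤ ell k)
    (hsw : 0 < sw) (hn1 : sw * ell k ^ 2 ≤ ns * h) (hn2 : ns * h ≤ ell k ^ 2 + 1)
    (hkd : 16 * (2 * Rb + 1) ^ d * κd ^ 2 ≤ sw)
    (h1 : 256 * (2 * Rb + 1) ^ d / sw ≤ ell k)
    (h2 : k ^ (2 * (min 1 β * κ / 8)) * (160 * (2 * Rb + 1) ^ d * (ell k ^ 2 + 1)) ≤ 1) :
    (bpar β k h κ κd M6 M8 A0 ns Rb y).En h ≤ 1 := by
  set N : ℝ := (2 * Rb + 1) ^ d with hN
  have hN0 : 0 < N := by positivity
  set P := bpar β k h κ κd M6 M8 A0 ns Rb y with hP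
  have hell0 : 0 < ell k := by linarith
  have hm0 : 0 ≤ P.m0 := by
    show 0 ≤ min (κd * ell k + 4) (k ^ (-(M8 + M6)) * A0)
    exact le_min (by positivity) (mul_nonneg (Real.rpow_nonneg hk.le _) hA)
  have hm1 : P.m0 ≤ κd * ell k + 4 := min_le_left _ _
  have hς0 : 0 ≤ P.ς := by
    show 0 ≤ h * min (k ^ (min 1 β * κ / 8)) (k ^ (-(M8 + 2 * M6 + 4)) * A0)
    exact mul_nonneg hh.le (le_min (Real.rpow_nonneg hk.le _)
      (mul_nonneg (Real.rpow_nonneg hk.le _) hA))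
  have hς1 : P.ς ≤ h * k ^ (min 1 β * κ / 8) :=
    mul_le_mul_of_nonneg_left (min_le_left _ _) hh.le
  have e1 : P.En h = N * (2 * P.m0 ^ 2 / ((ns + 1) * h) + 40 * P.ς ^ 2 * ns / h) := rfl
  rw [e1]
  have hnh : sw * ell k ^ 2 ≤ (ns + 1) * h := by nlinarith
  have hnh0 : 0 < sw * ell k ^ 2 := by positivity
  have t1 : 2 * P.m0 ^ 2 / ((ns + 1) * h) ≤ (4 * κd ^ 2 * ell k ^ 2 + 64) / (sw * ell k ^ 2) := by
    have t2 : 2 * P.m0 ^ 2 ≤ 4 * κd ^ 2 * ell k ^ 2 + 64 := by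
      have t3 : P.m0 ^ 2 ≤ (κd * ell k + 4) ^ 2 := pow_le_pow_left₀ hm0 hm1 2
      nlinarith [sq_nonneg (κd * ell k - 4)]
    exact div_le_div₀ (by positivity) t2 hnh0 hnh
  have t4 : (4 * κd ^ 2 * ell k ^ 2 + 64) / (sw * ell k ^ 2) =
      4 * κd ^ 2 / sw + 64 / (sw * ell k ^ 2) := by
    field_simp
  have t5 : N * (4 * κd ^ 2 / sw) ≤ 1 / 4 := by
    have e2 : N * (4 * κd ^ 2 / sw) = (16 * N * κd ^ 2) / sw / 4 := by ring
    rw [e2]
    have : (16 * N * κd ^ 2) / sw ≤ 1 := (div_le_one hsw).2 hkd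
    linarith
  have t6 : N * (64 / (sw * ell k ^ 2)) ≤ 1 / 4 := by
    rw [div_le_iff₀ hsw] at h1
    have e3 : N * (64 / (sw * ell k ^ 2)) = 64 * N / (sw * ell k ^ 2) := by ring
    rw [e3, div_le_iff₀ hnh0]
    have h3 : ell k * sw ≤ sw * ell k ^ 2 := by nlinarith
    nlinarith
  have t7 : 40 * P.ς ^ 2 * ns / h ≤ 40 * k ^ (2 * (min 1 β * κ / 8)) * (ns * h) := by
    have t8 : P.ς ^ 2 ≤ (h * k ^ (min 1 β * κ / 8)) ^ 2 := pow_le_pow_left₀ hς0 hς1 2
    have t9 : k ^ (2 * (min 1 β * κ / 8)) = (k ^ (min 1 β * κ / 8)) ^ 2 := by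
      rw [← Real.rpow_natCast, ← Real.rpow_mul hk.le]
      congr 1
      push_cast
      ring
    rw [div_le_iff₀ hh, t9]
    have hns : (0 : ℝ) ≤ ns := Nat.cast_nonneg ns
    calc 40 * P.ς ^ 2 * ns ≤ 40 * (h * k ^ (min 1 β * κ / 8)) ^ 2 * ns := by gcongr
      _ = 40 * (k ^ (min 1 β * κ / 8)) ^ 2 * (ns * h) * h := by ring
  have hp0 : 0 ≤ k ^ (2 * (min 1 β * κ / 8)) := Real.rpow_nonneg hk.le _
  have t10 : N * (40 * k ^ (2 * (min 1 β * κ / 8)) * (ns * h)) ≤ 1 / 4 := by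
    have t11 : N * (40 * k ^ (2 * (min 1 β * κ / 8)) * (ns * h)) ≤
        N * (40 * k ^ (2 * (min 1 β * κ / 8)) * (ell k ^ 2 + 1)) := by gcongr
    refine t11.trans ?_
    have e4 : N * (40 * k ^ (2 * (min 1 β * κ / 8)) * (ell k ^ 2 + 1)) =
      (k ^ (2 * (min 1 β * κ / 8)) * (160 * N * (ell k ^ 2 + 1))) / 4 := by ring
    rw [e4]
    linarith
  calc N * (2 * P.m0 ^ 2 / ((ns + 1) * h) + 40 * P.ς ^ 2 * ns / h)
      ≤ N * ((4 * κd ^ 2 / sw + 64 / (sw * ell k ^ 2)) +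
          40 * k ^ (2 * (min 1 β * κ / 8)) * (ns * h)) := by
        apply mul_le_mul_of_nonneg_left _ hN0.le
        rw [t4] at t1
        exact add_le_add t1 t7
    _ = N * (4 * κd ^ 2 / sw) + N * (64 / (sw * ell k ^ 2)) +
          N * (40 * k ^ (2 * (min 1 β * κ / 8)) * (ns * h)) := by ring
    _ ≤ 1 := by linarith

private theorem BrA_meas_gz {d L : ℕ} (k h : ℝ) :
    Measurable (fun ω : ℕ → boxS d L → ℂ => gz k h ω) := by
  refine measurable_pi_lambda _ fun j => measurable_pi_lambda _ fun x => ?_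
  unfold gz
  exact ((Complex.measurable_re.comp ((measurable_pi_apply x).comp
    (measurable_pi_apply j))).const_mul _).div_const _

private theorem BrA_meas_RegB {d L : ℕ} (κ2 κ3 k h : ℝ) (ns : ℕ) (y : boxS d L) (Rb : ℕ) :
    MeasurableSet {ω : ℕ → boxS d L → ℂ | RegB κ2 κ3 k h ns y Rb ω} := by
  have e : {ω : ℕ → boxS d L → ℂ | RegB κ2 κ3 k h ns y Rb ω} =
      (⋂ (j : ℕ) (_ : j < ns) (x : boxS d L), {ω : ℕ → boxS d L → ℂ | ω j x ∈ gdC h}) ∩
      ((⋂ (x : boxS d L) (_ : (boxNet d L).dist y x ≤ Rb),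
        ((⋂ v : boxS d L, {ω : ℕ → boxS d L → ℂ |
            (boxMSet d L).lppM (κ2 / 2) (fun _ => 0) (gz k h ω) ns v ≤
              κ3 * (1 + (boxNet d L).dist x v)}) ∩
          ⋂ (i : ℕ) (j : ℕ) (_ : i ≤ j) (_ : j ≤ ns),
            {ω : ℕ → boxS d L → ℂ | |∑ l ∈ Finset.Ico i j, gz k h ω l x| ≤ κ3})) ∩
      ⋂ v : boxS d L, {ω : ℕ → boxS d L → ℂ |
        (boxMSet d L).lppM (1 / 8) (fun _ => 0) (gz k h ω) ns v ≤
          1 / 4 + (boxNet d L).dist y v / 16}) := by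
    ext ω
    simp only [RegB, Set.mem_ofPred_eq, Set.mem_inter_iff, Set.mem_iInter]
  rw [e]
  have hg := BrA_meas_gz (d := d) (L := L) k h
  have hgd : MeasurableSet (gdC h) := measurableSet_le (measurable_norm.const_mul _) measurable_const
  refine MeasurableSet.inter ?_ (MeasurableSet.inter ?_ ?_)
  · refine MeasurableSet.iInter fun j => MeasurableSet.iInter fun _ =>
      MeasurableSet.iInter fun x => ?_
    exact ((measurable_pi_apply x).comp (measurable_pi_apply j)) hgd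
  · refine MeasurableSet.iInter fun x => MeasurableSet.iInter fun _ =>
      MeasurableSet.inter (MeasurableSet.iInter fun v => ?_)
        (MeasurableSet.iInter fun i => MeasurableSet.iInter fun j =>
          MeasurableSet.iInter fun _ => MeasurableSet.iInter fun _ => ?_)
    · exact measurableSet_le ((measurable_lppM (boxMSet d L) _ _ ns v).comp hg) measurable_const
    · refine measurableSet_le ?_ measurable_const
      have e2 : Measurable fun ω : ℕ → boxS d L → ℂ => ∑ l ∈ Finset.Ico i j, gz k h ω l x := by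
        refine Finset.measurable_fun_sum _ ?_
        intro l _
        have e3 : Measurable fun g : ℕ → boxS d L → ℝ => g l x :=
          (measurable_pi_apply x).comp (measurable_pi_apply l)
        exact e3.comp hg
      exact e2.abs
  · refine MeasurableSet.iInter fun v => ?_
    exact measurableSet_le ((measurable_lppM (boxMSet d L) _ _ ns v).comp hg) measurable_const

/-- exponential moments of the last passage functional for the complex noise -/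
private theorem BrA_lpp (d : ℕ) : ∃ lam0 C : ℝ, 0 < lam0 ∧ 0 < C ∧ ∀ (k h : ℝ), 0 < k → k < 1 →
    0 < h → h / ell k ^ 2 ≤ 1 / lam0 ^ 2 → ∀ (L m : ℕ) (x : boxS d L) (lam : ℝ), 0 ≤ lam →
    lam ≤ lam0 →
    ∫⁻ ω, ENNReal.ofReal (Real.exp (lam * (boxMSet d L).lppM (1 / 8) (fun _ => 0) (gz k h ω) m x))
      ∂(PI (Measure.pi fun _ : boxS d L => gC)) ≤
      ENNReal.ofReal (Real.exp (C * (m * (h / ell k ^ 2) + 1) * lam)) := by
  obtain ⟨lam0, C, hl0, hC, hmain⟩ := lpp_exp d (1 / 8) (by norm_num)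
  refine ⟨lam0, C, hl0, hC, fun k h hk hk1 hh hv L m x lam hlam hlam0 => ?_⟩
  have hell : 0 < ell k := ell_pos hk hk1
  have h1 := hmain (boxS d L) (boxMSet d L) (h / ell k ^ 2) (by positivity) hv m x lam hlam hlam0
  refine le_trans (le_of_eq ?_) h1
  have hm : Measurable (fun (ω : ℕ → boxS d L → ℂ) (j : ℕ) (x : boxS d L) => (ω j x).re) := by
    refine measurable_pi_lambda _ fun j => measurable_pi_lambda _ fun x => ?_
    exact Complex.measurable_re.comp ((measurable_pi_apply x).comp (measurable_pi_apply j))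
  have hsc : Measurable (fun ω : ℕ → boxS d L → ℝ => sc (h / ell k ^ 2) ω) := by
    refine measurable_pi_lambda _ fun j => measurable_pi_lambda _ fun x => ?_
    have e3 : Measurable fun g : ℕ → boxS d L → ℝ => g j x :=
      (measurable_pi_apply x).comp (measurable_pi_apply j)
    unfold sc
    exact e3.const_mul _
  have hF : Measurable (fun ω : ℕ → boxS d L → ℝ => ENNReal.ofReal (Real.exp
      (lam * (boxMSet d L).lppM (1 / 8) (fun _ => 0) (sc (h / ell k ^ 2) ω) m x))) :=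
    (((measurable_lppM (boxMSet d L) (1 / 8) (fun _ => 0) m x).comp
      hsc).const_mul lam).exp.ennreal_ofReal
  rw [← re_map d L, lintegral_map hF hm]
  refine lintegral_congr fun ω => ?_
  have e1 : gz k h ω = sc (h / ell k ^ 2) (fun j x => (ω j x).re) := by
    funext j y
    unfold gz sc
    rw [Real.sqrt_div hh.le, Real.sqrt_sq hell.le]
    ring
  rw [e1]

/-- fourth moment of a bound of the difference -/
private theorem BrA_Db {Ω : Type} [MeasurableSpace Ω] (μ : Measure Ω) (Al : Set Ω) (X : Ω → ℝ)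
    (hX : Measurable X) (a B l c w θ : ℝ) (hc : 0 ≤ c) (hl : l * θ = a)
    (hm : ∫⁻ ω, ENNReal.ofReal (Real.exp (4 * a * X ω)) ∂μ ≤
      ENNReal.ofReal (Real.exp (4 * B))) :
    (∫⁻ ω in Al, ENNReal.ofReal ((c * Real.exp (l * (X ω + w))) ^ θ) ^ 4 ∂μ) ^ (1 / 4 : ℝ) ≤
      ENNReal.ofReal (c ^ θ * Real.exp (a * w + B)) := by
  have e1 : ∀ ω, ENNReal.ofReal ((c * Real.exp (l * (X ω + w))) ^ θ) ^ 4 =
      ENNReal.ofReal (c ^ θ * Real.exp (a * w)) ^ 4 *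
        ENNReal.ofReal (Real.exp (4 * a * X ω)) := by
    intro ω
    have e2 : (c * Real.exp (l * (X ω + w))) ^ θ =
        c ^ θ * Real.exp (a * w) * Real.exp (a * X ω) := by
      rw [Real.mul_rpow hc (Real.exp_pos _).le, ← Real.exp_mul, mul_assoc (c ^ θ),
        ← Real.exp_add, ← hl]
      congr 2
      ring
    have h0 : 0 ≤ c ^ θ * Real.exp (a * w) :=
      mul_nonneg (Real.rpow_nonneg hc _) (Real.exp_pos _).le
    rw [e2, ENNReal.ofReal_mul h0, mul_pow]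
    congr 1
    rw [← ENNReal.ofReal_pow (Real.exp_pos _).le, ← Real.exp_nat_mul]
    congr 2
    push_cast
    ring
  rw [lintegral_congr e1, lintegral_const_mul _ ((hX.const_mul _).exp.ennreal_ofReal)]
  have h1 : ∫⁻ ω in Al, ENNReal.ofReal (Real.exp (4 * a * X ω)) ∂μ ≤
      ENNReal.ofReal (Real.exp (4 * B)) := (setLIntegral_le_lintegral _ _).trans hm
  refine (ENNReal.rpow_le_rpow (mul_le_mul_right h1 _) (by norm_num)).trans (le_of_eq ?_)
  rw [ENNReal.mul_rpow_of_nonneg _ _ (by norm_num), ← ENNReal.rpow_natCast, ← ENNReal.rpow_mul]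
  norm_num
  rw [ENNReal.ofReal_rpow_of_pos (Real.exp_pos _), ← Real.exp_mul,
    ← ENNReal.ofReal_mul (mul_nonneg (Real.rpow_nonneg hc _) (Real.exp_pos _).le), mul_assoc,
    ← Real.exp_add]
  congr 3
  ring

private theorem BrA_fac {d : ℕ} {k h : ℝ} {n : ℕ} (hk : 0 < k) (hh : 0 < h)
    (hn : n * h ≤ 4 * ell k ^ 2 + 4)
    (h1 : k ^ (3 / 8 : ℝ) * (32 * d * (ell k ^ 2 + 1)) ≤ 1) :
    (1 + 4 * d * k ^ (3 / 8 : ℝ) * h) ^ n ≤ 2 := by
  have hp := Real.rpow_nonneg hk.le (3 / 8 : ℝ)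
  have h2 : 1 + 4 * d * k ^ (3 / 8 : ℝ) * h ≤ Real.exp (4 * d * k ^ (3 / 8 : ℝ) * h) := by
    have := Real.add_one_le_exp (4 * d * k ^ (3 / 8 : ℝ) * h)
    linarith
  have h3 : (1 + 4 * d * k ^ (3 / 8 : ℝ) * h) ^ n ≤
      Real.exp (4 * d * k ^ (3 / 8 : ℝ) * h) ^ n := pow_le_pow_left₀ (by positivity) h2 n
  rw [← Real.exp_nat_mul] at h3
  refine h3.trans ?_
  have h4 : (n : ℝ) * (4 * d * k ^ (3 / 8 : ℝ) * h) ≤ 1 / 2 := by
    calc (n : ℝ) * (4 * d * k ^ (3 / 8 : ℝ) * h) = 4 * d * k ^ (3 / 8 : ℝ) * (n * h) := by ring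
      _ ≤ 4 * d * k ^ (3 / 8 : ℝ) * (4 * ell k ^ 2 + 4) := by gcongr
      _ = (k ^ (3 / 8 : ℝ) * (32 * d * (ell k ^ 2 + 1))) / 2 := by ring
      _ ≤ 1 / 2 := by linarith
  have h5 : Real.exp ((n : ℝ) * (4 * d * k ^ (3 / 8 : ℝ) * h)) ≤ Real.exp (Real.log 2) :=
    Real.exp_le_exp.2 (by
      have := Real.log_two_gt_d9
      linarith)
  rwa [Real.exp_log (by norm_num)] at h5

/-- after the bridge the difference grows as for equal noise -/
private theorem BrA_D1 {d L : ℕ} {β k h : ℝ} (hβ : 0 < β) (hk : 0 < k) (hk1 : k < 1) (hh : 0 < h)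
    (P : BPar d L) (G : (boxS d L → ℂ) × (boxS d L → ℂ)) (ω : ℕ → boxS d L → ℂ) (m : ℕ)
    (hm : P.ns ≤ m) (hmh : m * h ≤ 4 * ell k ^ 2 + 4)
    (hfac : k ^ (3 / 8 : ℝ) * (32 * d * (ell k ^ 2 + 1)) ≤ 1) (hA : 0 ≤ P.A0) (M8 : ℝ)
    (h0 : ∀ v, ‖(trajT (P.bst β k h) G ω P.ns).1 v - (trajT (P.bst β k h) G ω P.ns).2 v‖ ≤
        P.A0 * Real.exp (ell k * (M8 - max ((boxNet d L).dist P.y v : ℝ) P.Rb / 2)))
    (x : boxS d L) :
    ‖(trajT (P.bst β k h) G ω m).1 x - (trajT (P.bst β k h) G ω m).2 x‖ ≤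
      2 * P.A0 * Real.exp (ell k * ((boxMSet d L).lppM (1 / 8) (fun _ => 0) (gz k h ω) m x +
        (M8 - max ((boxNet d L).dist P.y x : ℝ) P.Rb / 2))) := by
  obtain ⟨n, rfl⟩ := Nat.exists_eq_add_of_le hm
  have hell : 0 < ell k := ell_pos hk hk1
  have h1 := grow_path2 d L k h (3 / 8) (1 / 8) (1 / 2) P.A0 hk hk1 hh hA (by norm_num)
    (by norm_num) (by norm_num) (by norm_num) (fun j z => bC h (ω (P.ns + j) z))
    (fun j z => ‖(trajT (P.bst β k h) G ω (P.ns + j)).1 z -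
      (trajT (P.bst β k h) G ω (P.ns + j)).2 z‖)
    (fun v => M8 - max ((boxNet d L).dist P.y v : ℝ) P.Rb / 2)
    (fun u v hv => by
      have h2 := (boxNet d L).dist_tri P.y v u
      rw [(boxNet d L).dist_comm v u, (boxNet d L).dist_nb u v hv] at h2
      have h3 : ((boxNet d L).dist P.y u : ℝ) ≤ (boxNet d L).dist P.y v + 1 := by
        exact_mod_cast h2
      have h4 : max ((boxNet d L).dist P.y u : ℝ) P.Rb ≤
          max ((boxNet d L).dist P.y v : ℝ) P.Rb + 1 := by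
        refine max_le ?_ ?_
        · have := le_max_left ((boxNet d L).dist P.y v : ℝ) P.Rb
          linarith
        · have := le_max_right ((boxNet d L).dist P.y v : ℝ) P.Rb
          linarith
      linarith)
    h0 n
    (fun j _ z => by
      left
      have e1 : trajT (P.bst β k h) G ω (P.ns + (j + 1)) =
        P.bst β k h (P.ns + j) (trajT (P.bst β k h) G ω (P.ns + j)) (ω (P.ns + j)) := rfl
      have e2 : P.ctl k h (P.ns + j) (trajT (P.bst β k h) G ω (P.ns + j)) z = 0 := by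
        unfold BPar.ctl
        rw [if_neg]
        intro hc
        have := hc.2.1
        omega
      show ‖(trajT (P.bst β k h) G ω (P.ns + (j + 1))).1 z -
        (trajT (P.bst β k h) G ω (P.ns + (j + 1))).2 z‖ ≤ _
      rw [e1]
      exact st2_d1 d hβ hk.le hh L (trajT (P.bst β k h) G ω (P.ns + j)).1
        (trajT (P.bst β k h) G ω (P.ns + j)).2 (ω (P.ns + j))
        (fun w => ω (P.ns + j) w + P.ctl k h (P.ns + j) (trajT (P.bst β k h) G ω (P.ns + j)) w) z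
        (by
          show ω (P.ns + j) z + P.ctl k h (P.ns + j) (trajT (P.bst β k h) G ω (P.ns + j)) z = _
          rw [e2, add_zero])) x
  refine h1.trans ?_
  have hnh : (n : ℝ) * h ≤ 4 * ell k ^ 2 + 4 := by
    refine le_trans ?_ hmh
    have : (0 : ℝ) ≤ P.ns := Nat.cast_nonneg _
    push_cast
    nlinarith
  have hf := BrA_fac (d := d) hk hh hnh hfac
  have hl : (boxMSet d L).lpp (1 / 8) (fun _ => 0)
      (fun j y => bC h (ω (P.ns + j) y) / ell k) n x ≤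
      (boxMSet d L).lppM (1 / 8) (fun _ => 0) (gz k h ω) (P.ns + n) x := by
    have e3 : (fun (j : ℕ) (y : boxS d L) => bC h (ω (P.ns + j) y) / ell k) =
        fun j => gz k h ω (P.ns + j) := rfl
    rw [e3]
    refine le_trans (lpp_mono (boxMSet d L) (1 / 8) (fun _ => 0)
      ((boxMSet d L).lpp (1 / 8) (fun _ => 0) (gz k h ω) P.ns)
      (fun z => lpp_nonneg (boxMSet d L) (1 / 8) (fun _ => 0) (fun _ => le_refl _) _ _ z)
      _ n x) ?_
    rw [← lpp_shift]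
    exact le_lppM (boxMSet d L) _ _ _ (le_refl _) x
  have hA2 : P.A0 * (1 + 4 * d * k ^ (3 / 8 : ℝ) * h) ^ n ≤ 2 * P.A0 := by
    calc P.A0 * (1 + 4 * d * k ^ (3 / 8 : ℝ) * h) ^ n ≤ P.A0 * 2 :=
          mul_le_mul_of_nonneg_left hf hA
      _ = 2 * P.A0 := by ring
  refine mul_le_mul hA2 ?_ (Real.exp_pos _).le (by positivity)
  apply Real.exp_le_exp.2
  apply mul_le_mul_of_nonneg_left _ hell.le
  linarith

/-- fourth moment of the weight -/
private theorem BrA_wpr {d L : ℕ} {β k h q s α C : ℝ} (P : BPar d L)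
    (G : (boxS d L → ℂ) × (boxS d L → ℂ)) (m : ℕ) (hC : 1 ≤ C) (hα : 0 ≤ α) (hk : 0 < k)
    (hk1 : k < 1) (hq : 1 ≤ q) (hs : 0 < s) (hkq : k ^ (1 / 4 : ℝ) * 2 ^ (q - 1) ≤ 1)
    (hV : ∀ x, ∫⁻ ω in alvC P β k h G m, V1 k q (4 * s) (trajT (P.bst β k h) G ω m) x
          ∂(PI (Measure.pi fun _ : boxS d L => gC)) ≤ ENNReal.ofReal C * V1 k q (4 * s) G x ∧
      ∫⁻ ω in alvC P β k h G m, V2 k q (4 * s) (trajT (P.bst β k h) G ω m) x
          ∂(PI (Measure.pi fun _ : boxS d L => gC)) ≤ ENNReal.ofReal C * V2 k q (4 * s) G x)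
    (x : boxS d L) :
    (∫⁻ ω in alvC P β k h G m, wpr (boxNet d L) k q s α (trajT (P.bst β k h) G ω m).1
        (trajT (P.bst β k h) G ω m).2 x ^ 4 ∂(PI (Measure.pi fun _ : boxS d L => gC))) ^
        (1 / 4 : ℝ) ≤
      ENNReal.ofReal C * wpr (boxNet d L) k q s α G.1 G.2 x := by
  have hZ : Measurable fun ω : ℕ → boxS d L → ℂ => trajT (P.bst β k h) G ω m :=
    (measurable_trajT (P.bst β k h) (fun j => measurable_bst P β k h j) m).comp
      (measurable_const.prodMk measurable_id)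
  have e1 : ∀ (G : (boxS d L → ℂ) × (boxS d L → ℂ)) (x : boxS d L),
      V1 k q s G x ^ 4 = V1 k q (4 * s) G x ∧ V2 k q s G x ^ 4 = V2 k q (4 * s) G x := by
    intro G x
    have h1 := V_sq k q s G x
    have h2 := V_sq k q (2 * s) G x
    rw [show 2 * (2 * s) = 4 * s by ring] at h2
    constructor
    · rw [← h2.1, ← h1.1, ← pow_mul]
    · rw [← h2.2, ← h1.2, ← pow_mul]
  have h2 := wpr_mom (PI (Measure.pi fun _ : boxS d L => gC)) (alvC P β k h G m)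
    (measurableSet_alvC P β k h G m) (fun ω => trajT (P.bst β k h) G ω m) hZ k q s α C hC hα G
    (fun z => V_one_pair hk hk1 hq hs hkq G z)
    (fun z => by
      constructor
      · rw [(e1 G z).1, lintegral_congr fun ω => (e1 (trajT (P.bst β k h) G ω m) z).1]
        exact (hV z).1
      · rw [(e1 G z).2, lintegral_congr fun ω => (e1 (trajT (P.bst β k h) G ω m) z).2]
        exact (hV z).2) x
  refine (ENNReal.rpow_le_rpow h2 (by norm_num)).trans ?_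
  rw [ENNReal.mul_rpow_of_nonneg _ _ (by norm_num)]
  refine mul_le_mul' ?_ (le_of_eq ?_)
  · have h3 : (1 : ℝ≥0∞) ≤ ENNReal.ofReal C := by
      rw [← ENNReal.ofReal_one]
      exact ENNReal.ofReal_le_ofReal hC
    calc ENNReal.ofReal C ^ (1 / 4 : ℝ) ≤ ENNReal.ofReal C ^ (1 : ℝ) :=
          ENNReal.rpow_le_rpow_of_exponent_le h3 (by norm_num)
      _ = ENNReal.ofReal C := ENNReal.rpow_one _
  · rw [← ENNReal.rpow_natCast, ← ENNReal.rpow_mul]
    norm_num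

private theorem BrA_tr (d : ℕ) {β k : ℝ} (hβ : 0 < β) (hk : 0 ≤ k) (h : ℝ) (L : ℕ)
    (G : (boxS d L → ℂ) × (boxS d L → ℂ)) (ω : ℕ → boxS d L → ℂ) (n : ℕ) :
    ((PS2 d β k hβ hk).tr h L G ω n).1 = traj (st2 d β k h L) G.1 ω n := by
  induction n with
  | zero => rfl
  | succ n ih =>
    show st2 d β k h L ((PS2 d β k hβ hk).tr h L G ω n).1 (ω n) =
      st2 d β k h L (traj (st2 d β k h L) G.1 ω n) (ω n)
    rw [ih]

/-- probability that the controlled pair is not alive -/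
private theorem BrA_exit {d : ℕ} {β : ℝ} (hβ : 0 < β) {k : ℝ} (hk : 0 < k) (L : ℕ) (Sm ε0 : ℝ)
    (hSm : 0 ≤ Sm) (hε : 0 < ε0) :
    ∃ h0 : ℝ, 0 < h0 ∧ ∀ h, 0 < h → h < h0 → ∀ (P : BPar d L), 0 ≤ P.m0 → 0 ≤ P.ς →
      P.En h ≤ 1 → ∀ (G : (boxS d L → ℂ) × (boxS d L → ℂ)) (m : ℕ), m * h ≤ Sm →
      PI (Measure.pi fun _ : boxS d L => gC) (alvC P β k h G m)ᶜ ≤
        ENNReal.ofReal (ε0 * (1 + ∑ x, (‖G.1 x‖ + ‖G.2 x‖))) := by
  set S := PS2 d β k hβ hk.le with hS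
  set δ : ℝ := min 1 (ε0 / 3) with hδ
  have hδ0 : 0 < δ := lt_min one_pos (by positivity)
  have hδ1 : δ ≤ 1 := min_le_left _ _
  have hδ2 : 3 * δ ≤ ε0 := by
    have := min_le_right 1 (ε0 / 3)
    linarith
  obtain ⟨h0, hh0, hex⟩ := exit_bd 2 hβ hk.le S bnoise2 L Sm (δ ^ 2) hSm (by positivity)
  refine ⟨h0, hh0, fun h hh hhh P hm0 hς hEn G m hm => ?_⟩
  have hx1 := hex h hh hhh (G.1, fun _ => 0) m hm
  have hx2 := hex h hh hhh (G.2, fun _ => 0) m hm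
  set μ : Measure (ℕ → boxS d L → ℂ) := PI (Measure.pi fun _ : boxS d L => gC) with hμ
  set v := P.vct β k h G with hv
  have hvm : ∀ j, Measurable (v j) := fun j => measurable_vct P β k h G j
  have hsh : Measurable (fun ω : ℕ → boxS d L → ℂ => shft v ω) := by
    refine measurable_pi_lambda _ fun j => measurable_pi_lambda _ fun x => ?_
    have m1 : Measurable fun ω : ℕ → boxS d L → ℂ => ω j x :=
      (measurable_pi_apply x).comp (measurable_pi_apply j)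
    have m2 : Measurable fun ω : ℕ → boxS d L → ℂ => v j ω x :=
      (measurable_pi_apply x).comp (hvm j)
    exact m1.add m2
  set A1 : Set (ℕ → boxS d L → ℂ) := S.alv h L (G.1, fun _ => 0) m with hA1
  set A2 : Set (ℕ → boxS d L → ℂ) := S.alv h L (G.2, fun _ => 0) m with hA2
  have hA2m : MeasurableSet A2 := measurableSet_alv S h L (G.2, fun _ => 0) m
  have hx1' : μ A1ᶜ ≤ ENNReal.ofReal (δ ^ 2 * (1 + ∑ x, ‖G.1 x‖)) := by
    refine hx1.trans (le_of_eq ?_)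
    congr 3
    refine Finset.sum_congr rfl fun x _ => ?_
    show ‖G.1 x‖ + ‖(0 : ℂ)‖ = _
    rw [norm_zero, add_zero]
  have hx2' : μ A2ᶜ ≤ ENNReal.ofReal (δ ^ 2 * (1 + ∑ x, ‖G.2 x‖)) := by
    refine hx2.trans (le_of_eq ?_)
    congr 3
    refine Finset.sum_congr rfl fun x _ => ?_
    show ‖G.2 x‖ + ‖(0 : ℂ)‖ = _
    rw [norm_zero, add_zero]
  have hsub : (alvC P β k h G m)ᶜ ⊆ A1ᶜ ∪ (fun ω => shft v ω) ⁻¹' A2ᶜ := by
    intro ω hω
    by_contra hc
    apply hω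
    rw [Set.mem_union, not_or] at hc
    have c1 : ω ∈ A1 := by
      by_contra h1
      exact hc.1 h1
    have c2 : shft v ω ∈ A2 := by
      by_contra h1
      exact hc.2 h1
    refine ⟨fun j hj x => c1.1 j hj x, fun j hj x => ⟨?_, ?_⟩⟩
    · have h1 := (c1.2 j hj x).1
      have h2 : (S.tr h L (G.1, fun _ => 0) ω j).1 = traj (st2 d β k h L) G.1 ω j :=
        BrA_tr d hβ hk.le h L (G.1, fun _ => 0) ω j
      rw [h2] at h1
      rw [bst_fst]
      exact h1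
    · have h1 := (c2.2 j hj x).1
      have h2 := BrA_tr d hβ hk.le h L (G.2, fun _ => 0) (shft v ω) j
      rw [bst_snd, ← h2]
      exact h1
  have hΨ : Measurable (A2ᶜ.indicator (fun _ : ℕ → boxS d L → ℂ => (1 : ℝ≥0∞))) :=
    measurable_const.indicator hA2m.compl
  have ht := tilt_mom cmart_gC P.ns v hvm (fun j => dep_vct P β k h G j)
    (fun j hj ω => vct_zero P β k h G j hj ω) 1 zero_le_one
    (fun ω => (energy P β k h hh hm0 hς G ω).trans hEn)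
    (A2ᶜ.indicator (fun _ : ℕ → boxS d L → ℂ => (1 : ℝ≥0∞))) hΨ
  have e1 : ∫⁻ ω, A2ᶜ.indicator (fun _ : ℕ → boxS d L → ℂ => (1 : ℝ≥0∞)) (shft v ω) ∂μ =
      μ ((fun ω => shft v ω) ⁻¹' A2ᶜ) := by
    rw [← lintegral_indicator_one (hsh hA2m.compl)]
    rfl
  have e2 : ∫⁻ ω, A2ᶜ.indicator (fun _ : ℕ → boxS d L → ℂ => (1 : ℝ≥0∞)) ω ^ 2 ∂μ = μ A2ᶜ := by
    rw [← lintegral_indicator_one hA2m.compl]
    refine lintegral_congr fun ω => ?_
    by_cases hω : ω ∈ A2ᶜ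
    · rw [Set.indicator_of_mem hω, Set.indicator_of_mem hω]
      simp
    · rw [Set.indicator_of_notMem hω, Set.indicator_of_notMem hω]
      simp
  rw [← hμ, e1, e2] at ht
  set S1 : ℝ := ∑ x, ‖G.1 x‖ with hS1
  set S2 : ℝ := ∑ x, ‖G.2 x‖ with hS2
  have hS10 : 0 ≤ S1 := Finset.sum_nonneg fun x _ => norm_nonneg _
  have hS20 : 0 ≤ S2 := Finset.sum_nonneg fun x _ => norm_nonneg _
  have ht2 : μ ((fun ω => shft v ω) ⁻¹' A2ᶜ) ≤ ENNReal.ofReal (2 * (δ * (1 + S2))) := by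
    refine ht.trans ?_
    have h1 : (μ A2ᶜ) ^ (1 / 2 : ℝ) ≤ ENNReal.ofReal (δ * (1 + S2)) := by
      have h2 : μ A2ᶜ ≤ ENNReal.ofReal (δ * (1 + S2)) ^ (2 : ℝ) := by
        refine hx2'.trans ?_
        rw [ENNReal.ofReal_rpow_of_nonneg (by positivity) (by norm_num)]
        apply ENNReal.ofReal_le_ofReal
        rw [show (2 : ℝ) = ((2 : ℕ) : ℝ) by norm_num, Real.rpow_natCast]
        have : 0 ≤ δ ^ 2 * (1 + S2) * S2 := by positivity
        nlinarith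
      calc (μ A2ᶜ) ^ (1 / 2 : ℝ) ≤ (ENNReal.ofReal (δ * (1 + S2)) ^ (2 : ℝ)) ^ (1 / 2 : ℝ) :=
            ENNReal.rpow_le_rpow h2 (by norm_num)
        _ = ENNReal.ofReal (δ * (1 + S2)) := by
            rw [← ENNReal.rpow_mul]
            norm_num
    have h3 : Real.exp (1 / 2) ≤ 2 := by
      have h4 : Real.exp (1 / 2) ≤ Real.exp (Real.log 2) := by
        apply Real.exp_le_exp.2
        have := Real.log_two_gt_d9
        linarith
      rwa [Real.exp_log (by norm_num)] at h4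
    rw [ENNReal.ofReal_mul (by norm_num : (0 : ℝ) ≤ 2)]
    exact mul_le_mul' (ENNReal.ofReal_le_ofReal h3) h1
  refine (measure_mono hsub).trans ((measure_union_le _ _).trans
    ((add_le_add hx1' ht2).trans ?_))
  rw [← ENNReal.ofReal_add (by positivity) (by positivity)]
  apply ENNReal.ofReal_le_ofReal
  rw [Finset.sum_add_distrib]
  have h5 : δ ^ 2 ≤ δ := by nlinarith
  have h6 : δ ^ 2 * (1 + S1) ≤ δ * (1 + S1) := mul_le_mul_of_nonneg_right h5 (by positivity)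
  have h7 : 3 * δ * (1 + (S1 + S2)) ≤ ε0 * (1 + (S1 + S2)) :=
    mul_le_mul_of_nonneg_right hδ2 (by positivity)
  have h8 : 0 ≤ δ * S1 := by positivity
  have h9 : 0 ≤ δ * S2 := by positivity
  nlinarith

private theorem BrA_part {d L : ℕ} (A b t : boxS d L → ℝ) (E0 : ℝ≥0∞)
    (I4 J4 W : boxS d L → ℝ≥0∞) (p Cv : ℝ) (hA : ∀ x, 0 ≤ A x) (hp0 : 0 ≤ p)
    (hb0 : ∀ x, 0 ≤ b x) (hp : E0 ≤ ENNReal.ofReal p)
    (hb : ∀ x, I4 x ≤ ENNReal.ofReal (b x)) (hw : ∀ x, J4 x ≤ ENNReal.ofReal Cv * W x)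
    (ht : ∀ x, 4 * A x * p * b x * Cv ≤ t x) :
    ∑ x, ENNReal.ofReal (4 * A x) * E0 * I4 x * J4 x ≤ ∑ x, ENNReal.ofReal (t x) * W x := by
  refine Finset.sum_le_sum fun x _ => ?_
  have h4 : 0 ≤ 4 * A x := mul_nonneg (by norm_num) (hA x)
  have h5 : 0 ≤ 4 * A x * p := mul_nonneg h4 hp0
  have h6 : 0 ≤ 4 * A x * p * b x := mul_nonneg h5 (hb0 x)
  calc ENNReal.ofReal (4 * A x) * E0 * I4 x * J4 x
      ≤ ENNReal.ofReal (4 * A x) * ENNReal.ofReal p * ENNReal.ofReal (b x) *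
          (ENNReal.ofReal Cv * W x) :=
        mul_le_mul' (mul_le_mul' (mul_le_mul' le_rfl hp) (hb x)) (hw x)
    _ = ENNReal.ofReal (4 * A x * p * b x * Cv) * W x := by
        rw [ENNReal.ofReal_mul h6, ENNReal.ofReal_mul h5, ENNReal.ofReal_mul h4, mul_assoc]
        ring
    _ ≤ ENNReal.ofReal (t x) * W x :=
        mul_le_mul' (ENNReal.ofReal_le_ofReal (ht x)) le_rfl

private theorem BrA_r1 {a θ A0 A Cv Cl C M8 D R B : ℝ} (ha : 0 < a) (hθ1 : θ ≤ 1)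
    (hA0 : 0 ≤ A0) (hA : 0 ≤ A) (hCv : 0 ≤ Cv) (hC : 8 * Cv * Real.exp (9 * Cl) ≤ C)
    (hB : B ≤ 9 * Cl) :
    4 * A * 1 * ((2 * A0) ^ θ * Real.exp (a * (M8 - max D R / 2) + B)) * Cv ≤
      A * (C * Real.exp (a * (M8 - R / 16)) * Real.exp (-(7 / 16 * a * D))) * A0 ^ θ := by
  have h1 : (2 * A0) ^ θ ≤ 2 * A0 ^ θ := by
    rw [Real.mul_rpow (by norm_num) hA0]
    apply mul_le_mul_of_nonneg_right _ (Real.rpow_nonneg hA0 _)
    calc (2 : ℝ) ^ θ ≤ 2 ^ (1 : ℝ) := Real.rpow_le_rpow_of_exponent_le (by norm_num) hθ1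
      _ = 2 := Real.rpow_one _
  have h2 : Real.exp (a * (M8 - max D R / 2) + B) ≤
      Real.exp (9 * Cl) * (Real.exp (a * (M8 - R / 16)) * Real.exp (-(7 / 16 * a * D))) := by
    rw [← Real.exp_add, ← Real.exp_add]
    apply Real.exp_le_exp.2
    have h3 : 7 / 8 * D + R / 8 ≤ max D R := by
      have := le_max_left D R
      have := le_max_right D R
      linarith
    have h4 : a * (7 / 8 * D + R / 8) ≤ a * max D R := mul_le_mul_of_nonneg_left h3 ha.le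
    nlinarith
  set X : ℝ := Real.exp (a * (M8 - R / 16)) * Real.exp (-(7 / 16 * a * D)) with hX
  have hX0 : 0 < X := by positivity
  have hA00 : 0 ≤ A0 ^ θ := Real.rpow_nonneg hA0 _
  calc 4 * A * 1 * ((2 * A0) ^ θ * Real.exp (a * (M8 - max D R / 2) + B)) * Cv
      ≤ 4 * A * 1 * ((2 * A0 ^ θ) * (Real.exp (9 * Cl) * X)) * Cv := by gcongr
    _ = (8 * Cv * Real.exp (9 * Cl)) * (A * X * A0 ^ θ) := by ring
    _ ≤ C * (A * X * A0 ^ θ) := mul_le_mul_of_nonneg_right hC (by positivity)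
    _ = A * (C * Real.exp (a * (M8 - R / 16)) * Real.exp (-(7 / 16 * a * D))) * A0 ^ θ := by
        rw [hX]
        ring

private theorem BrA_r2 {a θ A0 A Cv Cl Cn C M8 D B p : ℝ} (ha : 0 < a) (ha1 : a ≤ 1)
    (hA0 : 0 ≤ A0) (hA : 0 ≤ A) (hCv : 0 ≤ Cv) (hCn : 0 ≤ Cn) (hp : 0 ≤ p)
    (hC : 12 * Cn * Cv * Real.exp (9 * Cl) ≤ C) (hD : 0 ≤ D) (hB : B ≤ 9 * Cl) :
    4 * A * (Cn * p) * (A0 ^ θ * Real.exp (a * (M8 + 1 - D / 2) + B)) * Cv ≤
      A * (C * (Real.exp (a * M8) * p) * Real.exp (-(7 / 16 * a * D))) * A0 ^ θ := by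
  have he : Real.exp a ≤ 3 := by
    have h1 := Real.exp_le_exp.2 ha1
    have h2 := Real.exp_one_lt_d9
    linarith
  have h2 : Real.exp (a * (M8 + 1 - D / 2) + B) ≤
      3 * Real.exp (9 * Cl) * (Real.exp (a * M8) * Real.exp (-(7 / 16 * a * D))) := by
    have h3 : Real.exp (a * (M8 + 1 - D / 2) + B) ≤
        Real.exp a * (Real.exp (9 * Cl) * (Real.exp (a * M8) * Real.exp (-(7 / 16 * a * D)))) := by
      rw [← Real.exp_add, ← Real.exp_add, ← Real.exp_add]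
      apply Real.exp_le_exp.2
      have : 0 ≤ a * D := mul_nonneg ha.le hD
      nlinarith
    refine h3.trans ?_
    rw [mul_assoc 3]
    exact mul_le_mul_of_nonneg_right he (by positivity)
  set X : ℝ := Real.exp (a * M8) * Real.exp (-(7 / 16 * a * D)) with hX
  have hX0 : 0 < X := by positivity
  have hA00 : 0 ≤ A0 ^ θ := Real.rpow_nonneg hA0 _
  calc 4 * A * (Cn * p) * (A0 ^ θ * Real.exp (a * (M8 + 1 - D / 2) + B)) * Cv
      ≤ 4 * A * (Cn * p) * (A0 ^ θ * (3 * Real.exp (9 * Cl) * X)) * Cv := by gcongr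
    _ = (12 * Cn * Cv * Real.exp (9 * Cl)) * (A * X * p * A0 ^ θ) := by ring
    _ ≤ C * (A * X * p * A0 ^ θ) := mul_le_mul_of_nonneg_right hC (by positivity)
    _ = A * (C * (Real.exp (a * M8) * p) * Real.exp (-(7 / 16 * a * D))) * A0 ^ θ := by
        rw [hX]
        ring

private theorem BrA_pBr {d : ℕ} {C Cn κ3 sw : ℝ} {Rb : ℕ} (hCn : 1 ≤ Cn) (hC : Cn ≤ C)
    (hκ3 : 0 < κ3) (hsw : 0 < sw) :
    (2 * Rb + 1) ^ d * (Cn * Real.exp (-(κ3 / (Cn * Real.sqrt sw)))) +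
      Cn * Real.exp (-(1 / (Cn * Real.sqrt sw))) ≤ Cn * pBr d C κ3 sw Rb := by
  have hs : 0 < Real.sqrt sw := Real.sqrt_pos.2 hsw
  have hC0 : 0 < C := by linarith
  have h1 : ∀ t : ℝ, 0 ≤ t → Real.exp (-(t / (Cn * Real.sqrt sw))) ≤
      Real.exp (-(t / (C * Real.sqrt sw))) := by
    intro t ht
    apply Real.exp_le_exp.2
    apply neg_le_neg
    apply div_le_div_of_nonneg_left ht (by positivity)
    exact mul_le_mul_of_nonneg_right hC hs.le
  unfold pBr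
  have h2 := h1 κ3 hκ3.le
  have h3 := h1 1 zero_le_one
  calc (2 * Rb + 1) ^ d * (Cn * Real.exp (-(κ3 / (Cn * Real.sqrt sw)))) +
      Cn * Real.exp (-(1 / (Cn * Real.sqrt sw)))
      ≤ (2 * Rb + 1) ^ d * (Cn * Real.exp (-(κ3 / (C * Real.sqrt sw)))) +
      Cn * Real.exp (-(1 / (C * Real.sqrt sw))) := by gcongr
    _ = Cn * ((2 * Rb + 1) ^ d * Real.exp (-(κ3 / (C * Real.sqrt sw))) +
      Real.exp (-(1 / (C * Real.sqrt sw)))) := by ring

private theorem BrA_pBr_nonneg {d : ℕ} {C κ3 sw : ℝ} {Rb : ℕ} : 0 ≤ pBr d C κ3 sw Rb := by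
  unfold pBr
  positivity

private theorem BrA_half {E0 : ℝ≥0∞} {Cn p q : ℝ} (hCn : 1 ≤ Cn) (hp : 0 ≤ p)
    (h1 : E0 ≤ ENNReal.ofReal q) (h2 : q ≤ Cn * p) :
    E0 ^ (1 / 2 : ℝ) ≤ ENNReal.ofReal (Cn * p ^ (1 / 2 : ℝ)) := by
  have hCn0 : 0 ≤ Cn := by linarith
  calc E0 ^ (1 / 2 : ℝ) ≤ ENNReal.ofReal (Cn * p) ^ (1 / 2 : ℝ) :=
        ENNReal.rpow_le_rpow (h1.trans (ENNReal.ofReal_le_ofReal h2)) (by norm_num)
    _ = ENNReal.ofReal ((Cn * p) ^ (1 / 2 : ℝ)) :=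
        ENNReal.ofReal_rpow_of_nonneg (by positivity) (by norm_num)
    _ ≤ ENNReal.ofReal (Cn * p ^ (1 / 2 : ℝ)) := by
        apply ENNReal.ofReal_le_ofReal
        rw [Real.mul_rpow hCn0 hp]
        apply mul_le_mul_of_nonneg_right _ (Real.rpow_nonneg hp _)
        calc Cn ^ (1 / 2 : ℝ) ≤ Cn ^ (1 : ℝ) :=
              Real.rpow_le_rpow_of_exponent_le hCn (by norm_num)
          _ = Cn := Real.rpow_one _

/-- the error terms -/
private theorem BrA_err {c ε ε0 CL1 T0 : ℝ} {I M : ℝ≥0∞} (hc : 0 ≤ c) (hε : 0 ≤ ε)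
    (hε0 : 0 < ε0) (hCL : 1 ≤ CL1) (hT : 0 ≤ T0) (hI : I ≤ ENNReal.ofReal (CL1 * T0))
    (hM : M ≤ ENNReal.ofReal (ε0 / 4 * (1 + T0))) :
    (ENNReal.ofReal (2 * c * ε) * (1 + 2 * I) + 2 * M) +
      (ENNReal.ofReal (2 * c * ε) * (1 + 2 * I) + 2 * M) ≤
      ENNReal.ofReal (((8 * c * CL1 + 1) * ε + ε0) * (1 + T0)) := by
  have h1 : ENNReal.ofReal (2 * c * ε) * (1 + 2 * I) + 2 * M ≤
      ENNReal.ofReal (2 * c * ε * (1 + 2 * (CL1 * T0)) + 2 * (ε0 / 4 * (1 + T0))) := by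
    have e1 : ENNReal.ofReal (2 * c * ε * (1 + 2 * (CL1 * T0)) + 2 * (ε0 / 4 * (1 + T0))) =
        ENNReal.ofReal (2 * c * ε) * (1 + 2 * ENNReal.ofReal (CL1 * T0)) +
          2 * ENNReal.ofReal (ε0 / 4 * (1 + T0)) := by
      rw [ENNReal.ofReal_add (by positivity) (by positivity), ENNReal.ofReal_mul (by positivity),
        ENNReal.ofReal_add (by positivity) (by positivity), ENNReal.ofReal_one,
        ENNReal.ofReal_mul (by norm_num : (0 : ℝ) ≤ 2),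
        ENNReal.ofReal_mul (by norm_num : (0 : ℝ) ≤ 2), ENNReal.ofReal_ofNat]
    rw [e1]
    exact add_le_add (mul_le_mul' le_rfl (add_le_add le_rfl (mul_le_mul' le_rfl hI)))
      (mul_le_mul' le_rfl hM)
  refine (add_le_add h1 h1).trans ?_
  rw [← ENNReal.ofReal_add (by positivity) (by positivity)]
  apply ENNReal.ofReal_le_ofReal
  have h2 : 0 ≤ c * ε * T0 := by positivity
  have h3 : 0 ≤ c * ε := by positivity
  have h4 : c * ε * 1 ≤ c * ε * CL1 := mul_le_mul_of_nonneg_left hCL h3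
  have h5 : 0 ≤ ε * (1 + T0) := by positivity
  have h6 : 0 ≤ c * ε * CL1 := by positivity
  nlinarith

theorem brA (d : ℕ) (β : ℝ) (hβ : 0 < β) : ∃ q0 : ℝ, 1 ≤ q0 ∧ ∀ q, q0 ≤ q →
    ∃ C a0 : ℝ, 1 ≤ C ∧ 0 < a0 ∧ ∀ (a a' κ κ2 κ3 κd M6 M8 sw : ℝ) (Rb : ℕ), 0 < a → a ≤ a0 →
      0 < a' → a' ≤ 1 → 0 < κ → κ ≤ 1 / 8 → 0 < κ2 → κ2 ≤ 1 / 8 → 0 < κ3 → κ3 ≤ κ2 / 16 →
      κ3 ≤ κ / 64 → 0 < κd → κd ≤ κ / 64 → 0 ≤ M6 → 1 ≤ M8 → 0 < sw → sw ≤ 1 →
      C * Real.sqrt sw ≤ κ2 → C * Real.sqrt sw ≤ κ3 → 16 * (2 * Rb + 1) ^ d * κd ^ 2 ≤ sw →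
    ∃ k0 : ℝ, 0 < k0 ∧ k0 < 1 ∧ ∀ k, 0 < k → k < k0 → ∀ L : ℕ, ∃ CL : ℝ, 1 ≤ CL ∧
    ∀ ε0 : ℝ, 0 < ε0 → ∃ h0 : ℝ, 0 < h0 ∧ ∀ h, 0 < h → h < h0 →
    ∀ (A : boxS d L → ℝ) (ε : ℝ) (f : (boxS d L → ℂ) → ℂ), (∀ x, 0 ≤ A x) → 0 ≤ ε →
      Measurable f → (∀ G, ‖f G‖ ≤ 1) →
      Cls (boxNet d L) k q (a' / ell k) (Real.exp (-(a / 8))) (a / ell k) A ε f →
    ∀ (y : boxS d L) (A0 : ℝ) (G : (boxS d L → ℂ) × (boxS d L → ℂ)), 0 ≤ A0 →
      GCfg k κ κ2 κd M6 y Rb G →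
      (∀ v, ‖G.1 v - G.2 v‖ ≤ A0 * k ^ (-(M8 - 1) + 5 / 8 * (boxNet d L).dist y v)) →
    ∀ ns m : ℕ, ns = ⌈sw * ell k ^ 2 / h⌉₊ → ns ≤ m → m * h ≤ 4 * ell k ^ 2 + 4 →
      ∫⁻ ω, ENNReal.ofReal
          ‖f (trajT ((bpar β k h κ κd M6 M8 A0 ns Rb y).bst β k h) G ω m).1 -
            f (trajT ((bpar β k h κ κd M6 M8 A0 ns Rb y).bst β k h) G ω m).2‖
          ∂(PI (Measure.pi fun _ : boxS d L => gC)) ≤
        ∑ x, ENNReal.ofReal (A x * (C * (Real.exp (a * (M8 - Rb / 16)) +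
            Real.exp (a * M8) * pBr d C κ3 sw Rb ^ (1 / 2 : ℝ)) *
            Real.exp (-(7 / 16 * a * (boxNet d L).dist x y))) * A0 ^ (a / ell k)) *
            wpr (boxNet d L) k q (a' / ell k) (Real.exp (-(a / 8))) G.1 G.2 x +
          ENNReal.ofReal ((CL * ε + ε0) * (1 + ∑ x, (‖G.1 x‖ + ‖G.2 x‖))) := by
  obtain ⟨q0, hq0, hvm0⟩ := vm_ctl d β hβ
  obtain ⟨lam0, Cl, hl0, hCl, hlpp⟩ := BrA_lpp d
  obtain ⟨Cn, hCn, hno0⟩ := brg_noise d
  refine ⟨q0, hq0, fun q hq => ?_⟩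
  obtain ⟨Cv, hCv, hvmK⟩ := hvm0 q hq
  have hq1 : 1 ≤ q := hq0.trans hq
  have he9 : 1 ≤ Real.exp (9 * Cl) := Real.one_le_exp (by positivity)
  have hCnv : 1 ≤ Cn * Cv := one_le_mul_of_one_le_of_one_le hCn hCv
  have hCve : 1 ≤ Cv * Real.exp (9 * Cl) := one_le_mul_of_one_le_of_one_le hCv he9
  have hCall : 1 ≤ Cn * Cv * Real.exp (9 * Cl) := one_le_mul_of_one_le_of_one_le hCnv he9
  set C : ℝ := 12 * Cn * Cv * Real.exp (9 * Cl) with hC
  have hCn0 : 0 ≤ Cn := by linarith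
  have hCv0 : 0 ≤ Cv := by linarith
  have hC1 : 1 ≤ C := by
    rw [hC, mul_assoc 12, mul_assoc 12]
    linarith
  have hCCn : Cn ≤ C := by
    have h1 : Cn * 1 ≤ Cn * (Cv * Real.exp (9 * Cl)) := mul_le_mul_of_nonneg_left hCve hCn0
    have h2 : C = 12 * (Cn * (Cv * Real.exp (9 * Cl))) := by
      rw [hC]
      ring
    rw [h2]
    linarith only [h1, hCn]
  have hC8 : 8 * Cv * Real.exp (9 * Cl) ≤ C := by
    have h1 : 1 * (Cv * Real.exp (9 * Cl)) ≤ Cn * (Cv * Real.exp (9 * Cl)) :=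
      mul_le_mul_of_nonneg_right hCn (by positivity)
    have h2 : C = 12 * (Cn * (Cv * Real.exp (9 * Cl))) := by
      rw [hC]
      ring
    rw [h2]
    linarith only [h1, hCve]
  refine ⟨C, min 1 (lam0 / 4), hC1, lt_min one_pos (by positivity), ?_⟩
  intro a a' κ κ2 κ3 κd M6 M8 sw Rb ha ha0 ha' ha'1 hκ hκ1 hκ2 hκ21 hκ3 hκ32 hκ3k hκd hκdk hM6
    hM8 hsw hsw1 hCs2 hCs3 hkd
  obtain ⟨kv, hkv0, hkv1, hvm1⟩ := hvmK κ hκ
  have ha1 : a ≤ 1 := ha0.trans (min_le_left _ _)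
  have hal : 4 * a ≤ lam0 := by
    have := ha0.trans (min_le_right _ _)
    linarith
  have hsq : 0 ≤ Real.sqrt sw := Real.sqrt_nonneg _
  obtain ⟨kr, hkr0, hkr1, hreg0⟩ := brg_reg d β hβ κ κ2 κ3 κd M6 M8 Rb hκ hκ1 hκ2 hκ21 hκ3 hκ32
    hκ3k hκd hκdk hM6 hM8
  obtain ⟨kg, hkg0, hkg1, hgrow0⟩ := brg_grow d β hβ κ hκ
  obtain ⟨kn, hkn0, hkn1, hno1⟩ := hno0 κ2 κ3 sw Rb hκ2 hκ21 hκ3 hsw
    ((mul_le_mul_of_nonneg_right hCCn hsq).trans hCs2)
    ((mul_le_mul_of_nonneg_right hCCn hsq).trans hCs3)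
  set c1 : ℝ := 2 * (min 1 β * κ / 8) with hc1
  have hc10 : 0 < c1 := by
    have : 0 < min 1 β := lt_min one_pos hβ
    positivity
  obtain ⟨ke, hke0, hke1, hell0⟩ := BrA_ell_large (5 + 1 / sw + 32 * q + lam0 +
    256 * (2 * Rb + 1) ^ d / sw + 12 * (160 * (2 * Rb + 1) ^ d) / c1 ^ 3 +
    12 * (32 * d) / (3 / 8 : ℝ) ^ 3 + 12 * 2 ^ (q - 1) / (1 / 4 : ℝ) ^ 3)
  refine ⟨min kv (min kr (min kg (min kn ke))), lt_min hkv0 (lt_min hkr0 (lt_min hkg0
    (lt_min hkn0 hke0))), lt_of_le_of_lt (min_le_left _ _) hkv1, fun k hk hk0 L => ?_⟩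
  have hkv : k < kv := lt_of_lt_of_le hk0 (min_le_left _ _)
  have hk0' : k < min kr (min kg (min kn ke)) := lt_of_lt_of_le hk0 (min_le_right _ _)
  have hkr : k < kr := lt_of_lt_of_le hk0' (min_le_left _ _)
  have hk0'' : k < min kg (min kn ke) := lt_of_lt_of_le hk0' (min_le_right _ _)
  have hkg : k < kg := lt_of_lt_of_le hk0'' (min_le_left _ _)
  have hk0''' : k < min kn ke := lt_of_lt_of_le hk0'' (min_le_right _ _)
  have hkn : k < kn := lt_of_lt_of_le hk0''' (min_le_left _ _)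
  have hke : k < ke := lt_of_lt_of_le hk0''' (min_le_right _ _)
  have hk1 : k < 1 := hkv.trans hkv1
  -- consequences of `ell k` being large
  have p1 : 0 ≤ 1 / sw := by positivity
  have p2 : 0 ≤ 32 * q := by linarith
  have p3 : 0 ≤ 256 * (2 * (Rb : ℝ) + 1) ^ d / sw := by positivity
  have p4 : 0 ≤ 12 * (160 * (2 * (Rb : ℝ) + 1) ^ d) / c1 ^ 3 := by positivity
  have p5 : 0 ≤ 12 * (32 * (d : ℝ)) / (3 / 8 : ℝ) ^ 3 := by positivity
  have p6 : 0 ≤ 12 * (2 : ℝ) ^ (q - 1) / (1 / 4 : ℝ) ^ 3 := by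
    have : (0 : ℝ) < 2 ^ (q - 1) := Real.rpow_pos_of_pos (by norm_num) _
    positivity
  have hell := hell0 k hk hke
  have e5 : 5 ≤ ell k := by linarith
  have e1 : 1 ≤ ell k := by linarith
  have eL : 0 < ell k := by linarith
  have esw : 1 / sw ≤ ell k := by linarith
  have eq32 : 32 * q ≤ ell k := by linarith
  have elam : lam0 ≤ ell k := by linarith
  have e256 : 256 * (2 * (Rb : ℝ) + 1) ^ d / sw ≤ ell k := by linarith
  have e160 : 12 * (160 * (2 * (Rb : ℝ) + 1) ^ d) / c1 ^ 3 ≤ ell k := by linarith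
  have e32 : 12 * (32 * (d : ℝ)) / (3 / 8 : ℝ) ^ 3 ≤ ell k := by linarith
  have e2q : 12 * (2 : ℝ) ^ (q - 1) / (1 / 4 : ℝ) ^ 3 ≤ ell k := by linarith
  have hfac : k ^ (3 / 8 : ℝ) * (32 * d * (ell k ^ 2 + 1)) ≤ 1 :=
    BrA_pow hk (by norm_num) (by positivity) e1 e32
  have hEnk : k ^ c1 * (160 * (2 * (Rb : ℝ) + 1) ^ d * (ell k ^ 2 + 1)) ≤ 1 :=
    BrA_pow hk hc10 (by positivity) e1 e160
  have hkq : k ^ (1 / 4 : ℝ) * 2 ^ (q - 1) ≤ 1 := by
    have h2 : (0 : ℝ) < 2 ^ (q - 1) := Real.rpow_pos_of_pos (by norm_num) _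
    have h1 := BrA_pow hk (by norm_num : (0 : ℝ) < 1 / 4) h2.le e1 e2q
    refine le_trans ?_ h1
    apply mul_le_mul_of_nonneg_left _ (Real.rpow_nonneg hk.le _)
    exact le_mul_of_one_le_right h2.le (le_add_of_nonneg_left (sq_nonneg _))
  have hsw2 : 1 ≤ sw * ell k ^ 2 := by
    rw [div_le_iff₀ hsw] at esw
    calc (1 : ℝ) = 1 * 1 := by ring
      _ ≤ (ell k * sw) * ell k := mul_le_mul esw e1 zero_le_one (by positivity)
      _ = sw * ell k ^ 2 := by ring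
  have hs0 : 0 < a' / ell k := by positivity
  have hθ0 : 0 < a / ell k := by positivity
  have hθ1 : a / ell k ≤ 1 := by
    rw [div_le_one eL]
    linarith
  have hqs4 : 8 * q * (4 * (a' / ell k)) ≤ 1 := by
    have h1 : 8 * q * (4 * (a' / ell k)) = 32 * q * a' / ell k := by ring
    rw [h1, div_le_one eL]
    have h2 : 32 * q * a' ≤ 32 * q * 1 := mul_le_mul_of_nonneg_left ha'1 p2
    linarith
  have hqs : q * (a' / ell k) ≤ 1 := by
    have : 0 ≤ q * (a' / ell k) := mul_nonneg (by linarith) hs0.le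
    linarith
  have hlθ : ell k * (a / ell k) = a := by field_simp
  obtain ⟨CL1, hl, hCL1, hhl, hlin⟩ := lin_ctl d β hβ k hk hk1 L
  have hcard : (0 : ℝ) ≤ Fintype.card (boxS d L) := Nat.cast_nonneg _
  refine ⟨8 * (Fintype.card (boxS d L)) * CL1 + 1, ?_, fun ε0 hε0 => ?_⟩
  · have : 0 ≤ 8 * (Fintype.card (boxS d L) : ℝ) * CL1 := by positivity
    linarith
  obtain ⟨hv0, hhv, hvm⟩ := hvm1 k hk hkv (4 * (a' / ell k)) (by positivity)
    (by
      rw [← mul_div_assoc]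
      apply div_le_div_of_nonneg_right _ eL.le
      linarith) hqs4 L
  obtain ⟨hr0, hhr, hreg⟩ := hreg0 k hk hkr
  obtain ⟨hg0, hhg, hgrow⟩ := hgrow0 k hk hkg
  obtain ⟨hn0, hhn, hno⟩ := hno1 k hk hkn L
  obtain ⟨hx0, hhx, hex⟩ := BrA_exit (d := d) hβ hk L (4 * ell k ^ 2 + 4) (ε0 / 4)
    (by positivity) (by positivity)
  refine ⟨min hl (min hv0 (min hr0 (min hg0 (min hn0 (min hx0 1))))), ?_, fun h hh hh0 => ?_⟩
  · exact lt_min hhl (lt_min hhv (lt_min hhr (lt_min hhg (lt_min hhn (lt_min hhx one_pos)))))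
  have hhl' : h < hl := lt_of_lt_of_le hh0 (min_le_left _ _)
  have hh0' := lt_of_lt_of_le hh0 (min_le_right _ _)
  have hhv' : h < hv0 := lt_of_lt_of_le hh0' (min_le_left _ _)
  have hh0'' := lt_of_lt_of_le hh0' (min_le_right _ _)
  have hhr' : h < hr0 := lt_of_lt_of_le hh0'' (min_le_left _ _)
  have hh0''' := lt_of_lt_of_le hh0'' (min_le_right _ _)
  have hhg' : h < hg0 := lt_of_lt_of_le hh0''' (min_le_left _ _)
  have hh1' := lt_of_lt_of_le hh0''' (min_le_right _ _)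
  have hhn' : h < hn0 := lt_of_lt_of_le hh1' (min_le_left _ _)
  have hh2' := lt_of_lt_of_le hh1' (min_le_right _ _)
  have hhx' : h < hx0 := lt_of_lt_of_le hh2' (min_le_left _ _)
  have hh1 : h < 1 := lt_of_lt_of_le hh2' (min_le_right _ _)
  intro A ε f hA hε hfm hf1 hcls y A0 G hA0 hG hprof ns m hns hnsm hmh
  -- the number of steps of the bridge
  have hnsh1 : sw * ell k ^ 2 ≤ ns * h := by
    rw [hns, ← div_le_iff₀ hh]
    exact Nat.le_ceil _
  have hnsh2 : ns * h ≤ sw * ell k ^ 2 + 1 := by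
    have h1 : (ns : ℝ) < sw * ell k ^ 2 / h + 1 := by
      rw [hns]
      exact Nat.ceil_lt_add_one (by positivity)
    have h2 : (ns : ℝ) * h ≤ (sw * ell k ^ 2 / h + 1) * h :=
      mul_le_mul_of_nonneg_right h1.le hh.le
    have h3 : (sw * ell k ^ 2 / h + 1) * h = sw * ell k ^ 2 + h := by
      field_simp
    rw [h3] at h2
    linarith
  have hsq1 : sw * ell k ^ 2 ≤ ell k ^ 2 := mul_le_of_le_one_left (sq_nonneg _) hsw1
  have hsq5 : 5 * 5 ≤ ell k ^ 2 := by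
    rw [sq]
    exact mul_le_mul e5 e5 (by norm_num) eL.le
  have hnsh3 : ns * h ≤ ell k ^ 2 + 1 := by linarith only [hnsh2, hsq1]
  have hcube : 4 * ell k ^ 2 + 4 ≤ ell k ^ 3 := by
    have h1 : ell k ^ 3 = ell k * ell k ^ 2 := by ring
    rw [h1]
    have h2 : 5 * ell k ^ 2 ≤ ell k * ell k ^ 2 :=
      mul_le_mul_of_nonneg_right e5 (sq_nonneg _)
    linarith only [h2, hsq5]
  have hnsh4 : ns * h ≤ ell k ^ 3 := by
    linarith only [hnsh3, hcube, hsq5]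
  have hns1 : 1 ≤ ns * h := hsw2.trans hnsh1
  have hnspos : 1 ≤ ns := by
    rcases Nat.eq_zero_or_pos ns with h0 | h0
    · rw [h0] at hns1
      norm_num at hns1
    · exact h0
  set P := bpar β k h κ κd M6 M8 A0 ns Rb y with hP
  have hOK : P.OK β k h := BrA_OK y hk hκ hκ1 hκd hκdk hM6 hM8 hA0 e1 hns1 hnsh4
  have hEn : P.En h ≤ 1 := BrA_En y hk hh hκd hA0 e1 hsw hnsh1 hnsh3 hkd e256 hEnk
  have hς0 : 0 ≤ P.ς := by
    rw [hOK.hς]
    exact mul_nonneg hh.le (le_min (Real.rpow_nonneg hk.le _)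
      (mul_nonneg (Real.rpow_nonneg hk.le _) hA0))
  have hm8 : m * h ≤ 8 * ell k ^ 2 := by linarith only [hmh, hsq5]
  set μ : Measure (ℕ → boxS d L → ℂ) := PI (Measure.pi fun _ : boxS d L => gC) with hμ
  set α : ℝ := Real.exp (-(a / 8)) with hα
  have hα0 : 0 ≤ α := (Real.exp_pos _).le
  set Al := alvC P β k h G m with hAl
  have hAlm : MeasurableSet Al := measurableSet_alvC P β k h G m
  set H : (ℕ → boxS d L → ℂ) → (boxS d L → ℂ) × (boxS d L → ℂ) :=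
    fun ω => trajT (P.bst β k h) G ω m with hH
  have hHm : Measurable H :=
    (measurable_trajT (P.bst β k h) (fun j => measurable_bst P β k h j) m).comp
      (measurable_const.prodMk measurable_id)
  set E1 : Set (ℕ → boxS d L → ℂ) := {ω | RegB κ2 κ3 k h ns y Rb ω} with hE1
  have hE1m : MeasurableSet E1 := BrA_meas_RegB κ2 κ3 k h ns y Rb
  set X : boxS d L → (ℕ → boxS d L → ℂ) → ℝ :=
    fun x ω => (boxMSet d L).lppM (1 / 8) (fun _ => 0) (gz k h ω) m x with hX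
  have hXm : ∀ x, Measurable (X x) := fun x =>
    (measurable_lppM (boxMSet d L) (1 / 8) (fun _ => 0) m x).comp (BrA_meas_gz k h)
  -- moments of the last passage functional
  set B : ℝ := Cl * (m * (h / ell k ^ 2) + 1) * a with hB
  have hell2 : 0 < ell k ^ 2 := by positivity
  have hmv : m * (h / ell k ^ 2) ≤ 8 := by
    rw [← mul_div_assoc, div_le_iff₀ hell2]
    exact hm8
  have hB9 : B ≤ 9 * Cl := by
    have h1 : 0 ≤ m * (h / ell k ^ 2) := by positivity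
    have h2 : (m * (h / ell k ^ 2) + 1) * a ≤ 9 * 1 :=
      mul_le_mul (by linarith) ha1 ha.le (by norm_num)
    have h3 : Cl * ((m * (h / ell k ^ 2) + 1) * a) ≤ Cl * (9 * 1) :=
      mul_le_mul_of_nonneg_left h2 hCl.le
    rw [hB, mul_assoc]
    linarith
  have hv1 : h / ell k ^ 2 ≤ 1 / lam0 ^ 2 := by
    apply div_le_div₀ zero_le_one hh1.le (by positivity)
    exact pow_le_pow_left₀ hl0.le elam 2
  have hXmom : ∀ x, ∫⁻ ω, ENNReal.ofReal (Real.exp (4 * a * X x ω)) ∂μ ≤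
      ENNReal.ofReal (Real.exp (4 * B)) := by
    intro x
    have h1 := hlpp k h hk hk1 hh hv1 L m x (4 * a) (by positivity) hal
    refine h1.trans (le_of_eq ?_)
    congr 2
    rw [hB]
    ring
  -- the two pointwise bounds
  set D1 : boxS d L → (ℕ → boxS d L → ℂ) → ℝ≥0∞ := fun x ω => ENNReal.ofReal
    ((2 * A0 * Real.exp (ell k * (X x ω + (M8 - max ((boxNet d L).dist y x : ℝ) Rb / 2)))) ^
      (a / ell k)) with hD1
  set D2 : boxS d L → (ℕ → boxS d L → ℂ) → ℝ≥0∞ := fun x ω => ENNReal.ofReal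
    ((A0 * Real.exp (ell k * (X x ω + (M8 + 1 - (boxNet d L).dist y x / 2)))) ^
      (a / ell k)) with hD2
  have hD1m : ∀ x, Measurable (D1 x) := fun x =>
    (((((hXm x).add_const _).const_mul _).exp.const_mul _).pow_const _).ennreal_ofReal
  have hD2m : ∀ x, Measurable (D2 x) := fun x =>
    (((((hXm x).add_const _).const_mul _).exp.const_mul _).pow_const _).ennreal_ofReal
  have hb1 : ∀ ω ∈ Al ∩ E1, ∀ x,
      ENNReal.ofReal (‖(H ω).1 x - (H ω).2 x‖ ^ (a / ell k)) ≤ D1 x ω := by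
    intro ω hω x
    have h1 := (hreg h hh hhr' L y A0 ns hA0 hns1 hnsh4 G hG hprof ω hω.2).2
    have h2 := BrA_D1 hβ hk hk1 hh P G ω m hnsm hmh hfac hA0 M8 h1 x
    exact ENNReal.ofReal_le_ofReal (Real.rpow_le_rpow (norm_nonneg _) h2 hθ0.le)
  have hprof2 : ∀ v, ‖G.1 v - G.2 v‖ ≤ P.A0 * k ^ (-P.M8 + (boxNet d L).dist P.y v / 2) := by
    intro v
    refine (hprof v).trans ?_
    show A0 * k ^ (-(M8 - 1) + 5 / 8 * ((boxNet d L).dist y v : ℝ)) ≤
      A0 * k ^ (-M8 + ((boxNet d L).dist y v : ℝ) / 2)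
    apply mul_le_mul_of_nonneg_left _ hA0
    apply Real.rpow_le_rpow_of_exponent_ge hk hk1.le
    have : (0 : ℝ) ≤ (boxNet d L).dist y v := Nat.cast_nonneg _
    linarith
  have hb2 : ∀ ω ∈ Al ∩ E1ᶜ, ∀ x,
      ENNReal.ofReal (‖(H ω).1 x - (H ω).2 x‖ ^ (a / ell k)) ≤ D2 x ω := by
    intro ω _ x
    have h1 := hgrow h hh hhg' L P rfl hOK G hprof2 ω m (hmh.trans hcube) x
    refine ENNReal.ofReal_le_ofReal (Real.rpow_le_rpow (norm_nonneg _) (h1.trans ?_) hθ0.le)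
    show A0 * _ ≤ A0 * _
    apply mul_le_mul_of_nonneg_left _ hA0
    apply Real.exp_le_exp.2
    apply mul_le_mul_of_nonneg_left _ eL.le
    have h2 := le_lppM (boxMSet d L) (1 / 8) (fun _ => 0) (gz k h ω) (le_refl m) x
    show _ ≤ X x ω + (M8 + 1 - ((boxNet d L).dist y x : ℝ) / 2)
    have h3 : X x ω = (boxMSet d L).lppM (1 / 8) (fun _ => 0) (gz k h ω) m x := rfl
    have h4 : P.M8 = M8 := rfl
    have h5 : P.y = y := rfl
    rw [h3, h4, h5]
    linarith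
  -- moments of the weight
  have hW := BrA_wpr (α := α) P G m hCv hα0 hk hk1 hq1 hs0 hkq
    (hvm h hh hhv' P hOK rfl G m hm8)
  -- the two parts
  have hpe1 := pair_est μ k q (a' / ell k) α (a / ell k) hk hk1 hq1 hs0 hqs hα0 hθ0 A hA ε hε f
    hfm hcls hf1 H hHm Al E1 hAlm hE1m D1 hD1m hb1
  have hpe2 := pair_est μ k q (a' / ell k) α (a / ell k) hk hk1 hq1 hs0 hqs hα0 hθ0 A hA ε hε f
    hfm hcls hf1 H hHm Al E1ᶜ hAlm hE1m.compl D2 hD2m hb2
  set pb : ℝ := pBr d C κ3 sw Rb ^ (1 / 2 : ℝ) with hpb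
  have hpb0 : 0 ≤ pb := Real.rpow_nonneg BrA_pBr_nonneg _
  have hμ1 : μ E1 ^ (1 / 2 : ℝ) ≤ ENNReal.ofReal 1 := by
    rw [ENNReal.ofReal_one]
    calc μ E1 ^ (1 / 2 : ℝ) ≤ 1 ^ (1 / 2 : ℝ) := ENNReal.rpow_le_rpow prob_le_one (by norm_num)
      _ = 1 := ENNReal.one_rpow _
  have hμ2 : μ E1ᶜ ^ (1 / 2 : ℝ) ≤ ENNReal.ofReal (Cn * pb) :=
    BrA_half hCn BrA_pBr_nonneg (hno h hh hhn' y ns hnspos hnsh2) (BrA_pBr hCn hCCn hκ3 hsw)
  have hI1 : ∀ x, (∫⁻ ω in Al, D1 x ω ^ 4 ∂μ) ^ (1 / 4 : ℝ) ≤ ENNReal.ofReal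
      ((2 * A0) ^ (a / ell k) *
        Real.exp (a * (M8 - max ((boxNet d L).dist y x : ℝ) Rb / 2) + B)) := fun x =>
    BrA_Db μ Al (X x) (hXm x) a B (ell k) (2 * A0) _ (a / ell k) (by positivity) hlθ (hXmom x)
  have hI2 : ∀ x, (∫⁻ ω in Al, D2 x ω ^ 4 ∂μ) ^ (1 / 4 : ℝ) ≤ ENNReal.ofReal
      (A0 ^ (a / ell k) *
        Real.exp (a * (M8 + 1 - ((boxNet d L).dist y x : ℝ) / 2) + B)) := fun x =>
    BrA_Db μ Al (X x) (hXm x) a B (ell k) A0 _ (a / ell k) hA0 hlθ (hXmom x)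
  have hs1 := BrA_part A
    (fun x => (2 * A0) ^ (a / ell k) *
        Real.exp (a * (M8 - max ((boxNet d L).dist y x : ℝ) Rb / 2) + B))
    (fun x => A x * (C * Real.exp (a * (M8 - Rb / 16)) *
      Real.exp (-(7 / 16 * a * (boxNet d L).dist y x))) * A0 ^ (a / ell k))
    (μ E1 ^ (1 / 2 : ℝ)) (fun x => (∫⁻ ω in Al, D1 x ω ^ 4 ∂μ) ^ (1 / 4 : ℝ))
    (fun x => (∫⁻ ω in Al, wpr (boxNet d L) k q (a' / ell k) α (H ω).1 (H ω).2 x ^ 4 ∂μ) ^
      (1 / 4 : ℝ))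
    (fun x => wpr (boxNet d L) k q (a' / ell k) α G.1 G.2 x) 1 Cv hA zero_le_one
    (fun x => mul_nonneg (Real.rpow_nonneg (by positivity) _) (Real.exp_pos _).le)
    hμ1 hI1 hW (fun x => BrA_r1 ha hθ1 hA0 (hA x) hCv0 hC8 hB9)
  have hs2 := BrA_part A
    (fun x => A0 ^ (a / ell k) *
        Real.exp (a * (M8 + 1 - ((boxNet d L).dist y x : ℝ) / 2) + B))
    (fun x => A x * (C * (Real.exp (a * M8) * pb) *
      Real.exp (-(7 / 16 * a * (boxNet d L).dist y x))) * A0 ^ (a / ell k))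
    (μ E1ᶜ ^ (1 / 2 : ℝ)) (fun x => (∫⁻ ω in Al, D2 x ω ^ 4 ∂μ) ^ (1 / 4 : ℝ))
    (fun x => (∫⁻ ω in Al, wpr (boxNet d L) k q (a' / ell k) α (H ω).1 (H ω).2 x ^ 4 ∂μ) ^
      (1 / 4 : ℝ))
    (fun x => wpr (boxNet d L) k q (a' / ell k) α G.1 G.2 x) (Cn * pb) Cv hA (by positivity)
    (fun x => mul_nonneg (Real.rpow_nonneg hA0 _) (Real.exp_pos _).le)
    hμ2 hI2 hW (fun x => BrA_r2 ha ha1 hA0 (hA x) hCv0 hCn0 hpb0 le_rfl (Nat.cast_nonneg _) hB9)
  -- error terms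
  have hI := hlin h hh hhl' P hOK G m hm8
  have hM := hex h hh hhx' P hOK.hm0 hς0 hEn G m hmh
  have hT0 : 0 ≤ ∑ x, (‖G.1 x‖ + ‖G.2 x‖) :=
    Finset.sum_nonneg fun x _ => add_nonneg (norm_nonneg _) (norm_nonneg _)
  have herr := BrA_err hcard hε hε0 hCL1 hT0 hI hM
  -- sum of the two parts
  rw [← lintegral_add_compl _ hE1m]
  refine (add_le_add hpe1 hpe2).trans ?_
  rw [add_add_add_comm]
  refine add_le_add ((add_le_add hs1 hs2).trans ?_) herr
  rw [← Finset.sum_add_distrib]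
  refine Finset.sum_le_sum fun x _ => ?_
  rw [← add_mul]
  refine mul_le_mul' ?_ le_rfl
  have hAx := hA x
  have hA00 : 0 ≤ A0 ^ (a / ell k) := Real.rpow_nonneg hA0 _
  rw [← ENNReal.ofReal_add (by positivity) (by positivity), (boxNet d L).dist_comm x y]
  apply ENNReal.ofReal_le_ofReal
  apply le_of_eq
  ring

end DynC

end
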