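import Pool.Agent.Lib_MP_36b788_m.M12
import Pool.Agent.Lib_MP_36b788_m.M41
import Pool.Agent.Lib_MP_36b788_m.M51
import Pool.Agent.Lib_MP_36b788_m.M52

/-!
# MP_36b788_pr, stationary limit: merged library part M53

Concatenation of smaller files (each in its own section), only to save build time.
-/

/-! ### from `Lib_MP_36b788c.Fin2` -/

section

/-!
# Mixing for `N = 2` and small `k > 0`

PROOF of `large_N2`. `q` = maximum of the `q0` of `sm_multi`, `good2`, `ly_w`. Constants: `C, a0, c3, C5, s1, Ls` from `good2`; `q0, a1, T1, Ls'`, `B, c` from `ly_w`; `CD, a0D` from `gD2`; `C9` from `sm_multi`. `Caf a' ` = the constant `Ca` of `ly_w` for `a' ≤ a1` (`1` otherwise), `cdf a` = constant of `sum_exp_dd` with `r = a/8` for `a > 0` (`1` otherwise; it is `≥ 1`). `num2` with `a0 := min a0 a0D`, (the `Par2` it returns has `a ≤ min a0 a0D`, adapt), gives `a', a, T0`; take `T = max T0 T1 2`, then `Rb, κ, κ3, κd, sw, p`.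
`S = PS2 d β k hβ hk.le`, `s = a'/ell`, `θ = a/ell`, `TB = (T+1) ell²`, `BD = exp(CD a (T+2))`, `BV = exp(C9 (2a' + 4a'^2)(T+2))`, `κ' = √B exp(-c a' T)`, `CV = √Ca`, `K = KN2 ..`, `cd = cdf a`, `Ls` = maximum. For small `k` (all fields of `Blk`):
* `vone`: `V_one_pair` (`k^{1/4} 2^{q-1} ≤ 1`); `exit`: `exit_bd`; `sum`: `lin_sum` (`bnoise2`); `gD`: `gD2` with `T + 1` (`n ≤ ⌈TB/h⌉` gives `n h ≤ (T+1) ell² + 1`; drop `alv`); `gV`: `V_sq`, `sm_multi` with exponent `2s`, `n h ≤ (T+1) ell² + 1 ≤ (T+2) ell²`.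
* `ly`: first two parts of `ly_w`: `B e^{-2ca'T} V² + Ca ≤ (κ' V + CV)²`.
* `good`: `good2` with `κL = B e^{-c a' T}`, `CW = 2 Ca cd`; its hypothesis: third part of `ly_w`, summed over `z` with the weights `α^{dist}` (`Σ_z α^{dist x z} ≤ cd`). `c x y` = the coefficient times `exp(-(5/16) a dist x y)`; `Σ_y exp(-(5/16) a dist) ≤ cd`; last condition of `num2`.
* `hcd`: both sums are `≤ cd`. `num`: third condition of `num2`.
`mix_of_blk` with `MomU` from `mom_unif`, `k^{-s} = e^{a'} ≤ e^{1/16} ≤ 11/10`; then `link2`. `k1` = half of the minimum of the thresholds.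
-/

open MeasureTheory ProbabilityTheory
open scoped ENNReal

namespace DynC

open Dyn

private theorem Fin2_rpow_small (C ε : ℝ) (hC : 0 < C) (hε : 0 < ε) : ∃ k1 : ℝ, 0 < k1 ∧
    ∀ k, 0 < k → k ≤ k1 → C * k ^ ε ≤ 1 := by
  refine ⟨(1 / C) ^ (1 / ε), Real.rpow_pos_of_pos (by positivity) _, fun k hk hk1 => ?_⟩
  have h1 : k ^ ε ≤ ((1 / C) ^ (1 / ε)) ^ ε := Real.rpow_le_rpow hk.le hk1 hε.le
  rw [← Real.rpow_mul (by positivity), one_div_mul_cancel hε.ne', Real.rpow_one] at h1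
  calc C * k ^ ε ≤ C * (1 / C) := mul_le_mul_of_nonneg_left h1 hC.le
    _ = 1 := by field_simp

private theorem Fin2_ell_large (X : ℝ) : ∃ k1 : ℝ, 0 < k1 ∧ ∀ k, 0 < k → k ≤ k1 → X ≤ ell k := by
  refine ⟨Real.exp (-X), Real.exp_pos _, fun k hk hk1 => ?_⟩
  unfold ell
  rw [one_div, Real.log_inv]
  have h1 : Real.log k ≤ -X := by
    rw [← Real.log_exp (-X)]
    exact Real.log_le_log hk hk1
  linarith

private theorem Fin2_exp_pow (r : ℝ) (n : ℕ) : Real.exp (-r) ^ n = Real.exp (-(r * (n : ℝ))) := by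
  rw [← Real.exp_nat_mul]
  congr 1
  ring

/-- the constant of the sums over the box -/
private theorem Fin2_cd (d : ℕ) : ∃ cdf : ℝ → ℝ, (∀ a, 1 ≤ cdf a) ∧
    ∀ a, 0 < a → ∀ (L : ℕ) (x : boxS d L),
    ∑ z, Real.exp (-(a / 8)) ^ (boxNet d L).dist x z ≤ cdf a ∧
    ∑ y, Real.exp (-(5 / 8 * a)) ^ (boxNet d L).dist x y ≤ cdf a ∧
    ∑ y, Real.exp (-(5 / 16 * a * (boxNet d L).dist x y)) ≤ cdf a := by
  classical
  have h1 : ∀ a : ℝ, ∃ C : ℝ, 1 ≤ C ∧ (0 < a → ∀ (L : ℕ) (x : boxS d L),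
      ∑ y, Real.exp (-(a / 8 * ((boxNet d L).dist x y : ℝ))) ≤ C) := by
    intro a
    by_cases ha : 0 < a
    · obtain ⟨C, hC1, hC⟩ := sum_exp_dd d (a / 8) (by positivity)
      exact ⟨C, hC1, fun _ L x => hC (boxS d L) (boxMSet d L) x⟩
    · exact ⟨1, le_rfl, fun h => absurd h ha⟩
  choose cdf hc1 hc2 using h1
  refine ⟨cdf, hc1, fun a ha L x => ?_⟩
  have h := hc2 a ha L x
  refine ⟨?_, ?_, ?_⟩
  · refine le_trans (le_of_eq ?_) h
    exact Finset.sum_congr rfl fun y _ => Fin2_exp_pow _ _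
  · refine le_trans (Finset.sum_le_sum fun y _ => ?_) h
    rw [Fin2_exp_pow]
    refine Real.exp_le_exp.2 ?_
    have h2 : (0 : ℝ) ≤ ((boxNet d L).dist x y : ℝ) := Nat.cast_nonneg _
    nlinarith
  · refine le_trans (Finset.sum_le_sum fun y _ => ?_) h
    refine Real.exp_le_exp.2 ?_
    have h2 : (0 : ℝ) ≤ ((boxNet d L).dist x y : ℝ) := Nat.cast_nonneg _
    nlinarith

private theorem Fin2_choose {P : ℝ → ℝ → Prop} {a1 : ℝ}
    (h : ∀ a', 0 < a' → a' ≤ a1 → ∃ Ca : ℝ, 1 ≤ Ca ∧ P a' Ca) :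
    ∃ Caf : ℝ → ℝ, (∀ a', 1 ≤ Caf a') ∧ ∀ a', 0 < a' → a' ≤ a1 → P a' (Caf a') := by
  classical
  have h1 : ∀ a' : ℝ, ∃ Ca : ℝ, 1 ≤ Ca ∧ (0 < a' → a' ≤ a1 → P a' Ca) := by
    intro a'
    by_cases h0 : 0 < a' ∧ a' ≤ a1
    · obtain ⟨Ca, h2, h3⟩ := h a' h0.1 h0.2
      exact ⟨Ca, h2, fun _ _ => h3⟩
    · exact ⟨1, le_rfl, fun u v => absurd ⟨u, v⟩ h0⟩
  choose Caf h2 h3 using h1
  exact ⟨Caf, h2, h3⟩

/-- from the drift of the potentials to the drift of the weight of the pair -/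
private theorem Fin2_wpr {d L : ℕ} {F : Fam d} {β k : ℝ} (S : PSys F β k) (h : ℝ) (n : ℕ)
    (q s α κL Ca cd : ℝ) (hα : 0 ≤ α) (hCa : 0 ≤ Ca)
    (hcd : ∀ x : boxS d L, ∑ z, α ^ (boxNet d L).dist x z ≤ cd)
    (G : (boxS d L → F.V) × (boxS d L → F.V))
    (H : ∀ z, ∫⁻ ω in S.alv h L G n, V1 k q s (S.tr h L G ω n) z ∂(PI (S.mu L)) ≤
          ENNReal.ofReal κL * V1 k q s G z + ENNReal.ofReal Ca ∧
        ∫⁻ ω in S.alv h L G n, V2 k q s (S.tr h L G ω n) z ∂(PI (S.mu L)) ≤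
          ENNReal.ofReal κL * V2 k q s G z + ENNReal.ofReal Ca) (x : boxS d L) :
    ∫⁻ ω in S.alv h L G n, wpr (boxNet d L) k q s α (S.tr h L G ω n).1 (S.tr h L G ω n).2 x
        ∂(PI (S.mu L)) ≤
      ENNReal.ofReal κL * wpr (boxNet d L) k q s α G.1 G.2 x +
        ENNReal.ofReal (2 * Ca * cd) := by
  have hm1 : ∀ z, Measurable fun ω => V1 k q s (S.tr h L G ω n) z := fun z =>
    (measurable_V k q s z).1.comp
      ((measurable_tr S h L n).comp (measurable_const.prodMk measurable_id))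
  have hm2 : ∀ z, Measurable fun ω => V2 k q s (S.tr h L G ω n) z := fun z =>
    (measurable_V k q s z).2.comp
      ((measurable_tr S h L n).comp (measurable_const.prodMk measurable_id))
  have e : ∀ H : (boxS d L → F.V) × (boxS d L → F.V), wpr (boxNet d L) k q s α H.1 H.2 x =
      ∑ z, ENNReal.ofReal (α ^ (boxNet d L).dist x z) * (V1 k q s H z + V2 k q s H z) :=
    fun _ => rfl
  have e1 : ∫⁻ ω in S.alv h L G n, wpr (boxNet d L) k q s α (S.tr h L G ω n).1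
      (S.tr h L G ω n).2 x ∂(PI (S.mu L)) =
      ∑ z, ENNReal.ofReal (α ^ (boxNet d L).dist x z) *
        (∫⁻ ω in S.alv h L G n, V1 k q s (S.tr h L G ω n) z ∂(PI (S.mu L)) +
          ∫⁻ ω in S.alv h L G n, V2 k q s (S.tr h L G ω n) z ∂(PI (S.mu L))) := by
    have hm12 : ∀ z, Measurable fun ω => V1 k q s (S.tr h L G ω n) z +
        V2 k q s (S.tr h L G ω n) z := fun z => (hm1 z).add (hm2 z)
    have hm3 : ∀ z ∈ (Finset.univ : Finset (boxS d L)), Measurable fun ω =>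
        ENNReal.ofReal (α ^ (boxNet d L).dist x z) * (V1 k q s (S.tr h L G ω n) z +
          V2 k q s (S.tr h L G ω n) z) := fun z _ => (hm12 z).const_mul _
    rw [lintegral_congr fun ω => e (S.tr h L G ω n), lintegral_finsetSum _ hm3]
    refine Finset.sum_congr rfl fun z _ => ?_
    rw [lintegral_const_mul _ (hm12 z), lintegral_add_left (hm1 z)]
  rw [e1, e G]
  have e2 : ENNReal.ofReal (∑ z, α ^ (boxNet d L).dist x z * (2 * Ca)) ≤
      ENNReal.ofReal (2 * Ca * cd) := by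
    refine ENNReal.ofReal_le_ofReal ?_
    rw [← Finset.sum_mul, mul_comm]
    exact mul_le_mul_of_nonneg_left (hcd x) (by positivity)
  rw [ENNReal.ofReal_sum_of_nonneg (fun z _ => by positivity)] at e2
  refine le_trans ?_ (add_le_add le_rfl e2)
  rw [Finset.mul_sum, ← Finset.sum_add_distrib]
  refine Finset.sum_le_sum fun z _ => ?_
  rw [ENNReal.ofReal_mul (by positivity), two_mul, ENNReal.ofReal_add hCa hCa]
  calc ENNReal.ofReal (α ^ (boxNet d L).dist x z) *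
        (∫⁻ ω in S.alv h L G n, V1 k q s (S.tr h L G ω n) z ∂(PI (S.mu L)) +
          ∫⁻ ω in S.alv h L G n, V2 k q s (S.tr h L G ω n) z ∂(PI (S.mu L)))
      ≤ ENNReal.ofReal (α ^ (boxNet d L).dist x z) *
        ((ENNReal.ofReal κL * V1 k q s G z + ENNReal.ofReal Ca) +
          (ENNReal.ofReal κL * V2 k q s G z + ENNReal.ofReal Ca)) :=
        mul_le_mul_right (add_le_add (H z).1 (H z).2) _
    _ = ENNReal.ofReal κL * (ENNReal.ofReal (α ^ (boxNet d L).dist x z) *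
          (V1 k q s G z + V2 k q s G z)) +
        ENNReal.ofReal (α ^ (boxNet d L).dist x z) * (ENNReal.ofReal Ca + ENNReal.ofReal Ca) := by
        ring

private theorem Fin2_sq (B c a' T Ca : ℝ) (hB : 0 ≤ B) (hCa : 0 ≤ Ca) (v : ℝ≥0∞) :
    ENNReal.ofReal (B * Real.exp (-(2 * c * a' * T))) * v ^ 2 + ENNReal.ofReal Ca ≤
      (ENNReal.ofReal (Real.sqrt B * Real.exp (-(c * a' * T))) * v +
        ENNReal.ofReal (Real.sqrt Ca)) ^ 2 := by
  have e1 : B * Real.exp (-(2 * c * a' * T)) =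
      (Real.sqrt B * Real.exp (-(c * a' * T))) ^ 2 := by
    rw [mul_pow, Real.sq_sqrt hB, ← Real.exp_nat_mul]
    congr 2
    push_cast
    ring
  have e2 : ENNReal.ofReal (B * Real.exp (-(2 * c * a' * T))) * v ^ 2 =
      (ENNReal.ofReal (Real.sqrt B * Real.exp (-(c * a' * T))) * v) ^ 2 := by
    rw [e1, ENNReal.ofReal_pow (by positivity), mul_pow]
  have e3 : ENNReal.ofReal Ca ≤ ENNReal.ofReal (Real.sqrt Ca) ^ 2 := by
    rw [← ENNReal.ofReal_pow (Real.sqrt_nonneg _), Real.sq_sqrt hCa]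
  rw [e2]
  refine (add_le_add le_rfl e3).trans ?_
  rw [add_sq]
  exact add_le_add le_self_add le_rfl

/-- the number of steps of a block -/
private theorem Fin2_nh {TB h : ℝ} {n : ℕ} (hTB : 0 < TB) (hh : 0 < h) (hh1 : h < 1)
    (hn : n ≤ ⌈TB / h⌉₊) : (n : ℝ) * h ≤ TB + 1 := by
  have a2 : (⌈TB / h⌉₊ : ℝ) < TB / h + 1 := Nat.ceil_lt_add_one (by positivity)
  have a3 : (n : ℝ) ≤ (⌈TB / h⌉₊ : ℝ) := by exact_mod_cast hn
  have a4 := mul_le_mul_of_nonneg_right (a3.trans a2.le) hh.le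
  have a5 : (TB / h + 1) * h = TB + h := by field_simp
  linarith

private theorem Fin2_gv {C9 a' T l nh : ℝ} (hC9 : 0 < C9) (ha' : 0 < a') (hl : 1 ≤ l)
    (hnh : nh ≤ (T + 1) * l ^ 2 + 1) :
    C9 * (2 * (a' / l) / l + (2 * (a' / l)) ^ 2) * nh ≤ C9 * (2 * a' + 4 * a' ^ 2) * (T + 2) := by
  have hl0 : 0 < l := by linarith
  have hl2 : 1 ≤ l ^ 2 := by nlinarith
  have h1 : C9 * (2 * (a' / l) / l + (2 * (a' / l)) ^ 2) * nh =
      C9 * (2 * a' + 4 * a' ^ 2) * (nh / l ^ 2) := by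
    field_simp
    ring
  rw [h1]
  refine mul_le_mul_of_nonneg_left ?_ (by positivity)
  rw [div_le_iff₀ (by positivity)]
  nlinarith

theorem Fin2_blk (d : ℕ) (hd : 1 ≤ d) (β : ℝ) (hβ : 0 < β) :
    ∃ (q a a' T BD BV κ' CV K cd k1 : ℝ) (Ls : ℕ), 0 < k1 ∧ k1 < 1 ∧ a' ≤ 1 / 16 ∧
    ∀ (k : ℝ) (hk : 0 < k), k ≤ k1 →
    Blk (PS2 d β k hβ hk.le) q (a' / ell k) a (a / ell k) ((T + 1) * ell k ^ 2)
      BD BV κ' CV K cd Ls := by
  obtain ⟨qL, a1, T1, LsL, hqL, ha1, ha116, hT1, HL⟩ := ly_w d hd β hβ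
  obtain ⟨qG, hqG, HG⟩ := good2 d hd β hβ
  obtain ⟨qS, hqS, HS⟩ := sm_multi 2 d β le_rfl hβ
  obtain ⟨CD, a0D, hCD, ha0D, HD⟩ := gD2 d β hβ
  obtain ⟨q, hq1, hqL', hqG', hqS'⟩ : ∃ q : ℝ, 1 ≤ q ∧ qL ≤ q ∧ qG ≤ q ∧ qS ≤ q :=
    ⟨max qL (max qG qS), hqL.trans (le_max_left _ _), le_max_left _ _,
      (le_max_left _ _).trans (le_max_right _ _), (le_max_right _ _).trans (le_max_right _ _)⟩
  obtain ⟨B, c, hB, hc, HL⟩ := HL q hqL'
  obtain ⟨C, a0, c3, C5, s1, LsG, hC, ha0, hc3, hC5, hs1, hs116, HG⟩ := HG q hqG'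
  obtain ⟨C9, kS, hC9, hkS, hkS1, HS⟩ := HS q hqS'
  obtain ⟨Caf, hCaf, HL⟩ := Fin2_choose HL
  obtain ⟨cdf, hcdf, hcd⟩ := Fin2_cd d
  obtain ⟨a', a, T0, ha', ha'1, ha'11, ha, haa, has, HN⟩ :=
    num2 d C C5 CD c3 c B s1 (min a0 a0D) a1 hC hC5 hCD hc3 hc hB hs1 (lt_min ha0 ha0D) ha1
      Caf cdf hCaf hcdf
  have haaD : a ≤ a0D := haa.trans (min_le_right _ _)
  obtain ⟨T, hTT0, hTT1, hT2⟩ : ∃ T : ℝ, T0 ≤ T ∧ T1 ≤ T ∧ 2 ≤ T :=
    ⟨max T0 (max T1 2), le_max_left _ _, (le_max_left _ _).trans (le_max_right _ _),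
      (le_max_right _ _).trans (le_max_right _ _)⟩
  obtain ⟨Rb, κ, κ3, κd, sw, p, hPar, hK1, n3, n4⟩ := HN T hTT0
  have hCa1 := hCaf a'
  have hcd1 := hcdf a
  have hcd := hcd a ha
  have HL := HL a' ha' ha'1 T hTT1
  unfold MN2' at hPar n4
  generalize Caf a' = Ca at *
  generalize cdf a = cd at *
  generalize KN2 CD a T Ca cd = K at *
  have hPar' : Par2 d C C5 a0 s1 a a' T (7 * Real.log K / a' + 3) (a / a') κ κ3 κd sw p Rb := by
    obtain ⟨p1, p2, p3⟩ := hPar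
    exact ⟨p1, p2.trans (min_le_left _ _), p3⟩
  obtain ⟨kG, hkG, hkG1, HG⟩ := HG a a' T K κ κ3 κd sw p Rb hK1 hPar'
  obtain ⟨kL, hkL, hkL1, HL⟩ := HL
  obtain ⟨kD, hkD, hkD1, HD⟩ := HD (T + 1) (by linarith)
  obtain ⟨kE, hkE, HE⟩ := Fin2_ell_large (max 1 (max (16 * q) (2 * a)))
  obtain ⟨kQ, hkQ, HQ⟩ := Fin2_rpow_small ((2 : ℝ) ^ (q - 1)) (1 / 4) (by positivity) (by norm_num)
  have hbn : ∀ (k : ℝ) (hk : 0 < k), BNoise 2 (PS2 d β k hβ hk.le).ν
      (PS2 d β k hβ hk.le).b (PS2 d β k hβ hk.le).gd := fun k hk => bnoise2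
  refine ⟨q, a, a', T, Real.exp (CD * a * (T + 2)),
    Real.exp (C9 * (2 * a' + 4 * a' ^ 2) * (T + 2)), Real.sqrt B * Real.exp (-(c * a' * T)),
    Real.sqrt Ca, K, cd,
    min (min (kG / 2) (min (kL / 2) (kS / 2))) (min (kD / 2) (min kE kQ)), max LsL LsG,
    ?_, ?_, ha'1.trans ha116, ?_⟩
  · refine lt_min (lt_min (by positivity) (lt_min (by positivity) (by positivity)))
      (lt_min (by positivity) (lt_min hkE hkQ))
  · refine lt_of_le_of_lt ((min_le_left _ _).trans (min_le_left _ _)) ?_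
    linarith
  intro k hk hkk
  have e1 := hkk.trans ((min_le_left _ _).trans (min_le_left _ _))
  have e2 := hkk.trans ((min_le_left _ _).trans ((min_le_right _ _).trans (min_le_left _ _)))
  have e3 := hkk.trans ((min_le_left _ _).trans ((min_le_right _ _).trans (min_le_right _ _)))
  have e4 := hkk.trans ((min_le_right _ _).trans (min_le_left _ _))
  have e5 := hkk.trans ((min_le_right _ _).trans ((min_le_right _ _).trans (min_le_left _ _)))
  have e6 := hkk.trans ((min_le_right _ _).trans ((min_le_right _ _).trans (min_le_right _ _)))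
  have hkG' : k < kG := by linarith
  have hkL' : k < kL := by linarith
  have hkS' : k < kS := by linarith
  have hkD' : k < kD := by linarith
  have hk1 : k < 1 := by linarith
  have hE := HE k hk e5
  have hE1 : 1 ≤ ell k := (le_max_left _ _).trans hE
  have hEq : 16 * q ≤ ell k := (le_max_left _ _).trans ((le_max_right _ _).trans hE)
  have hEa : 2 * a ≤ ell k := (le_max_right _ _).trans ((le_max_right _ _).trans hE)
  have hl : 0 < ell k := by linarith
  have hQ := HQ k hk e6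
  have hs : 0 < a' / ell k := by positivity
  have hθ : 0 < a / ell k := by positivity
  have hTB : 0 < (T + 1) * ell k ^ 2 := by positivity
  have hqs8 : 8 * q * (2 * (a' / ell k)) ≤ 1 := by
    have h1 : 8 * q * (2 * (a' / ell k)) = (16 * q * a') / ell k := by ring
    rw [h1, div_le_one hl]
    have h2 : 16 * q * a' ≤ 16 * q * 1 := mul_le_mul_of_nonneg_left ha'11 (by positivity)
    linarith
  have hqs : 4 * q * (a' / ell k) ≤ 1 := by
    have h1 : 0 ≤ q * (a' / ell k) := by positivity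
    linarith
  have hCa0 : 0 ≤ Ca := by linarith
  have hB0 : 0 ≤ B := by linarith
  have hcd0 : 0 ≤ cd := by linarith
  refine
    { hk := hk
      hk1 := hk1
      hβ := hβ
      hq := hq1
      hs := hs
      hqs := hqs
      ha := ha
      hθ := hθ
      hθ1 := ?_
      hTB := hTB
      hBD := Real.one_le_exp (by positivity)
      hBV := Real.one_le_exp (by positivity)
      hκ := by positivity
      hCV := Real.sqrt_nonneg _
      hK := by linarith
      vone := ?_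
      exit := ?_
      sum := ?_
      gD := ?_
      gV := ?_
      ly := ?_
      good := ?_
      hcd := fun L x => ⟨(hcd L x).1, (hcd L x).2.1⟩
      num := n3 }
  · rw [div_le_iff₀ hl]
    linarith
  · intro L G x
    refine V_one_pair hk hk1 hq1 hs ?_ G x
    linarith
  · intro L Sm ε0 hSm hε
    exact exit_bd 2 hβ hk.le _ (hbn k hk) L Sm ε0 hSm hε
  · intro L Sm hSm
    exact lin_sum 2 hβ hk.le _ (hbn k hk) L Sm hSm
  · intro L _
    obtain ⟨h0, hh0, H⟩ := HD k hk hkD' a ha haaD L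
    refine ⟨min h0 1, lt_min hh0 one_pos, fun h hh hh1 G y hy n hn x => ?_⟩
    have b1 : h < h0 := lt_of_lt_of_le hh1 (min_le_left _ _)
    have b2 : h < 1 := lt_of_lt_of_le hh1 (min_le_right _ _)
    refine (setLIntegral_le_lintegral _ _).trans
      ((H h hh b1 G y hy n (Fin2_nh hTB hh b2 hn) x).trans ?_)
    refine ENNReal.ofReal_le_ofReal ?_
    have h3 : Real.exp (CD * a * (T + 1)) ≤ Real.exp (CD * a * (T + 2)) := by
      refine Real.exp_le_exp.2 ?_
      have h4 : 0 < CD * a := by positivity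
      nlinarith
    refine mul_le_mul_of_nonneg_right ?_ (by positivity)
    exact mul_le_mul_of_nonneg_right h3 (Real.exp_pos _).le
  · intro L _
    obtain ⟨h0, hh0, H⟩ := HS _ k (PS2 d β k hβ hk.le) hk hkS' (hbn k hk) (2 * (a' / ell k))
      (by positivity) hqs8
    refine ⟨min h0 1, lt_min hh0 one_pos, fun h hh hh1 G n hn x => ?_⟩
    have b1 : h < h0 := lt_of_lt_of_le hh1 (min_le_left _ _)
    have b2 : h < 1 := lt_of_lt_of_le hh1 (min_le_right _ _)
    have b3 := Fin2_gv hC9 ha' hE1 (Fin2_nh hTB hh b2 hn)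
    have b4 := ENNReal.ofReal_le_ofReal (Real.exp_le_exp.2 b3)
    have H3 := H h hh b1 L G n x
    constructor
    · simp only [(V_sq k q (a' / ell k) _ x).1]
      exact H3.1.trans (mul_le_mul_left b4 _)
    · simp only [(V_sq k q (a' / ell k) _ x).2]
      exact H3.2.trans (mul_le_mul_left b4 _)
  · intro L hL
    obtain ⟨h0, hh0, H⟩ := HL k hk hkL' L ((le_max_left _ _).trans hL)
    refine ⟨h0, hh0, fun h hh hh1 G x => ?_⟩
    have H3 := H h hh hh1 G x
    exact ⟨H3.1.trans (Fin2_sq B c a' T Ca hB0 hCa0 _),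
      H3.2.1.trans (Fin2_sq B c a' T Ca hB0 hCa0 _)⟩
  · intro L hL
    obtain ⟨h1, hh1, H⟩ := HL k hk hkL' L ((le_max_left _ _).trans hL)
    obtain ⟨CL, hCL, HG'⟩ := HG k hk hkG' L ((le_max_right _ _).trans hL)
      (B * Real.exp (-(c * a' * T))) (2 * Ca * cd) (by positivity) (by positivity)
      ⟨h1, hh1, fun h hh hlt G n hn1 hn2 x =>
        Fin2_wpr (PS2 d β k hβ hk.le) h n q (a' / ell k) (Real.exp (-(a / 8)))
          (B * Real.exp (-(c * a' * T))) Ca cd (Real.exp_pos _).le hCa0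
          (fun x => (hcd L x).1) G (fun z => (H h hh hlt G z).2.2 n hn1 hn2) x⟩
    generalize KB2 d C C5 a T (7 * Real.log K / a' + 3) κ3 κd sw p Rb *
        (2 * (B * Real.exp (-(c * a' * T))) * K + 2 * Ca * cd) +
        4 * KE2 d C C5 c3 a a' T (7 * Real.log K / a' + 3) (a / a') κ κd p Rb * K = coef at *
    refine ⟨CL, fun x y => max coef 0 * Real.exp (-(5 / 16 * a * (boxNet d L).dist x y)),
      hCL, ?_, ?_, ?_⟩
    · intro x y
      exact mul_nonneg (le_max_right _ _) (Real.exp_pos _).le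
    · intro x
      rw [← Finset.mul_sum]
      refine (mul_le_mul_of_nonneg_left (hcd L x).2.2 (le_max_right _ _)).trans ?_
      rcases le_total coef 0 with h0 | h0
      · rw [max_eq_right h0]
        linarith
      · rw [max_eq_left h0]
        exact n4
    · intro ε0 hε0
      obtain ⟨h0, hh0, H2⟩ := HG' ε0 hε0
      refine ⟨h0, hh0, fun h hh hlt A ε f hA hε hf hf1 hcls G G' y hG hw => ?_⟩
      refine (H2 h hh hlt A ε f hA hε hf hf1 hcls G G' y hG hw).trans ?_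
      refine add_le_add (mul_le_mul_of_nonneg_right (Finset.sum_le_sum fun x _ => ?_)
        (Real.rpow_nonneg (norm_nonneg _) _)) le_rfl
      exact mul_le_mul_of_nonneg_left
        (mul_le_mul_of_nonneg_right (le_max_left _ _) (Real.exp_pos _).le) (hA x)

theorem large_N2 (d : ℕ) (hd : 1 ≤ d) (β : ℝ) (hβ : 0 < β) : ∃ k1 : ℝ, 0 < k1 ∧
    ∀ k, 0 < k → k ≤ k1 → DynB.ChainMix 2 d β k := by
  obtain ⟨q, a, a', T, BD, BV, κ', CV, K, cd, k1, Ls, hk1, hk11, ha', H⟩ := Fin2_blk d hd β hβ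
  obtain ⟨CM, hCM, HM⟩ := mom_unif 2 d β hβ
  refine ⟨k1, hk1, fun k hk hkk => ?_⟩
  have hB := H k hk hkk
  have hM := HM _ k (PS2 d β k hβ hk.le) hk.le (by linarith) bnoise2
  refine link2 d β k hβ hk (mix_of_blk hd (PS2 d β k hβ hk.le) q _ a _ _ _ BV _ CV K cd CM
    Ls hB hM ?_)
  have hl : 0 < ell k := by
    unfold ell
    exact Real.log_pos (one_lt_one_div hk (by linarith))
  have h1 : Real.log k = -ell k := by
    unfold ell
    rw [one_div, Real.log_inv, neg_neg]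
  rw [Real.rpow_def_of_pos hk, h1]
  have h2 : -ell k * -(a' / ell k) = a' := by field_simp
  rw [h2]
  have h3 := Real.exp_bound_div_one_sub_of_interval' (x := 1 / 16) (by norm_num) (by norm_num)
  have h4 : (1 : ℝ) / (1 - 1 / 16) ≤ 11 / 10 := by norm_num
  have h5 : Real.exp a' ≤ Real.exp (1 / 16) := Real.exp_le_exp.2 ha'
  linarith

end DynC

end
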