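import Pool.Agent.Lib_MP_36b788_m.M23

/-!
# MP_36b788_pr, stationary limit: merged library part X0

Concatenation of smaller files (each in its own section), only to save build time.
-/

/-! ### from `Lib_MP_36b788x.XDefs` -/

section

/-!
# Existence of solutions: definitions

Plan of the chapter (all stubs `X*.lean`): `XKC` (continuous modification from fourth moments), `XIso`
(isonormal process, pre-Brownian motion), `XBM` (Brownian motion), `XN1`, `XN2`, `XN3` (independent family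
of Brownian motions, complete filtration, initial field), `XZ` (moments of `mulv` of an increment), `XM1`,
`XM2`, `XI` (Euler chain on the infinite lattice: adapted, moments, fourth moments of increments), `XS`,
`XC` (step `h` against step `h/2`: Cauchy in `L²`), `XL1`, `XL2` (limit process), `XD` (drift), `XA`, `XR`
(martingale part at dyadic and at real times), `XIt` (Ito equation), `XTop` (existence theorem).
-/

open MeasureTheory ProbabilityTheory Filter Dyn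
open scoped NNReal ENNReal Topology

namespace DynX

/-- noise, complete filtration, initial field -/
structure Noise {Ω : Type} [mΩ : MeasurableSpace Ω] (P : Measure Ω) {N d : ℕ}
    (ℱ : Filtration ℝ≥0 mΩ) (B : Site d → Fin N → Fin N → ℝ≥0 → Ω → ℝ)
    (H0 : Site d → Ω → E N) : Prop where
  prob : IsProbabilityMeasure P
  brownian : ∀ x i j, IsBrownianReal (B x i j) P
  indep : iIndepFun (fun (q : Site d × Fin N × Fin N) (ω : Ω) (t : ℝ≥0) => B q.1 q.2.1 q.2.2 t ω) P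
  adaptB : ∀ x i j t, Measurable[ℱ t] (B x i j t)
  indepInc : ∀ s t : ℝ≥0, s ≤ t → Indep (ℱ s)
    (MeasurableSpace.comap (fun (ω : Ω) (q : Site d × Fin N × Fin N) =>
      B q.1 q.2.1 q.2.2 t ω - B q.1 q.2.1 q.2.2 s ω) inferInstance) P
  h0 : ∀ x, Measurable[ℱ 0] (H0 x)
  mom : ∀ p : ℕ, ∃ C : ℝ, ∀ x, Integrable (fun ω => ‖H0 x ω‖ ^ p) P ∧
    ∫ ω, ‖H0 x ω‖ ^ p ∂P ≤ C
  compl : ∀ (t : ℝ≥0) (A : Set Ω), MeasurableSet A → P A = 0 → MeasurableSet[ℱ t] A

/-- Euler chain on the infinite lattice, time step `h` -/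
noncomputable def ac {Ω : Type} {N d : ℕ} (k ε β : ℝ) (h : ℝ≥0)
    (B : Site d → Fin N → Fin N → ℝ≥0 → Ω → ℝ) (H0 : Site d → Ω → E N) :
    ℕ → Ω → Site d → E N
  | 0, ω => fun x => H0 x ω
  | n + 1, ω => fun x =>
      J β (ε * h) (ac k ε β h B H0 n ω x +
        mulv (fun a b => B x a b ((n + 1) * h) ω - B x a b (n * h) ω) (ac k ε β h B H0 n ω x))
      + (k * h) • lap (ac k ε β h B H0 n ω) x

/-- dyadic time step -/
noncomputable def hm (m : ℕ) : ℝ≥0 := (1 / 2) ^ m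

/-- `H` is the limit of the chains with dyadic steps -/
structure IsLim {Ω : Type} [mΩ : MeasurableSpace Ω] (P : Measure Ω) {N d : ℕ} (k ε β : ℝ)
    (ℱ : Filtration ℝ≥0 mΩ) (B : Site d → Fin N → Fin N → ℝ≥0 → Ω → ℝ)
    (H0 : Site d → Ω → E N) (H : ℝ≥0 → Site d → Ω → E N) : Prop where
  adapted : ∀ t x, Measurable[ℱ t] (H t x)
  cont : ∀ x, ∀ᵐ ω ∂P, Continuous (fun t => H t x ω)
  init : ∀ x, H 0 x =ᵐ[P] H0 x
  mom : ∀ (p : ℕ) (T : ℝ≥0), ∃ C : ℝ, ∀ t ≤ T, ∀ x,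
    Integrable (fun ω => ‖H t x ω‖ ^ p) P ∧ ∫ ω, ‖H t x ω‖ ^ p ∂P ≤ C
  inc : ∀ T : ℝ≥0, ∃ C : ℝ, 0 ≤ C ∧ ∀ s t : ℝ≥0, s ≤ t → t ≤ T → ∀ x,
    ∫ ω, ‖H t x ω - H s x ω‖ ^ 2 ∂P ≤ C * (t - s)
  conv : ∀ T : ℝ≥0, ∃ C : ℝ, 0 ≤ C ∧ ∀ m j : ℕ, j * hm m ≤ T → ∀ x,
    ∫ ω, ‖H (j * hm m) x ω - ac k ε β (hm m) B H0 j ω x‖ ^ 2 ∂P ≤ C * Real.sqrt (hm m)

/-- martingale part -/
noncomputable def Mt {Ω : Type} {N d : ℕ} (k ε β : ℝ) (H : ℝ≥0 → Site d → Ω → E N)
    (s t : ℝ≥0) (x : Site d) (ω : Ω) : E N :=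
  H t x ω - H s x ω - ∫ r in (s : ℝ)..t, drf k ε β (fun y => H r.toNNReal y ω) x

end DynX

end
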