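import Pool.Agent.Lib_MP_36b788_m.X0

/-!
# MP_36b788_pr, stationary limit: merged library part X1

Concatenation of smaller files (each in its own section), only to save build time.
-/

/-! ### from `Lib_MP_36b788x.XZ` -/

section

/-!
# The zero solution; moments of `mulv` of an increment

With `zero_dyn` all the facts about the noise proved for `IsDynamo` are available: `inc_meas`, `inc_law`, `inc_indep`, `inc_past` (`SdeInc.lean`),
`mulv_sq`, `rsum_sq`, `rsum_sub` (`SdeI.lean`).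

PROOF. `zero_dyn`: `lap 0 = 0`, the drift of zero is zero, `rsum B 0 = 0` (`mulv b 0 = 0`).
`mulv_pow`: `‖mulv b v‖ ≤ (Σ_{a,b} |b a b|) ‖v‖`, so the left side is `≤ ∫⁻ Z (Σ|ΔB|)^{2q} ‖V‖^{2q}`. The increments are independent of `ℱ s` (`Noise.indepInc`,
or `inc_past` with `κ = Unit`), so the integral factorizes: `E[(Σ|ΔB|)^{2q}] ∫⁻ Z ‖V‖^{2q}` (`lintegral_mul_eq_lintegral_mul_lintegral_of_independent_measurableSpace`).
`(Σ|ΔB_{ab}|)^{2q} ≤ (N²)^{2q} Σ_{ab} |ΔB_{ab}|^{2q}` (also for `N = 0`), `E|ΔB|^{2q} = (t-s)^q E|ξ|^{2q}` (`ΔB` has the law of `√(t-s) ξ`), and the Gaussian moments are finite.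
-/

open MeasureTheory ProbabilityTheory Filter Dyn
open scoped NNReal ENNReal Topology

namespace DynX

theorem zero_dyn {Ω : Type} [mΩ : MeasurableSpace Ω] {P : Measure Ω} {N d : ℕ}
    {ℱ : Filtration ℝ≥0 mΩ} {B : Site d → Fin N → Fin N → ℝ≥0 → Ω → ℝ}
    {H0 : Site d → Ω → E N} (hN : Noise P ℱ B H0) (k ε β : ℝ) :
    IsDynamo P k ε β ℱ B (fun _ _ _ => (0 : E N)) := by
  have := hN.prob
  have hd : ∀ x : Site d, drf k ε β (fun _ => (0 : E N)) x = 0 := by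
    intro x
    unfold drf lap
    simp
  have hm : ∀ b : Fin N → Fin N → ℝ, mulv b (0 : E N) = 0 := by
    intro b
    unfold mulv
    ext i
    simp
  refine ⟨hN.prob, hN.brownian, hN.indep, hN.adaptB, hN.indepInc, fun _ _ => measurable_const,
    fun _ => Filter.Eventually.of_forall fun _ => continuous_const, ?_, ?_⟩
  · intro p T
    refine ⟨1, fun t _ x => ⟨integrable_const _, ?_⟩⟩
    rw [integral_const, probReal_univ, one_smul, norm_zero]
    rcases Nat.eq_zero_or_pos p with h | h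
    · rw [h, pow_zero]
    · rw [zero_pow h.ne']
      exact zero_le_one
  · intro x s t _
    have h1 : ∀ n : ℕ, (fun ω => (0 : E N) - 0
        - (∫ r in (s : ℝ)..t, drf k ε β (fun _ => (0 : E N)) x)
        - rsum B (fun _ _ _ => (0 : E N)) x s t n ω) = fun _ : Ω => (0 : E N) := by
      intro n
      funext ω
      unfold rsum
      simp only [hd, hm, Finset.sum_const_zero, intervalIntegral.integral_zero, sub_zero]
    have h2 : ∀ n : ℕ, eLpNorm (fun ω => (0 : E N) - 0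
        - (∫ r in (s : ℝ)..t, drf k ε β (fun _ => (0 : E N)) x)
        - rsum B (fun _ _ _ => (0 : E N)) x s t n ω) 2 P = 0 := by
      intro n
      rw [h1 n]
      exact eLpNorm_zero
    exact (tendsto_congr h2).mpr tendsto_const_nhds

theorem mulv_norm {N : ℕ} (b : Fin N → Fin N → ℝ) (v : E N) :
    ‖mulv b v‖ ≤ (∑ i, ∑ j, |b i j|) * ‖v‖ := by
  have h0 : ∀ i, |(mulv b v) i| ≤ (∑ j, |b i j|) * ‖v‖ := by
    intro i
    show |∑ j, b i j * v j| ≤ _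
    refine (Finset.abs_sum_le_sum_abs _ _).trans ?_
    rw [Finset.sum_mul]
    refine Finset.sum_le_sum fun j _ => ?_
    rw [abs_mul]
    exact mul_le_mul_of_nonneg_left (PiLp.norm_apply_le v j) (abs_nonneg _)
  have h1 : ‖mulv b v‖ ≤ ∑ i, |(mulv b v) i| := by
    have h2 : 0 ≤ ∑ i, |(mulv b v) i| := Finset.sum_nonneg fun i _ => abs_nonneg _
    refine abs_le_of_sq_le_sq' ?_ h2 |>.2
    rw [EuclideanSpace.norm_sq_eq, sq (∑ i, |(mulv b v) i|), Finset.sum_mul]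
    refine Finset.sum_le_sum fun i hi => ?_
    rw [sq, Real.norm_eq_abs]
    exact mul_le_mul_of_nonneg_left
      (Finset.single_le_sum (f := fun i => |(mulv b v) i|) (fun i _ => abs_nonneg _) hi)
      (abs_nonneg _)
  refine h1.trans ?_
  rw [Finset.sum_mul]
  exact Finset.sum_le_sum fun i _ => h0 i

private theorem XZ_pow {ι : Type} [Fintype ι] (f : ι → ℝ) (hf : ∀ i, 0 ≤ f i) (n : ℕ)
    (hn : 0 < n) : (∑ i, f i) ^ n ≤ ((Fintype.card ι : ℕ) : ℝ) ^ n * ∑ i, f i ^ n := by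
  obtain ⟨m, rfl⟩ : ∃ m, n = m + 1 := ⟨n - 1, by omega⟩
  rcases isEmpty_or_nonempty ι with h | h
  · simp
  · have h1 := pow_sum_div_card_le_sum_pow (s := Finset.univ) (f := f) (fun i _ => hf i) m
    have hc : (1 : ℝ) ≤ (Fintype.card ι : ℕ) := by
      exact_mod_cast Fintype.card_pos
    have hs : 0 ≤ ∑ i, f i ^ (m + 1) := Finset.sum_nonneg fun i _ => pow_nonneg (hf i) _
    rw [Finset.card_univ, div_le_iff₀ (by positivity)] at h1
    refine h1.trans ?_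
    rw [mul_comm]
    refine mul_le_mul_of_nonneg_right ?_ hs
    exact pow_le_pow_right₀ hc (Nat.le_succ m)

theorem mulv_pow (N q : ℕ) : ∃ C : ℝ, 0 ≤ C ∧ ∀ (Ω : Type) [mΩ : MeasurableSpace Ω]
    (P : Measure Ω) (d : ℕ) (ℱ : Filtration ℝ≥0 mΩ) (B : Site d → Fin N → Fin N → ℝ≥0 → Ω → ℝ)
    (H0 : Site d → Ω → E N), Noise P ℱ B H0 → ∀ s t : ℝ≥0, s ≤ t → ∀ (x : Site d)
    (V : Ω → E N) (Z : Ω → ℝ≥0∞), Measurable[ℱ s] V → Measurable[ℱ s] Z →
      ∫⁻ ω, Z ω * ENNReal.ofReal (‖mulv (fun a b => B x a b t ω - B x a b s ω) (V ω)‖ ^ (2 * q)) ∂P ≤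
        ENNReal.ofReal (C * ((t : ℝ) - s) ^ q) *
          ∫⁻ ω, Z ω * ENNReal.ofReal (‖V ω‖ ^ (2 * q)) ∂P := by
  rcases Nat.eq_zero_or_pos q with hq | hq
  · subst hq
    refine ⟨1, zero_le_one, fun Ω mΩ P d ℱ B H0 hN s t hst x V Z hV hZ => ?_⟩
    simp
  obtain ⟨m, hm⟩ : ∃ m : ℝ, m = ∫ y, |y| ^ (2 * q) ∂(gaussianReal 0 1) := ⟨_, rfl⟩
  have hm0 : 0 ≤ m := by
    rw [hm]
    exact integral_nonneg fun y => by positivity
  have hmi : Integrable (fun y : ℝ => |y| ^ (2 * q)) (gaussianReal 0 1) := by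
    have h1 : MemLp (id : ℝ → ℝ) ((2 * q : ℕ) : ℝ≥0∞) (gaussianReal 0 1) := by
      have h2 := memLp_id_gaussianReal (μ := 0) (v := 1) ((2 * q : ℕ) : ℝ≥0)
      exact_mod_cast h2
    exact h1.integrable_norm_pow (by omega)
  refine ⟨((N : ℝ) * N) ^ (2 * q) * (N * N * m), by positivity,
    fun Ω mΩ P d ℱ B H0 hN s t hst x V Z hV hZ => ?_⟩
  have := hN.prob
  have hH := zero_dyn hN 0 0 0
  have hinc := fun a b => (inc_meas hH s t hst x a b).2
  have hlaw := fun a b => inc_law hH s t hst x a b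
  -- moments of one increment
  have hmom : ∀ a b : Fin N, ∫⁻ ω, ENNReal.ofReal (|B x a b t ω - B x a b s ω| ^ (2 * q)) ∂P =
      ENNReal.ofReal (((t : ℝ) - s) ^ q * m) := by
    intro a b
    have hts : (0 : ℝ) ≤ (t : ℝ) - s := sub_nonneg.2 (by exact_mod_cast hst)
    have hg : Measurable (fun y : ℝ => ENNReal.ofReal (|y| ^ (2 * q))) := by fun_prop
    have e1 : ∫⁻ ω, ENNReal.ofReal (|B x a b t ω - B x a b s ω| ^ (2 * q)) ∂P =
        ∫⁻ y, ENNReal.ofReal (|y| ^ (2 * q)) ∂(gaussianReal 0 (t - s)) := by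
      rw [← hlaw a b, lintegral_map hg (hinc a b)]
    have e2 : gaussianReal 0 (t - s) =
        (gaussianReal 0 1).map (fun y => Real.sqrt ((t : ℝ) - s) * y) := by
      rw [gaussianReal_map_const_mul]
      congr 1
      · rw [mul_zero]
      · rw [mul_one]
        ext
        show ((t - s : ℝ≥0) : ℝ) = Real.sqrt ((t : ℝ) - s) ^ 2
        rw [NNReal.coe_sub hst, Real.sq_sqrt hts]
    rw [e1, e2, lintegral_map hg (by fun_prop)]
    have e3 : ∀ y : ℝ, ENNReal.ofReal (|Real.sqrt ((t : ℝ) - s) * y| ^ (2 * q)) =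
        ENNReal.ofReal (((t : ℝ) - s) ^ q) * ENNReal.ofReal (|y| ^ (2 * q)) := by
      intro y
      rw [← ENNReal.ofReal_mul (by positivity), abs_mul, mul_pow,
        abs_of_nonneg (Real.sqrt_nonneg _), pow_mul, Real.sq_sqrt hts]
    simp only [e3]
    rw [lintegral_const_mul _ hg, ENNReal.ofReal_mul (by positivity), hm,
      ofReal_integral_eq_lintegral_ofReal hmi
        (Filter.Eventually.of_forall fun y => by positivity)]
  -- the pointwise bound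
  have hpt : ∀ ω, ENNReal.ofReal
      (‖mulv (fun a b => B x a b t ω - B x a b s ω) (V ω)‖ ^ (2 * q)) ≤
      ENNReal.ofReal (‖V ω‖ ^ (2 * q)) * ENNReal.ofReal (((N : ℝ) * N) ^ (2 * q) *
        ∑ a, ∑ b, |B x a b t ω - B x a b s ω| ^ (2 * q)) := by
    intro ω
    rw [← ENNReal.ofReal_mul (by positivity)]
    refine ENNReal.ofReal_le_ofReal ?_
    have h1 := mulv_norm (fun a b => B x a b t ω - B x a b s ω) (V ω)
    have h2 := pow_le_pow_left₀ (norm_nonneg _) h1 (2 * q)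
    refine h2.trans ?_
    rw [mul_pow, mul_comm]
    refine mul_le_mul_of_nonneg_left ?_ (by positivity)
    have h3 := XZ_pow (fun p : Fin N × Fin N => |B x p.1 p.2 t ω - B x p.1 p.2 s ω|)
      (fun p => abs_nonneg _) (2 * q)
      (by omega)
    rw [Fintype.sum_prod_type, Fintype.sum_prod_type, Fintype.card_prod, Fintype.card_fin] at h3
    push_cast at h3
    exact h3
  -- the random variables
  have hVm : Measurable V := hV.mono (ℱ.le s) le_rfl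
  have hZm : Measurable Z := hZ.mono (ℱ.le s) le_rfl
  have hU : Measurable[ℱ s] (fun ω => Z ω * ENNReal.ofReal (‖V ω‖ ^ (2 * q))) :=
    hZ.mul ((show Measurable (fun v : E N => ENNReal.ofReal (‖v‖ ^ (2 * q))) by fun_prop).comp hV)
  have hφ : Measurable (fun f : Unit × Fin N × Fin N → ℝ =>
      ENNReal.ofReal (((N : ℝ) * N) ^ (2 * q) * ∑ a, ∑ b, |f ((), a, b)| ^ (2 * q))) := by
    fun_prop
  have hF : Measurable (fun ω => ENNReal.ofReal (((N : ℝ) * N) ^ (2 * q) *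
      ∑ a, ∑ b, |B x a b t ω - B x a b s ω| ^ (2 * q))) := by
    have h1 : ∀ a b, Measurable (fun ω => B x a b t ω - B x a b s ω) := hinc
    fun_prop
  have hind : IndepFun (fun ω => Z ω * ENNReal.ofReal (‖V ω‖ ^ (2 * q)))
      (fun ω => ENNReal.ofReal (((N : ℝ) * N) ^ (2 * q) *
        ∑ a, ∑ b, |B x a b t ω - B x a b s ω| ^ (2 * q))) P :=
    (inc_past hH s t hst (fun _ : Unit => x) _ hU).comp measurable_id hφ
  have hprod := lintegral_mul_eq_lintegral_mul_lintegral_of_indepFun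
    (hU.mono (ℱ.le s) le_rfl) hF hind
  have hEF : ∫⁻ ω, ENNReal.ofReal (((N : ℝ) * N) ^ (2 * q) *
      ∑ a, ∑ b, |B x a b t ω - B x a b s ω| ^ (2 * q)) ∂P =
      ENNReal.ofReal (((N : ℝ) * N) ^ (2 * q) * (N * N * m) * ((t : ℝ) - s) ^ q) := by
    have hts : (0 : ℝ) ≤ (t : ℝ) - s := sub_nonneg.2 (by exact_mod_cast hst)
    have e1 : ∀ ω, ENNReal.ofReal (((N : ℝ) * N) ^ (2 * q) *
        ∑ a, ∑ b, |B x a b t ω - B x a b s ω| ^ (2 * q)) =
        ENNReal.ofReal (((N : ℝ) * N) ^ (2 * q)) *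
          ∑ a, ∑ b, ENNReal.ofReal (|B x a b t ω - B x a b s ω| ^ (2 * q)) := by
      intro ω
      rw [ENNReal.ofReal_mul (by positivity), ENNReal.ofReal_sum_of_nonneg
        (fun a _ => Finset.sum_nonneg fun b _ => by positivity)]
      congr 1
      refine Finset.sum_congr rfl fun a _ => ?_
      rw [ENNReal.ofReal_sum_of_nonneg (fun b _ => by positivity)]
    have hmb : ∀ a b, Measurable (fun ω =>
        ENNReal.ofReal (|B x a b t ω - B x a b s ω| ^ (2 * q))) := by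
      intro a b
      have h1 : Measurable (fun ω => B x a b t ω - B x a b s ω) := hinc a b
      fun_prop
    simp only [e1]
    rw [lintegral_const_mul _ (Finset.measurable_sum _ fun a _ =>
        Finset.measurable_sum _ fun b _ => hmb a b),
      lintegral_finsetSum _ fun a _ => Finset.measurable_sum _ fun b _ => hmb a b]
    have e2 : ∀ a : Fin N, ∫⁻ ω, ∑ b, ENNReal.ofReal (|B x a b t ω - B x a b s ω| ^ (2 * q)) ∂P =
        ∑ _b : Fin N, ENNReal.ofReal (((t : ℝ) - s) ^ q * m) := by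
      intro a
      rw [lintegral_finsetSum _ fun b _ => hmb a b]
      exact Finset.sum_congr rfl fun b _ => hmom a b
    simp only [e2, Finset.sum_const, Finset.card_univ, Fintype.card_fin, nsmul_eq_mul]
    have e3 : ∀ n : ℕ, (n : ℝ≥0∞) = ENNReal.ofReal (n : ℝ) := fun n => by
      rw [ENNReal.ofReal_natCast]
    rw [e3 N, ← ENNReal.ofReal_mul (by positivity), ← ENNReal.ofReal_mul (by positivity),
      ← ENNReal.ofReal_mul (by positivity)]
    congr 1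
    ring
  calc ∫⁻ ω, Z ω * ENNReal.ofReal
        (‖mulv (fun a b => B x a b t ω - B x a b s ω) (V ω)‖ ^ (2 * q)) ∂P
      ≤ ∫⁻ ω, (Z ω * ENNReal.ofReal (‖V ω‖ ^ (2 * q))) *
          ENNReal.ofReal (((N : ℝ) * N) ^ (2 * q) *
            ∑ a, ∑ b, |B x a b t ω - B x a b s ω| ^ (2 * q)) ∂P := by
        refine lintegral_mono fun ω => ?_
        show Z ω * _ ≤ Z ω * _ * _
        rw [mul_assoc]
        exact mul_le_mul' le_rfl (hpt ω)
    _ = (∫⁻ ω, Z ω * ENNReal.ofReal (‖V ω‖ ^ (2 * q)) ∂P) *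
          ∫⁻ ω, ENNReal.ofReal (((N : ℝ) * N) ^ (2 * q) *
            ∑ a, ∑ b, |B x a b t ω - B x a b s ω| ^ (2 * q)) ∂P := hprod
    _ = ENNReal.ofReal (((N : ℝ) * N) ^ (2 * q) * (N * N * m) * ((t : ℝ) - s) ^ q) *
          ∫⁻ ω, Z ω * ENNReal.ofReal (‖V ω‖ ^ (2 * q)) ∂P := by
        rw [hEF, mul_comm]
    _ ≤ _ := le_rfl

end DynX

end

/-! ### from `Lib_MP_36b788x.XM1` -/

section

/-!
# Euler chain on the infinite lattice: adapted, all moments finite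

PROOF. `ac_meas`: induction on `n`: `ac n` is `ℱ (n h)`-measurable, the increments are `ℱ ((n+1) h)`-measurable, `J` is continuous (`J_continuous`),
`mulv` is continuous (`mulv_continuous`), `lap` is a finite sum.
`ac_mem`: induction on `n`, for all `p` at the same time (`MemLp … (p : ℝ≥0∞)`): `‖J v‖ ≤ ‖v‖` (`norm_J`, `psi_le`), `MemLp` is closed under sums,
`‖mulv ΔB A‖^p ∈ L¹` by `mulv_pow` with `Z = 1` and `2q ≥ p`.
-/

open MeasureTheory ProbabilityTheory Filter Dyn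
open scoped NNReal ENNReal Topology

namespace DynX

private theorem XM1_gen {Ω : Type} {N d : ℕ} (m : MeasurableSpace Ω) (c : ℝ) {J' : E N → E N}
    (hJ : Continuous J') (b : Ω → Fin N → Fin N → ℝ) (hb : ∀ i j, Measurable (fun ω => b ω i j))
    (A : Ω → Site d → E N) (hA : ∀ y, Measurable (fun ω => A ω y)) (x : Site d) :
    Measurable (fun ω => J' (A ω x + mulv (b ω) (A ω x)) + c • lap (A ω) x) := by
  have hb' : Measurable b := measurable_pi_lambda _ fun i => measurable_pi_lambda _ fun j => hb i j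
  have hmul : Measurable (fun ω => mulv (b ω) (A ω x)) :=
    (mulv_continuous N).measurable.comp (hb'.prodMk (hA x))
  have hlap : Measurable (fun ω => lap (A ω) x) := by
    unfold lap
    exact Finset.measurable_fun_sum _ fun i _ =>
      ((hA _).sub (hA _)).add ((hA _).sub (hA _))
  have h1 : Measurable (fun ω => J' (A ω x + mulv (b ω) (A ω x))) :=
    hJ.measurable.comp ((hA x).add hmul)
  have h2 : Measurable (fun ω => c • lap (A ω) x) := hlap.const_smul c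
  exact h1.add h2

variable {Ω : Type} [mΩ : MeasurableSpace Ω] {P : Measure Ω} {N d : ℕ}
    {ℱ : Filtration ℝ≥0 mΩ} {B : Site d → Fin N → Fin N → ℝ≥0 → Ω → ℝ}
    {H0 : Site d → Ω → E N} {k ε β : ℝ}

theorem ac_meas (hN : Noise P ℱ B H0) (hβ : 0 < β) (hε : 0 < ε) (h : ℝ≥0) (n : ℕ) (x : Site d) :
    Measurable[ℱ (n * h)] (fun ω => ac k ε β h B H0 n ω x) := by
  have hJ : Continuous (J (N := N) β (ε * h)) := J_continuous hβ (by positivity)
  induction n generalizing x with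
  | zero =>
    have h0 : (((0 : ℕ) : ℝ≥0) * h) = 0 := by simp
    rw [h0]
    exact hN.h0 x
  | succ n ih =>
    have hle : ((n : ℕ) : ℝ≥0) * h ≤ ((n + 1 : ℕ) : ℝ≥0) * h :=
      mul_le_mul_of_nonneg_right (by exact_mod_cast Nat.le_succ n) zero_le
    have ih' : ∀ y : Site d, Measurable[ℱ (((n + 1 : ℕ) : ℝ≥0) * h)]
        (fun ω => ac k ε β h B H0 n ω y) := fun y => (ih y).mono (ℱ.mono hle) le_rfl
    refine XM1_gen (ℱ (((n + 1 : ℕ) : ℝ≥0) * h)) (k * h) hJ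
      (fun ω a b => B x a b ((n + 1) * h) ω - B x a b (n * h) ω) (fun a b => ?_)
      (ac k ε β h B H0 n) ih' x
    refine Measurable.sub (m := ℱ (((n + 1 : ℕ) : ℝ≥0) * h)) ?_ ?_
    · have h1 := hN.adaptB x a b (((n + 1 : ℕ) : ℝ≥0) * h)
      have h2 : (((n + 1 : ℕ) : ℝ≥0) * h) = ((n : ℝ≥0) + 1) * h := by push_cast; ring
      rw [h2] at h1 ⊢
      exact h1
    · exact (hN.adaptB x a b _).mono (ℱ.mono hle) le_rfl

private theorem XM1_mem (hN : Noise P ℱ B H0) (hβ : 0 < β) (hε : 0 < ε) (h : ℝ≥0) (n : ℕ) :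
    ∀ (p : ℕ) (x : Site d), MemLp (fun ω => ac k ε β h B H0 n ω x) (p : ℝ≥0∞) P := by
  have := hN.prob
  have hJc : Continuous (J (N := N) β (ε * h)) := J_continuous hβ (by positivity)
  have hJn : ∀ v : E N, ‖J β (ε * h) v‖ ≤ ‖v‖ := fun v => by
    rw [norm_J hβ (by positivity)]
    exact psi_le hβ (by positivity) (norm_nonneg v)
  induction n with
  | zero =>
    intro p x
    have hm : AEStronglyMeasurable (H0 x) P :=
      ((hN.h0 x).mono (ℱ.le 0) le_rfl).aestronglyMeasurable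
    show MemLp (H0 x) (p : ℝ≥0∞) P
    rcases Nat.eq_zero_or_pos p with hp | hp
    · subst hp
      rw [Nat.cast_zero, memLp_zero_iff_aestronglyMeasurable]
      exact hm
    · obtain ⟨C, hC⟩ := hN.mom p
      have h1 := (hC x).1
      rw [← integrable_norm_rpow_iff hm (by exact_mod_cast hp.ne') (ENNReal.natCast_ne_top p)]
      simpa using h1
  | succ n ih =>
    intro p x
    have hst : ((n : ℝ≥0)) * h ≤ ((n : ℝ≥0) + 1) * h :=
      mul_le_mul_of_nonneg_right (by exact_mod_cast Nat.le_succ n) zero_le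
    have hA : Measurable[ℱ (n * h)] (fun ω => ac k ε β h B H0 n ω x) := ac_meas hN hβ hε h n x
    have hmulm : AEStronglyMeasurable (fun ω =>
        mulv (fun a b => B x a b ((n + 1) * h) ω - B x a b (n * h) ω)
          (ac k ε β h B H0 n ω x)) P := by
      have hB : Measurable (fun (ω : Ω) (a b : Fin N) =>
          B x a b ((n + 1) * h) ω - B x a b (n * h) ω) := by
        refine measurable_pi_lambda _ fun a => measurable_pi_lambda _ fun b => ?_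
        exact ((hN.adaptB x a b _).mono (ℱ.le _) le_rfl).sub
          ((hN.adaptB x a b _).mono (ℱ.le _) le_rfl)
      exact ((mulv_continuous N).measurable.comp
        (hB.prodMk (hA.mono (ℱ.le _) le_rfl))).aestronglyMeasurable
    have hmul : MemLp (fun ω =>
        mulv (fun a b => B x a b ((n + 1) * h) ω - B x a b (n * h) ω)
          (ac k ε β h B H0 n ω x)) (p : ℝ≥0∞) P := by
      rcases Nat.eq_zero_or_pos p with hp | hp
      · subst hp
        rw [Nat.cast_zero, memLp_zero_iff_aestronglyMeasurable]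
        exact hmulm
      obtain ⟨C, hC0, hC⟩ := mulv_pow N p
      have h1 := hC Ω P d ℱ B H0 hN _ _ hst x (fun ω => ac k ε β h B H0 n ω x) (fun _ => 1) hA
        measurable_const
      simp only [one_mul] at h1
      have h2 : MemLp (fun ω => ac k ε β h B H0 n ω x) ((2 * p : ℕ) : ℝ≥0∞) P := ih (2 * p) x
      have h3 : Integrable (fun ω => ‖ac k ε β h B H0 n ω x‖ ^ (2 * p)) P :=
        h2.integrable_norm_pow (by omega)
      have h4 : ∫⁻ ω, ENNReal.ofReal (‖ac k ε β h B H0 n ω x‖ ^ (2 * p)) ∂P < ⊤ :=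
        (hasFiniteIntegral_iff_ofReal (Eventually.of_forall fun ω => by positivity)).1 h3.2
      have h5 : Integrable (fun ω =>
          ‖mulv (fun a b => B x a b ((n + 1) * h) ω - B x a b (n * h) ω)
            (ac k ε β h B H0 n ω x)‖ ^ (2 * p)) P := by
        refine ⟨hmulm.norm.pow _, ?_⟩
        rw [hasFiniteIntegral_iff_ofReal (Eventually.of_forall fun ω => by positivity)]
        exact h1.trans_lt (ENNReal.mul_lt_top ENNReal.ofReal_lt_top h4)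
      have h6 : MemLp (fun ω =>
          mulv (fun a b => B x a b ((n + 1) * h) ω - B x a b (n * h) ω)
            (ac k ε β h B H0 n ω x)) ((2 * p : ℕ) : ℝ≥0∞) P := by
        rw [← integrable_norm_rpow_iff hmulm (by exact_mod_cast (by omega : 2 * p ≠ 0))
          (ENNReal.natCast_ne_top _), ENNReal.toReal_natCast]
        simpa only [Real.rpow_natCast] using h5
      exact h6.mono_exponent (by exact_mod_cast (by omega : p ≤ 2 * p))
    have hsum : MemLp (fun ω => ac k ε β h B H0 n ω x +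
        mulv (fun a b => B x a b ((n + 1) * h) ω - B x a b (n * h) ω)
          (ac k ε β h B H0 n ω x)) (p : ℝ≥0∞) P := (ih p x).add hmul
    have hJ : MemLp (fun ω => J β (ε * h) (ac k ε β h B H0 n ω x +
        mulv (fun a b => B x a b ((n + 1) * h) ω - B x a b (n * h) ω)
          (ac k ε β h B H0 n ω x))) (p : ℝ≥0∞) P :=
      hsum.mono (hJc.comp_aestronglyMeasurable hsum.1) (Eventually.of_forall fun ω => hJn _)
    have hlap : MemLp (fun ω => lap (ac k ε β h B H0 n ω) x) (p : ℝ≥0∞) P := by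
      unfold lap
      refine memLp_finsetSum _ fun i _ => ?_
      exact ((ih p _).sub (ih p _)).add ((ih p _).sub (ih p _))
    have h2 : MemLp (fun ω => (k * h) • lap (ac k ε β h B H0 n ω) x) (p : ℝ≥0∞) P :=
      hlap.const_smul (k * h)
    exact hJ.add h2

theorem ac_mem (hN : Noise P ℱ B H0) (hβ : 0 < β) (hε : 0 < ε) (h : ℝ≥0) (n p : ℕ) (x : Site d) :
    Integrable (fun ω => ‖ac k ε β h B H0 n ω x‖ ^ p) P := by
  have := hN.prob
  exact (XM1_mem hN hβ hε h n p x).integrable_norm_pow'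

end DynX

end

/-! ### from `Lib_MP_36b788x.XM2` -/

section

/-!
# Uniform moment bounds of the Euler chain

PROOF. Even powers `p = 2q`, `q ≥ 1` (odd ones: `y^p ≤ 1 + y^{2p}`; `p = 0` trivial).
(1) Algebra: there is `C_q` with `‖v+w‖^{2q} ≤ ‖v‖^{2q} + 2q ‖v‖^{2q-2} ⟪v,w⟫ + C_q (‖v‖^{2q-2} ‖w‖² + ‖w‖^{2q})`
(`‖v+w‖² = a + 2c + b`, `|c| ≤ √(ab)`; expand `(a + 2c + b)^q`; or by induction on `q`).
(2) `v = A = ac n x`, `w = mulv ΔB A`: the linear term has mean zero (`mulv_sq`, third part, with `Z = ‖A‖^{2q-2} A`; all moments finite, `ac_mem`),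
`E ‖A‖^{2q-2}‖w‖² ≤ C h E‖A‖^{2q}` and `E‖w‖^{2q} ≤ C h^q E‖A‖^{2q}` (`mulv_pow`). So `E‖A + w‖^{2q} ≤ (1 + C h) E‖A‖^{2q}` for `h ≤ 1`.
(3) `‖J v‖ ≤ ‖v‖`; `(a + k h b)^{2q} ≤ (1 + C h) a^{2q} + C h b^{2q}` for `a, b ≥ 0`, `h ≤ 1` (convexity: `(1+kh)^{2q} ((a + kh b)/(1+kh))^{2q}`), with `b = ‖lap A x‖ ≤ Σ` of `4d` norms,
`b^{2q} ≤ (4d)^{2q-1} Σ …` (power mean). So with `S n = sup_x E‖ac n x‖^{2q}` (as a bound valid for all `x`): `S (n+1) ≤ (1 + C h) S n`, `S n ≤ e^{C n h} S 0`.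
-/

open MeasureTheory ProbabilityTheory Filter Dyn
open scoped NNReal ENNReal Topology

namespace DynX

variable {Ω : Type} [mΩ : MeasurableSpace Ω] {P : Measure Ω} {N d : ℕ}
    {ℱ : Filtration ℝ≥0 mΩ} {B : Site d → Fin N → Fin N → ℝ≥0 → Ω → ℝ}
    {H0 : Site d → Ω → E N} {k ε β : ℝ}

private theorem XM2_mix (a b : ℝ) (ha : 0 ≤ a) (hb : 0 ≤ b) (i j n : ℕ) (hn : i + j = n) :
    a ^ i * b ^ j ≤ a ^ n + b ^ n := by
  subst hn
  rcases le_total a b with h | h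
  · have h1 : a ^ i * b ^ j ≤ b ^ i * b ^ j :=
      mul_le_mul_of_nonneg_right (pow_le_pow_left₀ ha h i) (by positivity)
    rw [← pow_add] at h1
    have h2 : 0 ≤ a ^ (i + j) := by positivity
    linarith
  · have h1 : a ^ i * b ^ j ≤ a ^ i * a ^ j :=
      mul_le_mul_of_nonneg_left (pow_le_pow_left₀ hb h j) (by positivity)
    rw [← pow_add] at h1
    have h2 : 0 ≤ b ^ (i + j) := by positivity
    linarith

private theorem XM2_alg (q : ℕ) : ∃ C : ℝ, 0 ≤ C ∧ ∀ a b c : ℝ, 0 ≤ a → 0 ≤ b → c ^ 2 ≤ a * b →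
    (a + 2 * c + b) ^ (q + 1) ≤ a ^ (q + 1) + 2 * (q + 1) * (a ^ q * c) +
      C * (a ^ q * b + b ^ (q + 1)) := by
  induction q with
  | zero =>
    refine ⟨1, zero_le_one, fun a b c ha hb hc => ?_⟩
    simp only [zero_add, pow_one, pow_zero, Nat.cast_zero, one_mul, mul_one]
    linarith
  | succ q ih =>
    obtain ⟨C, hC0, hC⟩ := ih
    refine ⟨1 + 6 * (q + 1) + 8 * C, by positivity, fun a b c ha hb hc => ?_⟩
    have h0 : |2 * c| ≤ a + b := by
      refine abs_le_of_sq_le_sq ?_ (by positivity)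
      nlinarith [sq_nonneg (a - b)]
    obtain ⟨h1, h2⟩ := abs_le.1 h0
    have h3 : 0 ≤ a + 2 * c + b := by linarith
    have h4 : a + 2 * c + b ≤ 2 * (a + b) := by linarith
    have h5 := mul_le_mul_of_nonneg_right (hC a b c ha hb hc) h3
    have e1 : (a + 2 * c + b) ^ (q + 1 + 1) = (a + 2 * c + b) ^ (q + 1) * (a + 2 * c + b) :=
      pow_succ _ _
    rw [e1]
    refine h5.trans ?_
    have ha1 : 0 ≤ a ^ q := by positivity
    have hb1 : 0 ≤ b ^ q := by positivity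
    -- monomials
    have m1 : a ^ q * c ^ 2 ≤ a ^ (q + 1) * b := by
      have := mul_le_mul_of_nonneg_left hc ha1
      calc a ^ q * c ^ 2 ≤ a ^ q * (a * b) := this
        _ = a ^ (q + 1) * b := by ring
    have m2 : a ^ q * b * (2 * c) ≤ a ^ (q + 1) * b + a ^ q * b ^ 2 := by
      have := mul_le_mul_of_nonneg_left h2 (mul_nonneg ha1 hb)
      calc a ^ q * b * (2 * c) ≤ a ^ q * b * (a + b) := this
        _ = _ := by ring
    have m3 : a ^ q * b ^ 2 ≤ a ^ (q + 1) * b + b ^ (q + 2) := by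
      have := mul_le_mul_of_nonneg_left (XM2_mix a b ha hb q 1 (q + 1) rfl) hb
      calc a ^ q * b ^ 2 = b * (a ^ q * b ^ 1) := by ring
        _ ≤ b * (a ^ (q + 1) + b ^ (q + 1)) := this
        _ = _ := by ring
    have m4 : a * b ^ (q + 1) ≤ a ^ (q + 1) * b + b ^ (q + 2) := by
      have := mul_le_mul_of_nonneg_left (XM2_mix a b ha hb 1 q (q + 1) (by ring)) hb
      calc a * b ^ (q + 1) = b * (a ^ 1 * b ^ q) := by ring
        _ ≤ b * (a ^ (q + 1) + b ^ (q + 1)) := this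
        _ = _ := by ring
    have m5 : (a ^ q * b + b ^ (q + 1)) * (a + 2 * c + b) ≤
        8 * (a ^ (q + 1) * b + b ^ (q + 2)) := by
      have h6 : 0 ≤ a ^ q * b + b ^ (q + 1) := by positivity
      have h7 := mul_le_mul_of_nonneg_left h4 h6
      have h8 : (a ^ q * b + b ^ (q + 1)) * (2 * (a + b)) =
          2 * (a ^ (q + 1) * b + a ^ q * b ^ 2 + a * b ^ (q + 1) + b ^ (q + 2)) := by ring
      have h9 : 0 ≤ b ^ (q + 2) := by positivity
      have h10 : 0 ≤ a ^ (q + 1) * b := by positivity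
      linarith
    have m6 := mul_le_mul_of_nonneg_left m5 hC0
    have hq : (0 : ℝ) ≤ (q : ℝ) + 1 := by positivity
    have n1 := mul_le_mul_of_nonneg_left m1 hq
    have n2 := mul_le_mul_of_nonneg_left (m2.trans (add_le_add_right m3 _)) hq
    have h9 : 0 ≤ b ^ (q + 2) := by positivity
    have h10 : 0 ≤ a ^ (q + 1) * b := by positivity
    have hq9 := mul_nonneg hq h9
    push_cast
    have e2 : (a ^ (q + 1) + 2 * ((q : ℝ) + 1) * (a ^ q * c) + C * (a ^ q * b + b ^ (q + 1))) *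
        (a + 2 * c + b) = a ^ (q + 2) + 2 * ((q : ℝ) + 1 + 1) * (a ^ (q + 1) * c) +
        a ^ (q + 1) * b + 4 * (((q : ℝ) + 1) * (a ^ q * c ^ 2)) +
        ((q : ℝ) + 1) * (a ^ q * b * (2 * c)) +
        C * ((a ^ q * b + b ^ (q + 1)) * (a + 2 * c + b)) := by ring
    have e3 : a ^ (q + 1 + 1) + 2 * ((q : ℝ) + 1 + 1) * (a ^ (q + 1) * c) +
        (1 + 6 * ((q : ℝ) + 1) + 8 * C) * (a ^ (q + 1) * b + b ^ (q + 1 + 1)) =
        a ^ (q + 2) + 2 * ((q : ℝ) + 1 + 1) * (a ^ (q + 1) * c) +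
        (a ^ (q + 1) * b + b ^ (q + 2) + 6 * (((q : ℝ) + 1) * (a ^ (q + 1) * b)) +
        6 * (((q : ℝ) + 1) * b ^ (q + 2)) + C * (8 * (a ^ (q + 1) * b + b ^ (q + 2)))) := by ring
    rw [e2, e3]
    have e4 : ((q : ℝ) + 1) * (a ^ (q + 1) * b + (a ^ (q + 1) * b + b ^ (q + 2))) =
        2 * (((q : ℝ) + 1) * (a ^ (q + 1) * b)) + ((q : ℝ) + 1) * b ^ (q + 2) := by ring
    rw [e4] at n2
    linarith

private theorem XM2_step (k : ℝ) (hk : 0 ≤ k) (m : ℕ) : ∃ C : ℝ, 0 ≤ C ∧ ∀ a b h : ℝ, 0 ≤ a →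
    0 ≤ b → 0 ≤ h → h ≤ 1 → (a + k * h * b) ^ m ≤ (1 + C * h) * a ^ m + C * h * b ^ m := by
  induction m with
  | zero =>
    refine ⟨0, le_rfl, fun a b h ha hb hh h1 => ?_⟩
    simp
  | succ m ih =>
    obtain ⟨C, hC0, hC⟩ := ih
    refine ⟨2 * C + (1 + C) * k + C * k, by positivity, fun a b h ha hb hh h1 => ?_⟩
    have hx : 0 ≤ a + k * h * b := by positivity
    have h2 := mul_le_mul_of_nonneg_right (hC a b h ha hb hh h1) hx
    rw [pow_succ]
    refine h2.trans ?_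
    have m1 := XM2_mix a b ha hb 1 m (m + 1) (by ring)
    have m2 := XM2_mix a b ha hb m 1 (m + 1) rfl
    have c1 : 0 ≤ C * h := by positivity
    have c2 : 0 ≤ (1 + C * h) * (k * h) := by positivity
    have n1 := mul_le_mul_of_nonneg_left m1 c1
    have n2 := mul_le_mul_of_nonneg_left m2 c2
    have ha2 : 0 ≤ a ^ (m + 1) := by positivity
    have hb2 : 0 ≤ b ^ (m + 1) := by positivity
    have hs : 0 ≤ a ^ (m + 1) + b ^ (m + 1) := by positivity
    have c3 : (1 + C * h) * (k * h) ≤ (1 + C) * k * h := by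
      have : C * h ≤ C := by nlinarith
      have h3 : 0 ≤ k * h := by positivity
      nlinarith
    have n3 := mul_le_mul_of_nonneg_right c3 hs
    have c4 : C * h * (k * h) ≤ C * k * h := by
      have h3 : 0 ≤ C * h * k := by positivity
      nlinarith
    have n4 := mul_le_mul_of_nonneg_right c4 hb2
    have e1 : ((1 + C * h) * a ^ m + C * h * b ^ m) * (a + k * h * b) =
        (1 + C * h) * a ^ (m + 1) + C * h * (a ^ 1 * b ^ m) +
        (1 + C * h) * (k * h) * (a ^ m * b ^ 1) + C * h * (k * h) * b ^ (m + 1) := by ring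
    rw [e1]
    have e2 : (1 + (2 * C + (1 + C) * k + C * k) * h) * a ^ (m + 1) +
        (2 * C + (1 + C) * k + C * k) * h * b ^ (m + 1) =
        (1 + C * h) * a ^ (m + 1) + C * h * (a ^ (m + 1) + b ^ (m + 1)) +
        (1 + C) * k * h * (a ^ (m + 1) + b ^ (m + 1)) + C * k * h * b ^ (m + 1) +
        (C * k * h * a ^ (m + 1) + C * h * b ^ (m + 1)) := by ring
    rw [e2]
    have p1 : 0 ≤ C * k * h * a ^ (m + 1) := by positivity
    have p2 : 0 ≤ C * h * b ^ (m + 1) := by positivity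
    linarith

private theorem XM2_pow {ι : Type} [Fintype ι] (f : ι → ℝ) (hf : ∀ i, 0 ≤ f i) (n : ℕ)
    (hn : 0 < n) : (∑ i, f i) ^ n ≤ ((Fintype.card ι : ℕ) : ℝ) ^ n * ∑ i, f i ^ n := by
  obtain ⟨m, rfl⟩ : ∃ m, n = m + 1 := ⟨n - 1, by omega⟩
  rcases isEmpty_or_nonempty ι with h | h
  · simp
  · have h1 := pow_sum_div_card_le_sum_pow (s := Finset.univ) (f := f) (fun i _ => hf i) m
    have hc : (1 : ℝ) ≤ (Fintype.card ι : ℕ) := by
      exact_mod_cast Fintype.card_pos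
    have hs : 0 ≤ ∑ i, f i ^ (m + 1) := Finset.sum_nonneg fun i _ => pow_nonneg (hf i) _
    rw [Finset.card_univ, div_le_iff₀ (by positivity)] at h1
    refine h1.trans ?_
    rw [mul_comm]
    refine mul_le_mul_of_nonneg_right ?_ hs
    exact pow_le_pow_right₀ hc (Nat.le_succ m)

private theorem XM2_three (u v w : ℝ) (hu : 0 ≤ u) (hv : 0 ≤ v) (hw : 0 ≤ w) (m : ℕ) :
    (u + v + 2 * w) ^ m ≤ 4 ^ m * (u ^ m + v ^ m + w ^ m) := by
  have hM : ∃ M : ℝ, u ≤ M ∧ v ≤ M ∧ w ≤ M ∧ 0 ≤ M ∧ M ^ m ≤ u ^ m + v ^ m + w ^ m := by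
    have h1 : 0 ≤ u ^ m := by positivity
    have h2 : 0 ≤ v ^ m := by positivity
    have h3 : 0 ≤ w ^ m := by positivity
    rcases le_total u v with h | h
    · rcases le_total v w with h' | h'
      · exact ⟨w, h.trans h', h', le_rfl, hw, by linarith⟩
      · exact ⟨v, h, le_rfl, h', hv, by linarith⟩
    · rcases le_total u w with h' | h'
      · exact ⟨w, h', h.trans h', le_rfl, hw, by linarith⟩
      · exact ⟨u, le_rfl, h, h', hu, by linarith⟩
  obtain ⟨M, h1, h2, h3, h4, h5⟩ := hM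
  calc (u + v + 2 * w) ^ m ≤ (4 * M) ^ m :=
        pow_le_pow_left₀ (by positivity) (by linarith) m
    _ = 4 ^ m * M ^ m := mul_pow _ _ _
    _ ≤ _ := mul_le_mul_of_nonneg_left h5 (by positivity)

private theorem XM2_lap {N d : ℕ} (f : Site d → E N) (x : Site d) (m : ℕ) (hm : 0 < m) :
    ‖lap f x‖ ^ m ≤ (d : ℝ) ^ m * 4 ^ m * ∑ i : Fin d, (‖f (x + Pi.single i 1)‖ ^ m +
      ‖f (x - Pi.single i 1)‖ ^ m + ‖f x‖ ^ m) := by
  have h1 : ‖lap f x‖ ≤ ∑ i : Fin d, (‖f (x + Pi.single i 1)‖ + ‖f (x - Pi.single i 1)‖ +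
      2 * ‖f x‖) := by
    unfold lap
    refine (norm_sum_le _ _).trans (Finset.sum_le_sum fun i _ => ?_)
    refine (norm_add_le _ _).trans ?_
    have h2 := norm_sub_le (f (x + Pi.single i 1)) (f x)
    have h3 := norm_sub_le (f (x - Pi.single i 1)) (f x)
    linarith
  refine (pow_le_pow_left₀ (norm_nonneg _) h1 m).trans ?_
  refine (XM2_pow _ (fun i => by positivity) m hm).trans ?_
  rw [Fintype.card_fin, mul_assoc]
  refine mul_le_mul_of_nonneg_left ?_ (by positivity)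
  rw [Finset.mul_sum]
  exact Finset.sum_le_sum fun i _ => XM2_three _ _ _ (norm_nonneg _) (norm_nonneg _)
    (norm_nonneg _) m

private theorem XM2_int {f : Ω → ℝ} (hf : AEStronglyMeasurable f P) (h0 : ∀ ω, 0 ≤ f ω) {C : ℝ}
    (hC : 0 ≤ C) (h : ∫⁻ ω, ENNReal.ofReal (f ω) ∂P ≤ ENNReal.ofReal C) :
    Integrable f P ∧ ∫ ω, f ω ∂P ≤ C := by
  refine ⟨⟨hf, (hasFiniteIntegral_iff_ofReal (Eventually.of_forall h0)).2
    (h.trans_lt ENNReal.ofReal_lt_top)⟩, ?_⟩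
  rw [integral_eq_lintegral_of_nonneg_ae (Eventually.of_forall h0) hf]
  exact ENNReal.toReal_le_of_le_ofReal hC h

/-- one step: the noise part -/
private theorem XM2_noise (N q : ℕ) : ∃ C : ℝ, 0 ≤ C ∧ ∀ (Ω : Type) [mΩ : MeasurableSpace Ω]
    (P : Measure Ω) (d : ℕ) (ℱ : Filtration ℝ≥0 mΩ) (B : Site d → Fin N → Fin N → ℝ≥0 → Ω → ℝ)
    (H0 : Site d → Ω → E N), Noise P ℱ B H0 → ∀ s t : ℝ≥0, s ≤ t → (t : ℝ) - s ≤ 1 →
    ∀ (x : Site d) (V : Ω → E N), Measurable[ℱ s] V →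
    (∀ p : ℕ, Integrable (fun ω => ‖V ω‖ ^ p) P) →
    ∃ G : Ω → ℝ, Integrable G P ∧
      (∀ ω, ‖V ω + mulv (fun a b => B x a b t ω - B x a b s ω) (V ω)‖ ^ (2 * (q + 1)) ≤ G ω) ∧
      ∫ ω, G ω ∂P ≤ (1 + C * ((t : ℝ) - s)) * ∫ ω, ‖V ω‖ ^ (2 * (q + 1)) ∂P := by
  obtain ⟨C0, hC00, hC0⟩ := XM2_alg q
  obtain ⟨C1, hC10, hC1⟩ := mulv_pow N 1
  obtain ⟨C2, hC20, hC2⟩ := mulv_pow N (q + 1)
  refine ⟨C0 * (C1 + C2), by positivity,
    fun Ω mΩ P d ℱ B H0 hN s t hst hts1 x V hV hVp => ?_⟩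
  have := hN.prob
  have hH := zero_dyn hN 0 0 0
  have hts : (0 : ℝ) ≤ (t : ℝ) - s := sub_nonneg.2 (by exact_mod_cast hst)
  have hVm : Measurable V := hV.mono (ℱ.le s) le_rfl
  have hV2 : MemLp V 2 P := by
    rw [memLp_two_iff_integrable_sq_norm hVm.aestronglyMeasurable]
    exact hVp 2
  obtain ⟨hw2, -, -⟩ := mulv_sq hH s t hst x V hV hV2
  set w : Ω → E N := fun ω => mulv (fun a b => B x a b t ω - B x a b s ω) (V ω) with hw
  have hZ : Measurable[ℱ s] (fun ω => (‖V ω‖ ^ (2 * q)) • V ω) :=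
    (show Measurable (fun v : E N => (‖v‖ ^ (2 * q)) • v) by fun_prop).comp hV
  have hZ2 : MemLp (fun ω => (‖V ω‖ ^ (2 * q)) • V ω) 2 P := by
    rw [memLp_two_iff_integrable_sq_norm (hZ.mono (ℱ.le s) le_rfl).aestronglyMeasurable]
    refine (hVp (2 * q * 2 + 2)).congr (Eventually.of_forall fun ω => ?_)
    show ‖V ω‖ ^ (2 * q * 2 + 2) = ‖(‖V ω‖ ^ (2 * q)) • V ω‖ ^ 2
    rw [norm_smul, norm_pow, norm_norm]
    ring
  have hmean : ∫ ω, inner ℝ ((‖V ω‖ ^ (2 * q)) • V ω) (w ω) ∂P = 0 :=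
    (mulv_sq hH s t hst x V hV hV2).2.2 _ hZ hZ2
  have hinner : Integrable (fun ω => inner ℝ ((‖V ω‖ ^ (2 * q)) • V ω) (w ω)) P := by
    have h1 : Integrable (fun ω => ‖(‖V ω‖ ^ (2 * q)) • V ω‖ * ‖w ω‖) P :=
      hZ2.norm.integrable_mul hw2.norm
    refine h1.mono' (hZ2.1.inner hw2.1) (Eventually.of_forall fun ω => ?_)
    exact norm_inner_le_norm _ _
  set S : ℝ := ∫ ω, ‖V ω‖ ^ (2 * (q + 1)) ∂P with hS
  have hS0 : 0 ≤ S := integral_nonneg fun ω => by positivity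
  have hSl : ∫⁻ ω, ENNReal.ofReal (‖V ω‖ ^ (2 * (q + 1))) ∂P = ENNReal.ofReal S :=
    (ofReal_integral_eq_lintegral_ofReal (hVp (2 * (q + 1)))
      (Eventually.of_forall fun ω => by positivity)).symm
  -- the two error terms
  have hwn : AEStronglyMeasurable (fun ω => ‖w ω‖) P := hw2.1.norm
  have I1 : Integrable (fun ω => ‖V ω‖ ^ (2 * q) * ‖w ω‖ ^ 2) P ∧
      ∫ ω, ‖V ω‖ ^ (2 * q) * ‖w ω‖ ^ 2 ∂P ≤ C1 * ((t : ℝ) - s) * S := by
    refine XM2_int (f := fun ω => ‖V ω‖ ^ (2 * q) * ‖w ω‖ ^ 2)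
      ((hVm.norm.pow_const _).aestronglyMeasurable.mul (hwn.pow 2))
      (fun ω => by positivity) (mul_nonneg (mul_nonneg hC10 hts) hS0) ?_
    have h1 : ∫⁻ ω, ENNReal.ofReal (‖V ω‖ ^ (2 * q)) * ENNReal.ofReal (‖w ω‖ ^ (2 * 1)) ∂P ≤
        ENNReal.ofReal (C1 * ((t : ℝ) - s) ^ 1) *
        ∫⁻ ω, ENNReal.ofReal (‖V ω‖ ^ (2 * q)) * ENNReal.ofReal (‖V ω‖ ^ (2 * 1)) ∂P :=
      hC1 Ω P d ℱ B H0 hN s t hst x V (fun ω => ENNReal.ofReal (‖V ω‖ ^ (2 * q))) hV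
        ((show Measurable (fun v : E N => ENNReal.ofReal (‖v‖ ^ (2 * q))) by fun_prop).comp hV)
    have e1 : ∀ ω, ENNReal.ofReal (‖V ω‖ ^ (2 * q) * ‖w ω‖ ^ 2) =
        ENNReal.ofReal (‖V ω‖ ^ (2 * q)) * ENNReal.ofReal (‖w ω‖ ^ (2 * 1)) := by
      intro ω
      rw [← ENNReal.ofReal_mul (by positivity), mul_one]
    have e2 : ∀ ω, ENNReal.ofReal (‖V ω‖ ^ (2 * q)) * ENNReal.ofReal (‖V ω‖ ^ (2 * 1)) =
        ENNReal.ofReal (‖V ω‖ ^ (2 * (q + 1))) := by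
      intro ω
      rw [← ENNReal.ofReal_mul (by positivity), ← pow_add]
      congr 2
    calc ∫⁻ ω, ENNReal.ofReal (‖V ω‖ ^ (2 * q) * ‖w ω‖ ^ 2) ∂P
        = ∫⁻ ω, ENNReal.ofReal (‖V ω‖ ^ (2 * q)) * ENNReal.ofReal (‖w ω‖ ^ (2 * 1)) ∂P :=
          lintegral_congr e1
      _ ≤ ENNReal.ofReal (C1 * ((t : ℝ) - s) ^ 1) *
        ∫⁻ ω, ENNReal.ofReal (‖V ω‖ ^ (2 * q)) * ENNReal.ofReal (‖V ω‖ ^ (2 * 1)) ∂P := h1
      _ = ENNReal.ofReal (C1 * ((t : ℝ) - s) * S) := by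
        rw [lintegral_congr e2, hSl, pow_one, ← ENNReal.ofReal_mul (mul_nonneg hC10 hts)]
  have I2 : Integrable (fun ω => ‖w ω‖ ^ (2 * (q + 1))) P ∧
      ∫ ω, ‖w ω‖ ^ (2 * (q + 1)) ∂P ≤ C2 * ((t : ℝ) - s) * S := by
    refine XM2_int (f := fun ω => ‖w ω‖ ^ (2 * (q + 1))) (hwn.pow _) (fun ω => by positivity)
      (mul_nonneg (mul_nonneg hC20 hts) hS0) ?_
    have h1 := hC2 Ω P d ℱ B H0 hN s t hst x V (fun _ => 1) hV measurable_const
    simp only [one_mul] at h1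
    refine h1.trans ?_
    rw [hSl, ← ENNReal.ofReal_mul (mul_nonneg hC20 (pow_nonneg hts _))]
    refine ENNReal.ofReal_le_ofReal ?_
    refine mul_le_mul_of_nonneg_right ?_ hS0
    refine mul_le_mul_of_nonneg_left ?_ hC20
    exact pow_le_of_le_one hts hts1 (by omega)
  refine ⟨fun ω => ‖V ω‖ ^ (2 * (q + 1)) +
    2 * ((q : ℝ) + 1) * inner ℝ ((‖V ω‖ ^ (2 * q)) • V ω) (w ω) +
    C0 * (‖V ω‖ ^ (2 * q) * ‖w ω‖ ^ 2 + ‖w ω‖ ^ (2 * (q + 1))), ?_, ?_, ?_⟩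
  · exact ((hVp _).add (hinner.const_mul _)).add ((I1.1.add I2.1).const_mul _)
  · intro ω
    have h1 := hC0 (‖V ω‖ ^ 2) (‖w ω‖ ^ 2) (inner ℝ (V ω) (w ω)) (by positivity) (by positivity)
      (by
        rw [← mul_pow]
        exact sq_le_sq' (by
          have := abs_le.1 (abs_real_inner_le_norm (V ω) (w ω))
          linarith [this.1]) (real_inner_le_norm _ _))
    have e1 : ‖V ω + w ω‖ ^ (2 * (q + 1)) =
        (‖V ω‖ ^ 2 + 2 * inner ℝ (V ω) (w ω) + ‖w ω‖ ^ 2) ^ (q + 1) := by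
      rw [pow_mul, norm_add_sq_real]
    rw [e1]
    refine h1.trans (le_of_eq ?_)
    beta_reduce
    rw [real_inner_smul_left]
    simp only [← pow_mul]
  · have i1 : Integrable (fun ω => 2 * ((q : ℝ) + 1) *
        inner ℝ ((‖V ω‖ ^ (2 * q)) • V ω) (w ω)) P := hinner.const_mul _
    have i2 : Integrable (fun ω => C0 * (‖V ω‖ ^ (2 * q) * ‖w ω‖ ^ 2 +
        ‖w ω‖ ^ (2 * (q + 1)))) P := (I1.1.add I2.1).const_mul C0
    have i3 : Integrable (fun ω => ‖V ω‖ ^ (2 * (q + 1)) + 2 * ((q : ℝ) + 1) *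
        inner ℝ ((‖V ω‖ ^ (2 * q)) • V ω) (w ω)) P := (hVp _).add i1
    rw [integral_add i3 i2, integral_add (hVp _) i1, integral_const_mul, integral_const_mul,
      hmean, integral_add I1.1 I2.1]
    have h1 := add_le_add I1.2 I2.2
    have h2 := mul_le_mul_of_nonneg_left h1 hC00
    rw [← hS]
    nlinarith [h2]

private theorem XM2_even (hN : Noise P ℱ B H0) (hβ : 0 < β) (hε : 0 < ε) (hk : 0 ≤ k) (q : ℕ)
    (T : ℝ≥0) : ∃ C : ℝ, 0 ≤ C ∧ ∀ h : ℝ≥0, h ≤ 1 → ∀ n : ℕ, n * h ≤ T → ∀ x : Site d,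
      ∫ ω, ‖ac k ε β h B H0 n ω x‖ ^ (2 * (q + 1)) ∂P ≤ C := by
  have := hN.prob
  obtain ⟨C2, hC20, hC2⟩ := XM2_noise N q
  obtain ⟨C3, hC30, hC3⟩ := XM2_step k hk (2 * (q + 1))
  obtain ⟨S0, hS0⟩ := hN.mom (2 * (q + 1))
  have hS00 : 0 ≤ S0 := (integral_nonneg fun ω => by positivity).trans (hS0 0).2
  set K : ℝ := (d : ℝ) ^ (2 * (q + 1)) * 4 ^ (2 * (q + 1)) with hK
  have hK0 : 0 ≤ K := by positivity
  set C : ℝ := C3 + C2 + C3 * C2 + C3 * K * (3 * d) with hC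
  have hC0 : 0 ≤ C := by positivity
  have key : ∀ h : ℝ≥0, h ≤ 1 → ∀ n : ℕ, ∀ x : Site d,
      ∫ ω, ‖ac k ε β h B H0 n ω x‖ ^ (2 * (q + 1)) ∂P ≤ (1 + C * h) ^ n * S0 := by
    intro h h1 n
    induction n with
    | zero =>
      intro x
      rw [pow_zero, one_mul]
      exact (hS0 x).2
    | succ n ih =>
      intro x
      have hh0 : (0 : ℝ) ≤ h := h.2
      have hh1 : (h : ℝ) ≤ 1 := by exact_mod_cast h1
      set s : ℝ := (1 + C * h) ^ n * S0 with hs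
      have hs0 : 0 ≤ s := by positivity
      have hst : (n : ℝ≥0) * h ≤ ((n : ℝ≥0) + 1) * h := by
        gcongr
        exact le_self_add
      have ets : ((((n : ℝ≥0) + 1) * h : ℝ≥0) : ℝ) - (((n : ℝ≥0) * h : ℝ≥0) : ℝ) = h := by
        push_cast
        ring
      obtain ⟨G, hGi, hGp, hGs⟩ := hC2 Ω P d ℱ B H0 hN _ _ hst (by rw [ets]; exact hh1) x
        (fun ω => ac k ε β h B H0 n ω x) (ac_meas hN hβ hε h n x)
        (fun p => ac_mem hN hβ hε h n p x)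
      rw [ets] at hGs
      have hLi : Integrable (fun ω => ∑ i : Fin d,
          (‖ac k ε β h B H0 n ω (x + Pi.single i 1)‖ ^ (2 * (q + 1)) +
          ‖ac k ε β h B H0 n ω (x - Pi.single i 1)‖ ^ (2 * (q + 1)) +
          ‖ac k ε β h B H0 n ω x‖ ^ (2 * (q + 1)))) P :=
        integrable_finsetSum _ fun i _ => ((ac_mem hN hβ hε h n _ _).add
          (ac_mem hN hβ hε h n _ _)).add (ac_mem hN hβ hε h n _ _)
      have hLs : ∫ ω, ∑ i : Fin d,
          (‖ac k ε β h B H0 n ω (x + Pi.single i 1)‖ ^ (2 * (q + 1)) +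
          ‖ac k ε β h B H0 n ω (x - Pi.single i 1)‖ ^ (2 * (q + 1)) +
          ‖ac k ε β h B H0 n ω x‖ ^ (2 * (q + 1))) ∂P ≤ 3 * d * s := by
        have hi3 : ∀ i ∈ (Finset.univ : Finset (Fin d)), Integrable (fun ω =>
            ‖ac k ε β h B H0 n ω (x + Pi.single i 1)‖ ^ (2 * (q + 1)) +
            ‖ac k ε β h B H0 n ω (x - Pi.single i 1)‖ ^ (2 * (q + 1)) +
            ‖ac k ε β h B H0 n ω x‖ ^ (2 * (q + 1))) P :=
          fun i _ => ((ac_mem hN hβ hε h n _ _).add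
            (ac_mem hN hβ hε h n _ _)).add (ac_mem hN hβ hε h n _ _)
        rw [integral_finsetSum _ hi3]
        calc _ ≤ ∑ _i : Fin d, (3 * s) := by
              refine Finset.sum_le_sum fun i _ => ?_
              have j1 : Integrable (fun ω =>
                  ‖ac k ε β h B H0 n ω (x + Pi.single i 1)‖ ^ (2 * (q + 1)) +
                  ‖ac k ε β h B H0 n ω (x - Pi.single i 1)‖ ^ (2 * (q + 1))) P :=
                (ac_mem hN hβ hε h n _ _).add (ac_mem hN hβ hε h n _ _)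
              rw [integral_add j1 (ac_mem hN hβ hε h n _ _), integral_add
                (ac_mem hN hβ hε h n _ _) (ac_mem hN hβ hε h n _ _)]
              linarith [ih (x + Pi.single i 1), ih (x - Pi.single i 1), ih x]
          _ = 3 * d * s := by
              rw [Finset.sum_const, Finset.card_univ, Fintype.card_fin, nsmul_eq_mul]
              ring
      have hpt : ∀ ω, ‖ac k ε β h B H0 (n + 1) ω x‖ ^ (2 * (q + 1)) ≤
          (1 + C3 * h) * G ω + C3 * h * (K * ∑ i : Fin d,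
          (‖ac k ε β h B H0 n ω (x + Pi.single i 1)‖ ^ (2 * (q + 1)) +
          ‖ac k ε β h B H0 n ω (x - Pi.single i 1)‖ ^ (2 * (q + 1)) +
          ‖ac k ε β h B H0 n ω x‖ ^ (2 * (q + 1)))) := by
        intro ω
        have hεh : 0 ≤ ε * (h : ℝ) := by positivity
        have h2 : ‖ac k ε β h B H0 (n + 1) ω x‖ ≤
            ‖ac k ε β h B H0 n ω x + mulv (fun a b => B x a b (((n : ℝ≥0) + 1) * h) ω -
              B x a b ((n : ℝ≥0) * h) ω) (ac k ε β h B H0 n ω x)‖ +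
            k * h * ‖lap (ac k ε β h B H0 n ω) x‖ := by
          show ‖J β (ε * h) (ac k ε β h B H0 n ω x + mulv (fun a b => B x a b
            (((n : ℝ≥0) + 1) * h) ω - B x a b ((n : ℝ≥0) * h) ω) (ac k ε β h B H0 n ω x)) +
            (k * h) • lap (ac k ε β h B H0 n ω) x‖ ≤ _
          refine (norm_add_le _ _).trans ?_
          rw [norm_smul, Real.norm_of_nonneg (by positivity : (0 : ℝ) ≤ k * h), norm_J hβ hεh]
          exact add_le_add (psi_le hβ hεh (norm_nonneg _)) le_rfl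
        have h3 := pow_le_pow_left₀ (norm_nonneg _) h2 (2 * (q + 1))
        have h4 := hC3 _ _ h (norm_nonneg (ac k ε β h B H0 n ω x + mulv (fun a b => B x a b
            (((n : ℝ≥0) + 1) * h) ω - B x a b ((n : ℝ≥0) * h) ω) (ac k ε β h B H0 n ω x)))
            (norm_nonneg (lap (ac k ε β h B H0 n ω) x)) hh0 hh1
        refine h3.trans (h4.trans ?_)
        have h5 := mul_le_mul_of_nonneg_left (hGp ω) (by positivity : 0 ≤ 1 + C3 * h)
        have h6 := mul_le_mul_of_nonneg_left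
          (XM2_lap (ac k ε β h B H0 n ω) x (2 * (q + 1)) (by omega))
          (by positivity : 0 ≤ C3 * h)
        exact add_le_add h5 h6
      have hbd := integral_mono_of_nonneg (μ := P)
        (f := fun ω => ‖ac k ε β h B H0 (n + 1) ω x‖ ^ (2 * (q + 1)))
        (Eventually.of_forall fun ω => by positivity)
        ((hGi.const_mul (1 + C3 * h)).add ((hLi.const_mul K).const_mul (C3 * h)))
        (Eventually.of_forall hpt)
      refine hbd.trans ?_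
      have e1 : ∫ ω, ((fun ω => (1 + C3 * (h : ℝ)) * G ω) + fun ω => C3 * (h : ℝ) * (K *
          ∑ i : Fin d, (‖ac k ε β h B H0 n ω (x + Pi.single i 1)‖ ^ (2 * (q + 1)) +
          ‖ac k ε β h B H0 n ω (x - Pi.single i 1)‖ ^ (2 * (q + 1)) +
          ‖ac k ε β h B H0 n ω x‖ ^ (2 * (q + 1))))) ω ∂P =
          (1 + C3 * h) * ∫ ω, G ω ∂P + C3 * h * (K * ∫ ω, ∑ i : Fin d,
          (‖ac k ε β h B H0 n ω (x + Pi.single i 1)‖ ^ (2 * (q + 1)) +
          ‖ac k ε β h B H0 n ω (x - Pi.single i 1)‖ ^ (2 * (q + 1)) +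
          ‖ac k ε β h B H0 n ω x‖ ^ (2 * (q + 1))) ∂P) := by
        rw [integral_add' (hGi.const_mul (1 + C3 * h)) ((hLi.const_mul K).const_mul (C3 * h)),
          integral_const_mul, integral_const_mul, integral_const_mul]
      rw [e1]
      have h7 : ∫ ω, G ω ∂P ≤ (1 + C2 * h) * s :=
        hGs.trans (mul_le_mul_of_nonneg_left (ih x) (by positivity))
      have h8 := mul_le_mul_of_nonneg_left h7 (by positivity : 0 ≤ 1 + C3 * (h : ℝ))
      have h9 := mul_le_mul_of_nonneg_left (mul_le_mul_of_nonneg_left hLs hK0)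
        (by positivity : 0 ≤ C3 * (h : ℝ))
      refine (add_le_add h8 h9).trans ?_
      rw [pow_succ]
      have e2 : (1 + C3 * (h : ℝ)) * ((1 + C2 * h) * s) + C3 * h * (K * (3 * d * s)) =
          (1 + (C3 + C2 + C3 * C2 * h + C3 * K * (3 * d)) * h) * s := by ring
      have e3 : (1 + C * (h : ℝ)) ^ n * (1 + C * h) * S0 = (1 + C * h) * s := by
        rw [hs]
        ring
      rw [e2, e3]
      refine mul_le_mul_of_nonneg_right ?_ hs0
      have h10 : C3 * C2 * (h : ℝ) ≤ C3 * C2 := mul_le_of_le_one_right (by positivity) hh1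
      have h11 : (C3 + C2 + C3 * C2 * (h : ℝ) + C3 * K * (3 * d)) ≤ C := by
        rw [hC]
        linarith
      have h12 := mul_le_mul_of_nonneg_right h11 hh0
      linarith
  refine ⟨Real.exp (C * T) * S0, by positivity, fun h h1 n hn x => ?_⟩
  refine (key h h1 n x).trans ?_
  refine mul_le_mul_of_nonneg_right ?_ hS00
  have hh0 : (0 : ℝ) ≤ h := h.2
  have h2 : (1 + C * (h : ℝ)) ^ n ≤ Real.exp (C * h) ^ n := by
    refine pow_le_pow_left₀ (by positivity) ?_ n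
    have := Real.add_one_le_exp (C * (h : ℝ))
    linarith
  refine h2.trans ?_
  rw [← Real.exp_nat_mul]
  refine Real.exp_le_exp.2 ?_
  have h3 : (n : ℝ) * h ≤ T := by exact_mod_cast hn
  calc (n : ℝ) * (C * h) = C * (n * h) := by ring
    _ ≤ C * T := mul_le_mul_of_nonneg_left h3 hC0

theorem ac_mom (hN : Noise P ℱ B H0) (hβ : 0 < β) (hε : 0 < ε) (hk : 0 ≤ k) (p : ℕ) (T : ℝ≥0) :
    ∃ C : ℝ, 0 ≤ C ∧ ∀ h : ℝ≥0, h ≤ 1 → ∀ n : ℕ, n * h ≤ T → ∀ x : Site d,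
      ∫ ω, ‖ac k ε β h B H0 n ω x‖ ^ p ∂P ≤ C := by
  have := hN.prob
  obtain ⟨C, hC0, hC⟩ := XM2_even (k := k) hN hβ hε hk p T
  refine ⟨1 + C, by positivity, fun h h1 n hn x => ?_⟩
  have hi := ac_mem (k := k) hN hβ hε h n (2 * (p + 1)) x
  have h2 := integral_mono_of_nonneg (μ := P)
    (f := fun ω => ‖ac k ε β h B H0 n ω x‖ ^ p)
    (Eventually.of_forall fun ω => by positivity)
    ((integrable_const (1 : ℝ)).add hi)
    (Eventually.of_forall fun ω => by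
      show ‖ac k ε β h B H0 n ω x‖ ^ p ≤ 1 + ‖ac k ε β h B H0 n ω x‖ ^ (2 * (p + 1))
      rcases le_total ‖ac k ε β h B H0 n ω x‖ 1 with h3 | h3
      · have h4 := pow_le_one₀ (n := p) (norm_nonneg (ac k ε β h B H0 n ω x)) h3
        have h5 : 0 ≤ ‖ac k ε β h B H0 n ω x‖ ^ (2 * (p + 1)) := by positivity
        linarith
      · have h4 := pow_le_pow_right₀ h3 (by omega : p ≤ 2 * (p + 1))
        linarith)
  refine h2.trans ?_
  have e1 : ∫ ω, ((fun _ : Ω => (1 : ℝ)) +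
      fun ω => ‖ac k ε β h B H0 n ω x‖ ^ (2 * (p + 1))) ω ∂P =
      1 + ∫ ω, ‖ac k ε β h B H0 n ω x‖ ^ (2 * (p + 1)) ∂P := by
    rw [integral_add' (integrable_const _) hi, integral_const, probReal_univ, one_smul]
  rw [e1]
  exact add_le_add le_rfl (hC h h1 n hn x)

end DynX

end

/-! ### from `Lib_MP_36b788x.XI` -/

section

/-!
# Fourth moments of the increments of the Euler chain

`g` (drift of one step) is defined by `ac (n+1) x = ac n x + mulv ΔB_n (ac n x) + h • g n x`.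

PROOF. `ac_step_eq`: `J_eq`: `J v = v - (ε h ‖J v‖^β) • J v`.
`ac_inc`: `ac m - ac n = S + h Σ_{i<m-n} g (n+i)`. Second part: `(h Σ ‖g‖)^4 ≤ ((m-n)h)^3 h Σ ‖g‖^4 ≤ C ((m-n) h)^4` (`‖g‖^4` has bounded mean by `ac_mom` with a
large `p`: `‖ε ‖J‖^β J‖ ≤ ε (1 + ‖v‖^{⌈β⌉+1})`, `v = A + mulv ΔB A`, `mulv_pow`). First part: `S_{j+1} = S_j + w`, `w = mulv ΔB_j A_j`:
`‖S+w‖^4 ≤ ‖S‖^4 + 4‖S‖²⟪S,w⟫ + 8 ‖S‖²‖w‖² + 3‖w‖^4`. Mean: the second term vanishes (`mulv_sq` with `Z = ‖S‖² S`), `E‖S‖²‖w‖² ≤ C h E‖S‖²‖A‖² ≤ C h √(E‖S‖^4) √(E‖A‖^4)`,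
`E‖w‖^4 ≤ C h²`: `y_{j+1} ≤ y_j + C h √y_j + C h² ≤ (√y_j + C' h)²`, so `y_j ≤ (C' j h)²`. (`mulv_pow` with `q = 1`, `Z = ‖S‖²` and `q = 2`, `Z = 1`.)
-/

open MeasureTheory ProbabilityTheory Filter Dyn
open scoped NNReal ENNReal Topology

namespace DynX

variable {Ω : Type} [mΩ : MeasurableSpace Ω] {P : Measure Ω} {N d : ℕ}
    {ℱ : Filtration ℝ≥0 mΩ} {B : Site d → Fin N → Fin N → ℝ≥0 → Ω → ℝ}
    {H0 : Site d → Ω → E N} {k ε β : ℝ}

/-- drift of one step of the chain -/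
noncomputable def ag {Ω : Type} {N d : ℕ} (k ε β : ℝ) (h : ℝ≥0)
    (B : Site d → Fin N → Fin N → ℝ≥0 → Ω → ℝ) (H0 : Site d → Ω → E N) (n : ℕ) (ω : Ω)
    (x : Site d) : E N :=
  k • lap (ac k ε β h B H0 n ω) x -
    (ε * ‖J β (ε * h) (ac k ε β h B H0 n ω x +
        mulv (fun a b => B x a b ((n + 1) * h) ω - B x a b (n * h) ω)
          (ac k ε β h B H0 n ω x))‖ ^ β) •
      J β (ε * h) (ac k ε β h B H0 n ω x +
        mulv (fun a b => B x a b ((n + 1) * h) ω - B x a b (n * h) ω) (ac k ε β h B H0 n ω x))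

/-! ## Auxiliary facts -/

section aux

/-- noise term of one step -/
private noncomputable def wn {Ω : Type} {N d : ℕ} (k ε β : ℝ) (h : ℝ≥0)
    (B : Site d → Fin N → Fin N → ℝ≥0 → Ω → ℝ) (H0 : Site d → Ω → E N) (n : ℕ) (ω : Ω)
    (x : Site d) : E N :=
  mulv (fun a b => B x a b ((n + 1) * h) ω - B x a b (n * h) ω) (ac k ε β h B H0 n ω x)

private theorem XI_meas0 {Ω : Type} (m0 : MeasurableSpace Ω) {N : ℕ}
    (b : Fin N → Fin N → Ω → ℝ) (hb : ∀ i j, Measurable (b i j)) (V : Ω → E N)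
    (hV : Measurable V) : Measurable (fun ω => mulv (fun i j => b i j ω) (V ω)) := by
  have h1 : Measurable (fun ω => (fun (i j : Fin N) => b i j ω)) :=
    measurable_pi_iff.2 fun i => measurable_pi_iff.2 fun j => hb i j
  exact (mulv_continuous N).measurable.comp (h1.prodMk hV)

private theorem XI_meas (hN : Noise P ℱ B H0) (s t : ℝ≥0) (hst : s ≤ t) (x : Site d)
    (V : Ω → E N) (hV : Measurable[ℱ s] V) :
    Measurable[ℱ t] (fun ω => mulv (fun a b => B x a b t ω - B x a b s ω) (V ω)) := by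
  exact XI_meas0 (ℱ t) (fun a b ω => B x a b t ω - B x a b s ω)
    (fun a b => (inc_meas (zero_dyn hN 0 0 0) s t hst x a b).1) V (hV.mono (ℱ.mono hst) le_rfl)

private theorem XI_pow (N q : ℕ) : ∃ C : ℝ, 0 ≤ C ∧ ∀ (Ω : Type) [mΩ : MeasurableSpace Ω]
    (P : Measure Ω) (d : ℕ) (ℱ : Filtration ℝ≥0 mΩ) (B : Site d → Fin N → Fin N → ℝ≥0 → Ω → ℝ)
    (H0 : Site d → Ω → E N), Noise P ℱ B H0 → ∀ s t : ℝ≥0, s ≤ t → ∀ (x : Site d)
    (V : Ω → E N) (Z : Ω → ℝ), Measurable[ℱ s] V → Measurable[ℱ s] Z → (∀ ω, 0 ≤ Z ω) →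
      Integrable (fun ω => Z ω * ‖V ω‖ ^ (2 * q)) P →
      Integrable (fun ω => Z ω *
        ‖mulv (fun a b => B x a b t ω - B x a b s ω) (V ω)‖ ^ (2 * q)) P ∧
      ∫ ω, Z ω * ‖mulv (fun a b => B x a b t ω - B x a b s ω) (V ω)‖ ^ (2 * q) ∂P ≤
        C * ((t : ℝ) - s) ^ q * ∫ ω, Z ω * ‖V ω‖ ^ (2 * q) ∂P := by
  obtain ⟨C, hC, h⟩ := mulv_pow N q
  refine ⟨C, hC, fun Ω mΩ P d ℱ B H0 hN s t hst x V Z hV hZ hZ0 hi => ?_⟩
  have h1 := h Ω P d ℱ B H0 hN s t hst x V (fun ω => ENNReal.ofReal (Z ω)) hV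
    (ENNReal.measurable_ofReal.comp hZ)
  have hts : (0 : ℝ) ≤ (t : ℝ) - s := sub_nonneg.2 (by exact_mod_cast hst)
  have e : ∀ Y : Ω → ℝ, (∫⁻ ω, ENNReal.ofReal (Z ω) * ENNReal.ofReal (Y ω) ∂P) =
      ∫⁻ ω, ENNReal.ofReal (Z ω * Y ω) ∂P := fun Y =>
    lintegral_congr fun ω => (ENNReal.ofReal_mul (hZ0 ω)).symm
  rw [e, e] at h1
  have hw : Measurable (fun ω => mulv (fun a b => B x a b t ω - B x a b s ω) (V ω)) :=
    (XI_meas hN s t hst x V hV).mono (ℱ.le t) le_rfl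
  have hZm : Measurable Z := hZ.mono (ℱ.le s) le_rfl
  have h0 : ∀ ω, 0 ≤ Z ω * ‖mulv (fun a b => B x a b t ω - B x a b s ω) (V ω)‖ ^ (2 * q) :=
    fun ω => mul_nonneg (hZ0 ω) (by positivity)
  have h0' : ∀ ω, 0 ≤ Z ω * ‖V ω‖ ^ (2 * q) := fun ω => mul_nonneg (hZ0 ω) (by positivity)
  rw [← ofReal_integral_eq_lintegral_ofReal hi (Filter.Eventually.of_forall h0'),
    ← ENNReal.ofReal_mul (by positivity)] at h1
  have hint : Integrable (fun ω => Z ω *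
      ‖mulv (fun a b => B x a b t ω - B x a b s ω) (V ω)‖ ^ (2 * q)) P := by
    refine ⟨(hZm.mul (hw.norm.pow_const _)).aestronglyMeasurable, ?_⟩
    rw [hasFiniteIntegral_iff_ofReal (Filter.Eventually.of_forall h0)]
    exact lt_of_le_of_lt h1 ENNReal.ofReal_lt_top
  refine ⟨hint, ?_⟩
  rw [← ofReal_integral_eq_lintegral_ofReal hint (Filter.Eventually.of_forall h0)] at h1
  refine (ENNReal.ofReal_le_ofReal_iff ?_).1 h1
  exact mul_nonneg (by positivity) (integral_nonneg h0')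

/-! closure properties of upper bounds of integrals -/

private theorem bd_add {f g : Ω → ℝ} {a b : ℝ} (hf : Integrable f P ∧ ∫ ω, f ω ∂P ≤ a)
    (hg : Integrable g P ∧ ∫ ω, g ω ∂P ≤ b) :
    Integrable (fun ω => f ω + g ω) P ∧ ∫ ω, (f ω + g ω) ∂P ≤ a + b := by
  refine ⟨hf.1.add hg.1, ?_⟩
  rw [integral_add hf.1 hg.1]
  exact add_le_add hf.2 hg.2

private theorem bd_mul {f : Ω → ℝ} {a c : ℝ} (hc : 0 ≤ c)
    (hf : Integrable f P ∧ ∫ ω, f ω ∂P ≤ a) :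
    Integrable (fun ω => c * f ω) P ∧ ∫ ω, c * f ω ∂P ≤ c * a := by
  refine ⟨hf.1.const_mul c, ?_⟩
  rw [integral_const_mul]
  exact mul_le_mul_of_nonneg_left hf.2 hc

private theorem bd_sum {ι : Type} (s : Finset ι) {f : ι → Ω → ℝ} {a : ℝ}
    (hf : ∀ i ∈ s, Integrable (f i) P ∧ ∫ ω, f i ω ∂P ≤ a) :
    Integrable (fun ω => ∑ i ∈ s, f i ω) P ∧ ∫ ω, ∑ i ∈ s, f i ω ∂P ≤ s.card * a := by
  refine ⟨integrable_finsetSum _ fun i hi => (hf i hi).1, ?_⟩
  rw [integral_finsetSum _ fun i hi => (hf i hi).1]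
  calc ∑ i ∈ s, ∫ ω, f i ω ∂P ≤ ∑ _i ∈ s, a := Finset.sum_le_sum fun i hi => (hf i hi).2
    _ = s.card * a := by rw [Finset.sum_const, nsmul_eq_mul]

private theorem bd_mono {f g : Ω → ℝ} {a : ℝ} (hfm : Measurable f) (h0 : ∀ ω, 0 ≤ f ω)
    (hfg : ∀ ω, f ω ≤ g ω) (hg : Integrable g P ∧ ∫ ω, g ω ∂P ≤ a) :
    Integrable f P ∧ ∫ ω, f ω ∂P ≤ a := by
  have hi : Integrable f P := by
    refine hg.1.mono' hfm.aestronglyMeasurable (Filter.Eventually.of_forall fun ω => ?_)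
    rw [Real.norm_of_nonneg (h0 ω)]
    exact hfg ω
  exact ⟨hi, (integral_mono hi hg.1 hfg).trans hg.2⟩

private theorem XI_two {a b : ℝ} (ha : 0 ≤ a) (hb : 0 ≤ b) :
    (a + b) ^ 4 ≤ 8 * (a ^ 4 + b ^ 4) := by
  have h := add_pow_le ha hb 4
  norm_num at h
  exact h

private theorem XI_four {a b c e : ℝ} (ha : 0 ≤ a) (hb : 0 ≤ b) (hc : 0 ≤ c) (he : 0 ≤ e) :
    (a + b + (c + e)) ^ 4 ≤ 64 * (a ^ 4 + b ^ 4 + (c ^ 4 + e ^ 4)) := by
  have h1 := XI_two (add_nonneg ha hb) (add_nonneg hc he)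
  have h2 := XI_two ha hb
  have h3 := XI_two hc he
  linarith

private theorem XI_lap (f : Site d → E N) (x : Site d) :
    ‖lap f x‖ ^ 4 ≤ (d : ℝ) ^ 3 * ∑ i : Fin d, 64 * (‖f (x + Pi.single i 1)‖ ^ 4 + ‖f x‖ ^ 4 +
      (‖f (x - Pi.single i 1)‖ ^ 4 + ‖f x‖ ^ 4)) := by
  have h1 : ‖lap f x‖ ≤ ∑ i : Fin d, (‖f (x + Pi.single i 1)‖ + ‖f x‖ +
      (‖f (x - Pi.single i 1)‖ + ‖f x‖)) := by
    unfold lap
    refine (norm_sum_le _ _).trans (Finset.sum_le_sum fun i _ => ?_)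
    exact (norm_add_le _ _).trans (add_le_add (norm_sub_le _ _) (norm_sub_le _ _))
  have h2 := pow_sum_le_card_mul_sum_pow (s := (Finset.univ : Finset (Fin d)))
    (f := fun i => ‖f (x + Pi.single i 1)‖ + ‖f x‖ + (‖f (x - Pi.single i 1)‖ + ‖f x‖))
    (fun i _ => by positivity) 3
  rw [Finset.card_univ, Fintype.card_fin] at h2
  refine (pow_le_pow_left₀ (norm_nonneg _) h1 4).trans (h2.trans ?_)
  refine mul_le_mul_of_nonneg_left (Finset.sum_le_sum fun i _ => ?_) (by positivity)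
  exact XI_four (norm_nonneg _) (norm_nonneg _) (norm_nonneg _) (norm_nonneg _)

private theorem XI_summ {Ω : Type} (m0 : MeasurableSpace Ω) (f : ℕ → Ω → E N) (j : ℕ)
    (hf : ∀ i < j, Measurable (f i)) : Measurable (fun ω => ∑ i ∈ Finset.range j, f i ω) :=
  Finset.measurable_sum _ fun i hi => hf i (Finset.mem_range.1 hi)

private theorem XI_lapm {Ω : Type} (m0 : MeasurableSpace Ω) (f : Site d → Ω → E N)
    (hf : ∀ y, Measurable (f y)) (x : Site d) : Measurable (fun ω => lap (fun y => f y ω) x) := by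
  unfold lap
  exact Finset.measurable_sum _ fun i _ => ((hf _).sub (hf _)).add ((hf _).sub (hf _))

private theorem XI_y {y : ℝ} (hy : 0 ≤ y) (hβ : 0 < β) {q : ℕ} (hq : 2 * (β + 1) ≤ q) :
    (y ^ β * y) ^ 4 ≤ 1 + y ^ (2 * q) := by
  have e : (y ^ β * y) ^ 4 = y ^ ((β + 1) * (4 : ℕ) : ℝ) := by
    rw [Real.rpow_mul hy, Real.rpow_natCast]
    congr 1
    rw [Real.rpow_add_one' hy (by linarith)]
  rw [e]
  rcases le_total y 1 with h | h
  · have h1 := Real.rpow_le_one hy h (z := (β + 1) * (4 : ℕ)) (by positivity)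
    have h2 := pow_nonneg hy (2 * q)
    linarith
  · have h1 : y ^ ((β + 1) * (4 : ℕ) : ℝ) ≤ y ^ ((2 * q : ℕ) : ℝ) :=
      Real.rpow_le_rpow_of_exponent_le h (by push_cast; linarith)
    rw [Real.rpow_natCast] at h1
    linarith

private theorem XI_agle (hβ : 0 < β) (hε : 0 < ε) (h : ℝ≥0) (n : ℕ) (ω : Ω) (x : Site d)
    {q : ℕ} (hq : 2 * (β + 1) ≤ q) :
    ‖ag k ε β h B H0 n ω x‖ ^ 4 ≤
      8 * (k ^ 4 * ‖lap (ac k ε β h B H0 n ω) x‖ ^ 4 + ε ^ 4 * (1 +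
        2 ^ (2 * q - 1) * (‖ac k ε β h B H0 n ω x‖ ^ (2 * q) +
          ‖wn k ε β h B H0 n ω x‖ ^ (2 * q)))) := by
  unfold ag
  have hh : 0 ≤ ε * (h : ℝ) := by positivity
  have hv : ac k ε β h B H0 n ω x +
      mulv (fun a b => B x a b ((n + 1) * h) ω - B x a b (n * h) ω) (ac k ε β h B H0 n ω x) =
      ac k ε β h B H0 n ω x + wn k ε β h B H0 n ω x := rfl
  rw [hv]
  set A := ac k ε β h B H0 n ω x
  set w := wn k ε β h B H0 n ω x
  set L := lap (ac k ε β h B H0 n ω) x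
  set j := J β (ε * h) (A + w) with hj
  have hjv : ‖j‖ ≤ ‖A + w‖ := by
    rw [hj, norm_J hβ hh]
    exact psi_le hβ hh (norm_nonneg _)
  have h1 : ‖k • L - (ε * ‖j‖ ^ β) • j‖ ≤ ‖k • L‖ + ‖(ε * ‖j‖ ^ β) • j‖ := norm_sub_le _ _
  have h2 := XI_two (norm_nonneg (k • L)) (norm_nonneg ((ε * ‖j‖ ^ β) • j))
  have h3 : ‖k • L‖ ^ 4 = k ^ 4 * ‖L‖ ^ 4 := by
    rw [norm_smul, mul_pow, Real.norm_eq_abs, Even.pow_abs (by decide) k]
  have h4 : ‖(ε * ‖j‖ ^ β) • j‖ ^ 4 ≤ ε ^ 4 * (1 + ‖j‖ ^ (2 * q)) := by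
    rw [norm_smul, Real.norm_of_nonneg (by positivity), mul_assoc, mul_pow]
    exact mul_le_mul_of_nonneg_left (XI_y (norm_nonneg _) hβ hq) (by positivity)
  have h5 : ‖j‖ ^ (2 * q) ≤ 2 ^ (2 * q - 1) * (‖A‖ ^ (2 * q) + ‖w‖ ^ (2 * q)) := by
    refine (pow_le_pow_left₀ (norm_nonneg _) (hjv.trans (norm_add_le _ _)) _).trans ?_
    exact add_pow_le (norm_nonneg _) (norm_nonneg _) _
  have h6 : ε ^ 4 * (1 + ‖j‖ ^ (2 * q)) ≤
      ε ^ 4 * (1 + 2 ^ (2 * q - 1) * (‖A‖ ^ (2 * q) + ‖w‖ ^ (2 * q))) :=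
    mul_le_mul_of_nonneg_left (by linarith) (by positivity)
  refine (pow_le_pow_left₀ (norm_nonneg _) h1 4).trans ?_
  linarith

private theorem XI_Am (hN : Noise P ℱ B H0) (hβ : 0 < β) (hε : 0 < ε) (h : ℝ≥0) (n : ℕ)
    (x : Site d) : Measurable (fun ω => ac k ε β h B H0 n ω x) :=
  (ac_meas hN hβ hε h n x).mono (ℱ.le _) le_rfl

private theorem XI_le (h : ℝ≥0) (n : ℕ) : (n : ℝ≥0) * h ≤ ((n : ℝ≥0) + 1) * h := by
  rw [add_mul, one_mul]
  exact le_self_add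

private theorem XI_sub (h : ℝ≥0) (n : ℕ) :
    ((((n : ℝ≥0) + 1) * h : ℝ≥0) : ℝ) - (((n : ℝ≥0) * h : ℝ≥0) : ℝ) = h := by
  push_cast
  ring

private theorem XI_wmF (hN : Noise P ℱ B H0) (hβ : 0 < β) (hε : 0 < ε) (h : ℝ≥0) (n : ℕ)
    (x : Site d) : Measurable[ℱ (((n : ℝ≥0) + 1) * h)] (fun ω => wn k ε β h B H0 n ω x) :=
  XI_meas hN _ _ (XI_le h n) x _ (ac_meas hN hβ hε h n x)

private theorem XI_wm (hN : Noise P ℱ B H0) (hβ : 0 < β) (hε : 0 < ε) (h : ℝ≥0) (n : ℕ)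
    (x : Site d) : Measurable (fun ω => wn k ε β h B H0 n ω x) :=
  (XI_wmF hN hβ hε h n x).mono (ℱ.le _) le_rfl

/-- even moments of the noise term -/
private theorem XI_w2q (N q : ℕ) : ∃ C : ℝ, 0 ≤ C ∧ ∀ (Ω : Type) [mΩ : MeasurableSpace Ω]
    (P : Measure Ω) (d : ℕ) (ℱ : Filtration ℝ≥0 mΩ) (B : Site d → Fin N → Fin N → ℝ≥0 → Ω → ℝ)
    (H0 : Site d → Ω → E N), Noise P ℱ B H0 → ∀ k ε β : ℝ, 0 < β → 0 < ε → ∀ (h : ℝ≥0) (n : ℕ)
    (x : Site d),
      Integrable (fun ω => ‖wn k ε β h B H0 n ω x‖ ^ (2 * q)) P ∧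
      ∫ ω, ‖wn k ε β h B H0 n ω x‖ ^ (2 * q) ∂P ≤
        C * (h : ℝ) ^ q * ∫ ω, ‖ac k ε β h B H0 n ω x‖ ^ (2 * q) ∂P := by
  obtain ⟨C, hC, hp⟩ := XI_pow N q
  refine ⟨C, hC, fun Ω mΩ P d ℱ B H0 hN k ε β hβ hε h n x => ?_⟩
  have h1 := hp Ω P d ℱ B H0 hN _ _ (XI_le h n) x (fun ω => ac k ε β h B H0 n ω x)
    (fun _ => 1) (ac_meas hN hβ hε h n x) measurable_const (fun _ => zero_le_one)
    (by simpa using ac_mem hN hβ hε h n (2 * q) x)
  rw [XI_sub] at h1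
  simp only [one_mul] at h1
  exact h1

private theorem XI_pp {y : ℝ} (hy : 0 ≤ y) (p : ℕ) : y ^ p ≤ 1 + y ^ (2 * p) := by
  rcases le_total y 1 with h | h
  · have h1 := pow_le_one₀ hy h (n := p)
    have h2 := pow_nonneg hy (2 * p)
    linarith
  · have h1 := pow_le_pow_right₀ h (show p ≤ 2 * p by omega)
    linarith

private theorem XI_wp (hN : Noise P ℱ B H0) (hβ : 0 < β) (hε : 0 < ε) (h : ℝ≥0) (n p : ℕ)
    (x : Site d) : Integrable (fun ω => ‖wn k ε β h B H0 n ω x‖ ^ p) P := by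
  haveI := hN.prob
  obtain ⟨C, hC, hp⟩ := XI_w2q N p
  have h1 := (hp Ω P d ℱ B H0 hN k ε β hβ hε h n x).1
  refine ((integrable_const (1 : ℝ)).add h1).mono'
    ((XI_wm hN hβ hε h n x).norm.pow_const _).aestronglyMeasurable
    (Filter.Eventually.of_forall fun ω => ?_)
  rw [Real.norm_of_nonneg (by positivity)]
  exact XI_pp (norm_nonneg _) p

private theorem XI_agm (hN : Noise P ℱ B H0) (hβ : 0 < β) (hε : 0 < ε) (h : ℝ≥0) (n : ℕ)
    (x : Site d) : Measurable (fun ω => ag k ε β h B H0 n ω x) := by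
  have hh : 0 ≤ ε * (h : ℝ) := by positivity
  have hA := fun y => XI_Am (k := k) (x := y) hN hβ hε h n
  have hw := XI_wm (k := k) hN hβ hε h n x
  have hJ : Measurable (fun ω => J β (ε * h) (ac k ε β h B H0 n ω x + wn k ε β h B H0 n ω x)) :=
    (J_continuous hβ hh).measurable.comp ((hA x).add hw)
  have hL : Measurable (fun ω => lap (ac k ε β h B H0 n ω) x) := XI_lapm mΩ _ hA x
  exact (hL.const_smul k).sub (((hJ.norm.pow_const β).const_mul ε).smul hJ)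

end aux

theorem ac_step_eq (hβ : 0 < β) (hε : 0 < ε) (h : ℝ≥0) (n : ℕ) (ω : Ω) (x : Site d) :
    ac k ε β h B H0 (n + 1) ω x = ac k ε β h B H0 n ω x +
      mulv (fun a b => B x a b ((n + 1) * h) ω - B x a b (n * h) ω) (ac k ε β h B H0 n ω x) +
      (h : ℝ) • ag k ε β h B H0 n ω x := by
  have hh : 0 ≤ ε * (h : ℝ) := by positivity
  unfold ag
  rw [ac]
  beta_reduce
  generalize ac k ε β h B H0 n ω x +
    mulv (fun a b => B x a b ((n + 1) * h) ω - B x a b (n * h) ω) (ac k ε β h B H0 n ω x) = v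
  generalize lap (ac k ε β h B H0 n ω) x = L
  have e := J_eq hβ hh v
  generalize J β (ε * h) v = j at e ⊢
  generalize ‖j‖ ^ β = c at e ⊢
  rw [← e]
  module

theorem ag_mom (hN : Noise P ℱ B H0) (hβ : 0 < β) (hε : 0 < ε) (hk : 0 ≤ k) (T : ℝ≥0) :
    ∃ C : ℝ, 0 ≤ C ∧ ∀ h : ℝ≥0, h ≤ 1 → ∀ n : ℕ, n * h ≤ T → ∀ x : Site d,
      Integrable (fun ω => ‖ag k ε β h B H0 n ω x‖ ^ 4) P ∧
      ∫ ω, ‖ag k ε β h B H0 n ω x‖ ^ 4 ∂P ≤ C := by
  haveI := hN.prob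
  obtain ⟨q, hq⟩ : ∃ q : ℕ, 2 * (β + 1) ≤ q := exists_nat_ge _
  obtain ⟨C4, hC4, h4⟩ := ac_mom hN hβ hε hk 4 T
  obtain ⟨Cq, hCq, hmq⟩ := ac_mom hN hβ hε hk (2 * q) T
  obtain ⟨Cw, hCw, hw⟩ := XI_w2q N q
  refine ⟨8 * (k ^ 4 * ((d : ℝ) ^ 3 * (d * (64 * (C4 + C4 + (C4 + C4))))) + ε ^ 4 * (1 +
    2 ^ (2 * q - 1) * (Cq + Cw * Cq))), by positivity, fun h hh n hn x => ?_⟩
  have bA : ∀ y, Integrable (fun ω => ‖ac k ε β h B H0 n ω y‖ ^ 4) P ∧
      ∫ ω, ‖ac k ε β h B H0 n ω y‖ ^ 4 ∂P ≤ C4 := fun y =>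
    ⟨ac_mem hN hβ hε h n 4 y, h4 h hh n hn y⟩
  have bq : Integrable (fun ω => ‖ac k ε β h B H0 n ω x‖ ^ (2 * q)) P ∧
      ∫ ω, ‖ac k ε β h B H0 n ω x‖ ^ (2 * q) ∂P ≤ Cq :=
    ⟨ac_mem hN hβ hε h n (2 * q) x, hmq h hh n hn x⟩
  have bw : Integrable (fun ω => ‖wn k ε β h B H0 n ω x‖ ^ (2 * q)) P ∧
      ∫ ω, ‖wn k ε β h B H0 n ω x‖ ^ (2 * q) ∂P ≤ Cw * Cq := by
    have h1 := hw Ω P d ℱ B H0 hN k ε β hβ hε h n x
    refine ⟨h1.1, h1.2.trans ?_⟩
    have h2 : (h : ℝ) ^ q ≤ 1 := pow_le_one₀ h.2 (by exact_mod_cast hh)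
    have h3 : Cw * (h : ℝ) ^ q ≤ Cw := by nlinarith
    exact mul_le_mul h3 bq.2 (integral_nonneg fun ω => by positivity) hCw
  have b1 : Integrable (fun _ : Ω => (1 : ℝ)) P ∧ ∫ _, (1 : ℝ) ∂P ≤ 1 := by
    refine ⟨integrable_const 1, ?_⟩
    simp
  have hcard : ((Finset.univ : Finset (Fin d)).card : ℝ) = d := by simp
  have b4 : ∀ i : Fin d, Integrable (fun ω => 64 *
      (‖ac k ε β h B H0 n ω (x + Pi.single i 1)‖ ^ 4 + ‖ac k ε β h B H0 n ω x‖ ^ 4 +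
      (‖ac k ε β h B H0 n ω (x - Pi.single i 1)‖ ^ 4 + ‖ac k ε β h B H0 n ω x‖ ^ 4))) P ∧
      ∫ ω, 64 * (‖ac k ε β h B H0 n ω (x + Pi.single i 1)‖ ^ 4 +
      ‖ac k ε β h B H0 n ω x‖ ^ 4 + (‖ac k ε β h B H0 n ω (x - Pi.single i 1)‖ ^ 4 +
      ‖ac k ε β h B H0 n ω x‖ ^ 4)) ∂P ≤ 64 * (C4 + C4 + (C4 + C4)) := fun i =>
    bd_mul (c := 64) (by norm_num) (bd_add (bd_add (bA _) (bA _)) (bd_add (bA _) (bA _)))
  have bs := bd_sum (P := P) (Finset.univ : Finset (Fin d)) (fun i _ => b4 i)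
  rw [hcard] at bs
  have hA := fun y => XI_Am (k := k) (x := y) hN hβ hε h n
  have bs' := bd_mul (c := (d : ℝ) ^ 3) (by positivity) bs
  have hLm : Measurable (fun ω => ‖lap (ac k ε β h B H0 n ω) x‖ ^ 4) :=
    (XI_lapm mΩ _ hA x).norm.pow_const _
  have bl : Integrable (fun ω => ‖lap (ac k ε β h B H0 n ω) x‖ ^ 4) P ∧
      ∫ ω, ‖lap (ac k ε β h B H0 n ω) x‖ ^ 4 ∂P ≤
        (d : ℝ) ^ 3 * (d * (64 * (C4 + C4 + (C4 + C4)))) :=
    bd_mono hLm (fun ω => by positivity) (fun ω => XI_lap (ac k ε β h B H0 n ω) x) bs'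
  have b5 := bd_mul (c := (2 : ℝ) ^ (2 * q - 1)) (by positivity) (bd_add bq bw)
  have b6 := bd_mul (c := ε ^ 4) (by positivity) (bd_add b1 b5)
  have b7 := bd_mul (c := k ^ 4) (by positivity) bl
  have b8 := bd_mul (c := (8 : ℝ)) (by norm_num) (bd_add b7 b6)
  have hm : Measurable (fun ω => ‖ag k ε β h B H0 n ω x‖ ^ 4) :=
    (XI_agm hN hβ hε h n x).norm.pow_const _
  exact bd_mono hm (fun ω => by positivity) (fun ω => XI_agle hβ hε h n ω x hq) b8

section inc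

/-- noise part of an increment -/
private noncomputable def Sn {Ω : Type} {N d : ℕ} (k ε β : ℝ) (h : ℝ≥0)
    (B : Site d → Fin N → Fin N → ℝ≥0 → Ω → ℝ) (H0 : Site d → Ω → E N) (n j : ℕ) (ω : Ω)
    (x : Site d) : E N :=
  ∑ i ∈ Finset.range j, wn k ε β h B H0 (n + i) ω x

private theorem XI_split (hβ : 0 < β) (hε : 0 < ε) (h : ℝ≥0) (n : ℕ) (ω : Ω) (x : Site d)
    (j : ℕ) : ac k ε β h B H0 (n + j) ω x - ac k ε β h B H0 n ω x =
      Sn k ε β h B H0 n j ω x + (h : ℝ) • ∑ i ∈ Finset.range j, ag k ε β h B H0 (n + i) ω x := by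
  induction j with
  | zero => simp [Sn]
  | succ j ih =>
    have e := ac_step_eq (k := k) (B := B) (H0 := H0) hβ hε h (n + j) ω x
    have e2 : Sn k ε β h B H0 n (j + 1) ω x =
        Sn k ε β h B H0 n j ω x + wn k ε β h B H0 (n + j) ω x := by
      unfold Sn
      rw [Finset.sum_range_succ]
    rw [Finset.sum_range_succ, e2, smul_add, ← add_assoc n j 1, e]
    have e3 : mulv (fun a b => B x a b (((n + j : ℕ) + 1) * h) ω -
        B x a b (((n + j : ℕ) : ℝ≥0) * h) ω) (ac k ε β h B H0 (n + j) ω x) =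
        wn k ε β h B H0 (n + j) ω x := rfl
    rw [e3]
    have e4 : ac k ε β h B H0 (n + j) ω x + wn k ε β h B H0 (n + j) ω x +
        (h : ℝ) • ag k ε β h B H0 (n + j) ω x - ac k ε β h B H0 n ω x =
        (ac k ε β h B H0 (n + j) ω x - ac k ε β h B H0 n ω x) +
          wn k ε β h B H0 (n + j) ω x + (h : ℝ) • ag k ε β h B H0 (n + j) ω x := by abel
    rw [e4, ih]
    abel

private theorem XI_Ssucc (h : ℝ≥0) (n j : ℕ) (ω : Ω) (x : Site d) :
    Sn k ε β h B H0 n (j + 1) ω x =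
      Sn k ε β h B H0 n j ω x + wn k ε β h B H0 (n + j) ω x := by
  unfold Sn
  rw [Finset.sum_range_succ]

private theorem XI_SmF (hN : Noise P ℱ B H0) (hβ : 0 < β) (hε : 0 < ε) (h : ℝ≥0) (n j : ℕ)
    (x : Site d) : Measurable[ℱ (((n + j : ℕ) : ℝ≥0) * h)]
      (fun ω => Sn k ε β h B H0 n j ω x) := by
  unfold Sn
  refine XI_summ (ℱ (((n + j : ℕ) : ℝ≥0) * h)) _ j fun i hi => ?_
  refine (XI_wmF hN hβ hε h (n + i) x).mono (ℱ.mono ?_) le_rfl
  refine mul_le_mul_left ?_ h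
  have : n + i + 1 ≤ n + j := by omega
  exact_mod_cast this

private theorem XI_Sp (hN : Noise P ℱ B H0) (hβ : 0 < β) (hε : 0 < ε) (h : ℝ≥0) (n p : ℕ)
    (x : Site d) (j : ℕ) : Integrable (fun ω => ‖Sn k ε β h B H0 n j ω x‖ ^ p) P := by
  haveI := hN.prob
  induction j with
  | zero =>
    simp only [Sn, Finset.range_zero, Finset.sum_empty]
    exact integrable_const _
  | succ j ih =>
    have hm : Measurable (fun ω => Sn k ε β h B H0 n (j + 1) ω x) :=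
      (XI_SmF hN hβ hε h n (j + 1) x).mono (ℱ.le _) le_rfl
    have hi : Integrable (fun ω => (2 : ℝ) ^ (p - 1) * (‖Sn k ε β h B H0 n j ω x‖ ^ p +
        ‖wn k ε β h B H0 (n + j) ω x‖ ^ p)) P :=
      (ih.add (XI_wp hN hβ hε h (n + j) p x)).const_mul (2 ^ (p - 1))
    refine hi.mono' (hm.norm.pow_const _).aestronglyMeasurable
      (Filter.Eventually.of_forall fun ω => ?_)
    rw [Real.norm_of_nonneg (by positivity), XI_Ssucc]
    exact (pow_le_pow_left₀ (norm_nonneg _) (norm_add_le _ _) p).trans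
      (add_pow_le (norm_nonneg _) (norm_nonneg _) p)

private theorem XI_alg (S w : E N) :
    ‖S + w‖ ^ 4 ≤ ‖S‖ ^ 4 + 4 * inner ℝ (‖S‖ ^ 2 • S) w + 8 * (‖S‖ ^ 2 * ‖w‖ ^ 2) +
      3 * ‖w‖ ^ 4 := by
  have e1 : ‖S + w‖ ^ 2 = ‖S‖ ^ 2 + 2 * inner ℝ S w + ‖w‖ ^ 2 := norm_add_sq_real S w
  have e2 : ‖S + w‖ ^ 4 = (‖S‖ ^ 2 + 2 * inner ℝ S w + ‖w‖ ^ 2) ^ 2 := by
    rw [← e1]
    ring
  rw [e2, real_inner_smul_left]
  have h1 : |inner ℝ S w| ≤ ‖S‖ * ‖w‖ := abs_real_inner_le_norm S w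
  have hS := norm_nonneg S
  have hw := norm_nonneg w
  generalize (inner ℝ S w : ℝ) = c at *
  generalize ‖S‖ = a at *
  generalize ‖w‖ = b at *
  have h2 : c ^ 2 ≤ (a * b) ^ 2 := sq_le_sq' (by linarith [neg_abs_le c]) (by linarith [le_abs_self c])
  have h3 : c ≤ a * b := (le_abs_self c).trans h1
  have h4 : c * b ^ 2 ≤ a * b * b ^ 2 := mul_le_mul_of_nonneg_right h3 (by positivity)
  have h5 : 2 * (a * b * b ^ 2) ≤ (a * b) ^ 2 + b ^ 4 := by
    have := sq_nonneg (a * b - b ^ 2)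
    nlinarith
  nlinarith

private theorem XI_cs (P : Measure Ω) (f g : Ω → ℝ)
    (hf0 : ∀ ω, 0 ≤ f ω) (hg0 : ∀ ω, 0 ≤ g ω) (hf : MemLp f 2 P) (hg : MemLp g 2 P) :
    ∫ ω, f ω * g ω ∂P ≤ Real.sqrt (∫ ω, f ω ^ 2 ∂P) * Real.sqrt (∫ ω, g ω ^ 2 ∂P) := by
  have h2 : (2 : ℝ).HolderConjugate 2 := Real.HolderConjugate.two_two
  have e2 : ENNReal.ofReal 2 = 2 := by simp
  rw [← e2] at hf hg
  have h := integral_mul_le_Lp_mul_Lq_of_nonneg h2
    (Filter.Eventually.of_forall hf0) (Filter.Eventually.of_forall hg0) hf hg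
  simp only [Real.rpow_two] at h
  rw [Real.sqrt_eq_rpow, Real.sqrt_eq_rpow]
  exact h

/-- one step of the recursion for the fourth moments of the noise part -/
private theorem XI_rec {K C1 C2 c h y z u v : ℝ} (hC1 : 0 ≤ C1) (hC2 : 0 ≤ C2)
    (hK : K = 4 * (C1 * c) + 3 * (C2 * c ^ 2) + 1) (hc : 0 ≤ c) {j : ℕ}
    (hy : y ≤ (K * (j * h)) ^ 2) (hz : z ≤ C1 * h * ((K * (j * h)) * c))
    (hu : u ≤ C2 * h ^ 2 * c ^ 2) (hv : v ≤ y + 8 * z + 3 * u) :
    v ≤ (K * (((j + 1 : ℕ) : ℝ) * h)) ^ 2 := by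
  have hj : (0 : ℝ) ≤ j := Nat.cast_nonneg j
  have hA : 0 ≤ C1 * c := by positivity
  have hB : 0 ≤ C2 * c ^ 2 := by positivity
  have hK1 : 1 ≤ K := by linarith
  have h1 : K ≤ K ^ 2 := by nlinarith
  have h2 : 3 * (C2 * c ^ 2) ≤ K ^ 2 := by linarith
  have h3 : 4 * (C1 * c) * K ≤ K ^ 2 := by
    have : 4 * (C1 * c) ≤ K := by linarith
    nlinarith
  have h4 : 8 * (C1 * h * ((K * (j * h)) * c)) ≤ 2 * K ^ 2 * (j * h ^ 2) := by
    have e : 8 * (C1 * h * ((K * (j * h)) * c)) = 2 * (4 * (C1 * c) * K) * (j * h ^ 2) := by ring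
    rw [e]
    exact mul_le_mul_of_nonneg_right (by linarith) (by positivity)
  have h5 : 3 * (C2 * h ^ 2 * c ^ 2) ≤ K ^ 2 * h ^ 2 := by
    have e : 3 * (C2 * h ^ 2 * c ^ 2) = 3 * (C2 * c ^ 2) * h ^ 2 := by ring
    rw [e]
    exact mul_le_mul_of_nonneg_right h2 (by positivity)
  push_cast
  have e : (K * ((j + 1) * h)) ^ 2 = (K * (j * h)) ^ 2 + 2 * K ^ 2 * (j * h ^ 2) + K ^ 2 * h ^ 2 := by
    ring
  rw [e]
  linarith

end inc

theorem ac_inc (hN : Noise P ℱ B H0) (hβ : 0 < β) (hε : 0 < ε) (hk : 0 ≤ k) (T : ℝ≥0) :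
    ∃ C : ℝ, 0 ≤ C ∧ ∀ h : ℝ≥0, h ≤ 1 → ∀ n m : ℕ, n ≤ m → m * h ≤ T → ∀ x : Site d,
      ∫ ω, ‖ac k ε β h B H0 m ω x - ac k ε β h B H0 n ω x‖ ^ 4 ∂P ≤
        C * (((m : ℝ) - n) * h) ^ 2 := by
  haveI := hN.prob
  obtain ⟨C4, hC4, h4⟩ := ac_mom hN hβ hε hk 4 T
  obtain ⟨Cg, hCg, hg⟩ := ag_mom hN hβ hε hk T
  obtain ⟨C1, hC1, hw1⟩ := XI_pow N 1
  obtain ⟨C2, hC2, hw2⟩ := XI_w2q N 2
  obtain ⟨K, hK⟩ : ∃ K, K = 4 * (C1 * Real.sqrt C4) + 3 * (C2 * Real.sqrt C4 ^ 2) + 1 := ⟨_, rfl⟩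
  have hK0 : 0 ≤ K := by rw [hK]; positivity
  have hs4 : Real.sqrt C4 ^ 2 = C4 := Real.sq_sqrt hC4
  -- the noise part
  have main : ∀ h : ℝ≥0, h ≤ 1 → ∀ n : ℕ, ∀ x : Site d, ∀ j : ℕ, ((n + j : ℕ) : ℝ≥0) * h ≤ T →
      ∫ ω, ‖Sn k ε β h B H0 n j ω x‖ ^ 4 ∂P ≤ (K * (j * h)) ^ 2 := by
    intro h hh n x j
    induction j with
    | zero =>
      intro _
      simp [Sn]
    | succ j ih =>
      intro hT
      have hle : ((n + j : ℕ) : ℝ≥0) * h ≤ T := by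
        refine le_trans (mul_le_mul_left ?_ h) hT
        exact_mod_cast (by omega : n + j ≤ n + (j + 1))
      have hy := ih hle
      have hSF := XI_SmF (k := k) hN hβ hε h n j x
      have hSm : Measurable (fun ω => Sn k ε β h B H0 n j ω x) := hSF.mono (ℱ.le _) le_rfl
      have hS4 := XI_Sp (k := k) hN hβ hε h n 4 x j
      have hS6 := XI_Sp (k := k) hN hβ hε h n 6 x j
      have hAm := XI_Am (k := k) hN hβ hε h (n + j) x
      have hA4 := ac_mem (k := k) hN hβ hε h (n + j) 4 x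
      have hwm := XI_wm (k := k) hN hβ hε h (n + j) x
      -- square integrability
      have lS : MemLp (fun ω => ‖Sn k ε β h B H0 n j ω x‖ ^ 2) 2 P := by
        rw [memLp_two_iff_integrable_sq (hSm.norm.pow_const _).aestronglyMeasurable]
        refine hS4.congr (Filter.Eventually.of_forall fun ω => ?_)
        simp only
        ring
      have lA : MemLp (fun ω => ‖ac k ε β h B H0 (n + j) ω x‖ ^ 2) 2 P := by
        rw [memLp_two_iff_integrable_sq (hAm.norm.pow_const _).aestronglyMeasurable]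
        refine hA4.congr (Filter.Eventually.of_forall fun ω => ?_)
        simp only
        ring
      have hSA : Integrable (fun ω => ‖Sn k ε β h B H0 n j ω x‖ ^ 2 *
          ‖ac k ε β h B H0 (n + j) ω x‖ ^ (2 * 1)) P := by
        have h1 : Integrable (fun ω => ‖Sn k ε β h B H0 n j ω x‖ ^ 2 *
          ‖ac k ε β h B H0 (n + j) ω x‖ ^ 2) P := lS.integrable_mul lA
        simpa only [mul_one] using h1
      have p1 := hw1 Ω P d ℱ B H0 hN _ _ (XI_le h (n + j)) x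
        (fun ω => ac k ε β h B H0 (n + j) ω x) (fun ω => ‖Sn k ε β h B H0 n j ω x‖ ^ 2)
        (ac_meas hN hβ hε h (n + j) x) ((measurable_norm.comp hSF).pow_const 2)
        (fun ω => by positivity) hSA
      rw [XI_sub] at p1
      simp only [mul_one, pow_one] at p1
      have p2 := hw2 Ω P d ℱ B H0 hN k ε β hβ hε h (n + j) x
      simp only [show 2 * 2 = 4 from rfl] at p2
      -- the middle term
      have hcs := XI_cs P (fun ω => ‖Sn k ε β h B H0 n j ω x‖ ^ 2)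
        (fun ω => ‖ac k ε β h B H0 (n + j) ω x‖ ^ 2) (fun ω => by positivity)
        (fun ω => by positivity) lS lA
      have e4 : ∀ a : ℝ, (a ^ 2) ^ 2 = a ^ 4 := fun a => by ring
      simp only [e4] at hcs
      have q1 : Real.sqrt (∫ ω, ‖Sn k ε β h B H0 n j ω x‖ ^ 4 ∂P) ≤ K * (j * h) := by
        rw [show K * ((j : ℝ) * h) = Real.sqrt ((K * (j * h)) ^ 2) from
          (Real.sqrt_sq (by positivity)).symm]
        exact Real.sqrt_le_sqrt hy
      have q2 : Real.sqrt (∫ ω, ‖ac k ε β h B H0 (n + j) ω x‖ ^ 4 ∂P) ≤ Real.sqrt C4 :=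
        Real.sqrt_le_sqrt (h4 h hh (n + j) hle x)
      have hz : ∫ ω, ‖Sn k ε β h B H0 n j ω x‖ ^ 2 * ‖wn k ε β h B H0 (n + j) ω x‖ ^ 2 ∂P ≤
          C1 * h * ((K * (j * h)) * Real.sqrt C4) := by
        refine p1.2.trans ?_
        refine mul_le_mul_of_nonneg_left (hcs.trans ?_) (by positivity)
        exact mul_le_mul q1 q2 (Real.sqrt_nonneg _) (by positivity)
      have hu : ∫ ω, ‖wn k ε β h B H0 (n + j) ω x‖ ^ 4 ∂P ≤
          C2 * (h : ℝ) ^ 2 * Real.sqrt C4 ^ 2 := by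
        rw [hs4]
        exact p2.2.trans (mul_le_mul_of_nonneg_left (h4 h hh (n + j) hle x) (by positivity))
      -- the linear term
      have hZm : Measurable (fun ω => ‖Sn k ε β h B H0 n j ω x‖ ^ 2 • Sn k ε β h B H0 n j ω x) :=
        (hSm.norm.pow_const 2).smul hSm
      have lZ : MemLp (fun ω => ‖Sn k ε β h B H0 n j ω x‖ ^ 2 • Sn k ε β h B H0 n j ω x) 2 P := by
        rw [memLp_two_iff_integrable_sq_norm hZm.aestronglyMeasurable]
        refine hS6.congr (Filter.Eventually.of_forall fun ω => ?_)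
        simp only [norm_smul, norm_pow, norm_norm]
        ring
      have lV : MemLp (fun ω => ac k ε β h B H0 (n + j) ω x) 2 P := by
        rw [memLp_two_iff_integrable_sq_norm hAm.aestronglyMeasurable]
        exact ac_mem hN hβ hε h (n + j) 2 x
      have hsq := mulv_sq (zero_dyn hN 0 0 0) _ _ (XI_le h (n + j)) x
        (fun ω => ac k ε β h B H0 (n + j) ω x) (ac_meas hN hβ hε h (n + j) x) lV
      have hlin := hsq.2.2 (fun ω => ‖Sn k ε β h B H0 n j ω x‖ ^ 2 • Sn k ε β h B H0 n j ω x)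
        (((measurable_norm.comp hSF).pow_const 2).smul hSF) lZ
      have hlinI : Integrable (fun ω => inner ℝ
          (‖Sn k ε β h B H0 n j ω x‖ ^ 2 • Sn k ε β h B H0 n j ω x)
          (wn k ε β h B H0 (n + j) ω x)) P := by
        have h1 : Integrable (fun ω => ‖‖Sn k ε β h B H0 n j ω x‖ ^ 2 • Sn k ε β h B H0 n j ω x‖ *
            ‖wn k ε β h B H0 (n + j) ω x‖) P := lZ.norm.integrable_mul hsq.1.norm
        exact h1.mono' (lZ.1.inner hsq.1.1)
          (Filter.Eventually.of_forall fun ω => norm_inner_le_norm _ _)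
      have hlin' : ∫ ω, inner ℝ (‖Sn k ε β h B H0 n j ω x‖ ^ 2 • Sn k ε β h B H0 n j ω x)
          (wn k ε β h B H0 (n + j) ω x) ∂P = 0 := hlin
      -- together
      have hv : ∫ ω, ‖Sn k ε β h B H0 n (j + 1) ω x‖ ^ 4 ∂P ≤
          ∫ ω, ‖Sn k ε β h B H0 n j ω x‖ ^ 4 ∂P +
          8 * ∫ ω, ‖Sn k ε β h B H0 n j ω x‖ ^ 2 * ‖wn k ε β h B H0 (n + j) ω x‖ ^ 2 ∂P +
          3 * ∫ ω, ‖wn k ε β h B H0 (n + j) ω x‖ ^ 4 ∂P := by
        have i1 : Integrable (fun ω => ‖Sn k ε β h B H0 n j ω x‖ ^ 4 +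
            4 * inner ℝ (‖Sn k ε β h B H0 n j ω x‖ ^ 2 • Sn k ε β h B H0 n j ω x)
              (wn k ε β h B H0 (n + j) ω x)) P := hS4.add (hlinI.const_mul 4)
        have i2 : Integrable (fun ω => 8 * (‖Sn k ε β h B H0 n j ω x‖ ^ 2 *
            ‖wn k ε β h B H0 (n + j) ω x‖ ^ 2)) P := p1.1.const_mul 8
        have i3 : Integrable (fun ω => 3 * ‖wn k ε β h B H0 (n + j) ω x‖ ^ 4) P :=
          p2.1.const_mul 3
        have i12 : Integrable (fun ω => ‖Sn k ε β h B H0 n j ω x‖ ^ 4 +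
            4 * inner ℝ (‖Sn k ε β h B H0 n j ω x‖ ^ 2 • Sn k ε β h B H0 n j ω x)
              (wn k ε β h B H0 (n + j) ω x) + 8 * (‖Sn k ε β h B H0 n j ω x‖ ^ 2 *
            ‖wn k ε β h B H0 (n + j) ω x‖ ^ 2)) P := i1.add i2
        have i123 : Integrable (fun ω => ‖Sn k ε β h B H0 n j ω x‖ ^ 4 +
            4 * inner ℝ (‖Sn k ε β h B H0 n j ω x‖ ^ 2 • Sn k ε β h B H0 n j ω x)
              (wn k ε β h B H0 (n + j) ω x) + 8 * (‖Sn k ε β h B H0 n j ω x‖ ^ 2 *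
            ‖wn k ε β h B H0 (n + j) ω x‖ ^ 2) + 3 * ‖wn k ε β h B H0 (n + j) ω x‖ ^ 4) P :=
          i12.add i3
        have hmono := integral_mono (XI_Sp hN hβ hε h n 4 x (j + 1)) i123
          (fun ω => by
            simp only
            rw [XI_Ssucc]
            exact XI_alg _ _)
        refine hmono.trans (le_of_eq ?_)
        rw [integral_add i12 i3, integral_add i1 i2, integral_add hS4 (hlinI.const_mul 4),
          integral_const_mul, integral_const_mul, integral_const_mul, hlin']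
        ring
      exact XI_rec hC1 hC2 hK (Real.sqrt_nonneg _) hy hz hu hv
  refine ⟨8 * (K ^ 2 + Cg * (T : ℝ) ^ 2), by positivity, fun h hh n m hnm hT x => ?_⟩
  obtain ⟨j, rfl⟩ := Nat.exists_eq_add_of_le hnm
  have hjm : ((((n + j : ℕ) : ℝ) - n) * h) = (j : ℝ) * h := by push_cast; ring
  rw [hjm]
  have bS : Integrable (fun ω => ‖Sn k ε β h B H0 n j ω x‖ ^ 4) P ∧
      ∫ ω, ‖Sn k ε β h B H0 n j ω x‖ ^ 4 ∂P ≤ (K * (j * h)) ^ 2 :=
    ⟨XI_Sp hN hβ hε h n 4 x j, main h hh n x j hT⟩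
  have bg := bd_sum (P := P) (Finset.range j)
    (f := fun i ω => ‖ag k ε β h B H0 (n + i) ω x‖ ^ 4) (fun i hi => hg h hh (n + i) (by
      refine le_trans (mul_le_mul_left ?_ h) hT
      have := Finset.mem_range.1 hi
      exact_mod_cast (by omega : n + i ≤ n + j)) x)
  rw [Finset.card_range] at bg
  have hjT : (j : ℝ) * h ≤ T := by
    have h1 : ((j : ℝ≥0)) * h ≤ T := by
      refine le_trans (mul_le_mul_left ?_ h) hT
      exact_mod_cast (by omega : j ≤ n + j)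
    exact_mod_cast h1
  have hAm : Measurable (fun ω => ac k ε β h B H0 (n + j) ω x - ac k ε β h B H0 n ω x) :=
    (XI_Am hN hβ hε h (n + j) x).sub (XI_Am hN hβ hε h n x)
  have hfin := bd_mono (P := P)
    (f := fun ω => ‖ac k ε β h B H0 (n + j) ω x - ac k ε β h B H0 n ω x‖ ^ 4)
    (g := fun ω => 8 * (‖Sn k ε β h B H0 n j ω x‖ ^ 4 + (h : ℝ) ^ 4 * (j : ℝ) ^ 3 *
      ∑ i ∈ Finset.range j, ‖ag k ε β h B H0 (n + i) ω x‖ ^ 4))
    (hAm.norm.pow_const _) (fun ω => by positivity) (fun ω => by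
      rw [XI_split hβ hε h n ω x j]
      refine (pow_le_pow_left₀ (norm_nonneg _) (norm_add_le _ _) 4).trans ?_
      refine (XI_two (norm_nonneg _) (norm_nonneg _)).trans ?_
      have h1 : ‖(h : ℝ) • ∑ i ∈ Finset.range j, ag k ε β h B H0 (n + i) ω x‖ ^ 4 ≤
          (h : ℝ) ^ 4 * (j : ℝ) ^ 3 *
            ∑ i ∈ Finset.range j, ‖ag k ε β h B H0 (n + i) ω x‖ ^ 4 := by
        rw [norm_smul, mul_pow, Real.norm_of_nonneg (NNReal.coe_nonneg h), mul_assoc]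
        refine mul_le_mul_of_nonneg_left ?_ (by positivity)
        refine (pow_le_pow_left₀ (norm_nonneg _) (norm_sum_le _ _) 4).trans ?_
        have h2 := pow_sum_le_card_mul_sum_pow (s := Finset.range j)
          (f := fun i => ‖ag k ε β h B H0 (n + i) ω x‖) (fun i _ => norm_nonneg _) 3
        rw [Finset.card_range] at h2
        exact h2
      linarith) (bd_mul (by norm_num) (bd_add bS (bd_mul (by positivity) bg)))
  refine hfin.2.trans ?_
  have h0 : 0 ≤ (j : ℝ) * h := by positivity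
  have h1 : ((j : ℝ) * h) ^ 2 ≤ (T : ℝ) ^ 2 := pow_le_pow_left₀ h0 hjT 2
  have e : 8 * ((K * (j * h)) ^ 2 + (h : ℝ) ^ 4 * (j : ℝ) ^ 3 * (j * Cg)) =
      8 * (K ^ 2 + Cg * ((j : ℝ) * h) ^ 2) * ((j : ℝ) * h) ^ 2 := by ring
  rw [e]
  refine mul_le_mul_of_nonneg_right ?_ (by positivity)
  have : Cg * ((j : ℝ) * h) ^ 2 ≤ Cg * (T : ℝ) ^ 2 := mul_le_mul_of_nonneg_left h1 hCg
  linarith

end DynX

end
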