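import Pool.Agent.Lib_MP_36b788_m.X0

/-!
# MP_36b788_pr, stationary limit: merged library part X2

Concatenation of smaller files (each in its own section), only to save build time.
-/

/-! ### from `Lib_MP_36b788x.XKC` -/

section

/-!
# Continuous modification from fourth moments of dyadic increments

PROOF. Put `δ m = 2^{-m/8}`. Good event `G` = all `ω` such that `X (m+1) (2j) ω = X m j ω` for all `m, j`, and for every
`T : ℕ` there is `m0` such that for all `m ≥ m0` and all `j` with `j + 1 ≤ T 2^m`: `‖X m (j+1) ω - X m j ω‖ ≤ δ m`.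
`G` is measurable (countable unions and intersections). `P Gᶜ = 0`: the consistency is almost sure (`hc`, countably many), and by Markov
`P(some j with j + 1 ≤ T 2^m and ‖…‖ > δ m) ≤ T 2^m C 2^{-2m} 2^{m/2}`, summable in `m`: Borel-Cantelli (`measure_limsup_atTop_eq_zero` or
`ae_eventually_notMem`), for every `T : ℕ`.
`S m t ω = X m ⌊2^m t⌋₊ ω`. For `ω ∈ G`, `t < T`, `m ≥ m0(T+1)`: `⌊2^{m+1} t⌋₊ ∈ {2⌊2^m t⌋₊, 2⌊2^m t⌋₊ + 1}`, so
`‖S (m+1) t - S m t‖ ≤ δ (m+1)` (consistency). `Σ δ m < ∞`, so `S m t ω` converges, uniformly for `t < T`: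
`‖Y t ω - S m t ω‖ ≤ Σ_{i>m} δ i ≤ 12 δ m`. Define `Y t ω` = the limit for `ω ∈ G` and `0` otherwise (measurable: limit of
measurable functions `G.indicator (S m t)`). Continuity: for `|t - s| ≤ 2^{-m}` and `s, t < T`, `m ≥ m0(T+1)` the indices `⌊2^m t⌋₊`, `⌊2^m s⌋₊`
differ by at most one, so `‖Y t - Y s‖ ≤ 25 δ m`. For `t = j/2^m`: `S (m+r) t = X (m+r) (2^r j) = X m j` on `G`, so `Y t = X m j` on `G`.
-/

open MeasureTheory ProbabilityTheory Filter Dyn
open scoped NNReal ENNReal Topology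

namespace DynX

section det

variable {V : Type} [NormedAddCommGroup V] [NormedSpace ℝ V] [CompleteSpace V]

private theorem XKC_floor (m : ℕ) (t : ℝ≥0) :
    ⌊2 ^ (m + 1) * t⌋₊ = 2 * ⌊2 ^ m * t⌋₊ ∨ ⌊2 ^ (m + 1) * t⌋₊ = 2 * ⌊2 ^ m * t⌋₊ + 1 := by
  have h1 : (⌊2 ^ m * t⌋₊ : ℝ≥0) ≤ 2 ^ m * t := Nat.floor_le zero_le
  have h2 : 2 ^ m * t < (⌊2 ^ m * t⌋₊ : ℝ≥0) + 1 := Nat.lt_floor_add_one _
  have h3 : (2 : ℝ≥0) ^ (m + 1) * t = 2 * (2 ^ m * t) := by ring
  have h4 : 2 * ⌊2 ^ m * t⌋₊ ≤ ⌊2 ^ (m + 1) * t⌋₊ := by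
    rw [h3]
    refine Nat.le_floor ?_
    push_cast
    gcongr
  have h5 : ⌊2 ^ (m + 1) * t⌋₊ < 2 * ⌊2 ^ m * t⌋₊ + 2 := by
    rw [h3]
    rw [Nat.floor_lt zero_le]
    push_cast
    calc 2 * (2 ^ m * t) < 2 * ((⌊2 ^ m * t⌋₊ : ℝ≥0) + 1) := by gcongr
      _ = _ := by ring
  omega

private theorem XKC_le {m T : ℕ} {t : ℝ≥0} (ht : t < T) : ⌊2 ^ m * t⌋₊ ≤ T * 2 ^ m := by
  refine Nat.floor_le_of_le ?_
  push_cast
  rw [mul_comm]
  gcongr

private theorem XKC_iter {x : ℕ → ℕ → V} (hx : ∀ m j, x (m + 1) (2 * j) = x m j) (m k j : ℕ) :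
    x (m + k) (2 ^ k * j) = x m j := by
  induction k with
  | zero => simp
  | succ k ih =>
    rw [← ih, show m + (k + 1) = (m + k) + 1 by ring, show 2 ^ (k + 1) * j = 2 * (2 ^ k * j) by ring, hx]

private theorem XKC_step {x : ℕ → ℕ → V} (hx : ∀ m j, x (m + 1) (2 * j) = x m j) {r : ℝ}
    (hr0 : 0 < r) {T m0 : ℕ}
    (hb : ∀ m, m0 ≤ m → ∀ j, j + 1 ≤ T * 2 ^ m → ‖x m (j + 1) - x m j‖ ≤ r ^ m) {t : ℝ≥0}
    (ht : t < T) {m : ℕ} (hm : m0 ≤ m) :
    dist (x m ⌊2 ^ m * t⌋₊) (x (m + 1) ⌊2 ^ (m + 1) * t⌋₊) ≤ r ^ (m + 1) := by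
  rw [dist_comm, dist_eq_norm]
  rcases XKC_floor m t with h | h
  · rw [h, hx, sub_self, norm_zero]
    positivity
  · have h1 := XKC_le (m := m + 1) ht
    rw [h] at h1
    have h2 := hb (m + 1) (by omega) (2 * ⌊2 ^ m * t⌋₊) h1
    rw [hx] at h2
    rw [h]
    exact h2

private theorem XKC_lim {x : ℕ → ℕ → V} (hx : ∀ m j, x (m + 1) (2 * j) = x m j) {r : ℝ}
    (hr0 : 0 < r) (hr1 : r < 1) {T m0 : ℕ}
    (hb : ∀ m, m0 ≤ m → ∀ j, j + 1 ≤ T * 2 ^ m → ‖x m (j + 1) - x m j‖ ≤ r ^ m) {t : ℝ≥0}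
    (ht : t < T) : ∃ y, Tendsto (fun m => x m ⌊2 ^ m * t⌋₊) atTop (𝓝 y) := by
  have h1 : CauchySeq fun n => x (n + m0) ⌊2 ^ (n + m0) * t⌋₊ := by
    refine cauchySeq_of_le_geometric r (r ^ (m0 + 1)) hr1 fun n => ?_
    have h2 := XKC_step hx hr0 hb ht (m := n + m0) (by omega)
    rw [show n + m0 + 1 = n + 1 + m0 by ring] at h2
    refine h2.trans (le_of_eq ?_)
    ring
  obtain ⟨y, hy⟩ := cauchySeq_tendsto_of_complete h1
  exact ⟨y, (tendsto_add_atTop_iff_nat m0).mp hy⟩

private theorem XKC_bd {x : ℕ → ℕ → V} (hx : ∀ m j, x (m + 1) (2 * j) = x m j) {r : ℝ}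
    (hr0 : 0 < r) (hr1 : r < 1) {T m0 : ℕ}
    (hb : ∀ m, m0 ≤ m → ∀ j, j + 1 ≤ T * 2 ^ m → ‖x m (j + 1) - x m j‖ ≤ r ^ m) {t : ℝ≥0}
    (ht : t < T) {y : V} (hy : Tendsto (fun m => x m ⌊2 ^ m * t⌋₊) atTop (𝓝 y)) {m : ℕ}
    (hm : m0 ≤ m) : dist (x m ⌊2 ^ m * t⌋₊) y ≤ 1 / (1 - r) * r ^ m := by
  have h1 : Tendsto (fun n => x (n + m) ⌊2 ^ (n + m) * t⌋₊) atTop (𝓝 y) :=
    (tendsto_add_atTop_iff_nat m).mpr hy
  have h2 := dist_le_of_le_geometric_of_tendsto₀ r (r ^ (m + 1)) hr1 (f := fun n =>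
    x (n + m) ⌊2 ^ (n + m) * t⌋₊) (fun n => by
      have h3 := XKC_step hx hr0 hb ht (m := n + m) (by omega)
      rw [show n + m + 1 = n + 1 + m by ring] at h3
      refine h3.trans (le_of_eq ?_)
      ring) h1
  simp only [zero_add] at h2
  refine h2.trans ?_
  have h4 : r ^ (m + 1) ≤ r ^ m := pow_le_pow_of_le_one hr0.le hr1.le (Nat.le_succ m)
  have h5 : 0 < 1 - r := by linarith
  rw [div_mul_eq_mul_div, one_mul]
  gcongr

private theorem XKC_osc {x : ℕ → ℕ → V} {r : ℝ} (hr0 : 0 < r) {T m0 : ℕ}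
    (hb : ∀ m, m0 ≤ m → ∀ j, j + 1 ≤ T * 2 ^ m → ‖x m (j + 1) - x m j‖ ≤ r ^ m) {s t : ℝ≥0}
    (hst : s ≤ t) (ht : t < T) {m : ℕ} (hm : m0 ≤ m) (hd : 2 ^ m * t ≤ 2 ^ m * s + 1) :
    dist (x m ⌊2 ^ m * t⌋₊) (x m ⌊2 ^ m * s⌋₊) ≤ r ^ m := by
  have h1 : ⌊2 ^ m * s⌋₊ ≤ ⌊2 ^ m * t⌋₊ := Nat.floor_le_floor (by gcongr)
  have h2 : ⌊2 ^ m * t⌋₊ ≤ ⌊2 ^ m * s⌋₊ + 1 := by
    have h3 := Nat.floor_le_floor hd
    rwa [Nat.floor_add_one zero_le] at h3
  rcases Nat.eq_or_lt_of_le h1 with h3 | h3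
  · rw [← h3, dist_self]
    positivity
  · have h4 : ⌊2 ^ m * t⌋₊ = ⌊2 ^ m * s⌋₊ + 1 := by omega
    have h5 := XKC_le (m := m) ht
    rw [h4] at h5
    rw [h4, dist_eq_norm]
    exact hb m hm _ h5

private theorem XKC_det {x : ℕ → ℕ → V} (hx : ∀ m j, x (m + 1) (2 * j) = x m j) {r : ℝ}
    (hr0 : 0 < r) (hr1 : r < 1)
    (hb : ∀ T : ℕ, ∃ m0 : ℕ, ∀ m, m0 ≤ m → ∀ j, j + 1 ≤ T * 2 ^ m →
      ‖x m (j + 1) - x m j‖ ≤ r ^ m) :
    ∃ y : ℝ≥0 → V, Continuous y ∧ (∀ t, Tendsto (fun m => x m ⌊2 ^ m * t⌋₊) atTop (𝓝 (y t))) ∧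
      ∀ m j : ℕ, y (j * hm m) = x m j := by
  have hex : ∀ t : ℝ≥0, ∃ T : ℕ, t + 1 < T := fun t => exists_nat_gt _
  have hlim : ∀ t : ℝ≥0, ∃ y, Tendsto (fun m => x m ⌊2 ^ m * t⌋₊) atTop (𝓝 y) := by
    intro t
    obtain ⟨T, hT⟩ := hex t
    obtain ⟨m0, h0⟩ := hb T
    exact XKC_lim hx hr0 hr1 h0 (lt_of_le_of_lt (le_add_of_nonneg_right zero_le_one) hT)
  choose y hy using hlim
  refine ⟨y, ?_, hy, ?_⟩
  · rw [Metric.continuous_iff]
    intro b e he
    obtain ⟨T, hT⟩ := hex b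
    obtain ⟨m0, h0⟩ := hb T
    set K : ℝ := 2 * (1 / (1 - r)) + 1 with hK
    have hK0 : 0 < K := by
      have : 0 < 1 - r := by linarith
      positivity
    have h1 : Tendsto (fun m : ℕ => K * r ^ m) atTop (𝓝 0) := by
      have h2 := (tendsto_pow_atTop_nhds_zero_of_lt_one hr0.le hr1).const_mul K
      rwa [mul_zero] at h2
    obtain ⟨m, hme, hm⟩ := ((h1.eventually (gt_mem_nhds he)).and (eventually_ge_atTop m0)).exists
    refine ⟨min 1 ((1 / 2) ^ m), by positivity, fun a hab => ?_⟩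
    have hbT : b < T := lt_of_le_of_lt (le_add_of_nonneg_right zero_le_one) hT
    have hab1 : dist a b < 1 := lt_of_lt_of_le hab (min_le_left _ _)
    have hab2 : dist a b < (1 / 2) ^ m := lt_of_lt_of_le hab (min_le_right _ _)
    rw [NNReal.dist_eq] at hab1 hab2
    have haT : a < T := by
      refine lt_trans ?_ hT
      rw [← NNReal.coe_lt_coe]
      push_cast
      have := (abs_lt.mp hab1).2
      linarith
    have key : ∀ s t : ℝ≥0, s ≤ t → t < T → |(t : ℝ) - s| < (1 / 2) ^ m →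
        dist (x m ⌊2 ^ m * t⌋₊) (x m ⌊2 ^ m * s⌋₊) ≤ r ^ m := by
      intro s t hst ht hd
      refine XKC_osc hr0 h0 hst ht hm ?_
      rw [← NNReal.coe_le_coe]
      push_cast
      have h3 := (abs_lt.mp hd).2
      have h4 : (2 : ℝ) ^ m * (1 / 2) ^ m = 1 := by
        rw [← mul_pow]
        norm_num
      have h5 : (2 : ℝ) ^ m * ((t : ℝ) - s) ≤ 2 ^ m * (1 / 2) ^ m := by
        gcongr
      rw [h4] at h5
      linarith
    have h6 : dist (x m ⌊2 ^ m * a⌋₊) (x m ⌊2 ^ m * b⌋₊) ≤ r ^ m := by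
      rcases le_total a b with h | h
      · rw [dist_comm]
        exact key a b h hbT (by rw [abs_sub_comm]; exact hab2)
      · exact key b a h haT hab2
    have h7 := XKC_bd hx hr0 hr1 h0 haT (hy a) hm
    have h8 := XKC_bd hx hr0 hr1 h0 hbT (hy b) hm
    refine lt_of_le_of_lt ?_ hme
    calc dist (y a) (y b) ≤ dist (y a) (x m ⌊2 ^ m * a⌋₊) + dist (x m ⌊2 ^ m * a⌋₊)
          (x m ⌊2 ^ m * b⌋₊) + dist (x m ⌊2 ^ m * b⌋₊) (y b) := dist_triangle4 _ _ _ _
      _ ≤ 1 / (1 - r) * r ^ m + r ^ m + 1 / (1 - r) * r ^ m := by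
          rw [dist_comm] at h7
          gcongr
      _ = K * r ^ m := by rw [hK]; ring
  · intro m j
    have h1 : Tendsto (fun n => x (n + m) ⌊2 ^ (n + m) * (j * hm m)⌋₊) atTop
        (𝓝 (y (j * hm m))) := (tendsto_add_atTop_iff_nat m).mpr (hy _)
    have h2 : (fun n => x (n + m) ⌊2 ^ (n + m) * (j * hm m)⌋₊) = fun _ => x m j := by
      funext n
      have h3 : (2 : ℝ≥0) ^ (n + m) * (j * hm m) = ((2 ^ n * j : ℕ) : ℝ≥0) := by
        unfold hm
        push_cast
        have h4 : (2 : ℝ≥0) ^ m * (1 / 2) ^ m = 1 := by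
          rw [← mul_pow]
          norm_num
        calc (2 : ℝ≥0) ^ (n + m) * (j * (1 / 2) ^ m) = 2 ^ n * j * (2 ^ m * (1 / 2) ^ m) := by
              ring
          _ = 2 ^ n * j := by rw [h4, mul_one]
      rw [h3, Nat.floor_natCast, add_comm n m]
      exact XKC_iter hx m n j
    rw [h2] at h1
    exact tendsto_nhds_unique h1 tendsto_const_nhds

end det

section prob

variable {Ω : Type} [MeasurableSpace Ω] {P : Measure Ω} {V : Type}
  [NormedAddCommGroup V] [NormedSpace ℝ V] [CompleteSpace V] [SecondCountableTopology V]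
  [MeasurableSpace V] [BorelSpace V]

private def XKC_G (X : ℕ → ℕ → Ω → V) (r : ℝ) : Set Ω :=
  {ω | (∀ m j, X (m + 1) (2 * j) ω = X m j ω) ∧ ∀ T : ℕ, ∃ m0 : ℕ, ∀ m, m0 ≤ m → ∀ j,
    j + 1 ≤ T * 2 ^ m → ‖X m (j + 1) ω - X m j ω‖ ≤ r ^ m}

private theorem XKC_G_meas {X : ℕ → ℕ → Ω → V} (hX : ∀ m j, Measurable (X m j)) (r : ℝ) :
    MeasurableSet (XKC_G X r) := by
  have h1 : XKC_G X r = (⋂ m, ⋂ j, {ω | X (m + 1) (2 * j) ω = X m j ω}) ∩
      ⋂ T : ℕ, ⋃ m0 : ℕ, ⋂ m : ℕ, ⋂ _ : m0 ≤ m, ⋂ j : ℕ, ⋂ _ : j + 1 ≤ T * 2 ^ m,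
        {ω | ‖X m (j + 1) ω - X m j ω‖ ≤ r ^ m} := by
    ext ω
    simp only [XKC_G, Set.mem_ofPred_eq, Set.mem_inter_iff, Set.mem_iInter, Set.mem_iUnion]
  rw [h1]
  refine MeasurableSet.inter ?_ ?_
  · exact MeasurableSet.iInter fun m => MeasurableSet.iInter fun j =>
      measurableSet_eq_fun (hX _ _) (hX _ _)
  · refine MeasurableSet.iInter fun T => MeasurableSet.iUnion fun m0 =>
      MeasurableSet.iInter fun m => MeasurableSet.iInter fun _ => MeasurableSet.iInter fun j =>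
        MeasurableSet.iInter fun _ => ?_
    exact measurableSet_le ((hX _ _).sub (hX _ _)).norm measurable_const

private theorem XKC_markov [IsProbabilityMeasure P] {X : ℕ → ℕ → Ω → V}
    (hX : ∀ m j, Measurable (X m j)) {r : ℝ} (hr0 : 0 < r) (hr8 : r ^ 8 = 1 / 2) {T : ℕ} {C : ℝ}
    (hC0 : 0 ≤ C)
    (hC : ∀ m j : ℕ, j + 1 ≤ T * 2 ^ m →
      ∫⁻ ω, ENNReal.ofReal (‖X m (j + 1) ω - X m j ω‖ ^ 4) ∂P ≤
        ENNReal.ofReal (C * ((1 / 2 : ℝ) ^ m) ^ 2)) (m : ℕ) :
    P {ω | ∃ j, j + 1 ≤ T * 2 ^ m ∧ r ^ m < ‖X m (j + 1) ω - X m j ω‖} ≤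
      ENNReal.ofReal (T * C * (r ^ 4) ^ m) := by
  have h1 : {ω | ∃ j, j + 1 ≤ T * 2 ^ m ∧ r ^ m < ‖X m (j + 1) ω - X m j ω‖} ⊆
      ⋃ j ∈ Finset.range (T * 2 ^ m), {ω | ENNReal.ofReal ((r ^ m) ^ 4) ≤
        ENNReal.ofReal (‖X m (j + 1) ω - X m j ω‖ ^ 4)} := by
    rintro ω ⟨j, hj, hω⟩
    rw [Set.mem_iUnion₂]
    refine ⟨j, Finset.mem_range.mpr hj, ?_⟩
    refine ENNReal.ofReal_le_ofReal ?_
    exact pow_le_pow_left₀ (by positivity) hω.le 4
  have hpos : 0 < (r ^ m) ^ 4 := by positivity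
  have h2 : ∀ j ∈ Finset.range (T * 2 ^ m), P {ω | ENNReal.ofReal ((r ^ m) ^ 4) ≤
      ENNReal.ofReal (‖X m (j + 1) ω - X m j ω‖ ^ 4)} ≤
        ENNReal.ofReal (C * ((1 / 2 : ℝ) ^ m) ^ 2 / (r ^ m) ^ 4) := by
    intro j hj
    have h3 := meas_ge_le_lintegral_div (μ := P)
      (f := fun ω => ENNReal.ofReal (‖X m (j + 1) ω - X m j ω‖ ^ 4))
      (((((hX m (j + 1)).sub (hX m j)).norm.pow_const 4).ennreal_ofReal).aemeasurable)
      (ε := ENNReal.ofReal ((r ^ m) ^ 4)) (by
        rw [Ne, ENNReal.ofReal_eq_zero, not_le]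
        exact hpos) ENNReal.ofReal_ne_top
    refine h3.trans ?_
    rw [ENNReal.ofReal_div_of_pos hpos]
    gcongr
    exact hC m j (Finset.mem_range.mp hj)
  refine (measure_mono h1).trans ((measure_biUnion_finset_le _ _).trans
    ((Finset.sum_le_sum h2).trans ?_))
  rw [Finset.sum_const, Finset.card_range, nsmul_eq_mul, ← ENNReal.ofReal_natCast,
    ← ENNReal.ofReal_mul (by positivity)]
  refine ENNReal.ofReal_le_ofReal (le_of_eq ?_)
  push_cast
  have h4 : (r ^ m) ^ 4 * (r ^ 4) ^ m = (1 / 2) ^ m := by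
    rw [← hr8, ← pow_mul, ← pow_mul, ← pow_mul, ← pow_add]
    congr 1
    ring
  have h5 : (2 : ℝ) ^ m * (1 / 2) ^ m = 1 := by
    rw [← mul_pow]
    norm_num
  rw [mul_div_assoc', div_eq_iff hpos.ne']
  calc (T : ℝ) * 2 ^ m * (C * ((1 / 2) ^ m) ^ 2) = T * C * (2 ^ m * (1 / 2) ^ m) * (1 / 2) ^ m := by
        ring
    _ = T * C * (1 / 2) ^ m := by rw [h5, mul_one]
    _ = T * C * (r ^ 4) ^ m * (r ^ m) ^ 4 := by rw [← h4]; ring

private theorem XKC_G_ae [IsProbabilityMeasure P] {X : ℕ → ℕ → Ω → V}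
    (hX : ∀ m j, Measurable (X m j)) (hc : ∀ m j, X (m + 1) (2 * j) =ᵐ[P] X m j)
    (hC : ∀ T : ℕ, ∃ C : ℝ, ∀ m j : ℕ, j + 1 ≤ T * 2 ^ m →
      ∫⁻ ω, ENNReal.ofReal (‖X m (j + 1) ω - X m j ω‖ ^ 4) ∂P ≤
        ENNReal.ofReal (C * ((1 / 2 : ℝ) ^ m) ^ 2)) {r : ℝ} (hr0 : 0 < r) (hr1 : r < 1)
    (hr8 : r ^ 8 = 1 / 2) : ∀ᵐ ω ∂P, ω ∈ XKC_G X r := by
  have h1 : ∀ᵐ ω ∂P, ∀ m j, X (m + 1) (2 * j) ω = X m j ω := by
    rw [ae_all_iff]
    intro m
    rw [ae_all_iff]
    exact fun j => hc m j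
  have h2 : ∀ᵐ ω ∂P, ∀ T : ℕ, ∃ m0 : ℕ, ∀ m, m0 ≤ m → ∀ j,
      j + 1 ≤ T * 2 ^ m → ‖X m (j + 1) ω - X m j ω‖ ≤ r ^ m := by
    rw [ae_all_iff]
    intro T
    obtain ⟨C, hCT⟩ := hC T
    have hCT' : ∀ m j : ℕ, j + 1 ≤ T * 2 ^ m →
        ∫⁻ ω, ENNReal.ofReal (‖X m (j + 1) ω - X m j ω‖ ^ 4) ∂P ≤
          ENNReal.ofReal (|C| * ((1 / 2 : ℝ) ^ m) ^ 2) := by
      intro m j hj
      refine (hCT m j hj).trans (ENNReal.ofReal_le_ofReal ?_)
      gcongr
      exact le_abs_self C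
    have h3 := XKC_markov hX hr0 hr8 (abs_nonneg C) hCT'
    have h4 : ∑' m, P {ω | ∃ j, j + 1 ≤ T * 2 ^ m ∧ r ^ m < ‖X m (j + 1) ω - X m j ω‖} ≠ ∞ := by
      have hs : Summable fun m : ℕ => (T : ℝ) * |C| * (r ^ 4) ^ m :=
        (summable_geometric_of_lt_one (by positivity)
          (pow_lt_one₀ hr0.le hr1 (by norm_num))).mul_left _
      exact ne_top_of_le_ne_top hs.tsum_ofReal_ne_top (ENNReal.tsum_le_tsum h3)
    filter_upwards [ae_eventually_notMem h4] with ω hω
    obtain ⟨m0, hm0⟩ := eventually_atTop.mp hω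
    refine ⟨m0, fun m hm j hj => ?_⟩
    by_contra h5
    exact hm0 m hm ⟨j, hj, not_le.mp h5⟩
  filter_upwards [h1, h2] with ω h3 h4
  exact ⟨h3, h4⟩

end prob

theorem kc {Ω : Type} [MeasurableSpace Ω] (P : Measure Ω) [IsProbabilityMeasure P] {V : Type}
    [NormedAddCommGroup V] [NormedSpace ℝ V] [CompleteSpace V] [SecondCountableTopology V]
    [MeasurableSpace V] [BorelSpace V] (X : ℕ → ℕ → Ω → V) (hm' : ∀ m j, Measurable (X m j))
    (hc : ∀ m j, X (m + 1) (2 * j) =ᵐ[P] X m j)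
    (hC : ∀ T : ℕ, ∃ C : ℝ, ∀ m j : ℕ, j + 1 ≤ T * 2 ^ m →
      ∫⁻ ω, ENNReal.ofReal (‖X m (j + 1) ω - X m j ω‖ ^ 4) ∂P ≤
        ENNReal.ofReal (C * ((1 / 2 : ℝ) ^ m) ^ 2)) :
    ∃ Y : ℝ≥0 → Ω → V, (∀ t, Measurable (Y t)) ∧ (∀ ω, Continuous (fun t => Y t ω)) ∧
      ∀ m j : ℕ, Y (j * hm m) =ᵐ[P] X m j := by
  classical
  obtain ⟨r, hr0, hr1, hr8⟩ : ∃ r : ℝ, 0 < r ∧ r < 1 ∧ r ^ 8 = 1 / 2 := by
    refine ⟨(1 / 2 : ℝ) ^ ((1 : ℝ) / 8), by positivity,
      Real.rpow_lt_one (by norm_num) (by norm_num) (by norm_num), ?_⟩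
    rw [← Real.rpow_natCast, ← Real.rpow_mul (by norm_num)]
    norm_num
  have hG := XKC_G_meas hm' r
  have hae := XKC_G_ae hm' hc hC hr0 hr1 hr8
  have hdet : ∀ ω ∈ XKC_G X r, ∃ y : ℝ≥0 → V, Continuous y ∧
      (∀ t, Tendsto (fun m => X m ⌊2 ^ m * t⌋₊ ω) atTop (𝓝 (y t))) ∧
      ∀ m j : ℕ, y (j * hm m) = X m j ω := fun ω hω =>
    XKC_det (x := fun m j => X m j ω) hω.1 hr0 hr1 hω.2
  choose! y hy1 hy2 hy3 using hdet
  refine ⟨fun t ω => if ω ∈ XKC_G X r then y ω t else 0, fun t => ?_, fun ω => ?_, fun m j => ?_⟩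
  · refine measurable_of_tendsto_metrizable
      (f := fun m => (XKC_G X r).indicator (X m ⌊2 ^ m * t⌋₊))
      (fun m => (hm' _ _).indicator hG) ?_
    rw [tendsto_pi_nhds]
    intro ω
    by_cases h : ω ∈ XKC_G X r
    · simp only [Set.indicator_of_mem h, if_pos h]
      exact hy2 ω h t
    · simp only [Set.indicator_of_notMem h, if_neg h]
      exact tendsto_const_nhds
  · by_cases h : ω ∈ XKC_G X r
    · simp only [if_pos h]
      exact hy1 ω h
    · simp only [if_neg h]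
      exact continuous_const
  · filter_upwards [hae] with ω h
    simp only [if_pos h]
    exact hy3 ω h m j

end DynX

end

/-! ### from `Lib_MP_36b788x.XN2` -/

section

/-!
# Completion of a filtration

PROOF. `cmp P m` = all measurable `A` such that `A =ᵐ[P] A'` for some `m`-measurable `A'`. It is a σ-algebra (complements, countable unions:
`EventuallyEq.compl`, `EventuallyEq.countable_iUnion`), contains `m` (if `m ≤ mΩ`) and all measurable null sets (`A' = ∅`), monotone in `m`. Independence: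
`P(A ∩ C) = P(A' ∩ C) = P A' P C = P A P C` (`Indep_iff`).
-/

open MeasureTheory ProbabilityTheory Filter Dyn
open scoped NNReal ENNReal Topology

namespace DynX

@[instance_reducible]
private def cmp {Ω : Type} {mΩ : MeasurableSpace Ω} (P : Measure Ω) (m : MeasurableSpace Ω) :
    MeasurableSpace Ω :=
  eventuallyMeasurableSpace m (ae P) ⊓ mΩ

private lemma cmp_iff {Ω : Type} {mΩ : MeasurableSpace Ω} (P : Measure Ω)
    (m : MeasurableSpace Ω) (A : Set Ω) :
    MeasurableSet[cmp P m] A ↔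
      (∃ A' : Set Ω, MeasurableSet[m] A' ∧ A =ᵐ[P] A') ∧ MeasurableSet[mΩ] A :=
  MeasurableSpace.measurableSet_inf

theorem exists_compl {Ω : Type} [mΩ : MeasurableSpace Ω] (P : Measure Ω) [IsProbabilityMeasure P]
    (𝒢 : Filtration ℝ≥0 mΩ) :
    ∃ ℱ : Filtration ℝ≥0 mΩ, (∀ t, 𝒢 t ≤ ℱ t) ∧
      (∀ (t : ℝ≥0) (A : Set Ω), MeasurableSet A → P A = 0 → MeasurableSet[ℱ t] A) ∧
      ∀ (t : ℝ≥0) (m : MeasurableSpace Ω), m ≤ mΩ → Indep (𝒢 t) m P → Indep (ℱ t) m P := by
  refine ⟨⟨fun t => cmp P (𝒢 t), ?_, ?_⟩, ?_, ?_, ?_⟩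
  · intro s t hst A hA
    change MeasurableSet[cmp P (𝒢 s)] A at hA
    change MeasurableSet[cmp P (𝒢 t)] A
    rw [cmp_iff] at hA ⊢
    obtain ⟨⟨A', hA', hAA'⟩, hA2⟩ := hA
    exact ⟨⟨A', 𝒢.mono hst _ hA', hAA'⟩, hA2⟩
  · intro t
    exact inf_le_right
  · intro t A hA
    change MeasurableSet[cmp P (𝒢 t)] A
    rw [cmp_iff]
    exact ⟨⟨A, hA, EventuallyEq.rfl⟩, 𝒢.le t _ hA⟩
  · intro t A hA hPA
    change MeasurableSet[cmp P (𝒢 t)] A
    rw [cmp_iff]
    exact ⟨⟨∅, @MeasurableSet.empty _ (𝒢 t), (ae_eq_empty.2 hPA)⟩, hA⟩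
  · intro t m hm hind
    change Indep (cmp P (𝒢 t)) m P
    rw [Indep_iff] at hind ⊢
    intro A C hA hC
    rw [cmp_iff] at hA
    obtain ⟨⟨A', hA', hAA'⟩, hA2⟩ := hA
    rw [measure_congr hAA', measure_congr (hAA'.inter (EventuallyEq.refl _ C))]
    exact hind A' C hA' hC

/-- a measurable function which is a.e. equal to an `ℱ t`-measurable one is `ℱ t`-measurable -/
theorem meas_compl {Ω : Type} [mΩ : MeasurableSpace Ω] (P : Measure Ω)
    (m : MeasurableSpace Ω) (hm' : m ≤ mΩ)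
    (hc : ∀ A : Set Ω, MeasurableSet[mΩ] A → P A = 0 → MeasurableSet[m] A) {V : Type}
    [MeasurableSpace V] (f g : Ω → V) (hf : Measurable[mΩ] f) (hg : Measurable[m] g)
    (hfg : f =ᵐ[P] g) : Measurable[m] f := by
  intro s hs
  have h1 : MeasurableSet[mΩ] (f ⁻¹' s) := hf hs
  have h2 : MeasurableSet[m] (g ⁻¹' s) := hg hs
  have h3 : MeasurableSet[mΩ] (g ⁻¹' s) := hm' _ h2
  have hN : P {ω | f ω ≠ g ω} = 0 := hfg
  have h4 : MeasurableSet[m] (f ⁻¹' s \ g ⁻¹' s) := by
    refine hc _ (h1.diff h3) (measure_mono_null ?_ hN)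
    rintro ω ⟨ha, hb⟩ he
    exact hb (by change g ω ∈ s; rw [← he]; exact ha)
  have h5 : MeasurableSet[m] (g ⁻¹' s \ f ⁻¹' s) := by
    refine hc _ (h3.diff h1) (measure_mono_null ?_ hN)
    rintro ω ⟨ha, hb⟩ he
    exact hb (by change f ω ∈ s; rw [he]; exact ha)
  have h6 : f ⁻¹' s = (g ⁻¹' s \ (g ⁻¹' s \ f ⁻¹' s)) ∪ (f ⁻¹' s \ g ⁻¹' s) := by
    ext ω
    simp only [Set.mem_union, Set.mem_sdiff, Set.mem_preimage]
    tauto
  rw [h6]
  exact MeasurableSet.union (MeasurableSet.diff h2 h5) h4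

end DynX

end

/-! ### from `Lib_MP_36b788x.XIso` -/

section

/-!
# Pre-Brownian motion from an orthonormal basis

PROOF. `E0 = Lp ℝ 2 (volume : Measure ℝ)`. `exists_hilbertBasis ℝ E0` gives a Hilbert basis `b` indexed by a set `w`.
`Ω = w → ℝ`, `P = Measure.infinitePi (fun _ => gaussianReal 0 1)`. The coordinates `ζ i` are in `L²(P)`, orthonormal (independent, mean zero,
variance one). `W : E0 →ₗᵢ[ℝ] Lp ℝ 2 P`: composition of `b.repr` with `Orthonormal … .orthogonalFamily.linearIsometry`, or directly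
`W f = Σ' i, ⟪b i, f⟫ • ζ i` (summable, `OrthogonalFamily.hasSum_linearIsometry`).
Law of `W f` is `gaussianReal 0 ‖f‖²`: partial sums over a finset `s` have law `gaussianReal 0 (Σ_{i ∈ s} ⟪b i,f⟫²)` (characteristic function of
a sum of independent variables), `E exp(iu S_s) = exp(-u² Σ_{i∈s}⟪b i,f⟫²/2)`; `S_s → W f` in `L²`, so the left side converges to `E exp(iu W f)`
(`|e^{ia} - e^{ib}| ≤ |a-b|`) and the right side to `exp(-u²‖f‖²/2)` (Parseval); `Measure.ext_of_charFun`.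
`X t` = a measurable version of `W (indicatorConstLp (Ioc 0 t) 1)` (`Lp.stronglyMeasurable`). A linear combination of the `X t_j` is a.e. equal
to `W` of the linear combination, hence Gaussian: `X` is a Gaussian process (a law on `I → ℝ` is Gaussian if all continuous linear functionals are).
Mean zero, `cov = ⟪1_{(0,s]}, 1_{(0,t]}⟫ = s` for `s ≤ t`: `IsGaussianProcess.isPreBrownianReal_of_covariance`.
-/

open MeasureTheory ProbabilityTheory Filter Dyn
open scoped NNReal ENNReal Topology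

namespace DynX

section

variable {Ω : Type} [MeasurableSpace Ω] {P : Measure Ω}

private theorem xiso_sum {w : Type} {Z : w → Ω → ℝ}
    (hl : ∀ i, HasLaw (Z i) (gaussianReal 0 1) P) (hi : iIndepFun Z P) (c : w → ℝ)
    (s : Finset w) : HasGaussianLaw (fun ω => ∑ i ∈ s, c i * Z i ω) P := by
  have h1 : HasGaussianLaw (fun ω => ∑ i : s, c i * Z i ω) P := by
    refine iIndepFun.hasGaussianLaw_fun_sum (X := fun (i : s) ω => c i * Z i ω) (fun i => ?_) ?_
    · exact ((hl i).hasGaussianLaw).fun_smul (c i)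
    · have h2 : iIndepFun (fun (i : s) => Z i) P := hi.precomp Subtype.val_injective
      exact h2.comp (fun i x => c i * x) (fun i => by fun_prop)
  have h2 : (fun ω => ∑ i : s, c i * Z i ω) = fun ω => ∑ i ∈ s, c i * Z i ω := by
    funext ω
    exact Finset.sum_coe_sort s (fun i => c i * Z i ω)
  rwa [h2] at h1

private theorem xiso_coe {ι : Type} (s : Finset ι) (c : ι → ℝ) (g : ι → Lp ℝ 2 P) :
    ⇑(∑ i ∈ s, c i • g i) =ᵐ[P] fun ω => ∑ i ∈ s, c i * g i ω := by
  classical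
  induction s using Finset.induction_on with
  | empty =>
    simp only [Finset.sum_empty]
    exact Lp.coeFn_zero ℝ 2 P
  | insert a s ha ih =>
    rw [Finset.sum_insert ha]
    filter_upwards [Lp.coeFn_add (c a • g a) (∑ i ∈ s, c i • g i), Lp.coeFn_smul (c a) (g a), ih]
      with ω h1 h2 h3
    rw [h1, Pi.add_apply, h2, h3, Finset.sum_insert ha]
    rfl

private theorem xiso_sq (g : Lp ℝ 2 P) : ‖g‖ ^ 2 = ∫ ω, g ω ^ 2 ∂P := by
  rw [← real_inner_self_eq_norm_sq, L2.inner_def]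
  refine integral_congr_ae (Eventually.of_forall fun ω => ?_)
  show inner ℝ (g ω) (g ω) = g ω ^ 2
  rw [real_inner_self_eq_norm_sq, Real.norm_eq_abs, sq_abs]

variable [IsProbabilityMeasure P]

private noncomputable def xisoPhi (P : Measure Ω) (g : Lp ℝ 2 P) : ℂ :=
  ∫ ω, Complex.exp (Complex.I * (g ω : ℂ)) ∂P

private theorem xiso_int (g : Lp ℝ 2 P) :
    Integrable (fun ω => Complex.exp (Complex.I * (g ω : ℂ))) P := by
  have hm : Measurable (g : Ω → ℝ) := (Lp.stronglyMeasurable g).measurable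
  refine (integrable_const (1 : ℝ)).mono' (by fun_prop) (Eventually.of_forall fun ω => ?_)
  rw [mul_comm, Complex.norm_exp_ofReal_mul_I]

private theorem xiso_exp (a b : ℝ) :
    ‖Complex.exp (Complex.I * (a : ℂ)) - Complex.exp (Complex.I * (b : ℂ))‖ ≤ |a - b| := by
  have h1 : Complex.exp (Complex.I * (a : ℂ)) - Complex.exp (Complex.I * (b : ℂ)) =
      Complex.exp (Complex.I * (b : ℂ)) *
        (Complex.exp (Complex.I * ((a - b : ℝ) : ℂ)) - 1) := by
    rw [mul_sub, ← Complex.exp_add, mul_one]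
    congr 2
    push_cast
    ring
  rw [h1, norm_mul, mul_comm Complex.I (b : ℂ), Complex.norm_exp_ofReal_mul_I, one_mul]
  exact Real.norm_exp_I_mul_ofReal_sub_one_le

private theorem xiso_lip (g h : Lp ℝ 2 P) : ‖xisoPhi P g - xisoPhi P h‖ ≤ ‖g - h‖ := by
  have h0 : xisoPhi P g - xisoPhi P h = ∫ ω, (Complex.exp (Complex.I * (g ω : ℂ)) -
      Complex.exp (Complex.I * (h ω : ℂ))) ∂P := (integral_sub (xiso_int g) (xiso_int h)).symm
  have hL : MemLp (⇑(g - h)) 2 P := Lp.memLp (g - h)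
  have hL1 : Integrable (⇑(g - h)) P := hL.integrable (by norm_num)
  have h2 : (∫ ω, |(g - h : Lp ℝ 2 P) ω| ∂P) ≤ ‖g - h‖ := by
    have h3 : (∫ ω, |(g - h : Lp ℝ 2 P) ω| ∂P) = (eLpNorm (⇑(g - h)) 1 P).toReal := by
      rw [eLpNorm_one_eq_lintegral_enorm, ← integral_norm_eq_lintegral_enorm hL1.1]
      rfl
    rw [h3, Lp.norm_def]
    exact ENNReal.toReal_mono hL.2.ne (eLpNorm_le_eLpNorm_of_exponent_le (by norm_num) hL.1)
  rw [h0]
  refine (norm_integral_le_integral_norm _).trans (le_trans (integral_mono_ae ?_ ?_ ?_) h2)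
  · exact ((xiso_int g).sub (xiso_int h)).norm
  · exact hL1.abs
  · filter_upwards [Lp.coeFn_sub g h] with ω hω
    rw [hω]
    exact xiso_exp _ _

private theorem xiso_cont : Continuous (xisoPhi P) := by
  have h1 : LipschitzWith 1 (xisoPhi P) := LipschitzWith.of_dist_le_mul fun g h => by
    rw [NNReal.coe_one, one_mul, dist_eq_norm, dist_eq_norm]
    exact xiso_lip g h
  exact h1.continuous

private theorem xiso_gauss {g : Lp ℝ 2 P} (hg : HasGaussianLaw g P) (h0 : ∫ ω, g ω ∂P = 0) :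
    xisoPhi P g = Complex.exp (-((‖g‖ ^ 2 / 2 : ℝ) : ℂ)) := by
  have hm : Measurable (g : Ω → ℝ) := (Lp.stronglyMeasurable g).measurable
  have h1 := hg.map_eq_gaussianReal
  have h2 : Var[g; P] = ‖g‖ ^ 2 := by
    rw [variance_of_integral_eq_zero hm.aemeasurable h0, xiso_sq]
  have h3 : xisoPhi P g = charFun (P.map g) 1 := by
    rw [charFun_apply_real, integral_map hm.aemeasurable (by fun_prop)]
    refine integral_congr_ae (Eventually.of_forall fun ω => ?_)
    show Complex.exp _ = Complex.exp _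
    congr 1
    push_cast
    ring
  rw [h3, h1, charFun_gaussianReal, h0, h2]
  congr 1
  have h4 : ((Real.toNNReal (‖g‖ ^ 2) : ℝ≥0) : ℂ) = ((‖g‖ ^ 2 : ℝ) : ℂ) := by
    show (((Real.toNNReal (‖g‖ ^ 2) : ℝ≥0) : ℝ) : ℂ) = ((‖g‖ ^ 2 : ℝ) : ℂ)
    rw [Real.coe_toNNReal (‖g‖ ^ 2) (by positivity)]
  rw [h4]
  push_cast
  ring

private theorem xiso_law {w : Type} {Z : w → Ω → ℝ}
    (hl : ∀ i, HasLaw (Z i) (gaussianReal 0 1) P) (hi : iIndepFun Z P)
    (ζ : w → Lp ℝ 2 P) (hζ : ∀ i, ζ i =ᵐ[P] Z i) {a : w → ℝ} {g : Lp ℝ 2 P}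
    (hs : HasSum (fun i => a i • ζ i) g) :
    xisoPhi P g = Complex.exp (-((‖g‖ ^ 2 / 2 : ℝ) : ℂ)) := by
  have hcl : IsClosed {g : Lp ℝ 2 P | xisoPhi P g = Complex.exp (-((‖g‖ ^ 2 / 2 : ℝ) : ℂ))} :=
    isClosed_eq xiso_cont (by fun_prop)
  refine hcl.mem_of_tendsto hs (Eventually.of_forall fun s => ?_)
  have h1 : ⇑(∑ i ∈ s, a i • ζ i) =ᵐ[P] fun ω => ∑ i ∈ s, a i * Z i ω := by
    have h2 : ∀ᵐ ω ∂P, ∀ i ∈ s, ζ i ω = Z i ω :=
      (ae_ball_iff s.countable_toSet).2 fun i _ => hζ i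
    filter_upwards [xiso_coe s a ζ, h2] with ω h3 h4
    rw [h3]
    exact Finset.sum_congr rfl fun i hi => by rw [h4 i hi]
  refine xiso_gauss ((xiso_sum hl hi a s).congr h1.symm) ?_
  rw [integral_congr_ae h1, integral_finsetSum]
  · refine Finset.sum_eq_zero fun i _ => ?_
    rw [integral_const_mul, (hl i).integral_eq, integral_id_gaussianReal, mul_zero]
  · intro i _
    exact ((hl i).hasGaussianLaw.integrable).const_mul _

end

theorem exists_prebm : ∃ (Ω : Type) (_ : MeasurableSpace Ω) (P : Measure Ω) (X : ℝ≥0 → Ω → ℝ),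
    IsProbabilityMeasure P ∧ (∀ t, Measurable (X t)) ∧ IsPreBrownianReal X P := by
  obtain ⟨w, b, -⟩ := exists_hilbertBasis ℝ (Lp ℝ 2 (volume : Measure ℝ))
  obtain ⟨Ω, mΩ, P, Z, hm, hl, hi, hP⟩ := exists_iid w (gaussianReal 0 1)
  have hL : ∀ i, MemLp (Z i) 2 P := fun i => (hl i).hasGaussianLaw.memLp_two
  have hmean : ∀ i, ∫ ω, Z i ω ∂P = 0 := fun i => by
    rw [(hl i).integral_eq, integral_id_gaussianReal]
  let ζ : w → Lp ℝ 2 P := fun i => (hL i).toLp (Z i)
  have hζ : ∀ i, ζ i =ᵐ[P] Z i := fun i => (hL i).coeFn_toLp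
  have hin : ∀ i j, inner ℝ (ζ i) (ζ j) = ∫ ω, Z i ω * Z j ω ∂P := by
    intro i j
    rw [L2.inner_def]
    refine integral_congr_ae ?_
    filter_upwards [hζ i, hζ j] with ω h1 h2
    rw [h1, h2]
    exact mul_comm _ _
  have hvar : ∀ i, ∫ ω, Z i ω * Z i ω ∂P = 1 := by
    intro i
    have h1 : Var[Z i; P] = 1 := by
      rw [(hl i).variance_eq, variance_id_gaussianReal]
      rfl
    rw [variance_of_integral_eq_zero (hm i).aemeasurable (hmean i)] at h1
    rw [← h1]
    exact integral_congr_ae (Eventually.of_forall fun ω => (sq (Z i ω)).symm)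
  have horth : Orthonormal ℝ ζ := by
    refine ⟨fun i => ?_, fun i j hij => ?_⟩
    · have h1 := hin i i
      rw [real_inner_self_eq_norm_sq, hvar] at h1
      nlinarith [norm_nonneg (ζ i)]
    · show inner ℝ (ζ i) (ζ j) = 0
      rw [hin]
      have h1 := (hi.indepFun hij).integral_mul_eq_mul_integral (hm i).aestronglyMeasurable
        (hm j).aestronglyMeasurable
      have h2 : ∫ ω, Z i ω * Z j ω ∂P = (∫ ω, Z i ω ∂P) * ∫ ω, Z j ω ∂P := h1
      rw [h2, hmean, zero_mul]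
  let W : Lp ℝ 2 (volume : Measure ℝ) →ₗᵢ[ℝ] Lp ℝ 2 P :=
    horth.orthogonalFamily.linearIsometry.comp b.repr.toLinearIsometry
  have hphi : ∀ f, xisoPhi P (W f) = Complex.exp (-((‖f‖ ^ 2 / 2 : ℝ) : ℂ)) := by
    intro f
    have h1 := horth.orthogonalFamily.hasSum_linearIsometry (b.repr f)
    have h2 : HasSum (fun i => (b.repr f i) • ζ i) (W f) := h1
    rw [xiso_law hl hi ζ hζ h2, W.norm_map]
  have hWm : ∀ f, Measurable (W f : Ω → ℝ) := fun f => (Lp.stronglyMeasurable (W f)).measurable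
  have hlaw : ∀ f, P.map (W f) = gaussianReal 0 (Real.toNNReal (‖f‖ ^ 2)) := by
    intro f
    have : IsProbabilityMeasure (P.map (W f)) := Measure.isProbabilityMeasure_map (hWm f).aemeasurable
    refine Measure.ext_of_charFun ?_
    funext u
    have h1 : charFun (P.map (W f)) u = xisoPhi P (W (u • f)) := by
      rw [charFun_apply_real, integral_map (hWm f).aemeasurable (by fun_prop)]
      refine integral_congr_ae ?_
      have h2 : W (u • f) = u • W f := W.map_smul u f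
      rw [h2]
      filter_upwards [Lp.coeFn_smul u (W f)] with ω h3
      rw [h3]
      congr 1
      simp only [Pi.smul_apply, smul_eq_mul]
      push_cast
      ring
    rw [h1, hphi, charFun_gaussianReal, norm_smul]
    congr 1
    have h4 : ((Real.toNNReal (‖f‖ ^ 2) : ℝ≥0) : ℂ) = ((‖f‖ ^ 2 : ℝ) : ℂ) := by
      show (((Real.toNNReal (‖f‖ ^ 2) : ℝ≥0) : ℝ) : ℂ) = ((‖f‖ ^ 2 : ℝ) : ℂ)
      rw [Real.coe_toNNReal (‖f‖ ^ 2) (by positivity)]
    rw [h4]
    have h5 : (‖u‖ * ‖f‖) ^ 2 = u ^ 2 * ‖f‖ ^ 2 := by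
      rw [mul_pow, Real.norm_eq_abs, sq_abs]
    rw [h5]
    push_cast
    ring
  let J : ℝ≥0 → Lp ℝ 2 (volume : Measure ℝ) := fun t =>
    indicatorConstLp 2 (measurableSet_Ioc (a := (0 : ℝ)) (b := (t : ℝ)))
      (by simp) (1 : ℝ)
  have hJ : ∀ s t : ℝ≥0, s ≤ t → inner ℝ (J s) (J t) = (s : ℝ) := by
    intro s t hst
    have h1 : inner ℝ (J s) (J t) = volume.real (Set.Ioc (0 : ℝ) s ∩ Set.Ioc (0 : ℝ) t) :=
      L2.real_inner_indicatorConstLp_one_indicatorConstLp_one measurableSet_Ioc measurableSet_Ioc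
        _ _
    have h2 : (s : ℝ) ≤ t := hst
    rw [h1, Set.Ioc_inter_Ioc, max_self, min_eq_left h2, Real.volume_real_Ioc_of_le (NNReal.coe_nonneg s), sub_zero]
  have hmean' : ∀ f, ∫ ω, W f ω ∂P = 0 := by
    intro f
    have h1 : ∫ x, x ∂(P.map (W f)) = ∫ ω, W f ω ∂P :=
      integral_map (hWm f).aemeasurable (f := fun x : ℝ => x) measurable_id.aestronglyMeasurable
    rw [← h1, hlaw, integral_id_gaussianReal]
  refine ⟨Ω, mΩ, P, fun t => W (J t), hP, fun t => hWm _, ?_⟩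
  refine IsGaussianProcess.isPreBrownianReal_of_covariance ⟨fun I => ⟨?_⟩⟩ (fun t => ?_)
    (fun s t hst => ?_)
  · refine isGaussian_of_map_eq_gaussianReal fun L => ?_
    let c : I → ℝ := fun i => L (fun j => if i = j then 1 else 0)
    have hF : Measurable (fun ω => I.restrict fun x => W (J x) ω) :=
      measurable_pi_lambda _ fun i => hWm _
    refine ⟨0, Real.toNNReal (‖∑ i : I, c i • J i‖ ^ 2), ?_⟩
    rw [← hlaw, Measure.map_map (by fun_prop) hF]
    refine Measure.map_congr ?_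
    have h1 : W (∑ i : I, c i • J i) = ∑ i : I, c i • W (J i) := by
      rw [map_sum]
      exact Finset.sum_congr rfl fun i _ => W.map_smul _ _
    rw [h1]
    filter_upwards [xiso_coe Finset.univ c (fun i : I => W (J i))] with ω h2
    rw [h2]
    have h3 := LinearMap.pi_apply_eq_sum_univ L.toLinearMap (I.restrict fun t => W (J t) ω)
    refine h3.trans (Finset.sum_congr rfl fun i _ => ?_)
    exact mul_comm _ _
  · exact hmean' _
  · rw [covariance_eq_sub (Lp.memLp _) (Lp.memLp _)]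
    have h1 : P[fun ω => W (J s) ω] = 0 := hmean' _
    have h2 : P[(fun ω => W (J s) ω) * fun ω => W (J t) ω] = inner ℝ (W (J s)) (W (J t)) := by
      rw [L2.inner_def]
      refine integral_congr_ae (Eventually.of_forall fun ω => ?_)
      exact mul_comm _ _
    have h3 : inner ℝ (W (J s)) (W (J t)) = (s : ℝ) := by
      rw [W.inner_map_map]
      exact hJ s t hst
    rw [h1, zero_mul, sub_zero, h2, h3]

end DynX

end

/-! ### from `Lib_MP_36b788x.XBM` -/

section

/-!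
# Brownian motion

PROOF. `kc` with `X m j = B (j * hm m)` (consistency is exact: `2 j hm (m+1) = j hm m`), `B_t - B_s ~ N(0, |t-s|)` (`IsPreBrownianReal.hasLaw_sub`), fourth
moment of `N(0,v)` is `3 v²` (scaling of the standard normal; any finite constant will do). `Y` continuous, `Y t = B t` a.s. for dyadic `t`. For
general `t`: dyadic `t_n → t`, `Y t_n → Y t` surely, `B t_n → B t` in `L⁴`, so both limits in measure agree
(`tendstoInMeasure_ae_unique`). `IsPreBrownianReal.congr`.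
-/

open MeasureTheory ProbabilityTheory Filter Dyn
open scoped NNReal ENNReal Topology

namespace DynX

private theorem g4_fin : ∫⁻ x, ENNReal.ofReal (‖x‖ ^ 4) ∂(gaussianReal 0 1) ≠ ∞ := by
  have h : Integrable (fun x : ℝ => ‖x‖ ^ 4) (gaussianReal 0 1) := by
    have h1 := (memLp_id_gaussianReal (μ := 0) (v := 1) 4).integrable_norm_pow (by norm_num)
    simpa using h1
  exact h.lintegral_lt_top.ne

private theorem g4 (v : ℝ≥0) : ∫⁻ x, ENNReal.ofReal (‖x‖ ^ 4) ∂(gaussianReal 0 v) =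
    ENNReal.ofReal ((v : ℝ) ^ 2) * ∫⁻ x, ENNReal.ofReal (‖x‖ ^ 4) ∂(gaussianReal 0 1) := by
  have h : gaussianReal 0 v = (gaussianReal 0 1).map (Real.sqrt v * ·) := by
    rw [gaussianReal_map_const_mul]
    congr 1
    · simp
    · ext
      simp
  rw [h, lintegral_map (by fun_prop) (by fun_prop), ← lintegral_const_mul _ (by fun_prop)]
  congr 1 with x
  rw [← ENNReal.ofReal_mul (by positivity), norm_mul, mul_pow]
  congr 2
  rw [Real.norm_of_nonneg (Real.sqrt_nonneg _)]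
  have h2 : Real.sqrt (v : ℝ) ^ 2 = v := Real.sq_sqrt v.2
  calc Real.sqrt (v : ℝ) ^ 4 = (Real.sqrt (v : ℝ) ^ 2) ^ 2 := by ring
    _ = (v : ℝ) ^ 2 := by rw [h2]

theorem exists_bm : ∃ (Ω : Type) (_ : MeasurableSpace Ω) (P : Measure Ω) (W : ℝ≥0 → Ω → ℝ),
    IsProbabilityMeasure P ∧ (∀ t, Measurable (W t)) ∧ IsBrownianReal W P := by
  obtain ⟨Ω, mΩ, P, B, hP, hBm, hB⟩ := exists_prebm
  set K : ℝ≥0∞ := ∫⁻ x, ENNReal.ofReal (‖x‖ ^ 4) ∂(gaussianReal 0 1) with hK
  have hKf : K ≠ ∞ := g4_fin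
  have h4 : ∀ s t : ℝ≥0, ∫⁻ ω, ENNReal.ofReal (‖B s ω - B t ω‖ ^ 4) ∂P =
      ENNReal.ofReal ((dist (s : ℝ) t) ^ 2) * K := by
    intro s t
    have h1 := (hB.hasLaw_sub s t).lintegral_comp (f := fun x => ENNReal.ofReal (‖x‖ ^ 4))
      (by fun_prop)
    rw [g4] at h1
    exact h1
  obtain ⟨Y, hYm, hYc, hY⟩ := kc P (fun m j => B (j * hm m)) (fun m j => hBm _)
    (fun m j => by
      have h1 : ((2 * j : ℕ) : ℝ≥0) * hm (m + 1) = j * hm m := by
        simp only [hm, pow_succ]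
        push_cast
        field_simp
      simp only [h1]
      exact Filter.EventuallyEq.rfl)
    (fun T => ⟨K.toReal, fun m j _ => by
      have h1 := h4 (((j + 1 : ℕ) : ℝ≥0) * hm m) ((j : ℝ≥0) * hm m)
      rw [h1]
      have h2 : dist ((((j + 1 : ℕ) : ℝ≥0) * hm m : ℝ≥0) : ℝ) (((j : ℝ≥0) * hm m : ℝ≥0) : ℝ)
          = (1 / 2) ^ m := by
        rw [Real.dist_eq]
        simp only [hm]
        push_cast
        rw [show ((j : ℝ) + 1) * (1 / 2) ^ m - j * (1 / 2) ^ m = (1 / 2) ^ m by ring]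
        exact abs_of_nonneg (by positivity)
      rw [h2, mul_comm, ENNReal.ofReal_mul ENNReal.toReal_nonneg, ENNReal.ofReal_toReal hKf]⟩)
  refine ⟨Ω, mΩ, P, Y, hP, hYm, ?_⟩
  have hmod : ∀ t, B t =ᵐ[P] Y t := by
    intro t
    set u : ℕ → ℝ≥0 := fun n => (⌊2 ^ n * t⌋₊ : ℝ≥0) * hm n with hu
    have hud : ∀ n, dist (u n : ℝ) t ≤ (1 / 2) ^ n := by
      intro n
      have h2 : (0 : ℝ) < 2 ^ n := by positivity
      have e1 : (u n : ℝ) = (⌊2 ^ n * t⌋₊ : ℝ) / 2 ^ n := by
        simp only [hu, hm]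
        push_cast
        rw [one_div, inv_pow]
        rfl
      have h3 : ((⌊2 ^ n * t⌋₊ : ℝ≥0) : ℝ) ≤ 2 ^ n * t := by
        have := Nat.floor_le (a := 2 ^ n * t) (by positivity)
        exact_mod_cast this
      have h4' : (2 : ℝ) ^ n * t < ((⌊2 ^ n * t⌋₊ : ℝ≥0) : ℝ) + 1 := by
        have := Nat.lt_floor_add_one (2 ^ n * t)
        exact_mod_cast this
      simp only [NNReal.coe_natCast] at h3 h4'
      rw [Real.dist_eq, e1, one_div, inv_pow, abs_le]
      constructor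
      · rw [neg_le_sub_iff_le_add, div_add' _ _ _ h2.ne', inv_mul_cancel₀ h2.ne',
          le_div_iff₀ h2]
        linarith
      · rw [sub_le_iff_le_add, div_le_iff₀ h2, add_mul, inv_mul_cancel₀ h2.ne']
        linarith
    have hut : Tendsto u atTop (𝓝 t) := by
      rw [← NNReal.tendsto_coe, tendsto_iff_dist_tendsto_zero]
      exact squeeze_zero (fun _ => dist_nonneg) hud
        (tendsto_pow_atTop_nhds_zero_of_lt_one (by norm_num) (by norm_num))
    have hYt : TendstoInMeasure P (fun n => Y (u n)) atTop (Y t) :=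
      tendstoInMeasure_of_tendsto_ae (fun n => (hYm _).aestronglyMeasurable)
        (Eventually.of_forall fun ω => ((hYc ω).tendsto t).comp hut)
    have hYB : TendstoInMeasure P (fun n => B (u n)) atTop (Y t) :=
      hYt.congr (fun n => hY n ⌊2 ^ n * t⌋₊) Filter.EventuallyEq.rfl
    have hBt : TendstoInMeasure P (fun n => B (u n)) atTop (B t) := by
      refine tendstoInMeasure_of_tendsto_eLpNorm (p := 4) (by norm_num)
        (fun n => (hBm _).aestronglyMeasurable) (hBm _).aestronglyMeasurable ?_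
      have e1 : ∀ n, eLpNorm (B (u n) - B t) 4 P =
          (ENNReal.ofReal ((dist (u n : ℝ) t) ^ 2) * K) ^ (1 / (4 : ℝ)) := by
        intro n
        rw [← h4, eLpNorm_eq_lintegral_rpow_enorm_toReal (by norm_num) (by norm_num)]
        congr 2
        · ext ω
          rw [ENNReal.ofReal_pow (norm_nonneg _), ofReal_norm]
          simp only [Pi.sub_apply, ENNReal.toReal_ofNat]
          exact_mod_cast ENNReal.rpow_natCast _ 4
      simp only [e1]
      have h5 : Tendsto (fun n => ENNReal.ofReal ((dist (u n : ℝ) t) ^ 2) * K) atTop (𝓝 0) := by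
        have h6 : Tendsto (fun n => ENNReal.ofReal ((dist (u n : ℝ) t) ^ 2)) atTop (𝓝 0) := by
          have h7 : Tendsto (fun n => (dist (u n : ℝ) t) ^ 2) atTop (𝓝 0) := by
            have h8 : Tendsto (fun n => dist (u n : ℝ) t) atTop (𝓝 0) :=
              squeeze_zero (fun _ => dist_nonneg) hud
                (tendsto_pow_atTop_nhds_zero_of_lt_one (by norm_num) (by norm_num))
            simpa using h8.pow 2
          have h9 := (ENNReal.continuous_ofReal.tendsto 0).comp h7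
          rw [ENNReal.ofReal_zero] at h9
          exact h9
        have h9 := ENNReal.Tendsto.mul_const h6 (Or.inr hKf)
        rw [zero_mul] at h9
        exact h9
      have h10 := (ENNReal.continuous_rpow_const (y := (1 / (4 : ℝ)))).tendsto 0 |>.comp h5
      rw [ENNReal.zero_rpow_of_pos (by norm_num)] at h10
      exact h10
    exact tendstoInMeasure_ae_unique hBt hYB
  exact { toIsPreBrownianReal := hB.congr hmod
          cont := Eventually.of_forall hYc }

end DynX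

end

/-! ### from `Lib_MP_36b788x.XN1` -/

section

/-!
# Products: independence across coordinates

PROOF. `X q`, `Y q` are independent under `μ` for the single factor. Law of `ω ↦ (q ↦ (f (ω q), g (ω q)))` under `infinitePi μ` is `infinitePi` of the law of
`(f, g)` (`Measure.infinitePi_map` or `Measure.eq_infinitePi` on boxes), which is `infinitePi (law f ⊗ law g)` (`indepFun_iff_map_prod_eq_prod_map_map`).
The image of `infinitePi (α ⊗ β)` under `h ↦ (q ↦ (h q).1, q ↦ (h q).2)` is `infinitePi α ⊗ infinitePi β`: compare on boxes, compare with the proof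
of `VM0_map` in `Lib_MP_36b788c/VM0.lean` (the inverse map pushes `infinitePi α ⊗ infinitePi β` to `infinitePi (α ⊗ β)`). So the pair
`(q ↦ f (ω q), q ↦ g (ω q))` has a product law. Finally an independent third factor `H : S` (first coordinate of the product `ν ⊗ infinitePi μ`) is added to `f`:
`P(ω.1 ∈ A, f-part ∈ A', g-part ∈ B) = ν A · P(f-part ∈ A') · P(g-part ∈ B)`, `indepFun` from the generating π-system of rectangles, or
`Measure.prod` associativity.
-/

open MeasureTheory ProbabilityTheory Filter Dyn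
open scoped NNReal ENNReal Topology

namespace DynX

private theorem XN1_lint_prod {Q X : Type} [MeasurableSpace X] (μ : Measure X)
    [IsProbabilityMeasure μ] (s : Finset Q) (g : Q → X → ℝ≥0∞) (hg : ∀ i, Measurable (g i)) :
    ∫⁻ ω, ∏ i ∈ s, g i (ω i) ∂(Measure.infinitePi (fun _ : Q => μ)) =
      ∏ i ∈ s, ∫⁻ x, g i x ∂μ := by
  have h1 : iIndepFun (fun (i : Q) (ω : Q → X) => g i (ω i))
      (Measure.infinitePi (fun _ : Q => μ)) :=
    iIndepFun_infinitePi (X := g) (fun i => hg i)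
  rw [lintegral_prod_eq_prod_lintegral_of_indepFun s _ h1
    (fun i => (hg i).comp (measurable_pi_apply i))]
  refine Finset.prod_congr rfl fun i _ => ?_
  rw [← lintegral_map (hg i) (measurable_pi_apply i)]
  have h2 : (Measure.infinitePi (fun _ : Q => μ)).map (fun x : Q → X => x i) = μ :=
    Measure.infinitePi_map_eval (fun _ : Q => μ) i
  rw [h2]

private theorem XN1_meas_pair {Q X Y : Type} [MeasurableSpace X] [MeasurableSpace Y] :
    Measurable fun q : (Q → X) × (Q → Y) => fun j : Q => (q.1 j, q.2 j) := by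
  refine measurable_pi_iff.mpr fun j => ?_
  exact ((measurable_pi_apply j).comp measurable_fst).prodMk
    ((measurable_pi_apply j).comp measurable_snd)

private theorem XN1_map {Q X Y : Type} [MeasurableSpace X] [MeasurableSpace Y] (μ : Measure X)
    (ν : Measure Y) [IsProbabilityMeasure μ] [IsProbabilityMeasure ν] :
    ((Measure.infinitePi (fun _ : Q => μ)).prod (Measure.infinitePi (fun _ : Q => ν))).map
        (fun q : (Q → X) × (Q → Y) => fun j : Q => (q.1 j, q.2 j)) =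
      Measure.infinitePi (fun _ : Q => μ.prod ν) := by
  refine Measure.eq_infinitePi _ ?_
  intro s t ht
  have hbox := MeasurableSet.pi s.countable_toSet (fun i _ => ht i)
  rw [Measure.map_apply XN1_meas_pair hbox, Measure.prod_apply (XN1_meas_pair hbox)]
  have h1 : ∀ ω : Q → X, (Measure.infinitePi (fun _ : Q => ν)) (Prod.mk ω ⁻¹'
      ((fun q : (Q → X) × (Q → Y) => fun j : Q => (q.1 j, q.2 j)) ⁻¹' ((s : Set Q).pi t))) =
      ∏ i ∈ s, ν (Prod.mk (ω i) ⁻¹' t i) := by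
    intro ω
    have h2 : (Prod.mk ω ⁻¹'
      ((fun q : (Q → X) × (Q → Y) => fun j : Q => (q.1 j, q.2 j)) ⁻¹' ((s : Set Q).pi t))) =
      (s : Set Q).pi (fun i => Prod.mk (ω i) ⁻¹' t i) := by
      ext ω'
      simp only [Set.mem_preimage, Set.mem_pi]
    rw [h2]
    exact Measure.infinitePi_pi _ (fun i _ => measurable_prodMk_left (ht i))
  rw [lintegral_congr h1]
  rw [XN1_lint_prod μ s (fun i x => ν (Prod.mk x ⁻¹' t i))
    (fun i => measurable_measure_prodMk_left (ht i))]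
  refine Finset.prod_congr rfl fun i _ => ?_
  rw [Measure.prod_apply (ht i)]

private theorem XN1_law {Q Ω1 F G : Type} [MeasurableSpace Ω1]
    [MeasurableSpace F] [MeasurableSpace G] (μ : Measure Ω1) [IsProbabilityMeasure μ]
    (f : Ω1 → F) (g : Ω1 → G) (hf : Measurable f)
    (hg : Measurable g) (hfg : IndepFun f g μ) :
    (Measure.infinitePi (fun _ : Q => μ)).map
        (fun ω : Q → Ω1 => ((fun q => f (ω q)), (fun q => g (ω q)))) =
      (Measure.infinitePi (fun _ : Q => μ.map f)).prod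
        (Measure.infinitePi (fun _ : Q => μ.map g)) := by
  have i1 : IsProbabilityMeasure (μ.map f) := Measure.isProbabilityMeasure_map hf.aemeasurable
  have i2 : IsProbabilityMeasure (μ.map g) := Measure.isProbabilityMeasure_map hg.aemeasurable
  have hT : Measurable fun x : Ω1 => (f x, g x) := hf.prodMk hg
  have hlaw : μ.map (fun x => (f x, g x)) = (μ.map f).prod (μ.map g) :=
    (indepFun_iff_map_prod_eq_prod_map_map hf.aemeasurable hg.aemeasurable).1 hfg
  have h1 : (Measure.infinitePi (fun _ : Q => μ)).map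
      (fun ω : Q → Ω1 => fun q => (f (ω q), g (ω q))) =
      Measure.infinitePi (fun _ : Q => (μ.map f).prod (μ.map g)) := by
    rw [← hlaw]
    exact Measure.infinitePi_map_pi (fun _ : Q => μ) (f := fun _ x => (f x, g x)) (fun _ => hT)
  have hU : Measurable fun h : Q → F × G => ((fun q => (h q).1), (fun q => (h q).2)) := by
    refine Measurable.prodMk ?_ ?_
    · exact measurable_pi_iff.mpr fun j => measurable_fst.comp (measurable_pi_apply j)
    · exact measurable_pi_iff.mpr fun j => measurable_snd.comp (measurable_pi_apply j)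
  have hM : Measurable fun ω : Q → Ω1 => fun q => (f (ω q), g (ω q)) :=
    measurable_pi_iff.mpr fun j => hT.comp (measurable_pi_apply j)
  have h2 := congrArg (Measure.map fun h : Q → F × G =>
    ((fun q => (h q).1), (fun q => (h q).2))) h1
  rw [Measure.map_map hU hM, ← XN1_map, Measure.map_map hU XN1_meas_pair] at h2
  have h3 : ((fun h : Q → F × G => ((fun q => (h q).1), (fun q => (h q).2))) ∘
      fun q : (Q → F) × (Q → G) => fun j : Q => (q.1 j, q.2 j)) = id := by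
    funext x
    rfl
  rw [h3, Measure.map_id] at h2
  exact h2

theorem indep_prod {Q Ω1 S F G : Type} [MeasurableSpace Ω1] [MeasurableSpace S]
    [MeasurableSpace F] [MeasurableSpace G] (μ : Measure Ω1) [IsProbabilityMeasure μ]
    (ν : Measure S) [IsProbabilityMeasure ν] (f : Ω1 → F) (g : Ω1 → G) (hf : Measurable f)
    (hg : Measurable g) (hfg : IndepFun f g μ) :
    IndepFun (fun ω : S × (Q → Ω1) => (ω.1, fun q => f (ω.2 q)))
      (fun ω : S × (Q → Ω1) => fun q => g (ω.2 q))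
      (ν.prod (Measure.infinitePi (fun _ : Q => μ))) := by
  have i1 : IsProbabilityMeasure (μ.map f) := Measure.isProbabilityMeasure_map hf.aemeasurable
  have i2 : IsProbabilityMeasure (μ.map g) := Measure.isProbabilityMeasure_map hg.aemeasurable
  have mF : Measurable fun ω : Q → Ω1 => fun q => f (ω q) :=
    measurable_pi_iff.mpr fun j => hf.comp (measurable_pi_apply j)
  have mG : Measurable fun ω : Q → Ω1 => fun q => g (ω q) :=
    measurable_pi_iff.mpr fun j => hg.comp (measurable_pi_apply j)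
  have mX : Measurable fun ω : S × (Q → Ω1) => (ω.1, fun q => f (ω.2 q)) :=
    measurable_fst.prodMk (mF.comp measurable_snd)
  have mY : Measurable fun ω : S × (Q → Ω1) => fun q => g (ω.2 q) := mG.comp measurable_snd
  have lF : (Measure.infinitePi (fun _ : Q => μ)).map (fun ω : Q → Ω1 => fun q => f (ω q)) =
      Measure.infinitePi (fun _ : Q => μ.map f) :=
    Measure.infinitePi_map_pi (fun _ : Q => μ) (f := fun _ x => f x) (fun _ => hf)
  have lG : (Measure.infinitePi (fun _ : Q => μ)).map (fun ω : Q → Ω1 => fun q => g (ω q)) =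
      Measure.infinitePi (fun _ : Q => μ.map g) :=
    Measure.infinitePi_map_pi (fun _ : Q => μ) (f := fun _ x => g x) (fun _ => hg)
  rw [indepFun_iff_map_prod_eq_prod_map_map mX.aemeasurable mY.aemeasurable]
  have e1 : (ν.prod (Measure.infinitePi (fun _ : Q => μ))).map
      (fun ω : S × (Q → Ω1) => (ω.1, fun q => f (ω.2 q))) =
      ν.prod (Measure.infinitePi (fun _ : Q => μ.map f)) := by
    have h := (Measure.map_prod_map ν (Measure.infinitePi (fun _ : Q => μ)) measurable_id mF)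
    rw [Measure.map_id, lF] at h
    exact h.symm
  have e2 : (ν.prod (Measure.infinitePi (fun _ : Q => μ))).map
      (fun ω : S × (Q → Ω1) => fun q => g (ω.2 q)) =
      Measure.infinitePi (fun _ : Q => μ.map g) := by
    have h : (fun ω : S × (Q → Ω1) => fun q => g (ω.2 q)) =
        (fun ω : Q → Ω1 => fun q => g (ω q)) ∘ Prod.snd := rfl
    rw [h, ← Measure.map_map mG measurable_snd, Measure.map_snd_prod, measure_univ, one_smul, lG]
  rw [e1, e2]
  have mFG : Measurable fun ω : Q → Ω1 => ((fun q => f (ω q)), (fun q => g (ω q))) :=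
    mF.prodMk mG
  have h1 := (Measure.map_prod_map ν (Measure.infinitePi (fun _ : Q => μ)) measurable_id mFG)
  rw [Measure.map_id, XN1_law μ f g hf hg hfg, ← Measure.prodAssoc_prod] at h1
  have h2 := congrArg (Measure.map
    (MeasurableEquiv.prodAssoc : (S × (Q → F)) × (Q → G) ≃ᵐ S × (Q → F) × (Q → G)).symm) h1
  rw [Measure.map_map (MeasurableEquiv.measurable _) (MeasurableEquiv.measurable _),
    Measure.map_map (MeasurableEquiv.measurable _) (measurable_id.prodMap mFG)] at h2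
  have h3 : ((MeasurableEquiv.prodAssoc :
      (S × (Q → F)) × (Q → G) ≃ᵐ S × (Q → F) × (Q → G)).symm ∘
      (MeasurableEquiv.prodAssoc : (S × (Q → F)) × (Q → G) ≃ᵐ S × (Q → F) × (Q → G))) = id := by
    funext x
    rfl
  rw [h3, Measure.map_id] at h2
  rw [h2]
  rfl

end DynX

end

/-! ### from `Lib_MP_36b788x.XN3` -/

section

/-!
# Independent family of Brownian motions and initial field

PROOF. `(Ω1, P1, W)` from `exists_bm`, `Q = Site d × Fin N × Fin N`, `Ω = (Site d → E N) × (Q → Ω1)`,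
`P = (infinitePi fun _ => ρ).prod (infinitePi fun _ => P1)`, `B x i j t ω = W t (ω.2 (x, i, j))`, `H0 x ω = ω.1 x`.
* `brownian`: the map `ω ↦ ω.2 q` preserves measure (`P` to `P1`), so laws and the a.s. continuity carry over (`IsPreBrownianReal` is a
  statement about the laws: `HasLaw.comp` with the measure preserving projection).
* `indep`: coordinates of `infinitePi` are independent (`iIndepFun_infinitePi`), composed with `ω1 ↦ (t ↦ W t ω1)`, and the projection
  `Prod.snd` is measure preserving. Same for `H0` (`iIndepFun H0 P`, `P.map (H0 x) = ρ`).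
* raw filtration `𝒢 t = comap (fun ω => (ω.1, fun (q : Q) (r : Set.Iic t) => W r (ω.2 q))) inferInstance`: monotone because the map for `s ≤ t`
  factors through the map for `t`. `ℱ` from `exists_compl`.
* `indepInc`: `f = (W r)_{r ≤ s}` and `g = W t - W s` are independent under `P1` (`IsPreBrownianReal.indepFun_shift`), `indep_prod`,
  then `exists_compl`.
* `mom`: the law of `H0 x` is `ρ`.
-/

open MeasureTheory ProbabilityTheory Filter Dyn
open scoped NNReal ENNReal Topology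

namespace DynX

private theorem iIndep_mp {ι Ω Ω' X : Type} [MeasurableSpace Ω] [MeasurableSpace Ω']
    [MeasurableSpace X] (P : Measure Ω) (ν : Measure Ω') [IsProbabilityMeasure P]
    [IsProbabilityMeasure ν] (φ : Ω → Ω') (hφ : MeasurePreserving φ P ν) (f : ι → Ω' → X)
    (hf : ∀ i, Measurable (f i)) (h : iIndepFun f ν) :
    iIndepFun (fun i ω => f i (φ ω)) P := by
  have hm : Measurable (fun (ω : Ω') (i : ι) => f i ω) := measurable_pi_iff.2 hf
  refine (iIndepFun_iff_map_fun_eq_infinitePi_map (X := fun i ω => f i (φ ω))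
    (fun i => (hf i).comp hφ.measurable)).2 ?_
  have h1 := h.map_fun_eq_infinitePi_map hf
  have h2 : P.map (fun ω i => f i (φ ω)) = (P.map φ).map (fun ω i => f i ω) := by
    rw [Measure.map_map hm hφ.measurable]
    rfl
  have h3 : ∀ i, P.map (fun ω => f i (φ ω)) = ν.map (f i) := by
    intro i
    rw [← hφ.map_eq, Measure.map_map (hf i) hφ.measurable]
    rfl
  rw [h2, hφ.map_eq, h1]
  congr 1
  funext i
  exact (h3 i).symm

private theorem br_mp {Ω Ω' : Type} [MeasurableSpace Ω] [MeasurableSpace Ω']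
    (P : Measure Ω) (ν : Measure Ω') (φ : Ω → Ω') (hφ : MeasurePreserving φ P ν)
    (W : ℝ≥0 → Ω' → ℝ) (hW : IsBrownianReal W ν) :
    IsBrownianReal (fun t ω => W t (φ ω)) P := by
  refine { toIsPreBrownianReal := ⟨fun I => ?_⟩, cont := ?_ }
  · exact (hW.hasLaw I).comp hφ.hasLaw
  · exact hφ.quasiMeasurePreserving.ae hW.cont

theorem exists_noise (N d : ℕ) (ρ : Measure (E N)) [IsProbabilityMeasure ρ]
    (hρ : ∀ p : ℕ, Integrable (fun v : E N => ‖v‖ ^ p) ρ) :
    ∃ (Ω : Type) (mΩ : MeasurableSpace Ω) (P : Measure Ω) (ℱ : Filtration ℝ≥0 mΩ)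
      (B : Site d → Fin N → Fin N → ℝ≥0 → Ω → ℝ) (H0 : Site d → Ω → E N),
      Noise P ℱ B H0 ∧ iIndepFun H0 P ∧ ∀ x, P.map (H0 x) = ρ := by
  obtain ⟨Ω1, m1, P1, W, hP1, hWm, hW⟩ := exists_bm
  let P : Measure ((Site d → E N) × ((Site d × Fin N × Fin N) → Ω1)) :=
    (Measure.infinitePi (fun _ : Site d => ρ)).prod
      (Measure.infinitePi (fun _ : Site d × Fin N × Fin N => P1))
  have hPprob : IsProbabilityMeasure P := by
    change IsProbabilityMeasure ((Measure.infinitePi (fun _ : Site d => ρ)).prod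
      (Measure.infinitePi (fun _ : Site d × Fin N × Fin N => P1)))
    infer_instance
  have hsnd : MeasurePreserving (Prod.snd :
      (Site d → E N) × ((Site d × Fin N × Fin N) → Ω1) → _) P
      (Measure.infinitePi (fun _ : Site d × Fin N × Fin N => P1)) :=
    measurePreserving_snd
  have hfst : MeasurePreserving (Prod.fst :
      (Site d → E N) × ((Site d × Fin N × Fin N) → Ω1) → _) P
      (Measure.infinitePi (fun _ : Site d => ρ)) :=
    measurePreserving_fst
  have hq : ∀ q : Site d × Fin N × Fin N, MeasurePreserving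
      (fun ω : (Site d → E N) × ((Site d × Fin N × Fin N) → Ω1) => ω.2 q) P P1 := fun q =>
    (measurePreserving_eval_infinitePi (fun _ : Site d × Fin N × Fin N => P1) q).comp hsnd
  have hx : ∀ x : Site d, MeasurePreserving
      (fun ω : (Site d → E N) × ((Site d × Fin N × Fin N) → Ω1) => ω.1 x) P ρ := fun x =>
    (measurePreserving_eval_infinitePi (fun _ : Site d => ρ) x).comp hfst
  -- raw filtration
  let F : (t : ℝ≥0) → ((Site d → E N) × ((Site d × Fin N × Fin N) → Ω1)) →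
      (Site d → E N) × ((Site d × Fin N × Fin N) → Set.Iic t → ℝ) := fun t ω =>
    (ω.1, fun q r => W r (ω.2 q))
  have hFm : ∀ t, Measurable (F t) := by
    intro t
    refine measurable_fst.prodMk ?_
    refine measurable_pi_iff.2 fun q => measurable_pi_iff.2 fun r => ?_
    exact (hWm r).comp ((measurable_pi_apply q).comp measurable_snd)
  have hFst : ∀ s t : ℝ≥0, s ≤ t →
      Measurable[MeasurableSpace.comap (F t) inferInstance] (F s) := by
    intro s t hst
    let pr : (Site d → E N) × ((Site d × Fin N × Fin N) → Set.Iic t → ℝ) →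
      (Site d → E N) × ((Site d × Fin N × Fin N) → Set.Iic s → ℝ) := fun z =>
        (z.1, fun q r => z.2 q ⟨r.1, le_trans r.2 hst⟩)
    have hpr : Measurable pr := by
      refine measurable_fst.prodMk ?_
      refine measurable_pi_iff.2 fun q => measurable_pi_iff.2 fun r => ?_
      exact (measurable_pi_apply _).comp ((measurable_pi_apply q).comp measurable_snd)
    have h1 : F s = pr ∘ F t := rfl
    rw [h1]
    exact hpr.comp (comap_measurable (F t))
  let 𝒢 : Filtration ℝ≥0 (inferInstance :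
      MeasurableSpace ((Site d → E N) × ((Site d × Fin N × Fin N) → Ω1))) :=
    { seq := fun t => MeasurableSpace.comap (F t) inferInstance
      mono' := fun s t hst => (hFst s t hst).comap_le
      le' := fun t => (hFm t).comap_le }
  obtain ⟨ℱ, hGF, hcompl, hind⟩ := exists_compl P 𝒢
  refine ⟨_, _, P, ℱ, fun x i j t ω => W t (ω.2 (x, i, j)), fun x ω => ω.1 x, ?_, ?_, ?_⟩
  · refine
      { prob := hPprob
        brownian := fun x i j => br_mp P P1 _ (hq (x, i, j)) W hW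
        indep := ?_
        adaptB := ?_
        indepInc := ?_
        h0 := ?_
        mom := ?_
        compl := hcompl }
    · have h1 : iIndepFun (fun (q : Site d × Fin N × Fin N)
          (ω : (Site d × Fin N × Fin N) → Ω1) (t : ℝ≥0) => W t (ω q))
          (Measure.infinitePi (fun _ : Site d × Fin N × Fin N => P1)) :=
        iIndepFun_infinitePi (P := fun _ : Site d × Fin N × Fin N => P1)
          (X := fun _ ω t => W t ω) (fun _ => measurable_pi_iff.2 fun t => hWm t)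
      exact iIndep_mp P _ Prod.snd hsnd _ (fun q => measurable_pi_iff.2 fun t =>
        (hWm t).comp (measurable_pi_apply q)) h1
    · intro x i j t
      refine Measurable.mono ?_ (hGF t) le_rfl
      have h1 : Measurable (fun z : (Site d → E N) ×
          ((Site d × Fin N × Fin N) → Set.Iic t → ℝ) => z.2 (x, i, j) ⟨t, le_refl t⟩) :=
        (measurable_pi_apply (⟨t, le_refl t⟩ : Set.Iic t)).comp
          ((measurable_pi_apply (x, i, j)).comp measurable_snd)
      exact h1.comp (comap_measurable (F t))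
    · intro s t hst
      refine hind s _ ?_ ?_
      · refine Measurable.comap_le ?_
        refine measurable_pi_iff.2 fun q => ?_
        exact ((hWm t).comp ((measurable_pi_apply _).comp measurable_snd)).sub
          ((hWm s).comp ((measurable_pi_apply _).comp measurable_snd))
      · have h1 := hW.toIsPreBrownianReal.indepFun_shift s
        have hev : Measurable (fun h : ℝ≥0 → ℝ => h (t - s)) := measurable_pi_apply (t - s)
        have h2 : IndepFun (fun ω (r : Set.Iic s) => W r ω) (fun ω => W t ω - W s ω) P1 := by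
          have h3 := (h1.symm).comp (φ := id) (ψ := fun h : ℝ≥0 → ℝ => h (t - s))
            measurable_id hev
          have h4 : ((fun h : ℝ≥0 → ℝ => h (t - s)) ∘ fun ω u => W (s + u) ω - W s ω) =
              fun ω => W t ω - W s ω := by
            funext ω
            simp only [Function.comp_apply]
            rw [add_tsub_cancel_of_le hst]
          rw [h4] at h3
          exact h3
        have h5 := indep_prod (Q := Site d × Fin N × Fin N) P1
          (Measure.infinitePi (fun _ : Site d => ρ))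
          (fun ω (r : Set.Iic s) => W r ω) (fun ω => W t ω - W s ω)
          (measurable_pi_iff.2 fun r => hWm r) ((hWm t).sub (hWm s)) h2
        exact (IndepFun_iff_Indep _ _ _).1 h5
    · intro x
      refine Measurable.mono ?_ (hGF 0) le_rfl
      have h1 : Measurable (fun z : (Site d → E N) ×
          ((Site d × Fin N × Fin N) → Set.Iic (0 : ℝ≥0) → ℝ) => z.1 x) :=
        (measurable_pi_apply _).comp measurable_fst
      exact h1.comp (comap_measurable (F 0))
    · intro p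
      refine ⟨∫ v, ‖v‖ ^ p ∂ρ, fun x => ⟨?_, ?_⟩⟩
      · exact (hx x).integrable_comp_of_integrable (hρ p)
      · have h1 := (hx x).hasLaw.integral_comp (f := fun v : E N => ‖v‖ ^ p)
          (by fun_prop)
        exact le_of_eq h1
  · have h1 : iIndepFun (fun (x : Site d) (ω : Site d → E N) => ω x)
        (Measure.infinitePi (fun _ : Site d => ρ)) :=
      iIndepFun_infinitePi (P := fun _ : Site d => ρ)
        (X := fun _ ω => ω) (fun _ => measurable_id)
    exact iIndep_mp P _ Prod.fst hfst _ (fun x => measurable_pi_apply x) h1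
  · exact fun x => (hx x).map_eq

end DynX

end
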