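import Pool.Agent.Lib_MP_36b788_m.X1

/-!
# MP_36b788_pr, stationary limit: merged library part X3

Concatenation of smaller files (each in its own section), only to save build time.
-/

/-! ### from `Lib_MP_36b788x.XD` -/

section

/-!
# The drift

PROOF. `drf_mem`: `‖drf‖ ≤ k Σ ‖H‖ + ε ‖H‖ (1 + ‖H‖^{⌈β⌉})`, moments; continuity in `t` for a.e. `ω` (countably many sites), `tint_facts` (file `SdeR.lean`).
`drf_app`: with `g = ag n` at the step `h = hm m`: for `r ∈ [n h, (n+1) h]`, `E‖g x - drf(H_r) x‖² ≤ η m` with `η m → 0`, uniformly in `n`, `x`, `r`: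
`g x = k lap A x - ε b(J(A x + mulv ΔB A x))`, `drf(H_r) x = k lap H_r x - ε b(H_r x)` (`b v = ‖v‖^β v`); `E‖A y - H_r y‖² ≤ 2 (conv) + 2 (inc)`, `E‖J(A + ΔB A) - A‖² ≤ C h`,
and `b_L2` (file `Lib_MP_36b788b/SdeB.lean`): `E‖b u - b v‖² ≤ C √(E‖u - v‖²)` (moments of order `⌈4β+2⌉` from `ac_mom`, `mulv_pow`, `IsLim.mom`).
`(h • g x - ∫_{nh}^{(n+1)h} drf(H_r) x dr) = ∫ (g x - drf(H_r) x) dr`, and `E‖∫_a^b Φ dr‖² ≤ (b-a)² sup E‖Φ_r‖²` (`tint_facts` with `Φ r ω = g x ω - drf(H_r) x`, continuous in `r` for a.e. `ω`).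
-/

open MeasureTheory ProbabilityTheory Filter Dyn
open scoped NNReal ENNReal Topology

namespace DynX

variable {Ω : Type} [mΩ : MeasurableSpace Ω] {P : Measure Ω} {N d : ℕ}
    {ℱ : Filtration ℝ≥0 mΩ} {B : Site d → Fin N → Fin N → ℝ≥0 → Ω → ℝ}
    {H0 : Site d → Ω → E N} {k ε β : ℝ} {H : ℝ≥0 → Site d → Ω → E N}

private lemma XD_int_sq {f : Ω → E N} (hf : MemLp f 2 P) : Integrable (fun ω => ‖f ω‖ ^ 2) P :=
  hf.integrable_norm_pow (by norm_num)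

private lemma XD_add_sq {f g : Ω → E N} (hf : MemLp f 2 P) (hg : MemLp g 2 P) :
    ∫ ω, ‖f ω + g ω‖ ^ 2 ∂P ≤ 2 * ∫ ω, ‖f ω‖ ^ 2 ∂P + 2 * ∫ ω, ‖g ω‖ ^ 2 ∂P := by
  rw [← integral_const_mul, ← integral_const_mul, ← integral_add
    ((XD_int_sq hf).const_mul 2) ((XD_int_sq hg).const_mul 2)]
  refine integral_mono (XD_int_sq (hf.add hg)) (((XD_int_sq hf).const_mul 2).add
    ((XD_int_sq hg).const_mul 2)) fun ω => ?_
  have h := norm_add_le (f ω) (g ω)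
  have h0 := norm_nonneg (f ω + g ω)
  nlinarith [sq_nonneg (‖f ω‖ - ‖g ω‖), norm_nonneg (f ω), norm_nonneg (g ω)]

private lemma XD_sub_sq {f g : Ω → E N} (hf : MemLp f 2 P) (hg : MemLp g 2 P) :
    ∫ ω, ‖f ω - g ω‖ ^ 2 ∂P ≤ 2 * ∫ ω, ‖f ω‖ ^ 2 ∂P + 2 * ∫ ω, ‖g ω‖ ^ 2 ∂P := by
  have := XD_add_sq hf hg.neg
  simp only [Pi.neg_apply, norm_neg] at this
  simpa only [sub_eq_add_neg] using this

private lemma XD_smul_sq (c : ℝ) (f : Ω → E N) :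
    ∫ ω, ‖c • f ω‖ ^ 2 ∂P = c ^ 2 * ∫ ω, ‖f ω‖ ^ 2 ∂P := by
  rw [← integral_const_mul]
  refine integral_congr_ae (Filter.Eventually.of_forall fun ω => ?_)
  show ‖c • f ω‖ ^ 2 = c ^ 2 * ‖f ω‖ ^ 2
  rw [norm_smul, mul_pow, Real.norm_eq_abs, sq_abs]

private lemma XD_lap_sq (f : Site d → E N) (x : Site d) :
    ‖lap f x‖ ^ 2 ≤ 12 * d * ∑ i : Fin d, (‖f (x + Pi.single i 1)‖ ^ 2 +
      ‖f (x - Pi.single i 1)‖ ^ 2 + ‖f x‖ ^ 2) := by
  have h1 : ‖lap f x‖ ≤ ∑ i : Fin d, (‖f (x + Pi.single i 1)‖ +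
      ‖f (x - Pi.single i 1)‖ + 2 * ‖f x‖) := by
    unfold lap
    refine (norm_sum_le _ _).trans (Finset.sum_le_sum (fun i _ => ?_))
    have h2 := norm_add_le (f (x + Pi.single i 1) - f x) (f (x - Pi.single i 1) - f x)
    have h3 := norm_sub_le (f (x + Pi.single i 1)) (f x)
    have h4 := norm_sub_le (f (x - Pi.single i 1)) (f x)
    linarith
  have h2 : ‖lap f x‖ ^ 2 ≤ (∑ i : Fin d, (‖f (x + Pi.single i 1)‖ +
      ‖f (x - Pi.single i 1)‖ + 2 * ‖f x‖)) ^ 2 := by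
    gcongr
  have h3 := sq_sum_le_card_mul_sum_sq (s := (Finset.univ : Finset (Fin d)))
    (f := fun i => ‖f (x + Pi.single i 1)‖ + ‖f (x - Pi.single i 1)‖ + 2 * ‖f x‖)
  rw [Finset.card_univ, Fintype.card_fin] at h3
  refine (h2.trans h3).trans ?_
  have h4 : ∑ i : Fin d, (‖f (x + Pi.single i 1)‖ + ‖f (x - Pi.single i 1)‖ + 2 * ‖f x‖) ^ 2 ≤
      ∑ i : Fin d, 12 * (‖f (x + Pi.single i 1)‖ ^ 2 + ‖f (x - Pi.single i 1)‖ ^ 2 + ‖f x‖ ^ 2) := by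
    refine Finset.sum_le_sum (fun i _ => ?_)
    nlinarith [sq_nonneg (‖f (x + Pi.single i 1)‖ - ‖f (x - Pi.single i 1)‖),
      sq_nonneg (‖f (x + Pi.single i 1)‖ - 2 * ‖f x‖),
      sq_nonneg (‖f (x - Pi.single i 1)‖ - 2 * ‖f x‖), sq_nonneg ‖f (x + Pi.single i 1)‖,
      sq_nonneg ‖f (x - Pi.single i 1)‖]
  rw [← Finset.mul_sum] at h4
  calc (d : ℝ) * ∑ i : Fin d, (‖f (x + Pi.single i 1)‖ + ‖f (x - Pi.single i 1)‖ + 2 * ‖f x‖) ^ 2
      ≤ (d : ℝ) * (12 * ∑ i : Fin d, (‖f (x + Pi.single i 1)‖ ^ 2 +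
        ‖f (x - Pi.single i 1)‖ ^ 2 + ‖f x‖ ^ 2)) := by gcongr
    _ = _ := by ring

private lemma XD_lap {F : Site d → Ω → E N} {C : ℝ} (hF : ∀ y, MemLp (F y) 2 P)
    (hC : ∀ y, ∫ ω, ‖F y ω‖ ^ 2 ∂P ≤ C) (x : Site d) :
    MemLp (fun ω => lap (fun y => F y ω) x) 2 P ∧
    ∫ ω, ‖lap (fun y => F y ω) x‖ ^ 2 ∂P ≤ 12 * d * (d * (C + C + C)) := by
  have hmem : MemLp (fun ω => lap (fun y => F y ω) x) 2 P := by
    have hg : ∀ i ∈ (Finset.univ : Finset (Fin d)), MemLp (fun ω =>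
        (F (x + Pi.single i 1) ω - F x ω) + (F (x - Pi.single i 1) ω - F x ω)) 2 P :=
      fun i _ => ((hF _).sub (hF x)).add ((hF _).sub (hF x))
    exact memLp_finsetSum Finset.univ hg
  refine ⟨hmem, ?_⟩
  have hi : ∀ y, Integrable (fun ω => ‖F y ω‖ ^ 2) P := fun y => XD_int_sq (hF y)
  have hi3 : ∀ i ∈ (Finset.univ : Finset (Fin d)), Integrable (fun ω =>
      ‖F (x + Pi.single i 1) ω‖ ^ 2 + ‖F (x - Pi.single i 1) ω‖ ^ 2 + ‖F x ω‖ ^ 2) P :=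
    fun i _ => ((hi _).add (hi _)).add (hi x)
  have he3 : ∀ i : Fin d, ∫ ω, (‖F (x + Pi.single i 1) ω‖ ^ 2 +
      ‖F (x - Pi.single i 1) ω‖ ^ 2 + ‖F x ω‖ ^ 2) ∂P =
      ∫ ω, ‖F (x + Pi.single i 1) ω‖ ^ 2 ∂P + ∫ ω, ‖F (x - Pi.single i 1) ω‖ ^ 2 ∂P +
        ∫ ω, ‖F x ω‖ ^ 2 ∂P := by
    intro i
    have a1 := integral_add ((hi (x + Pi.single i 1)).add (hi (x - Pi.single i 1))) (hi x)
    have a2 := integral_add (hi (x + Pi.single i 1)) (hi (x - Pi.single i 1))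
    simp only [Pi.add_apply] at a1 a2
    rw [a1, a2]
  calc ∫ ω, ‖lap (fun y => F y ω) x‖ ^ 2 ∂P
      ≤ ∫ ω, 12 * d * (∑ i : Fin d, (‖F (x + Pi.single i 1) ω‖ ^ 2 +
        ‖F (x - Pi.single i 1) ω‖ ^ 2 + ‖F x ω‖ ^ 2)) ∂P :=
        integral_mono (XD_int_sq hmem) ((integrable_finsetSum _ hi3).const_mul _)
          (fun ω => XD_lap_sq (fun y => F y ω) x)
    _ = 12 * d * (∑ i : Fin d, (∫ ω, ‖F (x + Pi.single i 1) ω‖ ^ 2 ∂P +
        ∫ ω, ‖F (x - Pi.single i 1) ω‖ ^ 2 ∂P + ∫ ω, ‖F x ω‖ ^ 2 ∂P)) := by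
        rw [integral_const_mul, integral_finsetSum _ hi3, Finset.sum_congr rfl (fun i _ => he3 i)]
    _ ≤ 12 * d * (∑ _i : Fin d, (C + C + C)) := by
        gcongr
        · exact hC _
        · exact hC _
        · exact hC _
    _ = 12 * d * (d * (C + C + C)) := by
        rw [Finset.sum_const, Finset.card_univ, Fintype.card_fin, nsmul_eq_mul]

private lemma XD_meas {Ω : Type} (m0 : MeasurableSpace Ω) {N d : ℕ} {k ε β : ℝ}
    {F : Site d → Ω → E N} (hF : ∀ y, Measurable (F y)) (x : Site d) :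
    Measurable (fun ω => drf k ε β (fun y => F y ω) x) := by
  unfold drf lap
  fun_prop

private lemma XD_Hm (hL : IsLim P k ε β ℱ B H0 H) (t : ℝ≥0) (x : Site d) :
    Measurable (H t x) := (hL.adapted t x).mono (ℱ.le t) le_rfl

/-- moments of order `p` and two of the limit process -/
private lemma XD_mom (hL : IsLim P k ε β ℱ B H0 H) (p : ℕ) (T : ℝ≥0) :
    ∃ C : ℝ, 0 ≤ C ∧ ∀ t ≤ T, ∀ x, Integrable (fun ω => ‖H t x ω‖ ^ p) P ∧
      ∫ ω, ‖H t x ω‖ ^ p ∂P ≤ C ∧ MemLp (H t x) 2 P ∧ ∫ ω, ‖H t x ω‖ ^ 2 ∂P ≤ C := by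
  obtain ⟨C1, h1⟩ := hL.mom p T
  obtain ⟨C2, h2⟩ := hL.mom 2 T
  refine ⟨max 0 (max C1 C2), le_max_left _ _, fun t ht x => ?_⟩
  refine ⟨(h1 t ht x).1, (h1 t ht x).2.trans ((le_max_left _ _).trans (le_max_right _ _)), ?_,
    (h2 t ht x).2.trans ((le_max_right _ _).trans (le_max_right _ _))⟩
  exact (memLp_two_iff_integrable_sq_norm (XD_Hm hL t x).aestronglyMeasurable).2 (h2 t ht x).1

theorem drf_mem (hN : Noise P ℱ B H0) (hβ : 0 < β) (hL : IsLim P k ε β ℱ B H0 H) (T : ℝ≥0) :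
    ∃ C : ℝ, 0 ≤ C ∧ ∀ x : Site d,
      (∀ t, Measurable[ℱ t] (fun ω => drf k ε β (fun y => H t y ω) x)) ∧
      (∀ᵐ ω ∂P, Continuous (fun t => drf k ε β (fun y => H t y ω) x)) ∧
      (∀ t ≤ T, MemLp (fun ω => drf k ε β (fun y => H t y ω) x) 2 P ∧
        ∫ ω, ‖drf k ε β (fun y => H t y ω) x‖ ^ 2 ∂P ≤ C) ∧
      ∀ s t : ℝ≥0, s ≤ t → t ≤ T →
        MemLp (fun ω => ∫ r in (s : ℝ)..t, drf k ε β (fun y => H r.toNNReal y ω) x) 2 P ∧
        ∫ ω, ‖∫ r in (s : ℝ)..t, drf k ε β (fun y => H r.toNNReal y ω) x‖ ^ 2 ∂P ≤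
          C * ((t : ℝ) - s) ^ 2 := by
  have := hN.prob
  obtain ⟨M, hM0, hM⟩ := XD_mom hL ⌈4 * β + 2⌉₊ T
  obtain ⟨C2, hC2, hb⟩ := DynB.b_L2 N β hβ M hM0
  refine ⟨2 * (k ^ 2 * (12 * d * (d * (M + M + M)))) + 2 * (ε ^ 2 * C2), by positivity, ?_⟩
  intro x
  have hc : ∀ᵐ ω ∂P, Continuous (fun t => drf k ε β (fun y => H t y ω) x) := by
    have hall : ∀ᵐ ω ∂P, ∀ y, Continuous (fun t => H t y ω) := ae_all_iff.2 hL.cont
    filter_upwards [hall] with ω hω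
    have hr : Continuous (fun t => ‖H t x ω‖ ^ β) :=
      (hω x).norm.rpow_const (fun _ => Or.inr (by linarith))
    unfold drf lap
    refine Continuous.sub (Continuous.const_smul (continuous_finsetSum _ (fun i _ => ?_)) k)
      ((continuous_const.mul hr).smul (hω x))
    exact ((hω _).sub (hω x)).add ((hω _).sub (hω x))
  have h2 : ∀ t ≤ T, MemLp (fun ω => drf k ε β (fun y => H t y ω) x) 2 P ∧
        ∫ ω, ‖drf k ε β (fun y => H t y ω) x‖ ^ 2 ∂P ≤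
          2 * (k ^ 2 * (12 * d * (d * (M + M + M)))) + 2 * (ε ^ 2 * C2) := by
    intro t ht
    obtain ⟨hU1, hU2, -, -⟩ := hM t ht x
    have hUm := (XD_Hm hL t x).aestronglyMeasurable (μ := P)
    obtain ⟨hb1, hb2, -⟩ := hb P (H t x) (H t x) hUm hUm hU1 hU1 hU2 hU2
    obtain ⟨hl1, hl2⟩ := XD_lap (F := fun y => H t y) (fun y => (hM t ht y).2.2.1)
      (fun y => (hM t ht y).2.2.2) x
    have he : (fun ω => drf k ε β (fun y => H t y ω) x) =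
        fun ω => k • lap (fun y => H t y ω) x - ε • ((‖H t x ω‖ ^ β) • H t x ω) := by
      funext ω
      unfold drf
      rw [smul_smul]
    rw [he]
    have hk1 : MemLp (fun ω => k • lap (fun y => H t y ω) x) 2 P := hl1.const_smul k
    have hk2 : MemLp (fun ω => ε • ((‖H t x ω‖ ^ β) • H t x ω)) 2 P := hb1.const_smul ε
    have he2 := congrFun he
    refine ⟨hk1.sub hk2, ?_⟩
    have h3 := XD_sub_sq hk1 hk2
    rw [XD_smul_sq, XD_smul_sq] at h3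
    have e : ∀ ω, drf k ε β (fun y => H t y ω) x =
      k • lap (fun y => H t y ω) x - ε • ((‖H t x ω‖ ^ β) • H t x ω) := he2
    simp only [e]
    have h4 := mul_le_mul_of_nonneg_left hl2 (sq_nonneg k)
    have h5 := mul_le_mul_of_nonneg_left hb2 (sq_nonneg ε)
    linarith
  refine ⟨fun t => XD_meas (ℱ t) (fun y => hL.adapted t y) x, hc, h2, ?_⟩
  intro s t hst htT
  exact tint_facts (fun r ω => drf k ε β (fun y => H r y ω) x) s t hst
    (fun r => (XD_meas mΩ (fun y => XD_Hm hL r y) x).aestronglyMeasurable) hc _ (by positivity)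
    (fun r _ hr => h2 r (hr.trans htT))

/-- moments of one implicit step -/
private lemma XD_J (hN : Noise P ℱ B H0) (hβ : 0 < β) (hε : 0 < ε) (hk : 0 ≤ k) (T : ℝ≥0) :
    ∃ C : ℝ, 0 ≤ C ∧ ∀ h : ℝ≥0, h ≤ 1 → ∀ n : ℕ, n * h ≤ T → ∀ x : Site d,
      MemLp (fun ω => ac k ε β h B H0 n ω x) 2 P ∧
      AEStronglyMeasurable (fun ω => J β (ε * h) (ac k ε β h B H0 n ω x +
        mulv (fun a b => B x a b ((n + 1) * h) ω - B x a b (n * h) ω)
          (ac k ε β h B H0 n ω x))) P ∧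
      Integrable (fun ω => ‖J β (ε * h) (ac k ε β h B H0 n ω x +
        mulv (fun a b => B x a b ((n + 1) * h) ω - B x a b (n * h) ω)
          (ac k ε β h B H0 n ω x))‖ ^ ⌈4 * β + 2⌉₊) P ∧
      ∫ ω, ‖J β (ε * h) (ac k ε β h B H0 n ω x +
        mulv (fun a b => B x a b ((n + 1) * h) ω - B x a b (n * h) ω)
          (ac k ε β h B H0 n ω x))‖ ^ ⌈4 * β + 2⌉₊ ∂P ≤ C ∧
      MemLp (fun ω => J β (ε * h) (ac k ε β h B H0 n ω x +
        mulv (fun a b => B x a b ((n + 1) * h) ω - B x a b (n * h) ω)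
          (ac k ε β h B H0 n ω x)) - ac k ε β h B H0 n ω x) 2 P ∧
      ∫ ω, ‖J β (ε * h) (ac k ε β h B H0 n ω x +
        mulv (fun a b => B x a b ((n + 1) * h) ω - B x a b (n * h) ω)
          (ac k ε β h B H0 n ω x)) - ac k ε β h B H0 n ω x‖ ^ 2 ∂P ≤ C * h := by
  have := hN.prob
  obtain ⟨p, hp⟩ : ∃ p, p = ⌈4 * β + 2⌉₊ := ⟨_, rfl⟩
  obtain ⟨C1, hC10, hC1⟩ := ac_mom (d := d) hN hβ hε hk p T
  obtain ⟨C2, hC20, hC2⟩ := ac_mom (d := d) hN hβ hε hk (2 * p) T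
  obtain ⟨C3, hC30, hC3⟩ := ac_mom (d := d) hN hβ hε hk 2 T
  obtain ⟨Cq, hCq0, hCq⟩ := mulv_pow N p
  obtain ⟨M, hM⟩ : ∃ M : ℝ, M = 2 ^ p * (C1 + (1 + Cq * C2)) := ⟨_, rfl⟩
  have hM0 : 0 ≤ M := by rw [hM]; positivity
  obtain ⟨Cb, hCb0, hCb⟩ := DynB.b_L2 N β hβ M hM0
  rw [← hp] at hCb ⊢
  refine ⟨M + (2 * (N * C3) + 2 * (ε ^ 2 * Cb)), by positivity, ?_⟩
  intro h hh n hn x
  have hhR : (h : ℝ) ≤ 1 := by exact_mod_cast hh
  have hh0 : (0 : ℝ) ≤ h := h.2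
  have hst : (n : ℝ≥0) * h ≤ ((n : ℝ≥0) + 1) * h :=
    mul_le_mul_left (le_add_of_nonneg_right zero_le_one) h
  obtain ⟨A, hA⟩ : ∃ A : Ω → E N, A = fun ω => ac k ε β h B H0 n ω x := ⟨_, rfl⟩
  have hAω : ∀ ω, ac k ε β h B H0 n ω x = A ω := fun ω => by rw [hA]
  have hAm : Measurable[ℱ (n * h)] A := by
    rw [hA]
    exact ac_meas hN hβ hε h n x
  have hAm' : Measurable A := hAm.mono (ℱ.le _) le_rfl
  have hAi : ∀ q : ℕ, Integrable (fun ω => ‖A ω‖ ^ q) P := fun q => by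
    rw [hA]
    exact ac_mem hN hβ hε h n q x
  have hA1 : ∫ ω, ‖A ω‖ ^ p ∂P ≤ C1 := by rw [hA]; exact hC1 h hh n hn x
  have hA2 : ∫ ω, ‖A ω‖ ^ (2 * p) ∂P ≤ C2 := by rw [hA]; exact hC2 h hh n hn x
  have hA3 : ∫ ω, ‖A ω‖ ^ 2 ∂P ≤ C3 := by rw [hA]; exact hC3 h hh n hn x
  have hAL : MemLp A 2 P :=
    (memLp_two_iff_integrable_sq_norm hAm'.aestronglyMeasurable).2 (hAi 2)
  simp only [hAω]
  obtain ⟨w, hw⟩ : ∃ w : Ω → E N, w = fun ω =>
    mulv (fun a b => B x a b ((n + 1) * h) ω - B x a b (n * h) ω) (A ω) := ⟨_, rfl⟩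
  have hwω : ∀ ω, mulv (fun a b => B x a b ((n + 1) * h) ω - B x a b (n * h) ω) (A ω) = w ω :=
    fun ω => by rw [hw]
  obtain ⟨hwL, hw2, -⟩ := mulv_sq (zero_dyn hN k ε β) (n * h) ((n + 1) * h) hst x A hAm hAL
  have hwq := hCq Ω P d ℱ B H0 hN (n * h) ((n + 1) * h) hst x A (fun _ => 1) hAm
    measurable_const
  simp only [hwω, one_mul] at hwL hw2 hwq ⊢
  have hdt : (((n + 1) * h : ℝ≥0) : ℝ) - ((n * h : ℝ≥0) : ℝ) = h := by
    push_cast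
    ring
  rw [hdt] at hw2 hwq
  -- moments of `w`
  have hwpm : AEStronglyMeasurable (fun ω => ‖w ω‖ ^ (2 * p)) P := hwL.1.norm.pow _
  have hwp0 : 0 ≤ᵐ[P] fun ω => ‖w ω‖ ^ (2 * p) :=
    Filter.Eventually.of_forall fun ω => by positivity
  have hAp0 : 0 ≤ᵐ[P] fun ω => ‖A ω‖ ^ (2 * p) :=
    Filter.Eventually.of_forall fun ω => by positivity
  rw [← ofReal_integral_eq_lintegral_ofReal (hAi (2 * p)) hAp0,
    ← ENNReal.ofReal_mul (by positivity)] at hwq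
  have hwi : Integrable (fun ω => ‖w ω‖ ^ (2 * p)) P :=
    (lintegral_ofReal_ne_top_iff_integrable hwpm hwp0).1 (ne_top_of_le_ne_top
      ENNReal.ofReal_ne_top hwq)
  rw [← ofReal_integral_eq_lintegral_ofReal hwi hwp0] at hwq
  have hAp00 : 0 ≤ ∫ ω, ‖A ω‖ ^ (2 * p) ∂P := integral_nonneg fun ω => by positivity
  have hwq2 := (ENNReal.ofReal_le_ofReal_iff (by positivity)).1 hwq
  have hwq3 : ∫ ω, ‖w ω‖ ^ (2 * p) ∂P ≤ Cq * C2 := by
    refine hwq2.trans ?_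
    have h1 : (h : ℝ) ^ p ≤ 1 := pow_le_one₀ hh0 hhR
    calc Cq * (h : ℝ) ^ p * ∫ ω, ‖A ω‖ ^ (2 * p) ∂P ≤ Cq * 1 * C2 := by
          gcongr
      _ = Cq * C2 := by ring
  -- the implicit step
  have hεh : 0 ≤ ε * h := by positivity
  obtain ⟨U, hU⟩ : ∃ U : Ω → E N, U = fun ω => J β (ε * h) (A ω + w ω) := ⟨_, rfl⟩
  have hUω : ∀ ω, J β (ε * h) (A ω + w ω) = U ω := fun ω => by rw [hU]
  have hUm : AEStronglyMeasurable U P := by
    rw [hU]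
    exact (J_continuous hβ hεh).comp_aestronglyMeasurable (hAL.1.add hwL.1)
  have hUb : ∀ ω, ‖U ω‖ ^ p ≤ 2 ^ p * (‖A ω‖ ^ p + (1 + ‖w ω‖ ^ (2 * p))) := by
    intro ω
    have h1 : ‖U ω‖ ≤ ‖A ω‖ + ‖w ω‖ := by
      rw [hU]
      refine le_trans ?_ (norm_add_le _ _)
      show ‖J β (ε * h) (A ω + w ω)‖ ≤ _
      rw [norm_J hβ hεh]
      exact psi_le hβ hεh (norm_nonneg _)
    have h2 : ‖U ω‖ ^ p ≤ (‖A ω‖ + ‖w ω‖) ^ p := pow_le_pow_left₀ (norm_nonneg _) h1 p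
    have h3 := add_pow_le (norm_nonneg (A ω)) (norm_nonneg (w ω)) p
    have h4 : ‖w ω‖ ^ p ≤ 1 + ‖w ω‖ ^ (2 * p) := by
      have e : ‖w ω‖ ^ (2 * p) = (‖w ω‖ ^ p) ^ 2 := by rw [mul_comm, pow_mul]
      rw [e]
      nlinarith [sq_nonneg (‖w ω‖ ^ p - 1)]
    have h5 : (2 : ℝ) ^ (p - 1) ≤ 2 ^ p := pow_le_pow_right₀ (by norm_num) (Nat.sub_le _ _)
    calc ‖U ω‖ ^ p ≤ 2 ^ (p - 1) * (‖A ω‖ ^ p + ‖w ω‖ ^ p) := h2.trans h3
      _ ≤ 2 ^ p * (‖A ω‖ ^ p + (1 + ‖w ω‖ ^ (2 * p))) := by gcongr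
  have hdom : Integrable (fun ω => 2 ^ p * (‖A ω‖ ^ p + (1 + ‖w ω‖ ^ (2 * p)))) P :=
    ((hAi p).add ((integrable_const 1).add hwi)).const_mul _
  have hUi : Integrable (fun ω => ‖U ω‖ ^ p) P := by
    refine hdom.mono' (hUm.norm.pow p) (Filter.Eventually.of_forall fun ω => ?_)
    rw [Real.norm_of_nonneg (by positivity)]
    exact hUb ω
  have hUM : ∫ ω, ‖U ω‖ ^ p ∂P ≤ M := by
    refine (integral_mono hUi hdom hUb).trans ?_
    have hi1 : Integrable (fun ω => 1 + ‖w ω‖ ^ (2 * p)) P := (integrable_const 1).add hwi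
    rw [integral_const_mul, integral_add (hAi p) hi1, integral_add (integrable_const 1) hwi]
    simp only [integral_const, probReal_univ, smul_eq_mul, mul_one]
    rw [hM]
    gcongr
  obtain ⟨hb1, hb2, -⟩ := hCb P U U hUm hUm hUi hUi hUM hUM
  have hdiff : ∀ ω, U ω - A ω = w ω - (ε * h) • ((‖U ω‖ ^ β) • U ω) := by
    intro ω
    have h1 := J_eq hβ hεh (A ω + w ω)
    rw [hUω] at h1
    rw [smul_smul, sub_eq_sub_iff_add_eq_add, h1, add_comm]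
  have hk2 : MemLp (fun ω => (ε * h) • ((‖U ω‖ ^ β) • U ω)) 2 P := hb1.const_smul (ε * (h : ℝ))
  simp only [hUω]
  refine ⟨hAL, hUm, hUi, hUM.trans ?_, ?_, ?_⟩
  · have : 0 ≤ 2 * (N * C3) + 2 * (ε ^ 2 * Cb) := by positivity
    linarith
  · simp only [hdiff]
    exact hwL.sub hk2
  · simp only [hdiff]
    refine (XD_sub_sq hwL hk2).trans ?_
    rw [XD_smul_sq, hw2]
    have h1 : (N : ℝ) * h * ∫ ω, ‖A ω‖ ^ 2 ∂P ≤ N * h * C3 := by gcongr
    have h2 : (ε * h) ^ 2 * ∫ ω, ‖(‖U ω‖ ^ β) • U ω‖ ^ 2 ∂P ≤ (ε ^ 2 * h) * Cb := by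
      have h3 : (ε * h) ^ 2 ≤ ε ^ 2 * h := by
        rw [mul_pow]
        have : (h : ℝ) ^ 2 ≤ h := by nlinarith
        gcongr
      gcongr
    have h4 : 0 ≤ M * h := by positivity
    nlinarith [h1, h2, h4]

/-- the chain against the limit process on one step -/
private lemma XD_A (hN : Noise P ℱ B H0) (hβ : 0 < β) (hε : 0 < ε)
    (hL : IsLim P k ε β ℱ B H0 H) (T : ℝ≥0) :
    ∃ C : ℝ, 0 ≤ C ∧ ∀ m n : ℕ, (n + 1) * hm m ≤ T → ∀ r : ℝ≥0, n * hm m ≤ r →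
      r ≤ (n + 1) * hm m → ∀ y : Site d,
        MemLp (fun ω => ac k ε β (hm m) B H0 n ω y - H r y ω) 2 P ∧
        ∫ ω, ‖ac k ε β (hm m) B H0 n ω y - H r y ω‖ ^ 2 ∂P ≤ C * Real.sqrt (hm m) := by
  have := hN.prob
  obtain ⟨C1, hC10, hC1⟩ := hL.conv T
  obtain ⟨C2, hC20, hC2⟩ := hL.inc T
  obtain ⟨M, hM0, hM⟩ := XD_mom hL 2 T
  refine ⟨2 * C1 + 2 * C2, by positivity, ?_⟩
  intro m n hn r hr1 hr2 y
  have hst : (n : ℝ≥0) * hm m ≤ ((n : ℝ≥0) + 1) * hm m :=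
    mul_le_mul_left (le_add_of_nonneg_right zero_le_one) (hm m)
  have hsT := hst.trans hn
  have hrT := hr2.trans hn
  have hAL : MemLp (fun ω => ac k ε β (hm m) B H0 n ω y) 2 P := by
    have hm1 : AEStronglyMeasurable (fun ω => ac k ε β (hm m) B H0 n ω y) P :=
      ((ac_meas (k := k) hN hβ hε (hm m) n y).mono (ℱ.le _) le_rfl).aestronglyMeasurable
    exact (memLp_two_iff_integrable_sq_norm hm1).2 (ac_mem hN hβ hε (hm m) n 2 y)
  have hs := (hM _ hsT y).2.2.1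
  have hr := (hM _ hrT y).2.2.1
  refine ⟨hAL.sub hr, ?_⟩
  have e : ∀ ω, ac k ε β (hm m) B H0 n ω y - H r y ω =
      (ac k ε β (hm m) B H0 n ω y - H (n * hm m) y ω) + (H (n * hm m) y ω - H r y ω) := fun ω => by
    abel
  simp only [e]
  have h1 := XD_add_sq (hAL.sub hs) (hs.sub hr)
  simp only [Pi.sub_apply] at h1
  have h2 := hC1 m n hsT y
  have h3 := hC2 _ r hr1 hrT y
  have e2 : ∫ ω, ‖ac k ε β (hm m) B H0 n ω y - H (n * hm m) y ω‖ ^ 2 ∂P =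
      ∫ ω, ‖H (n * hm m) y ω - ac k ε β (hm m) B H0 n ω y‖ ^ 2 ∂P := by
    simp only [norm_sub_rev]
  have e3 : ∫ ω, ‖H (n * hm m) y ω - H r y ω‖ ^ 2 ∂P =
      ∫ ω, ‖H r y ω - H (n * hm m) y ω‖ ^ 2 ∂P := by
    simp only [norm_sub_rev]
  rw [e2, e3] at h1
  have hhm1 : ((hm m : ℝ≥0) : ℝ) ≤ 1 := by
    unfold hm
    push_cast
    exact pow_le_one₀ (by norm_num) (by norm_num)
  have hhm0 : (0 : ℝ) ≤ ((hm m : ℝ≥0) : ℝ) := (hm m).2
  have h4 : (r : ℝ) - ((n * hm m : ℝ≥0) : ℝ) ≤ Real.sqrt (hm m) := by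
    have h5 : (r : ℝ) ≤ ((n + 1) * hm m : ℝ≥0) := by exact_mod_cast hr2
    have h6 : (((n + 1) * hm m : ℝ≥0) : ℝ) = ((n * hm m : ℝ≥0) : ℝ) + hm m := by
      push_cast
      ring
    have h7 : ((hm m : ℝ≥0) : ℝ) ≤ Real.sqrt (hm m) := by
      apply Real.le_sqrt_of_sq_le
      nlinarith
    linarith
  have h8 := mul_le_mul_of_nonneg_left h4 hC20
  linarith

private lemma XD_hm_tendsto : Tendsto (fun m : ℕ => ((hm m : ℝ≥0) : ℝ)) atTop (𝓝 0) := by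
  unfold hm
  push_cast
  exact tendsto_pow_atTop_nhds_zero_of_lt_one (by norm_num) (by norm_num)

/-- the drift of one step against the drift of the limit process -/
private lemma XD_phi (hN : Noise P ℱ B H0) (hβ : 0 < β) (hε : 0 < ε) (hk : 0 ≤ k)
    (hL : IsLim P k ε β ℱ B H0 H) (T : ℝ≥0) (δ : ℝ) (hδ : 0 < δ) :
    ∃ m1 : ℕ, ∀ m, m1 ≤ m → ∀ n : ℕ, (n + 1) * hm m ≤ T → ∀ x : Site d, ∀ r : ℝ≥0,
      n * hm m ≤ r → r ≤ (n + 1) * hm m →
      MemLp (fun ω => ag k ε β (hm m) B H0 n ω x - drf k ε β (fun y => H r y ω) x) 2 P ∧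
      ∫ ω, ‖ag k ε β (hm m) B H0 n ω x - drf k ε β (fun y => H r y ω) x‖ ^ 2 ∂P ≤ δ := by
  have := hN.prob
  obtain ⟨CA, hCA0, hCA⟩ := XD_A hN hβ hε hL T
  obtain ⟨CJ, hCJ0, hCJ⟩ := XD_J (d := d) hN hβ hε hk T
  obtain ⟨M, hM0, hM⟩ := XD_mom hL ⌈4 * β + 2⌉₊ T
  obtain ⟨Cb, hCb0, hCb⟩ := DynB.b_L2 N β hβ (max CJ M) (hM0.trans (le_max_right _ _))
  obtain ⟨K1, hK1⟩ : ∃ K : ℝ, K = 2 * (k ^ 2 * (12 * d * (d * (CA + CA + CA)))) := ⟨_, rfl⟩
  obtain ⟨K2, hK2⟩ : ∃ K : ℝ, K = 2 * (ε ^ 2 * Cb) := ⟨_, rfl⟩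
  have hK20 : 0 ≤ K2 := by rw [hK2]; positivity
  have hlim : Tendsto (fun m : ℕ => K1 * Real.sqrt (hm m) +
      K2 * Real.sqrt ((2 * CJ + 2 * CA) * Real.sqrt (hm m))) atTop (𝓝 0) := by
    have hG : Continuous (fun y : ℝ => K1 * Real.sqrt y +
      K2 * Real.sqrt ((2 * CJ + 2 * CA) * Real.sqrt y)) := by fun_prop
    have h1 := (hG.tendsto 0).comp XD_hm_tendsto
    simpa [Function.comp_def] using h1
  obtain ⟨m1, hm1⟩ := Filter.eventually_atTop.1 (hlim.eventually (gt_mem_nhds hδ))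
  refine ⟨m1, ?_⟩
  intro m hmm n hn x r hr1 hr2
  have hst : (n : ℝ≥0) * hm m ≤ ((n : ℝ≥0) + 1) * hm m :=
    mul_le_mul_left (le_add_of_nonneg_right zero_le_one) (hm m)
  have hsT := hst.trans hn
  have hrT := hr2.trans hn
  have hhm1 : ((hm m : ℝ≥0) : ℝ) ≤ 1 := by
    unfold hm
    push_cast
    exact pow_le_one₀ (by norm_num) (by norm_num)
  have hhm0 : (0 : ℝ) ≤ ((hm m : ℝ≥0) : ℝ) := (hm m).2
  have hhm1' : hm m ≤ 1 := by exact_mod_cast hhm1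
  have hsq : ((hm m : ℝ≥0) : ℝ) ≤ Real.sqrt (hm m) := by
    apply Real.le_sqrt_of_sq_le
    nlinarith
  obtain ⟨hl1, hl2⟩ := XD_lap (F := fun y ω => ac k ε β (hm m) B H0 n ω y - H r y ω)
    (fun y => (hCA m n hn r hr1 hr2 y).1) (fun y => (hCA m n hn r hr1 hr2 y).2) x
  obtain ⟨hAL, hUm, hUi, hUM, hUA, hUA2⟩ := hCJ (hm m) hhm1' n hsT x
  obtain ⟨hVi, hVM, hVL, -⟩ := hM r hrT x
  obtain ⟨hAH, hAH2⟩ := hCA m n hn r hr1 hr2 x
  have hVm := (XD_Hm hL r x).aestronglyMeasurable (μ := P)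
  obtain ⟨U, hU⟩ : ∃ U : Ω → E N, U = fun ω => J β (ε * hm m) (ac k ε β (hm m) B H0 n ω x +
        mulv (fun a b => B x a b ((n + 1) * hm m) ω - B x a b (n * hm m) ω)
          (ac k ε β (hm m) B H0 n ω x)) := ⟨_, rfl⟩
  have hUω : ∀ ω, J β (ε * hm m) (ac k ε β (hm m) B H0 n ω x +
        mulv (fun a b => B x a b ((n + 1) * hm m) ω - B x a b (n * hm m) ω)
          (ac k ε β (hm m) B H0 n ω x)) = U ω := fun ω => by rw [hU]
  simp only [hUω] at hUm hUi hUM hUA hUA2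
  obtain ⟨hb1, hb2, hb3⟩ := hCb P U (H r x) hUm hVm hUi hVi (hUM.trans (le_max_left _ _))
    (hVM.trans (le_max_right _ _))
  obtain ⟨hc1, -, -⟩ := hCb P (H r x) (H r x) hVm hVm hVi hVi (hVM.trans (le_max_right _ _))
    (hVM.trans (le_max_right _ _))
  -- the difference
  have hlin : ∀ ω, lap (fun y => ac k ε β (hm m) B H0 n ω y - H r y ω) x =
      lap (ac k ε β (hm m) B H0 n ω) x - lap (fun y => H r y ω) x := by
    intro ω
    unfold lap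
    rw [← Finset.sum_sub_distrib]
    refine Finset.sum_congr rfl fun i _ => ?_
    beta_reduce
    generalize ac k ε β (hm m) B H0 n ω (x + Pi.single i 1) = a1
    generalize ac k ε β (hm m) B H0 n ω (x - Pi.single i 1) = a2
    generalize H r (x + Pi.single i 1) ω = a3
    generalize H r (x - Pi.single i 1) ω = a4
    abel
  have e : ∀ ω, ag k ε β (hm m) B H0 n ω x - drf k ε β (fun y => H r y ω) x =
      k • lap (fun y => ac k ε β (hm m) B H0 n ω y - H r y ω) x -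
        ε • ((‖U ω‖ ^ β) • U ω - (‖H r x ω‖ ^ β) • H r x ω) := by
    intro ω
    unfold ag drf
    rw [hlin ω, hUω ω, smul_sub, smul_sub, smul_smul, smul_smul]
    abel
  simp only [e]
  have hk1 : MemLp (fun ω => k • lap (fun y => ac k ε β (hm m) B H0 n ω y - H r y ω) x) 2 P :=
    hl1.const_smul k
  have hk2 : MemLp (fun ω => ε • ((‖U ω‖ ^ β) • U ω - (‖H r x ω‖ ^ β) • H r x ω)) 2 P :=
    (hb1.sub hc1).const_smul ε
  refine ⟨hk1.sub hk2, ?_⟩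
  refine (XD_sub_sq hk1 hk2).trans ?_
  rw [XD_smul_sq, XD_smul_sq]
  refine le_trans ?_ (hm1 m hmm).le
  have h1 : ∫ ω, ‖U ω - H r x ω‖ ^ 2 ∂P ≤ (2 * CJ + 2 * CA) * Real.sqrt (hm m) := by
    have e1 : ∀ ω, U ω - H r x ω = (U ω - ac k ε β (hm m) B H0 n ω x) +
        (ac k ε β (hm m) B H0 n ω x - H r x ω) := fun ω => by abel
    simp only [e1]
    refine (XD_add_sq hUA hAH).trans ?_
    have := mul_le_mul_of_nonneg_left hsq hCJ0
    linarith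
  have h2 : Cb * Real.sqrt (∫ ω, ‖U ω - H r x ω‖ ^ 2 ∂P) ≤
      Cb * Real.sqrt ((2 * CJ + 2 * CA) * Real.sqrt (hm m)) :=
    mul_le_mul_of_nonneg_left (Real.sqrt_le_sqrt h1) hCb0.le
  have h3 := mul_le_mul_of_nonneg_left (hb3.trans h2) (sq_nonneg ε)
  have h4 := mul_le_mul_of_nonneg_left hl2 (sq_nonneg k)
  rw [hK1, hK2]
  nlinarith [h3, h4]

theorem drf_app (hN : Noise P ℱ B H0) (hβ : 0 < β) (hε : 0 < ε) (hk : 0 ≤ k)
    (hL : IsLim P k ε β ℱ B H0 H) (T : ℝ≥0) (δ : ℝ) (hδ : 0 < δ) :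
    ∃ m1 : ℕ, ∀ m, m1 ≤ m → ∀ n : ℕ, (n + 1) * hm m ≤ T → ∀ x : Site d,
      MemLp (fun ω => ((hm m : ℝ≥0) : ℝ) • ag k ε β (hm m) B H0 n ω x -
        ∫ r in ((n * hm m : ℝ≥0) : ℝ)..(((n + 1) * hm m : ℝ≥0) : ℝ),
          drf k ε β (fun y => H r.toNNReal y ω) x) 2 P ∧
      ∫ ω, ‖((hm m : ℝ≥0) : ℝ) • ag k ε β (hm m) B H0 n ω x -
        ∫ r in ((n * hm m : ℝ≥0) : ℝ)..(((n + 1) * hm m : ℝ≥0) : ℝ),
          drf k ε β (fun y => H r.toNNReal y ω) x‖ ^ 2 ∂P ≤ δ * (hm m : ℝ) ^ 2 := by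
  have := hN.prob
  obtain ⟨m1, hm1⟩ := XD_phi hN hβ hε hk hL T δ hδ
  obtain ⟨CD, hCD0, hCD⟩ := drf_mem hN hβ hL T
  refine ⟨m1, ?_⟩
  intro m hmm n hn x
  have hst : (n : ℝ≥0) * hm m ≤ ((n : ℝ≥0) + 1) * hm m :=
    mul_le_mul_left (le_add_of_nonneg_right zero_le_one) (hm m)
  have hphi := hm1 m hmm n hn x
  obtain ⟨hd1, hd2, hd3, -⟩ := hCD x
  have hag : AEStronglyMeasurable (fun ω => ag k ε β (hm m) B H0 n ω x) P := by
    have h1 := (hphi (n * hm m) le_rfl hst).1.1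
    have h2 := ((hd1 (n * hm m)).mono (ℱ.le _) le_rfl).aestronglyMeasurable (μ := P)
    have h3 := h1.add h2
    refine h3.congr (Filter.Eventually.of_forall fun ω => ?_)
    exact sub_add_cancel (ag k ε β (hm m) B H0 n ω x) _
  have hc : ∀ᵐ ω ∂P, Continuous (fun r => ag k ε β (hm m) B H0 n ω x -
      drf k ε β (fun y => H r y ω) x) := by
    filter_upwards [hd2] with ω hω
    exact continuous_const.sub hω
  have ht := tint_facts (fun r ω => ag k ε β (hm m) B H0 n ω x -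
    drf k ε β (fun y => H r y ω) x) (n * hm m) ((n + 1) * hm m) hst
    (fun r => hag.sub ((hd1 r).mono (ℱ.le _) le_rfl).aestronglyMeasurable) hc δ hδ.le
    (fun r hr1 hr2 => hphi r hr1 hr2)
  have hdt : (((n + 1) * hm m : ℝ≥0) : ℝ) - ((n * hm m : ℝ≥0) : ℝ) = hm m := by
    push_cast
    ring
  have heq : (fun ω => ∫ r in ((n * hm m : ℝ≥0) : ℝ)..(((n + 1) * hm m : ℝ≥0) : ℝ),
      (ag k ε β (hm m) B H0 n ω x - drf k ε β (fun y => H r.toNNReal y ω) x)) =ᵐ[P]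
      fun ω => ((hm m : ℝ≥0) : ℝ) • ag k ε β (hm m) B H0 n ω x -
        ∫ r in ((n * hm m : ℝ≥0) : ℝ)..(((n + 1) * hm m : ℝ≥0) : ℝ),
          drf k ε β (fun y => H r.toNNReal y ω) x := by
    filter_upwards [hd2] with ω hω
    have h1 : Continuous (fun r : ℝ => drf k ε β (fun y => H r.toNNReal y ω) x) :=
      hω.comp continuous_real_toNNReal
    rw [intervalIntegral.integral_sub intervalIntegrable_const (h1.intervalIntegrable _ _),
      intervalIntegral.integral_const, hdt]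
  refine ⟨ht.1.ae_eq heq, ?_⟩
  have h2 := ht.2
  rw [hdt] at h2
  refine le_trans (le_of_eq ?_) h2
  refine integral_congr_ae ?_
  filter_upwards [heq] with ω hω
  rw [hω]

end DynX

end

/-! ### from `Lib_MP_36b788x.XA` -/

section

/-!
# The martingale part at dyadic times

PROOF. `u = i hm m`, `v = j hm m`. At level `m + r`: `u = i' h`, `v = j' h`, `i' = 2^r i`, `j' = 2^r j`, `h = hm (m+r)`, `A = ac h`. `ac_step_eq` summed:
`A_{j'} - A_{i'} = S + Σ h g_n`, `S = Σ_{n ∈ [i', j')} mulv ΔB_n A_n`. `E‖Σ (h g_n - ∫_{nh}^{(n+1)h} drf)‖² ≤ (j'-i')² δ h² ≤ δ T²` (`drf_app`), `conv`: so `S → Mt u v` in `L²` as `r → ∞`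
(`Mt u v = (H v - A_{j'}) - (H u - A_{i'}) + S + Σ(h g_n - ∫)`).
* third claim: `E⟪Z, S⟫ = 0` (`mulv_sq`), limit.
* second claim: `S - mulv (B_v - B_u) A_{i'} = Σ mulv ΔB_n (A_n - A_{i'})` (`mulv_add_left`, telescoping), orthogonal terms: `E‖.‖² = Σ N h E‖A_n - A_{i'}‖² ≤ N Σ h √C (n-i') h ≤ C (v-u)²`
  (`ac_inc`, Cauchy-Schwarz). One may use `rsum_sq` for `zero_dyn` with `V r x = A_{⌊r/h⌋₊} x - A_{i'} x` and `n = j'-i'` intervals of `[u,v]`. And `mulv(B_v - B_u) A_{i'} → mulv(B_v - B_u)(H u)` in `L²`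
  (`mulv_sq`, `conv`). Limit.
* `MemLp`: `H v`, `H u`, `drf_mem`.
-/

open MeasureTheory ProbabilityTheory Filter Dyn
open scoped NNReal ENNReal Topology

namespace DynX

variable {Ω : Type} [mΩ : MeasurableSpace Ω] {P : Measure Ω} {N d : ℕ}
    {ℱ : Filtration ℝ≥0 mΩ} {B : Site d → Fin N → Fin N → ℝ≥0 → Ω → ℝ}
    {H0 : Site d → Ω → E N} {k ε β : ℝ} {H : ℝ≥0 → Site d → Ω → E N}

/-! ## Generalities on square integrable functions -/

private lemma XA_int_sq {f : Ω → E N} (hf : MemLp f 2 P) : Integrable (fun ω => ‖f ω‖ ^ 2) P :=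
  hf.integrable_norm_pow (by norm_num)

private lemma XA_wt {f g : Ω → E N} (hf : MemLp f 2 P) (hg : MemLp g 2 P) (θ : ℝ) (hθ : 0 < θ) :
    ∫ ω, ‖f ω + g ω‖ ^ 2 ∂P ≤
      (1 + θ) * ∫ ω, ‖f ω‖ ^ 2 ∂P + (1 + 1 / θ) * ∫ ω, ‖g ω‖ ^ 2 ∂P := by
  rw [← integral_const_mul, ← integral_const_mul, ← integral_add
    ((XA_int_sq hf).const_mul _) ((XA_int_sq hg).const_mul _)]
  refine integral_mono (XA_int_sq (hf.add hg)) (((XA_int_sq hf).const_mul _).add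
    ((XA_int_sq hg).const_mul _)) fun ω => ?_
  have h := norm_add_le (f ω) (g ω)
  have h0 := norm_nonneg (f ω + g ω)
  have h1 : ‖f ω + g ω‖ ^ 2 ≤ (‖f ω‖ + ‖g ω‖) ^ 2 := pow_le_pow_left₀ h0 h 2
  have h2 : 0 ≤ (θ * ‖f ω‖ - ‖g ω‖) ^ 2 / θ := by positivity
  have h3 : (θ * ‖f ω‖ - ‖g ω‖) ^ 2 / θ =
      θ * ‖f ω‖ ^ 2 + 1 / θ * ‖g ω‖ ^ 2 - 2 * (‖f ω‖ * ‖g ω‖) := by
    field_simp
    ring
  show ‖f ω + g ω‖ ^ 2 ≤ (1 + θ) * ‖f ω‖ ^ 2 + (1 + 1 / θ) * ‖g ω‖ ^ 2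
  nlinarith [h1, h2, h3]

private lemma XA_sum {f : ℕ → Ω → E N} {c : ℝ} (n : ℕ) (hf : ∀ l < n, MemLp (f l) 2 P)
    (hc : ∀ l < n, ∫ ω, ‖f l ω‖ ^ 2 ∂P ≤ c) :
    MemLp (fun ω => ∑ l ∈ Finset.range n, f l ω) 2 P ∧
    ∫ ω, ‖∑ l ∈ Finset.range n, f l ω‖ ^ 2 ∂P ≤ (n : ℝ) ^ 2 * c := by
  have hm : MemLp (fun ω => ∑ l ∈ Finset.range n, f l ω) 2 P :=
    memLp_finsetSum _ fun l hl => hf l (Finset.mem_range.1 hl)
  refine ⟨hm, ?_⟩
  have h1 : ∀ ω, ‖∑ l ∈ Finset.range n, f l ω‖ ^ 2 ≤ n * ∑ l ∈ Finset.range n, ‖f l ω‖ ^ 2 := by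
    intro ω
    have h2 := norm_sum_le (Finset.range n) (fun l => f l ω)
    have h3 := sq_sum_le_card_mul_sum_sq (s := Finset.range n) (f := fun l => ‖f l ω‖)
    rw [Finset.card_range] at h3
    exact (pow_le_pow_left₀ (norm_nonneg _) h2 2).trans h3
  have hi : Integrable (fun ω => n * ∑ l ∈ Finset.range n, ‖f l ω‖ ^ 2) P :=
    (integrable_finsetSum _ fun l hl => XA_int_sq (hf l (Finset.mem_range.1 hl))).const_mul _
  refine (integral_mono (XA_int_sq hm) hi h1).trans ?_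
  rw [integral_const_mul, integral_finsetSum _ fun l hl => XA_int_sq (hf l (Finset.mem_range.1 hl))]
  have h4 : ∑ l ∈ Finset.range n, ∫ ω, ‖f l ω‖ ^ 2 ∂P ≤ n * c := by
    refine (Finset.sum_le_sum fun l hl => hc l (Finset.mem_range.1 hl)).trans ?_
    rw [Finset.sum_const, Finset.card_range, nsmul_eq_mul]
  have h5 := mul_le_mul_of_nonneg_left h4 (Nat.cast_nonneg (α := ℝ) n)
  nlinarith [h5]

private lemma XA_sq_le [IsProbabilityMeasure P] {f : Ω → E N} (h2 : Integrable (fun ω => ‖f ω‖ ^ 2) P)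
    (h4 : Integrable (fun ω => ‖f ω‖ ^ 4) P) {c : ℝ} (hc : 0 ≤ c)
    (h : ∫ ω, ‖f ω‖ ^ 4 ∂P ≤ c ^ 2) : ∫ ω, ‖f ω‖ ^ 2 ∂P ≤ c := by
  obtain ⟨a, ha⟩ : ∃ a, a = ∫ ω, ‖f ω‖ ^ 2 ∂P := ⟨_, rfl⟩
  rw [← ha]
  have h0 : 0 ≤ ∫ ω, (‖f ω‖ ^ 2 - a) ^ 2 ∂P := integral_nonneg fun ω => sq_nonneg _
  have h1 : (fun ω => (‖f ω‖ ^ 2 - a) ^ 2) = fun ω => (‖f ω‖ ^ 4 - 2 * a * ‖f ω‖ ^ 2) + a ^ 2 := by
    funext ω
    ring
  have i2 : Integrable (fun ω => 2 * a * ‖f ω‖ ^ 2) P := h2.const_mul _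
  have e1 : ∫ ω, ((‖f ω‖ ^ 4 - 2 * a * ‖f ω‖ ^ 2) + a ^ 2) ∂P =
      (∫ ω, (‖f ω‖ ^ 4 - 2 * a * ‖f ω‖ ^ 2) ∂P) + ∫ _ω, a ^ 2 ∂P :=
    integral_add (f := fun ω => ‖f ω‖ ^ 4 - 2 * a * ‖f ω‖ ^ 2) (h4.sub i2) (integrable_const _)
  have e2 : ∫ ω, (‖f ω‖ ^ 4 - 2 * a * ‖f ω‖ ^ 2) ∂P =
      (∫ ω, ‖f ω‖ ^ 4 ∂P) - 2 * a * ∫ ω, ‖f ω‖ ^ 2 ∂P := by
    rw [integral_sub h4 i2, integral_const_mul]
  have e3 : ∫ _ω : Ω, a ^ 2 ∂P = a ^ 2 := by
    rw [integral_const, probReal_univ, one_smul]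
  rw [h1, e1, e2, e3, ← ha] at h0
  have h5 : a ^ 2 ≤ c ^ 2 := by nlinarith
  exact (abs_le_of_sq_le_sq' h5 hc).2

private lemma XA_inner {Z f : Ω → E N} (hZ : MemLp Z 2 P) (hf : MemLp f 2 P) :
    Integrable (fun ω => inner ℝ (Z ω) (f ω)) P := by
  have h1 : Integrable (fun ω => ‖Z ω‖ * ‖f ω‖) P := hZ.norm.integrable_mul hf.norm
  refine h1.mono' (hZ.1.inner hf.1) (Filter.Eventually.of_forall fun ω => ?_)
  exact norm_inner_le_norm _ _

private lemma XA_inner_le {Z f : Ω → E N} (hZ : MemLp Z 2 P) (hf : MemLp f 2 P) (θ : ℝ)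
    (hθ : 0 < θ) : 2 * |∫ ω, inner ℝ (Z ω) (f ω) ∂P| ≤
      θ * ∫ ω, ‖Z ω‖ ^ 2 ∂P + 1 / θ * ∫ ω, ‖f ω‖ ^ 2 ∂P := by
  have h1 : |∫ ω, inner ℝ (Z ω) (f ω) ∂P| ≤ ∫ ω, ‖Z ω‖ * ‖f ω‖ ∂P := by
    rw [← Real.norm_eq_abs]
    refine norm_integral_le_of_norm_le (hZ.norm.integrable_mul hf.norm)
      (Filter.Eventually.of_forall fun ω => ?_)
    exact norm_inner_le_norm _ _
  have h2 : 2 * ∫ ω, ‖Z ω‖ * ‖f ω‖ ∂P ≤
      θ * ∫ ω, ‖Z ω‖ ^ 2 ∂P + 1 / θ * ∫ ω, ‖f ω‖ ^ 2 ∂P := by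
    rw [← integral_const_mul, ← integral_const_mul, ← integral_const_mul, ← integral_add
      ((XA_int_sq hZ).const_mul _) ((XA_int_sq hf).const_mul _)]
    refine integral_mono ((hZ.norm.integrable_mul hf.norm).const_mul _)
      (((XA_int_sq hZ).const_mul _).add ((XA_int_sq hf).const_mul _)) fun ω => ?_
    have h2 : 0 ≤ (θ * ‖Z ω‖ - ‖f ω‖) ^ 2 / θ := by positivity
    have h3 : (θ * ‖Z ω‖ - ‖f ω‖) ^ 2 / θ =
        θ * ‖Z ω‖ ^ 2 + 1 / θ * ‖f ω‖ ^ 2 - 2 * (‖Z ω‖ * ‖f ω‖) := by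
      field_simp
      ring
    show 2 * (‖Z ω‖ * ‖f ω‖) ≤ θ * ‖Z ω‖ ^ 2 + 1 / θ * ‖f ω‖ ^ 2
    linarith
  linarith

/-! ## The dyadic grid -/

private lemma XA_hm_pos (m : ℕ) : 0 < hm m := by
  unfold hm
  positivity

private lemma XA_hm_le (m : ℕ) : hm m ≤ 1 := by
  unfold hm
  refine pow_le_one₀ (by positivity) ?_
  rw [← NNReal.coe_le_coe]
  push_cast
  norm_num

private lemma XA_hm_add (m r : ℕ) : hm m = 2 ^ r * hm (m + r) := by
  unfold hm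
  rw [pow_add, mul_comm ((1 / 2 : ℝ≥0) ^ m), ← mul_assoc, ← mul_pow]
  have : (2 : ℝ≥0) * (1 / 2) = 1 := by
    rw [← NNReal.coe_inj]
    push_cast
    norm_num
  rw [this, one_pow, one_mul]

private lemma XA_sqrt_hm (c η : ℝ) (hη : 0 < η) (n0 : ℕ) : ∃ r : ℕ, n0 ≤ r ∧ ∀ m : ℕ,
    c * Real.sqrt (hm (m + r)) ≤ η := by
  have h1 : Tendsto (fun m : ℕ => ((hm m : ℝ≥0) : ℝ)) atTop (𝓝 0) := by
    have : (fun m : ℕ => ((hm m : ℝ≥0) : ℝ)) = fun m => (1 / 2 : ℝ) ^ m := by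
      funext m
      unfold hm
      push_cast
      rfl
    rw [this]
    exact tendsto_pow_atTop_nhds_zero_of_lt_one (by norm_num) (by norm_num)
  have h2 : Tendsto (fun m : ℕ => c * Real.sqrt (hm m)) atTop (𝓝 0) := by
    have := ((Real.continuous_sqrt.tendsto 0).comp h1).const_mul c
    simpa using this
  obtain ⟨n1, hn1⟩ := eventually_atTop.1 (h2.eventually (gt_mem_nhds hη))
  exact ⟨max n0 n1, le_max_left _ _, fun m =>
    (hn1 _ ((le_max_right _ _).trans (Nat.le_add_left _ _))).le⟩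

omit mΩ in
/-- the Riemann sum of a step function on its own grid -/
private lemma XA_rsum (h : ℝ≥0) (hh : 0 < h) (i n : ℕ) (hn : 0 < n)
    (A : ℕ → Site d → Ω → E N) (x : Site d) (ω : Ω) :
    rsum B (fun r y ω => A ⌊r / h⌋₊ y ω) x ((i : ℝ≥0) * h) (((i + n : ℕ) : ℝ≥0) * h) n ω =
      ∑ l ∈ Finset.range n, mulv (fun a b => B x a b ((((i + l : ℕ) : ℝ≥0) + 1) * h) ω -
        B x a b (((i + l : ℕ) : ℝ≥0) * h) ω) (A (i + l) x ω) := by
  have hn0 : (n : ℝ≥0) ≠ 0 := by exact_mod_cast hn.ne'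
  have hd : ((((i + n : ℕ) : ℝ≥0) * h) - (i : ℝ≥0) * h) / n = h := by
    have : (((i + n : ℕ) : ℝ≥0) * h) - (i : ℝ≥0) * h = n * h := by
      push_cast
      rw [add_mul, add_tsub_cancel_left]
    rw [this, mul_div_cancel_left₀ _ hn0]
  unfold rsum
  refine Finset.sum_congr rfl fun l _ => ?_
  rw [hd]
  have e1 : (i : ℝ≥0) * h + ((l : ℝ≥0) + 1) * h = (((i + l : ℕ) : ℝ≥0) + 1) * h := by
    push_cast
    ring
  have e2 : (i : ℝ≥0) * h + (l : ℝ≥0) * h = ((i + l : ℕ) : ℝ≥0) * h := by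
    push_cast
    ring
  have e3 : ⌊((i + l : ℕ) : ℝ≥0) * h / h⌋₊ = i + l := by
    rw [mul_div_cancel_right₀ _ hh.ne', Nat.floor_natCast]
  rw [e1, e2]
  beta_reduce
  rw [e3]

/-- the chain as a step function -/
private noncomputable def XV {Ω : Type} {N d : ℕ} (k ε β : ℝ) (h : ℝ≥0)
    (B : Site d → Fin N → Fin N → ℝ≥0 → Ω → ℝ) (H0 : Site d → Ω → E N) (r : ℝ≥0) (y : Site d)
    (ω : Ω) : E N := ac k ε β h B H0 ⌊r / h⌋₊ ω y

private lemma XA_floor (h r : ℝ≥0) (hh : 0 < h) : (⌊r / h⌋₊ : ℝ≥0) * h ≤ r :=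
  (le_div_iff₀ hh).1 (Nat.floor_le zero_le)

private lemma XA_Hmem (hN : Noise P ℱ B H0) (hL : IsLim P k ε β ℱ B H0 H) (t : ℝ≥0) (x : Site d) :
    MemLp (H t x) 2 P := by
  have := hN.prob
  obtain ⟨C, hC⟩ := hL.mom 2 t
  exact (memLp_two_iff_integrable_sq_norm
    (((hL.adapted t x).mono (ℱ.le t) le_rfl).aestronglyMeasurable)).2 (hC t le_rfl x).1

private lemma XA_Amem (hN : Noise P ℱ B H0) (hβ : 0 < β) (hε : 0 < ε) (h : ℝ≥0) (n : ℕ)
    (x : Site d) : MemLp (fun ω => ac k ε β h B H0 n ω x) 2 P := by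
  have := hN.prob
  exact (memLp_two_iff_integrable_sq_norm
    (((ac_meas hN hβ hε h n x).mono (ℱ.le _) le_rfl).aestronglyMeasurable)).2
      (ac_mem hN hβ hε h n 2 x)

/-- the noise sum over a block of steps -/
private lemma XA_noise (hN : Noise P ℱ B H0) (hβ : 0 < β) (hε : 0 < ε) (hk : 0 ≤ k) (T : ℝ≥0)
    (Ci : ℝ) (hCi0 : 0 ≤ Ci)
    (hCi : ∀ h : ℝ≥0, h ≤ 1 → ∀ n m : ℕ, n ≤ m → m * h ≤ T → ∀ x : Site d,
      ∫ ω, ‖ac k ε β h B H0 m ω x - ac k ε β h B H0 n ω x‖ ^ 4 ∂P ≤ Ci * (((m : ℝ) - n) * h) ^ 2)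
    (h : ℝ≥0) (hh : 0 < h) (hh1 : h ≤ 1) (i n : ℕ) (hn : 0 < n) (hT : ((i + n : ℕ) : ℝ≥0) * h ≤ T)
    (x : Site d) (S : Ω → E N)
    (hS : S = fun ω => ∑ l ∈ Finset.range n, mulv (fun a b => B x a b ((((i + l : ℕ) : ℝ≥0) + 1) * h) ω -
        B x a b (((i + l : ℕ) : ℝ≥0) * h) ω) (ac k ε β h B H0 (i + l) ω x)) :
    MemLp S 2 P ∧
    ∫ ω, ‖S ω - mulv (fun a b => B x a b (((i + n : ℕ) : ℝ≥0) * h) ω - B x a b ((i : ℝ≥0) * h) ω)
      (ac k ε β h B H0 i ω x)‖ ^ 2 ∂P ≤ N * Real.sqrt Ci * ((n : ℝ) * h) ^ 2 ∧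
    (∀ Z : Ω → E N, Measurable[ℱ ((i : ℝ≥0) * h)] Z → MemLp Z 2 P →
      ∫ ω, inner ℝ (Z ω) (S ω) ∂P = 0) := by
  have := hN.prob
  have hz := zero_dyn hN k ε β
  obtain ⟨C2, hC20, hC2⟩ := ac_mom hN hβ hε hk 2 T
  obtain ⟨u, hu⟩ : ∃ u, u = (i : ℝ≥0) * h := ⟨_, rfl⟩
  obtain ⟨v, hv⟩ : ∃ v, v = ((i + n : ℕ) : ℝ≥0) * h := ⟨_, rfl⟩
  have huv : u ≤ v := by
    rw [hu, hv]
    refine mul_le_mul_left ?_ h
    exact_mod_cast Nat.le_add_right i n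
  have hvu : (v : ℝ) - u = (n : ℝ) * h := by
    rw [hu, hv]
    push_cast
    ring
  have hfu : ⌊u / h⌋₊ = i := by
    rw [hu, mul_div_cancel_right₀ _ hh.ne', Nat.floor_natCast]
  have hVm : ∀ r, Measurable[ℱ r] (XV k ε β h B H0 r x) := fun r =>
    (ac_meas hN hβ hε h ⌊r / h⌋₊ x).mono (ℱ.mono (XA_floor h r hh)) le_rfl
  have hVp : ∀ r, MemLp (XV k ε β h B H0 r x) 2 P := fun r => XA_Amem hN hβ hε h _ x
  have hSr : S = rsum B (XV k ε β h B H0) x u v n := by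
    rw [hS]
    funext ω
    rw [hu, hv]
    exact (XA_rsum h hh i n hn (fun q y ω => ac k ε β h B H0 q ω y) x ω).symm
  have h1 := rsum_sq hz (XV k ε β h B H0) x u v huv C2 (fun r hr1 hr2 =>
    ⟨hVm r, hVp r, hC2 h hh1 _ ((XA_floor h r hh).trans (hr2.trans (hv ▸ hT))) x⟩) n
  have h2 := rsum_sq hz (fun r y ω => XV k ε β h B H0 r y ω - XV k ε β h B H0 u y ω) x u v huv
    (Real.sqrt Ci * ((v : ℝ) - u)) (fun r hr1 hr2 => by
      refine ⟨(hVm r).sub ((hVm u).mono (ℱ.mono hr1) le_rfl), (hVp r).sub (hVp u), ?_⟩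
      have hir : i ≤ ⌊r / h⌋₊ := by
        rw [← hfu]
        exact Nat.floor_mono (div_le_div_of_nonneg_right hr1 zero_le)
      have hrT : (⌊r / h⌋₊ : ℝ≥0) * h ≤ T := (XA_floor h r hh).trans (hr2.trans (hv ▸ hT))
      have h3 := hCi h hh1 i ⌊r / h⌋₊ hir hrT x
      have h4 : (((⌊r / h⌋₊ : ℕ) : ℝ) - i) * h ≤ (v : ℝ) - u := by
        have h5 : ((⌊r / h⌋₊ : ℕ) : ℝ) * h ≤ v := by
          have := (XA_floor h r hh).trans hr2
          exact_mod_cast this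
        have h6 : (u : ℝ) = (i : ℝ) * h := by
          rw [hu]
          push_cast
          rfl
        rw [h6, sub_mul]
        linarith
      have h40 : 0 ≤ (((⌊r / h⌋₊ : ℕ) : ℝ) - i) * h := by
        have : (i : ℝ) ≤ ((⌊r / h⌋₊ : ℕ) : ℝ) := by exact_mod_cast hir
        exact mul_nonneg (sub_nonneg.2 this) h.2
      have hD := (hVp r).sub (hVp u)
      have hfu' : XV k ε β h B H0 u x = fun ω => ac k ε β h B H0 i ω x := by
        funext ω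
        unfold XV
        rw [hfu]
      have hi4 : Integrable (fun ω => ‖XV k ε β h B H0 r x ω - XV k ε β h B H0 u x ω‖ ^ 4) P := by
        have hd : MemLp (fun ω => XV k ε β h B H0 r x ω - XV k ε β h B H0 u x ω) 4 P := by
          have hA : ∀ q, MemLp (fun ω => ac k ε β h B H0 q ω x) 4 P := fun q => by
            have := ac_mem hN hβ hε h q 4 x (k := k)
            refine (integrable_norm_rpow_iff (p := 4)
              ((ac_meas hN hβ hε h q x).mono (ℱ.le _) le_rfl).aestronglyMeasurable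
              (by norm_num) (by norm_num)).1 ?_
            refine this.congr (Filter.Eventually.of_forall fun ω => ?_)
            show ‖ac k ε β h B H0 q ω x‖ ^ 4 = ‖ac k ε β h B H0 q ω x‖ ^ ((4 : ℝ≥0∞).toReal)
            rw [ENNReal.toReal_ofNat]
            exact (Real.rpow_ofNat _ 4).symm
          exact (hA _).sub (hA _)
        exact hd.integrable_norm_pow (by norm_num)
      refine (XA_sq_le (XA_int_sq hD) hi4 (c := Real.sqrt Ci * ((((⌊r / h⌋₊ : ℕ) : ℝ) - i) * h))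
        (mul_nonneg (Real.sqrt_nonneg _) h40) ?_).trans
        (mul_le_mul_of_nonneg_left h4 (Real.sqrt_nonneg _))
      rw [mul_pow, Real.sq_sqrt hCi0]
      refine le_trans (le_of_eq ?_) h3
      refine integral_congr_ae (Filter.Eventually.of_forall fun ω => ?_)
      show ‖XV k ε β h B H0 r x ω - XV k ε β h B H0 u x ω‖ ^ 4 = _
      rw [hfu']
      rfl) n
  refine ⟨hSr ▸ h1.1, ?_, ?_⟩
  · have h3 := h2.2.1
    have e : ∀ ω, rsum B (fun r y ω => XV k ε β h B H0 r y ω - XV k ε β h B H0 u y ω) x u v n ω =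
        S ω - mulv (fun a b => B x a b (((i + n : ℕ) : ℝ≥0) * h) ω - B x a b ((i : ℝ≥0) * h) ω)
          (ac k ε β h B H0 i ω x) := by
      intro ω
      rw [rsum_sub B (XV k ε β h B H0) x u v huv n hn ω, hSr, ← hu, ← hv]
      unfold XV
      rw [hfu]
    simp only [e] at h3
    refine h3.trans (le_of_eq ?_)
    rw [hvu]
    ring
  · intro Z hZ hZ2
    rw [hSr]
    refine h1.2.2 Z ?_ hZ2
    rw [hu]
    exact hZ

/-- approximation of the martingale part by the noise sum of a fine chain -/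
private lemma XA_core (hN : Noise P ℱ B H0) (hβ : 0 < β) (hε : 0 < ε) (hk : 0 ≤ k)
    (hL : IsLim P k ε β ℱ B H0 H) (T : ℝ≥0) (Ci : ℝ) (hCi0 : 0 ≤ Ci)
    (hCi : ∀ h : ℝ≥0, h ≤ 1 → ∀ n m : ℕ, n ≤ m → m * h ≤ T → ∀ x : Site d,
      ∫ ω, ‖ac k ε β h B H0 m ω x - ac k ε β h B H0 n ω x‖ ^ 4 ∂P ≤ Ci * (((m : ℝ) - n) * h) ^ 2)
    (m i j : ℕ) (hij : i < j) (hj : j * hm m ≤ T) (x : Site d) (η : ℝ) (hη : 0 < η) :
    ∃ S V : Ω → E N, MemLp S 2 P ∧ Measurable[ℱ (i * hm m)] V ∧ MemLp V 2 P ∧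
      MemLp (fun ω => Mt k ε β H (i * hm m) (j * hm m) x ω - S ω) 2 P ∧
      ∫ ω, ‖Mt k ε β H (i * hm m) (j * hm m) x ω - S ω‖ ^ 2 ∂P ≤ η ∧
      ∫ ω, ‖H (i * hm m) x ω - V ω‖ ^ 2 ∂P ≤ η ∧
      ∫ ω, ‖S ω - mulv (fun a b => B x a b (j * hm m) ω - B x a b (i * hm m) ω) (V ω)‖ ^ 2 ∂P ≤
        N * Real.sqrt Ci * (((j : ℝ) - i) * hm m) ^ 2 ∧
      ∀ Z : Ω → E N, Measurable[ℱ (i * hm m)] Z → MemLp Z 2 P →
        ∫ ω, inner ℝ (Z ω) (S ω) ∂P = 0 := by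
  have := hN.prob
  obtain ⟨Cc, hCc0, hCc⟩ := hL.conv T
  obtain ⟨D, hD⟩ : ∃ D : ℝ, D = (((j : ℝ) - i) * hm m) ^ 2 := ⟨_, rfl⟩
  have hD0 : 0 ≤ D := hD ▸ sq_nonneg _
  obtain ⟨m1, hm1⟩ := drf_app hN hβ hε hk hL T (η / (6 * (D + 1))) (by positivity)
  obtain ⟨CD, hCD0, hCD⟩ := drf_mem hN hβ hL T
  obtain ⟨r, hr1, hr2⟩ := XA_sqrt_hm Cc (η / 12) (by positivity) m1
  obtain ⟨h, hh⟩ : ∃ h, h = hm (m + r) := ⟨_, rfl⟩
  have hh0 : 0 < h := hh ▸ XA_hm_pos _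
  have hh1 : h ≤ 1 := hh ▸ XA_hm_le _
  have hmr : m1 ≤ m + r := hr1.trans (Nat.le_add_left _ _)
  obtain ⟨n, hn⟩ : ∃ n, 2 ^ r * j = 2 ^ r * i + n :=
    Nat.exists_eq_add_of_le (Nat.mul_le_mul_left _ hij.le)
  obtain ⟨i', hi'⟩ : ∃ i', i' = 2 ^ r * i := ⟨_, rfl⟩
  have hn0 : 0 < n := by
    have : 2 ^ r * i < 2 ^ r * j := Nat.mul_lt_mul_of_pos_left hij (by positivity)
    omega
  have hu : (i : ℝ≥0) * hm m = (i' : ℝ≥0) * h := by
    rw [hi', hh, XA_hm_add m r]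
    push_cast
    ring
  have hv : (j : ℝ≥0) * hm m = ((i' + n : ℕ) : ℝ≥0) * h := by
    rw [hi', ← hn, hh, XA_hm_add m r]
    push_cast
    ring
  have hnh : (n : ℝ) * h = ((j : ℝ) - i) * hm m := by
    have h1 : ((i : ℝ≥0) * hm m : ℝ≥0) = ((i' : ℝ≥0) * h : ℝ≥0) := hu
    have h2 : ((j : ℝ≥0) * hm m : ℝ≥0) = (((i' + n : ℕ) : ℝ≥0) * h : ℝ≥0) := hv
    have h3 : (i : ℝ) * hm m = (i' : ℝ) * h := by exact_mod_cast h1
    have h4 : (j : ℝ) * hm m = ((i' : ℝ) + n) * h := by exact_mod_cast h2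
    rw [sub_mul, h3, h4]
    ring
  rw [hv] at hj
  rw [hu, hv, ← hnh]
  have huT : (i' : ℝ≥0) * h ≤ T := by
    refine (mul_le_mul_left ?_ h).trans hj
    exact_mod_cast Nat.le_add_right i' n
  obtain ⟨S, hS⟩ : ∃ S : Ω → E N, S = fun ω => ∑ l ∈ Finset.range n,
      mulv (fun a b => B x a b ((((i' + l : ℕ) : ℝ≥0) + 1) * h) ω -
        B x a b (((i' + l : ℕ) : ℝ≥0) * h) ω) (ac k ε β h B H0 (i' + l) ω x) := ⟨_, rfl⟩
  have hno := XA_noise hN hβ hε hk T Ci hCi0 hCi h hh0 hh1 i' n hn0 hj x S hS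
  have hVm : MemLp (fun ω => ac k ε β h B H0 i' ω x) 2 P := XA_Amem hN hβ hε h i' x
  have hWm : MemLp (fun ω => ac k ε β h B H0 (i' + n) ω x) 2 P := XA_Amem hN hβ hε h (i' + n) x
  have hHu := XA_Hmem hN hL ((i' : ℝ≥0) * h) x
  have hHv := XA_Hmem hN hL (((i' + n : ℕ) : ℝ≥0) * h) x
  have hcu : ∫ ω, ‖H ((i' : ℝ≥0) * h) x ω - ac k ε β h B H0 i' ω x‖ ^ 2 ∂P ≤ η / 12 := by
    rw [hh] at huT ⊢
    exact (hCc (m + r) i' huT x).trans (hr2 m)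
  have hcv : ∫ ω, ‖H (((i' + n : ℕ) : ℝ≥0) * h) x ω - ac k ε β h B H0 (i' + n) ω x‖ ^ 2 ∂P ≤
      η / 12 := by
    rw [hh] at hj ⊢
    exact (hCc (m + r) (i' + n) hj x).trans (hr2 m)
  have hfl : ∀ l < n, MemLp (fun ω => (h : ℝ) • ag k ε β h B H0 (i' + l) ω x -
        ∫ r in ((((i' + l : ℕ) : ℝ≥0) * h : ℝ≥0) : ℝ)..(((((i' + l : ℕ) : ℝ≥0) + 1) * h : ℝ≥0) : ℝ),
          drf k ε β (fun y => H r.toNNReal y ω) x) 2 P ∧
      ∫ ω, ‖(h : ℝ) • ag k ε β h B H0 (i' + l) ω x -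
        ∫ r in ((((i' + l : ℕ) : ℝ≥0) * h : ℝ≥0) : ℝ)..(((((i' + l : ℕ) : ℝ≥0) + 1) * h : ℝ≥0) : ℝ),
          drf k ε β (fun y => H r.toNNReal y ω) x‖ ^ 2 ∂P ≤ η / (6 * (D + 1)) * (h : ℝ) ^ 2 := by
    intro l hl
    have h1 : (((i' + l : ℕ) : ℝ≥0) + 1) * hm (m + r) ≤ T := by
      rw [← hh]
      refine (mul_le_mul_left ?_ h).trans hj
      have : i' + l + 1 ≤ i' + n := by omega
      exact_mod_cast this
    have h2 := hm1 (m + r) hmr (i' + l) h1 x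
    rw [← hh] at h2
    exact h2
  have hsum := XA_sum n (fun l hl => (hfl l hl).1) (fun l hl => (hfl l hl).2)
  have hae : (fun ω => Mt k ε β H ((i' : ℝ≥0) * h) (((i' + n : ℕ) : ℝ≥0) * h) x ω - S ω) =ᵐ[P]
      fun ω => ((H (((i' + n : ℕ) : ℝ≥0) * h) x ω - ac k ε β h B H0 (i' + n) ω x) -
        (H ((i' : ℝ≥0) * h) x ω - ac k ε β h B H0 i' ω x)) +
        ∑ l ∈ Finset.range n, ((h : ℝ) • ag k ε β h B H0 (i' + l) ω x -
        ∫ r in ((((i' + l : ℕ) : ℝ≥0) * h : ℝ≥0) : ℝ)..(((((i' + l : ℕ) : ℝ≥0) + 1) * h : ℝ≥0) : ℝ),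
          drf k ε β (fun y => H r.toNNReal y ω) x) := by
    filter_upwards [(hCD x).2.1] with ω hω
    have hc : Continuous (fun r : ℝ => drf k ε β (fun y => H r.toNNReal y ω) x) :=
      hω.comp continuous_real_toNNReal
    have e1 : ∑ l ∈ Finset.range n,
        (∫ r in ((((i' + l : ℕ) : ℝ≥0) * h : ℝ≥0) : ℝ)..(((((i' + l : ℕ) : ℝ≥0) + 1) * h : ℝ≥0) : ℝ),
          drf k ε β (fun y => H r.toNNReal y ω) x) =
        ∫ r in (((i' : ℝ≥0) * h : ℝ≥0) : ℝ)..((((i' + n : ℕ) : ℝ≥0) * h : ℝ≥0) : ℝ),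
          drf k ε β (fun y => H r.toNNReal y ω) x := by
      have h1 := intervalIntegral.sum_integral_adjacent_intervals (μ := volume)
        (f := fun r : ℝ => drf k ε β (fun y => H r.toNNReal y ω) x)
        (a := fun l : ℕ => ((((i' + l : ℕ) : ℝ≥0) * h : ℝ≥0) : ℝ)) (n := n)
        (fun l _ => hc.intervalIntegrable _ _)
      rw [Nat.add_zero] at h1
      rw [← h1]
      refine Finset.sum_congr rfl fun l _ => ?_
      have h2 : (((((i' + l : ℕ) : ℝ≥0) + 1) * h : ℝ≥0) : ℝ) =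
          ((((i' + (l + 1) : ℕ) : ℝ≥0) * h : ℝ≥0) : ℝ) := by
        push_cast
        ring
      rw [h2]
    have e2 : ac k ε β h B H0 (i' + n) ω x - ac k ε β h B H0 i' ω x = S ω +
        ∑ l ∈ Finset.range n, (h : ℝ) • ag k ε β h B H0 (i' + l) ω x := by
      have h1 := Finset.sum_range_sub (fun l => ac k ε β h B H0 (i' + l) ω x) n
      rw [Nat.add_zero] at h1
      rw [← h1, hS, ← Finset.sum_add_distrib]
      refine Finset.sum_congr rfl fun l _ => ?_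
      have h2 := ac_step_eq (k := k) (B := B) (H0 := H0) hβ hε h (i' + l) ω x
      rw [← Nat.add_assoc, h2]
      abel
    rw [Finset.sum_sub_distrib, e1]
    unfold Mt
    have e3 : ∑ l ∈ Finset.range n, (h : ℝ) • ag k ε β h B H0 (i' + l) ω x =
        ac k ε β h B H0 (i' + n) ω x - ac k ε β h B H0 i' ω x - S ω := by
      rw [e2]
      abel
    rw [e3]
    abel
  have ha : MemLp (fun ω => H (((i' + n : ℕ) : ℝ≥0) * h) x ω - ac k ε β h B H0 (i' + n) ω x) 2 P :=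
    hHv.sub hWm
  have hb : MemLp (fun ω => H ((i' : ℝ≥0) * h) x ω - ac k ε β h B H0 i' ω x) 2 P :=
    hHu.sub hVm
  have hab := ha.sub hb
  refine ⟨S, fun ω => ac k ε β h B H0 i' ω x, hno.1, ac_meas hN hβ hε h i' x, hVm,
    (hab.add hsum.1).ae_eq hae.symm, ?_, hcu.trans (by linarith), hno.2.1, hno.2.2⟩
  have e1 : ∫ ω, ‖Mt k ε β H ((i' : ℝ≥0) * h) (((i' + n : ℕ) : ℝ≥0) * h) x ω - S ω‖ ^ 2 ∂P =
      ∫ ω, ‖((H (((i' + n : ℕ) : ℝ≥0) * h) x ω - ac k ε β h B H0 (i' + n) ω x) -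
        (H ((i' : ℝ≥0) * h) x ω - ac k ε β h B H0 i' ω x)) +
        ∑ l ∈ Finset.range n, ((h : ℝ) • ag k ε β h B H0 (i' + l) ω x -
        ∫ r in ((((i' + l : ℕ) : ℝ≥0) * h : ℝ≥0) : ℝ)..(((((i' + l : ℕ) : ℝ≥0) + 1) * h : ℝ≥0) : ℝ),
          drf k ε β (fun y => H r.toNNReal y ω) x)‖ ^ 2 ∂P := by
    refine integral_congr_ae ?_
    filter_upwards [hae] with ω hω
    rw [hω]
  rw [e1]
  refine (XA_wt hab hsum.1 1 one_pos).trans ?_
  have h1 : ∫ ω, ‖(H (((i' + n : ℕ) : ℝ≥0) * h) x ω - ac k ε β h B H0 (i' + n) ω x) -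
        (H ((i' : ℝ≥0) * h) x ω - ac k ε β h B H0 i' ω x)‖ ^ 2 ∂P ≤ η / 3 := by
    have h2 := XA_wt ha hb.neg 1 one_pos
    simp only [Pi.neg_apply, norm_neg, ← sub_eq_add_neg] at h2
    linarith
  have h3 : (n : ℝ) ^ 2 * (η / (6 * (D + 1)) * (h : ℝ) ^ 2) ≤ η / 6 := by
    have h4 : (n : ℝ) ^ 2 * (η / (6 * (D + 1)) * (h : ℝ) ^ 2) = D * (η / (6 * (D + 1))) := by
      rw [hD, ← hnh]
      ring
    rw [h4]
    have h5 : η / 6 - D * (η / (6 * (D + 1))) = η / (6 * (D + 1)) := by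
      field_simp
      ring
    have h6 : 0 ≤ η / (6 * (D + 1)) := by positivity
    linarith
  have h7 := hsum.2.trans h3
  have h8 : ∫ ω, ‖((fun ω => H (((i' + n : ℕ) : ℝ≥0) * h) x ω - ac k ε β h B H0 (i' + n) ω x) -
        (fun ω => H ((i' : ℝ≥0) * h) x ω - ac k ε β h B H0 i' ω x)) ω‖ ^ 2 ∂P ≤ η / 3 := h1
  linarith

theorem mart_dyadic (hN : Noise P ℱ B H0) (hβ : 0 < β) (hε : 0 < ε) (hk : 0 ≤ k)
    (hL : IsLim P k ε β ℱ B H0 H) (T : ℝ≥0) : ∃ C : ℝ, 0 ≤ C ∧ ∀ m i j : ℕ, i ≤ j →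
    j * hm m ≤ T → ∀ x : Site d,
      MemLp (Mt k ε β H (i * hm m) (j * hm m) x) 2 P ∧
      ∫ ω, ‖Mt k ε β H (i * hm m) (j * hm m) x ω -
          mulv (fun a b => B x a b (j * hm m) ω - B x a b (i * hm m) ω)
            (H (i * hm m) x ω)‖ ^ 2 ∂P ≤ C * (((j : ℝ) - i) * hm m) ^ 2 ∧
      ∀ Z : Ω → E N, Measurable[ℱ (i * hm m)] Z → MemLp Z 2 P →
        ∫ ω, inner ℝ (Z ω) (Mt k ε β H (i * hm m) (j * hm m) x ω) ∂P = 0 := by
  have := hN.prob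
  obtain ⟨Ci, hCi0, hCi⟩ := ac_inc hN hβ hε hk T
  refine ⟨N * Real.sqrt Ci, by positivity, fun m i j hij hj x => ?_⟩
  have hz := zero_dyn hN k ε β
  have hHu := XA_Hmem hN hL (i * hm m) x
  have hHum := hL.adapted (i * hm m) x
  rcases hij.eq_or_lt with rfl | hlt
  · have e : Mt k ε β H (i * hm m) (i * hm m) x = fun _ => (0 : E N) := by
      funext ω
      unfold Mt
      simp
    have e0 : ∀ v : E N, mulv (fun _ _ => (0 : ℝ)) v = 0 := by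
      intro v
      unfold mulv
      ext a
      simp
    rw [e]
    refine ⟨MemLp.zero', ?_, ?_⟩
    · simp [e0]
    · intro Z _ _
      simp
  have huv : (i : ℝ≥0) * hm m ≤ j * hm m := by
    refine mul_le_mul_left ?_ _
    exact_mod_cast hij
  have hvu : (((j : ℝ≥0) * hm m : ℝ≥0) : ℝ) - ((i : ℝ≥0) * hm m : ℝ≥0) = ((j : ℝ) - i) * hm m := by
    push_cast
    ring
  have hMm : MemLp (Mt k ε β H (i * hm m) (j * hm m) x) 2 P := by
    obtain ⟨S, V, hS, -, -, hMS, -⟩ := XA_core hN hβ hε hk hL T Ci hCi0 hCi m i j hlt hj x 1 one_pos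
    refine (hMS.add hS).ae_eq (Filter.Eventually.of_forall fun ω => ?_)
    exact sub_add_cancel _ _
  refine ⟨hMm, ?_, ?_⟩
  · obtain ⟨a, ha⟩ : ∃ a : ℝ, a = N * (((j : ℝ) - i) * hm m) := ⟨_, rfl⟩
    have hji : 0 ≤ ((j : ℝ) - i) * hm m := by
      rw [← hvu]
      exact sub_nonneg.2 (by exact_mod_cast huv)
    have ha0 : 0 ≤ a := ha ▸ mul_nonneg (Nat.cast_nonneg _) hji
    obtain ⟨K, hK⟩ : ∃ K : ℝ, K = N * Real.sqrt Ci * (((j : ℝ) - i) * hm m) ^ 2 := ⟨_, rfl⟩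
    have hK0 : 0 ≤ K := by
      rw [hK]
      positivity
    rw [← hK]
    obtain ⟨I, hI⟩ : ∃ I : ℝ, I = ∫ ω, ‖Mt k ε β H (i * hm m) (j * hm m) x ω -
          mulv (fun a b => B x a b (j * hm m) ω - B x a b (i * hm m) ω)
            (H (i * hm m) x ω)‖ ^ 2 ∂P := ⟨_, rfl⟩
    rw [← hI]
    have key : ∀ θ > 0, ∀ η > 0, I ≤ (1 + θ) * K + (1 + 1 / θ) * (2 * η + 2 * (a * η)) := by
      intro θ hθ η hη
      obtain ⟨S, V, hS, hVm, hV, hMS, h1, h2, h3, -⟩ :=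
        XA_core hN hβ hε hk hL T Ci hCi0 hCi m i j hlt hj x η hη
      have hqV := mulv_sq hz _ _ huv x V hVm hV
      have hD : MemLp (fun ω => H (i * hm m) x ω - V ω) 2 P := hHu.sub hV
      have hDm : Measurable[ℱ (i * hm m)] (fun ω => H (i * hm m) x ω - V ω) := hHum.sub hVm
      have hqD := mulv_sq hz _ _ huv x (fun ω => H (i * hm m) x ω - V ω) hDm hD
      have e : ∀ ω, Mt k ε β H (i * hm m) (j * hm m) x ω -
          mulv (fun a b => B x a b (j * hm m) ω - B x a b (i * hm m) ω) (H (i * hm m) x ω) =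
          (S ω - mulv (fun a b => B x a b (j * hm m) ω - B x a b (i * hm m) ω) (V ω)) +
          ((Mt k ε β H (i * hm m) (j * hm m) x ω - S ω) -
            mulv (fun a b => B x a b (j * hm m) ω - B x a b (i * hm m) ω)
              (H (i * hm m) x ω - V ω)) := by
        intro ω
        have h4 := mulv_add (fun a b => B x a b (j * hm m) ω - B x a b (i * hm m) ω)
          (H (i * hm m) x ω - V ω) (V ω)
        rw [sub_add_cancel] at h4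
        rw [h4]
        abel
      have h5 : ∫ ω, ‖(Mt k ε β H (i * hm m) (j * hm m) x ω - S ω) -
            mulv (fun a b => B x a b (j * hm m) ω - B x a b (i * hm m) ω)
              (H (i * hm m) x ω - V ω)‖ ^ 2 ∂P ≤ 2 * η + 2 * (a * η) := by
        have h6 := XA_wt hMS hqD.1.neg 1 one_pos
        simp only [Pi.neg_apply, norm_neg, ← sub_eq_add_neg] at h6
        have h7 := hqD.2.1
        rw [hvu, ← ha] at h7
        have h8 := mul_le_mul_of_nonneg_left h2 ha0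
        rw [h7] at h6
        linarith
      have h9 := XA_wt (hS.sub hqV.1) (hMS.sub hqD.1) θ hθ
      rw [hI]
      simp only [e]
      refine h9.trans ?_
      rw [hK]
      exact add_le_add (mul_le_mul_of_nonneg_left h3 (by positivity))
        (mul_le_mul_of_nonneg_left h5 (by positivity))
    have key2 : ∀ θ > 0, I ≤ (1 + θ) * K := by
      intro θ hθ
      refine le_of_forall_pos_le_add fun τ hτ => ?_
      have h1 := key θ hθ (τ / ((1 + 1 / θ) * (2 + 2 * a))) (by positivity)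
      have h2 : (1 + 1 / θ) * (2 * (τ / ((1 + 1 / θ) * (2 + 2 * a))) +
          2 * (a * (τ / ((1 + 1 / θ) * (2 + 2 * a))))) = τ := by
        have h3 : (1 + 1 / θ) ≠ 0 := by positivity
        have h4 : (2 + 2 * a) ≠ 0 := by positivity
        have h5 : (1 + 1 / θ) * (2 * (τ / ((1 + 1 / θ) * (2 + 2 * a))) +
          2 * (a * (τ / ((1 + 1 / θ) * (2 + 2 * a))))) =
          ((1 + 1 / θ) * (2 + 2 * a)) * (τ / ((1 + 1 / θ) * (2 + 2 * a))) := by ring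
        rw [h5, mul_div_cancel₀ _ (mul_ne_zero h3 h4)]
      rw [h2] at h1
      exact h1
    refine le_of_forall_pos_le_add fun τ hτ => ?_
    have h1 := key2 (τ / (K + 1)) (by positivity)
    have h2 : τ / (K + 1) * K ≤ τ := by
      rw [div_mul_eq_mul_div, div_le_iff₀ (by positivity)]
      nlinarith
    linarith
  · intro Z hZ hZ2
    obtain ⟨I, hI⟩ : ∃ I : ℝ, I = ∫ ω, inner ℝ (Z ω) (Mt k ε β H (i * hm m) (j * hm m) x ω) ∂P :=
      ⟨_, rfl⟩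
    obtain ⟨A, hA⟩ : ∃ A : ℝ, A = ∫ ω, ‖Z ω‖ ^ 2 ∂P := ⟨_, rfl⟩
    have hA0 : 0 ≤ A := hA ▸ integral_nonneg fun ω => by positivity
    rw [← hI]
    have key : ∀ θ > 0, ∀ η > 0, 2 * |I| ≤ θ * A + 1 / θ * η := by
      intro θ hθ η hη
      obtain ⟨S, V, hS, hVm, hV, hMS, h1, h2, h3, h4⟩ :=
        XA_core hN hβ hε hk hL T Ci hCi0 hCi m i j hlt hj x η hη
      have h5 := XA_inner_le hZ2 hMS θ hθ
      have h6 : I = ∫ ω, inner ℝ (Z ω) (Mt k ε β H (i * hm m) (j * hm m) x ω - S ω) ∂P := by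
        simp only [inner_sub_right]
        rw [integral_sub (XA_inner hZ2 hMm) (XA_inner hZ2 hS), h4 Z hZ hZ2, sub_zero, hI]
      rw [h6, hA]
      have h7 := mul_le_mul_of_nonneg_left h1 (one_div_pos.2 hθ).le
      linarith
    have key2 : ∀ τ > 0, 2 * |I| ≤ 0 + τ := by
      intro τ hτ
      have h1 := key (τ / (2 * (A + 1))) (by positivity) (τ / 2 * (τ / (2 * (A + 1)))) (by positivity)
      have h2 : 1 / (τ / (2 * (A + 1))) * (τ / 2 * (τ / (2 * (A + 1)))) = τ / 2 := by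
        field_simp
      have h3 : τ / (2 * (A + 1)) * A ≤ τ / 2 := by
        rw [div_mul_eq_mul_div, div_le_div_iff₀ (by positivity) (by positivity)]
        nlinarith
      rw [h2] at h1
      linarith
    have h3 : 2 * |I| ≤ 0 := le_of_forall_pos_le_add key2
    have h4 : |I| = 0 := le_antisymm (by linarith) (abs_nonneg _)
    exact abs_eq_zero.1 h4

end DynX

end

/-! ### from `Lib_MP_36b788x.XR` -/

section

/-!
# The martingale part at real times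

PROOF. `s ≤ t ≤ T`. Dyadic approximations from above: `u_n = ⌈2^n s⌉₊ hm n`, `v_n = ⌈2^n t⌉₊ hm n`, `s ≤ u_n`, `t ≤ v_n`, `u_n ≤ v_n ≤ T + 1`, `u_n → s`, `v_n → t`.
`Mt u_n v_n → Mt s t` in `L²` (`inc`, and `drf_mem` for the integral over the small intervals) and a.s. (paths of `H` and of the integral are continuous).
* orthogonality: `Z` is `ℱ s ≤ ℱ u_n`-measurable, `mart_dyadic` with `T + 1`, limit.
* second claim: `Mt u_n v_n - mulv(B_{v_n} - B_{u_n})(H u_n) → Mt s t - mulv(B_t - B_s)(H s)` a.s. (continuous paths of `B`, `H`), Fatou (`lintegral_liminf_le`).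
* measurability: `Mt s t` is a.e. equal to an `ℱ t`-measurable function (pathwise Riemann sums `riemann_tendsto`, file `SdeR.lean`), so `ℱ t`-measurable up to a null set; the function itself
  is only required to be a.e. equal.
-/

open MeasureTheory ProbabilityTheory Filter Dyn
open scoped NNReal ENNReal Topology

namespace DynX

variable {Ω : Type} [mΩ : MeasurableSpace Ω] {P : Measure Ω} {N d : ℕ}
    {ℱ : Filtration ℝ≥0 mΩ} {B : Site d → Fin N → Fin N → ℝ≥0 → Ω → ℝ}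
    {H0 : Site d → Ω → E N} {k ε β : ℝ} {H : ℝ≥0 → Site d → Ω → E N}

/-- dyadic time above `t` -/
private noncomputable def XR_c (n : ℕ) (t : ℝ≥0) : ℝ≥0 := (⌈2 ^ n * t⌉₊ : ℝ≥0) * hm n

private lemma XR_hm (n : ℕ) : (2 : ℝ≥0) ^ n * hm n = 1 := by
  unfold hm
  rw [← mul_pow]
  norm_num

private lemma XR_hm_le (n : ℕ) : hm n ≤ 1 := by
  unfold hm
  exact pow_le_one₀ (by positivity) (by norm_num)

private lemma XR_le (n : ℕ) (t : ℝ≥0) : t ≤ XR_c n t := by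
  unfold XR_c
  calc t = (2 ^ n * t) * hm n := by rw [mul_right_comm, XR_hm, one_mul]
    _ ≤ _ := by gcongr; exact Nat.le_ceil _

private lemma XR_ge (n : ℕ) (t : ℝ≥0) : XR_c n t ≤ t + hm n := by
  unfold XR_c
  calc (⌈2 ^ n * t⌉₊ : ℝ≥0) * hm n ≤ (2 ^ n * t + 1) * hm n := by
        gcongr
        exact (Nat.ceil_lt_add_one zero_le).le
    _ = t + hm n := by rw [add_mul, mul_right_comm, XR_hm, one_mul, one_mul]

private lemma XR_mono (n : ℕ) {s t : ℝ≥0} (hst : s ≤ t) : XR_c n s ≤ XR_c n t := by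
  unfold XR_c
  gcongr

private lemma XR_hm_tendsto : Tendsto (fun m : ℕ => hm m) atTop (𝓝 0) := by
  unfold hm
  exact tendsto_pow_atTop_nhds_zero_of_lt_one (by norm_num) (by norm_num)

private lemma XR_tendsto (t : ℝ≥0) : Tendsto (fun n => XR_c n t) atTop (𝓝 t) := by
  refine tendsto_of_tendsto_of_tendsto_of_le_of_le (g := fun _ => t)
    (h := fun n => t + hm n) tendsto_const_nhds ?_ (fun n => XR_le n t) (fun n => XR_ge n t)
  have := (tendsto_const_nhds (x := t)).add XR_hm_tendsto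
  rwa [add_zero] at this

/-- limits outside a measurable set -/
private lemma XR_lim {Ω : Type} [m : MeasurableSpace Ω] {N : ℕ} (f : ℕ → Ω → E N) (g : Ω → E N)
    (hf : ∀ n, Measurable (f n)) (A : Set Ω) (hA : MeasurableSet A)
    (h : ∀ ω, ω ∉ A → Tendsto (fun n => f n ω) atTop (𝓝 (g ω))) :
    Measurable (Aᶜ.indicator g) := by
  refine measurable_of_tendsto_metrizable (f := fun n => Aᶜ.indicator (f n))
    (fun n => (hf n).indicator hA.compl) (tendsto_pi_nhds.2 fun ω => ?_)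
  by_cases hω : ω ∈ A
  · simp [hω]
  · simpa [hω] using h ω hω

private lemma XR_meas (hN : Noise P ℱ B H0) (t : ℝ≥0) (f : ℕ → Ω → E N) (g : Ω → E N)
    (hf : ∀ n, Measurable[ℱ t] (f n))
    (h : ∀ᵐ ω ∂P, Tendsto (fun n => f n ω) atTop (𝓝 (g ω))) :
    ∃ M' : Ω → E N, Measurable[ℱ t] M' ∧ g =ᵐ[P] M' := by
  obtain ⟨A, hA1, hA2, hA3⟩ := exists_measurable_superset_of_null (ae_iff.1 h)
  have hA4 := hN.compl t A hA2 hA3
  refine ⟨Aᶜ.indicator g, @XR_lim Ω (ℱ t) N f g hf A hA4 (fun ω hω => ?_), ?_⟩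
  · by_contra hc
    exact hω (hA1 hc)
  · have h5 : ∀ᵐ ω ∂P, ω ∉ A := by
      rw [ae_iff]
      simpa using hA3
    filter_upwards [h5] with ω hω
    simp [hω]

private lemma XR_isq {f : Ω → E N} (hf : MemLp f 2 P) : Integrable (fun ω => ‖f ω‖ ^ 2) P :=
  hf.integrable_norm_pow (by norm_num)

/-- Fatou for real integrals -/
private lemma XR_fatou {G : ℕ → Ω → ℝ} {g : Ω → ℝ} (hG0 : ∀ n ω, 0 ≤ G n ω)
    (hGi : ∀ n, Integrable (G n) P) (hg : AEStronglyMeasurable g P) (hg0 : ∀ ω, 0 ≤ g ω)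
    (h : ∀ᵐ ω ∂P, Tendsto (fun n => G n ω) atTop (𝓝 (g ω))) (c : ℕ → ℝ) (c0 : ℝ)
    (hc : Tendsto c atTop (𝓝 c0)) (hb : ∀ n, ∫ ω, G n ω ∂P ≤ c n) : ∫ ω, g ω ∂P ≤ c0 := by
  have hc0 : 0 ≤ c0 := ge_of_tendsto' hc fun n =>
    (integral_nonneg (hG0 n)).trans (hb n)
  have h1 : ∫⁻ ω, ENNReal.ofReal (g ω) ∂P ≤ ENNReal.ofReal c0 := by
    calc ∫⁻ ω, ENNReal.ofReal (g ω) ∂P
        = ∫⁻ ω, liminf (fun n => ENNReal.ofReal (G n ω)) atTop ∂P := by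
          refine lintegral_congr_ae ?_
          filter_upwards [h] with ω hω
          exact ((ENNReal.continuous_ofReal.tendsto _).comp hω).liminf_eq.symm
      _ ≤ liminf (fun n => ∫⁻ ω, ENNReal.ofReal (G n ω) ∂P) atTop :=
          lintegral_liminf_le' fun n => (hGi n).1.aemeasurable.ennreal_ofReal
      _ ≤ liminf (fun n => ENNReal.ofReal (c n)) atTop := by
          refine liminf_le_liminf (Eventually.of_forall fun n => ?_)
          rw [← ofReal_integral_eq_lintegral_ofReal (hGi n) (Eventually.of_forall (hG0 n))]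
          exact ENNReal.ofReal_le_ofReal (hb n)
      _ = ENNReal.ofReal c0 := ((ENNReal.continuous_ofReal.tendsto _).comp hc).liminf_eq
  rw [integral_eq_lintegral_of_nonneg_ae (Eventually.of_forall hg0) hg]
  exact ENNReal.toReal_le_of_le_ofReal hc0 h1

/-- `|E ⟪Z, W⟫| ≤ (δ E‖Z‖² + E‖W‖²/δ)/2` -/
private lemma XR_cs {Z W : Ω → E N} (hZ : MemLp Z 2 P) (hW : MemLp W 2 P) (δ : ℝ) (hδ : 0 < δ) :
    |∫ ω, inner ℝ (Z ω) (W ω) ∂P| ≤
      (δ * ∫ ω, ‖Z ω‖ ^ 2 ∂P + (∫ ω, ‖W ω‖ ^ 2 ∂P) / δ) / 2 := by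
  have e : (δ * ∫ ω, ‖Z ω‖ ^ 2 ∂P + (∫ ω, ‖W ω‖ ^ 2 ∂P) / δ) / 2 =
      ∫ ω, (δ * ‖Z ω‖ ^ 2 + ‖W ω‖ ^ 2 / δ) / 2 ∂P := by
    rw [integral_div, integral_add ((XR_isq hZ).const_mul δ) ((XR_isq hW).div_const δ),
      integral_const_mul, integral_div]
  rw [e]
  refine (abs_integral_le_integral_abs).trans (integral_mono_of_nonneg
    (Eventually.of_forall fun ω => abs_nonneg _)
    ((((XR_isq hZ).const_mul δ).add ((XR_isq hW).div_const δ)).div_const 2)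
    (Eventually.of_forall fun ω => ?_))
  have h1 := abs_real_inner_le_norm (Z ω) (W ω)
  have h2 : ‖Z ω‖ * ‖W ω‖ ≤ (δ * ‖Z ω‖ ^ 2 + ‖W ω‖ ^ 2 / δ) / 2 := by
    have h3 : 0 ≤ (δ * ‖Z ω‖ - ‖W ω‖) ^ 2 / δ := by positivity
    have h4 : (δ * ‖Z ω‖ - ‖W ω‖) ^ 2 / δ =
        δ * ‖Z ω‖ ^ 2 + ‖W ω‖ ^ 2 / δ - 2 * (‖Z ω‖ * ‖W ω‖) := by
      field_simp
      ring
    linarith
  exact h1.trans h2

private lemma XR_iinner {V Z : Ω → E N} (hV : MemLp V 2 P) (hZ : MemLp Z 2 P) :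
    Integrable (fun ω => inner ℝ (V ω) (Z ω)) P := by
  have h1 : Integrable (fun ω => ‖V ω‖ * ‖Z ω‖) P := hV.norm.integrable_mul hZ.norm
  refine h1.mono' (hV.1.inner hZ.1) (Filter.Eventually.of_forall fun ω => ?_)
  exact norm_inner_le_norm _ _

/-- pathwise continuity of the drift integral -/
private lemma XR_path {f : ℝ≥0 → E N} (hf : Continuous f) (s : ℝ≥0) :
    ∃ Φ : ℝ≥0 → E N, Continuous Φ ∧ ∀ a b : ℝ≥0,
      ∫ r in (a : ℝ)..b, f r.toNNReal = Φ b - Φ a := by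
  have hg : Continuous (fun r : ℝ => f r.toNNReal) := hf.comp continuous_real_toNNReal
  have hi : ∀ a b : ℝ, IntervalIntegrable (fun r : ℝ => f r.toNNReal) volume a b :=
    fun a b => hg.intervalIntegrable a b
  refine ⟨fun b => ∫ r in (s : ℝ)..b, f r.toNNReal,
    (intervalIntegral.continuous_primitive hi s).comp NNReal.continuous_coe, fun a b => ?_⟩
  have h1 := intervalIntegral.integral_add_adjacent_intervals (hi s a) (hi a b)
  exact eq_sub_of_add_eq' h1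

theorem mart_real (hN : Noise P ℱ B H0) (hβ : 0 < β) (hε : 0 < ε) (hk : 0 ≤ k)
    (hL : IsLim P k ε β ℱ B H0 H) (T : ℝ≥0) : ∃ C : ℝ, 0 ≤ C ∧ ∀ s t : ℝ≥0, s ≤ t → t ≤ T →
    ∀ x : Site d,
      (∃ M' : Ω → E N, Measurable[ℱ t] M' ∧ Mt k ε β H s t x =ᵐ[P] M') ∧
      MemLp (Mt k ε β H s t x) 2 P ∧
      ∫ ω, ‖Mt k ε β H s t x ω -
          mulv (fun a b => B x a b t ω - B x a b s ω) (H s x ω)‖ ^ 2 ∂P ≤
        C * ((t : ℝ) - s) ^ 2 ∧
      ∀ Z : Ω → E N, Measurable[ℱ s] Z → MemLp Z 2 P →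
        ∫ ω, inner ℝ (Z ω) (Mt k ε β H s t x ω) ∂P = 0 := by
  have := hN.prob
  obtain ⟨C1, hC10, hC1⟩ := mart_dyadic hN hβ hε hk hL (T + 1)
  obtain ⟨CD, hCD0, hCD⟩ := drf_mem hN hβ hL (T + 1)
  obtain ⟨CI, hCI0, hCI⟩ := hL.inc (T + 1)
  refine ⟨C1, hC10, fun s t hst htT x => ?_⟩
  have hHm : ∀ r y, Measurable (H r y) := fun r y => (hL.adapted r y).mono (ℱ.le r) le_rfl
  have hH2 : ∀ r ≤ T + 1, ∀ y, MemLp (H r y) 2 P := by
    intro r hr y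
    obtain ⟨C', hC'⟩ := hL.mom 2 (T + 1)
    exact (memLp_two_iff_integrable_sq_norm (hHm r y).aestronglyMeasurable).2 (hC' r hr y).1
  have hT1 : T ≤ T + 1 := le_self_add
  have ht1 : t ≤ T + 1 := htT.trans hT1
  have hs1 : s ≤ T + 1 := hst.trans ht1
  obtain ⟨D1, D2, D3, D4⟩ := hCD x
  -- MemLp
  have hMem : ∀ a b : ℝ≥0, a ≤ b → b ≤ T + 1 → MemLp (Mt k ε β H a b x) 2 P := by
    intro a b hab hb
    exact ((hH2 b hb x).sub (hH2 a (hab.trans hb) x)).sub (D4 a b hab hb).1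
  have hMst := hMem s t hst ht1
  -- dyadic times
  have hv1 : ∀ n, XR_c n t ≤ T + 1 := fun n => (XR_ge n t).trans (add_le_add htT (XR_hm_le n))
  have hu1 : ∀ n, XR_c n s ≤ T + 1 := fun n => (XR_mono n hst).trans (hv1 n)
  have hdy : ∀ n, MemLp (Mt k ε β H (XR_c n s) (XR_c n t) x) 2 P ∧
      ∫ ω, ‖Mt k ε β H (XR_c n s) (XR_c n t) x ω -
          mulv (fun a b => B x a b (XR_c n t) ω - B x a b (XR_c n s) ω)
            (H (XR_c n s) x ω)‖ ^ 2 ∂P ≤ C1 * ((XR_c n t : ℝ) - XR_c n s) ^ 2 ∧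
      ∀ Z : Ω → E N, Measurable[ℱ (XR_c n s)] Z → MemLp Z 2 P →
        ∫ ω, inner ℝ (Z ω) (Mt k ε β H (XR_c n s) (XR_c n t) x ω) ∂P = 0 := by
    intro n
    have hle : ⌈2 ^ n * s⌉₊ ≤ ⌈2 ^ n * t⌉₊ := Nat.ceil_mono (by gcongr)
    have h := hC1 n _ _ hle (hv1 n) x
    have e : (((⌈2 ^ n * t⌉₊ : ℝ) - (⌈2 ^ n * s⌉₊ : ℝ)) * hm n) =
        (XR_c n t : ℝ) - XR_c n s := by
      unfold XR_c
      push_cast
      ring
    rw [e] at h
    exact h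
  -- paths
  have hpath : ∀ᵐ ω ∂P, ∃ Φ : ℝ≥0 → E N, Continuous Φ ∧ ∀ a b : ℝ≥0,
      ∫ r in (a : ℝ)..b, drf k ε β (fun y => H r.toNNReal y ω) x = Φ b - Φ a := by
    filter_upwards [D2] with ω hω
    exact XR_path hω s
  -- a.s. convergence
  have hconv : ∀ᵐ ω ∂P, Tendsto (fun n => Mt k ε β H (XR_c n s) (XR_c n t) x ω) atTop
      (𝓝 (Mt k ε β H s t x ω)) := by
    filter_upwards [hpath, hL.cont x] with ω ⟨Φ, hΦ, hΦe⟩ hω
    unfold Mt
    simp only [hΦe]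
    have hu := XR_tendsto s
    have hv := XR_tendsto t
    exact (((hω.tendsto t).comp hv).sub ((hω.tendsto s).comp hu)).sub
      (((hΦ.tendsto t).comp hv).sub ((hΦ.tendsto s).comp hu))
  -- L² convergence
  have hL2 : ∀ n, ∫ ω, ‖Mt k ε β H (XR_c n s) (XR_c n t) x ω - Mt k ε β H s t x ω‖ ^ 2 ∂P ≤
      8 * (CI * hm n + CD * (hm n : ℝ) ^ 2) := by
    intro n
    obtain ⟨u, hu⟩ : ∃ u, u = XR_c n s := ⟨_, rfl⟩
    obtain ⟨v, hv⟩ : ∃ v, v = XR_c n t := ⟨_, rfl⟩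
    rw [← hu, ← hv]
    have hsu : s ≤ u := hu ▸ XR_le n s
    have htv : t ≤ v := hv ▸ XR_le n t
    have huT : u ≤ T + 1 := hu ▸ hu1 n
    have hvT : v ≤ T + 1 := hv ▸ hv1 n
    have hu2 : (u : ℝ) - s ≤ hm n := by
      have h := XR_ge n s
      rw [← hu] at h
      have h' : (u : ℝ) ≤ s + hm n := by exact_mod_cast h
      linarith
    have hv2 : (v : ℝ) - t ≤ hm n := by
      have h := XR_ge n t
      rw [← hv] at h
      have h' : (v : ℝ) ≤ t + hm n := by exact_mod_cast h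
      linarith
    have hu3 : 0 ≤ (u : ℝ) - s := sub_nonneg.2 (by exact_mod_cast hsu)
    have hv3 : 0 ≤ (v : ℝ) - t := sub_nonneg.2 (by exact_mod_cast htv)
    have m1 := (hH2 v hvT x).sub (hH2 t ht1 x)
    have m2 := (hH2 u huT x).sub (hH2 s hs1 x)
    obtain ⟨m3, b3⟩ := D4 t v htv hvT
    obtain ⟨m4, b4⟩ := D4 s u hsu huT
    have b1 := hCI t v htv hvT x
    have b2 := hCI s u hsu huT x
    have hI : Integrable (fun ω => 4 * (‖H v x ω - H t x ω‖ ^ 2 + ‖H u x ω - H s x ω‖ ^ 2 +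
        ‖∫ r in (t : ℝ)..v, drf k ε β (fun y => H r.toNNReal y ω) x‖ ^ 2 +
        ‖∫ r in (s : ℝ)..u, drf k ε β (fun y => H r.toNNReal y ω) x‖ ^ 2)) P :=
      ((((XR_isq m1).add (XR_isq m2)).add (XR_isq m3)).add (XR_isq m4)).const_mul 4
    have hle : ∫ ω, ‖Mt k ε β H u v x ω - Mt k ε β H s t x ω‖ ^ 2 ∂P ≤
        ∫ ω, 4 * (‖H v x ω - H t x ω‖ ^ 2 + ‖H u x ω - H s x ω‖ ^ 2 +
        ‖∫ r in (t : ℝ)..v, drf k ε β (fun y => H r.toNNReal y ω) x‖ ^ 2 +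
        ‖∫ r in (s : ℝ)..u, drf k ε β (fun y => H r.toNNReal y ω) x‖ ^ 2) ∂P := by
      refine integral_mono_of_nonneg (Eventually.of_forall fun ω => sq_nonneg _) hI ?_
      filter_upwards [hpath] with ω ⟨Φ, hΦ, hΦe⟩
      simp only [Mt, hΦe]
      have e : H v x ω - H u x ω - (Φ v - Φ u) - (H t x ω - H s x ω - (Φ t - Φ s)) =
          (H v x ω - H t x ω) - (H u x ω - H s x ω) - (Φ v - Φ t) + (Φ u - Φ s) := by abel
      rw [e]
      have n1 := norm_add_le ((H v x ω - H t x ω) - (H u x ω - H s x ω) - (Φ v - Φ t)) (Φ u - Φ s)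
      have n2 := norm_sub_le ((H v x ω - H t x ω) - (H u x ω - H s x ω)) (Φ v - Φ t)
      have n3 := norm_sub_le (H v x ω - H t x ω) (H u x ω - H s x ω)
      have n0 := norm_nonneg ((H v x ω - H t x ω) - (H u x ω - H s x ω) - (Φ v - Φ t) +
        (Φ u - Φ s))
      have n4 : ‖(H v x ω - H t x ω) - (H u x ω - H s x ω) - (Φ v - Φ t) + (Φ u - Φ s)‖ ≤
          ‖H v x ω - H t x ω‖ + ‖H u x ω - H s x ω‖ + ‖Φ v - Φ t‖ + ‖Φ u - Φ s‖ := by linarith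
      have n5 := pow_le_pow_left₀ n0 n4 2
      refine n5.trans ?_
      nlinarith [sq_nonneg (‖H v x ω - H t x ω‖ - ‖H u x ω - H s x ω‖),
        sq_nonneg (‖H v x ω - H t x ω‖ - ‖Φ v - Φ t‖),
        sq_nonneg (‖H v x ω - H t x ω‖ - ‖Φ u - Φ s‖),
        sq_nonneg (‖H u x ω - H s x ω‖ - ‖Φ v - Φ t‖),
        sq_nonneg (‖H u x ω - H s x ω‖ - ‖Φ u - Φ s‖),
        sq_nonneg (‖Φ v - Φ t‖ - ‖Φ u - Φ s‖)]
    refine hle.trans ?_
    have j1 : Integrable (fun ω => ‖H v x ω - H t x ω‖ ^ 2) P := XR_isq m1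
    have j2 : Integrable (fun ω => ‖H u x ω - H s x ω‖ ^ 2) P := XR_isq m2
    have i12 : Integrable (fun ω => ‖H v x ω - H t x ω‖ ^ 2 + ‖H u x ω - H s x ω‖ ^ 2) P :=
      j1.add j2
    have i123 : Integrable (fun ω => ‖H v x ω - H t x ω‖ ^ 2 + ‖H u x ω - H s x ω‖ ^ 2 +
        ‖∫ r in (t : ℝ)..v, drf k ε β (fun y => H r.toNNReal y ω) x‖ ^ 2) P :=
      i12.add (XR_isq m3)
    rw [integral_const_mul, integral_add i123 (XR_isq m4), integral_add i12 (XR_isq m3),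
      integral_add j1 j2]
    have c1 : CI * ((v : ℝ) - t) ≤ CI * hm n := mul_le_mul_of_nonneg_left hv2 hCI0
    have c2 : CI * ((u : ℝ) - s) ≤ CI * hm n := mul_le_mul_of_nonneg_left hu2 hCI0
    have c3 : CD * ((v : ℝ) - t) ^ 2 ≤ CD * (hm n : ℝ) ^ 2 :=
      mul_le_mul_of_nonneg_left (pow_le_pow_left₀ hv3 hv2 2) hCD0
    have c4 : CD * ((u : ℝ) - s) ^ 2 ≤ CD * (hm n : ℝ) ^ 2 :=
      mul_le_mul_of_nonneg_left (pow_le_pow_left₀ hu3 hu2 2) hCD0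
    have b1' : ∫ ω, ‖H v x ω - H t x ω‖ ^ 2 ∂P ≤ CI * ((v : ℝ) - t) := b1
    have b2' : ∫ ω, ‖H u x ω - H s x ω‖ ^ 2 ∂P ≤ CI * ((u : ℝ) - s) := b2
    linarith
  have hh : Tendsto (fun n => ((hm n : ℝ≥0) : ℝ)) atTop (𝓝 0) := by
    have h := (NNReal.continuous_coe.tendsto 0).comp XR_hm_tendsto
    rw [NNReal.coe_zero] at h
    exact h
  have hL2t : Tendsto (fun n => 8 * (CI * (hm n : ℝ) + CD * (hm n : ℝ) ^ 2)) atTop (𝓝 0) := by
    have h := ((hh.const_mul CI).add ((hh.pow 2).const_mul CD)).const_mul 8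
    simpa using h
  refine ⟨?_, hMst, ?_, ?_⟩
  · -- measurability
    have hR : ∀ᵐ ω ∂P, Tendsto (fun n : ℕ => H t x ω - H s x ω - ∑ i ∈ Finset.range n,
        (((t - s) / n : ℝ≥0) : ℝ) • drf k ε β (fun y => H (s + i * ((t - s) / n)) y ω) x) atTop
        (𝓝 (Mt k ε β H s t x ω)) := by
      filter_upwards [D2] with ω hω
      exact tendsto_const_nhds.sub (riemann_tendsto _ hω s t hst)
    refine XR_meas hN t _ _ (fun n => ?_) hR
    refine ((hL.adapted t x).sub ((hL.adapted s x).mono (ℱ.mono hst) le_rfl)).sub ?_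
    refine Finset.measurable_fun_sum _ fun i hi => ?_
    have hn0 : (0 : ℝ≥0) < n := by
      have := Finset.mem_range.1 hi
      exact_mod_cast (by omega : 0 < n)
    have hi' : (i : ℝ≥0) ≤ n := by
      have := (Finset.mem_range.1 hi).le
      exact_mod_cast this
    have h3 : s + i * ((t - s) / n) ≤ t := by
      calc s + i * ((t - s) / n) ≤ s + n * ((t - s) / n) := by gcongr
        _ = s + (t - s) := by rw [mul_div_cancel₀ _ hn0.ne']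
        _ = t := add_tsub_cancel_of_le hst
    have h4 := ((D1 (s + i * ((t - s) / n))).mono (ℱ.mono h3) le_rfl).const_smul
      (((t - s) / n : ℝ≥0) : ℝ)
    exact h4
  · -- second moment
    have hB : ∀ᵐ ω ∂P, ∀ a b, Continuous (fun r => B x a b r ω) :=
      ae_all_iff.2 fun a => ae_all_iff.2 fun b => (hN.brownian x a b).cont
    have hmul : ∀ a b : ℝ≥0, a ≤ b → b ≤ T + 1 → MemLp (fun ω =>
        mulv (fun i j => B x i j b ω - B x i j a ω) (H a x ω)) 2 P := fun a b hab hb =>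
      (mulv_sq (zero_dyn hN k ε β) a b hab x (H a x) (hL.adapted a x)
        (hH2 a (hab.trans hb) x)).1
    refine XR_fatou (G := fun n ω => ‖Mt k ε β H (XR_c n s) (XR_c n t) x ω -
          mulv (fun a b => B x a b (XR_c n t) ω - B x a b (XR_c n s) ω)
            (H (XR_c n s) x ω)‖ ^ 2) (fun n ω => sq_nonneg _)
      (fun n => XR_isq ((hdy n).1.sub (hmul _ _ (XR_mono n hst) (hv1 n))))
      (XR_isq (hMst.sub (hmul s t hst ht1))).1 (fun ω => sq_nonneg _) ?_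
      (fun n => C1 * ((XR_c n t : ℝ) - XR_c n s) ^ 2) _ ?_ (fun n => (hdy n).2.1)
    · filter_upwards [hconv, hB, hL.cont x] with ω h1 h2 h3
      refine ((h1.sub ?_).norm).pow 2
      have hu := XR_tendsto s
      have hv := XR_tendsto t
      have h4 : Tendsto (fun n => ((fun a b => B x a b (XR_c n t) ω - B x a b (XR_c n s) ω :
          Fin N → Fin N → ℝ), H (XR_c n s) x ω)) atTop
          (𝓝 ((fun a b => B x a b t ω - B x a b s ω : Fin N → Fin N → ℝ), H s x ω)) := by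
        refine Tendsto.prodMk_nhds ?_ ((h3.tendsto s).comp hu)
        refine tendsto_pi_nhds.2 fun a => tendsto_pi_nhds.2 fun b => ?_
        exact (((h2 a b).tendsto t).comp hv).sub (((h2 a b).tendsto s).comp hu)
      exact ((mulv_continuous N).tendsto _).comp h4
    · have hu := (NNReal.continuous_coe.tendsto s).comp (XR_tendsto s)
      have hv := (NNReal.continuous_coe.tendsto t).comp (XR_tendsto t)
      exact ((hv.sub hu).pow 2).const_mul C1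
  · -- orthogonality
    intro Z hZ hZ2
    have hle : ∀ δ : ℝ, 0 < δ → |∫ ω, inner ℝ (Z ω) (Mt k ε β H s t x ω) ∂P| ≤
        δ * (∫ ω, ‖Z ω‖ ^ 2 ∂P) / 2 := by
      intro δ hδ
      have h1 : ∀ n, |∫ ω, inner ℝ (Z ω) (Mt k ε β H s t x ω) ∂P| ≤
          (δ * ∫ ω, ‖Z ω‖ ^ 2 ∂P + (8 * (CI * (hm n : ℝ) + CD * (hm n : ℝ) ^ 2)) / δ) / 2 := by
        intro n
        have hF := (hdy n).1
        have h2 := (hdy n).2.2 Z (hZ.mono (ℱ.mono (XR_le n s)) le_rfl) hZ2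
        have h3 : ∫ ω, inner ℝ (Z ω) (Mt k ε β H (XR_c n s) (XR_c n t) x ω -
            Mt k ε β H s t x ω) ∂P = - ∫ ω, inner ℝ (Z ω) (Mt k ε β H s t x ω) ∂P := by
          simp only [inner_sub_right]
          rw [integral_sub (XR_iinner hZ2 hF) (XR_iinner hZ2 hMst), h2, zero_sub]
        have h4 := XR_cs hZ2 (hF.sub hMst) δ hδ
        simp only [Pi.sub_apply] at h4
        rw [h3, abs_neg] at h4
        have h5 := div_le_div_of_nonneg_right (hL2 n) hδ.le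
        linarith
      have h2 : Tendsto (fun n => (δ * ∫ ω, ‖Z ω‖ ^ 2 ∂P +
          (8 * (CI * (hm n : ℝ) + CD * (hm n : ℝ) ^ 2)) / δ) / 2) atTop
          (𝓝 ((δ * ∫ ω, ‖Z ω‖ ^ 2 ∂P + 0 / δ) / 2)) :=
        (tendsto_const_nhds.add (hL2t.div_const δ)).div_const 2
      have h3 := ge_of_tendsto' h2 h1
      rw [zero_div, add_zero] at h3
      exact h3
    have hz : |∫ ω, inner ℝ (Z ω) (Mt k ε β H s t x ω) ∂P| ≤ 0 := by
      have h0 : 0 ≤ ∫ ω, ‖Z ω‖ ^ 2 ∂P := integral_nonneg fun ω => sq_nonneg _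
      refine le_of_forall_pos_le_add fun e he => ?_
      have h1 := hle (e / (∫ ω, ‖Z ω‖ ^ 2 ∂P + 1)) (by positivity)
      refine h1.trans ?_
      rw [zero_add, div_mul_eq_mul_div, div_div, div_le_iff₀ (by positivity)]
      nlinarith
    exact abs_eq_zero.1 (le_antisymm hz (abs_nonneg _))

end DynX

end

/-! ### from `Lib_MP_36b788x.XIt` -/

section

/-!
# The Ito equation

PROOF. `u_i = s + i (t-s)/n`, `i ≤ n` (the points of `rsum`), `ξ_i = Mt u_i u_{i+1} x - mulv (B_{u_{i+1}} - B_{u_i}) (H u_i x)`, `i < n`. `Mt` is additive (interval integrals, paths continuous for a.e. `ω`), so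
`Mt s t x - rsum B H x s t n = Σ_{i<n} ξ_i` a.e. (for `n ≥ 1`). `ξ_i` is a.e. equal to an `ℱ u_{i+1}`-measurable function (`mart_real`, first claim; `inc_meas`), and `E⟪Z, ξ_i⟫ = 0` for every `ℱ u_i`-measurable
`Z ∈ L²` (`mart_real`, `mulv_sq` for `zero_dyn`). Hence `E‖Σ ξ_i‖² = Σ E‖ξ_i‖² ≤ n C ((t-s)/n)² → 0`.
-/

open MeasureTheory ProbabilityTheory Filter Dyn
open scoped NNReal ENNReal Topology

namespace DynX

variable {Ω : Type} [mΩ : MeasurableSpace Ω] {P : Measure Ω} {N d : ℕ}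
    {ℱ : Filtration ℝ≥0 mΩ} {B : Site d → Fin N → Fin N → ℝ≥0 → Ω → ℝ}
    {H0 : Site d → Ω → E N} {k ε β : ℝ} {H : ℝ≥0 → Site d → Ω → E N}

private theorem XIt_meas0 {Ω : Type} (m : MeasurableSpace Ω) {N : ℕ}
    (b : Fin N → Fin N → Ω → ℝ) (hb : ∀ i j, Measurable (b i j)) (V : Ω → E N)
    (hV : Measurable V) : Measurable (fun ω => mulv (fun i j => b i j ω) (V ω)) := by
  have h1 : Measurable (fun ω => (fun (i j : Fin N) => b i j ω)) :=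
    measurable_pi_iff.2 fun i => measurable_pi_iff.2 fun j => hb i j
  exact (mulv_continuous N).measurable.comp (h1.prodMk hV)

private theorem XIt_iinner {Ω : Type} [mΩ : MeasurableSpace Ω] {P : Measure Ω} {N : ℕ}
    (V Z : Ω → E N) (hV : MemLp V 2 P) (hZ : MemLp Z 2 P) :
    Integrable (fun ω => inner ℝ (V ω) (Z ω)) P := by
  have h1 : Integrable (fun ω => ‖V ω‖ * ‖Z ω‖) P := hV.norm.integrable_mul hZ.norm
  refine h1.mono' (hV.1.inner hZ.1) (Filter.Eventually.of_forall fun ω => ?_)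
  exact norm_inner_le_norm _ _

/-- partial sums of orthogonal increments -/
private theorem XIt_partial {Ω : Type} [mΩ : MeasurableSpace Ω] {P : Measure Ω} {N : ℕ}
    {ℱ : Filtration ℝ≥0 mΩ} (τ : ℕ → ℝ≥0) (hτ : Monotone τ) (ξ : ℕ → Ω → E N) (c : ℝ) (n : ℕ)
    (hξ : ∀ i < n, (∃ M' : Ω → E N, Measurable[ℱ (τ (i + 1))] M' ∧ ξ i =ᵐ[P] M') ∧
      MemLp (ξ i) 2 P ∧ ∫ ω, ‖ξ i ω‖ ^ 2 ∂P ≤ c ∧
      ∀ Z : Ω → E N, Measurable[ℱ (τ i)] Z → MemLp Z 2 P →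
        ∫ ω, inner ℝ (Z ω) (ξ i ω) ∂P = 0) :
    ∀ m ≤ n, (∃ M' : Ω → E N, Measurable[ℱ (τ m)] M' ∧
        (fun ω => ∑ i ∈ Finset.range m, ξ i ω) =ᵐ[P] M') ∧
      MemLp (fun ω => ∑ i ∈ Finset.range m, ξ i ω) 2 P ∧
      ∫ ω, ‖∑ i ∈ Finset.range m, ξ i ω‖ ^ 2 ∂P ≤ m * c := by
  intro m
  induction m with
  | zero =>
    intro _
    refine ⟨⟨fun _ => 0, measurable_const, ?_⟩, ?_, ?_⟩
    · exact Filter.Eventually.of_forall fun ω => by simp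
    · simp only [Finset.range_zero, Finset.sum_empty]
      exact MemLp.zero'
    · simp
  | succ m ih =>
    intro hm
    obtain ⟨⟨M', hM', hSM'⟩, h2, h3⟩ := ih (by omega)
    obtain ⟨⟨L', hL', hξL'⟩, u2, u3, u4⟩ := hξ m (by omega)
    have hst : τ m ≤ τ (m + 1) := hτ (Nat.le_succ m)
    set S : Ω → E N := fun ω => ∑ i ∈ Finset.range m, ξ i ω with hS
    have hSum : ∀ ω, ∑ i ∈ Finset.range (m + 1), ξ i ω = S ω + ξ m ω := by
      intro ω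
      rw [Finset.sum_range_succ]
    simp only [hSum]
    refine ⟨⟨fun ω => M' ω + L' ω, (hM'.mono (ℱ.mono hst) le_rfl).add hL', ?_⟩, h2.add u2, ?_⟩
    · filter_upwards [hSM', hξL'] with ω h5 h6
      rw [← h6]
      have h7 : S ω = M' ω := h5
      rw [h7]
    · have i1 : Integrable (fun ω => ‖S ω‖ ^ 2) P :=
        (memLp_two_iff_integrable_sq_norm h2.1).1 h2
      have i2 : Integrable (fun ω => ‖ξ m ω‖ ^ 2) P :=
        (memLp_two_iff_integrable_sq_norm u2.1).1 u2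
      have i3 : Integrable (fun ω => 2 * inner ℝ (S ω) (ξ m ω)) P :=
        (XIt_iinner S (ξ m) h2 u2).const_mul 2
      have e1 : ∫ ω, ‖S ω + ξ m ω‖ ^ 2 ∂P
          = ∫ ω, ‖S ω‖ ^ 2 ∂P + 2 * ∫ ω, inner ℝ (S ω) (ξ m ω) ∂P + ∫ ω, ‖ξ m ω‖ ^ 2 ∂P := by
        simp only [norm_add_sq_real]
        have i12 : Integrable (fun ω => ‖S ω‖ ^ 2 + 2 * inner ℝ (S ω) (ξ m ω)) P := i1.add i3
        rw [integral_add i12 i2, integral_add i1 i3, integral_const_mul]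
      have e2 : ∫ ω, inner ℝ (S ω) (ξ m ω) ∂P = 0 := by
        have e3 : ∫ ω, inner ℝ (S ω) (ξ m ω) ∂P = ∫ ω, inner ℝ (M' ω) (ξ m ω) ∂P := by
          refine integral_congr_ae ?_
          filter_upwards [hSM'] with ω h5
          have h7 : S ω = M' ω := h5
          rw [h7]
        rw [e3]
        exact u4 M' hM' ((memLp_congr_ae hSM').1 h2)
      rw [e1, e2]
      push_cast
      linarith

/-- the increment on one interval -/
private theorem XIt_one (hN : Noise P ℱ B H0) (hL : IsLim P k ε β ℱ B H0 H) (x : Site d)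
    {t : ℝ≥0} {C : ℝ}
    (hC : ∀ s' t' : ℝ≥0, s' ≤ t' → t' ≤ t → ∀ x : Site d,
      (∃ M' : Ω → E N, Measurable[ℱ t'] M' ∧ Mt k ε β H s' t' x =ᵐ[P] M') ∧
      MemLp (Mt k ε β H s' t' x) 2 P ∧
      ∫ ω, ‖Mt k ε β H s' t' x ω -
          mulv (fun a b => B x a b t' ω - B x a b s' ω) (H s' x ω)‖ ^ 2 ∂P ≤
        C * ((t' : ℝ) - s') ^ 2 ∧
      ∀ Z : Ω → E N, Measurable[ℱ s'] Z → MemLp Z 2 P →
        ∫ ω, inner ℝ (Z ω) (Mt k ε β H s' t' x ω) ∂P = 0)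
    (u v : ℝ≥0) (huv : u ≤ v) (hv : v ≤ t) (ξ : Ω → E N)
    (hξ : ξ = fun ω => Mt k ε β H u v x ω -
      mulv (fun a b => B x a b v ω - B x a b u ω) (H u x ω)) :
    (∃ M' : Ω → E N, Measurable[ℱ v] M' ∧ ξ =ᵐ[P] M') ∧ MemLp ξ 2 P ∧
      ∫ ω, ‖ξ ω‖ ^ 2 ∂P ≤ C * ((v : ℝ) - u) ^ 2 ∧
      ∀ Z : Ω → E N, Measurable[ℱ u] Z → MemLp Z 2 P →
        ∫ ω, inner ℝ (Z ω) (ξ ω) ∂P = 0 := by
  have := hN.prob
  have hZ := zero_dyn hN k ε β
  obtain ⟨⟨M', hM', hMM'⟩, h2, h3, h4⟩ := hC u v huv hv x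
  have hHm : Measurable (H u x) := (hL.adapted u x).mono (ℱ.le u) le_rfl
  have hH2 : MemLp (H u x) 2 P := by
    obtain ⟨C', hC'⟩ := hL.mom 2 t
    exact (memLp_two_iff_integrable_sq_norm hHm.aestronglyMeasurable).2
      (hC' u (huv.trans hv) x).1
  obtain ⟨q1, q2, q3⟩ := mulv_sq hZ u v huv x (H u x) (hL.adapted u x) hH2
  have qm : Measurable[ℱ v] (fun ω => mulv (fun a b => B x a b v ω - B x a b u ω) (H u x ω)) :=
    XIt_meas0 (ℱ v) (fun a b ω => B x a b v ω - B x a b u ω)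
      (fun a b => (inc_meas hZ u v huv x a b).1) (H u x) ((hL.adapted u x).mono (ℱ.mono huv) le_rfl)
  subst hξ
  refine ⟨⟨fun ω => M' ω - mulv (fun a b => B x a b v ω - B x a b u ω) (H u x ω),
    hM'.sub qm, ?_⟩, h2.sub q1, h3, ?_⟩
  · filter_upwards [hMM'] with ω h5
    rw [h5]
  · intro Z hZm hZ2
    simp only [inner_sub_right]
    rw [integral_sub (XIt_iinner Z _ hZ2 h2) (XIt_iinner Z _ hZ2 q1), h4 Z hZm hZ2,
      q3 Z hZm hZ2, sub_zero]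

theorem ito_of_lim (hN : Noise P ℱ B H0) (hβ : 0 < β) (hε : 0 < ε) (hk : 0 ≤ k)
    (hL : IsLim P k ε β ℱ B H0 H) (x : Site d) (s t : ℝ≥0) (hst : s ≤ t) :
    Tendsto (fun n : ℕ => eLpNorm (fun ω => H t x ω - H s x ω
        - (∫ r in (s : ℝ)..t, drf k ε β (fun y => H r.toNNReal y ω) x)
        - rsum B H x s t n ω) 2 P) atTop (𝓝 0) := by
  have := hN.prob
  obtain ⟨C, hC0, hC⟩ := mart_real hN hβ hε hk hL t
  obtain ⟨C1, -, hD⟩ := drf_mem hN hβ hL t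
  obtain ⟨-, hcont, -, -⟩ := hD x
  have hst' : (s : ℝ) ≤ t := by exact_mod_cast hst
  -- the bound
  have key : ∀ n : ℕ, 1 ≤ n → eLpNorm (fun ω => H t x ω - H s x ω
        - (∫ r in (s : ℝ)..t, drf k ε β (fun y => H r.toNNReal y ω) x)
        - rsum B H x s t n ω) 2 P ≤
      ENNReal.ofReal (Real.sqrt ((C * ((t : ℝ) - s) ^ 2) / n)) := by
    intro n hn
    have hn' : n ≠ 0 := by omega
    have hn0 : (n : ℝ≥0) ≠ 0 := by exact_mod_cast hn'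
    have hnR : (n : ℝ) ≠ 0 := by exact_mod_cast hn'
    obtain ⟨τ, hτ⟩ : ∃ τ : ℕ → ℝ≥0, τ = fun i : ℕ => s + (i : ℝ≥0) * ((t - s) / n) := ⟨_, rfl⟩
    have hτm : Monotone τ := by
      intro i j hij
      have h1 : (i : ℝ≥0) ≤ j := by exact_mod_cast hij
      rw [hτ]
      exact add_le_add_right (mul_le_mul_left h1 _) s
    have hτn : τ n = t := by
      rw [hτ]
      show s + (n : ℝ≥0) * ((t - s) / n) = t
      rw [mul_div_cancel₀ _ hn0, add_tsub_cancel_of_le hst]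
    have hτ0 : τ 0 = s := by
      rw [hτ]
      simp
    have hτle : ∀ i : ℕ, i ≤ n → τ i ≤ t := by
      intro i hi
      have h1 := hτm hi
      rwa [hτn] at h1
    have hτd : ∀ i : ℕ, ((τ (i + 1) : ℝ≥0) : ℝ) - τ i = ((t : ℝ) - s) / n := by
      intro i
      rw [hτ]
      simp only [NNReal.coe_add, NNReal.coe_mul, NNReal.coe_div, NNReal.coe_sub hst,
        NNReal.coe_natCast, Nat.cast_add, Nat.cast_one, NNReal.coe_one]
      ring
    obtain ⟨ξ, hξ⟩ : ∃ ξ : ℕ → Ω → E N, ξ = fun i ω => Mt k ε β H (τ i) (τ (i + 1)) x ω -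
      mulv (fun a b => B x a b (τ (i + 1)) ω - B x a b (τ i) ω) (H (τ i) x ω) := ⟨_, rfl⟩
    obtain ⟨-, p2, p3⟩ := XIt_partial (P := P) (ℱ := ℱ) τ hτm ξ
      (C * (((t : ℝ) - s) / n) ^ 2) n (fun i hi => by
        have h := XIt_one hN hL x hC (τ i) (τ (i + 1)) (hτm (Nat.le_succ i))
          (hτle (i + 1) hi) (ξ i) (by rw [hξ])
        rwa [hτd] at h) n le_rfl
    have hae : (fun ω => H t x ω - H s x ω
        - (∫ r in (s : ℝ)..t, drf k ε β (fun y => H r.toNNReal y ω) x)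
        - rsum B H x s t n ω) =ᵐ[P] fun ω => ∑ i ∈ Finset.range n, ξ i ω := by
      filter_upwards [hcont] with ω hω
      have hc2 : Continuous fun r : ℝ => drf k ε β (fun y => H r.toNNReal y ω) x :=
        hω.comp continuous_real_toNNReal
      have e1 : ∑ i ∈ Finset.range n, (H (τ (i + 1)) x ω - H (τ i) x ω) =
          H t x ω - H s x ω := by
        rw [Finset.sum_range_sub (fun i => H (τ i) x ω), hτn, hτ0]
      have e2 : ∑ i ∈ Finset.range n, (∫ r in ((τ i : ℝ≥0) : ℝ)..(τ (i + 1) : ℝ≥0),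
          drf k ε β (fun y => H r.toNNReal y ω) x) =
          ∫ r in (s : ℝ)..t, drf k ε β (fun y => H r.toNNReal y ω) x := by
        have h := intervalIntegral.sum_integral_adjacent_intervals (μ := volume)
          (f := fun r : ℝ => drf k ε β (fun y => H r.toNNReal y ω) x)
          (a := fun i => ((τ i : ℝ≥0) : ℝ)) (n := n)
          (fun i _ => hc2.intervalIntegrable _ _)
        rw [hτn, hτ0] at h
        exact h
      have e3 : rsum B H x s t n ω = ∑ i ∈ Finset.range n,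
          mulv (fun a b => B x a b (τ (i + 1)) ω - B x a b (τ i) ω) (H (τ i) x ω) := by
        rw [hτ]
        simp only [rsum, Nat.cast_add, Nat.cast_one]
      rw [hξ]
      simp only [Mt]
      rw [Finset.sum_sub_distrib, Finset.sum_sub_distrib, e1, e2, e3]
    rw [eLpNorm_congr_ae hae, p2.eLpNorm_eq_integral_rpow_norm (by norm_num) (by norm_num)]
    refine ENNReal.ofReal_le_ofReal ?_
    have e4 : (2 : ℝ≥0∞).toReal = 2 := by norm_num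
    rw [e4]
    have e5 : ∀ y : ℝ, y ^ (2 : ℝ)⁻¹ = Real.sqrt y := by
      intro y
      rw [Real.sqrt_eq_rpow, one_div]
    rw [e5]
    refine Real.sqrt_le_sqrt ?_
    have e6 : ∫ ω, ‖∑ i ∈ Finset.range n, ξ i ω‖ ^ (2 : ℝ) ∂P =
        ∫ ω, ‖∑ i ∈ Finset.range n, ξ i ω‖ ^ 2 ∂P := by
      refine integral_congr_ae (Filter.Eventually.of_forall fun ω => ?_)
      simp only [Real.rpow_two]
    rw [e6]
    refine p3.trans (le_of_eq ?_)
    field_simp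
  refine tendsto_of_tendsto_of_tendsto_of_le_of_le' tendsto_const_nhds ?_
    (Filter.Eventually.of_forall fun n => zero_le)
    (Filter.eventually_atTop.2 ⟨1, fun n hn => key n hn⟩)
  have h1 : Tendsto (fun n : ℕ => (C * ((t : ℝ) - s) ^ 2) / (n : ℝ)) atTop (𝓝 0) :=
    tendsto_const_div_atTop_nhds_zero_nat _
  have h2 := (Real.continuous_sqrt.tendsto 0).comp h1
  have h3 := ENNReal.tendsto_ofReal h2
  simpa using h3

end DynX

end
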